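import Pool.Agent.P.MP_2677b3_gt.BuAs3

namespace Pool.Agent.MC

theorem buas4_per {D : Type} [Finite D] (f : D → D) (P : D → Prop) (h1 : ∀ d, P d → P (f d))
    (h2 : ∀ d d', P d → P d' → f d = f d' → d = d') {x : D} (hx : P x) :
    x ∈ Function.periodicPts f := by
  let g : Subtype P → Subtype P := fun d => ⟨f d.1, h1 _ d.2⟩
  have hg : Function.Injective g := fun d d' e =>
    Subtype.ext (h2 _ _ d.2 d'.2 (congrArg Subtype.val e))
  have hi : ∀ n (d : Subtype P), (g^[n] d).1 = f^[n] d.1 := by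
    intro n
    induction n with
    | zero => intro d; rfl
    | succ n ih => intro d; rw [Function.iterate_succ_apply, Function.iterate_succ_apply, ih]
  obtain ⟨n, hn, e⟩ := hg.mem_periodicPts ⟨x, hx⟩
  exact ⟨n, hn, by rw [Function.IsPeriodicPt, Function.IsFixedPt, ← hi n ⟨x, hx⟩, e.eq]⟩

theorem buas4_orb_succ {D : Type} (f : D → D) (d : D) (n : ℕ) :
    orbL f d (n + 1) = d :: orbL f (f d) n := by
  simp [orbL, List.range_succ_eq_map, Function.comp_def]

theorem buas4_path {M : CMap} {H : M.D → Prop} (hα : ∀ d, H d → H (M.α d)) (n : ℕ) :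
    ∀ d, H d → M.gd.Path (M.gd.src d) (orbL (M.bd H) d n) (M.gd.src ((M.bd H)^[n] d)) := by
  induction n with
  | zero => intro d _; exact rfl
  | succ n ih =>
    intro d hd
    obtain ⟨h1, -, h3⟩ := bu_bd_mem hα hd
    have h4 := ih _ h1
    rw [h3] at h4
    have h5 : M.gd.Path (M.gd.src d) (d :: orbL (M.bd H) (M.bd H d) n)
        (M.gd.src ((M.bd H)^[n] (M.bd H d))) := ⟨rfl, h4⟩
    exact (buas4_orb_succ (M.bd H) d n).symm ▸ h5

theorem buas4_iter {M : CMap} {H : M.D → Prop} (hα : ∀ d, H d → H (M.α d)) {d : M.D} (hd : H d)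
    (n : ℕ) : H ((M.bd H)^[n] d) ∧ M.Same H d ((M.bd H)^[n] d) := by
  induction n with
  | zero => exact ⟨hd, Relation.ReflTransGen.refl⟩
  | succ n ih =>
    obtain ⟨h1, h2, -⟩ := bu_bd_mem hα ih.1
    rw [Function.iterate_succ_apply']
    exact ⟨h1, ih.2.trans h2⟩

theorem buas4_mono {M : CMap} {H H' : M.D → Prop} (h : ∀ d, H' d → H d) {d d' : M.D}
    (hs : M.Same H d d') : M.Same H' d d' := by
  induction hs with
  | refl => exact Relation.ReflTransGen.refl
  | tail _ h2 ih => exact ih.tail (h2.imp id fun h3 => ⟨fun h4 => h3.1 (h _ h4), h3.2⟩)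

namespace TD
variable {G : GS} {B : ℕ} (T : TD G B)

/-- The sides together with one rung and its reverse. -/
def buas4H (ρ : T.map.D) (d : T.map.D) : Prop := T.Side d ∨ d = ρ ∨ d = T.map.α ρ

theorem buas4_side_α (d : T.map.D) (h : T.Side d) : T.Side (T.map.α d) := by
  rcases d with s | s
  · exact rfl
  · exact absurd h (by simp [Side])

theorem buas4H_α (ρ : T.map.D) (d : T.map.D) (h : T.buas4H ρ d) : T.buas4H ρ (T.map.α d) := by
  rcases h with h | rfl | rfl
  · exact Or.inl (T.buas4_side_α d h)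
  · exact Or.inr (Or.inr rfl)
  · exact Or.inr (Or.inl (T.map.αα _))

theorem buas4_φ_inr (t : T.S) (h : T.des t) : T.map.φ (.inr ⟨t, h⟩) = .inl (T.nx t) := rfl

theorem buas4_α_inr (t : T.S) (h : T.des t) : T.map.α (.inr ⟨t, h⟩) =
    .inr ⟨T.π (T.nx t), (T.des_π _).2 ((T.des_nx _).2 h)⟩ := rfl

theorem buas4_φ_inl (t : T.S) (h : T.des (T.m t)) : T.map.φ (.inl t) = .inr ⟨T.m t, h⟩ := by
  change T.φf (.inl t) = _
  simp [φf, h]

theorem buas4_closed (ρ : T.map.D) (hρ : T.map.Same (T.buas4H ρ) ρ (T.map.α ρ)) (t : T.S)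
    (ht : T.des t) (h : T.map.Same (T.buas4H ρ) ρ (.inl t)) :
    T.map.Same (T.buas4H ρ) ρ (.inl (T.m (T.π t))) := by
  have hu : T.des (T.nx.symm t) := (T.des_nx _).1 (by simpa using ht)
  have s1 : T.map.Same (T.buas4H ρ) (.inr ⟨T.nx.symm t, hu⟩) (.inl t) :=
    Relation.ReflTransGen.single (Or.inl (by rw [buas4_φ_inr]; simp))
  have s2 : T.map.Same (T.buas4H ρ) ρ (.inr ⟨T.nx.symm t, hu⟩) :=
    h.trans (bu_same_symm (T.buas4H_α ρ) s1)
  have s3 : T.map.Same (T.buas4H ρ) ρ (T.map.α (.inr ⟨T.nx.symm t, hu⟩)) := by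
    by_cases hH : T.buas4H ρ (.inr ⟨T.nx.symm t, hu⟩)
    · rcases hH with hH | hH | hH
      · exact absurd hH (by simp [Side])
      · rw [hH]; exact hρ
      · rw [hH, T.map.αα]; exact Relation.ReflTransGen.refl
    · exact s2.tail (Or.inr ⟨hH, rfl⟩)
  have hm : T.des (T.m (T.m (T.π t))) := by rw [T.mm]; exact (T.des_π _).2 ht
  have s4 : T.map.Same (T.buas4H ρ) (.inl (T.m (T.π t))) (T.map.α (.inr ⟨T.nx.symm t, hu⟩)) := by
    refine Relation.ReflTransGen.single (Or.inl ?_)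
    rw [buas4_α_inr, T.buas4_φ_inl _ hm]
    simp [T.mm]
  exact s3.trans (bu_same_symm (T.buas4H_α ρ) s4)

theorem buas4_tile (ρ : T.map.D) (hρ : T.map.Same (T.buas4H ρ) ρ (T.map.α ρ)) (k : ℕ) :
    ∀ t : T.S, ¬ T.des ((fun s => T.m (T.π s))^[k] t) → T.map.Same (T.buas4H ρ) ρ (.inl t) →
      ∃ u : T.S, ¬ T.des u ∧ T.map.Same (T.buas4H ρ) ρ (.inl u) := by
  induction k with
  | zero => intro t h1 h2; exact ⟨t, h1, h2⟩
  | succ k ih =>
    intro t h1 h2
    by_cases ht : T.des t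
    · exact ih _ h1 (T.buas4_closed ρ hρ t ht h2)
    · exact ⟨t, ht, h2⟩

open Classical in
theorem buas4_disc (s : T.S) (h : T.des s) :
    ¬ T.map.Same (T.buas4H (.inr ⟨s, h⟩)) (.inr ⟨s, h⟩) (T.map.α (.inr ⟨s, h⟩)) ∧
    ∀ n, (T.map.bd (T.buas4H (.inr ⟨s, h⟩)))^[n] (.inr ⟨s, h⟩) = .inr ⟨s, h⟩ →
      T.map.gd.ev (orbL (T.map.bd (T.buas4H (.inr ⟨s, h⟩))) (.inr ⟨s, h⟩) n) = 1 := by
  set ρ : T.map.D := .inr ⟨s, h⟩ with hρ
  have hHρ : T.buas4H ρ ρ := Or.inr (Or.inl rfl)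
  have hrefl : T.map.Same (T.buas4H ρ) ρ ρ := Relation.ReflTransGen.refl
  have hc := T.count (T.buas4H ρ) (T.buas4H_α ρ) (fun t => Or.inl rfl) ρ
  set U := Finset.univ.filter fun u : {s : T.S // T.des s} =>
    T.buas4H ρ (.inr u) ∧ T.map.Same (T.buas4H ρ) ρ (.inr u) with hU
  have hsU : (⟨s, h⟩ : {s : T.S // T.des s}) ∈ U := by
    rw [hU, Finset.mem_filter]; exact ⟨Finset.mem_univ _, hHρ, hrefl⟩
  have h1 : ang (T.lab s) (T.lab (T.nx s)) ≤ ∑ u ∈ U, ang (T.lab u.1) (T.lab (T.nx u.1)) :=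
    Finset.single_le_sum (f := fun u : {s : T.S // T.des s} =>
      ang (T.lab u.1) (T.lab (T.nx u.1))) (fun _ _ => Nat.zero_le _) hsU
  have h2 := T.pos s
  obtain ⟨h3, h4⟩ := nf_disc T.map (T.buas4H ρ) (T.buas4H_α ρ) ρ ⟨ρ, hHρ, hrefl⟩ (by omega)
  refine ⟨fun hs => ?_, fun n hn => h4 ρ n hHρ hrefl hn⟩
  have hd : T.des (T.π (T.nx s)) := (T.des_π _).2 ((T.des_nx _).2 h)
  have hs'U : (⟨T.π (T.nx s), hd⟩ : {s : T.S // T.des s}) ∈ U := by
    rw [hU, Finset.mem_filter]; exact ⟨Finset.mem_univ _, Or.inr (Or.inr rfl), hs⟩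
  have hne : (⟨s, h⟩ : {s : T.S // T.des s}) ≠ ⟨T.π (T.nx s), hd⟩ := fun e =>
    T.map.αne ρ (by rw [hρ, buas4_α_inr, ← e])
  have h5 : ang (T.lab s) (T.lab (T.nx s)) +
      ang (T.lab (T.π (T.nx s))) (T.lab (T.nx (T.π (T.nx s)))) ≤
      ∑ u ∈ U, ang (T.lab u.1) (T.lab (T.nx u.1)) := by
    have := Finset.sum_le_sum_of_subset (f := fun u : {s : T.S // T.des s} =>
      ang (T.lab u.1) (T.lab (T.nx u.1)))
      (show ({⟨s, h⟩, ⟨T.π (T.nx s), hd⟩} : Finset {s : T.S // T.des s}) ⊆ U by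
        intro u hu
        rcases Finset.mem_insert.1 hu with rfl | hu
        · exact hsU
        · rw [Finset.mem_singleton.1 hu]; exact hs'U)
    rwa [Finset.sum_pair hne] at this
  have h6 : ang (T.lab s) (T.lab (T.nx s)) +
      ang (T.lab (T.π (T.nx s))) (T.lab (T.nx (T.π (T.nx s)))) = 4 := by
    rw [T.π_nx s h, T.lab_π _ ((T.des_nx _).2 h), T.lab_π _ h]
    exact ang_mirror _ _ ⟨T.pos s, T.fw s h⟩
  obtain ⟨k, -, hk⟩ := T.chain (T.nx s)
  obtain ⟨u, hu1, hu2⟩ := T.buas4_tile ρ hs k (T.nx s) hk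
    (Relation.ReflTransGen.single (Or.inl rfl))
  have h7 : 0 < (Finset.univ.filter fun t : T.S =>
      ¬ T.des t ∧ T.map.Same (T.buas4H ρ) ρ (.inl t)).card :=
    Finset.card_pos.2 ⟨u, Finset.mem_filter.2 ⟨Finset.mem_univ _, hu1, hu2⟩⟩
  omega

/-- A rung is homotopic to a short path of sides. -/
theorem rung_path (s : T.S) (h : T.des s) : ∃ p : List T.S, p.length ≤ 4 * B + 4 ∧
    T.map.gd.Path (T.map.gd.src (.inr ⟨s, h⟩)) (p.map Sum.inl) (T.map.gd.tgt (.inr ⟨s, h⟩)) ∧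
    T.map.gd.ev (p.map Sum.inl) = T.map.gd.val (.inr ⟨s, h⟩) := by
  classical
  obtain ⟨hns, hev⟩ := T.buas4_disc s h
  set ρ : T.map.D := .inr ⟨s, h⟩ with hρ
  have hα := T.buas4H_α ρ
  have hHρ : T.buas4H ρ ρ := Or.inr (Or.inl rfl)
  set f := T.map.bd (T.buas4H ρ) with hf
  have hper : ρ ∈ Function.periodicPts f :=
    buas4_per f (T.buas4H ρ) (fun d hd => (bu_bd_mem hα hd).1)
      (fun d d' hd hd' e => bu_bd_inj hα hd hd' e) hHρ
  obtain ⟨n, hn⟩ : ∃ n, Function.minimalPeriod f ρ = n + 1 :=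
    Nat.exists_eq_succ_of_ne_zero (Function.minimalPeriod_pos_of_mem_periodicPts hper).ne'
  have hfix : f^[n + 1] ρ = ρ := by rw [← hn]; exact Function.iterate_minimalPeriod
  have hinj : Set.InjOn (fun i => f^[i] ρ) (Set.Iio (n + 1)) := by
    rw [← hn]; exact Function.iterate_injOn_Iio_minimalPeriod
  have hside : ∀ i, ∃ t : T.S, i < n → f^[i + 1] ρ = .inl t := by
    intro i
    by_cases hi : i < n
    · obtain ⟨h1, h2⟩ := buas4_iter hα hHρ (i + 1)
      rcases h1 with h1 | h1 | h1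
      · obtain ⟨t, ht⟩ := Sum.isLeft_iff.1 h1
        exact ⟨t, fun _ => ht⟩
      · have := hinj (show i + 1 ∈ Set.Iio (n + 1) by simpa using hi)
          (show 0 ∈ Set.Iio (n + 1) by simp) h1
        omega
      · rw [h1] at h2; exact absurd h2 hns
    · exact ⟨s, fun hi' => absurd hi' hi⟩
  choose q hq using hside
  have e1 : orbL f (f ρ) n = ((List.range n).map q).map Sum.inl := by
    rw [orbL, List.map_map]
    refine List.map_congr_left fun i hi => ?_
    rw [← Function.iterate_succ_apply]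
    exact hq i (List.mem_range.1 hi)
  have e2 : T.map.gd.rev (orbL f (f ρ) n) =
      ((((List.range n).map q).map T.m).reverse).map Sum.inl := by
    refine (congrArg T.map.gd.rev e1).trans ?_
    change (List.map T.αf (((List.range n).map q).map Sum.inl)).reverse = _
    rw [List.map_reverse, List.map_map, List.map_map, List.map_map, List.map_map]
    rfl
  have hp0 := buas4_path hα (n + 1) ρ hHρ
  have he0 := hev (n + 1) hfix
  rw [← hf, hfix] at hp0
  have hp : T.map.gd.Path (T.map.gd.src ρ) (ρ :: orbL f (f ρ) n) (T.map.gd.src ρ) :=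
    buas4_orb_succ f ρ n ▸ hp0
  have he1 : T.map.gd.ev (ρ :: orbL f (f ρ) n) = 1 := buas4_orb_succ f ρ n ▸ he0
  have he : T.map.gd.val ρ * T.map.gd.ev (orbL f (f ρ) n) = 1 :=
    (Gd.ev_cons (A := T.map.gd) ρ _).symm.trans he1
  refine ⟨(((List.range n).map q).map T.m).reverse, ?_, ?_, ?_⟩
  · simp only [List.length_reverse, List.length_map, List.length_range]
    refine le_trans ?_ (T.sides_card (T.nx s)).2
    have hs0 : T.map.Same T.Side (.inl (T.nx s)) ρ :=
      bu_same_symm T.buas4_side_α (Relation.ReflTransGen.single (Or.inl rfl))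
    conv_lhs => rw [← Finset.card_range n]
    refine Finset.card_le_card_of_injOn q (fun i hi => ?_) (fun i hi j hj e => ?_)
    · have hi' : i < n := by simpa using hi
      refine Finset.mem_coe.2 (Finset.mem_filter.2 ⟨Finset.mem_univ _, hs0.trans ?_⟩)
      have h2 := (buas4_iter hα hHρ (i + 1)).2
      rw [← hf, hq i hi'] at h2
      exact buas4_mono (fun d hd => Or.inl hd) h2
    · have hi' : i < n := by simpa using hi
      have hj' : j < n := by simpa using hj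
      have := hinj (show i + 1 ∈ Set.Iio (n + 1) by simpa using hi')
        (show j + 1 ∈ Set.Iio (n + 1) by simpa using hj')
        (by simp only; rw [hq i hi', hq j hj', e])
      omega
  · exact e2 ▸ Gd.Path.rev (A := T.map.gd) hp.2
  · refine (congrArg T.map.gd.ev e2).symm.trans ?_
    rw [Gd.ev_rev]
    exact (eq_inv_of_mul_eq_one_left he).symm

end TD

end Pool.Agent.MC
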