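import Pool.Agent.P.MP_2677b3_gt.BuApi

namespace Pool.Agent.MC

theorem buwlift_sq (j : ZMod 6) : (PresentedGroup.of j : W6) * PresentedGroup.of j = 1 := by
  have : (PresentedGroup.mk relsW) (FreeGroup.of j * FreeGroup.of j) = 1 :=
    PresentedGroup.one_of_mem (Or.inl ⟨j, rfl⟩)
  simpa [PresentedGroup.of] using this

theorem buwlift_four (j : ZMod 6) : (PresentedGroup.of j : W6) * PresentedGroup.of (j + 1) *
    PresentedGroup.of j * PresentedGroup.of (j + 1) = 1 := by
  have : (PresentedGroup.mk relsW) (FreeGroup.of j * FreeGroup.of (j + 1) * FreeGroup.of j *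
      FreeGroup.of (j + 1)) = 1 := PresentedGroup.one_of_mem (Or.inr ⟨j, rfl⟩)
  simpa [PresentedGroup.of] using this

theorem buwlift_hom {Γ : Type} [Group Γ] (s : ZMod 6 → Γ) (h1 : ∀ j, s j * s j = 1)
    (h2 : ∀ j, s j * s (j + 1) = s (j + 1) * s j) :
    ∃ f : W6 →* Γ, ∀ j, f (PresentedGroup.of j) = s j := by
  have h : ∀ x ∈ relsW, FreeGroup.lift s x = 1 := by
    rintro x (⟨j, rfl⟩ | ⟨j, rfl⟩)
    · simpa using h1 j
    · simp only [map_mul, FreeGroup.lift_apply_of]
      rw [mul_assoc (s j), ← h2 j, ← mul_assoc, h1, one_mul, h1]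
  exact ⟨PresentedGroup.toGroup h, fun j => PresentedGroup.toGroup.of h⟩

/-- A function on the edges of the dual graph of a tiling that respects reversal and the squares
kills every path with trivial value. -/
theorem WSet.lift (T : WSet) {Γ : Type} [Group Γ] (κ : T.Z × ZMod 6 → Γ)
    (h1 : ∀ z j, κ (T.r j z, j) = (κ (z, j))⁻¹)
    (h2 : ∀ z j, κ (z, j) * κ (T.r j z, j + 1) = κ (z, j + 1) * κ (T.r (j + 1) z, j))
    (x y : T.Z) (p : List (T.Z × ZMod 6)) (hp : T.gd.Path x p y) (h : T.gd.ev p = 1) :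
    (p.map κ).prod = 1 := by
  let σ : ZMod 6 → T.Z × Γ → T.Z × Γ := fun j w => (T.r j w.1, w.2 * κ (w.1, j))
  have hσ : ∀ j, Function.Involutive (σ j) := by
    rintro j ⟨z, u⟩
    simp only [σ, T.rr, h1, mul_inv_cancel_right]
  obtain ⟨f, hf⟩ := buwlift_hom (fun j => (hσ j).toPerm)
    (fun j => Equiv.ext fun w => hσ j w)
    (fun j => Equiv.ext fun w => by
      show σ j (σ (j + 1) w) = σ (j + 1) (σ j w)
      simp only [σ, T.comm, mul_assoc, h2])
  have key : ∀ (p : List (T.Z × ZMod 6)) (x : T.Z) (u : Γ),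
      IsPath (fun e : T.Z × ZMod 6 => e.1) (fun e => T.r e.2 e.1) x p y →
      f (p.map fun e => (PresentedGroup.of e.2 : W6)).prod (y, u * (p.map κ).prod) = (x, u) := by
    intro p
    induction p with
    | nil =>
      intro x u hp
      obtain rfl : x = y := hp
      simp
    | cons e p ih =>
      rintro x u ⟨rfl, hp⟩
      rw [List.map_cons, List.prod_cons, map_mul, Equiv.Perm.mul_apply, List.map_cons,
        List.prod_cons, ← mul_assoc, ih _ _ hp, hf]
      exact hσ e.2 (e.1, u)
  have := key p x 1 hp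
  have e : (p.map fun e => (PresentedGroup.of e.2 : W6)).prod = 1 := h
  rw [e, map_one, one_mul] at this
  exact congrArg Prod.snd this

/-- The reflection in the side `d`. -/
def refW (d : Dart) : W6 := PresentedGroup.of d.2.2

/-- Product of the first `k` reflections met when turning about the end of `d`, starting with the
side after `d`. -/
def turn (d : Dart) : ℕ → W6
  | 0 => 1
  | k + 1 => turn d k * refW (fk (k + 1) d)

theorem turn_realize : True := by have := @turn.eq_def; trivial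

theorem refW_sq (d : Dart) : refW d * refW d = 1 := buwlift_sq _

theorem refW_rv (d : Dart) : refW (rv d) = refW d := by
  have : (rv d).2.2 = d.2.2 := by revert d; decide
  rw [refW, refW, this]

theorem buwlift_lab (d : Dart) : (fk 2 d).2.2 = d.2.2 ∧ (fk 4 d).2.2 = d.2.2 ∧
    (fk 3 d).2.2 = (fk 1 d).2.2 ∧ ((fk 1 d).2.2 = d.2.2 + 1 ∨ d.2.2 = (fk 1 d).2.2 + 1) := by
  revert d; decide

theorem buwlift_fk (d : Dart) (k l : ℕ) : fk l (rv (fk k d)) = fk (k + l) d := by
  induction l with
  | zero => exact rv_rv _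
  | succ l ih =>
    show lf (rv (fk l (rv (fk k d)))) = lf (rv (fk (k + l) d))
    rw [ih]

theorem turn_four (d : Dart) : turn d 4 = 1 := by
  obtain ⟨h2, h4, h3, h1⟩ := buwlift_lab d
  show 1 * refW (fk 1 d) * refW (fk 2 d) * refW (fk 3 d) * refW (fk 4 d) = 1
  simp only [refW, h2, h3, h4, one_mul]
  rcases h1 with h1 | h1
  · rw [h1, mul_assoc, mul_assoc, mul_eq_one_comm, ← mul_assoc]
    exact buwlift_four _
  · generalize (fk 1 d).2.2 = i at h1
    rw [h1]
    exact buwlift_four _

theorem turn_add (d : Dart) (k l : ℕ) : turn d (k + l) = turn d k * turn (rv (fk k d)) l := by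
  induction l with
  | zero => exact (mul_one _).symm
  | succ l ih =>
    show turn d (k + l) * refW (fk (k + l + 1) d) =
      turn d k * (turn (rv (fk k d)) l * refW (fk (l + 1) (rv (fk k d))))
    rw [ih, buwlift_fk, mul_assoc, Nat.add_assoc]

theorem turn_mirror {d e : Dart} (h : Fw d e) :
    refW e * turn (rv e) (ang (rv e) (rv d) - 1) * refW d = (turn d (ang d e - 1))⁻¹ := by
  have h1 := ang_mirror d e h
  have h2 := (Fw_mirror d e h).1
  have h3 := fk_ang h.1
  obtain ⟨a, ha⟩ := Nat.exists_eq_succ_of_ne_zero h.1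
  obtain ⟨b, hb⟩ := Nat.exists_eq_succ_of_ne_zero h2
  rw [ha] at h3
  rw [ha, hb] at h1
  rw [ha, hb, Nat.succ_sub_one, Nat.succ_sub_one]
  have h4 := turn_add d (a + 1) (b + 1)
  have h5 := buwlift_fk d (a + 1) (b + 1)
  rw [show a + 1 + (b + 1) = 4 from h1] at h4 h5
  rw [turn_four] at h4
  change 1 = turn d a * refW (fk (a + 1) d) * (turn (rv (fk (a + 1) d)) b *
    refW (fk (b + 1) (rv (fk (a + 1) d)))) at h4
  rw [h5, fk_four, refW_rv, ← h3] at h4
  apply eq_inv_of_mul_eq_one_right
  rw [h4]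
  simp only [mul_assoc]

end Pool.Agent.MC
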