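import Pool.Agent.P.MP_2677b3_gt.BuAs3
import Pool.Agent.P.MP_2677b3_gt.BuWlift

namespace Pool.Agent.MC

/-- Number of steps along a tile from the side `d` to the side with index `j`. -/
def buas5N (d : Dart) (j : ZMod 6) : ℕ :=
  if d.1 + d.2.1 = 0 then (j - d.2.2).val else (d.2.2 - j).val

theorem buas5_lf : ∀ (d : Dart) (j : ZMod 6), lf^[buas5N d j] d = (d.1, d.2.1, j) := by
  decide +kernel

theorem buas5_zero : ∀ d : Dart, buas5N d d.2.2 = 0 := by decide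

theorem buas5_succ : ∀ (d : Dart) (j : ZMod 6), (buas5N (lf d) j + 1) % 6 = buas5N d j := by
  decide +kernel

theorem buas5_rv : ∀ d : Dart, (rv d).2.2 = d.2.2 ∧
    ((rv d).1, (rv d).2.1) = (d.1, d.2.1) + flipT d.2.2 := by decide

theorem buas5_turn : ∀ d : Dart, (lf (rv (lf (rv d)))).2.2 = d.2.2 ∧
    (lf (rv (lf (rv (lf (rv d)))))).2.2 = (lf (rv d)).2.2 := by decide

theorem buas5_par : ∀ (a p : ZMod 2) (j : ZMod 6),
    (lf (rv (a, p, j))).2.2 = j + 1 ∨ (lf (rv (a, p, j + 1))).2.2 = j := by decide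

theorem buas5_abs {Z J Γ : Type} [Group Γ] (r : J → Z → Z) (rr : ∀ j z, r j (r j z) = z)
    (κ : Z → J → Γ) (h1 : ∀ z j, κ (r j z) j = (κ z j)⁻¹) {a b : J} {z : Z}
    (h2 : r b (r a (r b (r a z))) = z)
    (h3 : κ z a * κ (r a z) b * κ (r b (r a z)) a * κ (r a (r b (r a z))) b = 1) :
    r a (r b z) = r b (r a z) ∧ κ z a * κ (r a z) b = κ z b * κ (r b z) a := by
  have e1 : r a (r b (r a z)) = r b z := by rw [← rr b (r a (r b (r a z))), h2]
  have e2 : r a (r b z) = r b (r a z) := by rw [← e1, rr]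
  refine ⟨e2, ?_⟩
  rw [e1, ← e2, h1 (r b z) a, h1 z b, mul_inv_eq_one, mul_inv_eq_iff_eq_mul] at h3
  exact h3

namespace TD
variable {G : GS} {B : ℕ} (T : TD G B)

theorem buas5_iter {s : T.S} (h : ¬ T.des s) (k : ℕ) : ¬ T.des (T.nx^[k] s) ∧
    T.lab (T.nx^[k] s) = lf^[k] (T.lab s) ∧
    T.map.gd.src (.inl (T.nx^[k] s)) = T.map.gd.src (.inl s) := by
  induction k with
  | zero => exact ⟨h, rfl, rfl⟩
  | succ k ih =>
    rw [Function.iterate_succ_apply', Function.iterate_succ_apply', T.des_nx, (T.tile _ ih.1).1,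
      ih.2.1, T.src_nx _ ih.1]
    exact ⟨ih.1, rfl, ih.2.2⟩

/-- The side with index `j` of the tile of `s`. -/
def buas5S (s : T.S) (j : ZMod 6) : T.S := T.nx^[buas5N (T.lab s) j] s

theorem buas5_lab {s : T.S} (h : ¬ T.des s) (j : ZMod 6) :
    T.lab (T.buas5S s j) = ((T.lab s).1, (T.lab s).2.1, j) :=
  (T.buas5_iter h _).2.1.trans (buas5_lf _ j)

theorem buas5_self (s : T.S) : T.buas5S s (T.lab s).2.2 = s := by
  rw [buas5S, buas5_zero]; rfl

theorem buas5_nx {s : T.S} (h : ¬ T.des s) (j : ZMod 6) : T.buas5S (T.nx s) j = T.buas5S s j := by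
  have hp : Function.IsPeriodicPt T.nx 6 s := (T.tile s h).2
  rw [buas5S, buas5S, (T.tile s h).1, ← Function.iterate_succ_apply, ← buas5_succ (T.lab s),
    hp.iterate_mod_apply]

theorem buas5_twice {s : T.S} (h : ¬ T.des s) (i j : ZMod 6) :
    T.buas5S (T.buas5S s i) j = T.buas5S s j := by
  have key : ∀ k, T.buas5S (T.nx^[k] s) j = T.buas5S s j := fun k => by
    induction k with
    | zero => rfl
    | succ k ih => rw [Function.iterate_succ_apply', T.buas5_nx (T.buas5_iter h k).1, ih]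
  exact key _

/-- The set of tiles. -/
abbrev Buas5Z : Type := {s : T.S // ¬ T.des s ∧ (T.lab s).2.2 = 0}

/-- The tile on the left of a side. -/
noncomputable def buas5T (s : T.S) : T.Buas5Z :=
  ⟨T.buas5S (T.dn s) 0, (T.buas5_iter (T.dn_not_des s) _).1, by
    rw [T.buas5_lab (T.dn_not_des s)]⟩

/-- The reflections. -/
noncomputable def buas5R (j : ZMod 6) (z : T.Buas5Z) : T.Buas5Z :=
  T.buas5T (T.m (T.buas5S z.1 j))

theorem buas5_congr {s t : T.S} (h : T.dn s = T.dn t) : T.buas5T s = T.buas5T t :=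
  Subtype.ext (congrArg (fun u => T.buas5S u 0) h)

theorem buas5_p1 (z : T.Buas5Z) (j : ZMod 6) : ¬ T.des (T.buas5S z.1 j) ∧
    (T.lab (T.buas5S z.1 j)).2.2 = j ∧ T.buas5T (T.buas5S z.1 j) = z := by
  have h := (T.buas5_iter z.2.1 (buas5N (T.lab z.1) j)).1
  refine ⟨h, by rw [T.buas5_lab z.2.1], Subtype.ext ?_⟩
  show T.buas5S (T.dn (T.buas5S z.1 j)) 0 = z.1
  rw [show T.dn (T.buas5S z.1 j) = T.buas5S z.1 j from (T.dn_of_not _ h).2.1,
    T.buas5_twice z.2.1]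
  exact (congrArg (T.buas5S z.1) z.2.2).symm.trans (T.buas5_self _)

theorem buas5_p2 (s : T.S) : T.buas5S (T.buas5T s).1 (T.lab s).2.2 = T.dn s := by
  show T.buas5S (T.buas5S (T.dn s) 0) _ = _
  rw [T.buas5_twice (T.dn_not_des s), ← T.lab_dn, T.buas5_self]

theorem buas5_p3 (s : T.S) (h : ¬ T.des s) : T.buas5T (T.nx s) = T.buas5T s := by
  refine Subtype.ext ?_
  show T.buas5S (T.dn (T.nx s)) 0 = T.buas5S (T.dn s) 0
  rw [(T.dn_of_not _ h).2.1, (T.dn_of_not _ fun h' => h ((T.des_nx s).1 h')).2.1, T.buas5_nx h]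

theorem buas5_p4 (s : T.S) : T.buas5T (T.m s) = T.buas5R (T.lab s).2.2 (T.buas5T s) := by
  rw [buas5R, T.buas5_p2]
  exact T.buas5_congr (T.far_dn s).symm

theorem buas5_p5 (s : T.S) (h : T.des s) :
    T.buas5T (T.π s) = T.buas5R (T.lab s).2.2 (T.buas5T s) := by
  rw [← T.buas5_p4]
  refine T.buas5_congr ?_
  rw [(T.dn_of_des _ ((T.des_π s).2 h)).2.1, T.ππ]

theorem buas5_far (z : T.Buas5Z) (j : ZMod 6) :
    T.buas5S (T.buas5R j z).1 j = T.far (T.buas5S z.1 j) := by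
  have h := T.buas5_p2 (T.m (T.buas5S z.1 j))
  rw [T.lab_m, (buas5_rv _).1, (T.buas5_p1 z j).2.1] at h
  exact h

theorem buas5_rr (j : ZMod 6) (z : T.Buas5Z) : T.buas5R j (T.buas5R j z) = z := by
  have h := T.buas5_p4 (T.m (T.buas5S z.1 j))
  rw [T.mm, T.lab_m, (buas5_rv _).1, (T.buas5_p1 z j).2.1, (T.buas5_p1 z j).2.2] at h
  exact h.symm

/-- The value of the path across the side `j` of the tile `z`. -/
noncomputable def buas5K (z : T.Buas5Z) (j : ZMod 6) : T.map.gd.U :=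
  T.map.gd.ev (T.kap (T.buas5S z.1 j))

theorem buas5_inv (z : T.Buas5Z) (j : ZMod 6) :
    T.buas5K (T.buas5R j z) j = (T.buas5K z j)⁻¹ := by
  rw [buas5K, T.buas5_far, T.ev_kap_far _ (T.buas5_p1 z j).1, buas5K]

theorem buas5_step (s : T.S) : ¬ T.des (T.nx (T.far s)) ∧
    T.lab (T.nx (T.far s)) = lf (rv (T.lab s)) ∧
    T.buas5T (T.nx (T.far s)) = T.buas5R (T.lab s).2.2 (T.buas5T s) := by
  have h : ¬ T.des (T.far s) := T.dn_not_des _
  refine ⟨fun h' => h ((T.des_nx _).1 h'), ?_, ?_⟩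
  · rw [(T.tile _ h).1, far, T.lab_dn, T.lab_m]
  · rw [T.buas5_p3 _ h, ← T.buas5_p4]
    exact T.buas5_congr (T.dn_of_not _ h).2.1

theorem buas5_val {s : T.S} (h : ¬ T.des s) :
    T.map.gd.ev (T.kap s) = T.buas5K (T.buas5T s) (T.lab s).2.2 := by
  rw [buas5K, T.buas5_p2, (T.dn_of_not _ h).2.1]

theorem buas5_sq (z : T.Buas5Z) (a b : ZMod 6)
    (hb : (lf (rv ((T.lab z.1).1, (T.lab z.1).2.1, a))).2.2 = b) :
    T.buas5R a (T.buas5R b z) = T.buas5R b (T.buas5R a z) ∧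
      T.buas5K z a * T.buas5K (T.buas5R a z) b = T.buas5K z b * T.buas5K (T.buas5R b z) a := by
  obtain ⟨h0, l0, t0⟩ := T.buas5_p1 z a
  rw [← T.buas5_lab z.2.1] at hb
  generalize T.buas5S z.1 a = s at h0 l0 t0 hb
  obtain ⟨q1, q2⟩ := T.square s h0
  simp only [Function.iterate_succ_apply', Function.iterate_zero_apply] at q1 q2
  obtain ⟨h1, l1, t1⟩ := T.buas5_step s
  obtain ⟨h2, l2, t2⟩ := T.buas5_step (T.nx (T.far s))
  obtain ⟨h3, l3, t3⟩ := T.buas5_step (T.nx (T.far (T.nx (T.far s))))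
  obtain ⟨-, -, t4⟩ := T.buas5_step (T.nx (T.far (T.nx (T.far (T.nx (T.far s))))))
  rw [T.buas5_val h0, T.buas5_val h1, T.buas5_val h2, T.buas5_val h3] at q2
  rw [q1] at t4
  rw [t3, t2, t1, l3, l2, l1, (buas5_turn _).2, (buas5_turn _).1, hb, l0, t0] at q2 t4
  exact buas5_abs T.buas5R T.buas5_rr T.buas5K T.buas5_inv t4.symm q2

theorem buas5_comm (z : T.Buas5Z) (j : ZMod 6) :
    T.buas5R j (T.buas5R (j + 1) z) = T.buas5R (j + 1) (T.buas5R j z) ∧
      T.buas5K z j * T.buas5K (T.buas5R j z) (j + 1) =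
        T.buas5K z (j + 1) * T.buas5K (T.buas5R (j + 1) z) j := by
  rcases buas5_par (T.lab z.1).1 (T.lab z.1).2.1 j with h | h
  · exact T.buas5_sq z j (j + 1) h
  · exact (T.buas5_sq z (j + 1) j h).imp Eq.symm Eq.symm

open Classical in
/-- The tiling. -/
noncomputable def buas5W : WSet where
  Z := T.Buas5Z
  fin := inferInstance
  r := T.buas5R
  rr := T.buas5_rr
  comm := fun j z => (T.buas5_comm z j).1
  ty := fun z => ((T.lab z.1).1, (T.lab z.1).2.1)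
  ty_r := fun j z => by
    show ((T.lab (T.buas5S (T.dn _) 0)).1, (T.lab (T.buas5S (T.dn _) 0)).2.1) = _
    rw [T.buas5_lab (T.dn_not_des _), T.lab_dn, T.lab_m, (buas5_rv _).2, T.buas5_lab z.2.1]

theorem buas5_src (z : T.Buas5Z) (j : ZMod 6) :
    T.map.gd.src (.inl z.1) = T.map.gd.src (.inl (T.buas5S z.1 j)) :=
  (T.buas5_iter z.2.1 _).2.2.symm

/-- The map into the dual map. -/
noncomputable def buas5G : Mor (B + 1) T.buas5W.gd T.map.gd where
  v := fun z => T.map.gd.src (.inl z.1)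
  e := fun a => T.kap (T.buas5S a.1.1 a.2)
  path := fun a => by
    have h := T.kap_path (T.buas5S a.1.1 a.2)
    rw [← T.buas5_far, ← T.buas5_src, ← T.buas5_src] at h
    exact h
  len := fun a => Nat.succ_le_succ (T.chi_path _).2
  cong := fun x p hp h => by
    rw [Gd.ev_flatMap]
    exact T.buas5W.lift (fun a => T.buas5K a.1 a.2) T.buas5_inv
      (fun z j => (T.buas5_comm z j).2) x x p hp h

/-- The set of tiles with the action of the reflections, and the map into the dual map. -/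
theorem ws_exists : ∃ (Z : WSet) (tl : T.S → Z.Z) (sd : Z.Z → ZMod 6 → T.S)
    (g : Mor (B + 1) Z.gd T.map.gd),
    (∀ z j, ¬ T.des (sd z j) ∧ (T.lab (sd z j)).2.2 = j ∧ tl (sd z j) = z) ∧
    (∀ s, sd (tl s) (T.lab s).2.2 = T.dn s) ∧ (∀ s, ¬ T.des s → tl (T.nx s) = tl s) ∧
    (∀ s, tl (T.m s) = Z.r (T.lab s).2.2 (tl s)) ∧
    (∀ s, T.des s → tl (T.π s) = Z.r (T.lab s).2.2 (tl s)) ∧
    (∀ z j, g.v z = T.map.gd.src (.inl (sd z j))) ∧ ∀ z j, g.e (z, j) = T.kap (sd z j) := by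
  exact ⟨T.buas5W, T.buas5T, fun z j => T.buas5S z.1 j, T.buas5G, T.buas5_p1, T.buas5_p2,
    T.buas5_p3, T.buas5_p4, T.buas5_p5, T.buas5_src, fun _ _ => rfl⟩

end TD

end Pool.Agent.MC
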