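import Pool.Agent.P.MP_2677b3_gt.BuAs2
import Pool.Agent.P.MP_2677b3_gt.BuWlift

namespace Pool.Agent.MC

theorem buas6_fk (d : Dart) (k l : ℕ) : fk l (rv (fk k d)) = fk (k + l) d := by
  induction l with
  | zero => exact rv_rv _
  | succ l ih => rw [← Nat.add_assoc, fk, fk, ih]

theorem buas6_small (d : Dart) : rv (fk 1 d) ≠ d ∧ rv (fk 2 d) ≠ d ∧ rv (fk 3 d) ≠ d := by
  revert d; decide

theorem buas6_turn (d : Dart) (A : ℕ) : rv (fk A d) = d → turn d A = 1 := by
  induction A using Nat.strong_induction_on with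
  | _ A ih =>
    intro h
    by_cases hA : A < 4
    · obtain ⟨h1, h2, h3⟩ := buas6_small d
      interval_cases A
      · rfl
      · exact absurd h h1
      · exact absurd h h2
      · exact absurd h h3
    · obtain ⟨A', rfl⟩ : ∃ A', A = 4 + A' := ⟨A - 4, by omega⟩
      have h4 : rv (fk 4 d) = d := by rw [fk_four, rv_rv]
      rw [← buas6_fk, h4] at h
      rw [turn_add, turn_four, h4, one_mul]
      exact ih A' (by omega) h

theorem buas6_lf (d : Dart) : lf^[5] (lf d) = d ∧ fk 1 (lf^[5] d) = d := by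
  revert d; decide +kernel

theorem buas6_orb {D : Type} (φ : D → D) (χ e : D → W6) (L : D → Dart) (he : ∀ x, e x * e x = 1)
    (h : ∀ x, ∃ a, χ x = e x * turn (L x) a * e (φ x) ∧ L (φ x) = rv (fk a (L x))) (x : D)
    (n : ℕ) : ∃ A, ((orbL φ x n).map χ).prod = e x * turn (L x) A * e (φ^[n] x) ∧
      L (φ^[n] x) = rv (fk A (L x)) := by
  induction n with
  | zero => exact ⟨0, by simp [orbL, turn, he], (rv_rv _).symm⟩
  | succ n ih =>
    obtain ⟨A, h1, h2⟩ := ih
    obtain ⟨a, h3, h4⟩ := h (φ^[n] x)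
    refine ⟨A + a, ?_, ?_⟩
    · have : orbL φ x (n + 1) = orbL φ x n ++ [φ^[n] x] := by simp [orbL, List.range_succ]
      rw [this, List.map_append, List.prod_append, h1, Function.iterate_succ_apply', turn_add,
        ← h2]
      simp only [List.map_cons, List.map_nil, List.prod_cons, List.prod_nil, mul_one, h3,
        mul_assoc]
      rw [← mul_assoc (e _) (e _), he, one_mul]
    · rw [Function.iterate_succ_apply', h4, h2, buas6_fk]

namespace TD
variable {G : GS} {B : ℕ} (T : TD G B)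

theorem buas6_can : ∃ can : T.S → Prop,
    (∀ s, ¬ T.des s → can s) ∧ ∀ s, T.des s → (can (T.π s) ↔ ¬ can s) := by
  let idx := Fintype.equivFin T.S
  refine ⟨fun s => ¬ T.des s ∨ idx s < idx (T.π s), fun s h => Or.inl h, fun s h => ?_⟩
  have h1 : T.des (T.π s) := (T.des_π s).2 h
  have h2 : idx (T.π s) ≠ idx s := fun e => by
    have h3 := T.lab_π s h
    rw [idx.injective e] at h3
    exact rv_ne _ h3.symm
  simp only [h, h1, not_true, false_or, T.ππ, not_lt]
  exact ⟨le_of_lt, fun h3 => lt_of_le_of_ne h3 h2⟩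

/-- The developing homomorphism.  `can` marks one of the two sides of every square. -/
theorem develop : ∃ (can : T.S → Prop) (ε : T.S → W6) (Φ : T.map.gd.U →* W6),
    (∀ s, ¬ T.des s → can s) ∧ (∀ s, T.des s → (can (T.π s) ↔ ¬ can s)) ∧
    (∀ s, can s → ε s = 1) ∧ (∀ s, ¬ can s → ε s = refW (T.lab s)) ∧
    ∀ s, Φ (T.map.gd.val (.inl s)) = ε s * refW (T.lab s) * ε (T.m s) := by
  classical
  obtain ⟨can, c1, c2⟩ := T.buas6_can
  obtain ⟨ε, e1, e2⟩ : ∃ ε : T.S → W6, (∀ s, can s → ε s = 1) ∧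
      ∀ s, ¬ can s → ε s = refW (T.lab s) :=
    ⟨fun s => if can s then 1 else refW (T.lab s), fun s h => if_pos h, fun s h => if_neg h⟩
  have ee : ∀ s, ε s * ε s = 1 := fun s => by
    by_cases h : can s
    · rw [e1 s h, one_mul]
    · rw [e2 s h, refW_sq]
  have ei : ∀ s, (ε s)⁻¹ = ε s := fun s => inv_eq_of_mul_eq_one_right (ee s)
  have eπ : ∀ s, T.des s → ε (T.π s) = ε s * refW (T.lab s) ∧
      ε (T.π s) = refW (T.lab s) * ε s := fun s hs => by
    by_cases h : can s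
    · rw [e1 s h, e2 _ (fun h' => (c2 s hs).1 h' h), T.lab_π s hs, refW_rv, one_mul, mul_one]
      exact ⟨rfl, rfl⟩
    · rw [e2 s h, e1 _ ((c2 s hs).2 h), refW_sq]
      exact ⟨rfl, rfl⟩
  let χ : T.D → W6 := Sum.elim (fun s => ε s * refW (T.lab s) * ε (T.m s)) fun u =>
    ε u.1 * turn (T.lab u.1) (ang (T.lab u.1) (T.lab (T.nx u.1)) - 1) * ε (T.nx u.1)
  have h1 : ∀ x : T.D, χ (T.αf x) = (χ x)⁻¹ := by
    rintro (s | ⟨s, h⟩)
    · simp only [χ, αf, Sum.elim_inl, T.mm, T.lab_m, refW_rv, mul_inv_rev, ei,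
        inv_eq_of_mul_eq_one_right (refW_sq _), mul_assoc]
    · have hn := (T.des_nx s).2 h
      have hm := turn_mirror (d := T.lab s) (e := T.lab (T.nx s)) ⟨T.pos s, T.fw s h⟩
      simp only [χ, αf, Sum.elim_inr, T.π_nx s h, T.lab_π s h, T.lab_π _ hn, mul_inv_rev, ei]
      rw [(eπ _ hn).1, (eπ s h).2, ← hm]
      simp only [mul_assoc]
  have h2 : ∀ x : T.D, ∃ a, χ x = Sum.elim ε (fun u => ε u.1) x *
      turn (Sum.elim (fun s => lf^[5] (T.lab s)) (fun u => T.lab u.1) x) a *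
      Sum.elim ε (fun u => ε u.1) (T.φf x) ∧
      Sum.elim (fun s => lf^[5] (T.lab s)) (fun u => T.lab u.1) (T.φf x) =
        rv (fk a (Sum.elim (fun s => lf^[5] (T.lab s)) (fun u => T.lab u.1) x)) := by
    rintro (s | ⟨s, h⟩)
    · refine ⟨1, ?_⟩
      have ht : turn (lf^[5] (T.lab s)) 1 = refW (T.lab s) := by
        rw [turn, turn, one_mul, Nat.zero_add, (buas6_lf _).2]
      by_cases h : T.des (T.m s)
      · simp only [χ, φf, dif_pos h, Sum.elim_inl, Sum.elim_inr, ht, (buas6_lf _).2, T.lab_m,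
          and_self]
      · simp only [χ, φf, dif_neg h, Sum.elim_inl, ht, (buas6_lf _).2, (T.tile _ h).1,
          (buas6_lf _).1, T.lab_m, e1 _ (c1 _ h), e1 _ (c1 _ fun h' => h ((T.des_nx _).1 h')),
          and_self]
    · refine ⟨ang (T.lab s) (T.lab (T.nx s)) - 1, rfl, ?_⟩
      have h3 := fk_ang (T.pos s)
      obtain ⟨k, hk⟩ : ∃ k, ang (T.lab s) (T.lab (T.nx s)) = k + 1 :=
        Nat.exists_eq_succ_of_ne_zero (T.pos s)
      simp only [φf, Sum.elim_inl, Sum.elim_inr]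
      rw [hk] at h3 ⊢
      rw [h3, fk, (buas6_lf _).1, Nat.add_sub_cancel]
  obtain ⟨Φ, hΦ⟩ := pres_lift (src := fun d : T.map.D =>
      (Quotient.mk _ d : Quotient (Equiv.Perm.SameCycle.setoid T.map.ψ))) (h := T.map.αα)
    (R := {w | ∃ d n, T.map.φ^[n] d = d ∧ w = orbL T.map.φ d n}) χ h1 (by
      rintro _ ⟨d, n, hd, rfl⟩
      obtain ⟨A, h3, h4⟩ := buas6_orb T.φf χ _ _ (by rintro (s | u) <;> exact ee _) h2 d n
      have hd' : T.φf^[n] d = d := hd
      rw [hd'] at h3 h4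
      refine h3.trans ?_
      rw [buas6_turn _ A h4.symm, mul_one]
      rcases d with s | u <;> exact ee _)
  refine ⟨can, ε, Φ, c1, c2, e1, e2, fun s => ?_⟩
  have := hΦ [.inl s]
  simp only [Gd.ev, mul_one, List.map_cons, List.map_nil, List.prod_cons, List.prod_nil] at this
  exact this

end TD

end Pool.Agent.MC
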