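import Pool.Agent.P.MP_2677b3_gt.BuAs1

namespace Pool.Agent.MC

namespace TD
variable {G : GS} {B : ℕ} (T : TD G B)

/-- The piece of a dart of the dual map. -/
def buasl_reg : T.map.D → G.X
  | .inl s => T.px s
  | .inr s => T.px s.1

/-- The cuff of a rung. -/
def buasl_cuf : ∀ d : T.map.D, T.Rung d → G.C
  | .inl _, h => absurd h (by simp [Rung])
  | .inr s, _ => T.cf s.1 s.2

theorem buasl_phi_inr (s : T.S) (h : T.des s) : T.map.φ (.inr ⟨s, h⟩) = .inl (T.nx s) := rfl

theorem buasl_alpha_inl (s : T.S) : T.map.α (.inl s) = .inl (T.m s) := rfl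

theorem buasl_alpha_inr (s : T.S) (h : T.des s) :
    T.map.α (.inr ⟨s, h⟩) = .inr ⟨T.π (T.nx s), (T.des_π _).2 ((T.des_nx _).2 h)⟩ := rfl

theorem buasl_phi_inl (s : T.S) (h : T.des (T.m s)) :
    T.map.φ (.inl s) = .inr ⟨T.m s, h⟩ := by
  show T.φf (.inl s) = _
  simp [φf, h]

theorem buasl_phi_inl' (s : T.S) (h : ¬ T.des (T.m s)) :
    T.map.φ (.inl s) = .inl (T.nx (T.m s)) := by
  show T.φf (.inl s) = _
  simp [φf, h]

theorem buasl_rung_inr (s : {s : T.S // T.des s}) : T.Rung (.inr s) := rfl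

theorem buasl_rung_inl (s : T.S) : ¬ T.Rung (.inl s) := by simp [Rung]

theorem buasl_Ha (d : T.map.D) (h : T.Rung d) : T.Rung (T.map.α d) := by
  rcases d with s | ⟨s, hs⟩
  · exact absurd h (T.buasl_rung_inl s)
  · rfl

theorem buasl_bd (s : T.S) (h : T.des s) :
    T.map.bd T.Rung (.inr ⟨s, h⟩) = .inr ⟨T.nx s, (T.des_nx s).2 h⟩ := by
  have e : T.map.ψ^[1] (T.map.φ (.inr ⟨s, h⟩)) = .inr ⟨T.nx s, (T.des_nx s).2 h⟩ := by
    rw [Function.iterate_one, buasl_phi_inr, psi_inl']
  rw [bu_bd_eq 1 (by rw [e]; rfl), e]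
  intro i hi
  obtain rfl : i = 0 := by omega
  rw [Function.iterate_zero, id, buasl_phi_inr]
  exact T.buasl_rung_inl _

theorem buasl_des_iter (k : ℕ) (s : T.S) : T.des (T.nx^[k] s) ↔ T.des s := by
  induction k with
  | zero => rfl
  | succ k ih => rw [Function.iterate_succ_apply', T.des_nx, ih]

theorem buasl_bd_iter (k : ℕ) (s : T.S) (h : T.des s) :
    (T.map.bd T.Rung)^[k] (.inr ⟨s, h⟩) = .inr ⟨T.nx^[k] s, (T.buasl_des_iter k s).2 h⟩ := by
  induction k with
  | zero => rfl
  | succ k ih =>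
    rw [Function.iterate_succ_apply', ih, buasl_bd]
    congr 2
    exact (Function.iterate_succ_apply' _ _ _).symm

theorem buasl_reg_phi (d : T.map.D) : T.buasl_reg (T.map.φ d) = T.buasl_reg d := by
  rcases d with s | ⟨s, hs⟩
  · by_cases h : T.des (T.m s)
    · rw [T.buasl_phi_inl s h]; exact T.px_m s
    · rw [T.buasl_phi_inl' s h]; exact (T.px_nx _).trans (T.px_m s)
  · exact T.px_nx s

theorem buasl_same_m (s : T.S) : T.map.Same T.Rung (.inl s) (.inl (T.m s)) :=
  Relation.ReflTransGen.single (Or.inr ⟨T.buasl_rung_inl s, rfl⟩)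

theorem buasl_same_phi (d : T.map.D) : T.map.Same T.Rung d (T.map.φ d) :=
  Relation.ReflTransGen.single (Or.inl rfl)

theorem buasl_same_nx (s : T.S) : T.map.Same T.Rung (.inl s) (.inl (T.nx s)) := by
  refine (T.buasl_same_m s).trans ((T.buasl_same_phi _).trans ?_)
  by_cases h : T.des (T.m (T.m s))
  · rw [T.buasl_phi_inl _ h]
    have := T.buasl_same_phi (.inr ⟨_, h⟩)
    rw [buasl_phi_inr] at this
    refine this.trans ?_
    rw [T.mm]
  · rw [T.buasl_phi_inl' _ h, T.mm]

theorem buasl_same_px {s t : T.S} (h : T.px s = T.px t) :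
    T.map.Same T.Rung (.inl s) (.inl t) := by
  have := T.px_conn s t h
  clear h
  induction this with
  | refl => exact Relation.ReflTransGen.refl
  | tail _ h2 ih =>
    rcases h2 with rfl | rfl
    · exact ih.trans (T.buasl_same_nx _)
    · exact ih.trans (T.buasl_same_m _)

theorem buasl_base (d : T.map.D) :
    ∃ s, T.px s = T.buasl_reg d ∧ T.map.Same T.Rung d (.inl s) := by
  rcases d with s | ⟨s, hs⟩
  · exact ⟨s, rfl, Relation.ReflTransGen.refl⟩
  · exact ⟨T.nx s, T.px_nx s, T.buasl_same_phi (.inr ⟨s, hs⟩)⟩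

theorem buasl_reg_iff (d d' : T.map.D) :
    T.buasl_reg d = T.buasl_reg d' ↔ T.map.Same T.Rung d d' := by
  constructor
  · intro h
    obtain ⟨s, hs, h1⟩ := T.buasl_base d
    obtain ⟨t, ht, h2⟩ := T.buasl_base d'
    exact h1.trans ((T.buasl_same_px (by rw [hs, ht, h])).trans (bu_same_symm T.buasl_Ha h2))
  · intro h
    induction h with
    | refl => rfl
    | @tail b c _ h2 ih =>
      rw [ih]
      rcases h2 with rfl | ⟨h3, rfl⟩
      · exact (T.buasl_reg_phi b).symm
      · rcases b with s | s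
        · exact (T.px_m s).symm
        · exact absurd (T.buasl_rung_inr s) h3

theorem buasl_psi_iter (k : ℕ) (s : T.S) (h : ¬ T.des s) :
    T.map.ψ^[k] (.inl s) = .inl (T.nx^[k] s) := by
  induction k with
  | zero => rfl
  | succ k ih =>
    rw [Function.iterate_succ_apply', ih, Function.iterate_succ_apply',
      T.psi_inl _ (fun h' => h ((T.buasl_des_iter k s).1 h'))]

theorem buasl_lab_iter (k : ℕ) (s : T.S) (h : ¬ T.des s) :
    T.lab (T.nx^[k] s) = lf^[k] (T.lab s) := by
  induction k with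
  | zero => rfl
  | succ k ih =>
    rw [Function.iterate_succ_apply', Function.iterate_succ_apply',
      (T.tile _ (fun h' => h ((T.buasl_des_iter k s).1 h'))).1, ih]

theorem buasl_lf_ne (d : Dart) : lf^[1] d ≠ d ∧ lf^[2] d ≠ d ∧ lf^[3] d ≠ d := by
  revert d; decide

theorem buasl_period (s : T.S) (h : ¬ T.des s) :
    Function.minimalPeriod T.map.ψ (.inl s) = 6 := by
  have h6 : Function.IsPeriodicPt T.map.ψ 6 (.inl s) := by
    show T.map.ψ^[6] (.inl s) = .inl s
    rw [T.buasl_psi_iter 6 s h, (T.tile s h).2]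
  have hd := h6.minimalPeriod_dvd
  have hp : T.map.ψ^[Function.minimalPeriod T.map.ψ (.inl s)] (.inl s) = .inl s :=
    Function.isPeriodicPt_minimalPeriod _ _
  generalize Function.minimalPeriod T.map.ψ (.inl s) = p at hd hp
  rw [T.buasl_psi_iter p s h] at hp
  have hp' : T.nx^[p] s = s := Sum.inl_injective hp
  have hl : lf^[p] (T.lab s) = T.lab s := by rw [← T.buasl_lab_iter p s h, hp']
  have hle : p ≤ 6 := Nat.le_of_dvd (by norm_num) hd
  obtain ⟨a1, a2, a3⟩ := buasl_lf_ne (T.lab s)
  interval_cases p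
  · simp at hd
  · exact absurd hl a1
  · exact absurd hl a2
  · exact absurd hl a3
  · simp at hd
  · simp at hd
  · rfl

/-- The sides as darts of the dual map. -/
def buasl_emb : T.S ↪ T.map.D := ⟨Sum.inl, Sum.inl_injective⟩

theorem buasl_sides (A : Finset T.map.D) (C : Finset T.S)
    (hl : ∀ s, Sum.inl s ∈ A ↔ s ∈ C) (hr : ∀ s, Sum.inr s ∉ A) : A = C.map T.buasl_emb := by
  ext d
  rw [Finset.mem_map]
  rcases d with s | s
  · refine (hl s).trans ⟨fun h => ⟨s, h, rfl⟩, fun ⟨t, h, e⟩ => ?_⟩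
    have e' : t = s := Sum.inl_injective e
    exact e' ▸ h
  · exact iff_of_false (hr s) fun ⟨t, _, e⟩ => Sum.inl_ne_inr e

open Classical in
theorem buasl_sum (x : G.X) (a : T.map.D → ℕ) :
    ∑ d ∈ Finset.univ.filter (fun d => T.buasl_reg d = x), a d =
      ∑ s ∈ Finset.univ.filter (fun s => T.px s = x), a (.inl s) +
      ∑ s ∈ Finset.univ.filter (fun s : {s : T.S // T.des s} => T.px s.1 = x), a (.inr s) := by
  simp only [Finset.sum_filter]
  exact Fintype.sum_sum_type (α₁ := T.S) (α₂ := {s : T.S // T.des s})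
    (fun d => if T.buasl_reg d = x then a d else 0)

open Classical in
theorem buasl_faces (x : G.X) :
    ∑ s ∈ Finset.univ.filter (fun s => T.px s = x), ang (T.lab s) (T.lab (T.nx s)) =
      4 * norb T.map.φ (Finset.univ.filter fun d => T.buasl_reg d = x) := by
  rw [← sum_eq_mul_norb T.map.φ _ (fun d hd => by
    simpa [T.buasl_reg_phi] using hd) T.wt 4 (fun d _ => T.face_weight d), buasl_sum]
  have : ∑ s ∈ Finset.univ.filter (fun s : {s : T.S // T.des s} => T.px s.1 = x),
      T.wt (.inr s) = 0 := Finset.sum_eq_zero fun _ _ => rfl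
  rw [this, add_zero]
  refine Finset.sum_bijective T.nx T.nx.bijective (fun s => by simp [T.px_nx]) fun s _ => ?_
  simp [wt]

open Classical in
theorem buasl_verts (x : G.X) :
    (Finset.univ.filter fun s => T.px s = x ∧ ¬ T.des s).card =
      6 * norb T.map.ψ ((Finset.univ.filter fun d => T.buasl_reg d = x).filter
        fun d => ∀ k : ℕ, ¬ T.Rung (T.map.ψ^[k] d)) := by
  have e := T.buasl_sides ((Finset.univ.filter fun d => T.buasl_reg d = x).filter
        fun d => ∀ k : ℕ, ¬ T.Rung (T.map.ψ^[k] d))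
    (Finset.univ.filter fun s => T.px s = x ∧ ¬ T.des s)
    (fun s => by
      have e1 : (∀ k : ℕ, ¬ T.Rung (T.map.ψ^[k] (.inl s))) ↔ ¬ T.des s :=
        ⟨fun h hs => h 1 (by rw [Function.iterate_one, T.psi_inl' s hs]; rfl),
          fun h k => by rw [T.buasl_psi_iter k s h]; exact T.buasl_rung_inl _⟩
      refine Finset.mem_filter.trans ?_
      simp only [Finset.mem_filter, Finset.mem_univ, true_and]
      exact and_congr (Finset.mem_filter.trans (and_iff_right (Finset.mem_univ _))) e1)
    (fun s h => (Finset.mem_filter.1 h).2 0 rfl)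
  rw [e, ← sum_eq_mul_norb T.map.ψ _ ?_ (fun _ => 1) 6 ?_]
  · simp
  · intro d hd
    obtain ⟨s, hs, rfl⟩ := Finset.mem_map.1 hd
    obtain ⟨h1, h2⟩ := (Finset.mem_filter.1 hs).2
    refine Finset.mem_map.2 ⟨T.nx s, ?_, (T.psi_inl s h2).symm⟩
    exact Finset.mem_filter.2 ⟨Finset.mem_univ _, (T.px_nx s).trans h1,
      fun h => h2 ((T.des_nx s).1 h)⟩
  · intro d hd
    obtain ⟨s, hs, rfl⟩ := Finset.mem_map.1 hd
    obtain ⟨h1, h2⟩ := (Finset.mem_filter.1 hs).2
    have := T.buasl_period s h2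
    simp only [Finset.sum_const, Finset.card_range, smul_eq_mul, mul_one]
    exact this

open Classical in
theorem buasl_euler (x : G.X) :
    T.map.Euler T.Rung (Finset.univ.filter fun d => T.buasl_reg d = x) 0 (G.ord x).length := by
  have h1 := T.buasl_faces x
  have h2 := T.buasl_verts x
  have h3 := T.euler x
  have h4 : ((Finset.univ.filter fun d => T.buasl_reg d = x).filter fun d => ¬ T.Rung d).card =
      (Finset.univ.filter fun s => T.px s = x).card := by
    rw [T.buasl_sides
      ((Finset.univ.filter fun d => T.buasl_reg d = x).filter fun d => ¬ T.Rung d)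
      (Finset.univ.filter fun s => T.px s = x)
      (fun s => by
        refine Finset.mem_filter.trans ((and_iff_left (T.buasl_rung_inl s)).trans ?_)
        refine (Finset.mem_filter.trans (and_iff_right (Finset.mem_univ _))).trans ?_
        rw [Finset.mem_filter, and_iff_right (Finset.mem_univ _)]
        exact Iff.rfl)
      (fun s h => (Finset.mem_filter.1 h).2 (T.buasl_rung_inr s)), Finset.card_map]
  have h5 : (Finset.univ.filter fun s => T.px s = x ∧ T.des s).card +
      (Finset.univ.filter fun s => T.px s = x ∧ ¬ T.des s).card =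
      (Finset.univ.filter fun s => T.px s = x).card := by
    rw [← Finset.filter_filter, ← Finset.filter_filter]
    exact Finset.card_filter_add_card_filter_not _
  unfold CMap.Euler
  omega

open Classical in
theorem buasl_size (x : G.X) : (Finset.univ.filter fun d => T.buasl_reg d = x).card ≤ 2 * B := by
  have h1 := T.buasl_sum x (fun _ => 1)
  simp only [Finset.sum_const, smul_eq_mul, mul_one] at h1
  have h2 := T.size x
  have h3 : (Finset.univ.filter fun s : {s : T.S // T.des s} => T.px s.1 = x).card ≤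
      (Finset.univ.filter fun s => T.px s = x).card :=
    Finset.card_le_card_of_injOn Subtype.val (fun s hs => by simpa using hs)
      (Subtype.val_injective.injOn)
  omega

theorem lab_rung (h : ∀ x, G.h x = 0) : Nonempty (Lab T.map T.Rung G (2 * B)) := by
  refine ⟨{
    reg := T.buasl_reg
    cuf := T.buasl_cuf
    Hα := T.buasl_Ha
    simple := ?_
    reg_iff := T.buasl_reg_iff
    reg_surj := fun x => by
      obtain ⟨s, hs⟩ := T.px_surj x
      exact ⟨.inl s, hs⟩
    cuf_iff := ?_
    cuf_surj := fun c => by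
      obtain ⟨s, hs, e⟩ := T.cf_surj c
      exact ⟨.inr ⟨s, hs⟩, rfl, e⟩
    cuf_α := ?_
    own_cuf := ?_
    euler := fun x => by rw [h x]; exact T.buasl_euler x
    size := T.buasl_size }⟩
  · rintro (s | ⟨s, hs⟩) hd
    · exact absurd hd (T.buasl_rung_inl s)
    · rw [buasl_bd, buasl_alpha_inr, buasl_bd, buasl_alpha_inr]
      congr 2
      exact T.π_nx _ ((T.des_nx s).2 hs)
  · rintro (s | ⟨s, hs⟩) (t | ⟨t, ht⟩) hd hd'
    · exact absurd hd (T.buasl_rung_inl s)
    · exact absurd hd (T.buasl_rung_inl s)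
    · exact absurd hd' (T.buasl_rung_inl t)
    · refine (T.cf_iff s t hs ht).trans (exists_congr fun k => ?_)
      rw [buasl_bd_iter]
      exact ⟨fun e => congrArg Sum.inr (Subtype.ext e),
        fun e => congrArg Subtype.val (Sum.inr_injective e)⟩
  · rintro (s | ⟨s, hs⟩) hd
    · exact absurd hd (T.buasl_rung_inl s)
    · have e : T.cf s hs = T.cf (T.nx s) ((T.des_nx s).2 hs) := (T.cf_iff _ _ _ _).2 ⟨1, rfl⟩
      show T.cf (T.π (T.nx s)) _ = G.bar (T.cf s hs)
      rw [e]
      exact T.cf_π _ _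
  · rintro (s | ⟨s, hs⟩) hd
    · exact absurd hd (T.buasl_rung_inl s)
    · exact T.own_cf s hs

end TD

end Pool.Agent.MC
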