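import Pool.Agent.P.MP_2677b3_gt.BuAs0
import Pool.Agent.P.MP_2677b3_gt.BuAsL
import Pool.Agent.P.MP_2677b3_gt.BuAs4
import Pool.Agent.P.MP_2677b3_gt.BuAs5
import Pool.Agent.P.MP_2677b3_gt.BuAs6

namespace Pool.Agent.MC

theorem buasm_rv (d : Dart) : (rv d).2.2 = d.2.2 := by revert d; decide

theorem buasm_iter {G : GS} {B : ℕ} (T : TD G B) {X : Type} (tl : T.S → X)
    (h : ∀ s, ¬ T.des s → tl (T.nx s) = tl s) {s : T.S} (hs : ¬ T.des s) (k : ℕ) :
    ¬ T.des (T.nx^[k] s) ∧ tl (T.nx^[k] s) = tl s := by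
  induction k with
  | zero => exact ⟨hs, rfl⟩
  | succ k ih =>
    rw [Function.iterate_succ_apply']
    exact ⟨fun e => ih.1 ((T.des_nx _).1 e), (h _ ih.1).trans ih.2⟩

theorem buasm_rep {G : GS} {B : ℕ} (T : TD G B) (x : T.map.gd.V) :
    ∃ s : T.S, T.map.gd.src (.inl s) = x := by
  obtain ⟨d, rfl⟩ := Quotient.exists_rep x
  rcases d with s | ⟨s, h⟩
  · exact ⟨s, rfl⟩
  · exact ⟨s, (T.src_inr s h).1.symm⟩

theorem buasm_tgt {G : GS} {B : ℕ} (T : TD G B) (s : T.S) :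
    T.map.gd.tgt (.inl s) = T.map.gd.src (.inl (T.m s)) := rfl

theorem buasm_kap {G : GS} {B : ℕ} (T : TD G B) (s : T.S) :
    T.map.gd.ev (T.kap s) = T.map.gd.val (.inl s) * T.map.gd.ev (T.chi (T.m s)) :=
  Gd.ev_cons (A := T.map.gd) _ _

theorem buasm_chi {G : GS} {B : ℕ} (T : TD G B) (s : T.S) (h : T.des s) :
    T.map.gd.ev (T.chi s) = T.map.gd.ev (T.kap (T.π s)) := by
  rw [(T.dn_of_des s h).2.2]
  rfl

theorem buasm_phi {G : GS} {B : ℕ} (T : TD G B) {can : T.S → Prop} {ε : T.S → W6}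
    {Φ : T.map.gd.U →* W6} (c1 : ∀ s, ¬ T.des s → can s)
    (c2 : ∀ s, T.des s → (can (T.π s) ↔ ¬ can s)) (c3 : ∀ s, can s → ε s = 1)
    (c4 : ∀ s, ¬ can s → ε s = refW (T.lab s))
    (c5 : ∀ s, Φ (T.map.gd.val (.inl s)) = ε s * refW (T.lab s) * ε (T.m s)) (s : T.S) :
    Φ (T.map.gd.ev (T.kap s)) = ε s * refW (T.lab s) := by
  have hsq : ∀ s, ε s * ε s = 1 := by
    intro s
    by_cases h : can s
    · rw [c3 s h, one_mul]
    · rw [c4 s h, refW_sq]
  have key : ∀ n t, T.dep t = n → Φ (T.map.gd.ev (T.chi t)) = ε t := by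
    intro n
    induction n using Nat.strong_induction_on with
    | _ n ih =>
      intro t ht
      by_cases h : T.des t
      · have h1 := (T.dn_of_des t h).1
        rw [buasm_chi T t h, buasm_kap, map_mul, c5, ih _ (by omega) (T.m (T.π t)) rfl, mul_assoc,
          hsq, mul_one, T.lab_π t h, refW_rv]
        by_cases h2 : can t
        · rw [c4 _ (fun e => (c2 t h).1 e h2), T.lab_π t h, refW_rv, refW_sq, c3 t h2]
        · rw [c3 _ ((c2 t h).2 h2), one_mul, c4 t h2]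
      · rw [(T.dn_of_not t h).2.2, c3 t (c1 t h)]
        exact map_one Φ
  rw [buasm_kap, map_mul, c5, key _ _ rfl, mul_assoc, hsq, mul_one]

theorem TD.eqv {G : GS} {B : ℕ} (T : TD G B) :
    ∃ Z : WSet, Eqv (12 * B + 12) T.map.gd Z.gd := by
  classical
  obtain ⟨Z, tl, sd, g, w1, w2, w3, w4, w5, w6, w7⟩ := T.ws_exists
  obtain ⟨can, ε, Φ, c1, c2, c3, c4, c5⟩ := T.develop
  choose rep hrep using buasm_rep T
  choose rp rp1 rp2 rp3 using T.rung_path
  have hdes : ∀ s, ¬ can s → T.des s := fun s h => by_contra fun h' => h (c1 s h')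
  obtain ⟨c, cc1, cc2⟩ : ∃ c : T.S → T.S, (∀ s, can s → c s = s) ∧ ∀ s, ¬ can s → c s = T.π s :=
    ⟨fun s => if can s then s else T.π s, fun s h => if_pos h, fun s h => if_neg h⟩
  have hcsrc : ∀ s, T.map.gd.src (.inl (c s)) = T.map.gd.src (.inl s) := by
    intro s
    by_cases h : can s
    · rw [cc1 s h]
    · rw [cc2 s h, T.src_pi s (hdes s h)]
  have hwd : ∀ s t, T.map.gd.src (.inl s) = T.map.gd.src (.inl t) →
      tl (c s) = tl (c t) ∧ T.chi (c s) = T.chi (c t) := by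
    intro s t e
    rcases T.src_eq e with ⟨h, rfl | rfl⟩ | ⟨h, k, rfl⟩
    · exact ⟨rfl, rfl⟩
    · have e1 : c (T.π s) = c s := by
        by_cases h2 : can s
        · rw [cc1 s h2, cc2 _ (fun e => (c2 s h).1 e h2), T.ππ]
        · rw [cc2 s h2, cc1 _ ((c2 s h).2 h2)]
      rw [e1]
      exact ⟨rfl, rfl⟩
    · have h1 := buasm_iter T tl w3 h k
      rw [cc1 s (c1 s h), cc1 _ (c1 _ h1.1), h1.2, (T.dn_of_not s h).2.2,
        (T.dn_of_not _ h1.1).2.2]
      exact ⟨rfl, rfl⟩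
  obtain ⟨fv, fv1⟩ : ∃ fv : T.map.gd.V → Z.gd.V, ∀ s, fv (T.map.gd.src (.inl s)) = tl (c s) :=
    ⟨fun x => tl (c (rep x)), fun s => (hwd _ _ (hrep _)).1⟩
  obtain ⟨η, η1⟩ : ∃ η : T.map.gd.V → List T.map.gd.E,
      ∀ s, η (T.map.gd.src (.inl s)) = T.chi (c s) :=
    ⟨fun x => T.chi (c (rep x)), fun s => (hwd _ _ (hrep _)).2⟩
  obtain ⟨ed, d1, d2, d3, hg⟩ : ∃ ed : T.S → Z.gd.E, (∀ s, Z.gd.src (ed s) = tl s) ∧
      (∀ s, Z.gd.tgt (ed s) = Z.r (T.lab s).2.2 (tl s)) ∧ (∀ s, Z.gd.val (ed s) = refW (T.lab s)) ∧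
      ∀ s, T.map.gd.ev (T.chi s) * T.map.gd.ev (g.e (ed s)) = T.map.gd.ev (T.kap s) := by
    refine ⟨fun s => (tl s, (T.lab s).2.2), fun _ => rfl, fun _ => rfl, fun _ => rfl, fun s => ?_⟩
    rw [w7, w2, T.ev_kap_dn]
  obtain ⟨pre, a1, a2, a3, a4⟩ : ∃ pre : T.S → List Z.gd.E,
      (∀ s, Z.gd.Path (tl (c s)) (pre s) (tl s)) ∧ (∀ s, (pre s).length ≤ 1) ∧
      (∀ s, Z.gd.ev (pre s) = ε s) ∧ ∀ s, T.map.gd.ev (T.chi (c s)) *
        T.map.gd.ev ((pre s).flatMap g.e) = T.map.gd.ev (T.chi s) := by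
    refine ⟨fun s => if can s then [] else [ed (T.π s)], fun s => ?_, fun s => ?_,
      fun s => ?_, fun s => ?_⟩ <;> by_cases h : can s
    · simp only [if_pos h, cc1 s h]
      exact rfl
    · simp only [if_neg h, cc2 s h]
      refine ⟨d1 _, (d2 _).trans ?_⟩
      rw [T.lab_π s (hdes s h), buasm_rv, w5 s (hdes s h), Z.rr]
    · simp only [if_pos h]
      exact Nat.zero_le _
    · simp only [if_neg h]
      exact le_rfl
    · simp only [if_pos h, c3 s h]
      exact rfl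
    · simp only [if_neg h, c4 s h]
      rw [Gd.ev_cons, d3, T.lab_π s (hdes s h), refW_rv]
      exact mul_one _
    · simp only [if_pos h, cc1 s h]
      exact mul_one _
    · simp only [if_neg h, cc2 s h]
      rw [buasm_chi T s (hdes s h), ← hg (T.π s), List.flatMap_singleton]
  obtain ⟨post, b1, b2, b3, b4⟩ : ∃ post : T.S → List Z.gd.E,
      (∀ s, Z.gd.Path (tl s) (post s) (tl (c s))) ∧ (∀ s, (post s).length ≤ 1) ∧
      (∀ s, Z.gd.ev (post s) = ε s) ∧ ∀ s, T.map.gd.ev (T.chi s) *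
        T.map.gd.ev ((post s).flatMap g.e) = T.map.gd.ev (T.chi (c s)) := by
    refine ⟨fun s => if can s then [] else [ed s], fun s => ?_, fun s => ?_,
      fun s => ?_, fun s => ?_⟩ <;> by_cases h : can s
    · simp only [if_pos h, cc1 s h]
      exact rfl
    · simp only [if_neg h, cc2 s h]
      exact ⟨d1 _, (d2 _).trans (w5 s (hdes s h)).symm⟩
    · simp only [if_pos h]
      exact Nat.zero_le _
    · simp only [if_neg h]
      exact le_rfl
    · simp only [if_pos h, c3 s h]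
      exact rfl
    · simp only [if_neg h, c4 s h]
      rw [Gd.ev_cons, d3]
      exact mul_one _
    · simp only [if_pos h, cc1 s h]
      exact mul_one _
    · simp only [if_neg h, cc2 s h]
      rw [List.flatMap_singleton, hg s, buasm_chi T _ ((T.des_π s).2 (hdes s h)), T.ππ]
  obtain ⟨fe, e1, e2, e3, e4⟩ : ∃ fe : T.S → List Z.gd.E,
      (∀ s, Z.gd.Path (tl (c s)) (fe s) (tl (c (T.m s)))) ∧ (∀ s, (fe s).length ≤ 3) ∧
      (∀ s, Z.gd.ev (fe s) = Φ (T.map.gd.val (.inl s))) ∧ ∀ s, T.map.gd.ev (T.chi (c s)) *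
        T.map.gd.ev ((fe s).flatMap g.e) =
          T.map.gd.val (.inl s) * T.map.gd.ev (T.chi (c (T.m s))) := by
    refine ⟨fun s => pre s ++ ed s :: post (T.m s), fun s => ?_, fun s => ?_,
      fun s => ?_, fun s => ?_⟩
    · refine (a1 s).append (Gd.path_cons.2 ⟨d1 s, ?_⟩)
      have h1 := b1 (T.m s)
      rw [w4 s, ← d2] at h1
      exact h1
    · have h1 := a2 s
      have h2 := b2 (T.m s)
      simp only [List.length_append, List.length_cons]
      omega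
    · rw [Gd.ev_append, Gd.ev_cons, a3, b3, c5, mul_assoc, d3]
      rfl
    · rw [List.flatMap_append, List.flatMap_cons, Gd.ev_append, Gd.ev_append, ← mul_assoc, a4,
        ← mul_assoc, hg, buasm_kap, mul_assoc, b4]
  have tel : ∀ (p : List T.S) (x y : T.map.gd.V), T.map.gd.Path x (p.map Sum.inl) y →
      Z.gd.Path (fv x) (p.flatMap fe) (fv y) ∧
      Z.gd.ev (p.flatMap fe) = Φ (T.map.gd.ev (p.map Sum.inl)) ∧
      T.map.gd.ev (η x) * T.map.gd.ev ((p.flatMap fe).flatMap g.e) =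
        T.map.gd.ev (p.map Sum.inl) * T.map.gd.ev (η y) := by
    intro p
    induction p with
    | nil =>
      intro x y h
      obtain rfl : x = y := h
      exact ⟨rfl, (map_one Φ).symm, (mul_one _).trans (one_mul _).symm⟩
    | cons s p ih =>
      rintro x y ⟨rfl, h⟩
      obtain ⟨i1, i2, i3⟩ := ih _ y h
      rw [buasm_tgt, fv1] at i1
      rw [buasm_tgt, η1] at i3
      have h1 : T.map.gd.ev ((s :: p).map Sum.inl) =
          T.map.gd.val (.inl s) * T.map.gd.ev (p.map Sum.inl) := Gd.ev_cons (A := T.map.gd) _ _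
      rw [List.flatMap_cons, h1]
      refine ⟨?_, ?_, ?_⟩
      · rw [fv1]
        exact (e1 s).append i1
      · rw [Gd.ev_append, e3, i2, map_mul]
        rfl
      · rw [η1, List.flatMap_append, Gd.ev_append, ← mul_assoc, e4, mul_assoc, i3, mul_assoc]
  obtain ⟨q, q1, q2, q3⟩ : ∃ q : T.map.gd.E → List T.S, (∀ a, (q a).length ≤ 4 * B + 4) ∧
      (∀ a, T.map.gd.Path (T.map.gd.src a) ((q a).map Sum.inl) (T.map.gd.tgt a)) ∧
      ∀ a, T.map.gd.ev ((q a).map Sum.inl) = T.map.gd.val a := by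
    refine ⟨Sum.elim (fun s => [s]) fun u => rp u.1 u.2, ?_, ?_, ?_⟩
    · rintro (s | ⟨s, h⟩)
      · exact Nat.le_add_left 1 (4 * B + 3)
      · exact rp1 s h
    · rintro (s | ⟨s, h⟩)
      · exact T.map.gd.path_single _
      · exact rp2 s h
    · rintro (s | ⟨s, h⟩)
      · exact mul_one _
      · exact rp3 s h
  have hev : ∀ p : List T.map.gd.E,
      Z.gd.ev (p.flatMap fun a => (q a).flatMap fe) = Φ (T.map.gd.ev p) := by
    intro p
    induction p with
    | nil => exact (map_one Φ).symm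
    | cons a p ih =>
      rw [List.flatMap_cons, Gd.ev_append, Gd.ev_cons, map_mul, ih, (tel _ _ _ (q2 a)).2.1, q3]
      rfl
  let f : Mor (12 * B + 12) T.map.gd Z.gd :=
    { v := fv
      e := fun a => (q a).flatMap fe
      path := fun a => (tel _ _ _ (q2 a)).1
      len := fun a => by
        have h1 := length_flatMap_le (q a) fe 3 fun s _ => e2 s
        have h2 := q1 a
        omega
      cong := fun x p _ h => by
        rw [hev, h]
        exact map_one Φ }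
  refine ⟨Z, f, g.mono (by omega), ⟨η, fun x => ?_, fun a => ?_⟩,
    ⟨fun _ => [], fun z => ⟨?_, Nat.zero_le _⟩, fun a => ?_⟩⟩
  · obtain ⟨s, rfl⟩ := buasm_rep T x
    have h1 := T.chi_path (c s)
    rw [η1]
    refine ⟨?_, h1.2.trans (by omega)⟩
    change T.map.gd.Path _ _ (g.v (fv _))
    have h2 := w6 (tl (c s)) (T.lab (c s)).2.2
    rw [w2] at h2
    rw [fv1, h2, ← hcsrc s]
    exact h1.1
  · have h1 := (tel _ _ _ (q2 a)).2.2
    rw [q3] at h1
    exact h1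
  · change z = fv (g.v z)
    rw [w6 z 0, fv1, cc1 _ (c1 _ (w1 z 0).1), (w1 z 0).2.2]
  · obtain ⟨z, j⟩ := a
    have h1 := hev (g.e (z, j))
    rw [w7, buasm_phi T c1 c2 c3 c4 c5, c3 _ (c1 _ (w1 z j).1), one_mul, refW, (w1 z j).2.1,
      ← w7] at h1
    exact (one_mul _).trans (h1.trans (mul_one _).symm)

theorem asm (n l : ℕ) : ∃ K : ℕ, ∀ (G : GS) (W : G.C → List Entry), (∀ x, G.h x = 0) →
    (∀ x, (G.ord x).length ≤ n) → Glue G W l → ∃ T : WSet, Eqv K G.gd T.gd := by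
  obtain ⟨B, hB⟩ := td_of_glue n l
  obtain ⟨K, hK⟩ := nf_gg (2 * B)
  refine ⟨(K + (12 * B + 12)) * (K + (12 * B + 12)) + (K + (12 * B + 12)),
    fun G W h0 hn hW => ?_⟩
  obtain ⟨T⟩ := hB G W hn hW
  obtain ⟨L⟩ := T.lab_rung h0
  obtain ⟨Z, hZ⟩ := T.eqv
  exact ⟨Z, (hK _ _ _ L).symm.trans hZ⟩

end Pool.Agent.MC
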