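import Pool.Agent.P.MP_2677b3_gt.BuGrA

namespace Pool.Agent.MC

theorem bugrf_tree (G : GS) (hG : G.Conn) : ∃ (r : G.X) (depth : G.X → ℕ)
    (par : {x : G.X // x ≠ r} → G.C), (∀ a, G.own (par a) = a.1) ∧
    ∀ a, depth (G.own (G.bar (par a))) < depth a.1 := by
  classical
  obtain ⟨⟨r⟩, hc⟩ := hG
  let F : Set G.X → Set G.X := fun A => {x | ∃ c, G.own c = x ∧ G.own (G.bar c) ∈ A}
  have hex : ∀ x, ∃ n, x ∈ F^[n] {r} := by
    intro x
    have h := hc r x
    induction h with
    | refl => exact ⟨0, rfl⟩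
    | tail _ hbc ih =>
      obtain ⟨n, hn⟩ := ih
      obtain ⟨c, h1, h2⟩ := hbc
      refine ⟨n + 1, ?_⟩
      rw [Function.iterate_succ_apply']
      refine ⟨G.bar c, h2, ?_⟩
      rw [G.bar_bar, h1]
      exact hn
  have hpar : ∀ a : {x : G.X // x ≠ r}, ∃ c, G.own c = a.1 ∧
      Nat.find (hex (G.own (G.bar c))) < Nat.find (hex a.1) := by
    intro a
    have h := Nat.find_spec (hex a.1)
    rcases hn : Nat.find (hex a.1) with _ | n
    · rw [hn] at h
      exact absurd h a.2
    · rw [hn, Function.iterate_succ_apply'] at h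
      obtain ⟨c, h1, h2⟩ := h
      exact ⟨c, h1, Nat.lt_succ_of_le (Nat.find_min' _ h2)⟩
  choose par h1 h2 using hpar
  exact ⟨r, fun x => Nat.find (hex x), par, h1, h2⟩

open Classical in
theorem bugrf_card {N C : Type} [Fintype N] [Fintype C] (f : N → ZMod 2) (g : N → C)
    (hg : Function.Injective g) (p : C → Prop) :
    (((Finset.univ.filter fun c => p c ∧ ∃ a, f a = 1 ∧ c = g a).card : ℕ) : ZMod 2) =
      ∑ a, if p (g a) then f a else 0 := by
  have h1 : (Finset.univ.filter fun c => p c ∧ ∃ a, f a = 1 ∧ c = g a) =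
      (Finset.univ.filter fun a => p (g a) ∧ f a = 1).image g := by
    ext c
    simp only [Finset.mem_filter, Finset.mem_univ, true_and, Finset.mem_image]
    constructor
    · rintro ⟨hp, a, ha, rfl⟩
      exact ⟨a, ⟨hp, ha⟩, rfl⟩
    · rintro ⟨a, ⟨hp, ha⟩, rfl⟩
      exact ⟨hp, a, ha, rfl⟩
  rw [h1, Finset.card_image_of_injective _ hg, Finset.card_filter]
  push_cast
  refine Finset.sum_congr rfl fun a _ => ?_
  have h2 : ∀ z : ZMod 2, z = 0 ∨ z = 1 := by decide
  by_cases hp : p (g a)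
  · rcases h2 (f a) with h | h
    · simp [hp, h]
    · simp [hp, h]
  · simp [hp]

open Classical in
theorem bugrf_solve (G : GS) (r : G.X) (depth : G.X → ℕ)
    (par : {x : G.X // x ≠ r} → G.C) (h1 : ∀ a, G.own (par a) = a.1)
    (h2 : ∀ a, depth (G.own (G.bar (par a))) < depth a.1) (t : {x : G.X // x ≠ r} → ZMod 2) :
    ∃ f : {x : G.X // x ≠ r} → ZMod 2, ∀ x : {x : G.X // x ≠ r},
      (∑ a, if G.own (par a) = x.1 then f a else 0) +
        (∑ a, if G.own (G.bar (par a)) = x.1 then f a else 0) = t x := by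
  let L : ({x : G.X // x ≠ r} → ZMod 2) → ({x : G.X // x ≠ r} → ZMod 2) := fun f x =>
    (∑ a, if G.own (par a) = x.1 then f a else 0) +
        (∑ a, if G.own (G.bar (par a)) = x.1 then f a else 0)
  have hs : ∀ (f : {x : G.X // x ≠ r} → ZMod 2) (x : {x : G.X // x ≠ r}),
      (∑ a, if G.own (par a) = x.1 then f a else 0) = f x := by
    intro f x
    rw [Finset.sum_eq_single x]
    · rw [if_pos (h1 x)]
    · intro b _ hb
      rw [if_neg]
      rw [h1]
      exact fun h => hb (Subtype.ext h)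
    · intro h
      exact absurd (Finset.mem_univ x) h
  have hinj : Function.Injective L := by
    intro f g hfg
    by_contra hne
    have hne' : (Finset.univ.filter fun a => f a ≠ g a).Nonempty := by
      by_contra h
      apply hne
      funext a
      by_contra ha
      exact h ⟨a, Finset.mem_filter.2 ⟨Finset.mem_univ a, ha⟩⟩
    obtain ⟨a, ha, hmax⟩ := Finset.exists_max_image _ (fun a => depth a.1) hne'
    have h3 := congrFun hfg a
    have h4 : (∑ b, if G.own (G.bar (par b)) = a.1 then f b else 0) =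
        ∑ b, if G.own (G.bar (par b)) = a.1 then g b else 0 := by
      refine Finset.sum_congr rfl fun b _ => ?_
      by_cases hb : G.own (G.bar (par b)) = a.1
      · rw [if_pos hb, if_pos hb]
        by_contra hfb
        have h5 := hmax b (Finset.mem_filter.2 ⟨Finset.mem_univ b, hfb⟩)
        have h6 := h2 b
        rw [hb] at h6
        omega
      · rw [if_neg hb, if_neg hb]
    simp only [L] at h3
    rw [hs, hs, h4] at h3
    exact (Finset.mem_filter.1 ha).2 (add_right_cancel h3)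
  obtain ⟨f, hf⟩ := (Finite.injective_iff_surjective.1 hinj) t
  exact ⟨f, fun x => congrFun hf x⟩

open Classical in
theorem bugrf_even_root {E X : Type} [Fintype E] [Fintype X] (τ : E → E) (hτ : ∀ e, τ (τ e) = e)
    (hτ' : ∀ e, τ e ≠ e) (f : E → X) (r : X)
    (h : ∀ x, x ≠ r → (((Finset.univ.filter fun e => f e = x).card : ℕ) : ZMod 2) = 0) :
    (((Finset.univ.filter fun e => f e = r).card : ℕ) : ZMod 2) = 0 := by
  have h1 : (∑ _e : E, (1 : ZMod 2)) = 0 := by
    refine Finset.sum_involution (fun e _ => τ e) (fun _ _ => by decide) (fun e _ _ => hτ' e)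
      (fun _ _ => Finset.mem_univ _) (fun e _ => hτ e)
  have h2 : (∑ _e : E, (1 : ZMod 2)) =
      ∑ x, (((Finset.univ.filter fun e => f e = x).card : ℕ) : ZMod 2) := by
    rw [← Finset.sum_fiberwise Finset.univ f (fun _ => (1 : ZMod 2))]
    refine Finset.sum_congr rfl fun x _ => ?_
    rw [Finset.sum_const, nsmul_eq_mul, mul_one]
  rw [h2, Finset.sum_eq_single r (fun x _ hx => h x hx) (fun h => absurd (Finset.mem_univ r) h)]
    at h1
  exact h1

open Classical in
/-- A forest oriented away from the roots whose complement has even degrees, and an orientation of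
the complement with equal in- and out-degrees.  `role c = none`: in the complement. -/
theorem forest_even (G : GS) (hG : G.Conn) : ∃ (dn up out : G.C → Prop) (depth : G.X → ℕ),
    (∀ c, up (G.bar c) ↔ dn c) ∧ (∀ c, ¬ (up c ∧ dn c)) ∧
    (∀ c, dn c → depth (G.own c) < depth (G.own (G.bar c))) ∧
    (∀ c c', up c → up c' → G.own c = G.own c' → c = c') ∧
    (∀ c, out c → ¬ up c ∧ ¬ dn c) ∧ (∀ c, ¬ up c → ¬ dn c → (out (G.bar c) ↔ ¬ out c)) ∧
    ∀ x, (Finset.univ.filter fun c => G.own c = x ∧ out c).card =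
      (Finset.univ.filter fun c => G.own (G.bar c) = x ∧ out c).card := by
  obtain ⟨r, depth, par, h1, h2⟩ := bugrf_tree G hG
  obtain ⟨f, hf⟩ := bugrf_solve G r depth par h1 h2
    (fun x => (((Finset.univ.filter fun c => G.own c = x.1).card : ℕ) : ZMod 2))
  have pinj : Function.Injective par := fun a b h => Subtype.ext (by rw [← h1, ← h1, h])
  have binj : Function.Injective G.bar := fun a b h => by rw [← G.bar_bar a, h, G.bar_bar]
  obtain ⟨up, hup⟩ : ∃ up : G.C → Prop, ∀ c, up c ↔ ∃ a, f a = 1 ∧ c = par a :=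
    ⟨_, fun _ => Iff.rfl⟩
  obtain ⟨dn, hdn⟩ : ∃ dn : G.C → Prop, ∀ c, dn c ↔ ∃ a, f a = 1 ∧ c = G.bar (par a) :=
    ⟨_, fun _ => Iff.rfl⟩
  have hud : ∀ c, up (G.bar c) ↔ dn c := by
    intro c
    rw [hup, hdn]
    constructor
    · rintro ⟨a, ha, h⟩
      exact ⟨a, ha, by rw [← h, G.bar_bar]⟩
    · rintro ⟨a, ha, h⟩
      exact ⟨a, ha, by rw [h, G.bar_bar]⟩
  have hdu : ∀ c, dn (G.bar c) ↔ up c := fun c => by rw [← hud, G.bar_bar]
  have hdep : ∀ c, dn c → depth (G.own c) < depth (G.own (G.bar c)) := by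
    intro c hc
    obtain ⟨a, _, rfl⟩ := (hdn c).1 hc
    rw [G.bar_bar, h1]
    exact h2 a
  have hdis : ∀ c, ¬ (up c ∧ dn c) := by
    rintro c ⟨hu, hd⟩
    have h3 := hdep c hd
    have h4 := hdep (G.bar c) ((hdu c).2 hu)
    rw [G.bar_bar] at h4
    omega
  let τ : {c : G.C // ¬ up c ∧ ¬ dn c} → {c : G.C // ¬ up c ∧ ¬ dn c} := fun e =>
    ⟨G.bar e.1, fun h => e.2.2 ((hud _).1 h), fun h => e.2.1 ((hdu _).1 h)⟩
  have hτ : ∀ e, τ (τ e) = e := fun e => Subtype.ext (G.bar_bar _)
  have hτ' : ∀ e, τ e ≠ e := fun e h => G.bar_ne _ (congrArg Subtype.val h)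
  have hnon : ∀ x, x ≠ r → (((Finset.univ.filter fun e : {c : G.C // ¬ up c ∧ ¬ dn c} =>
      G.own e.1 = x).card : ℕ) : ZMod 2) = 0 := by
    intro x hx
    have h3 := hf ⟨x, hx⟩
    rw [← bugrf_card f par pinj (fun c => G.own c = x),
      ← bugrf_card f (fun a => G.bar (par a)) (binj.comp pinj) (fun c => G.own c = x)] at h3
    have h4 : (Finset.univ.filter fun c => G.own c = x).card =
        (Finset.univ.filter fun c => G.own c = x ∧ ∃ a, f a = 1 ∧ c = par a).card +
        (Finset.univ.filter fun c => G.own c = x ∧ ∃ a, f a = 1 ∧ c = G.bar (par a)).card +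
        (Finset.univ.filter fun e : {c : G.C // ¬ up c ∧ ¬ dn c} => G.own e.1 = x).card := by
      have h5 : (Finset.univ.filter fun e : {c : G.C // ¬ up c ∧ ¬ dn c} => G.own e.1 = x).card =
          (Finset.univ.filter fun c => G.own c = x ∧ ¬ up c ∧ ¬ dn c).card := by
        refine Finset.card_bij (fun e _ => e.1) ?_ ?_ ?_
        · intro e he
          exact Finset.mem_filter.2 ⟨Finset.mem_univ _, (Finset.mem_filter.1 he).2, e.2⟩
        · intro a _ b _ h
          exact Subtype.ext h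
        · intro c hc
          have h6 := (Finset.mem_filter.1 hc).2
          exact ⟨⟨c, h6.2⟩, Finset.mem_filter.2 ⟨Finset.mem_univ _, h6.1⟩, rfl⟩
      rw [h5]
      simp only [Finset.card_filter, ← Finset.sum_add_distrib, ← hup, ← hdn]
      refine Finset.sum_congr rfl fun c _ => ?_
      have h7 := hdis c
      by_cases hu : up c
      · have hd : ¬ dn c := fun hd => h7 ⟨hu, hd⟩
        by_cases ho : G.own c = x <;> simp only [hu, hd, ho, and_true, and_false,
          false_and, not_true, if_true, if_false]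
      · by_cases hd : dn c <;> by_cases ho : G.own c = x <;>
          simp only [hu, hd, ho, and_true, and_false, not_true, not_false_iff,
            if_true, if_false]
    simp only at h3
    rw [h4] at h3
    push_cast at h3
    exact (left_eq_add.1 h3)
  have hev : ∀ x, Even (Finset.univ.filter fun e : {c : G.C // ¬ up c ∧ ¬ dn c} =>
      G.own e.1 = x).card := by
    intro x
    rw [← ZMod.natCast_eq_zero_iff_even]
    by_cases hx : x = r
    · rw [hx]
      exact bugrf_even_root τ hτ hτ' (fun e => G.own e.1) r hnon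
    · exact hnon x hx
  obtain ⟨σ, hσ, hσ', hσo⟩ := pair_fibres (fun e : {c : G.C // ¬ up c ∧ ¬ dn c} => G.own e.1) hev
  obtain ⟨col, hc1, hc2⟩ := two_colour σ τ hσ hτ hσ' hτ'
  obtain ⟨out, hout⟩ : ∃ out : G.C → Prop, ∀ c,
      out c ↔ ∃ h : ¬ up c ∧ ¬ dn c, col ⟨c, h⟩ = true := ⟨_, fun _ => Iff.rfl⟩
  have hout' : ∀ e : {c : G.C // ¬ up c ∧ ¬ dn c}, out e.1 ↔ col e = true := fun e => by
    rw [hout]
    exact ⟨fun h => h.2, fun h => ⟨e.2, h⟩⟩
  have hout1 : ∀ c, out c → ¬ up c ∧ ¬ dn c := fun c h => ((hout c).1 h).1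
  refine ⟨dn, up, out, depth, hud, hdis, hdep, ?_, hout1, ?_, ?_⟩
  · intro c c' hc hc' h
    obtain ⟨a, _, rfl⟩ := (hup c).1 hc
    obtain ⟨b, _, rfl⟩ := (hup c').1 hc'
    rw [h1, h1] at h
    rw [Subtype.ext h]
  · intro c hu hd
    have h3 := hc2 ⟨c, hu, hd⟩
    have h4 := hout' (τ ⟨c, hu, hd⟩)
    have h5 := hout' ⟨c, hu, hd⟩
    rw [h3] at h4
    refine h4.trans ?_
    rw [h5]
    cases col ⟨c, hu, hd⟩ <;> simp
  · intro x
    refine Finset.card_bij'
      (fun c hc => (τ (σ ⟨c, hout1 c (Finset.mem_filter.1 hc).2.2⟩)).1)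
      (fun c hc => (σ (τ ⟨c, hout1 c (Finset.mem_filter.1 hc).2.2⟩)).1) ?_ ?_ ?_ ?_
    · intro c hc
      obtain ⟨ho, h'⟩ := (Finset.mem_filter.1 hc).2
      have h := hout1 c h'
      have hcol := (hout' ⟨c, h⟩).1 h'
      refine Finset.mem_filter.2 ⟨Finset.mem_univ _, ?_, (hout' (τ (σ ⟨c, h⟩))).2 ?_⟩
      · show G.own (G.bar (G.bar (σ ⟨c, h⟩).1)) = x
        rw [G.bar_bar]
        exact (hσo ⟨c, h⟩).trans ho
      · rw [hc2, hc1, hcol]
        rfl
    · intro c hc
      obtain ⟨ho, h'⟩ := (Finset.mem_filter.1 hc).2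
      have h := hout1 c h'
      have hcol := (hout' ⟨c, h⟩).1 h'
      refine Finset.mem_filter.2 ⟨Finset.mem_univ _, ?_, (hout' (σ (τ ⟨c, h⟩))).2 ?_⟩
      · exact (hσo (τ ⟨c, h⟩)).trans ho
      · rw [hc1, hc2, hcol]
        rfl
    · intro c hc
      show (σ (τ (τ (σ ⟨c, _⟩)))).1 = c
      rw [hτ, hσ]
    · intro c hc
      show (τ (σ (σ (τ ⟨c, _⟩)))).1 = c
      rw [hσ, hτ]

end Pool.Agent.MC
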