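import Pool.Agent.P.MP_2677b3_gt.BuGrB
import Pool.Agent.P.MP_2677b3_gt.BuGrF

namespace Pool.Agent.MC

theorem bugraph_card {C : Type} [Fintype C] (P : C → Prop) [DecidablePred P] :
    (Finset.univ.filter P).card = {c | P c}.ncard := by
  rw [← Set.ncard_coe_finset]
  congr 1
  ext c
  simp

theorem bugraph_count (G : GS) (kind : G.C → Kind) (x : G.X) (k : Kind) :
    ((G.ord x).map kind).count k = {c | G.own c = x ∧ kind c = k}.ncard := by
  classical
  rw [List.count_eq_countP, List.countP_map, List.countP_eq_length_filter,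
    ← List.toFinset_card_of_nodup ((G.nodup x).filter _), ← Set.ncard_coe_finset]
  congr 1
  ext c
  simp [G.mem_ord]

theorem bugraph_len (ks : List Kind) : ks.length = ks.count .up + ks.count .down +
    ∑ j, ks.count (.hole j true) + ∑ j, ks.count (.hole j false) := by
  induction ks with
  | nil => simp
  | cons k ks ih =>
    simp only [List.length_cons, List.count_cons, Finset.sum_add_distrib, ih]
    rcases k with _ | _ | ⟨j, _ | _⟩ <;> simp <;> omega

theorem bugraph_sub {C : Type} {p : C → Prop} (Q : {c // p c} → Prop) (Q' : C → Prop)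
    (h : ∀ c, Q' c ↔ ∃ hp : p c, Q ⟨c, hp⟩) : {e | Q e}.ncard = {c | Q' c}.ncard := by
  rw [← Set.ncard_image_of_injective _ Subtype.val_injective]
  congr 1
  ext c
  simp [h]

theorem bugraph_bar (G : GS) (Q : G.C → Prop) : {c | Q (G.bar c)}.ncard = {c | Q c}.ncard := by
  have hi : Function.Injective G.bar := Function.Involutive.injective G.bar_bar
  rw [← Set.ncard_image_of_injective _ hi]
  congr 1
  ext c
  exact ⟨fun ⟨_, h1, h2⟩ => h2 ▸ h1, fun h => ⟨G.bar c, by simpa [G.bar_bar] using h, G.bar_bar c⟩⟩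

theorem bugraph_fib {E : Type} [Fintype E] (P : E → Prop) (col : E → ZMod 6) :
    {e | P e}.ncard = ∑ j, {e | P e ∧ col e = j}.ncard := by
  classical
  simp only [← bugraph_card, ← Finset.filter_filter]
  exact Finset.card_eq_sum_card_fiberwise fun _ _ => Finset.mem_coe.2 (Finset.mem_univ _)

theorem bugraph_flip {k : Kind} {j : ZMod 6} : k.flip = .hole j true ↔ k = .hole j false := by
  rcases k with _ | _ | ⟨i, _ | _⟩ <;> simp [Kind.flip]

/-- a single piece with loops only -/
theorem bugraph_one (c₁ c₂ : ℕ) (G : GS) (x : G.X) (hx : ∀ y, y = x) (h4 : 4 ≤ (G.ord x).length) :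
    ∃ kind : G.C → Kind, (∀ c, kind (G.bar c) = (kind c).flip) ∧ (∀ c, kind c ≠ .down) ∧
      OKs c₁ c₂ ((G.ord x).map kind) := by
  classical
  obtain ⟨σ, hσ, -⟩ := two_colour G.bar G.bar G.bar_bar G.bar_bar G.bar_ne G.bar_ne
  have pick : ∀ c, σ c = true ∨ σ (G.bar c) = true := fun c => by
    rw [hσ]; cases σ c <;> simp
  have hcard : 4 ≤ Fintype.card G.C := h4.trans (G.nodup x).length_le_card
  obtain ⟨c0, h0⟩ : ∃ c0, σ c0 = true := by
    obtain ⟨c⟩ : Nonempty G.C := Fintype.card_pos_iff.1 (by omega)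
    exact (pick c).elim (fun h => ⟨_, h⟩) fun h => ⟨_, h⟩
  have hb : ∀ c, (G.bar c = c0 ∨ G.bar c = G.bar c0) ↔ (c = c0 ∨ c = G.bar c0) := fun c => by
    have hi : Function.Injective G.bar := Function.Involutive.injective G.bar_bar
    rw [hi.eq_iff, or_comm]
    refine or_congr Iff.rfl ⟨fun h => ?_, fun h => ?_⟩
    · rw [← h, G.bar_bar]
    · rw [h, G.bar_bar]
  obtain ⟨c1, h1, h2⟩ : ∃ c1, σ c1 = true ∧ ¬ (c1 = c0 ∨ c1 = G.bar c0) := by
    obtain ⟨c, -, hc⟩ := Finset.exists_mem_notMem_of_card_lt_card (s := {c0, G.bar c0})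
      (t := Finset.univ) (Finset.card_le_two.trans_lt (by rw [Finset.card_univ]; omega))
    rw [Finset.mem_insert, Finset.mem_singleton] at hc
    exact (pick c).elim (fun h => ⟨_, h, hc⟩) fun h => ⟨_, h, mt (hb c).1 hc⟩
  let kind : G.C → Kind := fun c => .hole (if c = c0 ∨ c = G.bar c0 then 0 else 2) (σ c)
  have hf : ∀ c, kind (G.bar c) = (kind c).flip := fun c => by
    simp only [kind, Kind.flip, hσ, hb]
  have h02 : (2 : ZMod 6) ≠ 0 := by decide
  have hup : ((G.ord x).map kind).count .up = 0 := by simp [List.count_eq_zero, kind]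
  refine ⟨kind, hf, fun c => by simp [kind], by omega, fun j => ?_, Or.inr (Or.inr
    ⟨hup, by simp [List.count_eq_zero, kind], ?_, ?_, fun j j0 j2 => ?_⟩)⟩
  · rw [bugraph_count, bugraph_count, ← bugraph_bar]
    simp only [hf, bugraph_flip, hx (G.own _)]
  · rw [bugraph_count, Set.ncard_eq_one]
    refine ⟨c0, Set.ext fun c => ⟨fun ⟨_, hc⟩ => ?_, fun hc => ?_⟩⟩
    · simp only [kind, Kind.hole.injEq] at hc
      by_cases e : c = c0 ∨ c = G.bar c0
      · refine e.resolve_right fun e' => ?_
        rw [e', hσ, h0] at hc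
        simp at hc
      · rw [if_neg e] at hc
        exact absurd hc.1 h02
    · rw [Set.mem_singleton_iff.1 hc]
      exact ⟨hx _, by simp [kind, h0]⟩
  · refine List.count_pos_iff.2 (List.mem_map.2 ⟨c1, (G.mem_ord x c1).2 (hx _), ?_⟩)
    simp only [kind, if_neg h2, h1]
  · refine List.count_eq_zero.2 fun h => ?_
    obtain ⟨c, -, hc⟩ := List.mem_map.1 h
    simp only [kind, Kind.hole.injEq] at hc
    split_ifs at hc
    · exact j0 hc.1.symm
    · exact j2 hc.1.symm

theorem graph_kinds (c₁ c₂ : ℕ) : ∃ n₀ : ℕ, ∀ G : GS, G.Conn →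
    (∀ x, n₀ ≤ (G.ord x).length ∨
      (4 ≤ (G.ord x).length ∧ ∀ c, G.own c = x → G.own (G.bar c) = x)) →
    ∃ (kind : G.C → Kind) (depth : G.X → ℕ), (∀ c, kind (G.bar c) = (kind c).flip) ∧
      (∀ c, kind c = .down → depth (G.own c) < depth (G.own (G.bar c))) ∧
      ∀ x, OKs c₁ c₂ ((G.ord x).map kind) := by
  classical
  refine ⟨3 * (8 * c₂ + 100) + c₁ + 2, fun G hG h => ?_⟩
  by_cases hx : ∃ x, 4 ≤ (G.ord x).length ∧ ∀ c, G.own c = x → G.own (G.bar c) = x
  · obtain ⟨x, h4, hx⟩ := hx
    have hy : ∀ y, y = x := fun y => by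
      have := hG.2 x y
      induction this with
      | refl => rfl
      | tail _ h2 ih => obtain ⟨c, e1, e2⟩ := h2; exact e2.symm.trans (hx c (e1.trans ih))
    obtain ⟨kind, k1, k2, k3⟩ := bugraph_one c₁ c₂ G x hy h4
    exact ⟨kind, fun _ => 0, k1, fun c hc => absurd hc (k2 c), fun y => hy y ▸ k3⟩
  have hn : ∀ x, 3 * (8 * c₂ + 100) + c₁ + 2 ≤ (G.ord x).length :=
    fun x => (h x).resolve_right fun h' => hx ⟨x, h'⟩
  obtain ⟨dn, up, out, depth, f1, f2, f3, f4, f5, f6, f7⟩ := forest_even G hG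
  simp only [bugraph_card] at f7
  obtain ⟨col, hc⟩ := six_circulations (E := {c // out c}) (fun e => G.own e.1)
    (fun e => G.own (G.bar e.1)) fun x => by
      rw [bugraph_card, bugraph_card,
        bugraph_sub _ (fun c => G.own c = x ∧ out c) fun c => by simp [and_comm],
        bugraph_sub _ (fun c => G.own (G.bar c) = x ∧ out c) fun c => by simp [and_comm], f7]
  simp only [bugraph_card] at hc
  let col' : G.C → ZMod 6 := fun c => if h : out c then col ⟨c, h⟩ else 0
  let kind : G.C → Kind := fun c => if up c then .up else if dn c then .down else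
    if out c then .hole (col' c) true else .hole (col' (G.bar c)) false
  have f1' : ∀ c, dn (G.bar c) ↔ up c := fun c => by rw [← f1, G.bar_bar]
  have hf : ∀ c, kind (G.bar c) = (kind c).flip := fun c => by
    by_cases a1 : up c
    · have a2 : ¬ dn c := fun a2 => f2 c ⟨a1, a2⟩
      simp [kind, f1, f1', a1, a2, Kind.flip]
    · by_cases a2 : dn c
      · simp [kind, f1, a1, a2, Kind.flip]
      · by_cases a3 : out c <;> simp [kind, f1, f1', f6 c a1 a2, a1, a2, a3, Kind.flip, G.bar_bar]
  have ku : ∀ c, kind c = .up → up c := fun c => by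
    simp only [kind]; split_ifs <;> simp [*]
  have kd : ∀ c, kind c = .down → dn c := fun c => by
    simp only [kind]; split_ifs <;> simp [*]
  have kt : ∀ c j, kind c = .hole j true ↔ ∃ h : out c, col ⟨c, h⟩ = j := fun c j => by
    by_cases a3 : out c
    · simp [kind, col', a3, (f5 c a3).1, (f5 c a3).2]
    · simp only [kind, a3]; split_ifs <;> simp_all
  refine ⟨kind, depth, hf, fun c hc => f3 c (kd c hc), fun x => ?_⟩
  have eT : ∀ j, ((G.ord x).map kind).count (.hole j true) =
      {e : {c // out c} | G.own e.1 = x ∧ col e = j}.ncard := fun j => by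
    rw [bugraph_count]
    exact (bugraph_sub _ _ fun c => by simp [kt]).symm
  have eF : ∀ j, ((G.ord x).map kind).count (.hole j true) =
      ((G.ord x).map kind).count (.hole j false) := fun j => by
    rw [eT, (hc x j).1, bugraph_count, ← bugraph_bar]
    refine bugraph_sub _ _ fun c => ?_
    rw [← bugraph_flip, ← hf, G.bar_bar]
    simp [kt]
  have eU : ((G.ord x).map kind).count .up ≤ 1 := by
    rw [bugraph_count, Set.ncard_le_one]
    exact fun a ha b hb => f4 a b (ku a ha.2) (ku b hb.2) (ha.1.trans hb.1.symm)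
  refine ⟨eU, eF, ?_⟩
  have e1 := bugraph_len ((G.ord x).map kind)
  rw [List.length_map] at e1
  simp only [← eF] at e1
  have e2 := hn x
  by_cases e3 : (∑ j, ((G.ord x).map kind).count (.hole j true)) + c₁ ≤
      ((G.ord x).map kind).count .down
  · exact Or.inl e3
  · refine Or.inr (Or.inl fun j => ?_)
    have e4 := (hc x j).2
    rw [bugraph_fib _ col] at e4
    simp only [← eT] at e4
    omega

end Pool.Agent.MC
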