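import Pool.Agent.P.MP_2677b3_gt.BuPieceA

namespace Pool.Agent.MC

/-- The roles of `n` pairs of holes. -/
def bupieceR (n : ℕ) (j : ZMod 6) : List Kind :=
  (List.replicate n [Kind.hole j true, Kind.hole j false]).flatten

theorem bupiece_fit (w : List Entry) (n : ℕ) (j : ZMod 6) :
    List.Forall₂ (Fit w) (bupieceR n j) (List.replicate n (pair j)).flatten := by
  induction n with
  | zero => exact .nil
  | succ n ih => exact .cons rfl (.cons rfl ih)

theorem bupiece_count (n : ℕ) (j : ZMod 6) : (bupieceR n j).count .up = 0 ∧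
    (bupieceR n j).count .down = 0 ∧
    ∀ i σ, (bupieceR n j).count (.hole i σ) = if j = i then n else 0 := by
  induction n with
  | zero => simp [bupieceR]
  | succ n ih =>
    have e : bupieceR (n + 1) j = .hole j true :: .hole j false :: bupieceR n j := rfl
    refine ⟨by simp [e, ih.1], by simp [e, ih.2.1], fun i σ => ?_⟩
    rw [e, List.count_cons, List.count_cons, ih.2.2]
    by_cases h : j = i <;> cases σ <;> simp [h]

theorem bupiece_perm {ks : List Kind}
    (h : ∀ j, ks.count (.hole j true) = ks.count (.hole j false)) :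
    ks.Perm (List.replicate (ks.count .up) .up ++ List.replicate (ks.count .down) .down ++
      ([0, 1, 2, 3, 4, 5] : List (ZMod 6)).flatMap fun j => bupieceR (ks.count (.hole j true)) j) := by
  refine List.perm_iff_count.2 fun k => ?_
  simp only [List.flatMap_cons, List.flatMap_nil, List.count_append, List.count_nil,
    List.count_replicate]
  cases k with
  | up => simp [(bupiece_count _ _).1]
  | down => simp [(bupiece_count _ _).2.1]
  | hole i σ =>
    have h1 : ks.count (.hole i σ) = ks.count (.hole i true) := by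
      cases σ
      · exact (h i).symm
      · rfl
    have h2 : ∀ i : ZMod 6, i = 0 ∨ i = 1 ∨ i = 2 ∨ i = 3 ∨ i = 4 ∨ i = 5 := by decide
    simp only [(bupiece_count _ _).2.2, h1]
    rcases h2 i with rfl | rfl | rfl | rfl | rfl | rfl <;> simp +decide

theorem bupiece_main {ks : List Kind} {w : List Entry} (h0 : ks.count .up ≤ 1)
    (h : ∀ j, ks.count (.hole j true) = ks.count (.hole j false))
    (h1 : ks.count .up = 1 → ∃ kids, kids.length = ks.count .down ∧ (∀ x ∈ kids, Good x) ∧
      Real (topOf w :: kids ++ pairs fun j => ks.count (.hole j true)))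
    (h2 : ∃ kids, kids.length = ks.count .down ∧ (∀ x ∈ kids, Good x) ∧
      Real (kids ++ pairs fun j => ks.count (.hole j true))) :
    ∃ fs, Real fs ∧ List.Forall₂ (Fit w) ks fs := by
  have h3 : ∀ kids : List (List Entry), (∀ x ∈ kids, Good x) →
      List.Forall₂ (Fit w) (List.replicate kids.length .down) kids := fun kids hk => by
    induction kids with
    | nil => exact .nil
    | cons x t ih => exact .cons (hk x (by simp)) (ih fun y hy => hk y (by simp [hy]))
  have h4 : List.Forall₂ (Fit w) (([0, 1, 2, 3, 4, 5] : List (ZMod 6)).flatMap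
      fun j => bupieceR (ks.count (.hole j true)) j) (pairs fun j => ks.count (.hole j true)) :=
    List.rel_flatMap (R := Eq) (List.forall₂_refl _) fun j _ e => e ▸ bupiece_fit w _ j
  have h5 : ∃ fs, Real fs ∧ List.Forall₂ (Fit w) (List.replicate (ks.count .up) .up ++
      List.replicate (ks.count .down) .down ++ ([0, 1, 2, 3, 4, 5] : List (ZMod 6)).flatMap
      fun j => bupieceR (ks.count (.hole j true)) j) fs := by
    rcases Nat.le_one_iff_eq_zero_or_eq_one.1 h0 with e | e
    · obtain ⟨kids, a, b, c⟩ := h2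
      rw [e, ← a]
      exact ⟨_, c, List.rel_append (h3 kids b) h4⟩
    · obtain ⟨kids, a, b, c⟩ := h1 e
      rw [e, ← a]
      exact ⟨_, c, .cons rfl (List.rel_append (h3 kids b) h4)⟩
  obtain ⟨fs, a, b⟩ := h5
  obtain ⟨fs', c, d⟩ := List.perm_comp_forall₂ (bupiece_perm h) b
  exact ⟨fs', a.perm d.symm, c⟩

theorem piece : ∃ c₁ c₂ : ℕ, ∀ ks, OKs c₁ c₂ ks → ∀ w, Good w →
    ∃ fs, Real fs ∧ List.Forall₂ (Fit w) ks fs := by
  obtain ⟨c, hc⟩ := piece_two
  refine ⟨1000011, c, fun ks ⟨h0, h1, h2⟩ w hw => ?_⟩
  rcases h2 with h | h | ⟨a, b, c, d, e⟩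
  · exact bupiece_main h0 h1 (fun _ => (piece_one hw _ _ h).1) (piece_one hw _ _ h).2
  · exact bupiece_main h0 h1 (fun _ => (hc w hw _ _ h).1) (hc w hw _ _ h).2
  · exact bupiece_main h0 h1 (fun h => absurd (a.symm.trans h) (by decide))
      ⟨[], b.symm, by simp, closed_piece c d e⟩

end Pool.Agent.MC
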