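import Pool.Agent.P.MP_2677b3_gt.BuFlat

namespace Pool.Agent.MC

theorem butop_fix {X C T : Type} (depth : X → ℕ) (own par : C → X) (U : C → Prop)
    (hu : ∀ c c', U c → U c' → own c = own c' → c = c')
    (hd : ∀ c, U c → depth (par c) < depth (own c)) (g : ∀ c, U c → T → T) (t0 : T) :
    ∃ w : X → T, ∀ c (h : U c), w (own c) = g c h (w (par c)) := by
  classical
  let F : (x : X) → ((y : X) → InvImage (· < ·) depth y x → T) → T := fun x ih =>
    if h : ∃ c, U c ∧ own c = x then
      g h.choose h.choose_spec.1 (ih (par h.choose) (by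
        have h1 := hd _ h.choose_spec.1
        rw [h.choose_spec.2] at h1
        exact h1))
    else t0
  have wf : WellFounded (InvImage (· < ·) depth) := InvImage.wf depth Nat.lt_wfRel.wf
  refine ⟨wf.fix F, fun c h => ?_⟩
  rw [wf.fix_eq]
  have hx : ∃ c', U c' ∧ own c' = own c := ⟨c, h, rfl⟩
  have e : hx.choose = c := hu _ _ hx.choose_spec.1 h hx.choose_spec.2
  simp only [F, dif_pos hx]
  have key : ∀ c' (h' : U c'), c' = c →
      g c' h' (wf.fix F (par c')) = g c h (wf.fix F (par c)) := by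
    intro c' h' e'
    subst e'
    rfl
  exact key _ _ e

theorem butop_list {α β : Type} (R : α → β → Prop) (b0 : β) :
    ∀ (l : List α) (fs : List β), l.Nodup → List.Forall₂ R l fs →
      ∃ V : α → β, l.map V = fs ∧ ∀ c ∈ l, R c (V c) := by
  classical
  intro l fs hn h
  induction h with
  | nil => exact ⟨fun _ => b0, rfl, by simp⟩
  | @cons a b l fs hab _ ih =>
    obtain ⟨V, hV, hR⟩ := ih (List.nodup_cons.1 hn).2
    have ha : a ∉ l := (List.nodup_cons.1 hn).1
    have hc : ∀ c ∈ l, Function.update V a b c = V c := fun c hc =>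
      Function.update_of_ne (fun e : c = a => ha (e ▸ hc)) _ _
    refine ⟨Function.update V a b, ?_, ?_⟩
    · rw [List.map_cons, Function.update_self, ← hV]
      congr 1
      exact List.map_congr_left hc
    · intro c hcm
      rcases List.mem_cons.1 hcm with rfl | hcl
      · rw [Function.update_self]; exact hab
      · rw [hc c hcl]; exact hR c hcl

theorem butop_uniq {α β : Type} [DecidableEq β] (f : α → β) (b : β) :
    ∀ (l : List α), l.Nodup → (l.map f).count b ≤ 1 → ∀ c ∈ l, ∀ c' ∈ l, f c = b → f c' = b →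
      c = c' := by
  intro l
  induction l with
  | nil => intro _ _ c hc; simp at hc
  | cons a l ih =>
    intro hn hcount c hc c' hc' e e'
    rw [List.map_cons, List.count_cons] at hcount
    have hpos : ∀ d ∈ l, f d = b → 0 < (l.map f).count b := fun d hd ed =>
      List.count_pos_iff.2 (List.mem_map.2 ⟨d, hd, ed⟩)
    rcases List.mem_cons.1 hc with rfl | hcl
    · rcases List.mem_cons.1 hc' with rfl | hcl'
      · rfl
      · have := hpos _ hcl' e'
        simp [e] at hcount
        omega
    · rcases List.mem_cons.1 hc' with rfl | hcl'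
      · have := hpos _ hcl e
        simp [e'] at hcount
        omega
      · exact ih (List.nodup_cons.1 hn).2 (by omega) c hcl c' hcl' e e'

theorem butop_tm {e : Entry} (h : KT 5 e) :
    tmB (Tag.top e.2.rk) e.2 = true ∧ tmB e.2 (Tag.top e.2.rk) = true := by
  obtain ⟨d, t⟩ := e
  obtain ⟨_, h | h⟩ := h
  · cases t <;> simp_all [tmB, Tag.rk]
  · cases t <;> simp_all [tmB, Tag.rk]

theorem butop_match_up {w : List Entry} (h : Good w) : Match (topOf w) w := by
  unfold Match topOf
  rw [List.forall₂_reverse_iff, List.forall₂_map_left_iff, List.forall₂_same]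
  intro e he
  exact ⟨(rv_rv _).symm, (butop_tm (h.tg e he)).1⟩

theorem butop_match_down {w : List Entry} (h : Good w) : Match w (topOf w) := by
  unfold Match topOf
  rw [List.reverse_reverse, List.forall₂_map_right_iff, List.forall₂_same]
  intro e he
  exact ⟨rfl, (butop_tm (h.tg e he)).2⟩

theorem butop_match_hole (j : ZMod 6) (σ : Bool) : Match (hole j σ) (hole j (!σ)) := by
  have h1 : ∀ (j : ZMod 6) (σ : Bool), fk 2 (holeD j (!σ)) = rv (holeD j σ) ∧
      holeD j (!σ) = rv (fk 2 (holeD j σ)) := by decide +kernel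
  unfold Match hole
  refine List.Forall₂.cons ⟨(h1 j σ).1, rfl⟩ (List.Forall₂.cons ⟨(h1 j σ).2, rfl⟩ List.Forall₂.nil)

theorem butop_fw {w : List Entry} (h : Good w) : CChain Fw (darts w) :=
  h.toPreGood.jog.imp fun a _ b _ hab => J_fw a b hab

theorem butop_fw_top {w : List Entry} (h : Good w) : CChain Fw (darts (topOf w)) := by
  have e : darts (topOf w) = ((darts w).map rv).reverse := by
    simp [darts, topOf, List.map_reverse, Function.comp_def]
  rw [e, cchain_reverse, cchain_map]
  exact (butop_fw h).imp fun a _ b _ hab => Fw_mirror a b hab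

theorem butop_fw_hole (j : ZMod 6) (σ : Bool) : CChain Fw (darts (hole j σ)) := by
  have h1 : ∀ d : Dart, Fw d (fk 2 d) ∧ Fw (fk 2 d) d := by decide +kernel
  have h2 := h1 (holeD j σ)
  simp [darts, hole, CChain, h2.1, h2.2]

theorem butop_rk {w : List Entry} (h : Good w) : ∀ e ∈ w, e.2.rk ≤ 1000000 := fun e he =>
  le_trans (h.tg e he).1 (by norm_num)

theorem butop_rk_top {w : List Entry} (h : Good w) : ∀ e ∈ topOf w, e.2.rk ≤ 1000000 := by
  intro e he
  unfold topOf at he
  rw [List.mem_reverse, List.mem_map] at he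
  obtain ⟨e', he', rfl⟩ := he
  exact butop_rk h e' he'

theorem top_down {c₁ c₂ : ℕ}
    (hp : ∀ ks, OKs c₁ c₂ ks → ∀ w, Good w → ∃ fs, Real fs ∧ List.Forall₂ (Fit w) ks fs)
    (G : GS) (kind : G.C → Kind) (depth : G.X → ℕ) (h1 : ∀ c, kind (G.bar c) = (kind c).flip)
    (h2 : ∀ c, kind c = .down → depth (G.own c) < depth (G.own (G.bar c)))
    (h3 : ∀ x, OKs c₁ c₂ ((G.ord x).map kind)) : ∃ W, Glue G W 1000000 := by
  classical
  have hV : ∀ (x : G.X) (w : {w // Good w}), ∃ V : G.C → List Entry,
      Real ((G.ord x).map V) ∧ ∀ c, G.own c = x → Fit w.1 (kind c) (V c) := by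
    intro x w
    obtain ⟨fs, hr, hf⟩ := hp _ (h3 x) w.1 w.2
    rw [List.forall₂_map_left_iff] at hf
    obtain ⟨V, hV, hR⟩ := butop_list _ [] _ _ (G.nodup x) hf
    exact ⟨V, hV ▸ hr, fun c hc => hR c ((G.mem_ord x c).2 hc)⟩
  choose V hVr hVf using hV
  obtain ⟨w0, hw0⟩ := exists_good
  have hbar : ∀ c, kind c = .up → kind (G.bar c) = .down := fun c hc => by rw [h1, hc]; rfl
  have hgood : ∀ c, kind c = .down → ∀ t, Good (V (G.own c) t c) := fun c hc t => by
    have := hVf (G.own c) t c rfl
    rw [hc] at this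
    exact this
  obtain ⟨w, hw⟩ := butop_fix (T := {w // Good w}) depth G.own (fun c => G.own (G.bar c))
    (fun c => kind c = .up)
    (fun c c' hc hc' e => butop_uniq kind .up (G.ord (G.own c)) (G.nodup _) (h3 _).1 c
      ((G.mem_ord _ _).2 rfl) c' ((G.mem_ord _ _).2 e.symm) hc hc')
    (fun c hc => by
      have := h2 (G.bar c) (hbar c hc)
      rw [G.bar_bar] at this
      exact this)
    (fun c hc t => ⟨V (G.own (G.bar c)) t (G.bar c), hgood _ (hbar c hc) t⟩) ⟨w0, hw0⟩
  let W : G.C → List Entry := fun c => V (G.own c) (w (G.own c)) c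
  have hfit : ∀ c, Fit (w (G.own c)).1 (kind c) (W c) := fun c => hVf _ _ c rfl
  have hup : ∀ c, kind c = .up → W c = topOf (W (G.bar c)) := fun c hc => by
    have h4 := hfit c
    rw [hc] at h4
    have h5 : (w (G.own c)).1 = W (G.bar c) := congrArg Subtype.val (hw c hc)
    rw [← h5]
    exact h4
  have hdn : ∀ c, kind c = .down → Good (W c) := fun c hc => hgood c hc _
  have hho : ∀ c j σ, kind c = .hole j σ → W c = hole j σ := fun c j σ hc => by
    have h4 := hfit c
    rw [hc] at h4
    exact h4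
  have cases3 : ∀ c, (Good (W (G.bar c)) ∧ W c = topOf (W (G.bar c))) ∨
      (Good (W c) ∧ W (G.bar c) = topOf (W c)) ∨
      ∃ j σ, W c = hole j σ ∧ W (G.bar c) = hole j (!σ) := by
    intro c
    rcases hk : kind c with _ | _ | ⟨j, σ⟩
    · exact Or.inl ⟨hdn _ (hbar c hk), hup c hk⟩
    · refine Or.inr (Or.inl ⟨hdn c hk, ?_⟩)
      have h4 := hup (G.bar c) (by rw [h1, hk]; rfl)
      rw [G.bar_bar] at h4
      exact h4
    · exact Or.inr (Or.inr ⟨j, σ, hho c j σ hk, hho _ _ _ (by rw [h1, hk]; rfl)⟩)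
  refine ⟨W, ?_, ?_, ?_, ?_, ?_⟩
  · intro x
    have e : (G.ord x).map W = (G.ord x).map (V x (w x)) := by
      refine List.map_congr_left fun c hc => ?_
      have hc' := (G.mem_ord x c).1 hc
      subst hc'
      rfl
    rw [e]
    exact hVr x (w x)
  · intro c
    rcases cases3 c with ⟨hg, e⟩ | ⟨hg, e⟩ | ⟨j, σ, e, e'⟩
    · rw [e]; exact butop_match_up hg
    · rw [e]; exact butop_match_down hg
    · rw [e, e']; exact butop_match_hole j σ
  · intro c
    rcases cases3 c with ⟨hg, e⟩ | ⟨hg, _⟩ | ⟨j, σ, e, _⟩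
    · rw [e]; exact butop_fw_top hg
    · exact butop_fw hg
    · rw [e]; exact butop_fw_hole j σ
  · intro c
    rcases cases3 c with ⟨hg, e⟩ | ⟨hg, _⟩ | ⟨j, σ, e, _⟩
    · rw [e]
      have := hg.len
      simpa [topOf] using this
    · exact hg.len
    · rw [e]; simp [hole]
  · intro c
    rcases cases3 c with ⟨hg, e⟩ | ⟨hg, _⟩ | ⟨j, σ, e, _⟩
    · rw [e]; exact butop_rk_top hg
    · exact butop_rk hg
    · rw [e]
      intro a ha
      simp only [hole, List.mem_cons, List.not_mem_nil, or_false] at ha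
      rcases ha with rfl | rfl <;> simp [Tag.rk]

end Pool.Agent.MC
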