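import Pool.Agent.P.MP_2677b3_gt.BuDefs

namespace Pool.Agent.MC

/-- The graph of surfaces in which every handle is replaced by a pair of cuff ends. -/
def buunfG (G : GS) : GS where
  X := G.X
  C := G.C ⊕ Σ x : G.X, Fin (G.h x) × Bool
  finX := inferInstance
  finC := inferInstance
  bar := Sum.map G.bar fun a => ⟨a.1, a.2.1, !a.2.2⟩
  bar_bar := by rintro (c | ⟨x, i, s⟩) <;> simp [G.bar_bar]
  bar_ne := by rintro (c | ⟨x, i, s⟩) <;> simp [G.bar_ne]
  own := Sum.elim G.own fun a => a.1
  h := fun _ => 0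
  ord := fun x => ((List.finRange (G.h x)).flatMap fun i =>
    [.inr ⟨x, i, true⟩, .inr ⟨x, i, false⟩]) ++ (G.ord x).map .inl
  nodup := fun x => by
    refine List.nodup_append.2 ⟨?_, (G.nodup x).map Sum.inl_injective, ?_⟩
    · refine List.nodup_flatMap.2 ⟨fun i _ => by simp, ?_⟩
      refine (List.nodup_finRange _).imp fun {i j} hij => ?_
      simp [Function.onFun, hij.symm]
    · simp only [List.mem_flatMap, List.mem_map]
      rintro a ⟨i, -, hi⟩ _ ⟨c, -, rfl⟩ rfl
      simp at hi
  mem_ord := fun x => by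
    rintro (c | ⟨y, i, s⟩)
    · simp [G.mem_ord]
    · constructor
      · intro h
        simp only [List.mem_append, List.mem_flatMap, List.mem_map, List.mem_cons,
          List.not_mem_nil, or_false, Sum.inr.injEq, reduceCtorEq, and_false, exists_false] at h
        obtain ⟨j, -, h | h⟩ := h <;> exact congrArg Sigma.fst h
      · rintro (rfl : y = x)
        refine List.mem_append_left _ (List.mem_flatMap.2 ⟨i, List.mem_finRange i, ?_⟩)
        cases s <;> simp

variable (G : GS)

/-- the arc to a new cuff end -/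
def buunfE (x : G.X) (i : Fin (G.h x)) (u s : Bool) : (buunfG G).gd.E :=
  .inr (.inl (.inr ⟨x, i, u⟩, s))

/-- the loop around a new cuff -/
def buunfT (x : G.X) (i : Fin (G.h x)) (s : Bool) : (buunfG G).gd.E := .inr (.inr (.inr ⟨x, i, s⟩))

theorem buunf_valE (x : G.X) (i : Fin (G.h x)) (u : Bool) :
    (buunfG G).gd.val (buunfE G x i u false) = ((buunfG G).gd.val (buunfE G x i u true))⁻¹ :=
  (buunfG G).gd.val_inv (buunfE G x i u true)

theorem buunf_valT (x : G.X) (i : Fin (G.h x)) :
    (buunfG G).gd.val (buunfT G x i false) = ((buunfG G).gd.val (buunfT G x i true))⁻¹ :=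
  (buunfG G).gd.val_inv (buunfT G x i true)

theorem buunf_q (x : G.X) (i : Fin (G.h x)) :
    (Sum.inr (Quotient.mk (buunfG G).st (.inr ⟨x, i, false⟩)) : (buunfG G).gd.V) =
      Sum.inr (Quotient.mk (buunfG G).st (.inr ⟨x, i, true⟩)) :=
  congrArg Sum.inr (Quotient.sound (Or.inr rfl))

def buunfFv : G.X ⊕ Quotient G.st → (buunfG G).gd.V
  | .inl x => .inl x
  | .inr q => .inr (Quotient.map (sa := G.st) (sb := (buunfG G).st) Sum.inl
      (fun _ _ h => h.imp (congrArg Sum.inl) (congrArg Sum.inl)) q)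

def buunfFe : G.Ed → List (buunfG G).gd.E
  | .inl ⟨x, i, true, s⟩ => [buunfE G x i true true, buunfT G x i s, buunfE G x i true false]
  | .inl ⟨x, i, false, true⟩ => [buunfE G x i false true, buunfE G x i true false]
  | .inl ⟨x, i, false, false⟩ => [buunfE G x i true true, buunfE G x i false false]
  | .inr (.inl (c, s)) => [.inr (.inl (.inl c, s))]
  | .inr (.inr c) => [.inr (.inr (.inl c))]

def buunfGv : (buunfG G).X ⊕ Quotient (buunfG G).st → G.gd.V
  | .inl x => .inl x
  | .inr q => Quotient.lift (s := (buunfG G).st)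
      (Sum.elim (fun c => .inr (Quotient.mk G.st c)) fun a => .inl a.1) (by
        rintro (c | a) _ (rfl | rfl)
        · rfl
        · exact congrArg Sum.inr (Quotient.sound (Or.inr rfl))
        · rfl
        · rfl) q

def buunfGe : (buunfG G).Ed → List G.gd.E
  | .inl a => a.2.1.elim0
  | .inr (.inl (.inl c, s)) => [.inr (.inl (c, s))]
  | .inr (.inl (.inr ⟨_, _, true⟩, _)) => []
  | .inr (.inl (.inr ⟨x, i, false⟩, s)) => [.inl ⟨x, i, false, s⟩]
  | .inr (.inr (.inl c)) => [.inr (.inr c)]
  | .inr (.inr (.inr ⟨x, i, s⟩)) => [.inl ⟨x, i, true, s⟩]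

def buunfEta : (buunfG G).X ⊕ Quotient (buunfG G).st → List (buunfG G).gd.E
  | .inl _ => []
  | .inr q => Quotient.lift (s := (buunfG G).st)
      (Sum.elim (fun _ => []) fun a => [buunfE G a.1 a.2.1 true false]) (by
        rintro (c | a) _ (rfl | rfl) <;> rfl) q

theorem buunf_rel (x : G.X) : (buunfG G).rel x =
    ((List.finRange (G.h x)).flatMap fun i => [buunfE G x i true true, buunfT G x i true,
      buunfE G x i true false, buunfE G x i false true, buunfT G x i false,
      buunfE G x i false false]) ++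
    (G.ord x).flatMap fun c => [.inr (.inl (.inl c, true)), .inr (.inr (.inl c)),
      .inr (.inl (.inl c, false))] := by
  show List.flatMap _ (_ ++ _) = _
  refine (List.flatMap_append ..).trans ?_
  exact congrArg₂ (· ++ ·) (List.flatMap_assoc ..) (List.flatMap_map ..)

def buunfF : Mor 3 G.gd (buunfG G).gd :=
  Mor.ofPres (buunfFv G) (buunfFe G)
    (by
      rintro (⟨x, i, _ | _, _ | _⟩ | ⟨c, _ | _⟩ | c)
      · exact ⟨rfl, buunf_q G x i, rfl⟩
      · exact ⟨rfl, (buunf_q G x i).symm, rfl⟩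
      · exact ⟨rfl, buunf_q G x i, rfl, rfl⟩
      · exact ⟨rfl, rfl, (buunf_q G x i).symm, rfl⟩
      all_goals exact ⟨rfl, rfl⟩)
    (by rintro (⟨x, i, _ | _, _ | _⟩ | ⟨c, s⟩ | c) <;> simp [buunfFe])
    (by
      rintro (⟨x, i, _ | _, _ | _⟩ | ⟨c, s⟩ | c)
      iterate 4 simp [buunfFe, GS.inv, buunf_valE, buunf_valT, mul_assoc]
      · exact (buunfG G).gd.ev_rev [.inr (.inl (.inl c, s))]
      · exact (buunfG G).gd.ev_rev [.inr (.inr (.inl c))])
    (by
      rintro _ ⟨x, rfl⟩
      have h : (buunfG G).gd.ev ((buunfG G).rel x) = 1 := pres_rel ⟨x, rfl⟩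
      rw [← h, buunf_rel, GS.rel, List.flatMap_append, List.flatMap_assoc, List.flatMap_assoc]
      refine ((buunfG G).gd.ev_append _ _).trans (Eq.trans ?_ ((buunfG G).gd.ev_append _ _).symm)
      refine congrArg₂ _ ?_ rfl
      refine ((buunfG G).gd.ev_flatMap _ _).trans (Eq.trans ?_ ((buunfG G).gd.ev_flatMap _ _).symm)
      refine congrArg List.prod (List.map_congr_left fun i _ => ?_)
      simp [buunfFe, buunf_valE, buunf_valT])

def buunfB : Mor 3 (buunfG G).gd G.gd :=
  Mor.ofPres (buunfGv G) (buunfGe G)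
    (by
      rintro (a | ⟨c | ⟨x, i, _ | _⟩, _ | _⟩ | c | ⟨x, i, s⟩)
      · exact a.2.1.elim0
      all_goals first | exact ⟨rfl, rfl⟩ | exact rfl)
    (by
      rintro (a | ⟨c | ⟨x, i, _ | _⟩, s⟩ | c | ⟨x, i, s⟩)
      · exact a.2.1.elim0
      all_goals simp [buunfGe])
    (by
      rintro (a | ⟨c | ⟨x, i, _ | _⟩, s⟩ | c | ⟨x, i, s⟩)
      · exact a.2.1.elim0
      · exact G.gd.ev_rev [.inr (.inl (c, s))]
      · exact G.gd.ev_rev [.inl ⟨x, i, false, s⟩]
      · exact G.gd.ev_rev []
      · exact G.gd.ev_rev [.inr (.inr c)]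
      · exact G.gd.ev_rev [.inl ⟨x, i, true, s⟩])
    (by
      rintro _ ⟨x, rfl⟩
      have h : G.gd.ev (G.rel x) = 1 := pres_rel ⟨x, rfl⟩
      rw [← h, buunf_rel]
      refine congrArg G.gd.ev ?_
      refine (List.flatMap_append ..).trans ?_
      exact congrArg₂ (· ++ ·) (List.flatMap_assoc ..) (List.flatMap_assoc ..))

theorem buunf_back1 : (buunfF G).Back (buunfB G) := by
  refine ⟨fun _ => [], fun x => ⟨?_, Nat.zero_le _⟩, fun a => ?_⟩
  · rcases x with x | q
    · exact rfl
    · induction q using Quotient.inductionOn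
      exact rfl
  · have h : ((buunfF G).e a).flatMap (buunfB G).e = [a] := by
      rcases a with ⟨x, i, _ | _, _ | _⟩ | ⟨c, s⟩ | c <;> rfl
    rw [h]
    simp

theorem buunf_back2 : (buunfB G).Back (buunfF G) := by
  refine ⟨buunfEta G, fun x => ?_, fun a => ?_⟩
  · rcases x with x | q
    · exact ⟨rfl, Nat.zero_le _⟩
    · induction q using Quotient.inductionOn with
      | h c =>
        rcases c with c | ⟨x, i, _ | _⟩
        · exact ⟨rfl, Nat.zero_le _⟩
        · exact ⟨⟨(buunf_q G x i).symm, rfl⟩, by show 1 ≤ 3; omega⟩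
        · exact ⟨⟨rfl, rfl⟩, by show 1 ≤ 3; omega⟩
  · rcases a with a | ⟨c | ⟨x, i, _ | _⟩, _ | _⟩ | c | ⟨x, i, s⟩
    · exact a.2.1.elim0
    · show (buunfG G).gd.ev [] * (buunfG G).gd.ev [_] = _ * (buunfG G).gd.ev []
      simp
    · show (buunfG G).gd.ev [] * (buunfG G).gd.ev [_] = _ * (buunfG G).gd.ev []
      simp
    · show (buunfG G).gd.ev [buunfE G x i true false] *
        (buunfG G).gd.ev [buunfE G x i true true, buunfE G x i false false] =
          (buunfG G).gd.val (buunfE G x i false false) * (buunfG G).gd.ev []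
      simp [buunf_valE]
    · show (buunfG G).gd.ev [] *
        (buunfG G).gd.ev [buunfE G x i false true, buunfE G x i true false] =
          (buunfG G).gd.val (buunfE G x i false true) * (buunfG G).gd.ev [buunfE G x i true false]
      simp
    · show (buunfG G).gd.ev [buunfE G x i true false] * (buunfG G).gd.ev [] =
          (buunfG G).gd.val (buunfE G x i true false) * (buunfG G).gd.ev []
      simp
    · show (buunfG G).gd.ev [] * (buunfG G).gd.ev [] =
          (buunfG G).gd.val (buunfE G x i true true) * (buunfG G).gd.ev [buunfE G x i true false]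
      simp [buunf_valE]
    · show (buunfG G).gd.ev [] * (buunfG G).gd.ev [_] = _ * (buunfG G).gd.ev []
      simp
    · show (buunfG G).gd.ev [buunfE G x i true false] *
        (buunfG G).gd.ev [buunfE G x i true true, buunfT G x i s, buunfE G x i true false] =
          (buunfG G).gd.val (buunfT G x i s) * (buunfG G).gd.ev [buunfE G x i true false]
      simp [buunf_valE]

theorem buunf_len (x : G.X) : List.length (α := G.C ⊕ Σ x : G.X, Fin (G.h x) × Bool)
    (((List.finRange (G.h x)).flatMap fun i => [.inr ⟨x, i, true⟩, .inr ⟨x, i, false⟩]) ++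
      (G.ord x).map .inl) = 2 * G.h x + (G.ord x).length := by
  simp [List.length_flatMap, mul_comm]

/-- Handles are cut open along a cuff. -/
theorem unfold_handles (G : GS) (hG : G.Conn) : ∃ G' : GS, (∀ x, G'.h x = 0) ∧ G'.Conn ∧
    Eqv 3 G.gd G'.gd ∧ ∀ x', ∃ x, (G'.ord x').length = 2 * G.h x + (G.ord x).length ∧
      (G.ord x = [] → ∀ c, G'.own c = x' → G'.own (G'.bar c) = x') := by
  refine ⟨buunfG G, fun _ => rfl, ⟨hG.1, fun x y => Relation.ReflTransGen.mono ?_ x y (hG.2 x y)⟩,
    ⟨buunfF G, buunfB G, buunf_back1 G, buunf_back2 G⟩, fun x => ⟨x, ?_, ?_⟩⟩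
  · rintro a b ⟨c, h1, h2⟩
    exact ⟨.inl c, h1, h2⟩
  · exact buunf_len G x
  · rintro h (c | a) hc
    · have := (G.mem_ord x c).2 hc
      rw [h] at this
      exact absurd this List.not_mem_nil
    · exact hc

end Pool.Agent.MC
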