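import Pool.Agent.P.MP_2677b3_gt.NF
import Pool.Agent.P.MP_2677b3_gt.BuAsm
import Pool.Agent.P.MP_2677b3_gt.BuUnf
import Pool.Agent.P.MP_2677b3_gt.BuTop
import Pool.Agent.P.MP_2677b3_gt.BuGraph
import Pool.Agent.P.MP_2677b3_gt.BuPiece

namespace Pool.Agent.MC

/-- Every connected graph of bounded complicated surfaces is realised by a hexagon tiling. -/
theorem build_interface : ∃ n₀ : ℕ, ∀ n : ℕ, ∃ K : ℕ, ∀ G : GS, G.Conn → G.Big n₀ →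
    (∀ x, G.h x ≤ n ∧ (G.ord x).length ≤ n) → ∃ T : WSet, Eqv K G.gd T.gd := by
  obtain ⟨c₁, c₂, hp⟩ := piece
  obtain ⟨n₀, hg⟩ := graph_kinds c₁ c₂
  refine ⟨n₀, fun n => ?_⟩
  obtain ⟨K, hK⟩ := asm (3 * n) 1000000
  refine ⟨(3 + K) * (3 + K) + (3 + K), fun G hc hb hn => ?_⟩
  obtain ⟨G', h0, hc', he, hl⟩ := unfold_handles G hc
  obtain ⟨kind, depth, h1, h2, h3⟩ := hg G' hc' (fun x' => by
    obtain ⟨x, e, hx⟩ := hl x'
    rcases hb x with ⟨h4, h5⟩ | h4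
    · exact Or.inr ⟨by omega, hx h4⟩
    · exact Or.inl (by omega))
  obtain ⟨W, hW⟩ := top_down hp G' kind depth h1 h2 h3
  obtain ⟨T, hT⟩ := hK G' W h0 (fun x' => by
    obtain ⟨x, e, -⟩ := hl x'
    have := hn x
    omega) hW
  exact ⟨T, he.trans hT⟩

end Pool.Agent.MC
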