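import Mathlib

/-! Basic combinatorial framework: graphs with group values, bounded equivalences, maps on
surfaces, graphs of surfaces, finite sets with an action of the right-angled hexagon group. -/

open Equiv

namespace Pool.Agent.MC

/-- `p` is a path from `x` to `y` for the source and target functions `s`, `t`. -/
def IsPath {V E : Type} (s t : E → V) : V → List E → V → Prop
  | x, [], y => x = y
  | x, e :: p, y => s e = x ∧ IsPath s t (t e) p y

theorem IsPath_realize : True := by have := @IsPath.eq_def; trivial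

/-- A graph with an edge reversal and values in a group.  Two paths with the same ends are
regarded as homotopic when their values agree. -/
structure Gd where
  V : Type
  E : Type
  U : Type
  grp : Group U
  src : E → V
  inv : E → E
  val : E → U
  inv_inv : ∀ e, inv (inv e) = e
  val_inv : ∀ e, val (inv e) = (val e)⁻¹

instance (A : Gd) : Group A.U := A.grp

namespace Gd

def tgt (A : Gd) (e : A.E) : A.V := A.src (A.inv e)

def Path (A : Gd) (x : A.V) (p : List A.E) (y : A.V) : Prop := IsPath A.src A.tgt x p y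

def ev (A : Gd) (p : List A.E) : A.U := (p.map A.val).prod

/-- The reversed path. -/
def rev (A : Gd) (p : List A.E) : List A.E := (p.map A.inv).reverse

end Gd

/-- A map that sends edges to paths of length at most `K` and null-homotopic loops to
null-homotopic loops. -/
structure Mor (K : ℕ) (A B : Gd) where
  v : A.V → B.V
  e : A.E → List B.E
  path : ∀ a, B.Path (v (A.src a)) (e a) (v (A.tgt a))
  len : ∀ a, (e a).length ≤ K
  cong : ∀ x p, A.Path x p x → A.ev p = 1 → B.ev (p.flatMap e) = 1

/-- `g ∘ f` is homotopic to the identity through paths of length at most `K`. -/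
def Mor.Back {K : ℕ} {A B : Gd} (f : Mor K A B) (g : Mor K B A) : Prop :=
  ∃ η : A.V → List A.E, (∀ x, A.Path x (η x) (g.v (f.v x)) ∧ (η x).length ≤ K) ∧
    ∀ a, A.ev (η (A.src a)) * A.ev ((f.e a).flatMap g.e) = A.val a * A.ev (η (A.tgt a))

/-- Homotopy equivalence with constant `K`. -/
def Eqv (K : ℕ) (A B : Gd) : Prop :=
  ∃ (f : Mor K A B) (g : Mor K B A), f.Back g ∧ g.Back f

/-- Relators of the group attached to a graph with a set `R` of loops declared trivial. -/
def presRels {E : Type} (inv : E → E) (R : Set (List E)) : Set (FreeGroup E) :=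
  {x | (∃ e, x = FreeGroup.of e * FreeGroup.of (inv e)) ∨ ∃ r ∈ R, x = (r.map FreeGroup.of).prod}

/-- The graph with the loops in `R` declared trivial. -/
def pres {V E : Type} (src : E → V) (inv : E → E) (h : ∀ e, inv (inv e) = e)
    (R : Set (List E)) : Gd where
  V := V
  E := E
  U := PresentedGroup (presRels inv R)
  grp := inferInstance
  src := src
  inv := inv
  val := fun e => PresentedGroup.of e
  inv_inv := h
  val_inv := fun e => by
    apply eq_inv_of_mul_eq_one_right
    have : (PresentedGroup.mk (presRels inv R)) (FreeGroup.of e * FreeGroup.of (inv e)) = 1 :=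
      PresentedGroup.one_of_mem (Or.inl ⟨e, rfl⟩)
    simpa [PresentedGroup.of] using this

/-- The list `d, f d, ..., f^[n-1] d`. -/
def orbL {D : Type} (f : D → D) (d : D) (n : ℕ) : List D := (List.range n).map fun i => f^[i] d

open Classical in
/-- Number of cycles of `σ` that meet `S`. -/
noncomputable def norb {D : Type} (σ : Perm D) (S : Finset D) : ℕ :=
  (S.image (Quotient.mk (Perm.SameCycle.setoid σ))).card

/-- A finite map on a closed oriented surface: darts, reversal `α`, next dart of the face `φ`. -/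
structure CMap where
  D : Type
  fin : Fintype D
  α : Perm D
  φ : Perm D
  αα : ∀ d, α (α d) = d
  αne : ∀ d, α d ≠ d

instance (M : CMap) : Fintype M.D := M.fin

namespace CMap

/-- Rotation about the source vertex. -/
def ψ (M : CMap) : Perm M.D := M.φ * M.α

/-- The graph of the map with the faces declared trivial. -/
def gd (M : CMap) : Gd :=
  pres (V := Quotient (Perm.SameCycle.setoid M.ψ)) (fun d => Quotient.mk _ d) M.α M.αα
    {w | ∃ d n, M.φ^[n] d = d ∧ w = orbL M.φ d n}

/-- One step inside a region of the map cut along the darts in `H`. -/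
def Step (M : CMap) (H : M.D → Prop) (d d' : M.D) : Prop := d' = M.φ d ∨ (¬ H d ∧ d' = M.α d)

/-- `d` and `d'` lie in the same region of the map cut along `H`. -/
def Same (M : CMap) (H : M.D → Prop) (d d' : M.D) : Prop := Relation.ReflTransGen (M.Step H) d d'

open Classical in
/-- The dart of `H` that follows `d` along the boundary of its region. -/
noncomputable def bd (M : CMap) (H : M.D → Prop) (d : M.D) : M.D :=
  if h : ∃ k : ℕ, H (M.ψ^[k] (M.φ d)) then M.ψ^[Nat.find h] (M.φ d) else d

open Classical in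
/-- The Euler relation of a region `S` with `h` handles and `b` boundary cycles. -/
def Euler (M : CMap) (H : M.D → Prop) (S : Finset M.D) (h b : ℕ) : Prop :=
  4 * h + 2 * b + 2 * norb M.ψ (S.filter fun d => ∀ k : ℕ, ¬ H (M.ψ^[k] d)) + 2 * norb M.φ S
    = 4 + (S.filter fun d => ¬ H d).card

end CMap

/-- A graph of surfaces: pieces `X` with genus `h`, cuff ends `C` paired by `bar`. -/
structure GS where
  X : Type
  C : Type
  finX : Fintype X
  finC : Fintype C
  bar : C → C
  bar_bar : ∀ c, bar (bar c) = c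
  bar_ne : ∀ c, bar c ≠ c
  own : C → X
  h : X → ℕ
  ord : X → List C
  nodup : ∀ x, (ord x).Nodup
  mem_ord : ∀ x c, c ∈ ord x ↔ own c = x

instance (G : GS) : Fintype G.X := G.finX
instance (G : GS) : Fintype G.C := G.finC

namespace GS

/-- The two ends of one cuff are identified. -/
def st (G : GS) : Setoid G.C where
  r c c' := c' = c ∨ c' = G.bar c
  iseqv := ⟨fun _ => Or.inl rfl,
    fun h => h.elim (fun h => Or.inl h.symm) (fun h => Or.inr (by rw [h, G.bar_bar])),
    fun h h' => by
      rcases h with rfl | rfl <;> rcases h' with rfl | rfl <;> simp [G.bar_bar]⟩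

/-- Edges: handle loops `a_i^±, b_i^±`, arcs `e_c^±` from the base point of a piece to a cuff,
cuff loops `t_c`. -/
abbrev Ed (G : GS) : Type := (Σ x : G.X, Fin (G.h x) × Bool × Bool) ⊕ (G.C × Bool) ⊕ G.C

def src (G : GS) : G.Ed → G.X ⊕ Quotient G.st
  | .inl a => .inl a.1
  | .inr (.inl (c, true)) => .inl (G.own c)
  | .inr (.inl (c, false)) => .inr (Quotient.mk _ c)
  | .inr (.inr c) => .inr (Quotient.mk _ c)

def inv (G : GS) : G.Ed → G.Ed
  | .inl ⟨x, i, u, s⟩ => .inl ⟨x, i, u, !s⟩
  | .inr (.inl (c, s)) => .inr (.inl (c, !s))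
  | .inr (.inr c) => .inr (.inr (G.bar c))

theorem inv_inv (G : GS) (e : G.Ed) : G.inv (G.inv e) = e := by
  rcases e with ⟨x, i, u, s⟩ | ⟨c, s⟩ | c <;> simp [inv, G.bar_bar]

/-- The relator `∏ [a_i, b_i] ∏ e_c t_c e_c⁻¹` of the piece `x`. -/
def rel (G : GS) (x : G.X) : List G.Ed :=
  ((List.finRange (G.h x)).flatMap fun i =>
    [.inl ⟨x, i, true, true⟩, .inl ⟨x, i, false, true⟩, .inl ⟨x, i, true, false⟩,
      .inl ⟨x, i, false, false⟩]) ++
  ((G.ord x).flatMap fun c => [.inr (.inl (c, true)), .inr (.inr c), .inr (.inl (c, false))])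

def gd (G : GS) : Gd := pres G.src G.inv G.inv_inv (Set.range G.rel)

/-- The graph of pieces is nonempty and connected. -/
def Conn (G : GS) : Prop :=
  Nonempty G.X ∧ ∀ x y : G.X,
    Relation.ReflTransGen (fun x y => ∃ c, G.own c = x ∧ G.own (G.bar c) = y) x y

/-- Every piece is complicated: closed of genus at least two, or `2h + b ≥ n`. -/
def Big (G : GS) (n : ℕ) : Prop :=
  ∀ x, (G.ord x = [] ∧ 2 ≤ G.h x) ∨ n ≤ 2 * G.h x + (G.ord x).length

end GS

open Classical in
/-- The map `M` cut along the disjoint simple cycles `H` has the graph of surfaces `G`, and all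
regions have at most `n` darts. -/
structure Lab (M : CMap) (H : M.D → Prop) (G : GS) (n : ℕ) where
  reg : M.D → G.X
  cuf : ∀ d, H d → G.C
  Hα : ∀ d, H d → H (M.α d)
  simple : ∀ d, H d → M.bd H (M.α (M.bd H d)) = M.α d
  reg_iff : ∀ d d', reg d = reg d' ↔ M.Same H d d'
  reg_surj : ∀ x, ∃ d, reg d = x
  cuf_iff : ∀ d d' (h : H d) (h' : H d'), cuf d h = cuf d' h' ↔ ∃ k : ℕ, (M.bd H)^[k] d = d'
  cuf_surj : ∀ c, ∃ d, ∃ h : H d, cuf d h = c
  cuf_α : ∀ d (h : H d), cuf (M.α d) (Hα d h) = G.bar (cuf d h)
  own_cuf : ∀ d (h : H d), G.own (cuf d h) = reg d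
  euler : ∀ x, M.Euler H (Finset.univ.filter fun d => reg d = x) (G.h x) (G.ord x).length
  size : ∀ x, (Finset.univ.filter fun d => reg d = x).card ≤ n

/-- Relators of the reflection group of the right-angled hexagon. -/
def relsW : Set (FreeGroup (ZMod 6)) :=
  {x | (∃ j, x = FreeGroup.of j * FreeGroup.of j) ∨
    ∃ j, x = FreeGroup.of j * FreeGroup.of (j + 1) * FreeGroup.of j * FreeGroup.of (j + 1)}

/-- The reflection group of the right-angled hexagon. -/
abbrev W6 : Type := PresentedGroup relsW

/-- Type change caused by crossing side `j`: even sides flip the first coordinate, odd sides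
the second. -/
def flipT (j : ZMod 6) : ZMod 2 × ZMod 2 := if j.val % 2 = 0 then (1, 0) else (0, 1)

/-- A finite tiling by right-angled hexagons that covers the four-tile surface of genus two. -/
structure WSet where
  Z : Type
  fin : Fintype Z
  r : ZMod 6 → Z → Z
  rr : ∀ j z, r j (r j z) = z
  comm : ∀ j z, r j (r (j + 1) z) = r (j + 1) (r j z)
  ty : Z → ZMod 2 × ZMod 2
  ty_r : ∀ j z, ty (r j z) = ty z + flipT j

/-- The dual graph of the tiling with values in the reflection group. -/
def WSet.gd (T : WSet) : Gd where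
  V := T.Z
  E := T.Z × ZMod 6
  U := W6
  grp := inferInstance
  src := fun e => e.1
  inv := fun e => (T.r e.2 e.1, e.2)
  val := fun e => PresentedGroup.of e.2
  inv_inv := fun e => by simp [T.rr]
  val_inv := fun e => by
    apply eq_inv_of_mul_eq_one_right
    have : (PresentedGroup.mk relsW) (FreeGroup.of e.2 * FreeGroup.of e.2) = 1 :=
      PresentedGroup.one_of_mem (Or.inl ⟨e.2, rfl⟩)
    simpa [PresentedGroup.of] using this

open Classical in
/-- Hypotheses on the trivalent map that models a thick surface of coarse dimension one. -/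
structure YMap (M : CMap) (n : ℕ) (R N : ℕ → ℕ) : Prop where
  tri : ∀ d, M.ψ (M.ψ (M.ψ d)) = d ∧ M.ψ d ≠ d
  conn : ∀ d d', M.Same (fun _ => False) d d'
  lab : ∃ (ι : Type) (l : M.D → ι), (∀ d, l (M.φ d) = l d) ∧
    (∀ d, l d = l (M.ψ d) ∨ l (M.ψ d) = l (M.ψ (M.ψ d)) ∨ l d = l (M.ψ (M.ψ d))) ∧
    ∀ i, (Finset.univ.filter fun d => l d = i).card ≤ n
  cyl : ∀ (l : ℕ) x y p q c, M.gd.Path x p x → M.gd.Path y q y → M.gd.Path x c y →
    p.length ≤ l → q.length ≤ l → M.gd.ev p ≠ 1 →
    M.gd.ev p * M.gd.ev c = M.gd.ev c * M.gd.ev q →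
    ∃ c', M.gd.Path x c' y ∧ c'.length ≤ R l
  fill : ∀ (l : ℕ) x (p : List M.D), M.gd.Path x p x → p.length ≤ l → M.gd.ev p = 1 →
    ∃ S : Finset M.D, S.card ≤ N l ∧ (∀ d, M.φ d ∈ S ↔ d ∈ S) ∧
      ∀ d, (d ∈ S ↔ M.α d ∈ S) ↔ Even (p.count d + p.count (M.α d))
  nonab : ∃ x p q, M.gd.Path x p x ∧ M.gd.Path x q x ∧
    M.gd.ev p * M.gd.ev q ≠ M.gd.ev q * M.gd.ev p

end Pool.Agent.MC
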