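import Pool.Agent.P.MP_2677b3_gt.Base

namespace Pool.Agent.MC

section paths
variable {V E : Type} {s t : E → V}

@[simp] theorem isPath_nil {x y : V} : IsPath s t x [] y ↔ x = y := Iff.rfl

@[simp] theorem isPath_cons {x y : V} {e : E} {p : List E} :
    IsPath s t x (e :: p) y ↔ s e = x ∧ IsPath s t (t e) p y := Iff.rfl

theorem isPath_append {x z : V} {p q : List E} :
    IsPath s t x (p ++ q) z ↔ ∃ y, IsPath s t x p y ∧ IsPath s t y q z := by
  induction p generalizing x with
  | nil => simp
  | cons e p ih =>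
    simp only [List.cons_append, isPath_cons, ih]
    constructor
    · rintro ⟨h, y, h1, h2⟩; exact ⟨y, ⟨h, h1⟩, h2⟩
    · rintro ⟨y, ⟨h, h1⟩, h2⟩; exact ⟨h, y, h1, h2⟩

theorem IsPath.append {x y z : V} {p q : List E} (h : IsPath s t x p y) (h' : IsPath s t y q z) :
    IsPath s t x (p ++ q) z := isPath_append.2 ⟨y, h, h'⟩

theorem IsPath.unique {x y y' : V} {p : List E} (h : IsPath s t x p y) (h' : IsPath s t x p y') :
    y = y' := by
  induction p generalizing x with
  | nil => exact h.symm.trans h'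
  | cons e p ih => exact ih h.2 h'.2

theorem IsPath.flatMap {V' E' : Type} {s' t' : E' → V'} (v : V → V') (f : E → List E')
    {x y : V} {p : List E} (hf : ∀ a ∈ p, IsPath s' t' (v (s a)) (f a) (v (t a)))
    (h : IsPath s t x p y) : IsPath s' t' (v x) (p.flatMap f) (v y) := by
  induction p generalizing x with
  | nil => obtain rfl : x = y := h; exact rfl
  | cons e p ih =>
    obtain ⟨rfl, h2⟩ := h
    rw [List.flatMap_cons]
    exact (hf e (by simp)).append (ih (fun a ha => hf a (by simp [ha])) h2)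

end paths

namespace Gd
variable {A B C : Gd}

@[simp] theorem src_inv (e : A.E) : A.src (A.inv e) = A.tgt e := rfl
@[simp] theorem tgt_inv (e : A.E) : A.tgt (A.inv e) = A.src e := by simp [tgt, A.inv_inv]
@[simp] theorem path_nil {x y : A.V} : A.Path x [] y ↔ x = y := Iff.rfl
@[simp] theorem path_cons {x y : A.V} {e : A.E} {p : List A.E} :
    A.Path x (e :: p) y ↔ A.src e = x ∧ A.Path (A.tgt e) p y := Iff.rfl
theorem path_append {x z : A.V} {p q : List A.E} :
    A.Path x (p ++ q) z ↔ ∃ y, A.Path x p y ∧ A.Path y q z := isPath_append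
theorem Path.append {x y z : A.V} {p q : List A.E} (h : A.Path x p y) (h' : A.Path y q z) :
    A.Path x (p ++ q) z := IsPath.append h h'
theorem path_single (e : A.E) : A.Path (A.src e) [e] (A.tgt e) := ⟨rfl, rfl⟩
@[simp] theorem ev_nil : A.ev [] = 1 := rfl
@[simp] theorem ev_cons (e : A.E) (p : List A.E) : A.ev (e :: p) = A.val e * A.ev p := by
  simp [ev]
@[simp] theorem ev_append (p q : List A.E) : A.ev (p ++ q) = A.ev p * A.ev q := by simp [ev]
@[simp] theorem rev_nil : A.rev [] = [] := rfl
@[simp] theorem rev_cons (e : A.E) (p : List A.E) : A.rev (e :: p) = A.rev p ++ [A.inv e] := by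
  simp [rev]
@[simp] theorem rev_append (p q : List A.E) : A.rev (p ++ q) = A.rev q ++ A.rev p := by
  simp [rev]
@[simp] theorem length_rev (p : List A.E) : (A.rev p).length = p.length := by simp [rev]
@[simp] theorem ev_rev (p : List A.E) : A.ev (A.rev p) = (A.ev p)⁻¹ := by
  induction p with
  | nil => simp
  | cons e p ih => simp [ih, A.val_inv]
theorem Path.rev {x y : A.V} {p : List A.E} (h : A.Path x p y) : A.Path y (A.rev p) x := by
  induction p generalizing x with
  | nil => exact h.symm
  | cons e p ih =>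
    obtain ⟨rfl, h2⟩ := h
    rw [rev_cons]
    exact (ih h2).append ⟨rfl, by simp⟩
theorem ev_flatMap {ι : Type} (l : List ι) (f : ι → List A.E) :
    A.ev (l.flatMap f) = (l.map fun i => A.ev (f i)).prod := by
  induction l with
  | nil => simp
  | cons a l ih => simp [ih]

end Gd

theorem length_flatMap_le {α β : Type} (p : List α) (f : α → List β) (K : ℕ)
    (h : ∀ a ∈ p, (f a).length ≤ K) : (p.flatMap f).length ≤ K * p.length := by
  induction p with
  | nil => simp
  | cons a p ih =>
    have h1 := h a (by simp)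
    have h2 := ih (fun b hb => h b (by simp [hb]))
    simp only [List.flatMap_cons, List.length_append, List.length_cons]
    nlinarith

namespace Mor
variable {K K' : ℕ} {A B C : Gd}

theorem map_path (f : Mor K A B) {x y : A.V} {p : List A.E} (h : A.Path x p y) :
    B.Path (f.v x) (p.flatMap f.e) (f.v y) := IsPath.flatMap f.v f.e (fun a _ => f.path a) h

theorem map_len (f : Mor K A B) (p : List A.E) : (p.flatMap f.e).length ≤ K * p.length :=
  length_flatMap_le p f.e K fun a _ => f.len a

theorem ev_inv (f : Mor K A B) (a : A.E) : B.ev (f.e (A.inv a)) = (B.ev (f.e a))⁻¹ := by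
  have h := f.cong (A.src a) [a, A.inv a] ⟨rfl, rfl, by simp⟩ (by simp [A.val_inv])
  simp only [List.flatMap_cons, List.flatMap_nil, List.append_nil, Gd.ev_append] at h
  exact eq_inv_of_mul_eq_one_right h

theorem ev_map_rev (f : Mor K A B) (p : List A.E) :
    B.ev ((A.rev p).flatMap f.e) = (B.ev (p.flatMap f.e))⁻¹ := by
  induction p with
  | nil => simp
  | cons e p ih => simp [ih, f.ev_inv]

/-- Homotopic paths have homotopic images. -/
theorem ev_congr (f : Mor K A B) {x y : A.V} {p q : List A.E} (hp : A.Path x p y)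
    (hq : A.Path x q y) (h : A.ev p = A.ev q) :
    B.ev (p.flatMap f.e) = B.ev (q.flatMap f.e) := by
  have := f.cong x (p ++ A.rev q) (hp.append hq.rev) (by simp [h])
  rw [List.flatMap_append, Gd.ev_append, f.ev_map_rev] at this
  exact mul_inv_eq_one.1 this

def mono (f : Mor K A B) (h : K ≤ K') : Mor K' A B :=
  { f with len := fun a => (f.len a).trans h }

def id (A : Gd) : Mor 1 A A where
  v := fun x => x
  e := fun a => [a]
  path := A.path_single
  len := fun _ => le_rfl
  cong := fun _ p _ h => by simpa using h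

def comp (f : Mor K A B) (g : Mor K' B C) : Mor (K' * K) A C where
  v := fun x => g.v (f.v x)
  e := fun a => (f.e a).flatMap g.e
  path := fun a => g.map_path (f.path a)
  len := fun a => (g.map_len _).trans (Nat.mul_le_mul_left _ (f.len a))
  cong := fun x p hp h => by
    rw [← List.flatMap_assoc]
    exact g.cong _ _ (f.map_path hp) (f.cong x p hp h)

/-- Naturality along a path. -/
theorem back_path (f : Mor K A B) (g : Mor K' B A) (η : A.V → List A.E)
    (h : ∀ a, A.ev (η (A.src a)) * A.ev ((f.e a).flatMap g.e) = A.val a * A.ev (η (A.tgt a)))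
    {x y : A.V} {p : List A.E} (hp : A.Path x p y) :
    A.ev (η x) * A.ev ((p.flatMap f.e).flatMap g.e) = A.ev p * A.ev (η y) := by
  induction p generalizing x with
  | nil => obtain rfl : x = y := hp; simp
  | cons e p ih =>
    obtain ⟨rfl, h2⟩ := hp
    rw [List.flatMap_cons, List.flatMap_append, Gd.ev_append, ← mul_assoc, h, mul_assoc, ih h2,
      Gd.ev_cons, mul_assoc]

end Mor

namespace Eqv
variable {K K' : ℕ} {A B C : Gd}

theorem symm (h : Eqv K A B) : Eqv K B A := by
  obtain ⟨f, g, h1, h2⟩ := h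
  exact ⟨g, f, h2, h1⟩

theorem mono (h : Eqv K A B) (hK : K ≤ K') : Eqv K' A B := by
  obtain ⟨f, g, ⟨η, h1, h2⟩, ⟨ζ, h3, h4⟩⟩ := h
  exact ⟨f.mono hK, g.mono hK, ⟨η, fun x => ⟨(h1 x).1, (h1 x).2.trans hK⟩, h2⟩,
    ⟨ζ, fun x => ⟨(h3 x).1, (h3 x).2.trans hK⟩, h4⟩⟩

theorem refl (A : Gd) : Eqv 1 A A :=
  ⟨Mor.id A, Mor.id A, ⟨fun _ => [], fun _ => ⟨rfl, by simp⟩, fun a => by simp [Mor.id]⟩,
    ⟨fun _ => [], fun _ => ⟨rfl, by simp⟩, fun a => by simp [Mor.id]⟩⟩

theorem back_comp (f : Mor K A B) (g : Mor K B A) (f' : Mor K B C) (g' : Mor K C B)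
    (h : f.Back g) (h' : f'.Back g') :
    ((f.comp f').mono (Nat.le_add_right _ K)).Back ((g'.comp g).mono (Nat.le_add_right _ K)) := by
  obtain ⟨η, h1, h2⟩ := h
  obtain ⟨ζ, h3, h4⟩ := h'
  refine ⟨fun x => η x ++ (ζ (f.v x)).flatMap g.e, fun x => ⟨?_, ?_⟩, fun a => ?_⟩
  · exact (h1 x).1.append (g.map_path (h3 _).1)
  · have := g.map_len (ζ (f.v x))
    have h5 := (h1 x).2
    have h6 := Nat.mul_le_mul_left K (h3 (f.v x)).2
    rw [List.length_append]; omega
  · have h7 := Mor.back_path f' g' ζ h4 (f.path a)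
    have h8 := g.ev_congr (((h3 (f.v (A.src a))).1).append (g'.map_path (f'.map_path (f.path a))))
      ((f.path a).append (h3 (f.v (A.tgt a))).1) (by simpa using h7)
    simp only [List.flatMap_append, Gd.ev_append] at h8
    change A.ev (η _ ++ _) * A.ev (((f.e a).flatMap f'.e).flatMap fun b => (g'.e b).flatMap g.e)
      = _
    rw [← List.flatMap_assoc, Gd.ev_append, Gd.ev_append, mul_assoc, h8, ← mul_assoc, h2,
      mul_assoc]

theorem trans_same (h : Eqv K A B) (h' : Eqv K B C) : Eqv (K * K + K) A C := by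
  obtain ⟨f, g, h1, h2⟩ := h
  obtain ⟨f', g', h3, h4⟩ := h'
  exact ⟨_, _, back_comp f g f' g' h1 h3, back_comp g' f' g f h4 h2⟩

theorem trans (h : Eqv K A B) (h' : Eqv K' B C) :
    Eqv ((K + K') * (K + K') + (K + K')) A C :=
  (h.mono (Nat.le_add_right _ _)).trans_same (h'.mono (Nat.le_add_left _ _))

theorem nonempty (h : Eqv K A B) (x : A.V) : Nonempty B.V := by
  obtain ⟨f, -⟩ := h
  exact ⟨f.v x⟩

end Eqv

section pres
variable {V E : Type} {src : E → V} {inv : E → E} {h : ∀ e, inv (inv e) = e} {R : Set (List E)}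

theorem pres_rel {r : List E} (hr : r ∈ R) : (pres src inv h R).ev r = 1 := by
  have h1 : (PresentedGroup.mk (presRels inv R)) ((r.map FreeGroup.of).prod) = 1 :=
    PresentedGroup.one_of_mem (Or.inr ⟨r, hr, rfl⟩)
  rw [map_list_prod, List.map_map] at h1
  exact h1

/-- Universal property: a function on edges that respects reversal and the relators kills every
word that is trivial in the presented group. -/
theorem pres_lift {G : Type} [Group G] (χ : E → G) (h1 : ∀ e, χ (inv e) = (χ e)⁻¹)
    (h2 : ∀ r ∈ R, (r.map χ).prod = 1) :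
    ∃ F : (pres src inv h R).U →* G, ∀ p : List E, F ((pres src inv h R).ev p) = (p.map χ).prod := by
  have h3 : ∀ r ∈ presRels inv R, FreeGroup.lift χ r = 1 := by
    rintro _ (⟨e, rfl⟩ | ⟨r, hr, rfl⟩)
    · simp [h1]
    · rw [map_list_prod, List.map_map, ← h2 r hr]
      congr 2
      ext e; simp
  refine ⟨PresentedGroup.toGroup h3, fun p => ?_⟩
  unfold Gd.ev
  rw [map_list_prod, List.map_map]
  congr 2
  ext e
  exact PresentedGroup.toGroup.of h3

/-- A map out of a presented graph only has to respect reversal and the relators. -/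
def Mor.ofPres {K : ℕ} {B : Gd} (v : V → B.V) (e : E → List B.E)
    (path : ∀ a, B.Path (v (src a)) (e a) (v (src (inv a)))) (len : ∀ a, (e a).length ≤ K)
    (h1 : ∀ a, B.ev (e (inv a)) = (B.ev (e a))⁻¹) (h2 : ∀ r ∈ R, B.ev (r.flatMap e) = 1) :
    Mor K (pres src inv h R) B where
  v := v
  e := e
  path := path
  len := len
  cong := fun x p _ hp => by
    obtain ⟨F, hF⟩ := pres_lift (src := src) (h := h) (R := R) (fun a => B.ev (e a)) h1
      (fun r hr => by rw [← Gd.ev_flatMap]; exact h2 r hr)
    have := hF p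
    rw [hp, map_one] at this
    rw [Gd.ev_flatMap]
    exact this.symm

end pres

end Pool.Agent.MC
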