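import Pool.Agent.P.MP_2677b3_gt.BuDefs

namespace Pool.Agent.MC

theorem rv_rv (d : Dart) : rv (rv d) = d := by revert d; decide
theorem wall_rv (d : Dart) : wall (rv d) = wall d := by revert d; decide
theorem fk_one (d : Dart) : fk 1 d = lf d := by revert d; decide
theorem fk_four (d : Dart) : fk 4 d = rv d := by revert d; decide
theorem fk_two_two (d : Dart) : fk 2 (fk 2 d) = d := by revert d; decide
theorem wall_fk (d : Dart) : wall (fk 1 d) = !wall d ∧ wall (fk 2 d) = wall d ∧
    wall (fk 3 d) = !wall d := by revert d; decide
theorem ang_le (d e : Dart) : ang d e ≤ 4 := by unfold ang; split_ifs <;> omega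
theorem fk_ang {d e : Dart} (h : ang d e ≠ 0) : e = fk (ang d e) d := by
  unfold ang at h ⊢; split_ifs at h ⊢ <;> first | assumption | exact absurd rfl h
theorem ang_fk (d : Dart) : ang d (fk 1 d) = 1 ∧ ang d (fk 2 d) = 2 ∧ ang d (fk 3 d) = 3 ∧
    ang d (fk 4 d) = 4 := by revert d; decide
theorem ang_mirror : ∀ d e : Dart, Fw d e → ang d e + ang (rv e) (rv d) = 4 := by decide +kernel
theorem Fw_mirror : ∀ d e : Dart, Fw d e → Fw (rv e) (rv d) := by decide +kernel
theorem J_mirror : ∀ d e : Dart, J d e → J (rv e) (rv d) := by decide +kernel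
theorem J_fw : ∀ d e : Dart, J d e → Fw d e := by decide +kernel
theorem th_rv (d : Dart) : th (rv d) = -th d := by revert d; decide +kernel
theorem al_rv (d : Dart) : al (rv d) = -al d := by revert d; decide
theorem th_inB (d : Dart) : InB 1 (th d) := by unfold InB; revert d; decide +kernel
theorem th_tile (d : Dart) : ((tileL d).map th).sum = 0 := by revert d; decide +kernel
theorem al_tile (d : Dart) : ((tileL d).map al).sum = 1 := by revert d; decide +kernel
theorem Phi_inB (d : Dart) (h : wall d = false) : InB 2 (Phi d) := by
  unfold InB; revert d; decide +kernel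
theorem Phi_step (d : Dart) (h : wall d = false) : Phi (fstep d) = Phi d + fdis d := by
  revert d; decide +kernel
theorem compB_symm (t u : Tag) : compB t u = compB u t := by cases t <;> cases u <;> rfl
theorem compB_inner (t : Tag) : compB .inner t = true ∧ compB t .inner = true := by
  cases t <;> exact ⟨rfl, rfl⟩

@[simp] theorem darts_nil : darts [] = [] := rfl
@[simp] theorem darts_cons (e : Entry) (l : List Entry) : darts (e :: l) = e.1 :: darts l := rfl
@[simp] theorem darts_append (l l' : List Entry) : darts (l ++ l') = darts l ++ darts l' := by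
  simp [darts]
@[simp] theorem darts_inn (l : List Dart) : darts (inn l) = l := by
  simp [darts, inn, Function.comp_def]
@[simp] theorem length_darts (l : List Entry) : (darts l).length = l.length := by simp [darts]
@[simp] theorem inn_nil : inn [] = [] := rfl
@[simp] theorem inn_cons (d : Dart) (l : List Dart) : inn (d :: l) = (d, .inner) :: inn l := rfl
@[simp] theorem inn_append (l l' : List Dart) : inn (l ++ l') = inn l ++ inn l' := by simp [inn]
@[simp] theorem thL_nil : thL [] = 0 := rfl
@[simp] theorem thL_cons (e : Entry) (l : List Entry) : thL (e :: l) = th e.1 + thL l := by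
  simp [thL]
@[simp] theorem thL_append (l l' : List Entry) : thL (l ++ l') = thL l + thL l' := by simp [thL]
@[simp] theorem alL_nil : alL [] = 0 := rfl
@[simp] theorem alL_cons (e : Entry) (l : List Entry) : alL (e :: l) = al e.1 + alL l := by
  simp [alL]
@[simp] theorem alL_append (l l' : List Entry) : alL (l ++ l') = alL l + alL l' := by simp [alL]

theorem buapi_forall₂_map {P Q : List Entry}
    (h : List.Forall₂ (fun a b : Entry => b.1 = rv a.1 ∧ compB a.2 b.2 = true) P Q) :
    darts Q = (darts P).map rv := by
  induction h with
  | nil => rfl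
  | cons h _ ih => simp [h.1, ih]

theorem buapi_mateB (P Q : List Entry) : mateB P Q = true ↔
    List.Forall₂ (fun a b : Entry => b.1 = rv a.1 ∧ compB a.2 b.2 = true) P Q := by
  induction P generalizing Q with
  | nil => cases Q <;> simp [mateB]
  | cons a P ih => cases Q <;> simp [mateB, ih, and_assoc]

theorem buapi_thL (P : List Entry) : thL P = ((darts P).map th).sum := by
  simp [thL, darts, Function.comp_def]

theorem buapi_alL (P : List Entry) : alL P = ((darts P).map al).sum := by
  simp [alL, darts, Function.comp_def]

theorem buapi_th_sum (l : List Dart) : ((l.map rv).map th).sum = -(l.map th).sum := by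
  induction l with
  | nil => simp
  | cons d l ih =>
    rw [List.map_cons, List.map_cons, List.map_cons, List.sum_cons, List.sum_cons, ih, th_rv]
    abel

theorem buapi_al_sum (l : List Dart) : ((l.map rv).map al).sum = -(l.map al).sum := by
  induction l with
  | nil => simp
  | cons d l ih =>
    rw [List.map_cons, List.map_cons, List.map_cons, List.sum_cons, List.sum_cons, ih, al_rv]
    abel

theorem Mate.darts {P Q : List Entry} (h : Mate P Q) : darts Q = mirror (darts P) := by
  have h1 := buapi_forall₂_map h
  unfold mirror
  rw [← h1]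
  simp [MC.darts]
theorem Mate.symm {P Q : List Entry} (h : Mate P Q) : Mate Q P := by
  unfold Mate at h ⊢
  have h1 := List.forall₂_reverse_iff.2 h
  rw [List.reverse_reverse] at h1
  refine (List.Forall₂.flip h1).imp ?_
  rintro a b ⟨h2, h3⟩
  exact ⟨by rw [h2, rv_rv], by rw [compB_symm]; exact h3⟩
theorem Mate.append {P Q P' Q' : List Entry} (h : Mate P Q) (h' : Mate P' Q') :
    Mate (P ++ P') (Q' ++ Q) := by
  unfold Mate at h h' ⊢
  rw [List.reverse_append]
  exact List.rel_append h h'
theorem mateB_iff (P Q : List Entry) : mateB P Q.reverse = true ↔ Mate P Q := by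
  exact buapi_mateB P Q.reverse
theorem thL_mirror {P Q : List Entry} (h : darts Q = mirror (darts P)) : thL Q = -thL P := by
  rw [buapi_thL, buapi_thL, h, mirror, List.map_reverse, List.sum_reverse, buapi_th_sum]
theorem alL_mirror {P Q : List Entry} (h : darts Q = mirror (darts P)) : alL Q = -alL P := by
  rw [buapi_alL, buapi_alL, h, mirror, List.map_reverse, List.sum_reverse, buapi_al_sum]
theorem thL_congr {P Q : List Entry} (h : (darts P).Perm (darts Q)) : thL P = thL Q := by
  rw [buapi_thL, buapi_thL]
  exact (h.map th).sum_eq
theorem alL_congr {P Q : List Entry} (h : (darts P).Perm (darts Q)) : alL P = alL Q := by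
  rw [buapi_alL, buapi_alL]
  exact (h.map al).sum_eq

section
variable {α β : Type} {R : α → α → Prop}
theorem CChain.ne_nil {l : List α} (h : CChain R l) : l ≠ [] := by
  rintro rfl; exact h
theorem cchain_iff {l : List α} : CChain R l ↔
    l ≠ [] ∧ l.IsChain R ∧ ∀ x ∈ l.getLast?, ∀ y ∈ l.head?, R x y := by
  cases l with
  | nil => simp [CChain]
  | cons a t =>
    show (a :: t ++ [a]).IsChain R ↔ _
    rw [List.isChain_append]
    simp
theorem cchain_append_comm {A B : List α} : CChain R (A ++ B) ↔ CChain R (B ++ A) := by
  rcases eq_or_ne A [] with rfl | hA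
  · simp
  rcases eq_or_ne B [] with rfl | hB
  · simp
  rw [cchain_iff, cchain_iff, List.isChain_append, List.isChain_append,
    List.getLast?_append_of_ne_nil _ hB, List.getLast?_append_of_ne_nil _ hA,
    List.head?_append_of_ne_nil _ hA, List.head?_append_of_ne_nil _ hB]
  simp only [ne_eq, List.append_eq_nil_iff, hA, hB, false_and, not_false_eq_true, true_and]
  tauto
theorem CChain.isRotated {l l' : List α} (h : CChain R l) (hr : l ~r l') : CChain R l' := by
  obtain ⟨n, rfl⟩ := hr
  rw [List.rotate_eq_drop_append_take_mod, cchain_append_comm, List.take_append_drop]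
  exact h
theorem CChain.imp {R' : α → α → Prop} {l : List α} (h : CChain R l)
    (hR : ∀ a ∈ l, ∀ b ∈ l, R a b → R' a b) : CChain R' l := by
  cases l with
  | nil => exact h
  | cons a t =>
    show (a :: t ++ [a]).IsChain R'
    have h' : (a :: t ++ [a]).IsChain R := h
    refine List.IsChain.imp_of_mem_imp (fun x y hx hy hxy => hR x ?_ y ?_ hxy) h'
    · simp only [List.mem_append, List.mem_singleton] at hx
      rcases hx with hx | rfl
      · exact hx
      · exact List.mem_cons_self
    · simp only [List.mem_append, List.mem_singleton] at hy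
      rcases hy with hy | rfl
      · exact hy
      · exact List.mem_cons_self
theorem cchain_map {S : β → β → Prop} (f : α → β) {l : List α} :
    CChain S (l.map f) ↔ CChain (fun a b => S (f a) (f b)) l := by
  cases l with
  | nil => simp [CChain]
  | cons a t =>
    show (f a :: t.map f ++ [f a]).IsChain S ↔ (a :: t ++ [a]).IsChain _
    rw [← List.isChain_map f]
    simp
theorem cchain_reverse {l : List α} : CChain R l.reverse ↔ CChain (fun a b => R b a) l := by
  rw [cchain_iff, cchain_iff, List.isChain_reverse, List.getLast?_reverse, List.head?_reverse]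
  simp only [ne_eq, List.reverse_eq_nil_iff]
  constructor
  · rintro ⟨h1, h2, h3⟩
    exact ⟨h1, h2, fun x hx y hy => h3 y hy x hx⟩
  · rintro ⟨h1, h2, h3⟩
    exact ⟨h1, h2, fun x hx y hy => h3 y hy x hx⟩
theorem cchain_iff_getElem {l : List α} : CChain R l ↔ ∃ h : 0 < l.length,
    ∀ i (hi : i < l.length), R l[i] (l[(i + 1) % l.length]'(Nat.mod_lt _ h)) := by
  cases l with
  | nil => simp [CChain]
  | cons a t =>
    show (a :: t ++ [a]).IsChain R ↔ _
    rw [List.isChain_iff_getElem]
    have key : ∀ i (hi : i < (a :: t).length) (h1 : i + 1 < (a :: t ++ [a]).length),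
        (a :: t ++ [a])[i + 1] =
          (a :: t)[(i + 1) % (a :: t).length]'(Nat.mod_lt _ (by simp)) := by
      intro i hi h1
      rcases Nat.lt_or_ge (i + 1) (a :: t).length with h2 | h2
      · rw [List.getElem_append_left h2]
        congr 1
        exact (Nat.mod_eq_of_lt h2).symm
      · have h3 : i + 1 = (a :: t).length := by omega
        rw [List.getElem_append_right h2]
        simp [h3]
    constructor
    · intro h
      refine ⟨by simp, fun i hi => ?_⟩
      have h1 : i + 1 < (a :: t ++ [a]).length := by simp at hi ⊢; omega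
      have h2 := h i h1
      rw [key i hi h1, List.getElem_append_left hi] at h2
      exact h2
    · rintro ⟨_, h⟩ i h1
      have hi : i < (a :: t).length := by simp at h1 ⊢; omega
      rw [key i hi h1, List.getElem_append_left hi]
      exact h i hi
theorem CChain.map_eq_rotate {f : α → α} {l : List α} (h : CChain (fun s t => f s = t) l) :
    l.map f = l.rotate 1 := by
  obtain ⟨h0, h1⟩ := cchain_iff_getElem.1 h
  apply List.ext_getElem
  · simp
  · intro i hi hi'
    rw [List.getElem_map, List.getElem_rotate]
    exact h1 i (by simpa using hi)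
end

section
variable {S S' : Type} {ω : S → S} {a : S → ℕ} {ω' : S' → S'} {a' : S' → ℕ}
theorem Walk.trans {s t u : S} {n k : ℕ} (h : Walk ω a s t n) (h' : Walk ω a t u k) :
    Walk ω a s u (n + k) := by
  induction h with
  | refl s => simpa using h'
  | step _ ih => rw [Nat.add_assoc]; exact Walk.step (ih h')
theorem Walk.shift {s : S} {n : ℕ} (h : Walk ω a s s n) : Walk ω a (ω s) (ω s) n := by
  have key : ∀ {x y : S} {k : ℕ}, Walk ω a x y k → x = y → Walk ω a (ω x) (ω x) k := by
    intro x y k hw hxy
    cases hw with
    | refl => exact Walk.refl _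
    | @step _ _ k' hw' =>
      subst hxy
      have h2 : Walk ω a x (ω x) (a x + 0) := Walk.step (Walk.refl _)
      have h3 := hw'.trans h2
      rw [Nat.add_zero, Nat.add_comm] at h3
      exact h3
  exact key h rfl
theorem Walk.sim (ι : S → S') (hι : ∀ s, Walk ω' a' (ι s) (ι (ω s)) (a s)) {s t : S} {n : ℕ}
    (h : Walk ω a s t n) : Walk ω' a' (ι s) (ι t) n := by
  induction h with
  | refl s => exact Walk.refl _
  | step _ ih => exact (hι _).trans ih
theorem walk_iff {s t : S} {n : ℕ} : Walk ω a s t n ↔
    ∃ k, ω^[k] s = t ∧ ∑ i ∈ Finset.range k, a (ω^[i] s) = n := by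
  constructor
  · intro h
    induction h with
    | refl s => exact ⟨0, rfl, by simp⟩
    | step _ ih =>
      obtain ⟨k, h1, h2⟩ := ih
      refine ⟨k + 1, by rw [Function.iterate_succ_apply]; exact h1, ?_⟩
      rw [Finset.sum_range_succ']
      simp only [Function.iterate_succ_apply, Function.iterate_zero_apply]
      omega
  · rintro ⟨k, h1, h2⟩
    induction k generalizing s n with
    | zero =>
      simp only [Function.iterate_zero_apply, Finset.range_zero, Finset.sum_empty] at h1 h2
      subst h1 h2
      exact Walk.refl _
    | succ k ih =>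
      rw [Finset.sum_range_succ'] at h2
      simp only [Function.iterate_succ_apply, Function.iterate_zero_apply] at h1 h2
      rw [← h2, Nat.add_comm]
      exact Walk.step (ih h1 rfl)
end

end Pool.Agent.MC
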