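import Pool.Agent.P.MP_2677b3_gt.BuCons

namespace Pool.Agent.MC

/-- a potential on tags that drops along chains of squares -/
def buas0_mu (l : ℕ) : Tag → ℕ
  | .top r => 2 * l + 3 - r
  | .old r => r + 1
  | .free r => r + 1
  | _ => 1

theorem buas0_mu_lt {l : ℕ} {t t' t'' u : Tag} (h1 : tmB t t' = true) (h2 : compB t' t'' = true)
    (h3 : tmB t'' u = true) (r1 : t.rk ≤ l) (r2 : t''.rk ≤ l) : buas0_mu l t'' < buas0_mu l t := by
  cases t <;> cases t' <;> simp only [tmB, decide_eq_true_eq, Bool.false_eq_true] at h1 <;>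
    cases t'' <;> simp only [compB, decide_eq_true_eq, Bool.false_eq_true] at h2 <;>
    first
    | (simp only [buas0_mu, Tag.rk] at r1 r2 ⊢; omega)
    | (cases u <;> simp [tmB] at h3)

theorem buas0_mu_le {l : ℕ} {t : Tag} (r1 : t.rk ≤ l) : buas0_mu l t < 2 * l + 4 := by
  cases t <;> simp only [buas0_mu, Tag.rk] at r1 ⊢ <;> omega

theorem buas0_card {F : List (List Entry)} (A : AMap F) [DecidablePred (· ∈ A.fs.flatten)] :
    ((@Finset.univ _ A.fin).filter (· ∈ A.fs.flatten)).card = F.flatten.length := by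
  classical
  have h1 : (@Finset.univ _ A.fin).filter (· ∈ A.fs.flatten) = A.fs.flatten.toFinset := by
    ext s; simp only [Finset.mem_filter, Finset.mem_univ, true_and, List.mem_toFinset]
  rw [h1, List.toFinset_card_of_nodup A.nd]
  conv_rhs => rw [← A.hF, ← List.map_flatten, List.length_map]

theorem buas0_size {F : List (List Entry)} (A : AMap F) :
    @Fintype.card _ A.fin ≤ 7 * F.flatten.length + 12 * F.length := by
  classical
  let _ := A.fin
  have h1 : ∑ s, ang (A.lab s) (A.lab (A.nx s)) ≤
      ∑ s : A.S, (1 + if s ∈ A.fs.flatten then 3 else 0) := by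
    refine Finset.sum_le_sum fun s _ => ?_
    split_ifs with h
    · exact ang_le _ _
    · rw [(A.tile s h).1, ← fk_one, (ang_fk _).1]
  rw [Finset.sum_add_distrib, ← Finset.sum_filter, Finset.sum_const, Finset.sum_const,
    buas0_card A, Finset.card_univ] at h1
  have h2 := A.euler
  simp only [smul_eq_mul] at h1
  omega

theorem buas0_len {C : Type} (W : C → List Entry) {l : ℕ} (h : ∀ c, (W c).length ≤ l)
    (o : List C) : (o.map W).flatten.length ≤ o.length * l := by
  induction o with
  | nil => simp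
  | cons c o ih =>
    have := h c
    rw [List.map_cons, List.flatten_cons, List.length_append, List.length_cons, Nat.succ_mul]
    omega

/-- the gluing involution -/
theorem buas0_pi {S C : Type} (face : C → List S) (bar : C → C) (hb : ∀ c, bar (bar c) = c)
    (nd : ∀ c, (face c).Nodup) (dj : ∀ c c' s, s ∈ face c → s ∈ face c' → c = c')
    (hl : ∀ c, (face (bar c)).length = (face c).length) :
    ∃ π : Equiv.Perm S, (∀ s, π (π s) = s) ∧ (∀ s, (¬ ∃ c, s ∈ face c) → π s = s) ∧
      ∀ c i j (hi : i < (face c).length) (hj : j < (face (bar c)).length),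
        i + j + 1 = (face c).length → π (face c)[i] = (face (bar c))[j] := by
  classical
  let p : S → S := fun s => if h : ∃ c, s ∈ face c then
    (face (bar h.choose)).getD ((face h.choose).length - 1 - (face h.choose).idxOf s) s else s
  have h1 : ∀ s, (¬ ∃ c, s ∈ face c) → p s = s := fun s h => dif_neg h
  have h2 : ∀ c i j (hi : i < (face c).length) (hj : j < (face (bar c)).length),
      i + j + 1 = (face c).length → p (face c)[i] = (face (bar c))[j] := by
    intro c i j hi hj e
    have h : ∃ c', (face c)[i] ∈ face c' := ⟨c, List.getElem_mem hi⟩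
    have hc : h.choose = c := dj _ _ _ h.choose_spec (List.getElem_mem hi)
    simp only [p, dif_pos h, hc]
    rw [(nd c).idxOf_getElem i hi, show (face c).length - 1 - i = j by omega,
      List.getD_eq_getElem _ _ hj]
  have h3 : Function.Involutive p := fun s => by
    by_cases h : ∃ c, s ∈ face c
    · obtain ⟨c, hc⟩ := h
      obtain ⟨i, hi, rfl⟩ := List.getElem_of_mem hc
      have e := hl c
      rw [h2 c i ((face c).length - 1 - i) hi (by omega) (by omega),
        h2 (bar c) _ i (by omega) (by rw [hb]; exact hi) (by omega)]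
      simp only [hb]
    · rw [h1 s h, h1 s h]
  exact ⟨h3.toPerm, h3, h1, h2⟩

theorem buas0_iter {S : Type} {f : S → S} {l : List S} (h : CChain (fun s t => f s = t) l)
    (i k : ℕ) (hi : i < l.length) :
    f^[k] l[i] = l[(i + k) % l.length]'(Nat.mod_lt _ (by omega)) := by
  obtain ⟨h0, h1⟩ := cchain_iff_getElem.1 h
  induction k with
  | zero => simp [Nat.mod_eq_of_lt hi]
  | succ k ih =>
    rw [Function.iterate_succ_apply', ih, h1]
    simp only [Nat.mod_add_mod, add_assoc]

theorem td_of_glue (n l : ℕ) : ∃ B : ℕ, ∀ (G : GS) (W : G.C → List Entry),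
    (∀ x, (G.ord x).length ≤ n) → Glue G W l → Nonempty (TD G B) := by
  classical
  refine ⟨2 * l + 4 + (7 * (n * l) + 12 * n), fun G W hn hG => ?_⟩
  have A : ∀ x, AMap ((G.ord x).map W) := fun x => (hG.real x).some
  let _ : ∀ x, Fintype (A x).S := fun x => (A x).fin
  let S := Σ x, (A x).S
  let nx : S → S := fun s => ⟨s.1, (A s.1).nx s.2⟩
  let m : S → S := fun s => ⟨s.1, (A s.1).m s.2⟩
  let lab : S → Dart := fun s => (A s.1).lab s.2
  let tag : S → Tag := fun s => (A s.1).tag s.2
  have nxi : Function.Injective nx := by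
    rintro ⟨x, s⟩ ⟨y, t⟩ h
    obtain rfl : x = y := congrArg Sigma.fst h
    exact congrArg (Sigma.mk x) ((A x).nx_inj (sigma_mk_injective (β := fun x => (A x).S) h))
  have mm : Function.Involutive m := fun s => congrArg (Sigma.mk s.1) ((A s.1).mm s.2)
  have lenA : ∀ x, (A x).fs.length = (G.ord x).length := fun x => by
    simpa using congrArg List.length (A x).hF
  let face : G.C → List S := fun c =>
    ((A (G.own c)).fs.getD ((G.ord (G.own c)).idxOf c) []).map (Sigma.mk (G.own c))
  have F2 : ∀ x, (G.ord x).map face = (A x).fs.map (List.map (Sigma.mk x)) := fun x => by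
    have e : ∀ c, G.own c = x →
        face c = ((A x).fs.getD ((G.ord x).idxOf c) []).map (Sigma.mk x) := by
      rintro c rfl; rfl
    refine List.ext_getElem (by simp [lenA]) fun i h1 h2 => ?_
    rw [List.getElem_map, List.getElem_map, e _ ((G.mem_ord _ _).1 (List.getElem_mem _)),
      (G.nodup x).idxOf_getElem, List.getD_eq_getElem]
  have F1 : ∀ c, (face c).map (fun s => (lab s, tag s)) = W c := fun c => by
    have e := congrArg (List.map (List.map fun s => (lab s, tag s))) (F2 (G.own c))
    have e' : ((A (G.own c)).fs.map (List.map (Sigma.mk (G.own c)))).map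
        (List.map fun s => (lab s, tag s)) = (G.ord (G.own c)).map W := by
      refine Eq.trans ?_ (A (G.own c)).hF
      rw [List.map_map]
      exact List.map_congr_left fun l _ => List.map_map
    rw [e', List.map_map] at e
    exact List.map_inj_left.1 e c ((G.mem_ord _ _).2 rfl)
  have F0 : ∀ c, ∃ q ∈ (A (G.own c)).fs, q.map (Sigma.mk (G.own c)) = face c := fun c =>
    List.mem_map.1 (F2 (G.own c) ▸ List.mem_map_of_mem ((G.mem_ord _ _).2 rfl))
  clear_value face
  have F3 : ∀ c s, s ∈ face c → G.own c = s.1 := fun c s hs => by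
    obtain ⟨q, -, e⟩ := F0 c
    obtain ⟨t, -, rfl⟩ := List.mem_map.1 (e ▸ hs)
    rfl
  have F4 : ∀ s : S, (∃ c, s ∈ face c) ↔ s.2 ∈ (A s.1).fs.flatten := by
    rintro ⟨x, s⟩
    have e : (⟨x, s⟩ : S) ∈ ((G.ord x).map face).flatten ↔ s ∈ (A x).fs.flatten := by
      rw [F2, ← List.map_flatten]
      exact List.mem_map_of_injective sigma_mk_injective
    rw [← e, List.mem_flatten]
    constructor
    · rintro ⟨c, hc⟩
      exact ⟨_, List.mem_map_of_mem ((G.mem_ord _ _).2 (F3 c _ hc)), hc⟩
    · rintro ⟨q, hq, hs⟩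
      obtain ⟨c, -, rfl⟩ := List.mem_map.1 hq
      exact ⟨c, hs⟩
  have F5 : ∀ x, ((G.ord x).map face).flatten.Nodup := fun x => by
    rw [F2, ← List.map_flatten]
    exact (A x).nd.map sigma_mk_injective
  have nd : ∀ c, (face c).Nodup := fun c =>
    (List.nodup_flatten.1 (F5 (G.own c))).1 _ (List.mem_map_of_mem ((G.mem_ord _ _).2 rfl))
  have dj : ∀ c c' s, s ∈ face c → s ∈ face c' → c = c' := fun c c' s h h' => by
    by_contra hne
    have e := List.pairwise_map.1 (List.nodup_flatten.1 (F5 s.1)).2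
    have : Std.Symm fun a b : G.C => List.Disjoint (face a) (face b) := ⟨fun _ _ h => h.symm⟩
    exact e.forall ((G.mem_ord _ _).2 (F3 c s h)) ((G.mem_ord _ _).2 (F3 c' s h')) hne h h'
  have cs : ∀ s (h : ∃ c, s ∈ face c) c, s ∈ face c → h.choose = c := fun s h c hc =>
    dj _ _ _ h.choose_spec hc
  have cy : ∀ c, CChain (fun s t => nx s = t) (face c) := fun c => by
    obtain ⟨q, hq, e⟩ := F0 c
    rw [← e, cchain_map]
    exact ((A _).cyc q hq).imp fun a _ b _ h => by simp only [nx, h]
  have lW : ∀ c, (W c).length = (face c).length := fun c => by rw [← F1, List.length_map]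
  have hl : ∀ c, (face (G.bar c)).length = (face c).length := fun c => by
    rw [← lW, ← lW, (hG.mt c).length_eq, List.length_reverse]
  obtain ⟨π, ππ, π0, π1⟩ := buas0_pi face G.bar G.bar_bar nd dj hl
  have gW : ∀ c i (hi : i < (face c).length),
      (W c)[i]'(lW c ▸ hi) = (lab (face c)[i], tag (face c)[i]) := fun c i hi => by
    simp only [← F1, List.getElem_map]
  have πm : ∀ c s, s ∈ face c → π s ∈ face (G.bar c) := fun c s hs => by
    obtain ⟨i, hi, rfl⟩ := List.getElem_of_mem hs
    have e := hl c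
    rw [π1 c i ((face c).length - 1 - i) hi (by omega) (by omega)]
    exact List.getElem_mem _
  have πl : ∀ c s, s ∈ face c → lab (π s) = rv (lab s) ∧ tmB (tag s) (tag (π s)) = true :=
    fun c s hs => by
    obtain ⟨i, hi, rfl⟩ := List.getElem_of_mem hs
    have e := hl c
    have e1 := lW c
    have e2 := lW (G.bar c)
    have h := (hG.mt c).get (i := i) (by omega) (by rw [List.length_reverse]; omega)
    simp only [List.get_eq_getElem, List.getElem_reverse] at h
    rw [gW c i hi, gW (G.bar c) _ (by omega)] at h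
    rw [π1 c i ((W (G.bar c)).length - 1 - i) hi (by omega) (by omega)]
    exact h
  have nxm : ∀ c s k, s ∈ face c → nx^[k] s ∈ face c := fun c s k hs => by
    obtain ⟨i, hi, rfl⟩ := List.getElem_of_mem hs
    rw [buas0_iter (cy c) i k hi]
    exact List.getElem_mem _
  have reach : ∀ c s t, s ∈ face c → t ∈ face c → ∃ k : ℕ, nx^[k] s = t := fun c s t hs ht => by
    obtain ⟨i, hi, rfl⟩ := List.getElem_of_mem hs
    obtain ⟨j, hj, rfl⟩ := List.getElem_of_mem ht
    refine ⟨j + (face c).length - i, ?_⟩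
    rw [buas0_iter (cy c) i _ hi]
    simp only [show i + (j + (face c).length - i) = j + (face c).length by omega,
      Nat.add_mod_right, Nat.mod_eq_of_lt hj]
  have rk : ∀ c s, s ∈ face c → (tag s).rk ≤ l := fun c s hs =>
    hG.rk c (lab s, tag s) (F1 c ▸ List.mem_map_of_mem (f := fun s => (lab s, tag s)) hs)
  have flt : ∀ x (p : S → Prop) (q : S → Prop) [DecidablePred p] [DecidablePred q]
      (_ : ∀ s, p s ↔ s.1 = x ∧ q s), Finset.univ.filter p =
      (Finset.univ.filter fun s : (A x).S => q ⟨x, s⟩).map (Function.Embedding.sigmaMk x) := by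
    intro x p q _ _ h
    ext ⟨y, s⟩
    simp only [Finset.mem_filter, Finset.mem_univ, true_and, h, Finset.mem_map]
    constructor
    · rintro ⟨rfl, h'⟩; exact ⟨s, h', rfl⟩
    · rintro ⟨t, h', e⟩; exact ⟨(congrArg Sigma.fst e).symm, e ▸ h'⟩
  have flt0 : ∀ x, (Finset.univ.filter fun s : S => s.1 = x) =
      Finset.univ.map (Function.Embedding.sigmaMk x) := fun x => by
    rw [flt x _ (fun _ => True) fun s => (and_iff_left trivial).symm, Finset.filter_true]
  refine ⟨{
    S := S, fin := inferInstance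
    nx := Equiv.ofBijective nx (Finite.injective_iff_bijective.1 nxi)
    m := mm.toPerm, π := π, lab := lab, des := fun s => ∃ c, s ∈ face c, px := Sigma.fst
    cf := fun s h => h.choose
    mm := mm, ππ := ππ
    lab_m := fun s => (A s.1).lab_m s.2
    des_nx := fun s => ⟨?_, fun ⟨c, hc⟩ => ⟨c, nxm c s 1 hc⟩⟩
    des_π := fun s => ⟨fun ⟨c, hc⟩ => ⟨_, ππ s ▸ πm c _ hc⟩, fun ⟨c, hc⟩ => ⟨_, πm c s hc⟩⟩
    lab_π := fun s ⟨c, hc⟩ => (πl c s hc).1
    π_nx := ?_
    tile := fun s h => ?_
    pos := fun s => (A s.1).pos s.2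
    fw := ?_
    node := fun s => ((A s.1).node s.2).sim (Sigma.mk s.1) fun t => Walk.step (Walk.refl _)
    chain := fun s => ?_
    px_nx := fun _ => rfl
    px_m := fun _ => rfl
    px_conn := ?_
    px_surj := fun x => ⟨⟨x, (A x).ne.some⟩, rfl⟩
    cf_iff := fun s t h h' => ⟨fun e => reach _ s t h.choose_spec (e ▸ h'.choose_spec), ?_⟩
    cf_surj := fun c => ?_
    cf_π := fun s h => cs _ _ _ (πm _ s h.choose_spec)
    own_cf := fun s h => F3 _ s h.choose_spec
    euler := fun x => ?_
    size := fun x => ?_ }⟩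
  · rintro ⟨c, hc⟩
    have hc' : nx s ∈ face c := hc
    rw [← List.mem_rotate (n := 1), ← (cy c).map_eq_rotate] at hc'
    obtain ⟨t, ht, e⟩ := List.mem_map.1 hc'
    exact ⟨c, nxi e ▸ ht⟩
  · rintro s ⟨c, hc⟩
    obtain ⟨i, hi, rfl⟩ := List.getElem_of_mem hc
    have e := hl c
    have e1 : nx (face c)[i] = _ := buas0_iter (cy c) i 1 hi
    have h0 : (i + 1) % (face c).length < (face c).length := Nat.mod_lt _ (by omega)
    show nx (π (nx _)) = _
    rw [e1, π1 c _ ((face c).length - 1 - (i + 1) % (face c).length) _ (by omega) (by omega),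
      π1 c i ((face c).length - 1 - i) hi (by omega) (by omega)]
    refine (buas0_iter (cy (G.bar c)) _ 1 _).trans ?_
    have e2 : ((face c).length - 1 - (i + 1) % (face c).length + 1) % (face (G.bar c)).length =
        (face c).length - 1 - i := by
      rw [e]
      rcases Nat.lt_or_ge (i + 1) (face c).length with h | h
      · rw [Nat.mod_eq_of_lt h, Nat.mod_eq_of_lt (by omega)]; omega
      · rw [show i + 1 = (face c).length by omega, Nat.mod_self,
          show (face c).length - 1 - 0 + 1 = (face c).length by omega, Nat.mod_self]; omega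
    simp only [e2]
  · have h1 := (A s.1).tile s.2 fun h' => h ((F4 s).2 h')
    refine ⟨h1.1, ?_⟩
    have h2 : Function.Semiconj (Sigma.mk s.1) (A s.1).nx nx := fun _ => rfl
    exact ((h2.iterate_right 6 s.2).symm.trans (congrArg (Sigma.mk s.1) h1.2))
  · rintro s ⟨c, hc⟩
    obtain ⟨i, hi, rfl⟩ := List.getElem_of_mem hc
    have e : darts (W c) = (face c).map lab := by rw [← F1, darts, List.map_map]; rfl
    have h1 := hG.fw c
    rw [e, cchain_map] at h1
    obtain ⟨h0, h2⟩ := cchain_iff_getElem.1 h1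
    have e1 : nx (face c)[i] = _ := buas0_iter (cy c) i 1 hi
    show ang _ (lab (nx _)) ≠ 4
    rw [e1]
    exact (h2 i hi).2
  · have key : ∀ N (s : S), ((∃ c, s ∈ face c) → buas0_mu l (tag s) < N) →
        ∃ k ≤ N, ¬ ∃ c, (fun s => m (π s))^[k] s ∈ face c := by
      intro N
      induction N with
      | zero => exact fun s h => ⟨0, le_rfl, fun h' => absurd (h h') (Nat.not_lt_zero _)⟩
      | succ N ih =>
        intro s h
        by_cases hs : ∃ c, s ∈ face c
        · obtain ⟨k, hk, h1⟩ := ih (m (π s)) fun ⟨c', hc'⟩ => by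
            obtain ⟨c, hc⟩ := hs
            have h2 := buas0_mu_lt (πl c s hc).2 ((A (π s).1).comp (π s).2
              ((F4 _).1 ⟨_, πm c s hc⟩) ((F4 (m (π s))).1 ⟨c', hc'⟩)) (πl c' _ hc').2
              (rk c s hc) (rk c' _ hc')
            exact lt_of_lt_of_le h2 (Nat.lt_succ_iff.1 (h ⟨c, hc⟩))
          exact ⟨k + 1, by omega, h1⟩
        · exact ⟨0, Nat.zero_le _, hs⟩
    obtain ⟨k, hk, h1⟩ := key (2 * l + 4) s fun ⟨c, hc⟩ => buas0_mu_le (rk c s hc)
    exact ⟨k, by omega, h1⟩
  · rintro ⟨x, s⟩ ⟨y, t⟩ (rfl : x = y)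
    exact ((A x).conn s t).lift (Sigma.mk x) fun a b h =>
      h.imp (congrArg (Sigma.mk x)) (congrArg (Sigma.mk x))
  · rintro ⟨k, rfl⟩
    exact dj _ _ _ (nxm _ s k h.choose_spec) h'.choose_spec
  · obtain ⟨s, hs⟩ := List.exists_mem_of_ne_nil _ (cy c).ne_nil
    exact ⟨s, ⟨c, hs⟩, cs _ _ _ hs⟩
  · have h1 := (A x).euler
    rw [← buas0_card (A x), List.length_map] at h1
    rw [flt0, @flt x (fun s => s.1 = x ∧ ∃ c, s ∈ face c) (fun s => s.2 ∈ (A s.1).fs.flatten) (_) _
      fun s => and_congr_right fun _ => F4 s,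
      Finset.card_map, Finset.card_map, Finset.sum_map, Finset.card_univ]
    exact h1
  · have h1 := buas0_size (A x)
    have h2 := buas0_len W hG.len (G.ord x)
    have h3 := Nat.mul_le_mul_right l (hn x)
    have h4 := hn x
    rw [List.length_map] at h1
    rw [flt0, Finset.card_map, Finset.card_univ]
    omega

end Pool.Agent.MC
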