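import Pool.Agent.P.MP_2677b3_gt.NfName

namespace Pool.Agent.MC.NF

variable {M : CMap} {H : M.D → Prop} {G : GS} {n K : ℕ} (g : GD M H G n K)

theorem nfg_cases (E : G.Ed) : (∃ x, ow G E = some x) ∨ ∃ c, E = .inr (.inr c) := by
  rcases E with a | a | c
  · exact .inl ⟨_, rfl⟩
  · exact .inl ⟨_, rfl⟩
  · exact .inr ⟨_, rfl⟩

theorem nfg_fin {A : Type} (l : List A) (a : A) {k : ℕ} (h : l.length = k) :
    ((List.finRange k).map fun i : Fin k => l.getD i a) = l := by
  subst h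
  refine List.ext_getElem (by simp) fun i h1 h2 => ?_
  simp

theorem nfg_prod {A B Γ : Type} [Group Γ] (l : List A) (f : A → List B) (χ : B → Γ) :
    ((l.flatMap f).map χ).prod = (l.map fun a => ((f a).map χ).prod).prod := by
  induction l with
  | nil => simp
  | cons a l ih => simp only [List.flatMap_cons, List.map_append, List.prod_append, ih,
      List.map_cons, List.prod_cons]

theorem GD.ge_eq {E : G.Ed} {x : G.X} (h : ow G E = some x) :
    g.ge E = sgn M.gd (pM M) ((g.rd x).Φ (g.nu E)) := by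
  rcases E with a | a | c
  · obtain rfl : a.1 = x := Option.some.inj h
    rfl
  · obtain rfl : G.own a.1 = x := Option.some.inj h
    rfl
  · cases h

theorem GD.nfg_src {E : G.Ed} {x : G.X} (h : ow G E = some x) :
    FM M (g.d₀ x) ((g.rd x).s (g.nu E)) = g.gv (G.src E) := by
  rcases (g.s_nu h).2 with ⟨h1, h2⟩ | ⟨c, h1, h2⟩
  · rw [h1, h2]; rfl
  · rw [h1, h2]; exact g.cd.src_β c

/-- The values of the letters of the normal form in the group of the map. -/
noncomputable def GD.nfgVal (x : G.X) (l : M.D ⊕ Bool) : M.gd.U :=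
  evs (fun l => M.gd.ev (pM M l)) ((g.rd x).Φ l)

theorem GD.nfg_val (x : G.X) : g.C.Compat (g.nfgVal x) ∧ Kill (g.W x, []) (g.nfgVal x) :=
  have h := (g.rd x).h2.val _ _ (compat_pM g.lab.Hα) (kill_pM g.lab.Hα (g.d₀ x))
  ⟨h.1, h.2.1⟩

theorem GD.nfg_ev {E : G.Ed} {x : G.X} (h : ow G E = some x) :
    M.gd.ev (g.ge E) = g.nfgVal x (g.nu E) := by
  rw [g.ge_eq h, ev_sgn]; rfl

theorem GD.nfg_cyc (x : G.X) (c : G.C) :
    (((cyc M H (g.cd.β c)).map Sum.inl).map (g.nfgVal x)).prod = M.gd.ev (cyc M H (g.cd.β c)) := by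
  rw [List.map_map, Gd.ev]
  refine congrArg List.prod (List.map_congr_left fun d hd => ?_)
  have h : H d := ((mem_cyc g.lab (g.cd.β_H c)).1 hd).1
  show evs _ ((g.rd x).Φ (.inl d)) = _
  rw [(g.rd x).h2.idH (.inl d) h, evs_cons_true, evs_nil, mul_one]
  exact mul_one _

theorem GD.ge_path (E : G.Ed) :
    M.gd.Path (g.gv (G.src E)) (g.ge E) (g.gv (G.src (G.inv E))) := by
  rcases nfg_cases E with ⟨x, h⟩ | ⟨c, rfl⟩
  · rw [g.ge_eq h, ← g.nfg_src h, ← g.nfg_src (g.nu_inv h).1, ← (g.s_nu h).1]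
    exact ((g.rd x).tΦ _ (g.nu_mem h).1).sgn (FM M (g.d₀ x)) fun u _ => path_pM _ _
  · have e : Quotient.mk G.st (G.bar c) = Quotient.mk G.st c :=
      (Quotient.sound (s := G.st) (Or.inr rfl)).symm
    show M.gd.Path (g.cd.cv (Quotient.mk _ c)) (cyc M H (g.cd.β c))
      (g.cd.cv (Quotient.mk _ (G.bar c)))
    rw [e, ← g.cd.src_β c]
    exact path_cyc g.lab (g.cd.β_H c)

theorem GD.ge_len (E : G.Ed) : (g.ge E).length ≤ K := by
  rcases nfg_cases E with ⟨x, h⟩ | ⟨c, rfl⟩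
  · rw [g.ge_eq h]
    exact (length_sgn length_pM _).trans ((g.rd x).h2.len _)
  · exact (length_cyc g.lab (g.cd.β_H c)).trans g.nK

theorem GD.ge_inv (E : G.Ed) : M.gd.ev (g.ge (G.inv E)) = (M.gd.ev (g.ge E))⁻¹ := by
  rcases nfg_cases E with ⟨x, h⟩ | ⟨c, rfl⟩
  · rw [g.nfg_ev h, g.nfg_ev (g.nu_inv h).1, (g.nu_inv h).2]
    exact (g.nfg_val x).1 _ (g.nu_mem h).2
  · show M.gd.ev (cyc M H (g.cd.β (G.bar c))) = (M.gd.ev (cyc M H (g.cd.β c)))⁻¹
    rw [← g.cd.rev_cyc c, Gd.ev_rev]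

theorem GD.ge_rel (x : G.X) : M.gd.ev ((G.rel x).flatMap g.ge) = 1 := by
  obtain ⟨hc, hk, -⟩ := g.nfg_val x
  have e := (prod_word hc (g.rd x).shape).symm.trans hk
  rw [List.map_append, List.prod_append, List.map_map, List.map_map] at e
  have e3 : ((g.pend x).map ((fun u : (M.D ⊕ Bool) × List (M.D ⊕ Bool) =>
      g.nfgVal x u.1 * (u.2.map (g.nfgVal x)).prod * (g.nfgVal x u.1)⁻¹) ∘
        fun p => (p, []))).prod = 1 :=
    List.prod_eq_one fun y hy => by
      obtain ⟨p, -, rfl⟩ := List.mem_map.1 hy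
      simp
  rw [e3, mul_one, ← nfg_fin (g.hs x) (.inr true, .inr true) (g.hlen x), List.map_map] at e
  rw [Gd.ev_flatMap, GS.rel, List.map_append, List.prod_append, nfg_prod, nfg_prod, ← e]
  refine congrArg₂ (· * ·) (congrArg List.prod (List.map_congr_left fun i _ => ?_))
    (congrArg List.prod (List.map_congr_left fun c hc => ?_))
  · have a1 := g.ge_inv (.inl ⟨x, i, true, true⟩)
    have a2 := g.ge_inv (.inl ⟨x, i, false, true⟩)
    have b1 := g.nfg_ev (E := .inl ⟨x, i, true, true⟩) rfl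
    have b2 := g.nfg_ev (E := .inl ⟨x, i, false, true⟩) rfl
    simp only [GS.inv, Bool.not_true] at a1 a2
    simp only [List.map_cons, List.map_nil, List.prod_cons, List.prod_nil, a1, a2, b1, b2,
      mul_one, Function.comp, mul_assoc]
    rfl
  · have a1 := g.ge_inv (.inr (.inl (c, true)))
    have b1 := g.nfg_ev (E := .inr (.inl (c, true))) (x := x)
      (congrArg some ((G.mem_ord x c).1 hc))
    simp only [GS.inv, Bool.not_true] at a1
    simp only [List.map_cons, List.map_nil, List.prod_cons, List.prod_nil, a1, b1,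
      mul_one, Function.comp, mul_assoc, g.nfg_cyc]
    rfl

end Pool.Agent.MC.NF
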