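import Pool.Agent.P.MP_2677b3_gt.NfF
import Pool.Agent.P.MP_2677b3_gt.NfG

namespace Pool.Agent.MC.NF

variable {M : CMap} {H : M.D → Prop} {G : GS} {n K : ℕ} (g : GD M H G n K)

open Classical in
/-- The connecting paths of the homotopy. -/
noncomputable def nfb1_eta (v : M.gd.V) : List M.gd.E :=
  if ∃ d, H d ∧ M.gd.src d = v then g.cd.η v else
    if h : ∃ xp : G.X × (M.D ⊕ Bool), xp.2 ∈ g.pend xp.1 ∧ (g.rd xp.1).t xp.2 = some (.inr v) then
      M.gd.rev (sgn M.gd (pM M) ((g.rd h.choose.1).Φ h.choose.2))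
    else []

theorem nfb1_eta_H {d : M.D} (h : H d) : nfb1_eta g (M.gd.src d) = g.cd.η (M.gd.src d) := by
  unfold nfb1_eta
  rw [if_pos ⟨d, h, rfl⟩]

theorem nfb1_no_H {d : M.D} (hi : ∀ k : ℕ, ¬ H (M.ψ^[k] d)) :
    ¬ ∃ d', H d' ∧ M.gd.src d' = M.gd.src d := by
  rintro ⟨d', h, e⟩
  obtain ⟨k, hk⟩ := src_eq_iff.1 e.symm
  exact hi k (hk ▸ h)

theorem nfb1_uniq {x x' : G.X} {p p' : M.D ⊕ Bool} {v : M.gd.V} (hp : p ∈ g.pend x)
    (ht : (g.rd x).t p = some (.inr v)) (hp' : p' ∈ g.pend x')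
    (ht' : (g.rd x').t p' = some (.inr v)) : (g.rd x').Φ p' = (g.rd x).Φ p := by
  obtain ⟨-, -, -, d, hd, hi, e⟩ := g.s_pend hp
  obtain ⟨-, -, -, d', hd', -, e'⟩ := g.s_pend hp'
  have e1 : M.gd.src d = v := by
    rw [ht] at e
    exact (Sum.inr.inj (Option.some.inj e)).symm
  have e2 : M.gd.src d' = v := by
    rw [ht'] at e'
    exact (Sum.inr.inj (Option.some.inj e')).symm
  have hx : x = x' := by
    rw [← hd, ← hd']
    exact reg_inner g.lab hi (e1.trans e2.symm)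
  subst hx
  have : p = p' := (g.rd x).tip_inj (g.empty_seg.2 hp) (g.empty_seg.2 hp') (ht.trans ht'.symm)
  rw [this]

theorem nfb1_eta_pend {x : G.X} {p : M.D ⊕ Bool} {v : M.gd.V} (hp : p ∈ g.pend x)
    (ht : (g.rd x).t p = some (.inr v)) :
    nfb1_eta g v = M.gd.rev (sgn M.gd (pM M) ((g.rd x).Φ p)) := by
  have hno : ¬ ∃ d, H d ∧ M.gd.src d = v := by
    obtain ⟨-, -, -, d, -, hi, e⟩ := g.s_pend hp
    have e1 : M.gd.src d = v := by
      rw [ht] at e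
      exact (Sum.inr.inj (Option.some.inj e)).symm
    rw [← e1]
    exact nfb1_no_H hi
  have hex : ∃ xp : G.X × (M.D ⊕ Bool),
      xp.2 ∈ g.pend xp.1 ∧ (g.rd xp.1).t xp.2 = some (.inr v) := ⟨(x, p), hp, ht⟩
  unfold nfb1_eta
  rw [if_neg hno, dif_pos hex, nfb1_uniq g hp ht hex.choose_spec.1 hex.choose_spec.2]

theorem nfb1_pend_mem {x : G.X} {p : M.D ⊕ Bool} (hp : p ∈ g.pend x) : p ∈ g.W x :=
  mem_word.2 (Or.inr ⟨(p, []), g.empty_seg.2 hp, Or.inl rfl⟩)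

theorem nfb1_path (v : M.gd.V) :
    M.gd.Path v (nfb1_eta g v) (g.gv (g.fv v)) ∧ (nfb1_eta g v).length ≤ K := by
  by_cases h : ∃ d, H d ∧ M.gd.src d = v
  · have e1 : nfb1_eta g v = g.cd.η v := by
      unfold nfb1_eta
      rw [if_pos h]
    have e2 : g.fv v = .inr (Quotient.mk _ (g.lab.cuf h.choose h.choose_spec.1)) := by
      unfold GD.fv
      rw [dif_pos h]
    rw [e1, e2]
    refine ⟨?_, (g.cd.η_len v).trans g.nK⟩
    have key : ∀ d (hd : H d), M.gd.src d = v →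
        M.gd.Path v (g.cd.η v) (g.cd.cv (Quotient.mk _ (g.lab.cuf d hd))) := by
      rintro d hd rfl
      exact g.cd.η_path d hd
    exact key _ h.choose_spec.1 h.choose_spec.2
  · have e2 : g.fv v = .inl (g.lab.reg (Quotient.out v)) := by
      unfold GD.fv
      rw [dif_neg h]
    have hv : M.gd.src (Quotient.out v) = v := Quotient.out_eq v
    have hi : ∀ k : ℕ, ¬ H (M.ψ^[k] (Quotient.out v)) := fun k hk =>
      h ⟨_, hk, (src_eq_iff.2 ⟨k, rfl⟩).symm.trans hv⟩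
    obtain ⟨p, hp, ht0⟩ := (g.rd (g.lab.reg (Quotient.out v))).tip_surj
      ((g.same_iff _ _).2 rfl) hi
    have ht := ht0.trans (congrArg (fun w => (some (Sum.inr w) : OV M)) hv)
    have hp' := g.empty_seg.1 hp
    rw [e2, nfb1_eta_pend g hp' ht]
    constructor
    · have h1 := (g.rd _).tΦ p (nfb1_pend_mem g hp')
      rw [(g.s_pend hp').1, ht] at h1
      exact (h1.sgn (A := M.gd) (π := pM M) (FM M _) fun u _ => path_pM _ u.1).rev
    · rw [Gd.length_rev]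
      exact (length_sgn length_pM _).trans ((g.rd _).h2.len p)

/-- The gauge function on the vertices of the cut surface. -/
noncomputable def nfb1_th : OV M → M.gd.U
  | none => 1
  | some (.inl b) => M.gd.ev (nfb1_eta g (M.gd.src b))
  | some (.inr v) => M.gd.ev (nfb1_eta g v)

theorem nfb1_th_cs (d : M.D) :
    nfb1_th g (some (cs M H d)) = M.gd.ev (nfb1_eta g (M.gd.src d)) := by
  rcases cs_cases (H := H) d with ⟨β, -, -, e, h⟩ | ⟨-, h⟩
  · rw [h, ← e]; rfl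
  · rw [h]; rfl

theorem nfb1_th_nu {E : G.Ed} {x : G.X} (h : ow G E = some x) :
    nfb1_th g ((g.rd x).s (g.nu E)) = 1 := by
  rcases (g.s_nu h).2 with ⟨e, -⟩ | ⟨c, e, -⟩
  · rw [e]; rfl
  · rw [e]
    change M.gd.ev (nfb1_eta g (M.gd.src (g.cd.β c))) = 1
    rw [nfb1_eta_H g (g.cd.β_H c), g.cd.η_base]

theorem nfb1_letter {x : G.X} {l : M.D ⊕ Bool} (hl : l ∈ g.W x) :
    nfb1_th g ((g.rd x).s l) * M.gd.ev ((g.pG x l).flatMap g.ge) =
      evs (fun l => M.gd.ev (pM M l)) ((g.rd x).Φ l) * nfb1_th g ((g.rd x).t l) := by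
  classical
  have hval := (g.rd x).h2.val M.gd.U (fun l => M.gd.ev (pM M l)) (compat_pM g.lab.Hα)
    (kill_pM g.lab.Hα _)
  rcases g.mem_W hl with ⟨E, hE, rfl⟩ | ⟨d, rfl, hd, -⟩ | ⟨p, hp, hl'⟩
  · rw [(g.s_nu hE).1, nfb1_th_nu g hE, nfb1_th_nu g (g.nu_inv hE).1, g.pG_nu hE, one_mul,
      mul_one, List.flatMap_singleton, g.ge_eq hE, ev_sgn]
  · obtain ⟨h1, h2⟩ := (g.rd x).agree d hd
    obtain ⟨h3, -, h4⟩ := bd_H g.lab.Hα hd
    have h5 : (g.rd x).Φ (.inl d) = [(.inl d, true)] := (g.rd x).h2.idH (.inl d) hd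
    rw [h1, h2, h5, g.pG_H x hd]
    change M.gd.ev (nfb1_eta g (M.gd.src d)) * _ =
      _ * M.gd.ev (nfb1_eta g (M.gd.src (M.bd H d)))
    rw [nfb1_eta_H g hd, nfb1_eta_H g h3, h4, evs_cons_true, evs_nil, mul_one]
    have h6 := g.cd.η_step d hd
    have h7 : M.gd.ev (pM M (.inl d)) = M.gd.val d := by
      change M.gd.ev [d] = _
      rw [Gd.ev_cons, Gd.ev_nil, mul_one]
    rw [h7, ← h6]
    by_cases hm : g.cd.mark d
    · rw [if_pos hm, if_pos hm]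
      exact congrArg (fun w => _ * M.gd.ev w) (List.flatMap_singleton g.ge _)
    · rw [if_neg hm, if_neg hm]; rfl
  · obtain ⟨h1, h2, h3, d, -, -, h4⟩ := g.s_pend hp
    obtain ⟨h5, h6, h7⟩ := g.pG_pend hp
    have h8 : nfb1_th g ((g.rd x).t p) =
        (evs (fun l => M.gd.ev (pM M l)) ((g.rd x).Φ p))⁻¹ := by
      have h9 := nfb1_eta_pend g hp h4
      rw [h4]
      change M.gd.ev (nfb1_eta g (M.gd.src d)) = _
      rw [h9, Gd.ev_rev, ev_sgn]
    rcases hl' with rfl | rfl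
    · rw [h1, h6, h8, mul_inv_cancel]
      change (1 : M.gd.U) * 1 = 1
      rw [mul_one]
    · have h9 : evs (fun l => M.gd.ev (pM M l)) ((g.rd x).Φ (g.C.ι p)) =
          (evs (fun l => M.gd.ev (pM M l)) ((g.rd x).Φ p))⁻¹ := hval.1 p h5
      rw [h2, h3, h7, h8, h9]
      rfl

theorem GD.back1 : ∃ η : M.gd.V → List M.gd.E,
    (∀ v, M.gd.Path v (η v) (g.gv (g.fv v)) ∧ (η v).length ≤ K) ∧
      ∀ d : M.D, M.gd.ev (η (M.gd.src d)) * M.gd.ev ((g.fe d).flatMap g.ge) =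
        M.gd.val d * M.gd.ev (η (M.gd.tgt d)) := by
  refine ⟨nfb1_eta g, nfb1_path g, fun d => ?_⟩
  have hmem : Sum.inl d ∈ lets (st0 M H (g.d₀ (g.lab.reg d))) :=
    (mem_st0 _ _).2 (Or.inr ⟨d, rfl, (g.same_iff _ _).2 rfl⟩)
  have hval := (g.rd (g.lab.reg d)).h2.val M.gd.U (fun l => M.gd.ev (pM M l))
    (compat_pM g.lab.Hα) (kill_pM g.lab.Hα _)
  have h1 := ((g.rd (g.lab.reg d)).tΨ _ hmem).gauge (nfb1_th g)
    (fun l => M.gd.ev ((g.pG (g.lab.reg d) l).flatMap g.ge))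
    (fun l => evs (fun l => M.gd.ev (pM M l)) ((g.rd (g.lab.reg d)).Φ l))
    (fun u hu => nfb1_letter g (by
      have := (g.rd (g.lab.reg d)).h1.sup _ hmem u hu
      simpa [lets] using this))
  rw [hval.2.2 _ hmem] at h1
  have h2 : M.gd.ev ((g.fe d).flatMap g.ge) =
      evs (fun l => M.gd.ev ((g.pG (g.lab.reg d) l).flatMap g.ge))
        ((g.rd (g.lab.reg d)).Ψ (.inl d)) :=
    ev_sgn_flatMap (A := G.gd) (B := M.gd) (g.pG (g.lab.reg d)) g.ge g.ge_inv _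
  have h3 : M.gd.ev (pM M (.inl d)) = M.gd.val d := by
    change M.gd.ev [d] = _
    rw [Gd.ev_cons, Gd.ev_nil, mul_one]
  rw [h2, ← nfb1_th_cs, ← src_φ, ← nfb1_th_cs, ← h3]
  exact h1

end Pool.Agent.MC.NF
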