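import Pool.Agent.P.MP_2677b3_gt.NfF
import Pool.Agent.P.MP_2677b3_gt.NfG

namespace Pool.Agent.MC.NF

variable {M : CMap} {H : M.D → Prop} {G : GS} {n K : ℕ} (g : GD M H G n K)

/-- The connecting paths on the side of `G`. -/
noncomputable def GD.nfb2_z : G.X ⊕ Quotient G.st → List G.gd.E
  | .inl x => sgn G.gd (g.pG x) ((g.rd x).Ψ (.inr true))
  | .inr _ => []

theorem GD.nfb2_named {E : G.Ed} {x : G.X} (h : ow G E = some x) :
    G.gd.ev (g.nfb2_z (G.src E)) * G.gd.ev ((g.ge E).flatMap g.fe) =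
      G.gd.val E * G.gd.ev (g.nfb2_z (G.src (G.inv E))) := by
  obtain ⟨c1, -, c3⟩ := (g.rd x).h1.val _ _ (g.compatG x) (g.killG x)
  have hm : g.nu E ∈ lets (g.W x, []) := by simpa [lets] using (g.nu_mem h).1
  let θ : OV M → G.gd.U := fun o => o.elim (G.gd.ev (g.nfb2_z (.inl x))) fun _ => 1
  have hθ : ∀ E', ow G E' = some x → θ ((g.rd x).s (g.nu E')) = G.gd.ev (g.nfb2_z (G.src E')) := by
    intro E' h'
    rcases (g.s_nu h').2 with ⟨h1, h2⟩ | ⟨c, h1, h2⟩ <;> rw [h1, h2] <;> rfl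
  have hz : G.gd.ev (g.nfb2_z (.inl x)) =
      evs (fun l => G.gd.ev (g.pG x l)) ((g.rd x).Ψ (.inr true)) := ev_sgn _ _ _
  have key := ((g.rd x).tΦ _ (g.nu_mem h).1).gauge θ (fun l => G.gd.ev ((pM M l).flatMap g.fe))
    (fun l => evs (fun l => G.gd.ev (g.pG x l)) ((g.rd x).Ψ l)) (fun u hu => by
      rcases (mem_st0 _ _).1 ((g.rd x).h2.sup _ hm u hu) with ⟨b, hb⟩ | ⟨d, hd, hs⟩
      · rw [hb]
        cases b
        · have := c1 (.inr true) not_false
          change 1 * 1 = _ * G.gd.ev (g.nfb2_z (.inl x))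
          rw [hz, mul_one]
          exact (inv_mul_cancel _).symm.trans (congrArg (· * _) this.symm)
        · exact congrArg (· * 1) hz
      · rw [hd]
        change 1 * G.gd.ev ([d].flatMap g.fe) = _ * 1
        rw [one_mul, mul_one, List.flatMap_singleton, g.fe_eq ((g.same_iff x d).1 hs), ev_sgn])
  rw [c3 _ hm, g.pG_nu h, (g.s_nu h).1, hθ _ h, hθ _ (g.nu_inv h).1] at key
  rw [g.ge_eq h]
  exact (congrArg (_ * ·) (ev_sgn_flatMap (A := M.gd) (pM M) g.fe g.fe_inv _)).trans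
    (key.trans (congrArg (· * _) ((Gd.ev_cons (A := G.gd) E []).trans (mul_one _))))

theorem GD.back2 : ∃ ζ : G.gd.V → List G.gd.E,
    (∀ v, G.gd.Path v (ζ v) (g.fv (g.gv v)) ∧ (ζ v).length ≤ K) ∧
      ∀ E : G.Ed, G.gd.ev (ζ (G.gd.src E)) * G.gd.ev ((g.ge E).flatMap g.fe) =
        G.gd.val E * G.gd.ev (ζ (G.gd.tgt E)) := by
  refine ⟨g.nfb2_z, ?_, fun E => ?_⟩
  · rintro (x | q)
    · have hm : Sum.inr true ∈ lets (st0 M H (g.d₀ x)) := (mem_st0 _ _).2 (.inl ⟨_, rfl⟩)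
      refine ⟨?_, (length_sgn (g.length_pG x) _).trans ((g.rd x).h1.len _)⟩
      have h1 := ((g.rd x).tΨ _ hm).sgn (g.FG x) fun u hu =>
        g.pathG (by simpa [lets] using (g.rd x).h1.sup _ hm u hu)
      have h2 := g.fv_cs (g.d₀ x)
      rw [g.hd₀] at h2
      change G.gd.Path _ _ (g.fv (M.gd.src (g.d₀ x)))
      rw [← h2]
      exact h1
    · obtain ⟨c, rfl⟩ := Quotient.exists_rep q
      refine ⟨?_, Nat.zero_le _⟩
      change Sum.inr _ = g.fv (g.cd.cv _)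
      rw [← g.cd.src_β, ← g.fv_cs, cs_of_H (g.cd.β_H c)]
      rw [g.FG_H _ (g.cd.β_H c), g.cd.β_cuf]
  · rcases E with a | a | c
    · exact g.nfb2_named rfl
    · exact g.nfb2_named rfl
    · change 1 * G.gd.ev ((cyc M H (g.cd.β c)).flatMap g.fe) = _ * 1
      rw [one_mul, mul_one, Gd.ev_flatMap, ← g.prod_cyc (G.own c) c]
      congr 1
      exact List.map_congr_left fun d hd => by
        rw [g.fe_H ((mem_cyc g.lab (g.cd.β_H c)).1 hd).1 (G.own c)]

end Pool.Agent.MC.NF
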