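import Pool.Agent.P.MP_2677b3_gt.NfLab0

namespace Pool.Agent.MC.NF

variable {M : CMap} {H : M.D → Prop} {G : GS} {n : ℕ}

open Classical in
/-- Extension of the cuff function by a junk value. -/
noncomputable def toLab0 (lab : Lab M H G n) (j : G.C) : Lab0 M H G n where
  reg := lab.reg
  cuf := fun d => if h : H d then lab.cuf d h else j
  Hα := lab.Hα
  simple := lab.simple
  reg_iff := lab.reg_iff
  cuf_iff := fun d d' h h' => by rw [dif_pos h, dif_pos h']; exact lab.cuf_iff d d' h h'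
  cuf_surj := fun c => by
    obtain ⟨d, h, e⟩ := lab.cuf_surj c
    exact ⟨d, h, by rw [dif_pos h, e]⟩
  cuf_α := fun d h => by rw [dif_pos h, dif_pos (lab.Hα d h)]; exact lab.cuf_α d h
  own_cuf := fun d h => by rw [dif_pos h]; exact lab.own_cuf d h
  size := lab.size

theorem toLab0_cuf (lab : Lab M H G n) (j : G.C) {d : M.D} (h : H d) :
    (toLab0 lab j).cuf d = lab.cuf d h := dif_pos h

theorem cuf_congr (lab : Lab M H G n) {d d' : M.D} (e : d = d') (h : H d) (h' : H d') :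
    lab.cuf d h = lab.cuf d' h' := by
  subst e; rfl

theorem reg_φ (lab : Lab M H G n) (d : M.D) : lab.reg (M.φ d) = lab.reg d := by
  exact ((lab.reg_iff d _).2 (same_φ Relation.ReflTransGen.refl)).symm

theorem reg_α (lab : Lab M H G n) {d : M.D} (h : ¬ H d) : lab.reg (M.α d) = lab.reg d := by
  exact ((lab.reg_iff d _).2 (same_α Relation.ReflTransGen.refl h)).symm

theorem reg_inner (lab : Lab M H G n) {d d' : M.D} (hi : ∀ k : ℕ, ¬ H (M.ψ^[k] d))
    (e : M.gd.src d = M.gd.src d') : lab.reg d = lab.reg d' := by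
  obtain ⟨k, rfl⟩ := src_eq_iff.1 e
  refine (lab.reg_iff _ _).2 ?_
  clear e
  induction k with
  | zero => exact Relation.ReflTransGen.refl
  | succ k ih =>
    rw [Function.iterate_succ_apply']
    exact same_φ (same_α ih (hi k))

theorem cuf_bd (lab : Lab M H G n) {d : M.D} (h : H d) :
    lab.cuf (M.bd H d) (bd_H lab.Hα h).1 = lab.cuf d h :=
  ((lab.cuf_iff d _ h (bd_H lab.Hα h).1).2 ⟨1, rfl⟩).symm

theorem period_pos (lab : Lab M H G n) {d : M.D} (h : H d) :
    0 < Function.minimalPeriod (M.bd H) d := Z.period_pos (toLab0 lab (lab.cuf d h)) h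

theorem mem_cyc (lab : Lab M H G n) {d d' : M.D} (h : H d) :
    d' ∈ cyc M H d ↔ ∃ h' : H d', lab.cuf d' h' = lab.cuf d h := by
  rw [Z.mem_cyc (toLab0 lab (lab.cuf d h)) h, toLab0_cuf lab _ h]
  constructor
  · rintro ⟨h', e⟩
    exact ⟨h', by rw [← e, toLab0_cuf lab _ h']⟩
  · rintro ⟨h', e⟩
    exact ⟨h', by rw [toLab0_cuf lab _ h', e]⟩

theorem length_cyc (lab : Lab M H G n) {d : M.D} (h : H d) : (cyc M H d).length ≤ n :=
  Z.length_cyc (toLab0 lab (lab.cuf d h)) h

theorem path_cyc (lab : Lab M H G n) {d : M.D} (h : H d) :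
    M.gd.Path (M.gd.src d) (cyc M H d) (M.gd.src d) := Z.path_cyc (toLab0 lab (lab.cuf d h)) h

theorem vtx_cuf (lab : Lab M H G n) {d d' : M.D} (h : H d) (h' : H d')
    (e : M.gd.src d = M.gd.src d') :
    Quotient.mk G.st (lab.cuf d h) = Quotient.mk G.st (lab.cuf d' h') := by
  have := Z.vtx_cuf (toLab0 lab (lab.cuf d h)) h h' e
  rwa [toLab0_cuf lab _ h, toLab0_cuf lab _ h'] at this

end Pool.Agent.MC.NF
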