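import Pool.Agent.P.MP_2677b3_gt.NfCuff0
import Pool.Agent.P.MP_2677b3_gt.NfLab

namespace Pool.Agent.MC.NF

theorem exists_cuffD {M : CMap} {H : M.D → Prop} {G : GS} {n : ℕ} (lab : Lab M H G n) :
    Nonempty (CuffD lab) := by
  classical
  rcases isEmpty_or_nonempty G.C with he | ⟨⟨j⟩⟩
  · exact ⟨{ β := fun c => he.elim c
             mark := fun _ => False
             η := fun _ => []
             cv := fun q => he.elim q.out
             β_H := fun c => he.elim c
             β_cuf := fun c => he.elim c
             rev_cyc := fun c => he.elim c
             src_β := fun c => he.elim c
             mark_α := fun _ _ => Iff.rfl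
             mark_one := fun c => he.elim c
             η_path := fun d h => he.elim (lab.cuf d h)
             η_len := fun _ => Nat.zero_le _
             η_base := fun c => he.elim c
             η_step := fun d h => he.elim (lab.cuf d h) }⟩
  · obtain ⟨cd⟩ := Z.exists_cuffD (toLab0 lab j)
    exact ⟨{ β := cd.β
             mark := cd.mark
             η := cd.η
             cv := cd.cv
             β_H := cd.β_H
             β_cuf := fun c => (toLab0_cuf lab j (cd.β_H c)).symm.trans (cd.β_cuf c)
             rev_cyc := cd.rev_cyc
             src_β := cd.src_β
             mark_α := cd.mark_α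
             mark_one := cd.mark_one
             η_path := fun d h => toLab0_cuf lab j h ▸ cd.η_path d h
             η_len := cd.η_len
             η_base := cd.η_base
             η_step := fun d h => toLab0_cuf lab j h ▸ cd.η_step d h }⟩

end Pool.Agent.MC.NF
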