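import Pool.Agent.P.MP_2677b3_gt.NfDefs

namespace Pool.Agent.MC.NF

variable {L V : Type} {C : Ctx L} {hs : List (L × L)} {sg : List (L × List L)}

theorem not_H_ι {d : L} (h : ¬ C.H d) : ¬ C.H (C.ι d) := by
  intro h1
  exact h (C.ιι d ▸ C.Hι _ h1)

theorem nfword_t {s t : L → V} (hc : ∀ d, ¬ C.H d → t d = s (C.ι d)) {d : L} (h : ¬ C.H d) :
    t (C.ι d) = s d := by
  rw [hc _ (not_H_ι h), C.ιι]

theorem nfword_hs {s t : L → V} {y z : V} {R : List L}
    (hsh : ∀ u ∈ hs, ¬ C.H u.1 ∧ ¬ C.H u.2) (hc : ∀ d, ¬ C.H d → t d = s (C.ι d))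
    (h : IsPath s t y (hs.flatMap (fun u => [u.1, u.2, C.ι u.1, C.ι u.2]) ++ R) z) :
    (∀ u ∈ hs, s u.1 = y ∧ t u.1 = y ∧ s u.2 = y ∧ t u.2 = y) ∧ IsPath s t y R z := by
  induction hs with
  | nil => exact ⟨by simp, h⟩
  | cons u hs ih =>
    obtain ⟨ha, hb⟩ := hsh u List.mem_cons_self
    obtain ⟨h1, h2, h3, h4, h5⟩ : s u.1 = y ∧ s u.2 = t u.1 ∧ s (C.ι u.1) = t u.2 ∧
      s (C.ι u.2) = t (C.ι u.1) ∧ IsPath s t (t (C.ι u.2))
        (hs.flatMap (fun u => [u.1, u.2, C.ι u.1, C.ι u.2]) ++ R) z := h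
    have e2 : t u.2 = y := by rw [hc _ hb, h4, nfword_t hc ha, h1]
    have e1 : t u.1 = y := by rw [hc _ ha, h3, e2]
    rw [nfword_t hc hb, h2, e1] at h5
    obtain ⟨k1, k2⟩ := ih (fun v hv => hsh v (List.mem_cons_of_mem _ hv)) h5
    exact ⟨List.forall_mem_cons.2 ⟨⟨h1, e1, h2.trans e1, e2⟩, k1⟩, k2⟩

theorem nfword_sg {s t : L → V} {y z : V} {R : List L}
    (hsh : ∀ u ∈ sg, ¬ C.H u.1 ∧ ∀ d ∈ u.2, C.H d) (hc : ∀ d, ¬ C.H d → t d = s (C.ι d))
    (h : IsPath s t y (sg.flatMap (fun u => u.1 :: u.2 ++ [C.ι u.1]) ++ R) z) :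
    (∀ u ∈ sg, s u.1 = y ∧ IsPath s t (t u.1) u.2 (t u.1)) ∧ IsPath s t y R z := by
  induction sg with
  | nil => exact ⟨by simp, h⟩
  | cons u sg ih =>
    have ha := (hsh u List.mem_cons_self).1
    simp only [List.flatMap_cons, List.cons_append, List.append_assoc, List.nil_append,
      isPath_cons] at h
    obtain ⟨h1, h2⟩ := h
    obtain ⟨w, h3, h4, h5⟩ := isPath_append.1 h2
    rw [← h4, ← hc _ ha] at h3
    rw [nfword_t hc ha, h1] at h5
    obtain ⟨k1, k2⟩ := ih (fun v hv => hsh v (List.mem_cons_of_mem _ hv))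
      (by simpa only [List.cons_append] using h5)
    exact ⟨List.forall_mem_cons.2 ⟨⟨h1, h3⟩, k1⟩, k2⟩

theorem nfword_loop {E : Type} {s t : L → V} {y : V} (f : E → List L) (p : List E)
    (h : ∀ u ∈ p, IsPath s t y (f u) y) : IsPath s t y (p.flatMap f) y :=
  IsPath.flatMap (s := fun _ => ()) (t := fun _ => ()) (x := ()) (y := ()) (fun _ => y) f h (by
    clear h
    induction p with
    | nil => rfl
    | cons u p ih => exact ⟨rfl, ih⟩)

theorem typ_word {s t : L → V} {y z : V} {R : List L} (hsh : C.Shape hs sg)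
    (hc : ∀ d, ¬ C.H d → t d = s (C.ι d)) (h : IsPath s t y (C.word hs sg ++ R) z) :
    (∀ u ∈ hs, s u.1 = y ∧ t u.1 = y ∧ s u.2 = y ∧ t u.2 = y) ∧
      (∀ u ∈ sg, s u.1 = y ∧ IsPath s t (t u.1) u.2 (t u.1)) ∧ IsPath s t y R z := by
  rw [Ctx.word, List.append_assoc] at h
  obtain ⟨h1, h2⟩ := nfword_hs hsh.1 hc h
  exact ⟨h1, nfword_sg hsh.2 hc h2⟩

theorem typ_word_mk {s t : L → V} {y : V} (hsh : C.Shape hs sg)
    (hc : ∀ d, ¬ C.H d → t d = s (C.ι d))
    (h1 : ∀ u ∈ hs, s u.1 = y ∧ t u.1 = y ∧ s u.2 = y ∧ t u.2 = y)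
    (h2 : ∀ u ∈ sg, s u.1 = y ∧ IsPath s t (t u.1) u.2 (t u.1)) :
    IsPath s t y (C.word hs sg) y := by
  refine IsPath.append (nfword_loop _ _ fun u hu => ?_) (nfword_loop _ _ fun u hu => ?_)
  · obtain ⟨a1, a2, a3, a4⟩ := h1 u hu
    obtain ⟨ha, hb⟩ := hsh.1 u hu
    refine ⟨a1, a3.trans a2.symm, ?_, ?_, ?_⟩
    · rw [← hc _ ha, a2, a4]
    · rw [← hc _ hb, nfword_t hc ha, a1, a4]
    · exact (nfword_t hc hb).trans a3
  · obtain ⟨a1, a2⟩ := h2 u hu
    have ha := (hsh.2 u hu).1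
    exact ⟨a1, a2.append ⟨(hc _ ha).symm, (nfword_t hc ha).trans a1⟩⟩

theorem mem_word {l : L} : l ∈ C.word hs sg ↔
    (∃ u ∈ hs, l = u.1 ∨ l = u.2 ∨ l = C.ι u.1 ∨ l = C.ι u.2) ∨
      ∃ u ∈ sg, l = u.1 ∨ l ∈ u.2 ∨ l = C.ι u.1 := by
  simp only [Ctx.word, List.mem_append, List.mem_flatMap, List.mem_cons, List.not_mem_nil,
    or_false, or_assoc]

theorem mem_word_H {l : L} (hsh : C.Shape hs sg) (hl : C.H l) :
    l ∈ C.word hs sg ↔ l ∈ sg.flatMap Prod.snd := by
  rw [mem_word, List.mem_flatMap]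
  constructor
  · rintro (⟨u, hu, h⟩ | ⟨u, hu, h⟩)
    · obtain ⟨ha, hb⟩ := hsh.1 u hu
      rcases h with rfl | rfl | rfl | rfl
      · exact absurd hl ha
      · exact absurd hl hb
      · exact absurd hl (not_H_ι ha)
      · exact absurd hl (not_H_ι hb)
    · have ha := (hsh.2 u hu).1
      rcases h with rfl | h | rfl
      · exact absurd hl ha
      · exact ⟨u, hu, h⟩
      · exact absurd hl (not_H_ι ha)
  · rintro ⟨u, hu, h⟩
    exact Or.inr ⟨u, hu, Or.inr (Or.inl h)⟩

theorem length_word : (C.word hs sg).length =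
    4 * hs.length + 2 * sg.length + (sg.flatMap Prod.snd).length := by
  have h1 : (hs.flatMap fun u => [u.1, u.2, C.ι u.1, C.ι u.2]).length = 4 * hs.length := by
    induction hs with
    | nil => rfl
    | cons u hs ih =>
      rw [List.flatMap_cons, List.length_append, ih]
      simp only [List.length_cons, List.length_nil]
      omega
  have h2 : (sg.flatMap fun u => u.1 :: u.2 ++ [C.ι u.1]).length =
      2 * sg.length + (sg.flatMap Prod.snd).length := by
    induction sg with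
    | nil => rfl
    | cons u sg ih =>
      rw [List.flatMap_cons, List.flatMap_cons, List.length_append, List.length_append,
        List.length_append, ih]
      simp only [List.length_cons, List.length_nil]
      omega
  rw [Ctx.word, List.length_append, h1, h2, Nat.add_assoc]

theorem nodup_snd (h : (C.word hs sg).Nodup) : (sg.flatMap Prod.snd).Nodup := by
  refine (List.Nodup.of_append_right h).sublist ?_
  clear h
  induction sg with
  | nil => exact List.Sublist.refl _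
  | cons u sg ih =>
    rw [List.flatMap_cons, List.flatMap_cons]
    exact ((List.sublist_cons_self _ _).trans (List.sublist_append_left _ _)).append ih

theorem nodup_fst (h : (C.word hs sg).Nodup) : (sg.map Prod.fst).Nodup := by
  refine (List.Nodup.of_append_right h).sublist ?_
  clear h
  induction sg with
  | nil => exact List.Sublist.refl _
  | cons u sg ih =>
    rw [List.flatMap_cons, List.map_cons, List.cons_append, List.cons_append]
    exact (ih.trans (List.sublist_append_right _ _)).cons_cons _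

theorem prod_word {Γ : Type} [Group Γ] {χ : L → Γ} (hχ : C.Compat χ) (hsh : C.Shape hs sg) :
    ((C.word hs sg).map χ).prod =
      (hs.map fun u => χ u.1 * χ u.2 * (χ u.1)⁻¹ * (χ u.2)⁻¹).prod *
        (sg.map fun u => χ u.1 * (u.2.map χ).prod * (χ u.1)⁻¹).prod := by
  obtain ⟨a1, a2⟩ := hsh
  rw [Ctx.word, List.map_append, List.prod_append]
  refine congrArg₂ _ ?_ ?_
  · induction hs with
    | nil => rfl
    | cons u hs ih =>
      obtain ⟨ha, hb⟩ := a1 u List.mem_cons_self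
      rw [List.flatMap_cons, List.map_append, List.prod_append,
        ih fun v hv => a1 v (List.mem_cons_of_mem _ hv)]
      simp [hχ _ ha, hχ _ hb, mul_assoc]
  · induction sg with
    | nil => rfl
    | cons u sg ih =>
      have ha := (a2 u List.mem_cons_self).1
      rw [List.flatMap_cons, List.map_append, List.prod_append,
        ih fun v hv => a2 v (List.mem_cons_of_mem _ hv)]
      simp [hχ _ ha, mul_assoc]

/-- The typing that marks the tip of one empty segment. -/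
theorem typ_mark (hsh : C.Shape hs sg) (hnd : (C.word hs sg).Nodup) {e : L} (he : (e, []) ∈ sg) :
    C.Typ (C.word hs sg, []) (fun l => l = C.ι e) (fun l => l = e) False := by
  have hc : ∀ d, ¬ C.H d → (d = e) = (C.ι d = C.ι e) := fun d _ =>
    propext ⟨congrArg _, fun h => by rw [← C.ιι d, h, C.ιι]⟩
  have hE := (hsh.2 _ he).1
  obtain ⟨-, n2, n3⟩ := List.nodup_append.1 hnd
  have m1 : e ∈ sg.flatMap fun u => u.1 :: u.2 ++ [C.ι u.1] :=
    List.mem_flatMap.2 ⟨_, he, by simp⟩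
  have m2 : C.ι e ∈ sg.flatMap fun u => u.1 :: u.2 ++ [C.ι u.1] :=
    List.mem_flatMap.2 ⟨_, he, by simp⟩
  refine ⟨hc, typ_word_mk (t := fun l => l = e) hsh hc (fun u hu => ?_) fun u hu => ?_, by simp⟩
  · have k1 : u.1 ∈ hs.flatMap fun u => [u.1, u.2, C.ι u.1, C.ι u.2] :=
      List.mem_flatMap.2 ⟨_, hu, by simp⟩
    have k2 : u.2 ∈ hs.flatMap fun u => [u.1, u.2, C.ι u.1, C.ι u.2] :=
      List.mem_flatMap.2 ⟨_, hu, by simp⟩
    exact ⟨eq_false (n3 _ k1 _ m2), eq_false (n3 _ k1 _ m1), eq_false (n3 _ k2 _ m2),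
      eq_false (n3 _ k2 _ m1)⟩
  · by_cases h : u = (e, [])
    · subst h
      exact ⟨eq_false (C.ne e).symm, rfl⟩
    · have hd : List.Disjoint (u.1 :: u.2 ++ [C.ι u.1]) (e :: [] ++ [C.ι e]) :=
        @List.Pairwise.forall _ (Function.onFun List.Disjoint
          fun u : L × List L => u.1 :: u.2 ++ [C.ι u.1]) _
          ⟨fun _ _ h => List.Disjoint.symm h⟩ (List.nodup_flatMap.1 n2).2 _ hu _ he h
      have k : u.1 ∉ e :: [] ++ [C.ι e] := fun k => hd (by simp) k
      have k1 : u.1 ≠ e := fun k1 => k (by simp [k1])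
      have k2 : u.1 ≠ C.ι e := fun k2 => k (by simp [k2])
      refine ⟨eq_false k2, ?_⟩
      have hH := (hsh.2 u hu).2
      rw [eq_false k1]
      generalize u.2 = p at hH
      induction p with
      | nil => rfl
      | cons d p ih =>
        have hd := hH d List.mem_cons_self
        have j1 : d ≠ e := fun j => hE (j ▸ hd)
        have j2 : d ≠ C.ι e := fun j => not_H_ι hE (j ▸ hd)
        refine ⟨eq_false j2, ?_⟩
        show IsPath _ _ (d = e) p False
        rw [eq_false j1]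
        exact ih fun x hx => hH x (List.mem_cons_of_mem _ hx)

end Pool.Agent.MC.NF
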