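import Pool.Agent.P.MP_2677b3_gt.NfKill
import Pool.Agent.P.MP_2677b3_gt.NfWord

namespace Pool.Agent.MC.NF

variable {M : CMap} {H : M.D → Prop} {hα : ∀ d, H d → H (M.α d)} {d₀ : M.D} {K : ℕ}
  {hs : List ((M.D ⊕ Bool) × (M.D ⊕ Bool))} {sg : List ((M.D ⊕ Bool) × List (M.D ⊕ Bool))}

theorem nfsc2_lets {L : Type} {w : List L} {l : L} (h : l ∈ w) : l ∈ lets (w, []) := by
  simpa [lets] using h

theorem nfsc2_mem {e : M.D ⊕ Bool} (he : (e, []) ∈ sg) : e ∈ (cx M H hα).word hs sg :=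
  mem_word.2 (Or.inr ⟨_, he, Or.inl rfl⟩)

theorem nfsc2_key (r : RD M H hα d₀ K hs sg) {e : M.D ⊕ Bool} (he : (e, []) ∈ sg) :
    ∃ F : OV M → Prop, ¬ F none ∧ (∀ β, H β → M.Same H d₀ β → ¬ F (some (.inl β))) ∧
      ∀ l ∈ (cx M H hα).word hs sg, (F (r.t l) ↔ l = e) := by
  obtain ⟨s2, t2, hT, hH, -, hΦ⟩ := r.h1.typ Prop _ _ False (typ_mark r.shape r.nodup he)
  obtain ⟨F, hF0, hF⟩ := typ_univ hα d₀ hT
  refine ⟨F, by rw [hF0]; exact not_false, ?_, ?_⟩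
  · intro β hβ hsame hFβ
    have m : Sum.inl β ∈ lets (st0 M H d₀) := (mem_st0 d₀ _).2 (Or.inr ⟨β, rfl, hsame⟩)
    have e1 : s2 (Sum.inl β) = F (some (cs M H β)) := (hF _ m).1
    have hβ' : (cx M H hα).H (Sum.inl β) := hβ
    have e2 := (hH _ hβ').1
    rw [cs_of_H hβ] at e1
    rw [← e1, e2] at hFβ
    have hn : ¬ (cx M H hα).H e := (r.shape.2 _ he).1
    exact not_H_ι hn (hFβ ▸ hβ')
  · intro l hl
    have p1 := (r.tΦ l hl).map F (s' := s2) (t' := t2)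
      (fun u hu => hF _ (r.h2.sup l (nfsc2_lets hl) u hu))
    have p2 := hΦ l (nfsc2_lets hl)
    have e1 := (SPath.ends_eq (r.h2.ne l) p1 p2).2
    rw [e1]

theorem RD.tip_inj (r : RD M H hα d₀ K hs sg) {e e' : M.D ⊕ Bool} (he : (e, []) ∈ sg)
    (he' : (e', []) ∈ sg) (h : r.t e = r.t e') : e = e' := by
  obtain ⟨F, -, -, hF⟩ := nfsc2_key r he
  have a := (hF e (nfsc2_mem he)).2 rfl
  rw [h] at a
  exact ((hF e' (nfsc2_mem he')).1 a).symm

theorem RD.tip (r : RD M H hα d₀ K hs sg) {e : M.D ⊕ Bool} (he : (e, []) ∈ sg) :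
    ∃ d, M.Same H d₀ d ∧ (∀ k : ℕ, ¬ H (M.ψ^[k] d)) ∧ r.t e = some (.inr (M.gd.src d)) := by
  obtain ⟨F, hF0, hF1, hF⟩ := nfsc2_key r he
  have hm : e ∈ (cx M H hα).word hs sg := nfsc2_mem he
  have a := (hF e hm).2 rfl
  obtain ⟨u, hu, hc⟩ := (SPath.ends_mem (r.h2.ne e) (r.tΦ e hm)).2
  have m := r.h2.sup e (nfsc2_lets hm) u hu
  have key : r.t e = none ∨ ∃ d, M.Same H d₀ d ∧ r.t e = some (cs M H d) := by
    rcases (mem_st0 d₀ _).1 m with ⟨b, hb⟩ | ⟨d, hd, hsame⟩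
    · rw [hb] at hc
      cases b with
      | true =>
        rcases hc with hc | hc
        · exact Or.inl hc
        · exact Or.inr ⟨d₀, Relation.ReflTransGen.refl, hc⟩
      | false =>
        rcases hc with hc | hc
        · exact Or.inr ⟨d₀, Relation.ReflTransGen.refl, hc⟩
        · exact Or.inl hc
    · rw [hd] at hc
      rcases hc with hc | hc
      · exact Or.inr ⟨d, hsame, hc⟩
      · exact Or.inr ⟨M.φ d, same_φ hsame, hc⟩
  rcases key with h0 | ⟨d, hsame, h1⟩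
  · rw [h0] at a
    exact absurd a hF0
  · rcases cs_cases (H := H) d with ⟨β, hβ, hs', -, hcs⟩ | ⟨hi, hcs⟩
    · rw [h1, hcs] at a
      exact absurd a (hF1 β hβ (Relation.ReflTransGen.trans hsame hs'))
    · exact ⟨d, hsame, hi, by rw [h1, hcs]⟩

end Pool.Agent.MC.NF
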