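import Pool.Agent.P.MP_2677b3_gt.NfSC1
import Pool.Agent.P.MP_2677b3_gt.NfSC2

namespace Pool.Agent.MC.NF

variable {M : CMap} {H : M.D → Prop} {hα : ∀ d, H d → H (M.α d)} {d₀ : M.D} {K : ℕ}
  {hs : List ((M.D ⊕ Bool) × (M.D ⊕ Bool))} {sg : List ((M.D ⊕ Bool) × List (M.D ⊕ Bool))}

theorem nfsc3_mem (d : M.D) : d ∈ regS M H d₀ ↔ M.Same H d₀ d := by
  classical
  unfold regS
  simp only [Finset.mem_filter, Finset.mem_univ, true_and]

theorem nfsc3_card {A B : Type} {l : List A} (hl : l.Nodup) (S : Finset B) (f : B → A)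
    (hf : Function.Injective f) (h : ∀ a, a ∈ l ↔ ∃ b ∈ S, f b = a) : l.length = S.card := by
  classical
  rw [← List.toFinset_card_of_nodup hl, ← Finset.card_image_of_injective S hf]
  congr 1
  ext a
  rw [List.mem_toFinset, Finset.mem_image, h]

theorem nfsc3_H (r : RD M H hα d₀ K hs sg) (T : Finset M.D)
    (hT : ∀ d, d ∈ T ↔ M.Same H d₀ d ∧ H d) : (sg.flatMap Prod.snd).length = T.card := by
  refine nfsc3_card (nodup_snd r.nodup) T Sum.inl Sum.inl_injective fun a => ⟨fun ha => ?_, ?_⟩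
  · have hH : (cx M H hα).H a := by
      obtain ⟨u, hu, hau⟩ := List.mem_flatMap.1 ha
      exact (r.shape.2 u hu).2 a hau
    rcases a with d | b
    · have hd : H d := hH
      exact ⟨d, (hT d).2 ⟨(r.memH d hd).1 ((mem_word_H r.shape hH).2 ha), hd⟩, rfl⟩
    · exact hH.elim
  · rintro ⟨d, hd, rfl⟩
    obtain ⟨h1, h2⟩ := (hT d).1 hd
    have hH : (cx M H hα).H (Sum.inl d) := h2
    exact (mem_word_H r.shape hH).1 ((r.memH d h2).2 h1)

theorem nfsc3_emp {u : (M.D ⊕ Bool) × List (M.D ⊕ Bool)}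
    (hu : u ∈ sg.filter fun u => u.2.isEmpty) : (u.1, []) ∈ sg ∧ u = (u.1, []) := by
  obtain ⟨h1, h2⟩ := List.mem_filter.1 hu
  rcases u with ⟨e, w⟩
  have h3 : w = [] := List.isEmpty_iff.1 h2
  subst h3
  exact ⟨h1, rfl⟩

theorem nfsc3_V (r : RD M H hα d₀ K hs sg) (T : Finset M.D)
    (hT : ∀ d, d ∈ T ↔ M.Same H d₀ d ∧ ∀ k : ℕ, ¬ H (M.ψ^[k] d)) :
    (sg.filter fun u => u.2.isEmpty).length = norb M.ψ T := by
  classical
  have hn : (sg.filter fun u => u.2.isEmpty).Nodup := (nodup_fst r.nodup).of_map.filter _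
  have hn2 : ((sg.filter fun u => u.2.isEmpty).map fun u => r.t u.1).Nodup := by
    refine hn.map_on fun u hu v hv huv => ?_
    obtain ⟨h1, h2⟩ := nfsc3_emp hu
    obtain ⟨h3, h4⟩ := nfsc3_emp hv
    rw [h2, h4, r.tip_inj h1 h3 huv]
  rw [← List.length_map (f := fun u => r.t u.1)]
  unfold norb
  refine nfsc3_card hn2 _ (fun v : M.gd.V => (some (Sum.inr v) : OV M))
    (fun v w h => Sum.inr_injective (Option.some_injective _ h)) fun a => ⟨fun ha => ?_, ?_⟩
  · obtain ⟨u, hu, rfl⟩ := List.mem_map.1 ha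
    obtain ⟨d, h1, h2, h3⟩ := r.tip (nfsc3_emp hu).1
    exact ⟨M.gd.src d, Finset.mem_image.2 ⟨d, (hT d).2 ⟨h1, h2⟩, rfl⟩, h3.symm⟩
  · rintro ⟨v, hv, rfl⟩
    obtain ⟨d, hd, rfl⟩ := Finset.mem_image.1 hv
    obtain ⟨h1, h2⟩ := (hT d).1 hd
    obtain ⟨e, h3, h4⟩ := r.tip_surj h1 h2
    exact List.mem_map.2 ⟨(e, []), List.mem_filter.2 ⟨h3, rfl⟩, h4⟩

theorem nfsc3_split {A : Type} (l : List A) (p : A → Bool) :
    l.length = (l.filter fun u => !p u).length + (l.filter p).length := by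
  induction l with
  | nil => rfl
  | cons a l ih =>
    cases h : p a <;> simp [h, ih] <;> omega

theorem RD.euler (r : RD M H hα d₀ K hs sg) :
    M.Euler H (regS M H d₀) hs.length (sg.filter fun u => !u.2.isEmpty).length := by
  classical
  unfold CMap.Euler
  have h1 := r.cnt
  rw [length_st0, length_word] at h1
  have h2 := faces_st0 (H := H) d₀
  have h3 := nfsc3_H r ((regS M H d₀).filter H) fun d => by
    rw [Finset.mem_filter, nfsc3_mem]
  have h4 := nfsc3_split sg fun u => u.2.isEmpty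
  have h5 := Finset.card_filter_add_card_filter_not (s := regS M H d₀) H
  rw [← nfsc3_V r _ fun d => by rw [Finset.mem_filter, nfsc3_mem]]
  omega

end Pool.Agent.MC.NF
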