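import Pool.Agent.P.MP_2677b3_gt.NfSt

namespace Pool.Agent.MC.NF

variable {L : Type} {C : Ctx L}

theorem nfsort_aux (bs : List L) : ∀ (X : List L) (sg : List (L × List L)),
    (∀ u ∈ sg, ¬ C.H u.1 ∧ ∀ d ∈ u.2, C.H d) →
    (sg.flatMap (fun u => u.1 :: u.2 ++ [C.ι u.1])).Nodup →
    (∀ β ∈ bs, ∃ u ∈ sg, β ∈ u.2) →
    (bs.Pairwise fun β β' => ∀ u ∈ sg, β ∈ u.2 → β' ∉ u.2) →
    (∀ u ∈ sg, u.2 ≠ [] → ∃ β ∈ bs, β ∈ u.2) →
    ∃ (es : L → L) (Ps : L → List L) (pend : List L),
      (∀ u ∈ bs.map (fun β => (es β, β :: Ps β)) ++ pend.map (fun p => (p, ([] : List L))),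
        ¬ C.H u.1 ∧ ∀ d ∈ u.2, C.H d) ∧
      C.Steps (2 * bs.length) (X ++ sg.flatMap (fun u => u.1 :: u.2 ++ [C.ι u.1]), [])
        (X ++ (bs.map (fun β => (es β, β :: Ps β)) ++
          pend.map (fun p => (p, ([] : List L)))).flatMap (fun u => u.1 :: u.2 ++ [C.ι u.1]), []) := by
  classical
  induction bs with
  | nil =>
    intro X sg hsh _ _ _ h3
    have hemp : ∀ u ∈ sg, u.2 = [] := by
      intro u hu
      by_contra hne
      obtain ⟨β, hβ, _⟩ := h3 u hu hne
      simp at hβ
    have hsg : (sg.map Prod.fst).map (fun p => (p, ([] : List L))) = sg := by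
      rw [List.map_map]
      conv_rhs => rw [← List.map_id sg]
      apply List.map_congr_left
      intro u hu
      have := hemp u hu
      rcases u with ⟨a, b⟩
      simp only at this
      simp [this]
    refine ⟨id, fun _ => [], sg.map Prod.fst, ?_, ?_⟩
    · rw [List.map_nil, List.nil_append, hsg]
      exact hsh
    · rw [List.map_nil, List.nil_append, hsg]
      exact Ctx.Steps.refl _ _
  | cons β bs ih =>
    intro X sg hsh hnd h1 h2 h3
    obtain ⟨u, hu, hβu⟩ := h1 β (List.mem_cons_self ..)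
    obtain ⟨sg1, sg2, rfl⟩ := List.append_of_mem hu
    rcases u with ⟨e, Q⟩
    simp only at hβu
    obtain ⟨P1, P2, rfl⟩ := List.append_of_mem hβu
    rw [List.pairwise_cons] at h2
    obtain ⟨h2a, h2b⟩ := h2
    have hsub : ∀ u ∈ sg1 ++ sg2, u ∈ sg1 ++ (e, P1 ++ β :: P2) :: sg2 := by
      intro u hu'
      rcases List.mem_append.1 hu' with h | h
      · exact List.mem_append_left _ h
      · exact List.mem_append_right _ (List.mem_cons_of_mem _ h)
    have hβbs : β ∉ bs := fun h => h2a β h _ hu hβu hβu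
    have he := hsh _ hu
    simp only at he
    have hnot : ∀ u ∈ sg1 ++ sg2, β ∉ u.2 := by
      intro u hu' hβ
      rw [List.flatMap_append, List.flatMap_cons] at hnd
      have hmem : β ∈ (e :: (P1 ++ β :: P2) ++ [C.ι e]) := by simp
      rcases List.mem_append.1 hu' with h | h
      · have hm : β ∈ sg1.flatMap (fun u => u.1 :: u.2 ++ [C.ι u.1]) :=
          List.mem_flatMap.2 ⟨u, h, by simp [hβ]⟩
        exact (List.nodup_append.1 hnd).2.2 β hm β (List.mem_append_left _ hmem) rfl
      · have hm : β ∈ sg2.flatMap (fun u => u.1 :: u.2 ++ [C.ι u.1]) :=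
          List.mem_flatMap.2 ⟨u, h, by simp [hβ]⟩
        exact (List.nodup_append.1 (List.nodup_append.1 hnd).2.1).2.2 β hmem β hm rfl
    have hnd' : ((sg1 ++ sg2).flatMap (fun u => u.1 :: u.2 ++ [C.ι u.1])).Nodup := by
      refine List.Nodup.sublist ?_ hnd
      rw [List.flatMap_append, List.flatMap_append, List.flatMap_cons]
      exact List.Sublist.append_left (List.sublist_append_right _ _) _
    obtain ⟨es, Ps, pend, hs', hst⟩ := ih (X ++ (e :: (β :: (P2 ++ P1)) ++ [C.ι e])) (sg1 ++ sg2)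
      (fun u hu' => hsh u (hsub u hu')) hnd'
      (by
        intro β' hβ'
        obtain ⟨u, hu', hm⟩ := h1 β' (List.mem_cons_of_mem _ hβ')
        rcases List.mem_append.1 hu' with h | h
        · exact ⟨u, List.mem_append_left _ h, hm⟩
        · rcases List.mem_cons.1 h with h | h
          · subst h
            exact absurd hm (h2a β' hβ' _ hu hβu)
          · exact ⟨u, List.mem_append_right _ h, hm⟩)
      (h2b.imp fun h u hu' => h u (hsub u hu'))
      (by
        intro u hu' hne
        obtain ⟨β', hβ', hm⟩ := h3 u (hsub u hu') hne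
        rcases List.mem_cons.1 hβ' with h | h
        · subst h
          exact absurd hm (hnot u hu')
        · exact ⟨β', h, hm⟩)
    have hmap : bs.map (fun b => (Function.update es β e b, b :: Function.update Ps β (P2 ++ P1) b)) =
        bs.map (fun b => (es b, b :: Ps b)) := by
      apply List.map_congr_left
      intro b hb
      have hne : b ≠ β := fun h => hβbs (h ▸ hb)
      simp [Function.update_of_ne hne]
    refine ⟨Function.update es β e, Function.update Ps β (P2 ++ P1), pend, ?_, ?_⟩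
    · rw [List.map_cons, hmap]
      intro u hu'
      rcases List.mem_cons.1 hu' with h | h
      · subst h
        simp only [Function.update_self]
        refine ⟨he.1, fun d hd => he.2 d ?_⟩
        simp only [List.mem_cons, List.mem_append] at hd ⊢
        tauto
      · exact hs' u h
    · rw [List.map_cons, hmap]
      simp only [Function.update_self]
      have m1 := Ctx.Mv.e1 (C := C) X (sg1.flatMap (fun u => u.1 :: u.2 ++ [C.ι u.1]))
        (P1 ++ β :: P2) (sg2.flatMap (fun u => u.1 :: u.2 ++ [C.ι u.1])) e [] he.1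
      have m2 := Ctx.Mv.e2 (C := C) X P1 (β :: P2)
        (sg1.flatMap (fun u => u.1 :: u.2 ++ [C.ι u.1]) ++
          sg2.flatMap (fun u => u.1 :: u.2 ++ [C.ι u.1])) e [] he.1
      have e0 : X ++ (sg1 ++ (e, P1 ++ β :: P2) :: sg2).flatMap (fun u => u.1 :: u.2 ++ [C.ι u.1]) =
          X ++ sg1.flatMap (fun u => u.1 :: u.2 ++ [C.ι u.1]) ++ e :: (P1 ++ β :: P2) ++
            C.ι e :: sg2.flatMap (fun u => u.1 :: u.2 ++ [C.ι u.1]) := by
        simp [List.append_assoc]
      have e1 : X ++ e :: (P1 ++ β :: P2) ++ C.ι e :: sg1.flatMap (fun u => u.1 :: u.2 ++ [C.ι u.1]) ++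
            sg2.flatMap (fun u => u.1 :: u.2 ++ [C.ι u.1]) =
          X ++ e :: P1 ++ β :: P2 ++ C.ι e :: (sg1.flatMap (fun u => u.1 :: u.2 ++ [C.ι u.1]) ++
            sg2.flatMap (fun u => u.1 :: u.2 ++ [C.ι u.1])) := by
        simp [List.append_assoc]
      have e2 : X ++ e :: (β :: P2) ++ P1 ++ C.ι e :: (sg1.flatMap (fun u => u.1 :: u.2 ++ [C.ι u.1]) ++
            sg2.flatMap (fun u => u.1 :: u.2 ++ [C.ι u.1])) =
          X ++ (e :: (β :: (P2 ++ P1)) ++ [C.ι e]) ++
            (sg1 ++ sg2).flatMap (fun u => u.1 :: u.2 ++ [C.ι u.1]) := by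
        simp [List.append_assoc]
      have e3 : X ++ (e :: (β :: (P2 ++ P1)) ++ [C.ι e]) ++ (bs.map (fun b => (es b, b :: Ps b)) ++
            pend.map (fun p => (p, ([] : List L)))).flatMap (fun u => u.1 :: u.2 ++ [C.ι u.1]) =
          X ++ ((e, β :: (P2 ++ P1)) :: bs.map (fun b => (es b, b :: Ps b)) ++
            pend.map (fun p => (p, ([] : List L)))).flatMap (fun u => u.1 :: u.2 ++ [C.ι u.1]) := by
        simp [List.append_assoc]
      rw [e1] at m1
      rw [e2] at m2
      rw [e3] at hst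
      rw [e0]
      have := Ctx.Steps.step m1 (Ctx.Steps.step m2 hst)
      have hl : 2 * (β :: bs).length = 2 * bs.length + 1 + 1 := by
        simp only [List.length_cons]; omega
      rw [hl]
      exact this

theorem sort_steps (hs : List (L × L)) (sg : List (L × List L)) (bs : List L)
    (hsh : C.Shape hs sg) (hnd : (C.word hs sg).Nodup) (h1 : ∀ β ∈ bs, ∃ u ∈ sg, β ∈ u.2)
    (h2 : bs.Pairwise fun β β' => ∀ u ∈ sg, β ∈ u.2 → β' ∉ u.2)
    (h3 : ∀ u ∈ sg, u.2 ≠ [] → ∃ β ∈ bs, β ∈ u.2) :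
    ∃ (es : L → L) (Ps : L → List L) (pend : List L),
      C.Shape hs (bs.map (fun β => (es β, β :: Ps β)) ++ pend.map fun p => (p, [])) ∧
      C.Steps (2 * bs.length) (C.word hs sg, [])
        (C.word hs (bs.map (fun β => (es β, β :: Ps β)) ++ pend.map fun p => (p, [])), []) := by
  obtain ⟨es, Ps, pend, ha, hb⟩ := nfsort_aux (C := C) bs
    (hs.flatMap (fun u => [u.1, u.2, C.ι u.1, C.ι u.2])) sg hsh.2
    (List.nodup_append.1 hnd).2.1 h1 h2 h3
  exact ⟨es, Ps, pend, ⟨hsh.1, ha⟩, hb⟩

end Pool.Agent.MC.NF
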