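import Pool.Agent.P.MP_2677b3_gt.NfReg
import Pool.Agent.P.MP_2677b3_gt.NfSort
import Pool.Agent.P.MP_2677b3_gt.NfSC3
import Pool.Agent.P.MP_2677b3_gt.NfCuff

namespace Pool.Agent.MC.NF

theorem nfgl_regS {M : CMap} {H : M.D → Prop} {G : GS} {n : ℕ} (lab : Lab M H G n) {d₀ : M.D}
    {x : G.X} (hd : lab.reg d₀ = x) [DecidablePred fun d => lab.reg d = x] :
    regS M H d₀ = Finset.univ.filter fun d => lab.reg d = x := by
  ext d
  simp only [regS, Finset.mem_filter, Finset.mem_univ, true_and]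
  rw [← lab.reg_iff, hd, eq_comm]

theorem nfgl_region {M : CMap} {H : M.D → Prop} {G : GS} {n K : ℕ} (lab : Lab M H G n)
    (cd : CuffD lab) (hK : (n + 4) ^ (13 * (n + 2)) ≤ K) {d₀ : M.D} {x : G.X}
    (hd : lab.reg d₀ = x) :
    ∃ (hs : List ((M.D ⊕ Bool) × (M.D ⊕ Bool))) (es : M.D ⊕ Bool → M.D ⊕ Bool)
      (pend : List (M.D ⊕ Bool)), hs.length = G.h x ∧ Nonempty (RD M H lab.Hα d₀ K hs
        ((G.ord x).map (fun c => (es (.inl (cd.β c)), (cyc M H (cd.β c)).map Sum.inl)) ++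
          pend.map fun p => (p, []))) := by
  classical
  have hS := nfgl_regS lab hd
  have hcard : (regS M H d₀).card ≤ n := by
    rw [hS]
    refine le_trans (le_of_eq ?_) (lab.size x)
    congr 1
  have hsame : ∀ d, M.Same H d₀ d ↔ lab.reg d = x := fun d => by
    rw [← lab.reg_iff, hd, eq_comm]
  have hβ : ∀ c ∈ G.ord x, lab.reg (cd.β c) = x := fun c hc => by
    rw [← lab.own_cuf _ (cd.β_H c), cd.β_cuf, (G.mem_ord x c).1 hc]
  have hinj : Function.Injective cd.β := fun c c' e => by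
    rw [← cd.β_cuf c, cuf_congr lab e _ (cd.β_H c'), cd.β_cuf]
  have hlen : (G.ord x).length ≤ n := by
    have h1 : ((G.ord x).map cd.β).Nodup := (G.nodup x).map hinj
    have h2 : ((G.ord x).map cd.β).toFinset ⊆ regS M H d₀ := fun d hd' => by
      obtain ⟨c, hc, rfl⟩ := List.mem_map.1 (List.mem_toFinset.1 hd')
      rw [hS]; simp [hβ c hc]
    have h3 := Finset.card_le_card h2
    rw [List.toFinset_card_of_nodup h1, List.length_map] at h3
    omega
  obtain ⟨hs, sg, hsh, hst⟩ := reg_first lab.Hα d₀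
  obtain ⟨r⟩ := rd_of_steps lab.Hα d₀ hsh hst le_rfl
  have hseg : ∀ u ∈ sg, ∀ d, Sum.inl d ∈ u.2 → ∀ d', Sum.inl d' ∈ u.2 → ∀ (h : H d) (h' : H d'),
      lab.cuf d' h' = lab.cuf d h := fun u hu d hdu d' hdu' h h' => by
    obtain ⟨β, hH, -, -, e, -⟩ := r.cyc_seg hu (List.ne_nil_of_mem hdu)
    rw [e] at hdu hdu'
    simp only [List.mem_map, Sum.inl.injEq, exists_eq_right] at hdu hdu'
    rw [mem_cyc lab hH] at hdu hdu'
    exact hdu'.2.trans hdu.2.symm
  obtain ⟨es, Ps, pend, hsh', hst'⟩ := sort_steps hs sg ((G.ord x).map fun c => Sum.inl (cd.β c))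
    hsh r.nodup
    (fun l hl => by
      obtain ⟨c, hc, rfl⟩ := List.mem_map.1 hl
      have h1 := (r.memH _ (cd.β_H c)).2 ((hsame _).2 (hβ c hc))
      have hH : (cx M H lab.Hα).H (Sum.inl (cd.β c)) := cd.β_H c
      obtain ⟨u, hu, h2⟩ := List.mem_flatMap.1 ((mem_word_H hsh hH).1 h1)
      exact ⟨u, hu, h2⟩)
    (by
      rw [List.pairwise_map]
      refine (G.nodup x).imp fun {c c'} hne u hu h1 h2 => hne ?_
      have := hseg u hu _ h1 _ h2 (cd.β_H c) (cd.β_H c')
      rw [cd.β_cuf, cd.β_cuf] at this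
      exact this.symm)
    (fun u hu hne => by
      obtain ⟨β, hH, hs1, -, e, -⟩ := r.cyc_seg hu hne
      refine ⟨.inl (cd.β (lab.cuf β hH)), List.mem_map.2 ⟨lab.cuf β hH, ?_, rfl⟩, ?_⟩
      · rw [G.mem_ord, lab.own_cuf _ hH, (hsame β).1 hs1]
      · rw [e]
        exact List.mem_map.2 ⟨_, (mem_cyc lab hH).2 ⟨cd.β_H _, cd.β_cuf _⟩, rfl⟩)
  have hst2 := steps_trans hst hst'
  have hK2 : ((regS M H d₀).card + 4) ^ (11 * ((regS M H d₀).card + 2) +
      2 * ((G.ord x).map fun c => (Sum.inl (cd.β c) : M.D ⊕ Bool)).length) ≤ K := by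
    refine le_trans ?_ hK
    rw [List.length_map]
    exact le_trans (Nat.pow_le_pow_left (by omega) _) (Nat.pow_le_pow_right (by omega) (by omega))
  obtain ⟨r'⟩ := rd_of_steps lab.Hα d₀ hsh' hst2 hK2
  have heq : ((G.ord x).map fun c => (Sum.inl (cd.β c) : M.D ⊕ Bool)).map
      (fun β => (es β, β :: Ps β)) =
      (G.ord x).map (fun c => (es (.inl (cd.β c)), (cyc M H (cd.β c)).map Sum.inl)) := by
    rw [List.map_map]
    refine List.map_congr_left fun c hc => ?_
    have hu : (es (.inl (cd.β c)), Sum.inl (cd.β c) :: Ps (.inl (cd.β c))) ∈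
        ((G.ord x).map fun c => (Sum.inl (cd.β c) : M.D ⊕ Bool)).map
          (fun β => (es β, β :: Ps β)) ++ pend.map fun p => (p, []) :=
      List.mem_append_left _ (List.mem_map.2 ⟨_, List.mem_map.2 ⟨c, hc, rfl⟩, rfl⟩)
    obtain ⟨β, -, -, hp, e, -⟩ := r'.cyc_seg hu (List.cons_ne_nil _ _)
    have hb : β = cd.β c := by
      obtain ⟨k, hk⟩ := Nat.exists_eq_succ_of_ne_zero hp.ne'
      simp only [cyc, orbL, hk, List.range_succ_eq_map, List.map_cons, Function.iterate_zero,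
        id_eq, List.cons.injEq, Sum.inl.injEq] at e
      exact e.1.symm
    subst hb
    exact Prod.ext rfl e
  rw [heq] at r'
  refine ⟨hs, es, pend, ?_, ⟨r'⟩⟩
  have e1 := r'.euler
  have e2 := lab.euler x
  have e3 : (((G.ord x).map (fun c => (es (.inl (cd.β c)), (cyc M H (cd.β c)).map
      (Sum.inl : M.D → M.D ⊕ Bool))) ++ pend.map fun p => (p, [])).filter
        fun u : (M.D ⊕ Bool) × List (M.D ⊕ Bool) => !u.2.isEmpty).length = (G.ord x).length := by
    rw [List.filter_append, List.filter_eq_self.2, List.filter_eq_nil_iff.2]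
    · simp
    · intro u hu
      obtain ⟨p, -, rfl⟩ := List.mem_map.1 hu
      simp
    · intro u hu
      obtain ⟨c, -, rfl⟩ := List.mem_map.1 hu
      have := (mem_cyc lab (cd.β_H c)).2 ⟨cd.β_H c, rfl⟩
      simpa using List.ne_nil_of_mem this
  rw [e3, nfgl_regS lab hd] at e1
  unfold CMap.Euler at e1 e2
  omega

theorem exists_GD (n : ℕ) : ∃ K : ℕ, ∀ (M : CMap) (H : M.D → Prop) (G : GS),
    Lab M H G n → Nonempty (GD M H G n K) := by
  refine ⟨(n + 4) ^ (13 * (n + 2)) + n, fun M H G lab => ?_⟩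
  obtain ⟨cd⟩ := exists_cuffD lab
  choose d₀ hd₀ using lab.reg_surj
  choose hs es pend hlen hr using fun x =>
    nfgl_region (K := (n + 4) ^ (13 * (n + 2)) + n) lab cd (Nat.le_add_right _ _) (hd₀ x)
  have heq : ∀ x, (G.ord x).map (fun c => (es x (.inl (cd.β c)), (cyc M H (cd.β c)).map
      (Sum.inl : M.D → M.D ⊕ Bool))) = (G.ord x).map (fun c => (es (G.own c) (.inl (cd.β c)),
        (cyc M H (cd.β c)).map Sum.inl)) := fun x =>
    List.map_congr_left fun c hc => by rw [(G.mem_ord x c).1 hc]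
  exact ⟨⟨lab, cd, d₀, hd₀, hs, fun c => es (G.own c) (.inl (cd.β c)), pend, hlen,
    fun x => heq x ▸ (hr x).some, Nat.le_add_left _ _⟩⟩

end Pool.Agent.MC.NF
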