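import Pool.Agent.P.MP_2677b3_gt.NfRel
import Pool.Agent.P.MP_2677b3_gt.NfGl
import Pool.Agent.P.MP_2677b3_gt.NfB1
import Pool.Agent.P.MP_2677b3_gt.NfB2

namespace Pool.Agent.MC

open Classical in
/-- Normal form of one region of a map cut along an arbitrary symmetric set of darts. -/
theorem nf_rel (M : CMap) (H : M.D → Prop) (hα : ∀ d, H d → H (M.α d)) (d₀ : M.D) :
    ∃ (y : M.gd.V) (ab seg : List (List M.D × List M.D)),
      (∀ u ∈ ab, M.gd.Path y u.1 y ∧ M.gd.Path y u.2 y) ∧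
      (∀ u ∈ seg, ∃ d k, H d ∧ 0 < k ∧ (M.bd H)^[k] d = d ∧ u.2 = orbL (M.bd H) d k ∧
        M.gd.Path y u.1 (M.gd.src d)) ∧
      (seg.flatMap Prod.snd).Nodup ∧
      (∀ d, d ∈ seg.flatMap Prod.snd ↔ H d ∧ M.Same H d₀ d) ∧
      (ab.map fun u => M.gd.ev u.1 * M.gd.ev u.2 * (M.gd.ev u.1)⁻¹ * (M.gd.ev u.2)⁻¹).prod *
        (seg.map fun u => M.gd.ev u.1 * M.gd.ev u.2 * (M.gd.ev u.1)⁻¹).prod = 1 ∧
      M.Euler H (Finset.univ.filter fun d => M.Same H d₀ d) ab.length seg.length :=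
  NF.nf_rel' M H hα d₀

/-- A map cut into bounded regions is boundedly equivalent to its graph of surfaces. -/
theorem nf_gg (n : ℕ) : ∃ K : ℕ, ∀ (M : CMap) (H : M.D → Prop) (G : GS),
    Lab M H G n → Eqv K M.gd G.gd := by
  obtain ⟨K, hK⟩ := NF.exists_GD n
  refine ⟨K, fun M H G lab => ?_⟩
  obtain ⟨g⟩ := hK M H G lab
  exact ⟨Mor.ofPres g.fv g.fe g.fe_path g.fe_len g.fe_inv
      (by rintro _ ⟨d, k, h, rfl⟩; exact g.fe_face d k h),
    Mor.ofPres g.gv g.ge g.ge_path g.ge_len g.ge_inv (by rintro _ ⟨x, rfl⟩; exact g.ge_rel x),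
    g.back1, g.back2⟩

end Pool.Agent.MC
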