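import Pool.Agent.P.MP_2677b3_gt.Basic
import Pool.Agent.P.MP_2677b3_gt.NF

namespace Pool.Agent.MC

theorem sum_eq_mul_norb {D : Type} [Fintype D] (σ : Equiv.Perm D) (S : Finset D)
    (hS : ∀ d ∈ S, σ d ∈ S) (a : D → ℕ) (c : ℕ)
    (h : ∀ d ∈ S, ∑ i ∈ Finset.range (Function.minimalPeriod σ d), a (σ^[i] d) = c) :
    ∑ d ∈ S, a d = c * norb σ S := by
  classical
  have hit : ∀ d ∈ S, ∀ i : ℕ, σ^[i] d ∈ S := fun d hd i => by
    induction i with
    | zero => exact hd
    | succ i ih => rw [Function.iterate_succ_apply']; exact hS _ ih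
  unfold norb
  rw [← Finset.sum_fiberwise_of_maps_to (s := S)
    (t := S.image (Quotient.mk (Equiv.Perm.SameCycle.setoid σ)))
    (g := Quotient.mk (Equiv.Perm.SameCycle.setoid σ)) (fun d hd => Finset.mem_image_of_mem _ hd),
    mul_comm, ← smul_eq_mul, ← Finset.sum_const]
  refine Finset.sum_congr rfl fun q hq => ?_
  obtain ⟨d, hd, rfl⟩ := Finset.mem_image.1 hq
  have hp : 0 < Function.minimalPeriod σ d :=
    Function.minimalPeriod_pos_of_mem_periodicPts (σ.injective.mem_periodicPts d)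
  rw [← h d hd]
  symm
  refine Finset.sum_bij (fun i _ => σ^[i] d) (fun i _ => ?_) (fun i hi j hj e => ?_)
    (fun b hb => ?_) fun _ _ => rfl
  · refine Finset.mem_filter.2 ⟨hit d hd i, Eq.symm (Quotient.sound ?_)⟩
    exact ⟨i, by rw [Equiv.Perm.iterate_eq_pow, zpow_natCast]⟩
  · exact Function.iterate_injOn_Iio_minimalPeriod (Finset.mem_range.1 hi)
      (Finset.mem_range.1 hj) e
  · have h1 : σ.SameCycle d b := Quotient.exact (Finset.mem_filter.1 hb).2.symm
    obtain ⟨k, -, hk⟩ := h1.exists_pow_eq'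
    refine ⟨k % Function.minimalPeriod σ d, Finset.mem_range.2 (Nat.mod_lt _ hp), ?_⟩
    rw [Function.iterate_mod_minimalPeriod_eq, Equiv.Perm.iterate_eq_pow, hk]

theorem bu_same_symm {M : CMap} {H : M.D → Prop} (hα : ∀ d, H d → H (M.α d)) {d d' : M.D}
    (h : M.Same H d d') : M.Same H d' d := by
  induction h with
  | refl => exact .refl
  | @tail b c _ hs ih =>
    refine Relation.ReflTransGen.trans ?_ ih
    rcases hs with rfl | ⟨hb, rfl⟩
    · exact NF.same_cycle .refl (Equiv.Perm.sameCycle_apply_left.2 (Equiv.Perm.SameCycle.refl _ _))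
    · refine Relation.ReflTransGen.single (Or.inr ⟨fun h' => hb ?_, (M.αα b).symm⟩)
      have := hα _ h'
      rwa [M.αα] at this

theorem bu_bd_eq {M : CMap} {H : M.D → Prop} {d : M.D} (k : ℕ) (h : H (M.ψ^[k] (M.φ d)))
    (h' : ∀ i < k, ¬ H (M.ψ^[i] (M.φ d))) : M.bd H d = M.ψ^[k] (M.φ d) := by
  classical
  have e : ∃ k : ℕ, H (M.ψ^[k] (M.φ d)) := ⟨k, h⟩
  rw [CMap.bd, dif_pos e, (Nat.find_eq_iff e).2 ⟨h, h'⟩]

theorem bu_bd_mem {M : CMap} {H : M.D → Prop} (hα : ∀ d, H d → H (M.α d)) {d : M.D} (h : H d) :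
    H (M.bd H d) ∧ M.Same H d (M.bd H d) ∧ M.gd.src (M.bd H d) = M.gd.tgt d :=
  NF.bd_H hα h

theorem bunorb_bd {M : CMap} {H : M.D → Prop} (hα : ∀ d, H d → H (M.α d)) {d : M.D} (h : H d) :
    ∃ k : ℕ, M.bd H d = M.ψ^[k] (M.φ d) ∧ ∀ i < k, ¬ H (M.ψ^[i] (M.φ d)) := by
  classical
  obtain ⟨k, hk⟩ := NF.src_eq_iff.1 (NF.src_φ d)
  have e : ∃ k : ℕ, H (M.ψ^[k] (M.φ d)) := ⟨k, hk ▸ hα d h⟩
  exact ⟨Nat.find e, by rw [CMap.bd, dif_pos e], fun i hi => Nat.find_min e hi⟩

theorem bunorb_inj {M : CMap} {H : M.D → Prop} (hα : ∀ d, H d → H (M.α d)) {d d' : M.D}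
    (h : H d) {k j : ℕ} (e : M.ψ^[k] (M.φ d) = M.ψ^[k + j] (M.φ d'))
    (h' : ∀ i < k + j, ¬ H (M.ψ^[i] (M.φ d'))) : d = d' := by
  rw [Function.iterate_add_apply] at e
  have e1 := M.ψ.injective.iterate k e
  cases j with
  | zero => exact M.φ.injective e1
  | succ j =>
    have h3 : M.ψ (M.α d) = M.φ d := by
      change M.φ (M.α (M.α d)) = _
      rw [M.αα]
    rw [Function.iterate_succ_apply', ← h3] at e1
    exact absurd (M.ψ.injective e1 ▸ hα d h) (h' j (by omega))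

theorem bu_bd_inj {M : CMap} {H : M.D → Prop} (hα : ∀ d, H d → H (M.α d)) {d d' : M.D}
    (h : H d) (h' : H d') (e : M.bd H d = M.bd H d') : d = d' := by
  obtain ⟨k, h1, h2⟩ := bunorb_bd hα h
  obtain ⟨k', h3, h4⟩ := bunorb_bd hα h'
  rw [h1, h3] at e
  rcases le_total k k' with hk | hk
  · obtain ⟨j, rfl⟩ := Nat.exists_eq_add_of_le hk
    exact bunorb_inj hα h e h4
  · obtain ⟨j, rfl⟩ := Nat.exists_eq_add_of_le hk
    exact (bunorb_inj hα h' e.symm h2).symm

theorem bunorb_prod {D Γ : Type} [Group Γ] {f : D → D} (g : D → Γ) {r : D}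
    (hr : r ∈ Function.periodicPts f)
    (h : ((orbL f r (Function.minimalPeriod f r)).map g).prod = 1) (j k : ℕ)
    (hk : f^[k] (f^[j] r) = f^[j] r) : ((orbL f (f^[j] r) k).map g).prod = 1 := by
  have hd : Function.minimalPeriod f r ∣ k := by
    rw [← Function.minimalPeriod_apply_iterate hr j]
    exact Function.IsPeriodicPt.minimalPeriod_dvd hk
  have hk' : f^[k] r = r := Function.isPeriodicPt_iff_minimalPeriod_dvd.2 hd
  have hp : f^[Function.minimalPeriod f r] r = r := Function.isPeriodicPt_minimalPeriod f r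
  have h1 : ∀ m, ((orbL f r (Function.minimalPeriod f r * m)).map g).prod = 1 := by
    intro m
    induction m with
    | zero => simp [orbL]
    | succ m ih => rw [Nat.mul_succ, add_comm, NF.nfkill_orbL_add, hp, List.map_append,
        List.prod_append, h, ih, one_mul]
  obtain ⟨m, hm⟩ := hd
  have h2 : ((orbL f r k).map g).prod = 1 := by rw [hm]; exact h1 m
  have h3 := NF.nfkill_orbL_add f r j k
  rw [add_comm, NF.nfkill_orbL_add, hk'] at h3
  have h4 := congrArg (fun w => (w.map g).prod) h3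
  simp only [List.map_append, List.prod_append, h2, one_mul] at h4
  exact (left_eq_mul.1 h4)

open Classical in
/-- A region with boundary and many faces is a disc. -/
theorem nf_disc (M : CMap) (H : M.D → Prop) (hα : ∀ d, H d → H (M.α d)) (d₀ : M.D)
    (hH : ∃ d, H d ∧ M.Same H d₀ d)
    (hc : (Finset.univ.filter fun d => M.Same H d₀ d ∧ ¬ H d).card <
      2 * norb M.φ (Finset.univ.filter fun d => M.Same H d₀ d)) :
    2 * norb M.φ (Finset.univ.filter fun d => M.Same H d₀ d) =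
      (Finset.univ.filter fun d => M.Same H d₀ d ∧ ¬ H d).card + 2 ∧
    ∀ d n, H d → M.Same H d₀ d → (M.bd H)^[n] d = d → M.gd.ev (orbL (M.bd H) d n) = 1 := by
  obtain ⟨y, ab, seg, -, h2, h3, h4, h5, h6⟩ := nf_rel M H hα d₀
  unfold CMap.Euler at h6
  rw [Finset.filter_filter (fun d => M.Same H d₀ d) fun d => ¬ H d] at h6
  have hb : 0 < seg.length := by
    obtain ⟨d, hd⟩ := hH
    obtain ⟨u, hu, -⟩ := List.mem_flatMap.1 ((h4 d).2 hd)
    exact List.length_pos_of_mem hu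
  refine ⟨by omega, fun d n hd hs hn => ?_⟩
  obtain rfl : ab = [] := List.length_eq_zero_iff.1 (by omega)
  obtain ⟨u, rfl⟩ := List.length_eq_one_iff.1 (show seg.length = 1 by omega)
  obtain ⟨r, k, -, hk, hr, hu, -⟩ := h2 u (List.mem_singleton_self _)
  simp only [List.flatMap_cons, List.flatMap_nil, List.append_nil] at h3 h4
  simp only [List.map_nil, List.prod_nil, one_mul, List.map_cons, List.prod_cons, mul_one] at h5
  have h7 : M.gd.ev u.2 = 1 := by
    rw [mul_inv_eq_one] at h5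
    exact mul_eq_left.1 h5
  rw [hu] at h3 h4 h7
  obtain rfl := NF.orbL_minimal hk hr h3
  obtain ⟨j, rfl⟩ := (NF.mem_orbL_period hk).1 ((h4 d).2 ⟨hd, hs⟩)
  exact bunorb_prod M.gd.val (Function.minimalPeriod_pos_iff_mem_periodicPts.1 hk) h7 j n hn

end Pool.Agent.MC
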