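import Pool.Agent.P.MP_2677b3_gt.BuApi
import Pool.Agent.P.MP_2677b3_gt.BuNorb

namespace Pool.Agent.MC

theorem buas1_fk (k : ℕ) (d : Dart) : fk k d = (fun x => lf (rv x))^[k] (rv d) := by
  induction k with
  | zero => rfl
  | succ k ih => rw [Function.iterate_succ_apply', ← ih]; rfl

theorem buas1_four (d : Dart) : (fun x => lf (rv x))^[4] d = d := by revert d; decide

theorem buas1_small : ∀ k < 4, ∀ d : Dart, (fun x => lf (rv x))^[k] d = d → k = 0 := by
  decide +kernel

theorem buas1_dvd {w : ℕ} {d : Dart} (h : (fun x => lf (rv x))^[w] d = d) : 4 ∣ w := by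
  have h1 : Function.IsPeriodicPt (fun x => lf (rv x)) w d := h
  have h2 : Function.IsPeriodicPt (fun x => lf (rv x)) 4 d := buas1_four d
  exact Nat.dvd_of_mod_eq_zero (buas1_small _ (Nat.mod_lt _ (by norm_num)) d (h1.mod h2))

theorem buas1_sum_mul {D : Type} (f : D → D) (a : D → ℕ) {p : ℕ} {d : D} (h : f^[p] d = d)
    (q : ℕ) : ∑ i ∈ Finset.range (p * q), a (f^[i] d) =
      q * ∑ i ∈ Finset.range p, a (f^[i] d) := by
  induction q with
  | zero => simp
  | succ q ih =>
    have h1 : f^[p * q] d = d := (show Function.IsPeriodicPt f p d from h).mul_const q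
    rw [Nat.mul_succ, Finset.sum_range_add, ih, Nat.succ_mul]
    refine congrArg _ (Finset.sum_congr rfl fun i _ => ?_)
    rw [add_comm, Function.iterate_add_apply, h1]

theorem buas1_shift {D : Type} (f : D → D) (a : D → ℕ) {p : ℕ} {d : D} (h : f^[p] d = d) :
    ∑ i ∈ Finset.range p, a (f (f^[i] d)) = ∑ i ∈ Finset.range p, a (f^[i] d) := by
  have h1 := Finset.sum_range_succ (fun i => a (f^[i] d)) p
  rw [Finset.sum_range_succ', h] at h1
  simp only [Function.iterate_succ_apply', Function.iterate_zero, id] at h1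
  exact Nat.add_right_cancel h1

namespace TD
variable {G : GS} {B : ℕ} (T : TD G B)

theorem buas1_phi_inl (s : T.S) (h : ¬ T.des s) :
    T.map.φ (.inl (T.m s)) = .inl (T.nx s) := by
  show T.φf (.inl (T.m s)) = _
  simp only [φf]
  rw [dif_neg (by rw [T.mm]; exact h), T.mm]

theorem buas1_phi_inl' (s : T.S) (h : T.des s) : T.map.φ (.inl (T.m s)) = .inr ⟨s, h⟩ := by
  show T.φf (.inl (T.m s)) = _
  simp only [φf]
  rw [dif_pos (by rw [T.mm]; exact h)]
  exact congrArg Sum.inr (Subtype.ext (T.mm s))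

theorem buas1_phi_inr (s : T.S) (h : T.des s) : T.map.φ (.inr ⟨s, h⟩) = .inl (T.nx s) := rfl

theorem psi_inl (s : T.S) (h : ¬ T.des s) : T.map.ψ (.inl s) = .inl (T.nx s) :=
  T.buas1_phi_inl s h

theorem psi_inl' (s : T.S) (h : T.des s) : T.map.ψ (.inl s) = .inr ⟨s, h⟩ :=
  T.buas1_phi_inl' s h

theorem psi_inr (s : T.S) (h : T.des s) : T.map.ψ (.inr ⟨s, h⟩) = .inl (T.π s) :=
  congrArg Sum.inl (T.π_nx s h)

theorem buas1_wt (s : T.S) : T.wt (.inl (T.nx s)) = ang (T.lab s) (T.lab (T.nx s)) := by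
  show ang (T.lab (T.nx.symm (T.nx s))) _ = _
  rw [Equiv.symm_apply_apply]

/-- The label of a dart of the dual map. -/
def buas1_L : T.map.D → Dart
  | .inl s => T.lab s
  | .inr s => rv (T.lab s.1)

theorem buas1_L_nx (s : T.S) : T.buas1_L (.inl (T.nx s)) =
    (fun x => lf (rv x))^[T.wt (.inl (T.nx s))] (rv (T.lab s)) := by
  rw [buas1_wt, ← buas1_fk]
  exact fk_ang (T.pos s)

theorem buas1_L_phi (d : T.map.D) :
    T.buas1_L (T.map.φ d) = (fun x => lf (rv x))^[T.wt (T.map.φ d)] (T.buas1_L d) := by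
  rcases d with s | ⟨s, h⟩
  · obtain ⟨s, rfl⟩ := T.m.surjective s
    have e : T.buas1_L (.inl (T.m s)) = rv (T.lab s) := T.lab_m s
    rw [e]
    by_cases h : T.des s
    · rw [T.buas1_phi_inl' s h]; rfl
    · rw [T.buas1_phi_inl s h]; exact T.buas1_L_nx s
  · exact T.buas1_L_nx s

theorem buas1_L_iter (d : T.map.D) (n : ℕ) : T.buas1_L (T.map.φ^[n] d) =
    (fun x => lf (rv x))^[∑ i ∈ Finset.range n, T.wt (T.map.φ (T.map.φ^[i] d))]
      (T.buas1_L d) := by
  induction n with
  | zero => rfl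
  | succ n ih =>
    rw [Function.iterate_succ_apply', buas1_L_phi, ih, Finset.sum_range_succ, add_comm,
      Function.iterate_add_apply]

theorem buas1_step (d : T.map.D) :
    Walk T.map.φ (fun d => T.wt (T.map.φ d)) d (T.map.φ d) (T.wt (T.map.φ d)) :=
  Walk.step (n := 0) (Walk.refl _)

theorem buas1_walk_inl (s : T.S) :
    Walk T.map.φ (fun d => T.wt (T.map.φ d)) (.inl (T.m s)) (.inl (T.m s)) 4 := by
  refine Walk.sim (S' := T.map.D) (fun s => Sum.inl (T.m s)) (fun s => ?_) (T.node s)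
  rw [T.mm, ← buas1_wt]
  have h1 := T.buas1_step (.inl (T.m s))
  by_cases h : T.des s
  · rw [T.buas1_phi_inl' s h] at h1
    have h2 := h1.trans (T.buas1_step _)
    rwa [show T.wt (.inr ⟨s, h⟩) = 0 from rfl, Nat.zero_add] at h2
  · rwa [T.buas1_phi_inl s h] at h1

theorem buas1_walk (d : T.map.D) : Walk T.map.φ (fun d => T.wt (T.map.φ d)) d d 4 := by
  rcases d with s | ⟨s, h⟩
  · obtain ⟨s, rfl⟩ := T.m.surjective s
    exact T.buas1_walk_inl s
  · have := (T.buas1_walk_inl s).shift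
    rwa [T.buas1_phi_inl' s h] at this

/-- The corner angles of every face of the dual map add up to four. -/
theorem face_weight (d : T.map.D) :
    ∑ i ∈ Finset.range (Function.minimalPeriod T.map.φ d), T.wt (T.map.φ^[i] d) = 4 := by
  obtain ⟨k, hk, hs⟩ := walk_iff.1 (T.buas1_walk d)
  have hp : T.map.φ^[Function.minimalPeriod T.map.φ d] d = d :=
    Function.isPeriodicPt_minimalPeriod _ _
  obtain ⟨q, rfl⟩ := (show Function.IsPeriodicPt T.map.φ k d from hk).minimalPeriod_dvd
  have h1 := T.buas1_L_iter d (Function.minimalPeriod T.map.φ d)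
  rw [hp, buas1_shift _ _ hp] at h1
  rw [buas1_shift _ _ hk, buas1_sum_mul _ _ hp] at hs
  exact Nat.dvd_antisymm (Dvd.intro_left _ hs) (buas1_dvd h1.symm)

end TD

end Pool.Agent.MC
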