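import Pool.Agent.P.MP_2677b3_gt.BuAs1

namespace Pool.Agent.MC

theorem buas2_src_psi {M : CMap} (d : M.D) : M.gd.src (M.ψ d) = M.gd.src d :=
  Quotient.sound (Equiv.Perm.sameCycle_apply_left.2 (Equiv.Perm.SameCycle.refl _ _))

theorem buas2_ev_cons {M : CMap} {d : M.D} {p : List M.D} :
    M.gd.ev (List.cons (α := M.D) d p) = M.gd.val d * M.gd.ev p := Gd.ev_cons (A := M.gd) d p

theorem buas2_orbL {D : Type} (f : D → D) (d : D) (n : ℕ) :
    orbL f d (n + 1) = d :: orbL f (f d) n := by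
  rw [orbL, List.range_succ_eq_map, List.map_cons, List.map_map]
  rfl

namespace TD
variable {G : GS} {B : ℕ} (T : TD G B)

theorem dep_le (s : T.S) : T.dep s ≤ B := by
  classical
  obtain ⟨k, hk, h⟩ := T.chain s
  exact (Nat.find_min' _ h).trans hk

theorem dn_not_des (s : T.S) : ¬ T.des (T.dn s) := by
  classical
  exact Nat.find_spec (p := fun k => ¬ T.des ((fun s => T.m (T.π s))^[k] s))
    ((T.chain s).imp fun _ h => h.2)

theorem dn_of_not (s : T.S) (h : ¬ T.des s) : T.dep s = 0 ∧ T.dn s = s ∧ T.chi s = [] := by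
  classical
  have h0 : T.dep s = 0 := (Nat.find_eq_zero _).2 h
  exact ⟨h0, by rw [dn, h0]; rfl, by rw [chi, h0]; rfl⟩

theorem dn_of_des (s : T.S) (h : T.des s) : T.dep s = T.dep (T.m (T.π s)) + 1 ∧
    T.dn s = T.dn (T.m (T.π s)) ∧ T.chi s = .inl (T.π s) :: T.chi (T.m (T.π s)) := by
  classical
  have h0 : T.dep s = T.dep (T.m (T.π s)) + 1 := by
    refine (Nat.find_eq_iff _).2 ⟨T.dn_not_des (T.m (T.π s)), fun n hn => ?_⟩
    cases n with
    | zero => exact not_not.2 h
    | succ n =>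
      exact Nat.find_min (p := fun k => ¬ T.des ((fun s => T.m (T.π s))^[k] (T.m (T.π s))))
        ((T.chain _).imp fun _ h => h.2) (Nat.lt_of_succ_lt_succ hn)
  refine ⟨h0, by rw [dn, h0]; rfl, ?_⟩
  rw [chi, h0, List.range_succ_eq_map, List.map_cons, List.map_map]
  rfl

theorem buas2_ind {P : T.S → Prop} (h0 : ∀ s, ¬ T.des s → P s)
    (h1 : ∀ s, T.des s → P (T.m (T.π s)) → P s) (s : T.S) : P s := by
  generalize hn : T.dep s = n
  induction n generalizing s with
  | zero =>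
    refine h0 s fun h => ?_
    have := (T.dn_of_des s h).1
    omega
  | succ n ih =>
    by_cases h : T.des s
    · have := (T.dn_of_des s h).1
      exact h1 s h (ih _ (by omega))
    · exact h0 s h

theorem buas2_len (s : T.S) : (T.chi s).length = T.dep s := by
  rw [chi, List.length_map, List.length_range]

theorem buas2_val (s : T.S) : T.map.gd.val (.inl (T.m s)) = (T.map.gd.val (.inl s))⁻¹ :=
  T.map.gd.val_inv (.inl s)

theorem lab_dn (s : T.S) : T.lab (T.dn s) = T.lab s := by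
  induction s using T.buas2_ind with
  | h0 s h => rw [(T.dn_of_not s h).2.1]
  | h1 s h ih => rw [(T.dn_of_des s h).2.1, ih, T.lab_m, T.lab_π s h, rv_rv]

theorem src_pi (s : T.S) (h : T.des s) :
    T.map.gd.src (.inl (T.π s)) = T.map.gd.src (.inl s) := by
  rw [← T.psi_inr s h, buas2_src_psi, ← T.psi_inl' s h, buas2_src_psi]

theorem src_nx (s : T.S) (h : ¬ T.des s) :
    T.map.gd.src (.inl (T.nx s)) = T.map.gd.src (.inl s) := by
  rw [← T.psi_inl s h, buas2_src_psi]

theorem src_inr (s : T.S) (h : T.des s) :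
    T.map.gd.src (.inr ⟨s, h⟩) = T.map.gd.src (.inl s) ∧
    T.map.gd.tgt (.inr ⟨s, h⟩) = T.map.gd.src (.inl (T.nx s)) := by
  have h1 : ∀ t (ht : T.des t), T.map.gd.src (.inr ⟨t, ht⟩) = T.map.gd.src (.inl t) := by
    intro t ht
    rw [← T.psi_inl' t ht, buas2_src_psi]
  refine ⟨h1 s h, ?_⟩
  have h2 : T.des (T.nx s) := (T.des_nx s).2 h
  exact (h1 _ ((T.des_π _).2 h2)).trans (T.src_pi _ h2)

/-- Two sides have the same face in the thick picture only in the obvious cases. -/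
theorem src_eq {s t : T.S} (h : T.map.gd.src (.inl s) = T.map.gd.src (.inl t)) :
    (T.des s ∧ (t = s ∨ t = T.π s)) ∨ (¬ T.des s ∧ ∃ k : ℕ, T.nx^[k] s = t) := by
  have hc : T.map.ψ.SameCycle (.inl s) (.inl t) := Quotient.exact h
  obtain ⟨n, hn⟩ := hc.exists_nat_pow_eq
  rw [Equiv.Perm.coe_pow] at hn
  by_cases hs : T.des s
  · have hp : T.des (T.π s) := (T.des_π s).2 hs
    have key : ∀ k : ℕ, T.map.ψ^[k] (.inl s) = .inl s ∨ T.map.ψ^[k] (.inl s) = .inr ⟨s, hs⟩ ∨
        T.map.ψ^[k] (.inl s) = .inl (T.π s) ∨ T.map.ψ^[k] (.inl s) = .inr ⟨T.π s, hp⟩ := by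
      intro k
      induction k with
      | zero => exact Or.inl rfl
      | succ k ih =>
        rw [Function.iterate_succ_apply']
        rcases ih with e | e | e | e <;> rw [e]
        · exact Or.inr (Or.inl (T.psi_inl' s hs))
        · exact Or.inr (Or.inr (Or.inl (T.psi_inr s hs)))
        · exact Or.inr (Or.inr (Or.inr (T.psi_inl' _ hp)))
        · exact Or.inl ((T.psi_inr _ hp).trans (by rw [T.ππ]))
    refine Or.inl ⟨hs, ?_⟩
    rcases key n with e | e | e | e
    · exact Or.inl (Sum.inl.inj (hn.symm.trans e))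
    · exact absurd (hn.symm.trans e) Sum.inl_ne_inr
    · exact Or.inr (Sum.inl.inj (hn.symm.trans e))
    · exact absurd (hn.symm.trans e) Sum.inl_ne_inr
  · have key : ∀ k : ℕ, T.map.ψ^[k] (.inl s) = .inl (T.nx^[k] s) ∧ ¬ T.des (T.nx^[k] s) := by
      intro k
      induction k with
      | zero => exact ⟨rfl, hs⟩
      | succ k ih =>
        rw [Function.iterate_succ_apply', Function.iterate_succ_apply', ih.1]
        exact ⟨T.psi_inl _ ih.2, fun e => ih.2 ((T.des_nx _).1 e)⟩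
    exact Or.inr ⟨hs, n, Sum.inl.inj ((key n).1.symm.trans hn)⟩

theorem chi_path (s : T.S) :
    T.map.gd.Path (T.map.gd.src (.inl s)) (T.chi s) (T.map.gd.src (.inl (T.dn s))) ∧
    (T.chi s).length ≤ B := by
  refine ⟨?_, (T.buas2_len s).trans_le (T.dep_le s)⟩
  induction s using T.buas2_ind with
  | h0 s h =>
    rw [(T.dn_of_not s h).2.1, (T.dn_of_not s h).2.2]
    exact rfl
  | h1 s h ih =>
    rw [(T.dn_of_des s h).2.1, (T.dn_of_des s h).2.2]
    exact ⟨T.src_pi s h, ih⟩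

theorem kap_path (s : T.S) :
    T.map.gd.Path (T.map.gd.src (.inl s)) (T.kap s) (T.map.gd.src (.inl (T.far s))) := by
  exact ⟨rfl, (T.chi_path (T.m s)).1⟩

theorem far_dn (s : T.S) : T.far (T.dn s) = T.far s := by
  induction s using T.buas2_ind with
  | h0 s h => rw [(T.dn_of_not s h).2.1]
  | h1 s h ih =>
    rw [(T.dn_of_des s h).2.1, ih, far, far, T.mm, (T.dn_of_des _ ((T.des_π s).2 h)).2.1, T.ππ]

theorem far_far (s : T.S) : T.far (T.far s) = T.dn s := by
  rw [show T.far s = T.dn (T.m s) from rfl, far_dn, far, T.mm]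

theorem ev_kap_dn (s : T.S) :
    T.map.gd.ev (T.chi s) * T.map.gd.ev (T.kap (T.dn s)) = T.map.gd.ev (T.kap s) := by
  induction s using T.buas2_ind with
  | h0 s h =>
    rw [(T.dn_of_not s h).2.1, (T.dn_of_not s h).2.2]
    exact one_mul _
  | h1 s h ih =>
    have e := (T.dn_of_des _ ((T.des_π s).2 h)).2.2
    rw [T.ππ] at e
    rw [(T.dn_of_des s h).2.1, (T.dn_of_des s h).2.2, buas2_ev_cons, mul_assoc, ih, kap,
      buas2_ev_cons, T.mm, T.buas2_val, mul_inv_cancel_left, e, kap]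

theorem ev_kap_far (s : T.S) (h : ¬ T.des s) :
    T.map.gd.ev (T.kap (T.far s)) = (T.map.gd.ev (T.kap s))⁻¹ := by
  have h1 := T.ev_kap_dn (T.m s)
  have h2 : T.map.gd.ev (T.kap (T.m s)) = (T.map.gd.val (.inl s))⁻¹ := by
    rw [kap, buas2_ev_cons, T.mm, (T.dn_of_not s h).2.2, T.buas2_val]
    exact mul_one _
  rw [h2] at h1
  have h3 : T.map.gd.ev (T.kap s) = T.map.gd.val (.inl s) * T.map.gd.ev (T.chi (T.m s)) :=
    buas2_ev_cons
  rw [h3, mul_inv_rev, ← h1, inv_mul_cancel_left]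
  rfl

theorem bd_side (s : T.S) : (T.des (T.m s) → T.map.bd T.Side (.inl s) = .inl (T.π (T.m s))) ∧
    (¬ T.des (T.m s) → T.map.bd T.Side (.inl s) = .inl (T.nx (T.m s))) := by
  constructor
  · intro h
    have e : T.map.φ (.inl s) = .inr ⟨T.m s, h⟩ := dif_pos h
    have e' : T.map.ψ^[1] (T.map.φ (.inl s)) = .inl (T.π (T.m s)) := by
      rw [e]
      exact T.psi_inr _ h
    rw [bu_bd_eq 1 (by rw [e']; rfl) ?_, e']
    intro i hi
    obtain rfl : i = 0 := by omega
    rw [e]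
    exact Bool.false_ne_true
  · intro h
    have e : T.map.φ (.inl s) = .inl (T.nx (T.m s)) := dif_neg h
    rw [bu_bd_eq 0 (by rw [e]; rfl) (fun i hi => absurd hi (Nat.not_lt_zero i)), e]
    rfl

theorem orbL_kap (s : T.S) :
    orbL (T.map.bd T.Side) (.inl s) (T.kap s).length = T.kap s ∧
    (T.map.bd T.Side)^[(T.kap s).length] (.inl s) = .inl (T.nx (T.far s)) := by
  have key : ∀ t, orbL (T.map.bd T.Side) (.inl (T.m t)) (T.dep t + 1) = .inl (T.m t) :: T.chi t ∧
      (T.map.bd T.Side)^[T.dep t + 1] (.inl (T.m t)) = .inl (T.nx (T.dn t)) := by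
    intro t
    induction t using T.buas2_ind with
    | h0 t h =>
      obtain ⟨h1, h2, h3⟩ := T.dn_of_not t h
      have e := (T.bd_side (T.m t)).2 (by rwa [T.mm])
      rw [T.mm] at e
      rw [h1, h2, h3]
      exact ⟨rfl, e⟩
    | h1 t h ih =>
      obtain ⟨h1, h2, h3⟩ := T.dn_of_des t h
      have e := (T.bd_side (T.m t)).1 (by rwa [T.mm])
      rw [T.mm] at e ih
      rw [h1, h2, h3, buas2_orbL, Function.iterate_succ_apply, e, ih.1]
      exact ⟨rfl, ih.2⟩
  have hl : (T.kap s).length = T.dep (T.m s) + 1 := by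
    rw [kap, List.length_cons, T.buas2_len]
  have h := key (T.m s)
  rw [T.mm] at h
  rw [hl]
  exact h

end TD

end Pool.Agent.MC
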