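import Pool.Agent.P.MP_2677b3_gt.BuAs2

namespace Pool.Agent.MC

theorem buas3_orbL_add {D : Type} (f : D → D) (d : D) (a b : ℕ) :
    orbL f d (a + b) = orbL f d a ++ orbL f (f^[a] d) b := by
  unfold orbL
  rw [List.range_add, List.map_append, List.map_map]
  congr 1
  refine List.map_congr_left fun i _ => ?_
  show f^[a + i] d = f^[i] (f^[a] d)
  rw [add_comm, Function.iterate_add_apply]

theorem buas3_period (d : Dart) : lf (rv d) ≠ d ∧ lf (rv (lf (rv d))) ≠ d ∧
    lf (rv (lf (rv (lf (rv d))))) ≠ d ∧ lf (rv (lf (rv (lf (rv (lf (rv d))))))) = d := by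
  revert d; decide

theorem buas3_ang_lf (d : Dart) : ang d (lf d) = 1 := by revert d; decide

theorem buas3_ev4 (A : Gd) (a b c d : List A.E) (h : A.ev (a ++ (b ++ (c ++ d))) = 1) :
    A.ev a * A.ev b * A.ev c * A.ev d = 1 := by
  rw [Gd.ev_append, Gd.ev_append, Gd.ev_append] at h
  rw [mul_assoc, mul_assoc]
  exact h

namespace TD
variable {G : GS} {B : ℕ} (T : TD G B)

theorem buas3_phi_inr (u : {s : T.S // T.des s}) : T.map.φ (.inr u) = .inl (T.nx u.1) := rfl

theorem buas3_alpha_inr (u : {s : T.S // T.des s}) :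
    T.map.α (.inr u) = .inr ⟨T.π (T.nx u.1), (T.des_π _).2 ((T.des_nx _).2 u.2)⟩ := rfl

theorem buas3_alpha_inl (s : T.S) : T.map.α (.inl s) = .inl (T.m s) := rfl

theorem buas3_rung_iff {H : T.map.D → Prop} (hα : ∀ d, H d → H (T.map.α d)) (d₀ : T.map.D)
    (u : {s : T.S // T.des s}) :
    T.map.Same H d₀ (.inl (T.nx u.1)) ↔ T.map.Same H d₀ (.inr u) := by
  have h1 : T.map.Same H (.inr u) (.inl (T.nx u.1)) :=
    Relation.ReflTransGen.single (Or.inl (T.buas3_phi_inr u).symm)
  exact ⟨fun h => Relation.ReflTransGen.trans h (bu_same_symm hα h1),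
    fun h => Relation.ReflTransGen.trans h h1⟩

theorem buas3_ang_pair (s : T.S) (h : T.des s) :
    ang (T.lab s) (T.lab (T.nx s)) +
      ang (T.lab (T.π (T.nx s))) (T.lab (T.nx (T.π (T.nx s)))) = 4 := by
  rw [T.π_nx s h, T.lab_π _ ((T.des_nx s).2 h), T.lab_π s h]
  exact ang_mirror _ _ ⟨T.pos s, T.fw s h⟩

open Classical in
theorem buas3_sides (H : T.map.D → Prop) (d₀ : T.map.D) :
    ∑ d ∈ Finset.univ.filter (fun d => T.map.Same H d₀ d), T.wt d =
      ∑ t ∈ Finset.univ.filter (fun t : T.S => T.map.Same H d₀ (.inl t)),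
        ang (T.lab (T.nx.symm t)) (T.lab t) := by
  have e := Finset.sum_map (Finset.univ.filter (fun t : T.S => T.map.Same H d₀ (.inl t)))
    (⟨fun t => (Sum.inl t : T.map.D), fun _ _ h => Sum.inl_injective h⟩ : T.S ↪ T.map.D) T.wt
  refine Eq.trans ?_ e
  symm
  refine Finset.sum_subset ?_ ?_
  · intro d hd
    obtain ⟨t, ht, rfl⟩ := Finset.mem_map.1 hd
    exact Finset.mem_filter.2 ⟨Finset.mem_univ _, (Finset.mem_filter.1 ht).2⟩
  · rintro (t | u) hd hn
    · exact absurd (Finset.mem_map.2 ⟨t, Finset.mem_filter.2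
        ⟨Finset.mem_univ _, (Finset.mem_filter.1 hd).2⟩, rfl⟩) hn
    · rfl

open Classical in
theorem buas3_inner (H : T.map.D → Prop) (hα : ∀ d, H d → H (T.map.α d)) (hS : ∀ s, H (.inl s))
    (d₀ : T.map.D) :
    (∑ u ∈ Finset.univ.filter fun u : {s : T.S // T.des s} =>
        ¬ H (.inr u) ∧ T.map.Same H d₀ (.inr u), ang (T.lab u.1) (T.lab (T.nx u.1))) =
      2 * (Finset.univ.filter fun d => T.map.Same H d₀ d ∧ ¬ H d).card := by
  set N := Finset.univ.filter fun u : {s : T.S // T.des s} =>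
    ¬ H (.inr u) ∧ T.map.Same H d₀ (.inr u) with hN
  have hcard : (Finset.univ.filter fun d => T.map.Same H d₀ d ∧ ¬ H d).card = N.card := by
    symm
    refine Finset.card_bij (fun u _ => (Sum.inr u : T.map.D)) ?_ ?_ ?_
    · intro u hu
      have := (Finset.mem_filter.1 hu).2
      exact Finset.mem_filter.2 ⟨Finset.mem_univ _, this.2, this.1⟩
    · intro u _ v _ e
      exact Sum.inr_injective e
    · rintro (t | u) hd
      · exact absurd (hS t) (Finset.mem_filter.1 hd).2.2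
      · have := (Finset.mem_filter.1 hd).2
        exact ⟨u, Finset.mem_filter.2 ⟨Finset.mem_univ _, this.2, this.1⟩, rfl⟩
  let σ : {s : T.S // T.des s} → {s : T.S // T.des s} :=
    fun u => ⟨T.π (T.nx u.1), (T.des_π _).2 ((T.des_nx _).2 u.2)⟩
  have hσσ : ∀ u, σ (σ u) = u := fun u => Subtype.ext (by
    show T.π (T.nx (T.π (T.nx u.1))) = u.1
    rw [T.π_nx u.1 u.2, T.ππ])
  have hσN : ∀ u ∈ N, σ u ∈ N := by
    intro u hu
    obtain ⟨h1, h2⟩ := (Finset.mem_filter.1 hu).2
    refine Finset.mem_filter.2 ⟨Finset.mem_univ _, fun h => h1 ?_, ?_⟩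
    · have h3 := hα _ h
      have e : T.map.α (.inr (σ u)) = .inr u := congrArg Sum.inr (hσσ u)
      rwa [e] at h3
    · exact Relation.ReflTransGen.tail h2 (Or.inr ⟨h1, (T.buas3_alpha_inr u).symm⟩)
  have hsum : ∑ u ∈ N, ang (T.lab (σ u).1) (T.lab (T.nx (σ u).1)) =
      ∑ u ∈ N, ang (T.lab u.1) (T.lab (T.nx u.1)) :=
    Finset.sum_nbij' σ σ hσN hσN (fun u _ => hσσ u) (fun u _ => hσσ u) fun _ _ => rfl
  have h4 : ∑ u ∈ N, (ang (T.lab u.1) (T.lab (T.nx u.1)) +
      ang (T.lab (σ u).1) (T.lab (T.nx (σ u).1))) = ∑ _u ∈ N, 4 :=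
    Finset.sum_congr rfl fun u _ => T.buas3_ang_pair u.1 u.2
  rw [Finset.sum_add_distrib, hsum, Finset.sum_const, smul_eq_mul] at h4
  rw [hcard]
  omega

open Classical in
/-- Angle count in a region of the dual map cut along all sides and some rungs. -/
theorem count (H : T.map.D → Prop) (hα : ∀ d, H d → H (T.map.α d)) (hS : ∀ s, H (.inl s))
    (d₀ : T.map.D) :
    (Finset.univ.filter fun t : T.S => ¬ T.des t ∧ T.map.Same H d₀ (.inl t)).card +
      (∑ u ∈ Finset.univ.filter fun u : {s : T.S // T.des s} =>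
        H (.inr u) ∧ T.map.Same H d₀ (.inr u), ang (T.lab u.1) (T.lab (T.nx u.1))) +
      2 * (Finset.univ.filter fun d => T.map.Same H d₀ d ∧ ¬ H d).card =
    4 * norb T.map.φ (Finset.univ.filter fun d => T.map.Same H d₀ d) := by
  rw [← sum_eq_mul_norb T.map.φ (Finset.univ.filter fun d => T.map.Same H d₀ d)
    (fun d hd => Finset.mem_filter.2 ⟨Finset.mem_univ _,
      Relation.ReflTransGen.tail (Finset.mem_filter.1 hd).2 (Or.inl rfl)⟩) T.wt 4
    (fun d _ => T.face_weight d), T.buas3_sides H d₀, ← T.buas3_inner H hα hS d₀,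
    ← Finset.sum_filter_add_sum_filter_not _ (fun t => T.des t)]
  have e1 : ∑ t ∈ (Finset.univ.filter fun t : T.S => T.map.Same H d₀ (.inl t)).filter
      (fun t => ¬ T.des t), ang (T.lab (T.nx.symm t)) (T.lab t) =
      (Finset.univ.filter fun t : T.S => ¬ T.des t ∧ T.map.Same H d₀ (.inl t)).card := by
    rw [Finset.card_eq_sum_ones]
    refine Finset.sum_congr ?_ ?_
    · ext t
      simp only [Finset.mem_filter, Finset.mem_univ, true_and]
      exact and_comm
    · intro t ht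
      have h1 : ¬ T.des t := (Finset.mem_filter.1 ht).2.1
      have h2 : ¬ T.des (T.nx.symm t) := fun h => h1 (by
        have := (T.des_nx _).2 h
        rwa [Equiv.apply_symm_apply] at this)
      have h3 := (T.tile _ h2).1
      rw [Equiv.apply_symm_apply] at h3
      rw [h3]
      exact buas3_ang_lf _
  have e2 : ∑ u ∈ Finset.univ.filter (fun u : {s : T.S // T.des s} => T.map.Same H d₀ (.inr u)),
      ang (T.lab u.1) (T.lab (T.nx u.1)) =
      ∑ t ∈ (Finset.univ.filter fun t : T.S => T.map.Same H d₀ (.inl t)).filter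
      (fun t => T.des t), ang (T.lab (T.nx.symm t)) (T.lab t) := by
    refine Finset.sum_bij (fun u _ => T.nx u.1) ?_ ?_ ?_ ?_
    · intro u hu
      exact Finset.mem_filter.2 ⟨Finset.mem_filter.2 ⟨Finset.mem_univ _,
        (T.buas3_rung_iff hα d₀ u).2 (Finset.mem_filter.1 hu).2⟩, (T.des_nx _).2 u.2⟩
    · intro u _ v _ e
      exact Subtype.ext (T.nx.injective e)
    · intro t ht
      obtain ⟨h1, h2⟩ := Finset.mem_filter.1 ht
      have h3 : T.des (T.nx.symm t) := (T.des_nx _).1 (by rwa [Equiv.apply_symm_apply])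
      refine ⟨⟨T.nx.symm t, h3⟩, Finset.mem_filter.2 ⟨Finset.mem_univ _,
        (T.buas3_rung_iff hα d₀ ⟨T.nx.symm t, h3⟩).1 ?_⟩, T.nx.apply_symm_apply t⟩
      have h4 := (Finset.mem_filter.1 h1).2
      show T.map.Same H d₀ (.inl (T.nx (T.nx.symm t)))
      rwa [Equiv.apply_symm_apply]
    · intro u _
      rw [Equiv.symm_apply_apply]
  rw [e1, ← e2, ← Finset.sum_filter_add_sum_filter_not
    (Finset.univ.filter fun u : {s : T.S // T.des s} => T.map.Same H d₀ (.inr u))
    (fun u => H (.inr u)), Finset.filter_filter, Finset.filter_filter]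
  simp only [and_comm (a := T.map.Same H d₀ _) (b := H _),
    and_comm (a := T.map.Same H d₀ _) (b := ¬ H _)]
  omega

theorem buas3_side_alpha (d : T.map.D) (h : T.Side d) : T.Side (T.map.α d) := by
  rcases d with s | u
  · rfl
  · exact absurd h (by simp [Side])

theorem buas3_same_step (t : T.S) (h : T.des t) :
    T.map.Same T.Side (.inl t) (.inl (T.m (T.π t))) := by
  have h1 : T.des (T.m (T.m (T.π t))) := by rw [T.mm]; exact (T.des_π t).2 h
  have h2 := (T.bd_side (T.m (T.π t))).1 h1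
  rw [T.mm, T.ππ] at h2
  have h3 := (bu_bd_mem (M := T.map) (H := T.Side) T.buas3_side_alpha
    (d := .inl (T.m (T.π t))) rfl).2.1
  rw [h2] at h3
  exact bu_same_symm T.buas3_side_alpha h3

theorem buas3_same_dn (t : T.S) : T.map.Same T.Side (.inl t) (.inl (T.dn t)) := by
  induction hn : T.dep t generalizing t with
  | zero =>
    by_cases h : T.des t
    · have := (T.dn_of_des t h).1
      omega
    · rw [(T.dn_of_not t h).2.1]
      exact Relation.ReflTransGen.refl
  | succ n ih =>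
    by_cases h : T.des t
    · obtain ⟨h1, h2, -⟩ := T.dn_of_des t h
      rw [h2]
      exact Relation.ReflTransGen.trans (T.buas3_same_step t h) (ih _ (by omega))
    · rw [(T.dn_of_not t h).2.1]
      exact Relation.ReflTransGen.refl

open Classical in
theorem buas3_disc (s : T.S) :
    (Finset.univ.filter fun t : T.S => ¬ T.des t ∧ T.map.Same T.Side (.inl s) (.inl t)).card = 4 ∧
    ∀ d n, T.Side d → T.map.Same T.Side (.inl s) d → (T.map.bd T.Side)^[n] d = d →
      T.map.gd.ev (orbL (T.map.bd T.Side) d n) = 1 := by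
  have hc := T.count T.Side T.buas3_side_alpha (fun _ => rfl) (.inl s)
  have h0 : (∑ u ∈ Finset.univ.filter fun u : {s : T.S // T.des s} =>
      T.Side (.inr u) ∧ T.map.Same T.Side (.inl s) (.inr u),
      ang (T.lab u.1) (T.lab (T.nx u.1))) = 0 :=
    Finset.sum_eq_zero fun u hu => absurd (Finset.mem_filter.1 hu).2.1 (by simp [Side])
  have h1 : 0 < (Finset.univ.filter fun t : T.S =>
      ¬ T.des t ∧ T.map.Same T.Side (.inl s) (.inl t)).card :=
    Finset.card_pos.2 ⟨T.dn s, Finset.mem_filter.2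
      ⟨Finset.mem_univ _, T.dn_not_des s, T.buas3_same_dn s⟩⟩
  rw [h0] at hc
  obtain ⟨h2, h3⟩ := nf_disc T.map T.Side T.buas3_side_alpha (.inl s)
    ⟨.inl s, rfl, Relation.ReflTransGen.refl⟩ (by omega)
  exact ⟨by omega, h3⟩

open Classical in
theorem sides_card (s : T.S) :
    (Finset.univ.filter fun t : T.S => ¬ T.des t ∧ T.map.Same T.Side (.inl s) (.inl t)).card = 4 ∧
    (Finset.univ.filter fun t : T.S => T.map.Same T.Side (.inl s) (.inl t)).card ≤ 4 * B + 4 := by
  have h4 := (T.buas3_disc s).1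
  refine ⟨h4, ?_⟩
  have h := Finset.card_le_card_of_injOn (fun t : T.S => (T.dn t, T.dep t))
    (s := Finset.univ.filter fun t : T.S => T.map.Same T.Side (.inl s) (.inl t))
    (t := (Finset.univ.filter fun t : T.S => ¬ T.des t ∧ T.map.Same T.Side (.inl s) (.inl t)) ×ˢ
      Finset.range (B + 1)) ?_ ?_
  · rw [Finset.card_product, h4, Finset.card_range] at h
    omega
  · intro t ht
    have h1 := (Finset.mem_filter.1 (Finset.mem_coe.1 ht)).2
    exact Finset.mem_coe.2 (Finset.mem_product.2 ⟨Finset.mem_filter.2 ⟨Finset.mem_univ _,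
      T.dn_not_des t, Relation.ReflTransGen.trans h1 (T.buas3_same_dn t)⟩,
      Finset.mem_range.2 (Nat.lt_succ_of_le (T.dep_le t))⟩)
  · intro t _ t' _ e
    have e1 : T.dn t = T.dn t' := congrArg Prod.fst e
    have e2 : T.dep t = T.dep t' := congrArg Prod.snd e
    unfold dn at e1
    rw [e2] at e1
    have hi : Function.Injective fun s => T.m (T.π s) :=
      fun a b h => T.π.injective (T.m.injective h)
    exact (hi.iterate _) e1

theorem buas3_same_iter (d : T.map.D) (h : T.Side d) (n : ℕ) :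
    T.Side ((T.map.bd T.Side)^[n] d) ∧ T.map.Same T.Side d ((T.map.bd T.Side)^[n] d) := by
  induction n with
  | zero => exact ⟨h, Relation.ReflTransGen.refl⟩
  | succ n ih =>
    rw [Function.iterate_succ_apply']
    obtain ⟨h1, h2, -⟩ := bu_bd_mem (M := T.map) (H := T.Side) T.buas3_side_alpha ih.1
    exact ⟨h1, Relation.ReflTransGen.trans ih.2 h2⟩

theorem buas3_next (s : T.S) : ¬ T.des (T.nx (T.far s)) ∧
    T.lab (T.nx (T.far s)) = lf (rv (T.lab s)) ∧
    T.map.Same T.Side (.inl s) (.inl (T.nx (T.far s))) := by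
  have h1 : ¬ T.des (T.far s) := T.dn_not_des _
  refine ⟨fun h => h1 ((T.des_nx _).1 h), ?_, ?_⟩
  · rw [(T.tile _ h1).1]
    unfold far
    rw [T.lab_dn, T.lab_m]
  · rw [← (T.orbL_kap s).2]
    exact (T.buas3_same_iter (.inl s) rfl _).2

/-- Four tiles meet at every vertex and the square around it is null-homotopic. -/
theorem square (s : T.S) (h : ¬ T.des s) :
    (fun s => T.nx (T.far s))^[4] s = s ∧
    T.map.gd.ev (T.kap s) * T.map.gd.ev (T.kap (T.nx (T.far s))) *
      T.map.gd.ev (T.kap ((fun s => T.nx (T.far s))^[2] s)) *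
      T.map.gd.ev (T.kap ((fun s => T.nx (T.far s))^[3] s)) = 1 := by
  classical
  obtain ⟨h4, hev⟩ := T.buas3_disc s
  obtain ⟨s1, e1⟩ : ∃ t, t = T.nx (T.far s) := ⟨_, rfl⟩
  obtain ⟨s2, e2⟩ : ∃ t, t = T.nx (T.far s1) := ⟨_, rfl⟩
  obtain ⟨s3, e3⟩ : ∃ t, t = T.nx (T.far s2) := ⟨_, rfl⟩
  obtain ⟨s4, e4⟩ : ∃ t, t = T.nx (T.far s3) := ⟨_, rfl⟩
  have i2 : (fun s => T.nx (T.far s))^[2] s = s2 := by rw [e2, e1]; rfl
  have i3 : (fun s => T.nx (T.far s))^[3] s = s3 := by rw [e3, e2, e1]; rfl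
  have i4 : (fun s => T.nx (T.far s))^[4] s = s4 := by rw [e4, e3, e2, e1]; rfl
  obtain ⟨n1, l1, r1⟩ := T.buas3_next s
  obtain ⟨n2, l2, r2⟩ := T.buas3_next s1
  obtain ⟨n3, l3, r3⟩ := T.buas3_next s2
  obtain ⟨n4, l4, r4⟩ := T.buas3_next s3
  rw [← e1] at n1 l1 r1
  rw [← e2] at n2 l2 r2
  rw [← e3] at n3 l3 r3
  rw [← e4] at n4 l4 r4
  have r2' := Relation.ReflTransGen.trans r1 r2
  have r3' := Relation.ReflTransGen.trans r2' r3
  have r4' := Relation.ReflTransGen.trans r3' r4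
  obtain ⟨p1, p2, p3, p4⟩ := buas3_period (T.lab s)
  obtain ⟨q1, q2, -, -⟩ := buas3_period (T.lab s1)
  obtain ⟨u1, -, -, -⟩ := buas3_period (T.lab s2)
  have l4' : T.lab s4 = T.lab s := by rw [l4, l3, l2, l1, p4]
  have d01 : T.lab s ≠ T.lab s1 := fun e => p1 (by rw [← l1, e])
  have d02 : T.lab s ≠ T.lab s2 := fun e => p2 (by rw [← l1, ← l2, e])
  have d03 : T.lab s ≠ T.lab s3 := fun e => p3 (by rw [← l1, ← l2, ← l3, e])
  have d12 : T.lab s1 ≠ T.lab s2 := fun e => q1 (by rw [← l2, e])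
  have d13 : T.lab s1 ≠ T.lab s3 := fun e => q2 (by rw [← l2, ← l3, e])
  have d23 : T.lab s2 ≠ T.lab s3 := fun e => u1 (by rw [← l3, e])
  have hs4 : s4 = s := by
    by_contra hne
    have hsub : ({s4, s, s1, s2, s3} : Finset T.S) ⊆ Finset.univ.filter fun t : T.S =>
        ¬ T.des t ∧ T.map.Same T.Side (.inl s) (.inl t) := by
      intro t ht
      simp only [Finset.mem_insert, Finset.mem_singleton] at ht
      refine Finset.mem_filter.2 ⟨Finset.mem_univ _, ?_⟩
      rcases ht with rfl | rfl | rfl | rfl | rfl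
      · exact ⟨n4, r4'⟩
      · exact ⟨h, Relation.ReflTransGen.refl⟩
      · exact ⟨n1, r1⟩
      · exact ⟨n2, r2'⟩
      · exact ⟨n3, r3'⟩
    have hc := Finset.card_le_card hsub
    have ne : ∀ a b : T.S, T.lab a ≠ T.lab b → a ≠ b := fun a b hab e => hab (congrArg _ e)
    have a41 : s4 ≠ s1 := ne _ _ (l4' ▸ d01)
    have a42 : s4 ≠ s2 := ne _ _ (l4' ▸ d02)
    have a43 : s4 ≠ s3 := ne _ _ (l4' ▸ d03)
    rw [Finset.card_insert_of_notMem (by simp [hne, a41, a42, a43]),
      Finset.card_insert_of_notMem (by simp [ne _ _ d01, ne _ _ d02, ne _ _ d03]),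
      Finset.card_insert_of_notMem (by simp [ne _ _ d12, ne _ _ d13]),
      Finset.card_insert_of_notMem (by simp [ne _ _ d23]), Finset.card_singleton] at hc
    have h5 : (Finset.univ.filter fun t : T.S =>
        ¬ T.des t ∧ T.map.Same T.Side (.inl s) (.inl t)).card = 4 := h4
    omega
  refine ⟨i4.trans hs4, ?_⟩
  rw [i2, i3, ← e1]
  obtain ⟨o0, b0⟩ := T.orbL_kap s
  obtain ⟨o1, b1⟩ := T.orbL_kap s1
  obtain ⟨o2, b2⟩ := T.orbL_kap s2
  obtain ⟨o3, b3⟩ := T.orbL_kap s3
  rw [← e1] at b0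
  rw [← e2] at b1
  rw [← e3] at b2
  rw [← e4, hs4] at b3
  have key := hev (.inl s)
    ((T.kap s).length + ((T.kap s1).length + ((T.kap s2).length + (T.kap s3).length))) rfl
    Relation.ReflTransGen.refl (by
      rw [add_comm, Function.iterate_add_apply, b0, add_comm, Function.iterate_add_apply, b1,
        add_comm, Function.iterate_add_apply, b2, b3])
  have eL : orbL (T.map.bd T.Side) (.inl s)
      ((T.kap s).length + ((T.kap s1).length + ((T.kap s2).length + (T.kap s3).length))) =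
      T.kap s ++ (T.kap s1 ++ (T.kap s2 ++ T.kap s3)) := by
    rw [buas3_orbL_add, b0, buas3_orbL_add, b1, buas3_orbL_add, b2, o0, o1, o2, o3]
  exact buas3_ev4 T.map.gd _ _ _ _ ((congrArg T.map.gd.ev eL).symm.trans key)

end TD

end Pool.Agent.MC
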