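import Pool.Agent.P.MP_2677b3_gt.BuFill

namespace Pool.Agent.MC

theorem unr_append (s : Dart) (as bs : List ℕ) :
    unr s (as ++ bs) = unr s as ++ unr (nxj s as) bs ∧ nxj s (as ++ bs) = nxj (nxj s as) bs := by
  induction as generalizing s with
  | nil => exact ⟨rfl, rfl⟩
  | cons r rs ih =>
    refine ⟨?_, (ih _).2⟩
    show s :: walls (fk 1 s) r ++ unr _ (rs ++ bs) = (s :: walls (fk 1 s) r ++ unr _ rs) ++ _
    rw [(ih _).1, List.append_assoc]
    rfl

/-- Wall number `k` of the straight line that starts with `d`. -/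
def buchain_lw (d : Dart) (k : ℕ) : Dart := if k % 2 = 0 then d else fk 2 d

theorem buchain_nth (s : Dart) (r : ℕ) : nthW s r = buchain_lw (fk 1 s) r := rfl

theorem buchain_lw_add (d : Dart) (a b : ℕ) :
    buchain_lw d (a + b) = buchain_lw (buchain_lw d a) b := by
  unfold buchain_lw
  rcases Nat.mod_two_eq_zero_or_one a with ha | ha <;>
    rcases Nat.mod_two_eq_zero_or_one b with hb | hb <;>
    simp [Nat.add_mod, ha, hb, fk_two_two]

theorem buchain_lw_two (d : Dart) (k : ℕ) : buchain_lw d (k + 1 + 1) = buchain_lw d k := by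
  unfold buchain_lw
  rw [show (k + 1 + 1) % 2 = k % 2 by omega]

theorem buchain_lw_succ (d : Dart) (k : ℕ) : buchain_lw d (k + 1) = fk 2 (buchain_lw d k) := by
  rw [buchain_lw_add]
  rfl

theorem buchain_lw_succ' (d : Dart) (k : ℕ) : buchain_lw d (k + 1) = buchain_lw (fk 2 d) k := by
  rw [add_comm, buchain_lw_add]
  rfl

theorem buchain_str (d : Dart) : fk 2 (rv (fk 2 d)) = rv d := by revert d; decide

theorem buchain_lw_rv (d : Dart) (k : ℕ) : buchain_lw (rv (buchain_lw d k)) k = rv d := by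
  unfold buchain_lw
  split_ifs
  · rfl
  · exact buchain_str d

theorem buchain_wall_lw (d : Dart) (k : ℕ) : wall (buchain_lw d k) = wall d := by
  unfold buchain_lw
  split_ifs
  · rfl
  · exact (wall_fk d).2.1

theorem buchain_wall_nth (s : Dart) (k : ℕ) : wall (nthW s k) = !wall s := by
  rw [buchain_nth, buchain_wall_lw, (wall_fk s).1]

theorem buchain_wall_nxc (s : Dart) (as : List ℕ) : wall (nxc s as) = wall s := by
  induction as generalizing s with
  | nil => rfl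
  | cons r rs ih =>
    show wall (nxc _ rs) = _
    rw [ih, (wall_fk _).1, buchain_wall_nth, Bool.not_not]

theorem buchain_wall_nxj (s : Dart) (as : List ℕ) : wall (nxj s as) = wall s := by
  induction as generalizing s with
  | nil => rfl
  | cons r rs ih =>
    show wall (nxj _ rs) = _
    rw [ih, (wall_fk _).1, wall_rv, buchain_wall_nth, Bool.not_not]

theorem buchain_walls_add (d : Dart) (a b : ℕ) :
    walls d (a + b) = walls d a ++ walls (buchain_lw d a) b := walls_add d a b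

theorem buchain_snoc (d : Dart) (k : ℕ) : walls d (k + 1) = walls d k ++ [buchain_lw d k] :=
  buchain_walls_add d k 1

theorem buchain_mate1 (d : Dart) (t : Tag) : Mate [(rv d, t)] [(d, .inner)] :=
  List.Forall₂.cons ⟨(rv_rv d).symm, (compB_inner t).2⟩ List.Forall₂.nil

theorem buchain_mate (d : Dart) (k : ℕ) :
    Mate (inn (walls (rv (buchain_lw d (k + 1))) k)) (inn (walls d k)) := by
  induction k generalizing d with
  | zero => exact List.Forall₂.nil
  | succ k ih =>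
    have h := (ih (fk 2 d)).append (buchain_mate1 d .inner)
    have e : buchain_lw (rv (buchain_lw d (k + 1 + 1))) k = rv d := by
      rw [buchain_lw_two, buchain_lw_rv]
    rw [buchain_snoc, e, inn_append, buchain_lw_succ' d (k + 1)]
    exact h

theorem buchain_fw2 (d : Dart) : Fw d (fk 2 d) := by revert d; decide

theorem buchain_fw1 (d : Dart) : Fw (rv (fk 1 d)) (rv d) := by revert d; decide

theorem buchain_chain (d : Dart) (k : ℕ) {l : List Dart}
    (h : (buchain_lw d k :: l).IsChain Fw) : (walls d (k + 1) ++ l).IsChain Fw := by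
  induction k generalizing d with
  | zero => exact h
  | succ k ih =>
    rw [buchain_lw_succ'] at h
    exact List.IsChain.cons_cons (buchain_fw2 d) (ih _ h)

theorem buchain_spl1 (a : Dart) : Spl a (fk 1 a) (fk 1 (rv (fk 1 a))) := by revert a; decide

theorem buchain_spl2 (a : Dart) : Spl a (fk 2 a) (fk 1 (rv (fk 2 a))) := by revert a; decide

theorem buchain_last (A : List Dart) (c : Dart) (l : ℕ) : ∃ a : Entry,
    (inn (A ++ c :: walls (fk 1 c) l)).getLast? = some a ∧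
      Spl a.1 (nthW c l) (fk 1 (rv (nthW c l))) := by
  cases l with
  | zero => exact ⟨(c, .inner), by simp [walls], buchain_spl1 c⟩
  | succ l =>
    refine ⟨(buchain_lw (fk 1 c) l, .inner), ?_, ?_⟩
    · rw [buchain_snoc, ← List.cons_append, ← List.append_assoc, inn_append]
      exact List.getLast?_concat
    · rw [buchain_nth, buchain_lw_succ]
      exact buchain_spl2 _

theorem buchain_cut {a b c c' p q : Entry} {M R P Q : List Entry} (hm : Mate P Q)
    (h2 : 2 ≤ P.length) (hf : (darts P).IsChain Fw) (hp : P.head? = some p)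
    (hq : Q.head? = some q) (hc : M.head? = some c) (hc' : M.getLast? = some c')
    (ha : R.getLast? = some a) (hb : R.head? = some b) (hs : Spl a.1 p.1 c.1)
    (hs' : Spl c'.1 q.1 b.1) : RwC (M ++ R) [P ++ R, M ++ Q] := by
  obtain ⟨R0, rfl⟩ := List.getLast?_eq_some_iff.1 ha
  cases R0 with
  | nil =>
    obtain rfl : a = b := by simpa using hb
    exact (rwC_cut hm h2 hf hp hq hc hc' hs hs').rotated
      (List.isRotated_append (l := M) (l' := [a]))
      (.cons (List.isRotated_append (l := [a]) (l' := P)) (.cons (List.IsRotated.refl _) .nil))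
  | cons b' R1 =>
    obtain rfl : b' = b := by simpa using hb
    refine ((rw_cut hm hf hp hq hc hc' hs hs').ctx [] R1).toC.rotated ?_
      (.cons ?_ (.cons (List.IsRotated.refl _) .nil))
    · have := List.isRotated_append (l := M ++ b' :: R1) (l' := [a])
      simpa using this
    · have := List.isRotated_append (l := [a]) (l' := P ++ b' :: R1)
      simpa using this

theorem buchain_three (d : Dart) : fk 3 (rv (fk 1 d)) = rv d := by revert d; decide

theorem buchain_inj : ∀ d e : Dart, fk 1 d = fk 1 e → d = e := by decide +kernel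

theorem buchain_shole (y : Dart) (hy : wall y = true) (A B : List Entry) : ∃ h : ZMod 6 × Bool,
    Rw (A ++ (rv (fk 1 (fk 1 y)), .inner) :: (rv (fk 1 y), .hole) :: (rv y, .inner) :: B)
      (A ++ (rv (fk 1 (fk 1 y)), .inner) :: (fk 1 (rv (fk 1 (fk 1 y))), .inner) ::
        (rv y, .inner) :: B) [hole h.1 h.2] ∧ fk 1 (fk 1 (rv (fk 1 (fk 1 y)))) = rv y := by
  obtain ⟨j, σ, h, e⟩ := rw_shole (rv (fk 1 (fk 1 y)))
    (by rw [wall_rv, (wall_fk _).1, (wall_fk _).1, hy]; rfl)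
  rw [buchain_three, buchain_three] at e
  rw [buchain_three, buchain_three, ← e] at h
  refine ⟨(j, σ), ?_, e.symm⟩
  simpa using h.ctx A B

theorem buchain_hd1 (s : Dart) (as : List ℕ) (T : List Dart) :
    (inn (cvx s as ++ nxc s as :: T)).head? = some (s, .inner) := by
  cases as <;> rfl

theorem buchain_hd2 (s : Dart) (as : List ℕ) (T : List Dart) :
    (inn (unr s as ++ nxj s as :: T)).head? = some (s, .inner) := by
  cases as <;> rfl

/-- A chain of three straight arcs with two holes cuts off a convex face. -/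
theorem chain_cut (s : Dart) (hs : wall s = false) (as mid : List ℕ) (l μ ν₁ ν₂ ν₃ : ℕ)
    (has : ∀ a ∈ as, 1 ≤ a) (h₁ : 1 ≤ ν₁) (h₂ : 1 ≤ ν₂) (h₃ : 1 ≤ ν₃)
    (hcl : nxj (nxc s as) (l :: mid ++ [μ]) = s) (hcv : nxc s (as ++ [l + ν₃, ν₂, ν₁]) = s) :
    wall (nxj (nxc s as) (l :: mid)) = false ∧
    nxj (nxc (nxj (nxc s as) (l :: mid)) [μ + ν₁, ν₂, ν₃]) mid = nxj (nxc s as) (l :: mid) ∧
    ∃ h h' : ZMod 6 × Bool, RwC (inn (cvx s as ++ unr (nxc s as) (l :: mid ++ [μ])))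
      (tsFace (nxj (nxc s as) (l :: mid)) (μ + ν₁) ν₂ ν₃ mid ::
        inn (cvx s (as ++ [l + ν₃, ν₂, ν₁])) :: holes [h, h']) := by
  obtain ⟨n₁, rfl⟩ := Nat.exists_eq_add_of_le' h₁
  obtain ⟨n₂, rfl⟩ := Nat.exists_eq_add_of_le' h₂
  obtain ⟨n₃, rfl⟩ := Nat.exists_eq_add_of_le' h₃
  have hwc := (buchain_wall_nxc s as).trans hs
  have hM := buchain_hd1 s as (walls (fk 1 (nxc s as)) l)
  rw [(cvx_append s as _).2] at hcv
  rw [(unr_append _ (l :: mid) _).2] at hcl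
  rw [(unr_append _ (l :: mid) _).1, (cvx_append s as _).1]
  generalize nxc s as = c at *
  generalize cvx s as = A at *
  obtain ⟨x₃, hx₃⟩ : ∃ x, x = nthW c l := ⟨_, rfl⟩
  obtain ⟨y₃, hy₃⟩ : ∃ y, y = buchain_lw x₃ (n₃ + 1 + 1) := ⟨_, rfl⟩
  obtain ⟨y₂, hy₂⟩ : ∃ y, y = buchain_lw (fk 1 (fk 1 y₃)) (n₂ + 1 + 1) := ⟨_, rfl⟩
  obtain ⟨y₁, hy₁⟩ : ∃ y, y = buchain_lw (fk 1 (fk 1 y₂)) (n₁ + 1 + 1) := ⟨_, rfl⟩
  have w₃ : wall y₃ = true := by rw [hy₃, buchain_wall_lw, hx₃, buchain_wall_nth, hwc]; rfl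
  have w₂ : wall y₂ = true := by
    rw [hy₂, buchain_wall_lw, (wall_fk _).1, (wall_fk _).1, w₃]; rfl
  have e₃ : nthW c (l + (n₃ + 1) + 1) = y₃ := by
    rw [hy₃, hx₃, buchain_nth, buchain_nth, ← buchain_lw_add, add_assoc l]
  have hQ : cvx c [l + (n₃ + 1), n₂ + 1, n₁ + 1] = c :: walls (fk 1 c) l ++
      (walls x₃ (n₃ + 1) ++ fk 1 y₃ :: (walls (fk 1 (fk 1 y₃)) (n₂ + 1) ++
        fk 1 y₂ :: walls (fk 1 (fk 1 y₂)) (n₁ + 1))) := by
    simp only [cvx, e₃, buchain_nth (fk 1 y₃), ← hy₂]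
    rw [buchain_walls_add, ← buchain_nth, ← hx₃]
    simp
  have hs₁ : fk 1 y₁ = s := by
    simpa only [nxc, e₃, buchain_nth (fk 1 y₃), ← hy₂, buchain_nth (fk 1 y₂), ← hy₁] using hcv
  have hR := buchain_hd2 (fk 1 (rv x₃)) mid (walls (fk 1 (nxj (fk 1 (rv x₃)) mid)) μ)
  have hu : unr c (l :: mid) = c :: walls (fk 1 c) l ++ unr (fk 1 (rv x₃)) mid := by
    rw [hx₃]; rfl
  have hn : nxj c (l :: mid) = nxj (fk 1 (rv x₃)) mid := by rw [hx₃]; rfl
  have hwc' : wall (nxj c (l :: mid)) = false := (buchain_wall_nxj _ _).trans hwc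
  rw [hn] at hcl hwc'
  rw [hu, hn, hQ]
  obtain ⟨c', hc'⟩ : ∃ c', nxj (fk 1 (rv x₃)) mid = c' := ⟨_, rfl⟩
  rw [hc'] at hcl hwc' hR ⊢
  have e₁ : nthW c' μ = rv y₁ := by
    have := buchain_inj _ _ ((show fk 1 (rv (nthW c' μ)) = s from hcl).trans hs₁.symm)
    rw [← this, rv_rv]
  have l₁ : buchain_lw (rv y₁) n₁ = rv (fk 1 (fk 1 y₂)) := by
    rw [hy₁, buchain_lw_two, buchain_lw_rv]
  have l₂ : buchain_lw (rv y₂) n₂ = rv (fk 1 (fk 1 y₃)) := by
    rw [hy₂, buchain_lw_two, buchain_lw_rv]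
  have l₃ : buchain_lw (rv y₃) n₃ = rv x₃ := by rw [hy₃, buchain_lw_two, buchain_lw_rv]
  obtain ⟨h, r₂, f₂⟩ := buchain_shole y₂ w₂ (inn (walls (rv y₁) n₁))
    (inn (walls (fk 2 (rv y₂)) n₂) ++ (rv (fk 1 y₃), .hole) :: inn (walls (rv y₃) (n₃ + 1)))
  obtain ⟨h', r₃, f₃⟩ := buchain_shole y₃ w₃ (inn (walls (rv y₁) (n₁ + 1) ++
    fk 1 (rv (fk 1 (fk 1 y₂))) :: walls (rv y₂) n₂)) (inn (walls (fk 2 (rv y₃)) n₃))
  have g₁ : nthW c' (μ + (n₁ + 1) + 1) = rv (fk 1 (fk 1 y₂)) := by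
    rw [buchain_nth, add_assoc μ, buchain_lw_add, ← buchain_nth, e₁, buchain_lw_two, l₁]
  have g₂ : nthW (fk 1 (rv (fk 1 (fk 1 y₂)))) (n₂ + 1 + 1) = rv (fk 1 (fk 1 y₃)) := by
    rw [buchain_nth, f₂, buchain_lw_two, l₂]
  have g₃ : nthW (fk 1 (rv (fk 1 (fk 1 y₃)))) (n₃ + 1 + 1) = rv x₃ := by
    rw [buchain_nth, f₃, buchain_lw_two, l₃]
  have hn' : nxc c' [μ + (n₁ + 1), n₂ + 1, n₃ + 1] = fk 1 (rv x₃) := by
    simp only [nxc, g₁, g₂, g₃]
  have hP' : cvx c' [μ + (n₁ + 1), n₂ + 1, n₃ + 1] = c' :: walls (fk 1 c') μ ++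
      (walls (rv y₁) (n₁ + 1) ++ fk 1 (rv (fk 1 (fk 1 y₂))) :: (walls (rv y₂) (n₂ + 1) ++
        fk 1 (rv (fk 1 (fk 1 y₃))) :: walls (rv y₃) (n₃ + 1))) := by
    simp only [cvx, g₁, g₂, f₂, f₃]
    rw [buchain_walls_add, ← buchain_nth, e₁]
    simp
  refine ⟨hwc', by rw [hn', hc'], h', h, ?_⟩
  rw [tsFace, hn', hP']
  obtain ⟨P, hP⟩ : ∃ P : List Entry, P = inn (walls (rv y₁) (n₁ + 1)) ++ (rv (fk 1 y₂), .hole) ::
      (inn (walls (rv y₂) (n₂ + 1)) ++ (rv (fk 1 y₃), .hole) :: inn (walls (rv y₃) (n₃ + 1))) :=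
    ⟨_, rfl⟩
  have hm : Mate P (inn (walls x₃ (n₃ + 1) ++ fk 1 y₃ :: (walls (fk 1 (fk 1 y₃)) (n₂ + 1) ++
      fk 1 y₂ :: walls (fk 1 (fk 1 y₂)) (n₁ + 1)))) := by
    have := (buchain_mate (fk 1 (fk 1 y₂)) (n₁ + 1)).append ((buchain_mate1 (fk 1 y₂) .hole).append
      ((buchain_mate (fk 1 (fk 1 y₃)) (n₂ + 1)).append ((buchain_mate1 (fk 1 y₃) .hole).append
        (buchain_mate x₃ (n₃ + 1)))))
    rw [← hy₁, ← hy₂, ← hy₃] at this
    simpa [hP] using this
  have hf : (darts P).IsChain Fw := by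
    simp only [hP, darts_append, darts_inn, darts_cons]
    refine buchain_chain _ _ ?_
    rw [l₁]
    refine .cons_cons (buchain_fw1 _) (.cons_cons (buchain_fw1 _) (buchain_chain (rv y₂) n₂ ?_))
    rw [l₂]
    refine .cons_cons (buchain_fw1 _) (.cons_cons (buchain_fw1 _) ?_)
    simpa [walls] using buchain_chain (rv y₃) n₃ (l := []) (List.isChain_singleton _)
  obtain ⟨a, ha, sa⟩ := buchain_last (unr (fk 1 (rv x₃)) mid) c' μ
  obtain ⟨a', ha', sa'⟩ := buchain_last A c l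
  rw [e₁, rv_rv, hs₁] at sa
  rw [← hx₃] at sa'
  have k₁ := buchain_cut (p := (rv y₁, .inner)) (q := (x₃, .inner)) hm
    (by simp [hP, walls]; omega) hf (by rw [hP]; rfl) rfl hM ha' ha hR sa sa'
  have k₂ : Rw P (inn (walls (rv y₁) (n₁ + 1) ++ fk 1 (rv (fk 1 (fk 1 y₂))) ::
      (walls (rv y₂) (n₂ + 1) ++ fk 1 (rv (fk 1 (fk 1 y₃))) :: walls (rv y₃) (n₃ + 1))))
      (holes [h', h]) := by
    have q₁ := buchain_snoc (rv y₁) n₁
    have q₂ := buchain_snoc (rv y₂) n₂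
    rw [l₁] at q₁
    rw [l₂] at q₂
    have a₁ : P = inn (walls (rv y₁) n₁) ++ (rv (fk 1 (fk 1 y₂)), .inner) ::
        (rv (fk 1 y₂), .hole) :: (rv y₂, .inner) :: (inn (walls (fk 2 (rv y₂)) n₂) ++
          (rv (fk 1 y₃), .hole) :: inn (walls (rv y₃) (n₃ + 1))) := by
      rw [hP, q₁]
      simp [walls]
    have a₂ : inn (walls (rv y₁) n₁) ++ (rv (fk 1 (fk 1 y₂)), .inner) ::
        (fk 1 (rv (fk 1 (fk 1 y₂))), .inner) :: (rv y₂, .inner) ::
        (inn (walls (fk 2 (rv y₂)) n₂) ++ (rv (fk 1 y₃), .hole) :: inn (walls (rv y₃) (n₃ + 1))) =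
        inn (walls (rv y₁) (n₁ + 1) ++ fk 1 (rv (fk 1 (fk 1 y₂))) :: walls (rv y₂) n₂) ++
          (rv (fk 1 (fk 1 y₃)), .inner) :: (rv (fk 1 y₃), .hole) :: (rv y₃, .inner) ::
            inn (walls (fk 2 (rv y₃)) n₃) := by
      have q₃ := congrArg inn q₂
      rw [walls, inn_cons, inn_append] at q₃
      rw [q₁, ← List.cons_append (a := (rv y₂, Tag.inner)), q₃]
      simp [walls]
    rw [← a₁, a₂] at r₂
    have := r₂.trans r₃
    rw [q₂]
    simpa [walls, holes] using this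
  have k₃ := k₁.trans (k₂.ctx [] _).toC
  refine RwC.rotated (k₃.perm (List.Perm.cons _ List.perm_append_comm)) ?_
    (.cons ?_ (.cons ?_ (List.forall₂_same.2 fun _ _ => List.IsRotated.refl _)))
  · simp [unr, List.IsRotated.refl]
  · have := List.isRotated_append (l := inn (walls (rv y₁) (n₁ + 1) ++
      fk 1 (rv (fk 1 (fk 1 y₂))) :: (walls (rv y₂) (n₂ + 1) ++ fk 1 (rv (fk 1 (fk 1 y₃))) ::
        walls (rv y₃) (n₃ + 1))) ++ inn (unr (fk 1 (rv x₃)) mid))
      (l' := inn (c' :: walls (fk 1 c') μ))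
    simpa using this
  · simp [List.IsRotated.refl]

end Pool.Agent.MC
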