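import Pool.Agent.P.MP_2677b3_gt.BuPrimB

namespace Pool.Agent.MC

open Finset

section
variable {F : List (List Entry)} (M : AMap F)

instance bucons_fin : Fintype M.S := M.fin

open Classical in
/-- The sides of tiles. -/
noncomputable def buconsN : Finset M.S := univ.filter fun s => s ∉ M.fs.flatten

open Classical in
/-- The number of tiles. -/
noncomputable def buconsT : ℕ := ((buconsN M).filter fun s => (M.lab s).2.2 = 0).card

theorem bucons_mem {s : M.S} : s ∈ buconsN M ↔ s ∉ M.fs.flatten := by
  simp only [buconsN, mem_filter, mem_univ, true_and]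

theorem bucons_nx {s : M.S} (h : s ∈ buconsN M) : M.nx s ∈ buconsN M := by
  rw [bucons_mem] at h ⊢
  intro h'
  obtain ⟨l, hl, hs⟩ := List.mem_flatten.1 h'
  have h1 : M.nx s ∈ l.map M.nx := by
    rw [(M.cyc l hl).map_eq_rotate]; exact List.mem_rotate.2 hs
  obtain ⟨t, ht, e⟩ := List.mem_map.1 h1
  exact h (List.mem_flatten.2 ⟨l, hl, M.nx_inj e ▸ ht⟩)

theorem bucons_step {A : Type} [AddCommMonoid A] (g : Dart → A) :
    ∑ s ∈ buconsN M, g (lf (M.lab s)) = ∑ s ∈ buconsN M, g (M.lab s) := by
  refine Finset.sum_bij (fun s _ => M.nx s) (fun s hs => bucons_nx M hs)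
    (fun a _ b _ e => M.nx_inj e) (fun t ht => ?_) (fun s hs => ?_)
  · have h5 : ∀ k, M.nx^[k] t ∈ buconsN M := by
      intro k
      induction k with
      | zero => exact ht
      | succ k ih => rw [Function.iterate_succ_apply']; exact bucons_nx M ih
    refine ⟨M.nx^[5] t, h5 5, ?_⟩
    rw [← Function.iterate_succ_apply' M.nx 5 t]
    exact (M.tile t ((bucons_mem M).1 ht)).2
  · rw [(M.tile s ((bucons_mem M).1 hs)).1]

theorem bucons_iter {A : Type} [AddCommMonoid A] (k : ℕ) (g : Dart → A) :
    ∑ s ∈ buconsN M, g (lf^[k] (M.lab s)) = ∑ s ∈ buconsN M, g (M.lab s) := by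
  induction k generalizing g with
  | zero => rfl
  | succ k ih =>
    simp only [Function.iterate_succ_apply]
    exact (bucons_step M fun d => g (lf^[k] d)).trans (ih g)

theorem bucons_one (d : Dart) :
    ((range 6).filter fun k => (lf^[6 - k] d).2.2 = 0).card = 1 := by
  revert d; decide +kernel

theorem bucons_six (d : Dart) : ∀ k ∈ range 6, lf^[k] (lf^[6 - k] d) = d := by
  revert d; decide +kernel

theorem bucons_tileL {A : Type} [AddCommMonoid A] (g : Dart → A) (d : Dart) :
    ∑ k ∈ range 6, g (lf^[k] d) = ((tileL d).map g).sum := by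
  have : tileL d = (List.range 6).map fun k => lf^[k] d := by revert d; decide +kernel
  rw [this, List.map_map]
  rfl

theorem bucons_tiles {A : Type} [AddCommMonoid A] (g : Dart → A) (c : A)
    (hg : ∀ d, ((tileL d).map g).sum = c) :
    ∑ s ∈ buconsN M, g (M.lab s) = buconsT M • c := by
  classical
  have h1 : ∀ d : Dart, g d = ∑ k ∈ range 6,
      (if (lf^[6 - k] d).2.2 = 0 then g (lf^[k] (lf^[6 - k] d)) else 0) := by
    intro d
    rw [Finset.sum_congr rfl fun k hk => by rw [bucons_six d k hk], ← Finset.sum_filter,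
      Finset.sum_const, bucons_one, one_smul]
  rw [Finset.sum_congr rfl fun s _ => h1 (M.lab s), Finset.sum_comm,
    Finset.sum_congr rfl fun k _ =>
      bucons_iter M (6 - k) fun d => if d.2.2 = 0 then g (lf^[k] d) else 0,
    Finset.sum_comm, buconsT, ← Finset.sum_const, Finset.sum_filter]
  refine Finset.sum_congr rfl fun s _ => ?_
  split_ifs
  · rw [bucons_tileL, hg]
  · simp

theorem bucons_split {A : Type} [AddCommMonoid A] (f : M.S → A) :
    ∑ s, f s = (M.fs.map fun l => (l.map f).sum).sum + ∑ s ∈ buconsN M, f s := by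
  classical
  have h1 : (M.fs.map fun l => (l.map f).sum).sum = ∑ s ∈ M.fs.flatten.toFinset, f s := by
    rw [List.sum_toFinset f M.nd, List.map_flatten, List.sum_flatten, List.map_map]
    rfl
  have h2 : buconsN M = M.fs.flatten.toFinsetᶜ := by
    ext s
    rw [bucons_mem, mem_compl, List.mem_toFinset]
  rw [h1, h2, Finset.sum_add_sum_compl]

theorem bucons_faces {A : Type} [AddCommMonoid A] (g : Dart → A) :
    (F.map fun l => (l.map fun e => g e.1).sum).sum =
      (M.fs.map fun l => (l.map fun s => g (M.lab s)).sum).sum := by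
  conv_lhs => rw [← M.hF]
  simp only [List.map_map, Function.comp_def]

theorem bucons_zero {A : Type} [AddCommGroup A] (g : Dart → A) (hg : ∀ d, g (rv d) = -g d) :
    ∑ s, g (M.lab s) = 0 := by
  refine Finset.sum_involution (fun s _ => M.m s) (fun s _ => ?_) (fun s _ _ e => ?_)
    (fun s _ => mem_univ _) (fun s _ => M.mm s)
  · rw [M.lab_m, hg, add_neg_cancel]
  · have := M.lab_m s
    rw [e] at this
    exact TD.rv_ne _ this.symm

theorem bucons_sum {A : Type} [AddCommGroup A] (g : Dart → A) (c : A)
    (hg : ∀ d, g (rv d) = -g d) (hc : ∀ d, ((tileL d).map g).sum = c) :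
    (F.map fun l => (l.map fun e => g e.1).sum).sum + buconsT M • c = 0 := by
  rw [bucons_faces M, ← bucons_tiles M g c hc, ← bucons_split M fun s => g (M.lab s)]
  exact bucons_zero M g hg

theorem bucons_card : (buconsN M).card = 6 * buconsT M := by
  have := bucons_tiles M (fun _ => (1 : ℕ)) 6 (fun d => by revert d; decide +kernel)
  simpa [mul_comm] using this

theorem bucons_total : Fintype.card M.S = F.flatten.length + 6 * buconsT M := by
  have h1 := bucons_split M fun _ => (1 : ℕ)
  have h2 := bucons_faces M fun _ => (1 : ℕ)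
  rw [← h2, Finset.sum_const, Finset.sum_const, bucons_card] at h1
  simpa [List.length_flatten] using h1

theorem bucons_ang :
    ∑ s, ang (M.lab s) (M.lab (M.nx s)) = (F.map cang).sum + 6 * buconsT M := by
  rw [bucons_split M]
  congr 1
  · conv_rhs => rw [← M.hF]
    rw [List.map_map]
    refine congrArg List.sum (List.map_congr_left fun l hl => ?_)
    simp only [Function.comp, cang]
    rw [← List.map_rotate, ← (M.cyc l hl).map_eq_rotate, List.map_map, List.zipWith_map,
      List.zipWith_self]
    rfl
  · rw [← bucons_card, Finset.card_eq_sum_ones]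
    refine Finset.sum_congr rfl fun s hs => ?_
    rw [(M.tile s ((bucons_mem M).1 hs)).1, ← fk_one]
    exact (ang_fk _).1

end

/-- The cocycle sums to zero over the faces. -/
theorem Real.th_sum {F : List (List Entry)} (h : Real F) : (F.map thL).sum = 0 := by
  obtain ⟨M⟩ := h
  have := bucons_sum M th 0 th_rv th_tile
  rwa [smul_zero, add_zero] at this

/-- Number of tiles from the Euler relation, and the area form. -/
theorem Real.tiles {F : List (List Entry)} (h : Real F) : ∃ T : ℕ,
    6 * T + 24 + 6 * F.flatten.length = 3 * (F.map cang).sum + 12 * F.length ∧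
    (F.map alL).sum + (T : ZMod 4) = 0 := by
  obtain ⟨M⟩ := h
  refine ⟨buconsT M, ?_, ?_⟩
  · have h1 := M.euler
    have h2 := bucons_total M
    have h3 := bucons_ang M
    change 4 * @Fintype.card M.S (bucons_fin M) + 24 + 2 * F.flatten.length =
      3 * (∑ s, ang (M.lab s) (M.lab (M.nx s))) + 12 * F.length at h1
    rw [h2, h3] at h1
    omega
  · have := bucons_sum M al 1 al_rv al_tile
    rwa [nsmul_one] at this

end Pool.Agent.MC
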