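import Pool.Agent.P.MP_2677b3_gt.BuApi

namespace Pool.Agent.MC

theorem buprimb_len {F : List (List Entry)} (A : AMap F) :
    F.flatten.length = A.fs.flatten.length ∧ F.length = A.fs.length := by
  have h := A.hF
  constructor
  · rw [← congrArg (fun G : List (List Entry) => G.flatten.length) h, ← List.map_flatten,
      List.length_map]
  · rw [← congrArg List.length h, List.length_map]

/-- The same map with rearranged faces and new tags. -/
theorem buprimb_re {F : List (List Entry)} (A : AMap F) (fs : List (List A.S)) (tag : A.S → Tag)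
    (hp : fs.flatten.Perm A.fs.flatten) (hl : fs.length = A.fs.length)
    (hc : ∀ l ∈ fs, CChain (fun s t => A.nx s = t) l)
    (ht : ∀ s, s ∈ A.fs.flatten → A.m s ∈ A.fs.flatten → compB (tag s) (tag (A.m s)) = true) :
    Real (fs.map (List.map fun s => (A.lab s, tag s))) :=
  ⟨{ S := A.S, fin := A.fin, ne := A.ne, nx := A.nx, m := A.m, lab := A.lab, tag := tag, fs := fs
     nx_inj := A.nx_inj, mm := A.mm, lab_m := A.lab_m, hF := rfl
     nd := hp.nodup_iff.2 A.nd
     cyc := hc
     tile := fun s hs => A.tile s fun h => hs (hp.mem_iff.2 h)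
     pos := A.pos, node := A.node
     comp := fun s h1 h2 => ht s (hp.mem_iff.1 h1) (hp.mem_iff.1 h2)
     conn := A.conn
     euler := by
       rw [← List.map_flatten, List.length_map, List.length_map, hp.length_eq, hl,
         ← (buprimb_len A).1, ← (buprimb_len A).2]
       exact A.euler }⟩

theorem buprimb_perm {α β : Type} (g : α → β) {F F' : List β} (hp : F.Perm F') :
    ∀ fs : List α, fs.map g = F → ∃ fs' : List α, fs'.Perm fs ∧ fs'.map g = F' := by
  induction hp with
  | nil => exact fun fs h => ⟨fs, List.Perm.refl _, h⟩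
  | cons x _ ih =>
    intro fs h
    obtain ⟨a, l, rfl, rfl, h2⟩ := List.map_eq_cons_iff.1 h
    obtain ⟨l', h3, rfl⟩ := ih l h2
    exact ⟨a :: l', h3.cons a, rfl⟩
  | swap x y l =>
    intro fs h
    obtain ⟨a, l1, rfl, rfl, h2⟩ := List.map_eq_cons_iff.1 h
    obtain ⟨b, l2, rfl, rfl, rfl⟩ := List.map_eq_cons_iff.1 h2
    exact ⟨b :: a :: l2, List.Perm.swap _ _ _, rfl⟩
  | trans _ _ ih1 ih2 =>
    intro fs h
    obtain ⟨l1, h1, h2⟩ := ih1 fs h
    obtain ⟨l2, h3, h4⟩ := ih2 l1 h2
    exact ⟨l2, h3.trans h1, h4⟩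

theorem Real.perm {F F' : List (List Entry)} (h : Real F) (hp : F.Perm F') : Real F' := by
  obtain ⟨A⟩ := h
  obtain ⟨fs, h1, rfl⟩ := buprimb_perm _ hp A.fs A.hF
  exact buprimb_re A fs A.tag h1.flatten h1.length_eq (fun l hl => A.cyc l (h1.mem_iff.1 hl)) A.comp

theorem buprimb_rot {α β : Type} (g : α → β) {F F' : List (List β)}
    (hr : List.Forall₂ List.IsRotated F F') :
    ∀ fs : List (List α), fs.map (List.map g) = F → ∃ fs' : List (List α),
      fs'.flatten.Perm fs.flatten ∧ fs'.length = fs.length ∧ (∀ l' ∈ fs', ∃ l ∈ fs, l ~r l') ∧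
        fs'.map (List.map g) = F' := by
  induction hr with
  | nil =>
    intro fs h
    exact ⟨fs, List.Perm.refl _, rfl, fun l hl => ⟨l, hl, List.IsRotated.refl l⟩, h⟩
  | cons h1 _ ih =>
    intro fs h
    obtain ⟨a, l, rfl, rfl, h2⟩ := List.map_eq_cons_iff.1 h
    obtain ⟨l', h3, h4, h5, rfl⟩ := ih l h2
    obtain ⟨n, rfl⟩ := h1
    refine ⟨a.rotate n :: l', (List.rotate_perm a n).append h3, by simp [h4], fun x hx => ?_,
      by rw [List.map_cons, List.map_rotate]⟩
    rcases List.mem_cons.1 hx with rfl | hx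
    · exact ⟨a, List.mem_cons_self, n, rfl⟩
    · obtain ⟨y, h6, h7⟩ := h5 x hx
      exact ⟨y, List.mem_cons_of_mem _ h6, h7⟩

theorem buprimb_rotated {F F' : List (List Entry)} (h : Real F)
    (hr : List.Forall₂ List.IsRotated F F') : Real F' := by
  obtain ⟨A⟩ := h
  obtain ⟨fs, h1, h2, h3, rfl⟩ := buprimb_rot _ hr A.fs A.hF
  refine buprimb_re A fs A.tag h1 h2 (fun l hl => ?_) A.comp
  obtain ⟨l0, h4, h5⟩ := h3 l hl
  exact (A.cyc l0 h4).isRotated h5

theorem Real.rot {A B : List Entry} {F : List (List Entry)} (h : Real ((A ++ B) :: F)) :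
    Real ((B ++ A) :: F) :=
  buprimb_rotated h (List.Forall₂.cons List.isRotated_append
    (List.forall₂_same.2 fun l _ => List.IsRotated.refl l))

theorem Real.rotated {F F' : List (List Entry)} (h : Real F)
    (hr : List.Forall₂ List.IsRotated F F') : Real F' :=
  buprimb_rotated h hr

theorem buprimb_fun {α β : Type} [Nonempty β] {R : α → β → Prop} {L : List α} {L' : List β}
    (h : List.Forall₂ R L L') (hn : L.Nodup) :
    ∃ e : α → β, L.map e = L' ∧ ∀ s ∈ L, R s (e s) := by
  classical
  induction h with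
  | nil => exact ⟨fun _ => Classical.arbitrary β, rfl, fun s hs => absurd hs List.not_mem_nil⟩
  | @cons a b l l' h1 _ ih =>
    obtain ⟨h2, h3⟩ := List.nodup_cons.1 hn
    obtain ⟨e, h4, h5⟩ := ih h3
    have h6 : ∀ s ∈ l, Function.update e a b s = e s := fun s hs =>
      Function.update_of_ne (fun h7 : s = a => h2 (h7 ▸ hs)) _ _
    refine ⟨Function.update e a b, ?_, fun s hs => ?_⟩
    · rw [List.map_cons, Function.update_self, List.map_congr_left h6, h4]
    · rcases List.mem_cons.1 hs with rfl | hs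
      · rwa [Function.update_self]
      · rw [h6 s hs]
        exact h5 s hs

theorem buprimb_fun₂ {α β : Type} [Nonempty β] {R : α → β → Prop} {L : List (List α)}
    {L' : List (List β)} (h : List.Forall₂ (List.Forall₂ R) L L') (hn : L.flatten.Nodup) :
    ∃ e : α → β, L.map (List.map e) = L' ∧ ∀ s ∈ L.flatten, R s (e s) := by
  obtain ⟨e, h1, h2⟩ := buprimb_fun (List.rel_flatten h) hn
  refine ⟨e, List.eq_iff_flatten_eq.2 ⟨by rw [← List.map_flatten, h1], ?_⟩, h2⟩
  clear h1 h2 hn
  induction h with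
  | nil => rfl
  | cons h3 _ ih =>
    simp only [List.map_cons, List.length_map, h3.length_eq]
    rw [ih]

theorem Real.retag (ρ : Tag → Tag → Prop)
    (hρ : ∀ t u t' u', compB t u = true → ρ t t' → ρ u u' → compB t' u' = true)
    {F F' : List (List Entry)} (h : Real F)
    (hF : List.Forall₂ (List.Forall₂ fun a b : Entry => b.1 = a.1 ∧ ρ a.2 b.2) F F') : Real F' := by
  obtain ⟨A⟩ := h
  have : Nonempty Entry := ⟨((0, 0, 0), Tag.inner)⟩
  have h1 : List.Forall₂ (List.Forall₂ fun (s : A.S) (b : Entry) => b.1 = A.lab s ∧ ρ (A.tag s) b.2)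
      A.fs F' := by
    have h2 := A.hF ▸ hF
    rw [List.forall₂_map_left_iff] at h2
    exact h2.imp fun _ _ h3 => List.forall₂_map_left_iff.1 h3
  obtain ⟨e, h2, h3⟩ := buprimb_fun₂ h1 A.nd
  have h4 : A.fs.map (List.map fun s => (A.lab s, (e s).2)) = F' := by
    rw [← h2]
    refine List.map_congr_left fun l hl => List.map_congr_left fun s hs => ?_
    rw [← (h3 s (List.mem_flatten.2 ⟨l, hl, hs⟩)).1]
  rw [← h4]
  exact buprimb_re A A.fs (fun s => (e s).2) (List.Perm.refl _) rfl A.cyc fun s h5 h6 =>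
    hρ _ _ _ _ (A.comp s h5 h6) (h3 s h5).2 (h3 _ h6).2

theorem Real.toInner {X : List Entry} {F : List (List Entry)} (h : Real (X :: F)) :
    Real (inn (darts X) :: F) := by
  refine h.retag (fun t t' => t' = t ∨ t' = .inner) ?_ (List.Forall₂.cons ?_
    (List.forall₂_same.2 fun l _ => List.forall₂_same.2 fun a _ => ⟨rfl, Or.inl rfl⟩))
  · rintro t u t' u' h1 (rfl | rfl) (rfl | rfl)
    · exact h1
    · exact (compB_inner _).2
    · exact (compB_inner _).1
    · rfl
  · unfold inn darts
    rw [List.map_map, List.forall₂_map_right_iff]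
    exact List.forall₂_same.2 fun a _ => ⟨rfl, Or.inr rfl⟩

theorem buprimb_lf (d : Dart) : lf (lf (lf (lf (lf (lf d))))) = d := by revert d; decide

theorem buprimb_tile {S : Type} {nx : S → S} {lab : S → Dart} {l : List S} {d : Dart}
    (hc : CChain (fun s t => nx s = t) l) (hl : l.map lab = tileL d) :
    l.length = 6 ∧ ∀ s ∈ l, lab (nx s) = lf (lab s) ∧ nx^[6] s = s := by
  have e : tileL d = [d, lf d, lf (lf d), lf (lf (lf d)), lf (lf (lf (lf d))),
    lf (lf (lf (lf (lf d))))] := by
    simp only [tileL, orbL, List.range_succ, List.range_zero, List.nil_append, List.cons_append,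
      List.map_cons, List.map_nil, Function.iterate_succ, Function.iterate_zero,
      Function.comp_apply, id]
  rw [e] at hl
  obtain ⟨s0, l, rfl, a0, hl⟩ := List.map_eq_cons_iff.1 hl
  obtain ⟨s1, l, rfl, a1, hl⟩ := List.map_eq_cons_iff.1 hl
  obtain ⟨s2, l, rfl, a2, hl⟩ := List.map_eq_cons_iff.1 hl
  obtain ⟨s3, l, rfl, a3, hl⟩ := List.map_eq_cons_iff.1 hl
  obtain ⟨s4, l, rfl, a4, hl⟩ := List.map_eq_cons_iff.1 hl
  obtain ⟨s5, l, rfl, a5, hl⟩ := List.map_eq_cons_iff.1 hl
  obtain rfl := List.map_eq_nil_iff.1 hl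
  simp only [CChain, List.cons_append, List.nil_append, List.isChain_cons_cons,
    List.isChain_singleton, and_true] at hc
  obtain ⟨b0, b1, b2, b3, b4, b5⟩ := hc
  refine ⟨rfl, fun s hs => ?_⟩
  simp only [List.mem_cons, List.not_mem_nil, or_false] at hs
  rcases hs with rfl | rfl | rfl | rfl | rfl | rfl <;>
    simp only [Function.iterate_succ, Function.iterate_zero, Function.comp_apply, id, b0, b1, b2,
      b3, b4, b5, a0, a1, a2, a3, a4, a5, buprimb_lf, and_self]

theorem Real.absorb {X : List Entry} {F : List (List Entry)} (h : Real (X :: F))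
    (hX : isTile X = true) : Real F := by
  obtain ⟨A⟩ := h
  obtain ⟨l, fs, h1, h2, h3⟩ := List.map_eq_cons_iff.1 A.hF
  obtain ⟨d, hd⟩ : ∃ d, darts X = tileL d := by
    cases X with
    | nil => exact absurd hX (by simp [isTile])
    | cons e t => exact ⟨e.1, of_decide_eq_true hX⟩
  have h4 : l.map A.lab = tileL d := by
    have h4 := congrArg darts h2
    rw [hd, darts, List.map_map] at h4
    exact h4
  obtain ⟨h5, h6⟩ := buprimb_tile (A.cyc l (h1 ▸ List.mem_cons_self)) h4
  have h7 : ∀ s, s ∈ A.fs.flatten ↔ s ∈ l ∨ s ∈ fs.flatten := fun s => by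
    rw [h1, List.flatten_cons, List.mem_append]
  exact ⟨{
    S := A.S, fin := A.fin, ne := A.ne, nx := A.nx, m := A.m, lab := A.lab, tag := A.tag, fs := fs
    nx_inj := A.nx_inj, mm := A.mm, lab_m := A.lab_m, hF := h3
    nd := by
      have := A.nd
      rw [h1, List.flatten_cons] at this
      exact this.of_append_right
    cyc := fun l' hl' => A.cyc l' (h1 ▸ List.mem_cons_of_mem _ hl')
    tile := fun s hs => by
      by_cases h8 : s ∈ l
      · exact h6 s h8
      · exact A.tile s fun h9 => ((h7 s).1 h9).elim h8 hs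
    pos := A.pos, node := A.node
    comp := fun s h8 h9 => A.comp s ((h7 _).2 (Or.inr h8)) ((h7 _).2 (Or.inr h9))
    conn := A.conn
    euler := by
      have h8 := A.euler
      have h9 : X.length = 6 := by
        have h9 := congrArg List.length h2
        rw [List.length_map, h5] at h9
        exact h9.symm
      rw [List.flatten_cons, List.length_append, List.length_cons, h9] at h8
      omega }⟩

theorem Real.cchain {X : List Entry} {F : List (List Entry)} (h : Real F) (hX : X ∈ F) :
    CChain (fun d e => ang d e ≠ 0) (darts X) := by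
  obtain ⟨A⟩ := h
  rw [← A.hF] at hX
  obtain ⟨l, h1, rfl⟩ := List.mem_map.1 hX
  rw [darts, List.map_map, cchain_map]
  refine (A.cyc l h1).imp fun a _ b _ h2 => ?_
  rw [← h2]
  exact A.pos a

end Pool.Agent.MC
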