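import Pool.Agent.P.MP_2677b3_gt.BuApi

namespace Pool.Agent.MC

theorem buprimc_chain {α β : Type} {R : α → α → Prop} {R' : β → β → Prop} (f : α → β) (z : α) :
    ∀ l : List α, (l ++ [z]).IsChain R → (∀ s ∈ l, ∀ t, R s t → R' (f s) (f t)) →
      (l.map f ++ [f z]).IsChain R'
  | [], _, _ => by simp
  | [s], h, h' => by
    have h1 : R s z := by simpa using h
    simpa using h' s (by simp) z h1
  | s :: t :: l, h, h' => by
    have h1 : R s t ∧ (t :: l ++ [z]).IsChain R := by simpa using h
    have h2 := buprimc_chain f z (t :: l) h1.2 fun u hu => h' u (List.mem_cons_of_mem _ hu)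
    have h3 := h' s (by simp) t h1.1
    simp only [List.map_cons, List.cons_append, List.isChain_cons_cons] at h2 ⊢
    exact ⟨h3, h2⟩

theorem buprimc_out {F : List (List Entry)} (M : AMap F) {s : M.S} (h : s ∉ M.fs.flatten) :
    M.nx s ∉ M.fs.flatten := by
  intro h'
  obtain ⟨l, hl, hs⟩ := List.mem_flatten.1 h'
  have h1 := (M.cyc l hl).map_eq_rotate
  have h2 : M.nx s ∈ l.map M.nx := by rw [h1]; exact List.mem_rotate.2 hs
  obtain ⟨t, ht, e⟩ := List.mem_map.1 h2
  exact h (List.mem_flatten.2 ⟨l, hl, M.nx_inj e ▸ ht⟩)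

open Classical in
/-- The successor after a spur is drawn behind `x`. -/
noncomputable def buprimcNx {S : Type} (nx : S → S) (x : S) : S ⊕ Bool → S ⊕ Bool
  | .inl s => if s = x then .inr true else .inl (nx s)
  | .inr true => .inr false
  | .inr false => .inl (nx x)

theorem buprimc_self {S : Type} (nx : S → S) (x : S) : buprimcNx nx x (.inl x) = .inr true :=
  if_pos rfl

theorem buprimc_ne {S : Type} (nx : S → S) {x s : S} (h : s ≠ x) :
    buprimcNx nx x (.inl s) = .inl (nx s) := if_neg h

theorem buprimc_true {S : Type} (nx : S → S) (x : S) : buprimcNx nx x (.inr true) = .inr false :=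
  rfl

theorem buprimc_false {S : Type} (nx : S → S) (x : S) :
    buprimcNx nx x (.inr false) = .inl (nx x) := rfl

theorem buprimc_inj {S : Type} {nx : S → S} (h : Function.Injective nx) (x : S) :
    Function.Injective (buprimcNx nx x) := by
  have key : ∀ s, buprimcNx nx x (.inl s) ≠ .inl (nx x) := fun s e => by
    by_cases hs : s = x
    · rw [hs, buprimc_self] at e
      cases e
    · rw [buprimc_ne nx hs] at e
      exact hs (h (Sum.inl.inj e))
  have key2 : ∀ s, buprimcNx nx x (.inl s) ≠ .inr false := fun s e => by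
    by_cases hs : s = x
    · rw [hs, buprimc_self] at e
      cases e
    · rw [buprimc_ne nx hs] at e
      cases e
  rintro (s | _ | _) (t | _ | _) e
  · by_cases hs : s = x <;> by_cases ht : t = x
    · rw [hs, ht]
    · rw [hs, buprimc_self, buprimc_ne nx ht] at e
      cases e
    · rw [ht, buprimc_self, buprimc_ne nx hs] at e
      cases e
    · rw [buprimc_ne nx hs, buprimc_ne nx ht] at e
      rw [h (Sum.inl.inj e)]
  · exact absurd e (key s)
  · exact absurd e (key2 s)
  · exact absurd e.symm (key t)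
  · rfl
  · cases e
  · exact absurd e.symm (key2 t)
  · cases e
  · rfl

theorem Real.spur1 {a b e e' : Entry} {R : List Entry} {F : List (List Entry)}
    (h : Real ((a :: b :: R) :: F)) (hs : Spl a.1 e.1 b.1) (he : e'.1 = rv e.1)
    (hc : compB e.2 e'.2 = true) : Real ((a :: e :: e' :: b :: R) :: F) := by
  classical
  obtain ⟨M⟩ := h
  obtain ⟨l, fs, hfs, hl, hF⟩ := List.map_eq_cons_iff.1 M.hF
  obtain ⟨x, l', rfl, hx, hl'⟩ := List.map_eq_cons_iff.1 hl
  obtain ⟨y, r, rfl, hy, hr⟩ := List.map_eq_cons_iff.1 hl'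
  have hnd := M.nd
  have hcyc := M.cyc
  rw [hfs] at hnd hcyc
  have hxy : M.nx x = y ∧ (y :: r ++ [x]).IsChain (fun s t => M.nx s = t) := by
    have := hcyc _ List.mem_cons_self
    simpa [CChain] using this
  have ha : M.lab x = a.1 := congrArg Prod.fst hx
  have hb : M.lab (M.nx x) = b.1 := by rw [hxy.1]; exact congrArg Prod.fst hy
  have hxn : x ∉ y :: (r ++ fs.flatten) := (List.nodup_cons.1 hnd).1
  have hx1 : ∀ s ∈ y :: r, s ≠ x := fun s h1 e => hxn (by
    rw [← List.cons_append, ← e]; exact List.mem_append_left _ h1)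
  have hx2 : ∀ l ∈ fs, ∀ s ∈ l, s ≠ x := fun l h0 s h1 e => hxn (by
    rw [← List.cons_append, ← e]; exact List.mem_append_right _ (List.mem_flatten.2 ⟨l, h0, h1⟩))
  have hxin : x ∈ M.fs.flatten := by rw [hfs]; simp
  let lab' : M.S ⊕ Bool → Dart := Sum.elim M.lab fun c => if c then e.1 else e'.1
  let fs' : List (List (M.S ⊕ Bool)) :=
    (.inl x :: .inr true :: .inr false :: .inl y :: r.map .inl) :: fs.map (List.map .inl)
  have hflat : fs'.flatten =
      .inl x :: .inr true :: .inr false :: (y :: (r ++ fs.flatten)).map .inl := by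
    simp [fs', List.map_flatten]
  have hmem : ∀ s, Sum.inl s ∈ fs'.flatten ↔ s ∈ M.fs.flatten := fun s => by
    rw [hflat, hfs]; simp
  have h4 : ang e.1 e'.1 = 4 := by rw [he]; exact TD.ang_self_rv _
  have hsim : ∀ s, Walk (fun s => Sum.map M.m (!·) (buprimcNx M.nx x s))
      (fun s => ang (lab' s) (lab' (buprimcNx M.nx x s))) (.inl s) (.inl (M.m (M.nx s)))
      (ang (M.lab s) (M.lab (M.nx s))) := fun s => by
    by_cases h1 : s = x
    · subst h1
      have w := Walk.step (s := Sum.inl s) (ω := fun t => Sum.map M.m (!·) (buprimcNx M.nx s t))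
        (a := fun t => ang (lab' t) (lab' (buprimcNx M.nx s t))) (t := .inl (M.m (M.nx s)))
        (n := ang e'.1 (M.lab (M.nx s)) + 0) (by
          rw [buprimc_self]
          exact Walk.step (s := Sum.inr false) (Walk.refl _))
      rw [buprimc_self] at w
      have e1 : ang (lab' (.inl s)) (lab' (.inr true)) + (ang e'.1 (M.lab (M.nx s)) + 0) =
          ang (M.lab s) (M.lab (M.nx s)) := by
        show ang (M.lab s) e.1 + (ang e'.1 (M.lab (M.nx s)) + 0) = _
        rw [ha, hb, he, add_zero]
        exact hs.2.2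
      rwa [e1] at w
    · have w := Walk.step (s := Sum.inl s) (ω := fun t => Sum.map M.m (!·) (buprimcNx M.nx x t))
        (a := fun t => ang (lab' t) (lab' (buprimcNx M.nx x t))) (t := .inl (M.m (M.nx s)))
        (n := 0) (by
          rw [buprimc_ne _ h1]
          exact Walk.refl _)
      rw [buprimc_ne _ h1] at w
      exact w
  have hstep : ∀ u, Relation.ReflTransGen
      (fun s t => t = buprimcNx M.nx x s ∨ t = Sum.map M.m (!·) s) u (buprimcNx M.nx x u) :=
    fun u => Relation.ReflTransGen.single (Or.inl rfl)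
  have hc1 := hstep (.inl x)
  rw [buprimc_self] at hc1
  have hc2 := hstep (.inr true)
  rw [buprimc_true] at hc2
  have hc3 := hstep (.inr false)
  rw [buprimc_false] at hc3
  have hconn : ∀ s t, Relation.ReflTransGen
      (fun s t => t = buprimcNx M.nx x s ∨ t = Sum.map M.m (!·) s) (.inl s) (.inl t) := by
    intro s t
    induction M.conn s t with
    | refl => exact Relation.ReflTransGen.refl
    | @tail u v _ h2 ih =>
      refine ih.trans ?_
      rcases h2 with rfl | rfl
      · by_cases h1 : u = x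
        · rw [h1]
          exact hc1.trans (hc2.trans hc3)
        · rw [← buprimc_ne _ h1]
          exact hstep _
      · exact Relation.ReflTransGen.single (Or.inr rfl)
  let := M.fin
  refine ⟨{
    S := M.S ⊕ Bool
    fin := inferInstance
    ne := ⟨.inr true⟩
    nx := buprimcNx M.nx x
    m := Sum.map M.m (!·)
    lab := lab'
    tag := Sum.elim M.tag fun c => if c then e.2 else e'.2
    fs := fs'
    nx_inj := buprimc_inj M.nx_inj x
    mm := ?_, lab_m := ?_, hF := ?_, nd := ?_, cyc := ?_, tile := ?_, pos := ?_, node := ?_,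
    comp := ?_, conn := ?_, euler := ?_ }⟩
  · rintro (s | c)
    · simp [M.mm]
    · simp
  · rintro (s | _ | _)
    · exact M.lab_m s
    · show e.1 = rv e'.1
      rw [he, rv_rv]
    · exact he
  · simp only [fs', lab', List.map_cons, List.map_map, Function.comp_def, Sum.elim_inl,
      Sum.elim_inr, List.cons.injEq]
    exact ⟨⟨hx, rfl, rfl, hy, hr⟩, hF⟩
  · rw [hflat]
    have h1 : ((y :: (r ++ fs.flatten)).map (Sum.inl : M.S → M.S ⊕ Bool)).Nodup :=
      (List.nodup_cons.1 hnd).2.map Sum.inl_injective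
    refine List.nodup_cons.2 ⟨?_, List.nodup_cons.2 ⟨by simp, List.nodup_cons.2 ⟨by simp, h1⟩⟩⟩
    simpa using hxn
  · intro l hl
    rcases List.mem_cons.1 hl with rfl | hl
    · have h1 := buprimc_chain (R' := fun s t => buprimcNx M.nx x s = t) Sum.inl x (y :: r) hxy.2
        fun s h1 t h2 => by rw [buprimc_ne _ (hx1 s h1), h2]
      simp only [CChain, List.cons_append, List.isChain_cons_cons, List.map_cons] at h1 ⊢
      exact ⟨buprimc_self _ _, rfl, by rw [buprimc_false, hxy.1], h1⟩
    · obtain ⟨l0, h0, rfl⟩ := List.mem_map.1 hl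
      have h1 := hcyc l0 (List.mem_cons_of_mem _ h0)
      rcases l0 with _ | ⟨u, l0⟩
      · exact h1.elim
      · exact buprimc_chain (R' := fun s t => buprimcNx M.nx x s = t) Sum.inl u (u :: l0) h1
          fun s h2 t h3 => by rw [buprimc_ne _ (hx2 _ h0 s h2), h3]
  · rintro (s | _ | _) h1
    · rw [hmem] at h1
      have hk : ∀ k, (buprimcNx M.nx x)^[k] (.inl s) = .inl (M.nx^[k] s) ∧
          M.nx^[k] s ∉ M.fs.flatten := fun k => by
        induction k with
        | zero => exact ⟨rfl, h1⟩
        | succ k ih =>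
          rw [Function.iterate_succ_apply', Function.iterate_succ_apply', ih.1]
          exact ⟨buprimc_ne _ fun e => ih.2 (e ▸ hxin), buprimc_out M ih.2⟩
      have h2 : s ≠ x := fun e => h1 (e ▸ hxin)
      rw [(hk 6).1, (M.tile s h1).2, buprimc_ne _ h2]
      exact ⟨(M.tile s h1).1, rfl⟩
    · exact absurd (by rw [hflat]; simp) h1
    · exact absurd (by rw [hflat]; simp) h1
  · rintro (s | _ | _)
    · by_cases h1 : s = x
      · rw [h1, buprimc_self]
        show ang (M.lab x) e.1 ≠ 0
        rw [ha]
        exact hs.1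
      · rw [buprimc_ne _ h1]
        exact M.pos s
    · show ang e'.1 (M.lab (M.nx x)) ≠ 0
      rw [hb, he]
      exact hs.2.1
    · show ang e.1 e'.1 ≠ 0
      omega
  · rintro (s | _ | _)
    · exact (M.node s).sim Sum.inl hsim
    · have w := ((M.node x).sim Sum.inl hsim).shift
      rwa [buprimc_self] at w
    · have w := Walk.step (s := Sum.inr true)
        (ω := fun t => Sum.map M.m (!·) (buprimcNx M.nx x t))
        (a := fun t => ang (lab' t) (lab' (buprimcNx M.nx x t))) (t := .inr true) (n := 0)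
        (Walk.refl _)
      have e1 : ang (lab' (.inr true)) (lab' (buprimcNx M.nx x (.inr true))) + 0 = 4 := h4
      rwa [e1] at w
  · rintro (s | _ | _) h1 h2
    · exact M.comp s ((hmem _).1 h1) ((hmem _).1 h2)
    · show compB e'.2 e.2 = true
      rw [compB_symm]
      exact hc
    · exact hc
  · have g1 : ∀ u, ∃ s, Relation.ReflTransGen
        (fun s t => t = buprimcNx M.nx x s ∨ t = Sum.map M.m (!·) s) u (.inl s) := by
      rintro (s | _ | _)
      · exact ⟨s, .refl⟩
      · exact ⟨_, hc3⟩
      · exact ⟨_, hc2.trans hc3⟩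
    have g2 : ∀ u, ∃ s, Relation.ReflTransGen
        (fun s t => t = buprimcNx M.nx x s ∨ t = Sum.map M.m (!·) s) (.inl s) u := by
      rintro (s | _ | _)
      · exact ⟨s, .refl⟩
      · exact ⟨_, hc1.trans hc2⟩
      · exact ⟨_, hc1⟩
    intro u v
    obtain ⟨s, h1⟩ := g1 u
    obtain ⟨t, h2⟩ := g2 v
    exact h1.trans ((hconn s t).trans h2)
  · have h0 := M.euler
    have h1 : ∑ s ∈ Finset.univ.erase x, ang (lab' (.inl s)) (lab' (buprimcNx M.nx x (.inl s))) =
        ∑ s ∈ Finset.univ.erase x, ang (M.lab s) (M.lab (M.nx s)) :=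
      Finset.sum_congr rfl fun s h2 => by
        rw [buprimc_ne _ (Finset.ne_of_mem_erase h2)]
        rfl
    rw [← Finset.add_sum_erase _ _ (Finset.mem_univ x), ha, hb] at h0
    rw [Fintype.sum_sum_type, ← Finset.add_sum_erase _ _ (Finset.mem_univ x), h1, buprimc_self,
      Fintype.sum_bool, Fintype.card_sum, Fintype.card_bool]
    have h2 : ang (lab' (.inl x)) (lab' (.inr true)) = ang a.1 e.1 := by rw [← ha]; rfl
    have h3 : ang (lab' (.inr true)) (lab' (buprimcNx M.nx x (.inr true))) = 4 := h4
    have h5 : ang (lab' (.inr false)) (lab' (buprimcNx M.nx x (.inr false))) =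
        ang (rv e.1) b.1 := by rw [← hb, ← he]; rfl
    have h6 := hs.2.2
    rw [h2, h3, h5]
    simp only [List.flatten_cons, List.length_append, List.length_cons] at h0 ⊢
    omega

end Pool.Agent.MC
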