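import Pool.Agent.P.MP_2677b3_gt.BuApi

namespace Pool.Agent.MC

theorem buprimd_chain {α : Type} {R R' : α → α → Prop} {t : α} :
    ∀ {l : List α}, (l ++ [t]).IsChain R → (∀ a ∈ l, ∀ b, R a b → R' a b) →
      (l ++ [t]).IsChain R'
  | [], _, _ => List.IsChain.singleton t
  | [a], h, hR => by
    simp only [List.cons_append, List.nil_append, List.isChain_pair] at h ⊢
    exact hR a (by simp) t h
  | a :: b :: l, h, hR => by
    simp only [List.cons_append, List.isChain_cons_cons] at h ⊢
    exact ⟨hR a (by simp) b h.1,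
      buprimd_chain (l := b :: l) h.2 fun c hc => hR c (List.mem_cons_of_mem _ hc)⟩

theorem buprimd_out {F : List (List Entry)} (A : AMap F) {s : A.S} (hs : s ∉ A.fs.flatten) :
    A.nx s ∉ A.fs.flatten := by
  intro h
  obtain ⟨l, hl, hm⟩ := List.mem_flatten.1 h
  have h1 : A.nx s ∈ l.map A.nx := by
    rw [(A.cyc l hl).map_eq_rotate]
    exact List.mem_rotate.2 hm
  obtain ⟨t, ht, e⟩ := List.mem_map.1 h1
  exact hs (List.mem_flatten.2 ⟨l, hl, A.nx_inj e ▸ ht⟩)

open Classical in
/-- the next side after the chord is drawn -/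
noncomputable def buprimdNx {S : Type} (nx : S → S) (x z : S) : S ⊕ Bool → S ⊕ Bool
  | .inl s => if s = x then .inr true else if s = z then .inr false else .inl (nx s)
  | .inr true => .inl (nx z)
  | .inr false => .inl (nx x)

section
variable {S : Type} {nx : S → S} {x z : S}

theorem buprimd_x : buprimdNx nx x z (.inl x) = .inr true := by simp [buprimdNx]

theorem buprimd_z (h : z ≠ x) : buprimdNx nx x z (.inl z) = .inr false := by simp [buprimdNx, h]

theorem buprimd_o {s : S} (h : s ≠ x) (h' : s ≠ z) : buprimdNx nx x z (.inl s) = .inl (nx s) := by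
  simp [buprimdNx, h, h']

theorem buprimd_t : buprimdNx nx x z (.inr true) = .inl (nx z) := rfl

theorem buprimd_f : buprimdNx nx x z (.inr false) = .inl (nx x) := rfl

theorem buprimd_cases (s : S ⊕ Bool) : s = .inl x ∨ s = .inl z ∨
    (∃ u, u ≠ x ∧ u ≠ z ∧ s = .inl u) ∨ s = .inr true ∨ s = .inr false := by
  rcases s with u | (_ | _)
  · by_cases h : u = x
    · exact Or.inl (by rw [h])
    · by_cases h' : u = z
      · exact Or.inr (Or.inl (by rw [h']))
      · exact Or.inr (Or.inr (Or.inl ⟨u, h, h', rfl⟩))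
  · simp
  · simp

theorem buprimd_inj (hi : Function.Injective nx) (h : z ≠ x) :
    Function.Injective (buprimdNx nx x z) := by
  intro s t e
  rcases buprimd_cases (x := x) (z := z) s with rfl | rfl | ⟨u, h1, h2, rfl⟩ | rfl | rfl <;>
    rcases buprimd_cases (x := x) (z := z) t with rfl | rfl | ⟨v, h3, h4, rfl⟩ | rfl | rfl <;>
    simp_all [buprimd_x, buprimd_z, buprimd_o, buprimd_t, buprimd_f, hi.eq_iff, eq_comm]

end

theorem Real.chord1 {a b c c' e e' : Entry} {M R : List Entry} {F : List (List Entry)}
    (h : Real ((a :: M ++ b :: R) :: F)) (hc : M.head? = some c) (hc' : M.getLast? = some c')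
    (hs : Spl a.1 e.1 c.1) (hs' : Spl c'.1 e'.1 b.1) (he : e'.1 = rv e.1)
    (ht : compB e.2 e'.2 = true) : Real ((a :: e :: b :: R) :: (M ++ [e']) :: F) := by
  classical
  obtain ⟨A⟩ := h
  obtain ⟨l0, fs0, hfs, hl0, hF0⟩ := List.map_eq_cons_iff.1 A.hF
  obtain ⟨x, l1, rfl, hx, hl1⟩ := List.map_eq_cons_iff.1 hl0
  obtain ⟨ml, l2, rfl, hml, hl2⟩ := List.map_eq_append_iff.1 hl1
  obtain ⟨y, rl, rfl, hy, hrl⟩ := List.map_eq_cons_iff.1 hl2
  obtain ⟨mq, z, rfl⟩ : ∃ mq z, ml = mq ++ [z] := by
    rcases List.eq_nil_or_concat' ml with rfl | h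
    · rw [← hml] at hc
      simp at hc
    · exact h
  have hz : (A.lab z, A.tag z) = c' := by
    rw [← hml] at hc'
    simpa using hc'
  have hcy := A.cyc (x :: (mq ++ [z] ++ y :: rl)) (by rw [hfs]; simp)
  have hch : (((x :: mq) ++ [z]) ++ ((y :: rl) ++ [x])).IsChain fun s t => A.nx s = t := by
    simpa [CChain] using hcy
  rw [List.isChain_append] at hch
  obtain ⟨ch1, ch2, ch3⟩ := hch
  have hzy : A.nx z = y := ch3 z (Option.mem_def.2 List.getLast?_concat) y (by simp)
  have ch1c := List.isChain_cons.1 (show (x :: (mq ++ [z])).IsChain _ from ch1)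
  have hw : (mq ++ [z]).head? = some (A.nx x) := by
    cases mq with
    | nil => exact congrArg some (ch1c.1 z (by simp)).symm
    | cons w mq => exact congrArg some (ch1c.1 w (by simp)).symm
  have hwc : (A.lab (A.nx x), A.tag (A.nx x)) = c := by
    rw [← hml, List.head?_map, hw] at hc
    simpa using hc
  have ch1' : (mq ++ [z]).IsChain fun s t => A.nx s = t := ch1c.2
  have hnd := A.nd
  rw [hfs] at hnd
  have hnd' : x ∉ mq ∧ z ≠ x ∧ x ∉ y :: rl ∧ x ∉ fs0.flatten ∧ z ∉ mq ∧ z ∉ y :: rl ∧
      z ∉ fs0.flatten := by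
    simp only [List.flatten_cons, List.cons_append, List.append_assoc, List.nil_append,
      List.nodup_cons, List.nodup_append, List.mem_append, List.mem_cons, not_or] at hnd ⊢
    obtain ⟨⟨h1, h2, h3, h4, h5⟩, -, ⟨⟨h6, h7, h8⟩, -⟩, h9⟩ := hnd
    exact ⟨h1, fun e => h2 e.symm, ⟨h3, h4⟩, h5, fun hm => h9 z hm z (Or.inl rfl) rfl,
      ⟨h6, h7⟩, h8⟩
  obtain ⟨n1, hzx, n2, n3, n4, n5, n6⟩ := hnd'
  have la : A.lab x = a.1 := congrArg Prod.fst hx
  have lb : A.lab (A.nx z) = b.1 := by rw [hzy]; exact congrArg Prod.fst hy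
  have lc : A.lab (A.nx x) = c.1 := congrArg Prod.fst hwc
  have lc' : A.lab z = c'.1 := congrArg Prod.fst hz
  have he' : rv e'.1 = e.1 := by rw [he, rv_rv]
  obtain ⟨s1, s2, s3⟩ := hs
  obtain ⟨s4, s5, s6⟩ := hs'
  rw [← he] at s2 s3
  rw [he'] at s5 s6
  have hxm : x ∈ A.fs.flatten := by rw [hfs]; simp
  have hzm : z ∈ A.fs.flatten := by rw [hfs]; simp
  let nx' := buprimdNx A.nx x z
  let m' : A.S ⊕ Bool → A.S ⊕ Bool := Sum.map A.m not
  let lab' : A.S ⊕ Bool → Dart := Sum.elim A.lab fun u => if u then e.1 else e'.1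
  let tag' : A.S ⊕ Bool → Tag := Sum.elim A.tag fun u => if u then e.2 else e'.2
  let fs' : List (List (A.S ⊕ Bool)) := (.inl x :: .inr true :: .inl y :: rl.map .inl) ::
    ((mq ++ [z]).map .inl ++ [.inr false]) :: fs0.map (List.map .inl)
  have hperm : fs'.flatten.Perm (.inr true :: .inr false :: A.fs.flatten.map .inl) := by
    let _ : BEq (A.S ⊕ Bool) := instBEqOfDecidableEq
    rw [hfs, List.perm_iff_count]
    intro s
    simp only [fs', List.flatten_cons, List.map_append, List.map_cons, List.map_nil,
      List.map_flatten, List.count_append, List.count_cons, List.count_nil, List.cons_append]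
    omega
  have hmem : ∀ s : A.S, Sum.inl s ∈ fs'.flatten ↔ s ∈ A.fs.flatten := by
    intro s
    rw [hperm.mem_iff]
    simp only [List.mem_cons, reduceCtorEq, false_or, List.mem_map, Sum.inl.injEq,
      exists_eq_right]
  have hmem' : ∀ u : Bool, Sum.inr u ∈ fs'.flatten := by
    intro u
    rw [hperm.mem_iff]
    cases u <;> simp
  have hit : ∀ k s, s ∉ A.fs.flatten → nx'^[k] (.inl s) = .inl (A.nx^[k] s) := by
    intro k
    induction k with
    | zero => exact fun _ _ => rfl
    | succ k ih =>
      intro s hs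
      rw [Function.iterate_succ_apply, Function.iterate_succ_apply, ← ih _ (buprimd_out A hs)]
      exact congrArg _ (buprimd_o (fun e => hs (e ▸ hxm)) fun e => hs (e ▸ hzm))
  have ax : ang (lab' (.inl x)) (lab' (nx' (.inl x))) = ang a.1 e.1 := by
    simp [nx', lab', buprimd_x, la]
  have az : ang (lab' (.inl z)) (lab' (nx' (.inl z))) = ang c'.1 e'.1 := by
    simp [nx', lab', buprimd_z hzx, lc']
  have ao : ∀ u, u ≠ x → u ≠ z →
      ang (lab' (.inl u)) (lab' (nx' (.inl u))) = ang (A.lab u) (A.lab (A.nx u)) := by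
    intro u h1 h2
    simp [nx', lab', buprimd_o h1 h2]
  have at' : ang (lab' (.inr true)) (lab' (nx' (.inr true))) = ang e.1 b.1 := by
    simp [nx', lab', buprimd_t, lb]
  have af : ang (lab' (.inr false)) (lab' (nx' (.inr false))) = ang e'.1 c.1 := by
    simp [nx', lab', buprimd_f, lc]
  have wx : m' (nx' (.inl x)) = .inr false := by simp [m', nx', buprimd_x]
  have wz : m' (nx' (.inl z)) = .inr true := by simp [m', nx', buprimd_z hzx]
  have hsim : ∀ s, Walk (fun s => m' (nx' s)) (fun s => ang (lab' s) (lab' (nx' s))) (.inl s)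
      (.inl (A.m (A.nx s))) (ang (A.lab s) (A.lab (A.nx s))) := by
    intro s
    by_cases h1 : s = x
    · subst h1
      have w := Walk.step (ω := fun s => m' (nx' s))
        (a := fun s => ang (lab' s) (lab' (nx' s))) (s := .inl s)
        (Walk.step (Walk.refl _))
      simp only [wx, ax, af] at w
      rw [la, lc, ← s3]
      exact w
    · by_cases h2 : s = z
      · subst h2
        have w := Walk.step (ω := fun s => m' (nx' s))
          (a := fun s => ang (lab' s) (lab' (nx' s))) (s := .inl s)
          (Walk.step (Walk.refl _))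
        simp only [wz, az, at'] at w
        rw [lc', lb, ← s6]
        exact w
      · have w := Walk.step (ω := fun s => m' (nx' s))
          (a := fun s => ang (lab' s) (lab' (nx' s))) (s := .inl s) (Walk.refl _)
        simp only [ao s h1 h2] at w
        rw [show nx' (.inl s) = .inl (A.nx s) from buprimd_o h1 h2] at w
        exact w
  have hnode : ∀ s : A.S, Walk (fun s => m' (nx' s)) (fun s => ang (lab' s) (lab' (nx' s)))
      (.inl s) (.inl s) 4 := fun s => Walk.sim Sum.inl hsim (A.node s)
  have c1 : ∀ s, Relation.ReflTransGen (fun s t => t = nx' s ∨ t = m' s) s (nx' s) :=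
    fun s => Relation.ReflTransGen.single (Or.inl rfl)
  have c2 : ∀ s, Relation.ReflTransGen (fun s t => t = nx' s ∨ t = m' s) s (m' s) :=
    fun s => Relation.ReflTransGen.single (Or.inr rfl)
  have c3 : ∀ s t : A.S,
      Relation.ReflTransGen (fun s t => t = nx' s ∨ t = m' s) (.inl s) (.inl t) := by
    intro s t
    induction A.conn s t with
    | refl => exact Relation.ReflTransGen.refl
    | @tail u v _ huv ih =>
      refine ih.trans ?_
      rcases huv with rfl | rfl
      · by_cases h1 : u = x
        · subst h1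
          have := ((c1 (.inl u)).trans (c2 _)).trans (c1 _)
          rwa [wx] at this
        · by_cases h2 : u = z
          · subst h2
            have := ((c1 (.inl u)).trans (c2 _)).trans (c1 _)
            rwa [wz] at this
          · have := c1 (.inl u)
            rwa [show nx' (.inl u) = .inl (A.nx u) from buprimd_o h1 h2] at this
      · exact c2 (.inl u)
  let _ := A.fin
  refine ⟨{
    S := A.S ⊕ Bool
    fin := inferInstance
    ne := inferInstance
    nx := nx'
    m := m'
    lab := lab'
    tag := tag'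
    fs := fs'
    nx_inj := buprimd_inj A.nx_inj hzx
    mm := ?_
    lab_m := ?_
    hF := ?_
    nd := ?_
    cyc := ?_
    tile := ?_
    pos := ?_
    node := ?_
    comp := ?_
    conn := ?_
    euler := ?_ }⟩
  · rintro (s | u) <;> simp [m', A.mm]
  · rintro (s | (_ | _)) <;> simp [m', lab', A.lab_m, he, rv_rv]
  · simp only [fs', lab', tag', List.map_cons, List.map_append (l₂ := [Sum.inr false]),
      List.map_map, Function.comp_def, Sum.elim_inl, Sum.elim_inr, List.map_nil, hx, hy, hrl,
      hml, hF0]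
    simp
  · rw [hperm.nodup_iff]
    simp only [List.nodup_cons, List.mem_cons, List.mem_map, reduceCtorEq, and_false,
      exists_false, or_false, Sum.inr.injEq, not_false_eq_true, true_and]
    exact A.nd.map Sum.inl_injective
  · intro l hl
    rcases List.mem_cons.1 hl with rfl | hl
    · have h1 : ((y :: rl) ++ [x]).IsChain fun s t => nx' (.inl s) = .inl t :=
        buprimd_chain ch2 fun u hu v huv =>
          huv ▸ buprimd_o (fun e => n2 (e ▸ hu)) fun e => n5 (e ▸ hu)
      have h2 := (List.isChain_map (R := fun s t => nx' s = t) Sum.inl).2 h1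
      simp only [List.cons_append, List.map_cons, List.map_append, List.map_nil] at h2
      simp only [CChain, List.cons_append, List.isChain_cons_cons]
      exact ⟨buprimd_x, by rw [← hzy]; rfl, h2⟩
    rcases List.mem_cons.1 hl with rfl | hl
    · have h1 : (mq ++ [z]).IsChain fun s t => nx' (.inl s) = .inl t :=
        buprimd_chain ch1' fun u hu v huv =>
          huv ▸ buprimd_o (fun e => n1 (e ▸ hu)) fun e => n4 (e ▸ hu)
      have h2 := (List.isChain_map (R := fun s t => nx' s = t) Sum.inl).2 h1
      refine cchain_iff.2 ⟨by simp, List.isChain_append.2 ⟨h2, List.IsChain.singleton _, ?_⟩, ?_⟩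
      · intro u hu v hv
        obtain rfl : Sum.inl z = u := by simpa using hu
        obtain rfl : Sum.inr false = v := by simpa using hv
        exact buprimd_z hzx
      · intro u hu v hv
        obtain rfl : Sum.inr false = u := by simpa using hu
        rw [List.head?_append, List.head?_map, hw] at hv
        obtain rfl : Sum.inl (A.nx x) = v := by simpa using hv
        rfl
    · obtain ⟨l', hl', rfl⟩ := List.mem_map.1 hl
      refine (cchain_map _).2 ((A.cyc l' (by rw [hfs]; simp [hl'])).imp fun u hu v _ huv => ?_)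
      have hu' : u ∈ fs0.flatten := List.mem_flatten.2 ⟨l', hl', hu⟩
      exact huv ▸ buprimd_o (fun e => n3 (e ▸ hu')) fun e => n6 (e ▸ hu')
  · rintro (s | u) hs
    · have hs' : s ∉ A.fs.flatten := fun h => hs ((hmem s).2 h)
      refine ⟨?_, by rw [hit 6 s hs', (A.tile s hs').2]⟩
      rw [show nx' (.inl s) = .inl (A.nx s) from hit 1 s hs']
      exact (A.tile s hs').1
    · exact absurd (hmem' u) hs
  · intro s
    rcases buprimd_cases (x := x) (z := z) s with rfl | rfl | ⟨u, h1, h2, rfl⟩ | rfl | rfl
    · rwa [ax]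
    · rwa [az]
    · rw [ao u h1 h2]; exact A.pos u
    · rwa [at']
    · rwa [af]
  · rintro (s | (_ | _))
    · exact hnode s
    · have := (hnode x).shift
      simpa only [wx] using this
    · have := (hnode z).shift
      simpa only [wz] using this
  · rintro (s | (_ | _)) h1 h2
    · exact A.comp s ((hmem s).1 h1) ((hmem _).1 h2)
    · exact (compB_symm _ _).trans ht
    · exact ht
  · have d1 : ∀ s, ∃ u : A.S,
        Relation.ReflTransGen (fun s t => t = nx' s ∨ t = m' s) s (.inl u) := by
      rintro (s | (_ | _))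
      · exact ⟨s, Relation.ReflTransGen.refl⟩
      · exact ⟨_, c1 (.inr false)⟩
      · exact ⟨_, c1 (.inr true)⟩
    have d2 : ∀ s, ∃ u : A.S,
        Relation.ReflTransGen (fun s t => t = nx' s ∨ t = m' s) (.inl u) s := by
      rintro (s | (_ | _))
      · exact ⟨s, Relation.ReflTransGen.refl⟩
      · exact ⟨x, wx ▸ (c1 (.inl x)).trans (c2 _)⟩
      · exact ⟨z, wz ▸ (c1 (.inl z)).trans (c2 _)⟩
    intro s t
    obtain ⟨u, hu⟩ := d1 s
    obtain ⟨v, hv⟩ := d2 t
    exact (hu.trans (c3 u v)).trans hv
  · have e1 := A.euler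
    have e2 : ∀ s : A.S, ang (lab' (.inl s)) (lab' (nx' (.inl s))) +
        (if s = x then ang e'.1 c.1 else 0) + (if s = z then ang e.1 b.1 else 0) =
          ang (A.lab s) (A.lab (A.nx s)) := by
      intro s
      by_cases h1 : s = x
      · subst h1
        rw [ax, if_pos rfl, if_neg hzx.symm, la, lc, ← s3, add_zero]
      · by_cases h2 : s = z
        · subst h2
          rw [az, if_neg h1, if_pos rfl, lc', lb, ← s6, add_zero]
        · rw [ao s h1 h2, if_neg h1, if_neg h2, add_zero, add_zero]
    have e3 := Finset.sum_congr (s₁ := Finset.univ) rfl fun s _ => e2 s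
    rw [Finset.sum_add_distrib, Finset.sum_add_distrib, Finset.sum_ite_eq', Finset.sum_ite_eq',
      if_pos (Finset.mem_univ _), if_pos (Finset.mem_univ _)] at e3
    rw [Fintype.sum_sum_type, Fintype.sum_bool, at', af, Fintype.card_sum, Fintype.card_bool]
    simp only [List.flatten_cons, List.length_append, List.length_cons, List.length_nil] at e1 ⊢
    omega

end Pool.Agent.MC
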