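import Pool.Agent.P.MP_2677b3_gt.BuPrimA
import Pool.Agent.P.MP_2677b3_gt.BuPrimB
import Pool.Agent.P.MP_2677b3_gt.BuPrimC
import Pool.Agent.P.MP_2677b3_gt.BuPrimD

namespace Pool.Agent.MC

theorem bucut_refl (F : List (List Entry)) : List.Forall₂ List.IsRotated F F :=
  List.forall₂_same.2 fun _ _ => List.IsRotated.refl _

theorem bucut_spl : ∀ d e : Dart, Fw d e → Spl d e (rv d) := by decide +kernel

theorem bucut_in : ∀ a f : Dart, 2 ≤ ang a f → Spl a (out 5 f) f := by decide +kernel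

theorem bucut_ex : ∀ f b : Dart, 2 ≤ ang f b → Spl f (lf^[1] f) b := by decide +kernel

theorem bucut_ex3 : ∀ f b : Dart, 2 ≤ ang (lf (lf f)) b → Spl (lf (lf f)) (lf^[3] f) b := by
  decide +kernel

theorem bucut_t5 : ∀ d : Dart,
    [d, lf^[1] d, lf^[2] d, lf^[3] d, lf^[4] d, lf^[5] d] = tileL d := by decide +kernel

theorem bucut_t3 : ∀ d : Dart,
    [d, lf d, lf (lf d), lf^[3] d, lf^[4] d, lf^[5] d] = tileL d := by decide +kernel

theorem bucut_o (k : ℕ) (d : Dart) : out k d = rv (lf^[k] d) := rfl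

theorem bucut_tile {e : Entry} {t : List Entry} (h : e.1 :: darts t = tileL e.1) :
    isTile (e :: t) = true := decide_eq_true h

theorem bucut_out : ∀ f : Dart, Fw (out 5 f) (out 4 f) ∧ Fw (out 4 f) (out 3 f) ∧
    Fw (out 3 f) (out 2 f) ∧ Fw (out 2 f) (out 1 f) := by decide +kernel

theorem bucut_last {P Q : List Entry} {q : Entry} (hm : Mate P Q) (hq : Q.head? = some q) :
    ∃ P0 e Q0, P = P0 ++ [e] ∧ Q = q :: Q0 ∧ Mate P0 Q0 ∧ q.1 = rv e.1 ∧
      compB e.2 q.2 = true := by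
  rcases Q with _ | ⟨q', Q0⟩
  · simp at hq
  obtain rfl : q' = q := by simpa using hq
  have h := hm.symm
  unfold Mate at h
  obtain ⟨e, Pr, ⟨h1, h2⟩, h3, h4⟩ := List.forall₂_cons_left_iff.1 h
  refine ⟨Pr.reverse, e, Q0, ?_, rfl, Mate.symm ?_, by rw [h1, rv_rv], by rw [compB_symm]; exact h2⟩
  · rw [← List.reverse_reverse P, h4]; simp
  · unfold Mate; rwa [List.reverse_reverse]

theorem Rw.refl (X : List Entry) : Rw X X [] := fun _ _ h => h

theorem Rw.trans {X Y Z : List Entry} {H H' : List (List Entry)} (h : Rw X Y H) (h' : Rw Y Z H') :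
    Rw X Z (H' ++ H) := by
  intro R F r
  rw [List.append_assoc]
  exact h' R (H ++ F) (h R F r)

theorem Rw.ctx {X Y : List Entry} {H : List (List Entry)} (h : Rw X Y H) (A B : List Entry) :
    Rw (A ++ X ++ B) (A ++ Y ++ B) H := by
  intro R F r
  have r1 : Real ((X ++ (B ++ R ++ A)) :: F) := by
    have := Real.rot (A := A) (B := X ++ B ++ R) (F := F) (by simpa using r)
    simpa using this
  have := Real.rot (A := Y ++ B ++ R) (B := A) (F := H ++ F) (by simpa using h _ F r1)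
  simpa using this

theorem Rw.toC {X Y : List Entry} {H : List (List Entry)} (h : Rw X Y H) : RwC X (Y :: H) := by
  intro F r
  simpa using h [] F (by simpa using r)

theorem Rw.rotated {X Y : List Entry} {H H' : List (List Entry)} (h : Rw X Y H)
    (hr : List.Forall₂ List.IsRotated H H') : Rw X Y H' := by
  intro R F r
  exact (h R F r).rotated (.cons (List.IsRotated.refl _) (List.rel_append hr (bucut_refl F)))

theorem RwC.trans {X Y : List Entry} {H H' : List (List Entry)} (h : RwC X (Y :: H))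
    (h' : RwC Y H') : RwC X (H' ++ H) := by
  intro F r
  rw [List.append_assoc]
  exact h' (H ++ F) (h F r)

theorem RwC.perm {X : List Entry} {H H' : List (List Entry)} (h : RwC X H) (hp : H.Perm H') :
    RwC X H' := by
  intro F r
  exact (h F r).perm (hp.append_right F)

theorem RwC.rotated {X X' : List Entry} {H H' : List (List Entry)} (h : RwC X H) (hX : X' ~r X)
    (hr : List.Forall₂ List.IsRotated H H') : RwC X' H' := by
  intro F r
  exact (h F (r.rotated (.cons hX (bucut_refl F)))).rotated (List.rel_append hr (bucut_refl F))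

theorem rwC_rot {X X' : List Entry} (hX : X ~r X') : RwC X [X'] := by
  intro F r
  exact r.rotated (.cons hX (bucut_refl F))

theorem rwC_tile {X : List Entry} (hX : isTile X = true) : RwC X [] := by
  intro F r
  exact r.absorb hX

theorem bucut_spur {P Q : List Entry}
    (hm : List.Forall₂ (fun a b : Entry => b.1 = rv a.1 ∧ compB a.2 b.2 = true) P Q) :
    ∀ {a b p : Entry}, (darts P).IsChain Fw → P.head? = some p → Spl a.1 p.1 b.1 →
      Rw [a, b] (a :: P ++ Q.reverse ++ [b]) [] := by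
  induction hm with
  | nil => intro a b p _ hp; simp at hp
  | @cons e e' P Q h hm ih =>
    intro a b p hf hp hs
    obtain rfl : e = p := by simpa using hp
    have s1 : Rw [a, b] [a, e, e', b] [] := fun R F r => Real.spur1 r hs h.1 h.2
    rcases P with _ | ⟨p1, P⟩
    · cases hm
      exact s1
    · have hf' : Fw e.1 p1.1 ∧ (darts (p1 :: P)).IsChain Fw := by simpa using hf
      have s2 := (ih (a := e) (b := e') hf'.2 rfl (by rw [h.1]; exact bucut_spl _ _ hf'.1)).ctx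
        [a] [b]
      have := s1.trans s2
      simpa using this

theorem bucut_chord {a b c c' e e' : Entry} {M : List Entry} (hc : M.head? = some c)
    (hc' : M.getLast? = some c') (hs : Spl a.1 e.1 c.1) (hs' : Spl c'.1 e'.1 b.1)
    (he : e'.1 = rv e.1) (ht : compB e.2 e'.2 = true) :
    Rw (a :: M ++ [b]) [a, e, b] [M ++ [e']] :=
  fun R F r => Real.chord1 (R := R) (F := F) (by simpa using r) hc hc' hs hs' he ht

/-- A dangling path drawn into the corner between `a` and `b`. -/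
theorem rw_spur {a b p : Entry} {P Q : List Entry} (hm : Mate P Q) (hf : (darts P).IsChain Fw)
    (hp : P.head? = some p) (hs : Spl a.1 p.1 b.1) : Rw [a, b] (a :: P ++ Q ++ [b]) [] := by
  have := bucut_spur hm hf hp hs
  rwa [List.reverse_reverse] at this

/-- A path from the corner after `a` to the corner before `b` cuts off `M`. -/
theorem rw_cut {a b c c' p q : Entry} {M P Q : List Entry} (hm : Mate P Q)
    (hf : (darts P).IsChain Fw) (hp : P.head? = some p) (hq : Q.head? = some q)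
    (hc : M.head? = some c) (hc' : M.getLast? = some c') (hs : Spl a.1 p.1 c.1)
    (hs' : Spl c'.1 q.1 b.1) : Rw (a :: M ++ [b]) (a :: P ++ [b]) [M ++ Q] := by
  obtain ⟨P0, e, Q0, rfl, rfl, hm0, he, ht⟩ := bucut_last hm hq
  rcases Q0 with _ | ⟨x', Q1⟩
  · have h0 : P0 = [] := by simpa [Mate] using hm0
    subst h0
    obtain rfl : e = p := by simpa using hp
    exact bucut_chord hc hc' hs hs' he ht
  · obtain ⟨P1, x, Q2, rfl, -, -, hx, -⟩ := bucut_last hm0 (q := x') rfl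
    obtain ⟨M', rfl⟩ : ∃ M', M = c :: M' := by
      rcases M with _ | ⟨c0, M'⟩
      · simp at hc
      · exact ⟨M', by simp at hc; rw [hc]⟩
    have hf' : (darts (P1 ++ [x])).IsChain Fw ∧ Fw x.1 e.1 := by
      rw [darts_append] at hf
      refine ⟨hf.left_of_append, ?_⟩
      have := (List.isChain_append.1 hf).2.2
      exact this x.1 (by simp) e.1 (by simp)
    have hp' : (P1 ++ [x]).head? = some p := by
      rcases P1 with _ | ⟨y, P1⟩ <;> simpa using hp
    have s1 := (rw_spur hm0 hf'.1 hp' hs).ctx [] (M' ++ [b])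
    have s2 := (bucut_chord (a := x) (b := b) (M := x' :: Q1 ++ c :: M') (c := x') (c' := c')
      (e := e) (e' := q) rfl (by
        rw [List.getLast?_append, hc']; rfl) (by rw [hx]; exact bucut_spl _ _ hf'.2) hs' he ht).ctx
      (a :: P1) []
    have s3 : Rw (a :: (c :: M') ++ [b]) (a :: (P1 ++ [x] ++ [e]) ++ [b])
        [x' :: Q1 ++ c :: M' ++ [q]] := by
      have := Rw.trans (by simpa using s1) (by simpa using s2)
      simpa using this
    refine s3.rotated (.cons ?_ .nil)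
    have := List.isRotated_append (l := x' :: Q1) (l' := c :: M' ++ [q])
    simpa using this

/-- The same cut when everything except `a` is cut off. -/
theorem rwC_cut {a c c' p q : Entry} {M P Q : List Entry} (hm : Mate P Q) (h2 : 2 ≤ P.length)
    (hf : (darts P).IsChain Fw) (hp : P.head? = some p) (hq : Q.head? = some q)
    (hc : M.head? = some c) (hc' : M.getLast? = some c') (hs : Spl a.1 p.1 c.1)
    (hs' : Spl c'.1 q.1 a.1) : RwC (a :: M) [a :: P, M ++ Q] := by
  obtain ⟨Q1, p', P1, rfl, rfl, hm1, hp', ht⟩ := bucut_last hm.symm hp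
  obtain ⟨M', rfl⟩ : ∃ M', M = c :: M' := by
    rcases M with _ | ⟨c0, M'⟩
    · simp at hc
    · exact ⟨M', by simp at hc; rw [hc]⟩
  rcases P1 with _ | ⟨p1, P1⟩
  · simp at h2
  have he : p'.1 = rv p.1 := by rw [hp', rv_rv]
  have hq' : Q1.head? = some q := by
    rcases Q1 with _ | ⟨y, Q1⟩
    · simp [Mate] at hm1
    · simpa using hq
  have hf' : Fw p.1 p1.1 ∧ (darts (p1 :: P1)).IsChain Fw := by
    simpa using hf
  have s := rw_cut (a := p) (b := a) (c := p') (c' := c') (p := p1) (q := q) (M := p' :: c :: M')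
    hm1.symm hf'.2 rfl hq' rfl (by rw [List.getLast?_cons_cons, hc'])
    (by rw [he]; exact bucut_spl _ _ hf'.1) hs'
  intro F r
  have r1 := Real.spur1 r hs he (by rw [compB_symm]; exact ht)
  have r2 := Real.rot (A := [a]) (B := p :: p' :: c :: M') r1
  have r3 := s.toC F r2
  refine r3.rotated (.cons ?_ (.cons ?_ (bucut_refl F)))
  · exact List.isRotated_append (l := p :: p1 :: P1) (l' := [a])
  · have := List.isRotated_append (l := [p']) (l' := c :: M' ++ Q1)
    simpa using this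

theorem rw_tile {a b c c' p q : Entry} {M P Q : List Entry} (hm : Mate P Q)
    (hf : (darts P).IsChain Fw) (hp : P.head? = some p) (hq : Q.head? = some q)
    (hc : M.head? = some c) (hc' : M.getLast? = some c') (hs : Spl a.1 p.1 c.1)
    (hs' : Spl c'.1 q.1 b.1) (ht : isTile (M ++ Q) = true) :
    Rw (a :: M ++ [b]) (a :: P ++ [b]) [] := by
  intro R F r
  exact ((rw_cut hm hf hp hq hc hc' hs hs' R F r).perm (List.Perm.swap _ _ F)).absorb ht

theorem bucut_mate {o d : Dart} (h : o = rv d) (t : Tag) :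
    ((d, Tag.inner) : Entry).1 = rv ((o, t) : Entry).1 ∧
      compB ((o, t) : Entry).2 ((d, Tag.inner) : Entry).2 = true :=
  ⟨by rw [h]; exact (rv_rv d).symm, (compB_inner t).2⟩

theorem bucut_tile5 {a b f : Entry} {d₁ d₂ d₃ d₄ d₅ o₁ o₂ o₃ o₄ o₅ : Dart} (t₅ t₄ t₃ t₂ t₁ : Tag)
    (e₁ : o₁ = rv d₁) (e₂ : o₂ = rv d₂) (e₃ : o₃ = rv d₃) (e₄ : o₄ = rv d₄) (e₅ : o₅ = rv d₅)
    (h : Fw o₅ o₄ ∧ Fw o₄ o₃ ∧ Fw o₃ o₂ ∧ Fw o₂ o₁) (ha : Spl a.1 o₅ f.1) (hb : Spl f.1 d₁ b.1)
    (ht : [f.1, d₁, d₂, d₃, d₄, d₅] = tileL f.1) :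
    Rw [a, f, b] [a, (o₅, t₅), (o₄, t₄), (o₃, t₃), (o₂, t₂), (o₁, t₁), b] [] :=
  rw_tile (M := [f]) (c := f) (c' := f) (p := (o₅, t₅)) (q := (d₁, .inner))
    (P := [(o₅, t₅), (o₄, t₄), (o₃, t₃), (o₂, t₂), (o₁, t₁)]) (Q := inn [d₁, d₂, d₃, d₄, d₅])
    (.cons (bucut_mate e₅ _) (.cons (bucut_mate e₄ _) (.cons (bucut_mate e₃ _)
      (.cons (bucut_mate e₂ _) (.cons (bucut_mate e₁ _) .nil)))))
    (.cons_cons h.1 (.cons_cons h.2.1 (.cons_cons h.2.2.1 (.cons_cons h.2.2.2 (.singleton _)))))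
    rfl rfl rfl rfl ha hb (bucut_tile ht)

theorem bucut_tile3 {a b x y z : Entry} {d₃ d₄ d₅ o₃ o₄ o₅ : Dart} (t₅ t₄ t₃ : Tag)
    (e₃ : o₃ = rv d₃) (e₄ : o₄ = rv d₄) (e₅ : o₅ = rv d₅)
    (h : Fw o₅ o₄) (h' : Fw o₄ o₃) (ha : Spl a.1 o₅ x.1) (hb : Spl z.1 d₃ b.1)
    (ht : [x.1, y.1, z.1, d₃, d₄, d₅] = tileL x.1) :
    Rw [a, x, y, z, b] [a, (o₅, t₅), (o₄, t₄), (o₃, t₃), b] [] :=
  rw_tile (M := [x, y, z]) (c := x) (c' := z) (p := (o₅, t₅)) (q := (d₃, .inner))
    (P := [(o₅, t₅), (o₄, t₄), (o₃, t₃)]) (Q := inn [d₃, d₄, d₅])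
    (.cons (bucut_mate e₅ _) (.cons (bucut_mate e₄ _) (.cons (bucut_mate e₃ _) .nil)))
    (.cons_cons h (.cons_cons h' (.singleton _)))
    rfl rfl rfl rfl ha hb (bucut_tile ht)

/-- The tile on the left of the single side `f`. -/
theorem rw_tile5 {a b f : Entry} (t₅ t₄ t₃ t₂ t₁ : Tag) (ha : 2 ≤ ang a.1 f.1)
    (hb : 2 ≤ ang f.1 b.1) : Rw [a, f, b]
      [a, (out 5 f.1, t₅), (out 4 f.1, t₄), (out 3 f.1, t₃), (out 2 f.1, t₂), (out 1 f.1, t₁), b]
      [] :=
  bucut_tile5 t₅ t₄ t₃ t₂ t₁ (bucut_o 1 f.1) (bucut_o 2 f.1) (bucut_o 3 f.1) (bucut_o 4 f.1)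
    (bucut_o 5 f.1) (bucut_out f.1) (bucut_in a.1 f.1 ha) (bucut_ex f.1 b.1 hb) (bucut_t5 f.1)

/-- The tile on three consecutive sides with right angles between them. -/
theorem rw_tile3 {a b x y z : Entry} (t₅ t₄ t₃ : Tag) (hy : y.1 = lf x.1) (hz : z.1 = lf y.1)
    (ha : 2 ≤ ang a.1 x.1) (hb : 2 ≤ ang z.1 b.1) : Rw [a, x, y, z, b]
      [a, (out 5 x.1, t₅), (out 4 x.1, t₄), (out 3 x.1, t₃), b] [] := by
  rw [hy] at hz
  refine bucut_tile3 t₅ t₄ t₃ (bucut_o 3 x.1) (bucut_o 4 x.1) (bucut_o 5 x.1) (bucut_out x.1).1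
    (bucut_out x.1).2.1 (bucut_in a.1 x.1 ha) ?_ ?_
  · rw [hz] at hb ⊢
    exact bucut_ex3 x.1 b.1 hb
  · rw [hy, hz]
    exact bucut_t3 x.1

end Pool.Agent.MC
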