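import Pool.Agent.P.MP_2677b3_gt.Basic

/-! Definitions for the construction of hexagon tilings. -/

namespace Pool.Agent.MC

/-- Side `j` of the tile of type `(a, p)` in the four-tile surface; the tile is on the left.
Even `j`: wall, odd `j`: seam. -/
abbrev Dart : Type := ZMod 2 × ZMod 2 × ZMod 6

def wall (d : Dart) : Bool := d.2.2.val % 2 == 0

/-- The same edge seen from the other side. -/
def rv (d : Dart) : Dart := if wall d then (d.1 + 1, d.2.1, d.2.2) else (d.1, d.2.1 + 1, d.2.2)

/-- The next side of the tile. -/
def lf (d : Dart) : Dart :=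
  if d.1 + d.2.1 = 0 then (d.1, d.2.1, d.2.2 + 1) else (d.1, d.2.1, d.2.2 - 1)

/-- The side that follows `d` when `k` right angles are left free on the left. -/
def fk : ℕ → Dart → Dart
  | 0, d => rv d
  | k + 1, d => lf (rv (fk k d))

theorem fk_realize : True := by have := @fk.eq_def; trivial

/-- The angle (number of right angles, in `1..4`) between consecutive sides, `0` if they do not
fit. -/
def ang (d e : Dart) : ℕ :=
  if e = fk 1 d then 1 else if e = fk 2 d then 2 else if e = fk 3 d then 3
  else if e = fk 4 d then 4 else 0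

def xv (j : ZMod 6) : ℤ × ℤ :=
  if j.val / 2 = 0 then (1, 0) else if j.val / 2 = 1 then (0, 1) else (-1, -1)

/-- A cocycle with values in `ℤ⁴` (the first homology of the four-tile surface). -/
def th (d : Dart) : Fin 4 → ℤ :=
  if wall d then
    (if d.2.1 = 0 then (if d.1 = 0 then ![(xv d.2.2).1, (xv d.2.2).2, 0, 0]
      else ![-(xv d.2.2).1, -(xv d.2.2).2, 0, 0]) else ![0, 0, 0, 0])
  else
    (if d.1 = 0 then (if d.2.1 = 0 then ![0, 0, (xv d.2.2).1, (xv d.2.2).2]
      else ![0, 0, -(xv d.2.2).1, -(xv d.2.2).2]) else ![0, 0, 0, 0])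

/-- An area form modulo four. -/
def al (d : Dart) : ZMod 4 :=
  if wall d then (if d.1 = 0 then 1 else 3) else (if d.1 = 0 then 2 else 0)

/-- The reversed path. -/
def mirror (l : List Dart) : List Dart := (l.map rv).reverse

/-- The six sides of a tile, starting from `d`. -/
def tileL (d : Dart) : List Dart := orbL lf d 6

/-- The jog rule: straight along walls and along seams, right turn from a wall onto a seam, left
turn from a seam onto a wall. -/
def J (d e : Dart) : Prop := if wall d then e = fk 2 d ∨ e = fk 3 d else e = fk 1 d ∨ e = fk 2 d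

instance (d e : Dart) : Decidable (J d e) := by unfold J; infer_instance

/-- The new edge `e` splits the corner between `d` and `g`. -/
def Spl (d e g : Dart) : Prop :=
  ang d e ≠ 0 ∧ ang (rv e) g ≠ 0 ∧ ang d e + ang (rv e) g = ang d g

instance (d e g : Dart) : Decidable (Spl d e g) := by unfold Spl; infer_instance

/-- Consecutive sides of a path that does not turn back. -/
def Fw (d e : Dart) : Prop := ang d e ≠ 0 ∧ ang d e ≠ 4

instance (d e : Dart) : Decidable (Fw d e) := by unfold Fw; infer_instance

inductive Tag
  | top (r : ℕ)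
  | old (r : ℕ)
  | free (r : ℕ)
  | hole
  | inner
  deriving DecidableEq

def Tag.rk : Tag → ℕ
  | .top r => r
  | .old r => r
  | .free r => r
  | _ => 0

/-- Tags allowed on the two sides of one edge. -/
def compB : Tag → Tag → Bool
  | .inner, _ => true
  | _, .inner => true
  | .top r, .old r' => decide (r' < r)
  | .old r', .top r => decide (r' < r)
  | .free _, .free _ => true
  | _, _ => false

/-- Tags of two sides that are glued along a cuff. -/
def tmB : Tag → Tag → Bool
  | .top r, .old r' => decide (r = r')
  | .top r, .free r' => decide (r = r')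
  | .old r', .top r => decide (r = r')
  | .free r', .top r => decide (r = r')
  | .hole, .hole => true
  | _, _ => false

theorem tag_eqns_seen : True := by
  have := @Tag.rk.eq_4
  have := @compB.eq_2
  have := @compB.eq_6
  have := @tmB.eq_6
  trivial

abbrev Entry : Type := Dart × Tag

def darts (l : List Entry) : List Dart := l.map Prod.fst

def thL (l : List Entry) : Fin 4 → ℤ := (l.map fun e => th e.1).sum

def alL (l : List Entry) : ZMod 4 := (l.map fun e => al e.1).sum

/-- A nonempty cyclic chain. -/
def CChain {α : Type} (R : α → α → Prop) : List α → Prop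
  | [] => False
  | a :: t => (a :: t ++ [a]).IsChain R

/-- Sum of the angles of a closed face. -/
def cang (l : List Entry) : ℕ := (List.zipWith (fun a b => ang a.1 b.1) l (l.rotate 1)).sum

/-- `Q` is the other side of the path `P`. -/
def Mate (P Q : List Entry) : Prop :=
  List.Forall₂ (fun a b : Entry => b.1 = rv a.1 ∧ compB a.2 b.2 = true) P Q.reverse

/-- The faces `P` and `Q` are glued along a cuff. -/
def Match (P Q : List Entry) : Prop :=
  List.Forall₂ (fun a b : Entry => b.1 = rv a.1 ∧ tmB a.2 b.2 = true) P Q.reverse

/-- Iterating `ω` from `s` to `t` with total weight `n`. -/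
inductive Walk {S : Type} (ω : S → S) (a : S → ℕ) : S → S → ℕ → Prop
  | refl (s : S) : Walk ω a s s 0
  | step {s t : S} {n : ℕ} : Walk ω a (ω s) t n → Walk ω a s t (a s + n)

/-- A planar angled map: sides `S`, next side `nx` of the face on the left, mate `m` on the other
side of the edge.  The faces in `fs` carry the entries `F`, all other faces are tiles, the angle
at every node is four right angles. -/
structure AMap (F : List (List Entry)) where
  S : Type
  fin : Fintype S
  ne : Nonempty S
  nx : S → S
  m : S → S
  lab : S → Dart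
  tag : S → Tag
  fs : List (List S)
  nx_inj : Function.Injective nx
  mm : ∀ s, m (m s) = s
  lab_m : ∀ s, lab (m s) = rv (lab s)
  hF : fs.map (List.map fun s => (lab s, tag s)) = F
  nd : fs.flatten.Nodup
  cyc : ∀ l ∈ fs, CChain (fun s t => nx s = t) l
  tile : ∀ s, s ∉ fs.flatten → lab (nx s) = lf (lab s) ∧ nx^[6] s = s
  pos : ∀ s, ang (lab s) (lab (nx s)) ≠ 0
  node : ∀ s, Walk (fun s => m (nx s)) (fun s => ang (lab s) (lab (nx s))) s s 4
  comp : ∀ s, s ∈ fs.flatten → m s ∈ fs.flatten → compB (tag s) (tag (m s)) = true
  conn : ∀ s t, Relation.ReflTransGen (fun s t => t = nx s ∨ t = m s) s t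
  euler : 4 * Fintype.card S + 24 + 2 * F.flatten.length =
    3 * (∑ s, ang (lab s) (lab (nx s))) + 12 * F.length

def Real (F : List (List Entry)) : Prop := Nonempty (AMap F)

/-- The segment `X` of a face can be replaced by `Y`, the faces `Hs` are cut off. -/
def Rw (X Y : List Entry) (Hs : List (List Entry)) : Prop :=
  ∀ R F, Real ((X ++ R) :: F) → Real ((Y ++ R) :: (Hs ++ F))

/-- The face `X` can be subdivided into tiles and the faces `Hs`. -/
def RwC (X : List Entry) (Hs : List (List Entry)) : Prop :=
  ∀ F, Real (X :: F) → Real (Hs ++ F)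

/-! ### Scripts -/

/-- Darts of the path that starts after `d` with the given angles. -/
def pathD : Dart → List ℕ → List Dart
  | _, [] => []
  | d, k :: ks => fk k d :: pathD (fk k d) ks

theorem pathD_realize : True := by have := @pathD.eq_def; trivial

def mateB : List Entry → List Entry → Bool
  | [], [] => true
  | a :: P, b :: Q => decide (b.1 = rv a.1) && compB a.2 b.2 && mateB P Q
  | _, _ => false

theorem mateB_realize : True := by have := @mateB.eq_def; trivial

def fwB : List Entry → Bool
  | a :: b :: l => decide (Fw a.1 b.1) && fwB (b :: l)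
  | _ => true

theorem fwB_realize : True := by have := @fwB.eq_def; trivial

def isTile : List Entry → Bool
  | [] => false
  | e :: t => decide (darts (e :: t) = tileL e.1)

/-- `cut i n ks tP tQ ab`: with `a = X[i]`, `M` the next `n` entries and `b` the entry after them,
draw the path with angles `ks` from the corner after `a` to the corner before `b` (a dangling
path if `n = 0`); `tP`, `tQ` are the tags on the two sides, both listed along the path; the face
that is cut off is a tile and disappears if `ab`.  `rot k` rotates a whole face. -/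
inductive Op
  | cut (i n : ℕ) (ks : List ℕ) (tP tQ : List Tag) (ab : Bool)
  | rot (k : ℕ)

def stepOp (whole : Bool) : Op → List Entry → Option (List Entry × List (List Entry))
  | .rot k, X => if whole then some (X.rotate k, []) else none
  | .cut i n ks tP tQ ab, X =>
    match X.drop i with
    | [] => none
    | a :: Y =>
      match Y.drop n with
      | [] => none
      | b :: Z =>
        let M := Y.take n
        let P : List Entry := (pathD a.1 ks).zip tP
        let Q : List Entry := (((pathD a.1 ks).map rv).zip tQ).reverse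
        match P, Q with
        | p :: _, q :: _ =>
          if mateB P Q.reverse && fwB P then
            match M, M.getLast? with
            | c :: _, some c' =>
              if Spl a.1 p.1 c.1 ∧ Spl c'.1 q.1 b.1 then
                if ab then (if isTile (M ++ Q) then some (X.take i ++ a :: P ++ b :: Z, []) else none)
                else some (X.take i ++ a :: P ++ b :: Z, [M ++ Q])
              else none
            | _, _ => if Spl a.1 p.1 b.1 then some (X.take i ++ a :: P ++ Q ++ b :: Z, []) else none
          else none
        | _, _ => none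

def run (whole : Bool) : List Op → List Entry → Option (List Entry × List (List Entry))
  | [], X => some (X, [])
  | o :: os, X =>
    match stepOp whole o X with
    | none => none
    | some (Y, H) =>
      match run whole os Y with
      | none => none
      | some (Z, H') => some (Z, H' ++ H)

theorem run_realize : True := by have := @run.eq_def; trivial

/-! ### Positions -/

def InB (ρ : ℤ) (v : Fin 4 → ℤ) : Prop := ∀ i, |v i| ≤ ρ

/-- All vertices of the path are within `ρ` of the point `z` (relative to the start). -/
def Near (ρ : ℤ) : (Fin 4 → ℤ) → List Entry → Prop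
  | z, [] => InB ρ z
  | z, e :: l => InB ρ z ∧ Near ρ (z - th e.1) l

theorem Near_realize : True := by have := @Near.eq_def; trivial

/-- The path stays within `C` of the box spanned by its ends. -/
def Hull (C : ℤ) (l : List Entry) : Prop :=
  ∀ ρ z, InB ρ z → InB ρ (z - thL l) → Near (ρ + C) z l

/-! ### Good loops -/

/-- Jog rule with increasing ranks along walls. -/
def JR (a b : Entry) : Prop :=
  J a.1 b.1 ∧ (wall a.1 = true → wall b.1 = true → a.2.rk < b.2.rk)

instance (a b : Entry) : Decidable (JR a b) := by unfold JR; infer_instance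

/-- Tags of rank at most `r` allowed on a loop handed to a child piece. -/
def KT (r : ℕ) (e : Entry) : Prop := e.2.rk ≤ r ∧ (e.2 = .old e.2.rk ∨ e.2 = .free e.2.rk)

instance (r : ℕ) (e : Entry) : Decidable (KT r e) := by unfold KT; infer_instance

structure PreGood (w : List Entry) : Prop where
  ch : CChain JR w
  tg : ∀ e ∈ w, KT 5 e
  len : w.length ≤ 1000000
  near : ∃ z, Near 1000 z w

structure Good (w : List Entry) : Prop extends PreGood w where
  th : thL w = 0
  al : alL w = 2

/-- The loop seen from the child piece. -/
def topOf (w : List Entry) : List Entry := (w.map fun e => (rv e.1, Tag.top e.2.rk)).reverse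

/-- The closed geodesic of colour `j` as a face with two sides; `σ` is the side. -/
def holeD (j : ZMod 6) (σ : Bool) : Dart := if σ then (0, 0, j) else (1, 1, j)

def hole (j : ZMod 6) (σ : Bool) : List Entry :=
  [(holeD j σ, .hole), (fk 2 (holeD j σ), .hole)]

/-- The two opposite holes of colour `j`. -/
def pair (j : ZMod 6) : List (List Entry) := [hole j true, hole j false]

/-- All tags replaced by `inner`. -/
def inn (l : List Dart) : List Entry := l.map fun d => (d, Tag.inner)

/-- A face whose angles average to a straight angle and whose area form is two. -/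
def Flat (w : List Entry) : Prop := cang w = 2 * w.length ∧ alL w = 2

/-- `k` walls in a straight line. -/
def walls : Dart → ℕ → List Dart
  | _, 0 => []
  | d, k + 1 => d :: walls (fk 2 d) k

theorem walls_realize : True := by have := @walls.eq_def; trivial

/-- Wall number `r` (counted from `0`) of the straight line that leaves the seam `s` by a left
turn. -/
def nthW (s : Dart) (r : ℕ) : Dart := if r % 2 = 0 then fk 1 s else fk 2 (fk 1 s)

/-- The jog path: seams separated by runs of walls of the given lengths (`0` allowed). -/
def unr : Dart → List ℕ → List Dart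
  | _, [] => []
  | s, r :: rs => s :: walls (fk 1 s) r ++ unr (fk 1 (rv (nthW s r))) rs

theorem unr_realize : True := by have := @unr.eq_def; trivial

/-- The seam that follows `unr s rs`. -/
def nxj : Dart → List ℕ → Dart
  | s, [] => s
  | s, r :: rs => nxj (fk 1 (rv (nthW s r))) rs

theorem nxj_realize : True := by have := @nxj.eq_def; trivial

/-- The convex path: seams separated by runs of walls of positive lengths, only left turns. -/
def cvx : Dart → List ℕ → List Dart
  | _, [] => []
  | s, r :: rs => s :: walls (fk 1 s) r ++ cvx (fk 1 (nthW s (r + 1))) rs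

theorem cvx_realize : True := by have := @cvx.eq_def; trivial

/-- The seam that follows `cvx s rs`. -/
def nxc : Dart → List ℕ → Dart
  | s, [] => s
  | s, r :: rs => nxc (fk 1 (nthW s (r + 1))) rs

theorem nxc_realize : True := by have := @nxc.eq_def; trivial

def holes (hs : List (ZMod 6 × Bool)) : List (List Entry) := hs.map fun h => hole h.1 h.2

/-- `u j` pairs of holes of colour `j`. -/
def pairs (u : ZMod 6 → ℕ) : List (List Entry) :=
  ([0, 1, 2, 3, 4, 5] : List (ZMod 6)).flatMap fun j => (List.replicate (u j) (pair j)).flatten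

/-- Normal rotation of a face with two sides. -/
def hcanon (l : List Entry) : List Entry :=
  match l with
  | [] => []
  | e :: t => if e.1.1 = e.1.2.1 then e :: t else t ++ [e]

/-- A jog path `P` from `d₀` to `d₁` with displacement `v`, and its other side `Q`. -/
structure PP (d₀ d₁ : Dart) (v : Fin 4 → ℤ) (P Q : List Entry) : Prop where
  mate : Mate P Q
  chP : P.IsChain JR
  chQ : Q.IsChain JR
  tgP : ∀ e ∈ P, e.2 = .free e.2.rk ∧ e.2.rk ≤ 2
  tgQ : ∀ e ∈ Q, e.2 = .free e.2.rk ∧ e.2.rk ≤ 2
  hd : (darts P).head? = some d₀
  lst : (darts P).getLast? = some d₁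
  th : thL P = v
  hullP : Hull 20 P
  hullQ : Hull 20 Q
  len : ∀ ρ : ℕ, InB ρ v → P.length ≤ 100 * ρ + 2000

/-- Dart of the first stub of `us`, `n` if there is none. -/
def hdD (us : List (Entry × List Entry)) (n : Dart) : Dart :=
  match us with
  | [] => n
  | U :: _ => U.1.1

/-- A chain of units: a stub (a seam followed by an angle three) and a short jog path to the next
stub; `n` is the seam after the last unit. -/
def UCh : List (Entry × List Entry) → Dart → Prop
  | [], _ => True
  | U :: us, n => wall U.1.1 = false ∧ KT 5 U.1 ∧ (∃ t, U.2 = (fk 3 U.1.1, Tag.free 3) :: t) ∧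
      U.2.IsChain JR ∧ (∀ e ∈ U.2, KT 5 e) ∧ U.2.length ≤ 10 ∧
      (∀ e ∈ U.2.getLast?, J e.1 (hdD us n)) ∧ UCh us n

theorem UCh_realize : True := by have := @UCh.eq_def; trivial

def flatU (us : List (Entry × List Entry)) : List Entry := us.flatMap fun U => U.1 :: U.2

/-- Outer side number `k` of the tile on the left of `f`. -/
def out (k : ℕ) (f : Dart) : Dart := rv (lf^[k] f)

/-- The front seam after two tiles of the zigzag strip, and the displacement. -/
def fstep (f : Dart) : Dart := out 4 (out 2 f)

def fdis (f : Dart) : Fin 4 → ℤ := th (out 5 f) + th (out 4 f) + th (out 3 f) + th (out 5 (out 2 f))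

/-- A potential for the displacement of the front. -/
def Phi (f : Dart) : Fin 4 → ℤ :=
  if f.2.2 = 1 then 0 else if (fstep f).2.2 = 1 then -fdis f else -(fdis f + fdis (fstep f))

/-- State of the zigzag construction: the main face is `f :: Lp ++ flatU us ++ Rp`, `z` is the
centre seen from the start of `f`. -/
structure ZS (f : Entry) (Lp : List Entry) (us : List (Entry × List Entry)) (Rp : List Entry)
    (z : Fin 4 → ℤ) : Prop where
  seam : wall f.1 = false
  hdL : ∃ t, Lp = (fk 3 f.1, Tag.free 5) :: t
  chL : Lp.IsChain JR
  tgL : ∀ e ∈ Lp, KT 5 e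
  hullL : Hull 40 Lp
  lenL : Lp.length ≤ 200000
  hdR : ∃ r t, Rp = r :: t ∧ wall r.1 = false ∧ (∀ e ∈ Lp.getLast?, J e.1 (hdD us r.1)) ∧ UCh us r.1
  chR : Rp.IsChain JR
  tgR : ∀ e ∈ Rp, KT 5 e
  lstR : ∀ e ∈ Rp.getLast?, wall e.1 = true ∧ e.2.rk ≤ 4 ∧ f.1 = fk 3 e.1
  hullR : Hull 40 Rp
  lenR : Rp.length ≤ 200000
  near : Near 1020 (z - th f.1 - thL Lp) (flatU us)
  cen : InB 20 (z + Phi f.1)
  th : thL (f :: Lp ++ flatU us ++ Rp) = 0

/-- State of the petal construction: the main face is `f :: Q`. -/
structure PS (f : Entry) (Q : List Entry) : Prop where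
  seam : wall f.1 = false
  hd : ∃ t, Q = (fk 3 f.1, Tag.free 5) :: t
  ch : Q.IsChain JR
  tg : ∀ e ∈ Q, KT 5 e
  lst : ∀ e ∈ Q.getLast?, wall e.1 = true ∧ e.2.rk ≤ 4 ∧ f.1 = fk 3 e.1
  len : Q.length ≤ 400000
  near : ∃ z, Near 700 z Q
  th : thL (f :: Q) = 0

/-- State of the filling of a jog loop: three long convex arcs and the remaining runs. -/
structure TS (s : Dart) (a₁ a₂ a₃ : ℕ) (rs : List ℕ) : Prop where
  seam : wall s = false
  close : nxj (nxc s [a₁, a₂, a₃]) rs = s
  even : Even rs.length
  i₁ : a₂ + rs.sum + 12 * rs.length + 20 ≤ a₁ + a₃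
  i₂ : a₃ + 20 ≤ a₁ + a₂
  i₃ : a₁ + 20 ≤ a₂ + a₃

def tsFace (s : Dart) (a₁ a₂ a₃ : ℕ) (rs : List ℕ) : List Entry :=
  inn (cvx s [a₁, a₂, a₃] ++ unr (nxc s [a₁, a₂, a₃]) rs)

/-- Role of a cuff end. -/
inductive Kind
  | up
  | down
  | hole (j : ZMod 6) (σ : Bool)
  deriving DecidableEq

def Kind.flip : Kind → Kind
  | .up => .down
  | .down => .up
  | .hole j σ => .hole j (!σ)

/-- The admissible lists of roles at one piece. -/
def OKs (c₁ c₂ : ℕ) (ks : List Kind) : Prop :=
  ks.count .up ≤ 1 ∧ (∀ j, ks.count (.hole j true) = ks.count (.hole j false)) ∧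
  ((∑ j, ks.count (.hole j true)) + c₁ ≤ ks.count .down ∨ (∀ j, c₂ ≤ ks.count (.hole j true)) ∨
    (ks.count .up = 0 ∧ ks.count .down = 0 ∧ ks.count (.hole 0 true) = 1 ∧
      1 ≤ ks.count (.hole 2 true) ∧ ∀ j, j ≠ 0 → j ≠ 2 → ks.count (.hole j true) = 0))

/-- The face `f` fits the role `k`; `w` is the loop handed down by the parent. -/
def Fit (w : List Entry) : Kind → List Entry → Prop
  | .up, f => f = topOf w
  | .down, f => Good f
  | .hole j σ, f => f = hole j σ

/-- Planar angled maps for all pieces whose faces match along the cuffs. -/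
structure Glue (G : GS) (W : G.C → List Entry) (l : ℕ) : Prop where
  real : ∀ x, Real ((G.ord x).map W)
  mt : ∀ c, Match (W c) (W (G.bar c))
  fw : ∀ c, CChain Fw (darts (W c))
  len : ∀ c, (W c).length ≤ l
  rk : ∀ c, ∀ e ∈ W c, e.2.rk ≤ l

open Classical in
/-- All pieces together: sides, the gluing involution `π` on the designated sides `des`. -/
structure TD (G : GS) (B : ℕ) where
  S : Type
  fin : Fintype S
  nx : Equiv.Perm S
  m : Equiv.Perm S
  π : Equiv.Perm S
  lab : S → Dart
  des : S → Prop
  px : S → G.X
  cf : ∀ s, des s → G.C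
  mm : ∀ s, m (m s) = s
  ππ : ∀ s, π (π s) = s
  lab_m : ∀ s, lab (m s) = rv (lab s)
  des_nx : ∀ s, des (nx s) ↔ des s
  des_π : ∀ s, des (π s) ↔ des s
  lab_π : ∀ s, des s → lab (π s) = rv (lab s)
  π_nx : ∀ s, des s → nx (π (nx s)) = π s
  tile : ∀ s, ¬ des s → lab (nx s) = lf (lab s) ∧ nx^[6] s = s
  pos : ∀ s, ang (lab s) (lab (nx s)) ≠ 0
  fw : ∀ s, des s → ang (lab s) (lab (nx s)) ≠ 4
  node : ∀ s, Walk (fun s => m (nx s)) (fun s => ang (lab s) (lab (nx s))) s s 4
  chain : ∀ s, ∃ k ≤ B, ¬ des ((fun s => m (π s))^[k] s)
  px_nx : ∀ s, px (nx s) = px s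
  px_m : ∀ s, px (m s) = px s
  px_conn : ∀ s t, px s = px t → Relation.ReflTransGen (fun s t => t = nx s ∨ t = m s) s t
  px_surj : ∀ x, ∃ s, px s = x
  cf_iff : ∀ s t (h : des s) (h' : des t), cf s h = cf t h' ↔ ∃ k : ℕ, nx^[k] s = t
  cf_surj : ∀ c, ∃ s, ∃ h : des s, cf s h = c
  cf_π : ∀ s (h : des s), cf (π s) ((des_π s).2 h) = G.bar (cf s h)
  own_cf : ∀ s (h : des s), G.own (cf s h) = px s
  euler : ∀ x, 4 * (Finset.univ.filter fun s => px s = x).card + 24 +
      2 * (Finset.univ.filter fun s => px s = x ∧ des s).card =
    3 * (∑ s ∈ Finset.univ.filter fun s => px s = x, ang (lab s) (lab (nx s))) +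
      12 * (G.ord x).length
  size : ∀ x, (Finset.univ.filter fun s => px s = x).card ≤ B

namespace TD
variable {G : GS} {B : ℕ} (T : TD G B)

instance : Fintype T.S := T.fin

/-- Darts of the dual map: sides, and one rung for each designated side. -/
abbrev D : Type := T.S ⊕ {s : T.S // T.des s}

def αf : T.D → T.D
  | .inl s => .inl (T.m s)
  | .inr s => .inr ⟨T.π (T.nx s.1), (T.des_π _).2 ((T.des_nx _).2 s.2)⟩

theorem αf_αf (d : T.D) : T.αf (T.αf d) = d := by
  rcases d with s | ⟨s, h⟩
  · simp [αf, T.mm]
  · simp [αf, T.π_nx s h, T.ππ]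

open Classical in
noncomputable def φf : T.D → T.D
  | .inl s => if h : T.des (T.m s) then .inr ⟨T.m s, h⟩ else .inl (T.nx (T.m s))
  | .inr s => .inl (T.nx s.1)

theorem φf_inj : Function.Injective T.φf := by
  rintro (s | ⟨s, h⟩) (t | ⟨t, h'⟩) e
  · simp only [φf] at e
    split_ifs at e with h1 h2 h2
    · simpa using e
    · simpa using e
  · simp only [φf] at e
    split_ifs at e with h1
    have : T.m s = t := by simpa using e
    exact absurd (this ▸ h') h1
  · simp only [φf] at e
    split_ifs at e with h1
    have : s = T.m t := by simpa using e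
    exact absurd (this ▸ h) h1
  · simpa [φf] using e

theorem rv_ne (d : Dart) : rv d ≠ d := by revert d; decide

theorem ang_self_rv (d : Dart) : ang d (rv d) = 4 := by revert d; decide

open Classical in
/-- The dual map: vertices are tiles and squares, faces are the nodes of the pieces. -/
noncomputable def map : CMap where
  D := T.D
  fin := inferInstance
  α := Function.Involutive.toPerm T.αf T.αf_αf
  φ := Equiv.ofBijective T.φf (Finite.injective_iff_bijective.1 T.φf_inj)
  αα := T.αf_αf
  αne := by
    rintro (s | ⟨s, h⟩) e
    · have e' : T.m s = s := by simpa [αf] using e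
      have := T.lab_m s
      rw [e'] at this
      exact rv_ne _ this.symm
    · have e' : T.π (T.nx s) = s := by simpa [αf] using e
      have h1 := T.lab_π (T.nx s) ((T.des_nx s).2 h)
      rw [e'] at h1
      have h2 := T.fw s h
      have h3 : T.lab (T.nx s) = rv (T.lab s) := by
        rw [h1]; generalize T.lab (T.nx s) = d; revert d; decide
      exact h2 (by rw [h3]; exact ang_self_rv _)

/-- The rungs. -/
def Rung (d : T.map.D) : Prop := Sum.isRight (α := T.S) d = true

/-- The sides. -/
def Side (d : T.map.D) : Prop := Sum.isLeft (α := T.S) d = true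

open Classical in
/-- Number of squares between the side `s` and the tile on its left. -/
noncomputable def dep (s : T.S) : ℕ :=
  Nat.find (p := fun k => ¬ T.des ((fun s => T.m (T.π s))^[k] s))
    ((T.chain s).imp fun _ h => h.2)

/-- The side of a tile that `s` stands for. -/
noncomputable def dn (s : T.S) : T.S := (fun s => T.m (T.π s))^[T.dep s] s

/-- The path in the dual map from the face of `s` to the tile on its left. -/
noncomputable def chi (s : T.S) : List T.map.D :=
  (List.range (T.dep s)).map fun i => Sum.inl (T.π ((fun s => T.m (T.π s))^[i] s))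

/-- The side of the neighbouring tile. -/
noncomputable def far (s : T.S) : T.S := T.dn (T.m s)

/-- The path in the dual map from the face of `s` to the tile on its right. -/
noncomputable def kap (s : T.S) : List T.map.D := Sum.inl s :: T.chi (T.m s)

/-- Angle of the corner before a dart of the dual map. -/
def wt : T.map.D → ℕ
  | .inl s => ang (T.lab (T.nx.symm s)) (T.lab s)
  | .inr _ => 0

end TD

end Pool.Agent.MC
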