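import Pool.Agent.P.MP_2677b3_gt.BuCut

namespace Pool.Agent.MC

theorem hcanon_rotated (l : List Entry) : l ~r hcanon l := by
  cases l with
  | nil => exact List.IsRotated.refl _
  | cons e t =>
    simp only [hcanon]
    split_ifs
    · exact List.IsRotated.refl _
    · exact ⟨1, by simp⟩

theorem buexec_fw : ∀ P : List Entry, fwB P = true → (darts P).IsChain Fw
  | [], _ => List.IsChain.nil
  | [_], _ => List.IsChain.singleton _
  | a :: b :: l, h => by
    rw [fwB, Bool.and_eq_true, decide_eq_true_eq] at h
    exact List.IsChain.cons_cons h.1 (buexec_fw (b :: l) h.2)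

theorem buexec_ctx {A Z M M' : List Entry} {a b : Entry} {H : List (List Entry)}
    (h : Rw (a :: M ++ [b]) (a :: M' ++ [b]) H) :
    Rw (A ++ a :: (M ++ b :: Z)) (A ++ a :: M' ++ b :: Z) H := by
  have h1 := h.ctx A Z
  simp only [List.append_assoc, List.cons_append, List.nil_append] at h1 ⊢
  exact h1

theorem buexec_cut {w : Bool} {i n : ℕ} {ks : List ℕ} {tP tQ : List Tag} {ab : Bool}
    {X Y : List Entry} {H : List (List Entry)}
    (h : stepOp w (.cut i n ks tP tQ ab) X = some (Y, H)) : Rw X Y H := by
  simp only [stepOp] at h
  split at h
  · cases h
  rename_i a Y' hX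
  split at h
  · cases h
  rename_i b Z hY
  have eX : X = X.take i ++ a :: (Y'.take n ++ b :: Z) := by
    rw [← hY, List.take_append_drop, ← hX, List.take_append_drop]
  generalize Y'.take n = M at h eX
  generalize X.take i = A at h eX
  generalize (pathD a.1 ks).zip tP = P at h
  generalize (((pathD a.1 ks).map rv).zip tQ).reverse = Q at h
  subst eX
  split at h
  · rename_i p P' q Q'
    by_cases h1 : (mateB (p :: P') (q :: Q').reverse && fwB (p :: P')) = true
    · rw [if_pos h1] at h
      rw [Bool.and_eq_true, mateB_iff] at h1
      have hm := h1.1
      have hf := buexec_fw _ h1.2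
      split at h
      · rename_i c M' c' hc'
        by_cases h2 : Spl a.1 p.1 c.1 ∧ Spl c'.1 q.1 b.1
        · rw [if_pos h2] at h
          cases ab with
          | true =>
            rw [if_pos rfl] at h
            by_cases h3 : isTile (c :: M' ++ q :: Q') = true
            · rw [if_pos h3] at h
              cases h
              exact buexec_ctx (rw_tile hm hf rfl rfl rfl hc' h2.1 h2.2 h3)
            · rw [if_neg h3] at h
              cases h
          | false =>
            rw [if_neg Bool.false_ne_true] at h
            cases h
            exact buexec_ctx (rw_cut hm hf rfl rfl rfl hc' h2.1 h2.2)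
        · rw [if_neg h2] at h
          cases h
      · rename_i M _ _ hM
        have hM' : M = [] := by
          cases M with
          | nil => rfl
          | cons c M' => exact (hM c M' _ rfl (List.getLast?_eq_some_getLast (by simp))).elim
        subst hM'
        by_cases h2 : Spl a.1 p.1 b.1
        · rw [if_pos h2] at h
          cases h
          have h3 := (rw_spur hm hf rfl h2).ctx A Z
          simp only [List.append_assoc, List.cons_append, List.nil_append] at h3 ⊢
          exact h3
        · rw [if_neg h2] at h
          cases h
    · rw [if_neg h1] at h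
      cases h
  · cases h

theorem buexec_rw : ∀ (ops : List Op) {X Y : List Entry} {H : List (List Entry)},
    run false ops X = some (Y, H) → Rw X Y H
  | [], X, Y, H, h => by
    rw [run] at h
    cases h
    exact Rw.refl _
  | o :: os, X, Y, H, h => by
    rw [run] at h
    split at h
    · cases h
    rename_i Y1 H1 h1
    split at h
    · cases h
    rename_i Y2 H2 h2
    cases h
    refine Rw.trans ?_ (buexec_rw os h2)
    cases o with
    | cut i n ks tP tQ ab => exact buexec_cut h1
    | rot k => simp [stepOp] at h1

theorem buexec_rwC : ∀ (ops : List Op) {X Y : List Entry} {H : List (List Entry)},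
    run true ops X = some (Y, H) → RwC X (Y :: H)
  | [], X, Y, H, h => by
    rw [run] at h
    cases h
    exact fun _ h => h
  | o :: os, X, Y, H, h => by
    rw [run] at h
    split at h
    · cases h
    rename_i Y1 H1 h1
    split at h
    · cases h
    rename_i Y2 H2 h2
    cases h
    have h3 : RwC X (Y1 :: H1) := by
      cases o with
      | cut i n ks tP tQ ab => exact (buexec_cut h1).toC
      | rot k =>
        simp only [stepOp, if_true] at h1
        cases h1
        exact rwC_rot ⟨k, rfl⟩
    exact h3.trans (buexec_rwC os h2)

theorem buexec_canon (H : List (List Entry)) : List.Forall₂ List.IsRotated H (H.map hcanon) := by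
  induction H with
  | nil => exact List.Forall₂.nil
  | cons l H ih => exact List.Forall₂.cons (hcanon_rotated l) ih

theorem run_rw {ops : List Op} {X Y : List Entry} {H : List (List Entry)}
    (h : run false ops X = some (Y, H)) : Rw X Y (H.map hcanon) := by
  exact (buexec_rw ops h).rotated (buexec_canon H)

theorem run_rwC {ops : List Op} {X Y : List Entry} {H : List (List Entry)}
    (h : run true ops X = some (Y, H)) : RwC X (Y :: H.map hcanon) := by
  exact (buexec_rwC ops h).rotated (List.IsRotated.refl _)
    (List.Forall₂.cons (List.IsRotated.refl _) (buexec_canon H))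

theorem run_fill {ops : List Op} {X Y : List Entry} {H : List (List Entry)}
    (h : run true ops X = some (Y, H)) (hY : isTile Y = true) : RwC X (H.map hcanon) := by
  exact (run_rwC h).trans (rwC_tile hY)

end Pool.Agent.MC
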