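import Pool.Agent.P.MP_2677b3_gt.BuApi

namespace Pool.Agent.MC

theorem buprima_cchain_ofFn {α : Type} {R : α → α → Prop} {k : ℕ} (f : Fin (k + 1) → α) :
    CChain R (List.ofFn f) ↔ ∀ i, R (f i) (f (i + 1)) := by
  have key : ∀ (i : ℕ) (hi : i < k + 1),
      (⟨(i + 1) % (k + 1), Nat.mod_lt _ (Nat.succ_pos k)⟩ : Fin (k + 1)) = ⟨i, hi⟩ + 1 := by
    intro i hi
    apply Fin.ext
    rw [Fin.val_add]
    simp
  rw [cchain_iff_getElem]
  constructor
  · rintro ⟨h, H⟩ i
    have h1 := H i.1 (by simpa using i.2)
    simp only [List.getElem_ofFn, List.length_ofFn] at h1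
    rw [key i.1 i.2] at h1
    exact h1
  · intro H
    refine ⟨by simp, fun i hi => ?_⟩
    have hi' : i < k + 1 := by simpa using hi
    simp only [List.getElem_ofFn, List.length_ofFn]
    rw [key i hi']
    exact H ⟨i, hi'⟩

/-- The next side in the doubled closed path. -/
def buprimaNx {k : ℕ} (s : Fin (k + 1) × Bool) : Fin (k + 1) × Bool :=
  if s.2 = true then (s.1 + 1, true) else (s.1 - 1, false)

/-- The entry carried by a side of the doubled closed path. -/
def buprimaEn {k : ℕ} (p q : Fin (k + 1) → Entry) (s : Fin (k + 1) × Bool) : Entry :=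
  if s.2 = true then p s.1 else q s.1

theorem buprima_nx_t {k : ℕ} (i : Fin (k + 1)) : buprimaNx (i, true) = (i + 1, true) := rfl
theorem buprima_nx_f {k : ℕ} (i : Fin (k + 1)) : buprimaNx (i, false) = (i - 1, false) := rfl
theorem buprima_en_t {k : ℕ} (p q : Fin (k + 1) → Entry) (i : Fin (k + 1)) :
    buprimaEn p q (i, true) = p i := rfl
theorem buprima_en_f {k : ℕ} (p q : Fin (k + 1) → Entry) (i : Fin (k + 1)) :
    buprimaEn p q (i, false) = q i := rfl

theorem buprima_conn {k : ℕ} (s t : Fin (k + 1) × Bool) :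
    Relation.ReflTransGen
      (fun s t : Fin (k + 1) × Bool => t = buprimaNx s ∨ t = (s.1, !s.2)) s t := by
  have h1 : ∀ (i : Fin (k + 1)) (n : ℕ), Relation.ReflTransGen
      (fun s t : Fin (k + 1) × Bool => t = buprimaNx s ∨ t = (s.1, !s.2)) (i, true)
      (i + n • (1 : Fin (k + 1)), true) := by
    intro i n
    induction n with
    | zero => simpa using Relation.ReflTransGen.refl
    | succ n ih =>
      refine ih.tail (Or.inl ?_)
      rw [buprima_nx_t, succ_nsmul, add_assoc]
  have h2 : ∀ i j : Fin (k + 1), Relation.ReflTransGen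
      (fun s t : Fin (k + 1) × Bool => t = buprimaNx s ∨ t = (s.1, !s.2)) (i, true)
      (j, true) := by
    intro i j
    have h3 : ∀ c : Fin (k + 1), c.1 • (1 : Fin (k + 1)) = c := by
      intro c
      have h4 : ∀ n : ℕ, (n • (1 : Fin (k + 1))).1 = n % (k + 1) := by
        intro n
        induction n with
        | zero => simp
        | succ n ih => rw [succ_nsmul, Fin.val_add, ih]; simp
      apply Fin.ext
      rw [h4, Nat.mod_eq_of_lt c.2]
    have h5 := h1 i (j - i).1
    rw [h3, add_sub_cancel] at h5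
    exact h5
  obtain ⟨i, b⟩ := s
  obtain ⟨j, c⟩ := t
  have ha : Relation.ReflTransGen
      (fun s t : Fin (k + 1) × Bool => t = buprimaNx s ∨ t = (s.1, !s.2)) (i, b) (i, true) := by
    cases b
    · exact Relation.ReflTransGen.single (Or.inr rfl)
    · exact Relation.ReflTransGen.refl
  have hb : Relation.ReflTransGen
      (fun s t : Fin (k + 1) × Bool => t = buprimaNx s ∨ t = (s.1, !s.2)) (j, true) (j, c) := by
    cases c
    · exact Relation.ReflTransGen.single (Or.inr rfl)
    · exact Relation.ReflTransGen.refl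
  exact (ha.trans (h2 i j)).trans hb

theorem buprima_real {k : ℕ} (p q : Fin (k + 1) → Entry)
    (hq : ∀ i, (q i).1 = rv (p i).1 ∧ compB (p i).2 (q i).2 = true)
    (hc : ∀ i, Fw (p i).1 (p (i + 1)).1) : Real [List.ofFn p, (List.ofFn q).reverse] := by
  have hsum : ∀ i, ang (p i).1 (p (i + 1)).1 + ang (q (i + 1)).1 (q i).1 = 4 := by
    intro i
    rw [(hq _).1, (hq _).1]
    exact ang_mirror _ _ (hc i)
  have hmem : ∀ s : Fin (k + 1) × Bool, s ∈ ([List.ofFn (fun i : Fin (k + 1) => (i, true)),
      (List.ofFn (fun i : Fin (k + 1) => (i, false))).reverse] :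
      List (List (Fin (k + 1) × Bool))).flatten := by
    rintro ⟨i, b⟩
    simp only [List.flatten_cons, List.flatten_nil, List.append_nil, List.mem_append,
      List.mem_reverse, List.mem_ofFn]
    cases b
    · exact Or.inr ⟨i, rfl⟩
    · exact Or.inl ⟨i, rfl⟩
  refine ⟨{
    S := Fin (k + 1) × Bool
    fin := inferInstance
    ne := inferInstance
    nx := buprimaNx
    m := fun s => (s.1, !s.2)
    lab := fun s => (buprimaEn p q s).1
    tag := fun s => (buprimaEn p q s).2
    fs := [List.ofFn (fun i : Fin (k + 1) => (i, true)),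
      (List.ofFn (fun i : Fin (k + 1) => (i, false))).reverse]
    nx_inj := ?_
    mm := ?_
    lab_m := ?_
    hF := ?_
    nd := ?_
    cyc := ?_
    tile := ?_
    pos := ?_
    node := ?_
    comp := ?_
    conn := buprima_conn
    euler := ?_ }⟩
  · rintro ⟨i, b⟩ ⟨j, c⟩ h
    cases b <;> cases c <;>
      simp only [buprima_nx_t, buprima_nx_f, Prod.mk.injEq, add_left_inj, sub_left_inj,
        Bool.false_eq_true, Bool.true_eq_false, and_false, and_true] at h ⊢ <;> exact h
  · rintro ⟨i, b⟩
    simp
  · rintro ⟨i, b⟩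
    cases b
    · show (p i).1 = rv (q i).1
      rw [(hq i).1, rv_rv]
    · exact (hq i).1
  · simp only [List.map_cons, List.map_nil, List.map_reverse, List.map_ofFn]
    rfl
  · simp only [List.flatten_cons, List.flatten_nil, List.append_nil]
    refine List.Nodup.append ?_ ?_ ?_
    · exact List.nodup_ofFn_ofInjective (fun a b h => (Prod.mk.inj h).1)
    · exact List.nodup_reverse.2 (List.nodup_ofFn_ofInjective (fun a b h => (Prod.mk.inj h).1))
    · intro s h1 h2
      rw [List.mem_reverse] at h2
      obtain ⟨i, rfl⟩ := List.mem_ofFn.1 h1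
      obtain ⟨j, hj⟩ := List.mem_ofFn.1 h2
      exact absurd (Prod.mk.inj hj).2 (by decide)
  · intro l hl
    simp only [List.mem_cons, List.not_mem_nil, or_false] at hl
    rcases hl with rfl | rfl
    · exact (buprima_cchain_ofFn _).2 fun i => rfl
    · rw [cchain_reverse]
      refine (buprima_cchain_ofFn _).2 fun i => ?_
      show buprimaNx (i + 1, false) = (i, false)
      rw [buprima_nx_f, add_sub_cancel_right]
  · intro s hs
    exact absurd (hmem s) hs
  · rintro ⟨i, b⟩
    cases b
    · show ang (q i).1 (q (i - 1)).1 ≠ 0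
      have h1 := Fw_mirror _ _ (hc (i - 1))
      rw [sub_add_cancel] at h1
      rw [(hq _).1, (hq _).1]
      exact h1.1
    · exact (hc i).1
  · rintro ⟨i, b⟩
    cases b
    · have h1 := hsum (i - 1)
      rw [sub_add_cancel] at h1
      have h2 : (4 : ℕ) = ang (q i).1 (q (i - 1)).1 + (ang (p (i - 1)).1 (p (i - 1 + 1)).1 + 0) := by
        rw [sub_add_cancel]; omega
      rw [h2]
      refine Walk.step (s := (i, false)) (Walk.step (s := (i - 1, true)) ?_)
      show Walk _ _ (i - 1 + 1, false) _ _
      rw [sub_add_cancel]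
      exact Walk.refl _
    · have h1 := hsum i
      have h2 : (4 : ℕ) =
          ang (p i).1 (p (i + 1)).1 + (ang (q (i + 1)).1 (q (i + 1 - 1)).1 + 0) := by
        rw [add_sub_cancel_right]; omega
      rw [h2]
      refine Walk.step (s := (i, true)) (Walk.step (s := (i + 1, false)) ?_)
      show Walk _ _ (i + 1 - 1, true) _ _
      rw [add_sub_cancel_right]
      exact Walk.refl _
  · rintro ⟨i, b⟩ - -
    cases b
    · show compB (q i).2 (p i).2 = true
      rw [compB_symm]
      exact (hq i).2
    · exact (hq i).2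
  · have h1 : ∑ s : Fin (k + 1) × Bool, ang (buprimaEn p q s).1 (buprimaEn p q (buprimaNx s)).1 =
        4 * (k + 1) := by
      rw [Fintype.sum_prod_type_right, Fintype.sum_bool]
      simp only [buprima_nx_t, buprima_nx_f, buprima_en_t, buprima_en_f]
      rw [← Equiv.sum_comp (Equiv.addRight (1 : Fin (k + 1)))
        (fun i => ang (q i).1 (q (i - 1)).1), ← Finset.sum_add_distrib]
      simp only [Equiv.coe_addRight, add_sub_cancel_right, hsum]
      simp [mul_comm]
    rw [h1]
    simp only [Fintype.card_prod, Fintype.card_fin, Fintype.card_bool, List.flatten_cons,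
      List.flatten_nil, List.append_nil, List.length_append, List.length_reverse,
      List.length_ofFn, List.length_cons, List.length_nil]
    omega

theorem real_init {P Q : List Entry} (h : Mate P Q) (hc : CChain Fw (darts P)) : Real [P, Q] := by
  have hP : P ≠ [] := by
    rintro rfl
    exact hc
  obtain ⟨k, hk⟩ : ∃ k, P.length = k + 1 :=
    Nat.exists_eq_succ_of_ne_zero (by simpa using hP)
  have hl : Q.reverse.length = k + 1 := by
    rw [← hk]; exact (List.Forall₂.length_eq h).symm
  have e1 : ∀ (L : List Entry) (hL : L.length = k + 1),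
      List.ofFn (fun i : Fin (k + 1) => L[i.1]'(lt_of_lt_of_eq i.2 hL.symm)) = L := by
    intro L hL
    apply List.ext_getElem
    · simp [hL]
    · intro i h1 h2
      simp only [List.getElem_ofFn]
  have h1 := buprima_real (fun i : Fin (k + 1) => P[i.1]'(lt_of_lt_of_eq i.2 hk.symm))
    (fun i : Fin (k + 1) => Q.reverse[i.1]'(lt_of_lt_of_eq i.2 hl.symm))
    (fun i => (List.forall₂_iff_get.1 h).2 i.1 (lt_of_lt_of_eq i.2 hk.symm)
      (lt_of_lt_of_eq i.2 hl.symm)) (by
      rw [← e1 P hk, darts, List.map_ofFn, buprima_cchain_ofFn] at hc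
      exact hc)
  rw [e1 P hk, e1 Q.reverse hl, List.reverse_reverse] at h1
  exact h1

end Pool.Agent.MC
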