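import Pool.Agent.P.MP_2677b3_gt.BuScr
import Pool.Agent.P.MP_2677b3_gt.BuPrimA

namespace Pool.Agent.MC

/-- the holes `hs` can be replaced by the holes `hs'` -/
def buextR (hs hs' : List (ZMod 6 × Bool)) : Prop :=
  ∀ F, Real (holes hs ++ F) → Real (holes hs' ++ F)

theorem buextR.trans {a b c : List (ZMod 6 × Bool)} (h : buextR a b) (h' : buextR b c) :
    buextR a c := fun F hF => h' F (h F hF)

theorem buext_perm {a b : List (ZMod 6 × Bool)} (h : a.Perm b) : buextR a b :=
  fun F hF => hF.perm ((h.map _).append_right F)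

theorem buext_pants {hs : List (ZMod 6 × Bool)} {j : ZMod 6} {σ : Bool} (h : (j, σ) ∈ hs) :
    buextR hs ((j + 2, !σ) :: (j + 4, !σ) :: hs.erase (j, σ)) :=
  (buext_perm (List.perm_cons_erase h)).trans fun _ hF => ext_pants j σ _ (Real.toInner hF)

theorem buext_add {hs : List (ZMod 6 × Bool)} {x y : ZMod 6} {σ : Bool} (h : (x, σ) ∈ hs)
    (hy : y = x + 2 ∨ y = x + 3 ∨ y = x + 4) : buextR hs ((y, true) :: (y, false) :: hs) := by
  have h1 : buextR ((x, σ) :: hs.erase (x, σ)) ((x, σ) :: (y, true) :: (y, false) :: hs.erase (x, σ)) :=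
    fun _ hF => ext_add x y σ hy _ (Real.toInner hF)
  refine ((buext_perm (List.perm_cons_erase h)).trans h1).trans (buext_perm ?_)
  exact ((List.Perm.swap _ _ _).trans ((List.Perm.swap _ _ _).cons _)).trans
    (((List.perm_cons_erase h).symm.cons _).cons _)

/-- the list of the holes of `pairs m` -/
def buextL (m : ZMod 6 → ℕ) : List (ZMod 6 × Bool) :=
  ([0, 1, 2, 3, 4, 5] : List (ZMod 6)).flatMap fun j =>
    (List.replicate (m j) [(j, true), (j, false)]).flatten

theorem buext_holes (m : ZMod 6 → ℕ) : holes (buextL m) = pairs m := by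
  simp only [holes, buextL, pairs, List.map_flatMap, List.map_flatten, List.map_replicate]
  rfl

theorem buext_count_rep (n : ℕ) (j i : ZMod 6) (σ : Bool) :
    (List.replicate n [(j, true), (j, false)]).flatten.count (i, σ) = if j = i then n else 0 := by
  induction n with
  | zero => simp
  | succ n ih =>
    rw [List.replicate_succ, List.flatten_cons, List.count_append, ih]
    by_cases h : j = i
    · subst h; cases σ <;> simp <;> omega
    · cases σ <;> simp [h]

theorem buext_count (m : ZMod 6 → ℕ) (i : ZMod 6) (σ : Bool) : (buextL m).count (i, σ) = m i := by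
  simp only [buextL, List.flatMap_cons, List.flatMap_nil, List.count_append, buext_count_rep,
    List.count_nil]
  have : ∀ i : ZMod 6, i = 0 ∨ i = 1 ∨ i = 2 ∨ i = 3 ∨ i = 4 ∨ i = 5 := by decide
  rcases this i with rfl | rfl | rfl | rfl | rfl | rfl <;>
    simp (decide := true)

theorem buext_addF {m : ZMod 6 → ℕ} {x y : ZMod 6} (h : 1 ≤ m x)
    (hy : y = x + 2 ∨ y = x + 3 ∨ y = x + 4) :
    buextR (buextL m) (buextL (m + Pi.single y 1)) := by
  have h1 : (x, true) ∈ buextL m := List.count_pos_iff.1 (by rw [buext_count]; omega)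
  refine (buext_add h1 hy).trans (buext_perm (List.perm_iff_count.2 fun ⟨i, σ⟩ => ?_))
  rw [List.count_cons, List.count_cons, buext_count, buext_count, Pi.add_apply, Pi.single_apply]
  by_cases e : i = y
  · subst e; cases σ <;> simp
  · have e' : ¬ y = i := fun h => e h.symm
    cases σ <;> simp [e, e']

theorem buext_grow (n : ℕ) : ∀ m u : ZMod 6 → ℕ, (∀ j, m j ≤ u j) →
    (∀ y, m y < u y → ∃ x, 1 ≤ m x ∧ (y = x + 2 ∨ y = x + 3 ∨ y = x + 4)) →
    ∑ j, u j = ∑ j, m j + n → buextR (buextL m) (buextL u) := by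
  induction n with
  | zero =>
    intro m u h _ hs
    have : m = u := funext fun j =>
      (Finset.sum_eq_sum_iff_of_le fun j _ => h j).1 (by omega) j (Finset.mem_univ j)
    exact this ▸ fun _ hF => hF
  | succ n ih =>
    intro m u h hx hs
    obtain ⟨y, -, hy⟩ := Finset.exists_lt_of_sum_lt (s := Finset.univ) (f := m) (g := u) (by omega)
    obtain ⟨x, h1, h2⟩ := hx y hy
    refine (buext_addF h1 h2).trans (ih _ u (fun j => ?_) (fun z hz => ?_) ?_)
    · rw [Pi.add_apply, Pi.single_apply]
      split_ifs with e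
      · subst e; omega
      · exact h j
    · obtain ⟨x', h3, h4⟩ := hx z (lt_of_le_of_lt (Nat.le_add_right _ _) hz)
      exact ⟨x', h3.trans (Nat.le_add_right _ _), h4⟩
    · simp only [Pi.add_apply, Finset.sum_add_distrib, Finset.sum_pi_single', Finset.mem_univ,
        if_true]
      omega

theorem buext_grow' {m u : ZMod 6 → ℕ} (h : ∀ j, m j ≤ u j)
    (hx : ∀ y, m y < u y → ∃ x, 1 ≤ m x ∧ (y = x + 2 ∨ y = x + 3 ∨ y = x + 4)) :
    buextR (buextL m) (buextL u) :=
  buext_grow (∑ j, u j - ∑ j, m j) m u h hx (by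
    have := Finset.sum_le_sum (s := Finset.univ) fun j _ => h j
    omega)

/-- signed count -/
def buextD (hs : List (ZMod 6 × Bool)) (j : ZMod 6) : ℤ :=
  (hs.count (j, true) : ℤ) - hs.count (j, false)

theorem buextD_cons (h : ZMod 6 × Bool) (hs : List (ZMod 6 × Bool)) (j : ZMod 6) :
    buextD (h :: hs) j = buextD [h] j + buextD hs j := by
  simp only [buextD, List.count_cons, List.count_nil]
  push_cast
  ring

theorem buextD_perm {a b : List (ZMod 6 × Bool)} (h : a.Perm b) (j : ZMod 6) :
    buextD a j = buextD b j := by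
  simp only [buextD, h.count_eq]

theorem buext_th1 : ∀ h : ZMod 6 × Bool, thL (hole h.1 h.2) 0 = buextD [h] 0 - buextD [h] 4 ∧
    thL (hole h.1 h.2) 1 = buextD [h] 2 - buextD [h] 4 ∧
    thL (hole h.1 h.2) 2 = buextD [h] 1 - buextD [h] 5 ∧
    thL (hole h.1 h.2) 3 = buextD [h] 3 - buextD [h] 5 := by
  decide +kernel

theorem buext_th (hs : List (ZMod 6 × Bool)) :
    ((holes hs).map thL).sum 0 = buextD hs 0 - buextD hs 4 ∧
    ((holes hs).map thL).sum 1 = buextD hs 2 - buextD hs 4 ∧
    ((holes hs).map thL).sum 2 = buextD hs 1 - buextD hs 5 ∧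
    ((holes hs).map thL).sum 3 = buextD hs 3 - buextD hs 5 := by
  induction hs with
  | nil => simp [holes, buextD]
  | cons h hs ih =>
    have e : ((holes (h :: hs)).map thL).sum = thL (hole h.1 h.2) + ((holes hs).map thL).sum := by
      simp [holes]
    obtain ⟨a0, a1, a2, a3⟩ := buext_th1 h
    obtain ⟨b0, b1, b2, b3⟩ := ih
    simp only [e, Pi.add_apply, buextD_cons h hs]
    omega

theorem buext_move {hs : List (ZMod 6 × Bool)} {j : ZMod 6} {σ : Bool} (h : (j, σ) ∈ hs) :
    ∃ hs', buextR hs hs' ∧ hs'.length = hs.length + 1 ∧ ∀ i, buextD hs' i = buextD hs i +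
      (buextD [(j + 2, !σ)] i + buextD [(j + 4, !σ)] i - buextD [(j, σ)] i) := by
  refine ⟨_, buext_pants h, ?_, fun i => ?_⟩
  · have := (List.perm_cons_erase h).length_eq
    simp only [List.length_cons] at this ⊢
    omega
  · rw [buextD_cons, buextD_cons (j + 4, !σ), buextD_perm (List.perm_cons_erase h) i,
      buextD_cons (j, σ)]
    ring

theorem buext_bal (n : ℕ) : ∀ hs : List (ZMod 6 × Bool), buextD hs 0 = buextD hs 4 →
    buextD hs 2 = buextD hs 4 → buextD hs 1 = buextD hs 5 → buextD hs 3 = buextD hs 5 →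
    (buextD hs 0).natAbs + (buextD hs 1).natAbs = n →
    ∃ hs', buextR hs hs' ∧ hs'.length = hs.length + n ∧ ∀ i, buextD hs' i = 0 := by
  induction n with
  | zero =>
    intro hs h0 h2 h1 h3 hn
    refine ⟨hs, fun _ h => h, rfl, fun i => ?_⟩
    have : ∀ i : ZMod 6, i = 0 ∨ i = 1 ∨ i = 2 ∨ i = 3 ∨ i = 4 ∨ i = 5 := by decide
    rcases this i with rfl | rfl | rfl | rfl | rfl | rfl <;> omega
  | succ n ih =>
    intro hs h0 h2 h1 h3 hn
    have key : ∀ (j : ZMod 6) (σ : Bool) (e o : ℤ), (j, σ) ∈ hs →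
        (∀ i : ZMod 6, buextD [(j + 2, !σ)] i + buextD [(j + 4, !σ)] i - buextD [(j, σ)] i =
          if i.val % 2 = 0 then e else o) →
        (buextD hs 0 + e).natAbs + (buextD hs 1 + o).natAbs = n →
        ∃ hs', buextR hs hs' ∧ hs'.length = hs.length + (n + 1) ∧ ∀ i, buextD hs' i = 0 := by
      intro j σ e o hm hd hn'
      obtain ⟨l, r1, l1, d1⟩ := buext_move hm
      simp only [hd] at d1
      have e0 : buextD l 0 = buextD hs 0 + e := d1 0
      have e1 : buextD l 1 = buextD hs 1 + o := d1 1
      have e2 : buextD l 2 = buextD hs 2 + e := d1 2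
      have e3 : buextD l 3 = buextD hs 3 + o := d1 3
      have e4 : buextD l 4 = buextD hs 4 + e := d1 4
      have e5 : buextD l 5 = buextD hs 5 + o := d1 5
      obtain ⟨l', r2, l2, d2⟩ := ih l (by omega) (by omega) (by omega) (by omega) (by rw [e0, e1, hn'])
      exact ⟨l', r1.trans r2, by omega, d2⟩
    have mem : ∀ j σ, 0 < hs.count (j, σ) → (j, σ) ∈ hs := fun j σ h => List.count_pos_iff.1 h
    rcases lt_trichotomy (buextD hs 0) 0 with c | c | c
    · exact key 0 false 1 0 (mem _ _ (by unfold buextD at c; omega)) (by decide) (by omega)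
    · rcases lt_trichotomy (buextD hs 1) 0 with c' | c' | c'
      · exact key 1 false 0 1 (mem _ _ (by unfold buextD at c'; omega)) (by decide) (by omega)
      · omega
      · exact key 1 true 0 (-1) (mem _ _ (by unfold buextD at c'; omega)) (by decide) (by omega)
    · exact key 0 true (-1) 0 (mem _ _ (by unfold buextD at c; omega)) (by decide) (by omega)

theorem buext_two (hs : List (ZMod 6 × Bool)) (j : ZMod 6) :
    hs.count (j, true) + hs.count (j, false) ≤ hs.length := by
  induction hs with
  | nil => simp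
  | cons h hs ih =>
    obtain ⟨i, σ⟩ := h
    simp only [List.count_cons, List.length_cons]
    cases σ <;> simp <;> split_ifs <;> omega

theorem balance (hs : List (ZMod 6 × Bool)) (hne : hs ≠ []) (h0 : ((holes hs).map thL).sum = 0) :
    ∃ m : ZMod 6 → ℕ, (∀ j, m j ≤ 2 * hs.length) ∧ (∃ j, 1 ≤ m j) ∧
      ∀ F, Real (holes hs ++ F) → Real (pairs m ++ F) := by
  obtain ⟨a0, a1, a2, a3⟩ := buext_th hs
  simp only [h0, Pi.zero_apply] at a0 a1 a2 a3
  obtain ⟨l, r, hl, hd⟩ := buext_bal _ hs (by omega) (by omega) (by omega) (by omega) rfl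
  have hc : ∀ j, l.count (j, false) = l.count (j, true) := fun j => by
    have := hd j
    unfold buextD at this
    omega
  have hp : l.Perm (buextL fun j => l.count (j, true)) := List.perm_iff_count.2 fun ⟨i, σ⟩ => by
    rw [buext_count]
    cases σ
    · exact hc i
    · rfl
  refine ⟨fun j => l.count (j, true), fun j => ?_, ?_, fun F hF => ?_⟩
  · have b0 := buext_two hs 0
    have b1 := buext_two hs 1
    have b2 := buext_two l j
    have b3 := hc j
    unfold buextD at hl
    show l.count (j, true) ≤ _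
    omega
  · have hpos : 0 < l.length := by
      have := List.length_pos_iff.2 hne
      omega
    obtain ⟨⟨j, σ⟩, hm⟩ := List.exists_mem_of_length_pos hpos
    have h1 := List.count_pos_iff.2 hm
    refine ⟨j, ?_⟩
    have := hc j
    show 1 ≤ l.count (j, true)
    cases σ <;> omega
  · rw [← buext_holes]
    exact (r.trans (buext_perm hp)) F hF

theorem add_all {m u : ZMod 6 → ℕ} (h1 : ∃ j, 1 ≤ m j) (h : ∀ j, m j + 1 ≤ u j)
    {F : List (List Entry)} (hF : Real (pairs m ++ F)) : Real (pairs u ++ F) := by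
  obtain ⟨x, hx⟩ := h1
  rw [← buext_holes] at hF ⊢
  let m1 : ZMod 6 → ℕ := fun j => m j + if j = x + 2 ∨ j = x + 3 ∨ j = x + 4 then 1 else 0
  have r1 : buextR (buextL m) (buextL m1) := buext_grow' (fun j => Nat.le_add_right _ _)
    fun y hy => ⟨x, hx, by
      by_contra hc
      simp only [m1, if_neg hc] at hy
      omega⟩
  have r2 : buextR (buextL m1) (buextL fun j => m j + 1) := by
    refine buext_grow' (fun j => ?_) fun y hy => ?_
    · simp only [m1]; split_ifs <;> omega
    · have hc : ¬(y = x + 2 ∨ y = x + 3 ∨ y = x + 4) := fun hc => by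
        simp only [m1, if_pos hc] at hy
        omega
      have : ∀ x y : ZMod 6, ¬(y = x + 2 ∨ y = x + 3 ∨ y = x + 4) →
          (y = x + 3 + 2 ∨ y = x + 3 + 3 ∨ y = x + 3 + 4) := by decide
      exact ⟨x + 3, by simp [m1], this x y hc⟩
  have r3 : buextR (buextL fun j => m j + 1) (buextL u) := buext_grow' h fun y _ =>
    ⟨y + 2, Nat.le_add_left _ _, Or.inr (Or.inr ((by decide : ∀ y : ZMod 6, y = y + 2 + 4) y))⟩
  exact ((r1.trans r2).trans r3) F hF

theorem closed_piece {u : ZMod 6 → ℕ} (h0 : u 0 = 1) (h2 : 1 ≤ u 2)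
    (h : ∀ j, j ≠ 0 → j ≠ 2 → u j = 0) : Real (pairs u) := by
  have r0 : Real [inn (darts (hole 0 true)), hole 0 false] :=
    real_init ((mateB_iff _ _).1 (by decide)) (by
      rw [darts_inn]
      exact (by decide : List.IsChain Fw [holeD 0 true, fk 2 (holeD 0 true), holeD 0 true]))
  have r1 := ext_add 0 2 true (by decide) _ r0
  let m : ZMod 6 → ℕ := fun j => if j = 0 ∨ j = 2 then 1 else 0
  have r2 : Real (holes (buextL m) ++ []) := r1.perm (by decide)
  have r3 : buextR (buextL m) (buextL u) := by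
    refine buext_grow' (fun j => ?_) fun y hy => ⟨0, by simp [m], Or.inl ?_⟩
    · simp only [m]
      split_ifs with c
      · rcases c with rfl | rfl <;> omega
      · omega
    · by_contra hc
      by_cases c : y = 0
      · subst c; simp [m] at hy; omega
      · have := h y c (by simpa using hc)
        omega
  simpa only [buext_holes, List.append_nil] using r3 [] r2

end Pool.Agent.MC
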