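import Pool.Agent.P.MP_2677b3_gt.BuScr

namespace Pool.Agent.MC

theorem walls_add (d : Dart) (a b : ℕ) :
    walls d (a + b) = walls d a ++ walls (if a % 2 = 0 then d else fk 2 d) b := by
  induction a generalizing d with
  | zero => simp [walls]
  | succ a ih =>
    rw [Nat.add_right_comm, walls, walls, ih, List.cons_append]
    by_cases h : a % 2 = 0
    · rw [if_pos h, if_neg (by omega)]
    · rw [if_neg h, if_pos (by omega), fk_two_two]

theorem bufill_nthW (s : Dart) {a b : ℕ} (h : a % 2 = b % 2) : nthW s a = nthW s b := by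
  simp only [nthW, h]

theorem nxc_congr (s : Dart) {as bs : List ℕ} (h : List.Forall₂ (fun a b => a % 2 = b % 2) as bs) :
    nxc s as = nxc s bs := by
  induction h generalizing s with
  | nil => rfl
  | @cons a b _ _ h _ ih => rw [nxc, nxc, bufill_nthW s (show (a + 1) % 2 = (b + 1) % 2 by omega), ih]

theorem cvx_append (s : Dart) (as bs : List ℕ) :
    cvx s (as ++ bs) = cvx s as ++ cvx (nxc s as) bs ∧ nxc s (as ++ bs) = nxc (nxc s as) bs := by
  induction as generalizing s with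
  | nil => exact ⟨rfl, rfl⟩
  | cons a as ih =>
    simp only [List.cons_append, cvx, nxc, List.append_assoc, (ih _).1, (ih _).2, and_self]

/-- A closed convex face that can be filled. -/
structure bufillP (s : Dart) (L : List ℕ) : Prop where
  seam : wall s = false
  close : nxc s L = s
  fill : ∃ hs : List (ZMod 6 × Bool), RwC (inn (cvx s L)) (holes hs)

theorem bufill_same (as : List ℕ) : List.Forall₂ (fun a b : ℕ => a % 2 = b % 2) as as :=
  List.forall₂_same.2 fun _ _ => rfl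

theorem bufill_ring {s : Dart} {a b : ℕ} {as : List ℕ}
    (h : bufillP s ((a + 1) :: as ++ [b + 1])) : bufillP s ((a + 3) :: as ++ [b + 3]) := by
  obtain ⟨hs, hc, H, hH⟩ := h
  have e1 : nthW s (a + 3 + 1) = nthW s (a + 1 + 1) := bufill_nthW s (by omega)
  refine ⟨hs, (nxc_congr s (.cons (by omega)
    (List.rel_append (bufill_same as) (.cons (by omega) .nil)))).trans hc, ?_⟩
  set s1 := fk 1 (nthW s (a + 1 + 1)) with hs1
  set s' := nxc s1 as with hs'
  set p := nthW s' b with hp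
  have hps : fk 1 p = s := by
    rw [List.cons_append, nxc, ← hs1, (cvx_append s1 as _).2, ← hs', nxc, nxc,
      bufill_nthW s' (show (b + 1 + 1) % 2 = b % 2 by omega)] at hc
    exact hc
  obtain ⟨j, σ, hR⟩ := rw_ring p s hs hps
  set R := walls (fk 2 (fk 1 s)) a ++ (cvx s1 as ++ s' :: walls (fk 1 s') b) with hRd
  have w1 : walls (fk 1 s') (b + 1) = walls (fk 1 s') b ++ [p] := walls_add _ b 1
  have w3 : walls (fk 1 s') (b + 3) = walls (fk 1 s') b ++ [p, fk 2 p, p] := by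
    rw [walls_add _ b 3]
    simp only [walls, fk_two_two]
    rfl
  have c1 : cvx s ((a + 1) :: as ++ [b + 1]) = ([s, fk 1 s] ++ R) ++ [p] := by
    rw [List.cons_append, cvx, ← hs1, (cvx_append s1 as _).1, ← hs', cvx, cvx, w1, walls, hRd]
    simp
  have c3 : cvx s ((a + 3) :: as ++ [b + 3]) =
      ([s, fk 1 s, fk 2 (fk 1 s), fk 1 s] ++ R) ++ [p, fk 2 p, p] := by
    rw [List.cons_append, cvx, e1, ← hs1, (cvx_append s1 as _).1, ← hs', cvx, cvx, w3, walls,
      walls, walls, fk_two_two, hRd]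
    simp
  refine ⟨H ++ [(j, σ)], fun F hF => ?_⟩
  rw [c3, inn_append] at hF
  have h1 := hR (inn R) F (by simpa using hF.rot)
  have h2 : Real ((inn [p] ++ inn ([s, fk 1 s] ++ R)) :: (hole j σ :: F)) := by simpa using h1
  have h3 := h2.rot
  rw [← inn_append, ← c1] at h3
  simpa [holes] using hH _ h3

theorem bufill_rings {s : Dart} {as : List ℕ} (r : ℕ) {a b : ℕ} (ha : 1 ≤ a) (hb : 1 ≤ b)
    (h : bufillP s (a :: as ++ [b])) : bufillP s ((a + 2 * r) :: as ++ [b + 2 * r]) := by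
  induction r with
  | zero => exact h
  | succ r ih =>
    obtain ⟨a, rfl⟩ := Nat.exists_eq_add_of_le' ha
    obtain ⟨b, rfl⟩ := Nat.exists_eq_add_of_le' hb
    rw [show a + 1 + 2 * r = a + 2 * r + 1 by omega,
      show b + 1 + 2 * r = b + 2 * r + 1 by omega] at ih
    rw [show a + 1 + 2 * (r + 1) = a + 2 * r + 3 by omega,
      show b + 1 + 2 * (r + 1) = b + 2 * r + 3 by omega]
    exact bufill_ring ih

theorem bufill_rot {s : Dart} {a : ℕ} {as : List ℕ} (h : bufillP s (a :: as)) :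
    bufillP (nxc s [a]) (as ++ [a]) := by
  obtain ⟨hs, hc, H, hH⟩ := h
  have hc' : nxc (nxc s [a]) as = s := (cvx_append s [a] as).2.symm.trans hc
  refine ⟨?_, by rw [(cvx_append _ as _).2, hc'], H, fun F hF => hH F ?_⟩
  · simp only [nxc, nthW]
    split_ifs <;> simp [(wall_fk _).1, (wall_fk _).2.1, hs]
  · rw [(cvx_append _ as _).1, hc', inn_append] at hF
    have := hF.rot
    rw [← inn_append, ← (cvx_append s [a] as).1] at this
    exact this

theorem bufill_step {s : Dart} {as : List ℕ} (r : ℕ) {a b : ℕ} (ha : 1 ≤ a) (hb : 1 ≤ b)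
    (h : bufillP s (a :: as ++ [b])) : bufillP (nxc s [a]) (as ++ [b + 2 * r] ++ [a + 2 * r]) := by
  rw [nxc_congr s (as := [a]) (bs := [a + 2 * r]) (.cons (by omega) .nil)]
  have := bufill_rings r ha hb h
  rw [List.cons_append] at this
  exact bufill_rot this

theorem fill3 (s : Dart) (hs : wall s = false) (r₀ r₁ r₂ : ℕ) : ∃ hs : List (ZMod 6 × Bool),
    RwC (inn (cvx s [1 + 2 * (r₀ + r₁), 1 + 2 * (r₁ + r₂), 1 + 2 * (r₂ + r₀)])) (holes hs) := by
  obtain ⟨hc, hf⟩ := fill_tri s hs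
  have h0 : bufillP s [1, 1, 1] := ⟨hs, hc, [], hf⟩
  have h1 := bufill_step (as := [1]) r₀ le_rfl le_rfl h0
  have h2 := bufill_step (as := [_]) r₁ le_rfl (by omega) h1
  have h3 := bufill_step (as := [_]) r₂ (by omega) (by omega) h2
  have e : nxc (nxc (nxc s [1]) [1]) [1 + 2 * r₀] = s := by
    simp only [← (cvx_append _ _ _).2, List.cons_append, List.nil_append]
    exact (nxc_congr s (.cons rfl (.cons rfl (.cons (by omega) .nil)))).trans hc
  rw [e] at h3
  rw [show 1 + 2 * (r₀ + r₁) = 1 + 2 * r₀ + 2 * r₁ by omega,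
    show 1 + 2 * (r₁ + r₂) = 1 + 2 * r₁ + 2 * r₂ by omega,
    show 1 + 2 * (r₂ + r₀) = 1 + 2 * r₀ + 2 * r₂ by omega]
  exact h3.fill

theorem fill6 (s : Dart) (hs : wall s = false) (t₀ t₁ t₂ t₃ t₄ t₅ r₀ r₁ r₂ r₃ r₄ r₅ : ℕ)
    (ht : ∀ t ∈ [t₀, t₁, t₂, t₃, t₄, t₅], 1 ≤ t) (hc : nxc s [t₀, t₁, t₂, t₃, t₄, t₅] = s)
    (hf : RwC (inn (cvx s [t₀, t₁, t₂, t₃, t₄, t₅])) []) : ∃ hs : List (ZMod 6 × Bool),
    RwC (inn (cvx s [t₀ + 2 * (r₀ + r₁), t₁ + 2 * (r₁ + r₂), t₂ + 2 * (r₂ + r₃),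
      t₃ + 2 * (r₃ + r₄), t₄ + 2 * (r₄ + r₅), t₅ + 2 * (r₅ + r₀)])) (holes hs) := by
  simp only [List.mem_cons, List.not_mem_nil, or_false, forall_eq_or_imp, forall_eq] at ht
  obtain ⟨a0, a1, a2, a3, a4, a5⟩ := ht
  have h0 : bufillP s [t₀, t₁, t₂, t₃, t₄, t₅] := ⟨hs, hc, [], hf⟩
  have h1 := bufill_step (as := [_, _, _, _]) r₀ a0 a5 h0
  have h2 := bufill_step (as := [_, _, _, _]) r₁ a1 (by omega) h1
  have h3 := bufill_step (as := [_, _, _, _]) r₂ a2 (by omega) h2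
  have h4 := bufill_step (as := [_, _, _, _]) r₃ a3 (by omega) h3
  have h5 := bufill_step (as := [_, _, _, _]) r₄ a4 (by omega) h4
  have h6 := bufill_step (as := [_, _, _, _]) r₅ (by omega) (by omega) h5
  have e : nxc (nxc (nxc (nxc (nxc (nxc s [t₀]) [t₁]) [t₂]) [t₃]) [t₄]) [t₅ + 2 * r₀] = s := by
    simp only [← (cvx_append _ _ _).2, List.cons_append, List.nil_append]
    exact (nxc_congr s
      (.cons rfl (.cons rfl (.cons rfl (.cons rfl (.cons rfl (.cons (by omega) .nil))))))).trans hc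
  rw [e] at h6
  rw [show t₀ + 2 * (r₀ + r₁) = t₀ + 2 * r₀ + 2 * r₁ by omega,
    show t₁ + 2 * (r₁ + r₂) = t₁ + 2 * r₁ + 2 * r₂ by omega,
    show t₂ + 2 * (r₂ + r₃) = t₂ + 2 * r₂ + 2 * r₃ by omega,
    show t₃ + 2 * (r₃ + r₄) = t₃ + 2 * r₃ + 2 * r₄ by omega,
    show t₄ + 2 * (r₄ + r₅) = t₄ + 2 * r₄ + 2 * r₅ by omega,
    show t₅ + 2 * (r₅ + r₀) = t₅ + 2 * r₀ + 2 * r₅ by omega]
  exact h6.fill

end Pool.Agent.MC
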