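import Pool.Agent.P.MP_2677b3_gt.BuApi

namespace Pool.Agent.MC

theorem InB.mono {ρ ρ' : ℤ} {v : Fin 4 → ℤ} (h : InB ρ v) (hρ : ρ ≤ ρ') : InB ρ' v := by
  exact fun i => (h i).trans hρ
theorem InB.add {ρ ρ' : ℤ} {v w : Fin 4 → ℤ} (h : InB ρ v) (h' : InB ρ' w) :
    InB (ρ + ρ') (v + w) := by
  exact fun i => (abs_add_le _ _).trans (add_le_add (h i) (h' i))
theorem InB.sub {ρ ρ' : ℤ} {v w : Fin 4 → ℤ} (h : InB ρ v) (h' : InB ρ' w) :
    InB (ρ + ρ') (v - w) := by
  exact fun i => (abs_sub _ _).trans (add_le_add (h i) (h' i))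
theorem InB.neg {ρ : ℤ} {v : Fin 4 → ℤ} (h : InB ρ v) : InB ρ (-v) := by
  intro i
  rw [Pi.neg_apply, abs_neg]
  exact h i
theorem inB_thL (l : List Entry) : InB l.length (thL l) := by
  induction l with
  | nil => intro i; simp
  | cons e l ih =>
    rw [thL_cons]
    exact ((th_inB e.1).add ih).mono (by simp [add_comm])
/-- A centre half way between the origin and `v`. -/
theorem exists_mid {ρ : ℤ} {v : Fin 4 → ℤ} (h : InB (2 * ρ) v) :
    ∃ z, InB ρ z ∧ InB ρ (z - v) := by
  refine ⟨fun i => v i / 2, fun i => ?_, fun i => ?_⟩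
  · have h1 := abs_le.1 (h i)
    rw [abs_le]
    beta_reduce
    omega
  · have h1 := abs_le.1 (h i)
    rw [Pi.sub_apply, abs_le]
    omega
theorem Near.mono {ρ ρ' : ℤ} {z : Fin 4 → ℤ} {l : List Entry} (h : Near ρ z l) (hρ : ρ ≤ ρ') :
    Near ρ' z l := by
  induction l generalizing z with
  | nil => exact InB.mono h hρ
  | cons e l ih => exact ⟨h.1.mono hρ, ih h.2⟩
theorem Near.start {ρ : ℤ} {z : Fin 4 → ℤ} {l : List Entry} (h : Near ρ z l) : InB ρ z := by
  cases l with
  | nil => exact h
  | cons e l => exact h.1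
theorem Near.finish {ρ : ℤ} {z : Fin 4 → ℤ} {l : List Entry} (h : Near ρ z l) :
    InB ρ (z - thL l) := by
  induction l generalizing z with
  | nil => rw [thL_nil, sub_zero]; exact h
  | cons e l ih => rw [thL_cons, ← sub_sub]; exact ih h.2
theorem near_append {ρ : ℤ} {z : Fin 4 → ℤ} {l l' : List Entry} :
    Near ρ z (l ++ l') ↔ Near ρ z l ∧ Near ρ (z - thL l) l' := by
  induction l generalizing z with
  | nil =>
    rw [List.nil_append, thL_nil, sub_zero]
    exact ⟨fun h => ⟨h.start, h⟩, fun h => h.2⟩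
  | cons e l ih =>
    rw [thL_cons, ← sub_sub]
    exact (and_congr_right fun _ => ih).trans and_assoc.symm
theorem near_short {ρ : ℤ} {z : Fin 4 → ℤ} (h : InB ρ z) (l : List Entry) :
    Near (ρ + l.length) z l := by
  induction l generalizing ρ z with
  | nil => exact InB.mono h (by simp)
  | cons e l ih =>
    refine ⟨h.mono (by simp only [le_add_iff_nonneg_right]; positivity),
      (ih (h.sub (th_inB e.1))).mono ?_⟩
    simp only [List.length_cons, Nat.cast_add, Nat.cast_one]
    omega
theorem Near.congr {ρ : ℤ} {z : Fin 4 → ℤ} {l l' : List Entry} (h : Near ρ z l)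
    (hd : darts l' = darts l) : Near ρ z l' := by
  induction l generalizing z l' with
  | nil =>
    obtain rfl : l' = [] := by simpa [darts] using hd
    exact h
  | cons e l ih =>
    cases l' with
    | nil => simp at hd
    | cons e' l' =>
      rw [darts_cons, darts_cons, List.cons.injEq] at hd
      exact ⟨h.1, ih (hd.1 ▸ h.2) hd.2⟩
theorem Near.mirror {ρ : ℤ} {z : Fin 4 → ℤ} {P Q : List Entry} (h : Near ρ z P)
    (hd : darts Q = mirror (darts P)) : Near ρ (z - thL P) Q := by
  induction P generalizing z Q with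
  | nil =>
    obtain rfl : Q = [] := by simpa [darts, MC.mirror] using hd
    rw [thL_nil, sub_zero]
    exact h
  | cons e P ih =>
    have h1 : List.map Prod.fst Q = MC.mirror (darts P) ++ [rv e.1] := by
      simpa [darts, MC.mirror] using hd
    obtain ⟨Q₁, Q₂, rfl, h2, h3⟩ := List.map_eq_append_iff.1 h1
    obtain ⟨e', rfl, h4⟩ := List.map_eq_singleton_iff.1 h3
    rw [near_append, thL_cons, ← sub_sub, thL_mirror h2, sub_neg_eq_add, sub_add_cancel]
    refine ⟨ih h.2 h2, h.2.start, ?_⟩
    rw [h4, th_rv, sub_neg_eq_add, sub_add_cancel]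
    exact h.1
theorem Near.rotated {ρ : ℤ} {l l' : List Entry} (h : ∃ z, Near ρ z l) (h0 : thL l = 0)
    (hr : l ~r l') : ∃ z, Near ρ z l' := by
  obtain ⟨z, hz⟩ := h
  obtain ⟨n, hn, rfl⟩ := List.isRotated_iff_mod.1 hr
  rw [List.rotate_eq_drop_append_take hn]
  rw [← List.take_append_drop n l] at hz h0
  rw [near_append] at hz
  refine ⟨z - thL (l.take n), near_append.2 ⟨hz.2, ?_⟩⟩
  rw [sub_sub, ← thL_append, h0, sub_zero]
  exact hz.1
theorem bugeom_finish {ρ ρ' : ℤ} {z : Fin 4 → ℤ} {l : List Entry} (h : InB ρ (z - thL l))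
    (hρ : ρ + l.length ≤ ρ') : Near ρ' z l := by
  induction l generalizing z with
  | nil =>
    rw [thL_nil, sub_zero] at h
    exact InB.mono h (by simpa using hρ)
  | cons e l ih =>
    have h1 := h.add (inB_thL (e :: l))
    rw [sub_add_cancel] at h1
    rw [thL_cons, ← sub_sub] at h
    refine ⟨h1.mono hρ, ih h ?_⟩
    simp only [List.length_cons, Nat.cast_add, Nat.cast_one] at hρ
    omega
theorem Hull.mono {C C' : ℤ} {l : List Entry} (h : Hull C l) (hC : C ≤ C') : Hull C' l := by
  exact fun ρ z h1 h2 => (h ρ z h1 h2).mono (by omega)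
theorem hull_short (l : List Entry) : Hull l.length l := by
  exact fun ρ z h1 _ => near_short h1 l
theorem Hull.append_left {C : ℤ} {l : List Entry} (h : Hull C l) (hC : 0 ≤ C) (l' : List Entry) :
    Hull (C + l'.length) (l' ++ l) := by
  intro ρ z h1 h2
  rw [thL_append, ← sub_sub] at h2
  refine near_append.2 ⟨(near_short h1 l').mono (by omega), ?_⟩
  exact (h (ρ + l'.length) _ (h1.sub (inB_thL l')) (h2.mono (by omega))).mono (by omega)
theorem Hull.append_right {C : ℤ} {l : List Entry} (h : Hull C l) (hC : 0 ≤ C) (l' : List Entry) :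
    Hull (C + l'.length) (l ++ l') := by
  intro ρ z h1 h2
  rw [thL_append, ← sub_sub] at h2
  have h3 := h2.add (inB_thL l')
  rw [sub_add_cancel] at h3
  refine near_append.2 ⟨(h (ρ + l'.length) _ (h1.mono (by omega)) h3).mono (by omega), ?_⟩
  refine bugeom_finish h2 ?_
  omega
theorem Hull.mirror {C : ℤ} {P Q : List Entry} (h : Hull C P) (hd : darts Q = mirror (darts P)) :
    Hull C Q := by
  intro ρ z h1 h2
  rw [thL_mirror hd, sub_neg_eq_add] at h2
  have h3 := (h ρ (z + thL P) h2 (by rwa [add_sub_cancel_right])).mirror hd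
  rwa [add_sub_cancel_right] at h3
theorem PreGood.rotated {w w' : List Entry} (h : PreGood w) (h0 : thL w = 0) (hr : w ~r w') :
    PreGood w' := by
  exact ⟨h.ch.isRotated hr, fun e he => h.tg e (hr.mem_iff.2 he), hr.perm.length_eq ▸ h.len,
    Near.rotated h.near h0 hr⟩
theorem Good.rotated {w w' : List Entry} (h : Good w) (hr : w ~r w') : Good w' := by
  have hp : (darts w').Perm (darts w) := (hr.perm.map _).symm
  exact ⟨h.toPreGood.rotated h.th hr, (thL_congr hp).trans h.th, (alL_congr hp).trans h.al⟩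

end Pool.Agent.MC
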