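import Pool.Agent.P.MP_2677b3_gt.BuCons
import Pool.Agent.P.MP_2677b3_gt.BuGeom

namespace Pool.Agent.MC

theorem buflat_sums {F : List (List Entry)} (hF : ∀ f ∈ F, Flat f) :
    (F.map cang).sum = 2 * F.flatten.length ∧ (F.map alL).sum = 2 * (F.length : ZMod 4) := by
  induction F with
  | nil => simp
  | cons f F ih =>
    obtain ⟨h1, h2⟩ := ih fun g hg => hF g (List.mem_cons_of_mem _ hg)
    obtain ⟨h3, h4⟩ := hF f List.mem_cons_self
    simp only [List.map_cons, List.sum_cons, List.flatten_cons, List.length_append,
      List.length_cons, h1, h2, h3, h4]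
    constructor
    · ring
    · push_cast; ring

theorem Real.al_two {X : List Entry} {F : List (List Entry)} (h : Real (X :: F))
    (hF : ∀ f ∈ F, Flat f) (hX : cang X = 2 * X.length) : alL X = 2 := by
  obtain ⟨T, h1, h2⟩ := h.tiles
  obtain ⟨h3, h4⟩ := buflat_sums hF
  simp only [List.map_cons, List.sum_cons, List.flatten_cons, List.length_append,
    List.length_cons, h3, h4] at h1 h2
  have h5 : ((T + 2 : ℕ) : ZMod 4) = (2 * F.length : ℕ) := by congr 1; omega
  push_cast at h5
  have h6 : (4 : ZMod 4) = 0 := by decide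
  linear_combination h2 - h5 - (F.length : ZMod 4) * h6

theorem Real.al_one {X : List Entry} {F : List (List Entry)} (h : Real (X :: F))
    (hF : ∀ f ∈ F, Flat f) (hX : cang X + 6 = 2 * X.length) : alL X = 1 := by
  obtain ⟨T, h1, h2⟩ := h.tiles
  obtain ⟨h3, h4⟩ := buflat_sums hF
  simp only [List.map_cons, List.sum_cons, List.flatten_cons, List.length_append,
    List.length_cons, h3, h4] at h1 h2
  have h5 : ((T + 5 : ℕ) : ZMod 4) = (2 * F.length : ℕ) := by congr 1; omega
  push_cast at h5
  have h6 : (4 : ZMod 4) = 0 := by decide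
  linear_combination h2 - h5 - ((F.length : ZMod 4) - 1) * h6

theorem buflat_chain {α : Type} {R : α → α → Prop} (b : α) (t : List α) :
    ∀ a, (a :: t ++ [b]).IsChain R → List.Forall₂ R (a :: t) (t ++ [b]) := by
  induction t with
  | nil => intro a h; simpa using h
  | cons c t ih =>
    intro a h
    rw [List.cons_append, List.cons_append, List.isChain_cons_cons] at h
    exact List.Forall₂.cons h.1 (ih c h.2)

theorem buflat_rot {α : Type} {R : α → α → Prop} {l : List α} (h : CChain R l) :
    List.Forall₂ R l (l.rotate 1) := by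
  cases l with
  | nil => exact h.elim
  | cons a t => simpa using buflat_chain a t a h

theorem buflat_cang (w : List Entry) :
    cang w = (List.zipWith ang (darts w) ((darts w).rotate 1)).sum := by
  rw [cang, darts, ← List.map_rotate, List.zipWith_map]

/-- One on seams. -/
def buflat_g (d : Dart) : ℕ := if wall d then 0 else 1

theorem buflat_ang : ∀ d e : Dart, J d e → ang d e + buflat_g d = 2 + buflat_g e := by
  decide +kernel

theorem buflat_zip {l l' : List Dart} (h : List.Forall₂ J l l') :
    (List.zipWith ang l l').sum + (l.map buflat_g).sum = 2 * l.length + (l'.map buflat_g).sum := by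
  induction h with
  | nil => rfl
  | cons hab _ ih =>
    have := buflat_ang _ _ hab
    simp only [List.zipWith_cons_cons, List.sum_cons, List.map_cons, List.length_cons]
    omega

theorem cang_jog {w : List Entry} (h : CChain J (darts w)) : cang w = 2 * w.length := by
  have h1 := buflat_zip (buflat_rot h)
  rw [((List.rotate_perm (darts w) 1).map buflat_g).sum_eq, length_darts] at h1
  rw [buflat_cang]
  omega

/-- Twice the second coordinate. -/
def buflat_p (d : Dart) : ZMod 4 := if d.2.1 = 0 then 0 else 2

theorem buflat_al : ∀ d e : Dart, J d e → 2 * al d + buflat_p d = buflat_p e := by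
  decide +kernel

theorem buflat_par {l l' : List Dart} (h : List.Forall₂ J l l') :
    2 * (l.map al).sum + (l.map buflat_p).sum = (l'.map buflat_p).sum := by
  induction h with
  | nil => simp
  | cons hab _ ih =>
    have := buflat_al _ _ hab
    simp only [List.sum_cons, List.map_cons]
    linear_combination this + ih

/-- A closed jog path has an even number of walls. -/
theorem alL_jog {w : List Entry} (h : CChain J (darts w)) : alL w = 0 ∨ alL w = 2 := by
  have h1 := buflat_par (buflat_rot h)
  rw [((List.rotate_perm (darts w) 1).map buflat_p).sum_eq, add_eq_right] at h1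
  have h2 : ((darts w).map al).sum = alL w := by rw [darts, List.map_map]; rfl
  rw [h2] at h1
  generalize alL w = x at h1
  revert x
  decide

theorem PreGood.jog {w : List Entry} (h : PreGood w) : CChain J (darts w) :=
  (cchain_map Prod.fst).2 (h.ch.imp fun _ _ _ _ hab => hab.1)

theorem Good.flat {w : List Entry} (h : Good w) : Flat w := ⟨cang_jog h.jog, h.al⟩

theorem buflat_darts (w : List Entry) (τ : Entry → Tag) :
    darts (w.map fun e => (rv e.1, τ e)).reverse = mirror (darts w) := by
  simp [darts, mirror, List.map_reverse, Function.comp_def]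

theorem Good.flat_top {w : List Entry} (h : Good w) : Flat (topOf w) ∧ thL (topOf w) = 0 := by
  have hd : darts (topOf w) = mirror (darts w) := buflat_darts w _
  refine ⟨⟨cang_jog ?_, ?_⟩, ?_⟩
  · rw [hd, mirror, cchain_reverse, cchain_map]
    exact h.jog.imp fun a _ b _ hab => J_mirror a b hab
  · rw [alL_mirror hd, h.al]; decide
  · rw [thL_mirror hd, h.th, neg_zero]

theorem flat_hole (j : ZMod 6) (σ : Bool) : Flat (hole j σ) := by
  unfold Flat
  revert j σ
  decide +kernel

theorem Flat.congr {w w' : List Entry} (h : Flat w) (hd : darts w' = darts w) : Flat w' := by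
  refine ⟨?_, (alL_congr (hd ▸ List.Perm.refl _)).trans h.2⟩
  rw [buflat_cang, hd, ← buflat_cang, h.1, ← length_darts w', hd, length_darts]

/-- The mirror image of a good loop with reversed ranks. -/
theorem Good.mirror {w : List Entry} (h : Good w) :
    Good (w.map fun e => (rv e.1, Tag.free (5 - e.2.rk))).reverse := by
  have hd := buflat_darts w fun e => Tag.free (5 - e.2.rk)
  refine ⟨⟨?_, ?_, by simpa using h.len, ?_⟩, ?_, ?_⟩
  · rw [cchain_reverse, cchain_map (S := fun a b => JR b a)]
    refine h.ch.imp fun a _ b hb hab => ⟨J_mirror _ _ hab.1, fun h1 h2 => ?_⟩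
    rw [wall_rv] at h1 h2
    have h3 := hab.2 h2 h1
    have h4 := (h.tg b hb).1
    show 5 - b.2.rk < 5 - a.2.rk
    omega
  · intro e he
    obtain ⟨a, -, rfl⟩ := List.mem_map.1 (List.mem_reverse.1 he)
    exact ⟨Nat.sub_le _ _, Or.inr rfl⟩
  · obtain ⟨z, hz⟩ := h.near
    exact ⟨_, hz.mirror hd⟩
  · rw [thL_mirror hd, h.th, neg_zero]
  · rw [alL_mirror hd, h.al]; decide

theorem Good.free {w : List Entry} (h : Good w) :
    Good (w.map fun e => (e.1, Tag.free e.2.rk)) := by
  have hd : darts (w.map fun e => (e.1, Tag.free e.2.rk)) = darts w := by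
    simp [darts, Function.comp_def]
  refine ⟨⟨?_, ?_, by simpa using h.len, ?_⟩, ?_, ?_⟩
  · rw [cchain_map]
    exact h.ch.imp fun a _ b _ hab => hab
  · intro e he
    obtain ⟨a, ha, rfl⟩ := List.mem_map.1 he
    exact ⟨(h.tg a ha).1, Or.inr rfl⟩
  · obtain ⟨z, hz⟩ := h.near
    exact ⟨_, hz.congr hd⟩
  · exact (thL_congr (hd ▸ List.Perm.refl _)).trans h.th
  · exact (alL_congr (hd ▸ List.Perm.refl _)).trans h.al

/-- A short good loop. -/
def buflat_w : List Entry :=
  ((0, 0, 5), Tag.free 0) :: ((unr (0, 0, 5) [1, 1, 1, 1, 1, 1]).tail.map fun d => (d, Tag.free 0))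

theorem exists_good : ∃ w, Good w := by
  have hl : buflat_w.length = 12 := by decide +kernel
  refine ⟨buflat_w, ⟨?_, ?_, by omega, 0, ?_⟩, ?_, ?_⟩
  · unfold buflat_w CChain
    decide +kernel
  · decide +kernel
  · refine (near_short (ρ := 0) (fun i => by simp) buflat_w).mono ?_
    rw [hl]; norm_num
  · decide +kernel
  · decide +kernel

end Pool.Agent.MC
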