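import Pool.Agent.P.MP_2677b3_gt.BuDefs

namespace Pool.Agent.MC

theorem bugra_conj {G : Type} [Group G] {s t : G} (hs : s * s = 1) (ht : t * t = 1) (j : ℤ) :
    s * (t * s) ^ j = (t * s) ^ (-j) * s := by
  have h1 : s⁻¹ = s := inv_eq_of_mul_eq_one_right hs
  have h2 : t⁻¹ = t := inv_eq_of_mul_eq_one_right ht
  have h3 : s * (t * s) * s⁻¹ = (t * s)⁻¹ := by
    rw [mul_inv_rev, h2, ← mul_assoc, mul_inv_cancel_right, h1]
  rw [zpow_neg, ← inv_zpow, ← h3, conj_zpow, inv_mul_cancel_right]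

/-- Two involutions without fixed points on a finite set admit a common two-colouring. -/
theorem two_colour {E : Type} [Fintype E] (σ τ : E → E) (hσ : ∀ e, σ (σ e) = e)
    (hτ : ∀ e, τ (τ e) = e) (hσ' : ∀ e, σ e ≠ e) (hτ' : ∀ e, τ e ≠ e) :
    ∃ c : E → Bool, (∀ e, c (σ e) = !c e) ∧ ∀ e, c (τ e) = !c e := by
  classical
  let s : Equiv.Perm E := Function.Involutive.toPerm σ hσ
  let t : Equiv.Perm E := Function.Involutive.toPerm τ hτ
  have hs : s * s = 1 := Equiv.ext hσ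
  have ht : t * t = 1 := Equiv.ext hτ
  have hc : ∀ (j : ℤ) (e : E), σ (((t * s) ^ j) e) = ((t * s) ^ (-j)) (σ e) := fun j e =>
    Equiv.congr_fun (bugra_conj hs ht j) e
  have hne : ∀ e, ¬ (t * s).SameCycle e (σ e) := by
    rintro e ⟨k, hk⟩
    have key : ∀ i j : ℤ, k = j + i → ((t * s) ^ i) e = σ (((t * s) ^ j) e) := fun i j h => by
      rw [hc, ← hk, h, ← Equiv.Perm.mul_apply, ← zpow_add, neg_add_cancel_left]
    rcases Int.even_or_odd' k with ⟨j, h | h⟩
    · exact hσ' _ (key j j (by omega)).symm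
    · have h1 := key (1 + j) j (by omega)
      rw [zpow_add, zpow_one, Equiv.Perm.mul_apply] at h1
      exact hτ' _ h1
  obtain ⟨n, hn⟩ := exists_injective_nat (Quotient (Equiv.Perm.SameCycle.setoid (t * s)))
  let q : E → ℕ := fun e => n (Quotient.mk _ e)
  have hq : ∀ e e', q e = q e' ↔ (t * s).SameCycle e e' := fun e e' =>
    hn.eq_iff.trans Quotient.eq
  have h1 : ∀ e, q e ≠ q (σ e) := fun e h => hne e ((hq _ _).1 h)
  have h2 : ∀ e, q (σ e) = q (τ e) := fun e => (hq _ _).2 ⟨1, by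
    rw [zpow_one]
    show τ (σ (σ e)) = τ e
    rw [hσ]⟩
  have h3 : ∀ e, q (σ (τ e)) = q e := fun e => (hq _ _).2 ⟨1, by
    rw [zpow_one]
    show τ (σ (σ (τ e))) = e
    rw [hσ, hτ]⟩
  refine ⟨fun e => decide (q e < q (σ e)), fun e => ?_, fun e => ?_⟩
  · have := h1 e
    simp only [hσ]
    by_cases h : q e < q (σ e)
    · simp [h, h.le]
    · simp only [h, decide_false, Bool.not_false, decide_eq_true_eq]
      omega
  · have := h1 e
    simp only [h3, ← h2]
    by_cases h : q e < q (σ e)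
    · simp [h, h.le]
    · simp only [h, decide_false, Bool.not_false, decide_eq_true_eq]
      omega

theorem bugra_even {E : Type} (s : Finset E) (h : Even s.card) :
    ∃ g : E → E, ∀ e ∈ s, g e ∈ s ∧ g (g e) = e ∧ g e ≠ e := by
  classical
  obtain ⟨k, hk⟩ := h
  let φ : s ≃ Fin k × Bool := Fintype.equivOfCardEq (by simp [hk, mul_two])
  let g : s → s := fun a => φ.symm ((φ a).1, !(φ a).2)
  have h1 : ∀ a, g (g a) = a := fun a => by simp [g]
  have h2 : ∀ a, g a ≠ a := fun a e => by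
    have := congrArg (fun b => (φ b).2) e
    simp [g] at this
  refine ⟨fun e => if he : e ∈ s then (g ⟨e, he⟩).1 else e, fun e he => ?_⟩
  simp only [dif_pos he, dif_pos (g ⟨e, he⟩).2, Subtype.coe_eta, h1]
  exact ⟨(g ⟨e, he⟩).2, trivial, fun e' => h2 ⟨e, he⟩ (Subtype.ext e')⟩

open Classical in
/-- Fibres of even size are paired by an involution. -/
theorem pair_fibres {E X : Type} [Fintype E] (f : E → X)
    (h : ∀ x, Even (Finset.univ.filter fun e => f e = x).card) :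
    ∃ σ : E → E, (∀ e, σ (σ e) = e) ∧ (∀ e, σ e ≠ e) ∧ ∀ e, f (σ e) = f e := by
  choose g hg using fun x => bugra_even _ (h x)
  have h1 : ∀ e, g (f e) e ∈ _ ∧ g (f e) (g (f e) e) = e ∧ g (f e) e ≠ e := fun e =>
    hg (f e) e (Finset.mem_filter.2 ⟨Finset.mem_univ _, rfl⟩)
  have h2 : ∀ e, f (g (f e) e) = f e := fun e => (Finset.mem_filter.1 (h1 e).1).2
  refine ⟨fun e => g (f e) e, fun e => ?_, fun e => (h1 e).2.2, h2⟩
  show g (f (g (f e) e)) (g (f e) e) = e
  rw [h2]
  exact (h1 e).2.1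

end Pool.Agent.MC
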