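import Pool.Agent.P.MP_2677b3_gt.BuGrA

namespace Pool.Agent.MC

open Classical in
/-- number of elements with a property -/
noncomputable def bugrb_cnt {E : Type} [Fintype E] (p : E → Prop) : ℕ :=
  (Finset.univ.filter p).card

section
variable {E F X : Type} [Fintype E] [Fintype F]

theorem bugrb_eq (p : E → Prop) [DecidablePred p] :
    (Finset.univ.filter p).card = bugrb_cnt p := by
  unfold bugrb_cnt
  congr

theorem bugrb_mono {p q : E → Prop} (h : ∀ e, p e → q e) : bugrb_cnt p ≤ bugrb_cnt q := by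
  classical
  rw [← bugrb_eq, ← bugrb_eq]
  exact Finset.card_le_card fun e he => by simpa using h e (by simpa using he)

theorem bugrb_congr {p q : E → Prop} (h : ∀ e, p e ↔ q e) : bugrb_cnt p = bugrb_cnt q :=
  le_antisymm (bugrb_mono fun e => (h e).1) (bugrb_mono fun e => (h e).2)

theorem bugrb_half {σ : E → E} (hσ : ∀ e, σ (σ e) = e) {s : E → X} (hs : ∀ e, s (σ e) = s e)
    {c : E → Bool} (hc : ∀ e, c (σ e) = !c e) (x : X) (b : Bool) :
    bugrb_cnt (fun e => s e = x) = 2 * bugrb_cnt fun e => s e = x ∧ c e = b := by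
  classical
  have h1 : (Finset.univ.filter fun e => s e = x ∧ c e = b).card =
      (Finset.univ.filter fun e => s e = x ∧ ¬ c e = b).card := by
    refine Finset.card_bijective σ (Function.Involutive.bijective hσ) fun e => ?_
    simp only [Finset.mem_filter, Finset.mem_univ, true_and, hs, hc]
    cases c e <;> cases b <;> simp
  have h2 := Finset.card_filter_add_card_filter_not (s := Finset.univ.filter fun e => s e = x)
    fun e => c e = b
  rw [Finset.filter_filter, Finset.filter_filter, ← h1] at h2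
  rw [← bugrb_eq, ← bugrb_eq, ← h2, two_mul]

theorem bugrb_sum (p : E ⊕ F → Prop) :
    bugrb_cnt p = bugrb_cnt (fun e => p (.inl e)) + bugrb_cnt fun e => p (.inr e) := by
  classical
  rw [← bugrb_eq, ← bugrb_eq, ← bugrb_eq]
  simp only [Finset.card_filter, Fintype.sum_sum_type]

theorem bugrb_sub (P : X → Prop) [Fintype {x // P x}] [DecidablePred P] (x : X) :
    bugrb_cnt (fun y : {x // P x} => y.1 = x) = if P x then 1 else 0 := by
  classical
  rw [← bugrb_eq]
  split_ifs with h
  · exact Finset.card_eq_one.2 ⟨⟨x, h⟩, by ext y; simp [Subtype.ext_iff]⟩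
  · exact Finset.card_eq_zero.2 (Finset.filter_eq_empty_iff.2 fun y _ e => h (e ▸ y.2))

theorem bugrb_halve [Fintype X] (s t : E → X)
    (h : ∀ x, bugrb_cnt (fun e => s e = x) = bugrb_cnt fun e => t e = x) :
    ∃ c : E → Bool, ∀ x b, bugrb_cnt (fun e => (s e, c e) = (x, b)) =
      bugrb_cnt (fun e => (t e, c e) = (x, b)) ∧
      bugrb_cnt (fun e => s e = x) ≤ 2 * bugrb_cnt (fun e => (s e, c e) = (x, b)) + 2 := by
  classical
  let P : X → Prop := fun x => Odd (bugrb_cnt fun e => s e = x)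
  let s' : E ⊕ {x // P x} → X := Sum.elim s Subtype.val
  let t' : E ⊕ {x // P x} → X := Sum.elim t Subtype.val
  have d1 : ∀ x, bugrb_cnt (fun e => s' e = x) =
      bugrb_cnt (fun e => s e = x) + if P x then 1 else 0 := fun x => by
    rw [bugrb_sum, ← bugrb_sub]; rfl
  have d2 : ∀ x, bugrb_cnt (fun e => t' e = x) =
      bugrb_cnt (fun e => s e = x) + if P x then 1 else 0 := fun x => by
    rw [bugrb_sum, ← bugrb_sub, h]; rfl
  have ev : ∀ x, Even (bugrb_cnt (fun e => s e = x) + if P x then 1 else 0) := fun x => by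
    split_ifs with hx
    · exact hx.add_one
    · simpa [P] using hx
  obtain ⟨σ, a1, a2, a3⟩ := pair_fibres s' fun x => by rw [bugrb_eq, d1]; exact ev x
  obtain ⟨τ, b1, b2, b3⟩ := pair_fibres t' fun x => by rw [bugrb_eq, d2]; exact ev x
  obtain ⟨c, c1, c2⟩ := two_colour σ τ a1 b1 a2 b2
  refine ⟨fun e => c (.inl e), fun x b => ?_⟩
  have e1 := bugrb_half a1 a3 c1 x b
  have e2 := bugrb_half b1 b3 c2 x b
  rw [d1, bugrb_sum] at e1
  rw [d2, bugrb_sum] at e2
  have e3 : bugrb_cnt (fun y : {x // P x} => y.1 = x ∧ c (.inr y) = b) ≤ 1 :=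
    (bugrb_mono fun y hy => hy.1).trans (by rw [bugrb_sub]; split_ifs <;> simp)
  simp only [s', t', Sum.elim_inl, Sum.elim_inr] at e1 e2
  simp only [Prod.mk.injEq]
  omega

theorem bugrb_fib {K J : Type} [Fintype K] [DecidableEq J] (s : E → X) (κ : E → K) (m : K → J)
    (x : X) (j : J) : bugrb_cnt (fun e => s e = x ∧ m (κ e) = j) =
      ∑ k ∈ Finset.univ.filter fun k => m k = j, bugrb_cnt fun e => s e = x ∧ κ e = k := by
  classical
  rw [← bugrb_eq, Finset.card_eq_sum_card_fiberwise (f := κ)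
    (t := Finset.univ.filter fun k => m k = j) fun e he => by
      simp only [Finset.coe_filter, Finset.mem_univ, true_and, Set.mem_ofPred_eq] at he ⊢
      exact he.2]
  refine Finset.sum_congr rfl fun k hk => ?_
  rw [Finset.filter_filter, bugrb_eq]
  refine bugrb_congr fun e => ⟨fun h => ⟨h.1.1, h.2⟩, fun h => ⟨⟨h.1, ?_⟩, h.2⟩⟩
  rw [h.2]
  exact (Finset.mem_filter.1 hk).2

end

/-- eight colours onto six -/
def bugrb_m (k : Bool × Bool × Bool) : ZMod 6 :=
  (if k.1 then 1 else 0) + (if k.2.1 then 2 else 0) + (if k.2.2 then 3 else 0)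

theorem bugrb_m_surj : ∀ j, ∃ k, bugrb_m k = j := by decide

open Classical in
/-- A balanced digraph splits into six balanced digraphs with comparable degrees. -/
theorem six_circulations {E X : Type} [Fintype E] [Fintype X] (s t : E → X)
    (h : ∀ x, (Finset.univ.filter fun e => s e = x).card =
      (Finset.univ.filter fun e => t e = x).card) :
    ∃ col : E → ZMod 6, ∀ x j,
      (Finset.univ.filter fun e => s e = x ∧ col e = j).card =
        (Finset.univ.filter fun e => t e = x ∧ col e = j).card ∧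
      (Finset.univ.filter fun e => s e = x).card ≤
        8 * (Finset.univ.filter fun e => s e = x ∧ col e = j).card + 100 := by
  simp only [bugrb_eq] at h ⊢
  obtain ⟨c1, h1⟩ := bugrb_halve s t h
  obtain ⟨c2, h2⟩ := bugrb_halve (fun e => (s e, c1 e)) (fun e => (t e, c1 e))
    fun x => (h1 x.1 x.2).1
  obtain ⟨c3, h3⟩ := bugrb_halve (fun e => ((s e, c1 e), c2 e)) (fun e => ((t e, c1 e), c2 e))
    fun x => (h2 x.1 x.2).1
  have key : ∀ (u : E → X) x (k : Bool × Bool × Bool),
      bugrb_cnt (fun e => u e = x ∧ (c1 e, c2 e, c3 e) = k) =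
      bugrb_cnt fun e => (((u e, c1 e), c2 e), c3 e) = (((x, k.1), k.2.1), k.2.2) :=
    fun u x k => bugrb_congr fun e => by simp only [Prod.ext_iff, and_assoc]
  refine ⟨fun e => bugrb_m (c1 e, c2 e, c3 e), fun x j => ⟨?_, ?_⟩⟩
  · rw [bugrb_fib s (fun e => (c1 e, c2 e, c3 e)), bugrb_fib t (fun e => (c1 e, c2 e, c3 e))]
    refine Finset.sum_congr rfl fun k _ => ?_
    rw [key, key]
    exact (h3 _ _).1
  · obtain ⟨k, rfl⟩ := bugrb_m_surj j
    have e0 : bugrb_cnt (fun e => s e = x ∧ (c1 e, c2 e, c3 e) = k) ≤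
        bugrb_cnt fun e => s e = x ∧ bugrb_m (c1 e, c2 e, c3 e) = bugrb_m k :=
      bugrb_mono fun e he => ⟨he.1, by rw [he.2]⟩
    rw [key] at e0
    have e1 := (h1 x k.1).2
    have e2 := (h2 (x, k.1) k.2.1).2
    have e3 := (h3 ((x, k.1), k.2.1) k.2.2).2
    beta_reduce
    omega

end Pool.Agent.MC
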