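import Pool.Agent.P.MP_2677b3_gt.BuPL
import Pool.Agent.P.MP_2677b3_gt.BuCut
import Pool.Agent.P.MP_2677b3_gt.BuFlat

namespace Pool.Agent.MC

theorem bujcut_head {l : List Entry} {d : Dart} (h : (darts l).head? = some d) :
    ∃ e, l.head? = some e ∧ e.1 = d := by
  cases l with
  | nil => simp [darts] at h
  | cons e t => exact ⟨e, rfl, by simpa using h⟩

theorem bujcut_last {l : List Entry} {d : Dart} (h : (darts l).getLast? = some d) :
    ∃ e, l.getLast? = some e ∧ e.1 = d := by
  unfold darts at h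
  rw [List.getLast?_map] at h
  cases hl : l.getLast? with
  | none => simp [hl] at h
  | some e => exact ⟨e, rfl, by simpa [hl] using h⟩

theorem bujcut_ends {d₀ d₁ : Dart} {v : Fin 4 → ℤ} {P Q : List Entry} (h : PP d₀ d₁ v P Q) :
    (∃ p, P.head? = some p ∧ p.1 = d₀) ∧ (∃ p, P.getLast? = some p ∧ p.1 = d₁) ∧
    (∃ q, Q.head? = some q ∧ q.1 = rv d₁) ∧ (∃ q, Q.getLast? = some q ∧ q.1 = rv d₀) := by
  have hd := h.mate.darts
  refine ⟨bujcut_head h.hd, bujcut_last h.lst, bujcut_head ?_, bujcut_last ?_⟩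
  · rw [hd, mirror, List.head?_reverse, List.getLast?_map, h.lst]; rfl
  · rw [hd, mirror, List.getLast?_reverse, List.head?_map, h.hd]; rfl

theorem bujcut_fw {P : List Entry} (h : P.IsChain JR) : (darts P).IsChain Fw := by
  unfold darts
  rw [List.isChain_map]
  exact h.imp fun a b hab => J_fw _ _ hab.1

theorem bujcut_jog {w : List Entry} (h : CChain JR w) : CChain J (darts w) := by
  unfold darts
  rw [cchain_map]
  exact h.imp fun a _ b _ hab => hab.1

theorem bujcut_id1 (d : Dart) : rv (fk 2 (fk 3 d)) = fk 1 d := by revert d; decide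
theorem bujcut_id2 (d : Dart) : fk 2 (rv (fk 1 d)) = fk 3 d := by revert d; decide
theorem bujcut_spl (d : Dart) : Spl d (fk 1 d) (fk 3 d) := by revert d; decide

theorem bujcut_one {a b c c' : Entry} {N P Q : List Entry} (ha : wall a.1 = false)
    (hc : N.head? = some c) (hc' : N.getLast? = some c') (h1 : c.1 = fk 3 a.1) (h2 : 3 ≤ c.2.rk)
    (h3 : wall c'.1 = false) (h4 : b.1 = fk 3 c'.1) (hN : N.IsChain JR)
    (hP : PP (fk 1 a.1) (fk 2 b.1) (thL N) P Q) :
    CChain JR (N ++ Q) ∧ thL (N ++ Q) = 0 ∧ Rw (a :: N ++ [b]) (a :: P ++ [b]) [N ++ Q] := by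
  obtain ⟨⟨p, hp, hp1⟩, -, ⟨q, hq, hq1⟩, ⟨q', hq', hq1'⟩⟩ := bujcut_ends hP
  have hqc : q.1 = fk 1 c'.1 := by rw [hq1, h4, bujcut_id1]
  have hN0 : N ≠ [] := by rintro rfl; simp at hc
  have hQ0 : Q ≠ [] := by rintro rfl; simp at hq
  refine ⟨?_, ?_, ?_⟩
  · rw [cchain_iff]
    refine ⟨by simp [hN0], ?_, ?_⟩
    · rw [List.isChain_append]
      refine ⟨hN, hP.chQ, ?_⟩
      intro x hx y hy
      have ex : x = c' := by rw [hc'] at hx; exact (Option.some.inj hx).symm
      have ey : y = q := by rw [hq] at hy; exact (Option.some.inj hy).symm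
      subst ex ey
      refine ⟨?_, fun hw => by rw [h3] at hw; exact absurd hw (by simp)⟩
      unfold J
      rw [h3, hqc]
      simp
    · intro x hx y hy
      rw [List.getLast?_append_of_ne_nil _ hQ0, hq'] at hx
      rw [List.head?_append_of_ne_nil _ hN0, hc] at hy
      have ex : x = q' := (Option.some.inj hx).symm
      have ey : y = c := (Option.some.inj hy).symm
      subst ex ey
      have hw : wall x.1 = true := by
        rw [hq1', wall_rv, (wall_fk a.1).1, ha]; rfl
      refine ⟨?_, fun _ _ => ?_⟩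
      · unfold J
        rw [hw, if_pos rfl]
        left
        rw [h1, hq1', bujcut_id2]
      · have := (hP.tgQ x (List.mem_of_getLast? hq')).2
        omega
  · rw [thL_append, thL_mirror hP.mate.darts, hP.th]; simp
  · refine rw_cut hP.mate (bujcut_fw hP.chP) hp hq hc hc' ?_ ?_
    · rw [hp1, h1]; exact bujcut_spl _
    · rw [hqc, h4]; exact bujcut_spl _

/-- A jog path between two stubs that cuts off a closed jog loop with the right invariants. -/
theorem jcut {a b c c' : Entry} {N : List Entry} (ha : wall a.1 = false)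
    (hc : N.head? = some c) (hc' : N.getLast? = some c') (h1 : c.1 = fk 3 a.1) (h2 : 3 ≤ c.2.rk)
    (h3 : wall c'.1 = false) (h4 : b.1 = fk 3 c'.1) (hN : N.IsChain JR) :
    ∃ P Q, PP (fk 1 a.1) (fk 2 b.1) (thL N) P Q ∧ CChain JR (N ++ Q) ∧ thL (N ++ Q) = 0 ∧
      alL (N ++ Q) = 2 ∧ Rw (a :: N ++ [b]) (a :: P ++ [b]) [N ++ Q] := by
  have w0 : wall (fk 1 a.1) = true := by rw [(wall_fk a.1).1, ha]; rfl
  have w1 : wall (fk 2 b.1) = true := by
    rw [(wall_fk b.1).2.1, h4, (wall_fk c'.1).2.2, h3]; rfl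
  obtain ⟨P, Q, P', Q', hP, hP', hal⟩ := pl _ _ w0 w1 (thL N)
  obtain ⟨c1, t1, r1⟩ := bujcut_one ha hc hc' h1 h2 h3 h4 hN hP
  obtain ⟨c2, t2, r2⟩ := bujcut_one ha hc hc' h1 h2 h3 h4 hN hP'
  rcases alL_jog (bujcut_jog c1) with h0 | h0
  · refine ⟨P', Q', hP', c2, t2, ?_, r2⟩
    rw [alL_append, alL_mirror hP.mate.darts] at h0
    rw [alL_append, alL_mirror hP'.mate.darts, hal]
    have e : alL N + -(alL P + 2) = (alL N + -alL P) - 2 := by ring
    rw [e, h0]; decide
  · exact ⟨P, Q, hP, c1, t1, h0, r1⟩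

/-- The loop cut off is good when its part `N` stays near a centre. -/
theorem good_of_cut {d₀ d₁ : Dart} {N P Q : List Entry} (hP : PP d₀ d₁ (thL N) P Q)
    (hc : CChain JR (N ++ Q)) (ha : alL (N ++ Q) = 2) (ht : ∀ e ∈ N, KT 5 e)
    (hl : N.length ≤ 500000) (hn : ∃ z, Near 980 z N) : Good (N ++ Q) := by
  obtain ⟨z, hz⟩ := hn
  have hQ : thL Q = -thL N := by rw [thL_mirror hP.mate.darts, hP.th]
  have hlen : Q.length = P.length := by
    have := congrArg List.length hP.mate.darts
    simpa [mirror] using this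
  have hB : InB ((1960 : ℕ) : ℤ) (thL N) := by
    have h := hz.start.sub hz.finish
    have e : z - (z - thL N) = thL N := by ring
    rw [e] at h
    exact h.mono (by norm_num)
  have hPl := hP.len 1960 hB
  refine ⟨⟨hc, ?_, ?_, z, ?_⟩, ?_, ha⟩
  · intro e he
    rcases List.mem_append.1 he with he | he
    · exact ht e he
    · obtain ⟨e1, e2⟩ := hP.tgQ e he
      exact ⟨by omega, Or.inr e1⟩
  · rw [List.length_append]; omega
  · rw [near_append]
    refine ⟨hz.mono (by norm_num), ?_⟩
    have h := hP.hullQ 980 (z - thL N) hz.finish (by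
      have e : z - thL N - thL Q = z := by rw [hQ]; ring
      rw [e]; exact hz.start)
    exact h.mono (by norm_num)
  · rw [thL_append, hQ]; simp

/-- Gluing a path between a seam `a` and a wall `b` of rank at least three. -/
theorem PP.chain {a b : Entry} {v : Fin 4 → ℤ} {P Q : List Entry}
    (hP : PP (fk 1 a.1) (fk 2 b.1) v P Q) (ha : wall a.1 = false) (hb : wall b.1 = true)
    (hr : 3 ≤ b.2.rk) : (a :: P ++ [b]).IsChain JR := by
  obtain ⟨⟨p, hp, hp1⟩, ⟨p', hp', hp1'⟩, -, -⟩ := bujcut_ends hP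
  have hP0 : P ≠ [] := by rintro rfl; simp at hp
  rw [List.isChain_append]
  refine ⟨?_, List.isChain_singleton _, ?_⟩
  · rw [List.isChain_cons]
    refine ⟨?_, hP.chP⟩
    intro y hy
    rw [hp] at hy
    have ey : y = p := (Option.some.inj hy).symm
    subst ey
    refine ⟨?_, fun hw => by rw [ha] at hw; exact absurd hw (by simp)⟩
    unfold J
    rw [ha, hp1]
    simp
  · intro x hx y hy
    have e : (a :: P).getLast? = P.getLast? := List.getLast?_append_of_ne_nil [a] hP0
    rw [e, hp'] at hx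
    have ex : x = p' := (Option.some.inj hx).symm
    have ey : y = b := (Option.some.inj hy).symm
    subst ex ey
    have hw : wall x.1 = true := by rw [hp1', (wall_fk y.1).2.1, hb]
    refine ⟨?_, fun _ _ => ?_⟩
    · unfold J
      rw [hw, if_pos rfl]
      left
      rw [hp1', fk_two_two]
    · have := (hP.tgP x (List.mem_of_getLast? hp')).2
      omega

theorem bujcut_hdD (us us' : List (Entry × List Entry)) (n : Dart) :
    hdD (us ++ us') n = hdD us (hdD us' n) := by
  cases us <;> rfl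

theorem UCh.split {us us' : List (Entry × List Entry)} {n : Dart} :
    UCh (us ++ us') n ↔ UCh us (hdD us' n) ∧ UCh us' n := by
  induction us with
  | nil => simp [UCh]
  | cons U us ih =>
    rw [List.cons_append, UCh, UCh, ih, bujcut_hdD]
    tauto

end Pool.Agent.MC
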