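import Pool.Agent.P.MP_2677b3_gt.BuGeom

namespace Pool.Agent.MC

/-- Runs of walls, each followed by a seam, with the ranks on both sides. -/
def buplBlk : Dart → List ℕ → List (Dart × ℕ × ℕ)
  | _, [] => []
  | d, r :: rs =>
    ((List.range r).map fun k => (if k % 2 = 0 then d else fk 2 d, k, r - 1 - k)) ++
      (fk 3 (if r % 2 = 1 then d else fk 2 d), 0, 0) ::
        buplBlk (fk 1 (fk 3 (if r % 2 = 1 then d else fk 2 d))) rs

theorem buplBlk_realize : True := by have := @buplBlk.eq_def; trivial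

def buplF (l : List (Dart × ℕ × ℕ)) : List Entry := l.map fun x => (x.1, Tag.free x.2.1)

def buplB (l : List (Dart × ℕ × ℕ)) : List Entry :=
  (l.map fun x => (rv x.1, Tag.free x.2.2)).reverse

theorem bupl_mate (l : List (Dart × ℕ × ℕ)) : Mate (buplF l) (buplB l) := by
  unfold Mate buplF buplB
  rw [List.reverse_reverse, List.forall₂_map_left_iff, List.forall₂_map_right_iff,
    List.forall₂_same]
  intro x _
  exact ⟨rfl, rfl⟩

/-- A block from the wall `d` to the wall `d'`. -/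
def BuplBlock (d d' : Dart) (l : List (Dart × ℕ × ℕ)) : Prop :=
  (buplF l).IsChain JR ∧ (buplB l).IsChain JR ∧ (∀ x ∈ l, x.2.1 ≤ 2 ∧ x.2.2 ≤ 2) ∧
    (∀ x ∈ l.getLast?, wall x.1 = false ∧ d' = fk 1 x.1) ∧ (l.map Prod.fst ++ [d']).head? = some d

instance buplBlockDec (d d' : Dart) (l : List (Dart × ℕ × ℕ)) : Decidable (BuplBlock d d' l) := by
  unfold BuplBlock; infer_instance

instance buplNearDec (ρ : ℤ) : ∀ (z : Fin 4 → ℤ) (l : List Entry), Decidable (Near ρ z l)
  | z, [] => inferInstanceAs (Decidable (∀ i, |z i| ≤ ρ))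
  | z, e :: l => @instDecidableAnd _ _ (inferInstanceAs (Decidable (∀ i, |z i| ≤ ρ)))
      (buplNearDec ρ (z - th e.1) l)

/-- The conditions on a jog path that do not involve positions. -/
structure BuplTail (d₀ d₁ : Dart) (P Q : List Entry) : Prop where
  mate : Mate P Q
  chP : P.IsChain JR
  chQ : Q.IsChain JR
  tgP : ∀ e ∈ P, e.2 = .free e.2.rk ∧ e.2.rk ≤ 2
  tgQ : ∀ e ∈ Q, e.2 = .free e.2.rk ∧ e.2.rk ≤ 2
  hd : (darts P).head? = some d₀
  lst : (darts P).getLast? = some d₁

theorem bupl_tail_one (d : Dart) : BuplTail d d [(d, .free 0)] [(rv d, .free 0)] where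
  mate := bupl_mate [(d, 0, 0)]
  chP := List.isChain_singleton _
  chQ := List.isChain_singleton _
  tgP := by simp [Tag.rk]
  tgQ := by simp [Tag.rk]
  hd := rfl
  lst := rfl

theorem bupl_tail_cons {d d' d₁ : Dart} {l : List (Dart × ℕ × ℕ)} {P Q : List Entry}
    (hl : BuplBlock d d' l) (h : BuplTail d' d₁ P Q) :
    BuplTail d d₁ (buplF l ++ P) (Q ++ buplB l) := by
  obtain ⟨h1, h2, h3, h4, h5⟩ := hl
  have hJ : ∀ s : Dart, wall s = false → J s (fk 1 s) := by decide
  have hP : ∀ y ∈ P.head?, y.1 = d' := by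
    intro y hy
    have := h.hd
    rw [darts, List.head?_map, Option.mem_def.1 hy] at this
    exact Option.some.inj this
  have hQ : ∀ y ∈ Q.getLast?, y.1 = rv d' := by
    intro y hy
    have h6 : (darts Q).getLast? = some (rv d') := by
      rw [h.mate.darts, mirror, List.getLast?_reverse, List.head?_map, h.hd]
      rfl
    rw [darts, List.getLast?_map, Option.mem_def.1 hy] at h6
    exact Option.some.inj h6
  refine ⟨(bupl_mate l).append h.mate, h1.append h.chP ?_, h.chQ.append h2 ?_, ?_, ?_, ?_, ?_⟩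
  · intro x hx y hy
    rw [buplF, List.getLast?_map] at hx
    obtain ⟨x', hx', rfl⟩ := Option.mem_map.1 hx
    obtain ⟨h6, h7⟩ := h4 x' hx'
    refine ⟨?_, fun hw => ?_⟩
    · rw [hP y hy, h7]
      exact hJ _ h6
    · rw [h6] at hw
      cases hw
  · intro y hy x hx
    rw [buplB, List.head?_reverse, List.getLast?_map] at hx
    obtain ⟨x', hx', rfl⟩ := Option.mem_map.1 hx
    obtain ⟨h6, h7⟩ := h4 x' hx'
    refine ⟨?_, fun _ hw => ?_⟩
    · rw [hQ y hy, h7]
      exact J_mirror _ _ (hJ _ h6)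
    · rw [wall_rv, h6] at hw
      cases hw
  · intro e he
    rcases List.mem_append.1 he with he | he
    · obtain ⟨x, hx, rfl⟩ := List.mem_map.1 he
      exact ⟨rfl, (h3 x hx).1⟩
    · exact h.tgP e he
  · intro e he
    rcases List.mem_append.1 he with he | he
    · exact h.tgQ e he
    · obtain ⟨x, hx, rfl⟩ := List.mem_map.1 (List.mem_reverse.1 he)
      exact ⟨rfl, (h3 x hx).2⟩
  · rcases l with _ | ⟨x, l⟩
    · have h6 : d' = d := by simpa using h5
      rw [← h6]
      exact h.hd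
    · exact h5
  · rw [darts_append, List.getLast?_append, h.lst]
    rfl

theorem bupl_near_add {ρ a : ℤ} {l : List Entry} :
    ∀ {y z : Fin 4 → ℤ}, Near a y l → InB ρ z → Near (ρ + a) (z + y) l := by
  induction l with
  | nil => exact fun h hz => hz.add h
  | cons e l ih =>
    intro y z h hz
    refine ⟨hz.add h.1, ?_⟩
    rw [add_sub_assoc]
    exact ih h.2 hz

/-- The loops at the base wall. -/
def buplLoop (i : Fin 4) (b : Bool) : List ℕ :=
  if b then ![[3, 1, 1, 1, 1, 1], [1, 1, 1, 1, 3, 1], [3, 3, 1, 1, 2, 2, 1, 1],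
    [1, 1, 2, 2, 1, 1, 3, 3]] i
  else ![[1, 1, 1, 3, 1, 1], [1, 3, 1, 1, 1, 1], [1, 2, 2, 1, 1, 3, 3, 1],
    [1, 3, 3, 1, 1, 2, 2, 1]] i

theorem bupl_loop : ∀ (i : Fin 4) (b : Bool),
    BuplBlock (0, 0, 0) (0, 0, 0) (buplBlk (0, 0, 0) (buplLoop i b)) ∧
    (∀ j, thL (buplF (buplBlk (0, 0, 0) (buplLoop i b))) j =
      if j = i then (if b then 1 else -1) else 0) ∧
    alL (buplF (buplBlk (0, 0, 0) (buplLoop i b))) = 0 ∧
    Near 3 0 (buplF (buplBlk (0, 0, 0) (buplLoop i b))) ∧
    (buplF (buplBlk (0, 0, 0) (buplLoop i b))).length ≤ 22 := by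
  decide +kernel

theorem bupl_loops {d₁ : Dart} {P Q : List Entry} (h : BuplTail (0, 0, 0) d₁ P Q) (n : ℕ) :
    ∀ w : Fin 4 → ℤ, ∑ i, (w i).natAbs = n → ∃ L L', BuplTail (0, 0, 0) d₁ (L ++ P) (Q ++ L') ∧
      thL L = w ∧ alL L = 0 ∧ Hull 3 L ∧ L.length ≤ 22 * n := by
  induction n with
  | zero =>
    intro w hw
    have h0 : w = 0 := by
      funext i
      have := (Finset.sum_eq_zero_iff.1 hw) i (Finset.mem_univ i)
      exact Int.natAbs_eq_zero.1 this
    refine ⟨[], [], by simpa using h, h0.symm, rfl, fun ρ z hz _ => ?_, le_rfl⟩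
    exact hz.mono (by omega)
  | succ n ih =>
    intro w hw
    obtain ⟨i, hi⟩ : ∃ i, w i ≠ 0 := by
      by_contra hc
      push Not at hc
      simp [hc] at hw
    obtain ⟨k1, k2, k3, k4, k5⟩ := bupl_loop i (decide (0 < w i))
    set B := buplBlk (0, 0, 0) (buplLoop i (decide (0 < w i))) with hB
    have k6 : ∀ j, thL (buplF B) j = if j = i then (if 0 < w i then 1 else -1) else 0 := by
      intro j
      rw [k2 j]
      simp only [decide_eq_true_eq]
    have hs : ∑ j, ((w - thL (buplF B)) j).natAbs = n := by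
      rw [← Finset.add_sum_erase _ _ (Finset.mem_univ i)] at hw ⊢
      have h1 : ∑ j ∈ Finset.univ.erase i, ((w - thL (buplF B)) j).natAbs =
          ∑ j ∈ Finset.univ.erase i, (w j).natAbs := by
        refine Finset.sum_congr rfl fun j hj => ?_
        rw [Pi.sub_apply, k6 j, if_neg (Finset.ne_of_mem_erase hj), sub_zero]
      rw [h1, Pi.sub_apply, k6 i, if_pos rfl]
      split_ifs <;> omega
    obtain ⟨L, L', t1, t2, t3, t4, t5⟩ := ih _ hs
    refine ⟨buplF B ++ L, L' ++ buplB B, ?_, ?_, ?_, ?_, ?_⟩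
    · rw [List.append_assoc, ← List.append_assoc Q]
      exact bupl_tail_cons k1 t1
    · rw [thL_append, t2, add_sub_cancel]
    · rw [alL_append, t3, k3, add_zero]
    · intro ρ z hz hz'
      rw [thL_append, ← sub_sub] at hz'
      refine near_append.2 ⟨by simpa using bupl_near_add k4 hz, t4 ρ _ (fun j => ?_) hz'⟩
      have a1 := abs_le.1 (hz j)
      have a2 := abs_le.1 (hz' j)
      rw [t2] at a2
      simp only [Pi.sub_apply] at a2 ⊢
      rw [abs_le]
      have a3 := k6 j
      split_ifs at a3 with c1 c2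
      · subst c1
        omega
      · subst c1
        omega
      · omega
    · rw [List.length_append]
      omega

/-- Connections to the base wall. -/
def buplIn (d : Dart) : List ℕ :=
  if d = (0, 0, 0) then [] else if d = (0, 0, 2) then [1, 1] else
  if d = (0, 0, 4) then [1, 1, 1, 1] else if d = (0, 1, 0) then [1, 2] else
  if d = (0, 1, 2) then [2, 1] else if d = (0, 1, 4) then [1, 1, 1, 2] else
  if d = (1, 0, 0) then [2, 1, 1] else if d = (1, 0, 2) then [1, 1, 2] else
  if d = (1, 0, 4) then [2] else if d = (1, 1, 0) then [1, 1, 1] else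
  if d = (1, 1, 2) then [2, 1, 2] else [1]

/-- Connections from the base wall. -/
def buplOut (d : Dart) : List ℕ :=
  if d = (0, 0, 0) then [] else if d = (0, 0, 2) then [1, 1, 1, 1] else
  if d = (0, 0, 4) then [1, 1] else if d = (0, 1, 0) then [1, 2] else
  if d = (0, 1, 2) then [2, 1] else if d = (0, 1, 4) then [1, 1, 1, 2] else
  if d = (1, 0, 0) then [2, 1, 1] else if d = (1, 0, 2) then [1, 1, 2] else
  if d = (1, 0, 4) then [2] else if d = (1, 1, 0) then [1, 1, 1] else
  if d = (1, 1, 2) then [1] else [2, 1, 2]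

theorem bupl_in : ∀ d : Dart, wall d = true →
    (BuplBlock d (0, 0, 0) (buplBlk d (buplIn d)) ∧ Near 10 0 (buplF (buplBlk d (buplIn d))) ∧
      (buplF (buplBlk d (buplIn d))).length ≤ 30) ∧
    (BuplBlock d (0, 0, 0) (buplBlk d (buplIn d ++ [1, 1, 1, 1, 1, 1])) ∧
      Near 10 0 (buplF (buplBlk d (buplIn d ++ [1, 1, 1, 1, 1, 1]))) ∧
      (buplF (buplBlk d (buplIn d ++ [1, 1, 1, 1, 1, 1]))).length ≤ 30) ∧
    alL (buplF (buplBlk d (buplIn d ++ [1, 1, 1, 1, 1, 1]))) =
      alL (buplF (buplBlk d (buplIn d))) + 2 := by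
  decide +kernel

theorem bupl_out : ∀ d : Dart, wall d = true →
    BuplBlock (0, 0, 0) d (buplBlk (0, 0, 0) (buplOut d)) ∧
      (buplF (buplBlk (0, 0, 0) (buplOut d))).length ≤ 9 := by
  decide +kernel

theorem bupl_main {d₀ d₁ : Dart} (v : Fin 4 → ℤ) {A : List (Dart × ℕ × ℕ)} {P Q : List Entry}
    (hA : BuplBlock d₀ (0, 0, 0) A ∧ Near 10 0 (buplF A) ∧ (buplF A).length ≤ 30)
    (h : BuplTail (0, 0, 0) d₁ P Q) (hP : P.length ≤ 10) :
    ∃ P' Q', PP d₀ d₁ v P' Q' ∧ alL P' = alL (buplF A) + alL P := by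
  obtain ⟨a1, a2, a3⟩ := hA
  obtain ⟨L, L', t1, t2, t3, t4, t5⟩ := bupl_loops h _ (v - thL (buplF A) - thL P) rfl
  have t := bupl_tail_cons a1 t1
  have hα : InB 10 (thL (buplF A)) := by
    have := a2.finish.neg
    simpa using this
  have hβ : InB 10 (thL P) := (inB_thL P).mono (by exact_mod_cast hP)
  have hth : thL (buplF A ++ (L ++ P)) = v := by
    rw [thL_append, thL_append, t2]
    abel
  have hh : Hull 20 (buplF A ++ (L ++ P)) := by
    intro ρ z hz hz'
    rw [hth] at hz'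
    have b1 : InB (ρ + 10) (z - thL (buplF A) - thL L) := by
      have := hz'.add hβ
      have e : z - v + thL P = z - thL (buplF A) - thL L := by
        rw [t2]
        abel
      rwa [e] at this
    refine near_append.2 ⟨?_, near_append.2 ⟨?_, ?_⟩⟩
    · have := bupl_near_add a2 hz
      rw [add_zero] at this
      exact this.mono (by omega)
    · exact (t4 _ _ (hz.sub hα) b1).mono (by omega)
    · exact (near_short b1 P).mono (by omega)
  refine ⟨_, _, ⟨t.mate, t.chP, t.chQ, t.tgP, t.tgQ, t.hd, t.lst, hth, hh,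
    hh.mirror t.mate.darts, fun ρ hρ => ?_⟩, ?_⟩
  · have b1 := (hρ.sub hα).sub hβ
    have b2 : ∀ i, ((v - thL (buplF A) - thL P) i).natAbs ≤ ρ + 20 := by
      intro i
      have := abs_le.1 (b1 i)
      omega
    rw [Fin.sum_univ_four] at t5
    have c0 := b2 0
    have c1 := b2 1
    have c2 := b2 2
    have c3 := b2 3
    rw [List.length_append, List.length_append]
    omega
  · rw [alL_append, alL_append, t3, zero_add]

/-- Jog paths between walls with any displacement and both values of the area form. -/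
theorem pl (d₀ d₁ : Dart) (h₀ : wall d₀ = true) (h₁ : wall d₁ = true) (v : Fin 4 → ℤ) :
    ∃ P Q P' Q', PP d₀ d₁ v P Q ∧ PP d₀ d₁ v P' Q' ∧ alL P' = alL P + 2 := by
  obtain ⟨a1, a2, a3⟩ := bupl_in d₀ h₀
  obtain ⟨b1, b2⟩ := bupl_out d₁ h₁
  have t := bupl_tail_cons b1 (bupl_tail_one d₁)
  have hl : (buplF (buplBlk (0, 0, 0) (buplOut d₁)) ++ [(d₁, Tag.free 0)]).length ≤ 10 := by
    rw [List.length_append, List.length_singleton]
    omega
  obtain ⟨P, Q, h, e⟩ := bupl_main v a1 t hl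
  obtain ⟨P', Q', h', e'⟩ := bupl_main v a2 t hl
  refine ⟨P, Q, P', Q', h, h', ?_⟩
  rw [e, e', a3]
  ring

end Pool.Agent.MC
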