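import Pool.Agent.P.MP_2677b3_gt.BuJcut

namespace Pool.Agent.MC

theorem bupeta_out (d : Dart) (h : wall d = false) : wall (out 5 d) = true ∧
    wall (out 4 d) = false ∧ wall (out 3 d) = true ∧ wall (out 2 d) = false ∧
    wall (out 1 d) = true ∧ out 4 d = fk 3 (out 5 d) ∧ out 3 d = fk 3 (out 4 d) ∧
    out 2 d = fk 3 (out 3 d) ∧ out 1 d = fk 3 (out 2 d) ∧ fk 3 d = fk 2 (out 1 d) := by
  revert d; decide +kernel

theorem bupeta_th (d : Dart) :
    th d = th (out 5 d) + th (out 4 d) + th (out 3 d) + th (out 2 d) + th (out 1 d) := by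
  revert d; decide +kernel

theorem bupeta_five (d : Dart) : out 5 (fk 3 d) = fk 2 d := by revert d; decide +kernel

attribute [local irreducible] out fk wall th

theorem bupeta_jw {a b : Entry} (ha : wall a.1 = true) (hb : b.1 = fk 2 a.1)
    (hr : a.2.rk < b.2.rk) : JR a b := ⟨by simp [J, ha, hb], fun _ _ => hr⟩

theorem bupeta_js {a b : Entry} (ha : wall a.1 = true) (hb : b.1 = fk 3 a.1) : JR a b :=
  ⟨by simp [J, ha, hb], fun _ h => by
    rw [hb, (wall_fk a.1).2.2, ha] at h
    exact absurd h (by simp)⟩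

theorem bupeta_last (A : List Entry) (x y : Entry) : (A ++ [x, y]).getLast? = some y := by
  rw [List.getLast?_append]; rfl

theorem bupeta_kt (d : Dart) {r : ℕ} (hr : r ≤ 5) : KT 5 (d, Tag.free r) := ⟨hr, Or.inr rfl⟩

theorem bupeta_near {ρ : ℤ} {z : Fin 4 → ℤ} {l : List Entry} (h : Near ρ z l)
    (A B : List Entry) : Near (ρ + A.length + B.length) (z + thL A) (A ++ l ++ B) := by
  rw [near_append, near_append]
  refine ⟨⟨?_, ?_⟩, ?_⟩
  · have h1 := hull_short A ρ.natAbs (z + thL A)
    refine (Near.mono (ρ := ρ + A.length) ?_ (by omega))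
    clear h1
    induction A with
    | nil => simpa [Near] using h.start
    | cons e A ih =>
      refine ⟨?_, ?_⟩
      · simpa using h.start.add (inB_thL (e :: A))
      · have : z + thL (e :: A) - th e.1 = z + thL A := by simp only [thL_cons]; abel
        rw [this]
        exact ih.mono (by simp)
  · rw [add_sub_cancel_right]
    exact h.mono (by omega)
  · have : z + thL A - thL (A ++ l) = z - thL l := by simp only [thL_append]; abel
    rw [this]
    exact (near_short h.finish B).mono (by omega)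

/-- The first tile. -/
theorem bupeta_tile {f : Entry} {Q : List Entry} (h : PS f Q) :
    (∀ F, Real ((f :: Q) :: F) → Real ((([(out 3 f.1, Tag.free 3), (out 2 f.1, Tag.free 0),
      (out 1 f.1, Tag.free 4)] : List Entry) ++
        (Q ++ [(out 5 f.1, Tag.free 5), (out 4 f.1, Tag.free 0)])) :: F)) ∧
    (((out 1 f.1, Tag.free 4) : Entry) ::
      (Q ++ [(out 5 f.1, Tag.free 5), (out 4 f.1, Tag.free 0)])).IsChain JR := by
  obtain ⟨t, rfl⟩ := h.hd
  obtain ⟨o5, o4, o3, o2, o1, e4, e3, e2, e1, e0⟩ := bupeta_out f.1 h.seam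
  rcases t.eq_nil_or_concat' with rfl | ⟨T, ql, rfl⟩
  · have := (h.lst _ rfl).2.1
    simp [Tag.rk] at this
  obtain ⟨hw, hr, hf⟩ := h.lst ql (by
    rw [← List.cons_append, List.getLast?_concat]; rfl)
  constructor
  · intro F hF
    have h1 : Real (([ql, f, (fk 3 f.1, Tag.free 5)] ++ T) :: F) :=
      Real.rot (A := f :: (fk 3 f.1, Tag.free 5) :: T) (B := [ql]) hF
    have h2 := rw_tile5 (a := ql) (b := (fk 3 f.1, Tag.free 5)) (f := f) (.free 5) (.free 0)
      (.free 3) (.free 0) (.free 4) (by rw [hf, (ang_fk ql.1).2.2.1]; omega)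
      (by rw [(ang_fk f.1).2.2.1]; omega) T F h1
    have h3 := Real.rot (A := [ql, (out 5 f.1, Tag.free 5), (out 4 f.1, Tag.free 0)])
      (B := [(out 3 f.1, Tag.free 3), (out 2 f.1, Tag.free 0), (out 1 f.1, Tag.free 4),
        (fk 3 f.1, Tag.free 5)] ++ T) h2
    simpa using h3
  · rw [List.cons_append, List.isChain_cons_cons, ← List.cons_append]
    refine ⟨bupeta_jw o1 e0 (by simp [Tag.rk]), ?_⟩
    rw [List.isChain_append]
    refine ⟨h.ch, by simpa using bupeta_js (a := (out 5 f.1, Tag.free 5)) o5 e4, ?_⟩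
    intro x hx y hy
    rw [← List.cons_append, List.getLast?_concat] at hx
    obtain rfl : ql = x := by simpa using hx
    obtain rfl : (out 5 f.1, Tag.free 5) = y := by simpa using hy
    exact bupeta_jw hw (by rw [hf, bupeta_five]) (by simpa [Tag.rk] using Nat.lt_succ_of_le hr)

theorem bupeta_P {d₀ d₁ : Dart} {v : Fin 4 → ℤ} {P Q : List Entry} (hP : PP d₀ d₁ v P Q)
    (hv : InB 5 v) : (∀ e ∈ P, KT 5 e) ∧ P.length ≤ 2500 ∧ Near 25 0 P := by
  refine ⟨fun e he => ⟨(hP.tgP e he).2.trans (by omega), Or.inr (hP.tgP e he).1⟩,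
    hP.len 5 hv, hP.hullP 5 0 (fun _ => by simp) ?_⟩
  rw [zero_sub, hP.th]
  exact hv.neg

theorem petal_plain {f : Entry} {Q : List Entry} (h : PS f Q) :
    ∃ f' Q' k, PS f' Q' ∧ Good k ∧ RwC (f :: Q) [f' :: Q', k] := by
  obtain ⟨hR, hch⟩ := bupeta_tile h
  obtain ⟨o5, o4, o3, o2, o1, e4, e3, e2, e1, e0⟩ := bupeta_out f.1 h.seam
  obtain ⟨p5, p4, p3, p2, p1, g4, g3, g2, g1, g0⟩ := bupeta_out _ o2
  have t1 := bupeta_th f.1
  have t2 := bupeta_th (out 2 f.1)
  have t3 := h.th
  have e5 : out 5 (out 2 f.1) = fk 2 (out 3 f.1) := by rw [e2, bupeta_five]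
  generalize hs : out 2 f.1 = s at *
  obtain ⟨P, Q₁, hP, hc, -, ha, hRw⟩ := jcut (a := (out 2 s, .free 0)) (b := (out 3 f.1, .free 3))
    (c := (out 1 s, .free 3)) (c' := (out 4 f.1, .free 0))
    (N := [(out 1 s, Tag.free 3), (out 1 f.1, Tag.free 4)] ++ Q ++
      [(out 5 f.1, Tag.free 5), (out 4 f.1, Tag.free 0)]) p2 rfl (bupeta_last _ _ _) g1 le_rfl o4 e3 (by
      rw [List.append_assoc]
      exact List.isChain_cons_cons.2 ⟨bupeta_jw p1 (e1.trans g0) (by simp [Tag.rk]), hch⟩)
  have hth : thL ([(out 1 s, Tag.free 3), (out 1 f.1, Tag.free 4)] ++ Q ++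
      [(out 5 f.1, Tag.free 5), (out 4 f.1, Tag.free 0)]) =
      -thL [(out 4 s, Tag.free 0), (out 3 s, Tag.free 5), (out 2 s, Tag.free 0),
        (out 3 f.1, Tag.free 3), (out 5 s, Tag.free 4)] := by
    simp only [thL_append, thL_cons, thL_nil] at t3 ⊢
    linear_combination t3 - t1 - t2
  obtain ⟨k1, k2, k3⟩ := bupeta_P hP (by rw [hth]; exact (inB_thL _).neg)
  refine ⟨(out 4 s, .free 0), [(out 3 s, .free 5), (out 2 s, .free 0)] ++ P ++
    [(out 3 f.1, .free 3), (out 5 s, .free 4)], _, ⟨p4, ⟨_, by rw [g3]; rfl⟩, ?_, ?_, ?_, ?_,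
      ⟨_, (bupeta_near k3 _ _).mono (by simp)⟩, ?_⟩, good_of_cut hP hc ha ?_ ?_ ?_, fun F hF => ?_⟩
  · have h1 := hP.chain (a := (out 2 s, .free 0)) (b := (out 3 f.1, .free 3)) p2 o3 le_rfl
    have h2 : ([(out 3 s, .free 5), (out 2 s, .free 0)] ++ P ++
        [(out 3 f.1, .free 3), (out 5 s, .free 4)] : List Entry) = (out 3 s, .free 5) ::
          (out 2 s, .free 0) :: ((P ++ [(out 3 f.1, .free 3)]) ++ [(out 5 s, .free 4)]) := by simp
    rw [h2, List.isChain_cons_cons, ← List.cons_append, List.isChain_append]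
    refine ⟨bupeta_js p3 g2, h1, by simp, fun x hx y hy => ?_⟩
    rw [← List.cons_append, List.getLast?_concat] at hx
    obtain rfl : (out 3 f.1, Tag.free 3) = x := by simpa using hx
    obtain rfl : (out 5 s, Tag.free 4) = y := by simpa using hy
    exact bupeta_jw o3 e5 (by simp [Tag.rk])
  · intro e he
    simp only [List.mem_append, List.mem_cons, List.not_mem_nil, or_false] at he
    rcases he with ((rfl | rfl) | he) | rfl | rfl
    exacts [bupeta_kt _ (by omega), bupeta_kt _ (by omega), k1 e he, bupeta_kt _ (by omega),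
      bupeta_kt _ (by omega)]
  · intro e he
    rw [bupeta_last] at he
    obtain rfl : (out 5 s, Tag.free 4) = e := by simpa using he
    exact ⟨p5, le_rfl, g4⟩
  · simp only [List.length_append, List.length_cons, List.length_nil]
    omega
  · rw [thL_cons, thL_append, thL_append, hP.th, hth]
    simp only [thL_cons, thL_nil]
    abel
  · intro e he
    simp only [List.mem_append, List.mem_cons, List.not_mem_nil, or_false] at he
    rcases he with ((rfl | rfl) | he) | rfl | rfl
    exacts [bupeta_kt _ (by omega), bupeta_kt _ (by omega), h.tg e he, bupeta_kt _ (by omega),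
      bupeta_kt _ (by omega)]
  · have := h.len
    simp only [List.length_append, List.length_cons, List.length_nil]
    omega
  · obtain ⟨z, hz⟩ := h.near
    exact ⟨_, (bupeta_near hz _ _).mono (by simp)⟩
  · have h1 := rw_tile5 (a := (out 3 f.1, .free 3)) (b := (out 1 f.1, .free 4))
      (f := (s, .free 0)) (.free 4) (.free 0) (.free 5) (.free 0) (.free 3)
      (by rw [e2, (ang_fk _).2.2.1]; omega) (by rw [e1, (ang_fk _).2.2.1]; omega) _ F (hR F hF)
    have h2 := Real.rot (A := [(out 3 f.1, Tag.free 3), (out 5 s, Tag.free 4), (out 4 s, Tag.free 0),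
      (out 3 s, Tag.free 5)]) (B := [(out 2 s, Tag.free 0), (out 1 s, Tag.free 3),
        (out 1 f.1, Tag.free 4)] ++ (Q ++ [(out 5 f.1, Tag.free 5), (out 4 f.1, Tag.free 0)])) h1
    have h3 := hRw [(out 5 s, Tag.free 4), (out 4 s, Tag.free 0), (out 3 s, Tag.free 5)] F
      (by simpa using h2)
    have h4 := Real.rot (A := (out 2 s, Tag.free 0) :: P ++
      [(out 3 f.1, Tag.free 3), (out 5 s, Tag.free 4)])
      (B := [(out 4 s, Tag.free 0), (out 3 s, Tag.free 5)]) (by simpa using h3)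
    simpa using h4

theorem petal_close {f : Entry} {Q : List Entry} (h : PS f Q) :
    ∃ k₁ k₂, Good k₁ ∧ PreGood k₂ ∧ thL k₂ = 0 ∧ RwC (f :: Q) [k₂, k₁] := by
  obtain ⟨hR, hch⟩ := bupeta_tile h
  obtain ⟨o5, o4, o3, o2, o1, e4, e3, e2, e1, e0⟩ := bupeta_out f.1 h.seam
  have t1 := bupeta_th f.1
  have t3 := h.th
  obtain ⟨P, Q₁, hP, hc, -, ha, hRw⟩ := jcut (a := (out 2 f.1, .free 0))
    (b := (out 3 f.1, .free 3)) (c := (out 1 f.1, .free 4)) (c' := (out 4 f.1, .free 0))
    (N := [(out 1 f.1, Tag.free 4)] ++ Q ++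
      [(out 5 f.1, Tag.free 5), (out 4 f.1, Tag.free 0)]) o2 rfl (bupeta_last _ _ _) e1 (by simp [Tag.rk])
      o4 e3 (by rw [List.append_assoc]; exact hch)
  have hth : thL ([(out 1 f.1, Tag.free 4)] ++ Q ++
      [(out 5 f.1, Tag.free 5), (out 4 f.1, Tag.free 0)]) =
      -thL [(out 2 f.1, Tag.free 0), (out 3 f.1, Tag.free 3)] := by
    simp only [thL_append, thL_cons, thL_nil] at t3 ⊢
    linear_combination t3 - t1
  obtain ⟨k1, k2, k3⟩ := bupeta_P hP (by rw [hth]; exact (inB_thL _).neg.mono (by simp))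
  refine ⟨_, [(out 2 f.1, .free 0)] ++ P ++ [(out 3 f.1, .free 3)],
    good_of_cut hP hc ha ?_ ?_ ?_, ⟨?_, ?_, ?_, ⟨_, (bupeta_near k3 _ _).mono (by simp)⟩⟩, ?_,
    fun F hF => ?_⟩
  · intro e he
    simp only [List.mem_append, List.mem_cons, List.not_mem_nil, or_false] at he
    rcases he with (rfl | he) | rfl | rfl
    exacts [bupeta_kt _ (by omega), h.tg e he, bupeta_kt _ (by omega), bupeta_kt _ (by omega)]
  · have := h.len
    simp only [List.length_append, List.length_cons, List.length_nil]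
    omega
  · obtain ⟨z, hz⟩ := h.near
    exact ⟨_, (bupeta_near hz _ _).mono (by simp)⟩
  · have h1 := hP.chain (a := (out 2 f.1, .free 0)) (b := (out 3 f.1, .free 3)) o2 o3 le_rfl
    refine cchain_iff.2 ⟨by simp, h1, fun x hx y hy => ?_⟩
    rw [List.getLast?_concat] at hx
    obtain rfl : (out 3 f.1, Tag.free 3) = x := by simpa using hx
    obtain rfl : (out 2 f.1, Tag.free 0) = y := by simpa using hy
    exact bupeta_js o3 e2
  · intro e he
    simp only [List.mem_append, List.mem_cons, List.not_mem_nil, or_false] at he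
    rcases he with (rfl | he) | rfl
    exacts [bupeta_kt _ (by omega), k1 e he, bupeta_kt _ (by omega)]
  · simp only [List.length_append, List.length_cons, List.length_nil]
    omega
  · rw [thL_append, thL_append, hP.th, hth]
    simp only [thL_cons, thL_nil]
    abel
  · have h2 := Real.rot (A := [(out 3 f.1, Tag.free 3)]) (hR F hF)
    have h3 := hRw [] F (by simpa using h2)
    simpa using h3

end Pool.Agent.MC
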