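import Pool.Agent.P.MP_2677b3_gt.BuExec

namespace Pool.Agent.MC

def ringS : List Op :=
  [.cut 1 3 [1, 3, 3] [.inner, .hole, .inner] [.inner, .inner, .inner] true,
   .cut 2 1 [1] [.inner] [.hole] false,
   .cut 0 5 [1] [.inner] [.inner] true]

def pantsS : List Op :=
  [.cut 0 0 [1] [.inner] [.inner] false,
   .rot 3,
   .cut 0 0 [1] [.inner] [.inner] false,
   .cut 1 3 [3, 3, 3] [.hole, .inner, .hole] [.inner, .inner, .inner] true,
   .cut 1 1 [1] [.inner] [.hole] false,
   .cut 3 1 [1] [.inner] [.hole] false]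

def oppS : List Op :=
  [.cut 0 0 [1] [.inner] [.inner] false,
   .rot 3,
   .cut 0 0 [1] [.inner] [.inner] false,
   .cut 1 3 [3, 3, 3] [.inner, .hole, .inner] [.inner, .inner, .inner] true,
   .cut 2 1 [1] [.inner] [.hole] false,
   .rot 4,
   .cut 0 3 [2, 3, 3] [.inner, .hole, .inner] [.inner, .inner, .inner] true,
   .cut 1 1 [1] [.inner] [.hole] false,
   .cut 0 0 [1] [.inner] [.inner] false,
   .cut 5 0 [1] [.inner] [.inner] false,
   .cut 1 5 [3] [.hole] [.inner] true,
   .cut 1 1 [1] [.inner] [.hole] false]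

def decoS : List Op :=
  [.cut 0 0 [2] [.free 3] [.inner] false,
   .cut 1 1 [3, 3, 3, 3, 3] [.inner, .inner, .hole, .inner, .free 0] [.inner, .inner, .inner, .inner, .inner] true,
   .cut 1 1 [2, 3, 3, 3, 3] [.free 4, .free 0, .inner, .hole, .inner] [.inner, .inner, .inner, .inner, .inner] true,
   .cut 4 1 [1] [.inner] [.hole] false,
   .cut 3 3 [2, 3, 3] [.free 0, .free 3, .inner] [.inner, .inner, .inner] true,
   .cut 7 1 [1] [.inner] [.hole] false,
   .cut 5 4 [2, 3] [.free 4, .free 0] [.inner, .inner] true]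

def decoC : List Op :=
  [.cut 0 0 [2] [.free 3] [.inner] false,
   .cut 1 1 [3, 3, 3, 3, 3] [.inner, .hole, .inner, .inner, .free 0] [.inner, .inner, .inner, .inner, .inner] true,
   .cut 4 1 [2, 3, 3, 3, 3] [.inner, .hole, .inner, .free 4, .free 0] [.inner, .inner, .inner, .inner, .inner] true,
   .cut 2 1 [1] [.inner] [.hole] false,
   .cut 1 3 [2, 3, 3] [.free 4, .free 0, .inner] [.inner, .inner, .inner] true,
   .cut 5 1 [1] [.inner] [.hole] false,
   .cut 3 4 [2, 3] [.free 0, .free 3] [.inner, .inner] true]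

/-- The boundary of the four-tile gadget at the tip of a path that ends with `d`. -/
def gadget (d : Dart) : List Entry :=
  (pathD d [2, 2, 3, 2, 3, 2, 3, 2]).zip
    [.free 3, .free 4, .free 0, .free 0, .free 3, .free 4, .free 0, .free 0]

/-- The wall at which the gadget for colour `j` is attached. -/
def gadD (j : ZMod 6) : Dart := if j.val % 2 = 0 then (0, 0, j + 2) else (0, 0, j + 3)

def buscr_chkRw (ops : List Op) (X Y : List Entry) (Hs : List (List Entry)) : Bool :=
  match run false ops X with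
  | none => false
  | some (Y', H) => decide (Y' = Y) && (H.map hcanon).isPerm Hs

def buscr_chkFill (ops : List Op) (X : List Entry) (Hs : List (List Entry)) : Bool :=
  match run true ops X with
  | none => false
  | some (Y, H) => isTile Y && (H.map hcanon).isPerm Hs

theorem buscr_rwperm {X Y : List Entry} {H H' : List (List Entry)} (h : Rw X Y H)
    (hp : H.Perm H') : Rw X Y H' :=
  fun R F hr => (h R F hr).perm ((hp.append_right F).cons _)

theorem buscr_rw {ops : List Op} {X Y : List Entry} {Hs : List (List Entry)}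
    (h : buscr_chkRw ops X Y Hs = true) : Rw X Y Hs := by
  unfold buscr_chkRw at h
  split at h
  · exact absurd h (by simp)
  · rename_i Y' H e
    rw [Bool.and_eq_true, decide_eq_true_eq, List.isPerm_iff] at h
    exact h.1 ▸ buscr_rwperm (run_rw e) h.2

theorem buscr_fill {ops : List Op} {X : List Entry} {Hs : List (List Entry)}
    (h : buscr_chkFill ops X Hs = true) : RwC X Hs := by
  unfold buscr_chkFill at h
  split at h
  · exact absurd h (by simp)
  · rename_i Y H e
    rw [Bool.and_eq_true, List.isPerm_iff] at h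
    exact (run_fill e h.1).perm h.2

theorem buscr_toInner {X : List Entry} {H : List (List Entry)} (h : RwC (inn (darts X)) H) :
    RwC X H := fun F hr => h F hr.toInner

def buscr_tm (g : Tag → Tag) (l : List Entry) : List Entry := l.map fun e => (e.1, g e.2)

def buscr_fix (g : Tag → Tag) : Op → Prop
  | .cut _ _ _ tP tQ _ => (∀ t ∈ tP, g t = t) ∧ ∀ t ∈ tQ, g t = t
  | .rot _ => True

theorem buscr_tm_zip {g : Tag → Tag} {ts : List Tag} (h : ∀ t ∈ ts, g t = t) (l : List Dart) :
    buscr_tm g (l.zip ts) = l.zip ts := by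
  unfold buscr_tm
  conv_rhs => rw [← List.map_id (l.zip ts)]
  refine List.map_congr_left fun e he => ?_
  rw [h e.2 (List.of_mem_zip (a := e.1) (b := e.2) he).2]; rfl

theorem buscr_isTile (g : Tag → Tag) (l : List Entry) : isTile (buscr_tm g l) = isTile l := by
  cases l with
  | nil => rfl
  | cons e t => simp [buscr_tm, isTile, darts, Function.comp_def]

theorem buscr_step {g : Tag → Tag} {w : Bool} {o : Op} (ho : buscr_fix g o) {X Y : List Entry}
    {H : List (List Entry)} (h : stepOp w o X = some (Y, H)) :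
    stepOp w o (buscr_tm g X) = some (buscr_tm g Y, H.map (buscr_tm g)) := by
  cases o with
  | rot k =>
    simp only [stepOp] at h ⊢
    split_ifs at h ⊢ with hw
    obtain ⟨rfl, rfl⟩ := by simpa using h
    simp [buscr_tm, List.map_rotate]
  | cut i n ks tP tQ ab =>
    obtain ⟨hP, hQ⟩ := ho
    have e1 : (buscr_tm g X).drop i = buscr_tm g (X.drop i) := by simp [buscr_tm, List.map_drop]
    have e0 : (buscr_tm g X).take i = buscr_tm g (X.take i) := by simp [buscr_tm, List.map_take]
    simp only [stepOp] at h ⊢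
    rw [e1, e0]
    generalize X.drop i = D at h ⊢
    generalize X.take i = T at h ⊢
    cases D with
    | nil => simp at h
    | cons a Y0 =>
      have e2 : (buscr_tm g Y0).drop n = buscr_tm g (Y0.drop n) := by simp [buscr_tm, List.map_drop]
      have e3 : (buscr_tm g Y0).take n = buscr_tm g (Y0.take n) := by simp [buscr_tm, List.map_take]
      have e4 : buscr_tm g (a :: Y0) = (a.1, g a.2) :: buscr_tm g Y0 := rfl
      rw [e4]
      simp only at h ⊢
      rw [e2, e3]
      generalize Y0.drop n = D at h ⊢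
      generalize Y0.take n = M at h ⊢
      cases D with
      | nil => simp at h
      | cons b Z =>
        have e5 : buscr_tm g (b :: Z) = (b.1, g b.2) :: buscr_tm g Z := rfl
        rw [e5]
        simp only at h ⊢
        have fP := buscr_tm_zip hP (pathD a.1 ks)
        have fQ : buscr_tm g (((pathD a.1 ks).map rv).zip tQ).reverse =
            (((pathD a.1 ks).map rv).zip tQ).reverse := by
          have := buscr_tm_zip hQ ((pathD a.1 ks).map rv)
          unfold buscr_tm at this ⊢
          rw [List.map_reverse, this]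
        generalize (pathD a.1 ks).zip tP = P at h fP ⊢
        generalize (((pathD a.1 ks).map rv).zip tQ).reverse = Q at h fQ ⊢
        have ap : ∀ A B, buscr_tm g (A ++ B) = buscr_tm g A ++ buscr_tm g B :=
          fun A B => List.map_append
        have cs : ∀ (e : Entry) A, buscr_tm g (e :: A) = (e.1, g e.2) :: buscr_tm g A :=
          fun _ _ => rfl
        cases P with
        | nil => simp at h
        | cons p P =>
          cases Q with
          | nil => simp at h
          | cons q Q =>
            simp only at h ⊢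
            by_cases h1 : (mateB (p :: P) (q :: Q).reverse && fwB (p :: P)) = true
            swap
            · rw [if_neg h1] at h; simp at h
            rw [if_pos h1] at h ⊢
            cases M with
            | nil =>
              have e6 : buscr_tm g [] = [] := rfl
              rw [e6]
              simp only at h ⊢
              split_ifs at h ⊢ with h2
              obtain ⟨rfl, rfl⟩ := by simpa only [Option.some.injEq, Prod.mk.injEq] using h
              simp only [ap, fP, fQ, List.map_nil, cs a, cs b, List.cons_append]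
            | cons c M =>
              obtain ⟨c', hc'⟩ : ∃ c', (c :: M).getLast? = some c' := ⟨_, List.getLast?_cons⟩
              have hc2 : (buscr_tm g (c :: M)).getLast? = some (c'.1, g c'.2) := by
                unfold buscr_tm; rw [List.getLast?_map, hc']; rfl
              have ht : isTile (buscr_tm g (c :: M) ++ q :: Q) = isTile (c :: M ++ q :: Q) := by
                rw [← fQ, ← ap, buscr_isTile, fQ]
              have hH : buscr_tm g (c :: M ++ q :: Q) = buscr_tm g (c :: M) ++ q :: Q := by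
                rw [ap, fQ]
              rw [hc2, ht, ← hH, cs c]
              rw [hc'] at h
              simp only at h ⊢
              have eY : buscr_tm g (T ++ a :: p :: P ++ b :: Z) =
                  buscr_tm g T ++ (a.1, g a.2) :: p :: P ++ (b.1, g b.2) :: buscr_tm g Z := by
                rw [ap, ap, cs a, fP, cs b]
              split_ifs at h ⊢ with h2 h3 h4
              · obtain ⟨rfl, rfl⟩ := by simpa only [Option.some.injEq, Prod.mk.injEq] using h
                rw [eY]; rfl
              · obtain ⟨rfl, rfl⟩ := by simpa only [Option.some.injEq, Prod.mk.injEq] using h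
                rw [eY]; rfl

theorem buscr_run {g : Tag → Tag} {w : Bool} {ops : List Op} (ho : ∀ o ∈ ops, buscr_fix g o)
    {X Y : List Entry} {H : List (List Entry)} (h : run w ops X = some (Y, H)) :
    run w ops (buscr_tm g X) = some (buscr_tm g Y, H.map (buscr_tm g)) := by
  induction ops generalizing X Y H with
  | nil =>
    obtain ⟨rfl, rfl⟩ := by simpa only [run, Option.some.injEq, Prod.mk.injEq] using h
    rfl
  | cons o os ih =>
    simp only [run] at h ⊢
    cases e : stepOp w o X with
    | none => rw [e] at h; simp at h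
    | some r =>
      obtain ⟨Y1, H1⟩ := r
      rw [e] at h
      rw [buscr_step (ho o (by simp)) e]
      simp only at h ⊢
      cases e' : run w os Y1 with
      | none => rw [e'] at h; simp at h
      | some r =>
        obtain ⟨Y2, H2⟩ := r
        rw [e'] at h
        rw [ih (fun o h => ho o (by simp [h])) e']
        obtain ⟨rfl, rfl⟩ := by simpa only [Option.some.injEq, Prod.mk.injEq] using h
        simp

def buscr_g (t t' : Tag) : Tag → Tag
  | .top _ => t
  | .old _ => t'
  | u => u

def buscr_plain : Tag → Bool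
  | .top _ => false
  | .old _ => false
  | _ => true

def buscr_plainOp : Op → Bool
  | .cut _ _ _ tP tQ _ => tP.all buscr_plain && tQ.all buscr_plain
  | .rot _ => true

theorem buscr_g_plain (t t' : Tag) {u : Tag} (h : buscr_plain u = true) : buscr_g t t' u = u := by
  cases u <;> first | rfl | exact absurd h (by simp [buscr_plain])

theorem buscr_fix_plain (t t' : Tag) {o : Op} (h : buscr_plainOp o = true) :
    buscr_fix (buscr_g t t') o := by
  cases o with
  | rot k => trivial
  | cut i n ks tP tQ ab =>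
    simp only [buscr_plainOp, Bool.and_eq_true, List.all_eq_true] at h
    exact ⟨fun u hu => buscr_g_plain t t' (h.1 u hu), fun u hu => buscr_g_plain t t' (h.2 u hu)⟩

theorem buscr_tm_plain (t t' : Tag) {l : List Entry} (h : ∀ e ∈ l, buscr_plain e.2 = true) :
    buscr_tm (buscr_g t t') l = l := by
  unfold buscr_tm
  conv_rhs => rw [← List.map_id l]
  refine List.map_congr_left fun e he => ?_
  rw [buscr_g_plain t t' (h e he)]; rfl

def buscr_deco (j : ZMod 6) : List Op := if j.val % 2 = 0 then decoC else decoS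

/-- The raw holes cut off by the gadget scripts. -/
def buscr_gh (j : ZMod 6) : List (List Entry) :=
  match run false (buscr_deco j) [(gadD j, .top 0), (rv (gadD j), .old 0)] with
  | none => []
  | some (_, H) => H

def buscr_gy (j : ZMod 6) : List Entry :=
  match run false (buscr_deco j) [(gadD j, .top 0), (rv (gadD j), .old 0)] with
  | none => []
  | some (Y, _) => Y

theorem buscr_gad1 : ∀ j : ZMod 6,
    buscr_gy j = (gadD j, .top 0) :: gadget (gadD j) ++ [(rv (gadD j), .old 0)] := by
  decide +kernel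

theorem buscr_gad2 : ∀ j : ZMod 6, ((buscr_gh j).map hcanon).isPerm (pair j) = true ∧
    (buscr_deco j).all buscr_plainOp = true ∧
    ((gadget (gadD j)).all fun e => buscr_plain e.2) = true ∧
    ((buscr_gh j).all fun l => l.all fun e => buscr_plain e.2) = true := by
  decide +kernel

theorem buscr_gad (j : ZMod 6) :
    run false (buscr_deco j) [(gadD j, .top 0), (rv (gadD j), .old 0)] =
      some ((gadD j, .top 0) :: gadget (gadD j) ++ [(rv (gadD j), .old 0)], buscr_gh j) ∧
    ((buscr_gh j).map hcanon).isPerm (pair j) = true ∧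
    (∀ o ∈ buscr_deco j, buscr_plainOp o = true) ∧
    (∀ e ∈ gadget (gadD j), buscr_plain e.2 = true) ∧
    ∀ l ∈ buscr_gh j, ∀ e ∈ l, buscr_plain e.2 = true := by
  obtain ⟨h2, h3, h4, h5⟩ := buscr_gad2 j
  simp only [List.all_eq_true] at h3 h4 h5
  refine ⟨?_, h2, h3, h4, h5⟩
  have h1 := buscr_gad1 j
  unfold buscr_gy at h1
  unfold buscr_gh
  split at h1
  · exact absurd h1 (by simp)
  · rename_i Y H e
    rw [e, h1]

theorem rw_gadget (j : ZMod 6) (t t' : Tag) :
    Rw [(gadD j, t), (rv (gadD j), t')] ((gadD j, t) :: gadget (gadD j) ++ [(rv (gadD j), t')])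
      (pair j) := by
  obtain ⟨h1, h2, h3, h4, h5⟩ := buscr_gad j
  have h := buscr_run (g := buscr_g t t') (fun o ho => buscr_fix_plain t t' (h3 o ho)) h1
  have e1 : buscr_tm (buscr_g t t') [(gadD j, .top 0), (rv (gadD j), .old 0)] =
      [(gadD j, t), (rv (gadD j), t')] := rfl
  have e2 : buscr_tm (buscr_g t t') ((gadD j, .top 0) :: gadget (gadD j) ++
      [(rv (gadD j), .old 0)]) = (gadD j, t) :: gadget (gadD j) ++ [(rv (gadD j), t')] := by
    have := buscr_tm_plain t t' h4
    unfold buscr_tm at this ⊢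
    rw [List.map_append, List.map_cons, this]; rfl
  have e3 : (buscr_gh j).map (buscr_tm (buscr_g t t')) = buscr_gh j := by
    conv_rhs => rw [← List.map_id (buscr_gh j)]
    exact List.map_congr_left fun l hl => buscr_tm_plain t t' (h5 l hl)
  rw [e1, e2, e3] at h
  exact buscr_rwperm (run_rw h) (List.isPerm_iff.1 h2)

theorem buscr_ring : ∀ p : Dart, ∃ j σ, buscr_chkRw ringS
    (inn [p, fk 2 p, p, fk 1 p, fk 1 (fk 1 p), fk 2 (fk 1 (fk 1 p)), fk 1 (fk 1 p)])
    (inn [p, fk 1 p, fk 1 (fk 1 p)]) [hole j σ] = true := by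
  decide +kernel

theorem rw_ring (p s : Dart) (hs : wall s = false) (hp : fk 1 p = s) : ∃ j σ,
    Rw (inn [p, fk 2 p, p, s, fk 1 s, fk 2 (fk 1 s), fk 1 s]) (inn [p, s, fk 1 s]) [hole j σ] := by
  subst hp
  obtain ⟨j, σ, h⟩ := buscr_ring p
  exact ⟨j, σ, buscr_rw h⟩

theorem buscr_shole : ∀ p : Dart, wall p = true → ∃ j σ,
    buscr_chkRw [.cut 0 1 [1] [.inner] [.hole] false]
      [(p, .inner), (fk 3 p, .hole), (fk 3 (fk 3 p), .inner)]
      (inn [p, fk 1 p, fk 1 (fk 1 p)]) [hole j σ] = true ∧ fk 3 (fk 3 p) = fk 1 (fk 1 p) := by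
  decide +kernel

/-- A hole on a seam with angle three at both ends makes both corners convex. -/
theorem rw_shole (p : Dart) (hp : wall p = true) : ∃ j σ,
    Rw [(p, .inner), (fk 3 p, .hole), (fk 3 (fk 3 p), .inner)]
      (inn [p, fk 1 p, fk 1 (fk 1 p)]) [hole j σ] ∧ fk 3 (fk 3 p) = fk 1 (fk 1 p) := by
  obtain ⟨j, σ, h, h'⟩ := buscr_shole p hp
  exact ⟨j, σ, buscr_rw h, h'⟩

theorem buscr_pants : ∀ (j : ZMod 6) (σ : Bool), buscr_chkFill pantsS (inn (darts (hole j σ)))
    [hole (j + 2) (!σ), hole (j + 4) (!σ)] = true := by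
  decide +kernel

theorem ext_pants (j : ZMod 6) (σ : Bool) :
    RwC (inn (darts (hole j σ))) [hole (j + 2) (!σ), hole (j + 4) (!σ)] :=
  buscr_fill (buscr_pants j σ)

theorem buscr_opp : ∀ (j : ZMod 6) (σ : Bool), buscr_chkFill oppS (inn (darts (hole j σ)))
    (hole j σ :: pair (j + 3)) = true := by
  decide +kernel

theorem buscr_perm2 : ∀ (x : ZMod 6) (σ : Bool),
    ([hole (x + 4 + 2) (!(!σ)), hole (x + 4 + 4) (!(!σ))] ++ [hole (x + 2) (!σ)]).isPerm
      (hole x σ :: pair (x + 2)) = true := by
  decide +kernel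

theorem buscr_perm4 : ∀ (x : ZMod 6) (σ : Bool),
    ([hole (x + 2 + 2) (!(!σ)), hole (x + 2 + 4) (!(!σ))] ++ [hole (x + 4) (!σ)]).isPerm
      (hole x σ :: pair (x + 4)) = true := by
  decide +kernel

theorem ext_add (x y : ZMod 6) (σ : Bool) (h : y = x + 2 ∨ y = x + 3 ∨ y = x + 4) :
    RwC (inn (darts (hole x σ))) (hole x σ :: pair y) := by
  rcases h with rfl | rfl | rfl
  · exact (((ext_pants x σ).perm (List.Perm.swap _ _ _)).trans
      (buscr_toInner (ext_pants (x + 4) (!σ)))).perm (List.isPerm_iff.1 (buscr_perm2 x σ))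
  · exact buscr_fill (buscr_opp x σ)
  · exact ((ext_pants x σ).trans
      (buscr_toInner (ext_pants (x + 2) (!σ)))).perm (List.isPerm_iff.1 (buscr_perm4 x σ))

theorem buscr_tri : ∀ s : Dart, wall s = false →
    nxc s [1, 1, 1] = s ∧ isTile (inn (cvx s [1, 1, 1])) = true := by
  decide +kernel

theorem fill_tri (s : Dart) (hs : wall s = false) :
    nxc s [1, 1, 1] = s ∧ RwC (inn (cvx s [1, 1, 1])) [] :=
  ⟨(buscr_tri s hs).1, rwC_tile (buscr_tri s hs).2⟩

def buscr_E : Op := .cut 0 5 [1] [.inner] [.inner] true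

def buscr_hexS (i j k : ℕ) : List Op :=
  [.rot i, buscr_E, .rot 1, .rot j, buscr_E, .rot 1, .rot k, buscr_E, .rot 1]

def buscr_Hex (t : List ℕ) (i j k : ℕ) : Prop :=
  ∀ s : Dart, wall s = false →
    nxc s t = s ∧ buscr_chkFill (buscr_hexS i j k) (inn (cvx s t)) [] = true

instance (t : List ℕ) (i j k : ℕ) : Decidable (buscr_Hex t i j k) := by
  unfold buscr_Hex; infer_instance

theorem buscr_hex {t : List ℕ} {i j k : ℕ} (h : buscr_Hex t i j k) (s : Dart)
    (hs : wall s = false) : nxc s t = s ∧ RwC (inn (cvx s t)) [] :=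
  ⟨(h s hs).1, buscr_fill (h s hs).2⟩

theorem buscr_h000 : buscr_Hex [2, 2, 2, 1, 4, 1] 7 2 8 := by decide +kernel
theorem buscr_h001 : buscr_Hex [2, 2, 1, 4, 1, 2] 4 2 8 := by decide +kernel
theorem buscr_h010 : buscr_Hex [2, 1, 4, 1, 2, 2] 1 2 8 := by decide +kernel
theorem buscr_h011 : buscr_Hex [2, 1, 3, 2, 1, 3] 1 4 1 := by decide +kernel
theorem buscr_h100 : buscr_Hex [1, 2, 2, 2, 1, 4] 16 12 8 := by decide +kernel
theorem buscr_h101 : buscr_Hex [1, 2, 3, 1, 2, 3] 16 12 1 := by decide +kernel
theorem buscr_h110 : buscr_Hex [1, 3, 2, 1, 3, 2] 16 4 1 := by decide +kernel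
theorem buscr_h111 : buscr_Hex [1, 3, 1, 3, 1, 3] 16 1 1 := by decide +kernel

/-- Convex faces with six seams that consist of four tiles, for all parities of three arcs. -/
theorem fill_hex (s : Dart) (hs : wall s = false) (a₁ a₂ a₃ : ℕ) : ∃ t₀ t₁ t₂ t₃ t₄ t₅ : ℕ,
    (∀ t ∈ [t₀, t₁, t₂, t₃, t₄, t₅], 1 ≤ t ∧ t ≤ 4) ∧ t₀ % 2 = a₁ % 2 ∧ t₁ % 2 = a₂ % 2 ∧
    t₂ % 2 = a₃ % 2 ∧ nxc s [t₀, t₁, t₂, t₃, t₄, t₅] = s ∧
    RwC (inn (cvx s [t₀, t₁, t₂, t₃, t₄, t₅])) [] := by
  rcases Nat.mod_two_eq_zero_or_one a₁ with h₁ | h₁ <;>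
  rcases Nat.mod_two_eq_zero_or_one a₂ with h₂ | h₂ <;>
  rcases Nat.mod_two_eq_zero_or_one a₃ with h₃ | h₃ <;> rw [h₁, h₂, h₃]
  · exact ⟨2, 2, 2, 1, 4, 1, by decide, rfl, rfl, rfl, buscr_hex buscr_h000 s hs⟩
  · exact ⟨2, 2, 1, 4, 1, 2, by decide, rfl, rfl, rfl, buscr_hex buscr_h001 s hs⟩
  · exact ⟨2, 1, 4, 1, 2, 2, by decide, rfl, rfl, rfl, buscr_hex buscr_h010 s hs⟩
  · exact ⟨2, 1, 3, 2, 1, 3, by decide, rfl, rfl, rfl, buscr_hex buscr_h011 s hs⟩
  · exact ⟨1, 2, 2, 2, 1, 4, by decide, rfl, rfl, rfl, buscr_hex buscr_h100 s hs⟩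
  · exact ⟨1, 2, 3, 1, 2, 3, by decide, rfl, rfl, rfl, buscr_hex buscr_h101 s hs⟩
  · exact ⟨1, 3, 2, 1, 3, 2, by decide, rfl, rfl, rfl, buscr_hex buscr_h110 s hs⟩
  · exact ⟨1, 3, 1, 3, 1, 3, by decide, rfl, rfl, rfl, buscr_hex buscr_h111 s hs⟩

end Pool.Agent.MC
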