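import Pool.Agent.P.MP_2677b3_gt.BuJcut
import Pool.Agent.P.MP_2677b3_gt.BuScr

namespace Pool.Agent.MC

theorem bupetb_step {X Y : List Entry} {H F : List (List Entry)} (h : Rw X Y H) (A B : List Entry)
    (hF : Real ((A ++ X ++ B) :: F)) : Real ((A ++ Y ++ B) :: (H ++ F)) :=
  (h.ctx A B).toC F hF

theorem bupetb_rot {F : List (List Entry)} (A B : List Entry) (hF : Real ((A ++ B) :: F)) :
    Real ((B ++ A) :: F) := rwC_rot List.isRotated_append F hF

theorem bupetb_head {P : List Entry} {d : Dart} (h : (darts P).head? = some d) :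
    ∃ t P', P = (d, t) :: P' := by
  rcases P with _ | ⟨⟨e, t⟩, P'⟩
  · simp at h
  · simp only [darts_cons, List.head?_cons, Option.some.injEq] at h
    exact ⟨t, P', by rw [h]⟩

theorem bupetb_last {P : List Entry} {d : Dart} (h : (darts P).getLast? = some d) :
    ∃ t P', P = P' ++ [(d, t)] := by
  rcases List.eq_nil_or_concat' P with rfl | ⟨P', ⟨e, t⟩, rfl⟩
  · simp at h
  · simp only [darts_append, darts_cons, darts_nil, List.getLast?_concat, Option.some.injEq] at h
    exact ⟨t, P', by rw [h]⟩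

theorem bupetb_ends {d₀ d₁ : Dart} {v : Fin 4 → ℤ} {P Q : List Entry} (h : PP d₀ d₁ v P Q) :
    (darts Q).head? = some (rv d₁) ∧ (darts Q).getLast? = some (rv d₀) ∧ thL Q = -v ∧
      Q.length = P.length ∧ (∀ e ∈ P, KT 5 e) ∧ (∀ e ∈ Q, KT 5 e) ∧ (darts P).IsChain Fw := by
  refine ⟨?_, ?_, ?_, ?_, fun e he => ?_, fun e he => ?_, ?_⟩
  · rw [h.mate.darts, mirror, List.head?_reverse, List.getLast?_map, h.lst]; rfl
  · rw [h.mate.darts, mirror, List.getLast?_reverse, List.head?_map, h.hd]; rfl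
  · rw [thL_mirror h.mate.darts, h.th]
  · simpa using (List.Forall₂.length_eq h.mate).symm
  · exact ⟨(h.tgP e he).2.trans (by norm_num), Or.inr (h.tgP e he).1⟩
  · exact ⟨(h.tgQ e he).2.trans (by norm_num), Or.inr (h.tgQ e he).1⟩
  · rw [darts, List.isChain_map]
    exact h.chP.imp fun a b hab => J_fw _ _ hab.1

theorem bupetb_app {ρ ρ' : ℤ} {z : Fin 4 → ℤ} {l l' : List Entry} (h : Near ρ z l) (hρ : ρ ≤ ρ')
    (h' : InB ρ (z - thL l) → Near ρ' (z - thL l) l') : Near ρ' z (l ++ l') :=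
  near_append.2 ⟨h.mono hρ, h' h.finish⟩

theorem bupetb_zero : InB 0 (0 : Fin 4 → ℤ) := fun _ => by simp

theorem bupetb_kt (d : Dart) {r : ℕ} (h : r ≤ 5) : KT 5 (d, Tag.free r) :=
  ⟨h, Or.inr rfl⟩

theorem bupetb_jr {d e : Dart} {r r' : ℕ} (hJ : J d e) (h : r < r') :
    JR (d, Tag.free r) (e, Tag.free r') := ⟨hJ, fun _ _ => h⟩

theorem bupetb_f1 : ∀ l : Dart, wall l = true →
    2 ≤ ang l (fk 3 l) ∧ 2 ≤ ang (fk 3 l) (fk 3 (fk 3 l)) ∧ J l (out 5 (fk 3 l)) := by decide

theorem bupetb_f2 : ∀ d : Dart, wall d = false →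
    (2 ≤ ang (out 3 d) (out 2 d) ∧ 2 ≤ ang (out 2 d) (out 1 d)) ∧ wall (out 2 d) = false ∧
    wall (out 4 d) = false ∧ wall (out 3 d) = true ∧ wall (out 5 d) = true ∧
    out 3 d = fk 3 (out 4 d) ∧ out 4 d = fk 3 (out 5 d) ∧
    J (out 5 d) (out 4 d) ∧ J (out 3 d) (out 2 d) ∧ J (out 1 d) (fk 3 d) ∧
    J (out 1 (out 2 d)) (out 1 d) ∧ J (out 3 d) (out 5 (out 2 d)) ∧
    wall (fk 1 (out 2 d)) = true ∧ Spl (out 2 d) (fk 1 (out 2 d)) (out 1 d) ∧
    J (rv (fk 1 (out 2 d))) (out 1 d) := by decide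

theorem bupetb_f3 : ∀ d : Dart,
    th (out 5 d) + th (out 4 d) + th (out 3 d) + th (out 2 d) + th (out 1 d) = th d := by
  decide +kernel

theorem bupetb_g (j : ZMod 6) : ∃ g1 g2 g3 g4 g5 g6 g7 g8 : Entry,
    gadget (gadD j) = [g1, g2, g3, g4, g5, g6, g7, g8] ∧ wall (gadD j) = true ∧
    fk 2 g1.1 = gadD j ∧ wall g1.1 = true ∧ 3 ≤ g1.2.rk ∧ [g1, g2, g3, g4].IsChain JR ∧
    wall g4.1 = false ∧ g5.1 = fk 3 g4.1 ∧ 3 ≤ g5.2.rk ∧ [g5, g6, g7, g8].IsChain JR ∧
    wall g8.1 = false ∧ J g8.1 (rv (gadD j)) ∧ (∀ e ∈ [g1, g2, g3, g4], KT 5 e) ∧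
    (∀ e ∈ [g5, g6, g7, g8], KT 5 e) ∧ thL [g1, g2, g3, g4] + thL [g5, g6, g7, g8] = 0 := by
  refine ⟨_, _, _, _, _, _, _, _, rfl, ?_⟩
  revert j
  decide +kernel

attribute [local irreducible] out fk rv J wall th Spl gadD gadget ang in
theorem petal_deco {f : Entry} {Q : List Entry} (h : PS f Q) (j : ZMod 6) :
    ∃ f' Q' k, PS f' Q' ∧ Good k ∧ RwC (f :: Q) ((f' :: Q') :: k :: pair j) := by
  obtain ⟨d, tf⟩ := f
  obtain ⟨t0, hQ0⟩ := h.hd
  obtain ⟨t, l, hQ⟩ : ∃ t l, Q = (fk 3 d, Tag.free 5) :: (t ++ [l]) := by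
    rcases List.eq_nil_or_concat' t0 with rfl | ⟨t, l, rfl⟩
    · have := (h.lst (fk 3 d, Tag.free 5) (by rw [hQ0]; rfl)).2.1
      exact absurd this (by show ¬ 5 ≤ 4; omega)
    · exact ⟨t, l, hQ0⟩
  have hlast : Q.getLast? = some l := by rw [hQ, ← List.cons_append, List.getLast?_concat]
  obtain ⟨hl1, hl2, hl3⟩ := h.lst l hlast
  have hd : wall d = false := h.seam
  simp only at hl3
  obtain ⟨A1, A2, A3⟩ := bupetb_f1 l.1 hl1
  rw [← hl3] at A1 A2 A3
  obtain ⟨⟨B1, B2⟩, B3, B4, B5, -, B7, -, B9, -, B11, B12, B13, -⟩ := bupetb_f2 d hd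
  obtain ⟨-, C3, C4, C5, C6, C7, C8, -, C10, -, -, -, C14, C15, C16⟩ := bupetb_f2 (out 2 d) B3
  have T1 := bupetb_f3 d
  have T2 := bupetb_f3 (out 2 d)
  obtain ⟨g1, g2, g3, g4, g5, g6, g7, g8, G0, G1, G2, G3, G4, G5, G6, G7, G8, G9, G10, G11, G12,
    G13, G14⟩ := bupetb_g j
  obtain ⟨P1, Q1, -, -, hP1, -, -⟩ := pl _ _ C14 G1 0
  obtain ⟨E1, E2, E3, E4, E5, E6, E7⟩ := bupetb_ends hP1
  obtain ⟨tp, P1', eP1⟩ := bupetb_last hP1.lst
  obtain ⟨tq, Q1', eQ1⟩ := bupetb_head E1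
  obtain ⟨tr, P1h, eP1h⟩ := bupetb_head hP1.hd
  obtain ⟨ts, Q1l, eQ1l⟩ := bupetb_last E2
  have L1 : P1.length ≤ 2000 := by simpa using hP1.len 0 bupetb_zero
  have R1 := rw_tile5 (a := l) (f := (d, tf)) (b := (fk 3 d, Tag.free 5))
    (.free 5) (.free 0) (.free 3) (.free 0) (.free 4) A1 A2
  have R2 := rw_tile5 (a := (out 3 d, .free 3)) (f := (out 2 d, .free 0)) (b := (out 1 d, .free 4))
    (.free 4) (.free 0) (.free 5) (.free 0) (.free 3) B1 B2
  simp only at R1 R2
  clear A1 A2 B1 B2 hl3 hQ0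
  generalize out 5 (out 2 d) = p5 at *
  generalize out 4 (out 2 d) = p4 at *
  generalize out 3 (out 2 d) = p3 at *
  generalize out 2 (out 2 d) = p2 at *
  generalize out 1 (out 2 d) = p1 at *
  generalize out 5 d = o5 at *
  generalize out 4 d = o4 at *
  generalize out 3 d = o3 at *
  generalize out 2 d = o2 at *
  generalize out 1 d = o1 at *
  generalize fk 3 d = q0 at *
  set a3 : Entry := (o5, .free 5) with ha3
  set a4 : Entry := (o4, .free 0) with ha4
  set a2 : Entry := (o3, .free 3) with ha2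
  set a1 : Entry := (o1, .free 4) with ha1
  set b3 : Entry := (p5, .free 4) with hb3
  set b4 : Entry := (p4, .free 0) with hb4
  set b2 : Entry := (p3, .free 5) with hb2
  set b0 : Entry := (p2, .free 0) with hb0
  set b1 : Entry := (p1, .free 3) with hb1
  set N : List Entry := [g5, g6, g7, g8] ++ Q1 ++ [b1, a1] ++ Q ++ [a3, a4] with hN
  have chN : N.IsChain JR := by
    refine (((G9.append hP1.chQ ?_).append (l₂ := [b1, a1]) ?_ ?_).append h.ch ?_).append ?_ ?_
    · intro x hx y hy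
      rw [eQ1] at hy
      obtain rfl : g8 = x := by simpa using hx
      obtain rfl : (rv (gadD j), tq) = y := by simpa using hy
      exact ⟨G11, fun h1 => by rw [G10] at h1; cases h1⟩
    · exact List.isChain_pair.2 (bupetb_jr B12 (by omega))
    · intro x hx y hy
      rw [eQ1l, ← List.append_assoc, List.getLast?_concat] at hx
      obtain rfl : (rv (fk 1 p2), ts) = x := by simpa using hx
      obtain rfl : b1 = y := by simpa using hy
      refine ⟨C16, fun _ _ => ?_⟩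
      exact Nat.lt_succ_of_le (hP1.tgQ _ (by rw [eQ1l]; simp)).2
    · intro x hx y hy
      rw [hQ] at hy
      rw [show [b1, a1] = [b1] ++ [a1] from rfl, ← List.append_assoc, List.getLast?_concat] at hx
      obtain rfl : a1 = x := by simpa using hx
      obtain rfl : (q0, Tag.free 5) = y := by simpa using hy
      exact bupetb_jr B11 (by omega)
    · exact List.isChain_pair.2 ⟨B9, fun _ h1 => by rw [B4] at h1; cases h1⟩
    · intro x hx y hy
      rw [hQ, ← List.cons_append, ← List.append_assoc, List.getLast?_concat] at hx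
      obtain rfl : l = x := by simpa using hx
      obtain rfl : a3 = y := by simpa using hy
      exact ⟨A3, fun _ _ => Nat.lt_succ_of_le hl2⟩
  obtain ⟨P2, Q2, hP2, K1, K2, K3, R5⟩ := jcut (a := g4) (b := a2) (c := g5) (c' := a4) (N := N) G6
    (by simp [hN]) (by rw [hN, show [a3, a4] = [a3] ++ [a4] from rfl, ← List.append_assoc,
      List.getLast?_concat]) G7 G8 B4 B7 chN
  obtain ⟨-, -, -, -, D5, -, -⟩ := bupetb_ends hP2
  have hth := h.th
  have thN : thL N = -thL [a2, b3, b4, b2, b0, g1, g2, g3, g4] := by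
    simp only [hN, thL_append, thL_cons, thL_nil, E3, ha3, ha4, ha2, ha1, hb3, hb4, hb2, hb0, hb1]
      at hth G14 ⊢
    linear_combination hth + G14 + T1 + T2
  have inN : InB 9 (thL N) := by rw [thN]; exact (inB_thL _).neg
  have L2 : P2.length ≤ 2900 := hP2.len 9 inN
  refine ⟨b4, b2 :: b0 :: P1 ++ [g1, g2, g3, g4] ++ P2 ++ [a2, b3], N ++ Q2,
    ⟨C4, ⟨_, by rw [hb2, C7]; rfl⟩, ?_, ?_, ?_, ?_, ⟨0, ?_⟩, ?_⟩,
    good_of_cut hP2 K1 K3 ?_ ?_ ?_, fun F s0 => ?_⟩
  · have c1 : (b0 :: P1 ++ [g1]).IsChain JR :=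
      PP.chain (a := b0) (b := g1) (by rw [G2]; exact hP1) C3 G3 G4
    have c2 : (g4 :: P2 ++ [a2]).IsChain JR := hP2.chain G6 B5 le_rfl
    have c3 : [a2, b3].IsChain JR := List.isChain_pair.2 (bupetb_jr B13 (by omega))
    have c0 : [b2, b0].IsChain JR :=
      List.isChain_pair.2 ⟨C10, fun _ h1 => by rw [C3] at h1; cases h1⟩
    have c4 := List.IsChain.append_overlap (l₁ := [b2]) (l₂ := [b0]) (l₃ := P1 ++ [g1]) c0 c1
      (by simp)
    have c5 := List.IsChain.append_overlap (l₁ := [b2] ++ [b0] ++ P1) (l₂ := [g1])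
      (l₃ := [g2, g3, g4]) (by simpa using c4) G5 (by simp)
    have c6 := List.IsChain.append_overlap (l₁ := [b2] ++ [b0] ++ P1 ++ [g1, g2, g3]) (l₂ := [g4])
      (l₃ := P2 ++ [a2]) (by simpa using c5) c2 (by simp)
    have c7 := List.IsChain.append_overlap
      (l₁ := [b2] ++ [b0] ++ P1 ++ [g1, g2, g3, g4] ++ P2) (l₂ := [a2])
      (l₃ := [b3]) (by simpa using c6) c3 (by simp)
    simpa using c7
  · intro e he
    simp only [List.cons_append, List.mem_cons, List.mem_append, List.not_mem_nil, or_false] at he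
    rcases he with rfl | rfl | ((he | he) | he) | rfl | rfl
    · exact bupetb_kt _ (by omega)
    · exact bupetb_kt _ (by omega)
    · exact E5 e he
    · exact G12 e (by simpa using he)
    · exact D5 e he
    · exact bupetb_kt _ (by omega)
    · exact bupetb_kt _ (by omega)
  · intro e he
    rw [show [a2, b3] = [a2] ++ [b3] from rfl, ← List.append_assoc, List.getLast?_concat] at he
    obtain rfl : b3 = e := by simpa using he
    exact ⟨C6, le_rfl, C8⟩
  · simp only [List.length_append, List.length_cons, List.length_nil]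
    omega
  · have n1 : Near 2 0 [b2, b0] := by simpa using near_short bupetb_zero [b2, b0]
    have n2 := bupetb_app (l' := P1) n1 (by norm_num : (2 : ℤ) ≤ 2 + 20) fun hz =>
      hP1.hullP 2 _ hz (by rw [hP1.th, sub_zero]; exact hz)
    have n3 := bupetb_app (l' := [g1, g2, g3, g4]) n2 (by norm_num : (2 + 20 : ℤ) ≤ 2 + 20 + 4)
      fun hz => near_short hz [g1, g2, g3, g4]
    have n4 := bupetb_app (l' := P2) n3 (by norm_num : (2 + 20 + 4 : ℤ) ≤ 2 + 20 + 4 + 9 + 20)
      fun hz => hP2.hullP _ _ (hz.mono (by norm_num)) (by rw [hP2.th]; exact hz.sub inN)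
    have n5 := bupetb_app (l' := [a2, b3]) n4
      (by norm_num : (2 + 20 + 4 + 9 + 20 : ℤ) ≤ 2 + 20 + 4 + 9 + 20 + 2)
      fun hz => near_short hz [a2, b3]
    exact n5.mono (by norm_num)
  · simp only [thL_append, thL_cons, thL_nil, hP1.th, hP2.th, thN]
    abel
  · intro e he
    simp only [hN, List.mem_append, List.mem_cons, List.not_mem_nil, or_false] at he
    rcases he with (((he | he) | rfl | rfl) | he) | rfl | rfl
    · exact G13 e (by simpa using he)
    · exact E6 e he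
    · exact bupetb_kt _ (by omega)
    · exact bupetb_kt _ (by omega)
    · exact h.tg e he
    · exact bupetb_kt _ (by omega)
    · exact bupetb_kt _ (by omega)
  · have := h.len
    simp only [hN, List.length_append, List.length_cons, List.length_nil]
    omega
  · obtain ⟨z, hz⟩ := h.near
    have i0 : InB (700 + 6) (z + thL [g5, g6, g7, g8, b1, a1]) := hz.start.add (inB_thL _)
    have n1 := near_short i0 [g5, g6, g7, g8]
    have n2 := bupetb_app (l' := Q1) n1 (le_add_of_nonneg_right (by norm_num : (0 : ℤ) ≤ 20))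
      fun hz => hP1.hullQ _ _ hz (by rw [E3, neg_zero, sub_zero]; exact hz)
    have n3 := bupetb_app (l' := [b1, a1]) n2 (le_add_of_nonneg_right (Int.natCast_nonneg _))
      fun hz => near_short hz _
    have e : z + thL [g5, g6, g7, g8, b1, a1] - thL ([g5, g6, g7, g8] ++ Q1 ++ [b1, a1]) = z := by
      simp only [thL_append, thL_cons, thL_nil, E3]
      abel
    have n4 := bupetb_app (l' := Q) n3 le_rfl fun _ => by
      rw [e]; exact hz.mono (by norm_num)
    have n5 := bupetb_app (l' := [a3, a4]) n4 (le_add_of_nonneg_right (Int.natCast_nonneg _))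
      fun hz => near_short hz _
    exact ⟨_, n5.mono (by norm_num)⟩
  · have s1 := bupetb_rot ((d, tf) :: (q0, Tag.free 5) :: t) [l] (by simpa [hQ] using s0)
    have s2 := bupetb_step R1 [] t (by simpa using s1)
    have s3 := bupetb_step R2 [l, a3, a4]
      ((q0, Tag.free 5) :: t) s2
    have s4 := bupetb_step (rw_spur (a := b0) (b := b1) (p := (fk 1 p2, tr))
      hP1.mate E7 (by rw [eP1h]; rfl) C15) [l, a3, a4, a2, b3, b4, b2]
      (a1 :: (q0, Tag.free 5) :: t) s3
    have s5 := bupetb_step (rw_gadget j tp tq) ([l, a3, a4, a2, b3, b4, b2, b0] ++ P1')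
      (Q1' ++ b1 :: a1 :: (q0, Tag.free 5) :: t) (by simpa [eP1, eQ1] using s4)
    have s6 := bupetb_rot ([l, a3, a4, a2, b3, b4, b2, b0] ++ P1 ++ [g1, g2, g3])
      ([g4, g5, g6, g7, g8] ++ Q1 ++ b1 :: a1 :: (q0, Tag.free 5) :: t)
      (by simpa [eP1, eQ1, G0] using s5)
    have s7 := bupetb_step R5 [] ([b3, b4, b2, b0] ++ P1 ++ [g1, g2, g3])
      (by simpa [hN, hQ] using s6)
    have s8 := bupetb_rot (g4 :: P2 ++ [a2, b3]) ([b4, b2, b0] ++ P1 ++ [g1, g2, g3])
      (by simpa using s7)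
    simpa using s8

end Pool.Agent.MC
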