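import Pool.Agent.P.MP_2677b3_gt.BuFlat

namespace Pool.Agent.MC

/-- the next wall on the line after `x` -/
def buunr_nw (x : Dart) : Dart := if wall x then fk 2 x else fk 1 x

/-- wall number `r` on the line through `d` -/
def buunr_lw (d : Dart) (r : ℕ) : Dart := if r % 2 = 0 then d else fk 2 d

theorem buunr_lw_succ (d : Dart) (r : ℕ) : buunr_lw d (r + 1) = buunr_lw (fk 2 d) r := by
  unfold buunr_lw
  rcases Nat.mod_two_eq_zero_or_one r with h | h
  · rw [if_pos h, if_neg (by omega)]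
  · rw [if_neg (by omega : ¬ r % 2 = 0), if_pos (by omega), fk_two_two]

theorem buunr_J0 : ∀ x e : Dart, J x e → e = buunr_nw x ∨ e = fk 1 (rv (buunr_nw x)) := by
  decide +kernel

theorem buunr_J1 : ∀ x : Dart, wall (buunr_nw x) = true ∧ (buunr_nw x).1 = x.1 := by
  decide +kernel

theorem buunr_J2 : ∀ x : Dart, wall (fk 1 (rv (buunr_nw x))) = false ∧
    (fk 1 (rv (buunr_nw x))).1 = x.1 + 1 := by
  decide +kernel

theorem buunr_J (x e : Dart) (h : J x e) :
    (e = buunr_nw x ∧ wall e = true ∧ buunr_nw e = fk 2 e ∧ e.1 = x.1) ∨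
      (e = fk 1 (rv (buunr_nw x)) ∧ buunr_nw e = fk 1 e ∧ e.1 = x.1 + 1) := by
  rcases buunr_J0 x e h with h1 | h1
  · have h2 := buunr_J1 x
    rw [← h1] at h2
    exact Or.inl ⟨h1, h2.1, by simp [buunr_nw, h2.1], h2.2⟩
  · have h2 := buunr_J2 x
    rw [← h1] at h2
    exact Or.inr ⟨h1, by simp [buunr_nw, h2.1], h2.2⟩

theorem buunr_path {n : Dart} (hn : wall n = false) (t : List Dart) : ∀ x : Dart,
    (x :: t ++ [n]).IsChain J → ∃ r rs,
      t = walls (buunr_nw x) r ++ unr (fk 1 (rv (buunr_lw (buunr_nw x) r))) rs ∧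
      nxj (fk 1 (rv (buunr_lw (buunr_nw x) r))) rs = n ∧
      n.1 = x.1 + ((rs.length + 1 : ℕ) : ZMod 2) := by
  induction t with
  | nil =>
    intro x h
    have h1 : J x n := by simpa using h
    rcases buunr_J x n h1 with ⟨-, h2, -⟩ | ⟨h2, -, h3⟩
    · rw [hn] at h2; exact absurd h2 (by simp)
    · exact ⟨0, [], rfl, h2.symm, by simpa using h3⟩
  | cons e t ih =>
    intro x h
    have h0 : J x e ∧ (e :: t ++ [n]).IsChain J := List.isChain_cons_cons.1 h
    obtain ⟨r, rs, e1, e2, e3⟩ := ih e h0.2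
    rcases buunr_J x e h0.1 with ⟨h2, -, h3, h4⟩ | ⟨h2, h3, h4⟩
    · refine ⟨r + 1, rs, ?_, ?_, by rw [e3, h4]⟩
      · rw [← h2, buunr_lw_succ, ← h3]
        show e :: t = e :: (walls (fk 2 e) r ++ _)
        rw [← h3, ← e1]
      · rw [← h2, buunr_lw_succ, ← h3]; exact e2
    · rw [h3] at e1 e2
      refine ⟨0, r :: rs, ?_, ?_, ?_⟩
      · show e :: t = unr (fk 1 (rv (buunr_nw x))) (r :: rs)
        rw [← h2]
        exact congrArg (List.cons e) e1
      · show nxj (fk 1 (rv (buunr_nw x))) (r :: rs) = n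
        rw [← h2]
        exact e2
      · rw [e3, h4]
        push_cast [List.length_cons]
        ring

theorem buunr_seam {w : List Entry} (h : CChain JR w) : ∃ e ∈ w, wall e.1 = false := by
  by_contra hc
  have hw : ∀ e ∈ w, wall e.1 = true := fun e he => by
    by_contra h1
    exact hc ⟨e, he, by simpa using h1⟩
  have h1 : CChain (fun a b : Entry => a.2.rk < b.2.rk) w :=
    h.imp fun a ha b hb hab => hab.2 (hw a ha) (hw b hb)
  have h2 : CChain (· < ·) (w.map fun a : Entry => a.2.rk) := (cchain_map _).2 h1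
  generalize (w.map fun a : Entry => a.2.rk) = l at h2
  rcases l with _ | ⟨a, t⟩
  · exact h2
  · have h3 : (a :: (t ++ [a])).Pairwise (· < ·) := List.isChain_iff_pairwise.1 h2
    exact lt_irrefl a ((List.pairwise_cons.1 h3).1 a (by simp))

/-- sum of the angles along a path -/
def buunr_sa : Dart → List Dart → Dart → ℕ
  | x, [], n => ang x n
  | x, e :: t, n => ang x e + buunr_sa e t n

theorem buunr_sa_realize : True := by have := @buunr_sa.eq_def; trivial

theorem buunr_sa_zip (n : Dart) (t : List Dart) : ∀ x : Dart,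
    (List.zipWith (fun a b : Entry => ang a.1 b.1) (inn (x :: t)) (inn (t ++ [n]))).sum =
      buunr_sa x t n := by
  induction t with
  | nil => intro x; simp [buunr_sa]
  | cons e t ih =>
    intro x
    have := ih e
    simp only [inn_cons, List.cons_append, List.zipWith_cons_cons, List.sum_cons] at this ⊢
    rw [this]
    rfl

theorem buunr_cang (x : Dart) (t : List Dart) : cang (inn (x :: t)) = buunr_sa x t x := by
  rw [← buunr_sa_zip]
  unfold cang
  congr 2
  simp [List.rotate_cons_succ]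

theorem buunr_sa_append (e n : Dart) (B A : List Dart) : ∀ x : Dart,
    buunr_sa x (A ++ e :: B) n = buunr_sa x A e + buunr_sa e B n := by
  induction A with
  | nil => intro x; rfl
  | cons a A ih =>
    intro x
    show ang x a + buunr_sa a (A ++ e :: B) n = ang x a + buunr_sa a A e + buunr_sa e B n
    rw [ih a, Nat.add_assoc]

theorem buunr_sa_walls (k : ℕ) : ∀ d : Dart,
    buunr_sa d (walls (fk 2 d) k) (fk 1 (buunr_lw d k)) = 2 * k + 1 := by
  induction k with
  | zero => intro d; exact (ang_fk d).1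
  | succ k ih =>
    intro d
    show ang d (fk 2 d) + buunr_sa (fk 2 d) (walls (fk 2 (fk 2 d)) k) _ = _
    rw [buunr_lw_succ, ih, (ang_fk d).2.1]
    ring

theorem buunr_sa_arc (s : Dart) {a : ℕ} (ha : 1 ≤ a) :
    buunr_sa s (walls (fk 1 s) a) (fk 1 (nthW s (a + 1))) = 2 * a := by
  obtain ⟨k, rfl⟩ : ∃ k, a = k + 1 := ⟨a - 1, by omega⟩
  have e : nthW s (k + 1 + 1) = buunr_lw (fk 1 s) k := by
    unfold nthW buunr_lw
    rw [show (k + 1 + 1) % 2 = k % 2 by omega]
  show ang s (fk 1 s) + buunr_sa (fk 1 s) (walls (fk 2 (fk 1 s)) k) _ = _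
  rw [e, buunr_sa_walls, (ang_fk s).1]
  ring

theorem buunr_len (k : ℕ) : ∀ d : Dart, (walls d k).length = k := by
  induction k with
  | zero => intro d; rfl
  | succ k ih => intro d; simp [walls, ih]

theorem buunr_al_two : ∀ d : Dart, wall d = true → al (fk 2 d) = al d ∧ wall (fk 2 d) = true := by
  decide

theorem buunr_al (k : ℕ) : ∀ d : Dart, wall d = true →
    alL (inn (walls d k)) = (k : ZMod 4) * al d := by
  induction k with
  | zero => intro d _; simp [walls]
  | succ k ih =>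
    intro d hd
    obtain ⟨h1, h2⟩ := buunr_al_two d hd
    simp only [walls, inn_cons, alL_cons]
    rw [ih _ h2, h1]
    push_cast
    ring

theorem buunr_nthW (s : Dart) (a : ℕ) : nthW s (a + 1) = nthW s (a % 2 + 1) := by
  unfold nthW
  rw [show (a % 2 + 1) % 2 = (a + 1) % 2 by omega]

theorem buunr_par : ∀ s : Dart, wall s = false → ∀ p q r : Fin 2,
    nxc s [p.1, q.1, r.1] = s → p.1 = 1 ∧ q.1 = 1 ∧ r.1 = 1 := by
  decide +kernel

theorem buunr_sum : ∀ s : Dart, wall s = false → wall (fk 1 s) = true ∧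
    wall (fk 1 (fk 1 (fk 1 s))) = true ∧ wall (fk 1 (fk 1 (fk 1 (fk 1 (fk 1 s))))) = true ∧
    ∀ x y z : ZMod 4, al s + (x * al (fk 1 s) + (al (fk 1 (fk 1 s)) +
      (y * al (fk 1 (fk 1 (fk 1 s))) + (al (fk 1 (fk 1 (fk 1 (fk 1 s)))) +
        z * al (fk 1 (fk 1 (fk 1 (fk 1 (fk 1 s))))))))) = 1 → x + y + z = 3 := by
  decide +kernel

theorem unr_of_chain {w : List Entry} (h : CChain JR w) : ∃ s rs, wall s = false ∧
    darts w ~r unr s rs ∧ nxj s rs = s ∧ Even rs.length ∧ 2 ≤ rs.length := by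
  obtain ⟨e, he, hs⟩ := buunr_seam h
  obtain ⟨A, B, rfl⟩ := List.append_of_mem he
  have hr : A ++ e :: B ~r e :: B ++ A := List.isRotated_append
  have h1 : CChain J (darts (e :: B ++ A)) :=
    (cchain_map (S := J) Prod.fst).2 ((h.isRotated hr).imp fun a _ b _ hab => hab.1)
  have h2 : (e.1 :: darts (B ++ A) ++ [e.1]).IsChain J := h1
  obtain ⟨r, rs, e1, e2, e3⟩ := buunr_path hs _ _ h2
  have h3 : buunr_nw e.1 = fk 1 e.1 := by simp [buunr_nw, hs]
  rw [h3] at e1 e2
  have h4 : Even (rs.length + 1) := by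
    have h5 : ((rs.length + 1 : ℕ) : ZMod 2) = 0 := by
      have := e3
      rwa [left_eq_add] at this
    exact (ZMod.natCast_eq_zero_iff_even).1 h5
  refine ⟨e.1, r :: rs, hs, ?_, e2, h4, ?_⟩
  · have h6 : unr e.1 (r :: rs) = darts (e :: B ++ A) := congrArg (List.cons e.1) e1.symm
    rw [h6]
    exact hr.map _
  · obtain ⟨k, hk⟩ := h4
    simp only [List.length_cons]
    omega

/-- A closed convex face with three seams. -/
theorem tri_facts (s : Dart) (hs : wall s = false) (a₁ a₂ a₃ : ℕ) (h₁ : 1 ≤ a₁) (h₂ : 1 ≤ a₂)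
    (h₃ : 1 ≤ a₃) (hc : nxc s [a₁, a₂, a₃] = s) :
    a₁ % 2 = 1 ∧ a₂ % 2 = 1 ∧ a₃ % 2 = 1 ∧
    cang (inn (cvx s [a₁, a₂, a₃])) + 6 = 2 * (inn (cvx s [a₁, a₂, a₃])).length ∧
    (alL (inn (cvx s [a₁, a₂, a₃])) = 1 → (a₁ + a₂ + a₃) % 4 = 3) := by
  have hp := buunr_par s hs ⟨a₁ % 2, Nat.mod_lt _ two_pos⟩ ⟨a₂ % 2, Nat.mod_lt _ two_pos⟩
    ⟨a₃ % 2, Nat.mod_lt _ two_pos⟩ (by
      simp only [nxc] at hc ⊢
      simp only [← buunr_nthW]
      exact hc)
  obtain ⟨p₁, p₂, p₃⟩ : a₁ % 2 = 1 ∧ a₂ % 2 = 1 ∧ a₃ % 2 = 1 := hp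
  refine ⟨p₁, p₂, p₃, ?_, fun h => ?_⟩
  · have q₁ := buunr_sa_arc s h₁
    have q₂ := buunr_sa_arc (fk 1 (nthW s (a₁ + 1))) h₂
    have q₃ := buunr_sa_arc (fk 1 (nthW (fk 1 (nthW s (a₁ + 1))) (a₂ + 1))) h₃
    simp only [nxc] at hc
    rw [hc] at q₃
    simp only [cvx, List.cons_append, List.append_nil]
    rw [buunr_cang, buunr_sa_append, buunr_sa_append, q₁, q₂, q₃]
    simp only [inn, List.length_map, List.length_cons, List.length_append, buunr_len]
    omega
  · obtain ⟨w₁, w₂, w₃, hsum⟩ := buunr_sum s hs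
    have n₁ : ∀ (d : Dart) (a : ℕ), a % 2 = 1 → nthW d (a + 1) = fk 1 d := fun d a ha => by
      unfold nthW
      rw [if_pos (by omega)]
    simp only [cvx, n₁ _ _ p₁, n₁ _ _ p₂, List.cons_append, List.append_nil, inn_cons, inn_append,
      alL_cons, alL_append, buunr_al _ _ w₁, buunr_al _ _ w₂, buunr_al _ _ w₃] at h
    have h1 := hsum _ _ _ h
    exact (ZMod.natCast_eq_natCast_iff' (a₁ + a₂ + a₃) 3 4).1 (by push_cast; exact h1)

end Pool.Agent.MC
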