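import Pool.Agent.P.MP_2677b3_gt.BuChain
import Pool.Agent.P.MP_2677b3_gt.BuUnr

namespace Pool.Agent.MC

theorem buterm_second {X A B : List Entry} {H H' : List (List Entry)} (h : RwC X (A :: B :: H))
    (h' : RwC B H') : RwC X (A :: (H' ++ H)) :=
  ((h.perm (List.Perm.swap B A H)).trans h').perm List.perm_middle

theorem buterm_holes (a b : List (ZMod 6 × Bool)) : holes (a ++ b) = holes a ++ holes b :=
  List.map_append

theorem buterm_split (rs : List ℕ) (h2 : 2 ≤ rs.length) :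
    ∃ l mid μ, rs = l :: mid ++ [μ] := by
  rcases rs with _ | ⟨l, t⟩
  · simp at h2
  · rcases List.eq_nil_or_concat t with rfl | ⟨mid, μ, rfl⟩
    · simp at h2
    · exact ⟨l, mid, μ, by simp⟩

theorem buterm_half {t a : ℕ} (h : t % 2 = a % 2) (h' : t ≤ a) : ∃ b, a = t + 2 * b :=
  ⟨(a - t) / 2, by omega⟩

theorem buterm_even {l μ : ℕ} {mid : List ℕ} (h : Even (l :: mid ++ [μ]).length) :
    Even mid.length := by
  simp only [List.cons_append, List.length_cons, List.length_append, List.length_nil,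
    Nat.even_iff] at h ⊢
  omega

theorem term_init (s : Dart) (hs : wall s = false) (rs : List ℕ) (hc : nxj s rs = s)
    (he : Even rs.length) (h2 : 2 ≤ rs.length) : ∃ s' a₁ a₂ a₃ rs' hs, TS s' a₁ a₂ a₃ rs' ∧
      hs ≠ [] ∧ RwC (inn (unr s rs)) (tsFace s' a₁ a₂ a₃ rs' :: holes hs) := by
  obtain ⟨l, mid, μ, rfl⟩ := buterm_split rs h2
  obtain ⟨S, hS⟩ : ∃ S, S = l + mid.sum + 12 * mid.length + 20 := ⟨_, rfl⟩
  obtain ⟨K, hK⟩ : ∃ K, K = l + μ + 20 := ⟨_, rfl⟩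
  obtain ⟨ν, hν⟩ : ∃ ν, l + ν = 1 + 2 * (S + K) := ⟨1 + 2 * (S + K) - l, by omega⟩
  have hcv : nxc s ([] ++ [l + ν, 1 + 2 * (K + K), 1 + 2 * (K + S)]) = s := by
    rw [List.nil_append, nxc_congr s (bs := [1, 1, 1]) ?_]
    · exact (fill_tri s hs).1
    · refine .cons ?_ (.cons ?_ (.cons ?_ .nil)) <;> omega
  obtain ⟨g1, g2, h, h', g3⟩ := chain_cut s hs [] mid l μ (1 + 2 * (K + S)) (1 + 2 * (K + K)) ν
    (by simp) (by omega) (by omega) (by omega) hc hcv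
  obtain ⟨hs0, g4⟩ := fill3 s hs S K K
  rw [← hν] at g4
  refine ⟨_, _, _, _, mid, hs0 ++ [h, h'], ⟨g1, g2, buterm_even he, ?_, ?_, ?_⟩, by simp, ?_⟩
  · omega
  · omega
  · omega
  · rw [buterm_holes]
    exact buterm_second g3 g4

theorem term_step {s : Dart} {a₁ a₂ a₃ l μ : ℕ} {mid : List ℕ}
    (h : TS s a₁ a₂ a₃ (l :: mid ++ [μ])) : ∃ s' b₁ b₂ b₃ hs, TS s' b₁ b₂ b₃ mid ∧
      RwC (tsFace s a₁ a₂ a₃ (l :: mid ++ [μ])) (tsFace s' b₁ b₂ b₃ mid :: holes hs) := by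
  obtain ⟨hs, hcl, hev, i1, i2, i3⟩ := h
  simp only [List.cons_append, List.sum_cons, List.sum_append, List.sum_nil, List.length_cons,
    List.length_append, List.length_nil] at i1
  obtain ⟨t₀, t₁, t₂, t₃, t₄, t₅, ht, p0, p1, p2, hc, hf⟩ := fill_hex s hs a₁ a₂ a₃
  have ht' := ht
  simp only [List.mem_cons, List.not_mem_nil, or_false, forall_eq_or_imp, forall_eq] at ht'
  obtain ⟨⟨l0, u0⟩, ⟨l1, u1⟩, ⟨l2, u2⟩, ⟨l3, u3⟩, ⟨l4, u4⟩, ⟨l5, u5⟩⟩ := ht'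
  have q1 : 20 ≤ a₁ := by omega
  have q2 : 20 ≤ a₂ := by omega
  have q3 : 20 ≤ a₃ := by omega
  obtain ⟨b₀, e1⟩ := buterm_half p0 (u0.trans (le_trans (by norm_num) q1))
  obtain ⟨b₁, e2⟩ := buterm_half p1 (u1.trans (le_trans (by norm_num) q2))
  obtain ⟨b₂, e3⟩ := buterm_half p2 (u2.trans (le_trans (by norm_num) q3))
  clear p0 p1 p2
  obtain ⟨r₀, r₁, r₂, r₃, rfl, rfl, rfl⟩ : ∃ r₀ r₁ r₂ r₃, b₀ = r₀ + r₁ ∧ b₁ = r₁ + r₂ ∧
      b₂ = r₂ + r₃ := by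
    have hb : b₁ ≤ b₀ + b₂ := by omega
    clear * - hb
    by_cases hle : b₀ ≤ b₁
    · exact ⟨0, b₀, b₁ - b₀, b₂ - (b₁ - b₀), by omega, by omega, by omega⟩
    · exact ⟨b₀ - b₁, b₁, 0, b₂, by omega, by omega, by omega⟩
  obtain ⟨H, hH⟩ : ∃ H, H = r₀ + r₃ + l + μ + 20 := ⟨_, rfl⟩
  obtain ⟨ν, hν⟩ : ∃ ν, l + ν = t₃ + 2 * (r₃ + H) :=
    Nat.exists_eq_add_of_le (by linarith) |>.imp fun _ h => h.symm
  have hcv : nxc s ([a₁, a₂, a₃] ++ [l + ν, t₄ + 2 * (H + H), t₅ + 2 * (H + r₀)]) = s := by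
    rw [nxc_congr s (bs := [t₀, t₁, t₂, t₃, t₄, t₅]) ?_]
    · exact hc
    · rw [hν, e1, e2, e3]
      refine .cons ?_ (.cons ?_ (.cons ?_ (.cons ?_ (.cons ?_ (.cons ?_ .nil))))) <;>
        exact Nat.add_mul_mod_self_left _ _ _
  obtain ⟨g1, g2, h, h', g3⟩ := chain_cut s hs [a₁, a₂, a₃] mid l μ (t₅ + 2 * (H + r₀))
    (t₄ + 2 * (H + H)) ν (by
      simp only [List.mem_cons, List.not_mem_nil, or_false, forall_eq_or_imp, forall_eq]
      exact ⟨by linarith, by linarith, by linarith⟩) (by linarith) (by linarith) (by linarith)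
      hcl hcv
  obtain ⟨hs0, g4⟩ := fill6 s hs t₀ t₁ t₂ t₃ t₄ t₅ r₀ r₁ r₂ r₃ H H (fun t h => (ht t h).1) hc hf
  rw [← hν, ← e1, ← e2, ← e3] at g4
  refine ⟨_, _, _, _, hs0 ++ [h, h'], ⟨g1, g2, buterm_even hev, ?_, ?_, ?_⟩, ?_⟩
  · linarith
  · linarith
  · linarith
  · rw [buterm_holes]
    exact buterm_second g3 g4

theorem term_last {s : Dart} {a₁ a₂ a₃ : ℕ} (h : TS s a₁ a₂ a₃ []) : ∃ hs, ∀ F,
    (∀ f ∈ F, Flat f) → Real (tsFace s a₁ a₂ a₃ [] :: F) → Real (holes hs ++ F) := by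
  obtain ⟨hs, hcl, -, i1, i2, i3⟩ := h
  simp only [List.sum_nil, List.length_nil] at i1
  obtain ⟨p1, p2, p3, p4, p5⟩ := tri_facts s hs a₁ a₂ a₃ (by omega) (by omega) (by omega) hcl
  have e : tsFace s a₁ a₂ a₃ [] = inn (cvx s [a₁, a₂, a₃]) := by
    rw [tsFace, unr, List.append_nil]
  rw [e]
  by_cases h4 : (a₁ + a₂ + a₃) % 4 = 3
  · obtain ⟨r₀, r₁, r₂, e1, e2, e3⟩ : ∃ r₀ r₁ r₂, a₁ = 1 + 2 * (r₀ + r₁) ∧
        a₂ = 1 + 2 * (r₁ + r₂) ∧ a₃ = 1 + 2 * (r₂ + r₀) :=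
      ⟨(a₁ + a₃ - a₂ - 1) / 4, (a₁ + a₂ - a₃ - 1) / 4, (a₂ + a₃ - a₁ - 1) / 4,
        by omega, by omega, by omega⟩
    obtain ⟨hs0, g⟩ := fill3 s hs r₀ r₁ r₂
    rw [← e1, ← e2, ← e3] at g
    exact ⟨hs0, fun F _ hR => g F hR⟩
  · exact ⟨[], fun F hF hR => absurd (p5 (hR.al_one hF p4)) h4⟩

theorem buterm_iter : ∀ (n : ℕ) (rs : List ℕ) (s : Dart) (a₁ a₂ a₃ : ℕ), rs.length ≤ n →
    TS s a₁ a₂ a₃ rs → ∃ hs, ∀ F, (∀ f ∈ F, Flat f) → Real (tsFace s a₁ a₂ a₃ rs :: F) →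
      Real (holes hs ++ F) := by
  intro n
  induction n with
  | zero =>
    intro rs s a₁ a₂ a₃ hn h
    obtain rfl := List.length_eq_zero_iff.1 (Nat.le_zero.1 hn)
    exact term_last h
  | succ n ih =>
    intro rs s a₁ a₂ a₃ hn h
    by_cases h2 : 2 ≤ rs.length
    · obtain ⟨l, mid, μ, rfl⟩ := buterm_split rs h2
      obtain ⟨s', b₁, b₂, b₃, hs, h3, h4⟩ := term_step h
      obtain ⟨hs', h5⟩ := ih mid s' b₁ b₂ b₃ (by
        simp only [List.cons_append, List.length_cons, List.length_append] at hn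
        omega) h3
      refine ⟨hs' ++ hs, fun F hF hR => ?_⟩
      rw [buterm_holes, List.append_assoc]
      refine h5 _ (fun f hf => ?_) (h4 F hR)
      rcases List.mem_append.1 hf with hf | hf
      · obtain ⟨x, -, rfl⟩ := List.mem_map.1 hf
        exact flat_hole _ _
      · exact hF f hf
    · have h3 := Nat.even_iff.1 h.even
      obtain rfl : rs = [] := List.length_eq_zero_iff.1 (by omega)
      exact term_last h

theorem buterm_one {w : List Entry} (hw : CChain JR w) : ∃ hs, hs ≠ [] ∧ ∀ F,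
    (∀ f ∈ F, Flat f) → Real (inn (darts w) :: F) → Real (holes hs ++ F) := by
  obtain ⟨s, rs, h1, h2, h3, h4, h5⟩ := unr_of_chain hw
  obtain ⟨s', a₁, a₂, a₃, rs', hs, g1, g2, g3⟩ := term_init s h1 rs h3 h4 h5
  obtain ⟨hs', g4⟩ := buterm_iter _ rs' s' a₁ a₂ a₃ le_rfl g1
  refine ⟨hs' ++ hs, fun h => g2 (List.append_eq_nil_iff.1 h).2, fun F hF hR => ?_⟩
  rw [buterm_holes, List.append_assoc]
  refine g4 _ (fun f hf => ?_) (g3 F (rwC_rot (X' := inn (unr s rs)) (h2.map _) F hR))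
  rcases List.mem_append.1 hf with hf | hf
  · obtain ⟨x, -, rfl⟩ := List.mem_map.1 hf
    exact flat_hole _ _
  · exact hF f hf

/-- A good loop can be filled with tiles and a bounded number of holes. -/
theorem term : ∃ M : ℕ, ∀ w, Good w → ∃ hs, hs ≠ [] ∧ hs.length ≤ M ∧ ∀ F,
    (∀ f ∈ F, Flat f) → Real (w :: F) → Real (holes hs ++ F) := by
  have key : ∀ D : List Dart, ∃ m : ℕ, ∀ w, Good w → darts w = D → ∃ hs, hs ≠ [] ∧
      hs.length ≤ m ∧ ∀ F, (∀ f ∈ F, Flat f) → Real (w :: F) → Real (holes hs ++ F) := by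
    intro D
    by_cases h : ∃ w, Good w ∧ darts w = D
    · obtain ⟨w0, h0, rfl⟩ := h
      obtain ⟨hs, h1, h2⟩ := buterm_one h0.ch
      refine ⟨hs.length, fun w _ e => ⟨hs, h1, le_rfl, fun F hF hR => h2 F hF ?_⟩⟩
      rw [← e]
      exact hR.toInner
    · exact ⟨0, fun w hw e => absurd ⟨w, hw, e⟩ h⟩
  choose m hm using key
  obtain ⟨M, hM⟩ := ((List.finite_length_le Dart 1000000).image m).bddAbove
  refine ⟨M, fun w hw => ?_⟩
  obtain ⟨hs, h1, h2, h3⟩ := hm _ w hw rfl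
  refine ⟨hs, h1, h2.trans (hM ⟨darts w, ?_, rfl⟩), h3⟩
  rw [Set.mem_ofPred_eq, length_darts]
  exact hw.len

end Pool.Agent.MC
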