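import Pool.Agent.P.MP_2677b3_gt.BuSplit
import Pool.Agent.P.MP_2677b3_gt.BuTerm
import Pool.Agent.P.MP_2677b3_gt.BuExt

namespace Pool.Agent.MC

/-- all ranked tags become free -/
def bupieceaG : Tag → Tag
  | .top r => .free (5 - r)
  | .old r => .free r
  | t => t

theorem bupiecea_pairs (u : ZMod 6 → ℕ) {f : List Entry} (hf : f ∈ pairs u) :
    ∃ j σ, f = hole j σ := by
  simp only [pairs, List.mem_flatMap, List.mem_flatten, List.mem_replicate] at hf
  obtain ⟨j, -, l, ⟨-, rfl⟩, h⟩ := hf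
  simp only [pair, List.mem_cons, List.not_mem_nil, or_false] at h
  rcases h with h | h <;> exact ⟨j, _, h⟩

theorem bupiecea_swap {w : List Entry} (hw : Good w) {kids : List (List Entry)}
    (hk : ∀ x ∈ kids, Good x) {u : ZMod 6 → ℕ} (h : Real (topOf w :: kids ++ pairs u)) :
    ∃ kids' : List (List Entry), kids'.length = kids.length + 1 ∧ (∀ x ∈ kids', Good x) ∧
      Real (kids' ++ pairs u) := by
  have h1 : Real ((topOf w :: kids ++ pairs u).map (List.map fun e => (e.1, bupieceaG e.2))) := by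
    refine h.retag (fun t t' => t' = bupieceaG t) ?_ ?_
    · rintro t s _ _ hc rfl rfl
      cases t <;> cases s <;> first | rfl | exact hc
    · rw [List.forall₂_map_right_iff, List.forall₂_same]
      intro l _
      rw [List.forall₂_map_right_iff, List.forall₂_same]
      exact fun _ _ => ⟨rfl, rfl⟩
  have h2 : (pairs u).map (List.map fun e : Entry => (e.1, bupieceaG e.2)) = pairs u := by
    refine (List.map_congr_left fun f hf => ?_).trans (List.map_id _)
    obtain ⟨j, σ, rfl⟩ := bupiecea_pairs u hf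
    rfl
  refine ⟨(topOf w :: kids).map (List.map fun e => (e.1, bupieceaG e.2)), by simp, ?_, ?_⟩
  · intro x hx
    obtain ⟨y, hy, rfl⟩ := List.mem_map.1 hx
    rcases List.mem_cons.1 hy with rfl | hy
    · have := hw.mirror
      rw [topOf, List.map_reverse, List.map_map]
      exact this
    · have h3 : (y.map fun e : Entry => (e.1, bupieceaG e.2)) =
          y.map fun e => (e.1, Tag.free e.2.rk) := by
        refine List.map_congr_left fun e he => ?_
        rcases ((hk y hy).tg e he).2 with h4 | h4 <;> rw [h4] <;> rfl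
      rw [h3]
      exact (hk y hy).free
  · rwa [List.map_append, h2] at h1

theorem bupiecea_top {w : List Entry} (hw : Good w) (u : ZMod 6 → ℕ) (k : ℕ)
    (hk : (∑ j, u j) + 1000010 ≤ k) :
    ∃ kids, kids.length = k ∧ (∀ x ∈ kids, Good x) ∧ Real (topOf w :: kids ++ pairs u) := by
  obtain ⟨n, hn, h⟩ := split hw
  have hs : ∑ j, u j = u 0 + u 1 + u 2 + u 3 + u 4 + u 5 := Fin.sum_univ_six (f := u)
  obtain ⟨kids, h1, h2, h3⟩ := h ((([0, 1, 2, 3, 4, 5] : List (ZMod 6)).flatMap fun j =>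
    List.replicate (u j) (some j)) ++ List.replicate (k - n - ∑ j, u j) none)
  refine ⟨kids, ?_, h2, ?_⟩
  · rw [h1]
    simp only [List.flatMap_cons, List.flatMap_nil, List.length_append, List.length_replicate,
      List.length_nil]
    omega
  · convert h3 using 2
    simp [pairs, List.flatMap_def]

theorem piece_one {w : List Entry} (hw : Good w) (u : ZMod 6 → ℕ) (k : ℕ)
    (hk : (∑ j, u j) + 1000011 ≤ k) :
    (∃ kids, kids.length = k ∧ (∀ x ∈ kids, Good x) ∧ Real (topOf w :: kids ++ pairs u)) ∧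
    (∃ kids, kids.length = k ∧ (∀ x ∈ kids, Good x) ∧ Real (kids ++ pairs u)) := by
  refine ⟨bupiecea_top hw u k (by omega), ?_⟩
  obtain ⟨kids, h1, h2, h3⟩ := bupiecea_top hw u (k - 1) (by omega)
  obtain ⟨kids', h4, h5, h6⟩ := bupiecea_swap hw h2 h3
  exact ⟨kids', by omega, h5, h6⟩

theorem bupiecea_fill {M : ℕ} (hM : ∀ w, Good w → ∃ hs, hs ≠ [] ∧ hs.length ≤ M ∧ ∀ F,
    (∀ f ∈ F, Flat f) → Real (w :: F) → Real (holes hs ++ F)) (A : List (List Entry))
    (hA : ∀ x ∈ A, Good x) (F : List (List Entry)) (hF : ∀ f ∈ F, Flat f) (h : Real (A ++ F)) :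
    ∃ hs, (A ≠ [] → hs ≠ []) ∧ hs.length ≤ A.length * M ∧ Real (holes hs ++ F) := by
  induction A generalizing F with
  | nil => exact ⟨[], fun h => absurd rfl h, by simp, h⟩
  | cons a A ih =>
    obtain ⟨h₁, hne, hl, hr⟩ := hM a (hA a List.mem_cons_self)
    have hA' : ∀ x ∈ A, Good x := fun x hx => hA x (List.mem_cons_of_mem _ hx)
    have h1 := hr (A ++ F) (fun f hf => (List.mem_append.1 hf).elim (fun h => (hA' f h).flat)
      (hF f)) h
    have h2 : Real (A ++ (holes h₁ ++ F)) := h1.perm (by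
      rw [← List.append_assoc, ← List.append_assoc]
      exact List.perm_append_comm.append_right _)
    obtain ⟨h₂, -, hl', hr'⟩ := ih hA' (holes h₁ ++ F) (fun f hf => by
      rcases List.mem_append.1 hf with hf | hf
      · obtain ⟨x, -, rfl⟩ := List.mem_map.1 hf
        exact flat_hole _ _
      · exact hF f hf) h2
    refine ⟨h₂ ++ h₁, fun _ => by simp [hne], ?_, ?_⟩
    · rw [List.length_append, List.length_cons, Nat.add_mul]
      omega
    · rwa [holes, List.map_append, List.append_assoc]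

theorem bupiecea_two {M : ℕ} (hM : ∀ w, Good w → ∃ hs, hs ≠ [] ∧ hs.length ≤ M ∧ ∀ F,
    (∀ f ∈ F, Flat f) → Real (w :: F) → Real (holes hs ++ F)) (T kids : List (List Entry))
    (hT : ∀ f ∈ T, Flat f ∧ thL f = 0) (hk : ∀ x ∈ kids, Good x) (k : ℕ)
    (hl : kids.length = 1000011 + k) (h : Real (T ++ kids)) (u : ZMod 6 → ℕ)
    (hu : ∀ j, 2 * (1000011 * M) + 1 ≤ u j) :
    ∃ kids, kids.length = k ∧ (∀ x ∈ kids, Good x) ∧ Real (T ++ kids ++ pairs u) := by
  obtain ⟨A, B, rfl, hA⟩ : ∃ A B, kids = A ++ B ∧ A.length = 1000011 :=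
    ⟨kids.take 1000011, kids.drop 1000011, (List.take_append_drop _ _).symm,
      List.length_take_of_le (by omega)⟩
  have hB : ∀ x ∈ B, Good x := fun x hx => hk x (List.mem_append_right _ hx)
  have hF : ∀ f ∈ T ++ B, Flat f ∧ thL f = 0 := fun f hf =>
    (List.mem_append.1 hf).elim (hT f) fun h => ⟨(hB f h).flat, (hB f h).th⟩
  obtain ⟨hs, hne, hl', hr⟩ := bupiecea_fill hM A (fun x hx => hk x (List.mem_append_left _ hx))
    (T ++ B) (fun f hf => (hF f hf).1) (h.perm (by
      rw [← List.append_assoc, ← List.append_assoc]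
      exact List.perm_append_comm.append_right _))
  have h0 := hr.th_sum
  rw [List.map_append, List.sum_append, List.sum_eq_zero (l := (T ++ B).map thL) (fun x hx => by
    obtain ⟨f, hf, rfl⟩ := List.mem_map.1 hx
    exact (hF f hf).2), add_zero] at h0
  obtain ⟨m, hm, hm1, hb⟩ := balance hs (hne (by rintro rfl; simp at hA)) h0
  rw [hA] at hl'
  refine ⟨B, by rw [List.length_append] at hl; omega, hB,
    (add_all hm1 (fun j => ?_) (hb _ hr)).perm List.perm_append_comm⟩
  have := hm j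
  have := hu j
  omega

theorem piece_two : ∃ c : ℕ, ∀ w, Good w → ∀ (u : ZMod 6 → ℕ) (k : ℕ), (∀ j, c ≤ u j) →
    (∃ kids, kids.length = k ∧ (∀ x ∈ kids, Good x) ∧ Real (topOf w :: kids ++ pairs u)) ∧
    (∃ kids, kids.length = k ∧ (∀ x ∈ kids, Good x) ∧ Real (kids ++ pairs u)) := by
  obtain ⟨M, hM⟩ := term
  refine ⟨2 * (1000011 * M) + 1, fun w hw u k hu => ?_⟩
  obtain ⟨⟨A, h1, h2, h3⟩, B, h4, h5, h6⟩ := piece_one hw 0 (1000011 + k) (by simp)
  have h0 : pairs 0 = [] := rfl
  rw [h0, List.append_nil] at h3 h6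
  exact ⟨bupiecea_two hM [topOf w] A (fun f hf => by
      rw [List.mem_singleton.1 hf]; exact hw.flat_top) h2 k h1 h3 u hu,
    bupiecea_two hM [] B (by simp) h5 k h4 h6 u hu⟩

end Pool.Agent.MC
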