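import Pool.Agent.P.MP_2677b3_gt.BuJcut

namespace Pool.Agent.MC

theorem buziga_head {l : List Entry} {d : Dart} (h : (darts l).head? = some d) :
    ∃ p t, l = p :: t ∧ p.1 = d := by
  rcases l with _ | ⟨p, t⟩
  · simp at h
  · exact ⟨p, t, rfl, by simpa using h⟩

theorem buziga_last {l : List Entry} {d : Dart} (h : (darts l).getLast? = some d) :
    ∀ e ∈ l.getLast?, e.1 = d := by
  intro e he
  rw [darts, List.getLast?_map, Option.mem_def.1 he] at h
  simpa using h

theorem buziga_Qhd {d₀ d₁ : Dart} {v : Fin 4 → ℤ} {P Q : List Entry} (h : PP d₀ d₁ v P Q) :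
    (darts Q).head? = some (rv d₁) := by
  rw [h.mate.darts, mirror, List.head?_reverse, List.getLast?_map, h.lst]
  rfl

theorem buziga_Qlst {d₀ d₁ : Dart} {v : Fin 4 → ℤ} {P Q : List Entry} (h : PP d₀ d₁ v P Q) :
    (darts Q).getLast? = some (rv d₀) := by
  rw [h.mate.darts, mirror, List.getLast?_reverse, List.head?_map, h.hd]
  rfl

theorem buziga_Qlen {P Q : List Entry} (h : Mate P Q) : Q.length = P.length := by
  have := List.Forall₂.length_eq h
  simpa using this.symm

theorem buziga_fw {l : List Entry} (h : l.IsChain JR) : (darts l).IsChain Fw := by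
  rw [darts, List.isChain_map]
  exact h.imp fun a b hab => J_fw _ _ hab.1

theorem buziga_kt {e : Entry} (h : e.2 = .free e.2.rk ∧ e.2.rk ≤ 2) : KT 5 e :=
  ⟨h.2.trans (by norm_num), Or.inr h.1⟩

theorem buziga_d1 (d : Dart) (h : wall d = false) : wall (fk 1 d) = true ∧ wall (fk 3 d) = true ∧
    Spl d (fk 1 d) (fk 3 d) ∧ J d (fk 1 d) ∧ J (rv (fk 1 d)) (fk 3 d) := by
  revert d; decide +kernel

/-- the last wall of the spur -/
def buziga_w : Dart := fk 2 (0, 0, 0)

theorem buziga_th : th buziga_w + th (out 5 (rv buziga_w)) + th (out 4 (rv buziga_w)) +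
    th (out 3 (rv buziga_w)) + th (out 2 (rv buziga_w)) + th (out 1 (rv buziga_w)) = 0 := by
  decide +kernel

theorem buziga_facts : J (0, 0, 0) buziga_w ∧ 2 ≤ ang buziga_w (rv buziga_w) ∧
    2 ≤ ang (rv buziga_w) (rv (0, 0, 0)) ∧ J (out 2 (rv buziga_w)) (out 1 (rv buziga_w)) ∧
    wall (out 1 (rv buziga_w)) = false ∧ J (out 1 (rv buziga_w)) (rv (0, 0, 0)) ∧
    wall (out 3 (rv buziga_w)) = false ∧ out 2 (rv buziga_w) = fk 3 (out 3 (rv buziga_w)) ∧
    wall (out 5 (rv buziga_w)) = false ∧ out 4 (rv buziga_w) = fk 3 (out 5 (rv buziga_w)) ∧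
    J (out 4 (rv buziga_w)) (out 3 (rv buziga_w)) ∧ wall buziga_w = true ∧
    out 5 (rv buziga_w) = fk 3 buziga_w ∧ wall ((0, 0, 0) : Dart) = true := by
  decide +kernel

theorem buziga_free (d : Dart) {r : ℕ} (h : r ≤ 5) : KT 5 (d, Tag.free r) := ⟨h, Or.inr rfl⟩

attribute [local irreducible] fk out ang th wall rv lf J Spl Phi

theorem zig_start {U₀ U₁ : Entry × List Entry} {us : List (Entry × List Entry)}
    (h : UCh (U₀ :: U₁ :: us) U₀.1.1) (hn : ∃ z, Near 1020 z (flatU (U₀ :: U₁ :: us)))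
    (h0 : thL (flatU (U₀ :: U₁ :: us)) = 0) :
    ∃ f Lp Rp z k, ZS f Lp us Rp z ∧ Good k ∧
      RwC (flatU (U₀ :: U₁ :: us)) [f :: Lp ++ flatU us ++ Rp, k] := by
  obtain ⟨v0, K0⟩ := U₀
  obtain ⟨v1, K1⟩ := U₁
  obtain ⟨s0, g0, ⟨t0, e0⟩, c0, g0', l0, j0, s1, g1, ⟨t1, e1⟩, c1, g1', l1, j1, hus⟩ := h
  simp only at s0 g0 e0 c0 g0' l0 j0 s1 g1 e1 c1 g1' l1 j1 hus
  have hX : flatU ((v0, K0) :: (v1, K1) :: us) = (v0 :: K0 ++ [v1]) ++ (K1 ++ flatU us) := by
    simp [flatU]
  rw [hX] at hn h0 ⊢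
  obtain ⟨z, hz⟩ := hn
  obtain ⟨hz1, hz2⟩ := near_append.1 hz
  obtain ⟨-, hz3⟩ := near_append.1 hz2
  have hzv : InB 1020 (z - th v0.1) := Near.start (l := K0 ++ [v1]) hz1.2
  have hze : InB 1020 (z - thL (v0 :: K0 ++ [v1])) := hz1.finish
  obtain ⟨a1, a2, a3, a4, a5⟩ := buziga_d1 v0.1 s0
  obtain ⟨b1, b2, -, -, -⟩ := buziga_d1 v1.1 s1
  obtain ⟨f1, f2, f3, f4, f5, f6, f7, f8, f9, f10, f11, f12, f13, f14⟩ := buziga_facts
  have hth := buziga_th
  generalize buziga_w = W at f1 f2 f3 f4 f5 f6 f7 f8 f9 f10 f11 f12 f13 hth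
  obtain ⟨P0, Q0, -, -, hP0, -, -⟩ := pl (fk 1 v0.1) (0, 0, 0) a1 f14 (z - th v0.1)
  generalize ((0, 0, 0) : Dart) = D at f1 f3 f6 f14 hP0
  obtain ⟨p0, P0', eP, hp0⟩ := buziga_head hP0.hd
  obtain ⟨q0, Q0', eQ, hq0⟩ := buziga_head (buziga_Qhd hP0)
  set w1 : Entry := (W, Tag.free 3) with hw1
  set wb : Entry := (rv W, Tag.inner) with hwb
  set sA : Entry := (out 5 (rv W), Tag.free 0) with hsA
  set w2 : Entry := (out 4 (rv W), Tag.free 5) with hw2
  set sB : Entry := (out 3 (rv W), Tag.free 0) with hsB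
  set w3 : Entry := (out 2 (rv W), Tag.free 3) with hw3
  set st : Entry := (out 1 (rv W), Tag.free 0) with hst
  set k0 : Entry := (fk 3 v0.1, Tag.free 3) with hk0
  set k1 : Entry := (fk 3 v1.1, Tag.free 3) with hk1
  have lP0 : P0.length ≤ 104000 := by
    have := hP0.len 1020 (by exact_mod_cast hzv)
    omega
  have lQ0 : Q0.length = P0.length := buziga_Qlen hP0.mate
  have thQ0 : thL Q0 = -(z - th v0.1) := by rw [thL_mirror hP0.mate.darts, hP0.th]
  -- the spur
  have chS : (P0 ++ [w1]).IsChain JR := by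
    refine List.isChain_append.2 ⟨hP0.chP, List.isChain_singleton _, fun x hx y hy => ?_⟩
    obtain rfl : w1 = y := by simpa using hy
    have hx1 := buziga_last hP0.lst x hx
    have hx2 := (hP0.tgP x (List.mem_of_getLast? hx)).2
    refine ⟨?_, fun _ _ => ?_⟩
    · rw [hx1]; exact f1
    · show x.2.rk < 3
      omega
  have hm : Mate (P0 ++ [w1]) ([wb] ++ Q0) :=
    hP0.mate.append (List.Forall₂.cons ⟨rfl, rfl⟩ List.Forall₂.nil)
  have R1 : Rw [v0, k0] (v0 :: (P0 ++ [w1]) ++ ([wb] ++ Q0) ++ [k0]) [] :=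
    rw_spur (p := p0) hm (buziga_fw chS) (by rw [eP]; rfl) (by rw [hp0]; exact a3)
  have R2 : Rw [w1, wb, q0] [w1, sA, w2, sB, w3, st, q0] [] :=
    rw_tile5 (a := w1) (b := q0) (f := wb) _ _ _ _ _ f2 (by rw [hq0]; exact f3)
  -- the cut
  have chN : ([w3, st] ++ Q0 ++ (K0 ++ [v1])).IsChain JR := by
    refine List.isChain_append.2 ⟨List.isChain_append.2 ⟨?_, hP0.chQ, fun x hx y hy => ?_⟩,
      List.isChain_append.2 ⟨c0, List.isChain_singleton _, fun x hx y hy => ?_⟩,
      fun x hx y hy => ?_⟩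
    · exact List.isChain_pair.2 ⟨f4, fun _ hw => by simp [hst, f5] at hw⟩
    · obtain rfl : st = x := by simpa using hx
      obtain rfl : q0 = y := by simpa [eQ] using hy
      refine ⟨?_, fun hw => by simp [hst, f5] at hw⟩
      rw [hq0]; exact f6
    · obtain rfl : v1 = y := by simpa using hy
      exact ⟨j0 x hx, fun _ hw => by simp [s1] at hw⟩
    · obtain rfl : k0 = y := by simpa [e0] using hy
      have hx' : x ∈ Q0.getLast? := by
        rw [List.getLast?_append, eQ] at hx
        rw [eQ]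
        simpa [List.getLast?_cons] using hx
      have hx1 := buziga_last (buziga_Qlst hP0) x hx'
      have hx2 := (hP0.tgQ x (List.mem_of_getLast? hx')).2
      refine ⟨?_, fun _ _ => ?_⟩
      · rw [hx1]; exact a5
      · show x.2.rk < 3
        omega
  set N : List Entry := [w3, st] ++ Q0 ++ (K0 ++ [v1]) with hN
  obtain ⟨P, Q, hP, hcc, -, hal, R3⟩ := jcut (a := sB) (b := k1) (c := w3) (c' := v1) (N := N)
    f7 rfl (by rw [hN, ← List.append_assoc, List.getLast?_concat]) f8 le_rfl s1 rfl chN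
  have thN : thL N = th w3.1 + th st.1 - (z - thL (v0 :: K0 ++ [v1])) := by
    simp only [hN, thL_append, thL_cons, thL_nil, thQ0]
    abel
  have inN : InB 1022 (thL N) := by
    rw [thN]
    exact ((th_inB _).add (th_inB _)).sub hze
  have lP : P.length ≤ 104200 := by
    have := hP.len 1022 (by exact_mod_cast inN)
    omega
  have hgood : Good (N ++ Q) := by
    refine good_of_cut hP hcc hal (fun e he => ?_) ?_ ?_
    · simp only [hN, List.mem_append, List.mem_cons, List.not_mem_nil, or_false] at he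
      rcases he with ((rfl | rfl) | he) | he | rfl
      · exact buziga_free _ (by norm_num)
      · exact buziga_free _ (by norm_num)
      · exact buziga_kt (hP0.tgQ e he)
      · exact g0' e he
      · exact g1
    · simp only [hN, List.length_append, List.length_cons, List.length_nil]
      omega
    · obtain ⟨m, m1, m2⟩ := exists_mid (ρ := 511) (v := thL N) inN
      have hh := ((hP0.hullQ.append_left (by norm_num) [w3, st]).append_right (by norm_num)
        (K0 ++ [v1])) 511 m m1 m2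
      refine ⟨m, hh.mono ?_⟩
      simp only [List.length_append, List.length_cons, List.length_nil]
      push_cast
      omega
  have hLp : thL (w2 :: sB :: P ++ K1) = th w2.1 + th sB.1 + thL N + thL K1 := by
    simp only [List.cons_append, thL_cons, thL_append, hP.th]
    abel
  refine ⟨sA, w2 :: sB :: P ++ K1, v0 :: P0 ++ [w1], -th w1.1, N ++ Q, ?_, hgood, ?_⟩
  · have chC : (sB :: P ++ [k1]).IsChain JR := hP.chain f7 b2 le_rfl
    refine ⟨f9, ⟨sB :: P ++ K1, ?_⟩, ?_, fun e he => ?_, ?_, ?_,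
      ⟨v0, P0 ++ [w1], rfl, s0, fun e he => j1 e ?_, hus⟩, ?_, fun e he => ?_, fun e he => ?_,
      ?_, ?_, ?_, ?_, ?_⟩
    · have : w2 = (fk 3 sA.1, Tag.free 5) := Prod.ext f10 rfl
      rw [← this]; rfl
    · have e2 : w2 :: sB :: P ++ K1 = w2 :: (sB :: P ++ k1 :: t1) := by rw [e1]; rfl
      rw [e2]
      refine List.isChain_cons_cons.2 ⟨⟨f11, fun _ hw => by simp [hsB, f7] at hw⟩, ?_⟩
      exact List.isChain_split.2 ⟨chC, e1 ▸ c1⟩
    · simp only [List.mem_append, List.mem_cons] at he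
      rcases he with (rfl | rfl | he) | he
      · exact buziga_free _ (by norm_num)
      · exact buziga_free _ (by norm_num)
      · exact buziga_kt (hP.tgP e he)
      · exact g1' e he
    · have hh := (hP.hullP.append_left (by norm_num) [w2, sB]).append_right (by norm_num) K1
      refine Hull.mono hh ?_
      simp only [List.length_cons, List.length_nil]
      push_cast
      omega
    · simp only [List.length_append, List.length_cons]
      omega
    · rw [List.getLast?_append, e1] at he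
      rw [e1]
      simpa [List.getLast?_cons] using he
    · rw [List.cons_append]
      refine List.isChain_cons.2 ⟨fun y hy => ?_, chS⟩
      obtain rfl : p0 = y := by simpa [eP] using hy
      exact ⟨by rw [hp0]; exact a4, fun hw => by simp [s0] at hw⟩
    · simp only [List.mem_append, List.mem_cons, List.not_mem_nil, or_false] at he
      rcases he with (rfl | he) | rfl
      · exact g0
      · exact buziga_kt (hP0.tgP e he)
      · exact buziga_free _ (by norm_num)
    · rw [List.getLast?_concat] at he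
      obtain rfl : w1 = e := Option.some.inj he
      exact ⟨f12, (by norm_num : 3 ≤ 4), f13⟩
    · have hh := (hP0.hullP.append_left (by norm_num) [v0]).append_right (by norm_num) [w1]
      exact Hull.mono hh (by simp)
    · simp only [List.length_append, List.length_cons, List.length_nil]
      omega
    · have : -th w1.1 - th sA.1 - thL (w2 :: sB :: P ++ K1) =
          z - thL (v0 :: K0 ++ [v1]) - thL K1 := by
        rw [hLp, thN]
        linear_combination (exp := 1) -hth
      rw [this]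
      exact hz3
    · exact ((th_inB _).neg.add (Phi_inB _ f9)).mono (by norm_num)
    · have e3 : thL (sA :: (w2 :: sB :: P ++ K1) ++ flatU us ++ (v0 :: P0 ++ [w1])) =
          th sA.1 + thL (w2 :: sB :: P ++ K1) + thL (flatU us) +
            (th v0.1 + (z - th v0.1) + th w1.1) := by
        rw [thL_append, thL_append, thL_cons, thL_append, thL_append, thL_cons v0, hP0.th]
        simp
      rw [e3, hLp, thN]
      rw [thL_append, thL_append K1] at h0
      linear_combination (exp := 1) hth + h0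
  · have S1 := R1.ctx [] (t0 ++ [v1] ++ (K1 ++ flatU us))
    have S2 := R2.ctx (v0 :: P0) (Q0' ++ (K0 ++ [v1]) ++ (K1 ++ flatU us))
    have S3 := R3.ctx (v0 :: P0 ++ [w1, sA, w2]) (t1 ++ flatU us)
    have E1 : [] ++ [v0, k0] ++ (t0 ++ [v1] ++ (K1 ++ flatU us)) =
        (v0 :: K0 ++ [v1]) ++ (K1 ++ flatU us) := by simp [e0]
    have E2 : [] ++ (v0 :: (P0 ++ [w1]) ++ ([wb] ++ Q0) ++ [k0]) ++
          (t0 ++ [v1] ++ (K1 ++ flatU us)) =
        v0 :: P0 ++ [w1, wb, q0] ++ (Q0' ++ (K0 ++ [v1]) ++ (K1 ++ flatU us)) := by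
      simp [e0, eQ]
    have E3 : v0 :: P0 ++ [w1, sA, w2, sB, w3, st, q0] ++
          (Q0' ++ (K0 ++ [v1]) ++ (K1 ++ flatU us)) =
        v0 :: P0 ++ [w1, sA, w2] ++ (sB :: N ++ [k1]) ++ (t1 ++ flatU us) := by
      simp [hN, e1, eQ]
    have E4 : v0 :: P0 ++ [w1, sA, w2] ++ (sB :: P ++ [k1]) ++ (t1 ++ flatU us) =
        (v0 :: P0 ++ [w1]) ++ (sA :: (w2 :: sB :: P ++ K1) ++ flatU us) := by
      simp [e1]
    rw [E1, E2] at S1
    rw [E3] at S2
    rw [E4] at S3
    exact ((S1.trans S2).trans S3).toC.rotated (List.IsRotated.refl _)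
      (List.Forall₂.cons List.isRotated_append
        (List.Forall₂.cons (List.IsRotated.refl _) List.Forall₂.nil))

theorem zig_end {f : Entry} {Lp Rp : List Entry} {z : Fin 4 → ℤ} (h : ZS f Lp [] Rp z) :
    PS f (Lp ++ Rp) := by
  obtain ⟨t, eL⟩ := h.hdL
  obtain ⟨r, t', eR, hr, hj, -⟩ := h.hdR
  have hth : th f.1 + thL Lp + thL Rp = 0 := by
    have := h.th
    simpa [flatU, add_assoc] using this
  refine ⟨h.seam, ⟨t ++ Rp, by rw [eL]; rfl⟩, ?_, fun e he => ?_, fun e he => h.lstR e ?_, ?_, ?_, ?_⟩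
  · refine List.isChain_append.2 ⟨h.chL, h.chR, fun x hx y hy => ?_⟩
    obtain rfl : r = y := by simpa [eR] using hy
    exact ⟨hj x hx, fun _ hw => by simp [hr] at hw⟩
  · rcases List.mem_append.1 he with he | he
    · exact h.tgL e he
    · exact h.tgR e he
  · rw [List.getLast?_append, eR] at he
    rw [eR]
    simpa [List.getLast?_cons] using he
  · have := h.lenL
    have := h.lenR
    rw [List.length_append]
    omega
  · have h1 : InB 1020 (z - th f.1 - thL Lp) := h.near.start
    have h2 := ((h.cen.sub (Phi_inB _ h.seam)).sub (th_inB f.1)).sub h1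
    have e : z + Phi f.1 - Phi f.1 - th f.1 - (z - th f.1 - thL Lp) = thL Lp := by abel
    rw [e] at h2
    obtain ⟨m, m1, m2⟩ := exists_mid (ρ := 522) (v := thL Lp) (h2.mono (by norm_num))
    have m3 : InB 523 (m - thL Lp - thL Rp) := by
      have e' : m - thL Lp - thL Rp = m + th f.1 := by linear_combination (exp := 1) -hth
      rw [e']
      exact m1.add (th_inB _)
    exact ⟨m, near_append.2 ⟨(h.hullL 522 m m1 m2).mono (by norm_num),
      (h.hullR 523 _ (m2.mono (by norm_num)) m3).mono (by norm_num)⟩⟩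
  · rw [thL_cons, thL_append, ← add_assoc, hth]

end Pool.Agent.MC
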