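import Pool.Agent.P.MP_2677b3_gt.BuJcut

namespace Pool.Agent.MC

theorem buzigb_tile : ∀ f : Dart, wall f = false →
    wall (out 5 f) = true ∧ wall (out 4 f) = false ∧ wall (out 3 f) = true ∧
    wall (out 2 f) = false ∧ wall (out 1 f) = true ∧ out 4 f = fk 3 (out 5 f) ∧
    out 3 f = fk 3 (out 4 f) ∧ out 2 f = fk 3 (out 3 f) ∧ out 1 f = fk 3 (out 2 f) ∧
    fk 3 f = fk 2 (out 1 f) ∧ wall (fk 3 f) = true ∧
    th (out 5 f) + th (out 4 f) + th (out 3 f) + th (out 2 f) + th (out 1 f) = th f := by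
  decide +kernel

theorem buzigb_prev : ∀ r : Dart, out 5 (fk 3 r) = fk 2 r := by decide +kernel

theorem buzigb_hdD (us : List (Entry × List Entry)) (U : Entry × List Entry) (n : Dart) :
    hdD (us ++ [U]) n = hdD us U.1.1 := by
  cases us <;> rfl

theorem buzigb_ww {a b : Entry} (ha : wall a.1 = true) (h : b.1 = fk 2 a.1)
    (hr : a.2.rk < b.2.rk) : JR a b := by
  refine ⟨?_, fun _ _ => hr⟩
  unfold J
  rw [if_pos ha]
  exact Or.inl h

theorem buzigb_ws {a b : Entry} (ha : wall a.1 = true) (hb : wall b.1 = false)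
    (h : b.1 = fk 3 a.1) : JR a b := by
  refine ⟨?_, fun _ h' => by rw [hb] at h'; exact absurd h' (by decide)⟩
  unfold J
  rw [if_pos ha]
  exact Or.inr h

theorem buzigb_js {a b : Entry} (hb : wall b.1 = false) (h : J a.1 b.1) : JR a b :=
  ⟨h, fun _ h' => by rw [hb] at h'; exact absurd h' (by decide)⟩

theorem buzigb_free {d : Dart} {r : ℕ} (hr : r ≤ 5) : KT 5 (d, Tag.free r) :=
  ⟨hr, Or.inr rfl⟩

theorem buzigb_tgP {d₀ d₁ : Dart} {v : Fin 4 → ℤ} {P Q : List Entry} (hP : PP d₀ d₁ v P Q) :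
    ∀ e ∈ P, KT 5 e := fun e he =>
  ⟨(hP.tgP e he).2.trans (by norm_num), Or.inr (hP.tgP e he).1⟩

theorem buzigb_near {C : ℤ} {N : List Entry} (hC : C ≤ 60) (h : Hull C N)
    (hv : InB 1100 (thL N)) : ∃ z, Near 980 z N := by
  obtain ⟨z, h1, h2⟩ := exists_mid (ρ := 550) (v := thL N) (by simpa using hv)
  exact ⟨z, (h 550 z h1 h2).mono (by omega)⟩

theorem buzigb_len {d₀ d₁ : Dart} {v : Fin 4 → ℤ} {P Q : List Entry} (hP : PP d₀ d₁ v P Q)
    (hv : InB 1100 v) : P.length ≤ 112000 := by
  have := hP.len 1100 (by simpa using hv)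
  omega

attribute [local irreducible] wall fk out th

theorem zig_step {f : Entry} {Lp Rp : List Entry} {z : Fin 4 → ℤ} {U₁ U₂ : Entry × List Entry}
    {us : List (Entry × List Entry)} (h : ZS f Lp (U₁ :: us ++ [U₂]) Rp z) :
    ∃ f' Lp' Rp' z' k₁ k₂, ZS f' Lp' us Rp' z' ∧ Good k₁ ∧ Good k₂ ∧
      RwC (f :: Lp ++ flatU (U₁ :: us ++ [U₂]) ++ Rp) [f' :: Lp' ++ flatU us ++ Rp', k₁, k₂] := by
  obtain ⟨v1, K1⟩ := U₁
  obtain ⟨v2, K2⟩ := U₂
  obtain ⟨Lt, hL⟩ := h.hdL
  obtain ⟨r0, Rt, hR, hr0, hLl, hU⟩ := h.hdR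
  have hU' : UCh ((v1, K1) :: (us ++ [(v2, K2)])) r0.1 := hU
  obtain ⟨w1, t1, ⟨Kt1, hK1⟩, c1, g1, n1, l1, hU2⟩ := hU'
  obtain ⟨hUus, hU3⟩ := UCh.split.1 hU2
  obtain ⟨w2, t2, ⟨Kt2, hK2⟩, c2, g2, n2, l2, -⟩ := hU3
  simp only at w1 t1 hK1 c1 g1 n1 l1 w2 t2 hK2 c2 g2 n2 l2
  rw [buzigb_hdD] at l1
  have hUus' : UCh us v2.1 := hUus
  have l2' : ∀ e ∈ K2.getLast?, J e.1 r0.1 := l2
  have hLl' : ∀ e ∈ Lp.getLast?, J e.1 v1.1 := hLl
  have hRne : Rp ≠ [] := by rw [hR]; simp
  obtain ⟨Ri, r, hRr⟩ : ∃ Ri r, Rp = Ri ++ [r] :=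
    ⟨Rp.dropLast, Rp.getLast hRne, (List.dropLast_append_getLast hRne).symm⟩
  obtain ⟨wr, kr, fr⟩ := h.lstR r (by rw [hRr]; simp)
  obtain ⟨x5, x4, x3, x2, x1, e4, e3, e2, e1, e0, x0, s1⟩ := buzigb_tile f.1 h.seam
  obtain ⟨y5, y4, y3, y2, y1, d4, d3, d2, d1, d0, -, s2⟩ := buzigb_tile (out 2 f.1) x2
  have e5 : out 5 f.1 = fk 2 r.1 := by rw [fr]; exact buzigb_prev _
  have d5 : out 5 (out 2 f.1) = fk 2 (out 3 f.1) := by
    have := buzigb_prev (out 3 f.1)
    rwa [← e2] at this
  have d0' : out 1 f.1 = fk 2 (out 1 (out 2 f.1)) := e1.trans d0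
  have wk1 : wall (fk 3 v1.1) = true := by rw [(wall_fk v1.1).2.2, w1]; rfl
  have hflat : flatU ((v1, K1) :: us ++ [(v2, K2)]) = v1 :: K1 ++ flatU us ++ v2 :: K2 := by
    simp [flatU]
  -- positions
  have hz : InB 22 z := by
    have := h.cen.sub (Phi_inB f.1 h.seam)
    rw [add_sub_cancel_right] at this
    exact this.mono (by norm_num)
  have hth := h.th
  have hnear := h.near
  rw [hflat] at hth hnear
  have hLp : InB 1043 (thL Lp) := by
    have := (hz.sub (th_inB f.1)).sub hnear.start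
    rw [sub_sub_cancel] at this
    exact this.mono (by norm_num)
  have hRp : InB 1042 (thL Rp) := by
    have h1 := hnear.finish.sub hz
    have h2 : z - th f.1 - thL Lp - thL (v1 :: K1 ++ flatU us ++ v2 :: K2) - z = thL Rp := by
      simp only [List.cons_append, thL_cons, thL_append] at hth ⊢
      linear_combination -hth
    rw [h2] at h1
    exact h1.mono (by norm_num)
  -- the right cut
  have rw1 := (rw_tile5 (a := r) (b := (fk 3 f.1, Tag.free 5)) (f := f) (.free 5) (.free 0)
    (.free 3) (.free 0) (.free 4) (by rw [fr, (ang_fk r.1).2.2.1]; norm_num)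
    (by rw [(ang_fk f.1).2.2.1]; norm_num)).ctx (v2 :: K2 ++ Ri) (Lt ++ v1 :: K1 ++ flatU us)
  have rw3 := rw_tile5 (a := (out 3 f.1, Tag.free 3)) (b := (out 1 f.1, Tag.free 4))
    (f := (out 2 f.1, Tag.free 0)) (.free 4) (.free 0) (.free 5) (.free 0) (.free 3)
    (by rw [e2, (ang_fk _).2.2.1]; norm_num) (by rw [e1, (ang_fk _).2.2.1]; norm_num)
  have hPhi := Phi_step f.1 h.seam
  have hdis : fdis f.1 = th (out 5 f.1) + th (out 4 f.1) + th (out 3 f.1) +
    th (out 5 (out 2 f.1)) := by unfold fdis; rfl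
  unfold fstep at hPhi
  dsimp only at rw3
  generalize fdis f.1 = fd at hPhi hdis
  generalize out 5 f.1 = p5 at *
  generalize out 4 f.1 = p4 at *
  generalize out 3 f.1 = p3 at *
  generalize out 1 f.1 = p1 at *
  generalize out 2 f.1 = p2 at *
  generalize out 5 p2 = q5 at *
  generalize out 4 p2 = q4 at *
  generalize out 3 p2 = q3 at *
  generalize out 2 p2 = q2 at *
  generalize out 1 p2 = q1 at *
  have hN : (K2 ++ Rp ++ [(p5, Tag.free 5), (p4, Tag.free 0)]).IsChain JR := by
    refine List.IsChain.append (List.IsChain.append c2 h.chR ?_) ?_ ?_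
    · intro x hx y hy
      rw [hR] at hy
      obtain rfl : r0 = y := by simpa using hy
      exact buzigb_js hr0 (l2' x hx)
    · exact List.isChain_pair.2 (buzigb_ws x5 x4 e4)
    · intro x hx y hy
      rw [hRr] at hx
      obtain rfl : r = x := by simpa using hx
      obtain rfl : (p5, Tag.free 5) = y := by simpa using hy
      exact buzigb_ww wr e5 (Nat.lt_succ_of_le kr)
  obtain ⟨P, Q, hP, cQ, -, aQ, rw2⟩ := jcut (a := v2) (b := (p3, Tag.free 3)) (c := (fk 3 v2.1, Tag.free 3))
    (c' := (p4, Tag.free 0)) (N := K2 ++ Rp ++ [(p5, Tag.free 5), (p4, Tag.free 0)]) w2 (by rw [hK2]; simp) (by simp) rfl le_rfl x4 e3 hN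
  have hNv : InB 1100 (thL (K2 ++ Rp ++ [(p5, Tag.free 5), (p4, Tag.free 0)])) := by
    rw [thL_append, thL_append]
    refine (((inB_thL K2).add hRp).add (inB_thL [(p5, Tag.free 5), (p4, Tag.free 0)])).mono ?_
    simp only [List.length_cons, List.length_nil]
    omega
  have good1 : Good (K2 ++ Rp ++ [(p5, Tag.free 5), (p4, Tag.free 0)] ++ Q) := by
    refine good_of_cut hP cQ aQ ?_ ?_ ?_
    · intro e he
      simp only [List.mem_append, List.mem_cons, List.not_mem_nil, or_false] at he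
      rcases he with (he | he) | rfl | rfl
      · exact g2 e he
      · exact h.tgR e he
      · exact buzigb_free le_rfl
      · exact buzigb_free (by norm_num)
    · have := h.lenR
      simp only [List.length_append, List.length_cons, List.length_nil]
      omega
    · refine buzigb_near ?_ ((h.hullR.append_left (by norm_num) K2).append_right
        (by positivity) [(p5, Tag.free 5), (p4, Tag.free 0)]) hNv
      simp only [List.length_cons, List.length_nil]
      omega
  -- the left cut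
  have hN' : ([(q1, Tag.free 3), (p1, Tag.free 4)] ++ Lp ++ [v1]).IsChain JR := by
    refine List.IsChain.append (List.IsChain.append ?_ h.chL ?_) (List.isChain_singleton _) ?_
    · exact List.isChain_pair.2 (buzigb_ww y1 d0' (Nat.lt_succ_self 3))
    · intro x hx y hy
      rw [hL] at hy
      obtain rfl : (p1, Tag.free 4) = x := by simpa using hx
      obtain rfl : (fk 3 f.1, Tag.free 5) = y := by simpa using hy
      exact buzigb_ww x1 e0 (Nat.lt_succ_self 4)
    · intro x hx y hy
      obtain rfl : v1 = y := by simpa using hy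
      have hx' : x ∈ Lp.getLast? := by
        rw [hL] at hx ⊢
        simpa using hx
      exact buzigb_js w1 (hLl' x hx')
  obtain ⟨P', Q', hP', cQ', -, aQ', rw4⟩ := jcut (a := (q2, Tag.free 0)) (b := (fk 3 v1.1, Tag.free 3))
    (c := (q1, Tag.free 3)) (c' := v1) (N := [(q1, Tag.free 3), (p1, Tag.free 4)] ++ Lp ++ [v1]) y2 (by simp) List.getLast?_concat d1
    le_rfl w1 rfl hN'
  have hNv' : InB 1100 (thL ([(q1, Tag.free 3), (p1, Tag.free 4)] ++ Lp ++ [v1])) := by
    rw [thL_append, thL_append]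
    refine (((inB_thL [(q1, Tag.free 3), (p1, Tag.free 4)]).add hLp).add (inB_thL [v1])).mono ?_
    simp only [List.length_cons, List.length_nil]
    omega
  have good2 : Good ([(q1, Tag.free 3), (p1, Tag.free 4)] ++ Lp ++ [v1] ++ Q') := by
    refine good_of_cut hP' cQ' aQ' ?_ ?_ ?_
    · intro e he
      simp only [List.mem_append, List.mem_cons, List.not_mem_nil, or_false] at he
      rcases he with ((rfl | rfl) | he) | rfl
      · exact buzigb_free (by norm_num)
      · exact buzigb_free (by norm_num)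
      · exact h.tgL e he
      · exact t1
    · have := h.lenL
      simp only [List.length_append, List.length_cons, List.length_nil]
      omega
    · refine buzigb_near ?_ ((h.hullL.append_left (by norm_num) [(q1, Tag.free 3), (p1, Tag.free 4)]).append_right
        (by positivity) [v1]) hNv'
      simp only [List.length_cons, List.length_nil]
      omega
  have lP := buzigb_len hP hNv
  have lP' := buzigb_len hP' hNv'
  have tP := hP.th
  have tP' := hP'.th
  simp only [List.cons_append, List.nil_append, thL_cons, thL_append, thL_nil, add_zero]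
    at tP tP'
  refine ⟨(q4, Tag.free 0), [(q3, Tag.free 5), (q2, Tag.free 0)] ++ P' ++ K1, [v2] ++ P ++ [(p3, Tag.free 3), (q5, Tag.free 4)], z - fd, _, _, ?_, good2, good1,
    ?_⟩
  · refine ⟨y4, ⟨(q2, Tag.free 0) :: (P' ++ K1), ?_⟩, ?_, ?_, ?_, ?_, ⟨v2, P ++ [(p3, Tag.free 3), (q5, Tag.free 4)], by simp, w2, ?_, hUus'⟩,
      ?_, ?_, ?_, ?_, ?_, ?_, ?_, ?_⟩
    · rw [d3]; simp
    · have h1 := hP'.chain (a := (q2, Tag.free 0)) (b := (fk 3 v1.1, Tag.free 3)) y2 wk1 le_rfl
      have h2 : ((q2, Tag.free 0) :: P' ++ K1).IsChain JR := by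
        rw [hK1] at c1 ⊢
        exact List.isChain_split.2 ⟨h1, c1⟩
      exact List.isChain_cons_cons.2 ⟨buzigb_ws y3 y2 d2, h2⟩
    · intro e he
      simp only [List.mem_append, List.mem_cons, List.not_mem_nil, or_false] at he
      rcases he with ((rfl | rfl) | he) | he
      · exact buzigb_free le_rfl
      · exact buzigb_free (by norm_num)
      · exact buzigb_tgP hP' e he
      · exact g1 e he
    · refine ((hP'.hullP.append_left (by norm_num) [(q3, Tag.free 5), (q2, Tag.free 0)]).append_right (by positivity) K1).mono ?_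
      simp only [List.length_cons, List.length_nil]
      omega
    · simp only [List.length_append, List.length_cons, List.length_nil]
      omega
    · intro e he
      refine l1 e ?_
      rw [hK1] at he ⊢
      rwa [List.getLast?_append_cons] at he
    · have h1 := hP.chain (a := v2) (b := (p3, Tag.free 3)) w2 x3 le_rfl
      exact List.isChain_split.2 ⟨h1, List.isChain_pair.2 (buzigb_ww x3 d5 (Nat.lt_succ_self 3))⟩
    · intro e he
      simp only [List.mem_append, List.mem_cons, List.not_mem_nil, or_false] at he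
      rcases he with (rfl | he) | rfl | rfl
      · exact t2
      · exact buzigb_tgP hP e he
      · exact buzigb_free (by norm_num)
      · exact buzigb_free (by norm_num)
    · intro e he
      rw [List.getLast?_append_cons] at he
      obtain rfl : (q5, Tag.free 4) = e := by simpa using he
      exact ⟨y5, le_rfl, d4⟩
    · refine ((hP.hullP.append_left (by norm_num) [v2]).append_right (by positivity) [(p3, Tag.free 3), (q5, Tag.free 4)]).mono ?_
      simp only [List.length_cons, List.length_nil]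
      omega
    · simp only [List.length_append, List.length_cons, List.length_nil]
      omega
    · have h1 := (near_append.1 (near_append.1 hnear).1).2
      have h2 : z - fd - th q4 - thL ([(q3, Tag.free 5), (q2, Tag.free 0)] ++ P' ++ K1) =
          z - th f.1 - thL Lp - thL (v1 :: K1) := by
        simp only [List.cons_append, List.nil_append, thL_cons, thL_append, tP', hdis]
        linear_combination -s1 - s2
      show Near 1020 (z - fd - th q4 - _) _
      rw [h2]
      exact h1
    · have h2 : z - fd + Phi q4 = z + Phi f.1 := by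
        rw [hPhi]
        abel
      show InB 20 (z - fd + Phi q4)
      rw [h2]
      exact h.cen
    · simp only [List.cons_append, List.nil_append, thL_cons, thL_append, thL_nil, add_zero, tP,
        tP'] at hth ⊢
      linear_combination hth + s1 + s2
  · have rw3' := rw3.ctx (v2 :: P) (Lp ++ v1 :: K1 ++ flatU us)
    have rw2' := rw2.ctx [] ((p2, Tag.free 0) :: (p1, Tag.free 4) :: Lp ++ v1 :: K1 ++ flatU us)
    have rw4' := rw4.ctx (v2 :: P ++ [(p3, Tag.free 3), (q5, Tag.free 4), (q4, Tag.free 0), (q3, Tag.free 5)]) (Kt1 ++ flatU us)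
    have m1 : Rw (v2 :: K2 ++ Rp ++ f :: Lp ++ v1 :: K1 ++ flatU us)
        (v2 :: K2 ++ Rp ++ [(p5, Tag.free 5), (p4, Tag.free 0), (p3, Tag.free 3), (p2, Tag.free 0), (p1, Tag.free 4)] ++ Lp ++ v1 :: K1 ++ flatU us) [] := by
      convert rw1 using 1 <;> simp [hRr, hL]
    have m2 : Rw (v2 :: K2 ++ Rp ++ [(p5, Tag.free 5), (p4, Tag.free 0), (p3, Tag.free 3), (p2, Tag.free 0), (p1, Tag.free 4)] ++ Lp ++ v1 :: K1 ++ flatU us)
        (v2 :: P ++ [(p3, Tag.free 3), (p2, Tag.free 0), (p1, Tag.free 4)] ++ Lp ++ v1 :: K1 ++ flatU us) [K2 ++ Rp ++ [(p5, Tag.free 5), (p4, Tag.free 0)] ++ Q] := by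
      convert rw2' using 1 <;> simp
    have m3 : Rw (v2 :: P ++ [(p3, Tag.free 3), (p2, Tag.free 0), (p1, Tag.free 4)] ++ Lp ++ v1 :: K1 ++ flatU us)
        (v2 :: P ++ [(p3, Tag.free 3), (q5, Tag.free 4), (q4, Tag.free 0), (q3, Tag.free 5), (q2, Tag.free 0), (q1, Tag.free 3), (p1, Tag.free 4)] ++ Lp ++ v1 :: K1 ++ flatU us) [] := by
      convert rw3' using 1 <;> simp
    have m4 : Rw (v2 :: P ++ [(p3, Tag.free 3), (q5, Tag.free 4), (q4, Tag.free 0), (q3, Tag.free 5), (q2, Tag.free 0), (q1, Tag.free 3), (p1, Tag.free 4)] ++ Lp ++ v1 :: K1 ++ flatU us)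
        (([v2] ++ P ++ [(p3, Tag.free 3), (q5, Tag.free 4)]) ++ ((q4, Tag.free 0) :: ([(q3, Tag.free 5), (q2, Tag.free 0)] ++ P' ++ K1) ++ flatU us))
        [[(q1, Tag.free 3), (p1, Tag.free 4)] ++ Lp ++ [v1] ++ Q'] := by
      convert rw4' using 1 <;> simp [hK1]
    have q := (((m1.trans m2).trans m3).trans m4).toC
    refine q.rotated ?_ ?_
    · rw [hflat]
      have := List.isRotated_append (l := f :: Lp ++ v1 :: K1 ++ flatU us) (l' := v2 :: K2 ++ Rp)
      convert this using 1 <;> simp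
    · refine List.Forall₂.cons List.isRotated_append ?_
      exact List.Forall₂.cons (List.IsRotated.refl _)
        (List.Forall₂.cons (List.IsRotated.refl _) List.Forall₂.nil)

end Pool.Agent.MC
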