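import Pool.Agent.P.MP_2677b3_gt.BuStep1
import Pool.Agent.P.MP_2677b3_gt.BuZigA
import Pool.Agent.P.MP_2677b3_gt.BuZigB
import Pool.Agent.P.MP_2677b3_gt.BuPetA
import Pool.Agent.P.MP_2677b3_gt.BuPetB

namespace Pool.Agent.MC

theorem busplit_zig : ∀ (m : ℕ) {us : List (Entry × List Entry)} {f : Entry} {Lp Rp : List Entry}
    {z : Fin 4 → ℤ}, us.length = 2 * m → ZS f Lp us Rp z →
    ∃ f' Q' ks, PS f' Q' ∧ ks.length = us.length ∧ (∀ k ∈ ks, Good k) ∧
      RwC (f :: Lp ++ flatU us ++ Rp) ((f' :: Q') :: ks) := by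
  intro m
  induction m with
  | zero =>
    intro us f Lp Rp z hl h
    obtain rfl : us = [] := List.eq_nil_of_length_eq_zero (by omega)
    refine ⟨f, Lp ++ Rp, [], zig_end h, rfl, by simp, fun F hF => ?_⟩
    simpa [flatU] using hF
  | succ m ih =>
    intro us f Lp Rp z hl h
    obtain ⟨U₁, us₁, rfl⟩ := List.exists_cons_of_length_pos (l := us) (by omega)
    have hne : us₁ ≠ [] := by
      rintro rfl
      simp at hl
      omega
    obtain ⟨us₂, U₂, rfl⟩ : ∃ us₂ U₂, us₁ = us₂ ++ [U₂] :=
      ⟨_, _, (List.dropLast_append_getLast hne).symm⟩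
    obtain ⟨f', Lp', Rp', z', k₁, k₂, hz, h1, h2, hr⟩ := zig_step (us := us₂) h
    obtain ⟨f'', Q, ks, hp, hk, hg, hr'⟩ := ih (us := us₂) (by simp at hl; omega) hz
    refine ⟨f'', Q, ks ++ [k₁, k₂], hp, by simp [hk], fun k hk => ?_, hr.trans hr'⟩
    simp only [List.mem_append, List.mem_cons, List.not_mem_nil, or_false] at hk
    rcases hk with hk | rfl | rfl
    exacts [hg k hk, h1, h2]

theorem busplit_petal : ∀ (decos : List (Option (ZMod 6))) {f : Entry} {Q : List Entry}, PS f Q →
    ∃ f' Q' ks, PS f' Q' ∧ ks.length = decos.length ∧ (∀ k ∈ ks, Good k) ∧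
      RwC (f :: Q) ((f' :: Q') :: (ks ++ (decos.filterMap id).flatMap pair)) := by
  intro decos
  induction decos with
  | nil => exact fun {f Q} h => ⟨f, Q, [], h, rfl, by simp, fun F hF => hF⟩
  | cons o decos ih =>
    intro f Q h
    rcases o with _ | j
    · obtain ⟨f₁, Q₁, k, hp, hk, hr⟩ := petal_plain h
      obtain ⟨f', Q', ks, hp', hl, hg, hr'⟩ := ih hp
      refine ⟨f', Q', k :: ks, hp', by simp [hl], by simpa [hk] using hg, (hr.trans hr').perm ?_⟩
      refine List.Perm.cons _ ?_
      exact List.perm_append_comm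
    · obtain ⟨f₁, Q₁, k, hp, hk, hr⟩ := petal_deco h j
      obtain ⟨f', Q', ks, hp', hl, hg, hr'⟩ := ih hp
      refine ⟨f', Q', k :: ks, hp', by simp [hl], by simpa [hk] using hg, (hr.trans hr').perm ?_⟩
      refine List.Perm.cons _ (List.perm_append_comm.trans (List.Perm.cons _ ?_))
      change (pair j ++ (ks ++ _)).Perm (ks ++ (pair j ++ _))
      rw [← List.append_assoc, ← List.append_assoc]
      exact List.perm_append_comm.append_right _

/-- A good loop bounds a planar piece with any large number of good loops, one pair of holes of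
any colour for each additional loop if wanted. -/
theorem split {w : List Entry} (hw : Good w) : ∃ n, n ≤ 1000010 ∧
    ∀ decos : List (Option (ZMod 6)), ∃ kids : List (List Entry),
      kids.length = n + decos.length ∧ (∀ k ∈ kids, Good k) ∧
      Real (topOf w :: kids ++ (decos.filterMap id).flatMap pair) := by
  obtain ⟨U₀, U₁, us, ⟨m, hm⟩, hl, hu, hn, h0, hR⟩ := step1 hw
  obtain ⟨f, Lp, Rp, z, k, hz, hk, hr⟩ := zig_start hu hn h0
  obtain ⟨f₁, Q₁, ks, hp, hks, hg, hr₁⟩ := busplit_zig m (by omega) hz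
  refine ⟨us.length + 3, by omega, fun decos => ?_⟩
  obtain ⟨f₂, Q₂, ks', hp', hks', hg', hr₂⟩ := busplit_petal decos hp
  obtain ⟨k₁, k₂, h1, h2, h3, hr₃⟩ := petal_close hp'
  have hF := ((hr.trans hr₁).trans hr₂).trans hr₃ _ hR
  have hall : ∀ x ∈ k₁ :: k :: (ks ++ ks'), Good x := by
    intro x hx
    simp only [List.mem_cons, List.mem_append] at hx
    rcases hx with rfl | rfl | hx | hx
    exacts [h1, hk, hg x hx, hg' x hx]
  have hF' : Real (k₂ :: (topOf w :: (k₁ :: k :: (ks ++ ks')) ++
      (decos.filterMap id).flatMap pair)) := by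
    refine hF.perm (List.perm_iff_count.2 fun a => ?_)
    simp only [List.cons_append, List.nil_append, List.append_eq, List.count_cons, List.count_append,
      List.count_nil]
    omega
  have h4 : alL k₂ = 2 := by
    refine hF'.al_two (fun x hx => ?_) (cang_jog h2.jog)
    rcases List.mem_append.1 hx with hx | hx
    · rcases List.mem_cons.1 hx with rfl | hx
      exacts [hw.flat_top.1, (hall x hx).flat]
    · obtain ⟨j, -, hj⟩ := List.mem_flatMap.1 hx
      simp only [pair, List.mem_cons, List.not_mem_nil, or_false] at hj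
      rcases hj with rfl | rfl <;> exact flat_hole _ _
  refine ⟨k₂ :: k₁ :: k :: (ks ++ ks'), by simp [hks, hks']; omega, fun x hx => ?_,
    hF'.perm (List.Perm.swap _ _ _)⟩
  rcases List.mem_cons.1 hx with rfl | hx
  exacts [⟨h2, h3, h4⟩, hall x hx]

end Pool.Agent.MC
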