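import Pool.Agent.P.MP_2677b3_gt.BuCut
import Pool.Agent.P.MP_2677b3_gt.BuFlat

namespace Pool.Agent.MC

/-- The side before `s` on the tile on the left of `s`. -/
def st1Yb (s : Dart) : Dart := lf^[5] s

/-- The spur before the seam `s`, outer side. -/
def st1Y (s : Dart) : Entry := (rv (st1Yb s), Tag.free 5)

/-- The spur before the seam `s`, side of the tile. -/
def st1Z (s : Dart) : Entry := (st1Yb s, Tag.inner)

/-- The stub of the tile on the seam `s`. -/
def st1V (s : Dart) : Entry := (out 5 (st1Yb s), Tag.free 0)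

/-- The rest of a unit. -/
def st1K (s : Dart) (run : List Entry) (n : Dart) : List Entry :=
  (out 4 (st1Yb s), Tag.free 3) :: (out 3 (st1Yb s), Tag.free 0) :: (run ++ [st1Y n]).tail

/-- New tags: old sides lose one rank. -/
def st1Rt (e : Entry) : Entry :=
  (e.1, if e.2.rk = 0 then Tag.inner else Tag.old (e.2.rk - 1))

def st1RtB (β : Entry × List Entry) : Entry × List Entry := (st1Rt β.1, β.2.map st1Rt)

def st1Units : List (Entry × List Entry) → Dart → List (Entry × List Entry)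
  | [], _ => []
  | β :: bs, n => (st1V β.1.1, st1K β.1.1 β.2 (hdD bs n)) :: st1Units bs n

theorem st1Units_realize : True := by have := @st1Units.eq_def; trivial

def st1Sp : List (Entry × List Entry) → Dart → List Entry
  | [], _ => []
  | β :: bs, n => st1Z β.1.1 :: β.1 :: (β.2 ++ st1Y (hdD bs n) :: st1Sp bs n)

theorem st1Sp_realize : True := by have := @st1Sp.eq_def; trivial

/-- A seam, a run of walls and the next seam. -/
structure St1Bk (s : Dart) (run : List Entry) (n : Dart) : Prop where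
  seam : wall s = false
  seam' : wall n = false
  hd : ∀ e ∈ (run ++ [st1Y n]).head?, e.1 = fk 1 s
  ch : (run ++ [st1Y n]).IsChain fun a b => b.1 = fk 2 a.1
  tl : (run ++ [st1Y n]).tail.IsChain JR
  tg : ∀ e ∈ run.tail, KT 5 e
  len : run.length ≤ 6

def St1WF : List (Entry × List Entry) → Dart → Prop
  | [], _ => True
  | β :: bs, n => St1Bk β.1.1 β.2 (hdD bs n) ∧ St1WF bs n

theorem St1WF_realize : True := by have := @St1WF.eq_def; trivial

/-! Facts about darts. -/

theorem st1_d0 : ∀ d e : Dart, J d e → e = fk (if wall d then 2 else 1) d ∧ wall e = true ∨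
    rv (st1Yb e) = fk (if wall d then 2 else 1) d ∧ wall e = false := by decide +kernel

theorem st1_d1 (d e : Dart) (h : J d e) (hd : wall d = true) (he : wall e = true) :
    e = fk 2 d := by
  rcases st1_d0 d e h with h1 | h1
  · rw [hd] at h1
    exact h1.1
  · rw [he] at h1
    exact absurd h1.2 (by decide)

theorem st1_d2 (d e : Dart) (h : J d e) (hd : wall d = true) (he : wall e = false) :
    rv (st1Yb e) = fk 2 d := by
  rcases st1_d0 d e h with h1 | h1
  · rw [he] at h1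
    exact absurd h1.2 (by decide)
  · rw [hd] at h1
    exact h1.1

theorem st1_d3 (d e : Dart) (h : J d e) (hd : wall d = false) (he : wall e = true) :
    e = fk 1 d := by
  rcases st1_d0 d e h with h1 | h1
  · rw [hd] at h1
    exact h1.1
  · rw [he] at h1
    exact absurd h1.2 (by decide)

theorem st1_d4 (d e : Dart) (h : J d e) (hd : wall d = false) (he : wall e = false) :
    rv (st1Yb e) = fk 1 d := by
  rcases st1_d0 d e h with h1 | h1
  · rw [he] at h1
    exact absurd h1.2 (by decide)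
  · rw [hd] at h1
    exact h1.1

theorem st1_d5 : ∀ d : Dart, wall d = true → J d (fk 2 d) := by decide +kernel
theorem st1_d6 : ∀ d e : Dart, rv (st1Yb e) = fk 1 d → Spl d (rv (st1Yb e)) e := by
  decide +kernel
theorem st1_d7 : ∀ d e : Dart, rv (st1Yb e) = fk 2 d → Spl d (rv (st1Yb e)) e := by
  decide +kernel
theorem st1_d8 : ∀ d : Dart, d = lf (st1Yb d) := by decide +kernel
theorem st1_d9 : ∀ d : Dart, 2 ≤ ang d (fk 2 d) := by decide +kernel
theorem st1_d10 : ∀ d : Dart, 2 ≤ ang (rv (st1Yb d)) (st1Yb d) := by decide +kernel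
theorem st1_d11 : ∀ d : Dart, 2 ≤ ang (rv (st1Yb d)) (out 5 (st1Yb d)) := by decide +kernel
theorem st1_d12 : ∀ d e : Dart, rv (st1Yb e) = fk 1 d → 2 ≤ ang (out 3 (st1Yb d)) (st1Yb e) := by
  decide +kernel
theorem st1_d13 : ∀ d : Dart, wall d = false → wall (out 5 (st1Yb d)) = false := by
  decide +kernel
theorem st1_d14 : ∀ d : Dart, out 4 (st1Yb d) = fk 3 (out 5 (st1Yb d)) := by decide +kernel
theorem st1_d15 : ∀ d : Dart, wall d = false → J (out 4 (st1Yb d)) (out 3 (st1Yb d)) ∧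
    wall (out 3 (st1Yb d)) = false ∧ J (out 3 (st1Yb d)) (fk 2 (fk 1 d)) := by decide +kernel
theorem st1_d16 : ∀ d : Dart, wall d = false → J (rv (st1Yb d)) (out 5 (st1Yb d)) := by
  decide +kernel
theorem st1_d17 : ∀ d e : Dart, wall d = false → rv (st1Yb e) = fk 1 d →
    J (out 3 (st1Yb d)) (out 5 (st1Yb e)) := by decide +kernel
theorem st1_d18 : ∀ d : Dart, th (out 5 (st1Yb d)) + (th (out 4 (st1Yb d)) + th (out 3 (st1Yb d)))
    = -th (rv (st1Yb d)) + th d + th (fk 1 d) := by decide +kernel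
theorem st1_d19 : ∀ d : Dart, (fk 1 d).1 = d.1 := by decide +kernel
theorem st1_d20 : ∀ d : Dart, wall d = true → (fk 2 d).1 = d.1 ∧ wall (fk 2 d) = true := by
  decide +kernel
theorem st1_d21 : ∀ d : Dart, wall d = false → d.1 = (rv (st1Yb d)).1 + 1 := by decide +kernel
theorem st1_d22 : ∀ d : Dart, wall d = false → wall (fk 1 d) = true := by decide +kernel

attribute [local irreducible] rv lf fk out st1Yb ang th wall J

theorem st1_rt_rk (e : Entry) : (st1Rt e).2.rk = e.2.rk - 1 := by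
  unfold st1Rt
  split_ifs with h
  · rw [h]
    rfl
  · rfl

theorem st1_rt_kt {e : Entry} (h1 : 1 ≤ e.2.rk) (h5 : e.2.rk ≤ 5) : KT 5 (st1Rt e) := by
  refine ⟨by rw [st1_rt_rk]; omega, Or.inl ?_⟩
  rw [st1_rt_rk]
  unfold st1Rt
  rw [if_neg (by omega)]

theorem st1_run (e : Entry) (he : wall e.1 = false) : ∀ (t : List Entry) (u : Entry),
    (∀ x ∈ u :: t, wall x.1 = true) → (∀ x ∈ u :: t, KT 5 x) → (u :: (t ++ [e])).IsChain JR →
    (st1Rt u :: (t.map st1Rt ++ [st1Y e.1])).IsChain (fun a b => b.1 = fk 2 a.1) ∧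
    (t.map st1Rt ++ [st1Y e.1]).IsChain JR ∧ (∀ x ∈ t.map st1Rt, KT 5 x) ∧
    (1 ≤ u.2.rk → ∀ x ∈ (t.map st1Rt ++ [st1Y e.1]).head?, JR (st1Rt u) x) ∧
    u.2.rk + t.length ≤ 5
  | [], u, hw, hk, hc => by
    have hu := hw u List.mem_cons_self
    have hj : JR u e := by simpa using hc
    have h2 := st1_d2 _ _ hj.1 hu he
    have h5 := (hk u List.mem_cons_self).1
    refine ⟨by simpa [st1Y, st1Rt] using h2, by simp, by simp, fun _ x hx => ?_, by simpa using h5⟩
    obtain rfl : st1Y e.1 = x := by simpa using hx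
    refine ⟨?_, fun _ _ => ?_⟩
    · change J u.1 (rv (st1Yb e.1))
      rw [h2]
      exact st1_d5 _ hu
    · rw [st1_rt_rk]
      change u.2.rk - 1 < 5
      omega
  | u' :: t, u, hw, hk, hc => by
    have hu := hw u List.mem_cons_self
    have hu' := hw u' (by simp)
    rw [List.cons_append, List.isChain_cons_cons] at hc
    obtain ⟨i1, i2, i3, i4, i5⟩ := st1_run e he t u' (fun x hx => hw x (List.mem_cons_of_mem _ hx))
      (fun x hx => hk x (List.mem_cons_of_mem _ hx)) hc.2
    have hr := hc.1.2 hu hu'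
    have h1 := st1_d1 _ _ hc.1.1 hu hu'
    refine ⟨?_, ?_, ?_, fun h x hx => ?_, by simp only [List.length_cons]; omega⟩
    · rw [List.map_cons, List.cons_append, List.isChain_cons_cons]
      exact ⟨h1, i1⟩
    · rw [List.map_cons, List.cons_append, List.isChain_cons]
      exact ⟨i4 (by omega), i2⟩
    · intro x hx
      rcases List.mem_cons.1 hx with rfl | hx
      · exact st1_rt_kt (by omega) (hk u' (by simp)).1
      · exact i3 x hx
    · obtain rfl : st1Rt u' = x := by simpa using hx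
      refine ⟨hc.1.1, fun _ _ => ?_⟩
      rw [st1_rt_rk, st1_rt_rk]
      omega

theorem st1_bk {s e : Entry} {run : List Entry} (hs : wall s.1 = false) (he : wall e.1 = false)
    (hw : ∀ x ∈ run, wall x.1 = true) (hk : ∀ x ∈ run, KT 5 x)
    (hc : (s :: (run ++ [e])).IsChain JR) : St1Bk s.1 (run.map st1Rt) e.1 := by
  rcases run with _ | ⟨u, t⟩
  · have hj : JR s e := by simpa using hc
    refine ⟨hs, he, fun x hx => ?_, by simp, by simp, by simp, by simp⟩
    obtain rfl : st1Y e.1 = x := by simpa using hx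
    exact st1_d4 _ _ hj.1 hs he
  · rw [List.cons_append, List.isChain_cons_cons] at hc
    obtain ⟨i1, i2, i3, -, i5⟩ := st1_run e he t u hw hk hc.2
    refine ⟨hs, he, fun x hx => ?_, i1, i2, i3, by simp only [List.length_map, List.length_cons]; omega⟩
    obtain rfl : st1Rt u = x := by simpa using hx
    exact st1_d3 _ _ hc.1.1 hs (hw u List.mem_cons_self)

theorem st1_flatU_cons (β : Entry × List Entry) (bs : List (Entry × List Entry)) :
    flatU (β :: bs) = β.1 :: (β.2 ++ flatU bs) := by simp [flatU]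

theorem st1_hdD_map (bs : List (Entry × List Entry)) (n : Dart) :
    hdD (bs.map st1RtB) n = hdD bs n := by cases bs <;> rfl

theorem st1_flatU_map (bs : List (Entry × List Entry)) :
    flatU (bs.map st1RtB) = (flatU bs).map st1Rt := by
  induction bs with
  | nil => rfl
  | cons β bs ih => simp [st1_flatU_cons, ih, st1RtB]

theorem st1_wf (e : Entry) (he : wall e.1 = false) : ∀ bs : List (Entry × List Entry),
    (∀ β ∈ bs, wall β.1.1 = false ∧ ∀ x ∈ β.2, wall x.1 = true) → (∀ x ∈ flatU bs, KT 5 x) →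
    (flatU bs ++ [e]).IsChain JR → St1WF (bs.map st1RtB) e.1
  | [], _, _, _ => trivial
  | β :: bs, hb, hk, hc => by
    rw [st1_flatU_cons] at hk hc
    have hβ := hb β List.mem_cons_self
    have hc2 : (flatU bs ++ [e]).IsChain JR := by
      have h1 : β.1 :: (β.2 ++ flatU bs) ++ [e] = (β.1 :: β.2) ++ (flatU bs ++ [e]) := by simp
      rw [h1] at hc
      exact hc.right_of_append
    refine ⟨?_, st1_wf e he bs (fun γ hγ => hb γ (List.mem_cons_of_mem _ hγ))
      (fun x hx => hk x (by simp [hx])) hc2⟩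
    rw [st1_hdD_map]
    have hk2 : ∀ x ∈ β.2, KT 5 x := fun x hx => hk x (by simp [hx])
    rcases bs with _ | ⟨γ, cs⟩
    · exact st1_bk (s := β.1) hβ.1 he hβ.2 hk2 (by simpa [flatU] using hc)
    · refine st1_bk (s := β.1) (e := γ.1) hβ.1 (hb γ (by simp)).1 hβ.2 hk2 ?_
      have h1 : β.1 :: (β.2 ++ flatU (γ :: cs)) ++ [e] =
          (β.1 :: (β.2 ++ [γ.1])) ++ (γ.2 ++ flatU cs ++ [e]) := by simp [st1_flatU_cons]
      rw [h1] at hc
      exact hc.left_of_append

theorem st1_dec (l : List Entry) : ∃ run bs, l = run ++ flatU bs ∧ (∀ x ∈ run, wall x.1 = true) ∧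
    ∀ β ∈ bs, wall β.1.1 = false ∧ ∀ x ∈ β.2, wall x.1 = true := by
  induction l with
  | nil => exact ⟨[], [], rfl, by simp, by simp⟩
  | cons a l ih =>
    obtain ⟨run, bs, rfl, h1, h2⟩ := ih
    rcases hw : wall a.1 with _ | _
    · refine ⟨[], (a, run) :: bs, by simp [st1_flatU_cons], by simp, fun β hβ => ?_⟩
      rcases List.mem_cons.1 hβ with rfl | hβ
      · exact ⟨hw, h1⟩
      · exact h2 β hβ
    · refine ⟨a :: run, bs, rfl, fun x hx => ?_, h2⟩
      rcases List.mem_cons.1 hx with rfl | hx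
      · exact hw
      · exact h1 x hx

theorem st1_walls : ∀ (t : List Entry) (u e : Entry), (∀ x ∈ u :: t, wall x.1 = true) →
    wall e.1 = true → (u :: (t ++ [e])).IsChain JR → u.2.rk < e.2.rk
  | [], u, e, hw, he, hc => by
    have hj : JR u e := by simpa using hc
    exact hj.2 (hw u List.mem_cons_self) he
  | u' :: t, u, e, hw, he, hc => by
    rw [List.cons_append, List.isChain_cons_cons] at hc
    exact (hc.1.2 (hw u List.mem_cons_self) (hw u' (by simp))).trans
      (st1_walls t u' e (fun x hx => hw x (List.mem_cons_of_mem _ hx)) he hc.2)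

theorem st1_blocks {w : List Entry} (h : CChain JR w) : ∃ β bs, w ~r flatU (β :: bs) ∧
    ∀ γ ∈ β :: bs, wall γ.1.1 = false ∧ ∀ x ∈ γ.2, wall x.1 = true := by
  have h1 : ∃ s ∈ w, wall s.1 = false := by
    by_contra hn
    have hw : ∀ x ∈ w, wall x.1 = true := fun x hx => by
      rcases hx' : wall x.1 with _ | _
      · exact absurd ⟨x, hx, hx'⟩ hn
      · rfl
    rcases w with _ | ⟨a, t⟩
    · exact h
    · exact lt_irrefl _ (st1_walls t a a hw (hw a List.mem_cons_self) h)
  obtain ⟨s, hs, hsw⟩ := h1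
  obtain ⟨A, C, rfl⟩ := List.append_of_mem hs
  obtain ⟨run, bs, he, h2, h3⟩ := st1_dec (C ++ A)
  refine ⟨(s, run), bs, ?_, fun γ hγ => ?_⟩
  · rw [st1_flatU_cons, ← he, ← List.cons_append]
    exact List.isRotated_append
  · rcases List.mem_cons.1 hγ with rfl | hγ
    · exact ⟨hsw, h2⟩
    · exact h3 γ hγ

/-! The single block. -/

theorem St1Bk.spl {s : Entry} {run : List Entry} {n : Dart} (h : St1Bk s.1 run n) :
    ∃ A x, s :: run = A ++ [x] ∧ Spl x.1 (rv (st1Yb n)) n := by
  rcases List.eq_nil_or_concat run with rfl | ⟨L, x, rfl⟩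
  · exact ⟨[], s, rfl, st1_d6 _ _ (h.hd (st1Y n) (by simp))⟩
  · refine ⟨s :: L, x, by simp, st1_d7 _ _ ?_⟩
    have h1 := h.ch
    rw [List.concat_eq_append, List.append_assoc] at h1
    simpa [st1Y] using h1.right_of_append

theorem st1_spur {x e : Entry} (h : Spl x.1 (rv (st1Yb e.1)) e.1) :
    Rw [x, e] [x, st1Y e.1, st1Z e.1, e] [] := by
  have hm : Mate [st1Y e.1] [st1Z e.1] := by
    unfold Mate
    simp [st1Y, st1Z, rv_rv, compB]
  exact rw_spur (p := st1Y e.1) hm (by simp) rfl h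

theorem St1Bk.tile {s a b : Entry} {run : List Entry} {n : Dart} (h : St1Bk s.1 run n)
    (ha : 2 ≤ ang a.1 (st1Yb s.1)) (hb : 2 ≤ ang (rv (st1Yb n)) b.1) :
    Rw (a :: st1Z s.1 :: s :: (run ++ [st1Y n, b])) (a :: st1V s.1 :: (st1K s.1 run n ++ [b])) [] := by
  rcases run with _ | ⟨u, t⟩
  · have h1 : (st1Y n).1 = lf s.1 := (h.hd (st1Y n) (by simp)).trans (fk_one _)
    exact rw_tile3 (x := st1Z s.1) (y := s) (z := st1Y n) (.free 0) (.free 3) (.free 0)
      (st1_d8 _) h1 ha hb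
  · have h1 : u.1 = lf s.1 := (h.hd u (by simp)).trans (fk_one _)
    have h2 := h.ch
    obtain ⟨c, L, hc⟩ : ∃ c L, t ++ [st1Y n] = c :: L := by
      rcases t with _ | ⟨c, t⟩
      · exact ⟨_, _, rfl⟩
      · exact ⟨_, _, rfl⟩
    rw [List.cons_append, hc, List.isChain_cons_cons] at h2
    have h3 := (rw_tile3 (a := a) (b := c) (x := st1Z s.1) (y := s) (z := u) (.free 0) (.free 3)
      (.free 0) (st1_d8 _) h1 ha (by rw [h2.1]; exact st1_d9 _)).ctx [] (L ++ [b])
    have e1 : t ++ [st1Y n, b] = c :: (L ++ [b]) := by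
      rw [← List.cons_append, ← hc]
      simp
    have e2 : st1K s.1 (u :: t) n = (out 4 (st1Yb s.1), Tag.free 3) ::
        (out 3 (st1Yb s.1), Tag.free 0) :: c :: L := by
      unfold st1K
      rw [List.cons_append, List.tail_cons, hc]
    rw [List.cons_append, e1, e2]
    exact h3

theorem St1Bk.last {s : Dart} {run : List Entry} {n : Dart} (h : St1Bk s run n) :
    ∃ A x, st1K s run n = A ++ [x] ∧ 2 ≤ ang x.1 (st1Yb n) ∧ J x.1 (out 5 (st1Yb n)) := by
  rcases run with _ | ⟨u, t⟩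
  · have h1 : rv (st1Yb n) = fk 1 s := h.hd (st1Y n) (by simp)
    exact ⟨[(out 4 (st1Yb s), Tag.free 3)], (out 3 (st1Yb s), Tag.free 0), rfl,
      st1_d12 _ _ h1, st1_d17 _ _ h.seam h1⟩
  · exact ⟨(out 4 (st1Yb s), Tag.free 3) :: (out 3 (st1Yb s), Tag.free 0) :: t, st1Y n,
      by simp [st1K], st1_d10 _, st1_d16 _ h.seam'⟩

theorem St1Bk.chain {s : Dart} {run : List Entry} {n : Dart} (h : St1Bk s run n) :
    (st1K s run n).IsChain JR := by
  obtain ⟨j1, j2, j3⟩ := st1_d15 s h.seam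
  unfold st1K
  rw [List.isChain_cons_cons, List.isChain_cons]
  refine ⟨⟨j1, fun _ h2 => ?_⟩, fun c hc => ⟨?_, fun h2 => ?_⟩, h.tl⟩
  · rw [j2] at h2
    exact absurd h2 (by simp)
  · rcases run with _ | ⟨u, t⟩
    · simp at hc
    · have h1 : u.1 = fk 1 s := h.hd u (by simp)
      have h2 := h.ch
      rw [List.cons_append, List.isChain_cons] at h2
      have h3 : c.1 = fk 2 u.1 := h2.1 c hc
      rw [h3, h1]
      exact j3
  · rw [j2] at h2
    exact absurd h2 (by simp)

theorem St1Bk.tags {s : Dart} {run : List Entry} {n : Dart} (h : St1Bk s run n) :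
    ∀ e ∈ st1K s run n, KT 5 e := by
  intro e he
  unfold st1K at he
  rcases List.mem_cons.1 he with rfl | he
  · exact ⟨by simp [Tag.rk], Or.inr rfl⟩
  rcases List.mem_cons.1 he with rfl | he
  · exact ⟨by simp [Tag.rk], Or.inr rfl⟩
  rcases run with _ | ⟨u, t⟩
  · simp at he
  · rw [List.cons_append, List.tail_cons, List.mem_append] at he
    rcases he with he | he
    · exact h.tg e he
    · obtain rfl : e = st1Y n := by simpa using he
      exact ⟨by simp [Tag.rk, st1Y], Or.inr rfl⟩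

theorem St1Bk.length {s : Dart} {run : List Entry} {n : Dart} (h : St1Bk s run n) :
    (st1K s run n).length ≤ 10 := by
  have := h.len
  simp only [st1K, List.length_cons, List.length_tail, List.length_append, List.length_nil]
  omega

theorem St1Bk.theta {s : Entry} {run : List Entry} {n : Dart} (h : St1Bk s.1 run n) :
    thL (st1V s.1 :: st1K s.1 run n) = -th (rv (st1Yb s.1)) + thL (s :: run) + th (rv (st1Yb n)) := by
  obtain ⟨c, L, hc⟩ : ∃ c L, run ++ [st1Y n] = c :: L := by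
    rcases run with _ | ⟨c, t⟩
    · exact ⟨_, _, rfl⟩
    · exact ⟨_, _, rfl⟩
  have h1 : c.1 = fk 1 s.1 := h.hd c (by rw [hc]; rfl)
  have h2 : thL run + th (rv (st1Yb n)) = th (fk 1 s.1) + thL L := by
    have h3 := congrArg thL hc
    simpa [st1Y, h1] using h3
  have h4 := st1_d18 s.1
  simp only [st1K, st1V, hc, List.tail_cons, thL_cons]
  linear_combination h4 - h2

theorem st1_par : ∀ (L : List Entry) (c y : Entry), wall c.1 = true →
    (c :: L).IsChain (fun a b => b.1 = fk 2 a.1) → y ∈ c :: L → y.1.1 = c.1.1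
  | [], c, y, _, _, hy => by
    obtain rfl : y = c := by simpa using hy
    rfl
  | c' :: L, c, y, hw, hc, hy => by
    rw [List.isChain_cons_cons] at hc
    rcases List.mem_cons.1 hy with rfl | hy
    · rfl
    · have h1 := st1_d20 _ hw
      rw [← hc.1] at h1
      exact (st1_par L c' y h1.2 hc.2 hy).trans h1.1

theorem St1Bk.par {s : Dart} {run : List Entry} {n : Dart} (h : St1Bk s run n) :
    n.1 = s.1 + 1 := by
  obtain ⟨c, L, hc⟩ : ∃ c L, run ++ [st1Y n] = c :: L := by
    rcases run with _ | ⟨c, t⟩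
    · exact ⟨_, _, rfl⟩
    · exact ⟨_, _, rfl⟩
  have h1 : c.1 = fk 1 s := h.hd c (by rw [hc]; rfl)
  have h2 := st1_par L c (st1Y n) (by rw [h1]; exact st1_d22 _ h.seam) (hc ▸ h.ch)
    (by rw [← hc]; simp)
  rw [h1, st1_d19] at h2
  rw [st1_d21 n h.seam', ← h2]
  rfl

/-! All blocks. -/

theorem st1_parity (n : Dart) : ∀ bs : List (Entry × List Entry), St1WF bs n →
    n.1 = (hdD bs n).1 + (bs.length : ZMod 2)
  | [], _ => by simp [hdD]
  | β :: bs, h => by
    have h1 := st1_parity n bs h.2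
    have h2 := h.1.par
    rw [h2] at h1
    rw [h1]
    simp only [hdD, List.length_cons, Nat.cast_add, Nat.cast_one]
    ring

theorem st1_hd_units (bs : List (Entry × List Entry)) (n : Dart) :
    hdD (st1Units bs n) (out 5 (st1Yb n)) = out 5 (st1Yb (hdD bs n)) := by cases bs <;> rfl

theorem st1_len_units (n : Dart) (bs : List (Entry × List Entry)) :
    (st1Units bs n).length = bs.length := by
  induction bs with
  | nil => rfl
  | cons β bs ih => simp [st1Units, ih]

theorem st1_uch (n : Dart) : ∀ bs : List (Entry × List Entry), St1WF bs n →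
    UCh (st1Units bs n) (out 5 (st1Yb n))
  | [], _ => trivial
  | β :: bs, h => by
    refine ⟨st1_d13 _ h.1.seam, ⟨by simp [Tag.rk, st1V], Or.inr rfl⟩,
      ⟨(out 3 (st1Yb β.1.1), Tag.free 0) :: (β.2 ++ [st1Y (hdD bs n)]).tail, ?_⟩, h.1.chain,
      h.1.tags, h.1.length, fun e he => ?_, st1_uch n bs h.2⟩
    · change st1K _ _ _ = (fk 3 (out 5 (st1Yb β.1.1)), Tag.free 3) :: _
      rw [← st1_d14]
      rfl
    · obtain ⟨A, x, hx, -, hj⟩ := h.1.last
      rw [st1_hd_units]
      change e ∈ (st1K β.1.1 β.2 (hdD bs n)).getLast? at he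
      rw [hx] at he
      obtain rfl : x = e := by simpa using he
      exact hj

theorem st1_flat_units (β : Entry × List Entry) (bs : List (Entry × List Entry)) (n : Dart) :
    flatU (st1Units (β :: bs) n) =
      (st1V β.1.1 :: st1K β.1.1 β.2 (hdD bs n)) ++ flatU (st1Units bs n) := by
  simp [st1Units, st1_flatU_cons]

theorem st1_theta (n : Dart) : ∀ bs : List (Entry × List Entry), St1WF bs n →
    thL (flatU (st1Units bs n)) =
      -th (rv (st1Yb (hdD bs n))) + thL (flatU bs) + th (rv (st1Yb n))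
  | [], _ => by simp [st1Units, flatU, hdD]
  | β :: bs, h => by
    rw [st1_flat_units, thL_append, h.1.theta, st1_theta n bs h.2, st1_flatU_cons,
      ← List.cons_append, thL_append]
    change _ = -th (rv (st1Yb β.1.1)) + _ + _
    ring

theorem st1_near (n : Dart) : ∀ (bs : List (Entry × List Entry)) (z : Fin 4 → ℤ), St1WF bs n →
    Near 1000 z (flatU bs) → Near 1020 (z - th (rv (st1Yb (hdD bs n)))) (flatU (st1Units bs n))
  | [], z, _, hz => (InB.sub hz.start (th_inB _)).mono (by norm_num)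
  | β :: bs, z, h, hz => by
    rw [st1_flatU_cons, ← List.cons_append, near_append] at hz
    rw [st1_flat_units, near_append]
    refine ⟨(near_short (InB.sub hz.1.start (th_inB _)) _).mono ?_, ?_⟩
    · have := h.1.length
      simp only [List.length_cons]
      omega
    · have h1 := st1_near n bs _ h.2 hz.2
      have h2 : z - th (rv (st1Yb (hdD (β :: bs) n))) -
          thL (st1V β.1.1 :: st1K β.1.1 β.2 (hdD bs n)) =
          z - thL (β.1 :: β.2) - th (rv (st1Yb (hdD bs n))) := by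
        rw [h.1.theta]
        change z - th (rv (st1Yb β.1.1)) - _ = _
        ring
      rw [h2]
      exact h1

theorem st1_spurs (n : Dart) : ∀ (bs : List (Entry × List Entry)) (β : Entry × List Entry),
    St1WF (β :: bs) n → Rw (flatU (β :: bs) ++ [st1Y n]) (st1Sp (β :: bs) n).tail []
  | [], β, _ => by
    have e : flatU [β] ++ [st1Y n] = (st1Sp [β] n).tail := by simp [flatU, st1Sp, hdD]
    rw [e]
    exact Rw.refl _
  | γ :: cs, β, h => by
    have h1 := (st1_spurs n cs γ h.2).ctx (β.1 :: β.2) []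
    obtain ⟨A, x, hx, hs⟩ := St1Bk.spl (s := β.1) h.1
    have h2 := (st1_spur (e := γ.1) hs).ctx A (γ.2 ++ st1Y (hdD cs n) :: st1Sp cs n)
    have e1 : flatU (β :: γ :: cs) ++ [st1Y n] =
        β.1 :: β.2 ++ (flatU (γ :: cs) ++ [st1Y n]) ++ [] := by
      rw [st1_flatU_cons]
      simp
    have e2 : β.1 :: β.2 ++ (st1Sp (γ :: cs) n).tail ++ [] =
        A ++ [x, γ.1] ++ (γ.2 ++ st1Y (hdD cs n) :: st1Sp cs n) := by
      rw [hx]
      simp [st1Sp]
    have e3 : (st1Sp (β :: γ :: cs) n).tail =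
        A ++ [x, st1Y γ.1.1, st1Z γ.1.1, γ.1] ++ (γ.2 ++ st1Y (hdD cs n) :: st1Sp cs n) := by
      change β.1 :: β.2 ++ st1Y γ.1.1 :: st1Sp (γ :: cs) n = _
      rw [hx]
      simp [st1Sp]
    rw [e1, e3]
    rw [e2] at h1
    exact h1.trans h2

theorem st1_tiles (n : Dart) (b : Entry) (hb : 2 ≤ ang (rv (st1Yb n)) b.1) :
    ∀ (bs : List (Entry × List Entry)) (a : Entry), St1WF bs n →
      2 ≤ ang a.1 (st1Yb (hdD bs n)) →
      Rw (a :: (st1Sp bs n ++ [b])) (a :: (flatU (st1Units bs n) ++ [b])) []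
  | [], a, _, _ => Rw.refl _
  | β :: bs, a, h, ha => by
    have h1 := (st1_tiles n b hb bs (st1Y (hdD bs n)) h.2 (st1_d10 _)).ctx
      (a :: st1Z β.1.1 :: β.1 :: β.2) []
    obtain ⟨c, L, hc, hc2⟩ : ∃ c L, flatU (st1Units bs n) ++ [b] = c :: L ∧
        2 ≤ ang (rv (st1Yb (hdD bs n))) c.1 := by
      rcases bs with _ | ⟨γ, cs⟩
      · exact ⟨b, [], rfl, hb⟩
      · exact ⟨st1V γ.1.1, _, by rw [st1_flat_units]; rfl, st1_d11 _⟩
    have h2 := (St1Bk.tile (s := β.1) (a := a) (b := c) h.1 ha hc2).ctx [] L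
    have e1 : a :: (st1Sp (β :: bs) n ++ [b]) = a :: st1Z β.1.1 :: β.1 :: β.2 ++
        st1Y (hdD bs n) :: (st1Sp bs n ++ [b]) ++ [] := by simp [st1Sp]
    have e2 : a :: st1Z β.1.1 :: β.1 :: β.2 ++
        st1Y (hdD bs n) :: (flatU (st1Units bs n) ++ [b]) ++ [] =
        [] ++ a :: st1Z β.1.1 :: β.1 :: (β.2 ++ [st1Y (hdD bs n), c]) ++ L := by
      rw [hc]
      simp
    have e3 : a :: (flatU (st1Units (β :: bs) n) ++ [b]) =
        [] ++ a :: st1V β.1.1 :: (st1K β.1.1 β.2 (hdD bs n) ++ [c]) ++ L := by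
      rw [st1_flat_units, List.append_assoc, hc]
      simp
    rw [e1, e3]
    rw [e2] at h1
    exact h1.trans h2

theorem st1_last (n : Dart) : ∀ (bs : List (Entry × List Entry)) (β : Entry × List Entry),
    St1WF (β :: bs) n → (∃ A x, flatU (β :: bs) = A ++ [x] ∧ Spl x.1 (rv (st1Yb n)) n) ∧
      ∃ A, st1Sp (β :: bs) n = st1Z β.1.1 :: (A ++ [st1Y n])
  | [], β, h => by
    obtain ⟨A, x, hx, hs⟩ := St1Bk.spl (s := β.1) h.1
    exact ⟨⟨A, x, by simpa [flatU] using hx, hs⟩, β.1 :: β.2, by simp [st1Sp, hdD]⟩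
  | γ :: cs, β, h => by
    obtain ⟨⟨A, x, hx, hs⟩, A', hA'⟩ := st1_last n cs γ h.2
    refine ⟨⟨β.1 :: β.2 ++ A, x, by rw [st1_flatU_cons, hx]; simp, hs⟩,
      β.1 :: β.2 ++ st1Y γ.1.1 :: st1Z γ.1.1 :: A', ?_⟩
    change st1Z β.1.1 :: β.1 :: (β.2 ++ st1Y γ.1.1 :: st1Sp (γ :: cs) n) = _
    rw [hA']
    simp

theorem st1_rot {X Y : List Entry} {F : List (List Entry)} (h : Real (X :: F)) (A B : List Entry)
    (hX : X = A ++ B) (hY : Y = B ++ A) : Real (Y :: F) := by
  rw [hX] at h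
  rw [hY]
  exact h.rot

theorem st1_app {X Y Z W : List Entry} {F : List (List Entry)} (h : Real (X :: F)) (R : List Entry)
    (hr : Rw Z W []) (hX : X = Z ++ R) (hY : Y = W ++ R) : Real (Y :: F) := by
  rw [hX] at h
  rw [hY]
  exact hr R F h

theorem st1_real {β γ : Entry × List Entry} {cs : List (Entry × List Entry)}
    {F : List (List Entry)} (h : St1WF (β :: γ :: cs) β.1.1)
    (hR : Real (flatU (β :: γ :: cs) :: F)) :
    Real (flatU (st1Units (β :: γ :: cs) β.1.1) :: F) := by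
  obtain ⟨⟨A, x, hx, hs⟩, A', hA'⟩ := st1_last β.1.1 cs γ h.2
  have r1 : Real (([x, β.1] ++ (β.2 ++ A)) :: F) :=
    st1_rot hR (β.1 :: β.2 ++ A) [x] (by rw [st1_flatU_cons, hx]; simp) (by simp)
  have r2 : Real (([x, st1Y β.1.1, st1Z β.1.1, β.1] ++ (β.2 ++ A)) :: F) :=
    st1_spur (e := β.1) hs _ _ r1
  have r3 : Real ((flatU (β :: γ :: cs) ++ [st1Y β.1.1] ++ [st1Z β.1.1]) :: F) :=
    st1_rot r2 [x, st1Y β.1.1, st1Z β.1.1] (β.1 :: β.2 ++ A) (by simp)
      (by rw [st1_flatU_cons, hx]; simp)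
  have r4 : Real (((st1Sp (β :: γ :: cs) β.1.1).tail ++ [st1Z β.1.1]) :: F) :=
    st1_spurs β.1.1 (γ :: cs) β h _ _ r3
  have r5 : Real ((st1Y β.1.1 :: st1Z β.1.1 :: β.1 :: (β.2 ++ [st1Y γ.1.1, st1Z γ.1.1]) ++ A')
      :: F) :=
    st1_rot r4 (β.1 :: β.2 ++ st1Y γ.1.1 :: st1Z γ.1.1 :: A') [st1Y β.1.1, st1Z β.1.1]
      (by
        change β.1 :: (β.2 ++ st1Y γ.1.1 :: st1Sp (γ :: cs) β.1.1) ++ _ = _
        rw [hA']
        simp) (by simp)
  have r6 : Real ((st1Y β.1.1 :: st1V β.1.1 :: (st1K β.1.1 β.2 γ.1.1 ++ [st1Z γ.1.1]) ++ A')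
      :: F) :=
    St1Bk.tile (s := β.1) (a := st1Y β.1.1) (b := st1Z γ.1.1) h.1 (st1_d10 _) (st1_d10 _) _ _ r5
  obtain ⟨K, y, hy, hy2, -⟩ := h.1.last
  have hy' : st1K β.1.1 β.2 γ.1.1 = K ++ [y] := hy
  have r7 : Real ((y :: (st1Sp (γ :: cs) β.1.1 ++ [st1V β.1.1]) ++ K) :: F) :=
    st1_rot r6 (st1Y β.1.1 :: st1V β.1.1 :: K) (y :: st1Z γ.1.1 :: A') (by rw [hy']; simp)
      (by rw [hA']; simp)
  have r8 : Real ((y :: (flatU (st1Units (γ :: cs) β.1.1) ++ [st1V β.1.1]) ++ K) :: F) :=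
    st1_tiles β.1.1 (st1V β.1.1) (st1_d11 _) (γ :: cs) y h.2 hy2 _ _ r7
  refine st1_rot r8 (y :: flatU (st1Units (γ :: cs) β.1.1)) (st1V β.1.1 :: K) (by simp) ?_
  rw [st1_flat_units]
  change st1V β.1.1 :: st1K β.1.1 β.2 γ.1.1 ++ _ = _
  rw [hy']
  simp

theorem st1_darts_rt (l : List Entry) : darts (l.map st1Rt) = darts l := by
  simp [darts, st1Rt, Function.comp_def]

theorem st1_init {w : List Entry} (hw : Good w) : Real [w.map st1Rt, topOf w] := by
  refine real_init ?_ ?_
  · unfold Mate topOf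
    rw [List.reverse_reverse, List.forall₂_map_left_iff, List.forall₂_map_right_iff,
      List.forall₂_same]
    intro e _
    refine ⟨rfl, ?_⟩
    unfold st1Rt
    split_ifs with h
    · rfl
    · simp only [compB, decide_eq_true_eq]
      omega
  · rw [st1_darts_rt]
    exact hw.toPreGood.jog.imp fun a _ b _ h => J_fw a b h

theorem st1_len_flat (bs : List (Entry × List Entry)) : bs.length ≤ (flatU bs).length := by
  induction bs with
  | nil => simp
  | cons β bs ih =>
    rw [st1_flatU_cons]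
    simp only [List.length_cons, List.length_append]
    omega

/-- First step of the splitting: a tile on every seam. -/
theorem step1 {w : List Entry} (hw : Good w) : ∃ U₀ U₁ us, Even us.length ∧
    us.length ≤ 1000000 ∧ UCh (U₀ :: U₁ :: us) U₀.1.1 ∧
    (∃ z, Near 1020 z (flatU (U₀ :: U₁ :: us))) ∧ thL (flatU (U₀ :: U₁ :: us)) = 0 ∧
    Real [flatU (U₀ :: U₁ :: us), topOf w] := by
  obtain ⟨β, bs, hr, hb⟩ := st1_blocks hw.ch
  have hg : Good (flatU (β :: bs)) := hw.rotated hr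
  have hc : (flatU (β :: bs) ++ [β.1]).IsChain JR := by
    have h1 := hg.ch
    rw [st1_flatU_cons] at h1 ⊢
    exact h1
  have hwf : St1WF ((β :: bs).map st1RtB) β.1.1 :=
    st1_wf β.1 (hb β List.mem_cons_self).1 (β :: bs) hb hg.tg hc
  have hpar := st1_parity _ _ hwf
  have hev : Even (bs.length + 1) := by
    rw [← ZMod.natCast_eq_zero_iff_even]
    have h1 : β.1.1.1 = β.1.1.1 + ((bs.length + 1 : ℕ) : ZMod 2) := by
      simpa [hdD, st1RtB, st1Rt] using hpar
    exact (left_eq_add.1 h1)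
  rcases bs with _ | ⟨γ, cs⟩
  · exact absurd hev (by decide)
  have hR : Real [flatU ((β :: γ :: cs).map st1RtB), topOf w] := by
    rw [st1_flatU_map]
    exact (st1_init hw).rotated
      (List.Forall₂.cons (hr.map st1Rt) (List.Forall₂.cons (List.IsRotated.refl _) List.Forall₂.nil))
  have hd : darts (flatU ((β :: γ :: cs).map st1RtB)) = darts (flatU (β :: γ :: cs)) := by
    rw [st1_flatU_map, st1_darts_rt]
  obtain ⟨z, hz⟩ := hg.near
  refine ⟨(st1V β.1.1, st1K β.1.1 (β.2.map st1Rt) γ.1.1),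
    (st1V γ.1.1, st1K γ.1.1 (γ.2.map st1Rt) (hdD (cs.map st1RtB) β.1.1)),
    st1Units (cs.map st1RtB) β.1.1, ?_, ?_, st1_uch _ _ hwf,
    ⟨_, st1_near _ _ z hwf (hz.congr hd)⟩, ?_, st1_real (β := st1RtB β) hwf hR⟩
  · rw [st1_len_units, List.length_map]
    simp only [List.length_cons] at hev
    obtain ⟨k, hk⟩ := hev
    exact ⟨k - 1, by omega⟩
  · rw [st1_len_units, List.length_map]
    have h1 := st1_len_flat (β :: γ :: cs)
    have h2 := hg.len
    simp only [List.length_cons] at h1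
    omega
  · have h1 := st1_theta _ _ hwf
    rw [thL_congr (List.Perm.of_eq hd), hg.th] at h1
    refine h1.trans ?_
    change -th (rv (st1Yb β.1.1)) + 0 + th (rv (st1Yb β.1.1)) = 0
    simp

end Pool.Agent.MC
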