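import Pool.Agent.P.MP_2677b3_gt.CuC
import Pool.Agent.P.MP_2677b3_gt.NF

/-! Parallel cycles are close; a closed piece has genus at least two. -/

namespace Pool.Agent.MC

variable {M : CMap} {H : M.D → Prop}

theorem cuan_star (ht : M.Tri) (x : M.gd.V) : ∃ T : Finset M.D, T.card ≤ 3 ∧
    ∀ e : M.D, M.gd.src e = x → e ∈ T := by
  classical
  by_cases h : ∃ d : M.D, M.gd.src d = x
  · obtain ⟨d, hd⟩ := h
    refine ⟨{d, M.ψ d, M.ψ (M.ψ d)}, Finset.card_le_three, fun e he => ?_⟩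
    have := ht.src_eq.1 (hd.trans he.symm)
    simpa only [Finset.mem_insert, Finset.mem_singleton] using this
  · exact ⟨∅, by simp, fun e he => absurd ⟨e, he⟩ h⟩

theorem ball_bdd (ht : M.Tri) (r : ℕ) (x : M.gd.V) : ∃ T : Finset M.D, T.card ≤ 3 * 4 ^ r ∧
    ∀ e c, M.gd.Path x c (M.gd.src e) → c.length ≤ r → e ∈ T := by
  classical
  induction r generalizing x with
  | zero =>
    obtain ⟨T, h1, h2⟩ := cuan_star ht x
    refine ⟨T, by simpa using h1, fun e c hc hl => ?_⟩
    obtain rfl : c = [] := List.eq_nil_of_length_eq_zero (by omega)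
    exact h2 e (Gd.path_nil.1 hc).symm
  | succ r ih =>
    obtain ⟨T, h1, h2⟩ := cuan_star ht x
    choose S hS1 hS2 using ih
    refine ⟨T ∪ T.biUnion fun a => S (M.gd.tgt a), ?_, fun e c hc hl => ?_⟩
    · have h3 := Finset.card_biUnion_le_card_mul T (fun a => S (M.gd.tgt a)) (3 * 4 ^ r)
        fun a _ => hS1 _
      have h4 := Finset.card_union_le T (T.biUnion fun a => S (M.gd.tgt a))
      have h5 : T.card * (3 * 4 ^ r) ≤ 3 * (3 * 4 ^ r) := Nat.mul_le_mul_right _ h1
      have h6 : 0 < 4 ^ r := by positivity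
      rw [pow_succ]
      omega
    · cases c with
      | nil => exact Finset.mem_union_left _ (h2 e (Gd.path_nil.1 hc).symm)
      | cons a c =>
        obtain ⟨h3, h4⟩ := Gd.path_cons.1 hc
        exact Finset.mem_union_right _ (Finset.mem_biUnion.2
          ⟨a, h2 a h3, hS2 _ e c h4 (by simpa using hl)⟩)

theorem cj_bdd {n : ℕ} {R N : ℕ → ℕ} (hM : YMap M n R N) (hg : M.Good H) (m : ℕ)
    (hm : ∀ d, (M.rg H d).card ≤ m) (d : M.D) (hd : H d) (hv : M.gv H d ≠ 1) :
    ∃ T : Finset M.D, T.card ≤ 3 * 4 ^ R m ∧ ∀ e, H e → M.Cj H d e → e ∈ T := by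
  obtain ⟨T, h1, h2⟩ := ball_bdd hg.tri (R m) (M.gd.src d)
  refine ⟨T, h1, fun e he ⟨c, hc, h⟩ => ?_⟩
  have l1 := (hg.length_cyc_le hd).trans (hm d)
  have l2 := (hg.length_cyc_le he).trans (hm e)
  rcases h with h | h
  · obtain ⟨c', h3, h4⟩ := hM.cyl m _ _ _ _ c (hg.cyc_path hd) (hg.cyc_path he) hc l1 l2 hv h
    exact h2 e c' h3 h4
  · obtain ⟨c', h3, h4⟩ := hM.cyl m _ _ _ _ c (hg.cyc_path hd) (hg.cyc_path he).rev hc l1
      ((Gd.length_rev _).trans_le l2) hv (by rw [Gd.ev_rev]; exact h)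
    exact h2 e c' h3 h4

theorem cuan_fin {n : ℕ} (hn : n ≤ 1) (i : Fin n) : List.finRange n = [i] := by
  obtain rfl : n = 1 := by have := i.2; omega
  rw [Subsingleton.elim i 0]
  rfl

theorem cuan_comm (G : GS) (hC : IsEmpty G.C) (x : G.X) (hX : ∀ y, y = x) (hh : G.h x ≤ 1)
    (a b : G.Ed) : Commute (G.gd.val a) (G.gd.val b) := by
  rcases a with ⟨y, i, u, s⟩ | ⟨c, _⟩ | c
  · rcases b with ⟨z, j, v, t⟩ | ⟨c, _⟩ | c
    · obtain rfl := hX y
      obtain rfl := hX z
      obtain rfl : i = j := by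
        apply Fin.ext
        have := i.2
        have := j.2
        omega
      have ho : G.ord z = [] := List.eq_nil_iff_forall_not_mem.2 fun c => hC.elim c
      have hr : G.gd.ev (G.rel z) = 1 := pres_rel ⟨z, rfl⟩
      have hi : ∀ u, G.gd.val (.inl ⟨z, i, u, false⟩) = (G.gd.val (.inl ⟨z, i, u, true⟩))⁻¹ :=
        fun u => G.gd.val_inv (.inl ⟨z, i, u, true⟩)
      have e : G.rel z = [.inl ⟨z, i, true, true⟩, .inl ⟨z, i, false, true⟩,
          .inl ⟨z, i, true, false⟩, .inl ⟨z, i, false, false⟩] := by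
        rw [GS.rel, ho, cuan_fin hh i]
        rfl
      rw [e] at hr
      have hr' : G.gd.val (.inl ⟨z, i, true, true⟩) * (G.gd.val (.inl ⟨z, i, false, true⟩) *
          (G.gd.val (.inl ⟨z, i, true, false⟩) * (G.gd.val (.inl ⟨z, i, false, false⟩) * 1))) = 1 :=
        hr
      rw [hi, hi] at hr'
      have hc : Commute (G.gd.val (.inl ⟨z, i, true, true⟩)) (G.gd.val (.inl ⟨z, i, false, true⟩)) :=
        commutatorElement_eq_one_iff_commute.1 (by
          rw [commutatorElement_def, ← hr']; simp only [mul_assoc, mul_one])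
      have h1 : ∀ u v, Commute (G.gd.val (.inl ⟨z, i, u, true⟩))
          (G.gd.val (.inl ⟨z, i, v, true⟩)) := by
        intro u v
        cases u <;> cases v
        exacts [Commute.refl _, hc.symm, hc, Commute.refl _]
      cases s <;> cases t
      · rw [hi, hi]; exact (h1 u v).inv_inv
      · rw [hi]; exact (h1 u v).inv_left
      · rw [hi]; exact (h1 u v).inv_right
      · exact h1 u v
    · exact hC.elim c
    · exact hC.elim c
  · exact hC.elim c
  · exact hC.elim c

theorem closed_big {n n' : ℕ} {R N : ℕ → ℕ} (hM : YMap M n R N) {G : GS}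
    (lab : Lab M (fun _ => False) G n') (n₀ : ℕ) : G.Big n₀ := by
  intro x
  have hC : IsEmpty G.C := ⟨fun c => by
    obtain ⟨_, h, _⟩ := lab.cuf_surj c
    exact h⟩
  refine Or.inl ⟨List.eq_nil_iff_forall_not_mem.2 fun c => hC.elim c, ?_⟩
  by_contra hh
  have hX : ∀ y, y = x := fun y => by
    obtain ⟨d, rfl⟩ := lab.reg_surj y
    obtain ⟨e, rfl⟩ := lab.reg_surj x
    exact (lab.reg_iff d e).2 (hM.conn d e)
  have hc : ∀ p q, G.gd.ev p * G.gd.ev q = G.gd.ev q * G.gd.ev p := by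
    intro p q
    refine Commute.list_prod_left _ _ fun a ha => Commute.list_prod_right _ _ fun b hb => ?_
    obtain ⟨a, -, rfl⟩ := List.mem_map.1 ha
    obtain ⟨b, -, rfl⟩ := List.mem_map.1 hb
    exact cuan_comm G hC x hX (by omega) a b
  obtain ⟨K, hK⟩ := nf_gg n'
  obtain ⟨f, g, ⟨η, -, hη⟩, -⟩ := hK M _ G lab
  obtain ⟨y, p, q, hp, hq, hne⟩ := hM.nonab
  have h1 := g.ev_congr (f.map_path (hp.append hq)) (f.map_path (hq.append hp)) (by
    rw [List.flatMap_append, List.flatMap_append, Gd.ev_append, Gd.ev_append, hc])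
  have h2 := Mor.back_path f g η hη (hp.append hq)
  have h3 := Mor.back_path f g η hη (hq.append hp)
  rw [h1, h3, Gd.ev_append, Gd.ev_append] at h2
  exact hne (mul_right_cancel h2).symm

end Pool.Agent.MC
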