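import Pool.Agent.P.MP_2677b3_gt.CuC

/-! Regions stay bounded after the trivial cycles are erased. -/

namespace Pool.Agent.MC

variable {M : CMap} {H : M.D → Prop}

/-- `f` lies on the cycle of `e` or on its reverse. -/
def cub_cf (M : CMap) (H : M.D → Prop) (e f : M.D) : Prop := M.OnC H e f ∨ M.OnC H e (M.α f)

/-- `S` is a small side of the cycle of `e`. -/
def cub_fil (M : CMap) (H : M.D → Prop) (N : ℕ) (e : M.D) (S : Finset M.D) : Prop :=
  S.card ≤ N ∧ (∀ f, M.φ f ∈ S ↔ f ∈ S) ∧ ∀ f, (f ∈ S ↔ M.α f ∈ S) ↔ ¬ cub_cf M H e f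

theorem cub_refl (e : M.D) : cub_cf M H e e := Or.inl CMap.OnC.rfl

theorem cub_α {e f : M.D} (h : cub_cf M H e f) : cub_cf M H e (M.α f) := by
  rcases h with h | h
  · exact Or.inr (by rwa [M.αα])
  · exact Or.inl h

theorem cub_mem (hg : M.Good H) {e f : M.D} (he : H e) (h : cub_cf M H e f) : H f := by
  rcases h with h | h
  · exact hg.onC_mem he h
  · have := hg.sym _ (hg.onC_mem he h)
    rwa [M.αα] at this

theorem cub_symm (hg : M.Good H) {e f : M.D} (he : H e) (h : cub_cf M H e f) :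
    cub_cf M H f e := by
  rcases h with h | h
  · exact Or.inl (hg.onC_symm he h)
  · have := hg.onC_α (hg.onC_mem he h) (hg.onC_symm he h)
    rw [M.αα] at this
    exact Or.inr this

theorem cub_trans (hg : M.Good H) {e f g : M.D} (he : H e) (h : cub_cf M H e f)
    (h' : cub_cf M H f g) : cub_cf M H e g := by
  have hf := cub_mem hg he h
  rcases h with h | h <;> rcases h' with h' | h'
  · exact Or.inl (h.trans h')
  · exact Or.inr (h.trans h')
  · exact Or.inr (h.trans (hg.onC_α hf h'))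
  · have := hg.onC_α hf h'
    rw [M.αα] at this
    exact Or.inl (h.trans this)

theorem cub_cj {e f : M.D} (h : M.Cj H e f) (hv : M.gv H e = 1) : M.gv H f = 1 := by
  obtain ⟨c, -, h | h⟩ := h
  · rw [hv, one_mul] at h
    exact mul_eq_left.1 h.symm
  · rw [hv, one_mul] at h
    exact inv_eq_one.1 (mul_eq_left.1 h.symm)

theorem cub_fil_congr (hg : M.Good H) {N : ℕ} {e e' : M.D} {S : Finset M.D} (he : H e)
    (h : cub_cf M H e e') (hS : cub_fil M H N e S) : cub_fil M H N e' S := by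
  refine ⟨hS.1, hS.2.1, fun f => ?_⟩
  rw [hS.2.2 f]
  exact not_congr ⟨fun h1 => cub_trans hg (cub_mem hg he h) (cub_symm hg he h) h1,
    fun h1 => cub_trans hg he h h1⟩

theorem cub_same (hg : M.Good H) {N : ℕ} {e a b : M.D} {S : Finset M.D} (he : H e)
    (hS : cub_fil M H N e S) (h : M.Same H a b) (ha : a ∈ S) : b ∈ S :=
  CMap.Same.ind (P := fun d => d ∈ S) (fun d hd => (hS.2.1 d).2 hd)
    (fun d hd hd' => ((hS.2.2 d).2 fun h1 => hd (cub_mem hg he h1)).1 hd') h ha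

theorem cub_closed (hc : ∀ d d', M.Same (fun _ => False) d d') {P : M.D → Prop}
    (h1 : ∀ d, P d → P (M.φ d)) (h2 : ∀ d, P d → P (M.α d)) {a : M.D} (ha : P a) (b : M.D) :
    P b := CMap.Same.ind h1 (fun d _ => h2 d) (hc a b) ha

theorem cub_out {N : ℕ} (hN : 2 * N < Fintype.card M.D) {S S' : Finset M.D} (h : S.card ≤ N)
    (h' : S'.card ≤ N) : ∃ z, z ∉ S ∧ z ∉ S' := by
  classical
  by_contra hz
  have h1 : (Finset.univ : Finset M.D) ⊆ S ∪ S' := fun z _ => by
    by_contra h2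
    rw [Finset.mem_union, not_or] at h2
    exact hz ⟨z, h2⟩
  have h2 := (Finset.card_le_card h1).trans (Finset.card_union_le _ _)
  rw [Finset.card_univ] at h2
  omega

theorem cub_uniq (hc : ∀ d d', M.Same (fun _ => False) d d') {N : ℕ}
    (hN : 2 * N < Fintype.card M.D) {e : M.D} {S S' : Finset M.D}
    (hS : cub_fil M H N e S) (hS' : cub_fil M H N e S') : S = S' := by
  obtain ⟨z, hz, hz'⟩ := cub_out hN hS.1 hS'.1
  ext a
  by_contra ha
  have := cub_closed hc (P := fun d => ¬ (d ∈ S ↔ d ∈ S'))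
    (fun d hd => by rwa [hS.2.1, hS'.2.1])
    (fun d hd => by
      have h1 := hS.2.2 d
      have h2 := hS'.2.2 d
      tauto) ha z
  tauto

theorem cub_sub (hg : M.Good H) {N : ℕ} {e e' f : M.D} {S' : Finset M.D} (he : H e) (he' : H e')
    (hS' : cub_fil M H N e' S') (hn : ¬ cub_cf M H e' e) (hm : e ∈ S') (hf : cub_cf M H e f) :
    f ∈ S' := by
  have hn' : ¬ cub_cf M H e' f := fun h => hn (cub_trans hg he' h (cub_symm hg he hf))
  rcases hf with hf | hf
  · exact cub_same hg he' hS' (hg.onC_same he hf) hm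
  · exact ((hS'.2.2 f).2 hn').2 (cub_same hg he' hS' (hg.onC_same he hf) hm)

theorem cub_nest (hg : M.Good H) (hc : ∀ d d', M.Same (fun _ => False) d d') {N : ℕ}
    (hN : 2 * N < Fintype.card M.D) {e e' : M.D} {S S' : Finset M.D} (he : H e) (he' : H e')
    (hS : cub_fil M H N e S) (hS' : cub_fil M H N e' S') (hn : ¬ cub_cf M H e e')
    (hm : e ∈ S') : S ⊆ S' := by
  obtain ⟨z, hz, hz'⟩ := cub_out hN hS.1 hS'.1
  have hn' : ¬ cub_cf M H e' e := fun h => hn (cub_symm hg he' h)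
  have h1 : ∀ f, cub_cf M H e f → f ∈ S' := fun f hf => cub_sub hg he he' hS' hn' hm hf
  by_cases hm' : e' ∈ S
  · have h2 : ∀ f, cub_cf M H e' f → f ∈ S := fun f hf => cub_sub hg he' he hS hn hm' hf
    have := cub_closed hc (P := fun d => d ∉ S ∧ d ∉ S')
      (fun d hd => by rwa [hS.2.1, hS'.2.1])
      (fun d hd => ⟨fun h => hd.1 (((hS.2.2 d).2 fun h3 => hd.2 (h1 d h3)).2 h),
        fun h => hd.2 (((hS'.2.2 d).2 fun h3 => hd.1 (h2 d h3)).2 h)⟩) ⟨hz, hz'⟩ e
    exact (this.2 hm).elim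
  · have h2 : ∀ f, cub_cf M H e' f → f ∉ S := fun f hf hfS =>
      hm' (cub_sub hg (cub_mem hg he' hf) he hS
        (fun h => hn (cub_trans hg he h (cub_symm hg he' hf))) hfS (cub_symm hg he' hf))
    intro a ha
    by_contra ha'
    have := cub_closed hc (P := fun d => d ∈ S ∧ d ∉ S')
      (fun d hd => by rwa [hS.2.1, hS'.2.1])
      (fun d hd => ⟨((hS.2.2 d).2 fun h3 => hd.2 (h1 d h3)).1 hd.1,
        fun h => hd.2 (((hS'.2.2 d).2 fun h3 => h2 d h3 hd.1).2 h)⟩) ⟨ha, ha'⟩ z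
    exact hz this.1

/-- The small side of a trivial cycle. -/
theorem fill_cyc {n : ℕ} {R N : ℕ → ℕ} (hM : YMap M n R N) (hg : M.Good H) (m : ℕ)
    (hm : ∀ d, (M.rg H d).card ≤ m) (d : M.D) (hd : H d) (hv : M.gv H d = 1) :
    ∃ S : Finset M.D, S.card ≤ N m ∧ (∀ e, M.φ e ∈ S ↔ e ∈ S) ∧
      ∀ e, (e ∈ S ↔ M.α e ∈ S) ↔ ¬ (M.OnC H d e ∨ M.OnC H d (M.α e)) := by
  classical
  obtain ⟨S, h1, h2, h3⟩ := hM.fill m (M.gd.src d) (M.cyc H d) (hg.cyc_path hd)
    ((hg.length_cyc_le hd).trans (hm d)) hv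
  refine ⟨S, h1, h2, fun e => ?_⟩
  rw [h3 e]
  have hnd := CMap.Good.nodup_cyc (M := M) (H := H) d
  have hcount : ∀ f, (M.OnC H d f → (M.cyc H d).count f = 1) ∧
      (¬ M.OnC H d f → (M.cyc H d).count f = 0) := fun f =>
    ⟨fun h => List.count_eq_one_of_mem hnd ((hg.mem_cyc hd).2 h),
      fun h => List.count_eq_zero_of_not_mem fun h' => h ((hg.mem_cyc hd).1 h')⟩
  by_cases a1 : M.OnC H d e <;> by_cases a2 : M.OnC H d (M.α e)
  · exact (hg.not_onC_α (hg.onC_mem hd a1) ((hg.onC_symm hd a1).trans a2)).elim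
  · rw [(hcount _).1 a1, (hcount _).2 a2]; simp [a1]
  · rw [(hcount _).2 a1, (hcount _).1 a2]; simp [a2]
  · rw [(hcount _).2 a1, (hcount _).2 a2]; simp [a1, a2]

theorem regions_bdd (hg : M.Good H) (hc : ∀ d d', M.Same (fun _ => False) d d') (m N : ℕ)
    (hm : ∀ d, (M.rg H d).card ≤ m)
    (fill : ∀ d, H d → M.gv H d = 1 → ∃ S : Finset M.D, S.card ≤ N ∧ (∀ e, M.φ e ∈ S ↔ e ∈ S) ∧
      ∀ e, (e ∈ S ↔ M.α e ∈ S) ↔ ¬ (M.OnC H d e ∨ M.OnC H d (M.α e))) (d : M.D) :
    (M.rg (fun d => H d ∧ M.gv H d ≠ 1) d).card ≤ m + m * N + 2 * N := by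
  classical
  by_cases hN : Fintype.card M.D ≤ 2 * N
  · exact ((Finset.card_le_univ _).trans hN).trans (Nat.le_add_left _ _)
  rw [not_le] at hN
  obtain ⟨S, hS⟩ : ∃ S : M.D → Finset M.D, ∀ e, H e → M.gv H e = 1 → cub_fil M H N e (S e) := by
    choose! S hS using fill
    exact ⟨S, hS⟩
  let T : M.D → Finset M.D := fun x =>
    M.rg H x ∪ ((M.rg H x).filter fun e => H e ∧ M.gv H e = 1).biUnion S
  have hT : ∀ x f, f ∈ T x ↔ M.Same H x f ∨
      ∃ e, M.Same H x e ∧ H e ∧ M.gv H e = 1 ∧ f ∈ S e := fun x f => by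
    simp only [T, Finset.mem_union, Finset.mem_biUnion, Finset.mem_filter, CMap.mem_rg, and_assoc]
  have hcard : ∀ x, (T x).card ≤ m + m * N := fun x => by
    refine (Finset.card_union_le _ _).trans (Nat.add_le_add (hm x) ?_)
    refine (Finset.card_biUnion_le_card_mul _ _ N fun e he => ?_).trans
      (Nat.mul_le_mul_right _ ((Finset.card_filter_le _ _).trans (hm x)))
    rw [Finset.mem_filter] at he
    exact (hS e he.2.1 he.2.2).1
  have key : ∀ x, (∀ e, H e → M.gv H e = 1 → x ∉ S e) → d ∈ T x →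
      (M.rg (fun d => H d ∧ M.gv H d ≠ 1) d).card ≤ m + m * N + 2 * N := by
    intro x hx hd
    refine le_trans (Finset.card_le_card (t := T x) fun f hf => ?_)
      ((hcard x).trans (Nat.le_add_right _ _))
    have hout : ∀ e f, H e → M.gv H e = 1 → M.Same H x f → f ∉ S e := fun e f he hv hs hf =>
      hx e he hv (cub_same hg he (hS e he hv) (hs.symm hg.sym) hf)
    refine CMap.Same.ind (P := fun f => f ∈ T x) (fun f hf => ?_) (fun f hf1 hf => ?_)
      (CMap.mem_rg.1 hf) hd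
    · rw [hT] at hf ⊢
      rcases hf with hf | ⟨e, h1, h2, h3, h4⟩
      · exact Or.inl (hf.trans (CMap.same_φ f))
      · exact Or.inr ⟨e, h1, h2, h3, ((hS e h2 h3).2.1 f).2 h4⟩
    · rw [hT] at hf ⊢
      rcases hf with hf | ⟨e, h1, h2, h3, h4⟩
      · by_cases hH : H f
        · have hv : M.gv H f = 1 := by
            by_contra hv
            exact hf1 ⟨hH, hv⟩
          refine Or.inr ⟨f, hf, hH, hv, ?_⟩
          have a1 := hout f f hH hv hf
          have a2 := (hS f hH hv).2.2 f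
          have a3 := cub_refl (M := M) (H := H) f
          tauto
        · exact Or.inl (hf.trans (CMap.same_α hH))
      · by_cases hcf : cub_cf M H e f
        · rcases hcf with hcf | hcf
          · exact (hout e f h2 h3 (h1.trans (hg.onC_same h2 hcf)) h4).elim
          · exact Or.inl (h1.trans (hg.onC_same h2 hcf))
        · exact Or.inr ⟨e, h1, h2, h3, (((hS e h2 h3).2.2 f).2 hcf).1 h4⟩
  by_cases h0 : ∀ e, H e → M.gv H e = 1 → d ∉ S e
  · exact key d h0 ((hT d d).2 (Or.inl CMap.Same.rfl))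
  have hne : (Finset.univ.filter fun e => H e ∧ M.gv H e = 1 ∧ d ∈ S e).Nonempty := by
    by_contra hne
    refine h0 fun e h1 h2 h3 => hne ⟨e, ?_⟩
    simp only [Finset.mem_filter, Finset.mem_univ, true_and]
    exact ⟨h1, h2, h3⟩
  obtain ⟨e, he, hmax⟩ := Finset.exists_max_image _ (fun e => (S e).card) hne
  simp only [Finset.mem_filter, Finset.mem_univ, true_and] at he hmax
  obtain ⟨h1, h2, h3⟩ := he
  obtain ⟨x, hx1, hx2, hx3⟩ : ∃ x, cub_cf M H e x ∧ M.gv H x = 1 ∧ x ∉ S e := by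
    by_cases h4 : e ∈ S e
    · refine ⟨M.α e, cub_α (cub_refl e), cub_cj (hg.cj_α h1) h2, ?_⟩
      have a2 := (hS e h1 h2).2.2 e
      have a3 := cub_refl (M := M) (H := H) e
      tauto
    · exact ⟨e, cub_refl e, h2, h4⟩
  have hxH : H x := cub_mem hg h1 hx1
  have hxS : cub_fil M H N x (S e) := cub_fil_congr hg h1 hx1 (hS e h1 h2)
  refine key x (fun e' h1' h2' hx' => ?_) ((hT x d).2 (Or.inr ⟨x, CMap.Same.rfl, hxH, hx2, ?_⟩))
  · by_cases hcf : cub_cf M H x e'
    · rw [cub_uniq hc hN (cub_fil_congr hg hxH hcf hxS) (hS e' h1' h2')] at hx3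
      exact hx3 hx'
    · have a1 := cub_nest hg hc hN hxH h1' hxS (hS e' h1' h2') hcf hx'
      rw [Finset.eq_of_subset_of_card_le a1 (hmax e' ⟨h1', h2', a1 h3⟩)] at hx3
      exact hx3 hx'
  · rwa [cub_uniq hc hN (hS x hxH hx2) hxS]

end Pool.Agent.MC
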