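import Pool.Agent.P.MP_2677b3_gt.CuMain
import Pool.Agent.P.MP_2677b3_gt.CuB
import Pool.Agent.P.MP_2677b3_gt.CuAn

namespace Pool.Agent.MC

open Finset

/-- The non-trivial cycles between faces of different labels cut the map into bounded regions. -/
theorem cut_first {M : CMap} {n : ℕ} {R N : ℕ → ℕ} (hM : YMap M n R N) : ∃ H : M.D → Prop,
    M.Good H ∧ (∀ d, (M.rg H d).card ≤ n + n * N n + 2 * N n) ∧ ∀ d, H d → M.gv H d ≠ 1 := by
  classical
  obtain ⟨ι, l, h1, h2, h3⟩ := hM.lab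
  have hg := CMap.good_lab (M := M) hM.tri l h1 h2
  have hm : ∀ d, (M.rg (fun d => l d ≠ l (M.α d)) d).card ≤ n := fun d => by
    refine le_trans (card_le_card fun e he => ?_) (h3 (l d))
    simp only [mem_filter, mem_univ, true_and]
    refine CMap.Same.ind (P := fun e => l e = l d) (fun a ha => (h1 a).trans ha)
      (fun a hn ha => ?_) (CMap.mem_rg.1 he) rfl
    rw [← not_not.1 hn]; exact ha
  refine ⟨_, hg.nontriv, regions_bdd hg hM.conn n (N n) hm (fill_cyc hM hg n hm), fun d hd => ?_⟩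
  intro h0
  exact hd.2 ((congrArg M.gd.ev (hg.cyc_sub hg.nontriv (fun _ h => h.1) hd)).symm.trans h0)

/-- The model map can be cut into bounded pieces of large complexity. -/
theorem cut_interface (n₀ n : ℕ) (R N : ℕ → ℕ) : ∃ n' : ℕ, ∀ M : CMap, YMap M n R N →
    ∃ (H : M.D → Prop) (G : GS), Nonempty (Lab M H G n') ∧ G.Conn ∧ G.Big n₀ := by
  classical
  obtain ⟨m, hm⟩ : ∃ m, m = n + n * N n + 2 * N n := ⟨_, rfl⟩
  obtain ⟨M0, hM0⟩ : ∃ M0, M0 = 3 * 4 ^ R m := ⟨_, rfl⟩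
  obtain ⟨s, hs⟩ : ∃ s, s = M0 + 2 * n₀ * (1 + m * M0) + 2 := ⟨_, rfl⟩
  refine ⟨s * (1 + m * s) * m, fun M hM => ?_⟩
  obtain ⟨H, hg, h1, h2⟩ := cut_first hM
  rw [← hm] at h1
  obtain ⟨d₀⟩ : Nonempty M.D := by
    obtain ⟨x, -⟩ := hM.nonab
    exact ⟨Quotient.out x⟩
  rcases cut_main hg hM.conn m M0 n₀ h1 h2
    (fun d hd => hM0 ▸ cj_bdd hM hg m h1 d hd (h2 d hd)) s hs.ge with h | ⟨H', hg', h3, h4⟩
  · obtain ⟨G, ⟨lab⟩⟩ := lab_exists (CMap.good_bot (M := M) hM.tri) (s * (1 + m * s) * m)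
      (fun d => (card_le_univ _).trans (h.trans
        (Nat.mul_le_mul_right _ (Nat.le_mul_of_pos_right _ (by omega)))))
    exact ⟨_, G, ⟨lab⟩, lab.conn hM.conn d₀, closed_big hM lab n₀⟩
  · obtain ⟨G, ⟨lab⟩⟩ := lab_exists hg' _ h3
    refine ⟨_, G, ⟨lab⟩, lab.conn hM.conn d₀, fun x => Or.inr ?_⟩
    obtain ⟨d, rfl⟩ := lab.reg_surj x
    refine h4 d _ _ ?_
    have h5 := lab.euler (lab.reg d)
    have h6 : M.rg H' d = univ.filter fun e => lab.reg e = lab.reg d := by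
      ext e
      simp only [mem_filter, mem_univ, true_and, CMap.mem_rg]
      rw [eq_comm, lab.reg_iff]
    rw [h6]; exact h5

end Pool.Agent.MC
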