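import Pool.Agent.P.MP_2677b3_gt.Basic

/-! Trivalent maps cut along disjoint simple cycles: regions, boundary cycles, their values. -/

namespace Pool.Agent.MC

namespace CMap

variable {M : CMap} {H H' : M.D → Prop}

/-- Every vertex carries three darts. -/
def Tri (M : CMap) : Prop := ∀ d, M.ψ (M.ψ (M.ψ d)) = d ∧ M.ψ d ≠ d

/-- `H` is a union of disjoint simple cycles of a trivalent map. -/
structure Good (M : CMap) (H : M.D → Prop) : Prop where
  tri : M.Tri
  sym : ∀ d, H d → H (M.α d)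
  two : ∀ d, H d → (H (M.ψ d) ↔ ¬ H (M.ψ (M.ψ d)))

/-- The boundary cycle that starts with `d`. -/
noncomputable def cyc (M : CMap) (H : M.D → Prop) (d : M.D) : List M.D :=
  orbL (M.bd H) d (Function.minimalPeriod (M.bd H) d)

/-- The value of the boundary cycle that starts with `d`. -/
noncomputable def gv (M : CMap) (H : M.D → Prop) (d : M.D) : M.gd.U := M.gd.ev (M.cyc H d)

/-- `e` lies on the boundary cycle of `d`. -/
def OnC (M : CMap) (H : M.D → Prop) (d e : M.D) : Prop := ∃ k : ℕ, (M.bd H)^[k] d = e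

/-- The cycles of `d` and `e` are freely homotopic up to orientation. -/
def Cj (M : CMap) (H : M.D → Prop) (d e : M.D) : Prop :=
  ∃ c, M.gd.Path (M.gd.src d) c (M.gd.src e) ∧
    (M.gv H d * M.gd.ev c = M.gd.ev c * M.gv H e ∨
      M.gv H d * M.gd.ev c = M.gd.ev c * (M.gv H e)⁻¹)

open Classical in
/-- The region of `d` as a finite set. -/
noncomputable def rg (M : CMap) (H : M.D → Prop) (d : M.D) : Finset M.D :=
  Finset.univ.filter fun e => M.Same H d e

theorem mem_rg {d e : M.D} : e ∈ M.rg H d ↔ M.Same H d e := by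
  classical
  simp [rg]

theorem ψ_α (d : M.D) : M.ψ (M.α d) = M.φ d := by simp [ψ, M.αα]

theorem φ_α (d : M.D) : M.φ (M.α d) = M.ψ d := rfl

theorem src_eq_iff {d e : M.D} : M.gd.src d = M.gd.src e ↔ M.ψ.SameCycle d e := Quotient.eq

theorem src_ψ (d : M.D) : M.gd.src (M.ψ d) = M.gd.src d :=
  src_eq_iff.2 (Equiv.Perm.sameCycle_apply_left.2 (Equiv.Perm.SameCycle.refl _ _))

theorem tgt_eq (d : M.D) : M.gd.tgt d = M.gd.src (M.α d) := rfl

theorem inv_eq (d : M.D) : M.gd.inv d = M.α d := rfl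

theorem Tri.src_eq (ht : M.Tri) {d e : M.D} :
    M.gd.src d = M.gd.src e ↔ e = d ∨ e = M.ψ d ∨ e = M.ψ (M.ψ d) := by
  constructor
  · intro h
    obtain ⟨n, rfl⟩ := (src_eq_iff.1 h).exists_nat_pow_eq
    clear h
    induction n with
    | zero => left; rfl
    | succ n ih =>
      rw [pow_succ', Equiv.Perm.mul_apply]
      rcases ih with h | h | h <;> rw [h]
      · right; left; rfl
      · right; right; rfl
      · left; exact (ht d).1
  · rintro (rfl | rfl | rfl)
    · rfl
    · exact (src_ψ _).symm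
    · rw [src_ψ, src_ψ]

theorem Same.rfl {d : M.D} : M.Same H d d := Relation.ReflTransGen.refl

theorem Same.trans {a b c : M.D} (h : M.Same H a b) (h' : M.Same H b c) : M.Same H a c :=
  Relation.ReflTransGen.trans h h'

theorem same_φ (d : M.D) : M.Same H d (M.φ d) := Relation.ReflTransGen.single (Or.inl rfl)

theorem same_α {d : M.D} (h : ¬ H d) : M.Same H d (M.α d) :=
  Relation.ReflTransGen.single (Or.inr ⟨h, rfl⟩)

theorem Same.mono (hs : ∀ d, H' d → H d) {a b : M.D} (h : M.Same H a b) : M.Same H' a b := by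
  induction h with
  | refl => exact Same.rfl
  | tail _ hs' ih =>
    rcases hs' with rfl | ⟨hn, rfl⟩
    · exact ih.trans (same_φ _)
    · exact ih.trans (same_α fun h => hn (hs _ h))

theorem cua_pow (d : M.D) (k : ℕ) : M.Same H d ((M.φ ^ k) d) := by
  induction k with
  | zero => exact Same.rfl
  | succ k ih =>
    rw [pow_succ', Equiv.Perm.mul_apply]
    exact ih.trans (same_φ _)

theorem cua_back (d : M.D) : M.Same H (M.φ d) d := by
  have h : M.φ.SameCycle (M.φ d) d :=
    Equiv.Perm.sameCycle_apply_left.2 (Equiv.Perm.SameCycle.refl _ _)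
  obtain ⟨n, hn⟩ := h.exists_nat_pow_eq
  have := cua_pow (H := H) (M.φ d) n
  rwa [hn] at this

theorem Same.symm (hα : ∀ d, H d → H (M.α d)) {a b : M.D} (h : M.Same H a b) : M.Same H b a := by
  induction h with
  | refl => exact Same.rfl
  | tail _ hs' ih =>
    rcases hs' with rfl | ⟨hn, rfl⟩
    · exact (cua_back _).trans ih
    · refine Same.trans ?_ ih
      have := same_α (M := M) (H := H) (d := M.α _) fun h => hn (by simpa [M.αα] using hα _ h)
      rwa [M.αα] at this

/-- Induction along a region. -/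
theorem Same.ind {P : M.D → Prop} (h1 : ∀ d, P d → P (M.φ d)) (h2 : ∀ d, ¬ H d → P d → P (M.α d))
    {a b : M.D} (h : M.Same H a b) (ha : P a) : P b := by
  induction h with
  | refl => exact ha
  | tail _ hs' ih =>
    rcases hs' with rfl | ⟨hn, rfl⟩
    · exact h1 _ ih
    · exact h2 _ hn ih

theorem good_bot (ht : M.Tri) : M.Good fun _ => False := ⟨ht, fun _ h => h, fun _ h => h.elim⟩

theorem OnC.trans {a b c : M.D} (h : M.OnC H a b) (h' : M.OnC H b c) : M.OnC H a c := by
  obtain ⟨k, rfl⟩ := h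
  obtain ⟨j, rfl⟩ := h'
  exact ⟨j + k, Function.iterate_add_apply _ _ _ _⟩

theorem OnC.rfl {a : M.D} : M.OnC H a a := ⟨0, Eq.refl _⟩

namespace Good

theorem bd_eq (hg : M.Good H) {d : M.D} (hd : H d) :
    (H (M.φ d) ∧ M.bd H d = M.φ d) ∨ (¬ H (M.φ d) ∧ H (M.ψ (M.φ d)) ∧ M.bd H d = M.ψ (M.φ d)) := by
  classical
  have h2 := hg.two _ (hg.sym d hd)
  rw [ψ_α] at h2
  by_cases h0 : H (M.φ d)
  · left
    refine ⟨h0, ?_⟩
    have hex : ∃ k : ℕ, H (M.ψ^[k] (M.φ d)) := ⟨0, h0⟩
    have : Nat.find hex = 0 := (Nat.find_eq_zero hex).2 h0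
    unfold bd
    rw [dif_pos hex, this]
    rfl
  · right
    have h1 : H (M.ψ (M.φ d)) := by
      by_contra h
      exact h0 (h2.2 h)
    refine ⟨h0, h1, ?_⟩
    have hex : ∃ k : ℕ, H (M.ψ^[k] (M.φ d)) := ⟨1, h1⟩
    have : Nat.find hex = 1 := by
      refine (Nat.find_eq_iff hex).2 ⟨h1, fun n hn => ?_⟩
      obtain rfl : n = 0 := by omega
      exact h0
    unfold bd
    rw [dif_pos hex, this]
    rfl

theorem bd_mem (hg : M.Good H) {d : M.D} (hd : H d) : H (M.bd H d) := by
  rcases hg.bd_eq hd with ⟨h, e⟩ | ⟨-, h, e⟩ <;> rwa [e]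

theorem iter_mem (hg : M.Good H) {d : M.D} (hd : H d) (k : ℕ) : H ((M.bd H)^[k] d) := by
  induction k with
  | zero => exact hd
  | succ k ih =>
    rw [Function.iterate_succ_apply']
    exact hg.bd_mem ih

theorem simple (hg : M.Good H) {d : M.D} (hd : H d) : M.bd H (M.α (M.bd H d)) = M.α d := by
  have h2 := hg.two _ (hg.sym d hd)
  rw [ψ_α] at h2
  have h3 : M.ψ (M.ψ (M.φ d)) = M.α d := by
    rw [← ψ_α]
    exact (hg.tri _).1
  have he := hg.bd_eq (hg.sym _ (hg.bd_mem hd))
  rcases hg.bd_eq hd with ⟨h, e⟩ | ⟨-, h, e⟩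
  · rw [e] at he ⊢
    rw [φ_α] at he
    rcases he with ⟨h', -⟩ | ⟨-, -, e'⟩
    · exact absurd h' (h2.1 h)
    · rw [e', h3]
  · rw [e] at he ⊢
    rw [φ_α, h3] at he
    rcases he with ⟨-, e'⟩ | ⟨h', -, -⟩
    · exact e'
    · exact absurd (hg.sym d hd) h'

theorem same_bd (hg : M.Good H) {d : M.D} (hd : H d) : M.Same H d (M.bd H d) := by
  rcases hg.bd_eq hd with ⟨-, e⟩ | ⟨h, -, e⟩ <;> rw [e]
  · exact same_φ d
  · exact (same_φ d).trans ((same_α h).trans (same_φ _))

theorem src_bd (hg : M.Good H) {d : M.D} (hd : H d) : M.gd.src (M.bd H d) = M.gd.tgt d := by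
  have h : M.gd.src (M.φ d) = M.gd.tgt d := by
    rw [tgt_eq, ← ψ_α, src_ψ]
  rcases hg.bd_eq hd with ⟨-, e⟩ | ⟨-, -, e⟩ <;> rw [e]
  · exact h
  · rw [src_ψ, h]

theorem cua_inj (hg : M.Good H) {a b : M.D} (ha : H a) (hb : H b)
    (h : M.bd H a = M.bd H b) : a = b := by
  have h1 := hg.simple ha
  rw [h, hg.simple hb] at h1
  exact (M.α.injective h1).symm

theorem cua_cancel (hg : M.Good H) (i : ℕ) {a b : M.D} (ha : H a) (hb : H b)
    (h : (M.bd H)^[i] a = (M.bd H)^[i] b) : a = b := by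
  induction i with
  | zero => exact h
  | succ i ih =>
    rw [Function.iterate_succ_apply', Function.iterate_succ_apply'] at h
    exact ih (hg.cua_inj (hg.iter_mem ha i) (hg.iter_mem hb i) h)

theorem period_pos (hg : M.Good H) {d : M.D} (hd : H d) :
    0 < Function.minimalPeriod (M.bd H) d := by
  have key : ∀ i j : ℕ, i < j → (M.bd H)^[i] d = (M.bd H)^[j] d →
      0 < Function.minimalPeriod (M.bd H) d := by
    intro i j hij h
    obtain ⟨k, rfl⟩ := Nat.exists_eq_add_of_lt hij
    rw [add_assoc, Function.iterate_add_apply] at h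
    have := hg.cua_cancel i hd (hg.iter_mem hd (k + 1)) h
    exact Function.IsPeriodicPt.minimalPeriod_pos (Nat.succ_pos k) this.symm
  obtain ⟨i, j, hne, h⟩ := Finite.exists_ne_map_eq_of_infinite fun k : ℕ => (M.bd H)^[k] d
  rcases lt_or_gt_of_ne hne with hl | hl
  · exact key i j hl h
  · exact key j i hl h.symm

theorem onC_mem (hg : M.Good H) {d e : M.D} (hd : H d) (h : M.OnC H d e) : H e := by
  obtain ⟨k, rfl⟩ := h
  exact hg.iter_mem hd k

theorem onC_same (hg : M.Good H) {d e : M.D} (hd : H d) (h : M.OnC H d e) : M.Same H d e := by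
  obtain ⟨k, rfl⟩ := h
  induction k with
  | zero => exact Same.rfl
  | succ k ih =>
    rw [Function.iterate_succ_apply']
    exact ih.trans (hg.same_bd (hg.iter_mem hd k))

theorem onC_symm (hg : M.Good H) {d e : M.D} (hd : H d) (h : M.OnC H d e) : M.OnC H e d := by
  obtain ⟨k, rfl⟩ := h
  have hp := hg.period_pos hd
  refine ⟨Function.minimalPeriod (M.bd H) d * k - k, ?_⟩
  rw [← Function.iterate_add_apply, Nat.sub_add_cancel (Nat.le_mul_of_pos_left k hp)]
  exact (Function.isPeriodicPt_minimalPeriod (M.bd H) d).mul_const k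

theorem onC_α (hg : M.Good H) {d e : M.D} (hd : H d) (h : M.OnC H d e) :
    M.OnC H (M.α d) (M.α e) := by
  obtain ⟨k, rfl⟩ := h
  refine hg.onC_symm (hg.sym _ (hg.iter_mem hd k)) ⟨k, ?_⟩
  induction k with
  | zero => rfl
  | succ k ih =>
    rw [Function.iterate_succ_apply, Function.iterate_succ_apply' (M.bd H) k d,
      hg.simple (hg.iter_mem hd k)]
    exact ih

theorem not_onC_α (hg : M.Good H) {d : M.D} (hd : H d) : ¬ M.OnC H d (M.α d) := by
  rintro ⟨k, hk⟩
  induction k using Nat.strong_induction_on generalizing d with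
  | _ k ih =>
    match k, ih, hk with
    | 0, _, hk => exact M.αne d hk.symm
    | 1, _, hk =>
      have hk' : M.bd H d = M.α d := hk
      have ht := hg.tri (M.α d)
      rcases hg.bd_eq hd with ⟨-, e⟩ | ⟨-, -, e⟩ <;> rw [e, ← ψ_α] at hk'
      · exact ht.2 hk'
      · have h1 := ht.1
        rw [hk'] at h1
        exact ht.2 h1
    | k + 2, ih, hk =>
      have hb := hg.bd_mem hd
      refine ih k (by omega) hb ?_
      refine hg.cua_inj (hg.iter_mem hb k) (hg.sym _ hb) ?_
      rw [hg.simple hd, ← hk, Function.iterate_succ_apply' (M.bd H) (k + 1) d,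
        Function.iterate_succ_apply]

end Good

/-- The darts between faces with different labels form a good set. -/
theorem good_lab (ht : M.Tri) {ι : Type} (l : M.D → ι) (h1 : ∀ d, l (M.φ d) = l d)
    (h2 : ∀ d, l d = l (M.ψ d) ∨ l (M.ψ d) = l (M.ψ (M.ψ d)) ∨ l d = l (M.ψ (M.ψ d))) :
    M.Good fun d => l d ≠ l (M.α d) := by
  have hl : ∀ d, l (M.α d) = l (M.ψ d) := fun d => by rw [← φ_α, h1]
  refine ⟨ht, fun d hd => ?_, fun d hd => ?_⟩
  · rw [M.αα]
    exact hd.symm
  · rw [hl] at hd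
    rw [hl, hl, (ht d).1]
    rcases h2 d with h | h | h
    · exact absurd h hd
    · constructor
      · intro h'
        exact absurd h h'
      · intro h'
        exact absurd ((not_not.1 h').symm.trans h.symm) hd
    · constructor
      · intro _ h'
        exact h' h.symm
      · intro _ h'
        exact hd (h.trans h'.symm)

end CMap

end Pool.Agent.MC
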