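import Pool.Agent.P.MP_2677b3_gt.CuA

/-! Boundary cycles as closed paths, their values, subfamilies of cycles. -/

namespace Pool.Agent.MC

theorem cuc_succ {D : Type} (f : D → D) (d : D) (k : ℕ) :
    orbL f d (k + 1) = orbL f d k ++ [f^[k] d] := by
  simp [orbL, List.range_succ]

theorem cuc_succ' {D : Type} (f : D → D) (d : D) (k : ℕ) :
    orbL f d (k + 1) = d :: orbL f (f d) k := by
  rw [orbL, orbL, List.range_succ_eq_map, List.map_cons, List.map_map]
  rfl

theorem cuc_mem {D : Type} {f : D → D} {d e : D} {k : ℕ} :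
    e ∈ orbL f d k ↔ ∃ i < k, f^[i] d = e := by
  simp only [orbL, List.mem_map, List.mem_range]

theorem cuc_inj {D : Type} {f : D → D} {d : D} {k : ℕ} (h : (orbL f d k).Nodup) {i j : ℕ}
    (hi : i < k) (hj : j < k) (hij : f^[i] d = f^[j] d) : i = j :=
  List.inj_on_of_nodup_map h (List.mem_range.2 hi) (List.mem_range.2 hj) hij

namespace CMap

variable {M : CMap} {H H' : M.D → Prop}

theorem cuc_ev_single (d : M.D) : M.gd.ev (List.cons (α := M.D) d []) = M.gd.val d :=
  (Gd.ev_cons (A := M.gd) d []).trans (mul_one _)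

theorem Cj.trans {a b c : M.D} (h : M.Cj H a b) (h' : M.Cj H b c) : M.Cj H a c := by
  obtain ⟨p, hp, h1⟩ := h
  obtain ⟨q, hq, h2⟩ := h'
  refine ⟨p ++ q, hp.append hq, ?_⟩
  rw [Gd.ev_append]
  have h3 : ∀ x y z : M.gd.U, x * y = y * z → x⁻¹ * y = y * z⁻¹ := fun x y z hx => by
    rw [inv_mul_eq_iff_eq_mul, ← mul_assoc, hx, mul_inv_cancel_right]
  rcases h1 with h1 | h1 <;> rcases h2 with h2 | h2
  · left; rw [← mul_assoc, h1, mul_assoc, h2, mul_assoc]
  · right; rw [← mul_assoc, h1, mul_assoc, h2, mul_assoc]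
  · right; rw [← mul_assoc, h1, mul_assoc, h3 _ _ _ h2, mul_assoc]
  · left; rw [← mul_assoc, h1, mul_assoc, h3 _ _ _ h2, inv_inv, mul_assoc]

theorem Cj.symm {a b : M.D} (h : M.Cj H a b) : M.Cj H b a := by
  obtain ⟨p, hp, h1⟩ := h
  refine ⟨M.gd.rev p, hp.rev, ?_⟩
  rw [Gd.ev_rev]
  rcases h1 with h1 | h1
  · left
    rw [mul_inv_eq_iff_eq_mul, mul_assoc, h1, inv_mul_cancel_left]
  · right
    have h2 : M.gv H a = M.gd.ev p * (M.gv H b)⁻¹ * (M.gd.ev p)⁻¹ := by
      rw [← h1, mul_inv_cancel_right]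
    rw [h2]
    group

namespace Good

theorem mem_cyc (hg : M.Good H) {d e : M.D} (hd : H d) : e ∈ M.cyc H d ↔ M.OnC H d e := by
  rw [cyc, cuc_mem]
  constructor
  · rintro ⟨i, -, h⟩
    exact ⟨i, h⟩
  · rintro ⟨k, h⟩
    exact ⟨k % Function.minimalPeriod (M.bd H) d, Nat.mod_lt _ (hg.period_pos hd), by
      rw [Function.iterate_mod_minimalPeriod_eq, h]⟩

theorem nodup_cyc (d : M.D) : (M.cyc H d).Nodup := by
  refine List.Nodup.map_on (fun i hi j hj hij => ?_) List.nodup_range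
  exact Function.iterate_injOn_Iio_minimalPeriod (List.mem_range.1 hi) (List.mem_range.1 hj) hij

theorem cuc_path (hg : M.Good H) {d : M.D} (hd : H d) (k : ℕ) :
    M.gd.Path (M.gd.src d) (orbL (M.bd H) d k) (M.gd.src ((M.bd H)^[k] d)) := by
  induction k with
  | zero => exact rfl
  | succ k ih =>
    have h1 := cuc_succ (M.bd H) d k
    have h2 : M.gd.src ((M.bd H)^[k + 1] d) = M.gd.tgt ((M.bd H)^[k] d) :=
      (congrArg M.gd.src (Function.iterate_succ_apply' _ _ _)).trans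
        (hg.src_bd (hg.iter_mem hd k))
    have h3 := ih.append (Gd.path_single (A := M.gd) ((M.bd H)^[k] d))
    exact h2 ▸ h1 ▸ h3

theorem cyc_path (hg : M.Good H) {d : M.D} (hd : H d) :
    M.gd.Path (M.gd.src d) (M.cyc H d) (M.gd.src d) := by
  have h := hg.cuc_path hd (Function.minimalPeriod (M.bd H) d)
  rwa [Function.iterate_minimalPeriod] at h

theorem length_cyc_le (hg : M.Good H) {d : M.D} (hd : H d) :
    (M.cyc H d).length ≤ (M.rg H d).card := by
  classical
  rw [← List.toFinset_card_of_nodup (nodup_cyc d)]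
  refine Finset.card_le_card fun e he => ?_
  exact mem_rg.2 (hg.onC_same hd ((hg.mem_cyc hd).1 (List.mem_toFinset.1 he)))

theorem cyc_eq {d : M.D} {k : ℕ} (hk : 0 < k) (h : (M.bd H)^[k] d = d)
    (hn : (orbL (M.bd H) d k).Nodup) : orbL (M.bd H) d k = M.cyc H d := by
  have hp : Function.IsPeriodicPt (M.bd H) k d := h
  have h1 := hp.minimalPeriod_pos hk
  have h2 := hp.minimalPeriod_le hk
  rcases h2.lt_or_eq with h3 | h3
  · have := cuc_inj hn h3 hk Function.iterate_minimalPeriod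
    omega
  · rw [cyc, h3]

theorem cuc_period (hg : M.Good H) {d : M.D} (hd : H d) :
    Function.minimalPeriod (M.bd H) (M.bd H d) = Function.minimalPeriod (M.bd H) d :=
  Function.minimalPeriod_apply
    (Function.minimalPeriod_pos_iff_mem_periodicPts.1 (hg.period_pos hd))

theorem gv_bd (hg : M.Good H) {d : M.D} (hd : H d) :
    M.gv H d * M.gd.val d = M.gd.val d * M.gv H (M.bd H d) := by
  have h : M.cyc H d ++ [d] = d :: M.cyc H (M.bd H d) := by
    rw [cyc, cyc, hg.cuc_period hd, ← cuc_succ', cuc_succ, Function.iterate_minimalPeriod]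
  have h2 := congrArg M.gd.ev h
  have h3 := Gd.ev_append (A := M.gd) (M.cyc H d) [d]
  have h4 := Gd.ev_cons (A := M.gd) d (M.cyc H (M.bd H d))
  have h5 := cuc_ev_single d
  exact ((congrArg (M.gv H d * ·) h5).symm.trans h3.symm).trans (h2.trans h4)

theorem cuc_back (hg : M.Good H) {d : M.D} (hd : H d) (k : ℕ) :
    (M.bd H)^[k] (M.α ((M.bd H)^[k] d)) = M.α d := by
  induction k with
  | zero => rfl
  | succ k ih =>
    rw [Function.iterate_succ_apply, Function.iterate_succ_apply',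
      hg.simple (hg.iter_mem hd k), ih]

theorem cuc_rev (hg : M.Good H) {d : M.D} (hd : H d) (k : ℕ) :
    orbL (M.bd H) (M.α ((M.bd H)^[k] d)) k = ((orbL (M.bd H) (M.bd H d) k).map M.α).reverse := by
  induction k with
  | zero => rfl
  | succ k ih =>
    rw [cuc_succ', cuc_succ, List.map_append, List.reverse_append, ← ih,
      ← Function.iterate_succ_apply, Function.iterate_succ_apply', hg.simple (hg.iter_mem hd k)]
    rfl

theorem gv_α (hg : M.Good H) {d : M.D} (hd : H d) :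
    M.gv H (M.α d) = (M.gv H (M.bd H d))⁻¹ := by
  have h1 := hg.cuc_rev hd (Function.minimalPeriod (M.bd H) d)
  have h2 := hg.cuc_back hd (Function.minimalPeriod (M.bd H) d)
  rw [Function.iterate_minimalPeriod] at h1 h2
  have h3 : orbL (M.bd H) (M.bd H d) (Function.minimalPeriod (M.bd H) d) =
      M.cyc H (M.bd H d) := by rw [cyc, hg.cuc_period hd]
  rw [h3] at h1
  have h4 := cyc_eq (hg.period_pos hd) h2 (by
    rw [h1]
    exact List.nodup_reverse.2 ((nodup_cyc _).map M.α.injective))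
  exact (congrArg M.gd.ev (h4.symm.trans h1)).trans (Gd.ev_rev (A := M.gd) _)

/-- A symmetric union of cycles of a good set is good. -/
theorem sub (hg : M.Good H) (hs : ∀ d, H' d → H d) (h1 : ∀ d, H' d → H' (M.α d))
    (h2 : ∀ d, H' d → H' (M.bd H d)) : M.Good H' := by
  refine ⟨hg.tri, h1, fun d hd => ?_⟩
  have h3 := h2 _ (h1 d hd)
  rcases hg.bd_eq (hg.sym d (hs d hd)) with ⟨h4, h5⟩ | ⟨h4, -, h5⟩
  · rw [h5, φ_α] at h3
    rw [φ_α] at h4
    exact ⟨fun _ h => (hg.two d (hs d hd)).1 h4 (hs _ h), fun _ => h3⟩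
  · rw [h5, φ_α] at h3
    rw [φ_α] at h4
    exact ⟨fun h => absurd (hs _ h) h4, fun h => absurd h3 h⟩

theorem bd_sub (hg : M.Good H) (hg' : M.Good H') (hs : ∀ d, H' d → H d) {d : M.D} (hd : H' d) :
    M.bd H' d = M.bd H d := by
  have h0 := hg.two _ (hg.sym d (hs d hd))
  rw [ψ_α] at h0
  rcases hg'.bd_eq hd with ⟨h1, h2⟩ | ⟨-, h1, h2⟩ <;>
    rcases hg.bd_eq (hs d hd) with ⟨h3, h4⟩ | ⟨h3, -, h4⟩
  · rw [h2, h4]
  · exact absurd (hs _ h1) h3
  · exact absurd (hs _ h1) (h0.1 h3)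
  · rw [h2, h4]

theorem cyc_sub (hg : M.Good H) (hg' : M.Good H') (hs : ∀ d, H' d → H d) {d : M.D} (hd : H' d) :
    M.cyc H' d = M.cyc H d := by
  have h1 : ∀ k, (M.bd H')^[k] d = (M.bd H)^[k] d := by
    intro k
    induction k with
    | zero => rfl
    | succ k ih =>
      rw [Function.iterate_succ_apply', Function.iterate_succ_apply',
        hg.bd_sub hg' hs (hg'.iter_mem hd k), ih]
  have h2 : Function.minimalPeriod (M.bd H') d = Function.minimalPeriod (M.bd H) d :=
    Function.minimalPeriod_eq_minimalPeriod_iff.2 fun n => by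
      simp only [Function.IsPeriodicPt, Function.IsFixedPt, h1]
  simp only [cyc, orbL, h1, h2]

/-- The darts on the cycles of non-trivial value form a good set. -/
theorem nontriv (hg : M.Good H) : M.Good fun d => H d ∧ M.gv H d ≠ 1 := by
  have h1 : ∀ d, H d → M.gv H d ≠ 1 → M.gv H (M.bd H d) ≠ 1 := fun d hd h h' => by
    have h2 := hg.gv_bd hd
    rw [h', mul_one] at h2
    exact h (mul_eq_right.1 h2)
  refine hg.sub (fun _ h => h.1) (fun d h => ⟨hg.sym d h.1, ?_⟩)
    fun d h => ⟨hg.bd_mem h.1, h1 d h.1 h.2⟩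
  rw [hg.gv_α h.1]
  exact inv_ne_one.2 (h1 d h.1 h.2)

theorem cj_onC (hg : M.Good H) {d e : M.D} (hd : H d) (h : M.OnC H d e) : M.Cj H d e := by
  obtain ⟨k, rfl⟩ := h
  induction k with
  | zero => exact ⟨[], rfl, Or.inl (by simp)⟩
  | succ k ih =>
    rw [Function.iterate_succ_apply']
    have hk := hg.iter_mem hd k
    refine ih.trans ⟨[(M.bd H)^[k] d], ?_, Or.inl ?_⟩
    · rw [hg.src_bd hk]
      exact Gd.path_single _
    · erw [cuc_ev_single]
      exact hg.gv_bd hk

theorem cj_α (hg : M.Good H) {d : M.D} (hd : H d) : M.Cj H d (M.α d) := by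
  refine ⟨[d], Gd.path_single (A := M.gd) d, Or.inr ?_⟩
  erw [cuc_ev_single]
  rw [hg.gv_α hd, inv_inv]
  exact hg.gv_bd hd

end Good

end CMap

end Pool.Agent.MC
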