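import Mathlib

/-! Connected subsets of graphs of bounded degree. -/

namespace Pool.Agent.MC.Gr

variable {X : Type}

/-- `x` and `y` are joined inside `A`. -/
def Con (adj : X → X → Prop) (A : Finset X) (x y : X) : Prop :=
  Relation.ReflTransGen (fun a b => adj a b ∧ a ∈ A ∧ b ∈ A) x y

/-- `A` is connected. -/
def ConnOn (adj : X → X → Prop) (A : Finset X) : Prop := ∀ x ∈ A, ∀ y ∈ A, Con adj A x y

theorem cug_symm {adj : X → X → Prop} (hs : ∀ a b, adj a b → adj b a) {A : Finset X} {x y : X}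
    (h : Con adj A x y) : Con adj A y x := by
  induction h with
  | refl => exact Relation.ReflTransGen.refl
  | tail _ h2 ih => exact Relation.ReflTransGen.head ⟨hs _ _ h2.1, h2.2.2, h2.2.1⟩ ih

theorem cug_mono {adj : X → X → Prop} {A B : Finset X} (hAB : A ⊆ B) {x y : X}
    (h : Con adj A x y) : Con adj B x y := by
  induction h with
  | refl => exact Relation.ReflTransGen.refl
  | tail _ h2 ih => exact ih.tail ⟨h2.1, hAB h2.2.1, hAB h2.2.2⟩

theorem cug_univ [Fintype X] {adj : X → X → Prop} {x y : X} (h : Relation.ReflTransGen adj x y) :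
    Con adj Finset.univ x y := by
  induction h with
  | refl => exact Relation.ReflTransGen.refl
  | tail _ h2 ih => exact ih.tail ⟨h2, Finset.mem_univ _, Finset.mem_univ _⟩

theorem cug_of_base {adj : X → X → Prop} (hs : ∀ a b, adj a b → adj b a) {A : Finset X} {x : X}
    (h : ∀ y ∈ A, Con adj A x y) : ConnOn adj A :=
  fun y hy z hz => Relation.ReflTransGen.trans (cug_symm hs (h y hy)) (h z hz)

open Classical in
theorem cug_comp {adj : X → X → Prop} (hs : ∀ a b, adj a b → adj b a) (B : Finset X) (y : X) :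
    ConnOn adj (B.filter (Con adj B y)) := by
  refine cug_of_base hs (x := y) fun z hz => ?_
  have h := (Finset.mem_filter.1 hz).2
  clear hz
  induction h with
  | refl => exact Relation.ReflTransGen.refl
  | tail h1 h2 ih =>
    exact ih.tail ⟨h2.1, Finset.mem_filter.2 ⟨h2.2.1, h1⟩,
      Finset.mem_filter.2 ⟨h2.2.2, h1.tail h2⟩⟩

theorem cug_edge {R : X → X → Prop} {B : Finset X} {x y : X} (h : Relation.ReflTransGen R x y)
    (hx : x ∈ B) (hy : y ∉ B) : ∃ a b, R a b ∧ a ∈ B ∧ b ∉ B := by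
  induction h with
  | refl => exact absurd hx hy
  | @tail b c _ h2 ih =>
    by_cases hb : b ∈ B
    · exact ⟨b, c, h2, hb, hy⟩
    · exact ih hb

theorem cug_insert [DecidableEq X] {adj : X → X → Prop} (hs : ∀ a b, adj a b → adj b a)
    {A : Finset X} (hA : ConnOn adj A) {a b : X} (ha : a ∈ A) (hab : adj a b) :
    ConnOn adj (insert b A) := by
  refine cug_of_base hs (x := a) fun y hy => ?_
  rcases Finset.mem_insert.1 hy with rfl | hy
  · exact Relation.ReflTransGen.single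
      ⟨hab, Finset.mem_insert_of_mem ha, Finset.mem_insert_self _ _⟩
  · exact cug_mono (Finset.subset_insert _ _) (hA a ha y hy)

theorem cug_card (adj : X → X → Prop) (hs : ∀ a b, adj a b → adj b a) (Δ m : ℕ)
    (hΔ : ∀ x, ∃ T : Finset X, T.card ≤ Δ ∧ ∀ y, adj x y → y ∈ T)
    (A P : Finset X) (hA : ConnOn adj A) (hP : P ⊆ A) (hne : P.Nonempty)
    (hm : ∀ B : Finset X, (∀ x ∈ B, x ∈ A ∧ x ∉ P) → ConnOn adj B → B.card ≤ m) :
    A.card ≤ P.card * (1 + Δ * m) := by
  classical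
  choose T hT1 hT2 using hΔ
  obtain ⟨p, hp⟩ := hne
  have key : ∀ z, Con adj A p z → z ∈ P ∨ ∃ x ∈ P, ∃ y ∈ T x, Con adj (A \ P) y z := by
    intro z hz
    induction hz with
    | refl => exact Or.inl hp
    | @tail b c _ h2 ih =>
      by_cases hc : c ∈ P
      · exact Or.inl hc
      by_cases hb : b ∈ P
      · exact Or.inr ⟨b, hb, c, hT2 _ _ h2.1, Relation.ReflTransGen.refl⟩
      obtain ⟨x, hx, y, hy, h3⟩ := ih.resolve_left hb
      exact Or.inr ⟨x, hx, y, hy, h3.tail ⟨h2.1, Finset.mem_sdiff.2 ⟨h2.2.1, hb⟩,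
        Finset.mem_sdiff.2 ⟨h2.2.2, hc⟩⟩⟩
  have hsub : A ⊆ P ∪ P.biUnion fun x => (T x).biUnion fun y =>
      (A \ P).filter (Con adj (A \ P) y) := by
    intro z hz
    by_cases hzP : z ∈ P
    · exact Finset.mem_union_left _ hzP
    obtain ⟨x, hx, y, hy, h3⟩ := (key z (hA p (hP hp) z hz)).resolve_left hzP
    exact Finset.mem_union_right _ (Finset.mem_biUnion.2 ⟨x, hx, Finset.mem_biUnion.2
      ⟨y, hy, Finset.mem_filter.2 ⟨Finset.mem_sdiff.2 ⟨hz, hzP⟩, h3⟩⟩⟩)
  have h1 : (P.biUnion fun x => (T x).biUnion fun y =>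
      (A \ P).filter (Con adj (A \ P) y)).card ≤ P.card * (Δ * m) := by
    refine Finset.card_biUnion_le_card_mul _ _ _ fun x _ => ?_
    refine (Finset.card_biUnion_le_card_mul _ _ m fun y _ => ?_).trans
      (Nat.mul_le_mul_right _ (hT1 x))
    exact hm _ (fun z hz => Finset.mem_sdiff.1 (Finset.mem_filter.1 hz).1) (cug_comp hs _ _)
  have h2 := (Finset.card_le_card hsub).trans (Finset.card_union_le _ _)
  rw [mul_add, mul_one]
  omega

theorem cug_grow {adj : X → X → Prop} (hs : ∀ a b, adj a b → adj b a) {A : Finset X}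
    (hA : ConnOn adj A) {k : ℕ} (h1 : 1 ≤ k) (hk : k ≤ A.card) :
    ∃ B ⊆ A, ConnOn adj B ∧ B.card = k := by
  classical
  induction k, h1 using Nat.le_induction with
  | base =>
    obtain ⟨a, ha⟩ := Finset.card_pos.1 hk
    refine ⟨{a}, by simpa using ha, cug_of_base hs (x := a) fun y hy => ?_, by simp⟩
    rw [Finset.mem_singleton.1 hy]
    exact Relation.ReflTransGen.refl
  | succ k h1 ih =>
    obtain ⟨B, hBA, hB, hc⟩ := ih (by omega)
    obtain ⟨x, hx⟩ := Finset.card_pos.1 (show 0 < B.card by omega)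
    obtain ⟨y, hy, hyB⟩ := Finset.exists_mem_notMem_of_card_lt_card (show B.card < A.card by omega)
    obtain ⟨a, b, hab, ha, hb⟩ := cug_edge (hA x (hBA hx) y hy) hx hyB
    exact ⟨insert b B, Finset.insert_subset hab.2.2 hBA, cug_insert hs hB ha hab.1,
      by rw [Finset.card_insert_of_notMem hb, hc]⟩

theorem cug_extend [Fintype X] [DecidableEq X] {ι : Type} [DecidableEq ι] {adj : X → X → Prop}
    (hs : ∀ a b, adj a b → adj b a) (hc : ∀ x y, Relation.ReflTransGen adj x y) (n : ℕ) :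
    ∀ (V : Finset X) (o : X → ι), Vᶜ.card = n → V.Nonempty →
      (∀ i, ConnOn adj (V.filter fun z => o z = i)) →
      ∃ o' : X → ι, (∀ x ∈ V, o' x = o x) ∧ (∀ x, ∃ v ∈ V, o' x = o v) ∧
        ∀ i, ConnOn adj (Finset.univ.filter fun z => o' z = i) := by
  induction n with
  | zero =>
    intro V o hV _ h
    rw [Finset.card_eq_zero, Finset.compl_eq_empty_iff] at hV
    subst hV
    exact ⟨o, fun _ _ => rfl, fun x => ⟨x, Finset.mem_univ _, rfl⟩, h⟩
  | succ n ih =>
    intro V o hV hne h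
    obtain ⟨x, hx⟩ := hne
    obtain ⟨y, hy⟩ := Finset.card_pos.1 (show 0 < Vᶜ.card by omega)
    obtain ⟨a, b, hab, ha, hb⟩ := cug_edge (hc x y) hx (Finset.mem_compl.1 hy)
    have hup : ∀ z ∈ V, Function.update o b (o a) z = o z := fun z hz =>
      Function.update_of_ne (by rintro rfl; exact hb hz) _ _
    obtain ⟨o', h1, h2, h3⟩ := ih (insert b V) (Function.update o b (o a))
      (by rw [Finset.compl_insert, Finset.card_erase_of_mem (Finset.mem_compl.2 hb), hV]; rfl)
      (Finset.insert_nonempty _ _) (by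
        intro i
        rw [Finset.filter_insert, Function.update_self,
          Finset.filter_congr (q := fun z => o z = i) fun z hz => by rw [hup z hz]]
        split_ifs with h4
        · exact cug_insert hs (h i) (Finset.mem_filter.2 ⟨ha, h4⟩) hab
        · exact h i)
    refine ⟨o', fun z hz => (h1 z (Finset.mem_insert_of_mem hz)).trans (hup z hz), fun z => ?_, h3⟩
    obtain ⟨v, hv, h4⟩ := h2 z
    rcases Finset.mem_insert.1 hv with rfl | hv
    · exact ⟨a, ha, by rw [h4, Function.update_self]⟩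
    · exact ⟨v, hv, h4.trans (hup v hv)⟩

/-- A connected set whose connected subsets outside `P` are small is small in terms of `P`. -/
theorem card_le_of_parts (adj : X → X → Prop) (hs : ∀ a b, adj a b → adj b a) (Δ m : ℕ)
    (hΔ : ∀ x, ∃ T : Finset X, T.card ≤ Δ ∧ ∀ y, adj x y → y ∈ T)
    (A P : Finset X) (hA : ConnOn adj A) (hP : P ⊆ A)
    (hm : ∀ B : Finset X, (∀ x ∈ B, x ∈ A ∧ x ∉ P) → ConnOn adj B → B.card ≤ m) :
    A.card ≤ m + P.card * (1 + Δ * m) := by
  rcases P.eq_empty_or_nonempty with rfl | hne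
  · exact (hm A (fun x hx => ⟨hx, by simp⟩) hA).trans (Nat.le_add_right _ _)
  · exact (cug_card adj hs Δ m hΔ A P hA hP hne hm).trans (Nat.le_add_left _ _)

/-- Partition of a connected graph of bounded degree into connected parts of comparable size. -/
theorem parts [Fintype X] (adj : X → X → Prop) (hs : ∀ a b, adj a b → adj b a) (Δ s : ℕ)
    (hΔ : ∀ x, ∃ T : Finset X, T.card ≤ Δ ∧ ∀ y, adj x y → y ∈ T) (hs1 : 1 ≤ s)
    (hc : ∀ x y, Relation.ReflTransGen adj x y) (hX : s ≤ Fintype.card X) :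
    ∃ π : X → Finset X, ∀ x, x ∈ π x ∧ (∀ y ∈ π x, π y = π x) ∧ ConnOn adj (π x) ∧
      s ≤ (π x).card ∧ (π x).card ≤ s * (1 + Δ * s) := by
  classical
  obtain ⟨F, hF, hmax⟩ := Finset.exists_max_image
    ((Finset.univ : Finset (Finset (Finset X))).filter fun F =>
      (∀ B ∈ F, ConnOn adj B ∧ B.card = s) ∧ ∀ B ∈ F, ∀ B' ∈ F, ∀ z ∈ B, z ∈ B' → B = B')
    Finset.card ⟨∅, by simp⟩
  simp only [Finset.mem_filter, Finset.mem_univ, true_and] at hF hmax
  obtain ⟨hF1, hF2⟩ := hF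
  have small : ∀ C : Finset X, ConnOn adj C → (∀ z ∈ C, ∀ B ∈ F, z ∉ B) → C.card < s := by
    intro C hC hd
    by_contra hn
    obtain ⟨C', h1, h2, h3⟩ := cug_grow hs hC hs1 (not_lt.1 hn)
    obtain ⟨z, hz⟩ := Finset.card_pos.1 (show 0 < C'.card by omega)
    have hn : C' ∉ F := fun h => hd z (h1 hz) C' h hz
    have := hmax (insert C' F) ⟨fun B hB => ?_, fun B hB B' hB' w hw hw' => ?_⟩
    · rw [Finset.card_insert_of_notMem hn] at this
      omega
    · rcases Finset.mem_insert.1 hB with rfl | hB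
      · exact ⟨h2, h3⟩
      · exact hF1 B hB
    · rcases Finset.mem_insert.1 hB with e | hB <;> rcases Finset.mem_insert.1 hB' with e' | hB'
      · rw [e, e']
      · exact absurd hw' (hd w (h1 (e ▸ hw)) B' hB')
      · exact absurd hw (hd w (h1 (e' ▸ hw')) B hB)
      · exact hF2 B hB B' hB' w hw hw'
  have hex : ∀ z : X, ∃ B : Finset X, (∃ B' ∈ F, z ∈ B') → B ∈ F ∧ z ∈ B := by
    intro z
    by_cases h : ∃ B' ∈ F, z ∈ B'
    · obtain ⟨B, h⟩ := h
      exact ⟨B, fun _ => h⟩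
    · exact ⟨∅, fun h' => absurd h' h⟩
  choose o ho using hex
  have ho' : ∀ B ∈ F, ∀ z ∈ B, o z = B := fun B hB z hz =>
    hF2 _ (ho z ⟨B, hB, hz⟩).1 B hB z (ho z ⟨B, hB, hz⟩).2 hz
  have hV : ∀ z, z ∈ F.biUnion id ↔ ∃ B ∈ F, z ∈ B := fun z => Finset.mem_biUnion
  obtain ⟨o', h1, h2, h3⟩ := cug_extend hs hc _ (F.biUnion id) o rfl (by
    by_contra hn
    have := small Finset.univ (fun x _ y _ => cug_univ (hc x y))
      fun z _ B hB hz => hn ⟨z, (hV z).2 ⟨B, hB, hz⟩⟩
    rw [Finset.card_univ] at this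
    omega) (by
    intro i x hx
    obtain ⟨h4, h5⟩ := Finset.mem_filter.1 hx
    have hi := (ho x ((hV x).1 h4)).1
    rw [h5] at hi
    have e : (F.biUnion id).filter (fun z => o z = i) = i := by
      ext z
      rw [Finset.mem_filter, hV]
      exact ⟨fun h => h.2 ▸ (ho z h.1).2, fun h => ⟨⟨i, hi, h⟩, ho' i hi z h⟩⟩
    rw [e] at hx ⊢
    exact (hF1 i hi).1 x hx)
  refine ⟨fun x => Finset.univ.filter fun z => o' z = o' x, fun x => ⟨by simp, fun y hy => ?_,
    h3 _, ?_⟩⟩
  · simp only [(Finset.mem_filter.1 hy).2]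
  obtain ⟨v, hv, h4⟩ := h2 x
  have hB := (ho v ((hV v).1 hv)).1
  rw [← h4] at hB
  have h5 : ∀ B ∈ F, ∀ z ∈ B, o' z = B := fun B hB z hz =>
    (h1 z ((hV z).2 ⟨B, hB, hz⟩)).trans (ho' B hB z hz)
  have hsub : o' x ⊆ Finset.univ.filter fun z => o' z = o' x := fun z hz =>
    Finset.mem_filter.2 ⟨Finset.mem_univ _, h5 _ hB z hz⟩
  have hc := (hF1 _ hB).2
  refine ⟨hc ▸ Finset.card_le_card hsub, ?_⟩
  have := cug_card adj hs Δ s hΔ _ _ (h3 _) hsub (Finset.card_pos.1 (by omega)) fun C hC hC' =>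
    (small C hC' fun z hz B hB hzB => (hC z hz).2 (by
      rw [← (Finset.mem_filter.1 (hC z hz).1).2, h5 B hB z hzB]; exact hzB)).le
  rwa [hc] at this

end Pool.Agent.MC.Gr
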