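import Pool.Agent.P.MP_2677b3_gt.CuC
import Pool.Agent.P.MP_2677b3_gt.NF

/-! The normal form of a region and the graph of surfaces of a cut map. -/

namespace Pool.Agent.MC

variable {M : CMap} {H : M.D → Prop}

/-- Genus and boundary cycles of one region; discs and annuli. -/
theorem nf_good (hg : M.Good H) (d₀ : M.D) : ∃ (h : ℕ) (L : List M.D),
    (∀ d ∈ L, H d ∧ M.Same H d₀ d) ∧ L.Pairwise (fun a b => ¬ M.OnC H a b) ∧
    (∀ d, H d → M.Same H d₀ d → ∃ a ∈ L, M.OnC H a d) ∧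
    M.Euler H (M.rg H d₀) h L.length ∧
    (h = 0 → ∀ a, L = [a] → M.gv H a = 1) ∧ (h = 0 → ∀ a b, L = [a, b] → M.Cj H a b) := by
  classical
  obtain ⟨y, ab, seg, -, h2, h3, h4, h5, h6⟩ := nf_rel M H hg.sym d₀
  have hn := List.nodup_flatMap.1 h3
  have K : ∀ u ∈ seg, H (u.2.headD d₀) ∧ u.2 = M.cyc H (u.2.headD d₀) ∧
      M.gd.Path y u.1 (M.gd.src (u.2.headD d₀)) := by
    intro u hu
    obtain ⟨d, k, hd, hk, hp, he, hpa⟩ := h2 u hu
    have e : u.2.headD d₀ = d := by
      obtain ⟨k, rfl⟩ : ∃ j, k = j + 1 := ⟨k - 1, by omega⟩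
      rw [he, orbL, List.range_succ_eq_map]; rfl
    rw [e]
    exact ⟨hd, he.trans (CMap.Good.cyc_eq hk hp (he ▸ hn.1 u hu)), hpa⟩
  have K2 : ∀ u ∈ seg, ∀ e, e ∈ u.2 ↔ M.OnC H (u.2.headD d₀) e := fun u hu e => by
    rw [← hg.mem_cyc (K u hu).1, ← (K u hu).2.1]
  have K3 : ∀ u ∈ seg, M.gd.ev u.2 = M.gv H (u.2.headD d₀) := fun u hu => by
    rw [CMap.gv, ← (K u hu).2.1]
  refine ⟨ab.length, seg.map fun u => u.2.headD d₀, ?_, ?_, ?_, ?_, ?_, ?_⟩
  · intro d hd
    obtain ⟨u, hu, rfl⟩ := List.mem_map.1 hd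
    exact (h4 _).1 (List.mem_flatMap.2 ⟨u, hu, (K2 u hu _).2 CMap.OnC.rfl⟩)
  · rw [List.pairwise_map]
    refine hn.2.imp_of_mem fun {u v} hu hv huv ho => ?_
    exact huv ((K2 u hu _).2 ho) ((K2 v hv _).2 CMap.OnC.rfl)
  · intro d hd hs
    obtain ⟨u, hu, hdu⟩ := List.mem_flatMap.1 ((h4 d).2 ⟨hd, hs⟩)
    exact ⟨_, List.mem_map.2 ⟨u, hu, rfl⟩, (K2 u hu _).1 hdu⟩
  · rw [List.length_map]; exact h6
  · intro h0 a ha
    obtain rfl := List.length_eq_zero_iff.1 h0
    obtain ⟨u, rfl, rfl⟩ := List.map_eq_singleton_iff.1 ha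
    rw [← K3 u (by simp)]
    simp only [List.map_nil, List.prod_nil, one_mul, List.map_cons, List.prod_cons,
      mul_one] at h5
    exact conj_eq_one_iff.1 h5
  · intro h0 a b ha
    obtain rfl := List.length_eq_zero_iff.1 h0
    obtain ⟨u, l, rfl, rfl, hl⟩ := List.map_eq_cons_iff.1 ha
    obtain ⟨v, rfl, rfl⟩ := List.map_eq_singleton_iff.1 hl
    refine ⟨_, (K u (by simp)).2.2.rev.append (K v (by simp)).2.2, Or.inr ?_⟩
    rw [← K3 u (by simp), ← K3 v (by simp), Gd.ev_append, Gd.ev_rev]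
    simp only [List.map_nil, List.prod_nil, one_mul, List.map_cons, List.prod_cons,
      mul_one] at h5
    have e := eq_inv_of_mul_eq_one_left h5
    calc _ = (M.gd.ev u.1)⁻¹ * (M.gd.ev u.1 * M.gd.ev u.2 * (M.gd.ev u.1)⁻¹) * M.gd.ev v.1 := by
          group
      _ = _ := by rw [e]; group

theorem lab_exists (hg : M.Good H) (n : ℕ) (hn : ∀ d, (M.rg H d).card ≤ n) :
    ∃ G : GS, Nonempty (Lab M H G n) := by
  classical
  let sX : Setoid M.D := ⟨M.Same H, fun _ => CMap.Same.rfl, fun h => h.symm hg.sym,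
    fun h h' => h.trans h'⟩
  let sC : Setoid {d // H d} := ⟨fun a b => M.OnC H a.1 b.1, fun _ => CMap.OnC.rfl,
    fun {a _} h => hg.onC_symm a.2 h, fun h h' => h.trans h'⟩
  choose g L h1 h2 h3 h4 h5 h6 using nf_good hg
  let bar : Quotient sC → Quotient sC := Quotient.map (fun a => ⟨M.α a.1, hg.sym _ a.2⟩)
    fun a _ h => hg.onC_α a.2 h
  let own : Quotient sC → Quotient sX := Quotient.map (fun a => a.1)
    fun a _ h => hg.onC_same a.2 h
  let ord : Quotient sX → List (Quotient sC) := fun x =>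
    (L x.out).pmap (fun d (h : H d) => Quotient.mk sC ⟨d, h⟩) fun d hd => (h1 _ d hd).1
  have hreg : ∀ (x : Quotient sX) d, Quotient.mk sX d = x ↔ M.Same H x.out d := fun x d => by
    rw [eq_comm, ← Quotient.out_eq x, Quotient.eq, Quotient.out_eq]; rfl
  let G : GS :=
    { X := Quotient sX, C := Quotient sC, finX := Fintype.ofFinite _, finC := Fintype.ofFinite _
      bar := bar, own := own, h := fun x => g x.out, ord := ord
      bar_bar := fun c => Quotient.inductionOn c fun a =>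
        congrArg (Quotient.mk sC) (Subtype.ext (M.αα a.1))
      bar_ne := fun c => Quotient.inductionOn c fun a h =>
        hg.not_onC_α a.2 (Quotient.exact h.symm)
      nodup := fun x => List.Pairwise.pmap (h2 _) _ fun _ _ _ _ h e => h (Quotient.exact e)
      mem_ord := fun x c => Quotient.inductionOn c fun a => by
        constructor
        · intro h
          obtain ⟨d, hd, e⟩ := List.mem_pmap.1 h
          rw [← e]
          exact (hreg x d).2 (h1 _ d hd).2
        · intro h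
          obtain ⟨d, hd, e⟩ := h3 x.out a.1 a.2 ((hreg x a.1).1 h)
          exact List.mem_pmap.2 ⟨d, hd, Quotient.sound e⟩ }
  have hf : ∀ (x : Quotient sX) {_ : DecidablePred fun d => Quotient.mk sX d = x},
      (Finset.univ.filter fun d => Quotient.mk sX d = x) = M.rg H x.out := fun x _ => by
    ext d
    rw [CMap.mem_rg, Finset.mem_filter, hreg]
    simp
  exact ⟨G, ⟨{
    reg := Quotient.mk sX
    cuf := fun d h => Quotient.mk sC ⟨d, h⟩
    Hα := hg.sym
    simple := fun _ h => hg.simple h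
    reg_iff := fun _ _ => Quotient.eq
    reg_surj := fun x => ⟨x.out, x.out_eq⟩
    cuf_iff := fun _ _ _ _ => Quotient.eq
    cuf_surj := fun c => ⟨c.out.1, c.out.2, c.out_eq⟩
    cuf_α := fun _ _ => rfl
    own_cuf := fun _ _ => rfl
    euler := fun x => by
      have e : (G.ord x).length = (L x.out).length := List.length_pmap
      rw [e]
      exact (hf x).symm ▸ h4 x.out
    size := fun x => (congrArg Finset.card (hf x)).le.trans (hn _) }⟩⟩

theorem Lab.conn {G : GS} {n : ℕ} (lab : Lab M H G n)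
    (hc : ∀ d d', M.Same (fun _ => False) d d') (d₀ : M.D) : G.Conn := by
  refine ⟨⟨lab.reg d₀⟩, fun x y => ?_⟩
  obtain ⟨a, rfl⟩ := lab.reg_surj x
  obtain ⟨b, rfl⟩ := lab.reg_surj y
  refine CMap.Same.ind (P := fun b => Relation.ReflTransGen
    (fun x y => ∃ c, G.own c = x ∧ G.own (G.bar c) = y) (lab.reg a) (lab.reg b))
    (fun d h => ?_) (fun d _ h => ?_) (hc a b) Relation.ReflTransGen.refl
  · rwa [← (lab.reg_iff _ _).2 (CMap.same_φ d)]
  · by_cases hd : H d
    · exact h.tail ⟨lab.cuf d hd, lab.own_cuf _ _, by rw [← lab.cuf_α, lab.own_cuf]⟩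
    · rwa [← (lab.reg_iff _ _).2 (CMap.same_α hd)]

end Pool.Agent.MC
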