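import Pool.Agent.P.MP_2677b3_gt.CuC

/-! The complexity of a region is additive. -/

namespace Pool.Agent.MC

variable {M : CMap} {H : M.D → Prop}

theorem cuw_closed {D : Type} [Finite D] {σ : Equiv.Perm D} {S : Finset D}
    (hS : ∀ d ∈ S, σ d ∈ S) {d e : D} (hd : d ∈ S) (h : σ.SameCycle d e) : e ∈ S := by
  obtain ⟨i, -, rfl⟩ := h.exists_pow_eq'
  clear h
  induction i with
  | zero => exact hd
  | succ i ih =>
    rw [pow_succ', Equiv.Perm.mul_apply]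
    exact hS _ ih

theorem cuw_norb {D : Type} [Finite D] [DecidableEq D] {σ : Equiv.Perm D} {ρ : D → D}
    (h1 : ∀ d, σ.SameCycle d (ρ d)) (h2 : ∀ d e, σ.SameCycle d e → ρ d = ρ e) {S : Finset D}
    (hS : ∀ d ∈ S, σ d ∈ S) : (norb σ S : ℤ) = ∑ d ∈ S, if ρ d = d then 1 else 0 := by
  rw [Finset.sum_boole, norb]
  congr 1
  symm
  refine Finset.card_bij (fun d _ => Quotient.mk _ d) (fun d hd => ?_) (fun d hd e he h => ?_)
    fun v hv => ?_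
  · simp only [Finset.mem_image]
    exact ⟨d, (Finset.mem_filter.1 hd).1, rfl⟩
  · rw [← (Finset.mem_filter.1 hd).2, ← (Finset.mem_filter.1 he).2]
    exact h2 d e (Quotient.exact h)
  · simp only [Finset.mem_image] at hv
    obtain ⟨d, hd, rfl⟩ := hv
    exact ⟨ρ d, Finset.mem_filter.2 ⟨cuw_closed hS hd (h1 d), (h2 _ _ (h1 d)).symm⟩,
      Quotient.sound (h1 d).symm⟩

theorem cuw_rep {D : Type} (σ : Equiv.Perm D) {P : D → Prop}
    (h : ∀ d, ∃ e, σ.SameCycle d e ∧ P e) :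
    ∃ ρ : D → D, (∀ d, σ.SameCycle d (ρ d)) ∧ (∀ d e, σ.SameCycle d e → ρ d = ρ e) ∧
      ∀ d, P (ρ d) := by
  have h' : ∀ v : Quotient (Equiv.Perm.SameCycle.setoid σ), ∃ e, Quotient.mk _ e = v ∧ P e := by
    intro v
    obtain ⟨d, rfl⟩ := Quotient.exists_rep v
    obtain ⟨e, h1, h2⟩ := h d
    exact ⟨e, Quotient.sound h1.symm, h2⟩
  choose r h1 h2 using h'
  exact ⟨fun d => r (Quotient.mk _ d), fun d => Quotient.exact (h1 _).symm,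
    fun d e h => congrArg r (Quotient.sound h), fun d => h2 _⟩

theorem cuw_inner (ht : M.Tri) {d : M.D} :
    (∀ k : ℕ, ¬ H (M.ψ^[k] d)) ↔ ¬ H d ∧ ¬ H (M.ψ d) ∧ ¬ H (M.ψ (M.ψ d)) := by
  refine ⟨fun h => ⟨h 0, h 1, h 2⟩, fun h k => ?_⟩
  induction k generalizing d with
  | zero => exact h.1
  | succ k ih =>
    rw [Function.iterate_succ_apply]
    exact ih ⟨h.2.1, h.2.2, by rw [(ht d).1]; exact h.1⟩

theorem cuw_main [DecidableEq M.D] {H' : M.D → Prop} (hg : M.Good H') (hs : ∀ d, H' d → H d)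
    {ρ : M.D → M.D} (h1 : ∀ d, M.ψ.SameCycle d (ρ d))
    (h2 : ∀ d e, M.ψ.SameCycle d e → ρ d = ρ e) (h3 : ∀ d, ¬ H (ρ d)) {d₀ : M.D}
    {I N : Finset M.D} (hI : ∀ d, d ∈ I ↔ d ∈ M.rg H' d₀ ∧ ∀ k : ℕ, ¬ H' (M.ψ^[k] d))
    (hN : ∀ d, d ∈ N ↔ d ∈ M.rg H' d₀ ∧ ¬ H' d) :
    (N.card : ℤ) = 2 * norb M.ψ I + ∑ d ∈ M.rg H' d₀, if ρ d = d then 1 else 0 := by
  have ht := hg.tri
  simp only [cuw_inner ht] at hI
  have c1 : ∀ d ∈ I, M.ψ d ∈ I := fun d hd => by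
    obtain ⟨a, b1, b2, b3⟩ := (hI d).1 hd
    refine (hI _).2 ⟨CMap.mem_rg.2 ?_, b2, b3, by rw [(ht d).1]; exact b1⟩
    exact ((CMap.mem_rg.1 a).trans (CMap.same_α b1)).trans (CMap.same_φ _)
  have c2 : ∀ d, d ∈ I ↔ M.ψ d ∈ I := fun d =>
    ⟨c1 d, fun h => by rw [← (ht d).1]; exact c1 _ (c1 _ h)⟩
  have t : ∀ d, ρ d = d ∨ ρ d = M.ψ d ∨ ρ d = M.ψ (M.ψ d) := fun d =>
    ht.src_eq.1 (CMap.src_eq_iff.2 (h1 d))
  have tψ : ∀ d, ρ (M.ψ d) = ρ d := fun d => h2 _ _ (CMap.src_eq_iff.1 (CMap.src_ψ d))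
  set g : M.D → ℤ := fun d => if ρ d = d then 1 else 0 with hg'
  have s1 : ∀ u : M.D → ℤ, ∑ d ∈ I, u (M.ψ d) = ∑ d ∈ I, u d := fun u =>
    Finset.sum_equiv M.ψ c2 fun _ _ => rfl
  have s2 : ∀ d, g d + g (M.ψ d) + g (M.ψ (M.ψ d)) = 1 := fun d => by
    have n1 : M.ψ d ≠ d := (ht d).2
    have n2 : M.ψ (M.ψ d) ≠ M.ψ d := (ht _).2
    have n3 : d ≠ M.ψ (M.ψ d) := by
      have := (ht (M.ψ (M.ψ d))).2
      rwa [(ht d).1] at this
    simp only [hg', tψ]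
    rcases t d with e | e | e <;> rw [e]
    · rw [if_pos rfl, if_neg n1.symm, if_neg n3]
      rfl
    · rw [if_neg n1, if_pos rfl, if_neg n2.symm]
      rfl
    · rw [if_neg n3.symm, if_neg n2, if_pos rfl]
      rfl
  have s3 : (I.card : ℤ) = 3 * ∑ d ∈ I, g d := by
    have e := Finset.sum_congr (s₁ := I) rfl fun d _ => s2 d
    rw [Finset.sum_add_distrib, Finset.sum_add_distrib, s1 g, s1 fun d => g (M.ψ d), s1 g,
      Finset.sum_const, nsmul_one] at e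
    linarith
  have hIS : I ⊆ M.rg H' d₀ := fun d hd => ((hI d).1 hd).1
  have hIN : I ⊆ N := fun d hd => (hN d).2 ⟨((hI d).1 hd).1, ((hI d).1 hd).2.1⟩
  have s4 : N \ I = (M.rg H' d₀ \ I).filter fun d => ρ d = d := by
    ext d
    rw [Finset.mem_filter, Finset.mem_sdiff, Finset.mem_sdiff, hN]
    refine ⟨fun ⟨⟨a, b⟩, c⟩ => ⟨⟨a, c⟩, ?_⟩, fun ⟨⟨a, c⟩, e⟩ => ⟨⟨a, fun b => ?_⟩, c⟩⟩
    · have u1 := hg.two (M.ψ d)
      have u2 := hg.two (M.ψ (M.ψ d))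
      rw [(ht d).1] at u1 u2
      have u3 : ¬ (¬ H' (M.ψ d) ∧ ¬ H' (M.ψ (M.ψ d))) := fun u => c ((hI d).2 ⟨a, b, u⟩)
      have u4 : H' (M.ψ d) ∧ H' (M.ψ (M.ψ d)) := by tauto
      rcases t d with e | e | e
      · exact e
      · exact absurd (e ▸ hs _ u4.1) (h3 d)
      · exact absurd (e ▸ hs _ u4.2) (h3 d)
    · exact h3 d (e.symm ▸ hs d b)
  have s5 : ((N \ I).card : ℤ) = ∑ d ∈ M.rg H' d₀ \ I, g d := by
    rw [s4, hg', Finset.sum_boole]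
  have s6 := Finset.card_sdiff_add_card_eq_card hIN
  rw [cuw_norb h1 h2 c1, ← Finset.sum_sdiff hIS, ← s5, ← s6]
  push_cast
  linarith

theorem weight_exists (hg : M.Good H) : ∃ ω : M.D → ℤ, ∀ H' : M.D → Prop, M.Good H' →
    (∀ d, H' d → H d) → ∀ (d₀ : M.D) (h b : ℕ), M.Euler H' (M.rg H' d₀) h b →
      4 * (h : ℤ) + 2 * b = 4 + ∑ d ∈ M.rg H' d₀, ω d := by
  classical
  have ht := hg.tri
  obtain ⟨ρ, h1, h2, h3⟩ := cuw_rep M.ψ (P := fun d => ¬ H d) fun d => by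
    by_cases a : H d
    · by_cases b : H (M.ψ d)
      · exact ⟨_, CMap.src_eq_iff.1 ((CMap.src_ψ _).trans (CMap.src_ψ d)).symm, (hg.two d a).1 b⟩
      · exact ⟨_, CMap.src_eq_iff.1 (CMap.src_ψ d).symm, b⟩
    · exact ⟨d, Equiv.Perm.SameCycle.refl _ _, a⟩
  obtain ⟨τ, k1, k2, -⟩ := cuw_rep M.φ (P := fun _ => True) fun d =>
    ⟨d, Equiv.Perm.SameCycle.refl _ _, trivial⟩
  refine ⟨fun d => (if ρ d = d then 1 else 0) - 2 * if τ d = d then 1 else 0,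
    fun H' hg' hs d₀ h b he => ?_⟩
  have e1 := cuw_norb k1 k2 (S := M.rg H' d₀) fun d hd =>
    CMap.mem_rg.2 ((CMap.mem_rg.1 hd).trans (CMap.same_φ d))
  have e2 := congrArg (Nat.cast : ℕ → ℤ) he
  push_cast at e2
  rw [cuw_main hg' hs h1 h2 h3 (fun d => Finset.mem_filter) fun d => Finset.mem_filter] at e2
  rw [Finset.sum_sub_distrib, ← Finset.mul_sum, ← e1]
  linarith

end Pool.Agent.MC
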