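import Pool.Agent.P.MP_2677b3_gt.CuG
import Pool.Agent.P.MP_2677b3_gt.CuLab
import Pool.Agent.P.MP_2677b3_gt.CuW

/-! Grouping the regions into pieces of large complexity. -/

namespace Pool.Agent.MC

open Finset

variable {M : CMap} {H : M.D → Prop}

/-- Adjacency of regions. -/
def cumAdj {X : Type} (q : M.D → X) (x y : X) : Prop := ∃ d, q d = x ∧ q (M.α d) = y

theorem cumAdj_symm {X : Type} (q : M.D → X) (a b : X) (h : cumAdj q a b) : cumAdj q b a := by
  obtain ⟨d, h1, h2⟩ := h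
  exact ⟨M.α d, h2, by rw [M.αα]; exact h1⟩

theorem cum_conn {X : Type} (q : M.D → X) (hq : ∀ d e, q d = q e ↔ M.Same H d e)
    (hs : ∀ x, ∃ d, q d = x) (hc : ∀ d d', M.Same (fun _ => False) d d') (x y : X) :
    Relation.ReflTransGen (cumAdj q) x y := by
  obtain ⟨d, rfl⟩ := hs x
  obtain ⟨e, rfl⟩ := hs y
  refine CMap.Same.ind (P := fun e => Relation.ReflTransGen (cumAdj q) (q d) (q e))
    (fun a ha => ?_) (fun a _ ha => ?_) (hc d e) Relation.ReflTransGen.refl
  · rw [← (hq _ _).2 (CMap.same_φ a)]; exact ha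
  · exact ha.tail ⟨a, rfl, rfl⟩

theorem cum_deg {X : Type} (q : M.D → X) (hq : ∀ d e, q d = q e ↔ M.Same H d e)
    (hs : ∀ x, ∃ d, q d = x) (m : ℕ) (hm : ∀ d, (M.rg H d).card ≤ m) (x : X) :
    ∃ T : Finset X, T.card ≤ m ∧ ∀ y, cumAdj q x y → y ∈ T := by
  classical
  obtain ⟨d, rfl⟩ := hs x
  refine ⟨(M.rg H d).image fun e => q (M.α e), card_image_le.trans (hm d), ?_⟩
  rintro y ⟨e, h1, rfl⟩
  exact mem_image.2 ⟨e, CMap.mem_rg.2 ((hq _ _).1 h1.symm), rfl⟩

open Classical in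
theorem cum_card_le {X : Type} (q : M.D → X) (hq : ∀ d e, q d = q e ↔ M.Same H d e)
    (m : ℕ) (hm : ∀ d, (M.rg H d).card ≤ m) (A : Finset X) :
    (univ.filter fun e => q e ∈ A).card ≤ A.card * m := by
  refine le_trans (card_le_mul_card_image_of_maps_to (f := q) (t := A)
    (fun e he => (mem_filter.1 he).2) m fun x _ => ?_) (by rw [mul_comm])
  rcases (((univ.filter fun e => q e ∈ A).filter fun e => q e = x)).eq_empty_or_nonempty with
    h | ⟨d, hd⟩
  · rw [h]; simp
  · refine le_trans (card_le_card fun e he => ?_) (hm d)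
    exact CMap.mem_rg.2 ((hq _ _).1 ((mem_filter.1 hd).2.trans (mem_filter.1 he).2.symm))

/-- If there are two regions, every region has a boundary dart. -/
theorem cum_bdry (hc : ∀ d d', M.Same (fun _ => False) d d') {a b : M.D} (hab : ¬ M.Same H a b)
    (hα : ∀ d, H d → H (M.α d)) (d : M.D) : ∃ e, H e ∧ M.Same H d e := by
  by_contra hn
  have key : ∀ e, M.Same H d e := fun e =>
    CMap.Same.ind (P := fun e => M.Same H d e) (fun a ha => ha.trans (CMap.same_φ a))
      (fun a _ ha => ha.trans (CMap.same_α fun h => hn ⟨a, h, ha⟩)) (hc d e) CMap.Same.rfl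
  exact hab (((key a).symm hα).trans (key b))

/-- Weights of regions are non-negative, and vanish only for annuli. -/
theorem cum_weight (hg : M.Good H) (hv : ∀ d, H d → M.gv H d ≠ 1) (ω : M.D → ℤ)
    (hω : ∀ (d₀ : M.D) (h b : ℕ), M.Euler H (M.rg H d₀) h b →
      4 * (h : ℤ) + 2 * b = 4 + ∑ d ∈ M.rg H d₀, ω d) (d : M.D) (hb : ∃ e, H e ∧ M.Same H d e) :
    0 ≤ ∑ e ∈ M.rg H d, ω e ∧ (∑ e ∈ M.rg H d, ω e = 0 →
      ∀ a b, H a → H b → M.Same H d a → M.Same H d b → M.Cj H a b) := by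
  obtain ⟨h, L, h1, -, h3, h4, h5, h6⟩ := nf_good hg d
  have h7 := hω d h _ h4
  obtain ⟨e, he, hde⟩ := hb
  obtain ⟨a, haL, -⟩ := h3 e he hde
  have hpos : 0 < L.length := List.length_pos_of_mem haL
  have h8 : ¬ (h = 0 ∧ L.length = 1) := by
    rintro ⟨h0, hl⟩
    obtain ⟨a', rfl⟩ := List.length_eq_one_iff.1 hl
    exact hv a' (h1 a' (by simp)).1 (h5 h0 a' rfl)
  refine ⟨by omega, fun h0 u v hu hv' hdu hdv => ?_⟩
  have hh : h = 0 := by omega
  have hl : L.length = 2 := by omega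
  obtain ⟨x, y, rfl⟩ := List.length_eq_two.1 hl
  have hxy := h6 hh x y rfl
  have hx := (h1 x (by simp)).1
  have hy := (h1 y (by simp)).1
  have key : ∀ w, H w → M.Same H d w → M.Cj H x w := fun w hw hdw => by
    obtain ⟨c, hc, hcw⟩ := h3 w hw hdw
    simp only [List.mem_cons, List.not_mem_nil, or_false] at hc
    rcases hc with rfl | rfl
    · exact hg.cj_onC hx hcw
    · exact hxy.trans (hg.cj_onC hy hcw)
  exact (key u hu hdu).symm.trans (key v hv' hdv)

/-- Connected families of annuli are small. -/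
theorem cum_zero {X : Type} (hg : M.Good H) (q : M.D → X) (hq : ∀ d e, q d = q e ↔ M.Same H d e)
    (M0 : ℕ) (hT : ∀ d, H d → ∃ T : Finset M.D, T.card ≤ M0 ∧ ∀ e, H e → M.Cj H d e → e ∈ T)
    (B : Finset X) (hB : Gr.ConnOn (cumAdj q) B) (hb : ∀ x ∈ B, ∃ e, H e ∧ q e = x)
    (hz : ∀ x ∈ B, ∀ a b, H a → H b → q a = x → q b = x → M.Cj H a b) : B.card ≤ M0 := by
  classical
  rcases B.eq_empty_or_nonempty with rfl | ⟨x₀, hx₀⟩
  · simp
  obtain ⟨d, hd, hdx⟩ := hb x₀ hx₀
  obtain ⟨T, hT1, hT2⟩ := hT d hd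
  have key : ∀ y, Gr.Con (cumAdj q) B x₀ y → ∀ e, H e → q e = y → M.Cj H d e := by
    intro y hy
    induction hy with
    | refl => exact fun e he hex => hz x₀ hx₀ d e hd he hdx hex
    | tail _ hs ih =>
      obtain ⟨⟨f, h1, h2⟩, -, hc⟩ := hs
      intro e he hex
      by_cases hf : H f
      · exact ((ih f hf h1).trans (hg.cj_α hf)).trans (hz _ hc _ _ (hg.sym f hf) he h2 hex)
      · refine ih e he ?_
        rw [hex, ← h2, ← h1]
        exact ((hq _ _).2 (CMap.same_α hf)).symm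
  refine le_trans (card_le_card fun y hy => ?_) (card_image_le.trans hT1 : (T.image q).card ≤ M0)
  obtain ⟨e, he, hey⟩ := hb y hy
  exact mem_image.2 ⟨e, hT2 e he (key y (hB x₀ hx₀ y hy) e he hey), hey⟩

/-- Cutting only between different parts of a partition into connected families. -/
theorem cum_cut {X : Type} (hg : M.Good H) (q : M.D → X) (hq : ∀ d e, q d = q e ↔ M.Same H d e)
    (π : X → Finset X) (h1 : ∀ x, x ∈ π x) (h2 : ∀ x, ∀ y ∈ π x, π y = π x)
    (h3 : ∀ x, Gr.ConnOn (cumAdj q) (π x)) :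
    M.Good (fun d => H d ∧ π (q d) ≠ π (q (M.α d))) ∧
      ∀ d e, M.Same (fun d => H d ∧ π (q d) ≠ π (q (M.α d))) d e ↔ q e ∈ π (q d) := by
  constructor
  · refine hg.sub (fun d h => h.1) (fun d h => ⟨hg.sym d h.1, ?_⟩)
      (fun d h => ⟨hg.bd_mem h.1, ?_⟩)
    · rw [M.αα]; exact h.2.symm
    · have e1 : q d = q (M.bd H d) := (hq _ _).2 (hg.same_bd h.1)
      have e2 : q (M.α (M.bd H d)) = q (M.α d) := by
        rw [← hg.simple h.1]
        exact (hq _ _).2 (hg.same_bd (hg.sym _ (hg.bd_mem h.1)))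
      rw [← e1, e2]; exact h.2
  · intro d e
    constructor
    · intro h
      refine CMap.Same.ind (P := fun e => q e ∈ π (q d)) (fun a ha => ?_) (fun a hn ha => ?_) h
        (h1 _)
      · rw [← (hq _ _).2 (CMap.same_φ a)]; exact ha
      · by_cases hH : H a
        · have : π (q a) = π (q (M.α a)) := by
            by_contra hne
            exact hn ⟨hH, hne⟩
          rw [← h2 _ _ ha, this]; exact h1 _
        · rw [← (hq _ _).2 (CMap.same_α hH)]; exact ha
    · intro h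
      have key : ∀ y, Gr.Con (cumAdj q) (π (q d)) (q d) y → ∀ e, q e = y →
          M.Same (fun d => H d ∧ π (q d) ≠ π (q (M.α d))) d e := by
        intro y hy
        induction hy with
        | refl => exact fun e he => ((hq _ _).1 he.symm).mono fun _ h => h.1
        | tail _ hs ih =>
          obtain ⟨⟨f, e1, e2⟩, hb, hc⟩ := hs
          intro e he
          refine ((ih f e1).trans (CMap.same_α fun hh => hh.2 ?_)).trans
            (((hq _ _).1 (e2.trans he.symm)).mono fun _ h => h.1)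
          rw [e1, e2, h2 _ _ hb, h2 _ _ hc]
      exact key _ (h3 _ _ (h1 _) _ h) e rfl

theorem cut_main (hg : M.Good H) (hc : ∀ d d', M.Same (fun _ => False) d d') (m M0 n₀ : ℕ)
    (hm : ∀ d, (M.rg H d).card ≤ m) (hv : ∀ d, H d → M.gv H d ≠ 1)
    (hT : ∀ d, H d → ∃ T : Finset M.D, T.card ≤ M0 ∧ ∀ e, H e → M.Cj H d e → e ∈ T)
    (s : ℕ) (hs : M0 + 2 * n₀ * (1 + m * M0) + 2 ≤ s) :
    Fintype.card M.D ≤ s * m ∨ ∃ H' : M.D → Prop, M.Good H' ∧
      (∀ d, (M.rg H' d).card ≤ s * (1 + m * s) * m) ∧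
      ∀ d h b, M.Euler H' (M.rg H' d) h b → n₀ ≤ 2 * h + b := by
  classical
  obtain ⟨G, ⟨lab⟩⟩ := lab_exists hg m hm
  have hq := lab.reg_iff
  have hsur := lab.reg_surj
  set q := lab.reg
  by_cases hX : Fintype.card G.X < s
  · left
    have h1 := cum_card_le q hq m hm univ
    simp only [mem_univ, filter_true, card_univ] at h1
    exact h1.trans (Nat.mul_le_mul_right _ hX.le)
  right
  have hX' : s ≤ Fintype.card G.X := not_lt.1 hX
  obtain ⟨x₁, x₂, hx⟩ := Fintype.exists_pair_of_one_lt_card (α := G.X) (by omega)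
  obtain ⟨a, rfl⟩ := hsur x₁
  obtain ⟨b, rfl⟩ := hsur x₂
  have hb := cum_bdry hc (fun h => hx ((hq a b).2 h)) hg.sym
  obtain ⟨ω, hω⟩ := weight_exists hg
  have hw := fun d => cum_weight hg hv ω (hω H hg fun _ h => h) d (hb d)
  have hfib : ∀ d, (univ.filter fun e => q e = q d) = M.rg H d := fun d => by
    ext e
    simp only [mem_filter, mem_univ, true_and, CMap.mem_rg]
    rw [eq_comm, hq]
  set W : G.X → ℤ := fun x => ∑ e ∈ univ.filter (fun e => q e = x), ω e with hW
  have hW0 : ∀ x, 0 ≤ W x := fun x => by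
    obtain ⟨d, rfl⟩ := hsur x
    simp only [hW, hfib]; exact (hw d).1
  obtain ⟨π, hπ⟩ := Gr.parts (cumAdj q) (cumAdj_symm q) m s (cum_deg q hq hsur m hm) (by omega)
    (cum_conn q hq hsur hc) hX'
  obtain ⟨hg', hsame⟩ := cum_cut hg q hq π (fun x => (hπ x).1) (fun x => (hπ x).2.1)
    (fun x => (hπ x).2.2.1)
  have hrg : ∀ d, M.rg (fun d => H d ∧ π (q d) ≠ π (q (M.α d))) d
      = univ.filter fun e => q e ∈ π (q d) := fun d => by
    ext e
    simp only [mem_filter, mem_univ, true_and, CMap.mem_rg, hsame]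
  refine ⟨_, hg', fun d => ?_, fun d h b hE => ?_⟩
  · rw [hrg]
    exact (cum_card_le q hq m hm _).trans (Nat.mul_le_mul_right _ (hπ _).2.2.2.2)
  · have h1 := hω _ hg' (fun _ h => h.1) d h b hE
    rw [hrg] at h1
    have h2 : ∑ e ∈ univ.filter (fun e => q e ∈ π (q d)), ω e = ∑ x ∈ π (q d), W x := by
      rw [← sum_fiberwise_of_maps_to (g := q) (t := π (q d)) fun e he => (mem_filter.1 he).2]
      refine sum_congr rfl fun x hx => sum_congr ?_ fun _ _ => rfl
      ext e
      simp only [mem_filter, mem_univ, true_and]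
      exact ⟨fun h => h.2, fun h => ⟨h ▸ hx, h⟩⟩
    have h3 := Gr.card_le_of_parts (cumAdj q) (cumAdj_symm q) m M0 (cum_deg q hq hsur m hm)
      (π (q d)) ((π (q d)).filter fun x => W x ≠ 0) (hπ _).2.2.1 (filter_subset _ _)
      (fun B hB1 hB2 => cum_zero hg q hq M0 hT B hB2 (fun x _ => by
        obtain ⟨e, rfl⟩ := hsur x
        obtain ⟨f, hf, hef⟩ := hb e
        exact ⟨f, hf, ((hq _ _).2 hef).symm⟩) (fun x hx u v hu hv' hux hvx => by
        obtain ⟨e, rfl⟩ := hsur x
        have h0 : W (q e) = 0 := by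
          by_contra hne
          exact (hB1 _ hx).2 (mem_filter.2 ⟨(hB1 _ hx).1, hne⟩)
        simp only [hW, hfib] at h0
        exact (hw e).2 h0 u v hu hv' ((hq _ _).1 hux.symm) ((hq _ _).1 hvx.symm)))
    have h4 : (((π (q d)).filter fun x => W x ≠ 0).card : ℤ) ≤ ∑ x ∈ π (q d), W x := by
      rw [← sum_filter_ne_zero, card_eq_sum_ones, Nat.cast_sum]
      refine sum_le_sum fun x hx => ?_
      have := hW0 x
      have := (mem_filter.1 hx).2
      push_cast; omega
    have h5 := (hπ (q d)).2.2.2.1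
    have h6 : 2 * n₀ ≤ ((π (q d)).filter fun x => W x ≠ 0).card := by
      by_contra hlt
      have := Nat.mul_le_mul_right (1 + m * M0) (not_le.1 hlt).le
      omega
    omega

end Pool.Agent.MC
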