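import Pool.Agent.P.MP_2677b3_gt.DeHyp

open UpperHalfPlane Filter Topology Set
open scoped MatrixGroups ComplexConjugate Real

noncomputable section

namespace Pool.Agent.MC.DE

theorem debdb_nonneg {K : ℝ} {f g : ℍ → ℍ} (h : QIPair K f g) : 0 ≤ K :=
  le_trans dist_nonneg (h.gf I)

theorem debdb_close {C : ℝ} {z w : ℍ} (h : dist z w ≤ C) :
    ‖kap z - kap w‖ ≤ 2 * Real.exp C * (1 - ‖kap w‖) := by
  have h1 := kap_sub_le z w
  have h2 := le_one_sub_kap w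
  have h3 : dist w I ≤ dist w z + dist z I := dist_triangle _ _ _
  rw [dist_comm w z] at h3
  have h4 : Real.exp ((dist z w - dist z I - dist w I) / 2) ≤ Real.exp C * Real.exp (-dist w I) := by
    rw [← Real.exp_add]
    apply Real.exp_le_exp.mpr
    linarith
  have h5 : Real.exp C * Real.exp (-dist w I) ≤ Real.exp C * (1 - ‖kap w‖) :=
    mul_le_mul_of_nonneg_left h2 (Real.exp_pos C).le
  linarith

theorem debdb_tend {ι : Type*} {l : Filter ι} {u v : ι → ℍ} {C : ℝ} {ξ : ℂ} (hξ : ‖ξ‖ = 1)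
    (hC : ∀ i, dist (u i) (v i) ≤ C) (hv : Tendsto (fun i => kap (v i)) l (𝓝 ξ)) :
    Tendsto (fun i => kap (u i)) l (𝓝 ξ) := by
  have h1 : Tendsto (fun i => 2 * Real.exp C * (1 - ‖kap (v i)‖)) l (𝓝 0) := by
    have := (hv.norm.const_sub 1).const_mul (2 * Real.exp C)
    rwa [hξ, sub_self, mul_zero] at this
  have h2 : Tendsto (fun i => kap (u i) - kap (v i)) l (𝓝 0) :=
    squeeze_zero_norm (fun i => debdb_close (hC i)) h1
  have h3 := h2.add hv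
  simpa using h3

theorem qi_mono {K K' : ℝ} {f g : ℍ → ℍ} (h : QIPair K f g) (hK : K ≤ K') : QIPair K' f g := by
  refine ⟨fun x y => ?_, fun x y => ?_, fun x => (h.gf x).trans hK, fun y => (h.fg y).trans hK⟩
  · have := mul_le_mul_of_nonneg_right hK (dist_nonneg (x := x) (y := y))
    linarith [h.cf x y]
  · have := mul_le_mul_of_nonneg_right hK (dist_nonneg (x := x) (y := y))
    linarith [h.cg x y]

theorem qi_symm {K : ℝ} {f g : ℍ → ℍ} (h : QIPair K f g) : QIPair K g f := by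
  exact ⟨h.cg, h.cf, h.fg, h.gf⟩

theorem qi_conj {K : ℝ} {f g : ℍ → ℍ} (h : QIPair K f g) (A B : SL(2, ℝ)) :
    QIPair K (fun z => B • f (A • z)) (fun z => A⁻¹ • g (B⁻¹ • z)) := by
  refine ⟨fun x y => ?_, fun x y => ?_, fun x => ?_, fun y => ?_⟩
  · have := h.cf (A • x) (A • y)
    rw [dist_smul] at this
    rwa [dist_smul]
  · have := h.cg (B⁻¹ • x) (B⁻¹ • y)
    rw [dist_smul] at this
    rwa [dist_smul]
  · have := h.gf (A • x)
    rw [← dist_smul A⁻¹, inv_smul_smul] at this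
    simpa only [inv_smul_smul] using this
  · have := h.fg (B⁻¹ • y)
    rw [← dist_smul B, smul_inv_smul] at this
    simpa only [smul_inv_smul] using this

theorem qi_proper {K : ℝ} {f g : ℍ → ℍ} (h : QIPair K f g) (R : ℝ) :
    ∃ R' : ℝ, ∀ z, dist (f z) I ≤ R → dist z I ≤ R' := by
  refine ⟨K + (K * R + K) + dist (g I) I, fun z hz => ?_⟩
  have h1 := h.gf z
  have h2 := h.cg (f z) I
  have h3 := dist_triangle4 z (g (f z)) (g I) I
  rw [dist_comm z (g (f z))] at h3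
  have h4 := mul_le_mul_of_nonneg_left hz (debdb_nonneg h)
  linarith

theorem IsBd.unique {f : ℍ → ℍ} {φ ψ : ℂ → ℂ} (h : IsBd f φ) (h' : IsBd f ψ) {ξ : ℂ}
    (hξ : ‖ξ‖ = 1) : φ ξ = ψ ξ := by
  have := neBot_kap hξ
  exact tendsto_nhds_unique (h.tend ξ hξ) (h'.tend ξ hξ)

theorem IsBd.comp {f t : ℍ → ℍ} {φ ψ : ℂ → ℂ} (h : IsBd f φ) (h' : IsBd t ψ) :
    IsBd (t ∘ f) (ψ ∘ φ) := by
  refine ⟨fun ξ hξ => h'.norm _ (h.norm ξ hξ), fun ξ hξ => ?_⟩
  have h1 : Tendsto f (comap kap (𝓝 ξ)) (comap kap (𝓝 (φ ξ))) :=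
    tendsto_comap_iff.mpr (h.tend ξ hξ)
  exact (h'.tend _ (h.norm ξ hξ)).comp h1

theorem IsBd.coarse {f f' : ℍ → ℍ} {φ : ℂ → ℂ} (h : IsBd f φ)
    (hc : ∃ C : ℝ, ∀ z, dist (f' z) (f z) ≤ C) : IsBd f' φ := by
  obtain ⟨C, hC⟩ := hc
  exact ⟨h.norm, fun ξ hξ => debdb_tend (h.norm ξ hξ) hC (h.tend ξ hξ)⟩

theorem isBd_smul (A : SL(2, ℝ)) : IsBd (fun z => A • z) (mobA A) := by
  refine ⟨fun ξ hξ => mob_one (beA_lt A) hξ, fun ξ hξ => ?_⟩
  have h1 : ContinuousAt (mobA A) ξ := (mob_analyticAt (beA_lt A) hξ.le).continuousAt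
  have h2 : (fun z : ℍ => kap (A • z)) = mobA A ∘ kap := funext fun z => kap_smul A z
  rw [h2]
  exact h1.tendsto.comp tendsto_comap

theorem isBd_id : IsBd (fun z => z) (fun ξ => ξ) := by
  exact ⟨fun ξ hξ => hξ, fun ξ _ => tendsto_comap⟩

theorem IsBd.fix {t : ℍ → ℍ} {φ : ℂ → ℂ} (h : IsBd t φ)
    (hc : ∃ C : ℝ, ∀ n : ℕ, ∃ z : ℍ, (n : ℝ) ≤ dist z I ∧ dist (t z) z ≤ C) :
    ∃ ξ : ℂ, ‖ξ‖ = 1 ∧ φ ξ = ξ := by
  obtain ⟨C, hC⟩ := hc
  choose z hz1 hz2 using hC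
  obtain ⟨ξ, hξ, s, hs, hlim⟩ := (isCompact_closedBall (0 : ℂ) 1).tendsto_subseq
    (x := fun n => kap (z n)) (fun n => mem_closedBall_zero_iff.mpr (kap_lt _).le)
  have hlim' : Tendsto (fun n => kap (z (s n))) atTop (𝓝 ξ) := hlim
  have h0 : Tendsto (fun n : ℕ => 2 * Real.exp (-(n : ℝ))) atTop (𝓝 0) := by
    have := (Real.tendsto_exp_neg_atTop_nhds_zero.comp
      tendsto_natCast_atTop_atTop).const_mul 2
    rwa [mul_zero] at this
  have hn : ‖ξ‖ = 1 := by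
    apply le_antisymm (mem_closedBall_zero_iff.mp hξ)
    have h1 : 1 - ‖ξ‖ ≤ 0 := by
      refine le_of_tendsto_of_tendsto' (hlim'.norm.const_sub 1) h0 fun n => ?_
      refine (one_sub_kap_le _).trans ?_
      have h2 : (n : ℝ) ≤ (s n : ℝ) := by exact_mod_cast hs.id_le n
      have h3 := hz1 (s n)
      have h4 : Real.exp (-dist (z (s n)) I) ≤ Real.exp (-(n : ℝ)) :=
        Real.exp_le_exp.mpr (by linarith)
      linarith
    linarith
  refine ⟨ξ, hn, ?_⟩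
  have h1 : Tendsto (fun n => z (s n)) atTop (comap kap (𝓝 ξ)) := tendsto_comap_iff.mpr hlim'
  have h2 : Tendsto (fun n => kap (t (z (s n)))) atTop (𝓝 (φ ξ)) := (h.tend ξ hn).comp h1
  have h3 : Tendsto (fun n => kap (t (z (s n)))) atTop (𝓝 ξ) :=
    debdb_tend hn (fun n => hz2 (s n)) hlim'
  exact tendsto_nhds_unique h2 h3

/-- Coarse equivariance passes to the boundary. -/
theorem IsBd.equi {f : ℍ → ℍ} {φ : ℂ → ℂ} (h : IsBd f φ) {A B : SL(2, ℝ)}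
    (hc : ∃ C : ℝ, ∀ z, dist (f (A • z)) (B • f z) ≤ C) {ξ : ℂ} (hξ : ‖ξ‖ = 1) :
    φ (mobA A ξ) = mobA B (φ ξ) := by
  have h1 : IsBd (f ∘ fun z => A • z) (φ ∘ mobA A) := (isBd_smul A).comp h
  have h2 : IsBd ((fun z => B • z) ∘ f) (mobA B ∘ φ) := h.comp (isBd_smul B)
  have h3 : IsBd (f ∘ fun z => A • z) (mobA B ∘ φ) := h2.coarse hc
  exact h1.unique h3 hξ

end Pool.Agent.MC.DE
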