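import Pool.Agent.P.MP_2677b3_gt.DeBdA
import Pool.Agent.P.MP_2677b3_gt.DeBdB

open UpperHalfPlane Filter Topology Set
open scoped MatrixGroups ComplexConjugate Real

noncomputable section

namespace Pool.Agent.MC.DE

/-- The Hoelder estimate for a boundary map. -/
def DebdcEst (C K : ℝ) (f : ℍ → ℍ) (φ : ℂ → ℂ) : Prop :=
  ∀ (z : ℍ) (ξ : ℂ) (s : ℝ), ‖ξ‖ = 1 → 0 ≤ s → ‖kap z - ξ‖ ≤ Real.exp (-s) →
    ‖kap (f z) - φ ξ‖ ≤ C * Real.exp (-s / K)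

theorem debdc_small {K : ℝ} (hK : 1 ≤ K) (C : ℝ) {ε : ℝ} (hε : 0 < ε) :
    ∃ s : ℝ, 0 ≤ s ∧ C * Real.exp (-s / K) < ε := by
  have h1 : Tendsto (fun s : ℝ => -s / K) atTop atBot :=
    Tendsto.atBot_div_const (by linarith) tendsto_neg_atTop_atBot
  have h2 : Tendsto (fun s : ℝ => C * Real.exp (-s / K)) atTop (𝓝 (C * 0)) :=
    (Real.tendsto_exp_atBot.comp h1).const_mul C
  rw [mul_zero] at h2
  exact ((eventually_ge_atTop 0).and (h2.eventually (gt_mem_nhds hε))).exists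

theorem debdc_near (ξ : ℂ) {δ : ℝ} (hδ : 0 < δ) :
    ∀ᶠ z in comap kap (𝓝 ξ), ‖kap z - ξ‖ < δ := by
  have h : ∀ᶠ u in 𝓝 ξ, ‖u - ξ‖ < δ := by
    filter_upwards [Metric.ball_mem_nhds ξ hδ] with u hu
    rwa [Metric.mem_ball, dist_eq_norm] at hu
  exact tendsto_comap.eventually h

theorem debdc_isBd {C K : ℝ} (hK : 1 ≤ K) {f : ℍ → ℍ} {φ : ℂ → ℂ}
    (hn : ∀ ξ : ℂ, ‖ξ‖ = 1 → ‖φ ξ‖ = 1) (h : DebdcEst C K f φ) : IsBd f φ := by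
  refine ⟨hn, fun ξ hξ => ?_⟩
  rw [Metric.tendsto_nhds]
  intro ε hε
  obtain ⟨s, hs, hlt⟩ := debdc_small hK C hε
  filter_upwards [debdc_near ξ (Real.exp_pos (-s))] with z hz
  rw [dist_eq_norm]
  exact (h z ξ s hξ hs hz.le).trans_lt hlt

theorem debdc_hold {C K : ℝ} {f : ℍ → ℍ} {φ : ℂ → ℂ} (h : DebdcEst C K f φ) {x y : ℂ}
    (hx : ‖x‖ = 1) (hy : ‖y‖ = 1) {s : ℝ} (hs : 0 ≤ s) (hxy : ‖x - y‖ < Real.exp (-s)) :
    ‖φ x - φ y‖ ≤ 2 * C * Real.exp (-s / K) := by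
  have := neBot_kap hx
  obtain ⟨z, hz⟩ := (debdc_near x (sub_pos.mpr hxy)).exists
  have h0 := norm_nonneg (x - y)
  have h1 := h z x s hx hs (by linarith)
  have h2 : ‖kap z - y‖ ≤ ‖kap z - x‖ + ‖x - y‖ := norm_sub_le_norm_sub_add_norm_sub _ _ _
  have h3 := h z y s hy hs (by linarith)
  have h4 : ‖φ x - φ y‖ ≤ ‖φ x - kap (f z)‖ + ‖kap (f z) - φ y‖ :=
    norm_sub_le_norm_sub_add_norm_sub _ _ _
  rw [norm_sub_rev (φ x) (kap (f z))] at h4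
  linarith

theorem bd_inv {K : ℝ} {f g : ℍ → ℍ} (h : QIPair K f g) {φ ψ : ℂ → ℂ} (hφ : IsBd f φ)
    (hψ : IsBd g ψ) {ξ : ℂ} (hξ : ‖ξ‖ = 1) : ψ (φ ξ) = ξ := by
  have h1 : IsBd (g ∘ f) (ψ ∘ φ) := hφ.comp hψ
  have h2 : IsBd (g ∘ f) (fun ξ => ξ) := isBd_id.coarse ⟨K, fun z => h.gf z⟩
  exact h1.unique h2 hξ

theorem debdc_ex {K : ℝ} (hK : 1 ≤ K) {f g : ℍ → ℍ} (h : QIPair K f g) :
    ∃ φ : ℂ → ℂ, IsBd f φ ∧ ContinuousOn φ (Metric.sphere 0 1) := by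
  obtain ⟨C, -, hC⟩ := bd_main K (dist (g I) I) hK
  obtain ⟨φ, hn, he⟩ := hC f g h le_rfl
  refine ⟨φ, debdc_isBd hK hn he, ?_⟩
  rw [Metric.continuousOn_iff]
  intro y hy ε hε
  obtain ⟨s, hs, hlt⟩ := debdc_small hK (2 * C) hε
  refine ⟨Real.exp (-s), Real.exp_pos _, fun x hx hxy => ?_⟩
  rw [dist_eq_norm] at hxy ⊢
  rw [mem_sphere_zero_iff_norm] at hx hy
  exact (debdc_hold he hx hy hs hxy).trans_lt hlt

theorem exists_bd {K : ℝ} {f g : ℍ → ℍ} (h : QIPair K f g) :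
    ∃ φ : ℂ → ℂ, IsBd f φ ∧ ContinuousOn φ (Metric.sphere 0 1) ∧ InjOn φ (Metric.sphere 0 1) := by
  have h' := qi_mono h (le_max_left K 1)
  obtain ⟨φ, h1, h2⟩ := debdc_ex (le_max_right K 1) h'
  obtain ⟨ψ, h3, -⟩ := debdc_ex (le_max_right K 1) (qi_symm h')
  refine ⟨φ, h1, h2, fun x hx y hy hxy => ?_⟩
  rw [mem_sphere_zero_iff_norm] at hx hy
  rw [← bd_inv h h1 h3 hx, hxy, bd_inv h h1 h3 hy]

theorem sep_bd (K : ℝ) : ∃ η : ℝ, 0 < η ∧ ∀ (f g : ℍ → ℍ) (φ : ℂ → ℂ), QIPair K f g → f I = I →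
    IsBd f φ → Sep η φ := by
  have hK : 1 ≤ max K 1 := le_max_right K 1
  obtain ⟨C, -, hC⟩ := bd_main (max K 1) 0 hK
  obtain ⟨s₀, hs, hlt⟩ := debdc_small hK (2 * C) (show (0 : ℝ) < 1 / 2 by norm_num)
  refine ⟨Real.exp (-s₀), Real.exp_pos _, fun f g φ h hI hφ s t hst => ?_⟩
  obtain ⟨ψ, hn, he⟩ := hC g f (qi_symm (qi_mono h (le_max_left K 1))) (by rw [hI, dist_self])
  have hψ : IsBd g ψ := debdc_isBd hK hn he
  by_contra hcon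
  have h1 := debdc_hold he (hφ.norm _ (norm_E s)) (hφ.norm _ (norm_E t)) hs (not_le.mp hcon)
  rw [bd_inv h hφ hψ (norm_E s), bd_inv h hφ hψ (norm_E t)] at h1
  linarith

end Pool.Agent.MC.DE
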