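import Pool.Agent.P.MP_2677b3_gt.DeE

open UpperHalfPlane Filter Topology Set
open scoped MatrixGroups ComplexConjugate Real

noncomputable section

namespace Pool.Agent.MC.DE

theorem deoria_ne {c : ℝ} (h0 : 0 < c) (h1 : c < 2 * π) (t : ℝ) (k : ℤ) :
    t + c ≠ t + k * (2 * π) := by
  intro e
  have e' : c = k * (2 * π) := by linarith
  have hp : 0 < 2 * π := Real.two_pi_pos
  rcases le_or_gt k 0 with hk | hk
  · have : (k : ℝ) ≤ 0 := by exact_mod_cast hk
    nlinarith
  · have : (1 : ℝ) ≤ k := by exact_mod_cast hk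
    nlinarith

theorem deoria_mono {h : ℝ → ℝ} (hc : Continuous h)
    (key : ∀ s t : ℝ, (∃ k : ℤ, h s = h t + k * (2 * π)) → ∃ k : ℤ, s = t + k * (2 * π))
    {n : ℤ} (per : ∀ t, h (t + 2 * π) = h t + n * (2 * π))
    (pos : ∀ t u : ℝ, 0 < u → u < 2 * π → h t < h (t + u)) :
    StrictMono h ∧ ∀ t, h (t + 2 * π) = h t + 2 * π := by
  have hp : 0 < π := Real.pi_pos
  have hm : ∀ N : ℕ, ∀ s t : ℝ, s < t → t - s ≤ N * π → h s < h t := by
    intro N
    induction N with
    | zero => intro s t h1 h2; simp at h2; linarith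
    | succ N ih =>
      intro s t h1 h2
      rcases le_or_gt (t - s) π with h3 | h3
      · have := pos s (t - s) (by linarith) (by linarith)
        rwa [add_sub_cancel] at this
      · have a1 := pos s π hp (by linarith)
        have a2 := ih (s + π) t (by linarith) (by push_cast at h2; linarith)
        linarith
  have hs : StrictMono h := by
    intro s t hst
    obtain ⟨N, hN⟩ := exists_nat_ge ((t - s) / π)
    exact hm N s t hst ((div_le_iff₀ hp).1 hN)
  refine ⟨hs, ?_⟩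
  have h1 : h 0 < h (0 + 2 * π) := hs (by linarith)
  have hn0 : 0 < n := by
    rw [per] at h1
    by_contra hn
    have : (n : ℝ) ≤ 0 := by exact_mod_cast not_lt.1 hn
    nlinarith
  have hn1 : n ≤ 1 := by
    by_contra hn
    have h2 : (2 : ℝ) ≤ n := by exact_mod_cast (by omega : (2 : ℤ) ≤ n)
    have h3 : h 0 + 2 * π ∈ Ioo (h 0) (h (0 + 2 * π)) := by
      rw [per]
      constructor <;> nlinarith
    obtain ⟨c, hc1, hc2⟩ := intermediate_value_Ioo (by linarith : (0 : ℝ) ≤ 0 + 2 * π)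
      hc.continuousOn h3
    obtain ⟨k, hk⟩ := key c 0 ⟨1, by rw [hc2]; simp⟩
    exact deoria_ne hc1.1 (by linarith [hc1.2]) 0 k (by linarith)
  have : n = 1 := by omega
  intro t
  rw [per, this]
  simp

theorem deoria_coe (t : ℝ) : ((Circle.exp t : Circle) : ℂ) = E t := by
  rw [Circle.coe_exp]; rfl

theorem pos_or_neg {φ : ℂ → ℂ} (hc : ContinuousOn φ (Metric.sphere 0 1))
    (hn : ∀ ξ : ℂ, ‖ξ‖ = 1 → ‖φ ξ‖ = 1) (hi : InjOn φ (Metric.sphere 0 1)) :
    PosHom φ ∨ NegHom φ := by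
  have hE : ∀ t : ℝ, E t ∈ Metric.sphere (0 : ℂ) 1 := fun t => by
    rw [mem_sphere_zero_iff_norm]; exact norm_E t
  have hcc : Continuous fun t : ℝ => φ (E t) := hc.comp_continuous continuous_E hE
  have hmem : ∀ t : ℝ, φ (E t) ∈ Submonoid.unitSphere ℂ := fun t => by
    show φ (E t) ∈ Metric.sphere (0 : ℂ) 1
    rw [mem_sphere_zero_iff_norm]; exact hn _ (norm_E t)
  let f : C(ℝ, Circle) := ⟨fun t => ⟨φ (E t), hmem t⟩, hcc.subtype_mk hmem⟩
  obtain ⟨e₀, he₀⟩ := Circle.exp_surjective (f 0)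
  obtain ⟨H, ⟨_, hH⟩, _⟩ := Circle.isCoveringMap_exp.existsUnique_continuousMap_lifts f 0 e₀ he₀
  have hh : ∀ t, φ (E t) = E (H t) := by
    intro t
    rw [← deoria_coe (H t)]
    exact (congrArg (fun z : Circle => (z : ℂ)) (congrFun hH t)).symm
  have key : ∀ s t : ℝ, (∃ k : ℤ, H s = H t + k * (2 * π)) → ∃ k : ℤ, s = t + k * (2 * π) := by
    intro s t hk
    have h1 : E (H s) = E (H t) := E_eq_iff.2 hk
    rw [← hh, ← hh] at h1
    exact E_eq_iff.1 (hi (hE s) (hE t) h1)
  have h0 : E (H (0 + 2 * π)) = E (H 0) := by rw [← hh, ← hh, E_per]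
  obtain ⟨n, hn0⟩ := E_eq_iff.1 h0
  have per : ∀ t, H (t + 2 * π) = H t + n * (2 * π) := by
    have := Circle.isCoveringMap_exp.eq_of_comp_eq (g₁ := fun t : ℝ => H (t + 2 * π))
      (g₂ := fun t : ℝ => H t + n * (2 * π)) (by fun_prop) (by fun_prop) (by
        funext t
        apply Circle.ext
        show ((Circle.exp (H (t + 2 * π)) : Circle) : ℂ) =
          ((Circle.exp (H t + n * (2 * π)) : Circle) : ℂ)
        rw [deoria_coe, deoria_coe, ← hh, E_per, hh]
        exact (E_eq_iff.2 ⟨n, rfl⟩).symm) 0 hn0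
    exact fun t => congrFun this t
  have ne : ∀ t u : ℝ, 0 < u → u < 2 * π → H (t + u) ≠ H t := by
    intro t u h1 h2 e
    obtain ⟨k, hk⟩ := key (t + u) t ⟨0, by simp [e]⟩
    exact deoria_ne h1 h2 t k hk
  have hS : IsPreconnected ((univ : Set ℝ) ×ˢ Ioo (0 : ℝ) (2 * π)) :=
    isPreconnected_univ.prod isPreconnected_Ioo
  have c1 : Continuous fun x : ℝ × ℝ => H (x.1 + x.2) := by fun_prop
  have c2 : Continuous fun x : ℝ × ℝ => H x.1 := by fun_prop
  have hp : 0 < π := Real.pi_pos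
  have m0 : ((0, π) : ℝ × ℝ) ∈ (univ : Set ℝ) ×ˢ Ioo (0 : ℝ) (2 * π) :=
    ⟨mem_univ _, hp, by show π < 2 * π; linarith⟩
  rcases le_total (H 0) (H (0 + π)) with hle | hle
  · left
    have pos : ∀ t u : ℝ, 0 < u → u < 2 * π → H t < H (t + u) := by
      intro t u h1 h2
      by_contra hlt
      obtain ⟨x, hx, e⟩ := hS.intermediate_value₂ (a := (t, u)) (b := (0, π))
        ⟨mem_univ _, h1, h2⟩ m0 c1.continuousOn c2.continuousOn (not_lt.1 hlt) hle
      exact ne x.1 x.2 hx.2.1 hx.2.2 e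
    obtain ⟨a1, a2⟩ := deoria_mono H.continuous key per pos
    exact ⟨H, H.continuous, a1, a2, hh⟩
  · right
    have pos : ∀ t u : ℝ, 0 < u → u < 2 * π → -H t < -H (t + u) := by
      intro t u h1 h2
      by_contra hlt
      have hlt' : H t ≤ H (t + u) := by linarith [not_lt.1 hlt]
      obtain ⟨x, hx, e⟩ := hS.intermediate_value₂ (a := (0, π)) (b := (t, u))
        m0 ⟨mem_univ _, h1, h2⟩ c1.continuousOn c2.continuousOn hle hlt'
      exact ne x.1 x.2 hx.2.1 hx.2.2 e
    obtain ⟨a1, a2⟩ := deoria_mono (h := fun t => -H t) H.continuous.neg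
      (fun s t ⟨k, hk⟩ => key s t ⟨-k, by push_cast; linarith⟩) (n := -n)
      (fun t => by rw [per]; push_cast; ring) pos
    refine ⟨H, H.continuous, fun s t hst => ?_, fun t => ?_, hh⟩
    · have := a1 hst
      simp only at this
      linarith
    · have := a2 t
      linarith

end Pool.Agent.MC.DE
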