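import Pool.Agent.P.MP_2677b3_gt.DeDefs

open UpperHalfPlane Filter Topology Set
open scoped MatrixGroups ComplexConjugate Real

noncomputable section

namespace Pool.Agent.MC.DE

theorem isLocalHomeomorph_of_qc {K : ℝ} {F : ℍ → ℍ} (h : IsQC K F) : IsLocalHomeomorph F := by
  obtain ⟨Φ, h1, h2, h3⟩ := h
  have ho : IsOpen {z : ℂ | 0 < z.im} := isOpen_lt continuous_const Complex.continuous_im
  have hΦ : IsLocalHomeomorphOn Φ {z : ℂ | 0 < z.im} := by
    intro z hz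
    have c1 : ContDiffAt ℝ 1 Φ z := h2.contDiffAt (ho.mem_nhds hz)
    have c2 : (fderiv ℝ Φ z).det ≠ 0 := (h3 ⟨z, hz⟩).1.ne'
    have c3 : HasFDerivAt Φ
        ((fderiv ℝ Φ z).toContinuousLinearEquivOfDetNeZero c2 : ℂ →L[ℝ] ℂ) z := by
      rw [ContinuousLinearMap.coe_toContinuousLinearEquivOfDetNeZero]
      exact (c1.differentiableAt one_ne_zero).hasFDerivAt
    exact ⟨c1.toOpenPartialHomeomorph Φ c3 one_ne_zero,
      c1.mem_toOpenPartialHomeomorph_source c3 one_ne_zero, rfl⟩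
  have hc : IsLocalHomeomorph ((↑) : ℍ → ℂ) :=
    UpperHalfPlane.isOpenEmbedding_coe.isLocalHomeomorph
  have e : ((↑) : ℍ → ℂ) ∘ F = Φ ∘ ((↑) : ℍ → ℂ) := funext fun z => (h1 z).symm
  have hcomp : IsLocalHomeomorph (((↑) : ℍ → ℂ) ∘ F) := by
    rw [e, isLocalHomeomorph_iff_isLocalHomeomorphOn_univ]
    exact hΦ.comp hc.isLocalHomeomorphOn fun z _ => z.im_pos
  exact hcomp.of_comp hc
    (UpperHalfPlane.isOpenEmbedding_coe.isInducing.continuous_iff.2 hcomp.continuous)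

end Pool.Agent.MC.DE
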