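import Pool.Agent.P.MP_2677b3_gt.DeDefs

open UpperHalfPlane Filter Topology Set
open scoped MatrixGroups ComplexConjugate Real

noncomputable section

namespace Pool.Agent.MC.DE

theorem homeo_of_proper {F : ℍ → ℍ} (h : IsLocalHomeomorph F)
    (hp : ∀ R : ℝ, ∃ R' : ℝ, ∀ z, dist (F z) I ≤ R → dist z I ≤ R') :
    ∃ e : ℍ ≃ₜ ℍ, ∀ z, e z = F z := by
  have h1 : IsProperMap F := by
    refine isProperMap_iff_isCompact_preimage.2 ⟨h.continuous, fun K hK => ?_⟩
    obtain ⟨R, hR⟩ := hK.isBounded.subset_closedBall I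
    obtain ⟨R', hR'⟩ := hp R
    exact (isCompact_closedBall I R').of_isClosed_subset (hK.isClosed.preimage h.continuous)
      fun z hz => hR' z (hR hz)
  have h2 : ∀ x, (F ⁻¹' {x}).Finite := fun x => by
    refine (h1.isCompact_preimage isCompact_singleton).finite ?_
    refine isDiscrete_iff_forall_mem_exists_isOpen.2 fun y hy => ?_
    obtain ⟨U, hU, hyU, hi⟩ := h.isLocallyInjective y
    refine ⟨U, hU, Subset.antisymm (fun z hz => hi hz.1 hyU ?_) ?_⟩
    · exact (show F z = x from hz.2).trans (show F y = x from hy).symm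
    · rintro _ rfl
      exact ⟨hyU, hy⟩
  have h3 : IsCoveringMap F := isCoveringMap_iff_isCoveringMapOn_univ.2
    (h1.isClosedMap.isCoveringMapOn_of_isLocalHomeomorphOn (fun x _ => h2 x) h.isLocalHomeomorphOn)
  obtain ⟨s, ⟨h4, h5⟩, -⟩ := h3.existsUnique_continuousMap_lifts (ContinuousMap.id ℍ) (F I) I rfl
  have h6 : ∀ z, F (s z) = z := fun z => congrFun h5 z
  have h7 : s ∘ F = id := h3.eq_of_comp_eq (s.continuous.comp h.continuous) continuous_id
    (funext fun z => h6 (F z)) I h4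
  exact ⟨⟨⟨F, s, fun z => congrFun h7 z, h6⟩, h.continuous, s.continuous⟩, fun _ => rfl⟩

end Pool.Agent.MC.DE
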