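import Pool.Agent.P.MP_2677b3_gt.DeDisc
import Pool.Agent.P.MP_2677b3_gt.DeBdC
import Pool.Agent.P.MP_2677b3_gt.DeOriA
import Pool.Agent.P.MP_2677b3_gt.DeTopA
import Pool.Agent.P.MP_2677b3_gt.DeTopB

open UpperHalfPlane Filter Topology Set
open scoped MatrixGroups

namespace Pool.Agent.MC

namespace DE

theorem de_norm {η r K' : ℝ} {K : ℝ}
    (hη : ∀ (f g : ℍ → ℍ) (φ : ℂ → ℂ), QIPair K f g → f I = I → IsBd f φ → Sep η φ)
    (hr : r < 1)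
    (hpt : ∀ φ : ℂ → ℂ, PosHom φ → Sep η φ → ‖ext φ 0‖ ≤ r ∧ QCAt K' (ext φ) 0)
    {f g : ℍ → ℍ} (h : QIPair K f g) {φ : ℂ → ℂ} (hb : IsBd f φ) (hp : PosHom φ) (z : ℍ) :
    dist (kapi (ext φ (kap z))) (f z) ≤ -Real.log ((1 - r) / 2) ∧ QCAt K' (ext φ) (kap z) := by
  obtain ⟨A, hA⟩ := MulAction.exists_smul_eq SL(2, ℝ) I z
  obtain ⟨B, hB⟩ := MulAction.exists_smul_eq SL(2, ℝ) I (f z)
  have hq := qi_conj h A B⁻¹
  have hb' : IsBd (fun w => B⁻¹ • f (A • w)) (mobA B⁻¹ ∘ φ ∘ mobA A) :=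
    ((isBd_smul A).comp hb).comp (isBd_smul B⁻¹)
  set ψ : ℂ → ℂ := mobA B⁻¹ ∘ φ ∘ mobA A with hψ
  have hpψ : PosHom ψ := ((posHom_mob (beA_lt A)).comp hp).comp (posHom_mob (beA_lt B⁻¹))
  have hs : Sep η ψ := hη _ _ ψ hq (by simp [hA, ← hB]) hb'
  obtain ⟨h1, h2⟩ := hpt ψ hpψ hs
  have hnat : ∀ u : ℂ, ‖u‖ < 1 → ext φ (mobA A u) = mobA B (ext ψ u) := fun u hu =>
    ext_nat hp hpψ (beA_lt A) (beA_lt B) (fun ξ hξ => by
      have h3 : ‖φ (mobA A ξ)‖ = 1 := hb.norm _ (mob_one (beA_lt A) hξ)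
      exact (mobA_inv' B h3.le).symm) hu
  have hz0 : mobA A 0 = kap z := by rw [← kap_I, ← kap_smul, hA]
  have hv1 : ‖ext ψ 0‖ < 1 := h1.trans_lt hr
  constructor
  · have e1 : ext φ (kap z) = kap (B • kapi (ext ψ 0)) := by
      rw [kap_smul, kap_kapi hv1, ← hz0, hnat 0 (by simp)]
    rw [e1, kapi_kap, ← hB, dist_smul]
    exact dist_le_of_kap hr _ (by rw [kap_kapi hv1]; exact h1)
  · have e0 : mobA A⁻¹ (kap z) = 0 := by rw [← hz0, mobA_inv A (by simp)]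
    have h3 : QCAt K' (mobA B ∘ ext ψ ∘ mobA A⁻¹) (kap z) := by
      refine QCAt.conf (by rw [e0]; exact h2) (mob_analyticAt (beA_lt _) (kap_lt z).le)
        (mob_deriv_ne (beA_lt _) (kap_lt z).le) ?_ ?_
      · rw [e0]; exact mob_analyticAt (beA_lt _) hv1.le
      · rw [e0]; exact mob_deriv_ne (beA_lt _) hv1.le
    refine h3.congr ?_
    have hb1 : ∀ᶠ u : ℂ in 𝓝 (kap z), ‖u‖ < 1 :=
      (isOpen_lt continuous_norm continuous_const).mem_nhds (kap_lt z)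
    filter_upwards [hb1] with u hu
    have := hnat (mobA A⁻¹ u) (mob_lt (beA_lt _) hu)
    rw [mobA_inv' A hu.le] at this
    exact this

theorem de_one (K : ℝ) : ∃ K' : ℝ, ∀ f g : ℍ → ℍ, QIPair K f g → (∃ φ, IsBd f φ ∧ PosHom φ) →
    ∃ F : ℍ ≃ₜ ℍ, IsQC K' F ∧ ∀ A B : SL(2, ℝ),
      (∃ C : ℝ, ∀ z, dist (f (A • z)) (B • f z) ≤ C) → ∀ z, F (A • z) = B • F z := by
  obtain ⟨η, hη0, hη⟩ := sep_bd K
  obtain ⟨r, K', hr, hpt⟩ := disc_pt hη0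
  refine ⟨K', fun f g h ⟨φ, hb, hp⟩ => ?_⟩
  have key := de_norm hη hr hpt h hb hp
  set F : ℍ → ℍ := fun z => kapi (ext φ (kap z)) with hF
  have hlt : ∀ z : ℍ, ‖ext φ (kap z)‖ < 1 := fun z => (ext_spec hp (kap_lt z)).1
  have hQ : ∀ z : ℍ, QCAt K' (cayi ∘ ext φ ∘ cay) z := fun z =>
    QCAt.conf (B := cay) (key z).2 (cay_analyticAt z) (cay_deriv_ne z)
      (cayi_analyticAt (hlt z)) (cayi_deriv_ne (hlt z))
  have hqc : IsQC K' F := by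
    refine ⟨cayi ∘ ext φ ∘ cay, fun z => (coe_kapi (hlt z)).symm, fun z hz => ?_,
      fun z => (hQ z).2⟩
    exact (hQ ⟨z, hz⟩).1.contDiffWithinAt
  obtain ⟨e, he⟩ := homeo_of_proper (isLocalHomeomorph_of_qc hqc) (fun R => by
    obtain ⟨R', hR'⟩ := qi_proper h (R + -Real.log ((1 - r) / 2))
    refine ⟨R', fun z hz => hR' z ?_⟩
    have h1 := (key z).1
    have h2 := dist_triangle_left (f z) I (F z)
    linarith)
  have hef : (e : ℍ → ℍ) = F := funext he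
  refine ⟨e, hef ▸ hqc, fun A B hc z => ?_⟩
  rw [he, he]
  apply kap_inj
  rw [kap_smul, kap_kapi (hlt _), kap_kapi (hlt _), kap_smul]
  exact ext_nat hp hp (beA_lt A) (beA_lt B) (fun ξ hξ => hb.equi hc hξ) (kap_lt z)

theorem de_neg {K : ℝ} {f g : ℍ → ℍ} (h : QIPair K f g) (hn : ¬ ∃ φ, IsBd f φ ∧ PosHom φ) :
    ∃ φ, IsBd f φ ∧ NegHom φ := by
  obtain ⟨φ, hb, hc, hi⟩ := exists_bd h
  rcases pos_or_neg hc hb.norm hi with hp | hp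
  · exact absurd ⟨φ, hb, hp⟩ hn
  · exact ⟨φ, hb, hp⟩

end DE

open DE in
/-- Douady-Earle interface.  `Pos f` is to mean: the boundary homeomorphism of `f` preserves the
orientation of the circle. -/
theorem de_interface : ∃ Pos : (ℍ → ℍ) → Prop,
    (∀ K : ℝ, ∃ K' : ℝ, ∀ f g, QIPair K f g → Pos f →
      ∃ F : ℍ ≃ₜ ℍ, IsQC K' F ∧ ∀ A B : SL(2, ℝ),
        (∃ C : ℝ, ∀ z, dist (f (A • z)) (B • f z) ≤ C) → ∀ z, F (A • z) = B • F z) ∧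
    (∀ (K K' : ℝ) f g t t', QIPair K f g → QIPair K' t t' → ¬ Pos f → ¬ Pos t → Pos (t ∘ f)) ∧
    (∀ (K : ℝ) t, QIPair K t t → Pos t →
      (∃ C : ℝ, ∀ n : ℕ, ∃ z : ℍ, (n : ℝ) ≤ dist z I ∧ dist (t z) z ≤ C) →
      ∀ A B : SL(2, ℝ), (∃ C : ℝ, ∀ z, dist (t (A • z)) (B • t z) ≤ C) → ∀ z : ℍ, A • z = B • z) := by
  refine ⟨fun f => ∃ φ, IsBd f φ ∧ PosHom φ, de_one, ?_, ?_⟩
  · intro K K' f g t t' h h' hf ht
    obtain ⟨φ, hb, hn⟩ := de_neg h hf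
    obtain ⟨ψ, hb', hn'⟩ := de_neg h' ht
    exact ⟨ψ ∘ φ, hb.comp hb', hn.comp hn'⟩
  · rintro K t h ⟨φ, hb, hp⟩ hc A B he z
    have hid : ∀ ξ : ℂ, ‖ξ‖ = 1 → φ ξ = ξ := fun ξ hξ =>
      hp.invol (fun x hx => bd_inv h hb hb hx) (hb.fix hc) hξ
    apply kap_inj
    rw [kap_smul, kap_smul]
    refine mob_ext (beA_lt A) (beA_lt B) (fun ζ hζ => ?_) (kap_lt z)
    have h1 := hb.equi he hζ
    rw [hid _ hζ, hid (mobA A ζ) (mob_one (beA_lt A) hζ)] at h1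
    exact h1

end Pool.Agent.MC
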