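import Pool.Agent.P.MP_2677b3_gt.DeHyp

open UpperHalfPlane Filter Topology Set
open scoped MatrixGroups ComplexConjugate Real

noncomputable section

namespace Pool.Agent.MC.DE

theorem debda_low {K D : ℝ} (hK : 1 ≤ K) {f g : ℍ → ℍ} (h : QIPair K f g)
    (hD : dist (g I) I ≤ D) (z : ℍ) {s : ℝ} (hs : s ≤ dist z I) :
    s / K - (2 * K + D) / K ≤ dist (f z) I := by
  have hK0 : 0 < K := by linarith
  have h1 : dist z I ≤ dist z (g (f z)) + dist (g (f z)) (g I) + dist (g I) I :=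
    dist_triangle4 _ _ _ _
  have h2 := h.gf z
  rw [dist_comm] at h2
  have h3 := h.cg (f z) I
  rw [← sub_div, div_le_iff₀ hK0]
  nlinarith

theorem debda_dist_ray_I {ζ : ℂ} (hζ : ‖ζ‖ = 1) {s : ℝ} (hs : 0 ≤ s) : dist (ray ζ s) I = s := by
  have := dist_ray hζ s 0
  rw [ray_zero, sub_zero, abs_of_nonneg hs] at this
  exact this

theorem debda_A {K D : ℝ} (hK : 1 ≤ K) {f g : ℍ → ℍ} (h : QIPair K f g)
    (hD : dist (g I) I ≤ D) (z w : ℍ) (hzw : dist z w ≤ 2) {s : ℝ} (hz : s ≤ dist z I)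
    (hw : s ≤ dist w I) :
    ‖kap (f z) - kap (f w)‖ ≤
      2 * Real.exp (3 * K / 2 + (2 * K + D) / K) * Real.exp (-s / K) := by
  have hK0 : 0 < K := by linarith
  have h1 := debda_low hK h hD z hz
  have h2 := debda_low hK h hD w hw
  have h3 := h.cf z w
  have h4 : dist (f z) (f w) ≤ 3 * K := by nlinarith
  refine (kap_sub_le _ _).trans ?_
  rw [mul_assoc, ← Real.exp_add]
  refine mul_le_mul_of_nonneg_left (Real.exp_le_exp.2 ?_) (by norm_num)
  rw [neg_div]
  linarith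

theorem debda_B {K C1 : ℝ} (hK : 1 ≤ K) (hC1 : 0 < C1) (u : ℝ → ℂ)
    (hu : ∀ s s' : ℝ, 0 ≤ s → s ≤ s' → s' ≤ s + 1 → ‖u s - u s'‖ ≤ C1 * Real.exp (-s / K))
    (s s' : ℝ) (hs : 0 ≤ s) (hss : s ≤ s') :
    ‖u s - u s'‖ ≤ C1 / (1 - Real.exp (-1 / K)) * Real.exp (-s / K) := by
  have hK0 : 0 < K := by linarith
  set q := Real.exp (-1 / K) with hq
  have hq0 : 0 < q := Real.exp_pos _
  have hq1 : q < 1 := by
    rw [hq, ← Real.exp_zero]
    exact Real.exp_lt_exp.2 (div_neg_of_neg_of_pos (by norm_num) hK0)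
  have hq2 : 0 < 1 - q := by linarith
  set C2 := C1 / (1 - q) with hC2
  have hC2e : C2 * (1 - q) = C1 := by rw [hC2]; field_simp
  have hC20 : 0 < C2 := div_pos hC1 hq2
  have hle : C1 ≤ C2 := by nlinarith
  have key : ∀ n : ℕ, ∀ s : ℝ, 0 ≤ s → s ≤ s' → s' ≤ s + n →
      ‖u s - u s'‖ ≤ C2 * Real.exp (-s / K) := by
    intro n
    induction n with
    | zero =>
      intro s _ h1 h2
      have : s = s' := le_antisymm h1 (by simpa using h2)
      rw [this, sub_self, norm_zero]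
      positivity
    | succ n ih =>
      intro s h0 h1 h2
      by_cases hc : s' ≤ s + 1
      · exact (hu s s' h0 h1 hc).trans
          (mul_le_mul_of_nonneg_right hle (Real.exp_pos _).le)
      · have hc' : s + 1 ≤ s' := (not_le.1 hc).le
        have a1 := hu s (s + 1) h0 (by linarith) le_rfl
        have a2 := ih (s + 1) (by linarith) hc' (by push_cast at h2; linarith)
        have a3 : Real.exp (-(s + 1) / K) = q * Real.exp (-s / K) := by
          rw [hq, ← Real.exp_add]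
          congr 1
          ring
        have a4 : ‖u s - u s'‖ ≤ ‖u s - u (s + 1)‖ + ‖u (s + 1) - u s'‖ :=
          norm_sub_le_norm_sub_add_norm_sub _ _ _
        rw [a3] at a2
        have a5 : C1 * Real.exp (-s / K) + C2 * (q * Real.exp (-s / K)) =
            C2 * Real.exp (-s / K) := by
          rw [← hC2e]; ring
        linarith
  obtain ⟨n, hn⟩ := exists_nat_ge (s' - s)
  exact key n s hs hss (by linarith)

theorem debda_exp_tendsto {K : ℝ} (hK : 1 ≤ K) (C : ℝ) :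
    Tendsto (fun n : ℕ => C * Real.exp (-(n : ℝ) / K)) atTop (𝓝 0) := by
  have hK0 : 0 < K := by linarith
  have h1 : Tendsto (fun n : ℕ => -(n : ℝ) / K) atTop atBot :=
    (tendsto_neg_atTop_atBot.comp tendsto_natCast_atTop_atTop).atBot_div_const hK0
  have h2 := (Real.tendsto_exp_atBot.comp h1).const_mul C
  rw [mul_zero] at h2
  exact h2

theorem debda_lim {K C2 : ℝ} (hK : 1 ≤ K) (u : ℝ → ℂ)
    (hu : ∀ s s' : ℝ, 0 ≤ s → s ≤ s' → ‖u s - u s'‖ ≤ C2 * Real.exp (-s / K)) :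
    Tendsto (fun n : ℕ => u n) atTop (𝓝 (limUnder atTop fun n : ℕ => u n)) := by
  refine CauchySeq.tendsto_limUnder ?_
  refine cauchySeq_of_le_tendsto_0' (fun n : ℕ => C2 * Real.exp (-(n : ℝ) / K)) ?_
    (debda_exp_tendsto hK C2)
  intro n m hnm
  rw [dist_eq_norm]
  exact hu n m (Nat.cast_nonneg n) (by exact_mod_cast hnm)

theorem debda_lim_le {K C2 : ℝ} (hK : 1 ≤ K) (u : ℝ → ℂ)
    (hu : ∀ s s' : ℝ, 0 ≤ s → s ≤ s' → ‖u s - u s'‖ ≤ C2 * Real.exp (-s / K))
    (s : ℝ) (hs : 0 ≤ s) :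
    ‖u s - limUnder atTop fun n : ℕ => u n‖ ≤ C2 * Real.exp (-s / K) := by
  have h1 := ((debda_lim hK u hu).const_sub (u s)).norm
  refine le_of_tendsto h1 ?_
  obtain ⟨n, hn⟩ := exists_nat_ge s
  filter_upwards [eventually_ge_atTop n] with m hm
  exact hu s m hs (hn.trans (by exact_mod_cast hm))

/-- Existence of the boundary map with a Hoelder estimate. -/
theorem bd_main (K D : ℝ) (hK : 1 ≤ K) : ∃ C : ℝ, 0 < C ∧ ∀ f g : ℍ → ℍ, QIPair K f g →
    dist (g I) I ≤ D → ∃ φ : ℂ → ℂ, (∀ ξ : ℂ, ‖ξ‖ = 1 → ‖φ ξ‖ = 1) ∧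
      ∀ (z : ℍ) (ξ : ℂ) (s : ℝ), ‖ξ‖ = 1 → 0 ≤ s → ‖kap z - ξ‖ ≤ Real.exp (-s) →
        ‖kap (f z) - φ ξ‖ ≤ C * Real.exp (-s / K) := by
  have hK0 : 0 < K := by linarith
  set C1 := 2 * Real.exp (3 * K / 2 + (2 * K + D) / K) with hC1
  have hC10 : 0 < C1 := by positivity
  set C2 := C1 / (1 - Real.exp (-1 / K)) with hC2
  have hq1 : Real.exp (-1 / K) < 1 := by
    rw [← Real.exp_zero]
    exact Real.exp_lt_exp.2 (div_neg_of_neg_of_pos (by norm_num) hK0)
  have hC20 : 0 < C2 := div_pos hC10 (by linarith)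
  refine ⟨2 * C2 + C1, by positivity, fun f g h hD => ?_⟩
  have hB : ∀ ζ : ℂ, ‖ζ‖ = 1 → ∀ s s' : ℝ, 0 ≤ s → s ≤ s' →
      ‖kap (f (ray ζ s)) - kap (f (ray ζ s'))‖ ≤ C2 * Real.exp (-s / K) := by
    intro ζ hζ s s' hs hss
    refine debda_B hK hC10 (fun t => kap (f (ray ζ t))) ?_ s s' hs hss
    intro a b ha hab hb
    refine debda_A hK h hD _ _ ?_ ?_ ?_
    · rw [dist_ray hζ, abs_le]
      constructor <;> linarith
    · rw [debda_dist_ray_I hζ ha]
    · rw [debda_dist_ray_I hζ (ha.trans hab)]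
      exact hab
  refine ⟨fun ξ => limUnder atTop fun n : ℕ => kap (f (ray ξ n)), fun ξ hξ => ?_, ?_⟩
  · have h1 := (debda_lim hK (fun t => kap (f (ray ξ t))) (hB ξ hξ)).norm
    refine le_antisymm (le_of_tendsto' h1 fun n => (kap_lt _).le) ?_
    have h2 := (debda_exp_tendsto hK (2 * Real.exp ((2 * K + D) / K))).const_sub 1
    rw [sub_zero] at h2
    refine le_of_tendsto_of_tendsto' h2 h1 fun n => ?_
    have a1 := one_sub_kap_le (f (ray ξ n))
    have a2 := debda_low hK h hD (ray ξ n) (debda_dist_ray_I hξ (Nat.cast_nonneg n)).ge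
    have a3 : Real.exp (-dist (f (ray ξ n)) I) ≤
        Real.exp ((2 * K + D) / K) * Real.exp (-(n : ℝ) / K) := by
      rw [← Real.exp_add]
      refine Real.exp_le_exp.2 ?_
      rw [neg_div]
      linarith
    show 1 - 2 * Real.exp ((2 * K + D) / K) * Real.exp (-(n : ℝ) / K) ≤ ‖kap (f (ray ξ n))‖
    linarith
  · intro z ξ s hξ hs hz
    obtain ⟨ζ, hζ, hzζ⟩ := exists_ray z
    have b1 : 1 - ‖kap z‖ ≤ Real.exp (-s) := by
      have := norm_sub_norm_le ξ (kap z)
      rw [hξ, norm_sub_rev] at this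
      linarith
    have b2 : s ≤ dist z I := by
      have := Real.exp_le_exp.1 ((le_one_sub_kap z).trans b1)
      linarith
    have b3 : ‖ζ - kap z‖ = 1 - ‖kap z‖ := by
      have e1 : kap z = Real.tanh (dist z I / 2) * ζ := by
        conv_lhs => rw [← hzζ]
        exact kap_ray hζ _
      have e2 : ζ - kap z = ((1 - ‖kap z‖ : ℝ) : ℂ) * ζ := by
        rw [norm_kap z, e1]
        push_cast
        ring
      rw [e2, norm_mul, hζ, mul_one, Complex.norm_real, Real.norm_eq_abs,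
        abs_of_nonneg (by linarith [kap_lt z])]
    have b4 : ‖ζ - ξ‖ ≤ 2 * Real.exp (-s) := by
      have := norm_sub_le_norm_sub_add_norm_sub ζ (kap z) ξ
      linarith
    have b5 : ‖ζ - ξ‖ * Real.exp s ≤ 4 := by
      have e1 : Real.exp (-s) * Real.exp s = 1 := by rw [← Real.exp_add]; simp
      have e2 := mul_le_mul_of_nonneg_right b4 (Real.exp_pos s).le
      nlinarith
    have c1 := hB ζ hζ s (dist z I) hs b2
    rw [hzζ, norm_sub_rev] at c1
    have c2 := debda_A hK h hD _ _ (dist_ray_ray hζ hξ hs b5) (debda_dist_ray_I hζ hs).ge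
      (debda_dist_ray_I hξ hs).ge
    have c3 := debda_lim_le hK (fun t => kap (f (ray ξ t))) (hB ξ hξ) s hs
    have c4 := norm_sub_le_norm_sub_add_norm_sub (kap (f z)) (kap (f (ray ζ s)))
      (limUnder atTop fun n : ℕ => kap (f (ray ξ n)))
    have c5 := norm_sub_le_norm_sub_add_norm_sub (kap (f (ray ζ s))) (kap (f (ray ξ s)))
      (limUnder atTop fun n : ℕ => kap (f (ray ξ n)))
    rw [← hC1] at c2
    show ‖kap (f z) - limUnder atTop fun n : ℕ => kap (f (ray ξ n))‖ ≤ _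
    have c6 : (2 * C2 + C1) * Real.exp (-s / K) =
        C2 * Real.exp (-s / K) + (C1 * Real.exp (-s / K) + C2 * Real.exp (-s / K)) := by ring
    rw [c6]
    linarith

end Pool.Agent.MC.DE
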