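import Pool.Agent.P.MP_2677b3_gt.DeMob

open UpperHalfPlane Filter Topology Set
open scoped MatrixGroups ComplexConjugate Real

noncomputable section

namespace Pool.Agent.MC.DE

theorem decay_add_ne (z : ℍ) : (z : ℂ) + Complex.I ≠ 0 := by
  intro h
  have h1 := congrArg Complex.im h
  simp only [Complex.add_im, coe_im, Complex.I_im, Complex.zero_im] at h1
  linarith [z.im_pos]

theorem decay_one_sub_ne {u : ℂ} (hu : ‖u‖ < 1) : 1 - u ≠ 0 := by
  intro h
  have : u = 1 := by linear_combination -h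
  rw [this, norm_one] at hu
  exact lt_irrefl _ hu

theorem decay_norm (z : ℍ) : (1 - ‖kap z‖ ^ 2) * ‖(z : ℂ) + Complex.I‖ ^ 2 = 4 * z.im := by
  have h := norm_ne_zero_iff.2 (decay_add_ne z)
  rw [kap, cay, norm_div, div_pow, sub_mul, one_mul, div_mul_cancel₀ _ (pow_ne_zero 2 h),
    Complex.sq_norm, Complex.sq_norm, Complex.normSq_apply, Complex.normSq_apply]
  simp only [Complex.add_re, Complex.add_im, Complex.sub_re, Complex.sub_im, coe_re, coe_im,
    Complex.I_re, Complex.I_im]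
  ring

theorem decay_det (A : SL(2, ℝ)) : A 0 0 * A 1 1 - A 0 1 * A 1 0 = 1 := by
  have := A.det_coe
  rwa [Matrix.det_fin_two] at this

theorem decay_al (A : SL(2, ℝ)) :
    alA A = ((A 0 0 : ℝ) + (A 1 1 : ℝ)) / 2 + ((A 0 1 : ℝ) - (A 1 0 : ℝ)) / 2 * Complex.I := by
  apply Complex.ext <;> simp [alA]

theorem decay_be (A : SL(2, ℝ)) :
    beA A = ((A 0 0 : ℝ) - (A 1 1 : ℝ)) / 2 - ((A 0 1 : ℝ) + (A 1 0 : ℝ)) / 2 * Complex.I := by
  apply Complex.ext <;> simp [beA]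
  ring

theorem decay_al_conj (A : SL(2, ℝ)) :
    conj (alA A) =
      ((A 0 0 : ℝ) + (A 1 1 : ℝ)) / 2 - ((A 0 1 : ℝ) - (A 1 0 : ℝ)) / 2 * Complex.I := by
  apply Complex.ext <;> simp [alA]

theorem decay_be_conj (A : SL(2, ℝ)) :
    conj (beA A) =
      ((A 0 0 : ℝ) - (A 1 1 : ℝ)) / 2 + ((A 0 1 : ℝ) + (A 1 0 : ℝ)) / 2 * Complex.I := by
  apply Complex.ext <;> simp [beA]
  ring

theorem kap_lt (z : ℍ) : ‖kap z‖ < 1 := by
  have h := decay_norm z
  have h1 : 0 < ‖(z : ℂ) + Complex.I‖ ^ 2 := pow_pos (norm_pos_iff.2 (decay_add_ne z)) 2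
  have h2 : 0 < (1 - ‖kap z‖ ^ 2) * ‖(z : ℂ) + Complex.I‖ ^ 2 := by
    rw [h]
    linarith [z.im_pos]
  have h3 := (mul_pos_iff_of_pos_right h1).1 h2
  nlinarith [norm_nonneg (kap z)]

theorem kap_I : kap I = 0 := by
  simp [kap, cay]

theorem cayi_im {u : ℂ} (hu : ‖u‖ < 1) : 0 < (cayi u).im := by
  have h := Complex.normSq_pos.2 (decay_one_sub_ne hu)
  have h1 : u.re * u.re + u.im * u.im < 1 := by
    rw [← Complex.normSq_apply, ← Complex.sq_norm]
    nlinarith [norm_nonneg u]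
  rw [cayi, Complex.div_im, ← sub_div]
  refine div_pos ?_ h
  simp only [Complex.mul_im, Complex.mul_re, Complex.I_re, Complex.I_im, Complex.add_re,
    Complex.add_im, Complex.sub_re, Complex.sub_im, Complex.one_re, Complex.one_im]
  nlinarith

theorem coe_kapi {u : ℂ} (hu : ‖u‖ < 1) : (kapi u : ℂ) = cayi u := by
  rw [kapi, ofComplex_apply_of_im_pos (cayi_im hu)]

theorem kap_kapi {u : ℂ} (hu : ‖u‖ < 1) : kap (kapi u) = u := by
  have h := decay_one_sub_ne hu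
  have h1 := decay_add_ne (kapi u)
  rw [coe_kapi hu] at h1
  rw [kap, coe_kapi hu, cay, div_eq_iff h1, cayi]
  field_simp
  ring

theorem kapi_kap (z : ℍ) : kapi (kap z) = z := by
  apply UpperHalfPlane.ext
  have h := decay_one_sub_ne (kap_lt z)
  have h1 := decay_add_ne z
  rw [coe_kapi (kap_lt z), cayi, div_eq_iff h, kap, cay]
  field_simp
  ring

theorem kap_inj : Function.Injective kap := by
  exact Function.LeftInverse.injective kapi_kap

theorem beA_lt (A : SL(2, ℝ)) : ‖beA A‖ < ‖alA A‖ := by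
  have h := decay_det A
  have h1 : ‖beA A‖ ^ 2 < ‖alA A‖ ^ 2 := by
    rw [Complex.sq_norm, Complex.sq_norm, Complex.normSq_apply, Complex.normSq_apply]
    simp only [alA, beA]
    nlinarith
  exact lt_of_pow_lt_pow_left₀ 2 (norm_nonneg _) h1

theorem kap_smul (A : SL(2, ℝ)) (z : ℍ) : kap (A • z) = mobA A (kap z) := by
  have h1 := decay_add_ne z
  have h2 := decay_add_ne (A • z)
  have h3 := mob_den_ne (beA_lt A) (kap_lt z).le
  have h4 : ((A 1 0 : ℝ) : ℂ) * z + (A 1 1 : ℝ) ≠ 0 := by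
    intro h
    have i1 := congrArg Complex.im h
    have i2 := congrArg Complex.re h
    simp only [Complex.add_im, Complex.mul_im, Complex.ofReal_re, Complex.ofReal_im, coe_im, coe_re,
      Complex.zero_im, Complex.add_re, Complex.mul_re, Complex.zero_re, zero_mul, add_zero,
      sub_zero] at i1 i2
    have i3 : A 1 0 = 0 := (mul_eq_zero.1 i1).resolve_right z.im_pos.ne'
    have i4 := decay_det A
    rw [i3] at i2 i4
    have i5 : A 1 1 = 0 := by linarith
    rw [i5] at i4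
    simp at i4
  have h5 : ((A • z : ℍ) : ℂ) * (((A 1 0 : ℝ) : ℂ) * z + (A 1 1 : ℝ)) =
      ((A 0 0 : ℝ) : ℂ) * z + (A 0 1 : ℝ) := by
    rw [coe_specialLinearGroup_apply]
    simp only [Algebra.algebraMap_self, RingHom.id_apply]
    exact div_mul_cancel₀ _ h4
  have h6 : kap z * ((z : ℂ) + Complex.I) = z - Complex.I := div_mul_cancel₀ _ h1
  rw [mobA, mob, eq_div_iff h3, kap, cay, div_mul_eq_mul_div, div_eq_iff h2, decay_al_conj,
    decay_be_conj, decay_al, decay_be]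
  apply mul_left_cancel₀ (mul_ne_zero h1 h4)
  generalize ((A • z : ℍ) : ℂ) = w at h5 ⊢
  generalize kap z = u at h6 ⊢
  generalize ((A 0 0 : ℝ) : ℂ) = a at h5 ⊢
  generalize ((A 0 1 : ℝ) : ℂ) = b at h5 ⊢
  generalize ((A 1 0 : ℝ) : ℂ) = c at h5 ⊢
  generalize ((A 1 1 : ℝ) : ℂ) = d at h5 ⊢
  generalize (z : ℂ) = x at h5 h6 ⊢
  have e1 : (x + Complex.I) * (((a - d) / 2 + (b + c) / 2 * Complex.I) * u +
      ((a + d) / 2 - (b - c) / 2 * Complex.I)) = (a * x + b) + Complex.I * (c * x + d) := by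
    linear_combination ((a - d) / 2 + (b + c) / 2 * Complex.I) * h6 - b * Complex.I_sq
  have e2 : (x + Complex.I) * (((a + d) / 2 + (b - c) / 2 * Complex.I) * u +
      ((a - d) / 2 - (b + c) / 2 * Complex.I)) = (a * x + b) - Complex.I * (c * x + d) := by
    linear_combination ((a + d) / 2 + (b - c) / 2 * Complex.I) * h6 - b * Complex.I_sq
  linear_combination (c * x + d) * (w - Complex.I) * e1 - (c * x + d) * (w + Complex.I) * e2 +
    2 * Complex.I * (c * x + d) * h5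

theorem alA_inv (A : SL(2, ℝ)) : alA A⁻¹ = conj (alA A) := by
  apply Complex.ext <;> simp [alA, Matrix.SpecialLinearGroup.SL2_inv_expl] <;> ring

theorem beA_inv (A : SL(2, ℝ)) : beA A⁻¹ = -beA A := by
  apply Complex.ext <;> simp [beA, Matrix.SpecialLinearGroup.SL2_inv_expl] <;> ring

theorem mobA_inv (A : SL(2, ℝ)) {u : ℂ} (hu : ‖u‖ ≤ 1) : mobA A⁻¹ (mobA A u) = u := by
  rw [mobA, mobA, alA_inv, beA_inv, mob_inv (beA_lt A) hu]

theorem mobA_inv' (A : SL(2, ℝ)) {u : ℂ} (hu : ‖u‖ ≤ 1) : mobA A (mobA A⁻¹ u) = u := by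
  rw [mobA, mobA, alA_inv, beA_inv, mob_inv' (beA_lt A) hu]

theorem cay_analyticAt (z : ℍ) : AnalyticAt ℂ cay z := by
  exact (analyticAt_id.sub analyticAt_const).div (analyticAt_id.add analyticAt_const)
    (decay_add_ne z)

theorem cay_deriv_ne (z : ℍ) : deriv cay z ≠ 0 := by
  have h := decay_add_ne z
  have h1 : HasDerivAt cay ((1 * ((z : ℂ) + Complex.I) - ((z : ℂ) - Complex.I) * 1) /
      ((z : ℂ) + Complex.I) ^ 2) z :=
    ((hasDerivAt_id (z : ℂ)).sub_const Complex.I).div ((hasDerivAt_id (z : ℂ)).add_const Complex.I) h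
  rw [h1.deriv]
  refine div_ne_zero ?_ (pow_ne_zero 2 h)
  have : 1 * ((z : ℂ) + Complex.I) - ((z : ℂ) - Complex.I) * 1 = 2 * Complex.I := by ring
  rw [this]
  exact mul_ne_zero two_ne_zero Complex.I_ne_zero

theorem cayi_analyticAt {u : ℂ} (hu : ‖u‖ < 1) : AnalyticAt ℂ cayi u := by
  exact (analyticAt_const.mul (analyticAt_const.add analyticAt_id)).div
    (analyticAt_const.sub analyticAt_id) (decay_one_sub_ne hu)

theorem cayi_deriv_ne {u : ℂ} (hu : ‖u‖ < 1) : deriv cayi u ≠ 0 := by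
  have h := decay_one_sub_ne hu
  have h1 : HasDerivAt cayi ((Complex.I * 1 * (1 - u) - Complex.I * (1 + u) * (-1)) /
      (1 - u) ^ 2) u :=
    (((hasDerivAt_id u).const_add 1).const_mul Complex.I).div ((hasDerivAt_id u).const_sub 1) h
  rw [h1.deriv]
  refine div_ne_zero ?_ (pow_ne_zero 2 h)
  have : Complex.I * 1 * (1 - u) - Complex.I * (1 + u) * (-1) = 2 * Complex.I := by ring
  rw [this]
  exact mul_ne_zero two_ne_zero Complex.I_ne_zero

theorem neBot_kap {ξ : ℂ} (hξ : ‖ξ‖ = 1) : (comap kap (𝓝 ξ)).NeBot := by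
  refine comap_neBot fun t ht => ?_
  obtain ⟨ε, hε, hb⟩ := Metric.mem_nhds_iff.1 ht
  set e : ℝ := min (ε / 2) (1 / 2) with he
  have e0 : 0 < e := lt_min (by linarith) (by norm_num)
  have e1 : e ≤ ε / 2 := min_le_left _ _
  have e2 : e ≤ 1 / 2 := min_le_right _ _
  have h1 : ‖((1 - e : ℝ) : ℂ) * ξ‖ < 1 := by
    rw [norm_mul, hξ, mul_one, Complex.norm_real, Real.norm_eq_abs, abs_of_pos (by linarith)]
    linarith
  refine ⟨kapi (((1 - e : ℝ) : ℂ) * ξ), hb ?_⟩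
  rw [kap_kapi h1, Metric.mem_ball, dist_eq_norm]
  have h2 : ((1 - e : ℝ) : ℂ) * ξ - ξ = ((-e : ℝ) : ℂ) * ξ := by
    push_cast
    ring
  rw [h2, norm_mul, hξ, mul_one, Complex.norm_real, Real.norm_eq_abs, abs_neg, abs_of_pos e0]
  linarith

theorem sinh_kap (z w : ℍ) :
    Real.sinh (dist z w / 2) ^ 2 * ((1 - ‖kap z‖ ^ 2) * (1 - ‖kap w‖ ^ 2)) = ‖kap z - kap w‖ ^ 2 := by
  have hz := decay_add_ne z
  have hw := decay_add_ne w
  have h1 := decay_norm z
  have h2 := decay_norm w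
  have hz' : 0 < ‖(z : ℂ) + Complex.I‖ ^ 2 := pow_pos (norm_pos_iff.2 hz) 2
  have hw' : 0 < ‖(w : ℂ) + Complex.I‖ ^ 2 := pow_pos (norm_pos_iff.2 hw) 2
  have h3 : (kap z - kap w) * (((z : ℂ) + Complex.I) * ((w : ℂ) + Complex.I)) =
      2 * Complex.I * ((z : ℂ) - w) := by
    rw [kap, kap, cay, cay]
    field_simp
    ring
  have h4 : ‖kap z - kap w‖ ^ 2 * (‖(z : ℂ) + Complex.I‖ ^ 2 * ‖(w : ℂ) + Complex.I‖ ^ 2) =
      4 * dist (z : ℂ) w ^ 2 := by
    have := congrArg (fun x : ℂ => ‖x‖ ^ 2) h3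
    simp only [norm_mul, Complex.norm_I, Complex.norm_ofNat, mul_pow] at this
    rw [this, dist_eq_norm]
    ring
  have h5 : 0 < z.im * w.im := mul_pos z.im_pos w.im_pos
  have h6 : Real.sinh (dist z w / 2) ^ 2 * (4 * (z.im * w.im)) = dist (z : ℂ) w ^ 2 := by
    rw [sinh_half_dist, div_pow, mul_pow, Real.sq_sqrt h5.le]
    field_simp
    ring
  apply mul_right_cancel₀ (mul_pos hz' hw').ne'
  rw [h4, ← h6]
  linear_combination Real.sinh (dist z w / 2) ^ 2 *
    ((1 - ‖kap w‖ ^ 2) * ‖(w : ℂ) + Complex.I‖ ^ 2 * h1 + 4 * z.im * h2)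

end Pool.Agent.MC.DE
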