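import Pool.Agent.P.MP_2677b3_gt.DeE

open UpperHalfPlane Filter Topology Set
open scoped MatrixGroups ComplexConjugate Real

noncomputable section

namespace Pool.Agent.MC.DE

lemma dedd_re {y : ℂ} (h : ‖y‖ = 1) : y.re ^ 2 + y.im ^ 2 = 1 := by
  have := Complex.sq_norm y
  rw [h, Complex.normSq_apply] at this
  linarith

lemma dedd_two {η : ℝ} (hη : 0 < η) {c x y : ℂ} (hc : ‖c‖ = 1) (hx : ‖x‖ = 1) (hy : ‖y‖ = 1)
    (h1 : η ≤ ‖y - x‖) (h2 : η / 2 ≤ ‖y + x‖) :
    (c * x ^ 2).re + (c * y ^ 2).re ≤ 2 - η ^ 4 / 16 := by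
  have a : η * (η / 2) ≤ ‖c * y ^ 2 - c * x ^ 2‖ := by
    rw [show c * y ^ 2 - c * x ^ 2 = c * ((y - x) * (y + x)) by ring, norm_mul, norm_mul, hc,
      one_mul]
    exact mul_le_mul h1 h2 (by positivity) (norm_nonneg _)
  have b := dedd_re (y := c * x ^ 2) (by rw [norm_mul, norm_pow, hc, hx, one_pow, one_mul])
  have b' := dedd_re (y := c * y ^ 2) (by rw [norm_mul, norm_pow, hc, hy, one_pow, one_mul])
  generalize c * x ^ 2 = u at *
  generalize c * y ^ 2 = v at *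
  have d := pow_le_pow_left₀ (by positivity) a 2
  rw [Complex.sq_norm, Complex.normSq_apply, Complex.sub_re, Complex.sub_im] at d
  nlinarith [sq_nonneg (2 - u.re - v.re), sq_nonneg (u.im + v.im)]

lemma dedd_three {η : ℝ} (hη : 0 < η) {c x y z : ℂ} (hc : ‖c‖ = 1) (hx : ‖x‖ = 1) (hy : ‖y‖ = 1)
    (hz : ‖z‖ = 1) (h1 : η ≤ ‖y - x‖) (h2 : η ≤ ‖z - x‖) (h3 : η ≤ ‖z - y‖) :
    (c * x ^ 2).re + (c * y ^ 2).re + (c * z ^ 2).re ≤ 3 - η ^ 4 / 16 := by
  have one : ∀ w : ℂ, ‖w‖ = 1 → (c * w ^ 2).re ≤ 1 := fun w hw =>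
    (Complex.re_le_norm _).trans_eq (by rw [norm_mul, norm_pow, hc, hw, one_pow, one_mul])
  rcases le_total (η / 2) ‖y + x‖ with h | h
  · linarith [dedd_two hη hc hx hy h1 h, one z hz]
  · have h4 := norm_sub_le (z + x) (y + x)
    rw [add_sub_add_right_eq_sub] at h4
    linarith [dedd_two hη hc hx hz h2 (by linarith), one y hy]

theorem dd_lower {η : ℝ} (hη : 0 < η) : ∃ κ : ℝ, 0 < κ ∧ ∀ φ : ℂ → ℂ, CMap φ → Sep η φ →
    ‖dd φ‖ ≤ 1 - κ := by
  refine ⟨η ^ 4 / 48, by positivity, fun φ hφ hs => ?_⟩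
  obtain ⟨c, hc, e⟩ := RCLike.exists_norm_eq_mul_self (∫ t in (0 : ℝ)..2 * π, φ (E t) ^ 2)
  have hg : Continuous fun t : ℝ => c * φ (E t) ^ 2 := (hφ.cont.pow 2).const_mul c
  have hr : Continuous fun t : ℝ => (c * φ (E t) ^ 2).re := Complex.continuous_re.comp hg
  have e1 : ‖∫ t in (0 : ℝ)..2 * π, φ (E t) ^ 2‖ =
      ∫ t in (0 : ℝ)..2 * π, (c * φ (E t) ^ 2).re := by
    have e2 := congrArg Complex.re e
    rw [← intervalIntegral.integral_const_mul] at e2
    exact e2.trans (Complex.reCLM.intervalIntegral_comp_comm (hg.intervalIntegrable _ _)).symm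
  have e3 := int_three (fun x => (c * φ x ^ 2).re) hr
  have hp := Real.pi_pos
  have e4 := intervalIntegral.integral_mono_on (μ := MeasureTheory.volume) (a := 0) (b := 2 * π)
    (f := fun t => (c * φ (E t) ^ 2).re + (c * φ (E (t + 2 * π / 3)) ^ 2).re +
      (c * φ (E (t + 4 * π / 3)) ^ 2).re) (g := fun _ => 3 - η ^ 4 / 16) (by positivity)
    (((hr.add (hr.comp (continuous_add_const _))).add
      (hr.comp (continuous_add_const _))).intervalIntegrable _ _)
    (continuous_const.intervalIntegrable _ _) fun t _ =>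
      dedd_three hη hc (hφ.norm _) (hφ.norm _) (hφ.norm _) (hs.three t).1 (hs.three t).2.1
        (hs.three t).2.2
  rw [← e3, ← e1, intervalIntegral.integral_const, smul_eq_mul] at e4
  rw [dd, norm_mul, norm_inv, norm_mul, Complex.norm_real, Real.norm_of_nonneg hp.le,
    Complex.norm_two, inv_mul_le_iff₀ (by positivity)]
  linarith

end Pool.Agent.MC.DE
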