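import Pool.Agent.P.MP_2677b3_gt.Defs

/-! Definitions for the Douady-Earle extension of the boundary map of a quasi-isometry. -/

open UpperHalfPlane Filter Topology Set
open scoped MatrixGroups ComplexConjugate Real

noncomputable section

namespace Pool.Agent.MC

/-- A pair of mutually coarsely inverse coarsely Lipschitz maps. -/
structure QIPair (K : ℝ) (f g : ℍ → ℍ) : Prop where
  cf : ∀ x y, dist (f x) (f y) ≤ K * dist x y + K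
  cg : ∀ x y, dist (g x) (g y) ≤ K * dist x y + K
  gf : ∀ x, dist (g (f x)) x ≤ K
  fg : ∀ y, dist (f (g y)) y ≤ K

namespace DE

/-- The standard parametrisation of the unit circle. -/
def E (t : ℝ) : ℂ := Complex.exp (t * Complex.I)

/-- Cayley map from the half-plane to the disc. -/
def cay (z : ℂ) : ℂ := (z - Complex.I) / (z + Complex.I)

/-- Inverse Cayley map. -/
def cayi (u : ℂ) : ℂ := Complex.I * (1 + u) / (1 - u)

/-- Disc coordinate of a point of `ℍ`. -/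
def kap (z : ℍ) : ℂ := cay z

/-- The point of `ℍ` with disc coordinate `u`. -/
def kapi (u : ℂ) : ℍ := ofComplex (cayi u)

/-- Unit speed geodesic ray from `I` to the boundary point `ζ`. -/
def ray (ζ : ℂ) (s : ℝ) : ℍ := kapi (Real.tanh (s / 2) * ζ)

/-- Moebius maps of the disc (for `‖b‖ < ‖a‖`). -/
def mob (a b u : ℂ) : ℂ := (a * u + b) / (conj b * u + conj a)

def alA (A : SL(2, ℝ)) : ℂ := ⟨(A 0 0 + A 1 1) / 2, (A 0 1 - A 1 0) / 2⟩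

def beA (A : SL(2, ℝ)) : ℂ := ⟨(A 0 0 - A 1 1) / 2, -(A 0 1 + A 1 0) / 2⟩

/-- The action of `A` in the disc coordinate. -/
def mobA (A : SL(2, ℝ)) : ℂ → ℂ := mob (alA A) (beA A)

/-- Poisson kernel. -/
def pk (z ζ : ℂ) : ℝ := (1 - ‖z‖ ^ 2) / ‖ζ - z‖ ^ 2

def ker (w x : ℂ) : ℂ := (x - w) / (1 - conj w * x)

/-- The Douady-Earle vector field. -/
def G (φ : ℂ → ℂ) (z w : ℂ) : ℂ :=
  (2 * π : ℂ)⁻¹ * ∫ t in (0 : ℝ)..2 * π, ker w (φ (E t)) * (pk z (E t) : ℂ)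

def c1 (φ : ℂ → ℂ) : ℂ := (2 * π : ℂ)⁻¹ * ∫ t in (0 : ℝ)..2 * π, φ (E t) * conj (E t)

def c2 (φ : ℂ → ℂ) : ℂ := (2 * π : ℂ)⁻¹ * ∫ t in (0 : ℝ)..2 * π, φ (E t) * E t

def dd (φ : ℂ → ℂ) : ℂ := (2 * π : ℂ)⁻¹ * ∫ t in (0 : ℝ)..2 * π, φ (E t) ^ 2

/-- Averaged Busemann function. -/
def Bus (φ : ℂ → ℂ) (w : ℂ) : ℝ :=
  ∫ t in (0 : ℝ)..2 * π, Real.log (‖φ (E t) - w‖ ^ 2 / (1 - ‖w‖ ^ 2))

/-- The Douady-Earle extension. -/
def ext (φ : ℂ → ℂ) (z : ℂ) : ℂ := Classical.epsilon fun w => ‖w‖ < 1 ∧ G φ z w = 0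

/-- Continuous self-maps of the circle. -/
structure CMap (φ : ℂ → ℂ) : Prop where
  cont : Continuous fun t : ℝ => φ (E t)
  norm : ∀ t : ℝ, ‖φ (E t)‖ = 1

/-- Orientation-preserving homeomorphisms of the circle. -/
def PosHom (φ : ℂ → ℂ) : Prop :=
  ∃ h : ℝ → ℝ, Continuous h ∧ StrictMono h ∧ (∀ t, h (t + 2 * π) = h t + 2 * π) ∧
    ∀ t, φ (E t) = E (h t)

/-- Orientation-reversing homeomorphisms of the circle. -/
def NegHom (φ : ℂ → ℂ) : Prop :=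
  ∃ h : ℝ → ℝ, Continuous h ∧ StrictAnti h ∧ (∀ t, h (t + 2 * π) = h t - 2 * π) ∧
    ∀ t, φ (E t) = E (h t)

/-- Points of the circle at distance at least `1/2` have images at distance at least `η`. -/
def Sep (η : ℝ) (φ : ℂ → ℂ) : Prop :=
  ∀ s t : ℝ, 1 / 2 ≤ ‖E s - E t‖ → η ≤ ‖φ (E s) - φ (E t)‖

/-- `φ` is the boundary map of `f`. -/
structure IsBd (f : ℍ → ℍ) (φ : ℂ → ℂ) : Prop where
  norm : ∀ ξ : ℂ, ‖ξ‖ = 1 → ‖φ ξ‖ = 1
  tend : ∀ ξ : ℂ, ‖ξ‖ = 1 → Tendsto (fun z => kap (f z)) (comap kap (𝓝 ξ)) (𝓝 (φ ξ))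

/-- `F` is `C¹` at `z`, orientation preserving, of dilatation at most `K`. -/
def QCAt (K : ℝ) (F : ℂ → ℂ) (z : ℂ) : Prop :=
  ContDiffAt ℝ 1 F z ∧ 0 < (fderiv ℝ F z).det ∧ ‖fderiv ℝ F z‖ ^ 2 ≤ K * (fderiv ℝ F z).det

/-- The four-arc kernel in the Jacobian formula. -/
def HH (h : ℝ → ℝ) (t u : ℝ) : ℝ :=
  Real.sin (h (t + u) - h t) + Real.sin (h (t + π) - h (t + u)) +
    Real.sin (h (t + π + u) - h (t + π)) + Real.sin (h t + 2 * π - h (t + π + u))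

end DE

end Pool.Agent.MC
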