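import Pool.Agent.P.MP_2677b3_gt.DeE

open UpperHalfPlane Filter Topology Set
open scoped MatrixGroups ComplexConjugate Real

noncomputable section

namespace Pool.Agent.MC.DE

variable {a b : ℂ}

theorem demob_mc (x : ℂ) : x * conj x = ((‖x‖ ^ 2 : ℝ) : ℂ) := by
  rw [Complex.mul_conj, Complex.normSq_eq_norm_sq]

theorem demob_D (a b : ℂ) : ((‖a‖ ^ 2 - ‖b‖ ^ 2 : ℝ) : ℂ) = a * conj a - b * conj b := by
  rw [demob_mc, demob_mc]
  push_cast
  ring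

theorem demob_Dpos (h : ‖b‖ < ‖a‖) : 0 < ‖a‖ ^ 2 - ‖b‖ ^ 2 := by
  have := norm_nonneg b
  nlinarith

theorem demob_Dne (h : ‖b‖ < ‖a‖) : a * conj a - b * conj b ≠ 0 := by
  rw [← demob_D]
  exact_mod_cast (demob_Dpos h).ne'

theorem demob_inv (h : ‖b‖ < ‖a‖) : ‖-b‖ < ‖conj a‖ := by
  simpa using h

theorem mob_den_ne (h : ‖b‖ < ‖a‖) {u : ℂ} (hu : ‖u‖ ≤ 1) : conj b * u + conj a ≠ 0 := by
  intro e
  have e1 : conj a = -(conj b * u) := by linear_combination e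
  have e2 : ‖a‖ = ‖b‖ * ‖u‖ := by
    have := congrArg norm e1
    simpa using this
  have := norm_nonneg b
  nlinarith

theorem demob_diff (a b u : ℂ) : ‖conj b * u + conj a‖ ^ 2 - ‖a * u + b‖ ^ 2 =
    (‖a‖ ^ 2 - ‖b‖ ^ 2) * (1 - ‖u‖ ^ 2) := by
  simp only [← Complex.normSq_eq_norm_sq, Complex.normSq_apply, Complex.add_re, Complex.add_im,
    Complex.mul_re, Complex.mul_im, Complex.conj_re, Complex.conj_im]
  ring

theorem mob_norm_sq (h : ‖b‖ < ‖a‖) {u : ℂ} (hu : ‖u‖ ≤ 1) :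
    1 - ‖mob a b u‖ ^ 2 = (‖a‖ ^ 2 - ‖b‖ ^ 2) * (1 - ‖u‖ ^ 2) / ‖conj b * u + conj a‖ ^ 2 := by
  have hd : ‖conj b * u + conj a‖ ≠ 0 := norm_ne_zero_iff.2 (mob_den_ne h hu)
  rw [← demob_diff, mob, norm_div, div_pow, sub_div, div_self (pow_ne_zero 2 hd)]

theorem mob_lt (h : ‖b‖ < ‖a‖) {u : ℂ} (hu : ‖u‖ < 1) : ‖mob a b u‖ < 1 := by
  have hd : 0 < ‖conj b * u + conj a‖ := norm_pos_iff.2 (mob_den_ne h hu.le)
  have h1 := mob_norm_sq h hu.le
  have h2 : 0 < 1 - ‖u‖ ^ 2 := by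
    have := norm_nonneg u
    nlinarith
  have h3 : 0 < (‖a‖ ^ 2 - ‖b‖ ^ 2) * (1 - ‖u‖ ^ 2) / ‖conj b * u + conj a‖ ^ 2 :=
    div_pos (mul_pos (demob_Dpos h) h2) (pow_pos hd 2)
  have := norm_nonneg (mob a b u)
  nlinarith

theorem mob_one (h : ‖b‖ < ‖a‖) {u : ℂ} (hu : ‖u‖ = 1) : ‖mob a b u‖ = 1 := by
  have h1 := mob_norm_sq h hu.le
  rw [hu] at h1
  have h2 : ‖mob a b u‖ ^ 2 = 1 := by
    have : (‖a‖ ^ 2 - ‖b‖ ^ 2) * (1 - (1 : ℝ) ^ 2) / ‖conj b * u + conj a‖ ^ 2 = 0 := by simp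
    linarith
  have := norm_nonneg (mob a b u)
  nlinarith

theorem mob_le (h : ‖b‖ < ‖a‖) {u : ℂ} (hu : ‖u‖ ≤ 1) : ‖mob a b u‖ ≤ 1 := by
  rcases hu.lt_or_eq with h1 | h1
  · exact (mob_lt h h1).le
  · exact (mob_one h h1).le

theorem mob_inv (h : ‖b‖ < ‖a‖) {u : ℂ} (hu : ‖u‖ ≤ 1) : mob (conj a) (-b) (mob a b u) = u := by
  have hd := mob_den_ne h hu
  have hd2 := mob_den_ne (demob_inv h) (mob_le h hu)
  have e : mob a b u * (conj b * u + conj a) = a * u + b := div_mul_cancel₀ _ hd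
  generalize mob a b u = m at *
  rw [mob, div_eq_iff hd2]
  simp only [map_neg, Complex.conj_conj]
  linear_combination e

theorem mob_inv' (h : ‖b‖ < ‖a‖) {u : ℂ} (hu : ‖u‖ ≤ 1) : mob a b (mob (conj a) (-b) u) = u := by
  have := mob_inv (demob_inv h) hu
  simpa using this

theorem mob_sub (h : ‖b‖ < ‖a‖) {u v : ℂ} (hu : ‖u‖ ≤ 1) (hv : ‖v‖ ≤ 1) :
    mob a b u - mob a b v = ((‖a‖ ^ 2 - ‖b‖ ^ 2 : ℝ) : ℂ) * (u - v) /
      ((conj b * u + conj a) * (conj b * v + conj a)) := by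
  have hd := mob_den_ne h hu
  have hd2 := mob_den_ne h hv
  rw [demob_D, mob, mob, div_sub_div _ _ hd hd2]
  congr 1
  ring

theorem mob_injOn (h : ‖b‖ < ‖a‖) {u v : ℂ} (hu : ‖u‖ ≤ 1) (hv : ‖v‖ ≤ 1)
    (e : mob a b u = mob a b v) : u = v := by
  rw [← mob_inv h hu, e, mob_inv h hv]

theorem mob_analyticAt (h : ‖b‖ < ‖a‖) {u : ℂ} (hu : ‖u‖ ≤ 1) : AnalyticAt ℂ (mob a b) u := by
  have hd := mob_den_ne h hu
  have h1 : AnalyticAt ℂ (fun u : ℂ => a * u + b) u := by fun_prop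
  have h2 : AnalyticAt ℂ (fun u : ℂ => conj b * u + conj a) u := by fun_prop
  exact h1.div h2 hd

theorem mob_deriv_ne (h : ‖b‖ < ‖a‖) {u : ℂ} (hu : ‖u‖ ≤ 1) : deriv (mob a b) u ≠ 0 := by
  have hd := mob_den_ne h hu
  have h1 : HasDerivAt (fun u : ℂ => a * u + b) a u := by
    simpa using ((hasDerivAt_id u).const_mul a).add_const b
  have h2 : HasDerivAt (fun u : ℂ => conj b * u + conj a) (conj b) u := by
    simpa using ((hasDerivAt_id u).const_mul (conj b)).add_const (conj a)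
  have h3 : HasDerivAt (mob a b)
      ((a * (conj b * u + conj a) - (a * u + b) * conj b) / (conj b * u + conj a) ^ 2) u :=
    h1.div h2 hd
  rw [h3.deriv]
  refine div_ne_zero ?_ (pow_ne_zero _ hd)
  have e : a * (conj b * u + conj a) - (a * u + b) * conj b = a * conj a - b * conj b := by ring
  rw [e]
  exact demob_Dne h

theorem mob_one_zero (v : ℂ) : mob 1 v 0 = v := by
  simp [mob]

theorem mob_one_neg (v : ℂ) : mob 1 (-v) v = 0 := by
  simp [mob]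

theorem ker_eq_mob (w x : ℂ) : ker w x = mob 1 (-w) x := by
  simp only [ker, mob, map_neg, map_one]
  congr 1 <;> ring

theorem pk_mob (h : ‖b‖ < ‖a‖) {z ζ : ℂ} (hz : ‖z‖ < 1) (hζ : ‖ζ‖ = 1) :
    pk (mob a b z) (mob a b ζ) * ((‖a‖ ^ 2 - ‖b‖ ^ 2) / ‖conj b * ζ + conj a‖ ^ 2) = pk z ζ := by
  have hd : ‖conj b * z + conj a‖ ≠ 0 := norm_ne_zero_iff.2 (mob_den_ne h hz.le)
  have hd2 : ‖conj b * ζ + conj a‖ ≠ 0 := norm_ne_zero_iff.2 (mob_den_ne h hζ.le)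
  have hD := demob_Dpos h
  have hne : ‖ζ - z‖ ≠ 0 := by
    rw [norm_ne_zero_iff, sub_ne_zero]
    intro e
    rw [e] at hζ
    linarith
  rw [pk, pk, mob_norm_sq h hz.le, mob_sub h hζ.le hz.le, norm_div, norm_mul, norm_mul,
    Complex.norm_real, Real.norm_eq_abs, abs_of_pos hD]
  have hD' := hD.ne'
  generalize ‖a‖ ^ 2 - ‖b‖ ^ 2 = D at *
  field_simp

theorem demob_den2 (h : ‖b‖ < ‖a‖) {w : ℂ} (hw : ‖w‖ ≤ 1) : b * conj w + a ≠ 0 := by
  have hd := mob_den_ne h hw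
  intro e
  apply hd
  have := congrArg conj e
  simpa using this

theorem ker_mob (h : ‖b‖ < ‖a‖) {w x : ℂ} (hw : ‖w‖ < 1) (hx : ‖x‖ = 1) :
    ker (mob a b w) (mob a b x) = (b * conj w + a) / (conj b * w + conj a) * ker w x := by
  have hd := mob_den_ne h hw.le
  have hd2 := mob_den_ne h hx.le
  have hd3 := demob_den2 h hw.le
  have hk := ker_den_ne hw hx.le
  have hD := demob_Dne h
  have e1 : 1 - conj (mob a b w) * mob a b x =
      (a * conj a - b * conj b) * (1 - conj w * x) / ((b * conj w + a) * (conj b * x + conj a)) := by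
    simp only [mob, map_div₀, map_add, map_mul, Complex.conj_conj]
    rw [div_mul_div_comm, eq_div_iff (mul_ne_zero hd3 hd2), sub_mul,
      div_mul_cancel₀ _ (mul_ne_zero hd3 hd2)]
    ring
  rw [ker, ker, e1, mob_sub h hx.le hw.le, demob_D]
  generalize a * conj a - b * conj b = D at *
  generalize conj b * w + conj a = p at *
  generalize conj b * x + conj a = q at *
  generalize b * conj w + a = r at *
  generalize 1 - conj w * x = s at *
  field_simp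

theorem mob_ext {a' b' : ℂ} (h : ‖b‖ < ‖a‖) (h' : ‖b'‖ < ‖a'‖)
    (e : ∀ ζ : ℂ, ‖ζ‖ = 1 → mob a b ζ = mob a' b' ζ) {u : ℂ} (hu : ‖u‖ < 1) :
    mob a b u = mob a' b' u := by
  have key : ∀ ζ : ℂ, ‖ζ‖ = 1 →
      (a * ζ + b) * (conj b' * ζ + conj a') = (a' * ζ + b') * (conj b * ζ + conj a) := by
    intro ζ hζ
    have := e ζ hζ
    rwa [mob, mob, div_eq_div_iff (mob_den_ne h hζ.le) (mob_den_ne h' hζ.le)] at this
  have k1 := key 1 (by simp)
  have k2 := key (-1) (by simp)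
  have k3 := key Complex.I (by simp)
  have hI : Complex.I ^ 2 = -1 := Complex.I_sq
  have q1 : a * conj a' + b * conj b' - (a' * conj a + b' * conj b) = 0 := by
    linear_combination (1 / 2 : ℂ) * k1 - (1 / 2 : ℂ) * k2
  have q2 : a * conj b' - a' * conj b = 0 := by
    linear_combination (1 / 4 : ℂ) * k1 + (1 / 4 : ℂ) * k2 - (1 / 2 : ℂ) * k3 +
      (1 / 2 : ℂ) * Complex.I * q1 + (1 / 2 : ℂ) * (a * conj b' - a' * conj b) * hI
  have q0 : b * conj a' - b' * conj a = 0 := by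
    linear_combination (1 / 2 : ℂ) * k1 + (1 / 2 : ℂ) * k2 - q2
  rw [mob, mob, div_eq_div_iff (mob_den_ne h hu.le) (mob_den_ne h' hu.le)]
  linear_combination u ^ 2 * q2 + u * q1 + q0

theorem CMap.mob {φ : ℂ → ℂ} (hφ : CMap φ) (h : ‖b‖ < ‖a‖) : CMap (mob a b ∘ φ) := by
  refine ⟨?_, fun t => mob_one h (hφ.norm t)⟩
  have hc := hφ.cont
  have h1 : Continuous fun t : ℝ => a * φ (E t) + b :=
    (continuous_const.mul hc).add continuous_const
  have h2 : Continuous fun t : ℝ => conj b * φ (E t) + conj a :=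
    (continuous_const.mul hc).add continuous_const
  exact h1.div h2 fun t => mob_den_ne h (hφ.norm t).le

theorem Sep.mob {η r : ℝ} {φ : ℂ → ℂ} (hs : Sep η φ) (hφ : CMap φ) (hη : 0 ≤ η) {v : ℂ}
    (hv : ‖v‖ ≤ r) (hr : r < 1) : Sep (η * (1 - r ^ 2) / 4) (mob 1 (-v) ∘ φ) := by
  intro s t hst
  have h : ‖-v‖ < ‖(1 : ℂ)‖ := by
    rw [norm_neg, norm_one]
    linarith
  have h1 := hs s t hst
  have hv0 := norm_nonneg v
  have hb : ∀ x : ℂ, ‖x‖ = 1 → ‖conj (-v) * x + conj 1‖ ≤ 2 := by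
    intro x hx
    have h2 := norm_add_le (conj (-v) * x) (conj 1)
    have h3 : ‖conj (-v) * x‖ = ‖v‖ := by simp [hx]
    have h4 : ‖conj (1 : ℂ)‖ = 1 := by simp
    linarith
  have p1 := norm_pos_iff.2 (mob_den_ne h (hφ.norm s).le)
  have p2 := norm_pos_iff.2 (mob_den_ne h (hφ.norm t).le)
  have b1 := hb _ (hφ.norm s)
  have b2 := hb _ (hφ.norm t)
  have hD := demob_Dpos h
  show η * (1 - r ^ 2) / 4 ≤ ‖DE.mob 1 (-v) (φ (E s)) - DE.mob 1 (-v) (φ (E t))‖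
  rw [mob_sub h (hφ.norm s).le (hφ.norm t).le, norm_div, norm_mul, norm_mul,
    Complex.norm_real, Real.norm_eq_abs, abs_of_pos hD, norm_neg, norm_one]
  have h5 : 1 - r ^ 2 ≤ 1 ^ 2 - ‖v‖ ^ 2 := by nlinarith
  have h6 : 0 ≤ 1 - r ^ 2 := by nlinarith
  have h7 : η * (1 - r ^ 2) ≤ (1 ^ 2 - ‖v‖ ^ 2) * ‖φ (E s) - φ (E t)‖ := by
    rw [mul_comm]
    exact mul_le_mul h5 h1 hη (h6.trans h5)
  have h8 : ‖conj (-v) * φ (E s) + conj 1‖ * ‖conj (-v) * φ (E t) + conj 1‖ ≤ 4 := by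
    nlinarith
  exact div_le_div₀ ((mul_nonneg hη h6).trans h7) h7 (mul_pos p1 p2) h8

theorem G_left {φ : ℂ → ℂ} (hφ : CMap φ) (h : ‖b‖ < ‖a‖) (z : ℂ) {w : ℂ} (hw : ‖w‖ < 1) :
    G (mob a b ∘ φ) z (mob a b w) = 0 ↔ G φ z w = 0 := by
  have hc : (b * conj w + a) / (conj b * w + conj a) ≠ 0 :=
    div_ne_zero (demob_den2 h hw.le) (mob_den_ne h hw.le)
  have e : G (mob a b ∘ φ) z (mob a b w) =
      (b * conj w + a) / (conj b * w + conj a) * G φ z w := by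
    simp only [G, Function.comp_apply, ker_mob h hw (hφ.norm _), mul_assoc]
    rw [intervalIntegral.integral_const_mul]
    ring
  rw [e, mul_eq_zero, or_iff_right hc]

end Pool.Agent.MC.DE
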