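import Pool.Agent.P.MP_2677b3_gt.DeExA
import Pool.Agent.P.MP_2677b3_gt.DeMob

open UpperHalfPlane Filter Topology Set
open scoped MatrixGroups ComplexConjugate Real

noncomputable section

namespace Pool.Agent.MC.DE

theorem deexb_inv (w x : ℂ) : ‖x - w‖ ^ 2 / (1 - ‖w‖ ^ 2) = (pk w x)⁻¹ := by
  simp [pk]

theorem deexb_pk {w v x : ℂ} (hw : ‖w‖ < 1) (hv : ‖v‖ < 1) (hx : ‖x‖ = 1) :
    pk (mob 1 w v) x = pk v (ker w x) * pk w x := by
  have h1 : ‖w‖ < ‖(1 : ℂ)‖ := by simpa using hw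
  have hk : ‖ker w x‖ = 1 := norm_ker hw hx
  have hx' : mob 1 w (ker w x) = x := by
    have := mob_inv' h1 hx.le
    rwa [map_one, ← ker_eq_mob] at this
  have a1 := pk_mob h1 hv hk
  have a2 := pk_mob h1 (z := 0) (by simp) hk
  rw [hx'] at a1 a2
  rw [mob_one_zero, pk_zero hk] at a2
  rw [← a1, mul_assoc, mul_comm _ (pk w x), a2, mul_one]

theorem deexb_point {w v x : ℂ} (hw : ‖w‖ < 1) (hv : ‖v‖ < 1) (hx : ‖x‖ = 1) :
    Real.log (‖x - mob 1 w v‖ ^ 2 / (1 - ‖mob 1 w v‖ ^ 2)) ≤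
      Real.log (‖x - w‖ ^ 2 / (1 - ‖w‖ ^ 2)) +
        (-2 * (conj v * ker w x).re + 2 * ‖v‖ ^ 2) / (1 - ‖v‖ ^ 2) := by
  have hk : ‖ker w x‖ = 1 := norm_ker hw hx
  have p1 := pk_pos hv hk
  have p2 := pk_pos hw hx
  rw [deexb_inv, deexb_inv, deexb_pk hw hv hx, mul_inv,
    Real.log_mul (inv_pos.2 p1).ne' (inv_pos.2 p2).ne', add_comm]
  have hl := Real.log_le_sub_one_of_pos (inv_pos.2 p1)
  have hv2 : 0 < 1 - ‖v‖ ^ 2 := by nlinarith [norm_nonneg v]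
  have he : (pk v (ker w x))⁻¹ - 1 =
      (-2 * (conj v * ker w x).re + 2 * ‖v‖ ^ 2) / (1 - ‖v‖ ^ 2) := by
    rw [← deexb_inv]
    generalize ker w x = y at hk
    have hy : y.re ^ 2 + y.im ^ 2 = 1 := by
      have := Complex.sq_norm y
      rw [hk, Complex.normSq_apply] at this
      nlinarith
    have h3 : ‖y - v‖ ^ 2 = 1 - 2 * (conj v * y).re + ‖v‖ ^ 2 := by
      rw [Complex.sq_norm, Complex.sq_norm, Complex.normSq_apply, Complex.normSq_apply]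
      simp only [Complex.sub_re, Complex.sub_im, Complex.mul_re, Complex.conj_re, Complex.conj_im]
      nlinarith
    rw [h3]
    field_simp
    ring
  linarith

theorem deexb_cont {φ : ℂ → ℂ} (hφ : CMap φ) {w : ℂ} (hw : ‖w‖ < 1) :
    Continuous fun t : ℝ => Real.log (‖φ (E t) - w‖ ^ 2 / (1 - ‖w‖ ^ 2)) := by
  refine Continuous.log (((hφ.cont.sub continuous_const).norm.pow 2).div_const _) fun t => ?_
  rw [deexb_inv]
  exact (inv_pos.2 (pk_pos hw (hφ.norm t))).ne'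

theorem deexb_int {φ : ℂ → ℂ} (hφ : CMap φ) {w v : ℂ} (hw : ‖w‖ < 1) (hv : ‖v‖ < 1) :
    Bus φ (mob 1 w v) ≤ Bus φ w +
      (-2 * (conj v * ∫ t in (0 : ℝ)..2 * π, ker w (φ (E t))).re + 2 * π * (2 * ‖v‖ ^ 2)) /
        (1 - ‖v‖ ^ 2) := by
  have h1 : ‖w‖ < ‖(1 : ℂ)‖ := by simpa using hw
  have hw' := mob_lt h1 hv
  have hk := hφ.continuous_ker hw
  have hc : Continuous fun t : ℝ => (conj v * ker w (φ (E t))).re :=
    Complex.continuous_re.comp (continuous_const.mul hk)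
  have hc2 : Continuous fun t : ℝ =>
      (-2 * (conj v * ker w (φ (E t))).re + 2 * ‖v‖ ^ 2) / (1 - ‖v‖ ^ 2) :=
    ((continuous_const.mul hc).add continuous_const).div_const _
  have hre : (∫ t in (0 : ℝ)..2 * π, (conj v * ker w (φ (E t))).re) =
      (conj v * ∫ t in (0 : ℝ)..2 * π, ker w (φ (E t))).re := by
    rw [← intervalIntegral.integral_const_mul]
    exact Complex.reCLM.intervalIntegral_comp_comm
      ((continuous_const.mul hk).intervalIntegrable _ _)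
  have hI : (∫ t in (0 : ℝ)..2 * π,
      (-2 * (conj v * ker w (φ (E t))).re + 2 * ‖v‖ ^ 2) / (1 - ‖v‖ ^ 2)) =
      (-2 * (conj v * ∫ t in (0 : ℝ)..2 * π, ker w (φ (E t))).re + 2 * π * (2 * ‖v‖ ^ 2)) /
        (1 - ‖v‖ ^ 2) := by
    have hc3 : Continuous fun t : ℝ => -2 * (conj v * ker w (φ (E t))).re :=
      continuous_const.mul hc
    rw [intervalIntegral.integral_div, intervalIntegral.integral_add
      (hc3.intervalIntegrable _ _) (continuous_const.intervalIntegrable _ _),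
      intervalIntegral.integral_const_mul, hre, intervalIntegral.integral_const, sub_zero,
      smul_eq_mul]
  rw [← hI, Bus, Bus, ← intervalIntegral.integral_add
    ((deexb_cont hφ hw).intervalIntegrable _ _) (hc2.intervalIntegrable _ _)]
  refine intervalIntegral.integral_mono_on (by positivity)
    ((deexb_cont hφ hw').intervalIntegrable _ _)
    (((deexb_cont hφ hw).add hc2).intervalIntegrable _ _) fun t _ => ?_
  exact deexb_point hw hv (hφ.norm t)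

theorem G_of_isLocalMin {φ : ℂ → ℂ} (hφ : CMap φ) {w : ℂ} (hw : ‖w‖ < 1)
    (hm : IsLocalMin (Bus φ) w) : G φ 0 w = 0 := by
  rw [G_zero]
  have h1 : ‖w‖ < ‖(1 : ℂ)‖ := by simpa using hw
  have key := fun v (hv : ‖v‖ < 1) => deexb_int hφ hw hv
  generalize (∫ t in (0 : ℝ)..2 * π, ker w (φ (E t))) = J at key ⊢
  by_contra hne
  have hJ : J ≠ 0 := by
    rintro rfl
    simp at hne
  have hJ' : 0 < ‖J‖ := norm_pos_iff.2 hJ
  have hc0 : Continuous fun s : ℝ => (s : ℂ) * J := Complex.continuous_ofReal.mul continuous_const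
  have ht0 : Tendsto (fun s : ℝ => (s : ℂ) * J) (𝓝 0) (𝓝 0) := by
    simpa using hc0.tendsto 0
  have ht1 : Tendsto (fun s : ℝ => mob 1 w ((s : ℂ) * J)) (𝓝 0) (𝓝 w) := by
    have := (mob_analyticAt h1 (u := 0) (by simp)).continuousAt.tendsto
    rw [mob_one_zero] at this
    exact this.comp ht0
  have e1 : ∀ᶠ s : ℝ in 𝓝 0, Bus φ w ≤ Bus φ (mob 1 w ((s : ℂ) * J)) := ht1.eventually hm
  have e2 : ∀ᶠ s : ℝ in 𝓝 0, ‖(s : ℂ) * J‖ < 1 := by
    have := ht0.norm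
    rw [norm_zero] at this
    exact this.eventually (gt_mem_nhds one_pos)
  have e3 : ∀ᶠ s : ℝ in 𝓝 0, 2 * π * s < 1 := by
    have : Tendsto (fun s : ℝ => 2 * π * s) (𝓝 0) (𝓝 (2 * π * 0)) :=
      (continuous_const.mul continuous_id).tendsto 0
    rw [mul_zero] at this
    exact this.eventually (gt_mem_nhds one_pos)
  have e4 : ∀ᶠ s : ℝ in 𝓝[>] 0, (Bus φ w ≤ Bus φ (mob 1 w ((s : ℂ) * J)) ∧
      ‖(s : ℂ) * J‖ < 1 ∧ 2 * π * s < 1) ∧ s ∈ Ioi (0 : ℝ) :=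
    ((e1.and (e2.and e3)).filter_mono nhdsWithin_le_nhds).and self_mem_nhdsWithin
  obtain ⟨s, ⟨s1, s2, s3⟩, s4⟩ := e4.exists
  have s5 : 0 < s := s4
  have k := key _ s2
  have hv2 : 0 < 1 - ‖(s : ℂ) * J‖ ^ 2 := by nlinarith [norm_nonneg ((s : ℂ) * J)]
  have r1 : (conj ((s : ℂ) * J) * J).re = s * ‖J‖ ^ 2 := by
    rw [Complex.sq_norm, Complex.normSq_apply]
    simp only [map_mul, Complex.conj_ofReal, Complex.mul_re, Complex.mul_im, Complex.ofReal_re,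
      Complex.ofReal_im, Complex.conj_re, Complex.conj_im]
    ring
  have r2 : ‖(s : ℂ) * J‖ ^ 2 = s ^ 2 * ‖J‖ ^ 2 := by
    rw [norm_mul, Complex.norm_real, Real.norm_eq_abs, mul_pow, sq_abs]
  have hneg : (-2 * (conj ((s : ℂ) * J) * J).re + 2 * π * (2 * ‖(s : ℂ) * J‖ ^ 2)) /
      (1 - ‖(s : ℂ) * J‖ ^ 2) < 0 := by
    refine div_neg_of_neg_of_pos ?_ hv2
    rw [r1, r2]
    have : 0 < s * ‖J‖ ^ 2 * (1 - 2 * π * s) := mul_pos (by positivity) (by linarith)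
    nlinarith
  linarith

theorem G_exists {η : ℝ} (hη : 0 < η) : ∃ r : ℝ, r < 1 ∧ ∀ φ : ℂ → ℂ, CMap φ → Sep η φ →
    ∃ v : ℂ, ‖v‖ ≤ r ∧ G φ 0 v = 0 := by
  obtain ⟨r, r0, r1, hr⟩ := Bus_pos hη
  refine ⟨r, r1, fun φ hφ hs => ?_⟩
  obtain ⟨v, hv, hmin⟩ := (isCompact_closedBall (0 : ℂ) r).exists_isMinOn
    ⟨0, Metric.mem_closedBall_self r0.le⟩ (Bus_continuousOn hφ r1)
  have hv' : ‖v‖ ≤ r := by simpa using hv
  have h0 : Bus φ v ≤ Bus φ 0 := hmin (Metric.mem_closedBall_self r0.le)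
  rw [Bus_zero hφ] at h0
  have hlt : ‖v‖ < r := lt_of_le_of_ne hv' fun e => by
    have := hr φ hφ hs v e
    linarith
  refine ⟨v, hv', G_of_isLocalMin hφ (hlt.trans r1) (hmin.isLocalMin ?_)⟩
  exact mem_of_superset (Metric.isOpen_ball.mem_nhds (by simpa using hlt))
    Metric.ball_subset_closedBall

end Pool.Agent.MC.DE
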