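import Pool.Agent.P.MP_2677b3_gt.DeE

open UpperHalfPlane Filter Topology Set
open scoped MatrixGroups ComplexConjugate Real

noncomputable section

namespace Pool.Agent.MC.DE

theorem desmb_half {a : ℂ} (ha : ‖a‖ ≤ 1 / 2) : 1 / 2 ≤ ‖1 - a‖ := by
  have := norm_sub_norm_le (1 : ℂ) a
  rw [norm_one] at this
  linarith

theorem desmb_div {a b : ℂ} {r : ℝ} (ha : ‖a‖ ≤ 1 / 2) (hb : ‖b‖ ≤ r) : ‖b / (1 - a)‖ ≤ 2 * r := by
  have h := desmb_half ha
  rw [norm_div, div_le_iff₀ (by linarith)]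
  nlinarith [norm_nonneg b]

theorem desmb_ker {x l : ℂ} {r : ℝ} (hx : ‖x‖ = 1) (hl : ‖l‖ ≤ r) (hr : r ≤ 1 / 2) :
    ‖ker l x - (x + (-l + x ^ 2 * conj l))‖ ≤ 4 * r ^ 2 := by
  have h1 : ‖conj l * x‖ ≤ 1 / 2 := by
    rw [norm_mul, Complex.norm_conj, hx]
    linarith
  have h0 : 1 - conj l * x ≠ 0 := by
    intro h
    have := desmb_half h1
    rw [h, norm_zero] at this
    linarith
  have e : ker l x - (x + (-l + x ^ 2 * conj l)) =
      (x ^ 3 * conj l ^ 2 - conj l * l * x) / (1 - conj l * x) := by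
    rw [ker, eq_div_iff h0, sub_mul, div_mul_cancel₀ _ h0]
    ring
  have h2 : ‖x ^ 3 * conj l ^ 2 - conj l * l * x‖ ≤ 2 * r ^ 2 := by
    refine (norm_sub_le _ _).trans ?_
    simp only [norm_mul, norm_pow, Complex.norm_conj, hx]
    nlinarith [norm_nonneg l]
  rw [e]
  linarith [desmb_div h1 h2]

theorem desmb_pk {e k : ℂ} {r : ℝ} (he : ‖e‖ = 1) (hk : ‖k‖ ≤ r) (hr : r ≤ 1 / 2) :
    ‖(pk k e : ℂ) - (1 + (conj e * k + e * conj k))‖ ≤ 4 * r ^ 2 := by
  have n1 : ‖conj e * k‖ ≤ r := by rwa [norm_mul, Complex.norm_conj, he, one_mul]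
  have n2 : ‖e * conj k‖ ≤ r := by rwa [norm_mul, Complex.norm_conj, he, one_mul]
  have h1 : 1 - conj e * k ≠ 0 := by
    intro h
    have := desmb_half (n1.trans hr)
    rw [h, norm_zero] at this
    linarith
  have h2 : 1 - e * conj k ≠ 0 := by
    intro h
    have := desmb_half (n2.trans hr)
    rw [h, norm_zero] at this
    linarith
  have ee : e * conj e = 1 := by rw [Complex.mul_conj', he]; simp
  have e1 : ((‖e - k‖ : ℝ) : ℂ) ^ 2 = (1 - conj e * k) * (1 - e * conj k) := by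
    rw [← Complex.mul_conj', map_sub]
    linear_combination (1 - k * conj k) * ee
  have e2 : ((‖k‖ : ℝ) : ℂ) ^ 2 = (conj e * k) * (e * conj k) := by
    rw [← Complex.mul_conj']
    linear_combination (-(k * conj k)) * ee
  have e3 : (pk k e : ℂ) - (1 + (conj e * k + e * conj k)) =
      (conj e * k) ^ 2 / (1 - conj e * k) + (e * conj k) ^ 2 / (1 - e * conj k) := by
    rw [pk]
    push_cast
    rw [e1, e2]
    generalize conj e * k = a at h1 ⊢
    generalize e * conj k = b at h2 ⊢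
    field_simp
    ring
  have r0 : 0 ≤ r := (norm_nonneg k).trans hk
  have b1 : ‖(conj e * k) ^ 2‖ ≤ r ^ 2 := by rw [norm_pow]; gcongr
  have b2 : ‖(e * conj k) ^ 2‖ ≤ r ^ 2 := by rw [norm_pow]; gcongr
  rw [e3]
  linarith [norm_add_le ((conj e * k) ^ 2 / (1 - conj e * k)) ((e * conj k) ^ 2 / (1 - e * conj k)),
    desmb_div (n1.trans hr) b1, desmb_div (n2.trans hr) b2]

theorem desmb_pt {x e k l : ℂ} {r : ℝ} (hx : ‖x‖ = 1) (he : ‖e‖ = 1) (hk : ‖k‖ ≤ r) (hl : ‖l‖ ≤ r)
    (hr : r ≤ 1 / 2) : ‖ker l x * (pk k e : ℂ) -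
      (x + (x * conj e * k + x * e * conj k - l + x ^ 2 * conj l))‖ ≤ 24 * r ^ 2 := by
  have r0 : 0 ≤ r := (norm_nonneg k).trans hk
  have h1 := desmb_ker hx hl hr
  have h2 := desmb_pk he hk hr
  have ha : ‖-l + x ^ 2 * conj l‖ ≤ 2 * r := by
    refine (norm_add_le _ _).trans ?_
    simp only [norm_neg, norm_mul, norm_pow, Complex.norm_conj, hx]
    linarith
  have hb : ‖conj e * k + e * conj k‖ ≤ 2 * r := by
    refine (norm_add_le _ _).trans ?_
    simp only [norm_mul, Complex.norm_conj, he]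
    linarith
  have e1 : ker l x * (pk k e : ℂ) - (x + (x * conj e * k + x * e * conj k - l + x ^ 2 * conj l)) =
      (ker l x - (x + (-l + x ^ 2 * conj l))) *
        (1 + (conj e * k + e * conj k) + ((pk k e : ℂ) - (1 + (conj e * k + e * conj k)))) +
      (-l + x ^ 2 * conj l) * (conj e * k + e * conj k) +
      (x + (-l + x ^ 2 * conj l)) * ((pk k e : ℂ) - (1 + (conj e * k + e * conj k))) := by ring
  rw [e1]
  generalize ker l x - (x + (-l + x ^ 2 * conj l)) = r1 at h1 ⊢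
  generalize (pk k e : ℂ) - (1 + (conj e * k + e * conj k)) = r2 at h2 ⊢
  generalize -l + x ^ 2 * conj l = a at ha ⊢
  generalize conj e * k + e * conj k = b at hb ⊢
  have hB : ‖1 + b + r2‖ ≤ 3 := by
    refine (norm_add₃_le).trans ?_
    rw [norm_one]
    nlinarith
  have hA : ‖x + a‖ ≤ 2 := by
    refine (norm_add_le _ _).trans ?_
    linarith
  refine (norm_add₃_le).trans ?_
  rw [norm_mul, norm_mul, norm_mul]
  have t1 : ‖r1‖ * ‖1 + b + r2‖ ≤ 4 * r ^ 2 * 3 := by gcongr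
  have t2 : ‖a‖ * ‖b‖ ≤ 2 * r * (2 * r) := by gcongr
  have t3 : ‖x + a‖ * ‖r2‖ ≤ 2 * (4 * r ^ 2) := by gcongr
  nlinarith

theorem desmb_int {φ : ℂ → ℂ} (hφ : CMap φ) {k l : ℂ} {r : ℝ} (hk : ‖k‖ ≤ r) (hl : ‖l‖ ≤ r)
    (hr : r ≤ 1 / 2) :
    ‖G φ k l - G φ 0 0 - (c1 φ * k + c2 φ * conj k - l + dd φ * conj l)‖ ≤ 24 * r ^ 2 := by
  have c0 := hφ.cont
  have cE := continuous_E
  have cK := hφ.continuous_ker (w := l) (by linarith)
  have cP := continuous_pk (z := k) (by linarith)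
  have hπ : (2 * π : ℂ) ≠ 0 := by simp [Real.pi_ne_zero]
  have e : G φ k l - G φ 0 0 - (c1 φ * k + c2 φ * conj k - l + dd φ * conj l) =
      (2 * π : ℂ)⁻¹ * ∫ t in (0 : ℝ)..2 * π, (ker l (φ (E t)) * (pk k (E t) : ℂ) - (φ (E t) +
        (φ (E t) * conj (E t) * k + φ (E t) * E t * conj k - l + φ (E t) ^ 2 * conj l))) := by
    have i : ∀ {f : ℝ → ℂ}, Continuous f → IntervalIntegrable f MeasureTheory.volume 0 (2 * π) :=
      fun hf => hf.intervalIntegrable _ _
    have a0 : Continuous fun t => ker l (φ (E t)) * (pk k (E t) : ℂ) :=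
      cK.mul (Complex.continuous_ofReal.comp cP)
    have a1 : Continuous fun t => φ (E t) * conj (E t) * k :=
      (c0.mul (Complex.continuous_conj.comp cE)).mul continuous_const
    have a2 : Continuous fun t => φ (E t) * E t * conj k := (c0.mul cE).mul continuous_const
    have a3 : Continuous fun t => φ (E t) ^ 2 * conj l := (c0.pow 2).mul continuous_const
    have a4 : Continuous fun t => φ (E t) * conj (E t) * k + φ (E t) * E t * conj k := a1.add a2
    have a5 : Continuous fun t => φ (E t) * conj (E t) * k + φ (E t) * E t * conj k - l :=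
      a4.sub continuous_const
    have a6 : Continuous fun t => φ (E t) * conj (E t) * k + φ (E t) * E t * conj k - l +
      φ (E t) ^ 2 * conj l := a5.add a3
    have a7 : Continuous fun t => φ (E t) + (φ (E t) * conj (E t) * k + φ (E t) * E t * conj k - l +
      φ (E t) ^ 2 * conj l) := c0.add a6
    have g0 : G φ 0 0 = (2 * π : ℂ)⁻¹ * ∫ t in (0 : ℝ)..2 * π, φ (E t) := by
      simp only [G_zero, ker, map_zero, zero_mul, sub_zero, div_one]
    rw [intervalIntegral.integral_sub (i a0) (i a7), intervalIntegral.integral_add (i c0) (i a6),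
      intervalIntegral.integral_add (i a5) (i a3),
      intervalIntegral.integral_sub (i a4) (i continuous_const),
      intervalIntegral.integral_add (i a1) (i a2),
      intervalIntegral.integral_mul_const, intervalIntegral.integral_mul_const,
      intervalIntegral.integral_mul_const, intervalIntegral.integral_const, g0, G, c1, c2, dd,
      sub_zero, Complex.real_smul]
    push_cast
    linear_combination (-l) * inv_mul_cancel₀ hπ
  have b := intervalIntegral.norm_integral_le_of_norm_le_const (a := 0) (b := 2 * π)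
    (C := 24 * r ^ 2) (f := fun t => ker l (φ (E t)) * (pk k (E t) : ℂ) - (φ (E t) +
        (φ (E t) * conj (E t) * k + φ (E t) * E t * conj k - l + φ (E t) ^ 2 * conj l)))
    fun t _ => desmb_pt (hφ.norm t) (norm_E t) hk hl hr
  have p := Real.pi_pos
  have n : ‖(2 * π : ℂ)‖ = 2 * π := by simp [abs_of_pos p]
  rw [sub_zero, abs_of_pos (by positivity)] at b
  rw [e, norm_mul, norm_inv, n, inv_mul_le_iff₀ (by positivity)]
  linarith

theorem G_hasFDerivAt {φ : ℂ → ℂ} (hφ : CMap φ) : ∃ L : ℂ × ℂ →L[ℝ] ℂ,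
    HasFDerivAt (fun p : ℂ × ℂ => G φ p.1 p.2) L (0, 0) ∧
      ∀ k l : ℂ, L (k, l) = c1 φ * k + c2 φ * conj k - l + dd φ * conj l := by
  let C : ℂ →L[ℝ] ℂ := Complex.conjCLE
  let L : ℂ × ℂ →L[ℝ] ℂ := c1 φ • ContinuousLinearMap.fst ℝ ℂ ℂ +
    c2 φ • C.comp (ContinuousLinearMap.fst ℝ ℂ ℂ) - ContinuousLinearMap.snd ℝ ℂ ℂ +
    dd φ • C.comp (ContinuousLinearMap.snd ℝ ℂ ℂ)
  have hL : ∀ k l : ℂ, L (k, l) = c1 φ * k + c2 φ * conj k - l + dd φ * conj l := by
    intro k l
    simp [L, C]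
  refine ⟨L, ?_, hL⟩
  rw [hasFDerivAt_iff_isLittleO_nhds_zero]
  refine Asymptotics.IsBigO.trans_isLittleO (g := fun p : ℂ × ℂ => ‖p‖ ^ 2) ?_
    (Asymptotics.isLittleO_norm_pow_id one_lt_two)
  refine Asymptotics.IsBigO.of_bound 24 ?_
  filter_upwards [Metric.closedBall_mem_nhds (0 : ℂ × ℂ) (show (0 : ℝ) < 1 / 2 by norm_num)]
    with p hp
  rw [mem_closedBall_zero_iff] at hp
  have := desmb_int hφ (norm_fst_le p) (norm_snd_le p) hp
  rw [← hL] at this
  simpa using this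

end Pool.Agent.MC.DE
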