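import Pool.Agent.P.MP_2677b3_gt.DeSmA
import Pool.Agent.P.MP_2677b3_gt.DeSmB

open UpperHalfPlane Filter Topology Set
open scoped MatrixGroups ComplexConjugate Real

noncomputable section

namespace Pool.Agent.MC.DE

theorem ift_zero {φ F : ℂ → ℂ} (hφ : CMap φ) (h0 : G φ 0 0 = 0) (hd : ‖dd φ‖ < 1)
    (hF : ∀ z w : ℂ, ‖z‖ < 1 → ‖w‖ < 1 → G φ z w = 0 → F z = w) :
    ContDiffAt ℝ 1 F 0 ∧ ∀ k : ℂ,
      fderiv ℝ F 0 k - dd φ * conj (fderiv ℝ F 0 k) = c1 φ * k + c2 φ * conj k := by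
  have cdf := G_contDiffAt hφ
  obtain ⟨L, hL, hLe⟩ := G_hasFDerivAt hφ
  have hfd : fderiv ℝ (fun p : ℂ × ℂ => G φ p.1 p.2) (0, 0) = L := hL.fderiv
  have hinj : Function.Injective (L ∘L ContinuousLinearMap.inr ℝ ℂ ℂ) := by
    rw [injective_iff_map_eq_zero]
    intro l hl
    have h1 : L (0, l) = 0 := hl
    rw [hLe] at h1
    have h2 : l = dd φ * conj l := by
      simp only [mul_zero, map_zero, add_zero, zero_sub] at h1
      linear_combination -h1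
    have h3 : ‖l‖ = ‖dd φ‖ * ‖l‖ := by
      conv_lhs => rw [h2, norm_mul, Complex.norm_conj]
    by_contra h4
    have h5 : 0 < ‖l‖ := norm_pos_iff.2 h4
    nlinarith
  have hinv : (fderiv ℝ (fun p : ℂ × ℂ => G φ p.1 p.2) (0, 0) ∘L
      ContinuousLinearMap.inr ℝ ℂ ℂ).IsInvertible := by
    rw [hfd]
    exact ⟨(LinearEquiv.ofInjectiveEndo
      (L ∘L ContinuousLinearMap.inr ℝ ℂ ℂ).toLinearMap hinj).toContinuousLinearEquiv, rfl⟩
  have p0 : cdf.implicitFunction one_ne_zero hinv 0 = 0 :=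
    cdf.implicitFunction_apply_self one_ne_zero hinv
  have p1 : ∀ᶠ x in 𝓝 (0 : ℂ), G φ x (cdf.implicitFunction one_ne_zero hinv x) = G φ 0 0 :=
    cdf.eventually_apply_implicitFunction one_ne_zero hinv
  have p2 : ContDiffAt ℝ 1 (cdf.implicitFunction one_ne_zero hinv) 0 :=
    cdf.contDiffAt_implicitFunction one_ne_zero hinv
  generalize cdf.implicitFunction one_ne_zero hinv = ψ at p0 p1 p2
  rw [h0] at p1
  have q1 : ∀ᶠ x in 𝓝 (0 : ℂ), ‖x‖ < 1 :=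
    continuous_norm.continuousAt.eventually_lt continuousAt_const (by simp)
  have q2 : ∀ᶠ x in 𝓝 (0 : ℂ), ‖ψ x‖ < 1 :=
    p2.continuousAt.norm.eventually_lt continuousAt_const (by simp [p0])
  have he : F =ᶠ[𝓝 0] ψ := by
    filter_upwards [p1, q1, q2] with x a1 a2 a3 using hF x _ a2 a3 a1
  refine ⟨p2.congr_of_eventuallyEq he, fun k => ?_⟩
  rw [he.fderiv_eq]
  have d1 : HasFDerivAt ψ (fderiv ℝ ψ 0) 0 := (p2.differentiableAt one_ne_zero).hasFDerivAt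
  have d2 : HasFDerivAt (fun x : ℂ => (x, ψ x))
      ((ContinuousLinearMap.id ℝ ℂ).prod (fderiv ℝ ψ 0)) 0 := (hasFDerivAt_id 0).prodMk d1
  have hL' : HasFDerivAt (fun p : ℂ × ℂ => G φ p.1 p.2) L ((fun x : ℂ => (x, ψ x)) 0) := by
    simpa only [p0] using hL
  have d3 := hL'.comp 0 d2
  have d4 : HasFDerivAt ((fun p : ℂ × ℂ => G φ p.1 p.2) ∘ fun x : ℂ => (x, ψ x))
      (0 : ℂ →L[ℝ] ℂ) 0 := (hasFDerivAt_const (0 : ℂ) 0).congr_of_eventuallyEq p1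
  have d5 : L (k, fderiv ℝ ψ 0 k) = 0 := congrArg (fun T : ℂ →L[ℝ] ℂ => T k) (d3.unique d4)
  rw [hLe] at d5
  linear_combination -d5

end Pool.Agent.MC.DE
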