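import Pool.Agent.P.MP_2677b3_gt.DeJacA

open UpperHalfPlane Filter Topology Set
open scoped MatrixGroups ComplexConjugate Real

noncomputable section

namespace Pool.Agent.MC.DE

theorem dejacb_trig (a b c d : ℝ) (h : a + b + c + d = 2 * π) :
    Real.sin a + Real.sin b + Real.sin c + Real.sin d =
      4 * Real.sin ((a + b) / 2) * Real.sin ((a + c) / 2) * Real.sin ((b + c) / 2) := by
  obtain ⟨p, hp⟩ : ∃ p, p = (a + b) / 2 := ⟨_, rfl⟩
  obtain ⟨q, hq⟩ : ∃ q, q = (a + c) / 2 := ⟨_, rfl⟩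
  obtain ⟨r, hr⟩ : ∃ r, r = (b + c) / 2 := ⟨_, rfl⟩
  rw [← hp, ← hq, ← hr]
  have ha : a = p + q - r := by rw [hp, hq, hr]; ring
  have hb : b = p + r - q := by rw [hp, hq, hr]; ring
  have hc : c = q + r - p := by rw [hp, hq, hr]; ring
  have hd : d = 2 * π - (p + q + r) := by rw [hp, hq, hr]; linarith
  rw [ha, hb, hc, hd, Real.sin_two_pi_sub]
  simp only [Real.sin_add, Real.sin_sub, Real.cos_add]
  ring

theorem dejacb_sin_le {e x : ℝ} (he : 0 ≤ e) (h1 : e ≤ x) (h2 : x ≤ π - e) :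
    Real.sin e ≤ Real.sin x := by
  have hpi := Real.pi_pos
  rcases le_total x (π / 2) with hx | hx
  · exact Real.sin_le_sin_of_le_of_le_pi_div_two (by linarith) hx h1
  · rw [← Real.sin_pi_sub x]
    exact Real.sin_le_sin_of_le_of_le_pi_div_two (by linarith) (by linarith) (by linarith)

theorem dejacb_four {e a b c d : ℝ} (he : 0 ≤ e) (h : a + b + c + d = 2 * π)
    (ha : e ≤ a) (hb : e ≤ b) (hc : e ≤ c) (hd : e ≤ d) :
    4 * Real.sin e ^ 3 ≤ Real.sin a + Real.sin b + Real.sin c + Real.sin d := by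
  have hpi := Real.pi_pos
  rw [dejacb_trig a b c d h]
  have h0 : 0 ≤ Real.sin e := Real.sin_nonneg_of_nonneg_of_le_pi he (by linarith)
  have h1 : Real.sin e ≤ Real.sin ((a + b) / 2) := dejacb_sin_le he (by linarith) (by linarith)
  have h2 : Real.sin e ≤ Real.sin ((a + c) / 2) := dejacb_sin_le he (by linarith) (by linarith)
  have h3 : Real.sin e ≤ Real.sin ((b + c) / 2) := dejacb_sin_le he (by linarith) (by linarith)
  have h4 : Real.sin e * Real.sin e ≤ Real.sin ((a + b) / 2) * Real.sin ((a + c) / 2) :=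
    mul_le_mul h1 h2 h0 (h0.trans h1)
  have h5 : Real.sin e * Real.sin e * Real.sin e ≤
      Real.sin ((a + b) / 2) * Real.sin ((a + c) / 2) * Real.sin ((b + c) / 2) :=
    mul_le_mul h4 h3 h0 ((mul_nonneg h0 h0).trans h4)
  nlinarith [h5]

theorem dejacb_HH {h : ℝ → ℝ} (hp : ∀ t, h (t + 2 * π) = h t + 2 * π) {e u : ℝ} (he : 0 ≤ e)
    (h1 : ∀ t, e ≤ h (t + u) - h t) (h2 : ∀ t, e ≤ h (t + (π - u)) - h t) (t : ℝ) :
    4 * Real.sin e ^ 3 ≤ HH h t u := by
  unfold HH
  refine dejacb_four he (by ring) (h1 t) ?_ (h1 (t + π)) ?_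
  · have := h2 (t + u)
    rwa [show t + u + (π - u) = t + π by ring] at this
  · have := h2 (t + π + u)
    rwa [show t + π + u + (π - u) = t + 2 * π by ring, hp] at this

theorem dejacb_gap {η : ℝ} {φ : ℂ → ℂ} {h : ℝ → ℝ} (hm : StrictMono h)
    (hφ : ∀ t, φ (E t) = E (h t)) (hs : Sep η φ) {v : ℝ} (h1 : π / 4 ≤ v)
    (h2 : v ≤ 2 * π - π / 4) (t : ℝ) : η ≤ h (t + v) - h t := by
  have hpi := Real.pi_pos
  have h3 := hs (t + v) t (half_le_norm_E_sub t v h1 h2)
  rw [hφ, hφ] at h3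
  have h4 := h3.trans (norm_E_sub_le _ _)
  rwa [abs_of_nonneg (sub_nonneg.2 (hm.monotone (by linarith)))] at h4

theorem dejacb_int {h : ℝ → ℝ} (hc : Continuous h) {u m : ℝ} (hm : ∀ t, m ≤ HH h t u) :
    2 * π * m ≤ ∫ t in (0 : ℝ)..2 * π, HH h t u := by
  have hpi := Real.pi_pos
  have hcont : Continuous fun t => HH h t u := by unfold HH; fun_prop
  have := intervalIntegral.integral_mono_on (μ := MeasureTheory.volume) (a := 0) (b := 2 * π)
    (f := fun _ => m) (g := fun t => HH h t u) (by linarith) intervalIntegrable_const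
    (hcont.intervalIntegrable _ _) (fun t _ => hm t)
  simpa using this

theorem jac_lower {η : ℝ} (hη : 0 < η) : ∃ κ : ℝ, 0 < κ ∧ ∀ φ : ℂ → ℂ, PosHom φ → Sep η φ →
    ‖c2 φ‖ ^ 2 + κ ≤ ‖c1 φ‖ ^ 2 := by
  have hpi := Real.pi_pos
  have hpi3 := Real.pi_gt_three
  obtain ⟨e, he⟩ : ∃ e, e = min η 1 := ⟨_, rfl⟩
  have he0 : 0 < e := he ▸ lt_min hη one_pos
  have he1 : e ≤ 1 := he ▸ min_le_right _ _
  have he2 : e ≤ η := he ▸ min_le_left _ _
  have hs0 : 0 < Real.sin e := Real.sin_pos_of_pos_of_lt_pi he0 (by linarith)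
  refine ⟨Real.sin e ^ 3 / 2, by positivity, ?_⟩
  rintro φ ⟨h, hc, hm, hp, hφ⟩ hs
  have hid := jac_id hc hp hφ
  obtain ⟨f, hf⟩ : ∃ f : ℝ → ℝ, f = fun u => Real.sin u * ∫ t in (0 : ℝ)..2 * π, HH h t u :=
    ⟨_, rfl⟩
  have hfc : Continuous f := by
    rw [hf]
    refine Real.continuous_sin.mul ?_
    refine intervalIntegral.continuous_parametric_intervalIntegral_of_continuous'
      (f := fun u t => HH h t u) ?_ _ _
    unfold HH Function.uncurry
    fun_prop
  have hf0 : ∀ u ∈ Icc (0 : ℝ) π, 0 ≤ f u := by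
    intro u hu
    rw [hf]
    refine mul_nonneg (Real.sin_nonneg_of_nonneg_of_le_pi hu.1 hu.2) ?_
    have := dejacb_int hc (u := u) (m := 4 * Real.sin 0 ^ 3) (dejacb_HH hp le_rfl
      (fun t => sub_nonneg.2 (hm.monotone (by linarith [hu.1])))
      (fun t => sub_nonneg.2 (hm.monotone (by linarith [hu.2]))))
    simpa using this
  have hf1 : ∀ u ∈ Icc (π / 4) (3 * π / 4), 4 * π * Real.sin e ^ 3 ≤ f u := by
    intro u hu
    rw [hf]
    have h1 := dejacb_int hc (u := u) (m := 4 * Real.sin e ^ 3) (dejacb_HH hp he0.le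
      (fun t => he2.trans (dejacb_gap hm hφ hs hu.1 (by linarith [hu.2]) t))
      (fun t => he2.trans (dejacb_gap hm hφ hs (by linarith [hu.2]) (by linarith [hu.1]) t)))
    have h2 : 1 / 2 ≤ Real.sin u := by
      rw [← Real.sin_pi_div_six]
      exact dejacb_sin_le (by linarith) (by linarith [hu.1]) (by linarith [hu.2])
    have h3 : 0 ≤ 2 * π * (4 * Real.sin e ^ 3) := by positivity
    have h4 := mul_le_mul h2 h1 h3 (by linarith)
    show _ ≤ Real.sin u * _
    linarith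
  have hA : ∫ u in (π / 4)..(3 * π / 4), f u ≤ ∫ u in (0 : ℝ)..π, f u := by
    refine intervalIntegral.integral_mono_interval (by linarith) (by linarith) (by linarith) ?_
      (hfc.intervalIntegrable _ _)
    refine (MeasureTheory.ae_restrict_iff' measurableSet_Ioc).2 (Eventually.of_forall ?_)
    intro u hu
    exact hf0 u ⟨hu.1.le, hu.2⟩
  have hB : π / 2 * (4 * π * Real.sin e ^ 3) ≤ ∫ u in (π / 4)..(3 * π / 4), f u := by
    have := intervalIntegral.integral_mono_on (μ := MeasureTheory.volume) (a := π / 4)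
      (b := 3 * π / 4) (f := fun _ => 4 * π * Real.sin e ^ 3) (g := f) (by linarith)
      intervalIntegrable_const (hfc.intervalIntegrable _ _) hf1
    rw [intervalIntegral.integral_const, smul_eq_mul,
      show 3 * π / 4 - π / 4 = π / 2 by ring] at this
    exact this
  have hC : (2 * π) ^ 2 * (Real.sin e ^ 3 / 2) ≤ (2 * π) ^ 2 * (‖c1 φ‖ ^ 2 - ‖c2 φ‖ ^ 2) := by
    rw [hid]
    have : (∫ u in (0 : ℝ)..π, Real.sin u * ∫ t in (0 : ℝ)..2 * π, HH h t u) =
        ∫ u in (0 : ℝ)..π, f u := by rw [hf]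
    rw [this]
    nlinarith [hA, hB]
  have hD := le_of_mul_le_mul_left hC (by positivity)
  linarith

end Pool.Agent.MC.DE
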