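import Pool.Agent.P.MP_2677b3_gt.DeDefs

open UpperHalfPlane Filter Topology Set
open scoped MatrixGroups ComplexConjugate Real

noncomputable section

namespace Pool.Agent.MC.DE

theorem det_of_eq (L : ℂ →L[ℝ] ℂ) (p q : ℂ) (h : ∀ k, L k = p * k + q * conj k) :
    L.det = ‖p‖ ^ 2 - ‖q‖ ^ 2 := by
  rw [ContinuousLinearMap.det, ← LinearMap.det_toMatrix Complex.basisOneI, Matrix.det_fin_two,
    ← Complex.normSq_eq_norm_sq, ← Complex.normSq_eq_norm_sq]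
  simp [LinearMap.toMatrix_apply, h, Complex.normSq_apply]
  ring

theorem delin_det_comp (M L : ℂ →L[ℝ] ℂ) : (M.comp L).det = M.det * L.det :=
  LinearMap.det_comp (M : ℂ →ₗ[ℝ] ℂ) (L : ℂ →ₗ[ℝ] ℂ)

theorem lin_bound {κ : ℝ} (hκ : 0 < κ) (L : ℂ →L[ℝ] ℂ) {d p q : ℂ} (hd : ‖d‖ ≤ 1 - κ)
    (hpq : ‖q‖ ^ 2 + κ ≤ ‖p‖ ^ 2) (hp : ‖p‖ ≤ 1)
    (h : ∀ k, L k - d * conj (L k) = p * k + q * conj k) :
    0 < L.det ∧ ‖L‖ ^ 2 ≤ 4 / κ ^ 3 * L.det := by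
  let M : ℂ →L[ℝ] ℂ := ContinuousLinearMap.id ℝ ℂ - d • (Complex.conjCLE : ℂ →L[ℝ] ℂ)
  have hM : ∀ k, M k = 1 * k + (-d) * conj k := by
    intro k
    simp [M]
    ring
  have h1 := det_of_eq M 1 (-d) hM
  have h2 := det_of_eq (M.comp L) p q (fun k => by
    rw [ContinuousLinearMap.comp_apply, hM, ← h k]
    ring)
  rw [delin_det_comp, h1, norm_one, norm_neg] at h2
  have hd0 := norm_nonneg d
  have hq0 := norm_nonneg q
  have hp0 := norm_nonneg p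
  have h3 : 0 < 1 ^ 2 - ‖d‖ ^ 2 := by nlinarith
  have h4 : 0 < L.det := by
    refine pos_of_mul_pos_left (b := 1 ^ 2 - ‖d‖ ^ 2) ?_ h3.le
    rw [mul_comm, h2]
    linarith
  have h5 : κ ≤ L.det := by nlinarith [mul_nonneg (sq_nonneg ‖d‖) h4.le]
  have hq : ‖q‖ ≤ 1 := by nlinarith
  have h6 : ‖L‖ ≤ 2 / κ := by
    refine L.opNorm_le_bound (by positivity) fun k => ?_
    have h7 : ‖L k‖ ≤ ‖L k - d * conj (L k)‖ + ‖d‖ * ‖L k‖ := by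
      have := norm_add_le (L k - d * conj (L k)) (d * conj (L k))
      rwa [sub_add_cancel, norm_mul, Complex.norm_conj] at this
    have h8 : ‖p * k + q * conj k‖ ≤ 2 * ‖k‖ := by
      have := norm_add_le (p * k) (q * conj k)
      rw [norm_mul, norm_mul, Complex.norm_conj] at this
      nlinarith [norm_nonneg k]
    rw [h k] at h7
    rw [div_mul_eq_mul_div, le_div_iff₀ hκ]
    nlinarith [norm_nonneg (L k)]
  refine ⟨h4, ?_⟩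
  calc ‖L‖ ^ 2 ≤ (2 / κ) ^ 2 := pow_le_pow_left₀ (norm_nonneg _) h6 2
    _ = 4 / κ ^ 3 * κ := by field_simp; norm_num
    _ ≤ _ := mul_le_mul_of_nonneg_left h5 (by positivity)

theorem QCAt.congr {K : ℝ} {F F' : ℂ → ℂ} {z : ℂ} (h : QCAt K F z) (e : F' =ᶠ[𝓝 z] F) :
    QCAt K F' z := by
  refine ⟨h.1.congr_of_eventuallyEq e, ?_⟩
  rw [e.fderiv_eq]
  exact h.2

theorem QCAt.conf {K : ℝ} {F A B : ℂ → ℂ} {z : ℂ} (h : QCAt K F (B z)) (hB : AnalyticAt ℂ B z)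
    (hB' : deriv B z ≠ 0) (hA : AnalyticAt ℂ A (F (B z))) (hA' : deriv A (F (B z)) ≠ 0) :
    QCAt K (A ∘ F ∘ B) z := by
  obtain ⟨h1, h2, h3⟩ := h
  have cA : ContDiffAt ℝ 1 A (F (B z)) := (hA.contDiffAt (n := 1)).restrict_scalars ℝ
  have cB : ContDiffAt ℝ 1 B z := (hB.contDiffAt (n := 1)).restrict_scalars ℝ
  have dA := hA.differentiableAt.hasDerivAt.complexToReal_fderiv
  have dB := hB.differentiableAt.hasDerivAt.complexToReal_fderiv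
  have dF := (h1.differentiableAt one_ne_zero).hasFDerivAt
  have dC := (HasFDerivAt.comp (f := F ∘ B) z dA (dF.comp z dB)).fderiv
  refine ⟨ContDiffAt.comp (f := F ∘ B) z cA (h1.comp z cB), ?_⟩
  rw [dC]
  generalize deriv A (F (B z)) = α at hA' ⊢
  generalize deriv B z = β at hB' ⊢
  generalize fderiv ℝ F (B z) = L at h2 h3 ⊢
  have hdet : ∀ γ : ℂ, (γ • (1 : ℂ →L[ℝ] ℂ)).det = ‖γ‖ ^ 2 := fun γ => by
    rw [det_of_eq _ γ 0 (fun k => by simp)]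
    simp
  have hα : 0 < ‖α‖ := norm_pos_iff.2 hA'
  have hβ : 0 < ‖β‖ := norm_pos_iff.2 hB'
  rw [delin_det_comp, delin_det_comp, hdet, hdet]
  refine ⟨by positivity, ?_⟩
  have h4 : ‖(α • (1 : ℂ →L[ℝ] ℂ)).comp (L.comp (β • (1 : ℂ →L[ℝ] ℂ)))‖ ≤ ‖α‖ * ‖L‖ * ‖β‖ := by
    refine ContinuousLinearMap.opNorm_le_bound _ (by positivity) fun k => ?_
    have h5 := L.le_opNorm (β * k)
    rw [norm_mul] at h5
    show ‖α * L (β * k)‖ ≤ _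
    rw [norm_mul]
    calc ‖α‖ * ‖L (β * k)‖ ≤ ‖α‖ * (‖L‖ * (‖β‖ * ‖k‖)) := mul_le_mul_of_nonneg_left h5 hα.le
      _ = _ := by ring
  calc _ ≤ (‖α‖ * ‖L‖ * ‖β‖) ^ 2 := pow_le_pow_left₀ (norm_nonneg _) h4 2
    _ = ‖α‖ ^ 2 * ‖β‖ ^ 2 * ‖L‖ ^ 2 := by ring
    _ ≤ ‖α‖ ^ 2 * ‖β‖ ^ 2 * (K * L.det) := mul_le_mul_of_nonneg_left h3 (by positivity)
    _ = _ := by ring

end Pool.Agent.MC.DE
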