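import Pool.Agent.P.MP_2677b3_gt.DeE

open UpperHalfPlane Filter Topology Set
open scoped MatrixGroups ComplexConjugate Real

noncomputable section

namespace Pool.Agent.MC.DE

theorem deorib_int {h : ℝ → ℝ} (hp : ∀ t, h (t + 2 * π) = h t + 2 * π) (n : ℤ) (t : ℝ) :
    h (t + n * (2 * π)) = h t + n * (2 * π) := by
  have a : Function.Periodic (fun t => h t - t) (2 * π) := fun t => by
    simp only [hp]; ring
  have := a.int_mul n t
  linarith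

theorem deorib_red (a s : ℝ) : ∃ t, a ≤ t ∧ t < a + 2 * π ∧ E t = E s := by
  have hp : (0 : ℝ) < 2 * π := by positivity
  have m := toIcoMod_mem_Ico hp a s
  refine ⟨toIcoMod hp a s, m.1, m.2, E_eq_iff.2 ⟨-toIcoDiv hp a s, ?_⟩⟩
  have := toIcoMod_add_toIcoDiv_zsmul hp a s
  rw [zsmul_eq_mul] at this
  push_cast
  linarith

theorem NegHom.comp {φ ψ : ℂ → ℂ} (h : NegHom φ) (h' : NegHom ψ) : PosHom (ψ ∘ φ) := by
  obtain ⟨f, fc, fm, fp, fe⟩ := h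
  obtain ⟨g, gc, gm, gp, ge⟩ := h'
  refine ⟨g ∘ f, gc.comp fc, gm.comp fm, fun t => ?_, fun t => ?_⟩
  · have := gp (f t - 2 * π)
    rw [sub_add_cancel] at this
    simp only [Function.comp, fp]
    linarith
  · simp only [Function.comp, fe, ge]

theorem PosHom.comp {φ ψ : ℂ → ℂ} (h : PosHom φ) (h' : PosHom ψ) : PosHom (ψ ∘ φ) := by
  obtain ⟨f, fc, fm, fp, fe⟩ := h
  obtain ⟨g, gc, gm, gp, ge⟩ := h'
  refine ⟨g ∘ f, gc.comp fc, gm.comp fm, fun t => ?_, fun t => ?_⟩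
  · simp only [Function.comp, fp, gp]
  · simp only [Function.comp, fe, ge]

theorem PosHom.congr {φ ψ : ℂ → ℂ} (h : PosHom φ) (e : ∀ ξ : ℂ, ‖ξ‖ = 1 → ψ ξ = φ ξ) :
    PosHom ψ := by
  obtain ⟨f, fc, fm, fp, fe⟩ := h
  exact ⟨f, fc, fm, fp, fun t => (e _ (norm_E t)).trans (fe t)⟩

theorem PosHom.cmap {φ : ℂ → ℂ} (h : PosHom φ) : CMap φ := by
  obtain ⟨f, fc, -, -, fe⟩ := h
  refine ⟨?_, fun t => by rw [fe, norm_E]⟩
  simp only [fe]
  exact continuous_E.comp fc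

theorem PosHom.inj {φ : ℂ → ℂ} (h : PosHom φ) {s t : ℝ} (e : φ (E s) = φ (E t)) : E s = E t := by
  obtain ⟨f, -, fm, fp, fe⟩ := h
  rw [fe, fe] at e
  obtain ⟨n, hn⟩ := E_eq_iff.1 e
  rw [← deorib_int fp] at hn
  exact E_eq_iff.2 ⟨n, fm.injective hn⟩

theorem PosHom.sep {φ : ℂ → ℂ} (h : PosHom φ) : ∃ η : ℝ, 0 < η ∧ Sep η φ := by
  have hc := h.cmap.cont
  have c1 : Continuous fun x : ℝ × ℝ => ‖E x.1 - E x.2‖ :=
    ((continuous_E.comp continuous_fst).sub (continuous_E.comp continuous_snd)).norm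
  have c2 : Continuous fun x : ℝ × ℝ => ‖φ (E x.1) - φ (E x.2)‖ :=
    ((hc.comp continuous_fst).sub (hc.comp continuous_snd)).norm
  have k : IsCompact ((Icc (0 : ℝ) (2 * π) ×ˢ Icc (0 : ℝ) (2 * π)) ∩
      {x : ℝ × ℝ | 1 / 2 ≤ ‖E x.1 - E x.2‖}) :=
    (isCompact_Icc.prod isCompact_Icc).inter_right (isClosed_le continuous_const c1)
  obtain ⟨η, h0, hη⟩ := k.exists_forall_le' (a := 0) c2.continuousOn fun x hx => by
    refine norm_pos_iff.2 fun e => ?_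
    have a : 1 / 2 ≤ ‖E x.1 - E x.2‖ := hx.2
    rw [h.inj (sub_eq_zero.1 e), sub_self, norm_zero] at a
    norm_num at a
  refine ⟨η, h0, fun s t hst => ?_⟩
  obtain ⟨s', s1, s2, se⟩ := deorib_red 0 s
  obtain ⟨t', t1, t2, te⟩ := deorib_red 0 t
  rw [zero_add] at s2 t2
  rw [← se, ← te] at hst ⊢
  exact hη (s', t') ⟨⟨⟨s1, s2.le⟩, ⟨t1, t2.le⟩⟩, hst⟩

theorem PosHom.invol {φ : ℂ → ℂ} (h : PosHom φ) (hi : ∀ ξ : ℂ, ‖ξ‖ = 1 → φ (φ ξ) = ξ)
    (hf : ∃ ξ : ℂ, ‖ξ‖ = 1 ∧ φ ξ = ξ) {ξ : ℂ} (hξ : ‖ξ‖ = 1) : φ ξ = ξ := by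
  obtain ⟨f, -, fm, fp, fe⟩ := h
  obtain ⟨ζ, hζ, e0⟩ := hf
  obtain ⟨a, rfl⟩ := exists_E hζ
  obtain ⟨s, rfl⟩ := exists_E hξ
  rw [fe] at e0
  obtain ⟨n, hn⟩ := E_eq_iff.1 e0
  let g : ℝ → ℝ := fun t => f t - n * (2 * π)
  have gm : StrictMono g := fun x y hxy => sub_lt_sub_right (fm hxy) _
  have ge : ∀ t, φ (E t) = E (g t) := fun t => (fe t).trans (E_eq_iff.2 ⟨n, by simp only [g]; ring⟩)
  have g0 : g a = a := by simp only [g]; linarith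
  have g1 : g (a + 2 * π) = a + 2 * π := by simp only [g, fp]; linarith
  have gi : ∀ t, a ≤ t ∧ t < a + 2 * π → a ≤ g t ∧ g t < a + 2 * π := fun t ht =>
    ⟨g0.ge.trans (gm.monotone ht.1), (gm ht.2).trans_eq g1⟩
  obtain ⟨t, t1, t2, te⟩ := deorib_red a s
  rw [← te]
  have e1 := hi _ (norm_E t)
  rw [ge, ge] at e1
  obtain ⟨m, hm⟩ := E_eq_iff.1 e1
  obtain ⟨u1, u2⟩ := gi _ (gi t ⟨t1, t2⟩)
  have hp : (0 : ℝ) < 2 * π := by positivity
  have m1 : (m : ℝ) < 1 := lt_of_mul_lt_mul_right (by linarith) hp.le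
  have m2 : (-1 : ℝ) < m := lt_of_mul_lt_mul_right (by linarith) hp.le
  have m0 : m = 0 := by
    have a1 : m < 1 := by exact_mod_cast m1
    have a2 : -1 < m := by exact_mod_cast m2
    omega
  rw [m0, Int.cast_zero, zero_mul, add_zero] at hm
  have : g t = t := by
    rcases lt_trichotomy (g t) t with l | l | l
    · have := gm l
      linarith
    · exact l
    · have := gm l
      linarith
  rw [ge, this]

end Pool.Agent.MC.DE
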