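import Pool.Agent.P.MP_2677b3_gt.DeMob
import Pool.Agent.P.MP_2677b3_gt.DeOriB

open UpperHalfPlane Filter Topology Set
open scoped MatrixGroups ComplexConjugate Real

noncomputable section

namespace Pool.Agent.MC.DE

theorem deuniq_re {w x : ℂ} (hw : ‖w‖ < 1) (hx : ‖x‖ = 1) :
    (conj w * (ker 0 x - ker w x)).re = 2 * (conj w * x).im ^ 2 / Complex.normSq (1 - conj w * x) := by
  have hd := ker_den_ne hw hx.le
  have h1 : x * conj x = 1 := by
    rw [Complex.mul_conj, Complex.normSq_eq_norm_sq, hx]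
    simp
  obtain ⟨y, hy⟩ : ∃ y, y = conj w * x := ⟨_, rfl⟩
  have h2 : conj w * (ker 0 x - ker w x) = (y * conj y - y ^ 2) / (1 - y) := by
    unfold ker
    rw [hy]
    simp only [map_zero, zero_mul, sub_zero, div_one, map_mul, Complex.conj_conj]
    field_simp
    linear_combination (-(conj w * w)) * h1
  rw [h2, ← hy, Complex.div_re]
  have h3 : Complex.normSq (1 - y) ≠ 0 := by
    rw [hy]
    exact fun h => hd (Complex.normSq_eq_zero.1 h)
  field_simp
  simp only [pow_two, Complex.sub_re, Complex.mul_re, Complex.conj_re, Complex.conj_im,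
    Complex.sub_im, Complex.mul_im, Complex.one_re, Complex.one_im]
  ring

theorem deuniq_im {φ : ℂ → ℂ} (hφ : CMap φ) {z w : ℂ} (hz : ‖z‖ < 1) (hw : ‖w‖ < 1)
    (e₁ : G φ z 0 = 0) (e₂ : G φ z w = 0) {t : ℝ} (ht : t ∈ Icc (0 : ℝ) (2 * π)) :
    (conj w * φ (E t)).im = 0 := by
  by_contra hne
  have hpi : (2 * π : ℂ)⁻¹ ≠ 0 :=
    inv_ne_zero (mul_ne_zero two_ne_zero (Complex.ofReal_ne_zero.2 Real.pi_ne_zero))
  have cp : Continuous fun t : ℝ => (pk z (E t) : ℂ) :=
    Complex.continuous_ofReal.comp (continuous_pk hz)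
  have c0 : Continuous fun t : ℝ => ker 0 (φ (E t)) * (pk z (E t) : ℂ) :=
    (hφ.continuous_ker (w := 0) (by simp)).mul cp
  have cw : Continuous fun t : ℝ => ker w (φ (E t)) * (pk z (E t) : ℂ) :=
    (hφ.continuous_ker hw).mul cp
  have i0 := (mul_eq_zero.1 e₁).resolve_left hpi
  have iw := (mul_eq_zero.1 e₂).resolve_left hpi
  have cF : Continuous fun t : ℝ => conj w * (ker 0 (φ (E t)) * (pk z (E t) : ℂ) -
      ker w (φ (E t)) * (pk z (E t) : ℂ)) := continuous_const.mul (c0.sub cw)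
  have iF : ∫ t in (0 : ℝ)..2 * π, conj w * (ker 0 (φ (E t)) * (pk z (E t) : ℂ) -
      ker w (φ (E t)) * (pk z (E t) : ℂ)) = 0 := by
    rw [intervalIntegral.integral_const_mul, intervalIntegral.integral_sub
      (c0.intervalIntegrable _ _) (cw.intervalIntegrable _ _), i0, iw, sub_zero, mul_zero]
  have iR := Complex.reCLM.intervalIntegral_comp_comm (cF.intervalIntegrable (μ := MeasureTheory.volume)
    0 (2 * π))
  rw [iF, map_zero] at iR
  have hv : ∀ s : ℝ, Complex.reCLM (conj w * (ker 0 (φ (E s)) * (pk z (E s) : ℂ) -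
      ker w (φ (E s)) * (pk z (E s) : ℂ))) =
      2 * (conj w * φ (E s)).im ^ 2 / Complex.normSq (1 - conj w * φ (E s)) * pk z (E s) := by
    intro s
    rw [← deuniq_re hw (hφ.norm s), Complex.reCLM_apply, ← sub_mul, ← mul_assoc,
      Complex.re_mul_ofReal]
  have hlt := intervalIntegral.integral_lt_integral_of_continuousOn_of_le_of_exists_lt
    (f := fun _ => (0 : ℝ)) Real.two_pi_pos continuousOn_const
    (Complex.reCLM.continuous.comp cF).continuousOn (fun s _ => by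
      rw [Function.comp_apply, hv]
      exact mul_nonneg (div_nonneg (by positivity) (Complex.normSq_nonneg _))
        (pk_pos hz (norm_E s)).le) ⟨t, ht, by
      rw [Function.comp_apply, hv]
      exact mul_pos (div_pos (by positivity) (Complex.normSq_pos.2
        (ker_den_ne hw (hφ.norm t).le))) (pk_pos hz (norm_E t))⟩
  simp only [intervalIntegral.integral_zero, Function.comp_def] at hlt
  exact hlt.ne' iR

theorem deuniq_two {w x y : ℂ} (hw : w ≠ 0) (hx : ‖x‖ = 1) (hy : ‖y‖ = 1)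
    (h1 : (conj w * x).im = 0) (h2 : (conj w * y).im = 0) : x = y ∨ x = -y := by
  have hc : conj w ≠ 0 := (map_ne_zero _).2 hw
  have n1 : ‖conj w * x‖ = ‖conj w * y‖ := by rw [norm_mul, norm_mul, hx, hy]
  rw [← Complex.abs_re_eq_norm.2 h1, ← Complex.abs_re_eq_norm.2 h2, abs_eq_abs] at n1
  rcases n1 with h | h
  · exact Or.inl (mul_left_cancel₀ hc (Complex.ext h (h1.trans h2.symm)))
  · refine Or.inr (mul_left_cancel₀ hc (Complex.ext ?_ ?_))
    · rw [mul_neg, Complex.neg_re, h]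
    · rw [mul_neg, Complex.neg_im, h1, h2, neg_zero]

theorem G_unique {φ : ℂ → ℂ} (hφ : PosHom φ) {z w₁ w₂ : ℂ} (hz : ‖z‖ < 1) (h₁ : ‖w₁‖ < 1)
    (h₂ : ‖w₂‖ < 1) (e₁ : G φ z w₁ = 0) (e₂ : G φ z w₂ = 0) : w₁ = w₂ := by
  have hm : ‖-w₁‖ < ‖(1 : ℂ)‖ := by simpa using h₁
  have hc := hφ.cmap
  have hc' := hc.mob hm
  have f₁ := (G_left hc hm z h₁).2 e₁
  have f₂ := (G_left hc hm z h₂).2 e₂
  rw [mob_one_neg] at f₁
  refine mob_injOn hm h₁.le h₂.le ?_
  rw [mob_one_neg]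
  by_contra hne
  have hw : mob 1 (-w₁) w₂ ≠ 0 := fun h => hne h.symm
  have hpi := Real.pi_pos
  have k := fun t ht => deuniq_im hc' hz (mob_lt hm h₂) f₁ f₂ (t := t) ht
  have k0 := k 0 ⟨le_rfl, by linarith⟩
  have k1 := k (0 + 2 * π / 3) ⟨by linarith, by linarith⟩
  have k2 := k (0 + 4 * π / 3) ⟨by linarith, by linarith⟩
  obtain ⟨η, hη, hs⟩ := hφ.sep
  obtain ⟨s1, s2, s3⟩ := hs.three 0
  have inj : ∀ s t : ℝ, η ≤ ‖φ (E s) - φ (E t)‖ →
      (mob 1 (-w₁) ∘ φ) (E s) ≠ (mob 1 (-w₁) ∘ φ) (E t) := by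
    intro s t h e
    rw [mob_injOn hm (hc.norm s).le (hc.norm t).le e, sub_self, norm_zero] at h
    linarith
  have a1 := (deuniq_two hw (hc'.norm _) (hc'.norm _) k1 k0).resolve_left (inj _ _ s1)
  have a2 := (deuniq_two hw (hc'.norm _) (hc'.norm _) k2 k0).resolve_left (inj _ _ s2)
  exact inj _ _ s3 (a2.trans a1.symm)

end Pool.Agent.MC.DE
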