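import Pool.Agent.P.MP_2677b3_gt.DeLift
import Pool.Agent.P.MP_2677b3_gt.DeUniq
import Pool.Agent.P.MP_2677b3_gt.DeExB
import Pool.Agent.P.MP_2677b3_gt.DeIFT
import Pool.Agent.P.MP_2677b3_gt.DeJacB
import Pool.Agent.P.MP_2677b3_gt.DeDD
import Pool.Agent.P.MP_2677b3_gt.DeLin

open UpperHalfPlane Filter Topology Set
open scoped MatrixGroups ComplexConjugate Real

noncomputable section

namespace Pool.Agent.MC.DE

theorem ext_spec {φ : ℂ → ℂ} (hφ : PosHom φ) {z : ℂ} (hz : ‖z‖ < 1) :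
    ‖ext φ z‖ < 1 ∧ G φ z (ext φ z) = 0 := by
  have hz1 : ‖z‖ < ‖(1 : ℂ)‖ := by simpa using hz
  have hp : PosHom (φ ∘ mob 1 z) := (posHom_mob hz1).comp hφ
  obtain ⟨η, hη, hs⟩ := hp.sep
  obtain ⟨r, hr, hex⟩ := G_exists hη
  obtain ⟨v, hv, hG⟩ := hex _ hp.cmap hs
  have hv1 : ‖v‖ < 1 := hv.trans_lt hr
  rw [G_right hφ.cmap hz1 (by simp) hv1, mob_one_zero] at hG
  exact Classical.epsilon_spec (p := fun w => ‖w‖ < 1 ∧ G φ z w = 0) ⟨v, hv1, hG⟩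

theorem ext_eq {φ : ℂ → ℂ} (hφ : PosHom φ) {z w : ℂ} (hz : ‖z‖ < 1) (hw : ‖w‖ < 1)
    (e : G φ z w = 0) : ext φ z = w :=
  G_unique hφ hz (ext_spec hφ hz).1 hw (ext_spec hφ hz).2 e

theorem ext_nat {φ ψ : ℂ → ℂ} (hφ : PosHom φ) (hψ : PosHom ψ) {a b a' b' : ℂ} (h : ‖b‖ < ‖a‖)
    (h' : ‖b'‖ < ‖a'‖) (e : ∀ ξ : ℂ, ‖ξ‖ = 1 → φ (mob a b ξ) = mob a' b' (ψ ξ)) {z : ℂ}
    (hz : ‖z‖ < 1) : ext φ (mob a b z) = mob a' b' (ext ψ z) := by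
  obtain ⟨h1, h2⟩ := ext_spec hψ hz
  have h3 := (G_left hψ.cmap h' z h1).2 h2
  have h4 : ‖mob a' b' (ext ψ z)‖ < 1 := mob_lt h' h1
  rw [← G_congr (φ := φ ∘ mob a b) (ψ := mob a' b' ∘ ψ) (fun ξ hξ => e ξ hξ), G_right hφ.cmap h hz h4] at h3
  exact ext_eq hφ (mob_lt h hz) h4 h3

theorem dedisc_mob_id (u : ℂ) : mob 1 0 u = u := by simp [mob]

theorem disc_pt {η : ℝ} (hη : 0 < η) : ∃ r K' : ℝ, r < 1 ∧ ∀ φ : ℂ → ℂ, PosHom φ → Sep η φ →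
    ‖ext φ 0‖ ≤ r ∧ QCAt K' (ext φ) 0 := by
  obtain ⟨r0, hr0, hex⟩ := G_exists hη
  set r := max r0 0 with hrdef
  have hr : r < 1 := max_lt hr0 one_pos
  have hr' : 0 ≤ r := le_max_right _ _
  have hη' : 0 < η * (1 - r ^ 2) / 4 := by
    have : 0 < 1 - r ^ 2 := by nlinarith
    positivity
  obtain ⟨κ₁, hκ₁, hj⟩ := jac_lower hη'
  obtain ⟨κ₂, hκ₂, hd⟩ := dd_lower hη'
  set κ := min κ₁ κ₂ with hκdef
  have hκ : 0 < κ := lt_min hκ₁ hκ₂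
  refine ⟨r, 4 / κ ^ 3, hr, fun φ hφ hs => ?_⟩
  obtain ⟨v, hv0, hG⟩ := hex φ hφ.cmap hs
  have hv : ‖v‖ ≤ r := hv0.trans (le_max_left _ _)
  have hv1 : ‖v‖ < 1 := hv.trans_lt hr
  have hvn : ‖-v‖ < ‖(1 : ℂ)‖ := by simpa using hv1
  have hvp : ‖v‖ < ‖(1 : ℂ)‖ := by simpa using hv1
  have he : ext φ 0 = v := ext_eq hφ (by simp) hv1 hG
  refine ⟨he ▸ hv, ?_⟩
  set ψ : ℂ → ℂ := mob 1 (-v) ∘ φ with hψdef
  have hψ : PosHom ψ := hφ.comp (posHom_mob hvn)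
  have hsψ : Sep (η * (1 - r ^ 2) / 4) ψ := hs.mob hφ.cmap hη.le hv hr
  have hG0 : G ψ 0 0 = 0 := by
    have := (G_left hφ.cmap hvn 0 hv1).2 hG
    rwa [mob_one_neg] at this
  have hdd : ‖dd ψ‖ ≤ 1 - κ := (hd ψ hψ.cmap hsψ).trans (by have := min_le_right κ₁ κ₂; linarith)
  have hjj : ‖c2 ψ‖ ^ 2 + κ ≤ ‖c1 ψ‖ ^ 2 :=
    le_trans (by have := min_le_left κ₁ κ₂; linarith) (hj ψ hψ hsψ)
  obtain ⟨hC, hL⟩ := ift_zero (F := ext ψ) hψ.cmap hG0 (by linarith)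
    (fun z w hz hw e => ext_eq hψ hz hw e)
  have hQ : QCAt (4 / κ ^ 3) (ext ψ) 0 := ⟨hC, lin_bound hκ _ hdd hjj hψ.cmap.c_le.1 hL⟩
  have h00 : ext ψ 0 = 0 := ext_eq hψ (by simp) (by simp) hG0
  have hQ2 : QCAt (4 / κ ^ 3) (mob 1 v ∘ ext ψ ∘ id) 0 := by
    refine QCAt.conf (B := id) hQ analyticAt_id (by simp) ?_ ?_
    · exact mob_analyticAt hvp (by simp [h00])
    · exact mob_deriv_ne hvp (by simp [h00])
  refine hQ2.congr ?_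
  have hb : ∀ᶠ z : ℂ in 𝓝 0, ‖z‖ < 1 := by
    have := Metric.ball_mem_nhds (0 : ℂ) one_pos
    filter_upwards [this] with z hz using by simpa using hz
  filter_upwards [hb] with z hz
  have := ext_nat hφ hψ (a := 1) (b := 0) (a' := 1) (b' := v) (by simp) hvp (fun ξ hξ => by
    obtain ⟨t, rfl⟩ := exists_E hξ
    have h1 := mob_inv' (a := 1) (b := v) hvp (hφ.cmap.norm t).le
    rw [map_one] at h1
    rw [dedisc_mob_id]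
    exact h1.symm) hz
  rw [dedisc_mob_id] at this
  exact this

end Pool.Agent.MC.DE
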