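import Pool.Agent.P.MP_2677b3_gt.DeDefs

open UpperHalfPlane Filter Topology Set
open scoped MatrixGroups ComplexConjugate Real

noncomputable section

namespace Pool.Agent.MC.DE

theorem norm_E (t : ℝ) : ‖E t‖ = 1 := by
  unfold E
  exact Complex.norm_exp_ofReal_mul_I t

theorem E_add (s t : ℝ) : E (s + t) = E s * E t := by
  unfold E
  rw [← Complex.exp_add]
  congr 1
  push_cast
  ring

theorem E_per (t : ℝ) : E (t + 2 * π) = E t := by
  rw [E_add]
  have h : E (2 * π) = 1 := by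
    unfold E
    push_cast
    exact Complex.exp_two_pi_mul_I
  rw [h, mul_one]

theorem conj_E (t : ℝ) : conj (E t) = E (-t) := by
  unfold E
  rw [← Complex.exp_conj]
  congr 1
  simp

theorem E_re (t : ℝ) : (E t).re = Real.cos t := by
  unfold E
  exact Complex.exp_ofReal_mul_I_re t

theorem E_im (t : ℝ) : (E t).im = Real.sin t := by
  unfold E
  exact Complex.exp_ofReal_mul_I_im t

theorem continuous_E : Continuous E := by
  unfold E
  fun_prop

theorem hasDerivAt_E (t : ℝ) : HasDerivAt E (E t * Complex.I) t := by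
  have h1 : HasDerivAt (fun s : ℝ => (s : ℂ) * Complex.I) (Complex.I) t := by
    simpa using (Complex.ofRealCLM.hasDerivAt (x := t)).mul_const Complex.I
  exact h1.cexp

theorem exists_E {ζ : ℂ} (h : ‖ζ‖ = 1) : ∃ t, E t = ζ := by
  refine ⟨Complex.arg ζ, ?_⟩
  unfold E
  have h2 := Complex.norm_mul_exp_arg_mul_I ζ
  rw [h] at h2
  simpa using h2

theorem E_eq_iff {s t : ℝ} : E s = E t ↔ ∃ n : ℤ, s = t + n * (2 * π) := by
  unfold E
  rw [Complex.exp_eq_exp_iff_exists_int]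
  constructor
  · rintro ⟨n, hn⟩
    refine ⟨n, ?_⟩
    have h2 := congrArg Complex.im hn
    simpa using h2
  · rintro ⟨n, hn⟩
    refine ⟨n, ?_⟩
    rw [hn]
    push_cast
    ring

theorem norm_E_sub (s t : ℝ) : ‖E s - E t‖ = 2 * |Real.sin ((s - t) / 2)| := by
  have h1 : E s - E t = E t * (E (s - t) - 1) := by
    rw [mul_sub, ← E_add, mul_one]
    congr 2
    ring
  rw [h1, norm_mul, norm_E, one_mul]
  unfold E
  rw [mul_comm ((s - t : ℝ) : ℂ) Complex.I, Complex.norm_exp_I_mul_ofReal_sub_one, norm_mul]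
  simp

theorem norm_E_sub_le (s t : ℝ) : ‖E s - E t‖ ≤ |s - t| := by
  rw [norm_E_sub]
  have h := Real.abs_sin_le_abs (x := (s - t) / 2)
  rw [abs_div] at h
  have h2 : |(2 : ℝ)| = 2 := by norm_num
  rw [h2] at h
  linarith

/-- Arcs of length between `π/4` and `2π - π/4` have chords of length at least `1/2`. -/
theorem half_le_norm_E_sub (t u : ℝ) (h1 : π / 4 ≤ u) (h2 : u ≤ 2 * π - π / 4) :
    1 / 2 ≤ ‖E (t + u) - E t‖ := by
  rw [norm_E_sub]
  have hπ := Real.pi_pos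
  have e : (t + u - t) / 2 = u / 2 := by ring
  rw [e]
  have key : ∀ x : ℝ, π / 8 ≤ x → x ≤ π / 2 → 1 / 4 ≤ Real.sin x := by
    intro x hx1 hx2
    have h3 := Real.mul_le_sin (x := x) (by linarith) hx2
    have h4 : 2 / π * (π / 8) ≤ 2 / π * x :=
      mul_le_mul_of_nonneg_left hx1 (by positivity)
    have h5 : 2 / π * (π / 8) = 1 / 4 := by
      field_simp
      norm_num
    linarith
  have h6 : 1 / 4 ≤ Real.sin (u / 2) := by
    by_cases hu : u / 2 ≤ π / 2
    · exact key _ (by linarith) hu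
    · rw [← Real.sin_pi_sub]
      exact key _ (by linarith) (by linarith)
  have h7 := le_abs_self (Real.sin (u / 2))
  linarith

/-- Averaging over three rotations. -/
theorem int_three (g : ℂ → ℝ) (hg : Continuous fun t : ℝ => g (E t)) :
    3 * ∫ t in (0 : ℝ)..2 * π, g (E t) =
      ∫ t in (0 : ℝ)..2 * π, (g (E t) + g (E (t + 2 * π / 3)) + g (E (t + 4 * π / 3))) := by
  have hper : Function.Periodic (fun t : ℝ => g (E t)) (2 * π) := fun t => by
    simp only [E_per]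
  have hsh : ∀ c : ℝ, ∫ t in (0 : ℝ)..2 * π, g (E (t + c)) = ∫ t in (0 : ℝ)..2 * π, g (E t) := by
    intro c
    have h1 := intervalIntegral.integral_comp_add_right (a := (0 : ℝ)) (b := 2 * π)
      (fun t : ℝ => g (E t)) c
    have h2 := hper.intervalIntegral_add_eq c 0
    rw [h1]
    simpa [add_comm] using h2
  have hc : ∀ c : ℝ, Continuous fun t : ℝ => g (E (t + c)) := fun c =>
    hg.comp (continuous_add_const c)
  have hc2 : Continuous fun t : ℝ => g (E t) + g (E (t + 2 * π / 3)) := hg.add (hc _)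
  rw [intervalIntegral.integral_add
      (hc2.intervalIntegrable _ _) ((hc _).intervalIntegrable _ _),
    intervalIntegral.integral_add (hg.intervalIntegrable _ _) ((hc _).intervalIntegrable _ _),
    hsh, hsh]
  ring

/-- The images of three equally spaced points are pairwise `η`-separated. -/
theorem Sep.three {η : ℝ} {φ : ℂ → ℂ} (h : Sep η φ) (t : ℝ) :
    η ≤ ‖φ (E (t + 2 * π / 3)) - φ (E t)‖ ∧ η ≤ ‖φ (E (t + 4 * π / 3)) - φ (E t)‖ ∧
      η ≤ ‖φ (E (t + 4 * π / 3)) - φ (E (t + 2 * π / 3))‖ := by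
  have hπ := Real.pi_pos
  refine ⟨h _ _ (half_le_norm_E_sub t _ (by linarith) (by linarith)),
    h _ _ (half_le_norm_E_sub t _ (by linarith) (by linarith)), h _ _ ?_⟩
  have e : t + 4 * π / 3 = (t + 2 * π / 3) + 2 * π / 3 := by ring
  rw [e]
  exact half_le_norm_E_sub _ _ (by linarith) (by linarith)

theorem ker_den_ne {w x : ℂ} (hw : ‖w‖ < 1) (hx : ‖x‖ ≤ 1) : 1 - conj w * x ≠ 0 := by
  intro h
  have h1 : conj w * x = 1 := by linear_combination -h
  have h2 := congrArg norm h1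
  rw [norm_mul, Complex.norm_conj, norm_one] at h2
  have h3 : ‖w‖ * ‖x‖ ≤ ‖w‖ * 1 := mul_le_mul_of_nonneg_left hx (norm_nonneg _)
  linarith

theorem norm_ker {w x : ℂ} (hw : ‖w‖ < 1) (hx : ‖x‖ = 1) : ‖ker w x‖ = 1 := by
  unfold ker
  have hne := ker_den_ne hw hx.le
  have hxx : conj x * x = 1 := by
    rw [Complex.conj_mul', hx]
    norm_num
  have h1 : 1 - conj w * x = conj (x - w) * x := by
    rw [map_sub, sub_mul, hxx]
  have h2 : ‖1 - conj w * x‖ = ‖x - w‖ := by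
    rw [h1, norm_mul, Complex.norm_conj, hx, mul_one]
  rw [norm_div, ← h2]
  exact div_self (norm_ne_zero_iff.2 hne)

theorem pk_pos {z ζ : ℂ} (hz : ‖z‖ < 1) (hζ : ‖ζ‖ = 1) : 0 < pk z ζ := by
  unfold pk
  have h1 : ζ - z ≠ 0 := by
    intro h
    rw [sub_eq_zero] at h
    rw [h] at hζ
    linarith
  have h2 : 0 < ‖ζ - z‖ := norm_pos_iff.2 h1
  have h3 : 0 < 1 - ‖z‖ ^ 2 := by nlinarith [norm_nonneg z]
  positivity

theorem pk_zero {ζ : ℂ} (hζ : ‖ζ‖ = 1) : pk 0 ζ = 1 := by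
  unfold pk
  simp [hζ]

theorem continuous_pk {z : ℂ} (hz : ‖z‖ < 1) : Continuous fun t : ℝ => pk z (E t) := by
  unfold pk
  refine continuous_const.div (((continuous_E.sub continuous_const).norm).pow 2) fun t => ?_
  have h1 : E t - z ≠ 0 := by
    intro h
    rw [sub_eq_zero] at h
    have h2 := norm_E t
    rw [h] at h2
    linarith
  exact pow_ne_zero 2 (norm_ne_zero_iff.2 h1)

theorem CMap.continuous_ker {φ : ℂ → ℂ} (h : CMap φ) {w : ℂ} (hw : ‖w‖ < 1) :
    Continuous fun t : ℝ => ker w (φ (E t)) := by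
  unfold ker
  exact (h.cont.sub continuous_const).div (continuous_const.sub (continuous_const.mul h.cont))
    fun t => ker_den_ne hw (h.norm t).le

theorem G_zero (φ : ℂ → ℂ) (w : ℂ) :
    G φ 0 w = (2 * π : ℂ)⁻¹ * ∫ t in (0 : ℝ)..2 * π, ker w (φ (E t)) := by
  unfold G
  simp only [pk_zero (norm_E _), Complex.ofReal_one, mul_one]

theorem G_congr {φ ψ : ℂ → ℂ} (h : ∀ ξ : ℂ, ‖ξ‖ = 1 → φ ξ = ψ ξ) (z w : ℂ) :
    G φ z w = G ψ z w := by
  unfold G
  simp only [h _ (norm_E _)]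

theorem Sep.congr {η : ℝ} {φ ψ : ℂ → ℂ} (hs : Sep η φ) (h : ∀ ξ : ℂ, ‖ξ‖ = 1 → ψ ξ = φ ξ) :
    Sep η ψ := by
  intro s t hst
  rw [h _ (norm_E s), h _ (norm_E t)]
  exact hs s t hst

theorem CMap.c_le {φ : ℂ → ℂ} (h : CMap φ) : ‖c1 φ‖ ≤ 1 ∧ ‖c2 φ‖ ≤ 1 := by
  have hπ := Real.pi_pos
  have key : ∀ f : ℝ → ℂ, (∀ t, ‖f t‖ ≤ 1) →
      ‖(2 * π : ℂ)⁻¹ * ∫ t in (0 : ℝ)..2 * π, f t‖ ≤ 1 := by
    intro f hf
    have h1 := intervalIntegral.norm_integral_le_of_norm_le_const (a := (0 : ℝ)) (b := 2 * π)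
      (f := f) (C := 1) fun t _ => hf t
    have h2 : |2 * π - 0| = 2 * π := by
      rw [sub_zero]
      exact abs_of_pos (by positivity)
    rw [h2, one_mul] at h1
    have h3 : ‖(2 * π : ℂ)⁻¹‖ = (2 * π)⁻¹ := by
      rw [norm_inv, norm_mul, Complex.norm_real, Real.norm_of_nonneg hπ.le]
      simp
    rw [norm_mul, h3]
    calc (2 * π)⁻¹ * ‖∫ t in (0 : ℝ)..2 * π, f t‖ ≤ (2 * π)⁻¹ * (2 * π) :=
          mul_le_mul_of_nonneg_left h1 (by positivity)
      _ = 1 := inv_mul_cancel₀ (by positivity)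
  constructor
  · unfold c1
    refine key _ fun t => ?_
    rw [norm_mul, h.norm, Complex.norm_conj, norm_E, one_mul]
  · unfold c2
    refine key _ fun t => ?_
    rw [norm_mul, h.norm, norm_E, one_mul]

end Pool.Agent.MC.DE
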