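import Pool.Agent.P.MP_2677b3_gt.DeE

open UpperHalfPlane Filter Topology Set
open scoped MatrixGroups ComplexConjugate Real

noncomputable section

namespace Pool.Agent.MC.DE

theorem deexa_dist {x w : ℂ} (hx : ‖x‖ = 1) : 1 - ‖w‖ ≤ ‖x - w‖ := by
  have := norm_sub_norm_le x w
  rwa [hx] at this

theorem deexa_den {w : ℂ} (hw : ‖w‖ < 1) : 0 < 1 - ‖w‖ ^ 2 := by
  have := norm_nonneg w
  nlinarith

theorem deexa_arg_pos {x w : ℂ} (hx : ‖x‖ = 1) (hw : ‖w‖ < 1) :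
    0 < ‖x - w‖ ^ 2 / (1 - ‖w‖ ^ 2) := by
  have h1 := deexa_dist (w := w) hx
  have h2 : 0 < ‖x - w‖ := by linarith
  exact div_pos (by positivity) (deexa_den hw)

theorem deexa_cont {φ : ℂ → ℂ} (hφ : CMap φ) {w : ℂ} (hw : ‖w‖ < 1) :
    Continuous fun t : ℝ => Real.log (‖φ (E t) - w‖ ^ 2 / (1 - ‖w‖ ^ 2)) :=
  Continuous.log (((hφ.cont.sub continuous_const).norm.pow 2).div_const _)
    fun t => (deexa_arg_pos (hφ.norm t) hw).ne'

theorem Bus_zero {φ : ℂ → ℂ} (hφ : CMap φ) : Bus φ 0 = 0 := by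
  unfold Bus
  simp [hφ.norm]

theorem Bus_continuousOn {φ : ℂ → ℂ} (hφ : CMap φ) {r : ℝ} (hr : r < 1) :
    ContinuousOn (Bus φ) (Metric.closedBall 0 r) := by
  rw [continuousOn_iff_continuous_domRestrict]
  have hlt : ∀ w : Metric.closedBall (0 : ℂ) r, ‖(w : ℂ)‖ < 1 := fun w =>
    lt_of_le_of_lt (mem_closedBall_zero_iff.1 w.2) hr
  have hc : Continuous (Function.uncurry fun (w : Metric.closedBall (0 : ℂ) r) (t : ℝ) =>
      Real.log (‖φ (E t) - (w : ℂ)‖ ^ 2 / (1 - ‖(w : ℂ)‖ ^ 2))) := by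
    have c1 : Continuous fun p : Metric.closedBall (0 : ℂ) r × ℝ => (p.1 : ℂ) :=
      continuous_subtype_val.comp continuous_fst
    have c2 : Continuous fun p : Metric.closedBall (0 : ℂ) r × ℝ => φ (E p.2) :=
      hφ.cont.comp continuous_snd
    exact Continuous.log (((c2.sub c1).norm.pow 2).div (continuous_const.sub (c1.norm.pow 2))
      fun p => (deexa_den (hlt p.1)).ne') fun p => (deexa_arg_pos (hφ.norm p.2) (hlt p.1)).ne'
  exact intervalIntegral.continuous_parametric_intervalIntegral_of_continuous' hc 0 (2 * π)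

theorem deexa_prod {a b c e d : ℝ} (he : 0 ≤ e) (hd : 0 ≤ d) (ha : d ≤ a) (hb : d ≤ b)
    (hc : d ≤ c) (hab : 2 * e ≤ a + b) (hac : 2 * e ≤ a + c) (hbc : 2 * e ≤ b + c) :
    e * e * d ≤ a * b * c := by
  have key : ∀ x y z : ℝ, e ≤ x → e ≤ y → d ≤ z → e * e * d ≤ x * y * z := fun x y z hx hy hz =>
    mul_le_mul (mul_le_mul hx hy he (he.trans hx)) hz hd (mul_nonneg (he.trans hx) (he.trans hy))
  rcases le_total e a with h1 | h1
  · rcases le_total e b with h2 | h2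
    · exact key a b c h1 h2 hc
    · have := key a c b h1 (by linarith) hb
      linarith [mul_right_comm a b c]
  · have := key b c a (by linarith) (by linarith) ha
    linarith [show b * c * a = a * b * c by ring]

theorem deexa_tri (x y w : ℂ) : ‖y - x‖ ≤ ‖x - w‖ + ‖y - w‖ := by
  have := norm_sub_le (y - w) (x - w)
  rw [show y - w - (x - w) = y - x by ring] at this
  linarith

theorem deexa_three {η : ℝ} (hη : 0 < η) {x y z w : ℂ} (hx : ‖x‖ = 1) (hy : ‖y‖ = 1)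
    (hz : ‖z‖ = 1) (hw : ‖w‖ < 1) (hw' : 1 - ‖w‖ ≤ η ^ 4 / 256) (hxy : η ≤ ‖y - x‖)
    (hxz : η ≤ ‖z - x‖) (hyz : η ≤ ‖z - y‖) :
    0 < Real.log (‖x - w‖ ^ 2 / (1 - ‖w‖ ^ 2)) + Real.log (‖y - w‖ ^ 2 / (1 - ‖w‖ ^ 2)) +
      Real.log (‖z - w‖ ^ 2 / (1 - ‖w‖ ^ 2)) := by
  have px := deexa_arg_pos hx hw
  have py := deexa_arg_pos hy hw
  have pz := deexa_arg_pos hz hw
  rw [← Real.log_mul px.ne' py.ne', ← Real.log_mul (mul_pos px py).ne' pz.ne']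
  apply Real.log_pos
  have hd : 0 < 1 - ‖w‖ := by linarith
  have hp := deexa_prod (e := η / 2) (d := 1 - ‖w‖) (by linarith) hd.le (deexa_dist hx)
    (deexa_dist hy) (deexa_dist hz) (by linarith [deexa_tri x y w]) (by linarith [deexa_tri x z w])
    (by linarith [deexa_tri y z w])
  have hD := deexa_den hw
  rw [div_mul_div_comm, div_mul_div_comm, lt_div_iff₀ (by positivity), one_mul]
  have h0 := norm_nonneg w
  set d := 1 - ‖w‖ with hdd
  have h1 : 1 - ‖w‖ ^ 2 ≤ 2 * d := by rw [hdd]; nlinarith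
  have h2 : (1 - ‖w‖ ^ 2) * (1 - ‖w‖ ^ 2) * (1 - ‖w‖ ^ 2) ≤ (2 * d) ^ 3 := by
    rw [show (1 - ‖w‖ ^ 2) * (1 - ‖w‖ ^ 2) * (1 - ‖w‖ ^ 2) = (1 - ‖w‖ ^ 2) ^ 3 by ring]
    exact pow_le_pow_left₀ hD.le h1 3
  have h3 : (η / 2 * (η / 2) * d) ^ 2 ≤ (‖x - w‖ * ‖y - w‖ * ‖z - w‖) ^ 2 :=
    pow_le_pow_left₀ (by positivity) hp 2
  have h4 : (2 * d) ^ 3 < (η / 2 * (η / 2) * d) ^ 2 := by
    have e4 : 0 < η ^ 4 := by positivity
    have : 8 * d < η ^ 4 / 16 := by linarith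
    have := mul_lt_mul_of_pos_right this (pow_pos hd 2)
    calc (2 * d) ^ 3 = 8 * d * d ^ 2 := by ring
      _ < η ^ 4 / 16 * d ^ 2 := this
      _ = _ := by ring
  calc _ ≤ (2 * d) ^ 3 := h2
    _ < _ := h4
    _ ≤ _ := h3
    _ = _ := by ring

theorem Bus_pos {η : ℝ} (hη : 0 < η) : ∃ r : ℝ, 0 < r ∧ r < 1 ∧ ∀ φ : ℂ → ℂ, CMap φ → Sep η φ →
    ∀ w : ℂ, ‖w‖ = r → 0 < Bus φ w := by
  have hm : 0 < min (1 / 2 : ℝ) (η ^ 4 / 256) := lt_min (by norm_num) (by positivity)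
  have hm1 := min_le_left (1 / 2 : ℝ) (η ^ 4 / 256)
  have hm2 := min_le_right (1 / 2 : ℝ) (η ^ 4 / 256)
  refine ⟨1 - min (1 / 2) (η ^ 4 / 256), by linarith, by linarith, fun φ hφ hs w hw => ?_⟩
  have hw1 : ‖w‖ < 1 := by linarith
  have hc := deexa_cont hφ hw1
  have h3 := int_three (fun x => Real.log (‖φ x - w‖ ^ 2 / (1 - ‖w‖ ^ 2))) hc
  have hpos : 0 < ∫ t in (0 : ℝ)..2 * π, (Real.log (‖φ (E t) - w‖ ^ 2 / (1 - ‖w‖ ^ 2)) +
      Real.log (‖φ (E (t + 2 * π / 3)) - w‖ ^ 2 / (1 - ‖w‖ ^ 2)) +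
      Real.log (‖φ (E (t + 4 * π / 3)) - w‖ ^ 2 / (1 - ‖w‖ ^ 2))) := by
    refine intervalIntegral.intervalIntegral_pos_of_pos (Continuous.intervalIntegrable ?_ _ _)
      (fun t => ?_) Real.two_pi_pos
    · exact (hc.add (hc.comp (continuous_id.add continuous_const))).add
        (hc.comp (continuous_id.add continuous_const))
    · obtain ⟨a, b, c⟩ := hs.three t
      exact deexa_three hη (hφ.norm _) (hφ.norm _) (hφ.norm _) hw1 (by linarith) a b c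
  unfold Bus
  linarith

end Pool.Agent.MC.DE
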