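import Pool.Agent.P.MP_2677b3_gt.DeCay

open UpperHalfPlane Filter Topology Set
open scoped MatrixGroups ComplexConjugate Real

noncomputable section

namespace Pool.Agent.MC.DE

theorem dehyp_tanh_mul (x : ℝ) : Real.tanh x * Real.cosh x = Real.sinh x := by
  rw [Real.tanh_eq_sinh_div_cosh, div_mul_cancel₀ _ (Real.cosh_pos x).ne']

theorem dehyp_one_sub (x : ℝ) : (1 - Real.tanh x ^ 2) * Real.cosh x ^ 2 = 1 := by
  have h1 := dehyp_tanh_mul x
  have h2 := Real.cosh_sq x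
  calc (1 - Real.tanh x ^ 2) * Real.cosh x ^ 2
      = Real.cosh x ^ 2 - (Real.tanh x * Real.cosh x) ^ 2 := by ring
    _ = 1 := by rw [h1, h2]; ring

theorem dehyp_tanh_nonneg {x : ℝ} (hx : 0 ≤ x) : 0 ≤ Real.tanh x := by
  rw [Real.tanh_eq_sinh_div_cosh]
  exact div_nonneg (Real.sinh_nonneg_iff.2 hx) (Real.cosh_pos x).le

theorem dehyp_sinh_le (x : ℝ) : Real.sinh x ≤ Real.exp x / 2 := by
  rw [Real.sinh_eq]
  linarith [Real.exp_pos (-x)]

theorem dehyp_le_cosh (x : ℝ) : Real.exp x / 2 ≤ Real.cosh x := by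
  rw [Real.cosh_eq]
  linarith [Real.exp_pos (-x)]

theorem dehyp_half (d : ℝ) : (1 - Real.tanh (d / 2)) * (Real.exp d + 1) = 2 := by
  have h1 : Real.exp d = Real.exp (d / 2) * Real.exp (d / 2) := by
    rw [← Real.exp_add]; ring_nf
  have h2 : Real.exp (d / 2) * Real.exp (-(d / 2)) = 1 := by
    rw [← Real.exp_add, add_neg_cancel, Real.exp_zero]
  have h3 := dehyp_tanh_mul (d / 2)
  rw [Real.cosh_eq, Real.sinh_eq] at h3
  rw [h1]
  generalize Real.exp (d / 2) = a at h2 h3 ⊢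
  generalize Real.exp (-(d / 2)) = b at h2 h3 ⊢
  generalize Real.tanh (d / 2) = t at h3 ⊢
  linear_combination (-2 * a) * h3 + (1 + t) * h2

theorem dehyp_norm {ζ : ℂ} (hζ : ‖ζ‖ = 1) (x : ℝ) :
    ‖(Real.tanh x : ℂ) * ζ‖ ^ 2 = Real.tanh x ^ 2 := by
  rw [norm_mul, hζ, mul_one, Complex.norm_real, Real.norm_eq_abs, sq_abs]

theorem norm_kap (z : ℍ) : ‖kap z‖ = Real.tanh (dist z I / 2) := by
  have h := sinh_kap z I
  rw [kap_I, norm_zero, sub_zero] at h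
  have hx : 0 ≤ dist z I / 2 := by positivity
  generalize dist z I / 2 = x at h hx ⊢
  have h1 := dehyp_tanh_mul x
  have h2 := Real.cosh_sq x
  have h3 := Real.cosh_pos x
  rw [← sq_eq_sq₀ (norm_nonneg _) (dehyp_tanh_nonneg hx)]
  refine mul_right_cancel₀ (pow_pos h3 2).ne' ?_
  calc ‖kap z‖ ^ 2 * Real.cosh x ^ 2 = Real.sinh x ^ 2 := by
        rw [h2]; linear_combination -h
    _ = Real.tanh x ^ 2 * Real.cosh x ^ 2 := by rw [← h1]; ring

theorem kap_sub_le (z w : ℍ) :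
    ‖kap z - kap w‖ ≤ 2 * Real.exp ((dist z w - dist z I - dist w I) / 2) := by
  have h := sinh_kap z w
  rw [norm_kap, norm_kap] at h
  have hx : 0 ≤ dist z w / 2 := by positivity
  rw [show (dist z w - dist z I - dist w I) / 2 =
    dist z w / 2 - dist z I / 2 - dist w I / 2 by ring, Real.exp_sub, Real.exp_sub]
  generalize dist z w / 2 = x at h hx ⊢
  generalize dist z I / 2 = a at h ⊢
  generalize dist w I / 2 = b at h ⊢
  have ha := dehyp_one_sub a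
  have hb := dehyp_one_sub b
  have h1 : ‖kap z - kap w‖ * (Real.cosh a * Real.cosh b) = Real.sinh x := by
    rw [← sq_eq_sq₀ (mul_nonneg (norm_nonneg _) (mul_pos (Real.cosh_pos a) (Real.cosh_pos b)).le)
      (Real.sinh_nonneg_iff.2 hx), mul_pow, ← h]
    calc Real.sinh x ^ 2 * ((1 - Real.tanh a ^ 2) * (1 - Real.tanh b ^ 2)) *
          (Real.cosh a * Real.cosh b) ^ 2
        = Real.sinh x ^ 2 * (((1 - Real.tanh a ^ 2) * Real.cosh a ^ 2) *
          ((1 - Real.tanh b ^ 2) * Real.cosh b ^ 2)) := by ring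
      _ = Real.sinh x ^ 2 := by rw [ha, hb]; ring
  have h2 : Real.exp a / 2 * (Real.exp b / 2) ≤ Real.cosh a * Real.cosh b :=
    mul_le_mul (dehyp_le_cosh a) (dehyp_le_cosh b) (by positivity) (Real.cosh_pos a).le
  have h3 := mul_le_mul_of_nonneg_left h2 (norm_nonneg (kap z - kap w))
  have h4 := dehyp_sinh_le x
  rw [div_div, ← mul_div_assoc, le_div_iff₀ (by positivity)]
  linarith

theorem one_sub_kap_le (z : ℍ) : 1 - ‖kap z‖ ≤ 2 * Real.exp (-dist z I) := by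
  have h := dehyp_half (dist z I)
  rw [← norm_kap] at h
  have h1 : 0 < 1 - ‖kap z‖ := sub_pos.2 (kap_lt z)
  rw [Real.exp_neg, ← div_eq_mul_inv, le_div_iff₀ (Real.exp_pos _)]
  linarith

theorem le_one_sub_kap (z : ℍ) : Real.exp (-dist z I) ≤ 1 - ‖kap z‖ := by
  have h := dehyp_half (dist z I)
  rw [← norm_kap] at h
  have h1 : 0 < 1 - ‖kap z‖ := sub_pos.2 (kap_lt z)
  have h2 : 1 ≤ Real.exp (dist z I) := Real.one_le_exp dist_nonneg
  have h3 := mul_le_mul_of_nonneg_left h2 h1.le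
  rw [Real.exp_neg, inv_eq_one_div, div_le_iff₀ (Real.exp_pos _)]
  linarith

theorem dist_le_of_kap {r : ℝ} (hr : r < 1) (z : ℍ) (hz : ‖kap z‖ ≤ r) :
    dist z I ≤ -Real.log ((1 - r) / 2) := by
  have h := one_sub_kap_le z
  have h1 : Real.log ((1 - r) / 2) ≤ -dist z I := by
    rw [Real.log_le_iff_le_exp (by linarith)]
    linarith
  linarith

theorem kap_ray {ζ : ℂ} (hζ : ‖ζ‖ = 1) (s : ℝ) : kap (ray ζ s) = Real.tanh (s / 2) * ζ := by
  refine kap_kapi ?_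
  rw [norm_mul, hζ, mul_one, Complex.norm_real, Real.norm_eq_abs]
  exact Real.abs_tanh_lt_one _

theorem dist_ray {ζ : ℂ} (hζ : ‖ζ‖ = 1) (s s' : ℝ) : dist (ray ζ s) (ray ζ s') = |s - s'| := by
  have h := sinh_kap (ray ζ s) (ray ζ s')
  rw [kap_ray hζ, kap_ray hζ, dehyp_norm hζ, dehyp_norm hζ, ← sub_mul, norm_mul, hζ, mul_one,
    ← Complex.ofReal_sub, Complex.norm_real, Real.norm_eq_abs, sq_abs] at h
  have hx : 0 ≤ dist (ray ζ s) (ray ζ s') / 2 := by positivity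
  have ha := dehyp_one_sub (s / 2)
  have hb := dehyp_one_sub (s' / 2)
  have h1 : Real.sinh (dist (ray ζ s) (ray ζ s') / 2) ^ 2 = Real.sinh (s / 2 - s' / 2) ^ 2 := by
    rw [Real.sinh_sub, ← dehyp_tanh_mul (s / 2), ← dehyp_tanh_mul (s' / 2)]
    calc Real.sinh (dist (ray ζ s) (ray ζ s') / 2) ^ 2
        = Real.sinh (dist (ray ζ s) (ray ζ s') / 2) ^ 2 *
          (((1 - Real.tanh (s / 2) ^ 2) * Real.cosh (s / 2) ^ 2) *
            ((1 - Real.tanh (s' / 2) ^ 2) * Real.cosh (s' / 2) ^ 2)) := by rw [ha, hb]; ring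
      _ = Real.sinh (dist (ray ζ s) (ray ζ s') / 2) ^ 2 *
          ((1 - Real.tanh (s / 2) ^ 2) * (1 - Real.tanh (s' / 2) ^ 2)) *
            (Real.cosh (s / 2) * Real.cosh (s' / 2)) ^ 2 := by ring
      _ = _ := by rw [h]; ring
  rw [← sq_abs (Real.sinh (s / 2 - s' / 2)), sq_eq_sq₀ (Real.sinh_nonneg_iff.2 hx) (abs_nonneg _),
    Real.abs_sinh, Real.sinh_inj, ← sub_div, abs_div, abs_two] at h1
  linarith

theorem ray_zero (ζ : ℂ) : ray ζ 0 = I := by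
  rw [ray, zero_div, Real.tanh_zero, Complex.ofReal_zero, zero_mul, ← kap_I, kapi_kap]

theorem dist_ray_ray {ζ ξ : ℂ} (hζ : ‖ζ‖ = 1) (hξ : ‖ξ‖ = 1) {s : ℝ} (hs : 0 ≤ s)
    (h : ‖ζ - ξ‖ * Real.exp s ≤ 4) : dist (ray ζ s) (ray ξ s) ≤ 2 := by
  have h0 := sinh_kap (ray ζ s) (ray ξ s)
  rw [kap_ray hζ, kap_ray hξ, dehyp_norm hζ, dehyp_norm hξ, ← mul_sub, norm_mul,
    Complex.norm_real, Real.norm_eq_abs, mul_pow, sq_abs] at h0
  have hx : 0 ≤ dist (ray ζ s) (ray ξ s) / 2 := by positivity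
  have ha := dehyp_one_sub (s / 2)
  have hs2 : 0 ≤ Real.sinh s := Real.sinh_nonneg_iff.2 hs
  have h2 : Real.sinh s = 2 * Real.sinh (s / 2) * Real.cosh (s / 2) := by
    rw [← Real.sinh_two_mul]; ring_nf
  have h1 : Real.sinh (dist (ray ζ s) (ray ξ s) / 2) = Real.sinh s / 2 * ‖ζ - ξ‖ := by
    rw [← sq_eq_sq₀ (Real.sinh_nonneg_iff.2 hx) (by positivity), h2, ← dehyp_tanh_mul (s / 2)]
    calc Real.sinh (dist (ray ζ s) (ray ξ s) / 2) ^ 2
        = Real.sinh (dist (ray ζ s) (ray ξ s) / 2) ^ 2 *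
          ((1 - Real.tanh (s / 2) ^ 2) * Real.cosh (s / 2) ^ 2) ^ 2 := by rw [ha]; ring
      _ = Real.sinh (dist (ray ζ s) (ray ξ s) / 2) ^ 2 *
          ((1 - Real.tanh (s / 2) ^ 2) * (1 - Real.tanh (s / 2) ^ 2)) *
            Real.cosh (s / 2) ^ 4 := by ring
      _ = _ := by rw [h0]; ring
  have h3 := mul_le_mul_of_nonneg_right (dehyp_sinh_le s) (norm_nonneg (ζ - ξ))
  have h4 := Real.self_le_sinh_iff.2 hx
  linarith

theorem exists_ray (z : ℍ) : ∃ ζ : ℂ, ‖ζ‖ = 1 ∧ ray ζ (dist z I) = z := by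
  by_cases h : kap z = 0
  · refine ⟨1, norm_one, kap_inj ?_⟩
    rw [kap_ray norm_one, ← norm_kap, h, norm_zero, Complex.ofReal_zero, zero_mul]
  · have h1 : ‖kap z‖ ≠ 0 := norm_ne_zero_iff.2 h
    have h2 : ‖kap z / (‖kap z‖ : ℂ)‖ = 1 := by
      rw [norm_div, Complex.norm_real, norm_norm, div_self h1]
    refine ⟨kap z / (‖kap z‖ : ℂ), h2, kap_inj ?_⟩
    rw [kap_ray h2, ← norm_kap, mul_div_cancel₀ _ (Complex.ofReal_ne_zero.2 h1)]

end Pool.Agent.MC.DE
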