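import Pool.Agent.P.MP_2677b3_gt.DeE

open UpperHalfPlane Filter Topology Set
open scoped MatrixGroups ComplexConjugate Real

noncomputable section

namespace Pool.Agent.MC.DE

theorem dejaca_shift {g : ℝ → ℝ} (hg : ∀ t, g (t + 2 * π) = g t) (c : ℝ) :
    ∫ t in (0 : ℝ)..2 * π, g (t + c) = ∫ t in (0 : ℝ)..2 * π, g t := by
  have hper : Function.Periodic g (2 * π) := hg
  rw [intervalIntegral.integral_comp_add_right g c]
  have := hper.intervalIntegral_add_eq c 0
  rw [zero_add] at this ⊢
  rw [add_comm (2 * π) c]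
  exact this

theorem dejaca_normsq {f : ℝ → ℝ} (hf : Continuous f) :
    ‖∫ t in (0 : ℝ)..2 * π, E (f t)‖ ^ 2 =
      ∫ t in (0 : ℝ)..2 * π, ∫ s in (0 : ℝ)..2 * π, Real.cos (f s - f t) := by
  have hE : Continuous fun t => E (f t) := continuous_E.comp hf
  have hi : IntervalIntegrable (fun t => E (f t)) MeasureTheory.volume 0 (2 * π) :=
    hE.intervalIntegrable _ _
  have hcos : Continuous fun t => Real.cos (f t) := Real.continuous_cos.comp hf
  have hsin : Continuous fun t => Real.sin (f t) := Real.continuous_sin.comp hf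
  have hre : (∫ t in (0 : ℝ)..2 * π, E (f t)).re = ∫ t in (0 : ℝ)..2 * π, Real.cos (f t) := by
    have := Complex.reCLM.intervalIntegral_comp_comm hi
    simp only [Complex.reCLM_apply, E_re] at this
    exact this.symm
  have him : (∫ t in (0 : ℝ)..2 * π, E (f t)).im = ∫ t in (0 : ℝ)..2 * π, Real.sin (f t) := by
    have := Complex.imCLM.intervalIntegral_comp_comm hi
    simp only [Complex.imCLM_apply, E_im] at this
    exact this.symm
  set C := ∫ t in (0 : ℝ)..2 * π, Real.cos (f t) with hC
  set S := ∫ t in (0 : ℝ)..2 * π, Real.sin (f t) with hS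
  have h1 : ∀ t, ∫ s in (0 : ℝ)..2 * π, Real.cos (f s - f t) =
      C * Real.cos (f t) + S * Real.sin (f t) := by
    intro t
    simp only [Real.cos_sub]
    rw [intervalIntegral.integral_add ((hcos.intervalIntegrable _ _).mul_const _)
      ((hsin.intervalIntegrable _ _).mul_const _),
      intervalIntegral.integral_mul_const, intervalIntegral.integral_mul_const]
  simp only [h1]
  rw [intervalIntegral.integral_add ((hcos.intervalIntegrable _ _).const_mul _)
      ((hsin.intervalIntegrable _ _).const_mul _),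
      intervalIntegral.integral_const_mul, intervalIntegral.integral_const_mul,
      Complex.sq_norm, Complex.normSq_apply, hre, him]

theorem dejaca_c {ψ : ℝ → ℂ} :
    (2 * π) ^ 2 * ‖(2 * π : ℂ)⁻¹ * ∫ t in (0 : ℝ)..2 * π, ψ t‖ ^ 2 =
      ‖∫ t in (0 : ℝ)..2 * π, ψ t‖ ^ 2 := by
  have hpi : (0 : ℝ) < 2 * π := by positivity
  have hn : ‖(2 * π : ℂ)‖ = 2 * π := by
    have : (2 * π : ℂ) = ((2 * π : ℝ) : ℂ) := by push_cast; ring
    rw [this, Complex.norm_real, Real.norm_of_nonneg hpi.le]
  rw [norm_mul, norm_inv, hn]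
  field_simp

theorem dejaca_swap {F : ℝ → ℝ → ℝ} (hF : Continuous (Function.uncurry F)) :
    ∫ t in (0 : ℝ)..2 * π, ∫ u in (0 : ℝ)..2 * π, F t u =
      ∫ u in (0 : ℝ)..2 * π, ∫ t in (0 : ℝ)..2 * π, F t u := by
  have hpi : (0 : ℝ) ≤ 2 * π := by positivity
  simp only [intervalIntegral.integral_of_le hpi]
  apply MeasureTheory.integral_integral_swap
  rw [MeasureTheory.Measure.prod_restrict]
  have hK : IsCompact (Icc (0 : ℝ) (2 * π) ×ˢ Icc (0 : ℝ) (2 * π)) := isCompact_Icc.prod isCompact_Icc
  have := hF.continuousOn.integrableOn_compact (μ := MeasureTheory.volume.prod MeasureTheory.volume) hK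
  exact this.mono_set (prod_mono Ioc_subset_Icc_self Ioc_subset_Icc_self)

theorem dejaca_HH {h : ℝ → ℝ} (hc : Continuous h)
    (hp : ∀ t, h (t + 2 * π) = h t + 2 * π) (u : ℝ) :
    ∫ t in (0 : ℝ)..2 * π, HH h t u =
      2 * (∫ t in (0 : ℝ)..2 * π, Real.sin (h (t + u) - h t)) -
        2 * ∫ t in (0 : ℝ)..2 * π, Real.sin (h (t + (u + π)) - h t) := by
  have hper : ∀ v t, Real.sin (h (t + 2 * π + v) - h (t + 2 * π)) = Real.sin (h (t + v) - h t) := by
    intro v t
    rw [show t + 2 * π + v = t + v + 2 * π by ring, hp, hp]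
    congr 1
    ring
  have i1 : IntervalIntegrable (fun t => Real.sin (h (t + u) - h t)) MeasureTheory.volume 0 (2 * π) :=
    Continuous.intervalIntegrable (by fun_prop) _ _
  have i2 : IntervalIntegrable (fun t => Real.sin (h (t + π) - h (t + u))) MeasureTheory.volume 0
      (2 * π) := Continuous.intervalIntegrable (by fun_prop) _ _
  have i3 : IntervalIntegrable (fun t => Real.sin (h (t + π + u) - h (t + π))) MeasureTheory.volume 0
      (2 * π) := Continuous.intervalIntegrable (by fun_prop) _ _
  have i4 : IntervalIntegrable (fun t => Real.sin (h t + 2 * π - h (t + π + u))) MeasureTheory.volume 0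
      (2 * π) := Continuous.intervalIntegrable (by fun_prop) _ _
  have e3 : ∫ t in (0 : ℝ)..2 * π, Real.sin (h (t + π + u) - h (t + π)) =
      ∫ t in (0 : ℝ)..2 * π, Real.sin (h (t + u) - h t) :=
    dejaca_shift (g := fun t => Real.sin (h (t + u) - h t)) (hper u) π
  have e4 : ∫ t in (0 : ℝ)..2 * π, Real.sin (h t + 2 * π - h (t + π + u)) =
      - ∫ t in (0 : ℝ)..2 * π, Real.sin (h (t + (u + π)) - h t) := by
    rw [← intervalIntegral.integral_neg]
    congr 1
    funext t
    rw [show h t + 2 * π - h (t + π + u) = -(h (t + π + u) - h t) + 2 * π by ring,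
      Real.sin_add_two_pi, Real.sin_neg, show t + π + u = t + (u + π) by ring]
  have e2 : ∫ t in (0 : ℝ)..2 * π, Real.sin (h (t + π) - h (t + u)) =
      - ∫ t in (0 : ℝ)..2 * π, Real.sin (h (t + (u + π)) - h t) := by
    rw [← dejaca_shift (g := fun t => Real.sin (h (t + (u + π)) - h t)) (hper (u + π)) π,
      ← intervalIntegral.integral_neg]
    congr 1
    funext t
    rw [show t + π + (u + π) = t + u + 2 * π by ring, hp,
      show h (t + u) + 2 * π - h (t + π) = -(h (t + π) - h (t + u)) + 2 * π by ring,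
      Real.sin_add_two_pi, Real.sin_neg, neg_neg]
  unfold HH
  rw [intervalIntegral.integral_add ((i1.add i2).add i3) i4,
    intervalIntegral.integral_add (i1.add i2) i3, intervalIntegral.integral_add i1 i2, e2, e3, e4]
  ring

theorem jac_id {φ : ℂ → ℂ} {h : ℝ → ℝ} (hc : Continuous h)
    (hp : ∀ t, h (t + 2 * π) = h t + 2 * π) (hφ : ∀ t, φ (E t) = E (h t)) :
    (2 * π) ^ 2 * (‖c1 φ‖ ^ 2 - ‖c2 φ‖ ^ 2) =
      ∫ u in (0 : ℝ)..π, Real.sin u * ∫ t in (0 : ℝ)..2 * π, HH h t u := by
  have a1 : (2 * π) ^ 2 * ‖c1 φ‖ ^ 2 =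
      ∫ t in (0 : ℝ)..2 * π, ∫ s in (0 : ℝ)..2 * π, Real.cos ((h s - s) - (h t - t)) := by
    unfold c1
    rw [dejaca_c, ← dejaca_normsq (f := fun t => h t - t) (by fun_prop)]
    congr 3
    funext t
    rw [hφ, conj_E, ← E_add, sub_eq_add_neg]
  have a2 : (2 * π) ^ 2 * ‖c2 φ‖ ^ 2 =
      ∫ t in (0 : ℝ)..2 * π, ∫ s in (0 : ℝ)..2 * π, Real.cos ((h s + s) - (h t + t)) := by
    unfold c2
    rw [dejaca_c, ← dejaca_normsq (f := fun t => h t + t) (by fun_prop)]
    congr 3
    funext t
    rw [hφ, ← E_add]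
  have k1 : Continuous fun t => ∫ s in (0 : ℝ)..2 * π, Real.cos ((h s - s) - (h t - t)) :=
    intervalIntegral.continuous_parametric_intervalIntegral_of_continuous'
      (f := fun t s => Real.cos ((h s - s) - (h t - t))) (by
        unfold Function.uncurry; fun_prop) _ _
  have k2 : Continuous fun t => ∫ s in (0 : ℝ)..2 * π, Real.cos ((h s + s) - (h t + t)) :=
    intervalIntegral.continuous_parametric_intervalIntegral_of_continuous'
      (f := fun t s => Real.cos ((h s + s) - (h t + t))) (by
        unfold Function.uncurry; fun_prop) _ _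
  have b1 : ∀ t, (∫ s in (0 : ℝ)..2 * π, Real.cos ((h s - s) - (h t - t))) -
      (∫ s in (0 : ℝ)..2 * π, Real.cos ((h s + s) - (h t + t))) =
      ∫ u in (0 : ℝ)..2 * π, 2 * Real.sin u * Real.sin (h (u + t) - h t) := by
    intro t
    rw [← intervalIntegral.integral_sub (Continuous.intervalIntegrable (by fun_prop) _ _)
      (Continuous.intervalIntegrable (by fun_prop) _ _)]
    have hg : ∀ s, 2 * Real.sin (s + 2 * π - t) * Real.sin (h (s + 2 * π) - h t) =
        2 * Real.sin (s - t) * Real.sin (h s - h t) := by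
      intro s
      rw [hp, show s + 2 * π - t = s - t + 2 * π by ring, Real.sin_add_two_pi,
        show h s + 2 * π - h t = h s - h t + 2 * π by ring, Real.sin_add_two_pi]
    have := dejaca_shift (g := fun s => 2 * Real.sin (s - t) * Real.sin (h s - h t)) hg t
    simp only [add_sub_cancel_right] at this
    rw [this]
    congr 1
    funext s
    rw [show h s - s - (h t - t) = (h s - h t) - (s - t) by ring,
      show h s + s - (h t + t) = (h s - h t) + (s - t) by ring, Real.cos_sub, Real.cos_add]
    ring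
  set S : ℝ → ℝ := fun u => ∫ t in (0 : ℝ)..2 * π, Real.sin (h (t + u) - h t) with hS
  have kS : Continuous S :=
    intervalIntegral.continuous_parametric_intervalIntegral_of_continuous'
      (f := fun u t => Real.sin (h (t + u) - h t)) (by
        unfold Function.uncurry; fun_prop) _ _
  have b2 : (2 * π) ^ 2 * (‖c1 φ‖ ^ 2 - ‖c2 φ‖ ^ 2) =
      ∫ u in (0 : ℝ)..2 * π, 2 * Real.sin u * S u := by
    rw [mul_sub, a1, a2, ← intervalIntegral.integral_sub (k1.intervalIntegrable _ _)
      (k2.intervalIntegrable _ _)]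
    simp only [b1]
    rw [dejaca_swap (F := fun t u => 2 * Real.sin u * Real.sin (h (u + t) - h t)) (by
      unfold Function.uncurry; fun_prop)]
    congr 1
    funext u
    rw [intervalIntegral.integral_const_mul]
    simp only [hS, add_comm u]
  have kF : Continuous fun u => 2 * Real.sin u * S u := by fun_prop
  have b3 : ∫ u in π..2 * π, 2 * Real.sin u * S u =
      ∫ u in (0 : ℝ)..π, -(2 * Real.sin u * S (u + π)) := by
    have := intervalIntegral.integral_comp_add_right (a := 0) (b := π)
      (fun u => 2 * Real.sin u * S u) π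
    rw [zero_add, ← two_mul] at this
    rw [← this]
    congr 1
    funext u
    rw [Real.sin_add_pi]
    ring
  rw [b2, ← intervalIntegral.integral_add_adjacent_intervals (b := π)
    (kF.intervalIntegrable _ _) (kF.intervalIntegrable _ _), b3,
    ← intervalIntegral.integral_add (kF.intervalIntegrable _ _)
      (Continuous.intervalIntegrable (by fun_prop) _ _)]
  congr 1
  funext u
  rw [dejaca_HH hc hp u]
  simp only [hS]
  ring

end Pool.Agent.MC.DE
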