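import Pool.Agent.P.MP_2677b3_gt.DeMob

open UpperHalfPlane Filter Topology Set
open scoped MatrixGroups ComplexConjugate Real

noncomputable section

namespace Pool.Agent.MC.DE

variable {a b : ℂ}

theorem delift_arg {q : ℂ} (hq : q ≠ 0) : E (2 * q.arg) = q / conj q := by
  have h1 : (‖q‖ : ℂ) * E q.arg = q := Complex.norm_mul_exp_arg_mul_I q
  have h2 : q * conj q = (‖q‖ : ℂ) ^ 2 := by
    rw [Complex.mul_conj, Complex.normSq_eq_norm_sq]; push_cast; ring
  have h3 : conj q ≠ 0 := (map_ne_zero _).2 hq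
  rw [two_mul, E_add, eq_div_iff h3]
  refine mul_left_cancel₀ hq ?_
  linear_combination (E q.arg * E q.arg) * h2 + ((‖q‖ : ℂ) * E q.arg + q) * h1

theorem delift_im {q : ℂ} (hq : q ≠ 0) :
    1 + 2 * ((q - 1) * (-Complex.I) / q).im = (1 - ‖q - 1‖ ^ 2) / ‖q‖ ^ 2 := by
  have h1 : Complex.normSq q ≠ 0 := fun h => hq (Complex.normSq_eq_zero.1 h)
  rw [← Complex.normSq_eq_norm_sq, ← Complex.normSq_eq_norm_sq, Complex.div_im, eq_div_iff h1]
  have h2 : Complex.normSq q = q.re * q.re + q.im * q.im := Complex.normSq_apply q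
  have h3 : Complex.normSq (q - 1) = (q.re - 1) * (q.re - 1) + q.im * q.im := by
    rw [Complex.normSq_apply]; simp
  rw [h3]
  simp only [Complex.mul_im, Complex.mul_re, Complex.sub_re, Complex.sub_im, Complex.one_re,
    Complex.one_im, Complex.neg_re, Complex.neg_im, Complex.I_re, Complex.I_im]
  field_simp
  rw [h2]
  ring

theorem mob_lift (h : ‖b‖ < ‖a‖) : ∃ θ : ℝ → ℝ,
    (∀ t, HasDerivAt θ ((‖a‖ ^ 2 - ‖b‖ ^ 2) / ‖conj b * E t + conj a‖ ^ 2) t) ∧
    (∀ t, θ (t + 2 * π) = θ t + 2 * π) ∧ ∀ t, mob a b (E t) = E (θ t) := by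
  have ha0 : 0 < ‖a‖ := lt_of_le_of_lt (norm_nonneg _) h
  have ha : a ≠ 0 := norm_pos_iff.1 ha0
  have hca : conj a ≠ 0 := (map_ne_zero _).2 ha
  let q : ℝ → ℂ := fun t => 1 + b / a * E (-t)
  have hq1 : ∀ t, ‖q t - 1‖ = ‖b‖ / ‖a‖ := fun t => by
    simp only [q, add_sub_cancel_left, norm_mul, norm_div, norm_E, mul_one]
  have hlt : ‖b‖ / ‖a‖ < 1 := (div_lt_one ha0).2 h
  have hs : ∀ t, q t ∈ Complex.slitPlane := fun t =>
    Complex.mem_slitPlane_of_norm_lt_one (by
      have := hq1 t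
      simp only [q, add_sub_cancel_left] at this
      rw [this]; exact hlt)
  have hq0 : ∀ t, q t ≠ 0 := fun t => Complex.slitPlane_ne_zero (hs t)
  have hden : ∀ t, conj b * E t + conj a = conj a * conj (q t) := fun t => by
    simp only [q, map_add, map_one, map_mul, map_div₀, conj_E, neg_neg]
    field_simp
    ring
  have hEE : ∀ t, E t * E (-t) = 1 := fun t => by
    rw [← E_add, add_neg_cancel]; simp [E]
  have hnum : ∀ t, a * E t + b = a * E t * q t := fun t => by
    have := hEE t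
    simp only [q]
    field_simp
    linear_combination (-b) * this
  have hd : ∀ t, HasDerivAt q ((q t - 1) * (-Complex.I)) t := fun t => by
    have h1 : HasDerivAt (fun s : ℝ => E (-s)) ((-1 : ℝ) • (E (-t) * Complex.I)) t :=
      (hasDerivAt_E (-t)).scomp t (hasDerivAt_neg t)
    have h2 := (h1.const_mul (b / a)).const_add 1
    refine h2.congr_deriv ?_
    simp only [q, add_sub_cancel_left, Complex.real_smul]
    push_cast
    ring
  refine ⟨fun t => t + 2 * a.arg + 2 * (Complex.log (q t)).im, fun t => ?_, fun t => ?_,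
    fun t => ?_⟩
  · have h1 : HasDerivAt (fun s => Complex.log (q s)) ((q t - 1) * (-Complex.I) / q t) t :=
      (hd t).clog_real (hs t)
    have h2 : HasDerivAt (fun s => (Complex.log (q s)).im)
        ((q t - 1) * (-Complex.I) / q t).im t :=
      Complex.imCLM.hasFDerivAt.comp_hasDerivAt t h1
    have h3 := (((hasDerivAt_id' t).add_const (2 * a.arg)).fun_add (h2.const_mul 2))
    refine h3.congr_deriv ?_
    rw [delift_im (hq0 t), hq1, hden, norm_mul, Complex.norm_conj, Complex.norm_conj]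
    have h4 : ‖q t‖ ≠ 0 := norm_ne_zero_iff.2 (hq0 t)
    field_simp
  · have h1 : q (t + 2 * π) = q t := by
      have h2 : E (-(t + 2 * π)) = E (-t) := by
        rw [← E_per (-(t + 2 * π))]; congr 1; ring
      simp only [q, h2]
    simp only [h1]
    ring
  · have h1 : conj (q t) ≠ 0 := (map_ne_zero _).2 (hq0 t)
    rw [E_add, E_add, Complex.log_im, delift_arg ha, delift_arg (hq0 t), mob, hden, hnum]
    field_simp

theorem delift_pos (h : ‖b‖ < ‖a‖) (t : ℝ) :
    0 < (‖a‖ ^ 2 - ‖b‖ ^ 2) / ‖conj b * E t + conj a‖ ^ 2 :=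
  div_pos (sub_pos.2 (pow_lt_pow_left₀ h (norm_nonneg _) two_ne_zero))
    (pow_pos (norm_pos_iff.2 (mob_den_ne h (norm_E t).le)) 2)

theorem posHom_mob (h : ‖b‖ < ‖a‖) : PosHom (mob a b) := by
  obtain ⟨θ, h1, h2, h3⟩ := mob_lift h
  refine ⟨θ, continuous_iff_continuousAt.2 fun t => (h1 t).continuousAt, ?_, h2, h3⟩
  exact strictMono_of_deriv_pos fun t => by rw [(h1 t).deriv]; exact delift_pos h t

theorem int_mob (h : ‖b‖ < ‖a‖) (g : ℂ → ℂ) (hg : Continuous fun t : ℝ => g (E t)) {z : ℂ}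
    (hz : ‖z‖ < 1) :
    ∫ t in (0 : ℝ)..2 * π, g (mob a b (E t)) * (pk z (E t) : ℂ) =
      ∫ t in (0 : ℝ)..2 * π, g (E t) * (pk (mob a b z) (E t) : ℂ) := by
  obtain ⟨θ, h1, h2, h3⟩ := mob_lift h
  let F : ℝ → ℂ := fun t => g (E t) * (pk (mob a b z) (E t) : ℂ)
  have hF : Continuous F :=
    hg.mul (Complex.continuous_ofReal.comp (continuous_pk (mob_lt h hz)))
  have hper : Function.Periodic F (2 * π) := fun t => by simp only [F, E_per]
  have hc : Continuous fun t : ℝ => (‖a‖ ^ 2 - ‖b‖ ^ 2) / ‖conj b * E t + conj a‖ ^ 2 :=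
    continuous_const.div
      ((((continuous_const.mul continuous_E).add continuous_const).norm).pow 2)
      fun t => pow_ne_zero 2 (norm_ne_zero_iff.2 (mob_den_ne h (norm_E t).le))
  have h4 := intervalIntegral.integral_deriv_smul_comp (a := 0) (b := 2 * π) (f := θ) (g := F)
    (fun t _ => h1 t) hc.continuousOn hF
  have h5 : θ (2 * π) = θ 0 + 2 * π := by simpa using h2 0
  have h6 := hper.intervalIntegral_add_eq (θ 0) 0
  rw [h5, h6, zero_add] at h4
  rw [← h4]
  refine intervalIntegral.integral_congr fun t _ => ?_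
  simp only [F, Function.comp_apply, ← h3, Complex.real_smul, ← pk_mob h hz (norm_E t)]
  push_cast
  ring

theorem G_right {φ : ℂ → ℂ} (hφ : CMap φ) (h : ‖b‖ < ‖a‖) {z w : ℂ} (hz : ‖z‖ < 1)
    (hw : ‖w‖ < 1) : G (φ ∘ mob a b) z w = G φ (mob a b z) w := by
  have := int_mob h (fun x => ker w (φ x)) (hφ.continuous_ker hw) hz
  simp only [G, Function.comp_apply, this]

end Pool.Agent.MC.DE
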