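import Pool.Agent.P.MP_2677b3_gt.DeE

open UpperHalfPlane Filter Topology Set
open scoped MatrixGroups ComplexConjugate Real

noncomputable section

namespace Pool.Agent.MC.DE

open scoped BoundedContinuousFunction

theorem desma_int : ∃ Λ : (ℝ →ᵇ ℂ) →L[ℝ] ℂ, ∀ f, Λ f = ∫ t in (0 : ℝ)..2 * π, f t := by
  refine ⟨MeasureTheory.L1.integralCLM.comp (BoundedContinuousFunction.toLp 1
    (MeasureTheory.volume.restrict (Ioc (0 : ℝ) (2 * π))) ℝ), fun f => ?_⟩
  rw [ContinuousLinearMap.comp_apply, ← MeasureTheory.L1.integral_eq,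
    MeasureTheory.L1.integral_eq_integral, intervalIntegral.integral_of_le (by positivity)]
  exact MeasureTheory.integral_congr_ae (BoundedContinuousFunction.coeFn_toLp _ _ _ _)

theorem desma_inv {f : ℝ →ᵇ ℂ} (h : IsUnit f) (t : ℝ) : Ring.inverse f t = (f t)⁻¹ := by
  have := congrArg (fun g : ℝ →ᵇ ℂ => g t) (Ring.mul_inverse_cancel f h)
  exact (eq_inv_of_mul_eq_one_right this)

theorem G_contDiffAt {φ : ℂ → ℂ} (hφ : CMap φ) :
    ContDiffAt ℝ 1 (fun p : ℂ × ℂ => G φ p.1 p.2) (0, 0) := by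
  obtain ⟨Λ, hΛ⟩ := desma_int
  let Φ : ℝ →ᵇ ℂ := BoundedContinuousFunction.ofNormedAddCommGroup (fun t => φ (E t)) hφ.cont 1
    fun t => (hφ.norm t).le
  let Z : ℝ →ᵇ ℂ := BoundedContinuousFunction.ofNormedAddCommGroup E continuous_E 1
    fun t => (norm_E t).le
  let Y : ℝ →ᵇ ℂ := BoundedContinuousFunction.ofNormedAddCommGroup (fun t => conj (E t))
    (Complex.continuous_conj.comp continuous_E) 1 fun t => by simp [norm_E]
  let v : ℂ × ℂ → ℝ →ᵇ ℂ := fun p =>
    (1 - conj p.2 • Φ) * ((1 - p.1 • Y) * (1 - conj p.1 • Z))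
  have c1 : ContDiff ℝ 1 fun p : ℂ × ℂ => conj p.1 := Complex.conjCLE.contDiff.comp contDiff_fst
  have c2 : ContDiff ℝ 1 fun p : ℂ × ℂ => conj p.2 := Complex.conjCLE.contDiff.comp contDiff_snd
  have hv : ContDiff ℝ 1 v :=
    (contDiff_const.sub (c2.smul contDiff_const)).mul
      ((contDiff_const.sub (contDiff_fst.smul contDiff_const)).mul
        (contDiff_const.sub (c1.smul contDiff_const)))
  have v0 : v (0, 0) = (1 : (ℝ →ᵇ ℂ)ˣ) := by simp [v]
  have hi : ContDiffAt ℝ 1 (fun p => Ring.inverse (v p)) (0, 0) :=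
    ContDiffAt.comp (g := Ring.inverse) _ (by rw [v0]; exact contDiffAt_ringInverse ℝ _)
      hv.contDiffAt
  have hu : ContDiffAt ℝ 1 (fun p : ℂ × ℂ => (2 * π : ℂ)⁻¹ *
      Λ ((1 - p.1 * conj p.1) • ((Φ - p.2 • 1) * Ring.inverse (v p)))) (0, 0) :=
    contDiffAt_const.mul (Λ.contDiff.contDiffAt.comp _
      ((contDiff_const.sub (contDiff_fst.mul c1)).contDiffAt.smul
        ((contDiff_const.sub (contDiff_snd.smul contDiff_const)).contDiffAt.mul hi)))
  have ev : ∀ᶠ p in 𝓝 ((0, 0) : ℂ × ℂ), IsUnit (v p) :=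
    hv.continuous.continuousAt.eventually (Units.isOpen.mem_nhds (by rw [v0]; exact Units.isUnit _))
  refine hu.congr_of_eventuallyEq (ev.mono fun p hp => ?_)
  simp only [G, hΛ]
  refine congrArg _ (intervalIntegral.integral_congr fun t _ => ?_)
  have e1 : E t * conj (E t) = 1 := by rw [Complex.mul_conj']; simp [norm_E]
  have e2 : ((‖E t - p.1‖ : ℝ) : ℂ) ^ 2 = (1 - p.1 * conj (E t)) * (1 - conj p.1 * E t) := by
    rw [← Complex.mul_conj', map_sub]
    linear_combination (1 - p.1 * conj p.1) * e1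
  simp only [BoundedContinuousFunction.coe_smul, BoundedContinuousFunction.mul_apply,
    desma_inv hp, ker, pk]
  push_cast
  rw [e2, ← Complex.mul_conj']
  simp [v, Φ, Y, Z, div_eq_mul_inv]
  ring

end Pool.Agent.MC.DE
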