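import Mathlib

/-! Definitions used in the statement for MP_2677b3_gt. -/

open UpperHalfPlane
open scoped MatrixGroups

namespace Pool.Agent.MC

/-- `G` is the deck group of a closed hyperbolic surface `ℍ / G` all of whose closed geodesics have
length at least `ε`: its elements are Moebius maps, every non-identity element moves every point by
at least `ε`, and the quotient is compact. -/
structure Fuchs (G : Subgroup (Equiv.Perm ℍ)) (ε : ℝ) : Prop where
  mob : ∀ g ∈ G, ∃ A : SL(2, ℝ), ∀ z : ℍ, g z = A • z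
  thick : ∀ g ∈ G, g ≠ 1 → ∀ z : ℍ, ε ≤ dist z (g z)
  cocpt : ∃ R : ℝ, ∀ z : ℍ, ∃ g ∈ G, dist (g z) I ≤ R

/-- The surface `ℍ / G` is one-dimensional at scale `(r, L)`: it is partitioned into pieces of
diameter at most `L` such that no ball of radius `r` meets three different pieces. -/
def DimOne (G : Subgroup (Equiv.Perm ℍ)) (r L : ℝ) : Prop :=
  ∃ (ι : Type) (piece : ℍ → ι), (∀ g ∈ G, ∀ z, piece (g z) = piece z) ∧
    (∀ z w, piece z = piece w → ∃ g ∈ G, dist z (g w) ≤ L) ∧
    ∀ z a b c : ℍ, dist z a ≤ r → dist z b ≤ r → dist z c ≤ r →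
      piece a = piece b ∨ piece b = piece c ∨ piece a = piece c

/-- The relator `[a,b][c,d]` of the fundamental group of the closed surface of genus 2. -/
def rel2 : FreeGroup (Fin 4) :=
  FreeGroup.of 0 * FreeGroup.of 1 * (FreeGroup.of 0)⁻¹ * (FreeGroup.of 1)⁻¹ *
    (FreeGroup.of 2 * FreeGroup.of 3 * (FreeGroup.of 2)⁻¹ * (FreeGroup.of 3)⁻¹)

/-- The fundamental group of the closed orientable surface of genus 2. -/
abbrev Pi2 : Type := PresentedGroup ({rel2} : Set (FreeGroup (Fin 4)))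

/-- `F` is an orientation-preserving `C¹` map of the upper half-plane of dilatation at most `K`:
its real derivative has positive determinant and `‖DF‖² ≤ K · det DF` everywhere. -/
def IsQC (K : ℝ) (F : ℍ → ℍ) : Prop :=
  ∃ Φ : ℂ → ℂ, (∀ z : ℍ, Φ z = F z) ∧ ContDiffOn ℝ 1 Φ {z | 0 < z.im} ∧
    ∀ z : ℍ, 0 < (fderiv ℝ Φ z).det ∧ ‖fderiv ℝ Φ z‖ ^ 2 ≤ K * (fderiv ℝ Φ z).det

end Pool.Agent.MC
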