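import Pool.Agent.P.MP_2677b3_gt.Base
import Pool.Agent.P.MP_2677b3_gt.Defs

/-! The hexagon group and its subgroup of index four. -/

namespace Pool.Agent.MC

/-- The reflection in side `j`. -/
def rW (j : ZMod 6) : W6 := PresentedGroup.of j

theorem rW_sq (j : ZMod 6) : rW j * rW j = 1 := by
  have : (PresentedGroup.mk relsW) (FreeGroup.of j * FreeGroup.of j) = 1 :=
    PresentedGroup.one_of_mem (Or.inl ⟨j, rfl⟩)
  simpa [PresentedGroup.of, rW] using this

theorem rW_inv (j : ZMod 6) : (rW j)⁻¹ = rW j := inv_eq_of_mul_eq_one_right (rW_sq j)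

theorem rW_comm (j : ZMod 6) : rW j * rW (j + 1) = rW (j + 1) * rW j := by
  have : (PresentedGroup.mk relsW)
      (FreeGroup.of j * FreeGroup.of (j + 1) * FreeGroup.of j * FreeGroup.of (j + 1)) = 1 :=
    PresentedGroup.one_of_mem (Or.inr ⟨j, rfl⟩)
  have h : rW j * rW (j + 1) * (rW j * rW (j + 1)) = 1 := by
    simpa [PresentedGroup.of, rW, mul_assoc] using this
  have := inv_eq_of_mul_eq_one_right h
  rw [mul_inv_rev, rW_inv, rW_inv] at this
  exact this.symm

theorem w6_lift {Γ : Type} [Group Γ] (s : ZMod 6 → Γ) (h1 : ∀ j, s j * s j = 1)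
    (h2 : ∀ j, s j * s (j + 1) = s (j + 1) * s j) : ∃ f : W6 →* Γ, ∀ j, f (rW j) = s j := by
  have h3 : ∀ r ∈ relsW, FreeGroup.lift s r = 1 := by
    rintro _ (⟨j, rfl⟩ | ⟨j, rfl⟩)
    · simp [h1]
    · simp only [map_mul, FreeGroup.lift_apply_of]
      rw [h2, mul_assoc (s (j + 1)), h1, mul_one, h1]
  exact ⟨PresentedGroup.toGroup h3, fun j => PresentedGroup.toGroup.of h3⟩

/-- The value of a word in the reflections. -/
def wv (w : List (ZMod 6)) : W6 := (w.map rW).prod

@[simp] theorem wv_nil : wv [] = 1 := rfl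
@[simp] theorem wv_cons (j : ZMod 6) (w : List (ZMod 6)) : wv (j :: w) = rW j * wv w := by
  simp [wv]
@[simp] theorem wv_append (u w : List (ZMod 6)) : wv (u ++ w) = wv u * wv w := by simp [wv]
@[simp] theorem wv_reverse (w : List (ZMod 6)) : wv w.reverse = (wv w)⁻¹ := by
  induction w with
  | nil => simp
  | cons j w ih => simp [ih, rW_inv]

theorem wv_surj (g : W6) : ∃ w, wv w = g := by
  have : g ∈ Subgroup.closure (Set.range (PresentedGroup.of : ZMod 6 → W6)) := by
    rw [PresentedGroup.closure_range_of]; trivial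
  induction this using Subgroup.closure_induction with
  | mem x hx => obtain ⟨j, rfl⟩ := hx; exact ⟨[j], by simp [rW]⟩
  | one => exact ⟨[], rfl⟩
  | mul x y _ _ hx hy =>
    obtain ⟨u, rfl⟩ := hx; obtain ⟨w, rfl⟩ := hy; exact ⟨u ++ w, by simp⟩
  | inv x _ hx => obtain ⟨u, rfl⟩ := hx; exact ⟨u.reverse, by simp⟩

/-- Cancel the letter `j` against a later copy, passing letters that commute with it. -/
def del (j : ZMod 6) : List (ZMod 6) → Option (List (ZMod 6))
  | [] => none
  | i :: w => if i = j then some w else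
      if i = j + 1 ∨ j = i + 1 then (del j w).map (i :: ·) else none

theorem wv_del (j : ZMod 6) : ∀ w u, del j w = some u → wv u = rW j * wv w
  | [], _, h => by simp [del] at h
  | i :: w, u, h => by
    unfold del at h
    split_ifs at h with h1 h2
    · obtain rfl := Option.some.inj h
      rw [h1, wv_cons, ← mul_assoc, rW_sq, one_mul]
    · obtain ⟨v, hv, rfl⟩ := Option.map_eq_some_iff.1 h
      have hc : rW i * rW j = rW j * rW i := by
        rcases h2 with rfl | rfl
        · exact (rW_comm j).symm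
        · exact rW_comm i
      rw [wv_cons, wv_del j w v hv, wv_cons, ← mul_assoc, hc, mul_assoc]

/-- Reduction of a word. -/
def red : List (ZMod 6) → List (ZMod 6)
  | [] => []
  | j :: w => (del j (red w)).getD (j :: red w)

theorem wv_red : ∀ w, wv (red w) = wv w
  | [] => rfl
  | j :: w => by
    unfold red
    cases h : del j (red w) with
    | none => simp [wv_red w]
    | some u => simp [wv_del j _ u h, wv_red w]

theorem wv_eq {u w : List (ZMod 6)} (h : red (u ++ w.reverse) = []) : wv u = wv w := by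
  have := wv_red (u ++ w.reverse)
  rw [h, wv_nil, wv_append, wv_reverse] at this
  exact mul_inv_eq_one.1 this.symm

/-- Two sides at distance two generate an infinite dihedral group. -/
theorem rW_pow_ne (i : ZMod 6) (n : ℕ) (h : (rW i * rW (i + 2)) ^ n = 1) : n = 0 := by
  let s : ZMod 6 → Equiv.Perm ℤ := fun j =>
    if j = i then Equiv.neg ℤ else if j = i + 2 then Equiv.subLeft 1 else 1
  have e1 : ∀ i j : ZMod 6, (j ≠ i ∧ j ≠ i + 2) ∨ (j + 1 ≠ i ∧ j + 1 ≠ i + 2) := by decide
  have e2 : ∀ i : ZMod 6, i + 2 ≠ i := by decide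
  obtain ⟨f, hf⟩ := w6_lift s (fun j => by
    ext z
    simp only [s]
    split_ifs <;> simp) (fun j => by
    rcases e1 i j with ⟨h1, h2⟩ | ⟨h1, h2⟩ <;> simp [s, h1, h2])
  have h1 : ∀ m : ℕ, (f ((rW i * rW (i + 2)) ^ m)) 0 = -(m : ℤ) := by
    intro m
    induction m with
    | zero => simp
    | succ m ih =>
      rw [pow_succ', map_mul, Equiv.Perm.mul_apply, ih, map_mul, hf, hf]
      simp [s, e2 i]
      ring
  have := h1 n
  rw [h] at this
  simp at this
  exact this

/-- Images of the four generators of the surface group. -/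
def iw : Fin 4 → List (ZMod 6) := ![[0, 2], [3, 1], [3, 5], [0, 4]]

/-- Coset representatives. -/
def cw (τ : ZMod 2 × ZMod 2) : List (ZMod 6) :=
  (if τ.1 = 0 then [] else [0]) ++ (if τ.2 = 0 then [] else [1])

/-- The Schreier generators as words in the generators of the surface group. -/
def kw (τ : ZMod 2 × ZMod 2) (j : ZMod 6) : List (Fin 4 × Bool) :=
  if j = 2 then [(0, decide (τ.1 = 1))]
  else if j = 3 then
    (if τ.1 = 0 then [(1, decide (τ.2 = 0))] else [(0, true), (1, decide (τ.2 = 0)), (0, false)])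
  else if j = 4 then
    (if τ.2 = 0 then [(3, decide (τ.1 = 1))]
      else [(1, false), (2, true), (3, decide (τ.1 = 1)), (2, false), (1, true)])
  else if j = 5 then (if τ.2 = 0 then [(2, false), (1, true)] else [(1, false), (2, true)])
  else []

/-- The class of a word in the surface group. -/
def pv (w : List (Fin 4 × Bool)) : Pi2 := PresentedGroup.mk _ (FreeGroup.mk w)

theorem pv_append (u w : List (Fin 4 × Bool)) : pv (u ++ w) = pv u * pv w := by
  simp only [pv, ← map_mul, FreeGroup.mul_mk]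

theorem pv_eq {u w : List (Fin 4 × Bool)} (h : FreeGroup.reduce u = FreeGroup.reduce w) :
    pv u = pv w := by
  simp only [pv, FreeGroup.reduce.exact h]

/-- The relator as a word. -/
def relw : List (Fin 4 × Bool) := [(0, true), (1, true), (0, false), (1, false), (2, true),
  (3, true), (2, false), (3, false)]

theorem mk_relw : FreeGroup.mk relw = rel2 := by
  simp only [rel2, FreeGroup.of, FreeGroup.inv_mk, FreeGroup.mul_mk]
  rfl

theorem pv_relw : pv relw = 1 := by
  rw [pv, mk_relw]
  exact PresentedGroup.one_of_mem rfl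

theorem kw_inv (τ : ZMod 2 × ZMod 2) (j : ZMod 6) :
    pv (kw τ j) * pv (kw (τ + flipT j) j) = 1 := by
  have h : ∀ (τ : ZMod 2 × ZMod 2) (j : ZMod 6),
      FreeGroup.reduce (kw τ j ++ kw (τ + flipT j) j) = FreeGroup.reduce [] := by decide +kernel
  rw [← pv_append, pv_eq (h τ j)]
  rfl

theorem pv_conj (g u : List (Fin 4 × Bool)) :
    pv (g ++ (relw ++ (FreeGroup.invRev g ++ u))) = pv u := by
  have : pv (FreeGroup.invRev g) = (pv g)⁻¹ := by
    simp only [pv, ← map_inv, FreeGroup.inv_mk]
  simp [pv_append, pv_relw, this]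

theorem kw_comm (τ : ZMod 2 × ZMod 2) (j : ZMod 6) :
    pv (kw τ j) * pv (kw (τ + flipT j) (j + 1)) =
      pv (kw τ (j + 1)) * pv (kw (τ + flipT (j + 1)) j) := by
  have h : ∀ (τ : ZMod 2 × ZMod 2) (j : ZMod 6),
      FreeGroup.reduce (kw τ j ++ kw (τ + flipT j) (j + 1)) =
        FreeGroup.reduce (kw τ (j + 1) ++ kw (τ + flipT (j + 1)) j) ∨
      ∃ g ∈ [[(3, false)], [(1, false), (3, false)], [], [(0, true), (1, false), (0, false)]],
        FreeGroup.reduce (g ++ (relw ++ (FreeGroup.invRev g ++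
          (kw τ j ++ kw (τ + flipT j) (j + 1))))) =
          FreeGroup.reduce (kw τ (j + 1) ++ kw (τ + flipT (j + 1)) j) ∨
        FreeGroup.reduce (g ++ (relw ++ (FreeGroup.invRev g ++
          (kw τ (j + 1) ++ kw (τ + flipT (j + 1)) j)))) =
          FreeGroup.reduce (kw τ j ++ kw (τ + flipT j) (j + 1)) := by decide +kernel
  rw [← pv_append, ← pv_append]
  rcases h τ j with h | ⟨g, -, h | h⟩
  · exact pv_eq h
  · rw [← pv_eq h, pv_conj]
  · rw [← pv_eq h, pv_conj]

/-- The total type change of a word. -/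
def thW (w : List (ZMod 6)) : ZMod 2 × ZMod 2 := (w.map flipT).sum

/-- The rewriting of a word in the Schreier generators. -/
def kws : ZMod 2 × ZMod 2 → List (ZMod 6) → List (Fin 4 × Bool)
  | _, [] => []
  | τ, j :: w => kw τ j ++ kws (τ + flipT j) w

/-- Translation of surface group words to reflection words. -/
def tw (w : List (Fin 4 × Bool)) : List (ZMod 6) :=
  w.flatMap fun p => if p.2 then iw p.1 else (iw p.1).reverse

theorem lift_tw (w : List (Fin 4 × Bool)) :
    FreeGroup.lift (fun i => wv (iw i)) (FreeGroup.mk w) = wv (tw w) := by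
  rw [FreeGroup.lift_mk]
  induction w with
  | nil => rfl
  | cons p w ih =>
    rw [List.map_cons, List.prod_cons, ih, tw, tw, List.flatMap_cons, wv_append]
    rcases p with ⟨i, _ | _⟩ <;> simp

theorem flip_flip (τ : ZMod 2 × ZMod 2) (j : ZMod 6) : τ + flipT j + flipT j = τ := by
  revert τ j; decide

/-- The surface group of genus two is the kernel of the type map of the hexagon group. -/
theorem w6_sub : ∃ (ι : Pi2 →* W6) (θ : W6 →* Multiplicative (ZMod 2 × ZMod 2)),
    Function.Injective ι ∧ (∀ w, θ (wv w) = Multiplicative.ofAdd (thW w)) ∧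
      ∀ w, θ w = 1 ↔ ∃ γ, ι γ = w := by
  obtain ⟨θ, hθ⟩ := w6_lift (fun j => Multiplicative.ofAdd (flipT j))
    (fun j => by rw [← ofAdd_add, ← ofAdd_zero, ← flip_flip 0 j, zero_add])
    (fun j => mul_comm _ _)
  have hθw : ∀ w, θ (wv w) = Multiplicative.ofAdd (thW w) := by
    intro w
    induction w with
    | nil => simp [thW]
    | cons j w ih => rw [wv_cons, map_mul, ih, hθ]; simp [thW]
  have hrel : ∀ r ∈ ({rel2} : Set (FreeGroup (Fin 4))),
      FreeGroup.lift (fun i => wv (iw i)) r = 1 := by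
    rintro _ rfl
    rw [← mk_relw, lift_tw]
    exact wv_eq (w := []) (by decide +kernel)
  let ι : Pi2 →* W6 := PresentedGroup.toGroup hrel
  have hι : ∀ w, ι (pv w) = wv (tw w) := fun w => lift_tw w
  have hιof : ∀ i, ι (PresentedGroup.of i) = wv (iw i) := fun i => PresentedGroup.toGroup.of hrel
  let s : ZMod 6 → Equiv.Perm ((ZMod 2 × ZMod 2) × Pi2) := fun j =>
    Function.Involutive.toPerm (fun x => (x.1 + flipT j, x.2 * pv (kw x.1 j))) (fun x => by
      simp only [flip_flip, mul_assoc, kw_inv, mul_one])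
  have hs : ∀ j x, s j x = (x.1 + flipT j, x.2 * pv (kw x.1 j)) := fun _ _ => rfl
  obtain ⟨Φ, hΦ⟩ := w6_lift s (fun j => by
    refine Equiv.ext fun x => ?_
    simp only [Equiv.Perm.mul_apply, hs, flip_flip, mul_assoc, kw_inv, mul_one,
      Equiv.Perm.one_apply]) (fun j => by
    refine Equiv.ext fun x => ?_
    simp only [Equiv.Perm.mul_apply, hs, mul_assoc, kw_comm, add_right_comm])
  have hΦw : ∀ w τ u, Φ (wv w)⁻¹ (τ, u) = (τ + thW w, u * pv (kws τ w)) := by
    intro w
    induction w with
    | nil => intro τ u; simp [thW, kws, pv, ← FreeGroup.one_eq_mk]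
    | cons j w ih =>
      intro τ u
      rw [wv_cons, mul_inv_rev, rW_inv, map_mul, Equiv.Perm.mul_apply, hΦ, hs, ih]
      simp [thW, kws, pv_append, add_assoc, mul_assoc]
  have key : ∀ γ u, Φ (ι γ)⁻¹ (0, u) = (0, u * γ) := by
    intro γ
    have : γ ∈ Subgroup.closure (Set.range (PresentedGroup.of : Fin 4 → Pi2)) := by
      rw [PresentedGroup.closure_range_of]; trivial
    induction this using Subgroup.closure_induction with
    | mem x hx =>
      obtain ⟨i, rfl⟩ := hx
      intro u
      have h : ∀ i, thW (iw i) = 0 ∧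
          FreeGroup.reduce (kws 0 (iw i)) = FreeGroup.reduce [(i, true)] := by decide +kernel
      rw [hιof, hΦw, (h i).1, pv_eq (h i).2, add_zero]
      rfl
    | one => intro u; simp
    | mul x y _ _ hx hy =>
      intro u
      rw [map_mul, mul_inv_rev, map_mul, Equiv.Perm.mul_apply, hx, hy, mul_assoc]
    | inv x _ hx =>
      intro u
      have := hx (u * x⁻¹)
      rw [inv_mul_cancel_right] at this
      rw [← this, ← Equiv.Perm.mul_apply, ← map_mul]
      simp
  have hk : ∀ τ j, wv (tw (kw τ j)) = wv (cw τ) * rW j * (wv (cw (τ + flipT j)))⁻¹ := by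
    intro τ j
    have h : ∀ τ j, red (tw (kw τ j) ++ (cw τ ++ [j] ++ (cw (τ + flipT j)).reverse).reverse)
      = [] := by decide +kernel
    rw [wv_eq (h τ j)]
    simp [mul_assoc]
  have hks : ∀ w τ, ι (pv (kws τ w)) = wv (cw τ) * wv w * (wv (cw (τ + thW w)))⁻¹ := by
    intro w
    induction w with
    | nil => intro τ; simp [thW, kws, pv, ← FreeGroup.one_eq_mk]
    | cons j w ih =>
      intro τ
      rw [kws, pv_append, map_mul, ih, hι, hk]
      simp [thW, add_assoc, mul_assoc]
  refine ⟨ι, θ, (injective_iff_map_eq_one ι).2 fun γ h => ?_, hθw, fun w => ⟨fun h => ?_, ?_⟩⟩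
  · have := key γ 1
    rw [h] at this
    simpa using this.symm
  · obtain ⟨w, rfl⟩ := wv_surj w
    rw [hθw] at h
    have h0 : thW w = 0 := h
    exact ⟨_, by rw [hks w 0, h0]; simp [cw]⟩
  · rintro ⟨γ, rfl⟩
    have : θ.comp ι = 1 := PresentedGroup.ext fun i => by
      have h : ∀ i, thW (iw i) = 0 := by decide +kernel
      rw [MonoidHom.comp_apply, hιof, hθw, h]; rfl
    exact DFunLike.congr_fun this γ

end Pool.Agent.MC
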