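import Pool.Agent.P.MP_2677b3_gt.FiC
import Pool.Agent.P.MP_2677b3_gt.FiW

/-! The quasi-isometry induced by a reflection of the hexagon group. -/

open UpperHalfPlane

namespace Pool.Agent.MC

theorem reflect {G : Subgroup (Equiv.Perm ℍ)} {ε : ℝ} (hε : 0 < ε) (hG : Fuchs G ε)
    (J : G →* W6) (θ : W6 →* Multiplicative (ZMod 2 × ZMod 2)) (hJ : Function.Injective J)
    (hθ : ∀ w, θ (wv w) = Multiplicative.ofAdd (thW w)) (hk : ∀ w, θ w = 1 ↔ ∃ γ, J γ = w) :
    ∃ (σ : G →* G) (t : ℍ → ℍ) (K : ℝ), (∀ γ, σ (σ γ) = γ) ∧ QIPair K t t ∧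
      (∀ (γ : G) z, dist (t (γ.1 z)) ((σ γ).1 (t z)) ≤ K) ∧
      (∀ n : ℕ, ∃ z, (n : ℝ) ≤ dist z I ∧ dist (t z) z ≤ K) ∧ ∃ γ, σ γ ≠ γ := by
  have hI := isom_of_mob hG.mob
  have : ∀ γ, ∃ δ, J δ = rW 2 * J γ * rW 2 := fun γ => by
    rw [← hk, map_mul, map_mul, (hk _).2 ⟨γ, rfl⟩, mul_one, ← map_mul, rW_sq, map_one]
  choose s hs using this
  have sq : ∀ j x, rW j * (rW j * x) = x := fun j x => by rw [← mul_assoc, rW_sq, one_mul]
  let σ : G →* G := MonoidHom.mk' s fun a b => hJ (by simp [hs, mul_assoc, sq])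
  have hσ : ∀ γ, J (σ γ) = rW 2 * J γ * rW 2 := hs
  have σσ : ∀ γ, σ (σ γ) = γ := fun γ => hJ (by simp [hσ, mul_assoc, sq, rW_sq])
  obtain ⟨C, hC0, hC⟩ := hG.svarc hε (fun γ => dist I ((σ γ).1 I)) fun a b => by
    rw [map_mul, ← hI (σ a) I ((σ b).1 I)]
    exact dist_triangle _ _ _
  have lip : ∀ a b : G, dist ((σ a).1 I) ((σ b).1 I) ≤ C * dist (a.1 I) (b.1 I) + C := fun a b => by
    rw [hI.dist_inv, hI.dist_inv a, ← map_inv, ← map_mul]
    exact hC _
  obtain ⟨R, hR⟩ := hG.cocpt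
  have : ∀ z : ℍ, ∃ g : G, dist (g.1 I) z ≤ R := fun z => by
    obtain ⟨g, hg, h1⟩ := hR z
    exact ⟨⟨g, hg⟩⁻¹, by rw [← hI ⟨g, hg⟩, dist_comm]; simpa using h1⟩
  choose c hc using this
  have hR0 : 0 ≤ R := dist_nonneg.trans (hc I)
  have hCR := mul_nonneg hC0 hR0
  have near : ∀ (a : G), dist ((σ (c (a.1 I))).1 I) ((σ a).1 I) ≤ C * R + C := fun a =>
    (lip _ _).trans (by linarith [mul_le_mul_of_nonneg_left (hc (a.1 I)) hC0])
  have l1 : ∀ x y, dist ((σ (c x)).1 I) ((σ (c y)).1 I) ≤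
      (2 * C * R + C + R) * dist x y + (2 * C * R + C + R) := fun x y => by
    have a := lip (c x) (c y)
    have b := dist_triangle4 ((c x).1 I) x y ((c y).1 I)
    have d := hc y
    rw [dist_comm] at d
    have e := mul_le_mul_of_nonneg_left (show dist ((c x).1 I) ((c y).1 I) ≤ dist x y + 2 * R by
      linarith [hc x]) hC0
    have := mul_nonneg (show 0 ≤ 2 * C * R + R by linarith) (dist_nonneg (x := x) (y := y))
    linarith
  have l2 : ∀ x, dist ((σ (c ((σ (c x)).1 I))).1 I) x ≤ 2 * C * R + C + R := fun x => by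
    have a := near (σ (c x))
    rw [σσ] at a
    have := dist_triangle ((σ (c ((σ (c x)).1 I))).1 I) ((c x).1 I) x
    linarith [hc x]
  have two : ∀ i, ∃ γ, J γ = rW i * rW (i + 2) := fun i => by
    have h : ∀ i : ZMod 6, thW [i, i + 2] = 0 := by decide
    rw [← hk, show rW i * rW (i + 2) = wv [i, i + 2] by simp, hθ, h]
    rfl
  refine ⟨σ, fun z => (σ (c z)).1 I, 2 * C * R + C + R, σσ, ⟨l1, l1, l2, l2⟩, fun γ z => ?_,
    fun n => ?_, ?_⟩
  · have a := lip (c (γ.1 z)) (γ * c z)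
    have b := hc z
    rw [← hI γ] at b
    have d := dist_triangle_right ((c (γ.1 z)).1 I) (γ.1 ((c z).1 I)) (γ.1 z)
    have e := mul_le_mul_of_nonneg_left (show dist ((c (γ.1 z)).1 I) (γ.1 ((c z).1 I)) ≤ 2 * R by
      linarith [hc (γ.1 z)]) hC0
    rw [map_mul] at a
    exact a.trans (le_trans (add_le_add e le_rfl) (by linarith))
  · obtain ⟨k, hk1⟩ := two 1
    have hσk : σ k = k := hJ (by
      rw [hσ, hk1]
      simpa [mul_assoc] using wv_eq (u := [2, 1, 1 + 2, 2]) (w := [1, 1 + 2]) (by decide))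
    have inj : Function.Injective fun m : ℕ => k ^ m := by
      rw [injective_pow_iff_not_isOfFinOrder, isOfFinOrder_iff_pow_eq_one]
      rintro ⟨m, hm, h⟩
      have := congrArg J h
      rw [map_pow, hk1, map_one] at this
      exact hm.ne' (rW_pow_ne 1 m this)
    obtain ⟨_, ⟨m, rfl⟩, hm⟩ := (Set.infinite_range_of_injective inj).exists_notMem_finite
      (hG.finite hε n)
    refine ⟨(k ^ m).1 I, ?_, ?_⟩
    · rw [dist_comm]
      exact (not_le.1 hm).le
    · have a := near (k ^ m)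
      rw [map_pow, hσk] at a
      exact a.trans (by linarith)
  · obtain ⟨k, hk1⟩ := two 2
    refine ⟨k, fun h => ?_⟩
    have a := hσ k
    rw [h, hk1, mul_assoc, mul_assoc, sq] at a
    have := rW_pow_ne 2 2 (by rw [pow_two]; nth_rw 1 [a]; simp [mul_assoc, sq, rW_sq])
    omega

end Pool.Agent.MC
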