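import Pool.Agent.P.MP_2677b3_gt.FiC
import Pool.Agent.P.MP_2677b3_gt.FiW

/-! Hexagon tilings are realised over the surface of genus two. -/

open UpperHalfPlane

namespace Pool.Agent.MC

/-- Word length in the hexagon group. -/
noncomputable def wl (g : W6) : ℕ := sInf {n | ∃ w : List (ZMod 6), w.length = n ∧ wv w = g}

theorem wl_spec (g : W6) : ∃ w : List (ZMod 6), w.length = wl g ∧ wv w = g := by
  obtain ⟨w, hw⟩ := wv_surj g
  exact Nat.sInf_mem (s := {n | ∃ w : List (ZMod 6), w.length = n ∧ wv w = g}) ⟨_, w, rfl, hw⟩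

theorem wl_mul (a b : W6) : wl (a * b) ≤ wl a + wl b := by
  obtain ⟨u, h1, h2⟩ := wl_spec a
  obtain ⟨w, h3, h4⟩ := wl_spec b
  exact Nat.sInf_le ⟨u ++ w, by simp [h1, h3], by simp [h2, h4]⟩

namespace WSet

variable (T : WSet)

/-- The path that starts at `z` and crosses the sides listed in a word. -/
def pw : T.Z → List (ZMod 6) → List (T.Z × ZMod 6)
  | _, [] => []
  | z, j :: w => (z, j) :: pw (T.r j z) w

/-- Paths in the dual graph. -/
def Pa (x : T.Z) (p : List (T.Z × ZMod 6)) (y : T.Z) : Prop :=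
  IsPath (fun e : T.Z × ZMod 6 => e.1) (fun e => T.r e.2 e.1) x p y

theorem ev_eq (p : List (T.Z × ZMod 6)) : T.gd.ev p = wv (p.map Prod.snd) := by
  rw [wv, List.map_map]
  rfl

theorem pw_path : ∀ (w : List (ZMod 6)) (z : T.Z), ∃ y, T.Pa z (T.pw z w) y ∧
    (T.pw z w).map Prod.snd = w ∧ T.ty y = T.ty z + thW w
  | [], z => ⟨z, rfl, rfl, by simp [thW]⟩
  | j :: w, z => by
    obtain ⟨y, h1, h2, h4⟩ := pw_path w (T.r j z)
    exact ⟨y, ⟨rfl, h1⟩, by simp [pw, h2], by simp [h4, T.ty_r, thW, add_assoc]⟩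

theorem act : ∃ Φ : W6 →* Equiv.Perm T.Z, ∀ p x y, T.Pa x p y →
    Φ (wv (p.map Prod.snd)) y = x := by
  obtain ⟨Φ, hΦ⟩ := w6_lift (fun j => Function.Involutive.toPerm (T.r j) (T.rr j))
    (fun j => Equiv.ext fun z => T.rr j z) (fun j => Equiv.ext fun z => T.comm j z)
  refine ⟨Φ, fun p => ?_⟩
  induction p with
  | nil => intro x y h; simpa using h.symm
  | cons e p ih =>
    rintro x y ⟨rfl, h⟩
    rw [List.map_cons, wv_cons, map_mul, Equiv.Perm.mul_apply, ih _ _ h, hΦ]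
    exact T.rr _ _

end WSet

theorem tiling_geo {G : Subgroup (Equiv.Perm ℍ)} {ε : ℝ} (hε : 0 < ε) (hG : Fuchs G ε)
    (J : G →* W6) (θ : W6 →* Multiplicative (ZMod 2 × ZMod 2)) (hJ : Function.Injective J)
    (hθ : ∀ w, θ (wv w) = Multiplicative.ofAdd (thW w)) (hk : ∀ w, θ w = 1 ↔ ∃ γ, J γ = w) :
    ∃ K : ℝ, ∀ T : WSet, ∃ g : Geo T.gd G K, ∀ x : T.Z, ∃ Λ : Subgroup G, Λ.index ≠ 0 ∧
      ∀ γ, γ ∈ Λ ↔ ∃ q, T.gd.Path x q x ∧ g.H q = γ := by
  have hI := isom_of_mob hG.mob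
  have hc : ∀ τ, thW (cw τ) = τ ∧ (cw τ).length ≤ 2 := by decide
  have : ∀ τ j, ∃ γ, J γ = wv (cw τ) * rW j * (wv (cw (τ + flipT j)))⁻¹ := fun τ j => by
    rw [← hk, map_mul, map_mul, map_inv, hθ, hθ, (hc _).1, (hc _).1,
      show rW j = wv [j] by simp, hθ]
    simp [thW]
  choose κ hκ using this
  obtain ⟨B, hB⟩ := (Set.finite_range fun u : (ZMod 2 × ZMod 2) × ZMod 6 =>
    dist I ((κ u.1 u.2).1 I)).bddAbove
  obtain ⟨C, hC0, hC⟩ := hG.svarc hε (fun γ => wl (J γ)) (fun a b => by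
    rw [map_mul]; exact_mod_cast wl_mul _ _)
  obtain ⟨R, hR⟩ := hG.cocpt
  refine ⟨max (max B R) (C + 4), fun T => ?_⟩
  obtain ⟨Φ, hΦ⟩ := T.act
  have hH : ∀ (p : List (T.Z × ZMod 6)) (x y : T.Z), T.Pa x p y →
      J (p.map fun e => κ (T.ty e.1) e.2).prod =
        wv (cw (T.ty x)) * wv (p.map Prod.snd) * (wv (cw (T.ty y)))⁻¹ := by
    intro p
    induction p with
    | nil => intro x y h; obtain rfl : x = y := h; simp
    | cons e p ih =>
      rintro x y ⟨rfl, h⟩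
      rw [List.map_cons, List.prod_cons, map_mul, ih _ _ h, hκ, ← T.ty_r]
      simp [mul_assoc]
  have hP : ∀ (x : T.Z) (γ : G), ∃ p y, T.Pa x p y ∧
      wv (p.map Prod.snd) = (wv (cw (T.ty x)))⁻¹ * J γ * wv (cw (T.ty x)) ∧
      (p.map fun e => κ (T.ty e.1) e.2).prod = γ := by
    intro x γ
    obtain ⟨w, hw⟩ := wv_surj ((wv (cw (T.ty x)))⁻¹ * J γ * wv (cw (T.ty x)))
    obtain ⟨y, h1, h2, h4⟩ := T.pw_path w x
    have h5 := hθ w
    rw [hw, map_mul, map_mul, (hk _).2 ⟨γ, rfl⟩, map_inv, mul_one, inv_mul_cancel] at h5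
    have h6 : thW w = 0 := h5.symm
    refine ⟨_, y, h1, by rw [h2, hw], hJ ?_⟩
    rw [hH _ _ _ h1, h2, hw, h4, h6]
    simp [mul_assoc]
  have f1 : ∀ e : T.Z × ZMod 6, κ (T.ty (T.r e.2 e.1)) e.2 = (κ (T.ty e.1) e.2)⁻¹ := fun e =>
    hJ (by
      rw [map_inv, hκ, hκ, T.ty_r, flip_flip]
      simp [mul_assoc, rW_inv])
  have f2 : ∀ (x : T.Z) (p : List (T.Z × ZMod 6)), T.Pa x p x →
      (wv (p.map Prod.snd) = 1 ↔ (p.map fun e => κ (T.ty e.1) e.2).prod = 1) := by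
    intro x p hp
    rw [← map_eq_one_iff J hJ, hH _ _ _ hp]
    simp
  have f3 : ∀ (x : T.Z) (p : List (T.Z × ZMod 6)) (y : T.Z), T.Pa x p y → ∃ q, T.Pa x q y ∧
      (q.map fun e => κ (T.ty e.1) e.2).prod = (p.map fun e => κ (T.ty e.1) e.2).prod ∧
      (q.length : ℝ) ≤ max (max B R) (C + 4) *
        dist I ((p.map fun e => κ (T.ty e.1) e.2).prod.1 I) + max (max B R) (C + 4) := by
    intro x p y hp
    obtain ⟨w, h1, h2⟩ := wl_spec (J (p.map fun e => κ (T.ty e.1) e.2).prod)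
    obtain ⟨y', a1, a2, -⟩ := T.pw_path ((cw (T.ty x)).reverse ++ w ++ cw (T.ty y)) x
    have a3 := congrArg List.length a2
    rw [List.length_map] at a3
    have a4 : wv ((T.pw x ((cw (T.ty x)).reverse ++ w ++ cw (T.ty y))).map Prod.snd) =
        wv (p.map Prod.snd) := by
      rw [a2, wv_append, wv_append, h2, hH _ _ _ hp]
      simp [mul_assoc]
    obtain rfl : y' = y := (Φ (wv (p.map Prod.snd))).injective
      (by rw [hΦ _ _ _ hp, ← a4, hΦ _ _ _ a1])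
    refine ⟨_, a1, hJ (by rw [hH _ _ _ a1, hH _ _ _ hp, a4]), ?_⟩
    have b1 := hC (p.map fun e => κ (T.ty e.1) e.2).prod
    have b2 : ((T.pw x ((cw (T.ty x)).reverse ++ w ++ cw (T.ty y'))).length : ℝ) ≤
        wl (J (p.map fun e => κ (T.ty e.1) e.2).prod) + 4 := by
      have := (hc (T.ty x)).2
      have := (hc (T.ty y')).2
      rw [a3, ← h1]
      simp only [List.length_append, List.length_reverse]
      exact_mod_cast (by omega)
    have b3 := le_max_right (max B R) (C + 4)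
    have b4 := mul_le_mul_of_nonneg_right (show C ≤ max (max B R) (C + 4) by linarith)
      (dist_nonneg (x := I) (y := (p.map fun e => κ (T.ty e.1) e.2).prod.1 I))
    exact b2.trans (by linarith)
  have f4 : ∀ (x : T.Z) (z : ℍ), ∃ p y, T.Pa x p y ∧
      dist z ((p.map fun e => κ (T.ty e.1) e.2).prod.1 I) ≤ max (max B R) (C + 4) := by
    intro x z
    obtain ⟨g, hg, h1⟩ := hR z
    obtain ⟨p, y, h2, -, h3⟩ := hP x ⟨g, hg⟩⁻¹
    refine ⟨p, y, h2, ?_⟩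
    rw [h3, ← hI ⟨g, hg⟩]
    simpa using Or.inl (Or.inr h1)
  have f5 : ∀ x : T.Z, ∃ Λ : Subgroup G, Λ.index ≠ 0 ∧ ∀ γ, γ ∈ Λ ↔ ∃ q, T.Pa x q x ∧
      (q.map fun e => κ (T.ty e.1) e.2).prod = γ := by
    intro x
    let ρ : G →* Equiv.Perm T.Z :=
      Φ.comp ((MulAut.conj (wv (cw (T.ty x)))⁻¹).toMonoidHom.comp J)
    have hρ : ∀ γ, ρ γ = Φ ((wv (cw (T.ty x)))⁻¹ * J γ * wv (cw (T.ty x))) := fun γ => by
      simp [ρ]
    have := T.fin
    refine ⟨(MulAction.stabilizer (Equiv.Perm T.Z) x).comap ρ,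
      (Subgroup.finiteIndex_of_le (H := ρ.ker) fun γ hγ => ?_).index_ne_zero,
      fun γ => ⟨fun h => ?_, ?_⟩⟩
    · rw [Subgroup.mem_comap, MonoidHom.mem_ker.1 hγ]
      exact one_mem _
    · obtain ⟨p, y, h1, h2, h3⟩ := hP x γ
      have h4 : ρ γ x = x := h
      obtain rfl : y = x := (ρ γ).injective (by rw [h4, hρ, ← h2, hΦ _ _ _ h1])
      exact ⟨p, h1, h3⟩
    · rintro ⟨q, h1, rfl⟩
      change ρ (q.map fun e => κ (T.ty e.1) e.2).prod x = x
      rw [hρ, hH _ _ _ h1]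
      simpa [mul_assoc] using hΦ _ _ _ h1
  exact ⟨⟨fun _ => I, fun e => κ (T.ty e.1) e.2, f1,
    fun x p hp => (T.ev_eq p).congr_left.trans (f2 x p hp),
    fun e => (hB ⟨(T.ty e.1, e.2), rfl⟩).trans ((le_max_left _ _).trans (le_max_left _ _)),
    f3, f4⟩, f5⟩

end Pool.Agent.MC
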