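import Pool.Agent.P.MP_2677b3_gt.GeoDefs
import Pool.Agent.P.MP_2677b3_gt.DE
import Pool.Agent.P.MP_2677b3_gt.FiT
import Pool.Agent.P.MP_2677b3_gt.FiO

open UpperHalfPlane
open scoped MatrixGroups

namespace Pool.Agent.MC

/-- A bounded equivalence with a hexagon tiling gives a quasiconformal conjugacy onto a subgroup
of finite index. -/
theorem fin_interface (GX : Subgroup (Equiv.Perm ℍ)) (εX : ℝ) (hε : 0 < εX) (hX : Fuchs GX εX)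
    (e : GX ≃* Pi2) (K₁ : ℝ) (K₂ : ℕ) :
    ∃ K : ℝ, ∀ (GY : Subgroup (Equiv.Perm ℍ)), (∀ g ∈ GY, ∃ A : SL(2, ℝ), ∀ z : ℍ, g z = A • z) →
      ∀ (A : Gd) (g : Geo A GY K₁), Nonempty A.V → g.Full → ∀ T : WSet, Eqv K₂ A T.gd →
        ∃ Λ : Subgroup (Equiv.Perm ℍ), Λ ≤ GX ∧ Λ.relIndex GX ≠ 0 ∧ ∃ F : ℍ ≃ₜ ℍ, IsQC K F ∧
          (∀ γ ∈ GY, ∃ g ∈ Λ, ∀ z, F (γ z) = g (F z)) ∧
          (∀ g ∈ Λ, ∃ γ ∈ GY, ∀ z, F (γ z) = g (F z)) := by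
  obtain ⟨Pos, P1, P2, P3⟩ := de_interface
  obtain ⟨ι, θ, hι, hθ, hk⟩ := w6_sub
  have hJ : Function.Injective (ι.comp e.toMonoidHom) := hι.comp e.injective
  have hk' : ∀ w, θ w = 1 ↔ ∃ γ, ι.comp e.toMonoidHom γ = w := fun w => (hk w).trans
    ⟨fun ⟨γ, h⟩ => ⟨e.symm γ, by simpa using h⟩, fun ⟨γ, h⟩ => ⟨e γ, h⟩⟩
  obtain ⟨K₀, hT⟩ := tiling_geo hε hX _ θ hJ hθ hk'
  obtain ⟨σ, t, Kt, σσ, qt, et, ft, γ₀, hγ₀⟩ := reflect hε hX _ θ hJ hθ hk'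
  obtain ⟨K', hcore⟩ := core (max (max K₀ K₁) K₂)
  have nt : ¬ Pos t := fun h => by
    obtain ⟨A, hA⟩ := hX.mob _ γ₀.2
    obtain ⟨B, hB⟩ := hX.mob _ (σ γ₀).2
    have := P3 Kt t qt h ⟨Kt, ft⟩ A B ⟨Kt, fun z => by rw [← hA, ← hB]; exact et γ₀ z⟩
    exact hγ₀ (Subtype.ext (Equiv.ext fun z => by rw [hA, hB, this]))
  have fin : ∀ K : ℝ, ∃ K' : ℝ, ∀ (GY : Subgroup (Equiv.Perm ℍ)),
      (∀ g ∈ GY, ∃ A : SL(2, ℝ), ∀ z : ℍ, g z = A • z) → ∀ f g, QIPair K f g → Pos f →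
      ∀ Λ₀ : Subgroup GX, Λ₀.index ≠ 0 →
      (∀ γ : GY, ∃ δ ∈ Λ₀, ∃ C, ∀ z, dist (f (γ.1 z)) (δ.1 (f z)) ≤ C) →
      (∀ δ ∈ Λ₀, ∃ γ : GY, ∃ C, ∀ z, dist (f (γ.1 z)) (δ.1 (f z)) ≤ C) →
      ∃ Λ : Subgroup (Equiv.Perm ℍ), Λ ≤ GX ∧ Λ.relIndex GX ≠ 0 ∧ ∃ F : ℍ ≃ₜ ℍ, IsQC K' F ∧
        (∀ γ ∈ GY, ∃ g ∈ Λ, ∀ z, F (γ z) = g (F z)) ∧
        (∀ g ∈ Λ, ∃ γ ∈ GY, ∀ z, F (γ z) = g (F z)) := by
    intro K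
    obtain ⟨K', h⟩ := P1 K
    refine ⟨K', fun GY hY f g q hp Λ₀ hi h1 h2 => ?_⟩
    obtain ⟨F, hF, hE⟩ := h f g q hp
    have key : ∀ (γ : GY) (δ : GX) C, (∀ z, dist (f (γ.1 z)) (δ.1 (f z)) ≤ C) →
        ∀ z, F (γ.1 z) = δ.1 (F z) := by
      intro γ δ C hC z
      obtain ⟨A, hA⟩ := hY _ γ.2
      obtain ⟨B, hB⟩ := hX.mob _ δ.2
      rw [hA, hB]
      exact hE A B ⟨C, fun z => by rw [← hA, ← hB]; exact hC z⟩ z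
    refine ⟨Λ₀.map GX.subtype, Subgroup.map_subtype_le _, ?_, F, hF, fun γ hγ => ?_, ?_⟩
    · rwa [Subgroup.relIndex, Subgroup.subgroupOf,
        Subgroup.comap_map_eq_self_of_injective GX.subtype_injective]
    · obtain ⟨δ, hδ, C, hC⟩ := h1 ⟨γ, hγ⟩
      exact ⟨δ, ⟨δ, hδ, rfl⟩, key _ _ C hC⟩
    · rintro _ ⟨δ, hδ, rfl⟩
      obtain ⟨γ, C, hC⟩ := h2 δ hδ
      exact ⟨γ, γ.2, key _ _ C hC⟩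
  obtain ⟨Ka, ha⟩ := fin K'
  obtain ⟨Kb, hb⟩ := fin (K' * Kt + 2 * K' + 2 * Kt)
  have mono : ∀ {a b : ℝ} {F : ℍ → ℍ}, a ≤ b → IsQC a F → IsQC b F := by
    rintro a b F hab ⟨Φ, h1, h2, h3⟩
    exact ⟨Φ, h1, h2, fun z => ⟨(h3 z).1, (h3 z).2.trans
      (mul_le_mul_of_nonneg_right hab (h3 z).1.le)⟩⟩
  refine ⟨max Ka Kb, fun GY hY A g ⟨x⟩ hfull T hE => ?_⟩
  obtain ⟨g', hg'⟩ := hT T
  obtain ⟨x', F₀, G₀, q, e1, e2⟩ := hcore A T.gd GY GX (isom_of_mob hY) (isom_of_mob hX.mob)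
    (g.mono ((le_max_right _ _).trans (le_max_left _ _)))
    (g'.mono ((le_max_left _ _).trans (le_max_left _ _))) K₂ (le_max_right _ _) hE x
  obtain ⟨Λ₀, hi, hΛ⟩ := hg' x'
  have h1 : ∀ γ : GY, ∃ δ ∈ Λ₀, ∃ C, ∀ z, dist (F₀ (γ.1 z)) (δ.1 (F₀ z)) ≤ C := fun γ => by
    obtain ⟨p, hp, rfl⟩ := hfull x γ
    obtain ⟨u, hu, h⟩ := e1 p hp
    exact ⟨_, (hΛ _).2 ⟨u, hu, rfl⟩, K', h⟩
  have h2 : ∀ δ ∈ Λ₀, ∃ γ : GY, ∃ C, ∀ z, dist (F₀ (γ.1 z)) (δ.1 (F₀ z)) ≤ C := fun δ hδ => by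
    obtain ⟨u, hu, rfl⟩ := (hΛ δ).1 hδ
    obtain ⟨p, -, h⟩ := e2 u hu
    exact ⟨_, K', h⟩
  by_cases hp : Pos F₀
  · obtain ⟨Λ, a1, a2, F, a3, a4⟩ := ha GY hY F₀ G₀ q hp Λ₀ hi h1 h2
    exact ⟨Λ, a1, a2, F, mono (le_max_left _ _) a3, a4⟩
  · have hKt : 0 ≤ Kt := dist_nonneg.trans (qt.gf I)
    have tw : ∀ (γ : GY) (δ : GX) C, (∀ z, dist (F₀ (γ.1 z)) (δ.1 (F₀ z)) ≤ C) →
        ∃ C, ∀ z, dist ((t ∘ F₀) (γ.1 z)) ((σ δ).1 ((t ∘ F₀) z)) ≤ C := fun γ δ C hC =>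
      ⟨Kt * C + Kt + Kt, fun z => (dist_triangle _ (t (δ.1 (F₀ z))) _).trans (add_le_add
        ((qt.cf _ _).trans (add_le_add (mul_le_mul_of_nonneg_left (hC z) hKt) le_rfl)) (et _ _))⟩
    obtain ⟨Λ, a1, a2, F, a3, a4⟩ := hb GY hY _ _ (q.comp qt) (P2 _ _ _ _ _ _ q qt hp nt)
      (Λ₀.comap σ) (by rwa [Subgroup.index_comap_of_surjective _ fun γ => ⟨σ γ, σσ γ⟩])
      (fun γ => by
        obtain ⟨δ, hδ, C, hC⟩ := h1 γ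
        exact ⟨σ δ, by rwa [Subgroup.mem_comap, σσ], tw γ δ C hC⟩)
      (fun δ hδ => by
        obtain ⟨γ, C, hC⟩ := h2 (σ δ) hδ
        have := tw γ _ C hC
        rw [σσ] at this
        exact ⟨γ, this⟩)
    exact ⟨Λ, a1, a2, F, mono (le_max_right _ _) a3, a4⟩

end Pool.Agent.MC
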