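import Pool.Agent.P.MP_2677b3_gt.Defs

/-! The lemma of Svarc and Milnor for cocompact groups of isometries of the half-plane. -/

open UpperHalfPlane
open scoped MatrixGroups

namespace Pool.Agent.MC

theorem chain_real (L : ℝ → ℝ → ℝ) (C : ℝ) (hC : 0 ≤ C) (tri : ∀ a b c, L a c ≤ L a b + L b c)
    (h1 : ∀ a b, |a - b| ≤ 1 → L a b ≤ C) (a b : ℝ) : L a b ≤ C * (|a - b| + 1) := by
  have key : ∀ (n : ℕ) (a : ℝ), |a - b| ≤ n + 1 → L a b ≤ C * (n + 1) := by
    intro n
    induction n with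
    | zero => intro a h; simpa using h1 a b (by simpa using h)
    | succ n ih =>
      intro a h
      push_cast at h ⊢
      have hn : (0 : ℝ) ≤ n := n.cast_nonneg
      by_cases h0 : |a - b| ≤ 1
      · have := h1 a b h0
        nlinarith
      · rw [abs_le] at h
        rcases le_total a b with hab | hab
        · rw [abs_of_nonpos (by linarith)] at h0
          have := ih (a + 1) (abs_le.2 ⟨by linarith, by linarith⟩)
          have := h1 a (a + 1) (by simp)
          have := tri a (a + 1) b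
          linarith
        · rw [abs_of_nonneg (by linarith)] at h0
          have := ih (a - 1) (abs_le.2 ⟨by linarith, by linarith⟩)
          have := h1 a (a - 1) (by simp)
          have := tri a (a - 1) b
          linarith
  refine (key ⌊|a - b|⌋₊ a (Nat.lt_floor_add_one _).le).trans ?_
  have := Nat.floor_le (abs_nonneg (a - b))
  nlinarith

theorem chain_uhp (L : ℍ → ℍ → ℝ) (C : ℝ) (hC : 0 ≤ C) (tri : ∀ a b c, L a c ≤ L a b + L b c)
    (h1 : ∀ a b, dist a b ≤ 1 → L a b ≤ C) (z w : ℍ) : L z w ≤ C * (3 * dist z w + 3) := by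
  let v : ℝ → ℝ → ℍ := fun a y => UpperHalfPlane.mk ⟨a, Real.exp y⟩ (Real.exp_pos y)
  have hv : ∀ a s t, L (v a s) (v a t) ≤ C * (|s - t| + 1) := fun a =>
    chain_real (fun s t => L (v a s) (v a t)) C hC (fun _ _ _ => tri _ _ _) fun s t h =>
      h1 _ _ (by rw [(isometry_vertical_line a).dist_eq]; exact h)
  have e : ∀ z : ℍ, v z.re (Real.log z.im) = z := fun z => by
    apply UpperHalfPlane.ext_re_im
    · rfl
    · exact Real.exp_log z.im_pos
  have hd := dist_nonneg (x := z) (y := w)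
  have a1 := hv z.re (Real.log z.im) (Real.log w.im + dist z w)
  have a2 := hv w.re (Real.log w.im + dist z w) (Real.log w.im)
  have a3 : dist (v z.re (Real.log w.im + dist z w)) (v w.re (Real.log w.im + dist z w)) ≤ 1 := by
    refine (dist_le_dist_coe_div_sqrt _ _).trans ?_
    change dist (⟨z.re, _⟩ : ℂ) ⟨w.re, _⟩ / √(Real.exp _ * Real.exp _) ≤ 1
    rw [Real.sqrt_mul_self (Real.exp_pos _).le, div_le_one (Real.exp_pos _),
      Complex.dist_of_im_eq (by rfl), Real.exp_add, Real.exp_log w.im_pos]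
    have b1 := dist_coe_le z w
    have b2 : dist z.re w.re ≤ dist (z : ℂ) w := by
      rw [Real.dist_eq, Complex.dist_eq]
      exact Complex.abs_re_le_norm ((z : ℂ) - w)
    have := w.im_pos
    change dist z.re w.re ≤ _
    nlinarith
  have a4 := dist_log_im_le z w
  rw [Real.dist_eq] at a4
  have a5 : |Real.log z.im - (Real.log w.im + dist z w)| ≤ 2 * dist z w := by
    rw [abs_le] at a4 ⊢; constructor <;> linarith [a4.1, a4.2]
  rw [e] at a1 a2
  rw [add_sub_cancel_left, abs_of_nonneg hd] at a2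
  have t1 := tri z (v z.re (Real.log w.im + dist z w)) w
  have t2 := tri (v z.re (Real.log w.im + dist z w)) (v w.re (Real.log w.im + dist z w)) w
  have t3 := h1 _ _ a3
  nlinarith

/-- All elements of `G` are isometries. -/
def Isom (G : Subgroup (Equiv.Perm ℍ)) : Prop :=
  ∀ (g : G) (z w : ℍ), dist (g.1 z) (g.1 w) = dist z w

theorem isom_of_mob {G : Subgroup (Equiv.Perm ℍ)}
    (h : ∀ g ∈ G, ∃ A : SL(2, ℝ), ∀ z : ℍ, g z = A • z) : Isom G := fun g z w => by
  obtain ⟨A, hA⟩ := h g.1 g.2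
  rw [hA, hA, dist_smul]

theorem Isom.dist_inv {G : Subgroup (Equiv.Perm ℍ)} (h : Isom G) (a b : G) (z w : ℍ) :
    dist (a.1 z) (b.1 w) = dist z ((a⁻¹ * b).1 w) := by
  rw [← h a z]
  simp

theorem Fuchs.finite {G : Subgroup (Equiv.Perm ℍ)} {ε : ℝ} (hε : 0 < ε) (h : Fuchs G ε) (R : ℝ) :
    {g : G | dist I (g.1 I) ≤ R}.Finite := by
  obtain ⟨t, ht, hc⟩ := Metric.totallyBounded_iff.1 (isCompact_closedBall I R).totallyBounded
    (ε / 2) (by positivity)
  have : ∀ g : {g : G | dist I (g.1 I) ≤ R}, ∃ y : t, dist (g.1.1 I) y < ε / 2 := fun g => by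
    have := hc (show g.1.1 I ∈ Metric.closedBall I R from Metric.mem_closedBall'.2 g.2)
    simpa using this
  choose c hc using this
  have := ht.to_subtype
  refine Set.finite_coe_iff.1 (Finite.of_injective c fun a b hab => ?_)
  by_contra hne
  have h1 := hc a
  have h2 := hc b
  rw [← hab] at h2
  have h3 := h.thick _ (a.1⁻¹ * b.1).2 (fun h0 => hne (Subtype.ext (inv_mul_eq_one.1
    (Subtype.ext h0)))) I
  rw [← (isom_of_mob h.mob).dist_inv] at h3
  have := dist_triangle_right (a.1.1 I) (b.1.1 I) (c a)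
  linarith

/-- Every subadditive function is dominated by the displacement. -/
theorem Fuchs.svarc {G : Subgroup (Equiv.Perm ℍ)} {ε : ℝ} (hε : 0 < ε) (h : Fuchs G ε)
    (l : G → ℝ) (hl : ∀ a b, l (a * b) ≤ l a + l b) :
    ∃ C, 0 ≤ C ∧ ∀ g : G, l g ≤ C * dist I (g.1 I) + C := by
  obtain ⟨R, hR⟩ := h.cocpt
  have hI := isom_of_mob h.mob
  have : ∀ z : ℍ, ∃ g : G, dist z (g.1 I) ≤ R := fun z => by
    obtain ⟨g, hg, h1⟩ := hR z
    exact ⟨⟨g, hg⟩⁻¹, by rw [← hI ⟨g, hg⟩]; simpa using h1⟩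
  choose c hc using this
  have hR0 : 0 ≤ R := dist_nonneg.trans (hc I)
  obtain ⟨B, hB⟩ := ((h.finite hε (2 * R + 1)).image l).bddAbove
  have hB' : ∀ g : G, dist I (g.1 I) ≤ 2 * R + 1 → l g ≤ max B 0 := fun g hg =>
    (hB ⟨g, hg, rfl⟩).trans (le_max_left _ _)
  have h0 : 0 ≤ max B 0 := le_max_right _ _
  refine ⟨5 * max B 0, by positivity, fun g => ?_⟩
  have h1 := chain_uhp (fun z w => l ((c z)⁻¹ * c w)) _ h0 (fun x y z => by
    have := hl ((c x)⁻¹ * c y) ((c y)⁻¹ * c z)
    simpa [mul_assoc] using this) (fun x y hxy => hB' _ (by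
      rw [← hI.dist_inv]
      have := dist_triangle4 ((c x).1 I) x y ((c y).1 I)
      have := hc x
      have := hc y
      rw [dist_comm ((c x).1 I) x] at *
      linarith)) I (g.1 I)
  have h2 := hB' (c I) (by linarith [hc I])
  have h3 := hB' ((c (g.1 I))⁻¹ * g) (by
    rw [← hI.dist_inv, dist_comm]; linarith [hc (g.1 I)])
  have h4 := hl (c I) ((c I)⁻¹ * c (g.1 I))
  have h5 := hl (c (g.1 I)) ((c (g.1 I))⁻¹ * g)
  rw [mul_inv_cancel_left] at h4 h5
  have := dist_nonneg (x := I) (y := g.1 I)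
  nlinarith

end Pool.Agent.MC
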