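import Pool.Agent.P.MP_2677b3_gt.Defs
import Pool.Agent.P.MP_2677b3_gt.Base

open UpperHalfPlane

namespace Pool.Agent.MC

/-- A realisation of the graph `A` in the quotient of the half-plane by `G`, with constant `K`. -/
structure Geo (A : Gd) (G : Subgroup (Equiv.Perm ℍ)) (K : ℝ) where
  pt : A.V → ℍ
  hol : A.E → G
  hol_inv : ∀ e, hol (A.inv e) = (hol e)⁻¹
  faith : ∀ x p, A.Path x p x → (A.ev p = 1 ↔ (p.map hol).prod = 1)
  short : ∀ e, dist (pt (A.src e)) ((hol e).1 (pt (A.tgt e))) ≤ K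
  eff : ∀ x p y, A.Path x p y → ∃ q, A.Path x q y ∧ (q.map hol).prod = (p.map hol).prod ∧
    (q.length : ℝ) ≤ K * dist (pt x) (((p.map hol).prod).1 (pt y)) + K
  dense : ∀ x z, ∃ p y, A.Path x p y ∧ dist z (((p.map hol).prod).1 (pt y)) ≤ K

/-- Every element of `G` is the holonomy of a loop at every vertex. -/
def Geo.Full {A : Gd} {G : Subgroup (Equiv.Perm ℍ)} {K : ℝ} (g : Geo A G K) : Prop :=
  ∀ (x : A.V) (γ : G), ∃ p, A.Path x p x ∧ (p.map g.hol).prod = γ

end Pool.Agent.MC
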