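import Pool.Agent.P.MP_2677b3_gt.Basic
import Pool.Agent.P.MP_2677b3_gt.GeoDefs
import Pool.Agent.P.MP_2677b3_gt.DE
import Pool.Agent.P.MP_2677b3_gt.FiS

/-! A bounded equivalence of realised graphs gives an equivariant quasi-isometry. -/

open UpperHalfPlane

namespace Pool.Agent.MC

theorem QIPair.of_iso {K : ℝ} (hK : 0 ≤ K) {f g : ℍ → ℍ} (l : Equiv.Perm ℍ)
    (hl : ∀ z w, dist (l z) (l w) = dist z w)
    (cf : ∀ x y, dist (f x) (f y) ≤ K * dist x y + K)
    (cg : ∀ x y, dist (g x) (g y) ≤ K * dist x y + K) (gf : ∀ x, dist (g (f x)) x ≤ K)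
    (fg : ∀ y, dist (f (g y)) (l y) ≤ K) : QIPair (K * K + 5 * K) f g := by
  have hKK := mul_nonneg hK hK
  have h1 : ∀ z, dist (l (f z)) (f z) ≤ K * K + 2 * K := fun z => by
    have a := cf (g (f z)) z
    have b := mul_le_mul_of_nonneg_left (gf z) hK
    have c := fg (f z)
    have d := dist_triangle_left (l (f z)) (f z) (f (g (f z)))
    linarith
  have h2 : ∀ w, dist (l w) w ≤ K * K + 4 * K := fun w => by
    obtain ⟨w, rfl⟩ := l.surjective w
    have a := fg w
    have b := h1 (g w)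
    have c := hl (l w) (f (g w))
    have d := dist_triangle4 (l (l w)) (l (f (g w))) (f (g w)) (l w)
    rw [dist_comm (l w)] at c
    linarith
  refine ⟨fun x y => ?_, fun x y => ?_, fun x => by linarith [gf x], fun y => ?_⟩
  · have := cf x y
    have := mul_nonneg (show 0 ≤ K * K + 4 * K by positivity) (dist_nonneg (x := x) (y := y))
    linarith
  · have := cg x y
    have := mul_nonneg (show 0 ≤ K * K + 4 * K by positivity) (dist_nonneg (x := x) (y := y))
    linarith
  · have := dist_triangle (f (g y)) (l y) y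
    linarith [fg y, h2 y]

theorem QIPair.comp {K K' : ℝ} {f g t t' : ℍ → ℍ} (h : QIPair K f g) (h' : QIPair K' t t') :
    QIPair (K * K' + 2 * K + 2 * K') (t ∘ f) (g ∘ t') := by
  have hK : 0 ≤ K := dist_nonneg.trans (h.gf I)
  have hK' : 0 ≤ K' := dist_nonneg.trans (h'.gf I)
  refine ⟨fun x y => ?_, fun x y => ?_, fun x => ?_, fun y => ?_⟩
  · have a := h'.cf (f x) (f y)
    have b := mul_le_mul_of_nonneg_left (h.cf x y) hK'
    have := mul_nonneg (add_nonneg hK hK') (dist_nonneg (x := x) (y := y))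
    change dist (t (f x)) (t (f y)) ≤ _
    nlinarith
  · have a := h.cg (t' x) (t' y)
    have b := mul_le_mul_of_nonneg_left (h'.cg x y) hK
    have := mul_nonneg (add_nonneg hK hK') (dist_nonneg (x := x) (y := y))
    change dist (g (t' x)) (g (t' y)) ≤ _
    nlinarith
  · have a := h.cg (t' (t (f x))) (f x)
    have b := mul_le_mul_of_nonneg_left (h'.gf (f x)) hK
    have c := dist_triangle (g (t' (t (f x)))) (g (f x)) x
    have := h.gf x
    change dist (g (t' (t (f x)))) x ≤ _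
    linarith
  · have a := h'.cf (f (g (t' y))) (t' y)
    have b := mul_le_mul_of_nonneg_left (h.fg (t' y)) hK'
    have c := dist_triangle (t (f (g (t' y)))) (t (t' y)) y
    have := h'.fg y
    change dist (t (f (g (t' y)))) y ≤ _
    linarith

namespace Geo

variable {A B : Gd} {G G' : Subgroup (Equiv.Perm ℍ)} {K : ℝ}

/-- The holonomy of a path. -/
def H (g : Geo A G K) (p : List A.E) : G := (p.map g.hol).prod

@[simp] theorem H_nil (g : Geo A G K) : g.H [] = 1 := rfl
@[simp] theorem H_cons (g : Geo A G K) (e : A.E) (p : List A.E) :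
    g.H (e :: p) = g.hol e * g.H p := by simp [H]
@[simp] theorem H_append (g : Geo A G K) (p q : List A.E) : g.H (p ++ q) = g.H p * g.H q := by
  simp [H]
@[simp] theorem H_rev (g : Geo A G K) (p : List A.E) : g.H (A.rev p) = (g.H p)⁻¹ := by
  induction p with
  | nil => simp
  | cons e p ih => simp [ih, g.hol_inv]

theorem H_iff (g : Geo A G K) {x y : A.V} {p q : List A.E} (hp : A.Path x p y)
    (hq : A.Path x q y) : A.ev p = A.ev q ↔ g.H p = g.H q := by
  have := g.faith x _ (hp.append hq.rev)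
  change _ ↔ g.H _ = 1 at this
  rwa [Gd.ev_append, Gd.ev_rev, H_append, H_rev, mul_inv_eq_one, mul_inv_eq_one] at this

theorem short_path (g : Geo A G K) (hI : Isom G) {x y : A.V} {p : List A.E} (hp : A.Path x p y) :
    dist (g.pt x) ((g.H p).1 (g.pt y)) ≤ K * p.length := by
  induction p generalizing x with
  | nil => obtain rfl : x = y := hp; simp
  | cons e p ih =>
    obtain ⟨rfl, h2⟩ := hp
    have a := ih h2
    have b := g.short e
    rw [← hI (g.hol e)] at a
    have c := dist_triangle (g.pt (A.src e)) ((g.hol e).1 (g.pt (A.tgt e)))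
      ((g.hol e).1 ((g.H p).1 (g.pt y)))
    rw [H_cons, List.length_cons]
    push_cast
    change dist _ ((g.hol e).1 ((g.H p).1 (g.pt y))) ≤ _
    linarith

/-- The constant may be increased. -/
def mono (g : Geo A G K) {K' : ℝ} (h : K ≤ K') : Geo A G K' where
  pt := g.pt
  hol := g.hol
  hol_inv := g.hol_inv
  faith := g.faith
  short := fun e => (g.short e).trans h
  eff := fun x p y hp => by
    obtain ⟨q, h1, h2, h3⟩ := g.eff x p y hp
    exact ⟨q, h1, h2, h3.trans (add_le_add (mul_le_mul_of_nonneg_right h dist_nonneg) h)⟩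
  dense := fun x z => by
    obtain ⟨p, y, h1, h2⟩ := g.dense x z
    exact ⟨p, y, h1, h2.trans h⟩

theorem transfer (g : Geo A G K) (g' : Geo B G' K) (hI : Isom G) (hI' : Isom G') {n : ℕ}
    (hn : (n : ℝ) ≤ K) (f : Mor n A B) {x y y' : A.V} {p p' : List A.E} (hp : A.Path x p y)
    (hp' : A.Path x p' y') {s : ℝ} (hs : dist ((g.H p).1 (g.pt y)) ((g.H p').1 (g.pt y')) ≤ s) :
    dist ((g'.H (p.flatMap f.e)).1 (g'.pt (f.v y))) ((g'.H (p'.flatMap f.e)).1 (g'.pt (f.v y')))
      ≤ K ^ 3 * s + K ^ 3 := by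
  have hK : 0 ≤ K := n.cast_nonneg.trans hn
  obtain ⟨q, h1, h2, h3⟩ := g.eff y _ y' (hp.rev.append hp')
  change g.H q = g.H _ at h2
  change _ ≤ K * dist _ ((g.H _).1 _) + K at h3
  rw [H_append, H_rev] at h2 h3
  rw [← hI.dist_inv] at h3
  have h4 : g.H (p ++ q) = g.H p' := by rw [H_append, h2, mul_inv_cancel_left]
  have h5 := (g'.H_iff (f.map_path (hp.append h1)) (f.map_path hp')).1
    (f.ev_congr (hp.append h1) hp' ((g.H_iff (hp.append h1) hp').2 h4))
  rw [List.flatMap_append, H_append] at h5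
  rw [hI'.dist_inv, ← h5, inv_mul_cancel_left]
  refine (g'.short_path hI' (f.map_path h1)).trans ?_
  have h6 : ((q.flatMap f.e).length : ℝ) ≤ K * q.length := by
    have : ((q.flatMap f.e).length : ℝ) ≤ n * q.length := by exact_mod_cast f.map_len q
    exact this.trans (mul_le_mul_of_nonneg_right hn (Nat.cast_nonneg _))
  have h7 : (q.length : ℝ) ≤ K * s + K := h3.trans (by gcongr)
  calc K * ((q.flatMap f.e).length : ℝ) ≤ K * (K * (K * s + K)) := by
        exact mul_le_mul_of_nonneg_left (h6.trans (mul_le_mul_of_nonneg_left h7 hK)) hK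
    _ = _ := by ring

/-- Going forth and back moves the end point of a path by a bounded amount. -/
theorem back (g : Geo A G K) (hI : Isom G) {n : ℕ} (hn : (n : ℝ) ≤ K) (f : Mor n A B)
    (b : Mor n B A) {η : A.V → List A.E}
    (h1 : ∀ x, A.Path x (η x) (b.v (f.v x)) ∧ (η x).length ≤ n)
    (h2 : ∀ a, A.ev (η (A.src a)) * A.ev ((f.e a).flatMap b.e) = A.val a * A.ev (η (A.tgt a)))
    {x y : A.V} {p : List A.E} (hp : A.Path x p y) :
    g.H (η x) * g.H ((p.flatMap f.e).flatMap b.e) = g.H p * g.H (η y) ∧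
    dist ((g.H (η x) * g.H ((p.flatMap f.e).flatMap b.e)).1 (g.pt (b.v (f.v y))))
      ((g.H p).1 (g.pt y)) ≤ K * K := by
  have hK : 0 ≤ K := n.cast_nonneg.trans hn
  have h3 := Mor.back_path f b η h2 hp
  rw [← Gd.ev_append, ← Gd.ev_append] at h3
  have h4 := (g.H_iff ((h1 x).1.append (b.map_path (f.map_path hp))) (hp.append (h1 y).1)).1 h3
  rw [H_append, H_append] at h4
  refine ⟨h4, ?_⟩
  rw [h4, dist_comm, hI.dist_inv, inv_mul_cancel_left]
  refine (g.short_path hI (h1 y).1).trans (mul_le_mul_of_nonneg_left ?_ hK)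
  exact le_trans (by exact_mod_cast (h1 y).2) hn

end Geo

theorem core (K : ℝ) : ∃ K' : ℝ, ∀ (A B : Gd) (G G' : Subgroup (Equiv.Perm ℍ)), Isom G → Isom G' →
    ∀ (g : Geo A G K) (g' : Geo B G' K) (n : ℕ), (n : ℝ) ≤ K → Eqv n A B → ∀ x : A.V,
      ∃ (x' : B.V) (F₀ G₀ : ℍ → ℍ), QIPair K' F₀ G₀ ∧
        (∀ p, A.Path x p x → ∃ q, B.Path x' q x' ∧
          ∀ z, dist (F₀ ((g.H p).1 z)) ((g'.H q).1 (F₀ z)) ≤ K') ∧
        (∀ q, B.Path x' q x' → ∃ p, A.Path x p x ∧
          ∀ z, dist (F₀ ((g.H p).1 z)) ((g'.H q).1 (F₀ z)) ≤ K') := by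
  obtain ⟨M, hM⟩ : ∃ M, M = K ^ 3 * (2 * K) + K ^ 3 + K * K + K := ⟨_, rfl⟩
  refine ⟨M * M + 5 * M, ?_⟩
  rintro A B G G' hI hI' g g' n hn ⟨f, b, ⟨η, h1, h2⟩, ⟨ζ, h3, h4⟩⟩ x
  have hK : 0 ≤ K := n.cast_nonneg.trans hn
  have k3 : 0 ≤ K ^ 3 := by positivity
  have k4 : 0 ≤ K ^ 3 * K := by positivity
  have k2 : 0 ≤ K * K := by positivity
  have hM0 : 0 ≤ M := by rw [hM]; positivity
  have hMM := mul_nonneg hM0 hM0
  choose p y hp hd using g.dense x
  choose q u hq he using g'.dense (f.v x)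
  change ∀ z, dist z ((g.H (p z)).1 (g.pt (y z))) ≤ K at hd
  change ∀ z, dist z ((g'.H (q z)).1 (g'.pt (u z))) ≤ K at he
  obtain ⟨F₀, hF⟩ : ∃ F₀ : ℍ → ℍ, ∀ z, F₀ z = (g'.H ((p z).flatMap f.e)).1 (g'.pt (f.v (y z))) :=
    ⟨_, fun _ => rfl⟩
  obtain ⟨G₀, hG⟩ : ∃ G₀ : ℍ → ℍ, ∀ w, G₀ w =
      (g.H (η x) * g.H ((q w).flatMap b.e)).1 (g.pt (b.v (u w))) := ⟨_, fun _ => rfl⟩
  have eqv : ∀ p₀, A.Path x p₀ x → ∀ z,
      dist (F₀ ((g.H p₀).1 z)) ((g'.H (p₀.flatMap f.e)).1 (F₀ z)) ≤ M * M + 5 * M := by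
    intro p₀ hp₀ z
    have a := g.transfer g' hI hI' hn f (hp ((g.H p₀).1 z)) (hp₀.append (hp z)) (s := 2 * K) (by
      have a1 := hd ((g.H p₀).1 z)
      have a2 := hd z
      rw [← hI (g.H p₀)] at a2
      rw [Geo.H_append]
      exact (dist_triangle_left _ _ ((g.H p₀).1 z)).trans
        ((add_le_add a1 a2).trans (by linarith)))
    rw [List.flatMap_append, Geo.H_append] at a
    rw [hF, hF]
    exact a.trans (by linarith)
  let l : G' := g'.H ((η x).flatMap f.e) * (g'.H (ζ (f.v x)))⁻¹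
  have lip : ∀ {a b c d : ℍ}, dist a c ≤ K → dist b d ≤ K → dist c d ≤ dist a b + 2 * K := by
    intro a b c d h1 h2
    have := dist_triangle4 c a b d
    rw [dist_comm c a] at this
    linarith
  have fin : ∀ a b : ℍ, K ^ 3 * (dist a b + 2 * K) + K ^ 3 ≤ M * dist a b + M := by
    intro a b
    have := mul_le_mul_of_nonneg_right (show K ^ 3 ≤ M by linarith) (dist_nonneg (x := a) (y := b))
    linarith
  refine ⟨f.v x, F₀, G₀, QIPair.of_iso hM0 l.1 (hI' l) (fun z w => ?_) (fun z w => ?_)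
    (fun z => ?_) (fun w => ?_), fun p₀ hp₀ => ⟨_, f.map_path hp₀, eqv p₀ hp₀⟩, fun q₀ hq₀ => ?_⟩
  · rw [hF, hF]
    exact (g.transfer g' hI hI' hn f (hp z) (hp w) (lip (hd z) (hd w))).trans (fin z w)
  · rw [hG, hG]
    refine (hI (g.H (η x)) _ _).trans_le ?_
    exact (g'.transfer g hI' hI hn b (hq z) (hq w) (lip (he z) (he w))).trans (fin z w)
  · have a := g'.transfer g hI' hI hn b (hq (F₀ z)) (f.map_path (hp z)) (s := K)
      (by rw [← hF, dist_comm]; exact he _)
    rw [← hI (g.H (η x))] at a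
    have c := (g.back hI hn f b h1 h2 (hp z)).2
    have d := hd z
    rw [dist_comm] at d
    rw [hG]
    exact (dist_triangle4 _ _ _ _).trans ((add_le_add (add_le_add a c) d).trans (by linarith))
  · have a := g.transfer g' hI hI' hn f (hp (G₀ w)) ((h1 x).1.append (b.map_path (hq w))) (s := K)
      (by rw [Geo.H_append, ← hG, dist_comm]; exact hd _)
    have c := (g'.back hI' hn b f h3 h4 (hq w)).2
    have d := he w
    rw [dist_comm, ← hI' l] at d
    rw [← hI' l] at c
    have e : g'.H ((η x ++ (q w).flatMap b.e).flatMap f.e) =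
        l * (g'.H (ζ (f.v x)) * g'.H (((q w).flatMap b.e).flatMap f.e)) := by
      simp only [l, List.flatMap_append, Geo.H_append, mul_assoc, inv_mul_cancel_left]
    rw [e] at a
    rw [hF]
    exact (dist_triangle4 _ _ _ _).trans ((add_le_add (add_le_add a c) d).trans (by linarith))
  · have hl : B.Path (f.v x) ((η x).flatMap f.e ++ B.rev (ζ (f.v x))) (f.v x) :=
      (f.map_path (h1 x).1).append (h3 _).1.rev
    have hq₁ := hl.rev.append (hq₀.append hl)
    have hp₀ := (h1 x).1.append ((b.map_path hq₁).append (h1 x).1.rev)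
    refine ⟨_, hp₀, fun z => ?_⟩
    have c := (g'.back hI' hn b f h3 h4 hq₁).1
    have e := (g'.H_iff (f.map_path (h1 x).1.rev) (f.map_path (h1 x).1).rev).1
      (by rw [f.ev_map_rev, Gd.ev_rev])
    refine le_of_eq_of_le ?_ (eqv _ hp₀ z)
    congr 3
    rw [List.flatMap_append (f := f.e), List.flatMap_append (f := f.e), Geo.H_append, Geo.H_append,
      e, eq_inv_mul_of_mul_eq c]
    simp [mul_assoc]

end Pool.Agent.MC
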