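import Pool.Agent.P.MP_2677b3_gt.GeLift

open UpperHalfPlane Equiv
open scoped MatrixGroups

noncomputable section

namespace Pool.Agent.MC.Ge

variable {G : Subgroup (Perm ℍ)} {ε c K : ℝ} {C : ℝ → ℕ} {f : ℝ → ℝ} {U : UMap G c K C f}

/-- The mod two chain of a list. -/
def filld_ch {D : Type} (q : List D) : D →₀ ZMod 2 := (q.map fun d => Finsupp.single d 1).sum

theorem filld_cons {D : Type} (d : D) (q : List D) :
    filld_ch (d :: q) = Finsupp.single d 1 + filld_ch q := by simp [filld_ch]

theorem filld_count {D : Type} [BEq D] [LawfulBEq D] (q : List D) (e : D) :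
    filld_ch q e = (q.count e : ZMod 2) := by
  classical
  induction q with
  | nil => simp [filld_ch]
  | cons d q ih =>
    rw [filld_cons, Finsupp.add_apply, ih, List.count_cons, Finsupp.single_apply]
    by_cases h : d = e <;> simp [h, add_comm]

theorem filld_map {D E : Type} (π : D → E) (q : List D) :
    Finsupp.mapDomain π (filld_ch q) = filld_ch (q.map π) := by
  induction q with
  | nil => simp [filld_ch]
  | cons d q ih =>
    rw [List.map_cons, filld_cons, filld_cons, Finsupp.mapDomain_add, ih, Finsupp.mapDomain_single]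

theorem filld_inv {D : Type} {α : D → D} (h : ∀ d, α (α d) = d) (F : D →₀ ZMod 2) (e : D) :
    Finsupp.mapDomain α F e = F (α e) := by
  conv_lhs => rw [← h e]
  exact Finsupp.mapDomain_apply (Function.Involutive.injective h) F (α e)

theorem filld_dist {a b : U.D} {q : List U.D} (h : UPath U.α U.φ a q b) :
    ∀ d ∈ q, dist (U.pos a) (U.pos d) ≤ 2 * c * q.length ∧
      dist (U.pos a) (U.pos (U.α d)) ≤ 2 * c * q.length := by
  have hc := U.c_nonneg
  induction q generalizing a with
  | nil => simp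
  | cons e q ih =>
    have h1 : (U.φ * U.α).SameCycle a e := Perm.SameCycle.symm (Quotient.exact h.1)
    have h2 := U.same_dist h1
    have h3 := U.α_dist h1
    have h4 : (0 : ℝ) ≤ c * q.length := by positivity
    intro d hd
    rw [List.length_cons]
    push_cast
    rcases List.mem_cons.1 hd with rfl | hd
    · exact ⟨by linarith, by linarith⟩
    · obtain ⟨h5, h6⟩ := ih (a := U.α e) h.2 d hd
      exact ⟨by linarith [dist_triangle (U.pos a) (U.pos (U.α e)) (U.pos d)],
        by linarith [dist_triangle (U.pos a) (U.pos (U.α e)) (U.pos (U.α d))]⟩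

/-- The sum of a function over a triangle. -/
def filld_tri (F : U.D → ZMod 2) (e : U.D) : ZMod 2 :=
  F e + F ((U.φ * U.α) e) + F ((U.φ * U.α) ((U.φ * U.α) e))

open Classical in
theorem filld_single (d e : U.D) : filld_tri (fun x => Finsupp.single d 1 x) e =
    if (U.φ * U.α).SameCycle e d then 1 else 0 := by
  have n1 : ∀ x, (U.φ * U.α) x ≠ x := fun x h => U.pos_ne x (by rw [← U.pos_ψ, h])
  have n2 : (U.φ * U.α) ((U.φ * U.α) e) ≠ e := fun h => n1 e (by
    have := U.tri e
    rwa [h] at this)
  have n3 := n1 e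
  have n4 := n1 ((U.φ * U.α) e)
  rw [U.same_iff, filld_tri]
  simp only [Finsupp.single_apply]
  generalize (U.φ * U.α) ((U.φ * U.α) e) = z at *
  generalize (U.φ * U.α) e = y at *
  by_cases h1 : d = e
  · subst h1
    simp [n2.symm, n3.symm]
  by_cases h2 : d = y
  · subst h2
    simp [h1, n4.symm]
  by_cases h3 : d = z
  · subst h3
    simp [h1, h2]
  · simp [h1, h2, h3]

open Classical in
theorem filld_bd {a b : U.D} {q : List U.D} (h : UPath U.α U.φ a q b) (e : U.D) :
    filld_tri (fun x => filld_ch q x + filld_ch q (U.α x)) e =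
      (if (U.φ * U.α).SameCycle e a then 1 else 0) +
        if (U.φ * U.α).SameCycle e b then 1 else 0 := by
  induction q generalizing a with
  | nil =>
    have h1 : (U.φ * U.α).SameCycle a b := Quotient.exact h
    have h2 : (U.φ * U.α).SameCycle e a ↔ (U.φ * U.α).SameCycle e b :=
      ⟨fun h => h.trans h1, fun h => h.trans h1.symm⟩
    simp only [h2, CharTwo.add_self_eq_zero]
    simp [filld_tri, filld_ch]
  | cons d q ih =>
    have h1 : (U.φ * U.α).SameCycle d a := Quotient.exact h.1
    have h2 : (U.φ * U.α).SameCycle e a ↔ (U.φ * U.α).SameCycle e d :=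
      ⟨fun h => h.trans h1.symm, fun h => h.trans h1⟩
    have h3 := ih (a := U.α d) h.2
    have h4 := filld_single d e
    have h5 := filld_single (U.α d) e
    have h6 : ∀ x, (Finsupp.single d 1 : U.D →₀ ZMod 2) (U.α x) =
        (Finsupp.single (U.α d) 1 : U.D →₀ ZMod 2) x := fun x => by
      rw [← filld_inv U.αα, Finsupp.mapDomain_single]
    simp only [filld_tri, filld_cons, Finsupp.add_apply, h6, h2] at h3 h4 h5 ⊢
    linear_combination h3 + h4 + h5 +
      CharTwo.add_self_eq_zero (if (U.φ * U.α).SameCycle e (U.α d) then (1 : ZMod 2) else 0)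

open Classical in
theorem Cov.fill (Y : Cov U) (hG : Fuchs G ε) (hc : 2 * c < ε) (l : ℕ) (x : Y.M.gd.V)
    (p : List Y.M.D) (hp : Y.M.gd.Path x p x) (hl : p.length ≤ l) (h1 : Y.M.gd.ev p = 1) :
    ∃ S : Finset Y.M.D, S.card ≤ C (f (2 * c * l)) ∧ (∀ d, Y.M.φ d ∈ S ↔ d ∈ S) ∧
      ∀ d, (d ∈ S ↔ Y.M.α d ∈ S) ↔ Even (p.count d + p.count (Y.M.α d)) := by
  have hq := Y.lift_path hp 1
  rw [(Y.faith hG hc hp).1 h1, mul_one, one_smul] at hq
  have hlen : 2 * c * (Y.up p 1).length ≤ 2 * c * l := by
    rw [Y.length_up]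
    exact mul_le_mul_of_nonneg_left (by exact_mod_cast hl) (by linarith [U.c_nonneg])
  obtain ⟨Φ, f1, f2, f3⟩ := U.fill (U.pos (Y.base x)) (2 * c * l)
    (fun e => filld_ch (Y.up p 1) e + filld_ch (Y.up p 1) (U.α e))
    (fun e => by rw [U.αα, add_comm])
    (fun e => (filld_bd hq e).trans (CharTwo.add_self_eq_zero _)) (fun e he => by
      have e1 : e ∉ Y.up p 1 := fun h => by linarith [(filld_dist hq e h).1]
      have e2 : U.α e ∉ Y.up p 1 := fun h => by
        have := (filld_dist hq _ h).2
        rw [U.αα] at this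
        linarith
      simp [filld_count, List.count_eq_zero_of_not_mem e1, List.count_eq_zero_of_not_mem e2])
  obtain ⟨c1, c2⟩ := U.count (U.pos (Y.base x)) (f (2 * c * l))
  have hs : Function.support Φ ⊆ {d | dist (U.pos (Y.base x)) (U.pos d) ≤ f (2 * c * l)} :=
    fun e he => not_lt.1 fun h => he (f3 e h)
  let F : U.D →₀ ZMod 2 := Finsupp.ofSupportFinite Φ (c1.subset hs)
  have hF : ∀ e, F e = Φ e := fun _ => rfl
  have g1 : Finsupp.mapDomain U.φ F = F := by
    ext e
    obtain ⟨e, rfl⟩ := U.φ.surjective e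
    rw [Finsupp.mapDomain_apply U.φ.injective, hF, hF, f1]
  have g2 : F + Finsupp.mapDomain U.α F =
      filld_ch (Y.up p 1) + Finsupp.mapDomain U.α (filld_ch (Y.up p 1)) := by
    ext e
    simp only [Finsupp.add_apply, filld_inv U.αα, hF, f2]
  have k1 : ∀ T : U.D →₀ ZMod 2, Finsupp.mapDomain Y.π (Finsupp.mapDomain U.α T) =
      Finsupp.mapDomain Y.M.α (Finsupp.mapDomain Y.π T) := fun T => by
    rw [← Finsupp.mapDomain_comp, ← Finsupp.mapDomain_comp]
    exact congrArg (Finsupp.mapDomain · T) (funext Y.π_α)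
  have k2 : Finsupp.mapDomain Y.M.φ (Finsupp.mapDomain Y.π F) = Finsupp.mapDomain Y.π F := by
    conv_rhs => rw [← g1]
    rw [← Finsupp.mapDomain_comp, ← Finsupp.mapDomain_comp]
    exact congrArg (Finsupp.mapDomain · F) (funext fun d => (Y.π_φ d).symm)
  have k3 := congrArg (Finsupp.mapDomain Y.π) g2
  rw [Finsupp.mapDomain_add, Finsupp.mapDomain_add, k1, k1, filld_map, Y.map_up] at k3
  refine ⟨(Finsupp.mapDomain Y.π F).support, ?_, fun d => ?_, fun d => ?_⟩
  · refine ((Finset.card_le_card Finsupp.mapDomain_support).trans Finset.card_image_le).trans ?_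
    refine le_trans ?_ c2
    rw [← Set.ncard_coe_finset]
    exact Set.ncard_le_ncard (fun e he => hs (Finsupp.mem_support_iff.1 he)) c1
  · rw [Finsupp.mem_support_iff, Finsupp.mem_support_iff]
    conv_lhs => rw [← k2, Finsupp.mapDomain_apply Y.M.φ.injective]
  · have k4 := congrArg (· d) k3
    simp only [Finsupp.add_apply, filld_inv Y.M.αα, filld_count] at k4
    rw [Finsupp.mem_support_iff, Finsupp.mem_support_iff, ← ZMod.natCast_eq_zero_iff_even,
      Nat.cast_add, ← k4]
    generalize Finsupp.mapDomain Y.π F d = a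
    generalize Finsupp.mapDomain Y.π F (Y.M.α d) = b
    revert a b
    decide

end Pool.Agent.MC.Ge
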