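import Pool.Agent.P.MP_2677b3_gt.GeDisp

open UpperHalfPlane Equiv
open scoped MatrixGroups

noncomputable section

namespace Pool.Agent.MC.Ge

/-- A hyperbolic matrix is conjugate to a diagonal one. -/
theorem gecyl_diag (A : SL(2, ℝ)) (h : 0 < (A 0 0 + A 1 1) ^ 2 - 4) :
    ∃ (P L : SL(2, ℝ)) (l : ℝ), l ≠ 0 ∧ L 0 0 = l ∧ L 0 1 = 0 ∧ L 1 0 = 0 ∧ L 1 1 = l⁻¹ ∧
      A * P = P * L := by
  have hdet : A 0 0 * A 1 1 - A 0 1 * A 1 0 = 1 := by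
    have h1 := A.det_coe
    rwa [Matrix.det_fin_two] at h1
  have mkL : ∀ l : ℝ, l ≠ 0 → ∃ L : SL(2, ℝ), L 0 0 = l ∧ L 0 1 = 0 ∧ L 1 0 = 0 ∧ L 1 1 = l⁻¹ :=
    fun l hl => ⟨⟨!![l, 0; 0, l⁻¹], by rw [Matrix.det_fin_two_of]; field_simp; ring⟩,
      rfl, rfl, rfl, rfl⟩
  have fin : ∀ P L : SL(2, ℝ),
      A 0 0 * P 0 0 + A 0 1 * P 1 0 = P 0 0 * L 0 0 + P 0 1 * L 1 0 →
      A 0 0 * P 0 1 + A 0 1 * P 1 1 = P 0 0 * L 0 1 + P 0 1 * L 1 1 →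
      A 1 0 * P 0 0 + A 1 1 * P 1 0 = P 1 0 * L 0 0 + P 1 1 * L 1 0 →
      A 1 0 * P 0 1 + A 1 1 * P 1 1 = P 1 0 * L 0 1 + P 1 1 * L 1 1 → A * P = P * L := by
    intro P L h1 h2 h3 h4
    ext i j
    rw [Matrix.SpecialLinearGroup.coe_mul, Matrix.SpecialLinearGroup.coe_mul, Matrix.mul_apply,
      Matrix.mul_apply, Fin.sum_univ_two, Fin.sum_univ_two]
    fin_cases i <;> fin_cases j
    · exact h1
    · exact h2
    · exact h3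
    · exact h4
  by_cases hc : A 1 0 = 0
  · rw [hc, mul_zero, sub_zero] at hdet
    have ha : A 0 0 ≠ 0 := left_ne_zero_of_mul_eq_one hdet
    have hd : (A 0 0)⁻¹ = A 1 1 := inv_eq_of_mul_eq_one_right hdet
    have hne : A 1 1 - A 0 0 ≠ 0 := by
      intro h0
      have h1 : (A 0 0 + A 1 1) ^ 2 - 4 = (A 1 1 - A 0 0) ^ 2 := by linear_combination 4 * hdet
      rw [h1, h0] at h
      norm_num at h
    obtain ⟨L, l1, l2, l3, l4⟩ := mkL _ ha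
    obtain ⟨P, p1, p2, p3, p4⟩ : ∃ P : SL(2, ℝ), P 0 0 = 1 ∧ P 0 1 = A 0 1 / (A 1 1 - A 0 0) ∧
        P 1 0 = 0 ∧ P 1 1 = 1 :=
      ⟨⟨!![1, A 0 1 / (A 1 1 - A 0 0); 0, 1], by rw [Matrix.det_fin_two_of]; ring⟩,
        rfl, rfl, rfl, rfl⟩
    refine ⟨P, L, _, ha, l1, l2, l3, l4, fin P L ?_ ?_ ?_ ?_⟩
    · rw [p1, p2, p3, l1, l3]
      ring
    · rw [p1, p2, p4, l2, l4, hd]
      field_simp
      ring
    · rw [p1, p3, p4, l1, l3, hc]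
      ring
    · rw [p2, p3, p4, l2, l4, hd, hc]
      ring
  · obtain ⟨s, hs0, hs⟩ : ∃ s : ℝ, s ≠ 0 ∧ s ^ 2 = (A 0 0 + A 1 1) ^ 2 - 4 :=
      ⟨_, (Real.sqrt_pos.2 h).ne', Real.sq_sqrt h.le⟩
    have hlm : (A 0 0 + A 1 1 + s) / 2 * ((A 0 0 + A 1 1 - s) / 2) = 1 := by
      linear_combination (-1 / 4) * hs
    have ha : (A 0 0 + A 1 1 + s) / 2 ≠ 0 := left_ne_zero_of_mul_eq_one hlm
    have hd := inv_eq_of_mul_eq_one_right hlm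
    obtain ⟨L, l1, l2, l3, l4⟩ := mkL _ ha
    obtain ⟨P, p1, p2, p3, p4⟩ : ∃ P : SL(2, ℝ), P 0 0 = (A 0 0 - A 1 1 + s) / 2 ∧
        P 0 1 = (A 0 0 - A 1 1 - s) / 2 / (s * A 1 0) ∧ P 1 0 = A 1 0 ∧
        P 1 1 = A 1 0 / (s * A 1 0) :=
      ⟨⟨!![(A 0 0 - A 1 1 + s) / 2, (A 0 0 - A 1 1 - s) / 2 / (s * A 1 0);
        A 1 0, A 1 0 / (s * A 1 0)], by rw [Matrix.det_fin_two_of]; field_simp; ring⟩,
        rfl, rfl, rfl, rfl⟩
    refine ⟨P, L, _, ha, l1, l2, l3, l4, fin P L ?_ ?_ ?_ ?_⟩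
    · rw [p1, p2, p3, l1, l3]
      linear_combination (-1 : ℝ) * hdet - (1 / 4) * hs
    · rw [p1, p2, p4, l2, l4, hd]
      linear_combination (s * A 1 0)⁻¹ * ((-1 : ℝ) * hdet - (1 / 4) * hs)
    · rw [p1, p3, p4, l1, l3]
      ring
    · rw [p2, p3, p4, l2, l4, hd]
      ring

theorem gecyl_act {L : SL(2, ℝ)} {l : ℝ} (hl : l ≠ 0) (l1 : L 0 0 = l) (l2 : L 0 1 = 0)
    (l3 : L 1 0 = 0) (l4 : L 1 1 = l⁻¹) (k : ℤ) (z : ℍ) :
    ((L ^ k • z : ℍ) : ℂ) = (((l ^ 2) ^ k : ℝ) : ℂ) * z := by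
  have hl' : (l : ℂ) ≠ 0 := by exact_mod_cast hl
  have hq : l ^ 2 ≠ 0 := pow_ne_zero 2 hl
  have h1 : ∀ z : ℍ, ((L • z : ℍ) : ℂ) = ((l ^ 2 : ℝ) : ℂ) * z := by
    intro z
    rw [coe_specialLinearGroup_apply, l1, l2, l3, l4]
    simp only [Algebra.algebraMap_self, RingHom.id_apply]
    push_cast
    field_simp
    ring
  have h2 : ∀ z : ℍ, ((L⁻¹ • z : ℍ) : ℂ) = (((l ^ 2)⁻¹ : ℝ) : ℂ) * z := by
    intro z
    have h3 := h1 (L⁻¹ • z)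
    rw [smul_inv_smul] at h3
    rw [h3]
    push_cast
    field_simp
  induction k using Int.induction_on generalizing z with
  | zero => simp
  | succ n ih =>
    rw [zpow_add_one, mul_smul, ih, h1, zpow_add_one₀ hq]
    push_cast
    ring
  | pred n ih =>
    rw [zpow_sub_one, mul_smul, ih, h2, zpow_sub_one₀ hq]
    push_cast
    ring

theorem gecyl_pow {q x : ℝ} (hq : 0 < q) (h1 : q ≠ 1) (hx : 0 < x) :
    ∃ k : ℤ, q ^ k ≤ x ∧ x ≤ (q + q⁻¹) * q ^ k := by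
  have hi : 0 < q⁻¹ := inv_pos.2 hq
  rcases lt_or_gt_of_ne h1 with h | h
  · obtain ⟨n, h2, h3⟩ := exists_mem_Ico_zpow hx ((one_lt_inv₀ hq).2 h)
    rw [zpow_add_one₀ hi.ne'] at h3
    rw [inv_zpow'] at h2 h3
    have h4 := zpow_pos hq (-n)
    exact ⟨-n, h2, by nlinarith⟩
  · obtain ⟨n, h2, h3⟩ := exists_mem_Ico_zpow hx h
    rw [zpow_add_one₀ hq.ne'] at h3
    have h4 := zpow_pos hq n
    exact ⟨n, h2, by nlinarith⟩

theorem gecyl_dist (z w : ℍ) {U m : ℝ} (hz : z.re ^ 2 ≤ U * z.im ^ 2)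
    (hw : w.re ^ 2 ≤ U * w.im ^ 2) (hU : 0 ≤ U) (h1 : w.im ≤ z.im) (h2 : z.im ≤ m * w.im) :
    dist z w ≤ (2 * U + 1) * m := by
  have h3 : dist z w ≤ Real.cosh (dist z w) :=
    (Real.self_le_sinh_iff.2 dist_nonneg).trans (Real.sinh_lt_cosh _).le
  have hy := z.im_pos
  have hy' := w.im_pos
  refine h3.trans ?_
  rw [cosh_dist', div_le_iff₀ (by positivity)]
  have h4 : w.im ^ 2 ≤ z.im ^ 2 := pow_le_pow_left₀ hy'.le h1 2
  have h5 : U * w.im ^ 2 ≤ U * z.im ^ 2 := mul_le_mul_of_nonneg_left h4 hU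
  have h6 : (z.re - w.re) ^ 2 ≤ 2 * z.re ^ 2 + 2 * w.re ^ 2 := by
    nlinarith [sq_nonneg (z.re + w.re)]
  have h7 : (2 * U + 1) * (2 * z.im) * z.im ≤ (2 * U + 1) * (2 * z.im) * (m * w.im) :=
    mul_le_mul_of_nonneg_left h2 (by positivity)
  linarith

theorem gecyl_main {ε : ℝ} (hε : 0 < ε) (D : ℝ) {L : SL(2, ℝ)} {l : ℝ} (hl : l ≠ 0)
    (l1 : L 0 0 = l) (l2 : L 0 1 = 0) (l3 : L 1 0 = 0) (l4 : L 1 1 = l⁻¹)
    (h : ∀ z : ℍ, ε ≤ dist z (L • z)) (a b : ℍ) (ha : dist a (L • a) ≤ D)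
    (hb : dist b (L • b) ≤ D) : ∃ k : ℤ, dist a (L ^ k • b) ≤
      (2 * (2 * (Real.cosh D - 1) / (2 * (Real.cosh ε - 1))) + 1) * (2 * (Real.cosh D - 1) + 4) := by
  have hτ : 0 < 2 * (Real.cosh ε - 1) := by
    have := Real.one_lt_cosh.2 hε.ne'
    linarith
  have hM : 0 ≤ 2 * (Real.cosh D - 1) := by
    have := Real.one_le_cosh D
    linarith
  have ht := tr_big hε L h
  rw [l1, l4] at ht
  have hll : l * l⁻¹ = 1 := mul_inv_cancel₀ hl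
  have hΔ : (l + l⁻¹) ^ 2 - 4 = (l⁻¹ - l) ^ 2 := by linear_combination 4 * hll
  have key : ∀ z : ℍ, dist z (L • z) ≤ D → (l + l⁻¹) ^ 2 - 4 ≤ 2 * (Real.cosh D - 1) ∧
      z.re ^ 2 ≤ 2 * (Real.cosh D - 1) / (2 * (Real.cosh ε - 1)) * z.im ^ 2 := by
    intro z hz
    have h1 := disp_formula L z
    rw [l1, l2, l3, l4] at h1
    have h2 : Real.cosh (dist z (L • z)) ≤ Real.cosh D :=
      Real.cosh_le_cosh.2 (by rw [abs_of_nonneg dist_nonneg]; exact hz.trans (le_abs_self D))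
    have hy := z.im_pos
    have h3 : ((0 * (z.re ^ 2 + z.im ^ 2) + (l⁻¹ - l) * z.re - 0) / z.im) ^ 2 =
        (l⁻¹ - l) ^ 2 * (z.re ^ 2 / z.im ^ 2) := by
      rw [zero_mul, zero_add, sub_zero, div_pow, mul_pow, mul_div_assoc]
    have h4 : 0 ≤ z.re ^ 2 / z.im ^ 2 := by positivity
    have h5 : 2 * (Real.cosh ε - 1) * (z.re ^ 2 / z.im ^ 2) ≤
        (l⁻¹ - l) ^ 2 * (z.re ^ 2 / z.im ^ 2) := mul_le_mul_of_nonneg_right (hΔ ▸ ht) h4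
    have h6 : 0 ≤ (l⁻¹ - l) ^ 2 * (z.re ^ 2 / z.im ^ 2) := by positivity
    rw [h3] at h1
    refine ⟨by linarith, ?_⟩
    rw [← div_le_iff₀ (by positivity), le_div_iff₀ hτ]
    linarith
  have hq : 0 < l ^ 2 := by positivity
  have hq1 : l ^ 2 ≠ 1 := by
    intro h0
    have h1 : l⁻¹ = l := inv_eq_of_mul_eq_one_right (by rw [← sq, h0])
    rw [hΔ, h1, sub_self] at ht
    linarith
  obtain ⟨k, hk1, hk2⟩ := gecyl_pow hq hq1 (div_pos a.im_pos b.im_pos)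
  have hc := gecyl_act hl l1 l2 l3 l4 k b
  have hre : (L ^ k • b).re = (l ^ 2) ^ k * b.re := by
    have := congrArg Complex.re hc
    rwa [Complex.re_ofReal_mul] at this
  have him : (L ^ k • b).im = (l ^ 2) ^ k * b.im := by
    have := congrArg Complex.im hc
    rwa [Complex.im_ofReal_mul] at this
  have hbp := b.im_pos
  have hqk := zpow_pos hq k
  refine ⟨k, gecyl_dist _ _ (key a ha).2 ?_ (div_nonneg hM hτ.le) ?_ ?_⟩
  · rw [hre, him, mul_pow, mul_pow, mul_left_comm]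
    exact mul_le_mul_of_nonneg_left (key b hb).2 (sq_nonneg _)
  · rw [him]
    exact (le_div_iff₀ hbp).1 hk1
  · rw [him]
    have h1 : l ^ 2 + (l ^ 2)⁻¹ ≤ 2 * (Real.cosh D - 1) + 4 := by
      have h2 := (key a ha).1
      rw [← inv_pow]
      nlinarith
    have h2 := (div_le_iff₀ hbp).1 hk2
    rw [mul_assoc] at h2
    exact h2.trans (mul_le_mul_of_nonneg_right h1 (by positivity))

/-- The set of points moved by at most `D` is bounded modulo the powers of the map. -/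
theorem cyl_core {ε : ℝ} (hε : 0 < ε) (D : ℝ) : ∃ R : ℝ, ∀ A : SL(2, ℝ),
    (∀ z : ℍ, ε ≤ dist z (A • z)) → ∀ a b : ℍ, dist a (A • a) ≤ D → dist b (A • b) ≤ D →
      ∃ k : ℤ, dist a (A ^ k • b) ≤ R := by
  refine ⟨(2 * (2 * (Real.cosh D - 1) / (2 * (Real.cosh ε - 1))) + 1) *
    (2 * (Real.cosh D - 1) + 4), fun A h a b ha hb => ?_⟩
  have hτ : 0 < 2 * (Real.cosh ε - 1) := by
    have := Real.one_lt_cosh.2 hε.ne'
    linarith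
  obtain ⟨P, L, l, hl, l1, l2, l3, l4, hP⟩ := gecyl_diag A (hτ.trans_le (tr_big hε A h))
  have hA : A = P * L * P⁻¹ := by rw [← hP, mul_inv_cancel_right]
  have hd : ∀ z : ℍ, dist z (L • z) = dist (P • z) (A • P • z) := by
    intro z
    rw [← mul_smul, hP, mul_smul, dist_smul]
  obtain ⟨k, hk⟩ := gecyl_main hε D hl l1 l2 l3 l4 (fun z => by rw [hd]; exact h _)
    (P⁻¹ • a) (P⁻¹ • b) (by rw [hd, smul_inv_smul]; exact ha)
    (by rw [hd, smul_inv_smul]; exact hb)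
  refine ⟨k, ?_⟩
  rw [hA, conj_zpow, mul_smul, mul_smul, ← dist_smul P⁻¹, inv_smul_smul]
  exact hk

theorem cyl_group {ε : ℝ} (hε : 0 < ε) (D : ℝ) : ∃ R : ℝ, ∀ G : Subgroup (Perm ℍ), Fuchs G ε →
    ∀ γ : G, γ ≠ 1 → ∀ a b : ℍ, dist a (γ.1 a) ≤ D → dist b (γ.1 b) ≤ D →
      ∃ g : G, dist a (g.1 b) ≤ R := by
  obtain ⟨R, hR⟩ := cyl_core hε D
  refine ⟨R, fun G hG γ hγ a b ha hb => ?_⟩
  obtain ⟨A, hA⟩ := hG.mob γ.1 γ.2
  have hne : γ.1 ≠ 1 := fun h => hγ (Subtype.ext h)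
  obtain ⟨k, hk⟩ := hR A (fun z => hA z ▸ hG.thick γ.1 γ.2 hne z) a b (hA a ▸ ha) (hA b ▸ hb)
  have h1 : MulAction.toPermHom SL(2, ℝ) ℍ A = γ.1 := Equiv.ext fun z => (hA z).symm
  refine ⟨γ ^ k, ?_⟩
  rw [Subgroup.coe_zpow, ← h1, ← map_zpow]
  exact hk

end Pool.Agent.MC.Ge
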