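import Pool.Agent.P.MP_2677b3_gt.GeLift
import Pool.Agent.P.MP_2677b3_gt.GeCyl

open UpperHalfPlane Equiv
open scoped MatrixGroups

noncomputable section

namespace Pool.Agent.MC.Ge

variable {G : Subgroup (Perm ℍ)} {ε c K : ℝ} {C : ℝ → ℕ} {f : ℝ → ℝ} {U : UMap G c K C f}

theorem gegeo_same (Y : Cov U) (e : Y.M.D) :
    dist (Y.pt (Y.M.gd.src e)) (U.pos (Y.lift e)) ≤ 2 * c := U.same_dist (Y.same_base e)

theorem gegeo_hp_append (Y : Cov U) (p q : List Y.M.D) : Y.hp (p ++ q) = Y.hp p * Y.hp q := by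
  simp [Cov.hp]

theorem Cov.geo (Y : Cov U) (hG : Fuchs G ε) (hc : 2 * c < ε) :
    ∃ g : Geo Y.M.gd G (max K (4 * c)), g.Full := by
  have h0 := U.c_nonneg
  refine ⟨⟨Y.pt, Y.hol, fun e => Y.hol_inv hG hc e, fun x p h => Y.faith hG hc h,
    fun e => (Y.short hG e).trans (le_max_right _ _), fun x p y _ => ?_, fun x z => ?_⟩,
    fun x γ => ?_⟩
  · obtain ⟨q, h1, h2, h3⟩ := Y.connect hG hc x y (Y.hp p)
    refine ⟨q, h1, h2, h3.trans ?_⟩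
    exact add_le_add (mul_le_mul_of_nonneg_right (le_max_left _ _) dist_nonneg) (le_max_left _ _)
  · obtain ⟨d, hd⟩ := U.dense z
    obtain ⟨g, hg⟩ := Y.exists_sheet d
    obtain ⟨q, h1, h2, -⟩ := Y.connect hG hc x (Y.M.gd.src (Y.π d)) g
    refine ⟨q, _, h1, le_trans ?_ (le_max_right _ _)⟩
    have h3 : (q.map Y.hol).prod = g := h2
    have h4 : dist (U.pos d) (g.1 (Y.pt (Y.M.gd.src (Y.π d)))) ≤ 2 * c := by
      have := gegeo_same Y (Y.π d)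
      rw [← fuchs_dist hG g.2, ← U.pos_smul g (Y.lift _), ← hg, dist_comm] at this
      exact this
    have h5 := dist_triangle z (U.pos d) (g.1 (Y.pt (Y.M.gd.src (Y.π d))))
    show dist z (((q.map Y.hol).prod).1 _) ≤ _
    rw [h3]; linarith
  · obtain ⟨q, h1, h2, -⟩ := Y.connect hG hc x x γ
    exact ⟨q, h1, h2⟩

theorem Cov.tri (Y : Cov U) (hG : Fuchs G ε) (hc : 2 * c < ε) (d : Y.M.D) :
    Y.M.ψ (Y.M.ψ (Y.M.ψ d)) = d ∧ Y.M.ψ d ≠ d := by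
  have _ := hG
  have _ := hc
  refine ⟨Y.ψψψ d, fun h => U.pos_ne (Y.lift d) ?_⟩
  rw [← U.pos_ψ, ← Y.lift_ψ, h]

theorem gegeo_psi (M : CMap) (d : M.D) : M.Same (fun _ => False) d (M.ψ d) :=
  Relation.ReflTransGen.tail (b := M.α d)
    (Relation.ReflTransGen.single (r := M.Step fun _ => False) (Or.inr ⟨not_false, rfl⟩))
    (Or.inl rfl)

theorem gegeo_src (M : CMap) {d d' : M.D} (h : M.gd.src d = M.gd.src d') :
    M.Same (fun _ => False) d d' := by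
  have h1 : M.ψ.SameCycle d d' := Quotient.exact h
  obtain ⟨n, -, rfl⟩ := h1.exists_pow_eq'
  clear h h1
  induction n with
  | zero => exact Relation.ReflTransGen.refl
  | succ n ih => rw [pow_succ', Perm.mul_apply]; exact ih.trans (gegeo_psi M _)

theorem Cov.conn (Y : Cov U) (hG : Fuchs G ε) (hc : 2 * c < ε) (d d' : Y.M.D) :
    Y.M.Same (fun _ => False) d d' := by
  obtain ⟨p, h, -⟩ := Y.connect hG hc (Y.M.gd.src d) (Y.M.gd.src d') 1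
  induction p generalizing d with
  | nil => exact gegeo_src _ h
  | cons e p ih =>
    exact ((gegeo_src _ h.1.symm).tail (Or.inr ⟨not_false, rfl⟩)).trans (ih (Y.M.α e) h.2)

open Classical in
theorem Cov.lab (Y : Cov U) (hG : Fuchs G ε) {r L : ℝ} (hr : c ≤ r) (hD : DimOne G r L) :
    ∃ (ι : Type) (l : Y.M.D → ι), (∀ d, l (Y.M.φ d) = l d) ∧
      (∀ d, l d = l (Y.M.ψ d) ∨ l (Y.M.ψ d) = l (Y.M.ψ (Y.M.ψ d)) ∨
        l d = l (Y.M.ψ (Y.M.ψ d))) ∧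
      ∀ i, (Finset.univ.filter fun d => l d = i).card ≤ C L := by
  have _ := hG
  obtain ⟨ι, pc, h1, h2, h3⟩ := hD
  have key : ∀ d, pc (U.pos (Y.lift (Y.π d))) = pc (U.pos d) := by
    intro d
    obtain ⟨g, hg⟩ := Y.exists_sheet d
    conv_rhs => rw [hg, U.pos_smul, h1 _ g.2]
  refine ⟨ι, fun e => pc (U.pos (Y.lift e)), fun d => ?_, fun d => ?_, fun i => ?_⟩
  · have := key (U.φ (Y.lift d))
    rwa [Y.π_φ, Y.π_lift, U.pos_φ] at this
  · obtain ⟨z, a, b, e⟩ := U.ctr (Y.lift d)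
    simp only [Y.lift_ψ]
    exact h3 z _ _ _ (a.trans hr) (b.trans hr) (e.trans hr)
  · rcases (Finset.univ.filter fun d => pc (U.pos (Y.lift d)) = i).eq_empty_or_nonempty with h | h
    · rw [h]; simp
    obtain ⟨e₀, h0⟩ := h
    obtain ⟨hf, hn⟩ := U.count (U.pos (Y.lift e₀)) L
    rw [← Set.ncard_coe_finset]
    refine (Set.ncard_le_ncard ?_ (hf.image Y.π)).trans ((Set.ncard_image_le hf).trans hn)
    intro e he
    have he' : pc (U.pos (Y.lift e)) = i := by simpa using he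
    have h0' : pc (U.pos (Y.lift e₀)) = i := by simpa using h0
    obtain ⟨g, hg, hd⟩ := h2 _ _ (h0'.trans he'.symm)
    refine ⟨(⟨g, hg⟩ : G) • Y.lift e, ?_, by rw [Y.π_smul, Y.π_lift]⟩
    show dist _ (U.pos _) ≤ L
    rw [U.pos_smul]; exact hd

theorem Cov.nonab (Y : Cov U) (hG : Fuchs G ε) (hc : 2 * c < ε) :
    ∃ x p q, Y.M.gd.Path x p x ∧ Y.M.gd.Path x q x ∧
      Y.M.gd.ev p * Y.M.gd.ev q ≠ Y.M.gd.ev q * Y.M.gd.ev p := by
  obtain ⟨a, b, hab⟩ := not_comm hG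
  obtain ⟨d, -⟩ := U.dense I
  obtain ⟨p, hp, ha, -⟩ := Y.connect hG hc (Y.M.gd.src (Y.π d)) (Y.M.gd.src (Y.π d)) a
  obtain ⟨q, hq, hb, -⟩ := Y.connect hG hc (Y.M.gd.src (Y.π d)) (Y.M.gd.src (Y.π d)) b
  obtain ⟨F, hF⟩ := Y.hol_hom hG hc
  refine ⟨_, p, q, hp, hq, fun h => hab ?_⟩
  have := congrArg F h
  rwa [map_mul, map_mul, hF, hF, ha, hb] at this

theorem cyl_down {ε : ℝ} (hε : 0 < ε) (c K : ℝ) : ∃ R : ℕ → ℕ,
    ∀ (G : Subgroup (Perm ℍ)) (C : ℝ → ℕ) (f : ℝ → ℝ) (U : UMap G c K C f) (Y : Cov U),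
      Fuchs G ε → 2 * c < ε → ∀ (l : ℕ) x y p q s, Y.M.gd.Path x p x → Y.M.gd.Path y q y →
      Y.M.gd.Path x s y → p.length ≤ l → q.length ≤ l → Y.M.gd.ev p ≠ 1 →
      Y.M.gd.ev p * Y.M.gd.ev s = Y.M.gd.ev s * Y.M.gd.ev q →
      ∃ s', Y.M.gd.Path x s' y ∧ s'.length ≤ R l := by
  choose R0 hR using cyl_group hε
  refine ⟨fun l => ⌈K * R0 (4 * c * l) + K⌉₊, ?_⟩
  intro G C f U Y hG hc l x y p q s hp hq _ hpl hql hne hcomm
  have h0 := U.c_nonneg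
  obtain ⟨F, hF⟩ := Y.hol_hom hG hc
  have h1 : Y.hp p ≠ 1 := fun h => hne ((Y.faith hG hc hp).2 h)
  have h2 : Y.hp p * Y.hp s = Y.hp s * Y.hp q := by
    have := congrArg F hcomm
    rw [map_mul, map_mul] at this
    exact (congrArg₂ (· * ·) (hF p) (hF s)).symm.trans
      (this.trans (congrArg₂ (· * ·) (hF s) (hF q)))
  have hl : ∀ n : ℕ, n ≤ l → 4 * c * n ≤ 4 * c * l := fun n hn =>
    mul_le_mul_of_nonneg_left (by exact_mod_cast hn) (by linarith)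
  have h3 : dist ((Y.hp s).1 (Y.pt y)) ((Y.hp p).1 ((Y.hp s).1 (Y.pt y))) ≤ 4 * c * l := by
    have e : (Y.hp p).1 ((Y.hp s).1 (Y.pt y)) = (Y.hp s).1 ((Y.hp q).1 (Y.pt y)) :=
      congrArg (fun g : G => g.1 (Y.pt y)) h2
    rw [e, fuchs_dist hG (Y.hp s).2]
    exact (Y.short_path hG hq).trans (hl _ hql)
  obtain ⟨g, hg⟩ := hR (4 * c * l) G hG (Y.hp p) h1 (Y.pt x) _
    ((Y.short_path hG hp).trans (hl _ hpl)) h3
  obtain ⟨s', a, -, b⟩ := Y.connect hG hc x y (g * Y.hp s)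
  refine ⟨s', a, ?_⟩
  have : (s'.length : ℝ) ≤ K * R0 (4 * c * l) + K :=
    b.trans (add_le_add (mul_le_mul_of_nonneg_left hg U.K_nonneg) le_rfl)
  exact_mod_cast this.trans (Nat.le_ceil _)

end Pool.Agent.MC.Ge
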