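import Pool.Agent.P.MP_2677b3_gt.GeUm
import Pool.Agent.P.MP_2677b3_gt.GeGeo
import Pool.Agent.P.MP_2677b3_gt.GeFillD

open UpperHalfPlane

namespace Pool.Agent.MC

/-- A thick surface of coarse dimension one is modelled by a trivalent map with uniform bounds. -/
theorem geo_interface (ε r L : ℝ) (hε : 0 < ε) (hr : 0 < r) :
    ∃ (n : ℕ) (R N : ℕ → ℕ) (K : ℝ), ∀ G : Subgroup (Equiv.Perm ℍ), Fuchs G ε → DimOne G r L →
      ∃ (M : CMap) (g : Geo M.gd G K), YMap M n R N ∧ g.Full := by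
  have h1 : min ε r ≤ ε := min_le_left _ _
  have h2 : min ε r ≤ r := min_le_right _ _
  have h3 : 0 < min ε r := lt_min hε hr
  set δ := min ε r / 10 with hδ
  obtain ⟨K, C, f, hU⟩ := Ge.exists_umap (ε := ε) (δ := δ) (by positivity) (by linarith)
  obtain ⟨R, hR⟩ := Ge.cyl_down hε (2 * δ) K
  refine ⟨C L, R, fun l => C (f (2 * (2 * δ) * l)), max K (4 * (2 * δ)), fun G hG hD => ?_⟩
  obtain ⟨U⟩ := hU G hG
  have hc : 2 * (2 * δ) < ε := by linarith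
  obtain ⟨Y⟩ := Ge.exists_cov hG hc U
  obtain ⟨g, hg⟩ := Y.geo hG hc
  exact ⟨Y.M, g, ⟨Y.tri hG hc, Y.conn hG hc, Y.lab hG (by linarith) hD, hR G C f U Y hG hc,
    Y.fill hG hc, Y.nonab hG hc⟩, hg⟩

end Pool.Agent.MC
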