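import Pool.Agent.P.MP_2677b3_gt.GeoDefs
import Pool.Agent.P.MP_2677b3_gt.Basic

/-! Definitions for the Delaunay model of a thick surface. -/

open UpperHalfPlane Equiv
open scoped MatrixGroups

noncomputable section

namespace Pool.Agent.MC.Ge

/-- Minkowski space. -/
abbrev M3 : Type := ℝ × ℝ × ℝ

/-- The hyperboloid model. -/
def vec (z : ℍ) : M3 := ((z.re ^ 2 + z.im ^ 2) / z.im, z.re / z.im, 1 / z.im)

/-- The Minkowski form; `bil (vec z) (vec w) = cosh (dist z w)`. -/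
def bil (u w : M3) : ℝ := (u.1 * w.2.2 + u.2.2 * w.1) / 2 - u.2.1 * w.2.1

def det3 (a b c : M3) : ℝ :=
  a.1 * (b.2.1 * c.2.2 - b.2.2 * c.2.1) - a.2.1 * (b.1 * c.2.2 - b.2.2 * c.1) +
    a.2.2 * (b.1 * c.2.1 - b.2.1 * c.1)

/-- The Minkowski cross product; `bil (crs a b) c = det3 a b c`. -/
def crs (a b : M3) : M3 :=
  (2 * (a.1 * b.2.1 - a.2.1 * b.1), a.1 * b.2.2 - a.2.2 * b.1,
    2 * (a.2.1 * b.2.2 - a.2.2 * b.2.1))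

/-- Orientation of a triple of points. -/
def ori (x y w : ℍ) : ℝ := det3 (vec x) (vec y) (vec w)

/-- The points of `N` nearest to `z`. -/
def near (N : Set ℍ) (z : ℍ) : Set ℍ := {x | x ∈ N ∧ ∀ p ∈ N, dist z x ≤ dist z p}

/-- Supporting functionals. -/
def Supp (N : Set ℍ) (u : M3) : Prop := ∀ p ∈ N, 1 ≤ bil u (vec p)

/-- Delaunay edges. -/
def Edge (N : Set ℍ) (x y : ℍ) : Prop := x ≠ y ∧ ∃ z, x ∈ near N z ∧ y ∈ near N z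

/-- Positively oriented Delaunay triangles. -/
def Tri (N : Set ℍ) (x y w : ℍ) : Prop :=
  0 < ori x y w ∧ ∃ z, x ∈ near N z ∧ y ∈ near N z ∧ w ∈ near N z

/-- Generic nets. -/
structure Net (N : Set ℍ) (δ : ℝ) : Prop where
  pos : 0 < δ
  sep : ∀ p ∈ N, ∀ q ∈ N, p ≠ q → δ ≤ dist p q
  dense : ∀ z, ∃ p ∈ N, dist z p ≤ 2 * δ
  gen : ∀ z, ∀ a ∈ near N z, ∀ b ∈ near N z, ∀ c ∈ near N z, ∀ d ∈ near N z,
    a ≠ b → a ≠ c → b ≠ c → d = a ∨ d = b ∨ d = c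

/-- Packing bound. -/
def Pk (δ : ℝ) (P : ℝ → ℕ) : Prop :=
  ∀ (z : ℍ) (ρ : ℝ) (S : Set ℍ), (∀ p ∈ S, dist z p ≤ ρ) →
    (∀ p ∈ S, ∀ q ∈ S, p ≠ q → δ ≤ dist p q) → S.Finite ∧ S.ncard ≤ P ρ

/-- Connected neighbourhoods of infinity. -/
def Ext (f : ℝ → ℝ) : Prop :=
  ∀ (o : ℍ) (ρ : ℝ), ∃ E : Set ℍ, IsPreconnected E ∧ (∀ z ∈ E, ρ < dist o z) ∧
    ∀ z, f ρ < dist o z → z ∈ E

/-- Paths in a possibly infinite map: vertices are the cycles of `φ * α`. -/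
def UPath {D : Type} (α φ : Perm D) (a : D) (p : List D) (b : D) : Prop :=
  IsPath (V := Quotient (Perm.SameCycle.setoid (φ * α))) (fun d => Quotient.mk _ d)
    (fun d => Quotient.mk _ (α d)) (Quotient.mk _ a) p (Quotient.mk _ b)

/-- The universal cover of the model map. -/
structure UMap (G : Subgroup (Perm ℍ)) (c K : ℝ) (C : ℝ → ℕ) (f : ℝ → ℝ) where
  D : Type
  act : MulAction G D
  α : Perm D
  φ : Perm D
  pos : D → ℍ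
  αα : ∀ d, α (α d) = d
  α_smul : ∀ (g : G) d, α (g • d) = g • α d
  φ_smul : ∀ (g : G) d, φ (g • d) = g • φ d
  pos_smul : ∀ (g : G) d, pos (g • d) = g.1 (pos d)
  pos_φ : ∀ d, pos (φ d) = pos d
  pos_ne : ∀ d, pos (α d) ≠ pos d
  tri : ∀ d, (φ * α) ((φ * α) ((φ * α) d)) = d
  ctr : ∀ d, ∃ z, dist z (pos d) ≤ c ∧ dist z (pos ((φ * α) d)) ≤ c ∧
    dist z (pos ((φ * α) ((φ * α) d))) ≤ c
  count : ∀ z ρ, {d | dist z (pos d) ≤ ρ}.Finite ∧ {d | dist z (pos d) ≤ ρ}.ncard ≤ C ρ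
  dense : ∀ z, ∃ d, dist z (pos d) ≤ c
  walk : ∀ a b, ∃ p, UPath α φ a p b ∧ (p.length : ℝ) ≤ K * dist (pos a) (pos b) + K
  pot : ∀ (Γ : Type) [Group Γ] (χ : D → Γ), (∀ e, χ (α e) = (χ e)⁻¹) →
    (∀ e n, φ^[n] e = e → ((orbL φ e n).map χ).prod = 1) →
    ∃ Ψ : D → Γ, (∀ e, Ψ ((φ * α) e) = Ψ e) ∧ ∀ e, Ψ (α e) = Ψ e * χ e
  fill : ∀ (o : ℍ) (ρ : ℝ) (ω : D → ZMod 2), (∀ e, ω (α e) = ω e) →
    (∀ e, ω e + ω ((φ * α) e) + ω ((φ * α) ((φ * α) e)) = 0) →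
    (∀ e, ρ < dist o (pos e) → ω e = 0) →
    ∃ Φ : D → ZMod 2, (∀ e, Φ (φ e) = Φ e) ∧ (∀ e, Φ e + Φ (α e) = ω e) ∧
      ∀ e, f ρ < dist o (pos e) → Φ e = 0

instance {G : Subgroup (Perm ℍ)} {c K : ℝ} {C : ℝ → ℕ} {f : ℝ → ℝ} (U : UMap G c K C f) :
    MulAction G U.D := U.act

end Pool.Agent.MC.Ge
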