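import Pool.Agent.P.MP_2677b3_gt.GeDefs

/-! Darts of the Delaunay complex and quotients of infinite maps. -/

open UpperHalfPlane Equiv
open scoped MatrixGroups

noncomputable section

namespace Pool.Agent.MC.Ge

/-- The oriented Delaunay edges with reversal and rotation about the source. -/
structure DMap (N : Set ℍ) where
  D : Type
  α : Perm D
  φ : Perm D
  pos : D → ℍ
  αα : ∀ d, α (α d) = d
  edge : ∀ d, Edge N (pos d) (pos (α d))
  ext : ∀ a b, pos a = pos b → pos (α a) = pos (α b) → a = b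
  surj : ∀ x y, Edge N x y → ∃ d, pos d = x ∧ pos (α d) = y
  pos_φ : ∀ d, pos (φ d) = pos d
  tri_φ : ∀ d, Tri N (pos d) (pos (α d)) (pos (α (φ d)))

variable {G : Subgroup (Perm ℍ)} {c K : ℝ} {C : ℝ → ℕ} {f : ℝ → ℝ}

/-- The quotient of the universal cover by the group, with a section and the holonomy. -/
structure Cov (U : UMap G c K C f) where
  M : CMap
  π : U.D → M.D
  lift : M.D → U.D
  hol : M.D → G
  π_smul : ∀ (g : G) d, π (g • d) = π d
  π_eq : ∀ a b, π a = π b → ∃ g : G, g • a = b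
  π_α : ∀ d, π (U.α d) = M.α (π d)
  π_φ : ∀ d, π (U.φ d) = M.φ (π d)
  π_lift : ∀ e, π (lift e) = e
  lift_ψ : ∀ e, lift (M.ψ e) = (U.φ * U.α) (lift e)
  hol_spec : ∀ e, U.α (lift e) = hol e • lift (M.α e)

namespace Cov

variable {U : UMap G c K C f} (Y : Cov U)

/-- The chosen lift of a vertex. -/
def base (v : Y.M.gd.V) : U.D := Y.lift (Quotient.out (s := Perm.SameCycle.setoid Y.M.ψ) v)

/-- The position of a vertex. -/
def pt (v : Y.M.gd.V) : ℍ := U.pos (Y.base v)

/-- The holonomy of a path. -/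
def hp (p : List Y.M.D) : G := (p.map Y.hol).prod

/-- The lift of a path that starts on the sheet `g`. -/
def up (p : List Y.M.D) : G → List U.D :=
  p.foldr (fun e r g => (g • Y.lift e) :: r (g * Y.hol e)) (fun _ => [])

@[simp] theorem hp_nil : Y.hp [] = 1 := rfl
@[simp] theorem hp_cons (e : Y.M.D) (p : List Y.M.D) : Y.hp (e :: p) = Y.hol e * Y.hp p := by
  simp [hp]
@[simp] theorem up_nil (g : G) : Y.up [] g = [] := rfl
@[simp] theorem up_cons (e : Y.M.D) (p : List Y.M.D) (g : G) :
    Y.up (e :: p) g = (g • Y.lift e) :: Y.up p (g * Y.hol e) := rfl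

theorem map_up (p : List Y.M.D) (g : G) : (Y.up p g).map Y.π = p := by
  induction p generalizing g with
  | nil => rfl
  | cons e p ih => simp [Y.π_smul, Y.π_lift, ih]

theorem length_up (p : List Y.M.D) (g : G) : (Y.up p g).length = p.length := by
  have := congrArg List.length (Y.map_up p g)
  simpa using this

theorem gd_src (e : Y.M.D) :
    Y.M.gd.src e = Quotient.mk (Perm.SameCycle.setoid Y.M.ψ) e := rfl

theorem gd_tgt (e : Y.M.D) :
    Y.M.gd.tgt e = Quotient.mk (Perm.SameCycle.setoid Y.M.ψ) (Y.M.α e) := rfl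

end Cov

end Pool.Agent.MC.Ge
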