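import Pool.Agent.P.MP_2677b3_gt.GeDefs

open UpperHalfPlane Equiv
open scoped MatrixGroups

noncomputable section

namespace Pool.Agent.MC.Ge

theorem exists_pk {δ : ℝ} (h : 0 < δ) : ∃ P, Pk δ P := by
  have hc : ∀ ρ : ℝ, ∃ t : Finset ℍ, ∀ p, dist I p ≤ ρ → ∃ c ∈ t, dist p c < δ / 2 := by
    intro ρ
    obtain ⟨t, -, ht, hcov⟩ := finite_cover_balls_of_compact (isCompact_closedBall (I : ℍ) ρ)
      (half_pos h)
    refine ⟨ht.toFinset, fun p hp => ?_⟩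
    obtain ⟨c, hc, hpc⟩ := Set.mem_iUnion₂.1 (hcov (Metric.mem_closedBall'.2 hp))
    exact ⟨c, ht.mem_toFinset.2 hc, hpc⟩
  choose t ht using hc
  refine ⟨fun ρ => (t ρ).card, fun z ρ S h1 h2 => ?_⟩
  obtain ⟨g, hg⟩ := MulAction.exists_smul_eq SL(2, ℝ) z I
  have h3 : ∀ p : ℍ, ∃ c, p ∈ S → c ∈ t ρ ∧ dist (g • p) c < δ / 2 := by
    intro p
    by_cases hp : p ∈ S
    · obtain ⟨c, hc⟩ := ht ρ (g • p) (by rw [← hg, dist_smul]; exact h1 p hp)
      exact ⟨c, fun _ => hc⟩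
    · exact ⟨p, fun hp' => absurd hp' hp⟩
  choose c hc using h3
  have hm : Set.MapsTo c S (t ρ : Set ℍ) := fun p hp => (hc p hp).1
  have hi : Set.InjOn c S := by
    intro p hp q hq e
    by_contra hne
    have h4 := h2 p hp q hq hne
    have h5 := (hc p hp).2
    have h6 := (hc q hq).2
    have h7 := dist_triangle_right (g • p) (g • q) (c p)
    rw [dist_smul] at h7
    rw [← e] at h6
    linarith
  refine ⟨Set.Finite.of_injOn hm hi (t ρ).finite_toSet, ?_⟩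
  have := Set.ncard_le_ncard_of_injOn c hm hi (t ρ).finite_toSet
  rwa [Set.ncard_coe_finset] at this

theorem gepack_conn {T : Set ℂ} (hT : Convex ℝ T) : IsPreconnected {z : ℍ | (z : ℂ) ∈ T} := by
  rw [← isOpenEmbedding_coe.isInducing.isPreconnected_image]
  have e : ((↑) : ℍ → ℂ) '' {z : ℍ | (z : ℂ) ∈ T} = T ∩ {w : ℂ | 0 < w.im} := by
    ext w
    constructor
    · rintro ⟨z, hz, rfl⟩
      exact ⟨hz, z.im_pos⟩
    · rintro ⟨h1, h2⟩
      exact ⟨⟨w, h2⟩, h1, rfl⟩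
  rw [e]
  exact (hT.inter (convex_halfSpace_im_gt 0)).isPreconnected

theorem gepack_box {a : ℝ} (ha : 0 < a) : IsPreconnected
    ({z : ℍ | a ≤ z.im} ∪ {z : ℍ | a ≤ z.re} ∪ {z : ℍ | z.re ≤ -a} ∪ {z : ℍ | z.im ≤ a⁻¹}) := by
  have h1 : IsPreconnected {z : ℍ | a ≤ z.im} := gepack_conn (convex_halfSpace_im_ge a)
  have h2 : IsPreconnected {z : ℍ | a ≤ z.re} := gepack_conn (convex_halfSpace_re_ge a)
  have h3 : IsPreconnected {z : ℍ | z.re ≤ -a} := gepack_conn (convex_halfSpace_re_le (-a))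
  have h4 : IsPreconnected {z : ℍ | z.im ≤ a⁻¹} := gepack_conn (convex_halfSpace_im_le a⁻¹)
  exact IsPreconnected.union (⟨⟨a, a⁻¹⟩, inv_pos.2 ha⟩ : ℍ) (Or.inl (Or.inr (le_refl a)))
    (le_refl a⁻¹) (IsPreconnected.union (⟨⟨-a, a⟩, ha⟩ : ℍ) (Or.inl (le_refl a))
      (le_refl (-a)) (IsPreconnected.union (⟨⟨a, a⟩, ha⟩ : ℍ) (le_refl a) (le_refl a) h1 h2) h3) h4

theorem gepack_ext (ρ : ℝ) : ∃ (F : ℝ) (E : Set ℍ), IsPreconnected E ∧ (∀ z ∈ E, ρ < dist I z) ∧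
    ∀ z, F < dist I z → z ∈ E := by
  set a := Real.exp ρ + 1 with ha
  have he := Real.exp_pos ρ
  have ha0 : 0 < a := by linarith
  refine ⟨(2 * a ^ 2 + 1) * a, _, gepack_box ha0, fun z hz => ?_, fun z hz => ?_⟩
  · by_contra hle
    have h0 : Real.exp (dist I z) ≤ Real.exp ρ := Real.exp_le_exp.2 (not_lt.1 hle)
    have h1 := im_le_im_mul_exp_dist z I
    have h2 := im_le_im_mul_exp_dist I z
    have h3 := dist_coe_le z I
    have h4 : |z.re| ≤ dist (z : ℂ) ((I : ℍ) : ℂ) := by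
      have := Complex.abs_re_le_norm ((z : ℂ) - ((I : ℍ) : ℂ))
      rw [Complex.sub_re, coe_re, coe_re, I_re, sub_zero] at this
      rwa [Complex.dist_eq]
    rw [I_im, one_mul, _root_.dist_comm] at h1
    rw [I_im, one_mul, _root_.dist_comm z I] at h3
    rw [I_im] at h2
    have h5 := abs_le.1 h4
    rcases hz with ((hz | hz) | hz) | hz
    · have hz' : a ≤ z.im := hz
      linarith
    · have hz' : a ≤ z.re := hz
      linarith [h5.2]
    · have hz' : z.re ≤ -a := hz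
      linarith [h5.1]
    · have hz' : z.im ≤ a⁻¹ := hz
      have h6 : z.im * Real.exp (dist I z) ≤ a⁻¹ * Real.exp ρ :=
        mul_le_mul hz' h0 (Real.exp_pos _).le (inv_pos.2 ha0).le
      have h7 : a⁻¹ * Real.exp ρ < 1 := by
        rw [inv_mul_lt_iff₀ ha0]; linarith
      linarith
  · by_contra hn
    simp only [Set.mem_union, Set.mem_ofPred_eq, not_or, not_le] at hn
    obtain ⟨⟨⟨h1, h2⟩, h3⟩, h4⟩ := hn
    have hy := z.im_pos
    have h5 := cosh_dist' I z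
    rw [I_re, I_im] at h5
    have h6 : dist I z ≤ 2 * Real.cosh (dist I z) := by
      have := Real.add_one_le_exp (dist I z)
      have := Real.exp_pos (-dist I z)
      rw [Real.cosh_eq]
      linarith
    have h7 : 2 * Real.cosh (dist I z) = (z.re ^ 2 + z.im ^ 2 + 1) * z.im⁻¹ := by
      rw [h5]; field_simp; ring
    have h8 : z.im⁻¹ ≤ a := by
      rw [inv_le_comm₀ hy ha0]; exact h4.le
    have h9 : z.re ^ 2 ≤ a ^ 2 := sq_le_sq' h3.le h2.le
    have h10 : z.im ^ 2 ≤ a ^ 2 := sq_le_sq' (by linarith) h1.le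
    have h11 : (z.re ^ 2 + z.im ^ 2 + 1) * z.im⁻¹ ≤ (2 * a ^ 2 + 1) * a :=
      mul_le_mul (by linarith) h8 (inv_pos.2 hy).le (by positivity)
    linarith

theorem exists_ext : ∃ f, Ext f := by
  choose F E h1 h2 h3 using gepack_ext
  refine ⟨F, fun o ρ => ?_⟩
  obtain ⟨g, hg⟩ := MulAction.exists_smul_eq SL(2, ℝ) I o
  refine ⟨(fun z => g • z) '' E ρ, (h1 ρ).image _ (isometry_smul ℍ g).continuous.continuousOn, ?_,
    fun z hz => ⟨g⁻¹ • z, h3 ρ _ ?_, smul_inv_smul g z⟩⟩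
  · rintro _ ⟨z, hz, rfl⟩
    rw [← hg, dist_smul]
    exact h2 ρ z hz
  · rwa [← dist_smul g, hg, smul_inv_smul]

theorem exists_far (z : ℍ) (ρ : ℝ) : ∃ w : ℍ, ρ < dist z w := by
  refine ⟨⟨⟨z.re, z.im * Real.exp (|ρ| + 1)⟩, mul_pos z.im_pos (Real.exp_pos _)⟩, ?_⟩
  refine lt_of_lt_of_le ?_ (dist_log_im_le _ _)
  show ρ < dist (Real.log z.im) (Real.log (z.im * Real.exp (|ρ| + 1)))
  rw [Real.log_mul z.im_pos.ne' (Real.exp_pos _).ne', Real.log_exp, Real.dist_eq,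
    sub_add_cancel_left, abs_neg, abs_of_nonneg (by positivity)]
  linarith [le_abs_self ρ]

theorem Net.finite_ball {N : Set ℍ} {δ : ℝ} (h : Net N δ) (z : ℍ) (ρ : ℝ) :
    {p | p ∈ N ∧ dist z p ≤ ρ}.Finite := by
  obtain ⟨P, hP⟩ := exists_pk h.pos
  exact (hP z ρ _ (fun p hp => hp.2) fun p hp q hq => h.sep p hp.1 q hq.1).1

theorem fuchs_dist {G : Subgroup (Perm ℍ)} {ε : ℝ} (hG : Fuchs G ε) {g : Perm ℍ} (hg : g ∈ G)
    (z w : ℍ) : dist (g z) (g w) = dist z w := by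
  obtain ⟨A, hA⟩ := hG.mob g hg
  rw [hA, hA, dist_smul]

/-- An element that moves some point by less than `ε` is trivial. -/
theorem fuchs_one {G : Subgroup (Perm ℍ)} {ε : ℝ} (hG : Fuchs G ε) {g : Perm ℍ} (hg : g ∈ G)
    {z : ℍ} (h : dist z (g z) < ε) : g = 1 := by
  by_contra hne
  exact absurd h (not_lt.2 (hG.thick g hg hne z))

end Pool.Agent.MC.Ge
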