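import Pool.Agent.P.MP_2677b3_gt.GeLin
import Pool.Agent.P.MP_2677b3_gt.GePack

open UpperHalfPlane Equiv
open scoped MatrixGroups

noncomputable section

namespace Pool.Agent.MC.Ge

variable {N : Set ℍ} {δ : ℝ} {x y w w' z : ℍ} {u : M3}

theorem Edge.symm (h : Edge N x y) : Edge N y x := by
  obtain ⟨hne, z, hx, hy⟩ := h
  exact ⟨hne.symm, z, hy, hx⟩

theorem Edge.mem (h : Edge N x y) : x ∈ N ∧ y ∈ N := by
  obtain ⟨-, z, hx, hy⟩ := h
  exact ⟨hx.1, hy.1⟩

theorem Tri.cyc (h : Tri N x y w) : Tri N y w x := by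
  obtain ⟨ho, z, hx, hy, hw⟩ := h
  refine ⟨?_, z, hy, hw, hx⟩
  rw [ori_cyc]
  exact ho

theorem Tri.edge (h : Tri N x y w) : Edge N x y := by
  obtain ⟨ho, z, hx, hy, -⟩ := h
  refine ⟨?_, z, hx, hy⟩
  rintro rfl
  rw [ori_self₁] at ho
  exact lt_irrefl _ ho

theorem Tri.edge' (h : Tri N x y w) : Edge N x w := by
  obtain ⟨ho, z, hx, -, hw⟩ := h
  refine ⟨?_, z, hx, hw⟩
  rintro rfl
  rw [ori_self₂] at ho
  exact lt_irrefl _ ho

theorem Net.near_dist (h : Net N δ) (hx : x ∈ near N z) : dist z x ≤ 2 * δ := by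
  obtain ⟨p, hp, hd⟩ := h.dense z
  exact (hx.2 p hp).trans hd

theorem Net.edge_dist (h : Net N δ) (he : Edge N x y) : dist x y ≤ 4 * δ := by
  obtain ⟨-, z, hx, hy⟩ := he
  have h1 := h.near_dist hx
  have h2 := h.near_dist hy
  have h3 := dist_triangle_left x y z
  linarith

theorem del1_cosh_le {a b : ℝ} (ha : 0 ≤ a) (hb : 0 ≤ b) :
    Real.cosh a ≤ Real.cosh b ↔ a ≤ b := by
  rw [Real.cosh_le_cosh, abs_of_nonneg ha, abs_of_nonneg hb]

theorem del1_cosh_lt {a b : ℝ} (ha : 0 ≤ a) (hb : 0 ≤ b) :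
    Real.cosh a < Real.cosh b ↔ a < b := by
  rw [Real.cosh_lt_cosh, abs_of_nonneg ha, abs_of_nonneg hb]

theorem del1_bil_add' (u w w' : M3) : bil u (w + w') = bil u w + bil u w' := by
  rw [bil_comm, bil_add, bil_comm w, bil_comm w']

theorem del1_bil_sub' (u w w' : M3) : bil u (w - w') = bil u w - bil u w' := by
  rw [bil_comm, bil_sub, bil_comm w, bil_comm w']

theorem del1_bil_smul' (s : ℝ) (u w : M3) : bil u (s • w) = s * bil u w := by
  rw [bil_comm, bil_smul, bil_comm w]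

theorem supp_of_near (hx : x ∈ near N z) :
    ∃ u, Supp N u ∧ ∀ y ∈ near N z, bil u (vec y) = 1 := by
  have hc : 0 < Real.cosh (dist z x) := Real.cosh_pos _
  refine ⟨(Real.cosh (dist z x))⁻¹ • vec z, ?_, ?_⟩
  · intro p hp
    rw [bil_smul, bil_vec, inv_mul_eq_div, le_div_iff₀ hc, one_mul,
      del1_cosh_le dist_nonneg dist_nonneg]
    exact hx.2 p hp
  · intro y hy
    have e : dist z y = dist z x := le_antisymm (hy.2 x hx.1) (hx.2 y hy.1)
    rw [bil_smul, bil_vec, e, inv_mul_cancel₀ hc.ne']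

theorem del1_step1 (h : Net N δ) (h1 : bil u (vec x) = 1)
    (h2 : ∀ p ∈ N, dist x p ≤ 6 * δ → 1 ≤ bil u (vec p)) :
    ((Real.cosh (3 * δ))⁻¹) ^ 2 < bil u u := by
  have hδ := h.pos
  by_contra hcon
  rw [not_lt] at hcon
  have hC : 1 < Real.cosh (3 * δ) := Real.one_lt_cosh.2 (by linarith)
  have hC0 : 0 < Real.cosh (3 * δ) := Real.cosh_pos _
  set c : ℝ := (Real.cosh (3 * δ))⁻¹ with hc
  have hc0 : 0 < c := inv_pos.2 hC0
  have hc1 : c < 1 := inv_lt_one_of_one_lt₀ hC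
  have hcC : c * Real.cosh (3 * δ) = 1 := inv_mul_cancel₀ hC0.ne'
  have hk : c ^ 2 < 1 := by nlinarith
  have hB : 0 < 1 - bil u u := by linarith
  have hq0 : 0 ≤ (1 - c ^ 2) / (1 - bil u u) := div_nonneg (by linarith) hB.le
  have hq1 : (1 - c ^ 2) / (1 - bil u u) ≤ 1 := by
    rw [div_le_one hB]
    linarith
  set s : ℝ := Real.sqrt ((1 - c ^ 2) / (1 - bil u u)) with hs
  have hs0 : 0 ≤ s := Real.sqrt_nonneg _
  have hs1 : s ≤ 1 := Real.sqrt_le_one.2 hq1
  have hs2 : s ^ 2 * (1 - bil u u) = 1 - c ^ 2 := by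
    rw [hs, Real.sq_sqrt hq0, div_mul_cancel₀ _ hB.ne']
  have e1 : bil ((1 - s) • vec x + s • u) (vec x) = 1 := by
    rw [bil_add, bil_smul, bil_smul, bil_self, h1]
    ring
  have e2 : bil ((1 - s) • vec x + s • u) ((1 - s) • vec x + s • u) = c ^ 2 := by
    rw [del1_bil_add', del1_bil_smul', del1_bil_smul', e1, bil_add, bil_smul, bil_smul,
      bil_comm (vec x) u, h1]
    linear_combination (-1 : ℝ) * hs2
  obtain ⟨z, t, ht0, ht2, hu'⟩ := exists_vec (u := (1 - s) • vec x + s • u) (x := x)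
    (by rw [e2]; positivity) (by rw [e1]; exact one_pos)
  have htc : t = c := by
    rw [e2] at ht2
    exact (pow_left_inj₀ ht0.le hc0.le two_ne_zero).1 ht2
  obtain ⟨p, hp, hd⟩ := h.dense z
  have hzx : dist z x ≤ 3 * δ := by
    rw [hu', bil_smul, bil_vec, htc] at e1
    rw [← del1_cosh_le dist_nonneg (by linarith)]
    have : c * Real.cosh (dist z x) = c * Real.cosh (3 * δ) := by rw [e1, hcC]
    exact (mul_left_cancel₀ hc0.ne' this).le
  have hxp : dist x p ≤ 6 * δ := by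
    have := dist_triangle_left x p z
    linarith
  have a1 : bil ((1 - s) • vec x + s • u) (vec p) < 1 := by
    rw [hu', bil_smul, bil_vec, htc, ← hcC]
    refine mul_lt_mul_of_pos_left ?_ hc0
    rw [del1_cosh_lt dist_nonneg (by linarith)]
    linarith
  rw [bil_add, bil_smul, bil_smul] at a1
  have a2 := one_le_bil x p
  have a3 := h2 p hp hxp
  have a4 : (1 - s) * 1 ≤ (1 - s) * bil (vec x) (vec p) :=
    mul_le_mul_of_nonneg_left a2 (by linarith)
  have a5 : s * 1 ≤ s * bil u (vec p) := mul_le_mul_of_nonneg_left a3 hs0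
  linarith

/-- A functional that supports the net near a point of contact supports the whole net. -/
theorem Net.locality (h : Net N δ) (hx : x ∈ N) (h1 : bil u (vec x) = 1)
    (h2 : ∀ p ∈ N, dist x p ≤ 6 * δ → 1 ≤ bil u (vec p)) :
    0 < bil u u ∧ Supp N u ∧ ∃ z, ∀ y ∈ N, bil u (vec y) = 1 → y ∈ near N z := by
  have hδ := h.pos
  have hC0 : 0 < Real.cosh (3 * δ) := Real.cosh_pos _
  have hk := del1_step1 h h1 h2
  have hc0 : 0 < (Real.cosh (3 * δ))⁻¹ := inv_pos.2 hC0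
  have hB : 0 < bil u u := lt_trans (by positivity) hk
  obtain ⟨z, t, ht0, ht2, hu⟩ := exists_vec (u := u) (x := x) hB (by rw [h1]; exact one_pos)
  have hct : (Real.cosh (3 * δ))⁻¹ < t := by
    rw [← ht2] at hk
    exact lt_of_pow_lt_pow_left₀ 2 ht0.le hk
  have hv : ∀ p, bil u (vec p) = t * Real.cosh (dist z p) := by
    intro p
    rw [hu, bil_smul, bil_vec]
  have hzx : dist z x < 3 * δ := by
    rw [← del1_cosh_lt dist_nonneg (by linarith)]
    rw [hv] at h1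
    rw [inv_lt_iff_one_lt_mul₀ hC0, ← h1] at hct
    exact lt_of_mul_lt_mul_left hct ht0.le
  have hS : Supp N u := by
    intro p hp
    by_cases hd : dist x p ≤ 6 * δ
    · exact h2 p hp hd
    · rw [← h1, hv, hv]
      refine mul_le_mul_of_nonneg_left ?_ ht0.le
      rw [del1_cosh_le dist_nonneg dist_nonneg]
      have := dist_triangle_left x p z
      linarith
  refine ⟨hB, hS, z, fun y hy hy1 => ⟨hy, fun p hp => ?_⟩⟩
  have a := hS p hp
  rw [← hy1, hv, hv] at a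
  rw [← del1_cosh_le dist_nonneg dist_nonneg]
  exact le_of_mul_le_mul_left a ht0

theorem Edge.supp (h : Edge N x y) : ∃ u, Supp N u ∧ bil u (vec x) = 1 ∧ bil u (vec y) = 1 := by
  obtain ⟨-, z, hx, hy⟩ := h
  obtain ⟨u, hu, h1⟩ := supp_of_near hx
  exact ⟨u, hu, h1 x hx, h1 y hy⟩

theorem Net.edge_of_supp (h : Net N δ) (hu : Supp N u) (hx : x ∈ N) (hy : y ∈ N)
    (h1 : bil u (vec x) = 1) (h2 : bil u (vec y) = 1) (hne : x ≠ y) : Edge N x y := by
  obtain ⟨-, -, z, hz⟩ := h.locality hx h1 (fun p hp _ => hu p hp)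
  exact ⟨hne, z, hz x hx h1, hz y hy h2⟩

theorem Net.tri_supp (h : Net N δ) (ht : Tri N x y w) :
    ∃ u, Supp N u ∧ bil u (vec x) = 1 ∧ bil u (vec y) = 1 ∧ bil u (vec w) = 1 ∧
      ∀ q ∈ N, bil u (vec q) = 1 → q = x ∨ q = y ∨ q = w := by
  have n1 : x ≠ y := ht.edge.1
  have n2 : x ≠ w := ht.edge'.1
  have n3 : y ≠ w := ht.cyc.edge.1
  obtain ⟨-, z, hx, hy, hw⟩ := ht
  obtain ⟨u, hu, h1⟩ := supp_of_near hx
  obtain ⟨-, -, z', hz⟩ := h.locality hx.1 (h1 x hx) (fun p hp _ => hu p hp)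
  refine ⟨u, hu, h1 x hx, h1 y hy, h1 w hw, fun q hq hq1 => ?_⟩
  exact h.gen z' x (hz x hx.1 (h1 x hx)) y (hz y hy.1 (h1 y hy)) w (hz w hw.1 (h1 w hw)) q
    (hz q hq hq1) n1 n2 n3

theorem del1_ut (u : M3) (t : ℝ) (x y q : ℍ) :
    bil (u - t • crs (vec x) (vec y)) (vec q) = bil u (vec q) - t * ori x y q := by
  rw [bil_sub, bil_smul, bil_crs]
  rfl

theorem del1_quad {a b c : ℝ} (hc : c < 0) : ∃ t : ℝ, 0 ≤ t ∧ a - 2 * t * b + t ^ 2 * c < 0 := by
  have hc' : 0 < -c := by linarith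
  have h0 : 0 ≤ (|a| + 2 * |b|) / (-c) := by positivity
  have h1 : (|a| + 2 * |b|) / (-c) * c = -(|a| + 2 * |b|) := by
    have := div_mul_cancel₀ (|a| + 2 * |b|) hc'.ne'
    linarith
  set r : ℝ := (|a| + 2 * |b|) / (-c) with hr
  refine ⟨r + 1, by linarith, ?_⟩
  have e : (r + 1) ^ 2 * c = (r + 1) * (c - (|a| + 2 * |b|)) := by
    linear_combination (r + 1) * h1
  have a1 : a ≤ |a| := le_abs_self a
  have a2 : -b ≤ |b| := neg_le_abs b
  have a3 : 0 ≤ |a| := abs_nonneg a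
  have a4 : (r + 1) * (-b) ≤ (r + 1) * |b| := mul_le_mul_of_nonneg_left a2 (by linarith)
  have a5 : 0 ≤ r * |a| := mul_nonneg h0 a3
  have a6 : 0 < (r + 1) * (-c) := mul_pos (by linarith) hc'
  rw [e]
  nlinarith

theorem Net.exists_tri (h : Net N δ) (he : Edge N x y) : ∃ w, Tri N x y w := by
  obtain ⟨u, hu, h1, h2⟩ := he.supp
  obtain ⟨hx, hy⟩ := he.mem
  have ex : ∀ t : ℝ, bil (u - t • crs (vec x) (vec y)) (vec x) = 1 := by
    intro t
    rw [del1_ut, ori_self₂, h1]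
    ring
  have ey : ∀ t : ℝ, bil (u - t • crs (vec x) (vec y)) (vec y) = 1 := by
    intro t
    rw [del1_ut, ori_self₃, h2]
    ring
  have hfin : {q | (q ∈ N ∧ dist x q ≤ 6 * δ) ∧ 0 < ori x y q}.Finite :=
    (h.finite_ball x (6 * δ)).subset (fun q hq => hq.1)
  have hne : {q | (q ∈ N ∧ dist x q ≤ 6 * δ) ∧ 0 < ori x y q}.Nonempty := by
    by_contra hcon
    have hn : bil (crs (vec x) (vec y)) (crs (vec x) (vec y)) < 0 := by
      rw [bil_crs_crs, bil_self, bil_self]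
      have := one_lt_bil he.1
      nlinarith
    obtain ⟨t, ht0, ht⟩ := del1_quad (a := bil u u) (b := bil u (crs (vec x) (vec y))) hn
    have hl := (h.locality hx (ex t) (fun p hp hd => by
      rw [del1_ut]
      have a1 : ori x y p ≤ 0 := by
        by_contra a
        exact hcon ⟨p, ⟨hp, hd⟩, not_le.1 a⟩
      have a2 := hu p hp
      have a3 : t * ori x y p ≤ 0 := mul_nonpos_of_nonneg_of_nonpos ht0 a1
      linarith)).1
    rw [bil_sub, bil_smul, del1_bil_sub', del1_bil_sub', del1_bil_smul', del1_bil_smul',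
      bil_comm (crs (vec x) (vec y)) u] at hl
    linarith
  obtain ⟨w, hw, hmin⟩ := Set.exists_min_image _ (fun q => (bil u (vec q) - 1) / ori x y q)
    hfin hne
  have ht0 : 0 ≤ (bil u (vec w) - 1) / ori x y w :=
    div_nonneg (by have := hu w hw.1.1; linarith) hw.2.le
  obtain ⟨-, -, z, hz⟩ := h.locality hx (ex ((bil u (vec w) - 1) / ori x y w)) (fun p hp hd => by
    rw [del1_ut]
    by_cases a : 0 < ori x y p
    · have a1 := hmin p ⟨⟨hp, hd⟩, a⟩
      rw [le_div_iff₀ a] at a1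
      linarith
    · have a2 := hu p hp
      have a3 : (bil u (vec w) - 1) / ori x y w * ori x y p ≤ 0 :=
        mul_nonpos_of_nonneg_of_nonpos ht0 (not_lt.1 a)
      linarith)
  refine ⟨w, hw.2, z, hz x hx (ex _), hz y hy (ey _), hz w hw.1.1 ?_⟩
  rw [del1_ut, div_mul_cancel₀ _ hw.2.ne']
  ring

theorem Net.tri_unique (h : Net N δ) (h1 : Tri N x y w) (h2 : Tri N x y w') : w = w' := by
  obtain ⟨u, hu, ux, uy, uw, huq⟩ := h.tri_supp h1
  obtain ⟨u', hu', ux', uy', uw', -⟩ := h.tri_supp h2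
  have hw : w ∈ N := h1.edge'.mem.2
  have hw' : w' ∈ N := h2.edge'.mem.2
  have c1 := cramer u x y w w'
  have c2 := cramer u' x y w' w
  rw [ux, uy, uw] at c1
  rw [ux', uy', uw'] at c2
  have s1 : ori w y w' = -ori w' y w := by
    rw [← ori_cyc w y w', ori_swap w' y w]
  have s2 : ori x w w' = -ori x w' w := ori_swap' x w' w
  have b1 := hu w' hw'
  have b2 := hu' w hw
  have o1 := h1.1
  have o2 := h2.1
  have a1 : ori x y w' * 1 ≤ ori x y w' * bil u' (vec w) := mul_le_mul_of_nonneg_left b2 o2.le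
  have a2 : ori x y w * bil u (vec w') ≤ ori x y w * 1 := by linarith
  have a3 : bil u (vec w') = 1 := le_antisymm (le_of_mul_le_mul_left a2 o1) b1
  rcases huq w' hw' a3 with e | e | e
  · exact absurd e.symm h2.edge'.1
  · exact absurd e.symm h2.cyc.edge.1
  · exact e.symm

end Pool.Agent.MC.Ge
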