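import Pool.Agent.P.MP_2677b3_gt.GeDel1

open UpperHalfPlane Equiv
open scoped MatrixGroups

noncomputable section

namespace Pool.Agent.MC.Ge

variable {N : Set ℍ} {δ : ℝ} {o x y y' w : ℍ}

theorem Net.step (h : Net N δ) (ht : Tri N x y w) (he : Edge N x y') (hne : y ≠ y')
    (ho : 0 ≤ ori x y y') : w = y' ∨ 0 < ori x w y' := by
  by_contra hcon
  rw [not_or, not_lt] at hcon
  obtain ⟨hw, hle⟩ := hcon
  obtain ⟨u, hu, hx1, hy1, hw1, hall⟩ := h.tri_supp ht
  obtain ⟨u', hu', hx2, hy2⟩ := he.supp
  have hD : 0 < ori x y w := ht.1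
  have ha : 0 ≤ ori x y' w := by rw [ori_swap']; linarith
  have c1 := cramer u x y w y'
  have c2 := cramer u' x y w y'
  rw [hx1, hy1, hw1] at c1
  rw [hx2, hy2] at c2
  have hyN : y ∈ N := ht.edge.mem.2
  have hwN : w ∈ N := ht.edge'.mem.2
  have hy'N : y' ∈ N := he.mem.2
  have p1 := mul_nonneg ha (sub_nonneg.2 (hu' y hyN))
  have p2 := mul_nonneg ho (sub_nonneg.2 (hu' w hwN))
  have p3 : ori x y w * (bil u (vec y') - 1) ≤ 0 := by nlinarith
  have p4 : bil u (vec y') ≤ 1 := by
    by_contra hlt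
    rw [not_le] at hlt
    have := mul_pos hD (sub_pos.2 hlt)
    linarith
  rcases hall y' hy'N (le_antisymm p4 (hu y' hy'N)) with e | e | e
  · exact he.1 e.symm
  · exact hne e.symm
  · exact hw e.symm

theorem Net.lower_between (h : Net N δ) (ht : Tri N x y w) (he : Edge N x y')
    (h1 : 0 < ori x y y') (h2 : 0 < ori x w y') (hy : dist o y ≤ dist o x)
    (hy' : dist o y' ≤ dist o x) : dist o w < dist o x := by
  obtain ⟨u, hu, hx1, hy1, hw1, hall⟩ := h.tri_supp ht
  have hy'N : y' ∈ N := he.mem.2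
  have hU : 1 < bil u (vec y') := by
    refine lt_of_le_of_ne (hu y' hy'N) fun e => ?_
    rcases hall y' hy'N e.symm with e | e | e
    · exact he.1 e.symm
    · rw [e, ori_self₃] at h1; exact lt_irrefl _ h1
    · rw [e, ori_self₃] at h2; exact lt_irrefl _ h2
  have hb : 0 < ori x y w := ht.1
  have c1 := cramer u x y y' w
  have c2 := cramer (vec o) x y y' w
  rw [hx1, hy1, hw1] at c1
  rw [← bil_le_iff] at hy hy'
  rw [← bil_lt_iff]
  have hc : 1 ≤ bil (vec o) (vec x) := one_le_bil o x
  set c := bil (vec o) (vec x)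
  have p1 := mul_nonneg h2.le (sub_nonneg.2 hy)
  have p2 : 0 < c * bil u (vec y') - bil (vec o) (vec y') := by nlinarith
  have p3 := mul_pos hb p2
  have p4 : ori x y y' * (c - bil (vec o) (vec w)) =
      ori x w y' * (c - bil (vec o) (vec y)) +
        ori x y w * (c * bil u (vec y') - bil (vec o) (vec y')) := by
    linear_combination c * c1 - c2
  have p5 : 0 < ori x y y' * (c - bil (vec o) (vec w)) := by rw [p4]; linarith
  have := (mul_pos_iff_of_pos_left h1).1 p5
  linarith

theorem Net.lower_ori (h : Net N δ) (he : Edge N x y) (he' : Edge N x y') (hne : y ≠ y')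
    (hy : dist o y ≤ dist o x) (hy' : dist o y' ≤ dist o x) : ori x y y' ≠ 0 := by
  intro h0
  obtain ⟨w, ht⟩ := h.exists_tri he
  have hD : 0 < ori x y w := ht.1
  obtain ⟨u, hu, hx1, hy1⟩ := he.supp
  obtain ⟨u', hu', hx2, hy2⟩ := he'.supp
  have hyN : y ∈ N := he.mem.2
  have hy'N : y' ∈ N := he'.mem.2
  have c1 := cramer u x y w y'
  have c2 := cramer u' x y w y'
  have c3 := cramer (vec o) x y w y'
  have c4 := cramer (vec x) x y w y'
  rw [h0, hx1, hy1] at c1
  rw [h0, hx2, hy2] at c2
  rw [h0] at c3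
  rw [h0, bil_self] at c4
  rw [← bil_le_iff] at hy hy'
  have hc : 1 ≤ bil (vec o) (vec x) := one_le_bil o x
  set c := bil (vec o) (vec x)
  have g1 : 1 < bil (vec x) (vec y) := one_lt_bil he.1
  have g2 : 1 < bil (vec x) (vec y') := one_lt_bil he'.1
  have m1 : 0 < c * bil (vec x) (vec y) - bil (vec o) (vec y) := by nlinarith
  have m2 : 0 < c * bil (vec x) (vec y') - bil (vec o) (vec y') := by nlinarith
  have p1 : ori x y w * (c * bil (vec x) (vec y') - bil (vec o) (vec y')) =
      ori x y' w * (c * bil (vec x) (vec y) - bil (vec o) (vec y)) := by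
    linear_combination c * c4 - c3
  have ha : 0 < ori x y' w := by
    have := mul_pos hD m2
    rw [p1] at this
    exact (mul_pos_iff_of_pos_right m1).1 this
  have p2 := mul_nonneg ha.le (sub_nonneg.2 (hu' y hyN))
  have p3 : ori x y w * (bil u (vec y') - 1) ≤ 0 := by nlinarith
  have p4 : bil u (vec y') ≤ 1 := by
    by_contra hlt
    rw [not_le] at hlt
    have := mul_pos hD (sub_pos.2 hlt)
    linarith
  exact ori_ne hx1 hy1 (le_antisymm p4 (hu y' hy'N)) he.1 he'.1 hne h0

theorem geDel2_plue (x y w y' q : ℍ) :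
    ori x w y' * ori x y q = ori x y w * ori x q y' + ori x y y' * ori x w q := by
  have c := cramer (crs (vec x) (vec y)) x w y' q
  simp only [bil_crs] at c
  change ori x w y' * ori x y q = ori q w y' * ori x y x + ori x q y' * ori x y w +
    ori x w q * ori x y y' at c
  rw [ori_self₂] at c
  linear_combination c

theorem Net.chain (h : Net N δ) (Q : ℍ → Prop)
    (hQ : ∀ a b, Q a → Tri N x a b → 0 < ori x a y' → 0 < ori x b y' → Q b)
    (he : Edge N x y) (he' : Edge N x y') (hy : Q y) (hy' : Q y') (ho : 0 < ori x y y') :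
    Relation.ReflTransGen (fun a b => Q a ∧ Q b ∧ Tri N x a b) y y' := by
  have hfin : ∀ y : ℍ, {q | Edge N x q ∧ 0 < ori x y q ∧ 0 < ori x q y'}.Finite := fun y =>
    (h.finite_ball x (4 * δ)).subset fun q hq => ⟨hq.1.mem.2, h.edge_dist hq.1⟩
  induction hn : {q | Edge N x q ∧ 0 < ori x y q ∧ 0 < ori x q y'}.ncard
    using Nat.strong_induction_on generalizing y with
  | _ n ih =>
    obtain ⟨w, ht⟩ := h.exists_tri he
    have hne : y ≠ y' := by
      rintro rfl
      rw [ori_self₃] at ho
      exact lt_irrefl _ ho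
    rcases h.step ht he' hne ho.le with e | hw
    · subst e
      exact Relation.ReflTransGen.single ⟨hy, hy', ht⟩
    · have hQw : Q w := hQ y w hy ht ho hw
      refine Relation.ReflTransGen.head ⟨hy, hQw, ht⟩ ?_
      refine ih _ ?_ ht.edge' hQw hw rfl
      rw [← hn]
      refine Set.ncard_lt_ncard ⟨?_, ?_⟩ (hfin y)
      · rintro q ⟨hq, hq1, hq2⟩
        refine ⟨hq, ?_, hq2⟩
        have p := geDel2_plue x y w y' q
        have p1 := mul_pos ht.1 hq2
        have p2 := mul_pos ho hq1
        have p3 : 0 < ori x w y' * ori x y q := by rw [p]; linarith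
        exact (mul_pos_iff_of_pos_left hw).1 p3
      · intro hsub
        have hm : w ∈ {q | Edge N x q ∧ 0 < ori x y q ∧ 0 < ori x q y'} := ⟨ht.edge', ht.1, hw⟩
        have := (hsub hm).2.1
        rw [ori_self₃] at this
        exact lt_irrefl _ this

theorem Net.geDel2_chain (h : Net N δ) (he : Edge N x y) (he' : Edge N x y')
    (ho : 0 < ori x y y') : Relation.ReflTransGen (Tri N x) y y' := by
  have hc := h.chain (fun _ => True) (fun _ _ _ _ _ _ => trivial) he he' trivial trivial ho
  clear he he' ho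
  induction hc with
  | refl => exact Relation.ReflTransGen.refl
  | tail _ hab ih => exact Relation.ReflTransGen.tail ih hab.2.2

/-- The link of a vertex is connected. -/
theorem Net.link_conn (h : Net N δ) (he : Edge N x y) (he' : Edge N x y') :
    Relation.ReflTransGen (Tri N x) y y' ∨ Relation.ReflTransGen (Tri N x) y' y := by
  by_cases hne : y = y'
  · subst hne
    exact Or.inl Relation.ReflTransGen.refl
  rcases lt_trichotomy 0 (ori x y y') with ho | ho | ho
  · exact Or.inl (h.geDel2_chain he he' ho)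
  · obtain ⟨w, ht⟩ := h.exists_tri he
    rcases h.step ht he' hne ho.le with e | hw
    · subst e
      exact Or.inl (Relation.ReflTransGen.single ht)
    · exact Or.inl (Relation.ReflTransGen.head ht (h.geDel2_chain ht.edge' he' hw))
  · refine Or.inr (h.geDel2_chain he' he ?_)
    rw [ori_swap']
    linarith

/-- Greedy routing. -/
theorem Net.greedy (h : Net N δ) (hx : x ∈ N) (ho : o ∈ N) (hne : x ≠ o) :
    ∃ y, Edge N x y ∧ dist o y < dist o x := by
  have hc : 1 < bil (vec o) (vec x) := one_lt_bil hne.symm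
  set c := bil (vec o) (vec x) with hcd
  have hc0 : 0 < c := by linarith
  have hT : {p | p ∈ N ∧ dist o p < dist o x}.Finite :=
    (h.finite_ball o (dist o x)).subset fun p hp => ⟨hp.1, hp.2.le⟩
  have hoT : o ∈ {p | p ∈ N ∧ dist o p < dist o x} :=
    ⟨ho, by rw [dist_self]; exact dist_pos.2 hne.symm⟩
  have hAB : ∀ p ∈ {p | p ∈ N ∧ dist o p < dist o x},
      1 < bil (vec x) (vec p) ∧ bil (vec o) (vec p) / c < 1 := by
    intro p hp
    refine ⟨one_lt_bil ?_, ?_⟩
    · rintro rfl
      exact lt_irrefl _ hp.2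
    · rw [div_lt_one hc0, hcd, bil_lt_iff]
      exact hp.2
  obtain ⟨y, hyT, hmin⟩ := Set.exists_min_image _
    (fun p => (bil (vec x) (vec p) - 1) / (bil (vec x) (vec p) - bil (vec o) (vec p) / c))
    hT ⟨o, hoT⟩
  obtain ⟨hA, hB⟩ := hAB y hyT
  set s := (bil (vec x) (vec y) - 1) / (bil (vec x) (vec y) - bil (vec o) (vec y) / c) with hs
  have hden : 0 < bil (vec x) (vec y) - bil (vec o) (vec y) / c := by linarith
  have hs0 : 0 < s := div_pos (by linarith) hden
  have hs1 : s < 1 := by rw [hs, div_lt_one hden]; linarith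
  have hval : ∀ p : ℍ, bil ((1 - s) • vec x + (s / c) • vec o) (vec p) =
      bil (vec x) (vec p) - s * (bil (vec x) (vec p) - bil (vec o) (vec p) / c) := by
    intro p
    rw [bil_add, bil_smul, bil_smul]
    ring
  have hsupp : Supp N ((1 - s) • vec x + (s / c) • vec o) := by
    intro p hp
    rw [hval]
    by_cases hlt : dist o p < dist o x
    · obtain ⟨hA', hB'⟩ := hAB p ⟨hp, hlt⟩
      have hden' : 0 < bil (vec x) (vec p) - bil (vec o) (vec p) / c := by linarith
      have := hmin p ⟨hp, hlt⟩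
      rw [le_div_iff₀ hden'] at this
      linarith
    · rw [not_lt, ← bil_le_iff, ← hcd] at hlt
      have hB' : 1 ≤ bil (vec o) (vec p) / c := (one_le_div hc0).2 hlt
      have hA' := one_le_bil x p
      nlinarith
  refine ⟨y, h.edge_of_supp hsupp hx hyT.1 ?_ ?_ ?_, hyT.2⟩
  · rw [hval, bil_self, ← hcd, div_self hc0.ne']
    ring
  · rw [hval, hs, div_mul_cancel₀ _ hden.ne']
    ring
  · rintro rfl
    exact lt_irrefl _ hyT.2

end Pool.Agent.MC.Ge
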