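import Pool.Agent.P.MP_2677b3_gt.GePack

open UpperHalfPlane Equiv
open scoped MatrixGroups

noncomputable section

namespace Pool.Agent.MC.Ge

theorem disp_det (A : SL(2, ℝ)) : A 0 0 * A 1 1 - A 0 1 * A 1 0 = 1 := by
  have := A.det_coe
  rwa [Matrix.det_fin_two] at this

theorem disp_re_im (A : SL(2, ℝ)) (z : ℍ) :
    0 < (A 1 0 * z.re + A 1 1) ^ 2 + (A 1 0 * z.im) ^ 2 ∧
    (A • z).re = ((A 0 0 * z.re + A 0 1) * (A 1 0 * z.re + A 1 1) + A 0 0 * A 1 0 * z.im ^ 2) /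
      ((A 1 0 * z.re + A 1 1) ^ 2 + (A 1 0 * z.im) ^ 2) ∧
    (A • z).im = z.im / ((A 1 0 * z.re + A 1 1) ^ 2 + (A 1 0 * z.im) ^ 2) := by
  have hd := disp_det A
  have hy := z.im_pos
  have hN : 0 < (A 1 0 * z.re + A 1 1) ^ 2 + (A 1 0 * z.im) ^ 2 := by
    by_cases hc : A 1 0 = 0
    · have h1 : A 1 1 ≠ 0 := fun h => by
        rw [hc, h] at hd
        simp at hd
      rw [hc]
      simpa using sq_pos_of_ne_zero h1
    · have := sq_pos_of_ne_zero (mul_ne_zero hc hy.ne')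
      positivity
  have h := coe_specialLinearGroup_apply A z
  simp only [Algebra.algebraMap_self, RingHom.id_apply] at h
  have hn : Complex.normSq ((A 1 0 : ℂ) * z + (A 1 1 : ℂ)) =
      (A 1 0 * z.re + A 1 1) ^ 2 + (A 1 0 * z.im) ^ 2 := by
    simp [Complex.normSq_apply, sq]
  refine ⟨hN, ?_, ?_⟩
  · rw [← coe_re, h, Complex.div_re, hn, ← add_div]
    congr 1
    simp
    ring
  · rw [← coe_im, h, Complex.div_im, hn, ← sub_div]
    congr 1
    simp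
    linear_combination z.im * hd

/-- The displacement of a Moebius map. -/
theorem disp_formula (A : SL(2, ℝ)) (z : ℍ) :
    2 * (Real.cosh (dist z (A • z)) - 1) =
      ((A 1 0 * (z.re ^ 2 + z.im ^ 2) + (A 1 1 - A 0 0) * z.re - A 0 1) / z.im) ^ 2 +
        ((A 0 0 + A 1 1) ^ 2 - 4) := by
  obtain ⟨hN, h1, h2⟩ := disp_re_im A z
  have hd := disp_det A
  have hy := z.im_pos
  rw [cosh_dist', h1, h2]
  generalize A 0 0 = a at *
  generalize A 0 1 = b at *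
  generalize A 1 0 = c at *
  generalize A 1 1 = d at *
  generalize z.re = x at *
  generalize z.im = y at *
  obtain ⟨N, hN'⟩ : ∃ N, N = (c * x + d) ^ 2 + (c * y) ^ 2 := ⟨_, rfl⟩
  obtain ⟨P, hP⟩ : ∃ P, P = (a * x + b) * (c * x + d) + a * c * y ^ 2 := ⟨_, rfl⟩
  obtain ⟨β, hβ⟩ : ∃ β, β = c * (x ^ 2 + y ^ 2) + (d - a) * x - b := ⟨_, rfl⟩
  have key : (x * N - P) ^ 2 + y ^ 2 * (N - 1) ^ 2 = N * (β ^ 2 + ((a + d) ^ 2 - 4) * y ^ 2) := by
    rw [hN', hP, hβ]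
    linear_combination
      (y ^ 2 * (-2 * ((c * x + d) ^ 2 + (c * y) ^ 2) - 1 - (a * d - b * c))) * hd
  rw [← hN'] at hN ⊢
  rw [← hP, ← hβ]
  calc _ = ((x * N - P) ^ 2 + y ^ 2 * (N - 1) ^ 2) / (N * y ^ 2) := by
        field_simp
        ring
    _ = _ := by
        rw [key]
        field_simp

theorem disp_at (A : SL(2, ℝ)) (x : ℝ) {y : ℝ} (hy : 0 < y) : ∃ z : ℍ,
    2 * (Real.cosh (dist z (A • z)) - 1) =
      ((A 1 0 * (x ^ 2 + y ^ 2) + (A 1 1 - A 0 0) * x - A 0 1) / y) ^ 2 +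
        ((A 0 0 + A 1 1) ^ 2 - 4) :=
  ⟨⟨⟨x, y⟩, hy⟩, disp_formula A _⟩

theorem disp_small {a b c d τ : ℝ} (hd : a * d - b * c = 1) (hτ : 0 < τ)
    (h : (a + d) ^ 2 - 4 < τ) : ∃ x y : ℝ, 0 < y ∧
      ((c * (x ^ 2 + y ^ 2) + (d - a) * x - b) / y) ^ 2 + ((a + d) ^ 2 - 4) < τ := by
  obtain ⟨Δ, hΔ⟩ : ∃ Δ, Δ = (a + d) ^ 2 - 4 := ⟨_, rfl⟩
  rw [← hΔ] at h ⊢
  by_cases hc : c = 0
  · subst hc
    by_cases had : d - a = 0
    · have hη : 0 < τ - Δ := by linarith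
      have h1 : 0 ≤ b ^ 2 / (τ - Δ) := by positivity
      obtain ⟨y, hy⟩ : ∃ y, y = b ^ 2 / (τ - Δ) + 1 := ⟨_, rfl⟩
      have h2 : 0 < y := by linarith
      refine ⟨0, y, h2, ?_⟩
      have h3 : b ^ 2 = (y - 1) * (τ - Δ) := by
        rw [hy]
        field_simp
        ring
      rw [had, ← lt_sub_iff_add_lt, div_pow, div_lt_iff₀ (by positivity)]
      have h4 : y - 1 < y ^ 2 := by nlinarith
      nlinarith
    · refine ⟨b / (d - a), 1, one_pos, ?_⟩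
      rw [mul_div_cancel₀ _ had]
      simpa using h
  · obtain ⟨s, hs, h1⟩ : ∃ s : ℝ, 0 < s ∧ (s - Δ) ^ 2 / (4 * s) + Δ < τ := by
      rcases lt_trichotomy Δ 0 with h1 | h1 | h1
      · refine ⟨-Δ, by linarith, ?_⟩
        have : (-Δ - Δ) ^ 2 / (4 * -Δ) + Δ = 0 := by
          have := h1.ne
          field_simp
          ring
        rwa [this]
      · refine ⟨τ, hτ, ?_⟩
        have : (τ - Δ) ^ 2 / (4 * τ) + Δ = τ / 4 := by
          rw [h1]
          field_simp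
          ring
        rw [this]
        linarith
      · exact ⟨Δ, h1, by simpa using h⟩
    have hc' : 0 < |c| := abs_pos.2 hc
    obtain ⟨y, hy⟩ : ∃ y, y = √s / (2 * |c|) := ⟨_, rfl⟩
    have h2 : 0 < y := by
      rw [hy]
      positivity
    have h3 : s = 4 * c ^ 2 * y ^ 2 := by
      rw [hy, div_pow, mul_pow, sq_abs, Real.sq_sqrt hs.le]
      field_simp
      ring
    refine ⟨(a - d) / (2 * c), y, h2, lt_of_eq_of_lt ?_ h1⟩
    have h4 : c * (((a - d) / (2 * c)) ^ 2 + y ^ 2) + (d - a) * ((a - d) / (2 * c)) - b =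
        (s - Δ) / (4 * c) := by
      rw [h3, hΔ]
      field_simp
      linear_combination (16 : ℝ) * hd
    rw [h4]
    congr 1
    rw [div_div, div_pow]
    congr 1
    rw [h3]
    ring

/-- A map that moves every point by at least `ε` is hyperbolic, quantitatively. -/
theorem tr_big {ε : ℝ} (hε : 0 < ε) (A : SL(2, ℝ)) (h : ∀ z : ℍ, ε ≤ dist z (A • z)) :
    2 * (Real.cosh ε - 1) ≤ (A 0 0 + A 1 1) ^ 2 - 4 := by
  by_contra hc
  have hτ : 0 < 2 * (Real.cosh ε - 1) := by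
    have := Real.one_lt_cosh.2 hε.ne'
    linarith
  obtain ⟨x, y, hy, h1⟩ := disp_small (disp_det A) hτ (not_le.1 hc)
  obtain ⟨z, hz⟩ := disp_at A x hy
  have h2 : Real.cosh ε ≤ Real.cosh (dist z (A • z)) := by
    rw [Real.cosh_le_cosh, abs_of_pos hε, abs_of_nonneg dist_nonneg]
    exact h z
  linarith

theorem disp_zero {p M : ℝ} (h : ∀ t : ℝ, 0 < t → p ^ 2 * t ^ 2 ≤ M) : p = 0 := by
  by_contra hp
  have h1 : 0 < p ^ 2 := sq_pos_of_ne_zero hp
  have h2 : 0 ≤ M := le_trans (by positivity) (h 1 one_pos)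
  have h3 : 0 ≤ M / p ^ 2 := by positivity
  have h4 := h (M / p ^ 2 + 1) (by positivity)
  have h5 : p ^ 2 * (M / p ^ 2) = M := by field_simp
  nlinarith [mul_nonneg h1.le (sq_nonneg (M / p ^ 2))]

theorem disp_fix (A : SL(2, ℝ)) {K : ℝ} (h : ∀ z : ℍ, dist z (A • z) ≤ K) (z : ℍ) :
    A • z = z := by
  obtain ⟨M, hM⟩ : ∃ M : ℝ, ∀ x y : ℝ, 0 < y →
      ((A 1 0 * (x ^ 2 + y ^ 2) + (A 1 1 - A 0 0) * x - A 0 1) / y) ^ 2 ≤ M := by
    refine ⟨2 * (Real.cosh K - 1) - ((A 0 0 + A 1 1) ^ 2 - 4), fun x y hy => ?_⟩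
    obtain ⟨w, hw⟩ := disp_at A x hy
    have h2 : Real.cosh (dist w (A • w)) ≤ Real.cosh K := by
      rw [Real.cosh_le_cosh, abs_of_nonneg dist_nonneg]
      exact (h w).trans (le_abs_self K)
    linarith
  have h1 : ∀ t : ℝ, 0 < t →
      A 1 0 ^ 2 * t ^ 2 + A 0 1 ^ 2 * t⁻¹ ^ 2 ≤ M + 2 * (A 1 0 * A 0 1) := fun t ht => by
    have h2 := hM 0 t ht
    have h3 : ((A 1 0 * (0 ^ 2 + t ^ 2) + (A 1 1 - A 0 0) * 0 - A 0 1) / t) ^ 2 =
        A 1 0 ^ 2 * t ^ 2 + A 0 1 ^ 2 * t⁻¹ ^ 2 - 2 * (A 1 0 * A 0 1) := by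
      field_simp
      ring
    linarith
  have hc : A 1 0 = 0 := disp_zero fun t ht =>
    le_trans (le_add_of_nonneg_right (by positivity)) (h1 t ht)
  have hb : A 0 1 = 0 := disp_zero (M := M + 2 * (A 1 0 * A 0 1)) fun t ht => by
    have h2 := h1 t⁻¹ (inv_pos.2 ht)
    rw [inv_inv] at h2
    exact le_trans (le_add_of_nonneg_left (by positivity)) h2
  have had : A 1 1 - A 0 0 = 0 := disp_zero (M := M) fun t _ => by
    have h2 := hM t 1 one_pos
    rw [hc, hb] at h2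
    simpa [mul_pow] using h2
  have hd := disp_det A
  have h2 := disp_formula A z
  rw [hc, hb, had] at h2
  rw [hb] at hd
  have h3 : Real.cosh (dist z (A • z)) ≤ 1 := by
    have h4 : A 1 1 = A 0 0 := by linarith
    rw [h4] at h2 hd
    simp only [zero_mul, add_zero, sub_zero, zero_div] at h2 hd
    nlinarith
  by_contra h4
  exact absurd (Real.one_lt_cosh.2 (dist_ne_zero.2 (Ne.symm h4))) (not_lt.2 h3)

/-- A cocompact group is not commutative. -/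
theorem not_comm {G : Subgroup (Perm ℍ)} {ε : ℝ} (hG : Fuchs G ε) :
    ∃ a b : G, a * b ≠ b * a := by
  by_contra hc
  push Not at hc
  obtain ⟨R, hR⟩ := hG.cocpt
  have key : ∀ g ∈ G, ∀ z, g z = z := fun g hg z => by
    obtain ⟨A, hA⟩ := hG.mob g hg
    rw [hA]
    refine disp_fix A (K := 2 * R + dist I (g I)) (fun w => ?_) z
    obtain ⟨k, hk, h1⟩ := hR w
    have h2 : k (g w) = g (k w) :=
      congrArg (fun p : G => (p : Perm ℍ) w) (hc ⟨k, hk⟩ ⟨g, hg⟩)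
    rw [← hA, ← fuchs_dist hG hk, h2]
    have h3 := dist_triangle4 (k w) I (g I) (g (k w))
    rw [fuchs_dist hG hg I (k w), dist_comm I (k w)] at h3
    linarith
  obtain ⟨w, hw⟩ := exists_far I R
  obtain ⟨g, hg, h1⟩ := hR w
  rw [key g hg, dist_comm] at h1
  linarith

end Pool.Agent.MC.Ge
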