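import Pool.Agent.P.MP_2677b3_gt.GeDel2

open UpperHalfPlane Equiv
open scoped MatrixGroups

noncomputable section

namespace Pool.Agent.MC.Ge

variable {N : Set ℍ} {δ : ℝ}

theorem geMorse_key (h : Net N δ) (o : ℍ) :
    ∃ κ : ℍ → ℕ, (∀ x ∈ N, ∀ y, dist o x < dist o y → κ x < κ y) ∧
      ∀ x ∈ N, ∀ y ∈ N, x ≠ y → κ x < κ y ∨ κ y < κ x := by
  let r : ℍ → ℍ → Prop := fun x y =>
    dist o x < dist o y ∨ (dist o x = dist o y ∧ WellOrderingRel x y)
  have hirr : ∀ x, ¬ r x x := fun x hx => by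
    rcases hx with hx | hx
    · exact lt_irrefl _ hx
    · exact irrefl_of WellOrderingRel x hx.2
  have htr : ∀ x y z, r x y → r y z → r x z := by
    rintro x y z (h1 | h1) (h2 | h2)
    · exact Or.inl (h1.trans h2)
    · exact Or.inl (h1.trans_eq h2.1)
    · exact Or.inl (h1.1.trans_lt h2)
    · exact Or.inr ⟨h1.1.trans h2.1, trans_of WellOrderingRel h1.2 h2.2⟩
  have hlt : ∀ x ∈ N, ∀ y, r x y →
      {p | p ∈ N ∧ r p x}.ncard < {p | p ∈ N ∧ r p y}.ncard := by
    intro x hx y hxy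
    refine Set.ncard_lt_ncard ⟨fun p hp => ⟨hp.1, htr _ _ _ hp.2 hxy⟩, fun hs => ?_⟩ ?_
    · exact hirr x (hs ⟨hx, hxy⟩).2
    · refine (h.finite_ball o (dist o y)).subset fun p hp => ⟨hp.1, ?_⟩
      rcases hp.2 with h1 | h1
      · exact h1.le
      · exact h1.1.le
  refine ⟨fun x => {p | p ∈ N ∧ r p x}.ncard, fun x hx y hxy => hlt x hx y (Or.inl hxy),
    fun x hx y hy hne => ?_⟩
  rcases lt_trichotomy (dist o x) (dist o y) with h1 | h1 | h1
  · exact Or.inl (hlt x hx y (Or.inl h1))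
  · rcases trichotomous_of WellOrderingRel x y with h2 | h2 | h2
    · exact Or.inl (hlt x hx y (Or.inr ⟨h1, h2⟩))
    · exact absurd h2 hne
    · exact Or.inr (hlt y hy x (Or.inr ⟨h1.symm, h2⟩))
  · exact Or.inr (hlt y hy x (Or.inl h1))

theorem geMorse_rec {α Γ : Type} (κ : α → ℕ) (S : α → Prop) (par : α → α)
    (hpar : ∀ x, S x → κ (par x) < κ x) (g : α → Γ → Γ) (c : Γ) :
    ∃ Φ : α → Γ, ∀ x, S x → Φ x = g x (Φ (par x)) := by
  classical
  refine ⟨(measure κ).wf.fix fun x IH => if h : S x then g x (IH (par x) (hpar x h)) else c,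
    fun x hx => ?_⟩
  rw [WellFounded.fix_eq, dif_pos hx]

/-- The Delaunay complex is simply connected. -/
theorem Net.potential (h : Net N δ) {Γ : Type} [Group Γ] (ω : ℍ → ℍ → Γ)
    (h1 : ∀ x y, Edge N x y → ω y x = (ω x y)⁻¹)
    (h2 : ∀ x y w, Tri N x y w → ω x y * ω y w = ω x w) :
    ∃ Φ : ℍ → Γ, ∀ x y, Edge N x y → Φ y = Φ x * ω x y := by
  obtain ⟨o, ho, -⟩ := h.dense I
  obtain ⟨κ, hκ, hκ'⟩ := geMorse_key h o
  have hgr : ∀ x : ℍ, ∃ y, x ∈ N ∧ x ≠ o → Edge N x y ∧ dist o y < dist o x := fun x => by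
    by_cases hx : x ∈ N ∧ x ≠ o
    · obtain ⟨y, hy⟩ := h.greedy hx.1 ho hx.2
      exact ⟨y, fun _ => hy⟩
    · exact ⟨x, fun hx' => absurd hx' hx⟩
  choose par hpar using hgr
  obtain ⟨Φ, hΦ⟩ := geMorse_rec κ (fun x => x ∈ N ∧ x ≠ o) par
    (fun x hx => hκ _ (hpar x hx).1.mem.2 _ (hpar x hx).2) (fun x a => a * ω (par x) x) (1 : Γ)
  have hboth : ∀ a b, Edge N a b → (κ a < κ b → Φ b = Φ a * ω a b) →
      (κ b < κ a → Φ a = Φ b * ω b a) → Φ b = Φ a * ω a b := by
    intro a b hab h3 h4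
    rcases hκ' a hab.mem.1 b hab.mem.2 hab.1 with h5 | h5
    · exact h3 h5
    · rw [h4 h5, h1 a b hab, inv_mul_cancel_right]
  have main : ∀ n x, κ x = n → ∀ y, Edge N x y → κ y < κ x → Φ x = Φ y * ω y x := by
    intro n
    induction n using Nat.strong_induction_on with
    | _ n IH =>
      rintro x rfl y hxy hlt
      have hx := hxy.mem.1
      have hle : ∀ a, κ a < κ x → dist o a ≤ dist o x := fun a ha =>
        not_lt.1 fun h3 => absurd (hκ x hx a h3) ha.not_gt
      have hxo : x ≠ o := by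
        rintro rfl
        have h3 := hle y hlt
        rw [dist_self] at h3
        exact hxy.1 (dist_le_zero.1 h3)
      obtain ⟨h3, h4⟩ := hpar x ⟨hx, hxo⟩
      have h5 : κ (par x) < κ x := hκ _ h3.mem.2 _ h4
      have hchain : ∀ a b, Edge N x a → κ a < κ x → Edge N x b → κ b < κ x → 0 < ori x a b →
          Φ a * ω a x = Φ b * ω b x := by
        intro a b ha ha' hb hb' hab
        have h6 := h.chain (fun q => Edge N x q ∧ κ q < κ x)
          (fun p q hp ht h7 h8 => ⟨ht.edge', hκ _ ht.edge'.mem.2 _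
            (h.lower_between ht hb h7 h8 (hle p hp.2) (hle b hb'))⟩) ha hb ⟨ha, ha'⟩ ⟨hb, hb'⟩ hab
        clear hb hb' hab
        induction h6 with
        | refl => rfl
        | @tail p q _ h7 ih =>
          obtain ⟨hp, hq, ht⟩ := h7
          have h8 : Edge N p q := ht.cyc.edge
          have h9 := hboth p q h8 (IH _ hq.2 q rfl p h8.symm) (IH _ hp.2 p rfl q h8)
          rw [ih, h9, h1 x p hp.1, h1 x q hq.1, ← h2 x p q ht]
          group
      rw [hΦ x ⟨hx, hxo⟩]
      by_cases h6 : y = par x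
      · rw [h6]
      rcases lt_or_gt_of_ne (h.lower_ori hxy h3 h6 (hle y hlt) h4.le) with h7 | h7
      · refine hchain _ _ h3 h5 hxy hlt ?_
        rw [ori_swap']
        exact neg_pos.2 h7
      · exact (hchain _ _ hxy hlt h3 h5 h7).symm
  exact ⟨Φ, fun x y hxy => hboth x y hxy (main _ y rfl x hxy.symm) (main _ x rfl y hxy)⟩

/-- A function that is constant along the edges issuing from a ball centred at a net point is
constant on the net points of the ball. -/
theorem Net.const_ball (h : Net N δ) {β : Type} (Φ : ℍ → β) {o : ℍ} (ho : o ∈ N) (ρ : ℝ)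
    (hΦ : ∀ x y, Edge N x y → dist o x ≤ ρ → Φ x = Φ y) {x : ℍ} (hx : x ∈ N)
    (hd : dist o x ≤ ρ) : Φ x = Φ o := by
  obtain ⟨κ, hκ, -⟩ := geMorse_key h o
  have main : ∀ n x, κ x = n → x ∈ N → dist o x ≤ ρ → Φ x = Φ o := by
    intro n
    induction n using Nat.strong_induction_on with
    | _ n IH =>
      rintro x rfl hx hd
      by_cases hxo : x = o
      · rw [hxo]
      obtain ⟨y, h1, h2⟩ := h.greedy hx ho hxo
      rw [hΦ x y h1 hd]
      exact IH _ (hκ y h1.mem.2 x h2) y rfl h1.mem.2 (h2.le.trans hd)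
  exact main _ x rfl hx hd

/-- A function that is constant along the edges outside a ball is constant outside a larger
ball. -/
theorem Net.const_far (h : Net N δ) {f : ℝ → ℝ} (hf : Ext f) {β : Type} [Nonempty β]
    (Φ : ℍ → β) (o : ℍ) (ρ : ℝ) (hΦ : ∀ x y, Edge N x y → ρ < dist o x → Φ x = Φ y) :
    ∃ k, ∀ x ∈ N, f (ρ + 7 * δ) < dist o x → Φ x = k := by
  obtain ⟨E, hE, h1, h2⟩ := hf o (ρ + 7 * δ)
  choose n hn hn' using h.dense
  have hloc : ∀ z ∈ E, ∀ p ∈ N, dist z p ≤ 3 * δ → Φ p = Φ (n z) := by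
    intro z hz p hp hzp
    refine h.const_ball Φ (hn z) (5 * δ) (fun x y hxy hd => hΦ x y hxy ?_) hp ?_
    · have h3 := h1 z hz
      have h4 := hn' z
      have h5 := dist_triangle4 o x (n z) z
      rw [dist_comm x, dist_comm (n z) z] at h5
      linarith
    · have h4 := hn' z
      have h5 := dist_triangle_left (n z) p z
      linarith
  rcases E.eq_empty_or_nonempty with h0 | ⟨z₀, hz₀⟩
  · refine ⟨Classical.arbitrary β, fun x _ hx => ?_⟩
    have h3 := h2 x hx
    rw [h0] at h3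
    exact h3.elim
  refine ⟨Φ (n z₀), fun x hx hd => ?_⟩
  have h3 := h2 x hd
  have hδ := h.pos
  rw [hloc x h3 x hx (by rw [dist_self]; linarith)]
  refine hE.induction₂' (fun z w => Φ (n z) = Φ (n w)) (fun z hz => ?_)
    (fun _ _ _ _ _ _ h4 h5 => h4.trans h5) h3 hz₀
  filter_upwards [mem_nhdsWithin_of_mem_nhds (Metric.ball_mem_nhds z hδ)] with w hw
  have h4 : Φ (n w) = Φ (n z) := by
    refine hloc z hz _ (hn w) ?_
    have h5 := hn' w
    have h6 := dist_triangle_left z (n w) w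
    have h7 : dist w z < δ := hw
    linarith
  exact ⟨h4.symm, h4⟩

end Pool.Agent.MC.Ge
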