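import Pool.Agent.P.MP_2677b3_gt.GeUp
import Pool.Agent.P.MP_2677b3_gt.GeMorse

open UpperHalfPlane Equiv
open scoped MatrixGroups

noncomputable section

namespace Pool.Agent.MC.Ge

variable {N : Set ℍ} {δ : ℝ}

theorem dual_pr_succ {D Γ : Type} [Group Γ] (f : D → D) (χ : D → Γ) (a : D) (n : ℕ) :
    ((orbL f a (n + 1)).map χ).prod = ((orbL f a n).map χ).prod * χ (f^[n] a) := by
  simp [orbL, List.range_succ]

theorem dual_pr_add {D Γ : Type} [Group Γ] (f : D → D) (χ : D → Γ) (a : D) (n m : ℕ) :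
    ((orbL f a (n + m)).map χ).prod =
      ((orbL f a n).map χ).prod * ((orbL f (f^[n] a) m).map χ).prod := by
  induction m with
  | zero => simp [orbL]
  | succ m ih =>
    rw [← Nat.add_assoc, dual_pr_succ, dual_pr_succ, ih, mul_assoc, Nat.add_comm n m,
      Function.iterate_add_apply]

theorem dual_reach {D : Type} (φ : Perm D) (h1 : ∀ e, ∃ n, 0 < n ∧ φ^[n] e = e) {a b : D}
    (hab : φ.SameCycle a b) : ∃ n : ℕ, φ^[n] a = b := by
  obtain ⟨i, hi⟩ := hab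
  obtain ⟨p, hp, hpa⟩ := h1 a
  have hpa' : (φ ^ (p : ℤ)) a = a := by
    rw [zpow_natCast, ← Perm.iterate_eq_pow]; exact hpa
  have hk : ∀ k : ℤ, (φ ^ ((p : ℤ) * k)) a = a := by
    intro k
    rw [zpow_mul]
    exact Perm.zpow_apply_eq_self_of_apply_eq_self hpa' k
  have hp' : (0 : ℤ) < p := by exact_mod_cast hp
  refine ⟨(i % p).toNat, ?_⟩
  rw [Perm.iterate_eq_pow, ← zpow_natCast, Int.toNat_of_nonneg (Int.emod_nonneg _ hp'.ne')]
  have e1 : i = i % p + (p : ℤ) * (i / p) := (Int.emod_add_mul_ediv i p).symm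
  rw [← hi]
  conv_rhs => rw [e1, zpow_add, Perm.mul_apply, hk]

/-- A potential along the cycles of a permutation. -/
theorem cyc_pot {D Γ : Type} [Group Γ] (φ : Perm D) (χ : D → Γ)
    (h1 : ∀ e, ∃ n, 0 < n ∧ φ^[n] e = e)
    (h2 : ∀ e n, φ^[n] e = e → ((orbL φ e n).map χ).prod = 1) :
    ∃ g : D → Γ, ∀ e, g (φ e) = g e * χ e := by
  have key0 : ∀ (a : D) (n m : ℕ), φ^[n] a = φ^[n + m] a →
      ((orbL φ a n).map χ).prod = ((orbL φ a (n + m)).map χ).prod := by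
    intro a n m hnm
    rw [dual_pr_add, h2 (φ^[n] a) m, mul_one]
    rw [← Function.iterate_add_apply, Nat.add_comm m n]
    exact hnm.symm
  have key : ∀ (a : D) (n m : ℕ), φ^[n] a = φ^[m] a →
      ((orbL φ a n).map χ).prod = ((orbL φ a m).map χ).prod := by
    intro a n m hnm
    rcases le_total n m with hle | hle
    · obtain ⟨k, rfl⟩ := Nat.exists_eq_add_of_le hle
      exact key0 a n k hnm
    · obtain ⟨k, rfl⟩ := Nat.exists_eq_add_of_le hle
      exact (key0 a m k hnm.symm).symm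
  let b : D → D := fun e => Quotient.out (Quotient.mk (Perm.SameCycle.setoid φ) e)
  have hb : ∀ e, φ.SameCycle (b e) e := fun e =>
    Quotient.mk_out (s := Perm.SameCycle.setoid φ) e
  have hbφ : ∀ e, b (φ e) = b e := by
    intro e
    have : Quotient.mk (Perm.SameCycle.setoid φ) (φ e) =
        Quotient.mk (Perm.SameCycle.setoid φ) e :=
      Quotient.sound (Perm.sameCycle_apply_left.2 (Perm.SameCycle.refl φ e))
    simp only [b, this]
  choose n hn using fun e => dual_reach φ h1 (hb e)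
  refine ⟨fun e => ((orbL φ (b e) (n e)).map χ).prod, fun e => ?_⟩
  have h3 : φ^[n (φ e)] (b e) = φ^[n e + 1] (b e) := by
    rw [Function.iterate_succ_apply', hn e, ← hbφ e, hn (φ e)]
  show ((orbL φ (b (φ e)) (n (φ e))).map χ).prod = ((orbL φ (b e) (n e)).map χ).prod * χ e
  rw [hbφ e, key _ _ _ h3, dual_pr_succ, hn e]

theorem dual_pot (X : DMap N) (h : Net N δ) {Γ : Type} [Group Γ] (θ : X.D → Γ)
    (h1 : ∀ e, θ (X.α e) = (θ e)⁻¹)
    (h2 : ∀ e, θ e * θ ((X.φ * X.α) e) * θ ((X.φ * X.α) ((X.φ * X.α) e)) = 1) :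
    ∃ Φ : ℍ → Γ, ∀ e, Φ (X.pos (X.α e)) = Φ (X.pos e) * θ e := by
  classical
  let ω : ℍ → ℍ → Γ := fun x y =>
    if H : Edge N x y then θ (Classical.choose (X.surj x y H)) else 1
  have hω : ∀ e x y, X.pos e = x → X.pos (X.α e) = y → ω x y = θ e := by
    rintro e x y rfl rfl
    have H := X.edge e
    have hs := Classical.choose_spec (X.surj _ _ H)
    have : Classical.choose (X.surj _ _ H) = e := X.ext _ _ hs.1 hs.2
    simp only [ω, dif_pos H, this]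
  have a1 : ∀ x y, Edge N x y → ω y x = (ω x y)⁻¹ := by
    intro x y H
    obtain ⟨e, e1, e2⟩ := X.surj x y H
    rw [hω e x y e1 e2, hω (X.α e) y x e2 (by rw [X.αα]; exact e1), h1]
  have a2 : ∀ x y w, Tri N x y w → ω x y * ω y w = ω x w := by
    intro x y w ht
    obtain ⟨d, d1, d2⟩ := X.surj y x ht.edge.symm
    have t := X.tri_ψ d
    rw [d1, d2] at t
    have hw : X.pos ((X.φ * X.α) ((X.φ * X.α) d)) = w := h.tri_unique t ht
    have p1 : ω y x = θ d := hω d y x d1 d2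
    have p2 : ω x w = θ ((X.φ * X.α) d) :=
      hω _ x w (by rw [X.pos_ψ, d2]) (by rw [← X.pos_ψ, hw])
    have p3 : ω w y = θ ((X.φ * X.α) ((X.φ * X.α) d)) :=
      hω _ w y hw (by rw [X.pos_αψψ h, d1])
    have q := h2 d
    rw [← p1, ← p2, ← p3, a1 x y ht.edge, a1 y w ht.cyc.edge] at q
    calc ω x y * ω y w = ω x y * ((ω x y)⁻¹ * ω x w * (ω y w)⁻¹) * ω y w := by rw [q, mul_one]
      _ = ω x w := by group
  obtain ⟨Φ, hΦ⟩ := h.potential ω a1 a2
  exact ⟨Φ, fun e => by rw [hΦ _ _ (X.edge e), hω e _ _ rfl rfl]⟩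

theorem DMap.pot (X : DMap N) (h : Net N δ) (Γ : Type) [Group Γ] (χ : X.D → Γ)
    (h1 : ∀ e, χ (X.α e) = (χ e)⁻¹)
    (h2 : ∀ e n, X.φ^[n] e = e → ((orbL X.φ e n).map χ).prod = 1) :
    ∃ Ψ : X.D → Γ, (∀ e, Ψ ((X.φ * X.α) e) = Ψ e) ∧ ∀ e, Ψ (X.α e) = Ψ e * χ e := by
  obtain ⟨g, hg⟩ := cyc_pot X.φ χ (X.period h) h2
  have hψα : ∀ e, (X.φ * X.α) (X.α e) = X.φ e := fun e => by rw [Perm.mul_apply, X.αα]
  obtain ⟨Φ, hΦ⟩ := dual_pot X h (fun e => g e * (g ((X.φ * X.α) e))⁻¹)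
    (fun e => by
      simp only [hψα]
      rw [Perm.mul_apply, hg, hg, h1]
      group)
    (fun e => by
      simp only [X.ψψψ h]
      group)
  have b1 : ∀ e, Φ (X.pos ((X.φ * X.α) e)) * g ((X.φ * X.α) e) = Φ (X.pos e) * g e := by
    intro e
    rw [X.pos_ψ, hΦ]
    group
  refine ⟨fun e => Φ (X.pos e) * g e, b1, fun e => ?_⟩
  show Φ (X.pos (X.α e)) * g (X.α e) = Φ (X.pos e) * g e * χ e
  rw [← b1 (X.α e), hψα, X.pos_φ, hg, mul_assoc]

theorem DMap.fill (X : DMap N) (h : Net N δ) {f : ℝ → ℝ} (hf : Ext f) (o : ℍ) (ρ : ℝ)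
    (ω : X.D → ZMod 2) (h1 : ∀ e, ω (X.α e) = ω e)
    (h2 : ∀ e, ω e + ω ((X.φ * X.α) e) + ω ((X.φ * X.α) ((X.φ * X.α) e)) = 0)
    (h3 : ∀ e, ρ < dist o (X.pos e) → ω e = 0) :
    ∃ Φ : X.D → ZMod 2, (∀ e, Φ (X.φ e) = Φ e) ∧ (∀ e, Φ e + Φ (X.α e) = ω e) ∧
      ∀ e, f (ρ + 7 * δ) < dist o (X.pos e) → Φ e = 0 := by
  have z1 : ∀ a : ZMod 2, a = -a := by decide
  have z2 : ∀ a w k : ZMod 2, a - k + (a + w - k) = w := by decide
  obtain ⟨Φ, hΦ⟩ := dual_pot X h (fun e => Multiplicative.ofAdd (ω e))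
    (fun e => by
      rw [h1, ← ofAdd_neg]
      exact congrArg _ (z1 _))
    (fun e => by
      rw [← ofAdd_add, ← ofAdd_add, h2, ofAdd_zero])
  obtain ⟨k, hk⟩ := h.const_far hf Φ o ρ (fun x y H hx => by
    obtain ⟨e, e1, e2⟩ := X.surj x y H
    have := hΦ e
    rw [h3 e (by rw [e1]; exact hx), e1, e2, ofAdd_zero, mul_one] at this
    exact this.symm)
  refine ⟨fun e => Multiplicative.toAdd (Φ (X.pos e)) - Multiplicative.toAdd k, fun e => ?_,
    fun e => ?_, fun e he => ?_⟩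
  · simp only [X.pos_φ]
  · simp only [hΦ, toAdd_mul, toAdd_ofAdd]
    exact z2 _ _ _
  · simp only [hk _ (X.edge e).mem.1 he, sub_self]

end Pool.Agent.MC.Ge
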