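import Pool.Agent.P.MP_2677b3_gt.GeQuot

open UpperHalfPlane Equiv
open scoped MatrixGroups

noncomputable section

namespace Pool.Agent.MC.Ge

variable {G : Subgroup (Perm ℍ)} {ε c K : ℝ} {C : ℝ → ℕ} {f : ℝ → ℝ} {U : UMap G c K C f}

theorem lift_nil {D : Type} {α φ : Perm D} {a b : D} :
    UPath α φ a [] b ↔ (φ * α).SameCycle a b :=
  Quotient.eq (r := Perm.SameCycle.setoid (φ * α))

theorem lift_cons {D : Type} {α φ : Perm D} {a b d : D} {q : List D} :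
    UPath α φ a (d :: q) b ↔ (φ * α).SameCycle d a ∧ UPath α φ (α d) q b :=
  and_congr_left' (Quotient.eq (r := Perm.SameCycle.setoid (φ * α)))

theorem lift_left {D : Type} {α φ : Perm D} {a a' b : D} {q : List D}
    (h : (φ * α).SameCycle a a') (hq : UPath α φ a q b) : UPath α φ a' q b := by
  have h1 : Quotient.mk (Perm.SameCycle.setoid (φ * α)) a = Quotient.mk _ a' := Quotient.sound h
  unfold UPath at hq ⊢
  rwa [h1] at hq

theorem lift_succ {D : Type} (f : D → D) (d : D) (k : ℕ) :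
    orbL f d (k + 1) = orbL f d k ++ [f^[k] d] := by
  simp [orbL, List.range_succ]

theorem lift_free (hG : Fuchs G ε) (hc : 2 * c < ε) {g : G} {d : U.D}
    (h : U.pos (g • d) = U.pos d) : g = 1 := by
  refine U.free hG hc (d := d) ?_
  rw [h, dist_self]
  exact mul_nonneg two_pos.le U.c_nonneg

theorem lift_pot {Γ : Type} [Group Γ] {χ Ψ : U.D → Γ} (h1 : ∀ e, Ψ ((U.φ * U.α) e) = Ψ e)
    (h2 : ∀ e, Ψ (U.α e) = Ψ e * χ e) {a b : U.D} {q : List U.D} (h : UPath U.α U.φ a q b) :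
    Ψ b = Ψ a * (q.map χ).prod := by
  have h3 : ∀ a b, (U.φ * U.α).SameCycle a b → Ψ b = Ψ a := fun a b hab => by
    rcases (U.same_iff a b).1 hab with rfl | rfl | rfl
    · rfl
    · exact h1 _
    · rw [h1, h1]
  induction q generalizing a with
  | nil => simpa using h3 _ _ (lift_nil.1 h)
  | cons d q ih =>
    obtain ⟨h4, h5⟩ := lift_cons.1 h
    rw [ih h5, h2, h3 _ _ h4, List.map_cons, List.prod_cons, mul_assoc]

namespace Cov

variable (Y : Cov U)

theorem exists_sheet (d : U.D) : ∃ g : G, d = g • Y.lift (Y.π d) := by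
  obtain ⟨g, hg⟩ := Y.π_eq (Y.lift (Y.π d)) d (Y.π_lift _)
  exact ⟨g, hg.symm⟩

theorem π_ψ (d : U.D) : Y.π ((U.φ * U.α) d) = Y.M.ψ (Y.π d) := by
  rw [Perm.mul_apply, Y.π_φ, Y.π_α]
  rfl

theorem ψψψ (e : Y.M.D) : Y.M.ψ (Y.M.ψ (Y.M.ψ e)) = e := by
  have h := congrArg Y.π (U.tri (Y.lift e))
  rwa [Y.π_ψ, Y.π_ψ, Y.π_ψ, Y.π_lift] at h

theorem same_base (e : Y.M.D) : (U.φ * U.α).SameCycle (Y.base (Y.M.gd.src e)) (Y.lift e) := by
  have h1 : Y.M.ψ.SameCycle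
      (Quotient.out (s := Perm.SameCycle.setoid Y.M.ψ) (Y.M.gd.src e)) e :=
    Quotient.exact (s := Perm.SameCycle.setoid Y.M.ψ) (Quotient.out_eq _)
  obtain ⟨n, hn⟩ := h1.exists_nat_pow_eq
  have h2 : ∀ (n : ℕ) d, Y.lift ((Y.M.ψ ^ n) d) = ((U.φ * U.α) ^ n) (Y.lift d) := by
    intro n d
    induction n with
    | zero => rfl
    | succ n ih => rw [pow_succ', pow_succ', Perm.mul_apply, Y.lift_ψ, ih, Perm.mul_apply _ (_ ^ n)]
  refine ⟨n, ?_⟩
  rw [zpow_natCast, base, ← h2, hn]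

theorem src_base (x : Y.M.gd.V) : Y.M.gd.src (Y.π (Y.base x)) = x := by
  rw [base, Y.π_lift]
  exact Quotient.out_eq _

theorem hol_inv (hG : Fuchs G ε) (hc : 2 * c < ε) (e : Y.M.D) :
    Y.hol (Y.M.α e) = (Y.hol e)⁻¹ := by
  have h : (Y.hol e * Y.hol (Y.M.α e)) • Y.lift e = Y.lift e := by
    have h1 := Y.hol_spec (Y.M.α e)
    rw [Y.M.αα] at h1
    rw [mul_smul, ← h1, ← U.α_smul, ← Y.hol_spec, U.αα]
  exact eq_inv_of_mul_eq_one_right (lift_free hG hc (congrArg U.pos h))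

theorem hol_φ (e : Y.M.D) : Y.hol e • Y.lift (Y.M.φ e) = U.φ (Y.lift e) := by
  have h : Y.M.φ e = Y.M.ψ (Y.M.α e) := by simp [CMap.ψ, Y.M.αα]
  rw [h, Y.lift_ψ, ← U.ψ_smul, ← Y.hol_spec, Perm.mul_apply, U.αα]

theorem lift_hp_append (p q : List Y.M.D) : Y.hp (p ++ q) = Y.hp p * Y.hp q := by
  simp [hp]

theorem lift_face (e : Y.M.D) (n : ℕ) :
    Y.hp (orbL Y.M.φ e n) • Y.lift (Y.M.φ^[n] e) = U.φ^[n] (Y.lift e) := by
  induction n with
  | zero => exact one_smul _ _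
  | succ n ih =>
    rw [lift_succ, lift_hp_append, hp_cons, hp_nil, mul_one, mul_smul,
      Function.iterate_succ_apply', Y.hol_φ, ← U.φ_smul, ih, Function.iterate_succ_apply']

theorem hol_hom (hG : Fuchs G ε) (hc : 2 * c < ε) :
    ∃ F : Y.M.gd.U →* G, ∀ p : List Y.M.D, F (Y.M.gd.ev p) = Y.hp p := by
  refine pres_lift Y.hol (Y.hol_inv hG hc) ?_
  rintro _ ⟨e, n, hn, rfl⟩
  have h1 := Y.lift_face e n
  rw [hn] at h1
  have h2 : ∀ (n : ℕ) d, U.pos (U.φ^[n] d) = U.pos d := by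
    intro n d
    induction n with
    | zero => rfl
    | succ n ih => rw [Function.iterate_succ_apply', U.pos_φ, ih]
  exact lift_free hG hc ((congrArg U.pos h1).trans (h2 n _))

theorem lift_α (g : G) (e : Y.M.D) :
    (U.φ * U.α).SameCycle ((g * Y.hol e) • Y.base (Y.M.gd.tgt e)) (U.α (g • Y.lift e)) := by
  rw [U.α_smul, Y.hol_spec, ← mul_smul]
  exact U.same_smul _ (Y.same_base (Y.M.α e))

theorem lift_path {x y : Y.M.gd.V} {p : List Y.M.D} (h : Y.M.gd.Path x p y) (g : G) :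
    UPath U.α U.φ (g • Y.base x) (Y.up p g) ((g * Y.hp p) • Y.base y) := by
  induction p generalizing x g with
  | nil =>
    obtain rfl : x = y := h
    rw [hp_nil, mul_one]
    exact lift_nil.2 (Perm.SameCycle.refl _ _)
  | cons e p ih =>
    obtain ⟨rfl, h2⟩ := h
    rw [up_cons, hp_cons, ← mul_assoc]
    exact lift_cons.2 ⟨U.same_smul g (Y.same_base e).symm, lift_left (Y.lift_α g e) (ih h2 _)⟩

theorem lift_src {a b : U.D} (h : (U.φ * U.α).SameCycle a b) :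
    Y.M.gd.src (Y.π a) = Y.M.gd.src (Y.π b) := by
  have h1 : ∀ d, Y.M.gd.src (Y.π d) = Y.M.gd.src (Y.π ((U.φ * U.α) d)) := fun d => by
    rw [Y.π_ψ]
    exact Quotient.sound (s := Perm.SameCycle.setoid Y.M.ψ)
      (Perm.sameCycle_apply_right.2 (Perm.SameCycle.refl _ _))
  rcases (U.same_iff a b).1 h with rfl | rfl | rfl
  · rfl
  · exact h1 _
  · exact (h1 _).trans (h1 _)

theorem lift_key (hG : Fuchs G ε) (hc : 2 * c < ε) {x y : Y.M.gd.V} {g g' : G}
    (h : (U.φ * U.α).SameCycle (g • Y.base x) (g' • Y.base y)) : x = y ∧ g = g' := by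
  have h1 := Y.lift_src h
  rw [Y.π_smul, Y.π_smul, Y.src_base, Y.src_base] at h1
  subst h1
  have h2 := U.same_smul g⁻¹ h
  rw [inv_smul_smul, ← mul_smul] at h2
  exact ⟨rfl, inv_mul_eq_one.1 (U.free hG hc (U.same_dist h2))⟩

theorem proj_path (hG : Fuchs G ε) (hc : 2 * c < ε) {x y : Y.M.gd.V} {g g' : G} {q : List U.D}
    (h : UPath U.α U.φ (g • Y.base x) q (g' • Y.base y)) :
    Y.M.gd.Path x (q.map Y.π) y ∧ g * Y.hp (q.map Y.π) = g' := by
  induction q generalizing x g with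
  | nil =>
    obtain ⟨h1, h2⟩ := Y.lift_key hG hc (lift_nil.1 h)
    exact ⟨h1, by simpa using h2⟩
  | cons d q ih =>
    obtain ⟨h1, h2⟩ := lift_cons.1 h
    obtain ⟨k, hk⟩ := Y.exists_sheet d
    have h3 := U.same_smul k (Y.same_base (Y.π d))
    rw [← hk] at h3
    obtain ⟨rfl, rfl⟩ := Y.lift_key hG hc (h3.trans h1)
    have h4 := Y.lift_α k (Y.π d)
    rw [← hk] at h4
    obtain ⟨h5, h6⟩ := ih (lift_left h4.symm h2)
    refine ⟨⟨rfl, h5⟩, ?_⟩
    rw [List.map_cons, hp_cons, ← mul_assoc, h6]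

theorem connect (hG : Fuchs G ε) (hc : 2 * c < ε) (x y : Y.M.gd.V) (g : G) :
    ∃ p : List Y.M.D, Y.M.gd.Path x p y ∧ Y.hp p = g ∧
      (p.length : ℝ) ≤ K * dist (Y.pt x) (g.1 (Y.pt y)) + K := by
  obtain ⟨q, h1, h2⟩ := U.walk ((1 : G) • Y.base x) (g • Y.base y)
  obtain ⟨h3, h4⟩ := Y.proj_path hG hc h1
  refine ⟨q.map Y.π, h3, by simpa using h4, ?_⟩
  rw [one_smul, U.pos_smul] at h2
  rw [List.length_map]
  exact h2

theorem short (hG : Fuchs G ε) (e : Y.M.D) :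
    dist (Y.pt (Y.M.gd.src e)) ((Y.hol e).1 (Y.pt (Y.M.gd.tgt e))) ≤ 4 * c := by
  have h1 := U.α_dist (Y.same_base e)
  have h2 := U.same_dist (Y.lift_α 1 e)
  rw [one_mul, one_smul, U.pos_smul, dist_comm] at h2
  have h3 := dist_triangle (Y.pt (Y.M.gd.src e)) (U.pos (U.α (Y.lift e)))
    ((Y.hol e).1 (Y.pt (Y.M.gd.tgt e)))
  unfold pt at h3 ⊢
  linarith

theorem short_path (hG : Fuchs G ε) {x y : Y.M.gd.V} {p : List Y.M.D} (h : Y.M.gd.Path x p y) :
    dist (Y.pt x) ((Y.hp p).1 (Y.pt y)) ≤ 4 * c * p.length := by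
  induction p generalizing x with
  | nil =>
    obtain rfl : x = y := h
    simp
  | cons e p ih =>
    obtain ⟨rfl, h2⟩ := h
    have h3 := ih h2
    have h4 := Y.short hG e
    rw [← fuchs_dist hG (Y.hol e).2] at h3
    have h5 := dist_triangle (Y.pt (Y.M.gd.src e)) ((Y.hol e).1 (Y.pt (Y.M.gd.tgt e)))
      ((Y.hol e).1 ((Y.hp p).1 (Y.pt y)))
    rw [hp_cons, List.length_cons]
    push_cast
    rw [Function.comp_apply]
    linarith

theorem faith (hG : Fuchs G ε) (hc : 2 * c < ε) {x : Y.M.gd.V} {p : List Y.M.D}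
    (h : Y.M.gd.Path x p x) : Y.M.gd.ev p = 1 ↔ Y.hp p = 1 := by
  constructor
  · intro h1
    obtain ⟨F, hF⟩ := Y.hol_hom hG hc
    rw [← hF, h1, map_one]
  · intro h1
    have h2 : ∀ (n : ℕ) d, Y.π (U.φ^[n] d) = Y.M.φ^[n] (Y.π d) := by
      intro n d
      induction n with
      | zero => rfl
      | succ n ih => rw [Function.iterate_succ_apply', Function.iterate_succ_apply', Y.π_φ, ih]
    have h3 : ∀ q : List U.D,
        (q.map fun d => Y.M.gd.val (Y.π d)).prod = Y.M.gd.ev (q.map Y.π) := fun q =>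
      congrArg List.prod (List.map_map (g := Y.M.gd.val) (f := Y.π) (l := q)).symm
    obtain ⟨Ψ, h4, h5⟩ := U.pot Y.M.gd.U (fun d => Y.M.gd.val (Y.π d))
      (fun e => by rw [Y.π_α]; exact Y.M.gd.val_inv _) (fun e n hn => by
        rw [h3]
        refine pres_rel (R := {w | ∃ d n, Y.M.φ^[n] d = d ∧ w = orbL Y.M.φ d n})
          ⟨Y.π e, n, by rw [← h2, hn], ?_⟩
        simp only [orbL, ← h2]
        exact List.map_map)
    have h6 := lift_pot h4 h5 (Y.lift_path h 1)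
    rw [h1, mul_one, h3] at h6
    exact (congrArg Y.M.gd.ev (Y.map_up p 1)).symm.trans (left_eq_mul.1 h6)

end Cov

end Pool.Agent.MC.Ge
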