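import Pool.Agent.P.MP_2677b3_gt.GeDefs

open UpperHalfPlane Equiv
open scoped MatrixGroups

noncomputable section

namespace Pool.Agent.MC.Ge

theorem bil_comm (u w : M3) : bil u w = bil w u := by
  unfold bil
  ring

theorem bil_add (u u' w : M3) : bil (u + u') w = bil u w + bil u' w := by
  simp only [bil, Prod.fst_add, Prod.snd_add]
  ring

theorem bil_sub (u u' w : M3) : bil (u - u') w = bil u w - bil u' w := by
  simp only [bil, Prod.fst_sub, Prod.snd_sub]
  ring

theorem bil_smul (s : ℝ) (u w : M3) : bil (s • u) w = s * bil u w := by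
  simp only [bil, Prod.smul_fst, Prod.smul_snd, smul_eq_mul]
  ring

theorem bil_crs (a b c : M3) : bil (crs a b) c = det3 a b c := by
  simp only [bil, crs, det3]
  ring

theorem bil_crs_crs (a b : M3) :
    bil (crs a b) (crs a b) = 4 * (bil a a * bil b b - bil a b ^ 2) := by
  simp only [bil, crs]
  ring

theorem bil_vec (z w : ℍ) : bil (vec z) (vec w) = Real.cosh (dist z w) := by
  have h1 := z.im_ne_zero
  have h2 := w.im_ne_zero
  rw [cosh_dist']
  simp only [bil, vec]
  field_simp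
  ring

theorem bil_self (z : ℍ) : bil (vec z) (vec z) = 1 := by
  rw [bil_vec, dist_self, Real.cosh_zero]

theorem one_le_bil (z w : ℍ) : 1 ≤ bil (vec z) (vec w) := by
  rw [bil_vec]
  exact Real.one_le_cosh _

theorem one_lt_bil {z w : ℍ} (h : z ≠ w) : 1 < bil (vec z) (vec w) := by
  rw [bil_vec]
  exact Real.one_lt_cosh.2 (dist_ne_zero.2 h)

theorem bil_le_iff (o x y : ℍ) :
    bil (vec o) (vec x) ≤ bil (vec o) (vec y) ↔ dist o x ≤ dist o y := by
  rw [bil_vec, bil_vec, Real.cosh_le_cosh, abs_of_nonneg dist_nonneg, abs_of_nonneg dist_nonneg]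

theorem bil_lt_iff (o x y : ℍ) :
    bil (vec o) (vec x) < bil (vec o) (vec y) ↔ dist o x < dist o y := by
  rw [← not_le, ← not_le, bil_le_iff]

theorem ori_cyc (x y w : ℍ) : ori y w x = ori x y w := by
  simp only [ori, det3]
  ring

theorem ori_swap (x y w : ℍ) : ori y x w = -ori x y w := by
  simp only [ori, det3]
  ring

theorem ori_swap' (x y w : ℍ) : ori x w y = -ori x y w := by
  simp only [ori, det3]
  ring

theorem ori_self₁ (x w : ℍ) : ori x x w = 0 := by
  simp only [ori, det3]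
  ring

theorem ori_self₂ (x y : ℍ) : ori x y x = 0 := by
  simp only [ori, det3]
  ring

theorem ori_self₃ (x y : ℍ) : ori x y y = 0 := by
  simp only [ori, det3]
  ring

/-- Cramer's rule. -/
theorem cramer (u : M3) (x y w q : ℍ) :
    ori x y w * bil u (vec q) = ori q y w * bil u (vec x) + ori x q w * bil u (vec y) +
      ori x y q * bil u (vec w) := by
  simp only [ori, det3, bil]
  ring

/-- The linear map of Minkowski space induced by a matrix. -/
def gelin_T (a b c d : ℝ) (u : M3) : M3 :=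
  (a ^ 2 * u.1 + 2 * a * b * u.2.1 + b ^ 2 * u.2.2,
    a * c * u.1 + (a * d + b * c) * u.2.1 + b * d * u.2.2,
    c ^ 2 * u.1 + 2 * c * d * u.2.1 + d ^ 2 * u.2.2)

theorem gelin_det (a b c d : ℝ) (u v w : M3) :
    det3 (gelin_T a b c d u) (gelin_T a b c d v) (gelin_T a b c d w) =
      (a * d - b * c) ^ 3 * det3 u v w := by
  simp only [det3, gelin_T]
  ring

theorem gelin_vec {a b c d : ℝ} (h : a * d - b * c = 1) {z w : ℍ}
    (e : (w : ℂ) * (c * z + d) = a * z + b) : vec w = gelin_T a b c d (vec z) := by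
  have h1 : w.re * (c * z.re + d) - w.im * (c * z.im) = a * z.re + b := by
    simpa using congrArg Complex.re e
  have h2 : w.re * (c * z.im) + w.im * (c * z.re + d) = a * z.im := by
    simpa using congrArg Complex.im e
  have hz := z.im_ne_zero
  have hw := w.im_ne_zero
  have h3 : 1 / w.im = ((c * z.re + d) ^ 2 + (c * z.im) ^ 2) / z.im := by
    rw [div_eq_div_iff hw hz]
    linear_combination (c * z.im) * h1 - (c * z.re + d) * h2 - z.im * h
  simp only [vec, gelin_T]
  rw [div_eq_mul_one_div _ w.im, div_eq_mul_one_div w.re w.im, h3]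
  refine Prod.ext ?_ (Prod.ext ?_ ?_) <;> dsimp only <;> field_simp
  · linear_combination (w.re * (c * z.re + d) - w.im * (c * z.im) + (a * z.re + b)) * h1 +
      (w.re * (c * z.im) + w.im * (c * z.re + d) + a * z.im) * h2
  · linear_combination (c * z.re + d) * h1 + (c * z.im) * h2
  · ring

theorem gelin_smul (A : SL(2, ℝ)) (z : ℍ) :
    vec (A • z) = gelin_T (A 0 0) (A 0 1) (A 1 0) (A 1 1) (vec z) := by
  have h : A 0 0 * A 1 1 - A 0 1 * A 1 0 = 1 := by
    rw [← Matrix.det_fin_two]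
    exact A.det_coe
  refine gelin_vec h ?_
  have h0 : ((A 1 0 : ℝ) : ℂ) * z + (A 1 1 : ℝ) ≠ 0 := denom_ne_zero A z
  rw [coe_specialLinearGroup_apply]
  exact div_mul_cancel₀ _ h0

theorem ori_smul (A : SL(2, ℝ)) (x y w : ℍ) : ori (A • x) (A • y) (A • w) = ori x y w := by
  have h : A 0 0 * A 1 1 - A 0 1 * A 1 0 = 1 := by
    rw [← Matrix.det_fin_two]
    exact A.det_coe
  rw [ori, gelin_smul, gelin_smul, gelin_smul, gelin_det, h, one_pow, one_mul, ori]

/-- Future timelike vectors come from points. -/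
theorem exists_vec {u : M3} {x : ℍ} (h1 : 0 < bil u u) (h2 : 0 < bil u (vec x)) :
    ∃ (z : ℍ) (s : ℝ), 0 < s ∧ s ^ 2 = bil u u ∧ u = s • vec z := by
  obtain ⟨u1, u2, u3⟩ := u
  have e : bil (u1, u2, u3) (u1, u2, u3) = u1 * u3 - u2 ^ 2 := by
    simp only [bil]
    ring
  rw [e] at h1 ⊢
  have hx := x.im_pos
  have h3 : 0 < u1 + u3 * (x.re ^ 2 + x.im ^ 2) - 2 * u2 * x.re := by
    have e2 : u1 + u3 * (x.re ^ 2 + x.im ^ 2) - 2 * u2 * x.re =
        2 * x.im * bil (u1, u2, u3) (vec x) := by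
      simp only [bil, vec]
      field_simp
    rw [e2]
    positivity
  have h4 : 0 < u3 := by
    refine (mul_pos_iff_of_pos_right h3).1 ?_
    nlinarith [sq_nonneg (u3 * x.re - u2), sq_nonneg (u3 * x.im)]
  have hs : 0 < √(u1 * u3 - u2 ^ 2) := Real.sqrt_pos.2 h1
  have hs2 : √(u1 * u3 - u2 ^ 2) ^ 2 = u1 * u3 - u2 ^ 2 := Real.sq_sqrt h1.le
  generalize √(u1 * u3 - u2 ^ 2) = s at hs hs2
  refine ⟨⟨⟨u2 / u3, s / u3⟩, div_pos hs h4⟩, s, hs, hs2, ?_⟩
  change (u1, u2, u3) = (s * (((u2 / u3) ^ 2 + (s / u3) ^ 2) / (s / u3)),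
    s * ((u2 / u3) / (s / u3)), s * (1 / (s / u3)))
  refine Prod.ext ?_ (Prod.ext ?_ ?_) <;> dsimp only <;> field_simp
  linarith

theorem gelin_gram (a b c : M3) : det3 a b c ^ 2 = 4 * (bil a a * bil b b * bil c c +
    2 * bil a b * bil b c * bil a c - bil a a * bil b c ^ 2 - bil b b * bil a c ^ 2 -
    bil c c * bil a b ^ 2) := by
  simp only [det3, bil]
  ring

theorem gelin_cramer (u a b c : M3) :
    det3 a b c • u = bil u a • crs b c + bil u b • crs c a + bil u c • crs a b := by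
  refine Prod.ext ?_ (Prod.ext ?_ ?_) <;>
    simp only [det3, bil, crs, Prod.fst_add, Prod.snd_add, Prod.smul_fst, Prod.smul_snd,
      smul_eq_mul] <;> ring

theorem gelin_sum (a b c : M3) :
    bil (crs b c + crs c a + crs a b) (crs b c + crs c a + crs a b) =
      4 * ((bil b b - 2 * bil a b + bil a a) * (bil c c - 2 * bil a c + bil a a) -
        (bil b c - bil a b - bil a c + bil a a) ^ 2) := by
  simp only [bil, crs, Prod.fst_add, Prod.snd_add]
  ring

/-- Three distinct points on a circle are not collinear. -/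
theorem ori_ne {u : M3} {x y w : ℍ} (hx : bil u (vec x) = 1) (hy : bil u (vec y) = 1)
    (hw : bil u (vec w) = 1) (h1 : x ≠ y) (h2 : x ≠ w) (h3 : y ≠ w) : ori x y w ≠ 0 := by
  intro h
  have e1 := gelin_cramer u (vec x) (vec y) (vec w)
  have e2 := gelin_gram (vec x) (vec y) (vec w)
  have e3 := gelin_sum (vec x) (vec y) (vec w)
  rw [ori] at h
  rw [h, hx, hy, hw, one_smul, one_smul, one_smul] at e1
  rw [← e1, bil_smul, zero_mul] at e3
  rw [h] at e2
  simp only [bil_self] at e2 e3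
  have e4 := mul_pos (mul_pos (sub_pos.2 (one_lt_bil h1)) (sub_pos.2 (one_lt_bil h2)))
    (sub_pos.2 (one_lt_bil h3))
  linarith

theorem exists_mid (z w : ℍ) : ∃ m : ℍ, dist z m = dist z w / 2 ∧ dist m w = dist z w / 2 := by
  have hc := one_le_bil z w
  have e1 : bil (vec z + vec w) (vec z) = 1 + bil (vec z) (vec w) := by
    rw [bil_add, bil_self, bil_comm]
  have e2 : bil (vec z + vec w) (vec w) = 1 + bil (vec z) (vec w) := by
    rw [bil_add, bil_self, add_comm]
  have e3 : bil (vec z + vec w) (vec z + vec w) = 2 + 2 * bil (vec z) (vec w) := by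
    rw [bil_add, bil_comm (vec z), bil_comm (vec w), e1, e2]
    ring
  obtain ⟨m, s, hs, h1, h2⟩ := exists_vec (u := vec z + vec w) (x := z) (by linarith) (by linarith)
  have key : ∀ t : ℝ, 0 ≤ t → s * Real.cosh t = 1 + bil (vec z) (vec w) → t = dist z w / 2 := by
    intro t ht e
    have e4 : Real.cosh (dist z w) = 2 * Real.cosh (dist z w / 2) ^ 2 - 1 := by
      have := Real.cosh_two_mul (dist z w / 2)
      rw [mul_div_cancel₀ _ two_ne_zero, Real.sinh_sq] at this
      linarith
    rw [e3] at h1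
    rw [bil_vec] at h1 e hc
    have e5 : Real.cosh t ^ 2 = Real.cosh (dist z w / 2) ^ 2 := by
      refine mul_left_cancel₀ (pow_pos hs 2).ne' ?_
      rw [← mul_pow, e, h1, e4]
      ring
    have e6 := (pow_left_inj₀ (Real.cosh_pos _).le (Real.cosh_pos _).le two_ne_zero).1 e5
    have h0 : 0 ≤ dist z w / 2 := by positivity
    have e7 := Real.cosh_le_cosh.1 e6.le
    have e8 := Real.cosh_le_cosh.1 e6.ge
    rw [abs_of_nonneg ht, abs_of_nonneg h0] at e7 e8
    exact le_antisymm e7 e8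
  refine ⟨m, key _ dist_nonneg ?_, key _ dist_nonneg ?_⟩
  · rw [← e1, h2, bil_smul, bil_vec, dist_comm]
  · rw [← e2, h2, bil_smul, bil_vec]

end Pool.Agent.MC.Ge
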