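import Pool.Agent.P.MP_2677b3_gt.GeLin
import Pool.Agent.P.MP_2677b3_gt.GePack

open UpperHalfPlane Equiv
open scoped MatrixGroups

noncomputable section

namespace Pool.Agent.MC.Ge

theorem genet_finite (A B O : ℝ) (hO : O ≠ 0) :
    {t : ℝ | B * Real.exp t ^ 2 + -O * Real.exp t + A = 0}.Finite := by
  have hp : (Polynomial.C B * Polynomial.X ^ 2 + Polynomial.C (-O) * Polynomial.X +
      Polynomial.C A) ≠ 0 := by
    intro h
    have := congrArg (fun p => Polynomial.coeff p 1) h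
    simp [hO] at this
  refine ((Polynomial.finite_setOfPred_isRoot hp).preimage Real.exp_injective.injOn).subset ?_
  intro t ht
  simpa using ht

/-- points on a vertical line -/
def genetPt (r t : ℝ) : ℍ := ⟨⟨r, Real.exp t⟩, Real.exp_pos t⟩

theorem genet_bad (r : ℝ) (a b c : ℍ) (h : ori a b c ≠ 0) : {t : ℝ | ori (genetPt r t) b c +
    ori a (genetPt r t) c + ori a b (genetPt r t) = ori a b c}.Finite := by
  refine (genet_finite (det3 (r ^ 2, r, 1) (vec b) (vec c) + det3 (vec a) (r ^ 2, r, 1) (vec c) +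
    det3 (vec a) (vec b) (r ^ 2, r, 1)) (det3 (1, 0, 0) (vec b) (vec c) +
    det3 (vec a) (1, 0, 0) (vec c) + det3 (vec a) (vec b) (1, 0, 0)) _ h).subset fun t ht => ?_
  have hv : vec (genetPt r t) =
      ((r ^ 2 + Real.exp t ^ 2) / Real.exp t, r / Real.exp t, 1 / Real.exp t) := rfl
  have h0 := (Real.exp_pos t).ne'
  rw [Set.mem_ofPred_eq] at ht ⊢
  rw [← ht]
  simp only [ori, hv, det3]
  field_simp
  ring

theorem genet_pick (z : ℍ) {T : Set ℍ} (hT : T.Finite) {δ : ℝ} (hδ : 0 < δ) :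
    ∃ x : ℍ, dist z x ≤ δ ∧ ∀ a ∈ T, ∀ b ∈ T, ∀ c ∈ T, ori a b c ≠ 0 →
      ori x b c + ori a x c + ori a b x ≠ ori a b c := by
  have hfin : (⋃ a ∈ T, ⋃ b ∈ T, ⋃ c ∈ T, {t : ℝ | ori a b c ≠ 0 ∧ ori (genetPt z.re t) b c +
      ori a (genetPt z.re t) c + ori a b (genetPt z.re t) = ori a b c}).Finite := by
    refine hT.biUnion fun a _ => hT.biUnion fun b _ => hT.biUnion fun c _ => ?_
    by_cases h : ori a b c = 0
    · simp [h]
    · exact (genet_bad z.re a b c h).subset fun t ht => ht.2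
  obtain ⟨t, ht, hn⟩ := (Set.Icc_infinite (show Real.log z.im < Real.log z.im + δ by
    linarith)).exists_notMem_finite hfin
  refine ⟨genetPt z.re t, ?_, fun a ha b hb c hc h0 h1 => hn ?_⟩
  · rw [dist_of_re_eq (show z.re = (genetPt z.re t).re from rfl),
      show (genetPt z.re t).im = Real.exp t from rfl, Real.log_exp, Real.dist_eq, abs_le]
    constructor <;> linarith [ht.1, ht.2]
  · simp only [Set.mem_iUnion]
    exact ⟨a, ha, b, hb, c, hc, h0, h1⟩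

/-- invariant separated sets without four points on a small circle -/
structure GenetGood (G : Subgroup (Perm ℍ)) (δ : ℝ) (N : Set ℍ) : Prop where
  inv : ∀ g ∈ G, ∀ x ∈ N, g x ∈ N
  sep : ∀ p ∈ N, ∀ q ∈ N, p ≠ q → δ ≤ dist p q
  gen : ∀ (z : ℍ) (ρ : ℝ), ρ ≤ 2 * δ → ∀ a ∈ N, ∀ b ∈ N, ∀ c ∈ N, ∀ d ∈ N, dist z a = ρ →
    dist z b = ρ → dist z c = ρ → dist z d = ρ → a ≠ b → a ≠ c → b ≠ c → d ≠ a → d ≠ b →
    d ≠ c → False

theorem genet_step {G : Subgroup (Perm ℍ)} {ε δ : ℝ} (hG : Fuchs G ε) (hδ : 0 < δ)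
    (hε : 4 * δ < ε) {P : ℝ → ℕ} (hP : Pk δ P) {N : Set ℍ} (hN : GenetGood G δ N) {z0 : ℍ}
    (hz : ∀ p ∈ N, 2 * δ < dist z0 p) :
    ∃ x, dist z0 x ≤ δ ∧ x ∉ N ∧ ∃ N', GenetGood G δ N' ∧ insert x N ⊆ N' := by
  have hT : {p | p ∈ N ∧ dist z0 p ≤ 5 * δ}.Finite :=
    (hP z0 (5 * δ) _ (fun p hp => hp.2) fun p hp q hq => hN.sep p hp.1 q hq.1).1
  obtain ⟨x, hx, hb⟩ := genet_pick z0 hT hδ
  have hd : ∀ g ∈ G, ∀ p, dist (g x) p = dist x (g⁻¹ p) := fun g hg p => by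
    rw [← fuchs_dist hG hg x (g⁻¹ p)]
    simp
  have h1 : ∀ g ∈ G, ∀ p ∈ N, δ ≤ dist (g x) p := fun g hg p hp => by
    have := hz _ (hN.inv _ (G.inv_mem hg) p hp)
    rw [hd g hg]
    linarith [dist_triangle z0 x (g⁻¹ p)]
  have h2 : ∀ g ∈ G, ∀ g' ∈ G, dist (g x) (g' x) < ε → g x = g' x := fun g hg g' hg' h => by
    rw [hd g hg] at h
    have := fuchs_one hG (G.mul_mem (G.inv_mem hg) hg') (z := x) h
    rw [inv_mul_eq_one.1 this]
  have hO : ∀ (z : ℍ) (ρ : ℝ), ρ ≤ 2 * δ → ∀ p ∈ {p | ∃ g ∈ G, g x = p},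
      ∀ q ∈ {p | ∃ g ∈ G, g x = p}, dist z p = ρ → dist z q = ρ → p = q := by
    rintro z ρ hρ _ ⟨g, hg, rfl⟩ _ ⟨g', hg', rfl⟩ e e'
    refine h2 g hg g' hg' ?_
    linarith [dist_triangle_left (g x) (g' x) z]
  have hK : ∀ (z : ℍ) (ρ : ℝ), ρ ≤ 2 * δ → ∀ a ∈ N, ∀ b ∈ N, ∀ c ∈ N,
      ∀ d ∈ {p | ∃ g ∈ G, g x = p}, dist z a = ρ → dist z b = ρ → dist z c = ρ → dist z d = ρ →
      a ≠ b → a ≠ c → b ≠ c → False := by
    rintro z ρ hρ a ha b hb' c hc _ ⟨g, hg, rfl⟩ ea eb ec ed hab hac hbc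
    have hg' := G.inv_mem hg
    have ex : dist (g⁻¹ z) x = ρ := by rw [dist_comm, ← hd g hg, dist_comm, ed]
    have hu : ∀ p, dist (g⁻¹ z) p = ρ → bil ((Real.cosh ρ)⁻¹ • vec (g⁻¹ z)) (vec p) = 1 :=
      fun p hp => by rw [bil_smul, bil_vec, hp, inv_mul_cancel₀ (Real.cosh_pos ρ).ne']
    have key : ∀ p ∈ N, dist z p = ρ → g⁻¹ p ∈ {p | p ∈ N ∧ dist z0 p ≤ 5 * δ} ∧
        bil ((Real.cosh ρ)⁻¹ • vec (g⁻¹ z)) (vec (g⁻¹ p)) = 1 := fun p hp e => by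
      have e' : dist (g⁻¹ z) (g⁻¹ p) = ρ := by rw [fuchs_dist hG hg', e]
      refine ⟨⟨hN.inv _ hg' p hp, ?_⟩, hu _ e'⟩
      linarith [dist_triangle z0 x (g⁻¹ p), dist_triangle_left x (g⁻¹ p) (g⁻¹ z)]
    obtain ⟨ta, ua⟩ := key a ha ea
    obtain ⟨tb, ub⟩ := key b hb' eb
    obtain ⟨tc, uc⟩ := key c hc ec
    have h3 := cramer ((Real.cosh ρ)⁻¹ • vec (g⁻¹ z)) (g⁻¹ a) (g⁻¹ b) (g⁻¹ c) x
    rw [ua, ub, uc, hu x ex, mul_one, mul_one, mul_one, mul_one] at h3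
    exact hb _ ta _ tb _ tc (ori_ne ua ub uc (g⁻¹.injective.ne hab) (g⁻¹.injective.ne hac)
      (g⁻¹.injective.ne hbc)) h3.symm
  refine ⟨x, hx, fun h => by linarith [hz x h], N ∪ {p | ∃ g ∈ G, g x = p}, ⟨?_, ?_, ?_⟩,
    Set.insert_subset (Or.inr ⟨1, G.one_mem, rfl⟩) Set.subset_union_left⟩
  · rintro g hg p (hp | ⟨g', hg', rfl⟩)
    · exact Or.inl (hN.inv g hg p hp)
    · exact Or.inr ⟨g * g', G.mul_mem hg hg', rfl⟩
  · rintro p (hp | ⟨g, hg, rfl⟩) q (hq | ⟨g', hg', rfl⟩) hne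
    · exact hN.sep p hp q hq hne
    · rw [dist_comm]
      exact h1 g' hg' p hp
    · exact h1 g hg q hq
    · by_contra h
      exact hne (h2 g hg g' hg' (by linarith [not_le.1 h]))
  · rintro z ρ hρ a (ha | ha) b (hb | hb) c (hc | hc) d (hd | hd) ea eb ec ed
      hab hac hbc hda hdb hdc <;>
    first
      | exact hN.gen z ρ hρ a ha b hb c hc d hd ea eb ec ed hab hac hbc hda hdb hdc
      | exact hK z ρ hρ a ha b hb c hc d hd ea eb ec ed hab hac hbc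
      | exact hK z ρ hρ a ha b hb d hd c hc ea eb ed ec hab hda.symm hdb.symm
      | exact hK z ρ hρ a ha c hc d hd b hb ea ec ed eb hac hda.symm hdc.symm
      | exact hK z ρ hρ b hb c hc d hd a ha eb ec ed ea hbc hdb.symm hdc.symm
      | exact hab (hO z ρ hρ a ha b hb ea eb)
      | exact hac (hO z ρ hρ a ha c hc ea ec)
      | exact hbc (hO z ρ hρ b hb c hc eb ec)
      | exact hda (hO z ρ hρ d hd a ha ed ea)
      | exact hdb (hO z ρ hρ d hd b hb ed eb)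
      | exact hdc (hO z ρ hρ d hd c hc ed ec)

theorem exists_net {G : Subgroup (Perm ℍ)} {ε δ : ℝ} (hG : Fuchs G ε) (hδ : 0 < δ)
    (hε : 4 * δ < ε) : ∃ N : Set ℍ, Net N δ ∧ ∀ g ∈ G, ∀ x ∈ N, g x ∈ N := by
  obtain ⟨R, hR⟩ := hG.cocpt
  obtain ⟨P, hP⟩ := exists_pk hδ
  have hb : ∀ N, GenetGood G δ N → {p | p ∈ N ∧ dist I p ≤ R + δ}.Finite ∧
      {p | p ∈ N ∧ dist I p ≤ R + δ}.ncard ≤ P (R + δ) := fun N hN =>
    hP I (R + δ) _ (fun p hp => hp.2) fun p hp q hq => hN.sep p hp.1 q hq.1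
  have hfin : ((fun N : Set ℍ => {p | p ∈ N ∧ dist I p ≤ R + δ}.ncard) ''
      {N | GenetGood G δ N}).Finite := by
    refine (Set.finite_Iic (P (R + δ))).subset ?_
    rintro _ ⟨N, hN, rfl⟩
    exact (hb N hN).2
  have h0 : GenetGood G δ ∅ := ⟨by simp, by simp, by simp⟩
  obtain ⟨_, ⟨N, hN, rfl⟩, hmax⟩ := Set.exists_max_image _ id hfin ⟨_, ∅, h0, rfl⟩
  have hden : ∀ z, ∃ p ∈ N, dist z p ≤ 2 * δ := by
    intro z
    by_contra h
    push Not at h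
    obtain ⟨g, hg, hz⟩ := hR z
    obtain ⟨x, hx, hxN, N', hN', hs⟩ := genet_step hG hδ hε hP hN (z0 := g z) fun p hp => by
      have h1 := h _ (hN.inv _ (G.inv_mem hg) p hp)
      rw [← fuchs_dist hG hg] at h1
      simpa using h1
    have hx' : dist I x ≤ R + δ := by
      linarith [dist_triangle_left I x (g z)]
    refine absurd (hmax _ ⟨N', hN', rfl⟩) (not_le.2 (Set.ncard_lt_ncard ⟨fun p hp =>
      ⟨hs (Set.mem_insert_of_mem _ hp.1), hp.2⟩, fun h1 => ?_⟩ (hb N' hN').1))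
    exact hxN (h1 ⟨hs (Set.mem_insert _ _), hx'⟩).1
  refine ⟨N, ⟨hδ, hN.sep, hden, fun z a ha b hb c hc d hd hab hac hbc => ?_⟩, hN.inv⟩
  by_contra h
  push Not at h
  obtain ⟨p, hp, hzp⟩ := hden z
  have e : ∀ q ∈ near N z, dist z q = dist z a := fun q hq =>
    le_antisymm (hq.2 a ha.1) (ha.2 q hq.1)
  exact hN.gen z (dist z a) ((ha.2 p hp).trans hzp) a ha.1 b hb.1 c hc.1 d hd.1 rfl (e b hb)
    (e c hc) (e d hd) hab hac hbc h.1 h.2.1 h.2.2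

end Pool.Agent.MC.Ge
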