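import Pool.Agent.P.MP_2677b3_gt.GeDefs2
import Pool.Agent.P.MP_2677b3_gt.GePack

open UpperHalfPlane Equiv
open scoped MatrixGroups

noncomputable section

namespace Pool.Agent.MC.Ge

variable {G : Subgroup (Perm ℍ)} {ε c K : ℝ} {C : ℝ → ℕ} {f : ℝ → ℝ}

theorem UMap.c_nonneg (U : UMap G c K C f) : 0 ≤ c := by
  obtain ⟨d, hd⟩ := U.dense I
  exact dist_nonneg.trans hd

theorem UMap.K_nonneg (U : UMap G c K C f) : 0 ≤ K := by
  obtain ⟨d, -⟩ := U.dense I
  obtain ⟨p, -, hp⟩ := U.walk d d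
  rw [dist_self, mul_zero, zero_add] at hp
  exact (Nat.cast_nonneg _).trans hp

theorem UMap.dist_smul (U : UMap G c K C f) (hG : Fuchs G ε) (g : G) (a b : U.D) :
    dist (U.pos (g • a)) (U.pos (g • b)) = dist (U.pos a) (U.pos b) := by
  rw [U.pos_smul, U.pos_smul, fuchs_dist hG g.2]

theorem UMap.ψ_smul (U : UMap G c K C f) (g : G) (d : U.D) :
    (U.φ * U.α) (g • d) = g • (U.φ * U.α) d := by
  rw [Perm.mul_apply, Perm.mul_apply, U.α_smul, U.φ_smul]

theorem UMap.pos_ψ (U : UMap G c K C f) (d : U.D) : U.pos ((U.φ * U.α) d) = U.pos (U.α d) := by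
  rw [Perm.mul_apply, U.pos_φ]

theorem UMap.same_iff (U : UMap G c K C f) (a b : U.D) : (U.φ * U.α).SameCycle a b ↔
    b = a ∨ b = (U.φ * U.α) a ∨ b = (U.φ * U.α) ((U.φ * U.α) a) := by
  constructor
  · rintro ⟨k, rfl⟩
    have h3 : (U.φ * U.α) ^ (3 : ℤ) = 1 := by
      ext d
      exact U.tri d
    rw [zpow_eq_zpow_emod k h3]
    have h : k % 3 = 0 ∨ k % 3 = 1 ∨ k % 3 = 2 := by omega
    rcases h with h | h | h <;> rw [h]
    · exact Or.inl rfl
    · exact Or.inr (Or.inl rfl)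
    · exact Or.inr (Or.inr rfl)
  · rintro (rfl | rfl | rfl)
    · exact Perm.SameCycle.refl _ _
    · exact ⟨1, rfl⟩
    · exact ⟨2, rfl⟩

theorem UMap.same_smul (U : UMap G c K C f) (g : G) {a b : U.D}
    (h : (U.φ * U.α).SameCycle a b) : (U.φ * U.α).SameCycle (g • a) (g • b) := by
  rw [U.same_iff] at h ⊢
  rw [U.ψ_smul, U.ψ_smul]
  rcases h with rfl | rfl | rfl
  · exact Or.inl rfl
  · exact Or.inr (Or.inl rfl)
  · exact Or.inr (Or.inr rfl)

theorem UMap.same_dist (U : UMap G c K C f) {a b : U.D} (h : (U.φ * U.α).SameCycle a b) :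
    dist (U.pos a) (U.pos b) ≤ 2 * c := by
  obtain ⟨z, h1, h2, h3⟩ := U.ctr a
  have h4 : dist z (U.pos b) ≤ c := by
    rcases (U.same_iff a b).1 h with rfl | rfl | rfl
    exacts [h1, h2, h3]
  linarith [dist_triangle_left (U.pos a) (U.pos b) z]

theorem UMap.α_dist (U : UMap G c K C f) {a b : U.D} (h : (U.φ * U.α).SameCycle a b) :
    dist (U.pos a) (U.pos (U.α b)) ≤ 2 * c := by
  rw [← U.pos_ψ]
  exact U.same_dist (Perm.sameCycle_apply_right.2 h)

theorem UMap.free (U : UMap G c K C f) (hG : Fuchs G ε) (hc : 2 * c < ε) {g : G} {d : U.D}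
    (h : dist (U.pos d) (U.pos (g • d)) ≤ 2 * c) : g = 1 := by
  rw [U.pos_smul] at h
  exact Subtype.ext (fuchs_one hG g.2 (h.trans_lt hc))

/-- The orbit relation. -/
def gequot_st (U : UMap G c K C f) : Setoid U.D where
  r a b := ∃ g : G, g • a = b
  iseqv := ⟨fun a => ⟨1, one_smul _ a⟩, fun ⟨g, h⟩ => ⟨g⁻¹, by rw [← h, inv_smul_smul]⟩,
    fun ⟨g, h⟩ ⟨g', h'⟩ => ⟨g' * g, by rw [mul_smul, h, h']⟩⟩

/-- An equivariant permutation descends to the quotient. -/
def gequot_perm (U : UMap G c K C f) (σ : Perm U.D) (h : ∀ (g : G) d, σ (g • d) = g • σ d) :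
    Perm (Quotient (gequot_st U)) where
  toFun := Quotient.map σ fun _ _ ⟨g, hg⟩ => ⟨g, by rw [← h, hg]⟩
  invFun := Quotient.map σ.symm fun _ _ ⟨g, hg⟩ => ⟨g, σ.injective (by
    rw [h, σ.apply_symm_apply, σ.apply_symm_apply, hg])⟩
  left_inv := by
    rintro ⟨d⟩
    exact congrArg (Quotient.mk (gequot_st U)) (σ.symm_apply_apply d)
  right_inv := by
    rintro ⟨d⟩
    exact congrArg (Quotient.mk (gequot_st U)) (σ.apply_symm_apply d)

theorem exists_cov (hG : Fuchs G ε) (hc : 2 * c < ε) (U : UMap G c K C f) :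
    Nonempty (Cov U) := by
  have hfin : Finite (Quotient (gequot_st U)) := by
    obtain ⟨R, hR⟩ := hG.cocpt
    refine Set.finite_univ_iff.1 (((U.count I R).1.image (Quotient.mk (gequot_st U))).subset ?_)
    rintro ⟨d⟩ -
    obtain ⟨g, hg, h⟩ := hR (U.pos d)
    refine ⟨(⟨g, hg⟩ : G) • d, ?_, (Quotient.sound (s := gequot_st U) ⟨⟨g, hg⟩, rfl⟩).symm⟩
    show dist I (U.pos _) ≤ R
    rw [U.pos_smul, dist_comm]
    exact h
  let M : CMap :=
    { D := Quotient (gequot_st U)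
      fin := Fintype.ofFinite _
      α := gequot_perm U U.α U.α_smul
      φ := gequot_perm U U.φ U.φ_smul
      αα := by
        rintro ⟨d⟩
        exact congrArg (Quotient.mk (gequot_st U)) (U.αα d)
      αne := by
        rintro ⟨d⟩ h
        obtain ⟨g, hg⟩ := Quotient.exact (s := gequot_st U) h.symm
        have h1 : g = 1 := U.free hG hc (hg ▸ U.α_dist (Perm.SameCycle.refl _ d))
        rw [h1, one_smul] at hg
        exact U.pos_ne d (by rw [← hg]) }
  let π : U.D → M.D := Quotient.mk (gequot_st U)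
  have hψ : ∀ d, π ((U.φ * U.α) d) = M.ψ (π d) := fun d => rfl
  have hpow : ∀ (n : ℕ) d, π (((U.φ * U.α) ^ n) d) = (M.ψ ^ n) (π d) := by
    intro n
    induction n with
    | zero => exact fun d => rfl
    | succ n ih =>
      intro d
      rw [pow_succ', pow_succ', Perm.mul_apply, hψ, ih, Perm.mul_apply]
  let L : M.D → U.D := fun e => Quotient.out (s := gequot_st U)
    (Quotient.out (Quotient.mk (Perm.SameCycle.setoid M.ψ) e))
  have hex : ∀ e, ∃ d, π d = e ∧ (U.φ * U.α).SameCycle (L e) d := by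
    intro e
    have h1 : M.ψ.SameCycle (π (L e)) e := by
      have h2 : π (L e) = Quotient.out (Quotient.mk (Perm.SameCycle.setoid M.ψ) e) :=
        Quotient.out_eq _
      rw [h2]
      exact Quotient.mk_out (s := Perm.SameCycle.setoid M.ψ) e
    obtain ⟨n, -, hn⟩ := h1.exists_pow_eq'
    exact ⟨((U.φ * U.α) ^ n) (L e), (hpow n _).trans hn, n, by rw [zpow_natCast]⟩
  choose lift hl1 hl2 using hex
  have hπ : ∀ a b, π a = π b → ∃ g : G, g • a = b := fun a b h =>
    Quotient.exact (s := gequot_st U) h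
  have hhol : ∀ e, ∃ g : G, g • lift (M.α e) = U.α (lift e) := fun e => hπ _ _ (by
    rw [hl1]
    exact congrArg M.α (hl1 e).symm)
  choose hol hh using hhol
  refine ⟨⟨M, π, lift, hol, fun g d => (Quotient.sound (s := gequot_st U) ⟨g, rfl⟩).symm, hπ,
    fun d => rfl, fun d => rfl, hl1, fun e => ?_, fun e => (hh e).symm⟩⟩
  obtain ⟨g, hg⟩ := hπ (lift (M.ψ e)) ((U.φ * U.α) (lift e)) (by rw [hψ, hl1, hl1])
  have hL : L (M.ψ e) = L e := by
    have : Quotient.mk (Perm.SameCycle.setoid M.ψ) (M.ψ e) = Quotient.mk _ e :=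
      Quotient.sound (Perm.sameCycle_apply_left.2 (Perm.SameCycle.refl _ e))
    simp only [L, this]
  have h1 : (U.φ * U.α).SameCycle (lift (M.ψ e)) ((U.φ * U.α) (lift e)) :=
    (hl2 _).symm.trans (Perm.sameCycle_apply_right.2 (hL ▸ hl2 e))
  have h2 : g = 1 := U.free hG hc (hg ▸ U.same_dist h1)
  rw [← hg, h2, one_smul]

end Pool.Agent.MC.Ge
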