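import Pool.Agent.P.MP_2677b3_gt.GeWalk
import Pool.Agent.P.MP_2677b3_gt.GeDual
import Pool.Agent.P.MP_2677b3_gt.GeNet

open UpperHalfPlane Equiv
open scoped MatrixGroups

noncomputable section

namespace Pool.Agent.MC.Ge

section
variable {G : Subgroup (Perm ℍ)} {ε δ : ℝ} {N : Set ℍ}

theorem um_near (hG : Fuchs G ε) (hN : ∀ g ∈ G, ∀ x ∈ N, g x ∈ N) (g : G) {x z : ℍ}
    (h : x ∈ near N z) : g.1 x ∈ near N (g.1 z) := by
  refine ⟨hN _ g.2 _ h.1, fun p hp => ?_⟩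
  have h1 := h.2 _ (hN _ (g⁻¹).2 p hp)
  have h2 : p = g.1 ((g⁻¹).1 p) := by simp
  rw [h2, fuchs_dist hG g.2, fuchs_dist hG g.2]
  exact h1

theorem um_edge (hG : Fuchs G ε) (hN : ∀ g ∈ G, ∀ x ∈ N, g x ∈ N) (g : G) {x y : ℍ}
    (h : Edge N x y) : Edge N (g.1 x) (g.1 y) := by
  obtain ⟨h1, z, h2, h3⟩ := h
  exact ⟨fun h => h1 (g.1.injective h), g.1 z, um_near hG hN g h2, um_near hG hN g h3⟩

theorem um_tri (hG : Fuchs G ε) (hN : ∀ g ∈ G, ∀ x ∈ N, g x ∈ N) (g : G) {x y w : ℍ}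
    (h : Tri N x y w) : Tri N (g.1 x) (g.1 y) (g.1 w) := by
  obtain ⟨h1, z, h2, h3, h4⟩ := h
  refine ⟨?_, g.1 z, um_near hG hN g h2, um_near hG hN g h3, um_near hG hN g h4⟩
  obtain ⟨A, hA⟩ := hG.mob _ g.2
  rw [hA, hA, hA, ori_smul]
  exact h1

theorem um_act (hG : Fuchs G ε) (hN : ∀ g ∈ G, ∀ x ∈ N, g x ∈ N) (X : DMap N) :
    ∃ m : G → X.D → X.D, ∀ g d, X.pos (m g d) = g.1 (X.pos d) ∧
      X.pos (X.α (m g d)) = g.1 (X.pos (X.α d)) := by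
  choose m hm using fun (g : G) (d : X.D) => X.surj _ _ (um_edge hG hN g (X.edge d))
  exact ⟨m, hm⟩

end

theorem exists_umap {ε δ : ℝ} (hδ : 0 < δ) (hε : 4 * δ < ε) :
    ∃ (K : ℝ) (C : ℝ → ℕ) (f : ℝ → ℝ), ∀ G : Subgroup (Perm ℍ), Fuchs G ε →
      Nonempty (UMap G (2 * δ) K C f) := by
  obtain ⟨P, hP⟩ := exists_pk hδ
  obtain ⟨f0, hf⟩ := exists_ext
  obtain ⟨K, hK⟩ := walk_bound δ P
  refine ⟨K, fun ρ => P (ρ + 4 * δ) * P (ρ + 4 * δ), fun ρ => f0 (ρ + 7 * δ), fun G hG => ?_⟩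
  obtain ⟨N, h, hN⟩ := exists_net hG hδ hε
  obtain ⟨X⟩ := h.exists_dmap
  obtain ⟨m, hm⟩ := um_act hG hN X
  let act : MulAction G X.D :=
    { smul := m
      one_smul := fun d => X.ext (m 1 d) d (by simp [(hm 1 d).1]) (by simp [(hm 1 d).2])
      mul_smul := fun g g' d => X.ext (m (g * g') d) (m g (m g' d))
        (by simp [(hm _ _).1]) (by simp [(hm _ _).2]) }
  refine ⟨{
    D := X.D
    act := act
    α := X.α
    φ := X.φ
    pos := X.pos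
    αα := X.αα
    α_smul := fun g d => X.ext (X.α (m g d)) (m g (X.α d)) ?_ ?_
    φ_smul := fun g d => X.φ_eq h (a := m g d) (b := m g (X.φ d)) ?_ ?_
    pos_smul := fun g d => (hm g d).1
    pos_φ := X.pos_φ
    pos_ne := fun d => (X.edge d).1.symm
    tri := X.ψψψ h
    ctr := X.ctr h
    count := X.count h hP
    dense := fun z => ?_
    walk := hK N h hP X
    pot := fun Γ _ χ h1 h2 => X.pot h Γ χ h1 h2
    fill := fun o ρ ω h1 h2 h3 => X.fill h hf o ρ ω h1 h2 h3 }⟩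
  · rw [(hm _ _).2, (hm _ _).1]
  · rw [X.αα, (hm _ _).2, (hm _ _).1, X.αα]
  · rw [(hm _ _).1, (hm _ _).1, X.pos_φ]
  · rw [(hm _ _).1, (hm _ _).2, (hm _ _).2]
    exact um_tri hG hN g (X.tri_φ d)
  · obtain ⟨x, hx, hd⟩ := h.dense z
    obtain ⟨d, rfl⟩ := X.exists_pos h hx
    exact ⟨d, hd⟩

end Pool.Agent.MC.Ge
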