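import Pool.Agent.P.MP_2677b3_gt.GeDefs2
import Pool.Agent.P.MP_2677b3_gt.GeDel2

open UpperHalfPlane Equiv
open scoped MatrixGroups

noncomputable section

namespace Pool.Agent.MC.Ge

variable {N : Set ℍ} {δ : ℝ} {P : ℝ → ℕ}

theorem Net.exists_dmap (h : Net N δ) : Nonempty (DMap N) := by
  choose nxt hn using fun e : {e : ℍ × ℍ // Edge N e.1 e.2} => h.exists_tri e.2
  let sw : {e : ℍ × ℍ // Edge N e.1 e.2} → {e : ℍ × ℍ // Edge N e.1 e.2} :=
    fun e => ⟨(e.1.2, e.1.1), e.2.symm⟩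
  refine ⟨{
    D := {e : ℍ × ℍ // Edge N e.1 e.2}
    α := ⟨sw, sw, fun _ => rfl, fun _ => rfl⟩
    φ := ⟨fun e => ⟨(e.1.1, nxt e), (hn e).edge'⟩,
      fun e => ⟨(e.1.1, nxt (sw e)), (hn (sw e)).cyc.edge⟩,
      fun e => Subtype.ext (Prod.ext rfl (h.tri_unique (hn (sw ⟨_, (hn e).edge'⟩)) (hn e).cyc.cyc)),
      fun e => Subtype.ext (Prod.ext rfl
        (h.tri_unique (hn ⟨_, (hn (sw e)).cyc.edge⟩) (hn (sw e)).cyc))⟩
    pos := fun e => e.1.1
    αα := fun _ => rfl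
    edge := fun e => e.2
    ext := fun a b h1 h2 => Subtype.ext (Prod.ext h1 h2)
    surj := fun x y he => ⟨⟨(x, y), he⟩, rfl, rfl⟩
    pos_φ := fun _ => rfl
    tri_φ := fun e => hn e }⟩

namespace DMap

variable (X : DMap N)

theorem φ_eq (h : Net N δ) {a b : X.D} (h1 : X.pos a = X.pos b)
    (h2 : Tri N (X.pos a) (X.pos (X.α a)) (X.pos (X.α b))) : X.φ a = b := by
  exact X.ext _ _ ((X.pos_φ a).trans h1) (h.tri_unique (X.tri_φ a) h2)

theorem pos_ψ (d : X.D) : X.pos ((X.φ * X.α) d) = X.pos (X.α d) := by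
  rw [Perm.mul_apply, X.pos_φ]

theorem tri_ψ (d : X.D) :
    Tri N (X.pos (X.α d)) (X.pos d) (X.pos ((X.φ * X.α) ((X.φ * X.α) d))) := by
  have := X.tri_φ (X.α d)
  rw [X.αα] at this
  rw [X.pos_ψ, Perm.mul_apply]
  exact this

theorem pos_αψψ (h : Net N δ) (d : X.D) :
    X.pos (X.α ((X.φ * X.α) ((X.φ * X.α) d))) = X.pos d := by
  have h1 := X.tri_ψ ((X.φ * X.α) d)
  have h2 := (X.tri_ψ d).cyc.cyc
  rw [X.pos_ψ d, X.pos_ψ ((X.φ * X.α) ((X.φ * X.α) d))] at h1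
  rw [X.pos_ψ] at h2
  exact h.tri_unique h1 h2

theorem ψψψ (h : Net N δ) (d : X.D) : (X.φ * X.α) ((X.φ * X.α) ((X.φ * X.α) d)) = d := by
  have h0 := X.pos_αψψ h d
  rw [Perm.mul_apply]
  refine X.φ_eq h h0 ?_
  rw [X.αα, h0]
  exact (X.tri_ψ d).cyc

theorem ctr (h : Net N δ) (d : X.D) : ∃ z, dist z (X.pos d) ≤ 2 * δ ∧
    dist z (X.pos ((X.φ * X.α) d)) ≤ 2 * δ ∧
    dist z (X.pos ((X.φ * X.α) ((X.φ * X.α) d))) ≤ 2 * δ := by
  obtain ⟨-, z, h1, h2, h3⟩ := X.tri_ψ d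
  exact ⟨z, h.near_dist h2, by rw [X.pos_ψ]; exact h.near_dist h1, h.near_dist h3⟩

theorem count (h : Net N δ) (hP : Pk δ P) (z : ℍ) (ρ : ℝ) :
    {d | dist z (X.pos d) ≤ ρ}.Finite ∧
      {d | dist z (X.pos d) ≤ ρ}.ncard ≤ P (ρ + 4 * δ) * P (ρ + 4 * δ) := by
  obtain ⟨hf, hc⟩ := hP z (ρ + 4 * δ) {p | p ∈ N ∧ dist z p ≤ ρ + 4 * δ} (fun p hp => hp.2)
    fun p hp q hq => h.sep p hp.1 q hq.1
  have hm : ∀ d ∈ {d | dist z (X.pos d) ≤ ρ}, (X.pos d, X.pos (X.α d)) ∈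
      {p | p ∈ N ∧ dist z p ≤ ρ + 4 * δ} ×ˢ {p | p ∈ N ∧ dist z p ≤ ρ + 4 * δ} := by
    intro d hd
    have h1 : dist z (X.pos d) ≤ ρ := hd
    have h2 := h.edge_dist (X.edge d)
    have h3 := dist_triangle z (X.pos d) (X.pos (X.α d))
    have h4 := h.pos
    exact ⟨⟨(X.edge d).mem.1, by linarith⟩, (X.edge d).mem.2, by linarith⟩
  have hi : Set.InjOn (fun d => (X.pos d, X.pos (X.α d))) {d | dist z (X.pos d) ≤ ρ} :=
    fun a _ b _ e => X.ext a b (congrArg Prod.fst e) (congrArg Prod.snd e)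
  refine ⟨Set.Finite.of_injOn hm hi (hf.prod hf), ?_⟩
  refine (Set.ncard_le_ncard_of_injOn _ hm hi (hf.prod hf)).trans ?_
  rw [Set.ncard_prod]
  exact Nat.mul_le_mul hc hc

theorem exists_pos (h : Net N δ) {x : ℍ} (hx : x ∈ N) : ∃ d, X.pos d = x := by
  obtain ⟨w, hw⟩ := exists_far x (2 * δ)
  obtain ⟨o, ho, hd⟩ := h.dense w
  have hne : x ≠ o := by
    rintro rfl
    rw [dist_comm] at hd
    linarith
  obtain ⟨y, he, -⟩ := h.greedy hx ho hne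
  obtain ⟨d, hd, -⟩ := X.surj x y he
  exact ⟨d, hd⟩

theorem up_pos_iter (n : ℕ) (a : X.D) : X.pos (X.φ^[n] a) = X.pos a := by
  induction n with
  | zero => rfl
  | succ n ih => rw [Function.iterate_succ_apply', X.pos_φ, ih]

theorem period (h : Net N δ) (a : X.D) : ∃ n, 0 < n ∧ X.φ^[n] a = a := by
  obtain ⟨P, hP⟩ := exists_pk h.pos
  obtain ⟨m, n, hmn, e⟩ := (X.count h hP (X.pos a) 0).1.exists_lt_map_eq_of_forall_mem
    (f := fun n : ℕ => X.φ^[n] a) fun n => by simp [X.up_pos_iter]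
  obtain ⟨k, rfl⟩ := Nat.exists_eq_add_of_lt hmn
  refine ⟨k + 1, Nat.succ_pos _, (X.φ.injective.iterate m) ?_⟩
  rw [← Function.iterate_add_apply, ← add_assoc]
  exact e.symm

theorem face (h : Net N δ) (hP : Pk δ P) {a b : X.D} (hab : X.pos a = X.pos b) :
    ∃ n, n ≤ P (4 * δ) ∧ X.φ^[n] a = b := by
  have key : ∀ a : X.D, ∀ y, Relation.ReflTransGen (Tri N (X.pos a)) (X.pos (X.α a)) y →
      ∃ n, X.pos (X.α (X.φ^[n] a)) = y := by
    intro a y hy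
    induction hy with
    | refl => exact ⟨0, rfl⟩
    | tail _ ht ih =>
      obtain ⟨n, rfl⟩ := ih
      refine ⟨n + 1, ?_⟩
      rw [Function.iterate_succ_apply']
      have := X.tri_φ (X.φ^[n] a)
      rw [X.up_pos_iter] at this
      exact h.tri_unique this ht
  obtain ⟨p, hp, hper⟩ := X.period h a
  have hex : ∃ n, X.φ^[n] a = b := by
    rcases h.link_conn (X.edge a) (hab ▸ X.edge b) with hc | hc
    · obtain ⟨n, hn⟩ := key a _ hc
      exact ⟨n, X.ext _ _ ((X.up_pos_iter n a).trans hab) hn⟩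
    · obtain ⟨n, hn⟩ := key b _ (hab ▸ hc)
      have e : X.φ^[n] b = a := X.ext _ _ ((X.up_pos_iter n b).trans hab.symm) hn
      refine ⟨p * n - n, X.φ.injective.iterate n ?_⟩
      rw [← Function.iterate_add_apply, Nat.add_sub_cancel' (Nat.le_mul_of_pos_left n hp), e]
      exact Function.IsPeriodicPt.mul_const hper n
  obtain ⟨n, rfl⟩ := hex
  have hpos : 0 < Function.minimalPeriod X.φ a :=
    Function.IsPeriodicPt.minimalPeriod_pos hp hper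
  refine ⟨n % Function.minimalPeriod X.φ a, (Nat.mod_lt _ hpos).le.trans ?_,
    Function.iterate_mod_minimalPeriod_eq⟩
  obtain ⟨hf, hc⟩ := hP (X.pos a) (4 * δ) {p | p ∈ N ∧ dist (X.pos a) p ≤ 4 * δ}
    (fun p hp => hp.2) fun p hp q hq => h.sep p hp.1 q hq.1
  refine le_trans ?_ hc
  rw [← Set.ncard_Iio_nat (Function.minimalPeriod X.φ a)]
  refine Set.ncard_le_ncard_of_injOn (fun m => X.pos (X.α (X.φ^[m] a))) (fun m _ => ?_)
    (fun m hm m' hm' e => ?_) hf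
  · have := X.edge (X.φ^[m] a)
    rw [X.up_pos_iter] at this
    exact ⟨this.mem.2, h.edge_dist this⟩
  · exact Function.iterate_injOn_Iio_minimalPeriod hm hm'
      (X.ext _ _ ((X.up_pos_iter m a).trans (X.up_pos_iter m' a).symm) e)

end DMap

end Pool.Agent.MC.Ge
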