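import Pool.Agent.P.MP_2677b3_gt.GeUp

open UpperHalfPlane Equiv
open scoped MatrixGroups

noncomputable section

namespace Pool.Agent.MC.Ge

/-- `a` and `b` are joined by a path of length at most `n`. -/
def gewalkW {N : Set ℍ} (X : DMap N) (a b : X.D) (n : ℕ) : Prop :=
  ∃ p, UPath X.α X.φ a p b ∧ p.length ≤ n

section

variable {N : Set ℍ} {δ : ℝ} {P : ℝ → ℕ} {X : DMap N}

theorem gewalk_mono {a b : X.D} {n m : ℕ} (h : gewalkW X a b n) (hm : n ≤ m) : gewalkW X a b m :=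
  let ⟨p, h1, h2⟩ := h; ⟨p, h1, h2.trans hm⟩

theorem gewalk_trans {a b c : X.D} {n m : ℕ} (h : gewalkW X a b n) (h' : gewalkW X b c m) :
    gewalkW X a c (n + m) := by
  obtain ⟨p, h1, h2⟩ := h
  obtain ⟨q, h3, h4⟩ := h'
  exact ⟨p ++ q, IsPath.append h1 h3, by rw [List.length_append]; omega⟩

theorem gewalk_psi (a : X.D) : gewalkW X a ((X.φ * X.α) a) 0 :=
  ⟨[], Quotient.sound (Perm.sameCycle_apply_right.2 (Perm.SameCycle.refl _ _)), le_rfl⟩

theorem gewalk_phi (a : X.D) : gewalkW X a (X.φ a) 1 := by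
  refine ⟨[a], ⟨rfl, Quotient.sound ?_⟩, le_rfl⟩
  have e : X.φ a = (X.φ * X.α) (X.α a) := by rw [Perm.mul_apply, X.αα]
  rw [e]
  exact Perm.sameCycle_apply_right.2 (Perm.SameCycle.refl _ _)

theorem gewalk_iter (a : X.D) (n : ℕ) : gewalkW X a (X.φ^[n] a) n := by
  induction n with
  | zero => exact ⟨[], rfl, le_rfl⟩
  | succ n ih =>
    rw [Function.iterate_succ_apply']
    exact gewalk_trans ih (gewalk_phi _)

theorem gewalk_face (h : Net N δ) (hP : Pk δ P) {a b : X.D} (hab : X.pos a = X.pos b) :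
    gewalkW X a b (P (4 * δ)) := by
  obtain ⟨n, h1, rfl⟩ := X.face h hP hab
  exact gewalk_mono (gewalk_iter a n) h1

theorem gewalk_rank (h : Net N δ) (hP : Pk δ P) (b : X.D) (n : ℕ) : ∀ a : X.D,
    {p | p ∈ N ∧ dist (X.pos b) p < dist (X.pos b) (X.pos a)}.ncard ≤ n →
      gewalkW X a b ((n + 1) * P (4 * δ)) := by
  induction n using Nat.strong_induction_on with
  | _ n ih =>
    intro a ha
    by_cases hab : X.pos a = X.pos b
    · exact gewalk_mono (gewalk_face h hP hab) (Nat.le_mul_of_pos_left _ (Nat.succ_pos n))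
    obtain ⟨y, hy, hd⟩ := h.greedy (X.edge a).mem.1 (X.edge b).mem.1 hab
    obtain ⟨e, h1, h2⟩ := X.surj _ _ hy
    have h3 : X.pos ((X.φ * X.α) e) = y := (X.pos_ψ e).trans h2
    have hlt : {p | p ∈ N ∧ dist (X.pos b) p < dist (X.pos b) y}.ncard <
        {p | p ∈ N ∧ dist (X.pos b) p < dist (X.pos b) (X.pos a)}.ncard := by
      refine Set.ncard_lt_ncard ⟨fun p hp => ⟨hp.1, hp.2.trans hd⟩, fun hs => ?_⟩
        ((h.finite_ball (X.pos b) (dist (X.pos b) (X.pos a))).subset fun p hp => ⟨hp.1, hp.2.le⟩)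
      exact lt_irrefl _ (hs ⟨hy.mem.2, hd⟩).2
    obtain ⟨m, rfl⟩ : ∃ m, n = m + 1 := ⟨n - 1, by omega⟩
    have h4 := ih m (Nat.lt_succ_self m) ((X.φ * X.α) e) (by rw [h3]; omega)
    refine gewalk_mono
      (gewalk_trans (gewalk_trans (gewalk_face h hP h1.symm) (gewalk_psi e)) h4) (le_of_eq ?_)
    ring

theorem gewalk_near (h : Net N δ) (hP : Pk δ P) {a b : X.D}
    (hab : dist (X.pos b) (X.pos a) ≤ 1 + 4 * δ) :
    gewalkW X a b ((P (1 + 4 * δ) + 1) * P (4 * δ)) :=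
  gewalk_rank h hP b _ a (hP (X.pos b) _ _ (fun _ hp => hp.2.le.trans hab)
    fun p hp q hq hne => h.sep p hp.1 q hq.1 hne).2

theorem gewalk_pow (h : Net N δ) (hP : Pk δ P) (k : ℕ) : ∀ (z w : ℍ) (a b : X.D),
    dist z w ≤ 2 ^ k → dist z (X.pos a) ≤ 2 * δ → dist w (X.pos b) ≤ 2 * δ →
      gewalkW X a b (2 ^ k * ((P (1 + 4 * δ) + 1) * P (4 * δ))) := by
  induction k with
  | zero =>
    intro z w a b h1 h2 h3
    rw [pow_zero, one_mul]
    refine gewalk_near h hP ?_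
    have h4 := dist_triangle4 (X.pos b) w z (X.pos a)
    rw [dist_comm (X.pos b) w, dist_comm w z] at h4
    rw [pow_zero] at h1
    linarith
  | succ k ih =>
    intro z w a b h1 h2 h3
    obtain ⟨m, m1, m2⟩ := exists_mid z w
    obtain ⟨p, hp, p1⟩ := h.dense m
    obtain ⟨c, rfl⟩ := X.exists_pos h hp
    rw [pow_succ] at h1
    refine gewalk_mono (gewalk_trans (ih z m a c (by linarith) h2 p1)
      (ih m w c b (by linarith) p1 h3)) (le_of_eq ?_)
    ring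

end

/-- Darts are joined by paths of length linear in the distance. -/
theorem walk_bound (δ : ℝ) (P : ℝ → ℕ) : ∃ K : ℝ, ∀ N : Set ℍ, Net N δ → Pk δ P →
    ∀ (X : DMap N) (a b : X.D), ∃ p, UPath X.α X.φ a p b ∧
      (p.length : ℝ) ≤ K * dist (X.pos a) (X.pos b) + K := by
  refine ⟨2 * (((P (1 + 4 * δ) + 1) * P (4 * δ) : ℕ) : ℝ), fun N h hP X a b => ?_⟩
  have hδ := h.pos
  have hd : 0 ≤ dist (X.pos a) (X.pos b) := dist_nonneg
  obtain ⟨k, h1, h2⟩ := exists_nat_pow_near (x := dist (X.pos a) (X.pos b) + 1) (y := (2 : ℝ))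
    (by linarith) one_lt_two
  obtain ⟨p, p1, p2⟩ := gewalk_pow h hP (k + 1) (X.pos a) (X.pos b) a b (by linarith)
    (by rw [dist_self]; linarith) (by rw [dist_self]; linarith)
  refine ⟨p, p1, ?_⟩
  generalize (P (1 + 4 * δ) + 1) * P (4 * δ) = B at *
  have p3 : (p.length : ℝ) ≤ 2 ^ (k + 1) * (B : ℝ) := by exact_mod_cast p2
  have hB : (0 : ℝ) ≤ B := Nat.cast_nonneg B
  rw [pow_succ] at p3
  nlinarith [mul_le_mul_of_nonneg_right h1 hB]

end Pool.Agent.MC.Ge
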