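import Pool.Agent.P.MP_2677b3_gt.LZ3

/-! A cocycle mod two supported inside a piece without handles is a coboundary there. -/

open Equiv Function

noncomputable section

namespace Pool.Agent.MC.LL

theorem hda_two (a : ZMod 2) : a + a = 0 := by revert a; decide

/-- Jumps across non-crossing chords vanish when they add up to zero along every face. -/
theorem hda_chords {D : Type} [Finite D] (X y : Perm D) (hy : ∀ d, y (y d) = d) (P : Set D)
    (hP : ∀ d ∈ P, ∀ e, X.SameCycle d e ↔ e ∈ P) (hyP : ∀ d, y d ≠ d → d ∈ P)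
    (hnc : ∀ a b, y a ≠ a → y b ≠ b → b ≠ a → b ≠ y a →
      (X * rs y hy {a}).SameCycle b (y b)) (π j : D → ZMod 2)
    (p1 : ∀ d ∈ P, π ((X * y) d) = π d + j d) (p2 : ∀ d, y d = d → j d = 0)
    (p3 : ∀ d, j (y d) = j d) (a : D) : j a = 0 := by
  classical
  obtain ⟨o, idx, h1, h2, h3, h4, h5, -⟩ := exists_idx X
  have hs : ∀ d ∈ P, ∀ e ∈ P, X.SameCycle d e := fun d hd e he => (hP d hd e).2 he
  have inj : ∀ d ∈ P, ∀ e ∈ P, idx d = idx e → d = e := fun d hd e he h => by
    rw [← h3 d, ← h3 e, h, h2 d e (hs d hd e he)]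
  have nx : ∀ d ∈ P, ∀ e ∈ P, idx d < idx e → X d ∈ P ∧ idx (X d) = idx d + 1 := by
    refine fun d hd e he h => ⟨(hP d hd _).1 (Perm.sameCycle_apply_right.2 (.refl _ _)), ?_⟩
    have h6 := h5 d (idx d + 1) (by have := h4 e; rw [← sz_congr (hs d hd e he)] at this; omega)
    rwa [pow_succ', Perm.mul_apply, h3] at h6
  let I : D → Set D := fun a => {d | d ∈ P ∧ idx (y a) < idx d ∧ idx d ≤ idx a}
  have my : ∀ d, y d ≠ d → y d ∈ P := fun d h => hyP _ (by rw [hy]; exact h.symm)
  have st : ∀ a, y a ≠ a → idx (y a) < idx a → ∀ d, d ∈ I a ∧ d ≠ a ∨ d = y a → X d ∈ I a := by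
    rintro a ha hl d (⟨⟨k1, k2, k3⟩, k4⟩ | rfl)
    · have k5 := lt_of_le_of_ne k3 fun e => k4 (inj _ k1 _ (hyP a ha) e)
      obtain ⟨k6, k7⟩ := nx d k1 a (hyP a ha) k5
      exact ⟨k6, by omega, by omega⟩
    · obtain ⟨k6, k7⟩ := nx _ (my a ha) a (hyP a ha) hl
      exact ⟨k6, by omega, by omega⟩
  have cy : ∀ a, y a ≠ a → idx (y a) < idx a → ∀ d ∈ I a, d ≠ a → y d ∈ I a ∧ y d ≠ a := by
    intro a ha hl d hd e
    have n1 : d ≠ y a := fun e => by
      have := hd.2.1
      rw [e] at this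
      omega
    refine ⟨?_, fun e' => n1 (by rw [← e', hy])⟩
    by_cases e' : y d = d
    · rwa [e']
    refine lz3_fwd (fun u hu => st a ha hl (rs y hy {a} u) ?_) (hnc a d ha e' e n1) hd
    by_cases k : u = a
    · exact Or.inr ((rs_pos (U := {a}) (d := u) (Or.inl k)).trans (congrArg y k))
    · have k2 : y u ≠ a := fun k' => by
        have := hu.2.1
        rw [← k', hy] at this
        omega
      rw [rs_neg (U := {a}) (d := u) (not_or.2 ⟨k, k2⟩)]
      exact Or.inl ⟨hu, k⟩
  have key : ∀ a, y a ≠ a → idx (y a) < idx a → j a = 0 := by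
    intro a ha hl
    have cl : ∀ d ∈ I a, (X * y) d ∈ I a := fun d hd => by
      by_cases e : d = a
      · exact st a ha hl _ (Or.inr (congrArg y e))
      · exact st a ha hl _ (Or.inl (cy a ha hl d hd e))
    obtain ⟨s, hs⟩ : ∃ s : Finset D, ∀ d, d ∈ s ↔ d ∈ I a :=
      ⟨(Set.toFinite (I a)).toFinset, fun d => Set.Finite.mem_toFinset _⟩
    have im : s.image (X * y) = s := Finset.eq_of_subset_of_card_le
      (fun e he => by
        obtain ⟨d, hd, rfl⟩ := Finset.mem_image.1 he
        exact (hs _).2 (cl d ((hs d).1 hd)))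
      (Finset.card_image_of_injective _ (X * y).injective).ge
    have e1 : ∑ d ∈ s, π ((X * y) d) = ∑ d ∈ s, π d := by
      conv_rhs => rw [← im]
      rw [Finset.sum_image fun _ _ _ _ h => (X * y).injective h]
    rw [Finset.sum_congr rfl fun d hd => p1 d ((hs d).1 hd).1, Finset.sum_add_distrib,
      add_eq_left] at e1
    have ma : a ∈ s := (hs a).2 ⟨hyP a ha, hl, le_rfl⟩
    rw [← Finset.add_sum_erase s j ma] at e1
    have e2 : ∑ d ∈ s.erase a, j d = 0 := by
      refine Finset.sum_involution (fun d _ => y d) (fun d _ => by rw [p3, hda_two])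
        (fun d _ h e => h (p2 d e)) (fun d hd => ?_) fun d _ => hy d
      obtain ⟨k1, k2⟩ := Finset.mem_erase.1 hd
      obtain ⟨k3, k4⟩ := cy a ha hl d ((hs d).1 k2) k1
      exact Finset.mem_erase.2 ⟨k4, (hs _).2 k3⟩
    rwa [e2, add_zero] at e1
  by_cases ha : y a = a
  · exact p2 a ha
  rcases lt_trichotomy (idx (y a)) (idx a) with h | h | h
  · exact key a ha h
  · exact absurd (inj _ (my a ha) _ (hyP a ha) h) ha
  · rw [← p3]
    exact key (y a) (by rw [hy]; exact Ne.symm ha) (by rwa [hy])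

/-- The cocycle has a potential that is constant round the inner vertices of the piece. -/
theorem hda_planar {D : Type} [Finite D] {α φ : Perm D} (hα : ∀ d, α (α d) = d) {Δ : ℕ}
    (hne : ∀ d, α d ≠ d) (hΔ : ∀ d, sz φ d ≤ Δ) {P U : Set D} {rk : D → ℕ} {root : D}
    (ht : Tr α φ P U rk root) {ρ : ℕ} (hρ : ∀ d ∈ P, rk d ≤ ρ)
    (hno : ∀ H : Hdl α φ hα ((4 * ρ + 4) * Δ), ¬ H.B ⊆ P) (c : D → ZMod 2)
    (c1 : ∀ d, c (α d) = c d) (c2 : Pot φ fun d => Multiplicative.ofAdd (c d))
    (c3 : ∀ d ∈ P, α d ∉ P → c d = 0) :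
    ∃ π : D → ZMod 2, (∀ d, π (φ d) = π d + c d) ∧ ∀ d ∈ P, α d ∈ P → π (φ (α d)) = π d := by
  classical
  obtain ⟨π, hπ⟩ := (ht.tree (h := hα)).2 (Multiplicative (ZMod 2))
    (fun d => if On α U d then Multiplicative.ofAdd (c d) else 1) _ (by
      rw [pot_iff]
      intro d n hn
      by_cases hd : On α U d
      · have e : ∀ k : ℕ, On α U ((rs α hα U ^ k) d) ∧ c ((rs α hα U ^ k) d) = c d ∧
            ((rs α hα U ^ k) d = if Even k then d else α d) := fun k => by
          induction k with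
          | zero => exact ⟨hd, rfl, by simp⟩
          | succ k ih =>
            rw [pow_succ', Perm.mul_apply, rs_pos ih.1, On.al hα, c1]
            refine ⟨ih.1, ih.2.1, ?_⟩
            rw [ih.2.2]
            by_cases hk : Even k <;> simp [hk, Nat.even_add_one, hα]
        have e2 : ((List.range n).map fun k => if On α U ((rs α hα U ^ k) d) then
            Multiplicative.ofAdd (c ((rs α hα U ^ k) d)) else 1) =
            List.replicate n (Multiplicative.ofAdd (c d)) := by
          rw [List.eq_replicate_iff]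
          refine ⟨by simp, fun b hb => ?_⟩
          obtain ⟨k, -, rfl⟩ := List.mem_map.1 hb
          rw [if_pos (e k).1, (e k).2.1]
        rw [e2, List.prod_replicate]
        by_cases hk : Even n
        · obtain ⟨m, rfl⟩ := hk
          rw [pow_add, ← mul_pow, ← ofAdd_add, hda_two, ofAdd_zero, one_pow]
        · have e3 := (e n).2.2
          rw [if_neg hk, hn] at e3
          rcases hd with hd | hd
          · have := ht.dec d hd
            rw [← e3] at this
            omega
          · have := ht.dec _ hd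
            rw [hα, ← e3] at this
            omega
      · have e : ∀ k : ℕ, (rs α hα U ^ k) d = d := fun k => by
          induction k with
          | zero => rfl
          | succ k ih => rw [pow_succ', Perm.mul_apply, ih, rs_neg hd]
        simp [e, hd]) c2
  obtain ⟨p, hp⟩ : ∃ p : D → ZMod 2, ∀ d, p d = Multiplicative.toAdd (π d) := ⟨_, fun _ => rfl⟩
  have p1 : ∀ d, p (φ d) = p d + c d := fun d => by rw [hp, hp, (hπ d).2]; rfl
  have p2 : ∀ d, On α U d → p (φ (α d)) = p d := fun d hd => by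
    have := (hπ d).1
    rw [rs_pos hd, if_pos hd] at this
    rw [p1, c1, hp, this, hp, toAdd_mul, toAdd_ofAdd, add_assoc, hda_two, add_zero]
  refine ⟨p, p1, fun d hd hd' => ?_⟩
  let V : Set D := {d | d ∈ P ∧ α d ∈ P ∧ ¬ On α U d}
  have v1 : ∀ d, α d ∈ V ↔ d ∈ V := fun d => by
    simp only [V, Set.mem_ofPred_eq, hα, On.al hα]
    tauto
  have y1 : ∀ d ∈ V, rs α hα V d = α d := fun d hd => rs_pos (Or.inl hd)
  have y3 : ∀ d, d ∉ V → rs α hα V d = d := fun d k => rs_neg fun e => k (e.elim id (v1 d).1)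
  have y2 : ∀ d, rs α hα V d ≠ d → d ∈ V := fun d hd => by
    by_contra k
    exact hd (y3 d k)
  by_cases k0 : On α U d
  · exact p2 d k0
  have k := hda_chords (φ * rs α hα U) (rs α hα V) rs_rs P (fun d hd e => ht.one hd e)
    (fun d hd => (y2 d hd).1) (fun a b ha hb n1 n2 => by
      have a1 := y2 a ha
      rw [y1 a a1] at n2
      have k := lz3_handle hα ht hΔ hρ hno a1 (y2 b hb) n1 fun e => n2 (by rw [← e, hα])
      rw [rs_union fun u hu => by rw [Set.mem_singleton_iff.1 hu]; exact a1.2.2, ← mul_assoc] at k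
      have e : rs (rs α hα V) rs_rs {a} = rs α hα {a} := Equiv.ext fun d => by
        by_cases k1 : d ∈ V
        · have k2 : On (rs α hα V) {a} d ↔ On α {a} d := by rw [On, On, y1 d k1]
          by_cases k3 : On α {a} d
          · rw [rs_pos k3, rs_pos (k2.2 k3), y1 d k1]
          · rw [rs_neg k3, rs_neg fun k4 => k3 (k2.1 k4)]
        · have k2 : rs α hα V d = d := y3 d k1
          rw [rs_neg (U := {a}) (d := d) fun k3 => k1 (k3.elim (fun k3 => k3 ▸ a1)
              fun k3 => (k2.symm.trans k3) ▸ a1),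
            rs_neg (U := {a}) (d := d) fun k3 =>
              k1 (k3.elim (fun k3 => k3 ▸ a1) fun k3 => (v1 d).1 (k3 ▸ a1))]
      rwa [y1 b (y2 b hb), e]) p
    (fun d => if rs α hα V d = d then 0 else p (α d) + p d + c d) (fun d hd => ?_)
    (fun d hd => if_pos hd) (fun d => ?_) d
  · have hV : d ∈ V := ⟨hd, hd', k0⟩
    rw [if_neg (by rw [y1 d hV]; exact hne d)] at k
    rw [p1, c1]
    have := hda_two (p d)
    linear_combination k - this
  · rw [Perm.mul_apply, Perm.mul_apply]
    by_cases k1 : d ∈ V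
    · rw [y1 d k1, if_neg (hne d), rs_neg ((v1 d).2 k1).2.2, p1, c1]
      have := hda_two (p d)
      linear_combination -this
    · rw [y3 d k1, if_pos rfl, add_zero]
      by_cases k2 : On α U d
      · rw [rs_pos k2, p2 d k2]
      · rw [rs_neg k2, p1, c3 d hd fun k3 => k1 ⟨hd, k3, k2⟩, add_zero]
  · by_cases k1 : d ∈ V
    · rw [y1 d k1, y1 _ ((v1 d).2 k1), if_neg (hne _), if_neg (hne _), hα, c1]
      ring
    · simp only [y3 d k1]

end Pool.Agent.MC.LL
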