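import Pool.Agent.P.MP_2677b3_gt.HdA

/-! Balls, a handle near a supported cocycle, forests rooted at the handles. -/

open Equiv Function

noncomputable section

namespace Pool.Agent.MC.LL

section
variable {D : Type} [Finite D] {α φ : Perm D}

/-- The two kinds of hops in a map. -/
def b2 (α φ : Perm D) : Bool → Perm D := fun b => bif b then φ else α

theorem hdb_inv (h : ∀ d, α (α d) = d) {d e : D} (hs : α.SameCycle d e) : e = d ∨ e = α d := by
  obtain ⟨k, rfl⟩ := hs.exists_nat_pow_eq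
  clear hs
  induction k with
  | zero => exact Or.inl rfl
  | succ k ih =>
    rw [pow_succ', Perm.mul_apply]
    rcases ih with e | e <;> rw [e]
    · exact Or.inr rfl
    · exact Or.inl (h d)

omit [Finite D] in
theorem hdb_a {m : ℕ} {d e : D} (h : Nr (b2 α φ) m d e) : Nr (b2 α φ) (m + 1) d (α e) :=
  ⟨e, false, h, Perm.sameCycle_apply_right.2 (.refl _ _)⟩

omit [Finite D] in
theorem hdb_f {m : ℕ} {d e e' : D} (h : Nr (b2 α φ) m d e) (hs : φ.SameCycle e e') :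
    Nr (b2 α φ) (m + 1) d e' := ⟨e, true, h, hs⟩

/-- A forest of shortest paths to the set `Rt`. -/
theorem hdb_forest (h : ∀ d, α (α d) = d) (Rt : Set D) (hR : ∀ d, φ d ∈ Rt ↔ d ∈ Rt) (N : ℕ) :
    ∃ (P U : Set D) (rk : D → ℕ) (top : D → D), (∀ d, φ d ∈ P ↔ d ∈ P) ∧
      (∀ d, rk (φ d) = rk d) ∧ (∀ d, top (φ d) = top d) ∧
      (∀ u ∈ U, u ∈ P ∧ α u ∈ P ∧ rk (α u) < rk u ∧ top (α u) = top u) ∧
      (∀ u ∈ U, ∀ u' ∈ U, φ.SameCycle u u' → u = u') ∧
      (∀ d ∈ P, rk d ≤ N ∧ top d ∈ Rt ∧ top (top d) = top d ∧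
        Nr (b2 α φ) (2 * N + 1) (top d) d ∧
        (φ.SameCycle d (top d) ∨ ∃ u ∈ U, φ.SameCycle d u)) ∧
      (∀ d ∈ Rt, rk d = 0) ∧ ∀ v ∈ Rt, ∀ d, Nr (b2 α φ) N v d → d ∈ P := by
  classical
  induction N with
  | zero =>
    obtain ⟨o, -, h1, h2, -⟩ := exists_idx φ
    refine ⟨Rt, ∅, fun _ => 0, o, hR, fun _ => rfl,
      fun d => h2 _ _ (Perm.sameCycle_apply_left.2 (.refl _ _)), by simp, by simp,
      fun d hd => ⟨le_rfl, (sc_mem hR (h1 d)).1 hd, (h2 _ _ (h1 d)).symm,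
        Nr.one (i := true) (h1 d).symm, Or.inl (h1 d)⟩, fun _ _ => rfl, fun v hv d hd => hd ▸ hv⟩
  | succ N ih =>
    obtain ⟨P, U, rk, top, a1, a2, a3, a4, a5, a6, a7, a8⟩ := ih
    have sR : ∀ v ∈ Rt, v ∈ P := fun v hv => a8 v hv v (Nr.refl _ _)
    obtain ⟨W, w1, w2, w3⟩ := exists_reps φ {u | u ∉ P ∧ α u ∈ P}
    obtain ⟨t, ht⟩ : ∃ t : D → D, ∀ u ∈ W, ∀ e, φ.SameCycle u e → t e = u := by
      refine ⟨fun e => if k : ∃ u ∈ W, φ.SameCycle u e then k.choose else e, fun u hu e he => ?_⟩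
      have k : ∃ u ∈ W, φ.SameCycle u e := ⟨u, hu, he⟩
      simp only [dif_pos k]
      exact w2 _ k.choose_spec.1 _ hu (k.choose_spec.2.trans he.symm)
    have n1 : ∀ u ∈ W, ∀ e, φ.SameCycle u e → e ∉ P := fun u hu e he k =>
      (w1 hu).1 ((sc_mem a1 he).2 k)
    have i2 : ∀ d, (∃ u ∈ W, φ.SameCycle u (φ d)) ↔ ∃ u ∈ W, φ.SameCycle u d := fun d =>
      exists_congr fun u => and_congr_right fun _ => Perm.sameCycle_apply_right
    refine ⟨P ∪ {e | ∃ u ∈ W, φ.SameCycle u e}, U ∪ W, fun d => if d ∈ P then rk d else N + 1,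
      fun d => if ∃ u ∈ W, φ.SameCycle u d then top (α (t d)) else top d,
      fun d => or_congr (a1 d) (i2 d), fun d => by simp only [a1, a2], fun d => ?_, ?_, ?_, ?_,
      fun d hd => by simp only [sR d hd, if_true, a7 d hd], fun v hv d hd => ?_⟩
    · by_cases k : ∃ u ∈ W, φ.SameCycle u d
      · simp only [(i2 d).2 k, k, if_true]
        obtain ⟨u, hu, hs⟩ := k
        rw [ht u hu d hs, ht u hu _ (Perm.sameCycle_apply_right.2 hs)]
      · simp only [mt (i2 d).1 k, k, if_false, a3]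
    · have o1 : ∀ d ∈ P, ¬ ∃ u ∈ W, φ.SameCycle u d := fun d hd ⟨u, hu, hs⟩ => n1 u hu d hs hd
      rintro u (hu | hu)
      · obtain ⟨b1, b2, b3, b4⟩ := a4 u hu
        simp only [b1, b2, if_true, o1 _ b1, o1 _ b2, if_false]
        exact ⟨Or.inl b1, Or.inl b2, b3, b4⟩
      · have k : ∃ u' ∈ W, φ.SameCycle u' u := ⟨u, hu, .refl _ _⟩
        have := (a6 _ (w1 hu).2).1
        simp only [(w1 hu).1, (w1 hu).2, if_true, if_false, o1 _ (w1 hu).2, k,
          ht u hu u (.refl _ _)]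
        exact ⟨Or.inr k, Or.inl (w1 hu).2, by omega, trivial⟩
    · rintro u (hu | hu) u' (hu' | hu') hs
      · exact a5 u hu u' hu' hs
      · exact absurd (a4 u hu).1 (n1 u' hu' u hs.symm)
      · exact absurd (a4 u' hu').1 (n1 u hu u' hs)
      · exact w2 u hu u' hu' hs
    · have o1 : ∀ d ∈ P, ¬ ∃ u ∈ W, φ.SameCycle u d := fun d hd ⟨u, hu, hs⟩ => n1 u hu d hs hd
      rintro d (hd | hd)
      · obtain ⟨b1, b2, b3, b4, b5⟩ := a6 d hd
        simp only [hd, if_true, o1 d hd, if_false, o1 _ (sR _ b2)]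
        exact ⟨by omega, b2, b3, b4.mono (by omega),
          b5.imp_right fun ⟨u, hu, hs⟩ => ⟨u, Or.inl hu, hs⟩⟩
      · have hd' : ∃ u ∈ W, φ.SameCycle u d := hd
        obtain ⟨u, hu, hs⟩ := id hd'
        obtain ⟨b1, b2, b3, b4, -⟩ := a6 _ (w1 hu).2
        simp only [n1 u hu d hs, if_false, hd', if_true, ht u hu d hs, o1 _ (sR _ b2)]
        refine ⟨le_rfl, b2, b3, ?_, Or.inr ⟨u, Or.inr hu, hs.symm⟩⟩
        have := hdb_a b4
        rw [h] at this
        exact hdb_f this hs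
    · obtain ⟨e, i, h1, h2⟩ := hd
      have he := a8 v hv e h1
      cases i
      · rcases hdb_inv h h2 with rfl | rfl
        · exact Or.inl he
        · by_cases k : α e ∈ P
          · exact Or.inl k
          · obtain ⟨u, hu, hs⟩ := w3 (α e) ⟨k, by rwa [h]⟩
            exact Or.inr ⟨u, hu, hs.symm⟩
      · exact Or.inl ((sc_mem a1 h2).1 he)

/-- A ball with a spanning tree. -/
theorem hdb_ball (h : ∀ d, α (α d) = d) (o : D) (N : ℕ) : ∃ (P U : Set D) (rk : D → ℕ),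
    Tr α φ P U rk o ∧ (∀ d ∈ P, rk d ≤ N ∧ Nr (b2 α φ) (2 * N + 2) o d) ∧
      ∀ d, Nr (b2 α φ) N o d → d ∈ P := by
  obtain ⟨P, U, rk, top, a1, a2, -, a4, a5, a6, a7, a8⟩ :=
    hdb_forest h {e | φ.SameCycle o e} (fun _ => Perm.sameCycle_apply_right) N
  have a9 := a8 o (Perm.SameCycle.refl _ _)
  refine ⟨P, U, rk, ⟨a1, a2, fun u hu => ⟨(a4 u hu).1, (a4 u hu).2.1⟩,
    fun u hu => (a4 u hu).2.2.1, a5, a9 o (Nr.refl _ _), a7 o (Perm.SameCycle.refl _ _),
    fun d hd => ?_⟩, fun d hd => ?_, a9⟩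
  · obtain ⟨-, b2, -, -, b5⟩ := a6 d hd
    exact b5.imp_left fun k => k.trans (Perm.SameCycle.symm b2)
  · obtain ⟨b1, b2, -, b4, -⟩ := a6 d hd
    have b3 : Nr (LL.b2 α φ) 1 o (top d) := hdb_f (m := 0) rfl b2
    exact ⟨b1, (b3.trans b4).mono (by omega)⟩

end

theorem hdb_vx {M : CMap} (h : ∀ d, M.ψ (M.ψ (M.ψ d)) = d) {d e : M.D}
    (hs : M.gd.src d = M.gd.src e) : e = d ∨ e = M.ψ d ∨ e = M.ψ (M.ψ d) := by
  obtain ⟨k, rfl⟩ := (Quotient.exact hs : M.ψ.SameCycle d e).exists_nat_pow_eq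
  clear hs
  induction k with
  | zero => exact Or.inl rfl
  | succ k ih =>
    rw [pow_succ', Perm.mul_apply]
    rcases ih with e | e | e <;> rw [e]
    · exact Or.inr (Or.inl rfl)
    · exact Or.inr (Or.inr rfl)
    · exact Or.inl (h d)

theorem hdb_psi {M : CMap} {m : ℕ} {o d : M.D} (h : Nr (b2 M.α M.φ) m o d) :
    Nr (b2 M.α M.φ) (m + 2) o (M.ψ d) :=
  hdb_f (hdb_a h) (Perm.sameCycle_apply_right.2 (.refl _ _))

theorem hdb_nv {M : CMap} (h : ∀ d, M.ψ (M.ψ (M.ψ d)) = d) {m : ℕ} {o d e : M.D}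
    (hd : Nr (b2 M.α M.φ) m o d) (hs : M.gd.src d = M.gd.src e) :
    Nr (b2 M.α M.φ) (m + 4) o e := by
  rcases hdb_vx h hs with rfl | rfl | rfl
  · exact hd.mono (by omega)
  · exact (hdb_psi hd).mono (by omega)
  · exact hdb_psi (hdb_psi hd)

theorem hdb_path {M : CMap} (h : ∀ d, M.ψ (M.ψ (M.ψ d)) = d) {o : M.D} (p : List M.D) :
    ∀ (m : ℕ) (d e : M.D), Nr (b2 M.α M.φ) m o d → M.gd.Path (M.gd.src d) p (M.gd.src e) →
      Nr (b2 M.α M.φ) (m + 5 * p.length + 4) o e := by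
  induction p with
  | nil => exact fun m d e hd hp => hdb_nv h hd hp
  | cons a p ih =>
    intro m d e hd hp
    have := ih _ (M.α a) e (hdb_a (hdb_nv h hd hp.1.symm)) hp.2
    exact this.mono (by simp only [List.length_cons]; omega)

/-- A cocycle supported near `o` that is odd on a short loop at `o` gives a handle near `o`. -/
theorem hdb_handle {M : CMap} {Δ K : ℕ} (h : YM M Δ K) (o : M.D) (n : ℕ) (c : M.D → ZMod 2)
    (c1 : ∀ d, c (M.α d) = c d) (c2 : Pot M.φ fun d => Multiplicative.ofAdd (c d))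
    (c3 : ∀ d, c d ≠ 0 → ∃ q : List M.D, M.gd.Path (M.gd.src o) q (M.gd.src d) ∧ q.length ≤ n)
    (p : List M.D) (hp : M.gd.Path (M.gd.src o) p (M.gd.src o)) (hl : p.length ≤ n)
    (hs : (p.map c).sum ≠ 0) : ∃ H : Hdl M.α M.φ M.αα ((4 * (5 * n + 10) + 4) * Δ),
      ∀ d ∈ H.B, Nr (b2 M.α M.φ) (10 * n + 22) o d := by
  have t := fun d => (h.tri d).1
  obtain ⟨P, U, rk, T, a1, a2⟩ := hdb_ball (φ := M.φ) M.αα o (5 * n + 10)
  by_contra hn
  obtain ⟨π, p1, p2⟩ := hda_planar M.αα M.αne h.deg T (fun d hd => (a1 d hd).1)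
    (fun H hH => hn ⟨H, fun d hd => (a1 d (hH hd)).2.mono (by omega)⟩) c c1 c2 fun d _ hd => by
      by_contra k
      obtain ⟨q, q1, q2⟩ := c3 d k
      have q3 : 0 + 5 * q.length + 4 + 1 ≤ 5 * n + 10 := by
        have : q.length ≤ n := q2
        omega
      exact hd (a2 _ ((hdb_a (hdb_path t q 0 o d rfl q1)).mono q3))
  have p3 : ∀ m d, m + 1 ≤ 5 * n + 10 → Nr (b2 M.α M.φ) m o d → π (M.ψ d) = π d :=
    fun m d hm hd => p2 d (a2 _ (hd.mono (by omega))) (a2 _ ((hdb_a hd).mono hm))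
  have p4 : ∀ m d e, m + 3 ≤ 5 * n + 10 → Nr (b2 M.α M.φ) m o d → M.gd.src d = M.gd.src e →
      π e = π d := fun m d e hm hd hs => by
    rcases hdb_vx t hs with rfl | rfl | rfl
    · rfl
    · exact p3 m d (by omega) hd
    · rw [p3 _ _ hm (hdb_psi hd), p3 m d (by omega) hd]
  have key : ∀ (p : List M.D) (m : ℕ) (d e : M.D), m + 5 * p.length + 3 ≤ 5 * n + 10 →
      Nr (b2 M.α M.φ) m o d → M.gd.Path (M.gd.src d) p (M.gd.src e) →
      π e = π d + (p.map c).sum := fun p => by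
    induction p with
    | nil => exact fun m d e hm hd hp => by simpa using p4 m d e (by omega) hd hp
    | cons a p ih =>
      intro m d e hm hd hp
      simp only [List.length_cons] at hm
      have k1 := hdb_a (hdb_nv t hd hp.1.symm)
      have k2 := p3 _ _ (by omega) k1
      rw [show M.ψ (M.α a) = M.φ a from congrArg M.φ (M.αα a), p1] at k2
      rw [ih _ (M.α a) e (by omega) k1 hp.2, ← k2, p4 m d a (by omega) hd hp.1.symm,
        List.map_cons, List.sum_cons, add_assoc]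
  exact hs (left_eq_add.1 (key p 0 o o (by omega) rfl hp))

end Pool.Agent.MC.LL
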