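import Pool.Agent.P.MP_2677b3_gt.LE8

open Equiv Function

noncomputable section

namespace Pool.Agent.MC.LL.EG

/-- A slot together with a cell of that slot. -/
def le8b_nd (G : P4) (k : Fin 5) (d : G.D) : Fin 5 × Set G.D := (k, {v | (G.y k).SameCycle d v})

theorem le8b_nd_iff (G : P4) {k k' : Fin 5} {d d' : G.D} :
    le8b_nd G k d = le8b_nd G k' d' ↔ k = k' ∧ (G.y k').SameCycle d d' := by
  constructor
  · intro h
    obtain ⟨rfl, h2⟩ := Prod.mk.inj h
    exact ⟨rfl, (Set.ext_iff.1 h2 d').2 (Perm.SameCycle.refl _ _)⟩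
  · rintro ⟨rfl, h⟩
    refine Prod.ext rfl ?_
    ext v
    exact ⟨fun a => h.symm.trans a, fun a => h.trans a⟩

theorem le8b_prod {J : Type} [Finite J] (S : Set J) (hS : S.ncard ≤ 1) :
    {p : J × Fin 76 | p.1 ∈ S}.ncard ≤ 76 := by
  have e : {p : J × Fin 76 | p.1 ∈ S} = S ×ˢ (Set.univ : Set (Fin 76)) := by
    ext p
    simp
  rw [e, Set.ncard_prod, Set.ncard_univ, Nat.card_eq_fintype_card, Fintype.card_fin]
  omega

theorem le8b_half {J I : Type} [Finite I] {h : J × Fin 76 → I} (hi : Injective h) (j : J)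
    (s : Fin 38 → Fin 76) (hs : Injective s) (T : Set I) (hT : ∀ k, h (j, s k) ∈ T) :
    38 ≤ T.ncard := by
  have h1 := Set.ncard_le_ncard_of_injOn (s := (Set.univ : Set (Fin 38))) (t := T)
    (fun k => h (j, s k)) (fun k _ => hT k) (fun k _ l _ e => hs (Prod.mk.inj (hi e)).2)
  rwa [Set.ncard_univ, Nat.card_eq_fintype_card, Fintype.card_fin] at h1

/-- The new cells get their handles. -/
theorem par_stage : ∃ κ : ℕ, ∀ (G : P4) (I : Type) [Finite I] (a : I → G.D) (tg : I → Fin 5)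
    (n : ℕ), G.Sz n → Ft n a →
    (∀ c : Fin 5, c ≠ 4 → ∀ d, 114 ≤ {x | tg x = c ∧ (G.y c).SameCycle (a x) d}.ncard) →
    ∃ (H : P4) (a' : I → H.D) (tg' : I → Fin 5), H.Sz (Q κ n) ∧ Ft (Q κ n) a' ∧
      Par H.x0 H.x1 Set.univ ∧ Par H.x2 H.x3 Set.univ ∧
      (∀ c : Fin 5, c ≠ 4 → ∀ d, 38 ≤ {x | tg' x = c ∧ (H.y c).SameCycle (a' x) d}.ncard) ∧
      Qe (Q κ n) (G.gd a a) (H.gd a' a') := by
  classical
  refine ⟨31 + (kA + (31 + 2) * (6 * kA)), fun G I _ a tg n hG ha hc => ?_⟩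
  obtain ⟨J, _, c, P, H, ι, e, π, tr, hH, hb, hι, he, p1, p2, hs, hn, b1, b2⟩ := par_ear G hG
  obtain ⟨t, ht⟩ : ∃ t : J → Fin 5, ∀ j, t j = if P j then 1 else 2 := ⟨_, fun _ => rfl⟩
  have t4 : ∀ j, t j ≠ 4 := fun j => by
    rw [ht]
    split_ifs <;> decide
  have b0 : ∀ (k : Fin 5) d, {j | t j = k ∧ (G.y k).SameCycle (c j) d}.ncard ≤ 1 := by
    intro k d
    by_cases h1 : k = 1
    · subst h1
      refine le_trans (Set.ncard_le_ncard fun j hj => ?_) (b1 d)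
      refine ⟨?_, hj.2⟩
      by_contra h
      exact absurd (((ht j).trans (if_neg h)).symm.trans hj.1) (by decide)
    · refine le_trans (Set.ncard_le_ncard fun j hj => ?_) (b2 d)
      have h2 : ¬ P j := fun h => h1 (hj.1.symm.trans ((ht j).trans (if_pos h)))
      obtain rfl : k = 2 := hj.1.symm.trans ((ht j).trans (if_neg h2))
      exact ⟨h2, hj.2⟩
  obtain ⟨h, hi, hg⟩ := pay (fun p : J × Fin 76 => le8b_nd G (t p.1) (c p.1))
    (fun x => le8b_nd G (tg x) (a x)) fun v => by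
      rcases Set.eq_empty_or_nonempty {p : J × Fin 76 | le8b_nd G (t p.1) (c p.1) = v} with
        h0 | ⟨p, rfl⟩
      · rw [h0, Set.ncard_empty]
        exact Nat.zero_le _
      · simp only [le8b_nd_iff]
        exact ((le8b_prod _ (b0 (t p.1) (c p.1))).trans (by norm_num)).trans
          (hc _ (t4 p.1) (c p.1))
  simp only [le8b_nd_iff] at hg
  obtain ⟨a', a1, a2⟩ : ∃ a' : I → H.D, (∀ p, a' (h p) = e p.1) ∧
      ∀ x, x ∉ Set.range h → a' x = ι (a x) :=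
    ⟨extend h (fun p => e p.1) (ι ∘ a), fun p => hi.extend_apply _ _ p,
      fun x hx => extend_apply' _ _ x hx⟩
  obtain ⟨tg', t1, t2⟩ : ∃ tg' : I → Fin 5,
      (∀ p, tg' (h p) = if (p.2 : ℕ) < 38 then 0 else 3) ∧
      ∀ x, x ∉ Set.range h → tg' x = tg x :=
    ⟨extend h (fun p => if (p.2 : ℕ) < 38 then 0 else 3) tg, fun p => hi.extend_apply _ _ p,
      fun x hx => extend_apply' _ _ x hx⟩
  have nr : ∀ x, Nr G.y 10 (a x) ((π ∘ a') x) := fun x => by
    by_cases hx : x ∈ Set.range h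
    · obtain ⟨p, rfl⟩ := hx
      rw [comp_apply, a1, he]
      exact (Nr.one (hg p).2).mono (by norm_num)
    · rw [comp_apply, a2 x hx, hι]
      exact Nr.refl _ _
  have q1 : n ≤ Q 1 n := self_le_Q n one_pos
  have q2 : 2 * n ≤ Q 31 n := by
    have h2 : 2 ≤ Q 30 n := by
      have := le_Q (k := 30) n (by norm_num)
      omega
    exact Q_mul_le (k := 30) (k' := 1) h2 q1
  have q4 : n * Q 30 n ≤ Q 31 n := Q_mul_le (k := 1) (k' := 30) q1 (le_refl (Q 30 n))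
  have ft : Ft (Q 31 n) (π ∘ a') := (ft_mov nr hG ha).mono q4
  have q3 : Q 31 n ≤ Q (31 + (kA + (31 + 2) * (6 * kA))) n := Q_mono (Nat.le_add_right _ _) le_rfl
  have old : ∀ k : Fin 5, k ≠ 4 → ∀ d,
      38 ≤ {x | tg' x = k ∧ (H.y k).SameCycle (a' x) (ι d)}.ncard := by
    intro k hk d
    have h1 : {x | tg x = k ∧ (G.y k).SameCycle (a x) d} ⊆
        {x | tg' x = k ∧ (H.y k).SameCycle (a' x) (ι d)} ∪
          h '' {p | p.1 ∈ {j | t j = k ∧ (G.y k).SameCycle (c j) d}} := by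
      rintro x ⟨h1, h2⟩
      by_cases hx : x ∈ Set.range h
      · obtain ⟨p, rfl⟩ := hx
        have h3 : t p.1 = k := (hg p).1.symm.trans h1
        exact Or.inr ⟨p, ⟨h3, (h3 ▸ (hg p).2).symm.trans h2⟩, rfl⟩
      · exact Or.inl ⟨(t2 x hx).trans h1, (a2 x hx).symm ▸ hs k _ _ h2⟩
    have h2 := (Set.ncard_le_ncard h1).trans (Set.ncard_union_le _ _)
    rw [Set.ncard_image_of_injective _ hi] at h2
    have h3 := le8b_prod _ (b0 k d)
    have h4 := hc k hk d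
    omega
  refine ⟨H, a', tg', hH.mono (q2.trans q3), (Ft.eg_comp ft).mono q3, p1, p2, fun k hk v => ?_,
    ((api_mov nr nr hG ha ha).transQ ((tr _ q2 I a' a' ft ft).QQ le_rfl)).monoQ
      (Nat.le_add_left _ _) le_rfl⟩
  obtain ⟨d | j, rfl⟩ := hb.2 v
  · exact old k hk d
  · have mid : (H.y k).SameCycle (e j) (ι (c j)) →
        38 ≤ {x | tg' x = k ∧ (H.y k).SameCycle (a' x) (e j)}.ncard := fun h1 =>
      (old k hk (c j)).trans (Set.ncard_le_ncard fun x hx => ⟨hx.1, hx.2.trans h1.symm⟩)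
    have h5 : ∀ k : Fin 5, k ≠ 4 → k = 0 ∨ k = 1 ∨ k = 2 ∨ k = 3 := by decide
    rcases h5 k hk with rfl | rfl | rfl | rfl
    · refine le8b_half hi j (fun l => ⟨l, by omega⟩) (fun l l' h1 => Fin.ext (Fin.mk.inj h1)) _
        fun l => ⟨(t1 _).trans (if_pos l.2), ?_⟩
      rw [a1]
      exact Perm.SameCycle.refl _ _
    · exact mid (hn j).1
    · exact mid (hn j).2
    · refine le8b_half hi j (fun l => ⟨38 + l, by omega⟩)
        (fun l l' h1 => Fin.ext (by have := Fin.mk.inj h1; omega)) _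
        fun l => ⟨(t1 _).trans (if_neg (by simp)), ?_⟩
      rw [a1]
      exact Perm.SameCycle.refl _ _

end Pool.Agent.MC.LL.EG
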