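import Pool.Agent.P.MP_2677b3_gt.LE9c
import Pool.Agent.P.MP_2677b3_gt.LE8b

open Equiv Function

noncomputable section

namespace Pool.Agent.MC.LL

open EG

/-- One token per handle, with many handles in every cell. -/
theorem le10_pick {Tok H : Type} [Finite Tok] (S : TS Tok) (hd : Tok → H) {T m : ℕ}
    (hs : Surjective hd) (hT : 0 < T) (hF : Ft T hd)
    (hW : ∀ c : Fin 5, c ≠ 4 → ∀ d, m * T ≤ S.W c d) :
    ∃ ι : H → Tok, (∀ x, hd (ι x) = x) ∧ ∀ c : Fin 5, c ≠ 4 → ∀ d,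
      m ≤ {x | S.tag (ι x) = c ∧ (S.G.y c).SameCycle (S.pos (ι x)) d}.ncard := by
  classical
  let V := {p : Fin 5 × Set S.G.D // p.1 ≠ 4 ∧ ∃ d, p.2 = {e | (S.G.y p.1).SameCycle e d}}
  let own : Tok → Option V := fun z => if h : S.tag z ≠ 4 then
    some ⟨(S.tag z, {e | (S.G.y (S.tag z)).SameCycle e (S.pos z)}), h, S.pos z, rfl⟩ else none
  have key : ∀ (c : Fin 5) (hc : c ≠ 4) (d : S.G.D) (z : Tok),
      own z = some ⟨(c, {e | (S.G.y c).SameCycle e d}), hc, d, rfl⟩ ↔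
        S.tag z = c ∧ (S.G.y c).SameCycle (S.pos z) d := fun c hc d z => by
    constructor
    · intro e
      by_cases h : S.tag z ≠ 4
      · rw [show own z = _ from dif_pos h, Option.some.injEq, Subtype.mk.injEq,
          Prod.mk.injEq] at e
        obtain ⟨rfl, e⟩ := e
        exact ⟨rfl, (Set.ext_iff.1 e _).1 (Perm.SameCycle.refl _ _)⟩
      · rw [show own z = _ from dif_neg h] at e
        cases e
    · rintro ⟨rfl, e⟩
      rw [show own z = _ from dif_pos hc]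
      refine congrArg some (Subtype.ext (Prod.ext rfl (Set.ext fun u => ?_)))
      exact ⟨fun h => Perm.SameCycle.trans h e, fun h => Perm.SameCycle.trans h e.symm⟩
  obtain ⟨ι, h1, h2⟩ := hall own hd hF hT hs (m := m) (by
    rintro ⟨⟨c, O⟩, hc, d, e⟩
    obtain rfl : O = {e | (S.G.y c).SameCycle e d} := e
    simp only [key c hc d]
    exact hW c hc d)
  refine ⟨ι, h1, fun c hc d => ?_⟩
  have := h2 ⟨(c, {e | (S.G.y c).SameCycle e d}), hc, d, rfl⟩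
  simpa only [key c hc d] using this

theorem endgame : ∃ κ : ℕ, ∀ (Tok H : Type) [Finite Tok] [Finite H] (S : TS Tok) (hd : Tok → H)
    (T n : ℕ), Surjective hd → 0 < T → Ft T hd → S.G.Sz n → Ft n S.pos →
    (∀ c : Fin 5, c ≠ 4 → ∀ d, 114 * T ≤ S.W c d) →
    ∃ (ι : H → Tok) (A : Act), (∀ x, hd (ι x) = x) ∧
      Fw (Q κ n) (S.G.gd (S.pos ∘ ι) (S.pos ∘ ι)) A.gd := by
  obtain ⟨k1, h1⟩ := par_stage
  obtain ⟨k2, h2⟩ := endgame0
  refine ⟨k1 + (k1 + 2) * k2, fun Tok H _ _ S hd T n hs hT hF hS hp hW => ?_⟩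
  obtain ⟨ι, i1, i2⟩ := le10_pick S hd hs hT hF hW
  obtain ⟨G, a, tg, g1, g2, g3, g4, g5, g6⟩ := h1 S.G H (S.pos ∘ ι) (S.tag ∘ ι) n hS
    (hp.eg_pre (LeftInverse.injective i1)) i2
  obtain ⟨A, hA⟩ := h2 G H a tg _ g1 g2 g3 g4 g5
  exact ⟨ι, A, i1, (g6.fw.trans hA).mono (Q_mul_le le_rfl (Q_Q le_rfl))⟩

end Pool.Agent.MC.LL
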