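import Pool.Agent.P.MP_2677b3_gt.LBase

/-! Numerics for the combinatorial theorem. -/

namespace Pool.Agent.MC.LL

/-- `f l j ≤ 2 ^ (c (j+1)^k)` whenever `l ≤ 2 ^ j`. -/
def PB (k : ℕ) (f : ℕ → ℕ → ℕ) : Prop :=
  ∃ c : ℕ, ∀ l j, l ≤ 2 ^ j → f l j ≤ 2 ^ (c * (j + 1) ^ k)

namespace PB
variable {k k' : ℕ} {f g : ℕ → ℕ → ℕ}

theorem one_le (j k : ℕ) : 1 ≤ (j + 1) ^ k := Nat.one_le_pow _ _ (by omega)

theorem const (k a : ℕ) : PB k fun _ _ => a := ⟨a, fun _ j _ => by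
  have h1 : a ≤ a * (j + 1) ^ k := Nat.le_mul_of_pos_right _ (one_le j k)
  exact (Nat.lt_two_pow_self.le).trans (Nat.pow_le_pow_right (by omega) h1)⟩

theorem fst : PB 1 fun l _ => l := ⟨1, fun _ j h =>
  h.trans (Nat.pow_le_pow_right (by omega) (by simp))⟩

theorem snd : PB 1 fun _ j => j := ⟨1, fun _ j _ =>
  (Nat.lt_two_pow_self.le).trans (Nat.pow_le_pow_right (by omega) (by simp))⟩

theorem up (h : PB k f) (hk : k ≤ k') : PB k' f := by
  obtain ⟨c, h⟩ := h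
  exact ⟨c, fun l j hl => (h l j hl).trans (Nat.pow_le_pow_right (by omega)
    (Nat.mul_le_mul_left _ (Nat.pow_le_pow_right (by omega) hk)))⟩

theorem mul (h : PB k f) (h' : PB k g) : PB k fun l j => f l j * g l j := by
  obtain ⟨c, h⟩ := h
  obtain ⟨c', h'⟩ := h'
  refine ⟨c + c', fun l j hl => ?_⟩
  rw [add_mul, pow_add]
  exact Nat.mul_le_mul (h l j hl) (h' l j hl)

theorem add (h : PB k f) (h' : PB k g) : PB k fun l j => f l j + g l j := by
  obtain ⟨c, h⟩ := h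
  obtain ⟨c', h'⟩ := h'
  refine ⟨c + c' + 1, fun l j hl => ?_⟩
  have h1 := h l j hl
  have h2 := h' l j hl
  have h3 : 2 ^ 1 ≤ 2 ^ (1 * (j + 1) ^ k) :=
    Nat.pow_le_pow_right (by omega) (by simpa using one_le j k)
  rw [add_mul, add_mul, pow_add, pow_add]
  have h4 : 1 ≤ 2 ^ (c * (j + 1) ^ k) := Nat.one_le_two_pow
  have h5 : 1 ≤ 2 ^ (c' * (j + 1) ^ k) := Nat.one_le_two_pow
  generalize 2 ^ (c * (j + 1) ^ k) = A at *
  generalize 2 ^ (c' * (j + 1) ^ k) = B at *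
  generalize 2 ^ (1 * (j + 1) ^ k) = C at *
  have h6 : A ≤ A * B := Nat.le_mul_of_pos_right _ h5
  have h7 : B ≤ A * B := Nat.le_mul_of_pos_left _ h4
  nlinarith

theorem pow (h : PB k f) (a m : ℕ) : PB (k + m) fun l j => f l j ^ (a * (j + 1) ^ m) := by
  obtain ⟨c, h⟩ := h
  refine ⟨c * a, fun l j hl => (Nat.pow_le_pow_left (h l j hl) _).trans (le_of_eq ?_)⟩
  rw [← pow_mul, pow_add]
  congr 1
  ring

theorem Qp (h : PB k f) (a m : ℕ) : PB (k + m) fun l j => Q (a * (j + 1) ^ m) (f l j) :=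
  (h.add (const k 2)).pow a m

theorem Qc (h : PB k f) (a : ℕ) : PB k fun l j => Q a (f l j) := by
  simpa using h.Qp a 0

theorem mono (h : PB k g) (hf : ∀ l j, f l j ≤ g l j) : PB k f := by
  obtain ⟨c, h⟩ := h
  exact ⟨c, fun l j hl => (hf l j).trans (h l j hl)⟩

theorem eight : PB 1 fun _ j => 8 ^ (176 * j) := by
  have := (const 0 8).pow 176 1
  refine this.mono fun l j => Nat.pow_le_pow_right (by omega) (by simp)

end PB

theorem log_small (c : ℕ) : ∃ l₀, ∀ l, l₀ ≤ l → c * (Nat.log 2 l + 1) ≤ l := by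
  refine ⟨2 ^ (c + 4), fun l hl => ?_⟩
  have h0 : l ≠ 0 := by have : 0 < 2 ^ (c + 4) := by positivity
                        omega
  have h1 : c + 4 ≤ Nat.log 2 l := (Nat.le_log_iff_pow_le (by omega) h0).2 hl
  have h2 : 2 ^ Nat.log 2 l ≤ l := Nat.pow_log_le_self 2 h0
  generalize Nat.log 2 l = m at *
  have h3 : ∀ n, (n + 4) * (n + 4) ≤ 2 ^ (n + 4) := by
    intro n
    induction n with
    | zero => norm_num
    | succ n ih =>
      rw [show n + 1 + 4 = n + 4 + 1 by ring, pow_succ]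
      nlinarith
  obtain ⟨n, rfl⟩ : ∃ n, m = n + 4 := ⟨m - 4, by omega⟩
  have := h3 n
  nlinarith

end Pool.Agent.MC.LL
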