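import Pool.Agent.P.MP_2677b3_gt.LR1a

open Equiv Function

noncomputable section

namespace Pool.Agent.MC.LL

theorem lr1_total {Tok : Type} [Finite Tok] (S : TS Tok) {μ : ℕ} (hμ : 0 < μ)
    (h : ∀ c d, μ ≤ S.Pt c d) (c : Fin 5) : Nat.card S.G.D ≤ {τ | S.tag τ = c}.ncard := by
  rw [← Set.ncard_univ]
  refine le_trans (Set.ncard_le_ncard (t := S.pos '' {τ | S.tag τ = c}) (fun d _ => ?_)
    (Set.toFinite _)) (Set.ncard_image_le (Set.toFinite _))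
  obtain ⟨τ, h1, h2⟩ := Set.nonempty_of_ncard_ne_zero (hμ.trans_le (h c d)).ne'
  exact ⟨τ, h1, h2⟩

theorem merge_three : ∃ κ : ℕ, ∀ (Tok : Type) [Finite Tok] (S : TS Tok) (n μ M : ℕ),
    S.G.x2 = 1 → S.G.Conn → S.G.Sz n → Ft n S.pos → 0 < μ → 0 < M → M ≤ n →
    (∀ c d, μ ≤ S.Pt c d) → M ≤ Nat.card S.G.D →
    ∃ S' : TS Tok, TEq (Q κ n) S S' ∧ Inv S' Set.univ (Q κ n) (Q κ n) μ M μ := by
  obtain ⟨k, hk⟩ := merge_phase
  refine ⟨(k + 1) + (k + 3) * (k + 1) + ((k + 3) * (k + 1) + 2) * (k + 1),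
    fun Tok _ S n μ M h2 hc hs hf hμ hM hMn hp hN => ?_⟩
  have q1 : Q k n ≤ Q (k + 1) n := Q_mono (by omega) le_rfl
  have n1 : n ≤ Q (k + 1) n := (by omega : n ≤ n + 2).trans (le_Q n (by omega))
  have q2 : Q k (Q (k + 1) n) ≤ Q ((k + 3) * (k + 1)) n :=
    (Q_Q le_rfl).trans (Q_mono (Nat.mul_le_mul_left _ (by omega)) le_rfl)
  have n2 : n ≤ Q ((k + 3) * (k + 1)) n :=
    (by omega : n ≤ n + 2).trans (le_Q n (by positivity))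
  have q3 : Q k (Q ((k + 3) * (k + 1)) n) ≤ Q (((k + 3) * (k + 1) + 2) * (k + 1)) n :=
    (Q_Q le_rfl).trans (Q_mono (Nat.mul_le_mul_left _ (by omega)) le_rfl)
  obtain ⟨S1, t1, a2, as, af, ap, aN, a0, -, -⟩ := hk Tok S n μ M h2 hc hs hf hμ hM hMn hp
    fun c => hN.trans (lr1_total S hμ hp c)
  obtain ⟨S2, t2, b2, bs, bf, bp, bN, b0, -, b3⟩ := hk Tok S1 (Q (k + 1) n) μ M a2 (t1.conn hc)
    (as.mono q1) (af.mono q1) hμ hM (hMn.trans n1) ap aN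
  obtain ⟨S3, t3, c2, cs, cf, cp, -, c0, c1, c3⟩ := hk Tok S2 (Q ((k + 3) * (k + 1)) n) μ M b2
    (t2.conn (t1.conn hc)) (bs.mono q2) (bf.mono q2) hμ hM (hMn.trans n2) bp bN
  have q4 := q3.trans (Q_mono (n' := n)
    (Nat.le_add_left _ ((k + 1) + (k + 3) * (k + 1))) le_rfl)
  exact ⟨S3, ((t1.mono q1).transQ (t2.mono q2)).transQ (t3.mono q3), cs.mono q4, cf.mono q4,
    fun i _ => by rw [c2]; rfl, fun i _ => (cp 2 i).trans (Pt_le_W _ _ _), c0, c1 (b3 a0),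
    fun d hd => absurd (Set.mem_univ d) hd, c3 b0, fun d => (cp 4 d).trans (Pt_le_W _ _ _)⟩

end Pool.Agent.MC.LL
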