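import Pool.Agent.P.MP_2677b3_gt.LRH

open Equiv Function

noncomputable section

namespace Pool.Agent.MC.LL

theorem lr3_le {R : Type} [Finite R] {P : R → Prop} {y : R → ℕ} (n a : ℕ)
    (h : ∀ ρ, P ρ → y ρ = a) (hn : {ρ | P ρ}.ncard ≤ n) : csum P y ≤ n * a := by
  classical
  have := Fintype.ofFinite R
  rw [csum_eq]
  refine (Finset.sum_le_card_nsmul _ _ a fun ρ hρ => (h ρ (Finset.mem_filter.1 hρ).2).le).trans
    (Nat.mul_le_mul_right _ (le_trans (le_of_eq ?_) hn))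
  rw [← Set.ncard_coe_finset, Finset.coe_filter]
  simp

theorem lr3_ge {R : Type} [Finite R] {P : R → Prop} {y : R → ℕ} (n a : ℕ) (f : Fin n → R)
    (hf : Injective f) (h : ∀ k, P (f k) ∧ y (f k) = a) : n * a ≤ csum P y := by
  classical
  have := Fintype.ofFinite R
  rw [csum_eq]
  refine le_trans (le_of_eq ?_) (Finset.sum_le_sum_of_subset (s := Finset.univ.image f) ?_)
  · rw [Finset.sum_image hf.injOn]
    simp [(h _).2]
  · intro ρ hρ
    obtain ⟨k, -, rfl⟩ := Finset.mem_image.1 hρ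
    simpa using (h k).1

theorem ops_pay {Tok : Type} [Finite Tok] (S : TS Tok) (L : Set S.G.D) {Δ H μ M ν : ℕ}
    (h : Inv S L Δ H μ (8 * M) (ν + 1)) (O : Ops S.G L (2 * M)) :
    ∃ (pos' : Tok → S.G.D) (tag' : Tok → Fin 5), TEq (Q kA (Δ + H)) S ⟨S.G, pos', tag'⟩ ∧
      Paid ⟨S.G, pos', tag'⟩ L (O.v '' O.X) Δ (H * Q 30 Δ) (μ + μ / 44) (2 * M) ν := by
  classical
  let A : Fin 5 → S.G.D → S.G.D → Prop := ![fun i s => i ∈ O.C2 ∧ s = i,
    fun i s => S.G.x1 i = i ∧ s = i, fun i s => i ∈ O.C4 ∧ s = O.v (O.don i),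
    fun i s => S.G.x3 i = i ∧ s = i, fun i s => i ∈ O.C3 ∧ ∃ k < 2 * M, s = (S.G.x0 ^ k) i]
  let a : Fin 5 → ℕ := ![2 * M, 2 * M, μ / 44, 2 * M, 1]
  let k2 : S.G.D → ℕ := fun d => if d ∈ O.v '' O.X then 0 else if d ∈ L then μ else 2 * M
  let keep : Fin 5 → S.G.D → ℕ := ![fun _ => 2 * M, fun _ => 2 * M, k2, fun _ => 2 * M, fun _ => ν]
  let R := {ρ : Fin 5 × S.G.D × S.G.D // A ρ.1 ρ.2.1 ρ.2.2}
  have hV : O.v '' O.X ⊆ L := by
    rintro _ ⟨i, hi, rfl⟩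
    exact (O.hv i hi).1
  have fx : ∀ {d e}, d ∈ L → S.G.x2.SameCycle d e → d = e := fun hd c => c.eq_of_left (h.fix _ hd)
  have ext : ∀ {ρ ρ' : R} {κ}, ρ.1.1 = κ → ρ'.1.1 = κ → ρ.1.2.1 = ρ'.1.2.1 → ρ.1.2.2 = ρ'.1.2.2 →
      ρ = ρ' := fun a b c d => Subtype.ext (Prod.ext (a.trans b.symm) (Prod.ext c d))
  have hA : ∀ (ρ : R) {κ}, ρ.1.1 = κ → A κ ρ.1.2.1 ρ.1.2.2 := fun ρ _ e => e ▸ ρ.2
  have le : ∀ κ d n, {ρ : R | ρ.1.1 = κ ∧ (S.G.y κ).SameCycle ρ.1.2.2 d}.ncard ≤ n →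
      csum (fun ρ : R => ρ.1.1 = κ ∧ (S.G.y κ).SameCycle ρ.1.2.2 d) (fun ρ => a ρ.1.1) ≤ n * a κ :=
    fun κ d n => lr3_le n _ fun _ e => congrArg a e.1
  obtain ⟨pos', tag', g, h1, -, -, -, -, h2, -⟩ := pay_ts S (R := R) (fun ρ => ρ.1.1) (fun _ => 2)
    (fun ρ => ρ.1.2.2) (fun ρ => ρ.1.2.1) (fun ρ => a ρ.1.1) keep (by
      rintro ⟨⟨κ, i, s⟩, c⟩
      change Nr S.G.y 9 s i
      change A κ i s at c
      fin_cases κ
      · exact c.2 ▸ Nr.refl _ _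
      · exact c.2 ▸ Nr.refl _ _
      · exact c.2 ▸ (O.hC4 i c.1).2.mono (by omega)
      · exact c.2 ▸ Nr.refl _ _
      · obtain ⟨-, k, -, rfl⟩ := c
        exact (Nr.one (i := 0) ⟨k, by rw [zpow_natCast]; rfl⟩).symm.mono (by omega)) (by
      intro κ d e c
      fin_cases κ
      · rfl
      · rfl
      · by_cases hd : d ∈ L
        · rw [fx hd c]
        · have he : e ∉ L := fun he => hd (fx he c.symm ▸ he)
          exact (if_neg (mt (@hV d) hd)).trans ((if_neg hd).trans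
            ((if_neg (mt (@hV e) he)).trans (if_neg he)).symm)
      · rfl
      · rfl) (by
      intro κ d
      fin_cases κ
      · refine le_trans ?_ (h.h0 d)
        have := le 0 d 2 (.trans (Set.ncard_le_ncard_of_injOn (fun ρ => ρ.1.2.1)
          (t := {i ∈ O.C2 | S.G.x0.SameCycle i d})
          (fun ρ c => ⟨(hA ρ c.1).1, (hA ρ c.1).2 ▸ c.2⟩) fun ρ c ρ' c' e =>
            ext c.1 c'.1 e ((hA ρ c.1).2.trans (e.trans (hA ρ' c'.1).2.symm))) (O.hC2 d))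
        exact (Nat.add_le_add_left this _).trans (by change 2 * M + 2 * (2 * M) ≤ _; omega)
      · refine le_trans ?_ (h.h1 d)
        have k : ∀ ρ : R, ρ.1.1 = 1 ∧ (S.G.y 1).SameCycle ρ.1.2.2 d → ρ.1.2.2 = d := fun ρ c =>
          c.2.eq_of_left ((hA ρ c.1).2 ▸ (hA ρ c.1).1)
        have := le 1 d 1 ((Set.ncard_le_one (Set.toFinite _)).2 fun ρ c ρ' c' => ext c.1 c'.1
          ((hA ρ c.1).2.symm.trans (((k ρ c).trans (k ρ' c').symm).trans (hA ρ' c'.1).2))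
          ((k ρ c).trans (k ρ' c').symm))
        exact (Nat.add_le_add_left this _).trans (by change 2 * M + 1 * (2 * M) ≤ _; omega)
      · have k : ∀ ρ : R, ρ.1.1 = 2 ∧ (S.G.y 2).SameCycle ρ.1.2.2 d → O.v (O.don ρ.1.2.1) = d :=
          fun ρ c => fx (O.hv _ (O.hC4 _ (hA ρ c.1).1).1).1 ((hA ρ c.1).2 ▸ c.2)
        by_cases hd : d ∈ O.v '' O.X
        · refine le_trans ?_ (h.light d (hV hd))
          obtain ⟨y, hy, e⟩ := id hd
          have := le 2 d 44 (.trans (Set.ncard_le_ncard_of_injOn (fun ρ => ρ.1.2.1)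
            (t := {i ∈ O.C4 | O.don i = y})
            (fun ρ c => ⟨(hA ρ c.1).1, O.vinj (O.hC4 _ (hA ρ c.1).1).1 hy ((k ρ c).trans e.symm)⟩)
            fun ρ c ρ' c' e => ext c.1 c'.1 e ((hA ρ c.1).2.trans ((k ρ c).trans
              ((hA ρ' c'.1).2.trans (k ρ' c')).symm))) (O.hdon y))
          refine (Nat.add_le_add (if_pos hd).le this).trans ?_
          change 0 + 44 * (μ / 44) ≤ _
          omega
        · have := le 2 d 0 (le_of_eq ((Set.ncard_eq_zero (Set.toFinite _)).2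
            (Set.eq_empty_of_forall_notMem fun ρ c => hd ⟨_, (O.hC4 _ (hA ρ c.1).1).1, k ρ c⟩)))
          refine (Nat.add_le_add (if_neg hd).le this).trans ?_
          rw [zero_mul, add_zero]
          split_ifs with e
          · exact h.light d e
          · exact le_trans (by omega) (h.h2 d e)
      · refine le_trans ?_ (h.h3 d)
        have k : ∀ ρ : R, ρ.1.1 = 3 ∧ (S.G.y 3).SameCycle ρ.1.2.2 d → ρ.1.2.2 = d := fun ρ c =>
          c.2.eq_of_left ((hA ρ c.1).2 ▸ (hA ρ c.1).1)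
        have := le 3 d 1 ((Set.ncard_le_one (Set.toFinite _)).2 fun ρ c ρ' c' => ext c.1 c'.1
          ((hA ρ c.1).2.symm.trans (((k ρ c).trans (k ρ' c').symm).trans (hA ρ' c'.1).2))
          ((k ρ c).trans (k ρ' c').symm))
        exact (Nat.add_le_add_left this _).trans (by change 2 * M + 1 * (2 * M) ≤ _; omega)
      · refine le_trans ?_ (h.res d)
        have := le 4 d 1 ((Set.ncard_le_one (Set.toFinite _)).2 fun ρ c ρ' c' => by
          have e : ρ.1.2.2 = ρ'.1.2.2 := (c.2.trans c'.2.symm).eq_of_left rfl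
          obtain ⟨b, k, hk, e1⟩ := hA ρ c.1
          obtain ⟨b', k', hk', e2⟩ := hA ρ' c'.1
          exact ext c.1 c'.1 (O.hC3 _ b _ b' k hk k' hk' (e1.symm.trans (e.trans e2))).1 e)
        exact Nat.add_le_add_left this _)
  have h3 := fun κ d => (Nat.le_add_right _ _).trans (h2 κ d)
  refine ⟨pos', tag', teq_mov S (h.sz.mono (Nat.le_add_right _ _))
    (h.ft.mono (Nat.le_add_left _ _)) pos' tag' h1, h.sz, ft_mov h1 h.sz h.ft, h.fix,
    fun i hi hi' => ?_, h3 0, h3 1, fun d hd => ?_, h3 3, h3 4⟩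
  · have h4 := le_trans (Nat.add_le_add_right ((if_neg hi').trans (if_pos hi)).ge _) (h2 2 i)
    have one : ∀ κ s, A κ i s → μ + a κ ≤ TS.W ⟨S.G, pos', tag'⟩ 2 i := fun κ s c =>
      le_trans (Nat.add_le_add_left ((one_mul _).ge.trans (lr3_ge 1 _ (fun _ => ⟨(κ, i, s), c⟩)
        (injective_of_subsingleton _) fun _ => ⟨⟨rfl, .refl _ _⟩, rfl⟩)) _) h4
    rcases O.all i hi with c | c | c | c | c
    · exact .inl ((Nat.le_add_left _ _).trans (one 3 i ⟨c, rfl⟩))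
    · exact .inl ((Nat.le_add_left _ _).trans (one 1 i ⟨c, rfl⟩))
    · exact .inl ((Nat.le_add_left _ _).trans (one 0 i ⟨c, rfl⟩))
    · refine .inl (((mul_one _).ge.trans (lr3_ge (2 * M) 1 (R := R)
        (fun k => ⟨(4, i, (S.G.x0 ^ k.1) i), c, k, k.2, rfl⟩) (fun k k' e => Fin.ext ?_)
        fun _ => ⟨⟨rfl, .refl _ _⟩, rfl⟩)).trans ((Nat.le_add_left _ _).trans h4))
      exact (O.hC3 i c i c k k.2 k' k'.2 (congrArg (·.1.2.2) e)).2
    · exact .inr (one 2 _ ⟨c, rfl⟩)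
  · exact ((if_neg (mt (@hV d) hd)).trans (if_neg hd)).ge.trans (h3 2 d)

end Pool.Agent.MC.LL
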