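import Pool.Agent.P.MP_2677b3_gt.LRH

open Equiv Function

noncomputable section

namespace Pool.Agent.MC.LL

theorem lr4_tau {G : P4} {L : Set G.D} {β : ℕ} (O : Ops G L β) : ∃ τ : Perm G.D, τ * τ = 1 ∧
    (∀ i ∈ O.X, τ i = O.j i) ∧ (∀ i ∈ O.X, τ (O.j i) = i) ∧
    ∀ d, τ d ≠ d → d ∈ O.X ∨ ∃ i ∈ O.X, d = O.j i := by
  obtain ⟨τ, h1, h2, h3, h4⟩ := exists_invol (R := O.X) Subtype.val (fun i => O.j i.1)
    Subtype.val_injective (fun a b h => Subtype.ext (O.jinj a.2 b.2 h))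
    (fun a b h => O.jX b.1 b.2 (h ▸ a.2))
  refine ⟨τ, h1, fun i hi => h2 ⟨i, hi⟩, fun i hi => h3 ⟨i, hi⟩, fun d hd => ?_⟩
  obtain ⟨a, h | h⟩ := h4 d hd
  · exact Or.inl (h ▸ a.2)
  · exact Or.inr ⟨a.1, a.2, h⟩

theorem lr4_cut {G : P4} {L : Set G.D} {β : ℕ} (O : Ops G L β) (τ : Perm G.D)
    (t1 : ∀ i ∈ O.X, τ i = O.j i) (t2 : ∀ i ∈ O.X, τ (O.j i) = i)
    (t3 : ∀ d, τ d ≠ d → d ∈ O.X ∨ ∃ i ∈ O.X, d = O.j i) :
    Tree (τ⁻¹ * G.x0) τ ∧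
    (∀ d ∈ O.X, ∀ e, (τ⁻¹ * G.x0).SameCycle d e ↔ ∃ k < O.m d, e = (G.x0 ^ k) d) ∧
    (∀ d ∈ O.X, sz (τ⁻¹ * G.x0) d = O.m d) ∧
    (∀ d ∈ O.X, ∀ e ∈ O.X, ¬ (τ⁻¹ * G.x0).SameCycle e (O.j d)) ∧
    ∀ e e', (∀ d ∈ O.X, ¬ (τ⁻¹ * G.x0).SameCycle d e) →
      (∀ d ∈ O.X, ¬ (τ⁻¹ * G.x0).SameCycle d e') → G.x0.SameCycle e e' →
      (τ⁻¹ * G.x0).SameCycle e e' := by
  classical
  let base : G.D → G.D := fun d => if d ∈ O.X then O.j d else d
  have b1 : ∀ d ∈ O.X, base d = O.j d := fun d hd => if_pos hd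
  have b2 : ∀ d, d ∉ O.X → base d = d := fun d hd => if_neg hd
  have b3 : ∀ d, d ≠ base d ↔ d ∈ O.X := fun d => by
    constructor
    · intro h
      by_contra hd
      exact h (b2 d hd).symm
    · intro hd h
      rw [b1 d hd] at h
      exact O.jX d hd (h ▸ hd)
  obtain ⟨c1, c2, c3, c4, c5⟩ := cut G.x0 τ base
    (fun d => by
      by_cases hd : d ∈ O.X
      · rw [b1 d hd, ← t1 d hd]
        exact ⟨1, by simp⟩
      · rw [b2 d hd])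
    (fun d => by
      by_cases h0 : τ d = d
      · rw [h0]
      rcases t3 d h0 with hd | ⟨i, hi, rfl⟩
      · rw [t1 d hd, b1 d hd, b2 _ (O.jX d hd)]
      · rw [t2 i hi, b1 i hi, b2 _ (O.jX i hi)])
    O.m
    (fun d hd => by
      have hd' := (b3 d).1 hd
      obtain ⟨m1, -, m3⟩ := O.hm d hd'
      refine ⟨m1, by rw [m3, t1 d hd'], fun k k0 k1 => ?_⟩
      by_contra h0
      obtain ⟨n1, n2⟩ := O.hin d hd' k k0 k1
      rcases t3 _ h0 with h | ⟨i, hi, h⟩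
      · exact n1 h
      · exact n2 i hi h)
  refine ⟨c1, fun d hd => c2 d ((b3 d).2 hd), fun d hd => c3 d ((b3 d).2 hd),
    fun d hd e he => ?_, fun e e' h h' => c5 e e' (fun d hd => h d ((b3 d).1 hd))
      (fun d hd => h' d ((b3 d).1 hd))⟩
  rw [← b1 d hd]
  exact c4 d e ((b3 d).2 hd) ((b3 e).2 he)

theorem lr4_two {D : Type} [Finite D] (q τ : Perm D) (hτ : τ * τ = 1) (d : D) (h1 : q d = d)
    (h2 : q (τ d) = τ d) : sz (q * τ) d ≤ 2 := by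
  have hττ : ∀ z, τ (τ z) = z := fun z => by rw [← Perm.mul_apply, hτ]; rfl
  have a1 : (q * τ) d = τ d := by rw [Perm.mul_apply, h2]
  have a2 : (q * τ) (τ d) = d := by rw [Perm.mul_apply, hττ, h1]
  refine (sz_le_lab (fun e => e = d ∨ e = τ d) (fun e => propext ?_) d).trans ?_
  · constructor
    · rintro (h | h)
      · exact Or.inr ((q * τ).injective (h.trans a2.symm))
      · exact Or.inl ((q * τ).injective (h.trans a1.symm))
    · rintro (h | h)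
      · exact Or.inr (by rw [h, a1])
      · exact Or.inl (by rw [h, a2])
  · refine le_trans (Set.ncard_le_ncard (t := {d, τ d}) (fun e he => ?_) (Set.toFinite _))
      ((Set.ncard_insert_le _ _).trans (by rw [Set.ncard_singleton]))
    have he' : (e = d ∨ e = τ d) = (d = d ∨ d = τ d) := he
    have : e = d ∨ e = τ d := by rw [he']; exact Or.inl rfl
    exact this

theorem lr4_conj {D : Type} (r τ : Perm D) {a b : D} (h : r.SameCycle a (τ b)) :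
    (τ⁻¹ * r * τ).SameCycle (τ⁻¹ a) b := by
  have := h.conj (g := τ⁻¹)
  simpa using this

theorem ops_step1 : ∃ κ : ℕ, ∀ (Tok : Type) [Finite Tok] (S : TS Tok) (L : Set S.G.D)
    (β Δ H μ M ν : ℕ) (O : Ops S.G L β), Paid S L (O.v '' O.X) Δ H μ M ν →
    ∃ (S' : TS Tok) (V Ch : Set S'.G.D), TEq (Q κ (Δ + H)) S S' ∧
      Mid S' V Ch β (2 * Δ) (H * Q κ Δ) μ M ν := by
  classical
  refine ⟨33 * (6 * kA) + 30, fun Tok _ S L β Δ H μ M ν O P => ?_⟩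
  obtain ⟨τ, t0, t1, t2, t3⟩ := lr4_tau O
  obtain ⟨c1, c2, c3, c4, c5⟩ := lr4_cut O τ t1 t2 t3
  have hττ : ∀ z, τ (τ z) = z := fun z => by rw [← Perm.mul_apply, t0]; rfl
  have hinv : ∀ z, τ⁻¹ z = τ z := fun z => by
    rw [Perm.inv_eq_iff_eq, hττ]
  obtain ⟨s0, s1, s2, s3⟩ := P4.sz_iff.1 P.sz
  have hqX : ∀ d ∈ O.X, S.G.x2 d = d := fun d hd => P.fix d (O.hX hd)
  have hqi : ∀ d, S.G.x2 d ∈ O.X ↔ d ∈ O.X := fun d =>
    ⟨fun h => by
      have := S.G.x2.injective (hqX _ h)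
      rwa [this] at h, fun h => by rwa [hqX d h]⟩
  have hq1 : ∀ d ∈ O.X, ∀ e, S.G.x2.SameCycle d e → d = e := fun d hd e h =>
    h.eq_of_left (hqX d hd)
  have hx : ∀ d, τ d ≠ d → (d ∈ O.X ↔ τ d ∉ O.X) := fun d h0 => by
    rcases t3 d h0 with hd | ⟨i, hi, rfl⟩
    · rw [t1 d hd]
      exact ⟨fun _ => O.jX d hd, fun _ => hd⟩
    · rw [t2 i hi]
      exact ⟨fun h => absurd h (O.jX i hi), fun h => absurd hi h⟩
  have tq : Tree τ S.G.x2 := by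
    refine (tree_invol S.G.x2 τ t0 O.X (fun d => if d ∈ O.X then 1 else 0) (fun d => ?_)
      (fun d hd => ?_) (fun d hd e _ h => hq1 d hd e h) (fun d h0 => ?_)).symm
    · simp only [hqi]
    · rw [if_pos hd, t1 d hd, if_neg (O.jX d hd)]
      exact Nat.zero_lt_one
    · by_cases hd : d ∈ O.X
      · exact Or.inl hd
      · exact Or.inr (by_contra fun h => hd ((hx d h0).2 h))
  have pj : ∀ i ∈ O.X, S.G.x0.SameCycle i (O.j i) := fun i hi =>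
    ⟨(O.m i : ℕ), by rw [zpow_natCast, (O.hm i hi).2.2]⟩
  have pτ : ∀ d, S.G.x0.SameCycle d (τ d) := fun d => by
    by_cases h0 : τ d = d
    · rw [h0]
    rcases t3 d h0 with hd | ⟨i, hi, rfl⟩
    · rw [t1 d hd]; exact pj d hd
    · rw [t2 i hi]; exact (pj i hi).symm
  have up : ∀ {d e}, (τ⁻¹ * S.G.x0).SameCycle d e → S.G.x0.SameCycle d e := fun h => by
    have := c1.left h
    rwa [mul_inv_cancel_left] at this
  have z0 : ∀ d, sz (τ⁻¹ * S.G.x0) d ≤ Δ := fun d =>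
    (sz_le_of_sc (fun e => up ⟨1, by rw [zpow_one]⟩) d).trans (s0 d)
  have z1 : ∀ d, sz (τ⁻¹ * S.G.x1 * τ) d ≤ Δ := fun d => by
    have := sz_conj S.G.x1 τ⁻¹ (τ d)
    rw [inv_inv, hinv, hττ] at this
    rw [this]
    exact s1 _
  have z2 : ∀ d, sz (S.G.x2 * τ) d ≤ 2 * Δ := fun d => by
    have := star_sz S.G.x2 τ O.X 1 Δ t0 hqi (fun d hd => (sz_fix (hqX d hd)).le) s2 hx
      (fun d hd e _ _ _ h => hq1 d hd e h) d
    omega
  -- the union of the arcs and the move of the tokens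
  let Ch : Set S.G.D := {e | ∃ i ∈ O.X, (τ⁻¹ * S.G.x0).SameCycle i e}
  have hex : ∀ d, ∃ e, e ∉ Ch ∧ S.G.x0.SameCycle d e := fun d => by
    by_cases hd : d ∈ Ch
    · obtain ⟨i, hi, h⟩ := hd
      exact ⟨O.j i, fun ⟨i', hi', h'⟩ => c4 i hi i' hi' h', (up h).symm.trans (pj i hi)⟩
    · exact ⟨d, hd, Perm.SameCycle.refl _ _⟩
  choose f f1 f2 using hex
  let pos' : Tok → S.G.D := fun t =>
    if S.tag t = 0 then f (S.pos t) else if S.tag t = 1 then τ (S.pos t) else S.pos t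
  have p0 : ∀ t, S.tag t = 0 → pos' t = f (S.pos t) := fun t h => if_pos h
  have p1 : ∀ t, S.tag t = 1 → pos' t = τ (S.pos t) := fun t h => by
    simp only [pos', h]; rfl
  have p2 : ∀ t, S.tag t ≠ 0 → S.tag t ≠ 1 → pos' t = S.pos t := fun t h h' => by
    simp only [pos', if_neg h, if_neg h']
  have hn : ∀ t, Nr S.G.y 10 (S.pos t) (pos' t) := fun t => by
    refine (P4.nr0 ?_).mono (by omega)
    by_cases h : S.tag t = 0
    · rw [p0 t h]; exact f2 _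
    by_cases h' : S.tag t = 1
    · rw [p1 t h']; exact pτ _
    · rw [p2 t h h']
  have hF : Ft (H * Q 30 Δ) pos' := ft_mov hn P.sz P.ft
  have hrel : S.G.x3 * (S.G.x2 * τ) * (τ⁻¹ * S.G.x1 * τ) * (τ⁻¹ * S.G.x0) = 1 := by
    rw [← S.G.rel]; group
  let G' : P4 := S.G.re (τ⁻¹ * S.G.x0) (τ⁻¹ * S.G.x1 * τ) (S.G.x2 * τ) S.G.x3 hrel
  have hG' : G'.Sz (2 * Δ) := P4.sz_iff.2 ⟨fun d => (z0 d).trans (by omega),
    fun d => (z1 d).trans (by omega), z2, fun d => (s3 d).trans (by omega)⟩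
  have arc : ∀ i ∈ O.X, ∀ u, (u = O.v i ∨ u = S.G.x3 (O.v i)) → ∀ i' ∈ O.X,
      (τ⁻¹ * S.G.x0).SameCycle i' u → i = i' := fun i hi u hu i' hi' h => by
    by_contra hne
    obtain ⟨k, k1, k2⟩ := (c2 i' hi' u).1 h
    obtain ⟨o1, o2⟩ := O.oth i hi i' hi' hne k k1
    rcases hu with hu | hu
    · exact o1 (k2.symm.trans hu)
    · exact o2 (k2.symm.trans hu)
  have arc' : ∀ i ∈ O.X, ∀ u, (u = O.v i ∨ u = S.G.x3 (O.v i)) →
      (u ∈ Ch ↔ ∃ k < O.m i, (S.G.x0 ^ k) i = u) := fun i hi u hu => by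
    constructor
    · rintro ⟨i', hi', h⟩
      have := arc i hi u hu i' hi' h
      subst this
      obtain ⟨k, k1, k2⟩ := (c2 i hi u).1 h
      exact ⟨k, k1, k2.symm⟩
    · rintro ⟨k, k1, k2⟩
      exact ⟨i, hi, (c2 i hi u).2 ⟨k, k1, k2.symm⟩⟩
  have w2 : ∀ d e, (S.G.x2 * τ).SameCycle e d →
      S.W 2 e ≤ TS.W ⟨G', pos', S.tag⟩ 2 d := fun d e he => by
    refine W_mono fun t h1 h2 => ⟨h1, ?_⟩
    have : pos' t = S.pos t := p2 t (by rw [h1]; decide) (by rw [h1]; decide)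
    change (S.G.x2 * τ).SameCycle (pos' t) d
    rw [this]
    exact (tq.right h2).trans he
  refine ⟨⟨G', pos', S.tag⟩, O.v '' O.X, Ch, ?_, hG', hF.mono (Nat.mul_le_mul_left _
    (Q_mono (by omega) le_rfl)), ?_, ?_, ?_, ?_, ?_, ?_, ?_, ?_, ?_, ?_, ?_, ?_⟩
  · have hb : H * Q 30 Δ ≤ Q 31 (Δ + H) := by
      rw [show 31 = 1 + 30 from rfl]
      exact Q_mul_le ((by omega : H ≤ Δ + H + 2).trans (le_Q _ one_pos))
        (Q_mono le_rfl (by omega))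
    have hb1 : 2 * Δ ≤ Q 31 (Δ + H) := by
      rw [show 31 = 1 + 30 from rfl]
      exact Q_mul_le ((by omega : 2 ≤ Δ + H + 2).trans (le_Q _ one_pos))
        ((by omega : Δ ≤ Δ + H + 2).trans (le_Q _ (by omega)))
    have hb2 : H ≤ Q 31 (Δ + H) := (by omega : H ≤ Δ + H + 2).trans (le_Q _ (by omega))
    generalize hN : Q 31 (Δ + H) = N at hb hb1 hb2
    have hS : S.G.Sz N := P.sz.mono (by omega)
    have hF' : Ft N pos' := hF.mono hb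
    have hG : G'.Sz N := hG'.mono hb1
    have e1 := teq_mov S hS (P.ft.mono hb2) pos' S.tag hn
    have e2 := teq_hur ⟨S.G, pos', S.tag⟩ hS hF' S.tag
    have e3 := teq_rot ⟨S.G.hur, pos', S.tag⟩ hS.hur hF' S.tag
    have hsw : (S.G.hur.rot.sw τ).Sz N := by
      obtain ⟨g0, -, g2, g3⟩ := P4.sz_iff.1 hG
      exact P4.sz_iff.2 ⟨g0, g2, g3, (P4.sz_iff.1 hS.hur.rot).2.2.2⟩
    have e4 := teq_sw ⟨S.G.hur.rot, pos', S.tag⟩ τ c1 tq hS.hur.rot hsw hF' S.tag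
    have e5 := teq_rot3 ⟨S.G.hur.rot.sw τ, pos', S.tag⟩ hsw hF' S.tag
    have e6 := (teq_hur ⟨G', pos', S.tag⟩ hG hF' S.tag).symm
    have e7 : TEq (Q (kA + kA + kA + kA + kA) N) S ⟨G'.hur, pos', S.tag⟩ :=
      TEq.re (G := S.G) ((((e1.transQ e2).transQ e3).transQ e4).transQ e5)
        (by show S.G.x0⁻¹ * S.G.x1 * S.G.x0 =
              (τ⁻¹ * S.G.x0)⁻¹ * (τ⁻¹ * S.G.x1 * τ) * (τ⁻¹ * S.G.x0); group) rfl rfl rfl G'.hur.rel
    refine (e7.transQ e6).mono ((Q_Q hN.ge).trans (Q_mono (by omega) le_rfl))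
  · rintro _ ⟨i, hi, rfl⟩
    obtain ⟨v1, v2, v3⟩ := O.hv i hi
    constructor
    · have : τ (O.v i) = O.v i := by_contra fun h0 => by
        rcases t3 _ h0 with h | ⟨i', hi', h⟩
        · exact v2 h
        · exact (v3 i' hi').1 h
      change S.G.x2 (τ (O.v i)) = O.v i
      rw [this, P.fix _ v1]
    · rintro ⟨i', hi', h⟩
      exact (v3 i' hi').2 h.symm
  · intro d
    change (τ⁻¹ * S.G.x0) d ∈ Ch ↔ d ∈ Ch
    exact ⟨fun ⟨i, hi, h⟩ => ⟨i, hi, Perm.sameCycle_apply_right.1 h⟩,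
      fun ⟨i, hi, h⟩ => ⟨i, hi, Perm.sameCycle_apply_right.2 h⟩⟩
  · rintro d ⟨i, hi, h⟩
    change sz (τ⁻¹ * S.G.x0) d ≤ β
    rw [← sz_congr h, c3 i hi]
    exact (O.hm i hi).2.1
  · rintro _ ⟨i, hi, rfl⟩
    change Xor (O.v i ∈ Ch) (S.G.x3 (O.v i) ∈ Ch)
    rw [arc' i hi _ (Or.inl rfl), arc' i hi _ (Or.inr rfl)]
    exact O.one i hi
  · rintro _ ⟨i, hi, rfl⟩ _ ⟨i', hi', rfl⟩ u ⟨a, ha, hu⟩ u' - h h' hs
    rw [arc i hi u h a ha hu, arc i' hi' u' h' a ha (hu.trans hs)]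
  · rintro d ⟨i, hi, h⟩
    refine ⟨O.v i, ⟨i, hi, rfl⟩, ?_⟩
    rcases O.one i hi with ⟨⟨k, k1, k2⟩, -⟩ | ⟨⟨k, k1, k2⟩, -⟩
    · exact Or.inl (h.symm.trans ((c2 i hi _).2 ⟨k, k1, k2.symm⟩))
    · exact Or.inr (h.symm.trans ((c2 i hi _).2 ⟨k, k1, k2.symm⟩))
  · rintro d ⟨i, hi, h⟩
    refine ⟨i, ?_, h.symm⟩
    rintro ⟨i', hi', h'⟩
    exact (O.hv i' hi').2.1 (h' ▸ hi)
  · intro d hd
    refine (P.h0 d).trans (W_mono fun t h1 h2 => ⟨h1, ?_⟩)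
    change (τ⁻¹ * S.G.x0).SameCycle (pos' t) d
    rw [p0 t h1]
    exact c5 _ _ (fun i hi h => f1 _ ⟨i, hi, h⟩) (fun i hi h => hd ⟨i, hi, h⟩)
      ((f2 _).symm.trans h2)
  · intro d
    refine (P.h1 (τ d)).trans (W_mono fun t h1 h2 => ⟨h1, ?_⟩)
    change (τ⁻¹ * S.G.x1 * τ).SameCycle (pos' t) d
    rw [p1 t h1, ← hinv]
    exact lr4_conj _ _ h2
  · intro d hd
    have wd := w2 d d (Perm.SameCycle.refl _ _)
    by_cases hL : d ∈ L
    · rcases P.light d hL hd with h | h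
      · exact Or.inl (h.trans wd)
      by_cases hL' : τ d ∈ L
      · exact Or.inr ⟨h.trans wd, lr4_two _ τ t0 d (P.fix d hL) (P.fix _ hL')⟩
      · exact Or.inl ((P.h2 _ hL').trans (w2 d (τ d) (tq.left ⟨1, by rw [zpow_one, hττ]⟩)))
    · exact Or.inl ((P.h2 d hL).trans wd)
  · intro d
    refine (P.h3 d).trans (W_mono fun t h1 h2 => ⟨h1, ?_⟩)
    change S.G.x3.SameCycle (pos' t) d
    rw [p2 t (by rw [h1]; decide) (by rw [h1]; decide)]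
    exact h2
  · intro d
    refine (P.res d).trans (W_mono fun t h1 h2 => ⟨h1, ?_⟩)
    change (1 : Perm S.G.D).SameCycle (pos' t) d
    rw [p2 t (by rw [h1]; decide) (by rw [h1]; decide)]
    exact h2

end Pool.Agent.MC.LL
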