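import Pool.Agent.P.MP_2677b3_gt.LRH

open Equiv Function

noncomputable section

namespace Pool.Agent.MC.LL

theorem ops_step2 : ∃ κ : ℕ, ∀ (Tok : Type) [Finite Tok] (S : TS Tok) (V Ch : Set S.G.D)
    (β Δ H μ M ν : ℕ), Mid S V Ch β Δ H μ M ν →
    ∃ S' : TS Tok, TEq (Q κ (Δ + H + β)) S S' ∧
      Inv2 S' (Δ * (β + 1)) (H * Q κ (Δ + β)) μ M ν := by
  classical
  refine ⟨5 * (kA + kA + kA + 70 * kA) + 120, fun Tok _ S V Ch β Δ H μ M ν h => ?_⟩
  obtain ⟨b, bb, b1, b2, b3⟩ := exists_invol (fun v : V => v.1) (fun v => S.G.x3 v.1)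
    Subtype.val_injective (S.G.x3.injective.comp Subtype.val_injective)
    fun j k e => (h.fix _ k.2).2 (e ▸ j.2)
  have c1 : ∀ v ∈ V, b v = S.G.x3 v := fun v hv => b1 ⟨v, hv⟩
  have c2 : ∀ v ∈ V, b (S.G.x3 v) = v := fun v hv => b2 ⟨v, hv⟩
  have c3 : ∀ d, b d ≠ d → ∃ v ∈ V, d = v ∨ d = S.G.x3 v := fun d hd =>
    (b3 d hd).elim fun j e => ⟨j.1, j.2, e⟩
  have bi : b⁻¹ = b := inv_eq_of_mul_eq_one_right bb
  have hr : b⁻¹ * S.G.x3 = ret S.G.x3 Vᶜ := Perm.ext fun d => by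
    rw [bi, Perm.mul_apply]
    by_cases c : d ∈ V
    · rw [ret_not (A := Vᶜ) fun e => e c, c2 d c]
    · by_cases c' : S.G.x3 d ∈ V
      · rw [ret_eq (A := Vᶜ) c (m := 2) two_pos (h.fix _ c').2 fun k a a' => by
          obtain rfl : k = 1 := by omega
          exact fun e => e c', c1 _ c']
        rfl
      · rw [ret_eq (A := Vᶜ) c (m := 1) one_pos c' fun k a a' => by omega]
        refine by_contra fun e => ?_
        obtain ⟨v, hv, e | e⟩ := c3 _ e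
        exacts [c' (e ▸ hv), c (S.G.x3.injective e ▸ hv)]
  have f3 : ∀ d ∈ V, (b⁻¹ * S.G.x3) d = d := fun d hd => hr ▸ ret_not fun e => e hd
  have k1 : ∀ d, b d ≠ d → (d ∈ Ch ↔ b d ∉ Ch) := fun d hd => by
    obtain ⟨v, hv, rfl | rfl⟩ := c3 d hd
    · rw [c1 d hv]
      exact (h.one d hv).elim (fun a => iff_of_true a.1 a.2) fun a => iff_of_false a.2 fun e => e a.1
    · rw [c2 v hv]
      exact (h.one v hv).elim (fun a => iff_of_false a.2 fun e => e a.1) fun a => iff_of_true a.1 a.2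
  have k2 : ∀ d ∈ Ch, ∀ e ∈ Ch, b d ≠ d → b e ≠ e → S.G.x0.SameCycle d e → d = e :=
    fun d hd e he a a' c => by
      obtain ⟨v, hv, e1⟩ := c3 d a
      obtain ⟨w, hw, e2⟩ := c3 e a'
      obtain rfl := h.uniq v hv w hw d hd e he e1 e2 c
      rcases e1 with rfl | rfl <;> rcases e2 with rfl | rfl
      exacts [rfl, (h.one d hv).elim (fun x => (x.2 he).elim) fun x => (x.2 hd).elim,
        (h.one e hv).elim (fun x => (x.2 hd).elim) fun x => (x.2 he).elim, rfl]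
  have T1 : Tree (b⁻¹ * S.G.x3) b := tree_invol _ b bb V (fun d => if d ∈ V then 1 else 0)
    (fun d => by rw [hr]; exact if_congr (not_iff_not.1 (ret_mem (A := Vᶜ) d)) rfl rfl)
    (fun d hd => by rw [c1 d hd, if_neg (h.fix d hd).2, if_pos hd]; exact one_pos)
    (fun d hd e _ c => c.eq_of_left (f3 d hd)) fun d hd => by
      obtain ⟨v, hv, rfl | rfl⟩ := c3 d hd
      exacts [Or.inl hv, Or.inr ((c2 v hv).symm ▸ hv)]
  have T2 : Tree b S.G.x0 := (tree_invol _ b bb {u ∈ Ch | b u ≠ u} (fun d => if d ∈ Ch then 1 else 0)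
    (fun d => if_congr (h.inv d) rfl rfl)
    (fun d hd => by rw [if_neg ((k1 d hd.2).1 hd.1), if_pos hd.1]; exact one_pos)
    (fun d hd e he c => k2 d hd.1 e he.1 hd.2 he.2 c) fun d hd => by
      by_cases c : d ∈ Ch
      · exact Or.inl ⟨c, hd⟩
      · refine Or.inr ⟨by_contra fun e => c ((k1 d hd).2 e), ?_⟩
        rw [← Perm.mul_apply, bb]
        exact hd.symm).symm
  have s1 : ∀ v ∈ V, (S.G.x0 * b).SameCycle v (S.G.x3 v) := fun v hv =>
    T2.left (c1 v hv ▸ sc_self_apply b v)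
  have l1 : Δ ≤ Δ * (β + 1) := Nat.le_mul_of_pos_right _ β.succ_pos
  have z1 : (S.G.rot.rot.rot.sw b).Sz (Δ * (β + 1)) := P4.sz_iff.2
    ⟨fun d => (sz_le_of_sc (τ := S.G.x3) (fun e => ret_sc_le (A := Vᶜ)
        (hr ▸ sc_self_apply _ e)) d).trans ((h.sz 3 d).trans l1),
      star_sz _ b Ch β Δ bb h.inv h.small (h.sz 0) k1 k2, fun d => (h.sz 1 d).trans l1,
      fun d => (h.sz 2 d).trans l1⟩
  have z0 : S.G.Sz (Δ * (β + 1) + H) := h.sz.mono (l1.trans (Nat.le_add_right _ _))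
  have z2 := z1.mono (Nat.le_add_right _ H)
  have z3 : Ft (Δ * (β + 1) + H) S.pos := h.ft.mono (Nat.le_add_left _ _)
  have t1 := ((teq_rot3 S z0 z3 S.tag).transQ (teq_sw ⟨S.G.rot.rot.rot, S.pos, S.tag⟩ b T1 T2
    z0.rot.rot.rot z2 z3 S.tag)).transQ (teq_rot ⟨S.G.rot.rot.rot.sw b, S.pos, S.tag⟩ z2 z3 S.tag)
  have h0 : ∀ d, ∃ e, e ∉ V ∧ (S.G.x0 * b).SameCycle d e := fun d => by
    by_cases c : d ∈ V
    · rcases h.one d c with a | a
      · obtain ⟨e, e1, e2⟩ := h.non _ a.1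
        exact ⟨e, e1, T2.right e2⟩
      · obtain ⟨e, e1, e2⟩ := h.non _ a.1
        exact ⟨e, e1, (s1 d c).trans (T2.right e2)⟩
    · exact ⟨d, c, .refl _ _⟩
  obtain ⟨h1, hd⟩ := teq_deln ⟨(S.G.rot.rot.rot.sw b).rot, S.pos, S.tag⟩ V
    (fun d hd => (h.fix d hd).1) f3 h0
  choose e0 e01 e02 using h0
  choose e1 e11 e12 using h1
  obtain ⟨p', p1, p2, p3, p4, p5⟩ : ∃ p' : Tok → S.G.D, (∀ τ, p' τ ∉ V) ∧
      (∀ τ, S.pos τ ∉ V → p' τ = S.pos τ) ∧
      (∀ τ, S.tag τ ≠ 1 → (S.G.x0 * b).SameCycle (S.pos τ) (p' τ)) ∧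
      (∀ τ, S.tag τ = 1 → S.G.x1.SameCycle (S.pos τ) (p' τ)) ∧
      ∀ τ, S.tag τ = 3 → S.G.x3.SameCycle (S.pos τ) (p' τ) := by
    refine ⟨fun τ => if S.pos τ ∈ V then if S.tag τ = 3 then S.G.x3 (S.pos τ) else
      if S.tag τ = 1 then e1 (S.pos τ) else e0 (S.pos τ) else S.pos τ, fun τ => ?_,
      fun τ c => if_neg c, fun τ c => ?_, fun τ c => ?_, fun τ c => ?_⟩ <;> beta_reduce
    · split_ifs with a
      exacts [(h.fix _ a).2, e11 _, e01 _, a]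
    · split_ifs with a
      exacts [s1 _ a, e02 _, .refl _ _]
    · rw [if_neg (by rw [c]; decide : ¬ S.tag τ = 3), if_pos c]
      split_ifs
      exacts [e12 _, .refl _ _]
    · rw [if_pos c]
      split_ifs
      exacts [sc_self_apply _ _, .refl _ _]
  obtain ⟨S', ι, -, i1, -, -, -, i2, i3, -, -, i4, i5, -, i6⟩ := hd p' S.tag _ H z1.rot h.ft p1
    fun τ => by
      by_cases c : S.tag τ = 1
      exacts [(P4.nr1 (G := (S.G.rot.rot.rot.sw b).rot) (p4 τ c)).mono (by omega),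
        (P4.nr0 (G := (S.G.rot.rot.rot.sw b).rot) (p3 τ c)).mono (by omega)]
  have iV : ∀ d, ι d ∉ V := fun d => i1.le ⟨d, rfl⟩
  have q1 : ∀ n, Δ + β ≤ n → Δ * (β + 1) ≤ Q 2 n := fun n c =>
    Q_mul_le (k := 1) (k' := 1) ((by omega : Δ ≤ n + 2).trans (le_Q _ one_pos))
      ((by omega : β + 1 ≤ n + 2).trans (le_Q _ one_pos))
  have key : ∀ c d e, (∀ τ, S.tag τ = c → (S.G.y c).SameCycle (S.pos τ) e →
      ((S.G.rot.rot.rot.sw b).rot.y c).SameCycle (p' τ) (ι d)) → S.W c e ≤ S'.W c d :=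
    fun c d e x => by
      rw [i5]
      exact W_mono fun τ a y => ⟨a, x τ a y⟩
  have w2 : ∀ d, S.W 2 (ι d) ≤ S'.W 2 d := fun d => key 2 d _ fun τ a c => by
    rw [p2 τ fun e => iV d (c.eq_of_left (h.fix _ e).1 ▸ e)]
    exact c
  refine ⟨S', (t1.transQ i6).mono ((Q_Q (Q_add (q1 _ (by omega))
    ((by omega : H ≤ Δ + H + β + 2).trans (le_Q _ two_pos)))).trans (Q_mono (by omega) le_rfl)),
    i3, i4.mono (Nat.mul_le_mul_left _ ((Q_Q (q1 _ le_rfl)).trans (Q_mono (by omega) le_rfl))),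
    fun d => ?_, fun d => ?_, fun d => ?_, fun d => ?_, fun d => ?_⟩
  · obtain ⟨e, a, c⟩ : ∃ e, e ∉ Ch ∧ (S.G.x0 * b).SameCycle e (ι d) := by
      by_cases c : ι d ∈ Ch
      · have hc : ∀ {u}, S.G.x0.SameCycle (ι d) u → u ∈ Ch := fun x =>
          sc_lab (fun z => z ∈ Ch) (fun e => propext (h.inv e)) x ▸ c
        obtain ⟨v, hv, x | x⟩ := h.ex _ c
        · exact ⟨_, (h.one v hv).elim (·.2) fun y => (y.2 (hc x)).elim,
            (s1 v hv).symm.trans (T2.right x.symm)⟩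
        · exact ⟨v, (h.one v hv).elim (fun y => (y.2 (hc x)).elim) (·.2),
            (s1 v hv).trans (T2.right x.symm)⟩
      · exact ⟨_, c, .refl _ _⟩
    exact (h.h0 e a).trans (key 0 d _ fun τ x y => (p3 τ (by rw [x]; decide)).symm.trans
      ((T2.right y).trans c))
  · exact (h.h1 (ι d)).trans (key 1 d _ fun τ x y => (p4 τ x).symm.trans y)
  · exact (h.h2 _ (iV d)).imp (·.trans (w2 d)) fun x => ⟨x.1.trans (w2 d), (i2 2 d).trans x.2⟩
  · refine (h.h3 (ι d)).trans (key 3 d _ fun τ x y => ?_)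
    show (b⁻¹ * S.G.x3).SameCycle (p' τ) (ι d)
    rw [hr]
    exact (ret_sc (A := Vᶜ) (p1 τ) (iV d)).2 ((p5 τ x).symm.trans y)
  · refine (h.res (ι d)).trans (key 4 d _ fun τ x y => ?_)
    show (1 : Perm S.G.D).SameCycle (p' τ) (ι d)
    rw [p2 τ fun e => iV d (Perm.sameCycle_one.1 y ▸ e)]
    exact y

end Pool.Agent.MC.LL
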