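import Pool.Agent.P.MP_2677b3_gt.LRH

open Equiv Function

noncomputable section

namespace Pool.Agent.MC.LL

theorem lr6_csum {I : Type} [Finite I] {P : I → Prop} {y : I → ℕ} {c : ℕ}
    (h1 : ∀ i j, P i → P j → i = j) (h2 : ∀ i, P i → y i ≤ c) : csum P y ≤ c := by
  classical
  have := Fintype.ofFinite I
  rw [csum_eq]
  refine (Finset.sum_le_card_nsmul _ _ c fun i hi => h2 i (Finset.mem_filter.1 hi).2).trans ?_
  rw [smul_eq_mul]
  exact (Nat.mul_le_mul_right c (Finset.card_le_one.2 fun i hi j hj =>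
    h1 i j (Finset.mem_filter.1 hi).2 (Finset.mem_filter.1 hj).2)).trans (one_mul c).le

theorem lr6_fib {D V : Type} [Finite D] [Finite V] (f : D → V) (A : Set V) (c : ℕ)
    (h : ∀ e, f e ∈ A → {e' | f e = f e'}.ncard ≤ c) : {e | f e ∈ A}.ncard ≤ c * A.ncard := by
  classical
  rw [Set.ncard_eq_toFinset_card _ (Set.toFinite _), Set.ncard_eq_toFinset_card _ (Set.toFinite _)]
  refine Finset.card_le_mul_card_image_of_maps_to (f := f) (fun a ha => by simpa using ha) c
    fun b hb => ?_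
  by_cases hx : ∃ e, f e = b
  · obtain ⟨e, rfl⟩ := hx
    refine le_trans ?_ (h e (by simpa using hb))
    rw [← Set.ncard_coe_finset]
    exact Set.ncard_le_ncard (fun x hx => (Finset.mem_filter.1 hx).2.symm) (Set.toFinite _)
  · rw [Finset.filter_false_of_mem fun x _ e => hx ⟨x, e⟩]
    exact Nat.zero_le _

theorem lr6_rev {D V : Type} [Finite D] (f : D → V) (r : Perm D) (u : D) :
    Relation.ReflTransGen (fun x y => ∃ w, f w = x ∧ f (r w) = y) (f (r u)) (f u) := by
  have key : ∀ k : ℕ, Relation.ReflTransGen (fun x y => ∃ w, f w = x ∧ f (r w) = y) (f (r u))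
      (f ((r ^ k) (r u))) := fun k => by
    induction k with
    | zero => exact .refl
    | succ k ih => exact ih.tail ⟨_, rfl, by rw [pow_succ', Perm.mul_apply]⟩
  obtain ⟨k, -, hk⟩ := (Perm.sameCycle_apply_left.2 (Perm.SameCycle.refl r u)).exists_pow_eq'
  have := key k
  rwa [hk] at this

/-- Light cells of slot two become fixed points of slot one; then the slots are rotated. -/
theorem conv : ∃ κ : ℕ, ∀ (Tok : Type) [Finite Tok] (S : TS Tok) (Δ H μ M ν tax : ℕ),
    Inv2 S Δ H μ (2 * M) ν → 0 < tax → tax ≤ μ → 0 < M →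
    ∃ (S' : TS Tok) (L' : Set S'.G.D), TEq (Q κ (Δ + H + M)) S S' ∧
      Inv S' L' (Δ * Q κ M) (H * Q κ (Δ + M)) (μ - tax) M ν := by
  classical
  refine ⟨1000 * kA + 30, fun Tok _ S Δ H μ M ν tax h ht htμ hM => ?_⟩
  let cls : S.G.D → Quotient (Perm.SameCycle.setoid S.G.x2) := Quotient.mk _
  have hc : ∀ d e, cls d = cls e ↔ S.G.x2.SameCycle d e := fun d e => Quotient.eq
  have ho : ∀ x, cls x.out = x := Quotient.out_eq
  have hq : ∀ d, cls (S.G.x2 d) = cls d := fun d =>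
    (hc _ _).2 (Perm.sameCycle_apply_left.2 (Perm.SameCycle.refl _ d))
  have hR : ∀ e, S.W 2 (cls e).out = S.W 2 e := fun e => W_congr (κ := 2) ((hc _ _).1 (ho _))
  have hn : ∀ v, {e | cls (S.G.x1 e) = v}.ncard ≤ Δ := fun v =>
    (Set.ncard_le_ncard_of_injOn (t := {e | S.G.x2.SameCycle v.out e}) S.G.x1
      (fun a ha => (hc _ _).1 ((ho v).trans (Eq.symm ha))) S.G.x1.injective.injOn
      (Set.toFinite _)).trans (h.sz 2 v.out)
  obtain ⟨top, rk, U, c1, c2, c3, c4, c5, c6, c7⟩ := cl2 cls (fun u => cls (S.G.x1 u))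
    (lr6_rev cls S.G.x1) {x | 2 * M ≤ S.W 2 x.out} M hM Δ hn
  obtain ⟨β, f1, f2, f3, f4, -, -, f7, f8, f9⟩ := fsw S.G.x1 S.G.x2 U (fun d => rk (cls d))
    (fun d => by rw [hq]) (fun u hu => (c1 u hu).1) fun u hu u' hu' e => c2 hu hu' ((hc _ _).2 e)
  choose off o1 o2 using f4
  obtain ⟨s0, s1, s2, s3⟩ := P4.sz_iff.1 h.sz
  have hs : ∀ e, cls e ∉ {x : Quotient _ | 2 * M ≤ S.W 2 x.out} →
      μ ≤ S.W 2 e ∧ sz S.G.x2 e ≤ 2 := fun e he => (h.h2 e).resolve_left fun k => he (k.trans (hR e).ge)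
  have hf : ∀ e, {e' | cls e = cls e'}.ncard = sz S.G.x2 e := fun e => by simp only [hc, sz]
  have hT : ∀ e, (S.G.x2 * β).SameCycle e (top (cls e)).out := fun e => by
    induction hn : rk (cls e) using Nat.strong_induction_on generalizing e with
    | _ n ih =>
      by_cases he : cls e = top (cls e)
      · exact f8 _ _ ((hc _ _).1 (he.trans (ho _).symm))
      · obtain ⟨u, hu, e1⟩ := (c3 _).1 he
        have := ih _ (hn ▸ e1 ▸ (c1 u hu).1) (S.G.x1 u) rfl
        rw [(c1 u hu).2, e1] at this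
        exact (f8 _ _ ((hc _ _).1 e1.symm)).trans ((f7 u hu).trans this)
  have hT' : ∀ e d, top (cls e) = top (cls d) → (S.G.x2 * β).SameCycle e d := fun e d k =>
    (hT e).trans (k ▸ (hT d).symm)
  have hZ : ∀ d, sz (S.G.x2 * β) d ≤ Δ * Q 4 M := fun d => by
    have d1 : 1 ≤ Δ := (sz_pos _ d).trans_le (s0 d)
    have k4 := c7 (top (cls d))
    have a2 := lr6_fib cls {top (cls d)} Δ fun e _ => hf e ▸ s2 e
    have a3 := lr6_fib cls {x | top x = top (cls d) ∧ x ≠ top x} 2 fun e he =>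
      hf e ▸ (hs e fun k => he.2 (c5 _ k).symm).2
    have a4 : {x | top x = top (cls d) ∧ x ≠ top x}.ncard ≤ {x | top x = top (cls d)}.ncard :=
      Set.ncard_le_ncard (fun x hx => hx.1) (Set.toFinite _)
    have a5 := (sz_le_lab (fun e => top (cls e)) (f9 _ (fun e => top (cls e))
      (fun e => by rw [hq]) fun u hu => (c1 u hu).2) d).trans ((Set.ncard_le_ncard
        (t := {e | cls e ∈ ({top (cls d)} : Set _)} ∪
          {e | cls e ∈ {x | top x = top (cls d) ∧ x ≠ top x}})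
        (fun e he => (em (cls e = top (cls e))).imp (fun k => k.trans he) fun k => ⟨he, k⟩)
        (Set.toFinite _)).trans (Set.ncard_union_le _ _))
    rw [Set.ncard_singleton] at a2
    have a7 : 1 + 4 * M + 4 * M ^ 2 ≤ Q 4 M := by
      unfold Q
      nlinarith [Nat.zero_le (M ^ 3), Nat.zero_le (M ^ 4)]
    have a8 := Nat.mul_le_mul_left Δ a7
    nlinarith [Nat.mul_le_mul_right M d1, Nat.mul_le_mul_right (M ^ 2) d1]
  obtain ⟨pos', tag', g, p1, p2, p3, p4, p5, -, -⟩ := pay_ts S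
    (R := U ⊕ {y // top y = y ∧ ∀ u, top (cls u) = y ↔ top (cls (S.G.x1 u)) = y})
    (Sum.elim (fun _ => 2) fun _ => 1) (Sum.elim (fun _ => 1) fun _ => 2)
    (Sum.elim (↑) fun y => y.1.out) (Sum.elim (↑) fun y => y.1.out)
    (Sum.elim (fun _ => μ - tax) fun _ => M)
    (fun κ d => if κ = 2 then (if 2 * M ≤ S.W 2 d then M else tax) else if κ = 4 then ν else M)
    (fun ρ => Nr.refl 9 _) (fun κ d e k => by
      by_cases e2 : κ = 2
      · subst e2
        simp only [W_congr k]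
      · simp only [if_neg e2]) (fun κ d => by
      have z : ∀ κ : Fin 5, κ ≠ 1 → κ ≠ 2 → ∀ (P : _ → Prop) amt, csum (fun ρ : U ⊕ {y // top y = y ∧
          ∀ u, top (cls u) = y ↔ top (cls (S.G.x1 u)) = y} =>
          Sum.elim (fun _ => 2) (fun _ => 1) ρ = κ ∧ P ρ) amt ≤ 0 := fun κ a b P amt =>
        lr6_csum (fun i _ hi => by rcases i with i | i; exacts [(b hi.1.symm).elim, (a hi.1.symm).elim])
          fun i hi => by rcases i with i | i; exacts [(b hi.1.symm).elim, (a hi.1.symm).elim]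
      have := h.h0 d
      have := h.h1 d
      have := h.h3 d
      have := h.res d
      obtain rfl | rfl | rfl | rfl | rfl : κ = 0 ∨ κ = 1 ∨ κ = 2 ∨ κ = 3 ∨ κ = 4 := by omega
      · exact (Nat.add_le_add_left (z 0 (by decide) (by decide) _ _) _).trans (by simp; omega)
      · refine (Nat.add_le_add_left (lr6_csum (c := M) ?_ ?_) _).trans (by simp; omega)
        · rintro (i | i) (j | j) hi hj
          any_goals simp at hi hj
          have := sc_lab (fun e => top (cls e) = i.1) (fun e => propext (i.2.2 e).symm)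
            (hi.trans hj.symm)
          simp only [ho, i.2.1, j.2.1, eq_iff_iff, true_iff] at this
          rw [Subtype.ext this]
        · rintro (i | i) hi
          · simp at hi
          · exact le_rfl
      · have y : ∀ c, (∀ u ∈ U, cls u = cls d → μ - tax ≤ c) → csum (fun ρ : U ⊕ {y // top y = y ∧
            ∀ u, top (cls u) = y ↔ top (cls (S.G.x1 u)) = y} =>
            Sum.elim (fun _ => (2 : Fin 5)) (fun _ => 1) ρ = 2 ∧ (S.G.y 2).SameCycle
              (Sum.elim (↑) (fun y => y.1.out) ρ) d) (Sum.elim (fun _ => μ - tax) fun _ => M) ≤ c := by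
          intro c hc'
          refine lr6_csum ?_ ?_
          · rintro (i | i) (j | j) hi hj
            any_goals simp at hi hj
            rw [Subtype.ext (c2 i.2 j.2 ((hc _ _).2 (hi.trans hj.symm)))]
          · rintro (i | i) hi
            · exact hc' i i.2 ((hc _ _).2 hi.2)
            · simp at hi
        by_cases k : 2 * M ≤ S.W 2 d
        · have := y 0 fun u hu e => absurd (c5 _ (k.trans (hR d).ge)).symm ((c3 _).2 ⟨u, hu, e⟩)
          simp only [if_pos k, if_true]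
          omega
        · have := y _ fun _ _ _ => le_rfl
          have := ((h.h2 d).resolve_left k).1
          simp only [if_neg k, if_true]
          omega
      · exact (Nat.add_le_add_left (z 3 (by decide) (by decide) _ _) _).trans (by simp; omega)
      · exact (Nat.add_le_add_left (z 4 (by decide) (by decide) _ _) _).trans (by simpa))
  let pos2 : Tok → S.G.D := fun τ => if g τ = none ∧ S.tag τ = 1 then off (S.pos τ) else pos' τ
  let π : Fin 5 → Fin 5 := ![1, 2, 3, 0, 4]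
  let S' : TS Tok := ⟨(S.G.rot.sw β).rot.rot, pos2, π ∘ tag'⟩
  have hn : ∀ τ, Nr S.G.y 10 (S.pos τ) (pos2 τ) := fun τ => by
    simp only [pos2]
    split_ifs
    · exact (P4.nr1 (o2 _)).mono (by omega)
    · exact p1 τ
  have hF := ft_mov hn h.sz h.ft
  have hΔ : Δ ≤ Δ * Q 4 M := Nat.le_mul_of_pos_right _ (Q_pos _ _)
  have hsw : (S.G.rot.sw β).Sz (Δ * Q 4 M) := P4.sz_iff.2 ⟨fun d => by
    refine ((sz_le_of_sc (fun e => ?_) d).trans (s1 d)).trans hΔ
    show S.G.x1.SameCycle e ((β⁻¹ * S.G.x1) e)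
    rw [f1]
    exact ret_sc_le (Perm.sameCycle_apply_right.2 (Perm.SameCycle.refl _ e)),
    hZ, fun d => (s3 d).trans hΔ, fun d => (s0 d).trans hΔ⟩
  have b0 := le_Q (k := 1) (Δ + H + M) one_pos
  have b1 : Δ * Q 4 M ≤ Q 31 (Δ + H + M) := (Q_mul_le (k := 1) (k' := 4) (by omega)
    (Q_mono le_rfl (by omega))).trans (Q_mono (by omega) le_rfl)
  have b2 : H * Q 30 Δ ≤ Q 31 (Δ + H + M) :=
    Q_mul_le (k := 1) (k' := 30) (by omega) (Q_mono le_rfl (by omega))
  have b3 := h.sz.mono (hΔ.trans b1)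
  have hk : ∀ κ d d', κ ≠ 1 → (∀ e, (S.G.y κ).SameCycle e d → (S'.G.y (π κ)).SameCycle e d') →
      ∀ τ, g τ = none ∧ S.tag τ = κ ∧ (S.G.y κ).SameCycle (S.pos τ) d →
        S'.tag τ = π κ ∧ (S'.G.y (π κ)).SameCycle (S'.pos τ) d' := fun κ d d' a b τ k => by
    have e : pos2 τ = S.pos τ := (if_neg fun k' => a (k.2.1.symm.trans k'.2)).trans (p2 τ k.1).1
    exact ⟨congrArg π ((p2 τ k.1).2.trans k.2.1), b _ (e.symm ▸ k.2.2 :)⟩
  have hr : ∀ ρ τ, g τ = some ρ → pos2 τ = pos' τ := fun ρ τ k =>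
    if_neg fun k' => by simp [k] at k'
  refine ⟨S', U, ?_, hsw.rot.rot.mono (Nat.mul_le_mul_left _ (Q_mono (by omega) le_rfl)),
    hF.mono (Nat.mul_le_mul_left _ (Q_mono (by omega) (by omega))), fun u hu => ?_, fun u hu => ?_,
    fun d => ?_, fun d => ?_, fun d hd => ?_, fun d => ?_, fun d => ?_⟩
  · have t1 := teq_mov S b3 (h.ft.mono ((Nat.le_mul_of_pos_right _ (Q_pos _ _)).trans b2)) pos2
      (π ∘ tag') hn
    have t2 := teq_rot ⟨S.G, pos2, π ∘ tag'⟩ b3 (hF.mono b2) (π ∘ tag')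
    have t3 := teq_sw ⟨S.G.rot, pos2, π ∘ tag'⟩ β f2 f3 b3.rot (hsw.mono b1) (hF.mono b2) (π ∘ tag')
    have t4 := teq_rot2 ⟨S.G.rot.sw β, pos2, π ∘ tag'⟩ (hsw.mono b1) (hF.mono b2) (π ∘ tag')
    exact (((t1.transQ t2).transQ t3).transQ t4).mono ((Q_Q le_rfl).trans (Q_mono (by omega) le_rfl))
  · show (β⁻¹ * S.G.x1) u = u
    rw [f1]
    exact ret_not fun k => k hu
  · refine (p4 (.inl ⟨u, hu⟩)).trans (Set.ncard_le_ncard (fun τ k => ?_) (Set.toFinite _))
    refine ⟨congrArg π (p3 τ _ k).2.1, ?_⟩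
    have e : S'.pos τ = u := (hr _ τ k).trans (p3 τ _ k).1
    rw [e]
  · exact (p5 3 d).trans (Set.ncard_le_ncard (hk 3 d d (by decide) fun _ k => k) (Set.toFinite _))
  · exact (p5 0 d).trans (Set.ncard_le_ncard (hk 0 d d (by decide) fun _ k => k) (Set.toFinite _))
  · refine (p5 1 d).trans (Set.ncard_le_ncard (fun τ k => ?_) (Set.toFinite _))
    refine ⟨congrArg π ((p2 τ k.1).2.trans k.2.1), ?_⟩
    have e : S'.pos τ = off (S.pos τ) := if_pos ⟨k.1, k.2.1⟩
    rw [e]
    show (β⁻¹ * S.G.x1).SameCycle _ d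
    rw [f1]
    exact (ret_sc (A := Uᶜ) (o1 _) hd).2 ((o2 _).symm.trans k.2.2)
  · have k1 : ∀ x, top x = top (cls d) → ∀ τ, g τ = none ∧ S.tag τ = 2 ∧
        (S.G.y 2).SameCycle (S.pos τ) x.out → S'.tag τ = 3 ∧ (S'.G.y 3).SameCycle (S'.pos τ) d :=
      fun x hx => hk 2 _ d (by decide) fun e k => hT' e d (by rw [(hc _ _).2 k, ho, hx])
    rcases c6 _ (c4 (cls d)) with k | k | k
    · have := p5 2 (top (cls d)).out
      rw [if_pos rfl, if_pos (show 2 * M ≤ S.W 2 (top (cls d)).out from k)] at this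
      exact this.trans (Set.ncard_le_ncard (k1 _ (c4 _)) (Set.toFinite _))
    · refine k.trans (W_ge_card _ (fun τ => cls (S.pos τ)) fun x hx => ?_)
      have := p5 2 x.out
      rw [if_pos rfl] at this
      obtain ⟨τ, hτ⟩ := Set.nonempty_of_ncard_ne_zero
        (lt_of_lt_of_le (by split_ifs; exacts [hM, ht]) this).ne'
      exact ⟨τ, ((hc _ _).2 hτ.2.2).trans (ho x), k1 x hx τ hτ⟩
    · refine (p4 (.inr ⟨_, c4 (cls d), k⟩)).trans
        (Set.ncard_le_ncard (fun τ k' => ?_) (Set.toFinite _))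
      refine ⟨congrArg π (p3 τ _ k').2.1, ?_⟩
      have e : S'.pos τ = (top (cls d)).out := (hr _ τ k').trans (p3 τ _ k').1
      rw [e]
      exact (hT d).symm
  · exact (p5 4 d).trans (Set.ncard_le_ncard (hk 4 d d (by decide) fun _ k => k) (Set.toFinite _))

end Pool.Agent.MC.LL
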