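import Pool.Agent.P.MP_2677b3_gt.LR2
import Pool.Agent.P.MP_2677b3_gt.LR3
import Pool.Agent.P.MP_2677b3_gt.LR4
import Pool.Agent.P.MP_2677b3_gt.LR5
import Pool.Agent.P.MP_2677b3_gt.LR6

open Equiv Function

noncomputable section

namespace Pool.Agent.MC.LL

theorem lr7_le {a n k : ℕ} (h : a ≤ n) (hk : 0 < k) : a ≤ Q k n := by
  have := le_Q n hk; omega

theorem lr7_two (m : ℕ) : 4 * m + 2 ≤ Q 2 m := by
  unfold Q; nlinarith

attribute [local irreducible] Q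

theorem lr7_up {a k k' n n' : ℕ} (h : a ≤ Q k n) (hk : k ≤ k') (hn : n ≤ n') : a ≤ Q k' n' :=
  h.trans (Q_mono hk hn)

theorem round : ∃ κ : ℕ, ∀ (Tok : Type) [Finite Tok] (S : TS Tok) (L : Set S.G.D)
    (Δ H μ M ν : ℕ), Inv S L Δ H μ (8 * M) (ν + 1) → 88 ≤ μ → 0 < M →
    ∃ (S' : TS Tok) (L' : Set S'.G.D), TEq (Q κ (Δ + H + M)) S S' ∧
      Inv S' L' (Δ * Q κ M) (H * Q κ (Δ + M)) (μ + μ / 88) M ν := by
  obtain ⟨k1, h1⟩ := ops_step1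
  obtain ⟨k2, h2⟩ := ops_step2
  obtain ⟨k3, h3⟩ := conv
  refine ⟨kA + (32 + 2) * k1 + (31 + k1 + 1 + 2) * k2 + (1 + (30 + k1 + (2 + 2) * k2) + 1 + 2) * k3
    + (2 + k3) + (30 + k1 + (2 + 2) * k2 + (4 + 2) * k3), ?_⟩
  intro Tok _ S L Δ H μ M ν h hμ hM
  obtain ⟨O⟩ := ops_select S.G L h.fix (2 * M)
  obtain ⟨pos', tag', t0, p0⟩ := ops_pay S L h O
  obtain ⟨S2, V, Ch, t1, p1⟩ := h1 Tok ⟨S.G, pos', tag'⟩ L (2 * M) Δ _ _ _ ν O p0
  obtain ⟨S3, t2, p2⟩ := h2 Tok S2 V Ch _ _ _ _ _ ν p1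
  obtain ⟨S4, L', t3, p3⟩ := h3 Tok S3 _ _ _ M ν (μ / 88) p2 (by omega) (by omega) hM
  -- bounds in terms of `Δ + M`
  have a1 : 2 * Δ + 2 * M ≤ Q 2 (Δ + M) := by have := lr7_two (Δ + M); omega
  have a2 : 2 * Δ * (2 * M + 1) + M ≤ Q 4 (Δ + M) := by
    have b1 : Δ * (4 * M + 2) ≤ Q (1 + 2) (Δ + M) :=
      Q_mul_le (lr7_le (by omega) one_pos) (lr7_up (lr7_two M) le_rfl (by omega))
    have b2 : M ≤ Q (1 + 2) (Δ + M) := lr7_le (by omega) (by omega)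
    have := Q_add b1 b2
    rwa [show Δ * (4 * M + 2) = 2 * Δ * (2 * M + 1) by ring] at this
  have a3 : Q 30 Δ * Q k1 Δ * Q k2 (2 * Δ + 2 * M) ≤ Q (30 + k1 + (2 + 2) * k2) (Δ + M) :=
    Q_mul_le (Q_mul_le (Q_mono le_rfl (by omega)) (Q_mono le_rfl (by omega))) (Q_Q a1)
  have a4 := Q_mul_le a3 (Q_Q (k := k3) a2)
  -- bounds in terms of `Δ + H + M`
  have c0 : H ≤ Q 1 (Δ + H + M) := lr7_le (by omega) one_pos
  have c1 : H * Q 30 Δ ≤ Q 31 (Δ + H + M) := Q_mul_le c0 (Q_mono le_rfl (by omega))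
  have c2 : Δ + H * Q 30 Δ ≤ Q 32 (Δ + H + M) := Q_add (lr7_le (by omega) (by omega)) c1
  have c3 : H * Q 30 Δ * Q k1 Δ ≤ Q (31 + k1) (Δ + H + M) :=
    Q_mul_le c1 (Q_mono le_rfl (by omega))
  have c4 : 2 * Δ + H * Q 30 Δ * Q k1 Δ + 2 * M ≤ Q (31 + k1 + 1) (Δ + H + M) := by
    have := Q_add c3 (lr7_up a1 (by omega) (by omega))
    omega
  have c5 : H * Q 30 Δ * Q k1 Δ * Q k2 (2 * Δ + 2 * M) ≤
      Q (1 + (30 + k1 + (2 + 2) * k2)) (Δ + H + M) := by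
    have := Q_mul_le c0 (lr7_up a3 le_rfl (show Δ + M ≤ Δ + H + M by omega))
    rwa [← mul_assoc, ← mul_assoc] at this
  have c6 : 2 * Δ * (2 * M + 1) + H * Q 30 Δ * Q k1 Δ * Q k2 (2 * Δ + 2 * M) + M ≤
      Q (1 + (30 + k1 + (2 + 2) * k2) + 1) (Δ + H + M) := by
    have := Q_add c5 (lr7_up a2 (by omega) (by omega))
    omega
  refine ⟨S4, L', ?_, p3.mono ?_ ?_ (by omega) le_rfl le_rfl⟩
  · have u0 := t0.mono (Q_mono (k' := kA) (n' := Δ + H + M) le_rfl (by omega))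
    have u := ((u0.transQ (t1.mono (Q_Q c2))).transQ (t2.mono (Q_Q c4))).transQ
      (t3.mono (Q_Q c6))
    exact u.mono (Q_mono (by omega) le_rfl)
  · rw [show 2 * Δ * (2 * M + 1) * Q k3 M = Δ * ((4 * M + 2) * Q k3 M) by ring]
    exact Nat.mul_le_mul_left _ (lr7_up (Q_mul_le (lr7_two M) le_rfl) (by omega) le_rfl)
  · rw [mul_assoc H, mul_assoc H, mul_assoc H]
    exact Nat.mul_le_mul_left _ (lr7_up a4 (by omega) le_rfl)

/-- The wealth of light cells after `t` rounds. -/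
def lr7g (μ t : ℕ) : ℕ := (fun x => x + x / 88)^[t] μ

theorem lr7g_succ (μ t : ℕ) : lr7g μ (t + 1) = lr7g μ t + lr7g μ t / 88 := by
  unfold lr7g; rw [iterate_succ_apply']

theorem lr7g_lin (μ t k : ℕ) : lr7g μ t + k * (lr7g μ t / 88) ≤ lr7g μ (t + k) := by
  induction k with
  | zero => simp
  | succ k ih =>
    rw [← add_assoc, lr7g_succ]
    have : lr7g μ t / 88 ≤ lr7g μ (t + k) / 88 := Nat.div_le_div_right (by omega)
    rw [add_mul]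
    omega

theorem lr7g_ge (μ t : ℕ) : μ ≤ lr7g μ t := by
  have := lr7g_lin μ 0 t
  rw [zero_add, show lr7g μ 0 = μ from rfl] at this
  omega

theorem lr7g_pow {μ : ℕ} (h : 88 ≤ μ) (j : ℕ) : μ * 2 ^ j ≤ lr7g μ (176 * j) := by
  induction j with
  | zero => simp [lr7g]
  | succ j ih =>
    have h1 := lr7g_lin μ (176 * j) 176
    have h2 := lr7g_ge μ (176 * j)
    rw [show 176 * (j + 1) = 176 * j + 176 by ring, pow_succ, ← mul_assoc]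
    omega

theorem lr7_iter : ∃ b c : ℕ, ∀ (T : ℕ) (Tok : Type) [Finite Tok] (S : TS Tok) (L : Set S.G.D)
    (n μ W : ℕ), Inv S L n n μ (W * 8 ^ T) T → 88 ≤ μ → 0 < W → W * 8 ^ T ≤ n →
    ∀ t r, t + r = T → ∃ (S' : TS Tok) (L' : Set S'.G.D) (Δ : ℕ), Δ ≤ Q (b * (t + 1)) n ∧
      TEq (Q (c * (t + 1) ^ 3) n) S S' ∧
      Inv S' L' Δ (Q (b * (t + 1) ^ 2) n) (lr7g μ t) (W * 8 ^ r) r := by
  obtain ⟨k, hk⟩ := round
  obtain ⟨a, ha⟩ : ∃ a, a = k + 1 := ⟨_, rfl⟩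
  suffices H : ∀ (T : ℕ) (Tok : Type) [Finite Tok] (S : TS Tok) (L : Set S.G.D)
      (n μ W : ℕ), Inv S L n n μ (W * 8 ^ T) T → 88 ≤ μ → 0 < W → W * 8 ^ T ≤ n →
      ∀ t r, t + r = T → ∃ (S' : TS Tok) (L' : Set S'.G.D),
        TEq (Q ((a * a + 4 * a + 4) * a * (t + 1) ^ 3) n) S S' ∧
        Inv S' L' (Q (a * (t + 1)) n) (Q ((a * a + 4 * a) * (t + 1) ^ 2) n) (lr7g μ t)
          (W * 8 ^ r) r by
    refine ⟨a * a + 4 * a, (a * a + 4 * a + 4) * a, fun T Tok _ S L n μ W h hμ hW hn t r e => ?_⟩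
    obtain ⟨S', L', t1, p1⟩ := H T Tok S L n μ W h hμ hW hn t r e
    exact ⟨S', L', _, Q_mono (Nat.mul_le_mul_right _ (by omega)) le_rfl, t1, p1⟩
  intro T Tok _ S L n μ W h hμ hW hn t
  have a0 : 0 < a := by omega
  induction t with
  | zero =>
    intro r e
    obtain rfl : r = T := by omega
    refine ⟨S, L, (TEq.refl S S.tag).mono (Q_pos _ _), h.mono (lr7_le le_rfl (by positivity))
      (lr7_le le_rfl (by positivity)) le_rfl le_rfl le_rfl⟩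
  | succ t ih =>
    intro r e
    obtain ⟨S1, L1, t1, p1⟩ := ih (r + 1) (by omega)
    rw [show W * 8 ^ (r + 1) = 8 * (W * 8 ^ r) by ring] at p1
    obtain ⟨S2, L2, t2, p2⟩ := hk Tok S1 L1 _ _ _ _ r p1 (hμ.trans (lr7g_ge μ t)) (by positivity)
    have hM : W * 8 ^ r ≤ n :=
      (Nat.mul_le_mul_left W (Nat.pow_le_pow_right (by omega) (by omega))).trans hn
    obtain ⟨s, hs⟩ : ∃ s, s = t + 1 := ⟨_, rfl⟩
    have s0 : 0 < s := by omega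
    rw [← hs] at t1 t2 p2 ⊢
    have s2 : s ≤ s ^ 2 := by nlinarith
    have d1 : Q (a * s) n + W * 8 ^ r ≤ Q (a * s + 1) n :=
      Q_add le_rfl (lr7_le hM (by positivity))
    have e1 : a * s ≤ (a * a + 4 * a) * s ^ 2 := Nat.mul_le_mul (by omega) s2
    have d2 : Q (a * s) n + Q ((a * a + 4 * a) * s ^ 2) n + W * 8 ^ r ≤
        Q ((a * a + 4 * a) * s ^ 2 + 1 + 1) n :=
      Q_add (Q_add (Q_mono e1 le_rfl) le_rfl) (lr7_le hM (by omega))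
    have hka : k ≤ a := by omega
    refine ⟨S2, L2, (t1.transQ (t2.mono (Q_Q d2))).mono (Q_mono ?_ le_rfl),
      p2.mono ?_ ?_ ?_ le_rfl le_rfl⟩
    · have f1 : ((a * a + 4 * a) * s ^ 2 + 1 + 1 + 2) * k ≤ (a * a + 4 * a + 4) * s ^ 2 * a :=
        Nat.mul_le_mul (by nlinarith) hka
      have f2 : s ^ 3 + s ^ 2 ≤ (s + 1) ^ 3 := by nlinarith
      have f3 := Nat.mul_le_mul_left ((a * a + 4 * a + 4) * a) f2
      nlinarith
    · exact lr7_up (Q_mul_le le_rfl (Q_mono hka hM)) (by rw [mul_add, mul_one]) le_rfl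
    · refine lr7_up (Q_mul_le le_rfl (Q_Q d1)) ?_ le_rfl
      have f1 : (a * s + 1 + 2) * k ≤ (a * s + 3) * a := Nat.mul_le_mul (by omega) hka
      nlinarith
    · rw [hs, lr7g_succ]

/-- `176 * j` rounds multiply the wealth of light cells by `2 ^ j`. -/
theorem rounds : ∃ κ : ℕ, ∀ (j : ℕ) (Tok : Type) [Finite Tok] (S : TS Tok) (L : Set S.G.D)
    (n μ W : ℕ), Inv S L n n μ (W * 8 ^ (176 * j)) (176 * j) → 88 ≤ μ → 0 < W →
    W * 8 ^ (176 * j) ≤ n → W ≤ μ * 2 ^ j →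
    ∃ S' : TS Tok, TEq (Q (κ * (j + 1) ^ 3) n) S S' ∧ S'.G.Sz (Q (κ * (j + 1) ^ 2) n) ∧
      Ft (Q (κ * (j + 1) ^ 2) n) S'.pos ∧ ∀ c : Fin 5, c ≠ 4 → ∀ d, W ≤ S'.W c d := by
  obtain ⟨b, c, H⟩ := lr7_iter
  refine ⟨b * 176 ^ 2 + c * 176 ^ 3, fun j Tok _ S L n μ W h hμ hW hn hj => ?_⟩
  obtain ⟨S', L', Δ, hΔ, t1, p1⟩ := H _ Tok S L n μ W h hμ hW hn (176 * j) 0 rfl
  have g1 : 176 * j + 1 ≤ 176 * (j + 1) := by omega
  have g2 : b * (176 * j + 1) ^ 2 ≤ (b * 176 ^ 2 + c * 176 ^ 3) * (j + 1) ^ 2 := by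
    have := Nat.mul_le_mul_left b (Nat.pow_le_pow_left g1 2)
    rw [mul_pow, ← mul_assoc] at this
    exact this.trans (Nat.mul_le_mul_right _ (by omega))
  have g3 : c * (176 * j + 1) ^ 3 ≤ (b * 176 ^ 2 + c * 176 ^ 3) * (j + 1) ^ 3 := by
    have := Nat.mul_le_mul_left c (Nat.pow_le_pow_left g1 3)
    rw [mul_pow, ← mul_assoc] at this
    exact this.trans (Nat.mul_le_mul_right _ (by omega))
  have g4 : b * (176 * j + 1) ≤ b * (176 * j + 1) ^ 2 :=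
    Nat.mul_le_mul_left b (Nat.le_self_pow (by omega) _)
  rw [pow_zero, mul_one] at p1
  refine ⟨S', t1.mono (Q_mono g3 le_rfl), p1.sz.mono (lr7_up hΔ (g4.trans g2) le_rfl),
    p1.ft.mono (Q_mono g2 le_rfl), fun i hi d => ?_⟩
  fin_cases i
  · exact p1.h0 d
  · exact p1.h1 d
  · by_cases hd : d ∈ L'
    · exact (hj.trans (lr7g_pow hμ j)).trans (p1.light d hd)
    · exact p1.h2 d hd
  · exact p1.h3 d
  · exact absurd rfl hi

end Pool.Agent.MC.LL
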