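import Pool.Agent.P.MP_2677b3_gt.LZ8
import Pool.Agent.P.MP_2677b3_gt.LR1
import Pool.Agent.P.MP_2677b3_gt.LR7
import Pool.Agent.P.MP_2677b3_gt.LE10
import Pool.Agent.P.MP_2677b3_gt.LN0

open Equiv Function

noncomputable section

namespace Pool.Agent.MC.LL

def nT (κ0 l j : ℕ) : ℕ := 10 * (176 * j) * Q κ0 l
def nM (κ0 l j : ℕ) : ℕ := 114 * nT κ0 l j * 8 ^ (176 * j)
def n1 (κ0 l j : ℕ) : ℕ := Q κ0 (l + nT κ0 l j) + nM κ0 l j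
def n2 (κ0 κ1 l j : ℕ) : ℕ := Q (κ1 + 1) (n1 κ0 l j)
def nE (κ0 κ1 κ2 κ3 l j : ℕ) : ℕ :=
  Q κ0 l * (Q κ0 (l + nT κ0 l j) * Q κ1 (n1 κ0 l j) * Q (κ2 * (j + 1) ^ 3) (n2 κ0 κ1 l j)) *
    Q κ3 (Q (κ2 * (j + 1) ^ 2) (n2 κ0 κ1 l j))

theorem pb_nT (κ0 : ℕ) : PB 1 (nT κ0) :=
  ((PB.const 1 10).mul ((PB.const 1 176).mul PB.snd)).mul (PB.fst.Qc κ0)
theorem pb_nM (κ0 : ℕ) : PB 1 (nM κ0) := ((PB.const 1 114).mul (pb_nT κ0)).mul PB.eight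
theorem pb_n1 (κ0 : ℕ) : PB 1 (n1 κ0) := ((PB.fst.add (pb_nT κ0)).Qc κ0).add (pb_nM κ0)
theorem pb_n2 (κ0 κ1 : ℕ) : PB 1 (n2 κ0 κ1) := (pb_n1 κ0).Qc (κ1 + 1)
theorem pb_nE (κ0 κ1 κ2 κ3 : ℕ) : PB 4 (nE κ0 κ1 κ2 κ3) :=
  (((PB.fst.Qc κ0).up (by omega)).mul
    (((((PB.fst.add (pb_nT κ0)).Qc κ0).up (by omega)).mul
      (((pb_n1 κ0).Qc κ1).up (by omega))).mul ((pb_n2 κ0 κ1).Qp κ2 3))).mul
    ((((pb_n2 κ0 κ1).Qp κ2 2).Qc κ3).up (by omega))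

/-- The combinatorial theorem. -/
theorem comb (Δ K : ℕ) : ∃ κ l₀ : ℕ, ∀ (M : CMap) (l : ℕ), YM M Δ K → l₀ ≤ l →
    Nat.card M.D ≤ 2 ^ l → 2 ^ l ≤ 2 * Nat.card M.D →
    ∃ A : Act, Fw (2 ^ (κ * (Nat.log 2 l + 1) ^ 4)) M.gd A.gd := by
  obtain ⟨κ0, h0⟩ := step0 Δ K
  obtain ⟨κ1, h1⟩ := merge_three
  obtain ⟨κ2, h2⟩ := rounds
  obtain ⟨κ3, h3⟩ := endgame
  obtain ⟨cM, hM⟩ := pb_nM κ0
  obtain ⟨cE, hE⟩ := pb_nE κ0 κ1 κ2 κ3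
  obtain ⟨l₀, hl₀⟩ := log_small (cM * (2 * κ0 + 14) + 1)
  refine ⟨cE * (2 * κ0 + 14) ^ 4, l₀, fun M l hY hl hc hc' => ?_⟩
  have hs := hl₀ l hl
  have hlt : l < 2 ^ (Nat.log 2 l + 1) := Nat.lt_pow_succ_log_self (by omega) l
  have hlam : 0 < Nat.log 2 l + 1 := by omega
  generalize Nat.log 2 l + 1 = lam at hs hlt hlam ⊢
  obtain ⟨j, hj⟩ : ∃ j, j = 11 + (κ0 + 1) * (lam + 1) := ⟨_, rfl⟩
  have hj1 : j + 1 ≤ (2 * κ0 + 14) * lam := by rw [hj]; nlinarith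
  have hj0 : 11 ≤ j := by omega
  have hl2 : l + 2 ≤ 2 ^ (lam + 1) := by
    have : 1 ≤ 2 ^ lam := Nat.one_le_two_pow
    rw [pow_succ]; omega
  have hlj : l ≤ 2 ^ j := by
    refine (by omega : l ≤ 2 ^ (lam + 1)).trans (Nat.pow_le_pow_right (by omega) ?_)
    rw [hj]; nlinarith
  have hQ : 1140 * Q κ0 l ≤ 2 ^ j := by
    have e1 : Q κ0 l ≤ 2 ^ ((κ0 + 1) * (lam + 1)) := by
      refine (Nat.pow_le_pow_left hl2 _).trans ?_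
      rw [← pow_mul]
      exact Nat.pow_le_pow_right (by omega) (by nlinarith)
    rw [hj, pow_add]
    exact Nat.mul_le_mul (by norm_num) e1
  have hMc : nM κ0 l j ≤ Nat.card M.D := by
    have e1 := hM l j hlj
    have e2 : cM * (j + 1) ^ 1 + 1 ≤ l := by
      have : cM * (j + 1) ≤ cM * ((2 * κ0 + 14) * lam) := Nat.mul_le_mul_left _ hj1
      rw [pow_one]; nlinarith
    have e3 : 2 ^ (cM * (j + 1) ^ 1 + 1) ≤ 2 ^ l := Nat.pow_le_pow_right (by omega) e2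
    rw [pow_succ] at e3
    omega
  have hT : 0 < nT κ0 l j := by
    have := Q_pos κ0 l
    unfold nT; positivity
  have hM0 : 0 < nM κ0 l j := by unfold nM; positivity
  obtain ⟨H, _, G, a, S, f1, t1, hconn, hx2, hsz, hft, hpt, hcard⟩ :=
    h0 M l hY hc (176 * j) (nT κ0 l j) rfl
  have q1 : Q κ0 (l + nT κ0 l j) ≤ n1 κ0 l j := Nat.le_add_right _ _
  have q2 : Q κ0 l ≤ n1 κ0 l j := (Q_mono le_rfl (Nat.le_add_right _ _)).trans q1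
  have q3 : nM κ0 l j ≤ n1 κ0 l j := Nat.le_add_left _ _
  obtain ⟨S1, t2, i1⟩ := h1 _ S (n1 κ0 l j) (176 * j) (nM κ0 l j) hx2 hconn
    (fun c d => (hsz c d).trans q2) (fun d => (hft d).trans q1) (by omega) hM0 q3 hpt
    (hcard ▸ hMc)
  have q4 : Q κ1 (n1 κ0 l j) ≤ n2 κ0 κ1 l j := Q_mono (by omega) le_rfl
  have q5 : n1 κ0 l j ≤ n2 κ0 κ1 l j := by
    have := le_Q (k := κ1 + 1) (n1 κ0 l j) (by omega)
    unfold n2; omega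
  obtain ⟨S2, t3, hsz2, hft2, hW⟩ := h2 j _ S1 Set.univ (n2 κ0 κ1 l j) (176 * j)
    (114 * nT κ0 l j)
    ⟨fun c d => (i1.sz c d).trans q4, fun d => (i1.ft d).trans q4, i1.fix, i1.light, i1.h0, i1.h1,
      i1.h2, i1.h3, i1.res⟩ (by omega) (by omega) (q3.trans q5) (by
      have : 114 * nT κ0 l j = 176 * j * (1140 * Q κ0 l) := by unfold nT; ring
      rw [this]
      exact Nat.mul_le_mul_left _ hQ)
  obtain ⟨ι, A, hι, f2⟩ := h3 _ H S2 Prod.fst (nT κ0 l j) _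
    (fun x => ⟨(x, ⟨0, hT⟩), rfl⟩) hT (fun x => by
      have : {i : H × Fin (nT κ0 l j) | i.1 = x} = Set.range (fun k => (x, k)) := by
        ext ⟨y, k⟩
        simp [eq_comm]
      rw [this, Set.ncard_range_of_injective (fun _ _ h => (Prod.mk.inj h).2)]
      simp) hsz2 hft2 hW
  have hinj : Injective ι := (LeftInverse.injective (g := Prod.fst) hι)
  have t4 := ((t1.trans t2).trans t3) H ι hinj
  have ea : (a ∘ Prod.fst) ∘ ι = a := funext fun x => by simp [hι]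
  simp only [ea] at t4
  refine ⟨A, ((f1.trans t4.fw).trans f2).mono ((hE l j hlj).trans ?_)⟩
  refine Nat.pow_le_pow_right (by omega) ?_
  rw [mul_assoc, ← mul_pow]
  exact Nat.mul_le_mul_left _ (Nat.pow_le_pow_left hj1 _)

end Pool.Agent.MC.LL
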