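import Pool.Agent.P.MP_2677b3_gt.HdB
import Pool.Agent.P.MP_2677b3_gt.LN1

/-! The combinatorial theorem for maps with a handle near every dart. -/

open Equiv Function

noncomputable section

namespace Pool.Agent.MC.LL

/-- Every point gets `μ` tokens of every tag. -/
theorem hdc_spread : ∃ κ : ℕ, ∀ (G : P4) (H : Type) [Finite H] (a : H → G.D) (n N m : ℕ),
    (∀ d, G.x0 (G.x0 d) = d) → G.x2 = 1 → G.Sz n → n + 2 ≤ m → (2 * n) ^ (2 * N + 1) ≤ m →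
    (∀ i j, G.x1.SameCycle (a i) (a j) → i = j) →
    (∀ d, ∃ i v, G.x1.SameCycle v (a i) ∧ Nr (b2 G.x0 G.x1) N v d) →
    ∀ μ T : ℕ, 10 * μ * m ≤ T →
      ∃ S : TS (H × Fin T), TEq (Q κ (m + T)) ⟨G, a ∘ Prod.fst, fun _ => 0⟩ S ∧ S.G.x2 = 1 ∧
        S.G.Sz m ∧ Ft (Q κ (m + T)) S.pos ∧ (∀ c d, μ ≤ S.Pt c d) ∧
        Nat.card S.G.D = Nat.card G.D := by
  classical
  refine ⟨kA + kA + 31, fun G H _ a n N m h0 h2 hs hn hm ha hN μ T hT => ?_⟩
  obtain ⟨P, U, rk, top, -, c1, c2, c3, c4, c5, -, c7⟩ :=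
    hdb_forest h0 {d | ∃ i, G.x1.SameCycle d (a i)}
      (fun d => exists_congr fun i => Perm.sameCycle_apply_left) N
  have hP : ∀ d, d ∈ P := fun d => by
    obtain ⟨i, v, h1, h3⟩ := hN d
    exact c7 v ⟨i, h1⟩ d h3
  have hcl : ∀ v, {e | top e = v}.ncard ≤ m := fun v => by
    have h1 := Nr.card (x := b2 G.x0 G.x1) (n := n)
      (fun i d => by cases i; exacts [hs 0 d, hs 1 d]) (2 * N + 1) v
    rw [Fintype.card_bool] at h1
    refine le_trans (Set.ncard_le_ncard fun e he => ?_) (h1.trans hm)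
    have := (c5 e (hP e)).2.2.2.1
    rwa [show top e = v from he] at this
  obtain ⟨p, hp⟩ : ∃ p : H × Fin T → G.D, p = a ∘ Prod.fst := ⟨_, rfl⟩
  have hf : Ft T p := lz7_ft (lz7_fst H T) fun τ τ' e => ha _ _ (by
    rw [hp] at e
    rw [show a τ.1 = a τ'.1 from e])
  have hown : ∀ v, {x : Fin 5 × G.D × Fin μ | top x.2.1 = v}.ncard ≤
      {τ | top (p τ) = v}.ncard := fun v => by
    rw [lz7_dem]
    rcases Set.eq_empty_or_nonempty {d | top d = v} with e | ⟨d, rfl⟩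
    · simp [e]
    refine le_trans (b := T) (le_trans (Nat.mul_le_mul_left 5 (Nat.mul_le_mul_right μ (hcl _)))
      (by nlinarith)) ?_
    obtain ⟨-, ⟨i, h⟩, c6, -⟩ := c5 d (hP d)
    refine lz7_card (fun k => (i, k)) (fun k k' e => congrArg Prod.snd e) fun k => ?_
    change top (p _) = _
    rw [hp, ← c6]
    exact (sc_lab top c2 h).symm
  obtain ⟨ι, hι, hι'⟩ := pay (fun x : Fin 5 × G.D × Fin μ => top x.2.1) (fun τ => top (p τ)) hown
  obtain ⟨t1, t2⟩ := sw_rs h0 G.x1 U rk c1 (fun u hu => (c3 u hu).2.2.1) c4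
  have hone : ∀ d, (G.x1 * rs G.x0 h0 U).SameCycle d (top d) := fun d => by
    induction hr : rk d using Nat.strong_induction_on generalizing d with
    | _ r ih =>
      rcases (c5 d (hP d)).2.2.2.2 with h | ⟨u, hu, h⟩
      · exact t2.right h
      · have k := ih _ (by rw [← hr, sc_lab rk c1 h]; exact (c3 u hu).2.2.1) (G.x0 u) rfl
        rw [(c3 u hu).2.2.2, ← sc_lab top c2 h] at k
        exact ((t2.right h).trans (sc_rs t2 (Or.inl hu))).trans k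
  have hs' : (G.sw (rs G.x0 h0 U)).Sz m := P4.sz_iff.2
    ⟨fun d => (sz_invol (Equiv.ext (rs_left_invol h0 U)) d).trans (by omega),
      fun d => (sz_le_lab top (lab_rs h0 top c2 fun u hu => (c3 u hu).2.2.2) d).trans (hcl _),
      fun d => (hs 2 d).trans (by omega), fun d => (hs 3 d).trans (by omega)⟩
  have hf' : Ft (m + T) p := hf.mono (by omega)
  have hnr : ∀ τ, Nr (G.sw (rs G.x0 h0 U)).y 10 (p τ) (extend ι (fun x => x.2.1) p τ) := fun τ => by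
    by_cases h : ∃ x, ι x = τ
    · obtain ⟨x, rfl⟩ := h
      rw [hι.extend_apply]
      refine (P4.nr1 (G := G.sw (rs G.x0 h0 U)) ((hone _).trans ?_)).mono (by omega)
      rw [hι' x]
      exact (hone _).symm
    · rw [extend_apply' _ _ _ h]
      exact Nr.refl _ _
  have hq : m ≤ m + T := by omega
  have e2 := teq_of (S := ⟨G, p, fun _ => 0⟩) (G' := G.sw (rs G.x0 h0 U)) id (fun _ => 0) hf'
    fun I _ b hb => api_sw (rs G.x0 h0 U) t1 t2 (hs.mono (by omega)) (hs'.mono hq) hb hb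
  have e3 := teq_mov ⟨G.sw (rs G.x0 h0 U), p, fun _ => 0⟩ (hs'.mono hq) hf' _
    (extend ι (fun x => x.1) fun _ => 0) hnr
  subst hp
  refine ⟨_, (e2.transQ e3).mono (Q_mono (by omega) le_rfl), h2, hs',
    (ft_mov hnr (hs'.mono hq) hf).mono ?_, fun c d => ?_, rfl⟩
  · have h1 : T ≤ Q 1 (m + T) := by have := le_Q (k := 1) (m + T) one_pos; omega
    exact (Q_mul_le h1 le_rfl).trans (Q_mono (by omega) le_rfl)
  · refine lz7_card (fun k => ι (c, d, k)) (fun k k' e => ?_) fun k =>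
      ⟨hι.extend_apply (fun x => x.1) (fun _ => 0) (c, d, k),
        hι.extend_apply (fun x => x.2.1) _ (c, d, k)⟩
    exact congrArg (fun x : Fin 5 × G.D × Fin μ => x.2.2) (hι e)

/-- Every dart is within `ρ` hops of a handle of size at most `R`. -/
def HD (M : CMap) (R ρ : ℕ) : Prop :=
  ∀ o, ∃ H : Hdl M.α M.φ M.αα R, ∀ d ∈ H.B, Nr (b2 M.α M.φ) ρ o d

theorem hdc_step0 (Δ K R ρ : ℕ) : ∃ κ l : ℕ, ∀ M : CMap, YM M Δ K → HD M R ρ →
    ∀ μ T : ℕ, T = 10 * μ * Q κ l →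
      ∃ (H : Type) (_ : Finite H) (G : P4) (a : H → G.D) (S : TS (H × Fin T)),
        Fw (Q κ l) M.gd (G.gd a a) ∧ TEq (Q κ (l + T)) ⟨G, a ∘ Prod.fst, fun _ => 0⟩ S ∧
        S.G.Conn ∧ S.G.x2 = 1 ∧ S.G.Sz (Q κ l) ∧ Ft (Q κ (l + T)) S.pos ∧
        (∀ c d, μ ≤ S.Pt c d) ∧ Nat.card S.G.D = Nat.card M.D := by
  obtain ⟨κ1, h1⟩ := start
  obtain ⟨κ2, h2⟩ := extract
  obtain ⟨κ3, h3⟩ := hdc_spread
  obtain ⟨n, hn⟩ : ∃ n, n = Δ + R + 3 := ⟨_, rfl⟩
  obtain ⟨l, hl⟩ : ∃ l, l = (2 * n) ^ (2 * ρ + 1) + n + 2 := ⟨_, rfl⟩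
  refine ⟨κ1 + κ2 + κ3 + 1, l, fun M hM hD μ T hT => ?_⟩
  have q1 : l ≤ Q (κ1 + κ2 + κ3 + 1) l := (Nat.le_add_right l 2).trans (le_Q l (by omega))
  have q2 : Q κ3 (l + T) ≤ Q (κ1 + κ2 + κ3 + 1) (l + T) := Q_mono (by omega) le_rfl
  have q0 : n + 2 ≤ l := by rw [hl]; omega
  have q3 : Q κ1 Δ * Q κ2 (Δ + R) ≤ Q (κ1 + κ2 + κ3 + 1) l :=
    (Q_mul_le (Q_mono (n' := l) le_rfl (by omega)) (Q_mono (n' := l) le_rfl (by omega))).trans
      (Q_mono (by omega) le_rfl)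
  obtain ⟨X, -, x1, x2, x3⟩ := maxfam (ι := Hdl M.α M.φ M.αα R) (fun H => H.B)
    Set.univ (fun H _ => ⟨H.a, H.ha.1⟩)
  have : Finite X := x1
  have dj : ∀ i j : X, i ≠ j → Disjoint i.1.B j.1.B := fun i j hij =>
    x2 _ i.2 _ j.2 fun h' => hij (Subtype.ext h')
  obtain ⟨α', φ', rel, e1, e2, e3, e4⟩ := h2 M Δ K _ hM X Subtype.val dj
  have iS : ∀ d, (∀ i : X, M.φ d ∉ i.1.B) ↔ ∀ i : X, d ∉ i.1.B := fun d =>
    forall_congr' fun i => not_congr (i.1.tr.inv d)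
  have sc : ∀ d, (∀ i : X, d ∉ i.1.B) → ∀ e, M.φ.SameCycle d e ↔ φ'.SameCycle d e :=
    fun d hd e => sc_congr {d | ∀ i : X, d ∉ i.1.B} iS (fun x hx => (e3 x hx).2.symm) hd e
  have hsz : (⟨M.D, inferInstance, α', φ', 1, M.ψ⁻¹, rel⟩ : P4).Sz n := by
    refine P4.sz_iff.2 ⟨fun d => ?_, fun d => ?_, fun d => ?_, fun d => ?_⟩
    · exact (sz_invol (Equiv.ext e2) d).trans (by omega)
    · by_cases hd : ∀ i : X, d ∉ i.1.B
      · have h4 : sz φ' d = sz M.φ d := by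
          unfold sz
          congr 1
          ext e
          exact (sc d hd e).symm
        exact h4.le.trans ((hM.deg d).trans (by omega))
      · push Not at hd
        obtain ⟨i, hi⟩ := hd
        have h4 : sz φ' d = i.1.B.ncard := by
          unfold sz
          congr 1
          ext e
          exact e4 i d hi e
        exact h4.le.trans (i.1.card.trans (by omega))
    · exact (sz_fix (σ := 1) rfl).le.trans (by omega)
    · exact ((P4.sz_iff.1 (mp4_sz hM)).2.2.2 d).trans (by omega)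
  have near : ∀ (m : ℕ) (v d : M.D), (∃ i : X, v ∈ i.1.B) → Nr (b2 M.α M.φ) m v d →
      ∃ (i : X) (w : M.D), φ'.SameCycle w i.1.a ∧ Nr (b2 α' φ') m w d := fun m v => by
    induction m with
    | zero => exact fun d ⟨i, hi⟩ hd => ⟨i, v, (e4 i v hi _).2 i.1.ha.1, hd⟩
    | succ m ih =>
      rintro d hv ⟨u, b, k1, k2⟩
      by_cases hd : ∀ i : X, d ∉ i.1.B
      · obtain ⟨i, w, k3, k4⟩ := ih u hv k1
        refine ⟨i, w, k3, ?_⟩
        cases b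
        · rcases hdb_inv M.αα (Perm.SameCycle.symm k2) with rfl | rfl
          · exact k4.mono (by omega)
          · have := hdb_a k4
            rwa [← (e3 d hd).1, e2] at this
        · exact hdb_f k4 ((sc d hd u).1 (Perm.SameCycle.symm k2)).symm
      · push Not at hd
        obtain ⟨i, hi⟩ := hd
        exact ⟨i, d, (e4 i d hi _).2 i.1.ha.1, Nr.refl _ _⟩
  obtain ⟨S, s1, s2, s3, s4, s5, s6⟩ := h3 ⟨M.D, inferInstance, α', φ', 1, M.ψ⁻¹, rel⟩ X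
    (fun i => i.1.a) n ρ l e2 rfl hsz q0 (by rw [hl]; omega)
    (fun i j hs => by
      by_contra hij
      exact Set.disjoint_left.1 (dj i j hij) ((e4 i _ i.1.ha.1 _).1 hs) j.1.ha.1)
    (fun o => by
      obtain ⟨H, hH⟩ := hD o
      obtain ⟨j, hj, d, d1, d2⟩ := x3 H trivial
      exact near ρ d o ⟨⟨j, hj⟩, d2⟩ (hH d d1).symm)
    μ T (hT ▸ Nat.mul_le_mul_left _ q1)
  exact ⟨X, this, _, _, S, ((h1 M Δ K hM).trans e1.fw).mono q3, s1.mono q2,
    s1.conn (conn_of_qe e1 (mp4_conn hM)), s2, s3.mono q1, s4.mono q2, s5, s6⟩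

theorem hdc_comb (Δ K R ρ : ℕ) : ∃ E N : ℕ, 0 < E ∧ ∀ M : CMap, YM M Δ K → HD M R ρ →
    N ≤ Nat.card M.D → ∃ A : Act, Fw E M.gd A.gd := by
  obtain ⟨κ0, l, h0⟩ := hdc_step0 Δ K R ρ
  obtain ⟨κ1, h1⟩ := merge_three
  obtain ⟨κ2, h2⟩ := rounds
  obtain ⟨κ3, h3⟩ := endgame
  obtain ⟨j, hj⟩ : ∃ j, j = 11 + 1140 * Q κ0 l := ⟨_, rfl⟩
  refine ⟨nE κ0 κ1 κ2 κ3 l j + 1, nM κ0 l j, by omega, fun M hY hD hMc => ?_⟩
  have hj0 : 11 ≤ j := by omega
  have hQ : 1140 * Q κ0 l ≤ 2 ^ j := by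
    have : j < 2 ^ j := Nat.lt_two_pow_self
    omega
  have hT : 0 < nT κ0 l j := by
    have := Q_pos κ0 l
    unfold nT; positivity
  have hM0 : 0 < nM κ0 l j := by unfold nM; positivity
  obtain ⟨H, _, G, a, S, f1, t1, hconn, hx2, hsz, hft, hpt, hcard⟩ :=
    h0 M hY hD (176 * j) (nT κ0 l j) rfl
  have q1 : Q κ0 (l + nT κ0 l j) ≤ n1 κ0 l j := Nat.le_add_right _ _
  have q2 : Q κ0 l ≤ n1 κ0 l j := (Q_mono le_rfl (Nat.le_add_right _ _)).trans q1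
  have q3 : nM κ0 l j ≤ n1 κ0 l j := Nat.le_add_left _ _
  obtain ⟨S1, t2, i1⟩ := h1 _ S (n1 κ0 l j) (176 * j) (nM κ0 l j) hx2 hconn
    (fun c d => (hsz c d).trans q2) (fun d => (hft d).trans q1) (by omega) hM0 q3 hpt
    (hcard ▸ hMc)
  have q4 : Q κ1 (n1 κ0 l j) ≤ n2 κ0 κ1 l j := Q_mono (by omega) le_rfl
  have q5 : n1 κ0 l j ≤ n2 κ0 κ1 l j := by
    have := le_Q (k := κ1 + 1) (n1 κ0 l j) (by omega)
    unfold n2; omega
  obtain ⟨S2, t3, hsz2, hft2, hW⟩ := h2 j _ S1 Set.univ (n2 κ0 κ1 l j) (176 * j)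
    (114 * nT κ0 l j)
    ⟨fun c d => (i1.sz c d).trans q4, fun d => (i1.ft d).trans q4, i1.fix, i1.light, i1.h0, i1.h1,
      i1.h2, i1.h3, i1.res⟩ (by omega) (by omega) (q3.trans q5) (by
      have : 114 * nT κ0 l j = 176 * j * (1140 * Q κ0 l) := by unfold nT; ring
      rw [this]
      exact Nat.mul_le_mul_left _ hQ)
  obtain ⟨ι, A, hι, f2⟩ := h3 _ H S2 Prod.fst (nT κ0 l j) _
    (fun x => ⟨(x, ⟨0, hT⟩), rfl⟩) hT (fun x => by
      have : {i : H × Fin (nT κ0 l j) | i.1 = x} = Set.range (fun k => (x, k)) := by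
        ext ⟨y, k⟩
        simp [eq_comm]
      rw [this, Set.ncard_range_of_injective (fun _ _ h => (Prod.mk.inj h).2)]
      simp) hsz2 hft2 hW
  have hinj : Injective ι := (LeftInverse.injective (g := Prod.fst) hι)
  have t4 := ((t1.trans t2).trans t3) H ι hinj
  have ea : (a ∘ Prod.fst) ∘ ι = a := funext fun x => by simp [hι]
  simp only [ea] at t4
  exact ⟨A, ((f1.trans t4.fw).trans f2).mono (Nat.le_succ _)⟩

end Pool.Agent.MC.LL
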