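import Pool.Agent.P.MP_2677b3_gt.LDefs

/-! Handles of bounded size on a quotient of the upper half-plane. -/

open UpperHalfPlane Topology

namespace Pool.Agent.MC

/-- The ball of radius `R` about the image of `z` in `ℍ / G` carries a handle: a cohomology class
mod two that is supported in the closed ball is non-zero on a loop of length at most `R` at `z`.
The class is `g ↦ χ (g w) - χ w`, and `χ` is locally constant outside the preimage of the ball. -/
def HandleAt (G : Subgroup (Equiv.Perm ℍ)) (R : ℝ) (z : ℍ) : Prop :=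
  ∃ χ : ℍ → ZMod 2, (∀ g ∈ G, ∃ b, ∀ w, χ (g w) = χ w + b) ∧
    (∀ w, (∀ g ∈ G, R < dist w (g z)) → ∀ᶠ w' in 𝓝 w, χ w' = χ w) ∧
    ∃ h ∈ G, dist z (h z) ≤ R ∧ χ (h z) ≠ χ z

end Pool.Agent.MC
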