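import Pool.Agent.P.MP_2677b3_gt.LT1

open Equiv Function

noncomputable section

namespace Pool.Agent.MC.LL

variable {D E : Type} [Finite D] [Finite E]

theorem lt5_cyc {X Λ : Type} [Finite X] (l : X → Λ) :
    ∃ σ : Perm X, ∀ u v, σ.SameCycle u v ↔ l u = l v := by
  have h : ∀ a : Λ, ∃ f : Perm X, f.IsCycleOn {u | l u = a} := fun a => by
    obtain ⟨f, hf, -⟩ := (Set.to_countable {u | l u = a}).exists_cycleOn
    exact ⟨f, hf⟩
  choose c hc using h
  have h1 : ∀ u, l (c (l u) u) = l u := fun u => (hc (l u)).1.mapsTo (show l u = l u from rfl)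
  have h2 : Injective fun u => c (l u) u := by
    intro u v huv
    have e : l u = l v := by
      rw [← h1 u, ← h1 v]; exact congrArg l huv
    simp only [e] at huv
    exact (c (l v)).injective huv
  let σ : Perm X := Equiv.ofBijective _ (Finite.injective_iff_bijective.1 h2)
  have h3 : ∀ u, σ u = c (l u) u := fun _ => rfl
  refine ⟨σ, fun u v => ⟨sc_lab l (fun e => by rw [h3, h1]), fun e => ?_⟩⟩
  have h4 : ∀ n : ℕ, (σ ^ n) u = (c (l u) ^ n) u ∧ l ((σ ^ n) u) = l u := by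
    intro n
    induction n with
    | zero => simp
    | succ n ih =>
      rw [pow_succ', pow_succ', Perm.mul_apply, Perm.mul_apply, h3, h1, ih.2, ← ih.1]
      exact ⟨rfl, rfl⟩
  obtain ⟨n, hn⟩ := ((hc (l u)).2 (show l u = l u from rfl) e.symm).exists_nat_pow_eq
  exact ⟨n, by rw [zpow_natCast, (h4 n).1, hn]⟩

theorem exists_ear (cn : E → D) : ∃ ω : Perm (D ⊕ E), IsEar ω cn := by
  obtain ⟨σ, h⟩ := lt5_cyc (Sum.elim id cn : D ⊕ E → D)
  exact ⟨σ, fun e => (h _ _).2 rfl, fun d d' hd => (h _ _).1 hd⟩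

variable {ω : Perm (D ⊕ E)} {cn : E → D}

omit [Finite D] [Finite E] in
theorem lt5_base (h : IsEar ω cn) (u : D ⊕ E) : ω.SameCycle u (.inl (Sum.elim id cn u)) := by
  rcases u with d | e
  · exact Perm.SameCycle.refl _ _
  · exact h.1 e

theorem IsEar.sc (h : IsEar ω cn) (u v : D ⊕ E) :
    ω.SameCycle u v ↔ Sum.elim id cn u = Sum.elim id cn v :=
  ⟨fun hs => h.2 _ _ (((lt5_base h u).symm.trans hs).trans (lt5_base h v)),
    fun e => (lt5_base h u).trans (e ▸ (lt5_base h v).symm)⟩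

theorem lt5_step (h : IsEar ω cn) (u : D ⊕ E) : Sum.elim id cn (ω u) = Sum.elim id cn u :=
  ((h.sc u (ω u)).1 (Perm.sameCycle_apply_right.2 (Perm.SameCycle.refl _ _))).symm

theorem IsEar.off (h : IsEar ω cn) {d : D} (hd : d ∉ Set.range cn) : ω (.inl d) = .inl d := by
  have h1 := lt5_step h (.inl d)
  rcases hu : ω (.inl d) with d' | e
  · rw [hu] at h1; exact congrArg Sum.inl h1
  · rw [hu] at h1; exact absurd ⟨e, h1⟩ hd

theorem IsEar.inj (h : IsEar ω cn) (hc : Injective cn) (e : E) :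
    ω (.inl (cn e)) = .inr e ∧ ω (.inr e) = .inl (cn e) := by
  constructor
  · have h1 := lt5_step h (.inl (cn e))
    rcases hu : ω (.inl (cn e)) with d' | e'
    · rw [hu] at h1
      have h2 : ω (.inl (cn e)) = .inl (cn e) := hu.trans (congrArg Sum.inl h1)
      exact absurd ((h.1 e).eq_of_right h2) (by simp)
    · rw [hu] at h1; exact congrArg Sum.inr (hc h1)
  · have h1 := lt5_step h (.inr e)
    rcases hu : ω (.inr e) with d' | e'
    · rw [hu] at h1; exact congrArg Sum.inl h1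
    · rw [hu] at h1
      have h2 : ω (.inr e) = .inr e := hu.trans (congrArg Sum.inr (hc h1))
      exact absurd ((h.1 e).eq_of_left h2) (by simp)

omit [Finite D] [Finite E] in
theorem lt5_inv (h : IsEar ω cn) : IsEar ω⁻¹ cn :=
  ⟨fun e => Perm.sameCycle_inv.2 (h.1 e), fun d d' hd => h.2 d d' (Perm.sameCycle_inv.1 hd)⟩

theorem lt5_tree (h : IsEar ω cn) (x : Perm D) : Tree (xt E x) ω := by
  refine tree_rank _ _ (fun u => .inl (Sum.elim id cn u)) (Sum.elim (fun _ => 0) fun _ => 1)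
    (lt5_base h) (fun u => by rw [lt5_step h]) ?_ ?_ ?_
  · rintro (d | e) <;> simp
  · rintro (d | e) <;> simp
  · rintro (d | e) (d' | e') h1 h2 h3
    · simp at h1
    · simp at h1
    · simp at h2
    · have := ((sc_sum x (1 : Perm E)).2.1 e e').1 h3
      rw [Perm.sameCycle_one.1 this]

theorem lt5_xt (x : Perm D) (u : D ⊕ E) :
    Quotient.mk (Perm.SameCycle.setoid x) (Sum.elim id cn (xt E x u)) =
      Quotient.mk (Perm.SameCycle.setoid x) (Sum.elim id cn u) := by
  rcases u with d | e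
  · exact Quotient.sound (Perm.sameCycle_apply_left.2 (Perm.SameCycle.refl _ _))
  · rfl

theorem lt5_sz {σ : Perm (D ⊕ E)} {x : Perm D}
    (h : ∀ u v, σ.SameCycle u v ↔ x.SameCycle (Sum.elim id cn u) (Sum.elim id cn v)) (d : D) :
    sz σ (.inl d) = sz x d + {e | x.SameCycle (cn e) d}.ncard := by
  have h1 : {u | σ.SameCycle (.inl d) u} =
      Sum.inl '' {e | x.SameCycle d e} ∪ Sum.inr '' {e | x.SameCycle (cn e) d} := by
    ext u
    rcases u with d' | e
    · simp [h]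
    · simp [h, Perm.sameCycle_comm]
  unfold sz
  rw [h1, Set.ncard_union_eq, Set.ncard_image_of_injective _ Sum.inl_injective,
    Set.ncard_image_of_injective _ Sum.inr_injective]
  rw [Set.disjoint_left]
  rintro _ ⟨a, -, rfl⟩ ⟨b, -, hb⟩
  simp at hb

theorem IsEar.left (h : IsEar ω cn) (x : Perm D) : Tree (xt E x) ω ∧
    (∀ u v, (ω * xt E x).SameCycle u v ↔ x.SameCycle (Sum.elim id cn u) (Sum.elim id cn v)) ∧
    ∀ d, sz (ω * xt E x) (.inl d) = sz x d + {e | x.SameCycle (cn e) d}.ncard := by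
  have ht := lt5_tree h x
  have hs : ∀ u v, (ω * xt E x).SameCycle u v ↔
      x.SameCycle (Sum.elim id cn u) (Sum.elim id cn v) := fun u v =>
    ⟨fun hs => Quotient.exact (sc_lab
        (fun u => Quotient.mk (Perm.SameCycle.setoid x) (Sum.elim id cn u))
        (fun e => by rw [Perm.mul_apply, lt5_step h, lt5_xt]) hs),
      fun hs => ((ht.right (lt5_base h u)).trans
        (ht.left (((sc_sum x (1 : Perm E)).1 _ _).2 hs))).trans (ht.right (lt5_base h v)).symm⟩
  exact ⟨ht, hs, lt5_sz hs⟩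

theorem IsEar.right (h : IsEar ω cn) (x : Perm D) : Tree ω⁻¹ (xt E x) ∧
    (∀ u v, (xt E x * ω⁻¹).SameCycle u v ↔ x.SameCycle (Sum.elim id cn u) (Sum.elim id cn v)) ∧
    ∀ d, sz (xt E x * ω⁻¹) (.inl d) = sz x d + {e | x.SameCycle (cn e) d}.ncard := by
  have h' := lt5_inv h
  have ht := (lt5_tree h' x).symm
  have hs : ∀ u v, (xt E x * ω⁻¹).SameCycle u v ↔
      x.SameCycle (Sum.elim id cn u) (Sum.elim id cn v) := fun u v =>
    ⟨fun hs => Quotient.exact (sc_lab
        (fun u => Quotient.mk (Perm.SameCycle.setoid x) (Sum.elim id cn u))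
        (fun e => by rw [Perm.mul_apply, lt5_xt, lt5_step h']) hs),
      fun hs => ((ht.left (lt5_base h' u)).trans
        (ht.right (((sc_sum x (1 : Perm E)).1 _ _).2 hs))).trans (ht.left (lt5_base h' v)).symm⟩
  exact ⟨ht, hs, lt5_sz hs⟩

theorem sc_xt (x : Perm D) (u v : D ⊕ E) : (xt E x).SameCycle u v ↔
    u = v ∨ ∃ d d', u = .inl d ∧ v = .inl d' ∧ x.SameCycle d d' := by
  obtain ⟨h1, h2, h3, -⟩ := sc_sum x (1 : Perm E)
  constructor
  · intro hs
    rcases u with d | e <;> rcases v with d' | e'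
    · exact .inr ⟨d, d', rfl, rfl, (h1 _ _).1 hs⟩
    · exact absurd hs (h3 _ _)
    · exact absurd hs.symm (h3 _ _)
    · exact .inl (by rw [Perm.sameCycle_one.1 ((h2 _ _).1 hs)])
  · rintro (rfl | ⟨d, d', rfl, rfl, hs⟩)
    · exact Perm.SameCycle.refl _ _
    · exact (h1 _ _).2 hs

theorem lt5_fib {m : ℕ} (hc : Ft m cn) (x : Perm D) (d : D) :
    {e | x.SameCycle (cn e) d}.ncard ≤ sz x d * m := by
  classical
  unfold sz
  rw [Set.ncard_eq_toFinset_card _ (Set.toFinite _), Set.ncard_eq_toFinset_card _ (Set.toFinite _),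
    mul_comm]
  refine Finset.card_le_mul_card_image_of_maps_to (f := cn) (fun a ha => ?_) m fun b _ => ?_
  · simp only [Set.Finite.mem_toFinset, Set.mem_ofPred_eq] at ha ⊢
    exact ha.symm
  · refine le_trans ?_ (hc b)
    rw [← Set.ncard_coe_finset]
    exact Set.ncard_le_ncard fun a ha => (Finset.mem_filter.1 (Finset.mem_coe.1 ha)).2

theorem lt5_bd {σ : Perm (D ⊕ E)} {x : Perm D} {n m : ℕ} (hc : Ft m cn) (hx : ∀ d, sz x d ≤ n)
    (h : ∀ u v, σ.SameCycle u v ↔ x.SameCycle (Sum.elim id cn u) (Sum.elim id cn v))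
    (u : D ⊕ E) : sz σ u ≤ n * (m + 1) := by
  have h1 : σ.SameCycle u (.inl (Sum.elim id cn u)) := (h _ _).2 (Perm.SameCycle.refl _ _)
  rw [sz_congr h1, lt5_sz h, mul_add, mul_one, add_comm]
  exact add_le_add ((lt5_fib hc x _).trans (Nat.mul_le_mul_right _ (hx _))) (hx _)

theorem lt5_bx (cn : E → D) {x : Perm D} {n : ℕ} (m : ℕ) (hx : ∀ d, sz x d ≤ n) (u : D ⊕ E) :
    sz (xt E x) u ≤ n * (m + 1) := by
  obtain ⟨-, -, -, h4, h5⟩ := sc_sum x (1 : Perm E)
  refine le_trans ?_ (Nat.le_mul_of_pos_right n m.succ_pos)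
  rcases u with d | e
  · rw [h4]; exact hx d
  · rw [h5, sz_fix rfl]; exact (sz_pos x (cn e)).trans_le (hx _)

theorem ear_sz {G : P4} {ω : Perm (G.D ⊕ E)} {cn : E → G.D} (h : IsEar ω cn) {n m : ℕ}
    (hG : G.Sz n) (hc : Ft m cn) : (G.ear ω).Sz (n * (m + 1)) := by
  intro c u
  fin_cases c
  · exact lt5_bd hc (hG 0) (h.left G.x0).2.1 u
  · exact lt5_bd hc (hG 1) (h.right G.x1).2.1 u
  · exact lt5_bx cn m (hG 2) u
  · exact lt5_bx cn m (hG 3) u
  · have := lt5_bx cn m (hG 4) u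
    have e : xt E (G.y 4) = 1 := Perm.sumCongr_one
    rw [e] at this
    exact this

end Pool.Agent.MC.LL
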