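import Pool.Agent.P.MP_2677b3_gt.LPord
import Pool.Agent.P.MP_2677b3_gt.LT5

open Equiv Function

noncomputable section

namespace Pool.Agent.MC.LL

variable {D I : Type} [Finite D] [Finite I] {x x' : Fin 6 → Perm D}
  {rel : x 5 * x 4 * x 3 * x 2 * x 1 * x 0 = 1} {rel' : x' 5 * x' 4 * x' 3 * x' 2 * x' 1 * x' 0 = 1}
  {pos pos' : I × Bool → D} {n : ℕ}

/-- The state with new sheets whose lists of feet are copied. -/
abbrev lpear_B (A : St) {E : Type} [Finite E] (z : Fin 6 → Perm (A.D ⊕ E))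
    (relz : z 5 * z 4 * z 3 * z 2 * z 1 * z 0 = 1) : St where
  D := A.D ⊕ E
  fD := inferInstance
  x := z
  rel := relz
  I := A.I
  fI := A.fI
  pos := Sum.inl ∘ A.pos
  ft := Sum.elim A.ft fun _ => []
  nd := by
    rintro (d | e)
    exacts [A.nd d, List.nodup_nil]
  mem := by
    rintro (d | e) φ
    · simpa using A.mem d φ
    · simp

theorem lpear_pot1 {X Γ : Type} [Group Γ] (σ : Perm X) : Pot σ (fun _ => (1 : Γ)) :=
  ⟨fun _ => 1, fun _ => by simp⟩

theorem lpear_key {A : St} {E : Type} [Finite E] {z : Fin 6 → Perm (A.D ⊕ E)} {relz}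
    {cn : E → A.D} (hω : IsEar (z 0) cn) (h1 : z 1 = (z 0)⁻¹)
    (hx : ∀ i, i ≠ 0 → i ≠ 1 → z i = xt E (A.x i)) {Γ : Type} [Group Γ]
    {V : Vl (lpear_B A z relz) Γ} (hV : V.Ok) (u : A.D ⊕ E) :
    V.X 0 u * V.X 1 (z 0 u) = 1 := by
  have hf : ∀ i, i ≠ 0 → i ≠ 1 → ∀ e, z i (.inr e) = .inr e := fun i a b e => by
    rw [hx i a b]; rfl
  have hr : ∀ i, i ≠ 0 → i ≠ 1 → ∀ e, V.X i (.inr e) = 1 := fun i a b e =>
    (hV.pot i).fix (hf i a b e)
  have h10 : ∀ u, z 1 (z 0 u) = u := fun u => by rw [h1]; simp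
  have he : ∀ e, V.X 0 (.inr e) * V.X 1 (z 0 (.inr e)) = 1 := fun e => by
    have := hV.face (.inr e)
    simp only [h10, hf 2 (by decide) (by decide), hf 3 (by decide) (by decide),
      hf 4 (by decide) (by decide), hr 2 (by decide) (by decide), hr 3 (by decide) (by decide),
      hr 4 (by decide) (by decide), hr 5 (by decide) (by decide)] at this
    simpa using this
  rcases u with d | e
  · obtain ⟨p0, e0⟩ := hV.pot 0
    obtain ⟨p1, e1⟩ := hV.pot 1
    have hk : ∀ u, p0 (z 0 u) * (p1 (z 0 u))⁻¹ =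
        p0 u * (V.X 0 u * V.X 1 (z 0 u)) * (p1 u)⁻¹ := fun u => by
      have a := e1 (z 0 u)
      have b := e0 u
      simp only [h10] at a
      change p0 (z 0 u) = _ at b
      rw [a, b]; group
    have hw := walk (x := z 0) (R := fun a b => p0 a * (p1 a)⁻¹ = p0 b * (p1 b)⁻¹)
      ⟨fun _ => rfl, Eq.symm, Eq.trans⟩ (u := .inl d) (by
        rintro (d' | e) hs hne
        · exact absurd (congrArg Sum.inl (hω.2 _ _ hs).symm) hne
        · rw [hk, he, mul_one])
    rw [hk] at hw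
    have h2 := mul_right_cancel hw
    exact (left_eq_mul.1 h2)
  · exact he e

theorem lpear_main (A : St) {E : Type} [Finite E] {z : Fin 6 → Perm (A.D ⊕ E)} {relz}
    {cn : E → A.D} (hω : IsEar (z 0) cn) (h0 : A.x 0 = 1) (h1 : A.x 1 = 1)
    (h1' : z 1 = (z 0)⁻¹) (hx : ∀ i, i ≠ 0 → i ≠ 1 → z i = xt E (A.x i)) (hA : A.Bd n)
    (hB : (lpear_B A z relz).Bd n) : Qe (Q 6 n) A.gd (lpear_B A z relz).gd := by
  have hl : ∀ i, i ≠ 0 → i ≠ 1 → ∀ d, z i (.inl d) = .inl (A.x i d) := fun i a b e => by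
    rw [hx i a b]; rfl
  have hf : ∀ i, i ≠ 0 → i ≠ 1 → ∀ e, z i (.inr e) = .inr e := fun i a b e => by
    rw [hx i a b]; rfl
  have h10 : ∀ u, z 1 (z 0 u) = u := fun u => by rw [h1']; simp
  have hA01 : ∀ i, i = 0 ∨ i = 1 → ∀ d, A.x i d = d := by
    rintro i (rfl | rfl) d
    · rw [h0]; rfl
    · rw [h1]; rfl
  have hc : ∀ i, i = 0 ∨ i = 1 → ∀ u, Sum.elim id cn (z i u) = Sum.elim id cn u := by
    rintro i (rfl | rfl) u
    · exact lt5_step hω u
    · rw [h1']; exact lt5_step (lt5_inv hω) u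
  let f : Fm A (lpear_B A z relz) := ⟨Sum.inl, fun Γ _ V =>
    ⟨fun i d => if i = 0 ∨ i = 1 then 1 else V.X i (.inl d), V.c, V.t⟩⟩
  let g : Fm (lpear_B A z relz) A := ⟨Sum.elim id cn, fun Γ _ V =>
    ⟨fun i u => if i = 0 ∨ i = 1 then 1 else Sum.elim (V.X i) (fun _ => 1) u, V.c, V.t⟩⟩
  have hf' : f.Rl A.x (Q 0 n) 0 (Sum.elim id cn) := by
    refine ⟨fun i d => ?_, fun j => (Rz.ec (B := lpear_B A z relz) j false ⟨false, rfl⟩).cg
      le_rfl rfl rfl fun _ _ _ _ => rfl, fun j => (Rz.et (B := lpear_B A z relz) j false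
      ⟨false, rfl⟩).cg le_rfl rfl rfl fun _ _ _ _ => rfl, fun Γ _ V hV => ⟨fun i => ?_, fun d => ?_⟩⟩
    · by_cases hi : i = 0 ∨ i = 1
      · exact (Rz.one _).cg (Nat.zero_le _) rfl (congrArg Sum.inl (hA01 i hi d).symm)
          fun _ _ _ _ => (if_pos hi).symm
      · exact (Rz.ex (B := lpear_B A z relz) (N := fun u => Nr A.x 0 (Sum.elim id cn u) d) i
          (d := .inl d) rfl).cg le_rfl rfl (hl i (fun e => hi (.inl e)) (fun e => hi (.inr e)) d) fun _ _ _ _ => (if_neg hi).symm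
    · by_cases hi : i = 0 ∨ i = 1
      · simp only [f, if_pos hi]; exact lpear_pot1 _
      · obtain ⟨p, hp⟩ := hV.pot i
        refine ⟨fun d => p (.inl d), fun d => ?_⟩
        have := hp (.inl d)
        change p (z i (.inl d)) = _ at this
        rw [hl i (fun e => hi (.inl e)) (fun e => hi (.inr e))] at this
        simp only [f, if_neg hi]
        exact this
    · have a := hV.face (.inl d)
      have b := lpear_key hω h1' hx hV (.inl d)
      simp only [h10, hl 2 (by decide) (by decide), hl 3 (by decide) (by decide),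
        hl 4 (by decide) (by decide)] at a
      rw [mul_assoc _ (V.X 0 _), b] at a
      simp only [hA01 0 (.inl rfl), hA01 1 (.inr rfl)]
      rw [show (f.F Γ V).lt = V.lt from funext fun φ => by rcases φ with ⟨j, _ | _⟩ <;> rfl]
      simpa [f] using a
  have hg' : g.Rl z (Q 0 n) 0 Sum.inl := by
    refine ⟨fun i u => ?_, fun j => (Rz.ec (B := A) j false ⟨false, rfl⟩).cg
      le_rfl rfl rfl fun _ _ _ _ => rfl, fun j => (Rz.et (B := A) j false
      ⟨false, rfl⟩).cg le_rfl rfl rfl fun _ _ _ _ => rfl, fun Γ _ V hV => ⟨fun i => ?_, fun u => ?_⟩⟩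
    · by_cases hi : i = 0 ∨ i = 1
      · exact (Rz.one _).cg (Nat.zero_le _) rfl (hc i hi u).symm
          fun _ _ _ _ => (if_pos hi).symm
      · rcases u with d | e
        · exact (Rz.ex (N := fun u => Nr z 0 (Sum.inl u) (Sum.inl d)) i (d := d) rfl).cg le_rfl rfl
            (congrArg (Sum.elim id cn) (hl i (fun e => hi (.inl e)) (fun e => hi (.inr e)) d)).symm
            fun _ _ _ _ => (if_neg hi).symm
        · exact (Rz.one _).cg (Nat.zero_le _) rfl
            (congrArg (Sum.elim id cn) (hf i (fun e => hi (.inl e)) (fun e => hi (.inr e)) e)).symm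
            fun _ _ _ _ => (if_neg hi).symm
    · by_cases hi : i = 0 ∨ i = 1
      · simp only [g, if_pos hi]; exact lpear_pot1 _
      · obtain ⟨p, hp⟩ := hV.pot i
        refine ⟨Sum.elim p fun _ => 1, ?_⟩
        simp only [g, if_neg hi]
        rintro (d | e)
        · rw [hl i (fun e => hi (.inl e)) (fun e => hi (.inr e))]; exact hp d
        · rw [hf i (fun e => hi (.inl e)) (fun e => hi (.inr e))]; simp
    · rcases u with d | e
      · have a := hV.face d
        rw [(hV.pot 0).fix (hA01 0 (.inl rfl) d), (hV.pot 1).fix (hA01 1 (.inr rfl) _)] at a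
        simp only [hA01 0 (.inl rfl), hA01 1 (.inr rfl)] at a
        simp only [h10, hl 2 (by decide) (by decide), hl 3 (by decide) (by decide),
          hl 4 (by decide) (by decide)]
        rw [show (g.F Γ V).lt = V.lt from funext fun φ => by rcases φ with ⟨j, _ | _⟩ <;> rfl]
        simpa [g] using a
      · simp only [h10, hf 2 (by decide) (by decide), hf 3 (by decide) (by decide),
          hf 4 (by decide) (by decide)]
        simp [g]
  refine qe_of_fm (k := 0) (m := 0) f g hA hB hA.1 hB.1 hf' hg' ?_ ?_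
  · refine Fm.bk_of_eq (fun _ => rfl) fun Γ _ V hV => Vl.ext' (fun i d => ?_) (fun _ => rfl)
      fun _ => rfl
    by_cases hi : i = 0 ∨ i = 1
    · simp only [f, if_pos hi]
      exact ((hV.pot i).fix (hA01 i hi d)).symm
    · simp only [f, g, if_neg hi]; rfl
  · refine ⟨fun u Γ _ V => arcv (z 0) (V.X 0) u (.inl (Sum.elim id cn u)), fun u =>
      ⟨n, Rz.arc (B := lpear_B A z relz) 0 (hB.1 0 u) (lt5_base hω u) fun _ _ => trivial⟩,
      fun Γ _ V hV => ?_⟩
    obtain ⟨p, e0, e1⟩ := (hV.pot 0).arcv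
    change ∀ u, p (z 0 u) = _ at e0
    change ∀ d e, arcv (z 0) (V.X 0) d e = _ at e1
    refine ⟨fun i u => ?_, fun j => ?_, fun j => ?_⟩
    · simp only [e1]
      by_cases hi : i = 0 ∨ i = 1
      · simp only [g, if_pos hi, hc i hi]
        rcases hi with rfl | rfl
        · rw [e0]; group
        · obtain ⟨v, rfl⟩ := (z 0).surjective u
          have b := lpear_key hω h1' hx hV v
          rw [h10, e0, eq_inv_of_mul_eq_one_right b]; group
      · simp only [f, g, if_neg hi]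
        rcases u with d | e
        · rw [hl i (fun e => hi (.inl e)) (fun e => hi (.inr e))]; simp
        · have := hf i (fun e => hi (.inl e)) (fun e => hi (.inr e)) e
          rw [this, (hV.pot i).fix this]; simp
    · simp [e1, f, g]
    · simp [e1, f, g]

/-- New sheets attached along `ω, ω⁻¹`. -/
theorem p_ear0 {E : Type} [Finite E] (ω : Perm (D ⊕ E)) (cn : E → D) (hω : IsEar ω cn)
    {z : Fin 6 → Perm (D ⊕ E)} {relz : z 5 * z 4 * z 3 * z 2 * z 1 * z 0 = 1}
    (h0 : x 0 = 1) (h1 : x 1 = 1) (h0' : z 0 = ω) (h1' : z 1 = ω⁻¹)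
    (hx : ∀ i, i ≠ 0 → i ≠ 1 → z i = xt E (x i)) (h : Bd6 x pos n)
    (h' : Bd6 z (Sum.inl ∘ pos) n) :
    Qe (Q 100 n) (can x rel pos).gd (can z relz (Sum.inl ∘ pos)).gd := by
  subst h0'
  have hA : (can x rel pos).Bd n := can_bd.2 h
  have hB : (lpear_B (can x rel pos) z relz).Bd n := by
    refine ⟨h'.1, ?_⟩
    rintro (d | e)
    exacts [hA.2 d, Nat.zero_le _]
  exact ((lpear_main (can x rel pos) hω h0 h1 h1' hx hA hB).transQ (qe_can _ hB)).monoQ
    (by norm_num) le_rfl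

end Pool.Agent.MC.LL
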