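import Pool.Agent.P.MP_2677b3_gt.LPord

open Equiv Function

noncomputable section

namespace Pool.Agent.MC.LL

variable {D I : Type} [Finite D] [Finite I] {x x' : Fin 6 → Perm D}
  {rel : x 5 * x 4 * x 3 * x 2 * x 1 * x 0 = 1} {rel' : x' 5 * x' 4 * x' 3 * x' 2 * x' 1 * x' 0 = 1}
  {pos pos' : I × Bool → D} {n : ℕ}

theorem LPtau_bd (S : St) (h : Bd6 S.x S.pos n) : S.Bd n := ⟨h.1, fun d => by
  classical
  have e : {φ | S.pos φ = d} = ↑(S.ft d).toFinset := Set.ext fun φ => by simp [S.mem]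
  have := h.2 d
  rwa [e, Set.ncard_coe_finset, List.toFinset_card_of_nodup (S.nd d)] at this⟩

omit [Finite D] in
theorem LPtau_sel {R : Type} {τ : Perm D} {a b : R → D} (ha : Injective a) (hb : Injective b)
    (hne : ∀ j k, a j ≠ b k) (hs : ∀ d, τ d ≠ d → ∃ j, d = a j ∨ d = b j) :
    ∃ sel : D → Option (R × Bool), (∀ j, sel (a j) = some (j, false)) ∧
      (∀ j, sel (b j) = some (j, true)) ∧
      ∀ d, (∃ j, d = a j) ∨ (∃ j, d = b j) ∨ (τ d = d ∧ sel d = none) := by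
  classical
  refine ⟨fun d => if h : ∃ j, d = a j then some (h.choose, false) else
    if h : ∃ j, d = b j then some (h.choose, true) else none, fun j => ?_, fun j => ?_, fun d => ?_⟩
  · have h : ∃ k, a j = a k := ⟨j, rfl⟩
    simp only [dif_pos h, ← ha h.choose_spec]
  · have h : ∃ k, b j = b k := ⟨j, rfl⟩
    have h' : ¬∃ k, b j = a k := fun ⟨k, e⟩ => hne k j e.symm
    simp only [dif_neg h', dif_pos h, ← hb h.choose_spec]
  · refine or_iff_not_imp_left.2 fun h => or_iff_not_imp_left.2 fun h' =>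
      ⟨by_contra fun e => ?_, by simp only [dif_neg h, dif_neg h']⟩
    obtain ⟨j, e | e⟩ := hs d e
    exacts [h ⟨j, e⟩, h' ⟨j, e⟩]

/-- labels read off a selection -/
def LPtau_e {R Γ : Type} [Group Γ] (u : R → Γ) : Option (R × Bool) → Γ
  | some (j, false) => (u j)⁻¹
  | some (j, true) => u j
  | none => 1

/-- A pair of equal involutions is a family of tubes. -/
theorem p_tau {R : Type} [Finite R] (τ : Perm D) (a b : R → D) (q : (I ⊕ R) × Bool → D)
    (hτ : τ * τ = 1) (hab : ∀ j, τ (a j) = b j) (ha : Injective a) (hne : ∀ j k, a j ≠ b k)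
    (hs : ∀ d, τ d ≠ d → ∃ j, d = a j ∨ d = b j) (h0 : x 0 = τ) (h1 : x 1 = τ)
    (h0' : x' 0 = 1) (h1' : x' 1 = 1) (hx : ∀ i, i ≠ 0 → i ≠ 1 → x' i = x i)
    (hq : ∀ j k, q (.inl j, k) = pos (j, k)) (hqa : ∀ j, q (.inr j, false) = a j)
    (hqb : ∀ j, q (.inr j, true) = b j) (h : Bd6 x pos n) (h' : Bd6 x' q n) :
    Qe (Q 100 n) (can x' rel' q).gd (can x rel pos).gd := by
  obtain ⟨y, rfl⟩ : ∃ y : Fin 6 → Perm D, x = ![τ, τ, y 2, y 3, y 4, y 5] :=
    ⟨x, funext (all6 h0 h1 rfl rfl rfl rfl)⟩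
  obtain rfl : x' = ![1, 1, y 2, y 3, y 4, y 5] := funext (all6 h0' h1'
    (hx 2 (by decide) (by decide)) (hx 3 (by decide) (by decide)) (hx 4 (by decide) (by decide))
    (hx 5 (by decide) (by decide)))
  have tt : ∀ d, τ (τ d) = d := fun d => by rw [← Perm.mul_apply, hτ, Perm.one_apply]
  have hba : ∀ j, τ (b j) = a j := fun j => by rw [← hab, tt]
  obtain ⟨sel, sa, sb, tri⟩ := LPtau_sel ha (fun j k e => ha (by rw [← hba, e, hba])) hne hs
  let A := can _ rel pos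
  let B : St := ⟨D, inferInstance, _, rel', I ⊕ R, inferInstance, q, fun d =>
    (A.ft d).map (Prod.map .inl id) ++ (sel d).toList.map (Prod.map .inr id), fun d => by
      refine List.Nodup.append ((A.nd d).map (Sum.inl_injective.prodMap injective_id))
        (Option.toList_nodup _ |>.map (Sum.inr_injective.prodMap injective_id)) fun φ e e' => ?_
      obtain ⟨_, -, rfl⟩ := List.mem_map.1 e
      obtain ⟨_, -, e'⟩ := List.mem_map.1 e'
      exact Sum.inr_ne_inl (congrArg Prod.fst e'), by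
      rintro d ⟨j | j, k⟩
      · simp [A, hq]
      · have : sel d = some (j, k) ↔ q (.inr j, k) = d := ⟨fun e => by
          rcases tri d with ⟨i, rfl⟩ | ⟨i, rfl⟩ | e'
          · cases (sa i).symm.trans e; exact hqa _
          · cases (sb i).symm.trans e; exact hqb _
          · exact absurd (e'.2.symm.trans e) (by simp), fun e => by
          cases k
          exacts [e ▸ hqa j ▸ sa j, e ▸ hqb j ▸ sb j]⟩
        simp [← this]⟩
  have hB : B.Bd n := LPtau_bd B h'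
  let f : Fm A B := ⟨id, fun Γ _ W => ⟨![fun d => LPtau_e (fun j => W.t (.inr j)) (sel d),
    fun d => LPtau_e (fun j => W.t (.inr j) * W.c (.inr j)) (sel d), W.X 2, W.X 3, W.X 4, W.X 5],
    fun j => W.c (.inl j), fun j => W.t (.inl j)⟩⟩
  let g : Fm B A := ⟨id, fun Γ _ V => ⟨![fun _ => 1, fun _ => 1, V.X 2, V.X 3, V.X 4, V.X 5],
    Sum.elim V.c fun j => V.X 0 (a j) * V.X 1 (b j), Sum.elim V.t fun j => V.X 0 (b j)⟩⟩
  have K : 2 ≤ Q 1 n := le_add_self.trans (le_Q n one_pos)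
  have K1 : 1 ≤ Q 1 n := one_le_two.trans K
  have xA := fun d i => (Rz.ex (B := A) (N := (· = d)) i rfl).le K1
  have xB := fun d i => (Rz.ex (B := B) (N := (· = d)) i rfl).le K1
  have pe : ∀ {Γ : Type} [Group Γ] (u : R → Γ), Pot τ fun d => LPtau_e u (sel d) := fun u =>
    ⟨fun d => match sel d with | some (j, true) => (u j)⁻¹ | _ => 1, fun d => by
      rcases tri d with ⟨i, rfl⟩ | ⟨i, rfl⟩ | e <;> simp [LPtau_e, *]⟩
  have pi : ∀ {Γ : Type} [Group Γ] {α : D → Γ}, Pot τ α → ∀ j, α (a j) = (α (b j))⁻¹ :=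
    fun ⟨π, e⟩ j => by
      have h2 := e (b j)
      rw [hba, ← hab, e, hab, mul_assoc, left_eq_mul] at h2
      exact eq_inv_of_mul_eq_one_left h2
  have p1 : ∀ {Γ : Type} [Group Γ], Pot (1 : Perm D) fun _ => (1 : Γ) := ⟨fun _ => 1, by simp⟩
  have lf : ∀ {Γ : Type} [Group Γ] (W : Vl B Γ) (V : Vl A Γ), (∀ j, W.c (.inl j) = V.c j) →
      (∀ j, W.t (.inl j) = V.t j) → ∀ d, ((B.ft d).map W.lt).prod = ((A.ft d).map V.lt).prod *
        ((sel d).toList.map fun φ => W.lt (.inr φ.1, φ.2)).prod := fun W V e e' d => by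
    simp only [B, List.map_append, List.prod_append, List.map_map]
    congr 3
    funext ⟨j, k⟩
    cases k <;> simp [Vl.lt, e, e']
  have hf : f.Rl A.x (Q 1 n) 0 id := by
    refine ⟨fun i d => ?_, fun j => ?_, fun j => ?_, fun Γ _ W hW =>
      ⟨all6 (pe _) (pe _) (hW.pot 2) (hW.pot 3) (hW.pot 4) (hW.pot 5), fun d => ?_⟩⟩
    · refine all6 (P := fun i => Rz B (fun u => Nr A.x 0 u d) (Q 1 n) d (A.x i d)
        fun Γ _ V => (f.F Γ V).X i d) ?_ ?_ (xB d 2) (xB d 3) (xB d 4) (xB d 5) i <;>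
        rcases tri d with ⟨j, rfl⟩ | ⟨j, rfl⟩ | e
      · exact (Rz.et (B := B) (.inr j) false (hqa j)).inv.cg K1 (hqa j) ((hqb j).trans (hab j).symm)
          fun _ _ _ _ => by simp [f, sa, LPtau_e]
      · exact (Rz.et (B := B) (.inr j) true (hqb j)).cg K1 (hqb j) ((hqa j).trans (hba j).symm)
          fun _ _ _ _ => by simp [f, sb, LPtau_e]
      · exact (Rz.one (B := B) d).cg (Nat.zero_le _) rfl e.1.symm
          fun _ _ _ _ => by simp [f, e.2, LPtau_e]
      · exact ((Rz.et (B := B) (.inr j) false (hqa j)).mul (.ec _ false (hqa j))).inv.cg K (hqa j)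
          ((hqb j).trans (hab j).symm) fun _ _ _ _ => by simp [f, sa, LPtau_e]
      · exact ((Rz.et (B := B) (.inr j) true (hqb j)).mul (.ec _ true (hqb j))).cg K (hqb j)
          ((hqa j).trans (hba j).symm) fun _ _ _ _ => by simp [f, sb, LPtau_e]
      · exact (Rz.one (B := B) d).cg (Nat.zero_le _) rfl e.1.symm
          fun _ _ _ _ => by simp [f, e.2, LPtau_e]
    · exact (Rz.ec (B := B) (.inl j) false ⟨false, hq j _⟩).cg K1 (hq j _) (hq j _)
        fun _ _ _ _ => rfl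
    · exact (Rz.et (B := B) (.inl j) false ⟨false, hq j _⟩).cg K1 (hq j _) (hq j _)
        fun _ _ _ _ => rfl
    · have e := hW.face d
      rw [lf W (f.F Γ W) (fun _ => rfl) (fun _ => rfl), (hW.pot 0).fix rfl, (hW.pot 1).fix rfl]
        at e
      rw [← e]
      rcases tri d with ⟨j, rfl⟩ | ⟨j, rfl⟩ | e' <;>
        simp [A, B, f, LPtau_e, Vl.lt, mul_assoc, *]
  have hg : g.Rl B.x (Q 1 n) 0 id := by
    refine ⟨fun i d => ?_, ?_, ?_, fun Γ _ V hV =>
      ⟨all6 p1 p1 (hV.pot 2) (hV.pot 3) (hV.pot 4) (hV.pot 5), fun d => ?_⟩⟩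
    · exact all6 (P := fun i => Rz A (fun u => Nr B.x 0 u d) (Q 1 n) d (B.x i d)
        fun Γ _ V => (g.F Γ V).X i d) ((Rz.one _).le (Nat.zero_le _))
        ((Rz.one _).le (Nat.zero_le _)) (xA d 2) (xA d 3) (xA d 4) (xA d 5) i
    · rintro (j | j)
      · exact (Rz.ec (B := A) j false ⟨false, (hq j _).symm⟩).cg K1 (hq j _).symm (hq j _).symm
          fun _ _ _ _ => rfl
      · exact (((Rz.ex (B := A) 0 (d := a j) ⟨false, (hqa j).symm⟩).ends rfl (hab j)).mul
          (.ex 1 ⟨true, (hqb j).symm⟩)).cg K (hqa j).symm ((hba j).trans (hqa j).symm)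
          fun _ _ _ _ => rfl
    · rintro (j | j)
      · exact (Rz.et (B := A) j false ⟨false, (hq j _).symm⟩).cg K1 (hq j _).symm (hq j _).symm
          fun _ _ _ _ => rfl
      · exact (Rz.ex (B := A) 0 (d := b j) ⟨true, (hqb j).symm⟩).cg K1 (hqb j).symm
          ((hba j).trans (hqa j).symm) fun _ _ _ _ => rfl
    · have e := hV.face d
      have e0 := pi (hV.pot 0)
      have e1 := pi (hV.pot 1)
      rw [lf (g.F Γ V) V (fun _ => rfl) (fun _ => rfl), ← e]
      rcases tri d with ⟨j, rfl⟩ | ⟨j, rfl⟩ | e'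
      · simp [A, B, g, Vl.lt, mul_assoc, sa, hab, hba]
      · simp [A, B, g, Vl.lt, mul_assoc, sb, hab, hba, e0, e1]
      · simp [A, B, g, mul_assoc, e', (hV.pot 0).fix e'.1, (hV.pot 1).fix e'.1]
  refine ((qe_can B hB).symm.transQ (qe_of_fm f g (can_bd.2 h) hB h.1 h'.1 hf hg
    (Fm.bk_of_eq (fun _ => rfl) fun Γ _ V hV => Vl.ext' ?_ (fun _ => rfl) fun _ => rfl)
    (Fm.bk_of_eq (fun _ => rfl) fun Γ _ W hW => Vl.ext' ?_ ?_ ?_)).symm).monoQ (by norm_num) le_rfl
  · have e0 := pi (hV.pot 0)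
    have e1 := pi (hV.pot 1)
    refine all6 (fun d => ?_) (fun d => ?_) (fun _ => rfl) (fun _ => rfl) (fun _ => rfl)
      (fun _ => rfl) <;> rcases tri d with ⟨j, rfl⟩ | ⟨j, rfl⟩ | e' <;>
      first
      | simp [f, LPtau_e, e'.2, (hV.pot 0).fix e'.1, (hV.pot 1).fix e'.1]
      | simp [f, g, LPtau_e, sa, sb, e0, e1]
  · exact all6 (fun _ => ((hW.pot 0).fix rfl).symm) (fun _ => ((hW.pot 1).fix rfl).symm)
      (fun _ => rfl) (fun _ => rfl) (fun _ => rfl) fun _ => rfl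
  · rintro (j | j) <;> simp [f, g, LPtau_e, sa, sb]
  · rintro (j | j) <;> simp [f, g, LPtau_e, sb]

end Pool.Agent.MC.LL
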