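import Pool.Agent.P.MP_2677b3_gt.LA2
import Pool.Agent.P.MP_2677b3_gt.LPtau
import Pool.Agent.P.MP_2677b3_gt.LPear
import Pool.Agent.P.MP_2677b3_gt.LT5

open Equiv Function

noncomputable section

namespace Pool.Agent.MC.LL

section
variable {D J : Type} [Finite D] [Finite J] {p : J × Bool → D} {N : ℕ} {u v w x y z : Perm D}

/-- All cycles have size at most `N`. -/
def la3S (N : ℕ) (σ : Perm D) : Prop := ∀ d, sz σ d ≤ N

/-- The state with six explicit slots. -/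
abbrev la3g (u v w x y z : Perm D) (r : z * y * x * w * v * u = 1) (p : J × Bool → D) : Gd :=
  (can ![u, v, w, x, y, z] r p).gd

omit [Finite D] [Finite J] in
theorem la3_bd (hp : Ft N p) (hu : la3S N u) (hv : la3S N v) (hw : la3S N w) (hx : la3S N x)
    (hy : la3S N y) (hz : la3S N z) : Bd6 ![u, v, w, x, y, z] p N :=
  ⟨all6 hu hv hw hx hy hz, hp⟩

theorem la3_one {s s' : Fin 6 → Perm D} {r : s 5 * s 4 * s 3 * s 2 * s 1 * s 0 = 1}
    {r' : s' 5 * s' 4 * s' 3 * s' 2 * s' 1 * s' 0 = 1} (k : Fin 6) (hk : s k = 1)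
    (h0 : s' k = s (k + 1)) (h1 : s' (k + 1) = 1) (hx : ∀ i, i ≠ k → i ≠ k + 1 → s' i = s i)
    (h : Bd6 s p N) : Qe (Q 11000 N) (can s r p).gd (can s' r' p).gd :=
  p_hurk k (by rw [h0, hk]; simp) (by rw [h1, hk]) hx h

theorem la3_T (r : x * w * v * u = 1) (hp : Ft N p) (h1 : la3S N (1 : Perm D)) (hu : la3S N u)
    (hv : la3S N v) (hw : la3S N w) (hx : la3S N x) :
    Qe (Q 22000 N) (la3g u v 1 w x 1 (by simpa using r) p)
      (la3g u v w x 1 1 (by simpa using r) p) := by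
  have e1 : Qe (Q 11000 N) (la3g u v 1 w x 1 (by simpa using r) p)
      (la3g u v w 1 x 1 (by simpa using r) p) :=
    la3_one 2 rfl rfl rfl (all6 (fun _ _ => rfl) (fun _ _ => rfl) (fun h _ => absurd rfl h)
      (fun _ h => absurd rfl h) (fun _ _ => rfl) (fun _ _ => rfl)) (la3_bd hp hu hv h1 hw hx h1)
  have e2 : Qe (Q 11000 N) (la3g u v w 1 x 1 (by simpa using r) p)
      (la3g u v w x 1 1 (by simpa using r) p) :=
    la3_one 3 rfl rfl rfl (all6 (fun _ _ => rfl) (fun _ _ => rfl) (fun _ _ => rfl)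
      (fun h _ => absurd rfl h) (fun _ h => absurd rfl h) (fun _ _ => rfl))
      (la3_bd hp hu hv hw h1 hx h1)
  exact (e1.transQ e2).monoQ (by norm_num) le_rfl

theorem la3_S1 (r : x * w * v * u = 1) (hp : Ft N p) (h1 : la3S N (1 : Perm D)) (hu : la3S N u)
    (hv : la3S N v) (hw : la3S N w) (hx : la3S N x) :
    Qe (Q 33000 N) (la3g u 1 v w x 1 (by simpa using r) p)
      (la3g u v w x 1 1 (by simpa using r) p) := by
  have e1 : Qe (Q 11000 N) (la3g u 1 v w x 1 (by simpa using r) p)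
      (la3g u v 1 w x 1 (by simpa using r) p) :=
    la3_one 1 rfl rfl rfl (all6 (fun _ _ => rfl) (fun h _ => absurd rfl h)
      (fun _ h => absurd rfl h) (fun _ _ => rfl) (fun _ _ => rfl) (fun _ _ => rfl))
      (la3_bd hp hu h1 hv hw hx h1)
  exact (e1.transQ (la3_T r hp h1 hu hv hw hx)).monoQ (by norm_num) le_rfl

theorem la3_U (r : x * w * v * u = 1) (hp : Ft N p) (h1 : la3S N (1 : Perm D)) (hu : la3S N u)
    (hv : la3S N v) (hw : la3S N w) (hx : la3S N x) :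
    Qe (Q 55000 N) (la3g u 1 v 1 w x (by simpa using r) p)
      (la3g u v w x 1 1 (by simpa using r) p) := by
  have e1 : Qe (Q 11000 N) (la3g u 1 v 1 w x (by simpa using r) p)
      (la3g u 1 v w 1 x (by simpa using r) p) :=
    la3_one 3 rfl rfl rfl (all6 (fun _ _ => rfl) (fun _ _ => rfl) (fun _ _ => rfl)
      (fun h _ => absurd rfl h) (fun _ h => absurd rfl h) (fun _ _ => rfl))
      (la3_bd hp hu h1 hv h1 hw hx)
  have e2 : Qe (Q 11000 N) (la3g u 1 v w 1 x (by simpa using r) p)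
      (la3g u 1 v w x 1 (by simpa using r) p) :=
    la3_one 4 rfl rfl rfl (all6 (fun _ _ => rfl) (fun _ _ => rfl) (fun _ _ => rfl)
      (fun _ _ => rfl) (fun h _ => absurd rfl h) (fun _ h => absurd rfl h))
      (la3_bd hp hu h1 hv hw h1 hx)
  exact ((e1.transQ e2).transQ (la3_S1 r hp h1 hu hv hw hx)).monoQ (by norm_num) le_rfl

omit [Finite D] in
theorem la3_r (r : x * w * v * u = 1) : u * x * w * v * 1 * 1 = 1 := by
  have : u * x * w * v * 1 * 1 = u * (x * w * v * u) * u⁻¹ := by group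
  rw [this, r]; group

/-- The two free slots in front. -/
theorem la3_V (r : x * w * v * u = 1) (hp : Ft N p) (h1 : la3S N (1 : Perm D)) (hu : la3S N u)
    (hv : la3S N v) (hw : la3S N w) (hx : la3S N x) :
    Qe (Q 71000 N) (la3g u v w x 1 1 (by simpa using r) p) (la3g 1 1 v w x u (la3_r r) p) := by
  have e1 : Qe (Q 11000 N) (la3g u 1 1 v w x (by simpa using r) p)
      (la3g u 1 v 1 w x (by simpa using r) p) :=
    la3_one 2 rfl rfl rfl (all6 (fun _ _ => rfl) (fun _ _ => rfl)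
      (fun h _ => absurd rfl h) (fun _ h => absurd rfl h) (fun _ _ => rfl) (fun _ _ => rfl))
      (la3_bd hp hu h1 h1 hv hw hx)
  have e2 : Qe (Q 5000 N) (la3g u 1 1 v w x (by simpa using r) p)
      (la3g 1 1 v w x u (la3_r r) p) :=
    p_rotk 1 (all6 rfl rfl rfl rfl rfl rfl) (la3_bd hp hu h1 h1 hv hw hx)
  exact (((la3_U r hp h1 hu hv hw hx).symm.transQ e1.symm).transQ e2).monoQ (by norm_num) le_rfl

theorem la3_l (h : Tree u v) (hs : la3S N (v * u)) : la3S N u :=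
  fun d => (sz_le_of_sc h.left1 d).trans (hs d)

theorem la3_rt (h : Tree u v) (hs : la3S N (v * u)) : la3S N v :=
  fun d => (sz_le_of_sc h.right1 d).trans (hs d)

omit [Finite D] in
theorem la3_r2 (r : z * y * (x * w) * (v * u) = 1) : u * z * y * x * w * v = 1 := by
  have : u * z * y * x * w * v = u * (z * y * (x * w) * (v * u)) * u⁻¹ := by group
  rw [this, r]; group

/-- The two front slots are merged into their neighbours. -/
theorem la3_two (r : z * y * (x * w) * (v * u) = 1) (t1 : Tree u v) (t2 : Tree w x) (hp : Ft N p)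
    (h1 : la3S N (1 : Perm D)) (ha : la3S N (v * u)) (hb : la3S N (x * w)) (hy : la3S N y)
    (hz : la3S N z) :
    Qe (Q 82000 N) (la3g v w x y z u (la3_r2 r) p)
      (la3g (v * u) (x * w) y z 1 1 (by simpa using r) p) := by
  have hu := la3_l t1 ha
  have hv := la3_rt t1 ha
  have hw := la3_l t2 hb
  have hx := la3_rt t2 hb
  have r0 : z * y * x * w * v * u = 1 := by simpa only [mul_assoc] using r
  have r1 : z * y * x * w * 1 * (v * u) = 1 := by simpa only [mul_assoc, one_mul] using r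
  have e1 : Qe (Q 5000 N) (la3g u v w x y z r0 p) (la3g v w x y z u (la3_r2 r) p) :=
    p_rotk 1 (all6 rfl rfl rfl rfl rfl rfl) (la3_bd hp hu hv hw hx hy hz)
  have e2 : Qe (Q 11000 N) (la3g u v w x y z r0 p) (la3g (v * u) 1 w x y z r1 p) :=
    p_mergek 0 t1 rfl rfl (all6 (fun h _ => absurd rfl h) (fun _ h => absurd rfl h)
      (fun _ _ => rfl) (fun _ _ => rfl) (fun _ _ => rfl) (fun _ _ => rfl))
      (la3_bd hp hu hv hw hx hy hz) (la3_bd hp ha h1 hw hx hy hz)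
  have e3 : Qe (Q 11000 N) (la3g (v * u) 1 w x y z r1 p)
      (la3g (v * u) 1 (x * w) 1 y z (by simpa using r) p) :=
    p_mergek 2 t2 rfl rfl (all6 (fun _ _ => rfl) (fun _ _ => rfl) (fun h _ => absurd rfl h)
      (fun _ h => absurd rfl h) (fun _ _ => rfl) (fun _ _ => rfl))
      (la3_bd hp ha h1 hw hx hy hz) (la3_bd hp ha h1 hb h1 hy hz)
  exact (((e1.symm.transQ e2).transQ e3).transQ (la3_U r hp h1 ha hb hy hz)).monoQ
    (by norm_num) le_rfl

end

variable {G : P4} {I : Type} [Finite I] {a b : I → G.D} {n : ℕ}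

theorem la3_sz (h : G.Sz n) (c : Fin 5) : la3S (2 * n + 2) (G.y c) :=
  fun d => (h c d).trans (by omega)

theorem la3_fin {A B : Gd} {k : ℕ} (h : Qe (Q k (2 * n + 2)) A B) (hk : k ≤ 1000000) :
    Qe (Q kA n) A B := by
  have h2 : 2 * n + 2 ≤ Q 2 n := by unfold Q; nlinarith
  exact (h.QQ h2).monoQ (by rw [kA_def]; omega) le_rfl

theorem api_sw (β : Perm G.D) (h1 : Tree (β⁻¹ * G.x0) β) (h2 : Tree β G.x1) (h : G.Sz n)
    (h' : (G.sw β).Sz n) (ha : Ft n a) (hb : Ft n b) :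
    Qe (Q kA n) (G.gd a b) ((G.sw β).gd a b) := by
  have hp : Ft (2 * n + 2) (feet a b) := (ha.feet hb).mono (by omega)
  have s0 : la3S _ G.x0 := la3_sz h 0
  have s1 : la3S _ G.x1 := la3_sz h 1
  have s2 : la3S _ G.x2 := la3_sz h 2
  have s3 : la3S _ G.x3 := la3_sz h 3
  have s4 : la3S _ (1 : Perm G.D) := la3_sz h 4
  have t0 : la3S _ (β⁻¹ * G.x0) := la3_sz h' 0
  have t1 : la3S _ (G.x1 * β) := la3_sz h' 1
  have sb := la3_l h2 t1
  have r : 1 * G.x3 * G.x2 * G.x1 * β * (β⁻¹ * G.x0) = 1 := by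
    simpa [mul_assoc] using G.rel
  have e1 : Qe (Q 11000 (2 * n + 2)) (la3g (β⁻¹ * G.x0) β G.x1 G.x2 G.x3 1 r (feet a b))
      (la3g G.x0 1 G.x1 G.x2 G.x3 1 (by simpa using G.rel) (feet a b)) :=
    p_mergek 0 h1 (mul_inv_cancel_left β G.x0).symm rfl (all6 (fun h _ => absurd rfl h)
      (fun _ h => absurd rfl h) (fun _ _ => rfl) (fun _ _ => rfl) (fun _ _ => rfl)
      (fun _ _ => rfl)) (la3_bd hp t0 sb s1 s2 s3 s4) (la3_bd hp s0 s4 s1 s2 s3 s4)
  have e2 : Qe (Q 11000 (2 * n + 2)) (la3g (β⁻¹ * G.x0) β G.x1 G.x2 G.x3 1 r (feet a b))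
      (la3g (β⁻¹ * G.x0) (G.x1 * β) 1 G.x2 G.x3 1 (by simpa using (G.sw β).rel) (feet a b)) :=
    p_mergek 1 h2 rfl rfl (all6 (fun _ _ => rfl) (fun h _ => absurd rfl h)
      (fun _ h => absurd rfl h) (fun _ _ => rfl) (fun _ _ => rfl)
      (fun _ _ => rfl)) (la3_bd hp t0 sb s1 s2 s3 s4) (la3_bd hp t0 t1 s4 s2 s3 s4)
  exact la3_fin ((((la3_S1 G.rel hp s4 s0 s1 s2 s3).symm.transQ e1.symm).transQ e2).transQ
    (la3_T (G.sw β).rel hp s4 t0 t1 s2 s3)) (by norm_num)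

theorem la3_elim {R D : Type} [Finite R] {c : I → D} {c' : R → D} (hc : Ft n c)
    (hi : Injective c') : Ft (n + 1) (Sum.elim c c') := by
  intro d
  have e : {i | Sum.elim c c' i = d} ⊆ Sum.inl '' {i | c i = d} ∪ Sum.inr '' {j | c' j = d} := by
    rintro (i | j) hi
    exacts [.inl ⟨i, hi, rfl⟩, .inr ⟨j, hi, rfl⟩]
  refine (Set.ncard_le_ncard e).trans ((Set.ncard_union_le _ _).trans (add_le_add
    ((Set.ncard_image_le).trans (hc d)) ((Set.ncard_image_le).trans ?_)))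
  exact (Set.ncard_le_one_iff (Set.toFinite _)).2 fun h1 h2 => hi (h1.trans h2.symm)

theorem api_mop {R : Type} [Finite R] (τ : Perm G.D) (a' b' : R → G.D) (hτ : τ * τ = 1)
    (hab : ∀ j, τ (a' j) = b' j) (hi : Injective a') (hne : ∀ j k, a' j ≠ b' k)
    (hs : ∀ d, τ d ≠ d → ∃ j, d = a' j ∨ d = b' j) (h1 : Tree G.x0 τ) (h2 : Tree τ G.x1)
    (h : G.Sz n) (h' : (G.sw τ).Sz n) (ha : Ft n a) (hb : Ft n b) :
    Qe (Q kA n) (G.gd (Sum.elim a a') (Sum.elim b b')) ((G.sw τ).gd a b) := by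
  have hp : Ft (2 * n + 2) (feet a b) := (ha.feet hb).mono (by omega)
  have hi' : Injective b' := fun j k e => hi (τ.injective (by rw [hab, hab, e]))
  have hq : Ft (2 * n + 2) (feet (Sum.elim a a') (Sum.elim b b')) :=
    ((la3_elim ha hi).feet (la3_elim hb hi')).mono (by omega)
  have hv : τ⁻¹ = τ := inv_eq_of_mul_eq_one_right hτ
  have s0 : la3S _ G.x0 := la3_sz h 0
  have s1 : la3S _ G.x1 := la3_sz h 1
  have s2 : la3S _ G.x2 := la3_sz h 2
  have s3 : la3S _ G.x3 := la3_sz h 3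
  have s4 : la3S _ (1 : Perm G.D) := la3_sz h 4
  have t0 : la3S _ (τ⁻¹ * G.x0) := la3_sz h' 0
  have t1 : la3S _ (G.x1 * τ) := la3_sz h' 1
  have h1' : Tree G.x0 τ⁻¹ := hv.symm ▸ h1
  have e : Qe (Q 100 (2 * n + 2))
      (la3g 1 1 G.x1 G.x2 G.x3 G.x0 (la3_r G.rel) (feet (Sum.elim a a') (Sum.elim b b')))
      (la3g τ⁻¹ τ G.x1 G.x2 G.x3 G.x0 (la3_r2 (G.sw τ).rel) (feet a b)) :=
    p_tau τ a' b' _ hτ hab hi hne hs hv rfl rfl rfl (all6 (fun h _ => absurd rfl h)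
      (fun _ h => absurd rfl h) (fun _ _ => rfl) (fun _ _ => rfl) (fun _ _ => rfl)
      (fun _ _ => rfl)) (fun _ k => by cases k <;> rfl) (fun _ => rfl) (fun _ => rfl)
      (la3_bd hp (la3_rt h1' t0) (la3_l h2 t1) s1 s2 s3 s0) (la3_bd hq s4 s4 s1 s2 s3 s0)
  exact la3_fin (((la3_V G.rel hq s4 s0 s1 s2 s3).transQ e).transQ
    (la3_two (G.sw τ).rel h1' h2 hp s4 t0 t1 s2 s3)) (by norm_num)

theorem api_ear {E : Type} [Finite E] (ω : Perm (G.D ⊕ E)) (cn : E → G.D) (hω : IsEar ω cn)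
    (h : G.Sz n) (h' : (G.ear ω).Sz n) (ha : Ft n a) (hb : Ft n b) :
    Qe (Q kA n) (G.gd a b) ((G.ear ω).gd (Sum.inl ∘ a) (Sum.inl ∘ b)) := by
  have hp : Ft (2 * n + 2) (feet a b) := (ha.feet hb).mono (by omega)
  have hq : Ft (2 * n + 2) ((Sum.inl : G.D → G.D ⊕ E) ∘ feet a b) := hp.map Sum.inl_injective
  have ef : feet ((Sum.inl : G.D → G.D ⊕ E) ∘ a) (Sum.inl ∘ b) = Sum.inl ∘ feet a b := by
    funext ⟨j, k⟩; cases k <;> rfl
  have s0 : la3S _ G.x0 := la3_sz h 0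
  have s1 : la3S _ G.x1 := la3_sz h 1
  have s2 : la3S _ G.x2 := la3_sz h 2
  have s3 : la3S _ G.x3 := la3_sz h 3
  have s4 : la3S _ (1 : Perm G.D) := la3_sz h 4
  have t0 : la3S _ (ω * xt E G.x0) := la3_sz h' 0
  have t1 : la3S _ (xt E G.x1 * ω⁻¹) := la3_sz h' 1
  have t2 : la3S _ (xt E G.x2) := la3_sz h' 2
  have t3 : la3S _ (xt E G.x3) := la3_sz h' 3
  have t4 : la3S _ (1 : Perm (G.D ⊕ E)) := la3_sz h' 4
  have h1 := (hω.left G.x0).1
  have h2 := (hω.right G.x1).1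
  have e : Qe (Q 100 (2 * n + 2)) (la3g 1 1 G.x1 G.x2 G.x3 G.x0 (la3_r G.rel) (feet a b))
      (la3g ω ω⁻¹ (xt E G.x1) (xt E G.x2) (xt E G.x3) (xt E G.x0) (la3_r2 (G.ear ω).rel)
        (Sum.inl ∘ feet a b)) :=
    p_ear0 ω cn hω rfl rfl rfl rfl (all6 (fun h _ => absurd rfl h)
      (fun _ h => absurd rfl h) (fun _ _ => rfl) (fun _ _ => rfl) (fun _ _ => rfl)
      (fun _ _ => rfl)) (la3_bd hp s4 s4 s1 s2 s3 s0)
      (la3_bd hq (la3_rt h1 t0) (la3_l h2 t1) (la3_rt h2 t1) t2 t3 (la3_l h1 t0))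
  have k := la3_fin (((la3_V G.rel hp s4 s0 s1 s2 s3).transQ e).transQ
    (la3_two (G.ear ω).rel h1 h2 hq t4 t0 t1 t2 t3)) (by norm_num)
  rw [← ef] at k
  exact k

end Pool.Agent.MC.LL
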