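import Mathlib

/-! Short disjoint chains in expanding graphs. -/

open Set Function

noncomputable section

namespace Pool.Agent.MC.LL

theorem lg3_grow (a : ℕ → ℕ) {g K : ℕ} (hg : 0 < g) (h0 : 1 ≤ a 0)
    (h : ∀ i < K, (g + 1) * a i ≤ g * a (i + 1)) (j : ℕ) (hj : g * j ≤ K) : 2 ^ j ≤ a (g * j) := by
  have key : ∀ n i, n + i ≤ K → (g + i) * a n ≤ g * a (n + i) := fun n i => by
    induction i with
    | zero => simp
    | succ i ih =>
      intro hi
      have h1 := ih (by omega)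
      have h2 : a n ≤ a (n + i) :=
        Nat.le_of_mul_le_mul_left ((Nat.mul_le_mul_right _ (Nat.le_add_right g i)).trans h1) hg
      refine le_trans ?_ (h (n + i) (by omega))
      rw [← add_assoc, add_one_mul, add_one_mul]
      omega
  induction j with
  | zero => simpa using h0
  | succ j ih =>
    rw [mul_add_one] at hj ⊢
    have h1 := key (g * j) g hj
    have h2 := ih (by omega)
    refine Nat.le_of_mul_le_mul_left (le_trans ?_ h1) hg
    rw [pow_succ, ← two_mul, mul_comm 2 g, mul_assoc, mul_comm (2 ^ j)]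
    exact Nat.mul_le_mul_left _ (Nat.mul_le_mul_left _ h2)

/-- A matching with one hole is completed by changing few points. -/
theorem lg3_aug {L R : Type} [Finite L] [Finite R] (N : L → R → Prop) {g : ℕ} (hg : 0 < g)
    (hex : ∀ X : Set L, (g + 1) * X.ncard ≤ g * {r | ∃ x ∈ X, N x r}.ncard)
    (m : L → R) (c : L) (h1 : InjOn m {c}ᶜ) (h2 : ∀ x ≠ c, N x (m x)) :
    ∃ m' : L → R, Injective m' ∧ (∀ x, N x (m' x)) ∧
      {x | m' x ≠ m x}.ncard ≤ g * (Nat.log 2 (Nat.card R) + 1) := by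
  classical
  obtain ⟨X, X0, X1⟩ : ∃ X : ℕ → Set L, X 0 = {c} ∧
      ∀ i, X (i + 1) = X i ∪ {y | ∃ x ∈ X i, N x (m y)} :=
    ⟨fun i => (fun Y => Y ∪ {y | ∃ x ∈ Y, N x (m y)})^[i] {c}, rfl,
      fun i => iterate_succ_apply' _ _ _⟩
  have key : ∀ i, ∀ x ∈ X i, ∃ (π : Equiv.Perm L) (F : Set L), π x = c ∧
      (∀ z ≠ x, N z (m (π z))) ∧ x ∈ F ∧ F ⊆ X i ∧ F.ncard ≤ i + 1 ∧ ∀ z, z ∉ F → π z = z := by
    intro i
    induction i with
    | zero =>
      intro x hx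
      obtain rfl : x = c := by simpa [X0] using hx
      exact ⟨1, {x}, rfl, h2, rfl, X0.ge, by simp, fun _ _ => rfl⟩
    | succ i ih =>
      intro y hy
      have hs : X i ⊆ X (i + 1) := X1 i ▸ subset_union_left
      by_cases h : y ∈ X i
      · obtain ⟨π, F, a1, a2, a3, a4, a5, a6⟩ := ih y h
        exact ⟨π, F, a1, a2, a3, a4.trans hs, by omega, a6⟩
      · obtain ⟨x, hx, hN⟩ := ((X1 i).le hy).resolve_left h
        obtain ⟨π, F, a1, a2, a3, a4, a5, a6⟩ := ih x hx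
        refine ⟨π * Equiv.swap x y, insert y F, by simp [a1], fun z hz => ?_, mem_insert _ _,
          insert_subset hy (a4.trans hs), (Set.ncard_insert_le _ _).trans (by omega),
          fun z hz => ?_⟩
        · by_cases e : z = x
          · simpa [e, a6 y fun c => h (a4 c)] using hN
          · simpa [Equiv.swap_apply_of_ne_of_ne e hz] using a2 z e
        · rw [Equiv.Perm.mul_apply, Equiv.swap_apply_of_ne_of_ne
            (fun e : z = x => hz (mem_insert_of_mem _ (e ▸ a3))) fun e : z = y => hz (.inl e)]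
          exact a6 z fun c => hz (mem_insert_of_mem _ c)
  by_cases h : ∃ i < g * (Nat.log 2 (Nat.card R) + 1), ∃ x ∈ X i, ∃ r, N x r ∧ r ∉ m '' {c}ᶜ
  · obtain ⟨i, hi, x, hx, r, hr, hm⟩ := h
    obtain ⟨π, F, a1, a2, a3, -, a5, a6⟩ := key i x hx
    have b : ∀ z ≠ x, π z ∈ ({c}ᶜ : Set L) := fun z hz e => hz (π.injective (e.trans a1.symm))
    refine ⟨fun z => if z = x then r else m (π z), fun z w e => ?_, fun z => ?_,
      le_trans (Set.ncard_le_ncard fun z hz => by_contra fun hF => hz ?_) (a5.trans hi)⟩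
    · beta_reduce at e
      split_ifs at e with e1 e2 e2
      · exact e1.trans e2.symm
      · exact absurd ⟨_, b w e2, e.symm⟩ hm
      · exact absurd ⟨_, b z e1, e⟩ hm
      · exact π.injective (h1 (b z e1) (b w e2) e)
    · beta_reduce
      split_ifs with e
      · exact e ▸ hr
      · exact a2 z e
    · beta_reduce
      rw [if_neg fun e : z = x => hF (e ▸ a3), a6 z hF]
  · exfalso
    have h3 := lg3_grow (fun i => (X i).ncard) hg (by simp [X0]) (fun i hi => (hex _).trans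
      (Nat.mul_le_mul_left _ ((Set.ncard_le_ncard (t := m '' X (i + 1)) fun r hr => by
        obtain ⟨x, hx, hr⟩ := hr
        obtain ⟨y, -, rfl⟩ : r ∈ m '' {c}ᶜ := by_contra fun e => h ⟨i, hi, x, hx, r, hr, e⟩
        exact ⟨y, (X1 i).ge (.inr ⟨x, hx, hr⟩), rfl⟩).trans (Set.ncard_image_le)))) _ le_rfl
    have h4 := (Nat.mul_le_mul_right _ (Nat.le_succ g)).trans ((hex (X (g * (Nat.log 2
      (Nat.card R) + 1)))).trans (Nat.mul_le_mul_left _ (Set.ncard_le_card _)))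
    exact (Nat.lt_pow_succ_log_self one_lt_two (Nat.card R)).not_ge
      (h3.trans (Nat.le_of_mul_le_mul_left h4 hg))

theorem lg3_exp {V C : Type} [Finite V] [Finite C] (adj : V → V → Prop) (Tg : Set V) {h : ℕ}
    (h1 : 1 ≤ h) (hex : ∀ B : Set V, Disjoint B Tg →
      B.ncard ≤ h * {v | v ∉ B ∧ ∃ b ∈ B, adj b v}.ncard)
    (S : C → Set V) (hS : Pairwise fun c c' => Disjoint (S c) (S c'))
    (hc : ∀ c, 4 * h + 2 ≤ (S c).ncard) (N : {v // v ∉ Tg} ⊕ C → V → Prop)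
    (N1 : ∀ v w, N (.inl v) w ↔ w = v ∨ adj v w) (N2 : ∀ c w, N (.inr c) w ↔ w ∈ S c)
    (X : Set ({v // v ∉ Tg} ⊕ C)) :
    (2 * h + 1) * X.ncard ≤ 2 * h * {r | ∃ x ∈ X, N x r}.ncard := by
  classical
  have := Fintype.ofFinite V
  have := Fintype.ofFinite C
  obtain ⟨B, hB⟩ : ∃ B : Set V, B = Subtype.val '' (Sum.inl ⁻¹' X) := ⟨_, rfl⟩
  have a1 : X.ncard ≤ B.ncard + (Sum.inr ⁻¹' X).ncard := by
    rw [hB, Set.ncard_image_of_injective _ Subtype.val_injective,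
      ← Set.ncard_image_of_injective (Sum.inl ⁻¹' X) (Sum.inl_injective (β := C)),
      ← Set.ncard_image_of_injective (Sum.inr ⁻¹' X) (Sum.inr_injective (α := {v // v ∉ Tg}))]
    exact (congrArg _ (Set.image_preimage_inl_union_image_preimage_inr X)).ge.trans
      (Set.ncard_union_le _ _)
  have a2 := hex B (Set.disjoint_left.2 (by rw [hB]; rintro _ ⟨v, -, rfl⟩; exact v.2))
  have a3 : B.ncard + {v | v ∉ B ∧ ∃ b ∈ B, adj b v}.ncard ≤ {r | ∃ x ∈ X, N x r}.ncard := by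
    rw [← Set.ncard_union_eq (Set.disjoint_left.2 fun v a b => b.1 a)]
    refine Set.ncard_le_ncard ?_
    rw [hB]
    rintro w (⟨v, hv, rfl⟩ | ⟨-, _, ⟨v, hv, rfl⟩, e⟩)
    · exact ⟨_, hv, (N1 _ _).2 (.inl rfl)⟩
    · exact ⟨_, hv, (N1 _ _).2 (.inr e)⟩
  have a4 : (Sum.inr ⁻¹' X).ncard * (4 * h + 2) ≤ {r | ∃ x ∈ X, N x r}.ncard := by
    rw [Set.ncard_eq_toFinset_card', Set.ncard_eq_toFinset_card']
    refine (Finset.card_nsmul_le_sum _ (fun c => (S c).toFinset.card) _ fun c _ =>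
      (hc c).trans_eq (Set.ncard_eq_toFinset_card' _)).trans ?_
    rw [← Finset.card_biUnion fun c _ c' _ e => Set.disjoint_toFinset.2 (hS e)]
    refine Finset.card_le_card fun w hw => ?_
    obtain ⟨c, a, b⟩ := Finset.mem_biUnion.1 hw
    rw [Set.mem_toFinset] at a b ⊢
    exact ⟨_, a, (N2 _ _).2 b⟩
  generalize {r | ∃ x ∈ X, N x r}.ncard = n at *
  generalize {v | v ∉ B ∧ ∃ b ∈ B, adj b v}.ncard = d at *
  generalize B.ncard = b at *
  generalize (Sum.inr ⁻¹' X).ncard = c at *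
  have a5 : (h + 1) * b ≤ h * n := by nlinarith
  refine Nat.le_of_mul_le_mul_left ?_ (show 0 < 2 * (h + 1) by omega)
  calc 2 * (h + 1) * ((2 * h + 1) * X.ncard) ≤ 2 * (h + 1) * ((2 * h + 1) * (b + c)) := by gcongr
    _ = 2 * (2 * h + 1) * ((h + 1) * b) + (h + 1) * (c * (4 * h + 2)) := by ring
    _ ≤ 2 * (2 * h + 1) * (h * n) + (h + h) * n := by gcongr
    _ = _ := by ring

/-- Disjoint short chains from the cells to distinct targets. -/
theorem link {V C : Type} [Finite V] [Finite C] (adj : V → V → Prop) (Tg : Set V) {h : ℕ}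
    (h1 : 1 ≤ h) (hex : ∀ B : Set V, Disjoint B Tg →
      B.ncard ≤ h * {v | v ∉ B ∧ ∃ b ∈ B, adj b v}.ncard)
    (S : C → Set V) (hS : Pairwise fun c c' => Disjoint (S c) (S c'))
    (hT : ∀ c, Disjoint (S c) Tg) (hc : ∀ c, 4 * h + 2 ≤ (S c).ncard) :
    ∃ (st : C → V) (nx : V → V) (rk : V → ℕ) (P : Set V) (en : V → V),
      (∀ c, st c ∈ S c) ∧ (∀ c, st c ∈ P) ∧ Disjoint P Tg ∧ InjOn nx P ∧
      (∀ v ∈ P, adj v (nx v) ∧ rk (nx v) < rk v ∧ en (nx v) = en v ∧ en v ∈ Tg ∧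
        (nx v ∈ P ∨ nx v ∈ Tg) ∧
        Relation.ReflTransGen (fun v w => v ∈ P ∧ w = nx v) v (en v)) ∧
      Injective (fun c => en (st c)) ∧ (∀ v, v ∉ P → en v = v) ∧
      ∀ w, {v | en v = w}.ncard ≤ 2 * h * (Nat.log 2 (Nat.card V) + 1) + 1 := by
  classical
  have := Fintype.ofFinite V
  obtain ⟨N, N1, N2⟩ : ∃ N : {v // v ∉ Tg} ⊕ C → V → Prop,
      (∀ v w, N (.inl v) w ↔ w = v ∨ adj v w) ∧ ∀ c w, N (.inr c) w ↔ w ∈ S c :=
    ⟨Sum.elim (fun v w => w = v ∨ adj v w) fun c w => w ∈ S c, fun _ _ => Iff.rfl,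
      fun _ _ => Iff.rfl⟩
  have hN := lg3_exp adj Tg h1 hex S hS hc N N1 N2
  have hg : 0 < 2 * h := by omega
  obtain ⟨μ, ⟨m1, m2⟩, m3⟩ := (measure fun μ : {v // v ∉ Tg} ⊕ C → V =>
      {v | μ (.inl v) ≠ v}.ncard).wf.has_min {μ | Injective μ ∧ ∀ x, N x (μ x)}
    ((Fintype.all_card_le_filter_rel_iff_exists_injective N).1 fun A => by
      have := Nat.le_of_mul_le_mul_left
        ((Nat.mul_le_mul_right _ (Nat.le_succ _)).trans (hN A)) hg
      rw [Set.ncard_coe_finset, Set.ncard_eq_toFinset_card'] at this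
      simpa using this)
  obtain ⟨f, f1, f2⟩ : ∃ f : V → V, (∀ v ∈ Tg, f v = v) ∧
      ∀ v (hv : v ∉ Tg), f v = μ (.inl ⟨v, hv⟩) :=
    ⟨fun v => if hv : v ∈ Tg then v else μ (.inl ⟨v, hv⟩), fun v hv => dif_pos hv,
      fun v hv => dif_neg hv⟩
  obtain ⟨st, hst⟩ : ∃ st : C → V, ∀ c, st c = μ (.inr c) := ⟨_, fun _ => rfl⟩
  have s1 : ∀ c, st c ∈ S c := fun c => hst c ▸ (N2 _ _).1 (m2 _)
  have fi : ∀ v, v ∉ Tg → ∀ w, w ∉ Tg → f v = f w → v = w := fun v hv w hw e => by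
    rw [f2 v hv, f2 w hw] at e
    simpa using m1 e
  have fb : ∀ v, f v ∉ Tg → v ∉ Tg := fun v hv e => hv ((f1 v e).symm ▸ e)
  have fs : ∀ v c, f v ∉ Tg → f v ≠ st c := fun v c hv e => by
    rw [f2 v (fb v hv), hst] at e
    simpa using m1 e
  have un : ∀ i j c c', f^[i] (st c) = f^[j] (st c') → f^[i] (st c) ∉ Tg → i = j ∧ c = c' := by
    intro i
    induction i with
    | zero =>
      rintro (_ | j) c c' e hv
      · simp only [iterate_zero_apply, hst] at e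
        simpa using m1 e
      · rw [e] at hv
        rw [iterate_succ_apply'] at e hv
        exact absurd e.symm (fs _ _ hv)
    | succ i ih =>
      rintro (_ | j) c c' e hv
      · rw [iterate_succ_apply'] at e hv
        exact absurd e (fs _ _ hv)
      · simp only [iterate_succ_apply'] at e hv
        have := ih j c c' (fi _ (fb _ hv) _ (fb _ (e ▸ hv)) e) (fb _ hv)
        exact ⟨congrArg _ this.1, this.2⟩
  have fx : ∀ n m v, f^[n] v ∈ Tg → f^[m + n] v = f^[n] v := fun n m v hv => by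
    rw [iterate_add_apply, iterate_fixed (f1 _ hv)]
  obtain ⟨P, hP⟩ : ∃ P : Set V, ∀ v, v ∈ P ↔ v ∉ Tg ∧ ∃ c i, f^[i] (st c) = v :=
    ⟨{v | _}, fun _ => Iff.rfl⟩
  obtain ⟨rk, hrk⟩ : ∃ rk : V → ℕ, ∀ v, rk v = sInf {n | f^[n] v ∈ Tg} := ⟨_, fun _ => rfl⟩
  have r1 : ∀ v ∈ P, ∃ k, rk v = k + 1 ∧ f^[k + 1] v ∈ Tg ∧ f^[k] v ∉ Tg := fun v hv => by
    obtain ⟨h0, c, i, rfl⟩ := (hP v).1 hv
    obtain ⟨n, hn⟩ : ∃ n, f^[n] (st c) ∈ Tg := by
      by_contra hn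
      exact not_injective_infinite_finite (fun n => f^[n] (st c))
        fun a b e => (un a b c c e fun e' => hn ⟨a, e'⟩).1
    have h2 : rk (f^[i] (st c)) ∈ {n | f^[n] (f^[i] (st c)) ∈ Tg} := hrk _ ▸ Nat.sInf_mem
      ⟨n, by rw [mem_ofPred_eq, ← iterate_add_apply, add_comm, fx n i _ hn]; exact hn⟩
    rcases hk : rk (f^[i] (st c)) with _ | k
    · exact absurd (hk ▸ h2 :) h0
    · exact ⟨k, rfl, (hk ▸ h2 :), Nat.notMem_of_lt_sInf (s := {n | f^[n] (f^[i] (st c)) ∈ Tg})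
        (by rw [← hrk, hk]; exact k.lt_succ_self)⟩
  obtain ⟨en, e1, e2⟩ : ∃ en : V → V, (∀ v ∈ P, en v = f^[rk v] v) ∧ ∀ v, v ∉ P → en v = v :=
    ⟨fun v => if v ∈ P then f^[rk v] v else v, fun v hv => if_pos hv, fun v hv => if_neg hv⟩
  have p1 : ∀ v ∈ P, f v ∈ P ∨ f v ∈ Tg := fun v hv => by
    obtain ⟨-, c, i, rfl⟩ := (hP v).1 hv
    exact (em _).symm.imp_left fun e => (hP _).2 ⟨e, c, i + 1, iterate_succ_apply' _ _ _⟩
  have p2 : ∀ v ∈ P, rk (f v) < rk v := fun v hv => by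
    obtain ⟨k, a, b, -⟩ := r1 v hv
    rw [a, hrk]
    exact Nat.lt_succ_of_le (Nat.sInf_le b)
  have p3 : ∀ v ∈ P, en v ∈ Tg := fun v hv => by
    obtain ⟨k, a, b, -⟩ := r1 v hv
    rwa [e1 v hv, a]
  have p4 : ∀ v ∈ P, en (f v) = en v := fun v hv => by
    obtain ⟨k, a, b, -⟩ := r1 v hv
    rw [e1 v hv, a]
    rcases p1 v hv with c | c
    · have := p3 _ c
      rw [e1 _ c] at this ⊢
      rw [← fx _ k _ this, add_comm, fx k _ _ b, iterate_succ_apply]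
    · rw [e2 _ fun e => ((hP _).1 e).1 c, iterate_succ_apply, iterate_fixed (f1 _ c)]
  have p5 : ∀ v ∈ P, f v ≠ v := fun v hv e => (p2 v hv).ne (congrArg rk e)
  have p6 : ∀ c, st c ∈ P := fun c => (hP _).2 ⟨Set.disjoint_left.1 (hT c) (s1 c), c, 0, rfl⟩
  have p7 : ∀ i j c c', f^[i] (st c) ∈ P → f^[j] (st c') ∈ P →
      en (f^[i] (st c)) = en (f^[j] (st c')) → c = c' := fun i j c c' hv hw e => by
    obtain ⟨k, a, -, b⟩ := r1 _ hv
    obtain ⟨k', a', -, b'⟩ := r1 _ hw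
    rw [e1 _ hv, e1 _ hw, a, a', iterate_succ_apply', iterate_succ_apply'] at e
    have := fi _ b _ b' e
    simp only [← iterate_add_apply] at this b
    exact (un _ _ _ _ this b).2
  have p8 : ∀ c, {v | v ∉ Tg ∧ ∃ i, f^[i] (st c) = v}.ncard ≤
      2 * h * (Nat.log 2 (Nat.card V) + 1) := fun c => by
    obtain ⟨F, hF⟩ : ∃ F, F = {v | v ∉ Tg ∧ ∃ i, f^[i] (st c) = v} := ⟨_, rfl⟩
    rw [← hF]
    obtain ⟨m, a1, a2⟩ : ∃ m : {v // v ∉ Tg} ⊕ C → V,
        (∀ v : {v // v ∉ Tg}, v.1 ∈ F → m (.inl v) = v) ∧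
        ∀ x, (¬ ∃ v, v.1 ∈ F ∧ x = .inl v) → m x = μ x :=
      ⟨Sum.elim (fun v => if v.1 ∈ F then v.1 else μ (.inl v)) fun c => μ (.inr c),
        fun v hv => if_pos hv, fun x hx => by
          rcases x with v | c
          · exact if_neg fun e => hx ⟨v, e, rfl⟩
          · rfl⟩
    have a3 : ∀ x ≠ .inr c, μ x ∈ F → ∃ v, v.1 ∈ F ∧ x = .inl v := fun x hx e => by
      rw [hF] at e ⊢
      obtain ⟨a, _ | i, b⟩ := e
      · exact absurd (m1 ((hst c).symm.trans b)).symm hx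
      · rw [iterate_succ_apply'] at b
        have d := fb _ (b ▸ a)
        exact ⟨⟨_, d⟩, ⟨d, i, rfl⟩, m1 (b.symm.trans (f2 _ d))⟩
    obtain ⟨m', b1, b2, b3⟩ := lg3_aug N hg hN m (.inr c) (fun x hx y hy e => by
      by_cases c1 : ∃ v, v.1 ∈ F ∧ x = .inl v <;> by_cases c2 : ∃ v, v.1 ∈ F ∧ y = .inl v
      · obtain ⟨v, hv, rfl⟩ := c1
        obtain ⟨w, hw, rfl⟩ := c2
        rw [a1 v hv, a1 w hw] at e
        rw [Subtype.ext e]
      · obtain ⟨v, hv, rfl⟩ := c1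
        rw [a1 v hv, a2 y c2] at e
        exact absurd (a3 y hy (e ▸ hv)) c2
      · obtain ⟨v, hv, rfl⟩ := c2
        rw [a1 v hv, a2 x c1] at e
        exact absurd (a3 x hx (e ▸ hv)) c1
      · rw [a2 x c1, a2 y c2] at e
        exact m1 e) fun x _ => by
      by_cases c1 : ∃ v, v.1 ∈ F ∧ x = .inl v
      · obtain ⟨v, hv, rfl⟩ := c1
        exact (N1 _ _).2 (.inl (a1 v hv))
      · exact a2 x c1 ▸ m2 x
    have b4 : {v | μ (.inl v) ≠ v}.ncard ≤ {v | m' (.inl v) ≠ v}.ncard := not_lt.1 (m3 m' ⟨b1, b2⟩)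
    have b5 : Subtype.val ⁻¹' F ⊆ {v : {v // v ∉ Tg} | μ (.inl v) ≠ v} := fun v hv => by
      rw [hF] at hv
      exact (f2 _ v.2).symm.trans_ne (p5 v ((hP _).2 ⟨v.2, c, hv.2⟩))
    have b6 : {v : {v // v ∉ Tg} | m' (.inl v) ≠ v} ⊆
        ({v | μ (.inl v) ≠ v} \ Subtype.val ⁻¹' F) ∪ Sum.inl ⁻¹' {x | m' x ≠ m x} := fun v hv => by
      refine (em (m' (.inl v) = m (.inl v))).imp_left fun e => ?_
      have hv : m (.inl v) ≠ v := e ▸ hv
      have d : v.1 ∉ F := fun d => hv (a1 v d)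
      exact ⟨(a2 (.inl v) fun ⟨w, a, b⟩ => d (Sum.inl.inj b ▸ a)).symm.trans_ne hv, d⟩
    have b7 := (Set.ncard_le_ncard b6).trans (Set.ncard_union_le _ _)
    have b8 := Set.ncard_sdiff_add_ncard_of_subset b5
    have b9 : (Sum.inl ⁻¹' {x | m' x ≠ m x}).ncard ≤ {x | m' x ≠ m x}.ncard :=
      Set.ncard_le_ncard_of_injOn Sum.inl (fun _ => id) Sum.inl_injective.injOn
    have b0 : (Subtype.val ⁻¹' F : Set {v // v ∉ Tg}).ncard = F.ncard :=
      Set.ncard_preimage_of_injective_subset_range Subtype.val_injective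
        fun v hv => ⟨⟨v, (hF ▸ hv :).1⟩, rfl⟩
    omega
  refine ⟨st, f, rk, P, en, s1, p6, Set.disjoint_left.2 fun v hv => ((hP v).1 hv).1,
    fun v hv w hw => fi v ((hP v).1 hv).1 w ((hP w).1 hw).1, fun v hv => ⟨?_, p2 v hv, p4 v hv,
      p3 v hv, p1 v hv, ?_⟩, fun c c' => p7 0 0 c c' (p6 c) (p6 c'), e2, fun w => ?_⟩
  · have := (N1 _ _).1 (m2 (.inl ⟨v, ((hP v).1 hv).1⟩))
    rw [← f2] at this
    exact this.resolve_left (p5 v hv)
  · induction hn : rk v using Nat.strong_induction_on generalizing v with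
    | _ n ih =>
    rw [← p4 v hv]
    by_cases c : f v ∈ P
    · exact .head ⟨hv, rfl⟩ (ih _ (hn ▸ p2 v hv) _ c rfl)
    · rw [e2 _ c]
      exact .single ⟨hv, rfl⟩
  · by_cases hw : ∃ v ∈ P, en v = w
    · obtain ⟨v, hv, rfl⟩ := hw
      obtain ⟨-, c, i, rfl⟩ := (hP v).1 hv
      refine (Set.ncard_le_ncard fun u hu => ?_).trans ((Set.ncard_insert_le
        (en (f^[i] (st c))) _).trans (Nat.succ_le_succ (p8 c)))
      by_cases hu' : u ∈ P
      · obtain ⟨a, c', j, rfl⟩ := (hP u).1 hu'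
        obtain rfl := p7 _ _ _ _ hu' hv hu
        exact .inr ⟨a, j, rfl⟩
      · exact .inl ((e2 u hu').symm.trans hu)
    · refine (Set.ncard_le_ncard (t := {w}) fun u hu => ?_).trans (by simp)
      exact (e2 u fun c => hw ⟨u, c, hu⟩).symm.trans hu

end Pool.Agent.MC.LL
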