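import Pool.Agent.P.MP_2677b3_gt.LT2

open Equiv Function

noncomputable section

namespace Pool.Agent.MC.LL

variable {D : Type} [Finite D]

theorem lt3_inv {p : Perm D} {A : Set D} {d : D} (h : d ∉ A) : (ret p A)⁻¹ d = d :=
  Perm.inv_eq_iff_eq.2 (ret_not h).symm

omit [Finite D] in
theorem lt3_succ (p : Perm D) (k : ℕ) (d : D) : (p ^ (k + 1)) d = p ((p ^ k) d) := by
  rw [pow_succ', Perm.mul_apply]

/-- Splitting the points of `U` off their cycles. -/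
theorem run (r : Perm D) (U : Set D) (h : ∀ d, ∃ e, e ∉ U ∧ r.SameCycle d e) :
    Tree (ret r Uᶜ) (r * (ret r Uᶜ)⁻¹) ∧ (∀ u ∈ U, (r * (ret r Uᶜ)⁻¹) u = r u) ∧
    (∀ d, d ∉ U → r⁻¹ d ∉ U → (r * (ret r Uᶜ)⁻¹) d = d) ∧
    ∃ (base : D → D) (m : D → ℕ), (∀ d, (r * (ret r Uᶜ)⁻¹).SameCycle d (base d)) ∧
      (∀ d, base ((r * (ret r Uᶜ)⁻¹) d) = base d) ∧ (∀ d, d ≠ base d ↔ d ∈ U) ∧
      (∀ d, base d ∉ U) ∧ ∀ d, base d = (r ^ m d) d ∧ ∀ k < m d, (r ^ k) d ∈ U := by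
  classical
  have ex : ∀ d, ∃ k : ℕ, (r ^ k) d ∉ U := fun d => by
    obtain ⟨e, he, hs⟩ := h d
    obtain ⟨k, rfl⟩ := hs.exists_nat_pow_eq
    exact ⟨k, he⟩
  have hf : ∀ u ∈ U, u ∉ Uᶜ := fun u hu k => k hu
  have hu : ∀ u ∈ U, (r * (ret r Uᶜ)⁻¹) u = r u := fun u hu => by
    rw [Perm.mul_apply, lt3_inv (hf u hu)]
  have hm : ∀ d, ∀ k < Nat.find (ex d), (r ^ k) d ∈ U := fun d k hk =>
    not_not.1 (Nat.find_min (ex d) hk)
  have he : ∀ d k, (r ^ k) d ∉ U → (∀ j < k, (r ^ j) d ∈ U) →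
      (r ^ Nat.find (ex d)) d = (r ^ k) d := fun d k h1 h2 => by
    rw [(Nat.find_eq_iff (ex d)).2 ⟨h1, fun j hj => not_not.2 (h2 j hj)⟩]
  have h0 : ∀ d, d ∉ U → (r ^ Nat.find (ex d)) d = d := fun d hd =>
    he d 0 hd fun j hj => absurd hj (Nat.not_lt_zero j)
  have h1 : ∀ d, (r * (ret r Uᶜ)⁻¹).SameCycle d ((r ^ Nat.find (ex d)) d) := fun d => by
    have : ∀ k ≤ Nat.find (ex d), (r * (ret r Uᶜ)⁻¹).SameCycle d ((r ^ k) d) := by
      intro k
      induction k with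
      | zero => exact fun _ => Perm.SameCycle.refl _ _
      | succ k ih =>
        intro hk
        rw [lt3_succ, ← hu _ (hm d k hk)]
        exact (ih (by omega)).apply_right
    exact this _ le_rfl
  have hs : ∀ w k, (r ^ (k + 1)) w ∉ U → (∀ j, 0 < j → j < k + 1 → (r ^ j) w ∈ U) →
      (r ^ Nat.find (ex (r w))) (r w) = (r ^ (k + 1)) w := fun w k h1 h2 =>
    he (r w) k (by rwa [pow_succ, Perm.mul_apply] at h1) (fun j hj => by
      have := h2 (j + 1) (by omega) (by omega)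
      rwa [pow_succ, Perm.mul_apply] at this) |>.trans (by rw [pow_succ, Perm.mul_apply])
  have h2 : ∀ d, (r ^ Nat.find (ex ((r * (ret r Uᶜ)⁻¹) d))) ((r * (ret r Uᶜ)⁻¹) d) =
      (r ^ Nat.find (ex d)) d := fun d => by
    by_cases hd : d ∈ U
    · rw [hu d hd]
      obtain ⟨k, hk⟩ : ∃ k, Nat.find (ex d) = k + 1 := Nat.exists_eq_succ_of_ne_zero fun k => by
        have := Nat.find_spec (ex d)
        rw [k] at this
        exact this hd
      rw [hk]
      exact hs d k (hk ▸ Nat.find_spec (ex d)) fun j _ hj => hm d j (hk ▸ hj)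
    · obtain ⟨w, rfl⟩ := (ret r Uᶜ).surjective d
      obtain ⟨k, k0, k1, k2, k3⟩ := ret_spec (p := r) ((ret_mem (p := r) (A := Uᶜ) w).1 hd)
      obtain ⟨k, rfl⟩ := Nat.exists_eq_succ_of_ne_zero k0.ne'
      rw [h0 _ hd, show (r * (ret r Uᶜ)⁻¹) (ret r Uᶜ w) = r w by simp, k1]
      exact hs w k k2 fun j a b => not_not.1 (k3 j a b)
  have h3 : ∀ d, d ≠ (r ^ Nat.find (ex d)) d ↔ d ∈ U := fun d =>
    ⟨fun k => not_not.1 fun hd => k (h0 d hd).symm, fun hd k => Nat.find_spec (ex d) (k ▸ hd)⟩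
  refine ⟨tree_rank _ _ (fun d => (r ^ Nat.find (ex d)) d) (fun d => if d ∈ Uᶜ then 0 else 1) h1 h2
    (fun d => by simp only [ret_mem]) (fun d hd => ?_) fun d e hd _ k => ?_, hu, fun d hd hd' => ?_,
    fun d => (r ^ Nat.find (ex d)) d, fun d => Nat.find (ex d), h1, h2, h3,
    fun d => Nat.find_spec (ex d), fun d => ⟨rfl, hm d⟩⟩
  · rw [if_pos (show _ ∈ Uᶜ from Nat.find_spec (ex d)), if_neg (hf d ((h3 d).1 hd))]
    exact one_pos
  · exact k.eq_of_left (ret_not (hf d ((h3 d).1 hd)))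
  · have : ret r Uᶜ (r⁻¹ d) = d := by
      rw [ret_eq (m := 1) hd' one_pos (by simpa using hd) fun k a b => by omega]
      simp
    rw [Perm.mul_apply, Perm.inv_eq_iff_eq.2 this.symm]
    simp

/-- Cutting cycles before all points of `T`. -/
theorem hub (C : Perm D) (T : Set D) (rt : D → ℕ)
    (h : ∀ d ∈ T, 0 < rt d ∧ (C ^ rt d) d ∈ T ∧ ∀ k, 0 < k → k < rt d → (C ^ k) d ∉ T) :
    Tree ((ret C T)⁻¹ * C) (ret C T) ∧
    (∀ d ∈ T, ∀ e, ((ret C T)⁻¹ * C).SameCycle d e ↔ ∃ k < rt d, e = (C ^ k) d) ∧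
    (∀ d ∈ T, sz ((ret C T)⁻¹ * C) d = rt d) ∧
    (∀ d ∈ T, ∀ e, C.SameCycle d e → ∃ d' ∈ T, ((ret C T)⁻¹ * C).SameCycle d' e) ∧
    ∀ e, (∀ d ∈ T, ¬ C.SameCycle d e) → ((ret C T)⁻¹ * C) e = C e := by
  have hb : ∀ d ∈ T, ret C T d = (C ^ rt d) d := fun d hd =>
    ret_eq hd (h d hd).1 (h d hd).2.1 (h d hd).2.2
  have h1 : ∀ d ∈ T, ∀ k < rt d, (((ret C T)⁻¹ * C) ^ k) d = (C ^ k) d := fun d hd k => by
    induction k with
    | zero => exact fun _ => rfl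
    | succ k ih =>
      intro hk
      rw [lt3_succ, ih (by omega), Perm.mul_apply, ← lt3_succ,
        lt3_inv ((h d hd).2.2 _ (by omega) hk)]
  have h2 : ∀ d ∈ T, ∀ k, k + 1 = rt d → (((ret C T)⁻¹ * C) ^ (k + 1)) d = d := fun d hd k hk => by
    rw [lt3_succ, h1 d hd k (by omega), Perm.mul_apply, ← lt3_succ, hk, ← hb d hd]
    simp
  have h3 : ∀ d ∈ T, ∀ e, ((ret C T)⁻¹ * C).SameCycle d e ↔ ∃ k < rt d, e = (C ^ k) d := by
    refine fun d hd e => ⟨fun k => ?_, ?_⟩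
    · obtain ⟨n, rfl⟩ := k.exists_nat_pow_eq
      clear k
      induction n with
      | zero => exact ⟨0, (h d hd).1, rfl⟩
      | succ n ih =>
        obtain ⟨k, k1, k2⟩ := ih
        rw [lt3_succ, k2, ← h1 d hd k k1, ← lt3_succ]
        rcases (Nat.succ_le_of_lt k1).lt_or_eq with a | a
        · exact ⟨_, a, h1 d hd _ a⟩
        · exact ⟨0, (h d hd).1, h2 d hd k a⟩
    · rintro ⟨k, k1, rfl⟩
      exact ⟨k, by rw [zpow_natCast, h1 d hd k k1]⟩
  obtain ⟨o, -, o1, o2, -⟩ := exists_idx (ret C T)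
  refine ⟨(cut C (ret C T) o o1 (fun d => (o2 _ _ (Perm.SameCycle.refl _ d).apply_right).symm) rt
    fun d hd => ?_).1, h3, fun d hd => ?_, fun d hd e k => ?_, fun e he => ?_⟩
  · have hT : d ∈ T := not_not.1 fun k => hd ((o1 d).eq_of_left (ret_not k))
    exact ⟨(h d hT).1, (hb d hT).symm, fun k a b => ret_not ((h d hT).2.2 k a b)⟩
  · have e1 : {e | ((ret C T)⁻¹ * C).SameCycle d e} =
        (fun k => (C ^ k) d) '' (Finset.range (rt d) : Set ℕ) := by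
      ext e
      simp only [Set.mem_ofPred_eq, h3 d hd, Set.mem_image, Finset.mem_coe, Finset.mem_range,
        @eq_comm _ e]
    have e2 : ∀ i j, i < j → j < rt d → (C ^ i) d ≠ (C ^ j) d := fun i j a b c => by
      obtain ⟨l, rfl⟩ := Nat.exists_eq_add_of_lt a
      rw [add_assoc, pow_add, Perm.mul_apply] at c
      exact (h d hd).2.2 (l + 1) (by omega) (by omega) ((C ^ i).injective c ▸ hd)
    rw [sz, e1, Set.InjOn.ncard_image, Set.ncard_coe_finset, Finset.card_range]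
    intro i hi j hj c
    rcases lt_trichotomy i j with a | a | a
    · exact (e2 i j a (Finset.mem_range.1 hj) c).elim
    · exact a
    · exact (e2 j i a (Finset.mem_range.1 hi) c.symm).elim
  · obtain ⟨n, rfl⟩ := k.exists_nat_pow_eq
    clear k
    induction n with
    | zero => exact ⟨d, hd, Perm.SameCycle.refl _ _⟩
    | succ n ih =>
      obtain ⟨d', a, b⟩ := ih
      obtain ⟨k, k1, k2⟩ := (h3 d' a _).1 b
      rw [lt3_succ, k2, ← lt3_succ]
      rcases (Nat.succ_le_of_lt k1).lt_or_eq with c | c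
      · exact ⟨d', a, (h3 d' a _).2 ⟨_, c, rfl⟩⟩
      · exact ⟨_, (show k + 1 = rt d' from c) ▸ (h d' a).2.1, Perm.SameCycle.refl _ _⟩
  · exact lt3_inv fun k => he _ k (Perm.SameCycle.refl _ e).apply_left

/-- Switch along a forest. -/
theorem fsw (r q : Perm D) (U : Set D) (rk : D → ℕ) (h1 : ∀ d, rk (q d) = rk d)
    (h2 : ∀ u ∈ U, rk (r u) < rk u) (h3 : ∀ u ∈ U, ∀ u' ∈ U, q.SameCycle u u' → u = u') :
    ∃ β : Perm D, β⁻¹ * r = ret r Uᶜ ∧ Tree (β⁻¹ * r) β ∧ Tree β q ∧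
      (∀ d, ∃ e, e ∉ U ∧ r.SameCycle d e) ∧ (∀ u ∈ U, β u = r u) ∧
      (∀ d, d ∉ U → r⁻¹ d ∉ U → β d = d) ∧
      (∀ u ∈ U, (q * β).SameCycle u (r u)) ∧
      (∀ d e, q.SameCycle d e → (q * β).SameCycle d e) ∧
      ∀ (Λ : Type) (l : D → Λ), (∀ d, l (q d) = l d) → (∀ u ∈ U, l (r u) = l u) →
        ∀ d, l ((q * β) d) = l d := by
  have h : ∀ d, ∃ e, e ∉ U ∧ r.SameCycle d e := fun d => by
    induction hn : rk d using Nat.strong_induction_on generalizing d with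
    | _ n ih =>
      by_cases hd : d ∈ U
      · obtain ⟨e, a, b⟩ := ih _ (hn ▸ h2 d hd) (r d) rfl
        exact ⟨e, a, Perm.sameCycle_apply_left.1 b⟩
      · exact ⟨d, hd, Perm.SameCycle.refl _ _⟩
  obtain ⟨t, a1, a2, base, m, b1, b2, b3, -, b5⟩ := run r U h
  have e : (r * (ret r Uᶜ)⁻¹)⁻¹ * r = ret r Uᶜ := by group
  have t' : Tree (r * (ret r Uᶜ)⁻¹) q := by
    refine (tree_rank q _ base rk b1 b2 h1 (fun d hd => ?_) fun d e a b =>
      h3 d ((b3 d).1 a) e ((b3 e).1 b)).symm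
    have : ∀ k ≤ m d, rk ((r ^ k) d) + k ≤ rk d := by
      intro k
      induction k with
      | zero => exact fun _ => le_rfl
      | succ k ih =>
        intro hk
        have := h2 _ ((b5 d).2 k hk)
        have := ih (by omega)
        rw [lt3_succ]
        omega
    have c := this _ le_rfl
    have : m d ≠ 0 := fun k => hd (by rw [(b5 d).1, k]; rfl)
    rw [← (b5 d).1] at c
    omega
  refine ⟨_, e, e.symm ▸ t, t', h, a1, a2, fun u hu => t'.left ?_, fun d e => t'.right,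
    fun Λ l c1 c2 d => ?_⟩
  · exact a1 u hu ▸ (Perm.SameCycle.refl _ u).apply_right
  · have : ∀ d, l (base d) = l d := fun d => by
      have : ∀ k ≤ m d, l ((r ^ k) d) = l d := by
        intro k
        induction k with
        | zero => exact fun _ => rfl
        | succ k ih => exact fun hk => by rw [lt3_succ, c2 _ ((b5 d).2 k hk), ih (by omega)]
      rw [(b5 d).1, this _ le_rfl]
    rw [Perm.mul_apply, c1, ← this, b2, this]

end Pool.Agent.MC.LL
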