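import Pool.Agent.P.MP_2677b3_gt.LT1

open Equiv Function

noncomputable section

namespace Pool.Agent.MC.LL

variable {D I : Type} [Finite D] {σ τ : Perm D} {F F' : Set D} {T T' : Set I} {a b : I → D}

omit [Finite D] in
theorem lt9b_app (σ : Perm D) (d : D) : σ (σ⁻¹ d) = d := σ.apply_symm_apply d

theorem lt9b_mem (h : ∀ d, σ d ∈ F ↔ d ∈ F) {d e : D} (hs : σ.SameCycle d e) (hd : d ∈ F) :
    e ∈ F := (sc_lab (fun u => u ∈ F) (fun u => propext (h u)) hs) ▸ hd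

omit [Finite D] in
theorem lt9b_inv {D' : Type} {σ' : Perm D'} (ι : D → D') (h : ∀ d, σ d ∈ F ↔ d ∈ F)
    (h1 : ∀ d ∈ F, σ' (ι d) = ι (σ d)) (u : D') : σ' u ∈ ι '' F ↔ u ∈ ι '' F := by
  constructor
  · rintro ⟨d, hd, e⟩
    have h2 : σ⁻¹ d ∈ F := by rw [← h, lt9b_app]; exact hd
    refine ⟨_, h2, σ'.injective ?_⟩
    rw [h1 _ h2, lt9b_app, e]
  · rintro ⟨d, hd, rfl⟩
    exact ⟨_, (h d).2 hd, (h1 d hd).symm⟩

theorem Mat.empty : Mat σ τ ∅ ∅ a b :=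
  ⟨fun _ => Iff.rfl, fun _ => Iff.rfl, fun _ h => h.elim, fun _ h => h.elim, fun _ h => h.elim,
    fun _ h => h.elim, fun _ h => h.elim, fun _ h => h.elim⟩
theorem Mat.swap (h : Mat σ τ F T a b) : Mat τ σ F T b a :=
  ⟨h.iτ, h.iσ, fun i hi => (h.mem i hi).symm, fun i hi => (h.eq i hi).symm, h.exb, h.exa, h.unb,
    h.una⟩
theorem Mat.inv (h : Mat σ τ F T a b) : Mat σ⁻¹ τ⁻¹ F T a b := by
  refine ⟨fun d => ?_, fun d => ?_, h.mem, fun i hi => by rw [sz_inv, sz_inv, h.eq i hi],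
    ?_, ?_, ?_, ?_⟩
  · rw [← h.iσ, lt9b_app]
  · rw [← h.iτ, lt9b_app]
  · simpa only [Perm.sameCycle_inv] using h.exa
  · simpa only [Perm.sameCycle_inv] using h.exb
  · simpa only [Perm.sameCycle_inv] using h.una
  · simpa only [Perm.sameCycle_inv] using h.unb
theorem Mat.union (h : Mat σ τ F T a b) (h' : Mat σ τ F' T' a b) (hd : Disjoint F F') :
    Mat σ τ (F ∪ F') (T ∪ T') a b := by
  refine ⟨fun d => or_congr (h.iσ d) (h'.iσ d), fun d => or_congr (h.iτ d) (h'.iτ d), ?_, ?_, ?_,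
    ?_, ?_, ?_⟩
  · rintro i (hi | hi)
    · exact ⟨Or.inl (h.mem i hi).1, Or.inl (h.mem i hi).2⟩
    · exact ⟨Or.inr (h'.mem i hi).1, Or.inr (h'.mem i hi).2⟩
  · rintro i (hi | hi)
    · exact h.eq i hi
    · exact h'.eq i hi
  · rintro d (hd' | hd')
    · exact (h.exa d hd').imp fun i hi => ⟨Or.inl hi.1, hi.2⟩
    · exact (h'.exa d hd').imp fun i hi => ⟨Or.inr hi.1, hi.2⟩
  · rintro d (hd' | hd')
    · exact (h.exb d hd').imp fun i hi => ⟨Or.inl hi.1, hi.2⟩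
    · exact (h'.exb d hd').imp fun i hi => ⟨Or.inr hi.1, hi.2⟩
  · rintro i (hi | hi) j (hj | hj) hs
    · exact h.una i hi j hj hs
    · exact (Set.disjoint_left.1 hd (lt9b_mem h.iσ hs (h.mem i hi).1) (h'.mem j hj).1).elim
    · exact (Set.disjoint_left.1 hd (h.mem j hj).1 (lt9b_mem h'.iσ hs (h'.mem i hi).1)).elim
    · exact h'.una i hi j hj hs
  · rintro i (hi | hi) j (hj | hj) hs
    · exact h.unb i hi j hj hs
    · exact (Set.disjoint_left.1 hd (lt9b_mem h.iτ hs (h.mem i hi).2) (h'.mem j hj).2).elim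
    · exact (Set.disjoint_left.1 hd (h.mem j hj).2 (lt9b_mem h'.iτ hs (h'.mem i hi).2)).elim
    · exact h'.unb i hi j hj hs
theorem Mat.congr {a' b' : I → D} (h : Mat σ τ F T a b)
    (ha : ∀ i ∈ T, σ.SameCycle (a i) (a' i)) (hb : ∀ i ∈ T, τ.SameCycle (b i) (b' i)) :
    Mat σ τ F T a' b' := by
  refine ⟨h.iσ, h.iτ, fun i hi => ⟨lt9b_mem h.iσ (ha i hi) (h.mem i hi).1,
    lt9b_mem h.iτ (hb i hi) (h.mem i hi).2⟩, fun i hi => ?_, fun d hd => ?_, fun d hd => ?_,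
    fun i hi j hj hs => ?_, fun i hi j hj hs => ?_⟩
  · rw [← sz_congr (ha i hi), ← sz_congr (hb i hi), h.eq i hi]
  · exact (h.exa d hd).imp fun i hi => ⟨hi.1, hi.2.trans (ha i hi.1)⟩
  · exact (h.exb d hd).imp fun i hi => ⟨hi.1, hi.2.trans (hb i hi.1)⟩
  · exact h.una i hi j hj (((ha i hi).trans hs).trans (ha j hj).symm)
  · exact h.unb i hi j hj (((hb i hi).trans hs).trans (hb j hj).symm)
/-- Transport along an embedding that intertwines the permutations on `F`. -/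
theorem Mat.map {D' I' : Type} [Finite D'] {σ' τ' : Perm D'} {T' : Set I'} {a' b' : I' → D'}
    (h : Mat σ τ F T a b) (ι : D → D') (hι : Injective ι) (h1 : ∀ d ∈ F, σ' (ι d) = ι (σ d))
    (h2 : ∀ d ∈ F, τ' (ι d) = ι (τ d)) (s : I' → I) (hs : Set.BijOn s T' T)
    (ha : ∀ i ∈ T', a' i = ι (a (s i))) (hb : ∀ i ∈ T', b' i = ι (b (s i))) :
    Mat σ' τ' (ι '' F) T' a' b' := by
  refine ⟨lt9b_inv ι h.iσ h1, lt9b_inv ι h.iτ h2, fun i hi => ?_, fun i hi => ?_, ?_, ?_,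
    fun i hi j hj hc => ?_, fun i hi j hj hc => ?_⟩
  · rw [ha i hi, hb i hi]
    exact ⟨⟨_, (h.mem _ (hs.mapsTo hi)).1, rfl⟩, ⟨_, (h.mem _ (hs.mapsTo hi)).2, rfl⟩⟩
  · rw [ha i hi, hb i hi, (sc_map ι hι F h.iσ h1 (h.mem _ (hs.mapsTo hi)).1).2,
      (sc_map ι hι F h.iτ h2 (h.mem _ (hs.mapsTo hi)).2).2, h.eq _ (hs.mapsTo hi)]
  · rintro _ ⟨d, hd, rfl⟩
    obtain ⟨i, hi, hc⟩ := h.exa d hd
    obtain ⟨i', hi', rfl⟩ := hs.surjOn hi
    exact ⟨i', hi', ((sc_map ι hι F h.iσ h1 hd).1 _).2 ⟨_, ha i' hi', hc⟩⟩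
  · rintro _ ⟨d, hd, rfl⟩
    obtain ⟨i, hi, hc⟩ := h.exb d hd
    obtain ⟨i', hi', rfl⟩ := hs.surjOn hi
    exact ⟨i', hi', ((sc_map ι hι F h.iτ h2 hd).1 _).2 ⟨_, hb i' hi', hc⟩⟩
  · rw [ha i hi, ha j hj] at hc
    obtain ⟨e, he, hc'⟩ := ((sc_map ι hι F h.iσ h1 (h.mem _ (hs.mapsTo hi)).1).1 _).1 hc
    rw [← hι he] at hc'
    exact hs.injOn hi hj (h.una _ (hs.mapsTo hi) _ (hs.mapsTo hj) hc')
  · rw [hb i hi, hb j hj] at hc
    obtain ⟨e, he, hc'⟩ := ((sc_map ι hι F h.iτ h2 (h.mem _ (hs.mapsTo hi)).2).1 _).1 hc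
    rw [← hι he] at hc'
    exact hs.injOn hi hj (h.unb _ (hs.mapsTo hi) _ (hs.mapsTo hj) hc')

end Pool.Agent.MC.LL
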