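import Mathlib

/-! Forests, joins and transport plans in finite multigraphs. -/

open Set Function Finset

noncomputable section

namespace Pool.Agent.MC.LL

variable {V E : Type}

open Classical in
/-- The boundary of an edge, modulo two. -/
def lg1b (s t : E → V) (e : E) : V → ZMod 2 := Pi.single (s e) 1 + Pi.single (t e) 1

theorem lg1_for (s t : E → V) [Finite E] {J : Set E} (h : LinearIndepOn (ZMod 2) (lg1b s t) J) :
    ∃ ch : E → V, InjOn ch J ∧ ∀ e, ch e = s e ∨ ch e = t e := by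
  classical
  obtain ⟨f, hf, h2⟩ := (Finset.all_card_le_biUnion_card_iff_exists_injective
    fun e : J => ({s e, t e} : Finset V)).1 fun A => by
      have h1 : LinearIndependent (ZMod 2) fun e : A => lg1b s t e.1 :=
        LinearIndependent.comp h _ Subtype.val_injective
      have h3 := linearIndependent_le_span_aux' _ h1
        ((A.biUnion fun e => ({s e, t e} : Finset V)).image
          fun v => (Pi.single v 1 : V → ZMod 2) : Finset (V → ZMod 2)) (by
          rintro _ ⟨e, rfl⟩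
          refine add_mem (Submodule.subset_span ?_) (Submodule.subset_span ?_) <;>
          · rw [Finset.coe_image]
            exact ⟨_, Finset.mem_coe.2 (Finset.mem_biUnion.2 ⟨e.1, e.2, by simp⟩), rfl⟩)
      simp only [Fintype.card_coe, Finset.coe_sort_coe] at h3
      exact h3.trans Finset.card_image_le
  refine ⟨fun e => if he : e ∈ J then f ⟨e, he⟩ else s e, fun e he e' he' hh => ?_, fun e => ?_⟩
  · simp only [dif_pos he, dif_pos he'] at hh
    exact congrArg Subtype.val (hf hh)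
  · beta_reduce
    split_ifs with he
    · simpa using h2 ⟨e, he⟩
    · exact Or.inl rfl

theorem lg1_sum (s t : E → V) (l : E →₀ ZMod 2) (v : V) :
    Finsupp.linearCombination (ZMod 2) (lg1b s t) l v =
      (({e | e ∈ l.support ∧ s e = v}.ncard + {e | e ∈ l.support ∧ t e = v}.ncard : ℕ) : ZMod 2) := by
  classical
  have h : ∀ f : E → V, {e | e ∈ l.support ∧ f e = v}.ncard = #{e ∈ l.support | f e = v} :=
    fun f => by rw [← Set.ncard_coe_finset]; congr 1; ext; simp
  have h1 : ∀ a : ZMod 2, a ≠ 0 → a = 1 := by decide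
  rw [h, h, Finsupp.linearCombination_apply, Finsupp.sum, Finset.sum_apply, Finset.card_filter,
    Finset.card_filter, ← Finset.sum_add_distrib, Nat.cast_sum]
  refine Finset.sum_congr rfl fun e he => ?_
  rw [h1 _ (Finsupp.mem_support_iff.1 he), one_smul]
  simp [lg1b, Pi.single_apply, eq_comm]

/-- An edge set without a nonempty even subset has an injective choice of ends. -/
theorem forest_ends (s t : E → V) [Finite E] (J : Set E) (h : ∀ J' ⊆ J,
    (∀ v, Even ({e | e ∈ J' ∧ s e = v}.ncard + {e | e ∈ J' ∧ t e = v}.ncard)) → J' = ∅) :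
    ∃ ch : E → V, InjOn ch J ∧ ∀ e, ch e = s e ∨ ch e = t e := by
  refine lg1_for s t (linearIndepOn_iff.2 fun l hl e => ?_)
  have := h l.support hl fun v => ZMod.natCast_eq_zero_iff_even.1
    ((lg1_sum s t l v).symm.trans (congrFun e v))
  simpa using this

/-- Joins with a prescribed set of odd nodes. -/
theorem tjoin [Finite V] [Finite E] (s t : E → V) (T : Set V)
    (h : ∀ O : Set V, (∀ e, s e ∈ O ↔ t e ∈ O) → Even (T ∩ O).ncard) :
    ∃ (J : Set E) (ch : E → V),
      (∀ v, Odd ({e | e ∈ J ∧ s e = v}.ncard + {e | e ∈ J ∧ t e = v}.ncard) ↔ v ∈ T) ∧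
      InjOn ch J ∧ ∀ e, ch e = s e ∨ ch e = t e := by
  classical
  have := Fintype.ofFinite V
  have h1 : ∀ a : ZMod 2, a ≠ 0 → a = 1 := by decide
  have hT : T.indicator 1 ∈ Submodule.span (ZMod 2) (range (lg1b s t)) := by
    by_contra hn
    obtain ⟨f, hf, h0⟩ := Submodule.exists_dual_map_eq_bot_of_notMem hn inferInstance
    have h2 := h {v | f (Pi.single v 1) = 1} fun e => by
      have : f (lg1b s t e) = 0 := (Submodule.mem_bot (ZMod 2)).1
        (h0 ▸ Submodule.mem_map_of_mem (Submodule.subset_span (mem_range_self e)))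
      rw [lg1b, map_add, ← CharTwo.sub_eq_add, sub_eq_zero] at this
      exact (show f (Pi.single (s e) 1) = f (Pi.single (t e) 1) from this).congr_left
    refine hf ?_
    rw [← ZMod.natCast_eq_zero_iff_even, Set.ncard_eq_toFinset_card', Finset.card_eq_sum_ones,
      Nat.cast_sum] at h2
    rw [← h2, pi_eq_sum_univ' (T.indicator 1), map_sum]
    refine (Finset.sum_subset (Finset.subset_univ _) fun v _ hv => ?_).symm.trans
      (Finset.sum_congr rfl fun v hv => ?_)
    · by_cases hvT : v ∈ T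
      · have : f (Pi.single v 1) = 0 := by_contra fun e => hv (by simp [hvT, h1 _ e])
        rw [map_smul, this, smul_zero]
      · simp [hvT]
    · obtain ⟨a, b⟩ : v ∈ T ∧ f (Pi.single v 1) = 1 := by simpa using hv
      simp [a, b]
  obtain ⟨B, -, -, h3, h4⟩ := exists_linearIndepOn_extension (linearIndepOn_empty (ZMod 2)
    (lg1b s t)) (Set.empty_subset univ)
  obtain ⟨l, hl, e⟩ := (Finsupp.mem_span_image_iff_linearCombination _).1
    (Submodule.span_le.2 (image_univ ▸ h3) hT)
  obtain ⟨ch, h5, h6⟩ := lg1_for s t h4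
  refine ⟨l.support, ch, fun v => ?_, h5.mono hl, h6⟩
  rw [← ZMod.natCast_eq_one_iff_odd]
  refine ((lg1_sum s t l v).symm.trans (congrFun e v)).congr_left.trans ?_
  by_cases hv : v ∈ T <;> simp [hv]

theorem lg1_pair [DecidableEq E] [DecidableEq V] (f : E → V) (J : Finset E)
    (h : ∀ v, Even #{e ∈ J | f e = v}) :
    ∃ σ : Equiv.Perm E, σ * σ = 1 ∧ (∀ e, σ e ≠ e ↔ e ∈ J) ∧ ∀ e, f (σ e) = f e := by
  induction J using Finset.strongInduction with
  | H J ih =>
  rcases J.eq_empty_or_nonempty with rfl | ⟨a, ha⟩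
  · exact ⟨1, rfl, by simp, fun _ => rfl⟩
  obtain ⟨b, hb, hba⟩ := Finset.exists_mem_ne (s := {e ∈ J | f e = f a}) (by
    have h1 := h (f a)
    have h2 : 0 < #{e ∈ J | f e = f a} := Finset.card_pos.2 ⟨a, by simp [ha]⟩
    obtain ⟨k, hk⟩ := h1
    omega) a
  obtain ⟨hb, hf⟩ := Finset.mem_filter.1 hb
  obtain ⟨σ, h1, h2, h3⟩ := ih ((J.erase a).erase b)
    ((Finset.erase_subset _ _).trans_ssubset (Finset.erase_ssubset ha)) fun v => by
      have h4 := h v
      rw [Finset.filter_erase, Finset.filter_erase]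
      by_cases e : f a = v
      · rw [Finset.card_erase_of_mem (by simp [hb, hba, hf, e]),
          Finset.card_erase_of_mem (by simp [ha, e])]
        obtain ⟨k, hk⟩ := h4
        exact ⟨k - 1, by omega⟩
      · rwa [Finset.erase_eq_of_notMem (by simp [hf, e]), Finset.erase_eq_of_notMem (by simp [e])]
  have ea : σ a = a := by_contra fun e => by simpa using (h2 a).1 e
  have eb : σ b = b := by_contra fun e => by simpa using (h2 b).1 e
  have hc : σ * Equiv.swap a b = Equiv.swap a b * σ := by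
    rw [Equiv.mul_swap_eq_swap_mul, ea, eb]
  refine ⟨σ * Equiv.swap a b, ?_, fun e => ?_, fun e => ?_⟩
  · rw [mul_assoc, ← mul_assoc (Equiv.swap a b), ← hc, mul_assoc, Equiv.swap_mul_self, mul_one, h1]
  · rw [Equiv.Perm.mul_apply, Equiv.swap_apply_def]
    split_ifs with e1 e2
    · simp [e1, eb, hba, ha]
    · simp [e2, ea, hba.symm, hb]
    · simp [h2, e1, e2]
  · rw [Equiv.Perm.mul_apply, h3, Equiv.swap_apply_def]
    split_ifs with e1 e2
    · rw [hf, e1]
    · rw [e2, hf]
    · rfl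

theorem lg1_col {σ τ : Equiv.Perm E} (hσ : σ * σ = 1) (hτ : τ * τ = 1) {J : Set E}
    (h1 : ∀ e, σ e ≠ e ↔ e ∈ J) (h2 : ∀ e, τ e ≠ e ↔ e ∈ J) {a : E} (ha : a ∈ J) :
    ∃ z : E → ℤ, (∀ e, z (σ e) = -z e ∧ z (τ e) = -z e) ∧ z a = 1 ∧ ∀ e, z e ≤ 1 := by
  classical
  have i1 : σ⁻¹ = σ := inv_eq_of_mul_eq_one_right hσ
  have i2 : τ⁻¹ = τ := inv_eq_of_mul_eq_one_right hτ
  obtain ⟨g, hg⟩ : ∃ g, g = τ * σ := ⟨_, rfl⟩
  have c0 : τ = g * σ := by rw [hg, mul_assoc, hσ, mul_one]
  have c2 : σ * τ = g⁻¹ := by rw [hg, mul_inv_rev, i1, i2]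
  have c1 : ∀ (k : ℤ) e, σ ((g ^ k) e) = (g ^ (-k)) (σ e) := fun k e => by
    have : σ * g * σ⁻¹ = g⁻¹ := by rw [i1, mul_assoc, ← c0, c2]
    rw [zpow_neg, ← inv_zpow, ← this, conj_zpow]
    simp
  have hJ : ∀ k : ℤ, (g ^ k) a ∈ J := fun k => by
    by_contra hn
    have e1 : g ((g ^ k) a) = (g ^ k) a := by
      have e2 := not_not.1 (mt (h1 _).1 hn)
      have e3 := not_not.1 (mt (h2 _).1 hn)
      rw [c0, Equiv.Perm.mul_apply, e2] at e3
      exact e3
    have := Equiv.Perm.zpow_apply_eq_self_of_apply_eq_self e1 (-k)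
    rw [← Equiv.Perm.mul_apply, ← zpow_add, neg_add_cancel, zpow_zero] at this
    exact hn (this ▸ ha)
  have hne : ¬ g.SameCycle a (σ a) := by
    rintro ⟨k, hk⟩
    rcases Int.even_or_odd' k with ⟨j, rfl | rfl⟩
    · refine (h1 _).2 (hJ j) ?_
      rw [c1, ← hk, ← Equiv.Perm.mul_apply, ← zpow_add]
      congr 2; ring
    · refine (h2 _).2 (hJ (j + 1)) ?_
      rw [c0, Equiv.Perm.mul_apply, c1, ← hk, ← Equiv.Perm.mul_apply, ← Equiv.Perm.mul_apply,
        ← zpow_one_add, ← zpow_add]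
      congr 2; ring
  refine ⟨fun e => (if g.SameCycle a e then 1 else 0) - if g.SameCycle a (σ e) then 1 else 0,
    fun e => ⟨?_, ?_⟩, by simp [hne, Equiv.Perm.SameCycle.refl], fun e => ?_⟩
  · have : σ (σ e) = e := by rw [← Equiv.Perm.mul_apply, hσ]; rfl
    simp [this]
  · have e1 : σ (τ e) = g⁻¹ e := by rw [← c2]; rfl
    have e2 : τ e = g (σ e) := by rw [c0]; rfl
    simp only [e1]
    simp [e2]
  · beta_reduce
    split_ifs <;> simp

end Pool.Agent.MC.LL
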