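import Pool.Agent.P.MP_2677b3_gt.LSt
import Pool.Agent.P.MP_2677b3_gt.LG1

/-! Transport plans and assignments of tokens. -/

open Set Function

noncomputable section

namespace Pool.Agent.MC.LL

theorem lg2_nc {E : Type} [Fintype E] (p : E → Prop) [DecidablePred p] :
    {e | p e}.ncard = (Finset.univ.filter p).card := by
  rw [← Set.ncard_coe_finset]; congr 1; ext; simp

theorem lg2_zero {E V : Type} [Fintype E] [DecidableEq V] (f : E → V) (σ : Equiv.Perm E)
    (z : E → ℤ) (h1 : ∀ e, f (σ e) = f e) (h2 : ∀ e, z (σ e) = -z e) (v : V) :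
    ∑ e with f e = v, z e = 0 := by
  have : ∑ e with f e = v, z (σ e) = ∑ e with f e = v, z e :=
    Finset.sum_equiv σ (by simp [h1]) fun _ _ => rfl
  simp only [h2, Finset.sum_neg_distrib] at this
  omega

/-- A transport plan whose support is a forest. -/
theorem plan {E V1 V2 : Type} [Finite E] (s : E → V1) (t : E → V2) :
    ∃ (y : E → ℕ) (p : E → V1 ⊕ V2),
      (∀ v, csum (fun e => s e = v) y = {e | s e = v}.ncard) ∧
      (∀ v, csum (fun e => t e = v) y = {e | t e = v}.ncard) ∧
      (∀ e, p e = .inl (s e) ∨ p e = .inr (t e)) ∧ InjOn p {e | y e ≠ 0} := by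
  classical
  have := Fintype.ofFinite E
  obtain ⟨y, ⟨hs, ht⟩, hm⟩ := (measure fun y : E → ℕ => {e | y e ≠ 0}.ncard).wf.has_min
    {y | (∀ v, csum (fun e => s e = v) y = {e | s e = v}.ncard) ∧
      ∀ v, csum (fun e => t e = v) y = {e | t e = v}.ncard}
    ⟨fun _ => 1, by constructor <;> intro v <;> rw [csum_eq, lg2_nc, Finset.card_eq_sum_ones]⟩
  obtain ⟨p, h1, h2⟩ := forest_ends (fun e => (Sum.inl (s e) : V1 ⊕ V2)) (fun e => .inr (t e))
    {e | y e ≠ 0} fun J hJ hev => by
    by_contra hne
    obtain ⟨a, ha⟩ := Set.nonempty_iff_ne_empty.2 hne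
    obtain ⟨σ, s1, s2, s3⟩ := lg1_pair s J.toFinset fun v => by
      have := hev (.inl v)
      rw [lg2_nc, lg2_nc] at this
      simpa [Finset.filter_filter, ← Set.filter_mem_univ_eq_toFinset] using this
    obtain ⟨τ, t1, t2, t3⟩ := lg1_pair t J.toFinset fun v => by
      have := hev (.inr v)
      rw [lg2_nc, lg2_nc] at this
      simpa [Finset.filter_filter, ← Set.filter_mem_univ_eq_toFinset] using this
    simp only [Set.mem_toFinset] at s2 t2
    obtain ⟨z, z1, z2, z3⟩ := lg1_col s1 t1 s2 t2 ha
    have z4 : ∀ e, y e = 0 → z e = 0 := fun e he => by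
      have h3 : σ e = e := by_contra fun h => hJ ((s2 e).1 h) he
      have := (z1 e).1
      rw [h3] at this
      omega
    obtain ⟨b, hb, hmin⟩ := Finset.exists_min_image (Finset.univ.filter fun e => z e = 1) y
      ⟨a, by simp [z2]⟩
    simp only [Finset.mem_filter, Finset.mem_univ, true_and] at hb hmin
    have hc : ∀ e, (((y e : ℤ) - y b * z e).toNat : ℤ) = y e - y b * z e := fun e => by
      refine Int.toNat_of_nonneg ?_
      rcases (z3 e).eq_or_lt with h | h
      · have := hmin e h
        rw [h]; omega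
      · have : (y b : ℤ) * z e ≤ 0 := mul_nonpos_of_nonneg_of_nonpos (by omega) (by omega)
        omega
    have key : ∀ {V : Type} (f : E → V) (ρ : Equiv.Perm E), (∀ e, f (ρ e) = f e) →
        (∀ e, z (ρ e) = -z e) → ∀ v, csum (fun e => f e = v)
          (fun e => ((y e : ℤ) - y b * z e).toNat) = csum (fun e => f e = v) y :=
      fun f ρ a1 a2 v => by
        rw [csum_eq, csum_eq]
        zify
        simp only [hc, Finset.sum_sub_distrib, ← Finset.mul_sum, lg2_zero f ρ z a1 a2 v]
        simp
    refine hm (fun e => ((y e : ℤ) - y b * z e).toNat)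
      ⟨fun v => (key s σ s3 (fun e => (z1 e).1) v).trans (hs v),
        fun v => (key t τ t3 (fun e => (z1 e).2) v).trans (ht v)⟩
      (Set.ncard_lt_ncard ⟨fun e he h0 => he (by simp [h0, z4 e h0]), fun hsub => ?_⟩)
    refine hsub (fun h0 => ?_ : y b ≠ 0) (by simp [hb])
    have := z4 b h0
    omega
  exact ⟨y, p, hs, ht, h2, h1⟩

/-- Every demand gets its own token from the same owner. -/
theorem pay {Dm Tk V : Type} [Finite Dm] [Finite Tk] (f : Dm → V) (g : Tk → V)
    (h : ∀ v, {x | f x = v}.ncard ≤ {z | g z = v}.ncard) :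
    ∃ i : Dm → Tk, Injective i ∧ ∀ x, g (i x) = f x := by
  have : ∀ v, Nonempty ({x | f x = v} ↪ {z | g z = v}) := fun v => by
    have := Fintype.ofFinite {x | f x = v}
    have := Fintype.ofFinite {z | g z = v}
    refine Function.Embedding.nonempty_of_card_le ?_
    rw [← Nat.card_eq_fintype_card, ← Nat.card_eq_fintype_card]
    exact h v
  have e := fun v => (this v).some
  have h1 : ∀ x, g (e (f x) ⟨x, rfl⟩).1 = f x := fun x => (e (f x) ⟨x, rfl⟩).2
  refine ⟨fun x => (e (f x) ⟨x, rfl⟩).1, fun x x' hx => ?_, h1⟩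
  have h2 : ∀ v (hv : f x' = v), (e (f x') ⟨x', rfl⟩).1 = (e v ⟨x', hv⟩).1 := by
    rintro _ rfl; rfl
  have h3 : f x' = f x := by rw [← h1, ← h1 x]; exact congrArg g hx.symm
  exact congrArg Subtype.val ((e _).injective (Subtype.ext (hx.trans (h2 _ h3))))

/-- Requests with amounts. -/
theorem pay_amt {Q Tk V : Type} [Finite Q] [Finite Tk] (f : Q → V) (a : Q → ℕ) (g : Tk → V)
    (h : ∀ v, csum (fun x => f x = v) a ≤ {z | g z = v}.ncard) :
    ∃ o : Tk → Option Q, (∀ z x, o z = some x → g z = f x) ∧
      ∀ x, {z | o z = some x}.ncard = a x := by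
  classical
  have := Fintype.ofFinite Q
  have hc : ∀ p : Q → Prop, {d : Σ x, Fin (a x) | p d.1}.ncard = ∑ x with p x, a x := fun p => by
    have : Finset.univ.filter (fun d : Σ x, Fin (a x) => p d.1) =
        (Finset.univ.filter p).sigma fun _ => Finset.univ := by ext; simp
    rw [lg2_nc, this, Finset.card_sigma]
    simp
  obtain ⟨i, h1, h2⟩ := pay (fun d : Σ x, Fin (a x) => f d.1) g fun v => by
    rw [hc fun x => f x = v, ← csum_eq]; exact h v
  have h3 : ∀ z x, extend i (fun d => some d.1) (fun _ => none) z = some x ↔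
      z ∈ i '' {d | d.1 = x} := fun z x => by
    by_cases hz : ∃ d, i d = z
    · obtain ⟨d, rfl⟩ := hz
      simp [h1.extend_apply, h1.eq_iff]
    · rw [extend_apply' _ _ _ hz]
      exact iff_of_false (by simp) fun ⟨d, _, hd⟩ => hz ⟨d, hd⟩
  refine ⟨extend i (fun d => some d.1) fun _ => none, fun z x hz => ?_, fun x => ?_⟩
  · obtain ⟨d, rfl, rfl⟩ := (h3 z x).1 hz
    exact h2 d
  · rw [show {z | extend i (fun d => some d.1) (fun _ => none) z = some x} = i '' {d | d.1 = x} from
      Set.ext (h3 · x), Set.ncard_image_of_injective _ h1, hc (· = x)]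
    exact Finset.sum_eq_single_of_mem x (by simp) fun b hb e => absurd (by simpa using hb) e

/-- One token per handle, with many handles for every owner. -/
theorem hall {Tok H V : Type} [Finite Tok] (own : Tok → Option V) (hd : Tok → H) {T m : ℕ}
    (hF : Ft T hd) (hT : 0 < T) (hs : Surjective hd)
    (h : ∀ v, m * T ≤ {z | own z = some v}.ncard) :
    ∃ i : H → Tok, (∀ x, hd (i x) = x) ∧ ∀ v, m ≤ {x | own (i x) = some v}.ncard := by
  classical
  have := Fintype.ofFinite Tok
  have := Finite.of_surjective hd hs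
  obtain ⟨g, g1, g2⟩ := (Finset.all_card_le_biUnion_card_iff_exists_injective
    fun a : V × Fin m => (Finset.univ.filter fun z => own z = some a.1).image hd).1 fun A => by
      have a1 : A.card ≤ m * (A.image Prod.fst).card :=
        Finset.card_le_mul_card_image A m fun v _ =>
          (Finset.card_le_card_of_injOn (t := Finset.univ) Prod.snd (by simp [MapsTo])
            fun a ha b hb e => Prod.ext ((Finset.mem_filter.1 ha).2.trans
              (Finset.mem_filter.1 hb).2.symm) e).trans (by simp)
      obtain ⟨Z, hZ⟩ : ∃ Z, Z = Finset.univ.filter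
        fun z => own z ∈ (A.image Prod.fst).image some := ⟨_, rfl⟩
      have a2 := Finset.mul_card_image_le_card_of_maps_to (f := own) (s := Z)
        (t := (A.image Prod.fst).image some) (by simp [hZ]) (m * T) fun b hb => by
          obtain ⟨v, -, rfl⟩ := Finset.mem_image.1 (id hb)
          refine (h v).trans ((lg2_nc _).trans_le (Finset.card_le_card fun z hz => ?_))
          have hz := (Finset.mem_filter.1 hz).2
          rw [hZ]
          exact Finset.mem_filter.2 ⟨Finset.mem_filter.2 ⟨Finset.mem_univ _, by rwa [hz]⟩, hz⟩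
      rw [Finset.card_image_of_injective _ (Option.some_injective _)] at a2
      have a3 := Finset.card_le_mul_card_image (f := hd) Z T fun x _ =>
        (Finset.card_le_card (Finset.filter_subset_filter _ (Finset.subset_univ _))).trans
          ((lg2_nc _).symm.trans_le (hF x))
      refine le_trans (Nat.le_of_mul_le_mul_left ?_ hT) (Finset.card_le_card
        (s := Z.image hd) fun x hx => ?_)
      · calc T * A.card ≤ T * (m * (A.image Prod.fst).card) := Nat.mul_le_mul_left _ a1
          _ = m * T * (A.image Prod.fst).card := by ring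
          _ ≤ _ := a2.trans a3
      · obtain ⟨z, hz, rfl⟩ := Finset.mem_image.1 hx
        rw [hZ] at hz
        obtain ⟨v, hv, e⟩ := Finset.mem_image.1 (Finset.mem_filter.1 hz).2
        obtain ⟨a, ha, rfl⟩ := Finset.mem_image.1 hv
        exact Finset.mem_biUnion.2 ⟨a, ha, Finset.mem_image_of_mem _ (by simp [e])⟩
  choose k k1 k2 using fun a => Finset.mem_image.1 (g2 a)
  refine ⟨extend g k (surjInv hs), fun x => ?_, fun v => ?_⟩
  · by_cases hx : ∃ a, g a = x
    · obtain ⟨a, rfl⟩ := hx
      rw [g1.extend_apply, k2]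
    · rw [extend_apply' _ _ _ hx, surjInv_eq hs]
  · refine le_trans ?_ (Set.ncard_le_ncard (s := range fun j => g (v, j)) ?_)
    · rw [Set.ncard_range_of_injective fun a b e => (Prod.mk.inj (g1 e)).2]
      simp
    · rintro _ ⟨j, rfl⟩
      simp only [mem_ofPred_eq, g1.extend_apply]
      exact (Finset.mem_filter.1 (k1 _)).2

end Pool.Agent.MC.LL
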