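import Pool.Agent.P.MP_2677b3_gt.LA2
import Pool.Agent.P.MP_2677b3_gt.LG2

/-! Wealth of cells, payments and equivalence of token states. -/

open Equiv Function

noncomputable section

namespace Pool.Agent.MC.LL

theorem lw_fib {Tok R : Type} [Finite Tok] [Finite R] (g : Tok → Option R) (P : R → Prop) :
    {τ | ∃ ρ, P ρ ∧ g τ = some ρ}.ncard = csum P fun ρ => {τ | g τ = some ρ}.ncard := by
  classical
  let _ := Fintype.ofFinite R
  let _ := Fintype.ofFinite Tok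
  rw [csum_eq]
  have h : {τ | ∃ ρ, P ρ ∧ g τ = some ρ} = ↑((Finset.univ.filter P).biUnion fun ρ =>
      Finset.univ.filter fun τ => g τ = some ρ) := by
    ext τ; simp
  rw [h, Set.ncard_coe_finset, Finset.card_biUnion]
  · refine Finset.sum_congr rfl fun ρ _ => ?_
    rw [← Set.ncard_coe_finset]; simp
  · intro ρ _ ρ' _ hne
    refine Finset.disjoint_left.2 fun τ h1 h2 => hne ?_
    simp only [Finset.mem_filter, Finset.mem_univ, true_and] at h1 h2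
    exact Option.some.inj (h1.symm.trans h2)

theorem csum_congr {R : Type} [Finite R] {P P' : R → Prop} {y y' : R → ℕ} (h : ∀ ρ, P ρ ↔ P' ρ)
    (h' : ∀ ρ, y ρ = y' ρ) : csum P y = csum P' y' := by
  rw [show P = P' from funext fun ρ => propext (h ρ), show y = y' from funext h']

theorem csum_none {R : Type} [Finite R] {P : R → Prop} (y : R → ℕ) (h : ∀ ρ, ¬ P ρ) :
    csum P y = 0 := by
  classical
  let _ := Fintype.ofFinite R
  rw [csum_eq]
  exact Finset.sum_eq_zero fun ρ hρ => absurd (Finset.mem_filter.1 hρ).2 (h ρ)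

theorem pay_abs {Tok O R : Type} [Finite Tok] [Finite R] (own : Tok → O) (src : R → O)
    (amt : R → ℕ) (keep : O → ℕ)
    (h : ∀ o, keep o + csum (fun ρ => src ρ = o) amt ≤ {τ | own τ = o}.ncard) :
    ∃ g : Tok → Option R, (∀ τ ρ, g τ = some ρ → own τ = src ρ) ∧
      (∀ ρ, amt ρ ≤ {τ | g τ = some ρ}.ncard) ∧
      ∀ o, keep o ≤ {τ | own τ = o ∧ g τ = none}.ncard := by
  obtain ⟨g, h1, h2⟩ := pay_amt src amt own fun o => (Nat.le_add_left _ _).trans (h o)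
  refine ⟨g, h1, fun ρ => (h2 ρ).ge, fun o => ?_⟩
  have e1 := lw_fib g fun ρ => src ρ = o
  rw [csum_congr (fun _ => Iff.rfl) h2] at e1
  have e2 : {τ | own τ = o}.ncard ≤ {τ | own τ = o ∧ g τ = none}.ncard +
      {τ | ∃ ρ, src ρ = o ∧ g τ = some ρ}.ncard := by
    refine (Set.ncard_le_ncard (fun τ hτ => ?_) (Set.toFinite _)).trans (Set.ncard_union_le _ _)
    rcases hg : g τ with _ | ρ
    · exact Or.inl ⟨hτ, hg⟩
    · exact Or.inr ⟨ρ, (h1 τ ρ hg).symm.trans hτ, hg⟩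
  have := h o
  omega

variable {Tok : Type} [Finite Tok]

theorem lw_own (G : P4) (κ κ' : Fin 5) (d d' : G.D) :
    (κ', {e | (G.y κ').SameCycle d' e}) = (κ, {e | (G.y κ).SameCycle d e}) ↔
      κ' = κ ∧ (G.y κ).SameCycle d' d := by
  constructor
  · intro h
    obtain ⟨rfl, h2⟩ := Prod.mk.inj h
    have : d ∈ {e | (G.y κ').SameCycle d' e} := h2 ▸ Perm.SameCycle.refl _ _
    exact ⟨rfl, this⟩
  · rintro ⟨rfl, h⟩
    congr 1
    ext e
    exact ⟨fun h' => h.symm.trans h', fun h' => h.trans h'⟩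

/-- Redistribution of tokens along requests. -/
theorem pay_ts (S : TS Tok) {R : Type} [Finite R] (sc tc : R → Fin 5) (sd td : R → S.G.D)
    (amt : R → ℕ) (keep : Fin 5 → S.G.D → ℕ) (hn : ∀ ρ, Nr S.G.y 9 (sd ρ) (td ρ))
    (hk : ∀ κ d e, (S.G.y κ).SameCycle d e → keep κ d = keep κ e)
    (h : ∀ κ d, keep κ d + csum (fun ρ => sc ρ = κ ∧ (S.G.y κ).SameCycle (sd ρ) d) amt ≤
      S.W κ d) :
    ∃ (pos' : Tok → S.G.D) (tag' : Tok → Fin 5) (g : Tok → Option R),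
      (∀ τ, Nr S.G.y 10 (S.pos τ) (pos' τ)) ∧
      (∀ τ, g τ = none → pos' τ = S.pos τ ∧ tag' τ = S.tag τ) ∧
      (∀ τ ρ, g τ = some ρ → pos' τ = td ρ ∧ tag' τ = tc ρ ∧ S.tag τ = sc ρ) ∧
      (∀ ρ, amt ρ ≤ {τ | g τ = some ρ}.ncard) ∧
      (∀ κ d, keep κ d ≤
        {τ | g τ = none ∧ S.tag τ = κ ∧ (S.G.y κ).SameCycle (S.pos τ) d}.ncard) ∧
      (∀ κ d, keep κ d + csum (fun ρ => tc ρ = κ ∧ (S.G.y κ).SameCycle (td ρ) d) amt ≤
        TS.W ⟨S.G, pos', tag'⟩ κ d) ∧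
      ∀ κ d, csum (fun ρ => tc ρ = κ ∧ td ρ = d) amt ≤ TS.Pt ⟨S.G, pos', tag'⟩ κ d := by
  have _ := hk
  obtain ⟨g, h1, h2⟩ := pay_amt (fun ρ => (sc ρ, {e | (S.G.y (sc ρ)).SameCycle (sd ρ) e})) amt
    (fun τ => (S.tag τ, {e | (S.G.y (S.tag τ)).SameCycle (S.pos τ) e})) (fun v => by
      by_cases hv : ∃ κ d, v = (κ, {e | (S.G.y κ).SameCycle d e})
      · obtain ⟨κ, d, rfl⟩ := hv
        simp only [lw_own]
        exact (Nat.le_add_left _ _).trans (h κ d)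
      · rw [csum_none _ fun ρ hρ => hv ⟨_, _, hρ.symm⟩]
        exact Nat.zero_le _)
  simp only [lw_own] at h1
  have hkeep : ∀ κ d, keep κ d ≤
      {τ | g τ = none ∧ S.tag τ = κ ∧ (S.G.y κ).SameCycle (S.pos τ) d}.ncard := by
    intro κ d
    have e1 := lw_fib g fun ρ => sc ρ = κ ∧ (S.G.y κ).SameCycle (sd ρ) d
    rw [csum_congr (fun _ => Iff.rfl) h2] at e1
    have e2 : S.W κ d ≤ {τ | g τ = none ∧ S.tag τ = κ ∧ (S.G.y κ).SameCycle (S.pos τ) d}.ncard +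
        {τ | ∃ ρ, (sc ρ = κ ∧ (S.G.y κ).SameCycle (sd ρ) d) ∧ g τ = some ρ}.ncard := by
      refine (Set.ncard_le_ncard (fun τ hτ => ?_) (Set.toFinite _)).trans (Set.ncard_union_le _ _)
      rcases hg : g τ with _ | ρ
      · exact Or.inl ⟨hg, hτ⟩
      · obtain ⟨k1, k2⟩ := h1 τ ρ hg
        obtain ⟨k3, k4⟩ := hτ
        obtain rfl : sc ρ = κ := k1.symm.trans k3
        exact Or.inr ⟨ρ, ⟨rfl, k2.symm.trans k4⟩, hg⟩
    have := h κ d
    omega
  refine ⟨fun τ => (g τ).elim (S.pos τ) td, fun τ => (g τ).elim (S.tag τ) tc, g, fun τ => ?_,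
    fun τ hg => by simp [hg], fun τ ρ hg => by simp [hg, (h1 τ ρ hg).1], fun ρ => (h2 ρ).ge, hkeep,
    fun κ d => ?_, fun κ d => ?_⟩
  · rcases hg : g τ with _ | ρ
    · simpa [hg] using Nr.refl 10 _
    · simpa [hg] using (Nr.one (h1 τ ρ hg).2).trans (hn ρ)
  · have e1 := lw_fib g fun ρ => tc ρ = κ ∧ (S.G.y κ).SameCycle (td ρ) d
    rw [csum_congr (fun _ => Iff.rfl) h2] at e1
    rw [← e1]
    refine (Nat.add_le_add_right (hkeep κ d) _).trans ?_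
    rw [← Set.ncard_union_eq (Set.disjoint_left.2 ?_)]
    · refine Set.ncard_le_ncard (fun τ hτ => ?_) (Set.toFinite _)
      rcases hτ with ⟨k1, k2⟩ | ⟨ρ, k1, k2⟩
      · simpa [k1] using k2
      · simpa [k2] using k1
    · rintro τ ⟨k1, -⟩ ⟨ρ, -, k2⟩
      simp [k1] at k2
  · have e1 := lw_fib g fun ρ => tc ρ = κ ∧ td ρ = d
    rw [csum_congr (fun _ => Iff.rfl) h2] at e1
    rw [← e1]
    refine Set.ncard_le_ncard (fun τ hτ => ?_) (Set.toFinite _)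
    obtain ⟨ρ, k1, k2⟩ := hτ
    simpa [k2] using k1

theorem W_mono {S S' : TS Tok} {κ κ' : Fin 5} {d : S.G.D} {d' : S'.G.D}
    (h : ∀ τ, S.tag τ = κ → (S.G.y κ).SameCycle (S.pos τ) d →
      S'.tag τ = κ' ∧ (S'.G.y κ').SameCycle (S'.pos τ) d') : S.W κ d ≤ S'.W κ' d' :=
  Set.ncard_le_ncard (fun τ hτ => h τ hτ.1 hτ.2) (Set.toFinite _)

theorem W_congr {S : TS Tok} {κ : Fin 5} {d e : S.G.D} (h : (S.G.y κ).SameCycle d e) :
    S.W κ d = S.W κ e :=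
  le_antisymm (W_mono fun _ h1 h2 => ⟨h1, h2.trans h⟩) (W_mono fun _ h1 h2 => ⟨h1, h2.trans h.symm⟩)

theorem Pt_le_W (S : TS Tok) (κ : Fin 5) (d : S.G.D) : S.Pt κ d ≤ S.W κ d :=
  Set.ncard_le_ncard (fun _ hτ => ⟨hτ.1, hτ.2 ▸ Perm.SameCycle.refl _ _⟩) (Set.toFinite _)

theorem W_fix {S : TS Tok} {κ : Fin 5} {d : S.G.D} (h : S.G.y κ d = d) :
    S.W κ d = S.Pt κ d :=
  le_antisymm (Set.ncard_le_ncard (fun _ hτ => ⟨hτ.1, hτ.2.eq_of_right h⟩) (Set.toFinite _))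
    (Pt_le_W S κ d)

theorem W_ge_sum {S : TS Tok} {κ : Fin 5} {d : S.G.D} {μ : ℕ} (B : Set S.G.D)
    (hB : ∀ e ∈ B, (S.G.y κ).SameCycle e d ∧ μ ≤ S.Pt κ e) : B.ncard * μ ≤ S.W κ d := by
  classical
  let _ := Fintype.ofFinite S.G.D
  have e1 := lw_fib (fun τ => if S.tag τ = κ then some (S.pos τ) else none) fun e => e ∈ B
  rw [csum_eq] at e1
  have e2 : B.ncard = (Finset.univ.filter fun e => e ∈ B).card := by
    rw [← Set.ncard_coe_finset]; simp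
  rw [e2, ← smul_eq_mul]
  refine (Finset.card_nsmul_le_sum _ _ _ fun e he => ?_).trans (e1.ge.trans ?_)
  · refine (hB e (Finset.mem_filter.1 he).2).2.trans
      (Set.ncard_le_ncard (fun τ hτ => ?_) (Set.toFinite _))
    simp [hτ.1, hτ.2]
  · refine Set.ncard_le_ncard (fun τ hτ => ?_) (Set.toFinite _)
    obtain ⟨e, k1, k2⟩ := hτ
    by_cases ht : S.tag τ = κ
    · simp only [ht, if_true, Option.some.injEq] at k2
      exact ⟨ht, k2 ▸ (hB e k1).1⟩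
    · simp [ht] at k2

omit [Finite Tok] in
theorem TEq.symm {E : ℕ} {S S' : TS Tok} (h : TEq E S S') : TEq E S' S :=
  fun I _ ι hι => (h I ι hι).symm
omit [Finite Tok] in
theorem TEq.mono {E E' : ℕ} {S S' : TS Tok} (h : TEq E S S') (hE : E ≤ E') : TEq E' S S' :=
  fun I _ ι hι => (h I ι hι).mono hE
omit [Finite Tok] in
theorem TEq.trans {E E' : ℕ} {S S' S'' : TS Tok} (h : TEq E S S') (h' : TEq E' S' S'') :
    TEq (E * E') S S'' := fun I _ ι hι => (h I ι hι).trans (h' I ι hι)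
omit [Finite Tok] in
theorem TEq.transQ {k k' n : ℕ} {S S' S'' : TS Tok} (h : TEq (Q k n) S S')
    (h' : TEq (Q k' n) S' S'') : TEq (Q (k + k') n) S S'' := Q_mul k k' n ▸ h.trans h'
omit [Finite Tok] in
theorem TEq.refl (S : TS Tok) (tag' : Tok → Fin 5) : TEq 1 S ⟨S.G, S.pos, tag'⟩ :=
  fun _ _ _ _ => Qe.refl _
omit [Finite Tok] in
theorem TEq.conn {E : ℕ} {S S' : TS Tok} (h : TEq E S S') (hc : S.G.Conn) : S'.G.Conn :=
  conn_of_qe (h Empty Empty.elim fun x => x.elim) hc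

theorem teq_mov (S : TS Tok) {n : ℕ} (h : S.G.Sz n) (hf : Ft n S.pos) (pos' : Tok → S.G.D)
    (tag' : Tok → Fin 5) (hn : ∀ τ, Nr S.G.y 10 (S.pos τ) (pos' τ)) :
    TEq (Q kA n) S ⟨S.G, pos', tag'⟩ := fun _ _ ι hι =>
  api_mov (fun i => hn (ι i)) (fun i => hn (ι i)) h (hf.comp hι) (hf.comp hι)

/-- A move that is valid for all tubes with unchanged feet. -/
theorem teq_of {S : TS Tok} {G' : P4} (ι : S.G.D → G'.D) (tag' : Tok → Fin 5) {n E : ℕ}
    (hf : Ft n S.pos) (h : ∀ (I : Type) [Finite I] (a : I → S.G.D), Ft n a →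
      Qe E (S.G.gd a a) (G'.gd (ι ∘ a) (ι ∘ a))) : TEq E S ⟨G', ι ∘ S.pos, tag'⟩ :=
  fun I _ _ hι => h I _ (hf.comp hι)

/-- A maximal family of disjoint sets. -/
theorem maxfam {ι D : Type} [Finite D] (T : ι → Set D) (cand : Set ι)
    (h : ∀ i ∈ cand, (T i).Nonempty) : ∃ X ⊆ cand, X.Finite ∧
      (∀ i ∈ X, ∀ j ∈ X, i ≠ j → Disjoint (T i) (T j)) ∧
      ∀ i ∈ cand, ∃ j ∈ X, (T i ∩ T j).Nonempty := by
  obtain ⟨X, hX⟩ := zorn_subset
    {X : Set ι | X ⊆ cand ∧ ∀ i ∈ X, ∀ j ∈ X, i ≠ j → Disjoint (T i) (T j)} (fun c hc hch => by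
      refine ⟨⋃₀ c, ⟨fun i ⟨s, hs, hi⟩ => (hc hs).1 hi, ?_⟩, fun s hs => Set.subset_sUnion_of_mem hs⟩
      rintro i ⟨s, hs, hi⟩ j ⟨t, ht, hj⟩ hij
      rcases hch.total hs ht with h1 | h1
      · exact (hc ht).2 i (h1 hi) j hj hij
      · exact (hc hs).2 i hi j (h1 hj) hij)
  obtain ⟨h1, h2⟩ := hX.prop
  refine ⟨X, h1, ?_, h2, fun i hi => ?_⟩
  · refine Set.Finite.of_finite_image (f := T) (Set.toFinite _) fun i hi j hj hij => ?_
    by_contra hne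
    have := h2 i hi j hj hne
    rw [← hij, disjoint_self] at this
    exact (h i (h1 hi)).ne_empty this
  · by_contra hno
    have hd : ∀ j ∈ X, Disjoint (T i) (T j) := fun j hj => by
      rw [Set.disjoint_iff_inter_eq_empty, ← Set.not_nonempty_iff_eq_empty]
      exact fun hn => hno ⟨j, hj, hn⟩
    have hin : insert i X ⊆ X := hX.le_of_ge ⟨Set.insert_subset hi h1, by
      rintro a (rfl | ha) b (rfl | hb) hab
      · exact absurd rfl hab
      · exact hd b hb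
      · exact (hd a ha).symm
      · exact h2 a ha b hb hab⟩ (Set.subset_insert _ _)
    exact hno ⟨i, hin (Set.mem_insert _ _), by simpa using h i hi⟩

end Pool.Agent.MC.LL
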