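import Pool.Agent.P.MP_2677b3_gt.LT1

/-! Restrictions of an involution, spanning trees of cells, handles. -/

open Equiv Function

noncomputable section

namespace Pool.Agent.MC.LL

variable {D : Type}

/-- The edge of `d` meets `U`. -/
def On (α : Perm D) (U : Set D) (d : D) : Prop := d ∈ U ∨ α d ∈ U

theorem On.al {α : Perm D} (h : ∀ d, α (α d) = d) {U : Set D} {d : D} :
    On α U (α d) ↔ On α U d := by
  unfold On; rw [h]; exact or_comm

theorem On.union {α : Perm D} {U V : Set D} {d : D} :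
    On α (U ∪ V) d ↔ On α U d ∨ On α V d := by
  unfold On; simp only [Set.mem_union]; tauto

theorem On.mono {α : Perm D} {U V : Set D} {d : D} (h : On α U d) (hs : U ⊆ V) : On α V d :=
  h.elim (fun h => Or.inl (hs h)) (fun h => Or.inr (hs h))

open Classical in
/-- The involution `α` on the edges that meet `U`, the identity elsewhere. -/
def rs (α : Perm D) (h : ∀ d, α (α d) = d) (U : Set D) : Perm D :=
  Involutive.toPerm (fun d => if On α U d then α d else d) (fun d => by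
    by_cases hd : On α U d
    · simp [hd, On.al h, h]
    · simp [hd])

section
variable {α : Perm D} {h : ∀ d, α (α d) = d} {U V : Set D} {d : D}

theorem rs_pos (hd : On α U d) : rs α h U d = α d := by simp [rs, hd]
theorem rs_neg (hd : ¬ On α U d) : rs α h U d = d := by simp [rs, hd]

theorem rs_rs (d : D) : rs α h U (rs α h U d) = d := by
  by_cases hd : On α U d
  · rw [rs_pos hd, rs_pos ((On.al h).2 hd), h]
  · rw [rs_neg hd, rs_neg hd]

theorem rs_mul_self : rs α h U * rs α h U = 1 := by ext d; simp [rs_rs]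

theorem rs_inv : (rs α h U)⁻¹ = rs α h U := inv_eq_of_mul_eq_one_right rs_mul_self

theorem rs_empty : rs α h ∅ = 1 := by ext d; rw [rs_neg (by simp [On])]; rfl

theorem rs_congr (hUV : ∀ d, On α U d ↔ On α V d) : rs α h U = rs α h V := by
  ext d
  by_cases hd : On α U d
  · rw [rs_pos hd, rs_pos ((hUV d).1 hd)]
  · rw [rs_neg hd, rs_neg (fun h' => hd ((hUV d).2 h'))]

theorem on_disj (h : ∀ d, α (α d) = d) (hd : ∀ u ∈ V, ¬ On α U u) {d : D} (h1 : On α U d) :
    ¬ On α V d := by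
  rintro (h2 | h2)
  · exact hd d h2 h1
  · exact hd _ h2 ((On.al h).2 h1)

theorem rs_union (hd : ∀ u ∈ V, ¬ On α U u) : rs α h (U ∪ V) = rs α h U * rs α h V := by
  ext d
  rw [Perm.mul_apply]
  by_cases h1 : On α U d
  · rw [rs_neg (on_disj h hd h1), rs_pos h1, rs_pos (On.union.2 (Or.inl h1))]
  · by_cases h2 : On α V d
    · rw [rs_pos h2, rs_pos (On.union.2 (Or.inr h2)), rs_neg (fun h' => h1 ((On.al h).1 h'))]
    · rw [rs_neg h2, rs_neg h1, rs_neg (fun h' => (On.union.1 h').elim h1 h2)]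

theorem rs_union' (hd : ∀ u ∈ V, ¬ On α U u) : rs α h (U ∪ V) = rs α h V * rs α h U := by
  have := congrArg (·⁻¹) (rs_union (h := h) hd)
  simpa [rs_inv] using this

theorem rs_mem {B : Set D} (hB : ∀ u ∈ U, u ∈ B ∧ α u ∈ B) (d : D) : rs α h U d ∈ B ↔ d ∈ B := by
  by_cases hd : On α U d
  · rw [rs_pos hd]
    rcases hd with hd | hd
    · simp [hB d hd]
    · have := hB _ hd
      rw [h] at this
      simp [this]
  · rw [rs_neg hd]

theorem on_mem (h : ∀ d, α (α d) = d) {B : Set D} (hB : ∀ u ∈ U, u ∈ B ∧ α u ∈ B) {d : D}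
    (hd : On α U d) : d ∈ B := by
  rcases hd with hd | hd
  · exact (hB d hd).1
  · simpa [h] using (hB _ hd).2

variable [Finite D]

/-- A forest of edges between the cells of `Y`. -/
theorem tree_rs (Y : Perm D) (rk : D → ℕ) (h1 : ∀ d, rk (Y d) = rk d)
    (h2 : ∀ u ∈ V, rk (α u) < rk u) (h3 : ∀ u ∈ V, ∀ u' ∈ V, Y.SameCycle u u' → u = u') :
    Tree (rs α h V) Y := by
  refine (tree_invol Y _ rs_mul_self V rk h1 (fun d hd => ?_) h3 (fun d hd => ?_)).symm
  · rw [rs_pos (Or.inl hd)]; exact h2 d hd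
  · by_cases h' : On α V d
    · rw [rs_pos h']; exact h'
    · exact absurd (rs_neg h') hd

/-- Edges between fixed points. -/
theorem tree_rs_fix (A : Perm D) (h1 : ∀ d, On α V d → A d = d) (h2 : ∀ u ∈ V, α u ∉ V) :
    Tree A (rs α h V) := by
  classical
  refine (tree_rs A (fun d => if d ∈ V then 1 else 0) (fun d => ?_) (fun u hu => ?_)
    (fun u hu u' _ hs => ?_)).symm
  · by_cases hd : d ∈ V
    · rw [h1 d (Or.inl hd)]
    · have : A d ∉ V := fun h' => hd (by
        have := A.injective (h1 _ (Or.inl h'))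
        rwa [this] at h')
      simp [hd, this]
  · simp [hu, h2 u hu]
  · exact hs.eq_of_left (h1 u (Or.inl hu))

omit [Finite D] in
theorem sc_rs {Y : Perm D} (ht : Tree (rs α h V) Y) {u : D} (hu : On α V u) :
    (Y * rs α h V).SameCycle u (α u) := by
  have := ht.1 u
  rwa [rs_pos hu] at this

end

/-- Both tree conditions of a switch along a forest of edges of an involution. -/
theorem sw_rs [Finite D] {α : Perm D} (h : ∀ d, α (α d) = d) (Y : Perm D) (V : Set D) (rk : D → ℕ)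
    (h1 : ∀ d, rk (Y d) = rk d) (h2 : ∀ u ∈ V, rk (α u) < rk u)
    (h3 : ∀ u ∈ V, ∀ u' ∈ V, Y.SameCycle u u' → u = u') :
    Tree ((rs α h V)⁻¹ * α) (rs α h V) ∧ Tree (rs α h V) Y := by
  refine ⟨tree_rs_fix _ (fun d hd => ?_) (fun u hu hu' => ?_), tree_rs Y rk h1 h2 h3⟩
  · rw [rs_inv, Perm.mul_apply, rs_pos ((On.al h).2 hd), h]
  · have h4 := h2 u hu
    have h5 := h2 _ hu'
    rw [h] at h5
    omega

/-- What is left of the involution. -/
theorem rs_left {α : Perm D} (h : ∀ d, α (α d) = d) (V : Set D) (d : D) :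
    (On α V d → ((rs α h V)⁻¹ * α) d = d) ∧ (¬ On α V d → ((rs α h V)⁻¹ * α) d = α d) := by
  rw [rs_inv, Perm.mul_apply]
  exact ⟨fun hd => by rw [rs_pos ((On.al h).2 hd), h],
    fun hd => rs_neg (fun h' => hd ((On.al h).1 h'))⟩

theorem rs_left_invol {α : Perm D} (h : ∀ d, α (α d) = d) (V : Set D) (d : D) :
    ((rs α h V)⁻¹ * α) (((rs α h V)⁻¹ * α) d) = d := by
  by_cases hd : On α V d
  · rw [(rs_left h V d).1 hd, (rs_left h V d).1 hd]
  · rw [(rs_left h V d).2 hd, (rs_left h V _).2 (fun h' => hd ((On.al h).1 h')), h]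

/-- Labels that survive a switch. -/
theorem lab_rs {Λ : Type} {α : Perm D} (h : ∀ d, α (α d) = d) {Y : Perm D} {V : Set D} (l : D → Λ)
    (h1 : ∀ d, l (Y d) = l d) (h2 : ∀ u ∈ V, l (α u) = l u) (d : D) :
    l ((Y * rs α h V) d) = l d := by
  rw [Perm.mul_apply, h1]
  by_cases hd : On α V d
  · rw [rs_pos hd]
    rcases hd with hd | hd
    · exact h2 d hd
    · rw [← h2 _ hd, h]
  · rw [rs_neg hd]

theorem sc_mem [Finite D] {σ : Perm D} {B : Set D} (hB : ∀ d, σ d ∈ B ↔ d ∈ B) {d e : D}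
    (hs : σ.SameCycle d e) : d ∈ B ↔ e ∈ B :=
  Iff.of_eq (sc_lab (fun x => x ∈ B) (fun x => propext (hB x)) hs)

/-- A spanning tree of the cells of `φ` in `B`. -/
structure Tr (α φ : Perm D) (B U : Set D) (rk : D → ℕ) (o : D) : Prop where
  inv : ∀ d, φ d ∈ B ↔ d ∈ B
  rkφ : ∀ d, rk (φ d) = rk d
  sub : ∀ u ∈ U, u ∈ B ∧ α u ∈ B
  dec : ∀ u ∈ U, rk (α u) < rk u
  inj : ∀ u ∈ U, ∀ u' ∈ U, φ.SameCycle u u' → u = u'
  root : o ∈ B
  rk0 : rk o = 0
  span : ∀ d ∈ B, φ.SameCycle d o ∨ ∃ u ∈ U, φ.SameCycle d u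

namespace Tr
variable [Finite D] {α φ : Perm D} {h : ∀ d, α (α d) = d} {B U : Set D} {rk : D → ℕ} {o : D}

theorem tree (T : Tr α φ B U rk o) : Tree (rs α h U) φ := tree_rs φ rk T.rkφ T.dec T.inj

omit [Finite D] in
theorem mem (T : Tr α φ B U rk o) (d : D) : (φ * rs α h U) d ∈ B ↔ d ∈ B := by
  rw [Perm.mul_apply, T.inv, rs_mem T.sub]

theorem sc (T : Tr α φ B U rk o) {d : D} (hd : d ∈ B) : (φ * rs α h U).SameCycle d o := by
  induction hn : rk d using Nat.strong_induction_on generalizing d with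
  | _ n ih =>
    rcases T.span d hd with h1 | ⟨u, hu, h1⟩
    · exact T.tree.right h1
    · have h2 : rk d = rk u := sc_lab rk T.rkφ h1
      exact ((T.tree.right h1).trans (sc_rs T.tree (Or.inl hu))).trans
        (ih _ (by have := T.dec u hu; omega) (T.sub u hu).2 rfl)

theorem one (T : Tr α φ B U rk o) {d : D} (hd : d ∈ B) (e : D) :
    (φ * rs α h U).SameCycle d e ↔ e ∈ B :=
  ⟨fun hs => (sc_mem T.mem hs).1 hd, fun he => (T.sc hd).trans (T.sc he).symm⟩

end Tr

/-- Two crossing chords in a small planar polygon. -/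
structure Hdl (α φ : Perm D) (h : ∀ d, α (α d) = d) (R : ℕ) where
  B : Set D
  U : Set D
  rk : D → ℕ
  o : D
  a : D
  b : D
  tr : Tr α φ B U rk o
  card : B.ncard ≤ R
  ha : a ∈ B ∧ α a ∈ B
  hb : b ∈ B ∧ α b ∈ B
  na : ¬ On α U a
  nb : ¬ On α (U ∪ {a}) b
  cross : ¬ (φ * rs α h (U ∪ {a})).SameCycle b (α b)

/-- An index along the cycles. -/
theorem exists_index [Finite D] (X : Perm D) : ∃ idx : D → ℕ,
    (∀ d e, X.SameCycle d e → idx d = idx e → d = e) ∧
    ∀ d, idx (X d) = idx d + 1 ∨ (idx (X d) = 0 ∧ ∀ e, X.SameCycle d e → idx e ≤ idx d) := by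
  obtain ⟨o, idx, h1, h2, h3, h4, h5, h6⟩ := exists_idx X
  refine ⟨idx, fun d e hs he => ?_, fun d => ?_⟩
  · rw [← h3 d, ← h3 e, he, h2 d e hs]
  · have e1 : X d = (X ^ (idx d + 1)) (o d) := by rw [pow_succ', Perm.mul_apply, h3]
    by_cases hlt : idx d + 1 < sz X d
    · left; rw [e1, h5 d _ hlt]
    · right
      have e2 : idx d + 1 = sz X d := by have := h4 d; omega
      constructor
      · rw [e1, e2, sz_congr (h1 d), h6]
        simpa using h5 d 0 (sz_pos X d)
      · intro e he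
        have := h4 e
        rw [← sz_congr he] at this
        omega

/-- One point of `V` in each cycle that meets `V`. -/
theorem exists_reps (φ : Perm D) (V : Set D) : ∃ V' ⊆ V,
    (∀ u ∈ V', ∀ u' ∈ V', φ.SameCycle u u' → u = u') ∧ ∀ u ∈ V, ∃ u' ∈ V', φ.SameCycle u u' := by
  obtain ⟨V', h1, h2⟩ := Set.exists_subset_bijOn V (Quotient.mk (Perm.SameCycle.setoid φ))
  refine ⟨V', h1, fun u hu u' hu' hs => h2.injOn hu hu' (Quotient.sound hs), fun u hu => ?_⟩
  obtain ⟨u', hu', he⟩ := h2.surjOn ⟨u, hu, rfl⟩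
  exact ⟨u', hu', Quotient.exact he.symm⟩

end Pool.Agent.MC.LL
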