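import Pool.Agent.P.MP_2677b3_gt.LG4
import Pool.Agent.P.MP_2677b3_gt.LW
import Pool.Agent.P.MP_2677b3_gt.LG3
import Pool.Agent.P.MP_2677b3_gt.LA3
import Pool.Agent.P.MP_2677b3_gt.LT3
import Pool.Agent.P.MP_2677b3_gt.LT9
import Pool.Agent.P.MP_2677b3_gt.LZ0

open Equiv Function

noncomputable section

namespace Pool.Agent.MC.LL

/-- Darts of `B` that leave `B`. -/
def cutN {D : Type} (α : Perm D) (B : Set D) : ℕ := {d ∈ B | α d ∉ B}.ncard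

/-- A cubic map with bounded faces and negative curvature. -/
structure YM (M : CMap) (Δ K : ℕ) : Prop where
  tri : ∀ d, M.ψ (M.ψ (M.ψ d)) = d ∧ M.ψ d ≠ d
  deg : ∀ d, sz M.φ d ≤ Δ
  conn : ∀ d d', M.Same (fun _ => False) d d'
  curv : ∀ B : Set M.D, (∀ d, M.φ d ∈ B ↔ d ∈ B) → 3 * (2 * K + 1) * ncyc M.φ B ≤
    K * {d ∈ B | M.ψ d ∈ B ∧ M.ψ (M.ψ d) ∈ B}.ncard + 6 * K * cutN M.α B

/-- The state of a map. -/
abbrev mp4 (M : CMap) : P4 := ⟨M.D, inferInstance, M.α, M.φ, 1, M.ψ⁻¹, by simp [CMap.ψ, mul_assoc]⟩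

theorem gd_congr {D I : Type} [Finite I] {fD : Finite D} {x0 x1 x2 x3 y0 y1 y2 y3 : Perm D}
    {rel rel'} (h0 : x0 = y0) (h1 : x1 = y1) (h2 : x2 = y2) (h3 : x3 = y3) (a b : I → D) :
    P4.gd ⟨D, fD, x0, x1, x2, x3, rel⟩ a b = P4.gd ⟨D, fD, y0, y1, y2, y3, rel'⟩ a b := by
  subst h0 h1 h2 h3; rfl

end Pool.Agent.MC.LL
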