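import Pool.Agent.P.MP_2677b3_gt.LCv3
import Pool.Agent.P.MP_2677b3_gt.LZD

open Equiv Function UpperHalfPlane MeasureTheory
open scoped ENNReal MatrixGroups

noncomputable section

namespace Pool.Agent.MC.LL

/-- Bounded multiplicity of the lifted darts. -/
def Cnt {M : CMap} {G : Subgroup (Perm ℍ)} {K : ℝ} (g : Geo M.gd G K) (C : ℝ → ℕ) : Prop :=
  ∀ (z : ℍ) (R : ℝ), {p : M.D × G | dist z (p.2.1 (g.pt (M.gd.src p.1))) ≤ R}.Finite ∧
    {p : M.D × G | dist z (p.2.1 (g.pt (M.gd.src p.1))) ≤ R}.ncard ≤ C R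

theorem geo2 (ε : ℝ) (hε : 0 < ε) : ∃ (Δ K : ℕ) (K₁ : ℝ) (C : ℝ → ℕ), 0 < K₁ ∧
    ∀ G : Subgroup (Perm ℍ), Fuchs G ε →
      ∃ (M : CMap) (g : Geo M.gd G K₁), YM M Δ K ∧ g.Full ∧ Cnt g C ∧ Nonempty M.D := by
  obtain ⟨K0, D0, C, K, -, h⟩ := curv_model hε
  refine ⟨D0, K0, max K 1, C, lt_max_of_lt_right one_pos, fun G hG => ?_⟩
  obtain ⟨M, g, h1, h2, h3, h4, h5, h6, h7⟩ := h G hG
  have hK := le_max_left K 1
  refine ⟨M, ⟨g.pt, g.hol, g.hol_inv, g.faith, fun e => (g.short e).trans hK, fun x p y hp => ?_,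
    fun x z => ?_⟩, ⟨h3, h5, h4, h6⟩, h1, fun z R => ?_, h2⟩
  · obtain ⟨q, a, b, c⟩ := g.eff x p y hp
    exact ⟨q, a, b, c.trans (add_le_add (mul_le_mul_of_nonneg_right hK dist_nonneg) hK)⟩
  · obtain ⟨p, y, a, b⟩ := g.dense x z
    exact ⟨p, y, a, b.trans hK⟩
  · have e : {p : M.D × G | dist z (p.2.1 (g.pt (M.gd.src p.1))) ≤ R}.encard ≤ C R :=
      (Set.encard_le_encard_of_injOn (f := Prod.swap) (fun _ hp => hp)
        Prod.swap_injective.injOn).trans (h7 z R)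
    have hf := Set.finite_of_encard_le_coe e
    exact ⟨hf, Nat.cast_le.1 (hf.cast_ncard_eq.le.trans e)⟩

end Pool.Agent.MC.LL
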