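import Pool.Agent.P.MP_2677b3_gt.LSt
import Pool.Agent.P.MP_2677b3_gt.GeoDefs

/-! The isomorphism onto a subgroup of finite index. -/

open UpperHalfPlane

noncomputable section

namespace Pool.Agent.MC.LL

/-- The holonomy of a path. -/
def hp {A : Gd} {G : Subgroup (Equiv.Perm ℍ)} {K : ℝ} (g : Geo A G K) (p : List A.E) : G :=
  (p.map g.hol).prod

section
variable {A : Gd} {G : Subgroup (Equiv.Perm ℍ)} {K : ℝ}

@[simp] theorem hp_nil (g : Geo A G K) : hp g [] = 1 := rfl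
@[simp] theorem hp_cons (g : Geo A G K) (e : A.E) (p : List A.E) :
    hp g (e :: p) = g.hol e * hp g p := by simp [hp]
@[simp] theorem hp_append (g : Geo A G K) (p q : List A.E) : hp g (p ++ q) = hp g p * hp g q := by
  simp [hp]
@[simp] theorem hp_rev (g : Geo A G K) (p : List A.E) : hp g (A.rev p) = (hp g p)⁻¹ := by
  induction p with
  | nil => simp
  | cons e p ih => simp [ih, g.hol_inv]

theorem hp_iff (g : Geo A G K) {x y : A.V} {p q : List A.E} (h1 : A.Path x p y)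
    (h2 : A.Path x q y) : A.ev p = A.ev q ↔ hp g p = hp g q := by
  have := g.faith x _ (h1.append h2.rev)
  change _ ↔ hp g _ = 1 at this
  rwa [Gd.ev_append, Gd.ev_rev, hp_append, hp_rev, mul_inv_eq_one, mul_inv_eq_one] at this

end

theorem Act.exists_hom (T : Act) : ∃ Φ : Pi2 →* Equiv.Perm T.D,
    ∀ (x : T.D) (p : List T.gd.E) (y : T.D), T.gd.Path x p y → Φ (T.gd.ev p) y = x := by
  have h : ∀ r ∈ ({rel2} : Set (FreeGroup (Fin 4))), FreeGroup.lift (fun j => (T.g j)⁻¹) r = 1 := by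
    rintro r rfl
    have := congrArg (·⁻¹) T.rel
    simpa [rel2, mul_assoc] using this
  refine ⟨PresentedGroup.toGroup h, fun x p y hp => ?_⟩
  induction p generalizing x with
  | nil =>
    obtain rfl : x = y := hp
    exact congrArg (fun σ : Equiv.Perm T.D => σ x) (map_one (PresentedGroup.toGroup h))
  | cons a p ih =>
    obtain ⟨rfl, h2⟩ := hp
    rw [Gd.ev_cons]
    erw [map_mul]
    rw [Equiv.Perm.mul_apply, ih _ h2]
    obtain ⟨d, j, b⟩ := a
    cases b <;> simp [Act.gd, Gd.tgt]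

theorem Act.exists_path (T : Act) (x : T.D) (γ : Pi2) :
    ∃ (p : List T.gd.E) (y : T.D), T.gd.Path x p y ∧ T.gd.ev p = γ := by
  obtain ⟨Φ, hΦ⟩ := T.exists_hom
  have hγ : γ ∈ Subgroup.closure (Set.range (PresentedGroup.of : Fin 4 → Pi2)) := by
    rw [PresentedGroup.closure_range_of]
    trivial
  induction hγ using Subgroup.closure_induction generalizing x with
  | mem a ha =>
    obtain ⟨j, rfl⟩ := ha
    exact ⟨[(x, j, true)], _, T.gd.path_single (x, j, true), mul_one _⟩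
  | one => exact ⟨[], x, rfl, rfl⟩
  | mul a b _ _ iha ihb =>
    obtain ⟨p, y, h1, h2⟩ := iha x
    obtain ⟨q, z, h3, h4⟩ := ihb y
    exact ⟨p ++ q, z, h1.append h3, by rw [Gd.ev_append, h2, h4]; rfl⟩
  | inv a _ ih =>
    obtain ⟨p, y, h1, h2⟩ := ih (Φ a x)
    have h3 := hΦ _ p y h1
    rw [h2] at h3
    obtain rfl := (Φ a).injective h3
    exact ⟨T.gd.rev p, _, h1.rev, by rw [Gd.ev_rev, h2]; rfl⟩

theorem theta {GX GY : Subgroup (Equiv.Perm ℍ)} (e : GX ≃* Pi2) {A : Gd} {K : ℝ}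
    (g : Geo A GY K) (hfull : g.Full) (x0 : A.V) (T : Act) (f : Mp A T.gd) (f' : Mp T.gd A)
    (h1 : f.Back f') (h2 : f'.Back f) :
    ∃ Λ : Subgroup (Equiv.Perm ℍ), Λ ≤ GX ∧ Λ.relIndex GX ≠ 0 ∧
      (∀ l : GX, l.1 ∈ Λ ↔ ∃ u, T.gd.Path (f.v x0) u (f.v x0) ∧ T.gd.ev u = e l) ∧
      ∃ θ : GY ≃* Λ, ∀ p, A.Path x0 p x0 →
        (θ (hp g p)).1 = (e.symm (T.gd.ev (p.flatMap f.e))).1 := by
  obtain ⟨Φ, hΦ⟩ := T.exists_hom
  let Ψ : GX →* Equiv.Perm T.D := Φ.comp e.toMonoidHom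
  let S : Subgroup GX := (MulAction.stabilizer (α := T.D) (Equiv.Perm T.D) (f.v x0)).comap Ψ
  have hS : ∀ l : GX, l.1 ∈ S.map GX.subtype ↔
      ∃ u, T.gd.Path (f.v x0) u (f.v x0) ∧ T.gd.ev u = e l := fun l => by
    refine (Subgroup.mem_map_iff_mem (f := GX.subtype) GX.subtype_injective).trans ?_
    change Φ (e l) (f.v x0) = f.v x0 ↔ _
    refine ⟨fun h => ?_, fun ⟨u, h, h'⟩ => h' ▸ hΦ _ u _ h⟩
    obtain ⟨p, y, h3, h4⟩ := T.exists_path (f.v x0) (e l)
    have h5 := hΦ _ p y h3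
    rw [h4] at h5
    obtain rfl : y = f.v x0 := (Φ (e l)).injective (h5.trans h.symm)
    exact ⟨p, h3, h4⟩
  refine ⟨S.map GX.subtype, Subgroup.map_subtype_le S, ?_, hS, ?_⟩
  · have h3 : (S.map GX.subtype).subgroupOf GX = S :=
      Subgroup.comap_map_eq_self_of_injective GX.subtype_injective S
    have h4 : Ψ.ker ≤ S := fun l hl => by
      change Ψ l (f.v x0) = f.v x0
      rw [MonoidHom.mem_ker.1 hl]
      rfl
    rw [Subgroup.relIndex, h3]
    exact (Subgroup.finiteIndex_of_le h4).index_ne_zero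
  choose lp hl1 hl2 using hfull x0
  have key : ∀ p, A.Path x0 p x0 →
      T.gd.ev ((lp (hp g p)).flatMap f.e) = T.gd.ev (p.flatMap f.e) := fun p h =>
    f.ev_congr (hl1 _) h ((hp_iff g (hl1 _) h).2 (hl2 _))
  have hl3 : ∀ γ, hp g (lp γ) = γ := hl2
  let θ₀ : GY →* GX := MonoidHom.mk' (fun γ => e.symm (T.gd.ev ((lp γ).flatMap f.e))) fun a b => by
    have h3 := key _ ((hl1 a).append (hl1 b))
    rw [hp_append, hl3, hl3, List.flatMap_append, Gd.ev_append] at h3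
    rw [h3]
    exact map_mul e.symm _ _
  let θ₁ : GY →* S.map GX.subtype := (GX.subtype.comp θ₀).codRestrict _ fun γ =>
    (hS (θ₀ γ)).2 ⟨_, f.map_path (hl1 γ), (e.apply_symm_apply _).symm⟩
  obtain ⟨η, hη1, hη2⟩ := h1
  obtain ⟨ζ, hζ1, hζ2⟩ := h2
  refine ⟨MulEquiv.ofBijective θ₁ ⟨(injective_iff_map_eq_one _).2 fun γ h => ?_, fun l => ?_⟩,
    fun p h => congrArg (fun u => (e.symm u).1) (key p h)⟩
  · have h3 : θ₀ γ = 1 := Subtype.ext (congrArg (fun l : S.map GX.subtype => l.1) h)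
    have h4 : T.gd.ev ((lp γ).flatMap f.e) = 1 := (map_eq_one_iff e.symm e.symm.injective).1 h3
    have h5 := Mp.back_path f f' η hη2 (hl1 γ)
    rw [f'.cong _ _ (f.map_path (hl1 γ)) h4, mul_one, eq_comm, mul_eq_right] at h5
    exact (hl2 γ).symm.trans ((g.faith x0 _ (hl1 γ)).1 h5)
  · obtain ⟨u, hu1, hu2⟩ := (hS ⟨l.1, Subgroup.map_subtype_le S l.2⟩).1 l.2
    have hc := (f.map_path (hη1 x0)).append (hζ1 (f.v x0)).rev
    have hu := hc.rev.append (hu1.append hc)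
    have hq := (hη1 x0).append ((f'.map_path hu).append (hη1 x0).rev)
    have h3 := Mp.back_path f' f ζ hζ2 hu
    refine ⟨hp g _, Subtype.ext ((congrArg (fun u => (e.symm u).1) (key _ hq)).trans ?_)⟩
    rw [List.flatMap_append, List.flatMap_append, Gd.ev_append, Gd.ev_append, f.ev_map_rev,
      eq_inv_mul_of_mul_eq h3]
    simp only [Gd.ev_append, Gd.ev_rev, mul_inv_rev, inv_inv, mul_assoc, inv_mul_cancel_left,
      mul_inv_cancel_left, mul_inv_cancel, mul_one]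
    rw [hu2, e.symm_apply_apply]

end Pool.Agent.MC.LL
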