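import Pool.Agent.P.MP_2677b3_gt.LX3
import Pool.Agent.P.MP_2677b3_gt.LX4
import Pool.Agent.P.MP_2677b3_gt.GePack

/-! From weights on the model graph to a conformal factor on the thick surface. -/

open UpperHalfPlane MeasureTheory Equiv Set
open scoped ENNReal MatrixGroups

noncomputable section

namespace Pool.Agent.MC.LL

theorem lx6_len_smul (c : ℝ≥0∞) (hc : c ≠ ⊤) (ρ : ℍ → ℝ≥0∞) (γ : Perm ℍ) :
    c * len ρ γ ≤ len (fun z => c * ρ z) γ := by
  refine le_iInf fun T => le_iInf fun k => le_iInf fun h => ?_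
  rw [lintegral_const_mul' _ _ hc]
  exact mul_le_mul_right (iInf_le_of_le T (iInf_le_of_le k (iInf_le _ h))) c

theorem lx6_area_smul (c : ℝ≥0∞) (h0 : c ≠ 0) (hc : c ≠ ⊤) (G : Subgroup (Perm ℍ)) (ρ : ℍ → ℝ≥0∞) :
    area G (fun z => c * ρ z) = c ^ 2 * area G ρ := by
  unfold area
  simp only [mul_pow, lintegral_const_mul' _ _ (ENNReal.pow_ne_top hc),
    ENNReal.mul_iInf_of_ne (pow_ne_zero 2 h0) (ENNReal.pow_ne_top hc)]

variable {G : Subgroup (Perm ℍ)} {ε K : ℝ} {A : Gd}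

/-- The largest weight of an edge that starts within `R` of the point. -/
def lx6_rsup (g : Geo A G K) (r : A.E → ℝ≥0∞) (R : ℝ) (z : ℍ) : ℝ≥0∞ :=
  ⨆ (p : G × A.E) (_ : dist z (p.1.1 (g.pt (A.src p.2))) < R), r p.2

theorem lx6_le_rsup (g : Geo A G K) (r : A.E → ℝ≥0∞) {R : ℝ} {z : ℍ} (h : G) (a : A.E)
    (e : dist z (h.1 (g.pt (A.src a))) < R) : r a ≤ lx6_rsup g r R z :=
  le_iSup_of_le (h, a) (le_iSup_of_le e le_rfl)

theorem lx6_rsup_meas (g : Geo A G K) (r : A.E → ℝ≥0∞) (R : ℝ) : Measurable (lx6_rsup g r R) := by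
  refine measurable_of_Ioi fun t => IsOpen.measurableSet ?_
  have : lx6_rsup g r R ⁻¹' Ioi t =
      ⋃ (p : G × A.E) (_ : t < r p.2), Metric.ball (p.1.1 (g.pt (A.src p.2))) R := by
    ext z
    simp only [lx6_rsup, mem_preimage, mem_Ioi, lt_iSup_iff, mem_iUnion, Metric.mem_ball, exists_prop,
      and_comm]
  rw [this]
  exact isOpen_iUnion fun _ => isOpen_iUnion fun _ => Metric.isOpen_ball

theorem lx6_rsup_le (hG : Fuchs G ε) (g : Geo A G K) (r : A.E → ℝ≥0∞) (R : ℝ) (h : G) (z : ℍ) :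
    lx6_rsup g r R z ≤ lx6_rsup g r R (h.1 z) :=
  iSup₂_le fun p hp => lx6_le_rsup g r (h * p.1) p.2 (by
    change dist (h.1 z) (h.1 (p.1.1 _)) < R
    rwa [Ge.fuchs_dist hG h.2])

theorem lx6_rsup_inv (hG : Fuchs G ε) (g : Geo A G K) (r : A.E → ℝ≥0∞) (R : ℝ) :
    ∀ h ∈ G, ∀ z, lx6_rsup g r R (h z) = lx6_rsup g r R z := fun h hh z =>
  le_antisymm (by simpa using lx6_rsup_le hG g r R ⟨h, hh⟩⁻¹ (h z)) (lx6_rsup_le hG g r R ⟨h, hh⟩ z)

theorem lx6_area_le_set (ρ : ℍ → ℝ≥0∞) {s : Set ℍ} (hs : MeasurableSet s)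
    (hc : ∀ z, ∃ h ∈ G, h z ∈ s) : area G ρ ≤ ∫⁻ z in s, ρ z ^ 2 :=
  iInf₂_le (f := fun (s : Set ℍ) (_ : MeasurableSet s ∧ ∀ z, ∃ g ∈ G, g z ∈ s) =>
    ∫⁻ z in s, ρ z ^ 2) s ⟨hs, hc⟩

theorem lx6_rsup_area [Countable A.E] (hG : Fuchs G ε) (g : Geo A G K) (r : A.E → ℝ≥0∞) (R : ℝ)
    (hr : ∑' a, r a ^ 2 ≠ ⊤) :
    area G (lx6_rsup g r R) ≤ 4 * volume (Metric.ball I R) * ∑' a, r a ^ 2 := by
  have hm := lx6_rsup_meas g r R
  let S : A.E → Set ℍ := fun a =>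
    Metric.ball (g.pt (A.src a)) R ∩ {z | lx6_rsup g r R z ≤ 2 * r a}
  have hS : ∀ a, MeasurableSet (S a) := fun a =>
    Metric.isOpen_ball.measurableSet.inter (hm measurableSet_Iic)
  have hS0 : MeasurableSet {z | lx6_rsup g r R z = 0} := hm (measurableSet_singleton 0)
  have hc : ∀ z, ∃ h ∈ G, h z ∈ {z | lx6_rsup g r R z = 0} ∪ ⋃ a, S a := by
    intro z
    by_cases h0 : lx6_rsup g r R z = 0
    · exact ⟨1, G.one_mem, Or.inl h0⟩
    have ht : lx6_rsup g r R z ≠ ⊤ := by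
      refine ne_top_of_le_ne_top (b := max 1 (∑' a, r a ^ 2)) (by simp [hr]) (iSup₂_le fun p _ => ?_)
      rcases le_total (r p.2) 1 with h | h
      · exact h.trans (le_max_left _ _)
      · exact ((le_self_pow₀ h two_ne_zero).trans (ENNReal.le_tsum p.2)).trans (le_max_right _ _)
    obtain ⟨p, hp⟩ := lt_iSup_iff.1 (ENNReal.half_lt_self h0 ht)
    obtain ⟨h1, h2⟩ := lt_iSup_iff.1 hp
    refine ⟨p.1.1⁻¹, G.inv_mem p.1.2, Or.inr (mem_iUnion.2 ⟨p.2, ?_, ?_⟩)⟩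
    · rw [Metric.mem_ball, ← Ge.fuchs_dist hG p.1.2]
      simpa using h1
    · change lx6_rsup g r R _ ≤ _
      rw [lx6_rsup_inv hG g r R _ (G.inv_mem p.1.2), mul_comm]
      exact (ENNReal.div_le_iff_le_mul (by simp) (by simp)).1 h2.le
  refine (lx6_area_le_set _ (hS0.union (MeasurableSet.iUnion hS)) hc).trans
    ((lintegral_union_le _ _ _).trans ?_)
  rw [setLIntegral_congr_fun hS0 (g := fun _ => 0) fun z hz => by
    simp only [show lx6_rsup g r R z = 0 from hz, zero_pow two_ne_zero], lintegral_zero, zero_add,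
    ← ENNReal.tsum_mul_left]
  refine (lintegral_iUnion_le _ _).trans (ENNReal.tsum_le_tsum fun a => ?_)
  calc ∫⁻ z in S a, lx6_rsup g r R z ^ 2 ≤ ∫⁻ _ in S a, (2 * r a) ^ 2 :=
        setLIntegral_mono' (hS a) fun z hz => pow_le_pow_left' hz.2 2
    _ ≤ (2 * r a) ^ 2 * volume (Metric.ball I R) := by
        rw [setLIntegral_const, ← vol_ball (g.pt (A.src a))]
        exact mul_le_mul_right (measure_mono inter_subset_left) _
    _ = _ := by ring

/-- The weight of a short path is bounded by the factor at a point near its start. -/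
theorem lx6_path_le (hG : Fuchs G ε) (g : Geo A G K) (hK : 0 ≤ K) (r : A.E → ℝ≥0∞) {R : ℝ} {z : ℍ}
    (q : List A.E) : ∀ {x y : A.V} (h : G), A.Path x q y →
      dist z (h.1 (g.pt x)) + q.length * K < R → (q.map r).sum ≤ q.length * lx6_rsup g r R z := by
  induction q with
  | nil => intro _ _ _ _ _; simp
  | cons a q ih =>
    rintro x y h ⟨rfl, hq⟩ e
    rw [List.length_cons, Nat.cast_succ] at e
    have h0 : (0 : ℝ) ≤ q.length * K := by positivity
    have h1 := lx6_le_rsup g r h a (R := R) (z := z) (by linarith)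
    have h2 := ih (h * g.hol a) hq (by
      have h3 := dist_triangle z (h.1 (g.pt (A.src a))) (h.1 ((g.hol a).1 (g.pt (A.tgt a))))
      rw [Ge.fuchs_dist hG h.2] at h3
      have h4 := g.short a
      change dist z (h.1 ((g.hol a).1 (g.pt (A.tgt a)))) + _ < R
      linarith)
    rw [List.map_cons, List.sum_cons, List.length_cons, Nat.cast_succ, add_mul, one_mul, add_comm]
    exact add_le_add h2 h1

theorem lx6_hol_rev (g : Geo A G K) (p : List A.E) :
    ((A.rev p).map g.hol).prod = ((p.map g.hol).prod)⁻¹ := by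
  induction p with
  | nil => simp
  | cons e p ih => simp [ih, g.hol_inv]

/-- One lx6_piece of a curve. -/
theorem lx6_piece (hG : Fuchs G ε) (g : Geo A G K) (hK : 0 ≤ K) (r : A.E → ℝ≥0∞) {L : ℕ} {R : ℝ}
    (hL : K * (2 * K + 1) + K ≤ L) (hR : K + 1 + L * K < R) {c : ℝ → ℍ} (hc : LipschitzWith 1 c)
    {a b : ℝ} (hab : a ≤ b) (h1 : b - a ≤ 1) {x₀ x y : A.V} {p p' : List A.E} (hp : A.Path x₀ p x)
    (hp' : A.Path x₀ p' y) (e : dist (c a) (((p.map g.hol).prod).1 (g.pt x)) ≤ K)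
    (e' : dist (c b) (((p'.map g.hol).prod).1 (g.pt y)) ≤ K) :
    ∃ q, A.Path x q y ∧ (p.map g.hol).prod * (q.map g.hol).prod = (p'.map g.hol).prod ∧
      (q.map r).sum * ENNReal.ofReal (b - a) ≤ L * ∫⁻ t in Ioc a b, lx6_rsup g r R (c t) := by
  obtain ⟨q, hq, h2, h3⟩ := g.eff x _ y (hp.rev.append hp')
  rw [List.map_append, List.prod_append, lx6_hol_rev] at h2 h3
  have hd : ∀ t ∈ Icc a b, dist (c t) (c a) ≤ 1 := fun t ht => by
    have := hc.dist_le_mul t a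
    rw [NNReal.coe_one, one_mul, Real.dist_eq, abs_of_nonneg (sub_nonneg.2 ht.1)] at this
    linarith [ht.2]
  have h4 : q.length ≤ L := by
    have h5 : dist (g.pt x) ((((p.map g.hol).prod)⁻¹ * (p'.map g.hol).prod).1 (g.pt y)) ≤
        2 * K + 1 := by
      rw [← Ge.fuchs_dist hG ((p.map g.hol).prod).2]
      have h6 := dist_triangle4 (((p.map g.hol).prod).1 (g.pt x)) (c a) (c b)
        (((p'.map g.hol).prod).1 (g.pt y))
      have h7 := hd b ⟨hab, le_rfl⟩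
      rw [dist_comm] at e h7
      simpa using h6.trans (by linarith)
    have h8 : (q.length : ℝ) ≤ L := by nlinarith
    exact_mod_cast h8
  refine ⟨q, hq, by rw [h2, mul_inv_cancel_left], ?_⟩
  rw [← Real.volume_Ioc, ← setLIntegral_const, ← lintegral_const_mul' _ _ (ENNReal.natCast_ne_top L)]
  refine setLIntegral_mono' measurableSet_Ioc fun t ht => ?_
  refine (lx6_path_le hG g hK r q (R := R) (z := c t) (p.map g.hol).prod hq ?_).trans
    (mul_le_mul_left (Nat.cast_le.2 h4) _)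
  have h9 := dist_triangle (c t) (c a) (((p.map g.hol).prod).1 (g.pt x))
  have h10 := hd t ⟨ht.1.le, ht.2⟩
  have h11 : (q.length : ℝ) * K ≤ L * K := mul_le_mul_of_nonneg_right (Nat.cast_le.2 h4) hK
  linarith

theorem lx6_pieces (hG : Fuchs G ε) (g : Geo A G K) (hK : 0 ≤ K) (r : A.E → ℝ≥0∞) {L : ℕ} {R : ℝ}
    (hL : K * (2 * K + 1) + K ≤ L) (hR : K + 1 + L * K < R) {c : ℝ → ℍ} (hc : LipschitzWith 1 c)
    {l : ℝ} (h0 : 0 ≤ l) (h1 : l ≤ 1) {x₀ x : A.V} {p : List A.E} (hp : A.Path x₀ p x)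
    (e : dist (c 0) (((p.map g.hol).prod).1 (g.pt x)) ≤ K) (k : ℕ) :
    ∀ {y : A.V} {p' : List A.E}, A.Path x₀ p' y →
      dist (c ((k + 1) * l)) (((p'.map g.hol).prod).1 (g.pt y)) ≤ K →
      ∃ q, A.Path x q y ∧ (p.map g.hol).prod * (q.map g.hol).prod = (p'.map g.hol).prod ∧
        (q.map r).sum * ENNReal.ofReal l ≤ L * ∫⁻ t in Ioc 0 ((k + 1) * l), lx6_rsup g r R (c t) := by
  induction k with
  | zero =>
    intro y p' hp' e'
    rw [Nat.cast_zero, zero_add, one_mul] at e' ⊢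
    simpa only [sub_zero] using lx6_piece hG g hK r hL hR hc h0 (by linarith) hp hp' e e'
  | succ k ih =>
    intro y p' hp' e'
    obtain ⟨u, w, hu, eu⟩ := g.dense x₀ (c ((k + 1) * l))
    obtain ⟨q, hq, h2, h3⟩ := ih hu eu
    have hk : (0 : ℝ) ≤ (k + 1) * l := by positivity
    have h4 : ((k + 1 : ℕ) + 1) * l - (k + 1) * l = l := by push_cast; ring
    have h5 : ((k : ℝ) + 1) * l ≤ ((k + 1 : ℕ) + 1) * l := by linarith
    obtain ⟨q', hq', h6, h7⟩ := lx6_piece hG g hK r hL hR hc h5 (by linarith) hu hp' eu e'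
    refine ⟨q ++ q', hq.append hq', by
      rw [List.map_append, List.prod_append, ← mul_assoc, h2, h6], ?_⟩
    rw [h4] at h7
    rw [List.map_append, List.sum_append, add_mul, ← Ioc_union_Ioc_eq_Ioc hk h5,
      lintegral_union measurableSet_Ioc (Ioc_disjoint_Ioc_of_le le_rfl), mul_add]
    exact add_le_add h3 h7

theorem yside (ε K : ℝ) (hε : 0 < ε) : ∃ C : ℕ, ∀ G : Subgroup (Equiv.Perm ℍ), Fuchs G ε →
    ∀ (A : Gd) [Countable A.E] (g : Geo A G K), g.Full → ∀ (x0 : A.V) (w : A.E → ℝ≥0∞),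
      ∃ ρ : ℍ → ℝ≥0∞, Measurable ρ ∧ (∀ k ∈ G, ∀ z, ρ (k z) = ρ z) ∧
        area G ρ ≤ C * ∑' a, w a ^ 2 ∧
        ∀ γ : G, γ ≠ 1 → ∀ m : ℝ≥0∞, (∀ p y q, A.Path x0 p y → A.Path y q y →
          hp g p * hp g q = γ * hp g p → m ≤ (q.map w).sum) → m ≤ len ρ γ.1 := by
  obtain ⟨L, hL⟩ := exists_nat_ge (K * (2 * K + 1) + K)
  obtain ⟨m, hm⟩ := exists_nat_ge (min ε (1 / 2))⁻¹
  obtain ⟨v, hv⟩ := ENNReal.exists_nat_gt (vol_ball_ne_top I (K + 2 + L * K))
  have hv0 : 0 < v := Nat.cast_pos.1 (zero_le.trans_lt hv)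
  have hδ : 0 < min ε (1 / 2) := lt_min hε (by norm_num)
  refine ⟨(m * L + 1) ^ 2 * (4 * v), fun G hG A _ g hF x₀ r =>
    ⟨fun z => (m * L + 1 : ℕ) * lx6_rsup g r (K + 2 + L * K) z,
      (lx6_rsup_meas g r _).const_mul _,
      fun k hk z => congrArg (_ * ·) (lx6_rsup_inv hG g r _ k hk z), ?_, fun γ hγ t ht => ?_⟩⟩
  · by_cases hr : ∑' a, r a ^ 2 = ⊤
    · rw [hr, ENNReal.mul_top (Nat.cast_ne_zero.2 (by positivity))]
      exact le_top
    rw [lx6_area_smul _ (Nat.cast_ne_zero.2 (Nat.succ_ne_zero _)) (ENNReal.natCast_ne_top _)]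
    calc _ ≤ ((m * L + 1 : ℕ) : ℝ≥0∞) ^ 2 * (4 * v * ∑' a, r a ^ 2) :=
          mul_le_mul_right ((lx6_rsup_area hG g r _ hr).trans (by gcongr)) _
      _ = _ := by push_cast; ring
  have hK : 0 ≤ K := by
    obtain ⟨_, _, -, h⟩ := g.dense x₀ I
    exact dist_nonneg.trans h
  refine le_trans ?_ (lx6_len_smul _ (ENNReal.natCast_ne_top _) _ _)
  unfold len
  simp only [ENNReal.mul_iInf_of_ne (Nat.cast_ne_zero.2 (Nat.succ_ne_zero _))
    (ENNReal.natCast_ne_top _)]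
  refine le_iInf fun T => le_iInf fun c => le_iInf fun ⟨hT, hc, e⟩ => ?_
  have hεT : ε ≤ T := by
    have h2 := hG.thick γ γ.2 (fun h => hγ (Subtype.ext h)) (c 0)
    have h3 := hc.dist_le_mul 0 T
    rw [NNReal.coe_one, one_mul, Real.dist_eq, zero_sub, abs_neg, abs_of_nonneg hT, e] at h3
    linarith
  obtain ⟨k, hk⟩ : ∃ k, ⌈T⌉₊ = k + 1 := Nat.exists_eq_succ_of_ne_zero
    (Nat.ceil_pos.2 (by linarith)).ne'
  have h2 : T ≤ k + 1 := by exact_mod_cast hk ▸ Nat.le_ceil T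
  have h3 : (k : ℝ) < T := Nat.lt_ceil.1 (by omega)
  have h4 : ((k : ℝ) + 1) * (T / (k + 1)) = T := by field_simp
  have h5 : min ε (1 / 2) ≤ T / (k + 1) := by
    rw [le_div_iff₀ (by positivity)]
    rcases Nat.eq_zero_or_pos k with rfl | h
    · simpa using Or.inl hεT
    · have h6 : (1 : ℝ) ≤ k := by exact_mod_cast h
      nlinarith [min_le_right ε (1 / 2)]
  obtain ⟨p, x, hp', ep⟩ := g.dense x₀ (c 0)
  obtain ⟨u, hu, eu⟩ := hF x₀ γ
  obtain ⟨q, hq, h7, h8⟩ := lx6_pieces hG g hK r hL (R := K + 2 + L * K) (by linarith) hc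
    (l := T / (k + 1)) (by positivity) ((div_le_one (by positivity)).2 h2) hp' ep k
    (hu.append hp') (by
      rw [h4, e, List.map_append, List.prod_append, eu]
      change dist _ (γ.1 _) ≤ K
      rwa [Ge.fuchs_dist hG γ.2])
  rw [List.map_append, List.prod_append, eu] at h7
  rw [h4] at h8
  have h9 : 1 ≤ ENNReal.ofReal (T / (k + 1)) * m := by
    rw [← ENNReal.ofReal_natCast, ← ENNReal.ofReal_mul (by positivity), ENNReal.one_le_ofReal]
    calc (1 : ℝ) = min ε (1 / 2) * (min ε (1 / 2))⁻¹ := (mul_inv_cancel₀ hδ.ne').symm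
      _ ≤ _ := mul_le_mul h5 hm (by positivity) (by positivity)
  calc t ≤ (q.map r).sum * (ENNReal.ofReal (T / (k + 1)) * m) :=
        (ht p x q hp' hq h7).trans (le_mul_of_one_le_right' h9)
    _ ≤ (L * ∫⁻ t in Ioc 0 T, lx6_rsup g r (K + 2 + L * K) (c t)) * m := by
        rw [← mul_assoc]
        exact mul_le_mul_left h8 _
    _ = (m * L : ℕ) * ∫⁻ t in Ioc 0 T, lx6_rsup g r (K + 2 + L * K) (c t) := by push_cast; ring
    _ ≤ _ := mul_le_mul' (Nat.cast_le.2 (Nat.le_succ _)) (lintegral_mono_set Ioc_subset_Icc_self)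

end Pool.Agent.MC.LL
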