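import Pool.Agent.P.MP_2677b3_gt.LX5
import Pool.Agent.P.MP_2677b3_gt.LX6

/-! Extremal length is pulled back along a map with an energy bound. -/

open UpperHalfPlane MeasureTheory Metric
open scoped ENNReal NNReal MatrixGroups

noncomputable section

namespace Pool.Agent.MC.LL

theorem lx7_one (G : Subgroup (Equiv.Perm ℍ)) : ext G 1 = 0 := by
  simp [ext, len_one]

theorem geo_final (GX : Subgroup (Equiv.Perm ℍ)) (εX : ℝ) (hεX : 0 < εX) (hX : Fuchs GX εX)
    (e : GX ≃* Pi2) (ε K : ℝ) (hε : 0 < ε) : ∃ C : ℕ, ∀ GY : Subgroup (Equiv.Perm ℍ),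
      Fuchs GY ε → ∀ (A : Gd) [Countable A.E] (g : Geo A GY K), g.Full → Nonempty A.V →
      ∀ (T : Act) (E : ℕ), 0 < E → Fw E A T.gd →
      ∃ Λ : Subgroup (Equiv.Perm ℍ), Λ ≤ GX ∧ Λ.relIndex GX ≠ 0 ∧ ∃ θ : GY ≃* Λ,
        ∀ γ : GY, ext Λ (θ γ).1 ≤ (C * E : ℕ) * ext GY γ.1 := by
  obtain ⟨CX, hCX⟩ := xside hεX hX e
  obtain ⟨CY, hCY⟩ := yside ε K hε
  refine ⟨(CY + 1) * (CX + 1), fun GY hY A _ g hfull ⟨x0⟩ T E hE ⟨f, f', h1, h2, h3⟩ => ?_⟩
  obtain ⟨Λ, l1, l2, l3, θ, hθ⟩ := theta e g hfull x0 T f f' h1 h2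
  refine ⟨Λ, l1, l2, θ, fun γ => ?_⟩
  by_cases hγ : γ = 1
  · subst hγ
    rw [map_one, OneMemClass.coe_one, lx7_one]
    exact zero_le
  have key := ext_le_of (Λ := Λ) (G := GY) (l := (θ γ).1) (γ := γ.1)
    (C := (((CY + 1) * (CX + 1) * E : ℕ) : ℝ≥0)) (by positivity) fun ρ r1 r2 r3 => by
      obtain ⟨w, w1, w2⟩ := hCX T (f.v x0) Λ l1 l3 ρ r1 r2
      obtain ⟨σ, s1, s2, s3, s4⟩ := hCY GY hY A g hfull x0 fun a => ((f.e a).map w).sum
      refine ⟨σ, s1, s2, s3.trans ?_, s4 γ hγ _ fun p y q hp1 hq hpq => ?_⟩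
      · calc (CY : ℝ≥0∞) * ∑' a, ((f.e a).map w).sum ^ 2 ≤ CY * (E * (CX * 1)) := by
              gcongr
              refine (h3 w).trans ?_
              gcongr
              exact w1.trans (by gcongr)
          _ = ((CY * CX * E : ℕ) : ℝ≥0∞) := by push_cast; ring
          _ ≤ _ := by
              rw [ENNReal.coe_natCast]
              gcongr <;> omega
      · have a1 := w2 _ _ _ (f.map_path hp1) (f.map_path hq)
        rw [Mp.sum_flatMap] at a1
        have a2 := hθ _ ((hp1.append hq).append hp1.rev)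
        have a3 : hp g (p ++ q ++ A.rev p) = γ := by
          rw [hp_append, hp_append, hpq, hp_rev, mul_inv_cancel_right]
        rw [a3, List.flatMap_append, List.flatMap_append, Gd.ev_append, Gd.ev_append,
          f.ev_map_rev] at a2
        rw [a2]
        exact a1
  rwa [ENNReal.coe_natCast] at key

end Pool.Agent.MC.LL
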