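import Pool.Agent.P.MP_2677b3_gt.HdC
import Pool.Agent.P.MP_2677b3_gt.HdDefs
import Pool.Agent.P.MP_2677b3_gt.LX7
import Pool.Agent.P.MP_2677b3_gt.LC2

/-! From handles on the surface to handles of the map; the theorem. -/

open Equiv Function UpperHalfPlane MeasureTheory Topology
open scoped ENNReal

noncomputable section

namespace Pool.Agent.MC.LL

theorem hdg_ball (z : ℍ) (r : ℝ) : IsPreconnected (Metric.closedBall z r) := by
  rw [← isOpenEmbedding_coe.isInducing.isPreconnected_image, image_coe_closedBall]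
  exact (convex_closedBall _ _).isPreconnected

theorem hdg_tgt (M : CMap) (d : M.D) : M.gd.tgt d = M.gd.src (M.φ d) := by
  have : M.φ d = M.ψ (M.α d) := (congrArg M.φ (M.αα d)).symm
  rw [this]
  exact Quotient.sound (Perm.sameCycle_apply_right.2 (Perm.SameCycle.refl _ _))

theorem hdg_orb (M : CMap) (d : M.D) (n : ℕ) :
    M.gd.Path (M.gd.src d) (orbL M.φ d n) (M.gd.src (M.φ^[n] d)) := by
  induction n with
  | zero => exact rfl
  | succ n ih =>
    have e : orbL M.φ d (n + 1) = orbL M.φ d n ++ [M.φ^[n] d] := by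
      simp [orbL, List.range_succ]
    have k := ih.append (Gd.path_single (A := M.gd) (M.φ^[n] d))
    rw [hdg_tgt, ← iterate_succ_apply' M.φ] at k
    exact e ▸ k

theorem hdg_conn {M : CMap} {d e : M.D} (h : M.Same (fun _ => False) d e) :
    ∃ p, M.gd.Path (M.gd.src d) p (M.gd.src e) := by
  induction h with
  | refl => exact ⟨[], rfl⟩
  | tail _ h ih =>
    obtain ⟨p, hp⟩ := ih
    rcases h with rfl | ⟨-, rfl⟩
    · exact ⟨_, hdg_tgt M _ ▸ hp.append (Gd.path_single _)⟩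
    · exact ⟨_, hp.append (Gd.path_single _)⟩

theorem hdg_tele {A : Gd} {G : Subgroup (Perm ℍ)} {K : ℝ} (g : Geo A G K) (χ : ℍ → ZMod 2)
    (b : G → ZMod 2) (hb : ∀ (γ : G) w, χ (γ.1 w) = χ w + b γ) (c : A.E → ZMod 2)
    (hc : ∀ d, c d = χ (g.pt (A.src d)) + χ ((g.hol d).1 (g.pt (A.tgt d)))) (p : List A.E) :
    ∀ x y, A.Path x p y → (p.map c).sum = χ (g.pt x) + χ (((p.map g.hol).prod).1 (g.pt y)) := by
  induction p with
  | nil =>
    rintro x y (rfl : x = y)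
    exact (hda_two _).symm
  | cons e p ih =>
    rintro x y ⟨rfl, hp⟩
    rw [List.map_cons, List.sum_cons, ih _ _ hp, hc, List.map_cons, List.prod_cons,
      Subgroup.coe_mul, Perm.mul_apply, hb (g.hol e), hb (g.hol e)]
    have := hda_two (χ (g.pt (A.tgt e)))
    linear_combination this

theorem hdg_hd (Δ K : ℕ) (K₁ R : ℝ) (hK : 0 < K₁) : ∃ R' ρ : ℕ, ∀ (G : Subgroup (Perm ℍ)) (ε : ℝ),
    Fuchs G ε → (∀ z, HandleAt G R z) → ∀ (M : CMap) (g : Geo M.gd G K₁), YM M Δ K → g.Full →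
      HD M R' ρ := by
  obtain ⟨n, hn⟩ := exists_nat_ge (K₁ * (R + K₁) + K₁)
  refine ⟨(4 * (5 * n + 10) + 4) * Δ, 10 * n + 22, fun G ε hG hH M g hM hF o => ?_⟩
  obtain ⟨χ, h1, h2, h, hh, h3, h4⟩ := hH (g.pt (M.gd.src o))
  choose b hb using fun γ : G => h1 γ.1 γ.2
  obtain ⟨c, hc⟩ : ∃ c : M.gd.E → ZMod 2, ∀ d,
      c d = χ (g.pt (M.gd.src d)) + χ ((g.hol d).1 (g.pt (M.gd.tgt d))) := ⟨_, fun _ => rfl⟩
  have tele := hdg_tele g χ b hb c hc
  have short : ∀ (p : List M.gd.E) y, M.gd.Path (M.gd.src o) p y →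
      dist (g.pt (M.gd.src o)) (((p.map g.hol).prod).1 (g.pt y)) ≤ R + K₁ →
      ∃ q, M.gd.Path (M.gd.src o) q y ∧ (q.map g.hol).prod = (p.map g.hol).prod ∧
        q.length ≤ n := fun p y hp hd => by
    obtain ⟨q, q1, q2, q3⟩ := g.eff _ p y hp
    refine ⟨q, q1, q2, ?_⟩
    have : (q.length : ℝ) ≤ n :=
      q3.trans (le_trans (add_le_add (mul_le_mul_of_nonneg_left hd hK.le) le_rfl) hn)
    exact_mod_cast this
  obtain ⟨p, p1, p2⟩ := hF (M.gd.src o) ⟨h, hh⟩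
  obtain ⟨q, q1, q2, q3⟩ := short p _ p1 (by rw [p2]; exact h3.trans (by linarith))
  refine hdb_handle hM o n c (fun d => ?_) ?_ (fun d hd => ?_) q q1 q3 ?_
  · have e1 : g.hol (M.α d) = (g.hol d)⁻¹ := g.hol_inv d
    have e2 : M.gd.tgt (M.α d) = M.gd.src d := congrArg M.gd.src (M.αα d)
    have e3 := hb (g.hol d) (((g.hol d)⁻¹).1 (g.pt (M.gd.src d)))
    rw [← Perm.mul_apply, ← Subgroup.coe_mul, mul_inv_cancel, Subgroup.coe_one,
      Perm.one_apply] at e3
    have e4 : c (M.α d) = χ (g.pt (M.gd.tgt d)) + _ := hc (M.α d)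
    have e5 := hc d
    rw [e1, e2] at e4
    rw [hb (g.hol d)] at e5
    have := hda_two (b (g.hol d))
    linear_combination e4 - e5 - e3 - this
  · rw [pot_iff]
    intro d k hk
    have e1 : M.φ^[k] d = d := by rw [Perm.iterate_eq_pow]; exact hk
    have e2 := hdg_orb M d k
    rw [e1] at e2
    have e3 := tele _ _ _ e2
    rw [(g.faith _ _ e2).1 (pres_rel ⟨d, k, e1, rfl⟩), Subgroup.coe_one, Perm.one_apply,
      hda_two] at e3
    have e4 : Multiplicative.ofAdd (((List.range k).map fun i => c ((M.φ ^ i) d)).sum) = 1 := by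
      rw [← ofAdd_zero, ← e3]
      simp only [orbL, List.map_map]
      rfl
    rw [ofAdd_list_prod, List.map_map] at e4
    exact e4
  · by_cases k : ∀ w ∈ Metric.closedBall (g.pt (M.gd.src d)) K₁,
        ∀ γ ∈ G, R < dist w (γ (g.pt (M.gd.src o)))
    · refine absurd ?_ hd
      have e := (hdg_ball (g.pt (M.gd.src d)) K₁).constant (f := χ)
        (fun w hw => (continuousAt_const.congr
          ((h2 w (k w hw)).mono fun _ e => e.symm)).continuousWithinAt)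
        (Metric.mem_closedBall_self hK.le) (Metric.mem_closedBall'.2 (g.short d))
      have e5 := hc d
      rwa [← e, hda_two] at e5
    · push Not at k
      obtain ⟨w, k1, γ, k2, k3⟩ := k
      obtain ⟨p0, hp0⟩ := hdg_conn (hM.conn o d)
      obtain ⟨p', p3, p4⟩ := hF (M.gd.src o) ((⟨γ, k2⟩ : G)⁻¹ * ((p0.map g.hol).prod)⁻¹)
      obtain ⟨q', q4, -, q5⟩ := short (p' ++ p0) _ (p3.append hp0) (by
        rw [List.map_append, List.prod_append, p4, inv_mul_cancel_right,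
          ← Ge.fuchs_dist hG k2, ← Perm.mul_apply γ]
        have e : γ * ((⟨γ, k2⟩ : G)⁻¹).1 = 1 := mul_inv_cancel γ
        rw [e, Perm.one_apply]
        have := dist_triangle_left (γ (g.pt (M.gd.src o))) (g.pt (M.gd.src d)) w
        have k4 := Metric.mem_closedBall.1 k1
        linarith)
      exact ⟨q', q4, q5⟩
  · intro e
    have e := (tele _ _ _ q1).symm.trans e
    rw [q2, p2] at e
    have := hda_two (χ (g.pt (M.gd.src o)))
    exact h4 (by linear_combination e - this)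

theorem hdg_main (GX : Subgroup (Perm ℍ)) (εX : ℝ) (hεX : 0 < εX) (hX : Fuchs GX εX)
    (hg : Nonempty (GX ≃* Pi2)) (ε : ℝ) (hε : 0 < ε) (R : ℝ) :
    ∃ (K : ℕ) (a₀ : ℝ), ∀ GY : Subgroup (Perm ℍ), Fuchs GY ε → (∀ z, HandleAt GY R z) →
      ∀ a : ℝ, a₀ ≤ a → area GY 1 = ENNReal.ofReal a →
      ∃ Λ : Subgroup (Perm ℍ), Λ ≤ GX ∧ Λ.relIndex GX ≠ 0 ∧ ∃ θ : GY ≃* Λ, ∀ γ : GY,
        ext Λ (θ γ).1 ≤ K * ext GY γ.1 := by
  obtain ⟨e⟩ := hg
  obtain ⟨Δ, K, K₁, Cn, hK, hgeo⟩ := geo2 ε hε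
  obtain ⟨R', ρ, hd⟩ := hdg_hd Δ K K₁ R hK
  obtain ⟨E, N, hE, hcomb⟩ := hdc_comb Δ K R' ρ
  obtain ⟨C, hC⟩ := geo_final GX εX hεX hX e ε K₁ hε
  obtain ⟨C₁, h₁⟩ := area_le K₁
  refine ⟨C * E, C₁ * N + 1, fun GY hY hH a ha har => ?_⟩
  obtain ⟨M, g, hM, hfull, -, hne⟩ := hgeo GY hY
  have b1 : a ≤ C₁ * Fintype.card M.D := by
    have := h₁ GY ε hY M g hne
    rw [show area GY (fun _ => 1) = ENNReal.ofReal a from har, ← ENNReal.ofReal_natCast,
      ENNReal.ofReal_le_ofReal_iff (Nat.cast_nonneg _)] at this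
    exact_mod_cast this
  have b3 : N ≤ Fintype.card M.D := by
    by_contra hlt
    have c1 : (Fintype.card M.D : ℝ) ≤ N := by exact_mod_cast (not_le.1 hlt).le
    have c2 : (C₁ : ℝ) * Fintype.card M.D ≤ C₁ * N := by gcongr
    linarith
  obtain ⟨A, hA⟩ := hcomb M hM (hd GY ε hY hH M g hM hfull)
    (by rwa [Nat.card_eq_fintype_card])
  have : Countable M.gd.E := inferInstanceAs (Countable M.D)
  obtain ⟨d⟩ := hne
  exact hC GY hY M.gd g hfull ⟨M.gd.src d⟩ A _ hE hA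

end Pool.Agent.MC.LL
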