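import Pool.Agent.P.MP_2677b3_gt.LPord

open Equiv Function

noncomputable section

namespace Pool.Agent.MC.LL

variable {D I : Type} [Finite D] [Finite I] {x x' : Fin 6 → Perm D}
  {rel : x 5 * x 4 * x 3 * x 2 * x 1 * x 0 = 1} {rel' : x' 5 * x' 4 * x' 3 * x' 2 * x' 1 * x' 0 = 1}
  {pos pos' : I × Bool → D} {n : ℕ}

/-- Positions and lists of feet. -/
structure GatF (D I : Type) where
  pos : I × Bool → D
  ft : D → List (I × Bool)
  nd : ∀ d, (ft d).Nodup
  mem : ∀ d φ, φ ∈ ft d ↔ pos φ = d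

/-- The state with the given feet. -/
abbrev GatF.st (F : GatF D I) (rel : x 5 * x 4 * x 3 * x 2 * x 1 * x 0 = 1) : St :=
  ⟨D, inferInstance, x, rel, I, inferInstance, F.pos, F.ft, F.nd, F.mem⟩

/-- The value of the detour from `d` to `x 0 d` through the other slots. -/
def gatY {Γ : Type} [Group Γ] (x : Fin 6 → Perm D) (X : Fin 6 → D → Γ) (d : D) : Γ :=
  (X 1 (x 0 d) * X 2 (x 1 (x 0 d)) * X 3 (x 2 (x 1 (x 0 d))) * X 4 (x 3 (x 2 (x 1 (x 0 d)))) *
    X 5 (x 4 (x 3 (x 2 (x 1 (x 0 d))))))⁻¹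

/-- Conjugate the letters. -/
def gatV {Γ : Type} [Group Γ] {F₁ : GatF D I} (F₂ : GatF D I) (V : Vl (F₁.st rel) Γ)
    (w : I × Bool → Γ) : Vl (F₂.st rel) Γ where
  X i d := if i = 0 then ((F₂.ft d).map fun φ => w φ * V.lt φ * (w φ)⁻¹).prod⁻¹ * gatY x V.X d
    else V.X i d
  c j := w (j, false) * V.c j * (w (j, false))⁻¹
  t j := w (j, true) * V.t j * (w (j, false))⁻¹

section
variable {Γ : Type} [Group Γ] {F₁ F₂ : GatF D I} {V : Vl (F₁.st rel) Γ} {w : I × Bool → Γ}

theorem gat_lt (φ : I × Bool) : (gatV F₂ V w).lt φ = w φ * V.lt φ * (w φ)⁻¹ := by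
  rcases φ with ⟨j, _ | _⟩
  · rfl
  · simp only [Vl.lt, gatV]
    group

theorem gat_y : gatY x (gatV F₂ V w).X = gatY x V.X := rfl

theorem gat_face (hV : V.Ok) (d : D) :
    V.X 0 d = ((F₁.ft d).map V.lt).prod⁻¹ * gatY x V.X d := by
  have h := hV.face d
  rw [gatY, eq_inv_mul_iff_mul_eq, eq_inv_iff_mul_eq_one, ← h]
  simp only [mul_assoc]

theorem gat_ok (hV : V.Ok) (hp : Pot (x 0) ((gatV F₂ V w).X 0)) : (gatV F₂ V w).Ok := by
  refine ⟨all6 hp (hV.pot 1) (hV.pot 2) (hV.pot 3) (hV.pot 4) (hV.pot 5), fun d => ?_⟩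
  rw [funext gat_lt]
  change _ * (_ * gatY x V.X d) * V.X 1 _ * V.X 2 _ * V.X 3 _ * V.X 4 _ * V.X 5 _ = 1
  rw [gatY]
  group

theorem gat_back (hV : V.Ok) {w' : I × Bool → Γ} (h : ∀ φ, w' φ = (w φ)⁻¹) :
    gatV F₁ (gatV F₂ V w) w' = V := by
  refine Vl.ext' (all6 (fun d => ?_) (fun _ => rfl) (fun _ => rfl) (fun _ => rfl) (fun _ => rfl)
    fun _ => rfl) (fun j => ?_) fun j => ?_
  · rw [gat_face hV]
    refine congrArg (fun l : List Γ => l.prod⁻¹ * gatY x V.X d) (List.map_congr_left fun φ _ => ?_)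
    rw [gat_lt, h]
    group
  · simp only [gatV, h]
    group
  · simp only [gatV, h]
    group

end

theorem gat_rzY (F : GatF D I) {d e : D} (h : (x 0).SameCycle d e) :
    Rz (F.st rel) (fun u => Nr x 5 u e) 5 d (x 0 d) fun _ _ V => gatY x V.X d := by
  have h1 : Nr x 1 (x 0 d) e := Nr.one (i := 0) (Perm.sameCycle_apply_left.2 h)
  have h2 := h1.ap 1
  have h3 := h2.ap 2
  have h4 := h3.ap 3
  have ex : ∀ i u m, m ≤ 5 → Nr x m u e →
      Rz (F.st rel) (fun u => Nr x 5 u e) 1 u (x i u) fun _ _ V => V.X i u :=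
    fun i u m hm hu => Rz.ex (B := F.st rel) i (hu.mono hm)
  exact (((((ex 1 _ _ (by norm_num) h1).mul (ex 2 _ _ (by norm_num) h2)).mul
    (ex 3 _ _ (by norm_num) h3)).mul (ex 4 _ _ (by norm_num) h4)).mul
    (ex 5 _ _ (by norm_num) (h4.ap 4))).inv.ends (congrArg (fun σ : Perm D => σ d) rel) rfl

theorem gat_rl {F₁ F₂ : GatF D I} (w : I × Bool → Fn (F₁.st rel)) {N : ℕ}
    (hs : ∀ φ, (x 0).SameCycle (F₁.pos φ) (F₂.pos φ)) (hN : ∀ d, (F₂.ft d).length ≤ N)
    (hw : ∀ φ, Rz (F₁.st rel) (fun u => Nr x 5 u (F₂.pos φ)) (5 * N) (F₂.pos φ) (F₁.pos φ) (w φ))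
    (hp : ∀ (Γ : Type) [Group Γ] (V : Vl (F₁.st rel) Γ), V.Ok →
      Pot (x 0) ((gatV F₂ V fun φ => w φ Γ V).X 0)) :
    (⟨id, fun Γ _ V => gatV F₂ V fun φ => w φ Γ V⟩ : Fm (F₂.st rel) (F₁.st rel)).Rl x (Q 4 N) 5
      id := by
  have q : (10 * N + 3) * N + 5 ≤ Q 4 N ∧ 10 * N + 5 ≤ Q 4 N := by
    rw [Q, show (N + 2) ^ 4 = N ^ 4 + 8 * N ^ 3 + 24 * N ^ 2 + 32 * N + 16 by ring]
    constructor <;> nlinarith [Nat.zero_le (N ^ 4), Nat.zero_le (N ^ 3), Nat.zero_le (N ^ 2)]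
  have hn : ∀ φ, Nr x 5 (F₁.pos φ) (F₂.pos φ) := fun φ => (Nr.one (hs φ)).mono (by norm_num)
  have ex : ∀ i d, Rz (F₁.st rel) (fun u => Nr x 5 u d) (Q 4 N) d (x i d) fun _ _ V => V.X i d :=
    fun i d => (Rz.ex (B := F₁.st rel) (N := fun u => Nr x 5 u d) i (Nr.refl 5 d)).le (Q_pos _ _)
  refine ⟨all6 (fun d => ?_) (ex 1) (ex 2) (ex 3) (ex 4) (ex 5), fun j => ?_, fun j => ?_,
    fun Γ _ V hV => gat_ok hV (hp Γ V hV)⟩
  · refine ((Rz.prod (B := F₁.st rel) (N := fun u => Nr x 5 u d) (K := 10 * N + 3) (x := d) (F₂.ft d)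
      (fun φ Γ _ V => w φ Γ V * V.lt φ * (w φ Γ V)⁻¹) fun φ hφ => ?_).inv.mul
      (gat_rzY F₁ (Perm.SameCycle.refl _ d))).cg
      (le_trans (Nat.add_le_add_right (Nat.mul_le_mul_left _ (hN d)) _) q.1) rfl rfl
      fun _ _ _ _ => rfl
    obtain rfl := (F₂.mem d φ).1 hφ
    exact (((hw φ).mul (Rz.lt (B := F₁.st rel) (N := fun u => Nr x 5 u (F₂.pos φ)) φ (hn φ))).mul (hw φ).inv).le (by omega)
  · have h := (hw (j, false)).mono (N' := fun u => ∃ k, Nr x 5 u (F₂.pos (j, k))) fun u hu => ⟨_, hu⟩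
    exact ((h.mul (Rz.ec (B := F₁.st rel) j false ⟨_, hn _⟩)).mul h.inv).cg (by omega) rfl rfl
      fun _ _ _ _ => rfl
  · have h := fun k => (hw (j, k)).mono (N' := fun u => ∃ k, Nr x 5 u (F₂.pos (j, k)))
      fun u hu => ⟨_, hu⟩
    exact (((h true).mul (Rz.et (B := F₁.st rel) j false ⟨_, hn _⟩)).mul (h false).inv).cg
      (by omega) rfl rfl fun _ _ _ _ => rfl

omit [Finite D] [Finite I] in
theorem gat_tel {Γ : Type} [Group Γ] (L : ℕ → List (I × Bool)) (y : ℕ → Γ) (a b : I × Bool → Γ)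
    (m : ℕ) (h : ∀ k < m, ∀ φ ∈ L k,
      b φ = ((List.range k).map y).prod * a φ * ((List.range k).map y).prod⁻¹) :
    (((List.range m).reverse.flatMap L).map b).prod *
      ((List.range m).map fun k => ((L k).map a).prod⁻¹ * y k).prod =
        ((List.range m).map y).prod := by
  induction m with
  | zero => simp
  | succ m ih =>
    have h1 : ((L m).map b).prod = ((List.range m).map y).prod * ((L m).map a).prod *
        ((List.range m).map y).prod⁻¹ := by
      rw [List.map_congr_left (h m (Nat.lt_succ_self m))]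
      generalize L m = l
      induction l with
      | nil => simp
      | cons φ l ih => simp only [List.map_cons, List.prod_cons, ih]; group
    simp only [List.range_succ, List.reverse_append, List.reverse_singleton, List.singleton_append,
      List.flatMap_cons, List.map_append, List.prod_append, List.map_singleton,
      List.prod_singleton, h1]
    rw [mul_assoc, ← mul_assoc _ (List.map _ (List.range m)).prod,
      ih fun k hk => h k (Nat.lt_succ_of_lt hk)]
    group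

/-- All feet on a cycle of slot zero move to its base point. -/
theorem p_gather (o : D → D) (ho : ∀ d, (x 0).SameCycle d (o d))
    (ho' : ∀ d e, (x 0).SameCycle d e → o d = o e) (h : Bd6 x pos n) :
    Qe (Q 400 n) (can x rel pos).gd (can x rel (o ∘ pos)).gd := by
  classical
  obtain ⟨idx, i1, i2, i3⟩ := exists_idx_of (x 0) o ho ho'
  have hb := (can_bd (rel := rel)).2 h
  let A : GatF D I := ⟨pos, (can x rel pos).ft, (can x rel pos).nd, (can x rel pos).mem⟩
  have op : ∀ d k, o ((x 0 ^ k) d) = o d := fun d (k : ℕ) => (ho' d _ ⟨k, by simp⟩).symm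
  have ik : ∀ d, o d = d → ∀ k < sz (x 0) d, idx ((x 0 ^ k) d) = k := fun d hd k hk => by
    have := i3 d k hk
    rwa [hd] at this
  let B : GatF D I := ⟨o ∘ pos, fun e => if o e = e then
      (List.range (sz (x 0) e)).reverse.flatMap fun k => A.ft ((x 0 ^ k) e) else [],
    fun e => by
      split_ifs with he
      · refine List.nodup_flatMap.2 ⟨fun k _ => A.nd _, List.pairwise_reverse.2
          (List.Pairwise.imp_of_mem ?_ List.nodup_range)⟩
        intro k k' hk hk' hne φ h1 h2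
        rw [← ik e he k (List.mem_range.1 hk), ← ik e he k' (List.mem_range.1 hk'),
          ← (A.mem _ φ).1 h1, ← (A.mem _ φ).1 h2] at hne
        exact hne rfl
      · exact List.nodup_nil,
    fun e φ => by
      split_ifs with he
      · simp only [List.mem_flatMap, List.mem_reverse, List.mem_range, A.mem]
        refine ⟨fun ⟨k, _, hk⟩ => (congrArg o hk).trans ((op e k).trans he), fun hk => ?_⟩
        subst hk
        exact ⟨idx (pos φ), (i2 _).trans_eq (sz_congr (ho _)), (i1 _).symm⟩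
      · refine iff_of_false List.not_mem_nil fun hk => he ?_
        rw [← hk]
        exact (ho' _ _ (ho _)).symm⟩
  have n1 : ∀ i d, sz (x i) d ≤ n * n := fun i d => (h.1 i d).trans (Nat.le_mul_self n)
  have n2 : ∀ d, (A.ft d).length ≤ n * n := fun d => (hb.2 d).trans (Nat.le_mul_self n)
  have n3 : ∀ d, (B.ft d).length ≤ n * n := fun d => by
    change List.length (if _ then _ else _) ≤ _
    split_ifs
    · rw [List.length_flatMap]
      refine (List.sum_le_card_nsmul _ n fun a ha => ?_).trans ?_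
      · obtain ⟨k, -, rfl⟩ := List.mem_map.1 ha
        exact hb.2 _
      · simpa using Nat.mul_le_mul_right n (h.1 0 d)
    · exact Nat.zero_le _
  let u : ∀ (F : GatF D I), D → Fn (F.st rel) := fun F d Γ _ V =>
    ((List.range (idx d)).map fun k => gatY x V.X ((x 0 ^ k) (o d))).prod
  have hu : ∀ (F : GatF D I) d e, (x 0).SameCycle (o d) e →
      Rz (F.st rel) (fun u => Nr x 5 u e) (5 * (n * n)) (o d) d (u F d) := fun F d e he =>
    (Rz.chain (B := F.st rel) (fun k => (x 0 ^ k) (o d))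
      (fun k _ _ V => gatY x V.X ((x 0 ^ k) (o d))) (idx d) fun k _ =>
        (gat_rzY F (Perm.SameCycle.trans (Perm.SameCycle.symm ⟨k, by simp⟩) he)).ends rfl
          (by rw [pow_succ', Perm.mul_apply])).cg
      (Nat.mul_le_mul_left 5 ((i2 d).le.trans (n1 0 d))) rfl (i1 d) fun _ _ _ _ => rfl
  have key : ∀ (Γ : Type) [Group Γ] (y XA XB : D → Γ) (a b : I × Bool → Γ),
      (∀ φ, b φ = ((List.range (idx (pos φ))).map fun k => y ((x 0 ^ k) (o (pos φ)))).prod * a φ *
        ((List.range (idx (pos φ))).map fun k => y ((x 0 ^ k) (o (pos φ)))).prod⁻¹) →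
      (∀ e, XA e = ((A.ft e).map a).prod⁻¹ * y e) → (∀ e, XB e = ((B.ft e).map b).prod⁻¹ * y e) →
      (Pot (x 0) XA ↔ Pot (x 0) XB) := by
    intro Γ _ y XA XB a b hab hA hB
    have k0 : ∀ d, o d = d → ((List.range (sz (x 0) d)).map fun k => XA ((x 0 ^ k) d)).prod =
        ((List.range (sz (x 0) d)).map fun k => XB ((x 0 ^ k) d)).prod := fun d hd => by
      have k1 := gat_tel (fun k => A.ft ((x 0 ^ k) d)) (fun k => y ((x 0 ^ k) d)) a b
        (sz (x 0) d) fun k hk φ hφ => by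
          rw [hab, show pos φ = _ from (A.mem _ φ).1 hφ, ik d hd k hk, op, hd]
      have k2 : B.ft d = _ := if_pos hd
      rw [← k2, ← eq_inv_mul_iff_mul_eq] at k1
      simp only [hA, k1]
      obtain ⟨s, hs⟩ := Nat.exists_eq_succ_of_ne_zero (sz_pos (x 0) d).ne'
      rw [hs, List.range_succ_eq_map]
      simp only [List.map_cons, List.prod_cons, List.map_map, pow_zero, Perm.one_apply, hB d,
        mul_assoc]
      refine congrArg (fun l : List Γ => _ * (y d * l.prod)) (List.map_congr_left fun k hk => ?_)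
      have k3 : B.ft ((x 0 ^ (k + 1)) d) = [] := if_neg fun e => by
        have k4 := ik d hd (k + 1) (by have := List.mem_range.1 hk; omega)
        rw [← e, op, hd] at k4
        have k5 := ik d hd 0 (sz_pos _ _)
        rw [pow_zero, Perm.one_apply] at k5
        omega
      simp [hB, k3]
    exact ⟨fun hp => pot_of_base _ _ o ho ho' fun d hd =>
        (k0 d hd).symm.trans ((pot_iff _ _).1 hp d _ (pow_sz _ d)),
      fun hp => pot_of_base _ _ o ho ho' fun d hd =>
        (k0 d hd).trans ((pot_iff _ _).1 hp d _ (pow_sz _ d))⟩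
  have r1 := gat_rl (F₁ := B) (F₂ := A) (fun φ Γ _ V => (u B (pos φ) Γ V)⁻¹)
    (fun φ => (ho _).symm) n2 (fun φ => (hu B _ _ (ho _).symm).inv) fun Γ _ V hV =>
      (key Γ (gatY x V.X) _ _ (fun φ => (u B (pos φ) Γ V)⁻¹ * V.lt φ * (u B (pos φ) Γ V)⁻¹⁻¹) V.lt
        (fun φ => by simp only [u]; group) (fun _ => rfl) (gat_face hV)).2 (hV.pot 0)
  have r2 := gat_rl (F₁ := A) (F₂ := B) (fun φ => u A (pos φ))
    (fun φ => ho _) n3 (fun φ => hu A _ _ (Perm.SameCycle.refl _ _)) fun Γ _ V hV =>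
      (key Γ (gatY x V.X) _ _ V.lt _ (fun _ => rfl) (gat_face hV) fun _ => rfl).1 (hV.pot 0)
  have q1 := qe_of_fm _ _ (A := A.st rel) (B := B.st rel) ⟨n1, n2⟩ ⟨n1, n3⟩ n1 n1 r1 r2
    (Fm.bk_of_eq (fun _ => rfl) fun Γ _ V hV => gat_back hV fun _ => rfl)
    (Fm.bk_of_eq (fun _ => rfl) fun Γ _ V hV => gat_back hV fun _ => (inv_inv _).symm)
  have q2 := qe_can (B.st rel) ⟨n1, n3⟩
  have q3 : n * n ≤ Q 2 n := by
    rw [Q]
    nlinarith
  exact ((q1.transQ q2).QQ q3).monoQ (by norm_num) le_rfl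

theorem p_mov0 (hp : ∀ φ, (x 0).SameCycle (pos φ) (pos' φ)) (h : Bd6 x pos n)
    (h' : Bd6 x pos' n) : Qe (Q 800 n) (can x rel pos).gd (can x rel pos').gd := by
  obtain ⟨o, -, h1, h2, -⟩ := exists_idx (x 0)
  have q := p_gather (rel := rel) o h1 h2 h
  rw [show o ∘ pos = o ∘ pos' from funext fun φ => h2 _ _ (hp φ)] at q
  exact (q.transQ (p_gather o h1 h2 h').symm).monoQ (by norm_num) le_rfl

end Pool.Agent.MC.LL
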