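import Pool.Agent.P.MP_2677b3_gt.LPord

open Equiv Function

noncomputable section

namespace Pool.Agent.MC.LL

variable {D I : Type} [Finite D] [Finite I] {x x' : Fin 6 → Perm D}
  {rel : x 5 * x 4 * x 3 * x 2 * x 1 * x 0 = 1} {rel' : x' 5 * x' 4 * x' 3 * x' 2 * x' 1 * x' 0 = 1}
  {pos pos' : I × Bool → D} {n : ℕ}

theorem p_hur (h0 : x' 0 = (x 0)⁻¹ * x 1 * x 0) (h1 : x' 1 = x 0)
    (hx : ∀ i, i ≠ 0 → i ≠ 1 → x' i = x i) (h : Bd6 x pos n) :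
    Qe (Q 100 n) (can x rel pos).gd (can x' rel' pos).gd := by
  obtain rfl : x' = ![(x 0)⁻¹ * x 1 * x 0, x 0, x 2, x 3, x 4, x 5] :=
    funext (all6 h0 h1 (hx 2 (by decide) (by decide)) (hx 3 (by decide) (by decide))
      (hx 4 (by decide) (by decide)) (hx 5 (by decide) (by decide)))
  have h' : Bd6 ![(x 0)⁻¹ * x 1 * x 0, x 0, x 2, x 3, x 4, x 5] pos n :=
    ⟨all6 (fun d => by simpa using (sz_conj (x 1) (x 0)⁻¹ (x 0 d)).le.trans (h.1 1 _)) (h.1 0)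
      (h.1 2) (h.1 3) (h.1 4) (h.1 5), h.2⟩
  have hQ : 3 ≤ Q 2 n := le_trans (by norm_num) (two_pow_le_Q 2 n)
  have hQ1 : 1 ≤ Q 2 n := by omega
  have z : ∀ d, Nr x 3 d d := Nr.refl 3
  have ai : ∀ u, x 0 ((x 0)⁻¹ u) = u := fun u => (x 0).apply_symm_apply u
  have ia : ∀ u, (x 0)⁻¹ (x 0 u) = u := fun u => (x 0).symm_apply_apply u
  have E : ∀ (y : Fin 6 → Perm D) (r : y 5 * y 4 * y 3 * y 2 * y 1 * y 0 = 1) (i : Fin 6) (u d : D),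
      Nr x 3 u d → Rz (can y r pos) (fun u => Nr x 3 u d) 1 u (y i u) fun _ _ V => V.X i u :=
    fun y r i u d hu => Rz.ex (B := can y r pos) (N := fun u => Nr x 3 u d) i hu
  have C : ∀ (y : Fin 6 → Perm D) (r : y 5 * y 4 * y 3 * y 2 * y 1 * y 0 = 1) (j : I),
      Rz (can y r pos) (fun u => ∃ k, Nr x 3 u (pos (j, k))) (Q 2 n) (pos (j, false))
        (pos (j, false)) fun _ _ V => V.c j := fun y r j =>
    (Rz.ec (B := can y r pos) (N := fun u => ∃ k, Nr x 3 u (pos (j, k))) j false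
      ⟨false, z _⟩).le hQ1
  have T : ∀ (y : Fin 6 → Perm D) (r : y 5 * y 4 * y 3 * y 2 * y 1 * y 0 = 1) (j : I),
      Rz (can y r pos) (fun u => ∃ k, Nr x 3 u (pos (j, k))) (Q 2 n) (pos (j, true))
        (pos (j, false)) fun _ _ V => V.t j := fun y r j =>
    (Rz.et (B := can y r pos) (N := fun u => ∃ k, Nr x 3 u (pos (j, k))) j false
      ⟨false, z _⟩).le hQ1
  let f : Fm (can x rel pos) (can _ rel' pos) := ⟨id, fun _ _ V =>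
    ⟨![V.X 1, fun e => (V.X 1 ((x 0)⁻¹ e))⁻¹ * V.X 0 ((x 0)⁻¹ e) * V.X 1 ((x 0)⁻¹ (x 1 e)),
      V.X 2, V.X 3, V.X 4, V.X 5], V.c, V.t⟩⟩
  let g : Fm (can _ rel' pos) (can x rel pos) := ⟨id, fun _ _ V =>
    ⟨![fun d => V.X 0 d * V.X 1 (x 0 d) * (V.X 0 ((x 0)⁻¹ (x 1 (x 0 d))))⁻¹, V.X 0,
      V.X 2, V.X 3, V.X 4, V.X 5], V.c, V.t⟩⟩
  refine (qe_of_fm f g (k := 2) (m := 3) (can_bd.2 h) (can_bd.2 h') h.1 h.1 (w := id) (w' := id)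
    ⟨all6 (fun d => (E _ rel' 1 d d (z d)).le hQ1) (fun e => ?_)
      (fun d => (E _ rel' 2 d d (z d)).le hQ1) (fun d => (E _ rel' 3 d d (z d)).le hQ1)
      (fun d => (E _ rel' 4 d d (z d)).le hQ1) (fun d => (E _ rel' 5 d d (z d)).le hQ1),
      C _ rel', T _ rel', fun Γ _ V hV => ⟨all6 (hV.pot 1) ?_ (hV.pot 2)
        (hV.pot 3) (hV.pot 4) (hV.pot 5), fun d => ?_⟩⟩
    ⟨all6 (fun d => ?_) (fun d => (E _ rel 0 d d (z d)).le hQ1)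
      (fun d => (E _ rel 2 d d (z d)).le hQ1) (fun d => (E _ rel 3 d d (z d)).le hQ1)
      (fun d => (E _ rel 4 d d (z d)).le hQ1) (fun d => (E _ rel 5 d d (z d)).le hQ1),
      C _ rel, T _ rel, fun Γ _ V hV => ⟨all6 ?_ (hV.pot 0) (hV.pot 2)
        (hV.pot 3) (hV.pot 4) (hV.pot 5), fun d => ?_⟩⟩
    (Fm.bk_of_eq (fun _ => rfl) fun Γ _ V _ => Vl.ext' (all6 (fun _ => rfl) (fun d => ?_)
      (fun _ => rfl) (fun _ => rfl) (fun _ => rfl) fun _ => rfl) (fun _ => rfl) fun _ => rfl)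
    (Fm.bk_of_eq (fun _ => rfl) fun Γ _ V _ => Vl.ext' (all6 (fun d => ?_) (fun _ => rfl)
      (fun _ => rfl) (fun _ => rfl) (fun _ => rfl) fun _ => rfl) (fun _ => rfl)
      fun _ => rfl)).monoQ (by norm_num) le_rfl
  · have a1 : Nr x 3 ((x 0)⁻¹ e) e := ((Nr.z x e).ia 0).mono (by omega)
    have a2 : Nr x 3 ((x 0)⁻¹ (x 1 e)) e := (((Nr.z x e).ap 1).ia 0).mono (by omega)
    exact ((((E _ rel' 1 _ e a1).inv.mul (E _ rel' 0 _ e a1)).ends (ai e)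
      (y' := (x 0)⁻¹ (x 1 e)) (congrArg (fun u => (x 0)⁻¹ (x 1 u)) (ai e))).mul
      (E _ rel' 1 _ e a2)).cg hQ rfl (ai _) fun _ _ _ _ => rfl
  · obtain ⟨π, hπ⟩ := hV.pot 0
    refine ⟨fun e => π ((x 0)⁻¹ e) * V.X 1 ((x 0)⁻¹ e), fun e => ?_⟩
    have : π ((x 0)⁻¹ (x 1 (x 0 ((x 0)⁻¹ e)))) = π ((x 0)⁻¹ e) * V.X 0 ((x 0)⁻¹ e) :=
      hπ ((x 0)⁻¹ e)
    rw [ai] at this
    show π ((x 0)⁻¹ (x 1 e)) * V.X 1 ((x 0)⁻¹ (x 1 e)) = π ((x 0)⁻¹ e) * V.X 1 ((x 0)⁻¹ e) *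
      ((V.X 1 ((x 0)⁻¹ e))⁻¹ * V.X 0 ((x 0)⁻¹ e) * V.X 1 ((x 0)⁻¹ (x 1 e)))
    rw [this]
    group
  · have := hV.face d
    simp only [f, Matrix.cons_val, Perm.mul_apply, ai, ia] at this ⊢
    rw [← this]
    simp only [mul_assoc, mul_inv_cancel_left]
    refine congrArg₂ _ (congrArg _ (List.map_congr_left fun φ _ => ?_)) rfl
    rcases φ with ⟨j, _ | _⟩ <;> rfl
  · have a1 : Nr x 3 (x 0 d) d := ((Nr.z x d).ap 0).mono (by omega)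
    have a2 : Nr x 3 ((x 0)⁻¹ (x 1 (x 0 d))) d := (((Nr.z x d).ap 0).ap 1).ia 0
    exact (((E _ rel 0 _ d (z d)).mul (E _ rel 1 _ d a1)).mul
      ((E _ rel 0 _ d a2).inv.ends (ai _) rfl)).cg hQ rfl rfl fun _ _ _ _ => rfl
  · obtain ⟨π, hπ⟩ := hV.pot 1
    have hπ' : ∀ u, π (x 1 u) = π u * V.X 1 u := hπ
    refine ⟨fun d => π (x 0 d) * (V.X 0 d)⁻¹, fun d => ?_⟩
    show π (x 0 ((x 0)⁻¹ (x 1 (x 0 d)))) * (V.X 0 ((x 0)⁻¹ (x 1 (x 0 d))))⁻¹ =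
      π (x 0 d) * (V.X 0 d)⁻¹ * (V.X 0 d * V.X 1 (x 0 d) * (V.X 0 ((x 0)⁻¹ (x 1 (x 0 d))))⁻¹)
    rw [ai, hπ']
    group
  · have := hV.face d
    simp only [g, Matrix.cons_val, Perm.mul_apply, ai] at this ⊢
    rw [← this]
    simp only [mul_assoc, inv_mul_cancel_left]
    refine congrArg₂ _ (congrArg _ (List.map_congr_left fun φ _ => ?_)) rfl
    rcases φ with ⟨j, _ | _⟩ <;> rfl
  · show (V.X 0 ((x 0)⁻¹ d))⁻¹ * (V.X 0 ((x 0)⁻¹ d) * V.X 1 (x 0 ((x 0)⁻¹ d)) *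
      (V.X 0 ((x 0)⁻¹ (x 1 (x 0 ((x 0)⁻¹ d)))))⁻¹) * V.X 0 ((x 0)⁻¹ (x 1 d)) = V.X 1 d
    rw [ai]
    group
  · show V.X 1 d * ((V.X 1 ((x 0)⁻¹ (x 0 d)))⁻¹ * V.X 0 ((x 0)⁻¹ (x 0 d)) *
      V.X 1 ((x 0)⁻¹ (x 1 (x 0 d)))) * (V.X 1 ((x 0)⁻¹ (x 1 (x 0 d))))⁻¹ = V.X 0 d
    rw [ia]
    group

end Pool.Agent.MC.LL
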