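import Pool.Agent.P.MP_2677b3_gt.LPord

open Equiv Function

noncomputable section

namespace Pool.Agent.MC.LL

variable {D I : Type} [Finite D] [Finite I] {x x' : Fin 6 → Perm D}
  {rel : x 5 * x 4 * x 3 * x 2 * x 1 * x 0 = 1} {rel' : x' 5 * x' 4 * x' 3 * x' 2 * x' 1 * x' 0 = 1}
  {pos pos' : I × Bool → D} {n : ℕ}

theorem p_merge (ht : Tree (x 0) (x 1)) (h0 : x' 0 = x 1 * x 0) (h1 : x' 1 = 1)
    (hx : ∀ i, i ≠ 0 → i ≠ 1 → x' i = x i) (h : Bd6 x pos n) (h' : Bd6 x' pos n) :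
    Qe (Q 100 n) (can x rel pos).gd (can x' rel' pos).gd := by
  obtain rfl : x' = ![x 1 * x 0, 1, x 2, x 3, x 4, x 5] := funext (all6 h0 h1
    (hx 2 (by decide) (by decide)) (hx 3 (by decide) (by decide)) (hx 4 (by decide) (by decide))
    (hx 5 (by decide) (by decide)))
  have q := le_Q (k := 1) n one_pos
  have q1 : 1 ≤ Q 1 n := by omega
  let f : Fm (can x rel pos) (can _ rel' pos) := ⟨id, fun _ _ V =>
    ⟨![fun d => arcv (x 1 * x 0) (V.X 0) d (x 0 d), fun d => arcv (x 1 * x 0) (V.X 0) d (x 1 d),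
      V.X 2, V.X 3, V.X 4, V.X 5], V.c, V.t⟩⟩
  let g : Fm (can _ rel' pos) (can x rel pos) := ⟨id, fun _ _ V =>
    ⟨![fun d => V.X 0 d * V.X 1 (x 0 d), fun _ => 1, V.X 2, V.X 3, V.X 4, V.X 5], V.c, V.t⟩⟩
  have r : ∀ d, Nr ![x 1 * x 0, 1, x 2, x 3, x 4, x 5] 1 (id d) d := fun d => Nr.refl 1 d
  have hf : f.Rl ![x 1 * x 0, 1, x 2, x 3, x 4, x 5] (Q 1 n) 1 id := by
    refine ⟨all6
      (fun d => Rz.le (K := n) (Rz.arc (B := can _ rel' pos) 0 (h'.1 0 d) (ht.left1 d)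
        fun u hu => by exact Nr.one (i := 0) hu.symm) (by omega))
      (fun d => Rz.le (K := n) (Rz.arc (B := can _ rel' pos) 0 (h'.1 0 d) (ht.right1 d)
        fun u hu => by exact Nr.one (i := 0) hu.symm) (by omega))
      (fun d => Rz.le (Rz.ex (B := can _ rel' pos) 2 (by exact r d)) q1)
      (fun d => Rz.le (Rz.ex (B := can _ rel' pos) 3 (by exact r d)) q1)
      (fun d => Rz.le (Rz.ex (B := can _ rel' pos) 4 (by exact r d)) q1)
      (fun d => Rz.le (Rz.ex (B := can _ rel' pos) 5 (by exact r d)) q1),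
      fun j => Rz.le (Rz.ec (B := can _ rel' pos) j false (by exact ⟨false, r _⟩)) q1,
      fun j => Rz.le (Rz.et (B := can _ rel' pos) j false (by exact ⟨false, r _⟩)) q1,
      fun Γ _ V hV => ?_⟩
    obtain ⟨π, p1, p2⟩ := Pot.arcv (σ := x 1 * x 0) (hV.pot 0)
    refine ⟨all6 ⟨π, fun d => ?_⟩ ⟨π, fun d => ?_⟩ (hV.pot 2) (hV.pot 3) (hV.pot 4) (hV.pot 5),
      fun d => Eq.trans ?_ (hV.face d)⟩
    · exact (mul_inv_cancel_left _ _).symm.trans (congrArg (π d * ·) (p2 _ _).symm)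
    · exact (mul_inv_cancel_left _ _).symm.trans (congrArg (π d * ·) (p2 _ _).symm)
    · have e : ∀ L : Γ, L * arcv (x 1 * x 0) (V.X 0) d (x 0 d) *
          arcv (x 1 * x 0) (V.X 0) (x 0 d) (x 1 (x 0 d)) =
          L * V.X 0 d * V.X 1 ((x 1 * x 0) d) := fun L => by
        rw [p2, p2, (hV.pot 1).fix (d := (x 1 * x 0) d) rfl, ← Perm.mul_apply, p1]
        group
      rw [show (f.F Γ V).lt = V.lt from funext fun ⟨j, b⟩ => by cases b <;> rfl]
      exact congrArg (· * _ * _ * _ * _) (e _)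
  have hg : g.Rl ![x 1 * x 0, 1, x 2, x 3, x 4, x 5] (Q 1 n) 1 id := by
    refine ⟨all6
      (fun d => Rz.le (K := 1 + 1) (Rz.mul (Rz.ex (B := can x rel pos) 0 (by exact r d))
        (Rz.ex (B := can x rel pos) 1 (by exact Nr.one (i := 0) (ht.left1 d).symm))) (by omega))
      (fun d => (Rz.one (B := can x rel pos) d).le (Nat.zero_le _))
      (fun d => Rz.le (Rz.ex (B := can x rel pos) 2 (by exact r d)) q1)
      (fun d => Rz.le (Rz.ex (B := can x rel pos) 3 (by exact r d)) q1)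
      (fun d => Rz.le (Rz.ex (B := can x rel pos) 4 (by exact r d)) q1)
      (fun d => Rz.le (Rz.ex (B := can x rel pos) 5 (by exact r d)) q1),
      fun j => Rz.le (Rz.ec (B := can x rel pos) j false (by exact ⟨false, r _⟩)) q1,
      fun j => Rz.le (Rz.et (B := can x rel pos) j false (by exact ⟨false, r _⟩)) q1,
      fun Γ _ V hV => ?_⟩
    obtain ⟨π, p⟩ := ht.2 Γ _ _ (hV.pot 0) (hV.pot 1)
    refine ⟨all6 ⟨π, fun d => ?_⟩ ⟨fun _ => 1, fun _ => (mul_one _).symm⟩ (hV.pot 2) (hV.pot 3)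
      (hV.pot 4) (hV.pot 5), fun d => Eq.trans ?_ (hV.face d)⟩
    · exact (p (x 0 d)).2.trans ((congrArg (· * _) (p d).1).trans (mul_assoc _ _ _))
    · rw [show (g.F Γ V).lt = V.lt from funext fun ⟨j, b⟩ => by cases b <;> rfl]
      exact congrArg (· * _ * _ * _ * _) ((mul_one _).trans (mul_assoc _ _ _).symm)
  refine (qe_of_fm f g (can_bd.2 h) (can_bd.2 h') h'.1 h'.1 hf hg
    (Fm.bk_of_eq (fun _ => rfl) fun Γ _ V hV => ?_)
    (Fm.bk_of_eq (fun _ => rfl) fun Γ _ V hV => ?_)).monoQ (by norm_num) le_rfl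
  · obtain ⟨π, p⟩ := ht.2 Γ _ _ (hV.pot 0) (hV.pot 1)
    have p' : ∀ d, π ((x 1 * x 0) d) = π d * (V.X 0 d * V.X 1 (x 0 d)) := fun d =>
      (p (x 0 d)).2.trans ((congrArg (· * _) (p d).1).trans (mul_assoc _ _ _))
    exact Vl.ext' (all6
      (fun d => (arcv_eq p' (ht.left1 d)).trans (by rw [(p d).1, inv_mul_cancel_left]))
      (fun d => (arcv_eq p' (ht.right1 d)).trans (by rw [(p d).2, inv_mul_cancel_left]))
      (fun _ => rfl) (fun _ => rfl) (fun _ => rfl) fun _ => rfl) (fun _ => rfl) fun _ => rfl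
  · obtain ⟨π, p1, p2⟩ := Pot.arcv (σ := x 1 * x 0) (hV.pot 0)
    refine Vl.ext' (all6 (fun d => ?_) (fun d => ((hV.pot 1).fix rfl).symm)
      (fun _ => rfl) (fun _ => rfl) (fun _ => rfl) fun _ => rfl) (fun _ => rfl) fun _ => rfl
    refine (congrArg₂ (· * ·) (p2 d (x 0 d)) (p2 (x 0 d) (x 1 (x 0 d)))).trans ?_
    rw [← Perm.mul_apply, p1]
    group

end Pool.Agent.MC.LL
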