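import Pool.Agent.P.MP_2677b3_gt.LPord

open Equiv Function

noncomputable section

namespace Pool.Agent.MC.LL

variable {D I : Type} [Finite D] [Finite I] {x x' : Fin 6 → Perm D}
  {rel : x 5 * x 4 * x 3 * x 2 * x 1 * x 0 = 1} {rel' : x' 5 * x' 4 * x' 3 * x' 2 * x' 1 * x' 0 = 1}
  {pos pos' : I × Bool → D} {n : ℕ}

/-- Exchange of the two feet. -/
def lpmir_fl {I : Type} (φ : I × Bool) : I × Bool := (φ.1, !φ.2)

theorem lpmir_fl_fl {I : Type} (φ : I × Bool) : lpmir_fl (lpmir_fl φ) = φ := by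
  simp [lpmir_fl]

theorem lpmir_ai {D : Type} (σ : Perm D) (d : D) : σ (σ⁻¹ d) = d := σ.apply_symm_apply d
theorem lpmir_ia {D : Type} (σ : Perm D) (d : D) : σ⁻¹ (σ d) = d := σ.symm_apply_apply d

/-- The state with given lists. -/
abbrev lpmir_st (x : Fin 6 → Perm D) (rel : x 5 * x 4 * x 3 * x 2 * x 1 * x 0 = 1)
    (pos : I × Bool → D) (ft : D → List (I × Bool)) (nd : ∀ d, (ft d).Nodup)
    (mem : ∀ d φ, φ ∈ ft d ↔ pos φ = d) : St :=
  ⟨D, inferInstance, x, rel, I, inferInstance, pos, ft, nd, mem⟩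

section
variable {ft ft' : D → List (I × Bool)} {nd : ∀ d, (ft d).Nodup} {nd' : ∀ d, (ft' d).Nodup}
  {mem : ∀ d φ, φ ∈ ft d ↔ pos φ = d} {mem' : ∀ d φ, φ ∈ ft' d ↔ pos' φ = d}

/-- The mirror formulas. -/
def lpmir_fm : Fm (lpmir_st x rel pos ft nd mem) (lpmir_st x' rel' pos' ft' nd' mem') where
  v := fun d => d
  F := fun _ _ V => ⟨fun i d => (V.X i.rev ((x' i.rev)⁻¹ d))⁻¹,
    fun j => V.t j * V.c j * (V.t j)⁻¹, fun j => (V.t j)⁻¹⟩

theorem lpmir_lt {Γ : Type} [Group Γ] (V : Vl (lpmir_st x' rel' pos' ft' nd' mem') Γ)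
    (φ : I × Bool) :
    ((lpmir_fm (rel := rel) (pos := pos) (nd := nd) (mem := mem)).F Γ V).lt (lpmir_fl φ) =
      (V.lt φ)⁻¹ := by
  rcases φ with ⟨j, _ | _⟩
  · show (V.t j)⁻¹ * (V.t j * V.c j * (V.t j)⁻¹)⁻¹ * (V.t j)⁻¹⁻¹ = (V.c j)⁻¹
    group
  · show V.t j * V.c j * (V.t j)⁻¹ = (V.t j * (V.c j)⁻¹ * (V.t j)⁻¹)⁻¹
    group

theorem lpmir_rl (hx : ∀ i, x i = (x' i.rev)⁻¹) (hp : ∀ j k, pos (j, k) = pos' (j, !k))
    (hf : ∀ d, ft d = (ft' d).reverse.map lpmir_fl) :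
    (lpmir_fm : Fm (lpmir_st x rel pos ft nd mem) (lpmir_st x' rel' pos' ft' nd' mem')).Rl x
      (Q 2 n) 1 (fun d => d) := by
  have h4 : 4 ≤ Q 2 n := two_pow_le_Q 2 n
  have hn : ∀ j, ∃ k, Nr x 1 (pos' (j, true)) (pos (j, k)) := fun j =>
    ⟨false, by rw [hp j false]; exact (Nr.z x _).sc 0 (Perm.SameCycle.refl _ _)⟩
  refine ⟨fun i d => ?_, fun j => ?_, fun j => ?_, fun Γ _ V hV => ⟨fun i => ?_, fun d => ?_⟩⟩
  · refine (Rz.ex (B := lpmir_st x' rel' pos' ft' nd' mem') i.rev (d := (x' i.rev)⁻¹ d)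
      ?_).inv.cg (by omega) ?_ ?_ fun _ _ _ _ => rfl
    · rw [← hx i]; exact (Nr.z x d).ap i
    · exact lpmir_ai _ _
    · exact (congrArg (fun σ : Perm D => σ d) (hx i)).symm
  · exact (((Rz.et (B := lpmir_st x' rel' pos' ft' nd' mem') j true (hn j)).mul
      (Rz.ec (B := lpmir_st x' rel' pos' ft' nd' mem') j true (hn j))).mul
      (Rz.et (B := lpmir_st x' rel' pos' ft' nd' mem') j true (hn j)).inv).cg (by omega)
      (hp j false).symm (hp j false).symm fun _ _ _ _ => rfl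
  · exact (Rz.et (B := lpmir_st x' rel' pos' ft' nd' mem') j true (hn j)).inv.cg (by omega)
      (hp j true).symm (hp j false).symm fun _ _ _ _ => rfl
  · obtain ⟨π, hπ⟩ := hV.pot i.rev
    refine ⟨π, fun d => ?_⟩
    have h1 : π (x' i.rev ((x' i.rev)⁻¹ d)) = π ((x' i.rev)⁻¹ d) * V.X i.rev ((x' i.rev)⁻¹ d) :=
      hπ _
    rw [lpmir_ai] at h1
    show π (x i d) = π d * (V.X i.rev ((x' i.rev)⁻¹ d))⁻¹
    rw [hx i, h1]
    group
  · have h0 : ((ft' d).map V.lt).prod * V.X 0 d * V.X 1 (x' 0 d) * V.X 2 (x' 1 (x' 0 d)) *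
        V.X 3 (x' 2 (x' 1 (x' 0 d))) * V.X 4 (x' 3 (x' 2 (x' 1 (x' 0 d)))) *
        V.X 5 (x' 4 (x' 3 (x' 2 (x' 1 (x' 0 d))))) = 1 := hV.face d
    have h1 : ((ft d).map ((lpmir_fm (rel := rel) (pos := pos) (nd := nd) (mem := mem)).F Γ
        V).lt).prod = (((ft' d).map V.lt).prod)⁻¹ := by
      rw [hf d, List.map_map, List.prod_inv_reverse, List.map_map, List.map_reverse]
      exact congrArg (fun l => (List.reverse l).prod)
        (List.map_congr_left fun φ _ => lpmir_lt V φ)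
    have e : x' 5 (x' 4 (x' 3 (x' 2 (x' 1 (x' 0 d))))) = d :=
      congrArg (fun σ : Perm D => σ d) rel'
    have e5 : (x' 5)⁻¹ d = x' 4 (x' 3 (x' 2 (x' 1 (x' 0 d)))) := Perm.inv_eq_iff_eq.2 e.symm
    have a0 : x 0 = (x' 5)⁻¹ := hx 0
    have a1 : x 1 = (x' 4)⁻¹ := hx 1
    have a2 : x 2 = (x' 3)⁻¹ := hx 2
    have a3 : x 3 = (x' 2)⁻¹ := hx 3
    have a4 : x 4 = (x' 1)⁻¹ := hx 4
    show ((ft d).map ((lpmir_fm (rel := rel) (pos := pos) (nd := nd) (mem := mem)).F Γ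
        V).lt).prod * (V.X 5 ((x' 5)⁻¹ d))⁻¹ * (V.X 4 ((x' 4)⁻¹ (x 0 d)))⁻¹ *
        (V.X 3 ((x' 3)⁻¹ (x 1 (x 0 d))))⁻¹ * (V.X 2 ((x' 2)⁻¹ (x 2 (x 1 (x 0 d)))))⁻¹ *
        (V.X 1 ((x' 1)⁻¹ (x 3 (x 2 (x 1 (x 0 d))))))⁻¹ *
        (V.X 0 ((x' 0)⁻¹ (x 4 (x 3 (x 2 (x 1 (x 0 d)))))))⁻¹ = 1
    rw [h1, a0, a1, a2, a3, a4, e5]
    simp only [lpmir_ia]
    rw [eq_inv_of_mul_eq_one_left (a := ((ft' d).map V.lt).prod)
      (b := V.X 0 d * V.X 1 (x' 0 d) * V.X 2 (x' 1 (x' 0 d)) *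
        V.X 3 (x' 2 (x' 1 (x' 0 d))) * V.X 4 (x' 3 (x' 2 (x' 1 (x' 0 d)))) *
        V.X 5 (x' 4 (x' 3 (x' 2 (x' 1 (x' 0 d)))))) (by rw [← h0]; group)]
    group

theorem lpmir_bk (hx : ∀ i, x i = (x' i.rev)⁻¹) :
    (lpmir_fm : Fm (lpmir_st x rel pos ft nd mem) (lpmir_st x' rel' pos' ft' nd' mem')).Bk
      lpmir_fm := by
  refine Fm.bk_of_eq (fun _ => rfl) fun Γ _ V _ => Vl.ext' (fun i d => ?_) (fun j => ?_) fun j => ?_
  · show (V.X i.rev.rev ((x i.rev.rev)⁻¹ ((x' i.rev)⁻¹ d)))⁻¹⁻¹ = V.X i d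
    rw [Fin.rev_rev, ← hx i, lpmir_ia, inv_inv]
  · show (V.t j)⁻¹ * (V.t j * V.c j * (V.t j)⁻¹) * (V.t j)⁻¹⁻¹ = V.c j
    group
  · exact inv_inv _

end

theorem p_mir (hx : ∀ i, x' i = (x i.rev)⁻¹) (hp : ∀ j k, pos' (j, k) = pos (j, !k))
    (h : Bd6 x pos n) : Qe (Q 100 n) (can x rel pos).gd (can x' rel' pos').gd := by
  have hA : (can x rel pos).Bd n := can_bd.2 h
  have hi : Injective (lpmir_fl : I × Bool → I × Bool) := LeftInverse.injective lpmir_fl_fl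
  have nd' : ∀ d, (((can x rel pos).ft d).reverse.map lpmir_fl).Nodup := fun d =>
    (List.nodup_reverse.2 ((can x rel pos).nd d)).map hi
  have mem' : ∀ d φ, φ ∈ ((can x rel pos).ft d).reverse.map lpmir_fl ↔ pos' φ = d := by
    intro d φ
    have h1 : pos' φ = pos (lpmir_fl φ) := hp φ.1 φ.2
    rw [h1, ← (can x rel pos).mem d (lpmir_fl φ), ← List.mem_reverse (x := lpmir_fl φ),
      ← List.mem_map_of_injective (a := lpmir_fl φ) hi, lpmir_fl_fl]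
  have hx' : ∀ i, x i = (x' i.rev)⁻¹ := fun i => by rw [hx, Fin.rev_rev, inv_inv]
  have hp' : ∀ j k, pos (j, k) = pos' (j, !k) := fun j k => by rw [hp, Bool.not_not]
  have hB : (lpmir_st x' rel' pos' _ nd' mem').Bd n :=
    ⟨fun i d => by
      show sz (x' i) d ≤ n
      rw [hx, sz_inv]; exact h.1 _ _,
    fun d => by
      show (List.map _ (List.reverse _)).length ≤ n
      rw [List.length_map, List.length_reverse]; exact hA.2 d⟩
  have h1 := qe_of_fm (A := lpmir_st x rel pos _ (can x rel pos).nd (can x rel pos).mem)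
    (B := lpmir_st x' rel' pos' _ nd' mem') lpmir_fm lpmir_fm hA hB hA.1 hB.1
    (lpmir_rl hx' hp' fun d => by
      rw [← List.map_reverse, List.reverse_reverse, List.map_map]
      exact ((List.map_congr_left fun φ _ => lpmir_fl_fl φ).trans (List.map_id _)).symm)
    (lpmir_rl hx hp fun _ => rfl) (lpmir_bk hx') (lpmir_bk hx)
  exact (h1.transQ (qe_can _ hB)).monoQ (by norm_num) le_rfl

end Pool.Agent.MC.LL
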