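import Pool.Agent.P.MP_2677b3_gt.LPord

open Equiv Function

noncomputable section

namespace Pool.Agent.MC.LL

theorem LProt_conj {α Γ : Type} [Group Γ] (l : List α) (F G : α → Γ) (u : Γ)
    (h : ∀ a ∈ l, G a = u * F a * u⁻¹) : (l.map G).prod = u * (l.map F).prod * u⁻¹ := by
  induction l with
  | nil => simp
  | cons a l ih =>
    rw [List.map_cons, List.map_cons, List.prod_cons, List.prod_cons, h a (by simp),
      ih fun b hb => h b (by simp [hb])]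
    group

theorem LProt_rel (A : St) (d : A.D) :
    A.x 5 (A.x 4 (A.x 3 (A.x 2 (A.x 1 (A.x 0 d))))) = d := by
  have := congrArg (fun s : Perm A.D => s d) A.rel
  simpa using this

/-- The rotated state. -/
abbrev LProt_st (A : St) : St where
  D := A.D
  fD := A.fD
  x := fun i => A.x (i + 1)
  rel := by
    show A.x 0 * A.x 5 * A.x 4 * A.x 3 * A.x 2 * A.x 1 = 1
    have : A.x 0 * A.x 5 * A.x 4 * A.x 3 * A.x 2 * A.x 1 =
      A.x 0 * (A.x 5 * A.x 4 * A.x 3 * A.x 2 * A.x 1 * A.x 0) * (A.x 0)⁻¹ := by group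
    rw [this, A.rel]; group
  I := A.I
  fI := A.fI
  pos := fun φ => A.x 0 (A.pos φ)
  ft := fun e => A.ft ((A.x 0)⁻¹ e)
  nd := fun _ => A.nd _
  mem := fun e φ => by rw [A.mem, Perm.eq_inv_iff_eq]

def LProt_g (A : St) : Fm (LProt_st A) A where
  v := id
  F := fun _ _ V => ⟨fun i d => V.X (i + 1) d,
    fun j => (V.X 0 (A.pos (j, false)))⁻¹ * V.c j * V.X 0 (A.pos (j, false)),
    fun j => (V.X 0 (A.pos (j, true)))⁻¹ * V.t j * V.X 0 (A.pos (j, false))⟩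

def LProt_f (A : St) : Fm A (LProt_st A) where
  v := id
  F := fun _ _ W => ⟨fun i d => W.X (i - 1) d,
    fun j => W.X 5 (A.pos (j, false)) * W.c j * (W.X 5 (A.pos (j, false)))⁻¹,
    fun j => W.X 5 (A.pos (j, true)) * W.t j * (W.X 5 (A.pos (j, false)))⁻¹⟩

theorem LProt_three (n : ℕ) : 3 ≤ Q 2 n := by
  unfold Q; nlinarith [Nat.zero_le n, Nat.zero_le (n * n)]

theorem LProt_g_rl (A : St) (n : ℕ) : (LProt_g A).Rl A.x (Q 2 n) 1 id := by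
  have h3 := LProt_three n
  have hN : ∀ (j : A.I) (k : Bool), ∃ k', Nr A.x 1 (id (A.pos (j, k)))
      ((LProt_st A).pos (j, k')) := fun j k => ⟨k, ((Nr.z A.x _).ap 0).symm⟩
  refine ⟨fun i d => ?_, fun j => ?_, fun j => ?_, fun Γ _ V hV => ⟨fun i => hV.pot (i + 1),
    fun e => ?_⟩⟩
  · exact (Rz.ex (B := A) (N := fun u => Nr A.x 1 u d) (i + 1) (Nr.refl 1 d)).cg
      (le_trans (by norm_num) h3) rfl rfl fun _ _ _ _ => rfl
  · exact (((Rz.ex (B := A) 0 (hN j false)).inv.mul (Rz.ec (B := A) j false (hN j false))).mul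
      (Rz.ex (B := A) 0 (hN j false))).cg h3 rfl rfl fun _ _ _ _ => rfl
  · exact (((Rz.ex (B := A) 0 (hN j true)).inv.mul (Rz.et (B := A) j false (hN j false))).mul
      (Rz.ex (B := A) 0 (hN j false))).cg h3 rfl rfl fun _ _ _ _ => rfl
  · obtain ⟨d, rfl⟩ := (A.x 0).surjective e
    have hf := hV.face d
    have hl : (((LProt_st A).ft (A.x 0 d)).map ((LProt_g A).F Γ V).lt).prod =
        (V.X 0 d)⁻¹ * ((A.ft d).map V.lt).prod * (V.X 0 d)⁻¹⁻¹ := by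
      show ((A.ft ((A.x 0)⁻¹ (A.x 0 d))).map _).prod = _
      rw [show (A.x 0)⁻¹ (A.x 0 d) = d by simp]
      refine LProt_conj _ _ _ _ fun φ hφ => ?_
      rw [← (A.mem d φ).1 hφ]
      rcases φ with ⟨j, _ | _⟩
      · simp [Vl.lt, LProt_g]
      · simp only [Vl.lt, LProt_g]; group
    rw [hl]
    show _ * V.X 1 (A.x 0 d) * V.X 2 (A.x 1 (A.x 0 d)) * V.X 3 (A.x 2 (A.x 1 (A.x 0 d))) *
      V.X 4 (A.x 3 (A.x 2 (A.x 1 (A.x 0 d)))) * V.X 5 (A.x 4 (A.x 3 (A.x 2 (A.x 1 (A.x 0 d))))) *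
      V.X 0 (A.x 5 (A.x 4 (A.x 3 (A.x 2 (A.x 1 (A.x 0 d)))))) = 1
    rw [LProt_rel]
    calc _ = (V.X 0 d)⁻¹ * (((A.ft d).map V.lt).prod * V.X 0 d * V.X 1 (A.x 0 d) *
        V.X 2 (A.x 1 (A.x 0 d)) * V.X 3 (A.x 2 (A.x 1 (A.x 0 d))) *
        V.X 4 (A.x 3 (A.x 2 (A.x 1 (A.x 0 d)))) *
        V.X 5 (A.x 4 (A.x 3 (A.x 2 (A.x 1 (A.x 0 d)))))) * V.X 0 d := by group
      _ = 1 := by rw [hf]; group

theorem LProt_f_rl (A : St) (n : ℕ) : (LProt_f A).Rl A.x (Q 2 n) 1 id := by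
  have h3 := LProt_three n
  have hN : ∀ (j : A.I) (k : Bool), ∃ k', Nr A.x 1 (id (A.pos (j, k))) (A.pos (j, k')) :=
    fun j k => ⟨k, Nr.refl 1 _⟩
  have hM : ∀ (j : A.I) (k : Bool), ∃ k', Nr A.x 1 (id ((LProt_st A).pos (j, k)))
      (A.pos (j, k')) := fun j k => ⟨k, (Nr.z A.x _).ap 0⟩
  have hx : ∀ i, (LProt_st A).x (i - 1) = A.x i := fun i => by
    show A.x (i - 1 + 1) = _
    rw [sub_add_cancel]
  refine ⟨fun i d => ?_, fun j => ?_, fun j => ?_, fun Γ _ W hW => ⟨fun i => ?_, fun d => ?_⟩⟩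
  · exact (Rz.ex (B := LProt_st A) (N := fun u => Nr A.x 1 u d) (i - 1) (Nr.refl 1 d)).cg
      (le_trans (by norm_num) h3) rfl (congrArg (fun s : Perm A.D => s d) (hx i))
      fun _ _ _ _ => rfl
  · exact (((Rz.ex (B := LProt_st A) 5 (hN j false)).mul (Rz.ec (B := LProt_st A) j false (hM j false))).mul
      (Rz.ex (B := LProt_st A) 5 (hN j false)).inv).cg h3 rfl rfl fun _ _ _ _ => rfl
  · exact (((Rz.ex (B := LProt_st A) 5 (hN j true)).mul (Rz.et (B := LProt_st A) j false (hM j false))).mul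
      (Rz.ex (B := LProt_st A) 5 (hN j false)).inv).cg h3 rfl rfl fun _ _ _ _ => rfl
  · have := hW.pot (i - 1)
    rw [hx] at this
    exact this
  · have hf := hW.face (A.x 0 d)
    have hl : ((A.ft d).map ((LProt_f A).F Γ W).lt).prod =
        W.X 5 d * (((LProt_st A).ft (A.x 0 d)).map W.lt).prod * (W.X 5 d)⁻¹ := by
      show _ = _ * ((A.ft ((A.x 0)⁻¹ (A.x 0 d))).map _).prod * _
      rw [show (A.x 0)⁻¹ (A.x 0 d) = d by simp]
      refine LProt_conj _ _ _ _ fun φ hφ => ?_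
      rw [← (A.mem d φ).1 hφ]
      rcases φ with ⟨j, _ | _⟩
      · simp [Vl.lt, LProt_f]
      · simp only [Vl.lt, LProt_f]; group
    rw [hl]
    change _ * W.X 0 (A.x 0 d) * W.X 1 (A.x 1 (A.x 0 d)) * W.X 2 (A.x 2 (A.x 1 (A.x 0 d))) *
      W.X 3 (A.x 3 (A.x 2 (A.x 1 (A.x 0 d)))) * W.X 4 (A.x 4 (A.x 3 (A.x 2 (A.x 1 (A.x 0 d))))) *
      W.X 5 (A.x 5 (A.x 4 (A.x 3 (A.x 2 (A.x 1 (A.x 0 d)))))) = 1 at hf
    rw [LProt_rel] at hf
    show _ * W.X 5 d * W.X 0 (A.x 0 d) * W.X 1 (A.x 1 (A.x 0 d)) *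
      W.X 2 (A.x 2 (A.x 1 (A.x 0 d))) * W.X 3 (A.x 3 (A.x 2 (A.x 1 (A.x 0 d)))) *
      W.X 4 (A.x 4 (A.x 3 (A.x 2 (A.x 1 (A.x 0 d))))) = 1
    calc _ = W.X 5 d * ((((LProt_st A).ft (A.x 0 d)).map W.lt).prod * W.X 0 (A.x 0 d) *
        W.X 1 (A.x 1 (A.x 0 d)) * W.X 2 (A.x 2 (A.x 1 (A.x 0 d))) *
        W.X 3 (A.x 3 (A.x 2 (A.x 1 (A.x 0 d)))) *
        W.X 4 (A.x 4 (A.x 3 (A.x 2 (A.x 1 (A.x 0 d))))) * W.X 5 d) * (W.X 5 d)⁻¹ := by group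
      _ = 1 := by rw [hf]; group

theorem LProt_qe (A : St) {n : ℕ} (h : A.Bd n) :
    (LProt_st A).Bd n ∧ Qe (Q 13 n) A.gd (LProt_st A).gd := by
  have hB : (LProt_st A).Bd n := ⟨fun i d => h.1 (i + 1) d, fun e => h.2 _⟩
  refine ⟨hB, qe_of_fm (k := 2) (m := 1) (LProt_f A) (LProt_g A) h hB h.1 h.1 (LProt_f_rl A n)
    (LProt_g_rl A n) (Fm.bk_of_eq (fun _ => rfl) fun Γ _ V _ => Vl.ext' (fun i d => ?_)
      (fun j => ?_) fun j => ?_) (Fm.bk_of_eq (fun _ => rfl) fun Γ _ W _ =>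
        Vl.ext' (fun i d => ?_) (fun j => ?_) fun j => ?_)⟩
  · show V.X (i - 1 + 1) d = _
    rw [sub_add_cancel]
  · show V.X 0 _ * ((V.X 0 _)⁻¹ * V.c j * V.X 0 _) * (V.X 0 _)⁻¹ = _
    group
  · show V.X 0 _ * ((V.X 0 _)⁻¹ * V.t j * V.X 0 _) * (V.X 0 _)⁻¹ = _
    group
  · show W.X (i + 1 - 1) d = _
    rw [add_sub_cancel_right]
  · show (W.X 5 _)⁻¹ * (W.X 5 _ * W.c j * (W.X 5 _)⁻¹) * W.X 5 _ = _
    group
  · show (W.X 5 _)⁻¹ * (W.X 5 _ * W.t j * (W.X 5 _)⁻¹) * W.X 5 _ = _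
    group

variable {D I : Type} [Finite D] [Finite I] {x x' : Fin 6 → Perm D}
  {rel : x 5 * x 4 * x 3 * x 2 * x 1 * x 0 = 1} {rel' : x' 5 * x' 4 * x' 3 * x' 2 * x' 1 * x' 0 = 1}
  {pos pos' : I × Bool → D} {n : ℕ}

theorem p_rot (hx : ∀ i, x' i = x (i + 1)) (hp : ∀ φ, pos' φ = x 0 (pos φ)) (h : Bd6 x pos n) :
    Qe (Q 100 n) (can x rel pos).gd (can x' rel' pos').gd := by
  obtain rfl : x' = fun i => x (i + 1) := funext hx
  obtain rfl : pos' = fun φ => x 0 (pos φ) := funext hp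
  obtain ⟨h1, h2⟩ := LProt_qe (can x rel pos) (can_bd.2 h)
  exact (h2.transQ (qe_can _ h1)).monoQ (by norm_num) le_rfl

end Pool.Agent.MC.LL
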