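import Pool.Agent.P.MP_2677b3_gt.LPiso
import Pool.Agent.P.MP_2677b3_gt.LProt
import Pool.Agent.P.MP_2677b3_gt.LPhur
import Pool.Agent.P.MP_2677b3_gt.LPmer
import Pool.Agent.P.MP_2677b3_gt.LPmir
import Pool.Agent.P.MP_2677b3_gt.LPgat

open Equiv Function

noncomputable section

namespace Pool.Agent.MC.LL

variable {D I : Type} [Finite D] [Finite I] {x x' : Fin 6 → Perm D}
  {rel : x 5 * x 4 * x 3 * x 2 * x 1 * x 0 = 1} {rel' : x' 5 * x' 4 * x' 3 * x' 2 * x' 1 * x' 0 = 1}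
  {pos pos' : I × Bool → D} {n : ℕ}

theorem la1_rel1 {y z : Fin 6 → Perm D} (r : y 5 * y 4 * y 3 * y 2 * y 1 * y 0 = 1)
    (h : ∀ i, z i = y (i + 1)) : z 5 * z 4 * z 3 * z 2 * z 1 * z 0 = 1 := by
  rw [h 5, h 4, h 3, h 2, h 1, h 0]
  show y 0 * y 5 * y 4 * y 3 * y 2 * y 1 = 1
  have : y 0 * y 5 * y 4 * y 3 * y 2 * y 1 =
    y 0 * (y 5 * y 4 * y 3 * y 2 * y 1 * y 0) * (y 0)⁻¹ := by group
  rw [this, r]; group

theorem la1_succ (m : ℕ) (i : Fin 6) : i + Fin.ofNat 6 (m + 1) = i + 1 + Fin.ofNat 6 m := by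
  apply Fin.ext
  simp only [Fin.val_add, Fin.val_ofNat, Fin.val_one]
  omega

theorem la1_relm {y : Fin 6 → Perm D} (r : y 5 * y 4 * y 3 * y 2 * y 1 * y 0 = 1) (m : ℕ) :
    ∀ z : Fin 6 → Perm D, (∀ i, z i = y (i + Fin.ofNat 6 m)) →
      z 5 * z 4 * z 3 * z 2 * z 1 * z 0 = 1 := by
  induction m with
  | zero =>
    intro z h
    have : z = y := funext fun i => by rw [h i]; simp
    rw [this]; exact r
  | succ m ih =>
    intro z h
    have r1 := ih (fun i => y (i + Fin.ofNat 6 m)) fun _ => rfl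
    exact la1_rel1 (y := fun i => y (i + Fin.ofNat 6 m)) r1 fun i => by rw [h i, la1_succ]

theorem la1_of (k : Fin 6) : Fin.ofNat 6 k.val = k := Fin.ext (Nat.mod_eq_of_lt k.2)

theorem la1_rel {y : Fin 6 → Perm D} (r : y 5 * y 4 * y 3 * y 2 * y 1 * y 0 = 1) (k : Fin 6) :
    y (5 + k) * y (4 + k) * y (3 + k) * y (2 + k) * y (1 + k) * y (0 + k) = 1 :=
  la1_relm r k.val (fun i => y (i + k)) fun i => by rw [la1_of]

theorem la1_bd {y z : Fin 6 → Perm D} {k : Fin 6} (hx : ∀ i, z i = y (i + k))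
    (h : Bd6 y pos n) : Bd6 z pos n := ⟨fun i d => by rw [hx i]; exact h.1 _ d, h.2⟩

theorem la1_step (hx : ∀ i, x' i = x (i + 1)) (h : Bd6 x pos n) :
    Qe (Q 900 n) (can x rel pos).gd (can x' rel' pos).gd := by
  have h0 : Bd6 x (⇑(x 0)⁻¹ ∘ pos) n := ⟨h.1, h.2.map (x 0)⁻¹.injective⟩
  have a : Qe (Q 800 n) (can x rel pos).gd (can x rel (⇑(x 0)⁻¹ ∘ pos)).gd :=
    p_mov0 (fun φ => by
      have := sc_self_apply (x 0)⁻¹ (pos φ)
      exact Perm.sameCycle_inv.1 this) h h0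
  have b : Qe (Q 100 n) (can x rel (⇑(x 0)⁻¹ ∘ pos)).gd (can x' rel' pos).gd :=
    p_rot hx (fun φ => by simp) h0
  exact (a.transQ b).monoQ (by omega) le_rfl

theorem la1_ind (h : Bd6 x pos n) (m : ℕ) : ∀ (z : Fin 6 → Perm D)
    (rz : z 5 * z 4 * z 3 * z 2 * z 1 * z 0 = 1), (∀ i, z i = x (i + Fin.ofNat 6 m)) →
      Qe (Q (900 * m) n) (can x rel pos).gd (can z rz pos).gd := by
  induction m with
  | zero =>
    intro z rz hz
    have : z = x := funext fun i => by rw [hz i]; simp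
    subst this
    exact (Qe.refl _).mono (Q_pos _ _)
  | succ m ih =>
    intro z rz hz
    have ry := la1_relm rel m (fun i => x (i + Fin.ofNat 6 m)) fun _ => rfl
    have a := ih (fun i => x (i + Fin.ofNat 6 m)) ry fun _ => rfl
    have b : Qe (Q 900 n) (can (fun i => x (i + Fin.ofNat 6 m)) ry pos).gd (can z rz pos).gd :=
      la1_step (fun i => by rw [hz i, la1_succ]) (la1_bd (fun _ => rfl) h)
    exact (a.transQ b).monoQ (by omega) le_rfl

theorem la1_ne {k i : Fin 6} (h0 : i ≠ 0) (h1 : i ≠ 1) : i + k ≠ k ∧ i + k ≠ k + 1 := by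
  revert k i; decide

/-- Rotation by `k` slots with the positions unchanged. -/
theorem p_rotk (k : Fin 6) (hx : ∀ i, x' i = x (i + k)) (h : Bd6 x pos n) :
    Qe (Q 5000 n) (can x rel pos).gd (can x' rel' pos).gd :=
  (la1_ind h k.val x' rel' fun i => by rw [hx i, la1_of]).monoQ (by have := k.2; omega) le_rfl

/-- Feet move inside the cycles of any slot. -/
theorem p_mov (k : Fin 6) (hp : ∀ φ, (x k).SameCycle (pos φ) (pos' φ)) (h : Bd6 x pos n)
    (h' : Bd6 x pos' n) : Qe (Q 11000 n) (can x rel pos).gd (can x rel pos').gd := by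
  have ry := la1_rel rel k
  have a : Qe _ (can x rel pos).gd (can (fun i => x (i + k)) ry pos).gd :=
    p_rotk k (fun _ => rfl) h
  have c : Qe _ (can x rel pos').gd (can (fun i => x (i + k)) ry pos').gd :=
    p_rotk k (fun _ => rfl) h'
  have b : Qe _ (can (fun i => x (i + k)) ry pos).gd (can (fun i => x (i + k)) ry pos').gd :=
    p_mov0 (fun φ => by simpa using hp φ) (la1_bd (fun _ => rfl) h) (la1_bd (fun _ => rfl) h')
  exact ((a.transQ b).transQ c.symm).monoQ (by omega) le_rfl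

/-- Hurwitz move at the slots `k, k + 1`. -/
theorem p_hurk (k : Fin 6) (h0 : x' k = (x k)⁻¹ * x (k + 1) * x k) (h1 : x' (k + 1) = x k)
    (hx : ∀ i, i ≠ k → i ≠ k + 1 → x' i = x i) (h : Bd6 x pos n) :
    Qe (Q 11000 n) (can x rel pos).gd (can x' rel' pos).gd := by
  have h' : Bd6 x' pos n := by
    refine ⟨fun i d => ?_, h.2⟩
    by_cases e0 : i = k
    · have := sz_conj (x (k + 1)) (x k)⁻¹ (x k d)
      rw [inv_inv, show (x k)⁻¹ (x k d) = d by simp] at this
      rw [e0, h0, this]; exact h.1 _ _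
    · by_cases e1 : i = k + 1
      · rw [e1, h1]; exact h.1 _ _
      · rw [hx i e0 e1]; exact h.1 _ _
  have ry := la1_rel rel k
  have rz := la1_rel rel' k
  have a : Qe _ (can x rel pos).gd (can (fun i => x (i + k)) ry pos).gd :=
    p_rotk k (fun _ => rfl) h
  have c : Qe _ (can x' rel' pos).gd (can (fun i => x' (i + k)) rz pos).gd :=
    p_rotk k (fun _ => rfl) h'
  have b : Qe _ (can (fun i => x (i + k)) ry pos).gd (can (fun i => x' (i + k)) rz pos).gd :=
    p_hur (by simpa [add_comm] using h0) (by simpa [add_comm] using h1)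
      (fun i i0 i1 => hx _ (la1_ne i0 i1).1 (la1_ne i0 i1).2) (la1_bd (fun _ => rfl) h)
  exact ((a.transQ b).transQ c.symm).monoQ (by omega) le_rfl

/-- Merge at the slots `k, k + 1`. -/
theorem p_mergek (k : Fin 6) (ht : Tree (x k) (x (k + 1))) (h0 : x' k = x (k + 1) * x k)
    (h1 : x' (k + 1) = 1) (hx : ∀ i, i ≠ k → i ≠ k + 1 → x' i = x i) (h : Bd6 x pos n)
    (h' : Bd6 x' pos n) : Qe (Q 11000 n) (can x rel pos).gd (can x' rel' pos).gd := by
  have ry := la1_rel rel k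
  have rz := la1_rel rel' k
  have a : Qe _ (can x rel pos).gd (can (fun i => x (i + k)) ry pos).gd :=
    p_rotk k (fun _ => rfl) h
  have c : Qe _ (can x' rel' pos).gd (can (fun i => x' (i + k)) rz pos).gd :=
    p_rotk k (fun _ => rfl) h'
  have b : Qe _ (can (fun i => x (i + k)) ry pos).gd (can (fun i => x' (i + k)) rz pos).gd :=
    p_merge (by simpa [add_comm] using ht) (by simpa [add_comm] using h0)
      (by simpa [add_comm] using h1)
      (fun i i0 i1 => hx _ (la1_ne i0 i1).1 (la1_ne i0 i1).2) (la1_bd (fun _ => rfl) h)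
      (la1_bd (fun _ => rfl) h')
  exact ((a.transQ b).transQ c.symm).monoQ (by omega) le_rfl

end Pool.Agent.MC.LL
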