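import Pool.Agent.P.MP_2677b3_gt.LS1

open Equiv Function

noncomputable section

namespace Pool.Agent.MC.LL

variable {G : P4} {I : Type} [Finite I] {a b : I → G.D} {n : ℕ}

theorem la2a_x6 (G : P4) (i : Fin 6) : ∃ c, G.x6 i = G.y c := by
  fin_cases i
  exacts [⟨0, rfl⟩, ⟨1, rfl⟩, ⟨2, rfl⟩, ⟨3, rfl⟩, ⟨4, rfl⟩, ⟨4, rfl⟩]

theorem la2a_y (G : P4) (c : Fin 5) : G.y c = G.x6 c.castSucc := by fin_cases c <;> rfl

theorem P4.bd6 (h : G.Sz n) (ha : Ft n a) (hb : Ft n b) : Bd6 G.x6 (feet a b) (2 * n) := by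
  refine ⟨fun i d => ?_, ha.feet hb⟩
  obtain ⟨c, e⟩ := la2a_x6 G i
  exact e ▸ (h c d).trans (by omega)

/-- The bound on the number of feet after a move. -/
theorem ft_mov {a' : I → G.D} {H : ℕ} (hna : ∀ i, Nr G.y 10 (a i) (a' i)) (h : G.Sz n)
    (ha : Ft H a) : Ft (H * Q 30 n) a' := by
  refine (Ft.near h ha hna).mono (Nat.mul_le_mul_left _ ?_)
  rw [Fintype.card_fin, Q, show 30 = 3 * 10 from rfl, pow_mul]
  exact Nat.pow_le_pow_left (by nlinarith [Nat.zero_le (n ^ 3), Nat.zero_le (n ^ 2)]) _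

theorem P4.Sz.mono {n' : ℕ} (h : G.Sz n) (hn : n ≤ n') : G.Sz n' := fun c d => (h c d).trans hn
theorem P4.sz_iff : G.Sz n ↔ (∀ d, sz G.x0 d ≤ n) ∧ (∀ d, sz G.x1 d ≤ n) ∧ (∀ d, sz G.x2 d ≤ n) ∧
    ∀ d, sz G.x3 d ≤ n := by
  refine ⟨fun h => ⟨h 0, h 1, h 2, h 3⟩, fun h c d => ?_⟩
  fin_cases c
  exacts [h.1 d, h.2.1 d, h.2.2.1 d, h.2.2.2 d,
    (sz_fix (σ := 1) rfl).le.trans ((sz_pos G.x0 d).trans_le (h.1 d))]
theorem P4.Sz.rot (h : G.Sz n) : G.rot.Sz n := P4.sz_iff.2 ⟨h 1, h 2, h 3, h 0⟩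
theorem P4.Sz.hur (h : G.Sz n) : G.hur.Sz n := P4.sz_iff.2 ⟨fun d => by
  simpa using (sz_conj G.x1 G.x0⁻¹ (G.x0 d)).le.trans (h 1 _), h 0, h 2, h 3⟩
theorem P4.Sz.mir (h : G.Sz n) : G.mir.Sz n :=
  P4.sz_iff.2 ⟨fun d => (sz_inv _ d).le.trans (h 1 d), fun d => (sz_inv _ d).le.trans (h 0 d),
    fun d => (sz_inv _ d).le.trans (h 3 d), fun d => (sz_inv _ d).le.trans (h 2 d)⟩
theorem P4.nr0 {d e : G.D} (h : G.x0.SameCycle d e) : Nr G.y 1 d e := Nr.one (i := 0) h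
theorem P4.nr1 {d e : G.D} (h : G.x1.SameCycle d e) : Nr G.y 1 d e := Nr.one (i := 1) h
theorem P4.nr2 {d e : G.D} (h : G.x2.SameCycle d e) : Nr G.y 1 d e := Nr.one (i := 2) h
theorem P4.nr3 {d e : G.D} (h : G.x3.SameCycle d e) : Nr G.y 1 d e := Nr.one (i := 3) h

theorem la2a_nr {D ι : Type} {x x' : ι → Perm D} (s : Perm ι)
    (h : ∀ i u e, (x i).SameCycle u e ↔ (x' (s i)).SameCycle u e) {m : ℕ} {d e : D} :
    Nr x m d e ↔ Nr x' m d e := by
  induction m generalizing e with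
  | zero => rfl
  | succ m ih =>
    exact exists_congr fun u => (exists_congr fun i => and_congr ih (h i u e)).trans
      (s.exists_congr_right (q := fun i => Nr x' m d u ∧ (x' i).SameCycle u e))

theorem P4.nr_rot {m : ℕ} {d e : G.D} : Nr G.rot.y m d e ↔ Nr G.y m d e :=
  la2a_nr ⟨![1, 2, 3, 0, 4], ![3, 0, 1, 2, 4], by decide, by decide⟩ fun i _ _ => by
    fin_cases i <;> rfl
theorem P4.nr_mir {m : ℕ} {d e : G.D} : Nr G.mir.y m d e ↔ Nr G.y m d e :=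
  la2a_nr ⟨![1, 0, 3, 2, 4], ![1, 0, 3, 2, 4], by decide, by decide⟩ fun i _ _ => by
    fin_cases i
    exacts [Perm.sameCycle_inv, Perm.sameCycle_inv, Perm.sameCycle_inv, Perm.sameCycle_inv, Iff.rfl]

theorem la2a_path (hc : G.Conn) (d e : G.D) : ∃ p, (G.gd a b).Path d p e := by
  induction hc d e with
  | refl => exact ⟨[], rfl⟩
  | tail _ k ih =>
    obtain ⟨p, hp⟩ := ih
    obtain ⟨c, rfl⟩ := k
    rw [la2a_y]
    exact ⟨_, hp.append ((can G.x6 G.rel6 (feet a b)).path_ex c.castSucc _)⟩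

theorem la2a_sc {i : Fin 6} {d e : G.D} (h : (G.x6 i).SameCycle d e) :
    Relation.ReflTransGen (fun u v => ∃ c, v = G.y c u) d e := by
  obtain ⟨c, k⟩ := la2a_x6 G i
  obtain ⟨m, rfl⟩ := h.exists_nat_pow_eq
  rw [k]
  clear h
  induction m with
  | zero => exact .refl
  | succ m ih => exact ih.tail ⟨c, by rw [pow_succ', Perm.mul_apply]⟩

theorem la2a_conn {p : List (G.gd a a).E} {d e : G.D} (h : (G.gd a a).Path d p e) :
    Relation.ReflTransGen (fun u v => ∃ c, v = G.y c u) d e := by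
  induction p generalizing d with
  | nil => exact (show d = e from h) ▸ .refl
  | cons s p ih =>
    obtain ⟨rfl, k⟩ := h
    refine .trans ?_ (ih k)
    rcases s with ⟨u, i, _ | _⟩ | ⟨j, _ | _, _ | _⟩
    exacts [la2a_sc (i := i) (Perm.sameCycle_apply_left.2 (.refl _ u)),
      la2a_sc (i := i) (Perm.sameCycle_apply_right.2 (.refl _ u)), .refl, .refl, .refl, .refl]

/-- Connectivity passes through an equivalence of states whose tubes are handles. -/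
theorem conn_of_qe {G' : P4} {I' : Type} [Finite I'] {a' : I' → G'.D} {E : ℕ}
    (h : Qe E (G.gd a b) (G'.gd a' a')) (hc : G.Conn) : G'.Conn := by
  obtain ⟨f, g, -, ⟨η, hη, -⟩, -⟩ := h
  intro d e
  obtain ⟨p, hp⟩ := la2a_path (a := a) (b := b) hc (g.v d) (g.v e)
  exact la2a_conn (((hη d).append (f.map_path hp)).append (hη e).rev)

theorem P4.Conn.path (hc : G.Conn) (d e : G.D) : ∃ p, (G.gd a b).Path d p e := la2a_path hc d e

end Pool.Agent.MC.LL
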