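import Pool.Agent.P.MP_2677b3_gt.LA1
import Pool.Agent.P.MP_2677b3_gt.LA2a

open Equiv Function

noncomputable section

namespace Pool.Agent.MC.LL

variable {G : P4} {I : Type} [Finite I] {a b : I → G.D} {n : ℕ}

section
variable {D J : Type} [Finite D] [Finite J] {pos : J × Bool → D} {N : ℕ}

omit [Finite D] [Finite J] in
theorem la2_bd {c0 c1 c2 c3 c4 c5 : Perm D} (h0 : ∀ d, sz c0 d ≤ N) (h1 : ∀ d, sz c1 d ≤ N)
    (h2 : ∀ d, sz c2 d ≤ N) (h3 : ∀ d, sz c3 d ≤ N) (h4 : ∀ d, sz c4 d ≤ N)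
    (h5 : ∀ d, sz c5 d ≤ N) (hf : Ft N pos) : Bd6 ![c0, c1, c2, c3, c4, c5] pos N := by
  refine ⟨fun i => ?_, hf⟩
  fin_cases i
  exacts [h0, h1, h2, h3, h4, h5]

theorem la2_sw {x x' : Fin 6 → Perm D} (rel : x 5 * x 4 * x 3 * x 2 * x 1 * x 0 = 1)
    (rel' : x' 5 * x' 4 * x' 3 * x' 2 * x' 1 * x' 0 = 1) (k : Fin 6) (hk : x k = 1)
    (h0 : x' k = x (k + 1)) (h1 : x' (k + 1) = 1)
    (hx : ∀ i, i ≠ k → i ≠ k + 1 → x' i = x i) (h : Bd6 x pos N) :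
    Qe (Q 11000 N) (can x rel pos).gd (can x' rel' pos).gd :=
  p_hurk k (by rw [hk, h0]; simp) (by rw [hk, h1]) hx h

theorem la2_sw2 {c0 c1 c3 c4 c5 : Perm D} (r : _) (r' : _)
    (h : Bd6 ![c0, c1, 1, c3, c4, c5] pos N) :
    Qe (Q 11000 N) (can ![c0, c1, 1, c3, c4, c5] r pos).gd
      (can ![c0, c1, c3, 1, c4, c5] r' pos).gd :=
  la2_sw r r' 2 rfl rfl rfl (fun i h1 h2 => by
    fin_cases i
    exacts [rfl, rfl, absurd rfl h1, absurd rfl h2, rfl, rfl]) h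

theorem la2_sw3 {c0 c1 c2 c4 c5 : Perm D} (r : _) (r' : _)
    (h : Bd6 ![c0, c1, c2, 1, c4, c5] pos N) :
    Qe (Q 11000 N) (can ![c0, c1, c2, 1, c4, c5] r pos).gd
      (can ![c0, c1, c2, c4, 1, c5] r' pos).gd :=
  la2_sw r r' 3 rfl rfl rfl (fun i h1 h2 => by
    fin_cases i
    exacts [rfl, rfl, rfl, absurd rfl h1, absurd rfl h2, rfl]) h

theorem la2_sw4 {c0 c1 c2 c3 c5 : Perm D} (r : _) (r' : _)
    (h : Bd6 ![c0, c1, c2, c3, 1, c5] pos N) :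
    Qe (Q 11000 N) (can ![c0, c1, c2, c3, 1, c5] r pos).gd
      (can ![c0, c1, c2, c3, c5, 1] r' pos).gd :=
  la2_sw r r' 4 rfl rfl rfl (fun i h1 h2 => by
    fin_cases i
    exacts [rfl, rfl, rfl, rfl, absurd rfl h1, absurd rfl h2]) h

omit [Finite D] in
theorem la2_rel {c0 c1 c2 c3 c4 c5 : Perm D} (h : c5 * c4 * c3 * c2 * c1 * c0 = 1) :
    ![c0, c1, c2, c3, c4, c5] 5 * ![c0, c1, c2, c3, c4, c5] 4 * ![c0, c1, c2, c3, c4, c5] 3 *
      ![c0, c1, c2, c3, c4, c5] 2 * ![c0, c1, c2, c3, c4, c5] 1 * ![c0, c1, c2, c3, c4, c5] 0 = 1 :=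
  h

theorem la2_hop {x : Fin 6 → Perm D} (rel : x 5 * x 4 * x 3 * x 2 * x 1 * x 0 = 1)
    (hs : ∀ i d, sz (x i) d ≤ N) {u q : J × Bool → D} (c : J × Bool → Fin 6)
    (hc : ∀ φ, (x (c φ)).SameCycle (u φ) (q φ))
    (hF : ∀ w : J × Bool → D, (∀ φ, w φ = u φ ∨ w φ = q φ) → Ft N w) (k : ℕ) (hk : k ≤ 6) :
    Qe (Q (11000 * k) N) (can x rel u).gd
      (can x rel fun φ => if (c φ).val < k then q φ else u φ).gd := by
  have hb : ∀ k : ℕ, Bd6 x (fun φ => if (c φ).val < k then q φ else u φ) N := fun k =>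
    ⟨hs, hF _ fun φ => by by_cases h : (c φ).val < k <;> simp [h]⟩
  induction k with
  | zero => exact Qe.refl _
  | succ k ih =>
    refine ((ih (by omega)).transQ (p_mov ⟨k, by omega⟩ (fun φ => ?_) (hb k) (hb (k + 1)))).monoQ
      (by omega) le_rfl
    rcases lt_trichotomy (c φ).val k with h | h | h
    · simp only [h, Nat.lt_succ_of_lt h, if_true]
      exact .refl _ _
    · have e : (⟨k, by omega⟩ : Fin 6) = c φ := Fin.ext h.symm
      rw [if_neg (by omega), if_pos (by omega), e]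
      exact hc φ
    · rw [if_neg (by omega), if_neg (by omega)]

theorem la2_mov {x : Fin 6 → Perm D} (rel : x 5 * x 4 * x 3 * x 2 * x 1 * x 0 = 1)
    (hs : ∀ i d, sz (x i) d ≤ N)
    (hF : ∀ w : J × Bool → D, (∀ φ, Nr x 10 (pos φ) (w φ)) → Ft N w) (m : ℕ) (hm : m ≤ 10)
    {q : J × Bool → D} (hq : ∀ φ, Nr x m (pos φ) (q φ)) :
    Qe (Q (66000 * m) N) (can x rel pos).gd (can x rel q).gd := by
  induction m generalizing q with
  | zero =>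
    obtain rfl : pos = q := funext hq
    exact Qe.refl _
  | succ m ih =>
    have hq' := hq
    choose u c h1 h2 using hq'
    have h6 := la2_hop rel hs c h2 (fun w hw => hF w fun φ => by
      rcases hw φ with e | e <;> rw [e]
      exacts [(h1 φ).mono (by omega), (hq φ).mono hm]) 6 le_rfl
    have e : (fun φ => if (c φ).val < 6 then q φ else u φ) = q :=
      funext fun φ => if_pos (c φ).isLt
    rw [e] at h6
    exact ((ih (by omega) h1).transQ h6).monoQ (by omega) le_rfl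

end

theorem la2_nr {m : ℕ} {d e : G.D} (h : Nr G.y m d e) : Nr G.x6 m d e := by
  induction m generalizing e with
  | zero => exact h
  | succ m ih =>
    obtain ⟨u, c, h1, h2⟩ := h
    exact ⟨u, c.castSucc, ih h1, la2a_y G c ▸ h2⟩

theorem la2_two (n : ℕ) : 2 * n ≤ Q 2 n := by
  unfold Q
  nlinarith [Nat.zero_le (n ^ 2)]

theorem la2_fin {A B : Gd} {k : ℕ} (h : Qe (Q k (2 * n)) A B) (hk : k ≤ 1000000) :
    Qe (Q kA n) A B :=
  (h.QQ (la2_two n)).monoQ (by rw [kA_def]; omega) le_rfl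

theorem api_iso {G' : P4} {I' : Type} [Finite I'] {a' b' : I' → G'.D} (e : G.D ≃ G'.D) (σ : I ≃ I')
    (h0 : ∀ d, e (G.x0 d) = G'.x0 (e d)) (h1 : ∀ d, e (G.x1 d) = G'.x1 (e d))
    (h2 : ∀ d, e (G.x2 d) = G'.x2 (e d)) (h3 : ∀ d, e (G.x3 d) = G'.x3 (e d))
    (hpa : ∀ i, e (a i) = a' (σ i)) (hpb : ∀ i, e (b i) = b' (σ i))
    (h : G.Sz n) (ha : Ft n a) (hb : Ft n b) : Qe (Q kA n) (G.gd a b) (G'.gd a' b') := by
  refine la2_fin (p_iso e σ (fun i d => ?_) (fun j k => ?_) (P4.bd6 h ha hb)) (by omega)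
  · fin_cases i
    exacts [h0 d, h1 d, h2 d, h3 d, rfl, rfl]
  · cases k
    exacts [hpa j, hpb j]

theorem api_rot (h : G.Sz n) (ha : Ft n a) (hb : Ft n b) :
    Qe (Q kA n) (G.gd a b) (G.rot.gd a b) := by
  have B := P4.bd6 h ha hb
  have r := G.rot.rel
  have r1 := la2_rel (c0 := G.x1) (c1 := G.x2) (c2 := G.x3) (c3 := 1) (c4 := 1) (c5 := G.x0)
    (by simpa using r)
  have r2 := la2_rel (c0 := G.x1) (c1 := G.x2) (c2 := G.x3) (c3 := 1) (c4 := G.x0) (c5 := 1)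
    (by simpa using r)
  have q1 := p_rotk (rel := G.rel6) (rel' := r1) 1 (fun i => by fin_cases i <;> rfl) B
  have q2 := la2_sw4 r1 r2 (la2_bd (B.1 1) (B.1 2) (B.1 3) (B.1 4) (B.1 4) (B.1 0) B.2)
  have q3 := la2_sw3 r2 G.rot.rel6 (la2_bd (B.1 1) (B.1 2) (B.1 3) (B.1 4) (B.1 0) (B.1 4) B.2)
  exact la2_fin ((q1.transQ q2).transQ q3) (by omega)

theorem api_hur (h : G.Sz n) (ha : Ft n a) (hb : Ft n b) :
    Qe (Q kA n) (G.gd a b) (G.hur.gd a b) := by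
  refine la2_fin (p_hurk (rel := G.rel6) (rel' := G.hur.rel6) 0 rfl rfl (fun i h1 h2 => ?_)
    (P4.bd6 h ha hb)) (by omega)
  fin_cases i
  exacts [absurd rfl h1, absurd rfl h2, rfl, rfl, rfl, rfl]

theorem api_mir (h : G.Sz n) (ha : Ft n a) (hb : Ft n b) :
    Qe (Q kA n) (G.gd a b) (G.mir.gd b a) := by
  have B := P4.bd6 h ha hb
  have C := P4.bd6 h.mir hb ha
  have r := G.mir.rel
  have r0 := la2_rel (c0 := 1) (c1 := 1) (c2 := G.x3⁻¹) (c3 := G.x2⁻¹) (c4 := G.x1⁻¹)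
    (c5 := G.x0⁻¹) (by
      have : G.x0⁻¹ * G.x1⁻¹ * G.x2⁻¹ * G.x3⁻¹ * 1 * 1 = (G.x3 * G.x2 * G.x1 * G.x0)⁻¹ := by group
      rw [this, G.rel, inv_one])
  have r1 := la2_rel (c0 := G.x1⁻¹) (c1 := G.x0⁻¹) (c2 := 1) (c3 := 1) (c4 := G.x3⁻¹)
    (c5 := G.x2⁻¹) (by simpa only [mul_one, one_mul] using r)
  have r2 := la2_rel (c0 := G.x1⁻¹) (c1 := G.x0⁻¹) (c2 := 1) (c3 := G.x3⁻¹) (c4 := 1)
    (c5 := G.x2⁻¹) (by simpa only [mul_one, one_mul] using r)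
  have r3 := la2_rel (c0 := G.x1⁻¹) (c1 := G.x0⁻¹) (c2 := G.x3⁻¹) (c3 := 1) (c4 := 1)
    (c5 := G.x2⁻¹) (by simpa only [mul_one, one_mul] using r)
  have r4 := la2_rel (c0 := G.x1⁻¹) (c1 := G.x0⁻¹) (c2 := G.x3⁻¹) (c3 := 1) (c4 := G.x2⁻¹)
    (c5 := 1) (by simpa only [mul_one, one_mul] using r)
  have q0 := p_mir (rel := G.rel6) (rel' := r0) (pos' := feet b a)
    (fun i => by fin_cases i <;> rfl) (fun j k => by cases k <;> rfl) B
  have q1 := p_rotk (rel := r0) (rel' := r1) 4 (fun i => by fin_cases i <;> rfl)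
    (la2_bd (C.1 4) (C.1 4) (C.1 2) (C.1 3) (C.1 0) (C.1 1) C.2)
  have q2 := la2_sw3 r1 r2 (la2_bd (C.1 0) (C.1 1) (C.1 4) (C.1 4) (C.1 2) (C.1 3) C.2)
  have q3 := la2_sw2 r2 r3 (la2_bd (C.1 0) (C.1 1) (C.1 4) (C.1 2) (C.1 4) (C.1 3) C.2)
  have q4 := la2_sw4 r3 r4 (la2_bd (C.1 0) (C.1 1) (C.1 2) (C.1 4) (C.1 4) (C.1 3) C.2)
  have q5 := la2_sw3 r4 G.mir.rel6 (la2_bd (C.1 0) (C.1 1) (C.1 2) (C.1 4) (C.1 3) (C.1 4) C.2)
  exact la2_fin (((((q0.transQ q1).transQ q2).transQ q3).transQ q4).transQ q5) (by omega)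

theorem api_mov {a' b' : I → G.D} (hna : ∀ i, Nr G.y 10 (a i) (a' i))
    (hnb : ∀ i, Nr G.y 10 (b i) (b' i)) (h : G.Sz n) (ha : Ft n a) (hb : Ft n b) :
    Qe (Q kA n) (G.gd a b) (G.gd a' b') := by
  have B := P4.bd6 h ha hb
  have h2 := la2_two n
  have h3 : 6 * (2 * n) ≤ Q 5 n := by
    have := Q_mul_le (two_pow_le_Q 3 n) h2
    exact le_trans (by omega) this
  have h4 : 2 * n * (Fintype.card (Fin 6) * (2 * n)) ^ 10 ≤ Q 52 n := by
    refine Q_mul_le (k' := 50) h2 ?_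
    rw [Fintype.card_fin, Q, show 50 = 5 * 10 from rfl, pow_mul]
    exact Nat.pow_le_pow_left h3 _
  have q := la2_mov (N := Q 52 n) (pos := feet a b) G.rel6
    (fun i d => (B.1 i d).trans (h2.trans (Q_mono (by omega) le_rfl)))
    (fun w hw => (Ft.near B.1 B.2 hw).mono h4) 10 le_rfl (q := feet a' b') (fun φ => by
      rcases φ with ⟨j, _ | _⟩
      exacts [la2_nr (hna j), la2_nr (hnb j)])
  exact (q.QQ le_rfl).monoQ (by rw [kA_def]; omega) le_rfl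

end Pool.Agent.MC.LL
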