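import Pool.Agent.P.MP_2677b3_gt.Basic

/-! Maps of graphs with an energy bound. -/

open Equiv
open scoped ENNReal

namespace Pool.Agent.MC.LL

/-- A map that sends edges to paths and null-homotopic loops to null-homotopic loops. -/
structure Mp (A B : Gd) where
  v : A.V → B.V
  e : A.E → List B.E
  path : ∀ a, B.Path (v (A.src a)) (e a) (v (A.tgt a))
  cong : ∀ x p, A.Path x p x → A.ev p = 1 → B.ev (p.flatMap e) = 1

/-- `g ∘ f` is homotopic to the identity. -/
def Mp.Back {A B : Gd} (f : Mp A B) (g : Mp B A) : Prop :=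
  ∃ η : A.V → List A.E, (∀ x, A.Path x (η x) (g.v (f.v x))) ∧
    ∀ a, A.ev (η (A.src a)) * A.ev ((f.e a).flatMap g.e) = A.val a * A.ev (η (A.tgt a))

/-- Energy bound. -/
def Mp.En {A B : Gd} (f : Mp A B) (E : ℕ) : Prop :=
  ∀ ρ : B.E → ℝ≥0∞, ∑' a, ((f.e a).map ρ).sum ^ 2 ≤ E * ∑' b, ρ b ^ 2

/-- Homotopy equivalence with energy at most `E` in both directions. -/
def Qe (E : ℕ) (A B : Gd) : Prop :=
  ∃ (f : Mp A B) (g : Mp B A), f.Back g ∧ g.Back f ∧ f.En E ∧ g.En E

/-- Homotopy equivalence with energy at most `E` in the forward direction. -/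
def Fw (E : ℕ) (A B : Gd) : Prop :=
  ∃ (f : Mp A B) (g : Mp B A), f.Back g ∧ g.Back f ∧ f.En E

/-- Polynomial bounds. -/
def Q (k n : ℕ) : ℕ := (n + 2) ^ k

theorem Q_pos (k n : ℕ) : 0 < Q k n := by unfold Q; positivity
theorem Q_mul (k k' n : ℕ) : Q k n * Q k' n = Q (k + k') n := by unfold Q; rw [pow_add]
theorem Q_mono {k k' n n' : ℕ} (hk : k ≤ k') (hn : n ≤ n') : Q k n ≤ Q k' n' := by
  unfold Q
  exact (Nat.pow_le_pow_left (by omega) _).trans (Nat.pow_le_pow_right (by omega) hk)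
theorem le_Q {k : ℕ} (n : ℕ) (hk : 0 < k) : n + 2 ≤ Q k n := by
  have := Q_mono (n := n) (n' := n) hk le_rfl
  simpa [Q] using this
theorem two_pow_le_Q (k n : ℕ) : 2 ^ k ≤ Q k n := Nat.pow_le_pow_left (by omega) _
theorem Q_add_two (k n : ℕ) : Q k n + 2 ≤ Q (k + 2) n := by
  have h := Q_pos k n
  rw [← Q_mul]
  have : 4 ≤ Q 2 n := two_pow_le_Q 2 n
  nlinarith
theorem Q_Q {k k' m n : ℕ} (h : m ≤ Q k' n) : Q k m ≤ Q ((k' + 2) * k) n := by
  have h1 : m + 2 ≤ Q (k' + 2) n := by have := Q_add_two k' n; omega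
  unfold Q at *
  rw [pow_mul]
  exact Nat.pow_le_pow_left h1 _
theorem Q_add {k a b n : ℕ} (ha : a ≤ Q k n) (hb : b ≤ Q k n) : a + b ≤ Q (k + 1) n := by
  rw [← Q_mul]
  have : 2 ≤ Q 1 n := by have := le_Q (k := 1) n one_pos; omega
  nlinarith
theorem Q_mul_le {k k' a b n : ℕ} (ha : a ≤ Q k n) (hb : b ≤ Q k' n) : a * b ≤ Q (k + k') n := by
  rw [← Q_mul]; exact Nat.mul_le_mul ha hb

namespace Mp
variable {A B C : Gd}

theorem map_path (f : Mp A B) {x y : A.V} {p : List A.E} (h : A.Path x p y) :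
    B.Path (f.v x) (p.flatMap f.e) (f.v y) := IsPath.flatMap f.v f.e (fun a _ => f.path a) h

theorem ev_inv (f : Mp A B) (a : A.E) : B.ev (f.e (A.inv a)) = (B.ev (f.e a))⁻¹ := by
  have := f.cong (A.src a) [a, A.inv a]
    ⟨rfl, rfl, by simp [Gd.tgt, A.inv_inv, IsPath]⟩ (by simp [Gd.ev, A.val_inv])
  rw [eq_inv_iff_mul_eq_one, mul_eq_one_comm]
  simpa using this

theorem ev_map_rev (f : Mp A B) (p : List A.E) :
    B.ev ((A.rev p).flatMap f.e) = (B.ev (p.flatMap f.e))⁻¹ := by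
  induction p with
  | nil => simp [Gd.rev]
  | cons e p ih =>
    have : A.rev (e :: p) = A.rev p ++ [A.inv e] := by simp [Gd.rev]
    rw [this, List.flatMap_append, Gd.ev_append, ih, List.flatMap_cons, List.flatMap_cons,
      Gd.ev_append, Gd.ev_append, f.ev_inv]
    simp

theorem ev_congr (f : Mp A B) {x y : A.V} {p q : List A.E} (hp : A.Path x p y)
    (hq : A.Path x q y) (h : A.ev p = A.ev q) :
    B.ev (p.flatMap f.e) = B.ev (q.flatMap f.e) := by
  have := f.cong x (p ++ A.rev q) (hp.append hq.rev) (by simp [h])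
  rw [List.flatMap_append, Gd.ev_append, f.ev_map_rev] at this
  exact mul_inv_eq_one.mp this

def id (A : Gd) : Mp A A where
  v := fun x => x
  e := fun a => [a]
  path := A.path_single
  cong := fun _ p _ h => by simpa using h

def comp (f : Mp A B) (g : Mp B C) : Mp A C where
  v := fun x => g.v (f.v x)
  e := fun a => (f.e a).flatMap g.e
  path := fun a => g.map_path (f.path a)
  cong := fun x p hp h => by
    rw [← List.flatMap_assoc]
    exact g.cong _ _ (f.map_path hp) (f.cong x p hp h)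

theorem back_path (f : Mp A B) (g : Mp B A) (η : A.V → List A.E)
    (h : ∀ a, A.ev (η (A.src a)) * A.ev ((f.e a).flatMap g.e) = A.val a * A.ev (η (A.tgt a)))
    {x y : A.V} {p : List A.E} (hp : A.Path x p y) :
    A.ev (η x) * A.ev ((p.flatMap f.e).flatMap g.e) = A.ev p * A.ev (η y) := by
  induction p generalizing x with
  | nil => obtain rfl : x = y := hp; simp
  | cons e p ih =>
    obtain ⟨rfl, h2⟩ := hp
    rw [List.flatMap_cons, List.flatMap_append, Gd.ev_append, ← mul_assoc, h, mul_assoc, ih h2,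
      Gd.ev_cons, mul_assoc]

theorem back_comp (f : Mp A B) (g : Mp B A) (f' : Mp B C) (g' : Mp C B)
    (h : f.Back g) (h' : f'.Back g') : (f.comp f').Back (g'.comp g) := by
  obtain ⟨η, h1, h2⟩ := h
  obtain ⟨ζ, h3, h4⟩ := h'
  refine ⟨fun x => η x ++ (ζ (f.v x)).flatMap g.e, fun x => (h1 x).append (g.map_path (h3 _)),
    fun a => ?_⟩
  have h7 := back_path f' g' ζ h4 (f.path a)
  have h8 := g.ev_congr ((h3 (f.v (A.src a))).append (g'.map_path (f'.map_path (f.path a))))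
    ((f.path a).append (h3 (f.v (A.tgt a)))) (by simpa using h7)
  simp only [List.flatMap_append, Gd.ev_append] at h8
  change A.ev (η _ ++ _) * A.ev (((f.e a).flatMap f'.e).flatMap fun b => (g'.e b).flatMap g.e)
    = _
  rw [← List.flatMap_assoc, Gd.ev_append, Gd.ev_append, mul_assoc, h8, ← mul_assoc, h2,
    mul_assoc]

theorem sum_flatMap {α β : Type} (p : List α) (f : α → List β) (ρ : β → ℝ≥0∞) :
    ((p.flatMap f).map ρ).sum = (p.map fun a => ((f a).map ρ).sum).sum := by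
  induction p with
  | nil => simp
  | cons a p ih => simp [ih]

theorem En.comp {f : Mp A B} {g : Mp B C} {E E' : ℕ} (h : f.En E) (h' : g.En E') :
    (f.comp g).En (E * E') := by
  intro ρ
  have h1 := h fun b => ((g.e b).map ρ).sum
  have h2 := h' ρ
  simp only [Mp.comp, sum_flatMap]
  refine h1.trans ?_
  push_cast
  rw [mul_assoc]
  gcongr

theorem En.mono {f : Mp A B} {E E' : ℕ} (h : f.En E) (hE : E ≤ E') : f.En E' := fun ρ =>
  (h ρ).trans (by gcongr)

/-- A map out of a presented graph only has to respect reversal and the relators. -/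
def ofPres {V E : Type} {src : E → V} {inv : E → E} {h : ∀ e, inv (inv e) = e}
    {R : Set (List E)} {B : Gd} (v : V → B.V) (e : E → List B.E)
    (path : ∀ a, B.Path (v (src a)) (e a) (v (src (inv a))))
    (h1 : ∀ a, B.ev (e (inv a)) = (B.ev (e a))⁻¹) (h2 : ∀ r ∈ R, B.ev (r.flatMap e) = 1) :
    Mp (pres src inv h R) B where
  v := v
  e := e
  path := path
  cong := fun x p _ hp => by
    obtain ⟨F, hF⟩ := pres_lift (src := src) (h := h) (R := R) (fun a => B.ev (e a)) h1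
      (fun r hr => by rw [← Gd.ev_flatMap]; exact h2 r hr)
    have := hF p
    rw [hp, map_one] at this
    rw [Gd.ev_flatMap]
    exact this.symm

end Mp

variable {A B C : Gd} {E E' : ℕ}

theorem Qe.symm (h : Qe E A B) : Qe E B A := by
  obtain ⟨f, g, h1, h2, h3, h4⟩ := h
  exact ⟨g, f, h2, h1, h4, h3⟩

theorem Qe.mono (h : Qe E A B) (hE : E ≤ E') : Qe E' A B := by
  obtain ⟨f, g, h1, h2, h3, h4⟩ := h
  exact ⟨f, g, h1, h2, h3.mono hE, h4.mono hE⟩

theorem Qe.refl (A : Gd) : Qe 1 A A := by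
  have h : (Mp.id A).Back (Mp.id A) := ⟨fun _ => [], fun _ => rfl, fun a => by simp [Mp.id]⟩
  have h' : (Mp.id A).En 1 := fun ρ => by simp [Mp.id]
  exact ⟨_, _, h, h, h', h'⟩

theorem Qe.trans (h : Qe E A B) (h' : Qe E' B C) : Qe (E * E') A C := by
  obtain ⟨f, g, h1, h2, h3, h4⟩ := h
  obtain ⟨f', g', k1, k2, k3, k4⟩ := h'
  exact ⟨_, _, Mp.back_comp f g f' g' h1 k1, Mp.back_comp g' f' g f k2 h2, h3.comp k3,
    mul_comm E' E ▸ k4.comp h4⟩

theorem Qe.transQ {k k' n : ℕ} (h : Qe (Q k n) A B) (h' : Qe (Q k' n) B C) :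
    Qe (Q (k + k') n) A C := Q_mul k k' n ▸ h.trans h'

theorem Qe.monoQ {k k' n n' : ℕ} (h : Qe (Q k n) A B) (hk : k ≤ k') (hn : n ≤ n') :
    Qe (Q k' n') A B := h.mono (Q_mono hk hn)

theorem Qe.QQ {k k' m n : ℕ} (h : Qe (Q k m) A B) (hm : m ≤ Q k' n) :
    Qe (Q ((k' + 2) * k) n) A B := h.mono (Q_Q hm)

theorem Qe.fw (h : Qe E A B) : Fw E A B := by
  obtain ⟨f, g, h1, h2, h3, -⟩ := h
  exact ⟨f, g, h1, h2, h3⟩

theorem Fw.mono (h : Fw E A B) (hE : E ≤ E') : Fw E' A B := by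
  obtain ⟨f, g, h1, h2, h3⟩ := h
  exact ⟨f, g, h1, h2, h3.mono hE⟩

theorem Fw.trans (h : Fw E A B) (h' : Fw E' B C) : Fw (E * E') A C := by
  obtain ⟨f, g, h1, h2, h3⟩ := h
  obtain ⟨f', g', k1, k2, k3⟩ := h'
  exact ⟨_, _, Mp.back_comp f g f' g' h1 k1, Mp.back_comp g' f' g f k2 h2, h3.comp k3⟩

end Pool.Agent.MC.LL
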