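import Pool.Agent.P.MP_2677b3_gt.GeLin

/-! Angles of hyperbolic triangles. -/

open UpperHalfPlane Complex
open scoped MatrixGroups

noncomputable section

namespace Pool.Agent.MC.Ge

/-- The component of `u` in the tangent plane at `z`. -/
def tang (z : ℍ) (u : M3) : ℂ :=
  ⟨bil (2 * z.re, 1, 0) u, bil ((z.im ^ 2 - z.re ^ 2) / z.im, -z.re / z.im, -1 / z.im) u⟩

/-- The complex number whose argument is the angle at `x` from `y` to `w`. -/
def zet (x y w : ℍ) : ℂ :=
  ⟨bil (vec x) (vec y) * bil (vec x) (vec w) - bil (vec y) (vec w), ori x y w / 2⟩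

/-- The angle at `x` from `y` to `w`. -/
def ang (x y w : ℍ) : ℝ := (zet x y w).arg

theorem tang_mul (z : ℍ) (u v : M3) : (starRingEnd ℂ) (tang z u) * tang z v =
    ⟨bil (vec z) u * bil (vec z) v - bil u v, -det3 (vec z) u v / 2⟩ := by
  have h := z.im_ne_zero
  refine Complex.ext ?_ ?_ <;> simp only [tang, mul_re, mul_im, conj_re, conj_im, bil, det3, vec] <;>
    field_simp <;> ring

theorem zet_eq (x y w : ℍ) : zet x y w = (starRingEnd ℂ) (tang x (vec w)) * tang x (vec y) := by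
  rw [tang_mul]
  refine Complex.ext ?_ ?_
  · simp only [zet, bil_comm (vec w)]
    ring
  · change ori x y w / 2 = -ori x w y / 2
    rw [ori_swap' x y w, neg_neg]

theorem ang_smul (A : SL(2, ℝ)) (x y w : ℍ) : ang (A • x) (A • y) (A • w) = ang x y w := by
  simp only [ang, zet, ori_smul, bil_vec, dist_smul]

theorem ang_coe {x y w : ℍ} (h : 0 < ori x y w) :
    (ang x y w : Real.Angle) = (tang x (vec y)).arg - (tang x (vec w)).arg := by
  have h0 : zet x y w ≠ 0 := fun e => by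
    have h1 : ori x y w / 2 = 0 := congrArg Complex.im e
    linarith
  rw [ang]
  rw [zet_eq] at h0 ⊢
  rw [arg_mul_coe_angle (left_ne_zero_of_mul h0) (right_ne_zero_of_mul h0), arg_conj_coe_angle]
  abel

theorem cv_arg {z : ℂ} (h : 0 < z.im) : 0 < z.arg ∧ z.arg < Real.pi :=
  ⟨lt_of_le_of_ne (arg_nonneg_iff.2 h.le) fun e => h.ne' (arg_eq_zero_iff.1 e.symm).2,
    arg_lt_pi_iff.2 (Or.inr h.ne')⟩

theorem ang_pos {x y w : ℍ} (h : 0 < ori x y w) : 0 < ang x y w :=
  (cv_arg (z := zet x y w) (half_pos h)).1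

theorem cv_lt {t : ℝ} (h1 : t < 2 * Real.pi) (h2 : 0 < Real.sin t) : t < Real.pi := by
  by_contra h
  have h3 := Real.sin_nonneg_of_nonneg_of_le_pi (x := t - Real.pi) (by linarith) (by linarith)
  rw [Real.sin_sub_pi] at h3
  linarith

theorem cv_two (a b : ℂ) : (a * b).im = ‖a‖ * ‖b‖ * Real.sin (a.arg + b.arg) := by
  rw [mul_im, Real.sin_add, ← norm_mul_cos_arg a, ← norm_mul_cos_arg b, ← norm_mul_sin_arg a,
    ← norm_mul_sin_arg b]
  ring

theorem cv_three (a b c : ℂ) :
    (a * b * c).im = ‖a‖ * ‖b‖ * ‖c‖ * Real.sin (a.arg + b.arg + c.arg) := by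
  rw [mul_im, mul_im, mul_re, Real.sin_add, Real.sin_add, Real.cos_add, ← norm_mul_cos_arg a,
    ← norm_mul_cos_arg b, ← norm_mul_cos_arg c, ← norm_mul_sin_arg a, ← norm_mul_sin_arg b,
    ← norm_mul_sin_arg c]
  ring

theorem cv_sum {a b c : ℂ} {M m : ℝ} (ha : 0 < a.im) (hb : 0 < b.im) (hc : 0 < c.im)
    (hab : 0 < (a * b).im) (hm : 0 < m) (h : m ≤ (a * b * c).im) (na : ‖a‖ ≤ M) (nb : ‖b‖ ≤ M)
    (nc : ‖c‖ ≤ M) : a.arg + b.arg + c.arg ≤ Real.pi - m / M ^ 3 := by
  have a1 := cv_arg ha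
  have b1 := cv_arg hb
  have c1 := cv_arg hc
  have hp : ∀ {z : ℂ}, 0 < z.im → 0 < ‖z‖ := fun h =>
    norm_pos_iff.2 fun e => h.ne' (by rw [e, zero_im])
  have pa := hp ha
  have pb := hp hb
  have pc := hp hc
  rw [cv_two] at hab
  rw [cv_three] at h
  have h1 := cv_lt (t := a.arg + b.arg) (by linarith)
    ((mul_pos_iff_of_pos_left (mul_pos pa pb)).1 hab)
  have h2 : 0 < Real.sin (a.arg + b.arg + c.arg) :=
    (mul_pos_iff_of_pos_left (mul_pos (mul_pos pa pb) pc)).1 (hm.trans_le h)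
  have h3 := cv_lt (by linarith) h2
  have h4 := Real.sin_le (x := Real.pi - (a.arg + b.arg + c.arg)) (by linarith)
  rw [Real.sin_pi_sub] at h4
  have hM : 0 < M := pa.trans_le na
  have h5 : ‖a‖ * ‖b‖ * ‖c‖ ≤ M ^ 3 := by
    rw [pow_three', mul_assoc, mul_assoc]
    gcongr
  have h6 : m / M ^ 3 ≤ Real.sin (a.arg + b.arg + c.arg) := by
    rw [div_le_iff₀ (by positivity), mul_comm]
    exact h.trans (mul_le_mul_of_nonneg_right h5 h2.le)
  linarith

/-- The Gram relation. -/
theorem cv_gram (x y w : ℍ) : (ori x y w / 2) ^ 2 =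
    1 + 2 * bil (vec y) (vec w) * bil (vec x) (vec w) * bil (vec x) (vec y) -
      bil (vec y) (vec w) ^ 2 - bil (vec x) (vec w) ^ 2 - bil (vec x) (vec y) ^ 2 := by
  rw [div_pow, ori, gelin_gram]
  simp only [bil_self]
  ring

/-- A triangle with a circumcentre is not thin. -/
theorem cv_fat {x y w z : ℍ} (h1 : dist z x = dist z y) (h2 : dist z x = dist z w) :
    2 * (bil (vec y) (vec w) - 1) * (bil (vec x) (vec w) - 1) * (bil (vec x) (vec y) - 1) ≤
      (ori x y w / 2) ^ 2 := by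
  have e : ∀ u v : M3, bil u (v - vec x) = bil u v - bil u (vec x) := fun u v => by
    rw [bil_comm, bil_sub, bil_comm v, bil_comm (vec x)]
  have e1 : bil (vec z) (vec y - vec x) = 0 := by rw [e, bil_vec, bil_vec, h1, sub_self]
  have e2 : bil (vec z) (vec w - vec x) = 0 := by rw [e, bil_vec, bil_vec, h2, sub_self]
  have k1 := congrArg Complex.re (tang_mul z (vec y - vec x) (vec y - vec x))
  have k2 := congrArg Complex.re (tang_mul z (vec w - vec x) (vec w - vec x))
  have k3 := congrArg Complex.re (tang_mul z (vec y - vec x) (vec w - vec x))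
  simp only [mul_re, conj_re, conj_im, e1, e2, e, bil_sub, bil_self, bil_comm (vec y) (vec x),
    bil_comm (vec w) (vec x)] at k1 k2 k3
  rw [cv_gram]
  generalize tang z (vec y - vec x) = p at k1 k2 k3
  generalize tang z (vec w - vec x) = q at k1 k2 k3
  have k4 : (p.re * p.re - -p.im * p.im) * (q.re * q.re - -q.im * q.im) -
      (p.re * q.re - -p.im * q.im) ^ 2 = (p.re * q.im - p.im * q.re) ^ 2 := by ring
  rw [k1, k2, k3] at k4
  nlinarith [sq_nonneg (p.re * q.im - p.im * q.re)]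

theorem cv_norm {x y w : ℍ} {M : ℝ} (h1 : bil (vec x) (vec y) ≤ M) (h2 : bil (vec x) (vec w) ≤ M) :
    ‖zet x y w‖ ≤ M ^ 2 := by
  have a1 := one_le_bil x y
  have a2 := one_le_bil x w
  refine (sq_le_sq₀ (norm_nonneg _) (by positivity)).1 ?_
  rw [Complex.sq_norm, normSq_apply]
  change _ * _ + ori x y w / 2 * (ori x y w / 2) ≤ _
  rw [← sq (ori x y w / 2), cv_gram]
  change (bil (vec x) (vec y) * bil (vec x) (vec w) - bil (vec y) (vec w)) *
    (bil (vec x) (vec y) * bil (vec x) (vec w) - bil (vec y) (vec w)) + _ ≤ _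
  have h3 : bil (vec x) (vec y) ^ 2 * bil (vec x) (vec w) ^ 2 ≤ M ^ 2 * M ^ 2 := by gcongr
  nlinarith

/-- The angle defect of triangles with a circumcentre and controlled sides is bounded below. -/
theorem ang_sum {δ : ℝ} (hδ : 0 < δ) (L : ℝ) : ∃ c0 > 0, ∀ x y w z : ℍ, 0 < ori x y w →
    dist z x = dist z y → dist z x = dist z w → δ ≤ dist x y → δ ≤ dist x w → δ ≤ dist y w →
    dist x y ≤ L → dist x w ≤ L → dist y w ≤ L →
    ang x y w + ang y w x + ang w x y ≤ Real.pi - c0 := by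
  have hm : 0 < Real.cosh δ - 1 := sub_pos.2 (Real.one_lt_cosh.2 hδ.ne')
  have hM := Real.cosh_pos L
  refine ⟨√((Real.cosh δ - 1) ^ 3) * (Real.cosh δ - 1) ^ 3 / (Real.cosh L ^ 2) ^ 3, by positivity,
    fun x y w z ho h1 h2 l1 l2 l3 u1 u2 u3 => ?_⟩
  have lo : ∀ {a b : ℍ}, δ ≤ dist a b → Real.cosh δ - 1 ≤ bil (vec a) (vec b) - 1 := fun h => by
    rw [bil_vec, sub_le_sub_iff_right, Real.cosh_le_cosh, abs_of_pos hδ, abs_of_nonneg dist_nonneg]
    exact h
  have up : ∀ {a b : ℍ}, dist a b ≤ L → bil (vec a) (vec b) ≤ Real.cosh L := fun h => by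
    rw [bil_vec, Real.cosh_le_cosh, abs_of_nonneg dist_nonneg]
    exact h.trans (le_abs_self L)
  have f := cv_fat h1 h2
  have g := cv_gram x y w
  have n1 := cv_norm (up u1) (up u2)
  have n2 := cv_norm (up u3) ((bil_comm _ _).le.trans (up u1))
  have n3 := cv_norm ((bil_comm _ _).le.trans (up u2)) ((bil_comm _ _).le.trans (up u3))
  have e2 : zet y w x = ⟨bil (vec y) (vec w) * bil (vec x) (vec y) - bil (vec x) (vec w),
      ori x y w / 2⟩ := by rw [zet, ori_cyc, bil_comm (vec y) (vec x), bil_comm (vec w) (vec x)]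
  have e3 : zet w x y = ⟨bil (vec x) (vec w) * bil (vec y) (vec w) - bil (vec x) (vec y),
      ori x y w / 2⟩ := by
    rw [zet, ← ori_cyc, ← ori_cyc, bil_comm (vec w) (vec x), bil_comm (vec w) (vec y)]
  have a1 := lo l1
  have a2 := lo l2
  have a3 := lo l3
  have o : 0 < ori x y w / 2 := half_pos ho
  have e1 : zet x y w = ⟨bil (vec x) (vec y) * bil (vec x) (vec w) - bil (vec y) (vec w),
      ori x y w / 2⟩ := rfl
  refine cv_sum o (by rw [e2]; exact o) (by rw [e3]; exact o) ?_ (by positivity) ?_ n1 n2 n3 <;>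
    simp only [e1, e2, e3, mul_im, mul_re]
  all_goals
    generalize ori x y w / 2 = O at *
    generalize bil (vec y) (vec w) = A at *
    generalize bil (vec x) (vec w) = B at *
    generalize bil (vec x) (vec y) = C at *
    generalize Real.cosh δ - 1 = m at *
  · have : (C * B - A) * O + O * (A * C - B) = O * ((A + B) * (C - 1)) := by ring
    rw [this]
    exact mul_pos o (mul_pos (by linarith) (by linarith))
  · have k1 : m ^ 3 ≤ (A - 1) * (B - 1) * (C - 1) := by
      rw [pow_three']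
      exact mul_le_mul (mul_le_mul a3 a2 hm.le (by linarith)) a1 hm.le
        (mul_nonneg (by linarith) (by linarith))
    have k0 : 0 < m ^ 3 := by positivity
    have k2 : √(m ^ 3) ≤ O := Real.sqrt_le_iff.2 ⟨o.le, by linarith⟩
    have k3 : ((C * B - A) * (A * C - B) - O * O) * O +
        ((C * B - A) * O + O * (A * C - B)) * (B * A - C) =
        O * ((A - 1) * (B - 1) * (C - 1) * (1 + A + B + C)) := by
      have : O * O = 1 + 2 * A * B * C - A ^ 2 - B ^ 2 - C ^ 2 := by rw [← g]; ring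
      rw [this]
      ring
    rw [k3]
    refine mul_le_mul k2 (k1.trans (le_mul_of_one_le_right (by linarith) (by linarith))) k0.le o.le

end Pool.Agent.MC.Ge
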