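import Pool.Agent.P.MP_2677b3_gt.LSt

/-! From angles to the curvature inequality. -/

open Equiv

noncomputable section

namespace Pool.Agent.MC.LL

/-- The curvature inequality for unions of faces. -/
def Curv (M : CMap) (K : ℕ) : Prop :=
  ∀ B : Set M.D, (∀ d, M.φ d ∈ B ↔ d ∈ B) → 3 * (2 * K + 1) * ncyc M.φ B ≤
    K * {d | d ∈ B ∧ M.ψ d ∈ B ∧ M.ψ (M.ψ d) ∈ B}.ncard + 6 * K * {d | d ∈ B ∧ M.α d ∉ B}.ncard

variable {D : Type} [Fintype D] {φ ψ : Perm D} {θ : D → ℝ}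

omit [Fintype D] in
theorem cv_cell (hθ : ∀ d, 0 < θ d) {a : D → Real.Angle}
    (ha : ∀ d, (θ (φ d) : Real.Angle) = a d - a (φ d)) {S : Finset D} (hS : ∀ d, d ∈ S ↔ φ d ∈ S)
    (h0 : S.Nonempty) : 2 * Real.pi ≤ ∑ d ∈ S, θ d := by
  have h1 : ((∑ d ∈ S, θ d : ℝ) : Real.Angle) = (0 : ℝ) := by
    rw [← Finset.sum_equiv φ hS fun d _ => (rfl : θ (φ d) = θ (φ d))]
    refine (map_sum Real.Angle.coeHom _ _).trans ?_
    simp only [Real.Angle.coe_coeHom, ha, Finset.sum_sub_distrib]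
    rw [Finset.sum_equiv φ hS fun d _ => (rfl : a (φ d) = a (φ d)), sub_self, Real.Angle.coe_zero]
  obtain ⟨k, hk⟩ := Real.Angle.angle_eq_iff_two_pi_dvd_sub.1 h1
  have h2 := Finset.sum_pos (fun d _ => hθ d) h0
  rw [sub_zero] at hk
  rw [hk] at h2 ⊢
  have h3 : (1 : ℝ) ≤ k := by
    exact_mod_cast (Int.cast_pos.1 ((mul_pos_iff_of_pos_left Real.two_pi_pos).1 h2) : 0 < k)
  exact le_mul_of_one_le_right Real.two_pi_pos.le h3

open Classical in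
theorem cv_cells (hθ : ∀ d, 0 < θ d) {a : D → Real.Angle}
    (ha : ∀ d, (θ (φ d) : Real.Angle) = a d - a (φ d)) {B : Set D} (hB : ∀ d, φ d ∈ B ↔ d ∈ B) :
    2 * Real.pi * ncyc φ B ≤ ∑ d with d ∈ B, θ d := by
  have e : ncyc φ B = ((Finset.univ.filter (· ∈ B)).image
      (Quotient.mk (Perm.SameCycle.setoid φ))).card := by
    rw [ncyc, ← Set.ncard_coe_finset]
    simp
  rw [e, ← Finset.sum_fiberwise_of_maps_to (g := Quotient.mk (Perm.SameCycle.setoid φ))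
    fun _ h => Finset.mem_image_of_mem _ h, mul_comm, ← nsmul_eq_mul]
  refine Finset.card_nsmul_le_sum _ _ _ fun q hq => cv_cell hθ ha (fun d => ?_) ?_
  · have : Quotient.mk (Perm.SameCycle.setoid φ) (φ d) = Quotient.mk _ d :=
      Quotient.sound (Perm.sameCycle_apply_left.2 (Perm.SameCycle.refl _ d))
    simp [hB, this]
  · obtain ⟨d, hd, e⟩ := Finset.mem_image.1 hq
    exact ⟨d, Finset.mem_filter.2 ⟨hd, e⟩⟩

open Classical in
theorem cv_tri (hθ : ∀ d, 0 < θ d) (h3 : ∀ d, ψ (ψ (ψ d)) = d) {s : ℝ}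
    (hs : ∀ d, θ d + θ (ψ d) + θ (ψ (ψ d)) ≤ s) (B : Set D) :
    3 * ∑ d with d ∈ B, θ d ≤ s * {d | d ∈ B ∧ ψ d ∈ B ∧ ψ (ψ d) ∈ B}.ncard +
      3 * s * {d | d ∈ B ∧ ψ d ∉ B}.ncard := by
  have e : ∀ (S : Set D) (T : Finset D), (T : Set D) = S → S.ncard = T.card := fun S T h => by
    rw [← h, Set.ncard_coe_finset]
  let F := Finset.univ.filter fun d => d ∈ B ∧ ψ d ∈ B ∧ ψ (ψ d) ∈ B
  let C := Finset.univ.filter fun d => d ∈ B ∧ ψ d ∉ B
  rw [e {d | d ∈ B ∧ ψ d ∈ B ∧ ψ (ψ d) ∈ B} F (by simp [F]),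
    e {d | d ∈ B ∧ ψ d ∉ B} C (by simp [C])]
  have hF : ∀ d, d ∈ F ↔ ψ d ∈ F := fun d => by
    simp only [F, Finset.mem_filter, Finset.mem_univ, true_and, h3]
    tauto
  have h1 : 3 * ∑ d ∈ F, θ d ≤ s * F.card := by
    have a1 := Finset.sum_equiv ψ hF fun d _ => (rfl : θ (ψ d) = θ (ψ d))
    have a2 : ∑ d ∈ F, θ (ψ (ψ d)) = ∑ d ∈ F, θ (ψ d) := Finset.sum_equiv ψ hF fun d _ => rfl
    have a3 := Finset.sum_le_card_nsmul F _ s fun d _ => hs d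
    simp only [Finset.sum_add_distrib, nsmul_eq_mul] at a3
    linarith
  have h2 : ∑ d ∈ C, θ d + ∑ d ∈ C.map (ψ * ψ).toEmbedding, θ d ≤ s * C.card := by
    have a3 := Finset.sum_le_card_nsmul C (fun d => θ d + θ (ψ (ψ d))) s fun d _ => by
      linarith [hs d, hθ (ψ d)]
    simp only [Finset.sum_add_distrib, nsmul_eq_mul] at a3
    rw [Finset.sum_map, mul_comm]
    exact a3
  have h4 : ∑ d with d ∈ B, θ d ≤ ∑ d ∈ F ∪ (C ∪ C.map (ψ * ψ).toEmbedding), θ d := by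
    refine Finset.sum_le_sum_of_subset_of_nonneg (fun d hd => ?_) fun d _ _ => (hθ d).le
    have hd' := (Finset.mem_filter.1 hd).2
    by_cases k1 : ψ d ∈ B
    · by_cases k2 : ψ (ψ d) ∈ B
      · exact Finset.mem_union_left _ (Finset.mem_filter.2 ⟨Finset.mem_univ _, hd', k1, k2⟩)
      · exact Finset.mem_union_right _ (Finset.mem_union_right _ (Finset.mem_map.2
          ⟨ψ d, Finset.mem_filter.2 ⟨Finset.mem_univ _, k1, k2⟩, h3 d⟩))
    · exact Finset.mem_union_right _ (Finset.mem_union_left _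
        (Finset.mem_filter.2 ⟨Finset.mem_univ _, hd', k1⟩))
  have h5 : ∀ S T : Finset D, ∑ d ∈ S ∪ T, θ d ≤ ∑ d ∈ S, θ d + ∑ d ∈ T, θ d := fun S T => by
    rw [← Finset.sum_union_inter]
    exact le_add_of_nonneg_right (Finset.sum_nonneg fun d _ => (hθ d).le)
  have h6 := h5 F (C ∪ C.map (ψ * ψ).toEmbedding)
  have h7 := h5 C (C.map (ψ * ψ).toEmbedding)
  linarith

/-- Angles give the curvature inequality. -/
theorem curv_of_ang {c0 : ℝ} {K : ℕ} (hK : 0 < K) (hc : Real.pi ≤ (2 * K + 1) * c0) (M : CMap)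
    {θ : M.D → ℝ} (hθ : ∀ d, 0 < θ d) {a : M.D → Real.Angle}
    (ha : ∀ d, (θ (M.φ d) : Real.Angle) = a d - a (M.φ d)) (h3 : ∀ d, M.ψ (M.ψ (M.ψ d)) = d)
    (hs : ∀ d, θ d + θ (M.ψ d) + θ (M.ψ (M.ψ d)) ≤ Real.pi - c0) : Curv M K := by
  intro B hB
  have h1 := cv_cells hθ ha hB
  have h2 := cv_tri hθ h3 hs B
  have e : {d | d ∈ B ∧ M.ψ d ∉ B} = {d | d ∈ B ∧ M.α d ∉ B} :=
    Set.ext fun d => and_congr_right' (not_congr (hB _))
  rw [e] at h2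
  generalize {d | d ∈ B ∧ M.ψ d ∈ B ∧ M.ψ (M.ψ d) ∈ B}.ncard = F at h2 ⊢
  generalize {d | d ∈ B ∧ M.α d ∉ B}.ncard = C at h2 ⊢
  generalize ncyc M.φ B = v at h1 ⊢
  have hp := Real.pi_pos
  have k1 : (1 : ℝ) ≤ K := by exact_mod_cast hK
  have k2 : (2 * K + 1) * (Real.pi - c0) ≤ 2 * K * Real.pi := by linarith
  have k3 : (2 * K + 1) * (6 * Real.pi * v) ≤
      (2 * K + 1) * ((Real.pi - c0) * F + 3 * (Real.pi - c0) * C) :=
    mul_le_mul_of_nonneg_left (by linarith) (by positivity)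
  have k4 := mul_le_mul_of_nonneg_right k2 (Nat.cast_nonneg (α := ℝ) F)
  have k5 := mul_le_mul_of_nonneg_right k2 (Nat.cast_nonneg (α := ℝ) C)
  have k6 : 0 ≤ K * Real.pi * C := by positivity
  have k7 : 2 * Real.pi * (3 * (2 * K + 1) * v) ≤ 2 * Real.pi * (K * F + 6 * K * C) := by
    linarith
  exact_mod_cast le_of_mul_le_mul_left k7 Real.two_pi_pos

end Pool.Agent.MC.LL
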