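import Pool.Agent.P.MP_2677b3_gt.LCv1
import Pool.Agent.P.MP_2677b3_gt.LCv2
import Pool.Agent.P.MP_2677b3_gt.GeUm
import Pool.Agent.P.MP_2677b3_gt.GeGeo

/-! The model map of a thick surface, with the curvature inequality. -/

open UpperHalfPlane Equiv
open scoped MatrixGroups

noncomputable section

namespace Pool.Agent.MC.Ge

variable {G : Subgroup (Perm ℍ)} {ε c K δ : ℝ} {C : ℝ → ℕ} {f : ℝ → ℝ}

/-- The triangles are positive, have a circumcentre and sides of length at least `δ`. -/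
def UMap.Fat (U : UMap G c K C f) (δ : ℝ) : Prop := ∀ d,
  0 < ori (U.pos d) (U.pos ((U.φ * U.α) ((U.φ * U.α) d))) (U.pos ((U.φ * U.α) d)) ∧
    (∃ z, dist z (U.pos d) = dist z (U.pos ((U.φ * U.α) ((U.φ * U.α) d))) ∧
      dist z (U.pos d) = dist z (U.pos ((U.φ * U.α) d))) ∧
    δ ≤ dist (U.pos d) (U.pos ((U.φ * U.α) d))

theorem cv_umap (hδ : 0 < δ) (hε : 4 * δ < ε) :
    ∃ (K : ℝ) (C : ℝ → ℕ) (f : ℝ → ℝ), ∀ G : Subgroup (Perm ℍ), Fuchs G ε →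
      ∃ U : UMap G (2 * δ) K C f, U.Fat δ := by
  obtain ⟨P, hP⟩ := exists_pk hδ
  obtain ⟨f0, hf⟩ := exists_ext
  obtain ⟨K, hK⟩ := walk_bound δ P
  refine ⟨K, fun ρ => P (ρ + 4 * δ) * P (ρ + 4 * δ), fun ρ => f0 (ρ + 7 * δ), fun G hG => ?_⟩
  obtain ⟨N, h, hN⟩ := exists_net hG hδ hε
  obtain ⟨X⟩ := h.exists_dmap
  obtain ⟨m, hm⟩ := um_act hG hN X
  let act : MulAction G X.D :=
    { smul := m
      one_smul := fun d => X.ext (m 1 d) d (by simp [(hm 1 d).1]) (by simp [(hm 1 d).2])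
      mul_smul := fun g g' d => X.ext (m (g * g') d) (m g (m g' d))
        (by simp [(hm _ _).1]) (by simp [(hm _ _).2]) }
  refine ⟨{
    D := X.D
    act := act
    α := X.α
    φ := X.φ
    pos := X.pos
    αα := X.αα
    α_smul := fun g d => X.ext (X.α (m g d)) (m g (X.α d)) ?_ ?_
    φ_smul := fun g d => X.φ_eq h (a := m g d) (b := m g (X.φ d)) ?_ ?_
    pos_smul := fun g d => (hm g d).1
    pos_φ := X.pos_φ
    pos_ne := fun d => (X.edge d).1.symm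
    tri := X.ψψψ h
    ctr := X.ctr h
    count := X.count h hP
    dense := fun z => ?_
    walk := hK N h hP X
    pot := fun Γ _ χ h1 h2 => X.pot h Γ χ h1 h2
    fill := fun o ρ ω h1 h2 h3 => X.fill h hf o ρ ω h1 h2 h3 }, fun d => ?_⟩
  · rw [(hm _ _).2, (hm _ _).1]
  · rw [X.αα, (hm _ _).2, (hm _ _).1, X.αα]
  · rw [(hm _ _).1, (hm _ _).1, X.pos_φ]
  · rw [(hm _ _).1, (hm _ _).2, (hm _ _).2]
    exact um_tri hG hN g (X.tri_φ d)
  · obtain ⟨x, hx, hd⟩ := h.dense z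
    obtain ⟨d, rfl⟩ := X.exists_pos h hx
    exact ⟨d, hd⟩
  · obtain ⟨h1, z, a1, a2, a3⟩ := (X.tri_ψ d).cyc
    have he := X.edge d
    rw [← X.pos_ψ d] at h1 a3 he
    exact ⟨h1, ⟨z, le_antisymm (a1.2 _ a2.1) (a2.2 _ a1.1), le_antisymm (a1.2 _ a3.1) (a3.2 _ a1.1)⟩,
      h.sep _ a1.1 _ a3.1 he.1⟩

variable {U : UMap G c K C f}

/-- The angle at a dart inside its triangle. -/
def UMap.th (U : UMap G c K C f) (d : U.D) : ℝ :=
  ang (U.pos d) (U.pos ((U.φ * U.α) ((U.φ * U.α) d))) (U.pos ((U.φ * U.α) d))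

theorem UMap.th_smul (hG : Fuchs G ε) (g : G) (d : U.D) : U.th (g • d) = U.th d := by
  obtain ⟨A, hA⟩ := hG.mob _ g.2
  simp only [UMap.th, U.ψ_smul, U.pos_smul, hA, ang_smul]

theorem UMap.th_φ (h : U.Fat δ) (d : U.D) : (U.th (U.φ d) : Real.Angle) =
    (tang (U.pos d) (vec (U.pos (U.α d)))).arg -
      (tang (U.pos (U.φ d)) (vec (U.pos (U.α (U.φ d))))).arg := by
  have e : (U.φ * U.α) ((U.φ * U.α) (U.φ d)) = U.α d := by
    have h1 := U.tri (U.α d)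
    rwa [Perm.mul_apply U.φ U.α (U.α d), U.αα] at h1
  rw [UMap.th, ang_coe (h _).1, e, U.pos_ψ, U.pos_φ]

theorem Cov.cv_iter (Y : Cov U) (d : U.D) {e : Y.M.D} (h : Y.M.φ.SameCycle (Y.π d) e) :
    ∃ d', Y.π d' = e ∧ U.pos d' = U.pos d := by
  obtain ⟨n, -, rfl⟩ := h.exists_pow_eq'
  clear h
  induction n with
  | zero => exact ⟨d, rfl, rfl⟩
  | succ n ih =>
    obtain ⟨d', h1, h2⟩ := ih
    exact ⟨U.φ d', by rw [Y.π_φ, h1, pow_succ', Perm.mul_apply], (U.pos_φ d').trans h2⟩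

theorem Cov.cv_pot (Y : Cov U) (hG : Fuchs G ε) (hc : 2 * c < ε) (h : U.Fat δ) :
    ∃ a : Y.M.D → Real.Angle, ∀ e, (U.th (Y.lift (Y.M.φ e)) : Real.Angle) = a e - a (Y.M.φ e) := by
  have h1 : ∀ e : Y.M.D, ∃ d, Y.π d = e ∧ U.pos d =
      U.pos (Y.lift (Quotient.mk (Perm.SameCycle.setoid Y.M.φ) e).out) := fun e =>
    Y.cv_iter _ (by
      rw [Y.π_lift]
      exact Quotient.mk_out (s := Perm.SameCycle.setoid Y.M.φ) e)
  choose l l1 l2 using h1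
  have h2 : ∀ e, l (Y.M.φ e) = U.φ (l e) := fun e => by
    obtain ⟨g, hg⟩ := Y.π_eq (U.φ (l e)) (l (Y.M.φ e)) (by rw [Y.π_φ, l1, l1])
    have h3 : Quotient.mk (Perm.SameCycle.setoid Y.M.φ) (Y.M.φ e) = Quotient.mk _ e :=
      Quotient.sound (Perm.sameCycle_apply_left.2 (Perm.SameCycle.refl _ e))
    rw [← hg, lift_free hG hc (g := g) (d := U.φ (l e)) (by rw [hg, U.pos_φ, l2, l2, h3]),
      one_smul]
  refine ⟨fun e => (tang (U.pos (l e)) (vec (U.pos (U.α (l e))))).arg, fun e => ?_⟩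
  obtain ⟨g, hg⟩ := Y.π_eq (U.φ (l e)) (Y.lift (Y.M.φ e)) (by rw [Y.π_φ, l1, Y.π_lift])
  rw [← hg, UMap.th_smul hG, UMap.th_φ h]
  simp only [h2]

theorem Cov.cv_sz (Y : Cov U) (e : Y.M.D) : LL.sz Y.M.φ e ≤ C 0 := by
  obtain ⟨h1, h2⟩ := U.count (U.pos (Y.lift e)) 0
  refine le_trans (Set.ncard_le_ncard (fun e' he => ?_) (h1.image Y.π))
    ((Set.ncard_image_le h1).trans h2)
  obtain ⟨d, h3, h4⟩ := Y.cv_iter (Y.lift e) (e := e') (by rwa [Y.π_lift])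
  exact ⟨d, by simp [h4], h3⟩

theorem Cov.cv_count (Y : Cov U) (hG : Fuchs G ε) (hc : 2 * c < ε) (w : ℍ) (ρ : ℝ) :
    {p : G × Y.M.D | dist w (p.1.1 (Y.pt (Y.M.gd.src p.2))) ≤ ρ}.encard ≤ C (ρ + 2 * c) := by
  obtain ⟨h1, h2⟩ := U.count w (ρ + 2 * c)
  refine le_trans (Set.encard_le_encard_of_injOn (f := fun p => p.1 • Y.lift p.2)
    (fun p hp => ?_) fun p _ q _ e => ?_) (h1.cast_ncard_eq.ge.trans (Nat.cast_le.2 h2))
  · have h3 := gegeo_same Y p.2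
    rw [← fuchs_dist hG p.1.2, ← U.pos_smul p.1 (Y.lift _)] at h3
    exact (dist_triangle _ _ _).trans (add_le_add hp h3)
  · have h3 : p.2 = q.2 := by simpa only [Y.π_smul, Y.π_lift] using congrArg Y.π e
    have h4 : q.1⁻¹ * p.1 = 1 := lift_free hG hc (d := Y.lift p.2) (by
      rw [mul_smul, show p.1 • Y.lift p.2 = q.1 • Y.lift q.2 from e, inv_smul_smul, h3])
    exact Prod.ext (inv_mul_eq_one.1 h4).symm h3

theorem Cov.cv_geo (Y : Cov U) (hG : Fuchs G ε) (hc : 2 * c < ε) :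
    ∃ g : Geo Y.M.gd G (max K (4 * c)), g.Full ∧ g.pt = Y.pt := by
  have h0 := U.c_nonneg
  refine ⟨⟨Y.pt, Y.hol, fun e => Y.hol_inv hG hc e, fun x p h => Y.faith hG hc h,
    fun e => (Y.short hG e).trans (le_max_right _ _), fun x p y _ => ?_, fun x z => ?_⟩,
    fun x γ => ?_, rfl⟩
  · obtain ⟨q, h1, h2, h3⟩ := Y.connect hG hc x y (Y.hp p)
    refine ⟨q, h1, h2, h3.trans ?_⟩
    exact add_le_add (mul_le_mul_of_nonneg_right (le_max_left _ _) dist_nonneg) (le_max_left _ _)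
  · obtain ⟨d, hd⟩ := U.dense z
    obtain ⟨g, hg⟩ := Y.exists_sheet d
    obtain ⟨q, h1, h2, -⟩ := Y.connect hG hc x (Y.M.gd.src (Y.π d)) g
    refine ⟨q, _, h1, le_trans ?_ (le_max_right _ _)⟩
    have h3 : (q.map Y.hol).prod = g := h2
    have h4 : dist (U.pos d) (g.1 (Y.pt (Y.M.gd.src (Y.π d)))) ≤ 2 * c := by
      have := gegeo_same Y (Y.π d)
      rw [← fuchs_dist hG g.2, ← U.pos_smul g (Y.lift _), ← hg, dist_comm] at this
      exact this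
    have h5 := dist_triangle z (U.pos d) (g.1 (Y.pt (Y.M.gd.src (Y.π d))))
    show dist z (((q.map Y.hol).prod).1 _) ≤ _
    rw [h3]; linarith
  · obtain ⟨q, h1, h2, -⟩ := Y.connect hG hc x x γ
    exact ⟨q, h1, h2⟩

end Pool.Agent.MC.Ge

namespace Pool.Agent.MC.LL

/-- The model map of a thick surface. -/
theorem curv_model {ε : ℝ} (hε : 0 < ε) : ∃ (K0 D0 : ℕ) (C : ℝ → ℕ) (K : ℝ), 0 < K0 ∧
    ∀ G : Subgroup (Perm ℍ), Fuchs G ε → ∃ (M : CMap) (g : Geo M.gd G K), g.Full ∧ Nonempty M.D ∧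
      (∀ d, M.ψ (M.ψ (M.ψ d)) = d ∧ M.ψ d ≠ d) ∧ (∀ d d', M.Same (fun _ => False) d d') ∧
      (∀ d, sz M.φ d ≤ D0) ∧ Curv M K0 ∧
      ∀ w ρ, {p : G × M.D | dist w (p.1.1 (g.pt (M.gd.src p.2))) ≤ ρ}.encard ≤ C ρ := by
  have hδ : 0 < ε / 10 := by positivity
  obtain ⟨K, C, f, hU⟩ := Ge.cv_umap (ε := ε) hδ (by linarith)
  obtain ⟨c0, h0, hs⟩ := Ge.ang_sum hδ (2 * (2 * (ε / 10)))
  obtain ⟨K0, hK⟩ := exists_nat_gt (Real.pi / c0)
  rw [div_lt_iff₀ h0] at hK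
  refine ⟨K0 + 1, C 0, fun ρ => C (ρ + 2 * (2 * (ε / 10))), max K (4 * (2 * (ε / 10))),
    Nat.succ_pos _, fun G hG => ?_⟩
  obtain ⟨U, hF⟩ := hU G hG
  have hc : 2 * (2 * (ε / 10)) < ε := by linarith
  obtain ⟨Y⟩ := Ge.exists_cov hG hc U
  obtain ⟨g, hg, e⟩ := Y.cv_geo hG hc
  obtain ⟨a, ha⟩ := Y.cv_pot hG hc hF
  refine ⟨Y.M, g, hg, ⟨Y.π (U.dense I).choose⟩, Y.tri hG hc, Y.conn hG hc, Y.cv_sz,
    curv_of_ang (c0 := c0) (Nat.succ_pos _) ?_ Y.M (θ := fun e => U.th (Y.lift e))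
      (fun d => Ge.ang_pos (hF _).1) ha Y.ψψψ fun d => ?_, e ▸ Y.cv_count hG hc⟩
  · have := mul_nonneg (Nat.cast_nonneg (α := ℝ) K0) h0.le
    push_cast
    linarith
  · obtain ⟨h1, ⟨z, h2, h3⟩, h4⟩ := hF (Y.lift d)
    have h5 := (hF ((U.φ * U.α) (Y.lift d))).2.2
    have h6 := (hF ((U.φ * U.α) ((U.φ * U.α) (Y.lift d)))).2.2
    rw [U.tri] at h6
    have h7 := hs _ _ _ z h1 h2 h3 (h6.trans_eq (dist_comm _ _)) h4 (h5.trans_eq (dist_comm _ _))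
      (U.same_dist ((U.same_iff _ _).2 (Or.inr (Or.inr rfl))))
      (U.same_dist ((U.same_iff _ _).2 (Or.inr (Or.inl rfl))))
      (U.same_dist ((U.same_iff _ _).2 (Or.inr (Or.inl rfl))).symm)
    simp only [Y.lift_ψ, Ge.UMap.th, U.tri]
    linarith

end Pool.Agent.MC.LL
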