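import Pool.Agent.P.MP_2677b3_gt.Defs

/-! Extremal length on a quotient of the upper half-plane. -/

open UpperHalfPlane MeasureTheory
open scoped ENNReal

namespace Pool.Agent.MC

/-- The `ρ`-length of the free homotopy class of `γ`: infimum of `∫ ρ ds` over curves from a point
`z` to `γ z`, parametrised with hyperbolic speed at most one. -/
noncomputable def len (ρ : ℍ → ℝ≥0∞) (γ : Equiv.Perm ℍ) : ℝ≥0∞ :=
  ⨅ (T : ℝ) (c : ℝ → ℍ) (_ : 0 ≤ T ∧ LipschitzWith 1 c ∧ c T = γ (c 0)),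
    ∫⁻ t in Set.Icc 0 T, ρ (c t)

/-- The `ρ`-area of `ℍ / G`: infimum of `∫ ρ²` for hyperbolic area over measurable sets whose
translates cover `ℍ`. -/
noncomputable def area (G : Subgroup (Equiv.Perm ℍ)) (ρ : ℍ → ℝ≥0∞) : ℝ≥0∞ :=
  ⨅ (s : Set ℍ) (_ : MeasurableSet s ∧ ∀ z, ∃ g ∈ G, g z ∈ s), ∫⁻ z in s, ρ z ^ 2

/-- The extremal length of the free homotopy class of `γ` on `ℍ / G`: supremum of the squared
length over invariant Borel conformal factors of area at most one. -/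
noncomputable def ext (G : Subgroup (Equiv.Perm ℍ)) (γ : Equiv.Perm ℍ) : ℝ≥0∞ :=
  ⨆ (ρ : ℍ → ℝ≥0∞) (_ : Measurable ρ ∧ (∀ g ∈ G, ∀ z, ρ (g z) = ρ z) ∧ area G ρ ≤ 1),
    len ρ γ ^ 2

end Pool.Agent.MC
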