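import Pool.Agent.P.MP_2677b3_gt.LA3
import Pool.Agent.P.MP_2677b3_gt.LT9

/-! Stages of the endgame: definitions and the calculus of steps. -/

open Equiv Function

noncomputable section

namespace Pool.Agent.MC.LL.EG

/-- The cycles of `σ'` are the preimages of the cycles of `σ`. -/
def Pj {D D' : Type} (σ' : Perm D') (σ : Perm D) (p : D' → D) : Prop :=
  ∀ u v, σ'.SameCycle u v ↔ σ.SameCycle (p u) (p v)

/-- A system of representatives of the cycles inside `F`. -/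
structure Sys {D I : Type} (σ : Perm D) (F : Set D) (α : I → D) : Prop where
  mem : ∀ i, α i ∈ F
  ex : ∀ d ∈ F, ∃ i, σ.SameCycle d (α i)
  un : ∀ i j, σ.SameCycle (α i) (α j) → i = j

/-- Number of indices that sit in the cycle of `d`. -/
def cnt {D I : Type} (σ : Perm D) (x : I → D) (d : D) : ℕ := {i | σ.SameCycle (x i) d}.ncard

/-- `F` is invariant under the first two slots. -/
def Iv (G : P4) (F : Set G.D) : Prop := (∀ d, G.x0 d ∈ F ↔ d ∈ F) ∧ ∀ d, G.x1 d ∈ F ↔ d ∈ F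

/-- `H` extends `G`; the first two slots change only over `F`. -/
structure Xt (G H : P4) (F : Set G.D) (ι : G.D → H.D) (π : H.D → G.D) : Prop where
  li : ∀ d, π (ι d) = d
  nw : ∀ v, v ∉ Set.range ι → π v ∈ F
  e0 : ∀ d, d ∉ F → H.x0 (ι d) = ι (G.x0 d)
  e1 : ∀ d, d ∉ F → H.x1 (ι d) = ι (G.x1 d)
  e2 : ∀ d, H.x2 (ι d) = ι (G.x2 d)
  e3 : ∀ d, H.x3 (ι d) = ι (G.x3 d)

/-- Equivalence for all families of tubes, with the feet pulled back along `π`. -/
def Tr (k n : ℕ) (G H : P4) (π : H.D → G.D) : Prop :=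
  ∀ m, n ≤ m → ∀ (I : Type) [Finite I] (a b : I → H.D), Ft m (π ∘ a) → Ft m (π ∘ b) →
    Qe (Q (k * kA) m) (G.gd (π ∘ a) (π ∘ b)) (H.gd a b)

/-- The same, and the tubes in `R` are consumed. -/
def Stp (k n : ℕ) (G H : P4) (π : H.D → G.D) {R : Type} [Finite R] (ra rb : R → G.D) : Prop :=
  ∀ m, n ≤ m → ∀ (I : Type) [Finite I] (a b : I → H.D), Ft m (Sum.elim (π ∘ a) ra) →
    Ft m (Sum.elim (π ∘ b) rb) →
    Qe (Q (k * kA) m) (G.gd (Sum.elim (π ∘ a) ra) (Sum.elim (π ∘ b) rb)) (H.gd a b)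

/-- A stage: an extension, the tubes it consumes, the tubes that match the new cells of the last
two slots, and owners for these tubes. -/
structure Stg (k n c : ℕ) (G : P4) (F : Set G.D) {I : Type} (loc : I → G.D → Prop) where
  H : P4
  ι : G.D → H.D
  π : H.D → G.D
  xt : Xt G H F ι π
  R : Type
  fR : Finite R
  K : Type
  fK : Finite K
  ra : R → G.D
  rb : R → G.D
  ka : K → H.D
  kb : K → H.D
  o : R ⊕ K → I
  stp : Stp k n G H π ra rb
  mat : Mat H.x2 H.x3 (Set.range ι)ᶜ Set.univ ka kb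
  ft : Ft c o
  lr : ∀ j, loc (o (.inl j)) (ra j) ∧ loc (o (.inl j)) (rb j)
  lk : ∀ j, loc (o (.inr j)) (π (ka j)) ∧ loc (o (.inr j)) (π (kb j))

instance {k n c : ℕ} {G : P4} {F : Set G.D} {I : Type} {loc : I → G.D → Prop}
    (S : Stg k n c G F loc) : Finite S.R := S.fR
instance {k n c : ℕ} {G : P4} {F : Set G.D} {I : Type} {loc : I → G.D → Prop}
    (S : Stg k n c G F loc) : Finite S.K := S.fK

section
variable {D D' I J : Type}

theorem _root_.Pool.Agent.MC.LL.Ft.eg_comp [Finite I] {n : ℕ} {a : I → D'} {π : D' → D} (h : Ft n (π ∘ a)) : Ft n a :=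
  fun d => (Set.ncard_le_ncard (fun i (hi : a i = d) => show π (a i) = π d from hi ▸ rfl)).trans
    (h (π d))

theorem _root_.Pool.Agent.MC.LL.Ft.eg_pre [Finite I] {n : ℕ} {a : I → D} (h : Ft n a) {s : J → I} (hs : Injective s) :
    Ft n (a ∘ s) := fun d =>
  (Set.ncard_le_ncard_of_injOn s (fun _ hi => hi) hs.injOn).trans (h d)

theorem ncard_sum [Finite I] [Finite J] (P : I ⊕ J → Prop) :
    {i | P i}.ncard = {i | P (.inl i)}.ncard + {j | P (.inr j)}.ncard := by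
  rw [← Set.ncard_image_of_injective _ (Sum.inl_injective (α := I) (β := J)),
    ← Set.ncard_image_of_injective _ (Sum.inr_injective (α := I) (β := J)),
    ← Set.ncard_union_eq (Set.disjoint_left.2 (by rintro _ ⟨i, -, rfl⟩ ⟨j, -, h⟩; cases h))]
  congr 1
  ext (i | j) <;> simp

theorem _root_.Pool.Agent.MC.LL.Ft.eg_elim [Finite I] [Finite J] {n m : ℕ} {a : I → D} {b : J → D} (ha : Ft n a)
    (hb : Ft m b) : Ft (n + m) (Sum.elim a b) := fun d => by
  rw [ncard_sum]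
  exact Nat.add_le_add (ha d) (hb d)

theorem _root_.Pool.Agent.MC.LL.Ft.eg_inj {a : I → D} (h : Injective a) : Ft 1 a := fun d => by
  rcases Set.eq_empty_or_nonempty {i | a i = d} with h0 | ⟨i, hi⟩
  · simp [h0]
  · have : {j | a j = d} = {i} := by
      ext j
      exact ⟨fun hj => h (hj.trans (Eq.symm hi)), fun hj => hj ▸ hi⟩
    simp [this]

theorem _root_.Pool.Agent.MC.LL.Ft.eg_trans [Finite I] [Finite D'] {n m : ℕ} {a : I → D'} {f : D' → D} (ha : Ft n a)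
    (hf : Ft m f) : Ft (n * m) (f ∘ a) := fun d => by
  classical
  have := Fintype.ofFinite I
  have := Fintype.ofFinite D'
  have h1 := Finset.card_le_mul_card_image_of_maps_to (f := a)
    (s := Finset.univ.filter fun i => f (a i) = d) (t := Finset.univ.filter fun e => f e = d)
    (by simp) n (fun e _ => by
      refine le_trans ?_ (ha e)
      rw [← Set.ncard_coe_finset]
      exact Set.ncard_le_ncard fun i hi => (Finset.mem_filter.1 hi).2)
  rw [← Set.ncard_coe_finset, ← Set.ncard_coe_finset] at h1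
  simp only [Finset.coe_filter, Finset.mem_univ, true_and] at h1
  exact h1.trans (Nat.mul_le_mul_left _ (hf d))

theorem cnt_elim [Finite I] [Finite J] (σ : Perm D) (a : I → D) (b : J → D) (d : D) :
    cnt σ (Sum.elim a b) d = cnt σ a d + cnt σ b d := ncard_sum _

theorem cnt_congr {σ : Perm D} {d e : D} (x : I → D) (h : σ.SameCycle d e) :
    cnt σ x d = cnt σ x e := by
  unfold cnt
  congr 1
  ext i
  exact ⟨fun hi => Perm.SameCycle.trans hi h, fun hi => Perm.SameCycle.trans hi h.symm⟩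

theorem cnt_inv (σ : Perm D) (x : I → D) (d : D) : cnt σ⁻¹ x d = cnt σ x d := by
  simp only [cnt, Perm.sameCycle_inv]

theorem Pj.cnt {σ' : Perm D'} {σ : Perm D} {p : D' → D} (h : Pj σ' σ p) (x : I → D') (v : D') :
    cnt σ' x v = cnt σ (p ∘ x) (p v) := by
  simp only [EG.cnt, h _ _, comp]

theorem Pj.comp {D'' : Type} {σ'' : Perm D''} {σ' : Perm D'} {σ : Perm D} {p : D' → D}
    {p' : D'' → D'} (h : Pj σ' σ p) (h' : Pj σ'' σ' p') : Pj σ'' σ (p ∘ p') := fun u v =>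
  (h' u v).trans (h _ _)

theorem Sys.pj {σ' : Perm D'} {σ : Perm D} {p : D' → D} {F : Set D} {F' : Set D'} {α : I → D}
    {α' : I → D'} (h : Sys σ F α) (hp : Pj σ' σ p) (hF : ∀ v, v ∈ F' ↔ p v ∈ F)
    (hα : ∀ i, p (α' i) = α i) : Sys σ' F' α' where
  mem i := (hF _).2 (hα i ▸ h.mem i)
  ex v hv := by
    obtain ⟨i, hi⟩ := h.ex _ ((hF v).1 hv)
    exact ⟨i, (hp _ _).2 (hα i ▸ hi)⟩
  un i j hij := h.un i j (by rw [← hα, ← hα]; exact (hp _ _).1 hij)

theorem Sys.inv {σ : Perm D} {F : Set D} {α : I → D} (h : Sys σ F α) : Sys σ⁻¹ F α :=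
  ⟨h.mem, fun d hd => by simpa only [Perm.sameCycle_inv] using h.ex d hd,
    fun i j hij => h.un i j (Perm.sameCycle_inv.1 hij)⟩

/-- Counting by labels. -/
theorem Sys.cnt {σ : Perm D} {F : Set D} {α : I → D} (h : Sys σ F α) (x : J → D) (l : J → I)
    (hl : ∀ j, σ.SameCycle (x j) (α (l j))) (i : I) : cnt σ x (α i) = {j | l j = i}.ncard := by
  unfold EG.cnt
  congr 1
  ext j
  exact ⟨fun hj => h.un _ _ ((hl j).symm.trans hj), fun hj => hj ▸ hl j⟩

theorem Sys.mat {σ τ : Perm D} {F : Set D} {u : I → D} (h : Sys σ F u) (h' : Sys τ F u)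
    (h0 : ∀ d, σ d ∈ F ↔ d ∈ F) (h1 : ∀ d, τ d ∈ F ↔ d ∈ F)
    (he : ∀ i, sz σ (u i) = sz τ (u i)) : Mat σ τ F Set.univ u u where
  iσ := h0
  iτ := h1
  mem i _ := ⟨h.mem i, h.mem i⟩
  eq i _ := he i
  exa d hd := (h.ex d hd).imp fun _ hi => ⟨trivial, hi⟩
  exb d hd := (h'.ex d hd).imp fun _ hi => ⟨trivial, hi⟩
  una i _ j _ := h.un i j
  unb i _ j _ := h'.un i j

theorem cnt_le [Finite D] [Finite I] {σ : Perm D} {x : I → D} {n m : ℕ} (hx : Ft m x)
    (hs : ∀ d, sz σ d ≤ n) (d : D) : cnt σ x d ≤ m * n := by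
  have h1 : Ft n (fun e => {v | σ.SameCycle e v}) := fun S => by
    rcases Set.eq_empty_or_nonempty {e | {v | σ.SameCycle e v} = S} with h0 | ⟨e, he⟩
    · simp [h0]
    · refine le_trans (Set.ncard_le_ncard fun v hv => ?_) (hs e)
      have h2 : {w | σ.SameCycle v w} = {w | σ.SameCycle e w} := hv.trans (Eq.symm he)
      exact (Set.ext_iff.1 h2 v).1 (Perm.SameCycle.refl _ _)
  refine le_trans (Set.ncard_le_ncard fun i hi => ?_) (hx.eg_trans h1 {v | σ.SameCycle d v})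
  ext v
  exact ⟨fun h => (Perm.SameCycle.symm hi).trans h, fun h => Perm.SameCycle.trans hi h⟩

theorem inv_of_maps [Finite D] {σ : Perm D} {S : Set D} (h : ∀ d ∈ S, σ d ∈ S) (d : D) :
    σ d ∈ S ↔ d ∈ S := by
  refine ⟨fun hd => ?_, h d⟩
  have h1 := Set.Finite.injOn_iff_bijOn_of_mapsTo (Set.toFinite S) (f := σ) h
  obtain ⟨e, he, h2⟩ := (h1.1 σ.injective.injOn).surjOn hd
  exact σ.injective h2 ▸ he

end

section
variable {G H L : P4} {F : Set G.D} {ι : G.D → H.D} {π : H.D → G.D}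

theorem Xt.inj (h : Xt G H F ι π) : Injective ι := LeftInverse.injective h.li

theorem Xt.iv (h : Xt G H F ι π) (hF : Iv G F) : Iv H (π ⁻¹' F) := by
  have key (σ : Perm G.D) (σ' : Perm H.D) (h1 : ∀ d, σ d ∈ F ↔ d ∈ F)
      (h2 : ∀ d, d ∉ F → σ' (ι d) = ι (σ d)) (v : H.D) : σ' v ∈ π ⁻¹' F ↔ v ∈ π ⁻¹' F := by
    refine not_iff_not.1 (inv_of_maps (S := (π ⁻¹' F)ᶜ) (fun w hw => ?_) v)
    obtain ⟨d, rfl⟩ : w ∈ Set.range ι := by_contra fun h3 => hw (h.nw w h3)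
    have hd : d ∉ F := fun h3 => hw (show π (ι d) ∈ F from (h.li d).symm ▸ h3)
    rw [h2 d hd]
    exact fun h3 : π (ι (σ d)) ∈ F => hd ((h1 d).1 (h.li (σ d) ▸ h3))
  exact ⟨key _ _ hF.1 h.e0, key _ _ hF.2 h.e1⟩

theorem Xt.comp {ι' : H.D → L.D} {π' : L.D → H.D} (h : Xt G H F ι π)
    (h' : Xt H L (π ⁻¹' F) ι' π') : Xt G L F (ι' ∘ ι) (π ∘ π') := by
  have hn : ∀ d, d ∉ F → ι d ∉ π ⁻¹' F := fun d hd h3 => hd (h.li d ▸ h3)
  refine ⟨fun d => by simp [h.li, h'.li], fun v hv => ?_,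
    fun d hd => by simp [h'.e0 _ (hn d hd), h.e0 d hd],
    fun d hd => by simp [h'.e1 _ (hn d hd), h.e1 d hd],
    fun d => by simp [h'.e2, h.e2], fun d => by simp [h'.e3, h.e3]⟩
  by_cases h1 : v ∈ Set.range ι'
  · obtain ⟨w, rfl⟩ := h1
    have : w ∉ Set.range ι := fun ⟨d, hd⟩ => hv ⟨d, by simp [hd]⟩
    simpa [h'.li] using h.nw w this
  · exact h'.nw v h1

theorem Iv.mir (hF : Iv G F) : Iv G.mir F :=
  ⟨fun d => by simpa using (hF.2 (G.x1⁻¹ d)).symm, fun d => by simpa using (hF.1 (G.x0⁻¹ d)).symm⟩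

theorem Xt.mir (hF : Iv G F) (h : Xt G.mir H F ι π) : Xt G H.mir F ι π := by
  refine ⟨h.li, h.nw, fun d hd => ?_, fun d hd => ?_, fun d => ?_, fun d => ?_⟩
  · rw [Perm.inv_eq_iff_eq, h.e1 _ (mt (hF.1 d).1 hd)]; simp
  · rw [Perm.inv_eq_iff_eq, h.e0 _ (mt (hF.2 d).1 hd)]; simp
  · rw [Perm.inv_eq_iff_eq, h.e3]; simp
  · rw [Perm.inv_eq_iff_eq, h.e2]; simp

theorem Iv.sc0 (hF : Iv G F) {d e : G.D} (h : G.x0.SameCycle d e) : d ∈ F ↔ e ∈ F :=
  iff_of_eq (sc_lab (fun d => d ∈ F) (fun e => propext (hF.1 e)) h)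

theorem Iv.sc1 (hF : Iv G F) {d e : G.D} (h : G.x1.SameCycle d e) : d ∈ F ↔ e ∈ F :=
  iff_of_eq (sc_lab (fun d => d ∈ F) (fun e => propext (hF.2 e)) h)

end

end Pool.Agent.MC.LL.EG
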