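import Pool.Agent.P.MP_2677b3_gt.LE1

/-! The calculus of steps and stages. -/

open Equiv Function

noncomputable section

namespace Pool.Agent.MC.LL.EG

variable {G H L : P4} {k k' n n' c c' : ℕ} {π : H.D → G.D} {π' : L.D → H.D}

theorem _root_.Pool.Agent.MC.LL.Qe.eg_trans {A B C : Gd} {m : ℕ} (h : Qe (Q (k * kA) m) A B) (h' : Qe (Q (k' * kA) m) B C) :
    Qe (Q ((k + k') * kA) m) A C := add_mul k k' kA ▸ h.transQ h'

theorem _root_.Pool.Agent.MC.LL.Qe.eg_one {A B : Gd} {m : ℕ} (h : Qe (Q kA m) A B) : Qe (Q (1 * kA) m) A B :=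
  (one_mul kA).symm ▸ h

theorem reindex {I J : Type} [Finite I] [Finite J] {a b : I → G.D} {a' b' : J → G.D} (σ : I ≃ J)
    (h1 : ∀ i, a i = a' (σ i)) (h2 : ∀ i, b i = b' (σ i)) (h : G.Sz n) (ha : Ft n a)
    (hb : Ft n b) : Qe (Q (1 * kA) n) (G.gd a b) (G.gd a' b') :=
  (api_iso (Equiv.refl _) σ (fun _ => rfl) (fun _ => rfl) (fun _ => rfl) (fun _ => rfl) h1 h2
    h ha hb).eg_one

theorem Tr.mono (h : Tr k n G H π) (hk : k ≤ k') (hn : n ≤ n') : Tr k' n' G H π :=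
  fun m hm I _ a b ha hb => (h m (hn.trans hm) I a b ha hb).monoQ (Nat.mul_le_mul_right _ hk) le_rfl

theorem Tr.comp (h : Tr k n G H π) (h' : Tr k' n H L π') : Tr (k + k') n G L (π ∘ π') :=
  fun m hm I _ a b ha hb => (h m hm I (π' ∘ a) (π' ∘ b) ha hb).eg_trans
    (h' m hm I a b (Ft.eg_comp (π := π) ha) (Ft.eg_comp (π := π) hb))

theorem tr_rot (h : G.Sz n) : Tr 1 n G G.rot id := fun _ hm _ _ _ _ ha hb =>
  (api_rot (h.mono hm) ha hb).eg_one

theorem tr_rot2 (h : G.Sz n) : Tr 2 n G G.rot.rot id := (tr_rot h).comp (tr_rot h.rot)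

theorem tr_rot3 (h : G.Sz n) : Tr 3 n G G.rot.rot.rot id := (tr_rot2 h).comp (tr_rot h.rot.rot)

theorem tr_sw (β : Perm G.D) (h1 : Tree (β⁻¹ * G.x0) β) (h2 : Tree β G.x1) (h : G.Sz n)
    (h' : (G.sw β).Sz n) : Tr 1 n G (G.sw β) id := fun _ hm _ _ _ _ ha hb =>
  (api_sw β h1 h2 (h.mono hm) (h'.mono hm) ha hb).eg_one

theorem tr_ear {E : Type} [Finite E] {ω : Perm (G.D ⊕ E)} {cn : E → G.D} (hω : IsEar ω cn)
    (h : G.Sz n) (h' : (G.ear ω).Sz n) : Tr 2 n G (G.ear ω) (Sum.elim id cn) := by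
  intro m hm I _ a b ha hb
  have key (v : G.D ⊕ E) : Nr (G.ear ω).y 10 (Sum.inl (Sum.elim id cn v)) v :=
    (P4.nr0 (G := G.ear ω) (((hω.left G.x0).2.1 (.inl (Sum.elim id cn v)) v).2
      (Perm.SameCycle.refl _ _))).mono
      (by norm_num : 1 ≤ 10)
  exact (api_ear ω cn hω (h.mono hm) (h'.mono hm) ha hb).eg_one.eg_trans
    (api_mov (G := G.ear ω) (fun i => key (a i)) (fun i => key (b i)) (h'.mono hm)
      (ha.map Sum.inl_injective) (hb.map Sum.inl_injective)).eg_one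

section
variable {R R' : Type} [Finite R] [Finite R'] {ra rb : R → G.D}

theorem Stp.mono (h : Stp k n G H π ra rb) (hk : k ≤ k') (hn : n ≤ n') : Stp k' n' G H π ra rb :=
  fun m hm I _ a b ha hb => (h m (hn.trans hm) I a b ha hb).monoQ (Nat.mul_le_mul_right _ hk) le_rfl

theorem Tr.stp (h : Tr k n G H π) (hG : G.Sz n) :
    Stp (1 + k) n G H π (R := Empty) Empty.elim Empty.elim := fun m hm I _ a b ha hb =>
  (reindex (Equiv.sumEmpty I Empty) (by rintro (i | ⟨⟨⟩⟩); rfl) (by rintro (i | ⟨⟨⟩⟩); rfl)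
    (hG.mono hm) ha hb).eg_trans
    (h m hm I a b (ha.eg_pre Sum.inl_injective) (hb.eg_pre Sum.inl_injective))

theorem Tr.comp_stp {sa sb : R → H.D} (h : Tr k n G H π) (h' : Stp k' n H L π' sa sb) :
    Stp (k + k') n G L (π ∘ π') (π ∘ sa) (π ∘ sb) := by
  intro m hm I _ a b ha hb
  have e (x : I → L.D) (s : R → H.D) :
      Sum.elim ((π ∘ π') ∘ x) (π ∘ s) = π ∘ Sum.elim (π' ∘ x) s := by
    funext i; cases i <;> rfl
  rw [e] at ha hb ⊢
  rw [e]
  exact (h m hm _ _ _ ha hb).eg_trans (h' m hm I a b ha.eg_comp hb.eg_comp)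

theorem Stp.comp_tr (h : Stp k n G H π ra rb) (h' : Tr k' n H L π') :
    Stp (k + k') n G L (π ∘ π') ra rb := fun m hm I _ a b ha hb =>
  (h m hm I (π' ∘ a) (π' ∘ b) ha hb).eg_trans (h' m hm I a b
    (Ft.eg_comp (π := π) (ha.eg_pre Sum.inl_injective))
    (Ft.eg_comp (π := π) (hb.eg_pre Sum.inl_injective)))

theorem Stp.comp {sa sb : R' → H.D} (h : Stp k n G H π ra rb) (h' : Stp k' n H L π' sa sb)
    (hG : G.Sz n) :
    Stp (1 + k + k') n G L (π ∘ π') (Sum.elim (π ∘ sa) ra) (Sum.elim (π ∘ sb) rb) := by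
  intro m hm I _ a b ha hb
  have e (x : I → L.D) (s : R' → H.D) (r : R → G.D) : Sum.elim (π ∘ Sum.elim (π' ∘ x) s) r =
      Sum.elim ((π ∘ π') ∘ x) (Sum.elim (π ∘ s) r) ∘ Equiv.sumAssoc I R' R := by
    funext i; rcases i with (i | i) | i <;> rfl
  have ha' : Ft m (Sum.elim (π ∘ Sum.elim (π' ∘ a) sa) ra) :=
    e a sa ra ▸ ha.eg_pre (Equiv.injective _)
  have hb' : Ft m (Sum.elim (π ∘ Sum.elim (π' ∘ b) sb) rb) :=
    e b sb rb ▸ hb.eg_pre (Equiv.injective _)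
  exact ((reindex (Equiv.sumAssoc I R' R).symm (by rintro (i | i | i) <;> rfl)
    (by rintro (i | i | i) <;> rfl) (hG.mono hm) ha hb).eg_trans (h m hm _ _ _ ha' hb')).eg_trans
    (h' m hm I a b (Ft.eg_comp (π := π) (ha'.eg_pre Sum.inl_injective))
      (Ft.eg_comp (π := π) (hb'.eg_pre Sum.inl_injective)))

theorem Stp.mir (h : Stp k n G.mir H π ra rb) (hG : G.Sz n) (hH : H.Sz n) :
    Stp (1 + k + 1) n G H.mir π rb ra := fun m hm I _ a b ha hb =>
  ((api_mir (hG.mono hm) ha hb).eg_one.eg_trans (h m hm I b a hb ha)).eg_trans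
    (api_mir (G := H) (hH.mono hm) (Ft.eg_comp (π := π) (hb.eg_pre Sum.inl_injective))
      (Ft.eg_comp (π := π) (ha.eg_pre Sum.inl_injective))).eg_one

/-- The tubes between `ra` and `rb` are consumed. -/
theorem stp_mop (τ : Perm G.D) (hτ : τ * τ = 1) (hab : ∀ j, τ (ra j) = rb j) (hi : Injective ra)
    (hne : ∀ j l, ra j ≠ rb l) (hs : ∀ d, τ d ≠ d → ∃ j, d = ra j ∨ d = rb j) (h1 : Tree G.x0 τ)
    (h2 : Tree τ G.x1) (h : G.Sz n) (h' : (G.sw τ).Sz n) : Stp 1 n G (G.sw τ) id ra rb :=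
  fun _ hm _ _ _ _ ha hb => (api_mop τ ra rb hτ hab hi hne hs h1 h2 (h.mono hm) (h'.mono hm)
    (ha.eg_pre Sum.inl_injective) (hb.eg_pre Sum.inl_injective)).eg_one

end

theorem _root_.Pool.Agent.MC.LL.Mat.eg_sum {D K K' : Type} [Finite D] {σ τ : Perm D} {F F' : Set D} {a b : K → D}
    {a' b' : K' → D} (h : Mat σ τ F Set.univ a b) (h' : Mat σ τ F' Set.univ a' b')
    (hd : Disjoint F F') : Mat σ τ (F ∪ F') Set.univ (Sum.elim a a') (Sum.elim b b') := by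
  have key {ρ : Perm D} (hρ : ∀ d, ρ d ∈ F ↔ d ∈ F) {u v : D} (hu : u ∈ F) (hv : v ∈ F')
      (hs : ρ.SameCycle u v) : False :=
    Set.disjoint_left.1 hd
      (cast (sc_lab (fun d => d ∈ F) (fun e => propext (hρ e)) hs) hu) hv
  refine ⟨fun d => or_congr (h.iσ d) (h'.iσ d), fun d => or_congr (h.iτ d) (h'.iτ d), ?_, ?_,
    ?_, ?_, ?_, ?_⟩
  · rintro (i | i) -
    exacts [⟨.inl (h.mem i trivial).1, .inl (h.mem i trivial).2⟩,
      ⟨.inr (h'.mem i trivial).1, .inr (h'.mem i trivial).2⟩]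
  · rintro (i | i) -
    exacts [h.eq i trivial, h'.eq i trivial]
  · rintro d (hd | hd)
    exacts [(h.exa d hd).elim fun i hi => ⟨.inl i, hi⟩, (h'.exa d hd).elim fun i hi => ⟨.inr i, hi⟩]
  · rintro d (hd | hd)
    exacts [(h.exb d hd).elim fun i hi => ⟨.inl i, hi⟩, (h'.exb d hd).elim fun i hi => ⟨.inr i, hi⟩]
  · rintro (i | i) - (j | j) - hs
    exacts [congrArg _ (h.una i trivial j trivial hs),
      (key h.iσ (h.mem i trivial).1 (h'.mem j trivial).1 hs).elim,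
      (key h.iσ (h.mem j trivial).1 (h'.mem i trivial).1 hs.symm).elim,
      congrArg _ (h'.una i trivial j trivial hs)]
  · rintro (i | i) - (j | j) - hs
    exacts [congrArg _ (h.unb i trivial j trivial hs),
      (key h.iτ (h.mem i trivial).2 (h'.mem j trivial).2 hs).elim,
      (key h.iτ (h.mem j trivial).2 (h'.mem i trivial).2 hs.symm).elim,
      congrArg _ (h'.unb i trivial j trivial hs)]

/-- Matchings of the last two slots accumulate along extensions. -/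
theorem Xt.mat {F : Set H.D} {ι' : H.D → L.D} (h : Xt H L F ι' π') {S : Set H.D} {K K' : Type}
    {a b : K → H.D} {a' b' : K' → L.D} (h1 : Mat H.x2 H.x3 S Set.univ a b)
    (h2 : Mat L.x2 L.x3 (Set.range ι')ᶜ Set.univ a' b') :
    Mat L.x2 L.x3 (ι' '' S ∪ (Set.range ι')ᶜ) Set.univ (Sum.elim (ι' ∘ a) a')
      (Sum.elim (ι' ∘ b) b') :=
  (h1.map ι' h.inj (fun d _ => h.e2 d) (fun d _ => h.e3 d) id (Set.bijOn_id _) (fun _ _ => rfl)
    (fun _ _ => rfl)).eg_sum h2 (Set.disjoint_left.2 fun _ ⟨d, _, e⟩ hv => hv ⟨d, e⟩)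

theorem compl_range_comp {A B C : Type} (f : A → B) {g : B → C} (hg : Injective g) :
    (Set.range (g ∘ f))ᶜ = g '' (Set.range f)ᶜ ∪ (Set.range g)ᶜ := by
  ext v
  by_cases h : v ∈ Set.range g
  · obtain ⟨w, rfl⟩ := h
    simp [hg.eq_iff]
  · simp only [Set.mem_compl_iff, Set.mem_union, h, not_false_eq_true, or_true, iff_true]
    exact fun ⟨d, hd⟩ => h ⟨_, hd⟩

namespace Stg
variable {F : Set G.D} {I I' : Type} {loc : I → G.D → Prop}

/-- Weaker constants, other owners. -/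
abbrev map [Finite I] (S : Stg k n c G F loc) (f : I → I') (hf : Ft c' f)
    (loc' : I' → G.D → Prop) (hl : ∀ i d, loc i d → loc' (f i) d) (hn : n ≤ n') :
    Stg k n' (c * c') G F loc' :=
  { S with
    o := f ∘ S.o
    stp := S.stp.mono le_rfl hn
    ft := S.ft.eg_trans hf
    lr := fun j => ⟨hl _ _ (S.lr j).1, hl _ _ (S.lr j).2⟩
    lk := fun j => ⟨hl _ _ (S.lk j).1, hl _ _ (S.lk j).2⟩ }

/-- One stage after the other. -/
abbrev comp (S : Stg k n c G F loc)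
    (T : Stg k' n c' S.H (S.π ⁻¹' F) fun i v => loc i (S.π v)) (hG : G.Sz n) :
    Stg (1 + k + k') n (c + c') G F loc where
  H := T.H
  ι := T.ι ∘ S.ι
  π := S.π ∘ T.π
  xt := S.xt.comp T.xt
  R := T.R ⊕ S.R
  fR := inferInstance
  K := S.K ⊕ T.K
  fK := inferInstance
  ra := Sum.elim (S.π ∘ T.ra) S.ra
  rb := Sum.elim (S.π ∘ T.rb) S.rb
  ka := Sum.elim (T.ι ∘ S.ka) T.ka
  kb := Sum.elim (T.ι ∘ S.kb) T.kb
  o := Sum.elim (Sum.elim (T.o ∘ .inl) (S.o ∘ .inl)) (Sum.elim (S.o ∘ .inr) (T.o ∘ .inr))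
  stp := S.stp.comp T.stp hG
  mat := compl_range_comp S.ι T.xt.inj ▸ T.xt.mat S.mat T.mat
  ft := fun i => by
    have h1 := S.ft i
    have h2 := T.ft i
    rw [ncard_sum] at h1 h2
    rw [ncard_sum, ncard_sum, ncard_sum]
    simp only [Sum.elim_inl, Sum.elim_inr, comp_apply]
    omega
  lr := by
    rintro (j | j)
    exacts [T.lr j, S.lr j]
  lk := by
    rintro (j | j)
    · simpa [T.xt.li] using S.lk j
    · exact T.lk j

/-- A stage for the mirror image. -/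
abbrev mir (S : Stg k n c G.mir F loc) (hF : Iv G F) (hG : G.Sz n) (hH : S.H.Sz n) :
    Stg (1 + k + 1) n c G F loc where
  H := S.H.mir
  ι := S.ι
  π := S.π
  xt := S.xt.mir hF
  R := S.R
  fR := S.fR
  K := S.K
  fK := S.fK
  ra := S.rb
  rb := S.ra
  ka := S.kb
  kb := S.ka
  o := S.o
  stp := S.stp.mir hG hH
  mat := S.mat.swap.inv
  ft := S.ft
  lr := fun j => (S.lr j).symm
  lk := fun j => (S.lk j).symm

end Stg

end Pool.Agent.MC.LL.EG
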