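import Pool.Agent.P.MP_2677b3_gt.LE2

open Equiv Function

noncomputable section

namespace Pool.Agent.MC.LL.EG

variable {G : P4} {F : Set G.D} {E : Type} [Finite E] {ω : Perm (G.D ⊕ E)} {cn : E → G.D}

theorem xt_ear (hω : IsEar ω cn) (hI : Iv G F) (hF : ∀ e, cn e ∈ F) :
    Xt G (G.ear ω) F Sum.inl (Sum.elim id cn) := by
  have h1 : ∀ d, d ∉ F → ω (.inl d) = .inl d := fun d hd =>
    hω.off fun ⟨e, he⟩ => hd (he ▸ hF e)
  refine ⟨fun _ => rfl, ?_, fun d hd => h1 _ (mt (hI.1 d).1 hd), fun d hd => ?_, fun _ => rfl,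
    fun _ => rfl⟩
  · rintro (d | e) h
    exacts [(h ⟨d, rfl⟩).elim, hF e]
  · change xt E G.x1 (ω⁻¹ (.inl d)) = _
    rw [Perm.inv_eq_iff_eq.2 (h1 d hd).symm]
    rfl

/-- Fixed new points are matched with themselves. -/
theorem mat_fix {D : Type} [Finite D] (σ τ : Perm D) :
    Mat (xt E σ) (xt E τ) (Set.range Sum.inl)ᶜ Set.univ Sum.inr Sum.inr := by
  have h1 (ρ : Perm D) (i j : E) (h : (xt E ρ).SameCycle (.inr i) (.inr j)) : i = j := by
    rcases (sc_xt ρ _ _).1 h with h | ⟨_, _, h, _⟩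
    exacts [Sum.inr_injective h, nomatch h]
  refine ⟨?_, ?_, by simp, fun i _ => by rw [sz_fix rfl, sz_fix rfl], ?_, ?_,
    fun i _ j _ => h1 _ i j, fun i _ j _ => h1 _ i j⟩
  · rintro (d | e) <;> simp
  · rintro (d | e) <;> simp
  all_goals
    rintro (d | e) h
    exacts [(h ⟨d, rfl⟩).elim, ⟨e, trivial, Perm.SameCycle.refl _ _⟩]

theorem le_Q2 (s : ℕ) : s * (s + 1) ≤ Q 2 s := by unfold Q; nlinarith

theorem self_le_Q {k : ℕ} (s : ℕ) (hk : 0 < k) : s ≤ Q k s := by have := le_Q s hk; omega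

/-- New points in the first two slots; each one uses up one tube. -/
theorem abs_stg (hI : Iv G F) (cn : E → G.D) (hF : ∀ e, cn e ∈ F) {s : ℕ} (hG : G.Sz s)
    (hc : Ft s cn) : ∃ S : Stg 3 (Q 2 s) 1 G F fun e d => d = cn e, S.H.Sz (Q 2 s) ∧
      Pj S.H.x0 G.x0 S.π ∧ Pj S.H.x1 G.x1 S.π ∧
      (∀ d, sz S.H.x0 (S.ι d) = sz G.x0 d + cnt G.x0 cn d) ∧
      ∀ d, sz S.H.x1 (S.ι d) = sz G.x1 d + cnt G.x1 cn d := by
  obtain ⟨ω, hω⟩ := exists_ear cn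
  have h1 := (ear_sz hω hG hc).mono (le_Q2 s)
  have h0 := hG.mono (self_le_Q s two_pos)
  exact ⟨{
    H := G.ear ω, ι := Sum.inl, π := Sum.elim id cn, xt := xt_ear hω hI hF, R := Empty,
    fR := inferInstance, K := E, fK := inferInstance, ra := Empty.elim, rb := Empty.elim,
    ka := Sum.inr, kb := Sum.inr, o := Sum.elim Empty.elim id, stp := (tr_ear hω h0 h1).stp h0,
    mat := mat_fix _ _,
    ft := Ft.eg_inj (by rintro (⟨⟨⟩⟩ | i) (⟨⟨⟩⟩ | j) h; exact congrArg _ h),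
    lr := fun j => j.elim, lk := fun _ => ⟨rfl, rfl⟩ }, h1, (hω.left G.x0).2.1,
    (hω.right G.x1).2.1, (hω.left G.x0).2.2, (hω.right G.x1).2.2⟩

end Pool.Agent.MC.LL.EG
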