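import Pool.Agent.P.MP_2677b3_gt.LT1

open Equiv Function

noncomputable section

namespace Pool.Agent.MC.LL

variable {D : Type} [Finite D]

theorem lt7b_mono {I : Type} [Finite I] {P Q : I → Prop} (y : I → ℕ) (h : ∀ j, P j → Q j) :
    csum P y ≤ csum Q y := by
  unfold csum
  refine Finset.sum_le_sum_of_subset ?_
  intro j hj
  simp only [Finset.mem_filter, Finset.mem_univ, true_and] at hj ⊢
  exact h j hj

theorem lt7b_ins {I : Type} [Finite I] {P Q : I → Prop} (y : I → ℕ) (i : I) (hi : ¬ Q i)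
    (h : ∀ j, P j ↔ (Q j ∨ j = i)) : csum P y = csum Q y + y i := by
  classical
  unfold csum
  rw [add_comm, ← Finset.sum_insert]
  · refine Finset.sum_congr ?_ fun _ _ => rfl
    ext j
    simp only [Finset.mem_filter, Finset.mem_univ, true_and, Finset.mem_insert, h j]
    exact or_comm
  · simpa only [Finset.mem_filter, Finset.mem_univ, true_and] using hi

theorem lt7b_zero {I : Type} [Finite I] {P : I → Prop} (y : I → ℕ) (h : ∀ j, ¬ P j) :
    csum P y = 0 := by
  unfold csum
  refine Finset.sum_eq_zero ?_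
  intro j hj
  simp only [Finset.mem_filter, Finset.mem_univ, true_and] at hj
  exact absurd hj (h j)

theorem lt7b_min {I : Type} (e : I → ℕ) (P : I → Prop) (h : ∃ j, P j) :
    ∃ j, P j ∧ ∀ k, P k → e j ≤ e k := by
  classical
  have h1 : ∃ n, ∃ j, P j ∧ e j = n := by
    obtain ⟨j, hj⟩ := h
    exact ⟨e j, j, hj, rfl⟩
  obtain ⟨j, hj, hn⟩ := Nat.find_spec h1
  refine ⟨j, hj, fun k hk => ?_⟩
  rw [hn]
  exact Nat.find_min' h1 ⟨k, hk, rfl⟩

theorem lt7b_off {I : Type} [Finite I] (r : I → I → Prop) (hr : ∀ i, r i i)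
    (hsy : ∀ i j, r i j → r j i) (ht : ∀ i j k, r i j → r j k → r i k) (y : I → ℕ) :
    ∃ off : I → ℕ, (∀ i, off i + y i ≤ csum (fun j => r j i) y) ∧
      (∀ i j, r j i → i ≠ j → off i + y i ≤ off j ∨ off j + y j ≤ off i) ∧
      ∀ i, (∃ j, r j i ∧ off j = off i + y i) ∨
        (off i + y i = csum (fun j => r j i) y ∧ ∃ j, r j i ∧ off j = 0) := by
  obtain ⟨e, he⟩ : ∃ e : I → ℕ, Injective e := Countable.exists_injective_nat I
  have key : ∀ i, csum (fun j => r j i ∧ e j ≤ e i) y =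
      csum (fun j => r j i ∧ e j < e i) y + y i := by
    intro i
    refine lt7b_ins y i (fun h => lt_irrefl _ h.2) fun j => ⟨?_, ?_⟩
    · rintro ⟨h1, h2⟩
      rcases h2.lt_or_eq with h | h
      · exact Or.inl ⟨h1, h⟩
      · exact Or.inr (he h)
    · rintro (⟨h1, h2⟩ | h)
      · exact ⟨h1, h2.le⟩
      · subst h
        exact ⟨hr _, le_rfl⟩
  have lt : ∀ i j, r j i → e i < e j → csum (fun k => r k i ∧ e k < e i) y + y i ≤
      csum (fun k => r k j ∧ e k < e j) y := by
    intro i j hij hlt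
    rw [← key i]
    exact lt7b_mono y fun k hk => ⟨ht _ _ _ hk.1 (hsy _ _ hij), lt_of_le_of_lt hk.2 hlt⟩
  refine ⟨fun i => csum (fun j => r j i ∧ e j < e i) y, fun i => ?_, fun i j hij hne => ?_,
    fun i => ?_⟩
  · show csum (fun j => r j i ∧ e j < e i) y + y i ≤ _
    rw [← key i]
    exact lt7b_mono y fun j hj => hj.1
  · rcases lt_trichotomy (e i) (e j) with h | h | h
    · exact Or.inl (lt i j hij h)
    · exact absurd (he h) hne
    · exact Or.inr (lt j i (hsy _ _ hij) h)
  · by_cases hx : ∃ j, r j i ∧ e i < e j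
    · obtain ⟨j, hj, hm⟩ := lt7b_min e _ hx
      refine Or.inl ⟨j, hj.1, ?_⟩
      show csum (fun k => r k j ∧ e k < e j) y = csum (fun k => r k i ∧ e k < e i) y + y i
      rw [← key i]
      refine le_antisymm (lt7b_mono y fun k hk => ?_) (lt7b_mono y fun k hk => ?_)
      · have h1 : r k i := ht _ _ _ hk.1 hj.1
        refine ⟨h1, ?_⟩
        by_contra hc
        exact absurd (hm k ⟨h1, not_le.mp hc⟩) (not_le.mpr hk.2)
      · exact ⟨ht _ _ _ hk.1 (hsy _ _ hj.1), lt_of_le_of_lt hk.2 hj.2⟩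
    · refine Or.inr ⟨?_, ?_⟩
      · show csum (fun k => r k i ∧ e k < e i) y + y i = _
        rw [← key i]
        refine le_antisymm (lt7b_mono y fun k hk => hk.1) (lt7b_mono y fun k hk => ⟨hk, ?_⟩)
        by_contra hc
        exact hx ⟨k, hk, not_le.mp hc⟩
      · obtain ⟨j, hj, hm⟩ := lt7b_min e (fun j => r j i) ⟨i, hr i⟩
        refine ⟨j, hj, lt7b_zero y fun k hk => ?_⟩
        exact absurd (hm k (ht _ _ _ hk.1 hj)) (not_le.mpr hk.2)

/-- Starting points of arcs of prescribed lengths. -/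
theorem split (C : Perm D) {I : Type} [Finite I] (an : I → D) (y : I → ℕ) (hy : ∀ i, 0 < y i)
    (hs : ∀ i, csum (fun j => C.SameCycle (an j) (an i)) y = sz C (an i)) :
    ∃ x : I → D, Injective x ∧ (∀ i, C.SameCycle (x i) (an i)) ∧
      ∀ i, (C ^ y i) (x i) ∈ Set.range x ∧
        ∀ k, 0 < k → k < y i → (C ^ k) (x i) ∉ Set.range x := by
  obtain ⟨o, idx, ho, ho', -, -, hidx, -⟩ := exists_idx C
  obtain ⟨off, h1, h2, h3⟩ := lt7b_off (fun j i => C.SameCycle (an j) (an i))
    (fun i => Perm.SameCycle.refl _ _) (fun i j h => h.symm) (fun i j k h h' => h.trans h') y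
  have hsc : ∀ i (n : ℕ), C.SameCycle ((C ^ n) (o (an i))) (an i) := by
    intro i n
    have h : C.SameCycle (o (an i)) ((C ^ n) (o (an i))) := ⟨(n : ℤ), by rw [zpow_natCast]⟩
    exact h.symm.trans (ho _).symm
  have hadd : ∀ (a b : ℕ) (d : D), (C ^ a) ((C ^ b) d) = (C ^ (b + a)) d := by
    intro a b d
    rw [add_comm, pow_add, Perm.mul_apply]
  have hle : ∀ i, off i + y i ≤ sz C (an i) := fun i => hs i ▸ h1 i
  have inj : ∀ i j a, a < sz C (an i) → (C ^ off j) (o (an j)) = (C ^ a) (o (an i)) →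
      C.SameCycle (an j) (an i) ∧ off j = a := by
    intro i j a ha h
    have hij : C.SameCycle (an j) (an i) := (hsc j (off j)).symm.trans (h ▸ hsc i a)
    refine ⟨hij, ?_⟩
    have e1 := hidx (an j) (off j) (by have := hle j; have := hy j; omega)
    have e2 := hidx (an i) a ha
    rw [h, e2] at e1
    exact e1.symm
  refine ⟨fun i => (C ^ off i) (o (an i)), fun i j h => ?_, fun i => hsc i _, fun i => ⟨?_, ?_⟩⟩
  · by_contra hne
    obtain ⟨hij, he⟩ := inj j i (off j) (by have := hle j; have := hy j; omega) h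
    have := hy i
    have := hy j
    rcases h2 i j hij.symm hne with h' | h' <;> omega
  · show (C ^ y i) ((C ^ off i) (o (an i))) ∈ _
    rw [hadd]
    rcases h3 i with ⟨j, hj, he⟩ | ⟨he, j, hj, h0⟩
    · refine ⟨j, ?_⟩
      show (C ^ off j) (o (an j)) = _
      rw [he, ho' _ _ hj]
    · refine ⟨j, ?_⟩
      show (C ^ off j) (o (an j)) = _
      rw [he, hs i, h0, ho' _ _ hj, sz_congr (ho (an i)), pow_sz, pow_zero, Perm.one_apply]
  · rintro k hk hky ⟨j, hj⟩
    have hj' : (C ^ off j) (o (an j)) = (C ^ (off i + k)) (o (an i)) := by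
      rw [← hadd]
      exact hj
    obtain ⟨hij, he⟩ := inj i j (off i + k) (by have := hle i; omega) hj'
    by_cases hne : i = j
    · subst hne
      omega
    · have := hy j
      rcases h2 i j hij hne with h' | h' <;> omega

end Pool.Agent.MC.LL
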