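import Pool.Agent.P.MP_2677b3_gt.LT7a
import Pool.Agent.P.MP_2677b3_gt.LT7b
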