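import Pool.Agent.P.MP_2677b3_gt.LE3
import Pool.Agent.P.MP_2677b3_gt.LT3
import Pool.Agent.P.MP_2677b3_gt.LT7

open Equiv Function

noncomputable section

namespace Pool.Agent.MC.LL.EG

variable {G : P4} {F : Set G.D} {I : Type} [Finite I]

/-- Return times of the new points. -/
theorem le4_pow {D E : Type} [Finite D] [Finite E] {ω : Perm (D ⊕ E)} {x : E → D}
    (hω : IsEar ω x) (hx : Injective x) (C : Perm D) (y : E → ℕ) (hy : ∀ i, 0 < y i)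
    (h : ∀ i, (C ^ y i) (x i) ∈ Set.range x ∧
      ∀ k, 0 < k → k < y i → (C ^ k) (x i) ∉ Set.range x) (i : E) :
    ((xt E C * ω⁻¹) ^ (y i + 1)) (.inr i) ∈ Set.range (Sum.inr : E → D ⊕ E) ∧
      ∀ k, 0 < k → k < y i + 1 →
        ((xt E C * ω⁻¹) ^ k) (.inr i) ∉ Set.range (Sum.inr : E → D ⊕ E) := by
  have h1 : ∀ j, (xt E C * ω⁻¹) (.inr j) = .inl (C (x j)) := fun j => by
    rw [Perm.mul_apply, Perm.inv_eq_iff_eq.2 (hω.inj hx j).1.symm]; rfl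
  have h2 : ∀ j, (xt E C * ω⁻¹) (.inl (x j)) = .inr j := fun j => by
    rw [Perm.mul_apply, Perm.inv_eq_iff_eq.2 (hω.inj hx j).2.symm]; rfl
  have h3 : ∀ d, d ∉ Set.range x → (xt E C * ω⁻¹) (.inl d) = .inl (C d) := fun d hd => by
    rw [Perm.mul_apply, Perm.inv_eq_iff_eq.2 (hω.off hd).symm]; rfl
  have h4 : ∀ k, k < y i → ((xt E C * ω⁻¹) ^ (k + 1)) (.inr i) = .inl ((C ^ (k + 1)) (x i)) := by
    intro k
    induction k with
    | zero => intro _; simpa using h1 i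
    | succ k ih =>
      intro hk
      rw [pow_succ', Perm.mul_apply, ih (by omega), h3 _ ((h i).2 _ (by omega) hk),
        pow_succ' C (k + 1), Perm.mul_apply]
  refine ⟨?_, fun k hk hk' => ?_⟩
  · obtain ⟨j, hj⟩ := (h i).1
    obtain ⟨k, hk⟩ : ∃ k, y i = k + 1 := ⟨y i - 1, by have := hy i; omega⟩
    rw [pow_succ', Perm.mul_apply, hk, h4 k (by omega), ← hk, ← hj, h2]
    exact ⟨j, rfl⟩
  · obtain ⟨l, rfl⟩ : ∃ l, k = l + 1 := ⟨k - 1, by omega⟩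
    rw [h4 l (by omega)]
    rintro ⟨j, hj⟩
    cases hj

theorem le4_sum {D E : Type} [Finite D] [Finite E] (b : Perm (D ⊕ E))
    (h : ∀ d, b (.inl d) = .inl d) : ∃ γ : Perm E, b = Perm.sumCongr 1 γ := by
  obtain ⟨⟨p, γ⟩, hp⟩ := Perm.mem_sumCongrHom_range_of_perm_mapsTo_inl (σ := b)
    (by rintro _ ⟨d, rfl⟩; exact ⟨d, (h d).symm⟩)
  have h1 : p = 1 := by
    ext d
    have h2 := h d
    rw [← hp] at h2
    simpa using h2
  exact ⟨γ, by rw [← hp, h1]; rfl⟩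

theorem le4_sz {D E : Type} [Finite D] [Finite E] {A : Perm D} {B : Perm E} {n : ℕ}
    (h : ∀ d, sz A d ≤ n) (h' : ∀ e, sz B e ≤ n) (v : D ⊕ E) : sz (Perm.sumCongr A B) v ≤ n := by
  rcases v with d | e
  exacts [((sc_sum A B).2.2.2.1 d).trans_le (h d), ((sc_sum A B).2.2.2.2 e).trans_le (h' e)]

/-- The cells of the second slot are cut into pieces of prescribed sizes. -/
theorem cut_stg (hI : Iv G F) (an : I → G.D) (hF : ∀ i, an i ∈ F) (y : I → ℕ) (hy : ∀ i, 0 < y i)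
    (hs : ∀ d ∈ F, csum (fun j => G.x1.SameCycle (an j) d) y = sz G.x1 d)
    (ho : ∀ d ∈ F, Odd (cnt G.x1 an d)) {s : ℕ} (hG : G.Sz s) :
    ∃ S : Stg 10 (Q 2 s) 1 G F fun i d => G.x1.SameCycle d (an i), ∃ e : I → S.H.D,
      S.H.Sz (Q 2 s) ∧ (∀ i, G.x1.SameCycle (S.π (e i)) (an i)) ∧ Pj S.H.x0 G.x0 S.π ∧
      (∀ d, sz S.H.x0 (S.ι d) = sz G.x0 d + cnt G.x0 (S.π ∘ e) d) ∧
      Sys S.H.x1 (S.π ⁻¹' F) e ∧ (∀ i, sz S.H.x1 (e i) = y i + 1) ∧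
      ∀ u v, S.H.x1.SameCycle u v → G.x1.SameCycle (S.π u) (S.π v) := by
  obtain ⟨x, hx, hxa, hxr⟩ := split G.x1 an y hy fun i => hs _ (hF i)
  obtain ⟨ω, hω⟩ := exists_ear x
  have hxF : ∀ i, x i ∈ F := fun i => (hI.sc1 (hxa i)).2 (hF i)
  have hC := (hω.right G.x1).2.1
  have hp := le4_pow hω hx G.x1 y hy hxr
  obtain ⟨t1, c1, c2, c3, -⟩ := hub (xt I G.x1 * ω⁻¹) (Set.range Sum.inr)
    (Sum.elim (fun _ => 0) fun i => y i + 1) (by
      rintro _ ⟨i, rfl⟩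
      exact ⟨Nat.succ_pos _, hp i⟩)
  obtain ⟨γ, hγ⟩ := le4_sum (ret (xt I G.x1 * ω⁻¹) (Set.range Sum.inr))
    fun d => ret_not (by rintro ⟨j, hj⟩; cases hj)
  have hγc : ∀ i j, γ.SameCycle i j ↔ G.x1.SameCycle (x i) (x j) := fun i j => by
    rw [← (sc_sum (1 : Perm G.D) γ).2.1, ← hγ, ret_sc (Set.mem_range_self i) (Set.mem_range_self j)]
    exact hC _ _
  have hodd : ∀ i, Odd (sz γ i) := fun i => by
    have h1 : sz γ i = cnt G.x1 an (an i) := by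
      unfold sz cnt
      congr 1
      ext j
      exact (hγc i j).trans ⟨fun h => ((hxa j).symm.trans h.symm).trans (hxa i),
        fun h => ((hxa i).trans h.symm).trans (hxa j).symm⟩
    exact h1 ▸ ho _ (hF i)
  obtain ⟨io, Rp, a, b, -, t2, -, hab, hm⟩ := dip γ hodd
  rw [hγ] at t1 c1 c2 c3
  have r1 : ∀ u v, ((Perm.sumCongr (1 : Perm G.D) γ)⁻¹ * (xt I G.x1 * ω⁻¹)).SameCycle u v →
      (xt I G.x1 * ω⁻¹).SameCycle u v := fun u v h => by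
    have := t1.left h
    rwa [mul_inv_cancel_left] at this
  have z1 : (G.ear ω).Sz (s * (1 + 1)) := ear_sz hω hG (Ft.eg_inj hx)
  obtain ⟨zA, zC, zX, zY⟩ := P4.sz_iff.1 z1
  obtain ⟨-, -, zX0, zY0⟩ := P4.sz_iff.1 (hG.mono (by omega : s ≤ s * (1 + 1)))
  have zC' : ∀ v, sz ((Perm.sumCongr (1 : Perm G.D) γ)⁻¹ * (xt I G.x1 * ω⁻¹)) v ≤ s * (1 + 1) :=
    fun v => (sz_le_of_sc (fun e => r1 _ _ ⟨1, by simp⟩) v).trans (zC v)
  have zγ : ∀ i, sz γ i ≤ s * (1 + 1) := fun i => by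
    rw [← (sc_sum (1 : Perm G.D) γ).2.2.2.2]
    refine (sz_le_of_sc (fun e => ?_) _).trans (zC (.inr i))
    have := t1.right (d := e) (e := Perm.sumCongr (1 : Perm G.D) γ e) ⟨1, by simp⟩
    rwa [mul_inv_cancel_left] at this
  have zi : ∀ i, sz io i ≤ s * (1 + 1) := fun i => by
    refine (sz_le_of_sc (fun e => ?_) _).trans (zγ i)
    have := t2.right (d := e) (e := io e) ⟨1, by simp⟩
    rwa [mul_inv_cancel_left] at this
  have zr : ∀ i, sz (io⁻¹ * γ) i ≤ s * (1 + 1) := fun i => by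
    refine (sz_le_of_sc (fun e => ?_) _).trans (zγ i)
    have := t2.left (d := e) (e := (io⁻¹ * γ) e) ⟨1, by simp⟩
    rwa [mul_inv_cancel_left] at this
  have e1 : xt I G.x2 * Perm.sumCongr 1 γ = Perm.sumCongr G.x2 γ := by
    rw [Perm.sumCongr_mul, mul_one, one_mul]
  have e2 : (Perm.sumCongr (1 : Perm G.D) io)⁻¹ * (xt I G.x2 * Perm.sumCongr 1 γ) =
      Perm.sumCongr G.x2 (io⁻¹ * γ) := by
    rw [e1, Perm.sumCongr_inv, Perm.sumCongr_mul, inv_one, one_mul]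
  have e3 : xt I G.x3 * Perm.sumCongr 1 io = Perm.sumCongr G.x3 io := by
    rw [Perm.sumCongr_mul, mul_one, one_mul]
  have hq : s * (1 + 1) ≤ Q 2 s := by unfold Q; nlinarith
  have z2 : ((G.ear ω).rot.sw (Perm.sumCongr 1 γ)).Sz (Q 2 s) :=
    (P4.sz_iff.2 ⟨zC', fun v => (congrArg (sz · v) e1).trans_le (le4_sz zX0 zγ v), zY, zA⟩).mono hq
  have z3 : (((G.ear ω).rot.sw (Perm.sumCongr 1 γ)).rot.sw (Perm.sumCongr 1 io)).Sz (Q 2 s) :=
    (P4.sz_iff.2 ⟨fun v => (congrArg (sz · v) e2).trans_le (le4_sz zX0 zr v),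
      fun v => (congrArg (sz · v) e3).trans_le (le4_sz zY0 zi v), zA, zC'⟩).mono hq
  have z0 := hG.mono (self_le_Q s two_pos)
  have z1' := z1.mono hq
  have tr := (((((tr_ear hω z0 z1').comp (tr_rot z1')).comp
    (tr_sw (G := (G.ear ω).rot) (Perm.sumCongr 1 γ) t1
      (Tree.sum (tree_one G.x2).symm (tree_one γ)) z1'.rot z2)).comp (tr_rot z2)).comp
    (tr_sw (G := ((G.ear ω).rot.sw (Perm.sumCongr 1 γ)).rot) (Perm.sumCongr 1 io)
      (e2 ▸ Tree.sum (tree_one G.x2) t2)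
      (Tree.sum (tree_one G.x3).symm (tree_one io)) z2.rot z3)).comp (tr_rot2 z3)
  have hX := xt_ear hω hI hxF
  have hl : ∀ i j, γ.SameCycle i j → G.x1.SameCycle (x j) (an i) := fun i j h =>
    ((hγc i j).1 h).symm.trans (hxa i)
  refine ⟨{
    H := (((G.ear ω).rot.sw (Perm.sumCongr 1 γ)).rot.sw (Perm.sumCongr 1 io)).rot.rot
    ι := Sum.inl, π := Sum.elim id x
    xt := ⟨hX.li, hX.nw, hX.e0, fun d hd => ?_, fun d => congrArg (· (Sum.inl d)) e2,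
      fun d => congrArg (· (Sum.inl d)) e3⟩
    R := Empty, fR := inferInstance, K := Rp, fK := inferInstance
    ra := Empty.elim, rb := Empty.elim
    ka := fun j => .inr (a j), kb := fun j => .inr (b j), o := Sum.elim Empty.elim Subtype.val
    stp := (tr.stp z0).mono (by norm_num) le_rfl
    mat := ?_
    ft := Ft.eg_inj (by
      rintro (⟨⟨⟩⟩ | i) (⟨⟨⟩⟩ | j) h
      exact congrArg _ (Subtype.ext h))
    lr := fun j => j.elim
    lk := fun j => ⟨hl _ _ (hab j).1, hl _ _ (hab j).2⟩ }, Sum.inr, z3.rot.rot, hxa,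
    (hω.left G.x0).2.1, (hω.left G.x0).2.2, ⟨hxF, fun v hv => ?_, fun i j h => ?_⟩,
    fun i => c2 _ ⟨i, rfl⟩, fun u v h => (hC u v).1 (r1 u v h)⟩
  · have h1 : (xt I G.x1 * ω⁻¹) (.inl d) = .inl (G.x1 d) := hX.e1 d hd
    change (Perm.sumCongr (1 : Perm G.D) γ)⁻¹ ((xt I G.x1 * ω⁻¹) (.inl d)) = _
    rw [h1]
    rfl
  · rw [Set.compl_range_inl, ← Set.image_univ]
    exact hm.map Sum.inr Sum.inr_injective (fun d _ => congrArg (· (Sum.inr d)) e2)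
      (fun d _ => congrArg (· (Sum.inr d)) e3) Subtype.val
      ⟨fun j _ => j.2, Subtype.val_injective.injOn, fun j hj => ⟨⟨j, hj⟩, trivial, rfl⟩⟩
      (fun _ _ => rfl) fun _ _ => rfl
  · obtain ⟨i, hi⟩ := Set.nonempty_of_ncard_ne_zero (ho _ hv).pos.ne'
    obtain ⟨_, ⟨j, rfl⟩, hj⟩ := c3 _ ⟨i, rfl⟩ v ((hC _ _).2 ((hxa i).trans hi))
    exact ⟨j, hj.symm⟩
  · obtain ⟨k, hk, he⟩ := (c1 _ ⟨i, rfl⟩ _).1 h
    rcases Nat.eq_zero_or_pos k with rfl | h0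
    · exact Sum.inr_injective he.symm
    · exact ((hp i).2 k h0 hk ⟨j, he⟩).elim

/-- The same for the first slot. -/
theorem cutA_stg (hI : Iv G F) (an : I → G.D) (hF : ∀ i, an i ∈ F) (y : I → ℕ) (hy : ∀ i, 0 < y i)
    (hs : ∀ d ∈ F, csum (fun j => G.x0.SameCycle (an j) d) y = sz G.x0 d)
    (ho : ∀ d ∈ F, Odd (cnt G.x0 an d)) {s : ℕ} (hG : G.Sz s) :
    ∃ S : Stg 12 (Q 2 s) 1 G F fun i d => G.x0.SameCycle d (an i), ∃ e : I → S.H.D,
      S.H.Sz (Q 2 s) ∧ (∀ i, G.x0.SameCycle (S.π (e i)) (an i)) ∧ Pj S.H.x1 G.x1 S.π ∧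
      (∀ d, sz S.H.x1 (S.ι d) = sz G.x1 d + cnt G.x1 (S.π ∘ e) d) ∧
      Sys S.H.x0 (S.π ⁻¹' F) e ∧ (∀ i, sz S.H.x0 (e i) = y i + 1) ∧
      ∀ u v, S.H.x0.SameCycle u v → G.x0.SameCycle (S.π u) (S.π v) := by
  obtain ⟨S, e, h1, h2, h3, h4, h5, h6, h7⟩ := cut_stg (G := G.mir) hI.mir an hF y hy
    (fun d hd => by simpa only [Perm.sameCycle_inv, sz_inv] using hs d hd)
    (fun d hd => by simpa only [cnt_inv] using ho d hd) hG.mir
  refine ⟨(S.map id (Ft.eg_inj injective_id) _ (fun _ _ h => Perm.sameCycle_inv.1 h) le_rfl).mir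
    hI (hG.mono (self_le_Q s two_pos)) h1, e, h1.mir, fun i => Perm.sameCycle_inv.1 (h2 i),
    fun u v => ?_, fun d => ?_, h5.inv, fun i => (sz_inv _ _).trans (h6 i),
    fun u v h => Perm.sameCycle_inv.1 (h7 u v (Perm.sameCycle_inv.1 h))⟩
  · exact Perm.sameCycle_inv.trans ((h3 u v).trans Perm.sameCycle_inv)
  · exact (sz_inv _ _).trans ((h4 d).trans (by rw [sz_inv, cnt_inv]))

end Pool.Agent.MC.LL.EG
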