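import Pool.Agent.P.MP_2677b3_gt.LE3

open Equiv Function

noncomputable section

namespace Pool.Agent.MC.LL.EG

theorem le5_inr {D E : Type} [Finite D] [Finite E] (ρ : Perm D) (i : E) (v : D ⊕ E) :
    (xt E ρ).SameCycle (.inr i) v ↔ .inr i = v := by
  refine ⟨fun h => ?_, fun h => h ▸ Perm.SameCycle.refl _ _⟩
  rcases (sc_xt ρ _ _).1 h with h | ⟨_, _, h, _⟩
  exacts [h, nomatch h]

theorem le5_invol {D E : Type} [Finite D] [Finite E] {ω : Perm (D ⊕ E)} {cn : E → D}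
    (h : IsEar ω cn) (hc : Injective cn) : ω * ω = 1 := by
  ext1 v
  rw [Perm.mul_apply, Perm.one_apply]
  rcases v with d | e
  · by_cases hd : d ∈ Set.range cn
    · obtain ⟨e, rfl⟩ := hd
      rw [(h.inj hc e).1, (h.inj hc e).2]
    · rw [h.off hd, h.off hd]
  · rw [(h.inj hc e).2, (h.inj hc e).1]

theorem le5_cnt {D E U : Type} [Finite D] [Finite E] (ρ : Perm D) (a : U → E) (ha : Injective a)
    (g : U) : {e | (xt E ρ).SameCycle (.inr (a e)) (.inr (a g))}.ncard = 1 := by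
  have : {e | (xt E ρ).SameCycle (.inr (a e)) (.inr (a g))} = {g} := by
    ext e
    simp only [Set.mem_ofPred_eq, le5_inr, Sum.inr.injEq, ha.eq_iff, Set.mem_singleton_iff]
  rw [this, Set.ncard_singleton]

theorem le5_Q (s : ℕ) : s * (s + s + 1) * (1 + 1) ≤ Q 4 s := by
  unfold Q
  have : (s + 2) ^ 4 = (s + 2) ^ 2 * (s + 2) ^ 2 := by ring
  rw [this]
  have h1 : 2 ^ 2 ≤ (s + 2) ^ 2 := Nat.pow_le_pow_left (by omega) 2
  refine le_trans ?_ (Nat.mul_le_mul_right _ h1)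
  nlinarith

theorem le5_mat {D U : Type} [Finite D] [Finite U] (X Y : Perm D)
    {oz ow : Perm ((D ⊕ (U ⊕ U)) ⊕ U)} (hz : IsEar oz (Sum.inr ∘ Sum.inl))
    (hw : IsEar ow (Sum.inr ∘ Sum.inr)) :
    Mat (xt U (xt (U ⊕ U) X) * ow⁻¹) (oz * xt U (xt (U ⊕ U) Y))
      (Set.range (Sum.inl ∘ Sum.inl : D → (D ⊕ (U ⊕ U)) ⊕ U))ᶜ Set.univ
      (Sum.elim Sum.inr (Sum.inl ∘ Sum.inr ∘ Sum.inl))
      (Sum.elim Sum.inr (Sum.inl ∘ Sum.inr ∘ Sum.inr)) := by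
  obtain ⟨-, a1, a2⟩ := hw.right (xt (U ⊕ U) X)
  obtain ⟨-, b1, b2⟩ := hz.left (xt (U ⊕ U) Y)
  have fz : ∀ d, oz (.inl (.inl d)) = .inl (.inl d) := fun d => hz.off (by simp)
  have fw : ∀ d, ow⁻¹ (.inl (.inl d)) = .inl (.inl d) := fun d =>
    Perm.inv_eq_iff_eq.2 (hw.off (by simp)).symm
  have iz : Injective (Sum.inr ∘ Sum.inl : U → D ⊕ (U ⊕ U)) :=
    Sum.inr_injective.comp Sum.inl_injective
  have iw : Injective (Sum.inr ∘ Sum.inr : U → D ⊕ (U ⊕ U)) :=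
    Sum.inr_injective.comp Sum.inr_injective
  refine ⟨fun v => not_congr (inv_of_maps ?_ v), fun v => not_congr (inv_of_maps ?_ v), ?_, ?_,
    ?_, ?_, ?_, ?_⟩
  · rintro _ ⟨d, rfl⟩
    exact ⟨X d, by rw [Perm.mul_apply, comp_apply, comp_apply, fw]; rfl⟩
  · rintro _ ⟨d, rfl⟩
    exact ⟨Y d, (fz (Y d)).symm⟩
  · rintro (g | g) - <;> simp
  · rintro (g | g) -
    · have e1 : (xt U (xt (U ⊕ U) X) * ow⁻¹).SameCycle (.inr g) (.inl (.inr (.inr g))) :=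
        (a1 _ _).2 (Perm.SameCycle.refl _ _)
      have e2 : (oz * xt U (xt (U ⊕ U) Y)).SameCycle (.inr g) (.inl (.inr (.inl g))) :=
        (b1 _ _).2 (Perm.SameCycle.refl _ _)
      refine (sz_congr e1).trans (Eq.trans ?_ (sz_congr e2).symm)
      rw [a2, b2, sz_fix rfl, sz_fix rfl]
      exact congrArg _ ((le5_cnt X Sum.inr Sum.inr_injective g).trans
        (le5_cnt Y Sum.inl Sum.inl_injective g).symm)
    · have e1 : (xt U (xt (U ⊕ U) X) * ow⁻¹) (.inl (.inr (.inl g))) = .inl (.inr (.inl g)) := by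
        rw [Perm.mul_apply, Perm.inv_eq_iff_eq.2 (hw.off (by simp)).symm]; rfl
      have e2 : (oz * xt U (xt (U ⊕ U) Y)) (.inl (.inr (.inr g))) = .inl (.inr (.inr g)) :=
        hz.off (by simp)
      exact (sz_fix e1).trans (sz_fix e2).symm
  · rintro ((d | g | g) | g) h
    · exact (h ⟨d, rfl⟩).elim
    · exact ⟨.inr g, trivial, Perm.SameCycle.refl _ _⟩
    · exact ⟨.inl g, trivial, (a1 _ _).2 (Perm.SameCycle.refl _ _)⟩
    · exact ⟨.inl g, trivial, Perm.SameCycle.refl _ _⟩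
  · rintro ((d | g | g) | g) h
    · exact (h ⟨d, rfl⟩).elim
    · exact ⟨.inl g, trivial, (b1 _ _).2 (Perm.SameCycle.refl _ _)⟩
    · exact ⟨.inr g, trivial, Perm.SameCycle.refl _ _⟩
    · exact ⟨.inl g, trivial, Perm.SameCycle.refl _ _⟩
  · rintro (g | g) - (g' | g') - h <;>
      simpa using (le5_inr X _ _).1 ((a1 _ _).1 h)
  · rintro (g | g) - (g' | g') - h <;>
      simpa using (le5_inr Y _ _).1 ((b1 _ _).1 h)

variable {G : P4} {F : Set G.D} {U : Type} [Finite U]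

/-- For each request a new point in the first cell of `x` and the second cell of `x'`. -/
theorem tr_stg (hI : Iv G F) (x x' : U → G.D) (hx : ∀ g, x g ∈ F) (hx' : ∀ g, x' g ∈ F) {s : ℕ}
    (hG : G.Sz s) (h1 : Ft s x) (h2 : Ft s x') :
    ∃ S : Stg 14 (Q 4 s) 3 G F fun g d => d = x g ∨ d = x' g,
      ∃ (u : U → S.H.D) (p : S.H.D → G.D),
      S.H.Sz (Q 4 s) ∧ Pj S.H.x0 G.x0 S.π ∧ Pj S.H.x1 G.x1 p ∧ (∀ d, p (S.ι d) = d) ∧
      (∀ v, S.π v ∈ F ↔ p v ∈ F) ∧ (∀ g, S.π (u g) = x g) ∧ (∀ g, p (u g) = x' g) ∧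
      (∀ d, sz S.H.x0 (S.ι d) = sz G.x0 d + 2 * cnt G.x0 x d + cnt G.x0 x' d) ∧
      ∀ d, sz S.H.x1 (S.ι d) = sz G.x1 d + cnt G.x1 x d + 2 * cnt G.x1 x' d := by
  obtain ⟨ω, hω⟩ := exists_ear (Sum.elim x x')
  have hF : ∀ e, Sum.elim x x' e ∈ F := by
    rintro (g | g)
    exacts [hx g, hx' g]
  have xe := xt_ear hω hI hF
  obtain ⟨oz, hz⟩ := exists_ear (Sum.inr ∘ Sum.inl : U → G.D ⊕ (U ⊕ U))
  obtain ⟨ow, hw⟩ := exists_ear (Sum.inr ∘ Sum.inr : U → G.D ⊕ (U ⊕ U))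
  have iz : Injective (Sum.inr ∘ Sum.inl : U → G.D ⊕ (U ⊕ U)) :=
    Sum.inr_injective.comp Sum.inl_injective
  have iw : Injective (Sum.inr ∘ Sum.inr : U → G.D ⊕ (U ⊕ U)) :=
    Sum.inr_injective.comp Sum.inr_injective
  have ww : ow * ow = 1 := le5_invol hw iw
  have wi : ow⁻¹ = ow := inv_eq_of_mul_eq_one_right ww
  have fz : ∀ d, oz (.inl (.inl d)) = .inl (.inl d) := fun d => hz.off (by simp)
  have fw : ∀ d, ow (.inl (.inl d)) = .inl (.inl d) := fun d => hw.off (by simp)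
  have s0 : G.Sz (Q 4 s) := hG.mono (self_le_Q s (by omega))
  have s1' := ear_sz hω hG (h1.eg_elim h2)
  have s1 : (G.ear ω).Sz (Q 4 s) := s1'.mono (by have := le5_Q s; omega)
  have s2 : ((G.ear ω).rot.rot.rot.ear oz).Sz (Q 4 s) :=
    (ear_sz (G := (G.ear ω).rot.rot.rot) hz s1'.rot.rot.rot (Ft.eg_inj iz)).mono (le5_Q s)
  have s3 : (((G.ear ω).rot.rot.rot.ear oz).rot.rot.sw ow).Sz (Q 4 s) := by
    obtain ⟨a0, a1, -, -⟩ := P4.sz_iff.1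
      ((ear_sz (G := (G.ear ω).rot) hw s1'.rot (Ft.eg_inj iw)).mono (le5_Q s))
    obtain ⟨b0, b1, -, -⟩ := P4.sz_iff.1 s2
    refine P4.sz_iff.2 ⟨fun d => ?_, fun d => ?_, b0, b1⟩
    · change sz (ow⁻¹ * _) d ≤ _
      rw [wi]; exact a0 d
    · change sz (_ * ow) d ≤ _
      rw [← wi]; exact a1 d
  have t1 := (((tr_ear hω s0 s1).comp (tr_rot3 s1)).comp
    (tr_ear (G := (G.ear ω).rot.rot.rot) hz s1.rot.rot.rot s2)).comp (tr_rot2 s2)
  have t2 := stp_mop (G := ((G.ear ω).rot.rot.rot.ear oz).rot.rot) (ra := Sum.inr)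
    (rb := Sum.inl ∘ Sum.inr ∘ Sum.inr) ow ww (fun g => (hw.inj iw g).2) Sum.inr_injective
    (fun _ _ h => nomatch h)
    (by
      rintro (d | g) h
      · obtain ⟨g, rfl⟩ : d ∈ Set.range (Sum.inr ∘ Sum.inr : U → G.D ⊕ (U ⊕ U)) :=
          by_contra fun hd => h (hw.off hd)
        exact ⟨g, Or.inr rfl⟩
      · exact ⟨g, Or.inl rfl⟩)
    (hw.left _).1 (wi ▸ (hw.right _).1) s2.rot.rot s3
  have t3 := ((t1.comp_stp t2).comp_tr (tr_rot3 s3)).mono (by omega : _ ≤ 14) le_rfl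
  have hm := le5_mat G.x2 G.x3 hz hw
  rw [wi] at hm
  obtain ⟨-, a1, a2⟩ := hz.right (ω * xt (U ⊕ U) G.x0)
  obtain ⟨-, b1, b2⟩ := hw.left (xt (U ⊕ U) G.x1 * ω⁻¹)
  rw [← wi] at b1 b2
  obtain ⟨-, c1, c2⟩ := hω.left G.x0
  obtain ⟨-, d1, d2⟩ := hω.right G.x1
  refine ⟨{
    H := (((G.ear ω).rot.rot.rot.ear oz).rot.rot.sw ow).rot.rot.rot, ι := Sum.inl ∘ Sum.inl,
    π := Sum.elim id (Sum.elim x x') ∘ Sum.elim id (Sum.inr ∘ Sum.inl), xt := ?_, R := U,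
    fR := inferInstance, K := U ⊕ U, fK := inferInstance, ra := x, rb := x',
    ka := Sum.elim Sum.inr (Sum.inl ∘ Sum.inr ∘ Sum.inl),
    kb := Sum.elim Sum.inr (Sum.inl ∘ Sum.inr ∘ Sum.inr), o := Sum.elim id (Sum.elim id id),
    stp := t3, mat := hm,
    ft := (Ft.eg_inj injective_id).eg_elim
      ((Ft.eg_inj injective_id).eg_elim (Ft.eg_inj injective_id)),
    lr := fun _ => ⟨Or.inl rfl, Or.inr rfl⟩, lk := ?_ }, Sum.inr,
    Sum.elim id (Sum.elim x x') ∘ Sum.elim id (Sum.inr ∘ Sum.inr), s3.rot.rot.rot,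
    fun u v => (a1 u v).trans (c1 _ _), ?_, fun _ => rfl, ?_, fun _ => rfl, fun _ => rfl, fun d => ?_, fun d => ?_⟩
  · refine ⟨fun _ => rfl, ?_, fun d hd => ?_, fun d hd => ?_, fun d => ?_, fun d => fz _⟩
    · rintro ((d | e) | g) h
      exacts [(h ⟨d, rfl⟩).elim, hF e, hx g]
    · change xt U (ω * xt (U ⊕ U) G.x0) (oz⁻¹ (.inl (.inl d))) = _
      rw [Perm.inv_eq_iff_eq.2 (fz d).symm]
      exact congrArg Sum.inl (xe.e0 d hd)
    · change ow⁻¹ (.inl ((xt (U ⊕ U) G.x1 * ω⁻¹) (.inl d))) = _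
      rw [wi]
      exact (congrArg (fun v => ow (.inl v)) (xe.e1 d hd)).trans (fw _)
    · change xt U (xt (U ⊕ U) G.x2) (ow (.inl (.inl d))) = _
      rw [fw]; rfl
  · rintro (g | g)
    exacts [⟨Or.inl rfl, Or.inl rfl⟩, ⟨Or.inl rfl, Or.inr rfl⟩]
  · exact fun u v => (b1 u v).trans (d1 _ _)
  · rintro (v | g)
    exacts [Iff.rfl, ⟨fun _ => hx' g, fun _ => hx g⟩]
  · have e1 : cnt (ω * xt (U ⊕ U) G.x0) (Sum.inr ∘ Sum.inl : U → _) (.inl d) = cnt G.x0 x d :=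
      Pj.cnt (p := Sum.elim id (Sum.elim x x')) c1 _ _
    have e2 := cnt_elim G.x0 x x' d
    have e3 := a2 (.inl d)
    have e4 := c2 d
    change sz (xt U (ω * xt (U ⊕ U) G.x0) * oz⁻¹) (.inl (.inl d)) = _
    unfold cnt at *
    omega
  · have e1 : cnt (xt (U ⊕ U) G.x1 * ω⁻¹) (Sum.inr ∘ Sum.inr : U → _) (.inl d) =
        cnt G.x1 x' d := Pj.cnt (p := Sum.elim id (Sum.elim x x')) d1 _ _
    have e2 := cnt_elim G.x1 x x' d
    have e3 := b2 (.inl d)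
    have e4 := d2 d
    change sz (ow⁻¹ * xt U (xt (U ⊕ U) G.x1 * ω⁻¹)) (.inl (.inl d)) = _
    unfold cnt at *
    omega

end Pool.Agent.MC.LL.EG
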