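import Pool.Agent.P.MP_2677b3_gt.LE1
import Pool.Agent.P.MP_2677b3_gt.LG2

open Equiv Function

noncomputable section

namespace Pool.Agent.MC.LL.EG

theorem le6_sub {E : Type} (S : Set E) (R : E → Prop) :
    {i : S | R i.1}.ncard = {e | e ∈ S ∧ R e}.ncard := by
  rw [← Set.ncard_image_of_injective _ (Subtype.val_injective (p := fun e => e ∈ S))]
  congr 1
  ext e
  exact ⟨fun ⟨i, h1, h2⟩ => h2 ▸ ⟨i.2, h1⟩, fun h => ⟨⟨e, h.1⟩, h.2, rfl⟩⟩

theorem le6_par {E V : Type} [Finite E] [Finite V] (s t : E → V) (S : Set E) (N : Set V)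
    (hs : ∀ e ∈ S, s e ∈ N ↔ t e ∈ N) (hN : Even N.ncard) :
    Even {v | v ∈ N ∧
      Even ({e | e ∈ S ∧ s e = v}.ncard + {e | e ∈ S ∧ t e = v}.ncard)}.ncard := by
  classical
  have := Fintype.ofFinite E
  have := Fintype.ofFinite V
  have key : ∀ f : E → V, ∑ v with v ∈ N, {e | e ∈ S ∧ f e = v}.ncard =
      {e | e ∈ S ∧ f e ∈ N}.ncard := fun f => by
    rw [lg2_nc, Finset.card_eq_sum_card_fiberwise (f := f)
      (t := Finset.univ.filter fun v => v ∈ N) (fun e he => by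
        simpa using (Finset.mem_filter.1 (Finset.mem_coe.1 he)).2.2)]
    refine Finset.sum_congr rfl fun v hv => ?_
    rw [lg2_nc, Finset.filter_filter]
    congr 1
    ext e
    simp only [Finset.mem_filter, Finset.mem_univ, true_and] at hv ⊢
    exact ⟨fun h => ⟨⟨h.1, h.2 ▸ hv⟩, h.2⟩, fun h => ⟨h.1.1, h.2⟩⟩
  have h1 : Even (∑ v with v ∈ N,
      ({e | e ∈ S ∧ s e = v}.ncard + {e | e ∈ S ∧ t e = v}.ncard)) := by
    rw [Finset.sum_add_distrib, key, key]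
    have : {e | e ∈ S ∧ t e ∈ N} = {e | e ∈ S ∧ s e ∈ N} := by
      ext e
      exact and_congr_right fun he => (hs e he).symm
    rw [this]
    exact ⟨_, rfl⟩
  rw [Finset.even_sum_iff_even_card_odd] at h1
  have h2 := Finset.card_filter_add_card_filter_not (s := Finset.univ.filter fun v => v ∈ N)
    fun v => Odd ({e | e ∈ S ∧ s e = v}.ncard + {e | e ∈ S ∧ t e = v}.ncard)
  have h3 : N.ncard = (Finset.univ.filter fun v => v ∈ N).card := lg2_nc fun v => v ∈ N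
  rw [h3, ← h2, Nat.even_add] at hN
  have h4 := hN.1 h1
  simp only [Nat.not_odd_iff_even, Finset.filter_filter] at h4
  rwa [lg2_nc]

theorem le6_one {E V1 V2 : Type} [Finite E] {s : E → V1} {t : E → V2} {S : Set E} {p : E → V1 ⊕ V2}
    (hi : Set.InjOn p S) (hp : ∀ e, p e = .inl (s e) ∨ p e = .inr (t e)) :
    (∀ v, {i : S | (p i.1).isLeft = true ∧ s i.1 = v}.ncard ≤ 1) ∧
      ∀ v, {i : S | ¬ (p i.1).isLeft = true ∧ t i.1 = v}.ncard ≤ 1 := by
  refine ⟨fun v => Set.ncard_le_one_iff_subsingleton.2 ?_,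
    fun v => Set.ncard_le_one_iff_subsingleton.2 ?_⟩
  · have k : ∀ i : S, (p i.1).isLeft = true ∧ s i.1 = v → p i.1 = .inl v := fun i h => by
      rcases hp i.1 with e | e
      · rw [e, h.2]
      · simp [e] at h
    exact fun i h j h' => Subtype.ext (hi i.2 j.2 ((k i h).trans (k j h').symm))
  · have k : ∀ i : S, ¬ (p i.1).isLeft = true ∧ t i.1 = v → p i.1 = .inr v := fun i h => by
      rcases hp i.1 with e | e
      · simp [e] at h
      · rw [e, h.2]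
    exact fun i h j h' => Subtype.ext (hi i.2 j.2 ((k i h).trans (k j h').symm))

/-- The cell of a point. -/
abbrev le6q {D : Type} (σ : Perm D) (d : D) : Quotient (Perm.SameCycle.setoid σ) :=
  Quotient.mk _ d

theorem le6_q {D : Type} {σ : Perm D} {d e : D} : le6q σ d = le6q σ e ↔ σ.SameCycle d e :=
  Quotient.eq

theorem le6_mem {D : Type} [Finite D] {σ : Perm D} {F : Set D} (h : ∀ d, σ d ∈ F ↔ d ∈ F)
    {d e : D} (hs : σ.SameCycle d e) (hd : d ∈ F) : e ∈ F := by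
  obtain ⟨n, rfl⟩ := hs.exists_nat_pow_eq
  clear hs
  induction n with
  | zero => exact hd
  | succ n ih => rw [pow_succ', Perm.mul_apply]; exact (h _).2 ih

theorem le6_sum {D : Type} [Finite D] {σ : Perm D} {F : Set D} (h : ∀ d, σ d ∈ F ↔ d ∈ F)
    {y : D → ℕ} (hy : ∀ v, csum (fun e => le6q σ e = v) y = {e | le6q σ e = v}.ncard)
    {d : D} (hd : d ∈ F) :
    csum (fun i : {e | e ∈ F ∧ y e ≠ 0} => σ.SameCycle i.1 d) (fun i => y i.1) = sz σ d := by
  classical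
  have := Fintype.ofFinite D
  have h1 : sz σ d = {e | le6q σ e = le6q σ d}.ncard := by
    unfold sz
    congr 1
    ext e
    exact (Perm.sameCycle_comm.trans le6_q.symm :)
  rw [h1, ← hy, csum_eq, csum_eq]
  refine Finset.sum_bij_ne_zero (fun i _ _ => i.1) (fun i hi _ => ?_)
    (fun i _ _ j _ _ e => Subtype.ext e) (fun e he h0 => ?_) fun _ _ _ => rfl
  · simpa [le6_q] using hi
  · have h2 : σ.SameCycle e d := by simpa [le6_q] using he
    exact ⟨⟨e, le6_mem h h2.symm hd, h0⟩, by simpa using h2, h0, rfl⟩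

/-- Pieces for all cells in `F`, an odd number in each cell, at most two paid by each cell. -/
theorem plan_data {D : Type} [Finite D] (A C : Perm D) (F : Set D) (hA : ∀ d, A d ∈ F ↔ d ∈ F)
    (hC : ∀ d, C d ∈ F ↔ d ∈ F) (h : Par A C F) :
    ∃ (I J : Type) (_ : Finite I) (_ : Finite J) (a : I → D) (b : J → D) (y : I → ℕ)
      (P : I ⊕ J → Prop), (∀ i, a i ∈ F) ∧ (∀ j, b j ∈ F) ∧ Injective b ∧ (∀ i, 0 < y i) ∧
      (∀ d ∈ F, csum (fun i => A.SameCycle (a i) d) y = sz A d) ∧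
      (∀ d ∈ F, csum (fun i => C.SameCycle (a i) d) y = sz C d) ∧
      (∀ d ∈ F, Odd (cnt A (Sum.elim a b) d)) ∧ (∀ d ∈ F, Odd (cnt C (Sum.elim a b) d)) ∧
      (∀ d, {i | P i ∧ A.SameCycle (Sum.elim a b i) d}.ncard ≤ 2) ∧
      ∀ d, {i | ¬ P i ∧ C.SameCycle (Sum.elim a b i) d}.ncard ≤ 2 := by
  classical
  obtain ⟨y, p, y1, y2, p1, p2⟩ := plan (le6q A) (le6q C)
  set S : Set D := {e | e ∈ F ∧ y e ≠ 0} with hS
  let s : D → Quotient (Perm.SameCycle.setoid A) ⊕ Quotient (Perm.SameCycle.setoid C) :=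
    fun e => .inl (le6q A e)
  let t : D → Quotient (Perm.SameCycle.setoid A) ⊕ Quotient (Perm.SameCycle.setoid C) :=
    fun e => .inr (le6q C e)
  obtain ⟨J, ch, j1, j2, j3⟩ := tjoin s t {v | (∃ e ∈ F, s e = v ∨ t e = v) ∧
      Even ({e | e ∈ S ∧ s e = v}.ncard + {e | e ∈ S ∧ t e = v}.ncard)} fun O hO => by
    have e1 : ∀ d, s (A d) = s d := fun d =>
      congrArg Sum.inl (le6_q.2 (Perm.sameCycle_apply_left.2 (Perm.SameCycle.refl _ _)))
    have e2 : ∀ d, t (C d) = t d := fun d =>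
      congrArg Sum.inr (le6_q.2 (Perm.sameCycle_apply_left.2 (Perm.SameCycle.refl _ _)))
    have h1 := h {d | d ∈ F ∧ s d ∈ O} (fun _ hd => hd.1)
      (fun d => and_congr (hA d) (by rw [e1])) fun d => and_congr (hC d) (by rw [hO, hO, e2])
    have h2 : {v | (∃ e ∈ F, s e = v ∨ t e = v) ∧ v ∈ O}.ncard =
        ncyc A {d | d ∈ F ∧ s d ∈ O} + ncyc C {d | d ∈ F ∧ s d ∈ O} := by
      rw [ncard_sum]
      unfold ncyc
      congr 2
      · ext v
        constructor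
        · rintro ⟨⟨e, he, h3 | h3⟩, hv⟩
          · exact ⟨e, ⟨he, h3 ▸ hv⟩, Sum.inl_injective h3⟩
          · cases h3
        · rintro ⟨e, he, rfl⟩
          exact ⟨⟨e, he.1, .inl rfl⟩, he.2⟩
      · ext v
        constructor
        · rintro ⟨⟨e, he, h3 | h3⟩, hv⟩
          · cases h3
          · exact ⟨e, ⟨he, (hO e).2 (h3 ▸ hv)⟩, Sum.inr_injective h3⟩
        · rintro ⟨e, he, rfl⟩
          exact ⟨⟨e, he.1, .inr rfl⟩, (hO e).1 he.2⟩
    have h3 := le6_par s t S {v | (∃ e ∈ F, s e = v ∨ t e = v) ∧ v ∈ O}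
      (fun e he => ⟨fun h4 => ⟨⟨e, he.1, .inr rfl⟩, (hO e).1 h4.2⟩,
        fun h4 => ⟨⟨e, he.1, .inl rfl⟩, (hO e).2 h4.2⟩⟩) (h2 ▸ h1)
    refine (congrArg (fun X => Even (Set.ncard X)) ?_).mp h3
    ext v
    exact ⟨fun h4 => ⟨⟨h4.1.1, h4.2⟩, h4.1.2⟩, fun h4 => ⟨⟨h4.1.1, h4.2⟩, h4.1.2⟩⟩
  have odd : ∀ v, (∃ e ∈ F, s e = v ∨ t e = v) →
      Odd (({e | e ∈ S ∧ s e = v}.ncard + {e | e ∈ S ∧ t e = v}.ncard) +
        ({e | e ∈ J ∧ s e = v}.ncard + {e | e ∈ J ∧ t e = v}.ncard)) := fun v hv => by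
    rw [Nat.odd_add', j1]
    exact ⟨fun h4 => h4.2, fun h4 => ⟨hv, h4⟩⟩
  have o1 := le6_one (S := S) (p2.mono fun _ h4 => h4.2) p1
  have o2 := le6_one (S := J ∩ F) (j2.mono Set.inter_subset_left) j3
  refine ⟨S, (J ∩ F : Set D), inferInstance, inferInstance, Subtype.val, Subtype.val,
    fun i => y i.1, Sum.elim (fun i => (p i.1).isLeft = true) fun j => (ch j.1).isLeft = true,
    fun i => i.2.1, fun j => j.2.2, Subtype.val_injective, fun i => Nat.pos_of_ne_zero i.2.2,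
    fun d hd => le6_sum hA y1 hd, fun d hd => le6_sum hC y2 hd, fun d hd => ?_, fun d hd => ?_,
    fun d => ?_, fun d => ?_⟩
  · have h1 := odd (s d) ⟨d, hd, .inl rfl⟩
    have e0 : ∀ X : Set D, {e | e ∈ X ∧ t e = s d}.ncard = 0 := fun X => by simp [s, t]
    have e1 : {e | e ∈ J ∧ s e = s d} = {e | e ∈ J ∩ F ∧ A.SameCycle e d} := by
      ext e
      simp only [s, Sum.inl.injEq, le6_q]
      exact ⟨fun h4 => ⟨⟨h4.1, le6_mem hA h4.2.symm hd⟩, h4.2⟩, fun h4 => ⟨h4.1.1, h4.2⟩⟩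
    rw [e0, e0, e1] at h1
    simp only [s, Sum.inl.injEq, le6_q, add_zero] at h1
    rw [cnt_elim, cnt, cnt, le6_sub S fun e => A.SameCycle e d,
      le6_sub (J ∩ F) fun e => A.SameCycle e d]
    exact h1
  · have h1 := odd (t d) ⟨d, hd, .inr rfl⟩
    have e0 : ∀ X : Set D, {e | e ∈ X ∧ s e = t d}.ncard = 0 := fun X => by simp [s, t]
    have e1 : {e | e ∈ J ∧ t e = t d} = {e | e ∈ J ∩ F ∧ C.SameCycle e d} := by
      ext e
      simp only [t, Sum.inr.injEq, le6_q]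
      exact ⟨fun h4 => ⟨⟨h4.1, le6_mem hC h4.2.symm hd⟩, h4.2⟩, fun h4 => ⟨h4.1.1, h4.2⟩⟩
    rw [e0, e0, e1] at h1
    simp only [t, Sum.inr.injEq, le6_q, zero_add] at h1
    rw [cnt_elim, cnt, cnt, le6_sub S fun e => C.SameCycle e d,
      le6_sub (J ∩ F) fun e => C.SameCycle e d]
    exact h1
  · rw [ncard_sum]
    have h1 := o1.1 (le6q A d)
    have h2 := o2.1 (le6q A d)
    simp only [le6_q] at h1 h2
    exact Nat.add_le_add h1 h2
  · rw [ncard_sum]
    have h1 := o1.2 (le6q C d)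
    have h2 := o2.2 (le6q C d)
    simp only [le6_q] at h1 h2
    exact Nat.add_le_add h1 h2

end Pool.Agent.MC.LL.EG
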