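import Pool.Agent.P.MP_2677b3_gt.LE1
import Pool.Agent.P.MP_2677b3_gt.LG2

open Equiv Function

noncomputable section

namespace Pool.Agent.MC.LL.EG

theorem le7_orb {D : Type} (σ τ : Perm D) : ∃ l : D → Set D, (∀ d, l (σ d) = l d) ∧
    (∀ d, l (τ d) = l d) ∧ ∀ O : Set D, (∀ d, σ d ∈ O ↔ d ∈ O) → (∀ d, τ d ∈ O ↔ d ∈ O) →
      l ⁻¹' (l '' O) = O := by
  refine ⟨fun d => {O | ∀ O' : Set D, (∀ d, σ d ∈ O' ↔ d ∈ O') → (∀ d, τ d ∈ O' ↔ d ∈ O') →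
    (d ∈ O' ↔ O ∈ O')}, fun d => ?_, fun d => ?_, fun O h1 h2 => ?_⟩
  · ext e
    exact forall_congr' fun O => forall_congr' fun h => by rw [h]
  · ext e
    exact forall_congr' fun O => forall_congr' fun _ => forall_congr' fun h => by rw [h]
  · refine (Set.subset_preimage_image _ _).antisymm' ?_
    rintro d ⟨e, he, h⟩
    exact ((Set.ext_iff.1 h d).2 (fun _ _ _ => Iff.rfl) O h1 h2).1 he

theorem le7_par {D V : Type} [Finite V] (l : D → V) (f : Set D → ℕ) (h0 : f ∅ = 0)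
    (h : ∀ X Y : Set V, Disjoint X Y → f (l ⁻¹' X ∪ l ⁻¹' Y) = f (l ⁻¹' X) + f (l ⁻¹' Y))
    (X : Set V) : Even (f (l ⁻¹' X) + {v ∈ X | Odd (f (l ⁻¹' {v}))}.ncard) := by
  induction X, Set.toFinite X using Set.Finite.induction_on with
  | empty => simp [h0]
  | @insert v X hv _ ih =>
    rw [Set.insert_eq, Set.preimage_union, h _ _ (Set.disjoint_singleton_left.2 hv)]
    by_cases k : Odd (f (l ⁻¹' {v}))
    · have : {u ∈ {v} ∪ X | Odd (f (l ⁻¹' {u}))} = insert v {u ∈ X | Odd (f (l ⁻¹' {u}))} := by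
        ext u
        simp only [Set.mem_ofPred_eq, Set.mem_union, Set.mem_singleton_iff, Set.mem_insert_iff]
        exact ⟨fun a => a.1.imp id fun b => ⟨b, a.2⟩,
          fun a => a.elim (fun b => ⟨Or.inl b, b ▸ k⟩) fun b => ⟨Or.inr b.1, b.2⟩⟩
      rw [this, Set.ncard_insert_of_notMem fun a => hv a.1]
      obtain ⟨a, ha⟩ := k
      obtain ⟨b, hb⟩ := ih
      exact ⟨a + b + 1, by omega⟩
    · have : {u ∈ {v} ∪ X | Odd (f (l ⁻¹' {u}))} = {u ∈ X | Odd (f (l ⁻¹' {u}))} := by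
        ext u
        simp only [Set.mem_ofPred_eq, Set.mem_union, Set.mem_singleton_iff]
        exact ⟨fun a => ⟨a.1.resolve_left fun b => k (b ▸ a.2), a.2⟩, fun a => ⟨Or.inr a.1, a.2⟩⟩
      rw [this, add_assoc]
      exact (Nat.not_odd_iff_even.1 k).add ih

theorem le7_add {D V : Type} [Finite D] {σ : Perm D} {l : D → V} (h : ∀ d, l (σ d) = l d)
    {X Y : Set V} (hd : Disjoint X Y) :
    ncyc σ (l ⁻¹' X ∪ l ⁻¹' Y) = ncyc σ (l ⁻¹' X) + ncyc σ (l ⁻¹' Y) :=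
  ncyc_union _ _ fun _ a _ b hs =>
    Set.disjoint_left.1 hd a (by rw [sc_lab l h hs]; exact b)

theorem le7_two {D V : Type} [Finite D] [Finite V] {σ τ : Perm D} {l : D → V}
    (h : ∀ d, l (σ d) = l d) (h' : ∀ d, l (τ d) = l d) (X : Set V) :
    Even (ncyc σ (l ⁻¹' X) + ncyc τ (l ⁻¹' X) +
      {v ∈ X | Odd (ncyc σ (l ⁻¹' {v}) + ncyc τ (l ⁻¹' {v}))}.ncard) :=
  le7_par l (fun O => ncyc σ O + ncyc τ O) (by simp [ncyc])
    (fun X Y hd => by rw [le7_add h hd, le7_add h' hd]; ring) X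

theorem le7_fin {D V : Type} [Finite D] [Finite V] {σ τ : Perm D} {l : D → V}
    (h : ∀ d, l (σ d) = l d) (h' : ∀ d, l (τ d) = l d) (J : Set D)
    (hJ : ∀ v, Odd {e | e ∈ J ∧ l e = v}.ncard ↔ Odd (ncyc σ (l ⁻¹' {v}) + ncyc τ (l ⁻¹' {v})))
    (X : Set V) :
    Even (ncyc σ (l ⁻¹' X) + ncyc τ (l ⁻¹' X) + {j : J | (j : D) ∈ l ⁻¹' X}.ncard) := by
  have := le7_par l (fun O => ncyc σ O + ncyc τ O + {j : J | (j : D) ∈ O}.ncard) (by simp [ncyc])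
    (fun X Y hd => by
      rw [le7_add h hd, le7_add h' hd, show {j : J | (j : D) ∈ l ⁻¹' X ∪ l ⁻¹' Y} =
        {j : J | (j : D) ∈ l ⁻¹' X} ∪ {j : J | (j : D) ∈ l ⁻¹' Y} from rfl,
        Set.ncard_union_eq (s := {j : J | (j : D) ∈ l ⁻¹' X}) (t := {j : J | (j : D) ∈ l ⁻¹' Y})
          (Set.disjoint_left.2 fun j a b => Set.disjoint_left.1 hd a b)]
      ring) X
  rwa [Set.eq_empty_of_forall_notMem (s := {v ∈ X | _}) fun v hv => ?_, Set.ncard_empty,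
    add_zero] at this
  have e : {j : J | (j : D) ∈ l ⁻¹' {v}}.ncard = {e | e ∈ J ∧ l e = v}.ncard := by
    rw [← Set.ncard_image_of_injective _ Subtype.val_injective]
    congr 1
    ext d
    exact ⟨fun ⟨j, a, b⟩ => b ▸ ⟨j.2, a⟩, fun a => ⟨⟨d, a.1⟩, a.2, rfl⟩⟩
  have k := hv.2
  have k' := hJ v
  rw [e, Nat.odd_add, ← k', ← Nat.not_odd_iff_even] at k
  exact iff_not_self k

theorem le7_res (G : P4) (O : Set G.D) (h0 : ∀ d, G.x0 d ∈ O ↔ d ∈ O)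
    (h1 : ∀ d, G.x1 d ∈ O ↔ d ∈ O) (h2 : ∀ d, G.x2 d ∈ O ↔ d ∈ O) (h3 : ∀ d, G.x3 d ∈ O ↔ d ∈ O) :
    Even (ncyc G.x0 O + ncyc G.x1 O + ncyc G.x2 O + ncyc G.x3 O) := by
  have k : ∀ (σ : Perm G.D) (h : ∀ d, σ d ∈ O ↔ d ∈ O),
      ncyc σ O = ncyc (σ.subtypePerm (p := (· ∈ O)) h) Set.univ := fun σ h => by
    rw [← ncyc_map (σ' := σ) Subtype.val _ fun d _ e _ => Perm.sameCycle_subtypePerm.symm]
    simp
  rw [k _ h0, k _ h1, k _ h2, k _ h3]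
  exact P4.even_cells ⟨O, inferInstance, G.x0.subtypePerm (p := (· ∈ O)) h0,
    G.x1.subtypePerm (p := (· ∈ O)) h1, G.x2.subtypePerm (p := (· ∈ O)) h2,
    G.x3.subtypePerm (p := (· ∈ O)) h3,
    Equiv.ext fun d => Subtype.ext (Equiv.congr_fun G.rel d.1)⟩

/-- Corners that repair the parities, at most one paid by each cell. -/
theorem par_data (G : P4) : ∃ (J : Type) (_ : Finite J) (c : J → G.D) (P : J → Prop),
    Injective c ∧
    (∀ O : Set G.D, (∀ d, G.x0 d ∈ O ↔ d ∈ O) → (∀ d, G.x1 d ∈ O ↔ d ∈ O) →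
      Even (ncyc G.x0 O + ncyc G.x1 O + {j | c j ∈ O}.ncard)) ∧
    (∀ O : Set G.D, (∀ d, G.x2 d ∈ O ↔ d ∈ O) → (∀ d, G.x3 d ∈ O ↔ d ∈ O) →
      Even (ncyc G.x2 O + ncyc G.x3 O + {j | c j ∈ O}.ncard)) ∧
    (∀ d, {j | P j ∧ G.x1.SameCycle (c j) d}.ncard ≤ 1) ∧
    ∀ d, {j | ¬ P j ∧ G.x2.SameCycle (c j) d}.ncard ≤ 1 := by
  obtain ⟨l, a0, a1, a⟩ := le7_orb G.x0 G.x1
  obtain ⟨m, b2, b3, b⟩ := le7_orb G.x2 G.x3
  obtain ⟨J, ch, h1, h2, h3⟩ := tjoin (V := Set G.D ⊕ Set G.D) (fun d => .inl (l d))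
    (fun d => .inr (m d))
    {v | Sum.elim (fun v => Odd (ncyc G.x0 (l ⁻¹' {v}) + ncyc G.x1 (l ⁻¹' {v})))
      (fun v => Odd (ncyc G.x2 (m ⁻¹' {v}) + ncyc G.x3 (m ⁻¹' {v}))) v} fun O hO => by
      have e : l ⁻¹' (Sum.inl ⁻¹' O) = m ⁻¹' (Sum.inr ⁻¹' O) := Set.ext hO
      have k1 := le7_two a0 a1 (Sum.inl ⁻¹' O)
      have k2 := le7_two b2 b3 (Sum.inr ⁻¹' O)
      have k3 := le7_res G (l ⁻¹' (Sum.inl ⁻¹' O)) (fun d => by simp only [Set.mem_preimage, a0])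
        (fun d => by simp only [Set.mem_preimage, a1])
        (fun d => by simp only [e, Set.mem_preimage, b2])
        (fun d => by simp only [e, Set.mem_preimage, b3])
      rw [← e] at k2
      have e2 : ∀ S : Set (Set G.D ⊕ Set G.D),
          S.ncard = (Sum.inl ⁻¹' S).ncard + (Sum.inr ⁻¹' S).ncard := fun S => by
        rw [← Set.ncard_image_of_injective (Sum.inl ⁻¹' S) (Sum.inl_injective (β := Set G.D)),
          ← Set.ncard_image_of_injective (Sum.inr ⁻¹' S) (Sum.inr_injective (α := Set G.D)),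
          ← Set.ncard_union_eq Set.disjoint_image_inl_image_inr,
          Set.image_preimage_inl_union_image_preimage_inr]
      rw [e2, Set.inter_comm]
      obtain ⟨x, hx⟩ := k1
      obtain ⟨y, hy⟩ := k2
      obtain ⟨z, hz⟩ := k3
      exact ⟨x + y - z, (congrArg₂ (· + ·) (Nat.eq_sub_of_add_eq' hx)
        (Nat.eq_sub_of_add_eq' hy)).trans (by omega)⟩
  refine ⟨J, inferInstance, Subtype.val, fun j => ch j = .inl (l j), Subtype.val_injective,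
    fun O u v => ?_, fun O u v => ?_, fun d => ?_, fun d => ?_⟩
  · rw [← a O u v]
    exact le7_fin a0 a1 J (fun v => by simpa using h1 (.inl v)) _
  · rw [← b O u v]
    exact le7_fin b2 b3 J (fun v => by simpa using h1 (.inr v)) _
  · refine (Set.ncard_le_one (Set.toFinite _)).2 fun i hi j hj => Subtype.ext (h2 i.2 j.2 ?_)
    rw [hi.1, hj.1, sc_lab l a1 (hi.2.trans hj.2.symm)]
  · refine (Set.ncard_le_one (Set.toFinite _)).2 fun i hi j hj => Subtype.ext (h2 i.2 j.2 ?_)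
    rw [(h3 i).resolve_left hi.1, (h3 j).resolve_left hj.1, sc_lab m b2 (hi.2.trans hj.2.symm)]

end Pool.Agent.MC.LL.EG
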