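import Pool.Agent.P.MP_2677b3_gt.LE3
import Pool.Agent.P.MP_2677b3_gt.LE7

open Equiv Function

noncomputable section

namespace Pool.Agent.MC.LL.EG

section
variable {D E : Type} [Finite D] [Finite E]

theorem le8_pj {σ' : Perm (D ⊕ E)} {σ : Perm D} {cn : E → D} (h : Pj σ' σ (Sum.elim id cn))
    (O : Set (D ⊕ E)) (hO : ∀ v, σ' v ∈ O ↔ v ∈ O) :
    (∀ d, Sum.inl (σ d) ∈ O ↔ Sum.inl d ∈ O) ∧ (∀ j, Sum.inr j ∈ O ↔ Sum.inl (cn j) ∈ O) ∧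
      ncyc σ' O = ncyc σ (Sum.inl ⁻¹' O) := by
  have key : ∀ u v, σ.SameCycle (Sum.elim id cn u) (Sum.elim id cn v) → (u ∈ O ↔ v ∈ O) :=
    fun u v huv => iff_of_eq (sc_lab (fun w => w ∈ O) (fun w => propext (hO w)) ((h u v).2 huv))
  refine ⟨fun d => key (.inl _) (.inl _) (Perm.SameCycle.symm ⟨1, by simp⟩),
    fun j => key (.inr _) (.inl _) (Perm.SameCycle.refl _ _), ?_⟩
  rw [← ncyc_map (σ' := σ') Sum.inl _ fun d _ e _ => h (.inl d) (.inl e)]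
  unfold ncyc
  congr 1
  refine Set.Subset.antisymm ?_ (Set.image_mono (Set.image_preimage_subset _ _))
  rintro _ ⟨v, hv, rfl⟩
  exact ⟨.inl (Sum.elim id cn v), ⟨_, (key v (.inl _) (Perm.SameCycle.refl _ _)).1 hv, rfl⟩,
    Quotient.sound ((h _ _).2 (Perm.SameCycle.refl _ _))⟩

theorem le8_xt (σ : Perm D) (O : Set (D ⊕ E)) :
    ncyc (xt E σ) O = ncyc σ (Sum.inl ⁻¹' O) + {j | Sum.inr j ∈ O}.ncard := by
  have e : O = Sum.inl '' (Sum.inl ⁻¹' O) ∪ Sum.inr '' (Sum.inr ⁻¹' O) := by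
    ext (d | j) <;> simp
  obtain ⟨h1, h2, h3, -⟩ := sc_sum σ (1 : Perm E)
  conv_lhs => rw [e]
  rw [ncyc_union _ _ (by rintro _ ⟨d, -, rfl⟩ _ ⟨j, -, rfl⟩; exact h3 d j),
    ncyc_map Sum.inl _ fun d _ e _ => h1 d e, ncyc_map Sum.inr _ fun d _ e _ => h2 d e]
  congr 1
  exact Set.ncard_image_of_injective _ fun a b hab => Perm.sameCycle_one.1 (Quotient.exact hab)

theorem le8_par {σ' : Perm (D ⊕ E)} {σ τ : Perm D} {cn : E → D} (h : Pj σ' σ (Sum.elim id cn))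
    (hp : ∀ O : Set D, (∀ d, τ d ∈ O ↔ d ∈ O) → (∀ d, σ d ∈ O ↔ d ∈ O) →
      Even (ncyc τ O + ncyc σ O + {j | cn j ∈ O}.ncard)) (O : Set (D ⊕ E))
    (h1 : ∀ v, xt E τ v ∈ O ↔ v ∈ O) (h2 : ∀ v, σ' v ∈ O ↔ v ∈ O) :
    Even (ncyc (xt E τ) O + ncyc σ' O) := by
  obtain ⟨a, b, c⟩ := le8_pj h O h2
  have := hp (Sum.inl ⁻¹' O) (fun d => h1 (.inl d)) a
  rw [le8_xt, c, show {j | Sum.inr j ∈ O} = {j | cn j ∈ Sum.inl ⁻¹' O} from Set.ext b,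
    add_right_comm]
  exact this

end

/-- New points in the two middle slots repair the parities. -/
theorem par_ear (G : P4) {n : ℕ} (hG : G.Sz n) : ∃ (J : Type) (_ : Finite J) (c : J → G.D)
    (P : J → Prop) (H : P4) (ι : G.D → H.D) (e : J → H.D) (π : H.D → G.D),
    Tr 6 (2 * n) G H π ∧ H.Sz (2 * n) ∧ Bijective (Sum.elim ι e) ∧ (∀ d, π (ι d) = d) ∧
    (∀ j, π (e j) = c j) ∧ Par H.x0 H.x1 Set.univ ∧ Par H.x2 H.x3 Set.univ ∧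
    (∀ (k : Fin 5) d d', (G.y k).SameCycle d d' → (H.y k).SameCycle (ι d) (ι d')) ∧
    (∀ j, H.x1.SameCycle (e j) (ι (c j)) ∧ H.x2.SameCycle (e j) (ι (c j))) ∧
    (∀ d, {j | P j ∧ G.x1.SameCycle (c j) d}.ncard ≤ 1) ∧
    ∀ d, {j | ¬ P j ∧ G.x2.SameCycle (c j) d}.ncard ≤ 1 := by
  obtain ⟨J, hJ, c, P, hc, p1, p2, q1, q2⟩ := par_data G
  obtain ⟨ω, hω⟩ := exists_ear c
  have hs : (G.rot.ear ω).Sz (2 * n) :=
    (ear_sz (G := G.rot) hω hG.rot (Ft.eg_inj hc)).mono (by omega)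
  have h0 := hG.mono (by omega : n ≤ 2 * n)
  have l := (hω.left G.x1).2.1
  have r := (hω.right G.x2).2.1
  refine ⟨J, hJ, c, P, (G.rot.ear ω).rot.rot.rot, Sum.inl, Sum.inr, Sum.elim id c,
    ((tr_rot h0).comp (tr_ear (G := G.rot) hω h0.rot hs)).comp (tr_rot3 hs), hs.rot.rot.rot,
    by simpa using bijective_id, fun _ => rfl, fun _ => rfl,
    fun O _ h1 h2 => le8_par l p1 O h1 h2,
    fun O _ h1 h2 => add_comm (ncyc (xt J G.x3) O) _ ▸ le8_par r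
      (fun O a b => add_comm (ncyc G.x2 O) _ ▸ p2 O b a) O h2 h1,
    fun k d d' h => ?_, fun j => ⟨(l _ _).2 (Perm.SameCycle.refl _ _),
      (r _ _).2 (Perm.SameCycle.refl _ _)⟩, q1, q2⟩
  fin_cases k
  · exact ((sc_sum G.x0 (1 : Perm J)).1 d d').2 h
  · exact (l (.inl d) (.inl d')).2 h
  · exact (r (.inl d) (.inl d')).2 h
  · exact ((sc_sum G.x3 (1 : Perm J)).1 d d').2 h
  · obtain rfl := Perm.sameCycle_one.1 h
    exact Perm.SameCycle.refl _ _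

end Pool.Agent.MC.LL.EG
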