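import Pool.Agent.P.MP_2677b3_gt.LE4
import Pool.Agent.P.MP_2677b3_gt.LE5

open Equiv Function

noncomputable section

namespace Pool.Agent.MC.LL.EG

/-- The first two slots. -/
def y2 (G : P4) : Bool → Perm G.D := fun b => bif b then G.x1 else G.x0

theorem nr0 {G : P4} {d e : G.D} (h : G.x0.SameCycle d e) : Nr (y2 G) 1 d e := Nr.one (i := false) h

theorem nr1 {G : P4} {d e : G.D} (h : G.x1.SameCycle d e) : Nr (y2 G) 1 d e := Nr.one (i := true) h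

theorem nr_pj {G H : P4} {π : H.D → G.D} (h0 : Pj H.x0 G.x0 π) (h1 : Pj H.x1 G.x1 π) {m : ℕ}
    {u v : H.D} (h : Nr (y2 H) m u v) : Nr (y2 G) m (π u) (π v) := by
  induction m generalizing v with
  | zero => exact congrArg π h
  | succ m ih =>
    obtain ⟨w, i, h2, h3⟩ := h
    exact ⟨π w, i, ih h2, by cases i; exacts [(h0 _ _).1 h3, (h1 _ _).1 h3]⟩

theorem nr_y {G : P4} {m : ℕ} {d e : G.D} (h : Nr (y2 G) m d e) : Nr G.y m d e := by
  induction m generalizing e with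
  | zero => exact h
  | succ m ih =>
    obtain ⟨w, i, h2, h3⟩ := h
    cases i
    exacts [⟨w, 0, ih h2, h3⟩, ⟨w, 1, ih h2, h3⟩]

theorem le9_add {I : Type} [Finite I] (P : I → Prop) (y z : I → ℕ) :
    csum P (fun i => y i + z i) = csum P y + csum P z := by
  classical
  have := Fintype.ofFinite I
  simp only [csum_eq, Finset.sum_add_distrib]

theorem le9_fib {I J : Type} [Finite I] [Finite J] (P : I → Prop) (l : J → I) :
    csum P (fun i => {j | l j = i}.ncard) = {j | P (l j)}.ncard := by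
  classical
  have := Fintype.ofFinite I
  have := Fintype.ofFinite J
  have h := Finset.card_eq_sum_card_fiberwise (f := l) (s := Finset.univ.filter fun j => P (l j))
    (t := Finset.univ.filter P) (fun j hj => by simpa using hj)
  rw [← Set.ncard_coe_finset] at h
  simp only [Finset.coe_filter, Finset.mem_univ, true_and] at h
  rw [csum_eq, h]
  refine Finset.sum_congr rfl fun i hi => ?_
  rw [← Set.ncard_coe_finset]
  congr 1
  ext j
  simp only [Finset.coe_filter, Finset.mem_filter, Finset.mem_univ, true_and, Set.mem_ofPred]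
  exact ⟨fun hj => ⟨hj ▸ (Finset.mem_filter.1 hi).2, hj⟩, fun hj => hj.2⟩

theorem le9_ex {D I : Type} {σ : Perm D} {x : I → D} {d : D} (h : Odd (cnt σ x d)) :
    ∃ i, σ.SameCycle d (x i) := by
  obtain ⟨i, hi⟩ := Set.nonempty_of_ncard_ne_zero h.pos.ne'
  exact ⟨i, Perm.SameCycle.symm hi⟩

theorem Sys.inj {D I : Type} {σ : Perm D} {F : Set D} {α : I → D} (h : Sys σ F α) :
    Injective α := fun i j hij => h.un i j (hij ▸ Perm.SameCycle.refl _ _)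

theorem Sys.cnt_comp {D I J : Type} {σ : Perm D} {F : Set D} {α : I → D} (h : Sys σ F α)
    (l : J → I) (i : I) : EG.cnt σ (α ∘ l) (α i) = {j | l j = i}.ncard :=
  h.cnt _ l (fun _ => Perm.SameCycle.refl _ _) i

theorem Sys.cnt_self {D I : Type} {σ : Perm D} {F : Set D} {α : I → D} (h : Sys σ F α) (i : I) :
    EG.cnt σ α (α i) = 1 := by
  rw [h.cnt α id (fun _ => Perm.SameCycle.refl _ _)]
  simp

variable {G : P4} {F : Set G.D} {I : Type} [Finite I]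

/-- Cut, link and balance. -/
theorem core (hI : Iv G F) (an : I → G.D) (hF : ∀ i, an i ∈ F) (y : I → ℕ) (hy : ∀ i, 0 < y i)
    (hs0 : ∀ d ∈ F, csum (fun j => G.x0.SameCycle (an j) d) y = sz G.x0 d)
    (hs1 : ∀ d ∈ F, csum (fun j => G.x1.SameCycle (an j) d) y = sz G.x1 d)
    (ho0 : ∀ d ∈ F, Odd (cnt G.x0 an d)) (ho1 : ∀ d ∈ F, Odd (cnt G.x1 an d)) {s : ℕ}
    (hG : G.Sz s) :
    ∃ S : Stg 53 (Q 200 s) 11 G F fun i d => Nr (y2 G) 3 (an i) d, ∃ u : I → S.H.D,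
      S.H.Sz (Q 200 s) ∧ Sys S.H.x0 (S.π ⁻¹' F) u ∧ Sys S.H.x1 (S.π ⁻¹' F) u ∧
      (∀ i, sz S.H.x0 (u i) = sz S.H.x1 (u i)) ∧ ∀ i, G.x0.SameCycle (S.π (u i)) (an i) := by
  obtain ⟨S1, e, z1, c1, p1, n1, y1, l1, r1⟩ := cut_stg hI an hF y hy hs1 ho1 hG
  have I1 := S1.xt.iv hI
  choose la hla using fun j => le9_ex (ho0 _ (y1.mem j))
  have a1 : ∀ i v, S1.H.x0.SameCycle v (S1.ι (an i)) ↔ G.x0.SameCycle (S1.π v) (an i) :=
    fun i v => by rw [p1, S1.xt.li]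
  obtain ⟨S2, f, z2, c2, p2, n2, w2, l2, r2⟩ := cutA_stg I1 (S1.ι ∘ an)
    (fun i => show S1.π (S1.ι (an i)) ∈ F from (S1.xt.li _).symm ▸ hF i)
    (fun i => y i + {j | la j = i}.ncard) (fun i => Nat.add_pos_left (hy i) _)
    (fun v hv => by
      have e1 : (fun j => S1.H.x0.SameCycle ((S1.ι ∘ an) j) v) =
          fun j => G.x0.SameCycle (an j) (S1.π v) := by
        funext j
        rw [p1, comp_apply, S1.xt.li]
      have e2 : sz S1.H.x0 v = sz S1.H.x0 (S1.ι (S1.π v)) :=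
        sz_congr ((p1 _ _).2 (by rw [S1.xt.li]))
      rw [e1, le9_add, le9_fib, hs0 _ hv, e2, n1]
      congr 2
      ext j
      exact ⟨fun h => (hla j).trans h, fun h => (hla j).symm.trans h⟩)
    (fun v hv => by
      rw [p1.cnt, show S1.π ∘ S1.ι ∘ an = an from funext fun i => S1.xt.li _]
      exact ho0 _ hv) z1
  have I2 := S2.xt.iv I1
  have w2' : Sys S2.H.x1 (S2.π ⁻¹' (S1.π ⁻¹' F)) (S2.ι ∘ e) :=
    y1.pj p2 (fun _ => Iff.rfl) fun i => S2.xt.li _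
  choose ka hka using fun j => y1.ex _ (w2.mem j)
  choose lb hlb using fun j => w2.ex _ (w2'.mem j)
  have A : ∀ i, G.x0.SameCycle (S1.π (S2.π (f i))) (an i) := fun i => (a1 _ _).1 (c2 i)
  obtain ⟨S3, u, q3, z3, p3, p3', i3, m3, u3, u3', n3, n3'⟩ := tr_stg I2 f (S2.ι ∘ e) w2.mem w2'.mem
    z2 ((Ft.eg_inj w2.inj).mono (Q_pos _ _)) ((Ft.eg_inj w2'.inj).mono (Q_pos _ _))
  have I3 := S3.xt.iv I2
  have y3 : Sys S3.H.x0 (S3.π ⁻¹' (S2.π ⁻¹' (S1.π ⁻¹' F))) u := w2.pj p3 (fun _ => Iff.rfl) u3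
  have y3' : Sys S3.H.x1 (S3.π ⁻¹' (S2.π ⁻¹' (S1.π ⁻¹' F))) u := w2'.pj p3' m3 u3'
  have s0 : ∀ i, sz S3.H.x0 (u i) = y i + 3 + {g | Sum.elim la lb g = i}.ncard := fun i => by
    rw [sz_congr ((p3 (u i) (S3.ι (f i))).2 (by rw [u3, S3.xt.li])), n3, l2, w2.cnt_self,
      w2.cnt _ lb hlb, ncard_sum]
    simp only [Sum.elim_inl, Sum.elim_inr]
    omega
  have s1 : ∀ i, sz S3.H.x1 (u i) = y i + 3 + {g | Sum.elim ka ka g = i}.ncard := fun i => by
    rw [sz_congr ((p3' (u i) (S3.ι ((S2.ι ∘ e) i))).2 (by rw [u3', i3])), n3', w2'.cnt_self,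
      w2'.cnt f ka (fun j => (p2 _ _).2 (by rw [comp_apply, S2.xt.li]; exact hka j)), comp_apply,
      n2, l1, y1.cnt (S2.π ∘ f) ka hka, ncard_sum]
    simp only [Sum.elim_inl, Sum.elim_inr]
    omega
  obtain ⟨S4, -, q4, z4, p4, p4', i4, m4, -, -, n4, n4'⟩ := tr_stg I3 (u ∘ Sum.elim ka ka)
    (u ∘ Sum.elim la lb) (fun _ => y3.mem _) (fun _ => y3.mem _) z3
    (Ft.map (fun i => le_trans (by rw [s1]; omega) ((P4.sz_iff.1 z3).2.1 (u i))) y3.inj)
    (Ft.map (fun i => le_trans (by rw [s0]; omega) ((P4.sz_iff.1 z3).1 (u i))) y3.inj)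
  have b0 : s ≤ Q 200 s := self_le_Q s (by norm_num)
  have b1 : Q 2 s ≤ Q 200 s := Q_mono (by norm_num) le_rfl
  have b2 : Q 2 (Q 2 s) ≤ Q 8 s := (Q_Q (k' := 2) le_rfl).trans (Q_mono (by norm_num) le_rfl)
  have b3 : Q 4 (Q 2 (Q 2 s)) ≤ Q 40 s := (Q_Q b2).trans (Q_mono (by norm_num) le_rfl)
  have b4 : Q 4 (Q 4 (Q 2 (Q 2 s))) ≤ Q 200 s := (Q_Q b3).trans (Q_mono (by norm_num) le_rfl)
  replace b2 : _ ≤ Q 200 s := b2.trans (Q_mono (by norm_num) le_rfl)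
  replace b3 : _ ≤ Q 200 s := b3.trans (Q_mono (by norm_num) le_rfl)
  have nA : ∀ {i d}, G.x0.SameCycle d (an i) → Nr (y2 G) 3 (an i) d := fun h =>
    (nr0 h.symm).mono (by norm_num : 1 ≤ 3)
  have nC : ∀ {i d}, G.x1.SameCycle d (an i) → Nr (y2 G) 3 (an i) d := fun h =>
    (nr1 h.symm).mono (by norm_num : 1 ≤ 3)
  have nu : ∀ {i j}, Nr (y2 G) 2 (an j) (an i) → Nr (y2 G) 3 (an j) (S1.π (S2.π (S3.π (u i)))) :=
    fun h => by rw [u3]; exact h.trans (nr0 (A _).symm)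
  have nk : ∀ j, Nr (y2 G) 2 (an j) (an (ka j)) := fun j =>
    (nr0 (A j).symm).trans (nr1 ((r1 _ _ (hka j)).trans (c1 _)))
  have nl : ∀ j, Nr (y2 G) 2 (an j) (an (la j)) := fun j =>
    (nr1 (c1 j).symm).trans (nr0 (hla j))
  have nb : ∀ j, Nr (y2 G) 2 (an j) (an (lb j)) := fun j => by
    have h1 := r2 _ _ (hlb j)
    rw [comp_apply, S2.xt.li] at h1
    exact (nr1 (c1 j).symm).trans (nr0 (((p1 _ _).1 h1).trans (A _)))
  have one := Ft.eg_inj (injective_id (α := I))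
  have g3 : ∀ i v, (v = f i ∨ v = (S2.ι ∘ e) i) → Nr (y2 G) 3 (an i) (S1.π (S2.π v)) := by
    rintro i v (rfl | rfl)
    · exact nA (A i)
    · rw [comp_apply, S2.xt.li]
      exact nC (c1 i)
  have g4 : ∀ g v, (v = (u ∘ Sum.elim ka ka) g ∨ v = (u ∘ Sum.elim la lb) g) →
      Nr (y2 G) 3 (an (Sum.elim id id g)) (S1.π (S2.π (S3.π v))) := by
    rintro (j | j) v (rfl | rfl)
    exacts [nu (nk j), nu (nl j), nu (nk j), nu (nb j)]
  let T4 := S4.map (Sum.elim id id) (one.eg_elim one)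
    (fun i v => Nr (y2 G) 3 (an i) (S1.π (S2.π (S3.π v)))) g4 b4
  let T3 := (S3.map id one (fun i v => Nr (y2 G) 3 (an i) (S1.π (S2.π v))) g3 b3).comp T4
    (z2.mono b2)
  let T2 := (S2.map id one (fun i v => Nr (y2 G) 3 (an i) (S1.π v))
    (fun _ _ h => nA ((a1 _ _).1 h)) b2).comp T3 (z1.mono b1)
  let T1 := (S1.map id one (fun i d => Nr (y2 G) 3 (an i) d) (fun _ _ h => nC h) b1).comp T2
    (hG.mono b0)
  refine ⟨T1, S4.ι ∘ u, z4.mono b4, y3.pj p4 (fun _ => Iff.rfl) fun i => S4.xt.li _,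
    y3'.pj p4' m4 fun i => i4 _, fun i => ?_, fun i => ?_⟩
  · change sz S4.H.x0 (S4.ι (u i)) = sz S4.H.x1 (S4.ι (u i))
    rw [n4, n4', s0, s1, y3.cnt_comp, y3.cnt_comp, y3'.cnt_comp, y3'.cnt_comp]
    omega
  · change G.x0.SameCycle (S1.π (S2.π (S3.π (S4.π (S4.ι (u i)))))) (an i)
    rw [S4.xt.li, u3]
    exact A i

end Pool.Agent.MC.LL.EG
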