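import Pool.Agent.P.MP_2677b3_gt.LE9
import Pool.Agent.P.MP_2677b3_gt.LE6

open Equiv Function

noncomputable section

namespace Pool.Agent.MC.LL.EG

theorem le9b_sum {I J : Type} [Finite I] [Finite J] (P : I ⊕ J → Prop) (y : I → ℕ) :
    csum P (Sum.elim y fun _ => 1) = csum (fun i => P (.inl i)) y + {j | P (.inr j)}.ncard := by
  classical
  have := Fintype.ofFinite I
  have := Fintype.ofFinite J
  rw [csum_eq, csum_eq, Finset.sum_filter, Fintype.sum_sum_type, Finset.sum_filter]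
  simp only [Sum.elim_inl, Sum.elim_inr, Finset.sum_boole, Nat.cast_id]
  rw [← Set.ncard_coe_finset]
  simp

open Classical in
/-- The cell that owns an index. -/
def le9b_node {D I : Type} (A C : Perm D) (P : I → Prop) (x : I → D) (i : I) : Set D ⊕ Set D :=
  if P i then .inl {e | A.SameCycle (x i) e} else .inr {e | C.SameCycle (x i) e}

theorem le9b_cell {D : Type} {A : Perm D} {d e : D} :
    {v | A.SameCycle d v} = {v | A.SameCycle e v} ↔ A.SameCycle d e :=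
  ⟨fun h => (Set.ext_iff.1 h e).2 (Perm.SameCycle.refl _ _),
    fun h => Set.ext fun _ => ⟨h.symm.trans, h.trans⟩⟩

theorem le9b_eq {D I J : Type} {A C : Perm D} {P : I → Prop} {x : I → D} {P' : J → Prop}
    {x' : J → D} {i : I} {j : J} : le9b_node A C P x i = le9b_node A C P' x' j ↔
      (P i ∧ P' j ∧ A.SameCycle (x i) (x' j)) ∨ ¬ P i ∧ ¬ P' j ∧ C.SameCycle (x i) (x' j) := by
  unfold le9b_node
  by_cases h : P i <;> by_cases h' : P' j <;> simp [h, h', le9b_cell]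

/-- Plan, parity points, cuts, links. -/
theorem le9b_pre {G : P4} {F : Set G.D} (hI : Iv G F) (hP : Par G.x0 G.x1 F) {n : ℕ}
    (hG : G.Sz n) : ∃ (I : Type) (_ : Finite I) (an : I → G.D) (P : I → Prop)
      (S : Stg 57 (Q 1600 n) 12 G F fun i d => Nr (y2 G) 3 (an i) d) (u : I → S.H.D),
      S.H.Sz (Q 1600 n) ∧ Sys S.H.x0 (S.π ⁻¹' F) u ∧ Sys S.H.x1 (S.π ⁻¹' F) u ∧
      (∀ i, sz S.H.x0 (u i) = sz S.H.x1 (u i)) ∧ (∀ i, G.x0.SameCycle (S.π (u i)) (an i)) ∧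
      (∀ i, an i ∈ F) ∧ (∀ d ∈ F, ∃ i, G.x0.SameCycle d (an i)) ∧
      Ft 2 (le9b_node G.x0 G.x1 P an) := by
  obtain ⟨I, J, _, _, a, b, y, P, ha, hb, hi, hy, s0, s1, o0, o1, q0, q1⟩ :=
    plan_data G.x0 G.x1 F hI.1 hI.2 hP
  obtain ⟨S0, z0, p0, p1, n0, n1⟩ := abs_stg hI b hb (hG.mono (self_le_Q n one_pos))
    ((Ft.eg_inj hi).mono (Q_pos _ _))
  have hF : ∀ i, Sum.elim a b i ∈ F := by rintro (i | i); exacts [ha i, hb i]
  have e0 : S0.π ∘ S0.ι ∘ Sum.elim a b = Sum.elim a b := funext fun i => S0.xt.li _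
  have key : ∀ (σ : Perm G.D) (σ' : Perm S0.H.D), Pj σ' σ S0.π →
      (∀ d, sz σ' (S0.ι d) = sz σ d + cnt σ b d) →
      (∀ d ∈ F, csum (fun i => σ.SameCycle (a i) d) y = sz σ d) → ∀ v ∈ S0.π ⁻¹' F,
      csum (fun j => σ'.SameCycle ((S0.ι ∘ Sum.elim a b) j) v) (Sum.elim y fun _ => 1) =
        sz σ' v := fun σ σ' p hn hs v hv => by
    have e1 : (fun j => σ'.SameCycle ((S0.ι ∘ Sum.elim a b) j) v) =
        fun j => σ.SameCycle (Sum.elim a b j) (S0.π v) := by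
      funext j
      rw [p, comp_apply, S0.xt.li]
    rw [e1, le9b_sum, sz_congr ((p v (S0.ι (S0.π v))).2 (by rw [S0.xt.li])), hn, ← hs _ hv]
    rfl
  obtain ⟨S1, u, z1, y0, y1, he, hu⟩ := core (S0.xt.iv hI) (S0.ι ∘ Sum.elim a b)
    (fun i => show S0.π (S0.ι _) ∈ F from (S0.xt.li _).symm ▸ hF i) (Sum.elim y fun _ => 1)
    (by rintro (i | i); exacts [hy i, one_pos]) (key _ _ p0 n0 s0) (key _ _ p1 n1 s1)
    (fun v hv => by rw [p0.cnt, e0]; exact o0 _ hv) (fun v hv => by rw [p1.cnt, e0]; exact o1 _ hv)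
    z0
  have b1 : Q 2 (Q 1 n) ≤ Q 6 n := (Q_Q (k' := 1) le_rfl).trans (Q_mono (by norm_num) le_rfl)
  have b2 : Q 200 (Q 2 (Q 1 n)) ≤ Q 1600 n := (Q_Q b1).trans (Q_mono (by norm_num) le_rfl)
  replace b1 : _ ≤ Q 1600 n := b1.trans (Q_mono (by norm_num) le_rfl)
  let T1 := S1.map id (Ft.eg_inj injective_id) (fun i v => Nr (y2 G) 3 (Sum.elim a b i) (S0.π v))
    (fun i v h => by simpa only [comp_apply, S0.xt.li, id] using nr_pj p0 p1 h) b2
  let T0 := (S0.map (Sum.inr : J → I ⊕ J) (Ft.eg_inj Sum.inr_injective)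
    (fun i d => Nr (y2 G) 3 (Sum.elim a b i) d) (fun i d h => h ▸ Nr.refl _ _) b1).comp T1
    (hG.mono (self_le_Q n (by norm_num)))
  refine ⟨I ⊕ J, inferInstance, Sum.elim a b, P, T0, u, z1.mono b2, y0, y1, he, fun i => ?_, hF,
    fun d hd => le9_ex (o0 d hd), fun v => ?_⟩
  · have h := (p0 _ _).1 (hu i)
    rwa [comp_apply, S0.xt.li] at h
  · rcases Set.eq_empty_or_nonempty {i | le9b_node G.x0 G.x1 P (Sum.elim a b) i = v} with
      h | ⟨j, rfl⟩
    · simp [h]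
    by_cases hj : P j
    · refine le_trans (Set.ncard_le_ncard fun i hi => ?_) (q0 (Sum.elim a b j))
      simpa [hj] using le9b_eq.1 hi
    · refine le_trans (Set.ncard_le_ncard fun i hi => ?_) (q1 (Sum.elim a b j))
      simpa [hj] using le9b_eq.1 hi

/-- Rearrangement of the tubes. -/
def le9b_e (I R K L W : Type) : (I ⊕ ((K ⊕ L) ⊕ W)) ⊕ R ≃ I ⊕ (((R ⊕ K) ⊕ W) ⊕ L) where
  toFun := Sum.elim (Sum.elim .inl (Sum.elim (Sum.elim (fun k => .inr (.inl (.inl (.inr k))))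
    fun t => .inr (.inr t)) fun w => .inr (.inl (.inr w)))) fun r => .inr (.inl (.inl (.inl r)))
  invFun := Sum.elim (fun i => .inl (.inl i)) (Sum.elim (Sum.elim (Sum.elim .inr
    fun k => .inl (.inr (.inl (.inl k)))) fun w => .inl (.inr (.inr w)))
    fun t => .inl (.inr (.inl (.inr t))))
  left_inv := by rintro ((_ | (_ | _) | _) | _) <;> rfl
  right_inv := by rintro (_ | ((_ | _) | _) | _) <;> rfl

theorem le9b_bij {A T : Type} {h : A → T} (hi : Injective h) :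
    Bijective (Sum.elim h (Subtype.val : {t // t ∉ Set.range h} → T)) := by
  refine ⟨hi.sumElim Subtype.val_injective fun a t e => t.2 ⟨a, e⟩, fun t => ?_⟩
  by_cases ht : t ∈ Set.range h
  exacts [ht.elim fun a e => ⟨.inl a, e⟩, ⟨.inr ⟨t, ht⟩, rfl⟩]

/-- The cells of the first two slots inside `F` are matched; all handles in `T` are used. -/
theorem match_stage : ∃ κ : ℕ, ∀ (G : P4) (F : Set G.D) (I T : Type) [Finite I] [Finite T]
    (a0 b0 : I → G.D) (a : T → G.D) (P : T → Prop) (n : ℕ), Iv G F → Par G.x0 G.x1 F → G.Sz n →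
    Ft n (Sum.elim a0 a) → Ft n (Sum.elim b0 a) → (∀ t, a t ∈ F) →
    (∀ d ∈ F, 26 ≤ {t | P t ∧ G.x0.SameCycle (a t) d}.ncard) →
    (∀ d ∈ F, 26 ≤ {t | ¬ P t ∧ G.x1.SameCycle (a t) d}.ncard) →
    ∃ (H : P4) (ι : G.D → H.D) (π : H.D → G.D) (K W : Type) (_ : Finite K) (_ : Finite W)
      (ka kb : K → H.D) (u : W → H.D), Xt G H F ι π ∧ H.Sz (Q κ n) ∧
      Mat H.x0 H.x1 (π ⁻¹' F) Set.univ u u ∧ Mat H.x2 H.x3 (Set.range ι)ᶜ Set.univ ka kb ∧
      Ft (Q κ n) (Sum.elim (ι ∘ a0) (Sum.elim ka u)) ∧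
      Ft (Q κ n) (Sum.elim (ι ∘ b0) (Sum.elim kb u)) ∧
      Qe (Q κ n) (G.gd (Sum.elim a0 a) (Sum.elim b0 a))
        (H.gd (Sum.elim (ι ∘ a0) (Sum.elim ka u)) (Sum.elim (ι ∘ b0) (Sum.elim kb u))) := by
  refine ⟨3206 * (61 * kA) + 3204, fun G F I T _ _ a0 b0 a P n hI hP hG ha hb hF c0 c1 => ?_⟩
  obtain ⟨W, _, an, P', S, u, z, y0, y1, he, hu, hn, hx, f2⟩ := le9b_pre hI hP hG
  have IS := S.xt.iv hI
  have f26 := (S.ft.eg_elim (Ft.eg_inj (injective_id (α := W)))).eg_trans f2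
  obtain ⟨h, hi, hh⟩ := pay (le9b_node G.x0 G.x1 P' an ∘ Sum.elim S.o id)
    (le9b_node G.x0 G.x1 P a) fun v => by
      rcases Set.eq_empty_or_nonempty
        {x | (le9b_node G.x0 G.x1 P' an ∘ Sum.elim S.o id) x = v} with h | ⟨j, rfl⟩
      · rw [h, Set.ncard_empty]
        exact Nat.zero_le _
      refine (f26 _).trans ?_
      by_cases hj : P' (Sum.elim S.o id j)
      · refine (c0 _ (hn (Sum.elim S.o id j))).trans (Set.ncard_le_ncard fun t ht => ?_)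
        exact le9b_eq.2 (.inl ⟨ht.1, hj, ht.2⟩)
      · refine (c1 _ (hn (Sum.elim S.o id j))).trans (Set.ncard_le_ncard fun t ht => ?_)
        exact le9b_eq.2 (.inr ⟨ht.1, hj, ht.2⟩)
  have near : ∀ x d, Nr (y2 G) 3 (an (Sum.elim S.o id x)) d → Nr G.y 10 (a (h x)) d :=
    fun x d hd => by
      have h1 : Nr (y2 G) 1 (a (h x)) (an (Sum.elim S.o id x)) :=
        (le9b_eq.1 (hh x)).elim (fun h => nr0 h.2.2) fun h => nr1 h.2.2
      exact (nr_y (h1.trans hd)).mono (by norm_num : 1 + 3 ≤ 10)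
  choose home hhome using fun t : {t // t ∉ Set.range h} => hx _ (hF t)
  have b0' : n ≤ Q 1600 n := self_le_Q n (by norm_num)
  have b1 : n * n ≤ Q 1600 n := (Q_mul_le (self_le_Q n one_pos) (self_le_Q n one_pos)).trans
    (Q_mono (by norm_num) le_rfl)
  have b2 : Q 2 (Q 1600 n) ≤ Q 3204 n :=
    (Q_Q (k' := 1600) le_rfl).trans (Q_mono (by norm_num) le_rfl)
  have b3 : Q 1600 n ≤ Q 3204 n := Q_mono (by norm_num) le_rfl
  have b4 : n * Q 30 n ≤ Q 3204 n := (Q_mul_le (self_le_Q n one_pos) le_rfl).trans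
    (Q_mono (by norm_num) le_rfl)
  have b5 : Q 3204 n ≤ Q (3206 * (61 * kA) + 3204) n := Q_mono (Nat.le_add_left _ _) le_rfl
  have fh : Ft (Q 1600 n) (u ∘ home) := Ft.map (fun i => le_trans
    (Set.ncard_le_ncard fun t ht => show G.x0.SameCycle _ _ from ht ▸ hhome t)
    ((cnt_le ((ha.eg_pre Sum.inr_injective).eg_pre Subtype.val_injective) (P4.sz_iff.1 hG).1
      (an i)).trans b1)) y0.inj
  obtain ⟨ω, hω⟩ := exists_ear (u ∘ home)
  have zH := (ear_sz hω z fh).mono ((le_Q2 _).trans b2)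
  have xt := xt_ear hω IS fun t => y0.mem _
  have IH := xt.iv IS
  have st := (S.stp.mono le_rfl b3).comp_tr (tr_ear hω (z.mono b3) zH)
  let σ := (le9b_e I S.R S.K _ W).trans
    (Equiv.sumCongr (Equiv.refl I) (Equiv.ofBijective _ (le9b_bij hi)))
  have key : ∀ (x0 : I → G.D) (k : S.K → S.H.D) (r : S.R → G.D),
      (∀ j, Nr (y2 G) 3 (an (S.o (.inl j))) (r j)) →
      (∀ j, Nr (y2 G) 3 (an (S.o (.inr j))) (S.π (k j))) → ∀ x, Nr G.y 10 ((Sum.elim x0 a ∘ σ) x)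
        (Sum.elim ((S.π ∘ Sum.elim id (u ∘ home)) ∘ Sum.elim ((Sum.inl ∘ S.ι) ∘ x0)
          (Sum.elim (Sum.elim (Sum.inl ∘ k) Sum.inr) (Sum.inl ∘ u))) r x) := by
    rintro x0 k r hr hk ((i | (j | t) | w) | j)
    · change Nr G.y 10 (x0 i) (S.π (S.ι (x0 i)))
      rw [S.xt.li]
      exact Nr.refl _ _
    · exact near (.inl (.inr j)) _ (hk j)
    · exact (P4.nr0 ((hhome t).trans (hu _).symm)).mono (by norm_num : 1 ≤ 10)
    · exact near (.inr w) _ ((nr0 (hu w).symm).mono (by norm_num : 1 ≤ 3))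
    · exact near (.inl (.inl j)) _ (hr j)
  have ka := key a0 S.ka S.ra (fun j => (S.lr j).1) fun j => (S.lk j).1
  have kb := key b0 S.kb S.rb (fun j => (S.lr j).2) fun j => (S.lk j).2
  have ha' := ha.eg_pre σ.injective
  have hb' := hb.eg_pre σ.injective
  have fa := (ft_mov ka hG ha').mono b4
  have fb := (ft_mov kb hG hb').mono b4
  have b6 := b0'.trans b3
  refine ⟨S.H.ear ω, Sum.inl ∘ S.ι, S.π ∘ Sum.elim id (u ∘ home), S.K ⊕ _, W, inferInstance,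
    inferInstance, Sum.elim (Sum.inl ∘ S.ka) Sum.inr, Sum.elim (Sum.inl ∘ S.kb) Sum.inr,
    Sum.inl ∘ u, S.xt.comp xt, zH.mono b5,
    (y0.pj (hω.left _).2.1 (fun _ => Iff.rfl) fun _ => rfl).mat
      (y1.pj (hω.right _).2.1 (fun _ => Iff.rfl) fun _ => rfl) IH.1 IH.2 fun i => ?_,
    compl_range_comp S.ι xt.inj ▸ xt.mat S.mat (mat_fix _ _),
    Ft.eg_comp (π := S.π ∘ Sum.elim id (u ∘ home)) ((fa.eg_pre Sum.inl_injective).mono b5),
    Ft.eg_comp (π := S.π ∘ Sum.elim id (u ∘ home)) ((fb.eg_pre Sum.inl_injective).mono b5), ?_⟩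
  · exact ((hω.left _).2.2 _).trans (((congrArg₂ (· + ·) (he i)
      ((y0.cnt_comp home i).trans (y1.cnt_comp home i).symm))).trans ((hω.right _).2.2 _).symm)
  · have q1 := (reindex σ (fun _ => rfl) (fun _ => rfl) (hG.mono b6) (ha'.mono b6)
      (hb'.mono b6)).symm
    have q2 := (api_mov ka kb (hG.mono b6) (ha'.mono b6) (hb'.mono b6)).eg_one
    exact (((q1.eg_trans q2).eg_trans (st _ le_rfl _ _ _ fa fb)).QQ le_rfl).monoQ
      (Nat.le_add_right _ _) le_rfl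

end Pool.Agent.MC.LL.EG
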