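import Pool.Agent.P.MP_2677b3_gt.LFh
import Pool.Agent.P.MP_2677b3_gt.LA2
import Pool.Agent.P.MP_2677b3_gt.LT9

open Equiv Function

noncomputable section

namespace Pool.Agent.MC.LL

namespace Hf

section act
variable {Ac : Act} {I : Type} {A C : Perm Ac.D} {T : Set I} {a b : I → Ac.D} (H : Hf A C T a b)
  {i1 i2 : Fin 4} {n : ℕ} {N : Ac.D → Prop}

theorem ra_oc (hA : Ac.g i1 = A) (hn : ∀ d, sz A d ≤ n) (j : I)
    (hN : ∀ u, A.SameCycle (a j) u → N u) :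
    Ra Ac N n (a j) (a j) (fun _ _ χ => H.oc (χ i1) j) :=
  (Ra.chain (K := 1) (fun k => (A ^ k) (a j)) (fun k _ _ χ => χ i1 ((A ^ k) (a j))) (sz A (a j))
    fun k _ => (Ra.ex i1 (hN _ ⟨k, by simp⟩)).ends rfl
      (by rw [hA, pow_succ', Perm.mul_apply])).cg (by have := hn (a j); omega) (by simp)
    (pow_sz _ _) fun _ _ _ => rfl

theorem ra_oX (hA : Ac.g i1 = A) (hn : ∀ d, sz A d ≤ n) (d : Ac.D)
    (hN : ∀ u, A.SameCycle d u → N u) :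
    Ra Ac N (n + 1) d (A d) (fun _ _ χ => H.oX (χ i1) d) := by
  have h1 : Ra Ac N n d d (fun _ _ χ => H.δ (H.oc (χ i1)) d) := by
    by_cases h : d = a (H.ja d)
    · exact (H.ra_oc hA hn (H.ja d) fun u s => hN u ((H.sa d).trans s)).cg le_rfl h.symm h.symm
        fun _ _ _ => (if_pos h).symm
    · exact (Ra.one d).cg (Nat.zero_le _) rfl rfl fun _ _ _ => (if_neg h).symm
  exact (h1.inv.mul (Ra.ex i1 (hN d (Perm.SameCycle.refl _ _)))).ends rfl (by rw [hA])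

theorem ra_oY (hA : Ac.g i1 = A) (ht : Ac.g i2 = H.t) (hn : ∀ d, sz A d ≤ n) (e : Ac.D)
    (hN : ∀ u, C.SameCycle e u → N u ∧ N (H.t u)) :
    Ra Ac N (n + 5) e (C e) (fun _ _ χ => H.oY (χ i1) (χ i2) e) := by
  have b0 : ∀ u, C.SameCycle e u → Ra Ac N 1 u (H.t u) (fun _ _ χ => χ i2 u) := fun u s =>
    (Ra.ex i2 (hN u s).1).ends rfl (by rw [ht])
  have s0 := Perm.SameCycle.refl C e
  have s1 := sc_self_apply C e
  have h1 : Ra Ac N (n + 2) e e (fun _ _ χ => H.γ (H.oc (χ i1)) (fun j => χ i2 (b j)) e) := by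
    by_cases h : e = b (H.jb e)
    · have h2 : H.t e = a (H.jb e) := by rw [← H.tb _ (H.mb e), ← h]
      have h3 := (H.ra_oc (N := N) hA hn (H.jb e) fun u s => by
        obtain ⟨z, z1, rfl⟩ := H.scA (h2 ▸ s)
        exact (hN z z1).2).ends h2.symm h2.symm
      exact (((b0 e s0).mul h3.inv).mul (b0 e s0).inv).cg (by omega) rfl rfl fun _ _ χ => by
        unfold γ
        rw [if_pos h]
        simp only [← h]
    · exact (Ra.one e).cg (Nat.zero_le _) rfl rfl fun _ _ _ => (if_neg h).symm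
  have h2 : Ra Ac N 1 (H.t (C e)) (H.t e) (fun _ _ χ => χ i1 (H.t (C e))) :=
    (Ra.ex i1 (hN _ s1).2).ends rfl (by rw [hA, H.At])
  exact h1.inv.mul (((b0 e s0).mul h2.inv).mul (b0 _ s1).inv)

end act

section st
variable {S : St} {s1 s2 : Fin 6} {T : Set S.I} {a b : S.I → S.D}
  (H : Hf (S.x s1) (S.x s2) T a b) {c τ : S.I → Fn S}

theorem re_nα (hc : ∀ j ∈ T, Re S (a j) (a j) (c j)) (d : S.D) :
    Re S d (S.x s1 d) (fun Γ _ V => H.nα (V.X s1) (fun j => c j Γ V) d) := by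
  have h1 : Re S d d (fun Γ _ V => H.δ (fun j => c j Γ V) d) := by
    by_cases h : d = a (H.ja d)
    · exact (hc _ (H.ma d)).cg h.symm h.symm fun _ _ _ _ => (if_pos h).symm
    · exact (Re.one d).cg rfl rfl fun _ _ _ _ => (if_neg h).symm
  exact h1.mul (Re.ex s1 d)

theorem re_nβ (hc : ∀ j ∈ T, Re S (a j) (a j) (c j)) (hτ : ∀ j ∈ T, Re S (b j) (a j) (τ j))
    (e : S.D) : Re S e (H.t e)
      (fun Γ _ V => H.nβ (V.X s1) (V.X s2) (fun j => c j Γ V) (fun j => τ j Γ V) e) := by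
  have h1 : Re S (a (H.jb e)) (a (H.jb e)) (fun Γ _ V => H.ε (fun j => c j Γ V) e) := by
    by_cases h : e = b (H.jb e)
    · exact (Re.one _).cg rfl rfl fun _ _ _ _ => (if_pos h).symm
    · exact (hc _ (H.mb e)).cg rfl rfl fun _ _ _ _ => (if_neg h).symm
  exact (((Re.arc s2 (H.sb e)).mul (hτ _ (H.mb e))).mul h1).mul (Re.arc s1 (H.sta e))

end st

end Hf

open Classical in
/-- A list with at most one entry. -/
def opt {α : Type} (p : Prop) (x : α) : List α := if p then [x] else []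

theorem mem_opt {α : Type} {p : Prop} {x y : α} : y ∈ opt p x ↔ p ∧ y = x := by
  unfold opt; split_ifs with h <;> simp [h]

theorem nodup_opt {α : Type} (p : Prop) (x : α) : (opt p x).Nodup := by
  unfold opt; split_ifs <;> simp

theorem length_opt {α : Type} (p : Prop) (x : α) : (opt p x).length ≤ 1 := by
  unfold opt; split_ifs <;> simp

open Classical in
theorem prod_opt {α Γ : Type} [Group Γ] (p : Prop) (x : α) (f : α → Γ) :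
    ((opt p x).map f).prod = if p then f x else 1 := by
  unfold opt; split_ifs <;> simp

/-- The data of the last step. -/
structure Fd (G : P4) (I : Type) where
  a : I → G.D
  b : I → G.D
  a' : I → G.D
  b' : I → G.D
  T1 : Set I
  T2 : Set I
  H1 : Hf G.x0 G.x1 T1 a b
  H2 : Hf G.x2 G.x3 T2 a b
  t2 : ∀ j, j ∈ T2 ↔ j ∉ T1
  a1 : ∀ j ∈ T1, a' j = a j
  b1 : ∀ j ∈ T1, G.x0 (b' j) = b j
  a2 : ∀ j ∈ T2, G.x1 (G.x0 (a' j)) = a j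
  b2 : ∀ j ∈ T2, G.x2 (G.x1 (G.x0 (b' j))) = b j

namespace Fd
variable {G : P4} {I : Type} (F : Fd G I)

def ft (d : G.D) : List (I × Bool) :=
  opt (d = F.a (F.H1.ja d)) (F.H1.ja d, false) ++
  opt (G.x0 d = F.b (F.H1.jb (G.x0 d))) (F.H1.jb (G.x0 d), true) ++
  opt (G.x1 (G.x0 d) = F.a (F.H2.ja (G.x1 (G.x0 d)))) (F.H2.ja (G.x1 (G.x0 d)), false) ++
  opt (G.x2 (G.x1 (G.x0 d)) = F.b (F.H2.jb (G.x2 (G.x1 (G.x0 d)))))
    (F.H2.jb (G.x2 (G.x1 (G.x0 d))), true)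

theorem p1 {d : G.D} (h : d = F.a (F.H1.ja d)) : F.a' (F.H1.ja d) = d :=
  (F.a1 _ (F.H1.ma _)).trans h.symm
theorem p2 {d : G.D} (h : G.x0 d = F.b (F.H1.jb (G.x0 d))) : F.b' (F.H1.jb (G.x0 d)) = d :=
  G.x0.injective ((F.b1 _ (F.H1.mb _)).trans h.symm)
theorem p3 {d : G.D} (h : G.x1 (G.x0 d) = F.a (F.H2.ja (G.x1 (G.x0 d)))) :
    F.a' (F.H2.ja (G.x1 (G.x0 d))) = d :=
  G.x0.injective (G.x1.injective ((F.a2 _ (F.H2.ma _)).trans h.symm))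
theorem p4 {d : G.D} (h : G.x2 (G.x1 (G.x0 d)) = F.b (F.H2.jb (G.x2 (G.x1 (G.x0 d))))) :
    F.b' (F.H2.jb (G.x2 (G.x1 (G.x0 d)))) = d :=
  G.x0.injective (G.x1.injective (G.x2.injective ((F.b2 _ (F.H2.mb _)).trans h.symm)))

theorem nd (d : G.D) : (F.ft d).Nodup := by
  have n1 : ∀ u v, F.H1.ja u ≠ F.H2.ja v := fun u v h =>
    (F.t2 _).1 (F.H2.ma v) (h ▸ F.H1.ma u)
  have n2 : ∀ u v, F.H1.jb u ≠ F.H2.jb v := fun u v h =>
    (F.t2 _).1 (F.H2.mb v) (h ▸ F.H1.mb u)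
  simp only [ft, List.nodup_append, nodup_opt, List.mem_append, mem_opt, true_and]
  refine ⟨⟨?_, ?_⟩, ?_⟩
  · rintro _ ⟨-, rfl⟩ _ ⟨-, rfl⟩; simp
  · rintro _ (⟨-, rfl⟩ | ⟨-, rfl⟩) _ ⟨-, rfl⟩ <;> simp [n1]
  · rintro _ ((⟨-, rfl⟩ | ⟨-, rfl⟩) | ⟨-, rfl⟩) _ ⟨-, rfl⟩ <;> simp [n2]

theorem mem (d : G.D) (φ : I × Bool) : φ ∈ F.ft d ↔ feet F.a' F.b' φ = d := by
  simp only [ft, List.mem_append, mem_opt]
  constructor
  · rintro (((⟨h, rfl⟩ | ⟨h, rfl⟩) | ⟨h, rfl⟩) | ⟨h, rfl⟩)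
    exacts [F.p1 h, F.p2 h, F.p3 h, F.p4 h]
  · rintro rfl
    obtain ⟨j, _ | _⟩ := φ <;> by_cases h : j ∈ F.T1
    · refine Or.inl (Or.inl (Or.inl ?_))
      simp [feet, F.a1 j h, F.H1.ja_a j h]
    · have h := (F.t2 j).2 h
      refine Or.inl (Or.inr ?_)
      simp [feet, F.a2 j h, F.H2.ja_a j h]
    · refine Or.inl (Or.inl (Or.inr ?_))
      simp [feet, F.b1 j h, F.H1.jb_b j h]
    · have h := (F.t2 j).2 h
      refine Or.inr ?_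
      simp [feet, F.b2 j h, F.H2.jb_b j h]

abbrev act : Act := ⟨G.D, G.fD, ![G.x0, F.H1.t, G.x2, F.H2.t], by
  show F.H2.t⁻¹ * G.x2⁻¹ * F.H2.t * G.x2 * (F.H1.t⁻¹ * G.x0⁻¹ * F.H1.t * G.x0) = 1
  rw [← F.H1.C_eq, ← F.H2.C_eq, ← mul_assoc, G.rel]⟩

theorem c1_eq : F.act.c1 = G.x1 := F.H1.C_eq.symm
theorem c2_eq : F.act.c2 = G.x3 := F.H2.C_eq.symm

variable {Γ : Type} [Group Γ]

def M (G : P4) (X : Fin 6 → G.D → Γ) (d : G.D) : Γ := X 0 d * X 1 (G.x0 d)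
def N (G : P4) (X : Fin 6 → G.D → Γ) (d : G.D) : Γ := M G X d * X 2 (G.x1 (G.x0 d))

def FX (χ : Fin 4 → G.D → Γ) : Fin 6 → G.D → Γ :=
  ![F.H1.oX (χ 0), F.H1.oY (χ 0) (χ 1), F.H2.oX (χ 2), F.H2.oY (χ 2) (χ 3), fun _ => 1, fun _ => 1]

variable [Finite I]

abbrev st : St := ⟨G.D, G.fD, G.x6, G.rel6, I, inferInstance, feet F.a' F.b', F.ft, F.nd, F.mem⟩

def τ1 (V : Vl F.st Γ) (j : I) : Γ := (V.X 0 (F.b' j))⁻¹ * V.t j
def c2 (V : Vl F.st Γ) (j : I) : Γ := (M G V.X (F.a' j))⁻¹ * V.c j * M G V.X (F.a' j)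
def τ2 (V : Vl F.st Γ) (j : I) : Γ := (N G V.X (F.b' j))⁻¹ * V.t j * M G V.X (F.a' j)

theorem face (V : Vl F.st Γ) (d : G.D) :
    ((F.ft d).map V.lt).prod * V.X 0 d * V.X 1 (G.x0 d) * V.X 2 (G.x1 (G.x0 d)) *
      V.X 3 (G.x2 (G.x1 (G.x0 d))) =
    F.H1.nα (V.X 0) V.c d * (F.H1.γ V.c (F.τ1 V) (G.x0 d) * V.X 1 (G.x0 d)) *
      (F.H2.nα (V.X 2) (F.c2 V) (G.x1 (G.x0 d)) *
        (F.H2.γ (F.c2 V) (F.τ2 V) (G.x2 (G.x1 (G.x0 d))) * V.X 3 (G.x2 (G.x1 (G.x0 d))))) := by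
  have l1 : ((opt (d = F.a (F.H1.ja d)) (F.H1.ja d, false)).map V.lt).prod = F.H1.δ V.c d :=
    prod_opt _ _ _
  have l2 : ((opt (G.x0 d = F.b (F.H1.jb (G.x0 d))) (F.H1.jb (G.x0 d), true)).map V.lt).prod =
      V.X 0 d * F.H1.γ V.c (F.τ1 V) (G.x0 d) * (V.X 0 d)⁻¹ := by
    rw [prod_opt, Hf.γ]
    split_ifs with h
    · simp only [Vl.lt, τ1, F.p2 h]; group
    · group
  have l3 : ((opt (G.x1 (G.x0 d) = F.a (F.H2.ja (G.x1 (G.x0 d))))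
      (F.H2.ja (G.x1 (G.x0 d)), false)).map V.lt).prod =
      M G V.X d * F.H2.δ (F.c2 V) (G.x1 (G.x0 d)) * (M G V.X d)⁻¹ := by
    rw [prod_opt, Hf.δ]
    split_ifs with h
    · simp only [Vl.lt, c2, F.p3 h]; group
    · group
  have l4 : ((opt (G.x2 (G.x1 (G.x0 d)) = F.b (F.H2.jb (G.x2 (G.x1 (G.x0 d)))))
      (F.H2.jb (G.x2 (G.x1 (G.x0 d))), true)).map V.lt).prod =
      N G V.X d * F.H2.γ (F.c2 V) (F.τ2 V) (G.x2 (G.x1 (G.x0 d))) * (N G V.X d)⁻¹ := by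
    rw [prod_opt, Hf.γ]
    split_ifs with h
    · simp only [Vl.lt, c2, τ2, F.p4 h]; group
    · group
  simp only [ft, List.map_append, List.prod_append]
  rw [l1, l2, l3, l4]
  simp only [Hf.nα, N, M]
  group

open Classical in
def Fv (Γ : Type) [Group Γ] (χ : Fin 4 → G.D → Γ) : Vl F.st Γ :=
  ⟨F.FX χ, fun j => if j ∈ F.T1 then F.H1.oc (χ 0) j else
      M G (F.FX χ) (F.a' j) * F.H2.oc (χ 2) j * (M G (F.FX χ) (F.a' j))⁻¹,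
    fun j => if j ∈ F.T1 then F.FX χ 0 (F.b' j) * χ 1 (F.b j) else
      N G (F.FX χ) (F.b' j) * χ 3 (F.b j) * (M G (F.FX χ) (F.a' j))⁻¹⟩

def Gv (Γ : Type) [Group Γ] (V : Vl F.st Γ) : Fin 4 → G.D → Γ :=
  ![F.H1.nα (V.X 0) V.c, F.H1.nβ (V.X 0) (V.X 1) V.c (F.τ1 V), F.H2.nα (V.X 2) (F.c2 V),
    F.H2.nβ (V.X 2) (V.X 3) (F.c2 V) (F.τ2 V)]

theorem Fv_c1 (χ : Fin 4 → G.D → Γ) : ∀ j ∈ F.T1, (F.Fv Γ χ).c j = F.H1.oc (χ 0) j :=
  fun _ h => if_pos h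
theorem Fv_τ1 (χ : Fin 4 → G.D → Γ) : ∀ j ∈ F.T1, F.τ1 (F.Fv Γ χ) j = χ 1 (F.b j) :=
  fun j h => by simp only [τ1, Fv, if_pos h]; group
theorem Fv_c2 (χ : Fin 4 → G.D → Γ) : ∀ j ∈ F.T2, F.c2 (F.Fv Γ χ) j = F.H2.oc (χ 2) j :=
  fun j h => by simp only [c2, Fv, if_neg ((F.t2 j).1 h)]; group
theorem Fv_τ2 (χ : Fin 4 → G.D → Γ) : ∀ j ∈ F.T2, F.τ2 (F.Fv Γ χ) j = χ 3 (F.b j) :=
  fun j h => by simp only [τ2, Fv, if_neg ((F.t2 j).1 h)]; group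

theorem fok (χ : Fin 4 → G.D → Γ) (h : F.act.Ok χ) : (F.Fv Γ χ).Ok := by
  refine ⟨all6 (F.H1.pot_oX _) (F.H1.pot_oY _ _) (F.H2.pot_oX _) (F.H2.pot_oY _ _)
    ⟨fun _ => 1, fun _ => (mul_one _).symm⟩ ⟨fun _ => 1, fun _ => (mul_one _).symm⟩, fun d => ?_⟩
  have h1 := F.face (F.Fv Γ χ) d
  have h2 := h d
  rw [c1_eq, c2_eq] at h2
  have e0 : F.H1.nα ((F.Fv Γ χ).X 0) (F.Fv Γ χ).c = χ 0 := F.H1.nα_oX _ (F.Fv_c1 χ)
  have e2 : F.H2.nα ((F.Fv Γ χ).X 2) (F.c2 (F.Fv Γ χ)) = χ 2 := F.H2.nα_oX _ (F.Fv_c2 χ)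
  rw [e0, e2, F.H1.γ_congr (F.Fv_c1 χ) (F.Fv_τ1 χ), F.H2.γ_congr (F.Fv_c2 χ) (F.Fv_τ2 χ)] at h1
  refine (mul_one _).trans ((mul_one _).trans (h1.trans (Eq.trans ?_ h2)))
  show _ * (_ * F.H1.oY _ _ _) * (_ * (_ * F.H2.oY _ _ _)) = _
  simp only [Hf.oY, mul_inv_cancel_left]
  rfl

theorem gok (V : Vl F.st Γ) (h : V.Ok) : F.act.Ok (F.Gv Γ V) := by
  intro d
  have h1 := F.face V d
  have h2 := h.face d
  rw [(h.pot 4).fix rfl, (h.pot 5).fix rfl, mul_one, mul_one] at h2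
  rw [← F.H1.hat_n (h.pot 0) (h.pot 1), ← F.H2.hat_n (h.pot 2) (h.pot 3)] at h1
  rw [c1_eq, c2_eq]
  exact h1.symm.trans h2

theorem fg (V : Vl F.st Γ) (h : V.Ok) : F.Fv Γ (F.Gv Γ V) = V := by
  have e : F.FX (F.Gv Γ V) = V.X := funext (all6 (F.H1.oX_n (h.pot 0) _)
    (F.H1.oY_n (h.pot 0) (h.pot 1) _ _) (F.H2.oX_n (h.pot 2) _) (F.H2.oY_n (h.pot 2) (h.pot 3) _ _)
    (funext fun _ => ((h.pot 4).fix rfl).symm) (funext fun _ => ((h.pot 5).fix rfl).symm))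
  refine Vl.ext' (fun i d => congrFun (congrFun e i) d) (fun j => ?_) (fun j => ?_) <;>
    simp only [Fv, e] <;> split_ifs with hj
  · exact F.H1.oc_n (h.pot 0) _ hj
  · have : F.H2.oc (F.Gv Γ V 2) j = F.c2 V j := F.H2.oc_n (h.pot 2) _ ((F.t2 j).2 hj)
    rw [this, c2]; group
  · have : F.Gv Γ V 1 (F.b j) = F.τ1 V j := F.H1.nβ_b (h.pot 0) (h.pot 1) _ _ hj
    rw [this, τ1]; group
  · have : F.Gv Γ V 3 (F.b j) = F.τ2 V j := F.H2.nβ_b (h.pot 2) (h.pot 3) _ _ ((F.t2 j).2 hj)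
    rw [this, τ2]; group

theorem gf (χ : Fin 4 → G.D → Γ) : F.Gv Γ (F.Fv Γ χ) = χ := by
  funext i
  fin_cases i
  · exact F.H1.nα_oX _ (F.Fv_c1 χ)
  · exact F.H1.nβ_o _ _ (F.Fv_c1 χ) (F.Fv_τ1 χ)
  · exact F.H2.nα_oX _ (F.Fv_c2 χ)
  · exact F.H2.nβ_o _ _ (F.Fv_c2 χ) (F.Fv_τ2 χ)

theorem gx (i : Fin 4) (d : G.D) :
    Re F.st d (F.act.g i d) (fun Γ _ V => F.Gv Γ V i d) := by
  have m : ∀ d, Re F.st d (G.x1 (G.x0 d)) (fun _ _ V => M G V.X d) := fun d =>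
    (Re.ex (S := F.st) 0 d).mul (Re.ex (S := F.st) 1 _)
  have n : ∀ d, Re F.st d (G.x2 (G.x1 (G.x0 d))) (fun _ _ V => N G V.X d) := fun d =>
    (m d).mul (Re.ex (S := F.st) 2 _)
  have k1 : ∀ j ∈ F.T1, Re F.st (F.a j) (F.a j) (fun _ _ V => V.c j) := fun j h =>
    (Re.ec (S := F.st) j).ends (F.a1 j h) (F.a1 j h)
  have k2 : ∀ j ∈ F.T1, Re F.st (F.b j) (F.a j) (fun _ _ V => F.τ1 V j) := fun j h =>
    ((Re.ex (S := F.st) 0 (F.b' j)).inv.mul (Re.et (S := F.st) j)).ends (F.b1 j h) (F.a1 j h)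
  have k3 : ∀ j ∈ F.T2, Re F.st (F.a j) (F.a j) (fun _ _ V => F.c2 V j) := fun j h =>
    (((m (F.a' j)).inv.mul (Re.ec (S := F.st) j)).mul (m (F.a' j))).ends (F.a2 j h) (F.a2 j h)
  have k4 : ∀ j ∈ F.T2, Re F.st (F.b j) (F.a j) (fun _ _ V => F.τ2 V j) := fun j h =>
    (((n (F.b' j)).inv.mul (Re.et (S := F.st) j)).mul (m (F.a' j))).ends (F.b2 j h) (F.a2 j h)
  fin_cases i
  · exact Hf.re_nα (S := F.st) (s1 := 0) (s2 := 1) F.H1 k1 d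
  · exact Hf.re_nβ (S := F.st) (s1 := 0) (s2 := 1) F.H1 k1 k2 d
  · exact Hf.re_nα (S := F.st) (s1 := 2) (s2 := 3) F.H2 k3 d
  · exact Hf.re_nβ (S := F.st) (s1 := 2) (s2 := 3) F.H2 k3 k4 d

/-- Nearness up to one gluing map. -/
def Rel (u d : G.D) : Prop :=
  Nr G.y 4 u d ∨ Nr G.y 4 (F.H1.t⁻¹ u) d ∨ Nr G.y 4 (F.H2.t⁻¹ u) d

omit [Finite I] in
theorem rel_card {n : ℕ} (h : G.Sz n) (u : G.D) : {d | F.Rel u d}.ncard ≤ 3 * (5 * n) ^ 4 := by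
  have c : ∀ z, {d | Nr G.y 4 z d}.ncard ≤ (5 * n) ^ 4 := fun z => by simpa using Nr.card h 4 z
  have e : {d | F.Rel u d} = {d | Nr G.y 4 u d} ∪ ({d | Nr G.y 4 (F.H1.t⁻¹ u) d} ∪
      {d | Nr G.y 4 (F.H2.t⁻¹ u) d}) := rfl
  have h1 := Set.ncard_union_le {d | Nr G.y 4 u d} ({d | Nr G.y 4 (F.H1.t⁻¹ u) d} ∪
      {d | Nr G.y 4 (F.H2.t⁻¹ u) d})
  have h2 := Set.ncard_union_le {d | Nr G.y 4 (F.H1.t⁻¹ u) d} {d | Nr G.y 4 (F.H2.t⁻¹ u) d}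
  have := c u
  have := c (F.H1.t⁻¹ u)
  have := c (F.H2.t⁻¹ u)
  rw [e]
  omega

omit [Finite I] in
theorem rx {n : ℕ} (h : G.Sz n) {W : G.D → Prop} {z : G.D} (hW : ∀ u, F.Rel u z → W u) :
    ∀ (i : Fin 6) {d : G.D}, Nr G.y 3 d z →
      Ra F.act W (n + 5) d (G.x6 i d) (fun _ _ χ => F.FX χ i d) := by
  refine all6 (fun {d} hd => ?_) (fun {d} hd => ?_) (fun {d} hd => ?_) (fun {d} hd => ?_)
    (fun {d} _ => (Ra.one (A := F.act) d).le (Nat.zero_le _))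
    (fun {d} _ => (Ra.one (A := F.act) d).le (Nat.zero_le _))
  · exact (Hf.ra_oX (Ac := F.act) (i1 := 0) F.H1 rfl (h 0) d
      fun u s => hW u (Or.inl (hd.sc 0 s))).le (by omega)
  · exact Hf.ra_oY (Ac := F.act) (i1 := 0) (i2 := 1) F.H1 rfl rfl (h 0) d fun u s =>
      ⟨hW u (Or.inl (hd.sc 1 s)), hW _ (Or.inr (Or.inl (by simpa using hd.sc 1 s)))⟩
  · exact (Hf.ra_oX (Ac := F.act) (i1 := 2) F.H2 rfl (h 2) d
      fun u s => hW u (Or.inl (hd.sc 2 s))).le (by omega)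
  · exact Hf.ra_oY (Ac := F.act) (i1 := 2) (i2 := 3) F.H2 rfl rfl (h 2) d fun u s =>
      ⟨hW u (Or.inl (hd.sc 3 s)), hW _ (Or.inr (Or.inr (by simpa using hd.sc 3 s)))⟩

theorem fw {n : ℕ} (h : G.Sz n) (hS : F.st.Bd (n + 4)) :
    Fw ((6 * (n + 5)) * (6 * (n + 5)) * ((3 * (5 * n) ^ 4) * (12 + 4 * (n + 4))))
      F.st.gd F.act.gd := by
  have z0 : ∀ d, Nr G.y 0 d d := Nr.z _
  have m : ∀ {W : G.D → Prop} {z : G.D}, (∀ u, F.Rel u z → W u) →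
      Ra F.act W (n + 5 + (n + 5)) z (G.x1 (G.x0 z)) (fun _ _ χ => M G (F.FX χ) z) := fun hW =>
    (F.rx h hW 0 (Nr.refl _ _)).mul (F.rx h hW 1 (((z0 _).ap 0).mono (by omega)))
  refine fw_fin F.st F.act id id (fun _ => rfl) (fun _ => rfl) F.Fv F.Gv hS F.Rel (F.rel_card h)
    (fun i d => (F.rx h (fun _ r => r) i (Nr.refl _ _)).le (by omega)) (fun j => ?_) (fun j => ?_)
    F.gx (fun _ _ => F.fok) (fun _ _ => F.gok) (fun _ _ => F.fg) (fun _ _ χ _ => F.gf χ)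
  · have w0 : ∀ u, F.Rel u (F.a' j) → ∃ k, F.Rel u (F.st.pos (j, k)) := fun u r => ⟨false, r⟩
    by_cases hj : j ∈ F.T1
    · exact (Hf.ra_oc (Ac := F.act) (i1 := 0) F.H1 rfl (h 0) j fun u s => w0 u (Or.inl
        ((Nr.refl 3 _).sc 0 (F.a1 j hj ▸ s)))).cg (by omega) (F.a1 j hj).symm (F.a1 j hj).symm
        fun _ _ _ => (if_pos hj).symm
    · have e := F.a2 j ((F.t2 j).2 hj)
      have k := (Hf.ra_oc (Ac := F.act) (i1 := 2) F.H2 rfl (h 2) j fun u s => w0 u (Or.inl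
        (((((z0 _).ap 0).ap 1).sc 2 (e ▸ s)).mono (by omega)))).ends e.symm e.symm
      exact (((m w0).mul k).mul (m w0).inv).cg (by omega) rfl rfl fun _ _ _ => (if_neg hj).symm
  · have w0 : ∀ u, F.Rel u (F.a' j) → ∃ k, F.Rel u (F.st.pos (j, k)) := fun u r => ⟨false, r⟩
    have w1 : ∀ u, F.Rel u (F.b' j) → ∃ k, F.Rel u (F.st.pos (j, k)) := fun u r => ⟨true, r⟩
    by_cases hj : j ∈ F.T1
    · have e := F.b1 j hj
      have k := (Ra.ex (A := F.act) (N := fun u => ∃ k, F.Rel u (F.st.pos (j, k))) 1 (w1 (F.b j) (Or.inl (e ▸ ((z0 _).ap 0).mono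
        (by omega))))).ends e.symm ((F.H1.tb j hj).trans (F.a1 j hj).symm)
      exact ((F.rx h w1 0 (Nr.refl _ _)).mul k).cg (by omega) rfl rfl
        fun _ _ _ => (if_pos hj).symm
    · have h2 := (F.t2 j).2 hj
      have e := F.b2 j h2
      have k := (Ra.ex (A := F.act) (N := fun u => ∃ k, F.Rel u (F.st.pos (j, k))) 3 (w1 (F.b j) (Or.inl (e ▸ ((((z0 _).ap 0).ap 1).ap 2).mono
        (by omega))))).ends e.symm ((F.H2.tb j h2).trans (F.a2 j h2).symm)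
      exact ((((m w1).mul (F.rx h w1 2 ((((z0 _).ap 0).ap 1).mono (by omega)))).mul k).mul
        (m w0).inv).cg (by omega) rfl rfl fun _ _ _ => (if_neg hj).symm

omit [Finite I] in
theorem len (d : G.D) : (F.ft d).length ≤ 4 := by
  simp only [Fd.ft, List.length_append]
  exact add_le_add (add_le_add (add_le_add (length_opt _ _) (length_opt _ _))
    (length_opt _ _)) (length_opt _ _)

theorem bd {n : ℕ} (h : G.Sz n) : F.st.Bd (n + 4) :=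
  ⟨fun i d => by
    obtain ⟨c, e⟩ := la2a_x6 G i
    have : sz (G.x6 i) d ≤ n := e ▸ h c d
    exact this.trans (Nat.le_add_right _ _), fun d => (F.len d).trans (Nat.le_add_left _ _)⟩

end Fd

theorem lf1_exists_fd {G : P4} {I : Type} {a b : I → G.D} {T1 T2 : Set I}
    (m1 : Mat G.x0 G.x1 Set.univ T1 a b) (m2 : Mat G.x2 G.x3 Set.univ T2 a b)
    (hu : T1 ∪ T2 = Set.univ) (hd : Disjoint T1 T2) :
    ∃ F : Fd G I, (∀ j, Nr G.y 10 (a j) (F.a' j)) ∧ ∀ j, Nr G.y 10 (b j) (F.b' j) := by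
  classical
  obtain ⟨H1⟩ := exists_hf m1
  obtain ⟨H2⟩ := exists_hf m2
  have t2 : ∀ j, j ∈ T2 ↔ j ∉ T1 := fun j =>
    ⟨fun h2 h1 => Set.disjoint_left.1 hd h1 h2, fun h1 => by
      have : j ∈ T1 ∪ T2 := hu ▸ Set.mem_univ j
      exact this.resolve_left h1⟩
  have z0 : ∀ d, Nr G.y 0 d d := Nr.z _
  refine ⟨⟨a, b, fun j => if j ∈ T1 then a j else G.x0⁻¹ (G.x1⁻¹ (a j)),
    fun j => if j ∈ T1 then G.x0⁻¹ (b j) else G.x0⁻¹ (G.x1⁻¹ (G.x2⁻¹ (b j))), T1, T2, H1, H2, t2,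
    fun j hj => if_pos hj, fun j hj => by simp [hj], fun j hj => by simp [(t2 j).1 hj],
    fun j hj => by simp [(t2 j).1 hj]⟩, fun j => ?_, fun j => ?_⟩ <;> simp only [] <;> split_ifs
  · exact Nr.refl _ _
  · exact (((z0 _).ia 1).ia 0).symm.mono (by omega)
  · exact ((z0 _).ia 0).symm.mono (by omega)
  · exact ((((z0 _).ia 2).ia 1).ia 0).symm.mono (by omega)

theorem fin_bound (n : ℕ) :
    (6 * (n + 5)) * (6 * (n + 5)) * ((3 * (5 * n) ^ 4) * (12 + 4 * (n + 4))) ≤ Q 33 n := by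
  have q5 : 2 ^ 4 * (n + 2) ≤ Q 5 n := (Q_mul_le (two_pow_le_Q 4 n) (le_Q n one_pos)).trans
    (Q_mono (by norm_num) le_rfl)
  have q4 : 2 ^ 3 * (n + 2) ≤ Q 4 n := (Q_mul_le (two_pow_le_Q 3 n) (le_Q n one_pos)).trans
    (Q_mono (by norm_num) le_rfl)
  have k1 : 6 * (n + 5) ≤ Q 5 n := by omega
  have k2 : 12 + 4 * (n + 4) ≤ Q 5 n := by omega
  have k3 : 3 ≤ Q 2 n := le_trans (by norm_num) (two_pow_le_Q 2 n)
  have k4 : (5 * n) ^ 4 ≤ Q 16 n := by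
    have h5 : 5 * n ≤ Q 4 n := by omega
    have : Q 4 n ^ 4 = Q (4 * 4) n := (pow_mul (n + 2) 4 4).symm
    exact (Nat.pow_le_pow_left h5 4).trans (this.le.trans (Q_mono (by norm_num) le_rfl))
  have r1 : (6 * (n + 5)) * (6 * (n + 5)) ≤ Q (5 + 5) n := Q_mul_le k1 k1
  have r2 : 3 * (5 * n) ^ 4 ≤ Q (2 + 16) n := Q_mul_le k3 k4
  have r3 := Q_mul_le r2 k2
  have r4 := Q_mul_le r1 r3
  exact r4.trans (Q_mono (by norm_num) le_rfl)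

theorem Fd.fwQ {G : P4} {I : Type} [Finite I] (F : Fd G I) {n : ℕ} (h : G.Sz n) :
    Fw (Q 160 n * Q 33 n) (G.gd F.a' F.b') F.act.gd := by
  have n4 : n + 4 ≤ Q 2 n := by unfold Q; nlinarith
  have q2 : Qe (Q 160 n) (G.gd F.a' F.b') F.st.gd :=
    ((qe_can F.st (F.bd h)).QQ n4).symm
  exact q2.fw.trans ((F.fw h (F.bd h)).mono (fin_bound n))

/-- Matched cells are joined by the tubes: the result is a cover of the surface of genus two. -/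
theorem fin_stage : ∃ κ : ℕ, ∀ (G : P4) (I : Type) [Finite I] (a b : I → G.D) (T1 T2 : Set I)
    (n : ℕ), Mat G.x0 G.x1 Set.univ T1 a b → Mat G.x2 G.x3 Set.univ T2 a b →
    T1 ∪ T2 = Set.univ → Disjoint T1 T2 → G.Sz n → Ft n a → Ft n b →
    ∃ A : Act, Fw (Q κ n) (G.gd a b) A.gd := by
  refine ⟨kA + (160 + 33), fun G I _ a b T1 T2 n m1 m2 hu hd h ha hb => ?_⟩
  obtain ⟨F, f1, f2⟩ := lf1_exists_fd m1 m2 hu hd
  have := (api_mov f1 f2 h ha hb).fw.trans (F.fwQ h)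
  rw [Q_mul, Q_mul] at this
  exact ⟨F.act, this⟩

end Pool.Agent.MC.LL
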