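import Pool.Agent.P.MP_2677b3_gt.LE9b
import Pool.Agent.P.MP_2677b3_gt.LF1

open Equiv Function

noncomputable section

namespace Pool.Agent.MC.LL

open EG

/-- A matching seen inside a larger family of tubes. -/
theorem le9c_range {D I J : Type} {σ τ : Perm D} {F : Set D} {a b : I → D} {a' b' : J → D}
    (h : Mat σ τ F Set.univ a b) (f : I → J) (ha : ∀ i, a' (f i) = a i)
    (hb : ∀ i, b' (f i) = b i) : Mat σ τ F (Set.range f) a' b' := by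
  refine ⟨h.iσ, h.iτ, ?_, ?_, fun d hd => ?_, fun d hd => ?_, ?_, ?_⟩
  · rintro _ ⟨i, rfl⟩
    rw [ha, hb]
    exact h.mem i trivial
  · rintro _ ⟨i, rfl⟩
    rw [ha, hb]
    exact h.eq i trivial
  · obtain ⟨i, -, hi⟩ := h.exa d hd
    exact ⟨f i, ⟨i, rfl⟩, (ha i).symm ▸ hi⟩
  · obtain ⟨i, -, hi⟩ := h.exb d hd
    exact ⟨f i, ⟨i, rfl⟩, (hb i).symm ▸ hi⟩
  · rintro _ ⟨i, rfl⟩ _ ⟨j, rfl⟩ hs
    rw [ha, ha] at hs
    exact congrArg f (h.una i trivial j trivial hs)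
  · rintro _ ⟨i, rfl⟩ _ ⟨j, rfl⟩ hs
    rw [hb, hb] at hs
    exact congrArg f (h.unb i trivial j trivial hs)

/-- Counting inside a subtype. -/
theorem le9c_cnt {H : Type} [Finite H] {p q : H → Prop} {r : {x // p x} → Prop}
    (h : ∀ x, q x → ∃ hx : p x, r ⟨x, hx⟩) : {x | q x}.ncard ≤ {t | r t}.ncard := by
  rw [← Set.ncard_image_of_injective {t | r t} Subtype.val_injective]
  refine Set.ncard_le_ncard fun x hx => ?_
  obtain ⟨h1, h2⟩ := h x hx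
  exact ⟨⟨x, h1⟩, h2, rfl⟩

theorem le9c_swap {D I J : Type} [Finite I] [Finite J] {n : ℕ} {a : I → D} {b : J → D}
    (h : Ft n (Sum.elim a b)) : Ft n (Sum.elim b a) := by
  have e : Sum.elim b a = Sum.elim a b ∘ Equiv.sumComm J I := by
    funext i; cases i <;> rfl
  exact e ▸ h.eg_pre (Equiv.injective _)

theorem endgame0 : ∃ κ : ℕ, ∀ (G : P4) (H : Type) [Finite H] (a : H → G.D) (tg : H → Fin 5)
    (n : ℕ), G.Sz n → Ft n a → Par G.x0 G.x1 Set.univ → Par G.x2 G.x3 Set.univ →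
    (∀ c : Fin 5, c ≠ 4 → ∀ d, 38 ≤ {x | tg x = c ∧ (G.y c).SameCycle (a x) d}.ncard) →
    ∃ A : Act, Fw (Q κ n) (G.gd a a) A.gd := by
  classical
  obtain ⟨κ, hκ⟩ := match_stage
  obtain ⟨κ', hκ'⟩ := fin_stage
  refine ⟨1 * kA + κ + (κ + 2) * (2 * kA) + (κ + 2) * (1 * kA) + (κ + 2) * κ +
    ((κ + 2) * κ + 2) * κ', fun G H _ a tg n hG ha hp0 hp2 hc => ?_⟩
  obtain ⟨p, hp⟩ : ∃ p : H → Prop, p = fun x => tg x = 2 ∨ tg x = 3 := ⟨_, rfl⟩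
  obtain ⟨a0, ha0⟩ : ∃ a0 : {x // p x} → G.D, a0 = fun t => a t.1 := ⟨_, rfl⟩
  obtain ⟨a1, ha1⟩ : ∃ a1 : {x // ¬ p x} → G.D, a1 = fun t => a t.1 := ⟨_, rfl⟩
  have e0 : ∀ i, Sum.elim a0 a1 i = a (Equiv.sumCompl p i) := by
    rintro (i | i) <;> simp [ha0, ha1]
  have f0 : Ft n (Sum.elim a0 a1) :=
    (funext e0 : Sum.elim a0 a1 = a ∘ Equiv.sumCompl p) ▸ ha.eg_pre (Equiv.injective _)
  have E0 := (reindex (Equiv.sumCompl p) e0 e0 hG f0 f0).symm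
  obtain ⟨H1, ι, π, K, W, _, _, ka, kb, u, hx, hs1, m01, m23, fa, fb, E1⟩ :=
    hκ G Set.univ _ _ a0 a0 a1 (fun t => tg t.1 = 0) n ⟨fun _ => Iff.rfl, fun _ => Iff.rfl⟩ hp0
      hG f0 f0 (fun _ => trivial)
      (fun d _ => le_trans (by norm_num) ((hc 0 (by decide) d).trans (le9c_cnt fun x hx =>
        ⟨by rw [hp]; simp [hx.1], hx.1, by rw [ha1]; exact hx.2⟩)))
      (fun d _ => le_trans (by norm_num) ((hc 1 (by decide) d).trans (le9c_cnt fun x hx =>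
        ⟨by rw [hp]; simp [hx.1], by simp [hx.1], by rw [ha1]; exact hx.2⟩)))
  have E2 := tr_rot2 hs1 _ le_rfl _ _ _ fa fb
  have E3 := reindex (G := H1.rot.rot) (a := Sum.elim (ι ∘ a0) (Sum.elim ka u))
    (b := Sum.elim (ι ∘ a0) (Sum.elim kb u)) (a' := Sum.elim (Sum.elim ka u) (ι ∘ a0))
    (b' := Sum.elim (Sum.elim kb u) (ι ∘ a0)) (Equiv.sumComm _ _) (by rintro (i | i) <;> rfl)
    (by rintro (i | i) <;> rfl) hs1.rot.rot fa fb
  have sc (σ : Perm G.D) (σ' : Perm H1.D) (h : ∀ d, σ' (ι d) = ι (σ d)) {d e : G.D}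
      (hde : σ.SameCycle d e) : σ'.SameCycle (ι d) (ι e) :=
    ((sc_map ι hx.inj Set.univ (fun _ => Iff.rfl) (fun d _ => h d) (Set.mem_univ d)).1 _).2
      ⟨e, rfl, hde⟩
  have iv (σ : Perm G.D) (σ' : Perm H1.D) (h : ∀ d, σ' (ι d) = ι (σ d)) (v : H1.D) :
      σ' v ∈ Set.range ι ↔ v ∈ Set.range ι :=
    inv_of_maps (by rintro _ ⟨d, rfl⟩; exact ⟨_, (h d).symm⟩) v
  obtain ⟨H2, ι', π', K2, W2, _, _, ka2, kb2, u2, hx2, hs2, n01, n23, ga, gb, E4⟩ :=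
    hκ H1.rot.rot (Set.range ι) _ _ (Sum.elim ka u) (Sum.elim kb u) (ι ∘ a0)
      (fun t => tg t.1 = 2) (Q κ n) ⟨iv _ _ hx.e2, iv _ _ hx.e3⟩
      (hp2.map ι hx.inj hx.e2 hx.e3) hs1.rot.rot (le9c_swap fa) (le9c_swap fb)
      (fun t => ⟨_, rfl⟩)
      (by
        rintro _ ⟨d, rfl⟩
        exact le_trans (by norm_num) ((hc 2 (by decide) d).trans (le9c_cnt fun x h =>
          ⟨by rw [hp]; exact Or.inl h.1, h.1, by rw [ha0]; exact sc _ _ hx.e2 h.2⟩)))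
      (by
        rintro _ ⟨d, rfl⟩
        exact le_trans (by norm_num) ((hc 3 (by decide) d).trans (le9c_cnt fun x h =>
          ⟨by rw [hp]; exact Or.inr h.1, by simp [h.1], by rw [ha0]; exact sc _ _ hx.e3 h.2⟩)))
  have M1 : Mat H2.x0 H2.x1 (ι' '' (Set.range ι)ᶜ ∪ π' ⁻¹' Set.range ι) Set.univ
      (Sum.elim (ι' ∘ ka) u2) (Sum.elim (ι' ∘ kb) u2) :=
    (m23.map ι' hx2.inj hx2.e0 hx2.e1 id (Set.bijOn_id _) (fun _ _ => rfl)
      (fun _ _ => rfl)).eg_sum n01 (Set.disjoint_left.2 (by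
        rintro _ ⟨d, hd, rfl⟩ hv
        exact hd (hx2.li d ▸ hv)))
  have U1 : ι' '' (Set.range ι)ᶜ ∪ π' ⁻¹' Set.range ι = Set.univ :=
    Set.eq_univ_of_forall fun v => by
      by_cases hv : π' v ∈ Set.range ι
      · exact Or.inr hv
      · obtain ⟨d, rfl⟩ : v ∈ Set.range ι' := by_contra fun h => hv (hx2.nw v h)
        exact Or.inl ⟨d, fun h => hv ((hx2.li d).symm ▸ h), rfl⟩
  have M2 := hx2.mat (S := Set.univ) m01 n23
  rw [U1] at M1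
  rw [Set.image_univ, Set.union_compl_self] at M2
  obtain ⟨A, E5⟩ := hκ' H2 _ _ _ (Set.range (Sum.map Sum.inl Sum.inr))
    (Set.range (Sum.map Sum.inr Sum.inl)) _
    (le9c_range M1 _ (by rintro (i | i) <;> rfl) (by rintro (i | i) <;> rfl))
    (le9c_range M2 _ (by rintro (i | i) <;> rfl) (by rintro (i | i) <;> rfl))
    (Set.eq_univ_of_forall (by
      rintro ((i | i) | (i | i))
      exacts [Or.inl ⟨.inl i, rfl⟩, Or.inr ⟨.inl i, rfl⟩, Or.inr ⟨.inr i, rfl⟩,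
        Or.inl ⟨.inr i, rfl⟩]))
    (Set.disjoint_left.2 (by rintro _ ⟨i | i, rfl⟩ ⟨j | j, h⟩ <;> cases h)) hs2 ga gb
  refine ⟨A, ?_⟩
  rw [← Q_mul]
  exact ((((E0.transQ E1).transQ (E2.QQ le_rfl)).transQ (E3.QQ le_rfl)).transQ
    (E4.QQ le_rfl)).fw.trans (E5.mono (Q_Q (Q_Q le_rfl)))

end Pool.Agent.MC.LL
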