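import Pool.Agent.P.MP_2677b3_gt.LS3

/-! Labels on Schreier graphs and the comparison of a state with a Schreier graph. -/

open Equiv Function

noncomputable section

namespace Pool.Agent.MC.LL

/-- The value of the path `e → t e → A⁻¹ t e → C e`. -/
def hat {D Γ : Type} [Group Γ] (C t : Perm D) (α β : D → Γ) (e : D) : Γ :=
  β e * (α (t (C e)))⁻¹ * (β (C e))⁻¹

namespace Act
variable (A : Act) {Γ : Type} [Group Γ]

abbrev Ed : Type := A.D × Fin 4 × Bool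

def val (χ : Fin 4 → A.D → Γ) (e : A.Ed) : Γ := bif e.2.2 then χ e.2.1 e.1 else (χ e.2.1 e.1)⁻¹

def ev (χ : Fin 4 → A.D → Γ) (p : List A.Ed) : Γ := (p.map (A.val χ)).prod

def c1 : Perm A.D := (A.g 1)⁻¹ * (A.g 0)⁻¹ * A.g 1
def c2 : Perm A.D := (A.g 3)⁻¹ * (A.g 2)⁻¹ * A.g 3

/-- The labels kill the relator at every point. -/
def Ok (χ : Fin 4 → A.D → Γ) : Prop :=
  ∀ d, χ 0 d * hat A.c1 (A.g 1) (χ 0) (χ 1) (A.g 0 d) *
    (χ 2 (A.c1 (A.g 0 d)) * hat A.c2 (A.g 3) (χ 2) (χ 3) (A.g 2 (A.c1 (A.g 0 d)))) = 1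

theorem ev_append (χ : Fin 4 → A.D → Γ) (p q : List A.Ed) :
    A.ev χ (p ++ q) = A.ev χ p * A.ev χ q := by simp [ev]

def inv (e : A.Ed) : A.Ed := (e.1, e.2.1, !e.2.2)

theorem val_inv (χ : Fin 4 → A.D → Γ) (e : A.Ed) : A.val χ (A.inv e) = (A.val χ e)⁻¹ := by
  obtain ⟨d, i, _ | _⟩ := e
  · exact (inv_inv _).symm
  · rfl

theorem ev_rev (χ : Fin 4 → A.D → Γ) (p : List A.Ed) : A.ev χ (A.gd.rev p) = (A.ev χ p)⁻¹ := by
  change A.ev χ (p.map A.inv).reverse = _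
  induction p with
  | nil => simp [ev]
  | cons e p ih =>
    rw [List.map_cons, List.reverse_cons, ev_append, ih]
    simp [ev, A.val_inv]

/-- The tautological labels. -/
theorem exists_lb : ∃ χ : Fin 4 → A.D → Pi2, A.Ok χ ∧ ∀ p : List A.Ed, A.ev χ p = A.gd.ev p := by
  refine ⟨fun i _ => PresentedGroup.of i, fun d => ?_, fun p => rfl⟩
  have : (PresentedGroup.mk ({rel2} : Set (FreeGroup (Fin 4)))) rel2 = 1 :=
    PresentedGroup.one_of_mem rfl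
  have e : (PresentedGroup.mk ({rel2} : Set (FreeGroup (Fin 4)))) rel2 =
      (PresentedGroup.of 0 : Pi2) * PresentedGroup.of 1 * (PresentedGroup.of 0)⁻¹ *
        (PresentedGroup.of 1)⁻¹ * (PresentedGroup.of 2 * PresentedGroup.of 3 *
          (PresentedGroup.of 2)⁻¹ * (PresentedGroup.of 3)⁻¹) := rfl
  rw [e] at this
  simpa only [hat, mul_assoc] using this

/-- The action on pairs of a point and a group element. -/
def up (χ : Fin 4 → A.D → Γ) (i : Fin 4) : Perm (A.D × Γ) where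
  toFun := fun z => (A.g i z.1, z.2 * χ i z.1)
  invFun := fun z => ((A.g i)⁻¹ z.1, z.2 * (χ i ((A.g i)⁻¹ z.1))⁻¹)
  left_inv := fun z => by simp
  right_inv := fun z => by simp

theorem up_apply (χ : Fin 4 → A.D → Γ) (i : Fin 4) (d : A.D) (γ : Γ) :
    A.up χ i (d, γ) = (A.g i d, γ * χ i d) := rfl

theorem up_inv (χ : Fin 4 → A.D → Γ) (i : Fin 4) (d : A.D) (γ : Γ) :
    (A.up χ i)⁻¹ (d, γ) = ((A.g i)⁻¹ d, γ * (χ i ((A.g i)⁻¹ d))⁻¹) := rfl

/-- Null-homotopic loops have trivial value. -/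
theorem lift {χ : Fin 4 → A.D → Γ} (h : A.Ok χ) (d : A.D) (p : List A.Ed) (hp : A.gd.Path d p d)
    (h1 : A.gd.ev p = 1) : A.ev χ p = 1 := by
  have r : (A.up χ 3)⁻¹ * (A.up χ 2)⁻¹ * A.up χ 3 * A.up χ 2 *
      ((A.up χ 1)⁻¹ * (A.up χ 0)⁻¹ * A.up χ 1 * A.up χ 0) = 1 := by
    refine Equiv.ext fun ⟨e, γ⟩ => ?_
    have h2 := congrArg (fun σ : Perm A.D => σ e) A.rel
    have h3 := h e
    simp only [Perm.mul_apply, up_apply, up_inv, Perm.one_apply, hat, c1, c2,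
      Perm.coe_inv, apply_symm_apply] at h2 h3 ⊢
    refine Prod.ext h2 ?_
    simp only [mul_assoc] at h3 ⊢
    rw [h3, mul_one]
  have hr : ∀ r ∈ ({rel2} : Set (FreeGroup (Fin 4))),
      FreeGroup.lift (fun j => (A.up χ j)⁻¹) r = 1 := by
    rintro r' rfl
    have := congrArg (·⁻¹) r
    simpa [rel2, mul_assoc] using this
  let χ0 : Fin 4 → A.D → Pi2 := fun i _ => PresentedGroup.of i
  let Φ : Pi2 →* Perm (A.D × Γ) := PresentedGroup.toGroup hr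
  have hΦ : ∀ i, Φ (PresentedGroup.of i) = (A.up χ i)⁻¹ := fun i => PresentedGroup.toGroup.of hr
  have key : ∀ (p : List A.Ed) (x y : A.D) (γ : Γ), A.gd.Path x p y →
      (Φ (A.ev χ0 p)) (y, γ * A.ev χ p) = (x, γ) := by
    intro p
    induction p with
    | nil =>
      intro x y γ hp
      obtain rfl : x = y := hp
      simp [ev]
    | cons a p ih =>
      intro x y γ hp
      obtain ⟨rfl, h2⟩ := hp
      have e1 : Φ (A.ev χ0 (a :: p)) = Φ (A.val χ0 a) * Φ (A.ev χ0 p) := by simp [ev]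
      have e2 : γ * A.ev χ (a :: p) = γ * A.val χ a * A.ev χ p := by simp [ev, mul_assoc]
      rw [e1, e2, Perm.mul_apply, ih _ _ _ h2]
      obtain ⟨d, j, _ | _⟩ := a
      · show Φ (PresentedGroup.of j)⁻¹ (d, γ * (χ j d)⁻¹) = (A.g j d, γ)
        rw [map_inv, hΦ, inv_inv, up_apply]; simp
      · show Φ (PresentedGroup.of j) (A.g j d, γ * χ j d) = (d, γ)
        rw [hΦ, ← up_apply]; simp
  have := key p d d 1 hp
  have e3 : A.ev χ0 p = 1 := h1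
  rw [e3, map_one] at this
  simpa using this

end Act

abbrev FnA (A : Act) : Type 1 := ∀ (Γ : Type) [Group Γ], (Fin 4 → A.D → Γ) → Γ

/-- The formula `Φ` is the value of a short path in the Schreier graph that stays in `N`. -/
def Ra (A : Act) (N : A.D → Prop) (K : ℕ) (x y : A.D) (Φ : FnA A) : Prop :=
  ∃ p : List A.Ed, A.gd.Path x p y ∧ p.length ≤ K ∧ (∀ b ∈ p, N b.1) ∧
    ∀ (Γ : Type) [Group Γ] (χ : Fin 4 → A.D → Γ), A.ev χ p = Φ Γ χ

namespace Ra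
variable {A : Act} {N N' : A.D → Prop} {K K' : ℕ} {x y z : A.D} {Φ Ψ : FnA A}

theorem one (x : A.D) : Ra A N 0 x x (fun _ _ _ => 1) :=
  ⟨[], rfl, le_rfl, fun _ h => absurd h (by simp), fun _ _ _ => rfl⟩

theorem ex (i : Fin 4) {d : A.D} (h : N d) : Ra A N 1 d (A.g i d) (fun _ _ χ => χ i d) :=
  ⟨[(d, i, true)], ⟨rfl, rfl⟩, le_rfl, fun b hb => by rw [List.mem_singleton.1 hb]; exact h,
    fun _ _ χ => mul_one _⟩

theorem mul (h : Ra A N K x y Φ) (h' : Ra A N K' y z Ψ) :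
    Ra A N (K + K') x z (fun Γ _ V => Φ Γ V * Ψ Γ V) := by
  obtain ⟨p, p1, p2, p3, p4⟩ := h
  obtain ⟨q, q1, q2, q3, q4⟩ := h'
  refine ⟨p ++ q, p1.append q1, by rw [List.length_append]; omega, fun b hb => ?_,
    fun Γ _ V => by rw [A.ev_append, p4 Γ V, q4 Γ V]⟩
  exact (List.mem_append.1 hb).elim (p3 b) (q3 b)

theorem inv (h : Ra A N K x y Φ) : Ra A N K y x (fun Γ _ V => (Φ Γ V)⁻¹) := by
  obtain ⟨p, p1, p2, p3, p4⟩ := h
  refine ⟨A.gd.rev p, p1.rev, (Gd.length_rev (A := A.gd) p).trans_le p2, fun b hb => ?_,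
    fun Γ _ V => (A.ev_rev V p).trans (by rw [p4 Γ V])⟩
  have h' : b ∈ (p.map A.inv).reverse := hb
  obtain ⟨b', hb', rfl⟩ := List.mem_map.1 (List.mem_reverse.1 h')
  exact p3 b' hb'

theorem cg (h : Ra A N K x y Φ) {x' y' : A.D} (hK : K ≤ K') (hx : x = x') (hy : y = y')
    (hΦ : ∀ (Γ : Type) [Group Γ] (V : Fin 4 → A.D → Γ), Φ Γ V = Ψ Γ V) : Ra A N K' x' y' Ψ := by
  obtain ⟨p, p1, p2, p3, p4⟩ := h
  subst hx hy
  exact ⟨p, p1, p2.trans hK, p3, fun Γ _ V => (p4 Γ V).trans (hΦ Γ V)⟩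

theorem ends (h : Ra A N K x y Φ) {x' y' : A.D} (hx : x = x') (hy : y = y') :
    Ra A N K x' y' Φ := h.cg le_rfl hx hy fun _ _ _ => rfl

theorem le (h : Ra A N K x y Φ) (hK : K ≤ K') : Ra A N K' x y Φ :=
  h.cg hK rfl rfl fun _ _ _ => rfl

theorem chain (u : ℕ → A.D) (F : ℕ → FnA A) (m : ℕ)
    (h : ∀ k < m, Ra A N K (u k) (u (k + 1)) (F k)) :
    Ra A N (K * m) (u 0) (u m) (fun Γ _ V => ((List.range m).map fun k => F k Γ V).prod) := by
  induction m with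
  | zero => exact one _
  | succ m ih =>
    exact ((ih fun k hk => h k (by omega)).mul (h m (by omega))).cg
      (le_of_eq (by ring)) rfl rfl fun _ _ _ => by simp [List.range_succ]

end Ra

/-- A formula that is the value of some path. -/
def Re (S : St) (x y : S.D) (Φ : Fn S) : Prop := ∃ K, Rz S (fun _ => True) K x y Φ

namespace Re
variable {S : St} {x y z : S.D} {Φ Ψ : Fn S}
theorem one (x : S.D) : Re S x x (fun _ _ _ => 1) := ⟨_, Rz.one x⟩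
theorem ex (i : Fin 6) (d : S.D) : Re S d (S.x i d) (fun _ _ V => V.X i d) := ⟨_, Rz.ex i trivial⟩
theorem ec (j : S.I) : Re S (S.pos (j, false)) (S.pos (j, false)) (fun _ _ V => V.c j) :=
  ⟨_, Rz.ec j false trivial⟩
theorem et (j : S.I) : Re S (S.pos (j, true)) (S.pos (j, false)) (fun _ _ V => V.t j) :=
  ⟨_, Rz.et j false trivial⟩
theorem mul (h : Re S x y Φ) (h' : Re S y z Ψ) : Re S x z (fun Γ _ V => Φ Γ V * Ψ Γ V) :=
  let ⟨_, h⟩ := h; let ⟨_, h'⟩ := h'; ⟨_, h.mul h'⟩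
theorem inv (h : Re S x y Φ) : Re S y x (fun Γ _ V => (Φ Γ V)⁻¹) := let ⟨_, h⟩ := h; ⟨_, h.inv⟩
theorem cg (h : Re S x y Φ) {x' y' : S.D} (hx : x = x') (hy : y = y')
    (hΦ : ∀ (Γ : Type) [Group Γ] (V : Vl S Γ), V.Ok → Φ Γ V = Ψ Γ V) : Re S x' y' Ψ :=
  let ⟨_, h⟩ := h; ⟨_, h.cg le_rfl hx hy hΦ⟩
theorem ends (h : Re S x y Φ) {x' y' : S.D} (hx : x = x') (hy : y = y') : Re S x' y' Φ :=
  h.cg hx hy fun _ _ _ _ => rfl
theorem arc (i : Fin 6) {d e : S.D} (hs : (S.x i).SameCycle d e) :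
    Re S d e (fun _ _ V => arcv (S.x i) (V.X i) d e) := ⟨_, Rz.arc i le_rfl hs fun _ _ => trivial⟩
end Re

/-- Comparison of a state with a Schreier graph on the same points. -/
theorem fw_fin (S : St) (A : Act) (v : S.D → A.D) (w : A.D → S.D) (h1 : ∀ d, w (v d) = d)
    (h2 : ∀ d, v (w d) = d) (F : ∀ (Γ : Type) [Group Γ], (Fin 4 → A.D → Γ) → Vl S Γ)
    (G : ∀ (Γ : Type) [Group Γ], Vl S Γ → Fin 4 → A.D → Γ) {n K R : ℕ} (hS : S.Bd n)
    (Rel : A.D → S.D → Prop) (hR : ∀ u, {d | Rel u d}.ncard ≤ R)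
    (fx : ∀ i d, Ra A (fun u => Rel u d) K (v d) (v (S.x i d)) (fun Γ _ χ => (F Γ χ).X i d))
    (fc : ∀ j, Ra A (fun u => ∃ k, Rel u (S.pos (j, k))) K (v (S.pos (j, false)))
      (v (S.pos (j, false))) (fun Γ _ χ => (F Γ χ).c j))
    (ft : ∀ j, Ra A (fun u => ∃ k, Rel u (S.pos (j, k))) K (v (S.pos (j, true)))
      (v (S.pos (j, false))) (fun Γ _ χ => (F Γ χ).t j))
    (gx : ∀ i d, Re S (w d) (w (A.g i d)) (fun Γ _ V => G Γ V i d))
    (fok : ∀ (Γ : Type) [Group Γ] (χ : Fin 4 → A.D → Γ), A.Ok χ → (F Γ χ).Ok)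
    (gok : ∀ (Γ : Type) [Group Γ] (V : Vl S Γ), V.Ok → A.Ok (G Γ V))
    (fg : ∀ (Γ : Type) [Group Γ] (V : Vl S Γ), V.Ok → F Γ (G Γ V) = V)
    (gf : ∀ (Γ : Type) [Group Γ] (χ : Fin 4 → A.D → Γ), A.Ok χ → G Γ (F Γ χ) = χ) :
    Fw (K * K * (R * (12 + 4 * n))) S.gd A.gd := by
  have hf : ∀ a : S.Ed, Ra A (fun u => ∃ d, Rel u d ∧ S.At a d) K (v (S.gd.src a))
      (v (S.gd.tgt a)) (fun Γ _ χ => (F Γ χ).val a) := by
    have mono : ∀ {N N' : A.D → Prop} {x y : A.D} {Φ : FnA A}, Ra A N K x y Φ →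
        (∀ u, N u → N' u) → Ra A N' K x y Φ := fun ⟨p, p1, p2, p3, p4⟩ h =>
      ⟨p, p1, p2, fun b hb => h _ (p3 b hb), p4⟩
    have hj : ∀ (j : S.I) (k c : Bool) (u : A.D), (∃ k, Rel u (S.pos (j, k))) →
        ∃ d, Rel u d ∧ S.At (.inr (j, k, c)) d := by
      rintro j k c u ⟨_ | _, h⟩
      exacts [⟨_, h, Or.inl rfl⟩, ⟨_, h, Or.inr rfl⟩]
    rintro (⟨d, i, _ | _⟩ | ⟨j, _ | _, _ | _⟩)
    · exact mono (fx i d).inv fun u h => ⟨d, h, rfl⟩
    · exact mono (fx i d) fun u h => ⟨d, h, rfl⟩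
    · exact mono (fc j).inv (hj j _ _)
    · exact mono (fc j) (hj j _ _)
    · exact mono (ft j).inv (hj j _ _)
    · exact mono (ft j) (hj j _ _)
  have hg : ∀ b : A.Ed, Re S (w (A.gd.src b)) (w (A.gd.tgt b))
      (fun Γ _ V => A.val (G Γ V) b) := by
    rintro ⟨d, i, _ | _⟩
    · exact (gx i d).inv
    · exact gx i d
  choose fe f1 f2 f3 f4 using hf
  choose _ ge g1 _ _ g4 using hg
  obtain ⟨χ0, c1, c2⟩ := A.exists_lb
  obtain ⟨V0, v1, v2⟩ := S.exists_vl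
  have ef : ∀ (Γ : Type) [Group Γ] (χ : Fin 4 → A.D → Γ) (p : List S.Ed),
      A.ev χ (p.flatMap fe) = (F Γ χ).ev p := by
    intro Γ _ χ p
    induction p with
    | nil => rfl
    | cons a p ih => rw [List.flatMap_cons, A.ev_append, ih, f4, Vl.ev_cons]
  have eg : ∀ (Γ : Type) [Group Γ] (V : Vl S Γ), V.Ok → ∀ p : List A.Ed,
      V.ev (p.flatMap ge) = A.ev (G Γ V) p := by
    intro Γ _ V hV p
    induction p with
    | nil => rfl
    | cons a p ih => rw [List.flatMap_cons, V.ev_append, ih, g4 a Γ V hV]; simp [Act.ev]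
  let f : Mp S.gd A.gd := ⟨v, fe, f1, fun x p _ hp => by
    obtain ⟨H, hH⟩ := (fok _ χ0 c1).lift
    refine (c2 _).symm.trans ((ef _ χ0 p).trans ((hH p).symm.trans ?_))
    rw [hp]; exact map_one H⟩
  let g : Mp A.gd S.gd := ⟨w, ge, g1, fun x p hx hp =>
    (v2 _).symm.trans ((eg _ V0 v1 p).trans (A.lift (gok _ V0 v1) x p hx hp))⟩
  refine ⟨f, g, ⟨fun _ => [], fun x => (h1 x).symm, fun a => ?_⟩,
    ⟨fun _ => [], fun x => (h2 x).symm, fun b => ?_⟩,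
    f.en_of_bound K _ f2 fun b => ⟨Set.toFinite (α := S.Ed) _, ?_⟩⟩
  · have e : S.gd.ev ((fe a).flatMap ge) = S.gd.val a := by
      refine (v2 _).symm.trans ((eg _ V0 v1 _).trans ((f4 a _ _).trans ?_))
      show (F _ (G _ V0)).val a = _
      rw [fg _ V0 v1]
      have := v2 [a]
      rw [Vl.ev_cons, Vl.ev_nil, mul_one] at this
      exact this.trans (mul_one _)
    exact (one_mul _).trans (e.trans (mul_one _).symm)
  · have e : A.gd.ev ((ge b).flatMap fe) = A.gd.val b := by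
      refine (c2 _).symm.trans ((ef _ χ0 _).trans ((g4 b _ _ (fok _ χ0 c1)).trans ?_))
      show A.val (G _ (F _ χ0)) b = _
      rw [gf _ χ0 c1]
      exact (mul_one _).symm.trans ((c2 [b]).trans (mul_one _))
    exact (one_mul _).trans (e.trans (mul_one _).symm)
  · exact ls2_card {d | Rel b.1 d} (fun d => {a | S.At a d}) _ (fun a ha => f3 a b ha) (hR _)
      (ls2_at S hS)

end Pool.Agent.MC.LL
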