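import Pool.Agent.P.MP_2677b3_gt.LF0

/-! Gluing matched cells of two slots along tubes. -/

open Equiv Function

noncomputable section

namespace Pool.Agent.MC.LL

/-- The gluing data of two slots `A`, `C` whose cells are matched by the tubes in `T`. -/
structure Hf {D I : Type} (A C : Perm D) (T : Set I) (a b : I → D) where
  t : Perm D
  ja : D → I
  jb : D → I
  tC : ∀ e, t (C e) = A⁻¹ (t e)
  ma : ∀ d, ja d ∈ T
  mb : ∀ d, jb d ∈ T
  sa : ∀ d, A.SameCycle d (a (ja d))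
  sb : ∀ d, C.SameCycle d (b (jb d))
  jA : ∀ d, ja (A d) = ja d
  jC : ∀ d, jb (C d) = jb d
  ja_a : ∀ j ∈ T, ja (a j) = j
  jb_b : ∀ j ∈ T, jb (b j) = j
  tb : ∀ j ∈ T, t (b j) = a j

theorem pow_mod_of {D : Type} {σ : Perm D} {d : D} {s : ℕ} (h : (σ ^ s) d = d) (k : ℕ) :
    (σ ^ k) d = (σ ^ (k % s)) d := by
  have : ∀ m, (σ ^ (s * m)) d = d := fun m => by
    rw [pow_mul]; exact Perm.pow_apply_eq_self_of_apply_eq_self h m
  conv_lhs => rw [← Nat.mod_add_div k s, pow_add, Perm.mul_apply, this]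

theorem exists_hf {D I : Type} [Finite D] {A C : Perm D} {T : Set I} {a b : I → D}
    (h : Mat A C Set.univ T a b) : Nonempty (Hf A C T a b) := by
  choose ja ma sa using fun d => h.exa d (Set.mem_univ d)
  choose jb mb sb using fun d => h.exb d (Set.mem_univ d)
  have ea : ∀ d e, A.SameCycle d e → ja d = ja e := fun d e s =>
    h.una _ (ma d) _ (ma e) (((sa d).symm.trans s).trans (sa e))
  have eb : ∀ d e, C.SameCycle d e → jb d = jb e := fun d e s =>
    h.unb _ (mb d) _ (mb e) (((sb d).symm.trans s).trans (sb e))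
  have ja_a : ∀ j ∈ T, ja (a j) = j := fun j hj => (h.una _ hj _ (ma _) (sa _)).symm
  have jb_b : ∀ j ∈ T, jb (b j) = j := fun j hj => (h.unb _ hj _ (mb _) (sb _)).symm
  obtain ⟨ib, b1, b2, b3⟩ := exists_idx_of C (fun d => b (jb d)) sb fun d e s => by rw [eb d e s]
  obtain ⟨ia, -, -, a3⟩ := exists_idx_of A⁻¹ (fun d => a (ja d))
    (fun d => Perm.sameCycle_inv.2 (sa d)) fun d e s => by rw [ea d e (Perm.sameCycle_inv.1 s)]
  have szb : ∀ e, sz C e = sz A⁻¹ (a (jb e)) := fun e => by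
    rw [sz_inv, h.eq _ (mb e), sz_congr (sb e)]
  let f : D → D := fun e => (A⁻¹ ^ ib e) (a (jb e))
  have sf : ∀ e, A.SameCycle (a (jb e)) (f e) := fun e =>
    Perm.sameCycle_inv.1 ⟨ib e, by simp [f]⟩
  have fi : ∀ e, ia (f e) = ib e := fun e => by
    have := a3 (a (jb e)) (ib e) (szb e ▸ b2 e)
    rwa [ja_a _ (mb e)] at this
  have inj : Injective f := fun e e' q => by
    have j : jb e = jb e' := h.una _ (mb e) _ (mb e') ((sf e).trans (q ▸ (sf e').symm))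
    have i : ib e = ib e' := by rw [← fi, q, fi]
    rw [← b1 e, ← b1 e', i, j]
  have fk : ∀ j ∈ T, ∀ k : ℕ, f ((C ^ k) (b j)) = (A⁻¹ ^ k) (a j) := fun j hj k => by
    have s1 : C.SameCycle (b j) ((C ^ k) (b j)) := ⟨k, by simp⟩
    have j1 : jb ((C ^ k) (b j)) = j := (eb _ _ s1).symm.trans (jb_b j hj)
    have i1 : ib ((C ^ k) (b j)) = k % sz C (b j) := by
      have := b3 (b j) (k % sz C (b j)) (Nat.mod_lt _ (sz_pos _ _))
      rw [jb_b j hj] at this
      rw [pow_mod_of (pow_sz C (b j)) k, this]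
    have s2 : sz C (b j) = sz A⁻¹ (a j) := by rw [szb, jb_b j hj]
    simp only [f, j1, i1]
    rw [s2, ← pow_mod_of (pow_sz A⁻¹ (a j)) k]
  refine ⟨⟨Equiv.ofBijective f (Finite.injective_iff_bijective.1 inj), ja, jb, fun e => ?_, ma, mb,
    sa, sb, fun d => (ea _ _ (sc_self_apply A d)).symm, fun d => (eb _ _ (sc_self_apply C d)).symm,
    ja_a, jb_b, fun j hj => fk j hj 0⟩⟩
  show f (C e) = A⁻¹ (f e)
  have e1 := fk _ (mb e) (ib e + 1)
  rw [pow_succ', pow_succ', Perm.mul_apply, Perm.mul_apply, b1 e] at e1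
  exact e1

namespace Hf
variable {D I : Type} {A C : Perm D} {T : Set I} {a b : I → D} (H : Hf A C T a b)
  {Γ : Type} [Group Γ]

theorem At (e : D) : A (H.t (C e)) = H.t e := by rw [H.tC]; simp

theorem C_eq : C = H.t⁻¹ * A⁻¹ * H.t := Equiv.ext fun e => by
  rw [Perm.mul_apply, Perm.mul_apply, ← H.tC]; simp

theorem sct [Finite D] {e u : D} (h : C.SameCycle e u) : A.SameCycle (H.t e) (H.t u) :=
  sc_ind (P := fun u => A.SameCycle (H.t e) (H.t u)) h (Perm.SameCycle.refl _ _) fun d _ hd =>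
    hd.trans (by have := sc_self_apply A (H.t (C d)); rw [H.At] at this; exact this.symm)

theorem sta [Finite D] (e : D) : A.SameCycle (a (H.jb e)) (H.t e) :=
  H.tb _ (H.mb e) ▸ H.sct (H.sb e).symm

theorem jt [Finite D] (e : D) : H.ja (H.t e) = H.jb e :=
  (sc_lab H.ja H.jA (H.sta e)).symm.trans (H.ja_a _ (H.mb e))

theorem scA [Finite D] {e u : D} (h : A.SameCycle (H.t e) u) : ∃ z, C.SameCycle e z ∧ u = H.t z :=
  sc_ind (x := A⁻¹) (P := fun u => ∃ z, C.SameCycle e z ∧ u = H.t z) (Perm.sameCycle_inv.2 h)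
    ⟨e, Perm.SameCycle.refl _ _, rfl⟩ fun _ _ ⟨z, h1, h2⟩ =>
      ⟨C z, h1.trans (sc_self_apply C z), by rw [h2, H.tC]⟩

open Classical in
def δ (c : I → Γ) (d : D) : Γ := if d = a (H.ja d) then c (H.ja d) else 1
open Classical in
def γ (c τ : I → Γ) (e : D) : Γ :=
  if e = b (H.jb e) then τ (H.jb e) * (c (H.jb e))⁻¹ * (τ (H.jb e))⁻¹ else 1
open Classical in
def ε (c : I → Γ) (e : D) : Γ := if e = b (H.jb e) then 1 else c (H.jb e)
def nα (X : D → Γ) (c : I → Γ) (d : D) : Γ := H.δ c d * X d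
def nβ (X Y : D → Γ) (c τ : I → Γ) (e : D) : Γ :=
  arcv C Y e (b (H.jb e)) * τ (H.jb e) * H.ε c e * arcv A X (a (H.jb e)) (H.t e)
def oc (_ : Hf A C T a b) (α : D → Γ) (j : I) : Γ :=
  ((List.range (sz A (a j))).map fun k => α ((A ^ k) (a j))).prod
def oX (α : D → Γ) (d : D) : Γ := (H.δ (H.oc α) d)⁻¹ * α d
def oY (α β : D → Γ) (e : D) : Γ := (H.γ (H.oc α) (fun j => β (b j)) e)⁻¹ * hat C H.t α β e

theorem δ_congr {c c' : I → Γ} (h : ∀ j ∈ T, c j = c' j) : H.δ c = H.δ c' :=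
  funext fun d => by simp only [δ, h _ (H.ma d)]
theorem γ_congr {c c' τ τ' : I → Γ} (h : ∀ j ∈ T, c j = c' j) (h' : ∀ j ∈ T, τ j = τ' j) :
    H.γ c τ = H.γ c' τ' := funext fun d => by simp only [γ, h _ (H.mb d), h' _ (H.mb d)]
theorem ε_congr {c c' : I → Γ} (h : ∀ j ∈ T, c j = c' j) : H.ε c = H.ε c' :=
  funext fun d => by simp only [ε, h _ (H.mb d)]

variable [Finite D]

/-- Passing the base point of the cell of `A`. -/
theorem δε (c : I → Γ) {π : D → Γ} (e : D) :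
    (π (a (H.jb e)))⁻¹ * π (H.t (C e)) * (H.δ c (H.t (C e)))⁻¹ =
      (c (H.jb e))⁻¹ * H.ε c (C e) * (π (a (H.jb e)))⁻¹ * π (H.t (C e)) := by
  have j1 : H.ja (H.t (C e)) = H.jb e := by rw [H.jt, H.jC]
  unfold δ ε
  rw [j1, H.jC]
  by_cases h : C e = b (H.jb e)
  · have h' : H.t (C e) = a (H.jb e) := by rw [h, H.tb _ (H.mb e)]
    rw [if_pos h, if_pos h', h']; group
  · have h' : ¬ H.t (C e) = a (H.jb e) := fun q => h (H.t.injective (q.trans (H.tb _ (H.mb e)).symm))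
    rw [if_neg h, if_neg h']; group

theorem hat_n {X Y : D → Γ} (hX : Pot A X) (hY : Pot C Y) (c τ : I → Γ) (e : D) :
    hat C H.t (H.nα X c) (H.nβ X Y c τ) e = H.γ c τ e * Y e := by
  obtain ⟨π, p1, p2⟩ := hX.arcv
  obtain ⟨ρ, r1, r2⟩ := hY.arcv
  have x1 : X (H.t (C e)) = (π (H.t (C e)))⁻¹ * π (H.t e) := by rw [← H.At e, p1]; group
  have y1 : Y e = (ρ e)⁻¹ * ρ (C e) := by rw [r1]; group
  have k := H.δε c (π := π) e
  have k' : (H.δ c (H.t (C e)))⁻¹ = (π (H.t (C e)))⁻¹ * π (a (H.jb e)) *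
      ((c (H.jb e))⁻¹ * H.ε c (C e) * (π (a (H.jb e)))⁻¹ * π (H.t (C e))) := by rw [← k]; group
  simp only [hat, nα, nβ, p2, r2, H.jC, mul_inv_rev, x1, y1, k']
  unfold γ
  by_cases h : e = b (H.jb e)
  · have : H.ε c e = 1 := if_pos h
    rw [if_pos h, this, ← h]; group
  · have : H.ε c e = c (H.jb e) := if_neg h
    rw [if_neg h, this]; group

theorem prod_δ (c : I → Γ) (X : D → Γ) {j : I} (hj : j ∈ T) :
    H.oc (H.nα X c) j = c j * ((List.range (sz A (a j))).map fun k => X ((A ^ k) (a j))).prod := by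
  obtain ⟨ia, -, -, a3⟩ := exists_idx_of A (fun d => a (H.ja d)) H.sa fun d e s => by
    rw [sc_lab H.ja H.jA s]
  have key : ∀ m, m < sz A (a j) →
      ((List.range (m + 1)).map fun k => H.nα X c ((A ^ k) (a j))).prod =
        c j * ((List.range (m + 1)).map fun k => X ((A ^ k) (a j))).prod := by
    intro m
    induction m with
    | zero => intro _; simp [nα, δ, H.ja_a j hj]
    | succ m ih =>
      intro hm
      have j1 : H.ja ((A ^ (m + 1)) (a j)) = j :=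
        (sc_lab H.ja H.jA ⟨(m + 1 : ℕ), by rw [zpow_natCast]⟩).symm.trans (H.ja_a j hj)
      have ne : ¬ (A ^ (m + 1)) (a j) = a j := fun q => by
        have h1 := a3 (a j) (m + 1) hm
        have h0 := a3 (a j) 0 (by omega)
        rw [H.ja_a j hj] at h1 h0
        rw [q] at h1
        simp only [pow_zero, Perm.one_apply] at h0
        omega
      rw [List.range_succ (n := m + 1), List.map_append, List.map_append, List.prod_append,
        List.prod_append, ih (by omega)]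
      simp [nα, δ, j1, ne, mul_assoc]
  have := key (sz A (a j) - 1) (by have := sz_pos A (a j); omega)
  rwa [Nat.sub_add_cancel (sz_pos A (a j))] at this

omit [Finite D] in
theorem nα_oX (α : D → Γ) {c : I → Γ} (h : ∀ j ∈ T, c j = H.oc α j) : H.nα (H.oX α) c = α :=
  funext fun d => by simp only [nα, oX, H.δ_congr h]; group

theorem oc_n {X : D → Γ} (hX : Pot A X) (c : I → Γ) {j : I} (hj : j ∈ T) :
    H.oc (H.nα X c) j = c j := by
  rw [H.prod_δ c X hj, (pot_iff A X).1 hX _ _ (pow_sz A (a j)), mul_one]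

theorem pot_oX (α : D → Γ) : Pot A (H.oX α) := by
  refine pot_of_base A _ (fun d => a (H.ja d)) H.sa (fun d e s => by rw [sc_lab H.ja H.jA s])
    fun d hd => ?_
  have := H.prod_δ (H.oc α) (H.oX α) (H.ma d)
  rw [H.nα_oX α fun _ _ => rfl, hd] at this
  exact (mul_eq_left.1 this.symm)

theorem pot_oY' (α β : D → Γ) {π : D → Γ} (p1 : ∀ d, π (A d) = π d * H.oX α d) (e : D) :
    β (b (H.jb (C e))) * H.ε (H.oc α) (C e) * (π (a (H.jb (C e))))⁻¹ * π (H.t (C e)) *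
      (β (C e))⁻¹ = β (b (H.jb e)) * H.ε (H.oc α) e * (π (a (H.jb e)))⁻¹ * π (H.t e) * (β e)⁻¹ *
        H.oY α β e := by
  have x1 : π (H.t e) = π (H.t (C e)) * (H.δ (H.oc α) (H.t (C e)))⁻¹ * α (H.t (C e)) := by
    rw [← H.At e, p1, oX, mul_assoc]
  have k := H.δε (H.oc α) (π := π) e
  have k' : (H.δ (H.oc α) (H.t (C e)))⁻¹ = (π (H.t (C e)))⁻¹ * π (a (H.jb e)) *
      ((H.oc α (H.jb e))⁻¹ * H.ε (H.oc α) (C e) * (π (a (H.jb e)))⁻¹ * π (H.t (C e))) := by
    rw [← k]; group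
  rw [k'] at x1
  simp only [oY, hat, H.jC]
  unfold γ
  by_cases h : e = b (H.jb e)
  · have h1 : H.ε (H.oc α) e = 1 := if_pos h
    have h2 : H.t e = a (H.jb e) := by rw [← H.tb _ (H.mb e), ← h]
    have h3 : α (H.t (C e)) = ((H.oc α (H.jb e))⁻¹ * H.ε (H.oc α) (C e) * (π (a (H.jb e)))⁻¹ *
        π (H.t (C e)))⁻¹ := by
      rw [h2] at x1
      have : π (a (H.jb e)) * 1 = π (a (H.jb e)) * (((H.oc α (H.jb e))⁻¹ * H.ε (H.oc α) (C e) *
          (π (a (H.jb e)))⁻¹ * π (H.t (C e))) * α (H.t (C e))) := by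
        rw [mul_one]; refine x1.trans ?_; group
      exact eq_inv_of_mul_eq_one_right (mul_left_cancel this).symm
    rw [if_pos h, h1, h2, h3]
    simp only [← h]
    group
  · have h1 : H.ε (H.oc α) e = H.oc α (H.jb e) := if_neg h
    rw [if_neg h, h1, x1]; group

theorem pot_oY (α β : D → Γ) : Pot C (H.oY α β) := by
  obtain ⟨π, p1⟩ := H.pot_oX α
  exact ⟨fun e => β (b (H.jb e)) * H.ε (H.oc α) e * (π (a (H.jb e)))⁻¹ * π (H.t e) * (β e)⁻¹,
    H.pot_oY' α β p1⟩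

theorem nβ_o (α β : D → Γ) {c τ : I → Γ} (h : ∀ j ∈ T, c j = H.oc α j)
    (h' : ∀ j ∈ T, τ j = β (b j)) : H.nβ (H.oX α) (H.oY α β) c τ = β := by
  funext e
  obtain ⟨π, p1⟩ := H.pot_oX α
  have j1 := H.jb_b _ (H.mb e)
  have e1 : H.ε (H.oc α) (b (H.jb e)) = 1 := if_pos (by rw [j1])
  rw [nβ, arcv_eq (π := fun e => β (b (H.jb e)) * H.ε (H.oc α) e * (π (a (H.jb e)))⁻¹ *
    π (H.t e) * (β e)⁻¹) (H.pot_oY' α β p1) (H.sb e), arcv_eq p1 (H.sta e), H.ε_congr h, h' _ (H.mb e)]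
  simp only [j1, e1, H.tb _ (H.mb e)]
  group

omit [Finite D] in
theorem nβ_b {X Y : D → Γ} (hX : Pot A X) (hY : Pot C Y) (c τ : I → Γ) {j : I} (hj : j ∈ T) :
    H.nβ X Y c τ (b j) = τ j := by
  obtain ⟨π, -, p2⟩ := hX.arcv
  obtain ⟨ρ, -, r2⟩ := hY.arcv
  have e1 : H.ε c (b j) = 1 := if_pos (by rw [H.jb_b j hj])
  rw [nβ, p2, r2, e1, H.jb_b j hj, H.tb j hj]; group

theorem oX_n {X : D → Γ} (hX : Pot A X) (c : I → Γ) : H.oX (H.nα X c) = X :=
  funext fun d => by rw [oX, H.δ_congr fun j hj => H.oc_n hX c hj, nα]; group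

theorem oY_n {X Y : D → Γ} (hX : Pot A X) (hY : Pot C Y) (c τ : I → Γ) :
    H.oY (H.nα X c) (H.nβ X Y c τ) = Y :=
  funext fun d => by
    rw [oY, H.γ_congr (fun j hj => H.oc_n hX c hj) fun j hj => H.nβ_b hX hY c τ hj,
      H.hat_n hX hY]
    group

end Hf

end Pool.Agent.MC.LL
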