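import Pool.Agent.P.MP_2677b3_gt.LSt

/-! Clusters. -/

open Set Function Equiv

noncomputable section

namespace Pool.Agent.MC.LL

section

variable {V E : Type} {src tgt : E → V} {R : Set V} {t : ℕ} {U : Set E} {rk : V → ℕ} {top : V → V}

/-- One step along an edge of `U`. -/
def lg4s (src tgt : E → V) (U : Set E) (a b : V) : Prop := ∃ e ∈ U, src e = a ∧ tgt e = b

/-- A forest all of whose clusters are rooted, large or closed. -/
def Lg4 (src tgt : E → V) (R : Set V) (t : ℕ) (U : Set E) (rk : V → ℕ) (top : V → V) : Prop :=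
  InjOn src U ∧ (∀ e ∈ U, rk (tgt e) < rk (src e) ∧ top (tgt e) = top (src e) ∧ src e ∉ R) ∧
    (∀ v, v ∉ src '' U → top v = v) ∧
    ∀ v, top v ∈ R ∨ t ≤ {w | top w = top v}.ncard ∨ ∀ e, top (src e) = top v ↔ top (tgt e) = top v

theorem lg4_path (h1 : ∀ e ∈ U, rk (tgt e) < rk (src e) ∧ top (tgt e) = top (src e))
    (h2 : ∀ v, v ∉ src '' U → top v = v) (v : V) :
    top v ∉ src '' U ∧ Relation.ReflTransGen (lg4s src tgt U) v (top v) := by
  induction hn : rk v using Nat.strong_induction_on generalizing v with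
  | _ n ih =>
  by_cases hv : v ∈ src '' U
  · obtain ⟨e, he, rfl⟩ := hv
    obtain ⟨a, b⟩ := ih _ (hn ▸ (h1 e he).1) (tgt e) rfl
    rw [(h1 e he).2] at a b
    exact ⟨a, .head ⟨e, he, rfl, rfl⟩ b⟩
  · rw [h2 v hv]
    exact ⟨hv, .refl⟩

theorem lg4_top [Finite V] (h1 : InjOn src U) (h2 : ∀ e ∈ U, rk (tgt e) < rk (src e)) :
    ∃ top : V → V, (∀ e ∈ U, top (tgt e) = top (src e)) ∧ ∀ v, v ∉ src '' U → top v = v := by
  classical
  obtain ⟨f, f1, f2⟩ : ∃ f : V → V, (∀ e ∈ U, f (src e) = tgt e) ∧ ∀ v, v ∉ src '' U → f v = v :=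
    ⟨fun v => if h : v ∈ src '' U then tgt h.choose else v, fun e he => by
      have h : src e ∈ src '' U := ⟨e, he, rfl⟩
      simp only [dif_pos h]
      rw [h1 h.choose_spec.1 he h.choose_spec.2], fun v hv => dif_neg hv⟩
  have key : ∀ n v, rk v ≤ n → f^[n + 1] v = f^[n] v := fun n => by
    induction n with
    | zero =>
      refine fun v hv => f2 v ?_
      rintro ⟨e, he, rfl⟩
      have := h2 e he
      omega
    | succ n ih =>
      intro v hv
      by_cases h : v ∈ src '' U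
      · obtain ⟨e, he, rfl⟩ := h
        have := h2 e he
        have := ih (tgt e) (by omega)
        rwa [← f1 e he] at this
      · rw [iterate_fixed (f2 v h), iterate_fixed (f2 v h)]
  obtain ⟨N, hN⟩ := (Set.finite_range rk).bddAbove
  refine ⟨f^[N], fun e he => ?_, fun v hv => iterate_fixed (f2 v hv) _⟩
  rw [← f1 e he, ← iterate_succ_apply]
  exact key N _ (hN ⟨_, rfl⟩)

theorem lg4_init [Finite V]
    (hrev : ∀ e, Relation.ReflTransGen (fun a b => ∃ e, src e = a ∧ tgt e = b) (tgt e) (src e))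
    (R : Set V) (t : ℕ) : ∃ U rk top, Lg4 src tgt R t U rk top := by
  classical
  obtain ⟨G, hG⟩ : ∃ G, G = Relation.ReflTransGen fun a b => ∃ e, src e = a ∧ tgt e = b := ⟨_, rfl⟩
  have hq : Equivalence G := hG ▸ ⟨fun _ => .refl, fun h => by
    induction h with
    | refl => exact .refl
    | tail _ h ih => obtain ⟨e, rfl, rfl⟩ := h; exact (hrev e).trans ih, .trans⟩
  have he : ∀ e, G (src e) (tgt e) := fun e => hG ▸ .single ⟨e, rfl, rfl⟩
  obtain ⟨rep, r1, r2⟩ : ∃ rep : V → V, (∀ v, G v (rep v)) ∧ ∀ v w, G v w → rep v = rep w :=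
    ⟨fun v => (Quotient.mk ⟨G, hq⟩ v).out, fun v => hq.symm (Quotient.mk_out (s := ⟨G, hq⟩) v),
      fun v w h => congrArg Quotient.out (Quotient.sound (s := ⟨G, hq⟩) h)⟩
  obtain ⟨Q, hQ⟩ : ∃ Q : Set V, ∀ v, v ∈ Q ↔ v ∈ R ∨ rep v = v ∧ ∀ r ∈ R, ¬ G v r :=
    ⟨{v | _}, fun _ => Iff.rfl⟩
  obtain ⟨A, A0, A1⟩ : ∃ A : ℕ → V → Prop, (∀ v, A 0 v ↔ v ∈ Q) ∧
      ∀ n v, A (n + 1) v ↔ ∃ e, src e = v ∧ A n (tgt e) :=
    ⟨fun n => (fun p v => ∃ e, src e = v ∧ p (tgt e))^[n] (· ∈ Q), fun _ => Iff.rfl,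
      fun n v => by simp only [iterate_succ_apply']⟩
  have hA : ∀ v, ∃ n, A n v := fun v => by
    obtain ⟨w, hw, h⟩ : ∃ w ∈ Q, G v w := by
      by_cases h : ∃ r ∈ R, G v r
      · obtain ⟨r, a, b⟩ := h
        exact ⟨r, (hQ r).2 (.inl a), b⟩
      · exact ⟨rep v, (hQ _).2 (.inr ⟨(r2 _ _ (r1 v)).symm, fun r a b =>
          h ⟨r, a, hq.trans (r1 v) b⟩⟩), r1 v⟩
    rw [hG] at h
    induction h using Relation.ReflTransGen.head_induction_on with
    | refl => exact ⟨0, (A0 _).2 hw⟩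
    | head h _ ih =>
      obtain ⟨e, rfl, rfl⟩ := h
      obtain ⟨n, hn⟩ := ih
      exact ⟨n + 1, (A1 _ _).2 ⟨e, rfl, hn⟩⟩
  have hE : ∀ v : {v // v ∉ Q}, ∃ e, src e = v ∧ Nat.find (hA (tgt e)) < Nat.find (hA v) := fun v => by
    have h := Nat.find_spec (hA v)
    rcases hn : Nat.find (hA v) with _ | n
    · exact absurd ((A0 _).1 (hn ▸ h)) v.2
    · obtain ⟨e, a, b⟩ := (A1 _ _).1 (hn ▸ h)
      exact ⟨e, a, Nat.lt_succ_of_le (Nat.find_le b)⟩
  choose k k1 k2 using hE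
  have h1 : InjOn src (range k) := by
    rintro _ ⟨a, rfl⟩ _ ⟨b, rfl⟩ h
    rw [k1, k1] at h
    rw [Subtype.ext h]
  have h2 : ∀ e ∈ range k, Nat.find (hA (tgt e)) < Nat.find (hA (src e)) := by
    rintro _ ⟨a, rfl⟩
    rw [k1]; exact k2 a
  obtain ⟨top, t1, t2⟩ := lg4_top (rk := fun v => Nat.find (hA v)) h1 h2
  have h3 := lg4_path (rk := fun v => Nat.find (hA v)) (fun e he => ⟨h2 e he, t1 e he⟩) t2
  have h4 : ∀ v, top v ∈ Q := fun v => by_contra fun h => (h3 v).1 ⟨k ⟨_, h⟩, ⟨_, rfl⟩, k1 _⟩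
  have h5 : ∀ v, G v (top v) := fun v => hG ▸
    Relation.ReflTransGen.mono (fun _ _ ⟨e, _, h⟩ => ⟨e, h⟩) _ _ (h3 v).2
  refine ⟨range k, fun v => Nat.find (hA v), top, h1, fun e he => ⟨h2 e he, t1 e he, ?_⟩, t2,
    fun v => ((hQ _).1 (h4 v)).imp_right fun ⟨a, b⟩ => .inr fun e => ?_⟩
  · obtain ⟨a, rfl⟩ := he
    rw [k1]
    exact fun h => a.2 ((hQ _).2 (.inl h))
  · have : ∀ w, top w = top v ↔ G w (top v) := fun w => ⟨fun h => h ▸ h5 w, fun h => by
      have h6 := hq.trans (hq.symm h) (h5 w)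
      rcases (hQ _).1 (h4 w) with c | c
      · exact absurd h6 (b _ c)
      · rw [← c.1, ← a, r2 _ _ h6]⟩
    rw [this, this]
    exact ⟨hq.trans (hq.symm (he e)), hq.trans (he e)⟩

theorem lg4_eq (h : Lg4 src tgt R t U rk top) {a b : V}
    (hab : Relation.ReflTransGen (lg4s src tgt U) a b) : top a = top b := by
  induction hab with
  | refl => rfl
  | tail _ h' ih => obtain ⟨e, he, rfl, rfl⟩ := h'; exact ih.trans (h.2.1 e he).2.1.symm

theorem lg4_cut (h : Lg4 src tgt R t U rk top) {a : E} (ha : a ∈ U)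
    (h1 : t ≤ {v | Relation.ReflTransGen (lg4s src tgt U) v (src a)}.ncard)
    (h2 : t ≤ ({w | top w = top (src a)} \
      {v | Relation.ReflTransGen (lg4s src tgt U) v (src a)}).ncard) :
    ∃ top', Lg4 src tgt R t (U \ {a}) rk top' := by
  classical
  obtain ⟨S, hS⟩ : ∃ S, S = {v | Relation.ReflTransGen (lg4s src tgt U) v (src a)} := ⟨_, rfl⟩
  rw [← hS] at h1 h2
  have s0 : src a ∈ S := hS ▸ Relation.ReflTransGen.refl
  have s1 : ∀ v ∈ S, top v = top (src a) := fun v hv => lg4_eq h (hS ▸ hv :)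
  have s2 : ∀ v ∈ S, v = src a ∨ ∃ e ∈ U, src e = v ∧ tgt e ∈ S := fun v hv => by
    rw [hS] at hv ⊢
    rcases Relation.ReflTransGen.cases_head hv with h | ⟨_, ⟨e, he, rfl, rfl⟩, h⟩
    · exact .inl h
    · exact .inr ⟨e, he, rfl, h⟩
  have s3 : ∀ v, top v ≠ src a := fun v e =>
    (lg4_path (fun e he => ⟨(h.2.1 e he).1, (h.2.1 e he).2.1⟩) h.2.2.1 v).1 ⟨a, ha, e.symm⟩
  obtain ⟨f, f1, f2⟩ : ∃ f : V → V, (∀ v ∈ S, f v = src a) ∧ ∀ v, v ∉ S → f v = top v :=
    ⟨fun v => if v ∈ S then src a else top v, fun v h => if_pos h, fun v h => if_neg h⟩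
  have f3 : ∀ v w, top v ≠ top (src a) → (f w = top v ↔ top w = top v) := fun v w hv => by
    by_cases hw : w ∈ S
    · rw [f1 w hw, s1 w hw]
      exact iff_of_false (s3 v).symm hv.symm
    · rw [f2 w hw]
  refine ⟨f, h.1.mono sdiff_subset, fun e he => ⟨(h.2.1 e he.1).1, ?_, (h.2.1 e he.1).2.2⟩,
    fun v hv => ?_, fun v => ?_⟩
  · by_cases hs : src e ∈ S
    · rcases s2 _ hs with c | ⟨e', c1, c2, c3⟩
      · exact absurd (h.1 he.1 ha c) he.2
      · rw [h.1 c1 he.1 c2] at c3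
        rw [f1 _ hs, f1 _ c3]
    · rw [f2 _ hs, f2 _ fun c => hs (hS ▸ Relation.ReflTransGen.head ⟨e, he.1, rfl, rfl⟩
        (hS ▸ c :)), (h.2.1 e he.1).2.1]
  · by_cases hs : v = src a
    · rw [hs, f1 _ s0]
    · have h3 : v ∉ src '' U := by
        rintro ⟨e, he, rfl⟩
        exact hv ⟨e, ⟨he, fun c => hs (congrArg src c)⟩, rfl⟩
      rw [f2 v fun c => (s2 v c).elim hs fun ⟨e, c1, c2, _⟩ => h3 ⟨e, c1, c2⟩, h.2.2.1 v h3]
  · by_cases hv : v ∈ S
    · refine .inr (.inl (h1.trans_eq (congrArg _ (Set.ext fun w => ?_))))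
      rw [f1 v hv]
      exact ⟨f1 w, fun c => by_contra fun hw => s3 w ((f2 w hw).symm.trans c)⟩
    · rw [f2 v hv]
      by_cases hc : top v = top (src a)
      · refine .inr (.inl (h2.trans_eq (congrArg _ (Set.ext fun w => ?_))))
        rw [hc]
        refine ⟨fun c => (f2 w c.2).trans c.1, fun c => ?_⟩
        have hw : w ∉ S := fun hw => s3 _ (c.symm.trans (f1 w hw))
        exact ⟨(f2 w hw).symm.trans c, hw⟩
      · simp only [f3 v _ hc]
        exact h.2.2.2 v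

end

/-- Clusters in a finite directed multigraph with reversible edges. -/
theorem clus {V E : Type} [Finite V] [Finite E] (src tgt : E → V)
    (hrev : ∀ e, Relation.ReflTransGen (fun a b => ∃ e, src e = a ∧ tgt e = b) (tgt e) (src e))
    (R : Set V) {t n : ℕ} (ht : 0 < t) (hn : ∀ v, {e | tgt e = v}.ncard ≤ n) :
    ∃ (U : Set E) (rk : V → ℕ) (top : V → V), InjOn src U ∧
      (∀ e ∈ U, rk (tgt e) < rk (src e) ∧ top (tgt e) = top (src e) ∧ src e ∉ R) ∧
      (∀ v, v ∉ src '' U → top v = v) ∧ (∀ v, top v ∉ src '' U) ∧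
      (∀ v, Relation.ReflTransGen (fun a b => ∃ e ∈ U, src e = a ∧ tgt e = b) v (top v)) ∧
      (∀ v, top v ∈ R ∨ t ≤ {w | top w = top v}.ncard ∨
        ∀ e, top (src e) = top v ↔ top (tgt e) = top v) ∧
      ∀ v, {w | top w = v}.ncard ≤ (n + 1) * t := by
  classical
  obtain ⟨U, ⟨rk, top, h⟩, hm⟩ := (measure fun U : Set E => U.ncard).wf.has_min
    {U | ∃ rk top, Lg4 src tgt R t U rk top} (lg4_init hrev R t)
  have hp := lg4_path (fun e he => ⟨(h.2.1 e he).1, (h.2.1 e he).2.1⟩) h.2.2.1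
  refine ⟨U, rk, top, h.1, h.2.1, h.2.2.1, fun v => (hp v).1, fun v => (hp v).2, h.2.2.2,
    fun x => ?_⟩
  rcases {w | top w = x}.eq_empty_or_nonempty with e | ⟨v, rfl⟩
  · simp [e]
  obtain ⟨S, hS⟩ : ∃ S : V → Set V, ∀ a, S a = {v | Relation.ReflTransGen (lg4s src tgt U) v a} :=
    ⟨_, fun _ => rfl⟩
  have hv : top (top v) = top v := h.2.2.1 _ (hp v).1
  obtain ⟨a, ⟨a1, a2⟩, a3⟩ := Set.exists_max_image
    {a | top a = top v ∧ (a = top v ∨ t ≤ (S a).ncard)} rk (Set.toFinite _) ⟨top v, hv, .inl rfl⟩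
  have h1 : (S a).ncard ≤ 1 + n * (t - 1) := by
    have := Fintype.ofFinite E
    have := Fintype.ofFinite V
    have h2 : (S a).toFinset ⊆ insert a ((Finset.univ.filter fun e => e ∈ U ∧ tgt e = a).biUnion
        fun e => (S (src e)).toFinset) := fun w hw => by
      rw [Set.mem_toFinset, hS] at hw
      rcases Relation.ReflTransGen.cases_tail hw with c | ⟨_, c, e, he, rfl, rfl⟩
      · simp [c]
      · exact Finset.mem_insert_of_mem (Finset.mem_biUnion.2 ⟨e, by simp [he], by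
          rw [Set.mem_toFinset, hS]; exact c⟩)
    rw [Set.ncard_eq_toFinset_card', add_comm]
    refine (Finset.card_le_card h2).trans ((Finset.card_insert_le _ _).trans (Nat.succ_le_succ
      ((Finset.card_biUnion_le_card_mul _ _ (t - 1) fun e he => ?_).trans
        (Nat.mul_le_mul_right _ (le_trans ?_ (hn a))))))
    · replace he := (Finset.mem_filter.1 he).2
      obtain ⟨he, rfl⟩ := he
      rw [← Set.ncard_eq_toFinset_card']
      by_contra hc
      exact (h.2.1 e he).1.not_ge (a3 _ ⟨(h.2.1 e he).2.1.symm.trans a1, .inr (by omega)⟩)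
    · rw [← Set.ncard_coe_finset]
      exact Set.ncard_le_ncard fun e he => (Finset.mem_filter.1 he).2.2
  have h3 : n * (t - 1) ≤ n * t := Nat.mul_le_mul_left _ (by omega)
  rw [add_mul, one_mul]
  by_cases ha : a = top v
  · refine le_trans (Set.ncard_le_ncard fun w hw => ?_) (h1.trans (by omega))
    rw [hS, ha, ← hw]
    exact (hp w).2
  · obtain ⟨e, he, rfl⟩ : a ∈ src '' U := by_contra fun c => ha ((h.2.2.1 a c).symm.trans a1)
    have h4 : ({w | top w = top (src e)} \ S (src e)).ncard < t := by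
      by_contra hc
      obtain ⟨top', c⟩ := lg4_cut h he (hS _ ▸ a2.resolve_left ha) (hS _ ▸ not_lt.1 hc)
      exact hm _ ⟨rk, top', c⟩ (Set.ncard_sdiff_singleton_lt_of_mem he)
    have := Set.ncard_le_ncard_sdiff_add_ncard {w | top w = top (src e)} (S (src e))
    rw [← a1]
    omega

theorem ncard_le_mul_ncyc {D : Type} [Finite D] (q : Perm D) {n : ℕ} (hn : ∀ d, sz q d ≤ n)
    (S : Set D) : S.ncard ≤ n * ncyc q S := by
  classical
  have := Fintype.ofFinite D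
  rw [ncyc, Set.ncard_eq_toFinset_card', ← Set.coe_toFinset S, ← Finset.coe_image,
    Set.ncard_coe_finset, Finset.toFinset_coe]
  refine Finset.card_le_mul_card_image _ n fun v _ => ?_
  obtain ⟨d, rfl⟩ := Quotient.exists_rep v
  refine le_trans ?_ (hn d)
  rw [← Set.ncard_coe_finset]
  exact Set.ncard_le_ncard fun e he => (Quotient.exact (Finset.mem_filter.1 he).2).symm

/-- Clusters of cells of `q` along the edges `u → r u`. -/
theorem clus_perm {D : Type} [Finite D] (q r : Perm D) (Rt : Set D) (hR : ∀ d, q d ∈ Rt ↔ d ∈ Rt)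
    {t n : ℕ} (ht : 0 < t) (hn : ∀ d, sz q d ≤ n) :
    ∃ (U : Set D) (rk : D → ℕ) (top : D → D), (∀ d, rk (q d) = rk d) ∧ (∀ d, top (q d) = top d) ∧
      (∀ u ∈ U, rk (r u) < rk u ∧ top (r u) = top u ∧ u ∉ Rt) ∧
      (∀ u ∈ U, ∀ u' ∈ U, q.SameCycle u u' → u = u') ∧
      (∀ d, q.SameCycle d (top d) ∨ ∃ u ∈ U, q.SameCycle d u) ∧ (∀ d, top (top d) = top d) ∧
      (∀ d, ∀ u ∈ U, ¬ q.SameCycle u (top d)) ∧ (∀ d ∈ Rt, q.SameCycle d (top d)) ∧
      (∀ d, Relation.ReflTransGen (fun a b => q.SameCycle a b ∨ a ∈ U ∧ b = r a) d (top d)) ∧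
      (∀ d, top d ∈ Rt ∨ t ≤ ncyc q {e | top e = top d} ∨
        ∀ e, top (r e) = top d ↔ top e = top d) ∧
      (∀ d, ncyc q {e | top e = d} ≤ (n + 1) * t) ∧
      ∀ d, {e | top e = d}.ncard ≤ n * ((n + 1) * t) := by
  obtain ⟨c, hc⟩ : ∃ c, c = Quotient.mk (Perm.SameCycle.setoid q) := ⟨_, rfl⟩
  have c1 : ∀ d e, c d = c e ↔ q.SameCycle d e := fun d e => hc ▸ Quotient.eq
  have c2 : ∀ v, c v.out = v := fun v => hc ▸ Quotient.out_eq v
  have c3 : ∀ d, c (q d) = c d := fun d => (c1 _ _).2 (Perm.sameCycle_apply_left.2 (.refl _ _))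
  have c0 : ∀ (k : ℕ) e, e ∈ Rt → (q ^ k) e ∈ Rt := fun k e he => by
    induction k with
    | zero => exact he
    | succ k ih => rwa [pow_succ', Perm.mul_apply, hR]
  have c4 : ∀ d, c d ∈ c '' Rt → d ∈ Rt := fun d ⟨e, he, h⟩ => by
    obtain ⟨k, rfl⟩ := ((c1 _ _).1 h).exists_nat_pow_eq
    exact c0 k e he
  obtain ⟨U, rk, top, h1, h2, h3, h4, h5, h6, h7⟩ := clus c (fun u => c (r u)) (fun u => by
      obtain ⟨k, hk⟩ := (Perm.sameCycle_apply_left.2 (Perm.SameCycle.refl r u)).exists_nat_pow_eq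
      rw [← congrArg c hk]
      clear hk
      induction k with
      | zero => exact .refl
      | succ k ih => exact ih.tail ⟨_, rfl, by rw [pow_succ', Perm.mul_apply]⟩) (c '' Rt) ht
    fun v => (Set.ncard_le_ncard_of_injOn r (fun e he => (c1 _ _).1 ((c2 v).trans he.symm))
      r.injective.injOn).trans (hn v.out)
  have c5 : ∀ d e, (top (c e)).out = (top (c d)).out ↔ top (c e) = top (c d) :=
    fun _ _ => Quotient.out_inj
  have c6 : ∀ d, ncyc q {e | (top (c e)).out = (top (c d)).out} =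
      {w | top w = top (c d)}.ncard := fun d => by
    simp only [c5]
    rw [ncyc, ← hc]
    exact congrArg _ (Set.image_preimage_eq {w | top w = top (c d)} fun v => ⟨_, c2 v⟩)
  have c7 : ∀ d, ncyc q {e | (top (c e)).out = d} ≤ (n + 1) * t := fun d => by
    rcases {e | (top (c e)).out = d}.eq_empty_or_nonempty with e | ⟨v, rfl⟩
    · simp [e, ncyc]
    · exact (c6 v).trans_le (h7 _)
  have c8 : ∀ d, c d ∉ c '' U → q.SameCycle d (top (c d)).out := fun d h =>
    (c1 _ _).1 (by rw [c2, h3 _ h])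
  refine ⟨U, fun d => rk (c d), fun d => (top (c d)).out, fun d => by simp only [c3],
    fun d => by simp only [c3], fun u hu => ⟨(h2 u hu).1, congrArg _ (h2 u hu).2.1,
      fun h => (h2 u hu).2.2 ⟨u, h, rfl⟩⟩, fun u hu u' hu' h => h1 hu hu' ((c1 _ _).2 h),
    fun d => ?_, fun d => by simp only [c2, h3 _ (h4 _)],
    fun d u hu h => h4 (c d) ⟨u, hu, ((c1 _ _).2 h).trans (c2 _)⟩,
    fun d hd => c8 d fun ⟨u, hu, h⟩ => (h2 u hu).2.2 ⟨d, hd, h.symm⟩, fun d => ?_, fun d => ?_,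
    c7, fun d => (ncard_le_mul_ncyc q hn _).trans (Nat.mul_le_mul_left _ (c7 d))⟩
  · by_cases h : c d ∈ c '' U
    · obtain ⟨u, hu, h⟩ := h
      exact .inr ⟨u, hu, (c1 _ _).1 h.symm⟩
    · exact .inl (c8 d h)
  · have : ∀ v, Relation.ReflTransGen (fun a b => ∃ e ∈ U, c e = a ∧ c (r e) = b) (c d) v →
        Relation.ReflTransGen (fun a b => q.SameCycle a b ∨ a ∈ U ∧ b = r a) d v.out :=
      fun v hv => by
      induction hv with
      | refl => exact .single (.inl ((c1 _ _).1 (c2 _).symm))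
      | tail _ h ih =>
        obtain ⟨e, he, rfl, rfl⟩ := h
        exact ((ih.tail (.inl ((c1 _ _).1 (c2 _)))).tail (.inr ⟨he, rfl⟩)).tail
          (.inl ((c1 _ _).1 (c2 _).symm))
    exact this _ (h5 _)
  · rcases h6 (c d) with h | h | h
    · exact .inl (c4 _ (by rwa [c2]))
    · exact .inr (.inl (h.trans_eq (c6 d).symm))
    · exact .inr (.inr fun e => by simp only [c5]; exact (h e).symm)

end Pool.Agent.MC.LL
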