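import Pool.Agent.P.MP_2677b3_gt.LX7
import Pool.Agent.P.MP_2677b3_gt.LC2
import Pool.Agent.P.MP_2677b3_gt.LN1

open Equiv Function UpperHalfPlane MeasureTheory
open scoped ENNReal MatrixGroups

noncomputable section

namespace Pool.Agent.MC.LL

theorem lmain_num (C κ N : ℕ) {a : ℝ} (hN : N ≠ 0) (ha : Real.exp 5 ≤ a) (h : (N : ℝ) ≤ a ^ 2) :
    ((C * 2 ^ (κ * (Nat.log 2 (Nat.log 2 N + 1) + 1) ^ 4) : ℕ) : ℝ) ≤
      Real.exp ((C + 625 * κ) * Real.log (Real.log a) ^ 4) := by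
  have h2 : (1 / 2 : ℝ) < Real.log 2 := by linarith [Real.log_two_gt_d9]
  have h2' : Real.log 2 < 1 := by linarith [Real.log_two_lt_d9]
  have a0 : 0 < a := (Real.exp_pos 5).trans_le ha
  have a1 : 5 ≤ Real.log a := (Real.le_log_iff_exp_le a0).2 ha
  have a2 : 1 ≤ Real.log (Real.log a) := (Real.le_log_iff_exp_le (by linarith)).2
    (by linarith [Real.exp_one_lt_d9])
  have key : ∀ (n : ℕ) (x : ℝ), n ≠ 0 → 1 ≤ x → (n : ℝ) ≤ x ^ 2 →
      (Nat.log 2 n : ℝ) ≤ 4 * Real.log x := by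
    intro n x hn hx hnx
    have b1 : ((2 : ℝ)) ^ Nat.log 2 n ≤ x ^ 2 :=
      le_trans (by exact_mod_cast Nat.pow_log_le_self 2 hn) hnx
    have b2 := Real.log_le_log (by positivity) b1
    rw [Real.log_pow, Real.log_pow] at b2
    have b3 : (0 : ℝ) ≤ Nat.log 2 n := Nat.cast_nonneg _
    push_cast at b2
    nlinarith
  have b1 := key N a hN (by linarith [Real.add_one_le_exp 5]) h
  have b2 := key (Nat.log 2 N + 1) (Real.log a) (by omega) (by linarith) (by push_cast; nlinarith)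
  set L := Real.log (Real.log a)
  set k := Nat.log 2 (Nat.log 2 N + 1)
  have b3 : ((k : ℝ) + 1) ^ 4 ≤ (5 * L) ^ 4 := by gcongr; linarith
  have b4 : 1 ≤ L ^ 4 := one_le_pow₀ a2
  have c1 : (C : ℝ) ≤ Real.exp (C * L ^ 4) := by
    have := Real.add_one_le_exp (C * L ^ 4)
    nlinarith [(Nat.cast_nonneg C : (0 : ℝ) ≤ C)]
  have c2 : (2 : ℝ) ^ (κ * (k + 1) ^ 4) ≤ Real.exp (625 * κ * L ^ 4) := by
    rw [← Real.exp_log two_pos, ← Real.exp_nat_mul, Real.exp_le_exp]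
    push_cast
    have d1 : (0 : ℝ) ≤ κ * ((k : ℝ) + 1) ^ 4 := by positivity
    have d2 : (κ : ℝ) * ((k : ℝ) + 1) ^ 4 ≤ κ * (5 * L) ^ 4 := by gcongr
    nlinarith
  rw [add_mul, Real.exp_add]
  push_cast
  gcongr

theorem main (GX : Subgroup (Perm ℍ)) (εX : ℝ) (hεX : 0 < εX) (hX : Fuchs GX εX)
    (hg : Nonempty (GX ≃* Pi2)) (ε : ℝ) (hε : 0 < ε) :
    ∃ C a₀ : ℝ, ∀ GY : Subgroup (Perm ℍ), Fuchs GY ε → ∀ a : ℝ, a₀ ≤ a →
      area GY 1 = ENNReal.ofReal a →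
      ∃ Λ : Subgroup (Perm ℍ), Λ ≤ GX ∧ Λ.relIndex GX ≠ 0 ∧ ∃ θ : GY ≃* Λ, ∀ γ : GY,
        ext Λ (θ γ).1 ≤ ENNReal.ofReal (Real.exp (C * Real.log (Real.log a) ^ 4)) *
          ext GY γ.1 := by
  obtain ⟨e⟩ := hg
  obtain ⟨Δ, K, K₁, Cn, -, hgeo⟩ := geo2 ε hε
  obtain ⟨κ, l₀, hcomb⟩ := comb Δ K
  obtain ⟨C, hC⟩ := geo_final GX εX hεX hX e ε K₁ hε
  obtain ⟨C₁, h₁⟩ := area_le K₁
  obtain ⟨C₂, h₂⟩ := card_le (Cn 1)
  refine ⟨C + 625 * κ, max (max (Real.exp 5) C₂) (C₁ * 2 ^ l₀ + 1), fun GY hY a ha har => ?_⟩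
  obtain ⟨M, g, hM, hfull, hcnt, hne⟩ := hgeo GY hY
  have a1 : Real.exp 5 ≤ a := ((le_max_left _ _).trans (le_max_left _ _)).trans ha
  have a2 : (C₂ : ℝ) ≤ a := ((le_max_right _ _).trans (le_max_left _ _)).trans ha
  have a3 : (C₁ : ℝ) * 2 ^ l₀ + 1 ≤ a := (le_max_right _ _).trans ha
  have a0 : 0 < a := (Real.exp_pos 5).trans_le a1
  have b1 : a ≤ C₁ * Fintype.card M.D := by
    have := h₁ GY ε hY M g hne
    rw [show area GY (fun _ => 1) = ENNReal.ofReal a from har, ← ENNReal.ofReal_natCast,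
      ENNReal.ofReal_le_ofReal_iff (Nat.cast_nonneg _)] at this
    exact_mod_cast this
  have b2 : (Fintype.card M.D : ℝ) ≤ C₂ * a := by
    have := h₂ GY ε hε hY M.D (fun d => g.pt (M.gd.src d)) fun w => by
      obtain ⟨f1, f2⟩ := hcnt w 1
      refine le_trans (Set.encard_le_encard_of_injOn (f := Prod.swap) (fun p hp => ?_)
        Prod.swap_injective.injOn) (f1.cast_ncard_eq.symm.trans_le (by exact_mod_cast f2))
      exact le_of_lt (Set.mem_ofPred_eq ▸ hp :)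
    rw [show area GY (fun _ => 1) = ENNReal.ofReal a from har, ← ENNReal.ofReal_natCast,
      ← ENNReal.ofReal_natCast, ← ENNReal.ofReal_mul (Nat.cast_nonneg _),
      ENNReal.ofReal_le_ofReal_iff (by positivity)] at this
    exact this
  have hN : Fintype.card M.D ≠ 0 := Fintype.card_ne_zero
  have b3 : 2 ^ l₀ ≤ Fintype.card M.D := by
    by_contra hlt
    have c1 : (Fintype.card M.D : ℝ) ≤ 2 ^ l₀ := by exact_mod_cast (not_le.1 hlt).le
    have c2 : (C₁ : ℝ) * Fintype.card M.D ≤ C₁ * 2 ^ l₀ := by gcongr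
    linarith
  obtain ⟨A, hA⟩ := hcomb M (Nat.log 2 (Fintype.card M.D) + 1) hM
    ((Nat.le_log_of_pow_le one_lt_two b3).trans (Nat.le_succ _))
    (by rw [Nat.card_eq_fintype_card]; exact (Nat.lt_pow_succ_log_self one_lt_two _).le)
    (by
      rw [Nat.card_eq_fintype_card, pow_succ']
      exact Nat.mul_le_mul_left _ (Nat.pow_log_le_self 2 hN))
  have : Countable M.gd.E := inferInstanceAs (Countable M.D)
  obtain ⟨d⟩ := hne
  obtain ⟨Λ, l1, l2, θ, hθ⟩ := hC GY hY M.gd g hfull ⟨M.gd.src d⟩ A _ (by positivity) hA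
  refine ⟨Λ, l1, l2, θ, fun γ => (hθ γ).trans ?_⟩
  gcongr
  rw [← ENNReal.ofReal_natCast]
  exact ENNReal.ofReal_le_ofReal (lmain_num C κ _ hN a1 (by nlinarith))

end Pool.Agent.MC.LL
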