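import Pool.Agent.P.MP_2677b3_gt.LPord

open Equiv Function

noncomputable section

namespace Pool.Agent.MC.LL

variable {D I : Type} [Finite D] [Finite I] {x x' : Fin 6 → Perm D}
  {rel : x 5 * x 4 * x 3 * x 2 * x 1 * x 0 = 1} {rel' : x' 5 * x' 4 * x' 3 * x' 2 * x' 1 * x' 0 = 1}
  {pos pos' : I × Bool → D} {n : ℕ}

/-- Pull-back along a renaming. -/
def lpiso_fm {A B : St} (e : A.D ≃ B.D) (σ : A.I ≃ B.I) : Fm A B :=
  ⟨e, fun _ _ V => ⟨fun i d => V.X i (e d), fun j => V.c (σ j), fun j => V.t (σ j)⟩⟩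

theorem lpiso_rl {A B : St} (e : A.D ≃ B.D) (σ : A.I ≃ B.I)
    (hx : ∀ i d, e (A.x i d) = B.x i (e d)) (hp : ∀ j k, e (A.pos (j, k)) = B.pos (σ j, k))
    (hf : ∀ d, B.ft (e d) = (A.ft d).map (Prod.map σ id)) (n : ℕ) :
    (lpiso_fm e σ).Rl A.x (Q 0 n) 0 e.symm where
  x i d := (Rz.ex (B := B) i (d := e d) (e.symm_apply_apply d)).cg (Q_pos 0 n) rfl (hx i d).symm
    fun _ _ _ _ => rfl
  c j := (Rz.ec (B := B) (σ j) false ⟨false, by
    rw [← hp]; exact e.symm_apply_apply _⟩).cg (Q_pos 0 n) (hp j false).symm (hp j false).symm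
    fun _ _ _ _ => rfl
  t j := (Rz.et (B := B) (σ j) false ⟨false, by
    rw [← hp]; exact e.symm_apply_apply _⟩).cg (Q_pos 0 n) (hp j true).symm (hp j false).symm
    fun _ _ _ _ => rfl
  ok Γ _ V hV := by
    refine ⟨fun i => ?_, fun d => ?_⟩
    · obtain ⟨π, hπ⟩ := hV.pot i
      exact ⟨fun d => π (e d), fun d => by
        change π (e (A.x i d)) = π (e d) * V.X i (e d)
        rw [hx, hπ]⟩
    · have h := hV.face (e d)
      have hl : ((lpiso_fm e σ).F Γ V).lt = V.lt ∘ Prod.map σ id := by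
        funext ⟨j, k⟩
        cases k <;> rfl
      rw [hf, List.map_map, ← hl] at h
      simp only [← hx] at h
      exact h

theorem lpiso_bk {A B : St} (e : A.D ≃ B.D) (σ : A.I ≃ B.I) :
    (lpiso_fm e σ).Bk (lpiso_fm e.symm σ.symm) :=
  Fm.bk_of_eq (fun d => e.symm_apply_apply d) fun _ _ V _ =>
    Vl.ext' (fun i d => congrArg (V.X i) (e.symm_apply_apply d))
      (fun j => congrArg V.c (σ.symm_apply_apply j)) (fun j => congrArg V.t (σ.symm_apply_apply j))

theorem lpiso_qe {A B : St} (e : A.D ≃ B.D) (σ : A.I ≃ B.I)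
    (hx : ∀ i d, e (A.x i d) = B.x i (e d)) (hp : ∀ j k, e (A.pos (j, k)) = B.pos (σ j, k))
    (hf : ∀ d, B.ft (e d) = (A.ft d).map (Prod.map σ id)) {n : ℕ} (hA : A.Bd n) (hB : B.Bd n) :
    Qe (Q 6 n) A.gd B.gd := by
  refine qe_of_fm (k := 0) (m := 0) (lpiso_fm e σ) (lpiso_fm e.symm σ.symm) hA hB hA.1 hB.1
    (lpiso_rl e σ hx hp hf n) (lpiso_rl e.symm σ.symm (fun i d => ?_) (fun j k => ?_)
      (fun d => ?_) n) (lpiso_bk e σ) (lpiso_bk e.symm σ.symm)
  · rw [Equiv.symm_apply_eq, hx, e.apply_symm_apply]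
  · rw [Equiv.symm_apply_eq, hp, σ.apply_symm_apply]
  · have h := hf (e.symm d)
    rw [e.apply_symm_apply] at h
    rw [h, List.map_map]
    have : Prod.map σ.symm id ∘ Prod.map σ id = (id : A.I × Bool → A.I × Bool) := by
      funext ⟨j, k⟩
      simp
    rw [this, List.map_id]

theorem p_iso {D' I' : Type} [Finite D'] [Finite I'] {z : Fin 6 → Perm D'}
    {relz : z 5 * z 4 * z 3 * z 2 * z 1 * z 0 = 1} {q : I' × Bool → D'} (e : D ≃ D') (σ : I ≃ I')
    (hx : ∀ i d, e (x i d) = z i (e d)) (hp : ∀ j k, e (pos (j, k)) = q (σ j, k))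
    (h : Bd6 x pos n) : Qe (Q 100 n) (can x rel pos).gd (can z relz q).gd := by
  have hA : (can x rel pos).Bd n := can_bd.2 h
  let B : St :=
    { D := D', fD := inferInstance, x := z, rel := relz, I := I', fI := inferInstance, pos := q
      ft := fun d => ((can x rel pos).ft (e.symm d)).map (Prod.map σ id)
      nd := fun d => ((can x rel pos).nd _).map (σ.injective.prodMap injective_id)
      mem := fun d φ => by
        rw [List.mem_map]
        constructor
        · rintro ⟨⟨j, k⟩, h1, rfl⟩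
          have h2 : pos (j, k) = e.symm d := ((can x rel pos).mem _ _).1 h1
          change q (σ j, k) = d
          rw [← hp, h2, e.apply_symm_apply]
        · intro h1
          refine ⟨(σ.symm φ.1, φ.2), ((can x rel pos).mem _ _).2 ?_, by simp⟩
          change pos (σ.symm φ.1, φ.2) = e.symm d
          rw [Equiv.eq_symm_apply, hp, σ.apply_symm_apply]
          exact h1 }
  have hB : B.Bd n := by
    refine ⟨fun i d => ?_, fun d => ?_⟩
    · have := (sc_map (σ := x i) (σ' := z i) e e.injective Set.univ (by simp)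
        (fun d _ => (hx i d).symm) (Set.mem_univ (e.symm d))).2
      rw [e.apply_symm_apply] at this
      exact this.trans_le (h.1 i _)
    · exact (List.length_map _).trans_le (hA.2 _)
  have h1 : Qe (Q 6 n) (can x rel pos).gd B.gd :=
    lpiso_qe (A := can x rel pos) (B := B) e σ hx hp
      (fun d => by
        change ((can x rel pos).ft (e.symm (e d))).map _ = _
        rw [e.symm_apply_apply]) hA hB
  exact (h1.transQ (qe_can B hB)).monoQ (by norm_num) le_rfl

end Pool.Agent.MC.LL
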