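import Pool.Agent.P.MP_2677b3_gt.LS3

open Equiv Function

noncomputable section

namespace Pool.Agent.MC.LL

section lists
variable {ι Γ : Type} [Group Γ]

/-- The letters that come before `k` in the first order and after `k` in the second. -/
def ordU (L : List ι) (r r' : ι → ℕ) (l : ι → Γ) (k : ι) : Γ :=
  ((L.filter fun j => decide (r j < r k ∧ r' k < r' j)).map l).prod

theorem ord_claim (L L' : List ι) (r r' : ι → ℕ) (hL : L.Pairwise fun a b => r a < r b)
    (hL' : L'.Pairwise fun a b => r' a < r' b) (hm : ∀ a, a ∈ L ↔ a ∈ L') (l l' : ι → Γ)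
    (H : ∀ k ∈ L, l' k = ordU L r r' l k * l k * (ordU L r r' l k)⁻¹ ∨
      l k = (ordU L' r r' l' k)⁻¹ * l' k * ordU L' r r' l' k) (n : ℕ) :
    ∀ J : ι → Bool, (L'.filter J).length = n →
      (∀ j, J j = true → ∀ i, r i < r j → r' j < r' i → J i = true) →
      ((L.filter J).map l).prod = ((L'.filter J).map l').prod := by
  induction n using Nat.strong_induction_on with
  | _ n ih =>
    intro J hn hJ
    rcases e : L'.filter J with _ | ⟨k, T⟩
    · have : L.filter J = [] := by
        rw [List.filter_eq_nil_iff] at e ⊢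
        exact fun a ha => e a ((hm a).1 ha)
      rw [this]; rfl
    · have hk : k ∈ L'.filter J := by rw [e]; simp
      obtain ⟨kL', kJ⟩ := List.mem_filter.1 hk
      have kL := (hm k).2 kL'
      have pw : (k :: T).Pairwise fun a b => r' a < r' b := e ▸ hL'.filter J
      have first : ∀ j ∈ L, J j = true → r j ≠ r k → r' k < r' j := by
        intro j hj jJ hne
        have : j ∈ k :: T := e ▸ List.mem_filter.2 ⟨(hm j).1 hj, jJ⟩
        rcases List.mem_cons.1 this with rfl | h
        · exact absurd rfl hne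
        · exact (List.pairwise_cons.1 pw).1 j h
      let J' : ι → Bool := fun j => decide (r' k < r' j) && J j
      have eT : L'.filter J' = T := by
        rw [← List.filter_filter, e, List.filter_cons_of_neg (by simp), List.filter_eq_self]
        exact fun a ha => by simpa using (List.pairwise_cons.1 pw).1 a ha
      have lenT : T.length < n := by rw [← hn, e]; simp
      have i1 := ih _ lenT J' (by rw [eT]) (fun j hj i h1 h2 => by
        simp only [J', Bool.and_eq_true, decide_eq_true_eq] at hj ⊢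
        exact ⟨by omega, hJ j hj.2 i h1 h2⟩)
      have i2 : ordU L r r' l k = ordU L' r r' l' k := by
        refine ih _ (lt_of_le_of_lt ?_ lenT) _ rfl (fun j hj i h1 h2 => ?_)
        · rw [← eT]
          refine (List.monotone_filter_right L' fun j hj => ?_).length_le
          simp only [J', Bool.and_eq_true, decide_eq_true_eq] at hj ⊢
          exact ⟨hj.2, hJ k kJ j hj.1 hj.2⟩
        · simp only [decide_eq_true_eq] at hj ⊢
          omega
      obtain ⟨A, B, rfl⟩ := List.append_of_mem kL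
      rw [List.pairwise_append, List.pairwise_cons] at hL
      have hA : ∀ j ∈ A, r j < r k := fun j hj => hL.2.2 j hj k (by simp)
      have hB : ∀ j ∈ B, r k < r j := hL.2.1.1
      have e1 : (A ++ k :: B).filter J' = A.filter J ++ B.filter J := by
        rw [List.filter_append, List.filter_cons_of_neg (by simp [J'])]
        congr 1 <;> refine List.filter_congr fun j hj => ?_
        · cases c : J j
          · simp [J', c]
          · simpa [J', c] using first j (by simp [hj]) c (hA j hj).ne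
        · cases c : J j
          · simp [J', c]
          · simpa [J', c] using first j (by simp [hj]) c (hB j hj).ne'
      have e2 : ordU (A ++ k :: B) r r' l k = ((A.filter J).map l).prod := by
        unfold ordU
        rw [List.filter_append, List.filter_cons_of_neg (by simp)]
        have z : B.filter (fun j => decide (r j < r k ∧ r' k < r' j)) = [] := by
          rw [List.filter_eq_nil_iff]
          intro j hj
          have := hB j hj
          simp only [decide_eq_true_eq]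
          omega
        rw [z, List.append_nil]
        congr 2
        refine List.filter_congr fun j hj => ?_
        cases c : J j
        · rw [decide_eq_false_iff_not]
          intro h
          rw [hJ k kJ j h.1 h.2] at c
          exact absurd c (by simp)
        · simpa using ⟨hA j hj, first j (by simp [hj]) c (hA j hj).ne⟩
      have e3 : l' k = ordU (A ++ k :: B) r r' l k * l k * (ordU (A ++ k :: B) r r' l k)⁻¹ := by
        rcases H k kL with h | h
        · exact h
        · rw [i2, h]; group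
      rw [e1, eT] at i1
      rw [List.filter_append, List.filter_cons_of_pos kJ]
      simp only [List.map_append, List.map_cons, List.prod_append, List.prod_cons] at i1 ⊢
      rw [← i1, e3, e2]
      group

theorem ord_all (L L' : List ι) (r r' : ι → ℕ) (hL : L.Pairwise fun a b => r a < r b)
    (hL' : L'.Pairwise fun a b => r' a < r' b) (hm : ∀ a, a ∈ L ↔ a ∈ L') (l l' : ι → Γ)
    (H : ∀ k ∈ L, l' k = ordU L r r' l k * l k * (ordU L r r' l k)⁻¹ ∨
      l k = (ordU L' r r' l' k)⁻¹ * l' k * ordU L' r r' l' k) :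
    (L.map l).prod = (L'.map l').prod ∧ ∀ k, ordU L r r' l k = ordU L' r r' l' k := by
  refine ⟨?_, fun k => ord_claim L L' r r' hL hL' hm l l' H _ _ rfl fun j hj i h1 h2 => ?_⟩
  · simpa using ord_claim L L' r r' hL hL' hm l l' H _ (fun _ => true) rfl fun _ _ _ _ _ => rfl
  · simp only [decide_eq_true_eq] at hj ⊢
    omega

end lists

theorem St.exists_rank (S : St) :
    ∃ r : S.I × Bool → ℕ, ∀ d, (S.ft d).Pairwise fun a b => r a < r b := by
  classical
  refine ⟨fun φ => (S.ft (S.pos φ)).idxOf φ, fun d => ?_⟩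
  rw [List.pairwise_iff_getElem]
  intro i j hi hj hij
  simp only [(S.mem d _).1 (List.getElem_mem hi), (S.mem d _).1 (List.getElem_mem hj),
    List.Nodup.idxOf_getElem (S.nd d)]
  exact hij

/-- The same state with other lists. -/
abbrev St.re (S : St) (ft : S.D → List (S.I × Bool)) (nd : ∀ d, (ft d).Nodup)
    (mem : ∀ d φ, φ ∈ ft d ↔ S.pos φ = d) : St := { S with ft := ft, nd := nd, mem := mem }

section
variable (S : St) {ft ft' : S.D → List (S.I × Bool)} (nd : ∀ d, (ft d).Nodup)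
  (mem : ∀ d φ, φ ∈ ft d ↔ S.pos φ = d) (nd' : ∀ d, (ft' d).Nodup)
  (mem' : ∀ d φ, φ ∈ ft' d ↔ S.pos φ = d)

/-- Conjugation of all letters. -/
def ordF (u : S.I × Bool → Fn (S.re ft' nd' mem')) : Fm (S.re ft nd mem) (S.re ft' nd' mem') :=
  ⟨id, fun Γ _ V => ⟨V.X, fun j => u (j, false) Γ V * V.c j * (u (j, false) Γ V)⁻¹,
    fun j => u (j, true) Γ V * V.t j * (u (j, false) Γ V)⁻¹⟩⟩

theorem ordF_lt (u : S.I × Bool → Fn (S.re ft' nd' mem')) (Γ : Type) [Group Γ]
    (V : Vl (S.re ft' nd' mem') Γ) (φ : S.I × Bool) :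
    ((ordF S nd mem nd' mem' u).F Γ V).lt φ = u φ Γ V * V.lt φ * (u φ Γ V)⁻¹ := by
  rcases φ with ⟨j, _ | _⟩
  · rfl
  · simp only [ordF, Vl.lt]; group

theorem ordF_rl (u : S.I × Bool → Fn (S.re ft' nd' mem')) {K K' : ℕ} (hK : 2 * K + 1 ≤ K')
    (hu : ∀ φ, Rz (S.re ft' nd' mem') (fun z => z = S.pos φ) K (S.pos φ) (S.pos φ) (u φ))
    (hp : ∀ (Γ : Type) [Group Γ] (V : Vl (S.re ft' nd' mem') Γ), V.Ok → ∀ d,
      ((ft d).map ((ordF S nd mem nd' mem' u).F Γ V).lt).prod = ((ft' d).map V.lt).prod) :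
    (ordF S nd mem nd' mem' u).Rl S.x K' 0 id := by
  have hu' : ∀ j k, Rz (S.re ft' nd' mem') (fun z => ∃ k, Nr S.x 0 z (S.pos (j, k))) K
      (S.pos (j, k)) (S.pos (j, k)) (u (j, k)) := fun j k => (hu _).mono fun z hz => ⟨k, hz⟩
  refine ⟨fun i d => ?_, fun j => ?_, fun j => ?_, fun Γ _ V hV => ⟨hV.pot, fun d => ?_⟩⟩
  · have h1 : 1 ≤ K' := by omega
    exact (Rz.ex (B := S.re ft' nd' mem') (N := fun u => Nr S.x 0 u d) i (Nr.z _ d)).le h1
  · exact (((hu' j false).mul (Rz.ec (B := S.re ft' nd' mem') j false ⟨false, Nr.z _ _⟩)).mul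
      (hu' j false).inv).le (by omega)
  · exact (((hu' j true).mul (Rz.et (B := S.re ft' nd' mem') j false ⟨false, Nr.z _ _⟩)).mul
      (hu' j false).inv).le (by omega)
  · have := hV.face d
    rw [← hp Γ V hV d] at this
    exact this

theorem ord_rz (L : List (S.I × Bool)) (r r' : S.I × Bool → ℕ) {n : ℕ} {d : S.D}
    (hL : ∀ φ ∈ L, S.pos φ = d) (hn : L.length ≤ n) (k : S.I × Bool) :
    Rz (S.re ft nd mem) (fun z => z = d) (3 * n) d d (fun _ _ V => ordU L r r' V.lt k) := by
  refine (Rz.prod (K := 3) _ (fun φ _ _ V => V.lt φ) fun φ hφ => ?_).le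
    (Nat.mul_le_mul_left 3 ((List.length_filter_le _ _).trans hn))
  have e := hL φ (List.mem_filter.1 hφ).1
  exact (Rz.lt (B := S.re ft nd mem) φ e).ends e e

theorem qe_re {n : ℕ} (h : (S.re ft nd mem).Bd n) (h' : (S.re ft' nd' mem').Bd n) :
    Qe (Q 12 n) (S.re ft nd mem).gd (S.re ft' nd' mem').gd := by
  obtain ⟨r, hr⟩ := (S.re ft nd mem).exists_rank
  obtain ⟨r', hr'⟩ := (S.re ft' nd' mem').exists_rank
  have hm : ∀ d a, a ∈ ft d ↔ a ∈ ft' d := fun d a => by rw [mem, mem']
  have hK : 2 * (3 * n) + 1 ≤ Q 3 n := by unfold Q; nlinarith [Nat.zero_le (n ^ 3), Nat.zero_le (n ^ 2)]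
  let u : S.I × Bool → Fn (S.re ft nd mem) := fun φ _ _ V => ordU (ft (S.pos φ)) r r' V.lt φ
  let w : S.I × Bool → Fn (S.re ft' nd' mem') := fun φ _ _ V =>
    (ordU (ft' (S.pos φ)) r r' V.lt φ)⁻¹
  have k1 : ∀ (Γ : Type) [Group Γ] (V : Vl (S.re ft nd mem) Γ) (d : S.D), _ := fun Γ _ V d =>
    ord_all (ft d) (ft' d) r r' (hr d) (hr' d) (hm d) V.lt ((ordF S nd' mem' nd mem u).F Γ V).lt
      fun k hk => Or.inl (by rw [ordF_lt, ← (mem d k).1 hk])
  have k2 : ∀ (Γ : Type) [Group Γ] (V : Vl (S.re ft' nd' mem') Γ) (d : S.D), _ := fun Γ _ V d =>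
    ord_all (ft d) (ft' d) r r' (hr d) (hr' d) (hm d) ((ordF S nd mem nd' mem' w).F Γ V).lt V.lt
      fun k hk => Or.inr (by rw [ordF_lt, ← (mem d k).1 hk]; simp only [w, inv_inv])
  refine qe_of_fm (k := 3) (m := 0) (ordF S nd mem nd' mem' w) (ordF S nd' mem' nd mem u) h h'
    h.1 h.1
    (ordF_rl S nd mem nd' mem' w hK (fun φ => (ord_rz S nd' mem' _ r r'
      (fun ψ hψ => (mem' _ ψ).1 hψ) (h'.2 _) φ).inv) fun Γ _ V _ d => (k2 Γ V d).1)
    (ordF_rl S nd' mem' nd mem u hK (fun φ => ord_rz S nd mem _ r r'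
      (fun ψ hψ => (mem _ ψ).1 hψ) (h.2 _) φ) fun Γ _ V _ d => (k1 Γ V d).1.symm)
    (Fm.bk_of_eq (fun _ => rfl) fun Γ _ V _ => ?_) (Fm.bk_of_eq (fun _ => rfl) fun Γ _ V _ => ?_)
  · have e : ∀ φ, w φ Γ ((ordF S nd' mem' nd mem u).F Γ V) = (u φ Γ V)⁻¹ := fun φ =>
      congrArg Inv.inv ((k1 Γ V _).2 φ).symm
    refine Vl.ext' (fun _ _ => rfl) (fun j => ?_) (fun j => ?_)
    · show w _ Γ _ * (u _ Γ V * V.c j * (u _ Γ V)⁻¹) * (w _ Γ _)⁻¹ = _
      rw [e]; group
    · show w _ Γ _ * (u _ Γ V * V.t j * (u _ Γ V)⁻¹) * (w _ Γ _)⁻¹ = _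
      rw [e, e]; group
  · have e : ∀ φ, u φ Γ ((ordF S nd mem nd' mem' w).F Γ V) = (w φ Γ V)⁻¹ := fun φ =>
      ((k2 Γ V _).2 φ).trans (inv_inv _).symm
    refine Vl.ext' (fun _ _ => rfl) (fun j => ?_) (fun j => ?_)
    · show u _ Γ _ * (w _ Γ V * V.c j * (w _ Γ V)⁻¹) * (u _ Γ _)⁻¹ = _
      rw [e]; group
    · show u _ Γ _ * (w _ Γ V * V.t j * (w _ Γ V)⁻¹) * (u _ Γ _)⁻¹ = _
      rw [e, e]; group

end

theorem St.Bd.bd6 {S : St} {n : ℕ} (h : S.Bd n) : Bd6 S.x S.pos n := by
  classical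
  refine ⟨h.1, fun d => ?_⟩
  have e : {φ | S.pos φ = d} = ↑(S.ft d).toFinset := by
    ext φ; simp [S.mem]
  rw [e, Set.ncard_coe_finset]
  exact (List.toFinset_card_le _).trans (h.2 d)

theorem St.bd_of_bd6 {S : St} {n : ℕ} (h : Bd6 S.x S.pos n) : S.Bd n := by
  classical
  refine ⟨h.1, fun d => ?_⟩
  have e : {φ | S.pos φ = d} = ↑(S.ft d).toFinset := by
    ext φ; simp [S.mem]
  have := h.2 d
  rwa [e, Set.ncard_coe_finset, List.toFinset_card_of_nodup (S.nd d)] at this

/-- The order of the feet at a point does not matter. -/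
theorem qe_can (S : St) {n : ℕ} (h : S.Bd n) :
    Qe (Q 40 n) S.gd (can S.x S.rel S.pos).gd :=
  (qe_re S S.nd S.mem (can S.x S.rel S.pos).nd (can S.x S.rel S.pos).mem h
    (can_bd.2 h.bd6)).monoQ (by norm_num) le_rfl

end Pool.Agent.MC.LL
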