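import Pool.Agent.P.MP_2677b3_gt.LRH

open Equiv Function

noncomputable section

namespace Pool.Agent.MC.LL

theorem lr1a_pre {D V : Type} [Finite V] {n : ℕ} {f : D → V} (h : Ft n f) (T : Set V) :
    {u | f u ∈ T}.ncard ≤ T.ncard * n := by
  rw [show {u | f u ∈ T} = ⋃ x ∈ T.toFinite.toFinset, {u | f u = x} by ext; simp,
    Set.ncard_eq_toFinset_card T]
  exact (Finset.set_ncard_biUnion_le _ _).trans (Finset.sum_le_card_nsmul _ _ _ fun x _ => h x)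

theorem lr1a_off {D : Type} {σ : Perm D} {U : Set D} (h : ∀ d, ∃ e, e ∉ U ∧ σ.SameCycle d e) :
    ∃ f : D → D, ∀ d, f d ∉ U ∧ σ.SameCycle d (f d) ∧ (d ∉ U → f d = d) := by
  refine Classical.skolem (p := fun d e => e ∉ U ∧ σ.SameCycle d e ∧ (d ∉ U → e = d)) |>.1
    fun d => ?_
  by_cases hd : d ∈ U
  · obtain ⟨e, a, b⟩ := h d
    exact ⟨e, a, b, fun c => absurd hd c⟩
  · exact ⟨d, hd, .refl _ _, fun _ => rfl⟩

theorem lr1a_core {D : Type} [Finite D] (A B : Perm D) {n M : ℕ} (hM : 0 < M) (hn : M ≤ n)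
    (hB : ∀ d, sz B d ≤ n) : ∃ (U : Set D) (β : Perm D), β⁻¹ * A = ret A Uᶜ ∧ Tree (β⁻¹ * A) β ∧
      Tree β B ∧ (∀ d, ∃ e, e ∉ U ∧ A.SameCycle d e) ∧
      (∀ d, ∃ e, e ∉ U ∧ (B * β).SameCycle d e) ∧ (∀ d, sz (B * β) d ≤ Q 5 n) ∧
      ∀ d, (∃ T : Set (Quotient (Perm.SameCycle.setoid B)), M ≤ T.ncard ∧
        ∀ e, Quotient.mk _ e ∈ T → (B * β).SameCycle e d) ∨ ∃ P : D → Prop, P d ∧
          (∀ u, P u ↔ P (A u)) ∧ (∀ u, P u ↔ P (B u)) ∧ ∀ e, P e → (B * β).SameCycle e d := by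
  let c : D → Quotient (Perm.SameCycle.setoid B) := Quotient.mk _
  have hc : ∀ d, c (B d) = c d := fun d =>
    Quotient.sound (Perm.sameCycle_apply_left.2 (.refl B d))
  have h3 : Ft n c := fun x => by
    obtain ⟨e, rfl⟩ := Quotient.exists_rep x
    exact (Set.ncard_le_ncard fun i hi => Perm.SameCycle.symm (Quotient.exact hi)).trans (hB e)
  obtain ⟨top, rk, U, c1, c2, c3, c4, -, c6, c7⟩ := cl2 c (fun u => c (A u)) (fun u => by
    obtain ⟨k, hk⟩ := (Perm.sameCycle_apply_left.2 (.refl A u)).exists_nat_pow_eq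
    conv => arg 3; rw [← hk]
    clear hk
    induction k with
    | zero => exact .refl
    | succ k ih => exact ih.tail ⟨_, rfl, by rw [pow_succ', Perm.mul_apply]⟩) ∅ M hM n
    (h3.comp A.injective)
  obtain ⟨β, f1, f2, f3, f4, -, -, f7, f8, f9⟩ := fsw A B U (rk ∘ c)
    (fun d => congrArg rk (hc d)) (fun u hu => (c1 u hu).1)
    fun u hu u' hu' h => c2 hu hu' (Quotient.sound h)
  have h1 : ∀ d, ∃ e, c e = top (c d) ∧ (B * β).SameCycle d e := fun d => by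
    induction hk : rk (c d) using Nat.strong_induction_on generalizing d with
    | _ k ih =>
      by_cases h : c d = top (c d)
      · exact ⟨d, h, .refl _ _⟩
      obtain ⟨u, hu, e⟩ := (c3 _).1 h
      obtain ⟨w, a, b⟩ := ih _ (hk ▸ e ▸ (c1 u hu).1) (A u) rfl
      exact ⟨w, a.trans (e ▸ (c1 u hu).2),
        ((f8 _ _ (Quotient.exact e)).symm.trans (f7 u hu)).trans b⟩
  have h2 : ∀ e d, top (c e) = top (c d) → (B * β).SameCycle e d := fun e d h => by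
    obtain ⟨w, a, b⟩ := h1 e
    obtain ⟨w', a', b'⟩ := h1 d
    exact (b.trans (f8 _ _ (Quotient.exact (a.trans (h.trans a'.symm))))).trans b'.symm
  refine ⟨U, β, f1, f2, f3, f4, fun d => ?_, fun d => ?_, fun d => ?_⟩
  · obtain ⟨e, a, b⟩ := h1 d
    exact ⟨e, fun h => (c3 _).2 ⟨e, h, rfl⟩ (by rw [a, c4]), b⟩
  · have q : n + 1 ≤ Q 1 n := (Nat.le_succ _).trans (le_Q n one_pos)
    exact (sz_le_lab (top ∘ c) (f9 _ _ (fun d => congrArg top (hc d)) fun u hu => (c1 u hu).2)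
      d).trans ((lr1a_pre h3 {x | top x = top (c d)}).trans (Q_mul_le (k := 4) (k' := 1)
        ((c7 _).trans ((Q_mul_le q (hn.trans ((Nat.le_succ n).trans q))).trans
          (Q_mono (by omega) le_rfl))) ((Nat.le_succ n).trans q)))
  · rcases c6 _ (c4 (c d)) with h | h | h
    · exact h.elim
    · exact .inl ⟨_, h, fun e he => h2 e d he⟩
    · exact .inr ⟨fun u => top (c u) = top (c d), rfl, h, fun u => by simp only [hc], fun e => h2 e d⟩

/-- One of the three initial merges: `[A, B, 1, C]` becomes `[B', C', 1, A']`. -/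
theorem merge_phase : ∃ κ : ℕ, ∀ (Tok : Type) [Finite Tok] (S : TS Tok) (n μ M : ℕ),
    S.G.x2 = 1 → S.G.Conn → S.G.Sz n → Ft n S.pos → 0 < μ → 0 < M → M ≤ n →
    (∀ c d, μ ≤ S.Pt c d) → (∀ c, M ≤ {τ | S.tag τ = c}.ncard) →
    ∃ S' : TS Tok, TEq (Q κ n) S S' ∧ S'.G.x2 = 1 ∧ S'.G.Sz (Q κ n) ∧ Ft (Q κ n) S'.pos ∧
      (∀ c d, μ ≤ S'.Pt c d) ∧ (∀ c, M ≤ {τ | S'.tag τ = c}.ncard) ∧ (∀ d, M ≤ S'.W 0 d) ∧
      ((∀ d, M ≤ S.W 3 d) → ∀ d, M ≤ S'.W 1 d) ∧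
      ((∀ d, M ≤ S.W 0 d) → ∀ d, M ≤ S'.W 3 d) := by
  refine ⟨3000 * kA + 2000, ?_⟩
  rintro Tok _ ⟨⟨D, fD, A, B, x, C, rel⟩, pos, tag⟩ n μ M hx hc hS hF hμ hM hn hP hT
  obtain rfl : x = (1 : Perm D) := hx
  classical
  obtain ⟨sA, sB, s1, sC⟩ := P4.sz_iff.1 hS
  obtain ⟨U, β, f1, f2, f3, f4, f5, f6, f7⟩ := lr1a_core A B hM hn sB
  obtain ⟨ea, ha⟩ := lr1a_off f4
  obtain ⟨eb, hb⟩ := lr1a_off f5
  let G : P4 := ⟨D, fD, A, B, 1, C, rel⟩
  let p1 : Tok → D := fun τ => if tag τ = 0 then ea (pos τ) else pos τ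
  have n1 : ∀ τ, Nr G.y 10 (pos τ) (p1 τ) := fun τ => by
    simp only [p1]
    split_ifs
    exacts [(G.nr0 (ha _).2.1).mono (by omega), Nr.refl _ _]
  have q : n ≤ Q 31 n := (Nat.le_add_right n 2).trans (le_Q n (by omega))
  have F1 : Ft (Q 31 n) p1 := (ft_mov n1 hS hF).mono
    (Q_mul_le (k := 1) (k' := 30) ((Nat.le_add_right n 2).trans (le_Q n one_pos)) le_rfl)
  have z1 : ∀ d, sz (β⁻¹ * A) d ≤ Q 31 n := fun d => by
    rw [f1]
    exact (Set.ncard_le_ncard fun _ => ret_sc_le).trans ((sA d).trans q)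
  have z2 : ∀ d, sz (B * β) d ≤ Q 31 n := fun d => (f6 d).trans (Q_mono (by omega) le_rfl)
  have s2 : (G.sw β).Sz (Q 31 n) :=
    P4.sz_iff.2 ⟨z1, z2, fun d => (s1 d).trans q, fun d => (sC d).trans q⟩
  have rel' : β⁻¹ * A * 1 * C * (B * β) = 1 := by
    rw [show β⁻¹ * A * 1 * C * (B * β) = (β⁻¹ * A) * (C * 1 * B * A) * (β⁻¹ * A)⁻¹ by group, rel]
    group
  let G' : P4 := G.re (B * β) C 1 (β⁻¹ * A) rel'
  have s3 : G'.Sz (Q 31 n) :=
    P4.sz_iff.2 ⟨z2, fun d => (sC d).trans q, fun d => (s1 d).trans q, z1⟩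
  have t1 : TEq _ ⟨G.sw β, p1, tag⟩ ⟨G', p1, tag⟩ := TEq.re (G := G)
    (((teq_rot2 ⟨G.sw β, p1, tag⟩ s2 F1 tag).transQ
      (teq_hur ⟨(G.sw β).rot.rot, p1, tag⟩ s2.rot.rot F1 tag)).transQ
        (teq_rot3 ⟨(G.sw β).rot.rot.hur, p1, tag⟩ s2.rot.rot.hur F1 tag))
    rfl (by simp [G]) rfl rfl rel'
  have t2 := (teq_mov ⟨G, pos, tag⟩ hS hF p1 tag n1).transQ
    (((teq_sw ⟨G, p1, tag⟩ β f2 f3 (hS.mono q) s2 F1 tag).transQ t1).mono (Q_Q le_rfl))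
  obtain ⟨g1, g2⟩ := teq_deln ⟨G', p1, tag⟩ U (fun _ _ => rfl)
    (fun d hd => (DFunLike.congr_fun f1 d).trans (ret_not (not_not.2 hd))) f5
  obtain ⟨ec, he⟩ := lr1a_off (σ := C) g1
  let p2 : Tok → D := fun τ =>
    if tag τ = 0 then ea (pos τ) else if tag τ = 3 then ec (pos τ) else eb (pos τ)
  let t : Fin 5 → Fin 5 := ![3, 0, 2, 1, 4]
  have ht : Bijective t := by decide
  obtain ⟨S', ι, i1, i2, -, i4, -, -, i7, -, i9, i10, i11, i12, t3⟩ := g2 p2 (t ∘ tag) _ _ s3 F1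
    (fun τ => by
      simp only [p2]
      split_ifs
      exacts [(ha _).1, (he _).1, (hb _).1])
    fun τ => by
      simp only [p1, p2]
      split_ifs
      exacts [Nr.refl _ _, (G'.nr1 (he _).2.1).mono (by omega), (G'.nr0 (hb _).2.1).mono (by omega)]
  have hU : ∀ d, ι d ∉ U := fun d => i2.le ⟨d, rfl⟩
  have k1 : ∀ τ, tag τ = 1 → (B * β).SameCycle (pos τ) (p2 τ) := fun τ h => by
    simpa [p2, h] using (hb _).2.1
  refine ⟨S', (t2.transQ (t3.mono (Q_Q (Q_add le_rfl le_rfl)))).mono (Q_mono (by omega) le_rfl),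
    Equiv.ext fun d => i1 (i4 d), i7.mono (Q_mono (by omega) le_rfl),
    i10.mono ((Q_mul_le le_rfl (Q_Q le_rfl)).trans (Q_mono (by omega) le_rfl)),
    fun c d => ?_, fun c => ?_, fun d => ?_, fun h d => ?_, fun h d => ?_⟩
  · obtain ⟨c, rfl⟩ := ht.2 c
    rw [i12]
    refine (hP c (ι d)).trans (Set.ncard_le_ncard fun τ ⟨a, b⟩ => ⟨congrArg t a, ?_⟩)
    have b' : pos τ = ι d := b
    simp only [p2, b', (ha _).2.2 (hU d), (he _).2.2 (hU d), (hb _).2.2 (hU d), ite_self]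
  · obtain ⟨c, rfl⟩ := ht.2 c
    rw [i9]
    exact (hT c).trans (Set.ncard_le_ncard fun τ a => congrArg t a)
  · rw [i11]
    rcases f7 (ι d) with ⟨T, a, b⟩ | ⟨P, a, a0, a1, b⟩
    · refine a.trans (W_ge_card T (fun τ => Quotient.mk _ (pos τ)) fun x hx => ?_)
      obtain ⟨e, rfl⟩ := Quotient.exists_rep x
      obtain ⟨τ, c1, c2⟩ := Set.nonempty_of_ncard_ne_zero (hμ.trans_le (hP 1 e)).ne'
      obtain rfl : pos τ = e := c2
      exact ⟨τ, rfl, congrArg t c1, (k1 τ c1).symm.trans (b _ hx)⟩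
    · have hP' : ∀ e, P e := fun e => by
        induction hc (ι d) e with
        | refl => exact a
        | tail _ h ih =>
          obtain ⟨c, rfl⟩ := h
          fin_cases c
          exacts [(a0 _).1 ih, (a1 _).1 ih, ih, (a0 _).2 ((a1 _).2
            ((congrArg P (DFunLike.congr_fun G.rel_rot3 _)).mpr ih)), ih]
      exact (hT 1).trans (Set.ncard_le_ncard fun τ c =>
        ⟨congrArg t c, (k1 τ c).symm.trans (b _ (hP' _))⟩)
  · rw [i11]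
    refine (h (ι d)).trans (W_mono fun τ a b => ⟨congrArg t a, .trans ?_ b⟩)
    have a' : tag τ = 3 := a
    simpa [p2, a'] using (he _).2.1.symm
  · rw [i11]
    refine (h (ι d)).trans (W_mono fun τ a b => ⟨congrArg t a, ?_⟩)
    have a' : tag τ = 0 := a
    change (β⁻¹ * A).SameCycle (p2 τ) (ι d)
    rw [f1, show p2 τ = ea (pos τ) from if_pos a', ret_sc (ha _).1 (hU d)]
    exact (ha _).2.1.symm.trans b

end Pool.Agent.MC.LL
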