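import Pool.Agent.P.MP_2677b3_gt.LRH

open Equiv Function

noncomputable section

namespace Pool.Agent.MC.LL

section
variable (G : P4) (L : Set G.D)

/-- Light points that are moved by the slots one and three. -/
def lr2L (i : G.D) : Prop := i ∈ L ∧ G.x3 i ≠ i ∧ G.x1 i ≠ i

/-- The point `a` carries a mark of a light point other than `i`. -/
def lr2M (i a : G.D) : Prop := (lr2L G L a ∧ a ≠ i) ∨ (lr2L G L (G.x3⁻¹ a) ∧ G.x3⁻¹ a ≠ i)

def lr2H (i : G.D) : Prop := ∃ k : ℕ, lr2M G L i ((G.x0 ^ k) i)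

open Classical in
def lr2m (i : G.D) : ℕ := if h : lr2H G L i then Nat.find h else 0

def lr2a (i : G.D) : G.D := (G.x0 ^ lr2m G L i) i

open Classical in
def lr2v (i : G.D) : G.D :=
  if lr2L G L (lr2a G L i) ∧ lr2a G L i ≠ i then lr2a G L i else G.x3⁻¹ (lr2a G L i)

def lr2O (β : ℕ) : Set G.D :=
  {i | lr2L G L i ∧ lr2H G L i ∧ G.x0 (lr2a G L i) ≠ i ∧ lr2m G L i < β}

def lr2T (i : G.D) : Set G.D := {i, lr2v G L i, G.x3 (lr2v G L i), G.x0 (lr2a G L i)}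

variable {G L}

theorem lr2_spec {i : G.D} (h : lr2H G L i) : lr2M G L i (lr2a G L i) := by
  classical
  unfold lr2a lr2m
  rw [dif_pos h]
  exact Nat.find_spec h

theorem lr2_min {i : G.D} {k : ℕ} (h : lr2M G L i ((G.x0 ^ k) i)) : lr2m G L i ≤ k := by
  classical
  have h' : lr2H G L i := ⟨k, h⟩
  unfold lr2m
  rw [dif_pos h']
  exact Nat.find_min' h' h

theorem lr2_ne {i : G.D} (h : lr2H G L i) {k : ℕ} (h0 : 0 < k) (hk : k ≤ lr2m G L i) :
    (G.x0 ^ k) i ≠ i := fun e => by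
  have h1 := lr2_spec h
  have : lr2a G L i = (G.x0 ^ (lr2m G L i - k)) i := by
    have e2 : (G.x0 ^ (lr2m G L i - k + k)) i = (G.x0 ^ (lr2m G L i - k)) i := by
      rw [pow_add, Perm.mul_apply, e]
    rwa [Nat.sub_add_cancel hk] at e2
  rw [this] at h1
  have := lr2_min h1
  omega

theorem lr2_inj {i : G.D} (h : lr2H G L i) (hj : G.x0 (lr2a G L i) ≠ i) {k l : ℕ} (hkl : k < l)
    (hl : l ≤ lr2m G L i + 1) : (G.x0 ^ k) i ≠ (G.x0 ^ l) i := fun e => by
  have e2 : (G.x0 ^ (l - k)) i = i := by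
    apply (G.x0 ^ k).injective
    rw [← Perm.mul_apply, ← pow_add, Nat.add_sub_cancel' hkl.le, e]
  rcases Nat.lt_or_ge (lr2m G L i) (l - k) with h1 | h1
  · apply hj
    unfold lr2a
    rw [← Perm.mul_apply, ← pow_succ', show lr2m G L i + 1 = l - k by omega, e2]
  · exact lr2_ne h (by omega) h1 e2

theorem lr2_le {i i' : G.D} (h : lr2L G L i') (hne : i' ≠ i) {k : ℕ}
    (e : (G.x0 ^ k) i = i' ∨ (G.x0 ^ k) i = G.x3 i') : lr2m G L i ≤ k := by
  apply lr2_min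
  rcases e with e | e <;> rw [e]
  · exact Or.inl ⟨h, hne⟩
  · exact Or.inr (by simpa using ⟨h, hne⟩)

theorem lr2_v {i : G.D} (h : lr2H G L i) : lr2L G L (lr2v G L i) ∧ lr2v G L i ≠ i ∧
    (lr2a G L i = lr2v G L i ∨ lr2a G L i = G.x3 (lr2v G L i)) := by
  have h1 := lr2_spec h
  unfold lr2v
  split_ifs with hc
  · exact ⟨hc.1, hc.2, Or.inl rfl⟩
  · obtain ⟨h2, h3⟩ := h1.resolve_left hc
    exact ⟨h2, h3, Or.inr (by simp)⟩

theorem lr2_jv (hL : ∀ i ∈ L, G.x2 i = i) {β : ℕ} {i : G.D} (h : i ∈ lr2O G L β) :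
    G.x0 (lr2a G L i) ≠ lr2v G L i := by
  obtain ⟨h1, -, h3 | h3⟩ := lr2_v h.2.1
  · rw [← h3]
    have := lr2_inj h.2.1 h.2.2.1 (Nat.lt_succ_self (lr2m G L i)) le_rfl
    rw [pow_succ', Perm.mul_apply] at this
    exact this.symm
  · intro e
    rw [h3] at e
    have hr := congrArg (fun σ : Perm G.D => σ (lr2v G L i)) G.rel_rot3
    simp only [Perm.mul_apply, e, Perm.one_apply] at hr
    apply h1.2.2
    apply G.x2.injective
    rw [hr, hL _ h1.1]

theorem lr2_pre {i i' : G.D} (h : lr2L G L i) (h' : lr2L G L i') (e : lr2a G L i = lr2a G L i')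
    (hne : i ≠ i') : i = lr2a G L i ∨ i' = lr2a G L i := by
  wlog hle : lr2m G L i' ≤ lr2m G L i generalizing i i'
  · have := this h' h e.symm hne.symm (by omega)
    rw [← e] at this
    exact this.symm
  have e2 : (G.x0 ^ (lr2m G L i - lr2m G L i')) i = i' := by
    apply (G.x0 ^ lr2m G L i').injective
    rw [← Perm.mul_apply, ← pow_add, Nat.add_sub_cancel' hle]
    exact e
  have := lr2_le h' hne.symm (Or.inl e2)
  right
  rw [e]
  unfold lr2a
  rw [show lr2m G L i' = 0 by omega]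
  rfl

theorem lr2_two {D : Type} {S : Set D} {a : D}
    (h : ∀ x ∈ S, ∀ y ∈ S, x ≠ y → x = a ∨ y = a) : S.ncard ≤ 2 := by
  by_cases h0 : ∃ x ∈ S, x ≠ a
  · obtain ⟨x, hx, hxa⟩ := h0
    refine le_trans (Set.ncard_le_ncard (t := {x, a}) (fun y hy => ?_) (Set.toFinite _)) ?_
    · by_cases e : x = y
      · exact Or.inl e.symm
      · exact Or.inr ((h x hx y hy e).resolve_left hxa)
    · exact (Set.ncard_insert_le _ _).trans (by simp)
  · push Not at h0
    exact le_trans (Set.ncard_le_ncard (t := {a}) h0 (Set.toFinite _)) (by simp)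

theorem lr2_cnt (β : ℕ) (x : G.D) : {i ∈ lr2O G L β | x ∈ lr2T G L i}.ncard ≤ 11 := by
  let F : G.D → Set G.D := fun a => {i ∈ lr2O G L β | lr2a G L i = a}
  have hF : ∀ a, (F a).ncard ≤ 2 := fun a => lr2_two (a := a) fun i hi k hk hne => by
    have := lr2_pre hi.1.1 hk.1.1 (hi.2.trans hk.2.symm) hne
    rwa [hi.2] at this
  have : {i ∈ lr2O G L β | x ∈ lr2T G L i} ⊆
      {x} ∪ F x ∪ F (G.x3 x) ∪ F (G.x3⁻¹ x) ∪ F (G.x0⁻¹ x) := by
    rintro i ⟨hi, hx⟩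
    obtain ⟨-, -, h3⟩ := lr2_v hi.2.1
    simp only [lr2T, Set.mem_insert_iff, Set.mem_singleton_iff] at hx
    simp only [F, Set.mem_union, Set.mem_singleton_iff, Set.mem_ofPred_eq, hi, true_and]
    rcases hx with rfl | rfl | rfl | rfl
    · simp
    · tauto
    · rcases h3 with h3 | h3
      · exact Or.inl (Or.inr (by simpa using h3))
      · tauto
    · simp
  refine (Set.ncard_le_ncard this (Set.toFinite _)).trans ?_
  have u := @Set.ncard_union_le G.D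
  have := u ({x} ∪ F x ∪ F (G.x3 x) ∪ F (G.x3⁻¹ x)) (F (G.x0⁻¹ x))
  have := u ({x} ∪ F x ∪ F (G.x3 x)) (F (G.x3⁻¹ x))
  have := u ({x} ∪ F x) (F (G.x3 x))
  have := u {x} (F x)
  have := hF x
  have := hF (G.x3 x)
  have := hF (G.x3⁻¹ x)
  have := hF (G.x0⁻¹ x)
  have := Set.ncard_singleton x
  omega

theorem lr2_aT {i : G.D} (h : lr2H G L i) : lr2a G L i ∈ lr2T G L i := by
  rcases (lr2_v h).2.2 with e | e <;> simp [lr2T, e]

theorem lr2_nr {i x : G.D} (h : lr2H G L i) (hx : x ∈ lr2T G L i) :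
    Nr G.y 2 (lr2v G L i) x ∧ Nr G.y 2 x i := by
  have a1 : G.x0.SameCycle i (lr2a G L i) := ⟨(lr2m G L i : ℕ), by rw [zpow_natCast]; rfl⟩
  have s1 : G.x3.SameCycle (lr2v G L i) (G.x3 (lr2v G L i)) := ⟨1, by simp⟩
  have v1 : G.x3.SameCycle (lr2v G L i) (lr2a G L i) := by
    rcases (lr2_v h).2.2 with e | e <;> rw [e]
    exact s1
  simp only [lr2T, Set.mem_insert_iff, Set.mem_singleton_iff] at hx
  rcases hx with rfl | rfl | rfl | rfl
  · exact ⟨(P4.nr3 v1).trans (P4.nr0 a1.symm), Nr.refl _ _⟩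
  · exact ⟨Nr.refl _ _, (P4.nr3 v1).trans (P4.nr0 a1.symm)⟩
  · exact ⟨(P4.nr3 s1).mono (by omega), (P4.nr3 (s1.symm.trans v1)).trans (P4.nr0 a1.symm)⟩
  · exact ⟨(P4.nr3 v1).trans (P4.nr0 ⟨1, by simp⟩),
      (P4.nr0 (a1.apply_right).symm).mono (by omega)⟩

end

theorem ops_select (G : P4) (L : Set G.D) (hL : ∀ i ∈ L, G.x2 i = i) (β : ℕ) :
    Nonempty (Ops G L β) := by
  classical
  obtain ⟨X, hX, -, hd, hm⟩ := maxfam (lr2T G L) (lr2O G L β) fun i _ => ⟨i, by simp [lr2T]⟩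
  have hd' : ∀ i ∈ X, ∀ k ∈ X, ∀ x ∈ lr2T G L i, x ∈ lr2T G L k → i = k :=
    fun i hi k hk x h1 h2 => by_contra fun e => Set.disjoint_left.1 (hd i hi k hk e) h1 h2
  have t0 : ∀ i, i ∈ lr2T G L i := fun i => by simp [lr2T]
  have t1 : ∀ i, lr2v G L i ∈ lr2T G L i := fun i => by simp [lr2T]
  have t2 : ∀ i, G.x3 (lr2v G L i) ∈ lr2T G L i := fun i => by simp [lr2T]
  have t3 : ∀ i, G.x0 (lr2a G L i) ∈ lr2T G L i := fun i => by simp [lr2T]
  choose! don hdX hdn using hm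
  have hj : ∀ i, (G.x0 ^ (lr2m G L i + 1)) i = G.x0 (lr2a G L i) := fun i => by
    rw [pow_succ', Perm.mul_apply]; rfl
  have hvX : ∀ i ∈ X, lr2v G L i ∉ X := fun i hi h =>
    (lr2_v (hX hi).2.1).2.1 (hd' i hi _ h _ (t1 i) (t0 _)).symm
  -- a mark of the victim of `i` on the arc of `i'`
  have hmark : ∀ i ∈ X, ∀ i' ∈ X, ∀ k < lr2m G L i' + 1,
      ((G.x0 ^ k) i' = lr2v G L i ∨ (G.x0 ^ k) i' = G.x3 (lr2v G L i)) →
      i = i' ∧ k = lr2m G L i' := fun i hi i' hi' k hk e => by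
    have h1 := lr2_le (lr2_v (hX hi).2.1).1 (fun h => hvX i hi (by rw [h]; exact hi')) e
    obtain rfl : k = lr2m G L i' := by omega
    refine ⟨hd' i hi i' hi' (lr2a G L i') ?_ (lr2_aT (hX hi').2.1), rfl⟩
    unfold lr2a
    rcases e with e | e <;> rw [e]
    exacts [t1 i, t2 i]
  refine ⟨⟨X, fun i => G.x0 (lr2a G L i), lr2v G L, don, fun i => lr2m G L i + 1,
    {i | lr2L G L i ∧ (lr2H G L i → G.x0 (lr2a G L i) = i)},
    {i | lr2L G L i ∧ lr2H G L i ∧ β ≤ lr2m G L i}, lr2O G L β,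
    fun i hi => (hX hi).1.1, fun i hi => ⟨by omega, (hX hi).2.2.2, hj i⟩,
    fun i hi k k0 hk => ⟨fun h => ?_, fun i' hi' e => ?_⟩,
    fun i hi k hk e => hd' i hi k hk _ (t3 i) (by rw [show G.x0 (lr2a G L i) = _ from e]; exact t3 k),
    fun i hi h => (hX hi).2.2.1 (hd' i hi _ h _ (t3 i) (t0 _)).symm,
    fun i hi k hk e => hd' i hi k hk _ (t1 i) (by rw [e]; exact t1 k),
    fun i hi => ⟨(lr2_v (hX hi).2.1).1.1, hvX i hi, fun i' hi' => ⟨fun e => ?_, fun e => ?_⟩⟩,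
    fun i hi => ?_, fun i hi i' hi' hne k hk =>
      ⟨fun e => hne (hmark i hi i' hi' k hk (Or.inl e)).1,
        fun e => hne (hmark i hi i' hi' k hk (Or.inr e)).1⟩,
    fun d => ?_, fun i hi i' hi' k hk k' hk' e => ?_, fun i hi => ⟨hdX i hi, ?_⟩, fun y => ?_,
    fun i hi => ?_⟩⟩
  · have hne := lr2_ne (hX hi).2.1 k0 (by omega)
    have h1 := lr2_le (hX h).1 hne (Or.inl rfl)
    obtain rfl : k = lr2m G L i := by omega
    exact hne (hd' i hi _ h _ (lr2_aT (hX hi).2.1) (t0 _)).symm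
  · by_cases hne : i = i'
    · subst hne
      exact lr2_inj (hX hi).2.1 (hX hi).2.2.1 hk le_rfl (e.trans (hj i).symm)
    rcases Nat.lt_or_ge k (lr2m G L i) with h1 | h1
    · obtain ⟨k, rfl⟩ : ∃ k', k = k' + 1 := ⟨k - 1, by omega⟩
      rw [pow_succ', Perm.mul_apply] at e
      have e := G.x0.injective e
      obtain ⟨v1, -, v3⟩ := lr2_v (hX hi').2.1
      have := hmark i' hi' i hi k (by omega) (by rw [e]; exact v3)
      exact hne this.1.symm
    · obtain rfl : k = lr2m G L i := by omega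
      exact hne (hd' i hi i' hi' _ (lr2_aT (hX hi).2.1) (by unfold lr2a; rw [e]; exact t3 i'))
  · obtain rfl := hd' i hi i' hi' _ (t1 i) (by rw [e]; exact t3 i')
    exact lr2_jv hL (hX hi) e.symm
  · obtain rfl := hd' i hi i' hi' _ (t2 i) (by rw [e]; exact t1 i')
    exact (lr2_v (hX hi).2.1).1.2.1 e
  · obtain ⟨v1, -, v3⟩ := lr2_v (hX hi).2.1
    have hno : ¬ ((∃ k < lr2m G L i + 1, (G.x0 ^ k) i = lr2v G L i) ∧
        ∃ k < lr2m G L i + 1, (G.x0 ^ k) i = G.x3 (lr2v G L i)) := by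
      rintro ⟨⟨k, hk, e⟩, k', hk', e'⟩
      obtain rfl := (hmark i hi i hi k hk (Or.inl e)).2
      obtain rfl := (hmark i hi i hi k' hk' (Or.inr e')).2
      exact v1.2.1 (e'.symm.trans e)
    rcases v3 with v3 | v3
    · exact Or.inl ⟨⟨_, Nat.lt_succ_self _, v3⟩, fun h => hno ⟨⟨_, Nat.lt_succ_self _, v3⟩, h⟩⟩
    · exact Or.inr ⟨⟨_, Nat.lt_succ_self _, v3⟩, fun h => hno ⟨h, ⟨_, Nat.lt_succ_self _, v3⟩⟩⟩
  · rcases Set.eq_empty_or_nonempty
      {i ∈ {i | lr2L G L i ∧ (lr2H G L i → G.x0 (lr2a G L i) = i)} | G.x0.SameCycle i d} with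
      h | ⟨i, hi, hid⟩
    · rw [h]; simp
    refine le_trans (Set.ncard_le_ncard (t := {i, lr2a G L i}) (fun y hy => ?_) (Set.toFinite _))
      ((Set.ncard_insert_le _ _).trans (by simp))
    by_cases e : y = i
    · exact Or.inl e
    obtain ⟨k, -, hk⟩ := (hid.trans hy.2.symm).exists_pow_eq'
    have hH : lr2H G L i := ⟨k, by rw [hk]; exact Or.inl ⟨hy.1.1, e⟩⟩
    have hp : (G.x0 ^ (lr2m G L i + 1)) i = i := (hj i).trans (hi.2 hH)
    have hk' : (G.x0 ^ (k % (lr2m G L i + 1))) i = y := by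
      rw [← hk]
      conv_rhs => rw [← Nat.mod_add_div k (lr2m G L i + 1), pow_add, pow_mul, Perm.mul_apply,
        Perm.pow_apply_eq_self_of_apply_eq_self hp]
    have h1 := lr2_le hy.1.1 e (Or.inl hk')
    have h2 : k % (lr2m G L i + 1) < lr2m G L i + 1 := Nat.mod_lt k (Nat.succ_pos _)
    right
    rw [← hk', show k % (lr2m G L i + 1) = lr2m G L i by omega]
    rfl
  · wlog hle : k' ≤ k generalizing i i' k k'
    · have := this i' hi' i hi k' hk' k hk e.symm (by omega)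
      exact ⟨this.1.symm, this.2.symm⟩
    have e2 : (G.x0 ^ (k - k')) i = i' := by
      apply (G.x0 ^ k').injective
      rw [← Perm.mul_apply, ← pow_add, Nat.add_sub_cancel' hle]
      exact e
    have h3 := hi.2.2
    by_cases hne : i' = i
    · subst hne
      refine ⟨rfl, by_contra fun h => lr2_ne hi.2.1 (k := k - k') (by omega) (by omega) e2⟩
    · have := lr2_le hi'.1 hne (Or.inl e2)
      omega
  · obtain ⟨x, h1, h2⟩ := hdn i hi
    exact (lr2_nr (hX (hdX i hi)).2.1 h2).1.trans (lr2_nr hi.2.1 h1).2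
  · let F : G.D → Set G.D := fun x => {i ∈ lr2O G L β | x ∈ lr2T G L i}
    have : {i ∈ lr2O G L β | don i = y} ⊆
        F y ∪ F (lr2v G L y) ∪ F (G.x3 (lr2v G L y)) ∪ F (G.x0 (lr2a G L y)) := by
      rintro i ⟨hi, rfl⟩
      obtain ⟨x, h1, h2⟩ := hdn i hi
      simp only [lr2T, Set.mem_insert_iff, Set.mem_singleton_iff] at h2
      simp only [F, Set.mem_union, Set.mem_ofPred_eq, hi, true_and]
      rcases h2 with rfl | rfl | rfl | rfl <;> tauto
    refine (Set.ncard_le_ncard this (Set.toFinite _)).trans ?_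
    have u := @Set.ncard_union_le G.D
    have := u (F y ∪ F (lr2v G L y) ∪ F (G.x3 (lr2v G L y))) (F (G.x0 (lr2a G L y)))
    have := u (F y ∪ F (lr2v G L y)) (F (G.x3 (lr2v G L y)))
    have := u (F y) (F (lr2v G L y))
    have c : ∀ x, (F x).ncard ≤ 11 := lr2_cnt β
    have := c y
    have := c (lr2v G L y)
    have := c (G.x3 (lr2v G L y))
    have := c (G.x0 (lr2a G L y))
    omega
  · by_cases h3 : G.x3 i = i
    · exact Or.inl h3
    by_cases h1 : G.x1 i = i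
    · exact Or.inr (Or.inl h1)
    have h0 : lr2L G L i := ⟨hi, h3, h1⟩
    by_cases h2 : lr2H G L i → G.x0 (lr2a G L i) = i
    · exact Or.inr (Or.inr (Or.inl ⟨h0, h2⟩))
    push Not at h2
    rcases Nat.lt_or_ge (lr2m G L i) β with h | h
    · exact Or.inr (Or.inr (Or.inr (Or.inr ⟨h0, h2.1, h2.2, h⟩)))
    · exact Or.inr (Or.inr (Or.inr (Or.inl ⟨h0, h2.1, h⟩)))

end Pool.Agent.MC.LL
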