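import Pool.Agent.P.MP_2677b3_gt.LA3
import Pool.Agent.P.MP_2677b3_gt.LT3

open Equiv Function

noncomputable section

namespace Pool.Agent.MC.LL

theorem lt6_tr {D D' : Type} [Finite D] [Finite D'] {σ : Perm D} {σ' : Perm D'} (ι : D → D')
    (hι : Injective ι) (h : ∀ d, σ' (ι d) = ι (σ d)) (d : D) :
    (∀ e, σ.SameCycle d e ↔ σ'.SameCycle (ι d) (ι e)) ∧ sz σ' (ι d) = sz σ d := by
  obtain ⟨h1, h2⟩ := sc_map (σ := σ) (σ' := σ') ι hι Set.univ (by simp) (fun d _ => h d)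
    (Set.mem_univ d)
  refine ⟨fun e => ?_, h2⟩
  rw [h1]
  exact ⟨fun hs => ⟨e, rfl, hs⟩, fun ⟨e', he, hs⟩ => hι he ▸ hs⟩

theorem lt6_inv {D : Type} {N : Set D} {σ : Perm D} (h : ∀ d ∈ N, σ d = d) (d : D) :
    σ d ∉ N ↔ d ∉ N :=
  not_congr ⟨fun hd => σ.injective (h _ hd) ▸ hd, fun hd => (h d hd).symm ▸ hd⟩

theorem lt6_xt {D : Type} {N : Set D} [DecidablePred fun d => d ∉ N] {σ : Perm D}
    (h : ∀ d ∈ N, σ d = d) (u : {d // d ∉ N} ⊕ {d // ¬ d ∉ N}) :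
    Equiv.sumCompl (fun d => d ∉ N) (xt _ (σ.subtypePerm (lt6_inv h)) u) =
      σ (Equiv.sumCompl (fun d => d ∉ N) u) := by
  rcases u with d | d
  · rfl
  · exact (h d.1 (not_not.1 d.2)).symm

/-- Deleting points that are fixed by the last two slots. -/
theorem deln (G : P4) (N : Set G.D) (h2 : ∀ d ∈ N, G.x2 d = d) (h3 : ∀ d ∈ N, G.x3 d = d)
    (h0 : ∀ d, ∃ e, e ∉ N ∧ G.x0.SameCycle d e) :
    ∃ (G' : P4) (ι : G'.D → G.D), Injective ι ∧ Set.range ι = Nᶜ ∧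
      (∀ c d e, (G'.y c).SameCycle d e ↔ (G.y c).SameCycle (ι d) (ι e)) ∧
      (∀ d, ι (G'.x2 d) = G.x2 (ι d)) ∧ (∀ d, ι (G'.x3 d) = G.x3 (ι d)) ∧
      (∀ d, ∃ e, e ∉ N ∧ G.x1.SameCycle d e) ∧ (∀ c d, sz (G'.y c) d ≤ sz (G.y c) (ι d)) ∧
      ∀ (I : Type) [Finite I] (a b : I → G'.D) (n : ℕ), G.Sz n → Ft n a → Ft n b →
        Qe (Q (2 * kA) n) (G.gd (ι ∘ a) (ι ∘ b)) (G'.gd a b) := by
  classical
  obtain ⟨-, hu, -, base, m, hb1, hb2, hb3, hb4, -⟩ := run G.x0 N h0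
  have hr : ∀ d ∈ N, ret G.x0 Nᶜ d = d := fun d hd => ret_not (by simpa using hd)
  generalize ret G.x0 Nᶜ = r at hu hb1 hb2 hr
  have hom : G.x0 * r⁻¹ * r = G.x0 := by group
  generalize G.x0 * r⁻¹ = om at hu hb1 hb2 hom
  have hy : ∀ d ∈ N, (G.x1 * om) d = d := fun d hd => by
    have h := congrArg (fun σ : Perm G.D => σ d) G.rel
    simp only [Perm.mul_apply, Perm.one_apply] at h ⊢
    rw [hu d hd]
    apply G.x2.injective
    apply G.x3.injective
    rw [h, h2 d hd, h3 d hd]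
  let G' : P4 := ⟨{d // d ∉ N}, inferInstance, r.subtypePerm (lt6_inv hr),
    (G.x1 * om).subtypePerm (lt6_inv hy), G.x2.subtypePerm (lt6_inv h2),
    G.x3.subtypePerm (lt6_inv h3), by
      ext d
      have h := congrArg (fun σ : Perm G.D => σ d.1) G.rel
      rw [← hom] at h
      exact h⟩
  let e : G'.D ⊕ {d // ¬ d ∉ N} ≃ G.D := Equiv.sumCompl fun d => d ∉ N
  let ω : Perm (G'.D ⊕ {d // ¬ d ∉ N}) := e.symm.permCongr om
  have hω : ∀ u, om (e u) = e (ω u) := fun u => by simp [ω]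
  let cn : {d // ¬ d ∉ N} → G'.D := fun u => ⟨base u.1, hb4 _⟩
  have ear : IsEar ω cn := by
    refine ⟨fun u => ((lt6_tr e e.injective hω _).1 _).2 (hb1 u.1), fun d d' h => ?_⟩
    have h1 : base d.1 = base d'.1 := sc_lab base hb2 (((lt6_tr e e.injective hω _).1 _).1 h)
    have h4 : ∀ d : G'.D, d.1 = base d.1 := fun d => by_contra fun hd => d.2 ((hb3 _).1 hd)
    exact Subtype.ext (by rw [h4 d, h4 d', h1])
  have e0 : ∀ u, G.x0 (e u) = e ((G'.ear ω).x0 u) := fun u => by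
    change _ = e (ω (xt _ (r.subtypePerm (lt6_inv hr)) u))
    rw [← hω, ← hom]
    exact congrArg om (lt6_xt hr u).symm
  have e1 : ∀ u, G.x1 (e u) = e ((G'.ear ω).x1 u) := fun u => by
    refine Eq.trans ?_ (lt6_xt hy (ω⁻¹ u)).symm
    change _ = G.x1 (om (e (ω⁻¹ u)))
    rw [hω]
    simp
  have e2 : ∀ u, G.x2 (e u) = e ((G'.ear ω).x2 u) := fun u => (lt6_xt h2 u).symm
  have e3 : ∀ u, G.x3 (e u) = e ((G'.ear ω).x3 u) := fun u => (lt6_xt h3 u).symm
  have hc : ∀ c d d', (G'.y c).SameCycle d d' ↔ (G.y c).SameCycle d.1 d'.1 := by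
    intro c d d'
    fin_cases c
    · exact ((ear.left G'.x0).2.1 (.inl d) (.inl d')).symm.trans
        ((lt6_tr e e.injective e0 _).1 _)
    · exact ((ear.right G'.x1).2.1 (.inl d) (.inl d')).symm.trans
        ((lt6_tr e e.injective e1 _).1 _)
    · exact (lt6_tr (σ := G'.x2) (σ' := G.x2) Subtype.val Subtype.val_injective
        (fun _ => rfl) _).1 _
    · exact (lt6_tr (σ := G'.x3) (σ' := G.x3) Subtype.val Subtype.val_injective
        (fun _ => rfl) _).1 _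
    · exact (lt6_tr (σ := (1 : Perm G'.D)) (σ' := (1 : Perm G.D)) Subtype.val
        Subtype.val_injective (fun _ => rfl) _).1 _
  have hs : ∀ c d, sz (G'.y c) d ≤ sz (G.y c) d.1 := fun c d =>
    Set.ncard_le_ncard_of_injOn Subtype.val (fun d' h => (hc c d d').1 h)
      Subtype.val_injective.injOn (Set.toFinite _)
  refine ⟨G', Subtype.val, Subtype.val_injective, Subtype.range_coe_subtype, hc, fun _ => rfl,
    fun _ => rfl, fun d => ?_, hs, fun I _ a b n h ha hb => ?_⟩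
  · obtain ⟨u, rfl⟩ := e.surjective d
    exact ⟨(Sum.elim id cn u).1, (Sum.elim id cn u).2, ((lt6_tr e e.injective e1 u).1
      (.inl (Sum.elim id cn u))).1 (((ear.right G'.x1).2.1 _ _).2 (Perm.SameCycle.refl _ _))⟩
  · have hH : (G'.ear ω).Sz n := by
      obtain ⟨s0, s1, s2, s3⟩ := P4.sz_iff.1 h
      exact P4.sz_iff.2 ⟨fun u => (lt6_tr e e.injective e0 u).2 ▸ s0 _,
        fun u => (lt6_tr e e.injective e1 u).2 ▸ s1 _,
        fun u => (lt6_tr e e.injective e2 u).2 ▸ s2 _,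
        fun u => (lt6_tr e e.injective e3 u).2 ▸ s3 _⟩
    have q1 := api_ear ω cn ear (fun c d => (hs c d).trans (h c _)) hH ha hb
    have q2 := api_iso (G := G'.ear ω) (G' := G) (a := Sum.inl ∘ a) (b := Sum.inl ∘ b)
      (a' := Subtype.val ∘ a) (b' := Subtype.val ∘ b) e (Equiv.refl I) (fun u => (e0 u).symm)
      (fun u => (e1 u).symm) (fun u => (e2 u).symm) (fun u => (e3 u).symm) (fun _ => rfl)
      (fun _ => rfl) hH (ha.map Sum.inl_injective) (hb.map Sum.inl_injective)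
    rw [two_mul]
    exact (q1.transQ q2).symm

end Pool.Agent.MC.LL
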