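import Pool.Agent.P.MP_2677b3_gt.LW
import Pool.Agent.P.MP_2677b3_gt.LG4
import Pool.Agent.P.MP_2677b3_gt.LT6

open Equiv Function

noncomputable section

namespace Pool.Agent.MC.LL

variable {Tok : Type}

/-- The invariant of the rounds. -/
structure Inv (S : TS Tok) (L : Set S.G.D) (Δ H μ M ν : ℕ) : Prop where
  sz : S.G.Sz Δ
  ft : Ft H S.pos
  fix : ∀ i ∈ L, S.G.x2 i = i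
  light : ∀ i ∈ L, μ ≤ S.W 2 i
  h0 : ∀ d, M ≤ S.W 0 d
  h1 : ∀ d, M ≤ S.W 1 d
  h2 : ∀ d, d ∉ L → M ≤ S.W 2 d
  h3 : ∀ d, M ≤ S.W 3 d
  res : ∀ d, ν ≤ S.W 4 d

/-- The invariant before the conversion. -/
structure Inv2 (S : TS Tok) (Δ H μ M ν : ℕ) : Prop where
  sz : S.G.Sz Δ
  ft : Ft H S.pos
  h0 : ∀ d, M ≤ S.W 0 d
  h1 : ∀ d, M ≤ S.W 1 d
  h2 : ∀ d, M ≤ S.W 2 d ∨ (μ ≤ S.W 2 d ∧ LL.sz S.G.x2 d ≤ 2)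
  h3 : ∀ d, M ≤ S.W 3 d
  res : ∀ d, ν ≤ S.W 4 d

/-- The chosen operations and the charges of one round. -/
structure Ops (G : P4) (L : Set G.D) (β : ℕ) where
  X : Set G.D
  j : G.D → G.D
  v : G.D → G.D
  don : G.D → G.D
  m : G.D → ℕ
  C2 : Set G.D
  C3 : Set G.D
  C4 : Set G.D
  hX : X ⊆ L
  hm : ∀ i ∈ X, 0 < m i ∧ m i ≤ β ∧ (G.x0 ^ m i) i = j i
  hin : ∀ i ∈ X, ∀ k, 0 < k → k < m i → (G.x0 ^ k) i ∉ X ∧ ∀ i' ∈ X, (G.x0 ^ k) i ≠ j i'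
  jinj : Set.InjOn j X
  jX : ∀ i ∈ X, j i ∉ X
  vinj : Set.InjOn v X
  hv : ∀ i ∈ X, v i ∈ L ∧ v i ∉ X ∧ ∀ i' ∈ X, v i ≠ j i' ∧ G.x3 (v i) ≠ v i'
  one : ∀ i ∈ X, Xor (∃ k < m i, (G.x0 ^ k) i = v i) (∃ k < m i, (G.x0 ^ k) i = G.x3 (v i))
  oth : ∀ i ∈ X, ∀ i' ∈ X, i ≠ i' → ∀ k < m i',
    (G.x0 ^ k) i' ≠ v i ∧ (G.x0 ^ k) i' ≠ G.x3 (v i)
  hC2 : ∀ d, {i ∈ C2 | G.x0.SameCycle i d}.ncard ≤ 2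
  hC3 : ∀ i ∈ C3, ∀ i' ∈ C3, ∀ k < β, ∀ k' < β, (G.x0 ^ k) i = (G.x0 ^ k') i' → i = i' ∧ k = k'
  hC4 : ∀ i ∈ C4, don i ∈ X ∧ Nr G.y 4 (v (don i)) i
  hdon : ∀ y, {i ∈ C4 | don i = y}.ncard ≤ 44
  all : ∀ i ∈ L, G.x3 i = i ∨ G.x1 i = i ∨ i ∈ C2 ∨ i ∈ C3 ∨ i ∈ C4

/-- The state after the payments of a round; `V` is the set of victims. -/
structure Paid (S : TS Tok) (L V : Set S.G.D) (Δ H μ M ν : ℕ) : Prop where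
  sz : S.G.Sz Δ
  ft : Ft H S.pos
  fix : ∀ i ∈ L, S.G.x2 i = i
  light : ∀ i ∈ L, i ∉ V → M ≤ S.W 2 i ∨ μ ≤ S.W 2 i
  h0 : ∀ d, M ≤ S.W 0 d
  h1 : ∀ d, M ≤ S.W 1 d
  h2 : ∀ d, d ∉ L → M ≤ S.W 2 d
  h3 : ∀ d, M ≤ S.W 3 d
  res : ∀ d, ν ≤ S.W 4 d

/-- The state after the first step; `V` victims, `Ch` the union of the arcs. -/
structure Mid (S : TS Tok) (V Ch : Set S.G.D) (β Δ H μ M ν : ℕ) : Prop where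
  sz : S.G.Sz Δ
  ft : Ft H S.pos
  fix : ∀ v ∈ V, S.G.x2 v = v ∧ S.G.x3 v ∉ V
  inv : ∀ d, S.G.x0 d ∈ Ch ↔ d ∈ Ch
  small : ∀ d ∈ Ch, LL.sz S.G.x0 d ≤ β
  one : ∀ v ∈ V, Xor (v ∈ Ch) (S.G.x3 v ∈ Ch)
  uniq : ∀ v ∈ V, ∀ v' ∈ V, ∀ u ∈ Ch, ∀ u' ∈ Ch, (u = v ∨ u = S.G.x3 v) →
    (u' = v' ∨ u' = S.G.x3 v') → S.G.x0.SameCycle u u' → v = v'
  ex : ∀ d ∈ Ch, ∃ v ∈ V, S.G.x0.SameCycle d v ∨ S.G.x0.SameCycle d (S.G.x3 v)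
  non : ∀ d ∈ Ch, ∃ e, e ∉ V ∧ S.G.x0.SameCycle d e
  h0 : ∀ d, d ∉ Ch → M ≤ S.W 0 d
  h1 : ∀ d, M ≤ S.W 1 d
  h2 : ∀ d, d ∉ V → M ≤ S.W 2 d ∨ (μ ≤ S.W 2 d ∧ LL.sz S.G.x2 d ≤ 2)
  h3 : ∀ d, M ≤ S.W 3 d
  res : ∀ d, ν ≤ S.W 4 d

end Pool.Agent.MC.LL
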