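import Pool.Agent.P.MP_2677b3_gt.LRD

/-! Moves of token states used in the merges and the rounds. -/

open Equiv Function

noncomputable section

namespace Pool.Agent.MC.LL

variable {Tok : Type} [Finite Tok]

@[simp] theorem P4.y0 (G : P4) : G.y 0 = G.x0 := rfl
@[simp] theorem P4.y1 (G : P4) : G.y 1 = G.x1 := rfl
@[simp] theorem P4.y2 (G : P4) : G.y 2 = G.x2 := rfl
@[simp] theorem P4.y3 (G : P4) : G.y 3 = G.x3 := rfl
@[simp] theorem P4.y4 (G : P4) : G.y 4 = 1 := rfl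

theorem teq_rot (S : TS Tok) {n : ℕ} (h : S.G.Sz n) (hf : Ft n S.pos) (tag' : Tok → Fin 5) :
    TEq (Q kA n) S ⟨S.G.rot, S.pos, tag'⟩ :=
  teq_of (S := S) (G' := S.G.rot) id tag' hf fun _ _ _ ha => api_rot h ha ha

theorem teq_hur (S : TS Tok) {n : ℕ} (h : S.G.Sz n) (hf : Ft n S.pos) (tag' : Tok → Fin 5) :
    TEq (Q kA n) S ⟨S.G.hur, S.pos, tag'⟩ :=
  teq_of (S := S) (G' := S.G.hur) id tag' hf fun _ _ _ ha => api_hur h ha ha

theorem teq_sw (S : TS Tok) {n : ℕ} (β : Perm S.G.D) (h1 : Tree (β⁻¹ * S.G.x0) β)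
    (h2 : Tree β S.G.x1) (h : S.G.Sz n) (h' : (S.G.sw β).Sz n) (hf : Ft n S.pos)
    (tag' : Tok → Fin 5) : TEq (Q kA n) S ⟨S.G.sw β, S.pos, tag'⟩ :=
  teq_of (S := S) (G' := S.G.sw β) id tag' hf fun _ _ _ ha => api_sw β h1 h2 h h' ha ha

/-- The same points with other permutations. -/
abbrev P4.re (G : P4) (a b c d : Perm G.D) (h : d * c * b * a = 1) : P4 := ⟨G.D, G.fD, a, b, c, d, h⟩

omit [Finite Tok] in
theorem TEq.re {E : ℕ} {S : TS Tok} {G : P4} {a b c d a' b' c' d' : Perm G.D}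
    {h : d * c * b * a = 1} {pos : Tok → G.D} {tag : Tok → Fin 5}
    (hq : TEq E S ⟨G.re a b c d h, pos, tag⟩) (ha : a = a') (hb : b = b') (hc : c = c')
    (hd : d = d') (h' : d' * c' * b' * a' = 1) : TEq E S ⟨G.re a' b' c' d' h', pos, tag⟩ := by
  subst ha hb hc hd; exact hq

theorem P4.rel_rot3 (G : P4) : G.x2 * G.x1 * G.x0 * G.x3 = 1 := G.rot.rot.rot.rel

/-- `[x0, x1, x2, x3]` becomes `[x2, x3, x0, x1]`. -/
theorem teq_rot2 (S : TS Tok) {n : ℕ} (h : S.G.Sz n) (hf : Ft n S.pos) (tag' : Tok → Fin 5) :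
    TEq (Q (2 * kA) n) S ⟨S.G.rot.rot, S.pos, tag'⟩ := by
  rw [two_mul]
  exact (teq_rot S h hf S.tag).transQ (teq_rot ⟨S.G.rot, S.pos, S.tag⟩ h.rot hf tag')

/-- `[x0, x1, x2, x3]` becomes `[x3, x0, x1, x2]`. -/
theorem teq_rot3 (S : TS Tok) {n : ℕ} (h : S.G.Sz n) (hf : Ft n S.pos) (tag' : Tok → Fin 5) :
    TEq (Q kA n) S ⟨S.G.rot.rot.rot, S.pos, tag'⟩ :=
  ((teq_rot ⟨S.G.rot.rot.rot, S.pos, tag'⟩ h.rot.rot.rot hf S.tag)).symm

/-- Deletion of points that carry no token after a move. -/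
theorem teq_deln (S : TS Tok) (N : Set S.G.D) (h2 : ∀ d ∈ N, S.G.x2 d = d)
    (h3 : ∀ d ∈ N, S.G.x3 d = d) (h0 : ∀ d, ∃ e, e ∉ N ∧ S.G.x0.SameCycle d e) :
    (∀ d, ∃ e, e ∉ N ∧ S.G.x1.SameCycle d e) ∧
    ∀ (pos' : Tok → S.G.D) (tag' : Tok → Fin 5) (Δ H : ℕ), S.G.Sz Δ → Ft H S.pos →
      (∀ τ, pos' τ ∉ N) → (∀ τ, Nr S.G.y 10 (S.pos τ) (pos' τ)) →
      ∃ (S' : TS Tok) (ι : S'.G.D → S.G.D), Injective ι ∧ Set.range ι = Nᶜ ∧
        (∀ c d e, (S'.G.y c).SameCycle d e ↔ (S.G.y c).SameCycle (ι d) (ι e)) ∧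
        (∀ d, ι (S'.G.x2 d) = S.G.x2 (ι d)) ∧ (∀ d, ι (S'.G.x3 d) = S.G.x3 (ι d)) ∧
        (∀ c d, sz (S'.G.y c) d ≤ sz (S.G.y c) (ι d)) ∧ S'.G.Sz Δ ∧
        (∀ τ, ι (S'.pos τ) = pos' τ) ∧ S'.tag = tag' ∧ Ft (H * Q 30 Δ) S'.pos ∧
        (∀ c d, S'.W c d = TS.W ⟨S.G, pos', tag'⟩ c (ι d)) ∧
        (∀ c d, S'.Pt c d = TS.Pt ⟨S.G, pos', tag'⟩ c (ι d)) ∧
        TEq (Q (70 * kA) (Δ + H)) S S' := by
  obtain ⟨G', ι, hι, hr, hc, e2, e3, h1, hs, hq⟩ := deln S.G N h2 h3 h0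
  refine ⟨h1, fun pos' tag' Δ H hΔ hH hN hn => ?_⟩
  have hex : ∀ τ, ∃ d, ι d = pos' τ := fun τ => by
    have : pos' τ ∈ Set.range ι := by rw [hr]; exact hN τ
    exact this
  choose p hp using hex
  have hF : Ft (H * Q 30 Δ) pos' := ft_mov hn hΔ hH
  have hF' : Ft (H * Q 30 Δ) p := fun d => by
    refine le_trans (le_of_eq ?_) (hF (ι d))
    congr 1
    ext τ
    simp only [Set.mem_ofPred_eq, ← hp τ, hι.eq_iff]
  refine ⟨⟨G', p, tag'⟩, ι, hι, hr, hc, e2, e3, hs, fun c d => (hs c d).trans (hΔ c _), hp, rfl,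
    hF', fun c d => ?_, fun c d => ?_, ?_⟩
  · unfold TS.W
    congr 1
    ext τ
    simp only [Set.mem_ofPred_eq, hc, hp]
  · unfold TS.Pt
    congr 1
    ext τ
    simp only [Set.mem_ofPred_eq, ← hp τ, hι.eq_iff]
  · have hb : H * Q 30 Δ ≤ Q 31 (Δ + H) := by
      rw [show 31 = 1 + 30 from rfl]
      exact Q_mul_le ((by omega : H ≤ Δ + H + 2).trans (le_Q _ one_pos))
        (Q_mono le_rfl (by omega))
    have hb' : Δ ≤ Q 31 (Δ + H) := (by omega : Δ ≤ Δ + H + 2).trans (le_Q _ (by omega))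
    have t1 := teq_mov S (hΔ.mono (Nat.le_add_right Δ H)) (hH.mono (Nat.le_add_left H Δ)) pos'
      tag' hn
    have t2 : TEq (Q (33 * (2 * kA)) (Δ + H)) ⟨S.G, pos', tag'⟩ ⟨G', p, tag'⟩ := by
      intro I _ k hk
      have := hq I (p ∘ k) (p ∘ k) _ (hΔ.mono hb') ((hF'.mono hb).comp hk) ((hF'.mono hb).comp hk)
      have e : ι ∘ p ∘ k = pos' ∘ k := funext fun i => hp _
      rw [e] at this
      exact this.QQ le_rfl
    exact (t1.transQ t2).mono (Q_mono (by omega) le_rfl)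

omit [Finite Tok] in
theorem Inv.mono {S : TS Tok} {L : Set S.G.D} {Δ H μ M ν Δ' H' μ' M' ν' : ℕ}
    (h : Inv S L Δ H μ M ν) (h1 : Δ ≤ Δ') (h2 : H ≤ H') (h3 : μ' ≤ μ) (h4 : M' ≤ M)
    (h5 : ν' ≤ ν) : Inv S L Δ' H' μ' M' ν' :=
  ⟨h.sz.mono h1, h.ft.mono h2, h.fix, fun i hi => h3.trans (h.light i hi),
    fun d => h4.trans (h.h0 d), fun d => h4.trans (h.h1 d), fun d hd => h4.trans (h.h2 d hd),
    fun d => h4.trans (h.h3 d), fun d => h5.trans (h.res d)⟩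

/-- Disjoint nonempty sets of tokens inside one cell. -/
theorem W_ge_card {S : TS Tok} {κ : Fin 5} {d : S.G.D} {V : Type} (B : Set V) (nd : Tok → V)
    (h : ∀ x ∈ B, ∃ τ, nd τ = x ∧ S.tag τ = κ ∧ (S.G.y κ).SameCycle (S.pos τ) d) :
    B.ncard ≤ S.W κ d := by
  refine le_trans (Set.ncard_le_ncard (t := nd '' {τ | S.tag τ = κ ∧
    (S.G.y κ).SameCycle (S.pos τ) d}) (fun x hx => ?_) (Set.toFinite _ |>.image _))
    (Set.ncard_image_le (Set.toFinite _))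
  obtain ⟨τ, h1, h2⟩ := h x hx
  exact ⟨τ, h2, h1⟩

/-- Star bound: cells in `Ch` have size at most `β` and hang on points outside `Ch`. -/
theorem star_sz {D : Type} [Finite D] (A τ : Perm D) (Ch : Set D) (β Δ : ℕ) (hτ : τ * τ = 1)
    (hi : ∀ d, A d ∈ Ch ↔ d ∈ Ch) (hβ : ∀ d ∈ Ch, sz A d ≤ β) (hΔ : ∀ d, sz A d ≤ Δ)
    (h1 : ∀ d, τ d ≠ d → (d ∈ Ch ↔ τ d ∉ Ch))
    (h2 : ∀ d ∈ Ch, ∀ e ∈ Ch, τ d ≠ d → τ e ≠ e → A.SameCycle d e → d = e) (d : D) :
    sz (A * τ) d ≤ Δ * (β + 1) := by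
  classical
  have hττ : ∀ z, τ (τ z) = z := fun z => by rw [← Perm.mul_apply, hτ]; rfl
  have hCh : ∀ {z w}, A.SameCycle z w → (z ∈ Ch ↔ w ∈ Ch) := fun h =>
    Iff.of_eq (sc_lab (fun z => z ∈ Ch) (fun e => propext (hi e)) h)
  have key : ∀ e : D, (e ∈ Ch → ∀ u, A.SameCycle e u → τ u = u) →
      sz (A * τ) e ≤ Δ * (β + 1) := fun e he => by
    let C : Set D := {z | A.SameCycle e z}
    let K : D → Set D := fun z => insert z {w | τ z ≠ z ∧ τ z ∈ Ch ∧ A.SameCycle (τ z) w}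
    have hK : ∀ z, (K z).ncard ≤ β + 1 := fun z => by
      refine (Set.ncard_insert_le _ _).trans (Nat.add_le_add_right ?_ 1)
      by_cases hz : τ z ∈ Ch
      · exact le_trans (Set.ncard_le_ncard (fun w hw => hw.2.2) (Set.toFinite _)) (hβ _ hz)
      · rw [show {w | τ z ≠ z ∧ τ z ∈ Ch ∧ A.SameCycle (τ z) w} = ∅ from
          Set.eq_empty_of_forall_notMem fun w hw => hz hw.2.1]
        simp
    let P : D → Prop := fun w => A.SameCycle e w ∨
      ∃ z, A.SameCycle e z ∧ τ z ≠ z ∧ τ z ∈ Ch ∧ A.SameCycle (τ z) w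
    have hP : ∀ w, P w → P (τ w) := fun w hw => by
      by_cases hw0 : τ w = w
      · rwa [hw0]
      rcases hw with hw | ⟨z, hz, z1, z2, hw⟩
      · by_cases hc : w ∈ Ch
        · exact absurd (he ((hCh hw).2 hc) w hw) hw0
        · exact Or.inr ⟨w, hw, hw0, by_contra fun hh => hc ((h1 w hw0).2 hh), Perm.SameCycle.refl _ _⟩
      · have := h2 _ z2 w ((hCh hw).1 z2) (by rw [hττ]; exact fun h => z1 h.symm) hw0 hw
        rw [← this, hττ]
        exact Or.inl hz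
    have hP2 : ∀ w, P (A w) ↔ P w := fun w => by simp only [P, Perm.sameCycle_apply_right]
    have hP3 : ∀ w, P ((A * τ) w) = P w := fun w => by
      rw [Perm.mul_apply]
      exact propext ((hP2 _).trans ⟨fun h => hττ w ▸ hP _ h, hP w⟩)
    have hsub : {w | (A * τ).SameCycle e w} ⊆ ⋃ z ∈ (Set.toFinite C).toFinset, K z := by
      intro w hw
      have : P w := (sc_lab P hP3 hw) ▸ Or.inl (Perm.SameCycle.refl _ _)
      simp only [Set.mem_iUnion, Set.Finite.mem_toFinset]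
      rcases this with h | ⟨z, hz, h⟩
      · exact ⟨w, h, Or.inl rfl⟩
      · exact ⟨z, hz, Or.inr h⟩
    refine le_trans (Set.ncard_le_ncard hsub (Set.toFinite _)) ?_
    refine le_trans (Finset.set_ncard_biUnion_le _ _) ?_
    refine le_trans (Finset.sum_le_card_nsmul _ _ _ fun z _ => hK z) ?_
    rw [smul_eq_mul, ← Set.ncard_eq_toFinset_card]
    exact Nat.mul_le_mul_right _ (hΔ e)
  by_cases hd : d ∈ Ch → ∀ u, A.SameCycle d u → τ u = u
  · exact key d hd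
  push Not at hd
  obtain ⟨hd, u, hu, hu0⟩ := hd
  have huC : u ∈ Ch := (hCh hu).1 hd
  have hn : τ u ∉ Ch := (h1 u hu0).1 huC
  -- the cycle of `A * τ` through `τ u` runs through the cycle of `A` through `u`
  have hrun : ∀ k : ℕ, (A * τ).SameCycle (τ u) ((A ^ (k + 1)) u) ∨ ∃ l, 0 < l ∧ l ≤ k ∧ (A ^ l) u = u := by
    intro k
    induction k with
    | zero => exact Or.inl ⟨1, by simp [hττ]⟩
    | succ k ih =>
      rcases ih with ih | ⟨l, l0, l1, l2⟩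
      · by_cases hk : (A ^ (k + 1)) u = u
        · exact Or.inr ⟨k + 1, by omega, le_rfl, hk⟩
        · have hs : A.SameCycle u ((A ^ (k + 1)) u) := ⟨(k + 1 : ℕ), by rw [zpow_natCast]⟩
          have hf : τ ((A ^ (k + 1)) u) = (A ^ (k + 1)) u := by_contra fun hh =>
            hk (h2 u huC _ ((hCh hs).1 huC) hu0 hh hs).symm
          refine Or.inl (ih.trans ⟨1, ?_⟩)
          rw [zpow_one, Perm.mul_apply, hf, pow_succ' A (k + 1), Perm.mul_apply]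
      · exact Or.inr ⟨l, l0, by omega, l2⟩
  have hall : ∀ k : ℕ, (A * τ).SameCycle (τ u) ((A ^ (k + 1)) u) := by
    intro k
    induction k using Nat.strong_induction_on with
    | _ k ih =>
      rcases hrun k with h | ⟨l, l0, l1, l2⟩
      · exact h
      · have : (A ^ (k + 1)) u = (A ^ (k - l + 1)) u := by
          conv_rhs => rw [← l2, ← Perm.mul_apply, ← pow_add]
          rw [show k - l + 1 + l = k + 1 by omega]
        rw [this]
        exact ih _ (by omega)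
  obtain ⟨k, -, hk⟩ := (Perm.sameCycle_apply_left.2 hu.symm).exists_pow_eq'
  have : (A * τ).SameCycle (τ u) d := by
    rw [← hk, ← Perm.mul_apply, ← pow_succ]; exact hall k
  rw [← sz_congr this]
  exact key _ fun h => absurd h hn

/-- Clusters, with the clauses in the form used by the merges and the conversion. -/
theorem cl2 {V D : Type} [Finite V] [Finite D] (src tgt : D → V)
    (rev : ∀ u, Relation.ReflTransGen (fun x y => ∃ w, src w = x ∧ tgt w = y) (tgt u) (src u))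
    (Root : Set V) (t : ℕ) (ht : 0 < t) (n : ℕ) (hn : ∀ v, {e | tgt e = v}.ncard ≤ n) :
    ∃ (top : V → V) (rk : V → ℕ) (U : Set D),
      (∀ u ∈ U, rk (tgt u) < rk (src u) ∧ top (tgt u) = top (src u)) ∧ Set.InjOn src U ∧
      (∀ x, x ≠ top x ↔ ∃ u ∈ U, src u = x) ∧ (∀ x, top (top x) = top x) ∧
      (∀ x ∈ Root, top x = x) ∧
      (∀ y, top y = y → y ∈ Root ∨ t ≤ {x | top x = y}.ncard ∨
        ∀ u, top (src u) = y ↔ top (tgt u) = y) ∧
      ∀ y, {x | top x = y}.ncard ≤ (n + 1) * t := by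
  obtain ⟨U, rk, top, h1, h2, h3, h4, -, h6, h7⟩ := clus src tgt rev Root ht hn
  refine ⟨top, rk, U, fun u hu => ⟨(h2 u hu).1, (h2 u hu).2.1⟩, h1,
    fun x => ⟨fun h => by_contra fun k => h (h3 x k).symm, fun h e => h4 x (e ▸ h)⟩,
    fun x => h3 _ (h4 x), fun x hx => h3 x fun ⟨u, hu, e⟩ => (h2 u hu).2.2 (e ▸ hx),
    fun y hy => ?_, h7⟩
  have := h6 y
  rwa [hy] at this

end Pool.Agent.MC.LL
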