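import Pool.Agent.P.MP_2677b3_gt.LT0

open Equiv Function

noncomputable section

namespace Pool.Agent.MC.LL

open scoped ENNReal

theorem ls1_sq {β : Type} (ρ : β → ℝ≥0∞) (l : List β) (K : ℕ) (hK : l.length ≤ K) (T : ℝ≥0∞)
    (hT : ∀ b ∈ l, ρ b ^ 2 ≤ T) : (l.map ρ).sum ^ 2 ≤ (K : ℝ≥0∞) * K * T := by
  classical
  by_cases hl : l = []
  · subst hl; simp
  obtain ⟨b0, hb0, hmax⟩ := Finset.exists_max_image l.toFinset ρ (by simpa using hl)
  have h1 : (l.map ρ).sum ≤ (l.map ρ).length • ρ b0 := by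
    apply List.sum_le_card_nsmul
    intro x hx
    obtain ⟨b, hb, rfl⟩ := List.mem_map.1 hx
    exact hmax b (List.mem_toFinset.2 hb)
  rw [List.length_map, nsmul_eq_mul] at h1
  have h2 : (l.map ρ).sum ≤ (K : ℝ≥0∞) * ρ b0 := h1.trans (by gcongr)
  have h3 := hT b0 (List.mem_toFinset.1 hb0)
  calc (l.map ρ).sum ^ 2 ≤ ((K : ℝ≥0∞) * ρ b0) ^ 2 := by gcongr
    _ = (K : ℝ≥0∞) * K * ρ b0 ^ 2 := by ring
    _ ≤ (K : ℝ≥0∞) * K * T := by gcongr

theorem Mp.en_of_bound {A B : Gd} (f : Mp A B) (K M : ℕ) (hK : ∀ a, (f.e a).length ≤ K)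
    (hM : ∀ b, {a | b ∈ f.e a}.Finite ∧ {a | b ∈ f.e a}.ncard ≤ M) : f.En (K * K * M) := by
  classical
  intro ρ
  have h1 : ∀ a, ((f.e a).map ρ).sum ^ 2 ≤
      (K : ℝ≥0∞) * K * ∑' b, if b ∈ f.e a then ρ b ^ 2 else 0 := by
    intro a
    apply ls1_sq ρ _ K (hK a)
    intro b hb
    have := ENNReal.le_tsum (f := fun b => if b ∈ f.e a then ρ b ^ 2 else 0) b
    simpa [hb] using this
  have h2 : ∀ b, (∑' a, if b ∈ f.e a then ρ b ^ 2 else 0) ≤ (M : ℝ≥0∞) * ρ b ^ 2 := by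
    intro b
    obtain ⟨hf, hc⟩ := hM b
    rw [tsum_eq_sum (s := hf.toFinset) (fun a ha => if_neg (by simpa using ha))]
    have h3 : (∑ a ∈ hf.toFinset, if b ∈ f.e a then ρ b ^ 2 else 0) ≤
        hf.toFinset.card • ρ b ^ 2 := by
      apply Finset.sum_le_card_nsmul
      intro a _
      split_ifs
      · exact le_rfl
      · exact zero_le
    rw [nsmul_eq_mul, ← Set.ncard_eq_toFinset_card _ hf] at h3
    exact h3.trans (by gcongr)
  calc ∑' a, ((f.e a).map ρ).sum ^ 2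
      ≤ ∑' a, (K : ℝ≥0∞) * K * ∑' b, if b ∈ f.e a then ρ b ^ 2 else 0 :=
        ENNReal.tsum_le_tsum h1
    _ = (K : ℝ≥0∞) * K * ∑' b, ∑' a, if b ∈ f.e a then ρ b ^ 2 else 0 := by
        rw [ENNReal.tsum_mul_left, ENNReal.tsum_comm]
    _ ≤ (K : ℝ≥0∞) * K * ∑' b, (M : ℝ≥0∞) * ρ b ^ 2 := by
        gcongr with b
        exact h2 b
    _ = ((K * K * M : ℕ) : ℝ≥0∞) * ∑' b, ρ b ^ 2 := by
        rw [ENNReal.tsum_mul_left]
        push_cast
        ring

theorem ls1_arc_succ (S : St) (i : Fin 6) (d : S.D) (n : ℕ) :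
    S.arc i d (n + 1) = S.arc i d n ++ [S.ex i ((S.x i ^ n) d)] := by
  simp [St.arc, List.range_succ]

theorem ls1_at_inv (S : St) (b : S.Ed) (u : S.D) : S.At (S.inv b) u ↔ S.At b u := by
  rcases b with ⟨d, i, b⟩ | ⟨j, k, b⟩ <;> exact Iff.rfl

namespace St
variable (S : St)
theorem path_ex (i : Fin 6) (d : S.D) : S.gd.Path d [S.ex i d] (S.x i d) := ⟨rfl, rfl⟩
theorem path_ec (j : S.I) : S.gd.Path (S.pos (j, false)) [S.ec j] (S.pos (j, false)) :=
  ⟨rfl, rfl⟩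
theorem path_et (j : S.I) : S.gd.Path (S.pos (j, true)) [S.et j] (S.pos (j, false)) :=
  ⟨rfl, rfl⟩
theorem path_lw (φ : S.I × Bool) : S.gd.Path (S.pos φ) (S.lw φ) (S.pos φ) := by
  rcases φ with ⟨j, _ | _⟩
  · exact ⟨rfl, rfl⟩
  · exact ⟨rfl, rfl, rfl, rfl⟩
theorem path_lws (d : S.D) (l : List (S.I × Bool)) (h : ∀ φ ∈ l, S.pos φ = d) :
    S.gd.Path d (l.flatMap S.lw) d := by
  induction l with
  | nil => exact rfl
  | cons φ l ih =>
    rw [List.flatMap_cons]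
    have h1 := S.path_lw φ
    rw [h φ (by simp)] at h1
    exact h1.append (ih fun ψ hψ => h ψ (by simp [hψ]))
theorem path_arc (i : Fin 6) (d : S.D) (n : ℕ) : S.gd.Path d (S.arc i d n) ((S.x i ^ n) d) := by
  induction n with
  | zero => exact rfl
  | succ n ih =>
    rw [ls1_arc_succ, pow_succ', Perm.mul_apply]
    exact Gd.Path.append ih (S.path_ex i _)
theorem length_arc (i : Fin 6) (d : S.D) (n : ℕ) : (S.arc i d n).length = n := by
  simp [arc]
theorem length_lws (l : List (S.I × Bool)) : (l.flatMap S.lw).length ≤ 3 * l.length := by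
  apply length_flatMap_le
  rintro ⟨j, _ | _⟩ _ <;> simp [lw]
theorem at_arc {i : Fin 6} {d : S.D} {n : ℕ} {b : S.Ed} (h : b ∈ S.arc i d n) :
    ∃ k < n, S.At b ((S.x i ^ k) d) := by
  obtain ⟨k, hk, rfl⟩ := List.mem_map.1 h
  exact ⟨k, List.mem_range.1 hk, rfl⟩
theorem at_lw {φ : S.I × Bool} {b : S.Ed} (h : b ∈ S.lw φ) : S.At b (S.pos φ) := by
  rcases φ with ⟨j, _ | _⟩
  · obtain rfl : b = S.ec j := by simpa [lw] using h
    exact Or.inl rfl
  · have h' : b = S.et j ∨ b = S.inv (S.ec j) ∨ b = S.inv (S.et j) := by simpa [lw] using h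
    rcases h' with rfl | rfl | rfl <;> exact Or.inr rfl
theorem at_rev {p : List S.Ed} {b : S.Ed} (h : b ∈ S.gd.rev p) :
    ∃ b' ∈ p, ∀ u, S.At b u ↔ S.At b' u := by
  have h' : b ∈ (p.map S.inv).reverse := h
  obtain ⟨b', hb', rfl⟩ := List.mem_map.1 (List.mem_reverse.1 h')
  exact ⟨b', hb', ls1_at_inv S b'⟩
theorem length_rev (p : List S.Ed) : (S.gd.rev p).length = p.length := Gd.length_rev (A := S.gd) p
end St

namespace Vl
variable {S : St} {Γ : Type} [Group Γ] (V : Vl S Γ)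
@[simp] theorem ev_nil : V.ev [] = 1 := rfl
@[simp] theorem ev_cons (e : S.Ed) (p : List S.Ed) : V.ev (e :: p) = V.val e * V.ev p := by
  simp [ev]
@[simp] theorem ev_append (p q : List S.Ed) : V.ev (p ++ q) = V.ev p * V.ev q := by
  simp [ev]
@[simp] theorem val_inv (e : S.Ed) : V.val (S.inv e) = (V.val e)⁻¹ := by
  rcases e with ⟨d, i, _ | _⟩ | ⟨j, _ | _, _ | _⟩ <;> simp [St.inv, val]
@[simp] theorem ev_rev (p : List S.Ed) : V.ev (S.gd.rev p) = (V.ev p)⁻¹ := by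
  change V.ev (p.map S.inv).reverse = _
  induction p with
  | nil => simp
  | cons e p ih => simp [ih]
@[simp] theorem val_ex (i : Fin 6) (d : S.D) : V.val (S.ex i d) = V.X i d := rfl
@[simp] theorem val_ec (j : S.I) : V.val (S.ec j) = V.c j := rfl
@[simp] theorem val_et (j : S.I) : V.val (S.et j) = V.t j := rfl
@[simp] theorem ev_lw (φ : S.I × Bool) : V.ev (S.lw φ) = V.lt φ := by
  rcases φ with ⟨j, _ | _⟩ <;> simp [St.lw, lt, mul_assoc]
theorem ev_lws (l : List (S.I × Bool)) : V.ev (l.flatMap S.lw) = (l.map V.lt).prod := by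
  induction l with
  | nil => simp
  | cons φ l ih => simp [ih]
theorem ev_arc (i : Fin 6) (d : S.D) (n : ℕ) :
    V.ev (S.arc i d n) = ((List.range n).map fun k => V.X i ((S.x i ^ k) d)).prod := by
  unfold ev St.arc
  rw [List.map_map]
  rfl
theorem ev_flatMap {α : Type} (l : List α) (f : α → List S.Ed) :
    V.ev (l.flatMap f) = (l.map fun a => V.ev (f a)).prod := by
  induction l with
  | nil => simp
  | cons a l ih => simp [ih]
end Vl

theorem ls1_ev_face {S : St} {Γ : Type} [Group Γ] (V : Vl S Γ) (d : S.D) :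
    V.ev (S.face d) = ((S.ft d).map V.lt).prod * V.X 0 d * V.X 1 (S.x 0 d) *
      V.X 2 (S.x 1 (S.x 0 d)) * V.X 3 (S.x 2 (S.x 1 (S.x 0 d))) *
      V.X 4 (S.x 3 (S.x 2 (S.x 1 (S.x 0 d)))) *
      V.X 5 (S.x 4 (S.x 3 (S.x 2 (S.x 1 (S.x 0 d))))) := by
  unfold St.face
  rw [Vl.ev_append, Vl.ev_lws]
  simp only [Vl.ev_cons, Vl.ev_nil, Vl.val_ex, mul_one, mul_assoc]

/-- The tautological valuation. -/
theorem St.exists_vl (S : St) : ∃ V : Vl S S.gd.U, V.Ok ∧ ∀ p, V.ev p = S.gd.ev p := by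
  let V : Vl S S.gd.U :=
    ⟨fun i d => S.gd.val (S.ex i d), fun j => S.gd.val (S.ec j), fun j => S.gd.val (S.et j)⟩
  have hv : V.val = S.gd.val := by
    funext e
    rcases e with ⟨d, i, _ | _⟩ | ⟨j, _ | _, _ | _⟩
    · exact (S.gd.val_inv (S.ex i d)).symm
    · rfl
    · exact (S.gd.val_inv (S.ec j)).symm
    · rfl
    · exact (S.gd.val_inv (S.et j)).symm
    · rfl
  have he : ∀ p, V.ev p = S.gd.ev p := fun p => by
    unfold Vl.ev Gd.ev
    rw [hv]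
    rfl
  refine ⟨V, ⟨fun i => ?_, fun d => ?_⟩, he⟩
  · rw [pot_iff]
    intro d n hn
    rw [← Vl.ev_arc, he]
    exact pres_rel (Or.inr ⟨i, d, n, hn, rfl⟩)
  · rw [← ls1_ev_face, he]
    exact pres_rel (Or.inl ⟨d, rfl⟩)

/-- Universal property. -/
theorem Vl.Ok.lift {S : St} {Γ : Type} [Group Γ] {V : Vl S Γ} (h : V.Ok) :
    ∃ F : S.gd.U →* Γ, ∀ p, F (S.gd.ev p) = V.ev p := by
  refine pres_lift (src := S.src) (h := S.inv_inv) V.val V.val_inv ?_
  rintro r (⟨d, rfl⟩ | ⟨i, d, n, hn, rfl⟩)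
  · exact (ls1_ev_face V d).trans (h.face d)
  · exact (V.ev_arc i d n).trans ((pot_iff _ _).1 (h.pot i) d n hn)

theorem can_bd {D I : Type} [Finite D] [Finite I] {x : Fin 6 → Perm D} {rel} {pos : I × Bool → D}
    {n : ℕ} : (can x rel pos).Bd n ↔ Bd6 x pos n := by
  refine and_congr Iff.rfl (forall_congr' fun d => ?_)
  change (Set.toFinite {φ | pos φ = d}).toFinset.toList.length ≤ n ↔ _
  rw [Finset.length_toList, ← Set.ncard_eq_toFinset_card]

end Pool.Agent.MC.LL
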