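import Pool.Agent.P.MP_2677b3_gt.LS1

open Equiv Function

noncomputable section

namespace Pool.Agent.MC.LL

def Sb.LocY {A B : St} (f : Sb A B) (y : Fin 6 → Perm A.D) (K m : ℕ) (w : B.D → A.D) : Prop :=
  (∀ i d, (f.ex i d).length ≤ K ∧ ∀ b ∈ f.ex i d, ∃ u, B.At b u ∧ Nr y m (w u) d) ∧
  ∀ j, (f.ec j).length ≤ K ∧ (f.et j).length ≤ K ∧ ∀ b, b ∈ f.ec j ∨ b ∈ f.et j →
    ∃ u k, B.At b u ∧ Nr y m (w u) (A.pos (j, k))

theorem ls2_card {α β : Type} [Finite α] [Finite β] (S : Set α) (T : α → Set β) (U : Set β)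
    {p q : ℕ} (hU : ∀ y ∈ U, ∃ x ∈ S, y ∈ T x) (hS : S.ncard ≤ p) (hT : ∀ x, (T x).ncard ≤ q) :
    U.ncard ≤ p * q := by
  have h1 : U ⊆ ⋃ x ∈ S.toFinite.toFinset, T x := fun y hy => by
    obtain ⟨x, hx, h⟩ := hU y hy
    simp only [Set.mem_iUnion]
    exact ⟨x, by simpa using hx, h⟩
  refine (Set.ncard_le_ncard h1).trans ((Finset.set_ncard_biUnion_le _ _).trans ?_)
  refine (Finset.sum_le_card_nsmul _ _ q fun x _ => hT x).trans ?_
  rw [← Set.ncard_eq_toFinset_card S S.toFinite, smul_eq_mul]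
  exact Nat.mul_le_mul_right _ hS

theorem ls2_at2 (B : St) (b : B.Ed) : {u | B.At b u}.ncard ≤ 2 := by
  rcases b with ⟨d, i, c⟩ | ⟨j, k, c⟩
  · have : {u | B.At (.inl (d, i, c)) u} = {d} := by ext u; simp [St.At]
    rw [this]; simp
  · have : {u | B.At (.inr (j, k, c)) u} = {B.pos (j, false), B.pos (j, true)} := by
      ext u; simp [St.At]
    rw [this]
    exact (Set.ncard_insert_le _ _).trans (by simp)

theorem ls2_at (A : St) {n : ℕ} (hA : A.Bd n) (d : A.D) :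
    {a | A.At a d}.ncard ≤ 12 + 4 * n := by
  classical
  have h1 : {a | A.At a d} ⊆
      ((Finset.univ.image fun c : Fin 6 × Bool => (Sum.inl (d, c) : A.Ed)) ∪
        ((A.ft d).toFinset ×ˢ (Finset.univ : Finset (Bool × Bool))).image
          fun c => (Sum.inr (c.1.1, c.2) : A.Ed) : Finset A.Ed) := by
    rintro (⟨e, c⟩ | ⟨j, c⟩) h
    · obtain rfl : d = e := h
      simp
    · have h' : d = A.pos (j, false) ∨ d = A.pos (j, true) := h
      simp only [Finset.coe_union, Finset.coe_image, Set.mem_union, Set.mem_image]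
      right
      rcases h' with h' | h'
      · exact ⟨((j, false), c), by simp [A.mem, h'], rfl⟩
      · exact ⟨((j, true), c), by simp [A.mem, h'], rfl⟩
  refine (Set.ncard_le_ncard h1).trans ?_
  rw [Set.ncard_coe_finset]
  refine (Finset.card_union_le _ _).trans (add_le_add ?_ ?_)
  · exact Finset.card_image_le.trans (by simp)
  · refine Finset.card_image_le.trans ?_
    rw [Finset.card_product]
    have := (List.toFinset_card_le (A.ft d)).trans (hA.2 d)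
    simp only [Finset.card_univ, Fintype.card_prod, Fintype.card_bool]
    omega

variable {A B : St}

/-- The path of an edge. -/
def ls2_e (f : Sb A B) : A.Ed → List B.Ed
  | .inl (d, i, true) => f.ex i d
  | .inl (d, i, false) => B.gd.rev (f.ex i d)
  | .inr (j, false, true) => f.ec j
  | .inr (j, false, false) => B.gd.rev (f.ec j)
  | .inr (j, true, true) => f.et j
  | .inr (j, true, false) => B.gd.rev (f.et j)

theorem ls2_val (f : Sb A B) {Γ : Type} [Group Γ] (V : Vl B Γ) (a : A.Ed) :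
    V.ev (ls2_e f a) = (f.pull V).val a := by
  rcases a with ⟨d, i, _ | _⟩ | ⟨j, _ | _, _ | _⟩
  · exact V.ev_rev _
  · rfl
  · exact V.ev_rev _
  · rfl
  · exact V.ev_rev _
  · rfl

theorem ls2_ev (f : Sb A B) {Γ : Type} [Group Γ] (V : Vl B Γ) (p : List A.Ed) :
    V.ev (p.flatMap (ls2_e f)) = (f.pull V).ev p := by
  rw [V.ev_flatMap]
  simp only [ls2_val]
  rfl

theorem ls2_path (f : Sb A B) (a : A.Ed) :
    B.gd.Path (f.v (A.gd.src a)) (ls2_e f a) (f.v (A.gd.tgt a)) := by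
  rcases a with ⟨d, i, _ | _⟩ | ⟨j, _ | _, _ | _⟩
  · exact (f.px i d).rev
  · exact f.px i d
  · exact (f.pc j).rev
  · exact f.pc j
  · exact (f.pt j).rev
  · exact f.pt j

/-- The map of graphs of a good substitution. -/
def ls2_mp (f : Sb A B) (hf : f.Good) : Mp A.gd B.gd where
  v := f.v
  e := ls2_e f
  path := ls2_path f
  cong := fun _ p _ h => by
    obtain ⟨V, hV, hev⟩ := B.exists_vl
    obtain ⟨F, hF⟩ := (hf _ V hV).lift
    have h1 := hF p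
    rw [h, map_one] at h1
    exact (hev _).symm.trans ((ls2_ev f V p).trans h1.symm)

theorem ls2_back (f : Sb A B) (g : Sb B A) (hf : f.Good) (hg : g.Good) (h : f.Bk g) :
    (ls2_mp f hf).Back (ls2_mp g hg) := by
  obtain ⟨η, h1, h2⟩ := h
  obtain ⟨V, hV, hev⟩ := A.exists_vl
  obtain ⟨k1, k2, k3⟩ := h2 _ V hV
  refine ⟨η, h1, fun a => ?_⟩
  have e1 : A.gd.val a = V.val a := by
    have h3 : A.gd.ev [a] = A.gd.val a := (A.gd.ev_cons a []).trans (mul_one _)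
    have h4 : V.ev [a] = V.val a := (V.ev_cons a []).trans (by rw [V.ev_nil, mul_one])
    exact h3.symm.trans ((hev [a]).symm.trans h4)
  have e2 : A.gd.ev (((ls2_mp f hf).e a).flatMap (ls2_mp g hg).e) =
      (f.pull (g.pull V)).val a :=
    (hev _).symm.trans ((ls2_ev g V _).trans (ls2_val f _ a))
  rw [e1, e2, ← hev, ← hev]
  have inv : ∀ x y z w : A.gd.U, x * y = z * w → w * y⁻¹ = z⁻¹ * x := fun x y z w h => by
    rw [mul_inv_eq_iff_eq_mul, mul_assoc, h, inv_mul_cancel_left]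
  rcases a with ⟨d, i, _ | _⟩ | ⟨j, _ | _, _ | _⟩
  · exact inv _ _ _ _ (k1 i d)
  · exact k1 i d
  · exact inv _ _ _ _ (k2 j)
  · exact k2 j
  · exact inv _ _ _ _ (k3 j)
  · exact k3 j

theorem ls2_loc (f : Sb A B) {y : Fin 6 → Perm A.D} {K m : ℕ} {w : B.D → A.D}
    (l : f.LocY y K m w) (a : A.Ed) :
    (ls2_e f a).length ≤ K ∧
      ∀ b ∈ ls2_e f a, ∃ u d, B.At b u ∧ Nr y m (w u) d ∧ A.At a d := by
  have rv : ∀ (p : List B.Ed) (P : B.D → Prop), (p.length ≤ K ∧ ∀ b ∈ p, ∃ u, B.At b u ∧ P u) →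
      (B.gd.rev p).length ≤ K ∧ ∀ b ∈ B.gd.rev p, ∃ u, B.At b u ∧ P u := by
    intro p P h
    refine ⟨(B.length_rev p).le.trans h.1, fun b hb => ?_⟩
    obtain ⟨b', hb', e⟩ := B.at_rev hb
    obtain ⟨u, h1, h2⟩ := h.2 b' hb'
    exact ⟨u, (e u).2 h1, h2⟩
  have hx : ∀ d i c, (f.ex i d).length ≤ K ∧ ∀ b ∈ f.ex i d, ∃ u, B.At b u ∧
      ∃ e, Nr y m (w u) e ∧ A.At (.inl (d, i, c)) e := fun d i c =>
    ⟨(l.1 i d).1, fun b hb => by
      obtain ⟨u, h1, h2⟩ := (l.1 i d).2 b hb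
      exact ⟨u, h1, d, h2, rfl⟩⟩
  have hj : ∀ j c c' b, b ∈ f.ec j ∨ b ∈ f.et j → ∃ u, B.At b u ∧
      ∃ e, Nr y m (w u) e ∧ A.At (.inr (j, c, c')) e := fun j c c' b hb => by
    obtain ⟨u, k, h1, h2⟩ := (l.2 j).2.2 b hb
    refine ⟨u, h1, _, h2, ?_⟩
    cases k
    · exact Or.inl rfl
    · exact Or.inr rfl
  suffices h : (ls2_e f a).length ≤ K ∧
      ∀ b ∈ ls2_e f a, ∃ u, B.At b u ∧ ∃ d, Nr y m (w u) d ∧ A.At a d from
    ⟨h.1, fun b hb => by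
      obtain ⟨u, h1, d, h2⟩ := h.2 b hb
      exact ⟨u, d, h1, h2⟩⟩
  rcases a with ⟨d, i, _ | _⟩ | ⟨j, _ | _, _ | _⟩
  · exact rv _ _ (hx d i _)
  · exact hx d i _
  · exact rv _ _ ⟨(l.2 j).1, fun b hb => hj j _ _ b (Or.inl hb)⟩
  · exact ⟨(l.2 j).1, fun b hb => hj j _ _ b (Or.inl hb)⟩
  · exact rv _ _ ⟨(l.2 j).2.1, fun b hb => hj j _ _ b (Or.inr hb)⟩
  · exact ⟨(l.2 j).2.1, fun b hb => hj j _ _ b (Or.inr hb)⟩

theorem ls2_en (f : Sb A B) (hf : f.Good) {n k m : ℕ} (hA : A.Bd n) {w : B.D → A.D}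
    {y : Fin 6 → Perm A.D} (hy : ∀ i d, sz (y i) d ≤ n) (l : f.LocY y (Q k n) m w) : (ls2_mp f hf).En (Q (2 * k + 3 * m + 6) n) := by
  have hM : ∀ b : B.Ed, {a : A.Ed | b ∈ ls2_e f a}.ncard ≤ 2 * ((6 * n) ^ m * (12 + 4 * n)) := by
    intro b
    refine ls2_card {u | B.At b u} (fun u => {a | ∃ d, Nr y m (w u) d ∧ A.At a d}) _
      (fun a ha => ?_) (ls2_at2 B b) fun u => ?_
    · obtain ⟨u, d, h1, h2⟩ := (ls2_loc f l a).2 b ha
      exact ⟨u, h1, d, h2⟩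
    · refine ls2_card {d | Nr y m (w u) d} (fun d => {a | A.At a d}) _ (fun a ha => ha) ?_
        (ls2_at A hA)
      simpa using Nr.card hy m (w u)
  refine ((ls2_mp f hf).en_of_bound (Q k n) _ (fun a => (ls2_loc f l a).1)
    fun b => ⟨Set.toFinite (α := A.Ed) _, hM b⟩).mono ?_
  have h1 : (6 * n) ^ m ≤ Q (3 * m) n := by
    unfold Q
    rw [pow_mul]
    exact Nat.pow_le_pow_left (by nlinarith [Nat.zero_le (n ^ 3), Nat.zero_le (n ^ 2)]) _
  have h2 : 2 * (12 + 4 * n) ≤ Q 6 n := by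
    have h3 : 2 ^ 5 * (n + 2) ≤ Q 6 n := Q_mul_le (two_pow_le_Q 5 n) (le_Q n one_pos)
    omega
  have h4 := Q_mul_le h1 h2
  calc Q k n * Q k n * (2 * ((6 * n) ^ m * (12 + 4 * n)))
      = Q k n * Q k n * ((6 * n) ^ m * (2 * (12 + 4 * n))) := by ring
    _ ≤ Q k n * Q k n * Q (3 * m + 6) n := Nat.mul_le_mul_left _ h4
    _ = _ := by rw [Q_mul, Q_mul]; congr 1; ring

theorem qe_of_sbY {A B : St} (f : Sb A B) (g : Sb B A) (hf : f.Good) (hg : g.Good) (h1 : f.Bk g)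
    (h2 : g.Bk f) {n k m : ℕ} (hA : A.Bd n) (hB : B.Bd n) (y : Fin 6 → Perm A.D)
    (y' : Fin 6 → Perm B.D) (hy : ∀ i d, sz (y i) d ≤ n) (hy' : ∀ i d, sz (y' i) d ≤ n)
    (w : B.D → A.D) (w' : A.D → B.D)
    (l1 : f.LocY y (Q k n) m w) (l2 : g.LocY y' (Q k n) m w') :
    Qe (Q (2 * k + 3 * m + 6) n) A.gd B.gd :=
  ⟨ls2_mp f hf, ls2_mp g hg, ls2_back f g hf hg h1, ls2_back g f hg hf h2, ls2_en f hf hA hy l1,
    ls2_en g hg hB hy' l2⟩

/-- Two substitutions that are inverse on valuations give an equivalence. -/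
theorem qe_of_sb {A B : St} (f : Sb A B) (g : Sb B A) (hf : f.Good) (hg : g.Good) (h1 : f.Bk g)
    (h2 : g.Bk f) {n k m : ℕ} (hA : A.Bd n) (hB : B.Bd n) (w : B.D → A.D) (w' : A.D → B.D)
    (l1 : f.Loc (Q k n) m w) (l2 : g.Loc (Q k n) m w') :
    Qe (Q (2 * k + 3 * m + 6) n) A.gd B.gd :=
  ⟨ls2_mp f hf, ls2_mp g hg, ls2_back f g hf hg h1, ls2_back g f hg hf h2, ls2_en f hf hA hA.1 l1,
    ls2_en g hg hB hB.1 l2⟩

end Pool.Agent.MC.LL
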