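import Pool.Agent.P.MP_2677b3_gt.LT0

open Equiv Function

noncomputable section

namespace Pool.Agent.MC.LL

variable {D : Type}

theorem sc_self_apply (x : Perm D) (d : D) : x.SameCycle d (x d) :=
  Perm.sameCycle_apply_right.2 (Perm.SameCycle.refl _ _)

/-- Induction along a cycle. -/
theorem sc_ind [Finite D] {x : Perm D} {P : D → Prop} {a b : D} (h : x.SameCycle a b)
    (h0 : P a) (hs : ∀ d, x.SameCycle a d → P d → P (x d)) : P b := by
  obtain ⟨k, rfl⟩ := h.exists_nat_pow_eq
  induction k with
  | zero => simpa using h0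
  | succ k ih =>
    have hk : x.SameCycle a ((x ^ k) a) := ⟨k, by simp⟩
    rw [pow_succ', Perm.mul_apply]
    exact hs _ hk (ih hk)

theorem sc_fixed {x : Perm D} {a b : D} (ha : x a = a) (h : x.SameCycle a b) : a = b :=
  h.eq_of_left ha

/-- If all steps of a cycle except possibly the one at `u` respect an equivalence, all do. -/
theorem walk [Finite D] {x : Perm D} {R : D → D → Prop} (hR : Equivalence R) {u : D}
    (h : ∀ v, x.SameCycle u v → v ≠ u → R v (x v)) : R u (x u) := by
  have key : ∀ k : ℕ, R u (x u) ∨ R (x u) ((x ^ k) (x u)) := by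
    intro k
    induction k with
    | zero => exact Or.inr (by simpa using hR.refl _)
    | succ k ih =>
      rcases ih with ih | ih
      · exact Or.inl ih
      · by_cases e : (x ^ k) (x u) = u
        · rw [e] at ih; exact Or.inl (hR.symm ih)
        · right
          rw [pow_succ', Perm.mul_apply]
          exact hR.trans ih (h _ ((sc_self_apply x u).trans ⟨k, by simp⟩) e)
  obtain ⟨k, hk⟩ := (sc_self_apply x u).symm.exists_nat_pow_eq
  rcases key k with h1 | h1
  · exact h1
  · rw [hk] at h1; exact hR.symm h1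

theorem sc_equiv (x : Perm D) : Equivalence x.SameCycle :=
  ⟨Perm.SameCycle.refl _, Perm.SameCycle.symm, Perm.SameCycle.trans⟩

theorem Tree.left1 {A B : Perm D} (h : Tree A B) (d : D) : (B * A).SameCycle d (A d) := h.1 d

theorem Tree.right1 {A B : Perm D} (h : Tree A B) (d : D) : (B * A).SameCycle d (B d) := by
  have h1 := (h.1 (A⁻¹ d)).symm
  have h2 := sc_self_apply (B * A) (A⁻¹ d)
  simp only [Perm.mul_apply, Perm.coe_inv, apply_symm_apply] at h1 h2
  exact h1.trans h2

theorem Pot.inv {G : Type} [Group G] {x : Perm D} {X : D → G} (h : Pot x⁻¹ X) :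
    Pot x (fun d => (X (x d))⁻¹) := by
  obtain ⟨π, h⟩ := h
  refine ⟨π, fun d => ?_⟩
  have := h (x d)
  simp only [Perm.coe_inv, symm_apply_apply] at this
  rw [this]; group

/-- Transport of a tree along a bijection. -/
theorem Tree.map {D' : Type} {A B : Perm D} {A' B' : Perm D'} (e : D ≃ D')
    (hA : ∀ d, A' (e d) = e (A d)) (hB : ∀ d, B' (e d) = e (B d)) (h : Tree A B) :
    Tree A' B' := by
  refine ⟨fun d => ?_, fun G _ al be ha hb => ?_⟩
  · obtain ⟨d, rfl⟩ := e.surjective d
    obtain ⟨k, hk⟩ := h.1 d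
    have e1 : B' * A' = e.permCongr (B * A) := by
      ext z
      obtain ⟨z, rfl⟩ := e.surjective z
      simp [hA, hB]
    refine ⟨k, ?_⟩
    have e2 : (e.permCongr (B * A)) ^ k = e.permCongr ((B * A) ^ k) :=
      (map_zpow (e.permCongrHom) (B * A) k).symm
    rw [e1, e2, hA, ← hk]
    simp
  · obtain ⟨πa, ha⟩ := ha
    obtain ⟨πb, hb⟩ := hb
    obtain ⟨π, h1⟩ := h.2 G (fun d => al (e d)) (fun d => be (e d))
      ⟨fun d => πa (e d), fun d => by simp only [← hA, ha]⟩
      ⟨fun d => πb (e d), fun d => by simp only [← hB, hb]⟩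
    refine ⟨fun d => π (e.symm d), fun d => ?_⟩
    obtain ⟨d, rfl⟩ := e.surjective d
    simp only [hA, hB, symm_apply_apply, (h1 d).1, (h1 d).2, and_self]

/-- A chosen point of every cycle. -/
def rep (x : Perm D) (d : D) : D :=
  (Quotient.mk (Perm.SameCycle.setoid x) d).out

theorem rep_sc (x : Perm D) (d : D) : x.SameCycle d (rep x d) :=
  (Quotient.mk_out (s := Perm.SameCycle.setoid x) d).symm

theorem rep_eq {x : Perm D} {a b : D} (h : x.SameCycle a b) : rep x a = rep x b := by
  unfold rep
  rw [Quotient.sound (s := Perm.SameCycle.setoid x) h]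

theorem rep_apply (x : Perm D) (d : D) : rep x (x d) = rep x d :=
  (rep_eq (sc_self_apply x d)).symm

theorem rep_rep (x : Perm D) (d : D) : rep x (rep x d) = rep x d := (rep_eq (rep_sc x d)).symm

theorem rep_eq_iff {x : Perm D} {a b : D} : rep x a = rep x b ↔ x.SameCycle a b :=
  ⟨fun h => (rep_sc x a).trans (h ▸ (rep_sc x b).symm), rep_eq⟩

variable [Finite D]

/-- Rank criterion. -/
theorem tree_rank (A B : Perm D) (base : D → D) (rk : D → ℕ) (h1 : ∀ d, B.SameCycle d (base d))
    (h2 : ∀ d, base (B d) = base d) (h3 : ∀ d, rk (A d) = rk d)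
    (h4 : ∀ d, d ≠ base d → rk (base d) < rk d)
    (h5 : ∀ d e, d ≠ base d → e ≠ base e → A.SameCycle d e → d = e) : Tree A B := by
  have _h1 := h1
  have hb2 := h2
  have hrk := h3
  have hlt := h4
  have hone : ∀ d d', A.SameCycle d d' → d ≠ base d → d' ≠ base d' → d = d' :=
    fun d e a b c => h5 d e b c a
  clear h2 h3 h4 h5
  classical
  refine ⟨?_, fun G _ al be ha hb => ?_⟩
  · obtain ⟨N, hN⟩ : ∃ N, ∀ d, rk d ≤ N := by
      obtain ⟨N, hN⟩ := (Set.finite_range rk).bddAbove
      exact ⟨N, fun d => hN ⟨d, rfl⟩⟩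
    have key : ∀ m d, N - rk d = m → (B * A).SameCycle d (A d) := by
      intro m
      induction m using Nat.strong_induction_on with
      | _ m ih =>
        have s1 : ∀ d, N - rk d = m → A d = base (A d) → (B * A).SameCycle d (A d) := by
          intro d hd hu
          have w : (B * A).SameCycle (A d) (B (A d)) := by
            refine walk (sc_equiv _) fun v hv hne => ?_
            have bv : base v = A d := by rw [← sc_lab _ hb2 hv, ← hu]
            have l1 := hlt v (by rw [bv]; exact hne)
            rw [bv, hrk] at l1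
            have l2 : rk (A⁻¹ v) = rk v := by rw [← hrk]; simp
            have a1 := ih (N - rk (A⁻¹ v)) (by have := hN v; omega) (A⁻¹ v) rfl
            have a2 := sc_self_apply (B * A) (A⁻¹ v)
            simp only [Perm.mul_apply, Perm.coe_inv, apply_symm_apply] at a1 a2
            exact a1.symm.trans a2
          exact (sc_self_apply (B * A) d).trans w.symm
        intro d hd
        by_cases hu : A d = base (A d)
        · exact s1 d hd hu
        · refine walk (sc_equiv _) fun v hv hne => s1 v ?_ ?_
          · rw [← sc_lab _ hrk hv]; exact hd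
          · by_contra hc
            have := hone (A d) (A v)
              (((sc_self_apply A d).symm.trans hv).trans (sc_self_apply A v)) hu hc
            exact hne (A.injective this).symm
    exact fun d => key _ d rfl
  · obtain ⟨πa, ha⟩ := ha
    obtain ⟨πb, hb⟩ := hb
    have ex : ∀ N : ℕ, ∃ g : D → G, (∀ d, g (A d) = g d) ∧
        ∀ d, rk d < N → g d * πa d = g (base d) * πa (base d) * (πb (base d))⁻¹ * πb d := by
      intro N
      induction N with
      | zero => exact ⟨fun _ => 1, fun _ => rfl, fun d h => absurd h (Nat.not_lt_zero _)⟩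
      | succ N ih =>
        obtain ⟨g, g1, g2⟩ := ih
        let P : D → Prop := fun d => ∃ v, A.SameCycle d v ∧ v ≠ base v ∧ rk v = N
        let val : D → G := fun v => g (base v) * πa (base v) * (πb (base v))⁻¹ * πb v * (πa v)⁻¹
        let g' : D → G := fun d => if h : P d then val h.choose else g d
        have c1 : ∀ d v, A.SameCycle d v → v ≠ base v → rk v = N → g' d = val v := by
          intro d v h1 h2 h3
          have hP : P d := ⟨v, h1, h2, h3⟩
          have : hP.choose = v :=
            hone _ _ (hP.choose_spec.1.symm.trans h1) hP.choose_spec.2.1 h2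
          simp only [g', dif_pos hP, this]
        have c2 : ∀ d, rk d < N → g' d = g d := by
          intro d hd
          have hP : ¬ P d := by
            rintro ⟨v, h1, -, h3⟩
            have := sc_lab _ hrk h1
            omega
          simp only [g', dif_neg hP]
        refine ⟨g', fun d => ?_, fun d hd => ?_⟩
        · by_cases hP : P d
          · obtain ⟨v, h1, h2, h3⟩ := hP
            rw [c1 d v h1 h2 h3, c1 (A d) v ((sc_self_apply A d).symm.trans h1) h2 h3]
          · have hP' : ¬ P (A d) := by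
              rintro ⟨v, h1, h2⟩
              exact hP ⟨v, (sc_self_apply A d).trans h1, h2⟩
            simp only [g', dif_neg hP, dif_neg hP', g1]
        · by_cases e : d = base d
          · rw [← e]; group
          · have l := hlt d e
            rw [c2 (base d) (by omega)]
            by_cases e2 : rk d = N
            · rw [c1 d d (Perm.SameCycle.refl _ _) e e2]
              simp only [val]; group
            · rw [c2 d (by omega)]
              exact g2 d (by omega)
    obtain ⟨N, hN⟩ := (Set.finite_range rk).bddAbove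
    obtain ⟨g, g1, g2⟩ := ex (N + 1)
    have g3 := fun d => g2 d (Nat.lt_succ_of_le (hN ⟨d, rfl⟩))
    refine ⟨fun d => g d * πa d, fun d => ⟨?_, ?_⟩⟩
    · simp only [g1, ha, mul_assoc]
    · simp only []
      rw [g3 (B d), g3 d, hb2, hb, ← mul_assoc]

omit [Finite D] in
theorem Tree.symm {A B : Perm D} (h : Tree A B) : Tree B A := by
  refine ⟨fun d => ?_, fun G _ al be ha hb => ?_⟩
  · have h1 : (B * A).SameCycle (A⁻¹ d) (A⁻¹ (B d)) := by
      have a1 := h.1 (A⁻¹ d)
      have a2 := h.1 (A⁻¹ (B d))
      simp only [Perm.coe_inv, apply_symm_apply] at a1 a2 ⊢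
      exact (a1.trans (h.right1 d)).trans a2.symm
    have h2 := Perm.SameCycle.conj (g := A) h1
    have e : A * (B * A) * A⁻¹ = A * B := by group
    rw [e] at h2
    simpa using h2
  · obtain ⟨π, h1⟩ := h.2 G be al hb ha
    exact ⟨π, fun d => (h1 d).symm⟩

omit [Finite D] in
theorem Tree.conj {A B : Perm D} (h : Tree A B) (g : Perm D) :
    Tree (g * A * g⁻¹) (g * B * g⁻¹) :=
  h.map g (fun d => by simp) (fun d => by simp)

theorem Tree.left {A B : Perm D} (h : Tree A B) {d e : D} (hs : A.SameCycle d e) :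
    (B * A).SameCycle d e := sc_of_step h.left1 hs

theorem Tree.right {A B : Perm D} (h : Tree A B) {d e : D} (hs : B.SameCycle d e) :
    (B * A).SameCycle d e := sc_of_step h.right1 hs

omit [Finite D] in
theorem Tree.inv {A B : Perm D} (h : Tree A B) : Tree B⁻¹ A⁻¹ := by
  refine ⟨fun d => ?_, fun G _ al be ha hb => ?_⟩
  · rw [← mul_inv_rev, Perm.sameCycle_inv]
    have := (h.right1 (B⁻¹ d)).symm
    simpa using this
  · obtain ⟨π, h1⟩ := h.2 G _ _ hb.inv ha.inv
    refine ⟨π, fun d => ⟨?_, ?_⟩⟩
    · have := (h1 (B⁻¹ d)).2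
      simp only [Perm.coe_inv, apply_symm_apply] at this ⊢
      rw [this]; group
    · have := (h1 (A⁻¹ d)).1
      simp only [Perm.coe_inv, apply_symm_apply] at this ⊢
      rw [this]; group

/-- Permutations with disjoint supports form a tree. -/
theorem tree_of_disjoint {A B : Perm D} (h : ∀ d, A d = d ∨ B d = d) : Tree A B := by
  classical
  have nb : ∀ d, d ≠ rep B d → A d = d := fun d hd =>
    (h d).resolve_right fun e => hd (sc_fixed e (rep_sc B d))
  refine tree_rank A B (rep B) (fun d => if d = rep B d then 0 else 1) (rep_sc B) (rep_apply B)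
    (fun d => ?_) (fun d hd => ?_) (fun d d' hd _ e => sc_fixed (nb d hd) e)
  · by_cases e : A d = d
    · rw [e]
    · have h1 : d = rep B d := by_contra fun c => e (nb d c)
      have h2 : A d = rep B (A d) := by_contra fun c => e (A.injective (nb _ c))
      simp only [if_pos h1, if_pos h2]
  · simp only [if_pos (rep_rep B d).symm, if_neg hd]; exact Nat.one_pos

theorem tree_one (A : Perm D) : Tree A 1 := tree_of_disjoint fun _ => Or.inr rfl

theorem sc_sum {E : Type} [Finite E] (A : Perm D) (A' : Perm E) :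
    (∀ d d', (Perm.sumCongr A A').SameCycle (.inl d) (.inl d') ↔ A.SameCycle d d') ∧
    (∀ e e', (Perm.sumCongr A A').SameCycle (.inr e) (.inr e') ↔ A'.SameCycle e e') ∧
    (∀ d e, ¬ (Perm.sumCongr A A').SameCycle (.inl d) (.inr e)) ∧
    (∀ d, sz (Perm.sumCongr A A') (.inl d) = sz A d) ∧
    ∀ e, sz (Perm.sumCongr A A') (.inr e) = sz A' e := by
  have l := fun d => sc_map (σ := A) (σ' := Perm.sumCongr A A') Sum.inl Sum.inl_injective Set.univ
    (fun _ => Iff.rfl) (fun _ _ => rfl) (Set.mem_univ d)
  have r := fun d => sc_map (σ := A') (σ' := Perm.sumCongr A A') Sum.inr Sum.inr_injective Set.univ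
    (fun _ => Iff.rfl) (fun _ _ => rfl) (Set.mem_univ d)
  refine ⟨fun d d' => ?_, fun d d' => ?_, fun d e => ?_, fun d => (l d).2, fun d => (r d).2⟩
  · rw [(l d).1]; simp
  · rw [(r d).1]; simp
  · rw [(l d).1]; simp

theorem Tree.sum {E : Type} [Finite E] {A B : Perm D} {A' B' : Perm E} (h : Tree A B)
    (h' : Tree A' B') : Tree (Perm.sumCongr A A') (Perm.sumCongr B B') := by
  refine ⟨fun u => ?_, fun G _ al be ha hb => ?_⟩
  · rw [Perm.sumCongr_mul]
    rcases u with d | e
    · exact ((sc_sum (B * A) (B' * A')).1 d (A d)).2 (h.1 d)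
    · exact ((sc_sum (B * A) (B' * A')).2.1 e (A' e)).2 (h'.1 e)
  · obtain ⟨πa, ha⟩ := ha
    obtain ⟨πb, hb⟩ := hb
    obtain ⟨π, h1⟩ := h.2 G (fun d => al (.inl d)) (fun d => be (.inl d))
      ⟨fun d => πa (.inl d), fun d => ha (.inl d)⟩ ⟨fun d => πb (.inl d), fun d => hb (.inl d)⟩
    obtain ⟨π', h2⟩ := h'.2 G (fun d => al (.inr d)) (fun d => be (.inr d))
      ⟨fun d => πa (.inr d), fun d => ha (.inr d)⟩ ⟨fun d => πb (.inr d), fun d => hb (.inr d)⟩
    refine ⟨Sum.elim π π', fun u => ?_⟩
    rcases u with d | e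
    · exact h1 d
    · exact h2 e

/-- An involution that is a union of stars: the points of `N` are the child ends. -/
theorem tree_invol (A τ : Perm D) (hτ : τ * τ = 1) (N : Set D) (rk : D → ℕ)
    (h3 : ∀ d, rk (A d) = rk d) (h4 : ∀ d ∈ N, rk (τ d) < rk d)
    (h5 : ∀ d ∈ N, ∀ e ∈ N, A.SameCycle d e → d = e) (h6 : ∀ d, τ d ≠ d → d ∈ N ∨ τ d ∈ N) :
    Tree A τ := by
  classical
  have tt : ∀ d, τ (τ d) = d := fun d => by rw [← Perm.mul_apply, hτ]; rfl
  have nb : ∀ d, d ≠ (if d ∈ N then τ d else d) → d ∈ N := fun d hd =>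
    by_contra fun c => hd (if_neg c).symm
  refine tree_rank A τ (fun d => if d ∈ N then τ d else d) rk (fun d => ?_) (fun d => ?_) h3
    (fun d hd => ?_) (fun d e hd he s => h5 d (nb d hd) e (nb e he) s)
  · split_ifs
    · exact sc_self_apply τ d
    · exact Perm.SameCycle.refl _ _
  · by_cases c : d ∈ N
    · have : τ d ∉ N := fun c' => by
        have a := h4 d c
        have b := h4 _ c'
        rw [tt] at b
        omega
      simp only [if_pos c, if_neg this]
    · by_cases f : τ d = d
      · simp only [f]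
      · have := (h6 d f).resolve_left c
        simp only [if_neg c, if_pos this, tt]
  · have := nb d hd
    simp only [if_pos this]
    exact h4 d this

omit [Finite D] in
/-- The product of disjoint transpositions. -/
theorem exists_invol {R : Type} (a b : R → D) (ha : Injective a) (hb : Injective b)
    (hne : ∀ j k, a j ≠ b k) : ∃ τ : Perm D, τ * τ = 1 ∧ (∀ j, τ (a j) = b j) ∧
      (∀ j, τ (b j) = a j) ∧ ∀ d, τ d ≠ d → ∃ j, d = a j ∨ d = b j := by
  classical
  let f : D → D := fun d =>
    if h : ∃ j, a j = d then b h.choose else if h : ∃ j, b j = d then a h.choose else d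
  have fa : ∀ j, f (a j) = b j := fun j => by
    have h : ∃ k, a k = a j := ⟨j, rfl⟩
    simp only [f, dif_pos h, ha h.choose_spec]
  have fb : ∀ j, f (b j) = a j := fun j => by
    have h0 : ¬ ∃ k, a k = b j := fun ⟨k, e⟩ => hne k j e
    have h : ∃ k, b k = b j := ⟨j, rfl⟩
    simp only [f, dif_neg h0, dif_pos h, hb h.choose_spec]
  have fn : ∀ d, f d ≠ d → ∃ j, d = a j ∨ d = b j := fun d hd => by
    by_contra c
    have h0 : ¬ ∃ k, a k = d := fun ⟨k, e⟩ => c ⟨k, Or.inl e.symm⟩
    have h1 : ¬ ∃ k, b k = d := fun ⟨k, e⟩ => c ⟨k, Or.inr e.symm⟩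
    exact hd (by simp only [f, dif_neg h0, dif_neg h1])
  have ff : Involutive f := fun d => by
    by_cases c : f d = d
    · rw [c, c]
    · obtain ⟨j, rfl | rfl⟩ := fn d c
      · rw [fa, fb]
      · rw [fb, fa]
  exact ⟨ff.toPerm f, Equiv.ext ff, fa, fb, fn⟩

end Pool.Agent.MC.LL
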