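import Pool.Agent.P.MP_2677b3_gt.LS2
import Pool.Agent.P.MP_2677b3_gt.LT1

/-! Substitutions given by formulas that hold in every group. -/

open Equiv Function

noncomputable section

namespace Pool.Agent.MC.LL

theorem all6 {P : Fin 6 → Prop} (h0 : P 0) (h1 : P 1) (h2 : P 2) (h3 : P 3) (h4 : P 4)
    (h5 : P 5) : ∀ i, P i := by
  intro i
  fin_cases i
  exacts [h0, h1, h2, h3, h4, h5]

section
variable {D ι : Type} [Finite D] {y : ι → Perm D} {m : ℕ} {u u' d : D}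

theorem Nr.sc (h : Nr y m u d) (i : ι) (hs : (y i).SameCycle u u') : Nr y (m + 1) u' d :=
  Nr.symm ⟨u, i, h.symm, hs⟩

theorem Nr.ap (h : Nr y m u d) (i : ι) : Nr y (m + 1) (y i u) d := h.sc i (sc_self_apply _ _)

theorem Nr.ia (h : Nr y m u d) (i : ι) : Nr y (m + 1) ((y i)⁻¹ u) d :=
  h.sc i (Perm.sameCycle_inv.1 (sc_self_apply _ _))

omit [Finite D] in
theorem Nr.z (y : ι → Perm D) (d : D) : Nr y 0 d d := rfl
end

open Classical in
/-- The value of an arc for a chosen potential. -/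
def arcv {D Γ : Type} [Group Γ] (σ : Perm D) (α : D → Γ) (d e : D) : Γ :=
  if h : Pot σ α then (h.choose d)⁻¹ * h.choose e else 1

theorem Pot.arcv {D Γ : Type} [Group Γ] {σ : Perm D} {α : D → Γ} (h : Pot σ α) :
    ∃ π : D → Γ, (∀ d, π (σ d) = π d * α d) ∧ ∀ d e, arcv σ α d e = (π d)⁻¹ * π e :=
  ⟨h.choose, h.choose_spec, fun _ _ => dif_pos h⟩

theorem arcv_eq {D Γ : Type} [Finite D] [Group Γ] {σ : Perm D} {α π : D → Γ}
    (h : ∀ d, π (σ d) = π d * α d) {d e : D} (hs : σ.SameCycle d e) :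
    arcv σ α d e = (π d)⁻¹ * π e := by
  obtain ⟨π', h1, h2⟩ := Pot.arcv ⟨π, h⟩
  have := sc_lab (fun z => π z * (π' z)⁻¹) (fun z => by simp only [h, h1]; group) hs
  rw [h2]
  calc (π' d)⁻¹ * π' e = (π d)⁻¹ * (π d * (π' d)⁻¹) * π' e := by group
    _ = (π d)⁻¹ * π e := by rw [this]; group

/-- A group element attached to every valuation. -/
abbrev Fn (B : St) : Type 1 := ∀ (Γ : Type) [Group Γ], Vl B Γ → Γ

/-- The formula `Φ` is the value of a short path from `x` to `y` that stays in `N`. -/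
def Rz (B : St) (N : B.D → Prop) (K : ℕ) (x y : B.D) (Φ : Fn B) : Prop :=
  ∃ p : List B.Ed, B.gd.Path x p y ∧ p.length ≤ K ∧ (∀ b ∈ p, ∃ u, B.At b u ∧ N u) ∧
    ∀ (Γ : Type) [Group Γ] (V : Vl B Γ), V.Ok → V.ev p = Φ Γ V

namespace Rz
variable {B : St} {N N' : B.D → Prop} {K K' : ℕ} {x y z : B.D} {Φ Ψ : Fn B}

theorem one (x : B.D) : Rz B N 0 x x (fun _ _ _ => 1) :=
  ⟨[], rfl, le_rfl, fun _ h => absurd h (by simp), fun _ _ _ _ => rfl⟩

theorem ex (i : Fin 6) {d : B.D} (h : N d) : Rz B N 1 d (B.x i d) (fun _ _ V => V.X i d) :=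
  ⟨[B.ex i d], B.path_ex i d, le_rfl, fun b hb => ⟨d, by rw [List.mem_singleton.1 hb]; rfl, h⟩,
    fun _ _ V _ => by simp⟩

theorem ec (j : B.I) (k : Bool) (h : N (B.pos (j, k))) :
    Rz B N 1 (B.pos (j, false)) (B.pos (j, false)) (fun _ _ V => V.c j) :=
  ⟨[B.ec j], B.path_ec j, le_rfl, fun b hb => ⟨_, by
    rw [List.mem_singleton.1 hb]
    cases k
    exacts [Or.inl rfl, Or.inr rfl], h⟩, fun _ _ V _ => by simp⟩

theorem et (j : B.I) (k : Bool) (h : N (B.pos (j, k))) :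
    Rz B N 1 (B.pos (j, true)) (B.pos (j, false)) (fun _ _ V => V.t j) :=
  ⟨[B.et j], B.path_et j, le_rfl, fun b hb => ⟨_, by
    rw [List.mem_singleton.1 hb]
    cases k
    exacts [Or.inl rfl, Or.inr rfl], h⟩, fun _ _ V _ => by simp⟩

theorem mul (h : Rz B N K x y Φ) (h' : Rz B N K' y z Ψ) :
    Rz B N (K + K') x z (fun Γ _ V => Φ Γ V * Ψ Γ V) := by
  obtain ⟨p, p1, p2, p3, p4⟩ := h
  obtain ⟨q, q1, q2, q3, q4⟩ := h'
  refine ⟨p ++ q, p1.append q1, by rw [List.length_append]; omega, fun b hb => ?_,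
    fun Γ _ V hV => by rw [V.ev_append, p4 Γ V hV, q4 Γ V hV]⟩
  exact (List.mem_append.1 hb).elim (p3 b) (q3 b)

theorem inv (h : Rz B N K x y Φ) : Rz B N K y x (fun Γ _ V => (Φ Γ V)⁻¹) := by
  obtain ⟨p, p1, p2, p3, p4⟩ := h
  refine ⟨B.gd.rev p, p1.rev, (B.length_rev p).trans_le p2, fun b hb => ?_,
    fun Γ _ V hV => (V.ev_rev p).trans (by rw [p4 Γ V hV])⟩
  obtain ⟨b', h1, h2⟩ := B.at_rev hb
  obtain ⟨u, h3, h4⟩ := p3 b' h1
  exact ⟨u, (h2 u).2 h3, h4⟩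

theorem cg (h : Rz B N K x y Φ) {x' y' : B.D} (hK : K ≤ K') (hx : x = x') (hy : y = y')
    (hΦ : ∀ (Γ : Type) [Group Γ] (V : Vl B Γ), V.Ok → Φ Γ V = Ψ Γ V) : Rz B N K' x' y' Ψ := by
  obtain ⟨p, p1, p2, p3, p4⟩ := h
  subst hx hy
  exact ⟨p, p1, p2.trans hK, p3, fun Γ _ V hV => (p4 Γ V hV).trans (hΦ Γ V hV)⟩

theorem ends (h : Rz B N K x y Φ) {x' y' : B.D} (hx : x = x') (hy : y = y') :
    Rz B N K x' y' Φ := h.cg le_rfl hx hy fun _ _ _ _ => rfl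

theorem le (h : Rz B N K x y Φ) (hK : K ≤ K') : Rz B N K' x y Φ :=
  h.cg hK rfl rfl fun _ _ _ _ => rfl

theorem mono (h : Rz B N K x y Φ) (hN : ∀ u, N u → N' u) : Rz B N' K x y Φ := by
  obtain ⟨p, p1, p2, p3, p4⟩ := h
  exact ⟨p, p1, p2, fun b hb => (p3 b hb).imp fun u hu => ⟨hu.1, hN u hu.2⟩, p4⟩

theorem lt (φ : B.I × Bool) (h : N (B.pos φ)) :
    Rz B N 3 (B.pos φ) (B.pos φ) (fun _ _ V => V.lt φ) := by
  rcases φ with ⟨j, _ | _⟩
  · exact (ec j false h).le (by norm_num)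
  · exact ((et j true h).mul (ec j true h).inv).mul (et j true h).inv

/-- A product of loops. -/
theorem prod {α : Type} (l : List α) (F : α → Fn B) (h : ∀ a ∈ l, Rz B N K x x (F a)) :
    Rz B N (K * l.length) x x (fun Γ _ V => (l.map fun a => F a Γ V).prod) := by
  induction l with
  | nil => exact one x
  | cons a l ih =>
    exact ((h a (by simp)).mul (ih fun b hb => h b (by simp [hb]))).cg
      (by rw [List.length_cons]; exact le_of_eq (by ring)) rfl rfl fun _ _ _ _ => by simp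

/-- A product along a chain of points. -/
theorem chain (u : ℕ → B.D) (F : ℕ → Fn B) (m : ℕ)
    (h : ∀ k < m, Rz B N K (u k) (u (k + 1)) (F k)) :
    Rz B N (K * m) (u 0) (u m) (fun Γ _ V => ((List.range m).map fun k => F k Γ V).prod) := by
  induction m with
  | zero => exact one _
  | succ m ih =>
    exact ((ih fun k hk => h k (by omega)).mul (h m (by omega))).cg
      (le_of_eq (by ring)) rfl rfl fun _ _ _ _ => by simp [List.range_succ]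

/-- An arc of a cell. -/
theorem arc (i : Fin 6) {n : ℕ} {d e : B.D} (hn : sz (B.x i) d ≤ n) (hs : (B.x i).SameCycle d e)
    (h : ∀ u, (B.x i).SameCycle d u → N u) :
    Rz B N n d e (fun _ _ V => arcv (B.x i) (V.X i) d e) := by
  obtain ⟨k, hk, rfl⟩ := sc_exists_lt hs
  refine (chain (K := 1) (fun j => (B.x i ^ j) d) (fun j _ _ V => V.X i ((B.x i ^ j) d)) k
    fun j _ => ?_).cg (by omega) (by simp) rfl fun Γ _ V hV => ?_
  · exact (ex i (h _ ⟨j, by simp⟩)).ends rfl (by rw [pow_succ', Perm.mul_apply])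
  · obtain ⟨π, h1, h2⟩ := (hV.pot i).arcv
    rw [h2, pot_arc h1]

end Rz

theorem Vl.ext' {S : St} {Γ : Type} {V W : Vl S Γ} (h1 : ∀ i d, V.X i d = W.X i d)
    (h2 : ∀ j, V.c j = W.c j) (h3 : ∀ j, V.t j = W.t j) : V = W := by
  cases V; cases W
  simp only [Vl.mk.injEq]
  exact ⟨funext fun i => funext (h1 i), funext h2, funext h3⟩

/-- A substitution given by formulas. -/
structure Fm (A B : St) where
  v : A.D → B.D
  F : ∀ (Γ : Type) [Group Γ], Vl B Γ → Vl A Γ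

namespace Fm
variable {A B : St}

/-- The formulas are values of short local paths and preserve the relations. -/
structure Rl (f : Fm A B) (y : Fin 6 → Perm A.D) (K m : ℕ) (w : B.D → A.D) : Prop where
  x : ∀ i d, Rz B (fun u => Nr y m (w u) d) K (f.v d) (f.v (A.x i d))
    (fun Γ _ V => (f.F Γ V).X i d)
  c : ∀ j, Rz B (fun u => ∃ k, Nr y m (w u) (A.pos (j, k))) K (f.v (A.pos (j, false)))
    (f.v (A.pos (j, false))) (fun Γ _ V => (f.F Γ V).c j)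
  t : ∀ j, Rz B (fun u => ∃ k, Nr y m (w u) (A.pos (j, k))) K (f.v (A.pos (j, true)))
    (f.v (A.pos (j, false))) (fun Γ _ V => (f.F Γ V).t j)
  ok : ∀ (Γ : Type) [Group Γ] (V : Vl B Γ), V.Ok → (f.F Γ V).Ok

def Bk (f : Fm A B) (g : Fm B A) : Prop :=
  ∃ η : A.D → Fn A, (∀ d, ∃ K, Rz A (fun _ => True) K d (g.v (f.v d)) (η d)) ∧
    ∀ (Γ : Type) [Group Γ] (V : Vl A Γ), V.Ok →
      (∀ i d, η d Γ V * (f.F Γ (g.F Γ V)).X i d = V.X i d * η (A.x i d) Γ V) ∧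
      (∀ j, η (A.pos (j, false)) Γ V * (f.F Γ (g.F Γ V)).c j =
        V.c j * η (A.pos (j, false)) Γ V) ∧
      ∀ j, η (A.pos (j, true)) Γ V * (f.F Γ (g.F Γ V)).t j = V.t j * η (A.pos (j, false)) Γ V

theorem bk_of_eq {f : Fm A B} {g : Fm B A} (hv : ∀ d, g.v (f.v d) = d)
    (h : ∀ (Γ : Type) [Group Γ] (V : Vl A Γ), V.Ok → f.F Γ (g.F Γ V) = V) : f.Bk g :=
  ⟨fun _ _ _ _ => 1, fun d => ⟨0, (Rz.one d).ends rfl (hv d).symm⟩, fun Γ _ V hV => by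
    rw [h Γ V hV]; simp⟩

theorem Rl.sb {f : Fm A B} {y : Fin 6 → Perm A.D} {K m : ℕ} {w : B.D → A.D} (h : f.Rl y K m w) :
    ∃ s : Sb A B, s.v = f.v ∧ s.LocY y K m w ∧
      ∀ (Γ : Type) [Group Γ] (V : Vl B Γ), V.Ok → s.pull V = f.F Γ V := by
  choose px x1 x2 x3 x4 using h.x
  choose pc c1 c2 c3 c4 using h.c
  choose pt t1 t2 t3 t4 using h.t
  refine ⟨⟨f.v, px, pc, pt, x1, c1, t1⟩, rfl, ⟨fun i d => ⟨x2 i d, x3 i d⟩,
    fun j => ⟨c2 j, t2 j, fun b hb => ?_⟩⟩, fun Γ _ V hV =>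
    Vl.ext' (fun i d => x4 i d Γ V hV) (fun j => c4 j Γ V hV) (fun j => t4 j Γ V hV)⟩
  obtain ⟨u, h1, k, h2⟩ := hb.elim (c3 j b) (t3 j b)
  exact ⟨u, k, h1, h2⟩

theorem Bk.sb {f : Fm A B} {g : Fm B A} (h : f.Bk g) {s : Sb A B} {r : Sb B A} (sv : s.v = f.v)
    (rv : r.v = g.v) (hs : ∀ (Γ : Type) [Group Γ] (V : Vl B Γ), V.Ok → s.pull V = f.F Γ V)
    (hr : ∀ (Γ : Type) [Group Γ] (V : Vl A Γ), V.Ok → r.pull V = g.F Γ V)
    (ok : ∀ (Γ : Type) [Group Γ] (V : Vl A Γ), V.Ok → (g.F Γ V).Ok) : s.Bk r := by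
  obtain ⟨η, h1, h2⟩ := h
  choose K p p1 _ _ p4 using h1
  refine ⟨p, fun d => by rw [sv, rv]; exact p1 d, fun Γ _ V hV => ?_⟩
  rw [hr Γ V hV, hs Γ _ (ok Γ V hV)]
  simp only [p4 _ Γ V hV]
  exact h2 Γ V hV

end Fm

/-- Two formula substitutions that are inverse on valuations give an equivalence. -/
theorem qe_of_fm {A B : St} (f : Fm A B) (g : Fm B A) {n k m : ℕ} (hA : A.Bd n) (hB : B.Bd n)
    {y : Fin 6 → Perm A.D} {y' : Fin 6 → Perm B.D} (hy : ∀ i d, sz (y i) d ≤ n)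
    (hy' : ∀ i d, sz (y' i) d ≤ n) {w : B.D → A.D} {w' : A.D → B.D}
    (hf : f.Rl y (Q k n) m w) (hg : g.Rl y' (Q k n) m w') (h1 : f.Bk g) (h2 : g.Bk f) :
    Qe (Q (2 * k + 3 * m + 6) n) A.gd B.gd := by
  obtain ⟨s, s1, s2, s3⟩ := hf.sb
  obtain ⟨r, r1, r2, r3⟩ := hg.sb
  exact qe_of_sbY s r (fun Γ _ V hV => by rw [s3 Γ V hV]; exact hf.ok Γ V hV)
    (fun Γ _ V hV => by rw [r3 Γ V hV]; exact hg.ok Γ V hV)
    (h1.sb s1 r1 s3 r3 hg.ok) (h2.sb r1 s1 r3 s3 hf.ok) hA hB y y' hy hy' w w' s2 r2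

end Pool.Agent.MC.LL
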