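import Pool.Agent.P.MP_2677b3_gt.LBase
import Pool.Agent.P.MP_2677b3_gt.Defs

/-! States: tuples of permutations with product one, with tubes.  Definitions. -/

open Equiv

noncomputable section

namespace Pool.Agent.MC.LL

/-- Size of the cycle of `d`. -/
def sz {D : Type} (σ : Perm D) (d : D) : ℕ := {e | σ.SameCycle d e}.ncard

/-- Number of cycles that meet `S`. -/
def ncyc {D : Type} (σ : Perm D) (S : Set D) : ℕ :=
  (Quotient.mk (Perm.SameCycle.setoid σ) '' S).ncard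

/-- Finite sum over the indices that satisfy `P`. -/
def csum {I : Type} [Finite I] (P : I → Prop) (y : I → ℕ) : ℕ :=
  open Classical in
  letI := Fintype.ofFinite I
  ∑ j with P j, y j

theorem csum_eq {I : Type} [Fintype I] (P : I → Prop) [DecidablePred P] (y : I → ℕ) :
    csum P y = ∑ j with P j, y j :=
  Finset.sum_congr (by ext j; simp) fun _ _ => rfl

/-- At most `m` hops inside cycles. -/
def Nr {D ι : Type} (x : ι → Perm D) : ℕ → D → D → Prop
  | 0, d, e => d = e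
  | m + 1, d, e => ∃ u i, Nr x m d u ∧ (x i).SameCycle u e

theorem Nr_realize : True := by have := @Nr.eq_def; trivial

/-- At most `n` indices over each point. -/
def Ft {I D : Type} (n : ℕ) (a : I → D) : Prop := ∀ d, {i | a i = d}.ncard ≤ n

/-- The labels `α` of the arrows `d → σ d` have a potential. -/
def Pot {D Γ : Type} [Group Γ] (σ : Perm D) (α : D → Γ) : Prop :=
  ∃ π : D → Γ, ∀ d, π (σ d) = π d * α d

/-- The cycles of `A` and `B` form a planar forest. -/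
def Tree {D : Type} (A B : Perm D) : Prop :=
  (∀ d, (B * A).SameCycle d (A d)) ∧
    ∀ (Γ : Type) [Group Γ] (α β : D → Γ), Pot A α → Pot B β →
      ∃ π : D → Γ, ∀ d, π (A d) = π d * α d ∧ π (B d) = π d * β d

/-- Every cycle of `ω` has exactly one old point. -/
def IsEar {D E : Type} (ω : Perm (D ⊕ E)) (cn : E → D) : Prop :=
  (∀ e, ω.SameCycle (.inr e) (.inl (cn e))) ∧
    ∀ d d', ω.SameCycle (.inl d) (.inl d') → d = d'

/-- Extension by the identity. -/
abbrev xt {D : Type} (E : Type) (σ : Perm D) : Perm (D ⊕ E) := Perm.sumCongr σ 1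

/-- The cycles of `σ` and `τ` in `F` are matched, with equal sizes, by the tubes in `T`. -/
structure Mat {D I : Type} (σ τ : Perm D) (F : Set D) (T : Set I) (a b : I → D) : Prop where
  iσ : ∀ d, σ d ∈ F ↔ d ∈ F
  iτ : ∀ d, τ d ∈ F ↔ d ∈ F
  mem : ∀ i ∈ T, a i ∈ F ∧ b i ∈ F
  eq : ∀ i ∈ T, sz σ (a i) = sz τ (b i)
  exa : ∀ d ∈ F, ∃ i ∈ T, σ.SameCycle d (a i)
  exb : ∀ d ∈ F, ∃ i ∈ T, τ.SameCycle d (b i)
  una : ∀ i ∈ T, ∀ j ∈ T, σ.SameCycle (a i) (a j) → i = j
  unb : ∀ i ∈ T, ∀ j ∈ T, τ.SameCycle (b i) (b j) → i = j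

/-- Parity condition. -/
def Par {D : Type} (A C : Perm D) (F : Set D) : Prop :=
  ∀ O ⊆ F, (∀ d, A d ∈ O ↔ d ∈ O) → (∀ d, C d ∈ O ↔ d ∈ O) → Even (ncyc A O + ncyc C O)

/-- A state with six slots. -/
structure St where
  D : Type
  fD : Finite D
  x : Fin 6 → Perm D
  rel : x 5 * x 4 * x 3 * x 2 * x 1 * x 0 = 1
  I : Type
  fI : Finite I
  pos : I × Bool → D
  ft : D → List (I × Bool)
  nd : ∀ d, (ft d).Nodup
  mem : ∀ d φ, φ ∈ ft d ↔ pos φ = d

namespace St

instance (S : St) : Finite S.D := S.fD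
instance (S : St) : Finite S.I := S.fI

abbrev Ed (S : St) : Type := (S.D × Fin 6 × Bool) ⊕ (S.I × Bool × Bool)

def src (S : St) : S.Ed → S.D
  | .inl (d, _, true) => d
  | .inl (d, i, false) => S.x i d
  | .inr (j, false, _) => S.pos (j, false)
  | .inr (j, true, true) => S.pos (j, true)
  | .inr (j, true, false) => S.pos (j, false)

def inv (S : St) : S.Ed → S.Ed
  | .inl (d, i, b) => .inl (d, i, !b)
  | .inr (j, k, b) => .inr (j, k, !b)

theorem inv_inv (S : St) (e : S.Ed) : S.inv (S.inv e) = e := by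
  rcases e with ⟨d, i, b⟩ | ⟨j, k, b⟩ <;> simp [inv]

/-- The arrow `d → x i d`. -/
abbrev ex (S : St) (i : Fin 6) (d : S.D) : S.Ed := .inl (d, i, true)
/-- The loop of a tube at its first foot. -/
abbrev ec (S : St) (j : S.I) : S.Ed := .inr (j, false, true)
/-- The arrow of a tube from the second foot to the first. -/
abbrev et (S : St) (j : S.I) : S.Ed := .inr (j, true, true)

/-- The letter of a foot. -/
def lw (S : St) : S.I × Bool → List S.Ed
  | (j, false) => [S.ec j]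
  | (j, true) => [S.et j, S.inv (S.ec j), S.inv (S.et j)]

/-- `n` steps along `x i`. -/
def arc (S : St) (i : Fin 6) (d : S.D) (n : ℕ) : List S.Ed :=
  (List.range n).map fun k => S.ex i ((S.x i ^ k) d)

/-- The relator at `d`. -/
def face (S : St) (d : S.D) : List S.Ed :=
  (S.ft d).flatMap S.lw ++ [S.ex 0 d, S.ex 1 (S.x 0 d), S.ex 2 (S.x 1 (S.x 0 d)),
    S.ex 3 (S.x 2 (S.x 1 (S.x 0 d))), S.ex 4 (S.x 3 (S.x 2 (S.x 1 (S.x 0 d)))),
    S.ex 5 (S.x 4 (S.x 3 (S.x 2 (S.x 1 (S.x 0 d)))))]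

def gd (S : St) : Gd :=
  pres S.src S.inv S.inv_inv
    {r | (∃ d, r = S.face d) ∨ ∃ i d n, (S.x i ^ n) d = d ∧ r = S.arc i d n}

def Bd (S : St) (n : ℕ) : Prop := (∀ i d, sz (S.x i) d ≤ n) ∧ ∀ d, (S.ft d).length ≤ n

/-- The points at which an edge sits. -/
def At (S : St) : S.Ed → S.D → Prop
  | .inl (d, _, _), u => u = d
  | .inr (j, _, _), u => u = S.pos (j, false) ∨ u = S.pos (j, true)

end St

/-- The state with the feet at each point listed in some fixed order. -/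
abbrev can {D I : Type} [Finite D] [Finite I] (x : Fin 6 → Perm D)
    (rel : x 5 * x 4 * x 3 * x 2 * x 1 * x 0 = 1) (pos : I × Bool → D) : St where
  D := D
  fD := inferInstance
  x := x
  rel := rel
  I := I
  fI := inferInstance
  pos := pos
  ft := fun d => (Set.toFinite {φ | pos φ = d}).toFinset.toList
  nd := fun _ => Finset.nodup_toList _
  mem := fun d φ => by simp

def Bd6 {D I : Type} (x : Fin 6 → Perm D) (pos : I × Bool → D) (n : ℕ) : Prop :=
  (∀ i d, sz (x i) d ≤ n) ∧ Ft n pos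

/-- Values in a group for the edges of a state. -/
structure Vl (S : St) (Γ : Type) where
  X : Fin 6 → S.D → Γ
  c : S.I → Γ
  t : S.I → Γ

namespace Vl
variable {S : St} {Γ : Type} [Group Γ]

def val (V : Vl S Γ) : S.Ed → Γ
  | .inl (d, i, true) => V.X i d
  | .inl (d, i, false) => (V.X i d)⁻¹
  | .inr (j, false, true) => V.c j
  | .inr (j, false, false) => (V.c j)⁻¹
  | .inr (j, true, true) => V.t j
  | .inr (j, true, false) => (V.t j)⁻¹

def ev (V : Vl S Γ) (p : List S.Ed) : Γ := (p.map V.val).prod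

def lt (V : Vl S Γ) : S.I × Bool → Γ
  | (j, false) => V.c j
  | (j, true) => V.t j * (V.c j)⁻¹ * (V.t j)⁻¹

structure Ok (V : Vl S Γ) : Prop where
  pot : ∀ i, Pot (S.x i) (V.X i)
  face : ∀ d, ((S.ft d).map V.lt).prod * V.X 0 d * V.X 1 (S.x 0 d) * V.X 2 (S.x 1 (S.x 0 d)) *
    V.X 3 (S.x 2 (S.x 1 (S.x 0 d))) * V.X 4 (S.x 3 (S.x 2 (S.x 1 (S.x 0 d)))) *
    V.X 5 (S.x 4 (S.x 3 (S.x 2 (S.x 1 (S.x 0 d))))) = 1

end Vl

/-- A substitution: paths in `B` for the generating edges of `A`. -/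
structure Sb (A B : St) where
  v : A.D → B.D
  ex : Fin 6 → A.D → List B.Ed
  ec : A.I → List B.Ed
  et : A.I → List B.Ed
  px : ∀ i d, B.gd.Path (v d) (ex i d) (v (A.x i d))
  pc : ∀ j, B.gd.Path (v (A.pos (j, false))) (ec j) (v (A.pos (j, false)))
  pt : ∀ j, B.gd.Path (v (A.pos (j, true))) (et j) (v (A.pos (j, false)))

namespace Sb
variable {A B : St}

def pull (f : Sb A B) {Γ : Type} [Group Γ] (V : Vl B Γ) : Vl A Γ :=
  ⟨fun i d => V.ev (f.ex i d), fun j => V.ev (f.ec j), fun j => V.ev (f.et j)⟩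

def Good (f : Sb A B) : Prop := ∀ (Γ : Type) [Group Γ] (V : Vl B Γ), V.Ok → (f.pull V).Ok

def Bk (f : Sb A B) (g : Sb B A) : Prop :=
  ∃ η : A.D → List A.Ed, (∀ d, A.gd.Path d (η d) (g.v (f.v d))) ∧
    ∀ (Γ : Type) [Group Γ] (V : Vl A Γ), V.Ok →
      (∀ i d, V.ev (η d) * (f.pull (g.pull V)).X i d = V.X i d * V.ev (η (A.x i d))) ∧
      (∀ j, V.ev (η (A.pos (j, false))) * (f.pull (g.pull V)).c j =
        V.c j * V.ev (η (A.pos (j, false)))) ∧
      ∀ j, V.ev (η (A.pos (j, true))) * (f.pull (g.pull V)).t j =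
        V.t j * V.ev (η (A.pos (j, false)))

/-- Lengths are at most `K` and every edge used sits within `m` hops of the edge that uses it. -/
def Loc (f : Sb A B) (K m : ℕ) (w : B.D → A.D) : Prop :=
  (∀ i d, (f.ex i d).length ≤ K ∧ ∀ b ∈ f.ex i d, ∃ u, B.At b u ∧ Nr A.x m (w u) d) ∧
  ∀ j, (f.ec j).length ≤ K ∧ (f.et j).length ≤ K ∧ ∀ b, b ∈ f.ec j ∨ b ∈ f.et j →
    ∃ u k, B.At b u ∧ Nr A.x m (w u) (A.pos (j, k))

end Sb

/-- Four permutations with product one. -/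
structure P4 where
  D : Type
  fD : Finite D
  x0 : Perm D
  x1 : Perm D
  x2 : Perm D
  x3 : Perm D
  rel : x3 * x2 * x1 * x0 = 1

/-- Both feet as one function. -/
def feet {I D : Type} (a b : I → D) : I × Bool → D := fun φ => bif φ.2 then b φ.1 else a φ.1

namespace P4

instance (G : P4) : Finite G.D := G.fD

/-- The four slots, and the identity in slot four. -/
def y (G : P4) : Fin 5 → Perm G.D := ![G.x0, G.x1, G.x2, G.x3, 1]

def x6 (G : P4) : Fin 6 → Perm G.D := ![G.x0, G.x1, G.x2, G.x3, 1, 1]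

theorem rel6 (G : P4) : G.x6 5 * G.x6 4 * G.x6 3 * G.x6 2 * G.x6 1 * G.x6 0 = 1 := by
  simpa [x6] using G.rel

def gd (G : P4) {I : Type} [Finite I] (a b : I → G.D) : Gd := (can G.x6 G.rel6 (feet a b)).gd

def Sz (G : P4) (n : ℕ) : Prop := ∀ c d, sz (G.y c) d ≤ n

def Conn (G : P4) : Prop :=
  ∀ d e, Relation.ReflTransGen (fun u v => ∃ c, v = G.y c u) d e

abbrev rot (G : P4) : P4 := ⟨G.D, G.fD, G.x1, G.x2, G.x3, G.x0, by
  have h := G.rel
  have : G.x0 * G.x3 * G.x2 * G.x1 = G.x0 * (G.x3 * G.x2 * G.x1 * G.x0) * G.x0⁻¹ := by group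
  rw [this, h]; group⟩

abbrev hur (G : P4) : P4 := ⟨G.D, G.fD, G.x0⁻¹ * G.x1 * G.x0, G.x0, G.x2, G.x3, by
  rw [← G.rel]; group⟩

abbrev mir (G : P4) : P4 := ⟨G.D, G.fD, G.x1⁻¹, G.x0⁻¹, G.x3⁻¹, G.x2⁻¹, by
  have h := G.rel
  have : G.x2⁻¹ * G.x3⁻¹ * G.x0⁻¹ * G.x1⁻¹ =
    (G.x3 * G.x2)⁻¹ * (G.x3 * G.x2 * G.x1 * G.x0)⁻¹ * (G.x3 * G.x2) := by group
  rw [this, h]; group⟩

abbrev sw (G : P4) (β : Perm G.D) : P4 := ⟨G.D, G.fD, β⁻¹ * G.x0, G.x1 * β, G.x2, G.x3, by
  rw [← G.rel]; group⟩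

abbrev ear (G : P4) {E : Type} [Finite E] (ω : Perm (G.D ⊕ E)) : P4 :=
  ⟨G.D ⊕ E, inferInstance, ω * xt E G.x0, xt E G.x1 * ω⁻¹, xt E G.x2, xt E G.x3, by
    have h : xt E G.x3 * xt E G.x2 * xt E G.x1 * xt E G.x0 = 1 := by
      simp only [xt, Perm.sumCongr_mul, G.rel, mul_one, Perm.sumCongr_one]
    rw [← h]; group⟩

end P4

/-- A state with tagged tokens. -/
structure TS (Tok : Type) where
  G : P4
  pos : Tok → G.D
  tag : Tok → Fin 5

namespace TS
variable {Tok : Type}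

/-- Tokens with tag `κ` in the cell of `d` for slot `κ` (for `κ = 4`: at the point `d`). -/
def W (S : TS Tok) (κ : Fin 5) (d : S.G.D) : ℕ :=
  {τ | S.tag τ = κ ∧ (S.G.y κ).SameCycle (S.pos τ) d}.ncard

/-- Tokens with tag `κ` at the point `d`. -/
def Pt (S : TS Tok) (κ : Fin 5) (d : S.G.D) : ℕ := {τ | S.tag τ = κ ∧ S.pos τ = d}.ncard

end TS

/-- Equivalence for every family of tokens taken as handles. -/
def TEq {Tok : Type} (E : ℕ) (S S' : TS Tok) : Prop :=
  ∀ (I : Type) [Finite I] (ι : I → Tok), Function.Injective ι →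
    Qe E (S.G.gd (S.pos ∘ ι) (S.pos ∘ ι)) (S'.G.gd (S'.pos ∘ ι) (S'.pos ∘ ι))

/-- An action of the surface group on a finite set. -/
structure Act where
  D : Type
  fD : Finite D
  g : Fin 4 → Perm D
  rel : (g 3)⁻¹ * (g 2)⁻¹ * g 3 * g 2 * ((g 1)⁻¹ * (g 0)⁻¹ * g 1 * g 0) = 1

instance (A : Act) : Finite A.D := A.fD

/-- The Schreier graph with values in the surface group. -/
def Act.gd (A : Act) : Gd where
  V := A.D
  E := A.D × Fin 4 × Bool
  U := Pi2
  grp := inferInstance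
  src := fun e => bif e.2.2 then e.1 else A.g e.2.1 e.1
  inv := fun e => (e.1, e.2.1, !e.2.2)
  val := fun e => bif e.2.2 then PresentedGroup.of e.2.1 else (PresentedGroup.of e.2.1)⁻¹
  inv_inv := fun e => by simp
  val_inv := fun ⟨_, _, b⟩ => by cases b <;> simp

/-- Exponent for all the basic moves on four-slot states. -/
irreducible_def kA : ℕ := 100000000

end Pool.Agent.MC.LL
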