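import Pool.Agent.P.MP_2677b3_gt.LSt

open Equiv Function

noncomputable section

namespace Pool.Agent.MC.LL

variable {D : Type} [Finite D]

theorem sc_lab {Λ : Type} {σ : Perm D} (l : D → Λ) (h : ∀ e, l (σ e) = l e) {d e : D}
    (hs : σ.SameCycle d e) : l d = l e := by
  obtain ⟨k, rfl⟩ := hs.exists_nat_pow_eq
  induction k with
  | zero => rfl
  | succ k ih => rw [pow_succ', Perm.mul_apply, h, ← ih ⟨k, rfl⟩]

theorem sc_of_step {σ τ : Perm D} (h : ∀ e, τ.SameCycle e (σ e)) {d e : D}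
    (hs : σ.SameCycle d e) : τ.SameCycle d e := by
  exact Quotient.exact (sc_lab (Quotient.mk (Perm.SameCycle.setoid τ))
    (fun e => (Quotient.sound (h e)).symm) hs)

omit [Finite D] in
theorem lt0a_pow {D' : Type} {σ : Perm D} {σ' : Perm D'} (ι : D → D') (S : Set D)
    (hS : ∀ d, σ d ∈ S ↔ d ∈ S) (h : ∀ d ∈ S, σ' (ι d) = ι (σ d)) {d : D} (hd : d ∈ S) (k : ℕ) :
    (σ ^ k) d ∈ S ∧ (σ' ^ k) (ι d) = ι ((σ ^ k) d) := by
  induction k with
  | zero => exact ⟨hd, rfl⟩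
  | succ k ih =>
    rw [pow_succ', pow_succ', Perm.mul_apply, Perm.mul_apply, hS, ih.2, h _ ih.1]
    exact ⟨ih.1, rfl⟩

theorem lt0a_map {D' : Type} [Finite D'] {σ : Perm D} {σ' : Perm D'} (ι : D → D') (S : Set D)
    (hS : ∀ d, σ d ∈ S ↔ d ∈ S) (h : ∀ d ∈ S, σ' (ι d) = ι (σ d)) {d : D} (hd : d ∈ S) (u : D') :
    σ'.SameCycle (ι d) u ↔ ∃ e, u = ι e ∧ σ.SameCycle d e := by
  constructor
  · intro hu
    obtain ⟨k, rfl⟩ := hu.exists_nat_pow_eq
    exact ⟨_, (lt0a_pow ι S hS h hd k).2, k, rfl⟩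
  · rintro ⟨e, rfl, he⟩
    obtain ⟨k, rfl⟩ := he.exists_nat_pow_eq
    exact ⟨k, (lt0a_pow ι S hS h hd k).2⟩

theorem sc_congr {σ τ : Perm D} (S : Set D) (hS : ∀ d, σ d ∈ S ↔ d ∈ S)
    (h : ∀ d ∈ S, σ d = τ d) {d : D} (hd : d ∈ S) (e : D) :
    σ.SameCycle d e ↔ τ.SameCycle d e := by
  simpa using (lt0a_map (σ' := τ) id S hS (fun d hd => (h d hd).symm) hd e).symm

theorem sc_map {D' : Type} [Finite D'] {σ : Perm D} {σ' : Perm D'} (ι : D → D') (hι : Injective ι)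
    (S : Set D) (hS : ∀ d, σ d ∈ S ↔ d ∈ S) (h : ∀ d ∈ S, σ' (ι d) = ι (σ d)) {d : D}
    (hd : d ∈ S) : (∀ u, σ'.SameCycle (ι d) u ↔ ∃ e, u = ι e ∧ σ.SameCycle d e) ∧
      sz σ' (ι d) = sz σ d := by
  refine ⟨lt0a_map ι S hS h hd, ?_⟩
  rw [sz, sz, ← Set.ncard_image_of_injective _ hι]
  exact congrArg _ (Set.ext fun u => (lt0a_map ι S hS h hd u).trans
    ⟨fun ⟨e, a, b⟩ => ⟨e, b, a.symm⟩, fun ⟨e, a, b⟩ => ⟨e, b.symm, a⟩⟩)

theorem sz_pos (σ : Perm D) (d : D) : 0 < sz σ d := by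
  exact (Set.ncard_pos (Set.toFinite _)).2 ⟨d, Perm.SameCycle.refl σ d⟩
theorem sz_congr {σ : Perm D} {d e : D} (h : σ.SameCycle d e) : sz σ d = sz σ e := by
  exact congrArg Set.ncard (Set.ext fun _ => ⟨h.symm.trans, h.trans⟩)
theorem sz_inv (σ : Perm D) (d : D) : sz σ⁻¹ d = sz σ d := by
  simp only [sz, Perm.sameCycle_inv]
theorem sz_conj (σ g : Perm D) (d : D) : sz (g * σ * g⁻¹) (g d) = sz σ d := by
  exact (sc_map g g.injective Set.univ (by simp) (by simp) (Set.mem_univ d)).2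
theorem sz_fix {σ : Perm D} {d : D} (h : σ d = d) : sz σ d = 1 := by
  exact Set.ncard_eq_one.2 ⟨d, Set.ext fun _ =>
    ⟨fun he => (Perm.SameCycle.eq_of_left he h).symm, fun he => he ▸ Perm.SameCycle.refl σ _⟩⟩
theorem sz_invol {σ : Perm D} (h : σ * σ = 1) (d : D) : sz σ d ≤ 2 := by
  refine (Set.ncard_le_ncard (t := {d, σ d}) (fun e he => ?_)).trans
    ((Set.ncard_insert_le _ _).trans (by simp))
  obtain ⟨k, rfl⟩ := Perm.SameCycle.exists_nat_pow_eq he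
  rw [pow_eq_pow_mod k ((sq σ).trans h)]
  rcases Nat.mod_two_eq_zero_or_one k with e | e <;> simp [e]
theorem sz_le_of_sc {σ τ : Perm D} (h : ∀ e, τ.SameCycle e (σ e)) (d : D) :
    sz σ d ≤ sz τ d := by
  exact Set.ncard_le_ncard fun _ he => sc_of_step h he
theorem sz_le_lab {Λ : Type} {σ : Perm D} (l : D → Λ) (h : ∀ e, l (σ e) = l e) (d : D) :
    sz σ d ≤ {e | l e = l d}.ncard := by
  exact Set.ncard_le_ncard fun _ he => (sc_lab l h he).symm

theorem lt0a_lt {σ : Perm D} {d e : D} (h : σ.SameCycle d e) :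
    ∃ k < minimalPeriod σ d, (σ ^ k) d = e := by
  obtain ⟨k, rfl⟩ := h.exists_nat_pow_eq
  exact ⟨_, Nat.mod_lt k (minimalPeriod_pos_of_mem_periodicPts (σ.injective.mem_periodicPts d)),
    by simpa only [Perm.iterate_eq_pow] using iterate_mod_minimalPeriod_eq (f := σ) (x := d)⟩

theorem lt0a_sz (σ : Perm D) (d : D) : sz σ d = minimalPeriod σ d := by
  rw [← Set.ncard_Iio_nat (minimalPeriod σ d),
    ← (iterate_injOn_Iio_minimalPeriod (f := σ) (x := d)).ncard_image]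
  refine congrArg Set.ncard (Set.ext fun e => ⟨fun h => ?_, ?_⟩)
  · exact lt0a_lt h
  · rintro ⟨k, -, rfl⟩
    exact ⟨k, rfl⟩

theorem lt0a_pow_sz (σ : Perm D) (d : D) : (σ ^ sz σ d) d = d := by
  simpa only [Perm.iterate_eq_pow, lt0a_sz] using iterate_minimalPeriod (f := σ) (x := d)

theorem lt0a_idx (σ : Perm D) (o : D → D) (ho : ∀ d, σ.SameCycle d (o d))
    (ho' : ∀ d e, σ.SameCycle d e → o d = o e) : ∃ idx : D → ℕ,
    (∀ d, (σ ^ idx d) (o d) = d) ∧ (∀ d, idx d < sz σ d) ∧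
    ∀ d k, k < sz σ d → idx ((σ ^ k) (o d)) = k := by
  choose idx h1 h2 using fun d => lt0a_lt (ho d).symm
  refine ⟨idx, h2, fun d => by rw [sz_congr (ho d), lt0a_sz]; exact h1 d, fun d k hk => ?_⟩
  have e : o ((σ ^ k) (o d)) = o d := (ho' _ _ ((ho d).trans ⟨k, rfl⟩)).symm
  rw [sz_congr (ho d), lt0a_sz] at hk
  refine iterate_injOn_Iio_minimalPeriod (f := σ) (x := o d)
    (by simpa only [e, Set.mem_Iio] using h1 ((σ ^ k) (o d))) hk ?_
  simpa only [Perm.iterate_eq_pow, e] using h2 ((σ ^ k) (o d))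

theorem lt0a_out (σ : Perm D) : ∃ o : D → D,
    (∀ d, σ.SameCycle d (o d)) ∧ ∀ d e, σ.SameCycle d e → o d = o e :=
  ⟨fun d => (Quotient.mk (Perm.SameCycle.setoid σ) d).out,
    fun d => (Quotient.mk_out (s := Perm.SameCycle.setoid σ) d).symm,
    fun _ _ h => congrArg Quotient.out (Quotient.sound h)⟩

theorem lt0a_base {Γ : Type} [Group Γ] (σ : Perm D) (α : D → Γ) (o : D → D)
    (ho : ∀ d, σ.SameCycle d (o d)) (ho' : ∀ d e, σ.SameCycle d e → o d = o e)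
    (h : ∀ d, o d = d → ((List.range (sz σ d)).map fun k => α ((σ ^ k) d)).prod = 1) :
    Pot σ α := by
  obtain ⟨idx, h1, h2, h3⟩ := lt0a_idx σ o ho ho'
  refine ⟨fun d => ((List.range (idx d)).map fun k => α ((σ ^ k) (o d))).prod, fun d => ?_⟩
  have e : o (σ d) = o d := (ho' _ _ ⟨1, by simp⟩).symm
  have e1 : σ d = (σ ^ (idx d + 1)) (o d) := by rw [pow_succ', Perm.mul_apply, h1]
  have e2 : ((List.range (idx d)).map fun k => α ((σ ^ k) (o d))).prod * α d =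
      ((List.range (idx d + 1)).map fun k => α ((σ ^ k) (o d))).prod := by
    rw [List.range_succ, List.map_append, List.prod_append, List.map_singleton,
      List.prod_singleton, h1]
  beta_reduce
  rw [e, e2]
  rcases (Nat.succ_le_of_lt (h2 d)).lt_or_eq with l | l
  · rw [e1, h3 d _ l]
  · have l' : idx d + 1 = sz σ (o d) := l.trans (sz_congr (ho d))
    rw [l', h _ (ho' _ _ (ho d)).symm, e1, l', lt0a_pow_sz]
    exact (congrArg (fun n => ((List.range n).map _).prod) (h3 d 0 (sz_pos σ d))).trans rfl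

/-- Coordinates along cycles. -/
theorem exists_idx (σ : Perm D) : ∃ (o : D → D) (idx : D → ℕ),
    (∀ d, σ.SameCycle d (o d)) ∧ (∀ d e, σ.SameCycle d e → o d = o e) ∧
    (∀ d, (σ ^ idx d) (o d) = d) ∧ (∀ d, idx d < sz σ d) ∧
    (∀ d k, k < sz σ d → idx ((σ ^ k) (o d)) = k) ∧ ∀ d, (σ ^ sz σ d) d = d := by
  obtain ⟨o, a, b⟩ := lt0a_out σ
  obtain ⟨idx, h1, h2, h3⟩ := lt0a_idx σ o a b
  exact ⟨o, idx, a, b, h1, h2, h3, lt0a_pow_sz σ⟩

theorem sc_exists_lt {σ : Perm D} {d e : D} (h : σ.SameCycle d e) :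
    ∃ k < sz σ d, (σ ^ k) d = e := by
  exact lt0a_sz σ d ▸ lt0a_lt h

omit [Finite D] in
theorem lt0a_arc {Γ : Type} [Group Γ] {σ : Perm D} {α π : D → Γ} (h : ∀ d, π (σ d) = π d * α d)
    (d : D) (n : ℕ) :
    ((List.range n).map fun k => α ((σ ^ k) d)).prod = (π d)⁻¹ * π ((σ ^ n) d) := by
  induction n with
  | zero => simp
  | succ n ih =>
    rw [List.range_succ, List.map_append, List.prod_append, List.map_singleton,
      List.prod_singleton, ih, pow_succ', Perm.mul_apply, h, mul_assoc]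

/-- A potential exists iff all closed words are trivial. -/
theorem pot_iff {Γ : Type} [Group Γ] (σ : Perm D) (α : D → Γ) :
    Pot σ α ↔ ∀ d n, (σ ^ n) d = d → ((List.range n).map fun k => α ((σ ^ k) d)).prod = 1 := by
  refine ⟨fun ⟨π, h⟩ d n e => by rw [lt0a_arc h, e, inv_mul_cancel], fun h => ?_⟩
  obtain ⟨o, a, b⟩ := lt0a_out σ
  exact lt0a_base σ α o a b fun d _ => h d _ (lt0a_pow_sz σ d)

theorem pot_arc {Γ : Type} [Group Γ] {σ : Perm D} {α π : D → Γ} (h : ∀ d, π (σ d) = π d * α d)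
    (d : D) (n : ℕ) :
    ((List.range n).map fun k => α ((σ ^ k) d)).prod = (π d)⁻¹ * π ((σ ^ n) d) := by
  exact lt0a_arc h d n

theorem Pot.fix {Γ : Type} [Group Γ] {σ : Perm D} {α : D → Γ} (h : Pot σ α) {d : D}
    (hd : σ d = d) : α d = 1 := by
  obtain ⟨π, h⟩ := h
  simpa [hd] using h d

/-- Coordinates along cycles for given base points. -/
theorem exists_idx_of (σ : Perm D) (o : D → D) (ho : ∀ d, σ.SameCycle d (o d))
    (ho' : ∀ d e, σ.SameCycle d e → o d = o e) : ∃ idx : D → ℕ,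
    (∀ d, (σ ^ idx d) (o d) = d) ∧ (∀ d, idx d < sz σ d) ∧
    ∀ d k, k < sz σ d → idx ((σ ^ k) (o d)) = k := by
  exact lt0a_idx σ o ho ho'

theorem pow_sz (σ : Perm D) (d : D) : (σ ^ sz σ d) d = d := by
  exact lt0a_pow_sz σ d

/-- It is enough to test the closed words at base points. -/
theorem pot_of_base {Γ : Type} [Group Γ] (σ : Perm D) (α : D → Γ) (o : D → D)
    (ho : ∀ d, σ.SameCycle d (o d)) (ho' : ∀ d e, σ.SameCycle d e → o d = o e)
    (h : ∀ d, o d = d → ((List.range (sz σ d)).map fun k => α ((σ ^ k) d)).prod = 1) :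
    Pot σ α := by
  exact lt0a_base σ α o ho ho' h

end Pool.Agent.MC.LL
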