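import Pool.Agent.P.MP_2677b3_gt.LT0a

open Equiv Function

noncomputable section

namespace Pool.Agent.MC.LL

variable {D : Type} [Finite D]

omit [Finite D] in
theorem lt0b_tr {ι : Type} {x : ι → Perm D} {m m' : ℕ} {d e u : D} (h : Nr x m d e)
    (h' : Nr x m' e u) : Nr x (m + m') d u := by
  induction m' generalizing u with
  | zero => exact (show e = u from h') ▸ h
  | succ m' ih =>
    obtain ⟨v, i, h1, h2⟩ := h'
    exact ⟨v, i, ih h1, h2⟩

theorem lt0b_un {α β : Type} [Finite α] (S : Set α) (f : α → Set β) (n : ℕ)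
    (h : ∀ a ∈ S, (f a).ncard ≤ n) : (⋃ a ∈ S, f a).ncard ≤ S.ncard * n := by
  induction S, Set.toFinite S using Set.Finite.induction_on with
  | empty => simp
  | insert ha hS ih =>
    rw [Set.biUnion_insert, Set.ncard_insert_of_notMem ha hS, add_mul, one_mul, add_comm]
    exact (Set.ncard_union_le _ _).trans (Nat.add_le_add (h _ (Set.mem_insert _ _))
      (ih fun a ha => h a (Set.mem_insert_of_mem _ ha)))

section
variable {ι : Type} {x : ι → Perm D}
theorem Nr.refl [Nonempty ι] (m : ℕ) (d : D) : Nr x m d d := by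
  induction m with
  | zero => rfl
  | succ m ih => exact ⟨d, Classical.arbitrary ι, ih, Perm.SameCycle.refl _ _⟩
theorem Nr.mono [Nonempty ι] {m m' : ℕ} {d e : D} (h : Nr x m d e) (hm : m ≤ m') :
    Nr x m' d e := by
  induction hm with
  | refl => exact h
  | step _ ih => exact ⟨e, Classical.arbitrary ι, ih, Perm.SameCycle.refl _ _⟩
theorem Nr.symm {m : ℕ} {d e : D} (h : Nr x m d e) : Nr x m e d := by
  induction m generalizing e with
  | zero => exact Eq.symm h
  | succ m ih =>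
    obtain ⟨u, i, h1, h2⟩ := h
    rw [add_comm]
    exact lt0b_tr ⟨e, i, rfl, h2.symm⟩ (ih h1)
theorem Nr.trans {m m' : ℕ} {d e u : D} (h : Nr x m d e) (h' : Nr x m' e u) :
    Nr x (m + m') d u := lt0b_tr h h'
theorem Nr.one {i : ι} {d e : D} (h : (x i).SameCycle d e) : Nr x 1 d e := ⟨d, i, rfl, h⟩
theorem Nr.card [Fintype ι] {n : ℕ} (h : ∀ i d, sz (x i) d ≤ n) (m : ℕ) (d : D) :
    {e | Nr x m d e}.ncard ≤ (Fintype.card ι * n) ^ m := by
  classical
  induction m with
  | zero => simp [Nr]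
  | succ m ih =>
    have e : {e | Nr x (m + 1) d e} =
        ⋃ u ∈ {e | Nr x m d e}, ⋃ i ∈ (Set.univ : Set ι), {e | (x i).SameCycle u e} := by
      ext e
      simp only [Set.mem_ofPred_eq, Set.mem_iUnion, Set.mem_univ, exists_const, exists_prop]
      exact ⟨fun ⟨u, i, a, b⟩ => ⟨u, a, i, b⟩, fun ⟨u, a, i, b⟩ => ⟨u, i, a, b⟩⟩
    rw [e, pow_succ]
    refine (lt0b_un _ _ (Fintype.card ι * n) fun u _ => ?_).trans (Nat.mul_le_mul_right _ ih)
    refine (lt0b_un _ _ n fun i _ => h i u).trans ?_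
    rw [Set.ncard_univ, Nat.card_eq_fintype_card]
theorem Ft.near [Fintype ι] {I : Type} [Finite I] {n H m : ℕ} (h : ∀ i d, sz (x i) d ≤ n)
    {a a' : I → D} (ha : Ft H a) (hn : ∀ i, Nr x m (a i) (a' i)) :
    Ft (H * (Fintype.card ι * n) ^ m) a' := by
  intro d
  have e : {i | a' i = d} ⊆ ⋃ u ∈ {e | Nr x m d e}, {i | a i = u} := fun i hi => by
    simp only [Set.mem_ofPred_eq, Set.mem_iUnion, exists_prop] at hi ⊢
    exact ⟨_, hi ▸ (hn i).symm, rfl⟩
  refine (Set.ncard_le_ncard e).trans ((lt0b_un _ _ H fun u _ => ha u).trans ?_)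
  rw [mul_comm]
  exact Nat.mul_le_mul_left _ (Nr.card h m d)
end

theorem Ft.mono {I : Type} {n n' : ℕ} {a : I → D} (h : Ft n a) (hn : n ≤ n') : Ft n' a :=
  fun d => (h d).trans hn
theorem Ft.comp {I J : Type} [Finite I] {n : ℕ} {a : I → D} (h : Ft n a) {ι : J → I}
    (hι : Injective ι) : Ft n (a ∘ ι) := fun d =>
  (Set.ncard_le_ncard_of_injOn ι (fun _ hj => hj) hι.injOn).trans (h d)
theorem Ft.map {I D' : Type} [Finite I] {n : ℕ} {a : I → D} (h : Ft n a) {ι : D → D'}
    (hι : Injective ι) : Ft n (ι ∘ a) := by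
  intro d
  by_cases hd : ∃ e, ι e = d
  · obtain ⟨e, rfl⟩ := hd
    exact (Set.ncard_le_ncard fun i hi => hι hi).trans (h e)
  · have : {i | (ι ∘ a) i = d} = ∅ := Set.eq_empty_of_forall_notMem fun i hi => hd ⟨_, hi⟩
    rw [this, Set.ncard_empty]
    exact Nat.zero_le _
theorem Ft.feet {I : Type} [Finite I] {n : ℕ} {a b : I → D} (ha : Ft n a) (hb : Ft n b) :
    Ft (2 * n) (feet a b) := by
  intro d
  have e : {φ | LL.feet a b φ = d} ⊆
      (fun i => (i, false)) '' {i | a i = d} ∪ (fun i => (i, true)) '' {i | b i = d} := by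
    rintro ⟨i, _ | _⟩ hi
    · exact Or.inl ⟨i, hi, rfl⟩
    · exact Or.inr ⟨i, hi, rfl⟩
  have h1 := (Set.ncard_image_le (f := fun i => (i, false)) (Set.toFinite _)).trans (ha d)
  have h2 := (Set.ncard_image_le (f := fun i => (i, true)) (Set.toFinite _)).trans (hb d)
  have h3 := (Set.ncard_le_ncard e).trans (Set.ncard_union_le _ _)
  omega

end Pool.Agent.MC.LL
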