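import Pool.Agent.P.MP_2677b3_gt.LT1

open Equiv Function

noncomputable section

namespace Pool.Agent.MC.LL

variable {D : Type}

/-- `b` sends `d` to the point `m` steps ahead along `p` and fixes the points between. -/
def Jump (p b : Perm D) (d : D) (m : ℕ) : Prop :=
  0 < m ∧ b d = (p ^ m) d ∧ ∀ k, 0 < k → k < m → b ((p ^ k) d) = (p ^ k) d

theorem Jump.pow {p b : Perm D} {d : D} {m : ℕ} (h : Jump p b d m) (k : ℕ) (hk : k < m) :
    ((b⁻¹ * p) ^ k) d = (p ^ k) d := by
  induction k with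
  | zero => simp
  | succ k ih =>
    rw [pow_succ', Perm.mul_apply, ih (by omega), Perm.mul_apply, ← Perm.mul_apply p, ← pow_succ',
      Perm.inv_eq_iff_eq]
    exact (h.2.2 (k + 1) (by omega) hk).symm

theorem Jump.close {p b : Perm D} {d : D} {m : ℕ} (h : Jump p b d m) :
    (b⁻¹ * p) ((p ^ (m - 1)) d) = d := by
  rw [Perm.mul_apply, ← Perm.mul_apply p, ← pow_succ', Nat.sub_add_cancel h.1, Perm.inv_eq_iff_eq]
  exact h.2.1.symm

/-- The cycle of `d` after the cut is the arc. -/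
theorem Jump.arc [Finite D] {p b : Perm D} {d : D} {m : ℕ} (h : Jump p b d m) (e : D) :
    (b⁻¹ * p).SameCycle d e ↔ ∃ k, k < m ∧ e = (p ^ k) d := by
  constructor
  · intro he
    refine sc_ind (P := fun e => ∃ k, k < m ∧ e = (p ^ k) d) he ⟨0, h.1, by simp⟩ ?_
    rintro _ - ⟨k, hk, rfl⟩
    by_cases c : k + 1 < m
    · refine ⟨k + 1, c, ?_⟩
      rw [← h.pow k hk, ← h.pow (k + 1) c, pow_succ', Perm.mul_apply ((b⁻¹ * p))]
    · have : k = m - 1 := by omega
      subst this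
      exact ⟨0, h.1, by rw [h.close]; simp⟩
  · rintro ⟨k, hk, rfl⟩
    exact ⟨k, by rw [zpow_natCast, h.pow k hk]⟩

/-- The size of an arc without repetition. -/
theorem Jump.sz [Finite D] {p b : Perm D} {d : D} {m : ℕ} (h : Jump p b d m)
    (hd : ∀ k, 0 < k → k < m → (p ^ k) d ≠ d) : sz (b⁻¹ * p) d = m := by
  have e : {e | (b⁻¹ * p).SameCycle d e} = (fun k => (p ^ k) d) '' Set.Iio m := by
    ext e
    simp only [Set.mem_setOf_eq, h.arc, Set.mem_image, Set.mem_Iio, eq_comm]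
  have aux : ∀ j k, j < k → k < m → (p ^ j) d ≠ (p ^ k) d := by
    intro j k jk km c
    obtain ⟨i, rfl⟩ := Nat.exists_eq_add_of_le jk.le
    rw [pow_add, Perm.mul_apply] at c
    exact hd i (by omega) (by omega) ((p ^ j).injective c).symm
  unfold LL.sz
  rw [e, Set.ncard_image_of_injOn, ← Finset.coe_range, Set.ncard_coe_finset, Finset.card_range]
  intro j hj k hk c
  rcases lt_trichotomy j k with l | l | l
  · exact absurd c (aux j k l hk)
  · exact l
  · exact absurd c.symm (aux k j l hj)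

/-- Hypotheses of the cutting lemma. -/
structure Cut (p b : Perm D) (base : D → D) : Prop where
  sc : ∀ d, b.SameCycle d (base d)
  inv : ∀ d, base (b d) = base d
  jump : ∀ d, d ≠ base d → ∃ m, Jump p b d m

/-- `x` lies in no arc. -/
def Res (q : Perm D) (base : D → D) (x : D) : Prop := ∀ d, q.SameCycle x d → d = base d

namespace Cut

variable [Finite D] {p b : Perm D} {base : D → D}

theorem bb (h : Cut p b base) (d : D) : base (base d) = base d := (sc_lab _ h.inv (h.sc d)).symm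

omit [Finite D] in
theorem fix (h : Cut p b base) {d : D} (e : b d = d) : d = base d := sc_fixed e (h.sc d)

theorem arc_fix (h : Cut p b base) {d e : D} (hd : d ≠ base d) (he : (b⁻¹ * p).SameCycle d e)
    (hne : e ≠ d) : b e = e := by
  obtain ⟨m, hm⟩ := h.jump d hd
  obtain ⟨k, hk, rfl⟩ := (hm.arc e).1 he
  rcases Nat.eq_zero_or_pos k with rfl | k0
  · simp at hne
  · exact hm.2.2 k k0 hk

theorem one (h : Cut p b base) {d e : D} (he : (b⁻¹ * p).SameCycle d e) (hd : d ≠ base d)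
    (he' : e ≠ base e) : d = e :=
  by_contra fun c => he' (h.fix (h.arc_fix hd he (Ne.symm c)))

/-- A base point of a nontrivial cycle of `b` is residual. -/
theorem res_base (h : Cut p b base) {x : D} (h1 : x = base x) (h2 : b x ≠ x) :
    Res (b⁻¹ * p) base x := by
  intro d hd
  by_contra c
  exact h2 (h.arc_fix c hd.symm (fun e => c (e ▸ h1)))

theorem res_base' (h : Cut p b base) {d : D} (hd : d ≠ base d) :
    Res (b⁻¹ * p) base (base d) :=
  h.res_base (h.bb d).symm fun e => hd (sc_fixed e (h.sc d).symm).symm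

theorem tree (h : Cut p b base) : Tree (b⁻¹ * p) b := by
  classical
  refine tree_rank _ _ base (fun x => if Res (b⁻¹ * p) base x then 0 else 1) h.sc h.inv
    (fun d => ?_) (fun d hd => ?_) (fun d d' hd hd' e => h.one e hd hd')
  · have : Res (b⁻¹ * p) base ((b⁻¹ * p) d) ↔ Res (b⁻¹ * p) base d := by
      unfold Res
      simp only [Perm.sameCycle_apply_left]
    simp only [this]
  · have h1 : ¬ Res (b⁻¹ * p) base d := fun r => hd (r d (Perm.SameCycle.refl _ _))
    simp only [if_pos (h.res_base' hd), if_neg h1]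
    exact Nat.one_pos

/-- New cells lie in old cells. -/
theorem le (h : Cut p b base) {x y : D} (e : (b⁻¹ * p).SameCycle x y) : p.SameCycle x y := by
  have := h.tree.left e
  rwa [mul_inv_cancel_left] at this

/-- Residual points of one old cell lie in one new cell. -/
theorem res_sc (h : Cut p b base) {x y : D} (hx : Res (b⁻¹ * p) base x)
    (hy : Res (b⁻¹ * p) base y) (e : p.SameCycle x y) : (b⁻¹ * p).SameCycle x y := by
  have key : ∀ z, p.SameCycle x z →
      (Res (b⁻¹ * p) base z ∧ (b⁻¹ * p).SameCycle x z) ∨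
      ∃ d, d ≠ base d ∧ (b⁻¹ * p).SameCycle d z ∧ (b⁻¹ * p).SameCycle x (base d) := by
    intro z hz
    refine sc_ind (P := fun z => (Res (b⁻¹ * p) base z ∧ (b⁻¹ * p).SameCycle x z) ∨
      ∃ d, d ≠ base d ∧ (b⁻¹ * p).SameCycle d z ∧ (b⁻¹ * p).SameCycle x (base d)) hz
      (Or.inl ⟨hx, Perm.SameCycle.refl _ _⟩) ?_
    intro z _ ih
    have bz : b ((b⁻¹ * p) z) = p z := by simp
    have sz := sc_self_apply (b⁻¹ * p) z
    by_cases f : b (p z) = p z
    · have e1 : (b⁻¹ * p) z = p z := b.injective (bz.trans f.symm)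
      rw [e1] at sz
      rcases ih with ⟨r, s⟩ | ⟨d, h1, h2, h3⟩
      · exact Or.inl ⟨fun d hd => r d (sz.trans hd), s.trans sz⟩
      · exact Or.inr ⟨d, h1, h2.trans sz, h3⟩
    · have nf : b ((b⁻¹ * p) z) ≠ (b⁻¹ * p) z := by
        intro c
        apply f
        rw [← bz, c, c]
      have bs : base (p z) = base ((b⁻¹ * p) z) := by rw [← bz, h.inv]
      have s3 : (b⁻¹ * p).SameCycle x (base (p z)) := by
        rcases ih with ⟨r, s⟩ | ⟨d, h1, h2, h3⟩
        · rw [bs, ← r _ sz]; exact s.trans sz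
        · have : (b⁻¹ * p) z = d := by_contra fun c => nf (h.arc_fix h1 (h2.trans sz) c)
          rw [bs, this]; exact h3
      by_cases c : p z = base (p z)
      · exact Or.inl ⟨h.res_base c f, c ▸ s3⟩
      · exact Or.inr ⟨p z, c, Perm.SameCycle.refl _ _, s3⟩
  rcases key y e with ⟨-, s⟩ | ⟨d, h1, h2, -⟩
  · exact s
  · exact absurd (hy d h2.symm) h1

end Cut

variable [Finite D]

/-- Cutting arcs out of the cycles of `p`. -/
theorem cut (p β : Perm D) (base : D → D) (hb : ∀ d, β.SameCycle d (base d))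
    (hb' : ∀ d, base (β d) = base d) (m : D → ℕ)
    (hm : ∀ d, d ≠ base d → 0 < m d ∧ (p ^ m d) d = β d ∧
      ∀ k, 0 < k → k < m d → β ((p ^ k) d) = (p ^ k) d) :
    Tree (β⁻¹ * p) β ∧
    (∀ d, d ≠ base d → ∀ e, (β⁻¹ * p).SameCycle d e ↔ ∃ k < m d, e = (p ^ k) d) ∧
    (∀ d, d ≠ base d → sz (β⁻¹ * p) d = m d) ∧
    (∀ d e, d ≠ base d → e ≠ base e → ¬ (β⁻¹ * p).SameCycle e (base d)) ∧
    ∀ e e', (∀ d, d ≠ base d → ¬ (β⁻¹ * p).SameCycle d e) →
      (∀ d, d ≠ base d → ¬ (β⁻¹ * p).SameCycle d e') → p.SameCycle e e' →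
      (β⁻¹ * p).SameCycle e e' := by
  have J : ∀ d, d ≠ base d → Jump p β d (m d) := fun d hd =>
    ⟨(hm d hd).1, (hm d hd).2.1.symm, (hm d hd).2.2⟩
  have h : Cut p β base := ⟨hb, hb', fun d hd => ⟨_, J d hd⟩⟩
  refine ⟨h.tree, fun d hd e => (J d hd).arc e, fun d hd => (J d hd).sz fun k k0 km c => ?_,
    fun d e hd he c => he (h.res_base' hd e c.symm), fun e e' h1 h2 s => h.res_sc ?_ ?_ s⟩
  · have := (J d hd).2.2 k k0 km
    rw [c] at this
    exact hd (h.fix this)
  · exact fun d s => by_contra fun c => h1 d c s.symm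
  · exact fun d s => by_contra fun c => h2 d c s.symm

omit [Finite D] in
/-- `r` is the first return map of `p` to `A`, the identity outside `A`. -/
def IsRet (p : Perm D) (A : Set D) (r : Perm D) : Prop :=
  (∀ d, d ∉ A → r d = d) ∧
  ∀ d ∈ A, ∃ m, 0 < m ∧ r d = (p ^ m) d ∧ r d ∈ A ∧ ∀ k, 0 < k → k < m → (p ^ k) d ∉ A

theorem exists_isRet (p : Perm D) (A : Set D) : ∃ r, IsRet p A r := by
  classical
  have ex : ∀ d ∈ A, ∃ m, 0 < m ∧ (p ^ m) d ∈ A := fun d hd =>
    ⟨orderOf p, orderOf_pos p, by simpa using hd⟩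
  let f : D → D := fun d => if h : d ∈ A then (p ^ Nat.find (ex d h)) d else d
  have f0 : ∀ d, d ∉ A → f d = d := fun d h => by simp only [f, dif_neg h]
  have f1 : ∀ d ∈ A, ∃ m, 0 < m ∧ f d = (p ^ m) d ∧ f d ∈ A ∧
      ∀ k, 0 < k → k < m → (p ^ k) d ∉ A := by
    intro d h
    have s := Nat.find_spec (ex d h)
    have e : f d = (p ^ Nat.find (ex d h)) d := by simp only [f, dif_pos h]
    exact ⟨_, s.1, e, e ▸ s.2, fun k k0 hk c => Nat.find_min (ex d h) hk ⟨k0, c⟩⟩
  have aux : ∀ a ∈ A, ∀ b ∈ A, ∀ m n : ℕ, 0 < m → m ≤ n → (p ^ m) a = (p ^ n) b →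
      (∀ k, 0 < k → k < n → (p ^ k) b ∉ A) → a = b := by
    intro a ha b _ m n m0 mn e hk
    obtain ⟨k, rfl⟩ := Nat.exists_eq_add_of_le mn
    rw [pow_add, Perm.mul_apply] at e
    have e2 := (p ^ m).injective e
    rcases Nat.eq_zero_or_pos k with rfl | k0
    · simpa using e2
    · exact absurd (e2 ▸ ha) (hk k k0 (by omega))
  have inj : Function.Injective f := by
    intro a b e
    by_cases ha : a ∈ A <;> by_cases hb : b ∈ A
    · obtain ⟨m, m0, a1, -, a3⟩ := f1 a ha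
      obtain ⟨n, n0, b1, -, b3⟩ := f1 b hb
      rw [a1, b1] at e
      rcases le_total m n with c | c
      · exact aux a ha b hb m n m0 c e b3
      · exact (aux b hb a ha n m n0 c e.symm a3).symm
    · obtain ⟨_, -, -, a2, -⟩ := f1 a ha
      rw [e, f0 b hb] at a2; exact absurd a2 hb
    · obtain ⟨_, -, -, a2, -⟩ := f1 b hb
      rw [← e, f0 a ha] at a2; exact absurd a2 ha
    · rwa [f0 a ha, f0 b hb] at e
  exact ⟨Equiv.ofBijective f (Finite.injective_iff_bijective.1 inj), f0, f1⟩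

namespace IsRet

variable {p r : Perm D} {A : Set D}

omit [Finite D] in
theorem mem (h : IsRet p A r) {d : D} : r d ∈ A ↔ d ∈ A :=
  ⟨fun e => by_contra fun c => c (h.1 d c ▸ e), fun e => (h.2 d e).choose_spec.2.2.1⟩

omit [Finite D] in
theorem inv_mem (h : IsRet p A r) {d : D} : r⁻¹ d ∈ A ↔ d ∈ A := by
  rw [← h.mem]; simp

omit [Finite D] in
theorem inv_fix (h : IsRet p A r) {d : D} (e : d ∉ A) : r⁻¹ d = d := by
  rw [Perm.inv_eq_iff_eq, h.1 d e]

omit [Finite D] in
theorem step (h : IsRet p A r) (d : D) : p.SameCycle d (r d) := by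
  by_cases e : d ∈ A
  · obtain ⟨m, -, h1, -⟩ := h.2 d e
    exact ⟨m, by rw [zpow_natCast, h1]⟩
  · rw [h.1 d e]

theorem le (h : IsRet p A r) {a b : D} (e : r.SameCycle a b) : p.SameCycle a b :=
  sc_of_step h.step e

omit [Finite D] in
theorem jump (h : IsRet p A r) {d : D} (e : d ∈ A) :
    ∃ m, Jump p r d m ∧ ∀ k, 0 < k → k < m → (p ^ k) d ∉ A := by
  obtain ⟨m, m0, h1, -, h3⟩ := h.2 d e
  exact ⟨m, ⟨m0, h1, fun k k0 hk => h.1 _ (h3 k k0 hk)⟩, h3⟩

omit [Finite D] in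
/-- If `p d` and `d` both lie in `A` the return map agrees with `p` at `d`. -/
theorem eq_of_mem (h : IsRet p A r) {d : D} (e : d ∈ A) (e' : p d ∈ A) : r d = p d := by
  obtain ⟨m, m0, h1, -, h3⟩ := h.2 d e
  rcases Nat.lt_or_ge 1 m with c | c
  · exact absurd (by simpa using e') (h3 1 Nat.one_pos c)
  · have : m = 1 := by omega
    rw [h1, this, pow_one]

theorem sc_iff (h : IsRet p A r) {a b : D} (ha : a ∈ A) (hb : b ∈ A) :
    r.SameCycle a b ↔ p.SameCycle a b := by
  refine ⟨h.le, fun e => ?_⟩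
  obtain ⟨n, rfl⟩ := e.exists_nat_pow_eq
  clear e
  induction n using Nat.strong_induction_on generalizing a with
  | _ n ih =>
    rcases Nat.eq_zero_or_pos n with rfl | n0
    · exact Perm.SameCycle.refl _ _
    · obtain ⟨m, m0, h1, h2, h3⟩ := h.2 a ha
      have mn : m ≤ n := by_contra fun c => h3 n n0 (by omega) hb
      obtain ⟨k, rfl⟩ := Nat.exists_eq_add_of_le' mn
      rw [pow_add, Perm.mul_apply, ← h1] at hb ⊢
      exact (sc_self_apply r a).trans (ih k (by omega) h2 hb)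

end IsRet

theorem exists_ret (p : Perm D) (A : Set D) : ∃ σ : Perm D, (∀ d, d ∉ A → σ d = d) ∧
    ∀ d ∈ A, ∃ m, 0 < m ∧ σ d = (p ^ m) d ∧ (p ^ m) d ∈ A ∧
      ∀ k, 0 < k → k < m → (p ^ k) d ∉ A := by
  obtain ⟨r, h0, h1⟩ := exists_isRet p A
  refine ⟨r, h0, fun d hd => ?_⟩
  obtain ⟨m, a, b, c, e⟩ := h1 d hd
  exact ⟨m, a, b, b ▸ c, e⟩

/-- First return to `A`, extended by the identity. -/
def ret (p : Perm D) (A : Set D) : Perm D := (exists_ret p A).choose

theorem ret_not {p : Perm D} {A : Set D} {d : D} (h : d ∉ A) : ret p A d = d :=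
  (exists_ret p A).choose_spec.1 d h

theorem ret_spec {p : Perm D} {A : Set D} {d : D} (h : d ∈ A) : ∃ m, 0 < m ∧
    ret p A d = (p ^ m) d ∧ (p ^ m) d ∈ A ∧ ∀ k, 0 < k → k < m → (p ^ k) d ∉ A :=
  (exists_ret p A).choose_spec.2 d h

theorem ret_isRet (p : Perm D) (A : Set D) : IsRet p A (ret p A) := by
  refine ⟨fun _ h => ret_not h, fun d hd => ?_⟩
  obtain ⟨m, a, b, c, e⟩ := ret_spec (p := p) hd
  exact ⟨m, a, b, b ▸ c, e⟩

theorem ret_eq {p : Perm D} {A : Set D} {d : D} (h : d ∈ A) {m : ℕ} (hm : 0 < m)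
    (h1 : (p ^ m) d ∈ A) (h2 : ∀ k, 0 < k → k < m → (p ^ k) d ∉ A) :
    ret p A d = (p ^ m) d := by
  obtain ⟨k, a, b, c, e⟩ := ret_spec (p := p) h
  rcases lt_trichotomy k m with l | l | l
  · exact absurd c (h2 k a l)
  · rw [b, l]
  · exact absurd h1 (e m hm l)
theorem ret_mem {p : Perm D} {A : Set D} (d : D) : ret p A d ∈ A ↔ d ∈ A :=
  (ret_isRet p A).mem
theorem ret_sc {p : Perm D} {A : Set D} {d e : D} (hd : d ∈ A) (he : e ∈ A) :
    (ret p A).SameCycle d e ↔ p.SameCycle d e := (ret_isRet p A).sc_iff hd he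
theorem ret_sc_le {p : Perm D} {A : Set D} {d e : D} (h : (ret p A).SameCycle d e) :
    p.SameCycle d e := (ret_isRet p A).le h
theorem sz_ret {p : Perm D} {A : Set D} {d : D} (hd : d ∈ A) :
    sz (ret p A) d = {e ∈ A | p.SameCycle d e}.ncard := by
  unfold sz
  congr 1
  ext e
  simp only [Set.mem_setOf_eq]
  refine ⟨fun h => ?_, fun h => (ret_sc hd h.1).2 h.2⟩
  have := sc_lab (fun z => z ∈ A) (fun z => propext (ret_mem z)) h
  exact ⟨this ▸ hd, ret_sc_le h⟩

end Pool.Agent.MC.LL
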