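import Pool.Agent.P.MP_2677b3_gt.LT1

open Equiv Function

noncomputable section

namespace Pool.Agent.MC.LL

variable {D : Type} [Finite D]

theorem lt7a_sc {σ : Perm D} (h : σ * σ = 1) (d e : D) :
    σ.SameCycle d e ↔ e = d ∨ e = σ d := by
  have h2 : ∀ u, σ (σ u) = u := fun u => by rw [← Perm.mul_apply, h, Perm.one_apply]
  refine ⟨fun hs => ?_, ?_⟩
  · have := sc_lab (σ := σ) (fun u => u = d ∨ u = σ d) (fun u => propext ⟨?_, ?_⟩) hs
    · exact this ▸ Or.inl rfl
    · rintro (h1 | h1)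
      · exact Or.inr (by rw [← h1, h2])
      · exact Or.inl (σ.injective h1)
    · rintro (rfl | rfl)
      · exact Or.inr rfl
      · exact Or.inl (h2 _)
  · rintro (rfl | rfl)
    · exact Perm.SameCycle.refl _ _
    · exact Perm.sameCycle_apply_right.2 (Perm.SameCycle.refl _ _)

theorem lt7a_two {σ : Perm D} (h : σ * σ = 1) {d : D} (hd : σ d ≠ d) : sz σ d = 2 := by
  have : {e | σ.SameCycle d e} = {d, σ d} := Set.ext fun e => lt7a_sc h d e
  rw [sz, this, Set.ncard_pair hd.symm]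

/-- Odd cycles are products of two reflections of the same type. -/
theorem dip (γ : Perm D) (h : ∀ e, Odd (sz γ e)) : ∃ (ι : Perm D) (Rp : Set D) (a b : D → D),
    ι * ι = 1 ∧ Tree (ι⁻¹ * γ) ι ∧ (∀ e, γ.SameCycle e (ι e)) ∧
    (∀ e, γ.SameCycle e (a e) ∧ γ.SameCycle e (b e)) ∧
    Mat (ι⁻¹ * γ) ι Set.univ Rp a b := by
  obtain ⟨o, x, h1, h2, h3, h4, h5, h6⟩ := exists_idx γ
  choose m hm using h
  have sc : ∀ d (k : ℕ), γ.SameCycle d ((γ ^ k) (o d)) := fun d k =>
    (h1 d).trans ⟨k, by rw [zpow_natCast]⟩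
  have ho : ∀ d (k : ℕ), o ((γ ^ k) (o d)) = o d := fun d k => (h2 _ _ (sc d k)).symm
  have hmo : ∀ d e, o d = o e → m d = m e := fun d e hde => by
    have := sz_congr ((h1 d).trans (hde ▸ (h1 e).symm))
    rw [hm, hm] at this
    omega
  have ex : ∀ d e, o d = o e → x d = x e → d = e := fun d e g1 g2 => by
    rw [← h3 d, ← h3 e, g1, g2]
  have hx : ∀ d, x d ≤ 2 * m d := fun d => by have := h4 d; rw [hm] at this; omega
  have hx' : ∀ d k, k ≤ 2 * m d → x ((γ ^ k) (o d)) = k := fun d k hk =>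
    h5 d k (by rw [hm]; omega)
  have hγ : ∀ d, o (γ d) = o d ∧ x (γ d) = if x d = 2 * m d then 0 else x d + 1 := fun d => by
    have e1 : γ d = (γ ^ (x d + 1)) (o d) := by rw [pow_succ', Perm.mul_apply, h3]
    refine ⟨by rw [e1, ho], ?_⟩
    split_ifs with g
    · have e2 := h6 (o d)
      rw [← sz_congr (h1 d), hm] at e2
      rw [e1, g, e2]
      exact hx' d 0 (Nat.zero_le _)
    · rw [e1]
      exact hx' d _ (by have := hx d; omega)
  obtain ⟨f, f1, f2, f3⟩ : ∃ f : D → D, (∀ d, o (f d) = o d) ∧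
      (∀ d, x (f d) = if x d = 0 then 0 else 2 * m d + 1 - x d) ∧ ∀ d, γ.SameCycle d (f d) :=
    ⟨fun d => (γ ^ (if x d = 0 then 0 else 2 * m d + 1 - x d)) (o d), fun d => ho d _,
      fun d => hx' d _ (by split_ifs <;> omega), fun d => sc d _⟩
  have fi : Involutive f := fun d => ex _ _ (by rw [f1, f1]) (by
    have := hx d
    rw [f2, f2, hmo _ _ (f1 d)]
    split_ifs <;> omega)
  obtain ⟨ι, rfl⟩ : ∃ ι : Perm D, ⇑ι = f := ⟨fi.toPerm, rfl⟩
  have hι : ι * ι = 1 := Perm.ext fun d => fi d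
  have hi : ι⁻¹ = ι := inv_eq_of_mul_eq_one_left hι
  obtain ⟨a, a1, a2, a3⟩ : ∃ a : D → D, (∀ d, o (a d) = o d) ∧
      (∀ d, x d ≤ m d → x (a d) = x d + m d) ∧ ∀ d, γ.SameCycle d (a d) :=
    ⟨fun d => (γ ^ (x d + m d)) (o d), fun d => ho d _, fun d hd => hx' d _ (by omega),
      fun d => sc d _⟩
  obtain ⟨ρ, hρ⟩ : ∃ ρ, ρ = ι * γ := ⟨_, rfl⟩
  have r1 : ∀ d, o (ρ d) = o d := fun d => by rw [hρ, Perm.mul_apply, f1, (hγ d).1]
  have r2 : ∀ d, x (ρ d) = 2 * m d - x d := fun d => by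
    have := hx d
    rw [hρ, Perm.mul_apply, f2, (hγ d).2, hmo _ _ (hγ d).1]
    by_cases g : x d = 2 * m d
    · rw [if_pos g, if_pos rfl]
      omega
    · rw [if_neg g, if_neg (Nat.succ_ne_zero _)]
      omega
  have r3 : ρ * ρ = 1 := Perm.ext fun d => ex _ _ (by rw [Perm.mul_apply, r1, r1, Perm.one_apply])
    (by
      have := hx d
      rw [Perm.mul_apply, r2, r2, hmo _ _ (r1 d), Perm.one_apply]
      omega)
  refine ⟨ι, {d | x d ≤ m d}, a, id, hι, ?_, f3, fun e => ⟨a3 e, Perm.SameCycle.refl _ _⟩, ?_⟩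
  · rw [hi, ← hρ]
    refine tree_invol ρ ι hι {d | 0 < x d ∧ x d ≤ m d}
      (fun d => if x d ≤ m d then x d else 2 * m d - x d) (fun d => ?_) (fun d hd => ?_)
      (fun d hd e he hs => ?_) fun d hd => ?_
    · have := hx d
      simp only [r2, hmo _ _ (r1 d)]
      split_ifs <;> omega
    · obtain ⟨g1, g2⟩ := hd
      simp only [f2, hmo _ _ (f1 d)]
      split_ifs <;> omega
    · rcases (lt7a_sc r3 d e).1 hs with g | g
      · exact g.symm
      · have g1 : o e = o d := by rw [g, r1]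
        have g2 : x e = 2 * m d - x d := by rw [g, r2]
        have g3 := hmo _ _ g1
        obtain ⟨-, g4⟩ := hd
        obtain ⟨-, g5⟩ := he
        exact ex _ _ g1.symm (by omega)
    · have g1 : x d ≠ 0 := fun g => hd (ex _ _ (f1 d) (by rw [f2, if_pos g, g]))
      have g2 := hx d
      simp only [Set.mem_ofPred_eq, f2, if_neg g1, hmo _ _ (f1 d)]
      omega
  · rw [hi, ← hρ]
    refine ⟨by simp, by simp, by simp, fun d hd => ?_, fun d _ => ?_, fun d _ => ?_,
      fun i hi j hj hs => ?_, fun i hi j hj hs => ?_⟩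
    · have g1 := a2 d hd
      have g2 := hmo _ _ (a1 d)
      have g3 : x d ≤ m d := hd
      by_cases g : x d = 0
      · rw [sz_fix (ex _ _ (r1 _) (by rw [r2]; omega)),
          sz_fix (d := id d) (ex _ _ (f1 d) (by rw [id, f2, if_pos g, g]))]
      · rw [lt7a_two r3 fun k => by have := r2 (a d); rw [k] at this; omega,
          lt7a_two hι (d := id d) fun k => by
            have := f2 d
            rw [show ι d = d from k, if_neg g] at this
            omega]
    · have g1 := hx d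
      by_cases g : m d ≤ x d
      · have g2 := hx' d (x d - m d) (by omega)
        have g3 := hmo _ _ (ho d (x d - m d))
        have g4 : x ((γ ^ (x d - m d)) (o d)) ≤ m ((γ ^ (x d - m d)) (o d)) := by omega
        refine ⟨_, g4, (lt7a_sc r3 _ _).2 (Or.inl (ex _ _ (by rw [a1, ho]) ?_))⟩
        rw [a2 _ g4]
        omega
      · have g2 := hx' d (m d - x d) (by omega)
        have g3 := hmo _ _ (ho d (m d - x d))
        have g4 : x ((γ ^ (m d - x d)) (o d)) ≤ m ((γ ^ (m d - x d)) (o d)) := by omega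
        refine ⟨_, g4, (lt7a_sc r3 _ _).2 (Or.inr (ex _ _ (by rw [a1, ho, r1]) ?_))⟩
        rw [a2 _ g4, r2]
        omega
    · by_cases g : x d ≤ m d
      · exact ⟨d, g, Perm.SameCycle.refl _ _⟩
      · refine ⟨ι d, ?_, (lt7a_sc hι _ _).2 (Or.inr rfl)⟩
        have g1 := hx d
        simp only [Set.mem_ofPred_eq, f2, hmo _ _ (f1 d)]
        split_ifs <;> omega
    · have g1 := a2 i hi
      have g2 := a2 j hj
      have g3 := hmo _ _ (a1 i)
      have g6 : x i ≤ m i := hi
      rcases (lt7a_sc r3 _ _).1 hs with g | g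
      · have g4 : o i = o j := by rw [← a1 i, ← g, a1]
        have g5 := hmo _ _ g4
        rw [g] at g2
        exact ex _ _ g4 (by omega)
      · have g4 : o i = o j := by rw [← a1 i, ← r1 (a i), ← g, a1]
        have g5 := hmo _ _ g4
        rw [g, r2] at g2
        exact ex _ _ g4 (by omega)
    · rcases (lt7a_sc hι _ _).1 hs with g | g
      · exact g.symm
      · have g0 : j = ι i := g
        have g4 : o j = o i := by rw [g0, f1]
        have g5 := hmo _ _ g4
        have g1 : x i ≤ m i := hi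
        have g2 : x j ≤ m j := hj
        have g3 := f2 i
        rw [← g0] at g3
        refine ex _ _ g4.symm ?_
        split_ifs at g3 <;> omega

end Pool.Agent.MC.LL
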