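import Pool.Agent.P.MP_2677b3_gt.LT1

open Equiv Function

noncomputable section

namespace Pool.Agent.MC.LL

variable {D I : Type} [Finite D] {σ τ : Perm D} {F F' : Set D} {T T' : Set I} {a b : I → D}

omit [Finite D] in
theorem lt9a_ker {X Y : Type} (f : D → X) (g : D → Y) (S : Set D)
    (h : ∀ d ∈ S, ∀ e ∈ S, f d = f e ↔ g d = g e) : (f '' S).ncard = (g '' S).ncard := by
  refine Set.ncard_congr (fun x hx => g hx.choose) (fun x hx => ⟨_, hx.choose_spec.1, rfl⟩)
    (fun x y hx hy e => ?_) ?_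
  · rw [← hx.choose_spec.2, ← hy.choose_spec.2]
    exact (h _ hx.choose_spec.1 _ hy.choose_spec.1).2 e
  · rintro _ ⟨d, hd, rfl⟩
    have hx : f d ∈ f '' S := ⟨d, hd, rfl⟩
    exact ⟨f d, hx, (h _ hx.choose_spec.1 _ hd).1 hx.choose_spec.2⟩

omit [Finite D] in
theorem lt9a_mk (σ : Perm D) (d e : D) : Quotient.mk (Perm.SameCycle.setoid σ) d =
    Quotient.mk (Perm.SameCycle.setoid σ) e ↔ σ.SameCycle d e := Quotient.eq

theorem ncyc_union (S S' : Set D) (h : ∀ d ∈ S, ∀ e ∈ S', ¬ σ.SameCycle d e) :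
    ncyc σ (S ∪ S') = ncyc σ S + ncyc σ S' := by
  unfold ncyc
  rw [Set.image_union]
  refine Set.ncard_union_eq (Set.disjoint_left.2 ?_)
  rintro _ ⟨d, hd, rfl⟩ ⟨e, he, h1⟩
  exact h d hd e he ((lt9a_mk σ d e).1 h1.symm)

theorem lt9a_sign [Fintype D] [DecidableEq D] (σ : Perm D) :
    Perm.sign σ = (-1 : ℤˣ) ^ (Fintype.card D + ncyc σ Set.univ) := by
  classical
  have h1 : ncyc σ (σ.support : Set D) = σ.cycleFactorsFinset.card := by
    unfold ncyc
    rw [lt9a_ker _ (σ.cycleOf) _ fun d hd e he => (lt9a_mk σ d e).trans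
      (Perm.sameCycle_iff_cycleOf_eq_of_mem_support hd he), ← Set.ncard_coe_finset]
    congr 1
    ext c
    constructor
    · rintro ⟨d, hd, rfl⟩
      exact Perm.cycleOf_mem_cycleFactorsFinset_iff.2 hd
    · intro hc
      obtain ⟨d, hd⟩ := (Perm.mem_cycleFactorsFinset_iff.1 hc).1.nonempty_support
      exact ⟨d, Perm.mem_cycleFactorsFinset_support_le hc hd, (Perm.cycle_is_cycleOf hd hc).symm⟩
  have h0 : ∀ d e, d ∉ σ.support → σ.SameCycle d e → d = e := fun d e hd hs =>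
    hs.eq_of_left (Perm.notMem_support.1 hd)
  have h2 : ncyc σ ((σ.supportᶜ : Finset D) : Set D) = σ.supportᶜ.card := by
    unfold ncyc
    rw [lt9a_ker _ id _ fun d hd e he => (lt9a_mk σ d e).trans
      ⟨h0 d e (by simpa using hd), fun h => (show d = e from h) ▸ Perm.SameCycle.refl σ d⟩,
      Set.image_id, Set.ncard_coe_finset]
  have h3 : ncyc σ Set.univ = σ.cycleFactorsFinset.card + σ.supportᶜ.card := by
    rw [← h1, ← h2, ← ncyc_union _ _ fun d hd e he hs => ?_]
    · simp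
    · have he' : e ∉ σ.support := by simpa using he
      exact he' (h0 e d he' hs.symm ▸ hd)
  have h4 := Finset.card_add_card_compl σ.support
  have h5 : Multiset.card σ.cycleType = σ.cycleFactorsFinset.card := by
    rw [Perm.cycleType_def, Multiset.card_map]
    rfl
  rw [Perm.sign_of_cycleType, Perm.sum_cycleType, h5, h3, ← h4]
  rw [show σ.support.card + σ.supportᶜ.card + (σ.cycleFactorsFinset.card + σ.supportᶜ.card) =
    σ.support.card + σ.cycleFactorsFinset.card + 2 * σ.supportᶜ.card by ring, pow_add _ _ (2 * _),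
    pow_mul]
  simp

/-- The total number of cells is even. -/
theorem P4.even_cells (G : P4) : Even (ncyc G.x0 Set.univ + ncyc G.x1 Set.univ +
    ncyc G.x2 Set.univ + ncyc G.x3 Set.univ) := by
  classical
  letI := Fintype.ofFinite G.D
  have h := congrArg Perm.sign G.rel
  rw [map_mul, map_mul, map_mul, map_one, lt9a_sign, lt9a_sign, lt9a_sign, lt9a_sign, ← pow_add,
    ← pow_add, ← pow_add, neg_one_pow_eq_one_iff_even (by decide)] at h
  obtain ⟨k, hk⟩ := h
  exact ⟨k - 2 * Fintype.card G.D, by omega⟩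

theorem ncyc_map {D' : Type} [Finite D'] {σ' : Perm D'} (ι : D → D') (S : Set D)
    (h : ∀ d ∈ S, ∀ e ∈ S, σ'.SameCycle (ι d) (ι e) ↔ σ.SameCycle d e) :
    ncyc σ' (ι '' S) = ncyc σ S := by
  unfold ncyc
  rw [Set.image_image]
  exact lt9a_ker _ _ S fun d hd e he =>
    (lt9a_mk σ' _ _).trans ((h d hd e he).trans (lt9a_mk σ d e).symm)

theorem ncyc_le (S : Set D) : ncyc σ S ≤ S.ncard := Set.ncard_image_le

theorem ncard_le_ncyc {n : ℕ} (h : ∀ d, sz σ d ≤ n) (S : Set D) : S.ncard ≤ n * ncyc σ S := by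
  classical
  have hS : S.Finite := S.toFinite
  have h1 := Finset.card_le_mul_card_image (f := Quotient.mk (Perm.SameCycle.setoid σ))
    hS.toFinset n fun c hc => by
      obtain ⟨d, -, rfl⟩ := Finset.mem_image.1 hc
      refine le_trans ?_ (h d)
      rw [← Set.ncard_coe_finset]
      exact Set.ncard_le_ncard fun e he =>
        ((lt9a_mk σ e d).1 (Finset.mem_filter.1 he).2).symm
  rw [Set.ncard_eq_toFinset_card S hS]
  unfold ncyc
  rwa [← Set.ncard_coe_finset (Finset.image _ _), Finset.coe_image, hS.coe_toFinset] at h1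

theorem Par.map {D' : Type} [Finite D'] {σ' τ' : Perm D'} (h : Par σ τ Set.univ) (ι : D → D')
    (hι : Injective ι) (h1 : ∀ d, σ' (ι d) = ι (σ d)) (h2 : ∀ d, τ' (ι d) = ι (τ d)) :
    Par σ' τ' (Set.range ι) := by
  intro O hO k1 k2
  have e : O = ι '' (ι ⁻¹' O) := (Set.image_preimage_eq_of_subset hO).symm
  have m : ∀ {s : Perm D} {s' : Perm D'}, (∀ d, s' (ι d) = ι (s d)) →
      ncyc s' O = ncyc s (ι ⁻¹' O) := fun {s s'} hs => by
    conv_lhs => rw [e]
    refine ncyc_map ι _ fun d _ u _ => ?_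
    rw [(sc_map ι hι Set.univ (fun _ => Iff.rfl) (fun d _ => hs d) (Set.mem_univ d)).1]
    exact ⟨fun ⟨w, a1, a2⟩ => hι a1 ▸ a2, fun a => ⟨u, rfl, a⟩⟩
  rw [m h1, m h2]
  refine h _ (Set.subset_univ _) (fun d => ?_) fun d => ?_
  · rw [Set.mem_preimage, ← h1, k1, Set.mem_preimage]
  · rw [Set.mem_preimage, ← h2, k2, Set.mem_preimage]

end Pool.Agent.MC.LL
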