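import Pool.Agent.P.MP_2677b3_gt.LDefs
import Pool.Agent.P.MP_2677b3_gt.FiS

/-! Invariance of hyperbolic area; balls. -/

open UpperHalfPlane MeasureTheory Metric
open scoped ENNReal NNReal MatrixGroups

noncomputable section

namespace Pool.Agent.MC.LL

theorem meas_smul (A : SL(2, ℝ)) : Measurable fun z : ℍ => A • z :=
  (isometry_smul ℍ A).continuous.measurable

theorem mp_smul (A : SL(2, ℝ)) : MeasurePreserving (fun z : ℍ => A • z) volume volume := by
  refine ⟨meas_smul A, ?_⟩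
  ext s hs
  rw [Measure.map_apply (meas_smul A) hs]
  exact SMulInvariantMeasure.measure_preimage_smul (μ := volume)
    (Matrix.SpecialLinearGroup.mapGL ℝ A : GL (Fin 2) ℝ) hs

theorem lx0_emb (A : SL(2, ℝ)) : MeasurableEmbedding fun z : ℍ => A • z :=
  (IsometryEquiv.constSMul A : ℍ ≃ᵢ ℍ).toHomeomorph.measurableEmbedding

theorem lint_pre (A : SL(2, ℝ)) (F : ℍ → ℝ≥0∞) (s : Set ℍ) :
    ∫⁻ z in (fun z : ℍ => A • z) ⁻¹' s, F (A • z) = ∫⁻ z in s, F z :=
  (mp_smul A).setLIntegral_comp_preimage_emb (lx0_emb A) F s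

theorem pre_ball (A : SL(2, ℝ)) (w : ℍ) (r : ℝ) :
    (fun z : ℍ => A • z) ⁻¹' ball (A • w) r = ball w r := by
  ext z
  simp

theorem lint_smul (A : SL(2, ℝ)) (F : ℍ → ℝ≥0∞) (w : ℍ) (r : ℝ) :
    ∫⁻ z in ball w r, F (A • z) = ∫⁻ z in ball (A • w) r, F z := by
  rw [← lint_pre A F, pre_ball]

theorem vol_ball (w : ℍ) (r : ℝ) : volume (ball w r) = volume (ball (I : ℍ) r) := by
  obtain ⟨A, rfl⟩ := MulAction.exists_smul_eq SL(2, ℝ) (I : ℍ) w
  have := lint_smul A (fun _ => 1) I r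
  simpa using this.symm

theorem vol_ball_ne_top (w : ℍ) (r : ℝ) : volume (ball w r) ≠ ∞ :=
  ((measure_mono ball_subset_closedBall).trans_lt (isCompact_closedBall w r).measure_lt_top).ne

theorem vol_ball_ne_zero (w : ℍ) {r : ℝ} (hr : 0 < r) : volume (ball w r) ≠ 0 := by
  intro h
  have hc : Continuous fun z : ℍ => (1 / NNReal.mk z.im z.im_pos.le : ℝ≥0) ^ 2 := by
    refine .pow (.div₀ continuous_const ?_ ?_) _
    · exact continuous_im.subtype_mk _
    · exact fun x => NNReal.ne_iff.mp x.im_ne_zero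
  rw [volume_def, withDensity_apply_eq_zero' hc.measurable.coe_nnreal_ennreal.aemeasurable] at h
  have e : {x : ℍ | (((1 / NNReal.mk x.im x.im_pos.le : ℝ≥0) ^ 2 : ℝ≥0) : ℝ≥0∞) ≠ 0} = Set.univ := by
    ext x
    have : NNReal.mk x.im x.im_pos.le ≠ 0 := NNReal.ne_iff.mp x.im_ne_zero
    simp only [Set.mem_ofPred_eq, Set.mem_univ, iff_true, ENNReal.coe_ne_zero]
    exact pow_ne_zero _ (one_div_ne_zero this)
  rw [e, Set.univ_inter, measurableEmbedding_coe.comap_apply] at h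
  exact (isOpenEmbedding_coe.isOpenMap _ isOpen_ball).measure_ne_zero volume
    ((nonempty_ball.2 hr).image _) h

theorem fuchs_countable {G : Subgroup (Equiv.Perm ℍ)} {ε : ℝ} (hε : 0 < ε) (hG : Fuchs G ε) :
    Countable G := by
  have : (Set.univ : Set G) = ⋃ n : ℕ, {g : G | dist I (g.1 I) ≤ n} := by
    ext g
    simp only [Set.mem_univ, Set.mem_iUnion, Set.mem_ofPred_eq, true_iff]
    exact exists_nat_ge _
  rw [← Set.countable_univ_iff, this]
  exact Set.countable_iUnion fun n => (hG.finite hε n).countable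

/-- A uniform bound for the number of orbit points in a ball. -/
theorem fuchs_count {G : Subgroup (Equiv.Perm ℍ)} {ε : ℝ} (hε : 0 < ε) (hG : Fuchs G ε) (R : ℝ) :
    ∃ m : ℕ, ∀ w : ℍ, {k : G | dist w (k.1 I) < R}.encard ≤ m := by
  obtain ⟨R0, h0⟩ := hG.cocpt
  have hf := hG.finite hε (R + R0)
  refine ⟨hf.toFinset.card, fun w => ?_⟩
  obtain ⟨g, hg, h1⟩ := h0 w
  rw [← Set.encard_coe_eq_coe_finsetCard, hf.coe_toFinset]
  refine Set.encard_le_encard_of_injOn (f := fun k => (⟨g, hg⟩ : G) * k) (fun k hk => ?_)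
    (mul_right_injective _).injOn
  have h2 : dist w (k.1 I) < R := hk
  have h3 := isom_of_mob hG.mob ⟨g, hg⟩ w (k.1 I)
  have h4 := dist_triangle_left I (g (k.1 I)) (g w)
  show dist I (g (k.1 I)) ≤ _
  change dist (g w) (g (k.1 I)) = _ at h3
  linarith

end Pool.Agent.MC.LL
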