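import Pool.Agent.P.MP_2677b3_gt.LDefs
import Pool.Agent.P.MP_2677b3_gt.FiS

/-! Distance for a conformal factor; scaling of length and area. -/

open UpperHalfPlane MeasureTheory Metric
open scoped ENNReal NNReal MatrixGroups

noncomputable section

namespace Pool.Agent.MC.LL

/-- The `ρ`-distance. -/
def dd (ρ : ℍ → ℝ≥0∞) (z w : ℍ) : ℝ≥0∞ :=
  ⨅ (T : ℝ) (c : ℝ → ℍ) (_ : 0 ≤ T ∧ LipschitzWith 1 c ∧ c 0 = z ∧ c T = w),
    ∫⁻ t in Set.Icc 0 T, ρ (c t)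

theorem dd_le (ρ : ℍ → ℝ≥0∞) {T : ℝ} {c : ℝ → ℍ} (hT : 0 ≤ T) (hc : LipschitzWith 1 c) :
    dd ρ (c 0) (c T) ≤ ∫⁻ t in Set.Icc 0 T, ρ (c t) :=
  iInf_le_of_le T (iInf_le_of_le c (iInf_le_of_le ⟨hT, hc, rfl, rfl⟩ le_rfl))

theorem dd_self (ρ : ℍ → ℝ≥0∞) (z : ℍ) : dd ρ z z = 0 := by
  have := dd_le ρ (T := 0) (c := fun _ => z) le_rfl ((LipschitzWith.const z).weaken zero_le_one)
  simpa using this

theorem lx1_glue {a b : ℝ → ℍ} {S : ℝ} (ha : LipschitzWith 1 a) (hb : LipschitzWith 1 b)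
    (h : a S = b 0) : LipschitzWith 1 fun t => if t ≤ S then a t else b (t - S) := by
  have key : ∀ s t : ℝ, s ≤ S → ¬ t ≤ S → dist (a s) (b (t - S)) ≤ dist s t := by
    intro s t hs ht
    have h1 := ha.dist_le_mul s S
    have h2 := hb.dist_le_mul 0 (t - S)
    have h3 := dist_triangle (a s) (a S) (b (t - S))
    rw [← h] at h2
    rw [Real.dist_eq] at h1 h2 ⊢
    rw [abs_of_nonpos (by linarith)] at h1 h2 ⊢
    simp only [NNReal.coe_one] at h1 h2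
    linarith
  refine LipschitzWith.of_dist_le_mul fun s t => ?_
  by_cases hs : s ≤ S <;> by_cases ht : t ≤ S
  · simpa [hs, ht] using ha.dist_le_mul s t
  · simpa [hs, ht] using key s t hs ht
  · simpa [hs, ht, dist_comm] using key t s ht hs
  · simpa [hs, ht] using hb.dist_le_mul (s - S) (t - S)

theorem dd_tri (ρ : ℍ → ℝ≥0∞) (x y z : ℍ) : dd ρ x z ≤ dd ρ x y + dd ρ y z := by
  conv_rhs => unfold dd
  simp only [ENNReal.iInf_add, ENNReal.add_iInf, le_iInf_iff]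
  rintro T b ⟨hT, hb, b0, bT⟩ S a ⟨hS, ha, a0, aS⟩
  have h1 := dd_le ρ (T := S + T) (by linarith) (lx1_glue ha hb (aS.trans b0.symm))
  have e : (if S + T ≤ S then a (S + T) else b (S + T - S)) = z := by
    split_ifs with h
    · obtain rfl : T = 0 := by linarith
      rw [add_zero, aS, ← b0, bT]
    · rw [add_sub_cancel_left, bT]
  simp only [if_pos hS, e, a0] at h1
  refine h1.trans ?_
  rw [← Set.Icc_union_Ioc_eq_Icc hS (by linarith : S ≤ S + T)]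
  refine (lintegral_union_le _ _ _).trans (add_le_add ?_ ?_)
  · refine le_of_eq (setLIntegral_congr_fun measurableSet_Icc fun t ht => ?_)
    simp only [if_pos ht.2]
  · have h2 : ∫⁻ t in Set.Ioc S (S + T), ρ (if t ≤ S then a t else b (t - S)) =
        ∫⁻ t in Set.Ioc S (S + T), ρ (b (t - S)) :=
      setLIntegral_congr_fun measurableSet_Ioc fun t ht => by
        simp only [if_neg (not_le.2 ht.1)]
    rw [h2]
    have h3 := (measurePreserving_sub_right (volume : Measure ℝ) S).setLIntegral_comp_preimage_emb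
      (Homeomorph.subRight S).measurableEmbedding (fun t => ρ (b t)) (Set.Icc 0 T)
    rw [← h3]
    exact lintegral_mono_set fun t ht => ⟨by linarith [ht.1], by linarith [ht.2]⟩

theorem dd_smul (ρ : ℍ → ℝ≥0∞) (A : SL(2, ℝ)) (z w : ℍ) :
    dd ρ (A • z) (A • w) ≤ dd (fun u => ρ (A • u)) z w := by
  conv_rhs => unfold dd
  simp only [le_iInf_iff]
  rintro T c ⟨hT, hc, rfl, rfl⟩
  have : LipschitzWith 1 fun t => A • c t := by
    have := (isometry_smul ℍ A).lipschitz.comp hc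
    rw [one_mul] at this
    exact this
  exact dd_le ρ hT this

theorem len_le_dd (ρ : ℍ → ℝ≥0∞) (γ : Equiv.Perm ℍ) (z : ℍ) : len ρ γ ≤ dd ρ z (γ z) := by
  unfold dd
  simp only [le_iInf_iff]
  rintro T c ⟨hT, hc, rfl, h⟩
  exact iInf_le_of_le T (iInf_le_of_le c (iInf_le_of_le ⟨hT, hc, h⟩ le_rfl))

theorem len_one (ρ : ℍ → ℝ≥0∞) : len ρ 1 = 0 := by
  have := len_le_dd ρ 1 I
  simpa [dd_self] using this

theorem len_mul (c : ℝ≥0) (ρ : ℍ → ℝ≥0∞) (γ : Equiv.Perm ℍ) :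
    c * len ρ γ ≤ len (fun z => c * ρ z) γ := by
  conv_rhs => unfold len
  simp only [le_iInf_iff]
  intro T a h
  rw [lintegral_const_mul' _ _ ENNReal.coe_ne_top]
  gcongr
  exact iInf_le_of_le T (iInf_le_of_le a (iInf_le_of_le h le_rfl))

theorem area_mul (c : ℝ≥0) (hc : c ≠ 0) (G : Subgroup (Equiv.Perm ℍ)) (ρ : ℍ → ℝ≥0∞) :
    area G (fun z => c * ρ z) ≤ (c : ℝ≥0∞) ^ 2 * area G ρ := by
  have h0 : (c : ℝ≥0∞) ^ 2 ≠ 0 := pow_ne_zero _ (ENNReal.coe_ne_zero.2 hc)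
  have h1 : (c : ℝ≥0∞) ^ 2 ≠ ∞ := ENNReal.pow_ne_top ENNReal.coe_ne_top
  conv_rhs => unfold area
  simp only [ENNReal.mul_iInf_of_ne h0 h1, le_iInf_iff]
  intro s hs
  rw [← lintegral_const_mul' _ _ h1]
  refine iInf_le_of_le s (iInf_le_of_le hs (le_of_eq ?_))
  simp only [mul_pow]

theorem ext_le_of {Λ G : Subgroup (Equiv.Perm ℍ)} {l γ : Equiv.Perm ℍ} {C : ℝ≥0} (hC : C ≠ 0)
    (h : ∀ ρ : ℍ → ℝ≥0∞, Measurable ρ → (∀ g ∈ Λ, ∀ z, ρ (g z) = ρ z) → area Λ ρ ≤ 1 →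
      ∃ ρ' : ℍ → ℝ≥0∞, Measurable ρ' ∧ (∀ g ∈ G, ∀ z, ρ' (g z) = ρ' z) ∧ area G ρ' ≤ C ∧
        len ρ l ≤ len ρ' γ) :
    ext Λ l ≤ C * ext G γ := by
  conv_lhs => unfold ext
  simp only [iSup_le_iff]
  rintro ρ ⟨h1, h2, h3⟩
  obtain ⟨σ, k1, k2, k3, k4⟩ := h ρ h1 h2 h3
  set c : ℝ≥0 := (NNReal.sqrt C)⁻¹ with hc
  have hs : NNReal.sqrt C ≠ 0 := by simpa using hC
  have hc0 : c ≠ 0 := inv_ne_zero hs
  have e : (c : ℝ≥0∞) ^ 2 * C = 1 := by
    rw [← ENNReal.coe_pow, ← ENNReal.coe_mul, hc, inv_pow, NNReal.sq_sqrt, inv_mul_cancel₀ hC,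
      ENNReal.coe_one]
  have a1 : area G (fun z => c * σ z) ≤ 1 := (area_mul c hc0 G σ).trans (by rw [← e]; gcongr)
  have a2 : len (fun z => c * σ z) γ ^ 2 ≤ ext G γ :=
    le_iSup_of_le (fun z => c * σ z) (le_iSup_of_le
      ⟨k1.const_mul _, fun g hg z => by simp only [k2 g hg z], a1⟩ le_rfl)
  calc len ρ l ^ 2 ≤ len σ γ ^ 2 := by gcongr
    _ = C * (c * len σ γ) ^ 2 := by rw [mul_pow, ← mul_assoc, mul_comm (C : ℝ≥0∞), e, one_mul]
    _ ≤ C * len (fun z => c * σ z) γ ^ 2 := by gcongr; exact len_mul c σ γ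
    _ ≤ _ := by gcongr

end Pool.Agent.MC.LL
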