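import Pool.Agent.P.MP_2677b3_gt.LX0
import Pool.Agent.P.MP_2677b3_gt.LX1

/-! The average of the `ρ`-displacement of a Moebius map. -/

open UpperHalfPlane MeasureTheory Metric
open scoped ENNReal NNReal MatrixGroups

noncomputable section

namespace Pool.Agent.MC.LL

def Avg (A : SL(2, ℝ)) : Prop :=
  ∀ r : ℝ, ∃ (R : ℝ) (C : ℝ≥0), ∀ ρ : ℍ → ℝ≥0∞, Measurable ρ → ∃ u : ℍ → ℝ≥0∞, Measurable u ∧
    (∀ z ∈ ball (I : ℍ) r, dd ρ z (A • z) ≤ u z) ∧
    ∫⁻ z in ball (I : ℍ) r, u z ≤ C * ∫⁻ z in ball (I : ℍ) R, ρ z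

theorem lx2_mem (B : SL(2, ℝ)) {z : ℍ} {r : ℝ} (hz : z ∈ ball (I : ℍ) r) :
    B • z ∈ ball (I : ℍ) (r + dist (B • (I : ℍ)) I) := by
  rw [mem_ball] at hz ⊢
  have h1 := dist_triangle (B • z) (B • (I : ℍ)) I
  rw [dist_smul] at h1
  linarith

theorem lx2_sub (w : ℍ) (r : ℝ) : ball w r ⊆ ball (I : ℍ) (r + dist w I) := by
  intro z hz
  rw [mem_ball] at hz ⊢
  have h1 := dist_triangle z w I
  linarith

theorem lx2_int (B : SL(2, ℝ)) (F : ℍ → ℝ≥0∞) (r : ℝ) :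
    ∫⁻ z in ball (I : ℍ) r, F (B • z) ≤ ∫⁻ z in ball (I : ℍ) (r + dist (B • (I : ℍ)) I), F z := by
  rw [lint_smul]
  exact lintegral_mono_set (lx2_sub _ _)

theorem Avg.mul {A B : SL(2, ℝ)} (hA : Avg A) (hB : Avg B) : Avg (A * B) := by
  intro r
  obtain ⟨RB, CB, hB⟩ := hB r
  obtain ⟨RA, CA, hA⟩ := hA (r + dist (B • (I : ℍ)) I)
  refine ⟨max RA RB, CB + CA, fun ρ hρ => ?_⟩
  obtain ⟨uB, mB, dB, iB⟩ := hB ρ hρ
  obtain ⟨uA, mA, dA, iA⟩ := hA ρ hρ
  refine ⟨fun z => uB z + uA (B • z), mB.add (mA.comp (meas_smul B)), fun z hz => ?_, ?_⟩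
  · rw [mul_smul]
    exact (dd_tri ρ z (B • z) _).trans (add_le_add (dB z hz) (dA _ (lx2_mem B hz)))
  · rw [lintegral_add_left mB, ENNReal.coe_add, add_mul]
    refine add_le_add (iB.trans ?_) (((lx2_int B uA r).trans iA).trans ?_)
    · exact mul_le_mul_right (lintegral_mono_set (ball_subset_ball (le_max_right _ _))) _
    · exact mul_le_mul_right (lintegral_mono_set (ball_subset_ball (le_max_left _ _))) _

theorem Avg.conj {A : SL(2, ℝ)} (hA : Avg A) (B : SL(2, ℝ)) : Avg (B * A * B⁻¹) := by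
  intro r
  obtain ⟨R, C, hA⟩ := hA (r + dist (B⁻¹ • (I : ℍ)) I)
  refine ⟨R + dist (B • (I : ℍ)) I, C, fun ρ hρ => ?_⟩
  obtain ⟨u, m, d, i⟩ := hA (fun z => ρ (B • z)) (hρ.comp (meas_smul B))
  refine ⟨fun z => u (B⁻¹ • z), m.comp (meas_smul B⁻¹), fun z hz => ?_, ?_⟩
  · have h := dd_smul ρ B (B⁻¹ • z) (A • B⁻¹ • z)
    rw [smul_inv_smul] at h
    rw [mul_smul, mul_smul]
    exact h.trans (d _ (lx2_mem B⁻¹ hz))
  · exact ((lx2_int B⁻¹ u r).trans i).trans (mul_le_mul_right (lx2_int B ρ R) _)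

/-- The translation matrix. -/
def trl (a : ℝ) : SL(2, ℝ) := ⟨!![1, a; 0, 1], by simp [Matrix.det_fin_two]⟩

theorem lx2_trl (a : ℝ) (z : ℍ) : trl a • z = a +ᵥ z := by
  apply UpperHalfPlane.ext
  rw [UpperHalfPlane.specialLinearGroup_apply]
  simp [trl, add_comm]

theorem lx2_dist (s t : ℝ) (z : ℍ) : dist (s +ᵥ z) (t +ᵥ z) ≤ |s - t| / z.im := by
  have h := UpperHalfPlane.dist_le_dist_coe_div_sqrt (s +ᵥ z) (t +ᵥ z)
  rw [UpperHalfPlane.vadd_im, UpperHalfPlane.vadd_im, Real.sqrt_mul_self z.im_pos.le,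
    UpperHalfPlane.coe_vadd, UpperHalfPlane.coe_vadd, dist_add_right, Complex.dist_eq,
    ← Complex.ofReal_sub, Complex.norm_real, Real.norm_eq_abs] at h
  exact h

theorem lx2_cont (b : ℝ) : Continuous fun p : ℍ × ℝ => (b * p.2) +ᵥ p.1 := by
  rw [UpperHalfPlane.isOpenEmbedding_coe.isInducing.continuous_iff]
  have h : (UpperHalfPlane.coe ∘ fun p : ℍ × ℝ => (b * p.2) +ᵥ p.1) =
      fun p : ℍ × ℝ => ((b * p.2 : ℝ) : ℂ) + (p.1 : ℂ) := by
    funext p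
    exact UpperHalfPlane.coe_vadd _ _
  rw [h]
  exact (Complex.continuous_ofReal.comp (continuous_const.mul continuous_snd)).add
    (UpperHalfPlane.continuous_coe.comp continuous_fst)

theorem avg_trl (a : ℝ) : Avg (trl a) := by
  intro r
  obtain ⟨T, hT⟩ : ∃ T : ℝ, T = |a| * Real.exp |r| + 1 := ⟨_, rfl⟩
  have hT0 : 0 < T := by rw [hT]; positivity
  refine ⟨r + |a|, T.toNNReal, fun ρ hρ => ?_⟩
  have hm : Measurable fun p : ℍ × ℝ => ρ ((a / T * p.2) +ᵥ p.1) :=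
    hρ.comp (lx2_cont (a / T)).measurable
  refine ⟨fun z => ∫⁻ t in Set.Icc 0 T, ρ ((a / T * t) +ᵥ z), hm.lintegral_prod_right',
    fun z hz => ?_, ?_⟩
  · have hl : LipschitzWith 1 fun t : ℝ => (a / T * t) +ᵥ z := by
      refine LipschitzWith.of_dist_le_mul fun s t => ?_
      refine (lx2_dist _ _ z).trans ?_
      have h1 : (I : ℍ).im ≤ z.im * Real.exp (dist (I : ℍ) z) :=
        UpperHalfPlane.im_le_im_mul_exp_dist _ _
      have h2 : Real.exp (dist (I : ℍ) z) ≤ Real.exp |r| := by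
        rw [mem_ball, dist_comm] at hz
        exact Real.exp_le_exp.2 (hz.le.trans (le_abs_self r))
      have h3 : 1 ≤ z.im * Real.exp |r| := by
        rw [UpperHalfPlane.I_im] at h1
        exact h1.trans (mul_le_mul_of_nonneg_left h2 z.im_pos.le)
      have h4 : |a| ≤ T * z.im := by
        have h5 : |a| * 1 ≤ |a| * (z.im * Real.exp |r|) :=
          mul_le_mul_of_nonneg_left h3 (abs_nonneg a)
        have h6 := z.im_pos
        rw [hT]
        nlinarith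
      rw [← mul_sub, abs_mul, abs_div, abs_of_pos hT0, NNReal.coe_one, one_mul, Real.dist_eq,
        div_le_iff₀ z.im_pos]
      have h7 : |a| / T ≤ z.im := by
        rw [div_le_iff₀ hT0]
        linarith
      rw [mul_comm]
      exact mul_le_mul_of_nonneg_left h7 (abs_nonneg _)
    have h := dd_le ρ hT0.le hl
    rw [mul_zero, zero_vadd, div_mul_cancel₀ a hT0.ne'] at h
    rw [lx2_trl]
    exact h
  · rw [lintegral_lintegral_swap hm.aemeasurable]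
    have hb : ∀ t ∈ Set.Icc 0 T, ∫⁻ z in ball (I : ℍ) r, ρ ((a / T * t) +ᵥ z) ≤
        ∫⁻ z in ball (I : ℍ) (r + |a|), ρ z := by
      intro t ht
      have h := lx2_int (trl (a / T * t)) ρ r
      simp only [lx2_trl] at h
      refine h.trans (lintegral_mono_set (ball_subset_ball ?_))
      have h1 := lx2_dist (a / T * t) 0 I
      rw [zero_vadd, sub_zero, UpperHalfPlane.I_im, div_one, abs_mul, abs_div, abs_of_pos hT0,
        abs_of_nonneg ht.1] at h1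
      have h2 : |a| / T * t ≤ |a| / T * T :=
        mul_le_mul_of_nonneg_left ht.2 (div_nonneg (abs_nonneg a) hT0.le)
      rw [div_mul_cancel₀ _ hT0.ne'] at h2
      linarith
    refine (setLIntegral_mono' measurableSet_Icc hb).trans ?_
    rw [setLIntegral_const, Real.volume_Icc, sub_zero, mul_comm]
    exact le_rfl

/-- The lower triangular unipotent matrix. -/
def lx2_low (c : ℝ) : SL(2, ℝ) := ⟨!![1, 0; c, 1], by simp [Matrix.det_fin_two]⟩

theorem lx2_avg_low (c : ℝ) : Avg (lx2_low c) := by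
  obtain ⟨S, hS⟩ : ∃ S : SL(2, ℝ), S = ⟨!![0, -1; 1, 0], by simp [Matrix.det_fin_two]⟩ :=
    ⟨_, rfl⟩
  have h : lx2_low c = S * trl (-c) * S⁻¹ := by
    rw [eq_mul_inv_iff_mul_eq]
    ext i j
    rw [Matrix.SpecialLinearGroup.coe_mul, Matrix.SpecialLinearGroup.coe_mul, hS]
    fin_cases i <;> fin_cases j <;>
      simp [lx2_low, trl, Matrix.mul_apply, Fin.sum_univ_two]
  rw [h]
  exact (avg_trl _).conj S

theorem lx2_avg_ne (A : SL(2, ℝ)) (hc : A 1 0 ≠ 0) : Avg A := by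
  have hd : A 0 0 * A 1 1 - A 0 1 * A 1 0 = 1 := by
    have h := A.det_coe
    rw [Matrix.det_fin_two] at h
    exact h
  have h : A = trl ((A 0 0 - 1) / A 1 0) * lx2_low (A 1 0) * trl ((A 1 1 - 1) / A 1 0) := by
    obtain ⟨a, ha⟩ : ∃ a, a = A 0 0 := ⟨_, rfl⟩
    obtain ⟨b, hb⟩ : ∃ b, b = A 0 1 := ⟨_, rfl⟩
    obtain ⟨c, hc'⟩ : ∃ c, c = A 1 0 := ⟨_, rfl⟩
    obtain ⟨d, hd'⟩ : ∃ d, d = A 1 1 := ⟨_, rfl⟩
    rw [← ha, ← hb, ← hc', ← hd'] at hd
    rw [← hc'] at hc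
    rw [← ha, ← hc', ← hd']
    ext i j
    rw [Matrix.SpecialLinearGroup.coe_mul, Matrix.SpecialLinearGroup.coe_mul]
    fin_cases i <;> fin_cases j <;>
      simp [lx2_low, trl, Matrix.mul_apply, Fin.sum_univ_two, ← ha, ← hb, ← hc', ← hd'] <;>
      field_simp <;> linarith
  rw [h]
  exact ((avg_trl _).mul (lx2_avg_low _)).mul (avg_trl _)

theorem avg_all (A : SL(2, ℝ)) : Avg A := by
  by_cases hc : A 1 0 = 0
  · have hd : A 0 0 * A 1 1 - A 0 1 * A 1 0 = 1 := by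
      have h := A.det_coe
      rw [Matrix.det_fin_two] at h
      exact h
    have h1 : (A * lx2_low 1) 1 0 ≠ 0 := by
      have h2 : (A * lx2_low 1) 1 0 = A 1 0 + A 1 1 := by
        rw [Matrix.SpecialLinearGroup.coe_mul]
        simp [lx2_low, Matrix.mul_apply, Fin.sum_univ_two]
      rw [h2, hc, zero_add]
      intro h3
      rw [h3, hc] at hd
      simp at hd
    have h4 : lx2_low 1 * lx2_low (-1) = 1 := by
      ext i j
      rw [Matrix.SpecialLinearGroup.coe_mul]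
      fin_cases i <;> fin_cases j <;> simp [lx2_low, Matrix.mul_apply, Fin.sum_univ_two]
    have h5 : A = A * lx2_low 1 * lx2_low (-1) := by rw [mul_assoc, h4, mul_one]
    rw [h5]
    exact (lx2_avg_ne _ h1).mul (lx2_avg_low _)
  · exact lx2_avg_ne A hc

/-- The form that is used: Cauchy-Schwarz on the ball. -/
theorem avg_sq (A : SL(2, ℝ)) : ∃ (R : ℝ) (C : ℝ≥0), ∀ ρ : ℍ → ℝ≥0∞, Measurable ρ →
    ∃ u : ℍ → ℝ≥0∞, Measurable u ∧ (∀ z ∈ ball (I : ℍ) 1, dd ρ z (A • z) ≤ u z) ∧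
      ∫⁻ z in ball (I : ℍ) 1, u z ≤ volume (ball (I : ℍ) 1) *
        (C * (∫⁻ z in ball (I : ℍ) R, ρ z ^ 2) ^ (1 / 2 : ℝ)) := by
  obtain ⟨R, C, h⟩ := avg_all A 1
  have h0 : volume (ball (I : ℍ) 1) ≠ 0 := vol_ball_ne_zero _ one_pos
  have h1 : volume (ball (I : ℍ) 1) ≠ ∞ := vol_ball_ne_top _ _
  have h2 : volume (ball (I : ℍ) R) ^ (1 / 2 : ℝ) ≠ ∞ :=
    ENNReal.rpow_ne_top_of_nonneg (by norm_num) (vol_ball_ne_top _ _)
  have h3 : C * volume (ball (I : ℍ) R) ^ (1 / 2 : ℝ) / volume (ball (I : ℍ) 1) ≠ ∞ :=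
    ENNReal.div_ne_top (ENNReal.mul_ne_top ENNReal.coe_ne_top h2) h0
  refine ⟨R, (C * volume (ball (I : ℍ) R) ^ (1 / 2 : ℝ) / volume (ball (I : ℍ) 1)).toNNReal,
    fun ρ hρ => ?_⟩
  obtain ⟨u, m, d, i⟩ := h ρ hρ
  refine ⟨u, m, d, i.trans ?_⟩
  rw [ENNReal.coe_toNNReal h3, ← mul_assoc, ENNReal.mul_div_cancel h0 h1, mul_assoc]
  refine mul_le_mul_right ?_ _
  have h4 := ENNReal.lintegral_mul_le_Lp_mul_Lq (volume.restrict (ball (I : ℍ) R))
    Real.HolderConjugate.two_two hρ.aemeasurable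
    (measurable_const (a := (1 : ℝ≥0∞))).aemeasurable
  simp only [Pi.mul_apply, mul_one, one_pow, lintegral_const, one_mul,
    Measure.restrict_apply_univ, ENNReal.rpow_two] at h4
  rw [mul_comm]
  exact h4

end Pool.Agent.MC.LL
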