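import Pool.Agent.P.MP_2677b3_gt.LX0
import Pool.Agent.P.MP_2677b3_gt.GeoDefs
import Pool.Agent.P.MP_2677b3_gt.Basic
import Pool.Agent.P.MP_2677b3_gt.GePack

/-! Fundamental domains, unfolding, area against the number of darts. -/

open UpperHalfPlane MeasureTheory Metric
open scoped ENNReal NNReal MatrixGroups

noncomputable section

namespace Pool.Agent.MC.LL

variable {G : Subgroup (Equiv.Perm ℍ)} {ε : ℝ}

theorem lx3_cont (hG : Fuchs G ε) {g : Equiv.Perm ℍ} (hg : g ∈ G) : Continuous g :=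
  (Isometry.of_dist_eq (Ge.fuchs_dist hG hg)).continuous

theorem exists_fd (hε : 0 < ε) (hG : Fuchs G ε) : ∃ s : Set ℍ, MeasurableSet s ∧
    (∀ z, ∃ g ∈ G, g z ∈ s) ∧ ∀ z ∈ s, ∀ g ∈ G, g z ∈ s → g = 1 := by
  classical
  obtain ⟨x, hx⟩ := TopologicalSpace.exists_dense_seq ℍ
  let V : ℕ → Set ℍ := fun n => {z | ∃ g ∈ G, g z ∈ ball (x n) (ε / 2)}
  have hV : ∀ n, IsOpen (V n) := fun n => by
    have : V n = ⋃ (g : Equiv.Perm ℍ) (_ : g ∈ G), g ⁻¹' ball (x n) (ε / 2) := by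
      ext z
      simp [V]
    rw [this]
    exact isOpen_iUnion fun g => isOpen_iUnion fun hg => isOpen_ball.preimage (lx3_cont hG hg)
  refine ⟨⋃ n, ball (x n) (ε / 2) \ ⋃ (m : ℕ) (_ : m < n), V m, MeasurableSet.iUnion fun n =>
    isOpen_ball.measurableSet.diff (isOpen_iUnion fun m => isOpen_iUnion fun _ => hV m).measurableSet,
    fun z => ?_, fun z hz g hg hgz => ?_⟩
  · have h : ∃ n, z ∈ V n := by
      obtain ⟨n, hn⟩ := hx.exists_dist_lt z (half_pos hε)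
      exact ⟨n, 1, G.one_mem, hn⟩
    obtain ⟨g, hg, h1⟩ := Nat.find_spec h
    refine ⟨g, hg, Set.mem_iUnion.2 ⟨_, h1, fun h2 => ?_⟩⟩
    obtain ⟨m, hm, k, hk, h3⟩ := Set.mem_iUnion₂.1 h2
    exact Nat.find_min h hm ⟨k * g, G.mul_mem hk hg, h3⟩
  · obtain ⟨n, h1, h2⟩ := Set.mem_iUnion.1 hz
    obtain ⟨n', h3, h4⟩ := Set.mem_iUnion.1 hgz
    rcases lt_trichotomy n n' with h | rfl | h
    · exact (h4 (Set.mem_iUnion₂.2 ⟨n, h, g⁻¹, G.inv_mem hg, by simpa using h1⟩)).elim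
    · refine Ge.fuchs_one hG hg (z := z) ((dist_triangle_right _ _ (x n)).trans_lt ?_)
      linarith [mem_ball.1 h1, mem_ball.1 h3]
    · exact (h2 (Set.mem_iUnion₂.2 ⟨n', h, g, hg, h3⟩)).elim

/-- Moving a piece of a ball. -/
theorem lx3_move {g : Equiv.Perm ℍ} {A : SL(2, ℝ)} (hA : ∀ z : ℍ, g z = A • z) {F : ℍ → ℝ≥0∞}
    (hi : ∀ x, F (g x) = F x) (w : ℍ) (R : ℝ) (s : Set ℍ) :
    ∫⁻ x in ball w R ∩ g ⁻¹' s, F x = ∫⁻ x in ball (g w) R ∩ s, F x := by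
  have e : (g : ℍ → ℍ) = fun z => A • z := funext hA
  rw [← lint_pre A F (ball (g w) R ∩ s), Set.preimage_inter, hA, pre_ball, e]
  exact lintegral_congr fun x => by rw [← hA, hi]

theorem fd_sum (hε : 0 < ε) (hG : Fuchs G ε) {s : Set ℍ} (hs : MeasurableSet s)
    (h1 : ∀ z ∈ s, ∀ g ∈ G, g z ∈ s → g = 1) (w : ℍ) (R : ℝ) :
    ∑' g : G, volume (ball (g.1 w) R ∩ s) ≤ volume (ball (I : ℍ) R) := by
  have := fuchs_countable hε hG
  have e : ∀ g : G, volume (ball (g.1 w) R ∩ s) = volume (ball w R ∩ g.1 ⁻¹' s) := fun g => by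
    obtain ⟨A, hA⟩ := hG.mob g g.2
    simpa using (lx3_move hA (F := fun _ => 1) (fun _ => rfl) w R s).symm
  simp only [e]
  rw [← measure_iUnion, ← vol_ball w]
  · exact measure_mono (Set.iUnion_subset fun _ => Set.inter_subset_left)
  · refine fun g k hne => Set.disjoint_left.2 fun z hg hk => hne ?_
    have := h1 _ hk.2 (g * k⁻¹ : G) (g * k⁻¹).2 (by simpa using hg.2)
    exact mul_inv_eq_one.1 (Subtype.ext this)
  · exact fun g => isOpen_ball.measurableSet.inter ((lx3_cont hG g.2).measurable hs)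

theorem unf (hmob : ∀ g ∈ G, ∃ A : SL(2, ℝ), ∀ z : ℍ, g z = A • z) [Countable G] {ι : Type}
    [Countable ι] (z : ι → ℍ) (R : ℝ) (m : ℕ)
    (hm : ∀ w, {p : G × ι | dist w (p.1.1 (z p.2)) < R}.encard ≤ m) {F : ℍ → ℝ≥0∞}
    (hF : Measurable F) (hi : ∀ g ∈ G, ∀ x, F (g x) = F x) {s : Set ℍ} (hs : MeasurableSet s)
    (hc : ∀ x, ∃ g ∈ G, g x ∈ s) :
    ∑' i, ∫⁻ x in ball (z i) R, F x ≤ m * ∫⁻ x in s, F x := by
  have h1 : ∀ i, ∫⁻ x in ball (z i) R, F x ≤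
      ∑' g : G, ∫⁻ x in s, (ball (g.1 (z i)) R).indicator F x := fun i => by
    refine (lintegral_mono_set (t := ⋃ g : G, ball (z i) R ∩ g.1 ⁻¹' s) fun x hx => ?_).trans
      ((lintegral_iUnion_le _ _).trans (le_of_eq (tsum_congr fun g => ?_)))
    · obtain ⟨g, hg, h⟩ := hc x
      exact Set.mem_iUnion.2 ⟨⟨g, hg⟩, hx, h⟩
    · obtain ⟨A, hA⟩ := hmob g g.2
      rw [lx3_move hA (hi g g.2), lintegral_indicator isOpen_ball.measurableSet,
        Measure.restrict_restrict isOpen_ball.measurableSet]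
  refine (ENNReal.tsum_le_tsum h1).trans ?_
  rw [ENNReal.tsum_comm, ← ENNReal.tsum_prod
    (f := fun (g : G) i => ∫⁻ x in s, (ball (g.1 (z i)) R).indicator F x),
    ← lintegral_tsum fun p => (hF.indicator isOpen_ball.measurableSet).aemeasurable,
    ← lintegral_const_mul _ hF]
  refine lintegral_mono fun x => ?_
  calc ∑' p : G × ι, (ball (p.1.1 (z p.2)) R).indicator F x
      = ∑' p : G × ι, {p : G × ι | dist x (p.1.1 (z p.2)) < R}.indicator (fun _ => F x) p :=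
        tsum_congr fun p => by
          classical
          simp only [Set.indicator_apply, mem_ball, Set.mem_ofPred_eq]
    _ ≤ m * F x := by
        rw [← tsum_subtype, ENNReal.tsum_set_const]
        exact mul_le_mul_left (by exact_mod_cast hm x) _

theorem unf_area (hmob : ∀ g ∈ G, ∃ A : SL(2, ℝ), ∀ z : ℍ, g z = A • z) [Countable G] {ι : Type}
    [Countable ι] (z : ι → ℍ) (R : ℝ) (m : ℕ)
    (hm : ∀ w, {p : G × ι | dist w (p.1.1 (z p.2)) < R}.encard ≤ m) {ρ : ℍ → ℝ≥0∞}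
    (hρ : Measurable ρ) (hi : ∀ g ∈ G, ∀ x, ρ (g x) = ρ x) :
    ∑' i, ∫⁻ x in ball (z i) R, ρ x ^ 2 ≤ (m + 1 : ℕ) * area G ρ := by
  unfold area
  simp only [ENNReal.mul_iInf_of_ne (Nat.cast_ne_zero.2 (Nat.succ_ne_zero _))
    (ENNReal.natCast_ne_top _)]
  refine le_iInf fun s => le_iInf fun h => ?_
  exact (unf hmob z R m hm (hρ.pow_const 2) (fun g hg x => by rw [hi g hg]) h.1 h.2).trans
    (mul_le_mul_left (Nat.cast_le.2 (Nat.le_succ m)) _)

theorem area_le (K : ℝ) : ∃ C : ℕ, ∀ (G : Subgroup (Equiv.Perm ℍ)) (ε : ℝ), Fuchs G ε →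
    ∀ (M : CMap) (_ : Geo M.gd G K), Nonempty M.D →
      area G (fun _ => 1) ≤ (C * Fintype.card M.D : ℕ) := by
  obtain ⟨v, hv⟩ := ENNReal.exists_nat_gt (vol_ball_ne_top I (K + 1))
  refine ⟨v, fun G ε hG M g ⟨d⟩ => ?_⟩
  have hs : MeasurableSet (⋃ d : M.D, ball (g.pt (M.gd.src d)) (K + 1)) :=
    MeasurableSet.iUnion fun _ => isOpen_ball.measurableSet
  refine (iInf₂_le (f := fun (s : Set ℍ) (_ : MeasurableSet s ∧ ∀ z, ∃ g ∈ G, g z ∈ s) =>
    ∫⁻ _ in s, (1 : ℝ≥0∞) ^ 2) _ ⟨hs, fun z => ?_⟩).trans ?_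
  · obtain ⟨p, y, -, h⟩ := g.dense (M.gd.src d) z
    obtain ⟨e, rfl⟩ : ∃ e : M.D, M.gd.src e = y := Quotient.exists_rep y
    refine ⟨((p.map g.hol).prod⁻¹ : G), Subtype.prop _, Set.mem_iUnion.2 ⟨e, ?_⟩⟩
    rw [mem_ball, ← Ge.fuchs_dist hG ((p.map g.hol).prod).2]
    simpa using h.trans_lt (lt_add_one K)
  · rw [one_pow, setLIntegral_one]
    refine (measure_iUnion_le _).trans ?_
    simp only [vol_ball (g.pt _), tsum_fintype, Finset.sum_const, Finset.card_univ, nsmul_eq_mul]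
    rw [Nat.cast_mul, mul_comm]
    exact mul_le_mul_left hv.le _

theorem card_le (m : ℕ) : ∃ C : ℕ, ∀ (G : Subgroup (Equiv.Perm ℍ)) (ε : ℝ), 0 < ε → Fuchs G ε →
    ∀ (ι : Type) [Fintype ι] (z : ι → ℍ),
      (∀ w, {p : G × ι | dist w (p.1.1 (z p.2)) < 1}.encard ≤ m) →
      (Fintype.card ι : ℝ≥0∞) ≤ C * area G (fun _ => 1) := by
  have h0 := vol_ball_ne_zero I one_pos
  obtain ⟨v, hv⟩ := ENNReal.exists_nat_gt (ENNReal.inv_ne_top.2 h0)
  refine ⟨v * (m + 1), fun G ε hε hG ι _ z hm => ?_⟩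
  have := fuchs_countable hε hG
  have h1 := unf_area hG.mob z 1 m hm (ρ := fun _ => 1) measurable_const fun _ _ _ => rfl
  simp only [one_pow, setLIntegral_one, vol_ball (z _), tsum_fintype, Finset.sum_const,
    Finset.card_univ, nsmul_eq_mul] at h1
  calc (Fintype.card ι : ℝ≥0∞)
      = (volume (ball (I : ℍ) 1))⁻¹ * (Fintype.card ι * volume (ball (I : ℍ) 1)) := by
        rw [mul_left_comm, ENNReal.inv_mul_cancel h0 (vol_ball_ne_top _ _), mul_one]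
    _ ≤ v * ((m + 1 : ℕ) * area G fun _ => 1) := mul_le_mul' hv.le h1
    _ = _ := by rw [Nat.cast_mul, mul_assoc]

end Pool.Agent.MC.LL
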