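import Pool.Agent.P.MP_2677b3_gt.LX2
import Pool.Agent.P.MP_2677b3_gt.LX3
import Pool.Agent.P.MP_2677b3_gt.LX4

/-! From a conformal factor on the cover to weights on the Schreier graph. -/

open UpperHalfPlane MeasureTheory Metric
open scoped ENNReal NNReal MatrixGroups

noncomputable section

namespace Pool.Agent.MC.LL

/-- The value of an edge depends only on its type. -/
def lx5v (j : Fin 4 × Bool) : Pi2 :=
  bif j.2 then PresentedGroup.of j.1 else (PresentedGroup.of j.1)⁻¹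

theorem lx5_val (T : Act) (b : T.gd.E) : T.gd.val b = lx5v b.2 := rfl

theorem lx5_ext (T : Act) {b b' : T.D × Fin 4 × Bool} (h1 : T.gd.src b = T.gd.src b')
    (h2 : b.2 = b'.2) : b = b' := by
  obtain ⟨d, j, s⟩ := b
  obtain ⟨d', j', s'⟩ := b'
  obtain ⟨rfl, rfl⟩ := Prod.mk.inj h2
  cases s
  · have : T.g j d = T.g j d' := h1
    rw [(T.g j).injective this]
  · have : d = d' := h1
    rw [this]

/-- One step: a bound for all eight generators, based at any orbit point. -/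
theorem lx5_step {GX : Subgroup (Equiv.Perm ℍ)} {εX : ℝ} (hX : Fuchs GX εX)
    (v : Fin 4 × Bool → GX) :
    ∃ (R : ℝ) (C : ℝ≥0), ∀ ρ : ℍ → ℝ≥0∞, Measurable ρ → ∀ (k : GX) (j : Fin 4 × Bool),
      ∃ u : ℍ → ℝ≥0∞, Measurable u ∧
        (∀ z ∈ ball (I : ℍ) 1, dd ρ (k.1 z) ((k * v j).1 z) ≤ u z) ∧
        ∫⁻ z in ball (I : ℍ) 1, u z ≤ volume (ball (I : ℍ) 1) *
          (C * (∫⁻ z in ball (k.1 I) R, ρ z ^ 2) ^ (1 / 2 : ℝ)) := by
  choose B hB using fun j : Fin 4 × Bool => hX.mob _ (v j).2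
  choose R C h using fun j => avg_sq (B j)
  refine ⟨∑ j, |R j|, ∑ j, C j, fun ρ hρ k j => ?_⟩
  obtain ⟨A, hA⟩ := hX.mob _ k.2
  obtain ⟨u, u1, u2, u3⟩ := h j (fun z => ρ (A • z)) (hρ.comp (meas_smul A))
  refine ⟨u, u1, fun z hz => le_trans ?_ (u2 z hz), u3.trans ?_⟩
  · change dd ρ (k.1 z) (k.1 ((v j).1 z)) ≤ _
    rw [hA, hA, hB]
    exact dd_smul ρ A _ _
  · rw [lint_smul A (fun z => ρ z ^ 2), hA]
    have h1 : C j ≤ ∑ j, C j :=
      Finset.single_le_sum (f := C) (fun _ _ => zero_le) (Finset.mem_univ j)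
    have h2 : R j ≤ ∑ j, |R j| := (le_abs_self _).trans
      (Finset.single_le_sum (f := fun j => |R j|) (fun _ _ => abs_nonneg _) (Finset.mem_univ j))
    have h3 : ∫⁻ z in ball (A • (I : ℍ)) (R j), ρ z ^ 2 ≤
        ∫⁻ z in ball (A • (I : ℍ)) (∑ j, |R j|), ρ z ^ 2 := lintegral_mono_set (ball_subset_ball h2)
    gcongr

theorem lx5_main {GX : Subgroup (Equiv.Perm ℍ)} {εX : ℝ} (hε : 0 < εX) (hX : Fuchs GX εX)
    (v : Fin 4 × Bool → GX) : ∃ C : ℕ, ∀ (B : Gd) [Countable B.E] (e : GX ≃* B.U)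
      (Φ : B.U →* Equiv.Perm B.V) (ty : B.E → Fin 4 × Bool),
      (∀ x p y, B.Path x p y → Φ (B.ev p) y = x) → (∀ x γ, ∃ p y, B.Path x p y ∧ B.ev p = γ) →
      (∀ b, e.symm (B.val b) = v (ty b)) → (∀ b b', B.src b = B.src b' → ty b = ty b' → b = b') →
      ∀ (d0 : B.V) (Λ : Subgroup (Equiv.Perm ℍ)), Λ ≤ GX →
      (∀ l : GX, l.1 ∈ Λ ↔ ∃ u, B.Path d0 u d0 ∧ B.ev u = e l) →
      ∀ ρ : ℍ → ℝ≥0∞, Measurable ρ → (∀ g ∈ Λ, ∀ z, ρ (g z) = ρ z) →
      ∃ w : B.E → ℝ≥0∞, ∑' b, w b ^ 2 ≤ C * area Λ ρ ∧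
        ∀ (p : List B.E) (d : B.V) (u : List B.E), B.Path d0 p d → B.Path d u d →
          len ρ (e.symm (B.ev p * B.ev u * (B.ev p)⁻¹)).1 ≤ (u.map w).sum := by
  classical
  obtain ⟨R, C, hs⟩ := lx5_step hX v
  obtain ⟨m, hm⟩ := fuchs_count hε hX R
  refine ⟨⌈C ^ 2⌉₊ * (m * 8 + 1), fun B _ e Φ ty hΦ hP hv hty d0 Λ hle hΛ ρ hρ hi => ?_⟩
  have hΛ' : ∀ l : GX, l.1 ∈ Λ ↔ Φ (e l) d0 = d0 := fun l => by
    rw [hΛ]
    constructor
    · rintro ⟨u, h1, h2⟩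
      rw [← h2]
      exact hΦ _ _ _ h1
    · intro h
      obtain ⟨u, y, h1, h2⟩ := hP d0 (e l)
      have h3 := hΦ _ _ _ h1
      rw [h2] at h3
      obtain rfl : y = d0 := (Φ (e l)).injective (h3.trans h.symm)
      exact ⟨u, h1, h2⟩
  have hmob : ∀ g ∈ Λ, ∃ A : SL(2, ℝ), ∀ z : ℍ, g z = A • z := fun g hg => hX.mob g (hle hg)
  have := fuchs_countable hε hX
  have : Countable Λ := (Subgroup.inclusion_injective hle).countable
  set J : ℍ → ℝ≥0∞ := fun z => ∫⁻ x in ball z R, ρ x ^ 2 with hJ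
  have hJi : ∀ l ∈ Λ, ∀ z, J (l z) = J z := fun l hl z => by
    obtain ⟨A, hA⟩ := hmob l hl
    simp only [hJ]
    rw [hA, ← lint_smul A fun x => ρ x ^ 2]
    simp only [← hA, hi l hl]
  set S : Set B.V := {d | ∃ k : GX, Φ (e k) d = d0} with hS
  have : ∀ d : B.V, ∃ k : GX, d ∈ S → Φ (e k) d = d0 := fun d => by
    by_cases h : d ∈ S
    · obtain ⟨k, hk⟩ := h
      exact ⟨k, fun _ => hk⟩
    · exact ⟨1, fun h' => absurd h' h⟩
  choose kk hkk using this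
  have hJk : ∀ (k : GX) d, Φ (e k) d = d0 → J (k.1 I) = J ((kk d).1 I) := fun k d h => by
    have h1 : (k * (kk d)⁻¹).1 ∈ Λ := by
      rw [hΛ', map_mul, map_mul, map_inv, map_inv, Equiv.Perm.mul_apply]
      have h2 := hkk d ⟨k, h⟩
      rw [show (Φ (e (kk d)))⁻¹ d0 = d by rw [← h2]; simp, h]
    rw [← hJi _ h1 ((kk d).1 I)]
    simp
  set S' : Set B.E := {b | B.src b ∈ S} with hS'
  set W : B.E → ℝ≥0∞ := fun b => C * J ((kk (B.src b)).1 I) ^ (1 / 2 : ℝ) with hW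
  refine ⟨S'.indicator W, ?_, fun p d u h1 h2 => ?_⟩
  · have a1 := unf_area hmob (ι := S') (fun b => (kk (B.src b.1)).1 I) R (m * 8) (fun x => by
      have a2 : ({k : GX | dist x (k.1 I) < R} ×ˢ (Set.univ : Set (Fin 4 × Bool))).encard ≤
          ((m * 8 : ℕ) : ℕ∞) := by
        rw [Set.encard_prod, Set.encard_univ]
        push_cast
        gcongr
        · exact hm x
        · simp
      refine le_trans (Set.encard_le_encard_of_injOn
        (f := fun q : Λ × S' => (Subgroup.inclusion hle q.1 * kk (B.src q.2.1), ty q.2.1))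
        (fun q hq => Set.mk_mem_prod hq (Set.mem_univ _)) ?_) a2
      rintro ⟨l, b⟩ - ⟨l', b'⟩ - h
      obtain ⟨h3, h4⟩ := Prod.mk.inj h
      have key : ∀ (l : Λ) (b : S'),
          Φ (e (Subgroup.inclusion hle l * kk (B.src b.1))) (B.src b.1) = d0 := fun l b => by
        rw [map_mul, map_mul, Equiv.Perm.mul_apply, hkk _ b.2]
        exact (hΛ' _).1 l.2
      have h5 := key l b
      rw [h3] at h5
      have h6 : B.src b.1 = B.src b'.1 := (Φ _).injective (h5.trans (key l' b').symm)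
      obtain rfl : b = b' := Subtype.ext (hty _ _ h6 h4)
      obtain rfl : l = l' := Subgroup.inclusion_injective hle (mul_right_cancel h3)
      rfl) hρ hi
    have a3 : ∑' b, S'.indicator W b ^ 2 = ∑' b : S', W b.1 ^ 2 := by
      rw [tsum_subtype S' fun b => W b ^ 2]
      refine tsum_congr fun b => ?_
      by_cases hb : b ∈ S' <;> simp [hb]
    have a4 : ∀ b, W b ^ 2 = ((C ^ 2 : ℝ≥0) : ℝ≥0∞) * J ((kk (B.src b)).1 I) := fun b => by
      simp only [hW]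
      rw [mul_pow, ← ENNReal.rpow_natCast (_ ^ (1 / 2 : ℝ)), ← ENNReal.rpow_mul]
      norm_num
    refine a3.trans_le ?_
    simp only [a4]
    rw [ENNReal.tsum_mul_left, Nat.cast_mul, mul_assoc]
    refine mul_le_mul' ?_ a1
    rw [← ENNReal.coe_natCast, ENNReal.coe_le_coe]
    exact Nat.le_ceil _
  · have key : ∀ (u : List B.E) (d d' : B.V) (k : GX), Φ (e k) d = d0 → B.Path d u d' →
        ∃ U : ℍ → ℝ≥0∞, Measurable U ∧
          (∀ z ∈ ball (I : ℍ) 1, dd ρ (k.1 z) ((k * e.symm (B.ev u)).1 z) ≤ U z) ∧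
          ∫⁻ z in ball (I : ℍ) 1, U z ≤ volume (ball (I : ℍ) 1) * (u.map (S'.indicator W)).sum := by
      intro u
      induction u with
      | nil =>
        intro d d' k _ _
        exact ⟨fun _ => 0, measurable_const, fun z _ => by simp [dd_self], by simp⟩
      | cons b u ih =>
        rintro d d' k hk ⟨rfl, h3⟩
        obtain ⟨u1, a1, a2, a3⟩ := hs ρ hρ k (ty b)
        obtain ⟨u2, b1, b2, b3⟩ := ih (B.tgt b) d' (k * v (ty b)) (by
          have := hΦ _ _ _ (B.path_single b)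
          rw [Gd.ev_cons, Gd.ev_nil, mul_one] at this
          rw [← hv, map_mul, map_mul, Equiv.Perm.mul_apply, e.apply_symm_apply, this, hk]) h3
        refine ⟨fun z => u1 z + u2 z, a1.add b1, fun z hz => ?_, ?_⟩
        · rw [Gd.ev_cons, map_mul, ← mul_assoc, hv]
          exact (dd_tri ρ _ _ _).trans (add_le_add (a2 z hz) (b2 z hz))
        · rw [lintegral_add_left a1, List.map_cons, List.sum_cons, mul_add]
          refine add_le_add (a3.trans (le_of_eq ?_)) b3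
          have hb : b ∈ S' := ⟨k, hk⟩
          rw [Set.indicator_of_mem hb]
          simp only [hW]
          rw [← hJk k _ hk]
    obtain ⟨U, a1, a2, a3⟩ := key u d d (e.symm (B.ev p))
      (by rw [e.apply_symm_apply]; exact hΦ _ _ _ h1) h2
    have v0 := vol_ball_ne_zero (I : ℍ) one_pos
    have v1 := vol_ball_ne_top (I : ℍ) 1
    obtain ⟨z, hz, a4⟩ := exists_le_setLAverage v0 v1 a1.aemeasurable
    rw [setLAverage_eq] at a4
    refine (len_le_dd ρ _ ((e.symm (B.ev p)).1 z)).trans (le_trans (le_of_eq ?_)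
      ((a2 z hz).trans (a4.trans ?_)))
    · congr 1
      rw [map_mul, map_mul, map_inv]
      simp
    · exact ENNReal.div_le_of_le_mul' a3

theorem xside {GX : Subgroup (Equiv.Perm ℍ)} {εX : ℝ} (hε : 0 < εX) (hX : Fuchs GX εX)
    (e : GX ≃* Pi2) : ∃ C : ℕ, ∀ (T : Act) (d0 : T.D) (Λ : Subgroup (Equiv.Perm ℍ)), Λ ≤ GX →
      (∀ l : GX, l.1 ∈ Λ ↔ ∃ u, T.gd.Path d0 u d0 ∧ T.gd.ev u = e l) →
      ∀ ρ : ℍ → ℝ≥0∞, Measurable ρ → (∀ g ∈ Λ, ∀ z, ρ (g z) = ρ z) →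
      ∃ w : T.gd.E → ℝ≥0∞, ∑' b, w b ^ 2 ≤ C * area Λ ρ ∧
        ∀ (p : List T.gd.E) (d : T.D) (u : List T.gd.E), T.gd.Path d0 p d → T.gd.Path d u d →
          len ρ (e.symm (T.gd.ev p * T.gd.ev u * (T.gd.ev p)⁻¹)).1 ≤ (u.map w).sum := by
  obtain ⟨C, hC⟩ := lx5_main hε hX fun j => e.symm (lx5v j)
  refine ⟨C, fun T => ?_⟩
  obtain ⟨Φ, hΦ⟩ := T.exists_hom
  have : Countable T.gd.E := inferInstanceAs (Countable (T.D × Fin 4 × Bool))
  exact hC T.gd e Φ (fun b => b.2) hΦ T.exists_path (fun _ => rfl) fun _ _ => lx5_ext T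

end Pool.Agent.MC.LL
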