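import Pool.Agent.P.MP_2677b3_gt.LZD

open Equiv Function

noncomputable section

namespace Pool.Agent.MC.LL

theorem lz1_sz {M : CMap} {Δ K : ℕ} (h : YM M Δ K) (d : M.D) : sz M.ψ d ≤ 3 := by
  have h3 : M.ψ ^ 3 = 1 := by
    ext e
    simpa [pow_succ] using (h.tri e).1
  refine (Set.ncard_le_ncard (t := {d, M.ψ d, M.ψ (M.ψ d)}) (fun e he => ?_)).trans ?_
  · obtain ⟨k, rfl⟩ := Perm.SameCycle.exists_nat_pow_eq he
    rw [pow_eq_pow_mod k h3]
    have : k % 3 = 0 ∨ k % 3 = 1 ∨ k % 3 = 2 := by omega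
    rcases this with e | e | e <;> simp [e, pow_succ]
  · refine (Set.ncard_insert_le _ _).trans (Nat.succ_le_succ ?_)
    exact (Set.ncard_insert_le _ _).trans (by simp)

theorem mp4_conn {M : CMap} {Δ K : ℕ} (h : YM M Δ K) : (mp4 M).Conn := by
  intro d e
  have h1 := h.conn d e
  induction h1 with
  | refl => exact .refl
  | tail _ hv ih =>
    rcases hv with hv | ⟨-, hv⟩
    · exact ih.tail ⟨1, hv⟩
    · exact ih.tail ⟨0, hv⟩

theorem mp4_sz {M : CMap} {Δ K : ℕ} (h : YM M Δ K) : (mp4 M).Sz (Δ + 3) := by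
  intro c d
  have h1 : sz (1 : Perm M.D) d ≤ Δ + 3 := by rw [sz_fix rfl]; omega
  fin_cases c
  · have : sz M.α d ≤ 2 := sz_invol (Perm.ext M.αα) d
    exact this.trans (by omega)
  · exact (h.deg d).trans (by omega)
  · exact h1
  · have := lz1_sz h d
    rw [← sz_inv] at this
    exact this.trans (by omega)
  · exact h1

/-- The state of a map, without tubes. -/
abbrev lz1S (M : CMap) : St :=
  can (mp4 M).x6 (mp4 M).rel6 (feet (I := Empty) Empty.elim Empty.elim)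

theorem lz1_ft (M : CMap) (d : M.D) : (lz1S M).ft d = [] :=
  List.eq_nil_iff_forall_not_mem.2 fun φ _ => φ.1.elim

theorem lz1_inv (M : CMap) (e : M.D) : M.ψ⁻¹ (M.φ e) = M.α e := by
  rw [Perm.inv_eq_iff_eq]
  simp [CMap.ψ, M.αα]

theorem lz1_sc (M : CMap) (e : M.D) : M.ψ.SameCycle (M.α e) (M.φ e) :=
  ⟨1, by simp [CMap.ψ, M.αα]⟩

theorem lz1_sc3 (M : CMap) (e : M.D) : M.ψ.SameCycle e (M.ψ⁻¹ e) := ⟨-1, by simp⟩

/-- The class of a dart. -/
abbrev lz1mk (M : CMap) (d : M.D) : M.gd.V := Quotient.mk (Perm.SameCycle.setoid M.ψ) d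

/-- The chosen dart of a class. -/
abbrev lz1o (M : CMap) (x : M.gd.V) : M.D := Quotient.out (s := Perm.SameCycle.setoid M.ψ) x

theorem lz1_out (M : CMap) (d : M.D) : M.ψ.SameCycle (lz1o M (lz1mk M d)) d :=
  Quotient.mk_out (s := Perm.SameCycle.setoid M.ψ) d

theorem lz1_k {M : CMap} {Δ K : ℕ} (h : YM M Δ K) : ∃ k : M.D → M.D → ℕ,
    ∀ d e, M.ψ.SameCycle d e → k d e ≤ 2 ∧ (M.ψ⁻¹ ^ k d e) d = e := by
  have : ∀ d e, ∃ k : ℕ, M.ψ.SameCycle d e → k ≤ 2 ∧ (M.ψ⁻¹ ^ k) d = e := by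
    intro d e
    by_cases hs : M.ψ.SameCycle d e
    · obtain ⟨k, hk, he⟩ := sc_exists_lt (Perm.sameCycle_inv.2 hs)
      have := lz1_sz h d
      rw [sz_inv] at hk
      exact ⟨k, fun _ => ⟨by omega, he⟩⟩
    · exact ⟨0, fun h' => absurd h' hs⟩
  choose k hk using this
  exact ⟨k, hk⟩

/-- The identities of a valuation of the state of a map. -/
theorem lz1_val {M : CMap} {Γ : Type} [Group Γ] {V : Vl (lz1S M) Γ} (hV : V.Ok) :
    ∃ p1 p3 : M.D → Γ, (∀ d, p1 (M.φ d) = p1 d * V.X 1 d) ∧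
      (∀ d, p3 (M.ψ⁻¹ d) = p3 d * V.X 3 d) ∧ (∀ d, V.X 0 (M.α d) = (V.X 0 d)⁻¹) ∧
      (∀ d, V.X 1 d = V.X 0 d * (p3 (M.α d))⁻¹ * p3 (M.φ d)) ∧
      (∀ d, V.X 2 d = 1) ∧ (∀ d, V.X 4 d = 1) ∧ ∀ d, V.X 5 d = 1 := by
  obtain ⟨p0, h0⟩ := hV.pot 0
  obtain ⟨p1, h1⟩ := hV.pot 1
  obtain ⟨p3, h3⟩ := hV.pot 3
  have h2 : ∀ d, V.X 2 d = 1 := fun d => (hV.pot 2).fix rfl
  have h4 : ∀ d, V.X 4 d = 1 := fun d => (hV.pot 4).fix rfl
  have h5 : ∀ d, V.X 5 d = 1 := fun d => (hV.pot 5).fix rfl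
  have ha : ∀ d, V.X 0 (M.α d) = (V.X 0 d)⁻¹ := by
    intro d
    have e1 : p0 (M.α d) = p0 d * V.X 0 d := h0 d
    have e2 : p0 (M.α (M.α d)) = p0 (M.α d) * V.X 0 (M.α d) := h0 (M.α d)
    rw [M.αα, e1, mul_assoc, left_eq_mul] at e2
    exact eq_inv_of_mul_eq_one_right e2
  refine ⟨p1, p3, h1, h3, ha, fun d => ?_, h2, h4, h5⟩
  have e1 := hV.face (M.α d)
  rw [lz1_ft, h2, h4, h5] at e1
  rw [List.map_nil, List.prod_nil, one_mul, mul_one, mul_one, mul_one] at e1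
  have e2 : V.X 0 (M.α d) * V.X 1 (M.α (M.α d)) * V.X 3 (M.φ (M.α (M.α d))) = 1 := e1
  have e3 : p3 (M.ψ⁻¹ (M.φ d)) = p3 (M.φ d) * V.X 3 (M.φ d) := h3 (M.φ d)
  rw [M.αα, ha] at e2
  rw [lz1_inv] at e3
  rw [e3]
  have e4 : V.X 1 d = V.X 0 d * ((V.X 0 d)⁻¹ * V.X 1 d * V.X 3 (M.φ d)) * (V.X 3 (M.φ d))⁻¹ := by
    group
  rw [e4, e2]
  group

/-- The image of a dart. -/
def lz1f (M : CMap) (k : M.D → M.D → ℕ) (d : M.D) : List (lz1S M).Ed :=
  (lz1S M).arc 3 (lz1o M (lz1mk M d)) (k (lz1o M (lz1mk M d)) d) ++ [(lz1S M).ex 0 d] ++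
    (lz1S M).arc 3 (M.α d) (k (M.α d) (lz1o M (lz1mk M (M.α d))))

/-- The image of an edge of the state. -/
def lz1g (M : CMap) : (lz1S M).Ed → List M.D
  | .inl (d, i, true) => if i = 0 ∨ i = 1 then [d] else []
  | .inl (d, i, false) => if i = 0 ∨ i = 1 then [M.α d] else []
  | .inr (j, _, _) => j.elim

/-- The valuation in the group of the map. -/
def lz1V (M : CMap) : Vl (lz1S M) M.gd.U :=
  ⟨fun i d => if i = 0 ∨ i = 1 then M.gd.val d else 1, Empty.elim, Empty.elim⟩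

theorem lz1_vinv (M : CMap) (d : M.D) : M.gd.val (M.α d) = (M.gd.val d)⁻¹ := M.gd.val_inv d

theorem lz1_orb {D Γ : Type} [Group Γ] (σ : Perm D) (v : D → Γ) (d : D) (n : ℕ) :
    ((orbL σ d n).map v).prod = ((List.range n).map fun k => v ((σ ^ k) d)).prod := by
  rw [orbL, List.map_map]
  simp only [Perm.iterate_eq_pow]
  rfl

theorem lz1_one (A : Gd) (e : A.E) : A.ev [e] = A.val e := by simp

theorem lz1V_ok (M : CMap) : (lz1V M).Ok := by
  have h1 : ∀ σ : Perm M.D, Pot σ (fun _ => (1 : M.gd.U)) := fun σ => ⟨fun _ => 1, by simp⟩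
  refine ⟨fun i => ?_, fun d => ?_⟩
  · fin_cases i
    · let n := Fintype.equivFin M.D
      refine ⟨fun d => if n d < n (M.α d) then 1 else M.gd.val (M.α d), fun d => ?_⟩
      change (if n (M.α d) < n (M.α (M.α d)) then 1 else M.gd.val (M.α (M.α d))) =
        (if n d < n (M.α d) then 1 else M.gd.val (M.α d)) * M.gd.val d
      rw [M.αα]
      rcases lt_trichotomy (n d) (n (M.α d)) with l | l | l
      · rw [if_pos l, if_neg l.not_gt, one_mul]
      · exact absurd (n.injective l).symm (M.αne d)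
      · rw [if_pos l, if_neg l.not_gt, lz1_vinv, inv_mul_cancel]
    · refine (pot_iff _ _).2 fun d n hn => ?_
      have hr : M.gd.ev (orbL M.φ d n) = 1 :=
        pres_rel ⟨d, n, by rw [Perm.iterate_eq_pow]; exact hn, rfl⟩
      exact (lz1_orb M.φ M.gd.val d n).symm.trans hr
    · exact h1 _
    · exact h1 _
    · exact h1 _
    · exact h1 _
  · rw [lz1_ft]
    change 1 * M.gd.val d * M.gd.val (M.α d) * 1 * 1 * 1 * 1 = 1
    rw [lz1_vinv]
    group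

theorem lz1V_val (M : CMap) (a : (lz1S M).Ed) : (lz1V M).val a = M.gd.ev (lz1g M a) := by
  rcases a with ⟨d, i, _ | _⟩ | ⟨j, _, _⟩
  · change (if i = 0 ∨ i = 1 then M.gd.val d else 1)⁻¹ =
      M.gd.ev (if i = 0 ∨ i = 1 then [M.α d] else [])
    split_ifs
    · exact ((lz1_one M.gd (M.α d)).trans (lz1_vinv M d)).symm
    · exact inv_one
  · change (if i = 0 ∨ i = 1 then M.gd.val d else 1) =
      M.gd.ev (if i = 0 ∨ i = 1 then [d] else [])
    split_ifs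
    · exact (lz1_one M.gd d).symm
    · rfl
  · exact j.elim

theorem lz1V_ev (M : CMap) (p : List (lz1S M).Ed) :
    (lz1V M).ev p = M.gd.ev (p.flatMap (lz1g M)) := by
  exact (congrArg (fun v => (p.map v).prod) (funext (lz1V_val M))).trans
    (Gd.ev_flatMap (A := M.gd) p (lz1g M)).symm

theorem lz1g_path (M : CMap) (i : Fin 6) (d : M.D) :
    M.gd.Path (lz1mk M d) (lz1g M (.inl (d, i, true))) (lz1mk M ((lz1S M).x i d)) ∧
    M.gd.Path (lz1mk M ((lz1S M).x i d)) (lz1g M (.inl (d, i, false))) (lz1mk M d) := by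
  have e1 : lz1mk M (M.α d) = lz1mk M (M.φ d) := Quotient.sound (lz1_sc M d)
  have e2 : lz1mk M (M.α (M.α d)) = lz1mk M d := by rw [M.αα]
  have e3 : lz1mk M d = lz1mk M (M.ψ⁻¹ d) := Quotient.sound (lz1_sc3 M d)
  fin_cases i
  · exact ⟨⟨rfl, rfl⟩, ⟨rfl, e2⟩⟩
  · exact ⟨⟨rfl, e1⟩, ⟨e1, e2⟩⟩
  · exact ⟨rfl, rfl⟩
  · exact ⟨e3, e3.symm⟩
  · exact ⟨rfl, rfl⟩
  · exact ⟨rfl, rfl⟩

/-- The map from the state back to the graph of the map. -/
def lz1G (M : CMap) : Mp (lz1S M).gd M.gd where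
  v := lz1mk M
  e := lz1g M
  path := fun a => by
    rcases a with ⟨d, i, _ | _⟩ | ⟨j, _, _⟩
    · exact (lz1g_path M i d).2
    · exact (lz1g_path M i d).1
    · exact j.elim
  cong := fun _ p _ hp => by
    obtain ⟨F, hF⟩ := (lz1V_ok M).lift
    have := hF p
    rw [hp, map_one] at this
    exact (lz1V_ev M p).symm.trans this.symm

theorem lz1_arc {M : CMap} {k : M.D → M.D → ℕ}
    (hk : ∀ d e, M.ψ.SameCycle d e → k d e ≤ 2 ∧ (M.ψ⁻¹ ^ k d e) d = e) {d e : M.D}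
    (h : M.ψ.SameCycle d e) : (lz1S M).gd.Path d ((lz1S M).arc 3 d (k d e)) e ∧
      ∀ {Γ : Type} [Group Γ] (V : Vl (lz1S M) Γ) (p3 : M.D → Γ),
        (∀ d, p3 (M.ψ⁻¹ d) = p3 d * V.X 3 d) →
        V.ev ((lz1S M).arc 3 d (k d e)) = (p3 d)⁻¹ * p3 e := by
  have he : ((lz1S M).x 3 ^ k d e) d = e := (hk d e h).2
  refine ⟨?_, fun V p3 h3 => ?_⟩
  · have := (lz1S M).path_arc 3 d (k d e)
    rwa [he] at this
  · have := pot_arc (σ := (lz1S M).x 3) (α := V.X 3) (π := p3) h3 d (k d e)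
    rw [he] at this
    exact (V.ev_arc 3 d (k d e)).trans this

theorem lz1_use {M : CMap} {k : M.D → M.D → ℕ} {a u : M.D} {i : Fin 6} {c : Bool}
    (h : (.inl (u, i, c) : (lz1S M).Ed) ∈ lz1f M k a) :
    M.ψ.SameCycle u a ∨ M.ψ.SameCycle u (M.α a) := by
  have h1 : ∀ d n, (.inl (u, i, c) : (lz1S M).Ed) ∈ (lz1S M).arc 3 d n → M.ψ.SameCycle u d := by
    intro d n hb
    obtain ⟨m, -, hm⟩ := (lz1S M).at_arc hb
    have hm' : (M.ψ⁻¹ ^ m) d = u := hm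
    exact (Perm.sameCycle_inv.1 ⟨m, by rw [zpow_natCast]; exact hm'⟩).symm
  rcases List.mem_append.1 h with h | h
  · rcases List.mem_append.1 h with h | h
    · exact Or.inl ((h1 _ _ h).trans (lz1_out M a))
    · obtain rfl : u = a := congrArg Prod.fst (Sum.inl.inj (List.mem_singleton.1 h))
      exact Or.inl (Perm.SameCycle.refl _ _)
  · exact Or.inr (h1 _ _ h)

theorem start : ∃ κ : ℕ, ∀ (M : CMap) (Δ K : ℕ), YM M Δ K →
    Fw (Q κ Δ) M.gd ((mp4 M).gd (I := Empty) Empty.elim Empty.elim) := by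
  refine ⟨8, fun M Δ K h => ?_⟩
  change Fw _ M.gd (lz1S M).gd
  obtain ⟨k, hk⟩ := lz1_k h
  obtain ⟨V, hV, hev⟩ := (lz1S M).exists_vl
  obtain ⟨p1, p3, h1, h3, ha, hf, h2, h4, h5⟩ := lz1_val hV
  have hA : ∀ d, V.ev (lz1f M k d) = (p3 (lz1o M (lz1mk M d)))⁻¹ * p3 d * V.X 0 d *
      (p3 (M.α d))⁻¹ * p3 (lz1o M (lz1mk M (M.α d))) := by
    intro d
    rw [lz1f, Vl.ev_append, Vl.ev_append, (lz1_arc hk (lz1_out M d)).2 V p3 h3,
      (lz1_arc hk (lz1_out M (M.α d)).symm).2 V p3 h3, Vl.ev_cons, Vl.ev_nil, Vl.val_ex]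
    group
  have e1 : ∀ d, lz1mk M (M.φ d) = lz1mk M (M.α d) := fun d => (Quotient.sound (lz1_sc M d)).symm
  have e3 : ∀ d, lz1mk M (M.ψ⁻¹ d) = lz1mk M d := fun d => (Quotient.sound (lz1_sc3 M d)).symm
  let f : Mp M.gd (lz1S M).gd := Mp.ofPres (lz1o M) (lz1f M k)
    (fun a => (((lz1_arc hk (lz1_out M a)).1.append ((lz1S M).path_ex 0 a)).append
      (lz1_arc hk (lz1_out M (M.α a)).symm).1))
    (fun a => by
      rw [← hev, ← hev, hA, hA, M.αα, ha]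
      group)
    (by
      rintro r ⟨d, n, hn, rfl⟩
      have hs : ∀ e, p1 (M.φ e) * (p3 (M.φ e))⁻¹ * p3 (lz1o M (lz1mk M (M.φ e))) =
          p1 e * (p3 e)⁻¹ * p3 (lz1o M (lz1mk M e)) * V.ev (lz1f M k e) := by
        intro e
        rw [hA, h1, hf, e1]
        group
      have := pot_arc (σ := M.φ) (α := fun e => V.ev (lz1f M k e))
        (π := fun e => p1 e * (p3 e)⁻¹ * p3 (lz1o M (lz1mk M e))) hs d n
      rw [Perm.iterate_eq_pow] at hn
      rw [hn, inv_mul_cancel] at this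
      exact (hev _).symm.trans ((V.ev_flatMap _ _).trans ((lz1_orb M.φ _ d n).trans this)))
  refine Fw.mono (E := 5 * 5 * 6) ⟨f, lz1G M, ⟨fun _ => [], fun x => ?_, fun a => ?_⟩,
    ⟨fun d => (lz1S M).arc 3 d (k d (lz1o M (lz1mk M d))),
      fun d => (lz1_arc hk (lz1_out M d).symm).1, fun a => ?_⟩,
    Mp.en_of_bound f 5 6 (fun a => ?_) (fun b => ?_)⟩
    (le_trans (by norm_num) (two_pow_le_Q 8 Δ))
  · exact (Quotient.out_eq (s := Perm.SameCycle.setoid M.ψ) x).symm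
  · have hp : ∀ d : M.D, (fun _ : M.D => (1 : M.gd.U)) (M.ψ⁻¹ d) = 1 * (lz1V M).X 3 d :=
      fun d => (one_mul _).symm
    have e4 : ∀ d : M.D, (lz1V M).ev (lz1f M k d) = M.gd.val d := by
      intro d
      rw [lz1f, Vl.ev_append, Vl.ev_append, (lz1_arc hk (lz1_out M d)).2 _ (fun _ => 1) hp,
        (lz1_arc hk (lz1_out M (M.α d)).symm).2 _ (fun _ => 1) hp, Vl.ev_cons, Vl.ev_nil, Vl.val_ex]
      simp only [inv_one, one_mul, mul_one]
      rfl
    exact (one_mul _).trans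
      ((lz1V_ev M (lz1f M k a)).symm.trans ((e4 a).trans (mul_one _).symm))
  · have hη : ∀ d, (lz1S M).gd.ev ((lz1S M).arc 3 d (k d (lz1o M (lz1mk M d)))) =
        (p3 d)⁻¹ * p3 (lz1o M (lz1mk M d)) := fun d =>
      (hev _).symm.trans ((lz1_arc hk (lz1_out M d).symm).2 V p3 h3)
    have hX : ∀ i d, (lz1S M).gd.val ((lz1S M).ex i d) = V.X i d := fun i d => by
      have := hev [(lz1S M).ex i d]
      rw [Vl.ev_cons, Vl.ev_nil, Vl.val_ex, mul_one] at this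
      exact (this.trans (lz1_one _ _)).symm
    have hB : ∀ d, (lz1S M).gd.ev ([d].flatMap (lz1f M k)) = V.ev (lz1f M k d) := fun d =>
      (hev _).symm.trans (congrArg V.ev (List.flatMap_singleton (lz1f M k) d))
    have key : ∀ i d, (p3 d)⁻¹ * p3 (lz1o M (lz1mk M d)) *
        (lz1S M).gd.ev ((lz1g M ((lz1S M).ex i d)).flatMap (lz1f M k)) =
        V.X i d * ((p3 ((lz1S M).x i d))⁻¹ * p3 (lz1o M (lz1mk M ((lz1S M).x i d)))) := by
      intro i d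
      fin_cases i
      · change _ * (lz1S M).gd.ev ([d].flatMap (lz1f M k)) =
          V.X 0 d * ((p3 (M.α d))⁻¹ * p3 (lz1o M (lz1mk M (M.α d))))
        rw [hB, hA]
        group
      · change _ * (lz1S M).gd.ev ([d].flatMap (lz1f M k)) =
          V.X 1 d * ((p3 (M.φ d))⁻¹ * p3 (lz1o M (lz1mk M (M.φ d))))
        rw [hB, hA, hf, e1]
        group
      · change _ * 1 = V.X 2 d * ((p3 d)⁻¹ * p3 (lz1o M (lz1mk M d)))
        rw [h2, mul_one, one_mul]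
      · change _ * 1 = V.X 3 d * ((p3 (M.ψ⁻¹ d))⁻¹ * p3 (lz1o M (lz1mk M (M.ψ⁻¹ d))))
        rw [h3, e3]
        group
      · change _ * 1 = V.X 4 d * ((p3 d)⁻¹ * p3 (lz1o M (lz1mk M d)))
        rw [h4, mul_one, one_mul]
      · change _ * 1 = V.X 5 d * ((p3 d)⁻¹ * p3 (lz1o M (lz1mk M d)))
        rw [h5, mul_one, one_mul]
    refine Eq.trans (congrArg (· * _) (hη _)) (Eq.trans ?_ (congrArg (_ * ·) (hη _).symm))
    rcases a with ⟨d, i, _ | _⟩ | ⟨j, _, _⟩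
    · have e5 := ((lz1G M).comp f).ev_inv ((lz1S M).ex i d)
      have e6 := (lz1S M).gd.val_inv ((lz1S M).ex i d)
      rw [hX] at e6
      have e7 := key i d
      refine Eq.trans (congrArg (_ * ·) e5) (Eq.trans ?_ (congrArg (· * _) e6.symm))
      change (p3 ((lz1S M).x i d))⁻¹ * p3 (lz1o M (lz1mk M ((lz1S M).x i d))) *
        ((lz1S M).gd.ev ((lz1g M ((lz1S M).ex i d)).flatMap (lz1f M k)))⁻¹ =
        (V.X i d)⁻¹ * ((p3 d)⁻¹ * p3 (lz1o M (lz1mk M d)))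
      rw [mul_inv_eq_iff_eq_mul, mul_assoc (V.X i d)⁻¹, e7, inv_mul_cancel_left]
    · exact (key i d).trans (congrArg (· * _) (hX i d).symm)
    · exact j.elim
  · change (lz1f M k a).length ≤ 5
    have l1 := (hk _ _ (lz1_out M a)).1
    have l2 := (hk _ _ (lz1_out M (M.α a)).symm).1
    simp only [lz1f, List.length_append, St.length_arc, List.length_singleton]
    omega
  · rcases b with ⟨u, i, c⟩ | ⟨j, _, _⟩
    · have hs : {a : M.D | (.inl (u, i, c) : (lz1S M).Ed) ∈ lz1f M k a} ⊆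
          {a | M.ψ.SameCycle u a} ∪ M.α '' {a | M.ψ.SameCycle u a} := fun a ha' =>
        (lz1_use ha').imp id fun l => ⟨_, l, M.αα a⟩
      have l1 : {a | M.ψ.SameCycle u a}.ncard ≤ 3 := lz1_sz h u
      have l2 := Set.ncard_image_le (f := M.α) (Set.toFinite {a | M.ψ.SameCycle u a})
      have l3 := (Set.ncard_le_ncard hs).trans (Set.ncard_union_le _ _)
      refine ⟨Set.toFinite (α := M.D) _, le_trans l3 (by omega)⟩
    · exact j.elim

end Pool.Agent.MC.LL
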