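import Pool.Agent.P.MP_2677b3_gt.LZD

open Equiv Function

noncomputable section

namespace Pool.Agent.MC.LL

theorem lz3_fwd {D : Type} [Finite D] {σ : Perm D} {I : Set D} (h : ∀ d ∈ I, σ d ∈ I) {d e : D}
    (hs : σ.SameCycle d e) (hd : d ∈ I) : e ∈ I := by
  obtain ⟨n, rfl⟩ := hs.exists_nat_pow_eq
  clear hs
  induction n with
  | zero => exact hd
  | succ n ih => rw [pow_succ', Perm.mul_apply]; exact h _ ih

theorem lz3_inj {D : Type} [Finite D] {σ : Perm D} {U S : Set D} (h : U ⊆ S)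
    (hU : ∀ u ∈ U, ∀ u' ∈ U, σ.SameCycle u u' → u = u') : U.ncard ≤ ncyc σ S :=
  Set.ncard_le_ncard_of_injOn (Quotient.mk (Perm.SameCycle.setoid σ))
    (fun u hu => ⟨u, h hu, rfl⟩) fun u hu u' hu' e => hU u hu u' hu' (Quotient.exact e)

/-- Non-crossing chords of one cycle give at least as many faces. -/
theorem chords {D : Type} [Finite D] (X y : Perm D) (hy : ∀ d, y (y d) = d) (P : Set D)
    (hP : ∀ d ∈ P, ∀ e, X.SameCycle d e ↔ e ∈ P) (hyP : ∀ d, y d ≠ d → d ∈ P)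
    (hnc : ∀ a b, y a ≠ a → y b ≠ b → b ≠ a → b ≠ y a →
      (X * rs y hy {a}).SameCycle b (y b)) : {d | y d ≠ d}.ncard ≤ 2 * ncyc (X * y) P := by
  obtain ⟨o, idx, h1, h2, h3, h4, h5, -⟩ := exists_idx X
  have hs : ∀ d ∈ P, ∀ e ∈ P, X.SameCycle d e := fun d hd e he => (hP d hd e).2 he
  have inj : ∀ d ∈ P, ∀ e ∈ P, idx d = idx e → d = e := fun d hd e he h => by
    rw [← h3 d, ← h3 e, h, h2 d e (hs d hd e he)]
  have nx : ∀ d ∈ P, ∀ e ∈ P, idx d < idx e → X d ∈ P ∧ idx (X d) = idx d + 1 := by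
    refine fun d hd e he h => ⟨(hP d hd _).1 (Perm.sameCycle_apply_right.2 (.refl _ _)), ?_⟩
    have h6 := h5 d (idx d + 1) (by have := h4 e; rw [← sz_congr (hs d hd e he)] at this; omega)
    rwa [pow_succ', Perm.mul_apply, h3] at h6
  let I : D → Set D := fun a => {d | d ∈ P ∧ idx (y a) < idx d ∧ idx d ≤ idx a}
  have my : ∀ d, y d ≠ d → y d ∈ P := fun d h => hyP _ (by rw [hy]; exact h.symm)
  have st : ∀ a, y a ≠ a → idx (y a) < idx a → ∀ d, d ∈ I a ∧ d ≠ a ∨ d = y a → X d ∈ I a := by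
    rintro a ha hl d (⟨⟨k1, k2, k3⟩, k4⟩ | rfl)
    · have k5 := lt_of_le_of_ne k3 fun e => k4 (inj _ k1 _ (hyP a ha) e)
      obtain ⟨k6, k7⟩ := nx d k1 a (hyP a ha) k5
      exact ⟨k6, by omega, by omega⟩
    · obtain ⟨k6, k7⟩ := nx _ (my a ha) a (hyP a ha) hl
      exact ⟨k6, by omega, by omega⟩
  have cl : ∀ a, y a ≠ a → idx (y a) < idx a → ∀ d ∈ I a, (X * y) d ∈ I a := by
    intro a ha hl d hd
    have n1 : d ≠ y a := fun e => by
      have := hd.2.1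
      rw [e] at this
      omega
    by_cases e : d = a
    · exact st a ha hl _ (Or.inr (congrArg y e))
    refine st a ha hl _ (Or.inl ⟨?_, fun e' => n1 (by rw [← e', hy])⟩)
    by_cases e' : y d = d
    · rwa [e']
    refine lz3_fwd (fun u hu => st a ha hl (rs y hy {a} u) ?_) (hnc a d ha e' e n1) hd
    by_cases k : u = a
    · exact Or.inr ((rs_pos (U := {a}) (d := u) (Or.inl k)).trans (congrArg y k))
    · have k2 : y u ≠ a := fun k' => by
        have := hu.2.1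
        rw [← k', hy] at this
        omega
      rw [rs_neg (U := {a}) (d := u) (not_or.2 ⟨k, k2⟩)]
      exact Or.inl ⟨hu, k⟩
  let T : Set D := {a | y a ≠ a ∧ idx (y a) < idx a}
  have c1 : T.ncard ≤ ncyc (X * y) P := lz3_inj (fun a ha => hyP a ha.1) fun a ha b hb h =>
    inj a (hyP a ha.1) b (hyP b hb.1) (le_antisymm
      (lz3_fwd (cl b hb.1 hb.2) h.symm ⟨hyP b hb.1, hb.2, le_rfl⟩).2.2
      (lz3_fwd (cl a ha.1 ha.2) h ⟨hyP a ha.1, ha.2, le_rfl⟩).2.2)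
  have c2 : {d | y d ≠ d} ⊆ T ∪ y '' T := fun d hd => by
    rcases lt_trichotomy (idx (y d)) (idx d) with h | h | h
    · exact Or.inl ⟨hd, h⟩
    · exact absurd (inj _ (my d hd) _ (hyP d hd) h) hd
    · exact Or.inr ⟨y d, ⟨by rw [hy]; exact Ne.symm hd, by rwa [hy]⟩, hy d⟩
  have c3 := (Set.ncard_le_ncard c2).trans (Set.ncard_union_le _ _)
  have c4 := Set.ncard_image_le (f := y) (Set.toFinite T)
  omega

/-- The path to the root. -/
theorem lz3_path {D : Type} [Finite D] {α φ : Perm D} {P U : Set D} {rk : D → ℕ} {root : D}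
    (ht : Tr α φ P U rk root) {Δ : ℕ} (hΔ : ∀ d, sz φ d ≤ Δ) (d : D) (hd : d ∈ P) :
    ∃ B ⊆ P, d ∈ B ∧ (∀ e, φ e ∈ B ↔ e ∈ B) ∧ (∀ u ∈ U, u ∈ B → α u ∈ B) ∧
      B.ncard ≤ (rk d + 1) * Δ ∧ root ∈ B := by
  induction h : rk d using Nat.strong_induction_on generalizing d with
  | _ n ih =>
    have c1 : {e | φ.SameCycle d e} ⊆ P := fun e he =>
      lz3_fwd (fun u hu => (ht.inv u).2 hu) he hd
    have c2 : {e | φ.SameCycle d e}.ncard ≤ Δ := hΔ d
    by_cases k : ∃ u ∈ U, φ.SameCycle d u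
    · obtain ⟨u, hu, hs⟩ := k
      have c3 : rk (α u) < n := by rw [← h, sc_lab rk ht.rkφ hs]; exact ht.dec u hu
      obtain ⟨B, b1, b2, b3, b4, b5, b6⟩ := ih _ c3 (α u) (ht.sub u hu).2 rfl
      refine ⟨{e | φ.SameCycle d e} ∪ B, Set.union_subset c1 b1, Or.inl (Perm.SameCycle.refl _ _),
        fun e => or_congr Perm.sameCycle_apply_right (b3 e), fun v hv hv' => Or.inr ?_, ?_,
        Or.inr b6⟩
      · rcases hv' with hv' | hv'
        · rwa [ht.inj v hv u hu (Perm.SameCycle.trans (Perm.SameCycle.symm hv') hs)]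
        · exact b4 v hv hv'
      · have c4 := Set.ncard_union_le {e | φ.SameCycle d e} B
        have c5 := Nat.mul_le_mul_right Δ (Nat.succ_le_of_lt c3)
        rw [add_mul, one_mul]
        exact c4.trans ((Nat.add_le_add c2 (b5.trans c5)).trans_eq (add_comm _ _))
    · exact ⟨_, c1, Perm.SameCycle.refl _ _, fun e => Perm.sameCycle_apply_right,
        fun v hv hv' => (k ⟨v, hv, hv'⟩).elim, c2.trans (Nat.le_mul_of_pos_left _ (Nat.succ_pos _)),
        (ht.span d hd).resolve_right k⟩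

/-- Crossing chords give a short handle. -/
theorem lz3_handle {D : Type} [Finite D] {α φ : Perm D} (hα : ∀ d, α (α d) = d) {P U : Set D}
    {rk : D → ℕ} {root : D} (ht : Tr α φ P U rk root) {Δ ρ : ℕ} (hΔ : ∀ d, sz φ d ≤ Δ)
    (hρ : ∀ d ∈ P, rk d ≤ ρ) (hno : ∀ H : Hdl α φ hα ((4 * ρ + 4) * Δ), ¬ H.B ⊆ P) {a b : D}
    (ha : a ∈ P ∧ α a ∈ P ∧ ¬ On α U a) (hb : b ∈ P ∧ α b ∈ P ∧ ¬ On α U b)
    (h1 : b ≠ a) (h2 : α b ≠ a) : (φ * rs α hα (U ∪ {a})).SameCycle b (α b) := by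
  classical
  by_contra hn
  choose! Bd b1 b2 b3 b4 b5 b6 using lz3_path ht hΔ
  let B := (Bd a ∪ Bd (α a)) ∪ (Bd b ∪ Bd (α b))
  have c1 : B ⊆ P := Set.union_subset (Set.union_subset (b1 _ ha.1) (b1 _ ha.2.1))
    (Set.union_subset (b1 _ hb.1) (b1 _ hb.2.1))
  have c2 : ∀ e, φ e ∈ B ↔ e ∈ B := fun e => or_congr (or_congr (b3 _ ha.1 e) (b3 _ ha.2.1 e))
    (or_congr (b3 _ hb.1 e) (b3 _ hb.2.1 e))
  have c3 : ∀ u ∈ U, u ∈ B → α u ∈ B := fun u hu => Or.imp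
    (Or.imp (b4 _ ha.1 u hu) (b4 _ ha.2.1 u hu)) (Or.imp (b4 _ hb.1 u hu) (b4 _ hb.2.1 u hu))
  have c4 : ∀ d ∈ P, (Bd d).ncard ≤ (ρ + 1) * Δ := fun d hd =>
    (b5 d hd).trans (Nat.mul_le_mul_right _ (Nat.succ_le_succ (hρ d hd)))
  have a1 : a ∈ B := Or.inl (Or.inl (b2 _ ha.1))
  have a2 : α a ∈ B := Or.inl (Or.inr (b2 _ ha.2.1))
  refine hno ⟨B, U ∩ B, rk, root, a, b, ⟨c2, ht.rkφ, fun u hu => ⟨hu.2, c3 u hu.1 hu.2⟩,
    fun u hu => ht.dec u hu.1, fun u hu v hv => ht.inj u hu.1 v hv.1, Or.inl (Or.inl (b6 _ ha.1)),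
    ht.rk0, fun d hd => (ht.span d (c1 hd)).imp_right
      fun ⟨u, hu, hs⟩ => ⟨u, ⟨hu, (sc_mem c2 hs).1 hd⟩, hs⟩⟩, ?_, ⟨a1, a2⟩,
    ⟨Or.inr (Or.inl (b2 _ hb.1)), Or.inr (Or.inr (b2 _ hb.2.1))⟩,
    fun h => ha.2.2 (h.mono Set.inter_subset_left),
    fun h => (On.union.1 h).elim (fun h => hb.2.2 (h.mono Set.inter_subset_left))
      fun h => h.elim h1 h2, fun hs => hn ?_⟩ c1
  · have k1 := Set.ncard_union_le (Bd a ∪ Bd (α a)) (Bd b ∪ Bd (α b))
    have k2 := Set.ncard_union_le (Bd a) (Bd (α a))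
    have k3 := Set.ncard_union_le (Bd b) (Bd (α b))
    have k4 := c4 _ ha.1
    have k5 := c4 _ ha.2.1
    have k6 := c4 _ hb.1
    have k7 := c4 _ hb.2.1
    rw [show (4 * ρ + 4) * Δ = 4 * ((ρ + 1) * Δ) by ring]
    exact k1.trans (by omega)
  have k0 : ∀ d ∈ U ∩ B ∪ {a}, d ∈ B ∧ α d ∈ B := by
    rintro d (h | h)
    · exact ⟨h.2, c3 d h.1 h.2⟩
    · rw [Set.mem_singleton_iff.1 h]
      exact ⟨a1, a2⟩
  have r2 := rs_union (h := hα) (U := U ∩ B ∪ {a}) (V := U \ B) fun v hv h =>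
    hv.2 (on_mem hα k0 h)
  rw [Set.union_right_comm, Set.inter_union_sdiff] at r2
  have k1 : ∀ d, d ∉ B → (φ * rs α hα (U ∩ B ∪ {a})) d = φ d := fun d hd =>
    congrArg φ (rs_neg fun h => hd (on_mem hα k0 h))
  have k2 : ∀ d, (φ * rs α hα (U ∩ B ∪ {a})) d ∈ B ↔ d ∈ B := fun d => by
    rw [Perm.mul_apply, c2, rs_mem k0]
  have k3 := (tree_rs (h := hα) (V := U \ B) (φ * rs α hα (U ∩ B ∪ {a}))
    (fun d => if d ∈ B then 0 else rk d + 1)
    (fun d => by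
      by_cases hd : d ∈ B
      · rw [if_pos hd, if_pos ((k2 d).2 hd)]
      · rw [if_neg hd, if_neg fun h => hd ((k2 d).1 h), k1 d hd, ht.rkφ])
    (fun u hu => by
      have := ht.dec u hu.1
      rw [if_neg hu.2]
      split_ifs <;> omega)
    fun u hu v hv h => ht.inj u hu.1 v hv.1
      ((sc_congr Bᶜ (fun d => not_congr (k2 d)) k1 hu.2 v).1 h)).right hs
  rwa [mul_assoc, ← r2] at k3

/-- A piece with a tree of bounded depth and without short handles has a large boundary. -/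
theorem planar {M : CMap} {Δ K : ℕ} (h : YM M Δ K) {P U : Set M.D} {rk : M.D → ℕ} {root : M.D}
    (ht : Tr M.α M.φ P U rk root) {ρ : ℕ} (hρ : ∀ d ∈ P, rk d ≤ ρ)
    (hno : ∀ H : Hdl M.α M.φ M.αα ((4 * ρ + 4) * Δ), ¬ H.B ⊆ P) :
    ncyc M.φ P ≤ 4 * K * cutN M.α P := by
  classical
  have hα := M.αα
  let V : Set M.D := {d | d ∈ P ∧ M.α d ∈ P ∧ ¬ On M.α U d}
  have v1 : ∀ d, M.α d ∈ V ↔ d ∈ V := fun d => by
    simp only [V, Set.mem_ofPred_eq, hα, On.al hα]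
    tauto
  have y1 : ∀ d ∈ V, rs M.α hα V d = M.α d := fun d hd => rs_pos (Or.inl hd)
  have y2 : ∀ d, rs M.α hα V d ≠ d → d ∈ V := fun d hd => by
    by_contra k
    exact hd (rs_neg fun e => k (e.elim id (v1 d).1))
  have c1 := chords (M.φ * rs M.α hα U) (rs M.α hα V) rs_rs P (fun d hd e => ht.one hd e)
    (fun d hd => (y2 d hd).1) fun a b ha hb n1 n2 => by
      have a1 := y2 a ha
      rw [y1 a a1] at n2
      have k := lz3_handle hα ht h.deg hρ hno a1 (y2 b hb) n1 fun e => n2 (by rw [← e, hα])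
      rw [rs_union fun u hu => by rw [Set.mem_singleton_iff.1 hu]; exact a1.2.2, ← mul_assoc] at k
      have e : rs (rs M.α hα V) rs_rs {a} = rs M.α hα {a} := Equiv.ext fun d => by
        by_cases k1 : d ∈ V
        · have k2 : On (rs M.α hα V) {a} d ↔ On M.α {a} d := by rw [On, On, y1 d k1]
          by_cases k3 : On M.α {a} d
          · rw [rs_pos k3, rs_pos (k2.2 k3), y1 d k1]
          · rw [rs_neg k3, rs_neg fun k4 => k3 (k2.1 k4)]
        · have k2 : rs M.α hα V d = d := of_not_not fun k3 => k1 (y2 d k3)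
          rw [rs_neg (U := {a}) (d := d) fun k3 => k1 (k3.elim (fun k3 => k3 ▸ a1)
              fun k3 => (k2.symm.trans k3) ▸ a1),
            rs_neg (U := {a}) (d := d) fun k3 =>
              k1 (k3.elim (fun k3 => k3 ▸ a1) fun k3 => (v1 d).1 (k3 ▸ a1))]
      rwa [y1 b (y2 b hb), e]
  have r := rs_union (h := hα) (U := U) (V := V) fun v hv => hv.2.2
  generalize rs M.α hα U = β at c1 r
  generalize rs M.α hα V = y at c1 r y1
  have w : ∀ d ∈ P, M.ψ d ∈ P → (M.φ * β * y).SameCycle d (M.ψ d) := fun d hd hd' => by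
    have e : (M.φ * β * y) d = M.ψ d := by
      rw [mul_assoc, ← r]
      refine congrArg M.φ (rs_pos (On.union.2 ?_))
      by_cases k1 : On M.α U d
      · exact Or.inl k1
      · exact Or.inr (Or.inl ⟨hd, (ht.inv _).1 hd', k1⟩)
    rw [← e]
    exact Perm.sameCycle_apply_right.2 (Perm.SameCycle.refl _ _)
  have c2 := h.curv P ht.inv
  have c3 : U.ncard ≤ ncyc M.φ P := lz3_inj (fun u hu => (ht.sub u hu).1) ht.inj
  set F : Set M.D := {d ∈ P | M.ψ d ∈ P ∧ M.ψ (M.ψ d) ∈ P} with hF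
  have c4 : F.ncard ≤ {d | y d ≠ d}.ncard + 2 * U.ncard := by
    have k : F ⊆ {d | y d ≠ d} ∪ (U ∪ M.α '' U) := fun d hd => by
      by_cases k1 : d ∈ U
      · exact Or.inr (Or.inl k1)
      by_cases k2 : M.α d ∈ U
      · exact Or.inr (Or.inr ⟨_, k2, hα d⟩)
      exact Or.inl fun e => M.αne d ((y1 d ⟨hd.1, (ht.inv _).1 hd.2.1, not_or.2 ⟨k1, k2⟩⟩).symm.trans e)
    have k1 := (Set.ncard_le_ncard k).trans (Set.ncard_union_le _ _)
    have k2 := Set.ncard_union_le U (M.α '' U)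
    have k3 := Set.ncard_image_le (f := M.α) (Set.toFinite U)
    omega
  have c5 : ncyc (M.φ * β * y) P ≤ ncyc (M.φ * β * y) F + cutN M.α P := by
    refine le_trans (Set.ncard_le_ncard ?_) ((Set.ncard_union_le _ _).trans
      (Nat.add_le_add_left (ncyc_le (σ := M.φ * β * y) {d ∈ P | M.α d ∉ P}) _))
    rintro _ ⟨d, hd, rfl⟩
    by_cases k1 : M.ψ d ∈ P
    · by_cases k2 : M.ψ (M.ψ d) ∈ P
      · exact Or.inl ⟨d, ⟨hd, k1, k2⟩, rfl⟩
      · exact Or.inr ⟨M.ψ d, ⟨k1, fun e => k2 ((ht.inv _).2 e)⟩, Quotient.sound (w d hd k1).symm⟩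
    · exact Or.inr ⟨d, ⟨hd, fun e => k1 ((ht.inv _).2 e)⟩, rfl⟩
  have c6 : 3 * ncyc (M.φ * β * y) F ≤ F.ncard := by
    rw [ncyc, Set.ncard_eq_toFinset_card', Set.ncard_eq_toFinset_card', Set.toFinset_image]
    refine Finset.mul_card_image_le_card _ 3 fun q hq => ?_
    obtain ⟨d, hd, rfl⟩ := Finset.mem_image.1 hq
    obtain ⟨k0, k1, k2⟩ := Set.mem_toFinset.1 hd
    have t := fun d => (h.tri d).2
    rw [← Finset.card_eq_three.2 ⟨d, M.ψ d, M.ψ (M.ψ d), (t d).symm,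
      fun e => t d ((congrArg M.ψ e).trans (h.tri d).1), (t _).symm, rfl⟩]
    refine Finset.card_le_card fun e he => Finset.mem_filter.2 ?_
    simp only [Finset.mem_insert, Finset.mem_singleton] at he
    rcases he with rfl | rfl | rfl
    · exact ⟨hd, rfl⟩
    · exact ⟨Set.mem_toFinset.2 ⟨k1, k2, (h.tri d).1.symm ▸ k0⟩, Quotient.sound (w d k0 k1).symm⟩
    · exact ⟨Set.mem_toFinset.2 ⟨k2, (h.tri d).1.symm ▸ k0, (h.tri d).1.symm ▸ k1⟩,
        Quotient.sound ((w d k0 k1).trans (w _ k1 k2)).symm⟩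
  have c7 : F.ncard ≤ 6 * ncyc M.φ P + 6 * cutN M.α P := by omega
  have c8 := Nat.mul_le_mul_left K c7
  nlinarith

end Pool.Agent.MC.LL
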