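import Pool.Agent.P.MP_2677b3_gt.LZ3

open Equiv Function

noncomputable section

namespace Pool.Agent.MC.LL

section
variable {D : Type} [Finite D] {α φ : Perm D}

/-- One more layer of a ball. -/
theorem lz4_ext (h : ∀ d, α (α d) = d) {B P U : Set D} {rk : D → ℕ} {o : D} {r : ℕ}
    (T : Tr α φ P U rk o) (sP : P ⊆ B) (iB : ∀ d, φ d ∈ B ↔ d ∈ B) (hr : ∀ d ∈ P, rk d ≤ r) :
    ∃ (P' U' : Set D) (rk' : D → ℕ), P' ⊆ B ∧ Tr α φ P' U' rk' o ∧ (∀ d ∈ P', rk' d ≤ r + 1) ∧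
      P.ncard + {d ∈ P | α d ∈ B ∧ α d ∉ P}.ncard ≤ P'.ncard := by
  classical
  set V : Set D := {u ∈ B | u ∉ P ∧ α u ∈ P} with hV
  obtain ⟨W, w1, w2, w3⟩ := exists_reps φ V
  refine ⟨P ∪ {e | ∃ u ∈ V, φ.SameCycle u e}, U ∪ W, fun d => if d ∈ P then rk d else r + 1,
    ?_, ⟨fun d => ?_, fun d => ?_, ?_, ?_, ?_, Or.inl T.root, ?_, ?_⟩, fun d _ => ?_, ?_⟩
  · rintro d (hd | ⟨u, hu, hs⟩)
    · exact sP hd
    · exact (sc_mem iB hs).1 hu.1
  · refine or_congr (T.inv d) (exists_congr fun u => and_congr_right fun _ => ?_)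
    exact Perm.sameCycle_apply_right
  · simp only [T.inv, T.rkφ]
  · rintro u (hu | hu)
    · exact ⟨Or.inl (T.sub u hu).1, Or.inl (T.sub u hu).2⟩
    · exact ⟨Or.inr ⟨u, w1 hu, Perm.SameCycle.refl _ _⟩, Or.inl (w1 hu).2.2⟩
  · rintro u (hu | hu)
    · simp only [(T.sub u hu).1, (T.sub u hu).2, if_true]; exact T.dec u hu
    · have := hr _ (w1 hu).2.2
      simp only [(w1 hu).2.1, (w1 hu).2.2, if_true, if_false]; omega
  · rintro u (hu | hu) u' (hu' | hu') hs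
    · exact T.inj u hu u' hu' hs
    · exact absurd ((sc_mem T.inv hs).1 (T.sub u hu).1) (w1 hu').2.1
    · exact absurd ((sc_mem T.inv hs).2 (T.sub u' hu').1) (w1 hu).2.1
    · exact w2 u hu u' hu' hs
  · simp only [T.root, if_true]; exact T.rk0
  · rintro d (hd | ⟨u, hu, hs⟩)
    · exact (T.span d hd).imp_right fun ⟨u, hu, hs⟩ => ⟨u, Or.inl hu, hs⟩
    · obtain ⟨u', hu', hs'⟩ := w3 u hu
      exact Or.inr ⟨u', Or.inr hu', hs.symm.trans hs'⟩
  · by_cases hd : d ∈ P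
    · have := hr d hd
      simp only [hd, if_true]; omega
    · simp only [hd, if_false]; omega
  · rw [← Set.ncard_image_of_injective {d ∈ P | α d ∈ B ∧ α d ∉ P} α.injective,
      ← Set.ncard_union_eq (Set.disjoint_left.2 (by rintro _ hx ⟨d, hd, rfl⟩; exact hd.2.2 hx))]
    refine Set.ncard_le_ncard (Set.union_subset_union_right _ ?_)
    rintro _ ⟨d, hd, rfl⟩
    exact ⟨α d, ⟨hd.2.1, hd.2.2, by rw [h]; exact hd.1⟩, Perm.SameCycle.refl _ _⟩

theorem lz4_grow (h : ∀ d, α (α d) = d) {B : Set D} (iB : ∀ d, φ d ∈ B ↔ d ∈ B) {o : D}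
    (ho : o ∈ B) (k r : ℕ) : ∃ (P U : Set D) (rk : D → ℕ), P ⊆ B ∧ Tr α φ P U rk o ∧
      (∀ d ∈ P, rk d ≤ r) ∧ (k * {d ∈ P | α d ∈ B ∧ α d ∉ P}.ncard ≤ P.ncard ∨
        (k + 1) ^ r ≤ k ^ r * P.ncard) := by
  induction r with
  | zero =>
    refine ⟨{e | φ.SameCycle o e}, ∅, fun _ => 0, fun e he => (sc_mem iB he).1 ho,
      ⟨fun e => Perm.sameCycle_apply_right, fun _ => rfl, by simp, by simp, by simp,
        Perm.SameCycle.refl _ _, rfl, fun d hd => Or.inl (Perm.SameCycle.symm hd)⟩,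
      fun _ _ => le_rfl, Or.inr ?_⟩
    have : 0 < {e | φ.SameCycle o e}.ncard := sz_pos φ o
    simp only [pow_zero]
    omega
  | succ r ih =>
    obtain ⟨P, U, rk, h1, h2, h3, h4⟩ := ih
    by_cases hg : k * {d ∈ P | α d ∈ B ∧ α d ∉ P}.ncard ≤ P.ncard
    · exact ⟨P, U, rk, h1, h2, fun d hd => (h3 d hd).trans (Nat.le_succ _), Or.inl hg⟩
    · obtain ⟨P', U', rk', k1, k2, k3, k4⟩ := lz4_ext h h2 h1 iB h3
      refine ⟨P', U', rk', k1, k2, k3, Or.inr ?_⟩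
      have k5 := h4.resolve_left hg
      have k6 : (k + 1) * P.ncard ≤ k * P'.ncard := by
        have := Nat.mul_le_mul_left k k4
        nlinarith
      calc (k + 1) ^ (r + 1) = (k + 1) ^ r * (k + 1) := pow_succ _ _
        _ ≤ k ^ r * P.ncard * (k + 1) := Nat.mul_le_mul_right _ k5
        _ = k ^ r * ((k + 1) * P.ncard) := by ring
        _ ≤ k ^ r * (k * P'.ncard) := Nat.mul_le_mul_left _ k6
        _ = k ^ (r + 1) * P'.ncard := by ring

end

theorem lz4_bern (a n : ℕ) : a ^ (n + 1) + (n + 1) * a ^ n ≤ (a + 1) ^ (n + 1) := by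
  induction n with
  | zero => simp
  | succ n ih =>
    calc a ^ (n + 1 + 1) + (n + 1 + 1) * a ^ (n + 1)
        ≤ (a ^ (n + 1) + (n + 1) * a ^ n) * (a + 1) := by
          have : 0 ≤ (n + 1) * a ^ n := Nat.zero_le _
          simp only [pow_succ]
          nlinarith
      _ ≤ (a + 1) ^ (n + 1) * (a + 1) := Nat.mul_le_mul_right _ ih
      _ = _ := (pow_succ _ _).symm

theorem lz4_big (k l p : ℕ) (hp : p ≤ 2 ^ l) :
    ¬ (k + 1 + 1) ^ ((k + 1) * (l + 1)) ≤ (k + 1) ^ ((k + 1) * (l + 1)) * p := by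
  have h1 : 2 * (k + 1) ^ (k + 1) ≤ (k + 1 + 1) ^ (k + 1) := by
    have := lz4_bern (k + 1) k
    rw [← pow_succ'] at this
    omega
  have h2 := Nat.pow_le_pow_left h1 (l + 1)
  rw [mul_pow, ← pow_mul, ← pow_mul] at h2
  have h3 : 0 < (k + 1) ^ ((k + 1) * (l + 1)) := by positivity
  have h4 : 0 < 2 ^ l := by positivity
  have h5 := Nat.mul_le_mul_left ((k + 1) ^ ((k + 1) * (l + 1))) hp
  rw [pow_succ] at h2
  nlinarith

/-- Sets without short handles expand. -/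
theorem iso (Δ K : ℕ) : ∃ c : ℕ, ∀ (M : CMap) (l : ℕ), YM M Δ K → Nat.card M.D ≤ 2 ^ l →
    ∀ B : Set M.D, (∀ d, M.φ d ∈ B ↔ d ∈ B) →
      (∀ H : Hdl M.α M.φ M.αα (c * (l + 1)), ¬ H.B ⊆ B) → B.ncard ≤ c * cutN M.α B := by
  refine ⟨(4 * (16 * (K * Δ) + 1) + 4) * Δ + 8 * (K * Δ), fun M l hM hl B iB hno => ?_⟩
  suffices hs : B.ncard ≤ 8 * (K * Δ) * cutN M.α B from
    hs.trans (Nat.mul_le_mul_right _ (Nat.le_add_left _ _))
  induction hn : B.ncard using Nat.strong_induction_on generalizing B with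
  | _ n ih =>
    subst hn
    rcases B.eq_empty_or_nonempty with rfl | ⟨o, ho⟩
    · simp
    obtain ⟨P, U, rk, h1, h2, h3, h4⟩ := lz4_grow M.αα iB ho (16 * (K * Δ) + 1)
      ((16 * (K * Δ) + 1) * (l + 1))
    have h5 := h4.resolve_right (lz4_big _ l _ ((Set.ncard_le_card P).trans hl))
    have h6 := planar hM h2 h3 (fun H hH => hno ⟨H.B, H.U, H.rk, H.o, H.a, H.b, H.tr,
      H.card.trans (by nlinarith [Nat.zero_le (Δ * l), Nat.zero_le (K * Δ * (l + 1))]), H.ha,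
      H.hb, H.na, H.nb, H.cross⟩ (hH.trans h1))
    have h7 := ncard_le_ncyc hM.deg P
    have h8 : P.ncard + (B \ P).ncard = B.ncard := by
      rw [add_comm]; exact Set.ncard_sdiff_add_ncard_of_subset h1
    have h9 : 0 < P.ncard := (Set.ncard_pos).2 ⟨o, h2.root⟩
    have h10 := ih _ (by omega) (B \ P) (fun d => and_congr (iB d) (not_congr (h2.inv d)))
      (fun H hH => hno H (hH.trans Set.sdiff_subset)) rfl
    set ci := {d ∈ P | M.α d ∈ B ∧ M.α d ∉ P} with hci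
    have h11 : cutN M.α P ≤ ci.ncard + {d ∈ P | M.α d ∉ B}.ncard := by
      refine (Set.ncard_le_ncard (fun d hd => ?_)).trans (Set.ncard_union_le _ _)
      by_cases h' : M.α d ∈ B
      · exact Or.inl ⟨hd.1, h', hd.2⟩
      · exact Or.inr ⟨hd.1, h'⟩
    have h12 : cutN M.α (B \ P) + {d ∈ P | M.α d ∉ B}.ncard ≤ cutN M.α B + ci.ncard := by
      unfold cutN
      rw [← Set.ncard_union_eq (Set.disjoint_left.2 fun d hd hd' => hd.1.2 hd'.1),
        ← Set.ncard_image_of_injective ci M.α.injective]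
      refine (Set.ncard_le_ncard ?_).trans (Set.ncard_union_le _ _)
      rintro d (hd | hd)
      · by_cases h' : M.α d ∈ B
        · refine Or.inr ⟨M.α d, ⟨?_, ?_, ?_⟩, M.αα d⟩
          · by_contra h''
            exact hd.2 ⟨h', h''⟩
          · rw [M.αα]; exact hd.1.1
          · rw [M.αα]; exact hd.1.2
        · exact Or.inl ⟨hd.1.1, h'⟩
      · exact Or.inl ⟨h1 hd.1, hd.2⟩
    have h13 : P.ncard ≤ 4 * (K * Δ) * (ci.ncard + {d ∈ P | M.α d ∉ B}.ncard) := by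
      calc P.ncard ≤ Δ * (4 * K * cutN M.α P) := h7.trans (Nat.mul_le_mul_left _ h6)
        _ = 4 * (K * Δ) * cutN M.α P := by ring
        _ ≤ _ := Nat.mul_le_mul_left _ h11
    have h14 := Nat.mul_le_mul_left (8 * (K * Δ)) h12
    nlinarith

end Pool.Agent.MC.LL
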