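import Pool.Agent.P.MP_2677b3_gt.LZ1

open Equiv Function

noncomputable section

namespace Pool.Agent.MC.LL

section
variable {D : Type} [Finite D]

theorem lz5_fwd {σ : Perm D} {I : Set D} (h : ∀ d ∈ I, σ d ∈ I) {d e : D}
    (hs : σ.SameCycle d e) (hd : d ∈ I) : e ∈ I := by
  obtain ⟨n, rfl⟩ := hs.exists_nat_pow_eq
  clear hs
  induction n with
  | zero => exact hd
  | succ n ih => rw [pow_succ', Perm.mul_apply]; exact h _ ih

/-- A transposition inside a cycle splits it. -/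
theorem lz5_split {X τ : Perm D} {a a' : D} (hs : X.SameCycle a a') (hne : a ≠ a') (h1 : τ a = a')
    (h2 : τ a' = a) (h3 : ∀ d, d ≠ a → d ≠ a' → τ d = d) : ¬ (X * τ).SameCycle a a' := by
  obtain ⟨idx, i1, i2⟩ := exists_index X
  wlog hl : idx a < idx a' generalizing a a'
  · exact fun h => this hs.symm hne.symm h2 h1 (fun d u v => h3 d v u)
      (lt_of_le_of_ne (not_lt.1 hl) fun e => hne (i1 _ _ hs e.symm)) h.symm
  intro h
  have st : ∀ d, X.SameCycle a d → idx d < idx a' → idx (X d) = idx d + 1 := fun d hd hlt => by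
    rcases i2 d with e | e
    · exact e
    · have := e.2 a' (hd.symm.trans hs)
      omega
  have := lz5_fwd (I := {d | X.SameCycle a d ∧ idx a < idx d ∧ idx d ≤ idx a'}) (fun d hd => ?_)
    h.symm ⟨hs, hl, le_rfl⟩
  · exact lt_irrefl _ this.2.1
  obtain ⟨k1, k2, k3⟩ := hd
  rw [Perm.mul_apply]
  by_cases e : d = a'
  · rw [e, h2]
    have := st a (.refl _ _) hl
    exact ⟨Perm.sameCycle_apply_right.2 (.refl _ _), by omega, by omega⟩
  · rw [h3 d (fun e' => by rw [e'] at k2; omega) e]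
    have k4 := lt_of_le_of_ne k3 fun e' => e (i1 _ _ (k1.symm.trans hs) e')
    have := st d k1 k4
    exact ⟨Perm.sameCycle_apply_right.2 k1, by omega, by omega⟩

theorem lz5_two {X τ : Perm D} {a a' : D} (h3 : ∀ d, d ≠ a → d ≠ a' → τ d = d) {d : D}
    (hs : X.SameCycle d a) : (X * τ).SameCycle d a ∨ (X * τ).SameCycle d a' := by
  obtain ⟨n, hn⟩ := hs.exists_nat_pow_eq
  clear hs
  induction n generalizing d with
  | zero => exact Or.inl (hn ▸ .refl _ _)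
  | succ n ih =>
    by_cases e : d = a
    · exact Or.inl (e ▸ .refl _ _)
    by_cases e' : d = a'
    · exact Or.inr (e' ▸ .refl _ _)
    rw [pow_succ, Perm.mul_apply] at hn
    have e2 : (X * τ) d = X d := by rw [Perm.mul_apply, h3 d e e']
    have := ih hn
    rw [← e2] at this
    exact this.imp Perm.sameCycle_apply_left.1 Perm.sameCycle_apply_left.1

omit [Finite D] in
theorem lz5_ft {I : Type} [Finite I] {a : I → D} (h : Injective a) {n : ℕ} (hn : 1 ≤ n) :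
    Ft n a := fun _ =>
  ((Set.ncard_le_one (Set.toFinite _)).2 fun _ hi _ hj => h (hi.trans hj.symm)).trans hn

variable {α φ : Perm D} {hα : ∀ d, α (α d) = d} {H : Type} {B W : H → Set D}

omit [Finite D] in
theorem lz5_eq (hd : ∀ i j, i ≠ j → Disjoint (B i) (B j)) {i j : H} {d : D} (h1 : d ∈ B i)
    (h2 : d ∈ B j) : i = j := by
  by_contra h
  exact Set.disjoint_left.1 (hd i j h) h1 h2

omit [Finite D] in
theorem lz5_un {d : D} : On α (⋃ i, W i) d ↔ ∃ i, On α (W i) d := by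
  simp only [On, Set.mem_iUnion, exists_or]

omit [Finite D] in
theorem lz5_on (hα : ∀ d, α (α d) = d) (hd : ∀ i j, i ≠ j → Disjoint (B i) (B j))
    (hW : ∀ i, ∀ u ∈ W i, u ∈ B i ∧ α u ∈ B i) {i : H} {d : D} (h : d ∈ B i) :
    On α (⋃ i, W i) d ↔ On α (W i) d := by
  rw [lz5_un]
  exact ⟨fun ⟨j, hj⟩ => lz5_eq hd h (on_mem hα (hW j) hj) ▸ hj, fun hi => ⟨i, hi⟩⟩

omit [Finite D] in
theorem lz5_off (hα : ∀ d, α (α d) = d) (hW : ∀ i, ∀ u ∈ W i, u ∈ B i ∧ α u ∈ B i) {d : D}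
    (h : ∀ i, d ∉ B i) : ¬ On α (⋃ i, W i) d := fun h' =>
  (lz5_un.1 h').elim fun j hj => h j (on_mem hα (hW j) hj)

omit [Finite D] in
theorem lz5_mem (hd : ∀ i j, i ≠ j → Disjoint (B i) (B j)) (hφ : ∀ i d, φ d ∈ B i ↔ d ∈ B i)
    (hW : ∀ i, ∀ u ∈ W i, u ∈ B i ∧ α u ∈ B i) (i : H) (d : D) :
    (φ * rs α hα (⋃ i, W i)) d ∈ B i ↔ d ∈ B i := by
  rw [Perm.mul_apply, hφ]
  by_cases h : On α (⋃ i, W i) d
  · rw [rs_pos h]
    obtain ⟨j, hj⟩ := lz5_un.1 h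
    have h1 := on_mem hα (hW j) hj
    have h2 := on_mem hα (hW j) ((On.al hα).2 hj)
    exact ⟨fun h3 => lz5_eq hd h2 h3 ▸ h1, fun h3 => lz5_eq hd h1 h3 ▸ h2⟩
  · rw [rs_neg h]

theorem lz5_sc (hd : ∀ i j, i ≠ j → Disjoint (B i) (B j)) (hφ : ∀ i d, φ d ∈ B i ↔ d ∈ B i)
    (hW : ∀ i, ∀ u ∈ W i, u ∈ B i ∧ α u ∈ B i) {i : H} {d : D} (h : d ∈ B i) (e : D) :
    (φ * rs α hα (⋃ i, W i)).SameCycle d e ↔ (φ * rs α hα (W i)).SameCycle d e := by
  refine sc_congr (B i) (lz5_mem hd hφ hW i) (fun u hu => ?_) h e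
  rw [Perm.mul_apply, Perm.mul_apply]
  by_cases h' : On α (W i) u
  · rw [rs_pos h', rs_pos ((lz5_on hα hd hW hu).2 h')]
  · rw [rs_neg h', rs_neg fun k => h' ((lz5_on hα hd hW hu).1 k)]

theorem lz5_sz (hd : ∀ i j, i ≠ j → Disjoint (B i) (B j)) (hφ : ∀ i d, φ d ∈ B i ↔ d ∈ B i)
    (hW : ∀ i, ∀ u ∈ W i, u ∈ B i ∧ α u ∈ B i) {Δ R : ℕ} (h1 : ∀ d, sz φ d ≤ Δ)
    (h2 : ∀ i, (B i).ncard ≤ R) (d : D) : sz (φ * rs α hα (⋃ i, W i)) d ≤ Δ + R := by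
  by_cases h : ∃ i, d ∈ B i
  · obtain ⟨i, hi⟩ := h
    refine le_trans (Set.ncard_le_ncard fun e he => ?_) ((h2 i).trans (Nat.le_add_left _ _))
    exact (sc_mem (lz5_mem hd hφ hW i) he).1 hi
  · refine le_trans (Set.ncard_le_ncard fun e he => ?_) ((h1 d).trans (Nat.le_add_right _ _))
    refine (sc_congr {u | ∀ i, u ∉ B i} (fun u => ?_) (fun u hu => ?_) (not_exists.1 h) e).1 he
    · simp only [Set.mem_ofPred_eq, lz5_mem hd hφ hW]
    · rw [Perm.mul_apply, rs_neg (lz5_off hα hW hu)]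

/-- One more chord in each piece. -/
theorem lz5_chord (hd : ∀ i j, i ≠ j → Disjoint (B i) (B j))
    (hφ : ∀ i d, φ d ∈ B i ↔ d ∈ B i) (hW : ∀ i, ∀ u ∈ W i, u ∈ B i ∧ α u ∈ B i) {c : H → D}
    (hc : ∀ i, c i ∈ B i ∧ α (c i) ∈ B i)
    (hx : ∀ i, ¬ (φ * rs α hα (W i)).SameCycle (c i) (α (c i))) :
    Tree (rs α hα (Set.range c)) (φ * rs α hα (⋃ i, W i)) := by
  classical
  refine tree_rs _ (fun d => if ∃ i, (φ * rs α hα (⋃ i, W i)).SameCycle (c i) d then 1 else 0)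
    (fun d => ?_) ?_ ?_
  · simp only [Perm.sameCycle_apply_right]
  · rintro _ ⟨i, rfl⟩
    rw [if_neg, if_pos ⟨i, .refl _ _⟩]
    · exact one_pos
    · rintro ⟨j, hj⟩
      obtain rfl := lz5_eq hd ((sc_mem (lz5_mem hd hφ hW j) hj).1 (hc j).1) (hc i).2
      exact hx j ((lz5_sc hd hφ hW (hc j).1 _).1 hj)
  · rintro _ ⟨i, rfl⟩ _ ⟨j, rfl⟩ hs
    rw [lz5_eq hd ((sc_mem (lz5_mem hd hφ hW i) hs).1 (hc i).1) (hc j).1]

theorem lz5_left (hne : ∀ d, α d ≠ d) (hd : ∀ i j, i ≠ j → Disjoint (B i) (B j)) {c : H → D}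
    (hc : ∀ i, c i ∈ B i ∧ α (c i) ∈ B i) {V : Set D} (hV : Set.range c ⊆ V) :
    Tree ((rs α hα V)⁻¹ * α) (rs α hα (Set.range c)) := by
  refine tree_rs_fix _ (fun d h => (rs_left hα V d).1 (h.mono hV)) ?_
  rintro _ ⟨i, rfl⟩ ⟨j, hj⟩
  obtain rfl := lz5_eq hd (hj ▸ (hc j).1) (hc i).2
  exact hne _ hj.symm

omit [Finite D] in
theorem lz5_add (hd : ∀ i j, i ≠ j → Disjoint (B i) (B j))
    (hW : ∀ i, ∀ u ∈ W i, u ∈ B i ∧ α u ∈ B i) {c : H → D} (hc : ∀ i, c i ∈ B i ∧ α (c i) ∈ B i)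
    (hn : ∀ i, ¬ On α (W i) (c i)) : (∀ i, ∀ u ∈ W i ∪ {c i}, u ∈ B i ∧ α u ∈ B i) ∧
      Set.range c ⊆ ⋃ i, W i ∪ {c i} ∧
      rs α hα (⋃ i, W i ∪ {c i}) = rs α hα (⋃ i, W i) * rs α hα (Set.range c) := by
  refine ⟨?_, ?_, ?_⟩
  · rintro i u (hu | rfl)
    exacts [hW i u hu, hc i]
  · rintro _ ⟨i, rfl⟩
    exact Set.mem_iUnion.2 ⟨i, Or.inr rfl⟩
  · rw [Set.iUnion_union_distrib, Set.iUnion_singleton_eq_range]
    refine rs_union ?_
    rintro _ ⟨i, rfl⟩ h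
    exact hn i ((lz5_on hα hd hW (hc i).1).1 h)

omit [Finite D] in
theorem lz5_one (a d : D) (h1 : d ≠ a) (h2 : d ≠ α a) : rs α hα {a} d = d := by
  refine rs_neg ?_
  rintro (h | h)
  · exact h1 h
  · exact h2 (by rw [← show α d = a from h, hα])

end

/-- Extraction of a disjoint family of short handles. -/
theorem extract : ∃ κ : ℕ, ∀ (M : CMap) (Δ K R : ℕ), YM M Δ K → ∀ (H : Type) [Finite H]
    (h : H → Hdl M.α M.φ M.αα R), (∀ i j, i ≠ j → Disjoint (h i).B (h j).B) →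
    ∃ (α' φ' : Perm M.D) (rel : M.ψ⁻¹ * 1 * φ' * α' = 1),
      Qe (Q κ (Δ + R)) ((mp4 M).gd (I := Empty) Empty.elim Empty.elim)
        ((⟨M.D, inferInstance, α', φ', 1, M.ψ⁻¹, rel⟩ : P4).gd (fun i => (h i).a)
          fun i => (h i).a) ∧
      (∀ d, α' (α' d) = d) ∧ (∀ d, (∀ i, d ∉ (h i).B) → α' d = M.α d ∧ φ' d = M.φ d) ∧
      ∀ i, ∀ d ∈ (h i).B, ∀ e, φ'.SameCycle d e ↔ e ∈ (h i).B := by
  classical
  refine ⟨(2 + 2) * (kA + kA + kA + kA + kA), fun M Δ K R hM H _ h hd => ?_⟩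
  have hφ : ∀ i d, M.φ d ∈ (h i).B ↔ d ∈ (h i).B := fun i => (h i).tr.inv
  have w1 : ∀ i, ∀ u ∈ (h i).U, u ∈ (h i).B ∧ M.α u ∈ (h i).B := fun i => (h i).tr.sub
  have ha := fun i => (h i).ha
  have hb := fun i => (h i).hb
  obtain ⟨w2, s2, e2⟩ := lz5_add (hα := M.αα) hd w1 ha fun i => (h i).na
  obtain ⟨w3, s3, e3⟩ := lz5_add (hα := M.αα) hd w2 hb fun i => (h i).nb
  have hsz : ∀ W : H → Set M.D, (∀ i, ∀ u ∈ W i, u ∈ (h i).B ∧ M.α u ∈ (h i).B) →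
      ((mp4 M).sw (rs M.α M.αα (⋃ i, W i))).Sz (Δ + R + 3) := fun W hW => by
    refine P4.sz_iff.2 ⟨fun d => ?_, fun d => ?_, fun d => ?_, fun d => ?_⟩
    · exact (sz_invol (Equiv.ext (rs_left_invol M.αα _)) d).trans (by omega)
    · exact (lz5_sz hd hφ hW hM.deg (fun i => (h i).card) d).trans (by omega)
    · exact (sz_fix rfl).le.trans (by omega)
    · exact ((P4.sz_iff.1 (mp4_sz hM)).2.2.2 d).trans (by omega)
  have ia : Injective fun i => (h i).a := fun i j e =>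
    lz5_eq hd (ha i).1 (by rw [show (h i).a = (h j).a from e]; exact (ha j).1)
  have ib : Injective fun i => M.α (h i).a := M.α.injective.comp ia
  have n1 : 1 ≤ Δ + R + 3 := by omega
  have f0 : Ft (Δ + R + 3) (Empty.elim : Empty → M.D) := lz5_ft (fun i => i.elim) n1
  have fa := lz5_ft ia n1
  have fb := lz5_ft ib n1
  have loc : ∀ i, M.φ * rs M.α M.αα ((h i).U ∪ {(h i).a}) =
      M.φ * rs M.α M.αα (h i).U * rs M.α M.αα {(h i).a} := fun i => by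
    rw [rs_union (by rintro _ rfl; exact (h i).na), mul_assoc]
  -- step 1
  have hr : ∃ rk : M.D → ℕ, (∀ i, ∀ d ∈ (h i).B, rk d = (h i).rk d) ∧
      ∀ d, (∀ i, d ∉ (h i).B) → rk d = 0 := by
    refine ⟨fun d => if k : ∃ i, d ∈ (h i).B then (h k.choose).rk d else 0, fun i d hi => ?_,
      fun d k => dif_neg (not_exists.2 k)⟩
    have k : ∃ i, d ∈ (h i).B := ⟨i, hi⟩
    beta_reduce
    rw [dif_pos k, lz5_eq hd k.choose_spec hi]
  obtain ⟨rk, r1, r2⟩ := hr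
  have t1 := sw_rs M.αα M.φ (⋃ i, (h i).U) rk (fun d => by
      by_cases k : ∃ i, d ∈ (h i).B
      · obtain ⟨i, hi⟩ := k
        rw [r1 i d hi, r1 i _ ((hφ i d).2 hi), (h i).tr.rkφ]
      · rw [r2 d (not_exists.1 k), r2 _ fun i hi => k ⟨i, (hφ i d).1 hi⟩])
    (fun u hu => by
      obtain ⟨i, hi⟩ := Set.mem_iUnion.1 hu
      rw [r1 i _ (w1 i u hi).1, r1 i _ (w1 i u hi).2]
      exact (h i).tr.dec u hi)
    (fun u hu u' hu' hs => by
      obtain ⟨i, hi⟩ := Set.mem_iUnion.1 hu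
      obtain ⟨j, hj⟩ := Set.mem_iUnion.1 hu'
      obtain rfl := lz5_eq hd ((sc_mem (hφ i) hs).1 (w1 i u hi).1) (w1 j u' hj).1
      exact (h i).tr.inj u hi u' hj hs)
  have q1 := api_sw (G := mp4 M) _ t1.1 t1.2 ((mp4_sz hM).mono (by omega)) (hsz _ w1) f0 f0
  -- step 2
  have g0 : (rs M.α M.αα (Set.range fun i => (h i).a))⁻¹ *
      ((rs M.α M.αα (⋃ i, (h i).U ∪ {(h i).a}))⁻¹ * M.α) =
      (rs M.α M.αα (⋃ i, (h i).U))⁻¹ * M.α := by
    rw [e2, mul_inv_rev, ← mul_assoc, ← mul_assoc, rs_inv (U := Set.range _), rs_mul_self, one_mul]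
  have g1 : M.φ * rs M.α M.αα (⋃ i, (h i).U ∪ {(h i).a}) *
      rs M.α M.αα (Set.range fun i => (h i).a) = M.φ * rs M.α M.αα (⋃ i, (h i).U) := by
    rw [e2, mul_assoc, mul_assoc, rs_mul_self, mul_one]
  have q2 := api_mop (G := (mp4 M).sw (rs M.α M.αα (⋃ i, (h i).U ∪ {(h i).a})))
    (rs M.α M.αα (Set.range fun i => (h i).a)) (fun i => (h i).a) (fun i => M.α (h i).a)
    rs_mul_self (fun j => rs_pos (Or.inl ⟨j, rfl⟩)) ia
    (fun j k e => by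
      obtain rfl := lz5_eq hd (ha j).1 (by rw [show (h j).a = M.α (h k).a from e]; exact (ha k).2)
      exact M.αne _ e.symm)
    (fun d k => by
      by_contra k'
      refine k (rs_neg ?_)
      rintro (⟨j, hj⟩ | ⟨j, hj⟩)
      · exact k' ⟨j, Or.inl hj.symm⟩
      · exact k' ⟨j, Or.inr (by rw [show (h j).a = M.α d from hj, M.αα])⟩)
    (lz5_left M.αne hd ha s2)
    (lz5_chord hd hφ w2 ha fun i => by
      rw [loc]
      exact lz5_split (((h i).tr.one (ha i).1 _).2 (ha i).2) (M.αne _).symm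
        (rs_pos (Or.inl rfl)) ((rs_pos (U := {(h i).a}) (Or.inr (M.αα _))).trans (M.αα _)) (lz5_one _))
    (hsz _ w2) (by
      have := hsz _ w1
      rw [P4.sz_iff] at this ⊢
      exact ⟨fun d => (congrArg (sz · d) g0).trans_le (this.1 d),
        fun d => (congrArg (sz · d) g1).trans_le (this.2.1 d), this.2.2⟩) f0 f0
  rw [gd_congr (rel' := ((mp4 M).sw (rs M.α M.αα (⋃ i, (h i).U))).rel) g0 g1 rfl rfl] at q2
  have q3 := api_iso (G := (mp4 M).sw (rs M.α M.αα (⋃ i, (h i).U ∪ {(h i).a})))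
    (G' := (mp4 M).sw (rs M.α M.αα (⋃ i, (h i).U ∪ {(h i).a})))
    (a' := Sum.elim Empty.elim fun i => (h i).a) (b' := Sum.elim Empty.elim fun i => M.α (h i).a)
    (Equiv.refl _) (Equiv.emptySum Empty H).symm (fun _ => rfl) (fun _ => rfl) (fun _ => rfl)
    (fun _ => rfl) (fun _ => rfl) (fun _ => rfl) (hsz _ w2) fa fb
  -- step 3
  have g2 : (rs M.α M.αα (Set.range fun i => (h i).b))⁻¹ *
      ((rs M.α M.αα (⋃ i, (h i).U ∪ {(h i).a}))⁻¹ * M.α) =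
      (rs M.α M.αα (⋃ i, (h i).U ∪ {(h i).a} ∪ {(h i).b}))⁻¹ * M.α := by
    rw [e3, mul_inv_rev, mul_assoc]
  have g3 : M.φ * rs M.α M.αα (⋃ i, (h i).U ∪ {(h i).a}) *
      rs M.α M.αα (Set.range fun i => (h i).b) =
      M.φ * rs M.α M.αα (⋃ i, (h i).U ∪ {(h i).a} ∪ {(h i).b}) := by
    rw [e3, mul_assoc]
  have t3 := lz5_chord (hα := M.αα) hd hφ w2 hb fun i => (h i).cross
  have q4 := api_sw (G := (mp4 M).sw (rs M.α M.αα (⋃ i, (h i).U ∪ {(h i).a})))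
    (rs M.α M.αα (Set.range fun i => (h i).b)) (g2 ▸ lz5_left M.αne hd hb s3) t3 (hsz _ w2) (by
      have := hsz _ w3
      rw [P4.sz_iff] at this ⊢
      exact ⟨fun d => (congrArg (sz · d) g2).trans_le (this.1 d),
        fun d => (congrArg (sz · d) g3).trans_le (this.2.1 d), this.2.2⟩) fa fb
  rw [gd_congr (rel' := ((mp4 M).sw
    (rs M.α M.αα (⋃ i, (h i).U ∪ {(h i).a} ∪ {(h i).b}))).rel) g2 g3 rfl rfl] at q4
  -- step 4
  have two : ∀ i, ∀ d ∈ (h i).B,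
      (M.φ * rs M.α M.αα (⋃ i, (h i).U ∪ {(h i).a})).SameCycle d (h i).a ∨
      (M.φ * rs M.α M.αα (⋃ i, (h i).U ∪ {(h i).a})).SameCycle d (M.α (h i).a) := fun i d k => by
    rw [lz5_sc hd hφ w2 k, lz5_sc hd hφ w2 k, loc]
    exact lz5_two (lz5_one _) (((h i).tr.one k _).2 (ha i).1)
  have cell : ∀ i, ∀ d ∈ (h i).B,
      (M.φ * rs M.α M.αα (⋃ i, (h i).U ∪ {(h i).a} ∪ {(h i).b})).SameCycle d (h i).a := by
    intro i d k
    rw [← g3]
    have c1 := sc_rs t3 (u := (h i).b) (Or.inl ⟨i, rfl⟩)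
    have c2 := fun k' => (h i).cross ((lz5_sc hd hφ w2 (hb i).1 _).1 k')
    rcases two i d k with u | u
    · exact t3.right u
    refine (t3.right u).trans ?_
    rcases two i _ (hb i).1 with u1 | u1 <;> rcases two i _ (hb i).2 with u2 | u2
    · exact (c2 (u1.trans u2.symm)).elim
    · exact ((t3.right u2).symm.trans c1.symm).trans (t3.right u1)
    · exact ((t3.right u1).symm.trans c1).trans (t3.right u2)
    · exact (c2 (u1.trans u2.symm)).elim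
  have q5 := api_mov (G := (mp4 M).sw (rs M.α M.αα (⋃ i, (h i).U ∪ {(h i).a} ∪ {(h i).b})))
    (a' := fun i => (h i).a) (b' := fun i => (h i).a) (fun i => Nr.refl 10 _)
    (fun i => (P4.nr1 (cell i _ (ha i).2)).mono (by omega)) (hsz _ w3) fa fb
  refine ⟨_, _, ((mp4 M).sw (rs M.α M.αα (⋃ i, (h i).U ∪ {(h i).a} ∪ {(h i).b}))).rel,
    ((((q1.transQ q2.symm).transQ q3.symm).transQ q4).transQ q5).QQ ?_, rs_left_invol M.αα _,
    fun d k => ⟨(rs_left M.αα _ d).2 (lz5_off M.αα w3 k), ?_⟩, fun i d k e => ⟨fun hs => ?_,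
      fun he => (cell i d k).trans (cell i e he).symm⟩⟩
  · unfold Q
    nlinarith
  · exact congrArg M.φ (rs_neg (lz5_off M.αα w3 k))
  · exact (sc_mem (lz5_mem hd hφ w3 i) hs).1 k

end Pool.Agent.MC.LL
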