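import Pool.Agent.P.MP_2677b3_gt.LZD

open Equiv Function

noncomputable section

namespace Pool.Agent.MC.LL

theorem lz6_pre {D : Type} [Finite D] {σ : Perm D} {n : ℕ} (h : ∀ d, sz σ d ≤ n)
    (N : Set (Quotient (Perm.SameCycle.setoid σ))) :
    (Quotient.mk _ ⁻¹' N).ncard ≤ n * N.ncard := by
  refine (ncard_le_ncyc h _).trans (Nat.mul_le_mul_left _ ?_)
  exact Set.ncard_le_ncard (Set.image_preimage_subset _ _)

theorem lz6_step {D : Type} (σ : Perm D) (d : D) :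
    Quotient.mk (Perm.SameCycle.setoid σ) (σ d) = Quotient.mk _ d :=
  Quotient.sound (Perm.sameCycle_apply_left.2 (Perm.SameCycle.refl _ _))

/-- Expansion passes to the graph of the cycles. -/
theorem lz6_exp {D : Type} [Finite D] (α : Perm D) {σ : Perm D} {n : ℕ} (h : ∀ d, sz σ d ≤ n)
    (B : Set (Quotient (Perm.SameCycle.setoid σ)))
    (hB : (Quotient.mk _ ⁻¹' B).ncard ≤ n * cutN α (Quotient.mk _ ⁻¹' B)) :
    B.ncard ≤ (n * n + 1) * {w | w ∉ B ∧ ∃ v ∈ B, ∃ d, Quotient.mk _ d = v ∧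
      Quotient.mk _ (α d) = w}.ncard := by
  have h1 : B.ncard ≤ (Quotient.mk _ ⁻¹' B).ncard := by
    conv_lhs => rw [← Set.image_preimage_eq B Quotient.mk_surjective]
    exact Set.ncard_image_le
  have h2 := lz6_pre h {w | w ∉ B ∧ ∃ v ∈ B, ∃ d, Quotient.mk _ d = v ∧ Quotient.mk _ (α d) = w}
  have h3 : cutN α (Quotient.mk _ ⁻¹' B) ≤ (Quotient.mk _ ⁻¹'
      {w | w ∉ B ∧ ∃ v ∈ B, ∃ d, Quotient.mk _ d = v ∧ Quotient.mk _ (α d) = w}).ncard :=
    Set.ncard_le_ncard_of_injOn α (fun d hd => ⟨hd.2, _, hd.1, d, rfl, rfl⟩) α.injective.injOn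
  refine h1.trans (hB.trans ((Nat.mul_le_mul_left _ (h3.trans h2)).trans ?_))
  rw [← mul_assoc]
  exact Nat.mul_le_mul_right _ (Nat.le_succ _)

theorem lz6_num (n : ℕ) : n * (4 * (n * n + 1) * (n + 2) + 2) ≤ Q 8 n := by
  have h1 : n ≤ Q 1 n := le_trans (by omega) (le_Q n one_pos)
  have h2 : n * n + 1 ≤ Q 2 n := by unfold Q; nlinarith
  have h3 := Q_mul_le (Q_mul_le (two_pow_le_Q 2 n) h2) (le_Q n one_pos)
  exact Q_mul_le h1 ((Nat.add_le_add_right h3 2).trans (Q_add_two _ n))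

/-- After a switch along the chains, a cell is joined to the end of its chain. -/
theorem lz6_sw {D : Type} [Finite D] {α σ : Perm D} (hα : ∀ d, α (α d) = d)
    (P : Set (Quotient (Perm.SameCycle.setoid σ)))
    (nx en : Quotient (Perm.SameCycle.setoid σ) → Quotient (Perm.SameCycle.setoid σ))
    (rk : Quotient (Perm.SameCycle.setoid σ) → ℕ)
    (h1 : ∀ v ∈ P, (∃ d, Quotient.mk _ d = v ∧ Quotient.mk _ (α d) = nx v) ∧ rk (nx v) < rk v ∧
      en (nx v) = en v) (h2 : ∀ v, v ∉ P → en v = v) :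
    ∃ β : Perm D, Tree (β⁻¹ * α) β ∧ Tree β σ ∧ (β⁻¹ * α) * (β⁻¹ * α) = 1 ∧
      (∀ d, en (Quotient.mk _ ((σ * β) d)) = en (Quotient.mk _ d)) ∧
      ∀ d e, Quotient.mk _ e = en (Quotient.mk _ d) → (σ * β).SameCycle d e := by
  have h3 : ∀ v, ∃ d, Quotient.mk _ d = v ∧ (v ∈ P → Quotient.mk _ (α d) = nx v) := fun v => by
    by_cases hv : v ∈ P
    · obtain ⟨d, e, e'⟩ := (h1 v hv).1
      exact ⟨d, e, fun _ => e'⟩
    · exact ⟨v.out, v.out_eq, fun c => absurd c hv⟩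
  choose dv e1 e2 using h3
  obtain ⟨t1, t2⟩ := sw_rs hα σ (dv '' P) (fun d => rk (Quotient.mk _ d))
    (fun d => congrArg rk (lz6_step σ d))
    (by
      rintro _ ⟨v, hv, rfl⟩
      rw [e1, e2 v hv]
      exact (h1 v hv).2.1)
    (by
      rintro _ ⟨v, -, rfl⟩ _ ⟨v', -, rfl⟩ hs
      rw [← e1 v, Quotient.sound hs, e1])
  refine ⟨_, t1, t2, Equiv.ext (rs_left_invol hα _), lab_rs hα (fun d => en (Quotient.mk _ d))
    (fun d => congrArg en (lz6_step σ d)) ?_, fun d e he => ?_⟩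
  · rintro _ ⟨v, hv, rfl⟩
    rw [e1, e2 v hv]
    exact (h1 v hv).2.2
  · induction hn : rk (Quotient.mk _ d) using Nat.strong_induction_on generalizing d with
    | _ m ih =>
      by_cases hv : Quotient.mk _ d ∈ P
      · refine ((t2.right (Quotient.exact (e1 _).symm)).trans
          (sc_rs t2 (Or.inl ⟨_, hv, rfl⟩))).trans (ih _ ?_ _ ?_ rfl)
        · rw [e2 _ hv, ← hn]
          exact (h1 _ hv).2.1
        · rw [e2 _ hv, (h1 _ hv).2.2, he]
      · exact t2.right (Quotient.exact (he.trans (h2 _ hv)).symm)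

/-- Tokens move along short disjoint chains from the handles to large cells. -/
theorem link_move : ∃ κ : ℕ, ∀ (G : P4) (H : Type) [Finite H] (a : H → G.D) (n : ℕ),
    (∀ d, G.x0 (G.x0 d) = d) → G.Sz n → Nat.card G.D ≤ 2 ^ n →
    (∀ i j, G.x1.SameCycle (a i) (a j) → i = j) →
    (∀ B : Set G.D, (∀ d, G.x1 d ∈ B ↔ d ∈ B) → (∀ i, a i ∉ B) → B.ncard ≤ n * cutN G.x0 B) →
    ∀ (C : Type) [Finite C] (S : C → Set G.D), (∀ c d, G.x1 d ∈ S c ↔ d ∈ S c) →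
      (∀ c i, a i ∉ S c) → (∀ c, 8 * (n * n + 1) + 2 ≤ ncyc G.x1 (S c)) →
      (∀ c c', c ≠ c' → Disjoint (S c) (S c')) →
      ∃ (hc : C → H) (st : C → G.D), Injective hc ∧ (∀ c, st c ∈ S c) ∧
        ∀ (Tok : Type) [Finite Tok] (hd : Tok → H) (T : ℕ) (pos' : Tok → G.D)
          (tag tag' : Tok → Fin 5), Ft T hd →
          (∀ τ, pos' τ = a (hd τ) ∨ ∃ c, hd τ = hc c ∧ pos' τ = st c) →
          TEq (Q κ (n + T)) ⟨G, a ∘ hd, tag⟩ ⟨G, pos', tag'⟩ := by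
  refine ⟨310 * kA + 310 * kA + 310 * kA,
    fun G H _ a n hα hG hcard ha hexp C _ S hS hSa hSn hSd => ?_⟩
  obtain ⟨-, s1, s2, s3⟩ := P4.sz_iff.1 hG
  obtain ⟨st, nx, rk, P, en, k1, k2, -, -, k3, h4, h2, k5⟩ := link
    (fun v w => ∃ d, Quotient.mk (Perm.SameCycle.setoid G.x1) d = v ∧ Quotient.mk _ (G.x0 d) = w)
    (Set.range fun i => Quotient.mk _ (a i)) (h := n * n + 1) (Nat.succ_pos _)
    (fun B hB => lz6_exp G.x0 s1 B (hexp _ (fun d => by
      rw [Set.mem_preimage, Set.mem_preimage, lz6_step])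
      fun i hi => Set.disjoint_left.1 hB hi ⟨i, rfl⟩))
    (fun c => Quotient.mk _ '' S c)
    (fun c c' hc => Set.disjoint_left.2 fun _ ⟨d, hd, e⟩ ⟨d', hd', e'⟩ =>
      Set.disjoint_left.1 (hSd c c' hc)
        ((sc_mem (hS c) (Quotient.exact (e.trans e'.symm))).1 hd) hd')
    (fun c => Set.disjoint_left.2 fun _ ⟨d, hd, e⟩ ⟨i, hi⟩ =>
      hSa c i ((sc_mem (hS c) (Quotient.exact (e.trans hi.symm))).1 hd))
    (fun c => le_trans (by omega) (hSn c))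
  have h1 := fun v hv => (⟨(k3 v hv).1, (k3 v hv).2.1, (k3 v hv).2.2.1⟩ : _ ∧ _ ∧ _)
  have h3 := fun c => (⟨k1 c, (k3 _ (k2 c)).2.2.2.1⟩ : _ ∧ _)
  have h5 : ∀ w, {v | en v = w}.ncard ≤ 4 * (n * n + 1) * (n + 2) + 2 := fun w => by
    have l1 : Nat.log 2 (Nat.card (Quotient (Perm.SameCycle.setoid G.x1))) ≤ n := by
      refine (Nat.log_mono_right
        ((Nat.card_le_card_of_surjective _ Quotient.mk_surjective).trans hcard)).trans ?_
      rw [Nat.log_pow one_lt_two]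
    have l2 := Nat.mul_le_mul_left (2 * (n * n + 1)) (Nat.succ_le_succ l1)
    refine (k5 w).trans ?_
    simp only [Nat.succ_eq_add_one] at l2
    nlinarith
  obtain ⟨β, t1, t2, t3, t4, t5⟩ := lz6_sw hα P nx en rk h1 h2
  choose hc hhc using fun c => (h3 c).2
  choose sd hsd hsd' using fun c => (h3 c).1
  refine ⟨hc, sd, fun c c' e => h4 ((hhc c).symm.trans (e ▸ hhc c')), hsd,
    fun Tok _ hd T pos' tag tag' hT hp => ?_⟩
  have q1 : n + T + 2 ≤ Q 8 (n + T) := le_Q _ (by omega)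
  have q2 : Q 8 (n + T) ≤ Q 308 (n + T) := Q_mono (by omega) le_rfl
  have g1 : (G.sw β).Sz (Q 8 (n + T)) := P4.sz_iff.2
    ⟨fun d => (sz_invol t3 d).trans (by omega), fun d =>
      (sz_le_lab _ t4 d).trans ((lz6_pre s1 {v | en v = en (Quotient.mk _ d)}).trans
        ((Nat.mul_le_mul_left _ (h5 _)).trans
          ((lz6_num n).trans (Q_mono le_rfl (Nat.le_add_right _ _))))),
      fun d => (s2 d).trans (by omega), fun d => (s3 d).trans (by omega)⟩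
  have f1 : Ft (Q 8 (n + T)) (a ∘ hd) :=
    (hT.map (ι := a) fun i j e => ha i j (by rw [e])).mono (by omega)
  have hn : ∀ τ, Nr (G.sw β).y 10 ((a ∘ hd) τ) (pos' τ) := fun τ => by
    rcases hp τ with e | ⟨c, e, e'⟩
    · rw [e]
      exact Nr.refl _ _
    · rw [e', Function.comp_apply, e]
      exact (P4.nr1 (G := G.sw β) (t5 _ _ ((hhc c).trans (congrArg en (hsd' c).symm))).symm).mono
        (by omega)
  have f2 : Ft (Q 308 (n + T)) pos' :=
    (ft_mov hn g1 f1).mono ((Q_mul_le (k := 8) le_rfl (Q_Q (k := 30) (k' := 8) le_rfl)).trans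
      (Q_mono (by omega) le_rfl))
  have g0 : G.Sz (Q 308 (n + T)) := hG.mono (by omega)
  have q3 : Q kA (Q 308 (n + T)) ≤ Q (310 * kA) (n + T) := Q_Q le_rfl
  have e1 : ∀ (p : Tok → G.D) (t : Tok → Fin 5), Ft (Q 308 (n + T)) p →
      TEq (Q (310 * kA) (n + T)) ⟨G, p, t⟩ ⟨G.sw β, p, t⟩ := fun p t hf I _ ι hι =>
    (api_sw β t1 t2 g0 (g1.mono q2) (hf.comp hι) (hf.comp hι)).mono q3
  exact ((e1 _ tag (f1.mono q2)).transQ ((teq_mov ⟨G.sw β, a ∘ hd, tag⟩ (g1.mono q2) (f1.mono q2)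
    pos' tag' hn).mono q3)).transQ (e1 _ tag' f2).symm

end Pool.Agent.MC.LL
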