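import Pool.Agent.P.MP_2677b3_gt.LZ6
import Pool.Agent.P.MP_2677b3_gt.LW

open Equiv Function

noncomputable section

namespace Pool.Agent.MC.LL

theorem lz7_card {X : Type} [Finite X] {s : Set X} {M : ℕ} (f : Fin M → X) (hf : Injective f)
    (h : ∀ k, f k ∈ s) : M ≤ s.ncard := by
  have := Set.ncard_le_ncard_of_injOn (s := Set.univ) (t := s) f (fun k _ => h k) hf.injOn
  rwa [Set.ncard_univ, Nat.card_eq_fintype_card, Fintype.card_fin] at this

theorem lz7_fst (H : Type) (T : ℕ) : Ft T (Prod.fst : H × Fin T → H) := fun h => by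
  have := Set.ncard_le_ncard_of_injOn (s := {τ : H × Fin T | τ.1 = h}) (t := Set.univ) Prod.snd
    (fun _ _ => trivial) fun τ hτ τ' hτ' e => Prod.ext (hτ.trans hτ'.symm) e
  rwa [Set.ncard_univ, Nat.card_eq_fintype_card, Fintype.card_fin] at this

theorem lz7_ft {I H D : Type} [Finite I] {T : ℕ} {hd : I → H} {p : I → D} (h : Ft T hd)
    (hp : ∀ τ τ', p τ = p τ' → hd τ = hd τ') : Ft T p := fun d => by
  rcases Set.eq_empty_or_nonempty {i | p i = d} with e | ⟨τ, hτ⟩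
  · rw [e, Set.ncard_empty]
    exact Nat.zero_le _
  · exact (Set.ncard_le_ncard fun τ' hτ' => hp τ' τ (Eq.trans hτ' (Eq.symm hτ))).trans (h (hd τ))

theorem lz7_Q (n : ℕ) : n * ((n + 1) * (8 * (n * n + 1) + 2)) ≤ Q 7 n := by
  have h1 : n ≤ Q 1 n := by have := le_Q (k := 1) n one_pos; omega
  have h2 : n + 1 ≤ Q 1 n := by have := le_Q (k := 1) n one_pos; omega
  have h3 : n * n + 2 ≤ Q 2 n := by unfold Q; nlinarith
  have h4 : 8 * (n * n + 2) ≤ Q 5 n := Q_mul_le (two_pow_le_Q 3 n) h3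
  exact Q_mul_le h1 (Q_mul_le h2 (le_trans (by omega) h4))

theorem lz7_dem {D V : Type} [Finite D] (top : D → V) (μ : ℕ) (v : V) :
    {x : Fin 5 × D × Fin μ | top x.2.1 = v}.ncard = 5 * ({d | top d = v}.ncard * μ) := by
  have e : {x : Fin 5 × D × Fin μ | top x.2.1 = v} =
      (Set.univ : Set (Fin 5)) ×ˢ ({d | top d = v} ×ˢ (Set.univ : Set (Fin μ))) := by
    ext x
    simp
  rw [e, Set.ncard_prod, Set.ncard_prod, Set.ncard_univ, Set.ncard_univ]
  simp

/-- Every point gets `μ` tokens of every tag. -/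
theorem spread : ∃ κ : ℕ, ∀ (G : P4) (H : Type) [Finite H] (a : H → G.D) (n : ℕ),
    (∀ d, G.x0 (G.x0 d) = d) → G.x2 = 1 → G.Sz n → Nat.card G.D ≤ 2 ^ n →
    (∀ i j, G.x1.SameCycle (a i) (a j) → i = j) →
    (∀ B : Set G.D, (∀ d, G.x1 d ∈ B ↔ d ∈ B) → (∀ i, a i ∉ B) → B.ncard ≤ n * cutN G.x0 B) →
    ∀ μ T : ℕ, 10 * μ * Q κ n ≤ T →
      ∃ S : TS (H × Fin T), TEq (Q κ (n + T)) ⟨G, a ∘ Prod.fst, fun _ => 0⟩ S ∧ S.G.x2 = 1 ∧
        S.G.Sz (Q κ n) ∧ Ft (Q κ (n + T)) S.pos ∧ (∀ c d, μ ≤ S.Pt c d) ∧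
        Nat.card S.G.D = Nat.card G.D := by
  classical
  obtain ⟨κ, hκ⟩ := link_move
  refine ⟨κ + 9 * kA + 9 * kA + 271, fun G H _ a n h0 h2 hs hc ha hexp μ T hT => ?_⟩
  obtain ⟨U, rk, top, c1, c2, c3, c4, -, c6, -, c8, c9, c10, -, c12⟩ :=
    clus_perm G.x1 G.x0 {d | ∃ i, G.x1.SameCycle d (a i)}
      (fun d => exists_congr fun i => Perm.sameCycle_apply_left)
      (t := 8 * (n * n + 1) + 2) (by omega) (hs 1)
  have hcl : ∀ v, {e | top e = v}.ncard ≤ Q 7 n := fun v => (c12 v).trans (lz7_Q n)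
  have hna : ∀ (c : {y // top y = y ∧ ∀ i, ¬ G.x1.SameCycle y (a i)}) i, top (a i) ≠ c.1 :=
    fun c i e => c.2.2 i (e ▸ (c8 (a i) ⟨i, Perm.SameCycle.refl _ _⟩).symm)
  obtain ⟨hd, st, hi, hst, hm⟩ := hκ G H a n h0 hs hc ha hexp
    {y // top y = y ∧ ∀ i, ¬ G.x1.SameCycle y (a i)} (fun c => {d | top d = c.1})
    (fun c d => by simp only [Set.mem_ofPred_eq, c2]) hna
    (fun c => by
      have h := c10 c.1
      rw [c.2.1] at h
      rcases h with ⟨i, h⟩ | h | h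
      · exact (c.2.2 i h).elim
      · exact h
      · have h1 := hexp {d | top d = c.1} (fun d => by simp only [Set.mem_ofPred_eq, c2]) (hna c)
        have h3 : {d ∈ {d | top d = c.1} | G.x0 d ∉ {d | top d = c.1}} = ∅ :=
          Set.eq_empty_of_forall_notMem fun d hd => hd.2 ((h d).2 hd.1)
        rw [cutN, h3, Set.ncard_empty, mul_zero] at h1
        exact absurd h1
          ((Set.ncard_pos (s := {d | top d = c.1}) (Set.toFinite _)).2 ⟨c.1, c.2.1⟩).not_ge)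
    fun c c' hcc => Set.disjoint_left.2 fun d h h' => hcc (Subtype.ext (Eq.trans (Eq.symm h) h'))
  obtain ⟨M, hM⟩ : ∃ M, M = 5 * (Q 7 n * μ) := ⟨_, rfl⟩
  have hMT : 2 * M ≤ T := by
    have := Nat.mul_le_mul_left (10 * μ) (Q_mono (k := 7) (k' := κ + 9 * kA + 9 * kA + 271)
      (n := n) (by omega) le_rfl)
    nlinarith
  obtain ⟨p, hp⟩ : ∃ p : H × Fin T → G.D,
      ∀ τ, p τ = if τ.2.1 < M then extend hd st a τ.1 else a τ.1 := ⟨_, fun _ => rfl⟩
  have hp1 : ∀ τ, p τ = a τ.1 ∨ ∃ c, τ.1 = hd c ∧ p τ = st c := fun τ => by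
    rw [hp]
    split_ifs
    · by_cases h : ∃ c, hd c = τ.1
      · obtain ⟨c, e⟩ := h
        exact Or.inr ⟨c, e.symm, by rw [← e, hi.extend_apply]⟩
      · exact Or.inl (extend_apply' _ _ _ h)
    · exact Or.inl rfl
  have hf : Ft T p := lz7_ft (lz7_fst H T) fun τ τ' e => by
    rcases hp1 τ with h | ⟨c, h, h'⟩ <;> rcases hp1 τ' with k | ⟨c', k, k'⟩
    · exact ha _ _ (by rw [← h, ← k, e])
    · exact (hna c' τ.1 (by rw [← h, e, k']; exact hst c')).elim
    · exact (hna c τ'.1 (by rw [← k, ← e, h']; exact hst c)).elim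
    · have e' : c = c' := Subtype.ext ((Eq.symm (hst c)).trans (by
        rw [← h', e, k']
        exact hst c'))
      rw [h, k, e']
  have hown : ∀ v, {x : Fin 5 × G.D × Fin μ | top x.2.1 = v}.ncard ≤
      {τ | top (p τ) = v}.ncard := fun v => by
    rw [lz7_dem]
    rcases Set.eq_empty_or_nonempty {d | top d = v} with e | ⟨d, rfl⟩
    · simp [e]
    refine le_trans (b := M) (hM ▸ Nat.mul_le_mul_left 5 (Nat.mul_le_mul_right μ (hcl _))) ?_
    by_cases h : ∃ i, G.x1.SameCycle (top d) (a i)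
    · obtain ⟨i, h⟩ := h
      refine lz7_card (fun k => (i, ⟨M + k.1, by omega⟩)) (fun k k' e => Fin.ext ?_) fun k => ?_
      · have := congrArg (fun τ : H × Fin T => τ.2.1) e
        exact Nat.add_left_cancel this
      · change top (p _) = _
        rw [hp, if_neg (by simp), ← sc_lab top c2 h, c6]
    · refine lz7_card (fun k => (hd ⟨top d, c6 d, not_exists.1 h⟩, ⟨k.1, by omega⟩))
        (fun k k' e => Fin.ext (congrArg (fun τ : H × Fin T => τ.2.1) e)) fun k => ?_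
      change top (p _) = _
      rw [hp, if_pos k.2, hi.extend_apply]
      exact hst _
  obtain ⟨ι, hι, hι'⟩ := pay (fun x : Fin 5 × G.D × Fin μ => top x.2.1) (fun τ => top (p τ)) hown
  obtain ⟨t1, t2⟩ := sw_rs h0 G.x1 U rk c1 (fun u hu => (c3 u hu).1) c4
  have hone : ∀ d, (G.x1 * rs G.x0 h0 U).SameCycle d (top d) := fun d => by
    have h := c9 d
    generalize top d = e at h
    induction h with
    | refl => exact Perm.SameCycle.refl _ _
    | tail _ h ih =>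
      rcases h with h | ⟨h, rfl⟩
      · exact ih.trans (t2.right h)
      · exact ih.trans (sc_rs t2 (Or.inl h))
  have hn7 : n + 2 ≤ Q 7 n := le_Q n (by omega)
  have hs' : (G.sw (rs G.x0 h0 U)).Sz (Q 7 n) := P4.sz_iff.2
    ⟨fun d => (sz_invol (Equiv.ext (rs_left_invol h0 U)) d).trans (by omega),
      fun d => (sz_le_lab top (lab_rs h0 top c2 fun u hu => (c3 u hu).2.1) d).trans (hcl _),
      fun d => (hs 2 d).trans (by omega), fun d => (hs 3 d).trans (by omega)⟩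
  have hq : Q 7 n ≤ Q 7 (n + T) := Q_mono le_rfl (by omega)
  have hT7 : n + T + 2 ≤ Q 7 (n + T) := le_Q _ (by omega)
  have hf' : Ft (Q 7 (n + T)) p := hf.mono (by omega)
  have hnr : ∀ τ, Nr (G.sw (rs G.x0 h0 U)).y 10 (p τ) (extend ι (fun x => x.2.1) p τ) := fun τ => by
    by_cases h : ∃ x, ι x = τ
    · obtain ⟨x, rfl⟩ := h
      rw [hι.extend_apply]
      refine (P4.nr1 (G := G.sw (rs G.x0 h0 U)) ((hone _).trans ?_)).mono (by omega)
      rw [hι' x]
      exact (hone _).symm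
    · rw [extend_apply' _ _ _ h]
      exact Nr.refl _ _
  have e1 := hm (H × Fin T) Prod.fst T p (fun _ => 0) (fun _ => 0) (lz7_fst H T) hp1
  have e2 := teq_of (S := ⟨G, p, fun _ => 0⟩) (G' := G.sw (rs G.x0 h0 U)) id (fun _ => 0) hf'
    fun I _ b hb => api_sw (rs G.x0 h0 U) t1 t2 (hs.mono (by omega)) (hs'.mono hq) hb hb
  have e3 := teq_mov ⟨G.sw (rs G.x0 h0 U), p, fun _ => 0⟩ (hs'.mono hq) hf' _
    (extend ι (fun x => x.1) fun _ => 0) hnr
  refine ⟨_, ((e1.transQ (e2.mono (Q_Q le_rfl))).transQ (e3.mono (Q_Q le_rfl))).mono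
    (Q_mono (by omega) le_rfl), h2, hs'.mono (Q_mono (by omega) le_rfl),
    (ft_mov hnr (hs'.mono hq) hf).mono ?_, fun c d => ?_, rfl⟩
  · have h1 : T ≤ Q 1 (n + T) := by have := le_Q (k := 1) (n + T) one_pos; omega
    exact (Q_mul_le h1 (Q_Q le_rfl)).trans (Q_mono (by omega) le_rfl)
  · refine lz7_card (fun k => ι (c, d, k)) (fun k k' e => ?_) fun k =>
      ⟨hι.extend_apply (fun x => x.1) (fun _ => 0) (c, d, k),
        hι.extend_apply (fun x => x.2.1) p (c, d, k)⟩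
    exact congrArg (fun x : Fin 5 × G.D × Fin μ => x.2.2) (hι e)

end Pool.Agent.MC.LL
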