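import Pool.Agent.P.MP_2677b3_gt.LZ4
import Pool.Agent.P.MP_2677b3_gt.LZ5
import Pool.Agent.P.MP_2677b3_gt.LZ7

open Equiv Function

noncomputable section

namespace Pool.Agent.MC.LL

theorem lz8_n (Δ c l : ℕ) : Δ + c * (l + 1) + c + l + 3 ≤ Q (Δ + 2 * c + 4 + 1) l := by
  rw [← Q_mul]
  have h1 := two_pow_le_Q (Δ + 2 * c + 4) l
  have h2 : Δ + 2 * c + 4 < 2 ^ (Δ + 2 * c + 4) := Nat.lt_two_pow_self
  have h3 := le_Q (k := 1) l one_pos
  have h4 := Nat.mul_le_mul (h2.le.trans h1) h3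
  nlinarith [Nat.zero_le (Δ * l), Nat.zero_le (c * l)]

theorem step0 (Δ K : ℕ) : ∃ κ : ℕ, ∀ (M : CMap) (l : ℕ), YM M Δ K → Nat.card M.D ≤ 2 ^ l →
    ∀ μ T : ℕ, T = 10 * μ * Q κ l →
      ∃ (H : Type) (_ : Finite H) (G : P4) (a : H → G.D) (S : TS (H × Fin T)),
        Fw (Q κ l) M.gd (G.gd a a) ∧ TEq (Q κ (l + T)) ⟨G, a ∘ Prod.fst, fun _ => 0⟩ S ∧
        S.G.Conn ∧ S.G.x2 = 1 ∧ S.G.Sz (Q κ l) ∧ Ft (Q κ (l + T)) S.pos ∧
        (∀ c d, μ ≤ S.Pt c d) ∧ Nat.card S.G.D = Nat.card M.D := by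
  obtain ⟨c, hc⟩ := iso Δ K
  obtain ⟨κ1, h1⟩ := start
  obtain ⟨κ2, h2⟩ := extract
  obtain ⟨κ3, h3⟩ := spread
  obtain ⟨k, hk⟩ : ∃ k, k = Δ + 2 * c + 4 + 1 := ⟨_, rfl⟩
  refine ⟨(k + 3) * (κ1 + κ2 + κ3), fun M l hM hl μ T hT => ?_⟩
  obtain ⟨n, hn⟩ : ∃ n, n = Δ + c * (l + 1) + c + l + 3 := ⟨_, rfl⟩
  have n1 : n ≤ Q k l := by rw [hn, hk]; exact lz8_n Δ c l
  have n2 : n + T ≤ Q (k + 1) (l + T) :=
    Q_add (n1.trans (Q_mono le_rfl (Nat.le_add_right _ _)))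
      (by have := le_Q (k := k) (l + T) (by omega); omega)
  have q1 : Q κ3 n ≤ Q ((k + 3) * (κ1 + κ2 + κ3)) l :=
    (Q_Q n1).trans (Q_mono (Nat.mul_le_mul (by omega) (by omega)) le_rfl)
  have q2 : Q κ3 (n + T) ≤ Q ((k + 3) * (κ1 + κ2 + κ3)) (l + T) :=
    (Q_Q n2).trans (Q_mono (Nat.mul_le_mul (by omega) (by omega)) le_rfl)
  have q3 : Q κ1 Δ * Q κ2 (Δ + c * (l + 1)) ≤ Q ((k + 3) * (κ1 + κ2 + κ3)) l := by
    refine (Q_mul_le (Q_mono (n' := n) le_rfl (by omega))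
      (Q_mono (n' := n) le_rfl (by omega))).trans ?_
    exact (Q_Q n1).trans (Q_mono (Nat.mul_le_mul (by omega) (by omega)) le_rfl)
  obtain ⟨X, -, x1, x2, x3⟩ := maxfam (ι := Hdl M.α M.φ M.αα (c * (l + 1))) (fun H => H.B)
    Set.univ (fun H _ => ⟨H.a, H.ha.1⟩)
  have : Finite X := x1
  have dj : ∀ i j : X, i ≠ j → Disjoint i.1.B j.1.B := fun i j hij =>
    x2 _ i.2 _ j.2 fun h' => hij (Subtype.ext h')
  obtain ⟨α', φ', rel, e1, e2, e3, e4⟩ := h2 M Δ K _ hM X Subtype.val dj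
  have iS : ∀ d, (∀ i : X, M.φ d ∉ i.1.B) ↔ ∀ i : X, d ∉ i.1.B := fun d =>
    forall_congr' fun i => not_congr (i.1.tr.inv d)
  have hsz : (⟨M.D, inferInstance, α', φ', 1, M.ψ⁻¹, rel⟩ : P4).Sz n := by
    refine P4.sz_iff.2 ⟨fun d => ?_, fun d => ?_, fun d => ?_, fun d => ?_⟩
    · exact (sz_invol (Equiv.ext e2) d).trans (by omega)
    · by_cases hd : ∀ i : X, d ∉ i.1.B
      · have h4 : sz φ' d = sz M.φ d := by
          unfold sz
          congr 1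
          ext e
          exact (sc_congr {d | ∀ i : X, d ∉ i.1.B} iS (fun x hx => (e3 x hx).2.symm) hd e).symm
        exact h4.le.trans ((hM.deg d).trans (by omega))
      · push Not at hd
        obtain ⟨i, hi⟩ := hd
        have h4 : sz φ' d = i.1.B.ncard := by
          unfold sz
          congr 1
          ext e
          exact e4 i d hi e
        exact h4.le.trans (i.1.card.trans (by omega))
    · exact (sz_fix (σ := 1) rfl).le.trans (by omega)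
    · exact ((P4.sz_iff.1 (mp4_sz hM)).2.2.2 d).trans (by omega)
  obtain ⟨S, s1, s2, s3, s4, s5, s6⟩ := h3 ⟨M.D, inferInstance, α', φ', 1, M.ψ⁻¹, rel⟩ X
    (fun i => i.1.a) n e2 rfl hsz (hl.trans (Nat.pow_le_pow_right (by omega) (by omega)))
    (fun i j hs => by
      by_contra hij
      exact Set.disjoint_left.1 (dj i j hij) ((e4 i _ i.1.ha.1 _).1 hs) j.1.ha.1)
    (fun B iB hB => by
      have b1 : ∀ d ∈ B, ∀ i : X, d ∉ i.1.B := fun d hd i hi =>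
        hB i ((sc_mem iB ((e4 i d hi _).2 i.1.ha.1)).1 hd)
      have b2 : cutN α' B = cutN M.α B := by
        unfold cutN
        congr 1
        ext d
        exact and_congr_right fun hd => by rw [(e3 d (b1 d hd)).1]
      have b3 := hc M l hM hl B (fun d => ⟨fun hd => ?_, fun hd => ?_⟩) (fun H hH => ?_)
      · exact b3.trans (Nat.mul_le_mul (by omega) b2.ge)
      · rw [← (e3 d ((iS d).1 (b1 _ hd))).2] at hd
        exact (iB d).1 hd
      · rw [← (e3 d (b1 d hd)).2]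
        exact (iB d).2 hd
      · obtain ⟨j, hj, d, d1, d2⟩ := x3 H trivial
        exact b1 d (hH d1) ⟨j, hj⟩ d2)
    μ T (hT ▸ Nat.mul_le_mul_left _ q1)
  exact ⟨X, this, _, _, S, ((h1 M Δ K hM).trans e1.fw).mono q3, s1.mono q2,
    s1.conn (conn_of_qe e1 (mp4_conn hM)), s2, s3.mono q1, s4.mono q2, s5, s6⟩

end Pool.Agent.MC.LL
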