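import Pool.Agent.P.MP_2677b3_gt.Basic
import Pool.Agent.P.MP_2677b3_gt.GEO
import Pool.Agent.P.MP_2677b3_gt.FIN
import Pool.Agent.P.MP_2677b3_gt.CUT
import Pool.Agent.P.MP_2677b3_gt.BUILD

open UpperHalfPlane

namespace Pool.Agent.MC

theorem main (GX : Subgroup (Equiv.Perm ℍ)) (εX : ℝ) (hεX : 0 < εX) (hX : Fuchs GX εX)
    (hg : Nonempty (GX ≃* Pi2)) (ε r L : ℝ) (hε : 0 < ε) (hr : 0 < r) :
    ∃ K : ℝ, ∀ GY : Subgroup (Equiv.Perm ℍ), Fuchs GY ε → DimOne GY r L →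
      ∃ Λ : Subgroup (Equiv.Perm ℍ), Λ ≤ GX ∧ Λ.relIndex GX ≠ 0 ∧ ∃ F : ℍ ≃ₜ ℍ, IsQC K F ∧
        (∀ γ ∈ GY, ∃ g ∈ Λ, ∀ z, F (γ z) = g (F z)) ∧
        (∀ g ∈ Λ, ∃ γ ∈ GY, ∀ z, F (γ z) = g (F z)) := by
  obtain ⟨e⟩ := hg
  obtain ⟨n, R, N, K₁, hgeo⟩ := geo_interface ε r L hε hr
  obtain ⟨n₀, hbuild⟩ := build_interface
  obtain ⟨n', hcut⟩ := cut_interface n₀ n R N
  obtain ⟨K₂, hgg⟩ := nf_gg n'
  obtain ⟨K₃, hb⟩ := hbuild (n' + 4)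
  obtain ⟨K, hfin⟩ := fin_interface GX εX hεX hX e K₁ ((K₂ + K₃) * (K₂ + K₃) + (K₂ + K₃))
  refine ⟨K, fun GY hY hD => ?_⟩
  obtain ⟨M, g, hM, hfull⟩ := hgeo GY hY hD
  obtain ⟨H, G, ⟨lab⟩, hc, hbig⟩ := hcut M hM
  obtain ⟨T, hT⟩ := hb G hc hbig (fun x => by
    classical
    have h1 := lab.euler x
    have h2 := lab.size x
    unfold CMap.Euler at h1
    have h3 := Finset.card_filter_le (Finset.univ.filter fun d => lab.reg d = x) (fun d => ¬ H d)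
    constructor <;> omega)
  obtain ⟨x, -⟩ := hM.nonab
  exact hfin GY hY.mob M.gd g ⟨x⟩ hfull T ((hgg M H G lab).trans hT)

end Pool.Agent.MC
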