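import Pool.Agent.P.MP_2677b3_gt.NfLab0

namespace Pool.Agent.MC.NF.Z

section aux

variable {M : CMap} {H : M.D → Prop} {G : GS} {n : ℕ}

theorem nfcuff_orbL_succ {D : Type} (f : D → D) (d : D) (k : ℕ) :
    orbL f d (k + 1) = orbL f d k ++ [f^[k] d] := by
  simp [orbL, List.range_succ]

theorem nfcuff_orbL_cons {D : Type} (f : D → D) (d : D) (k : ℕ) :
    orbL f d (k + 1) = d :: orbL f (f d) k := by
  unfold orbL
  rw [List.range_succ_eq_map, List.map_cons, List.map_map]
  rfl

theorem nfcuff_mem_orbL {D : Type} {f : D → D} {d d' : D} {k : ℕ} :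
    d' ∈ orbL f d k ↔ ∃ i < k, f^[i] d = d' := by
  unfold orbL
  rw [List.mem_map]
  simp only [List.mem_range]

theorem nfcuff_rev_rev (A : Gd) (p : List A.E) : A.rev (A.rev p) = p := by
  induction p with
  | nil => rfl
  | cons e p ih => simp [ih, A.inv_inv]

theorem nfcuff_H_iter (lab : Lab0 M H G n) {d : M.D} (h : H d) (i : ℕ) :
    H ((M.bd H)^[i] d) ∧ lab.cuf ((M.bd H)^[i] d) = lab.cuf d := by
  induction i with
  | zero => exact ⟨h, rfl⟩
  | succ i ih =>
    rw [Function.iterate_succ_apply']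
    exact ⟨(bd_H lab.Hα ih.1).1, (cuf_bd lab ih.1).trans ih.2⟩

theorem nfcuff_back (lab : Lab0 M H G n) {d : M.D} (h : H d) (j : ℕ) :
    (M.bd H)^[j] (M.α ((M.bd H)^[j] d)) = M.α d := by
  induction j with
  | zero => rfl
  | succ j ih =>
    rw [Function.iterate_succ_apply, Function.iterate_succ_apply',
      lab.simple _ (nfcuff_H_iter lab h j).1, ih]

theorem nfcuff_rev_orbL (lab : Lab0 M H G n) {d : M.D} (h : H d) (k : ℕ) :
    M.gd.rev (orbL (M.bd H) d (k + 1)) = orbL (M.bd H) (M.α ((M.bd H)^[k] d)) (k + 1) := by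
  induction k with
  | zero => rfl
  | succ k ih =>
    have e := Gd.rev_append (A := M.gd) (orbL (M.bd H) d (k + 1)) [(M.bd H)^[k + 1] d]
    have e0 := congrArg M.gd.rev (nfcuff_orbL_succ (M.bd H) d (k + 1))
    refine e0.trans (e.trans ?_)
    rw [ih, nfcuff_orbL_cons _ (M.α ((M.bd H)^[k + 1] d)) (k + 1), Function.iterate_succ_apply',
      lab.simple _ (nfcuff_H_iter lab h k).1]
    rfl

/-- The last dart of the boundary cycle that starts at d. -/
noncomputable def nfcuffLst (M : CMap) (H : M.D → Prop) (d : M.D) : M.D :=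
  (M.bd H)^[Function.minimalPeriod (M.bd H) d - 1] d

theorem nfcuff_bd_lst (lab : Lab0 M H G n) {d : M.D} (h : H d) :
    M.bd H (nfcuffLst M H d) = d := by
  have hp := period_pos lab h
  have e := Function.iterate_minimalPeriod (f := M.bd H) (x := d)
  unfold nfcuffLst
  rw [← Function.iterate_succ_apply' (M.bd H), Nat.succ_eq_add_one, Nat.sub_add_cancel hp, e]

theorem nfcuff_lst_H (lab : Lab0 M H G n) {d : M.D} (h : H d) :
    H (nfcuffLst M H d) ∧ lab.cuf (nfcuffLst M H d) = lab.cuf d := nfcuff_H_iter lab h _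

theorem nfcuff_cyc_snoc (lab : Lab0 M H G n) {d : M.D} (h : H d) :
    cyc M H d = orbL (M.bd H) d (Function.minimalPeriod (M.bd H) d - 1) ++ [nfcuffLst M H d] := by
  have hp := period_pos lab h
  unfold cyc nfcuffLst
  rw [← nfcuff_orbL_succ, Nat.sub_add_cancel hp]

theorem nfcuff_rev_cyc (lab : Lab0 M H G n) {d : M.D} (h : H d) :
    M.gd.rev (cyc M H d) = cyc M H (M.α (nfcuffLst M H d)) := by
  have hp := period_pos lab h
  obtain ⟨k, hk⟩ : ∃ k, Function.minimalPeriod (M.bd H) d = k + 1 :=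
    ⟨_, (Nat.sub_add_cancel hp).symm⟩
  have hl : nfcuffLst M H d = (M.bd H)^[k] d := by simp [nfcuffLst, hk]
  have e := nfcuff_rev_orbL lab h k
  have hn : (orbL (M.bd H) (M.α ((M.bd H)^[k] d)) (k + 1)).Nodup := by
    rw [← e]
    have := nodup_orbL_period (M.bd H) d
    rw [hk] at this
    exact List.nodup_reverse.2 (this.map M.α.injective)
  have hper : (M.bd H)^[k + 1] (M.α ((M.bd H)^[k] d)) = M.α ((M.bd H)^[k] d) := by
    have e1 := nfcuff_back lab (nfcuff_H_iter lab h k).1 (k + 1)
    have e2 : (M.bd H)^[k + 1] ((M.bd H)^[k] d) = (M.bd H)^[k] d := by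
      rw [← Function.iterate_add_apply, add_comm, Function.iterate_add_apply, ← hk,
        Function.iterate_minimalPeriod]
    rwa [e2] at e1
  have hm := orbL_minimal (Nat.succ_pos k) hper hn
  unfold cyc
  rw [hk, hl, ← hm]
  exact e

theorem nfcuff_src_lst (lab : Lab0 M H G n) {d : M.D} (h : H d) :
    M.gd.src (M.α (nfcuffLst M H d)) = M.gd.src d := by
  have e := (bd_H lab.Hα (nfcuff_lst_H lab h).1).2.2
  rw [nfcuff_bd_lst lab h] at e
  exact e.symm

theorem nfcuff_path (lab : Lab0 M H G n) {d : M.D} (h : H d) (i : ℕ) :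
    M.gd.Path (M.gd.src d) (orbL (M.bd H) d i) (M.gd.src ((M.bd H)^[i] d)) :=
  isPath_orbL (f := M.bd H) (s := M.gd.src) (t := M.gd.tgt) (d := d) i fun j _ => by
    rw [Function.iterate_succ_apply']
    exact (bd_H lab.Hα (nfcuff_H_iter lab h j).1).2.2.symm

theorem nfcuff_base (lab : Lab0 M H G n) : ∃ (pr : G.C → Prop) (β : G.C → M.D),
    (∀ c, pr (G.bar c) ↔ ¬ pr c) ∧ (∀ c, H (β c)) ∧ (∀ c, lab.cuf (β c) = c) ∧
      ∀ c, pr c → β (G.bar c) = M.α (nfcuffLst M H (β c)) := by
  classical
  choose β₀ h1 h2 using lab.cuf_surj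
  let enc := Fintype.equivFin G.C
  have hpr : ∀ c, enc (G.bar c) < enc (G.bar (G.bar c)) ↔ ¬ enc c < enc (G.bar c) := by
    intro c
    rw [G.bar_bar]
    have : enc (G.bar c) ≠ enc c := fun e => G.bar_ne c (enc.injective e)
    constructor
    · exact fun h => not_lt.2 h.le
    · exact fun h => lt_of_le_of_ne (not_lt.1 h) this
  refine ⟨fun c => enc c < enc (G.bar c), fun c => if enc c < enc (G.bar c) then β₀ c else
    M.α (nfcuffLst M H (β₀ (G.bar c))), hpr, fun c => ?_, fun c => ?_, fun c hc => ?_⟩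
  · dsimp only
    split_ifs
    · exact h1 c
    · exact lab.Hα _ (nfcuff_lst_H lab (h1 _)).1
  · dsimp only
    split_ifs
    · exact h2 c
    · rw [lab.cuf_α _ (nfcuff_lst_H lab (h1 _)).1, (nfcuff_lst_H lab (h1 _)).2, h2, G.bar_bar]
  · dsimp only
    rw [if_neg (fun h => (hpr c).1 h hc), if_pos hc, G.bar_bar]

theorem nfcuff_eta (lab : Lab0 M H G n) {pr : G.C → Prop} {β : G.C → M.D}
    (hpr : ∀ c, pr (G.bar c) ↔ ¬ pr c) (hH : ∀ c, H (β c)) (hc : ∀ c, lab.cuf (β c) = c) :
    ∃ η : M.gd.V → List M.gd.E, (∀ v, (η v).length ≤ n) ∧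
      ∀ c, pr c → ∀ i < Function.minimalPeriod (M.bd H) (β c),
        η (M.gd.src ((M.bd H)^[i] (β c))) = M.gd.rev (orbL (M.bd H) (β c) i) := by
  classical
  refine ⟨fun v => if h : ∃ p : G.C × ℕ, pr p.1 ∧ p.2 < Function.minimalPeriod (M.bd H) (β p.1) ∧
    M.gd.src ((M.bd H)^[p.2] (β p.1)) = v then
      M.gd.rev (orbL (M.bd H) (β h.choose.1) h.choose.2) else [], fun v => ?_, fun c hp i hi => ?_⟩
  · dsimp only
    split_ifs with h
    · have h1 := h.choose_spec.2.1
      have h2 := length_cyc lab (hH h.choose.1)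
      have h3 : (cyc M H (β h.choose.1)).length =
          Function.minimalPeriod (M.bd H) (β h.choose.1) := by simp [cyc, orbL]
      have h4 : (orbL (M.bd H) (β h.choose.1) h.choose.2).length = h.choose.2 := by simp [orbL]
      have h5 := (Gd.length_rev (A := M.gd) (orbL (M.bd H) (β h.choose.1) h.choose.2)).trans h4
      omega
    · exact Nat.zero_le _
  · have h : ∃ p : G.C × ℕ, pr p.1 ∧ p.2 < Function.minimalPeriod (M.bd H) (β p.1) ∧
        M.gd.src ((M.bd H)^[p.2] (β p.1)) = M.gd.src ((M.bd H)^[i] (β c)) := ⟨(c, i), hp, hi, rfl⟩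
    dsimp only
    rw [dif_pos h]
    obtain ⟨h1, h2, h3⟩ := h.choose_spec
    generalize h.choose = p at h1 h2 h3
    obtain ⟨c', i'⟩ := p
    dsimp only at h1 h2 h3 ⊢
    have a1 := nfcuff_H_iter lab (hH c) i
    have a2 := nfcuff_H_iter lab (hH c') i'
    rw [hc] at a1 a2
    rcases vtx_two lab a2.1 a1.1 h3 with e | e
    · have e1 : c = c' := by rw [← a1.2, e, a2.2]
      subst e1
      have e2 : i = i' := Function.iterate_injOn_Iio_minimalPeriod hi h2 e
      rw [e2]
    · exfalso
      have e1 : c = G.bar c' := by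
        rw [← a1.2, e, cuf_bd lab (lab.Hα _ a2.1), lab.cuf_α _ a2.1, a2.2]
      rw [e1] at hp
      exact (hpr c').1 hp h1

end aux

theorem exists_cuffD {M : CMap} {H : M.D → Prop} {G : GS} {n : ℕ} (lab : Lab0 M H G n) :
    Nonempty (CuffD0 lab) := by
  classical
  obtain ⟨pr, β, hpr, hH, hc, hb⟩ := nfcuff_base lab
  obtain ⟨η, hlen, hη⟩ := nfcuff_eta lab hpr hH hc
  have hsrc : ∀ c, M.gd.src (β (G.bar c)) = M.gd.src (β c) := by
    have key : ∀ c, pr c → M.gd.src (β (G.bar c)) = M.gd.src (β c) := fun c h => by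
      rw [hb c h]
      exact nfcuff_src_lst lab (hH c)
    intro c
    by_cases h : pr c
    · exact key c h
    · have := key _ ((hpr c).2 h)
      rw [G.bar_bar] at this
      exact this.symm
  have hrev : ∀ c, M.gd.rev (cyc M H (β c)) = cyc M H (β (G.bar c)) := by
    have key : ∀ c, pr c → M.gd.rev (cyc M H (β c)) = cyc M H (β (G.bar c)) := fun c h => by
      rw [hb c h]
      exact nfcuff_rev_cyc lab (hH c)
    intro c
    by_cases h : pr c
    · exact key c h
    · have := key _ ((hpr c).2 h)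
      rw [G.bar_bar] at this
      rw [← this]
      exact nfcuff_rev_rev M.gd _
  let mark : M.D → Prop := fun d =>
    ∃ c, pr c ∧ (d = nfcuffLst M H (β c) ∨ d = M.α (nfcuffLst M H (β c)))
  have m1 : ∀ d c, lab.cuf d = c → pr c → (mark d ↔ d = nfcuffLst M H (β c)) := by
    intro d c hd hp
    refine ⟨?_, fun h => ⟨c, hp, Or.inl h⟩⟩
    rintro ⟨c', hp', e | e⟩
    · have : c = c' := by rw [← hd, e, (nfcuff_lst_H lab (hH c')).2, hc]
      rw [this]
      exact e
    · exfalso
      have : c = G.bar c' := by rw [← hd, e, ← hb c' hp', hc]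
      rw [this] at hp
      exact (hpr c').1 hp hp'
  have m2 : ∀ d c, lab.cuf d = c → ¬ pr c → (mark d ↔ d = β c) := by
    intro d c hd hp
    have hp1 := (hpr c).2 hp
    have e0 := hb _ hp1
    rw [G.bar_bar] at e0
    refine ⟨?_, fun h => ⟨G.bar c, hp1, Or.inr (h.trans e0)⟩⟩
    rintro ⟨c', hp', e | e⟩
    · exfalso
      have : c = c' := by rw [← hd, e, (nfcuff_lst_H lab (hH c')).2, hc]
      exact hp (this ▸ hp')
    · have : c = G.bar c' := by rw [← hd, e, ← hb c' hp', hc]
      rw [this, hb c' hp']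
      exact e
  have mα : ∀ d, mark (M.α d) ↔ mark d := by
    have key : ∀ d, mark d → mark (M.α d) := by
      rintro d ⟨c, hp, e | e⟩
      · exact ⟨c, hp, Or.inr (by rw [e])⟩
      · exact ⟨c, hp, Or.inl (by rw [e, M.αα])⟩
    intro d
    refine ⟨fun h => ?_, key d⟩
    have := key _ h
    rwa [M.αα] at this
  have hidx : ∀ d, H d → ∃ i < Function.minimalPeriod (M.bd H) (β (lab.cuf d)),
      (M.bd H)^[i] (β (lab.cuf d)) = d := fun d hd =>
    nfcuff_mem_orbL.1 ((mem_cyc lab (hH (lab.cuf d))).2 ⟨hd, (hc _).symm⟩)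
  have hbase : ∀ c, M.gd.ev (η (M.gd.src (β c))) = 1 := by
    have key : ∀ c, pr c → M.gd.ev (η (M.gd.src (β c))) = 1 := fun c h => by
      have := hη c h 0 (period_pos lab (hH c))
      rw [Function.iterate_zero_apply] at this
      rw [this]
      rfl
    intro c
    by_cases h : pr c
    · exact key c h
    · rw [← hsrc]
      exact key _ ((hpr c).2 h)
  have hpath : ∀ d, H d → M.gd.Path (M.gd.src d) (η (M.gd.src d)) (M.gd.src (β (lab.cuf d))) := by
    have key : ∀ d, H d → pr (lab.cuf d) →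
        M.gd.Path (M.gd.src d) (η (M.gd.src d)) (M.gd.src (β (lab.cuf d))) := by
      intro d hd hp
      obtain ⟨i, hi, e⟩ := hidx d hd
      have e1 := hη _ hp i hi
      have e2 := (nfcuff_path lab (hH (lab.cuf d)) i).rev
      rw [e] at e1 e2
      rw [e1]
      exact e2
    intro d hd
    by_cases h : pr (lab.cuf d)
    · exact key d hd h
    · have a := bd_H lab.Hα (lab.Hα d hd)
      have e1 : lab.cuf (M.bd H (M.α d)) = G.bar (lab.cuf d) := by
        rw [cuf_bd lab (lab.Hα d hd), lab.cuf_α d hd]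
      have e2 : M.gd.src (M.bd H (M.α d)) = M.gd.src d := a.2.2.trans (Gd.tgt_inv (A := M.gd) d)
      have := key _ a.1 (by rw [e1]; exact (hpr _).2 h)
      rwa [e1, e2, hsrc] at this
  have hstep : ∀ d, H d → pr (lab.cuf d) → M.gd.ev (η (M.gd.src d)) *
      (if mark d then M.gd.ev (cyc M H (β (lab.cuf d))) else 1) =
        M.gd.val d * M.gd.ev (η (M.gd.tgt d)) := by
    intro d hd hp
    obtain ⟨i, hi, e⟩ := hidx d hd
    have e1 := hη _ hp i hi
    rw [e] at e1
    have e3 : M.gd.tgt d = M.gd.src ((M.bd H)^[i + 1] (β (lab.cuf d))) := by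
      rw [Function.iterate_succ_apply', e]
      exact (bd_H lab.Hα hd).2.2.symm
    have e4 : M.gd.ev (orbL (M.bd H) (β (lab.cuf d)) (i + 1)) =
        M.gd.ev (orbL (M.bd H) (β (lab.cuf d)) i) * M.gd.val d := by
      have e0 := nfcuff_orbL_succ (M.bd H) (β (lab.cuf d)) i
      rw [e] at e0
      have := Gd.ev_append (A := M.gd) (orbL (M.bd H) (β (lab.cuf d)) i) [d]
      have e00 : M.gd.ev [d] = M.gd.val d := (Gd.ev_cons (A := M.gd) d []).trans (mul_one _)
      rw [e00] at this
      exact (congrArg M.gd.ev e0).trans this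
    rw [e1, e3, Gd.ev_rev]
    rcases lt_or_eq_of_le (Nat.succ_le_of_lt hi) with h | h
    · have hm : ¬ mark d := by
        rw [m1 d _ rfl hp]
        intro e5
        have e6 : (M.bd H)^[i] (β (lab.cuf d)) =
            (M.bd H)^[Function.minimalPeriod (M.bd H) (β (lab.cuf d)) - 1] (β (lab.cuf d)) :=
          e.trans e5
        have := Function.iterate_injOn_Iio_minimalPeriod hi
          (show Function.minimalPeriod (M.bd H) (β (lab.cuf d)) - 1 <
            Function.minimalPeriod (M.bd H) (β (lab.cuf d)) by omega) e6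
        omega
      rw [if_neg hm, hη _ hp (i + 1) h, Gd.ev_rev, e4]
      group
    · have h' : i + 1 = Function.minimalPeriod (M.bd H) (β (lab.cuf d)) := h
      have hm : mark d := by
        rw [m1 d _ rfl hp]
        unfold nfcuffLst
        rw [← h', Nat.add_sub_cancel]
        exact e.symm
      have e5 : M.gd.ev (cyc M H (β (lab.cuf d))) =
          M.gd.ev (orbL (M.bd H) (β (lab.cuf d)) i) * M.gd.val d := by
        rw [← e4, h']
        rfl
      rw [if_pos hm, e5, h', Function.iterate_minimalPeriod, hbase]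
      group
  refine ⟨{ β := β
            mark := mark
            η := η
            cv := Quotient.lift (fun c => M.gd.src (β c)) ?_
            β_H := hH
            β_cuf := hc
            rev_cyc := hrev
            src_β := fun c => rfl
            mark_α := fun d _ => mα d
            mark_one := fun c => ?_
            η_path := hpath
            η_len := hlen
            η_base := hbase
            η_step := fun d hd => ?_ }⟩
  · rintro c c' (rfl | rfl)
    · rfl
    · exact (hsrc c).symm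
  · have hn : (cyc M H (β c)).Nodup := nodup_orbL_period _ _
    have hmem : ∀ d' ∈ cyc M H (β c), lab.cuf d' = c := fun d' h =>
      ((mem_cyc lab (hH c)).1 h).2.trans (hc c)
    by_cases h : pr c
    · have e := nfcuff_cyc_snoc lab (hH c)
      refine ⟨_, [], _, e, ⟨c, h, Or.inl rfl⟩, fun d' hd' hm => ?_⟩
      rw [List.append_nil] at hd'
      rw [e] at hn hmem
      have e1 := (m1 d' c (hmem d' (List.mem_append_left _ hd')) h).1 hm
      exact (List.nodup_append.1 hn).2.2 d' hd' _ (List.mem_singleton_self _) e1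
    · obtain ⟨k, hk⟩ : ∃ k, Function.minimalPeriod (M.bd H) (β c) = k + 1 :=
        ⟨_, (Nat.sub_add_cancel (period_pos lab (hH c))).symm⟩
      have e : cyc M H (β c) = β c :: orbL (M.bd H) (M.bd H (β c)) k := by
        unfold cyc
        rw [hk, nfcuff_orbL_cons]
      refine ⟨[], _, _, e, (m2 _ c (hc c) h).2 rfl, fun d' hd' hm => ?_⟩
      rw [List.nil_append] at hd'
      rw [e] at hn hmem
      have e1 := (m2 d' c (hmem d' (List.mem_cons_of_mem _ hd')) h).1 hm
      exact (List.nodup_cons.1 hn).1 (e1 ▸ hd')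
  · by_cases h : pr (lab.cuf d)
    · have := hstep d hd h
      by_cases hm : mark d
      · rw [if_pos hm] at this ⊢
        exact this
      · rw [if_neg hm] at this ⊢
        exact this
    · have e1 := lab.cuf_α d hd
      have := hstep (M.α d) (lab.Hα d hd) (by rw [e1]; exact (hpr _).2 h)
      have e2 : M.gd.src (M.α d) = M.gd.tgt d := rfl
      have e3 : M.gd.tgt (M.α d) = M.gd.src d := Gd.tgt_inv (A := M.gd) d
      have e4 : M.gd.val (M.α d) = (M.gd.val d)⁻¹ := M.gd.val_inv d
      rw [e1, e2, e3, e4, ← hrev, Gd.ev_rev] at this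
      by_cases hm : mark d
      · rw [if_pos ((mα d).2 hm)] at this
        rw [if_pos hm, eq_inv_mul_iff_mul_eq.1 this |>.symm]
        group
      · rw [if_neg (fun h' => hm ((mα d).1 h'))] at this
        rw [if_neg hm, eq_inv_mul_iff_mul_eq.1 this |>.symm]
        group

end Pool.Agent.MC.NF.Z
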