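import Pool.Agent.P.MP_2677b3_gt.NfSg

namespace Pool.Agent.MC.NF

variable {M : CMap} {H : M.D → Prop}

theorem same_φ {d₀ d : M.D} (h : M.Same H d₀ d) : M.Same H d₀ (M.φ d) :=
  h.tail (Or.inl rfl)

theorem same_α {d₀ d : M.D} (h : M.Same H d₀ d) (hd : ¬ H d) : M.Same H d₀ (M.α d) :=
  h.tail (Or.inr ⟨hd, rfl⟩)

theorem same_cycle {d₀ d d' : M.D} (h : M.Same H d₀ d) (hc : M.φ.SameCycle d d') :
    M.Same H d₀ d' := by
  obtain ⟨k, -, rfl⟩ := hc.exists_pow_eq'
  induction k with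
  | zero => exact h
  | succ k ih =>
    rw [pow_succ', Equiv.Perm.mul_apply]
    exact same_φ (ih ⟨k, by simp⟩)

theorem src_eq_iff {d d' : M.D} : M.gd.src d = M.gd.src d' ↔ ∃ k : ℕ, M.ψ^[k] d = d' := by
  refine Quotient.eq.trans ⟨fun h => ?_, ?_⟩
  · obtain ⟨k, -, h⟩ := Equiv.Perm.SameCycle.exists_pow_eq' h
    exact ⟨k, by rw [← h, Equiv.Perm.iterate_eq_pow]⟩
  · rintro ⟨k, rfl⟩
    exact ⟨k, by rw [Equiv.Perm.iterate_eq_pow, zpow_natCast]⟩

theorem src_φ (d : M.D) : M.gd.src (M.φ d) = M.gd.tgt d := by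
  refine (src_eq_iff (d := M.α d).2 ⟨1, ?_⟩).symm
  change M.φ (M.α (M.α d)) = _
  rw [M.αα]

theorem cs_of_H {d : M.D} (h : H d) : cs M H d = .inl d := by
  classical
  have e : ∃ k : ℕ, H (M.ψ^[k] d) := ⟨0, h⟩
  rw [cs, dif_pos e, (Nat.find_eq_zero e).2 h]
  rfl

theorem cs_ψ {d : M.D} (h : ¬ H d) : cs M H (M.ψ d) = cs M H d := by
  classical
  unfold cs
  by_cases e : ∃ k : ℕ, H (M.ψ^[k] (M.ψ d))
  · have e' : ∃ k : ℕ, H (M.ψ^[k] d) := let ⟨k, hk⟩ := e; ⟨k + 1, hk⟩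
    have : Nat.find e' = Nat.find e + 1 := by
      rw [Nat.find_eq_iff]
      refine ⟨Nat.find_spec e, fun m hm => ?_⟩
      cases m with
      | zero => exact h
      | succ m => exact Nat.find_min e (by omega)
    rw [dif_pos e, dif_pos e', this]
    rfl
  · have e' : ¬ ∃ k : ℕ, H (M.ψ^[k] d) := by
      rintro ⟨k, hk⟩
      cases k with
      | zero => exact h hk
      | succ k => exact e ⟨k, hk⟩
    rw [dif_neg e, dif_neg e', (src_eq_iff (d := d) (d' := M.ψ d)).2 ⟨1, rfl⟩]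

theorem cs_φ_of_H (hα : ∀ d, H d → H (M.α d)) {d : M.D} (h : H d) :
    cs M H (M.φ d) = .inl (M.bd H d) := by
  obtain ⟨k, hk⟩ := src_eq_iff.1 (src_φ d)
  have e : ∃ k : ℕ, H (M.ψ^[k] (M.φ d)) := ⟨k, hk ▸ hα d h⟩
  rw [cs, dif_pos e, CMap.bd, dif_pos e]

theorem nfcut_same_iter {d₀ d : M.D} (hd : M.Same H d₀ d) (k : ℕ)
    (h : ∀ m < k, ¬ H (M.ψ^[m] d)) : M.Same H d₀ (M.ψ^[k] d) := by
  induction k with
  | zero => exact hd
  | succ k ih =>
    rw [Function.iterate_succ_apply']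
    exact same_φ (same_α (ih fun m hm => h m (by omega)) (h k (by omega)))

theorem cs_cases (d : M.D) :
    (∃ β, H β ∧ M.Same H d β ∧ M.gd.src β = M.gd.src d ∧ cs M H d = .inl β) ∨
      ((∀ k : ℕ, ¬ H (M.ψ^[k] d)) ∧ cs M H d = .inr (M.gd.src d)) := by
  classical
  by_cases e : ∃ k : ℕ, H (M.ψ^[k] d)
  · exact Or.inl ⟨_, Nat.find_spec e, nfcut_same_iter .refl _ fun m hm => Nat.find_min e hm,
      (src_eq_iff.2 ⟨_, rfl⟩).symm, by rw [cs, dif_pos e]⟩
  · exact Or.inr ⟨not_exists.1 e, by rw [cs, dif_neg e]⟩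

theorem bd_H (hα : ∀ d, H d → H (M.α d)) {d : M.D} (h : H d) :
    H (M.bd H d) ∧ M.Same H d (M.bd H d) ∧ M.gd.src (M.bd H d) = M.gd.tgt d := by
  have e := cs_φ_of_H hα h
  rcases cs_cases (H := H) (M.φ d) with ⟨β, h1, h2, h3, h4⟩ | ⟨-, h4⟩
  · obtain rfl : β = M.bd H d := Sum.inl_injective (h4.symm.trans e)
    exact ⟨h1, (same_φ .refl).trans h2, h3.trans (src_φ d)⟩
  · rw [e] at h4
    cases h4

theorem compat_cut (hα : ∀ d, H d → H (M.α d)) (d₀ : M.D) (l : M.D ⊕ Bool)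
    (h : ¬ (cx M H hα).H l) : tc M H d₀ l = sc M H d₀ ((cx M H hα).ι l) := by
  rcases l with d | _ | _
  · have h1 : ¬ H (M.α d) := fun h' => h (show H d by simpa [M.αα] using hα _ h')
    have h2 := cs_ψ h1
    have h3 : M.ψ (M.α d) = M.φ d := by
      change M.φ (M.α (M.α d)) = _
      rw [M.αα]
    rw [h3] at h2
    exact congrArg some h2
  · rfl
  · rfl

/-- A function that is invariant under the rotation at inner darts of the region only depends on
the cut source. -/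
theorem cs_univ {V : Type} {d₀ : M.D} (s : M.D → V)
    (h : ∀ d, M.Same H d₀ d → ¬ H d → s (M.ψ d) = s d) {d d' : M.D} (hd : M.Same H d₀ d)
    (hd' : M.Same H d₀ d') (e : cs M H d = cs M H d') : s d = s d' := by
  classical
  have key : ∀ d, M.Same H d₀ d → ∀ k, (∀ m < k, ¬ H (M.ψ^[m] d)) → s (M.ψ^[k] d) = s d := by
    intro d hd k
    induction k with
    | zero => exact fun _ => rfl
    | succ k ih =>
      intro hk
      have h1 : ∀ m < k, ¬ H (M.ψ^[m] d) := fun m hm => hk m (by omega)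
      rw [Function.iterate_succ_apply', h _ (nfcut_same_iter hd k h1) (hk k (by omega)), ih h1]
  unfold cs at e
  split_ifs at e with e1 e2 e2
  · rw [← key d hd _ fun m hm => Nat.find_min e1 hm, ← key d' hd' _ fun m hm => Nat.find_min e2 hm,
      Sum.inl_injective e]
  · obtain ⟨k, rfl⟩ := src_eq_iff.1 (Sum.inr_injective e)
    exact (key d hd k fun m _ hm => e1 ⟨m, hm⟩).symm

theorem path_pM (d₀ : M.D) (l : M.D ⊕ Bool) :
    M.gd.Path (FM M d₀ (sc M H d₀ l)) (pM M l) (FM M d₀ (tc M H d₀ l)) := by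
  have key : ∀ d, FM M d₀ (some (cs M H d)) = M.gd.src d := fun d => by
    rcases cs_cases (H := H) d with ⟨β, -, -, h3, h4⟩ | ⟨-, h4⟩ <;> rw [h4]
    · exact h3
    · rfl
  rcases l with d | _ | _
  · exact ⟨(key d).symm, ((key _).trans (src_φ d)).symm⟩
  · exact key d₀
  · exact (key d₀).symm

theorem length_pM (l : M.D ⊕ Bool) : (pM M l).length ≤ 1 := by
  rcases l with d | b
  exacts [le_rfl, zero_le_one]

theorem compat_pM (hα : ∀ d, H d → H (M.α d)) :
    (cx M H hα).Compat fun l => M.gd.ev (pM M l) := by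
  rintro (d | b) -
  · exact Gd.ev_rev (A := M.gd) [d]
  · change M.gd.ev [] = (M.gd.ev [])⁻¹
    simp

theorem orbL_minimal {D : Type} {f : D → D} {d : D} {k : ℕ} (hk : 0 < k) (h : f^[k] d = d)
    (hn : (orbL f d k).Nodup) : k = Function.minimalPeriod f d := by
  have hp : Function.IsPeriodicPt f k d := h
  have h1 := hp.minimalPeriod_pos hk
  refine le_antisymm (not_lt.1 fun hlt => ?_) (hp.minimalPeriod_le hk)
  have := List.inj_on_of_nodup_map hn (List.mem_range.2 hlt) (List.mem_range.2 hk)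
    (Function.isPeriodicPt_minimalPeriod f d)
  omega

theorem mem_orbL_period {D : Type} {f : D → D} {d d' : D} (h : 0 < Function.minimalPeriod f d) :
    d' ∈ orbL f d (Function.minimalPeriod f d) ↔ ∃ k : ℕ, f^[k] d = d' := by
  simp only [orbL, List.mem_map, List.mem_range]
  exact ⟨fun ⟨k, _, hk⟩ => ⟨k, hk⟩, fun ⟨k, hk⟩ =>
    ⟨_, Nat.mod_lt k h, Function.iterate_mod_minimalPeriod_eq.trans hk⟩⟩

theorem nodup_orbL_period {D : Type} (f : D → D) (d : D) :
    (orbL f d (Function.minimalPeriod f d)).Nodup :=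
  List.nodup_range.map_on fun _ ha _ hb h =>
    Function.iterate_injOn_Iio_minimalPeriod (List.mem_range.1 ha) (List.mem_range.1 hb) h

/-- A closed word along the orbit of `f` is a path iff consecutive letters match. -/
theorem isPath_orbL {D V : Type} {f : D → D} {s t : D → V} {d : D} (k : ℕ)
    (h : ∀ i < k, t (f^[i] d) = s (f^[i + 1] d)) : IsPath s t (s d) (orbL f d k) (s (f^[k] d)) := by
  induction k with
  | zero => exact rfl
  | succ k ih =>
    rw [orbL, List.range_succ, List.map_append]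
    exact (ih fun i hi => h i (by omega)).append ⟨rfl, h k (by omega)⟩

end Pool.Agent.MC.NF
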