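import Pool.Agent.P.MP_2677b3_gt.Basic

/-! Definitions for the normal form of a bounded surface with boundary by word moves. -/

namespace Pool.Agent.MC.NF

section words
variable {L : Type}

/-- A state: a word closed at the base point and further closed words. -/
abbrev St (L : Type) : Type := List L × List (List L)

/-- The letters of a state. -/
def lets (σ : St L) : List L := σ.1 ++ σ.2.flatten

/-- Value of a signed letter. -/
def sv {Γ : Type} [Group Γ] (χ : L → Γ) (u : L × Bool) : Γ := if u.2 then χ u.1 else (χ u.1)⁻¹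

/-- Value of a signed word. -/
def evs {Γ : Type} [Group Γ] (χ : L → Γ) (p : List (L × Bool)) : Γ := (p.map (sv χ)).prod

/-- Source of a signed letter (`ss t s` is the target). -/
def ss {V : Type} (s t : L → V) (u : L × Bool) : V := if u.2 then s u.1 else t u.1

/-- Signed paths. -/
def SPath {V : Type} (s t : L → V) (x : V) (p : List (L × Bool)) (y : V) : Prop :=
  IsPath (ss s t) (ss t s) x p y

def pos (w : List L) : List (L × Bool) := w.map fun d => (d, true)

def rv (p : List (L × Bool)) : List (L × Bool) := (p.map fun u => (u.1, !u.2)).reverse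

/-- Substitution of signed words for letters. -/
def sub (Ψ : L → List (L × Bool)) (p : List (L × Bool)) : List (L × Bool) :=
  p.flatMap fun u => if u.2 then Ψ u.1 else rv (Ψ u.1)

/-- Substitution of paths of a graph for letters. -/
def sgn (A : Gd) (π : L → List A.E) (p : List (L × Bool)) : List A.E :=
  p.flatMap fun u => if u.2 then π u.1 else A.rev (π u.1)

/-- `χ` kills all words of the state. -/
def Kill {Γ : Type} [Group Γ] (σ : St L) (χ : L → Γ) : Prop :=
  (σ.1.map χ).prod = 1 ∧ ∀ w ∈ σ.2, (w.map χ).prod = 1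

/-- An alphabet with a pairing `ι` and a set `H` of boundary letters. -/
structure Ctx (L : Type) where
  ι : L → L
  H : L → Prop
  ιι : ∀ d, ι (ι d) = d
  ne : ∀ d, ι d ≠ d
  Hι : ∀ d, H d → H (ι d)

namespace Ctx
variable (C : Ctx L)

def Compat {Γ : Type} [Group Γ] (χ : L → Γ) : Prop := ∀ d, ¬ C.H d → χ (C.ι d) = (χ d)⁻¹

/-- A typing of a state with base point `y`. -/
def Typ {V : Type} (σ : St L) (s t : L → V) (y : V) : Prop :=
  (∀ d, ¬ C.H d → t d = s (C.ι d)) ∧ IsPath s t y σ.1 y ∧ ∀ w ∈ σ.2, ∃ z, IsPath s t z w z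

/-- `Ψ` writes the letters of `σ` in the letters of `σ'`, `Φ` goes back. -/
structure Half (K : ℕ) (σ σ' : St L) (Ψ Φ : L → List (L × Bool)) : Prop where
  len : ∀ d, (Ψ d).length ≤ K
  ne : ∀ d, Ψ d ≠ []
  idH : ∀ d, C.H d → Ψ d = [(d, true)]
  sup : ∀ d ∈ lets σ, ∀ u ∈ Ψ d, u.1 ∈ lets σ'
  val : ∀ (Γ : Type) [Group Γ] (χ : L → Γ), C.Compat χ → Kill σ' χ →
    C.Compat (fun d => evs χ (Ψ d)) ∧ Kill σ (fun d => evs χ (Ψ d)) ∧
      ∀ d ∈ lets σ', evs (fun d => evs χ (Ψ d)) (Φ d) = χ d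
  typ : ∀ (V : Type) (s' t' : L → V) (y : V), C.Typ σ' s' t' y → ∃ s t : L → V, C.Typ σ s t y ∧
    (∀ d, C.H d → s d = s' d ∧ t d = t' d) ∧ (∀ d ∈ lets σ, SPath s' t' (s d) (Ψ d) (t d)) ∧
      ∀ d ∈ lets σ', SPath s t (s' d) (Φ d) (t' d)

def Rch (K : ℕ) (σ σ' : St L) : Prop :=
  ∃ Ψ Φ : L → List (L × Bool), C.Half K σ σ' Ψ Φ ∧ C.Half K σ' σ Φ Ψ

def WF (σ : St L) : Prop := (lets σ).Nodup ∧ ∀ d ∈ lets σ, ¬ C.H d → C.ι d ∈ lets σ

/-- The words of the state are connected through paired letters. -/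
def Conn (σ : St L) : Prop :=
  ∀ T : L → Prop, (∀ d ∈ σ.1, T d) → (∀ d ∈ lets σ, ¬ C.H d → T d → T (C.ι d)) →
    (∀ w ∈ σ.2, ∀ d ∈ w, ∀ d' ∈ w, T d → T d') → ∀ d ∈ lets σ, T d

/-- The elementary moves. -/
inductive Mv : St L → St L → Prop
  | e1 (X P Y Z : List L) (a : L) (ws : List (List L)) (h : ¬ C.H a) :
      Mv (X ++ P ++ a :: Y ++ C.ι a :: Z, ws) (X ++ a :: Y ++ C.ι a :: P ++ Z, ws)
  | e1' (X P Y Z : List L) (a : L) (ws : List (List L)) (h : ¬ C.H a) :
      Mv (X ++ a :: Y ++ C.ι a :: P ++ Z, ws) (X ++ P ++ a :: Y ++ C.ι a :: Z, ws)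
  | e2 (X P Y Z : List L) (a : L) (ws : List (List L)) (h : ¬ C.H a) :
      Mv (X ++ a :: P ++ Y ++ C.ι a :: Z, ws) (X ++ a :: Y ++ P ++ C.ι a :: Z, ws)
  | mg (X Y X' Y' : List L) (d z : L) (A B : List (List L)) (h : ¬ C.H d) :
      Mv (X ++ d :: z :: Y, A ++ (X' ++ C.ι d :: Y') :: B) (X ++ Y' ++ X' ++ z :: Y, A ++ B)

/-- At most `m` moves. -/
inductive Steps : ℕ → St L → St L → Prop
  | refl (m : ℕ) (σ : St L) : Steps m σ σ
  | step {m : ℕ} {σ σ' σ'' : St L} : C.Mv σ σ' → Steps m σ' σ'' → Steps (m + 1) σ σ''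

/-- The normal form word with handles `hs` and segments `sg`. -/
def word (hs : List (L × L)) (sg : List (L × List L)) : List L :=
  hs.flatMap (fun u => [u.1, u.2, C.ι u.1, C.ι u.2]) ++
    sg.flatMap (fun u => u.1 :: u.2 ++ [C.ι u.1])

def Shape (hs : List (L × L)) (sg : List (L × List L)) : Prop :=
  (∀ u ∈ hs, ¬ C.H u.1 ∧ ¬ C.H u.2) ∧ ∀ u ∈ sg, ¬ C.H u.1 ∧ ∀ d ∈ u.2, C.H d

end Ctx

end words

section maps

/-- The alphabet of a cut map: darts and one extra pair of letters. -/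
def cx (M : CMap) (H : M.D → Prop) (hα : ∀ d, H d → H (M.α d)) : Ctx (M.D ⊕ Bool) where
  ι := Sum.map M.α not
  H := Sum.elim H fun _ => False
  ιι := by rintro (d | b) <;> simp [M.αα]
  ne := by rintro (d | b) <;> simp [M.αne]
  Hι := by rintro (d | b) <;> simp; exact hα d

open Classical in
/-- The darts of the region of `d₀`. -/
noncomputable def regS (M : CMap) (H : M.D → Prop) (d₀ : M.D) : Finset M.D :=
  Finset.univ.filter fun d => M.Same H d₀ d

noncomputable def face (M : CMap) (d : M.D) : List M.D :=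
  orbL M.φ d (Function.minimalPeriod M.φ d)

/-- The boundary cycle of a dart of `H`. -/
noncomputable def cyc (M : CMap) (H : M.D → Prop) (d : M.D) : List M.D :=
  orbL (M.bd H) d (Function.minimalPeriod (M.bd H) d)

open Classical in
/-- The initial state of a region: the face of `d₀` joined to a new base point, and the other
faces. -/
noncomputable def st0 (M : CMap) (H : M.D → Prop) (d₀ : M.D) : St (M.D ⊕ Bool) :=
  (Sum.inr true :: (face M d₀).map Sum.inl ++ [Sum.inr false],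
    (((regS M H d₀).image (Quotient.mk (Equiv.Perm.SameCycle.setoid M.φ))).erase
      (Quotient.mk _ d₀)).toList.map fun q => (face M q.out).map Sum.inl)

open Classical in
/-- Source of a dart in the cut surface: the next dart of `H` around the vertex, or the vertex. -/
noncomputable def cs (M : CMap) (H : M.D → Prop) (d : M.D) : M.D ⊕ M.gd.V :=
  if h : ∃ k : ℕ, H (M.ψ^[k] d) then Sum.inl (M.ψ^[Nat.find h] d) else Sum.inr (M.gd.src d)

abbrev OV (M : CMap) : Type := Option (M.D ⊕ M.gd.V)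

noncomputable def sc (M : CMap) (H : M.D → Prop) (d₀ : M.D) : M.D ⊕ Bool → OV M
  | .inl d => some (cs M H d)
  | .inr true => none
  | .inr false => some (cs M H d₀)

noncomputable def tc (M : CMap) (H : M.D → Prop) (d₀ : M.D) : M.D ⊕ Bool → OV M
  | .inl d => some (cs M H (M.φ d))
  | .inr true => some (cs M H d₀)
  | .inr false => none

/-- Letters as paths of the map. -/
def pM (M : CMap) : M.D ⊕ Bool → List M.gd.E
  | .inl d => [d]
  | .inr _ => []

def FM (M : CMap) (d₀ : M.D) : OV M → M.gd.V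
  | none => M.gd.src d₀
  | some (.inl β) => M.gd.src β
  | some (.inr v) => v

/-- Normal form data of the region of `d₀`. -/
structure RD (M : CMap) (H : M.D → Prop) (hα : ∀ d, H d → H (M.α d)) (d₀ : M.D) (K : ℕ)
    (hs : List ((M.D ⊕ Bool) × (M.D ⊕ Bool))) (sg : List ((M.D ⊕ Bool) × List (M.D ⊕ Bool))) where
  Ψ : M.D ⊕ Bool → List ((M.D ⊕ Bool) × Bool)
  Φ : M.D ⊕ Bool → List ((M.D ⊕ Bool) × Bool)
  s : M.D ⊕ Bool → OV M
  t : M.D ⊕ Bool → OV M
  shape : (cx M H hα).Shape hs sg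
  nodup : ((cx M H hα).word hs sg).Nodup
  memH : ∀ d, H d → (Sum.inl d ∈ (cx M H hα).word hs sg ↔ M.Same H d₀ d)
  cnt : (lets (st0 M H d₀)).length =
    ((cx M H hα).word hs sg).length + 2 * (st0 M H d₀).2.length
  h1 : (cx M H hα).Half K (st0 M H d₀) ((cx M H hα).word hs sg, []) Ψ Φ
  h2 : (cx M H hα).Half K ((cx M H hα).word hs sg, []) (st0 M H d₀) Φ Ψ
  typ : (cx M H hα).Typ ((cx M H hα).word hs sg, []) s t none
  agree : ∀ d, H d → s (.inl d) = some (.inl d) ∧ t (.inl d) = some (.inl (M.bd H d))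
  tΨ : ∀ l ∈ lets (st0 M H d₀), SPath s t (sc M H d₀ l) (Ψ l) (tc M H d₀ l)
  tΦ : ∀ l ∈ (cx M H hα).word hs sg, SPath (sc M H d₀) (tc M H d₀) (s l) (Φ l) (t l)

open Classical in
/-- Variant of `Lab` with a total cuff function. -/
structure Lab0 (M : CMap) (H : M.D → Prop) (G : GS) (n : ℕ) where
  reg : M.D → G.X
  cuf : M.D → G.C
  Hα : ∀ d, H d → H (M.α d)
  simple : ∀ d, H d → M.bd H (M.α (M.bd H d)) = M.α d
  reg_iff : ∀ d d', reg d = reg d' ↔ M.Same H d d'
  cuf_iff : ∀ d d', H d → H d' → (cuf d = cuf d' ↔ ∃ k : ℕ, (M.bd H)^[k] d = d')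
  cuf_surj : ∀ c, ∃ d, H d ∧ cuf d = c
  cuf_α : ∀ d, H d → cuf (M.α d) = G.bar (cuf d)
  own_cuf : ∀ d, H d → G.own (cuf d) = reg d
  size : ∀ x, (Finset.univ.filter fun d => reg d = x).card ≤ n

open Classical in
/-- Base darts, marked darts and connecting paths on the cuffs. -/
structure CuffD0 {M : CMap} {H : M.D → Prop} {G : GS} {n : ℕ} (lab : Lab0 M H G n) where
  β : G.C → M.D
  mark : M.D → Prop
  η : M.gd.V → List M.gd.E
  cv : Quotient G.st → M.gd.V
  β_H : ∀ c, H (β c)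
  β_cuf : ∀ c, lab.cuf (β c) = c
  rev_cyc : ∀ c, M.gd.rev (cyc M H (β c)) = cyc M H (β (G.bar c))
  src_β : ∀ c, M.gd.src (β c) = cv (Quotient.mk _ c)
  mark_α : ∀ d, H d → (mark (M.α d) ↔ mark d)
  mark_one : ∀ c, ∃ P Q d, cyc M H (β c) = P ++ d :: Q ∧ mark d ∧ ∀ d' ∈ P ++ Q, ¬ mark d'
  η_path : ∀ d, H d → M.gd.Path (M.gd.src d) (η (M.gd.src d)) (cv (Quotient.mk _ (lab.cuf d)))
  η_len : ∀ v, (η v).length ≤ n
  η_base : ∀ c, M.gd.ev (η (M.gd.src (β c))) = 1
  η_step : ∀ d, H d → M.gd.ev (η (M.gd.src d)) *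
    (if mark d then M.gd.ev (cyc M H (β (lab.cuf d))) else 1) = M.gd.val d * M.gd.ev (η (M.gd.tgt d))

open Classical in
/-- Base darts, marked darts and connecting paths on the cuffs. -/
structure CuffD {M : CMap} {H : M.D → Prop} {G : GS} {n : ℕ} (lab : Lab M H G n) where
  β : G.C → M.D
  mark : M.D → Prop
  η : M.gd.V → List M.gd.E
  cv : Quotient G.st → M.gd.V
  β_H : ∀ c, H (β c)
  β_cuf : ∀ c, lab.cuf (β c) (β_H c) = c
  rev_cyc : ∀ c, M.gd.rev (cyc M H (β c)) = cyc M H (β (G.bar c))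
  src_β : ∀ c, M.gd.src (β c) = cv (Quotient.mk _ c)
  mark_α : ∀ d, H d → (mark (M.α d) ↔ mark d)
  mark_one : ∀ c, ∃ P Q d, cyc M H (β c) = P ++ d :: Q ∧ mark d ∧ ∀ d' ∈ P ++ Q, ¬ mark d'
  η_path : ∀ d (h : H d),
    M.gd.Path (M.gd.src d) (η (M.gd.src d)) (cv (Quotient.mk _ (lab.cuf d h)))
  η_len : ∀ v, (η v).length ≤ n
  η_base : ∀ c, M.gd.ev (η (M.gd.src (β c))) = 1
  η_step : ∀ d (h : H d), M.gd.ev (η (M.gd.src d)) *
    (if mark d then M.gd.ev (cyc M H (β (lab.cuf d h))) else 1) =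
      M.gd.val d * M.gd.ev (η (M.gd.tgt d))

/-- All data needed to compare a cut map with its graph of surfaces. -/
structure GD (M : CMap) (H : M.D → Prop) (G : GS) (n K : ℕ) where
  lab : Lab M H G n
  cd : CuffD lab
  d₀ : G.X → M.D
  hd₀ : ∀ x, lab.reg (d₀ x) = x
  hs : G.X → List ((M.D ⊕ Bool) × (M.D ⊕ Bool))
  es : G.C → M.D ⊕ Bool
  pend : G.X → List (M.D ⊕ Bool)
  hlen : ∀ x, (hs x).length = G.h x
  rd : ∀ x, RD M H lab.Hα (d₀ x) K (hs x)
    ((G.ord x).map (fun c => (es c, (cyc M H (cd.β c)).map Sum.inl)) ++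
      (pend x).map fun p => (p, []))
  nK : n ≤ K

namespace GD
variable {M : CMap} {H : M.D → Prop} {G : GS} {n K : ℕ} (g : GD M H G n K)

abbrev C : Ctx (M.D ⊕ Bool) := cx M H g.lab.Hα

/-- The normal form word of the piece `x`. -/
noncomputable abbrev W (x : G.X) : List (M.D ⊕ Bool) :=
  g.C.word (g.hs x) ((G.ord x).map (fun c => (g.es c, (cyc M H (g.cd.β c)).map Sum.inl)) ++
      (g.pend x).map fun p => (p, []))

/-- The letter that names a handle edge or an arc of `G`. -/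
def nu : G.Ed → M.D ⊕ Bool
  | .inl ⟨x, i, true, true⟩ => ((g.hs x).getD i (.inr true, .inr true)).1
  | .inl ⟨x, i, true, false⟩ => g.C.ι ((g.hs x).getD i (.inr true, .inr true)).1
  | .inl ⟨x, i, false, true⟩ => ((g.hs x).getD i (.inr true, .inr true)).2
  | .inl ⟨x, i, false, false⟩ => g.C.ι ((g.hs x).getD i (.inr true, .inr true)).2
  | .inr (.inl (c, true)) => g.es c
  | .inr (.inl (c, false)) => g.C.ι (g.es c)
  | .inr (.inr _) => .inr true

end GD

/-- The piece that owns a handle edge or an arc. -/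
def ow (G : GS) : G.Ed → Option G.X
  | .inl a => some a.1
  | .inr (.inl a) => some (G.own a.1)
  | .inr (.inr _) => none

namespace GD
variable {M : CMap} {H : M.D → Prop} {G : GS} {n K : ℕ} (g : GD M H G n K)

open Classical in
/-- Letters of the normal form of `x` as paths of `G`. -/
noncomputable def pG (x : G.X) (l : M.D ⊕ Bool) : List G.gd.E :=
  if h : ∃ E, ow G E = some x ∧ g.nu E = l then [h.choose] else
    l.elim (fun d => if h : H d ∧ g.cd.mark d then [.inr (.inr (g.lab.cuf d h.1))] else [])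
      fun _ => []

open Classical in
noncomputable def FG (x : G.X) : OV M → G.gd.V
  | none => .inl x
  | some (.inl β) => if h : H β then .inr (Quotient.mk _ (g.lab.cuf β h)) else .inl x
  | some (.inr _) => .inl x

theorem FG_H (x : G.X) {β : M.D} (h : H β) :
    g.FG x (some (.inl β)) = .inr (Quotient.mk _ (g.lab.cuf β h)) := dif_pos h

open Classical in
noncomputable def fv (v : M.gd.V) : G.gd.V :=
  if h : ∃ d, H d ∧ M.gd.src d = v then .inr (Quotient.mk _ (g.lab.cuf h.choose h.choose_spec.1))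
  else .inl (g.lab.reg (Quotient.out v))

noncomputable def fe (d : M.D) : List G.gd.E :=
  sgn G.gd (g.pG (g.lab.reg d)) ((g.rd (g.lab.reg d)).Ψ (.inl d))

def gv : G.gd.V → M.gd.V
  | .inl x => M.gd.src (g.d₀ x)
  | .inr q => g.cd.cv q

noncomputable def ge : G.Ed → List M.gd.E
  | .inl a => sgn M.gd (pM M) ((g.rd a.1).Φ (g.nu (.inl a)))
  | .inr (.inl a) => sgn M.gd (pM M) ((g.rd (G.own a.1)).Φ (g.nu (.inr (.inl a))))
  | .inr (.inr c) => cyc M H (g.cd.β c)

end GD

end maps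

end Pool.Agent.MC.NF
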