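import Pool.Agent.P.MP_2677b3_gt.NfSg

namespace Pool.Agent.MC.NF

variable {L : Type} {C : Ctx L}

open Classical in
/-- Change the words of two letters. -/
noncomputable def nfe1_upd (a b : L) (p q : List (L × Bool)) (d : L) : List (L × Bool) :=
  if d = a then p else if d = b then q else [(d, true)]

theorem nfe1_upd_a (a b : L) (p q : List (L × Bool)) : nfe1_upd a b p q a = p := by
  simp [nfe1_upd]

theorem nfe1_upd_b {a b : L} (h : b ≠ a) (p q : List (L × Bool)) : nfe1_upd a b p q b = q := by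
  simp [nfe1_upd, h]

theorem nfe1_upd_ne {a b d : L} (h : d ≠ a) (h' : d ≠ b) (p q : List (L × Bool)) :
    nfe1_upd a b p q d = [(d, true)] := by
  simp [nfe1_upd, h, h']

open Classical in
theorem nfe1_half {K : ℕ} {w w' : List L} {ws : List (List L)} {a : L} (h : ¬ C.H a)
    {p q : List (L × Bool)} (hp : p.length + 1 ≤ K) (hq : q.length + 1 ≤ K)
    (hpa : ∀ u ∈ p, u.1 ≠ a ∧ u.1 ≠ C.ι a ∧ u.1 ∈ w')
    (hqa : ∀ u ∈ q, u.1 ≠ a ∧ u.1 ≠ C.ι a ∧ u.1 ∈ w')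
    (hw : ∀ d ∈ w, d ∈ w') (hws : ∀ v ∈ ws, ∀ d ∈ v, d ≠ a ∧ d ≠ C.ι a)
    (hinv : ∀ (Γ : Type) [Group Γ] (χ : L → Γ), evs χ q = (evs χ p)⁻¹)
    (hkill : ∀ (Γ : Type) [Group Γ] (χ χ' : L → Γ), (∀ d, d ≠ a → d ≠ C.ι a → χ' d = χ d) →
      χ' a = evs χ q * χ a → χ' (C.ι a) = χ (C.ι a) * evs χ p → (w'.map χ).prod = 1 →
      (w.map χ').prod = 1)
    (htyp : ∀ (V : Type) (s' t' : L → V) (y : V), t' (C.ι a) = s' a → IsPath s' t' y w' y →
      ∃ z, SPath s' t' (s' a) p z ∧ SPath s' t' z q (s' a) ∧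
        ∀ s t : L → V, (∀ d, d ≠ a → s d = s' d) → (∀ d, d ≠ C.ι a → t d = t' d) → s a = z →
          t (C.ι a) = z → IsPath s t y w y) :
    C.Half K (w, ws) (w', ws) (nfe1_upd a (C.ι a) (q ++ [(a, true)]) ((C.ι a, true) :: p))
      (nfe1_upd a (C.ι a) (p ++ [(a, true)]) ((C.ι a, true) :: q)) := by
  have hne : C.ι a ≠ a := C.ne a
  have hA : ¬ C.H (C.ι a) := fun h' => h (C.ιι a ▸ C.Hι _ h')
  have cas : ∀ d, d = a ∨ d = C.ι a ∨ (d ≠ a ∧ d ≠ C.ι a) := fun d => by tauto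
  have hι : ∀ d, d ≠ a → d ≠ C.ι a → C.ι d ≠ a ∧ C.ι d ≠ C.ι a := fun d h1 h2 =>
    ⟨fun h3 => h2 (by rw [← h3, C.ιι]), fun h3 => h1 (by rw [← C.ιι d, h3, C.ιι])⟩
  have hlet : ∀ d ∈ lets (w, ws), d ∈ lets (w', ws) := fun d hd =>
    List.mem_append.2 ((List.mem_append.1 hd).imp (hw d) id)
  have hlet' : ∀ d ∈ w', d ∈ lets (w', ws) := fun d hd => List.mem_append.2 (Or.inl hd)
  refine ⟨fun d => ?_, fun d => ?_, fun d hd => ?_, fun d hd u hu => ?_,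
    fun Γ _ χ hc hk => ?_, fun V s' t' y hT => ?_⟩
  · rcases cas d with rfl | rfl | ⟨h1, h2⟩
    · simpa [nfe1_upd_a] using hq
    · simpa [nfe1_upd_b hne] using hp
    · rw [nfe1_upd_ne h1 h2, List.length_singleton]
      omega
  · rcases cas d with rfl | rfl | ⟨h1, h2⟩
    · simp [nfe1_upd_a]
    · simp [nfe1_upd_b hne]
    · simp [nfe1_upd_ne h1 h2]
  · exact nfe1_upd_ne (fun h1 : d = a => h (h1 ▸ hd)) (fun h1 : d = C.ι a => hA (h1 ▸ hd)) _ _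
  · rcases cas d with rfl | rfl | ⟨h1, h2⟩
    · rw [nfe1_upd_a, List.mem_append, List.mem_singleton] at hu
      rcases hu with hu | rfl
      · exact hlet' _ (hqa u hu).2.2
      · exact hlet _ hd
    · rw [nfe1_upd_b hne, List.mem_cons] at hu
      rcases hu with rfl | hu
      · exact hlet _ hd
      · exact hlet' _ (hpa u hu).2.2
    · rw [nfe1_upd_ne h1 h2, List.mem_singleton] at hu
      subst hu
      exact hlet _ hd
  · set χ' : L → Γ := fun d =>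
      evs χ (nfe1_upd a (C.ι a) (q ++ [(a, true)]) ((C.ι a, true) :: p) d) with hχ'
    have e0 : ∀ d, d ≠ a → d ≠ C.ι a → χ' d = χ d := fun d h1 h2 => by
      simp [hχ', nfe1_upd_ne h1 h2]
    have e1 : χ' a = evs χ q * χ a := by simp [hχ', nfe1_upd_a]
    have e2 : χ' (C.ι a) = χ (C.ι a) * evs χ p := by simp [hχ', nfe1_upd_b hne]
    have e3 : χ' (C.ι a) = (χ' a)⁻¹ := by
      rw [e1, e2, hc a h, hinv, mul_inv_rev, inv_inv]
    have e4 : evs χ' p = evs χ p := evs_congr fun u hu => e0 _ (hpa u hu).1 (hpa u hu).2.1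
    have e5 : evs χ' q = evs χ q := evs_congr fun u hu => e0 _ (hqa u hu).1 (hqa u hu).2.1
    refine ⟨fun d hd => ?_, ⟨hkill Γ χ χ' e0 e1 e2 hk.1, fun v hv => ?_⟩, fun d _ => ?_⟩
    · rcases cas d with rfl | rfl | ⟨h1, h2⟩
      · exact e3
      · rw [C.ιι, e3, inv_inv]
      · rw [e0 d h1 h2, e0 _ (hι d h1 h2).1 (hι d h1 h2).2, hc d hd]
    · rw [List.map_congr_left fun d hd => e0 d (hws v hv d hd).1 (hws v hv d hd).2]
      exact hk.2 v hv
    · rcases cas d with rfl | rfl | ⟨h1, h2⟩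
      · rw [nfe1_upd_a, evs_append, evs_cons_true, evs_nil, e4, e1, hinv]
        group
      · rw [nfe1_upd_b hne, evs_cons_true, e5, e2, hinv]
        group
      · rw [nfe1_upd_ne h1 h2, evs_cons_true, evs_nil, mul_one, e0 d h1 h2]
  · have g0 : t' (C.ι a) = s' a := by rw [hT.1 _ hA, C.ιι]
    obtain ⟨z, z1, z2, z3⟩ := htyp V s' t' y g0 hT.2.1
    set s := Function.update s' a z with hs
    set t := Function.update t' (C.ι a) z with ht
    have f1 : ∀ d, d ≠ a → s d = s' d := fun d hd => Function.update_of_ne hd _ _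
    have f2 : ∀ d, d ≠ C.ι a → t d = t' d := fun d hd => Function.update_of_ne hd _ _
    have f3 : s a = z := Function.update_self _ _ _
    have f4 : t (C.ι a) = z := Function.update_self _ _ _
    refine ⟨s, t, ⟨fun d hd => ?_, z3 s t f1 f2 f3 f4, fun v hv => ?_⟩, fun d hd =>
      ⟨f1 d fun h1 => h (h1 ▸ hd), f2 d fun h1 => hA (h1 ▸ hd)⟩, fun d _ => ?_, fun d _ => ?_⟩
    · rcases cas d with rfl | rfl | ⟨h1, h2⟩
      · rw [f2 _ hne.symm, f1 _ hne, hT.1 _ hd]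
      · rw [f4, C.ιι, f3]
      · rw [f2 d h2, f1 _ (hι d h1 h2).1, hT.1 d hd]
    · obtain ⟨x, hx⟩ := hT.2.2 v hv
      exact ⟨x, isPath_congr (fun d hd => ⟨f1 d (hws v hv d hd).1, f2 d (hws v hv d hd).2⟩) hx⟩
    · rcases cas d with rfl | rfl | ⟨h1, h2⟩
      · rw [nfe1_upd_a, f3, f2 _ hne.symm]
        exact z2.append (by simp)
      · rw [nfe1_upd_b hne, f4, f1 _ hne, sPath_cons_true, g0]
        exact ⟨rfl, z1⟩
      · rw [nfe1_upd_ne h1 h2, f1 d h1, f2 d h2]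
        simp
    · rcases cas d with rfl | rfl | ⟨h1, h2⟩
      · rw [nfe1_upd_a]
        refine (z1.congr fun u hu => ⟨f1 _ (hpa u hu).1, f2 _ (hpa u hu).2.1⟩).append ?_
        simp [f3, f2 _ hne.symm]
      · rw [nfe1_upd_b hne, sPath_cons_true, f4, g0]
        exact ⟨f1 _ hne, z2.congr fun u hu => ⟨f1 _ (hqa u hu).1, f2 _ (hqa u hu).2.1⟩⟩
      · rw [nfe1_upd_ne h1 h2]
        simp [f1 d h1, f2 d h2]

theorem rch_e1 (X P Y Z : List L) (a : L) (ws : List (List L)) (h : ¬ C.H a)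
    (hn : (lets (X ++ P ++ a :: Y ++ C.ι a :: Z, ws)).Nodup) :
    C.Rch (P.length + 1) (X ++ P ++ a :: Y ++ C.ι a :: Z, ws)
      (X ++ a :: Y ++ C.ι a :: P ++ Z, ws) := by
  classical
  have hne : C.ι a ≠ a := C.ne a
  have c1 := List.nodup_iff_count_le_one.1 hn a
  have c2 := List.nodup_iff_count_le_one.1 hn (C.ι a)
  simp only [lets, List.count_append, List.count_cons, beq_self_eq_true, if_true] at c1 c2
  have key : ∀ W : List L, W.count a = 0 → W.count (C.ι a) = 0 → ∀ d ∈ W, d ≠ a ∧ d ≠ C.ι a :=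
    fun W h1 h2 d hd => ⟨fun e => List.count_eq_zero.1 h1 (e ▸ hd),
      fun e => List.count_eq_zero.1 h2 (e ▸ hd)⟩
  have hX := key X (by omega) (by omega)
  have hP := key P (by omega) (by omega)
  have hY := key Y (by omega) (by omega)
  have hZ := key Z (by omega) (by omega)
  have hws : ∀ v ∈ ws, ∀ d ∈ v, d ≠ a ∧ d ≠ C.ι a := fun v hv d hd =>
    key ws.flatten (by omega) (by omega) d (List.mem_flatten.2 ⟨v, hv, hd⟩)
  have m1 : ∀ u ∈ pos P, u.1 ∈ P := fun u hu => mem_pos hu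
  have m2 : ∀ u ∈ rv (pos P), u.1 ∈ P := fun u hu => by
    obtain ⟨u', hu', e⟩ := mem_rv hu
    exact e ▸ mem_pos hu'
  have mc : ∀ {Γ : Type} {χ χ' : L → Γ}, (∀ d, d ≠ a → d ≠ C.ι a → χ' d = χ d) →
      ∀ W : List L, (∀ d ∈ W, d ≠ a ∧ d ≠ C.ι a) → W.map χ' = W.map χ := fun e W hW =>
    List.map_congr_left fun d hd => e d (hW d hd).1 (hW d hd).2
  have pc : ∀ {V : Type} {s t s' t' : L → V}, (∀ d, d ≠ a → s d = s' d) →
      (∀ d, d ≠ C.ι a → t d = t' d) → ∀ {W : List L}, (∀ d ∈ W, d ≠ a ∧ d ≠ C.ι a) →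
      ∀ {x y : V}, IsPath s' t' x W y → IsPath s t x W y := fun f1 f2 _ hW _ _ hp =>
    isPath_congr (fun d hd => ⟨f1 d (hW d hd).1, f2 d (hW d hd).2⟩) hp
  refine ⟨_, _, nfe1_half (p := pos P) (q := rv (pos P)) h (by simp) (by simp)
    (fun u hu => ⟨(hP _ (m1 u hu)).1, (hP _ (m1 u hu)).2, by simp [m1 u hu]⟩)
    (fun u hu => ⟨(hP _ (m2 u hu)).1, (hP _ (m2 u hu)).2, by simp [m2 u hu]⟩)
    (fun d hd => ?_) hws (fun Γ _ χ => evs_rv χ _) (fun Γ _ χ χ' e0 e1 e2 hk => ?_)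
    (fun V s' t' y g0 hp => ?_),
    nfe1_half (p := rv (pos P)) (q := pos P) h (by simp) (by simp)
    (fun u hu => ⟨(hP _ (m2 u hu)).1, (hP _ (m2 u hu)).2, by simp [m2 u hu]⟩)
    (fun u hu => ⟨(hP _ (m1 u hu)).1, (hP _ (m1 u hu)).2, by simp [m1 u hu]⟩)
    (fun d hd => ?_) hws (fun Γ _ χ => by rw [evs_rv, inv_inv]) (fun Γ _ χ χ' e0 e1 e2 hk => ?_)
    (fun V s' t' y g0 hp => ?_)⟩
  · simp only [List.mem_append, List.mem_cons] at hd ⊢
    tauto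
  · simp only [List.map_append, List.map_cons, List.prod_append, List.prod_cons] at hk ⊢
    rw [mc e0 X hX, mc e0 P hP, mc e0 Y hY, mc e0 Z hZ, e1, e2, evs_rv, evs_pos, ← hk]
    group
  · simp only [isPath_append, isPath_cons] at hp
    obtain ⟨x5, ⟨x3, ⟨x1, pX, e1, pY⟩, e2, pP⟩, pZ⟩ := hp
    rw [g0] at pP
    refine ⟨x5, sPath_pos.2 pP, (sPath_pos.2 pP).rv, fun s t f1 f2 f3 f4 => ?_⟩
    simp only [isPath_append, isPath_cons]
    refine ⟨x3, ⟨x5, ⟨x1, pc f1 f2 hX pX, pc f1 f2 hP (e1 ▸ pP)⟩, f3, ?_⟩, ?_, ?_⟩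
    · rw [f2 _ hne.symm]
      exact pc f1 f2 hY pY
    · rw [f1 _ hne, e2]
    · rw [f4]
      exact pc f1 f2 hZ pZ
  · simp only [List.mem_append, List.mem_cons] at hd ⊢
    tauto
  · simp only [List.map_append, List.map_cons, List.prod_append, List.prod_cons] at hk ⊢
    rw [mc e0 X hX, mc e0 P hP, mc e0 Y hY, mc e0 Z hZ, e1, e2, evs_rv, evs_pos, ← hk]
    group
  · simp only [isPath_append, isPath_cons] at hp
    obtain ⟨x3, ⟨x5, ⟨x1, pX, pP⟩, e1, pY⟩, e2, pZ⟩ := hp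
    rw [← e1] at pP
    refine ⟨x1, (sPath_pos.2 pP).rv, sPath_pos.2 pP, fun s t f1 f2 f3 f4 => ?_⟩
    simp only [isPath_append, isPath_cons]
    refine ⟨s' a, ⟨x3, ⟨x1, pc f1 f2 hX pX, f3, ?_⟩, ?_, ?_⟩, ?_⟩
    · rw [f2 _ hne.symm]
      exact pc f1 f2 hY pY
    · rw [f1 _ hne, e2]
    · rw [f4]
      exact pc f1 f2 hP pP
    · exact pc f1 f2 hZ (g0 ▸ pZ)

end Pool.Agent.MC.NF
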