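import Pool.Agent.P.MP_2677b3_gt.NfSg

namespace Pool.Agent.MC.NF

variable {L : Type} {C : Ctx L}

open Classical in
/-- Substitution that changes only the two letters `a` and `C.ι a`. -/
noncomputable def nfe2U (C : Ctx L) (a : L) (w w' : List (L × Bool)) (d : L) : List (L × Bool) :=
  if d = a then (a, true) :: w else if d = C.ι a then w' ++ [(C.ι a, true)] else [(d, true)]

theorem nfe2_u1 (a : L) (w w' : List (L × Bool)) : nfe2U C a w w' a = (a, true) :: w := by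
  simp [nfe2U]

theorem nfe2_u2 (a : L) (w w' : List (L × Bool)) :
    nfe2U C a w w' (C.ι a) = w' ++ [(C.ι a, true)] := by
  simp [nfe2U, C.ne a]

theorem nfe2_u3 {a d : L} (w w' : List (L × Bool)) (h1 : d ≠ a) (h2 : d ≠ C.ι a) :
    nfe2U C a w w' d = [(d, true)] := by
  simp [nfe2U, h1, h2]

theorem nfe2_cases (C : Ctx L) (a d : L) : d = a ∨ d = C.ι a ∨ (d ≠ a ∧ d ≠ C.ι a) := by
  tauto

theorem nfe2_half {σ σ' : St L} {a : L} {w w' : List (L × Bool)} {K : ℕ} (h : ¬ C.H a)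
    (hl : w.length ≤ K) (hl' : w'.length ≤ K) (hs : ∀ d ∈ lets σ, d ∈ lets σ')
    (hw : ∀ u ∈ w, u.1 ∈ lets σ' ∧ u.1 ≠ a ∧ u.1 ≠ C.ι a)
    (hw' : ∀ u ∈ w', u.1 ∈ lets σ' ∧ u.1 ≠ a ∧ u.1 ≠ C.ι a)
    (hinv : ∀ (Γ : Type) [Group Γ] (χ : L → Γ), evs χ w' = (evs χ w)⁻¹)
    (hval : ∀ (Γ : Type) [Group Γ] (χ χ' : L → Γ), (∀ d, d ≠ a → d ≠ C.ι a → χ' d = χ d) →
      χ' a = χ a * evs χ w → χ' (C.ι a) = evs χ w' * χ (C.ι a) → Kill σ' χ → Kill σ χ')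
    (htyp : ∀ (V : Type) (s' t' : L → V) (y : V), C.Typ σ' s' t' y → ∃ m,
      SPath s' t' (t' a) w m ∧ SPath s' t' m w' (t' a) ∧ ∀ s t : L → V,
        (∀ d, d ≠ a → d ≠ C.ι a → s d = s' d ∧ t d = t' d) → s a = s' a → t a = m →
        s (C.ι a) = m → t (C.ι a) = t' (C.ι a) →
        IsPath s t y σ.1 y ∧ ∀ w ∈ σ.2, ∃ z, IsPath s t z w z) :
    C.Half (K + 1) σ σ' (nfe2U C a w w') (nfe2U C a w' w) := by
  classical
  have h' : ¬ C.H (C.ι a) := fun hh => h (C.ιι a ▸ C.Hι _ hh)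
  have hι : ∀ d, d ≠ a → d ≠ C.ι a → C.ι d ≠ a ∧ C.ι d ≠ C.ι a := fun d h1 h2 =>
    ⟨fun e => h2 (by rw [← e, C.ιι]), fun e => h1 (by rw [← C.ιι d, e, C.ιι])⟩
  refine ⟨fun d => ?_, fun d => ?_, fun d hd => ?_, fun d hd u hu => ?_, fun Γ _ χ hc hk => ?_,
    fun V s' t' y ht => ?_⟩
  · rcases nfe2_cases C a d with rfl | rfl | ⟨h1, h2⟩
    · rw [nfe2_u1]; simpa using hl
    · rw [nfe2_u2]; simpa using hl'
    · rw [nfe2_u3 _ _ h1 h2]; simp
  · rcases nfe2_cases C a d with rfl | rfl | ⟨h1, h2⟩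
    · rw [nfe2_u1]; simp
    · rw [nfe2_u2]; simp
    · rw [nfe2_u3 _ _ h1 h2]; simp
  · exact nfe2_u3 _ _ (fun e => h (e ▸ hd)) fun e => h' (e ▸ hd)
  · rcases nfe2_cases C a d with rfl | rfl | ⟨h1, h2⟩
    · rw [nfe2_u1, List.mem_cons] at hu
      rcases hu with rfl | hu
      · exact hs _ hd
      · exact (hw u hu).1
    · rw [nfe2_u2, List.mem_append, List.mem_singleton] at hu
      rcases hu with hu | rfl
      · exact (hw' u hu).1
      · exact hs _ hd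
    · rw [nfe2_u3 _ _ h1 h2, List.mem_singleton] at hu
      subst hu
      exact hs _ hd
  · have e1 : evs χ (nfe2U C a w w' a) = χ a * evs χ w := by rw [nfe2_u1, evs_cons_true]
    have e2 : evs χ (nfe2U C a w w' (C.ι a)) = evs χ w' * χ (C.ι a) := by
      rw [nfe2_u2, evs_append, evs_cons_true, evs_nil, mul_one]
    have e3 : ∀ d, d ≠ a → d ≠ C.ι a → evs χ (nfe2U C a w w' d) = χ d := fun d h1 h2 => by
      rw [nfe2_u3 _ _ h1 h2, evs_cons_true, evs_nil, mul_one]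
    have e4 : evs (fun d => evs χ (nfe2U C a w w' d)) w = evs χ w :=
      evs_congr fun u hu => e3 _ (hw u hu).2.1 (hw u hu).2.2
    have e5 : evs (fun d => evs χ (nfe2U C a w w' d)) w' = evs χ w' :=
      evs_congr fun u hu => e3 _ (hw' u hu).2.1 (hw' u hu).2.2
    refine ⟨fun d hd => ?_, hval Γ χ _ e3 e1 e2 hk, fun d _ => ?_⟩
    · show evs χ (nfe2U C a w w' (C.ι d)) = (evs χ (nfe2U C a w w' d))⁻¹
      rcases nfe2_cases C a d with rfl | rfl | ⟨h1, h2⟩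
      · rw [e1, e2, hinv, hc _ h, mul_inv_rev]
      · rw [C.ιι, e1, e2, hinv, hc _ h, mul_inv_rev, inv_inv, inv_inv]
      · rw [e3 _ h1 h2, e3 _ (hι d h1 h2).1 (hι d h1 h2).2, hc d hd]
    · rcases nfe2_cases C a d with rfl | rfl | ⟨h1, h2⟩
      · rw [nfe2_u1, evs_cons_true, e5, e1, hinv, mul_inv_cancel_right]
      · rw [nfe2_u2, evs_append, evs_cons_true, evs_nil, mul_one, e4, e2, hinv,
          mul_inv_cancel_left]
      · rw [nfe2_u3 _ _ h1 h2, evs_cons_true, evs_nil, mul_one, e3 _ h1 h2]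
  · obtain ⟨m, p1, p2, hp⟩ := htyp V s' t' y ht
    have a1 : Function.update s' (C.ι a) m a = s' a := Function.update_of_ne (C.ne a).symm _ _
    have a2 : Function.update t' a m a = m := Function.update_self _ _ _
    have a3 : Function.update s' (C.ι a) m (C.ι a) = m := Function.update_self _ _ _
    have a4 : Function.update t' a m (C.ι a) = t' (C.ι a) := Function.update_of_ne (C.ne a) _ _
    have a5 : ∀ d, d ≠ a → d ≠ C.ι a →
        Function.update s' (C.ι a) m d = s' d ∧ Function.update t' a m d = t' d :=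
      fun d h1 h2 => ⟨Function.update_of_ne h2 _ _, Function.update_of_ne h1 _ _⟩
    have b1 := ht.1 a h
    have b2 := ht.1 _ h'
    rw [C.ιι] at b2
    refine ⟨Function.update s' (C.ι a) m, Function.update t' a m,
      ⟨fun d hd => ?_, hp _ _ a5 a1 a2 a3 a4⟩,
      fun d hd => a5 d (fun e => h (e ▸ hd)) fun e => h' (e ▸ hd), fun d _ => ?_, fun d _ => ?_⟩
    · rcases nfe2_cases C a d with rfl | rfl | ⟨h1, h2⟩
      · rw [a2, a3]
      · rw [C.ιι, a4, a1, b2]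
      · rw [(a5 d h1 h2).2, (a5 _ (hι d h1 h2).1 (hι d h1 h2).2).1, ht.1 d hd]
    · rcases nfe2_cases C a d with rfl | rfl | ⟨h1, h2⟩
      · rw [nfe2_u1, a1, a2]
        exact sPath_cons_true.2 ⟨rfl, p1⟩
      · rw [nfe2_u2, a3, a4]
        exact p2.append (sPath_cons_true.2 ⟨b1.symm, sPath_nil.2 rfl⟩)
      · rw [nfe2_u3 _ _ h1 h2, (a5 d h1 h2).1, (a5 d h1 h2).2]
        exact sPath_cons_true.2 ⟨rfl, sPath_nil.2 rfl⟩
    · rcases nfe2_cases C a d with rfl | rfl | ⟨h1, h2⟩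
      · rw [nfe2_u1]
        refine sPath_cons_true.2 ⟨a1, ?_⟩
        rw [a2]
        exact p2.congr fun u hu => a5 _ (hw' u hu).2.1 (hw' u hu).2.2
      · rw [nfe2_u2, ← b1]
        exact (p1.congr fun u hu => a5 _ (hw u hu).2.1 (hw u hu).2.2).append
          (sPath_cons_true.2 ⟨a3, sPath_nil.2 a4⟩)
      · rw [nfe2_u3 _ _ h1 h2]
        exact sPath_cons_true.2 ⟨(a5 d h1 h2).1, sPath_nil.2 (a5 d h1 h2).2⟩

theorem nfe2_ne {X P Y Z : List L} {a b : L} {ws : List (List L)}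
    (hn : (lets (X ++ a :: P ++ Y ++ b :: Z, ws)).Nodup) :
    (∀ d ∈ X, d ≠ a ∧ d ≠ b) ∧ (∀ d ∈ P, d ≠ a ∧ d ≠ b) ∧ (∀ d ∈ Y, d ≠ a ∧ d ≠ b) ∧
      (∀ d ∈ Z, d ≠ a ∧ d ≠ b) ∧ ∀ w ∈ ws, ∀ d ∈ w, d ≠ a ∧ d ≠ b := by
  classical
  have h1 := List.nodup_iff_count_le_one.1 hn a
  have h2 := List.nodup_iff_count_le_one.1 hn b
  simp only [lets, List.count_append, List.count_cons, beq_self_eq_true, if_true] at h1 h2
  have key : ∀ W : List L, W.count a = 0 → W.count b = 0 → ∀ d ∈ W, d ≠ a ∧ d ≠ b :=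
    fun W c1 c2 d hd => ⟨fun e => List.count_eq_zero.1 c1 (e ▸ hd),
      fun e => List.count_eq_zero.1 c2 (e ▸ hd)⟩
  exact ⟨key X (by omega) (by omega), key P (by omega) (by omega), key Y (by omega) (by omega),
    key Z (by omega) (by omega),
    fun w hw d hd => key ws.flatten (by omega) (by omega) d (List.mem_flatten.2 ⟨w, hw, hd⟩)⟩

theorem rch_e2 (X P Y Z : List L) (a : L) (ws : List (List L)) (h : ¬ C.H a)
    (hn : (lets (X ++ a :: P ++ Y ++ C.ι a :: Z, ws)).Nodup) :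
    C.Rch (P.length + 1) (X ++ a :: P ++ Y ++ C.ι a :: Z, ws)
      (X ++ a :: Y ++ P ++ C.ι a :: Z, ws) := by
  obtain ⟨hX, hP, hY, hZ, hW⟩ := nfe2_ne hn
  have hrv : ∀ u ∈ rv (pos P), u.1 ∈ P := fun u hu => by
    obtain ⟨u', hu', e⟩ := mem_rv hu
    exact e ▸ mem_pos hu'
  have m1 : ∀ d ∈ P, d ∈ lets (X ++ a :: P ++ Y ++ C.ι a :: Z, ws) := fun d hd => by
    simp [lets, hd]
  have m2 : ∀ d ∈ P, d ∈ lets (X ++ a :: Y ++ P ++ C.ι a :: Z, ws) := fun d hd => by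
    simp [lets, hd]
  have hmap : ∀ {Γ : Type} {χ χ' : L → Γ}, (∀ d, d ≠ a → d ≠ C.ι a → χ' d = χ d) →
      ∀ W : List L, (∀ d ∈ W, d ≠ a ∧ d ≠ C.ι a) → W.map χ' = W.map χ :=
    fun e W hW => List.map_congr_left fun d hd => e d (hW d hd).1 (hW d hd).2
  have hpa : ∀ {V : Type} {s t s' t' : L → V} {x y : V} {W : List L},
      (∀ d, d ≠ a → d ≠ C.ι a → s d = s' d ∧ t d = t' d) → (∀ d ∈ W, d ≠ a ∧ d ≠ C.ι a) →
      IsPath s' t' x W y → IsPath s t x W y :=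
    fun e hW hp => isPath_congr (fun d hd => e d (hW d hd).1 (hW d hd).2) hp
  refine ⟨nfe2U C a (rv (pos P)) (pos P), nfe2U C a (pos P) (rv (pos P)),
    nfe2_half h (by simp) (by simp) (fun d hd => ?_)
      (fun u hu => ⟨m2 _ (hrv u hu), hP _ (hrv u hu)⟩)
      (fun u hu => ⟨m2 _ (mem_pos hu), hP _ (mem_pos hu)⟩) (fun Γ _ χ => by simp)
      (fun Γ _ χ χ' e e1 e2 hk => ⟨?_, fun w hw => ?_⟩) (fun V s' t' y ht => ?_),
    nfe2_half h (by simp) (by simp) (fun d hd => ?_)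
      (fun u hu => ⟨m1 _ (mem_pos hu), hP _ (mem_pos hu)⟩)
      (fun u hu => ⟨m1 _ (hrv u hu), hP _ (hrv u hu)⟩) (fun Γ _ χ => by simp)
      (fun Γ _ χ χ' e e1 e2 hk => ⟨?_, fun w hw => ?_⟩) (fun V s' t' y ht => ?_)⟩
  · simp only [lets, List.mem_append, List.mem_cons] at hd ⊢
    tauto
  · have h1 := hk.1
    simp only [List.map_append, List.map_cons, List.prod_append, List.prod_cons, e1, e2,
      hmap e X hX, hmap e P hP, hmap e Y hY, hmap e Z hZ, evs_rv, evs_pos] at h1 ⊢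
    rw [← h1]
    group
  · rw [hmap e w (hW w hw)]
    exact hk.2 w hw
  · obtain ⟨b, hp, hws⟩ := ht
    simp only [isPath_append, isPath_cons] at hp
    obtain ⟨y₂, ⟨y₁, ⟨x₁, pX, ea, pY⟩, pP⟩, eb, pZ⟩ := hp
    have b1 : t' a = y₂ := (b a h).trans eb
    refine ⟨y₁, b1 ▸ (sPath_pos.2 pP).rv, b1 ▸ sPath_pos.2 pP, fun s t e c1 c2 c3 c4 =>
      ⟨?_, fun w hw => (hws w hw).imp fun z hz => hpa e (hW w hw) hz⟩⟩
    simp only [isPath_append, isPath_cons]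
    exact ⟨y₁, ⟨y₂, ⟨x₁, hpa e hX pX, c1.trans ea, c2 ▸ hpa e hP pP⟩, b1 ▸ hpa e hY pY⟩, c3,
      c4 ▸ hpa e hZ pZ⟩
  · simp only [lets, List.mem_append, List.mem_cons] at hd ⊢
    tauto
  · have h1 := hk.1
    simp only [List.map_append, List.map_cons, List.prod_append, List.prod_cons, e1, e2,
      hmap e X hX, hmap e P hP, hmap e Y hY, hmap e Z hZ, evs_rv, evs_pos] at h1 ⊢
    rw [← h1]
    group
  · rw [hmap e w (hW w hw)]
    exact hk.2 w hw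
  · obtain ⟨b, hp, hws⟩ := ht
    simp only [isPath_append, isPath_cons] at hp
    obtain ⟨y₂, ⟨y₁, ⟨x₁, pX, ea, pP⟩, pY⟩, eb, pZ⟩ := hp
    have b1 : t' a = y₂ := (b a h).trans eb
    refine ⟨y₁, sPath_pos.2 pP, (sPath_pos.2 pP).rv, fun s t e c1 c2 c3 c4 =>
      ⟨?_, fun w hw => (hws w hw).imp fun z hz => hpa e (hW w hw) hz⟩⟩
    simp only [isPath_append, isPath_cons]
    exact ⟨y₁, ⟨y₂, ⟨x₁, hpa e hX pX, c1.trans ea, c2 ▸ hpa e hY pY⟩, b1 ▸ hpa e hP pP⟩, c3,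
      c4 ▸ hpa e hZ pZ⟩

end Pool.Agent.MC.NF
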