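import Pool.Agent.P.MP_2677b3_gt.NfKG

namespace Pool.Agent.MC.NF

variable {M : CMap} {H : M.D → Prop} {G : GS} {n K : ℕ} (g : GD M H G n K)

theorem GD.fv_cs (d : M.D) : g.FG (g.lab.reg d) (some (cs M H d)) = g.fv (M.gd.src d) := by
  rcases cs_cases (H := H) d with ⟨β, hβ, -, e, hc⟩ | ⟨hi, hc⟩
  · have h : ∃ d', H d' ∧ M.gd.src d' = M.gd.src d := ⟨β, hβ, e⟩
    rw [hc, g.FG_H _ hβ]
    refine Eq.trans ?_ (dif_pos h).symm
    exact congrArg Sum.inr (vtx_cuf g.lab hβ h.choose_spec.1 (e.trans h.choose_spec.2.symm))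
  · have h : ¬ ∃ d', H d' ∧ M.gd.src d' = M.gd.src d := by
      rintro ⟨d', hd', e⟩
      obtain ⟨k, rfl⟩ := src_eq_iff.1 e.symm
      exact hi k hd'
    rw [hc]
    refine Eq.trans ?_ (dif_neg h).symm
    exact congrArg Sum.inl (reg_inner g.lab hi (Quotient.out_eq _).symm)

theorem GD.fe_eq {d : M.D} {x : G.X} (h : g.lab.reg d = x) :
    g.fe d = sgn G.gd (g.pG x) ((g.rd x).Ψ (.inl d)) := by
  subst h; rfl

theorem GD.fe_H {d : M.D} (h : H d) (x : G.X) : g.fe d = g.pG x (.inl d) := by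
  rw [GD.fe, (g.rd _).h1.idH (.inl d) h, g.pG_H x h, ← g.pG_H (g.lab.reg d) h]
  simp [sgn]

theorem GD.fe_path (d : M.D) :
    G.gd.Path (g.fv (M.gd.src d)) (g.fe d) (g.fv (M.gd.src (M.α d))) := by
  have hl : Sum.inl d ∈ lets (st0 M H (g.d₀ (g.lab.reg d))) :=
    (mem_st0 _ _).2 (Or.inr ⟨d, rfl, (g.same_iff _ d).2 rfl⟩)
  have h := ((g.rd _).tΨ _ hl).sgn (π := g.pG (g.lab.reg d)) (g.FG (g.lab.reg d)) fun u hu =>
    g.pathG (by simpa [lets] using (g.rd _).h1.sup _ hl u hu)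
  have e1 := g.fv_cs d
  have e2 := g.fv_cs (M.φ d)
  rw [reg_φ, src_φ] at e2
  exact e1 ▸ (e2 : _ = g.fv (M.gd.src (M.α d))) ▸ h

theorem GD.fe_len (d : M.D) : (g.fe d).length ≤ K :=
  (length_sgn (g.length_pG _) _).trans ((g.rd _).h1.len _)

theorem GD.fe_inv (d : M.D) : G.gd.ev (g.fe (M.α d)) = (G.gd.ev (g.fe d))⁻¹ := by
  by_cases h : H d
  · rw [g.fe_H (g.lab.Hα d h) (g.lab.reg d), g.fe_H h (g.lab.reg d), g.pG_H _ h,
      g.pG_H _ (g.lab.Hα d h), g.lab.cuf_α d h]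
    by_cases hm : g.cd.mark d
    · rw [if_pos hm, if_pos ((g.cd.mark_α d h).2 hm)]
      have h1 : ∀ e : G.gd.E, G.gd.ev [e] = G.gd.val e := fun e => by simp [Gd.ev]
      exact (h1 _).trans ((G.gd.val_inv (.inr (.inr (g.lab.cuf d h)))).trans
        (congrArg Inv.inv (h1 _).symm))
    · rw [if_neg hm, if_neg fun h' => hm ((g.cd.mark_α d h).1 h')]
      simp [Gd.ev]
  · rw [g.fe_eq (reg_α g.lab h), g.fe_eq (d := d) rfl, ev_sgn, ev_sgn]
    exact ((g.rd _).h1.val _ _ (g.compatG _) (g.killG _)).1 (.inl d) h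

theorem nff_reg (lab : Lab M H G n) (d : M.D) (i : ℕ) : lab.reg (M.φ^[i] d) = lab.reg d := by
  induction i with
  | zero => rfl
  | succ i ih => rw [Function.iterate_succ_apply', reg_φ, ih]

theorem GD.fe_face (d : M.D) (k : ℕ) (h : M.φ^[k] d = d) :
    G.gd.ev ((orbL M.φ d k).flatMap g.fe) = 1 := by
  obtain ⟨h1, h2, -⟩ := (g.rd (g.lab.reg d)).h1.val _ _ (g.compatG _) (g.killG _)
  rw [Gd.ev_flatMap, ← (kill_st0 g.lab.Hα _ h1).1 h2 d k ((g.same_iff _ d).2 rfl) h]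
  congr 1
  refine List.map_congr_left fun d' hd' => ?_
  obtain ⟨i, -, rfl⟩ := List.mem_map.1 hd'
  rw [g.fe_eq (nff_reg g.lab d i), ev_sgn]

end Pool.Agent.MC.NF
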