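import Pool.Agent.P.MP_2677b3_gt.NfDefs

namespace Pool.Agent.MC.NF

variable {L : Type} (C : Ctx L)

theorem nfpair_notH {a : L} (h : ¬ C.H a) : ¬ C.H (C.ι a) := fun h' => h (C.ιι a ▸ C.Hι _ h')

theorem nfpair_ind (R : List L) (hnd : R.Nodup) (hcl : ∀ d ∈ R, ¬ C.H d → C.ι d ∈ R) (n : ℕ) :
    ∀ (R₀ : List L) (a : L) (P R₁ : List L), P.length < n → ¬ C.H a →
      R = R₀ ++ a :: P ++ C.ι a :: R₁ →
    (∃ R₀ a P R₁, ¬ C.H a ∧ (∀ d ∈ P, C.H d) ∧ R = R₀ ++ a :: P ++ C.ι a :: R₁) ∨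
    ∃ S₀ a P b Q R' S₁, ¬ C.H a ∧ ¬ C.H b ∧
      R = S₀ ++ a :: P ++ b :: Q ++ C.ι a :: R' ++ C.ι b :: S₁ := by
  induction n with
  | zero => intro R₀ a P R₁ h; omega
  | succ n ih =>
    intro R₀ a P R₁ hlen ha hR
    by_cases hP : ∀ d ∈ P, C.H d
    · exact Or.inl ⟨R₀, a, P, R₁, ha, hP, hR⟩
    push Not at hP
    obtain ⟨b, hbP, hb⟩ := hP
    obtain ⟨P₁, P₂, rfl⟩ := List.append_of_mem hbP
    have hb' := nfpair_notH C hb
    have hm := hcl b (by rw [hR]; simp) hb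
    rw [hR] at hm
    simp only [List.mem_append, List.mem_cons] at hm
    simp only [List.length_append, List.length_cons] at hlen
    rcases hm with (hm | hm | hm | hm | hm) | hm | hm
    · obtain ⟨A, B, rfl⟩ := List.append_of_mem hm
      exact Or.inr ⟨A, C.ι b, B, a, P₁, P₂, R₁, hb', ha, by rw [hR, C.ιι]; simp⟩
    · exfalso
      have e : C.ι a = b := by rw [← hm, C.ιι]
      rw [hR, e] at hnd
      have := (List.nodup_append.1 hnd).2.2 b (by simp) b (by simp)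
      exact this rfl
    · obtain ⟨A, B, rfl⟩ := List.append_of_mem hm
      simp only [List.length_append, List.length_cons] at hlen
      exact ih (R₀ ++ a :: A) (C.ι b) B (P₂ ++ C.ι a :: R₁) (by omega) hb'
        (by rw [hR, C.ιι]; simp)
    · exact absurd hm (C.ne b)
    · obtain ⟨A, B, rfl⟩ := List.append_of_mem hm
      simp only [List.length_append, List.length_cons] at hlen
      exact ih (R₀ ++ a :: P₁) b A (B ++ C.ι a :: R₁) (by omega) hb (by rw [hR]; simp)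
    · exfalso
      have e : b = a := by rw [← C.ιι b, hm, C.ιι]
      rw [hR, e] at hnd
      have := (List.nodup_append.1 (List.nodup_append.1 hnd).1).2.1
      exact (List.nodup_cons.1 this).1 (by simp)
    · obtain ⟨A, B, rfl⟩ := List.append_of_mem hm
      exact Or.inr ⟨R₀, a, P₁, b, P₂, A, B, ha, hb, by rw [hR]; simp⟩

theorem pair_cases (R : List L) (hnd : R.Nodup) (hcl : ∀ d ∈ R, ¬ C.H d → C.ι d ∈ R) :
    (∀ d ∈ R, C.H d) ∨
    (∃ R₀ a P R₁, ¬ C.H a ∧ (∀ d ∈ P, C.H d) ∧ R = R₀ ++ a :: P ++ C.ι a :: R₁) ∨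
    ∃ S₀ a P b Q R' S₁, ¬ C.H a ∧ ¬ C.H b ∧
      R = S₀ ++ a :: P ++ b :: Q ++ C.ι a :: R' ++ C.ι b :: S₁ := by
  by_cases hR : ∀ d ∈ R, C.H d
  · exact Or.inl hR
  right
  push Not at hR
  obtain ⟨a, haR, ha⟩ := hR
  have hm := hcl a haR ha
  obtain ⟨A, B, e⟩ := List.append_of_mem haR
  rw [e] at hm
  simp only [List.mem_append, List.mem_cons] at hm
  rcases hm with hm | hm | hm
  · obtain ⟨X, Y, rfl⟩ := List.append_of_mem hm
    exact nfpair_ind C R hnd hcl _ X (C.ι a) Y B (Nat.lt_succ_self _) (nfpair_notH C ha)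
      (by rw [e, C.ιι])
  · exact absurd hm (C.ne a)
  · obtain ⟨X, Y, rfl⟩ := List.append_of_mem hm
    exact nfpair_ind C R hnd hcl _ A a X Y (Nat.lt_succ_self _) ha (by rw [e]; simp)

end Pool.Agent.MC.NF
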