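import Pool.Agent.P.MP_2677b3_gt.NfSt
import Pool.Agent.P.MP_2677b3_gt.NfPair

namespace Pool.Agent.MC.NF

variable {L : Type} {C : Ctx L}

theorem nfhd_e1 {u v : List L} (X P Y Z : List L) {a : L} (ws : List (List L)) (ha : ¬ C.H a)
    (hu : u = X ++ P ++ a :: Y ++ C.ι a :: Z) (hv : v = X ++ a :: Y ++ C.ι a :: P ++ Z) :
    C.Mv (u, ws) (v, ws) := by
  subst hu hv
  exact Ctx.Mv.e1 X P Y Z a ws ha

theorem nfhd_e2 {u v : List L} (X P Y Z : List L) {a : L} (ws : List (List L)) (ha : ¬ C.H a)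
    (hu : u = X ++ a :: P ++ Y ++ C.ι a :: Z) (hv : v = X ++ a :: Y ++ P ++ C.ι a :: Z) :
    C.Mv (u, ws) (v, ws) := by
  subst hu hv
  exact Ctx.Mv.e2 X P Y Z a ws ha

theorem handle_steps (X S₀ P Q R S₁ : List L) (a b : L) (ws : List (List L)) (ha : ¬ C.H a)
    (hb : ¬ C.H b) :
    C.Steps 10 (X ++ S₀ ++ a :: P ++ b :: Q ++ C.ι a :: R ++ C.ι b :: S₁, ws)
      (X ++ [a, b, C.ι a, C.ι b] ++ S₀ ++ R ++ Q ++ P ++ S₁, ws) := by
  refine .step (nfhd_e1 (X ++ S₀ ++ [a]) P (Q ++ C.ι a :: R) S₁ ws hb (by simp) rfl) ?_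
  refine .step (nfhd_e2 (X ++ S₀) [b] Q (R ++ C.ι b :: P ++ S₁) ws ha (by simp) rfl) ?_
  refine .step (nfhd_e1 (X ++ S₀ ++ [a]) Q (C.ι a :: R) (P ++ S₁) ws hb (by simp) rfl) ?_
  refine .step (nfhd_e2 (X ++ S₀ ++ [a]) [C.ι a] R (Q ++ P ++ S₁) ws hb (by simp) rfl) ?_
  refine .step (nfhd_e2 (X ++ S₀) [b] R (C.ι b :: Q ++ P ++ S₁) ws ha (by simp) rfl) ?_
  refine .step (nfhd_e1 (X ++ S₀ ++ [a]) R [C.ι a] (Q ++ P ++ S₁) ws hb (by simp) rfl) ?_
  refine .step (nfhd_e1 X S₀ [b] (C.ι b :: R ++ Q ++ P ++ S₁) ws ha (by simp) rfl) ?_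
  refine .step (nfhd_e2 (X ++ [a]) [C.ι a] S₀ (R ++ Q ++ P ++ S₁) ws hb (by simp) rfl) ?_
  refine .step (nfhd_e2 X [b] S₀ (C.ι b :: R ++ Q ++ P ++ S₁) ws ha (by simp) rfl) ?_
  exact steps_one (nfhd_e1 (X ++ [a]) S₀ [C.ι a] (R ++ Q ++ P ++ S₁) ws hb (by simp) (by simp))

theorem nfhd_rest {R E R' : List L} (hp : R.Perm (E ++ R')) (hnd : R.Nodup)
    (hcl : ∀ d ∈ R, ¬ C.H d → C.ι d ∈ R) (hE : ∀ d, ¬ C.H d → C.ι d ∈ E → d ∈ E) :
    R'.Nodup ∧ ∀ d ∈ R', ¬ C.H d → C.ι d ∈ R' := by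
  have h1 : (E ++ R').Nodup := hp.nodup_iff.1 hnd
  refine ⟨h1.of_append_right, fun d hd hH => ?_⟩
  have h2 : C.ι d ∈ E ++ R' :=
    hp.mem_iff.1 (hcl d (hp.mem_iff.2 (List.mem_append_right _ hd)) hH)
  rcases List.mem_append.1 h2 with h | h
  · exact absurd rfl ((List.nodup_append.1 h1).2.2 d (hE d hH h) d hd)
  · exact h

theorem nfhd_inj {d a : L} (h : C.ι d = C.ι a) : d = a := by
  rw [← C.ιι d, h, C.ιι]

theorem nfhd_swap {d a : L} (h : C.ι d = a) : d = C.ι a := by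
  rw [← h, C.ιι]

theorem nfhd_main (n : ℕ) : ∀ (R : List L) (hs : List (L × L)) (sg : List (L × List L)),
    R.length ≤ n → C.Shape hs sg → R.Nodup → (∀ d ∈ R, ¬ C.H d → C.ι d ∈ R) →
    ∃ hs' sg' R', C.Shape hs' sg' ∧ (∀ d ∈ R', C.H d) ∧
      C.Steps (10 * n) (C.word hs sg ++ R, []) (C.word hs' sg' ++ R', []) := by
  classical
  induction n with
  | zero =>
    intro R hs sg hl hsh _ _
    obtain rfl : R = [] := List.length_eq_zero_iff.1 (Nat.le_zero.1 hl)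
    exact ⟨hs, sg, [], hsh, by simp, .refl _ _⟩
  | succ n ih =>
    intro R hs sg hl hsh hnd hcl
    rcases pair_cases C R hnd hcl with h | ⟨R₀, a, P, R₁, ha, hP, rfl⟩ |
      ⟨S₀, a, P, b, Q, R', S₁, ha, hb, rfl⟩
    · exact ⟨hs, sg, R, hsh, h, .refl _ _⟩
    · have hp : (R₀ ++ a :: P ++ C.ι a :: R₁).Perm ((a :: C.ι a :: P) ++ (R₀ ++ R₁)) := by
        rw [List.perm_iff_count]
        intro x
        simp only [List.count_append, List.count_cons]
        omega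
      obtain ⟨h1, h2⟩ := nfhd_rest hp hnd hcl (by
        intro d hd hm
        simp only [List.mem_cons] at hm ⊢
        rcases hm with h | h | h
        · exact Or.inr (Or.inl (nfhd_swap h))
        · exact Or.inl (nfhd_inj h)
        · exact absurd (C.ιι d ▸ C.Hι _ (hP _ h)) hd)
      have hsh' : C.Shape hs (sg ++ [(a, P)]) := by
        refine ⟨hsh.1, fun u hu => ?_⟩
        rcases List.mem_append.1 hu with h | h
        · exact hsh.2 u h
        · obtain rfl := List.mem_singleton.1 h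
          exact ⟨ha, hP⟩
      obtain ⟨hs', sg', R', e1, e2, e3⟩ := ih (R₀ ++ R₁) hs (sg ++ [(a, P)])
        (by simp only [List.length_append, List.length_cons] at hl ⊢; omega) hsh' h1 h2
      refine ⟨hs', sg', R', e1, e2, steps_mono (.step
        (nfhd_e1 (C.word hs sg) R₀ P R₁ [] ha (by simp) (by simp [Ctx.word])) e3) (by omega)⟩
    · have hp : (S₀ ++ a :: P ++ b :: Q ++ C.ι a :: R' ++ C.ι b :: S₁).Perm
          ([a, b, C.ι a, C.ι b] ++ (S₀ ++ R' ++ Q ++ P ++ S₁)) := by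
        rw [List.perm_iff_count]
        intro x
        simp only [List.count_append, List.count_cons, List.count_nil]
        omega
      obtain ⟨h1, h2⟩ := nfhd_rest hp hnd hcl (by
        intro d _ hm
        simp only [List.mem_cons, List.not_mem_nil, or_false] at hm ⊢
        rcases hm with h | h | h | h
        · exact Or.inr (Or.inr (Or.inl (nfhd_swap h)))
        · exact Or.inr (Or.inr (Or.inr (nfhd_swap h)))
        · exact Or.inl (nfhd_inj h)
        · exact Or.inr (Or.inl (nfhd_inj h)))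
      have hsh' : C.Shape (hs ++ [(a, b)]) sg := by
        refine ⟨fun u hu => ?_, hsh.2⟩
        rcases List.mem_append.1 hu with h | h
        · exact hsh.1 u h
        · obtain rfl := List.mem_singleton.1 h
          exact ⟨ha, hb⟩
      obtain ⟨hs', sg', R'', e1, e2, e3⟩ := ih (S₀ ++ R' ++ Q ++ P ++ S₁) (hs ++ [(a, b)]) sg
        (by simp only [List.length_append, List.length_cons] at hl ⊢; omega) hsh' h1 h2
      have hh := handle_steps (hs.flatMap fun u => [u.1, u.2, C.ι u.1, C.ι u.2])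
        (sg.flatMap (fun u => u.1 :: u.2 ++ [C.ι u.1]) ++ S₀) P Q R' S₁ a b [] ha hb
      have q1 : C.word hs sg ++ (S₀ ++ a :: P ++ b :: Q ++ C.ι a :: R' ++ C.ι b :: S₁) =
          (hs.flatMap fun u => [u.1, u.2, C.ι u.1, C.ι u.2]) ++
            (sg.flatMap (fun u => u.1 :: u.2 ++ [C.ι u.1]) ++ S₀) ++ a :: P ++ b :: Q ++
              C.ι a :: R' ++ C.ι b :: S₁ := by simp [Ctx.word]
      have q2 : (hs.flatMap fun u => [u.1, u.2, C.ι u.1, C.ι u.2]) ++ [a, b, C.ι a, C.ι b] ++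
          (sg.flatMap (fun u => u.1 :: u.2 ++ [C.ι u.1]) ++ S₀) ++ R' ++ Q ++ P ++ S₁ =
          C.word (hs ++ [(a, b)]) sg ++ (S₀ ++ R' ++ Q ++ P ++ S₁) := by simp [Ctx.word]
      rw [← q1, q2] at hh
      exact ⟨hs', sg', R'', e1, e2, steps_mono (steps_trans hh e3) (by omega)⟩

theorem nf_steps (w : List L) (hw : C.WF (w, [])) : ∃ hs sg R, C.Shape hs sg ∧
    (∀ d ∈ R, C.H d) ∧ C.Steps (10 * w.length) (w, []) (C.word hs sg ++ R, []) := by
  have h1 : lets ((w, []) : St L) = w := by simp [lets]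
  have h2 := hw.1
  have h3 := hw.2
  rw [h1] at h2 h3
  have := nfhd_main (C := C) w.length w [] [] le_rfl ⟨by simp, by simp⟩ h2 h3
  obtain ⟨hs, sg, R, e1, e2, e3⟩ := this
  exact ⟨hs, sg, R, e1, e2, e3⟩

end Pool.Agent.MC.NF
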