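import Pool.Agent.P.MP_2677b3_gt.NfName

namespace Pool.Agent.MC.NF

variable {M : CMap} {H : M.D → Prop} {G : GS} {n K : ℕ} (g : GD M H G n K)

theorem nfkg_empty (x : G.X) {l : M.D ⊕ Bool} (hl : ¬ g.C.H l)
    (hn : ¬ ∃ E, ow G E = some x ∧ g.nu E = l) : g.pG x l = [] := by
  unfold GD.pG
  rw [dif_neg hn]
  rcases l with d | b
  · have h1 : ¬ H d := hl
    simp only [Sum.elim_inl]
    rw [dif_neg fun h => h1 h.1]
  · rfl

theorem nfkg_ev_nu {E : G.Ed} {x : G.X} (h : ow G E = some x) :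
    G.gd.ev (g.pG x (g.nu E)) = G.gd.val E := by
  rw [g.pG_nu h]
  exact (Gd.ev_cons (A := G.gd) E []).trans (mul_one _)

theorem GD.compatG (x : G.X) : g.C.Compat fun l => G.gd.ev (g.pG x l) := by
  intro l hl
  by_cases hn : ∃ E, ow G E = some x ∧ g.nu E = l
  · obtain ⟨E, hE, rfl⟩ := hn
    obtain ⟨h1, h2⟩ := g.nu_inv hE
    show G.gd.ev (g.pG x (g.C.ι (g.nu E))) = (G.gd.ev (g.pG x (g.nu E)))⁻¹
    rw [← h2, nfkg_ev_nu g h1, nfkg_ev_nu g hE]
    exact G.gd.val_inv E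
  · have hn' : ¬ ∃ E, ow G E = some x ∧ g.nu E = g.C.ι l := by
      rintro ⟨E, hE, h3⟩
      obtain ⟨h1, h2⟩ := g.nu_inv hE
      exact hn ⟨G.inv E, h1, by rw [h2, h3, g.C.ιι]⟩
    show G.gd.ev (g.pG x (g.C.ι l)) = (G.gd.ev (g.pG x l))⁻¹
    rw [nfkg_empty g x hl hn, nfkg_empty g x (not_H_ι hl) hn']
    simp

theorem GD.prod_cyc (x : G.X) (c : G.C) :
    ((cyc M H (g.cd.β c)).map fun d => G.gd.ev (g.pG x (.inl d))).prod =
      G.gd.val (.inr (.inr c)) := by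
  obtain ⟨P, Q, d, h1, h2, h3⟩ := g.cd.mark_one c
  have hm : ∀ d' ∈ P ++ d :: Q, ∃ h : H d', g.lab.cuf d' h = c := fun d' hd' => by
    have h4 := (mem_cyc g.lab (g.cd.β_H c)).1 (h1 ▸ hd')
    exact ⟨h4.1, h4.2.trans (g.cd.β_cuf c)⟩
  have h0 : ∀ w : List M.D, (∀ d' ∈ w, H d' ∧ ¬ g.cd.mark d') →
      (w.map fun d => G.gd.ev (g.pG x (.inl d))).prod = 1 := fun w hw => by
    refine List.prod_eq_one fun y hy => ?_
    obtain ⟨d', hd', rfl⟩ := List.mem_map.1 hy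
    rw [g.pG_H x (hw d' hd').1, if_neg (hw d' hd').2]
    rfl
  have hP := h0 P fun d' hd' => ⟨(hm d' (by simp [hd'])).1, h3 d' (by simp [hd'])⟩
  have hQ := h0 Q fun d' hd' => ⟨(hm d' (by simp [hd'])).1, h3 d' (by simp [hd'])⟩
  have hd := hm d (by simp)
  rw [h1, List.map_append, List.map_cons, List.prod_append, List.prod_cons, hP, hQ, one_mul,
    mul_one, g.pG_H x hd.1, if_pos h2, hd.2]
  exact (Gd.ev_cons (A := G.gd) _ []).trans (mul_one _)

theorem nfkg_ev4 (A : Gd) (a b : A.E) :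
    A.ev [a, b, A.inv a, A.inv b] = A.val a * A.val b * (A.val a)⁻¹ * (A.val b)⁻¹ := by
  simp [A.val_inv, mul_assoc]

theorem nfkg_ev3 (A : Gd) (a b : A.E) :
    A.ev [a, b, A.inv a] = A.val a * A.val b * (A.val a)⁻¹ := by
  simp [A.val_inv, mul_assoc]

theorem nfkg_handles (x : G.X) :
    ((g.hs x).map fun u => G.gd.ev (g.pG x u.1) * G.gd.ev (g.pG x u.2) *
      (G.gd.ev (g.pG x u.1))⁻¹ * (G.gd.ev (g.pG x u.2))⁻¹) =
    (List.finRange (G.h x)).map fun i => G.gd.ev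
      ([.inl ⟨x, i, true, true⟩, .inl ⟨x, i, false, true⟩, .inl ⟨x, i, true, false⟩,
        .inl ⟨x, i, false, false⟩] : List G.Ed) := by
  refine List.ext_getElem (by simp [g.hlen]) fun i h1 h2 => ?_
  have hi : i < (g.hs x).length := by simpa using h1
  have hi' : i < G.h x := g.hlen x ▸ hi
  have e1 : g.nu (.inl ⟨x, ⟨i, hi'⟩, true, true⟩) = ((g.hs x)[i]).1 := by
    show ((g.hs x).getD i (.inr true, .inr true)).1 = _
    rw [List.getD_eq_getElem _ _ hi]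
  have e2 : g.nu (.inl ⟨x, ⟨i, hi'⟩, false, true⟩) = ((g.hs x)[i]).2 := by
    show ((g.hs x).getD i (.inr true, .inr true)).2 = _
    rw [List.getD_eq_getElem _ _ hi]
  rw [List.getElem_map, List.getElem_map, List.getElem_finRange, ← e1, ← e2,
    nfkg_ev_nu g rfl, nfkg_ev_nu g rfl]
  exact (nfkg_ev4 G.gd (.inl ⟨x, ⟨i, hi'⟩, true, true⟩) (.inl ⟨x, ⟨i, hi'⟩, false, true⟩)).symm

theorem nfkg_cuff {x : G.X} {c : G.C} (hc : c ∈ G.ord x) :
    G.gd.ev (g.pG x (g.es c)) *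
      (((cyc M H (g.cd.β c)).map Sum.inl).map fun l => G.gd.ev (g.pG x l)).prod *
      (G.gd.ev (g.pG x (g.es c)))⁻¹ =
    G.gd.ev ([.inr (.inl (c, true)), .inr (.inr c), .inr (.inl (c, false))] : List G.Ed) := by
  have h1 : ow G (.inr (.inl (c, true))) = some x := congrArg some ((G.mem_ord x c).1 hc)
  have h2 : G.gd.ev (g.pG x (g.es c)) = G.gd.val (.inr (.inl (c, true))) := nfkg_ev_nu g h1
  have h3 : (((cyc M H (g.cd.β c)).map Sum.inl).map fun l => G.gd.ev (g.pG x l)).prod =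
      G.gd.val (.inr (.inr c)) := by
    rw [List.map_map]
    exact g.prod_cyc x c
  rw [h2, h3]
  exact (nfkg_ev3 G.gd (.inr (.inl (c, true))) (.inr (.inr c))).symm

theorem GD.killG (x : G.X) : Kill (g.W x, []) fun l => G.gd.ev (g.pG x l) := by
  refine ⟨?_, fun w hw => absurd hw List.not_mem_nil⟩
  have h1 := prod_word (g.compatG x) (g.rd x).shape
  refine h1.trans ?_
  have h2 : G.gd.ev (G.rel x) = 1 := pres_rel (R := Set.range G.rel) ⟨x, rfl⟩
  have h3 := (congrArg₂ (· * ·) (Gd.ev_flatMap (A := G.gd) _ _)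
    (Gd.ev_flatMap (A := G.gd) _ _)).symm.trans ((Gd.ev_append (A := G.gd) _ _).symm.trans h2)
  replace h3 := (congrArg (fun l : List G.gd.U => l.prod * _) (nfkg_handles g x)).trans h3
  rw [List.map_append, List.prod_append, List.map_map, List.map_map]
  have h4 : ((g.pend x).map ((fun u : (M.D ⊕ Bool) × List (M.D ⊕ Bool) =>
      G.gd.ev (g.pG x u.1) * (u.2.map fun l => G.gd.ev (g.pG x l)).prod *
        (G.gd.ev (g.pG x u.1))⁻¹) ∘ fun p => (p, []))).prod = 1 := by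
    refine List.prod_eq_one fun y hy => ?_
    obtain ⟨p, -, rfl⟩ := List.mem_map.1 hy
    simp
  rw [h4, mul_one]
  refine Eq.trans ?_ h3
  refine congrArg _ (congrArg List.prod (List.map_congr_left fun c hc => ?_))
  exact nfkg_cuff g hc

theorem nfkg_src {E : G.Ed} {x : G.X} (h : ow G E = some x) :
    g.FG x ((g.rd x).s (g.nu E)) = G.src E := by
  rcases (g.s_nu h).2 with ⟨h1, h2⟩ | ⟨c, h1, h2⟩
  · rw [h1, h2]
    rfl
  · rw [h1, h2]
    rw [g.FG_H x (g.cd.β_H c), g.cd.β_cuf]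

theorem GD.pathG {x : G.X} {l : M.D ⊕ Bool} (h : l ∈ g.W x) :
    G.gd.Path (g.FG x ((g.rd x).s l)) (g.pG x l) (g.FG x ((g.rd x).t l)) := by
  rcases g.mem_W h with ⟨E, hE, rfl⟩ | ⟨d, rfl, hd, -⟩ | ⟨p, hp, hl⟩
  · rw [g.pG_nu hE, (g.s_nu hE).1, nfkg_src g hE, nfkg_src g (g.nu_inv hE).1]
    exact G.gd.path_single E
  · obtain ⟨h1, h2⟩ := (g.rd x).agree d hd
    have h3 : g.FG x (some (.inl (M.bd H d))) = g.FG x (some (.inl d)) := by
      rw [g.FG_H x hd, g.FG_H x (bd_H g.lab.Hα hd).1, cuf_bd g.lab hd]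
    rw [h1, h2, h3, g.pG_H x hd, g.FG_H x hd]
    split_ifs
    · have h4 : Quotient.mk G.st (G.bar (g.lab.cuf d hd)) = Quotient.mk G.st (g.lab.cuf d hd) :=
        (Quotient.sound (s := G.st) (Or.inr rfl)).symm
      exact ⟨rfl, congrArg Sum.inr h4⟩
    · rfl
  · obtain ⟨h1, h2, h3, d, -, -, h4⟩ := g.s_pend hp
    obtain ⟨-, h5, h6⟩ := g.pG_pend hp
    rcases hl with rfl | rfl
    · rw [h5, h1, h4]
      rfl
    · rw [h6, h3, h2, h4]
      rfl

end Pool.Agent.MC.NF
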