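import Pool.Agent.P.MP_2677b3_gt.NfStart

namespace Pool.Agent.MC.NF

theorem nfkill_orbL_add {D : Type} (f : D → D) (d : D) (j k : ℕ) :
    orbL f d (j + k) = orbL f d j ++ orbL f (f^[j] d) k := by
  simp only [orbL, List.range_add, List.map_append, List.map_map]
  refine congrArg _ (List.map_congr_left fun i _ => ?_)
  simp only [Function.comp_apply]
  rw [add_comm, Function.iterate_add_apply]

theorem nfkill_orbL_succ {D : Type} (f : D → D) (d : D) (k : ℕ) :
    orbL f d (k + 1) = d :: orbL f (f d) k := by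
  rw [add_comm, nfkill_orbL_add]
  rfl

theorem nfkill_prod {D Γ : Type} [Group Γ] {f : D → D} (hf : Function.Injective f) (g : D → Γ)
    {r : D} (h : ((orbL f r (Function.minimalPeriod f r)).map g).prod = 1) (j k : ℕ)
    (hk : f^[k] (f^[j] r) = f^[j] r) : ((orbL f (f^[j] r) k).map g).prod = 1 := by
  have hk' : f^[k] r = r := by
    apply hf.iterate j
    rw [← Function.iterate_add_apply, add_comm, Function.iterate_add_apply, hk]
  have hp : f^[Function.minimalPeriod f r] r = r := Function.isPeriodicPt_minimalPeriod f r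
  have h1 : ∀ m, ((orbL f r (Function.minimalPeriod f r * m)).map g).prod = 1 := by
    intro m
    induction m with
    | zero => simp [orbL]
    | succ m ih => rw [Nat.mul_succ, add_comm, nfkill_orbL_add, hp, List.map_append,
        List.prod_append, h, ih, one_mul]
  obtain ⟨m, hm⟩ := Function.IsPeriodicPt.minimalPeriod_dvd (show Function.IsPeriodicPt f k r from hk')
  have h2 : ((orbL f r k).map g).prod = 1 := by rw [hm]; exact h1 m
  have h3 := nfkill_orbL_add f r j k
  rw [add_comm, nfkill_orbL_add, hk'] at h3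
  have h4 := congrArg (fun w => (w.map g).prod) h3
  simp only [List.map_append, List.prod_append, h2, one_mul] at h4
  exact (left_eq_mul.1 h4)

theorem nfkill_isPath_map {A B V : Type} {s t : B → V} (f : A → B) {x y : V} {w : List A} :
    IsPath s t x (w.map f) y ↔ IsPath (fun a => s (f a)) (fun a => t (f a)) x w y := by
  induction w generalizing x with
  | nil => simp
  | cons a w ih => simp [ih]

theorem nfkill_of_path {D V : Type} {f : D → D} {s t : D → V} (k : ℕ) : ∀ {d : D} {x y : V},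
    IsPath s t x (orbL f d k) y → y = s (f^[k] d) →
      x = s d ∧ ∀ i < k, t (f^[i] d) = s (f^[i + 1] d) := by
  induction k with
  | zero =>
    intro d x y h hy
    have : x = y := h
    exact ⟨this.trans hy, fun i hi => absurd hi (Nat.not_lt_zero i)⟩
  | succ k ih =>
    intro d x y h hy
    rw [nfkill_orbL_succ] at h
    obtain ⟨h1, h2⟩ := ih h.2 hy
    refine ⟨h.1.symm, fun i hi => ?_⟩
    cases i with
    | zero => exact h1
    | succ i => exact h2 i (by omega)

variable {M : CMap} {H : M.D → Prop}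

theorem nfkill_pos (d : M.D) : 0 < Function.minimalPeriod M.φ d :=
  Function.minimalPeriod_pos_of_mem_periodicPts (M.φ.injective.mem_periodicPts d)

theorem nfkill_per (d : M.D) : M.φ^[Function.minimalPeriod M.φ d] d = d :=
  Function.isPeriodicPt_minimalPeriod M.φ d

theorem nfkill_snd {d₀ : M.D} {w : List (M.D ⊕ Bool)} (hw : w ∈ (st0 M H d₀).2) :
    ∃ r, M.Same H d₀ r ∧ w = (face M r).map Sum.inl := by
  classical
  simp only [st0, List.mem_map, Finset.mem_toList, Finset.mem_erase, Finset.mem_image, regS,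
    Finset.mem_filter, Finset.mem_univ, true_and] at hw
  obtain ⟨q, ⟨-, d, hd, rfl⟩, rfl⟩ := hw
  refine ⟨_, same_cycle hd ?_, rfl⟩
  exact (Quotient.mk_out (s := Equiv.Perm.SameCycle.setoid M.φ) d).symm

theorem nfkill_rep {d₀ d : M.D} (hd : M.Same H d₀ d) :
    ∃ r, ∃ j < Function.minimalPeriod M.φ r, M.φ^[j] r = d ∧
      (r = d₀ ∨ (face M r).map Sum.inl ∈ (st0 M H d₀).2) := by
  classical
  have key : ∀ r, M.φ.SameCycle r d → ∃ j < Function.minimalPeriod M.φ r, M.φ^[j] r = d := by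
    intro r hr
    obtain ⟨k, -, hk⟩ := hr.exists_pow_eq'
    refine ⟨k % Function.minimalPeriod M.φ r, Nat.mod_lt _ (nfkill_pos r), ?_⟩
    rw [Function.iterate_mod_minimalPeriod_eq, Equiv.Perm.iterate_eq_pow, hk]
  by_cases h : M.φ.SameCycle d₀ d
  · obtain ⟨j, h1, h2⟩ := key d₀ h
    exact ⟨d₀, j, h1, h2, Or.inl rfl⟩
  · obtain ⟨j, h1, h2⟩ := key (Quotient.mk (Equiv.Perm.SameCycle.setoid M.φ) d).out
      (Quotient.mk_out (s := Equiv.Perm.SameCycle.setoid M.φ) d)
    refine ⟨_, j, h1, h2, Or.inr ?_⟩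
    simp only [st0, List.mem_map, Finset.mem_toList, Finset.mem_erase, Finset.mem_image, regS,
      Finset.mem_filter, Finset.mem_univ, true_and]
    exact ⟨_, ⟨fun e => h (Equiv.Perm.SameCycle.symm (Quotient.exact e)), d, hd, rfl⟩, rfl⟩

theorem kill_st0 (hα : ∀ d, H d → H (M.α d)) (d₀ : M.D) {Γ : Type} [Group Γ]
    {χ : M.D ⊕ Bool → Γ} (hχ : (cx M H hα).Compat χ) :
    Kill (st0 M H d₀) χ ↔ ∀ d (k : ℕ), M.Same H d₀ d → M.φ^[k] d = d →
      ((orbL M.φ d k).map fun d => χ (.inl d)).prod = 1 := by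
  have e1 : χ (.inr false) = (χ (.inr true))⁻¹ := hχ (.inr true) not_false
  have e2 : ∀ r, (((face M r).map Sum.inl).map χ).prod =
      ((orbL M.φ r (Function.minimalPeriod M.φ r)).map fun d => χ (.inl d)).prod := by
    intro r
    rw [List.map_map]
    rfl
  have e3 : ((st0 M H d₀).1.map χ).prod = 1 ↔ (((face M d₀).map Sum.inl).map χ).prod = 1 := by
    have : (st0 M H d₀).1 = Sum.inr true :: (face M d₀).map Sum.inl ++ [Sum.inr false] := rfl
    rw [this, List.map_append, List.prod_append, List.map_cons, List.prod_cons, List.map_singleton,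
      List.prod_singleton, e1, mul_inv_eq_one, mul_eq_left]
  constructor
  · rintro ⟨h1, h2⟩ d k hd hk
    obtain ⟨r, j, -, rfl, hr⟩ := nfkill_rep hd
    refine nfkill_prod M.φ.injective _ ?_ j k hk
    rw [← e2]
    rcases hr with rfl | hr
    · exact e3.1 h1
    · exact h2 _ hr
  · intro h
    refine ⟨e3.2 ?_, fun w hw => ?_⟩
    · rw [e2]
      exact h d₀ _ Relation.ReflTransGen.refl (nfkill_per d₀)
    · obtain ⟨r, hr, rfl⟩ := nfkill_snd hw
      rw [e2]
      exact h r _ hr (nfkill_per r)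

theorem kill_pM (hα : ∀ d, H d → H (M.α d)) (d₀ : M.D) :
    Kill (st0 M H d₀) fun l => M.gd.ev (pM M l) := by
  refine (kill_st0 hα d₀ (compat_pM hα)).2 fun d k _ hk => ?_
  have h : M.gd.ev (orbL M.φ d k) = 1 := pres_rel ⟨d, k, hk, rfl⟩
  have e : (fun d : M.D => M.gd.ev (pM M (.inl d))) = M.gd.val := by
    funext d
    exact (Gd.ev_cons (A := M.gd) d []).trans (mul_one _)
  exact (congrArg (fun g => ((orbL M.φ d k).map g).prod) e).trans h

theorem nfkill_face (d₀ r : M.D) : IsPath (sc M H d₀) (tc M H d₀) (some (cs M H r))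
    ((face M r).map Sum.inl) (some (cs M H r)) := by
  rw [nfkill_isPath_map]
  have := isPath_orbL (f := M.φ) (s := fun d => sc M H d₀ (.inl d))
    (t := fun d => tc M H d₀ (.inl d)) (d := r) (Function.minimalPeriod M.φ r) (fun i _ => by
      rw [Function.iterate_succ_apply']
      rfl)
  rw [nfkill_per] at this
  exact this

theorem typ_cut (hα : ∀ d, H d → H (M.α d)) (d₀ : M.D) :
    (cx M H hα).Typ (st0 M H d₀) (sc M H d₀) (tc M H d₀) none := by
  refine ⟨compat_cut hα d₀, ⟨rfl, ?_⟩, fun w hw => ?_⟩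
  · exact (nfkill_face d₀ d₀).append ⟨rfl, rfl⟩
  · obtain ⟨r, -, rfl⟩ := nfkill_snd hw
    exact ⟨_, nfkill_face d₀ r⟩

theorem nfkill_closed {V : Type} {s t : M.D ⊕ Bool → V} {z : V} {r : M.D}
    (h : IsPath s t z ((face M r).map Sum.inl) z) : z = s (.inl r) ∧
      ∀ i < Function.minimalPeriod M.φ r, t (.inl (M.φ^[i] r)) = s (.inl (M.φ^[i + 1] r)) := by
  rw [nfkill_isPath_map] at h
  refine nfkill_of_path (s := fun a => s (.inl a)) (t := fun a => t (.inl a)) _ h ?_
  rw [nfkill_per]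
  obtain ⟨m, hm⟩ := Nat.exists_eq_succ_of_ne_zero (nfkill_pos r).ne'
  rw [face, hm, nfkill_orbL_succ] at h
  exact h.1.symm

/-- Every typing of the initial state factors through the cut typing. -/
theorem typ_univ (hα : ∀ d, H d → H (M.α d)) (d₀ : M.D) {V : Type} {s t : M.D ⊕ Bool → V} {y : V}
    (h : (cx M H hα).Typ (st0 M H d₀) s t y) : ∃ F : OV M → V, F none = y ∧
      ∀ l ∈ lets (st0 M H d₀), s l = F (sc M H d₀ l) ∧ t l = F (tc M H d₀ l) := by
  classical
  obtain ⟨hc, ⟨h1, h2⟩, h3⟩ := h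
  obtain ⟨z, h4, h5, h6⟩ := isPath_append.1 h2
  have e1 : t (.inr true) = s (.inr false) := hc (.inr true) not_false
  have h6' : t (.inr false) = y := h6
  rw [e1, h5] at h4
  have h7 := nfkill_closed h4
  have hφ : ∀ d, M.Same H d₀ d → t (.inl d) = s (.inl (M.φ d)) := by
    intro d hd
    obtain ⟨r, j, hj, rfl, hr⟩ := nfkill_rep hd
    rw [← Function.iterate_succ_apply' M.φ]
    rcases hr with rfl | hr
    · exact h7.2 j hj
    · obtain ⟨z', hz⟩ := h3 _ hr
      exact (nfkill_closed hz).2 j hj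
  have hψ : ∀ d, M.Same H d₀ d → ¬ H d → s (.inl (M.ψ d)) = s (.inl d) := by
    intro d hd hn
    have hn' : ¬ H (M.α d) := fun h' => hn (M.αα d ▸ hα _ h')
    have e2 : t (.inl (M.α d)) = s (.inl (M.α (M.α d))) := hc (.inl (M.α d)) hn'
    rw [M.αα] at e2
    exact (hφ _ (same_α hd hn)).symm.trans e2
  let F : OV M → V := fun o => o.elim y fun o =>
    if h : ∃ d, M.Same H d₀ d ∧ cs M H d = o then s (.inl h.choose) else y
  have hF : ∀ d, M.Same H d₀ d → s (.inl d) = F (some (cs M H d)) := by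
    intro d hd
    have hex : ∃ d', M.Same H d₀ d' ∧ cs M H d' = cs M H d := ⟨d, hd, rfl⟩
    have : F (some (cs M H d)) = s (.inl hex.choose) := dif_pos hex
    rw [this]
    exact cs_univ (fun d => s (.inl d)) hψ hd hex.choose_spec.1 hex.choose_spec.2.symm
  have h0 : s (.inr false) = F (some (cs M H d₀)) :=
    (h5.trans h7.1).trans (hF d₀ Relation.ReflTransGen.refl)
  refine ⟨F, rfl, fun l hl => ?_⟩
  rcases (mem_st0 d₀ l).1 hl with ⟨b, rfl⟩ | ⟨d, rfl, hd⟩
  · cases b
    · exact ⟨h0, h6'⟩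
    · exact ⟨h1, e1.trans h0⟩
  · exact ⟨hF d hd, (hφ d hd).trans (hF _ (same_φ hd))⟩

end Pool.Agent.MC.NF
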