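import Pool.Agent.P.MP_2677b3_gt.NfCut

namespace Pool.Agent.MC.NF.Z

variable {M : CMap} {H : M.D → Prop} {G : GS} {n : ℕ}

theorem reg_φ (lab : Lab0 M H G n) (d : M.D) : lab.reg (M.φ d) = lab.reg d := by
  exact ((lab.reg_iff d _).2 (same_φ Relation.ReflTransGen.refl)).symm

theorem reg_α (lab : Lab0 M H G n) {d : M.D} (h : ¬ H d) : lab.reg (M.α d) = lab.reg d := by
  exact ((lab.reg_iff d _).2 (same_α Relation.ReflTransGen.refl h)).symm

theorem reg_inner (lab : Lab0 M H G n) {d d' : M.D} (hi : ∀ k : ℕ, ¬ H (M.ψ^[k] d))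
    (e : M.gd.src d = M.gd.src d') : lab.reg d = lab.reg d' := by
  obtain ⟨k, rfl⟩ := src_eq_iff.1 e
  refine (lab.reg_iff _ _).2 ?_
  clear e
  induction k with
  | zero => exact Relation.ReflTransGen.refl
  | succ k ih =>
    rw [Function.iterate_succ_apply']
    exact same_φ (same_α ih (hi k))

theorem cuf_bd (lab : Lab0 M H G n) {d : M.D} (h : H d) : lab.cuf (M.bd H d) = lab.cuf d := by
  exact ((lab.cuf_iff d _ h (bd_H lab.Hα h).1).2 ⟨1, rfl⟩).symm

theorem period_pos (lab : Lab0 M H G n) {d : M.D} (h : H d) :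
    0 < Function.minimalPeriod (M.bd H) d := by
  obtain ⟨k, hk⟩ := (lab.cuf_iff _ d (bd_H lab.Hα h).1 h).1 (cuf_bd lab h)
  have h1 : Function.IsPeriodicPt (M.bd H) (k + 1) d := hk
  exact h1.minimalPeriod_pos (Nat.succ_pos k)

theorem nflab_iter (lab : Lab0 M H G n) {d : M.D} (h : H d) (k : ℕ) : H ((M.bd H)^[k] d) := by
  induction k with
  | zero => exact h
  | succ k ih =>
    rw [Function.iterate_succ_apply']
    exact (bd_H lab.Hα ih).1

theorem mem_cyc (lab : Lab0 M H G n) {d d' : M.D} (h : H d) :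
    d' ∈ cyc M H d ↔ H d' ∧ lab.cuf d' = lab.cuf d := by
  unfold cyc
  rw [mem_orbL_period (period_pos lab h)]
  constructor
  · rintro ⟨k, rfl⟩
    exact ⟨nflab_iter lab h k, ((lab.cuf_iff d _ h (nflab_iter lab h k)).2 ⟨k, rfl⟩).symm⟩
  · rintro ⟨h1, h2⟩
    exact (lab.cuf_iff d d' h h1).1 h2.symm

theorem length_cyc (lab : Lab0 M H G n) {d : M.D} (h : H d) : (cyc M H d).length ≤ n := by
  classical
  have h1 : (cyc M H d).Nodup := nodup_orbL_period _ _
  rw [← List.toFinset_card_of_nodup h1]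
  refine le_trans (Finset.card_le_card fun x hx => ?_) (lab.size (lab.reg d))
  obtain ⟨h2, h3⟩ := (mem_cyc lab h).1 (List.mem_toFinset.1 hx)
  refine Finset.mem_filter.2 ⟨Finset.mem_univ _, ?_⟩
  rw [← lab.own_cuf x h2, h3, lab.own_cuf d h]

theorem path_cyc (lab : Lab0 M H G n) {d : M.D} (h : H d) :
    M.gd.Path (M.gd.src d) (cyc M H d) (M.gd.src d) := by
  have h1 := isPath_orbL (f := M.bd H) (s := M.gd.src) (t := M.gd.tgt) (d := d)
    (Function.minimalPeriod (M.bd H) d) fun i _ => by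
      rw [Function.iterate_succ_apply']
      exact (bd_H lab.Hα (nflab_iter lab h i)).2.2.symm
  rw [Function.iterate_minimalPeriod] at h1
  exact h1

/-- A vertex on a cuff carries exactly two darts of `H`. -/
theorem vtx_two (lab : Lab0 M H G n) {d d' : M.D} (h : H d) (h' : H d')
    (e : M.gd.src d = M.gd.src d') : d' = d ∨ d' = M.bd H (M.α d) := by
  obtain ⟨k, rfl⟩ := src_eq_iff.1 e
  have hN : ∀ x, H x → cs M H (M.ψ x) = .inl (M.bd H (M.α x)) := fun x hx =>
    cs_φ_of_H lab.Hα (lab.Hα x hx)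
  have hNN : M.bd H (M.α (M.bd H (M.α d))) = d := by
    rw [lab.simple _ (lab.Hα d h), M.αα]
  have key : ∀ j : ℕ, cs M H (M.ψ^[j] d) = .inl d ∨
      cs M H (M.ψ^[j] d) = .inl (M.bd H (M.α d)) := by
    intro j
    induction j with
    | zero => exact Or.inl (cs_of_H h)
    | succ j ih =>
      rw [Function.iterate_succ_apply']
      by_cases hx : H (M.ψ^[j] d)
      · rw [cs_of_H hx] at ih
        rw [hN _ hx]
        rcases ih with ih | ih
        · rw [Sum.inl.inj ih]
          exact Or.inr rfl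
        · rw [Sum.inl.inj ih, hNN]
          exact Or.inl rfl
      · rw [cs_ψ hx]
        exact ih
  have h1 := key k
  rw [cs_of_H h'] at h1
  exact h1.imp Sum.inl.inj Sum.inl.inj

theorem vtx_cuf (lab : Lab0 M H G n) {d d' : M.D} (h : H d) (h' : H d')
    (e : M.gd.src d = M.gd.src d') :
    Quotient.mk G.st (lab.cuf d) = Quotient.mk G.st (lab.cuf d') := by
  rcases vtx_two lab h h' e with rfl | rfl
  · rfl
  · rw [cuf_bd lab (lab.Hα d h), lab.cuf_α d h]
    exact Quotient.sound (Or.inr rfl)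

end Pool.Agent.MC.NF.Z
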