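import Pool.Agent.P.MP_2677b3_gt.NfSt

namespace Pool.Agent.MC.NF

variable {L : Type} {C : Ctx L}

theorem nfmerge_perm (X Y X' Y' : List L) (d j : L) (A B : List (List L)) :
    (lets (X ++ d :: Y, A ++ (X' ++ j :: Y') :: B)).Perm
      (d :: j :: lets (X ++ Y' ++ X' ++ Y, A ++ B)) := by
  classical
  rw [List.perm_iff_count]
  intro a
  simp only [lets, List.flatten_append, List.flatten_cons, List.count_append, List.count_cons]
  omega

theorem nfmerge_find {U : List L} {ws : List (List L)} (hw : C.WF (U, ws)) (hc : C.Conn (U, ws))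
    (hne : ∀ w ∈ ws, w ≠ []) (h0 : ws ≠ []) :
    ∃ d ∈ U, ¬ C.H d ∧ C.ι d ∈ ws.flatten := by
  by_contra hcon
  have hdis : ∀ a ∈ U, ∀ b ∈ ws.flatten, a ≠ b := (List.nodup_append.1 hw.1).2.2
  have hall := hc (fun l => l ∈ U) (fun d hd => hd) ?_ ?_
  · obtain ⟨w, hw0⟩ := List.exists_mem_of_ne_nil ws h0
    obtain ⟨b, hb⟩ := List.exists_mem_of_ne_nil w (hne w hw0)
    have hb' : b ∈ ws.flatten := List.mem_flatten.2 ⟨w, hw0, hb⟩
    exact hdis b (hall b (List.mem_append_right _ hb')) b hb' rfl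
  · intro d hd hH hU
    rcases List.mem_append.1 (hw.2 d hd hH) with h | h
    · exact h
    · exact absurd ⟨d, hU, hH, h⟩ hcon
  · intro w hw0 d hd d' _ hU
    exact absurd rfl (hdis d hU d (List.mem_flatten.2 ⟨w, hw0, hd⟩))

theorem nfmerge_conn (X Y X' Y' : List L) (d : L) (A B : List (List L))
    (hw : C.WF (X ++ d :: Y, A ++ (X' ++ C.ι d :: Y') :: B))
    (hc : C.Conn (X ++ d :: Y, A ++ (X' ++ C.ι d :: Y') :: B)) :
    C.Conn (X ++ Y' ++ X' ++ Y, A ++ B) := by
  intro T h1 h2 h3 l hl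
  have hp := nfmerge_perm X Y X' Y' d (C.ι d) A B
  have hnd := hp.nodup_iff.1 hw.1
  have hno : ∀ a ∈ lets (X ++ Y' ++ X' ++ Y, A ++ B), a ≠ d ∧ a ≠ C.ι d := by
    intro a ha
    constructor
    · rintro rfl
      exact (List.nodup_cons.1 hnd).1 (List.mem_cons_of_mem _ ha)
    · rintro rfl
      exact (List.nodup_cons.1 (List.nodup_cons.1 hnd).2).1 ha
  have hall := hc (fun l => T l ∨ l = d ∨ l = C.ι d) ?_ ?_ ?_
  · have hl' : l ∈ lets (X ++ d :: Y, A ++ (X' ++ C.ι d :: Y') :: B) :=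
      hp.mem_iff.2 (List.mem_cons_of_mem _ (List.mem_cons_of_mem _ hl))
    rcases hall l hl' with h | h | h
    · exact h
    · exact absurd h (hno l hl).1
    · exact absurd h (hno l hl).2
  · intro a ha
    simp only [List.mem_append, List.mem_cons] at ha
    rcases ha with h | h | h
    · exact Or.inl (h1 a (by simp [h]))
    · exact Or.inr (Or.inl h)
    · exact Or.inl (h1 a (by simp [h]))
  · intro a ha hH hT
    rcases List.mem_cons.1 (hp.mem_iff.1 ha) with h | h
    · exact Or.inr (Or.inr (by rw [h]))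
    rcases List.mem_cons.1 h with h | h
    · exact Or.inr (Or.inl (by rw [h, C.ιι]))
    rcases hT with hT | hT | hT
    · exact Or.inl (h2 a h hH hT)
    · exact absurd hT (hno a h).1
    · exact absurd hT (hno a h).2
  · intro w hw0 a ha a' ha' hT
    have hcase : w = X' ++ C.ι d :: Y' ∨ w ∈ A ++ B := by
      simp only [List.mem_append, List.mem_cons] at hw0 ⊢
      tauto
    rcases hcase with h | h
    · subst h
      simp only [List.mem_append, List.mem_cons] at ha'
      rcases ha' with h | h | h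
      · exact Or.inl (h1 a' (by simp [h]))
      · exact Or.inr (Or.inr h)
      · exact Or.inl (h1 a' (by simp [h]))
    · have hal : a ∈ lets (X ++ Y' ++ X' ++ Y, A ++ B) :=
        List.mem_append_right _ (List.mem_flatten.2 ⟨w, h, ha⟩)
      rcases hT with hT | hT | hT
      · exact Or.inl (h3 w h a ha a' ha' hT)
      · exact absurd hT (hno a hal).1
      · exact absurd hT (hno a hal).2

theorem nfmerge_aux (e : L) (m : ℕ) : ∀ (W : List L) (ws : List (List L)), ws.length = m →
    C.WF (e :: W ++ [C.ι e], ws) → C.Conn (e :: W ++ [C.ι e], ws) → (∀ w ∈ ws, w ≠ []) →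
    ∃ W', C.Steps m (e :: W ++ [C.ι e], ws) (e :: W' ++ [C.ι e], []) := by
  induction m with
  | zero =>
    intro W ws hl _ _ _
    obtain rfl := List.length_eq_zero_iff.1 hl
    exact ⟨W, Ctx.Steps.refl _ _⟩
  | succ m ih =>
    intro W ws hl hw hc hne
    have h0 : ws ≠ [] := by
      rintro rfl
      simp at hl
    obtain ⟨d, hd, hH, hi⟩ := nfmerge_find hw hc hne h0
    have hdis : ∀ a ∈ e :: W ++ [C.ι e], ∀ b ∈ ws.flatten, a ≠ b :=
      (List.nodup_append.1 hw.1).2.2
    have hdW : d ∈ W := by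
      simp only [List.cons_append, List.mem_cons, List.mem_append, List.not_mem_nil,
        or_false] at hd
      rcases hd with h | h | h
      · exact absurd (by rw [h]) (hdis (C.ι e) (by simp) _ hi)
      · exact h
      · exact absurd (by rw [h, C.ιι]) (hdis e (by simp) _ hi)
    obtain ⟨X, Y, rfl⟩ := List.append_of_mem hdW
    obtain ⟨w, hw0, hiw⟩ := List.mem_flatten.1 hi
    obtain ⟨A, B, rfl⟩ := List.append_of_mem hw0
    obtain ⟨X', Y', rfl⟩ := List.append_of_mem hiw
    obtain ⟨z, Y'', hz⟩ : ∃ z Y'', Y ++ [C.ι e] = z :: Y'' := by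
      cases Y with
      | nil => exact ⟨_, _, rfl⟩
      | cons y Y => exact ⟨_, _, rfl⟩
    have e1 : e :: (X ++ d :: Y) ++ [C.ι e] = (e :: X) ++ d :: z :: Y'' := by
      rw [← hz]; simp
    have e2 : e :: (X ++ Y' ++ X' ++ Y) ++ [C.ι e] = (e :: X) ++ Y' ++ X' ++ z :: Y'' := by
      rw [← hz]; simp
    have hmv := Ctx.Mv.mg (C := C) (e :: X) Y'' X' Y' d z A B hH
    rw [e1] at hw hc
    have hw' := mv_wf hmv hw
    have hc' := nfmerge_conn (e :: X) (z :: Y'') X' Y' d A B hw hc
    rw [← e2] at hw' hc'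
    obtain ⟨W', hW'⟩ := ih (X ++ Y' ++ X' ++ Y) (A ++ B)
      (by simp only [List.length_append, List.length_cons] at hl ⊢; omega) hw' hc'
      (fun w h => hne w (by
        simp only [List.mem_append, List.mem_cons] at h ⊢
        tauto))
    refine ⟨W', ?_⟩
    rw [e1]
    rw [e2] at hW'
    exact Ctx.Steps.step hmv hW'

theorem merge_steps (e : L) (W : List L) (ws : List (List L))
    (hw : C.WF (e :: W ++ [C.ι e], ws)) (hc : C.Conn (e :: W ++ [C.ι e], ws))
    (hne : ∀ w ∈ ws, w ≠ []) :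
    ∃ W', C.Steps ws.length (e :: W ++ [C.ι e], ws) (e :: W' ++ [C.ι e], []) :=
  nfmerge_aux e ws.length W ws rfl hw hc hne

end Pool.Agent.MC.NF
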