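import Pool.Agent.P.MP_2677b3_gt.NfSg

namespace Pool.Agent.MC.NF

variable {L : Type} {C : Ctx L}

open Classical in
/-- a function changed at two letters -/
noncomputable def nfmgUp {β : Type} (a b : L) (p q : β) (f : L → β) (l : L) : β :=
  if l = a then p else if l = b then q else f l

theorem nfmg_a {β : Type} (a b : L) (p q : β) (f : L → β) : nfmgUp a b p q f a = p := by
  simp [nfmgUp]

theorem nfmg_b {β : Type} {a b : L} (h : b ≠ a) (p q : β) (f : L → β) :
    nfmgUp a b p q f b = q := by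
  simp [nfmgUp, h]

theorem nfmg_o {β : Type} {a b l : L} (h : l ≠ a ∧ l ≠ b) (p q : β) (f : L → β) :
    nfmgUp a b p q f l = f l := by
  simp [nfmgUp, h.1, h.2]

theorem rch_mg (X Y X' Y' : List L) (d z : L) (A B : List (List L)) (h : ¬ C.H d)
    (hn : (lets (X ++ d :: z :: Y, A ++ (X' ++ C.ι d :: Y') :: B)).Nodup) :
    C.Rch (X'.length + Y'.length + 2) (X ++ d :: z :: Y, A ++ (X' ++ C.ι d :: Y') :: B)
      (X ++ Y' ++ X' ++ z :: Y, A ++ B) := by
  have hne : C.ι d ≠ d := C.ne d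
  have hperm : (lets (X ++ d :: z :: Y, A ++ (X' ++ C.ι d :: Y') :: B)).Perm
      (d :: C.ι d :: lets (X ++ Y' ++ X' ++ z :: Y, A ++ B)) := by
    classical
    rw [List.perm_iff_count]
    intro l
    simp only [lets, List.flatten_append, List.flatten_cons, List.count_append, List.count_cons]
    omega
  have hmem : ∀ l, l ∈ lets (X ++ d :: z :: Y, A ++ (X' ++ C.ι d :: Y') :: B) ↔
      l = d ∨ l = C.ι d ∨ l ∈ lets (X ++ Y' ++ X' ++ z :: Y, A ++ B) := fun l => by
    rw [hperm.mem_iff, List.mem_cons, List.mem_cons]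
  have hout : ∀ l ∈ lets (X ++ Y' ++ X' ++ z :: Y, A ++ B), l ≠ d ∧ l ≠ C.ι d := by
    have h1 := hperm.nodup_iff.1 hn
    rw [List.nodup_cons, List.nodup_cons] at h1
    exact fun l hl => ⟨fun e => h1.1 (List.mem_cons_of_mem _ (e ▸ hl)), fun e => h1.2.1 (e ▸ hl)⟩
  have hH : ∀ l, C.H l → l ≠ d ∧ l ≠ C.ι d := fun l hl =>
    ⟨fun e => h (e ▸ hl), fun e => h (C.ιι d ▸ C.Hι _ (e ▸ hl))⟩
  have hι : ∀ l, l ≠ d ∧ l ≠ C.ι d → C.ι l ≠ d ∧ C.ι l ≠ C.ι d := fun l hl =>
    ⟨fun e => hl.2 (by rw [← e, C.ιι]), fun e => hl.1 (by rw [← C.ιι l, e, C.ιι])⟩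
  have hcase : ∀ l, l = d ∨ l = C.ι d ∨ (l ≠ d ∧ l ≠ C.ι d) := fun l => by tauto
  have mX : ∀ l ∈ X, l ≠ d ∧ l ≠ C.ι d := fun l hl => hout l (by simp [lets, hl])
  have mX' : ∀ l ∈ X', l ≠ d ∧ l ≠ C.ι d := fun l hl => hout l (by simp [lets, hl])
  have mY' : ∀ l ∈ Y', l ≠ d ∧ l ≠ C.ι d := fun l hl => hout l (by simp [lets, hl])
  have mY : ∀ l ∈ z :: Y, l ≠ d ∧ l ≠ C.ι d := fun l hl => hout l (by
    rcases List.mem_cons.1 hl with e | e <;> simp [lets, e])
  have mW : ∀ w ∈ A ++ B, ∀ l ∈ w, l ≠ d ∧ l ≠ C.ι d := fun w hw l hl =>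
    hout l (List.mem_append_right _ (List.mem_flatten.2 ⟨w, hw, hl⟩))
  have mAB : ∀ w ∈ A ++ (X' ++ C.ι d :: Y') :: B, w = X' ++ C.ι d :: Y' ∨ w ∈ A ++ B :=
    fun w hw => by
      simp only [List.mem_append, List.mem_cons] at hw ⊢
      tauto
  have mAB' : ∀ w ∈ A ++ B, w ∈ A ++ (X' ++ C.ι d :: Y') :: B := fun w hw => by
    simp only [List.mem_append, List.mem_cons] at hw ⊢
    tauto
  have mD : X' ++ C.ι d :: Y' ∈ A ++ (X' ++ C.ι d :: Y') :: B := by simp
  set P : List (L × Bool) := pos (Y' ++ X') ++ [(z, true), (z, false)] with hP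
  set Ψ : L → List (L × Bool) := nfmgUp d (C.ι d) P (rv P) fun l => [(l, true)] with hΨ
  have Ψa : Ψ d = P := nfmg_a _ _ _ _ _
  have Ψb : Ψ (C.ι d) = rv P := nfmg_b hne _ _ _
  have Ψo : ∀ l, l ≠ d ∧ l ≠ C.ι d → Ψ l = [(l, true)] := fun l hl => nfmg_o hl _ _ _
  have Plen : P.length = X'.length + Y'.length + 2 := by
    simp only [hP, List.length_append, length_pos, List.length_cons, List.length_nil]
    omega
  have Pmem : ∀ u ∈ P, u.1 ∈ lets (X ++ Y' ++ X' ++ z :: Y, A ++ B) := fun u hu => by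
    rcases List.mem_append.1 hu with hu | hu
    · rcases List.mem_append.1 (mem_pos hu) with e | e <;> simp [lets, e]
    · simp only [List.mem_cons, List.not_mem_nil, or_false] at hu
      rcases hu with rfl | rfl <;> simp [lets]
  have Pev : ∀ (Γ : Type) [Group Γ] (χ : L → Γ),
      evs χ P = (Y'.map χ).prod * (X'.map χ).prod := fun Γ _ χ => by
    simp [hP]
  have Ppath : ∀ (V : Type) (s t : L → V) (x w : V), IsPath s t x Y' w → IsPath s t w X' (s z) →
      SPath s t x P (s z) := fun V s t x w h1 h2 =>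
    (sPath_pos.2 (h1.append h2)).append (by simp)
  refine ⟨Ψ, fun l => [(l, true)], ⟨fun l => ?_, fun l => ?_, fun l hl => Ψo l (hH l hl),
    fun l hl u hu => ?_, fun Γ _ χ hc hk => ?_, fun V s' t' y ht => ?_⟩,
    ⟨fun l => by simp, fun l => by simp, fun l _ => rfl, fun l hl u hu => ?_,
    fun Γ _ χ hc hk => ?_, fun V s t y ht => ?_⟩⟩
  · rcases hcase l with rfl | rfl | hl
    · rw [Ψa, Plen]
    · rw [Ψb, length_rv, Plen]
    · rw [Ψo l hl]; simp
  · refine List.ne_nil_of_length_pos ?_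
    rcases hcase l with rfl | rfl | hl
    · rw [Ψa, Plen]; omega
    · rw [Ψb, length_rv, Plen]; omega
    · rw [Ψo l hl]; simp
  · rcases hcase l with rfl | rfl | hl'
    · exact Pmem u (Ψa ▸ hu)
    · obtain ⟨u', h1, h2⟩ := mem_rv (Ψb ▸ hu)
      exact h2 ▸ Pmem u' h1
    · rw [Ψo l hl', List.mem_singleton] at hu
      subst hu
      exact (((hmem l).1 hl).resolve_left hl'.1).resolve_left hl'.2
  · have ho : ∀ l, l ≠ d ∧ l ≠ C.ι d → evs χ (Ψ l) = χ l := fun l hl => by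
      rw [Ψo l hl]; simp
    have hm : ∀ w : List L, (∀ l ∈ w, l ≠ d ∧ l ≠ C.ι d) →
        w.map (fun l => evs χ (Ψ l)) = w.map χ := fun w hw =>
      List.map_congr_left fun l hl => ho l (hw l hl)
    refine ⟨fun l hl => ?_, ⟨?_, fun w hw => ?_⟩, fun l hl => ?_⟩
    · rcases hcase l with rfl | rfl | hl'
      · simp only [Ψa, Ψb, evs_rv]
      · simp only [C.ιι, Ψa, Ψb, evs_rv, inv_inv]
      · simp only [ho l hl', ho _ (hι l hl'), hc l hl]
    · have h1 := hk.1
      simp only [List.map_append, List.prod_append] at h1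
      show ((X ++ d :: z :: Y).map _).prod = 1
      rw [List.map_append, List.map_cons (a := d), hm X mX, hm _ mY, List.prod_append,
        List.prod_cons, Ψa, Pev, ← h1]
      simp only [mul_assoc]
    · rcases mAB w hw with rfl | hw'
      · rw [List.map_append, List.map_cons, hm X' mX', hm Y' mY', List.prod_append,
          List.prod_cons, Ψb, evs_rv, Pev]
        group
      · rw [hm w (mW w hw')]
        exact hk.2 w hw'
    · simp [ho l (hout l hl)]
  · obtain ⟨t1, t2, t3⟩ := ht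
    obtain ⟨x3, t8, t5⟩ := isPath_append.1 t2
    obtain ⟨x2, t9, t6⟩ := isPath_append.1 t8
    obtain ⟨x1, t4, t7⟩ := isPath_append.1 t9
    obtain rfl : s' z = x3 := t5.1
    set s : L → V := nfmgUp d (C.ι d) x1 (s' z) s' with hs
    set t : L → V := nfmgUp d (C.ι d) (s' z) x1 t' with ht
    have sa : s d = x1 := nfmg_a _ _ _ _ _
    have sb : s (C.ι d) = s' z := nfmg_b hne _ _ _
    have ta : t d = s' z := nfmg_a _ _ _ _ _
    have tb : t (C.ι d) = x1 := nfmg_b hne _ _ _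
    have so : ∀ l, l ≠ d ∧ l ≠ C.ι d → s l = s' l ∧ t l = t' l := fun l hl =>
      ⟨nfmg_o hl _ _ _, nfmg_o hl _ _ _⟩
    have hp : ∀ {w : List L} {x x' : V}, (∀ l ∈ w, l ≠ d ∧ l ≠ C.ι d) → IsPath s' t' x w x' →
        IsPath s t x w x' := fun hw h => isPath_congr (fun l hl => so l (hw l hl)) h
    refine ⟨s, t, ⟨fun l hl => ?_, ?_, fun w hw => ?_⟩, fun l hl => so l (hH l hl),
      fun l _ => ?_, fun l hl => ?_⟩
    · rcases hcase l with rfl | rfl | hl'
      · rw [ta, sb]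
      · rw [C.ιι, tb, sa]
      · rw [(so l hl').2, (so _ (hι l hl')).1, t1 l hl]
    · exact (hp mX t4).append ⟨sa, ta ▸ hp mY t5⟩
    · rcases mAB w hw with rfl | hw'
      · exact ⟨x2, (hp mX' t6).append ⟨sb, tb ▸ hp mY' t7⟩⟩
      · obtain ⟨x, hx⟩ := t3 w hw'
        exact ⟨x, hp (mW w hw') hx⟩
    · rcases hcase l with rfl | rfl | hl'
      · rw [Ψa, sa, ta]
        exact Ppath V s' t' x1 x2 t7 t6
      · rw [Ψb, sb, tb]
        exact (Ppath V s' t' x1 x2 t7 t6).rv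
      · rw [Ψo l hl', (so l hl').1, (so l hl').2]
        simp
    · simp [so l (hout l hl)]
  · rw [List.mem_singleton] at hu
    subst hu
    exact (hmem l).2 (Or.inr (Or.inr hl))
  · have e : (fun l => evs χ [(l, true)]) = χ := funext fun l => by simp
    have h1 := hk.2 _ mD
    rw [List.map_append, List.map_cons, List.prod_append, List.prod_cons, hc d h] at h1
    have h2 : χ d = (Y'.map χ).prod * (X'.map χ).prod := by
      rw [← mul_one (χ d), eq_inv_of_mul_eq_one_left h1]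
      group
    rw [e]
    refine ⟨hc, ⟨?_, fun w hw => hk.2 w (mAB' w hw)⟩, fun l _ => ?_⟩
    · have h3 := hk.1
      simp only [List.map_append, List.map_cons, List.prod_append, List.prod_cons] at h3 ⊢
      rw [← h3, h2]
      simp only [mul_assoc]
    · rcases hcase l with rfl | rfl | hl'
      · rw [Ψa, Pev, h2]
      · rw [Ψb, evs_rv, Pev, hc d h, h2]
      · rw [Ψo l hl']; simp
  · obtain ⟨t1, t2, t3⟩ := ht
    obtain ⟨x1, t4, t5, t6⟩ := isPath_append.1 t2
    obtain ⟨x2, t7⟩ := t3 _ mD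
    obtain ⟨x3, t7, t8, t9⟩ := isPath_append.1 t7
    have e1 : t (C.ι d) = s d := by
      have := t1 (C.ι d) fun h' => h (C.ιι d ▸ C.Hι _ h')
      rwa [C.ιι] at this
    have e2 : s z = t d := t6.1
    have e3 : x3 = s z := by rw [← t8, ← t1 d h, e2]
    rw [e1] at t9
    rw [e3] at t7
    have hp := Ppath V s t (s d) x2 t9 t7
    refine ⟨s, t, ⟨t1, ?_, fun w hw => t3 w (mAB' w hw)⟩, fun _ _ => ⟨rfl, rfl⟩,
      fun l _ => by simp, fun l _ => ?_⟩
    · exact ((t4.append (t5 ▸ t9)).append t7).append (e2 ▸ t6)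
    · rcases hcase l with rfl | rfl | hl'
      · rw [Ψa, ← e2]
        exact hp
      · rw [Ψb, e1, ← t1 d h, ← e2]
        exact hp.rv
      · rw [Ψo l hl']; simp

end Pool.Agent.MC.NF
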