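import Pool.Agent.P.MP_2677b3_gt.NfSC1
import Pool.Agent.P.MP_2677b3_gt.NfSC2
import Pool.Agent.P.MP_2677b3_gt.NfLab

namespace Pool.Agent.MC.NF

variable {M : CMap} {H : M.D → Prop} {G : GS} {n K : ℕ} (g : GD M H G n K)

/-- The handle edges and arcs owned by a piece. -/
def nfnameEd (G : GS) (x : G.X) : List G.Ed :=
  ((List.finRange (G.h x)).flatMap fun i =>
    [.inl ⟨x, i, true, true⟩, .inl ⟨x, i, false, true⟩, .inl ⟨x, i, true, false⟩,
      .inl ⟨x, i, false, false⟩]) ++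
  ((G.ord x).flatMap fun c => [.inr (.inl (c, true)), .inr (.inl (c, false))])

theorem nfname_mem {E : G.Ed} {x : G.X} (h : ow G E = some x) : E ∈ nfnameEd G x := by
  rcases E with ⟨y, i, u, s⟩ | ⟨c, s⟩ | c
  · obtain rfl : y = x := Option.some.inj h
    refine List.mem_append_left _ (List.mem_flatMap.2 ⟨i, List.mem_finRange i, ?_⟩)
    cases u <;> cases s <;> simp
  · have hc : G.own c = x := Option.some.inj h
    refine List.mem_append_right _ (List.mem_flatMap.2 ⟨c, (G.mem_ord x c).2 hc, ?_⟩)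
    cases s <;> simp
  · cases h

theorem nfname_hs (x : G.X) : g.hs x = (List.finRange (G.h x)).map
    fun i : Fin (G.h x) => (g.hs x).getD i (.inr true, .inr true) := by
  refine List.ext_getElem (by simp [g.hlen]) fun i h1 h2 => ?_
  simp [List.getElem?_eq_getElem h1]

theorem nfname_hmem (x : G.X) (i : Fin (G.h x)) :
    (g.hs x).getD i (.inr true, .inr true) ∈ g.hs x := by
  have h : (i : ℕ) < (g.hs x).length := by rw [g.hlen]; exact i.2
  rw [List.getD_eq_getElem _ _ h]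
  exact List.getElem_mem h

theorem nfname_flat {α β : Type} (l : List α) (f f' : α → List β)
    (h : ∀ a, (f a).Sublist (f' a)) : (l.flatMap f).Sublist (l.flatMap f') := by
  induction l with
  | nil => simp
  | cons a l ih => simpa using (h a).append ih

theorem nfname_sub (x : G.X) :
    ((nfnameEd G x).map g.nu ++ (g.pend x).flatMap fun p => [p, g.C.ι p]).Sublist (g.W x) := by
  have h1 : ((List.finRange (G.h x)).flatMap fun i =>
      ([.inl ⟨x, i, true, true⟩, .inl ⟨x, i, false, true⟩, .inl ⟨x, i, true, false⟩,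
        .inl ⟨x, i, false, false⟩] : List G.Ed)).map g.nu =
      (g.hs x).flatMap (fun u => [u.1, u.2, g.C.ι u.1, g.C.ι u.2]) := by
    conv_rhs => rw [nfname_hs g x]
    rw [List.map_flatMap, List.flatMap_map]
    rfl
  rw [nfnameEd, List.map_append, h1, GD.W, Ctx.word, List.append_assoc, List.flatMap_append,
    List.flatMap_map, List.flatMap_map, List.map_flatMap]
  refine (List.Sublist.refl _).append (List.Sublist.append (nfname_flat _ _ _ fun c => ?_)
    (List.Sublist.refl _))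
  exact (List.sublist_append_right _ _).cons_cons _

theorem nfname_nodup (x : G.X) :
    ((nfnameEd G x).map g.nu ++ (g.pend x).flatMap fun p => [p, g.C.ι p]).Nodup :=
  (g.rd x).nodup.sublist (nfname_sub g x)

theorem nfname_seg {x : G.X} {c : G.C} (h : G.own c = x) :
    (g.es c, (cyc M H (g.cd.β c)).map Sum.inl) ∈
      (G.ord x).map (fun c => (g.es c, (cyc M H (g.cd.β c)).map Sum.inl)) ++
        (g.pend x).map (fun p => (p, ([] : List (M.D ⊕ Bool)))) :=
  List.mem_append_left _ (List.mem_map.2 ⟨c, (G.mem_ord x c).2 h, rfl⟩)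

theorem nfname_pend {x : G.X} {p : M.D ⊕ Bool} (h : p ∈ g.pend x) :
    (p, []) ∈ (G.ord x).map (fun c => (g.es c, (cyc M H (g.cd.β c)).map Sum.inl)) ++
        (g.pend x).map (fun p => (p, ([] : List (M.D ⊕ Bool)))) :=
  List.mem_append_right _ (List.mem_map.2 ⟨p, h, rfl⟩)

theorem nfname_ne (c : G.C) :
    ((cyc M H (g.cd.β c)).map Sum.inl : List (M.D ⊕ Bool)) ≠ [] := fun h =>
  List.ne_nil_of_mem ((mem_cyc g.lab (g.cd.β_H c)).2 ⟨g.cd.β_H c, rfl⟩) (List.map_eq_nil_iff.1 h)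

theorem nfname_head {D : Type} (f : D → D) (d : D) {k : ℕ} (hk : 0 < k) :
    (orbL f d k).head? = some d := by
  obtain ⟨k, rfl⟩ := Nat.exists_eq_succ_of_ne_zero hk.ne'
  simp [orbL, List.range_succ_eq_map]

theorem nfname_nil {x : G.X} {l : M.D ⊕ Bool} (hl : ¬ g.C.H l)
    (h : l ∈ (g.pend x).flatMap fun p => [p, g.C.ι p]) : g.pG x l = [] := by
  rw [GD.pG, dif_neg]
  · rcases l with d | b
    · exact dif_neg fun h' : H d ∧ g.cd.mark d => hl h'.1
    · rfl
  · rintro ⟨E, hE, rfl⟩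
    exact (List.nodup_append.1 (nfname_nodup g x)).2.2 _
      (List.mem_map_of_mem (nfname_mem hE)) _ h rfl

theorem GD.same_iff (x : G.X) (d : M.D) : M.Same H (g.d₀ x) d ↔ g.lab.reg d = x := by
  rw [← g.lab.reg_iff, g.hd₀, eq_comm]

theorem GD.nu_inv {E : G.Ed} {x : G.X} (h : ow G E = some x) :
    ow G (G.inv E) = some x ∧ g.nu (G.inv E) = g.C.ι (g.nu E) := by
  rcases E with ⟨y, i, u, s⟩ | ⟨c, s⟩ | c
  · refine ⟨h, ?_⟩
    cases u <;> cases s
    · exact (g.C.ιι _).symm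
    · rfl
    · exact (g.C.ιι _).symm
    · rfl
  · refine ⟨h, ?_⟩
    cases s
    · exact (g.C.ιι _).symm
    · rfl
  · cases h

theorem GD.nu_mem {E : G.Ed} {x : G.X} (h : ow G E = some x) :
    g.nu E ∈ g.W x ∧ ¬ g.C.H (g.nu E) := by
  refine ⟨(nfname_sub g x).subset
    (List.mem_append_left _ (List.mem_map_of_mem (nfname_mem h))), ?_⟩
  rcases E with ⟨y, i, u, s⟩ | ⟨c, s⟩ | c
  · have h1 := (g.rd y).shape.1 _ (nfname_hmem g y i)
    cases u <;> cases s
    · exact not_H_ι h1.2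
    · exact h1.2
    · exact not_H_ι h1.1
    · exact h1.1
  · have h1 := ((g.rd (G.own c)).shape.2 _ (nfname_seg g rfl)).1
    cases s
    · exact not_H_ι h1
    · exact h1
  · cases h

theorem GD.pG_nu {E : G.Ed} {x : G.X} (h : ow G E = some x) : g.pG x (g.nu E) = [E] := by
  have h0 : ∃ E', ow G E' = some x ∧ g.nu E' = g.nu E := ⟨E, h, rfl⟩
  rw [GD.pG, dif_pos h0]
  exact congrArg (fun E => [E]) (List.inj_on_of_nodup_map
    (List.nodup_append.1 (nfname_nodup g x)).1 (nfname_mem h0.choose_spec.1) (nfname_mem h)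
    h0.choose_spec.2)

open Classical in
theorem GD.pG_H (x : G.X) {d : M.D} (h : H d) :
    g.pG x (.inl d) = if g.cd.mark d then [.inr (.inr (g.lab.cuf d h))] else [] := by
  rw [GD.pG, dif_neg]
  · by_cases hm : g.cd.mark d
    · rw [if_pos hm]; exact dif_pos ⟨h, hm⟩
    · rw [if_neg hm]; exact dif_neg fun h' => hm h'.2
  · rintro ⟨E, hE, e⟩
    have := (g.nu_mem hE).2
    rw [e] at this
    exact this h

theorem GD.pG_pend {x : G.X} {p : M.D ⊕ Bool} (h : p ∈ g.pend x) :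
    ¬ g.C.H p ∧ g.pG x p = [] ∧ g.pG x (g.C.ι p) = [] := by
  have h1 : ¬ g.C.H p := ((g.rd x).shape.2 _ (nfname_pend g h)).1
  exact ⟨h1, nfname_nil g h1 (List.mem_flatMap.2 ⟨p, h, by simp⟩),
    nfname_nil g (not_H_ι h1) (List.mem_flatMap.2 ⟨p, h, by simp⟩)⟩

theorem GD.length_pG (x : G.X) (l : M.D ⊕ Bool) : (g.pG x l).length ≤ 1 := by
  rw [GD.pG]
  split
  · exact le_rfl
  · rcases l with d | b
    · simp only [Sum.elim_inl]
      split
      · exact le_rfl
      · exact Nat.zero_le _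
    · exact Nat.zero_le _

theorem GD.mem_W {x : G.X} {l : M.D ⊕ Bool} (h : l ∈ g.W x) :
    (∃ E, ow G E = some x ∧ g.nu E = l) ∨ (∃ d, l = .inl d ∧ H d ∧ g.lab.reg d = x) ∨
      ∃ p ∈ g.pend x, l = p ∨ l = g.C.ι p := by
  rcases mem_word.1 h with ⟨u, hu, h1⟩ | ⟨u, hu, h1⟩
  · rw [nfname_hs g x] at hu
    obtain ⟨i, -, rfl⟩ := List.mem_map.1 hu
    rcases h1 with h1 | h1 | h1 | h1
    · exact Or.inl ⟨.inl ⟨x, i, true, true⟩, rfl, h1.symm⟩
    · exact Or.inl ⟨.inl ⟨x, i, false, true⟩, rfl, h1.symm⟩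
    · exact Or.inl ⟨.inl ⟨x, i, true, false⟩, rfl, h1.symm⟩
    · exact Or.inl ⟨.inl ⟨x, i, false, false⟩, rfl, h1.symm⟩
  · rcases List.mem_append.1 hu with hu | hu
    · obtain ⟨c, hc, rfl⟩ := List.mem_map.1 hu
      have hc' := (G.mem_ord x c).1 hc
      rcases h1 with h1 | h1 | h1
      · exact Or.inl ⟨.inr (.inl (c, true)), congrArg some hc', h1.symm⟩
      · obtain ⟨d, hd, rfl⟩ := List.mem_map.1 h1
        obtain ⟨h2, h3⟩ := (mem_cyc g.lab (g.cd.β_H c)).1 hd
        refine Or.inr (Or.inl ⟨d, rfl, h2, ?_⟩)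
        rw [← g.lab.own_cuf d h2, h3, g.cd.β_cuf, hc']
      · exact Or.inl ⟨.inr (.inl (c, false)), congrArg some hc', h1.symm⟩
    · obtain ⟨p, hp, rfl⟩ := List.mem_map.1 hu
      rcases h1 with h1 | h1 | h1
      · exact Or.inr (Or.inr ⟨p, hp, Or.inl h1⟩)
      · cases h1
      · exact Or.inr (Or.inr ⟨p, hp, Or.inr h1⟩)

theorem GD.empty_seg {x : G.X} {e : M.D ⊕ Bool} :
    (e, []) ∈ (G.ord x).map (fun c => (g.es c, (cyc M H (g.cd.β c)).map Sum.inl)) ++
      (g.pend x).map (fun p => (p, ([] : List (M.D ⊕ Bool)))) ↔ e ∈ g.pend x := by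
  refine ⟨fun h => ?_, nfname_pend g⟩
  rcases List.mem_append.1 h with h | h
  · obtain ⟨c, -, h'⟩ := List.mem_map.1 h
    exact absurd (congrArg Prod.snd h') (nfname_ne g c)
  · obtain ⟨p, hp, h'⟩ := List.mem_map.1 h
    exact (show p = e from congrArg Prod.fst h') ▸ hp

theorem GD.s_nu {E : G.Ed} {x : G.X} (h : ow G E = some x) :
    (g.rd x).t (g.nu E) = (g.rd x).s (g.nu (G.inv E)) ∧
    (((g.rd x).s (g.nu E) = none ∧ G.src E = .inl x) ∨
      ∃ c, (g.rd x).s (g.nu E) = some (.inl (g.cd.β c)) ∧ G.src E = .inr (Quotient.mk _ c)) := by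
  refine ⟨by rw [(g.nu_inv h).2]; exact (g.rd x).typ.1 _ (g.nu_mem h).2, ?_⟩
  rcases E with ⟨y, i, u, s⟩ | ⟨c, s⟩ | c
  · obtain rfl : y = x := Option.some.inj h
    have h1 := (g.rd y).shape.1 _ (nfname_hmem g y i)
    have h2 := (g.rd y).ends.1 _ (nfname_hmem g y i)
    refine Or.inl ⟨?_, rfl⟩
    cases u <;> cases s
    · exact ((g.rd y).typ.1 _ h1.2).symm.trans h2.2.2.2
    · exact h2.2.2.1
    · exact ((g.rd y).typ.1 _ h1.1).symm.trans h2.2.1
    · exact h2.1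
  · have hc : G.own c = x := Option.some.inj h
    have hu := nfname_seg g hc
    cases s
    · obtain ⟨β, -, -, h3, h4, h5⟩ := (g.rd x).cyc_seg hu (nfname_ne g c)
      have h6 := congrArg List.head? (List.map_injective_iff.2 Sum.inl_injective h4)
      rw [cyc, cyc, nfname_head _ _ h3, nfname_head _ _ (period_pos g.lab (g.cd.β_H c))] at h6
      refine Or.inr ⟨c, ?_, rfl⟩
      rw [Option.some.inj h6]
      exact ((g.rd x).typ.1 _ ((g.rd x).shape.2 _ hu).1).symm.trans h5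
    · exact Or.inl ⟨(g.rd x).ends.2 _ hu, congrArg Sum.inl hc⟩
  · cases h

theorem GD.s_pend {x : G.X} {p : M.D ⊕ Bool} (h : p ∈ g.pend x) :
    (g.rd x).s p = none ∧ (g.rd x).t (g.C.ι p) = none ∧ (g.rd x).s (g.C.ι p) = (g.rd x).t p ∧
      ∃ d, g.lab.reg d = x ∧ (∀ k : ℕ, ¬ H (M.ψ^[k] d)) ∧
        (g.rd x).t p = some (.inr (M.gd.src d)) := by
  have hu := nfname_pend g h
  have h1 : ¬ g.C.H p := (g.pG_pend h).1
  have h2 : (g.rd x).s p = none := (g.rd x).ends.2 _ hu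
  obtain ⟨d, h3, h4, h5⟩ := (g.rd x).tip hu
  refine ⟨h2, ?_, ((g.rd x).typ.1 _ h1).symm, d, (g.same_iff x d).1 h3, h4, h5⟩
  rw [(g.rd x).typ.1 _ (not_H_ι h1), g.C.ιι, h2]

end Pool.Agent.MC.NF
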