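import Pool.Agent.P.MP_2677b3_gt.NfHd
import Pool.Agent.P.MP_2677b3_gt.NfMerge
import Pool.Agent.P.MP_2677b3_gt.NfKill
import Pool.Agent.P.MP_2677b3_gt.NfWord

namespace Pool.Agent.MC.NF

variable {M : CMap} {H : M.D → Prop}

theorem nfreg_lets {L : Type} (w : List L) : lets ((w, []) : St L) = w := by
  simp [lets]

theorem rd_of_steps (hα : ∀ d, H d → H (M.α d)) (d₀ : M.D) {m K : ℕ}
    {hs : List ((M.D ⊕ Bool) × (M.D ⊕ Bool))} {sg : List ((M.D ⊕ Bool) × List (M.D ⊕ Bool))}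
    (hsh : (cx M H hα).Shape hs sg)
    (h : (cx M H hα).Steps m (st0 M H d₀) ((cx M H hα).word hs sg, []))
    (hK : ((regS M H d₀).card + 4) ^ m ≤ K) : Nonempty (RD M H hα d₀ K hs sg) := by
  obtain ⟨⟨Ψ, Φ, h1, h2⟩, hw, hm, hc⟩ := steps_rch (N := (regS M H d₀).card + 2) h
    (wf_st0 hα d₀) (length_st0 d₀).le
  obtain ⟨s, t, hty, hag, hΦ, hΨ⟩ := h2.typ _ _ _ _ (typ_cut hα d₀)
  have hK' : ((regS M H d₀).card + 2 + 2) ^ m ≤ K := hK
  have hw1 := hw.1
  rw [nfreg_lets] at hw1 hm hc hΦ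
  refine ⟨⟨Ψ, Φ, s, t, hsh, hw1, fun d hd => ?_, ?_, half_mono h1 hK', half_mono h2 hK', hty,
    fun d hd => ?_, hΨ, hΦ⟩⟩
  · rw [hm (Sum.inl d) hd, mem_st0]
    constructor
    · rintro (⟨b, hb⟩ | ⟨d', hd', h'⟩)
      · cases hb
      · cases hd'
        exact h'
    · intro h'
      exact Or.inr ⟨d, rfl, h'⟩
  · simpa using hc
  · obtain ⟨e1, e2⟩ := hag (Sum.inl d) hd
    rw [e1, e2]
    exact ⟨congrArg some (cs_of_H hd), congrArg some (cs_φ_of_H hα hd)⟩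

theorem reg_first (hα : ∀ d, H d → H (M.α d)) (d₀ : M.D) : ∃ hs sg, (cx M H hα).Shape hs sg ∧
    (cx M H hα).Steps (11 * ((regS M H d₀).card + 2)) (st0 M H d₀)
      ((cx M H hα).word hs sg, []) := by
  have hwf := wf_st0 hα d₀
  have hlen := length_st0 (H := H) d₀
  obtain ⟨W', hW⟩ := merge_steps (C := cx M H hα) (Sum.inr true) ((face M d₀).map Sum.inl)
    (st0 M H d₀).2 hwf (conn_st0 hα d₀) (ne_st0 d₀)
  have hW' : (cx M H hα).Steps (st0 M H d₀).2.length (st0 M H d₀)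
      (Sum.inr true :: W' ++ [(cx M H hα).ι (Sum.inr true)], []) := hW
  obtain ⟨-, hw2, -, hc⟩ := steps_rch hW' hwf hlen.le
  obtain ⟨hs, sg, R, hsh, hR, hst⟩ := nf_steps _ hw2
  have htot := steps_trans hW' hst
  rw [nfreg_lets, hlen] at hc
  simp only [List.length_nil] at hc
  obtain ⟨⟨Ψ, Φ, -, h2⟩, -, -, -⟩ := steps_rch htot hwf hlen.le
  obtain ⟨s, t, hty, hag, -, -⟩ := h2.typ _ _ _ _ (typ_cut hα d₀)
  have hp := (typ_word hsh hty.1 hty.2.1).2.2
  have hR0 : R = [] := by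
    rcases R with _ | ⟨d, R⟩
    · rfl
    · exfalso
      have hd := hR d (by simp)
      have h0 : s d = none := hp.1
      rw [(hag d hd).1] at h0
      rcases d with d | b
      · cases h0
      · exact hd
  subst hR0
  rw [List.append_nil] at htot
  exact ⟨hs, sg, hsh, steps_mono htot (by omega)⟩

end Pool.Agent.MC.NF
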