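import Pool.Agent.P.MP_2677b3_gt.NfReg
import Pool.Agent.P.MP_2677b3_gt.NfSC3

namespace Pool.Agent.MC.NF

def nfrel_gl {M : CMap} (w : List (M.D ⊕ Bool)) : List M.D := w.filterMap Sum.getLeft?

def nfrel_sg (M : CMap) (p : List ((M.D ⊕ Bool) × Bool)) : List M.D := sgn M.gd (pM M) p

theorem nfrel_ev (M : CMap) (p : List ((M.D ⊕ Bool) × Bool)) :
    M.gd.ev (nfrel_sg M p) = evs (fun l => M.gd.ev (pM M l)) p := ev_sgn _ _ _

open Classical in
theorem nf_rel' (M : CMap) (H : M.D → Prop) (hα : ∀ d, H d → H (M.α d)) (d₀ : M.D) :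
    ∃ (y : M.gd.V) (ab seg : List (List M.D × List M.D)),
      (∀ u ∈ ab, M.gd.Path y u.1 y ∧ M.gd.Path y u.2 y) ∧
      (∀ u ∈ seg, ∃ d k, H d ∧ 0 < k ∧ (M.bd H)^[k] d = d ∧ u.2 = orbL (M.bd H) d k ∧
        M.gd.Path y u.1 (M.gd.src d)) ∧
      (seg.flatMap Prod.snd).Nodup ∧
      (∀ d, d ∈ seg.flatMap Prod.snd ↔ H d ∧ M.Same H d₀ d) ∧
      (ab.map fun u => M.gd.ev u.1 * M.gd.ev u.2 * (M.gd.ev u.1)⁻¹ * (M.gd.ev u.2)⁻¹).prod *
        (seg.map fun u => M.gd.ev u.1 * M.gd.ev u.2 * (M.gd.ev u.1)⁻¹).prod = 1 ∧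
      M.Euler H (Finset.univ.filter fun d => M.Same H d₀ d) ab.length seg.length := by
  obtain ⟨hs, sg, hsh, hst⟩ := reg_first hα d₀
  obtain ⟨r⟩ := rd_of_steps hα d₀ hsh hst le_rfl
  have hpath : ∀ l ∈ (cx M H hα).word hs sg,
      M.gd.Path (FM M d₀ (r.s l)) (sgn M.gd (pM M) (r.Φ l)) (FM M d₀ (r.t l)) := fun l hl =>
    (r.tΦ l hl).sgn (FM M d₀) fun u _ => path_pM d₀ u.1
  obtain ⟨hc, hk, -⟩ := r.h2.val _ _ (compat_pM hα) (kill_pM hα d₀)
  have hgl : ∀ w : List M.D, nfrel_gl (w.map (Sum.inl : M.D → M.D ⊕ Bool)) = w :=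
    fun w => by simp [nfrel_gl, List.filterMap_map, Function.comp_def]
  set sg' := sg.filter fun u => !u.2.isEmpty with hsg'
  have hmem : ∀ u ∈ sg', u ∈ sg ∧ u.2 ≠ [] := fun u hu => by
    have := List.mem_filter.1 hu
    exact ⟨this.1, by simpa using this.2⟩
  have hflat : ∀ l : List ((M.D ⊕ Bool) × List (M.D ⊕ Bool)),
      ((l.filter fun u => !u.2.isEmpty).map fun u =>
        (nfrel_sg M (r.Φ u.1), nfrel_gl u.2)).flatMap Prod.snd =
        nfrel_gl (l.flatMap Prod.snd) := fun l => by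
    induction l with
    | nil => rfl
    | cons u l ih =>
      obtain ⟨e, P⟩ := u
      cases P with
      | nil => simpa [nfrel_gl] using ih
      | cons a P =>
        simp only [List.filter_cons, List.isEmpty_cons, Bool.not_false, if_true, List.map_cons,
          List.flatMap_cons, ih]
        simp only [nfrel_gl, List.filterMap_append]
  refine ⟨M.gd.src d₀, hs.map fun u => (nfrel_sg M (r.Φ u.1), nfrel_sg M (r.Φ u.2)),
    sg'.map fun u => (nfrel_sg M (r.Φ u.1), nfrel_gl u.2), ?_, ?_, ?_, ?_, ?_,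
    ?_⟩
  · intro v hv
    obtain ⟨u, hu, rfl⟩ := List.mem_map.1 hv
    obtain ⟨e1, e2, e3, e4⟩ := r.ends.1 u hu
    have h1 := hpath u.1 (mem_word.2 (Or.inl ⟨u, hu, Or.inl rfl⟩))
    have h2 := hpath u.2 (mem_word.2 (Or.inl ⟨u, hu, Or.inr (Or.inl rfl)⟩))
    rw [e1, e2] at h1
    rw [e3, e4] at h2
    exact ⟨h1, h2⟩
  · intro v hv
    obtain ⟨u, hu, rfl⟩ := List.mem_map.1 hv
    obtain ⟨β, hH, -, hp, e, et⟩ := r.cyc_seg (hmem u hu).1 (hmem u hu).2
    have h1 := hpath u.1 (mem_word.2 (Or.inr ⟨u, (hmem u hu).1, Or.inl rfl⟩))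
    rw [r.ends.2 u (hmem u hu).1, et] at h1
    refine ⟨β, _, hH, hp, Function.iterate_minimalPeriod, ?_, h1⟩
    change nfrel_gl u.2 = _
    rw [e, hgl]; rfl
  · rw [hflat]
    refine (nodup_snd r.nodup).filterMap ?_
    rintro (a | a) (a' | a') b h1 h2 <;> simp_all
  · intro d
    rw [hflat, nfrel_gl, List.mem_filterMap]
    constructor
    · rintro ⟨l, hl, e⟩
      obtain rfl : l = Sum.inl d := by rcases l with a | a <;> simp_all
      obtain ⟨u, hu, hdu⟩ := List.mem_flatMap.1 hl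
      have hH : H d := (hsh.2 u hu).2 _ hdu
      exact ⟨hH, (r.memH d hH).1 (mem_word.2 (Or.inr ⟨u, hu, Or.inr (Or.inl hdu)⟩))⟩
    · rintro ⟨hH, hs1⟩
      have hH' : (cx M H hα).H (Sum.inl d) := hH
      exact ⟨Sum.inl d, (mem_word_H hsh hH').1 ((r.memH d hH).2 hs1), rfl⟩
  · have h1 := hk.1
    rw [prod_word hc hsh] at h1
    rw [← h1, List.map_map, List.map_map]
    congr 1
    · congr 1
      refine List.map_congr_left fun u _ => ?_
      simp only [Function.comp_def, nfrel_ev]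
    · have hall : ∀ l : List ((M.D ⊕ Bool) × List (M.D ⊕ Bool)), (∀ u ∈ l, u ∈ sg) →
          ((l.filter fun u => !u.2.isEmpty).map ((fun u : List M.D × List M.D =>
            M.gd.ev u.1 * M.gd.ev u.2 * (M.gd.ev u.1)⁻¹) ∘ fun u =>
              (nfrel_sg M (r.Φ u.1), nfrel_gl u.2))).prod =
          (l.map fun u => evs (fun l => M.gd.ev (pM M l)) (r.Φ u.1) *
            (u.2.map fun d => evs (fun l => M.gd.ev (pM M l)) (r.Φ d)).prod *
              (evs (fun l => M.gd.ev (pM M l)) (r.Φ u.1))⁻¹).prod := fun l hl => by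
        induction l with
        | nil => rfl
        | cons u l ih =>
          have ih' := ih fun v hv => hl v (List.mem_cons_of_mem _ hv)
          by_cases hne : u.2 = []
          · rw [List.filter_cons_of_neg (by simp [hne]), ih']
            simp [hne]
          · rw [List.filter_cons_of_pos (by simpa using hne), List.map_cons, List.prod_cons, ih',
              List.map_cons, List.prod_cons]
            congr 1
            obtain ⟨β, -, -, -, e, -⟩ := r.cyc_seg (hl u List.mem_cons_self) hne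
            have hHs := (hsh.2 u (hl u List.mem_cons_self)).2
            have e2 : (u.2.map fun d => evs (fun l => M.gd.ev (pM M l)) (r.Φ d)).prod =
                M.gd.ev (nfrel_gl u.2) := by
              rw [List.map_congr_left (g := fun l => M.gd.ev (pM M l))
                (fun d hd => by rw [r.h2.idH d (hHs d hd)]; simp), e, hgl, List.map_map]
              refine congrArg List.prod (List.map_congr_left fun d _ => ?_)
              exact mul_one _
            simp only [Function.comp_def, nfrel_ev, e2]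
      exact hall sg fun _ h => h
  · rw [List.length_map, List.length_map]
    exact r.euler

end Pool.Agent.MC.NF
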