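import Pool.Agent.P.MP_2677b3_gt.NfKill
import Pool.Agent.P.MP_2677b3_gt.NfWord

namespace Pool.Agent.MC.NF

variable {M : CMap} {H : M.D → Prop} {hα : ∀ d, H d → H (M.α d)} {d₀ : M.D} {K : ℕ}
  {hs : List ((M.D ⊕ Bool) × (M.D ⊕ Bool))} {sg : List ((M.D ⊕ Bool) × List (M.D ⊕ Bool))}

theorem nfsc1_typ (r : RD M H hα d₀ K hs sg) :
    (∀ u ∈ hs, r.s u.1 = none ∧ r.t u.1 = none ∧ r.s u.2 = none ∧ r.t u.2 = none) ∧
      ∀ u ∈ sg, r.s u.1 = none ∧ IsPath r.s r.t (r.t u.1) u.2 (r.t u.1) := by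
  have h := typ_word (R := []) (y := none) (z := none) r.shape r.typ.1
    (by rw [List.append_nil]; exact r.typ.2.1)
  exact ⟨h.1, h.2.1⟩

theorem nfsc1_H {l : M.D ⊕ Bool} (h : (cx M H hα).H l) : ∃ d, H d ∧ l = .inl d := by
  rcases l with d | b
  · exact ⟨d, h, rfl⟩
  · exact h.elim

theorem nfsc1_walk (r : RD M H hα d₀ K hs sg) (w : List (M.D ⊕ Bool)) : ∀ (b : M.D) (y : OV M),
    (∀ l ∈ w, (cx M H hα).H l) → IsPath r.s r.t (some (.inl b)) w y →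
      w = (orbL (M.bd H) b w.length).map Sum.inl ∧ y = some (.inl ((M.bd H)^[w.length] b)) := by
  induction w with
  | nil => exact fun b y _ h => ⟨rfl, h.symm⟩
  | cons l w ih =>
    intro b y hw h
    obtain ⟨d, hd, rfl⟩ := nfsc1_H (hw l List.mem_cons_self)
    obtain ⟨h1, h2⟩ := h
    rw [(r.agree d hd).1] at h1
    obtain rfl : d = b := Sum.inl.inj (Option.some.inj h1)
    rw [(r.agree d hd).2] at h2
    obtain ⟨h3, h4⟩ := ih _ y (fun l hl => hw l (List.mem_cons_of_mem _ hl)) h2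
    refine ⟨?_, h4⟩
    rw [List.length_cons, orbL, List.range_succ_eq_map, List.map_cons, List.map_cons,
      List.map_map (f := Nat.succ)]
    exact congrArg _ h3

theorem RD.ends (r : RD M H hα d₀ K hs sg) :
    (∀ u ∈ hs, r.s u.1 = none ∧ r.t u.1 = none ∧ r.s u.2 = none ∧ r.t u.2 = none) ∧
      ∀ u ∈ sg, r.s u.1 = none := by
  exact ⟨(nfsc1_typ r).1, fun u hu => ((nfsc1_typ r).2 u hu).1⟩

theorem RD.cyc_seg (r : RD M H hα d₀ K hs sg) {u : (M.D ⊕ Bool) × List (M.D ⊕ Bool)}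
    (hu : u ∈ sg) (hne : u.2 ≠ []) : ∃ β, H β ∧ M.Same H d₀ β ∧
      0 < Function.minimalPeriod (M.bd H) β ∧ u.2 = (cyc M H β).map Sum.inl ∧
      r.t u.1 = some (.inl β) := by
  have hp := ((nfsc1_typ r).2 u hu).2
  have hH := (r.shape.2 u hu).2
  have hn : u.2.Nodup := (List.nodup_flatMap.1 (nodup_snd r.nodup)).1 u hu
  obtain ⟨l, w, e⟩ := List.exists_cons_of_ne_nil hne
  have hl : l ∈ u.2 := e ▸ List.mem_cons_self
  obtain ⟨β, hβ, rfl⟩ := nfsc1_H (hH l hl)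
  have ht : r.t u.1 = some (.inl β) := by
    rw [e] at hp
    rw [← hp.1, (r.agree β hβ).1]
  rw [ht] at hp
  obtain ⟨h1, h2⟩ := nfsc1_walk r u.2 β _ hH hp
  have h3 : 0 < u.2.length := List.length_pos_iff.2 hne
  have h4 := orbL_minimal h3 (Sum.inl.inj (Option.some.inj h2)).symm
    (List.Nodup.of_map _ (h1 ▸ hn))
  refine ⟨β, hβ, (r.memH β hβ).1 (mem_word.2 (Or.inr ⟨u, hu, Or.inr (Or.inl hl)⟩)), h4 ▸ h3,
    ?_, ht⟩
  rw [cyc, ← h4]
  exact h1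

theorem RD.tip_surj (r : RD M H hα d₀ K hs sg) {d : M.D} (hd : M.Same H d₀ d)
    (hi : ∀ k : ℕ, ¬ H (M.ψ^[k] d)) : ∃ e, (e, []) ∈ sg ∧ r.t e = some (.inr (M.gd.src d)) := by
  have hl : Sum.inl d ∈ lets (st0 M H d₀) := (mem_st0 d₀ _).2 (Or.inr ⟨d, rfl, hd⟩)
  obtain ⟨⟨v, hv, h1⟩, -⟩ := SPath.ends_mem (r.h1.ne _) (r.tΨ _ hl)
  have h2 : sc M H d₀ (.inl d) = some (.inr (M.gd.src d)) := by
    change some (cs M H d) = _
    rw [cs, dif_neg (not_exists.2 hi)]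
  have h3 : v.1 ∈ (cx M H hα).word hs sg := by simpa [lets] using r.h1.sup _ hl v hv
  rw [h2] at h1
  generalize v.1 = l at h1 h3
  have hι : ∀ a, ¬ (cx M H hα).H a →
      r.s ((cx M H hα).ι a) = r.t a ∧ r.t ((cx M H hα).ι a) = r.s a := fun a ha =>
    ⟨(r.typ.1 a ha).symm, by rw [r.typ.1 _ (not_H_ι ha), (cx M H hα).ιι]⟩
  rcases mem_word.1 h3 with ⟨u, hu, h4⟩ | ⟨u, hu, h4⟩
  · obtain ⟨e1, e2, e3, e4⟩ := r.ends.1 u hu
    obtain ⟨n1, n2⟩ := r.shape.1 u hu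
    rcases h4 with rfl | rfl | rfl | rfl
    · simp [e1, e2] at h1
    · simp [e3, e4] at h1
    · simp [hι _ n1, e1, e2] at h1
    · simp [hι _ n2, e3, e4] at h1
  · have e1 := r.ends.2 u hu
    obtain ⟨n1, n2⟩ := r.shape.2 u hu
    have h5 : r.t u.1 = some (.inr (M.gd.src d)) := by
      rcases h4 with rfl | h4 | rfl
      · rw [e1] at h1
        exact (h1.resolve_left (Option.some_ne_none _)).symm
      · obtain ⟨b, hb, rfl⟩ := nfsc1_H (n2 l h4)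
        simp [r.agree b hb] at h1
      · rw [(hι _ n1).1, (hι _ n1).2, e1] at h1
        exact (h1.resolve_right (Option.some_ne_none _)).symm
    refine ⟨u.1, ?_, h5⟩
    by_cases hne : u.2 = []
    · rw [← hne]
      exact hu
    · obtain ⟨β, -, -, -, -, h6⟩ := r.cyc_seg hu hne
      rw [h5] at h6
      exact absurd (Option.some.inj h6) Sum.inr_ne_inl

end Pool.Agent.MC.NF
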