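import Pool.Agent.P.MP_2677b3_gt.NfDefs

namespace Pool.Agent.MC.NF

variable {L V Γ : Type} [Group Γ]

theorem nfsg_rv_cons (u : L × Bool) (p : List (L × Bool)) :
    rv (u :: p) = rv p ++ [(u.1, !u.2)] := by
  simp [rv]

theorem nfsg_pos_cons (d : L) (w : List L) : pos (d :: w) = (d, true) :: pos w := rfl

theorem nfsg_sub_true (Ψ : L → List (L × Bool)) (d : L) (p : List (L × Bool)) :
    sub Ψ ((d, true) :: p) = Ψ d ++ sub Ψ p := rfl

theorem nfsg_sub_false (Ψ : L → List (L × Bool)) (d : L) (p : List (L × Bool)) :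
    sub Ψ ((d, false) :: p) = rv (Ψ d) ++ sub Ψ p := rfl

theorem nfsg_sgn_true (A : Gd) (π : L → List A.E) (d : L) (p : List (L × Bool)) :
    sgn A π ((d, true) :: p) = π d ++ sgn A π p := rfl

theorem nfsg_sgn_false (A : Gd) (π : L → List A.E) (d : L) (p : List (L × Bool)) :
    sgn A π ((d, false) :: p) = A.rev (π d) ++ sgn A π p := rfl

@[simp] theorem evs_nil (χ : L → Γ) : evs χ [] = 1 := by
  rfl

@[simp] theorem evs_cons_true (χ : L → Γ) (d : L) (p : List (L × Bool)) :
    evs χ ((d, true) :: p) = χ d * evs χ p := by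
  simp [evs, sv]

@[simp] theorem evs_cons_false (χ : L → Γ) (d : L) (p : List (L × Bool)) :
    evs χ ((d, false) :: p) = (χ d)⁻¹ * evs χ p := by
  simp [evs, sv]

@[simp] theorem evs_append (χ : L → Γ) (p q : List (L × Bool)) :
    evs χ (p ++ q) = evs χ p * evs χ q := by
  simp [evs]

@[simp] theorem evs_rv (χ : L → Γ) (p : List (L × Bool)) : evs χ (rv p) = (evs χ p)⁻¹ := by
  induction p with
  | nil => simp [rv]
  | cons u p ih =>
    rw [nfsg_rv_cons, evs_append, ih]
    rcases u with ⟨d, _ | _⟩ <;> simp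

@[simp] theorem evs_pos (χ : L → Γ) (w : List L) : evs χ (pos w) = (w.map χ).prod := by
  induction w with
  | nil => rfl
  | cons d w ih =>
    rw [nfsg_pos_cons, evs_cons_true, ih]
    simp

theorem evs_sub (χ : L → Γ) (Ψ : L → List (L × Bool)) (p : List (L × Bool)) :
    evs χ (sub Ψ p) = evs (fun d => evs χ (Ψ d)) p := by
  induction p with
  | nil => rfl
  | cons u p ih =>
    rcases u with ⟨d, _ | _⟩ <;> simp [nfsg_sub_true, nfsg_sub_false, ih]

theorem evs_congr {χ χ' : L → Γ} {p : List (L × Bool)} (h : ∀ u ∈ p, χ u.1 = χ' u.1) :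
    evs χ p = evs χ' p := by
  induction p with
  | nil => rfl
  | cons u p ih =>
    have h1 := h u (by simp)
    have h2 := ih fun v hv => h v (by simp [hv])
    rcases u with ⟨d, _ | _⟩ <;> simp_all

@[simp] theorem length_rv (p : List (L × Bool)) : (rv p).length = p.length := by
  simp [rv]

@[simp] theorem length_pos (w : List L) : (pos w).length = w.length := by
  simp [pos]

theorem mem_rv {p : List (L × Bool)} {u : L × Bool} (h : u ∈ rv p) : ∃ u' ∈ p, u'.1 = u.1 := by
  rw [rv, List.mem_reverse, List.mem_map] at h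
  obtain ⟨u', h1, rfl⟩ := h
  exact ⟨u', h1, rfl⟩

theorem mem_pos {w : List L} {u : L × Bool} (h : u ∈ pos w) : u.1 ∈ w := by
  rw [pos, List.mem_map] at h
  obtain ⟨d, h1, rfl⟩ := h
  exact h1

theorem mem_sub {Ψ : L → List (L × Bool)} {p : List (L × Bool)} {u : L × Bool} (h : u ∈ sub Ψ p) :
    ∃ v ∈ p, ∃ u' ∈ Ψ v.1, u'.1 = u.1 := by
  rw [sub, List.mem_flatMap] at h
  obtain ⟨v, h1, h2⟩ := h
  refine ⟨v, h1, ?_⟩
  split_ifs at h2
  · exact ⟨u, h2, rfl⟩
  · exact mem_rv h2

theorem length_sub {Ψ : L → List (L × Bool)} {K : ℕ} (h : ∀ d, (Ψ d).length ≤ K)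
    (p : List (L × Bool)) : (sub Ψ p).length ≤ K * p.length := by
  refine length_flatMap_le p _ K fun u _ => ?_
  split_ifs
  · exact h _
  · rw [length_rv]; exact h _

theorem sub_ne {Ψ : L → List (L × Bool)} (h : ∀ d, Ψ d ≠ []) {p : List (L × Bool)} (hp : p ≠ []) :
    sub Ψ p ≠ [] := by
  obtain ⟨u, p, rfl⟩ := List.exists_cons_of_ne_nil hp
  have := h u.1
  rcases u with ⟨d, _ | _⟩
  · rw [nfsg_sub_false]
    intro h0
    rw [List.append_eq_nil_iff, ← List.length_eq_zero_iff, length_rv,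
      List.length_eq_zero_iff] at h0
    exact this h0.1
  · rw [nfsg_sub_true]
    intro h0
    exact this (List.append_eq_nil_iff.1 h0).1

theorem isPath_congr {s t s' t' : L → V} {x y : V} {w : List L}
    (h : ∀ d ∈ w, s' d = s d ∧ t' d = t d) (hw : IsPath s t x w y) : IsPath s' t' x w y := by
  induction w generalizing x with
  | nil => exact hw
  | cons d w ih =>
    obtain ⟨h1, h2⟩ := h d (by simp)
    refine ⟨h1.trans hw.1, ?_⟩
    rw [h2]
    exact ih (fun e he => h e (by simp [he])) hw.2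

@[simp] theorem sPath_nil {s t : L → V} {x y : V} : SPath s t x [] y ↔ x = y := by
  rfl

@[simp] theorem sPath_cons_true {s t : L → V} {x y : V} {d : L} {p : List (L × Bool)} :
    SPath s t x ((d, true) :: p) y ↔ s d = x ∧ SPath s t (t d) p y := by
  rfl

@[simp] theorem sPath_cons_false {s t : L → V} {x y : V} {d : L} {p : List (L × Bool)} :
    SPath s t x ((d, false) :: p) y ↔ t d = x ∧ SPath s t (s d) p y := by
  rfl

theorem SPath.append {s t : L → V} {x y z : V} {p q : List (L × Bool)} (h : SPath s t x p y)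
    (h' : SPath s t y q z) : SPath s t x (p ++ q) z := by
  exact IsPath.append h h'

theorem sPath_pos {s t : L → V} {x y : V} {w : List L} :
    SPath s t x (pos w) y ↔ IsPath s t x w y := by
  induction w generalizing x with
  | nil => rfl
  | cons d w ih => rw [nfsg_pos_cons, sPath_cons_true, ih, isPath_cons]

theorem SPath.rv {s t : L → V} {x y : V} {p : List (L × Bool)} (h : SPath s t x p y) :
    SPath s t y (rv p) x := by
  induction p generalizing x with
  | nil => exact Eq.symm h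
  | cons u p ih =>
    rw [nfsg_rv_cons]
    rcases u with ⟨d, _ | _⟩
    · exact (ih h.2).append ⟨rfl, h.1⟩
    · exact (ih h.2).append ⟨rfl, h.1⟩

theorem SPath.congr {s t s' t' : L → V} {x y : V} {p : List (L × Bool)} (hp : SPath s t x p y)
    (h : ∀ u ∈ p, s' u.1 = s u.1 ∧ t' u.1 = t u.1) : SPath s' t' x p y := by
  refine isPath_congr (fun u hu => ?_) hp
  obtain ⟨h1, h2⟩ := h u hu
  simp [ss, h1, h2]

theorem SPath.sub {s t s' t' : L → V} {x y : V} {p : List (L × Bool)} {Ψ : L → List (L × Bool)}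
    (hp : SPath s t x p y) (h : ∀ u ∈ p, SPath s' t' (s u.1) (Ψ u.1) (t u.1)) :
    SPath s' t' x (sub Ψ p) y := by
  induction p generalizing x with
  | nil => exact hp
  | cons u p ih =>
    have h1 := h u (by simp)
    have h2 := fun v hv => h v (List.mem_cons_of_mem u hv)
    rcases u with ⟨d, _ | _⟩
    · obtain ⟨rfl, h3⟩ := sPath_cons_false.1 hp
      rw [nfsg_sub_false]
      exact h1.rv.append (ih h3 h2)
    · obtain ⟨rfl, h3⟩ := sPath_cons_true.1 hp
      rw [nfsg_sub_true]
      exact h1.append (ih h3 h2)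

theorem SPath.map {V' : Type} {s t : L → V} {s' t' : L → V'} (F : V → V') {x y : V}
    {p : List (L × Bool)} (hp : SPath s t x p y)
    (h : ∀ u ∈ p, s' u.1 = F (s u.1) ∧ t' u.1 = F (t u.1)) : SPath s' t' (F x) p (F y) := by
  induction p generalizing x with
  | nil => exact congrArg F hp
  | cons u p ih =>
    obtain ⟨h1, h1'⟩ := h u (by simp)
    have h2 := fun v hv => h v (List.mem_cons_of_mem u hv)
    rcases u with ⟨d, _ | _⟩
    · obtain ⟨rfl, h3⟩ := sPath_cons_false.1 hp
      exact sPath_cons_false.2 ⟨h1', h1 ▸ ih h3 h2⟩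
    · obtain ⟨rfl, h3⟩ := sPath_cons_true.1 hp
      exact sPath_cons_true.2 ⟨h1, h1' ▸ ih h3 h2⟩

theorem SPath.ends_eq {s t : L → V} {x y x' y' : V} {p : List (L × Bool)} (hne : p ≠ [])
    (h : SPath s t x p y) (h' : SPath s t x' p y') : x = x' ∧ y = y' := by
  obtain ⟨u, p, rfl⟩ := List.exists_cons_of_ne_nil hne
  exact ⟨h.1.symm.trans h'.1, IsPath.unique h.2 h'.2⟩

theorem SPath.ends_mem {s t : L → V} {x y : V} {p : List (L × Bool)} (hne : p ≠ [])
    (h : SPath s t x p y) :
    (∃ u ∈ p, x = s u.1 ∨ x = t u.1) ∧ ∃ u ∈ p, y = s u.1 ∨ y = t u.1 := by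
  have key : ∀ {x y : V} {p : List (L × Bool)}, p ≠ [] → SPath s t x p y →
      ∃ u ∈ p, x = s u.1 ∨ x = t u.1 := by
    intro x y p hne h
    obtain ⟨u, p, rfl⟩ := List.exists_cons_of_ne_nil hne
    refine ⟨u, by simp, ?_⟩
    rcases u with ⟨d, _ | _⟩
    · exact Or.inr h.1.symm
    · exact Or.inl h.1.symm
  refine ⟨key hne h, ?_⟩
  obtain ⟨u, hu, h1⟩ := key (fun h0 => hne (by
    rwa [← List.length_eq_zero_iff, length_rv, List.length_eq_zero_iff] at h0)) h.rv
  obtain ⟨u', hu', h2⟩ := mem_rv hu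
  exact ⟨u', hu', h2 ▸ h1⟩

/-- Change of gauge along a signed path. -/
theorem SPath.gauge {s t : L → V} {x y : V} {p : List (L × Bool)} (hp : SPath s t x p y)
    (θ : V → Γ) (ω χ : L → Γ) (h : ∀ u ∈ p, θ (s u.1) * ω u.1 = χ u.1 * θ (t u.1)) :
    θ x * evs ω p = evs χ p * θ y := by
  induction p generalizing x with
  | nil =>
    obtain rfl : x = y := hp
    simp
  | cons u p ih =>
    have h1 := h u (by simp)
    have h2 := fun v hv => h v (List.mem_cons_of_mem u hv)
    rcases u with ⟨d, _ | _⟩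
    · obtain ⟨rfl, h3⟩ := sPath_cons_false.1 hp
      have h4 : θ (t d) * (ω d)⁻¹ = (χ d)⁻¹ * θ (s d) := by
        rw [mul_inv_eq_iff_eq_mul, mul_assoc, h1, inv_mul_cancel_left]
      rw [evs_cons_false, evs_cons_false, ← mul_assoc, h4, mul_assoc, ih h3 h2, mul_assoc]
    · obtain ⟨rfl, h3⟩ := sPath_cons_true.1 hp
      rw [evs_cons_true, evs_cons_true, ← mul_assoc, h1, mul_assoc, ih h3 h2, mul_assoc]

theorem ev_sgn (A : Gd) (π : L → List A.E) (p : List (L × Bool)) :
    A.ev (sgn A π p) = evs (fun l => A.ev (π l)) p := by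
  induction p with
  | nil => rfl
  | cons u p ih =>
    rcases u with ⟨d, _ | _⟩ <;> simp [nfsg_sgn_true, nfsg_sgn_false, ih]

theorem SPath.sgn {A : Gd} {π : L → List A.E} {s t : L → V} (F : V → A.V) {x y : V}
    {p : List (L × Bool)} (hp : SPath s t x p y)
    (h : ∀ u ∈ p, A.Path (F (s u.1)) (π u.1) (F (t u.1))) : A.Path (F x) (sgn A π p) (F y) := by
  induction p generalizing x with
  | nil => exact congrArg F hp
  | cons u p ih =>
    have h1 := h u (by simp)
    have h2 := fun v hv => h v (List.mem_cons_of_mem u hv)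
    rcases u with ⟨d, _ | _⟩
    · obtain ⟨rfl, h3⟩ := sPath_cons_false.1 hp
      rw [nfsg_sgn_false]
      exact h1.rev.append (ih h3 h2)
    · obtain ⟨rfl, h3⟩ := sPath_cons_true.1 hp
      rw [nfsg_sgn_true]
      exact h1.append (ih h3 h2)

theorem length_sgn {A : Gd} {π : L → List A.E} (h : ∀ l, (π l).length ≤ 1)
    (p : List (L × Bool)) : (sgn A π p).length ≤ p.length := by
  rw [← one_mul p.length]
  refine length_flatMap_le p _ 1 fun u _ => ?_
  split_ifs
  · exact h _
  · rw [Gd.length_rev]; exact h _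

/-- Evaluation of a substituted word after a further substitution that respects reversal. -/
theorem ev_sgn_flatMap {A B : Gd} (π : L → List A.E) (f : A.E → List B.E)
    (hf : ∀ e, B.ev (f (A.inv e)) = (B.ev (f e))⁻¹) (p : List (L × Bool)) :
    B.ev ((sgn A π p).flatMap f) = evs (fun l => B.ev ((π l).flatMap f)) p := by
  have key : ∀ q : List A.E, B.ev ((A.rev q).flatMap f) = (B.ev (q.flatMap f))⁻¹ := by
    intro q
    induction q with
    | nil => simp
    | cons e q ih => simp [ih, hf]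
  induction p with
  | nil => rfl
  | cons u p ih =>
    rcases u with ⟨d, _ | _⟩ <;> simp [nfsg_sgn_true, nfsg_sgn_false, ih, key]

end Pool.Agent.MC.NF
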