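import Pool.Agent.P.MP_2677b3_gt.NfTr
import Pool.Agent.P.MP_2677b3_gt.NfE1
import Pool.Agent.P.MP_2677b3_gt.NfE2
import Pool.Agent.P.MP_2677b3_gt.NfMg

namespace Pool.Agent.MC.NF

variable {L : Type} {C : Ctx L}

theorem steps_mono {m m' : ℕ} {σ σ' : St L} (h : C.Steps m σ σ') (hm : m ≤ m') :
    C.Steps m' σ σ' := by
  induction h generalizing m' with
  | refl m σ => exact Ctx.Steps.refl _ _
  | step h1 _ ih =>
    obtain ⟨k, rfl⟩ : ∃ k, m' = k + 1 := ⟨m' - 1, by omega⟩
    exact Ctx.Steps.step h1 (ih (by omega))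

theorem steps_trans {m m' : ℕ} {σ σ' σ'' : St L} (h : C.Steps m σ σ') (h' : C.Steps m' σ' σ'') :
    C.Steps (m + m') σ σ'' := by
  induction h with
  | refl m σ => exact steps_mono h' (by omega)
  | step h1 _ ih => exact steps_mono (Ctx.Steps.step h1 (ih h')) (by omega)

theorem steps_one {σ σ' : St L} (h : C.Mv σ σ') : C.Steps 1 σ σ' :=
  Ctx.Steps.step h (Ctx.Steps.refl 0 _)

theorem mv_perm {σ σ' : St L} (h : C.Mv σ σ') :
    ((lets σ).Perm (lets σ') ∧ σ.2.length = σ'.2.length) ∨
      ∃ d, ¬ C.H d ∧ (lets σ).Perm (d :: C.ι d :: lets σ') ∧ σ.2.length = σ'.2.length + 1 := by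
  classical
  cases h with
  | e1 X P Y Z a ws h =>
    refine Or.inl ⟨List.perm_iff_count.2 fun l => ?_, rfl⟩
    simp only [lets, List.count_append, List.count_cons]; omega
  | e1' X P Y Z a ws h =>
    refine Or.inl ⟨List.perm_iff_count.2 fun l => ?_, rfl⟩
    simp only [lets, List.count_append, List.count_cons]; omega
  | e2 X P Y Z a ws h =>
    refine Or.inl ⟨List.perm_iff_count.2 fun l => ?_, rfl⟩
    simp only [lets, List.count_append, List.count_cons]; omega
  | mg X Y X' Y' d z A B h =>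
    refine Or.inr ⟨d, h, List.perm_iff_count.2 fun l => ?_, ?_⟩
    · simp only [lets, List.count_append, List.count_cons, List.flatten_append, List.flatten_cons]
      omega
    · simp only [List.length_append, List.length_cons]; omega

theorem nfst_notH {d : L} (h : ¬ C.H d) : ¬ C.H (C.ι d) := fun h' => h (C.ιι d ▸ C.Hι _ h')

theorem mv_wf {σ σ' : St L} (h : C.Mv σ σ') (hw : C.WF σ) : C.WF σ' := by
  rcases mv_perm h with ⟨hp, -⟩ | ⟨d, hd, hp, -⟩
  · exact ⟨hp.nodup_iff.1 hw.1, fun l hl hH => hp.mem_iff.1 (hw.2 l (hp.mem_iff.2 hl) hH)⟩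
  · have hn := hp.nodup_iff.1 hw.1
    simp only [List.nodup_cons, List.mem_cons, not_or] at hn
    refine ⟨hn.2.2, fun l hl hH => ?_⟩
    have h1 := hp.mem_iff.1 (hw.2 l (hp.mem_iff.2 (by simp [hl])) hH)
    simp only [List.mem_cons] at h1
    rcases h1 with h1 | h1 | h1
    · exact absurd (by rw [← h1, C.ιι]; exact hl) hn.2.1
    · have : l = d := by rw [← C.ιι l, h1, C.ιι]
      exact absurd (this ▸ hl) hn.1.2
    · exact h1

theorem nfst_mv_rch {N : ℕ} {σ σ' : St L} (h : C.Mv σ σ') (hw : C.WF σ)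
    (hN : (lets σ).length ≤ N) : C.Rch (N + 2) σ σ' := by
  have hw' := mv_wf h hw
  cases h with
  | e1 X P Y Z a ws h =>
    refine rch_mono (rch_e1 X P Y Z a ws h hw.1) ?_
    simp only [lets, List.length_append, List.length_cons] at hN; omega
  | e1' X P Y Z a ws h =>
    refine rch_mono (rch_symm (rch_e1 X P Y Z a ws h hw'.1)) ?_
    simp only [lets, List.length_append, List.length_cons] at hN; omega
  | e2 X P Y Z a ws h =>
    refine rch_mono (rch_e2 X P Y Z a ws h hw.1) ?_
    simp only [lets, List.length_append, List.length_cons] at hN; omega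
  | mg X Y X' Y' d z A B h =>
    refine rch_mono (rch_mg X Y X' Y' d z A B h hw.1) ?_
    simp only [lets, List.length_append, List.length_cons, List.flatten_append,
      List.flatten_cons] at hN
    omega

theorem steps_rch {m N : ℕ} {σ σ' : St L} (h : C.Steps m σ σ') (hw : C.WF σ)
    (hN : (lets σ).length ≤ N) :
    C.Rch ((N + 2) ^ m) σ σ' ∧ C.WF σ' ∧ (∀ d, C.H d → (d ∈ lets σ' ↔ d ∈ lets σ)) ∧
      (lets σ).length + 2 * σ'.2.length = (lets σ').length + 2 * σ.2.length := by
  induction h with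
  | refl m σ =>
    exact ⟨rch_mono (rch_refl σ) (Nat.one_le_pow _ _ (by omega)), hw, fun _ _ => Iff.rfl, rfl⟩
  | @step m σ σ₁ σ₂ h1 _ ih =>
    have hr := nfst_mv_rch h1 hw hN
    have hw1 := mv_wf h1 hw
    rcases mv_perm h1 with ⟨hp, hl⟩ | ⟨d, hd, hp, hl⟩
    · have hlen := hp.length_eq
      obtain ⟨i1, i2, i3, i4⟩ := ih hw1 (by omega)
      refine ⟨by rw [pow_succ']; exact rch_trans hr i1, i2,
        fun l hl => (i3 l hl).trans hp.mem_iff.symm, by omega⟩
    · have hlen := hp.length_eq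
      simp only [List.length_cons] at hlen
      obtain ⟨i1, i2, i3, i4⟩ := ih hw1 (by omega)
      refine ⟨by rw [pow_succ']; exact rch_trans hr i1, i2, fun l hH => (i3 l hH).trans ?_,
        by omega⟩
      rw [hp.mem_iff]
      simp only [List.mem_cons]
      constructor
      · exact fun h => Or.inr (Or.inr h)
      · rintro (rfl | rfl | h)
        · exact absurd hH hd
        · exact absurd hH (nfst_notH hd)
        · exact h

end Pool.Agent.MC.NF
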