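import Pool.Agent.P.MP_2677b3_gt.NfCut

namespace Pool.Agent.MC.NF

variable {M : CMap} {H : M.D → Prop}

theorem nfstart_pos (d : M.D) : 0 < Function.minimalPeriod M.φ d :=
  Function.minimalPeriod_pos_of_mem_periodicPts (M.φ.injective.mem_periodicPts d)

theorem nfstart_mem_face {d d' : M.D} : d' ∈ face M d ↔ M.φ.SameCycle d d' := by
  unfold face
  rw [mem_orbL_period (nfstart_pos d)]
  constructor
  · rintro ⟨k, rfl⟩
    exact ⟨k, by simp [Equiv.Perm.iterate_eq_pow]⟩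
  · intro h
    obtain ⟨k, -, hk⟩ := h.exists_pow_eq'
    exact ⟨k, by rw [Equiv.Perm.iterate_eq_pow]; exact hk⟩

theorem nfstart_nodup_face (d : M.D) : (face M d).Nodup := nodup_orbL_period _ _

open Classical in
/-- The faces of the region other than the first one. -/
noncomputable def nfstartQ (M : CMap) (H : M.D → Prop) (d₀ : M.D) :
    Finset (Quotient (Equiv.Perm.SameCycle.setoid M.φ)) :=
  ((regS M H d₀).image (Quotient.mk (Equiv.Perm.SameCycle.setoid M.φ))).erase (Quotient.mk _ d₀)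

theorem nfstart_snd (d₀ : M.D) :
    (st0 M H d₀).2 = (nfstartQ M H d₀).toList.map fun q => (face M q.out).map Sum.inl := rfl

theorem nfstart_fst (d₀ : M.D) :
    (st0 M H d₀).1 = Sum.inr true :: (face M d₀).map Sum.inl ++ [Sum.inr false] := rfl

theorem nfstart_mem_regS {d₀ d : M.D} : d ∈ regS M H d₀ ↔ M.Same H d₀ d := by
  simp [regS]

theorem nfstart_mk_eq {d d' : M.D} :
    Quotient.mk (Equiv.Perm.SameCycle.setoid M.φ) d = Quotient.mk _ d' ↔ M.φ.SameCycle d d' :=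
  Quotient.eq

theorem nfstart_out {q : Quotient (Equiv.Perm.SameCycle.setoid M.φ)} {d : M.D} :
    M.φ.SameCycle q.out d ↔ Quotient.mk _ d = q := by
  rw [← nfstart_mk_eq, Quotient.out_eq, eq_comm]

theorem nfstart_mem_Q {d₀ : M.D} {q : Quotient (Equiv.Perm.SameCycle.setoid M.φ)} :
    q ∈ nfstartQ M H d₀ ↔ q ≠ Quotient.mk _ d₀ ∧ ∃ d, M.Same H d₀ d ∧ Quotient.mk _ d = q := by
  simp [nfstartQ, nfstart_mem_regS]

theorem nfstart_mem_fst {d₀ : M.D} {l : M.D ⊕ Bool} :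
    l ∈ (st0 M H d₀).1 ↔ (∃ b, l = .inr b) ∨ ∃ d, l = .inl d ∧ M.φ.SameCycle d₀ d := by
  rw [nfstart_fst]
  rcases l with d | b
  · simp [nfstart_mem_face]
  · cases b <;> simp

theorem nfstart_mem_snd {d₀ : M.D} {w : List (M.D ⊕ Bool)} :
    w ∈ (st0 M H d₀).2 ↔ ∃ q ∈ nfstartQ M H d₀, w = (face M q.out).map Sum.inl := by
  rw [nfstart_snd, List.mem_map]
  constructor
  · rintro ⟨q, hq, rfl⟩
    exact ⟨q, Finset.mem_toList.1 hq, rfl⟩
  · rintro ⟨q, hq, rfl⟩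
    exact ⟨q, Finset.mem_toList.2 hq, rfl⟩

theorem nfstart_mem_flat {d₀ : M.D} {l : M.D ⊕ Bool} :
    l ∈ (st0 M H d₀).2.flatten ↔ ∃ d, l = .inl d ∧ M.Same H d₀ d ∧ ¬ M.φ.SameCycle d₀ d := by
  rw [List.mem_flatten]
  constructor
  · rintro ⟨w, hw, hl⟩
    obtain ⟨q, hq, rfl⟩ := nfstart_mem_snd.1 hw
    obtain ⟨d, hd, rfl⟩ := List.mem_map.1 hl
    obtain ⟨h1, d', h2, h3⟩ := nfstart_mem_Q.1 hq
    have h4 : Quotient.mk _ d = q := nfstart_out.1 (nfstart_mem_face.1 hd)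
    refine ⟨d, rfl, same_cycle h2 (nfstart_mk_eq.1 (h3.trans h4.symm)), fun h => h1 ?_⟩
    rw [← h4]
    exact (nfstart_mk_eq.2 h).symm
  · rintro ⟨d, rfl, h1, h2⟩
    refine ⟨_, nfstart_mem_snd.2 ⟨Quotient.mk _ d, nfstart_mem_Q.2 ⟨fun h => h2 ?_, d, h1, rfl⟩,
      rfl⟩, List.mem_map.2 ⟨d, nfstart_mem_face.2 (nfstart_out.2 rfl), rfl⟩⟩
    exact nfstart_mk_eq.1 h.symm

theorem mem_st0 (d₀ : M.D) (l : M.D ⊕ Bool) :
    l ∈ lets (st0 M H d₀) ↔ (∃ b, l = .inr b) ∨ ∃ d, l = .inl d ∧ M.Same H d₀ d := by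
  unfold lets
  rw [List.mem_append, nfstart_mem_fst, nfstart_mem_flat]
  constructor
  · rintro ((h | ⟨d, h1, h2⟩) | ⟨d, h1, h2, -⟩)
    · exact Or.inl h
    · exact Or.inr ⟨d, h1, same_cycle Relation.ReflTransGen.refl h2⟩
    · exact Or.inr ⟨d, h1, h2⟩
  · rintro (h | ⟨d, h1, h2⟩)
    · exact Or.inl (Or.inl h)
    · by_cases h3 : M.φ.SameCycle d₀ d
      · exact Or.inl (Or.inr ⟨d, h1, h3⟩)
      · exact Or.inr ⟨d, h1, h2, h3⟩

theorem nfstart_nodup (d₀ : M.D) : (lets (st0 M H d₀)).Nodup := by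
  unfold lets
  refine List.Nodup.append ?_ ?_ ?_
  · rw [nfstart_fst]
    have h := (nfstart_nodup_face d₀).map (Sum.inl_injective (β := Bool))
    refine List.Nodup.append (List.nodup_cons.2 ⟨by simp, h⟩) (List.nodup_singleton _) ?_
    intro l h1 h2
    rw [List.mem_singleton] at h2
    subst h2
    simp at h1
  · rw [List.nodup_flatten]
    constructor
    · intro w hw
      obtain ⟨q, -, rfl⟩ := nfstart_mem_snd.1 hw
      exact (nfstart_nodup_face _).map Sum.inl_injective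
    · rw [nfstart_snd, List.pairwise_map]
      refine (Finset.nodup_toList (nfstartQ M H d₀)).imp fun {q q'} hne => ?_
      intro l h1 h2
      obtain ⟨d, hd, rfl⟩ := List.mem_map.1 h1
      obtain ⟨d', hd', e⟩ := List.mem_map.1 h2
      obtain rfl := Sum.inl_injective e
      exact hne ((nfstart_out.1 (nfstart_mem_face.1 hd)).symm.trans
        (nfstart_out.1 (nfstart_mem_face.1 hd')))
  · intro l h1 h2
    obtain ⟨d, rfl, -, h3⟩ := nfstart_mem_flat.1 h2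
    rcases nfstart_mem_fst.1 h1 with ⟨b, hb⟩ | ⟨d', e, h4⟩
    · cases hb
    · obtain rfl := Sum.inl_injective e
      exact h3 h4

theorem wf_st0 (hα : ∀ d, H d → H (M.α d)) (d₀ : M.D) : (cx M H hα).WF (st0 M H d₀) := by
  refine ⟨nfstart_nodup d₀, fun l hl hH => ?_⟩
  rcases (mem_st0 d₀ l).1 hl with ⟨b, rfl⟩ | ⟨d, rfl, hd⟩
  · exact (mem_st0 d₀ _).2 (Or.inl ⟨!b, rfl⟩)
  · exact (mem_st0 d₀ _).2 (Or.inr ⟨M.α d, rfl, same_α hd hH⟩)

theorem conn_st0 (hα : ∀ d, H d → H (M.α d)) (d₀ : M.D) : (cx M H hα).Conn (st0 M H d₀) := by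
  intro T h1 h2 h3 l hl
  rcases (mem_st0 d₀ l).1 hl with ⟨b, rfl⟩ | ⟨d, rfl, hd⟩
  · exact h1 _ (nfstart_mem_fst.2 (Or.inl ⟨b, rfl⟩))
  · clear hl
    induction hd with
    | refl => exact h1 _ (nfstart_mem_fst.2 (Or.inr ⟨d₀, rfl, Equiv.Perm.SameCycle.refl _ _⟩))
    | @tail b c hb hs ih =>
      rcases hs with rfl | ⟨hH, rfl⟩
      · have hc : M.φ.SameCycle b (M.φ b) := ⟨1, by simp⟩
        by_cases h4 : M.φ.SameCycle d₀ b
        · exact h1 _ (nfstart_mem_fst.2 (Or.inr ⟨_, rfl, h4.trans hc⟩))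
        · have hq : Quotient.mk _ b ∈ nfstartQ M H d₀ :=
            nfstart_mem_Q.2 ⟨fun h => h4 (nfstart_mk_eq.1 h.symm), b, hb, rfl⟩
          refine h3 _ (nfstart_mem_snd.2 ⟨_, hq, rfl⟩) (.inl b) ?_ _ ?_ ih
          · exact List.mem_map.2 ⟨b, nfstart_mem_face.2 (nfstart_out.2 rfl), rfl⟩
          · exact List.mem_map.2 ⟨_, nfstart_mem_face.2 ((nfstart_out.2 rfl).trans hc), rfl⟩
      · exact h2 (.inl b) ((mem_st0 d₀ _).2 (Or.inr ⟨b, rfl, hb⟩)) hH ih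

theorem ne_st0 (d₀ : M.D) : ∀ w ∈ (st0 M H d₀).2, w ≠ [] := by
  intro w hw
  obtain ⟨q, -, rfl⟩ := nfstart_mem_snd.1 hw
  exact List.ne_nil_of_mem (a := Sum.inl q.out)
    (List.mem_map.2 ⟨q.out, nfstart_mem_face.2 (Equiv.Perm.SameCycle.refl _ _), rfl⟩)

theorem length_st0 (d₀ : M.D) : (lets (st0 M H d₀)).length = (regS M H d₀).card + 2 := by
  classical
  rw [← List.toFinset_card_of_nodup (nfstart_nodup d₀)]
  have h : (lets (st0 M H d₀)).toFinset = (regS M H d₀).disjSum Finset.univ := by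
    ext l
    rw [List.mem_toFinset, mem_st0]
    rcases l with d | b
    · simp [nfstart_mem_regS]
    · simp
  rw [h, Finset.card_disjSum]
  simp

theorem faces_st0 (d₀ : M.D) : (st0 M H d₀).2.length + 1 = norb M.φ (regS M H d₀) := by
  rw [nfstart_snd, List.length_map, Finset.length_toList]
  unfold nfstartQ norb
  classical
  exact Finset.card_erase_add_one
    (Finset.mem_image_of_mem _ (nfstart_mem_regS.2 Relation.ReflTransGen.refl))

end Pool.Agent.MC.NF
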