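import Pool.Agent.P.MP_2677b3_gt.NfSg

namespace Pool.Agent.MC.NF

variable {L : Type} {C : Ctx L}

theorem half_mono {K K' : ℕ} {σ σ' : St L} {Ψ Φ : L → List (L × Bool)} (h : C.Half K σ σ' Ψ Φ)
    (hK : K ≤ K') : C.Half K' σ σ' Ψ Φ :=
  ⟨fun d => (h.len d).trans hK, h.ne, h.idH, h.sup, h.val, h.typ⟩

theorem rch_mono {K K' : ℕ} {σ σ' : St L} (h : C.Rch K σ σ') (hK : K ≤ K') : C.Rch K' σ σ' := by
  obtain ⟨Ψ, Φ, h1, h2⟩ := h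
  exact ⟨Ψ, Φ, half_mono h1 hK, half_mono h2 hK⟩

theorem nftr_half_refl (σ : St L) :
    C.Half 1 σ σ (fun d => [(d, true)]) (fun d => [(d, true)]) := by
  refine ⟨fun d => by simp, fun d => by simp, fun d _ => rfl, fun d hd u hu => ?_,
    fun Γ _ χ h1 h2 => ?_, fun V s t y h => ⟨s, t, h, fun _ _ => ⟨rfl, rfl⟩, fun d _ => ?_,
      fun d _ => ?_⟩⟩
  · rw [List.mem_singleton.1 hu]; exact hd
  · have e : (fun d => evs χ [(d, true)]) = χ := by funext d; simp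
    rw [e]
    exact ⟨h1, h2, fun d _ => by simp⟩
  · simp
  · simp

theorem rch_refl (σ : St L) : C.Rch 1 σ σ := ⟨_, _, nftr_half_refl σ, nftr_half_refl σ⟩

theorem rch_symm {K : ℕ} {σ σ' : St L} (h : C.Rch K σ σ') : C.Rch K σ' σ := by
  obtain ⟨Ψ, Φ, h1, h2⟩ := h
  exact ⟨Φ, Ψ, h2, h1⟩

theorem nftr_half_trans {K K' : ℕ} {σ σ' σ'' : St L} {Ψ₁ Φ₁ Ψ₂ Φ₂ : L → List (L × Bool)}
    (h1 : C.Half K σ σ' Ψ₁ Φ₁) (h2 : C.Half K' σ' σ'' Ψ₂ Φ₂) (g2 : C.Half K' σ'' σ' Φ₂ Ψ₂) :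
    C.Half (K * K') σ σ'' (fun d => sub Ψ₂ (Ψ₁ d)) (fun d => sub Φ₁ (Φ₂ d)) := by
  refine ⟨fun d => ?_, fun d => sub_ne h2.ne (h1.ne d), fun d hd => ?_, fun d hd u hu => ?_,
    fun Γ _ χ c k => ?_, fun V s'' t'' y h => ?_⟩
  · refine (length_sub h2.len _).trans ?_
    rw [Nat.mul_comm]
    exact Nat.mul_le_mul_right _ (h1.len d)
  · simp [h1.idH d hd, sub, h2.idH d hd]
  · obtain ⟨v, hv, u', hu', e⟩ := mem_sub hu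
    rw [← e]
    exact h2.sup _ (h1.sup d hd v hv) u' hu'
  · obtain ⟨c2, k2, e2⟩ := h2.val Γ χ c k
    obtain ⟨c1, k1, e1⟩ := h1.val Γ _ c2 k2
    have e : (fun d => evs χ (sub Ψ₂ (Ψ₁ d))) = fun d => evs (fun d => evs χ (Ψ₂ d)) (Ψ₁ d) := by
      funext d; rw [evs_sub]
    rw [e]
    refine ⟨c1, k1, fun d hd => ?_⟩
    rw [evs_sub, ← e2 d hd]
    exact evs_congr fun u hu => e1 _ (g2.sup d hd u hu)
  · obtain ⟨s', t', a1, a2, a3, a4⟩ := h2.typ V s'' t'' y h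
    obtain ⟨s, t, b1, b2, b3, b4⟩ := h1.typ V s' t' y a1
    refine ⟨s, t, b1, fun d hd => ⟨(b2 d hd).1.trans (a2 d hd).1, (b2 d hd).2.trans (a2 d hd).2⟩,
      fun d hd => (b3 d hd).sub fun u hu => a3 _ (h1.sup d hd u hu),
      fun d hd => (a4 d hd).sub fun u hu => b4 _ (g2.sup d hd u hu)⟩

theorem rch_trans {K K' : ℕ} {σ σ' σ'' : St L} (h : C.Rch K σ σ') (h' : C.Rch K' σ' σ'') :
    C.Rch (K * K') σ σ'' := by
  obtain ⟨Ψ₁, Φ₁, h1, g1⟩ := h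
  obtain ⟨Ψ₂, Φ₂, h2, g2⟩ := h'
  exact ⟨_, _, nftr_half_trans h1 h2 g2, Nat.mul_comm K' K ▸ nftr_half_trans g2 g1 h1⟩

end Pool.Agent.MC.NF
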