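import Pool.Agent.P.MP_2677b3_gt.DeDefs

/-! Coarse maps of the half-plane that pull energy back with a bounded loss. -/

open UpperHalfPlane MeasureTheory Metric
open scoped MatrixGroups ENNReal

noncomputable section

namespace Pool.Agent.MC.QC

/-- No ball of radius `r` holds more than `m` points of the family. -/
def Mult {ι : Type} (S : Finset ι) (w : ι → ℍ) (r : ℝ) (m : ℕ) : Prop :=
  ∀ z : ℍ, (S.filter fun i => dist (w i) z ≤ r).card ≤ m

/-- `ω c` bounds the oscillation of `u` on the ball of radius `R` about `c`. -/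
def Osc (R : ℝ) (u ω : ℍ → ℝ) : Prop :=
  ∀ c a b : ℍ, dist a c ≤ R → dist b c ≤ R → |u a - u b| ≤ ω c

/-- The energy of a function pulled back by `f` is bounded by the energy of the function. -/
def EP (R : ℝ) (m : ℕ) (C : ℝ) (f : ℍ → ℍ) : Prop :=
  ∀ (S : Finset ℕ) (z z' : ℕ → ℍ), Mult S z 1 15 → (∀ i, dist (z i) (z' i) ≤ 2) →
    ∃ (ι : Type) (T : Finset ι) (w : ι → ℍ), Mult T w 1 m ∧ ∀ u ω : ℍ → ℝ, Osc R u ω →
      ∑ i ∈ S, (u (f (z i)) - u (f (z' i))) ^ 2 ≤ C * ∑ j ∈ T, ω (w j) ^ 2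

theorem mult_up (r : ℝ) : ∃ N : ℕ, ∀ {ι : Type} (S : Finset ι) (w : ι → ℍ) (m : ℕ),
    Mult S w 1 m → Mult S w r (N * m) := by
  classical
  obtain ⟨t, -, ht, hc⟩ := finite_cover_balls_of_compact (isCompact_closedBall (I : ℍ) r) one_pos
  refine ⟨ht.toFinset.card, fun S w m h z => ?_⟩
  obtain ⟨g, hg⟩ := MulAction.exists_smul_eq SL(2, ℝ) I z
  refine (Finset.card_le_card (t := ht.toFinset.biUnion fun c =>
    S.filter fun i => dist (w i) (g • c) ≤ 1) fun i hi => ?_).trans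
    (Finset.card_biUnion_le_card_mul _ _ _ fun c _ => h _)
  obtain ⟨h1, h2⟩ := Finset.mem_filter.1 hi
  have h3 : g⁻¹ • w i ∈ closedBall (I : ℍ) r := by
    rw [mem_closedBall, ← dist_smul g, smul_inv_smul, hg]
    exact h2
  obtain ⟨c, c1, c2⟩ := Set.mem_iUnion₂.1 (hc h3)
  refine Finset.mem_biUnion.2 ⟨c, ht.mem_toFinset.2 c1, Finset.mem_filter.2 ⟨h1, ?_⟩⟩
  rw [mem_ball, ← dist_smul g, smul_inv_smul] at c2
  exact c2.le

theorem Mult.smul {ι : Type} {S : Finset ι} {w : ι → ℍ} {r : ℝ} {m : ℕ} (h : Mult S w r m)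
    (A : SL(2, ℝ)) : Mult S (fun i => A • w i) r m := fun c => by
  refine le_trans (le_of_eq ?_) (h (A⁻¹ • c))
  congr 1
  refine Finset.filter_congr fun i _ => ?_
  rw [← dist_smul A (w i), smul_inv_smul]

theorem Mult.sub {ι : Type} {S S' : Finset ι} {w : ι → ℍ} {r : ℝ} {m : ℕ} (h : Mult S w r m)
    (hS : S' ⊆ S) : Mult S' w r m := fun c =>
  (Finset.card_le_card (Finset.filter_subset_filter _ hS)).trans (h c)

theorem EP.conj {R C : ℝ} {m : ℕ} {f : ℍ → ℍ} (h : EP R m C f) (A B : SL(2, ℝ)) :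
    EP R m C fun z => B • f (A • z) := by
  intro S z z' h1 h2
  obtain ⟨ι, T, w, h3, h4⟩ := h S (fun i => A • z i) (fun i => A • z' i) (h1.smul A)
    fun i => by rw [dist_smul]; exact h2 i
  refine ⟨ι, T, _, h3.smul B, fun u ω hu => h4 (fun x => u (B • x)) (fun x => ω (B • x))
    fun c a b ha hb => hu _ _ _ ?_ ?_⟩
  · rwa [dist_smul]
  · rwa [dist_smul]

theorem ep_comp (K : ℝ) : ∃ N : ℕ, ∀ {R C : ℝ} {m : ℕ} {f t t' : ℍ → ℍ}, QIPair K t t' →
    EP R m C f → EP (K * R + K) (N * m) C (t ∘ f) := by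
  obtain ⟨N, hN⟩ := mult_up (3 * K)
  refine ⟨N, fun {R C m f t t'} q h S z z' h1 h2 => ?_⟩
  have hK : 0 ≤ K := dist_nonneg.trans (q.gf I)
  obtain ⟨ι, T, w, h3, h4⟩ := h S z z' h1 h2
  refine ⟨ι, T, fun j => t (w j), fun c => le_trans (Finset.card_le_card fun j hj => ?_)
    (hN T w m h3 (t' c)), fun u ω hu => h4 (fun x => u (t x)) (fun x => ω (t x))
    fun c a b ha hb => hu _ _ _ ?_ ?_⟩
  · obtain ⟨a1, a2⟩ := Finset.mem_filter.1 hj
    refine Finset.mem_filter.2 ⟨a1, ?_⟩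
    have a3 := q.cg (t (w j)) c
    have a4 := q.gf (w j)
    have a5 := dist_triangle_left (w j) (t' c) (t' (t (w j)))
    have a6 := mul_le_mul_of_nonneg_left a2 hK
    linarith
  · exact (q.cf _ _).trans (by gcongr)
  · exact (q.cf _ _).trans (by gcongr)

theorem area_sum {ι : Type} {T : Finset ι} {w : ι → ℍ} {m : ℕ} (h : Mult T w 1 m) {b : ℝ}
    (hb : 0 ≤ b) (hw : ∀ j ∈ T, ‖(w j : ℂ)‖ ≤ b) : ∑ j ∈ T, (w j).im ^ 2 ≤ 16 * m * b ^ 2 := by
  classical
  let B : ι → Set ℂ := fun j => ball (w j : ℂ) ((w j).im / 2)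
  have h1 : ∑ j ∈ T, volume (B j) ≤ m * volume (ball (0 : ℂ) (2 * b)) := by
    calc ∑ j ∈ T, volume (B j) = ∫⁻ x, ∑ j ∈ T, (B j).indicator 1 x := by
          rw [lintegral_finsetSum _ fun j _ => measurable_one.indicator measurableSet_ball]
          exact Finset.sum_congr rfl fun j _ => (lintegral_indicator_one measurableSet_ball).symm
      _ ≤ ∫⁻ x, m * (ball (0 : ℂ) (2 * b)).indicator 1 x := by
          refine lintegral_mono fun x => ?_
          have e : ∑ j ∈ T, (B j).indicator (1 : ℂ → ℝ≥0∞) x =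
              (T.filter fun j => x ∈ B j).card := by
            simp [Set.indicator_apply]
          rw [e]
          rcases (T.filter fun j => x ∈ B j).eq_empty_or_nonempty with h0 | ⟨j, hj⟩
          · simp [h0]
          have key : ∀ j, x ∈ B j → (w j).im / 2 < x.im := fun j hj => by
            have a1 := Complex.abs_im_le_norm (x - w j)
            have a2 : ‖x - w j‖ < (w j).im / 2 := by rwa [← Complex.dist_eq]
            rw [Complex.sub_im, coe_im] at a1
            linarith [(abs_le.1 a1).1]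
          obtain ⟨j1, j2⟩ := Finset.mem_filter.1 hj
          have x0 : 0 < x.im := (half_pos (w j).im_pos).trans (key j j2)
          have x1 : x ∈ ball (0 : ℂ) (2 * b) := by
            have a1 : (w j).im ≤ ‖(w j : ℂ)‖ :=
              (le_abs_self _).trans (Complex.abs_im_le_norm (w j : ℂ))
            have a2 : ‖x - w j‖ < (w j).im / 2 := by rwa [← Complex.dist_eq]
            have a3 := norm_le_norm_add_norm_sub' x (w j : ℂ)
            have a4 := hw j j1
            rw [mem_ball_zero_iff]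
            linarith
          rw [Set.indicator_of_mem x1, Pi.one_apply, mul_one, Nat.cast_le]
          refine le_trans (Finset.card_le_card fun i hi => ?_) (h ⟨x, x0⟩)
          obtain ⟨i1, i2⟩ := Finset.mem_filter.1 hi
          refine Finset.mem_filter.2 ⟨i1, (dist_le_dist_coe_div_sqrt _ _).trans ?_⟩
          have a1 := key i i2
          have a2 := (w i).im_pos
          have a3 : (w i).im / 2 ≤ √((w i).im * x.im) := Real.le_sqrt_of_sq_le (by nlinarith)
          refine div_le_one_of_le₀ (le_trans ?_ a3) (Real.sqrt_nonneg _)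
          exact (mem_ball'.1 i2).le
      _ = _ := by
          rw [lintegral_const_mul _ (measurable_one.indicator measurableSet_ball),
            lintegral_indicator_one measurableSet_ball]
  simp only [B, Complex.volume_ball] at h1
  rw [← Finset.sum_mul, ← mul_assoc, ENNReal.mul_le_mul_iff_left (by simp [NNReal.pi_ne_zero])
    ENNReal.coe_ne_top] at h1
  have h2 : ENNReal.ofReal (∑ j ∈ T, ((w j).im / 2) ^ 2) ≤ ENNReal.ofReal (m * (2 * b) ^ 2) := by
    rw [ENNReal.ofReal_sum_of_nonneg fun j _ => sq_nonneg _, ENNReal.ofReal_mul m.cast_nonneg,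
      ENNReal.ofReal_natCast, ENNReal.ofReal_pow (by positivity)]
    refine le_trans (le_of_eq (Finset.sum_congr rfl fun j _ => ?_)) h1
    rw [ENNReal.ofReal_pow (half_pos (w j).im_pos).le]
  rw [ENNReal.ofReal_le_ofReal_iff (by positivity)] at h2
  have h3 : ∑ j ∈ T, (w j).im ^ 2 = 4 * ∑ j ∈ T, ((w j).im / 2) ^ 2 := by
    rw [Finset.mul_sum]
    exact Finset.sum_congr rfl fun j _ => by ring
  rw [h3]
  linarith

theorem ann_sum {ι : Type} {T : Finset ι} {w : ι → ℍ} {m : ℕ} (h : Mult T w 1 m) {a : ℝ}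
    (ha : 0 < a) (N : ℕ) : ∑ j ∈ T, (if a ≤ ‖(w j : ℂ)‖ ∧ ‖(w j : ℂ)‖ < a * 2 ^ N then
      (w j).im / ‖(w j : ℂ)‖ else 0) ^ 2 ≤ 64 * m * N := by
  induction N with
  | zero =>
    rw [Finset.sum_eq_zero fun j _ => by rw [if_neg fun k => by linarith [k.1, k.2]]; simp]
    simp
  | succ N ih =>
    have hp : 0 < a * 2 ^ N := by positivity
    have h1 := area_sum (h.sub (Finset.filter_subset (fun j => ‖(w j : ℂ)‖ ≤ 2 * (a * 2 ^ N)) T))
      (b := 2 * (a * 2 ^ N)) (by positivity) fun j hj => (Finset.mem_filter.1 hj).2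
    rw [Finset.sum_filter] at h1
    have h2 := div_le_div_of_nonneg_right h1 (sq_nonneg (a * 2 ^ N))
    rw [Finset.sum_div, show 16 * (m : ℝ) * (2 * (a * 2 ^ N)) ^ 2 / (a * 2 ^ N) ^ 2 = 64 * m by
      field_simp; ring] at h2
    refine le_trans (Finset.sum_le_sum fun j _ => ?_)
      ((Finset.sum_add_distrib.trans_le (add_le_add ih h2)).trans (le_of_eq (by push_cast; ring)))
    have i0 := (w j).im_pos
    by_cases c1 : a ≤ ‖(w j : ℂ)‖ ∧ ‖(w j : ℂ)‖ < a * 2 ^ (N + 1)
    · rw [if_pos c1, if_pos (show _ ≤ 2 * (a * 2 ^ N) by rw [pow_succ] at c1; linarith [c1.2])]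
      by_cases c2 : ‖(w j : ℂ)‖ < a * 2 ^ N
      · rw [if_pos ⟨c1.1, c2⟩]
        exact le_add_of_nonneg_right (by positivity)
      · refine le_add_of_nonneg_of_le (sq_nonneg _) ?_
        rw [← div_pow]
        gcongr
        exact not_lt.1 c2
    · rw [if_neg c1, zero_pow two_ne_zero]
      exact add_nonneg (sq_nonneg _) (div_nonneg (by split_ifs <;> positivity) (sq_nonneg _))

theorem norm_pos' (z : ℍ) : 0 < ‖(z : ℂ)‖ := norm_pos_iff.2 z.ne_zero

theorem near_sub {a c : ℍ} {R : ℝ} (h : dist a c ≤ R) :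
    |‖(a : ℂ)‖ - ‖(c : ℂ)‖| ≤ c.im * (Real.exp R - 1) := by
  refine (abs_norm_sub_norm_le _ _).trans ?_
  rw [← Complex.dist_eq]
  refine (dist_coe_le a c).trans ?_
  have := c.im_pos
  gcongr

theorem near_le {a c : ℍ} {R : ℝ} (h : dist a c ≤ R) : ‖(a : ℂ)‖ ≤ ‖(c : ℂ)‖ * Real.exp R := by
  have a1 : c.im ≤ ‖(c : ℂ)‖ := (le_abs_self _).trans (Complex.abs_im_le_norm (c : ℂ))
  have a2 := (abs_le.1 (near_sub h)).2
  have a3 : 0 ≤ Real.exp R - 1 := sub_nonneg.2 (Real.one_le_exp (dist_nonneg.trans h))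
  have := mul_le_mul_of_nonneg_right a1 a3
  linarith

theorem near_log {a c : ℍ} {R : ℝ} (h : dist a c ≤ R) :
    |Real.log ‖(a : ℂ)‖ - Real.log ‖(c : ℂ)‖| ≤ Real.exp R ^ 2 * (c.im / ‖(c : ℂ)‖) := by
  have a0 := norm_pos' a
  have c0 := norm_pos' c
  have i0 := c.im_pos
  have e1 : 1 ≤ Real.exp R := Real.one_le_exp (dist_nonneg.trans h)
  obtain ⟨a1, a2⟩ := abs_le.1 (near_sub h)
  have a3 := near_le (dist_comm a c ▸ h)
  have l : ∀ x y : ℝ, 0 < x → 0 < y → Real.log x - Real.log y ≤ (x - y) / y := fun x y hx hy => by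
    rw [← Real.log_div hx.ne' hy.ne', sub_div, div_self hy.ne']
    exact Real.log_le_sub_one_of_pos (div_pos hx hy)
  rw [abs_sub_le_iff, ← mul_div_assoc]
  constructor
  · refine (l _ _ a0 c0).trans (div_le_div_of_nonneg_right ?_ c0.le)
    nlinarith
  · refine (l _ _ c0 a0).trans ?_
    rw [div_le_div_iff₀ a0 c0]
    have b1 : (‖(c : ℂ)‖ - ‖(a : ℂ)‖) * ‖(c : ℂ)‖ ≤ c.im * Real.exp R * ‖(c : ℂ)‖ := by
      gcongr
      linarith
    have b2 : c.im * Real.exp R * ‖(c : ℂ)‖ ≤ c.im * Real.exp R * (‖(a : ℂ)‖ * Real.exp R) := by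
      gcongr
    linarith

/-- The logarithm of the distance to zero, cut off at `0` and `D`. -/
def uD (D : ℝ) (z : ℍ) : ℝ := min (max (-Real.log ‖(z : ℂ)‖) 0) D

theorem uD_eq {D : ℝ} {z : ℍ} (h : ‖(z : ℂ)‖ ≤ Real.exp (-D)) : uD D z = D := by
  have := (Real.log_le_iff_le_exp (norm_pos' z)).2 h
  exact min_eq_right (le_max_of_le_left (by linarith))

theorem uD_le {D b : ℝ} (hb : 0 ≤ b) {z : ℍ} (h : Real.exp (-b) ≤ ‖(z : ℂ)‖) : uD D z ≤ b := by
  have := (Real.le_log_iff_exp_le (norm_pos' z)).2 h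
  exact (min_le_left _ _).trans (max_le (by linarith) hb)

theorem test (R : ℝ) (N : ℕ) (hD : 0 ≤ N * Real.log 2 - 2 * R) : ∃ ω : ℍ → ℝ,
    Osc R (uD (N * Real.log 2 - 2 * R)) ω ∧ ∀ {ι : Type} (T : Finset ι) (w : ι → ℍ) (m : ℕ),
      Mult T w 1 m → ∑ j ∈ T, ω (w j) ^ 2 ≤ 256 * Real.exp R ^ 4 * m * N := by
  set D := N * Real.log 2 - 2 * R with hDd
  have e1 : Real.exp (-D - R) * 2 ^ N = Real.exp R := by
    rw [← Real.exp_log (show (0 : ℝ) < 2 ^ N by positivity), ← Real.exp_add, Real.log_pow, hDd]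
    congr 1
    ring
  refine ⟨fun c => 2 * Real.exp R ^ 2 * if Real.exp (-D - R) ≤ ‖(c : ℂ)‖ ∧
    ‖(c : ℂ)‖ < Real.exp (-D - R) * 2 ^ N then c.im / ‖(c : ℂ)‖ else 0, fun c a b ha hb => ?_,
    fun T w m h => ?_⟩
  · dsimp only
    split_ifs with k
    · have a1 := near_log ha
      have a2 := near_log hb
      have a3 := abs_min_sub_min_le_max (max (-Real.log ‖(a : ℂ)‖) 0) D
        (max (-Real.log ‖(b : ℂ)‖) 0) D
      rw [sub_self, abs_zero, max_eq_left (b := (0 : ℝ)) (a := |_|) (abs_nonneg _)] at a3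
      refine (a3.trans (abs_max_sub_max_le_abs _ _ _)).trans ?_
      rw [abs_le] at a1 a2 ⊢
      constructor <;> linarith [a1.1, a1.2, a2.1, a2.2]
    · rw [mul_zero, abs_nonpos_iff, sub_eq_zero]
      rw [e1, not_and_or, not_le, not_lt] at k
      rcases k with k | k
      · have t : ∀ x : ℍ, dist x c ≤ R → uD D x = D := fun x hx => uD_eq ((near_le hx).trans (by
          rw [show -D = -D - R + R by ring, Real.exp_add]
          gcongr))
        rw [t a ha, t b hb]
      · have t : ∀ x : ℍ, dist x c ≤ R → uD D x = 0 := fun x hx => by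
          refine le_antisymm (uD_le le_rfl ?_) (le_min (le_max_right _ _) hD)
          have := near_le (dist_comm x c ▸ hx)
          rw [neg_zero, Real.exp_zero]
          exact le_of_mul_le_mul_right (by linarith) (Real.exp_pos R)
        rw [t a ha, t b hb]
  · have := ann_sum h (Real.exp_pos (-D - R)) N
    simp only [mul_pow]
    rw [← Finset.mul_sum]
    refine (mul_le_mul_of_nonneg_left this (by positivity)).trans (le_of_eq (by ring))

end Pool.Agent.MC.QC
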