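import Pool.Agent.P.MP_2677b3_gt.QcA
import Pool.Agent.P.MP_2677b3_gt.DE

/-! A map with an energy bound cannot squeeze a long arc of the circle. -/

open UpperHalfPlane Metric Filter Topology Set
open scoped MatrixGroups Real ComplexConjugate

noncomputable section

namespace Pool.Agent.MC.QC

open DE

/-- Height of the level `k` of the dyadic tree. -/
def ht (k : ℕ) : ℝ := 1 / 4 * (1 / 2) ^ k

theorem ht_pos (k : ℕ) : 0 < ht k := by unfold ht; positivity

theorem ht_succ (k : ℕ) : ht k = 2 * ht (k + 1) := by unfold ht; ring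

/-- Nodes of the dyadic tree. -/
def nd (k j : ℕ) : ℍ := UpperHalfPlane.mk ⟨j * ht k, ht k⟩ (ht_pos k)

theorem nd_mult (k : ℕ) (S : Finset ℕ) : Mult S (nd k) 1 15 := fun z => by
  rcases (S.filter fun i => dist (nd k i) z ≤ 1).eq_empty_or_nonempty with h0 | ⟨j, hj⟩
  · simp [h0]
  refine (Finset.card_le_card (t := Finset.Icc (j - 7) (j + 7)) fun i hi => ?_).trans
    (by simp; omega)
  have a1 := dist_triangle_right (nd k i) (nd k j) z
  have a2 := (Finset.mem_filter.1 hi).2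
  have a3 := (Finset.mem_filter.1 hj).2
  have a4 := dist_coe_le (nd k i) (nd k j)
  have a5 : Real.exp (dist (nd k i) (nd k j)) ≤ Real.exp 1 * Real.exp 1 := by
    rw [← Real.exp_add]
    gcongr
    linarith
  have a6 := Real.exp_one_lt_d9
  have a7 := Real.exp_pos 1
  have a8 : |(i : ℝ) * ht k - j * ht k| ≤ dist (nd k i : ℂ) (nd k j) := by
    rw [Complex.dist_eq]
    exact Complex.abs_re_le_norm ((nd k i : ℂ) - nd k j)
  have a9 : |(i : ℝ) - j| * ht k ≤ 7 * ht k := by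
    rw [← sub_mul, abs_mul, abs_of_pos (ht_pos k)] at a8
    refine (a8.trans a4).trans ?_
    change ht k * _ ≤ _
    rw [mul_comm]
    exact mul_le_mul_of_nonneg_right (by nlinarith) (ht_pos k).le
  obtain ⟨b1, b2⟩ := abs_le.1 (le_of_mul_le_mul_right a9 (ht_pos k))
  have c1 : j ≤ i + 7 := by exact_mod_cast (by linarith : (j : ℝ) ≤ i + 7)
  have c2 : i ≤ j + 7 := by exact_mod_cast (by linarith : (i : ℝ) ≤ j + 7)
  exact Finset.mem_Icc.2 ⟨by omega, c2⟩

theorem dist_le_two {z w : ℍ} {h : ℝ} (h0 : 0 < h) (h1 : h ^ 2 ≤ z.im * w.im)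
    (h2 : |z.re - w.re| + |z.im - w.im| ≤ 2 * h) : dist z w ≤ 2 := by
  refine (dist_le_dist_coe_div_sqrt _ _).trans ?_
  have a3 : h ≤ √(z.im * w.im) := Real.le_sqrt_of_sq_le h1
  rw [div_le_iff₀ (h0.trans_le a3), Complex.dist_eq]
  have := Complex.norm_le_abs_re_add_abs_im ((z : ℂ) - w)
  simp only [Complex.sub_re, Complex.sub_im, coe_re, coe_im] at this
  linarith

theorem nd_step (k j : ℕ) : dist (nd (k + 1) j) (nd k (j / 2)) ≤ 2 := by
  have h0 := ht_pos (k + 1)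
  refine dist_le_two h0 ?_ ?_
  · change _ ≤ ht (k + 1) * ht k
    rw [ht_succ k]
    nlinarith
  · change |j * ht (k + 1) - (j / 2 : ℕ) * ht k| + |ht (k + 1) - ht k| ≤ _
    rw [ht_succ k, abs_of_nonpos (show ht (k + 1) - 2 * ht (k + 1) ≤ 0 by linarith)]
    have c1 : (2 : ℝ) * (j / 2 : ℕ) ≤ j := by exact_mod_cast (by omega : 2 * (j / 2) ≤ j)
    have c2 : (j : ℝ) ≤ 2 * (j / 2 : ℕ) + 1 := by exact_mod_cast (by omega : j ≤ 2 * (j / 2) + 1)
    rw [abs_of_nonneg (by nlinarith)]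
    nlinarith

theorem nd_root : dist (nd 0 0) I ≤ 2 := by
  refine dist_le_two (h := 1 / 2) (by norm_num) ?_ ?_
  · change _ ≤ ht 0 * 1
    norm_num [ht]
  · change |(0 : ℕ) * ht 0 - 0| + |ht 0 - 1| ≤ _
    norm_num [ht, abs_le]

theorem sum_half (g : ℕ → ℝ) (n : ℕ) :
    ∑ j ∈ Finset.range (2 * n), g (j / 2) = 2 * ∑ j ∈ Finset.range n, g j := by
  induction n with
  | zero => simp
  | succ n ih =>
    rw [show 2 * (n + 1) = 2 * n + 1 + 1 by ring, Finset.sum_range_succ, Finset.sum_range_succ,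
      ih, Finset.sum_range_succ, show 2 * n / 2 = n by omega, show (2 * n + 1) / 2 = n by omega]
    ring

theorem tree (U : ℕ → ℕ → ℝ) {M : ℝ} (hM : 0 ≤ M)
    (h : ∀ k, ∑ j ∈ Finset.range (2 ^ (k + 1)), (U (k + 1) j - U k (j / 2)) ^ 2 ≤ M ^ 2) (k : ℕ) :
    ∑ j ∈ Finset.range (2 ^ k), U k j ≤ 2 ^ k * (U 0 0 + 3 * M * (1 - (3 / 4) ^ k)) := by
  induction k with
  | zero => simp
  | succ k ih =>
    have a1 := sq_sum_le_card_mul_sum_sq (s := Finset.range (2 ^ (k + 1)))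
      (f := fun j => U (k + 1) j - U k (j / 2))
    have a2 : ∑ j ∈ Finset.range (2 ^ (k + 1)), (U (k + 1) j - U k (j / 2)) ≤
        (3 / 2) ^ (k + 1) * M := by
      refine le_of_sq_le_sq (a1.trans ?_) (by positivity)
      rw [Finset.card_range, mul_pow, ← pow_mul, mul_comm (k + 1), pow_mul]
      push_cast
      exact mul_le_mul (pow_le_pow_left₀ (by norm_num) (by norm_num) _) (h k)
        (Finset.sum_nonneg fun _ _ => sq_nonneg _) (by positivity)
    rw [Finset.sum_sub_distrib, pow_succ' 2 k, sum_half (U k)] at a2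
    have e : (3 / 2 : ℝ) ^ (k + 1) = 2 ^ k * (3 / 4) ^ k * (3 / 2) := by
      rw [← mul_pow, pow_succ]
      norm_num
    rw [e] at a2
    rw [pow_succ' 2 k, pow_succ, pow_succ]
    nlinarith

theorem cay_real (x : ℝ) : cay x = E (π + 2 * Real.arctan x) := by
  have h1 : (x : ℂ) + Complex.I ≠ 0 := fun h => by simpa using congrArg Complex.im h
  have h2 := Real.cos_sq_arctan x
  have h3 : Real.sin (Real.arctan x) = x * Real.cos (Real.arctan x) := by
    rw [Real.sin_arctan, Real.cos_arctan, mul_one_div]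
  rw [eq_div_iff (by positivity)] at h2
  rw [cay, div_eq_iff h1]
  apply Complex.ext
  · simp only [Complex.sub_re, Complex.mul_re, Complex.add_re, Complex.add_im, E_re, E_im,
      Complex.ofReal_re, Complex.ofReal_im, Complex.I_re, Complex.I_im, add_comm π,
      Real.cos_add_pi, Real.sin_add_pi, Real.cos_two_mul, Real.sin_two_mul, h3]
    ring
  · simp only [Complex.sub_im, Complex.mul_im, Complex.add_re, Complex.add_im, E_re, E_im,
      Complex.ofReal_re, Complex.ofReal_im, Complex.I_re, Complex.I_im, add_comm π,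
      Real.cos_add_pi, Real.sin_add_pi, Real.cos_two_mul, Real.sin_two_mul, h3]
    linear_combination 2 * h2

theorem leaves {f : ℍ → ℍ} {φ : ℂ → ℂ} (hb : IsBd f φ) {η : ℝ} (h0 : 0 < η) (h1 : η ≤ 1 / 2)
    (h : ∀ x ∈ Icc (0 : ℝ) (1 / 4), ‖φ (cay x) + 1‖ ≤ η) :
    ∃ k, ∀ j < 2 ^ k, ‖(f (nd k j) : ℂ)‖ ≤ 2 * η := by
  let V : Set ℂ := {ζ | ∀ z : ℍ, kap z = cay ζ → ‖kap (f z) + 1‖ ≤ 2 * η}
  have a1 : Complex.ofReal '' Icc (0 : ℝ) (1 / 4) ⊆ interior V := by
    rintro _ ⟨x, hx, rfl⟩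
    have b1 := (hb.tend (cay x) (by rw [cay_real, norm_E])).eventually
      (ball_mem_nhds (φ (cay x)) h0)
    have b2 : ContinuousAt cay (x : ℂ) := (continuousAt_id.sub continuousAt_const).div
      (continuousAt_id.add continuousAt_const) fun h => by simpa using congrArg Complex.im h
    refine mem_interior_iff_mem_nhds.2 ((b2.eventually (eventually_comap.1 b1)).mono
      fun ζ hζ z hz => ?_)
    have b3 : ‖kap (f z) - φ (cay x)‖ < η := by
      rw [← Complex.dist_eq]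
      exact hζ z hz
    have b4 := norm_add_le (kap (f z) - φ (cay x)) (φ (cay x) + 1)
    rw [← add_assoc, sub_add_cancel] at b4
    linarith [h x hx]
  obtain ⟨δ, hδ, a2⟩ := (isCompact_Icc.image
    Complex.continuous_ofReal).exists_thickening_subset_open isOpen_interior a1
  obtain ⟨k, hk⟩ := exists_pow_lt_of_lt_one hδ (show (1 / 2 : ℝ) < 1 by norm_num)
  refine ⟨k, fun j hj => ?_⟩
  have a3 : ‖kap (f (nd k j)) + 1‖ ≤ 2 * η := by
    refine interior_subset (a2 (mem_thickening_iff.2 ⟨_, ⟨j * ht k, ⟨?_, ?_⟩, rfl⟩, ?_⟩)) _ rfl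
    · exact mul_nonneg j.cast_nonneg (ht_pos k).le
    · have : (j : ℝ) ≤ 2 ^ k := by exact_mod_cast hj.le
      calc j * ht k ≤ 2 ^ k * ht k := mul_le_mul_of_nonneg_right this (ht_pos k).le
        _ = 1 / 4 := by rw [ht, mul_left_comm, ← mul_pow]; norm_num
    · rw [Complex.dist_of_re_eq (by rfl)]
      change dist (ht k) 0 < δ
      rw [dist_zero_right, Real.norm_of_nonneg (ht_pos k).le, ht]
      have : (0 : ℝ) < (1 / 2) ^ k := by positivity
      linarith
  have a4 := coe_kapi (kap_lt (f (nd k j)))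
  rw [kapi_kap, cayi] at a4
  have a5 := norm_add_le (kap (f (nd k j)) + 1) (1 - kap (f (nd k j)))
  rw [show kap (f (nd k j)) + 1 + (1 - kap (f (nd k j))) = 2 by ring, Complex.norm_two] at a5
  rw [a4, norm_div, norm_mul, Complex.norm_I, one_mul, add_comm]
  exact (div_le_self (norm_nonneg _) (by linarith)).trans a3

theorem num {b c : ℝ} (hb : 0 ≤ b) (hc : 0 ≤ c) :
    ∃ N : ℕ, b ≤ N * Real.log 2 ∧ c * N < (N * Real.log 2 - b) ^ 2 := by
  obtain ⟨N, hN⟩ := exists_nat_ge (16 * c + 4 * b + 1)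
  have a1 := Real.log_two_gt_d9
  have a2 : (N : ℝ) / 4 ≤ N * Real.log 2 - b := by nlinarith
  have a3 := pow_le_pow_left₀ (by positivity) a2 2
  exact ⟨N, by linarith, by nlinarith⟩

theorem sep0 {K R C : ℝ} (m : ℕ) (hK : 0 ≤ K) (hR : 0 ≤ R) (hC : 0 ≤ C) : ∃ η : ℝ, 0 < η ∧
    ∀ (f : ℍ → ℍ) (φ : ℂ → ℂ), EP R m C f → (∀ x y, dist (f x) (f y) ≤ K * dist x y + K) →
      f I = I → IsBd f φ → ¬ ∀ x ∈ Icc (0 : ℝ) (1 / 4), ‖φ (cay x) + 1‖ ≤ η := by
  obtain ⟨N, n1, n2⟩ := num (b := 2 * R + 3 * K) (c := 9 * (C * (256 * Real.exp R ^ 4 * m)))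
    (by positivity) (by positivity)
  obtain ⟨ω, o1, o2⟩ := test R N (by linarith)
  set D := N * Real.log 2 - 2 * R with hD
  refine ⟨Real.exp (-D) / 2, by positivity, fun f φ hE hL hI hb h => ?_⟩
  obtain ⟨k, hk⟩ := leaves hb (by positivity)
    (by linarith [Real.exp_le_one_iff.2 (show -D ≤ 0 by linarith)]) h
  have p0 : 0 ≤ C * (256 * Real.exp R ^ 4 * m * N) := by positivity
  have a1 := tree (fun k j => uD D (f (nd k j))) (Real.sqrt_nonneg _) (fun k => by
    obtain ⟨ι, T, w, h3, h4⟩ := hE (Finset.range (2 ^ (k + 1))) (nd (k + 1))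
      (fun j => nd k (j / 2)) (nd_mult _ _) (nd_step k)
    rw [Real.sq_sqrt p0]
    exact (h4 _ ω o1).trans (mul_le_mul_of_nonneg_left (o2 T w m h3) hC)) k
  rw [Finset.sum_congr rfl fun j hj => uD_eq (D := D)
    ((hk j (Finset.mem_range.1 hj)).trans (le_of_eq (by ring))), Finset.sum_const,
    Finset.card_range, nsmul_eq_mul] at a1
  push_cast at a1
  have a2 := le_of_mul_le_mul_left a1 (by positivity)
  have a3 : uD D (f (nd 0 0)) ≤ 3 * K := by
    refine uD_le (by positivity) ?_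
    have b1 := hL (nd 0 0) I
    have b2 := mul_le_mul_of_nonneg_left nd_root hK
    rw [hI, dist_comm] at b1
    have b3 := near_le (show dist I (f (nd 0 0)) ≤ 3 * K by linarith)
    rw [coe_I, Complex.norm_I] at b3
    rw [Real.exp_neg, inv_le_iff_one_le_mul₀ (Real.exp_pos _)]
    exact b3
  have a4 := Real.sq_sqrt p0
  have a5 := Real.sqrt_nonneg (C * (256 * Real.exp R ^ 4 * m * N))
  have a6 : (0 : ℝ) ≤ (3 / 4) ^ k := by positivity
  have a7 : N * Real.log 2 - (2 * R + 3 * K) ≤ 3 * √(C * (256 * Real.exp R ^ 4 * m * N)) := by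
    nlinarith
  have a8 := pow_le_pow_left₀ (by linarith) a7 2
  nlinarith

theorem rot (θ : ℝ) : ∃ A : SL(2, ℝ), (∀ u, mobA A u = E θ * u) ∧ A • (I : ℍ) = I := by
  let A : SL(2, ℝ) := ⟨!![Real.cos (θ / 2), Real.sin (θ / 2); -Real.sin (θ / 2), Real.cos (θ / 2)],
    by rw [Matrix.det_fin_two_of]; nlinarith [Real.sin_sq_add_cos_sq (θ / 2)]⟩
  have a1 : alA A = E (θ / 2) := Complex.ext (by simp [alA, A, E_re]) (by simp [alA, A, E_im])
  have a2 : beA A = 0 := Complex.ext (by simp [beA, A]) (by simp [beA, A])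
  have a3 : ∀ u, mobA A u = E θ * u := fun u => by
    have b1 : E (-(θ / 2)) ≠ 0 := norm_ne_zero_iff.1 (by rw [norm_E]; exact one_ne_zero)
    rw [mobA, mob, a1, a2, map_zero, zero_mul, zero_add, add_zero, conj_E, div_eq_iff b1,
      mul_right_comm, ← E_add]
    congr 2
    ring
  exact ⟨A, a3, kap_inj (by rw [kap_smul, a3, kap_I, mul_zero])⟩

theorem sep {K R C : ℝ} (m : ℕ) (hK : 0 ≤ K) (hR : 0 ≤ R) (hC : 0 ≤ C) : ∃ η : ℝ, 0 < η ∧
    ∀ (f : ℍ → ℍ) (φ : ℂ → ℂ), EP R m C f → (∀ x y, dist (f x) (f y) ≤ K * dist x y + K) →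
      f I = I → IsBd f φ → PosHom φ → Sep η φ := by
  obtain ⟨η, h0, hη⟩ := sep0 m hK hR hC
  refine ⟨η, h0, fun f φ hE hL hI hb ⟨h, _, hm, hp, he⟩ s t hst => ?_⟩
  have arc : ∀ a b : ℝ, a + 1 / 2 ≤ b → h b - h a ≤ π → η ≤ ‖E (h b) - E (h a)‖ := by
    intro a b hab hπ
    by_contra hlt
    obtain ⟨A, A1, A2⟩ := rot (a - π)
    obtain ⟨B, B1, B2⟩ := rot (π - h a)
    refine hη _ (mobA B ∘ φ ∘ mobA A) (hE.conj A B) (fun x y => ?_) (by rw [A2, hI, B2])
      (((isBd_smul A).comp hb).comp (isBd_smul B)) fun x hx => ?_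
    · rw [dist_smul, ← dist_smul A x]
      exact hL _ _
    have c1 : 0 ≤ Real.arctan x := Real.arctan_nonneg.2 hx.1
    have c2 := Real.le_tan c1 (Real.arctan_lt_pi_div_two x)
    rw [Real.tan_arctan] at c2
    have c3 : h a ≤ h (a + 2 * Real.arctan x) := hm.monotone (by linarith)
    have c4 : h (a + 2 * Real.arctan x) ≤ h b := hm.monotone (by linarith [hx.2])
    have c5 : E (π - h a) * E (h a) = -1 := by
      rw [← E_add, sub_add_cancel, E, Complex.exp_pi_mul_I]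
    simp only [Function.comp, A1, B1]
    rw [cay_real, ← E_add, show a - π + (π + 2 * Real.arctan x) = a + 2 * Real.arctan x by ring,
      he, ← sub_neg_eq_add, ← c5, ← mul_sub, norm_mul, norm_E, one_mul]
    refine le_trans ?_ (not_le.1 hlt).le
    have p := Real.pi_pos
    rw [norm_E_sub, norm_E_sub, abs_of_nonneg (Real.sin_nonneg_of_nonneg_of_le_pi
      (by linarith) (by linarith))]
    refine mul_le_mul_of_nonneg_left (le_trans ?_ (le_abs_self _)) zero_le_two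
    exact Real.sin_le_sin_of_le_of_le_pi_div_two (by linarith) (by linarith) (by linarith)
  obtain ⟨t', ⟨t1, t2⟩, n, t3⟩ : ∃ t' ∈ Ico s (s + 2 * π), ∃ n : ℤ, t = t' + n * (2 * π) :=
    ⟨_, toIcoMod_mem_Ico Real.two_pi_pos s t, toIcoDiv Real.two_pi_pos s t, by
      rw [← zsmul_eq_mul, toIcoMod_add_toIcoDiv_zsmul]⟩
  rw [E_eq_iff.2 ⟨n, t3⟩] at hst ⊢
  have d1 := norm_E_sub_le s t'
  have d2 := norm_E_sub_le (s + 2 * π) t'
  rw [abs_of_nonpos (by linarith)] at d1
  rw [abs_of_nonneg (by linarith), E_per] at d2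
  rw [he, he]
  rcases le_total (h t' - h s) π with k | k
  · rw [norm_sub_rev]
    exact arc s t' (by linarith) k
  · have := arc t' (s + 2 * π) (by linarith) (by rw [hp]; linarith)
    rwa [hp, E_per] at this

end Pool.Agent.MC.QC
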