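import Pool.Agent.P.MP_2677b3_gt.QcB

/-! The Douady-Earle extension of a quasi-isometry with an energy bound. -/

open UpperHalfPlane Filter Topology Set
open scoped MatrixGroups

namespace Pool.Agent.MC.QC

open DE

theorem qc_norm {η r K' : ℝ} (hr : r < 1)
    (hpt : ∀ φ : ℂ → ℂ, PosHom φ → Sep η φ → ‖ext φ 0‖ ≤ r ∧ QCAt K' (ext φ) 0)
    {f : ℍ → ℍ} {φ : ℂ → ℂ} (hb : IsBd f φ) (hp : PosHom φ)
    (hη : ∀ (A B : SL(2, ℝ)) (ψ : ℂ → ℂ), B • f (A • I) = I → IsBd (fun w => B • f (A • w)) ψ →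
      PosHom ψ → Sep η ψ) (z : ℍ) :
    dist (kapi (ext φ (kap z))) (f z) ≤ -Real.log ((1 - r) / 2) ∧ QCAt K' (ext φ) (kap z) := by
  obtain ⟨A, hA⟩ := MulAction.exists_smul_eq SL(2, ℝ) I z
  obtain ⟨B, hB⟩ := MulAction.exists_smul_eq SL(2, ℝ) I (f z)
  have hb' : IsBd (fun w => B⁻¹ • f (A • w)) (mobA B⁻¹ ∘ φ ∘ mobA A) :=
    ((isBd_smul A).comp hb).comp (isBd_smul B⁻¹)
  set ψ : ℂ → ℂ := mobA B⁻¹ ∘ φ ∘ mobA A with hψ
  have hpψ : PosHom ψ := ((posHom_mob (beA_lt A)).comp hp).comp (posHom_mob (beA_lt B⁻¹))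
  have hs : Sep η ψ := hη _ _ ψ (by simp [hA, ← hB]) hb' hpψ
  obtain ⟨h1, h2⟩ := hpt ψ hpψ hs
  have hnat : ∀ u : ℂ, ‖u‖ < 1 → ext φ (mobA A u) = mobA B (ext ψ u) := fun u hu =>
    ext_nat hp hpψ (beA_lt A) (beA_lt B) (fun ξ hξ => by
      have h3 : ‖φ (mobA A ξ)‖ = 1 := hb.norm _ (mob_one (beA_lt A) hξ)
      exact (mobA_inv' B h3.le).symm) hu
  have hz0 : mobA A 0 = kap z := by rw [← kap_I, ← kap_smul, hA]
  have hv1 : ‖ext ψ 0‖ < 1 := h1.trans_lt hr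
  constructor
  · have e1 : ext φ (kap z) = kap (B • kapi (ext ψ 0)) := by
      rw [kap_smul, kap_kapi hv1, ← hz0, hnat 0 (by simp)]
    rw [e1, kapi_kap, ← hB, dist_smul]
    exact dist_le_of_kap hr _ (by rw [kap_kapi hv1]; exact h1)
  · have e0 : mobA A⁻¹ (kap z) = 0 := by rw [← hz0, mobA_inv A (by simp)]
    have h3 : QCAt K' (mobA B ∘ ext ψ ∘ mobA A⁻¹) (kap z) := by
      refine QCAt.conf (by rw [e0]; exact h2) (mob_analyticAt (beA_lt _) (kap_lt z).le)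
        (mob_deriv_ne (beA_lt _) (kap_lt z).le) ?_ ?_
      · rw [e0]; exact mob_analyticAt (beA_lt _) hv1.le
      · rw [e0]; exact mob_deriv_ne (beA_lt _) hv1.le
    refine h3.congr ?_
    have hb1 : ∀ᶠ u : ℂ in 𝓝 (kap z), ‖u‖ < 1 :=
      (isOpen_lt continuous_norm continuous_const).mem_nhds (kap_lt z)
    filter_upwards [hb1] with u hu
    have := hnat (mobA A⁻¹ u) (mob_lt (beA_lt _) hu)
    rw [mobA_inv' A hu.le] at this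
    exact this

theorem qc_one {K R C : ℝ} (m : ℕ) (hK : 0 ≤ K) (hR : 0 ≤ R) (hC : 0 ≤ C) : ∃ K' : ℝ,
    ∀ (K₀ : ℝ) (f g : ℍ → ℍ), QIPair K₀ f g → (∀ x y, dist (f x) (f y) ≤ K * dist x y + K) →
      EP R m C f → (∃ φ, IsBd f φ ∧ PosHom φ) → ∃ F : ℍ ≃ₜ ℍ, IsQC K' F ∧ ∀ A B : SL(2, ℝ),
        (∃ C : ℝ, ∀ z, dist (f (A • z)) (B • f z) ≤ C) → ∀ z, F (A • z) = B • F z := by
  obtain ⟨η, hη0, hη⟩ := sep m hK hR hC
  obtain ⟨r, K', hr, hpt⟩ := disc_pt hη0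
  refine ⟨K', fun K₀ f g h hL hE ⟨φ, hb, hp⟩ => ?_⟩
  have key := qc_norm hr hpt hb hp fun A B ψ h1 h2 h3 => hη _ ψ (hE.conj A B) (fun x y => by
    rw [dist_smul, ← dist_smul A x]
    exact hL _ _) h1 h2 h3
  set F : ℍ → ℍ := fun z => kapi (ext φ (kap z)) with hF
  have hlt : ∀ z : ℍ, ‖ext φ (kap z)‖ < 1 := fun z => (ext_spec hp (kap_lt z)).1
  have hQ : ∀ z : ℍ, QCAt K' (cayi ∘ ext φ ∘ cay) z := fun z =>
    QCAt.conf (B := cay) (key z).2 (cay_analyticAt z) (cay_deriv_ne z)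
      (cayi_analyticAt (hlt z)) (cayi_deriv_ne (hlt z))
  have hqc : IsQC K' F := by
    refine ⟨cayi ∘ ext φ ∘ cay, fun z => (coe_kapi (hlt z)).symm, fun z hz => ?_,
      fun z => (hQ z).2⟩
    exact (hQ ⟨z, hz⟩).1.contDiffWithinAt
  obtain ⟨e, he⟩ := homeo_of_proper (isLocalHomeomorph_of_qc hqc) (fun R => by
    obtain ⟨R', hR'⟩ := qi_proper h (R + -Real.log ((1 - r) / 2))
    refine ⟨R', fun z hz => hR' z ?_⟩
    have h1 := (key z).1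
    have h2 := dist_triangle_left (f z) I (F z)
    linarith)
  have hef : (e : ℍ → ℍ) = F := funext he
  refine ⟨e, hef ▸ hqc, fun A B hc z => ?_⟩
  rw [he, he]
  apply kap_inj
  rw [kap_smul, kap_kapi (hlt _), kap_kapi (hlt _), kap_smul]
  exact ext_nat hp hp (beA_lt A) (beA_lt B) (fun ξ hξ => hb.equi hc hξ) (kap_lt z)

theorem pos_comp {K K' : ℝ} {f g t t' : ℍ → ℍ} (h : QIPair K f g) (h' : QIPair K' t t')
    (hf : ¬ ∃ φ, IsBd f φ ∧ PosHom φ) (ht : ¬ ∃ φ, IsBd t φ ∧ PosHom φ) :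
    ∃ φ, IsBd (t ∘ f) φ ∧ PosHom φ := by
  obtain ⟨φ, hb, hn⟩ := de_neg h hf
  obtain ⟨ψ, hb', hn'⟩ := de_neg h' ht
  exact ⟨ψ ∘ φ, hb.comp hb', hn.comp hn'⟩

theorem pos_invol {K : ℝ} {t : ℍ → ℍ} (h : QIPair K t t) (hP : ∃ φ, IsBd t φ ∧ PosHom φ)
    (hc : ∃ C : ℝ, ∀ n : ℕ, ∃ z : ℍ, (n : ℝ) ≤ dist z I ∧ dist (t z) z ≤ C) (A B : SL(2, ℝ))
    (he : ∃ C : ℝ, ∀ z, dist (t (A • z)) (B • t z) ≤ C) (z : ℍ) : A • z = B • z := by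
  obtain ⟨φ, hb, hp⟩ := hP
  have hid : ∀ ξ : ℂ, ‖ξ‖ = 1 → φ ξ = ξ := fun ξ hξ =>
    hp.invol (fun x hx => bd_inv h hb hb hx) (hb.fix hc) hξ
  apply kap_inj
  rw [kap_smul, kap_smul]
  refine mob_ext (beA_lt A) (beA_lt B) (fun ζ hζ => ?_) (kap_lt z)
  have h1 := hb.equi he hζ
  rw [hid _ hζ, hid (mobA A ζ) (mob_one (beA_lt A) hζ)] at h1
  exact h1

end Pool.Agent.MC.QC
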