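import Pool.Agent.P.MP_2677b3_gt.QcA
import Pool.Agent.P.MP_2677b3_gt.FiC
import Pool.Agent.P.MP_2677b3_gt.LX5

/-! From the energy bound of a map of graphs to the energy bound on the half-plane. -/

open UpperHalfPlane
open scoped ENNReal

noncomputable section

namespace Pool.Agent.MC.QC

open LL

theorem sum_idx {β : Type} (ρ : β → ℝ≥0∞) (L : List β) :
    (L.map ρ).sum = ∑ l ∈ Finset.range L.length, (L[l]?).elim 0 ρ := by
  induction L with
  | nil => simp
  | cons b L ih => simp [Finset.sum_range_succ', ih, add_comm]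

variable {A B : Gd}

theorem en_sq {f : Mp A B} {E : ℕ} (h : f.En E) (s : Finset B.E) (t : Finset A.E)
    (Q : A.E → Finset ℕ) (hQ : ∀ a, ∀ l ∈ Q a, ∃ b ∈ s, (f.e a)[l]? = some b) :
    ∑ a ∈ t, (Q a).card ^ 2 ≤ E * s.card := by
  classical
  have h1 := h fun b => if b ∈ s then 1 else 0
  rw [tsum_eq_sum (s := s) fun b hb => by simp [hb],
    Finset.sum_congr rfl (g := fun _ => 1) fun b hb => by simp [hb]] at h1
  have h2 : ∀ a, ((Q a).card : ℝ≥0∞) ≤ ((f.e a).map fun b => if b ∈ s then 1 else 0).sum := by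
    intro a
    rw [sum_idx, Finset.card_eq_sum_ones, Nat.cast_sum]
    refine le_trans (le_of_eq (Finset.sum_congr rfl fun l hl => ?_))
      (Finset.sum_le_sum_of_subset (s := Q a) fun l hl => ?_)
    · obtain ⟨b, b1, b2⟩ := hQ a l hl
      simp [b2, b1]
    · obtain ⟨b, -, b2⟩ := hQ a l hl
      exact Finset.mem_range.2 (List.getElem?_eq_some_iff.1 b2).1
  have h3 := ((Finset.sum_le_sum fun a _ => pow_le_pow_left' (h2 a) 2).trans
    (ENNReal.sum_le_tsum t)).trans h1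
  rw [Finset.sum_const, nsmul_eq_mul, mul_one] at h3
  exact_mod_cast h3

theorem en_len {f : Mp A B} {E : ℕ} (h : f.En E) (a : A.E) : (f.e a).length ≤ E := by
  classical
  have h1 := en_sq h (f.e a).toFinset {a}
    (fun x => if x = a then Finset.range (f.e a).length else ∅) fun x l hl => by
      split_ifs at hl with k
      · subst k
        have := Finset.mem_range.1 hl
        exact ⟨(f.e x)[l], by simp, List.getElem?_eq_getElem this⟩
      · simp at hl
  have h2 := List.toFinset_card_le (f.e a)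
  simp only [Finset.sum_singleton, if_true, Finset.card_range] at h1
  by_contra k
  nlinarith

theorem en_cnt {f : Mp A B} {E : ℕ} (h : f.En E) (s : Finset B.E) (P : Finset (A.E × ℕ))
    (hP : ∀ x ∈ P, ∃ b ∈ s, (f.e x.1)[x.2]? = some b) : P.card ≤ E * s.card := by
  classical
  refine le_trans ?_ (en_sq h s (P.image Prod.fst)
    (fun a => (P.filter fun x => x.1 = a).image Prod.snd) fun a l hl => ?_)
  · rw [Finset.card_eq_sum_card_image Prod.fst]
    refine Finset.sum_le_sum fun a _ => le_trans (le_of_eq ?_) (Nat.le_self_pow two_ne_zero _)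
    refine (Finset.card_image_of_injOn fun x hx y hy e => Prod.ext ?_ e).symm
    exact (Finset.mem_filter.1 hx).2.trans (Finset.mem_filter.1 hy).2.symm
  · obtain ⟨x, hx, rfl⟩ := Finset.mem_image.1 hl
    obtain ⟨h1, rfl⟩ := Finset.mem_filter.1 hx
    exact hP x h1

theorem path_take {x y : A.V} {L : List A.E} (h : A.Path x L y) {k : ℕ} {a : A.E}
    (hk : L[k]? = some a) : A.Path x (L.take k) (A.src a) := by
  induction L generalizing x k with
  | nil => simp at hk
  | cons b L ih =>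
    cases k with
    | zero =>
      obtain rfl : b = a := by simpa using hk
      exact h.1.symm
    | succ k => exact ⟨h.1, ih h.2 (by simpa using hk)⟩

theorem ev_inj {f : Mp A B} {f' : Mp B A} (h : f.Back f') {x y : A.V} {p q : List A.E}
    (hp : A.Path x p y) (hq : A.Path x q y)
    (e : B.ev (p.flatMap f.e) = B.ev (q.flatMap f.e)) : A.ev p = A.ev q := by
  obtain ⟨η, -, h2⟩ := h
  have a1 := Mp.back_path f f' η h2 hp
  rw [f'.ev_congr (f.map_path hp) (f.map_path hq) e, Mp.back_path f f' η h2 hq] at a1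
  exact (mul_right_cancel a1).symm

theorem et (K : ℝ) (E : ℕ) : ∃ C : ℝ, 0 ≤ C ∧ ∀ {A B : Gd} {G G' : Subgroup (Equiv.Perm ℍ)}
    {K' : ℝ} (g : Geo A G K) (g' : Geo B G' K') (m : ℕ) (f : Mp A B) (f' : Mp B A) (x : A.V)
    (p : ℍ → List A.E) (y : ℍ → A.V), Isom G → Isom G' → (∀ v, g'.pt v = I) →
      (∀ T : Finset G', Mult T (fun δ => δ.1 I) 1 m) → f.Back f' → f.En E →
      (∀ δ, ∃ s : Finset B.E, s.card ≤ 8 ∧
        ∀ Q b, B.Path (f.v x) Q (B.src b) → g'.H Q = δ → b ∈ s) →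
      (∀ z, A.Path x (p z) (y z)) → (∀ z, dist z ((g.H (p z)).1 (g.pt (y z))) ≤ K) →
      EP K' m C fun z => (g'.H ((p z).flatMap f.e)).1 I := by
  classical
  obtain ⟨n, hn⟩ := exists_nat_ge (K * (2 + 2 * K) + K)
  obtain ⟨N, hN⟩ := mult_up (K + K * n)
  refine ⟨(n * E : ℕ) * (N * 15 * n * (E * 8) : ℕ), by positivity, ?_⟩
  intro A B G G' K' g g' m f f' x p y hI hI' hpt hm hb hE hdet hp hd S z z' hS hz
  have hK : 0 ≤ K := dist_nonneg.trans (hd I)
  have hq : ∀ i, ∃ q, A.Path (y (z i)) q (y (z' i)) ∧ g.H (p (z i) ++ q) = g.H (p (z' i)) ∧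
      q.length ≤ n := fun i => by
    obtain ⟨q, h1, h2, h3⟩ := g.eff _ _ _ ((hp (z i)).rev.append (hp (z' i)))
    change g.H q = g.H _ at h2
    change _ ≤ K * dist _ ((g.H _).1 _) + K at h3
    rw [Geo.H_append, Geo.H_rev] at h2 h3
    rw [← hI.dist_inv] at h3
    refine ⟨q, h1, by rw [Geo.H_append, h2, mul_inv_cancel_left], ?_⟩
    have a1 := dist_triangle4 ((g.H (p (z i))).1 (g.pt (y (z i)))) (z i) (z' i)
      ((g.H (p (z' i))).1 (g.pt (y (z' i))))
    rw [dist_comm _ (z i)] at a1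
    have a2 := mul_le_mul_of_nonneg_left (a1.trans (show _ ≤ 2 + 2 * K by
      linarith [hd (z i), hd (z' i), hz i])) hK
    exact_mod_cast (show (q.length : ℝ) ≤ n by linarith)
  choose q q1 q2 q3 using hq
  obtain ⟨P, hP⟩ : ∃ P : ℕ → ℕ → List A.E, ∀ i k, P i k = p (z i) ++ (q i).take k :=
    ⟨_, fun _ _ => rfl⟩
  obtain ⟨w, hw⟩ : ∃ w : ℕ → ℕ → List B.E, ∀ i k, w i k = ((q i)[k]?).toList.flatMap f.e :=
    ⟨_, fun _ _ => rfl⟩
  obtain ⟨δ, hδ⟩ : ∃ δ : ℕ × ℕ × ℕ → G', ∀ i k l,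
      δ (i, k, l) = g'.H ((P i k).flatMap f.e ++ (w i k).take l) :=
    ⟨fun j => g'.H ((P j.1 j.2.1).flatMap f.e ++ (w j.1 j.2.1).take j.2.2), fun _ _ _ => rfl⟩
  have fa : ∀ i k, (w i k).length ≤ E := fun i k => by
    rw [hw]
    cases (q i)[k]? with
    | none => simp
    | some a => simpa using en_len hE a
  have fb : ∀ i k, δ (i, k + 1, 0) = δ (i, k, E) := fun i k => by
    rw [hδ, hδ, List.take_of_length_le (fa i k), hP, hP, hw i k, List.take_add_one]
    simp
  have fd : ∀ i k l, l < (w i k).length → ∃ a b, w i k = f.e a ∧ (f.e a)[l]? = some b ∧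
      A.Path x (P i k) (A.src a) ∧ dist (z i) ((g.H (P i k)).1 (g.pt (A.src a))) ≤ K + K * n ∧
      B.Path (f.v x) ((P i k).flatMap f.e ++ (w i k).take l) (B.src b) := by
    intro i k l hl
    cases e : (q i)[k]? with
    | none => simp [hw, e] at hl
    | some a =>
      have e1 : w i k = f.e a := by simp [hw, e]
      rw [e1] at hl ⊢
      have e2 := List.getElem?_eq_getElem hl
      have e3 := path_take (q1 i) e
      have e4 : A.Path x (P i k) (A.src a) := hP i k ▸ (hp (z i)).append e3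
      refine ⟨a, _, rfl, e2, e4, ?_, (f.map_path e4).append (path_take (f.path a) e2)⟩
      have a1 := g.short_path hI e3
      have a2 : (((q i).take k).length : ℝ) ≤ n := by
        exact_mod_cast (List.length_take_le' _ _).trans (q3 i)
      have a3 := mul_le_mul_of_nonneg_left a2 hK
      rw [← hI (g.H (p (z i)))] at a1
      rw [hP, Geo.H_append]
      exact (dist_triangle _ _ _).trans (add_le_add (hd _) (a1.trans a3))
  let J := (S ×ˢ Finset.range n ×ˢ Finset.range E).filter fun j => j.2.2 < (w j.1 j.2.1).length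
  refine ⟨G', J.image δ, fun d => d.1 I, hm _, fun u ω hu => ?_⟩
  have inc : ∀ i k l, (u ((δ (i, k, l + 1)).1 I) - u ((δ (i, k, l)).1 I)) ^ 2 ≤
      if l < (w i k).length then ω ((δ (i, k, l)).1 I) ^ 2 else 0 := by
    intro i k l
    split_ifs with hl
    · obtain ⟨a, b, e1, e2, -⟩ := fd i k l hl
      have e3 : δ (i, k, l + 1) = δ (i, k, l) * g'.hol b := by
        rw [hδ, hδ, List.take_add_one, e1, e2]
        simp [mul_assoc]
      have e4 := g'.short b
      rw [hpt, hpt] at e4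
      refine sq_le_sq' (abs_le.1 ?_).1 (abs_le.1 ?_).2
      all_goals
        refine hu _ _ _ ?_ (by rw [dist_self]; exact dist_nonneg.trans e4)
        rw [e3, dist_comm, hI'.dist_inv, inv_mul_cancel_left]
        exact e4
    · rw [hδ, hδ, List.take_of_length_le (not_lt.1 hl),
        List.take_of_length_le ((not_lt.1 hl).trans l.le_succ), sub_self]
      simp
  have one : ∀ i, (u ((g'.H ((p (z i)).flatMap f.e)).1 I) -
      u ((g'.H ((p (z' i)).flatMap f.e)).1 I)) ^ 2 ≤ (n * E : ℕ) *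
        ∑ j ∈ Finset.range n ×ˢ Finset.range E,
          if j.2 < (w i j.1).length then ω ((δ (i, j)).1 I) ^ 2 else 0 := by
    intro i
    have e1 : g'.H ((p (z i)).flatMap f.e) = δ (i, 0, 0) := by simp [hδ, hP]
    have e2 : g'.H ((p (z' i)).flatMap f.e) = δ (i, n, 0) := by
      have c := (hp (z i)).append (q1 i)
      rw [hδ, hP, List.take_of_length_le (q3 i), List.take_zero, List.append_nil]
      exact ((g'.H_iff (f.map_path c) (f.map_path (hp _))).1
        (f.ev_congr c (hp _) ((g.H_iff c (hp _)).2 (q2 i)))).symm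
    have e3 : u ((δ (i, n, 0)).1 I) - u ((δ (i, 0, 0)).1 I) =
        ∑ j ∈ Finset.range n ×ˢ Finset.range E,
          (u ((δ (i, j.1, j.2 + 1)).1 I) - u ((δ (i, j.1, j.2)).1 I)) := by
      rw [Finset.sum_product, ← Finset.sum_range_sub fun k => u ((δ (i, k, 0)).1 I)]
      refine Finset.sum_congr rfl fun k _ => ?_
      rw [fb]
      exact (Finset.sum_range_sub (fun l => u ((δ (i, k, l)).1 I)) E).symm
    rw [e1, e2, ← neg_sub, neg_sq, e3]
    refine sq_sum_le_card_mul_sum_sq.trans ?_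
    rw [Finset.card_product, Finset.card_range, Finset.card_range]
    exact mul_le_mul_of_nonneg_left (Finset.sum_le_sum fun j _ => inc i j.1 j.2) (by positivity)
  refine (Finset.sum_le_sum fun i _ => one i).trans ?_
  rw [← Finset.mul_sum, mul_assoc, ← Finset.sum_product' (f := fun i (j : ℕ × ℕ) =>
    if j.2 < (w i j.1).length then ω ((δ (i, j)).1 I) ^ 2 else 0), ← Finset.sum_filter]
  refine mul_le_mul_of_nonneg_left ?_ (by positivity)
  rw [Finset.sum_comp (fun d : G' => ω (d.1 I) ^ 2) δ, Finset.mul_sum]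
  refine Finset.sum_le_sum fun d hd => ?_
  rw [nsmul_eq_mul]
  refine mul_le_mul_of_nonneg_right (Nat.cast_le.2 ?_) (sq_nonneg _)
  obtain ⟨j₀, hj₀, -⟩ := Finset.mem_image.1 hd
  obtain ⟨a₀, b₀, -⟩ := fd _ _ _ (Finset.mem_filter.1 hj₀).2
  have : Nonempty A.E := ⟨a₀⟩
  have : Nonempty B.E := ⟨b₀⟩
  choose! a b c1 c2 c3 c4 c5 using fd
  obtain ⟨s, s1, s2⟩ := hdet d
  refine (Finset.card_le_mul_card_image (f := fun j : ℕ × ℕ × ℕ => (a j.1 j.2.1 j.2.2, j.2.2)) _
    (N * 15 * n) fun c hc => ?_).trans (Nat.mul_le_mul_left _ ((en_cnt hE s _ fun c hc => ?_).trans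
      (Nat.mul_le_mul_left _ s1)))
  · obtain ⟨⟨i, k, l⟩, h1, rfl⟩ := Finset.mem_image.1 hc
    obtain ⟨h2, h3⟩ := Finset.mem_filter.1 h1
    have h4 : l < (w i k).length := (Finset.mem_filter.1 h2).2
    refine (Finset.card_le_card_of_injOn (t := (S.filter fun i' => dist (z i')
      ((g.H (P i k)).1 (g.pt (A.src (a i k l)))) ≤ K + K * n) ×ˢ Finset.range n)
      (fun j => (j.1, j.2.1)) ?_ ?_).trans ?_
    · rintro ⟨i', k', l'⟩ k1
      obtain ⟨k2, k3⟩ := Finset.mem_filter.1 (Finset.mem_coe.1 k1)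
      obtain ⟨k4, k5⟩ := Finset.mem_filter.1 k2
      obtain ⟨k6, k7⟩ := Finset.mem_filter.1 k4
      obtain ⟨k8, rfl⟩ : a i' k' l' = a i k l ∧ l' = l := Prod.mk.inj k3
      simp only [Finset.mem_product] at k6
      have p1 := c3 _ _ _ k7
      have p2 := c3 _ _ _ h4
      have p3 := c4 _ _ _ k7
      dsimp only at p1 p3 k7
      rw [k8] at p1 p3
      rw [← h3, hδ, hδ, Geo.H_append, Geo.H_append, c1 _ _ _ k7, c1 _ _ _ h4, k8] at k5
      rw [(g.H_iff p1 p2).1 (ev_inj hb p1 p2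
        ((g'.H_iff (f.map_path p1) (f.map_path p2)).2 (mul_right_cancel k5)))] at p3
      exact Finset.mem_coe.2 (Finset.mem_product.2 ⟨Finset.mem_filter.2 ⟨k6.1, p3⟩, k6.2.1⟩)
    · rintro ⟨i', k', l'⟩ k1 ⟨i'', k'', l''⟩ k2 k3
      have k4 := (Prod.mk.inj (Finset.mem_filter.1 (Finset.mem_coe.1 k1)).2).2
      have k5 := (Prod.mk.inj (Finset.mem_filter.1 (Finset.mem_coe.1 k2)).2).2
      obtain ⟨k6, k7⟩ := Prod.mk.inj k3
      exact Prod.ext k6 (Prod.ext k7 (k4.trans k5.symm))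
    · rw [Finset.card_product, Finset.card_range]
      exact Nat.mul_le_mul_right _ (hN S z 15 hS _)
  · obtain ⟨⟨i, k, l⟩, h1, rfl⟩ := Finset.mem_image.1 hc
    obtain ⟨h2, h3⟩ := Finset.mem_filter.1 h1
    have h4 : l < (w i k).length := (Finset.mem_filter.1 h2).2
    exact ⟨_, s2 _ _ (c5 _ _ _ h4) ((hδ i k l).symm.trans h3), c2 _ _ _ h4⟩

theorem act_edge (T : Act) (x : T.D) (j : Fin 4 × Bool) :
    T.gd.src (bif j.2 then x else (T.g j.1)⁻¹ x, j) = x := by
  obtain ⟨j, b⟩ := j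
  cases b <;> simp [Act.gd]

theorem act_det (T : Act) (x : T.D) (γ : Pi2) : ∃ s : Finset T.gd.E, s.card ≤ 8 ∧
    ∀ Q b, T.gd.Path x Q (T.gd.src b) → T.gd.ev Q = γ → b ∈ s := by
  classical
  obtain ⟨Φ, hΦ⟩ := T.exists_hom
  refine ⟨Finset.univ.image fun j : Fin 4 × Bool =>
    (bif j.2 then (Φ γ)⁻¹ x else (T.g j.1)⁻¹ ((Φ γ)⁻¹ x), j), Finset.card_image_le.trans (by simp),
    fun Q b h1 h2 => Finset.mem_image.2 ⟨b.2, Finset.mem_univ _, lx5_ext T ?_ rfl⟩⟩
  have := hΦ _ _ _ h1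
  rw [h2] at this
  rw [act_edge, ← this]
  exact (Φ γ).symm_apply_apply _

theorem act_word (T : Act) (w : List (Fin 4 × Bool)) (x : T.D) : ∃ (p : List T.gd.E) (y : T.D),
    T.gd.Path x p y ∧ p.length = w.length ∧ T.gd.ev p = (w.map lx5v).prod := by
  induction w generalizing x with
  | nil => exact ⟨[], x, rfl, rfl, rfl⟩
  | cons j w ih =>
    obtain ⟨p, y, h1, h2, h3⟩ := ih (T.gd.tgt (bif j.2 then x else (T.g j.1)⁻¹ x, j))
    exact ⟨_ :: p, y, ⟨act_edge T x j, h1⟩, congrArg (· + 1) h2,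
      (Gd.ev_cons (A := T.gd) _ p).trans (congrArg (lx5v j * ·) h3)⟩

theorem act_geo {G : Subgroup (Equiv.Perm ℍ)} {ε : ℝ} (hε : 0 < ε) (hG : Fuchs G ε)
    (e : G ≃* Pi2) : ∃ K : ℝ, 0 ≤ K ∧ ∀ T : Act, ∃ g : Geo T.gd G K,
      (∀ v, g.pt v = I) ∧ ∀ p, g.H p = e.symm (T.gd.ev p) := by
  have hI := isom_of_mob hG.mob
  let wl : Pi2 → ℕ := fun γ =>
    sInf {n | ∃ w : List (Fin 4 × Bool), w.length = n ∧ (w.map lx5v).prod = γ}
  have w1 : ∀ γ, ∃ w : List (Fin 4 × Bool), w.length = wl γ ∧ (w.map lx5v).prod = γ := fun γ => by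
    obtain ⟨p, -, -, h⟩ := Act.exists_path ⟨Unit, inferInstance, fun _ => 1, by simp⟩ () γ
    exact Nat.sInf_mem (s := {n | ∃ w : List (Fin 4 × Bool), w.length = n ∧ (w.map lx5v).prod = γ})
      ⟨_, p.map (·.2), rfl, by rw [List.map_map]; exact h⟩
  obtain ⟨C, hC0, hC⟩ := hG.svarc hε (fun γ => wl (e γ)) fun a b => by
    obtain ⟨u, h1, h2⟩ := w1 (e a)
    obtain ⟨v, h3, h4⟩ := w1 (e b)
    have : wl (e (a * b)) ≤ wl (e a) + wl (e b) :=
      Nat.sInf_le ⟨u ++ v, by simp [h1, h3], by simp [h2, h4]⟩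
    exact_mod_cast this
  obtain ⟨D, hD⟩ := (Set.finite_range fun j => dist I ((e.symm (lx5v j)).1 I)).bddAbove
  obtain ⟨R, hR⟩ := hG.cocpt
  refine ⟨max C (max D R), le_max_of_le_left hC0, fun T => ?_⟩
  obtain ⟨Φ, hΦ⟩ := T.exists_hom
  have hH : ∀ p : List T.gd.E, (p.map fun b => e.symm (T.gd.val b)).prod = e.symm (T.gd.ev p) :=
    fun p => by
      induction p with
      | nil => exact (map_one e.symm).symm
      | cons b p ih =>
        rw [List.map_cons, List.prod_cons, ih, Gd.ev_cons]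
        exact (map_mul e.symm _ _).symm
  refine ⟨⟨fun _ => I, fun b => e.symm (T.gd.val b), fun b => ?_, fun x p _ => ?_,
    fun b => le_max_of_le_right (le_max_of_le_left (hD ⟨b.2, rfl⟩)), fun x p y hp => ?_,
    fun x z => ?_⟩, fun _ => rfl, hH⟩
  · rw [T.gd.val_inv]
    exact map_inv e.symm _
  · rw [hH]
    exact (map_eq_one_iff e.symm e.symm.injective).symm
  · obtain ⟨w, h1, h2⟩ := w1 (T.gd.ev p)
    obtain ⟨q, y', h3, h4, h5⟩ := act_word T w x
    have h6 : T.gd.ev q = T.gd.ev p := h5.trans h2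
    obtain rfl : y' = y := (Φ (T.gd.ev p)).injective
      ((h6 ▸ hΦ _ _ _ h3).trans (hΦ _ _ _ hp).symm)
    refine ⟨q, h3, by rw [hH, hH, h6], ?_⟩
    have h7 := hC (e.symm (T.gd.ev p))
    rw [e.apply_symm_apply (T.gd.ev p : Pi2), ← h1, ← h4] at h7
    rw [hH]
    exact h7.trans (add_le_add (mul_le_mul_of_nonneg_right (le_max_left _ _) dist_nonneg)
      (le_max_left _ _))
  · obtain ⟨γ, h1, h2⟩ := hR z
    obtain ⟨p, y, h3, h4⟩ := T.exists_path x (e ⟨γ, h1⟩⁻¹)
    refine ⟨p, y, h3, ?_⟩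
    rw [hH, h4, e.symm_apply_apply, ← hI ⟨γ, h1⟩]
    simpa using Or.inr (Or.inr h2)

end Pool.Agent.MC.QC
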