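import Pool.Agent.P.MP_2677b3_gt.QcC
import Pool.Agent.P.MP_2677b3_gt.QcD
import Pool.Agent.P.MP_2677b3_gt.FiO

/-! A map with an energy bound onto a Schreier graph gives a quasiconformal conjugacy. -/

open UpperHalfPlane
open scoped MatrixGroups

namespace Pool.Agent.MC.QC

open LL

theorem core2 {K : ℝ} {A B : Gd} {G G' : Subgroup (Equiv.Perm ℍ)} (hI : Isom G) (hI' : Isom G')
    (g : Geo A G K) (g' : Geo B G' K) {n : ℕ} (hn : (n : ℝ) ≤ K) (f : Mor n A B) (b : Mor n B A)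
    (hf : f.Back b) (hb : b.Back f) {x : A.V} {p : ℍ → List A.E} {y : ℍ → A.V}
    (hp : ∀ z, A.Path x (p z) (y z)) (hd : ∀ z, dist z ((g.H (p z)).1 (g.pt (y z))) ≤ K)
    {F₀ : ℍ → ℍ} (hF : ∀ z, F₀ z = (g'.H ((p z).flatMap f.e)).1 (g'.pt (f.v (y z)))) :
    ∃ (K' : ℝ) (G₀ : ℍ → ℍ), QIPair K' F₀ G₀ ∧
      (∀ p, A.Path x p x → ∃ q, B.Path (f.v x) q (f.v x) ∧
        ∀ z, dist (F₀ ((g.H p).1 z)) ((g'.H q).1 (F₀ z)) ≤ K') ∧
      (∀ q, B.Path (f.v x) q (f.v x) → ∃ p, A.Path x p x ∧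
        ∀ z, dist (F₀ ((g.H p).1 z)) ((g'.H q).1 (F₀ z)) ≤ K') := by
  obtain ⟨M, hM⟩ : ∃ M, M = K ^ 3 * (2 * K) + K ^ 3 + K * K + K := ⟨_, rfl⟩
  refine ⟨M * M + 5 * M, ?_⟩
  obtain ⟨η, h1, h2⟩ := hf
  obtain ⟨ζ, h3, h4⟩ := hb
  have hK : 0 ≤ K := n.cast_nonneg.trans hn
  have k3 : 0 ≤ K ^ 3 := by positivity
  have k4 : 0 ≤ K ^ 3 * K := by positivity
  have k2 : 0 ≤ K * K := by positivity
  have hM0 : 0 ≤ M := by rw [hM]; positivity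
  have hMM := mul_nonneg hM0 hM0
  choose q u hq he using g'.dense (f.v x)
  change ∀ z, dist z ((g'.H (q z)).1 (g'.pt (u z))) ≤ K at he
  obtain ⟨G₀, hG⟩ : ∃ G₀ : ℍ → ℍ, ∀ w, G₀ w =
      (g.H (η x) * g.H ((q w).flatMap b.e)).1 (g.pt (b.v (u w))) := ⟨_, fun _ => rfl⟩
  have eqv : ∀ p₀, A.Path x p₀ x → ∀ z,
      dist (F₀ ((g.H p₀).1 z)) ((g'.H (p₀.flatMap f.e)).1 (F₀ z)) ≤ M * M + 5 * M := by
    intro p₀ hp₀ z
    have a := g.transfer g' hI hI' hn f (hp ((g.H p₀).1 z)) (hp₀.append (hp z)) (s := 2 * K) (by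
      have a1 := hd ((g.H p₀).1 z)
      have a2 := hd z
      rw [← hI (g.H p₀)] at a2
      rw [Geo.H_append]
      exact (dist_triangle_left _ _ ((g.H p₀).1 z)).trans
        ((add_le_add a1 a2).trans (by linarith)))
    rw [List.flatMap_append, Geo.H_append] at a
    rw [hF, hF]
    exact a.trans (by linarith)
  let l : G' := g'.H ((η x).flatMap f.e) * (g'.H (ζ (f.v x)))⁻¹
  have lip : ∀ {a b c d : ℍ}, dist a c ≤ K → dist b d ≤ K → dist c d ≤ dist a b + 2 * K := by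
    intro a b c d h1 h2
    have := dist_triangle4 c a b d
    rw [dist_comm c a] at this
    linarith
  have fin : ∀ a b : ℍ, K ^ 3 * (dist a b + 2 * K) + K ^ 3 ≤ M * dist a b + M := by
    intro a b
    have := mul_le_mul_of_nonneg_right (show K ^ 3 ≤ M by linarith) (dist_nonneg (x := a) (y := b))
    linarith
  refine ⟨G₀, QIPair.of_iso hM0 l.1 (hI' l) (fun z w => ?_) (fun z w => ?_)
    (fun z => ?_) (fun w => ?_), fun p₀ hp₀ => ⟨_, f.map_path hp₀, eqv p₀ hp₀⟩, fun q₀ hq₀ => ?_⟩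
  · rw [hF, hF]
    exact (g.transfer g' hI hI' hn f (hp z) (hp w) (lip (hd z) (hd w))).trans (fin z w)
  · rw [hG, hG]
    refine (hI (g.H (η x)) _ _).trans_le ?_
    exact (g'.transfer g hI' hI hn b (hq z) (hq w) (lip (he z) (he w))).trans (fin z w)
  · have a := g'.transfer g hI' hI hn b (hq (F₀ z)) (f.map_path (hp z)) (s := K)
      (by rw [← hF, dist_comm]; exact he _)
    rw [← hI (g.H (η x))] at a
    have c := (g.back hI hn f b h1 h2 (hp z)).2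
    have d := hd z
    rw [dist_comm] at d
    rw [hG]
    exact (dist_triangle4 _ _ _ _).trans ((add_le_add (add_le_add a c) d).trans (by linarith))
  · have a := g.transfer g' hI hI' hn f (hp (G₀ w)) ((h1 x).1.append (b.map_path (hq w))) (s := K)
      (by rw [Geo.H_append, ← hG, dist_comm]; exact hd _)
    have c := (g'.back hI' hn b f h3 h4 (hq w)).2
    have d := he w
    rw [dist_comm, ← hI' l] at d
    rw [← hI' l] at c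
    have e : g'.H ((η x ++ (q w).flatMap b.e).flatMap f.e) =
        l * (g'.H (ζ (f.v x)) * g'.H (((q w).flatMap b.e).flatMap f.e)) := by
      simp only [l, List.flatMap_append, Geo.H_append, mul_assoc, inv_mul_cancel_left]
    rw [e] at a
    rw [hF]
    exact (dist_triangle4 _ _ _ _).trans ((add_le_add (add_le_add a c) d).trans (by linarith))
  · have hl : B.Path (f.v x) ((η x).flatMap f.e ++ B.rev (ζ (f.v x))) (f.v x) :=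
      (f.map_path (h1 x).1).append (h3 _).1.rev
    have hq₁ := hl.rev.append (hq₀.append hl)
    have hp₀ := (h1 x).1.append ((b.map_path hq₁).append (h1 x).1.rev)
    refine ⟨_, hp₀, fun z => ?_⟩
    have c := (g'.back hI' hn b f h3 h4 hq₁).1
    have e := (g'.H_iff (f.map_path (h1 x).1.rev) (f.map_path (h1 x).1).rev).1
      (by rw [f.ev_map_rev, Gd.ev_rev])
    refine le_of_eq_of_le ?_ (eqv _ hp₀ z)
    congr 3
    rw [List.flatMap_append (f := f.e), List.flatMap_append (f := f.e), Geo.H_append, Geo.H_append,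
      e, eq_inv_mul_of_mul_eq c]
    simp [mul_assoc]

theorem bound {ι α : Type} [Finite ι] (l : ι → List α) : ∃ n : ℕ, ∀ i, (l i).length ≤ n := by
  obtain ⟨n, hn⟩ := (Set.finite_range fun i => (l i).length).bddAbove
  exact ⟨n, fun i => hn ⟨i, rfl⟩⟩

theorem act_sub {G : Subgroup (Equiv.Perm ℍ)} (e : G ≃* Pi2) (T : Act) (x : T.D) :
    ∃ Λ : Subgroup G, Λ.index ≠ 0 ∧
      ∀ γ, γ ∈ Λ ↔ ∃ q, T.gd.Path x q x ∧ e.symm (T.gd.ev q) = γ := by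
  obtain ⟨Φ, hΦ⟩ := T.exists_hom
  let Ψ : G →* Equiv.Perm T.D := Φ.comp e.toMonoidHom
  refine ⟨(MulAction.stabilizer (α := T.D) (Equiv.Perm T.D) x).comap Ψ,
    (Subgroup.finiteIndex_of_le (H := Ψ.ker) fun l hl => ?_).index_ne_zero, fun l => ?_⟩
  · change Ψ l x = x
    rw [MonoidHom.mem_ker.1 hl]
    rfl
  · change Φ (e l) x = x ↔ _
    refine ⟨fun h => ?_, fun ⟨u, h, h'⟩ => ?_⟩
    · obtain ⟨p, y, h3, h4⟩ := T.exists_path x (e l)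
      have h5 := hΦ _ p y h3
      rw [h4] at h5
      obtain rfl : y = x := (Φ (e l)).injective (h5.trans h.symm)
      exact ⟨p, h3, by rw [h4, e.symm_apply_apply]⟩
    · rw [← h', e.apply_symm_apply (T.gd.ev u : Pi2)]
      exact hΦ _ u _ h

theorem orbit_mult {G : Subgroup (Equiv.Perm ℍ)} {ε : ℝ} (hε : 0 < ε) (hG : Fuchs G ε) :
    ∃ m : ℕ, ∀ T : Finset G, Mult T (fun δ => δ.1 I) 1 m := by
  obtain ⟨m, hm⟩ := fuchs_count hε hG 2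
  refine ⟨m, fun T z => ?_⟩
  have h1 := (Set.encard_le_encard
    (s := ((T.filter fun δ => dist (δ.1 I) z ≤ 1 : Finset G) : Set G))
    fun δ hδ => show dist z (δ.1 I) < 2 by
      have := (Finset.mem_filter.1 (Finset.mem_coe.1 hδ)).2
      rw [dist_comm]
      linarith).trans (hm z)
  rw [Set.encard_coe_eq_coe_finsetCard] at h1
  exact_mod_cast h1

theorem coarse_map (GX : Subgroup (Equiv.Perm ℍ)) (εX : ℝ) (hεX : 0 < εX) (hX : Fuchs GX εX)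
    (e : GX ≃* Pi2) (K : ℝ) (E : ℕ) : ∃ (L R C : ℝ) (m : ℕ), 0 ≤ L ∧ 0 ≤ R ∧ 0 ≤ C ∧
      ∀ GY : Subgroup (Equiv.Perm ℍ), Isom GY → ∀ (A : Gd) [Finite A.E] [Finite A.V]
      (g : Geo A GY K), g.Full → Nonempty A.V → ∀ T : Act, Fw E A T.gd →
      ∃ (K₀ : ℝ) (f f' : ℍ → ℍ) (Λ₀ : Subgroup GX), QIPair K₀ f f' ∧
        (∀ x y, dist (f x) (f y) ≤ L * dist x y + L) ∧ EP R m C f ∧ Λ₀.index ≠ 0 ∧
        (∀ γ : GY, ∃ δ ∈ Λ₀, ∃ C, ∀ z, dist (f (γ.1 z)) (δ.1 (f z)) ≤ C) ∧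
        (∀ δ ∈ Λ₀, ∃ γ : GY, ∃ C, ∀ z, dist (f (γ.1 z)) (δ.1 (f z)) ≤ C) := by
  obtain ⟨R, hR, hT⟩ := act_geo hεX hX e
  obtain ⟨m, hm⟩ := orbit_mult hεX hX
  obtain ⟨C, hC, het⟩ := et K E
  obtain ⟨K₁, k1, k2, k3⟩ : ∃ K₁ : ℝ, K ≤ K₁ ∧ R ≤ K₁ ∧ (E : ℝ) ≤ K₁ :=
    ⟨max K (max R E), le_max_left _ _, le_max_of_le_right (le_max_left _ _),
      le_max_of_le_right (le_max_right _ _)⟩
  have k0 : 0 ≤ K₁ := hR.trans k2
  have hIX := isom_of_mob hX.mob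
  refine ⟨K₁ ^ 3 * (2 * K₁) + K₁ ^ 3, R, C, m, by positivity, hR, hC, ?_⟩
  rintro GY hI A _ _ g hfull ⟨x⟩ T ⟨f, f', ⟨η, h1, h2⟩, ⟨ζ, h3, h4⟩, hE⟩
  obtain ⟨g', g1, g2⟩ := hT T
  obtain ⟨Λ₀, l1, l2⟩ := act_sub e T (f.v x)
  choose p y hp hd using g.dense x
  have : Finite T.gd.E := inferInstanceAs (Finite (T.D × Fin 4 × Bool))
  have : Finite T.gd.V := T.fD
  obtain ⟨n₁, b1⟩ := bound f'.e
  obtain ⟨n₂, b2⟩ := bound η
  obtain ⟨n₃, b3⟩ := bound ζ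
  have b0 := en_len hE
  obtain ⟨K₀, G₀, q, e1, e2⟩ := core2 hI hIX (g.mono (K' := K₁ + (n₁ + n₂ + n₃ : ℕ))
      (k1.trans (le_add_of_nonneg_right (Nat.cast_nonneg _))))
    (g'.mono (k2.trans (le_add_of_nonneg_right (Nat.cast_nonneg _)))) (n := E + (n₁ + n₂ + n₃))
    (by rw [Nat.cast_add E]; exact add_le_add k3 le_rfl)
    ⟨f.v, f.e, f.path, fun a => (b0 a).trans (by omega), f.cong⟩
    ⟨f'.v, f'.e, f'.path, fun a => (b1 a).trans (by omega), f'.cong⟩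
    ⟨η, fun v => ⟨h1 v, (b2 v).trans (by omega)⟩, h2⟩
    ⟨ζ, fun v => ⟨h3 v, (b3 v).trans (by omega)⟩, h4⟩ hp
    (fun z => (hd z).trans (k1.trans (le_add_of_nonneg_right (Nat.cast_nonneg _))))
    (F₀ := fun z => (g'.H ((p z).flatMap f.e)).1 I) fun z => congrArg _ (g1 _).symm
  refine ⟨K₀, _, G₀, Λ₀, q, fun z w => ?_, het g g' m f f' x p y hI hIX g1 hm ⟨η, h1, h2⟩ hE
    (fun δ => ?_) hp hd, l1, fun γ => ?_, fun δ hδ => ?_⟩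
  · have a := (g.mono k1).transfer (g'.mono k2) hI hIX k3 ⟨f.v, f.e, f.path, b0, f.cong⟩
      (hp z) (hp w) (s := dist z w + 2 * K₁) (by
        have a1 := dist_triangle4 ((g.H (p z)).1 (g.pt (y z))) z w ((g.H (p w)).1 (g.pt (y w)))
        rw [dist_comm _ z] at a1
        exact a1.trans ((add_le_add (add_le_add ((hd z).trans k1) le_rfl)
          ((hd w).trans k1)).trans (by linarith)))
    change dist ((g'.H _).1 (g'.pt _)) ((g'.H _).1 (g'.pt _)) ≤ _ at a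
    rw [g1, g1] at a
    refine a.trans ?_
    have := mul_nonneg (show 0 ≤ K₁ ^ 3 * (2 * K₁) by positivity) (dist_nonneg (x := z) (y := w))
    linarith
  · obtain ⟨s, s1, s2⟩ := act_det T (f.v x) (e δ)
    refine ⟨s, s1, fun Q b c1 c2 => s2 Q b c1 ?_⟩
    rw [← c2, g2, e.apply_symm_apply (T.gd.ev Q : Pi2)]
  · obtain ⟨p₀, hp₀, rfl⟩ := hfull x γ
    obtain ⟨u, hu, h⟩ := e1 p₀ hp₀
    exact ⟨_, (l2 _).2 ⟨u, hu, (g2 u).symm⟩, K₀, h⟩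
  · obtain ⟨u, hu, rfl⟩ := (l2 δ).1 hδ
    obtain ⟨p₀, -, h⟩ := e2 u hu
    exact ⟨_, K₀, g2 u ▸ h⟩

theorem qc_mono {a b : ℝ} {F : ℍ → ℍ} (hab : a ≤ b) (h : IsQC a F) : IsQC b F := by
  obtain ⟨Φ, h1, h2, h3⟩ := h
  exact ⟨Φ, h1, h2, fun z => ⟨(h3 z).1, (h3 z).2.trans
    (mul_le_mul_of_nonneg_right hab (h3 z).1.le)⟩⟩

/-- `ℍ / G` is `K`-quasiconformally equivalent to a finite unramified cover of `ℍ / GX`. -/
def Near (GX : Subgroup (Equiv.Perm ℍ)) (K : ℝ) (G : Subgroup (Equiv.Perm ℍ)) : Prop :=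
  ∃ Λ : Subgroup (Equiv.Perm ℍ), Λ ≤ GX ∧ Λ.relIndex GX ≠ 0 ∧ ∃ F : ℍ ≃ₜ ℍ, IsQC K F ∧
    (∀ γ ∈ G, ∃ g ∈ Λ, ∀ z, F (γ z) = g (F z)) ∧ (∀ g ∈ Λ, ∃ γ ∈ G, ∀ z, F (γ z) = g (F z))

theorem Near.mono {GX G : Subgroup (Equiv.Perm ℍ)} {a b : ℝ} (h : Near GX a G) (hab : a ≤ b) :
    Near GX b G := by
  obtain ⟨Λ, a1, a2, F, a3, a4⟩ := h
  exact ⟨Λ, a1, a2, F, qc_mono hab a3, a4⟩

theorem geo_qc (GX : Subgroup (Equiv.Perm ℍ)) (εX : ℝ) (hεX : 0 < εX) (hX : Fuchs GX εX)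
    (e : GX ≃* Pi2) (ε K : ℝ) (E : ℕ) : ∃ K' : ℝ, ∀ GY : Subgroup (Equiv.Perm ℍ), Fuchs GY ε →
      ∀ (A : Gd) [Finite A.E] [Finite A.V] (g : Geo A GY K), g.Full → Nonempty A.V →
      ∀ T : Act, Fw E A T.gd → Near GX K' GY := by
  obtain ⟨ι, θ, hι, hθ, hk⟩ := w6_sub
  have hJ : Function.Injective (ι.comp e.toMonoidHom) := hι.comp e.injective
  have hk' : ∀ w, θ w = 1 ↔ ∃ γ, ι.comp e.toMonoidHom γ = w := fun w => (hk w).trans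
    ⟨fun ⟨γ, h⟩ => ⟨e.symm γ, by simpa using h⟩, fun ⟨γ, h⟩ => ⟨e γ, h⟩⟩
  obtain ⟨σ, t, Kt, σσ, qt, et, ft, γ₀, hγ₀⟩ := reflect hεX hX _ θ hJ hθ hk'
  obtain ⟨L, R, C, m, hL, hR, hC, hmap⟩ := coarse_map GX εX hεX hX e K E
  have nt : ¬ ∃ φ, DE.IsBd t φ ∧ DE.PosHom φ := fun h => by
    obtain ⟨A, hA⟩ := hX.mob _ γ₀.2
    obtain ⟨B, hB⟩ := hX.mob _ (σ γ₀).2
    have := pos_invol qt h ⟨Kt, ft⟩ A B ⟨Kt, fun z => by rw [← hA, ← hB]; exact et γ₀ z⟩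
    exact hγ₀ (Subtype.ext (Equiv.ext fun z => by rw [hA, hB, this]))
  have fin : ∀ (L R : ℝ) (m : ℕ), 0 ≤ L → 0 ≤ R → ∃ K' : ℝ, ∀ GY : Subgroup (Equiv.Perm ℍ),
      Fuchs GY ε → ∀ K₀ f g, QIPair K₀ f g → (∀ x y, dist (f x) (f y) ≤ L * dist x y + L) →
      EP R m C f → (∃ φ, DE.IsBd f φ ∧ DE.PosHom φ) → ∀ Λ₀ : Subgroup GX, Λ₀.index ≠ 0 →
      (∀ γ : GY, ∃ δ ∈ Λ₀, ∃ C, ∀ z, dist (f (γ.1 z)) (δ.1 (f z)) ≤ C) →
      (∀ δ ∈ Λ₀, ∃ γ : GY, ∃ C, ∀ z, dist (f (γ.1 z)) (δ.1 (f z)) ≤ C) → Near GX K' GY := by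
    intro L R m hL hR
    obtain ⟨K', h⟩ := qc_one m hL hR hC
    refine ⟨K', fun GY hY K₀ f g q c1 c2 hp Λ₀ hi h1 h2 => ?_⟩
    obtain ⟨F, hF, hE⟩ := h K₀ f g q c1 c2 hp
    have key : ∀ (γ : GY) (δ : GX) C, (∀ z, dist (f (γ.1 z)) (δ.1 (f z)) ≤ C) →
        ∀ z, F (γ.1 z) = δ.1 (F z) := by
      intro γ δ C hC z
      obtain ⟨A, hA⟩ := hY.mob _ γ.2
      obtain ⟨B, hB⟩ := hX.mob _ δ.2
      rw [hA, hB]
      exact hE A B ⟨C, fun z => by rw [← hA, ← hB]; exact hC z⟩ z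
    refine ⟨Λ₀.map GX.subtype, Subgroup.map_subtype_le _, ?_, F, hF, fun γ hγ => ?_, ?_⟩
    · rwa [Subgroup.relIndex, Subgroup.subgroupOf,
        Subgroup.comap_map_eq_self_of_injective GX.subtype_injective]
    · obtain ⟨δ, hδ, C, hC⟩ := h1 ⟨γ, hγ⟩
      exact ⟨δ, ⟨δ, hδ, rfl⟩, key _ _ C hC⟩
    · rintro _ ⟨δ, hδ, rfl⟩
      obtain ⟨γ, C, hC⟩ := h2 δ hδ
      exact ⟨γ, γ.2, key _ _ C hC⟩
  have hKt : 0 ≤ Kt := dist_nonneg.trans (qt.gf I)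
  obtain ⟨N, hN⟩ := ep_comp Kt
  obtain ⟨Ka, ha⟩ := fin L R m hL hR
  obtain ⟨Kb, hb⟩ := fin (Kt * L + Kt) (Kt * R + Kt) (N * m) (by positivity) (by positivity)
  refine ⟨max Ka Kb, fun GY hY A _ _ g hfull hne T hE => ?_⟩
  obtain ⟨K₀, F₀, G₀, Λ₀, q, c1, c2, hi, h1, h2⟩ := hmap GY (isom_of_mob hY.mob) A g hfull hne T hE
  by_cases hp : ∃ φ, DE.IsBd F₀ φ ∧ DE.PosHom φ
  · exact (ha GY hY K₀ F₀ G₀ q c1 c2 hp Λ₀ hi h1 h2).mono (le_max_left _ _)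
  · have tw : ∀ (γ : GY) (δ : GX) C, (∀ z, dist (F₀ (γ.1 z)) (δ.1 (F₀ z)) ≤ C) →
        ∃ C, ∀ z, dist ((t ∘ F₀) (γ.1 z)) ((σ δ).1 ((t ∘ F₀) z)) ≤ C := fun γ δ C hC =>
      ⟨Kt * C + Kt + Kt, fun z => (dist_triangle _ (t (δ.1 (F₀ z))) _).trans (add_le_add
        ((qt.cf _ _).trans (add_le_add (mul_le_mul_of_nonneg_left (hC z) hKt) le_rfl)) (et _ _))⟩
    refine (hb GY hY _ _ _ (q.comp qt) (fun x y => ?_) (hN qt c2) (pos_comp q qt hp nt)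
      (Λ₀.comap σ) (by rwa [Subgroup.index_comap_of_surjective _ fun γ => ⟨σ γ, σσ γ⟩])
      (fun γ => ?_) fun δ hδ => ?_).mono (le_max_right _ _)
    · have a := qt.cf (F₀ x) (F₀ y)
      have b := mul_le_mul_of_nonneg_left (c1 x y) hKt
      have := mul_nonneg hKt (dist_nonneg (x := x) (y := y))
      change dist (t (F₀ x)) (t (F₀ y)) ≤ _
      linarith
    · obtain ⟨δ, hδ, C, hC⟩ := h1 γ
      exact ⟨σ δ, by rwa [Subgroup.mem_comap, σσ], tw γ δ C hC⟩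
    · obtain ⟨γ, C, hC⟩ := h2 (σ δ) hδ
      have := tw γ _ C hC
      rw [σσ] at this
      exact ⟨γ, this⟩

end Pool.Agent.MC.QC
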