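import Pool.Agent.P.MP_2677b3_gt.VbDelA

/-! Voronoi cells of a coarse invariant net have large area. -/

open Equiv Function UpperHalfPlane MeasureTheory Metric
open scoped ENNReal MatrixGroups

namespace Pool.Agent.MC.VB

open LL Ge

variable {G : Subgroup (Perm ℍ)} {ε : ℝ}

theorem vorb_far (hG : Fuchs G ε) {r a : ℝ} (ha : (volume (ball (I : ℍ) r)).toReal + 1 ≤ a)
    (har : area G 1 = ENNReal.ofReal a) (x : ℍ) : ∃ z, ∀ g : G, r ≤ dist z (g.1 x) := by
  by_contra hc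
  push Not at hc
  have h1 : area G 1 ≤ volume (ball (I : ℍ) r) := by
    refine iInf₂_le_of_le (ball x r) ⟨measurableSet_ball, fun z => ?_⟩ ?_
    · obtain ⟨g, hg⟩ := hc z
      refine ⟨_, (g⁻¹).2, ?_⟩
      rw [mem_ball, ← fuchs_dist hG g.2]
      simpa using hg
    · simp [vol_ball x r]
  rw [har, ENNReal.ofReal_le_iff_le_toReal (vol_ball_ne_top _ _)] at h1
  linarith

theorem vorb_inv (hG : Fuchs G ε) (x z : ℍ) (k : G) :
    infDist (k.1 z) (Set.range fun g : G => g.1 x) = infDist z (Set.range fun g : G => g.1 x) := by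
  have e : k.1 '' (Set.range fun g : G => g.1 x) = Set.range fun g : G => g.1 x := by
    ext y
    constructor
    · rintro ⟨_, ⟨g, rfl⟩, rfl⟩
      exact ⟨k * g, rfl⟩
    · rintro ⟨g, rfl⟩
      exact ⟨_, ⟨k⁻¹ * g, rfl⟩, by simp⟩
  conv_lhs => rw [← e]
  exact infDist_image (Isometry.of_dist_eq (fuchs_dist hG k.2))

theorem vorb_pts (hε : 0 < ε) (hG : Fuchs G ε) (n : ℕ) {x z : ℍ}
    (hz : ∀ g : G, n * ε ≤ dist z (g.1 x)) : ∃ q : Fin n → ℍ,
      (∀ i, ∃ g : G, dist (q i) (g.1 x) < n * ε) ∧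
      ∀ a b : Fin n × G, a ≠ b → ε ≤ dist (a.2.1 (q a.1)) (b.2.1 (q b.1)) := by
  have hne : (Set.range fun g : G => g.1 x).Nonempty := Set.range_nonempty _
  have h0 : infDist x (Set.range fun g : G => g.1 x) = 0 := infDist_zero_of_mem ⟨1, rfl⟩
  have h1 : n * ε ≤ infDist z (Set.range fun g : G => g.1 x) := by
    rw [le_infDist hne]
    rintro _ ⟨g, rfl⟩
    exact hz g
  have hlt : ∀ i : Fin n, (i : ℕ) * ε < n * ε := fun i =>
    mul_lt_mul_of_pos_right (by exact_mod_cast i.2) hε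
  have h2 : ∀ i : Fin n, ∃ q, infDist q (Set.range fun g : G => g.1 x) = (i : ℕ) * ε := fun i =>
    intermediate_value_univ x z (continuous_infDist_pt _)
      ⟨by rw [h0]; positivity, (hlt i).le.trans h1⟩
  choose q hq using h2
  have key : ∀ a b : Fin n × G, a.1 < b.1 → ε ≤ dist (b.2.1 (q b.1)) (a.2.1 (q a.1)) := by
    intro a b hab
    have h3 := infDist_le_infDist_add_dist (x := b.2.1 (q b.1)) (y := a.2.1 (q a.1))
      (s := Set.range fun g : G => g.1 x)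
    rw [vorb_inv hG, vorb_inv hG, hq, hq] at h3
    have h4 : ((a.1 : ℕ) : ℝ) + 1 ≤ (b.1 : ℕ) := by exact_mod_cast hab
    nlinarith
  refine ⟨q, fun i => ?_, fun a b hab => ?_⟩
  · obtain ⟨_, ⟨g, rfl⟩, hg⟩ := (infDist_lt_iff hne).1 ((hq i).trans_lt (hlt i))
    exact ⟨g, hg⟩
  · rcases lt_trichotomy a.1 b.1 with h | h | h
    · rw [dist_comm]
      exact key a b h
    · have h3 : (a.2⁻¹ * b.2).1 ≠ 1 := fun e =>
        hab (Prod.ext h (inv_mul_eq_one.1 (Subtype.ext e)))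
      have h4 := hG.thick _ (a.2⁻¹ * b.2).2 h3 (q a.1)
      rw [← fuchs_dist hG a.2.2] at h4
      rw [← h]
      simpa using h4
    · exact key b a h

theorem vorb_near {N : Set ℍ} {η δ : ℝ} (h : Net2 N η δ) (z : ℍ) : ∃ p, p ∈ near N z := by
  obtain ⟨y, hy, hd⟩ := h.dense z
  obtain ⟨p, hp, hm⟩ := Set.exists_min_image _ (fun p => dist z p) (h.finite_ball z (2 * δ))
    ⟨y, hy, hd⟩
  refine ⟨p, hp.1, fun w hw => ?_⟩
  by_cases hw' : dist z w ≤ 2 * δ
  · exact hm w ⟨hw, hw'⟩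
  · exact hp.2.trans (not_le.1 hw').le

theorem vor_big {ε : ℝ} (hε : 0 < ε) (n : ℕ) : ∃ δ a₀ : ℝ, ε ≤ δ ∧
    ∀ G : Subgroup (Perm ℍ), Fuchs G ε → ∀ a : ℝ, a₀ ≤ a → area G 1 = ENNReal.ofReal a →
      ∀ N : Set ℍ, Net2 N ε δ → (∀ g ∈ G, ∀ x ∈ N, g x ∈ N) → Far G N δ → ∀ x ∈ N,
        n * volume (Metric.ball (I : ℍ) (ε / 2)) ≤ volume {z | x ∈ near N z} := by
  have hn : 0 ≤ n * ε := by positivity
  refine ⟨2 * (n * ε) + ε, (volume (ball (I : ℍ) (n * ε))).toReal + 1, by linarith,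
    fun G hG a ha har N h hN hF x hx => ?_⟩
  obtain ⟨z, hz⟩ := vorb_far hG (r := n * ε) ha har x
  obtain ⟨q, q1, q2⟩ := vorb_pts hε hG n hz
  have := fuchs_countable hε hG
  set V := {z | x ∈ near N z}
  have h1 : ∀ i, volume (ball (I : ℍ) (ε / 2)) ≤
      ∑' g : G, volume.restrict V (ball (g.1 (q i)) (ε / 2)) := by
    intro i
    have e : ∀ g : G, volume.restrict V (ball (g.1 (q i)) (ε / 2)) =
        volume (ball (q i) (ε / 2) ∩ g.1 ⁻¹' V) := fun g => by
      obtain ⟨A, hA⟩ := hG.mob g g.2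
      rw [Measure.restrict_apply measurableSet_ball]
      simpa using (lx3_move hA (F := fun _ => 1) (fun _ => rfl) (q i) (ε / 2) V).symm
    simp only [e]
    rw [← vol_ball (q i)]
    refine le_trans (measure_mono fun w hw => ?_) (measure_iUnion_le _)
    obtain ⟨g, hg⟩ := q1 i
    obtain ⟨p, hp⟩ := vorb_near h w
    have h2 : ∃ k ∈ G, k p = g.1 x := by
      by_contra hc
      have h3 := hF p hp.1 _ (hN _ g.2 x hx) fun k hk e => hc ⟨k, hk, e⟩
      have h4 := hp.2 _ (hN _ g.2 x hx)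
      have h5 := dist_triangle_left p (g.1 x) w
      have h6 := dist_triangle w (q i) (g.1 x)
      have h7 : dist w (q i) < ε / 2 := hw
      linarith
    obtain ⟨k, hk, e2⟩ := h2
    refine Set.mem_iUnion.2 ⟨g⁻¹ * ⟨k, hk⟩, hw, ?_⟩
    have h3 := um_near hG hN (g⁻¹ * ⟨k, hk⟩) hp
    have h4 : (g⁻¹ * ⟨k, hk⟩ : G).1 p = x := by simp [e2]
    rw [h4] at h3
    exact h3
  calc (n : ℝ≥0∞) * volume (ball (I : ℍ) (ε / 2))
      = ∑' _i : Fin n, volume (ball (I : ℍ) (ε / 2)) := by simp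
    _ ≤ ∑' i : Fin n, ∑' g : G, volume.restrict V (ball (g.1 (q i)) (ε / 2)) :=
        ENNReal.tsum_le_tsum h1
    _ = ∑' a : Fin n × G, volume.restrict V (ball (a.2.1 (q a.1)) (ε / 2)) :=
        (ENNReal.tsum_prod (f := fun i (g : G) =>
          volume.restrict V (ball (g.1 (q i)) (ε / 2)))).symm
    _ = volume.restrict V (⋃ a : Fin n × G, ball (a.2.1 (q a.1)) (ε / 2)) :=
        (measure_iUnion (fun a b hab => ball_disjoint_ball (by linarith [q2 a b hab]))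
          fun _ => measurableSet_ball).symm
    _ ≤ volume.restrict V Set.univ := measure_mono (Set.subset_univ _)
    _ = volume V := Measure.restrict_apply_univ V

end Pool.Agent.MC.VB
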