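import Pool.Agent.P.MP_2677b3_gt.QcE
import Pool.Agent.P.MP_2677b3_gt.Main
import Pool.Agent.P.MP_2677b3_gt.VbVorB

/-! Surfaces of bounded area; reduction to large area. -/

open Equiv UpperHalfPlane MeasureTheory Metric
open scoped ENNReal

namespace Pool.Agent.MC.QC

open LL Ge

theorem area_ne_top {G : Subgroup (Perm ℍ)} {ε : ℝ} (hG : Fuchs G ε) : area G 1 ≠ ∞ := by
  obtain ⟨R, hR⟩ := hG.cocpt
  refine ne_top_of_le_ne_top (vol_ball_ne_top I (R + 1))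
    (iInf₂_le_of_le (ball I (R + 1)) ⟨measurableSet_ball, fun z => ?_⟩ (by simp))
  obtain ⟨g, h1, h2⟩ := hR z
  exact ⟨g, h1, h2.trans_lt (lt_add_one R)⟩

theorem small {ε : ℝ} (hε : 0 < ε) (a₀ : ℝ) : ∃ L : ℝ, ∀ G : Subgroup (Perm ℍ), Fuchs G ε →
    area G 1 ≤ ENNReal.ofReal a₀ → DimOne G 1 L := by
  obtain ⟨P, hP⟩ := exists_pk hε
  obtain ⟨C, hC⟩ := card_le (P 1)
  obtain ⟨n, hn⟩ := ENNReal.exists_nat_gt (show (C : ℝ≥0∞) * ENNReal.ofReal a₀ ≠ ∞ from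
    ENNReal.mul_ne_top (ENNReal.natCast_ne_top C) ENNReal.ofReal_ne_top)
  refine ⟨n * ε, fun G hG ha => ⟨Unit, fun _ => (), fun _ _ _ => rfl, fun z x _ => ?_,
    fun _ _ _ _ _ _ _ => Or.inl rfl⟩⟩
  by_contra hc
  obtain ⟨q, -, q2⟩ := VB.vorb_pts hε hG n (x := x) (z := z) fun g =>
    le_of_not_ge fun h => hc ⟨g.1, g.2, h⟩
  have h1 := hC G ε hε hG (Fin n) q fun w => by
    have i : Function.Injective fun p : G × Fin n => p.1.1 (q p.2) := fun a b hab => by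
      by_contra hne
      have := q2 a.swap b.swap fun h => hne (Prod.swap_injective h)
      change ε ≤ dist (a.1.1 (q a.2)) (b.1.1 (q b.2)) at this
      rw [show a.1.1 (q a.2) = b.1.1 (q b.2) from hab, dist_self] at this
      linarith
    obtain ⟨f1, f2⟩ := hP w 1 ((fun p : G × Fin n => p.1.1 (q p.2)) ''
      {p : G × Fin n | dist w (p.1.1 (q p.2)) < 1})
      (by rintro _ ⟨p, hp, rfl⟩; exact le_of_lt hp) (by
        rintro _ ⟨a, -, rfl⟩ _ ⟨b, -, rfl⟩ hab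
        exact q2 a.swap b.swap fun h => hab (by rw [Prod.swap_injective h]))
    rw [← i.encard_image, ← f1.cast_ncard_eq]
    exact_mod_cast f2
  rw [Fintype.card_fin] at h1
  exact absurd (h1.trans (mul_le_mul_right ha _)) hn.not_ge

theorem near_small (GX : Subgroup (Perm ℍ)) (εX : ℝ) (hεX : 0 < εX) (hX : Fuchs GX εX)
    (hg : Nonempty (GX ≃* Pi2)) (ε : ℝ) (hε : 0 < ε) (a₀ : ℝ) : ∃ K : ℝ,
      ∀ GY : Subgroup (Perm ℍ), Fuchs GY ε →
        Near GX K GY ∨ ∃ a : ℝ, a₀ ≤ a ∧ area GY 1 = ENNReal.ofReal a := by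
  obtain ⟨L, hL⟩ := small hε a₀
  obtain ⟨K, hK⟩ := Pool.Agent.MC.main GX εX hεX hX hg ε 1 L hε one_pos
  refine ⟨K, fun GY hY => ?_⟩
  have e := (ENNReal.ofReal_toReal (area_ne_top hY)).symm
  rcases le_total a₀ (area GY 1).toReal with h | h
  · exact Or.inr ⟨_, h, e⟩
  · exact Or.inl (hK GY hY (hL GY hY (e.trans_le (ENNReal.ofReal_le_ofReal h))))

end Pool.Agent.MC.QC
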