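import Pool.Agent.P.MP_2677b3_gt.QcF
import Pool.Agent.P.MP_2677b3_gt.HdG

/-! Surfaces with dense handles are quasiconformally close to covers. -/

open Equiv UpperHalfPlane

namespace Pool.Agent.MC.QC

open LL

theorem hd_main (GX : Subgroup (Perm ℍ)) (εX : ℝ) (hεX : 0 < εX) (hX : Fuchs GX εX)
    (hg : Nonempty (GX ≃* Pi2)) (ε : ℝ) (hε : 0 < ε) (R : ℝ) :
    ∃ K : ℝ, ∀ GY : Subgroup (Perm ℍ), Fuchs GY ε → (∀ z, HandleAt GY R z) → Near GX K GY := by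
  obtain ⟨e⟩ := id hg
  obtain ⟨Δ, K, K₁, Cn, hK, hgeo⟩ := geo2 ε hε
  obtain ⟨R', ρ, hd⟩ := hdg_hd Δ K K₁ R hK
  obtain ⟨E, N, -, hcomb⟩ := hdc_comb Δ K R' ρ
  obtain ⟨C, hC⟩ := geo_qc GX εX hεX hX e ε K₁ E
  obtain ⟨C₁, h₁⟩ := area_le K₁
  obtain ⟨C₂, h₂⟩ := near_small GX εX hεX hX hg ε hε (C₁ * N + 1)
  refine ⟨max C C₂, fun GY hY hH => ?_⟩
  obtain h | ⟨a, ha, har⟩ := h₂ GY hY
  · exact h.mono (le_max_right _ _)
  obtain ⟨M, g, hM, hfull, -, hne⟩ := hgeo GY hY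
  have b1 : a ≤ C₁ * Fintype.card M.D := by
    have := h₁ GY ε hY M g hne
    rw [show area GY (fun _ => 1) = ENNReal.ofReal a from har, ← ENNReal.ofReal_natCast,
      ENNReal.ofReal_le_ofReal_iff (Nat.cast_nonneg _)] at this
    exact_mod_cast this
  have b3 : N ≤ Fintype.card M.D := by
    by_contra hlt
    have c1 : (Fintype.card M.D : ℝ) ≤ N := by exact_mod_cast (not_le.1 hlt).le
    have c2 : (C₁ : ℝ) * Fintype.card M.D ≤ C₁ * N := by gcongr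
    linarith
  obtain ⟨A, hA⟩ := hcomb M hM (hd GY ε hY hH M g hM hfull)
    (by rwa [Nat.card_eq_fintype_card])
  have : Finite M.gd.E := inferInstanceAs (Finite M.D)
  have : Finite M.gd.V := inferInstanceAs (Finite (Quotient _))
  obtain ⟨d⟩ := hne
  exact (hC GY hY M.gd g hfull ⟨M.gd.src d⟩ A hA).mono (le_max_left _ _)

end Pool.Agent.MC.QC
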