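import Pool.Agent.P.MP_2677b3_gt.VbUtil

/-! Choice of two tips on every face. -/

open Equiv Function

namespace Pool.Agent.MC.VB

open LL

theorem tips_seq (m : ℕ → ℤ) (hm : ∀ i, 4 ≤ m i ∧ m i ≤ 9) (L W : ℕ) (h : 18 + 18 * L ≤ W) :
    ∃ u, L ≤ u ∧ u + L ≤ W ∧ ∀ a < L, ∀ b, u ≤ b → b < u + L →
      |2 * ∑ i ∈ Finset.range W with a < i ∧ i ≤ b, m i - ∑ i ∈ Finset.range W, m i| ≤
        18 + 18 * L := by
  set cum : ℕ → ℤ := fun n => ∑ i ∈ Finset.range n, m i with hcum
  have hb : ∀ a b : ℕ, a ≤ b → 4 * ((b : ℤ) - a) ≤ cum b - cum a ∧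
      cum b - cum a ≤ 9 * ((b : ℤ) - a) := by
    intro a b hab
    induction b, hab using Nat.le_induction with
    | base => simp
    | succ b _ ih =>
      have := hm b
      have e : cum (b + 1) = cum b + m b := Finset.sum_range_succ m b
      push_cast
      omega
  have h0 : cum 0 = 0 := rfl
  have hex : ∃ i, cum W ≤ 2 * cum i := ⟨W, by have := hb 0 W (Nat.zero_le _); omega⟩
  have h1 := Nat.find_spec hex
  have h1' := Nat.find_min' hex (m := W) (by have := hb 0 W (Nat.zero_le _); omega)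
  set u := Nat.find hex with hu
  have h2 := hb 0 W (Nat.zero_le _)
  have h3 := hb 0 u (Nat.zero_le _)
  have h4 : L + 1 ≤ u := by omega
  have h5 := Nat.find_min hex (m := u - 1) (by omega)
  have h6 := hb 0 (u - 1) (Nat.zero_le _)
  have h7 := hb (u - 1) W (by omega)
  have h8 := hb (u - 1) u (by omega)
  have h9 : u + L ≤ W := by omega
  refine ⟨u, by omega, h9, fun a ha b hb1 hb2 => ?_⟩
  have e : (Finset.range W).filter (fun i => a < i ∧ i ≤ b) = Finset.Ico (a + 1) (b + 1) := by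
    ext i
    simp only [Finset.mem_filter, Finset.mem_range, Finset.mem_Ico]
    omega
  rw [e, Finset.sum_Ico_eq_sub _ (by omega)]
  have k1 := hb 0 (a + 1) (Nat.zero_le _)
  have k2 := hb u (b + 1) (by omega)
  change |2 * (cum (b + 1) - cum (a + 1)) - cum W| ≤ _
  rw [abs_le]
  omega

variable {M : CMap} {R : M.D → Prop} {s w : ℕ}

theorem tips_iter (h : Mix M s w R) {x : M.D} (hx : R x) (i : ℕ) :
    R (M.ψ^[i] x) ∧ M.ψ^[i % 16] x = M.ψ^[i] x := by
  refine ⟨?_, ?_⟩
  · induction i with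
    | zero => exact hx
    | succ i ih =>
      rw [iterate_succ_apply']
      exact (h.inv _).2 ih
  · rw [← h.sixteen x hx, iterate_mod_minimalPeriod_eq]

theorem tips_deg (h : Mix M s w R) (co : Coord M.φ) {γ : ℕ} (hγ : 0 < γ) (x : M.D) :
    {y | R x ∧ R y ∧ ∃ i j, co.base (M.ψ^[i] x) = co.base (M.ψ^[j] y) ∧
      co.pos (M.ψ^[i] x) / γ = co.pos (M.ψ^[j] y) / γ}.ncard ≤ 256 * γ := by
  classical
  let F : ℕ × ℕ × ℕ → M.D := fun p => M.ψ^[p.2.2]
    (M.φ^[γ * (co.pos (M.ψ^[p.1] x) / γ) + p.2.1] (co.base (M.ψ^[p.1] x)))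
  refine le_trans (Set.ncard_le_ncard (t := ((Finset.range 16 ×ˢ Finset.range γ ×ˢ
    Finset.range 16).image F : Finset M.D)) ?_ (Set.toFinite _)) ?_
  · rintro y ⟨hx, hy, i, j, h1, h2⟩
    refine Finset.mem_coe.2 (Finset.mem_image.2
      ⟨(i % 16, co.pos (M.ψ^[j] y) % γ, 15 * j % 16), ?_, ?_⟩)
    · simp only [Finset.mem_product, Finset.mem_range]
      exact ⟨Nat.mod_lt _ (by norm_num), Nat.mod_lt _ hγ, Nat.mod_lt _ (by norm_num)⟩
    · simp only [F]
      rw [(tips_iter h hx i).2, h1, h2, Nat.div_add_mod, co.iter,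
        (tips_iter h (tips_iter h hy j).1 _).2, ← iterate_add_apply, ← (tips_iter h hy _).2,
        show (15 * j + j) % 16 = 0 by omega]
      rfl
  · rw [Set.ncard_coe_finset]
    refine Finset.card_image_le.trans (le_of_eq ?_)
    simp only [Finset.card_product, Finset.card_range]
    ring

open Classical in
theorem tips_class (h : Mix M s w R) (co : Coord M.φ) (f : M.D) (hf : co.base f = f) (a n : ℕ)
    (ha : a + s * n ≤ minimalPeriod M.φ f) :
    n ≤ (Finset.univ.filter fun e => co.base e = f ∧ R e ∧ a ≤ co.pos e ∧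
      co.pos e < a + s * n).card := by
  conv_lhs => rw [← Finset.card_range n]
  refine Finset.card_le_card_of_surjOn (fun e => (co.pos e - a) / s) fun k hk => ?_
  have hk' : k < n := Finset.mem_range.1 hk
  obtain ⟨j, hj, hR⟩ := h.dense (M.φ^[a + s * k] f)
  rw [← iterate_add_apply] at hR
  have h1 : s * (k + 1) ≤ s * n := Nat.mul_le_mul_left _ hk'
  rw [mul_add, mul_one] at h1
  obtain ⟨-, e1, -, -, e2⟩ := co.pos_iter f (j + (a + s * k))
  rw [hf] at e1 e2
  rw [Nat.mod_eq_of_lt (by omega)] at e2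
  refine ⟨M.φ^[j + (a + s * k)] f, ?_, ?_⟩
  · simp only [Finset.coe_filter, Finset.mem_univ, true_and, Set.mem_ofPred_eq, e1, e2, hR]
    omega
  · simp only [e2]
    rw [show j + (a + s * k) - a = j + s * k by omega, Nat.add_mul_div_left _ _ (by omega),
      Nat.div_eq_of_lt hj, zero_add]

open Classical in
theorem tips (s γ : ℕ) (hγ : 0 < γ) : ∃ c : ℕ, ∀ (M : CMap) (R : M.D → Prop) (w : ℕ), c ≤ w →
    Mix M s w R → ∀ co : Coord M.φ, ∃ tA tB : M.D → M.D,
      (∀ d, tA d = tA (co.base d) ∧ tB d = tB (co.base d) ∧ co.base (tA d) = co.base d ∧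
        co.base (tB d) = co.base d ∧ R (tA d) ∧ R (tB d) ∧ co.pos (tA d) < co.pos (tB d) ∧
        |2 * ∑ e with co.base e = co.base d ∧ co.pos (tA d) < co.pos e ∧
            co.pos e ≤ co.pos (tB d), (if R e then 9 else 4 : ℤ) -
          ∑ e with co.base e = co.base d, (if R e then 9 else 4 : ℤ)| ≤ c) ∧
      ∀ x ∈ Set.range tA ∪ Set.range tB, ∀ y ∈ Set.range tA ∪ Set.range tB, ∀ i j,
        co.base (M.ψ^[i] x) = co.base (M.ψ^[j] y) →
        co.pos (M.ψ^[i] x) / γ = co.pos (M.ψ^[j] y) / γ → x = y := by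
  refine ⟨18 + 18 * (s * (4 * (256 * γ))), fun M R w hw h co => ?_⟩
  set L := s * (4 * (256 * γ)) with hL
  choose u hu1 hu2 hu3 using fun f : M.D => tips_seq
    (fun i => if R (M.φ^[i] f) then 9 else 4) (fun i => by split_ifs <;> norm_num) L
    (minimalPeriod M.φ f) (hw.trans (h.big f))
  have hbb : ∀ d, co.base (co.base d) = co.base d := fun d => by
    have := (co.pos_iter (co.base d) (co.pos d)).2.1
    rw [co.iter] at this
    exact this.symm
  let a : {f // co.base f = f} × Bool → ℕ := fun p => if p.2 then u p.1.1 else 0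
  obtain ⟨F, hF, hF'⟩ := indep_trans (ι := {f // co.base f = f} × Bool)
    (fun p => Finset.univ.filter fun e => co.base e = p.1.1 ∧ R e ∧ a p ≤ co.pos e ∧
      co.pos e < a p + L)
    (fun x y => R x ∧ R y ∧ ∃ i j, co.base (M.ψ^[i] x) = co.base (M.ψ^[j] y) ∧
      co.pos (M.ψ^[i] x) / γ = co.pos (M.ψ^[j] y) / γ)
    (fun x y ⟨h1, h2, i, j, h3, h4⟩ => ⟨h2, h1, j, i, h3.symm, h4.symm⟩) (256 * γ) (by omega)
    (tips_deg h co hγ) (fun p => tips_class h co _ p.1.2 _ _ (by
      have := hu2 p.1.1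
      simp only [a]
      split_ifs <;> omega)) (by
      rintro ⟨f, b⟩ ⟨f', b'⟩ hne
      rw [Finset.disjoint_left]
      intro e h1 h2
      simp only [Finset.mem_filter, Finset.mem_univ, true_and, a] at h1 h2
      obtain rfl : f = f' := Subtype.ext (h1.1.symm.trans h2.1)
      have := hu1 f.1
      cases b <;> cases b' <;> simp at hne h1 h2 <;> omega)
  simp only [Finset.mem_filter, Finset.mem_univ, true_and] at hF
  refine ⟨fun d => F (⟨co.base d, hbb d⟩, false), fun d => F (⟨co.base d, hbb d⟩, true),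
    fun d => ?_, fun x hx y hy i j h1 h2 => ?_⟩
  · obtain ⟨a1, a2, -, a4⟩ := hF (⟨co.base d, hbb d⟩, false)
    obtain ⟨b1, b2, b3, b4⟩ := hF (⟨co.base d, hbb d⟩, true)
    simp only [a, if_true, Bool.false_eq_true, if_false, zero_add] at a4 b3 b4
    have k1 := hu1 (co.base d)
    refine ⟨by simp only [hbb], by simp only [hbb], a1, b1, a2, b2,
      lt_of_lt_of_le a4 (k1.trans b3), ?_⟩
    have k2 := hu3 (co.base d) _ a4 _ b3 b4
    rw [(co.pos_iter d 0).2.2.2.1] at k2
    rw [← Finset.filter_filter, Finset.sum_filter (s := Finset.filter _ _), co.sum_eq, co.sum_eq]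
    rw [Finset.sum_filter] at k2
    rw [Finset.sum_congr rfl fun i hi => by
      rw [(co.pos_iter d i).2.2.2.2, Nat.mod_eq_of_lt (Finset.mem_range.1 hi)]]
    exact_mod_cast k2
  · have key : ∀ z ∈ Set.range (fun d => F (⟨co.base d, hbb d⟩, false)) ∪
        Set.range (fun d => F (⟨co.base d, hbb d⟩, true)), ∃ p, F p = z := by
      rintro z (⟨d, rfl⟩ | ⟨d, rfl⟩) <;> exact ⟨_, rfl⟩
    obtain ⟨p, rfl⟩ := key x hx
    obtain ⟨q, rfl⟩ := key y hy
    by_contra hne
    exact hF' p q (fun e => hne (congrArg F e)) ⟨(hF p).2.1, (hF q).2.1, i, j, h1, h2⟩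

end Pool.Agent.MC.VB
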