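import Pool.Agent.P.MP_2677b3_gt.VbAsgA
import Pool.Agent.P.MP_2677b3_gt.VbTips

/-! Balanced assignments exist on maps with large faces. -/

open Equiv Function

namespace Pool.Agent.MC.VB

open LL

open Classical in
theorem asg_shift {D : Type} [Fintype D] {σ : Perm D} (c : Coord σ) (b : D) {β : Type}
    [AddCommMonoid β] (F : D → β) (k : ℕ) :
    ∑ e with c.base e = b, F (σ^[k] e) = ∑ e with c.base e = b, F e := by
  refine Finset.sum_equiv (σ ^ k) (fun e => ?_) fun e _ => by rw [Perm.coe_pow]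
  simp only [Finset.mem_filter, Finset.mem_univ, true_and, Perm.coe_pow, asg_inv c.base_σ]

open Classical in
theorem asg_cyc {D : Type} [Fintype D] {σ : Perm D} (c : Coord σ) (d : D) {β : Type}
    [AddCommMonoid β] (F : D → β) :
    ∑ e with c.base e = c.base d, F e =
      ∑ i ∈ Finset.range (minimalPeriod σ d), F (σ^[i + 1] d) := by
  rw [← asg_shift c _ F (c.pos d + 1), c.sum_eq d fun e => F (σ^[c.pos d + 1] e)]
  refine Finset.sum_congr rfl fun i _ => ?_
  rw [← iterate_add_apply, show c.pos d + 1 + i = i + 1 + c.pos d by omega, iterate_add_apply,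
    c.iter]

open Classical in
theorem asg_mk {M : CMap} (cv : Coord M.ψ) (co : Coord M.φ) (ty : M.D → Fin 12) (rot : M.D → ℕ)
    (h1 : ∀ e, ty (M.ψ e) = ty e) (h2 : ∀ e, rot (M.ψ e) = rot e)
    (h3 : ∀ e, minimalPeriod M.ψ e = nT (ty e)) (tA tB : M.D → M.D)
    (hb : ∀ d, co.base (tA d) = co.base d ∧ co.base (tB d) = co.base d ∧
      co.pos (tA d) < co.pos (tB d))
    (h4 : ∀ d e, co.base e = co.base d →
      (lenT (ty e) ((cv.pos e + rot e) % nT (ty e)) = 1 ↔ e = tA d ∨ e = tB d))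
    (h5 : ∀ d, ∑ e with co.base e = co.base d,
      (if co.pos (tA d) < co.pos e ∧ co.pos e ≤ co.pos (tB d) then 1 else -1 : ℤ) *
        lenT (ty e) ((cv.pos e + rot e) % nT (ty e)) = 0) : Nonempty (Asg M) := by
  have hn : ∀ t : Fin 12, 0 < nT t := by decide
  refine ⟨⟨ty, fun e => (cv.pos e + rot e) % nT (ty e), h1, h3, fun e => Nat.mod_lt _ (hn _),
    fun e => ?_, fun d => ?_⟩⟩
  · rw [h1, h2, cv.pos_σ, h3, Nat.mod_add_mod, Nat.mod_add_mod, add_right_comm]
  obtain ⟨b1, b2, b3⟩ := hb d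
  have hW := co.pos_lt (tB d)
  rw [asg_per co (b2.trans b1.symm)] at hW
  obtain ⟨p, hp⟩ : ∃ p, co.pos (tB d) = co.pos (tA d) + p := ⟨_, (Nat.add_sub_of_le b3.le).symm⟩
  obtain ⟨q, hq⟩ : ∃ q, minimalPeriod M.φ (tA d) = p + q :=
    ⟨_, (Nat.add_sub_of_le (by omega)).symm⟩
  have hpos : ∀ i ≤ p + q, co.pos (M.φ^[i] (tA d)) = if i + co.pos (tA d) < p + q then
      i + co.pos (tA d) else i + co.pos (tA d) - (p + q) := fun i hi => by
    rw [asg_pos, hq]
    split_ifs with h
    · exact Nat.mod_eq_of_lt h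
    · rw [Nat.mod_eq_sub_mod (by omega), Nat.mod_eq_of_lt (by omega)]
  have hbase : ∀ i, co.base (M.φ^[i] (tA d)) = co.base d := fun i => by
    rw [asg_inv co.base_σ, b1]
  refine ⟨tA d, p, q, (co.base_eq _ _).1 b1.symm, by omega, by omega, hq.symm, fun i hi => ?_, ?_⟩
  · rw [h4 d _ (hbase i)]
    have h := hpos i hi.le
    refine or_congr ⟨fun e => ?_, fun e => ?_⟩ ⟨fun e => ?_, fun e => ?_⟩
    · rw [e] at h
      split_ifs at h <;> omega
    · rw [e, iterate_zero_apply]
    · rw [e] at h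
      split_ifs at h <;> omega
    · refine asg_ext co ((hbase i).trans b2.symm) ?_
      split_ifs at h <;> omega
  · have h := h5 d
    rw [← b1, asg_cyc, hq, Finset.sum_range_add] at h
    rw [Finset.sum_congr rfl fun i hi => by rw [if_pos (by
        have := hpos (i + 1) (by have := Finset.mem_range.1 hi; omega)
        have := Finset.mem_range.1 hi
        split_ifs at * <;> omega), one_mul],
      Finset.sum_congr (s₁ := Finset.range q) rfl fun i hi => by rw [if_neg (by
        have := hpos (p + i + 1) (by have := Finset.mem_range.1 hi; omega)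
        have := Finset.mem_range.1 hi
        split_ifs at * <;> omega), neg_one_mul], Finset.sum_neg_distrib, add_neg_eq_zero] at h
    exact_mod_cast h

open Classical in
theorem asg_rich {M : CMap} {s w : ℕ} {R : M.D → Prop} (h : Mix M s w R) (co : Coord M.φ)
    (d : M.D) : minimalPeriod M.φ d ≤
      s * (Finset.univ.filter fun e => co.base e = co.base d ∧ R e).card := by
  have e : ∀ k, ∑ e with co.base e = co.base d, (if R (M.φ^[k] e) then 1 else 0) =
      (Finset.univ.filter fun e => co.base e = co.base d ∧ R e).card := fun k => by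
    rw [asg_shift co _ (fun e => if R e then 1 else 0) k, ← Finset.filter_filter,
      Finset.card_filter]
  calc minimalPeriod M.φ d = ∑ e with co.base e = co.base d, 1 := by
        rw [← Finset.card_eq_sum_ones, asg_fib]
    _ ≤ ∑ e with co.base e = co.base d, ∑ k ∈ Finset.range s,
          (if R (M.φ^[k] e) then 1 else 0) := by
        refine Finset.sum_le_sum fun e _ => ?_
        obtain ⟨k, hk, hR⟩ := h.dense e
        refine le_trans ?_ (Finset.single_le_sum (f := fun k => if R (M.φ^[k] e) then 1 else 0)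
          (fun _ _ => Nat.zero_le _) (Finset.mem_range.2 hk))
        simp [hR]
    _ = _ := by
        rw [Finset.sum_comm, Finset.sum_congr rfl fun k _ => e k]
        simp

open Classical in
theorem asg_few {M : CMap} (cv : Coord M.ψ) (co : Coord M.φ) (tv : M.D → Prop) (γ : ℕ)
    (h1 : ∀ e, tv e → minimalPeriod M.ψ e = 16)
    (h2 : ∀ e e', tv e → tv e' → co.base e = co.base e' → co.pos e / γ = co.pos e' / γ →
      cv.base e = cv.base e') (d : M.D) :
    (Finset.univ.filter fun e => co.base e = co.base d ∧ tv e).card ≤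
      16 * (minimalPeriod M.φ d / γ + 1) := by
  have h := Finset.card_le_mul_card_image_of_maps_to (f := fun e => co.pos e / γ)
    (s := Finset.univ.filter fun e => co.base e = co.base d ∧ tv e)
    (t := Finset.range (minimalPeriod M.φ d / γ + 1)) (fun e he => by
      rw [Finset.mem_filter] at he
      rw [Finset.mem_range, Nat.lt_succ_iff, ← asg_per co he.2.1]
      exact Nat.div_le_div_right (co.pos_lt e).le) 16 fun g _ => by
      rcases ((Finset.univ.filter fun e => co.base e = co.base d ∧ tv e).filter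
        fun e => co.pos e / γ = g).eq_empty_or_nonempty with h | ⟨e, he⟩
      · simp only [h, Finset.card_empty, Nat.zero_le]
      · simp only [Finset.mem_filter, Finset.mem_univ, true_and] at he
        rw [← h1 e he.1.2, ← asg_fib cv e]
        refine Finset.card_le_card fun x hx => ?_
        simp only [Finset.mem_filter, Finset.mem_univ, true_and] at hx ⊢
        exact h2 _ _ hx.1.2 he.1.2 (hx.1.1.trans he.1.1.symm) (hx.2.trans he.2.symm)
  rwa [Finset.card_range] at h

theorem asg_arith {s ω c W nR nV n : ℕ} (hω : 0 < ω) (h1 : 200 * (s + 1) * ω * (c + 1) ≤ W)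
    (h2 : W ≤ s * nR) (h3 : nV ≤ 16 * (W / (200 * (s + 1) * ω) + 1)) (h4 : nR ≤ n + nV) :
    16 * ω ≤ n ∧ c + 9 * nV ≤ 2 * (n / ω) := by
  have hγ : 0 < 200 * (s + 1) * ω := by positivity
  have a1 : c + 1 ≤ W / (200 * (s + 1) * ω) := (Nat.le_div_iff_mul_le hγ).2 (by
    rw [mul_comm]
    exact h1)
  have a2 := Nat.mul_div_le W (200 * (s + 1) * ω)
  obtain ⟨u, hu⟩ : ∃ u, W / (200 * (s + 1) * ω) = u + 1 :=
    ⟨_, (Nat.sub_add_cancel (by omega)).symm⟩
  rw [hu] at a1 a2 h3
  have a0 : (s + 1) * (200 * ω * (u + 1)) ≤ (s + 1) * nR := by nlinarith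
  have a3 := Nat.le_of_mul_le_mul_left a0 (by omega)
  have a4 : (184 * u + 168) * ω ≤ n := by nlinarith
  have a5 := (Nat.le_div_iff_mul_le hω).2 a4
  exact ⟨by nlinarith, by omega⟩

theorem asg_len1 : ∀ i < 16, (lenT 1 i = 1 ↔ i = 0) ∧
    (lenT 1 i : ℤ) = 2 * (lenT 1 i / 2 : ℕ) + (if i = 0 then 1 else 0) ∧ lenT 1 i / 2 ≤ 5 := by
  decide +kernel

theorem asg_len2 (s : Fin 10 × Fin 16) (i : ℕ) : nT (s.1.addNat 2) = 16 ∧
    (lenT (s.1.addNat 2) ((i + s.2.val) % 16) : ℤ) = 2 * asgK s i := by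
  have h0 : (s.1.addNat 2 : Fin 12) ≠ 0 := fun h => by simpa using congrArg Fin.val h
  have h1 : (s.1.addNat 2 : Fin 12) ≠ 1 := fun h => by simpa using congrArg Fin.val h
  simp [nT, lenT, asgK, h0, h1]

open Classical in
theorem asg_est {D : Type} (F : Finset D) (R tv P : D → Prop) (hf : D → ℕ) (c k : ℕ)
    (h1 : ∀ e, tv e → R e) (h2 : ∀ e, R e → hf e ≤ 5) (h3 : ∀ e, ¬ R e → hf e = 2)
    (h : |2 * ∑ e ∈ F with P e, (if R e then 9 else 4 : ℤ) - ∑ e ∈ F, (if R e then 9 else 4 : ℤ)| ≤
      c) (hk : c + 9 * (F.filter tv).card ≤ 2 * k) :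
    |((-∑ e ∈ F with ¬ (R e ∧ ¬ tv e), (if P e then 1 else -1 : ℤ) * hf e : ℤ) : ℝ) -
      9 / 2 * ∑ e ∈ F with R e ∧ ¬ tv e, ((if P e then 1 else -1 : ℤ) : ℝ)| ≤ k := by
  have e1 : 2 * (-∑ e ∈ F with ¬ (R e ∧ ¬ tv e), (if P e then 1 else -1 : ℤ) * hf e) -
      9 * ∑ e ∈ F with R e ∧ ¬ tv e, (if P e then 1 else -1 : ℤ) +
      (2 * ∑ e ∈ F with P e, (if R e then 9 else 4 : ℤ) - ∑ e ∈ F, (if R e then 9 else 4 : ℤ)) =
      ∑ e ∈ F, if tv e then (if P e then 1 else -1 : ℤ) * (9 - 2 * hf e) else 0 := by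
    simp only [Finset.sum_filter, Finset.mul_sum, ← Finset.sum_neg_distrib,
      ← Finset.sum_sub_distrib, ← Finset.sum_add_distrib]
    refine Finset.sum_congr rfl fun e _ => ?_
    have a1 := h1 e
    have a3 := h3 e
    by_cases b1 : R e <;> by_cases b2 : tv e <;> by_cases b3 : P e <;> simp_all <;> ring
  have e2 : |∑ e ∈ F, if tv e then (if P e then 1 else -1 : ℤ) * (9 - 2 * hf e) else 0| ≤
      9 * (F.filter tv).card := by
    refine (Finset.abs_sum_le_sum_abs _ _).trans ?_
    rw [Finset.card_filter, Nat.cast_sum, Finset.mul_sum]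
    refine Finset.sum_le_sum fun e _ => ?_
    by_cases b2 : tv e
    · have := h2 e (h1 e b2)
      rw [if_pos b2, if_pos b2, abs_le]
      split_ifs <;> constructor <;> omega
    · simp [b2]
  rw [← e1] at e2
  rw [← Int.cast_sum]
  generalize (-∑ e ∈ F with ¬ (R e ∧ ¬ tv e), (if P e then 1 else -1 : ℤ) * hf e) = T at *
  generalize (∑ e ∈ F with R e ∧ ¬ tv e, (if P e then 1 else -1 : ℤ)) = S at *
  rw [abs_le] at h e2 ⊢
  have a1 : 2 * T - 9 * S ≤ 2 * k := by omega
  have a2 : -(2 * k) ≤ 2 * T - 9 * S := by omega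
  have b1 : (2 * T - 9 * S : ℝ) ≤ 2 * k := by exact_mod_cast a1
  have b2 : -(2 * k : ℝ) ≤ 2 * T - 9 * S := by exact_mod_cast a2
  constructor <;> linarith

open Classical in
theorem assign (s : ℕ) : ∃ w : ℕ, ∀ (M : CMap) (R : M.D → Prop), Mix M s w R →
    Nonempty (Asg M) := by
  obtain ⟨ω, hω, hL⟩ := asg_L
  obtain ⟨c, hc⟩ := tips s (200 * (s + 1) * ω) (by positivity)
  refine ⟨200 * (s + 1) * ω * (c + 1), fun M R hM => ?_⟩
  obtain ⟨co⟩ := exists_coord M.φ
  obtain ⟨cv⟩ := exists_coord M.ψ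
  obtain ⟨tA, tB, ht, hu⟩ := hc M R _
    ((Nat.le_succ c).trans (Nat.le_mul_of_pos_left _ (by positivity))) hM co
  obtain ⟨TT, hTT⟩ : ∃ TT, TT = Set.range tA ∪ Set.range tB := ⟨_, rfl⟩
  have hAB : ∀ d e, co.base e = co.base d → tA e = tA d ∧ tB e = tB d := fun d e h => by
    rw [(ht e).1, (ht e).2.1, h, ← (ht d).1, ← (ht d).2.1]
    exact ⟨rfl, rfl⟩
  have hface : ∀ d e, co.base e = co.base d → (e ∈ TT ↔ e = tA d ∨ e = tB d) := fun d e h => by
    rw [hTT]
    constructor
    · rintro (⟨x, rfl⟩ | ⟨x, rfl⟩)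
      · exact Or.inl (hAB d x ((ht x).2.2.1.symm.trans h)).1
      · exact Or.inr (hAB d x ((ht x).2.2.2.1.symm.trans h)).2
    · rintro (rfl | rfl)
      · exact Or.inl ⟨d, rfl⟩
      · exact Or.inr ⟨d, rfl⟩
  have hR : ∀ x ∈ TT, R x := by
    rw [hTT]
    rintro x (⟨d, rfl⟩ | ⟨d, rfl⟩)
    · exact (ht d).2.2.2.2.1
    · exact (ht d).2.2.2.2.2.1
  rw [← hTT] at hu
  have hRψ : ∀ e, R (M.ψ e) = R e := fun e => propext (hM.inv e)
  have hit : ∀ x e, cv.base x = cv.base e → ∃ i, M.ψ^[i] x = e := fun x e h => by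
    obtain ⟨i, hi⟩ := ((cv.base_eq _ _).1 h).exists_nat_pow_eq
    exact ⟨i, by rw [← Perm.coe_pow, hi]⟩
  obtain ⟨tv, htv⟩ : ∃ tv : M.D → Prop, ∀ e, tv e ↔ ∃ x ∈ TT, cv.base x = cv.base e :=
    ⟨_, fun _ => Iff.rfl⟩
  have tvψ : ∀ e, tv (M.ψ e) = tv e := fun e => by simp only [htv, cv.base_σ]
  have tvR : ∀ e, tv e → R e := fun e h => by
    obtain ⟨x, hx, h⟩ := (htv e).1 h
    rw [← asg_base cv hRψ, ← h, asg_base cv hRψ]
    exact hR x hx
  have tvT : ∀ e ∈ TT, tv e := fun e h => (htv e).2 ⟨e, h, rfl⟩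
  have hgrp : ∀ e e', tv e → tv e' → co.base e = co.base e' →
      co.pos e / (200 * (s + 1) * ω) = co.pos e' / (200 * (s + 1) * ω) →
      cv.base e = cv.base e' := fun e e' h h' a b => by
    obtain ⟨x, hx, h⟩ := (htv e).1 h
    obtain ⟨y, hy, h'⟩ := (htv e').1 h'
    obtain ⟨i, rfl⟩ := hit x e h
    obtain ⟨j, rfl⟩ := hit y e' h'
    rw [← h, ← h', hu x hx y hy i j a b]
  have htp : ∀ b, ∃ x, (∃ x ∈ TT, cv.base x = b) → x ∈ TT ∧ cv.base x = b := fun b => by
    by_cases h : ∃ x ∈ TT, cv.base x = b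
    · exact h.imp fun x hx _ => hx
    · exact ⟨b, fun h' => (h h').elim⟩
  choose tp htp using htp
  obtain ⟨off, hoff⟩ : ∃ off : M.D → ℕ,
      ∀ e, off e = (cv.pos e + (16 - cv.pos (tp (cv.base e)))) % 16 := ⟨_, fun _ => rfl⟩
  have off0 : ∀ e, tv e → (off e = 0 ↔ e ∈ TT) := fun e h => by
    obtain ⟨a1, a2⟩ := htp _ ((htv e).1 h)
    have a3 := cv.pos_lt e
    have a4 := cv.pos_lt (tp (cv.base e))
    rw [hM.sixteen _ (tvR e h)] at a3
    rw [hM.sixteen _ (hR _ a1)] at a4
    rw [hoff]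
    refine ⟨fun a => ?_, fun a => ?_⟩
    · rw [← asg_ext cv a2 (by omega)]
      exact a1
    · obtain ⟨i, hi⟩ := hit _ _ a2
      rw [hu _ a1 e a i 0 (by rw [hi]; rfl) (by rw [hi]; rfl)]
      omega
  have off16 : ∀ e, off e < 16 := fun e => by
    rw [hoff]
    omega
  let P : M.D → Prop := fun e => co.pos (tA e) < co.pos e ∧ co.pos e ≤ co.pos (tB e)
  let hf : M.D → ℕ := fun e => if R e then lenT 1 (off e) / 2 else 2
  obtain ⟨st, st1, st2⟩ := asg_states hω hL cv (fun e => R e ∧ ¬ tv e)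
    (fun e => by rw [hRψ, tvψ]) (fun e h => hM.sixteen e h.1) co.base
    (fun e => if P e then 1 else -1)
    (fun b => -∑ e ∈ Finset.univ.filter (fun e => co.base e = b) with ¬ (R e ∧ ¬ tv e),
      (if P e then 1 else -1 : ℤ) * hf e) (fun e => by split_ifs <;> simp) fun d => by
    have e1 : (Finset.univ.filter fun e => (R e ∧ ¬ tv e) ∧ co.base e = co.base d) =
        (Finset.univ.filter fun e => co.base e = co.base d).filter fun e => R e ∧ ¬ tv e := by
      ext e
      simp only [Finset.mem_filter, Finset.mem_univ, true_and, and_comm]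
    have e2 := asg_arith (n := ((Finset.univ.filter fun e => co.base e = co.base d).filter
      fun e => R e ∧ ¬ tv e).card) hω (hM.big d) (asg_rich hM co d)
      (asg_few cv co tv _ (fun e h => hM.sixteen e (tvR e h)) hgrp d) (by
        refine le_trans (Finset.card_le_card fun e he => ?_) (Finset.card_union_le _ _)
        simp only [Finset.mem_filter, Finset.mem_univ, true_and, Finset.mem_union] at he ⊢
        tauto)
    have e3 := asg_est (Finset.univ.filter fun e => co.base e = co.base d) R tv P hf c _ tvR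
      (fun e h => by simp only [hf, if_pos h]; exact (asg_len1 _ (off16 e)).2.2)
      (fun e h => if_neg h) (by
        refine le_of_eq_of_le ?_ (ht d).2.2.2.2.2.2.2
        congr 4
        ext e
        simp only [Finset.mem_filter, Finset.mem_univ, true_and, P]
        exact and_congr_right fun h => by rw [(hAB d e h).1, (hAB d e h).2])
      (by rw [Finset.filter_filter]; exact e2.2)
    rw [← e1] at e2 e3
    convert And.intro e2.1 e3
  let ty : M.D → Fin 12 := fun e => if R e then if tv e then 1 else (st e).1.addNat 2 else 0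
  let rot : M.D → ℕ := fun e => if tv e then 16 - cv.pos (tp (cv.base e)) else (st e).2.val
  have hlen : ∀ e, (lenT (ty e) ((cv.pos e + rot e) % nT (ty e)) : ℤ) =
      (if R e ∧ ¬ tv e then 2 * asgK (st e) (cv.pos e) else 2 * hf e) +
        if e ∈ TT then 1 else 0 := fun e => by
    by_cases b2 : tv e
    · have b1 := tvR e b2
      simp only [ty, rot, hf, b1, b2, if_true, not_true, and_false, if_false, ← off0 e b2]
      rw [show nT 1 = 16 from rfl, ← hoff]
      exact (asg_len1 _ (off16 e)).2.1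
    · have b3 : e ∉ TT := fun h => b2 (tvT e h)
      by_cases b1 : R e
      · simp only [ty, rot, b1, b2, b3, if_true, if_false, not_false_iff, and_true, add_zero]
        rw [(asg_len2 _ 0).1, (asg_len2 _ _).2]
      · simp [ty, hf, b1, b3, lenT]
  refine asg_mk cv co ty rot (fun e => by simp only [ty, hRψ, tvψ, st1])
    (fun e => by simp only [rot, tvψ, st1, cv.base_σ]) (fun e => ?_) tA tB
    (fun d => ⟨(ht d).2.2.1, (ht d).2.2.2.1, (ht d).2.2.2.2.2.2.1⟩) (fun d e h => ?_) fun d => ?_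
  · by_cases b1 : R e
    · rw [hM.sixteen e b1]
      by_cases b2 : tv e
      · simp only [ty, b1, b2, if_true]
        rfl
      · simp only [ty, b1, b2, if_true, if_false, (asg_len2 _ 0).1]
    · simp only [ty, b1, if_false, hM.three e b1]
      rfl
  · rw [← hface d e h]
    have a := hlen e
    by_cases b : e ∈ TT
    · have b2 := tvT e b
      simp only [b, b2, hf, hR e b, (off0 e b2).2 b, if_true, not_true, and_false, if_false] at a
      rw [show lenT 1 0 = 1 from rfl] at a
      exact iff_of_true (by omega) b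
    · rw [if_neg b] at a
      refine iff_of_false ?_ b
      split_ifs at a <;> omega
  · obtain ⟨-, -, b1, b2, -, -, b3, -⟩ := ht d
    have hne : tA d ≠ tB d := fun h => by rw [h] at b3; omega
    have e1 : ∀ e ∈ Finset.univ.filter fun e => co.base e = co.base d,
        (if co.pos (tA d) < co.pos e ∧ co.pos e ≤ co.pos (tB d) then 1 else -1 : ℤ) *
          lenT (ty e) ((cv.pos e + rot e) % nT (ty e)) =
        2 * (if R e ∧ ¬ tv e then (if P e then 1 else -1) * asgK (st e) (cv.pos e) else 0) +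
        2 * (if ¬ (R e ∧ ¬ tv e) then (if P e then 1 else -1 : ℤ) * hf e else 0) +
        (if e = tA d then -1 else 0) + (if e = tB d then 1 else 0) := fun e he => by
      have h := (Finset.mem_filter.1 he).2
      rw [hlen]
      simp only [P, (hAB d e h).1, (hAB d e h).2, hface d e h]
      by_cases c1 : e = tA d
      · rw [c1]
        by_cases c3 : R (tA d) ∧ ¬ tv (tA d) <;> simp [hne, c3] <;> ring
      by_cases c2 : e = tB d
      · rw [c2]
        by_cases c3 : R (tB d) ∧ ¬ tv (tB d) <;> simp [hne.symm, c3, b3]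
      · rw [if_neg c1, if_neg c2, if_neg (not_or.2 ⟨c1, c2⟩)]
        by_cases c3 : R e ∧ ¬ tv e
        · rw [if_pos c3, if_pos c3, if_neg (not_not.2 c3)]
          ring
        · rw [if_neg c3, if_neg c3, if_pos c3]
          ring
    have e2 : ∑ e ∈ Finset.univ.filter (fun e => co.base e = co.base d) with R e ∧ ¬ tv e,
        (if P e then 1 else -1) * asgK (st e) (cv.pos e) = _ :=
      (Finset.sum_congr (by
        ext e
        simp only [Finset.mem_filter, Finset.mem_univ, true_and, and_comm]) fun _ _ => rfl).trans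
        (st2 d)
    rw [Finset.sum_congr rfl e1, Finset.sum_add_distrib, Finset.sum_add_distrib,
      Finset.sum_add_distrib, Finset.sum_ite_eq', Finset.sum_ite_eq', ← Finset.mul_sum,
      ← Finset.mul_sum, ← Finset.sum_filter, ← Finset.sum_filter, e2, if_pos (by simp [b1]),
      if_pos (by simp [b2])]
    ring

end Pool.Agent.MC.VB
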