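import Pool.Agent.P.MP_2677b3_gt.VbContrA

/-! Contraction of disjoint subtrees of a cubic map: the homotopy equivalence. -/

open Equiv Function

namespace Pool.Agent.MC.VB

open LL

namespace CtD

variable {M : CMap} (X : CtD M)

open Classical in
/-- The image of an edge. -/
noncomputable def fe (e : M.D) : List X.map.D := if h : X.H e then [] else [⟨e, h⟩]

variable {X}

theorem fe_H {e : M.D} (h : X.H e) : X.fe e = [] := dif_pos h

theorem fe_val (e : X.map.D) : X.fe e.1 = [e] := dif_neg e.2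

theorem fe_nil {l : List M.D} (h : ∀ e ∈ l, X.H e) : l.flatMap X.fe = [] :=
  List.flatMap_eq_nil_iff.2 fun e he => fe_H (h e he)

variable (X)

theorem down (d : M.D) (n : ℕ) : ∃ k ≤ n, (orbL M.φ d n).flatMap X.fe = orbL X.map.φ (X.nx d) k ∧
    X.map.φ^[k] (X.nx d) = X.nx (M.φ^[n] d) := by
  induction n with
  | zero => exact ⟨0, le_rfl, rfl, rfl⟩
  | succ n ih =>
    obtain ⟨k, h1, h2, h3⟩ := ih
    rw [contr_snoc, List.flatMap_append, h2, iterate_succ_apply']
    by_cases h : X.H (M.φ^[n] d)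
    · exact ⟨k, by omega, by simp [fe_H h], by rw [h3, nx_H h]⟩
    · have h4 : X.nx (M.φ^[n] d) = ⟨_, h⟩ := nx_self ⟨_, h⟩
      refine ⟨k + 1, by omega, ?_, ?_⟩
      · rw [contr_snoc, h3, h4]
        simp [fe_val (X := X) ⟨_, h⟩]
      · rw [iterate_succ_apply', h3, h4]; rfl

theorem up (e : X.map.D) (k : ℕ) : ∃ n, k ≤ n ∧ n ≤ 43 * k ∧
    (orbL M.φ e.1 n).flatMap X.fe = orbL X.map.φ e k ∧ M.φ^[n] e.1 = (X.map.φ^[k] e).1 := by
  induction k with
  | zero => exact ⟨0, le_rfl, le_rfl, rfl, rfl⟩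
  | succ k ih =>
    obtain ⟨n, h1, h2, h3, h4⟩ := ih
    have key : ∀ j ≤ X.tm (M.φ (X.map.φ^[k] e).1),
        (orbL M.φ e.1 (n + 1 + j)).flatMap X.fe = orbL X.map.φ e (k + 1) := by
      intro j hj
      induction j with
      | zero => rw [contr_snoc, contr_snoc, List.flatMap_append, h3, h4]; simp [fe_val]
      | succ j ih =>
        have h5 := X.tm_min _ j hj
        rw [← h4, ← iterate_succ_apply, ← iterate_add_apply] at h5
        rw [← Nat.add_assoc, contr_snoc, List.flatMap_append, ih (by omega),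
          show n + 1 + j = j.succ + n by omega]
        simp [fe_H h5]
    have := X.tm_le (M.φ (X.map.φ^[k] e).1)
    refine ⟨n + 1 + X.tm (M.φ (X.map.φ^[k] e).1), by omega, by omega, key _ le_rfl, ?_⟩
    rw [Nat.add_comm, iterate_add_apply, iterate_succ_apply', iterate_succ_apply', h4]
    rfl

theorem mix (hc : Cubic M) {s w : ℕ} (h2 : Big M (43 * w + 43))
    (h4 : ∀ d, ∃ k < s, M.φ^[k] d ∈ X.ρ) : Mix X.map s w fun e => X.R e.1 where
  inv := R_ψ'
  three := three hc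
  sixteen := sixteen
  dense := fun d => by
    obtain ⟨n, h1, h3⟩ := h4 d.1
    obtain ⟨k, h5, -, h6⟩ := X.down d.1 n
    rw [nx_self] at h6
    exact ⟨k, by omega, _, h3, h6 ▸ nx_mem h3 (X.T _).root⟩
  big := fun d => by
    obtain ⟨n, h1, h3, -, h5⟩ := X.up d (minimalPeriod X.map.φ d)
    have h6 : 0 < minimalPeriod X.map.φ d :=
      minimalPeriod_pos_of_mem_periodicPts (X.map.φ.injective.mem_periodicPts d)
    rw [iterate_minimalPeriod] at h5
    have h7 := IsPeriodicPt.minimalPeriod_le (f := M.φ) (by omega) h5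
    have := h2 d.1
    omega

open Classical in
/-- The root of the tree of a dart. -/
noncomputable def rt (e : M.D) : M.D := if h : X.R e then h.choose else e

open Classical in
/-- The path from the root. -/
noncomputable def τ (e : M.D) : List M.D := if X.R e then (X.T (X.rt e)).τ e else []

variable {X}

theorem rt_rich {r e : M.D} (hr : r ∈ X.ρ) (he : e ∈ (X.T r).S) : X.rt e = r := by
  have h : X.R e := ⟨r, hr, he⟩
  rw [rt, dif_pos h]
  exact uniq h.choose_spec.1 hr h.choose_spec.2 he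

theorem rt_poor {e : M.D} (h : ¬ X.R e) : X.rt e = e := dif_neg h

theorem τ_rich {r e : M.D} (hr : r ∈ X.ρ) (he : e ∈ (X.T r).S) : X.τ e = (X.T r).τ e := by
  rw [τ, if_pos ⟨r, hr, he⟩, rt_rich hr he]

theorem τ_poor {e : M.D} (h : ¬ X.R e) : X.τ e = [] := if_neg h

theorem nx_poor {e : M.D} (h : ¬ X.R e) : (X.nx e).1 = e :=
  congrArg Subtype.val (nx_self (X := X) ⟨e, fun h' => h h'.R⟩)

variable (X)

theorem τ_path (e : M.D) : M.gd.Path (M.gd.src (X.rt e)) (X.τ e) (M.gd.src e) := by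
  by_cases h : X.R e
  · obtain ⟨r, hr, he⟩ := h
    rw [rt_rich hr he, τ_rich hr he]
    exact ((X.T r).τ_path e he).1
  · rw [rt_poor h, τ_poor h]; rfl

theorem τ_mem (e : M.D) : ∀ h ∈ X.τ e, X.H h := by
  by_cases h : X.R e
  · obtain ⟨r, hr, he⟩ := h
    rw [τ_rich hr he]
    exact fun h hh => ⟨r, hr, ((X.T r).τ_path e he).2 h hh⟩
  · simp [τ_poor h]

theorem τ_ψ (e : M.D) : X.τ (M.ψ e) = X.τ e := by
  by_cases h : X.R e
  · obtain ⟨r, hr, he⟩ := h
    rw [τ_rich hr he, τ_rich hr (((X.T r).S_ψ e).2 he), (X.T r).τ_ψ e he]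
  · rw [τ_poor h, τ_poor fun h' => h (R_ψ.1 h')]

theorem fv_ψ (d : M.D) : X.map.gd.src (X.nx (M.ψ d)) = X.map.gd.src (X.nx d) := by
  by_cases h : X.R d
  · obtain ⟨r, hr, he⟩ := h
    exact src_rich hr (nx_mem hr (((X.T r).S_ψ d).2 he)) (nx_mem hr he)
  · rw [← contr_src X.map (X.nx d), X.map_ψ, nx_poor h]

theorem gv_ψ (e : X.map.D) : M.gd.src (X.rt (X.map.ψ e).1) = M.gd.src (X.rt e.1) := by
  by_cases h : X.R e.1
  · obtain ⟨r, hr, he⟩ := h
    rw [rt_rich hr he, rt_rich hr (ψ_mem hr he)]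
  · rw [ψ_poor h, rt_poor h, rt_poor fun h' => h (R_ψ.1 h'), contr_src]

/-- The image of an edge of the contracted map. -/
noncomputable def ge (e : X.map.D) : List M.D := X.τ e.1 ++ ([e.1] ++ contrRev M (X.τ (M.α e.1)))

theorem ev_ge (e : X.map.D) : contrEv M (X.ge e) =
    contrEv M (X.τ e.1) * (contrVal M e.1 * (contrEv M (X.τ (M.α e.1)))⁻¹) := by
  rw [ge, contrEv_append, contrEv_append, contrEv_rev, contrEv_one]

theorem ev_fge (a : M.D) : contrEv M ((X.fe a).flatMap X.ge) =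
    contrEv M (X.τ a) * (contrVal M a * (contrEv M (X.τ (M.α a)))⁻¹) := by
  by_cases h : X.H a
  · rw [fe_H h]
    obtain ⟨r, hr, h⟩ := h
    have h1 : contrEv M ((X.T r).τ a) * contrVal M a = contrEv M ((X.T r).τ (M.α a)) :=
      (X.T r).τ_H a h
    rw [τ_rich hr ((X.T r).H_S h), τ_rich hr ((X.T r).H_S ((X.T r).H_α _ h)), ← mul_assoc,
      h1, mul_inv_cancel]
    rfl
  · rw [fe_val (X := X) ⟨a, h⟩, List.flatMap_singleton, ev_ge]

theorem ev_orb (d : M.D) (n : ℕ) : contrEv M (((orbL M.φ d n).flatMap X.fe).flatMap X.ge) =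
    contrEv M (X.τ d) * (contrEv M (orbL M.φ d n) * (contrEv M (X.τ (M.φ^[n] d)))⁻¹) := by
  induction n with
  | zero =>
    change (1 : M.gd.U) = _ * (1 * (contrEv M (X.τ d))⁻¹)
    rw [one_mul, mul_inv_cancel]
  | succ n ih =>
    rw [contr_snoc, List.flatMap_append, List.flatMap_append, contrEv_append, contrEv_append, ih,
      List.flatMap_singleton, ev_fge, iterate_succ_apply', ← contr_psi, τ_ψ, contrEv_one]
    group

theorem fm_path (a : M.D) :
    X.map.gd.Path (X.map.gd.src (X.nx a)) (X.fe a) (X.map.gd.src (X.nx (M.α a))) := by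
  by_cases h : X.H a
  · rw [fe_H h]
    obtain ⟨r, hr, h⟩ := h
    exact src_rich hr (nx_mem hr ((X.T r).H_S h)) (nx_mem hr ((X.T r).H_S ((X.T r).H_α _ h)))
  · rw [fe_val (X := X) ⟨a, h⟩, nx_self (X := X) ⟨a, h⟩,
      nx_self (X := X) ⟨M.α a, fun h' => h (H_α.1 h')⟩]
    exact ⟨rfl, rfl⟩

theorem fm_inv (a : M.D) : contrEv X.map (X.fe (M.α a)) = (contrEv X.map (X.fe a))⁻¹ := by
  by_cases h : X.H a
  · rw [fe_H h, fe_H (H_α.2 h), contrEv_nil, inv_one]
  · rw [fe_val (X := X) ⟨a, h⟩, fe_val (X := X) ⟨M.α a, fun h' => h (H_α.1 h')⟩,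
      contrEv_one, contrEv_one]
    exact contrVal_α X.map ⟨a, h⟩

theorem fm_rel {d : M.D} {n : ℕ} (h : M.φ^[n] d = d) :
    contrEv X.map ((orbL M.φ d n).flatMap X.fe) = 1 := by
  obtain ⟨k, -, h1, h2⟩ := X.down d n
  rw [h] at h2
  rw [h1]
  exact contrEv_rel X.map h2

/-- The contraction. -/
noncomputable def fm : Mp M.gd X.map.gd :=
  Mp.ofPres (contrLift M (fun d => X.map.gd.src (X.nx d)) X.fv_ψ) X.fe X.fm_path X.fm_inv
    (by rintro _ ⟨d, n, h, rfl⟩; exact X.fm_rel h)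

theorem gm_path (a : X.map.D) :
    M.gd.Path (M.gd.src (X.rt a.1)) (X.ge a) (M.gd.src (X.rt (X.map.α a).1)) :=
  (X.τ_path a.1).append ((M.gd.path_single a.1).append (X.τ_path (M.α a.1)).rev)

theorem gm_inv (a : X.map.D) : contrEv M (X.ge (X.map.α a)) = (contrEv M (X.ge a))⁻¹ := by
  rw [ev_ge, ev_ge, map_α, M.αα, contrVal_α]
  group

theorem gm_rel {e : X.map.D} {k : ℕ} (h : X.map.φ^[k] e = e) :
    contrEv M ((orbL X.map.φ e k).flatMap X.ge) = 1 := by
  obtain ⟨n, -, -, h1, h2⟩ := X.up e k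
  rw [h] at h2
  rw [← h1, ev_orb, h2, contrEv_rel M h2, one_mul, mul_inv_cancel]

/-- The homotopy inverse. -/
noncomputable def gm : Mp X.map.gd M.gd :=
  Mp.ofPres (contrLift X.map (fun e => M.gd.src (X.rt e.1)) X.gv_ψ) X.ge X.gm_path X.gm_inv
    (by rintro _ ⟨d, n, h, rfl⟩; exact X.gm_rel h)

theorem back1 : X.fm.Back X.gm := by
  refine ⟨contrLift M (fun d => contrRev M (X.τ d)) fun d => by rw [τ_ψ], fun x => ?_,
    fun (a : M.D) => ?_⟩
  · induction x using Quotient.inductionOn with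
    | h d =>
      change M.gd.Path (M.gd.src d) (M.gd.rev (X.τ d)) (M.gd.src (X.rt (X.nx d).1))
      have : X.rt (X.nx d).1 = X.rt d := by
        by_cases h : X.R d
        · obtain ⟨r, hr, he⟩ := h
          rw [rt_rich hr he, rt_rich hr (nx_mem hr he)]
        · rw [nx_poor h]
      rw [this]
      exact (X.τ_path d).rev
  · change contrEv M (contrRev M (X.τ a)) * contrEv M ((X.fe a).flatMap X.ge) =
      contrVal M a * contrEv M (contrRev M (X.τ (M.α a)))
    rw [ev_fge, contrEv_rev, contrEv_rev, inv_mul_cancel_left]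

theorem back2 : X.gm.Back X.fm := by
  refine ⟨fun _ => [], fun x => ?_, fun (a : X.map.D) => ?_⟩
  · induction x using Quotient.inductionOn with
    | h e =>
      change X.map.gd.src e = X.map.gd.src (X.nx (X.rt e.1))
      by_cases h : X.R e.1
      · obtain ⟨r, hr, he⟩ := h
        rw [rt_rich hr he]
        exact src_rich hr he (nx_mem hr (X.T r).root)
      · rw [rt_poor h, nx_self]
  · change 1 * contrEv X.map ((X.ge a).flatMap X.fe) = contrVal X.map a * 1
    have h : (contrRev M (X.τ (M.α a.1))).flatMap X.fe = [] := fe_nil fun e he => by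
      obtain ⟨h, hh, rfl⟩ := List.mem_map.1 (List.mem_reverse.1 he)
      exact H_α.2 (X.τ_mem _ h hh)
    rw [ge, List.flatMap_append, List.flatMap_append, fe_nil (X.τ_mem _), h,
      List.flatMap_singleton, fe_val, one_mul, mul_one]
    exact contrEv_one X.map a

theorem en : X.fm.En 1 := by
  refine X.fm.en_of_bound 1 1 (fun a => ?_) fun b => ?_
  · change (X.fe a).length ≤ 1
    unfold fe
    split_ifs <;> simp
  · have h : {a | b ∈ X.fm.e a} ⊆ {b.1} := fun a ha => by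
      change b ∈ X.fe a at ha
      by_cases h : X.H a
      · rw [fe_H h] at ha; cases ha
      · rw [fe_val (X := X) ⟨a, h⟩] at ha
        obtain rfl := List.mem_singleton.1 ha
        rfl
    exact ⟨(Set.finite_singleton _).subset h,
      (Set.ncard_le_ncard h (Set.finite_singleton _)).trans (Set.ncard_singleton _).le⟩

end CtD

theorem contract {M : CMap} (h1 : Cubic M) {s w : ℕ} (h2 : Big M (43 * w + 43))
    (T : ∀ d, Tree M d 14) (ρ : Set M.D)
    (h3 : ∀ d ∈ ρ, ∀ e ∈ ρ, d ≠ e → Disjoint (T d).S (T e).S) (h4 : ∀ d, ∃ k < s, M.φ^[k] d ∈ ρ) :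
    ∃ (M' : CMap) (R : M'.D → Prop), Fw 1 M.gd M'.gd ∧ Mix M' s w R := by
  let X : CtD M := ⟨T, ρ, h3, fun d => le_trans (by omega) (h2 d)⟩
  exact ⟨X.map, _, ⟨X.fm, X.gm, X.back1, X.back2, X.en⟩, X.mix h1 h2 h4⟩

end Pool.Agent.MC.VB
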