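import Pool.Agent.P.MP_2677b3_gt.VbDescB
import Pool.Agent.P.MP_2677b3_gt.VbData

/-! Descent: the fibre product with the tiling of genus two is a cover of the surface of genus
two. -/

open Equiv Function

namespace Pool.Agent.MC.VB

open LL

namespace T7

variable (Z : T7) (X : X84)

/-- The action of the surface group on the fibre over dart `0`. -/
def dAct : Act where
  D := Z.D
  fD := Z.fD
  g := fun i => (dP Z.a Z.s (dG X.toTab i))⁻¹
  rel := by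
    have := (Z.d_rel.col X).2.2
    rw [← inv_eq_one]
    simpa [evw, relw, mul_assoc] using this

/-- Paths in the fibre product. -/
def dPC : Z.D × Fin 84 → List ((Z.D × Option Bool) × Fin 84) → Z.D × Fin 84 → Prop :=
  IsPath (fun e => (Z.src e.1, e.2)) fun e => (Z.src (Z.inv e.1), dMv X.dA dS e.1.2 e.2)

/-- Source of an edge of the Schreier graph of the surface group. -/
def dsrc (b : Z.D × Fin 4 × Bool) : Z.D := (Z.dAct X).gd.src b

/-- Target of an edge of the Schreier graph of the surface group. -/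
def dtgt (b : Z.D × Fin 4 × Bool) : Z.D := (Z.dAct X).gd.tgt b

/-- Value of a path in the fibre product. -/
def dev (p : List ((Z.D × Option Bool) × Fin 84)) : Z.gd.U := (p.map fun e => Z.dv e.1).prod

theorem d_cp (l : List (Option Bool)) (v : Z.D × Fin 84) :
    ∃ p, Z.dPC X v p ((dP Z.a Z.s l)⁻¹ v.1, (dP X.dA dS l)⁻¹ v.2) ∧
      p.map (fun e => e.1.2) = l := by
  induction l generalizing v with
  | nil => exact ⟨[], rfl, rfl⟩
  | cons o l ih =>
    obtain ⟨d, u⟩ := v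
    obtain ⟨p, h1, h2⟩ := ih (dMv Z.a Z.s o d, dMv X.dA dS o u)
    obtain ⟨d', hd⟩ : ∃ d', Z.src (d', o) = d := by
      rcases o with _ | _ | _
      · exact ⟨d, rfl⟩
      · exact ⟨Z.s⁻¹ d, Z.s.apply_symm_apply d⟩
      · exact ⟨d, rfl⟩
    refine ⟨((d', o), u) :: p, ⟨Prod.ext hd rfl, ?_⟩, congrArg (o :: ·) h2⟩
    dsimp only
    rw [Z.d_tgt, hd, dP_cons, dP_cons, mul_inv_rev, mul_inv_rev, _root_.inv_inv, _root_.inv_inv]
    exact h1

theorem d_atgt (b : Z.D × Fin 4 × Bool) :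
    Z.dtgt X b = (dP Z.a Z.s (dL X.toTab b.2))⁻¹ (Z.dsrc X b) := by
  rw [Z.d_rel.dP_L]
  rcases b with ⟨x, i, _ | _⟩
  · exact (Equiv.apply_symm_apply _ x).symm
  · rfl

theorem d_wp (w : List (Fin 4 × Bool)) (x : Z.D) : ∃ q, IsPath (Z.dsrc X) (Z.dtgt X) x q
    ((evw (fun i => dP Z.a Z.s (dG X.toTab i)) w)⁻¹ x) ∧
      q.map (fun b => b.2) = w ∧ ∀ b ∈ q, ∃ k < w.length,
        x = evw (fun i => dP Z.a Z.s (dG X.toTab i)) (w.take k) (Z.dsrc X b) := by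
  induction w generalizing x with
  | nil => exact ⟨[], rfl, rfl, fun _ h => absurd h List.not_mem_nil⟩
  | cons l w ih =>
    obtain ⟨q, h1, h2, h3⟩ := ih ((dP Z.a Z.s (dL X.toTab l))⁻¹ x)
    obtain ⟨x', hx⟩ : ∃ x' : Z.D, Z.dsrc X (x', l) = x := by
      rcases l with ⟨i, _ | _⟩
      · exact ⟨dP Z.a Z.s (dG X.toTab i) x, Equiv.symm_apply_apply _ x⟩
      · exact ⟨x, rfl⟩
    refine ⟨(x', l) :: q, ⟨hx, ?_⟩, congrArg (l :: ·) h2, fun b hb => ?_⟩
    · rw [Z.d_atgt, hx, col_evw_cons, mul_inv_rev, ← Z.d_rel.dP_L]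
      exact h1
    · rcases List.mem_cons.1 hb with rfl | hb
      · exact ⟨0, Nat.succ_pos _, hx.symm⟩
      · obtain ⟨k, k1, k2⟩ := h3 b hb
        refine ⟨k + 1, Nat.succ_lt_succ k1, ?_⟩
        rw [List.take_succ_cons, col_evw_cons, ← Z.d_rel.dP_L, Perm.mul_apply, ← k2]
        exact (Equiv.apply_symm_apply _ x).symm

theorem d_ev (q : List (Z.D × Fin 4 × Bool)) :
    (q.map fun b => dV [b.2]).prod = dV (q.map fun b => b.2) ∧
      (Z.dAct X).gd.ev q = dV (q.map fun b => b.2) := by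
  refine ⟨by simp [dV, evw, Function.comp_def], ?_⟩
  rw [dV, evw, List.map_map]; rfl

theorem d_trC {x y : Z.D × Fin 84} {p : List ((Z.D × Option Bool) × Fin 84)}
    (hp : Z.dPC X x p y) (h : Z.gd.U) :
    dP Z.dA' Z.dS' (p.map fun e => e.1.2) (y.1, h * Z.dev p) = (x.1, h) := by
  rw [dP, List.map_map]
  exact d_track (fun e => (dMv Z.dA' Z.dS' e.1.2)⁻¹)
    (fun v => v.1) (fun e => Z.dv e.1) (fun e h => Z.d_step' e.1 h) hp h

theorem d_trB {x y : Z.D × Fin 84} {p : List ((Z.D × Option Bool) × Fin 84)}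
    (hp : Z.dPC X x p y) (h : Pi2) : dP X.dA' X84.dS' (p.map fun e => e.1.2)
      (y.2, h * (p.map fun e => dV (X.dc e.1.2 e.2)).prod) = (x.2, h) := by
  rw [dP, List.map_map]
  exact d_track (fun e => (dMv X.dA' X84.dS' e.1.2)⁻¹)
    (fun v => v.2) (fun e => dV (X.dc e.1.2 e.2)) (fun e h => X.d_step' e.1.2 e.2 h) hp h

theorem d_main (K : ℕ) (hK : ∀ o u, (X.dc o u).length ≤ K) :
    Fw (K * K * (84 * K)) (cover Z.gd (Z.dMon X)) (Z.dAct X).gd := by
  choose cp c1 c2 using Z.d_cp X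
  choose wp w1 w2 w3 using Z.d_wp X
  have t0 : ∀ u : Fin 84, dP X.dA dS (dW X.toTab u) u = 0 := fun u =>
    (dP_fst _ _ _ _ _ (u, (1 : Pi2))).symm.trans (congrArg Prod.fst (X.d_tree u u.2 1))
  have l0 : ∀ l, (dP X.dA dS (dL X.toTab l))⁻¹ 0 = 0 := fun l => Perm.inv_eq_iff_eq.2
    ((dP_fst _ _ _ _ _ (0, (1 : Pi2) * dV [l])).symm.trans
      (congrArg Prod.fst (X.d_gen l 1))).symm
  obtain ⟨fe, hfe⟩ : ∃ fe : (Z.D × Option Bool) × Fin 84 → List (Z.D × Fin 4 × Bool),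
      ∀ e, fe e = wp (X.dc e.1.2 e.2) (dP Z.a Z.s (dW X.toTab e.2) (Z.src e.1)) := ⟨_, fun _ => rfl⟩
  obtain ⟨ge, hge⟩ : ∃ ge : Z.D × Fin 4 × Bool → List ((Z.D × Option Bool) × Fin 84),
      ∀ b, ge b = cp (dL X.toTab b.2) (Z.dsrc X b, 0) := ⟨_, fun _ => rfl⟩
  obtain ⟨η, hη⟩ : ∃ η : Z.D × Fin 84 → List ((Z.D × Option Bool) × Fin 84),
      ∀ v, η v = cp (dR (dW X.toTab v.2)) v := ⟨_, fun _ => rfl⟩
  have f2 : ∀ e, (fe e).map (fun b => b.2) = X.dc e.1.2 e.2 := fun e => by rw [hfe, w2]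
  have fev : ∀ p : List ((Z.D × Option Bool) × Fin 84), dV ((p.flatMap fe).map fun b => b.2) =
      (p.map fun e => dV (X.dc e.1.2 e.2)).prod := fun p => by
    rw [← (Z.d_ev X _).1, d_prod_flatMap]
    simp only [(Z.d_ev X _).1, f2]
  have fp : ∀ e, IsPath (Z.dsrc X) (Z.dtgt X) (dP Z.a Z.s (dW X.toTab e.2) (Z.src e.1)) (fe e)
      (dP Z.a Z.s (dW X.toTab (dMv X.dA dS e.1.2 e.2)) (Z.src (Z.inv e.1))) := fun e => by
    have := w1 (X.dc e.1.2 e.2) (dP Z.a Z.s (dW X.toTab e.2) (Z.src e.1))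
    rw [← X.d_edge Z.d_rel, mul_inv_rev, mul_inv_rev, _root_.inv_inv, _root_.inv_inv,
      Perm.mul_apply, Perm.mul_apply, Perm.inv_eq_iff_eq.2 rfl, ← Z.d_tgt, ← hfe] at this
    exact this
  have fc : ∀ x p, Z.dPC X x p x → Z.dev p = 1 → dV ((p.flatMap fe).map fun b => b.2) = 1 := by
    intro x p hp h
    have h1 := Z.d_trB X hp 1
    have h2 := X.d_rel'.lift Z (p.map fun e => e.1) (by
      rw [← h, dev, ← Function.comp_def Z.dv, ← List.map_map]; rfl)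
    rw [List.map_map] at h2
    rw [show dP X.dA' X84.dS' (p.map fun e => e.1.2) = 1 from h2, one_mul, ← fev] at h1
    exact congrArg Prod.snd h1
  have gp : ∀ b, Z.dPC X (Z.dsrc X b, 0) (ge b) (Z.dtgt X b, 0) := fun b => by
    have := c1 (dL X.toTab b.2) (Z.dsrc X b, 0)
    rwa [l0, ← Z.d_atgt, ← hge] at this
  have trT : ∀ {x y : Z.D} {q : List (Z.D × Fin 4 × Bool)}, IsPath (Z.dsrc X) (Z.dtgt X) x q y →
      ∀ h : Z.gd.U, evw (fun i => dP Z.dA' Z.dS' (dG X.toTab i)) (q.map fun b => b.2)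
        (y, h * Z.dev (q.flatMap ge)) = (x, h) := by
    intro x y q hq h
    rw [evw, List.map_map, dev, d_prod_flatMap]
    refine d_track _ (fun v => v) _ (fun b h => ?_) hq h
    have := Z.d_trC X (gp b) h
    rw [hge, c2, Z.d_rel'.dP_L, ← hge] at this
    exact this
  have gc : ∀ x q, IsPath (Z.dsrc X) (Z.dtgt X) x q x → dV (q.map fun b => b.2) = 1 →
      Z.dev (q.flatMap ge) = 1 := by
    intro x q hq h
    have h1 := trT hq 1
    rw [d_hom _ (Z.d_rel'.col X).2.2 _ h, one_mul] at h1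
    exact congrArg Prod.snd h1
  have ep : ∀ v, Z.dPC X v (η v) (dP Z.a Z.s (dW X.toTab v.2) v.1, 0) := fun v => by
    have := c1 (dR (dW X.toTab v.2)) v
    rwa [Z.d_rel.dP_R, X.d_rel.dP_R, _root_.inv_inv, _root_.inv_inv, t0, ← hη] at this
  have b1 : ∀ e, Z.dev (η (Z.src e.1, e.2)) * Z.dev ((fe e).flatMap ge) =
      Z.dv e.1 * Z.dev (η (Z.src (Z.inv e.1), dMv X.dA dS e.1.2 e.2)) := fun e => by
    have h1 := Z.d_trC X (ep (Z.src e.1, e.2)) 1
    have h2 := trT (fp e) (1 * Z.dev (η (Z.src e.1, e.2)))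
    have h3 := Z.d_trC X (ep (Z.src (Z.inv e.1), dMv X.dA dS e.1.2 e.2)) (1 * Z.dv e.1)
    rw [hη, c2, Z.d_rel'.dP_R, ← hη] at h1 h3
    rw [f2, ← X.d_edge Z.d_rel', Perm.mul_apply, Perm.mul_apply] at h2
    have h5 := (Perm.inv_eq_iff_eq.2 h2.symm).symm.trans h1
    dsimp only at h3 h5
    rw [← Z.d_step' e.1 1, (dMv Z.dA' Z.dS' e.1.2)⁻¹.injective.eq_iff, ← h3,
      (dP Z.dA' Z.dS' _)⁻¹.injective.eq_iff, one_mul, one_mul] at h5
    exact congrArg Prod.snd h5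
  have b2 : ∀ b, dV (((ge b).flatMap fe).map fun b => b.2) = dV [b.2] := fun b => by
    have h1 := Z.d_trB X (gp b) 1
    rw [← fev, hge, c2, ← hge, ← X.d_gen b.2 1, (dP X.dA' X84.dS' _).injective.eq_iff, one_mul,
      one_mul] at h1
    exact congrArg Prod.snd h1
  let f : Mp (cover Z.gd (Z.dMon X)) (Z.dAct X).gd :=
    ⟨fun v : Z.D × Fin 84 => dP Z.a Z.s (dW X.toTab v.2) v.1, fe, fp,
      fun x p hp h => (Z.d_ev X _).2.trans (fc x p hp h)⟩
  let g : Mp (Z.dAct X).gd (cover Z.gd (Z.dMon X)) :=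
    ⟨fun x => (x, 0), ge, gp, fun x q hq h => gc x q hq ((Z.d_ev X q).2.symm.trans h)⟩
  refine ⟨f, g, ⟨η, ep, b1⟩, ⟨fun _ => [], fun x : Z.D => ?_, fun b => ?_⟩,
    f.en_of_bound K (84 * K) (fun e => ?_) fun b => ?_⟩
  · change x = dP Z.a Z.s (dW X.toTab 0) x
    rw [dW, col_pl_zero]; rfl
  · exact ((one_mul _).trans (Z.d_ev X _).2).trans ((b2 b).trans (Z.d_ev X [b]).2.symm)
  · exact ((List.length_map _).symm.trans (congrArg List.length (f2 e))).trans_le (hK _ _)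
  · let Ψ : Fin 84 × Fin K → (Z.D × Option Bool) × Fin 84 := fun p =>
      (((dP Z.a Z.s (dW X.toTab p.1))⁻¹ (evw (fun i => dP Z.a Z.s (dG X.toTab i))
        ((X.c p.1).take p.2) (Z.dsrc X b)), none), p.1)
    have hs : {a | b ∈ fe a} ⊆ Set.range Ψ := by
      rintro ⟨⟨d, o⟩, u⟩ ha
      rw [Set.mem_setOf_eq, hfe] at ha
      obtain ⟨k, k1, k2⟩ := w3 _ _ b ha
      rcases o with _ | o
      · exact ⟨(u, ⟨k, k1.trans_le (hK _ _)⟩),
          Prod.ext (Prod.ext (Perm.inv_eq_iff_eq.2 k2.symm) rfl) rfl⟩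
      · exact absurd k1 (Nat.not_lt_zero k)
    refine ⟨(Set.finite_range Ψ).subset hs, (Set.ncard_le_ncard hs (Set.finite_range Ψ)).trans ?_⟩
    rw [← Set.image_univ]
    refine (Set.ncard_image_le Set.finite_univ).trans ?_
    simp [Set.ncard_univ]

end T7

theorem descend : ∃ E : ℕ, 0 < E ∧ ∀ Z : T7, ∃ (m : Mon Z.gd (Fin 84)) (T : Act),
    Fw E (cover Z.gd m) T.gd := by
  obtain ⟨X⟩ := x84
  obtain ⟨K, hK⟩ :=
    (Set.finite_range fun p : Option Bool × Fin 84 => (X.dc p.1 p.2).length).bddAbove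
  exact ⟨(K + 1) * (K + 1) * (84 * (K + 1)), by positivity, fun Z => ⟨_, _,
    Z.d_main X (K + 1) fun o u => Nat.le_succ_of_le (hK ⟨(o, u), rfl⟩)⟩⟩

end Pool.Agent.MC.VB
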