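import Pool.Agent.P.MP_2677b3_gt.VbLift

/-! The geometric realisation of a component of a finite cover. -/

open Equiv Function UpperHalfPlane

noncomputable section

namespace Pool.Agent.MC.VB

open LL Ge

variable {A : Gd} {U : Type} (m : Mon A U) (x : A.V) (u : U)

/-- The projection of an edge of a component of a cover. -/
def gcPr (e : (comp (cover A m) (x, u)).E) : A.E := m.pr e.1

theorem gc_map (p : List (comp (cover A m) (x, u)).E) :
    p.map (gcPr m x u) = (p.map (liftComp (cover A m) (x, u)).e).map m.pr := by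
  rw [List.map_map]
  rfl

theorem gc_down {y z : (comp (cover A m) (x, u)).V} {p : List (comp (cover A m) (x, u)).E}
    (h : (comp (cover A m) (x, u)).Path y p z) :
    A.Path y.1.1 (p.map (gcPr m x u)) z.1.1 ∧ m.tr (p.map (gcPr m x u)) y.1.2 = z.1.2 := by
  rw [gc_map]
  exact m.down_path ((liftComp (cover A m) (x, u)).path_iff.1 h)

theorem gc_ev (p : List (comp (cover A m) (x, u)).E) :
    (comp (cover A m) (x, u)).ev p = A.ev (p.map (gcPr m x u)) := by
  rw [gc_map, ← m.down_ev]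
  exact ((liftComp (cover A m) (x, u)).ev p).symm

theorem gc_up (y : (comp (cover A m) (x, u)).V) {q : List A.E} {w : A.V} (h : A.Path y.1.1 q w) :
    ∃ z p, (comp (cover A m) (x, u)).Path y p z ∧ p.map (gcPr m x u) = q ∧
      z.1 = (w, m.tr q y.1.2) := by
  have h1 : (cover A m).Path y.1 (m.up q y.1.2) (w, m.tr q y.1.2) := m.up_path h y.1.2
  obtain ⟨p, hp⟩ := (liftComp (cover A m) (x, u)).up (x := y) h1
  refine ⟨⟨_, y.2.elim fun _ h2 => ⟨_, h2.append h1⟩⟩, p,
    (liftComp (cover A m) (x, u)).path_iff.2 ?_, ?_, rfl⟩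
  · rw [hp]
    exact h1
  · rw [gc_map, hp, m.up_map]

variable {G : Subgroup (Perm ℍ)} {ε K : ℝ}

theorem gc_hom (g : Geo A G K) (hg : g.Full) : ∃ Θ : G →* Perm U,
    ∀ p, A.Path x p x → Θ (hp g p) = (m.tr p)⁻¹ := by
  choose L h1 h2 using hg x
  have a1 : ∀ p, A.Path x p x → m.tr (L (hp g p)) = m.tr p := fun p h =>
    m.tr_congr (h1 _) h ((hp_iff g (h1 _) h).2 (h2 _))
  refine ⟨MonoidHom.mk' (fun γ => (m.tr (L γ))⁻¹) fun γ δ => ?_,
    fun p h => congrArg Inv.inv (a1 p h)⟩
  have a2 := a1 _ ((h1 γ).append (h1 δ))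
  rw [hp_append, show hp g (L γ) = γ from h2 γ, show hp g (L δ) = δ from h2 δ] at a2
  rw [a2, m.tr_append, mul_inv_rev]

theorem gc_geo (hG : Fuchs G ε) (g : Geo A G K) (hg : g.Full) (H : Subgroup G)
    (hH : ∀ p, A.Path x p x → (hp g p ∈ H ↔ m.tr p u = u)) :
    ∃ g' : Geo (comp (cover A m) (x, u)) (H.map G.subtype) K, g'.Full := by
  let y0 : (comp (cover A m) (x, u)).V := ⟨(x, u), [], rfl⟩
  have c0 : ∀ y : (comp (cover A m) (x, u)).V, ∃ p, (comp (cover A m) (x, u)).Path y0 p y := by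
    intro y
    obtain ⟨q, hq⟩ := y.2
    obtain ⟨p, hp⟩ := (liftComp (cover A m) (x, u)).up (x := y0) hq
    exact ⟨p, (liftComp (cover A m) (x, u)).path_iff.2 (hp ▸ hq)⟩
  choose c hc using c0
  let F : List (comp (cover A m) (x, u)).E → G := fun p => hp g (p.map (gcPr m x u))
  have F1 : ∀ p q, F (p ++ q) = F p * F q := fun p q => by simp [F]
  have F2 : ∀ e, F [(comp (cover A m) (x, u)).inv e] = (F [e])⁻¹ := fun e => by
    simp only [F, List.map_cons, List.map_nil, hp_cons, hp_nil, mul_one]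
    exact g.hol_inv _
  have F3 : ∀ p, F ((comp (cover A m) (x, u)).rev p) = (F p)⁻¹ := fun p => by
    induction p with
    | nil => simp [F]
    | cons e p ih => rw [Gd.rev_cons, F1, ih, F2, ← mul_inv_rev, ← F1, List.singleton_append]
  have key : ∀ y p z, (comp (cover A m) (x, u)).Path y p z → F (c y) * F p * (F (c z))⁻¹ ∈ H := by
    intro y p z h
    obtain ⟨a1, a2⟩ := gc_down m x u (((hc y).append h).append (hc z).rev)
    rw [← F3, ← F1, ← F1]
    exact (hH _ a1).2 a2
  let hol : (comp (cover A m) (x, u)).E → H.map G.subtype := fun e =>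
    ⟨_, Subgroup.mem_map_of_mem G.subtype (key _ _ _ ((comp (cover A m) (x, u)).path_single e))⟩
  have hv : ∀ e, (hol e).1 = (F (c ((comp (cover A m) (x, u)).src e)) * F [e] *
      (F (c ((comp (cover A m) (x, u)).tgt e)))⁻¹).1 := fun _ => rfl
  have pr : ∀ y p z, (comp (cover A m) (x, u)).Path y p z →
      ((p.map hol).prod).1 = (F (c y) * F p * (F (c z))⁻¹).1 := by
    intro y p z h
    induction p generalizing y with
    | nil =>
      obtain rfl : y = z := h
      simp [F]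
    | cons e p ih =>
      obtain ⟨rfl, h2⟩ := h
      rw [List.map_cons, List.prod_cons, Subgroup.coe_mul, ih _ h2, ← List.singleton_append, F1,
        hv, ← Subgroup.coe_mul]
      congr 1
      group
  have ap : ∀ y p z, (comp (cover A m) (x, u)).Path y p z → ∀ w,
      ((p.map hol).prod).1 ((F (c z)).1 w) = (F (c y)).1 ((F p).1 w) := by
    intro y p z h w
    rw [pr y p z h]
    simp
  refine ⟨⟨fun y => (F (c y)).1 (g.pt y.1.1), hol, fun e => Subtype.ext ?_, fun y p h => ?_,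
    fun e => ?_, fun y p z h => ?_, fun y w => ?_⟩, fun y γ => ?_⟩
  · rw [Subgroup.coe_inv, hv, hv, F2, Gd.src_inv, Gd.tgt_inv]
    simp [mul_assoc]
  · rw [gc_ev]
    refine (g.faith _ _ (gc_down m x u h).1).trans ?_
    rw [Subtype.ext_iff (p := (· ∈ H.map G.subtype)), pr _ _ _ h]
    change F p = 1 ↔ _
    simp
  · have a1 := ap _ _ _ ((comp (cover A m) (x, u)).path_single e)
    simp only [List.map_cons, List.map_nil, List.prod_cons, List.prod_nil, mul_one] at a1
    rw [a1, fuchs_dist hG (F _).2]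
    simp only [F, List.map_cons, List.map_nil, hp_cons, hp_nil, mul_one]
    exact g.short _
  · obtain ⟨a1, a2⟩ := gc_down m x u h
    obtain ⟨q, q1, q2, q3⟩ := g.eff _ _ _ a1
    obtain ⟨z', p', b1, b2, b3⟩ := gc_up m x u y q1
    have b4 : z' = z := by
      apply Subtype.ext
      rw [b3, m.tr_congr q1 a1 ((hp_iff g q1 a1).2 q2), a2]
      rfl
    subst b4
    have b5 : F p' = F p := by
      simp only [F, b2]
      exact q2
    refine ⟨p', b1, Subtype.ext (by rw [pr _ _ _ b1, pr _ _ _ h, b5]), ?_⟩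
    rw [ap _ _ _ h, fuchs_dist hG (F _).2, ← List.length_map (gcPr m x u), b2]
    exact q3
  · obtain ⟨q, z0, q1, q2⟩ := g.dense y.1.1 ((F (c y)).1⁻¹ w)
    obtain ⟨z, p, b1, b2, b3⟩ := gc_up m x u y q1
    refine ⟨p, z, b1, ?_⟩
    have b4 : F p = (q.map g.hol).prod := by simp only [F, b2, hp]
    rw [← fuchs_dist hG (F (c y)).2, ← Perm.mul_apply, mul_inv_cancel, Perm.one_apply] at q2
    rw [ap _ _ _ b1, b3, b4]
    exact q2
  · obtain ⟨_, γ, h1, rfl⟩ := γ
    obtain ⟨q, q1, q2⟩ := hg x γ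
    obtain ⟨z, p, b1, b2, b3⟩ := gc_up m x u y0 q1
    have b4 : z = y0 := by
      apply Subtype.ext
      rw [b3]
      exact Prod.ext rfl ((hH q q1).1 (by rwa [show hp g q = γ from q2]))
    subst b4
    have b5 := ((hc y).rev.append b1).append (hc y)
    refine ⟨_, b5, Subtype.ext ?_⟩
    have b6 : F p = γ := by
      simp only [F, b2]
      exact q2
    rw [pr _ _ _ b5, F1, F1, F3, b6]
    simp [mul_assoc]

theorem geo_cover {A : Gd} [Finite A.V] {G : Subgroup (Perm ℍ)} {ε K : ℝ} (hG : Fuchs G ε)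
    (g : Geo A G K) (hg : g.Full) {U : Type} [Fintype U] (m : Mon A U) (x : A.V) (u : U) :
    ∃ G' : Subgroup (Perm ℍ), G' ≤ G ∧ G'.relIndex G ≠ 0 ∧ G'.relIndex G ≤ Fintype.card U ∧
      Fuchs G' ε ∧ ∃ g' : Geo (comp (cover A m) (x, u)) G' K, g'.Full := by
  obtain ⟨Θ, hΘ⟩ := gc_hom m x g hg
  let _ : MulAction G U := MulAction.compHom U Θ
  have a1 : ∀ p, A.Path x p x → (hp g p ∈ MulAction.stabilizer G u ↔ m.tr p u = u) := fun p h => by
    rw [MulAction.mem_stabilizer_iff]
    change Θ (hp g p) u = u ↔ _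
    rw [hΘ p h, Perm.inv_eq_iff_eq, eq_comm]
  obtain ⟨g', h1⟩ := gc_geo m x u hG g hg _ a1
  have a2 : ((MulAction.stabilizer G u).map G.subtype).relIndex G =
      (MulAction.orbit G u).ncard := by
    rw [← MulAction.index_stabilizer, Subgroup.relIndex, Subgroup.subgroupOf,
      Subgroup.comap_map_eq_self_of_injective G.subtype_injective]
  have a3 := Subgroup.map_subtype_le (MulAction.stabilizer G u)
  refine ⟨_, a3, ?_, ?_, ⟨fun γ h => hG.mob γ (a3 h), fun γ h => hG.thick γ (a3 h), ?_⟩, g', h1⟩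
  · rw [a2]
    exact ((Set.ncard_pos (Set.toFinite _)).2 ⟨u, MulAction.mem_orbit_self u⟩).ne'
  · rw [a2, ← Nat.card_eq_fintype_card]
    exact Set.ncard_le_card _
  · have : Finite (comp (cover A m) (x, u)).V := inferInstanceAs (Finite {_y : A.V × U // _})
    obtain ⟨R, hR⟩ := (Set.finite_range fun y => dist (g'.pt y) I).bddAbove
    refine ⟨K + R, fun z => ?_⟩
    obtain ⟨p, y, -, b2⟩ := g'.dense ⟨(x, u), [], rfl⟩ z
    refine ⟨_, (((p.map g'.hol).prod)⁻¹).2, (dist_triangle _ (g'.pt y) _).trans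
      (add_le_add ?_ (hR ⟨y, rfl⟩))⟩
    rw [← fuchs_dist hG (a3 ((p.map g'.hol).prod).2)]
    simpa using b2

end Pool.Agent.MC.VB
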