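import Pool.Agent.P.MP_2677b3_gt.VbUtil

/-! Subtrees of cubic maps and disjoint families of them that are dense along the faces. -/

open Equiv Function

namespace Pool.Agent.MC.VB

theorem tree_ψα (M : CMap) (d : M.D) : M.φ (M.α d) = M.ψ d := rfl

theorem tree_φ (M : CMap) (d : M.D) : M.φ d = M.ψ (M.α d) := by
  rw [← tree_ψα, M.αα]

theorem tree_src (M : CMap) (d : M.D) : M.gd.src (M.ψ d) = M.gd.src d :=
  Quotient.sound (s := Perm.SameCycle.setoid M.ψ) (util_same_iter M.ψ d 1).symm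

theorem tree_ne2 {M : CMap} (h : Cubic M) (d : M.D) : M.ψ (M.ψ d) ≠ d := fun e =>
  (h d).2 (by have := (h d).1; rwa [e] at this)

theorem tree_one {M : CMap} (h1 : Cubic M) (d : M.D) : Nonempty (Tree M d 1) := by
  classical
  have p3 : minimalPeriod M.ψ d = 3 :=
    haveI : Fact (Nat.Prime 3) := ⟨Nat.prime_three⟩
    minimalPeriod_eq_prime (p := 3) (h1 d).1 (h1 d).2
  have n1 := (h1 d).2
  have n2 := tree_ne2 h1 d
  have n3 := (h1 (M.ψ d)).2
  have hS : ∀ e, M.ψ e ∈ ({d, M.ψ d, M.ψ (M.ψ d)} : Finset M.D) ↔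
      e ∈ ({d, M.ψ d, M.ψ (M.ψ d)} : Finset M.D) := by
    intro e
    have : M.ψ e = d ↔ e = M.ψ (M.ψ d) := by
      rw [← M.ψ.injective.eq_iff (a := e), (h1 d).1]
    simp only [Finset.mem_insert, Finset.mem_singleton, this, M.ψ.injective.eq_iff]
    tauto
  refine ⟨⟨{d, M.ψ d, M.ψ (M.ψ d)}, ∅, fun i => M.ψ^[i] d, fun _ => [], by simp, ?_, hS, by simp,
    by simp, fun i => ⟨?_, by simp⟩, ?_, fun i j => ?_, fun i => ⟨0, ?_, by simp⟩, ?_, by simp,
    by simp, ?_⟩⟩
  · rw [Finset.card_eq_three]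
    exact ⟨_, _, _, n1.symm, n2.symm, n3.symm, rfl⟩
  · induction i with
    | zero => simp
    | succ i ih => rw [iterate_succ_apply']; exact (hS _).2 ih
  · intro e he _
    simp only [Finset.mem_insert, Finset.mem_singleton] at he
    rcases he with rfl | rfl | rfl
    exacts [⟨0, rfl⟩, ⟨1, rfl⟩, ⟨2, rfl⟩]
  · rw [← iterate_mod_minimalPeriod_eq (n := i), ← iterate_mod_minimalPeriod_eq (n := j),
      iterate_eq_iterate_iff_of_lt_minimalPeriod (Nat.mod_lt _ (by omega))
        (Nat.mod_lt _ (by omega)), p3]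
  · exact (iterate_succ_apply' M.ψ i d).symm
  · intro e he
    refine ⟨?_, by simp⟩
    simp only [Finset.mem_insert, Finset.mem_singleton] at he
    rcases he with rfl | rfl | rfl
    · rfl
    · exact (tree_src M d).symm
    · exact ((tree_src M _).trans (tree_src M d)).symm
  · intro e he
    simp only [Finset.mem_insert, Finset.mem_singleton] at he
    rcases he with rfl | rfl | rfl
    exacts [⟨[], by simp, rfl⟩, ⟨[false], by simp, rfl⟩, ⟨[false, false], by simp, rfl⟩]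

/-- The same tree with the cyclic order started elsewhere. -/
def treeShift {M : CMap} {d : M.D} {n : ℕ} (T : Tree M d n) (a : ℕ) : Tree M d n :=
  { T with
    c := fun i => T.c (i + a)
    c_mem := fun i => T.c_mem _
    c_surj := fun e he h => (T.c_surj e he h).elim fun j hj => ⟨j + (n + 1) * a, by
      rw [← hj, T.c_eq, show j + (n + 1) * a + a = j + (n + 2) * a by ring,
        Nat.add_mul_mod_self_left]⟩
    c_eq := fun i j => (T.c_eq _ _).trans
      ⟨fun h => Nat.ModEq.add_right_cancel' a h, fun h => Nat.ModEq.add_right a h⟩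
    ret := fun i => by rw [Nat.add_right_comm]; exact T.ret _ }

theorem tree_step {M : CMap} (h1 : Cubic M) {d : M.D} {n : ℕ} (T : Tree M d n)
    (ha : M.α (T.c 0) ∉ T.S) : Nonempty (Tree M d (n + 1)) := by
  classical
  obtain ⟨e, he⟩ : ∃ e, e = T.c 0 := ⟨_, rfl⟩
  obtain ⟨a, ea⟩ : ∃ a, a = M.α e := ⟨_, rfl⟩
  rw [← he, ← ea] at ha
  have ae : M.α a = e := by rw [ea, M.αα]
  have eS : e ∈ T.S := he ▸ (T.c_mem 0).1
  have a1 : M.ψ a ∉ T.S := fun h => ha ((T.S_ψ _).1 h)
  have a2 : M.ψ (M.ψ a) ∉ T.S := fun h => a1 ((T.S_ψ _).1 h)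
  have n1 := (h1 a).2
  have n2 := tree_ne2 h1 a
  have n3 := (h1 (M.ψ a)).2
  let g : ℕ → M.D := fun r => if r = 0 then M.ψ a else if r = 1 then M.ψ (M.ψ a) else T.c (r - 1)
  have g0 : g 0 = M.ψ a := rfl
  have g1 : g 1 = M.ψ (M.ψ a) := rfl
  have g2 : ∀ r, g (r + 2) = T.c (r + 1) := fun r => rfl
  have cases3 : ∀ r : ℕ, r = 0 ∨ r = 1 ∨ ∃ s, r = s + 2 := fun r => by
    rcases r with _ | _ | r <;> simp
  have hS : ∀ x, x ∈ T.S ∪ {a, M.ψ a, M.ψ (M.ψ a)} ↔
      x ∈ T.S ∨ x = a ∨ x = M.ψ a ∨ x = M.ψ (M.ψ a) := fun x => by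
    simp only [Finset.mem_union, Finset.mem_insert, Finset.mem_singleton]
  have hH : ∀ x, x ∈ T.H ∪ {e, a} ↔ x ∈ T.H ∨ x = e ∨ x = a := fun x => by
    simp only [Finset.mem_union, Finset.mem_insert, Finset.mem_singleton]
  have ce : ∀ r, r + 1 < n + 2 → T.c (r + 1) ≠ e := fun r hr h => by
    rw [he, T.c_eq, Nat.mod_eq_of_lt hr, Nat.zero_mod] at h
    omega
  have ginj : ∀ r < n + 3, ∀ s < n + 3, g r = g s → r = s := by
    intro r hr s hs h
    rcases cases3 r with rfl | rfl | ⟨r, rfl⟩ <;> rcases cases3 s with rfl | rfl | ⟨s, rfl⟩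
    · rfl
    · exact absurd h.symm n3
    · exact absurd ((show M.ψ a = T.c (s + 1) from h) ▸ (T.c_mem (s + 1)).1) a1
    · exact absurd h n3
    · rfl
    · exact absurd ((show M.ψ (M.ψ a) = T.c (s + 1) from h) ▸ (T.c_mem (s + 1)).1) a2
    · exact absurd ((show T.c (r + 1) = M.ψ a from h) ▸ (T.c_mem (r + 1)).1) a1
    · exact absurd ((show T.c (r + 1) = M.ψ (M.ψ a) from h) ▸ (T.c_mem (r + 1)).1) a2
    · rw [g2, g2, T.c_eq, Nat.mod_eq_of_lt (by omega), Nat.mod_eq_of_lt (by omega)] at h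
      omega
  have hlt : ∀ i, i % (n + 1 + 2) < n + 3 := fun i => Nat.mod_lt _ (by omega)
  refine ⟨⟨T.S ∪ {a, M.ψ a, M.ψ (M.ψ a)}, T.H ∪ {e, a}, fun i => g (i % (n + 1 + 2)),
    fun x => if x ∈ T.S then T.τ x else T.τ e ++ [e], (hS _).2 (Or.inl T.root), ?_, fun x => ?_,
    fun x hx => ?_, fun x hx => ?_, fun i => ?_, fun x hx hx' => ?_,
    fun i j => ⟨ginj _ (hlt i) _ (hlt j), fun h => congrArg g h⟩, fun i => ?_, fun x hx => ?_,
    fun x _ => ?_, fun x hx => ?_, fun x hx => ?_⟩⟩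
  · rw [Finset.card_union_of_disjoint (by simp [ha, a1, a2]), T.card,
      Finset.card_eq_three.2 ⟨_, _, _, n1.symm, n2.symm, n3.symm, rfl⟩]
    ring
  · have : M.ψ x = a ↔ x = M.ψ (M.ψ a) := by
      rw [← M.ψ.injective.eq_iff (a := x), (h1 a).1]
    simp only [hS, T.S_ψ, this, M.ψ.injective.eq_iff]
    tauto
  · rcases (hH x).1 hx with h | rfl | rfl
    · exact (hS _).2 (Or.inl (T.H_S h))
    · exact (hS _).2 (Or.inl eS)
    · exact (hS _).2 (Or.inr (Or.inl rfl))
  · rw [hH] at hx ⊢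
    rcases hx with h | h | h
    · exact Or.inl (T.H_α x h)
    · exact Or.inr (Or.inr (by rw [h, ea]))
    · exact Or.inr (Or.inl (by rw [h, ae]))
  · have hi := hlt i
    rw [hS, hH]
    rcases cases3 (i % (n + 1 + 2)) with h | h | ⟨r, h⟩ <;> rw [h]
    · refine ⟨Or.inr (Or.inr (Or.inl g0)), ?_⟩
      rw [g0]
      rintro (k | k | k)
      exacts [a1 (T.H_S k), a1 (k ▸ eS), n1 k]
    · refine ⟨Or.inr (Or.inr (Or.inr g1)), ?_⟩
      rw [g1]
      rintro (k | k | k)
      exacts [a2 (T.H_S k), a2 (k ▸ eS), n2 k]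
    · rw [g2]
      refine ⟨Or.inl (T.c_mem _).1, ?_⟩
      rintro (k | k | k)
      exacts [(T.c_mem _).2 k, ce r (by omega) k, ha (k ▸ (T.c_mem _).1)]
  · rw [hH, not_or, not_or] at hx'
    rcases (hS x).1 hx with h | h | h | h
    · obtain ⟨j, rfl⟩ := T.c_surj x h hx'.1
      have k1 : j % (n + 2) < n + 2 := Nat.mod_lt _ (by omega)
      have k2 : j % (n + 2) ≠ 0 := fun k => hx'.2.1 (by rw [he, T.c_eq, k, Nat.zero_mod])
      obtain ⟨r, hr⟩ := Nat.exists_eq_succ_of_ne_zero k2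
      refine ⟨r + 2, ?_⟩
      rw [Nat.mod_eq_of_lt (by omega), g2, T.c_eq, Nat.mod_eq_of_lt (by omega), hr]
    · exact absurd h hx'.2.2
    · exact ⟨0, h.symm⟩
    · exact ⟨1, by rw [Nat.mod_eq_of_lt (by omega), g1, h]⟩
  · have hi := hlt i
    have hs : (i + 1) % (n + 1 + 2) = (i % (n + 1 + 2) + 1) % (n + 1 + 2) := by simp
    rw [hs]
    rcases cases3 (i % (n + 1 + 2)) with h | h | ⟨r, h⟩ <;> rw [h]
    · exact ⟨0, by rw [Nat.mod_eq_of_lt (by omega)]; rfl, by simp⟩
    · obtain ⟨k, k1, k2⟩ := T.ret 0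
      rw [← he, ← ea] at k1 k2
      have k3 : M.φ (M.α (g 1)) = a := (h1 a).1
      refine ⟨k + 1, ?_, fun j hj => ?_⟩
      · rw [Nat.mod_eq_of_lt (by omega), iterate_succ_apply, k3, k1]; rfl
      · rw [iterate_succ_apply, k3, hH]
        rcases j with _ | j
        · exact Or.inr (Or.inr rfl)
        · exact Or.inl (k2 j (by omega))
    · obtain ⟨k, k1, k2⟩ := T.ret (r + 1)
      rw [g2]
      by_cases hr : r = n
      · have k3 : T.c (r + 1 + 1) = e := by rw [he, T.c_eq, hr]; simp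
        rw [k3] at k1
        refine ⟨k + 1, ?_, fun j hj => ?_⟩
        · rw [iterate_succ_apply', k1, hr, show n + 2 + 1 = n + 1 + 2 by ring, Nat.mod_self, g0,
            tree_φ, ea]
        · rw [hH]
          rcases Nat.lt_succ_iff_lt_or_eq.1 hj with hj | rfl
          · exact Or.inl (k2 j hj)
          · exact Or.inr (Or.inl k1)
      · refine ⟨k, ?_, fun j hj => (hH _).2 (Or.inl (k2 j hj))⟩
        rw [Nat.mod_eq_of_lt (by omega), k1]; rfl
  · by_cases h : x ∈ T.S
    · rw [if_pos h]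
      exact ⟨(T.τ_path x h).1, fun y hy => (hH y).2 (Or.inl ((T.τ_path x h).2 y hy))⟩
    · rw [if_neg h]
      have k1 : M.gd.src x = M.gd.tgt e := by
        change _ = M.gd.src (M.α e)
        rw [← ea]
        rcases (hS x).1 hx with k | rfl | rfl | rfl
        · exact absurd k h
        · rfl
        · exact tree_src M a
        · exact (tree_src M _).trans (tree_src M a)
      refine ⟨k1 ▸ (T.τ_path e eS).1.append (M.gd.path_single e), fun y hy => (hH y).2 ?_⟩
      rcases List.mem_append.1 hy with k | k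
      · exact Or.inl ((T.τ_path e eS).2 y k)
      · exact Or.inr (Or.inl (List.mem_singleton.1 k))
  · by_cases h : x ∈ T.S
    · rw [if_pos h, if_pos ((T.S_ψ x).2 h), T.τ_ψ x h]
    · rw [if_neg h, if_neg fun k => h ((T.S_ψ x).1 k)]
  · have k2 : M.gd.ev (T.τ e ++ [e]) = M.gd.ev (T.τ e) * M.gd.val e :=
      (M.gd.ev_append (T.τ e) [e]).trans (congrArg _ (mul_one _))
    rcases (hH x).1 hx with h | h | h
    · rw [if_pos (T.H_S h), if_pos (T.H_S (T.H_α x h)), T.τ_H x h]
    · rw [h, ← ea, if_pos eS, if_neg ha]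
      exact k2.symm
    · rw [h, ae, if_pos eS, if_neg ha]
      have k1 : M.gd.val a = (M.gd.val e)⁻¹ := ea ▸ M.gd.val_inv e
      rw [k1, k2, mul_inv_cancel_right]
  · obtain ⟨l, l1, l2⟩ := T.near e eS
    rcases (hS x).1 hx with h | rfl | rfl | rfl
    · obtain ⟨m, m1, m2⟩ := T.near x h
      exact ⟨m, by omega, m2⟩
    · exact ⟨l ++ [true], by simp; omega, by simp [l2, ea]⟩
    · exact ⟨l ++ [true, false], by simp; omega, by simp [l2, ea]⟩
    · exact ⟨l ++ [true, false, false], by simp; omega, by simp [l2, ea]⟩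

theorem tree_all {M : CMap} (h1 : Cubic M) (h2 : Conn M) (d : M.D) (n : ℕ)
    (h3 : 3 * (n + 1) ≤ Fintype.card M.D) : Nonempty (Tree M d (n + 1)) := by
  induction n with
  | zero => exact tree_one h1 d
  | succ n ih =>
    obtain ⟨T⟩ := ih (by omega)
    by_cases h : ∀ e ∈ T.S, M.α e ∈ T.S
    · have k : ∀ e, e ∈ T.S := fun e => by
        have := h2 d e
        induction this with
        | refl => exact T.root
        | tail _ s ih' =>
          rcases s with rfl | ⟨-, rfl⟩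
          · rw [tree_φ, T.S_ψ]; exact h _ ih'
          · exact h _ ih'
      have := T.card
      rw [Finset.eq_univ_of_forall k, Finset.card_univ] at this
      omega
    · push Not at h
      obtain ⟨e, e1, e2⟩ := h
      obtain ⟨i, rfl⟩ := T.c_surj e e1 fun k => e2 (T.H_S (T.H_α e k))
      exact tree_step h1 (treeShift T i) (by simpa [treeShift] using e2)

theorem exists_tree {M : CMap} (h1 : Cubic M) (h2 : Conn M) (h3 : 42 ≤ Fintype.card M.D)
    (d : M.D) : Nonempty (Tree M d 14) := tree_all h1 h2 d 13 h3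

theorem tree_fold_inj (M : CMap) (l : List Bool) :
    Injective fun d => l.foldl (fun d b => bif b then M.α d else M.ψ d) d := by
  induction l with
  | nil => exact injective_id
  | cons b l ih =>
    intro x y h
    have := ih h
    cases b
    · exact M.ψ.injective this
    · exact M.α.injective this

theorem tree_deg : ∃ Δ : ℕ, 0 < Δ ∧ ∀ (M : CMap) (T : ∀ d, Tree M d 14) (d : M.D),
    {e | ¬ Disjoint (T d).S (T e).S}.ncard ≤ Δ := by
  classical
  have hf := List.finite_length_le Bool 42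
  refine ⟨42 * hf.toFinset.card + 1, by omega, fun M T d => ?_⟩
  have key : ∀ e, ¬ Disjoint (T d).S (T e).S → ∃ p ∈ (T d).S ×ˢ hf.toFinset,
      p.2.foldl (fun d b => bif b then M.α d else M.ψ d) e = p.1 := by
    intro e he
    obtain ⟨x, x1, x2⟩ := Finset.not_disjoint_iff.1 he
    obtain ⟨l, l1, l2⟩ := (T e).near x x2
    exact ⟨(x, l), Finset.mem_product.2 ⟨x1, hf.mem_toFinset.2 l1⟩, l2⟩
  choose! p p1 p2 using key
  have h := Set.ncard_le_ncard_of_injOn p
    (s := {e | ¬ Disjoint (T d).S (T e).S}) (fun e he => Finset.mem_coe.2 (p1 e he))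
    (fun a ha b hb e => tree_fold_inj M (p a).2 (by
      have k := p2 b hb
      rw [← e] at k
      exact (p2 a ha).trans k.symm))
  rw [Set.ncard_coe_finset, Finset.card_product, (T d).card] at h
  omega

theorem roots : ∃ s : ℕ, ∀ (M : CMap) (T : ∀ d, Tree M d 14), Big M s → ∃ ρ : Set M.D,
    (∀ d ∈ ρ, ∀ e ∈ ρ, d ≠ e → Disjoint (T d).S (T e).S) ∧ ∀ d, ∃ k < s, M.φ^[k] d ∈ ρ := by
  classical
  obtain ⟨Δ, hΔ, hd⟩ := tree_deg
  obtain ⟨s, hs⟩ : ∃ s, s = 4 * Δ := ⟨_, rfl⟩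
  have s0 : 0 < s := by omega
  refine ⟨3 * s, fun M T hb => ?_⟩
  obtain ⟨co⟩ := exists_coord M.φ
  have bb : ∀ d, co.base (co.base d) = co.base d := fun d => by
    rw [← util_base_iter co (co.base d) (co.pos d), co.iter]
  obtain ⟨f, f1, f2⟩ := indep_trans
    (ι := {d // co.pos d % s = 0 ∧ co.pos d + s ≤ minimalPeriod M.φ d})
    (fun i => Finset.univ.filter fun e => co.base e = co.base i.1 ∧ co.pos e / s = co.pos i.1 / s)
    (fun d e => ¬ Disjoint (T d).S (T e).S) (fun a b h k => h k.symm) Δ hΔ (hd M T)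
    (fun i => by
      have hp : ∀ k < s, co.pos (M.φ^[co.pos i.1 + k] (co.base i.1)) = co.pos i.1 + k :=
        fun k hk => by
          rw [(co.pos_iter i.1 _).2.2.2.2, Nat.mod_eq_of_lt (by have := i.2.2; omega)]
      refine le_trans (hs.symm.trans (Finset.card_range s).symm).le
        (Finset.card_le_card_of_injOn (fun k => M.φ^[co.pos i.1 + k] (co.base i.1))
          (fun k hk => ?_) fun k hk l hl e => ?_)
      · have hk := Finset.mem_range.1 hk
        refine Finset.mem_filter.2 ⟨Finset.mem_univ _, by rw [util_base_iter, bb], ?_⟩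
        rw [hp k hk, Nat.add_div_of_dvd_right (Nat.dvd_of_mod_eq_zero i.2.1),
          Nat.div_eq_of_lt hk, add_zero]
      · have := congrArg co.pos e
        rw [hp k (Finset.mem_range.1 hk), hp l (Finset.mem_range.1 hl)] at this
        omega)
    (fun i j hij => Finset.disjoint_left.2 fun e hi hj => hij (Subtype.ext (by
      obtain ⟨i1, i2⟩ := (Finset.mem_filter.1 hi).2
      obtain ⟨j1, j2⟩ := (Finset.mem_filter.1 hj).2
      have k1 := Nat.div_add_mod (co.pos i.1) s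
      have k2 := Nat.div_add_mod (co.pos j.1) s
      rw [i.2.1, ← i2] at k1
      rw [j.2.1, ← j2] at k2
      rw [← co.iter i.1, ← co.iter j.1, ← i1, ← j1, ← k1, ← k2])))
  refine ⟨Set.range f, ?_, fun d => ?_⟩
  · rintro _ ⟨i, rfl⟩ _ ⟨j, rfl⟩ h
    exact not_not.1 (f2 i j fun e => h (e ▸ rfl))
  have arc : ∀ q, q * s + s ≤ minimalPeriod M.φ d → ∃ m, q * s ≤ m ∧ m < q * s + s ∧
      M.φ^[m] (co.base d) ∈ Set.range f := by
    intro q hq
    have k1 : co.pos (M.φ^[q * s] (co.base d)) = q * s := by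
      rw [(co.pos_iter d _).2.2.2.2, Nat.mod_eq_of_lt (by omega)]
    have k2 : minimalPeriod M.φ (M.φ^[q * s] (co.base d)) = minimalPeriod M.φ d := by
      rw [(co.pos_iter _ _).2.2.1, (co.pos_iter d 0).2.2.2.1]
    obtain ⟨x, hx, x1, x2⟩ : ∃ x ∈ Set.range f, co.base x = co.base d ∧ co.pos x / s = q := by
      obtain ⟨y1, y2⟩ := (Finset.mem_filter.1 (f1 ⟨M.φ^[q * s] (co.base d), by
        rw [k1, k2]; exact ⟨Nat.mul_mod_left _ _, hq⟩⟩)).2
      exact ⟨_, ⟨_, rfl⟩, by rw [y1, util_base_iter, bb],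
        by rw [y2, k1, Nat.mul_div_cancel _ s0]⟩
    have k3 := Nat.div_add_mod (co.pos x) s
    have k4 := Nat.mod_lt (co.pos x) s0
    rw [x2, mul_comm] at k3
    exact ⟨co.pos x, by omega, by omega, by rwa [← x1, co.iter]⟩
  have hP := hb d
  have hp := co.pos_lt d
  have k3 := Nat.div_add_mod (co.pos d) s
  have k4 := Nat.mod_lt (co.pos d) s0
  rw [mul_comm] at k3
  have hit : ∀ k, M.φ^[k] d = M.φ^[k + co.pos d] (co.base d) := fun k => by
    rw [iterate_add_apply, co.iter]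
  by_cases h : (co.pos d / s + 1) * s + s ≤ minimalPeriod M.φ d
  · obtain ⟨m, m1, m2, m3⟩ := arc _ h
    rw [add_mul, one_mul] at m1 m2
    exact ⟨m - co.pos d, by omega, by rwa [hit, Nat.sub_add_cancel (by omega)]⟩
  · obtain ⟨m, -, m2, m3⟩ := arc 0 (by omega)
    rw [add_mul, one_mul] at h
    refine ⟨m + minimalPeriod M.φ d - co.pos d, by omega, ?_⟩
    rwa [hit, Nat.sub_add_cancel (by omega), ← (co.pos_iter d 0).2.2.2.1,
      iterate_add_minimalPeriod_eq]

end Pool.Agent.MC.VB
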