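import Pool.Agent.P.MP_2677b3_gt.VbDefs

/-! The slits of a balanced assignment. -/

open Equiv Function

namespace Pool.Agent.MC.VB

open LL

theorem slit_succ {D : Type} (f : D → D) (d : D) (n : ℕ) :
    orbL f d (n + 1) = orbL f d n ++ [f^[n] d] := by
  simp [orbL, List.range_succ]

theorem slit_path (M : CMap) (d : M.D) (k : ℕ) :
    M.gd.Path (M.gd.src d) (orbL M.φ d k) (M.gd.src (M.φ^[k] d)) := by
  induction k with
  | zero => exact rfl
  | succ k ih =>
    rw [slit_succ, iterate_succ_apply']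
    refine ih.append ⟨rfl, ?_⟩
    refine Quotient.sound (s := Perm.SameCycle.setoid M.ψ) (a := M.α (M.φ^[k] d))
      (b := M.φ (M.φ^[k] d)) ⟨1, ?_⟩
    rw [zpow_one, CMap.ψ, Perm.mul_apply, M.αα]

namespace Asg

variable {M : CMap} (A : Asg M)

theorem slit_pos (e : M.D) : 0 < A.len e := lenT_pos _ _ (A.idx_lt _)

theorem slit_lt (x : A.X) (h : x.1.2 + 1 < A.len x.1.1) : (A.nu x).1 = (x.1.1, x.1.2 + 1) := by
  rw [nu, dif_pos h]

theorem slit_eq (x : A.X) (h : x.1.2 + 1 = A.len x.1.1) : (A.nu x).1 = (M.φ x.1.1, 0) := by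
  rw [nu, dif_neg (by omega)]

theorem slit_crs_succ (x : A.X) (n : ℕ) : A.crs x (n + 1) = A.crs x n ++
    if (A.nu^[n] x).1.2 + 1 = A.len (A.nu^[n] x).1.1 then [(A.nu^[n] x).1.1] else [] := by
  rw [crs, slit_succ, List.flatMap_append, List.flatMap_singleton, crs]

theorem slit_crs (x : A.X) (n : ℕ) :
    ∃ k, A.crs x n = orbL M.φ x.1.1 k ∧ (A.nu^[n] x).1.1 = M.φ^[k] x.1.1 := by
  induction n with
  | zero => exact ⟨0, rfl, rfl⟩
  | succ n ih =>
    obtain ⟨k, h1, h2⟩ := ih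
    by_cases h : (A.nu^[n] x).1.2 + 1 = A.len (A.nu^[n] x).1.1
    · refine ⟨k + 1, ?_, ?_⟩
      · rw [slit_crs_succ, if_pos h, h1, h2, slit_succ]
      · rw [iterate_succ_apply', A.slit_eq _ h, h2, iterate_succ_apply']
    · refine ⟨k, ?_, ?_⟩
      · rw [slit_crs_succ, if_neg h, h1, List.append_nil]
      · have h3 := (A.nu^[n] x).2
        rw [iterate_succ_apply', A.slit_lt _ (by omega), h2]

theorem crs_path {M : CMap} (A : Asg M) (x : A.X) (n : ℕ) :
    M.gd.Path (M.gd.src x.1.1) (A.crs x n) (M.gd.src (A.nu^[n] x).1.1) ∧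
      (A.nu^[n] x = x → M.gd.ev (A.crs x n) = 1) := by
  obtain ⟨k, h1, h2⟩ := A.slit_crs x n
  rw [h1]
  refine ⟨h2 ▸ slit_path M _ k, fun h => ?_⟩
  rw [h] at h2
  exact pres_rel ⟨x.1.1, k, h2.symm, rfl⟩

/-- The number of steps along the first `k` sides. -/
def slitS (e : M.D) (k : ℕ) : ℕ := ∑ i ∈ Finset.range k, A.len (M.φ^[i] e)

theorem slitS_succ (e : M.D) (k : ℕ) : A.slitS e (k + 1) = A.slitS e k + A.len (M.φ^[k] e) :=
  Finset.sum_range_succ _ _

theorem slitS_mono (e : M.D) : StrictMono (A.slitS e) :=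
  strictMono_nat_of_lt_succ fun k => by
    have := A.slit_pos (M.φ^[k] e)
    rw [slitS_succ]
    omega

theorem slit_step (x : A.X) (n : ℕ) (e : M.D) (h : (A.nu^[n] x).1 = (e, 0)) (j : ℕ)
    (hj : j < A.len e) : (A.nu^[n + j] x).1 = (e, j) ∧ A.crs x (n + j) = A.crs x n := by
  induction j with
  | zero => exact ⟨h, rfl⟩
  | succ j ih =>
    obtain ⟨h1, h2⟩ := ih (by omega)
    constructor
    · rw [← add_assoc, iterate_succ_apply', A.slit_lt _ (by rw [h1]; exact hj), h1]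
    · rw [← add_assoc, slit_crs_succ, h1, if_neg hj.ne, h2, List.append_nil]

theorem slit_sum (x : A.X) (hx : x.1.2 = 0) (k : ℕ) :
    A.crs x (A.slitS x.1.1 k) = orbL M.φ x.1.1 k ∧
      (A.nu^[A.slitS x.1.1 k] x).1 = (M.φ^[k] x.1.1, 0) := by
  induction k with
  | zero => exact ⟨rfl, Prod.ext rfl hx⟩
  | succ k ih =>
    obtain ⟨h1, h2⟩ := ih
    obtain ⟨j, hj⟩ : ∃ j, A.len (M.φ^[k] x.1.1) = j + 1 :=
      Nat.exists_eq_succ_of_ne_zero (A.slit_pos _).ne'
    obtain ⟨h3, h4⟩ := A.slit_step x _ _ h2 j (by omega)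
    rw [slitS_succ, hj, ← add_assoc]
    constructor
    · rw [slit_crs_succ, h3, if_pos hj.symm, h4, h1, slit_succ]
    · rw [iterate_succ_apply', A.slit_eq _ (by rw [h3]; exact hj.symm), h3, iterate_succ_apply']

theorem crs_orb {M : CMap} (A : Asg M) (x : A.X) (hx : x.1.2 = 0) (n : ℕ) :
    ∃ m, A.crs x m = orbL M.φ x.1.1 n ∧ (A.nu^[m] x).1 = (M.φ^[n] x.1.1, 0) :=
  ⟨_, A.slit_sum x hx n⟩

theorem slit_at (x : A.X) (hx : x.1.2 = 0) (k j : ℕ) (hj : j < A.len (M.φ^[k] x.1.1)) :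
    (A.nu^[A.slitS x.1.1 k + j] x).1 = (M.φ^[k] x.1.1, j) :=
  (A.slit_step x _ _ (A.slit_sum x hx k).2 j hj).1

theorem slit_dec (e : M.D) (i : ℕ) : ∃ k j, j < A.len (M.φ^[k] e) ∧ i = A.slitS e k + j := by
  induction i with
  | zero => exact ⟨0, 0, A.slit_pos _, rfl⟩
  | succ i ih =>
    obtain ⟨k, j, h1, h2⟩ := ih
    by_cases h : j + 1 < A.len (M.φ^[k] e)
    · exact ⟨k, j + 1, h, by omega⟩
    · exact ⟨k + 1, 0, A.slit_pos _, by rw [slitS_succ]; omega⟩

theorem slit_inj : Injective A.nu := by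
  intro x y h
  have h0 : (A.nu x).1 = (A.nu y).1 := by rw [h]
  have hx := x.2
  have hy := y.2
  apply Subtype.ext
  by_cases h1 : x.1.2 + 1 < A.len x.1.1 <;> by_cases h2 : y.1.2 + 1 < A.len y.1.1
  · rw [A.slit_lt x h1, A.slit_lt y h2, Prod.mk.injEq] at h0
    exact Prod.ext h0.1 (by omega)
  · rw [A.slit_lt x h1, A.slit_eq y (by omega), Prod.mk.injEq] at h0
    omega
  · rw [A.slit_eq x (by omega), A.slit_lt y h2, Prod.mk.injEq] at h0
    omega
  · rw [A.slit_eq x (by omega), A.slit_eq y (by omega), Prod.mk.injEq] at h0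
    have h3 := M.φ.injective h0.1
    rw [h3] at hx h1
    exact Prod.ext h3 (by omega)

theorem slit_fin : Finite A.X := by
  have h : Finite (Σ e : M.D, Fin (A.len e)) := inferInstance
  refine Finite.of_surjective (α := Σ e : M.D, Fin (A.len e))
    (fun p => (⟨(p.1, p.2.1), p.2.2⟩ : A.X)) ?_
  intro x
  exact ⟨⟨x.1.1, ⟨x.1.2, x.2⟩⟩, rfl⟩

end Asg

theorem slit_of_asg {M : CMap} (A : Asg M) : ∃ ν : Perm A.X, ⇑ν = A.nu ∧ Slit ν A.tip := by
  have hf := A.slit_fin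
  refine ⟨Equiv.ofBijective A.nu (Finite.injective_iff_bijective.1 A.slit_inj), rfl, fun x => ?_⟩
  set ν : Perm A.X := Equiv.ofBijective A.nu (Finite.injective_iff_bijective.1 A.slit_inj) with hν
  have hc : ⇑ν = A.nu := rfl
  obtain ⟨τ, p, q, h1, hp, hq, h2, h3, h4⟩ := A.bal x.1.1
  change ∀ i < p + q, A.len (M.φ^[i] τ) = 1 ↔ i = 0 ∨ i = p at h3
  change ∑ i ∈ Finset.range p, A.len (M.φ^[i + 1] τ) =
    ∑ i ∈ Finset.range q, A.len (M.φ^[p + i + 1] τ) at h4
  have hper : M.φ^[p + q] τ = τ := by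
    rw [h2]
    exact iterate_minimalPeriod
  have t0 : A.len (M.φ^[0] τ) = 1 := (h3 0 (by omega)).2 (Or.inl rfl)
  have tp : A.len (M.φ^[p] τ) = 1 := (h3 p (by omega)).2 (Or.inr rfl)
  have tq : A.len (M.φ^[p + q] τ) = 1 := by
    rw [hper]
    exact t0
  have hS : A.slitS τ (p + q) = 2 * A.slitS τ p := by
    have e1 := Finset.sum_range_succ' (fun i => A.len (M.φ^[i] τ)) p
    have e2 := Finset.sum_range_succ (fun i => A.len (M.φ^[i] τ)) p
    have e3 := Finset.sum_range_succ' (fun i => A.len (M.φ^[p + i] τ)) q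
    have e4 := Finset.sum_range_succ (fun i => A.len (M.φ^[p + i] τ)) q
    have e5 := Finset.sum_range_add (fun i => A.len (M.φ^[i] τ)) p q
    simp only [← add_assoc, add_zero] at e3
    rw [Asg.slitS, Asg.slitS]
    omega
  have hm := A.slitS_mono τ
  have h0 : A.slitS τ 0 = 0 := rfl
  have hL : 0 < A.slitS τ p := h0 ▸ hm hp
  let t : A.X := ⟨(τ, 0), A.slit_pos τ⟩
  have hat : ∀ k j, j < A.len (M.φ^[k] τ) → (A.nu^[A.slitS τ k + j] t).1 = (M.φ^[k] τ, j) :=
    A.slit_at t rfl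
  have hlt : ∀ k j, A.slitS τ k + j < 2 * A.slitS τ p → k < p + q := fun k j h =>
    hm.lt_iff_lt.1 (by omega)
  refine ⟨t, A.slitS τ p, ?_, hL, ?_, fun i hi => ?_⟩
  · obtain ⟨k, hk⟩ := h1.symm.exists_nat_pow_eq
    rw [Perm.coe_pow] at hk
    refine Perm.SameCycle.symm ⟨(A.slitS τ k + x.1.2 : ℕ), ?_⟩
    rw [zpow_natCast, Perm.coe_pow, hc]
    apply Subtype.ext
    rw [hat k _ (by rw [hk]; exact x.2), hk]
  · rw [hc]
    have hP : IsPeriodicPt A.nu (2 * A.slitS τ p) t := by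
      apply Subtype.ext
      have := hat (p + q) 0 (A.slit_pos _)
      rw [add_zero, hS, hper] at this
      exact this
    refine le_antisymm (hP.minimalPeriod_le (by omega)) (not_lt.1 fun h => ?_)
    have h5 := hP.minimalPeriod_pos (by omega)
    have h6 : A.nu^[minimalPeriod A.nu t] t = t := iterate_minimalPeriod
    obtain ⟨k, j, hj, e⟩ := A.slit_dec τ (minimalPeriod A.nu t)
    have h7 := hat k j hj
    rw [← e, h6] at h7
    have h8 : τ = M.φ^[k] τ := congrArg Prod.fst h7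
    have h9 : 0 = j := congrArg Prod.snd h7
    have hk := hlt k j (e ▸ h)
    rcases Nat.eq_zero_or_pos k with rfl | hk0
    · omega
    · have := IsPeriodicPt.minimalPeriod_le (f := M.φ) (x := τ) hk0 h8.symm
      omega
  · obtain ⟨k, j, hj, rfl⟩ := A.slit_dec τ i
    have hk := hlt k j hi
    have h5 := A.slitS_succ τ k
    rw [hc, Asg.tip, hat k j hj, h3 k hk]
    constructor
    · rintro (rfl | rfl)
      · omega
      · omega
    · rintro (h | h)
      · exact Or.inl (Nat.le_zero.1 (hm.le_iff_le.1 (by omega)))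
      · have a1 : k ≤ p := hm.le_iff_le.1 (by omega)
        have a2 : p < k + 1 := hm.lt_iff_lt.1 (by omega)
        omega

end Pool.Agent.MC.VB
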