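import Pool.Agent.P.MP_2677b3_gt.VbDefs

/-! The reflection of a slit. -/

open Equiv Function

namespace Pool.Agent.MC.VB

open LL

theorem zeta_snoc {X Γ : Type} [Monoid Γ] (f : X → X) (β : X → Γ) (x : X) (n : ℕ) :
    ((orbL f x (n + 1)).map β).prod = ((orbL f x n).map β).prod * β (f^[n] x) := by
  simp [orbL, List.range_succ]

theorem zeta_add {X Γ : Type} [Monoid Γ] (f : X → X) (β : X → Γ) (x : X) (a b : ℕ) :
    ((orbL f x (a + b)).map β).prod =
      ((orbL f x a).map β).prod * ((orbL f (f^[a] x) b).map β).prod := by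
  induction b with
  | zero => simp [orbL]
  | succ b ih =>
    rw [← add_assoc, zeta_snoc, zeta_snoc, ih, mul_assoc, add_comm a b, iterate_add_apply]

theorem zeta_cons {X Γ : Type} [Monoid Γ] (f : X → X) (β : X → Γ) (x : X) (n : ℕ) :
    ((orbL f x (n + 1)).map β).prod = β x * ((orbL f (f x) n).map β).prod := by
  rw [add_comm, zeta_add]
  simp [orbL]

/-- Every point is reached from a tip of its cycle in fewer than `2 L` steps. -/
theorem zeta_pos {X : Type} [Finite X] {ν : Perm X} {x t : X} {P : ℕ} (h : ν.SameCycle x t)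
    (hP : 0 < P) (hm : minimalPeriod ν t = P) : ∃ i < P, ν^[i] t = x := by
  obtain ⟨i, hi⟩ := h.symm.exists_nat_pow_eq
  refine ⟨i % P, Nat.mod_lt _ hP, ?_⟩
  rw [← hm, iterate_mod_minimalPeriod_eq, ← hi, Perm.coe_pow]

theorem zeta_refl {X : Type} [Finite X] {ν : Perm X} {tip : X → Prop} (h : Slit ν tip) :
    ∃ ζ : X → X, (∀ x, ζ (ζ x) = x) ∧ (∀ x, ν (ζ (ν x)) = ζ x) ∧ (∀ x, tip x → ζ x = ν x) ∧
      ∀ x, ν.SameCycle x (ζ x) := by
  choose τ L h1 h2 h3 h4 using h
  let r : X → X := fun x => (Quotient.mk (Perm.SameCycle.setoid ν) x).out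
  have r1 : ∀ x, ν.SameCycle (r x) x := fun x =>
    Quotient.mk_out (s := Perm.SameCycle.setoid ν) x
  have r2 : ∀ x y, ν.SameCycle x y → r x = r y := fun x y e =>
    congrArg Quotient.out (Quotient.sound (s := Perm.SameCycle.setoid ν) e)
  have s1 : ∀ x, ∃ j : ℤ, (ν ^ j) (τ (r x)) = x := fun x => (h1 (r x)).symm.trans (r1 x)
  choose j hj using s1
  have ad : ∀ (a b : ℤ) (y : X), (ν ^ a) ((ν ^ b) y) = (ν ^ (a + b)) y := fun a b y => by
    rw [zpow_add, Perm.mul_apply]
  have key : ∀ (x y : X) (k : ℤ), (ν ^ k) (τ (r x)) = y →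
      (ν ^ (1 - j y)) (τ (r y)) = (ν ^ (1 - k)) (τ (r x)) := by
    intro x y k e
    have e1 : r y = r x := r2 _ _ ((Perm.SameCycle.symm ⟨k, e⟩).trans
      ((h1 (r x)).symm.trans (r1 x)))
    have e2 := hj y
    rw [e1] at e2 ⊢
    calc _ = (ν ^ (1 - j y - k)) ((ν ^ k) (τ (r x))) := by rw [ad]; congr 2; ring
      _ = (ν ^ (1 - j y - k)) ((ν ^ j y) (τ (r x))) := by rw [e, e2]
      _ = _ := by rw [ad]; congr 2; ring
  refine ⟨fun x => (ν ^ (1 - j x)) (τ (r x)), fun x => ?_, fun x => ?_, fun x hx => ?_,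
    fun x => ?_⟩
  · simp only []
    rw [key x _ _ rfl, sub_sub_cancel, hj]
  · have e : (ν ^ (1 + j x)) (τ (r x)) = ν x := by rw [← ad, hj, zpow_one]
    simp only []
    rw [key x _ _ e]
    calc _ = (ν ^ (1 : ℤ)) ((ν ^ (1 - (1 + j x))) (τ (r x))) := by rw [zpow_one]
      _ = _ := by rw [ad]; congr 2; ring
  · have hL := h2 (r x)
    obtain ⟨i, hi, e⟩ := zeta_pos ((r1 x).symm.trans (h1 (r x))) (by omega) (h3 (r x))
    have e' : (ν ^ (i : ℤ)) (τ (r x)) = x := by rw [zpow_natCast, Perm.coe_pow, e]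
    simp only []
    rw [key x x _ e']
    rcases (h4 (r x) i hi).1 (by rwa [e]) with rfl | rfl
    · rw [Nat.cast_zero, sub_zero, zpow_one]
      exact congrArg ν e
    · have p : (ν ^ ((2 * L (r x) : ℕ) : ℤ)) (τ (r x)) = τ (r x) := by
        rw [zpow_natCast, Perm.coe_pow, ← h3, iterate_minimalPeriod]
      calc _ = (ν ^ (1 - (L (r x) : ℤ))) ((ν ^ ((2 * L (r x) : ℕ) : ℤ)) (τ (r x))) := by rw [p]
        _ = (ν ^ (1 : ℤ)) ((ν ^ (L (r x) : ℤ)) (τ (r x))) := by
          rw [ad, ad]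
          congr 2
          push_cast
          ring
        _ = _ := by rw [e', zpow_one]
  · exact (Perm.SameCycle.symm ⟨_, hj x⟩).trans ⟨_, rfl⟩

theorem zeta_iter {X : Type} {ν : Perm X} {ζ : X → X} (h : ∀ x, ν (ζ (ν x)) = ζ x) (a : ℕ)
    (y : X) : ν^[a] (ζ (ν^[a] y)) = ζ y := by
  induction a with
  | zero => rfl
  | succ a ih => rw [iterate_succ_apply, iterate_succ_apply', h, ih]

theorem zeta_par {X : Type} {ν : X → X} {tip par : X → Prop}
    (h1 : ∀ x, ¬ tip x → (par (ν x) ↔ ¬ par x)) {t : X} (h2 : ¬ par (ν t)) {L : ℕ}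
    (h3 : ∀ i, 0 < i → i < L → ¬ tip (ν^[i] t)) (i : ℕ) (hi : i < L) :
    par (ν^[i + 1] t) ↔ i % 2 = 1 := by
  induction i with
  | zero => simpa using h2
  | succ i ih =>
    rw [iterate_succ_apply', h1 _ (h3 _ (by omega) hi), ih (by omega)]
    omega

theorem exists_zeta {X : Type} [Finite X] {ν : Perm X} {tip : X → Prop} (h : Slit ν tip) :
    ∃ ζ : X → X, (∀ x, ζ (ζ x) = x) ∧ (∀ x, ν (ζ (ν x)) = ζ x) ∧ (∀ x, tip x → ζ x = ν x) ∧
      (∀ x, ∃ a, ν^[a] x = ζ x) ∧
      (∀ par : X → Prop, (∀ x, ¬ tip x → (par (ν x) ↔ ¬ par x)) →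
        (∀ x, tip x → ¬ par x ∧ ¬ par (ν x)) →
        ∀ x, ¬ tip x → ¬ tip (ζ (ν x)) ∧ (par (ζ (ν x)) ↔ ¬ par x)) ∧
      ∀ (Γ : Type) [Group Γ] (β S : X → Γ), (∀ x, S x = β x * S (ν x) * β (ζ (ν x))) →
        (∀ x, tip x → S x = β x) → (∀ x, S (ζ x) = (S x)⁻¹) →
        (∀ x n, ν^[n] x = x → ((orbL ν x n).map β).prod = 1) ∧
          ∀ x a, ν^[a] x = ζ x → S x = ((orbL ν x a).map β).prod := by
  obtain ⟨ζ, z1, z2, z3, z4⟩ := zeta_refl h
  refine ⟨ζ, z1, z2, z3, fun x => ?_, fun par p1 p2 x hx => ?_, fun Γ _ β S s1 s2 s3 => ?_⟩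
  · obtain ⟨a, ha⟩ := (z4 x).exists_nat_pow_eq
    exact ⟨a, by rw [← ha, Perm.coe_pow]⟩
  · obtain ⟨t, L, h1, h2, h3, h4⟩ := h x
    obtain ⟨i, hi, rfl⟩ := zeta_pos h1 (by omega) h3
    have hp : ν^[2 * L] t = t := by rw [← h3, iterate_minimalPeriod]
    have t0 : tip t := (h4 0 (by omega)).2 (Or.inl rfl)
    have tL : tip (ν^[L] t) := (h4 L (by omega)).2 (Or.inr rfl)
    have hi' := mt (h4 i hi).2 hx
    have e : ζ (ν (ν^[i] t)) = ν^[2 * L - i] t := by
      have e1 := zeta_iter z2 (i + 1) t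
      rw [z3 t t0, iterate_succ_apply' ν i t, iterate_succ_apply'] at e1
      refine (ν.injective.iterate i) ((ν.injective e1).trans ?_)
      rw [← iterate_add_apply, show i + (2 * L - i) = 2 * L by omega, hp]
    have q1 : ∀ k, 0 < k → k ≤ L → (par (ν^[k] t) ↔ k % 2 = 0) := fun k k0 k1 => by
      have := zeta_par p1 (p2 t t0).2 (L := L)
        (fun i a b c => by have := (h4 i (by omega)).1 c; omega) (k - 1) (by omega)
      rw [show k - 1 + 1 = k by omega] at this
      rw [this]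
      omega
    have qL := mt (q1 L h2 le_rfl).2 (p2 _ tL).1
    have q2 : ∀ k, L < k → k ≤ 2 * L → (par (ν^[k] t) ↔ k % 2 = 1) := fun k k0 k1 => by
      have := zeta_par p1 (p2 _ tL).2 (L := L) (fun i a b c => by
        rw [← iterate_add_apply] at c
        have := (h4 _ (by omega)).1 c
        omega) (k - L - 1) (by omega)
      rw [← iterate_add_apply, show k - L - 1 + 1 + L = k by omega] at this
      rw [this]
      omega
    rw [e]
    refine ⟨fun c => by have := (h4 _ (by omega)).1 c; omega, ?_⟩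
    rcases lt_or_gt_of_ne (fun c : i = L => hi' (Or.inr c)) with c | c
    · rw [q1 i (by omega) c.le, q2 _ (by omega) (by omega)]
      omega
    · rw [q2 i c hi.le, q1 _ (by omega) (by omega)]
      omega
  · have hA : ∀ d x, tip (ν^[d] x) →
        S x = ((orbL ν x (2 * d + 1)).map β).prod ∧ ν^[2 * d + 1] x = ζ x := by
      intro d
      induction d with
      | zero => exact fun x hx => ⟨by simpa [orbL] using s2 x hx, (z3 x hx).symm⟩
      | succ d ih =>
        intro x hx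
        obtain ⟨a1, a2⟩ := ih (ν x) hx
        have a3 : ν^[2 * d + 1 + 1] x = ζ (ν x) := a2
        rw [show 2 * (d + 1) + 1 = 2 * d + 1 + 1 + 1 by ring]
        refine ⟨?_, by rw [iterate_succ_apply', a3, z2]⟩
        rw [zeta_snoc, zeta_cons, a3, ← a1]
        exact s1 x
    have hB : ∀ x n, ν^[n] x = x → ((orbL ν x n).map β).prod = 1 := by
      intro x n hn
      obtain ⟨t, L, h1, h2, h3, h4⟩ := h x
      have hp : ν^[2 * L] t = t := by rw [← h3, iterate_minimalPeriod]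
      have t0 : tip t := (h4 0 (by omega)).2 (Or.inl rfl)
      have tL : tip (ν^[L] t) := (h4 L (by omega)).2 (Or.inr rfl)
      have hq : ∀ k, ν^[2 * L] (ν^[k] t) = ν^[k] t := fun k => by
        rw [← iterate_add_apply, add_comm, iterate_add_apply, hp]
      have b1 : ∀ k, ((orbL ν (ν^[k + 1] t) (2 * L)).map β).prod = 1 := by
        intro k
        induction k with
        | zero =>
          obtain ⟨d, rfl⟩ : ∃ d, L = d + 1 := ⟨L - 1, by omega⟩
          have c1 := (hA d (ν t) tL).1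
          have c2 : ν^[2 * d + 1] (ν t) = t := hp
          show ((orbL ν (ν t) (2 * d + 1 + 1)).map β).prod = 1
          rw [zeta_snoc, ← c1, c2, ← z3 t t0, s3, s2 t t0, inv_mul_cancel]
        | succ k ih =>
          have c1 := zeta_cons ν β (ν^[k + 1] t) (2 * L)
          rw [zeta_snoc, ih, hq, one_mul] at c1
          rw [iterate_succ_apply']
          exact mul_left_cancel (c1.symm.trans (mul_one _).symm)
      obtain ⟨i, -, rfl⟩ := zeta_pos h1 (by omega) h3
      have b2 : ((orbL ν (ν^[i] t) (2 * L)).map β).prod = 1 := by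
        have := b1 (2 * L - 1 + i)
        rwa [show 2 * L - 1 + i + 1 = 2 * L + i by omega, iterate_add_apply, hq] at this
      have b3 : IsPeriodicPt ν n t := (ν.injective.iterate i) (by
        rw [← iterate_add_apply, add_comm, iterate_add_apply, hn])
      obtain ⟨k, rfl⟩ := h3 ▸ b3.minimalPeriod_dvd
      clear hn b3
      induction k with
      | zero => simp [orbL]
      | succ k ih => rw [Nat.mul_succ, add_comm, zeta_add, hq, b2, ih, one_mul]
    refine ⟨hB, fun x a ha => ?_⟩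
    obtain ⟨t, L, h1, h2, -, h4⟩ := h x
    obtain ⟨d, hd⟩ := h1.exists_nat_pow_eq
    rw [Perm.coe_pow] at hd
    obtain ⟨a1, a2⟩ := hA d x (hd ▸ (h4 0 (by omega)).2 (Or.inl rfl))
    have hC : ∀ a b, ν^[a] x = ζ x → ν^[a + b] x = ζ x →
        ((orbL ν x (a + b)).map β).prod = ((orbL ν x a).map β).prod := fun a b e1 e2 => by
      rw [zeta_add, hB _ b (by rw [← iterate_add_apply, add_comm, e1, e2]), mul_one]
    rw [a1]
    rcases le_total a (2 * d + 1) with c | c
    · obtain ⟨b, e⟩ := Nat.exists_eq_add_of_le c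
      rw [e] at a2 ⊢
      exact hC a b ha a2
    · obtain ⟨b, rfl⟩ := Nat.exists_eq_add_of_le c
      exact (hC _ b a2 ha).symm

end Pool.Agent.MC.VB
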