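import Pool.Agent.P.MP_2677b3_gt.VbZipA
import Pool.Agent.P.MP_2677b3_gt.VbZeta
import Pool.Agent.P.MP_2677b3_gt.VbSlit
import Pool.Agent.P.MP_2677b3_gt.VbData

/-! The map of the junctions is equivalent to the glued tiling. -/

open Equiv Function

noncomputable section

namespace Pool.Agent.MC.VB

open LL

namespace Zd

variable {M : CMap} (W : Zd M)

/-- The value of the edge that crosses a dart. -/
def χ (z : W.D) : W.Z.gd.U := W.Z.gd.val (z, none)

/-- The value of the turn at a dart. -/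
def σ (z : W.D) : W.Z.gd.U := W.Z.gd.val (z, some true)

theorem χ_af (z : W.D) : W.χ (W.af z) = (W.χ z)⁻¹ := W.Z.gd.val_inv (z, none)

theorem val_back (z : W.D) : W.Z.gd.val (z, some false) = (W.σ z)⁻¹ :=
  W.Z.gd.val_inv (z, some true)

theorem hep_rel (z : W.D) : ((List.range 7).map fun i => W.σ (W.sf^[i] z)).prod = 1 := by
  have h : W.Z.gd.ev (W.Z.hep z) = 1 := pres_rel ⟨z, .inl rfl⟩
  exact (congrArg List.prod (List.map_map (f := fun i => (W.Z.s^[i] z, some true))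
    (g := W.Z.gd.val) (l := List.range 7))).symm.trans h

theorem tri_eq (z : W.D) : W.Z.tri z = [(z, none), (W.af z, some true), (W.tf z, none),
    (W.af (W.tf z), some true), (W.tf (W.tf z), none), (W.af (W.tf (W.tf z)), some true)] := rfl

theorem tri_rel (z : W.D) : W.χ z * W.σ (W.af z) * (W.χ (W.tf z) * W.σ (W.af (W.tf z))) *
    (W.χ (W.tf (W.tf z)) * W.σ (W.af (W.tf (W.tf z)))) = 1 := by
  have h : W.Z.gd.ev (W.Z.tri z) = 1 := pres_rel ⟨z, .inr rfl⟩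
  rw [W.tri_eq] at h
  have h2 : W.χ z * (W.σ (W.af z) * (W.χ (W.tf z) * (W.σ (W.af (W.tf z)) *
      (W.χ (W.tf (W.tf z)) * (W.σ (W.af (W.tf (W.tf z))) * 1))))) = 1 := h
  simpa only [mul_one, mul_assoc] using h2

/-- The edge that crosses a dart. -/
def cx (z : W.D) : W.Z.gd.E := (z, none)

/-- An edge of the disc at `v`. -/
def ed (v : M.gd.V) (p : ℕ × Bool) : W.Z.gd.E := (W.mk' v p.1, bif p.2 then none else some true)

/-- The path from the base dart of a disc. -/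
def pz (z : W.D) : List W.Z.gd.E := (pl (W.pa z.1.1).a z.1.2).flatMap fun p => [W.ed z.1.1 p]

theorem sf_mk {v : M.gd.V} {y : ℕ} (h : y < (W.pa v).N) : W.sf (W.mk' v y) = W.mk' v (sx y) := by
  rw [W.mk_eq h, W.mk_eq ((W.pa v).ok.sx_lt h).1]; rfl

theorem sf_iter_mk {v : M.gd.V} {y : ℕ} (h : y < (W.pa v).N) (i : ℕ) :
    sx^[i] y < (W.pa v).N ∧ W.sf^[i] (W.mk' v y) = W.mk' v (sx^[i] y) := by
  induction i with
  | zero => exact ⟨h, rfl⟩
  | succ i ih =>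
    rw [iterate_succ_apply', iterate_succ_apply', ih.2]
    exact ⟨((W.pa v).ok.sx_lt ih.1).1, W.sf_mk ih.1⟩

theorem pz_path (z : W.D) : W.Z.gd.Path (W.mk' z.1.1 0) (W.pz z) z := by
  obtain ⟨-, h1, h2⟩ := (W.pa z.1.1).ok.walk z.2
  have := IsPath.flatMap (s' := W.Z.gd.src) (t' := W.Z.gd.tgt) (W.mk' z.1.1)
    (fun p => [W.ed z.1.1 p]) (fun p hp => ?_) h1
  · rwa [W.mk_self] at this
  obtain ⟨a1, a2⟩ := h2 p hp
  obtain ⟨y, _ | _⟩ := p
  · exact ⟨rfl, W.sf_mk a1⟩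
  · exact ⟨rfl, (W.tf_mk a1 (a2 rfl).2.2.ne').2.1⟩

theorem pz_len (z : W.D) : (W.pz z).length ≤ 294 := by
  have h1 := ((W.pa z.1.1).ok.walk z.2).1
  have h2 := length_flatMap_le (pl (W.pa z.1.1).a z.1.2) (fun p => [W.ed z.1.1 p]) 1
    fun _ _ => le_rfl
  have h3 := z.2.trans_le (W.small _)
  exact h2.trans (by omega)

theorem pz_mem {z : W.D} {b : W.D × Option Bool} (h : b ∈ W.pz z) :
    b.1.1.1 = z.1.1 ∧ (b.2 = none → W.Inn b.1) := by
  obtain ⟨p, hp, hb⟩ := List.mem_flatMap.1 h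
  obtain rfl := List.mem_singleton.1 hb
  obtain ⟨a1, a2⟩ := ((W.pa z.1.1).ok.walk z.2).2.2 p hp
  refine ⟨W.mk_v _ _, fun h0 => W.inn_mk a1 (a2 ?_).2.2.ne'⟩
  obtain ⟨y, _ | _⟩ := p
  · cases h0
  · rfl

theorem rev_mem {z : W.D} {b : W.D × Option Bool} (h : b ∈ W.Z.gd.rev (W.pz z)) :
    b.1.1.1 = z.1.1 ∧ (b.2 = none → W.Inn b.1) := by
  obtain ⟨c, hc, rfl⟩ := List.mem_map.1 (List.mem_reverse.1 h)
  obtain ⟨h1, h2⟩ := W.pz_mem hc
  obtain ⟨y, _ | o⟩ := c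
  · exact ⟨(congrArg Prod.fst (W.af_inn (h2 rfl)) :).trans h1, fun _ => (W.inn_af (h2 rfl)).1⟩
  · exact ⟨h1, fun h0 => by cases h0⟩

/-- The value of the path from the base dart. -/
def pp (z : W.D) : W.Z.gd.U := W.Z.gd.ev (W.pz z)

theorem pp_mk {v : M.gd.V} {y : ℕ} (h : y < (W.pa v).N) : W.pp (W.mk' v y) =
    pv (W.pa v).a (fun y => W.χ (W.mk' v y)) (fun y => W.σ (W.mk' v y)) y := by
  rw [W.mk_eq h]
  refine (W.Z.gd.ev_flatMap _ _).trans (congrArg List.prod (List.map_congr_left fun p _ => ?_))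
  obtain ⟨x, _ | _⟩ := p <;> exact mul_one _

theorem gauge (z : W.D) : W.pp z * W.σ z = W.pp (W.sf z) ∧
    (W.Inn z → W.pp z * W.χ z * (W.pp (W.af z))⁻¹ = 1) := by
  obtain ⟨⟨v, y⟩, hy⟩ := z
  dsimp only at hy
  obtain ⟨h1, h2⟩ := (W.pa v).ok.collapse (fun y => W.χ (W.mk' v y)) (fun y => W.σ (W.mk' v y))
    (fun x hx hn => by rw [← (W.tf_mk hx hn).2.1, W.χ_af])
    (fun x hx => by
      rw [← W.hep_rel (W.mk' v x)]
      exact congrArg List.prod (List.map_congr_left fun i _ => by rw [(W.sf_iter_mk hx i).2]))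
    (fun x hx ⟨c1, c2, c3, _⟩ => by
      obtain ⟨a1, a2, a3⟩ := W.tf_mk hx c1
      obtain ⟨b1, b2, b3⟩ := W.tf_mk a1 c2
      obtain ⟨-, d2, -⟩ := W.tf_mk b1 c3
      have := W.tri_rel (W.mk' v x)
      rwa [a2, a3, b2, b3, d2] at this)
  rw [← W.mk_eq hy]
  refine ⟨by rw [W.sf_mk hy, W.pp_mk hy, W.pp_mk ((W.pa v).ok.sx_lt hy).1]; exact h1 y hy,
    fun h => ?_⟩
  have h3 : (W.pa v).a y ≠ y := by rw [W.mk_eq hy] at h; exact h
  rw [(W.tf_mk hy h3).2.1, W.pp_mk hy, W.pp_mk ((W.pa v).ok.a_lt y hy).1, h2 y hy h3,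
    (W.pa v).triv]
  rfl

/-- The value of a crossing in the gauge of the discs. -/
def Φ (z : W.D) : W.Z.gd.U := W.pp z * W.χ z * (W.pp (W.af z))⁻¹

theorem Φ_inn {z : W.D} (h : W.Inn z) : W.Φ z = 1 := (W.gauge z).2 h

theorem Φ_af (z : W.D) : W.Φ (W.af z) = (W.Φ z)⁻¹ := by
  rw [Φ, Φ, W.af_af, W.χ_af]; group

theorem Φ_tri (z : W.D) : W.Φ z * W.Φ (W.tf z) * W.Φ (W.tf (W.tf z)) = 1 := by
  have h : ∀ z, W.Φ z = W.pp z * (W.χ z * W.σ (W.af z)) * (W.pp (W.tf z))⁻¹ := fun z => by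
    rw [Φ, tf, ← (W.gauge (W.af z)).1]; group
  have h1 := W.tri_rel z
  rw [h, h, h, W.tf_three]
  calc _ = W.pp z * (W.χ z * W.σ (W.af z) * (W.χ (W.tf z) * W.σ (W.af (W.tf z))) *
      (W.χ (W.tf (W.tf z)) * W.σ (W.af (W.tf (W.tf z))))) * (W.pp z)⁻¹ := by group
    _ = 1 := by rw [h1]; group

open Classical in
/-- The value of the bridge after a slit dart. -/
def β (x : W.A.X) : W.Z.gd.U := if W.A.last x then W.Φ (W.br x.1.1) else 1

theorem S_inv (x : W.A.X) : W.Φ (W.sl (W.ζ x)) = (W.Φ (W.sl x))⁻¹ := by rw [← W.af_sl, W.Φ_af]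

theorem S_tip {x : W.A.X} (h : W.A.tip x) : W.Φ (W.sl x) = W.β x := by
  obtain ⟨b1, b2, b3, -⟩ := W.tri_tip h
  have h1 := W.Φ_tri (W.sl (W.A.nu x))
  rw [b1, b3, W.Φ_inn b2, ← W.ζ_tip x h, W.S_inv, mul_one, inv_mul_eq_one] at h1
  rw [h1, β, if_pos (W.tip_last h).1]

theorem S_out {x : W.A.X} (h : ¬ W.A.tip x) (h0 : ¬ x.1.2 % 2 = 1) : W.β x = 1 ∧
    W.Φ (W.sl x) = W.Φ (W.sl (W.A.nu x)) * W.β (W.ζ (W.A.nu x)) := by
  obtain ⟨b0, b1, b2, -, b3, b4⟩ := W.tri_out h h0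
  have h1 := W.Φ_tri (W.sl (W.ζ x))
  rw [b1, b2, W.S_inv, mul_assoc, inv_mul_eq_one] at h1
  refine ⟨if_neg b0, h1.trans (congrArg _ ?_)⟩
  by_cases h2 : W.A.last (W.ζ (W.A.nu x))
  · rw [b3 h2, β, if_pos h2]
  · rw [W.Φ_inn (b4 h2), β, if_neg h2]

theorem S_rec (x : W.A.X) :
    W.Φ (W.sl x) = W.β x * W.Φ (W.sl (W.A.nu x)) * W.β (W.ζ (W.A.nu x)) := by
  by_cases ht : W.A.tip x
  · rw [← W.ζ_tip x ht, W.S_inv, W.ζζ, W.S_tip ht]; group
  by_cases h0 : x.1.2 % 2 = 1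
  · obtain ⟨h3, h4⟩ := W.par x ht
    obtain ⟨b1, b2⟩ := W.S_out h3 fun h => h4.1 h h0
    rw [W.ζνζν, W.νζν, W.S_inv, W.S_inv] at b2
    rw [b1, mul_one, ← inv_inv (W.Φ (W.sl (W.A.nu x))), b2]; group
  · obtain ⟨b1, b2⟩ := W.S_out ht h0
    rw [b1, one_mul, b2]

/-- The image of an edge of the map. -/
def fe (e : M.D) : List W.Z.gd.E :=
  W.pz (W.br e) ++ [W.cx (W.br e)] ++ W.Z.gd.rev (W.pz (W.br (M.α e)))

theorem ev_fe (e : M.D) : W.Z.gd.ev (W.fe e) = W.Φ (W.br e) := by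
  rw [fe, Gd.ev_append, Gd.ev_append, Gd.ev_rev, Φ, W.af_br]
  exact congrArg (fun g => W.pp (W.br e) * g * (W.pp (W.br (M.α e)))⁻¹) (mul_one _)

theorem fe_path (e : M.D) :
    W.Z.gd.Path (W.mk' (sv M e) 0) (W.fe e) (W.mk' (sv M (M.α e)) 0) :=
  ((W.pz_path (W.br e)).append (show W.Z.gd.Path (W.br e) [W.cx (W.br e)] (W.br (M.α e)) from
    ⟨rfl, W.af_br e⟩)).append (W.pz_path (W.br (M.α e))).rev

theorem ev_crs (x : W.A.X) (n : ℕ) :
    W.Z.gd.ev ((W.A.crs x n).flatMap W.fe) = ((orbL W.A.nu x n).map W.β).prod := by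
  rw [Asg.crs, List.flatMap_assoc, Gd.ev_flatMap]
  refine congrArg List.prod (List.map_congr_left fun y _ => ?_)
  by_cases h : W.A.last y
  · rw [β, if_pos h, if_pos (show y.1.2 + 1 = _ from h), ← W.ev_fe]; simp
  · rw [β, if_neg h, if_neg (show ¬ y.1.2 + 1 = _ from h)]; rfl

theorem crs_add (x : W.A.X) (a b : ℕ) :
    W.A.crs x (a + b) = W.A.crs x a ++ W.A.crs (W.A.nu^[a] x) b := by
  unfold Asg.crs orbL
  rw [List.range_add, List.map_append, List.flatMap_append, List.map_map]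
  congr 2
  refine List.map_congr_left fun i _ => ?_
  rw [comp_apply, add_comm, iterate_add_apply]

theorem crs_one (x : W.A.X) :
    W.A.crs x 1 = if x.1.2 + 1 = W.A.len x.1.1 then [x.1.1] else [] := by
  simp [Asg.crs, orbL]

section

variable (a : W.A.X → ℕ)

open Classical in
/-- The image of a crossing. -/
def gz (z : W.D) : List M.D :=
  if W.Inn z then [] else if h : ∃ x, z = W.sl x then W.A.crs h.choose (a h.choose)
  else [W.A.dt z.1.1 ((W.pa z.1.1).cl z.1.2).1]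

theorem sl_inj {x y : W.A.X} (h : W.sl x = W.sl y) : x = y := by
  have h1 := W.sl_dt x
  have h2 := W.sl_cl x
  rw [h, W.sl_dt] at h1
  rw [h, W.sl_cl] at h2
  exact Subtype.ext (Prod.ext h1.symm (congrArg Prod.snd h2 :).symm)

theorem br_ne (e : M.D) (x : W.A.X) : W.br e ≠ W.sl x := fun h => by
  have h1 := W.br_dt e
  have h2 := W.br_cl e
  rw [h, W.sl_dt] at h1
  rw [h, W.sl_cl] at h2
  have h3 : x.1.2 = W.A.len e := congrArg Prod.snd h2
  have h4 := x.2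
  rw [h1] at h4
  omega

theorem gz_inn {z : W.D} (h : W.Inn z) : W.gz a z = [] := if_pos h

theorem gz_br (e : M.D) : W.gz a (W.br e) = [e] := by
  rw [gz, if_neg (W.br_inn e), dif_neg fun ⟨x, h⟩ => W.br_ne e x h, W.br_dt]

theorem gz_sl (x : W.A.X) : W.gz a (W.sl x) = W.A.crs x (a x) := by
  have h : ∃ y, W.sl x = W.sl y := ⟨x, rfl⟩
  rw [gz, if_neg (W.sl_inn x), dif_pos h, ← W.sl_inj h.choose_spec]

/-- The image of an edge of the tiling. -/
def ge (b : W.D × Option Bool) : List M.D :=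
  match b.2 with
  | none => W.gz a b.1
  | some _ => []

theorem ge_nil {l : List (W.D × Option Bool)} (h : ∀ b ∈ l, b.2 = none → W.Inn b.1) :
    l.flatMap (W.ge a) = [] := by
  refine List.flatMap_eq_nil_iff.2 fun b hb => ?_
  obtain ⟨z, _ | o⟩ := b
  · exact W.gz_inn a (h _ hb rfl)
  · rfl

variable {a} (ha : ∀ x, W.A.nu^[a x] x = W.ζ x)
include ha

theorem gz_path (z : W.D) : M.gd.Path z.1.1 (W.gz a z) (W.af z).1.1 := by
  rcases W.kinds z with h | ⟨e, rfl⟩ | ⟨x, rfl⟩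
  · rw [W.gz_inn a h, W.af_inn h]; rfl
  · rw [W.gz_br, W.af_br]; exact M.gd.path_single e
  · rw [W.gz_sl, W.af_sl, ← ha]; exact (W.A.crs_path x _).1

theorem gz_inv (z : W.D) : M.gd.ev (W.gz a (W.af z)) = (M.gd.ev (W.gz a z))⁻¹ := by
  rcases W.kinds z with h | ⟨e, rfl⟩ | ⟨x, rfl⟩
  · rw [W.gz_inn a h, W.gz_inn a (W.inn_af h).1]; exact inv_one.symm
  · rw [W.af_br, W.gz_br, W.gz_br]
    exact (mul_one _).trans ((M.gd.val_inv e).trans (congrArg _ (mul_one _).symm))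
  · have h := (W.A.crs_path x (a x + a (W.ζ x))).2 (by
      rw [add_comm, iterate_add_apply, ha, ha, W.ζζ])
    rw [W.crs_add, ha] at h
    rw [W.af_sl, W.gz_sl, W.gz_sl]
    exact eq_inv_of_mul_eq_one_right ((M.gd.ev_append _ _).symm.trans h)

theorem gz_tri (z : W.D) : M.gd.ev (W.gz a z) * M.gd.ev (W.gz a (W.tf z)) *
    M.gd.ev (W.gz a (W.tf (W.tf z))) = 1 := by
  have rot : ∀ z, M.gd.ev (W.gz a z) * M.gd.ev (W.gz a (W.tf z)) *
      M.gd.ev (W.gz a (W.tf (W.tf z))) = 1 → M.gd.ev (W.gz a (W.tf z)) *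
      M.gd.ev (W.gz a (W.tf (W.tf z))) * M.gd.ev (W.gz a (W.tf (W.tf (W.tf z)))) = 1 :=
    fun z h => by rw [W.tf_three, mul_eq_one_comm, ← mul_assoc, h]
  have key : ∀ x, W.A.tip x ∨ ¬ x.1.2 % 2 = 1 → M.gd.ev (W.gz a (W.sl (W.ζ x))) *
      M.gd.ev (W.gz a (W.tf (W.sl (W.ζ x)))) *
      M.gd.ev (W.gz a (W.tf (W.tf (W.sl (W.ζ x))))) = 1 := fun x h => by
    by_cases ht : W.A.tip x
    · obtain ⟨b1, b2, b3, -⟩ := W.tri_tip ht
      have h1 : W.A.nu^[a (W.A.nu x)] (W.A.nu x) = x := by rw [ha, ← W.ζ_tip x ht, W.ζζ]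
      have h2 := (W.A.crs_path (W.A.nu x) (a (W.A.nu x) + 1)).2 (by
        rw [iterate_succ_apply', h1])
      rw [W.crs_add, h1, W.crs_one, if_pos (show _ = _ from (W.tip_last ht).1)] at h2
      rw [W.ζ_tip x ht, b1, b3, W.gz_inn a b2, W.gz_sl, W.gz_br]
      exact (congrArg (· * _) (mul_one _)).trans ((M.gd.ev_append _ _).symm.trans h2)
    · obtain ⟨b0, b1, b2, -, b3, b4⟩ := W.tri_out ht (h.resolve_left ht)
      have h1 : W.A.nu^[a (W.ζ x)] (W.ζ x) = x := by rw [ha, W.ζζ]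
      have h2 := (W.A.crs_path (W.ζ x) (a (W.ζ x) + (1 + (a (W.A.nu x) + 1)))).2 (by
        rw [add_comm, iterate_add_apply, h1, add_comm, iterate_add_apply, iterate_succ_apply',
          iterate_one, ha, W.νζν])
      rw [W.crs_add, h1, W.crs_add, W.crs_add, iterate_one, ha, W.crs_one,
        if_neg (show ¬ _ = _ from b0), List.nil_append] at h2
      have h3 : W.gz a (W.sf (W.sl (W.ζ (W.A.nu x)))) = W.A.crs (W.ζ (W.A.nu x)) 1 := by
        rw [W.crs_one]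
        by_cases h4 : W.A.last (W.ζ (W.A.nu x))
        · rw [b3 h4, W.gz_br, if_pos (show _ = _ from h4)]
        · rw [W.gz_inn a (b4 h4), if_neg (show ¬ _ = _ from h4)]
      rw [b1, b2, h3, W.gz_sl, W.gz_sl, mul_assoc]
      exact (congrArg _ (M.gd.ev_append _ _).symm).trans ((M.gd.ev_append _ _).symm.trans h2)
  rcases W.cover_tri z with ⟨h1, h2, h3, -⟩ | ⟨x, h, rfl | rfl | rfl⟩
  · rw [W.gz_inn a h1, W.gz_inn a h2, W.gz_inn a h3]
    exact (mul_one _).trans (mul_one _)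
  · exact key x h
  · exact rot _ (key x h)
  · exact rot _ (rot _ (key x h))

/-- The map from the tiling to the map of the junctions. -/
def gm : Mp W.Z.gd M.gd :=
  Mp.ofPres (fun z : W.D => z.1.1) (W.ge a)
    (fun b => by
      obtain ⟨z, _ | _ | _⟩ := b
      · exact W.gz_path ha z
      · rfl
      · rfl)
    (fun b => by
      obtain ⟨z, _ | o⟩ := b
      · exact W.gz_inv ha z
      · exact inv_one.symm)
    (by
      rintro _ ⟨z, rfl | rfl⟩
      · rfl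
      · have h := W.gz_tri ha z
        refine Eq.trans ?_ h
        refine (congrArg M.gd.ev (?_ : _ = W.gz a z ++ W.gz a (W.tf z) ++
          W.gz a (W.tf (W.tf z)))).trans ((M.gd.ev_append _ _).trans
            (congrArg (· * _) (M.gd.ev_append _ _)))
        change W.gz a z ++ ([] ++ (W.gz a (W.tf z) ++ ([] ++ (W.gz a (W.tf (W.tf z)) ++
          ([] ++ []))))) = _
        simp only [List.nil_append, List.append_nil, List.append_assoc])

end

theorem fw {a : W.A.X → ℕ} (ha : ∀ x, W.A.nu^[a x] x = W.ζ x)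
    (h1 : ∀ x n, W.A.nu^[n] x = x → ((orbL W.A.nu x n).map W.β).prod = 1)
    (h2 : ∀ x n, W.A.nu^[n] x = W.ζ x → W.Φ (W.sl x) = ((orbL W.A.nu x n).map W.β).prod) :
    Fw (589 * 589 * 32) M.gd W.Z.gd := by
  let f : Mp M.gd W.Z.gd := Mp.ofPres (fun v => W.mk' v 0) W.fe W.fe_path
    (fun e => by rw [W.ev_fe, W.ev_fe, ← W.af_br, W.Φ_af])
    (by
      rintro _ ⟨e, n, hn, rfl⟩
      obtain ⟨m, b1, b2⟩ := W.A.crs_orb (W.A.mx e 0 (W.A.len_pos e)) rfl n
      rw [show orbL M.φ e n = _ from b1.symm, W.ev_crs]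
      exact h1 _ _ (Subtype.ext (b2.trans (Prod.ext hn rfl))))
  have hz : ∀ z, W.Z.gd.ev ((W.gz a z).flatMap W.fe) = W.Φ z := fun z => by
    rcases W.kinds z with h | ⟨e, rfl⟩ | ⟨x, rfl⟩
    · rw [W.gz_inn a h, W.Φ_inn h]; rfl
    · rw [W.gz_br, ← W.ev_fe]; simp
    · rw [W.gz_sl, W.ev_crs, h2 x _ (ha x)]
  refine ⟨f, W.gm ha, ⟨fun _ => [], fun v => (W.mk_v v 0).symm, fun e => ?_⟩,
    ⟨fun z => W.Z.gd.rev (W.pz z), fun z => (W.pz_path z).rev, fun b => ?_⟩,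
    f.en_of_bound 589 32 (fun e => ?_) fun b => ?_⟩
  · have h : (W.fe e).flatMap (W.ge a) = [e] := by
      have c1 := W.ge_nil a (l := W.pz (W.br e)) fun b hb => (W.pz_mem hb).2
      have c2 := W.ge_nil a (l := W.Z.gd.rev (W.pz (W.br (M.α e)))) fun b hb => (W.rev_mem hb).2
      have c3 : List.flatMap (W.ge a) [W.cx (W.br e)] = [e] :=
        (List.flatMap_singleton _ _).trans (W.gz_br a e)
      exact (List.flatMap_append.trans (congrArg₂ _ (List.flatMap_append.trans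
        (congrArg₂ _ c1 c3)) c2) :)
    exact (one_mul _).trans (congrArg M.gd.ev h)
  · rw [Gd.ev_rev, Gd.ev_rev]
    obtain ⟨z, _ | _ | _⟩ := b
    · exact (fun z : W.D => show (W.pp z)⁻¹ * W.Z.gd.ev ((W.gz a z).flatMap W.fe) =
        W.χ z * (W.pp (W.af z))⁻¹ by rw [hz, Φ]; group) z
    · exact (fun z : W.D => show (W.pp (W.sf z))⁻¹ * 1 = W.Z.gd.val (z, some false) * (W.pp z)⁻¹ by
        rw [W.val_back, ← (W.gauge z).1]; group) z
    · exact (fun z : W.D => show (W.pp z)⁻¹ * 1 = W.σ z * (W.pp (W.sf z))⁻¹ by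
        rw [← (W.gauge z).1]; group) z
  · have c1 := W.pz_len (W.br e)
    have c2 := W.pz_len (W.br (M.α e))
    change (W.pz (W.br e) ++ [W.cx (W.br e)] ++ W.Z.gd.rev (W.pz (W.br (M.α e)))).length ≤ _
    rw [List.length_append, List.length_append, Gd.length_rev, List.length_singleton]
    omega
  · have c0 : ∀ v, {e : M.D | sv M e = v}.ncard ≤ 16 := fun v => by
      refine (Set.ncard_le_ncard_of_injOn (t := (Finset.range 16 : Finset ℕ)) W.A.idx
        (fun e _ => ?_) (fun x hx y hy h => W.A.ext_idx (Eq.trans hx hy.symm) h)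
        (Finset.finite_toSet _)).trans (by simp)
      have := W.A.idx_lt e
      unfold nT at this
      rw [Finset.coe_range, Set.mem_Iio]
      split_ifs at this <;> omega
    have c1 : {e : M.D | b ∈ W.fe e} ⊆ {e | sv M e = b.1.1.1} ∪ M.α '' {e | sv M e = b.1.1.1} := by
      intro e he
      rcases List.mem_append.1 he with h | h
      · rcases List.mem_append.1 h with h | h
        · exact .inl (W.pz_mem h).1.symm
        · obtain rfl := List.mem_singleton.1 h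
          exact .inl rfl
      · exact .inr ⟨M.α e, (W.rev_mem h).1.symm, M.αα e⟩
    refine ⟨Set.toFinite (s := {e : M.D | b ∈ W.fe e}), (Set.ncard_le_ncard c1).trans
      ((Set.ncard_union_le _ _).trans ?_)⟩
    have := c0 b.1.1.1
    have c2 := Set.ncard_image_le (s := {e : M.D | sv M e = b.1.1.1}) (f := M.α)
    omega

end Zd

theorem zip : ∃ E : ℕ, 0 < E ∧ ∀ (M : CMap) (_ : Asg M), ∃ Z : T7, Fw E M.gd Z.gd := by
  refine ⟨589 * 589 * 32, by norm_num, fun M A => ?_⟩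
  obtain ⟨ν, hν, hs⟩ := slit_of_asg A
  have : Finite A.X := Finite.of_injective
    (fun x : A.X => (x.1.1, (⟨x.1.2, x.2.trans_le ((by decide +kernel :
      ∀ t : Fin 12, ∀ i < nT t, lenT t i ≤ 18) _ _ (A.idx_lt _))⟩ : Fin 18))) fun a b h =>
    Subtype.ext (Prod.ext (congrArg Prod.fst h :) (congrArg (fun p => p.2.val) h))
  obtain ⟨ζ, z1, z2, z3, z4, z5, z6⟩ := exists_zeta hs
  rw [hν] at z2 z3 z4 z5 z6
  let W : Zd M := ⟨A, fun t => (patches t).some, ζ, z1, z2, z3, z5 (fun x => x.1.2 % 2 = 1)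
    (fun x h => by
      have c1 := A.len_cases x.1.1
      have c2 := x.2
      unfold Asg.tip at h
      rw [A.nu_val]
      split_ifs <;> dsimp only <;> omega)
    (fun x h => by
      have c2 := x.2
      unfold Asg.tip at h
      rw [A.nu_val, if_neg (by omega)]
      dsimp only
      omega)⟩
  choose a ha using z4
  obtain ⟨h1, h2⟩ := z6 _ W.β (fun x => W.Φ (W.sl x)) W.S_rec (fun _ => W.S_tip) W.S_inv
  exact ⟨W.Z, W.fw ha h1 h2⟩

end Pool.Agent.MC.VB
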