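import Pool.Agent.P.MP_2677b3_gt.QcF
import Pool.Agent.P.MP_2677b3_gt.VbMain

/-! Every thick surface has a cover of bounded degree quasiconformally close to a cover. -/

open Equiv Function UpperHalfPlane

namespace Pool.Agent.MC.QC

open LL Ge VB

theorem vb_main (GX : Subgroup (Perm ℍ)) (εX : ℝ) (hεX : 0 < εX) (hX : Fuchs GX εX)
    (hg : Nonempty (GX ≃* Pi2)) (ε : ℝ) (hε : 0 < ε) :
    ∃ K : ℝ, ∀ GY : Subgroup (Perm ℍ), Fuchs GY ε →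
      ∃ G' : Subgroup (Perm ℍ), G' ≤ GY ∧ G'.relIndex GY ≠ 0 ∧ G'.relIndex GY ≤ 84 ∧
        Near GX K G' := by
  obtain ⟨e⟩ := id hg
  obtain ⟨s, hs⟩ := roots
  obtain ⟨w, hw⟩ := assign s
  obtain ⟨E₁, -, h₁⟩ := zip
  obtain ⟨E₂, -, h₂⟩ := descend
  obtain ⟨K, a₀, hK⟩ := coarse hε (43 * w + 43 + s + 42)
  obtain ⟨C, hC⟩ := geo_qc GX εX hεX hX e ε K (1 * E₁ * Fintype.card (Fin 84) * E₂)
  obtain ⟨C₂, hs₂⟩ := near_small GX εX hεX hX hg ε hε a₀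
  refine ⟨max C C₂, fun GY hY => ?_⟩
  obtain h | ⟨a, ha, har⟩ := hs₂ GY hY
  · exact ⟨GY, le_rfl, by simp, by simp, h.mono (le_max_right _ _)⟩
  obtain ⟨M, g, hf, c1, c2, ⟨d⟩, c3⟩ := hK GY hY a ha har
  have hc : 42 ≤ Fintype.card M.D :=
    le_trans (by have := c3 d; omega) (minimalPeriod_le_card (f := M.φ) (x := d))
  have T : ∀ d, Tree M d 14 := fun d => (exists_tree c1 c2 hc d).some
  obtain ⟨ρ, r1, r2⟩ := hs M T fun d => by have := c3 d; omega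
  obtain ⟨M', R, f1, m⟩ := contract c1 (w := w) (fun d => by have := c3 d; omega) T ρ r1 r2
  obtain ⟨A⟩ := hw M' R m
  obtain ⟨Z, f2⟩ := h₁ M' A
  obtain ⟨μ, T', f3⟩ := h₂ Z
  obtain ⟨μ', f4⟩ := lift_fw (f1.trans f2) μ
  obtain ⟨T'', f5⟩ := fw_comp (f4.trans f3) (M.gd.src d, (0 : Fin 84))
  have : Finite M.gd.V := inferInstanceAs (Finite (Quotient _))
  obtain ⟨G', g1, g2, g3, g4, g', g5⟩ := geo_cover hY g hf μ' (M.gd.src d) 0
  have : Finite (comp (cover M.gd μ') (M.gd.src d, (0 : Fin 84))).E :=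
    inferInstanceAs (Finite {_e : M.D × Fin 84 // _})
  have : Finite (comp (cover M.gd μ') (M.gd.src d, (0 : Fin 84))).V :=
    inferInstanceAs (Finite {_e : M.gd.V × Fin 84 // _})
  exact ⟨G', g1, g2, by simpa using g3,
    (hC G' g4 _ g' g5 ⟨⟨_, [], rfl⟩⟩ T'' f5).mono (le_max_left _ _)⟩

end Pool.Agent.MC.QC
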