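import Pool.Agent.P.MP_2677b3_gt.HdG

open UpperHalfPlane

namespace Pool.Agent.P.MP_2677b3_gt.VariantHandleDense

open Pool.Agent.MC

/-- Let `X = ℍ / GX` be a closed hyperbolic surface of genus two.  For every `ε`-thick closed
hyperbolic surface `Y = ℍ / GY` of large area all of whose balls of radius `R` carry a handle there
are a finite unramified cover `ℍ / Λ` of `X` and an isomorphism of fundamental groups that
multiplies the extremal length of every free homotopy class by at most `K`, with `K` depending only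
on `X`, `ε` and `R`. -/
theorem result (GX : Subgroup (Equiv.Perm ℍ)) (εX : ℝ) (hεX : 0 < εX) (hX : Fuchs GX εX)
    (hg : Nonempty (GX ≃* Pi2)) (ε : ℝ) (hε : 0 < ε) (R : ℝ) :
    ∃ (K : ℕ) (a₀ : ℝ), ∀ GY : Subgroup (Equiv.Perm ℍ), Fuchs GY ε → (∀ z, HandleAt GY R z) →
      ∀ a : ℝ, a₀ ≤ a → area GY 1 = ENNReal.ofReal a →
      ∃ Λ : Subgroup (Equiv.Perm ℍ), Λ ≤ GX ∧ Λ.relIndex GX ≠ 0 ∧ ∃ θ : GY ≃* Λ, ∀ γ : GY,
        ext Λ (θ γ).1 ≤ K * ext GY γ.1 :=
  LL.hdg_main GX εX hεX hX hg ε hε R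

end Pool.Agent.P.MP_2677b3_gt.VariantHandleDense
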