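import Pool.Agent.P.MP_2677b3_gt.VbMain

open UpperHalfPlane

namespace Pool.Agent.P.MP_2677b3_gt.VariantVirtualBounded

open Pool.Agent.MC

/-- Let `X = ℍ / GX` be a closed hyperbolic surface of genus two.  Every `ε`-thick closed
hyperbolic surface `Y = ℍ / GY` of large area has an unramified cover `ℍ / G'` of degree at most
`84` with an isomorphism of its fundamental group onto that of a finite unramified cover `ℍ / Λ`
of `X` that multiplies the extremal length of every free homotopy class by at most `K`, with `K`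
depending only on `X` and `ε`. -/
theorem result (GX : Subgroup (Equiv.Perm ℍ)) (εX : ℝ) (hεX : 0 < εX) (hX : Fuchs GX εX)
    (hg : Nonempty (GX ≃* Pi2)) (ε : ℝ) (hε : 0 < ε) :
    ∃ (K : ℕ) (a₀ : ℝ), ∀ GY : Subgroup (Equiv.Perm ℍ), Fuchs GY ε → ∀ a : ℝ, a₀ ≤ a →
      area GY 1 = ENNReal.ofReal a →
      ∃ G' : Subgroup (Equiv.Perm ℍ), G' ≤ GY ∧ G'.relIndex GY ≠ 0 ∧ G'.relIndex GY ≤ 84 ∧
        ∃ Λ : Subgroup (Equiv.Perm ℍ), Λ ≤ GX ∧ Λ.relIndex GX ≠ 0 ∧ ∃ θ : G' ≃* Λ, ∀ γ : G',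
          ext Λ (θ γ).1 ≤ K * ext G' γ.1 :=
  VB.main GX εX hεX hX hg ε hε

end Pool.Agent.P.MP_2677b3_gt.VariantVirtualBounded
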