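import Pool.Agent.P.MP_2677b3_gt.VbDefs

/-! The law of the side lengths: uncorrelated coordinates that generate the full lattice. -/

namespace Pool.Agent.MC.VB

/-- The weights of the ten shapes. -/
def lawW (s : Fin 10 × Fin 16) : ℤ :=
  ([130167601576, 71391695682, 187315640790, 14036115038, 41448556982,
    33391986409, 44194574754, 10873960462, 6134657434, 32551256154] : List ℤ).getD s.1.val 0

/-- An integer combination of states that gives the first unit vector. -/
def lawL : List (ℕ × ℕ × ℤ) :=
  [(6, 10, -22524378631307555816663727197236370813),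
   (7, 4, -18102196634241844316265449915135677414),
   (1, 3, -35426387961948005207282063732397520710),
   (1, 15, 68498406057345130850213002390677175896),
   (5, 6, 1267912563743007612640373278467506100),
   (1, 2, -49690730161070532797784057050916655063),
   (8, 1, -1686080574272123204732444086752742184),
   (0, 15, 18892037525301247101943086053591196042),
   (8, 11, -18039624379307463057715114061800027423),
   (0, 8, 15034739533061518105038655123956274013),
   (7, 2, 2582281532783640815675960082419108681),
   (2, 11, 19043512312540782318285584183965499042),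
   (2, 1, 5162967108351981023918504881205581329),
   (5, 12, -1748720919513805837435249811163488489),
   (3, 1, 4677662436759048409890249960366832859),
   (1, 5, 28287546513149401839464534810073348251),
   (1, 4, 28615286330559555546859620576634982917),
   (0, 4, 11733757847267578145695130196757047705),
   (1, 9, -40472263178119775623782075637300193965),
   (3, 5, -16105727321081785907964520045411876774)]

def lawC (i : Fin 16) (s : Fin 10 × Fin 16) : ℤ :=
  (lawL.map fun e => if e.1 = s.1.val ∧ e.2.1 = (s.2.val + i.val) % 16 then e.2.2 else 0).sum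

theorem law_pos : ∀ s, 0 < lawW s := by decide +kernel

theorem law_sum : ∑ s, lawW s = 9144096724496 := by decide +kernel

theorem law_mean : ∀ i, 2 * ∑ s, lawW s * kS s i = 9 * 9144096724496 := by decide +kernel

theorem law_cov : ∀ i j, i ≠ j → 4 * ∑ s, lawW s * (kS s i * kS s j) = 81 * 9144096724496 := by
  decide +kernel

theorem law_lat : ∀ i, ∑ s, lawC i s = 0 ∧
    ∀ j, ∑ s, lawC i s * kS s j = if j = i then 1 else 0 := by decide +kernel

theorem law : ∃ π : Fin 10 × Fin 16 → ℝ, (∀ s, 0 < π s) ∧ ∑ s, π s = 1 ∧
    (∀ i, ∑ s, π s * kS s i = 9 / 2) ∧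
    (∀ i j, i ≠ j → ∑ s, π s * (kS s i * kS s j) = (9 / 2) ^ 2) ∧
    ∀ i, ∃ c : Fin 10 × Fin 16 → ℤ, ∑ s, c s = 0 ∧
      ∀ j, ∑ s, c s * kS s j = if j = i then 1 else 0 := by
  refine ⟨fun s => lawW s / 9144096724496, fun s => ?_, ?_, fun i => ?_, fun i j h => ?_,
    fun i => ⟨lawC i, law_lat i⟩⟩
  · have : (0 : ℝ) < lawW s := by exact_mod_cast law_pos s
    positivity
  · have : ∑ s, (lawW s : ℝ) = 9144096724496 := by exact_mod_cast law_sum
    rw [← Finset.sum_div, this]
    norm_num
  · have : 2 * ∑ s, (lawW s : ℝ) * kS s i = 9 * 9144096724496 := by exact_mod_cast law_mean i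
    simp only [div_mul_eq_mul_div, ← Finset.sum_div]
    linarith
  · have : 4 * ∑ s, (lawW s : ℝ) * (kS s i * kS s j) = 81 * 9144096724496 := by
      exact_mod_cast law_cov i j h
    simp only [div_mul_eq_mul_div, ← Finset.sum_div]
    linarith

end Pool.Agent.MC.VB
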