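import Pool.Agent.P.MP_2677b3_gt.VbDefs

/-! Estimates for characteristic functions of finite laws. -/

open Finset Complex

namespace Pool.Agent.MC.VB

theorem chf_avg {S : Type} [Fintype S] {π : S → ℝ} (hπ : ∀ s, 0 ≤ π s) (h1 : ∑ s, π s = 1)
    {f : S → ℂ} {B : ℝ} (h : ∀ s, ‖f s‖ ≤ B) : ‖∑ s, (π s : ℂ) * f s‖ ≤ B := by
  refine (norm_sum_le _ _).trans ?_
  calc ∑ s, ‖(π s : ℂ) * f s‖ ≤ ∑ s, π s * B := sum_le_sum fun s _ => by
        rw [norm_mul, norm_real, Real.norm_of_nonneg (hπ s)]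
        exact mul_le_mul_of_nonneg_left (h s) (hπ s)
    _ = B := by rw [← sum_mul, h1, one_mul]

theorem chf_le_one {S : Type} [Fintype S] {n : ℕ} {π : S → ℝ} (κ : S → Fin n → ℝ)
    (hπ : ∀ s, 0 ≤ π s) (h1 : ∑ s, π s = 1) (η : Fin n → ℝ) : ‖chf π κ η‖ ≤ 1 :=
  chf_avg hπ h1 fun _ => (norm_exp_I_mul_ofReal _).le

theorem chf_bd {S : Type} [Fintype S] {n : ℕ} (κ : S → Fin n → ℝ) :
    ∃ K : ℝ, 1 ≤ K ∧ ∀ s i, |κ s i| ≤ K := by
  refine ⟨1 + ∑ s, ∑ i, |κ s i|, le_add_of_nonneg_right (by positivity), fun s i => ?_⟩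
  have h1 : |κ s i| ≤ ∑ i, |κ s i| :=
    single_le_sum (f := fun i => |κ s i|) (fun _ _ => abs_nonneg _) (mem_univ i)
  have h2 : ∑ i, |κ s i| ≤ ∑ s, ∑ i, |κ s i| :=
    single_le_sum (f := fun s => ∑ i, |κ s i|) (fun _ _ => by positivity) (mem_univ s)
  linarith

theorem chf_two (x : ℝ) : ‖exp (I * x) - 1 - I * x‖ ≤ 2 * x ^ 2 := by
  have e : ‖I * (x : ℂ)‖ = |x| := by simp
  rcases le_total |x| 1 with h | h
  · have := norm_exp_sub_one_sub_id_le (x := I * x) (e ▸ h)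
    rw [e, sq_abs] at this
    nlinarith [sq_nonneg x]
  · have h1 := norm_sub_le (exp (I * x) - 1) (I * x)
    have h2 := Real.norm_exp_I_mul_ofReal_sub_one_le (x := x)
    rw [Real.norm_eq_abs] at h2
    rw [e] at h1
    nlinarith [sq_abs x]

theorem chf_add (x y : ℝ) :
    ‖exp (I * (x + y : ℝ)) - 1‖ ≤ ‖exp (I * x) - 1‖ + ‖exp (I * y) - 1‖ := by
  have e : exp (I * (x + y : ℝ)) - 1 = (exp (I * x) - 1) * exp (I * y) + (exp (I * y) - 1) := by
    push_cast
    rw [mul_add, exp_add]; ring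
  rw [e]
  refine (norm_add_le _ _).trans ?_
  rw [norm_mul, norm_exp_I_mul_ofReal, mul_one]

theorem chf_int (c : ℤ) (x : ℝ) : ‖exp (I * (c * x : ℝ)) - 1‖ ≤ |(c : ℝ)| * ‖exp (I * x) - 1‖ := by
  have hn : ∀ m : ℕ, ‖exp (I * (m * x : ℝ)) - 1‖ ≤ m * ‖exp (I * x) - 1‖ := by
    intro m
    induction m with
    | zero => simp
    | succ m ih =>
      rw [Nat.cast_succ, add_mul (m : ℝ) 1 x, one_mul, add_mul, one_mul]
      linarith [chf_add (m * x) x]
  obtain ⟨m, rfl | rfl⟩ := Int.eq_nat_or_neg c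
  · simpa using hn m
  · have := hn m
    rw [norm_exp_I_mul_ofReal_sub_one] at this ⊢
    rw [Int.cast_neg, Int.cast_natCast, abs_neg, Nat.abs_cast, neg_mul, neg_div, Real.sin_neg,
      mul_neg, norm_neg]
    exact this

theorem chf_sum {S : Type} (t : Finset S) (x : S → ℝ) :
    ‖exp (I * (∑ s ∈ t, x s : ℝ)) - 1‖ ≤ ∑ s ∈ t, ‖exp (I * x s) - 1‖ := by
  classical
  induction t using Finset.induction_on with
  | empty => simp
  | insert a t ha ih =>
    rw [sum_insert ha, sum_insert ha]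
    linarith [chf_add (x a) (∑ s ∈ t, x s)]

theorem chf_sq (x : ℝ) : ‖exp (I * x) - 1‖ ^ 2 = 2 - 2 * Real.cos x := by
  rw [norm_exp_I_mul_ofReal_sub_one, Real.norm_eq_abs, sq_abs, mul_pow, Real.sin_sq_eq_half_sub,
    mul_div_cancel₀ _ two_ne_zero]
  ring

theorem chf_low {x : ℝ} (hx : |x| ≤ Real.pi) : x ^ 2 ≤ 4 * ‖exp (I * x) - 1‖ ^ 2 := by
  have h := Real.cos_le_one_sub_mul_cos_sq hx
  rw [chf_sq]
  have h1 : Real.pi ^ 2 ≤ 16 := by nlinarith [Real.pi_le_four, Real.pi_pos]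
  have h2 : 1 / 8 ≤ 2 / Real.pi ^ 2 := by
    rw [div_le_div_iff₀ (by norm_num) (by positivity)]; linarith
  nlinarith [sq_nonneg x]

theorem chf_decay {S : Type} [Fintype S] {n : ℕ} (π : S → ℝ) (k : S → Fin n → ℤ) (μ : ℝ)
    (hπ : ∀ s, 0 < π s) (h1 : ∑ s, π s = 1)
    (hl : ∀ i, ∃ c : S → ℤ, ∑ s, c s = 0 ∧ ∀ j, ∑ s, c s * k s j = if j = i then 1 else 0) :
    ∃ c > 0, ∀ η : Fin n → ℝ, (∀ i, |η i| ≤ Real.pi) →
      ‖chf π (fun s i => k s i - μ) η‖ ≤ Real.exp (-c * ∑ i, η i ^ 2) := by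
  choose c hc0 hc using hl
  set B : ℝ := 1 + ∑ i, 8 * Fintype.card S * ∑ s, (c i s : ℝ) ^ 2 / π s with hB
  have hB0 : 0 < B := by
    refine add_pos_of_pos_of_nonneg one_pos (sum_nonneg fun i _ => mul_nonneg (by positivity)
      (sum_nonneg fun s _ => div_nonneg (sq_nonneg _) (hπ s).le))
  refine ⟨1 / B, by positivity, fun η hη => ?_⟩
  set F := chf π (fun s i => k s i - μ) η with hF
  set θ : S → ℝ := fun s => ∑ i, η i * (k s i - μ) - arg F with hθ
  have e1 : ‖F‖ = ∑ s, π s * Real.cos (θ s) := by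
    have h2 : (‖F‖ : ℂ) = F * exp (I * (-arg F : ℝ)) := by
      conv_rhs => lhs; rw [← norm_mul_exp_arg_mul_I F]
      rw [mul_assoc, ← exp_add]
      simp [mul_comm]
    have h3 : F * exp (I * (-arg F : ℝ)) = ∑ s, (π s : ℂ) * exp (I * θ s) := by
      conv_lhs => lhs; rw [hF, chf]
      rw [sum_mul]
      refine sum_congr rfl fun s _ => ?_
      rw [mul_assoc, ← exp_add, ← mul_add, ← ofReal_add, ← sub_eq_add_neg]
    have h4 := congrArg re (h2.trans h3)
    rw [ofReal_re, re_sum] at h4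
    rw [h4]
    refine sum_congr rfl fun s _ => ?_
    rw [re_ofReal_mul, mul_comm I, exp_ofReal_mul_I_re]
  have e2 : ∑ s, π s * ‖exp (I * θ s) - 1‖ ^ 2 = 2 * (1 - ‖F‖) := by
    simp only [chf_sq, mul_sub, sum_sub_distrib, ← sum_mul, h1, e1, mul_sum]
    congr 1
    · ring
    · exact sum_congr rfl fun s _ => by ring
  have hD : 0 ≤ 1 - ‖F‖ := sub_nonneg.2 (chf_le_one _ (fun s => (hπ s).le) h1 η)
  have e3 : ∀ s, ‖exp (I * θ s) - 1‖ ^ 2 ≤ 2 * (1 - ‖F‖) / π s := fun s => by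
    rw [le_div_iff₀ (hπ s), ← e2, mul_comm]
    exact single_le_sum (f := fun s => π s * ‖exp (I * θ s) - 1‖ ^ 2)
      (fun s _ => mul_nonneg (hπ s).le (sq_nonneg _)) (mem_univ s)
  have e4 : ∀ i, η i ^ 2 ≤ (8 * Fintype.card S * ∑ s, (c i s : ℝ) ^ 2 / π s) * (1 - ‖F‖) := by
    intro i
    have h2 : ∑ s, (c i s : ℝ) * θ s = η i := by
      have h3 : ∑ s, (c i s : ℝ) = 0 := by exact_mod_cast hc0 i
      have h4 : ∀ j, ∑ s, (c i s : ℝ) * k s j = if j = i then 1 else 0 := fun j => by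
        exact_mod_cast hc i j
      have h5 : ∀ s, (c i s : ℝ) * θ s =
          ∑ j, η j * ((c i s : ℝ) * k s j) - c i s * (μ * ∑ j, η j + arg F) := fun s => by
        simp only [hθ, mul_sub, mul_add, mul_sum, sum_sub_distrib]
        rw [sub_sub]
        congr 2
        · funext j; ring
        · exact sum_congr rfl fun j _ => by ring
      simp only [h5, sum_sub_distrib, ← sum_mul, h3, zero_mul, sub_zero]
      rw [sum_comm]
      simp [← mul_sum, h4]
    have h3 := chf_sum univ fun s => (c i s : ℝ) * θ s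
    rw [h2] at h3
    have h4 := (pow_le_pow_left₀ (norm_nonneg _) h3 2).trans sq_sum_le_card_mul_sum_sq
    have h5 : ∑ s, ‖exp (I * (c i s * θ s : ℝ)) - 1‖ ^ 2 ≤
        (∑ s, (c i s : ℝ) ^ 2 / π s) * (2 * (1 - ‖F‖)) := by
      rw [sum_mul]
      refine sum_le_sum fun s _ => (pow_le_pow_left₀ (norm_nonneg _) (chf_int _ _) 2).trans ?_
      rw [mul_pow, sq_abs]
      exact (mul_le_mul_of_nonneg_left (e3 s) (sq_nonneg _)).trans_eq (by ring)
    have h6 := mul_le_mul_of_nonneg_left h5 (Nat.cast_nonneg (α := ℝ) (Fintype.card S))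
    rw [card_univ] at h4
    linarith [chf_low (hη i)]
  have e5 : ∑ i, η i ^ 2 ≤ B * (1 - ‖F‖) := by
    have := sum_le_sum fun i (_ : i ∈ univ) => e4 i
    rw [← sum_mul] at this
    rw [hB, add_mul]
    linarith
  have e6 : 1 / B * ∑ i, η i ^ 2 ≤ 1 - ‖F‖ := by
    rw [one_div, inv_mul_le_iff₀ hB0]; exact e5
  linarith [Real.add_one_le_exp (-(1 / B) * ∑ i, η i ^ 2)]

theorem chf_step {S : Type} [Fintype S] {n : ℕ} {π : S → ℝ} {κ : S → Fin n → ℝ}
    (hπ : ∀ s, 0 ≤ π s) (h1 : ∑ s, π s = 1) (hm : ∀ i, ∑ s, π s * κ s i = 0)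
    (hc : ∀ i j, i ≠ j → ∑ s, π s * (κ s i * κ s j) = 0) {K : ℝ} (hK : ∀ s i, |κ s i| ≤ K)
    (hK0 : 0 ≤ K) (ζ : Fin n → ℝ) (i : Fin n) (hi : ζ i = 0) (x : ℝ) {T δ : ℝ}
    (hT : ∑ j, |ζ j| ≤ T) (hx : |x| ≤ δ) :
    ‖chf π κ (ζ + Pi.single i x) - chf π κ ζ * chf π κ (Pi.single i x)‖ ≤
      K ^ 3 * δ * (5 * T ^ 2 + δ ^ 2) := by
  set A : S → ℝ := fun s => ∑ j, ζ j * κ s j with hA
  set B : S → ℝ := fun s => x * κ s i with hB
  have hT0 : 0 ≤ T := le_trans (by positivity) hT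
  have hδ : 0 ≤ δ := (abs_nonneg _).trans hx
  have hA1 : ∀ s, |A s| ≤ T * K := fun s => by
    refine (abs_sum_le_sum_abs _ _).trans (le_trans ?_ (mul_le_mul_of_nonneg_right hT hK0))
    rw [sum_mul]
    exact sum_le_sum fun j _ => by rw [abs_mul]; gcongr; exact hK s j
  have hB1 : ∀ s, |B s| ≤ δ * K := fun s => by
    rw [hB, abs_mul]; gcongr; exact hK s i
  have eB : ∀ s, ∑ j, (Pi.single i x : Fin n → ℝ) j * κ s j = B s := fun s => by
    simp [Pi.single_apply, hB]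
  have m0 : ∑ s, (π s : ℂ) = 1 := by exact_mod_cast h1
  have mA : ∑ s, (π s : ℂ) * A s = 0 := by
    have : ∑ s, π s * A s = ∑ j, ζ j * ∑ s, π s * κ s j := by
      simp only [hA, mul_sum]
      rw [sum_comm]
      exact sum_congr rfl fun j _ => sum_congr rfl fun s _ => by ring
    simp only [hm, mul_zero, sum_const_zero] at this
    exact_mod_cast this
  have mAB : ∑ s, (π s : ℂ) * (A s * B s) = 0 := by
    have h2 : ∑ s, π s * (A s * B s) = ∑ j, ζ j * x * ∑ s, π s * (κ s j * κ s i) := by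
      simp only [hA, hB, mul_sum, sum_mul]
      rw [sum_comm]
      exact sum_congr rfl fun j _ => sum_congr rfl fun s _ => by ring
    have h3 : ∑ j, ζ j * x * ∑ s, π s * (κ s j * κ s i) = 0 := sum_eq_zero fun j _ => by
      by_cases h : j = i
      · rw [h, hi, zero_mul, zero_mul]
      · rw [hc j i h, mul_zero]
    exact_mod_cast h2.trans h3
  set a : S → ℂ := fun s => exp (I * A s) - 1 - I * A s with ha
  set b : S → ℂ := fun s => exp (I * B s) - 1 with hb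
  have e1 : chf π κ ζ = 1 + ∑ s, (π s : ℂ) * a s := by
    have : ∑ s, (π s : ℂ) * a s = chf π κ ζ - ∑ s, (π s : ℂ) - I * ∑ s, (π s : ℂ) * A s := by
      rw [chf, mul_sum, ← sum_sub_distrib, ← sum_sub_distrib]
      exact sum_congr rfl fun s _ => by simp only [ha, hA]; ring
    rw [this, m0, mA]; ring
  have e2 : chf π κ (Pi.single i x) = 1 + ∑ s, (π s : ℂ) * b s := by
    rw [← m0, chf, ← sum_add_distrib]
    exact sum_congr rfl fun s _ => by simp only [hb, eB]; ring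
  have e3 : chf π κ (ζ + Pi.single i x) = 1 + ∑ s, (π s : ℂ) * a s + ∑ s, (π s : ℂ) * b s +
      ∑ s, (π s : ℂ) * (I * A s * (b s - I * B s) + a s * b s) := by
    have : chf π κ (ζ + Pi.single i x) = ∑ s, (π s : ℂ) + ∑ s, (π s : ℂ) * a s +
        ∑ s, (π s : ℂ) * b s + ∑ s, (π s : ℂ) * (I * A s * (b s - I * B s) + a s * b s) +
        I * ∑ s, (π s : ℂ) * A s + I * I * ∑ s, (π s : ℂ) * (A s * B s) := by
      simp only [chf, mul_sum, ← sum_add_distrib]
      refine sum_congr rfl fun s _ => ?_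
      simp only [Pi.add_apply, add_mul, sum_add_distrib, eB]
      rw [ofReal_add, mul_add, exp_add]
      simp only [ha, hb, hA]
      ring
    rw [this, m0, mA, mAB]; ring
  have ba : ∀ s, ‖a s‖ ≤ 2 * (T * K) ^ 2 := fun s =>
    (chf_two _).trans (by have := sq_le_sq' (abs_le.1 (hA1 s)).1 (abs_le.1 (hA1 s)).2; linarith)
  have bb : ∀ s, ‖b s‖ ≤ δ * K := fun s => Real.norm_exp_I_mul_ofReal_sub_one_le.trans (hB1 s)
  have bc : ∀ s, ‖I * A s * (b s - I * B s) + a s * b s‖ ≤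
      T * K * (2 * (δ * K) ^ 2) + 2 * (T * K) ^ 2 * (δ * K) := fun s => by
    refine (norm_add_le _ _).trans (add_le_add ?_ ?_)
    · rw [norm_mul, norm_mul, norm_I, one_mul, norm_real, Real.norm_eq_abs]
      refine mul_le_mul (hA1 s) ((chf_two _).trans ?_) (norm_nonneg _) (by positivity)
      have := sq_le_sq' (abs_le.1 (hB1 s)).1 (abs_le.1 (hB1 s)).2
      linarith
    · rw [norm_mul]
      exact mul_le_mul (ba s) (bb s) (norm_nonneg _) (by positivity)
  have e4 : chf π κ (ζ + Pi.single i x) - chf π κ ζ * chf π κ (Pi.single i x) =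
      ∑ s, (π s : ℂ) * (I * A s * (b s - I * B s) + a s * b s) -
        (∑ s, (π s : ℂ) * a s) * ∑ s, (π s : ℂ) * b s := by
    rw [e3, e1, e2]; ring
  rw [e4]
  refine (norm_sub_le _ _).trans ?_
  rw [norm_mul]
  have f1 := chf_avg hπ h1 bc
  have f2 := mul_le_mul (chf_avg hπ h1 ba) (chf_avg hπ h1 bb) (norm_nonneg _) (by positivity)
  have f3 : 0 ≤ K ^ 3 * δ * (T - δ) ^ 2 := by positivity
  linarith

theorem chf_rest {S : Type} [Fintype S] {n : ℕ} (π : S → ℝ) (κ : S → Fin n → ℝ)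
    (hπ : ∀ s, 0 ≤ π s) (h1 : ∑ s, π s = 1) (hm : ∀ i, ∑ s, π s * κ s i = 0)
    (hc : ∀ i j, i ≠ j → ∑ s, π s * (κ s i * κ s j) = 0) :
    ∃ C ≥ 0, ∀ (δ : ℝ) (η : Fin n → ℝ) (L : Finset (Fin n)), 0 ≤ δ → (∀ i ∉ L, |η i| ≤ δ) →
      ‖chf π κ η - chf π κ (fun i => if i ∈ L then η i else 0) *
        ∏ i ∈ Lᶜ, chf π κ (Pi.single i (η i))‖ ≤ C * δ * (δ ^ 2 + ∑ i ∈ L, η i ^ 2) := by
  obtain ⟨K, hK1, hK⟩ := chf_bd κ
  have hK0 : 0 ≤ K := by linarith
  refine ⟨n * (K ^ 3 * (10 * n ^ 2 + 10 * n + 1)), by positivity, fun δ η L hδ hη => ?_⟩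
  set Q := ∑ i ∈ L, η i ^ 2 with hQ
  have hQ0 : 0 ≤ Q := by positivity
  set T := n * δ + ∑ i ∈ L, |η i| with hT
  set C := K ^ 3 * (10 * n ^ 2 + 10 * n + 1) * δ * (δ ^ 2 + Q) with hC
  have hC0 : 0 ≤ C := by positivity
  have hTC : K ^ 3 * δ * (5 * T ^ 2 + δ ^ 2) ≤ C := by
    have h2 : (∑ i ∈ L, |η i|) ^ 2 ≤ n * Q := by
      refine sq_sum_le_card_mul_sum_sq.trans ?_
      simp only [sq_abs]
      gcongr
      exact_mod_cast card_finset_fin_le L
    have h3 : 5 * T ^ 2 + δ ^ 2 ≤ (10 * n ^ 2 + 10 * n + 1) * (δ ^ 2 + Q) := by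
      have h4 : 0 ≤ (n : ℝ) ^ 2 * Q := by positivity
      have h5 : 0 ≤ (n : ℝ) * δ ^ 2 := by positivity
      have h6 := sq_nonneg (n * δ - ∑ i ∈ L, |η i|)
      rw [hT]
      linarith
    exact (mul_le_mul_of_nonneg_left h3 (by positivity)).trans_eq (by rw [hC]; ring)
  have key : ∀ M : Finset (Fin n), Disjoint L M →
      ‖chf π κ (fun i => if i ∈ L ∪ M then η i else 0) -
        chf π κ (fun i => if i ∈ L then η i else 0) * ∏ i ∈ M, chf π κ (Pi.single i (η i))‖ ≤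
        M.card * C := by
    intro M
    induction M using Finset.induction_on with
    | empty => simp
    | insert i M hi ih =>
      intro hd
      rw [disjoint_insert_right] at hd
      have hiL : i ∉ L ∪ M := by simp [hd.1, hi]
      have h2 := chf_step hπ h1 hm hc hK hK0 (fun j => if j ∈ L ∪ M then η j else 0) i
        (if_neg hiL) (η i) (T := T) (by
          calc _ ≤ ∑ j, (δ + if j ∈ L then |η j| else 0) := sum_le_sum fun j _ => by
                by_cases h : j ∈ L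
                · simp [h, hδ]
                · have := hη j h
                  split_ifs <;> simp [this, hδ]
            _ = T := by simp [sum_add_distrib, hT]) (hη i hd.1)
      have e : (fun j => if j ∈ L ∪ M then η j else 0) + Pi.single i (η i) =
          fun j => if j ∈ L ∪ insert i M then η j else 0 := by
        funext j
        by_cases h : j = i
        · subst h; simp [hd.1, hi]
        · simp [h]
      rw [e] at h2
      have h3 := mul_le_mul (ih hd.2) (chf_le_one κ hπ h1 (Pi.single i (η i))) (norm_nonneg _)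
        (by positivity)
      rw [← norm_mul] at h3
      have h4 := (norm_add_le _ _).trans (add_le_add (h2.trans hTC) h3)
      rw [prod_insert hi, card_insert_of_notMem hi]
      push_cast
      refine le_of_eq_of_le (by congr 1; ring) (h4.trans_eq (by ring))
  have h2 := key Lᶜ disjoint_compl_right
  simp only [union_compl, mem_univ, if_true] at h2
  refine h2.trans (le_of_le_of_eq (b := n * C) ?_ (by rw [hC]; ring))
  gcongr
  exact_mod_cast card_finset_fin_le Lᶜ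

theorem chf_marg {S : Type} [Fintype S] {n : ℕ} (π : S → ℝ) (κ : S → Fin n → ℝ)
    (hπ : ∀ s, 0 ≤ π s) (h1 : ∑ s, π s = 1) (hm : ∀ i, ∑ s, π s * κ s i = 0) :
    ∃ C > 0, ∀ (i : Fin n) (x : ℝ), C * |x| ≤ 1 → 1 / 2 ≤ ‖chf π κ (Pi.single i x)‖ ∧
      |(chf π κ (Pi.single i x)).arg| ≤ C * |x| ^ 3 := by
  obtain ⟨K, hK1, hK⟩ := chf_bd κ
  refine ⟨K ^ 3, by positivity, fun i x hx => ?_⟩
  have hK3 : K ≤ K ^ 3 := le_self_pow₀ hK1 (by norm_num)
  have hB : ∀ s, |x * κ s i| ≤ K * |x| := fun s => by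
    rw [abs_mul, mul_comm]; gcongr; exact hK s i
  have hx1 : K * |x| ≤ 1 := le_trans (by gcongr) hx
  set F := chf π κ (Pi.single i x) with hF
  have e : F = ∑ s, (π s : ℂ) * exp ((x * κ s i : ℝ) * I) := by
    rw [hF, chf]
    exact sum_congr rfl fun s _ => by simp [Pi.single_apply, mul_comm I]
  have hre : 1 / 2 ≤ F.re := by
    rw [e, re_sum, ← one_mul (1 / 2 : ℝ), ← h1, sum_mul]
    refine sum_le_sum fun s _ => ?_
    rw [re_ofReal_mul, exp_ofReal_mul_I_re, h1]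
    refine mul_le_mul_of_nonneg_left ?_ (hπ s)
    have h2 := (sq_le_one_iff_abs_le_one _).2 ((hB s).trans hx1)
    linarith [Real.one_sub_sq_div_two_le_cos (x := x * κ s i)]
  have hsin : ∀ y : ℝ, |y| ≤ 1 → |Real.sin y - y| ≤ |y| ^ 3 / 4 := by
    have hp : ∀ y : ℝ, 0 < y → y ≤ 1 → |Real.sin y - y| ≤ |y| ^ 3 / 4 := fun y h0 _ => by
      rw [abs_of_pos h0, abs_le]
      have := Real.sin_gt_sub_cube h0
      have := Real.sin_lt h0
      have : 0 < y ^ 3 := by positivity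
      constructor <;> linarith
    intro y hy
    rcases lt_trichotomy y 0 with h | rfl | h
    · have := hp (-y) (by linarith) (by linarith [(abs_le.1 hy).1])
      rwa [Real.sin_neg, ← neg_sub', abs_neg, abs_neg] at this
    · simp
    · exact hp y h (abs_le.1 hy).2
  have him : |F.im| ≤ (K * |x|) ^ 3 / 4 := by
    have h2 : ((F.im : ℝ) : ℂ) = ∑ s, (π s : ℂ) * (Real.sin (x * κ s i) - x * κ s i : ℝ) := by
      have h3 : F.im = ∑ s, π s * (Real.sin (x * κ s i) - x * κ s i) + x * ∑ s, π s * κ s i := by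
        rw [e, im_sum, mul_sum, ← sum_add_distrib]
        refine sum_congr rfl fun s _ => ?_
        rw [im_ofReal_mul, exp_ofReal_mul_I_im]; ring
      rw [h3, hm, mul_zero, add_zero, ofReal_sum]
      simp only [ofReal_mul]
    rw [← Real.norm_eq_abs, ← norm_real, h2]
    refine chf_avg hπ h1 fun s => ?_
    rw [norm_real, Real.norm_eq_abs]
    refine (hsin _ ((hB s).trans hx1)).trans ?_
    gcongr
    exact hB s
  have hn : 1 / 2 ≤ ‖F‖ := hre.trans (re_le_norm F)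
  refine ⟨hn, ?_⟩
  have h2 := Real.mul_abs_le_abs_sin (abs_arg_le_pi_div_two_iff.2 (show 0 ≤ F.re by linarith))
  rw [sin_arg, abs_div, abs_norm, le_div_iff₀ (by linarith)] at h2
  have h3 : 1 / 2 ≤ 2 / Real.pi := by
    rw [div_le_div_iff₀ (by norm_num) Real.pi_pos]; linarith [Real.pi_le_four]
  have h4 : 1 / 2 * |F.arg| * (1 / 2) ≤ 2 / Real.pi * |F.arg| * ‖F‖ := by gcongr
  rw [mul_pow] at him
  linarith

theorem re_prod {ι : Type} (s : Finset ι) (z : ι → ℂ) (b : ℝ)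
    (h : |b| + ∑ i ∈ s, |(z i).arg| ≤ 1) :
    ‖Complex.exp (Complex.I * b) * ∏ i ∈ s, z i‖ ≤
      2 * (Complex.exp (Complex.I * b) * ∏ i ∈ s, z i).re := by
  have e : exp (I * b) * ∏ i ∈ s, z i =
      (∏ i ∈ s, ‖z i‖ : ℝ) * exp ((b + ∑ i ∈ s, (z i).arg : ℝ) * I) := by
    conv_lhs => rw [prod_congr rfl fun i _ => (norm_mul_exp_arg_mul_I (z i)).symm]
    rw [prod_mul_distrib, ← exp_sum, ← sum_mul]
    push_cast
    rw [add_mul, exp_add, mul_comm I]
    ring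
  have h0 : 0 ≤ ∏ i ∈ s, ‖z i‖ := by positivity
  have h2 : |b + ∑ i ∈ s, (z i).arg| ≤ 1 :=
    (abs_add_le _ _).trans (le_trans (by gcongr; exact abs_sum_le_sum_abs _ _) h)
  have h3 := (sq_le_one_iff_abs_le_one _).2 h2
  have h4 := Real.one_sub_sq_div_two_le_cos (x := b + ∑ i ∈ s, (z i).arg)
  rw [e, norm_mul, norm_exp_ofReal_mul_I, re_ofReal_mul, exp_ofReal_mul_I_re, norm_real,
    Real.norm_of_nonneg h0]
  nlinarith

end Pool.Agent.MC.VB
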