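import Pool.Agent.P.MP_2677b3_gt.VbPoly
import Pool.Agent.P.MP_2677b3_gt.VbChf

/-! The local limit theorem for junctions in windows. -/

open Equiv Function Filter Topology Complex

namespace Pool.Agent.MC.VB

theorem llt_param (n K : ℕ) {c : ℝ} (C Cm : ℝ) (hc : 0 < c) : ∃ (ω : ℕ) (δ : ℝ), 0 < ω ∧ 0 < δ ∧
    Cm * δ ≤ 1 ∧ 2 * δ + 2 * ω * (Cm * δ ^ 3) ≤ 1 ∧
    24 * 2 ^ n * (2 ^ (n + 1) * C * δ * Real.exp (10 * c * n)) ≤ c ∧
    60 * 2 ^ n * (2 ^ (n + 1) * C * δ * Real.exp (10 * c * n)) ≤ 1 ∧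
    12 * (n + 1) * ω * (2 ^ n * (2 ^ n * C * δ ^ 3) +
      2 * (n + 1) * (2 * (ω * K + 2) + 1) * Real.exp (-c * ω * δ ^ 2 / 2)) ≤ 1 / 2 := by
  have T1 : Tendsto (fun m : ℕ => (m : ℝ)⁻¹) atTop (𝓝 0) := tendsto_inv_atTop_nhds_zero_nat
  have T2 : ∀ s : ℕ, Tendsto (fun m : ℕ => (m : ℝ) ^ s * Real.exp (-(c / 2) * m)) atTop (𝓝 0) := by
    intro s
    have := (tendsto_rpow_mul_exp_neg_mul_atTop_nhds_zero s (c / 2) (by positivity)).comp
      tendsto_natCast_atTop_atTop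
    refine this.congr fun m => ?_
    simp [Real.rpow_natCast]
  have S : Tendsto (fun m : ℕ => ((m : ℝ)⁻¹) ^ 2) atTop (𝓝 0) := by simpa using T1.pow 2
  have e1 := (S.const_mul Cm).eventually_le_const (show Cm * 0 < 1 by simp)
  have e2 := ((S.const_mul 2).add (T1.const_mul (2 * Cm))).eventually_le_const
    (show 2 * 0 + 2 * Cm * 0 < (1 : ℝ) by simp)
  have e3 := (S.const_mul (24 * 2 ^ n * (2 ^ (n + 1) * C * Real.exp (10 * c * n)))
    ).eventually_le_const (show _ * 0 < c by simpa using hc)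
  have e4 := (S.const_mul (60 * 2 ^ n * (2 ^ (n + 1) * C * Real.exp (10 * c * n)))
    ).eventually_le_const (show _ * 0 < (1 : ℝ) by simp)
  have e5 := ((T1.const_mul (12 * (n + 1) * (2 ^ n * (2 ^ n * C)))).add
    (((T2 10).const_mul (48 * (n + 1) ^ 2 * K : ℝ)).add
      ((T2 5).const_mul (120 * (n + 1) ^ 2 : ℝ)))
    ).eventually_le_const (show _ * 0 + (_ * 0 + _ * 0) < (1 / 2 : ℝ) by simp)
  obtain ⟨m, hm, h1, h2, h3, h4, h5⟩ :=
    ((eventually_gt_atTop 0).and (e1.and (e2.and (e3.and (e4.and e5))))).exists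
  have hm' : (0 : ℝ) < m := by exact_mod_cast hm
  refine ⟨m ^ 5, ((m : ℝ)⁻¹) ^ 2, by positivity, by positivity, h1, ?_, by linarith,
    by linarith, ?_⟩
  · refine le_trans (le_of_eq ?_) h2
    push_cast
    field_simp
  · refine le_trans (le_of_eq ?_) h5
    have : -c * ((m ^ 5 : ℕ) : ℝ) * (((m : ℝ)⁻¹) ^ 2) ^ 2 / 2 = -(c / 2) * m := by
      push_cast
      field_simp
    rw [this]
    push_cast
    field_simp
    ring

/-- The angles. -/
noncomputable def lltTh (h : ℕ) (j : Fin (2 * h + 1)) : ℝ :=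
  2 * Real.pi * ((j : ℝ) - h) / (2 * h + 1)

theorem lltTh_abs (h : ℕ) (j : Fin (2 * h + 1)) : |lltTh h j| ≤ Real.pi := by
  have h1 : (j : ℝ) ≤ 2 * h := by exact_mod_cast Nat.lt_succ_iff.1 j.2
  have h2 : (0 : ℝ) ≤ j := by positivity
  have h3 : (0 : ℝ) < 2 * h + 1 := by positivity
  have := Real.pi_pos
  rw [lltTh, abs_le, le_div_iff₀ h3, div_le_iff₀ h3]
  constructor <;> nlinarith

theorem lltTh_sum (h : ℕ) (m : ℤ) (h0 : m ≠ 0) (h1 : |m| < 2 * h + 1) :
    ∑ j, exp (I * ((lltTh h j * m : ℝ) : ℂ)) = 0 := by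
  have h3 : ((2 * h + 1 : ℕ) : ℂ) ≠ 0 := Nat.cast_ne_zero.2 (by omega)
  set ζ : ℂ := exp (2 * Real.pi * I * m / (2 * h + 1 : ℕ)) with hζ
  have e : ∀ j : Fin (2 * h + 1), exp (I * ((lltTh h j * m : ℝ) : ℂ)) =
      exp (-(2 * Real.pi * I * m / (2 * h + 1 : ℕ)) * h) * ζ ^ (j : ℕ) := fun j => by
    rw [hζ, ← exp_nat_mul, ← exp_add, lltTh]
    congr 1
    push_cast at h3 ⊢
    field_simp
    ring
  have hp : ζ ^ (2 * h + 1) = 1 := by
    rw [hζ, ← exp_nat_mul, mul_div_cancel₀ _ h3, mul_comm _ (m : ℂ)]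
    exact exp_int_mul_two_pi_mul_I m
  have hne : ζ ≠ 1 := by
    intro e1
    obtain ⟨r, hr⟩ := exp_eq_one_iff.1 e1
    rw [div_eq_iff h3] at hr
    have h4 : (m : ℂ) = r * (2 * h + 1 : ℕ) := by
      apply mul_left_cancel₀ two_pi_I_ne_zero
      rw [hr]
      ring
    have h5 : m = r * (2 * h + 1) := by exact_mod_cast h4
    have := Int.le_of_dvd (abs_pos.2 h0) ((dvd_abs _ _).2 ⟨r, by rw [h5, mul_comm]⟩ :
      (2 * h + 1 : ℤ) ∣ |m|)
    omega
  simp only [e]
  rw [← Finset.mul_sum, Fin.sum_univ_eq_sum_range (fun j => ζ ^ j), geom_sum_eq hne, hp, sub_self,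
    zero_div, mul_zero]

theorem llt_chf_zero {S : Type} [Fintype S] {n : ℕ} {π : S → ℝ} (κ : S → Fin n → ℝ)
    (h1 : ∑ s, π s = 1) : chf π κ 0 = 1 := by
  simp only [chf, Pi.zero_apply, zero_mul, Finset.sum_const_zero, ofReal_zero, mul_zero, exp_zero,
    mul_one]
  exact_mod_cast h1

theorem llt_expand {S V W Θ : Type} [Fintype S] [Fintype V] [DecidableEq V] [Fintype W]
    [DecidableEq W] [Fintype Θ] {n : ℕ} (π : S → ℝ) (κ : S → Fin n → ℝ) (win : V → Fin n → W)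
    (σ : V × Fin n → ℝ) (th : Θ → ℝ) (b : W → ℝ) :
    ∑ θ : W → Θ, (∏ w, exp (I * ((-(th (θ w) * b w) : ℝ) : ℂ))) *
        ∏ v, chf π κ (fun i => σ (v, i) * th (θ (win v i))) =
      ∑ st : V → S, (∏ v, (π (st v) : ℂ)) * ∏ w, ∑ j, exp (I * ((th j *
        (∑ p with win p.1 p.2 = w, σ p * κ (st p.1) p.2 - b w) : ℝ) : ℂ)) := by
  simp only [chf, Fintype.prod_sum, Finset.mul_sum]
  rw [Finset.sum_comm]
  refine Finset.sum_congr rfl fun st _ => Finset.sum_congr rfl fun θ _ => ?_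
  rw [Finset.prod_mul_distrib, mul_left_comm, ← exp_sum, ← exp_sum, ← exp_sum, ← exp_add,
    ← Finset.mul_sum, ← Finset.mul_sum, ← Finset.mul_sum, ← mul_add, ← ofReal_sum, ← ofReal_sum,
    ← ofReal_sum, ← ofReal_add]
  congr 4
  rw [← Fintype.sum_prod_type (f := fun p : V × Fin n =>
      σ (p.1, p.2) * th (θ (win p.1 p.2)) * κ (st p.1) p.2),
    ← Finset.sum_fiberwise (s := Finset.univ) (g := fun p : V × Fin n => win p.1 p.2),
    ← Finset.sum_add_distrib]
  refine Finset.sum_congr rfl fun w _ => ?_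
  rw [mul_sub, Finset.mul_sum, neg_add_eq_sub]
  congr 1
  refine Finset.sum_congr rfl fun p hp => ?_
  rw [(Finset.mem_filter.1 hp).2]
  ring

theorem llt {S : Type} [Fintype S] {n : ℕ} (π : S → ℝ) (k : S → Fin n → ℤ) (μ : ℝ)
    (hπ : ∀ s, 0 < π s) (h1 : ∑ s, π s = 1) (hm : ∀ i, ∑ s, π s * k s i = μ)
    (hc : ∀ i j, i ≠ j → ∑ s, π s * (k s i * k s j) = μ ^ 2)
    (hl : ∀ i, ∃ c : S → ℤ, ∑ s, c s = 0 ∧ ∀ j, ∑ s, c s * k s j = if j = i then 1 else 0) :
    ∃ ω : ℕ, 0 < ω ∧ ∀ (V W : Type) [Fintype V] [Fintype W] [DecidableEq W] (win : V → Fin n → W)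
      (σ : V × Fin n → ℤ) (t : W → ℤ), Win win ω → (∀ p, σ p = 1 ∨ σ p = -1) →
      (∀ w, |(t w : ℝ) - μ * ∑ p with win p.1 p.2 = w, (σ p : ℝ)| ≤ 2) →
      ∃ st : V → S, ∀ w, ∑ p with win p.1 p.2 = w, σ p * k (st p.1) p.2 = t w := by
  classical
  set κ : S → Fin n → ℝ := fun s i => k s i - μ with hκ
  have m0 : ∀ i, ∑ s, π s * κ s i = 0 := fun i => by
    simp only [hκ, mul_sub, Finset.sum_sub_distrib, hm, ← Finset.sum_mul, h1, one_mul, sub_self]
  have c0 : ∀ i j, i ≠ j → ∑ s, π s * (κ s i * κ s j) = 0 := fun i j hij => by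
    have : ∀ s, π s * (κ s i * κ s j) = π s * (k s i * k s j) - μ * (π s * k s i) -
        μ * (π s * k s j) + μ ^ 2 * π s := fun s => by
      simp only [hκ]
      ring
    simp only [this, Finset.sum_add_distrib, Finset.sum_sub_distrib, ← Finset.mul_sum, hm, h1,
      hc i j hij]
    ring
  obtain ⟨c, c1, hdec⟩ := chf_decay π k μ hπ h1 hl
  obtain ⟨C, C0, hrest⟩ := chf_rest π κ (fun s => (hπ s).le) h1 m0 c0
  obtain ⟨Cm, Cm0, hmarg⟩ := chf_marg π κ (fun s => (hπ s).le) h1 m0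
  obtain ⟨K, hK⟩ : ∃ K : ℕ, ∀ s i, |κ s i| ≤ K := by
    obtain ⟨K, hK⟩ := (Set.finite_range fun p : S × Fin n => |κ p.1 p.2|).bddAbove
    exact ⟨⌈K⌉₊, fun s i => (hK ⟨(s, i), rfl⟩).trans (Nat.le_ceil K)⟩
  obtain ⟨ω, δ, hω, hδ, p1, p2, p3, p4, p5⟩ := llt_param n K C Cm c1
  refine ⟨ω, hω, fun V W _ _ _ win σ t hw hσ ht => ?_⟩
  by_contra hcon
  push Not at hcon
  set th := lltTh (ω * K + 2) with hth
  set b : W → ℝ := fun w => t w - μ * ∑ p with win p.1 p.2 = w, (σ p : ℝ) with hb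
  have hσ1 : ∀ p x, |(σ p : ℝ) * x| = |x| := fun p x => by
    rcases hσ p with e | e <;> simp [e]
  have hσ2 : ∀ p x, ((σ p : ℝ) * x) ^ 2 = x ^ 2 := fun p x => by rw [← sq_abs, hσ1, sq_abs]
  let lg : Fin (2 * (ω * K + 2) + 1) → Prop := fun j => δ < |th j|
  let F : V × Fin n → Fin (2 * (ω * K + 2) + 1) → ℂ := fun p j =>
    chf π κ (Pi.single p.2 (σ p * th j))
  let E : W → Fin (2 * (ω * K + 2) + 1) → ℂ := fun w j => exp (I * ((-(th j * b w) : ℝ) : ℂ))
  let g : W → Fin (2 * (ω * K + 2) + 1) → ℂ := fun w j =>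
    E w j * ∏ p with win p.1 p.2 = w, F p j
  let z : W → ℂ := fun w => ∑ j with ¬ lg j, g w j
  have hF : ∀ p j, ¬ lg j → 1 / 2 ≤ ‖F p j‖ ∧ |(F p j).arg| ≤ Cm * δ ^ 3 := fun p j hj => by
    have hj' : |th j| ≤ δ := not_lt.1 hj
    have := hmarg p.2 (σ p * th j) (by
      rw [hσ1]
      exact (mul_le_mul_of_nonneg_left hj' Cm0.le).trans p1)
    rw [hσ1] at this
    exact ⟨this.1, this.2.trans (by gcongr)⟩
  have hg : ∀ w, ∑ j with ¬ lg j, ‖g w j‖ ≤ 2 * ‖z w‖ := fun w => by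
    refine le_trans ?_ (mul_le_mul_of_nonneg_left (re_le_norm (z w)) zero_le_two)
    rw [re_sum, Finset.mul_sum]
    refine Finset.sum_le_sum fun j hj => re_prod _ _ _ (le_trans (add_le_add ?_ ?_) p2)
    · have hj' : |th j| ≤ δ := not_lt.1 (Finset.mem_filter.1 hj).2
      rw [abs_neg, abs_mul, mul_comm]
      exact mul_le_mul (ht w) hj' (abs_nonneg _) zero_le_two
    · refine (Finset.sum_le_card_nsmul _ _ _ fun p _ =>
        (hF p j (Finset.mem_filter.1 hj).2).2).trans ?_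
      rw [nsmul_eq_mul]
      refine mul_le_mul_of_nonneg_right ?_ (by positivity)
      exact_mod_cast (hw.size w).2
  have hz : ∀ w, 1 / 2 ≤ ‖z w‖ := fun w => by
    let j0 : Fin (2 * (ω * K + 2) + 1) := ⟨ω * K + 2, by omega⟩
    have e0 : th j0 = 0 := by simp [hth, lltTh, j0]
    have e1 : ‖g w j0‖ = 1 := by simp [g, E, F, e0, llt_chf_zero κ h1]
    have := Finset.single_le_sum (f := fun j => ‖g w j‖) (fun _ _ => norm_nonneg _)
      (show j0 ∈ Finset.univ.filter fun j => ¬ lg j by simp [lg, e0, hδ.le])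
    linarith [hg w]
  have hz0 : ∀ w, z w ≠ 0 := fun w => norm_pos_iff.1 (by linarith [hz w])
  let L : (Fin n → Fin (2 * (ω * K + 2) + 1)) → Finset (Fin n) := fun η =>
    Finset.univ.filter fun i => lg (η i)
  let x : V → (Fin n → Fin (2 * (ω * K + 2) + 1)) → Fin n → ℝ := fun v η i =>
    σ (v, i) * th (η i)
  let A : V → (Fin n → Fin (2 * (ω * K + 2) + 1)) → ℂ := fun v η =>
    chf π κ fun i => if i ∈ L η then x v η i else 0
  let P : V → (Fin n → Fin (2 * (ω * K + 2) + 1)) → ℂ := fun v η =>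
    ∏ i ∈ (L η)ᶜ, F (v, i) (η i)
  let ρ : V → (Fin n → Fin (2 * (ω * K + 2) + 1)) → ℂ := fun v η =>
    (chf π κ (x v η) - A v η * P v η) / P v η
  have hL : ∀ η i, i ∈ L η ↔ lg (η i) := fun η i => by simp [L]
  have hP : ∀ v η, (1 / 2) ^ n ≤ ‖P v η‖ := fun v η => by
    rw [norm_prod]
    refine le_trans ?_ (Finset.prod_le_prod (f := fun _ => (1 / 2 : ℝ)) (fun _ _ => by norm_num)
      fun i hi => (hF (v, i) (η i) (by rwa [Finset.mem_compl, hL] at hi)).1)
    rw [Finset.prod_const]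
    exact pow_le_pow_of_le_one (by norm_num) (by norm_num)
      ((Finset.card_le_univ _).trans (Fintype.card_fin n).le)
  have hP0 : ∀ v η, P v η ≠ 0 := fun v η =>
    norm_pos_iff.1 (lt_of_lt_of_le (by positivity) (hP v η))
  have hρ : ∀ v η, ‖ρ v η‖ ≤ 2 ^ n * (C * δ * (δ ^ 2 + ∑ i ∈ L η, th (η i) ^ 2)) := fun v η => by
    have := hrest δ (x v η) (L η) hδ.le fun i hi => by
      rw [hσ1]
      exact not_lt.1 (mt (hL η i).2 hi)
    simp only [x, hσ2] at this
    rw [norm_div, div_le_iff₀ (norm_pos_iff.2 (hP0 v η))]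
    refine le_trans this ?_
    have h2 : 1 ≤ 2 ^ n * ‖P v η‖ := by
      have := mul_le_mul_of_nonneg_left (hP v η) (by positivity : (0 : ℝ) ≤ 2 ^ n)
      rwa [← mul_pow, mul_one_div_cancel two_ne_zero, one_pow] at this
    have h3 : 0 ≤ ∑ i ∈ L η, th (η i) ^ 2 := Finset.sum_nonneg fun _ _ => sq_nonneg _
    rw [mul_right_comm (2 ^ n)]
    exact le_mul_of_one_le_left
      (mul_nonneg (mul_nonneg C0 hδ.le) (add_nonneg (sq_nonneg _) h3)) h2
  have hq : ∀ j, lg j → δ ^ 2 ≤ th j ^ 2 ∧ th j ^ 2 ≤ 10 := fun j hj => by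
    rw [← sq_abs (th j)]
    have h2 := lltTh_abs _ j
    have h3 := Real.pi_lt_d2
    have h4 : δ < |th j| := hj
    constructor <;> nlinarith [abs_nonneg (th j)]
  refine poly win hw hω lg (fun j => th j ^ 2)
    (fun w j => if lg j then E w j / z w else g w j / z w) A ρ c (δ ^ 2) (2 ^ n * C * δ ^ 3)
    (2 ^ (n + 1) * C * δ * Real.exp (10 * c * n)) (by positivity) hq (by positivity)
    (by positivity) (fun w => ?_) (fun w => ?_) (fun w j hj => ?_) (fun v η η' h => ?_)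
    (fun v η h => ⟨?_, ?_⟩) (fun v η => ?_) (fun v η h => ?_) p3 p4 (by simpa using p5) ?_
  · rw [Finset.sum_congr rfl fun j hj => if_neg (Finset.mem_filter.1 hj).2, ← Finset.sum_div,
      div_self (hz0 w)]
  · rw [Finset.sum_congr rfl fun j hj => by
      rw [if_neg (Finset.mem_filter.1 hj).2, norm_div], ← Finset.sum_div,
      div_le_iff₀ (norm_pos_iff.2 (hz0 w))]
    exact hg w
  · rw [if_pos hj, norm_div, norm_exp_I_mul_ofReal, div_le_iff₀ (norm_pos_iff.2 (hz0 w))]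
    linarith [hz w]
  · refine congrArg (chf π κ) (funext fun i => ?_)
    simp only [hL, x]
    by_cases h2 : lg (η i) ∨ lg (η' i)
    · rw [h i h2]
    · rw [if_neg fun e => h2 (Or.inl e), if_neg fun e => h2 (Or.inr e)]
  · rw [← llt_chf_zero κ h1]
    exact congrArg (chf π κ) (funext fun i => if_neg (mt (hL η i).1 (h i)))
  · refine (hρ v η).trans (le_of_eq ?_)
    rw [Finset.sum_eq_zero fun i hi => absurd ((hL η i).1 hi) (h i)]
    ring
  · refine (hdec _ fun i => ?_).trans (le_of_eq ?_)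
    · split_ifs
      · exact (hσ1 _ _).trans_le (lltTh_abs _ _)
      · simpa using Real.pi_pos.le
    · rw [Finset.sum_filter]
      congr 2
      refine Finset.sum_congr rfl fun i _ => ?_
      simp only [hL, x]
      split_ifs
      · exact hσ2 _ _
      · simp
  · obtain ⟨i, hi⟩ := h
    have h2 : δ ^ 2 ≤ ∑ i ∈ L η, th (η i) ^ 2 := (hq _ hi).1.trans
      (Finset.single_le_sum (f := fun i => th (η i) ^ 2) (fun _ _ => sq_nonneg _) ((hL η i).2 hi))
    have h3 : ∑ i ∈ L η, th (η i) ^ 2 ≤ n * 10 := by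
      refine (Finset.sum_le_card_nsmul _ _ _ fun i hi => (hq _ ((hL η i).1 hi)).2).trans ?_
      rw [nsmul_eq_mul]
      refine mul_le_mul_of_nonneg_right ?_ (by norm_num)
      exact_mod_cast (Finset.card_le_univ _).trans (Fintype.card_fin n).le
    refine (hρ v η).trans ?_
    change _ ≤ _ * (∑ i ∈ L η, th (η i) ^ 2) * Real.exp (-c * ∑ i ∈ L η, th (η i) ^ 2)
    set Q := ∑ i ∈ L η, th (η i) ^ 2
    have h4 : 1 ≤ Real.exp (10 * c * n) * Real.exp (-c * Q) := by
      rw [← Real.exp_add]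
      exact Real.one_le_exp (by nlinarith)
    have h5 : 0 ≤ Q := (sq_nonneg δ).trans h2
    calc 2 ^ n * (C * δ * (δ ^ 2 + Q)) ≤ 2 ^ n * (C * δ * (Q + Q)) := by gcongr
      _ = 2 ^ (n + 1) * C * δ * Q * 1 := by ring
      _ ≤ 2 ^ (n + 1) * C * δ * Q * (Real.exp (10 * c * n) * Real.exp (-c * Q)) := by gcongr
      _ = _ := by ring
  · have key : ∀ θ : W → Fin (2 * (ω * K + 2) + 1),
        (∏ w, if lg (θ w) then E w (θ w) / z w else g w (θ w) / z w) *
          ∏ v, (A v (fun i => θ (win v i)) + ρ v fun i => θ (win v i)) =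
        (∏ w, (z w)⁻¹) * ((∏ w, E w (θ w)) * ∏ v, chf π κ (x v fun i => θ (win v i))) := by
      intro θ
      have e1 : ∀ v η, A v η + ρ v η = chf π κ (x v η) * (P v η)⁻¹ := fun v η => by
        simp only [ρ]
        field_simp [hP0 v η]
        ring
      have e2 : ∏ v, P v (fun i => θ (win v i)) =
          ∏ w, if lg (θ w) then 1 else ∏ p with win p.1 p.2 = w, F p (θ w) := by
        have : ∀ v, P v (fun i => θ (win v i)) =
            ∏ i, if lg (θ (win v i)) then 1 else F (v, i) (θ (win v i)) := fun v => by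
          rw [Finset.prod_ite, Finset.prod_const_one, one_mul]
          refine Finset.prod_congr ?_ fun _ _ => rfl
          ext i
          simp [hL]
        simp only [this]
        rw [← Fintype.prod_prod_type (f := fun p : V × Fin n =>
            if lg (θ (win p.1 p.2)) then 1 else F (p.1, p.2) (θ (win p.1 p.2))),
          ← Finset.prod_fiberwise (s := Finset.univ) (g := fun p : V × Fin n => win p.1 p.2)]
        refine Finset.prod_congr rfl fun w _ => ?_
        rw [Finset.prod_congr rfl fun p hp => by rw [(Finset.mem_filter.1 hp).2]]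
        split_ifs <;> simp
      have e3 : (∏ w, if lg (θ w) then E w (θ w) / z w else g w (θ w) / z w) =
          (∏ w, (z w)⁻¹) * (∏ w, E w (θ w)) * ∏ v, P v (fun i => θ (win v i)) := by
        rw [e2, ← Finset.prod_mul_distrib, ← Finset.prod_mul_distrib]
        refine Finset.prod_congr rfl fun w _ => ?_
        simp only [g]
        split_ifs <;> ring
      have e4 : ∏ v, P v (fun i => θ (win v i)) ≠ 0 := Finset.prod_ne_zero_iff.2 fun v _ => hP0 _ _
      simp only [e1]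
      rw [e3, Finset.prod_mul_distrib, Finset.prod_inv_distrib (f := fun v => P v _)]
      field_simp
    simp only [key]
    rw [← Finset.mul_sum, llt_expand π κ win (fun p => σ p) th b, Finset.sum_eq_zero, mul_zero]
    intro st _
    obtain ⟨w, hw'⟩ := hcon st
    refine mul_eq_zero_of_right _ (Finset.prod_eq_zero (Finset.mem_univ w) ?_)
    have e : ∑ p with win p.1 p.2 = w, (σ p : ℝ) * κ (st p.1) p.2 - b w =
        ((∑ p with win p.1 p.2 = w, σ p * k (st p.1) p.2 - t w : ℤ) : ℝ) := by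
      simp only [hκ, hb, mul_sub, Finset.sum_sub_distrib, ← Finset.sum_mul]
      push_cast
      ring
    rw [e]
    refine lltTh_sum _ _ (sub_ne_zero.2 hw') ?_
    have h2 : |∑ p with win p.1 p.2 = w, (σ p : ℝ) * κ (st p.1) p.2| ≤ 2 * ω * K := by
      refine (Finset.abs_sum_le_sum_abs _ _).trans ((Finset.sum_le_card_nsmul _ _ (K : ℝ)
        fun p _ => (hσ1 _ _).trans_le (hK _ _)).trans ?_)
      rw [nsmul_eq_mul]
      refine mul_le_mul_of_nonneg_right ?_ (by positivity)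
      exact_mod_cast (hw.size w).2
    have h3 := (abs_sub _ _).trans (add_le_add h2 (ht w))
    rw [e] at h3
    have h4 : |∑ p with win p.1 p.2 = w, σ p * k (st p.1) p.2 - t w| ≤ 2 * ω * K + 2 := by
      exact_mod_cast h3
    push_cast
    linarith

end Pool.Agent.MC.VB
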