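import Pool.Agent.P.MP_2677b3_gt.VbUtil
import Pool.Agent.P.MP_2677b3_gt.VbLaw
import Pool.Agent.P.MP_2677b3_gt.VbLlt

/-! Balanced assignments, part A: states of the random junctions with prescribed face sums. -/

open Equiv Function

namespace Pool.Agent.MC.VB

open LL

/-- Half the length of side number `i` of a random junction in state `s`. -/
def asgK (s : Fin 10 × Fin 16) (i : ℕ) : ℤ :=
  ((kk.getD s.1.val []).getD ((i + s.2.val) % 16) 0 : ℕ)

/-- The conclusion of the local limit theorem for the law of the junctions. -/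
def AsgL (ω : ℕ) : Prop :=
  ∀ (V W : Type) [Fintype V] [Fintype W] [DecidableEq W] (win : V → Fin 16 → W)
    (σ : V × Fin 16 → ℤ) (t : W → ℤ), Win win ω → (∀ p, σ p = 1 ∨ σ p = -1) →
    (∀ w, |(t w : ℝ) - 9 / 2 * ∑ p with win p.1 p.2 = w, (σ p : ℝ)| ≤ 2) →
    ∃ st : V → Fin 10 × Fin 16, ∀ w, ∑ p with win p.1 p.2 = w, σ p * kS (st p.1) p.2 = t w

theorem asg_L : ∃ ω, 0 < ω ∧ AsgL ω := by
  obtain ⟨π, h1, h2, h3, h4, h5⟩ := law
  exact llt π kS (9 / 2) h1 h2 h3 h4 h5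

section Coord

variable {D : Type} [Finite D] {σ : Perm D} (c : Coord σ)

theorem asg_bb (d : D) : c.base (c.base d) = c.base d := by
  have h := (c.pos_iter (c.base d) (c.pos d)).2.1
  rw [c.iter] at h
  exact h.symm

omit [Finite D] in
theorem asg_inv {β : Sort _} {P : D → β} (h : ∀ e, P (σ e) = P e) (i : ℕ) (e : D) :
    P (σ^[i] e) = P e := by
  induction i with
  | zero => rfl
  | succ i ih => rw [iterate_succ_apply', h, ih]

omit [Finite D] in
theorem asg_base {β : Sort _} {P : D → β} (h : ∀ e, P (σ e) = P e) (e : D) :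
    P (c.base e) = P e := by
  rw [← asg_inv h (c.pos e), c.iter]

theorem asg_pos (d : D) (i : ℕ) : c.pos (σ^[i] d) = (i + c.pos d) % minimalPeriod σ d := by
  rw [← (c.pos_iter d (i + c.pos d)).2.2.2.2, iterate_add_apply, c.iter]

omit [Finite D] in
theorem asg_ext {d e : D} (h1 : c.base d = c.base e) (h2 : c.pos d = c.pos e) : d = e := by
  rw [← c.iter d, h1, h2, c.iter]

theorem asg_per {d e : D} (h : c.base d = c.base e) : minimalPeriod σ d = minimalPeriod σ e := by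
  rw [← (c.pos_iter d 0).2.2.2.1, h, (c.pos_iter e 0).2.2.2.1]

end Coord

open Classical in
theorem asg_fib {D : Type} [Fintype D] {σ : Perm D} (c : Coord σ) (d : D) :
    (Finset.univ.filter fun e => c.base e = c.base d).card = minimalPeriod σ d := by
  rw [Finset.card_eq_sum_ones, c.sum_eq d fun _ => 1]
  simp

open Classical in
theorem asg_slots {D : Type} [Fintype D] {ψ : Perm D} (cv : Coord ψ) (act : D → Prop)
    (h1 : ∀ e, act (ψ e) = act e) (h2 : ∀ e, act e → minimalPeriod ψ e = 16) {β : Type}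
    [AddCommMonoid β] (Q : D → Prop) (F : D → β) :
    ∑ p : {v // cv.base v = v ∧ act v} × Fin 16 with Q (ψ^[p.2] p.1), F (ψ^[p.2] p.1) =
      ∑ e with act e ∧ Q e, F e := by
  refine Finset.sum_bij (fun p _ => ψ^[p.2] p.1) ?_ ?_ ?_ fun _ _ => rfl
  · intro p hp
    rw [Finset.mem_filter] at hp ⊢
    exact ⟨Finset.mem_univ _, (asg_inv h1 _ _).mpr p.1.2.2, hp.2⟩
  · intro p _ p' _ h
    have a1 := congrArg cv.base h
    have a2 := congrArg cv.pos h
    rw [asg_inv cv.base_σ, asg_inv cv.base_σ, p.1.2.1, p'.1.2.1] at a1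
    have z : ∀ v : {v // cv.base v = v ∧ act v}, cv.pos v.1 = 0 := fun v => by
      rw [← v.2.1]
      exact (cv.pos_iter _ 0).1
    rw [asg_pos, asg_pos, z, z, h2 _ p.1.2.2, h2 _ p'.1.2.2] at a2
    exact Prod.ext (Subtype.ext a1) (Fin.ext (by omega))
  · intro e he
    rw [Finset.mem_filter] at he
    refine ⟨(⟨cv.base e, asg_bb cv e, (asg_base cv h1 e).mpr he.2.1⟩,
      ⟨cv.pos e, h2 e he.2.1 ▸ cv.pos_lt e⟩), ?_, cv.iter e⟩
    rw [Finset.mem_filter]
    refine ⟨Finset.mem_univ _, ?_⟩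
    have := cv.iter e
    simp only [this]
    exact he.2.2

open Classical in
theorem asg_face {D : Type} (A : Finset D) (v : D → D) (σ : D → ℤ) (T : ℤ) {ω : ℕ} (hω : 0 < ω)
    (hv : ∀ b, (A.filter fun a => v a = b).card ≤ 16) (hA : 16 * ω ≤ A.card)
    (hT : |(T : ℝ) - 9 / 2 * ∑ e ∈ A, (σ e : ℝ)| ≤ (A.card / ω : ℕ)) :
    ∃ (col : D → ℕ) (y : ℕ → ℤ), (∀ a ∈ A, col a < A.card / ω) ∧
      (∀ a ∈ A, ∀ b ∈ A, v a = v b → col a = col b → a = b) ∧
      ∑ j ∈ Finset.range (A.card / ω), y j = T ∧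
      ∀ j < A.card / ω, (ω ≤ (A.filter fun a => col a = j).card ∧
        (A.filter fun a => col a = j).card ≤ 2 * ω) ∧
        |(y j : ℝ) - 9 / 2 * ∑ e ∈ A with col e = j, (σ e : ℝ)| ≤ 2 := by
  obtain ⟨col, h1, h2, h3⟩ := deal A v ω hω hv hA
  obtain ⟨y, h4, h5⟩ := round_sum (A.card / ω)
    (fun j => 9 / 2 * ∑ e ∈ A with col e = j, (σ e : ℝ)) T (by
      rw [← Finset.mul_sum, Finset.sum_fiberwise_of_maps_to
        fun a ha => Finset.mem_range.2 (h1 a ha)]
      exact hT)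
  exact ⟨col, y, h1, h2, h4, fun j hj => ⟨h3 j hj, h5 j hj⟩⟩

open Classical in
theorem asg_states {ω : ℕ} (hω : 0 < ω) (hL : AsgL ω) {D : Type} [Fintype D] {ψ : Perm D}
    (cv : Coord ψ) (act : D → Prop) (h1 : ∀ e, act (ψ e) = act e)
    (h2 : ∀ e, act e → minimalPeriod ψ e = 16) (fc : D → D) (σ T : D → ℤ)
    (hσ : ∀ e, σ e = 1 ∨ σ e = -1)
    (hn : ∀ d, 16 * ω ≤ (Finset.univ.filter fun e => act e ∧ fc e = fc d).card ∧
      |(T (fc d) : ℝ) - 9 / 2 * ∑ e with act e ∧ fc e = fc d, (σ e : ℝ)| ≤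
        ((Finset.univ.filter fun e => act e ∧ fc e = fc d).card / ω : ℕ)) :
    ∃ st : D → Fin 10 × Fin 16, (∀ e, st (ψ e) = st e) ∧
      ∀ d, ∑ e with act e ∧ fc e = fc d, σ e * asgK (st e) (cv.pos e) = T (fc d) := by
  let A : D → Finset D := fun b => Finset.univ.filter fun e => act e ∧ fc e = b
  have mA : ∀ b e, e ∈ A b ↔ act e ∧ fc e = b := fun b e => by simp [A]
  have hv : ∀ b x, ((A b).filter fun a => cv.base a = x).card ≤ 16 := fun b x => by
    rcases ((A b).filter fun a => cv.base a = x).eq_empty_or_nonempty with h | ⟨e, he⟩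
    · simp [h]
    · rw [Finset.mem_filter, mA] at he
      rw [← h2 e he.1.1, ← asg_fib cv e, he.2]
      exact Finset.card_le_card (Finset.filter_subset_filter _ (Finset.subset_univ _))
  have key : ∀ b, ∃ (col : D → ℕ) (y : ℕ → ℤ), (∃ d, fc d = b) →
      (∀ a ∈ A b, col a < (A b).card / ω) ∧
      (∀ a ∈ A b, ∀ a' ∈ A b, cv.base a = cv.base a' → col a = col a' → a = a') ∧
      ∑ j ∈ Finset.range ((A b).card / ω), y j = T b ∧
      ∀ j < (A b).card / ω, (ω ≤ ((A b).filter fun a => col a = j).card ∧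
        ((A b).filter fun a => col a = j).card ≤ 2 * ω) ∧
        |(y j : ℝ) - 9 / 2 * ∑ e ∈ A b with col e = j, (σ e : ℝ)| ≤ 2 := fun b => by
    by_cases hb : ∃ d, fc d = b
    · obtain ⟨d, rfl⟩ := hb
      obtain ⟨col, y, h⟩ := asg_face (A (fc d)) cv.base σ (T (fc d)) hω (hv _) (hn d).1 (hn d).2
      exact ⟨col, y, fun _ => h⟩
    · exact ⟨fun _ => 0, fun _ => 0, fun h => (hb h).elim⟩
  choose col y key using key
  let Wn : Finset (D × ℕ) := (Finset.univ ×ˢ Finset.range (Fintype.card D)).filter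
    fun w => (∃ d, fc d = w.1) ∧ w.2 < (A w.1).card / ω
  have mW : ∀ w : D × ℕ, w ∈ Wn ↔ (∃ d, fc d = w.1) ∧ w.2 < (A w.1).card / ω := fun w => by
    rw [Finset.mem_filter, Finset.mem_product, Finset.mem_range]
    refine ⟨fun h => h.2, fun h => ⟨⟨Finset.mem_univ _, ?_⟩, h⟩⟩
    exact lt_of_lt_of_le h.2 ((Nat.div_le_self _ _).trans (Finset.card_le_univ _))
  have ha : ∀ (v : {v // cv.base v = v ∧ act v}) (i : ℕ), ψ^[i] v.1 ∈ A (fc (ψ^[i] v.1)) :=
    fun v i => (mA _ _).2 ⟨(asg_inv h1 _ _).mpr v.2.2, rfl⟩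
  let win : {v // cv.base v = v ∧ act v} → Fin 16 → Wn := fun v i =>
    ⟨(fc (ψ^[i] v.1), col (fc (ψ^[i] v.1)) (ψ^[i] v.1)),
      (mW _).2 ⟨⟨_, rfl⟩, (key _ ⟨_, rfl⟩).1 _ (ha v i)⟩⟩
  have hs : ∀ {β : Type} [AddCommMonoid β] (F : D → β) (w : Wn),
      ∑ p : {v // cv.base v = v ∧ act v} × Fin 16 with win p.1 p.2 = w, F (ψ^[p.2] p.1) =
        ∑ e ∈ A w.1.1 with col w.1.1 e = w.1.2, F e := fun F w => by
    have e1 := asg_slots cv act h1 h2 (fun e => fc e = w.1.1 ∧ col w.1.1 e = w.1.2) F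
    refine Eq.trans (Finset.sum_congr ?_ fun _ _ => rfl) (e1.trans (Finset.sum_congr ?_
      fun _ _ => rfl))
    · ext p
      simp only [Finset.mem_filter, Finset.mem_univ, true_and]
      rw [Subtype.ext_iff, Prod.ext_iff]
      exact and_congr_right fun h => by rw [← h]
    · ext e
      simp only [Finset.mem_filter, Finset.mem_univ, true_and, mA, and_assoc]
  have z : ∀ (v : {v // cv.base v = v ∧ act v}) (i : Fin 16), cv.pos (ψ^[i] v.1) = i :=
    fun v i => by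
    have : cv.pos v.1 = 0 := by
      rw [← v.2.1]
      exact (cv.pos_iter _ 0).1
    rw [asg_pos, this, h2 _ v.2.2]
    omega
  obtain ⟨st, hst⟩ := hL _ Wn win (fun p => σ (ψ^[p.2] p.1)) (fun w => y w.1.1 w.1.2)
    ⟨fun v i j h => by
      have a := congrArg Subtype.val h
      have a1 : fc (ψ^[i] v.1) = fc (ψ^[j] v.1) := congrArg Prod.fst a
      have a2 : col (fc (ψ^[i] v.1)) (ψ^[i] v.1) = col (fc (ψ^[j] v.1)) (ψ^[j] v.1) :=
        congrArg Prod.snd a
      have a3 := (key _ ⟨_, rfl⟩).2.1 _ (a1 ▸ ha v i) _ (ha v j)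
        (by rw [asg_inv cv.base_σ, asg_inv cv.base_σ]) (by rw [← a2, a1])
      exact Fin.ext (by rw [← z v i, a3, z]),
    fun w => by
      have e := hs (fun _ => 1) w
      rw [← Finset.card_eq_sum_ones, ← Finset.card_eq_sum_ones] at e
      rw [e]
      exact ((key _ ((mW _).1 w.2).1).2.2.2 _ ((mW _).1 w.2).2).1⟩
    (fun p => hσ _) fun w => by
      rw [hs (fun e => (σ e : ℝ)) w]
      exact ((key _ ((mW _).1 w.2).1).2.2.2 _ ((mW _).1 w.2).2).2
  refine ⟨fun e => extend Subtype.val st (fun _ => 0) (cv.base e), fun e => by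
    simp only [cv.base_σ], fun d => ?_⟩
  obtain ⟨k1, -, k3, -⟩ := key (fc d) ⟨d, rfl⟩
  rw [← k3, ← Finset.sum_fiberwise_of_maps_to fun a ha => Finset.mem_range.2 (k1 a ha)]
  refine Finset.sum_congr rfl fun j hj => ?_
  let w : Wn := ⟨(fc d, j), (mW _).2 ⟨⟨d, rfl⟩, Finset.mem_range.1 hj⟩⟩
  refine (hs _ w).symm.trans (Eq.trans (Finset.sum_congr rfl fun p _ => ?_) (hst w))
  beta_reduce
  rw [asg_inv cv.base_σ, p.1.2.1, Subtype.val_injective.extend_apply, z]
  rfl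

end Pool.Agent.MC.VB
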