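import Pool.Agent.P.MP_2677b3_gt.VbDefs
import Pool.Agent.P.MP_2677b3_gt.GeLin

/-! The cone from a point over a bisector has bounded area. -/

open Equiv Function UpperHalfPlane MeasureTheory
open scoped ENNReal NNReal MatrixGroups

namespace Pool.Agent.MC.VB

open LL Ge

/-- A cusp region. -/
def coneS : Set ℍ := {z | z.re ∈ Set.Icc (0 : ℝ) 1 ∧ z.im ∈ Set.Ici (1 / 2 : ℝ)}

theorem cone_S_fin : volume coneS ≠ ∞ := by
  rw [volume_eq_lintegral]
  have h1 : (UpperHalfPlane.coe '' coneS) ⊆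
      Complex.measurableEquivRealProd ⁻¹' (Set.Icc (0 : ℝ) 1 ×ˢ Set.Ici (1 / 2 : ℝ)) := by
    rintro _ ⟨z, hz, rfl⟩
    exact hz
  refine ne_top_of_le_ne_top ?_ (lintegral_mono_set h1)
  have h2 := Complex.volume_preserving_equiv_real_prod.setLIntegral_comp_preimage_emb
    Complex.measurableEquivRealProd.measurableEmbedding
    (fun p : ℝ × ℝ => (((1 / ‖p.2‖₊) ^ 2 : ℝ≥0) : ℝ≥0∞)) (Set.Icc (0 : ℝ) 1 ×ˢ Set.Ici (1 / 2 : ℝ))
  have hm : Measurable fun y : ℝ => (((1 / ‖y‖₊) ^ 2 : ℝ≥0) : ℝ≥0∞) := by fun_prop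
  refine ne_of_eq_of_ne h2 ?_
  rw [Measure.volume_eq_prod, ← Measure.prod_restrict,
    lintegral_prod (fun p : ℝ × ℝ => (((1 / ‖p.2‖₊) ^ 2 : ℝ≥0) : ℝ≥0∞))
      (hm.comp measurable_snd).aemeasurable]
  simp only [lintegral_const, Measure.restrict_apply MeasurableSet.univ, Set.univ_inter,
    Real.volume_Icc]
  refine ENNReal.mul_ne_top ?_ ENNReal.ofReal_ne_top
  have h3 : IntegrableOn (fun y : ℝ => y ^ (-2 : ℝ)) (Set.Ici (1 / 2 : ℝ)) :=
    (integrableOn_Ici_iff_integrableOn_Ioi).2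
      (integrableOn_Ioi_rpow_of_lt (by norm_num) (by norm_num))
  refine ne_of_eq_of_ne (setLIntegral_congr_fun measurableSet_Ici fun y hy => ?_) h3.2.ne
  have hy0 : 0 < y := lt_of_lt_of_le (by norm_num) hy
  rw [enorm_eq_nnnorm]
  congr 1
  ext
  simp only [NNReal.coe_pow, NNReal.coe_div, NNReal.coe_one, coe_nnnorm, Real.norm_eq_abs]
  rw [abs_of_pos hy0, abs_of_pos (Real.rpow_pos_of_pos hy0 _), Real.rpow_neg hy0.le, Real.rpow_two]
  field_simp

theorem cone_S_mem {z : ℍ} (h1 : 0 ≤ (vec z).2.1) (h2 : (vec z).2.1 ≤ (vec z).2.2)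
    (h3 : (vec z).2.2 ≤ 2) : z ∈ coneS := by
  have hz := z.im_pos
  simp only [vec] at h1 h2 h3
  rw [div_le_div_iff_of_pos_right hz] at h2
  rw [div_le_iff₀ hz] at h3
  exact ⟨⟨(div_nonneg_iff.1 h1).elim (fun h => h.1) fun h => absurd h.2 (not_le.2 hz), h2⟩,
    by simp only [Set.mem_Ici]; linarith⟩

theorem cone_mat {a b c d : ℝ} (h : a * d - b * c = 1) :
    ∃ A : SL(2, ℝ), ∀ z : ℍ, vec (A • z) = gelin_T a b c d (vec z) :=
  ⟨⟨!![a, b; c, d], by rw [Matrix.det_fin_two_of, h]⟩, fun z => gelin_smul _ z⟩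

theorem cone_vec (z : ℍ) : (vec z).1 * (vec z).2.2 - (vec z).2.1 ^ 2 = 1 ∧ 0 < (vec z).1 ∧
    0 < (vec z).2.2 := by
  have hz := z.im_pos
  refine ⟨?_, ?_, ?_⟩
  · have := bil_self z
    simp only [bil] at this
    linarith
  · simp only [vec]
    positivity
  · simp only [vec]
    positivity

theorem cone_fac {p q r : ℝ} (h : q ^ 2 - 4 * p * r = 1) :
    ∃ a b c d : ℝ, a * d - b * c = 1 ∧ a * c = p ∧ a * d + b * c = q ∧ b * d = r := by
  by_cases hp : p = 0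
  · subst hp
    have h1 : (q - 1) * (q + 1) = 0 := by linarith
    rcases mul_eq_zero.1 h1 with h2 | h2
    · exact ⟨1, r, 0, 1, by ring, by ring, by linarith, by ring⟩
    · exact ⟨0, -1, 1, -r, by ring, by ring, by linarith, by ring⟩
  · refine ⟨p, (q - 1) / 2, 1, (q + 1) / (2 * p), ?_, by ring, ?_, ?_⟩ <;> field_simp
    · ring
    · ring
    · linarith

/-- The cone can be moved into the standard ideal triangle. -/
theorem cone_norm {x y : ℍ} (h : x ≠ y) : ∃ A : SL(2, ℝ), ∀ z ∈ Cone x y,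
    0 ≤ (vec (A • z)).2.1 ∧ (vec (A • z)).2.1 ≤ (vec (A • z)).2.2 ∧
      (vec (A • z)).2.1 ≤ (vec (A • z)).1 := by
  have h1 := one_lt_bil h
  obtain ⟨n, hn⟩ : ∃ n, n = vec y - vec x := ⟨_, rfl⟩
  have h2 : bil n n = 2 - 2 * bil (vec x) (vec y) := by
    rw [hn, bil_sub, bil_comm (vec y), bil_comm (vec x), bil_sub, bil_sub, bil_self, bil_self,
      bil_comm (vec y)]
    ring
  have h3 : 0 < bil n (vec x) := by
    rw [hn, bil_sub, bil_self, bil_comm]
    linarith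
  obtain ⟨k, hk0, hk⟩ : ∃ k : ℝ, 0 < k ∧ k ^ 2 * (-bil n n) = 1 := by
    have h4 : 0 < -bil n n := by linarith
    refine ⟨1 / √(-bil n n), by positivity, ?_⟩
    rw [div_pow, Real.sq_sqrt h4.le, one_pow, one_div, inv_mul_cancel₀ h4.ne']
  obtain ⟨a, b, c, d, e0, e1, e2, e3⟩ := cone_fac (p := k * n.2.2 / 2) (q := -(k * n.2.1))
    (r := k * n.1 / 2) (by simp only [bil] at hk; linear_combination hk)
  obtain ⟨A₀, hA₀⟩ := cone_mat e0
  have h5 : ∀ w, (gelin_T a b c d w).2.1 = k * bil n w := fun w => by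
    simp only [gelin_T, bil, e1, e2, e3]
    ring
  obtain ⟨x1, x2, x3⟩ := cone_vec (A₀ • x)
  have x4 : 0 < (vec (A₀ • x)).2.1 := by
    rw [hA₀, h5]
    positivity
  obtain ⟨m, hm0, hm⟩ : ∃ m : ℝ, 0 < m ∧ m ^ 2 * (vec (A₀ • x)).2.1 = (vec (A₀ • x)).2.2 := by
    refine ⟨√((vec (A₀ • x)).2.2 / (vec (A₀ • x)).2.1), by positivity, ?_⟩
    rw [Real.sq_sqrt (by positivity)]
    field_simp
  obtain ⟨B, hB⟩ := cone_mat (a := m) (b := 0) (c := 0) (d := 1 / m) (by field_simp; ring)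
  refine ⟨B * A₀, ?_⟩
  rintro z ⟨t, α, s, hα, hs, ht, hz⟩
  obtain ⟨-, t2, t3⟩ := cone_vec (A₀ • t)
  have t4 : (vec (A₀ • t)).2.1 = 0 := by
    rw [hA₀, h5, hn, bil_sub, bil_vec, bil_vec, dist_comm y, dist_comm x, ht, sub_self, mul_zero]
  have hz' : vec (A₀ • z) = α • vec (A₀ • t) + s • vec (A₀ • x) := by
    rw [hA₀, hA₀, hA₀, hz]
    refine Prod.ext ?_ (Prod.ext ?_ ?_) <;>
      simp only [gelin_T, Prod.fst_add, Prod.snd_add, Prod.smul_fst, Prod.smul_snd, smul_eq_mul] <;>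
      ring
  rw [mul_smul, hB, hz']
  generalize vec (A₀ • t) = u at *
  generalize vec (A₀ • x) = v at *
  simp only [gelin_T, Prod.fst_add, Prod.snd_add, Prod.smul_fst, Prod.smul_snd, smul_eq_mul, t4]
  have hv : v.2.1 ≤ m ^ 2 * v.1 := by
    refine le_of_mul_le_mul_right ?_ x4
    nlinarith
  have e4 : m * (1 / m) = 1 := by field_simp
  have e5 : (1 / m) ^ 2 * v.2.2 = v.2.1 := by
    rw [← hm]
    field_simp
  have p1 : 0 ≤ (1 / m) ^ 2 * (α * u.2.2) := by positivity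
  have p2 : 0 ≤ m ^ 2 * (α * u.1) := by positivity
  have p3 := mul_le_mul_of_nonneg_left hv hs
  rw [e4]
  refine ⟨by positivity, ?_, ?_⟩
  · nlinarith
  · nlinarith

theorem cone_three {p q r : ℝ} (hp : 0 ≤ p) (hq : 0 ≤ q) (hr : 0 ≤ r)
    (h : p * q + p * r + q * r = 1) : q + r ≤ 2 ∨ p + q ≤ 2 ∨ p + r ≤ 2 := by
  by_contra hc
  simp only [not_or, not_le] at hc
  obtain ⟨h1, h2, h3⟩ := hc
  rcases le_total p 1 with a | a
  · nlinarith [mul_nonneg hp hq, mul_nonneg hp hr,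
      mul_pos (show 0 < q - 1 by linarith) (show 0 < r - 1 by linarith)]
  · rcases le_total q 1 with b | b
    · nlinarith [mul_nonneg hp hq, mul_nonneg hq hr,
        mul_pos (show 0 < p - 1 by linarith) (show 0 < r - 1 by linarith)]
    · nlinarith [mul_nonneg hp hr, mul_nonneg hq hr,
        mul_nonneg (show 0 ≤ p - 1 by linarith) (show 0 ≤ q - 1 by linarith),
        mul_nonneg hr (show 0 ≤ p - 1 by linarith)]

theorem cone_vol : ∃ C : ℝ≥0∞, C ≠ ∞ ∧ ∀ x y : ℍ, x ≠ y → volume (Cone x y) ≤ C := by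
  refine ⟨volume coneS + volume coneS + volume coneS, by simp [cone_S_fin], fun x y h => ?_⟩
  obtain ⟨A, hA⟩ := cone_norm h
  obtain ⟨B, hB⟩ := cone_mat (a := 0) (b := 1) (c := -1) (d := 1) (by ring)
  obtain ⟨C, hC⟩ := cone_mat (a := 1) (b := -1) (c := 1) (d := 0) (by ring)
  have hv : ∀ D : SL(2, ℝ), volume ((fun z : ℍ => D • z) ⁻¹' coneS) = volume coneS := fun D =>
    (mp_smul D).measure_preimage_emb (lx0_emb D) _
  have hs : Cone x y ⊆ (fun z : ℍ => A • z) ⁻¹' coneS ∪ (fun z : ℍ => (B * A) • z) ⁻¹' coneS ∪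
      (fun z : ℍ => (C * A) • z) ⁻¹' coneS := by
    intro z hz
    obtain ⟨h1, h2, h3⟩ := hA z hz
    obtain ⟨h4, -, -⟩ := cone_vec (A • z)
    rcases cone_three (sub_nonneg.2 h3) (sub_nonneg.2 h2) h1 (by linear_combination h4) with
      h5 | h5 | h5
    · exact .inl (.inl (cone_S_mem h1 h2 (by linarith)))
    · refine .inl (.inr (cone_S_mem ?_ ?_ ?_)) <;> simp only [mul_smul, hB, gelin_T] <;>
        linarith
    · refine .inr (cone_S_mem ?_ ?_ ?_) <;> simp only [mul_smul, hC, gelin_T] <;> linarith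
  refine (measure_mono hs).trans ((measure_union_le _ _).trans ?_)
  rw [hv]
  gcongr
  refine (measure_union_le _ _).trans ?_
  rw [hv, hv]

end Pool.Agent.MC.VB
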