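import Pool.Agent.P.MP_2677b3_gt.VbDefs
import Pool.Agent.P.MP_2677b3_gt.GeGeo

/-! Quotients of invariant maps whose cells are large compared with the injectivity radius. -/

open UpperHalfPlane Equiv
open scoped MatrixGroups

noncomputable section

namespace Pool.Agent.MC.Ge

variable {G : Subgroup (Perm ℍ)} {ε c K : ℝ} {C : ℝ → ℕ} {f : ℝ → ℝ}

theorem cov_tr (hG : Fuchs G ε) (hc : 0 < ε) {g : Perm ℍ} (hg : g ∈ G) (h1 : g ≠ 1) {A : SL(2, ℝ)}
    (hA : ∀ z : ℍ, g z = A • z) : 4 < (A 0 0 + A 1 1) ^ 2 := by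
  have h2 := tr_big hc A fun z => hA z ▸ hG.thick g hg h1 z
  have h3 := Real.one_lt_cosh.2 hc.ne'
  linarith

theorem cov_fix {A : SL(2, ℝ)} {z : ℍ} (h : A • z = z) : (A 0 0 + A 1 1) ^ 2 ≤ 4 := by
  have h1 := disp_formula A z
  rw [h, dist_self, Real.cosh_zero] at h1
  nlinarith [sq_nonneg ((A 1 0 * (z.re ^ 2 + z.im ^ 2) + (A 1 1 - A 0 0) * z.re - A 0 1) / z.im)]

theorem cov_two (hG : Fuchs G ε) (hc : 0 < ε) {g : G} {z : ℍ} (h : g.1 (g.1 z) = z) : g = 1 := by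
  by_contra h1
  obtain ⟨A, hA⟩ := hG.mob g.1 g.2
  have h2 := cov_tr hG hc g.2 (fun h => h1 (Subtype.ext h)) hA
  rw [hA, hA, ← mul_smul] at h
  have h3 := cov_fix h
  have h4 := disp_det A
  have h5 : (A * A) 0 0 + (A * A) 1 1 = (A 0 0 + A 1 1) ^ 2 - 2 := by
    simp only [Matrix.SpecialLinearGroup.coe_mul, Matrix.mul_apply, Fin.sum_univ_two]
    linear_combination (-2 : ℝ) * h4
  rw [h5] at h3
  nlinarith

theorem cov_three (hG : Fuchs G ε) (hc : 0 < ε) {g : G} {z : ℍ} (h : g.1 (g.1 (g.1 z)) = z) :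
    g = 1 := by
  by_contra h1
  obtain ⟨A, hA⟩ := hG.mob g.1 g.2
  have h2 := cov_tr hG hc g.2 (fun h => h1 (Subtype.ext h)) hA
  rw [hA, hA, hA, ← mul_smul, ← mul_smul] at h
  have h3 := cov_fix h
  have h4 := disp_det A
  have h5 : (A * A * A) 0 0 + (A * A * A) 1 1 = (A 0 0 + A 1 1) * ((A 0 0 + A 1 1) ^ 2 - 3) := by
    simp only [Matrix.SpecialLinearGroup.coe_mul, Matrix.mul_apply, Fin.sum_univ_two]
    linear_combination (-3 : ℝ) * (A 0 0 + A 1 1) * h4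
  rw [h5, mul_pow] at h3
  nlinarith

theorem UMap.free_α (U : UMap G c K C f) (hG : Fuchs G ε) (hc : 0 < ε) {g : G} {d : U.D}
    (h : g • d = U.α d) : g = 1 := by
  refine cov_two hG hc (z := U.pos d) ?_
  rw [← U.pos_smul, ← U.pos_smul, h, ← U.α_smul, h, U.αα]

theorem UMap.free_ψ (U : UMap G c K C f) (hG : Fuchs G ε) (hc : 0 < ε) {g : G} {d : U.D}
    (h : (U.φ * U.α).SameCycle d (g • d)) : g = 1 := by
  refine cov_three hG hc (z := U.pos d) ?_
  rw [← U.pos_smul, ← U.pos_smul, ← U.pos_smul]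
  rcases (U.same_iff _ _).1 h with h | h | h
  · rw [h, h, h]
  · simp only [h, ← U.ψ_smul, U.tri]
  · simp only [h, ← U.ψ_smul, U.tri]

theorem lift_free2 {U : UMap G c K C f} (hG : Fuchs G ε) (hc : 0 < ε) {g : G} {d : U.D}
    (h : U.pos (g • d) = U.pos d) : g = 1 := by
  rw [U.pos_smul] at h
  exact Subtype.ext (fuchs_one hG g.2 (z := U.pos d) (by rwa [h, dist_self]))

theorem exists_cov2 (hG : Fuchs G ε) (hc : 0 < ε) (U : UMap G c K C f) :
    Nonempty (Cov U) := by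
  have hfin : Finite (Quotient (gequot_st U)) := by
    obtain ⟨R, hR⟩ := hG.cocpt
    refine Set.finite_univ_iff.1 (((U.count I R).1.image (Quotient.mk (gequot_st U))).subset ?_)
    rintro ⟨d⟩ -
    obtain ⟨g, hg, h⟩ := hR (U.pos d)
    refine ⟨(⟨g, hg⟩ : G) • d, ?_, (Quotient.sound (s := gequot_st U) ⟨⟨g, hg⟩, rfl⟩).symm⟩
    show dist I (U.pos _) ≤ R
    rw [U.pos_smul, dist_comm]
    exact h
  let M : CMap :=
    { D := Quotient (gequot_st U)
      fin := Fintype.ofFinite _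
      α := gequot_perm U U.α U.α_smul
      φ := gequot_perm U U.φ U.φ_smul
      αα := by
        rintro ⟨d⟩
        exact congrArg (Quotient.mk (gequot_st U)) (U.αα d)
      αne := by
        rintro ⟨d⟩ h
        obtain ⟨g, hg⟩ := Quotient.exact (s := gequot_st U) h.symm
        have h1 : g = 1 := U.free_α hG hc hg
        rw [h1, one_smul] at hg
        exact U.pos_ne d (by rw [← hg]) }
  let π : U.D → M.D := Quotient.mk (gequot_st U)
  have hψ : ∀ d, π ((U.φ * U.α) d) = M.ψ (π d) := fun d => rfl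
  have hpow : ∀ (n : ℕ) d, π (((U.φ * U.α) ^ n) d) = (M.ψ ^ n) (π d) := by
    intro n
    induction n with
    | zero => exact fun d => rfl
    | succ n ih =>
      intro d
      rw [pow_succ', pow_succ', Perm.mul_apply, hψ, ih, Perm.mul_apply]
  let L : M.D → U.D := fun e => Quotient.out (s := gequot_st U)
    (Quotient.out (Quotient.mk (Perm.SameCycle.setoid M.ψ) e))
  have hex : ∀ e, ∃ d, π d = e ∧ (U.φ * U.α).SameCycle (L e) d := by
    intro e
    have h1 : M.ψ.SameCycle (π (L e)) e := by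
      have h2 : π (L e) = Quotient.out (Quotient.mk (Perm.SameCycle.setoid M.ψ) e) :=
        Quotient.out_eq _
      rw [h2]
      exact Quotient.mk_out (s := Perm.SameCycle.setoid M.ψ) e
    obtain ⟨n, -, hn⟩ := h1.exists_pow_eq'
    exact ⟨((U.φ * U.α) ^ n) (L e), (hpow n _).trans hn, n, by rw [zpow_natCast]⟩
  choose lift hl1 hl2 using hex
  have hπ : ∀ a b, π a = π b → ∃ g : G, g • a = b := fun a b h =>
    Quotient.exact (s := gequot_st U) h
  have hhol : ∀ e, ∃ g : G, g • lift (M.α e) = U.α (lift e) := fun e => hπ _ _ (by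
    rw [hl1]
    exact congrArg M.α (hl1 e).symm)
  choose hol hh using hhol
  refine ⟨⟨M, π, lift, hol, fun g d => (Quotient.sound (s := gequot_st U) ⟨g, rfl⟩).symm, hπ,
    fun d => rfl, fun d => rfl, hl1, fun e => ?_, fun e => (hh e).symm⟩⟩
  obtain ⟨g, hg⟩ := hπ (lift (M.ψ e)) ((U.φ * U.α) (lift e)) (by rw [hψ, hl1, hl1])
  have hL : L (M.ψ e) = L e := by
    have : Quotient.mk (Perm.SameCycle.setoid M.ψ) (M.ψ e) = Quotient.mk _ e :=
      Quotient.sound (Perm.sameCycle_apply_left.2 (Perm.SameCycle.refl _ e))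
    simp only [L, this]
  have h1 : (U.φ * U.α).SameCycle (lift (M.ψ e)) ((U.φ * U.α) (lift e)) :=
    (hl2 _).symm.trans (Perm.sameCycle_apply_right.2 (hL ▸ hl2 e))
  have h2 : g = 1 := U.free_ψ hG hc (hg ▸ h1)
  rw [← hg, h2, one_smul]

namespace Cov

variable {U : UMap G c K C f} (Y : Cov U)

theorem hol_inv2 (hG : Fuchs G ε) (hc : 0 < ε) (e : Y.M.D) :
    Y.hol (Y.M.α e) = (Y.hol e)⁻¹ := by
  have h : (Y.hol e * Y.hol (Y.M.α e)) • Y.lift e = Y.lift e := by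
    have h1 := Y.hol_spec (Y.M.α e)
    rw [Y.M.αα] at h1
    rw [mul_smul, ← h1, ← U.α_smul, ← Y.hol_spec, U.αα]
  exact eq_inv_of_mul_eq_one_right (lift_free2 hG hc (congrArg U.pos h))

theorem hol_hom2 (hG : Fuchs G ε) (hc : 0 < ε) :
    ∃ F : Y.M.gd.U →* G, ∀ p : List Y.M.D, F (Y.M.gd.ev p) = Y.hp p := by
  refine pres_lift Y.hol (Y.hol_inv2 hG hc) ?_
  rintro _ ⟨e, n, hn, rfl⟩
  have h1 := Y.lift_face e n
  rw [hn] at h1
  have h2 : ∀ (n : ℕ) d, U.pos (U.φ^[n] d) = U.pos d := by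
    intro n d
    induction n with
    | zero => rfl
    | succ n ih => rw [Function.iterate_succ_apply', U.pos_φ, ih]
  exact lift_free2 hG hc ((congrArg U.pos h1).trans (h2 n _))

theorem lift_key2 (hG : Fuchs G ε) (hc : 0 < ε) {x y : Y.M.gd.V} {g g' : G}
    (h : (U.φ * U.α).SameCycle (g • Y.base x) (g' • Y.base y)) : x = y ∧ g = g' := by
  have h1 := Y.lift_src h
  rw [Y.π_smul, Y.π_smul, Y.src_base, Y.src_base] at h1
  subst h1
  have h2 := U.same_smul g⁻¹ h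
  rw [inv_smul_smul, ← mul_smul] at h2
  exact ⟨rfl, inv_mul_eq_one.1 (U.free_ψ hG hc h2)⟩

theorem proj_path2 (hG : Fuchs G ε) (hc : 0 < ε) {x y : Y.M.gd.V} {g g' : G} {q : List U.D}
    (h : UPath U.α U.φ (g • Y.base x) q (g' • Y.base y)) :
    Y.M.gd.Path x (q.map Y.π) y ∧ g * Y.hp (q.map Y.π) = g' := by
  induction q generalizing x g with
  | nil =>
    obtain ⟨h1, h2⟩ := Y.lift_key2 hG hc (lift_nil.1 h)
    exact ⟨h1, by simpa using h2⟩
  | cons d q ih =>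
    obtain ⟨h1, h2⟩ := lift_cons.1 h
    obtain ⟨k, hk⟩ := Y.exists_sheet d
    have h3 := U.same_smul k (Y.same_base (Y.π d))
    rw [← hk] at h3
    obtain ⟨rfl, rfl⟩ := Y.lift_key2 hG hc (h3.trans h1)
    have h4 := Y.lift_α k (Y.π d)
    rw [← hk] at h4
    obtain ⟨h5, h6⟩ := ih (lift_left h4.symm h2)
    refine ⟨⟨rfl, h5⟩, ?_⟩
    rw [List.map_cons, hp_cons, ← mul_assoc, h6]

theorem connect2 (hG : Fuchs G ε) (hc : 0 < ε) (x y : Y.M.gd.V) (g : G) :
    ∃ p : List Y.M.D, Y.M.gd.Path x p y ∧ Y.hp p = g ∧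
      (p.length : ℝ) ≤ K * dist (Y.pt x) (g.1 (Y.pt y)) + K := by
  obtain ⟨q, h1, h2⟩ := U.walk ((1 : G) • Y.base x) (g • Y.base y)
  obtain ⟨h3, h4⟩ := Y.proj_path2 hG hc h1
  refine ⟨q.map Y.π, h3, by simpa using h4, ?_⟩
  rw [one_smul, U.pos_smul] at h2
  rw [List.length_map]
  exact h2

theorem faith2 (hG : Fuchs G ε) (hc : 0 < ε) {x : Y.M.gd.V} {p : List Y.M.D}
    (h : Y.M.gd.Path x p x) : Y.M.gd.ev p = 1 ↔ Y.hp p = 1 := by
  constructor
  · intro h1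
    obtain ⟨F, hF⟩ := Y.hol_hom2 hG hc
    rw [← hF, h1, map_one]
  · intro h1
    have h2 : ∀ (n : ℕ) d, Y.π (U.φ^[n] d) = Y.M.φ^[n] (Y.π d) := by
      intro n d
      induction n with
      | zero => rfl
      | succ n ih => rw [Function.iterate_succ_apply', Function.iterate_succ_apply', Y.π_φ, ih]
    have h3 : ∀ q : List U.D,
        (q.map fun d => Y.M.gd.val (Y.π d)).prod = Y.M.gd.ev (q.map Y.π) := fun q =>
      congrArg List.prod (List.map_map (g := Y.M.gd.val) (f := Y.π) (l := q)).symm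
    obtain ⟨Ψ, h4, h5⟩ := U.pot Y.M.gd.U (fun d => Y.M.gd.val (Y.π d))
      (fun e => by rw [Y.π_α]; exact Y.M.gd.val_inv _) (fun e n hn => by
        rw [h3]
        refine pres_rel (R := {w | ∃ d n, Y.M.φ^[n] d = d ∧ w = orbL Y.M.φ d n})
          ⟨Y.π e, n, by rw [← h2, hn], ?_⟩
        simp only [orbL, ← h2]
        exact List.map_map)
    have h6 := lift_pot h4 h5 (Y.lift_path h 1)
    rw [h1, mul_one, h3] at h6
    exact (congrArg Y.M.gd.ev (Y.map_up p 1)).symm.trans (left_eq_mul.1 h6)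

end Cov

variable {U : UMap G c K C f}

theorem Cov.geo2 (Y : Cov U) (hG : Fuchs G ε) (hc : 0 < ε) :
    ∃ g : Geo Y.M.gd G (max K (4 * c)), g.Full := by
  have h0 := U.c_nonneg
  refine ⟨⟨Y.pt, Y.hol, fun e => Y.hol_inv2 hG hc e, fun x p h => Y.faith2 hG hc h,
    fun e => (Y.short hG e).trans (le_max_right _ _), fun x p y _ => ?_, fun x z => ?_⟩,
    fun x γ => ?_⟩
  · obtain ⟨q, h1, h2, h3⟩ := Y.connect2 hG hc x y (Y.hp p)
    refine ⟨q, h1, h2, h3.trans ?_⟩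
    exact add_le_add (mul_le_mul_of_nonneg_right (le_max_left _ _) dist_nonneg) (le_max_left _ _)
  · obtain ⟨d, hd⟩ := U.dense z
    obtain ⟨g, hg⟩ := Y.exists_sheet d
    obtain ⟨q, h1, h2, -⟩ := Y.connect2 hG hc x (Y.M.gd.src (Y.π d)) g
    refine ⟨q, _, h1, le_trans ?_ (le_max_right _ _)⟩
    have h3 : (q.map Y.hol).prod = g := h2
    have h4 : dist (U.pos d) (g.1 (Y.pt (Y.M.gd.src (Y.π d)))) ≤ 2 * c := by
      have := gegeo_same Y (Y.π d)
      rw [← fuchs_dist hG g.2, ← U.pos_smul g (Y.lift _), ← hg, dist_comm] at this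
      exact this
    have h5 := dist_triangle z (U.pos d) (g.1 (Y.pt (Y.M.gd.src (Y.π d))))
    show dist z (((q.map Y.hol).prod).1 _) ≤ _
    rw [h3]; linarith
  · obtain ⟨q, h1, h2, -⟩ := Y.connect2 hG hc x x γ
    exact ⟨q, h1, h2⟩

theorem Cov.conn2 (Y : Cov U) (hG : Fuchs G ε) (hc : 0 < ε) (d d' : Y.M.D) :
    Y.M.Same (fun _ => False) d d' := by
  obtain ⟨p, h, -⟩ := Y.connect2 hG hc (Y.M.gd.src d) (Y.M.gd.src d') 1
  induction p generalizing d with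
  | nil => exact gegeo_src _ h
  | cons e p ih =>
    exact ((gegeo_src _ h.1.symm).tail (Or.inr ⟨not_false, rfl⟩)).trans (ih (Y.M.α e) h.2)

theorem _root_.Pool.Agent.MC.VB.cov2 {G : Subgroup (Perm ℍ)} {ε c K : ℝ} {C : ℝ → ℕ} {f : ℝ → ℝ}
    (hε : 0 < ε) (hG : Fuchs G ε) (U : UMap G c K C f) : ∃ Y : Cov U,
      (∃ g : Geo Y.M.gd G (max K (4 * c)), g.Full) ∧ VB.Cubic Y.M ∧ VB.Conn Y.M ∧ Nonempty Y.M.D ∧
        ∀ e n, Y.M.φ^[n] e = e → U.φ^[n] (Y.lift e) = Y.lift e := by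
  obtain ⟨Y⟩ := exists_cov2 hG hε U
  obtain ⟨d, -⟩ := U.dense I
  refine ⟨Y, Y.geo2 hG hε, fun e => ⟨Y.ψψψ e, fun h => ?_⟩, Y.conn2 hG hε, ⟨Y.π d⟩, fun e n h => ?_⟩
  · have h1 := Y.lift_ψ e
    rw [h] at h1
    exact U.pos_ne _ ((U.pos_ψ _).symm.trans (congrArg U.pos h1).symm)
  · have h1 := Y.lift_face e n
    have h2 : ∀ (n : ℕ) d, U.pos (U.φ^[n] d) = U.pos d := fun n d => by
      induction n with
      | zero => rfl
      | succ n ih => rw [Function.iterate_succ_apply', U.pos_φ, ih]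
    rw [h] at h1
    rw [← h1, lift_free2 hG hε ((congrArg U.pos h1).trans (h2 n _)), one_smul]

end Pool.Agent.MC.Ge
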