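import Pool.Agent.P.MP_2677b3_gt.VbThin4

/-! Invariant generic nets at any scale. -/

open Equiv UpperHalfPlane Filter Topology
open scoped MatrixGroups

namespace Pool.Agent.MC.VB

open Ge

theorem pick {ι : Type} (s : Set ι) (hs : s.Finite) (B : ι → Set ℍ) (hB : ∀ i ∈ s, Thin (B i))
    (z : ℍ) {δ : ℝ} (hδ : 0 < δ) : ∃ x, dist z x ≤ δ ∧ ∀ i ∈ s, x ∉ B i := by
  choose! f h1 h2 h3 using hB
  have hd : Dense (⋂ i ∈ s, {p | f i p ≠ 0}) := by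
    refine dense_biInter_of_isOpen (fun i hi => isOpen_ne_fun
      (continuousOn_univ.1 (h1 i hi).continuousOn) continuous_const) hs.countable fun i hi p => ?_
    rw [mem_closure_iff_frequently]
    intro h
    obtain ⟨q, hq⟩ := h2 i hi
    exact hq ((h1 i hi).eqOn_zero_of_preconnected_of_eventuallyEq_zero isPreconnected_univ
      (Set.mem_univ p) (h.mono fun y hy => not_not.1 hy) (Set.mem_univ q))
  have ho : IsOpenMap fun x : ℍ => (x.re, x.im) :=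
    Complex.equivRealProdCLM.toHomeomorph.isOpenMap.comp isOpenEmbedding_coe.isOpenMap
  obtain ⟨x, hx, hz⟩ := (hd.preimage ho).exists_dist_lt z hδ
  exact ⟨x, hz.le, fun i hi h => Set.mem_iInter₂.1 hx i hi (h3 i hi x h)⟩

theorem net_mono {B B' : Set ℍ} (h : Thin B) (h' : B' ⊆ B) : Thin B' :=
  h.imp fun _ hf => ⟨hf.1, hf.2.1, fun x hx => hf.2.2 x (h' hx)⟩

theorem net_swap {a b c d : ℍ} (h : Cyc a b c d) : Cyc a c b d :=
  h.imp fun _ hz => ⟨hz.2.1, hz.1, hz.2.2⟩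

theorem net_rot {a b c d : ℍ} (h : Cyc a b c d) : Cyc a c d b :=
  h.imp fun _ hz => ⟨hz.2.1, hz.2.2, hz.1⟩

/-- A fixed point or a translate of `x`. -/
def netEv (i : ℍ ⊕ Perm ℍ) (x : ℍ) : ℍ := i.elim id fun g => g x

theorem net_thin {G : Subgroup (Perm ℍ)} {ε : ℝ} (hε : 0 < ε) (hG : Fuchs G ε)
    {i j k : ℍ ⊕ Perm ℍ} (hi : ∀ g, i = .inr g → g ∈ G ∧ g ≠ 1)
    (hj : ∀ g, j = .inr g → g ∈ G ∧ g ≠ 1) (hk : ∀ g, k = .inr g → g ∈ G ∧ g ≠ 1)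
    (h1 : i ≠ j) (h2 : i ≠ k) (h3 : j ≠ k) :
    Thin {x | Cyc x (netEv i x) (netEv j x) (netEv k x)} := by
  have hyp : ∀ g ∈ G, g ≠ 1 → ∀ X : SL(2, ℝ), (∀ z : ℍ, g z = X • z) →
      4 < (X 0 0 + X 1 1) ^ 2 := fun g hg g1 X hX => by
    have := tr_big hε X fun z => hX z ▸ hG.thick g hg g1 z
    linarith [Real.one_lt_cosh.2 hε.ne']
  have t2 : ∀ g, g ∈ G ∧ g ≠ 1 → ∀ a b : ℍ, a ≠ b → Thin {x | Cyc x (g x) a b} :=
    fun g hg a b h => by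
      obtain ⟨A, hA⟩ := hG.mob g hg.1
      simpa only [hA] using thin2 A (hyp g hg.1 hg.2 A hA) h
  have t3 : ∀ g, g ∈ G ∧ g ≠ 1 → ∀ g', g' ∈ G ∧ g' ≠ 1 → g ≠ g' → ∀ a : ℍ,
      Thin {x | Cyc x (g x) (g' x) a} := fun g hg g' hg' h a => by
    obtain ⟨A, hA⟩ := hG.mob g hg.1
    obtain ⟨B, hB⟩ := hG.mob g' hg'.1
    simpa only [hA, hB] using thin3 A B (hyp g hg.1 hg.2 A hA) (hyp g' hg'.1 hg'.2 B hB)
      (hyp _ (G.mul_mem (G.inv_mem hg.1) hg'.1) (fun e => h (eq_of_inv_mul_eq_one e)) _ fun z => by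
        rw [Perm.mul_apply, Perm.inv_eq_iff_eq, hA, hB, mul_smul, smul_inv_smul]) a
  rcases i with a | a <;> rcases j with b | b <;> rcases k with c | c <;>
    simp only [ne_eq, Sum.inl.injEq, Sum.inr.injEq] at h1 h2 h3
  · exact thin1 h1 h2 h3
  · exact net_mono (t2 c (hk c rfl) a b h1) fun _ h => net_rot (net_rot h)
  · exact net_mono (t2 b (hj b rfl) a c h2) fun _ h => net_swap h
  · exact net_mono (t3 b (hj b rfl) c (hk c rfl) h3 a) fun _ h => net_rot h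
  · exact t2 a (hi a rfl) b c h3
  · exact net_mono (t3 c (hk c rfl) a (hi a rfl) (Ne.symm h2) b) fun _ h => net_rot (net_rot h)
  · exact t3 a (hi a rfl) b (hj b rfl) h1 c
  · exact thin4 hε hG (hi a rfl).1 (hj b rfl).1 (hk c rfl).1 (hi a rfl).2 (hj b rfl).2
      (hk c rfl).2 h1 h2 h3

/-- Invariant sets with far orbits and without four points on a small circle. -/
structure NetGood (G : Subgroup (Perm ℍ)) (δ : ℝ) (N : Set ℍ) : Prop where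
  inv : ∀ g ∈ G, ∀ x ∈ N, g x ∈ N
  far : Far G N δ
  gen : ∀ (z : ℍ) (ρ : ℝ), ρ ≤ 2 * δ → ∀ a ∈ N, ∀ b ∈ N, ∀ c ∈ N, ∀ d ∈ N, dist z a = ρ →
    dist z b = ρ → dist z c = ρ → dist z d = ρ → a ≠ b → a ≠ c → b ≠ c → d ≠ a → d ≠ b →
    d ≠ c → False

theorem net_sep {G : Subgroup (Perm ℍ)} {ε δ : ℝ} (hG : Fuchs G ε) (hδ : ε ≤ δ) {N : Set ℍ}
    (h : Far G N δ) : ∀ p ∈ N, ∀ q ∈ N, p ≠ q → ε ≤ dist p q := fun p hp q hq hne => by
  by_cases h1 : ∀ g ∈ G, g p ≠ q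
  · exact hδ.trans (h p hp q hq h1)
  · push Not at h1
    obtain ⟨g, hg, rfl⟩ := h1
    exact hG.thick g hg (by rintro rfl; exact hne rfl) p

theorem net_step {G : Subgroup (Perm ℍ)} {ε δ : ℝ} (hε : 0 < ε) (hG : Fuchs G ε) (hδ : ε ≤ δ)
    {N : Set ℍ} (hN : NetGood G δ N) {z0 : ℍ} (hz : ∀ p ∈ N, 2 * δ < dist z0 p) :
    ∃ x, dist z0 x ≤ δ ∧ x ∉ N ∧ ∃ N', NetGood G δ N' ∧ insert x N ⊆ N' := by
  obtain ⟨P, hP⟩ := exists_pk hε
  have hT : {p | p ∈ N ∧ dist z0 p ≤ 5 * δ}.Finite :=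
    (hP z0 (5 * δ) _ (fun p hp => hp.2) fun p hp q hq => net_sep hG hδ hN.far p hp.1 q hq.1).1
  have hsep : ∀ g ∈ G, ∀ g' ∈ G, dist (g z0) (g' z0) < ε → g = g' := fun g hg g' hg' h => by
    refine eq_of_inv_mul_eq_one (fuchs_one hG (G.mul_mem (G.inv_mem hg) hg') (z := z0) ?_)
    rwa [← fuchs_dist hG hg, Perm.mul_apply, Perm.eq_inv_iff_eq.1 rfl]
  have hF : {g | (g ∈ G ∧ g ≠ 1) ∧ dist z0 (g z0) ≤ 6 * δ}.Finite := by
    refine Set.Finite.of_finite_image (f := fun g : Perm ℍ => g z0)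
      (hP z0 (6 * δ) _ ?_ ?_).1 fun g hg g' hg' h => hsep g hg.1.1 g' hg'.1.1 ?_
    · rintro _ ⟨g, hg, rfl⟩
      exact hg.2
    · rintro _ ⟨g, hg, rfl⟩ _ ⟨g', hg', rfl⟩ h
      by_contra h1
      exact h (by rw [hsep g hg.1.1 g' hg'.1.1 (not_le.1 h1)])
    · rw [show g z0 = g' z0 from h, dist_self]
      exact hε
  set J : Set (ℍ ⊕ Perm ℍ) := Sum.inl '' {p | p ∈ N ∧ dist z0 p ≤ 5 * δ} ∪
    Sum.inr '' {g | (g ∈ G ∧ g ≠ 1) ∧ dist z0 (g z0) ≤ 6 * δ} with hJ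
  have hJf : J.Finite := (hT.image _).union (hF.image _)
  have hJr : ∀ i ∈ J, ∀ g, i = .inr g → g ∈ G ∧ g ≠ 1 := by
    rintro _ (⟨p, -, rfl⟩ | ⟨g, hg, rfl⟩) g' h
    · cases h
    · cases h
      exact hg.1
  obtain ⟨x, hx, hb⟩ := pick
    {t | t ∈ J ×ˢ J ×ˢ J ∧ t.1 ≠ t.2.1 ∧ t.1 ≠ t.2.2 ∧ t.2.1 ≠ t.2.2}
    ((hJf.prod (hJf.prod hJf)).subset fun _ h => h.1)
    (fun t => {x | Cyc x (netEv t.1 x) (netEv t.2.1 x) (netEv t.2.2 x)})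
    (fun t ht => net_thin hε hG (hJr _ ht.1.1) (hJr _ ht.1.2.1) (hJr _ ht.1.2.2) ht.2.1 ht.2.2.1
      ht.2.2.2) z0 (hε.trans_le hδ)
  have hd : ∀ g ∈ G, ∀ p, dist (g x) p = dist x (g⁻¹ p) := fun g hg p => by
    rw [← fuchs_dist hG hg x (g⁻¹ p)]
    simp
  have h1 : ∀ g ∈ G, ∀ p ∈ N, δ ≤ dist (g x) p := fun g hg p hp => by
    have := hz _ (hN.inv _ (G.inv_mem hg) p hp)
    rw [hd g hg]
    linarith [dist_triangle z0 x (g⁻¹ p)]
  set N' := N ∪ {p | ∃ g ∈ G, g x = p} with hN'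
  have hinv : ∀ g ∈ G, ∀ p ∈ N', g p ∈ N' := by
    rintro g hg p (hp | ⟨g', hg', rfl⟩)
    · exact Or.inl (hN.inv g hg p hp)
    · exact Or.inr ⟨g * g', G.mul_mem hg hg', rfl⟩
  have hit : ∀ p ∈ N', p ≠ x → dist x p ≤ 4 * δ → ∃ i ∈ J, netEv i x = p := by
    rintro p (hp | ⟨g, hg, rfl⟩) hne h
    · exact ⟨.inl p, Or.inl ⟨p, ⟨hp, by linarith [dist_triangle z0 x p]⟩, rfl⟩, rfl⟩
    · refine ⟨.inr g, Or.inr ⟨g, ⟨⟨hg, by rintro rfl; exact hne rfl⟩, ?_⟩, rfl⟩, rfl⟩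
      linarith [dist_triangle4 z0 x (g x) (g z0), fuchs_dist hG hg x z0, dist_comm x z0]
  have hK : ∀ (z : ℍ) (ρ : ℝ), ρ ≤ 2 * δ → ∀ a ∈ N', ∀ b ∈ N', ∀ c ∈ N',
      ∀ d ∈ {p | ∃ g ∈ G, g x = p}, dist z a = ρ → dist z b = ρ → dist z c = ρ → dist z d = ρ →
      a ≠ b → a ≠ c → b ≠ c → d ≠ a → d ≠ b → d ≠ c → False := by
    rintro z ρ hρ a ha b hb' c hc _ ⟨g, hg, rfl⟩ ea eb ec ed hab hac hbc hda hdb hdc
    have hg' := G.inv_mem hg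
    have ex : dist (g⁻¹ z) x = ρ := by rw [dist_comm, ← hd g hg, dist_comm, ed]
    have key : ∀ p ∈ N', dist z p = ρ → g x ≠ p →
        ∃ i ∈ J, netEv i x = g⁻¹ p ∧ dist (g⁻¹ z) x = dist (g⁻¹ z) (netEv i x) :=
      fun p hp e hne => by
        have e' : dist (g⁻¹ z) (g⁻¹ p) = ρ := by rw [fuchs_dist hG hg', e]
        obtain ⟨i, hi, h⟩ := hit _ (hinv _ hg' p hp) (fun h => hne (Perm.inv_eq_iff_eq.1 h).symm)
          (by linarith [dist_triangle_left x (g⁻¹ p) (g⁻¹ z)])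
        exact ⟨i, hi, h, by rw [h, e', ex]⟩
    obtain ⟨i, ti, ui, vi⟩ := key a ha ea hda
    obtain ⟨j, tj, uj, vj⟩ := key b hb' eb hdb
    obtain ⟨k, tk, uk, vk⟩ := key c hc ec hdc
    refine hb (i, j, k) ⟨⟨ti, tj, tk⟩, ?_, ?_, ?_⟩ ⟨_, vi, vj, vk⟩
    · rintro (rfl : i = j)
      exact hab (g⁻¹.injective (ui.symm.trans uj))
    · rintro (rfl : i = k)
      exact hac (g⁻¹.injective (ui.symm.trans uk))
    · rintro (rfl : j = k)
      exact hbc (g⁻¹.injective (uj.symm.trans uk))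
  refine ⟨x, hx, fun h => by linarith [hz x h], N', ⟨hinv, ?_, ?_⟩,
    Set.insert_subset (Or.inr ⟨1, G.one_mem, rfl⟩) Set.subset_union_left⟩
  · rintro p (hp | ⟨g, hg, rfl⟩) q (hq | ⟨g', hg', rfl⟩) hne
    · exact hN.far p hp q hq hne
    · rw [dist_comm]
      exact h1 g' hg' p hp
    · exact h1 g hg q hq
    · exact absurd (by simp) (hne (g' * g⁻¹) (G.mul_mem hg' (G.inv_mem hg)))
  · intro z ρ hρ a ha b hb c hc d hd ea eb ec ed hab hac hbc hda hdb hdc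
    rcases id hd with hd' | hd'
    · rcases id hc with hc' | hc'
      · rcases id hb with hb' | hb'
        · rcases id ha with ha' | ha'
          · exact hN.gen z ρ hρ a ha' b hb' c hc' d hd' ea eb ec ed hab hac hbc hda hdb hdc
          · exact hK z ρ hρ b hb c hc d hd a ha' eb ec ed ea hbc hdb.symm hdc.symm hab hac hda.symm
        · exact hK z ρ hρ a ha c hc d hd b hb' ea ec ed eb hac hda.symm hdc.symm hab.symm hbc
            hdb.symm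
      · exact hK z ρ hρ a ha b hb d hd c hc' ea eb ed ec hab hda.symm hdb.symm hac.symm hbc.symm
          hdc.symm
    · exact hK z ρ hρ a ha b hb c hc d hd' ea eb ec ed hab hac hbc hda hdb hdc

theorem net2 {G : Subgroup (Perm ℍ)} {ε δ : ℝ} (hε : 0 < ε) (hG : Fuchs G ε) (hδ : ε ≤ δ) :
    ∃ N : Set ℍ, Net2 N ε δ ∧ (∀ g ∈ G, ∀ x ∈ N, g x ∈ N) ∧ Far G N δ := by
  obtain ⟨R, hR⟩ := hG.cocpt
  obtain ⟨P, hP⟩ := exists_pk hε
  have hb : ∀ N, NetGood G δ N → {p | p ∈ N ∧ dist I p ≤ R + δ}.Finite ∧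
      {p | p ∈ N ∧ dist I p ≤ R + δ}.ncard ≤ P (R + δ) := fun N hN =>
    hP I (R + δ) _ (fun p hp => hp.2) fun p hp q hq => net_sep hG hδ hN.far p hp.1 q hq.1
  have hfin : ((fun N : Set ℍ => {p | p ∈ N ∧ dist I p ≤ R + δ}.ncard) ''
      {N | NetGood G δ N}).Finite := by
    refine (Set.finite_Iic (P (R + δ))).subset ?_
    rintro _ ⟨N, hN, rfl⟩
    exact (hb N hN).2
  have h0 : NetGood G δ ∅ := ⟨by simp, by simp [Far], by simp⟩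
  obtain ⟨_, ⟨N, hN, rfl⟩, hmax⟩ := Set.exists_max_image _ id hfin ⟨_, ∅, h0, rfl⟩
  have hden : ∀ z, ∃ p ∈ N, dist z p ≤ 2 * δ := by
    intro z
    by_contra h
    push Not at h
    obtain ⟨g, hg, hz⟩ := hR z
    obtain ⟨x, hx, hxN, N', hN', hs⟩ := net_step hε hG hδ hN (z0 := g z) fun p hp => by
      have h1 := h _ (hN.inv _ (G.inv_mem hg) p hp)
      rw [← fuchs_dist hG hg] at h1
      simpa using h1
    have hx' : dist I x ≤ R + δ := by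
      linarith [dist_triangle_left I x (g z)]
    refine absurd (hmax _ ⟨N', hN', rfl⟩) (not_le.2 (Set.ncard_lt_ncard ⟨fun p hp =>
      ⟨hs (Set.mem_insert_of_mem _ hp.1), hp.2⟩, fun h1 => ?_⟩ (hb N' hN').1))
    exact hxN (h1 ⟨hs (Set.mem_insert _ _), hx'⟩).1
  refine ⟨N, ⟨hε.trans_le hδ, hε, net_sep hG hδ hN.far, hden,
    fun z a ha b hb c hc d hd hab hac hbc => ?_⟩, hN.inv, hN.far⟩
  by_contra h
  push Not at h
  obtain ⟨p, hp, hzp⟩ := hden z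
  have e : ∀ q ∈ near N z, dist z q = dist z a := fun q hq =>
    le_antisymm (hq.2 a ha.1) (ha.2 q hq.1)
  exact hN.gen z (dist z a) ((ha.2 p hp).trans hzp) a ha.1 b hb.1 c hc.1 d hd.1 rfl (e b hb)
    (e c hc) (e d hd) hab hac hbc h.1 h.2.1 h.2.2

end Pool.Agent.MC.VB
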