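import Pool.Agent.P.MP_2677b3_gt.VbVorB

/-! Voronoi cells are covered by cones over bisectors. -/

open Equiv Function UpperHalfPlane

namespace Pool.Agent.MC.VB

open LL Ge

theorem vor_loc {N : Set ℍ} {η δ : ℝ} (h : Net2 N η δ) {x z : ℍ} (hx : x ∈ N) {s : ℝ}
    (hs : s < bil (vec z) (vec x))
    (h1 : ∀ p ∈ N, dist x p ≤ 6 * δ → p ≠ x →
      s * (bil (vec x) (vec p) - 1) ≤ bil (vec z) (vec p) - bil (vec z) (vec x)) :
    ∃ u : M3, vec z = (bil (vec z) (vec x) - s) • u + s • vec x ∧ bil u (vec x) = 1 ∧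
      0 < bil u u ∧ (∀ p, (bil (vec z) (vec x) - s) * bil u (vec p) =
        bil (vec z) (vec p) - s * bil (vec x) (vec p)) ∧
      ∃ t, ∀ y ∈ N, bil u (vec y) = 1 → y ∈ near N t := by
  have h0 : 0 < bil (vec z) (vec x) - s := sub_pos.2 hs
  obtain ⟨u, hu⟩ : ∃ u : M3, u = (bil (vec z) (vec x) - s)⁻¹ • (vec z - s • vec x) := ⟨_, rfl⟩
  have e : ∀ p, (bil (vec z) (vec x) - s) * bil u (vec p) =
      bil (vec z) (vec p) - s * bil (vec x) (vec p) := fun p => by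
    rw [hu, bil_smul, bil_sub, bil_smul, mul_inv_cancel_left₀ h0.ne']
  have e1 : bil u (vec x) = 1 := by
    refine mul_left_cancel₀ h0.ne' ?_
    rw [e, bil_self, mul_one, mul_one]
  obtain ⟨a, -, b⟩ := h.locality hx e1 fun p hp hd => by
    by_cases hpx : p = x
    · rw [hpx, e1]
    · refine le_of_mul_le_mul_left ?_ h0
      have := h1 p hp hd hpx
      rw [e]
      linarith
  refine ⟨u, ?_, e1, a, e, b⟩
  rw [hu, smul_smul, mul_inv_cancel₀ h0.ne', one_smul, sub_add_cancel]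

theorem vor_cone {N : Set ℍ} {η δ : ℝ} (h : Net2 N η δ) {x z : ℍ} (hx : x ∈ near N z)
    (hz : z ≠ x) : ∃ y, Edge N x y ∧ z ∈ Cone x y := by
  have hc := one_lt_bil hz
  obtain ⟨r, hr⟩ : ∃ r : ℍ → ℝ, r = fun p =>
    (bil (vec z) (vec p) - bil (vec z) (vec x)) / (bil (vec x) (vec p) - 1) := ⟨_, rfl⟩
  have hp : ∀ p, p ≠ x → 0 < bil (vec x) (vec p) - 1 := fun p h1 =>
    sub_pos.2 (one_lt_bil h1.symm)
  have hT : {p | (p ∈ N ∧ dist x p ≤ 6 * δ) ∧ p ≠ x}.Finite :=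
    (h.finite_ball x (6 * δ)).subset fun _ h1 => h1.1
  by_cases hA : ∀ p ∈ N, dist x p ≤ 6 * δ → p ≠ x → 1 ≤ r p
  · obtain ⟨u, e, -, a, -⟩ := vor_loc h hx.1 hc fun p h1 h2 h3 => by
      have := hA p h1 h2 h3
      rw [hr] at this
      exact (le_div_iff₀ (hp p h3)).1 this
    have e1 : (bil (vec z) (vec x) - 1) • u = vec z - vec x := by
      rw [eq_sub_iff_add_eq]
      simpa using e.symm
    have e2 := congrArg (fun w => bil w w) e1
    simp only [bil_smul, bil_sub] at e2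
    rw [bil_comm u, bil_smul, bil_comm (vec z) (_ - _), bil_comm (vec x) (_ - _), bil_sub, bil_sub,
      bil_self, bil_self, bil_comm (vec x) (vec z)] at e2
    have := mul_pos (sub_pos.2 hc) (mul_pos (sub_pos.2 hc) a)
    linarith
  · simp only [not_forall, not_le] at hA
    obtain ⟨p, p1, p2, p3, p4⟩ := hA
    obtain ⟨y, ⟨⟨y1, -⟩, y3⟩, hy⟩ := Set.exists_min_image _ r hT ⟨p, ⟨p1, p2⟩, p3⟩
    have s1 : r y < 1 := (hy p ⟨⟨p1, p2⟩, p3⟩).trans_lt p4
    have s0 : 0 ≤ r y := by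
      rw [hr]
      exact div_nonneg (sub_nonneg.2 ((bil_le_iff _ _ _).2 (hx.2 y y1))) (hp y y3).le
    obtain ⟨u, e, e1, a, e2, t, ht⟩ := vor_loc h hx.1 (s1.trans hc) fun q h1 h2 h3 => by
      have := hy q ⟨⟨h1, h2⟩, h3⟩
      rw [← le_div_iff₀ (hp q h3)]
      rw [hr] at this ⊢
      exact this
    have h0 : 0 < bil (vec z) (vec x) - r y := sub_pos.2 (s1.trans hc)
    have e3 : bil u (vec y) = 1 := by
      refine mul_left_cancel₀ h0.ne' ?_
      have : r y * (bil (vec x) (vec y) - 1) = bil (vec z) (vec y) - bil (vec z) (vec x) := by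
        rw [hr]
        exact div_mul_cancel₀ _ (hp y y3).ne'
      rw [e2]
      linarith
    obtain ⟨w, σ, σ0, -, hw⟩ := exists_vec a (x := x) (by rw [e1]; exact one_pos)
    refine ⟨y, ⟨Ne.symm y3, t, ht x hx.1 e1, ht y y1 e3⟩, w, (bil (vec z) (vec x) - r y) * σ, r y,
      mul_pos h0 σ0, s0, ?_, ?_⟩
    · have e4 : bil (vec w) (vec x) = bil (vec w) (vec y) := by
        refine mul_left_cancel₀ σ0.ne' ?_
        rw [← bil_smul, ← bil_smul, ← hw, e1, e3]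
      exact le_antisymm ((bil_le_iff _ _ _).1 e4.le) ((bil_le_iff _ _ _).1 e4.ge)
    · rw [mul_smul, ← hw]
      exact e

end Pool.Agent.MC.VB
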