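import Pool.Agent.P.MP_2677b3_gt.VbDelB
import Pool.Agent.P.MP_2677b3_gt.VbCone
import Pool.Agent.P.MP_2677b3_gt.VbCov
import Pool.Agent.P.MP_2677b3_gt.VbNet
import Pool.Agent.P.MP_2677b3_gt.VbVor

/-! Cubic maps with large faces on thick surfaces of large area. -/

open Equiv Function UpperHalfPlane MeasureTheory
open scoped ENNReal MatrixGroups

namespace Pool.Agent.MC.VB

open LL Ge

theorem coarse_nat {v C : ℝ≥0∞} (h0 : v ≠ 0) (h1 : v ≠ ∞) (hC : C ≠ ∞) (w : ℕ) :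
    ∃ n : ℕ, v + w * C < n * v := by
  obtain ⟨n, hn⟩ := ENNReal.exists_nat_mul_gt h0
    (show v + w * C ≠ ∞ from ENNReal.add_ne_top.2 ⟨h1, ENNReal.mul_ne_top (by simp) hC⟩)
  exact ⟨n, hn⟩

theorem coarse {ε : ℝ} (hε : 0 < ε) (w : ℕ) : ∃ K a₀ : ℝ, ∀ G : Subgroup (Perm ℍ), Fuchs G ε →
    ∀ a : ℝ, a₀ ≤ a → area G 1 = ENNReal.ofReal a → ∃ (M : CMap) (g : Geo M.gd G K),
      g.Full ∧ Cubic M ∧ Conn M ∧ Nonempty M.D ∧ Big M w := by
  obtain ⟨C0, hC0, hcone⟩ := cone_vol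
  obtain ⟨n, hn⟩ := coarse_nat (vol_ball_ne_zero (I : ℍ) (half_pos hε)) (vol_ball_ne_top _ _) hC0 w
  obtain ⟨δ, a₀, hδ, hbig⟩ := vor_big hε n
  obtain ⟨K, C, f, hU⟩ := umap2 ε δ
  refine ⟨max K (4 * (2 * δ)), a₀, fun G hG a ha har => ?_⟩
  obtain ⟨N, h, hN, hfar⟩ := net2 hε hG hδ
  obtain ⟨U, hpos, hsur⟩ := hU G ε hG N h hN
  obtain ⟨Y, ⟨g, hg⟩, c1, c2, c3, c4⟩ := cov2 hε hG U
  refine ⟨Y.M, g, hg, c1, c2, c3, fun e => ?_⟩
  by_contra hlt
  set p := minimalPeriod Y.M.φ e with hp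
  have hp0 : 0 < p := minimalPeriod_pos_of_mem_periodicPts (Y.M.φ.injective.mem_periodicPts e)
  have hper : IsPeriodicPt U.φ p (Y.lift e) := c4 e p (iterate_minimalPeriod (f := Y.M.φ))
  set d := Y.lift e with hd
  have hit : ∀ k, U.pos (U.φ^[k] d) = U.pos d := fun k => by
    induction k with
    | zero => rfl
    | succ k ih => rw [iterate_succ_apply', U.pos_φ, ih]
  have hsub : {z | U.pos d ∈ near N z} ⊆ Metric.ball (U.pos d) (ε / 2) ∪
      ⋃ k ∈ Finset.range p, Cone (U.pos d) (U.pos (U.α (U.φ^[k] d))) := fun z hz => by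
    by_cases e1 : z = U.pos d
    · exact Or.inl (e1 ▸ Metric.mem_ball_self (half_pos hε))
    obtain ⟨y, hy, hc⟩ := vor_cone h hz e1
    obtain ⟨k, rfl⟩ := hsur d y hy
    refine Or.inr (Set.mem_biUnion (Finset.mem_coe.2 (Finset.mem_range.2 (Nat.mod_lt k hp0))) ?_)
    rwa [hper.iterate_mod_apply]
  have h1 := (hbig G hG a ha har N h hN hfar _ (hpos d)).trans (measure_mono hsub)
  refine absurd (h1.trans ((measure_union_le _ _).trans ?_)) hn.not_ge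
  rw [vol_ball]
  refine add_le_add le_rfl ((measure_biUnion_finset_le _ _).trans ?_)
  refine (Finset.sum_le_card_nsmul _ _ C0 fun k _ => hcone _ _ ?_).trans ?_
  · rw [← hit k]
    exact (U.pos_ne _).symm
  · rw [Finset.card_range, nsmul_eq_mul]
    exact mul_le_mul_left (by exact_mod_cast (not_le.1 hlt).le) _

end Pool.Agent.MC.VB
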