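import Pool.Agent.P.MP_2677b3_gt.VbDefs
import Pool.Agent.P.MP_2677b3_gt.Basic

/-! Collapsing a table of heptagons: values of the edges as words in the generators. -/

open Equiv Function

namespace Pool.Agent.MC.VB

theorem col_evw_nil {Γ : Type} [Group Γ] (γ : Fin 4 → Γ) : evw γ [] = 1 := rfl

theorem col_evw_cons {Γ : Type} [Group Γ] (γ : Fin 4 → Γ) (l : Fin 4 × Bool)
    (w : List (Fin 4 × Bool)) :
    evw γ (l :: w) = (bif l.2 then γ l.1 else (γ l.1)⁻¹) * evw γ w := by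
  simp [evw]

theorem col_evw_append {Γ : Type} [Group Γ] (γ : Fin 4 → Γ) (v w : List (Fin 4 × Bool)) :
    evw γ (v ++ w) = evw γ v * evw γ w := by
  simp [evw]

theorem evw_red {Γ : Type} [Group Γ] (γ : Fin 4 → Γ) (w : List (Fin 4 × Bool)) :
    evw γ (red w) = evw γ w := by
  induction w with
  | nil => rfl
  | cons l w ih =>
    have e : red (l :: w) = (match red w with
      | [] => [l]
      | m :: r' => if m.1 = l.1 ∧ m.2 = !l.2 then r' else l :: m :: r') := rfl
    rw [e, col_evw_cons, ← ih]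
    rcases red w with _ | ⟨m, r⟩
    · exact col_evw_cons γ l []
    · dsimp only
      split_ifs with h
      · rw [col_evw_cons, h.1, h.2]
        rcases l with ⟨i, _ | _⟩ <;> simp
      · exact col_evw_cons γ l _

theorem col_pl_zero (a : ℕ → ℕ) : pl a 0 = [] := by rw [pl]

theorem col_pl_ent (a : ℕ → ℕ) {y : ℕ} (h0 : y % 7 = 0) (hy : 0 < y) (ha : a y < y) :
    pl a y = pl a (a y) ++ [(a y, true)] := by
  obtain ⟨x, rfl⟩ : ∃ x, y = x + 1 := ⟨y - 1, by omega⟩
  rw [pl, if_pos h0, min_eq_right (by omega)]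

theorem col_pl_succ (a : ℕ → ℕ) {x : ℕ} (h : (x + 1) % 7 ≠ 0) :
    pl a (x + 1) = pl a x ++ [(x, false)] := by
  rw [pl, if_neg h]

theorem col_sx_succ {x : ℕ} (h : (x + 1) % 7 ≠ 0) : sx x = x + 1 := by
  unfold sx; omega

theorem col_sx_iter {y : ℕ} (h : y % 7 = 0) {k : ℕ} (hk : k < 7) : sx^[k] y = y + k := by
  induction k with
  | zero => rfl
  | succ k ih => rw [iterate_succ_apply', ih (by omega), col_sx_succ (by omega), add_assoc]

theorem Tab.Ok.sx_lt {T : Tab} (h : T.Ok) {x : ℕ} (hx : x < T.N) :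
    sx x < T.N ∧ sx^[7] x = x := by
  have := h.n7
  refine ⟨by unfold sx; omega, ?_⟩
  have key : ∀ k, sx^[k] x = x - x % 7 + (x + k) % 7 := by
    intro k
    induction k with
    | zero => simp only [iterate_zero, id_eq]; omega
    | succ k ih => rw [iterate_succ_apply', ih]; unfold sx; omega
  rw [key]; omega

theorem Tab.Ok.walk {T : Tab} (h : T.Ok) {x : ℕ} (hx : x < T.N) :
    (pl T.a x).length ≤ x ∧
      IsPath (fun p : ℕ × Bool => p.1) (fun p => bif p.2 then T.a p.1 else sx p.1) 0 (pl T.a x) x ∧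
      ∀ p ∈ pl T.a x, p.1 < T.N ∧
        (p.2 = true → T.a p.1 % 7 = 0 ∧ 0 < T.a p.1 ∧ p.1 < T.a p.1) := by
  induction x using Nat.strong_induction_on with
  | _ x ih =>
    rcases Nat.eq_zero_or_pos x with rfl | hp
    · rw [col_pl_zero]
      exact ⟨le_rfl, rfl, fun p hp => absurd hp List.not_mem_nil⟩
    by_cases h0 : x % 7 = 0
    · have h1 := h.ent x hx h0 hp
      have h2 := (h.a_lt x hx).2
      obtain ⟨i1, i2, i3⟩ := ih (T.a x) h1 (by omega)
      rw [col_pl_ent T.a h0 hp h1]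
      refine ⟨by rw [List.length_append, List.length_singleton]; omega,
        i2.append ⟨rfl, h2⟩, fun p hp' => ?_⟩
      rcases List.mem_append.1 hp' with hp' | hp'
      · exact i3 p hp'
      · rw [List.mem_singleton.1 hp']
        exact ⟨by dsimp only; omega, fun _ => by dsimp only; omega⟩
    · obtain ⟨y, rfl⟩ : ∃ y, x = y + 1 := ⟨x - 1, by omega⟩
      obtain ⟨i1, i2, i3⟩ := ih y (by omega) (by omega)
      rw [col_pl_succ T.a h0]
      refine ⟨by rw [List.length_append, List.length_singleton]; omega,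
        i2.append ⟨rfl, col_sx_succ h0⟩, fun p hp' => ?_⟩
      rcases List.mem_append.1 hp' with hp' | hp'
      · exact i3 p hp'
      · rw [List.mem_singleton.1 hp']
        exact ⟨by dsimp only; omega, fun e => absurd e (by simp)⟩

section

variable {Γ : Type} [Group Γ] (a : ℕ → ℕ) (χ σ : ℕ → Γ)

theorem col_pv_zero : pv a χ σ 0 = 1 := by rw [pv, col_pl_zero]; rfl

theorem col_pv_ent {y : ℕ} (h0 : y % 7 = 0) (hy : 0 < y) (ha : a y < y) :
    pv a χ σ y = pv a χ σ (a y) * χ (a y) := by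
  simp [pv, col_pl_ent a h0 hy ha]

theorem col_pv_succ {x : ℕ} (h : (x + 1) % 7 ≠ 0) : pv a χ σ (x + 1) = pv a χ σ x * σ x := by
  simp [pv, col_pl_succ a h]

theorem col_pv_add {y : ℕ} (h : y % 7 = 0) {k : ℕ} (hk : k < 7) :
    pv a χ σ (y + k) = pv a χ σ y * ((List.range k).map fun i => σ (sx^[i] y)).prod := by
  induction k with
  | zero => simp
  | succ k ih =>
    rw [← add_assoc, col_pv_succ a χ σ (by omega), ih (by omega), List.range_succ,
      List.map_append, List.prod_append, List.map_singleton, List.prod_singleton,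
      col_sx_iter h (by omega), mul_assoc]

end

theorem Tab.Ok.collapse {T : Tab} (h : T.Ok) {Γ : Type} [Group Γ] (χ σ : ℕ → Γ)
    (h1 : ∀ x < T.N, T.a x ≠ x → χ (T.a x) = (χ x)⁻¹)
    (h7 : ∀ x < T.N, ((List.range 7).map fun i => σ (sx^[i] x)).prod = 1)
    (h3 : ∀ x < T.N, T.In x → χ x * σ (T.a x) * (χ (T.t x) * σ (T.a (T.t x))) *
      (χ (T.t (T.t x)) * σ (T.a (T.t (T.t x)))) = 1) :
    (∀ x < T.N, pv T.a χ σ x * σ x = pv T.a χ σ (sx x)) ∧ ∀ x < T.N, T.a x ≠ x →
      pv T.a χ σ x * χ x * (pv T.a χ σ (T.a x))⁻¹ = evw (fun i => pv T.a χ σ (T.gen i) *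
        χ (T.gen i) * (pv T.a χ σ (T.a (T.gen i)))⁻¹) (T.c x) := by
  have turn : ∀ x < T.N, pv T.a χ σ x * σ x = pv T.a χ σ (sx x) := by
    intro x hx
    by_cases h0 : (x + 1) % 7 = 0
    · obtain ⟨y, rfl⟩ : ∃ y, x = y + 6 := ⟨x - 6, by omega⟩
      have hy : y % 7 = 0 := by omega
      have e := h7 y (by omega)
      rw [List.range_succ, List.map_append, List.prod_append, List.map_singleton,
        List.prod_singleton, col_sx_iter hy (by omega)] at e
      have e' : sx (y + 6) = y := by unfold sx; omega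
      rw [col_pv_add T.a χ σ hy (by omega), mul_assoc, e, mul_one, e']
    · rw [col_sx_succ h0, col_pv_succ T.a χ σ h0]
  refine ⟨turn, ?_⟩
  have tl : ∀ x < T.N, T.t x < T.N := fun x hx => (h.sx_lt (h.a_lt x hx).1).1
  have tv : ∀ x < T.N, pv T.a χ σ (T.t x) = pv T.a χ σ (T.a x) * σ (T.a x) :=
    fun x hx => (turn _ (h.a_lt x hx).1).symm
  generalize hγ : (fun i => pv T.a χ σ (T.gen i) * χ (T.gen i) *
    (pv T.a χ σ (T.a (T.gen i)))⁻¹) = γ
  intro x
  induction hr : T.rk x using Nat.strong_induction_on generalizing x with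
  | _ r ih =>
    intro hx hne
    subst hr
    obtain ⟨a1, a2⟩ := h.a_lt x hx
    rcases h.col x hx hne with ⟨⟨b1, b2⟩ | ⟨b1, b2⟩, b3⟩ | ⟨i, b1, b2⟩ | ⟨b1, b2⟩ |
      ⟨b1, b2, b3, b4⟩
    · rw [b3, col_evw_nil, col_pv_ent T.a χ σ b1 b2 (h.ent x hx b1 b2), h1 x hx hne]
      group
    · rw [b3, col_evw_nil, col_pv_ent T.a χ σ b1 b2 (h.ent _ a1 b1 b2), a2]
      group
    · rw [b2, b1, ← hγ]
      simp [evw]
    · have i1 := ih _ b1 (T.a x) rfl a1 (by rw [a2]; exact hne.symm)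
      have i2 := evw_red γ (T.c x ++ T.c (T.a x))
      rw [b2, col_evw_nil, col_evw_append, ← i1, a2, h1 x hx hne] at i2
      rw [eq_mul_inv_of_mul_eq i2.symm]
      group
    · have i1 := ih _ b2 (T.t x) rfl (tl x hx) b1.2.1
      have i2 := ih _ b3 (T.t (T.t x)) rfl (tl _ (tl x hx)) b1.2.2.1
      have i3 := evw_red γ (T.c x ++ T.c (T.t x) ++ T.c (T.t (T.t x)))
      rw [b4, col_evw_nil, col_evw_append, col_evw_append, ← i1, ← i2, mul_assoc] at i3
      have i4 := tv _ (tl _ (tl x hx))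
      rw [b1.2.2.2] at i4
      have i5 := eq_mul_inv_of_mul_eq (eq_mul_inv_of_mul_eq
        (eq_mul_inv_of_mul_eq (h3 x hx b1)))
      rw [eq_mul_inv_of_mul_eq i3.symm, tv x hx, tv _ (tl x hx), i4, i5]
      group

end Pool.Agent.MC.VB
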