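import Pool.Agent.P.MP_2677b3_gt.VbDefs

/-! Contraction of disjoint subtrees of a cubic map: the contracted map. -/

open Equiv Function

namespace Pool.Agent.MC.VB

open LL

theorem contr_snoc {D : Type} (f : D → D) (d : D) (n : ℕ) :
    orbL f d (n + 1) = orbL f d n ++ [f^[n] d] := by simp [orbL, List.range_succ]

theorem contr_psi (M : CMap) (d : M.D) : M.ψ (M.α d) = M.φ d := by simp [CMap.ψ, M.αα]

theorem contr_src (M : CMap) (d : M.D) : M.gd.src (M.ψ d) = M.gd.src d :=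
  Quotient.sound (Perm.sameCycle_apply_left.2 (Perm.SameCycle.refl _ _))

theorem contr_src_iter (M : CMap) (d : M.D) (n : ℕ) : M.gd.src (M.ψ^[n] d) = M.gd.src d := by
  induction n with
  | zero => rfl
  | succ n ih => rw [iterate_succ_apply', contr_src, ih]

/-- A function on darts that is invariant under the rotation is a function on vertices. -/
def contrLift (M : CMap) {β : Type} (F : M.D → β) (h : ∀ d, F (M.ψ d) = F d) : M.gd.V → β :=
  Quotient.lift F fun d e hde => by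
    obtain ⟨n, rfl⟩ := Perm.SameCycle.exists_nat_pow_eq hde
    clear hde
    induction n with
    | zero => rfl
    | succ n ih => rw [pow_succ', Perm.mul_apply, h, ← ih]

/-- Value of a list of darts. -/
def contrEv (M : CMap) (p : List M.D) : M.gd.U := M.gd.ev p

/-- Value of a dart. -/
def contrVal (M : CMap) (d : M.D) : M.gd.U := M.gd.val d

/-- Reversal of a list of darts. -/
def contrRev (M : CMap) (p : List M.D) : List M.D := M.gd.rev p

theorem contrEv_nil (M : CMap) : contrEv M [] = 1 := rfl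

theorem contrEv_append (M : CMap) (p q : List M.D) :
    contrEv M (p ++ q) = contrEv M p * contrEv M q := M.gd.ev_append p q

theorem contrEv_one (M : CMap) (d : M.D) : contrEv M [d] = contrVal M d :=
  (M.gd.ev_cons d []).trans (mul_one _)

theorem contrEv_rev (M : CMap) (p : List M.D) : contrEv M (contrRev M p) = (contrEv M p)⁻¹ :=
  M.gd.ev_rev p

theorem contrVal_α (M : CMap) (d : M.D) : contrVal M (M.α d) = (contrVal M d)⁻¹ := M.gd.val_inv d

theorem contrEv_rel (M : CMap) {d : M.D} {n : ℕ} (h : M.φ^[n] d = d) :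
    contrEv M (orbL M.φ d n) = 1 := pres_rel ⟨d, n, h, rfl⟩

/-- The data of the contraction. -/
structure CtD (M : CMap) where
  T : ∀ d, Tree M d 14
  ρ : Set M.D
  dis : ∀ d ∈ ρ, ∀ e ∈ ρ, d ≠ e → Disjoint (T d).S (T e).S
  big : Big M 43

namespace CtD

variable {M : CMap} (X : CtD M)

/-- Darts of contracted edges. -/
def H (e : M.D) : Prop := ∃ r ∈ X.ρ, e ∈ (X.T r).H

/-- Darts at contracted vertices. -/
def R (e : M.D) : Prop := ∃ r ∈ X.ρ, e ∈ (X.T r).S

variable {X}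

theorem uniq {r r' e : M.D} (hr : r ∈ X.ρ) (hr' : r' ∈ X.ρ) (he : e ∈ (X.T r).S)
    (he' : e ∈ (X.T r').S) : r = r' := by
  by_contra h
  exact Finset.disjoint_left.1 (X.dis r hr r' hr' h) he he'

theorem H_iff {r e : M.D} (hr : r ∈ X.ρ) (he : e ∈ (X.T r).S) : X.H e ↔ e ∈ (X.T r).H := by
  refine ⟨?_, fun h => ⟨r, hr, h⟩⟩
  rintro ⟨r', hr', h⟩
  obtain rfl := uniq hr hr' he ((X.T r').H_S h)
  exact h

theorem H.R {e : M.D} (h : X.H e) : X.R e := h.imp fun r hr => ⟨hr.1, (X.T r).H_S hr.2⟩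

theorem H_α {e : M.D} : X.H (M.α e) ↔ X.H e := by
  have : ∀ e, X.H e → X.H (M.α e) := fun e h => h.imp fun r hr => ⟨hr.1, (X.T r).H_α e hr.2⟩
  exact ⟨fun h => by simpa [M.αα] using this _ h, this e⟩

theorem R_ψ {e : M.D} : X.R (M.ψ e) ↔ X.R e :=
  exists_congr fun r => and_congr_right fun _ => (X.T r).S_ψ e

theorem run_mem {r x : M.D} (hr : r ∈ X.ρ) (hx : x ∈ (X.T r).S) (k : ℕ)
    (h : ∀ j < k, X.H (M.φ^[j] x)) : M.φ^[k] x ∈ (X.T r).S := by
  induction k with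
  | zero => exact hx
  | succ k ih =>
    have h1 := ih fun j hj => h j (by omega)
    have h2 := (H_iff hr h1).1 (h k (by omega))
    rw [iterate_succ_apply', ← contr_psi, (X.T r).S_ψ]
    exact (X.T r).H_S ((X.T r).H_α _ h2)

variable (X)

theorem run (x : M.D) : ∃ j, j ≤ 42 ∧ ¬ X.H (M.φ^[j] x) := by
  by_contra hc
  push Not at hc
  obtain ⟨r, hr, hx⟩ := (hc 0 (by omega)).R
  have h1 : ∀ j ∈ Finset.range 43, M.φ^[j] x ∈ (X.T r).S := fun j hj =>
    run_mem hr hx j fun i hi => hc i (by have := Finset.mem_range.1 hj; omega)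
  have h2 := Finset.card_le_card_of_injOn (fun j => M.φ^[j] x) h1 fun i hi j hj hij =>
    iterate_injOn_Iio_minimalPeriod (f := M.φ) (x := x)
      (lt_of_lt_of_le (Finset.mem_range.1 hi) (X.big x))
      (lt_of_lt_of_le (Finset.mem_range.1 hj) (X.big x)) hij
  rw [(X.T r).card, Finset.card_range] at h2
  omega

theorem ex (x : M.D) : ∃ j, ¬ X.H (M.φ^[j] x) := (X.run x).imp fun _ h => h.2

open Classical in
/-- The time until the face leaves the contracted edges. -/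
noncomputable def tm (x : M.D) : ℕ := Nat.find (X.ex x)

theorem tm_le (x : M.D) : X.tm x ≤ 42 := by
  classical
  obtain ⟨j, h1, h2⟩ := X.run x
  exact (Nat.find_min' (X.ex x) h2).trans h1

theorem tm_min (x : M.D) (j : ℕ) (h : j < X.tm x) : X.H (M.φ^[j] x) := by
  classical
  exact not_not.1 (Nat.find_min (X.ex x) h)

open Classical in
/-- The first surviving dart along the face. -/
noncomputable def nx (x : M.D) : {e // ¬ X.H e} := ⟨M.φ^[X.tm x] x, Nat.find_spec (X.ex x)⟩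

variable {X}

theorem nx_eq {x : M.D} {k : ℕ} (h1 : ∀ j < k, X.H (M.φ^[j] x)) (h2 : ¬ X.H (M.φ^[k] x)) :
    (X.nx x).1 = M.φ^[k] x := by
  classical
  have : X.tm x = k := (Nat.find_eq_iff (X.ex x)).2 ⟨h2, fun j hj => not_not.2 (h1 j hj)⟩
  rw [← this]; rfl

theorem nx_self (e : {e // ¬ X.H e}) : X.nx e.1 = e :=
  Subtype.ext (nx_eq (k := 0) (fun _ h => absurd h (by omega)) e.2)

theorem nx_H {x : M.D} (h : X.H x) : X.nx (M.φ x) = X.nx x := by
  refine Subtype.ext (Eq.symm ?_)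
  have h2 : M.φ^[X.tm (M.φ x) + 1] x = (X.nx (M.φ x)).1 := rfl
  rw [← h2]
  refine nx_eq (fun j hj => ?_) (h2 ▸ (X.nx (M.φ x)).2)
  rcases j with _ | j
  · exact h
  · exact X.tm_min (M.φ x) j (by omega)

theorem nx_mem {r x : M.D} (hr : r ∈ X.ρ) (hx : x ∈ (X.T r).S) : (X.nx x).1 ∈ (X.T r).S :=
  run_mem hr hx _ (X.tm_min x)

theorem nx_inj : Injective fun e : {e // ¬ X.H e} => X.nx (M.φ e.1) := by
  have key : ∀ e e' : {e // ¬ X.H e}, X.tm (M.φ e.1) ≤ X.tm (M.φ e'.1) →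
      X.nx (M.φ e.1) = X.nx (M.φ e'.1) → e = e' := by
    intro e e' hle h
    obtain ⟨c, hc⟩ := Nat.exists_eq_add_of_le hle
    have h1 : M.φ^[X.tm (M.φ e.1)] (M.φ e.1) = M.φ^[X.tm (M.φ e'.1)] (M.φ e'.1) :=
      congrArg Subtype.val h
    rw [hc, iterate_add_apply] at h1
    have h2 := (M.φ.injective.iterate _) h1
    rcases c with _ | c
    · exact Subtype.ext (M.φ.injective h2)
    · rw [iterate_succ_apply'] at h2
      exact absurd (M.φ.injective h2 ▸ X.tm_min (M.φ e'.1) c (by omega)) e.2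
  intro e e' h
  rcases le_total (X.tm (M.φ e.1)) (X.tm (M.φ e'.1)) with hle | hle
  · exact key e e' hle h
  · exact (key e' e hle h.symm).symm

variable (X)

/-- Reversal of the surviving darts. -/
def al : Perm {e // ¬ X.H e} := M.α.subtypePerm fun _ => not_congr H_α

/-- First return along a face. -/
noncomputable def ph : Perm {e // ¬ X.H e} :=
  Equiv.ofBijective _ (Finite.injective_iff_bijective.1 nx_inj)

/-- The contracted map. -/
noncomputable abbrev map : CMap where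
  D := {e // ¬ X.H e}
  fin := Fintype.ofFinite _
  α := X.al
  φ := X.ph
  αα := fun d => Subtype.ext (M.αα d.1)
  αne := fun d h => M.αne d.1 (congrArg Subtype.val h)

theorem map_φ (e : X.map.D) : X.map.φ e = X.nx (M.φ e.1) := rfl

theorem map_α (e : X.map.D) : (X.map.α e).1 = M.α e.1 := rfl

theorem map_ψ (e : X.map.D) : X.map.ψ e = X.nx (M.ψ e.1) := rfl

variable {X}

theorem ψ_poor {e : X.map.D} (h : ¬ X.R e.1) : (X.map.ψ e).1 = M.ψ e.1 :=
  congrArg Subtype.val (nx_self (X := X) ⟨M.ψ e.1, fun h' => h (R_ψ.1 h'.R)⟩)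

theorem ψ_rich {r : M.D} (hr : r ∈ X.ρ) {e : X.map.D} {i : ℕ} (h : e.1 = (X.T r).c i) :
    (X.map.ψ e).1 = (X.T r).c (i + 1) := by
  obtain ⟨k, h1, h2⟩ := (X.T r).ret i
  have h3 := (X.T r).c_mem (i + 1)
  rw [X.map_ψ, h, ← h1]
  exact nx_eq (x := M.φ (M.α ((X.T r).c i))) (fun j hj => ⟨r, hr, h2 j hj⟩)
    (fun h4 => h3.2 ((H_iff hr h3.1).1 (h1 ▸ h4)))

theorem ψ_iter {r : M.D} (hr : r ∈ X.ρ) {e : X.map.D} {i : ℕ} (h : e.1 = (X.T r).c i) (j : ℕ) :
    (X.map.ψ^[j] e).1 = (X.T r).c (i + j) := by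
  induction j with
  | zero => exact h
  | succ j ih => rw [iterate_succ_apply', ψ_rich hr ih, Nat.add_assoc]

theorem ex_c {r : M.D} (hr : r ∈ X.ρ) {e : X.map.D} (h : e.1 ∈ (X.T r).S) :
    ∃ i, e.1 = (X.T r).c i :=
  ((X.T r).c_surj _ h fun h' => e.2 ⟨r, hr, h'⟩).imp fun _ h => h.symm

theorem src_rich {r : M.D} (hr : r ∈ X.ρ) {e e' : X.map.D} (h : e.1 ∈ (X.T r).S)
    (h' : e'.1 ∈ (X.T r).S) : X.map.gd.src e = X.map.gd.src e' := by
  obtain ⟨i, hi⟩ := ex_c hr h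
  obtain ⟨j, hj⟩ := ex_c hr h'
  have : X.map.ψ^[j + 15 * i] e = e' :=
    Subtype.ext (by rw [ψ_iter hr hi, hj, (X.T r).c_eq]; omega)
  rw [← this, contr_src_iter]

theorem ψ_mem {r : M.D} (hr : r ∈ X.ρ) {e : X.map.D} (h : e.1 ∈ (X.T r).S) :
    (X.map.ψ e).1 ∈ (X.T r).S := nx_mem hr (((X.T r).S_ψ _).2 h)

theorem R_ψ' (e : X.map.D) : X.R (X.map.ψ e).1 ↔ X.R e.1 := by
  refine ⟨fun h => ?_, fun ⟨r, hr, h⟩ => ⟨r, hr, ψ_mem hr h⟩⟩
  by_contra h'
  exact h' (R_ψ.1 (ψ_poor h' ▸ h))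

theorem three (hc : Cubic M) (e : X.map.D) (h : ¬ X.R e.1) : minimalPeriod X.map.ψ e = 3 := by
  have h1 : ¬ X.R (X.map.ψ e).1 := fun h' => h ((R_ψ' e).1 h')
  have h2 : ¬ X.R (X.map.ψ (X.map.ψ e)).1 := fun h' => h1 ((R_ψ' _).1 h')
  have : Fact (Nat.Prime 3) := ⟨Nat.prime_three⟩
  refine minimalPeriod_eq_prime (Subtype.ext ?_) fun h3 => (hc e.1).2 ?_
  · change (X.map.ψ (X.map.ψ (X.map.ψ e))).1 = e.1
    rw [ψ_poor h2, ψ_poor h1, ψ_poor h, (hc e.1).1]
  · rw [← ψ_poor h]; exact congrArg Subtype.val h3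

theorem sixteen (e : X.map.D) (h : X.R e.1) : minimalPeriod X.map.ψ e = 16 := by
  obtain ⟨r, hr, h⟩ := h
  obtain ⟨i, hi⟩ := ex_c hr h
  have key : ∀ j, IsPeriodicPt X.map.ψ j e ↔ 16 ∣ j := fun j => by
    refine (Subtype.ext_iff (a1 := X.map.ψ^[j] e) (a2 := e)).trans ?_
    rw [ψ_iter hr hi, hi, (X.T r).c_eq]
    omega
  exact Nat.dvd_antisymm (isPeriodicPt_iff_minimalPeriod_dvd.1 ((key 16).2 dvd_rfl))
    ((key _).1 (isPeriodicPt_minimalPeriod _ _))

end CtD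

end Pool.Agent.MC.VB
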