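import Pool.Agent.P.MP_2677b3_gt.LX7
import Pool.Agent.P.MP_2677b3_gt.LS1
import Pool.Agent.P.MP_2677b3_gt.GeDefs2

/-! Definitions for the bounded virtual theorem. -/

open Equiv Function UpperHalfPlane

namespace Pool.Agent.MC.VB

open LL

/-! ### Nets and maps -/

/-- Generic nets with separation `η` and covering radius `2 δ`. -/
structure Net2 (N : Set ℍ) (η δ : ℝ) : Prop where
  pos : 0 < δ
  posη : 0 < η
  sep : ∀ p ∈ N, ∀ q ∈ N, p ≠ q → η ≤ dist p q
  dense : ∀ z, ∃ p ∈ N, dist z p ≤ 2 * δ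
  gen : ∀ z, ∀ a ∈ Ge.near N z, ∀ b ∈ Ge.near N z, ∀ c ∈ Ge.near N z, ∀ d ∈ Ge.near N z,
    a ≠ b → a ≠ c → b ≠ c → d = a ∨ d = b ∨ d = c

/-- Four points on one circle. -/
def Cyc (a b c d : ℍ) : Prop := ∃ z, dist z a = dist z b ∧ dist z a = dist z c ∧ dist z a = dist z d

/-- Subsets of the zero set of a non-zero analytic function of the plane. -/
def Thin (B : Set ℍ) : Prop := ∃ f : ℝ × ℝ → ℝ, AnalyticOnNhd ℝ f Set.univ ∧ (∃ p, f p ≠ 0) ∧
  ∀ x ∈ B, f (x.re, x.im) = 0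

/-- The cone from `x` over the bisector of `x` and `y`. -/
def Cone (x y : ℍ) : Set ℍ := {z | ∃ (t : ℍ) (a s : ℝ), 0 < a ∧ 0 ≤ s ∧ dist t x = dist t y ∧
  Ge.vec z = a • Ge.vec t + s • Ge.vec x}

/-- Points of `N` in different orbits are at distance at least `δ`. -/
def Far (G : Subgroup (Perm ℍ)) (N : Set ℍ) (δ : ℝ) : Prop :=
  ∀ p ∈ N, ∀ q ∈ N, (∀ g ∈ G, g p ≠ q) → δ ≤ dist p q

/-- All vertices have valence three. -/
def Cubic (M : CMap) : Prop := ∀ d, M.ψ (M.ψ (M.ψ d)) = d ∧ M.ψ d ≠ d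

/-- The map is connected. -/
def Conn (M : CMap) : Prop := ∀ d d', M.Same (fun _ => False) d d'

/-- All faces have at least `w` sides. -/
def Big (M : CMap) (w : ℕ) : Prop := ∀ d, w ≤ minimalPeriod M.φ d

/-- Vertices of valence 3 and 16 (the darts in `R`); the latter are `s`-dense along every face. -/
structure Mix (M : CMap) (s w : ℕ) (R : M.D → Prop) : Prop where
  inv : ∀ d, R (M.ψ d) ↔ R d
  three : ∀ d, ¬ R d → minimalPeriod M.ψ d = 3
  sixteen : ∀ d, R d → minimalPeriod M.ψ d = 16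
  dense : ∀ d, ∃ k < s, R (M.φ^[k] d)
  big : Big M w

/-- Coordinates on the cycles of a permutation. -/
structure Coord {D : Type} (σ : Perm D) where
  base : D → D
  pos : D → ℕ
  base_σ : ∀ d, base (σ d) = base d
  pos_lt : ∀ d, pos d < minimalPeriod σ d
  iter : ∀ d, σ^[pos d] (base d) = d
  pos_σ : ∀ d, pos (σ d) = (pos d + 1) % minimalPeriod σ d

/-- A subtree of a cubic map with `n` vertices through the source of `d0`: `S` is the set of darts
at its vertices, `H` the darts of its edges, `c` the other darts in cyclic order. -/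
structure Tree (M : CMap) (d0 : M.D) (n : ℕ) where
  S : Finset M.D
  H : Finset M.D
  c : ℕ → M.D
  τ : M.D → List M.D
  root : d0 ∈ S
  card : S.card = 3 * n
  S_ψ : ∀ e, M.ψ e ∈ S ↔ e ∈ S
  H_S : H ⊆ S
  H_α : ∀ h ∈ H, M.α h ∈ H
  c_mem : ∀ i, c i ∈ S ∧ c i ∉ H
  c_surj : ∀ e ∈ S, e ∉ H → ∃ i, c i = e
  c_eq : ∀ i j, c i = c j ↔ i % (n + 2) = j % (n + 2)
  ret : ∀ i, ∃ k, M.φ^[k + 1] (M.α (c i)) = c (i + 1) ∧ ∀ j < k, M.φ^[j + 1] (M.α (c i)) ∈ H
  τ_path : ∀ e ∈ S, M.gd.Path (M.gd.src d0) (τ e) (M.gd.src e) ∧ ∀ h ∈ τ e, h ∈ H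
  τ_ψ : ∀ e ∈ S, τ (M.ψ e) = τ e
  τ_H : ∀ h ∈ H, M.gd.ev (τ h) * M.gd.val h = M.gd.ev (τ (M.α h))
  near : ∀ e ∈ S, ∃ l : List Bool, l.length ≤ 3 * n ∧
    l.foldl (fun d b => bif b then M.α d else M.ψ d) d0 = e

/-! ### Side lengths of the junctions -/

/-- Half side lengths of the ten random junctions. -/
def kk : List (List ℕ) :=
  [[2, 4, 8, 9, 7, 2, 4, 5, 3, 3, 3, 5, 4, 6, 4, 6], [3, 3, 3, 3, 4, 3, 3, 4, 3, 3, 3, 3, 4, 3, 3, 4],
   [2, 4, 8, 9, 2, 9, 2, 4, 5, 3, 3, 3, 5, 6, 4, 6], [2, 4, 6, 6, 5, 3, 3, 3, 5, 2, 7, 2, 9, 8, 2, 8],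
   [2, 4, 5, 3, 3, 3, 6, 3, 3, 3, 5, 4, 2, 7, 6, 7], [2, 4, 4, 6, 4, 6, 6, 4, 6, 4, 2, 6, 8, 6, 8, 8],
   [2, 4, 8, 2, 6, 6, 5, 3, 3, 3, 3, 5, 2, 9, 8, 6], [2, 4, 8, 6, 9, 2, 5, 3, 3, 3, 3, 5, 6, 6, 4, 6],
   [2, 4, 7, 3, 3, 3, 5, 6, 4, 2, 6, 9, 2, 9, 2, 8], [2, 4, 4, 6, 5, 3, 3, 5, 4, 4, 2, 9, 5, 2, 9, 8]]

/-- The states of a random junction: a shape and a rotation. -/
def kS (s : Fin 10 × Fin 16) (i : Fin 16) : ℤ :=
  ((kk.getD s.1.val []).getD ((i.val + s.2.val) % 16) 0 : ℕ)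

/-- Number of sides: type 0 is the cubic junction, type 1 the tip, types 2 to 11 are random. -/
def nT (t : Fin 12) : ℕ := if t = 0 then 3 else 16

/-- Side lengths (in edges of the tiling). -/
def lenT (t : Fin 12) (i : ℕ) : ℕ :=
  if t = 0 then 4 else if t = 1 then
    [1, 8, 4, 10, 8, 6, 10, 4, 10, 6, 8, 6, 10, 4, 10, 6].getD i 0
  else 2 * (kk.getD (t.val - 2) []).getD i 0

/-- A choice of junction types whose side lengths are balanced along every face: each face has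
exactly two sides of length one, and they cut it into two arcs of equal length. -/
structure Asg (M : CMap) where
  ty : M.D → Fin 12
  idx : M.D → ℕ
  ty_ψ : ∀ d, ty (M.ψ d) = ty d
  per : ∀ d, minimalPeriod M.ψ d = nT (ty d)
  idx_lt : ∀ d, idx d < nT (ty d)
  idx_ψ : ∀ d, idx (M.ψ d) = (idx d + 1) % nT (ty d)
  bal : ∀ d, ∃ (τ : M.D) (p q : ℕ), M.φ.SameCycle d τ ∧ 0 < p ∧ 0 < q ∧
    p + q = minimalPeriod M.φ τ ∧
    (∀ i < p + q, lenT (ty (M.φ^[i] τ)) (idx (M.φ^[i] τ)) = 1 ↔ i = 0 ∨ i = p) ∧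
    ∑ i ∈ Finset.range p, lenT (ty (M.φ^[i + 1] τ)) (idx (M.φ^[i + 1] τ)) =
      ∑ i ∈ Finset.range q, lenT (ty (M.φ^[p + i + 1] τ)) (idx (M.φ^[p + i + 1] τ))

theorem lenT_pos : ∀ t : Fin 12, ∀ i < nT t, 0 < lenT t i := by decide +kernel

namespace Asg

variable {M : CMap} (A : Asg M)

/-- The length of the side that precedes the bridge `e`. -/
def len (e : M.D) : ℕ := lenT (A.ty e) (A.idx e)

/-- The darts along the slits. -/
def X : Type := {p : M.D × ℕ // p.2 < A.len p.1}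

/-- The next dart along a slit. -/
def nu (x : A.X) : A.X :=
  if h : x.1.2 + 1 < A.len x.1.1 then ⟨(x.1.1, x.1.2 + 1), h⟩
  else ⟨(M.φ x.1.1, 0), lenT_pos _ _ (A.idx_lt _)⟩

/-- The tips. -/
def tip (x : A.X) : Prop := A.len x.1.1 = 1

/-- The bridges crossed by `n` steps along a slit. -/
def crs (x : A.X) (n : ℕ) : List M.D :=
  (orbL A.nu x n).flatMap fun y => if y.1.2 + 1 = A.len y.1.1 then [y.1.1] else []

end Asg

/-- Every cycle of `ν` has even length and exactly two tips, which are antipodal. -/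
def Slit {X : Type} (ν : Perm X) (tip : X → Prop) : Prop :=
  ∀ x, ∃ (τ : X) (L : ℕ), ν.SameCycle x τ ∧ 0 < L ∧ minimalPeriod ν τ = 2 * L ∧
    ∀ i < 2 * L, tip (ν^[i] τ) ↔ i = 0 ∨ i = L

/-! ### Tilings by heptagons -/

/-- A finite set with an action of the triangle group (2,3,7). -/
structure T7 where
  D : Type
  fD : Finite D
  a : Perm D
  s : Perm D
  aa : a * a = 1
  s7 : s ^ 7 = 1
  t3 : (s * a) ^ 3 = 1

instance (Z : T7) : Finite Z.D := Z.fD

namespace T7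

variable (Z : T7)

/-- Edges: `none` goes from `d` to `a d`, `some true` from `d` to `s d`, `some false` back. -/
def src (e : Z.D × Option Bool) : Z.D := if e.2 = some false then Z.s e.1 else e.1

def inv (e : Z.D × Option Bool) : Z.D × Option Bool :=
  match e.2 with
  | none => (Z.a e.1, none)
  | some b => (e.1, some (!b))

theorem inv_inv (e : Z.D × Option Bool) : Z.inv (Z.inv e) = e := by
  obtain ⟨d, _ | b⟩ := e
  · have : Z.a (Z.a d) = d := by rw [← Perm.mul_apply, Z.aa, Perm.one_apply]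
    simp [inv, this]
  · simp [inv]

/-- The loop around a heptagon. -/
def hep (d : Z.D) : List (Z.D × Option Bool) := (List.range 7).map fun i => (Z.s^[i] d, some true)

/-- The loop around a vertex of the tiling. -/
def tri (d : Z.D) : List (Z.D × Option Bool) :=
  (List.range 3).flatMap fun i =>
    [((Z.s * Z.a)^[i] d, none), (Z.a ((Z.s * Z.a)^[i] d), some true)]

/-- The Schreier graph with the relators of the triangle group filled. -/
def gd : Gd := pres Z.src Z.inv Z.inv_inv {w | ∃ d, w = Z.hep d ∨ w = Z.tri d}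

end T7

/-- The next dart of a heptagon; darts are numbered `7 h + j`. -/
def sx (x : ℕ) : ℕ := x - x % 7 + (x + 1) % 7

/-- Free reduction. -/
def red (w : List (Fin 4 × Bool)) : List (Fin 4 × Bool) :=
  w.foldr (fun l r => match r with
    | [] => [l]
    | m :: r' => if m.1 = l.1 ∧ m.2 = !l.2 then r' else l :: m :: r') []

/-- Value of a word. -/
def evw {Γ : Type} [Group Γ] (γ : Fin 4 → Γ) (w : List (Fin 4 × Bool)) : Γ :=
  (w.map fun l => bif l.2 then γ l.1 else (γ l.1)⁻¹).prod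

/-- The walk from dart `0` to dart `x`; `(y, true)` crosses the edge of `y`, `(y, false)` turns. -/
def pl (a : ℕ → ℕ) : ℕ → List (ℕ × Bool)
  | 0 => []
  | x + 1 => if (x + 1) % 7 = 0 then pl a (min x (a (x + 1))) ++ [(a (x + 1), true)]
      else pl a x ++ [(x, false)]
decreasing_by all_goals omega

/-- Value of that walk. -/
def pv {Γ : Type} [Group Γ] (a : ℕ → ℕ) (χ σ : ℕ → Γ) (x : ℕ) : Γ :=
  ((pl a x).map fun p => bif p.2 then χ p.1 else σ p.1).prod

/-- A table of heptagons glued by `a` (fixed points are boundary darts) with a collapsing order. -/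
structure Tab where
  N : ℕ
  a : ℕ → ℕ
  rk : ℕ → ℕ
  c : ℕ → List (Fin 4 × Bool)
  gen : Fin 4 → ℕ

/-- Rotation about a vertex of the tiling. -/
def Tab.t (T : Tab) (x : ℕ) : ℕ := sx (T.a x)

/-- The source of `x` is an interior vertex. -/
def Tab.In (T : Tab) (x : ℕ) : Prop :=
  T.a x ≠ x ∧ T.a (T.t x) ≠ T.t x ∧ T.a (T.t (T.t x)) ≠ T.t (T.t x) ∧ T.t (T.t (T.t x)) = x

instance (T : Tab) (x : ℕ) : Decidable (T.In x) := by unfold Tab.In; infer_instance

structure Tab.Ok (T : Tab) : Prop where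
  n7 : T.N % 7 = 0
  pos : 0 < T.N
  a_lt : ∀ x < T.N, T.a x < T.N ∧ T.a (T.a x) = x
  ent : ∀ x < T.N, x % 7 = 0 → 0 < x → T.a x < x
  col : ∀ x < T.N, T.a x ≠ x →
    (((x % 7 = 0 ∧ 0 < x) ∨ (T.a x % 7 = 0 ∧ 0 < T.a x)) ∧ T.c x = []) ∨
    (∃ i, x = T.gen i ∧ T.c x = [(i, true)]) ∨
    (T.rk (T.a x) < T.rk x ∧ red (T.c x ++ T.c (T.a x)) = []) ∨
    (T.In x ∧ T.rk (T.t x) < T.rk x ∧ T.rk (T.t (T.t x)) < T.rk x ∧
      red (T.c x ++ T.c (T.t x) ++ T.c (T.t (T.t x))) = [])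

/-- The vertex after dart `j` of a side of length `l` has two corners in the patch. -/
def two (j l : ℕ) : Prop := (j % 2 = 1 ∧ j + 1 < l) ∨ (j % 2 = 0 ∧ j + 1 = l)

instance (j l : ℕ) : Decidable (two j l) := by unfold two; infer_instance

/-- A disc of heptagons with `n` sides of lengths `len i`, each followed by a bridge: `bd i j` is
dart `j` of side `i` for `j < len i` and the bridge for `j = len i`. -/
structure Patch (n : ℕ) (len : ℕ → ℕ) extends Tab where
  bd : ℕ → ℕ → ℕ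
  cl : ℕ → ℕ × ℕ
  ok : toTab.Ok
  small : N ≤ 294
  triv : ∀ x, c x = []
  bd_lt : ∀ i < n, ∀ j ≤ len i, bd i j < N ∧ a (bd i j) = bd i j ∧ cl (bd i j) = (i, j)
  cl_bd : ∀ x < N, a x = x → (cl x).1 < n ∧ (cl x).2 ≤ len (cl x).1 ∧ bd (cl x).1 (cl x).2 = x
  br : ∀ i < n, sx (bd i (len i)) = bd ((i + 1) % n) 0
  one : ∀ i < n, ∀ j < len i, ¬ two j (len i) → sx (bd i j) = bd i (j + 1)
  tw : ∀ i < n, ∀ j < len i, two j (len i) →
    a (sx (bd i j)) ≠ sx (bd i j) ∧ sx (a (sx (bd i j))) = bd i (j + 1)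
  inn : ∀ x < N, a x ≠ x → toTab.In x ∨ ∃ i < n, ∃ j < len i, two j (len i) ∧ x = sx (bd i j)

/-- The relator of the surface group as a word. -/
def relw : List (Fin 4 × Bool) :=
  [(0, true), (1, true), (0, false), (1, false), (2, true), (3, true), (2, false), (3, false)]

/-- A tiling of the surface of genus two by twelve heptagons. -/
structure X84 extends Tab where
  u : ℕ
  ok : toTab.Ok
  n84 : N = 84
  all : ∀ x < 84, toTab.In x ∧ red (c x ++ c (a x)) = []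
  gen_lt : ∀ i, gen i < 84 ∧ c (gen i) = [(i, true)]
  tree : ∀ x < 84, x % 7 = 0 → 0 < x → c (a x) = [] ∧ c x = []
  u_lt : u < 84
  last : red (c u ++ c (toTab.t u) ++ c (toTab.t (toTab.t u))) = relw
  face : ∀ x < 84, red (c x ++ c (toTab.t x) ++ c (toTab.t (toTab.t x))) = [] ∨
    x = u ∨ x = toTab.t u ∨ x = toTab.t (toTab.t u)

/-! ### Covers and components -/

/-- A monodromy: along the edge `e` the sheet `u` goes to `μ e u`. -/
structure Mon (A : Gd) (U : Type) where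
  μ : A.E → Perm U
  inv : ∀ e, μ (A.inv e) = (μ e)⁻¹
  cong : ∀ x p, A.Path x p x → A.ev p = 1 → ∀ u, p.foldl (fun u e => μ e u) u = u

/-- The cover defined by a monodromy. -/
def cover (A : Gd) {U : Type} (m : Mon A U) : Gd where
  V := A.V × U
  E := A.E × U
  U := A.U
  grp := A.grp
  src := fun e => (A.src e.1, e.2)
  inv := fun e => (A.inv e.1, m.μ e.1 e.2)
  val := fun e => A.val e.1
  inv_inv := fun e => by simp [A.inv_inv, m.inv]
  val_inv := fun e => A.val_inv e.1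

/-- The component of a vertex. -/
def comp (A : Gd) (x : A.V) : Gd where
  V := {y // ∃ p, A.Path x p y}
  E := {e // ∃ p, A.Path x p (A.src e)}
  U := A.U
  grp := A.grp
  src := fun e => ⟨A.src e.1, e.2⟩
  inv := fun e => ⟨A.inv e.1, e.2.elim fun p h => ⟨p ++ [e.1], h.append (A.path_single e.1)⟩⟩
  val := fun e => A.val e.1
  inv_inv := fun e => Subtype.ext (A.inv_inv e.1)
  val_inv := fun e => A.val_inv e.1

/-! ### The local limit theorem -/

/-- Characteristic function of a finite law. -/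
noncomputable def chf {S : Type} [Fintype S] {n : ℕ} (π : S → ℝ) (κ : S → Fin n → ℝ)
    (η : Fin n → ℝ) : ℂ :=
  ∑ s, (π s : ℂ) * Complex.exp (Complex.I * ((∑ i, η i * κ s i : ℝ) : ℂ))

/-- Junctions `V` with `n` slots in distinct windows `W` of size between `ω` and `2 ω`. -/
structure Win {V W : Type} [Fintype V] [DecidableEq W] {n : ℕ} (win : V → Fin n → W) (ω : ℕ) :
    Prop where
  inj : ∀ v, Injective (win v)
  size : ∀ w, ω ≤ (Finset.univ.filter fun p : V × Fin n => win p.1 p.2 = w).card ∧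
    (Finset.univ.filter fun p : V × Fin n => win p.1 p.2 = w).card ≤ 2 * ω

end Pool.Agent.MC.VB
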