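import Pool.Agent.P.MP_2677b3_gt.VbDefs
import Pool.Agent.P.MP_2677b3_gt.GeUm

/-! Delaunay complexes of nets whose separation is small compared with the covering radius. -/

open UpperHalfPlane Equiv
open scoped MatrixGroups

noncomputable section

namespace Pool.Agent.MC.Ge

variable {η : ℝ}

theorem _root_.Pool.Agent.MC.VB.Net2.finite_ball {N : Set ℍ} {η δ : ℝ} (h : VB.Net2 N η δ) (z : ℍ)
    (ρ : ℝ) : {p | p ∈ N ∧ dist z p ≤ ρ}.Finite := by
  obtain ⟨P, hP⟩ := exists_pk h.posη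
  exact (hP z ρ _ (fun p hp => hp.2) fun p hp q hq => h.sep p hp.1 q hq.1).1

section

variable {N : Set ℍ} {δ : ℝ} {x y w w' z : ℍ} {u : M3}

theorem _root_.Pool.Agent.MC.VB.Net2.near_dist
    (h : VB.Net2 N η δ) (hx : x ∈ near N z) : dist z x ≤ 2 * δ := by
  obtain ⟨p, hp, hd⟩ := h.dense z
  exact (hx.2 p hp).trans hd

theorem _root_.Pool.Agent.MC.VB.Net2.edge_dist
    (h : VB.Net2 N η δ) (he : Edge N x y) : dist x y ≤ 4 * δ := by
  obtain ⟨-, z, hx, hy⟩ := he
  have h1 := h.near_dist hx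
  have h2 := h.near_dist hy
  have h3 := dist_triangle_left x y z
  linarith

theorem del1_step12 (h : VB.Net2 N η δ) (h1 : bil u (vec x) = 1)
    (h2 : ∀ p ∈ N, dist x p ≤ 6 * δ → 1 ≤ bil u (vec p)) :
    ((Real.cosh (3 * δ))⁻¹) ^ 2 < bil u u := by
  have hδ := h.pos
  by_contra hcon
  rw [not_lt] at hcon
  have hC : 1 < Real.cosh (3 * δ) := Real.one_lt_cosh.2 (by linarith)
  have hC0 : 0 < Real.cosh (3 * δ) := Real.cosh_pos _
  set c : ℝ := (Real.cosh (3 * δ))⁻¹ with hc
  have hc0 : 0 < c := inv_pos.2 hC0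
  have hc1 : c < 1 := inv_lt_one_of_one_lt₀ hC
  have hcC : c * Real.cosh (3 * δ) = 1 := inv_mul_cancel₀ hC0.ne'
  have hk : c ^ 2 < 1 := by nlinarith
  have hB : 0 < 1 - bil u u := by linarith
  have hq0 : 0 ≤ (1 - c ^ 2) / (1 - bil u u) := div_nonneg (by linarith) hB.le
  have hq1 : (1 - c ^ 2) / (1 - bil u u) ≤ 1 := by
    rw [div_le_one hB]
    linarith
  set s : ℝ := Real.sqrt ((1 - c ^ 2) / (1 - bil u u)) with hs
  have hs0 : 0 ≤ s := Real.sqrt_nonneg _
  have hs1 : s ≤ 1 := Real.sqrt_le_one.2 hq1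
  have hs2 : s ^ 2 * (1 - bil u u) = 1 - c ^ 2 := by
    rw [hs, Real.sq_sqrt hq0, div_mul_cancel₀ _ hB.ne']
  have e1 : bil ((1 - s) • vec x + s • u) (vec x) = 1 := by
    rw [bil_add, bil_smul, bil_smul, bil_self, h1]
    ring
  have e2 : bil ((1 - s) • vec x + s • u) ((1 - s) • vec x + s • u) = c ^ 2 := by
    rw [del1_bil_add', del1_bil_smul', del1_bil_smul', e1, bil_add, bil_smul, bil_smul,
      bil_comm (vec x) u, h1]
    linear_combination (-1 : ℝ) * hs2
  obtain ⟨z, t, ht0, ht2, hu'⟩ := exists_vec (u := (1 - s) • vec x + s • u) (x := x)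
    (by rw [e2]; positivity) (by rw [e1]; exact one_pos)
  have htc : t = c := by
    rw [e2] at ht2
    exact (pow_left_inj₀ ht0.le hc0.le two_ne_zero).1 ht2
  obtain ⟨p, hp, hd⟩ := h.dense z
  have hzx : dist z x ≤ 3 * δ := by
    rw [hu', bil_smul, bil_vec, htc] at e1
    rw [← del1_cosh_le dist_nonneg (by linarith)]
    have : c * Real.cosh (dist z x) = c * Real.cosh (3 * δ) := by rw [e1, hcC]
    exact (mul_left_cancel₀ hc0.ne' this).le
  have hxp : dist x p ≤ 6 * δ := by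
    have := dist_triangle_left x p z
    linarith
  have a1 : bil ((1 - s) • vec x + s • u) (vec p) < 1 := by
    rw [hu', bil_smul, bil_vec, htc, ← hcC]
    refine mul_lt_mul_of_pos_left ?_ hc0
    rw [del1_cosh_lt dist_nonneg (by linarith)]
    linarith
  rw [bil_add, bil_smul, bil_smul] at a1
  have a2 := one_le_bil x p
  have a3 := h2 p hp hxp
  have a4 : (1 - s) * 1 ≤ (1 - s) * bil (vec x) (vec p) :=
    mul_le_mul_of_nonneg_left a2 (by linarith)
  have a5 : s * 1 ≤ s * bil u (vec p) := mul_le_mul_of_nonneg_left a3 hs0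
  linarith

theorem _root_.Pool.Agent.MC.VB.Net2.locality
    (h : VB.Net2 N η δ) (hx : x ∈ N) (h1 : bil u (vec x) = 1)
    (h2 : ∀ p ∈ N, dist x p ≤ 6 * δ → 1 ≤ bil u (vec p)) :
    0 < bil u u ∧ Supp N u ∧ ∃ z, ∀ y ∈ N, bil u (vec y) = 1 → y ∈ near N z := by
  have hδ := h.pos
  have hC0 : 0 < Real.cosh (3 * δ) := Real.cosh_pos _
  have hk := del1_step12 h h1 h2
  have hc0 : 0 < (Real.cosh (3 * δ))⁻¹ := inv_pos.2 hC0
  have hB : 0 < bil u u := lt_trans (by positivity) hk
  obtain ⟨z, t, ht0, ht2, hu⟩ := exists_vec (u := u) (x := x) hB (by rw [h1]; exact one_pos)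
  have hct : (Real.cosh (3 * δ))⁻¹ < t := by
    rw [← ht2] at hk
    exact lt_of_pow_lt_pow_left₀ 2 ht0.le hk
  have hv : ∀ p, bil u (vec p) = t * Real.cosh (dist z p) := by
    intro p
    rw [hu, bil_smul, bil_vec]
  have hzx : dist z x < 3 * δ := by
    rw [← del1_cosh_lt dist_nonneg (by linarith)]
    rw [hv] at h1
    rw [inv_lt_iff_one_lt_mul₀ hC0, ← h1] at hct
    exact lt_of_mul_lt_mul_left hct ht0.le
  have hS : Supp N u := by
    intro p hp
    by_cases hd : dist x p ≤ 6 * δ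
    · exact h2 p hp hd
    · rw [← h1, hv, hv]
      refine mul_le_mul_of_nonneg_left ?_ ht0.le
      rw [del1_cosh_le dist_nonneg dist_nonneg]
      have := dist_triangle_left x p z
      linarith
  refine ⟨hB, hS, z, fun y hy hy1 => ⟨hy, fun p hp => ?_⟩⟩
  have a := hS p hp
  rw [← hy1, hv, hv] at a
  rw [← del1_cosh_le dist_nonneg dist_nonneg]
  exact le_of_mul_le_mul_left a ht0

theorem _root_.Pool.Agent.MC.VB.Net2.edge_of_supp
    (h : VB.Net2 N η δ) (hu : Supp N u) (hx : x ∈ N) (hy : y ∈ N)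
    (h1 : bil u (vec x) = 1) (h2 : bil u (vec y) = 1) (hne : x ≠ y) : Edge N x y := by
  obtain ⟨-, -, z, hz⟩ := h.locality hx h1 (fun p hp _ => hu p hp)
  exact ⟨hne, z, hz x hx h1, hz y hy h2⟩

theorem _root_.Pool.Agent.MC.VB.Net2.tri_supp (h : VB.Net2 N η δ) (ht : Tri N x y w) :
    ∃ u, Supp N u ∧ bil u (vec x) = 1 ∧ bil u (vec y) = 1 ∧ bil u (vec w) = 1 ∧
      ∀ q ∈ N, bil u (vec q) = 1 → q = x ∨ q = y ∨ q = w := by
  have n1 : x ≠ y := ht.edge.1
  have n2 : x ≠ w := ht.edge'.1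
  have n3 : y ≠ w := ht.cyc.edge.1
  obtain ⟨-, z, hx, hy, hw⟩ := ht
  obtain ⟨u, hu, h1⟩ := supp_of_near hx
  obtain ⟨-, -, z', hz⟩ := h.locality hx.1 (h1 x hx) (fun p hp _ => hu p hp)
  refine ⟨u, hu, h1 x hx, h1 y hy, h1 w hw, fun q hq hq1 => ?_⟩
  exact h.gen z' x (hz x hx.1 (h1 x hx)) y (hz y hy.1 (h1 y hy)) w (hz w hw.1 (h1 w hw)) q
    (hz q hq hq1) n1 n2 n3

theorem _root_.Pool.Agent.MC.VB.Net2.exists_tri
    (h : VB.Net2 N η δ) (he : Edge N x y) : ∃ w, Tri N x y w := by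
  obtain ⟨u, hu, h1, h2⟩ := he.supp
  obtain ⟨hx, hy⟩ := he.mem
  have ex : ∀ t : ℝ, bil (u - t • crs (vec x) (vec y)) (vec x) = 1 := by
    intro t
    rw [del1_ut, ori_self₂, h1]
    ring
  have ey : ∀ t : ℝ, bil (u - t • crs (vec x) (vec y)) (vec y) = 1 := by
    intro t
    rw [del1_ut, ori_self₃, h2]
    ring
  have hfin : {q | (q ∈ N ∧ dist x q ≤ 6 * δ) ∧ 0 < ori x y q}.Finite :=
    (h.finite_ball x (6 * δ)).subset (fun q hq => hq.1)
  have hne : {q | (q ∈ N ∧ dist x q ≤ 6 * δ) ∧ 0 < ori x y q}.Nonempty := by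
    by_contra hcon
    have hn : bil (crs (vec x) (vec y)) (crs (vec x) (vec y)) < 0 := by
      rw [bil_crs_crs, bil_self, bil_self]
      have := one_lt_bil he.1
      nlinarith
    obtain ⟨t, ht0, ht⟩ := del1_quad (a := bil u u) (b := bil u (crs (vec x) (vec y))) hn
    have hl := (h.locality hx (ex t) (fun p hp hd => by
      rw [del1_ut]
      have a1 : ori x y p ≤ 0 := by
        by_contra a
        exact hcon ⟨p, ⟨hp, hd⟩, not_le.1 a⟩
      have a2 := hu p hp
      have a3 : t * ori x y p ≤ 0 := mul_nonpos_of_nonneg_of_nonpos ht0 a1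
      linarith)).1
    rw [bil_sub, bil_smul, del1_bil_sub', del1_bil_sub', del1_bil_smul', del1_bil_smul',
      bil_comm (crs (vec x) (vec y)) u] at hl
    linarith
  obtain ⟨w, hw, hmin⟩ := Set.exists_min_image _ (fun q => (bil u (vec q) - 1) / ori x y q)
    hfin hne
  have ht0 : 0 ≤ (bil u (vec w) - 1) / ori x y w :=
    div_nonneg (by have := hu w hw.1.1; linarith) hw.2.le
  obtain ⟨-, -, z, hz⟩ := h.locality hx (ex ((bil u (vec w) - 1) / ori x y w)) (fun p hp hd => by
    rw [del1_ut]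
    by_cases a : 0 < ori x y p
    · have a1 := hmin p ⟨⟨hp, hd⟩, a⟩
      rw [le_div_iff₀ a] at a1
      linarith
    · have a2 := hu p hp
      have a3 : (bil u (vec w) - 1) / ori x y w * ori x y p ≤ 0 :=
        mul_nonpos_of_nonneg_of_nonpos ht0 (not_lt.1 a)
      linarith)
  refine ⟨w, hw.2, z, hz x hx (ex _), hz y hy (ey _), hz w hw.1.1 ?_⟩
  rw [del1_ut, div_mul_cancel₀ _ hw.2.ne']
  ring

theorem _root_.Pool.Agent.MC.VB.Net2.tri_unique
    (h : VB.Net2 N η δ) (h1 : Tri N x y w) (h2 : Tri N x y w') : w = w' := by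
  obtain ⟨u, hu, ux, uy, uw, huq⟩ := h.tri_supp h1
  obtain ⟨u', hu', ux', uy', uw', -⟩ := h.tri_supp h2
  have hw : w ∈ N := h1.edge'.mem.2
  have hw' : w' ∈ N := h2.edge'.mem.2
  have c1 := cramer u x y w w'
  have c2 := cramer u' x y w' w
  rw [ux, uy, uw] at c1
  rw [ux', uy', uw'] at c2
  have s1 : ori w y w' = -ori w' y w := by
    rw [← ori_cyc w y w', ori_swap w' y w]
  have s2 : ori x w w' = -ori x w' w := ori_swap' x w' w
  have b1 := hu w' hw'
  have b2 := hu' w hw
  have o1 := h1.1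
  have o2 := h2.1
  have a1 : ori x y w' * 1 ≤ ori x y w' * bil u' (vec w) := mul_le_mul_of_nonneg_left b2 o2.le
  have a2 : ori x y w * bil u (vec w') ≤ ori x y w * 1 := by linarith
  have a3 : bil u (vec w') = 1 := le_antisymm (le_of_mul_le_mul_left a2 o1) b1
  rcases huq w' hw' a3 with e | e | e
  · exact absurd e.symm h2.edge'.1
  · exact absurd e.symm h2.cyc.edge.1
  · exact e.symm

end

section

variable {N : Set ℍ} {δ : ℝ} {o x y y' w : ℍ}

theorem _root_.Pool.Agent.MC.VB.Net2.step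
    (h : VB.Net2 N η δ) (ht : Tri N x y w) (he : Edge N x y') (hne : y ≠ y')
    (ho : 0 ≤ ori x y y') : w = y' ∨ 0 < ori x w y' := by
  by_contra hcon
  rw [not_or, not_lt] at hcon
  obtain ⟨hw, hle⟩ := hcon
  obtain ⟨u, hu, hx1, hy1, hw1, hall⟩ := h.tri_supp ht
  obtain ⟨u', hu', hx2, hy2⟩ := he.supp
  have hD : 0 < ori x y w := ht.1
  have ha : 0 ≤ ori x y' w := by rw [ori_swap']; linarith
  have c1 := cramer u x y w y'
  have c2 := cramer u' x y w y'
  rw [hx1, hy1, hw1] at c1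
  rw [hx2, hy2] at c2
  have hyN : y ∈ N := ht.edge.mem.2
  have hwN : w ∈ N := ht.edge'.mem.2
  have hy'N : y' ∈ N := he.mem.2
  have p1 := mul_nonneg ha (sub_nonneg.2 (hu' y hyN))
  have p2 := mul_nonneg ho (sub_nonneg.2 (hu' w hwN))
  have p3 : ori x y w * (bil u (vec y') - 1) ≤ 0 := by nlinarith
  have p4 : bil u (vec y') ≤ 1 := by
    by_contra hlt
    rw [not_le] at hlt
    have := mul_pos hD (sub_pos.2 hlt)
    linarith
  rcases hall y' hy'N (le_antisymm p4 (hu y' hy'N)) with e | e | e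
  · exact he.1 e.symm
  · exact hne e.symm
  · exact hw e.symm

theorem _root_.Pool.Agent.MC.VB.Net2.lower_between
    (h : VB.Net2 N η δ) (ht : Tri N x y w) (he : Edge N x y')
    (h1 : 0 < ori x y y') (h2 : 0 < ori x w y') (hy : dist o y ≤ dist o x)
    (hy' : dist o y' ≤ dist o x) : dist o w < dist o x := by
  obtain ⟨u, hu, hx1, hy1, hw1, hall⟩ := h.tri_supp ht
  have hy'N : y' ∈ N := he.mem.2
  have hU : 1 < bil u (vec y') := by
    refine lt_of_le_of_ne (hu y' hy'N) fun e => ?_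
    rcases hall y' hy'N e.symm with e | e | e
    · exact he.1 e.symm
    · rw [e, ori_self₃] at h1; exact lt_irrefl _ h1
    · rw [e, ori_self₃] at h2; exact lt_irrefl _ h2
  have hb : 0 < ori x y w := ht.1
  have c1 := cramer u x y y' w
  have c2 := cramer (vec o) x y y' w
  rw [hx1, hy1, hw1] at c1
  rw [← bil_le_iff] at hy hy'
  rw [← bil_lt_iff]
  have hc : 1 ≤ bil (vec o) (vec x) := one_le_bil o x
  set c := bil (vec o) (vec x)
  have p1 := mul_nonneg h2.le (sub_nonneg.2 hy)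
  have p2 : 0 < c * bil u (vec y') - bil (vec o) (vec y') := by nlinarith
  have p3 := mul_pos hb p2
  have p4 : ori x y y' * (c - bil (vec o) (vec w)) =
      ori x w y' * (c - bil (vec o) (vec y)) +
        ori x y w * (c * bil u (vec y') - bil (vec o) (vec y')) := by
    linear_combination c * c1 - c2
  have p5 : 0 < ori x y y' * (c - bil (vec o) (vec w)) := by rw [p4]; linarith
  have := (mul_pos_iff_of_pos_left h1).1 p5
  linarith

theorem _root_.Pool.Agent.MC.VB.Net2.lower_ori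
    (h : VB.Net2 N η δ) (he : Edge N x y) (he' : Edge N x y') (hne : y ≠ y')
    (hy : dist o y ≤ dist o x) (hy' : dist o y' ≤ dist o x) : ori x y y' ≠ 0 := by
  intro h0
  obtain ⟨w, ht⟩ := h.exists_tri he
  have hD : 0 < ori x y w := ht.1
  obtain ⟨u, hu, hx1, hy1⟩ := he.supp
  obtain ⟨u', hu', hx2, hy2⟩ := he'.supp
  have hyN : y ∈ N := he.mem.2
  have hy'N : y' ∈ N := he'.mem.2
  have c1 := cramer u x y w y'
  have c2 := cramer u' x y w y'
  have c3 := cramer (vec o) x y w y'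
  have c4 := cramer (vec x) x y w y'
  rw [h0, hx1, hy1] at c1
  rw [h0, hx2, hy2] at c2
  rw [h0] at c3
  rw [h0, bil_self] at c4
  rw [← bil_le_iff] at hy hy'
  have hc : 1 ≤ bil (vec o) (vec x) := one_le_bil o x
  set c := bil (vec o) (vec x)
  have g1 : 1 < bil (vec x) (vec y) := one_lt_bil he.1
  have g2 : 1 < bil (vec x) (vec y') := one_lt_bil he'.1
  have m1 : 0 < c * bil (vec x) (vec y) - bil (vec o) (vec y) := by nlinarith
  have m2 : 0 < c * bil (vec x) (vec y') - bil (vec o) (vec y') := by nlinarith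
  have p1 : ori x y w * (c * bil (vec x) (vec y') - bil (vec o) (vec y')) =
      ori x y' w * (c * bil (vec x) (vec y) - bil (vec o) (vec y)) := by
    linear_combination c * c4 - c3
  have ha : 0 < ori x y' w := by
    have := mul_pos hD m2
    rw [p1] at this
    exact (mul_pos_iff_of_pos_right m1).1 this
  have p2 := mul_nonneg ha.le (sub_nonneg.2 (hu' y hyN))
  have p3 : ori x y w * (bil u (vec y') - 1) ≤ 0 := by nlinarith
  have p4 : bil u (vec y') ≤ 1 := by
    by_contra hlt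
    rw [not_le] at hlt
    have := mul_pos hD (sub_pos.2 hlt)
    linarith
  exact ori_ne hx1 hy1 (le_antisymm p4 (hu y' hy'N)) he.1 he'.1 hne h0

theorem _root_.Pool.Agent.MC.VB.Net2.chain (h : VB.Net2 N η δ) (Q : ℍ → Prop)
    (hQ : ∀ a b, Q a → Tri N x a b → 0 < ori x a y' → 0 < ori x b y' → Q b)
    (he : Edge N x y) (he' : Edge N x y') (hy : Q y) (hy' : Q y') (ho : 0 < ori x y y') :
    Relation.ReflTransGen (fun a b => Q a ∧ Q b ∧ Tri N x a b) y y' := by
  have hfin : ∀ y : ℍ, {q | Edge N x q ∧ 0 < ori x y q ∧ 0 < ori x q y'}.Finite := fun y =>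
    (h.finite_ball x (4 * δ)).subset fun q hq => ⟨hq.1.mem.2, h.edge_dist hq.1⟩
  induction hn : {q | Edge N x q ∧ 0 < ori x y q ∧ 0 < ori x q y'}.ncard
    using Nat.strong_induction_on generalizing y with
  | _ n ih =>
    obtain ⟨w, ht⟩ := h.exists_tri he
    have hne : y ≠ y' := by
      rintro rfl
      rw [ori_self₃] at ho
      exact lt_irrefl _ ho
    rcases h.step ht he' hne ho.le with e | hw
    · subst e
      exact Relation.ReflTransGen.single ⟨hy, hy', ht⟩
    · have hQw : Q w := hQ y w hy ht ho hw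
      refine Relation.ReflTransGen.head ⟨hy, hQw, ht⟩ ?_
      refine ih _ ?_ ht.edge' hQw hw rfl
      rw [← hn]
      refine Set.ncard_lt_ncard ⟨?_, ?_⟩ (hfin y)
      · rintro q ⟨hq, hq1, hq2⟩
        refine ⟨hq, ?_, hq2⟩
        have p := geDel2_plue x y w y' q
        have p1 := mul_pos ht.1 hq2
        have p2 := mul_pos ho hq1
        have p3 : 0 < ori x w y' * ori x y q := by rw [p]; linarith
        exact (mul_pos_iff_of_pos_left hw).1 p3
      · intro hsub
        have hm : w ∈ {q | Edge N x q ∧ 0 < ori x y q ∧ 0 < ori x q y'} := ⟨ht.edge', ht.1, hw⟩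
        have := (hsub hm).2.1
        rw [ori_self₃] at this
        exact lt_irrefl _ this

theorem _root_.Pool.Agent.MC.VB.Net2.geDel2_chain
    (h : VB.Net2 N η δ) (he : Edge N x y) (he' : Edge N x y')
    (ho : 0 < ori x y y') : Relation.ReflTransGen (Tri N x) y y' := by
  have hc := h.chain (fun _ => True) (fun _ _ _ _ _ _ => trivial) he he' trivial trivial ho
  clear he he' ho
  induction hc with
  | refl => exact Relation.ReflTransGen.refl
  | tail _ hab ih => exact Relation.ReflTransGen.tail ih hab.2.2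

theorem _root_.Pool.Agent.MC.VB.Net2.link_conn
    (h : VB.Net2 N η δ) (he : Edge N x y) (he' : Edge N x y') :
    Relation.ReflTransGen (Tri N x) y y' ∨ Relation.ReflTransGen (Tri N x) y' y := by
  by_cases hne : y = y'
  · subst hne
    exact Or.inl Relation.ReflTransGen.refl
  rcases lt_trichotomy 0 (ori x y y') with ho | ho | ho
  · exact Or.inl (h.geDel2_chain he he' ho)
  · obtain ⟨w, ht⟩ := h.exists_tri he
    rcases h.step ht he' hne ho.le with e | hw
    · subst e
      exact Or.inl (Relation.ReflTransGen.single ht)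
    · exact Or.inl (Relation.ReflTransGen.head ht (h.geDel2_chain ht.edge' he' hw))
  · refine Or.inr (h.geDel2_chain he' he ?_)
    rw [ori_swap']
    linarith

theorem _root_.Pool.Agent.MC.VB.Net2.greedy
    (h : VB.Net2 N η δ) (hx : x ∈ N) (ho : o ∈ N) (hne : x ≠ o) :
    ∃ y, Edge N x y ∧ dist o y < dist o x := by
  have hc : 1 < bil (vec o) (vec x) := one_lt_bil hne.symm
  set c := bil (vec o) (vec x) with hcd
  have hc0 : 0 < c := by linarith
  have hT : {p | p ∈ N ∧ dist o p < dist o x}.Finite :=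
    (h.finite_ball o (dist o x)).subset fun p hp => ⟨hp.1, hp.2.le⟩
  have hoT : o ∈ {p | p ∈ N ∧ dist o p < dist o x} :=
    ⟨ho, by rw [dist_self]; exact dist_pos.2 hne.symm⟩
  have hAB : ∀ p ∈ {p | p ∈ N ∧ dist o p < dist o x},
      1 < bil (vec x) (vec p) ∧ bil (vec o) (vec p) / c < 1 := by
    intro p hp
    refine ⟨one_lt_bil ?_, ?_⟩
    · rintro rfl
      exact lt_irrefl _ hp.2
    · rw [div_lt_one hc0, hcd, bil_lt_iff]
      exact hp.2
  obtain ⟨y, hyT, hmin⟩ := Set.exists_min_image _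
    (fun p => (bil (vec x) (vec p) - 1) / (bil (vec x) (vec p) - bil (vec o) (vec p) / c))
    hT ⟨o, hoT⟩
  obtain ⟨hA, hB⟩ := hAB y hyT
  set s := (bil (vec x) (vec y) - 1) / (bil (vec x) (vec y) - bil (vec o) (vec y) / c) with hs
  have hden : 0 < bil (vec x) (vec y) - bil (vec o) (vec y) / c := by linarith
  have hs0 : 0 < s := div_pos (by linarith) hden
  have hs1 : s < 1 := by rw [hs, div_lt_one hden]; linarith
  have hval : ∀ p : ℍ, bil ((1 - s) • vec x + (s / c) • vec o) (vec p) =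
      bil (vec x) (vec p) - s * (bil (vec x) (vec p) - bil (vec o) (vec p) / c) := by
    intro p
    rw [bil_add, bil_smul, bil_smul]
    ring
  have hsupp : Supp N ((1 - s) • vec x + (s / c) • vec o) := by
    intro p hp
    rw [hval]
    by_cases hlt : dist o p < dist o x
    · obtain ⟨hA', hB'⟩ := hAB p ⟨hp, hlt⟩
      have hden' : 0 < bil (vec x) (vec p) - bil (vec o) (vec p) / c := by linarith
      have := hmin p ⟨hp, hlt⟩
      rw [le_div_iff₀ hden'] at this
      linarith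
    · rw [not_lt, ← bil_le_iff, ← hcd] at hlt
      have hB' : 1 ≤ bil (vec o) (vec p) / c := (one_le_div hc0).2 hlt
      have hA' := one_le_bil x p
      nlinarith
  refine ⟨y, h.edge_of_supp hsupp hx hyT.1 ?_ ?_ ?_, hyT.2⟩
  · rw [hval, bil_self, ← hcd, div_self hc0.ne']
    ring
  · rw [hval, hs, div_mul_cancel₀ _ hden.ne']
    ring
  · rintro rfl
    exact lt_irrefl _ hyT.2

end

end Pool.Agent.MC.Ge
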