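import Pool.Agent.P.MP_2677b3_gt.VbDelA

/-! Delaunay complexes of nets whose separation is small compared with the covering radius. -/

open UpperHalfPlane Equiv
open scoped MatrixGroups

noncomputable section

namespace Pool.Agent.MC.Ge

variable {η : ℝ}

section

variable {N : Set ℍ} {δ : ℝ} {P : ℝ → ℕ}

theorem _root_.Pool.Agent.MC.VB.Net2.exists_dmap (h : VB.Net2 N η δ) : Nonempty (DMap N) := by
  choose nxt hn using fun e : {e : ℍ × ℍ // Edge N e.1 e.2} => h.exists_tri e.2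
  let sw : {e : ℍ × ℍ // Edge N e.1 e.2} → {e : ℍ × ℍ // Edge N e.1 e.2} :=
    fun e => ⟨(e.1.2, e.1.1), e.2.symm⟩
  refine ⟨{
    D := {e : ℍ × ℍ // Edge N e.1 e.2}
    α := ⟨sw, sw, fun _ => rfl, fun _ => rfl⟩
    φ := ⟨fun e => ⟨(e.1.1, nxt e), (hn e).edge'⟩,
      fun e => ⟨(e.1.1, nxt (sw e)), (hn (sw e)).cyc.edge⟩,
      fun e => Subtype.ext (Prod.ext rfl (h.tri_unique (hn (sw ⟨_, (hn e).edge'⟩)) (hn e).cyc.cyc)),
      fun e => Subtype.ext (Prod.ext rfl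
        (h.tri_unique (hn ⟨_, (hn (sw e)).cyc.edge⟩) (hn (sw e)).cyc))⟩
    pos := fun e => e.1.1
    αα := fun _ => rfl
    edge := fun e => e.2
    ext := fun a b h1 h2 => Subtype.ext (Prod.ext h1 h2)
    surj := fun x y he => ⟨⟨(x, y), he⟩, rfl, rfl⟩
    pos_φ := fun _ => rfl
    tri_φ := fun e => hn e }⟩

namespace DMap

variable (X : DMap N)

theorem φ_eq2 (h : VB.Net2 N η δ) {a b : X.D} (h1 : X.pos a = X.pos b)
    (h2 : Tri N (X.pos a) (X.pos (X.α a)) (X.pos (X.α b))) : X.φ a = b := by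
  exact X.ext _ _ ((X.pos_φ a).trans h1) (h.tri_unique (X.tri_φ a) h2)

theorem pos_αψψ2 (h : VB.Net2 N η δ) (d : X.D) :
    X.pos (X.α ((X.φ * X.α) ((X.φ * X.α) d))) = X.pos d := by
  have h1 := X.tri_ψ ((X.φ * X.α) d)
  have h2 := (X.tri_ψ d).cyc.cyc
  rw [X.pos_ψ d, X.pos_ψ ((X.φ * X.α) ((X.φ * X.α) d))] at h1
  rw [X.pos_ψ] at h2
  exact h.tri_unique h1 h2

theorem ψψψ2 (h : VB.Net2 N η δ) (d : X.D) : (X.φ * X.α) ((X.φ * X.α) ((X.φ * X.α) d)) = d := by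
  have h0 := X.pos_αψψ2 h d
  rw [Perm.mul_apply]
  refine X.φ_eq2 h h0 ?_
  rw [X.αα, h0]
  exact (X.tri_ψ d).cyc

theorem ctr2 (h : VB.Net2 N η δ) (d : X.D) : ∃ z, dist z (X.pos d) ≤ 2 * δ ∧
    dist z (X.pos ((X.φ * X.α) d)) ≤ 2 * δ ∧
    dist z (X.pos ((X.φ * X.α) ((X.φ * X.α) d))) ≤ 2 * δ := by
  obtain ⟨-, z, h1, h2, h3⟩ := X.tri_ψ d
  exact ⟨z, h.near_dist h2, by rw [X.pos_ψ]; exact h.near_dist h1, h.near_dist h3⟩

theorem count2 (h : VB.Net2 N η δ) (hP : Pk η P) (z : ℍ) (ρ : ℝ) :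
    {d | dist z (X.pos d) ≤ ρ}.Finite ∧
      {d | dist z (X.pos d) ≤ ρ}.ncard ≤ P (ρ + 4 * δ) * P (ρ + 4 * δ) := by
  obtain ⟨hf, hc⟩ := hP z (ρ + 4 * δ) {p | p ∈ N ∧ dist z p ≤ ρ + 4 * δ} (fun p hp => hp.2)
    fun p hp q hq => h.sep p hp.1 q hq.1
  have hm : ∀ d ∈ {d | dist z (X.pos d) ≤ ρ}, (X.pos d, X.pos (X.α d)) ∈
      {p | p ∈ N ∧ dist z p ≤ ρ + 4 * δ} ×ˢ {p | p ∈ N ∧ dist z p ≤ ρ + 4 * δ} := by
    intro d hd
    have h1 : dist z (X.pos d) ≤ ρ := hd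
    have h2 := h.edge_dist (X.edge d)
    have h3 := dist_triangle z (X.pos d) (X.pos (X.α d))
    have h4 := h.pos
    exact ⟨⟨(X.edge d).mem.1, by linarith⟩, (X.edge d).mem.2, by linarith⟩
  have hi : Set.InjOn (fun d => (X.pos d, X.pos (X.α d))) {d | dist z (X.pos d) ≤ ρ} :=
    fun a _ b _ e => X.ext a b (congrArg Prod.fst e) (congrArg Prod.snd e)
  refine ⟨Set.Finite.of_injOn hm hi (hf.prod hf), ?_⟩
  refine (Set.ncard_le_ncard_of_injOn _ hm hi (hf.prod hf)).trans ?_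
  rw [Set.ncard_prod]
  exact Nat.mul_le_mul hc hc

theorem exists_pos2 (h : VB.Net2 N η δ) {x : ℍ} (hx : x ∈ N) : ∃ d, X.pos d = x := by
  obtain ⟨w, hw⟩ := exists_far x (2 * δ)
  obtain ⟨o, ho, hd⟩ := h.dense w
  have hne : x ≠ o := by
    rintro rfl
    rw [dist_comm] at hd
    linarith
  obtain ⟨y, he, -⟩ := h.greedy hx ho hne
  obtain ⟨d, hd, -⟩ := X.surj x y he
  exact ⟨d, hd⟩

theorem period2 (h : VB.Net2 N η δ) (a : X.D) : ∃ n, 0 < n ∧ X.φ^[n] a = a := by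
  obtain ⟨P, hP⟩ := exists_pk h.posη
  obtain ⟨m, n, hmn, e⟩ := (X.count2 h hP (X.pos a) 0).1.exists_lt_map_eq_of_forall_mem
    (f := fun n : ℕ => X.φ^[n] a) fun n => by simp [X.up_pos_iter]
  obtain ⟨k, rfl⟩ := Nat.exists_eq_add_of_lt hmn
  refine ⟨k + 1, Nat.succ_pos _, (X.φ.injective.iterate m) ?_⟩
  rw [← Function.iterate_add_apply, ← add_assoc]
  exact e.symm

theorem face2 (h : VB.Net2 N η δ) (hP : Pk η P) {a b : X.D} (hab : X.pos a = X.pos b) :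
    ∃ n, n ≤ P (4 * δ) ∧ X.φ^[n] a = b := by
  have key : ∀ a : X.D, ∀ y, Relation.ReflTransGen (Tri N (X.pos a)) (X.pos (X.α a)) y →
      ∃ n, X.pos (X.α (X.φ^[n] a)) = y := by
    intro a y hy
    induction hy with
    | refl => exact ⟨0, rfl⟩
    | tail _ ht ih =>
      obtain ⟨n, rfl⟩ := ih
      refine ⟨n + 1, ?_⟩
      rw [Function.iterate_succ_apply']
      have := X.tri_φ (X.φ^[n] a)
      rw [X.up_pos_iter] at this
      exact h.tri_unique this ht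
  obtain ⟨p, hp, hper⟩ := X.period2 h a
  have hex : ∃ n, X.φ^[n] a = b := by
    rcases h.link_conn (X.edge a) (hab ▸ X.edge b) with hc | hc
    · obtain ⟨n, hn⟩ := key a _ hc
      exact ⟨n, X.ext _ _ ((X.up_pos_iter n a).trans hab) hn⟩
    · obtain ⟨n, hn⟩ := key b _ (hab ▸ hc)
      have e : X.φ^[n] b = a := X.ext _ _ ((X.up_pos_iter n b).trans hab.symm) hn
      refine ⟨p * n - n, X.φ.injective.iterate n ?_⟩
      rw [← Function.iterate_add_apply, Nat.add_sub_cancel' (Nat.le_mul_of_pos_left n hp), e]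
      exact Function.IsPeriodicPt.mul_const hper n
  obtain ⟨n, rfl⟩ := hex
  have hpos : 0 < Function.minimalPeriod X.φ a :=
    Function.IsPeriodicPt.minimalPeriod_pos hp hper
  refine ⟨n % Function.minimalPeriod X.φ a, (Nat.mod_lt _ hpos).le.trans ?_,
    Function.iterate_mod_minimalPeriod_eq⟩
  obtain ⟨hf, hc⟩ := hP (X.pos a) (4 * δ) {p | p ∈ N ∧ dist (X.pos a) p ≤ 4 * δ}
    (fun p hp => hp.2) fun p hp q hq => h.sep p hp.1 q hq.1
  refine le_trans ?_ hc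
  rw [← Set.ncard_Iio_nat (Function.minimalPeriod X.φ a)]
  refine Set.ncard_le_ncard_of_injOn (fun m => X.pos (X.α (X.φ^[m] a))) (fun m _ => ?_)
    (fun m hm m' hm' e => ?_) hf
  · have := X.edge (X.φ^[m] a)
    rw [X.up_pos_iter] at this
    exact ⟨this.mem.2, h.edge_dist this⟩
  · exact Function.iterate_injOn_Iio_minimalPeriod hm hm'
      (X.ext _ _ ((X.up_pos_iter m a).trans (X.up_pos_iter m' a).symm) e)

end DMap

end

section

section

variable {N : Set ℍ} {δ : ℝ} {P : ℝ → ℕ} {X : DMap N}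

theorem gewalk_face2 (h : VB.Net2 N η δ) (hP : Pk η P) {a b : X.D} (hab : X.pos a = X.pos b) :
    gewalkW X a b (P (4 * δ)) := by
  obtain ⟨n, h1, rfl⟩ := X.face2 h hP hab
  exact gewalk_mono (gewalk_iter a n) h1

theorem gewalk_rank2 (h : VB.Net2 N η δ) (hP : Pk η P) (b : X.D) (n : ℕ) : ∀ a : X.D,
    {p | p ∈ N ∧ dist (X.pos b) p < dist (X.pos b) (X.pos a)}.ncard ≤ n →
      gewalkW X a b ((n + 1) * P (4 * δ)) := by
  induction n using Nat.strong_induction_on with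
  | _ n ih =>
    intro a ha
    by_cases hab : X.pos a = X.pos b
    · exact gewalk_mono (gewalk_face2 h hP hab) (Nat.le_mul_of_pos_left _ (Nat.succ_pos n))
    obtain ⟨y, hy, hd⟩ := h.greedy (X.edge a).mem.1 (X.edge b).mem.1 hab
    obtain ⟨e, h1, h2⟩ := X.surj _ _ hy
    have h3 : X.pos ((X.φ * X.α) e) = y := (X.pos_ψ e).trans h2
    have hlt : {p | p ∈ N ∧ dist (X.pos b) p < dist (X.pos b) y}.ncard <
        {p | p ∈ N ∧ dist (X.pos b) p < dist (X.pos b) (X.pos a)}.ncard := by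
      refine Set.ncard_lt_ncard ⟨fun p hp => ⟨hp.1, hp.2.trans hd⟩, fun hs => ?_⟩
        ((h.finite_ball (X.pos b) (dist (X.pos b) (X.pos a))).subset fun p hp => ⟨hp.1, hp.2.le⟩)
      exact lt_irrefl _ (hs ⟨hy.mem.2, hd⟩).2
    obtain ⟨m, rfl⟩ : ∃ m, n = m + 1 := ⟨n - 1, by omega⟩
    have h4 := ih m (Nat.lt_succ_self m) ((X.φ * X.α) e) (by rw [h3]; omega)
    refine gewalk_mono
      (gewalk_trans (gewalk_trans (gewalk_face2 h hP h1.symm) (gewalk_psi e)) h4) (le_of_eq ?_)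
    ring

theorem gewalk_near2 (h : VB.Net2 N η δ) (hP : Pk η P) {a b : X.D}
    (hab : dist (X.pos b) (X.pos a) ≤ 1 + 4 * δ) :
    gewalkW X a b ((P (1 + 4 * δ) + 1) * P (4 * δ)) :=
  gewalk_rank2 h hP b _ a (hP (X.pos b) _ _ (fun _ hp => hp.2.le.trans hab)
    fun p hp q hq hne => h.sep p hp.1 q hq.1 hne).2

theorem gewalk_pow2 (h : VB.Net2 N η δ) (hP : Pk η P) (k : ℕ) : ∀ (z w : ℍ) (a b : X.D),
    dist z w ≤ 2 ^ k → dist z (X.pos a) ≤ 2 * δ → dist w (X.pos b) ≤ 2 * δ →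
      gewalkW X a b (2 ^ k * ((P (1 + 4 * δ) + 1) * P (4 * δ))) := by
  induction k with
  | zero =>
    intro z w a b h1 h2 h3
    rw [pow_zero, one_mul]
    refine gewalk_near2 h hP ?_
    have h4 := dist_triangle4 (X.pos b) w z (X.pos a)
    rw [dist_comm (X.pos b) w, dist_comm w z] at h4
    rw [pow_zero] at h1
    linarith
  | succ k ih =>
    intro z w a b h1 h2 h3
    obtain ⟨m, m1, m2⟩ := exists_mid z w
    obtain ⟨p, hp, p1⟩ := h.dense m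
    obtain ⟨c, rfl⟩ := X.exists_pos2 h hp
    rw [pow_succ] at h1
    refine gewalk_mono (gewalk_trans (ih z m a c (by linarith) h2 p1)
      (ih m w c b (by linarith) p1 h3)) (le_of_eq ?_)
    ring

end

theorem walk_bound2 (η δ : ℝ) (P : ℝ → ℕ) : ∃ K : ℝ, ∀ N : Set ℍ, VB.Net2 N η δ → Pk η P →
    ∀ (X : DMap N) (a b : X.D), ∃ p, UPath X.α X.φ a p b ∧
      (p.length : ℝ) ≤ K * dist (X.pos a) (X.pos b) + K := by
  refine ⟨2 * (((P (1 + 4 * δ) + 1) * P (4 * δ) : ℕ) : ℝ), fun N h hP X a b => ?_⟩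
  have hδ := h.pos
  have hd : 0 ≤ dist (X.pos a) (X.pos b) := dist_nonneg
  obtain ⟨k, h1, h2⟩ := exists_nat_pow_near (x := dist (X.pos a) (X.pos b) + 1) (y := (2 : ℝ))
    (by linarith) one_lt_two
  obtain ⟨p, p1, p2⟩ := gewalk_pow2 h hP (k + 1) (X.pos a) (X.pos b) a b (by linarith)
    (by rw [dist_self]; linarith) (by rw [dist_self]; linarith)
  refine ⟨p, p1, ?_⟩
  generalize (P (1 + 4 * δ) + 1) * P (4 * δ) = B at *
  have p3 : (p.length : ℝ) ≤ 2 ^ (k + 1) * (B : ℝ) := by exact_mod_cast p2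
  have hB : (0 : ℝ) ≤ B := Nat.cast_nonneg B
  rw [pow_succ] at p3
  nlinarith [mul_le_mul_of_nonneg_right h1 hB]

end

section

variable {N : Set ℍ} {δ : ℝ}

theorem geMorse_key2 (h : VB.Net2 N η δ) (o : ℍ) :
    ∃ κ : ℍ → ℕ, (∀ x ∈ N, ∀ y, dist o x < dist o y → κ x < κ y) ∧
      ∀ x ∈ N, ∀ y ∈ N, x ≠ y → κ x < κ y ∨ κ y < κ x := by
  let r : ℍ → ℍ → Prop := fun x y =>
    dist o x < dist o y ∨ (dist o x = dist o y ∧ WellOrderingRel x y)
  have hirr : ∀ x, ¬ r x x := fun x hx => by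
    rcases hx with hx | hx
    · exact lt_irrefl _ hx
    · exact irrefl_of WellOrderingRel x hx.2
  have htr : ∀ x y z, r x y → r y z → r x z := by
    rintro x y z (h1 | h1) (h2 | h2)
    · exact Or.inl (h1.trans h2)
    · exact Or.inl (h1.trans_eq h2.1)
    · exact Or.inl (h1.1.trans_lt h2)
    · exact Or.inr ⟨h1.1.trans h2.1, trans_of WellOrderingRel h1.2 h2.2⟩
  have hlt : ∀ x ∈ N, ∀ y, r x y →
      {p | p ∈ N ∧ r p x}.ncard < {p | p ∈ N ∧ r p y}.ncard := by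
    intro x hx y hxy
    refine Set.ncard_lt_ncard ⟨fun p hp => ⟨hp.1, htr _ _ _ hp.2 hxy⟩, fun hs => ?_⟩ ?_
    · exact hirr x (hs ⟨hx, hxy⟩).2
    · refine (h.finite_ball o (dist o y)).subset fun p hp => ⟨hp.1, ?_⟩
      rcases hp.2 with h1 | h1
      · exact h1.le
      · exact h1.1.le
  refine ⟨fun x => {p | p ∈ N ∧ r p x}.ncard, fun x hx y hxy => hlt x hx y (Or.inl hxy),
    fun x hx y hy hne => ?_⟩
  rcases lt_trichotomy (dist o x) (dist o y) with h1 | h1 | h1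
  · exact Or.inl (hlt x hx y (Or.inl h1))
  · rcases trichotomous_of WellOrderingRel x y with h2 | h2 | h2
    · exact Or.inl (hlt x hx y (Or.inr ⟨h1, h2⟩))
    · exact absurd h2 hne
    · exact Or.inr (hlt y hy x (Or.inr ⟨h1.symm, h2⟩))
  · exact Or.inr (hlt y hy x (Or.inl h1))

theorem _root_.Pool.Agent.MC.VB.Net2.potential
    (h : VB.Net2 N η δ) {Γ : Type} [Group Γ] (ω : ℍ → ℍ → Γ)
    (h1 : ∀ x y, Edge N x y → ω y x = (ω x y)⁻¹)
    (h2 : ∀ x y w, Tri N x y w → ω x y * ω y w = ω x w) :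
    ∃ Φ : ℍ → Γ, ∀ x y, Edge N x y → Φ y = Φ x * ω x y := by
  obtain ⟨o, ho, -⟩ := h.dense I
  obtain ⟨κ, hκ, hκ'⟩ := geMorse_key2 h o
  have hgr : ∀ x : ℍ, ∃ y, x ∈ N ∧ x ≠ o → Edge N x y ∧ dist o y < dist o x := fun x => by
    by_cases hx : x ∈ N ∧ x ≠ o
    · obtain ⟨y, hy⟩ := h.greedy hx.1 ho hx.2
      exact ⟨y, fun _ => hy⟩
    · exact ⟨x, fun hx' => absurd hx' hx⟩
  choose par hpar using hgr
  obtain ⟨Φ, hΦ⟩ := geMorse_rec κ (fun x => x ∈ N ∧ x ≠ o) par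
    (fun x hx => hκ _ (hpar x hx).1.mem.2 _ (hpar x hx).2) (fun x a => a * ω (par x) x) (1 : Γ)
  have hboth : ∀ a b, Edge N a b → (κ a < κ b → Φ b = Φ a * ω a b) →
      (κ b < κ a → Φ a = Φ b * ω b a) → Φ b = Φ a * ω a b := by
    intro a b hab h3 h4
    rcases hκ' a hab.mem.1 b hab.mem.2 hab.1 with h5 | h5
    · exact h3 h5
    · rw [h4 h5, h1 a b hab, inv_mul_cancel_right]
  have main : ∀ n x, κ x = n → ∀ y, Edge N x y → κ y < κ x → Φ x = Φ y * ω y x := by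
    intro n
    induction n using Nat.strong_induction_on with
    | _ n IH =>
      rintro x rfl y hxy hlt
      have hx := hxy.mem.1
      have hle : ∀ a, κ a < κ x → dist o a ≤ dist o x := fun a ha =>
        not_lt.1 fun h3 => absurd (hκ x hx a h3) ha.not_gt
      have hxo : x ≠ o := by
        rintro rfl
        have h3 := hle y hlt
        rw [dist_self] at h3
        exact hxy.1 (dist_le_zero.1 h3)
      obtain ⟨h3, h4⟩ := hpar x ⟨hx, hxo⟩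
      have h5 : κ (par x) < κ x := hκ _ h3.mem.2 _ h4
      have hchain : ∀ a b, Edge N x a → κ a < κ x → Edge N x b → κ b < κ x → 0 < ori x a b →
          Φ a * ω a x = Φ b * ω b x := by
        intro a b ha ha' hb hb' hab
        have h6 := h.chain (fun q => Edge N x q ∧ κ q < κ x)
          (fun p q hp ht h7 h8 => ⟨ht.edge', hκ _ ht.edge'.mem.2 _
            (h.lower_between ht hb h7 h8 (hle p hp.2) (hle b hb'))⟩) ha hb ⟨ha, ha'⟩ ⟨hb, hb'⟩ hab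
        clear hb hb' hab
        induction h6 with
        | refl => rfl
        | @tail p q _ h7 ih =>
          obtain ⟨hp, hq, ht⟩ := h7
          have h8 : Edge N p q := ht.cyc.edge
          have h9 := hboth p q h8 (IH _ hq.2 q rfl p h8.symm) (IH _ hp.2 p rfl q h8)
          rw [ih, h9, h1 x p hp.1, h1 x q hq.1, ← h2 x p q ht]
          group
      rw [hΦ x ⟨hx, hxo⟩]
      by_cases h6 : y = par x
      · rw [h6]
      rcases lt_or_gt_of_ne (h.lower_ori hxy h3 h6 (hle y hlt) h4.le) with h7 | h7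
      · refine hchain _ _ h3 h5 hxy hlt ?_
        rw [ori_swap']
        exact neg_pos.2 h7
      · exact (hchain _ _ hxy hlt h3 h5 h7).symm
  exact ⟨Φ, fun x y hxy => hboth x y hxy (main _ y rfl x hxy.symm) (main _ x rfl y hxy)⟩

theorem _root_.Pool.Agent.MC.VB.Net2.const_ball
    (h : VB.Net2 N η δ) {β : Type} (Φ : ℍ → β) {o : ℍ} (ho : o ∈ N) (ρ : ℝ)
    (hΦ : ∀ x y, Edge N x y → dist o x ≤ ρ → Φ x = Φ y) {x : ℍ} (hx : x ∈ N)
    (hd : dist o x ≤ ρ) : Φ x = Φ o := by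
  obtain ⟨κ, hκ, -⟩ := geMorse_key2 h o
  have main : ∀ n x, κ x = n → x ∈ N → dist o x ≤ ρ → Φ x = Φ o := by
    intro n
    induction n using Nat.strong_induction_on with
    | _ n IH =>
      rintro x rfl hx hd
      by_cases hxo : x = o
      · rw [hxo]
      obtain ⟨y, h1, h2⟩ := h.greedy hx ho hxo
      rw [hΦ x y h1 hd]
      exact IH _ (hκ y h1.mem.2 x h2) y rfl h1.mem.2 (h2.le.trans hd)
  exact main _ x rfl hx hd

theorem _root_.Pool.Agent.MC.VB.Net2.const_far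
    (h : VB.Net2 N η δ) {f : ℝ → ℝ} (hf : Ext f) {β : Type} [Nonempty β]
    (Φ : ℍ → β) (o : ℍ) (ρ : ℝ) (hΦ : ∀ x y, Edge N x y → ρ < dist o x → Φ x = Φ y) :
    ∃ k, ∀ x ∈ N, f (ρ + 7 * δ) < dist o x → Φ x = k := by
  obtain ⟨E, hE, h1, h2⟩ := hf o (ρ + 7 * δ)
  choose n hn hn' using h.dense
  have hloc : ∀ z ∈ E, ∀ p ∈ N, dist z p ≤ 3 * δ → Φ p = Φ (n z) := by
    intro z hz p hp hzp
    refine h.const_ball Φ (hn z) (5 * δ) (fun x y hxy hd => hΦ x y hxy ?_) hp ?_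
    · have h3 := h1 z hz
      have h4 := hn' z
      have h5 := dist_triangle4 o x (n z) z
      rw [dist_comm x, dist_comm (n z) z] at h5
      linarith
    · have h4 := hn' z
      have h5 := dist_triangle_left (n z) p z
      linarith
  rcases E.eq_empty_or_nonempty with h0 | ⟨z₀, hz₀⟩
  · refine ⟨Classical.arbitrary β, fun x _ hx => ?_⟩
    have h3 := h2 x hx
    rw [h0] at h3
    exact h3.elim
  refine ⟨Φ (n z₀), fun x hx hd => ?_⟩
  have h3 := h2 x hd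
  have hδ := h.pos
  rw [hloc x h3 x hx (by rw [dist_self]; linarith)]
  refine hE.induction₂' (fun z w => Φ (n z) = Φ (n w)) (fun z hz => ?_)
    (fun _ _ _ _ _ _ h4 h5 => h4.trans h5) h3 hz₀
  filter_upwards [mem_nhdsWithin_of_mem_nhds (Metric.ball_mem_nhds z hδ)] with w hw
  have h4 : Φ (n w) = Φ (n z) := by
    refine hloc z hz _ (hn w) ?_
    have h5 := hn' w
    have h6 := dist_triangle_left z (n w) w
    have h7 : dist w z < δ := hw
    linarith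
  exact ⟨h4.symm, h4⟩

end

section

variable {N : Set ℍ} {δ : ℝ}

theorem dual_pot2 (X : DMap N) (h : VB.Net2 N η δ) {Γ : Type} [Group Γ] (θ : X.D → Γ)
    (h1 : ∀ e, θ (X.α e) = (θ e)⁻¹)
    (h2 : ∀ e, θ e * θ ((X.φ * X.α) e) * θ ((X.φ * X.α) ((X.φ * X.α) e)) = 1) :
    ∃ Φ : ℍ → Γ, ∀ e, Φ (X.pos (X.α e)) = Φ (X.pos e) * θ e := by
  classical
  let ω : ℍ → ℍ → Γ := fun x y =>
    if H : Edge N x y then θ (Classical.choose (X.surj x y H)) else 1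
  have hω : ∀ e x y, X.pos e = x → X.pos (X.α e) = y → ω x y = θ e := by
    rintro e x y rfl rfl
    have H := X.edge e
    have hs := Classical.choose_spec (X.surj _ _ H)
    have : Classical.choose (X.surj _ _ H) = e := X.ext _ _ hs.1 hs.2
    simp only [ω, dif_pos H, this]
  have a1 : ∀ x y, Edge N x y → ω y x = (ω x y)⁻¹ := by
    intro x y H
    obtain ⟨e, e1, e2⟩ := X.surj x y H
    rw [hω e x y e1 e2, hω (X.α e) y x e2 (by rw [X.αα]; exact e1), h1]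
  have a2 : ∀ x y w, Tri N x y w → ω x y * ω y w = ω x w := by
    intro x y w ht
    obtain ⟨d, d1, d2⟩ := X.surj y x ht.edge.symm
    have t := X.tri_ψ d
    rw [d1, d2] at t
    have hw : X.pos ((X.φ * X.α) ((X.φ * X.α) d)) = w := h.tri_unique t ht
    have p1 : ω y x = θ d := hω d y x d1 d2
    have p2 : ω x w = θ ((X.φ * X.α) d) :=
      hω _ x w (by rw [X.pos_ψ, d2]) (by rw [← X.pos_ψ, hw])
    have p3 : ω w y = θ ((X.φ * X.α) ((X.φ * X.α) d)) :=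
      hω _ w y hw (by rw [X.pos_αψψ2 h, d1])
    have q := h2 d
    rw [← p1, ← p2, ← p3, a1 x y ht.edge, a1 y w ht.cyc.edge] at q
    calc ω x y * ω y w = ω x y * ((ω x y)⁻¹ * ω x w * (ω y w)⁻¹) * ω y w := by rw [q, mul_one]
      _ = ω x w := by group
  obtain ⟨Φ, hΦ⟩ := h.potential ω a1 a2
  exact ⟨Φ, fun e => by rw [hΦ _ _ (X.edge e), hω e _ _ rfl rfl]⟩

theorem DMap.pot2 (X : DMap N) (h : VB.Net2 N η δ) (Γ : Type) [Group Γ] (χ : X.D → Γ)
    (h1 : ∀ e, χ (X.α e) = (χ e)⁻¹)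
    (h2 : ∀ e n, X.φ^[n] e = e → ((orbL X.φ e n).map χ).prod = 1) :
    ∃ Ψ : X.D → Γ, (∀ e, Ψ ((X.φ * X.α) e) = Ψ e) ∧ ∀ e, Ψ (X.α e) = Ψ e * χ e := by
  obtain ⟨g, hg⟩ := cyc_pot X.φ χ (X.period2 h) h2
  have hψα : ∀ e, (X.φ * X.α) (X.α e) = X.φ e := fun e => by rw [Perm.mul_apply, X.αα]
  obtain ⟨Φ, hΦ⟩ := dual_pot2 X h (fun e => g e * (g ((X.φ * X.α) e))⁻¹)
    (fun e => by
      simp only [hψα]
      rw [Perm.mul_apply, hg, hg, h1]
      group)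
    (fun e => by
      simp only [X.ψψψ2 h]
      group)
  have b1 : ∀ e, Φ (X.pos ((X.φ * X.α) e)) * g ((X.φ * X.α) e) = Φ (X.pos e) * g e := by
    intro e
    rw [X.pos_ψ, hΦ]
    group
  refine ⟨fun e => Φ (X.pos e) * g e, b1, fun e => ?_⟩
  show Φ (X.pos (X.α e)) * g (X.α e) = Φ (X.pos e) * g e * χ e
  rw [← b1 (X.α e), hψα, X.pos_φ, hg, mul_assoc]

theorem DMap.fill2 (X : DMap N) (h : VB.Net2 N η δ) {f : ℝ → ℝ} (hf : Ext f) (o : ℍ) (ρ : ℝ)
    (ω : X.D → ZMod 2) (h1 : ∀ e, ω (X.α e) = ω e)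
    (h2 : ∀ e, ω e + ω ((X.φ * X.α) e) + ω ((X.φ * X.α) ((X.φ * X.α) e)) = 0)
    (h3 : ∀ e, ρ < dist o (X.pos e) → ω e = 0) :
    ∃ Φ : X.D → ZMod 2, (∀ e, Φ (X.φ e) = Φ e) ∧ (∀ e, Φ e + Φ (X.α e) = ω e) ∧
      ∀ e, f (ρ + 7 * δ) < dist o (X.pos e) → Φ e = 0 := by
  have z1 : ∀ a : ZMod 2, a = -a := by decide
  have z2 : ∀ a w k : ZMod 2, a - k + (a + w - k) = w := by decide
  obtain ⟨Φ, hΦ⟩ := dual_pot2 X h (fun e => Multiplicative.ofAdd (ω e))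
    (fun e => by
      rw [h1, ← ofAdd_neg]
      exact congrArg _ (z1 _))
    (fun e => by
      rw [← ofAdd_add, ← ofAdd_add, h2, ofAdd_zero])
  obtain ⟨k, hk⟩ := h.const_far hf Φ o ρ (fun x y H hx => by
    obtain ⟨e, e1, e2⟩ := X.surj x y H
    have := hΦ e
    rw [h3 e (by rw [e1]; exact hx), e1, e2, ofAdd_zero, mul_one] at this
    exact this.symm)
  refine ⟨fun e => Multiplicative.toAdd (Φ (X.pos e)) - Multiplicative.toAdd k, fun e => ?_,
    fun e => ?_, fun e he => ?_⟩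
  · simp only [X.pos_φ]
  · simp only [hΦ, toAdd_mul, toAdd_ofAdd]
    exact z2 _ _ _
  · simp only [hk _ (X.edge e).mem.1 he, sub_self]

end

theorem _root_.Pool.Agent.MC.VB.umap2 (η δ : ℝ) : ∃ (K : ℝ) (C : ℝ → ℕ) (f : ℝ → ℝ),
    ∀ (G : Subgroup (Perm ℍ)) (ε : ℝ),
    Fuchs G ε → ∀ N : Set ℍ, VB.Net2 N η δ → (∀ g ∈ G, ∀ x ∈ N, g x ∈ N) →
      ∃ U : UMap G (2 * δ) K C f, (∀ d, U.pos d ∈ N) ∧ ∀ d y, Edge N (U.pos d) y →
        ∃ n, U.pos (U.α (U.φ^[n] d)) = y := by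
  by_cases hη : 0 < η
  swap
  · exact ⟨0, fun _ => 0, fun _ => 0, fun _ _ _ _ h => absurd h.posη hη⟩
  obtain ⟨P, hP⟩ := exists_pk hη
  obtain ⟨f0, hf⟩ := exists_ext
  obtain ⟨K, hK⟩ := walk_bound2 η δ P
  refine ⟨K, fun ρ => P (ρ + 4 * δ) * P (ρ + 4 * δ), fun ρ => f0 (ρ + 7 * δ),
    fun G ε hG N h hN => ?_⟩
  obtain ⟨X⟩ := h.exists_dmap
  obtain ⟨m, hm⟩ := um_act hG hN X
  let act : MulAction G X.D :=
    { smul := m
      one_smul := fun d => X.ext (m 1 d) d (by simp [(hm 1 d).1]) (by simp [(hm 1 d).2])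
      mul_smul := fun g g' d => X.ext (m (g * g') d) (m g (m g' d))
        (by simp [(hm _ _).1]) (by simp [(hm _ _).2]) }
  refine ⟨{
    D := X.D
    act := act
    α := X.α
    φ := X.φ
    pos := X.pos
    αα := X.αα
    α_smul := fun g d => X.ext (X.α (m g d)) (m g (X.α d)) ?_ ?_
    φ_smul := fun g d => X.φ_eq2 h (a := m g d) (b := m g (X.φ d)) ?_ ?_
    pos_smul := fun g d => (hm g d).1
    pos_φ := X.pos_φ
    pos_ne := fun d => (X.edge d).1.symm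
    tri := X.ψψψ2 h
    ctr := X.ctr2 h
    count := X.count2 h hP
    dense := fun z => ?_
    walk := hK N h hP X
    pot := fun Γ _ χ h1 h2 => X.pot2 h Γ χ h1 h2
    fill := fun o ρ ω h1 h2 h3 => X.fill2 h hf o ρ ω h1 h2 h3 }, fun d => (X.edge d).mem.1,
    fun d y hy => ?_⟩
  · rw [(hm _ _).2, (hm _ _).1]
  · rw [X.αα, (hm _ _).2, (hm _ _).1, X.αα]
  · rw [(hm _ _).1, (hm _ _).1, X.pos_φ]
  · rw [(hm _ _).1, (hm _ _).2, (hm _ _).2]
    exact um_tri hG hN g (X.tri_φ d)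
  · obtain ⟨x, hx, hd⟩ := h.dense z
    obtain ⟨d, rfl⟩ := X.exists_pos2 h hx
    exact ⟨d, hd⟩
  · obtain ⟨e, e1, e2⟩ := X.surj _ _ hy
    obtain ⟨n, -, hn⟩ := X.face2 h hP (a := d) (b := e) e1.symm
    exact ⟨n, (congrArg (fun x => X.pos (X.α x)) hn).trans e2⟩

end Pool.Agent.MC.Ge
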