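import Pool.Agent.P.MP_2677b3_gt.VbCol

/-! Descent to the tiling of genus two: words in the moves and their values. -/

open Equiv Function

namespace Pool.Agent.MC.VB

open LL

section

variable {Ω : Type} {a s : Perm Ω}

/-- The three moves: cross, turn, turn back. -/
def dMv (a s : Perm Ω) : Option Bool → Perm Ω
  | none => a
  | some true => s
  | some false => s⁻¹

/-- Transport backwards along a word of moves. -/
def dP (a s : Perm Ω) (l : List (Option Bool)) : Perm Ω := (l.map fun o => (dMv a s o)⁻¹).prod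

/-- The relations of the triangle group. -/
structure DRel (a s : Perm Ω) : Prop where
  aa : a * a = 1
  s7 : s ^ 7 = 1
  t3 : (s * a) ^ 3 = 1

/-- The reversed word. -/
def dR (l : List (Option Bool)) : List (Option Bool) := (l.map (Option.map not)).reverse

theorem dP_nil : dP a s [] = 1 := rfl

theorem dP_cons (o : Option Bool) (l : List (Option Bool)) :
    dP a s (o :: l) = (dMv a s o)⁻¹ * dP a s l := by simp [dP]

theorem dP_append (l l' : List (Option Bool)) : dP a s (l ++ l') = dP a s l * dP a s l' := by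
  simp [dP]

theorem DRel.inv (h : DRel a s) : a⁻¹ = a := inv_eq_of_mul_eq_one_right h.aa

theorem DRel.mv_not (h : DRel a s) (o : Option Bool) :
    dMv a s (o.map not) = (dMv a s o)⁻¹ := by
  rcases o with _ | _ | _
  · exact h.inv.symm
  · exact (inv_inv s).symm
  · rfl

theorem DRel.dP_R (h : DRel a s) (l : List (Option Bool)) : dP a s (dR l) = (dP a s l)⁻¹ := by
  induction l with
  | nil => rfl
  | cons o l ih =>
    have e : dR (o :: l) = dR l ++ [o.map not] := by simp [dR]
    rw [e, dP_append, ih, dP_cons, dP_cons, dP_nil, h.mv_not, mul_inv_rev, mul_one]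

theorem DRel.sev (h : DRel a s) : s⁻¹ * (s⁻¹ * (s⁻¹ * (s⁻¹ * (s⁻¹ * (s⁻¹ * s⁻¹))))) = 1 := by
  rw [← inv_eq_one]
  simpa [pow_succ, mul_assoc] using h.s7

theorem DRel.tri (h : DRel a s) : a⁻¹ * (s⁻¹ * (a⁻¹ * (s⁻¹ * (a⁻¹ * s⁻¹)))) = 1 := by
  rw [← inv_eq_one]
  simpa [pow_succ, mul_assoc] using h.t3

theorem DRel.lift (h : DRel a s) (Z : T7) (p : List (Z.D × Option Bool)) (hp : Z.gd.ev p = 1) :
    dP a s (p.map fun e => e.2) = 1 := by
  obtain ⟨F, hF⟩ := pres_lift (src := Z.src) (h := Z.inv_inv)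
    (R := {w | ∃ d, w = Z.hep d ∨ w = Z.tri d}) (fun e => (dMv a s e.2)⁻¹)
    (fun ⟨d, o⟩ => by
      have : (Z.inv (d, o)).2 = o.map not := by rcases o with _ | _ | _ <;> rfl
      rw [this, h.mv_not])
    (by
      rintro r ⟨d, rfl | rfl⟩
      · simpa [T7.hep, List.range_succ, dMv] using h.sev
      · simpa [T7.tri, List.range_succ, dMv] using h.tri)
  have := hF p
  rw [show (pres Z.src Z.inv Z.inv_inv _).ev p = 1 from hp, map_one] at this
  rw [dP, List.map_map]
  exact this.symm

/-- The word of the walk from dart `0` to dart `u`. -/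
def dW (T : Tab) (u : ℕ) : List (Option Bool) :=
  (pl T.a u).map fun p => bif p.2 then none else some true

/-- The word of the loop through a generating edge. -/
def dG (T : Tab) (i : Fin 4) : List (Option Bool) :=
  dW T (T.gen i) ++ none :: dR (dW T (T.a (T.gen i)))

/-- The word of a letter. -/
def dL (T : Tab) (l : Fin 4 × Bool) : List (Option Bool) :=
  bif l.2 then dG T l.1 else dR (dG T l.1)

theorem DRel.dP_W (h : DRel a s) (T : Tab) (u : ℕ) :
    dP a s (dW T u) = pv T.a (fun _ => a) (fun _ => s⁻¹) u := by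
  rw [dP, dW, pv, List.map_map]
  congr 2
  funext ⟨x, b⟩
  cases b
  · rfl
  · exact h.inv

theorem DRel.dP_G (h : DRel a s) (T : Tab) (i : Fin 4) :
    dP a s (dG T i) = dP a s (dW T (T.gen i)) * a * (dP a s (dW T (T.a (T.gen i))))⁻¹ := by
  rw [dG, dP_append, dP_cons, h.dP_R, mul_assoc]
  exact congrArg (fun x => _ * (x * _)) h.inv

theorem DRel.dP_L (h : DRel a s) (T : Tab) (l : Fin 4 × Bool) :
    dP a s (dL T l) = bif l.2 then dP a s (dG T l.1) else (dP a s (dG T l.1))⁻¹ := by
  rcases l with ⟨i, _ | _⟩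
  · exact h.dP_R _
  · rfl

theorem DRel.col (h : DRel a s) (X : X84) :
    (∀ u < 84, dP a s (dW X.toTab u) * s⁻¹ = dP a s (dW X.toTab (sx u))) ∧
    (∀ u < 84, dP a s (dW X.toTab u) * a * (dP a s (dW X.toTab (X.a u)))⁻¹ =
      evw (fun i => dP a s (dG X.toTab i)) (X.c u)) ∧
    evw (fun i => dP a s (dG X.toTab i)) relw = 1 := by
  have t := h.tri
  rw [h.inv] at t
  obtain ⟨c1, c2⟩ := X.ok.collapse (fun _ => a) (fun _ => s⁻¹) (fun _ _ _ => h.inv.symm)
    (fun _ _ => by simpa [List.range_succ] using h.sev) (fun _ _ _ => by simpa [mul_assoc] using t)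
  simp only [← h.dP_W, ← h.dP_G, X.n84] at c1 c2
  have c3 := fun u hu => c2 u hu (X.all u hu).1.1
  refine ⟨c1, c3, ?_⟩
  have al : ∀ x < 84, X.a x < 84 := fun x hx => X.n84 ▸ (X.ok.a_lt x (X.n84 ▸ hx)).1
  have tl : ∀ x < 84, X.toTab.t x < 84 := fun x hx =>
    X.n84 ▸ (X.ok.sx_lt (X.n84 ▸ al x hx : X.a x < X.N)).1
  have tv : ∀ x < 84, dP a s (dW X.toTab (X.toTab.t x)) = dP a s (dW X.toTab (X.a x)) * s⁻¹ :=
    fun x hx => (c1 _ (al x hx)).symm
  have h1 := tl _ X.u_lt
  have h2 := tl _ h1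
  have h3 := tv _ h2
  rw [(X.all _ X.u_lt).1.2.2.2] at h3
  rw [← X.last, evw_red, col_evw_append, col_evw_append, ← c3 _ X.u_lt, ← c3 _ h1, ← c3 _ h2,
    tv _ X.u_lt, tv _ h1, h3]
  have t' : ∀ Q : Perm Ω, s⁻¹ * (a * (s⁻¹ * (a * (s⁻¹ * (a * Q))))) = Q := fun Q => by
    simpa [mul_assoc] using congrArg (· * Q) (mul_eq_one_comm.1 t)
  simp only [mul_assoc, inv_mul_cancel_left, t', mul_inv_cancel]

end

/-- Skew product of a permutation with a cocycle. -/
def dSk {Ω H : Type} [Group H] (a : Perm Ω) (c : Ω → H) : Perm (Ω × H) where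
  toFun := fun p => (a p.1, p.2 * c p.1)
  invFun := fun p => (a⁻¹ p.1, p.2 * (c (a⁻¹ p.1))⁻¹)
  left_inv := fun p => by simp
  right_inv := fun p => by simp

theorem dSk_apply {Ω H : Type} [Group H] (a : Perm Ω) (c : Ω → H) (x : Ω) (h : H) :
    dSk a c (x, h) = (a x, h * c x) := rfl

theorem dP_fst {Ω H : Type} [Group H] (a s : Perm Ω) (c c' : Ω → H) (l : List (Option Bool))
    (p : Ω × H) : (dP (dSk a c) (dSk s c') l p).1 = dP a s l p.1 := by
  induction l with
  | nil => rfl
  | cons o l ih =>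
    rw [dP_cons, dP_cons, Perm.mul_apply, Perm.mul_apply, ← ih]
    rcases o with _ | _ | _ <;> rfl

theorem d_track {V E Ω H : Type} [Group H] {src tgt : E → V} (N : E → Perm (Ω × H)) (π : V → Ω)
    (w : E → H) (hs : ∀ e h, N e (π (tgt e), h * w e) = (π (src e), h))
    {x y : V} {p : List E} (hp : IsPath src tgt x p y) (h : H) :
    (p.map N).prod (π y, h * (p.map w).prod) = (π x, h) := by
  induction p generalizing x h with
  | nil => obtain rfl : x = y := hp; simp
  | cons e p ih =>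
    obtain ⟨rfl, h2⟩ := hp
    rw [List.map_cons, List.map_cons, List.prod_cons, List.prod_cons, Perm.mul_apply, ← mul_assoc,
      ih h2, hs]

theorem d_prod_flatMap {α β H : Type} [Group H] (l : List α) (f : α → List β) (w : β → H) :
    ((l.flatMap f).map w).prod = (l.map fun a => ((f a).map w).prod).prod := by
  induction l with
  | nil => rfl
  | cons a l ih => simp [ih]

end Pool.Agent.MC.VB
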