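import Pool.Agent.P.MP_2677b3_gt.VbDescA

/-! Descent to the tiling of genus two: the monodromy and the two skew products. -/

open Equiv Function

namespace Pool.Agent.MC.VB

open LL

/-- The value of a word in the surface group. -/
def dV (w : List (Fin 4 × Bool)) : Pi2 := evw (fun i => PresentedGroup.of i) w

theorem d_relw {Γ : Type} [Group Γ] (γ : Fin 4 → Γ) : evw γ relw = FreeGroup.lift γ rel2 := by
  simp [evw, relw, rel2, mul_assoc]

theorem dV_relw : dV relw = 1 := by
  have h : (PresentedGroup.mk ({rel2} : Set (FreeGroup (Fin 4)))) rel2 = 1 :=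
    PresentedGroup.one_of_mem rfl
  have e : FreeGroup.lift (fun i => (PresentedGroup.of i : Pi2)) = PresentedGroup.mk _ :=
    FreeGroup.ext_hom _ _ fun i => FreeGroup.lift_apply_of
  rw [dV, d_relw, e, h]

theorem d_hom {Γ : Type} [Group Γ] (γ : Fin 4 → Γ) (h : evw γ relw = 1)
    (w : List (Fin 4 × Bool)) (hw : dV w = 1) : evw γ w = 1 := by
  have h' : ∀ r ∈ ({rel2} : Set (FreeGroup (Fin 4))), FreeGroup.lift γ r = 1 := by
    rintro r rfl
    exact (d_relw γ).symm.trans h
  have key : ∀ w, PresentedGroup.toGroup h' (dV w) = evw γ w := by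
    intro w
    induction w with
    | nil => exact map_one _
    | cons l w ih =>
      rw [dV, col_evw_cons, col_evw_cons, map_mul, ← ih]
      rcases l with ⟨i, _ | _⟩ <;> simp [dV]
  rw [← key, hw, map_one]

theorem DRel.skew {Ω H : Type} [Group H] {a s : Perm Ω} (h : DRel a s) (c c' : Ω → H)
    (h1 : ∀ d, c d * c (a d) = 1)
    (h7 : ∀ d, c' d * (c' (s d) * (c' (s (s d)) * (c' (s (s (s d))) * (c' (s (s (s (s d)))) *
      (c' (s (s (s (s (s d))))) * c' (s (s (s (s (s (s d))))))))))) = 1)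
    (h3 : ∀ d, c d * (c' (a d) * (c (s (a d)) * (c' (a (s (a d))) * (c (s (a (s (a d)))) *
      c' (a (s (a (s (a d))))))))) = 1) : DRel (dSk a c) (dSk s c') := by
  refine ⟨Equiv.ext fun ⟨d, x⟩ => ?_, Equiv.ext fun ⟨d, x⟩ => ?_, Equiv.ext fun ⟨d, x⟩ => ?_⟩
  · have := congrArg (fun σ : Perm Ω => σ d) h.aa
    simp only [Perm.mul_apply, Perm.one_apply] at this
    simp only [Perm.mul_apply, dSk_apply, mul_assoc, h1, this, mul_one, Perm.one_apply]
  · have := congrArg (fun σ : Perm Ω => σ d) h.s7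
    simp only [pow_succ, pow_zero, one_mul, Perm.mul_apply, Perm.one_apply] at this
    simp only [pow_succ, pow_zero, one_mul, Perm.mul_apply, dSk_apply, mul_assoc, h7, this,
      mul_one, Perm.one_apply]
  · have := congrArg (fun σ : Perm Ω => σ d) h.t3
    simp only [pow_succ, pow_zero, one_mul, Perm.mul_apply, Perm.one_apply] at this
    simp only [pow_succ, pow_zero, one_mul, Perm.mul_apply, dSk_apply, mul_assoc, h3, this,
      mul_one, Perm.one_apply]

/-- The rotation of the twelve heptagons. -/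
def dS : Perm (Fin 84) where
  toFun := fun u => ⟨sx u, by have := u.2; unfold sx; omega⟩
  invFun := fun u => ⟨u - u % 7 + (u + 6) % 7, by have := u.2; omega⟩
  left_inv := fun u => Fin.ext (by simp only [sx]; omega)
  right_inv := fun u => Fin.ext (by simp only [sx]; omega)

namespace X84

variable (X : X84)

theorem d_lt {x : ℕ} (hx : x < 84) : X.a x < 84 ∧ X.a (X.a x) = x :=
  X.n84 ▸ X.ok.a_lt x (X.n84 ▸ hx)

/-- The gluing of the twelve heptagons. -/
def dA : Perm (Fin 84) :=
  Involutive.toPerm (fun u => ⟨X.a u, (X.d_lt u.2).1⟩) fun u => Fin.ext (X.d_lt u.2).2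

theorem d_rel : DRel X.dA dS :=
  ⟨Equiv.ext fun u => Fin.ext (X.d_lt u.2).2, by decide +kernel,
    Equiv.ext fun u => Fin.ext (X.all u u.2).1.2.2.2⟩

/-- The word read along a move. -/
def dc (o : Option Bool) (u : Fin 84) : List (Fin 4 × Bool) := if o = none then X.c u else []

theorem d_edge {Ω : Type} {a s : Perm Ω} (h : DRel a s) (o : Option Bool) (u : Fin 84) :
    dP a s (dW X.toTab u) * (dMv a s o)⁻¹ * (dP a s (dW X.toTab (dMv X.dA dS o u)))⁻¹ =
      evw (fun i => dP a s (dG X.toTab i)) (X.dc o u) := by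
  obtain ⟨c1, c2, -⟩ := h.col X
  rcases o with _ | _ | _
  · rw [show (dMv a s none)⁻¹ = a from h.inv]
    exact c2 u u.2
  · have e := c1 _ (dS⁻¹ u).2
    rw [show sx (dS⁻¹ u : Fin 84) = u from congrArg Fin.val (dS.apply_symm_apply u)] at e
    rw [← e]
    simp [dMv, dc, evw]
  · exact mul_inv_eq_one.2 (c1 u u.2)

/-- Crossing with values in the surface group. -/
def dA' : Perm (Fin 84 × Pi2) := dSk X.dA fun u => dV (X.c u)

/-- Turning with values in the surface group. -/
def dS' : Perm (Fin 84 × Pi2) := dSk dS fun _ => 1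

theorem d_tri {x : ℕ} (hx : x < 84) :
    dV (X.c x) * dV (X.c (X.toTab.t x)) * dV (X.c (X.toTab.t (X.toTab.t x))) = 1 := by
  have e : ∀ y, dV (red (X.c y ++ X.c (X.toTab.t y) ++ X.c (X.toTab.t (X.toTab.t y)))) =
      dV (X.c y) * dV (X.c (X.toTab.t y)) * dV (X.c (X.toTab.t (X.toTab.t y))) := fun y => by
    rw [dV, evw_red, col_evw_append, col_evw_append]; rfl
  have h0 := e X.u
  rw [X.last, dV_relw] at h0
  have h3 := (X.all _ X.u_lt).1.2.2.2
  rcases X.face x hx with h | rfl | rfl | rfl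
  · rw [← e, h]; rfl
  · exact h0.symm
  · rw [h3, mul_eq_one_comm, ← mul_assoc]; exact h0.symm
  · rw [h3, mul_assoc, mul_eq_one_comm]; exact h0.symm

theorem d_rel' : DRel X.dA' dS' := by
  refine X.d_rel.skew _ _ (fun u => ?_) (fun _ => by simp) fun u => ?_
  · have := evw_red (fun i => (PresentedGroup.of i : Pi2)) (X.c u ++ X.c (X.a u))
    rw [(X.all u u.2).2, col_evw_append] at this
    exact this.symm
  · have := X.d_tri u.2
    simp only [mul_one, one_mul, mul_assoc] at this ⊢
    exact this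

theorem d_step' (o : Option Bool) (u : Fin 84) (h : Pi2) :
    (dMv X.dA' dS' o)⁻¹ (dMv X.dA dS o u, h * dV (X.dc o u)) = (u, h) := by
  rw [Perm.inv_eq_iff_eq]
  rcases o with _ | _ | _
  · rfl
  · exact Prod.ext rfl (congrArg (h * ·) inv_one.symm)
  · rfl

theorem d_tree (n : ℕ) (hn : n < 84) (h : Pi2) :
    dP X.dA' dS' (dW X.toTab n) (⟨n, hn⟩, h) = (0, h) := by
  induction n using Nat.strong_induction_on with
  | _ n ih =>
    rcases Nat.eq_zero_or_pos n with rfl | hp
    · rw [dW, col_pl_zero]; rfl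
    by_cases h0 : n % 7 = 0
    · have h1 := X.ok.ent n (X.n84 ▸ hn) h0 hp
      have e := X.d_step' none ⟨X.a n, by omega⟩ h
      rw [show X.dc none ⟨X.a n, by omega⟩ = [] from (X.tree n hn h0 hp).1,
        show dMv X.dA dS none ⟨X.a n, by omega⟩ = ⟨n, hn⟩ from Fin.ext (X.d_lt hn).2,
        show h * dV [] = h from mul_one h] at e
      rw [dW, col_pl_ent _ h0 hp h1, List.map_append, dP_append, Perm.mul_apply,
        List.map_singleton, dP_cons, dP_nil, mul_one]
      exact (congrArg _ e).trans (ih _ h1 _)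
    · obtain ⟨y, rfl⟩ : ∃ y, n = y + 1 := ⟨n - 1, by omega⟩
      have e := X.d_step' (some true) ⟨y, by omega⟩ h
      rw [show dMv X.dA dS (some true) ⟨y, by omega⟩ = ⟨y + 1, hn⟩ from Fin.ext (col_sx_succ h0),
        show h * dV (X.dc (some true) ⟨y, by omega⟩) = h from mul_one h] at e
      rw [dW, col_pl_succ _ h0, List.map_append, dP_append, Perm.mul_apply,
        List.map_singleton, dP_cons, dP_nil, mul_one]
      exact (congrArg _ e).trans (ih _ (by omega) _)

theorem d_gen (l : Fin 4 × Bool) (h : Pi2) :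
    dP X.dA' dS' (dL X.toTab l) (0, h * dV [l]) = (0, h) := by
  have key : ∀ i h, dP X.dA' dS' (dG X.toTab i) (0, h * dV [(i, true)]) = (0, h) := by
    intro i h
    obtain ⟨g1, g2⟩ := X.gen_lt i
    have e := X.d_step' none ⟨_, g1⟩ h
    rw [show X.dc none ⟨_, g1⟩ = [(i, true)] from g2,
      show (dMv X.dA' dS' none)⁻¹ = X.dA' from X.d_rel'.inv] at e
    rw [X.d_rel'.dP_G, Perm.mul_apply, Perm.mul_apply,
      Perm.inv_eq_iff_eq.2 (X.d_tree _ (X.d_lt g1).1 _).symm]
    exact (congrArg _ e).trans (X.d_tree _ g1 h)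
  rw [X.d_rel'.dP_L]
  rcases l with ⟨i, _ | _⟩
  · refine Perm.inv_eq_iff_eq.2 ?_
    rw [← key i (h * dV [(i, false)])]
    simp [dV, evw]
  · exact key i h

end X84

namespace T7

variable (Z : T7)

theorem d_rel : DRel Z.a Z.s := ⟨Z.aa, Z.s7, Z.t3⟩

theorem d_tgt (e : Z.D × Option Bool) : Z.src (Z.inv e) = dMv Z.a Z.s e.2 (Z.src e) := by
  rcases e with ⟨d, _ | _ | _⟩
  · rfl
  · exact (Z.s.symm_apply_apply d).symm
  · rfl

/-- The value of an edge. -/
def dv (e : Z.D × Option Bool) : Z.gd.U := Z.gd.val e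

theorem dv_inv (e : Z.D × Option Bool) : Z.dv (Z.inv e) = (Z.dv e)⁻¹ := Z.gd.val_inv e

/-- Crossing with values in the group of the Schreier graph. -/
def dA' : Perm (Z.D × Z.gd.U) := dSk Z.a fun d => Z.dv (d, none)

/-- Turning with values in the group of the Schreier graph. -/
def dS' : Perm (Z.D × Z.gd.U) := dSk Z.s fun d => Z.dv (d, some true)

theorem d_rel' : DRel Z.dA' Z.dS' := by
  refine Z.d_rel.skew _ _ (fun d => ?_) (fun d => ?_) fun d => ?_
  · exact mul_eq_one_iff_inv_eq.2 (Z.dv_inv (d, none)).symm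
  · have : ((Z.hep d).map Z.dv).prod = 1 := pres_rel (src := Z.src) (h := Z.inv_inv)
      (R := {w | ∃ d, w = Z.hep d ∨ w = Z.tri d}) ⟨d, Or.inl rfl⟩
    simpa [hep, List.range_succ] using this
  · have : ((Z.tri d).map Z.dv).prod = 1 := pres_rel (src := Z.src) (h := Z.inv_inv)
      (R := {w | ∃ d, w = Z.hep d ∨ w = Z.tri d}) ⟨d, Or.inr rfl⟩
    simpa [tri, List.range_succ] using this

theorem d_step' (e : Z.D × Option Bool) (h : Z.gd.U) :
    (dMv Z.dA' Z.dS' e.2)⁻¹ (Z.src (Z.inv e), h * Z.dv e) = (Z.src e, h) := by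
  rcases e with ⟨d, _ | _ | _⟩
  · exact Perm.inv_eq_iff_eq.2 rfl
  · refine Prod.ext rfl ?_
    change h * Z.dv (Z.inv (d, some true)) * Z.dv (d, some true) = h
    rw [Z.dv_inv, inv_mul_cancel_right]
  · exact Perm.inv_eq_iff_eq.2 rfl

/-- The monodromy given by the tiling of genus two. -/
def dMon (X : X84) : Mon Z.gd (Fin 84) where
  μ := fun e => dMv X.dA dS e.2
  inv := fun ⟨d, o⟩ => by
    have : (Z.inv (d, o)).2 = o.map not := by rcases o with _ | _ | _ <;> rfl
    exact (congrArg _ this).trans (X.d_rel.mv_not o)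
  cong := fun _ p _ hp u => by
    have key : ∀ (p : List (Z.D × Option Bool)) (u : Fin 84), dP X.dA dS (p.map fun e => e.2)
        (p.foldl (fun u e => dMv X.dA dS e.2 u) u) = u := by
      intro p
      induction p with
      | nil => intro u; rfl
      | cons e p ih =>
        intro u
        rw [List.map_cons, dP_cons, List.foldl_cons, Perm.mul_apply, ih]
        exact Equiv.symm_apply_apply _ u
    have := key p u
    rwa [X.d_rel.lift Z p hp] at this

end T7

end Pool.Agent.MC.VB
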