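import Pool.Agent.P.MP_2677b3_gt.VbDefs

/-! Lifting of equivalences to covers and restriction to components. -/

open Equiv Function
open scoped ENNReal

noncomputable section

namespace Pool.Agent.MC.VB

open LL

section transport

variable {A : Gd} {U : Type} (m : Mon A U)

/-- Transport along a path. -/
def Mon.tr (p : List A.E) : Perm U := ((p.map fun e => (m.μ e)⁻¹).prod)⁻¹

@[simp] theorem Mon.tr_nil : m.tr [] = 1 := by simp [Mon.tr]

@[simp] theorem Mon.tr_cons (e : A.E) (p : List A.E) : m.tr (e :: p) = m.tr p * m.μ e := by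
  simp [Mon.tr]

@[simp] theorem Mon.tr_append (p q : List A.E) : m.tr (p ++ q) = m.tr q * m.tr p := by
  simp [Mon.tr]

theorem Mon.tr_rev (p : List A.E) : m.tr (A.rev p) = (m.tr p)⁻¹ := by
  induction p with
  | nil => simp
  | cons e p ih => simp [ih, m.inv]

theorem Mon.tr_foldl (p : List A.E) (u : U) : p.foldl (fun u e => m.μ e u) u = m.tr p u := by
  induction p generalizing u with
  | nil => simp
  | cons e p ih => simp [ih]

theorem Mon.tr_congr {x y : A.V} {p q : List A.E} (hp : A.Path x p y) (hq : A.Path x q y)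
    (h : A.ev p = A.ev q) : m.tr p = m.tr q := by
  have h1 : m.tr (p ++ A.rev q) = 1 := Equiv.ext fun u => by
    rw [← m.tr_foldl]
    exact m.cong x _ (hp.append hq.rev) (by simp [h]) u
  rw [m.tr_append, m.tr_rev] at h1
  exact (inv_mul_eq_one.1 h1).symm

/-- The projection of an edge. -/
def Mon.pr (e : (cover A m).E) : A.E := e.1

/-- The lift of an edge. -/
def Mon.ed (e : A.E) (u : U) : (cover A m).E := (e, u)

/-- The lift of a path. -/
def Mon.up (p : List A.E) : U → List (cover A m).E :=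
  p.foldr (fun e r u => m.ed e u :: r (m.μ e u)) fun _ => []

theorem Mon.up_cons (e : A.E) (p : List A.E) (u : U) :
    m.up (e :: p) u = m.ed e u :: m.up p (m.μ e u) := rfl

theorem Mon.up_map (p : List A.E) (u : U) : (m.up p u).map m.pr = p := by
  induction p generalizing u with
  | nil => rfl
  | cons e p ih => exact congrArg (List.cons e) (ih _)

theorem Mon.up_path {x y : A.V} {p : List A.E} (h : A.Path x p y) (u : U) :
    (cover A m).Path (x, u) (m.up p u) (y, m.tr p u) := by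
  induction p generalizing x u with
  | nil =>
    obtain rfl : x = y := h
    rw [m.tr_nil]
    exact rfl
  | cons e p ih =>
    obtain ⟨rfl, h2⟩ := h
    rw [m.tr_cons]
    exact ⟨rfl, ih h2 _⟩

theorem Mon.down_path {x y : (cover A m).V} {p : List (cover A m).E}
    (h : (cover A m).Path x p y) :
    A.Path x.1 (p.map m.pr) y.1 ∧ m.tr (p.map m.pr) x.2 = y.2 := by
  induction p generalizing x with
  | nil =>
    obtain rfl : x = y := h
    exact ⟨rfl, by simp⟩
  | cons e p ih =>
    obtain ⟨rfl, h2⟩ := h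
    obtain ⟨h3, h4⟩ := ih h2
    refine ⟨⟨rfl, h3⟩, ?_⟩
    rw [List.map_cons, m.tr_cons]
    exact h4

theorem Mon.down_ev (p : List (cover A m).E) : (cover A m).ev p = A.ev (p.map m.pr) := by
  unfold Gd.ev
  rw [List.map_map]
  rfl

theorem Mon.up_ev (p : List A.E) (u : U) : (cover A m).ev (m.up p u) = A.ev p := by
  rw [m.down_ev, m.up_map]

end transport

section lift

variable {A B : Gd}

theorem lift_faith {f : Mp A B} {g : Mp B A} (h : f.Back g) {x y : A.V} {p q : List A.E}
    (hp : A.Path x p y) (hq : A.Path x q y)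
    (e : B.ev (p.flatMap f.e) = B.ev (q.flatMap f.e)) : A.ev p = A.ev q := by
  obtain ⟨η, -, h2⟩ := h
  have a1 := Mp.back_path f g η h2 hp
  have a2 := Mp.back_path f g η h2 hq
  rw [g.ev_congr (f.map_path hp) (f.map_path hq) e, a2] at a1
  exact (mul_right_cancel a1).symm

theorem lift_full {f : Mp A B} {g : Mp B A} (h : f.Back g) (h' : g.Back f) {x y : A.V}
    {q : List B.E} (hq : B.Path (f.v x) q (f.v y)) :
    ∃ p, A.Path x p y ∧ B.ev (p.flatMap f.e) = B.ev q := by
  obtain ⟨η, h1, h2⟩ := h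
  have a1 := ((h1 x).append (g.map_path hq)).append (h1 y).rev
  refine ⟨_, a1, lift_faith h' (f.map_path a1) hq ?_⟩
  have a2 := Mp.back_path f g η h2 a1
  rw [Gd.ev_append, Gd.ev_append, Gd.ev_rev, inv_mul_cancel_right] at a2
  exact mul_left_cancel a2

variable {U : Type}

/-- The pull-back of a monodromy. -/
def Mon.pull (m : Mon B U) (f : Mp A B) : Mon A U where
  μ := fun e => m.tr (f.e e)
  inv := fun e => by
    rw [← m.tr_rev]
    refine m.tr_congr (f.path _) ?_ ?_
    · rw [Gd.tgt_inv]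
      exact (f.path e).rev
    · rw [f.ev_inv, Gd.ev_rev]
  cong := fun x p hp h u => by
    have a : ∀ (q : List A.E) (u : U), q.foldl (fun u e => m.tr (f.e e) u) u =
        m.tr (q.flatMap f.e) u := fun q => by
      induction q with
      | nil => simp
      | cons e q ih => simp [ih]
    rw [a, m.tr_congr (f.map_path hp) (q := []) rfl (f.cong x p hp h)]
    simp

theorem Mon.pull_tr (m : Mon B U) (f : Mp A B) (p : List A.E) :
    (m.pull f).tr p = m.tr (p.flatMap f.e) := by
  induction p with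
  | nil => simp
  | cons e p ih =>
    rw [Mon.tr_cons, ih, List.flatMap_cons, Mon.tr_append]
    rfl

/-- A lift of a map to the covers. -/
def liftMp (f : Mp A B) (m : Mon A U) (n : Mon B U) (τ : A.V → Perm U)
    (h : ∀ a, n.tr (f.e a) * τ (A.src a) = τ (A.tgt a) * m.μ a) : Mp (cover A m) (cover B n) where
  v := fun x => (f.v x.1, τ x.1 x.2)
  e := fun a => n.up (f.e a.1) (τ (A.src a.1) a.2)
  path := fun a => by
    have h1 := n.up_path (f.path a.1) (τ (A.src a.1) a.2)
    rw [← Perm.mul_apply, h] at h1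
    exact h1
  cong := fun x p hp e => by
    have h1 := f.cong _ _ (m.down_path hp).1 ((m.down_ev p).symm.trans e)
    rw [Gd.ev_flatMap, List.map_map] at h1
    rw [Gd.ev_flatMap]
    simp only [Mon.up_ev]
    exact h1

theorem liftMp_ev (f : Mp A B) (m : Mon A U) (n : Mon B U) (τ : A.V → Perm U) (h)
    (p : List (cover A m).E) : (cover B n).ev (p.flatMap (liftMp f m n τ h).e) =
      B.ev ((p.map m.pr).flatMap f.e) := by
  rw [Gd.ev_flatMap, Gd.ev_flatMap, List.map_map]
  simp only [liftMp, Mon.up_ev]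
  rfl

theorem liftMp_back (f : Mp A B) (g : Mp B A) (m : Mon A U) (n : Mon B U) (τ : A.V → Perm U)
    (σ : B.V → Perm U) (h) (h') (η : A.V → List A.E) (h1 : ∀ x, A.Path x (η x) (g.v (f.v x)))
    (h2 : ∀ a, A.ev (η (A.src a)) * A.ev ((f.e a).flatMap g.e) = A.val a * A.ev (η (A.tgt a)))
    (h3 : ∀ x, m.tr (η x) = σ (f.v x) * τ x) : (liftMp f m n τ h).Back (liftMp g n m σ h') := by
  refine ⟨fun x => m.up (η x.1) x.2, fun x => ?_, fun a => ?_⟩
  · have a1 := m.up_path (h1 x.1) x.2
    rw [h3] at a1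
    exact a1
  · rw [liftMp_ev, m.up_ev, m.up_ev]
    have a1 : ((liftMp f m n τ h).e a).map n.pr = f.e a.1 := n.up_map _ _
    rw [a1]
    exact h2 a.1

theorem liftMp_en [Fintype U] (f : Mp A B) (m : Mon A U) (n : Mon B U) (τ : A.V → Perm U) (h)
    {E : ℕ} (hE : f.En E) : (liftMp f m n τ h).En (E * Fintype.card U) := by
  intro ρ
  have a1 : ∀ (p : List B.E) (u : U), ((n.up p u).map ρ).sum ≤
      (p.map fun b => ⨆ u, ρ (b, u)).sum := fun p => by
    induction p with
    | nil => exact fun _ => le_rfl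
    | cons e p ih =>
      intro u
      rw [n.up_cons, List.map_cons, List.sum_cons, List.map_cons, List.sum_cons]
      exact add_le_add (le_iSup (fun u => ρ (e, u)) u) (ih _)
  have a2 : ∀ b, (⨆ u, ρ (b, u)) ^ 2 ≤ ∑' u, ρ (b, u) ^ 2 := fun b => by
    rw [ENNReal.iSup_pow_of_ne_zero two_ne_zero]
    exact iSup_le fun u => ENNReal.le_tsum (f := fun u => ρ (b, u) ^ 2) u
  calc ∑' a : A.E × U, ((n.up (f.e a.1) (τ (A.src a.1) a.2)).map ρ).sum ^ 2
      ≤ ∑' a : A.E × U, ((f.e a.1).map fun b => ⨆ u, ρ (b, u)).sum ^ 2 :=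
        ENNReal.tsum_le_tsum fun a => by gcongr; exact a1 _ _
    _ = Fintype.card U * ∑' a : A.E, ((f.e a).map fun b => ⨆ u, ρ (b, u)).sum ^ 2 := by
        rw [ENNReal.tsum_prod', ← ENNReal.tsum_mul_left]
        simp [tsum_fintype]
    _ ≤ Fintype.card U * (E * ∑' b : B.E, ∑' u, ρ (b, u) ^ 2) := by
        gcongr
        refine (hE _).trans ?_
        gcongr with b
        exact a2 b
    _ = _ := by
        rw [← ENNReal.tsum_prod' (f := fun b : B.E × U => ρ b ^ 2)]
        push_cast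
        rw [← mul_assoc, mul_comm (Fintype.card U : ℝ≥0∞)]
        rfl

theorem lift_fw {A B : Gd} {E : ℕ} (h : Fw E A B) {U : Type} [Fintype U] (m : Mon B U) :
    ∃ m' : Mon A U, Fw (E * Fintype.card U) (cover A m') (cover B m) := by
  obtain ⟨f, g, h1, ⟨ζ, z1, z2⟩, h3⟩ := h
  have a1 : ∀ a, m.tr (f.e a) * (fun _ => (1 : Perm U)) (A.src a) =
      (fun _ => (1 : Perm U)) (A.tgt a) * (m.pull f).μ a := fun a => by simp [Mon.pull]
  have a2 : ∀ b, (m.pull f).tr (g.e b) * m.tr (ζ (B.src b)) = m.tr (ζ (B.tgt b)) * m.μ b :=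
    fun b => by
      rw [m.pull_tr, ← m.tr_append, ← m.tr_cons]
      exact m.tr_congr ((z1 _).append (f.map_path (g.path b))) ⟨rfl, z1 _⟩ (by simpa using z2 b)
  choose η e1 e2 using fun x => lift_full h1 ⟨ζ, z1, z2⟩ (z1 (f.v x))
  refine ⟨m.pull f, liftMp f _ _ _ a1, liftMp g _ _ (fun y => m.tr (ζ y)) a2,
    liftMp_back _ _ _ _ _ _ _ _ η e1 (fun a => ?_) (fun x => ?_),
    liftMp_back _ _ _ _ _ (fun _ => 1) _ _ ζ z1 z2 (fun y => (one_mul _).symm), liftMp_en _ _ _ _ _ h3⟩
  · have b1 := lift_faith h1 ((e1 _).append (g.map_path (f.path a)))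
      ((A.path_single a).append (e1 _)) (by
        rw [List.flatMap_append, List.flatMap_append, Gd.ev_append, Gd.ev_append, e2, e2]
        simpa using Mp.back_path g f ζ z2 (f.path a))
    simpa using b1
  · rw [m.pull_tr, mul_one]
    exact m.tr_congr (f.map_path (e1 x)) (z1 _) (e2 x)

end lift

/-- `C` is a union of components of `A`. -/
structure LiftSub (C A : Gd) where
  v : C.V → A.V
  e : C.E → A.E
  φ : C.U →* A.U
  v_inj : Injective v
  e_inj : Injective e
  φ_inj : Injective φ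
  src : ∀ a, A.src (e a) = v (C.src a)
  inv : ∀ a, A.inv (e a) = e (C.inv a)
  val : ∀ a, A.val (e a) = φ (C.val a)
  full : ∀ y b, A.src b = v y → ∃ a, e a = b

namespace LiftSub

variable {A B C D : Gd}

theorem tgt (S : LiftSub C A) (a : C.E) : A.tgt (S.e a) = S.v (C.tgt a) := by
  rw [Gd.tgt, S.inv, S.src, Gd.tgt]

theorem path_iff (S : LiftSub C A) {x y : C.V} {p : List C.E} :
    C.Path x p y ↔ A.Path (S.v x) (p.map S.e) (S.v y) := by
  induction p generalizing x with
  | nil => simp [S.v_inj.eq_iff]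
  | cons e p ih => simp [S.src, S.tgt, S.v_inj.eq_iff, ih]

theorem ev (S : LiftSub C A) (p : List C.E) : A.ev (p.map S.e) = S.φ (C.ev p) := by
  induction p with
  | nil => simp
  | cons e p ih => simp [ih, S.val]

theorem up (S : LiftSub C A) {x : C.V} {y : A.V} {q : List A.E} (h : A.Path (S.v x) q y) :
    ∃ p : List C.E, p.map S.e = q := by
  induction q generalizing x with
  | nil => exact ⟨[], rfl⟩
  | cons b q ih =>
    obtain ⟨h1, h2⟩ := h
    obtain ⟨a, rfl⟩ := S.full x b h1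
    rw [S.tgt] at h2
    obtain ⟨p, rfl⟩ := ih h2
    exact ⟨a :: p, rfl⟩

theorem res (S : LiftSub C A) (T : LiftSub D B) (f : Mp A B)
    (h : ∀ x, ∃ y, T.v y = f.v (S.v x)) : ∃ F : Mp C D, (∀ x, T.v (F.v x) = f.v (S.v x)) ∧
      ∀ p : List C.E, (p.flatMap F.e).map T.e = (p.map S.e).flatMap f.e := by
  choose v hv using h
  have a1 : ∀ a, B.Path (T.v (v (C.src a))) (f.e (S.e a)) (T.v (v (C.tgt a))) := fun a => by
    rw [hv, hv, ← S.src, ← S.tgt]
    exact f.path _
  choose e he using fun a => T.up (a1 a)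
  have a2 : ∀ p : List C.E, (p.flatMap e).map T.e = (p.map S.e).flatMap f.e := fun p => by
    induction p with
    | nil => rfl
    | cons a p ih => simp [he, ih]
  refine ⟨⟨v, e, fun a => T.path_iff.2 (he a ▸ a1 a), fun x p hp h => T.φ_inj ?_⟩, hv, a2⟩
  rw [← T.ev, a2, map_one]
  exact f.cong _ _ (S.path_iff.1 hp) (by rw [S.ev, h, map_one])

theorem back (S : LiftSub C A) (T : LiftSub D B) {f : Mp A B} {g : Mp B A} {F : Mp C D}
    {G : Mp D C} (h : f.Back g) (h1 : ∀ x, T.v (F.v x) = f.v (S.v x))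
    (h2 : ∀ p : List C.E, (p.flatMap F.e).map T.e = (p.map S.e).flatMap f.e)
    (h3 : ∀ x, S.v (G.v x) = g.v (T.v x))
    (h4 : ∀ p : List D.E, (p.flatMap G.e).map S.e = (p.map T.e).flatMap g.e) : F.Back G := by
  obtain ⟨η, e1, e2⟩ := h
  choose η' he using fun x => S.up (e1 (S.v x))
  refine ⟨η', fun x => S.path_iff.2 ?_, fun a => S.φ_inj ?_⟩
  · rw [he, h3, h1]
    exact e1 _
  · have a1 : (F.e a).map T.e = f.e (S.e a) := by simpa using h2 [a]
    rw [map_mul, map_mul, ← S.ev, ← S.ev, ← S.ev, ← S.val, he, he, h4, a1, ← S.src, ← S.tgt]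
    exact e2 _

theorem en (S : LiftSub C A) (T : LiftSub D B) {f : Mp A B} {F : Mp C D} {E : ℕ} (h : f.En E)
    (h2 : ∀ p : List C.E, (p.flatMap F.e).map T.e = (p.map S.e).flatMap f.e) : F.En E := by
  intro ρ
  have a0 : ∀ b, extend T.e ρ 0 (T.e b) = ρ b := fun b => T.e_inj.extend_apply _ _ _
  have a1 : ∀ a, ((F.e a).map ρ).sum = ((f.e (S.e a)).map (extend T.e ρ 0)).sum := fun a => by
    have a1 : (F.e a).map T.e = f.e (S.e a) := by simpa using h2 [a]
    rw [← a1, List.map_map]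
    simp only [comp_def, a0]
  have a2 : ∑' b, extend T.e ρ 0 b ^ 2 = ∑' b, ρ b ^ 2 := by
    rw [← T.e_inj.tsum_eq (f := fun b => extend T.e ρ 0 b ^ 2)]
    · simp only [a0]
    · intro b hb
      by_contra hn
      exact hb (by simp [extend_apply' _ _ _ hn])
  simp only [a1]
  rw [← a2]
  exact (ENNReal.tsum_comp_le_tsum_of_injective S.e_inj
    fun a => ((f.e a).map (extend T.e ρ 0)).sum ^ 2).trans (h _)

end LiftSub

/-- A component is a union of components. -/
def liftComp (A : Gd) (x : A.V) : LiftSub (comp A x) A where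
  v := Subtype.val
  e := Subtype.val
  φ := MonoidHom.id _
  v_inj := Subtype.val_injective
  e_inj := Subtype.val_injective
  φ_inj := injective_id
  src := fun _ => rfl
  inv := fun _ => rfl
  val := fun _ => rfl
  full := fun y b h => ⟨⟨b, h ▸ y.2⟩, rfl⟩

theorem lift_reach (T : Act) (y z : T.D) (i : Fin 4) :
    (∃ p, T.gd.Path y p (T.g i z)) ↔ ∃ p, T.gd.Path y p z :=
  ⟨fun ⟨_, h⟩ => ⟨_, h.append (T.gd.path_single (z, i, false))⟩,
    fun ⟨_, h⟩ => ⟨_, h.append (T.gd.path_single (z, i, true))⟩⟩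

/-- The orbit of a point. -/
def liftAct (T : Act) (y : T.D) : Act where
  D := {z : T.D // ∃ p, T.gd.Path y p z}
  fD := inferInstance
  g := fun i => (T.g i).subtypePerm fun z => lift_reach T y z i
  rel := Equiv.ext fun z => Subtype.ext (by
    have := congrArg (fun σ : Perm T.D => σ z.1) T.rel
    exact this)

/-- The orbit is a union of components. -/
def liftOrb (T : Act) (y : T.D) : LiftSub (liftAct T y).gd T.gd where
  v := Subtype.val
  e := fun a => (a.1.1, a.2)
  φ := MonoidHom.id _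
  v_inj := Subtype.val_injective
  e_inj := fun _ _ h => Prod.ext (Subtype.ext (Prod.ext_iff.1 h).1) (Prod.ext_iff.1 h).2
  φ_inj := injective_id
  src := fun ⟨_, _, b⟩ => by cases b <;> rfl
  inv := fun _ => rfl
  val := fun _ => rfl
  full := fun z ⟨d, i, b⟩ h => by
    cases b
    · exact ⟨(⟨d, (lift_reach T y d i).1 ((show T.g i d = z.1 from h) ▸ z.2)⟩, i, false), rfl⟩
    · exact ⟨(⟨d, (show d = z.1 from h) ▸ z.2⟩, i, true), rfl⟩

theorem fw_comp {A : Gd} {E : ℕ} {T : Act} (h : Fw E A T.gd) (x : A.V) :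
    ∃ T' : Act, Fw E (comp A x) T'.gd := by
  obtain ⟨f, g, h1, h2, h3⟩ := h
  obtain ⟨F, f1, f2⟩ := (liftComp A x).res (liftOrb T (f.v x)) f fun z =>
    ⟨⟨f.v z.1, z.2.elim fun _ hp => ⟨_, f.map_path hp⟩⟩, rfl⟩
  obtain ⟨G, g1, g2⟩ := (liftOrb T (f.v x)).res (liftComp A x) g fun z =>
    ⟨⟨g.v z.1, z.2.elim fun _ hp => h1.elim fun _ hη => ⟨_, (hη.1 x).append (g.map_path hp)⟩⟩, rfl⟩
  exact ⟨_, F, G, LiftSub.back _ _ h1 f1 f2 g1 g2, LiftSub.back _ _ h2 g1 g2 f1 f2,
    LiftSub.en _ _ h3 f2⟩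

end Pool.Agent.MC.VB
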