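import Pool.Agent.P.MP_2677b3_gt.VbPolyA

/-! The polymer expansion: bounds on the weights and the non-vanishing of the sum. -/

namespace Pool.Agent.MC.VB

open Finset

section

variable {V W Θ : Type} [Fintype V] [Fintype W] [Fintype Θ] [DecidableEq V] [DecidableEq W]
  [DecidableEq Θ] {n : ℕ}

variable (win : V → Fin n → W) (lg : Θ → Prop) [DecidablePred lg] (q : Θ → ℝ) (ν : W → Θ → ℂ)
  (A ρ : V → (Fin n → Θ) → ℂ)

/-- The size of an atom without the factor for its windows. -/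
noncomputable def polyY (κ β₀ β₁ : ℝ) : PolyAt V W Θ n → ℝ
  | Sum.inl p => if lg p.2 then Real.exp (-κ * q p.2) else 0
  | Sum.inr (_, none) => β₀
  | Sum.inr (_, some p) => if lg p.2 then β₁ * q p.2 else 0

/-- A bound for the number of windows of an atom. -/
def polyK : PolyAt V W Θ n → ℕ := Sum.elim (fun _ => 1) fun _ => n

omit [Fintype V] [Fintype W] [Fintype Θ] [DecidableEq V] [DecidableEq W] [DecidableEq Θ] in
theorem polyY_nonneg {κ β₀ β₁ : ℝ} (hq : ∀ t, lg t → 0 < q t) (hβ₀ : 0 ≤ β₀) (hβ₁ : 0 ≤ β₁)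
    (a : PolyAt V W Θ n) : 0 ≤ polyY lg q κ β₀ β₁ a := by
  rcases a with p | ⟨v, _ | p⟩
  · simp only [polyY]; split_ifs <;> positivity
  · exact hβ₀
  · simp only [polyY]
    split_ifs with h
    · exact mul_nonneg hβ₁ (hq _ h).le
    · exact le_rfl

omit [Fintype V] [Fintype W] [Fintype Θ] [DecidableEq V] [DecidableEq Θ] in
theorem polyS_card (a : PolyAt V W Θ n) : (polyS win a).card ≤ polyK a := by
  rcases a with p | p
  · simp [polyS, polyK]
  · exact card_image_le.trans (by simp [polyK])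

omit [Fintype V] [Fintype W] [DecidableEq V] [DecidableEq W] in
theorem polyP_le {c κ β₀ β₁ : ℝ} (hq : ∀ t, lg t → 0 < q t) (hβ₀ : 0 ≤ β₀) (hβ₁ : 0 ≤ β₁)
    (a2 : ∀ v η, (∀ i, ¬ lg (η i)) → ‖ρ v η‖ ≤ β₀)
    (a3 : ∀ v η, ‖A v η‖ ≤ Real.exp (-c * ∑ i with lg (η i), q (η i)))
    (a4 : ∀ v η, (∃ i, lg (η i)) → ‖ρ v η‖ ≤
      β₁ * (∑ i with lg (η i), q (η i)) * Real.exp (-c * ∑ i with lg (η i), q (η i)))
    (v : V) (η : Fin n → Θ) (Y : Finset (Option (Fin n × Θ))) :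
    ‖polyP lg q A ρ v η Y‖ ≤ Real.exp (-c * ∑ i with lg (η i), q (η i)) *
      ∏ o ∈ Y, polyY (W := W) lg q κ β₀ β₁ (Sum.inr (v, o)) := by
  unfold polyP
  rcases polyF_cases (A v η) (polyR lg q ρ v η) Y with rfl | ⟨o, rfl⟩ | h
  · simpa [polyF_empty] using a3 v η
  · rw [polyF_single, prod_singleton]
    have h0 : ‖(0 : ℂ)‖ ≤ Real.exp (-c * ∑ i with lg (η i), q (η i)) *
        polyY (W := W) lg q κ β₀ β₁ (Sum.inr (v, o)) := by
      rw [norm_zero]
      exact mul_nonneg (Real.exp_pos _).le (polyY_nonneg lg q hq hβ₀ hβ₁ _)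
    rcases o with _ | ⟨i, t⟩
    · simp only [polyR]
      split_ifs with h
      · simpa [polyY, h] using a2 v η h
      · exact h0
    · simp only [polyR]
      split_ifs with h
      · obtain ⟨h1, rfl⟩ := h
        have hp : 0 < ∑ i with lg (η i), q (η i) :=
          Finset.sum_pos (fun j hj => hq _ (Finset.mem_filter.1 hj).2) ⟨i, by simp [h1]⟩
        have hi := hq _ h1
        rw [norm_mul, Complex.norm_real, Real.norm_of_nonneg (by positivity)]
        refine (mul_le_mul_of_nonneg_right (a4 v η ⟨i, h1⟩) (by positivity)).trans (le_of_eq ?_)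
        simp only [polyY, if_pos h1]
        field_simp
      · exact h0
  · rw [h, norm_zero]
    exact mul_nonneg (Real.exp_pos _).le (prod_nonneg fun o _ => polyY_nonneg lg q hq hβ₀ hβ₁ _)

theorem polyG_le {ω : ℕ} (hw : Win win ω) {c β₀ β₁ : ℝ} (hc : 0 ≤ c) (hq : ∀ t, lg t → 0 < q t)
    (hβ₀ : 0 ≤ β₀) (hβ₁ : 0 ≤ β₁) (a2 : ∀ v η, (∀ i, ¬ lg (η i)) → ‖ρ v η‖ ≤ β₀)
    (a3 : ∀ v η, ‖A v η‖ ≤ Real.exp (-c * ∑ i with lg (η i), q (η i)))
    (a4 : ∀ v η, (∃ i, lg (η i)) → ‖ρ v η‖ ≤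
      β₁ * (∑ i with lg (η i), q (η i)) * Real.exp (-c * ∑ i with lg (η i), q (η i)))
    {X : Finset (PolyAt V W Θ n)} {θ : W → Θ} (sX : PolySup lg X θ) :
    ‖polyG win lg q A ρ X θ‖ ≤ ∏ a ∈ X, polyY lg q (c * ω) β₀ β₁ a := by
  rw [poly_prod_fib, polyG, norm_prod]
  refine (prod_le_prod (fun v _ => norm_nonneg _) fun v _ =>
    polyP_le (W := W) (κ := c * ω) lg q A ρ hq hβ₀ hβ₁ a2 a3 a4 v _ _).trans ?_
  rw [prod_mul_distrib]
  refine mul_le_mul_of_nonneg_right ?_ (prod_nonneg fun v _ => prod_nonneg fun o _ =>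
    polyY_nonneg lg q hq hβ₀ hβ₁ _)
  set g : W → ℝ := fun w => if lg (θ w) then q (θ w) else 0 with hg
  have g0 : ∀ w, 0 ≤ g w := fun w => by
    simp only [hg]
    split_ifs with h
    · exact (hq _ h).le
    · exact le_rfl
  have e1 : ∀ w, ∏ t ∈ polyFW X w, polyY (V := V) (n := n) lg q (c * ω) β₀ β₁ (Sum.inl (w, t)) =
      Real.exp (-(c * ω) * g w) := by
    intro w
    by_cases h : lg (θ w)
    · have : polyFW X w = {θ w} := by ext s; simp [sX w s, h]
      simp [this, polyY, hg, h]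
    · have : polyFW X w = ∅ := by ext s; simp [sX w s, h]
      simp [this, hg, h]
  simp only [e1]
  rw [← Real.exp_sum, ← Real.exp_sum, Real.exp_le_exp, ← mul_sum]
  have e2 : ∑ v, ∑ i with lg (θ (win v i)), q (θ (win v i)) =
      ∑ w, ((polySl win w).card : ℝ) * g w := by
    simp only [sum_filter]
    rw [← Fintype.sum_prod_type' fun v i => g (win v i),
      ← sum_fiberwise univ (fun p : V × Fin n => win p.1 p.2)]
    refine sum_congr rfl fun w _ => ?_
    rw [sum_congr rfl (g := fun _ => g w) fun p hp => by rw [(mem_filter.1 hp).2], sum_const,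
      nsmul_eq_mul]
    rfl
  rw [e2, mul_sum]
  refine sum_le_sum fun w _ => ?_
  have : (ω : ℝ) ≤ (polySl win w).card := Nat.cast_le.2 (hw.size w).1
  nlinarith [mul_nonneg (mul_nonneg hc (g0 w)) (sub_nonneg.2 this)]

theorem polyW_le (n1 : ∀ w, ∑ t with ¬ lg t, ν w t = 1) (n2 : ∀ w, ∑ t with ¬ lg t, ‖ν w t‖ ≤ 2)
    (n3 : ∀ w t, lg t → ‖ν w t‖ ≤ 2)
    (a1 : ∀ v η η', (∀ i, lg (η i) ∨ lg (η' i) → η i = η' i) → A v η = A v η')
    (X : Finset (PolyAt V W Θ n)) {B : ℝ} (hB0 : 0 ≤ B)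
    (hB : ∀ θ, PolySup lg X θ → ‖polyG win lg q A ρ X θ‖ ≤ B) :
    ‖polyW win lg q ν A ρ X‖ ≤ 2 ^ (X.biUnion (polyS win)).card * B := by
  have ex : ∀ w : W, ∃ t, ¬ lg t := fun w => by
    obtain ⟨t, ht, -⟩ := exists_ne_zero_of_sum_ne_zero (n1 w ▸ one_ne_zero)
    exact ⟨t, (mem_filter.1 ht).2⟩
  choose t0 ht0 using ex
  set S := X.biUnion (polyS win) with hS
  have e2 : ∀ w ∉ S, polyFW X w = ∅ := fun w h =>
    eq_empty_of_forall_notMem fun t ht => h (mem_biUnion.2 ⟨_, poly_memW.1 ht, by simp [polyS]⟩)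
  have key := swap_sum S (fun w => polyL lg ν (polyFW X w) w)
    (fun w t => if t = t0 w then 1 else 0) (polyG win lg q A ρ X) (fun _ => 1)
    (polyG win lg q A ρ X) (fun _ => 1) fun θ θ' h1 h2 => by
      rw [mul_one, mul_one]
      refine prod_congr rfl fun v _ => ?_
      rcases (polyFV X v).eq_empty_or_nonempty with hC | ⟨o, ho⟩
      · unfold polyP
        rw [hC, polyF_empty, polyF_empty]
        refine a1 _ _ _ fun i hi => ?_
        by_cases hs : win v i ∈ S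
        · rw [piecewise_eq_of_mem _ _ _ hs]
        · rw [piecewise_eq_of_notMem _ _ _ hs] at hi
          have : θ' (win v i) = t0 (win v i) := by simpa using h2 (win v i)
          refine absurd hi (not_or.2 ⟨fun h => hs ?_, this ▸ ht0 _⟩)
          exact mem_biUnion.2 ⟨_, (poly_sup lg ν (h1 _) _).2 ⟨rfl, h⟩, by simp [polyS]⟩
      · have : (fun i => S.piecewise θ θ' (win v i)) =
            fun i => θ (win v i) := funext fun i => piecewise_eq_of_mem _ _ _
          (mem_biUnion.2 ⟨_, poly_memV.1 ho, by simp [polyS]⟩)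
        rw [this]
  rw [poly_one (fun w t => if t = t0 w then (1 : ℂ) else 0) fun w => by simp,
    poly_one (S.piecewise (fun w t => if t = t0 w then (1 : ℂ) else 0)
      fun w => polyL lg ν (polyFW X w) w) fun w => by
    by_cases h : w ∈ S
    · simp [h]
    · rw [piecewise_eq_of_notMem _ _ _ h, e2 w h, polyL_one lg ν n1], mul_one, mul_one] at key
  unfold polyW
  rw [key]
  set μ := S.piecewise (fun w => polyL lg ν (polyFW X w) w)
    (fun w t => if t = t0 w then (1 : ℂ) else 0) with hμ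
  have b1 : ∀ θ : W → Θ, ‖(∏ w, μ w (θ w)) * polyG win lg q A ρ X θ‖ ≤
      (∏ w, ‖μ w (θ w)‖) * B := by
    intro θ
    rw [norm_mul, norm_prod]
    by_cases h : ∀ w, μ w (θ w) ≠ 0
    · refine mul_le_mul_of_nonneg_left (hB θ fun w s => ?_) (prod_nonneg fun _ _ => norm_nonneg _)
      have h1 := h w
      by_cases hs : w ∈ S
      · rw [hμ, piecewise_eq_of_mem _ _ _ hs] at h1
        exact poly_sup lg ν h1 s
      · rw [hμ, piecewise_eq_of_notMem _ _ _ hs] at h1
        have : θ w = t0 w := by simpa using h1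
        rw [← poly_memW, e2 w hs, this]
        simp [ht0 w]
    · push Not at h
      obtain ⟨w, hw⟩ := h
      rw [prod_eq_zero (mem_univ w) (by rw [hw, norm_zero]), zero_mul, zero_mul]
  refine (norm_sum_le _ _).trans ((sum_le_sum fun θ _ => b1 θ).trans ?_)
  rw [← sum_mul, ← Fintype.prod_sum fun w t => ‖μ w t‖]
  refine mul_le_mul_of_nonneg_right ?_ hB0
  have b2 : ∀ w, ∑ t, ‖μ w t‖ ≤ if w ∈ S then 2 else 1 := by
    intro w
    by_cases hs : w ∈ S
    · rw [if_pos hs, hμ, piecewise_eq_of_mem _ _ _ hs]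
      rcases (polyFW X w).eq_empty_or_nonempty with hX | ⟨s, hs⟩
      · refine le_trans (le_of_eq ?_) (n2 w)
        rw [sum_filter, hX]
        refine sum_congr rfl fun t _ => ?_
        by_cases h : lg t <;> simp [polyL, h, (Finset.singleton_ne_empty t).symm]
      · rw [sum_eq_single s]
        · by_cases h : polyL lg ν (polyFW X w) w s = 0
          · rw [h]; norm_num
          · have := ((poly_sup lg ν h s).1 (poly_memW.1 hs)).2
            unfold polyL
            split_ifs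
            · exact n3 w s this
            · norm_num
        · intro t _ ht
          by_contra h
          exact ht ((poly_sup lg ν (norm_ne_zero_iff.1 h) s).1 (poly_memW.1 hs)).1.symm
        · simp
    · rw [if_neg hs, hμ, piecewise_eq_of_notMem _ _ _ hs, sum_eq_single (t0 w)]
      · simp
      · intro t _ ht; simp [ht]
      · simp
  refine (prod_le_prod (fun w _ => sum_nonneg fun _ _ => norm_nonneg _) fun w _ => b2 w).trans ?_
  rw [← prod_filter]
  simp

omit [Fintype W] [Fintype Θ] [DecidableEq Θ] in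
theorem polyT_card {ω : ℕ} (hw : Win win ω) (hω : 0 < ω) (a : PolyAt V W Θ n) :
    (polyT win a).card ≤ (n + 1) * (2 * ω) := by
  have h1 : ((polyS win a).biUnion fun w => (polySl win w).image Prod.fst).card ≤
      polyK a * (2 * ω) := (card_biUnion_le_card_mul _ _ _ fun w _ =>
    card_image_le.trans (hw.size w).2).trans (Nat.mul_le_mul_right _ (polyS_card win a))
  refine (card_union_le _ _).trans ?_
  rcases a with p | p
  · simp only [polyK, Sum.elim_inl, card_empty] at h1 ⊢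
    nlinarith
  · simp only [polyK, Sum.elim_inr, card_singleton] at h1 ⊢
    nlinarith

omit [Fintype W] in
theorem polyN_prod {ω : ℕ} (hw : Win win ω) (hω : 0 < ω) (x : PolyAt V W Θ n → ℝ)
    (hx : ∀ a, 0 ≤ x a) {u₀ u₁ u₂ : ℝ} (h₀ : 0 ≤ u₀) (h₁ : 0 ≤ u₁) (h₂ : 0 ≤ u₂)
    (x₀ : ∀ v, x (Sum.inr (v, none)) ≤ u₀) (x₁ : ∀ p, x (Sum.inl p) ≤ u₁) (a : PolyAt V W Θ n)
    (x₂ : ∀ b ∈ polyCh win a, x b ≤ u₂) :
    ∏ b ∈ polyN win a, (1 + 3 * x b) ≤
      Real.exp (6 * (n + 1) * ω * (u₀ + n * Fintype.card Θ * u₁) + 6 * ω * u₂) := by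
  have un : ∀ s t : Finset (PolyAt V W Θ n), ∑ b ∈ s ∪ t, x b ≤ ∑ b ∈ s, x b + ∑ b ∈ t, x b :=
    fun s t => by
      rw [← sum_union_inter]
      exact le_add_of_nonneg_right (sum_nonneg fun _ _ => hx _)
  have bd : ∀ (s : Finset (PolyAt V W Θ n)) (u : ℝ) (k : ℕ), 0 ≤ u → s.card ≤ k →
      (∀ b ∈ s, x b ≤ u) → ∑ b ∈ s, x b ≤ k * u := fun s u k hu hk h =>
    (sum_le_card_nsmul s x u h).trans (by
      rw [nsmul_eq_mul]; exact mul_le_mul_of_nonneg_right (Nat.cast_le.2 hk) hu)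
  have hT := polyT_card win hw hω a
  have s₀ := bd ((polyT win a).image fun v => Sum.inr (v, none)) u₀ _ h₀ (card_image_le.trans hT)
    fun b hb => by obtain ⟨v, -, rfl⟩ := mem_image.1 hb; exact x₀ v
  have s₁ := bd ((polyT win a ×ˢ (univ : Finset (Fin n × Θ))).image
    fun p => Sum.inl (win p.1 p.2.1, p.2.2)) u₁ ((n + 1) * (2 * ω) * (n * Fintype.card Θ)) h₁
    (card_image_le.trans (by
      rw [card_product, card_univ, Fintype.card_prod, Fintype.card_fin]
      exact Nat.mul_le_mul_right _ hT))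
    fun b hb => by obtain ⟨v, -, rfl⟩ := mem_image.1 hb; exact x₁ _
  have s₂ := bd (polyCh win a) u₂ (2 * ω) h₂ (by
    rcases a with p | p
    · exact card_image_le.trans (hw.size _).2
    · simp [polyCh]) x₂
  refine (prod_le_prod (fun b _ => by linarith [hx b]) (g := fun b => Real.exp (3 * x b))
    fun b _ => by linarith [Real.add_one_le_exp (3 * x b)]).trans ?_
  rw [← Real.exp_sum, Real.exp_le_exp, ← mul_sum]
  have := (un _ _).trans (add_le_add ((un _ _).trans (add_le_add s₀ s₁)) s₂)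
  push_cast at this
  unfold polyN
  linarith

end

theorem poly {V W Θ : Type} [Fintype V] [Fintype W] [DecidableEq W] [Fintype Θ] {n ω : ℕ}
    (win : V → Fin n → W) (hw : Win win ω) (hω : 0 < ω) (lg : Θ → Prop) [DecidablePred lg]
    (q : Θ → ℝ) (ν : W → Θ → ℂ) (A ρ : V → (Fin n → Θ) → ℂ) (c q₀ β₀ β₁ : ℝ) (hq₀ : 0 < q₀)
    (hq : ∀ t, lg t → q₀ ≤ q t ∧ q t ≤ 10) (hβ₀ : 0 ≤ β₀) (hβ₁ : 0 ≤ β₁)
    (n1 : ∀ w, ∑ t with ¬ lg t, ν w t = 1) (n2 : ∀ w, ∑ t with ¬ lg t, ‖ν w t‖ ≤ 2)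
    (n3 : ∀ w t, lg t → ‖ν w t‖ ≤ 2)
    (a1 : ∀ v η η', (∀ i, lg (η i) ∨ lg (η' i) → η i = η' i) → A v η = A v η')
    (a2 : ∀ v η, (∀ i, ¬ lg (η i)) → A v η = 1 ∧ ‖ρ v η‖ ≤ β₀)
    (a3 : ∀ v η, ‖A v η‖ ≤ Real.exp (-c * ∑ i with lg (η i), q (η i)))
    (a4 : ∀ v η, (∃ i, lg (η i)) → ‖ρ v η‖ ≤
      β₁ * (∑ i with lg (η i), q (η i)) * Real.exp (-c * ∑ i with lg (η i), q (η i)))
    (c1 : 24 * 2 ^ n * β₁ ≤ c) (c2 : 60 * 2 ^ n * β₁ ≤ 1)
    (c3 : 12 * (n + 1) * ω * (2 ^ n * β₀ +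
      2 * (n + 1) * Fintype.card Θ * Real.exp (-c * ω * q₀ / 2)) ≤ 1 / 2) :
    ∑ θ : W → Θ, (∏ w, ν w (θ w)) * ∏ v, (A v (fun i => θ (win v i)) + ρ v fun i => θ (win v i)) ≠
      0 := by
  classical
  have hq' : ∀ t, lg t → 0 < q t := fun t h => hq₀.trans_le (hq t h).1
  have hc : 0 ≤ c := le_trans (by positivity) c1
  have hω' : (1 : ℝ) ≤ ω := Nat.one_le_cast.2 hω
  have hy := polyY_nonneg (V := V) (W := W) (n := n) (κ := c * ω) lg q hq' hβ₀ hβ₁
  set E := Real.exp (-c * ω * q₀ / 2) with hE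
  have E0 : 0 < E := Real.exp_pos _
  set y : PolyAt V W Θ n → ℝ := fun a => 2 ^ polyK a * polyY lg q (c * ω) β₀ β₁ a with hy'
  have y0 : ∀ a, 0 ≤ y a := fun a => mul_nonneg (by positivity) (hy a)
  set x : PolyAt V W Θ n → ℝ := Sum.elim (fun _ => 4 * E) fun p => 2 * y (Sum.inr p) with hx
  have x0 : ∀ a, 0 ≤ x a := by
    rintro (p | p)
    · exact mul_nonneg (by norm_num) E0.le
    · exact mul_nonneg (by norm_num) (y0 _)
  have hn : (0 : ℝ) ≤ n := Nat.cast_nonneg n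
  have hΘ : (0 : ℝ) ≤ Fintype.card Θ := Nat.cast_nonneg _
  have b0 : 0 ≤ 2 ^ n * β₀ := by positivity
  have b1 : 0 ≤ 2 ^ n * β₁ := by positivity
  have k1 : (1 : ℝ) ≤ (n + 1) * ω := by nlinarith
  have k2 : 12 * (2 ^ n * β₀ + 2 * (n + 1) * Fintype.card Θ * E) ≤ 1 / 2 := by
    have : 0 ≤ 2 ^ n * β₀ + 2 * (n + 1) * Fintype.card Θ * E := by positivity
    nlinarith
  have k3 : 6 * (n + 1) * ω * (2 * (2 ^ n * β₀) + n * Fintype.card Θ * (4 * E)) ≤ 1 / 2 := by
    have : 0 ≤ ((n + 1) * ω) * (Fintype.card Θ * E) := by positivity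
    nlinarith
  have k4 : Real.exp (1 / 2) ≤ 2 := by
    have h1 : Real.exp (1 / 2) * Real.exp (1 / 2) = Real.exp 1 := by
      rw [← Real.exp_add]; norm_num
    nlinarith [Real.exp_one_lt_d9, Real.exp_pos (1 / 2)]
  have hN := fun u₂ h₂ => polyN_prod win hw hω x x0 (u₀ := 2 * (2 ^ n * β₀)) (u₁ := 4 * E)
    (u₂ := u₂) (by positivity) (by positivity) h₂ (fun v => le_rfl) fun p => le_rfl
  rw [← poly_total win lg q ν A ρ hq₀ fun t h => (hq t h).1]
  refine polyQ _ (polyN win) x y (poly_empty win lg q ν A ρ n1 fun v η h => (a2 v η h).1)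
    (fun X C _ h => poly_mul win lg q ν A ρ hw hω n1 a1 (fun v η h => (a2 v η h).1) X C h)
    (fun X => ?_) (fun a => ⟨x0 a, ?_⟩) y0 fun a => ?_
  · refine (polyW_le win lg q ν A ρ n1 n2 n3 a1 X (prod_nonneg fun a _ => hy a) fun θ h =>
      polyG_le win lg q A ρ hw hc hq' hβ₀ hβ₁ (fun v η h => (a2 v η h).2) a3 a4 h).trans ?_
    rw [hy', prod_mul_distrib, prod_pow_eq_pow_sum]
    exact mul_le_mul_of_nonneg_right (pow_le_pow_right₀ one_le_two
      (card_biUnion_le.trans (sum_le_sum fun a _ => polyS_card win a)))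
      (prod_nonneg fun a _ => hy a)
  · rcases a with p | ⟨v, _ | p⟩
    · have : (1 : ℝ) ≤ Fintype.card Θ := Nat.one_le_cast.2 (Fintype.card_pos_iff.2 ⟨p.2⟩)
      have h2 : E ≤ (n + 1) * Fintype.card Θ * E := le_mul_of_one_le_left E0.le (by nlinarith)
      change 4 * E ≤ 1 / 3
      nlinarith
    · change 2 * (2 ^ n * β₀) ≤ 1 / 3
      have : 0 ≤ 2 * (n + 1) * Fintype.card Θ * E := by positivity
      linarith
    · change 2 * (2 ^ n * if lg p.2 then β₁ * q p.2 else 0) ≤ 1 / 3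
      split_ifs with h
      · nlinarith [mul_le_mul_of_nonneg_left (hq _ h).2 b1]
      · norm_num
  · rcases a with ⟨w, t⟩ | p
    · change 2 ^ 1 * (if lg t then Real.exp (-(c * ω) * q t) else 0) * _ ≤ 4 * E
      split_ifs with h
      · have ht := hq t h
        have h1 := hN (2 * (2 ^ n * (β₁ * q t))) (by have := hq' t h; positivity) (Sum.inl (w, t))
          fun b hb => by
            obtain ⟨s, -, rfl⟩ := mem_image.1 hb
            change 2 * (2 ^ n * if lg t then β₁ * q t else 0) ≤ _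
            rw [if_pos h]
        have h2 : 6 * ω * (2 * (2 ^ n * (β₁ * q t))) ≤ c * ω * q t / 2 := by
          have : 0 ≤ ω * q t := by have := hq' t h; positivity
          nlinarith [mul_le_mul_of_nonneg_right c1 this]
        have h3 := h1.trans (Real.exp_le_exp.2 (add_le_add k3 h2))
        rw [Real.exp_add] at h3
        have h4 : Real.exp (-(c * ω) * q t) * Real.exp (c * ω * q t / 2) ≤ E := by
          rw [← Real.exp_add, hE, Real.exp_le_exp]
          nlinarith [mul_le_mul_of_nonneg_left ht.1 (mul_nonneg hc (zero_le_one.trans hω'))]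
        have h5 := h3.trans (mul_le_mul_of_nonneg_right k4 (Real.exp_pos _).le)
        nlinarith [mul_le_mul_of_nonneg_left h5 (Real.exp_pos (-(c * ω) * q t)).le]
      · rw [mul_zero, zero_mul]; positivity
    · have h1 := hN 0 le_rfl (Sum.inr p) fun b hb => by simp [polyCh] at hb
      rw [mul_zero, add_zero] at h1
      have h2 := (h1.trans (Real.exp_le_exp.2 k3)).trans k4
      change y (Sum.inr p) * _ ≤ 2 * y (Sum.inr p)
      rw [mul_comm 2]
      exact mul_le_mul_of_nonneg_left h2 (y0 _)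

end Pool.Agent.MC.VB
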