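import Mathlib

/-! A zero-freeness criterion for subset sums, and an exchange identity for double sums. -/

namespace Pool.Agent.MC.VB

open Finset

/-- The restricted sum with a forced part. -/
noncomputable def qXi {α : Type} [DecidableEq α] (w : Finset α → ℂ) (L C : Finset α) : ℂ :=
  ∑ X ∈ L.powerset, w (X ∪ C)

theorem qXi_erase {α : Type} [DecidableEq α] (w : Finset α → ℂ) {L : Finset α} (C : Finset α)
    {b : α} (hb : b ∈ L) :
    qXi w L C = qXi w (L.erase b) C + qXi w (L.erase b) (insert b C) := by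
  unfold qXi
  conv_lhs => rw [← insert_erase hb]
  rw [sum_powerset_insert (notMem_erase b L)]
  refine congrArg _ (sum_congr rfl fun X _ => ?_)
  rw [insert_union, union_insert]

theorem q_prod_mono {α : Type} (x : α → ℝ) (hx : ∀ a, 0 ≤ x a) {A B : Finset α} (h : A ⊆ B) :
    ∏ b ∈ A, (1 + 3 * x b) ≤ ∏ b ∈ B, (1 + 3 * x b) :=
  prod_le_prod_of_subset_of_one_le h (fun a _ => by have := hx a; positivity)
    fun a _ _ => by have := hx a; linarith

theorem q_prod_union {α : Type} [DecidableEq α] (x : α → ℝ) (hx : ∀ a, 0 ≤ x a)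
    (A B : Finset α) :
    ∏ b ∈ A ∪ B, (1 + 3 * x b) ≤ (∏ b ∈ A, (1 + 3 * x b)) * ∏ b ∈ B, (1 + 3 * x b) := by
  rw [← union_sdiff_self_eq_union, prod_union disjoint_sdiff]
  exact mul_le_mul_of_nonneg_left (q_prod_mono x hx sdiff_subset)
    (prod_nonneg fun a _ => by have := hx a; positivity)

theorem q_main {α : Type} [DecidableEq α] (w : Finset α → ℂ) (N : α → Finset α)
    (x y : α → ℝ) (h0 : w ∅ = 1)
    (hm : ∀ X C, Disjoint X C → (∀ c ∈ C, Disjoint X (N c)) → w (X ∪ C) = w X * w C)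
    (hb : ∀ X, ‖w X‖ ≤ ∏ a ∈ X, y a) (hx : ∀ a, 0 ≤ x a ∧ x a ≤ 1 / 3) (hy : ∀ a, 0 ≤ y a)
    (h : ∀ a, y a * ∏ b ∈ N a, (1 + 3 * x b) ≤ x a) (L : Finset α) :
    qXi w L ∅ ≠ 0 ∧ ∀ C, Disjoint L C → ‖qXi w L C‖ ≤
      (∏ a ∈ C, y a) * (∏ b ∈ L ∩ C.biUnion N, (1 + 3 * x b)) * ‖qXi w L ∅‖ := by
  have hx0 : ∀ a, 0 ≤ x a := fun a => (hx a).1
  have hp : ∀ A : Finset α, 0 ≤ ∏ b ∈ A, (1 + 3 * x b) := fun A =>
    prod_nonneg fun a _ => by have := hx0 a; positivity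
  induction L using Finset.strongInduction with
  | H L ih =>
  have step : ∀ b ∈ L, ∀ C, Disjoint L C → ‖qXi w (L.erase b) (insert b C)‖ ≤
      (∏ a ∈ C, y a) * (∏ c ∈ L.erase b ∩ C.biUnion N, (1 + 3 * x c)) * x b *
        ‖qXi w (L.erase b) ∅‖ := by
    intro b hbL C hC
    have hbC : b ∉ C := disjoint_left.1 hC hbL
    have hd : Disjoint (L.erase b) (insert b C) := by
      rw [disjoint_insert_right]
      exact ⟨notMem_erase b L, hC.mono_left (erase_subset b L)⟩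
    refine ((ih _ (erase_ssubset hbL)).2 _ hd).trans
      (mul_le_mul_of_nonneg_right ?_ (norm_nonneg _))
    rw [prod_insert hbC, biUnion_insert]
    have h1 : ∏ c ∈ L.erase b ∩ (N b ∪ C.biUnion N), (1 + 3 * x c) ≤
        (∏ c ∈ N b, (1 + 3 * x c)) * ∏ c ∈ L.erase b ∩ C.biUnion N, (1 + 3 * x c) := by
      refine le_trans (q_prod_mono x hx0 ?_) (q_prod_union x hx0 _ _)
      intro c hc
      rw [mem_inter, mem_union] at hc
      rcases hc.2 with h2 | h2
      · exact mem_union_left _ h2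
      · exact mem_union_right _ (mem_inter.2 ⟨hc.1, h2⟩)
    have hC0 : 0 ≤ ∏ a ∈ C, y a := prod_nonneg fun a _ => hy a
    calc y b * (∏ a ∈ C, y a) * ∏ c ∈ L.erase b ∩ (N b ∪ C.biUnion N), (1 + 3 * x c)
        ≤ y b * (∏ a ∈ C, y a) * ((∏ c ∈ N b, (1 + 3 * x c)) *
            ∏ c ∈ L.erase b ∩ C.biUnion N, (1 + 3 * x c)) :=
          mul_le_mul_of_nonneg_left h1 (mul_nonneg (hy b) hC0)
      _ = (∏ a ∈ C, y a) * (∏ c ∈ L.erase b ∩ C.biUnion N, (1 + 3 * x c)) *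
            (y b * ∏ c ∈ N b, (1 + 3 * x c)) := by ring
      _ ≤ _ := mul_le_mul_of_nonneg_left (h b) (mul_nonneg hC0 (hp _))
  have low : ∀ b ∈ L, (1 - x b) * ‖qXi w (L.erase b) ∅‖ ≤ ‖qXi w L ∅‖ := by
    intro b hbL
    have h1 := step b hbL ∅ (disjoint_empty_right L)
    rw [prod_empty, biUnion_empty, inter_empty, prod_empty, one_mul, one_mul] at h1
    have h2 := norm_sub_le (qXi w L ∅) (qXi w (L.erase b) (insert b ∅))
    have h3 : qXi w L ∅ - qXi w (L.erase b) (insert b ∅) = qXi w (L.erase b) ∅ := by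
      rw [qXi_erase w ∅ hbL]; ring
    rw [h3] at h2
    linarith
  refine ⟨?_, fun C hC => ?_⟩
  · rcases L.eq_empty_or_nonempty with rfl | ⟨b, hbL⟩
    · simp [qXi, h0]
    · have h1 := low b hbL
      have h2 := norm_pos_iff.2 (ih _ (erase_ssubset hbL)).1
      have h3 : 0 < 1 - x b := by have := (hx b).2; linarith
      exact norm_pos_iff.1 (lt_of_lt_of_le (mul_pos h3 h2) h1)
  · have hC0 : 0 ≤ ∏ a ∈ C, y a := prod_nonneg fun a _ => hy a
    rcases (L ∩ C.biUnion N).eq_empty_or_nonempty with he | ⟨b, hb'⟩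
    · have h1 : qXi w L C = qXi w L ∅ * w C := by
        unfold qXi
        rw [sum_mul]
        refine sum_congr rfl fun X hX => ?_
        have hXL := mem_powerset.1 hX
        rw [union_empty]
        refine hm X C (hC.mono_left hXL) fun c hc => disjoint_left.2 fun a ha ha' => ?_
        have : a ∈ L ∩ C.biUnion N := mem_inter.2 ⟨hXL ha, mem_biUnion.2 ⟨c, hc, ha'⟩⟩
        rw [he] at this
        exact notMem_empty a this
      rw [h1, he, prod_empty, mul_one, norm_mul, mul_comm]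
      exact mul_le_mul_of_nonneg_right (hb C) (norm_nonneg _)
    · have hbL := (mem_inter.1 hb').1
      have h1 := (ih _ (erase_ssubset hbL)).2 C (hC.mono_left (erase_subset b L))
      have h2 := step b hbL C hC
      have h3 := low b hbL
      have h4 : ∏ c ∈ L ∩ C.biUnion N, (1 + 3 * x c) =
          (∏ c ∈ L.erase b ∩ C.biUnion N, (1 + 3 * x c)) * (1 + 3 * x b) := by
        rw [erase_inter, prod_erase_mul _ _ hb']
      have h5 := norm_add_le (qXi w (L.erase b) C) (qXi w (L.erase b) (insert b C))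
      rw [← qXi_erase w C hbL] at h5
      have h6 : (1 + x b) * ‖qXi w (L.erase b) ∅‖ ≤ (1 + 3 * x b) * ‖qXi w L ∅‖ := by
        have k1 := hx b
        have k2 : 1 + x b ≤ (1 + 3 * x b) * (1 - x b) := by nlinarith [k1.1, k1.2]
        calc (1 + x b) * ‖qXi w (L.erase b) ∅‖
            ≤ (1 + 3 * x b) * (1 - x b) * ‖qXi w (L.erase b) ∅‖ :=
              mul_le_mul_of_nonneg_right k2 (norm_nonneg _)
          _ = (1 + 3 * x b) * ((1 - x b) * ‖qXi w (L.erase b) ∅‖) := by ring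
          _ ≤ _ := mul_le_mul_of_nonneg_left h3 (by have := k1.1; positivity)
      have h7 := mul_le_mul_of_nonneg_left h6
        (mul_nonneg hC0 (hp (L.erase b ∩ C.biUnion N)))
      rw [h4]
      nlinarith [h1, h2, h5, h7]

theorem polyQ {α : Type} [Fintype α] [DecidableEq α] (w : Finset α → ℂ) (N : α → Finset α)
    (x y : α → ℝ) (h0 : w ∅ = 1)
    (hm : ∀ X C, Disjoint X C → (∀ c ∈ C, Disjoint X (N c)) → w (X ∪ C) = w X * w C)
    (hb : ∀ X, ‖w X‖ ≤ ∏ a ∈ X, y a) (hx : ∀ a, 0 ≤ x a ∧ x a ≤ 1 / 3) (hy : ∀ a, 0 ≤ y a)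
    (h : ∀ a, y a * ∏ b ∈ N a, (1 + 3 * x b) ≤ x a) : ∑ X, w X ≠ 0 := by
  have := (q_main w N x y h0 hm hb hx hy h univ).1
  simpa [qXi] using this

theorem swap_sum {W Θ : Type} [Fintype W] [DecidableEq W] [Fintype Θ] (S : Finset W)
    (α β : W → Θ → ℂ) (G₁ G₂ H₁ H₂ : (W → Θ) → ℂ)
    (h : ∀ θ θ' : W → Θ, (∀ w, α w (θ w) ≠ 0) → (∀ w, β w (θ' w) ≠ 0) →
      G₁ θ * G₂ θ' = H₁ (S.piecewise θ θ') * H₂ (S.piecewise θ' θ)) :
    (∑ θ : W → Θ, (∏ w, α w (θ w)) * G₁ θ) * (∑ θ : W → Θ, (∏ w, β w (θ w)) * G₂ θ) =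
      (∑ θ : W → Θ, (∏ w, S.piecewise α β w (θ w)) * H₁ θ) *
        ∑ θ : W → Θ, (∏ w, S.piecewise β α w (θ w)) * H₂ θ := by
  rw [sum_mul_sum, sum_mul_sum, ← sum_product', ← sum_product', univ_product_univ]
  have hinv : Function.Involutive fun p : (W → Θ) × (W → Θ) =>
      (S.piecewise p.1 p.2, S.piecewise p.2 p.1) := by
    rintro ⟨θ, θ'⟩
    refine Prod.ext (funext fun w => ?_) (funext fun w => ?_) <;>
      by_cases hw : w ∈ S <;> simp [hw]
  refine Fintype.sum_bijective _ hinv.bijective _ _ ?_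
  rintro ⟨θ, θ'⟩
  dsimp only
  have h1 : (∏ w, S.piecewise α β w (S.piecewise θ θ' w)) *
      ∏ w, S.piecewise β α w (S.piecewise θ' θ w) = (∏ w, α w (θ w)) * ∏ w, β w (θ' w) := by
    rw [← prod_mul_distrib, ← prod_mul_distrib]
    refine prod_congr rfl fun w _ => ?_
    by_cases hw : w ∈ S
    · simp [hw]
    · simp [hw, mul_comm]
  rw [mul_mul_mul_comm, mul_mul_mul_comm (∏ w, S.piecewise α β w (S.piecewise θ θ' w)), h1]
  by_cases ha : ∀ w, α w (θ w) ≠ 0
  · by_cases hb : ∀ w, β w (θ' w) ≠ 0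
    · rw [h θ θ' ha hb]
    · obtain ⟨w, hw⟩ := not_forall.1 hb
      rw [prod_eq_zero (f := fun w => β w (θ' w)) (mem_univ w) (not_not.1 hw)]
      simp
  · obtain ⟨w, hw⟩ := not_forall.1 ha
    rw [prod_eq_zero (f := fun w => α w (θ w)) (mem_univ w) (not_not.1 hw)]
    simp

end Pool.Agent.MC.VB
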