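import Pool.Agent.P.MP_2677b3_gt.VbDefs
import Pool.Agent.P.MP_2677b3_gt.VbQ

/-! The polymer expansion: atoms, weights, the sum identity and multiplicativity. -/

namespace Pool.Agent.MC.VB

open Finset

/-- Atoms: spins at windows; bonds and children at junctions. -/
abbrev PolyAt (V W Θ : Type) (n : ℕ) := (W × Θ) ⊕ (V × Option (Fin n × Θ))

variable {V W Θ : Type} [Fintype V] [Fintype W] [Fintype Θ] [DecidableEq V] [DecidableEq W]
  [DecidableEq Θ] {n : ℕ}

/-- The fibre at a window. -/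
def polyFW (X : Finset (PolyAt V W Θ n)) (w : W) : Finset Θ :=
  univ.filter fun t => Sum.inl (w, t) ∈ X

/-- The fibre at a junction. -/
def polyFV (X : Finset (PolyAt V W Θ n)) (v : V) : Finset (Option (Fin n × Θ)) :=
  univ.filter fun o => Sum.inr (v, o) ∈ X

omit [Fintype V] [Fintype W] in
@[simp] theorem poly_memW {X : Finset (PolyAt V W Θ n)} {w : W} {t : Θ} :
    t ∈ polyFW X w ↔ Sum.inl (w, t) ∈ X := by simp [polyFW]

omit [Fintype V] [Fintype W] in
@[simp] theorem poly_memV {X : Finset (PolyAt V W Θ n)} {v : V} {o : Option (Fin n × Θ)} :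
    o ∈ polyFV X v ↔ Sum.inr (v, o) ∈ X := by simp [polyFV]

/-- A set of atoms is the family of its fibres. -/
def polyE : Finset (PolyAt V W Θ n) ≃ (W → Finset Θ) × (V → Finset (Option (Fin n × Θ))) where
  toFun X := (polyFW X, polyFV X)
  invFun p := univ.filter fun a => Sum.elim (fun b : W × Θ => decide (b.2 ∈ p.1 b.1))
    (fun b : V × Option (Fin n × Θ) => decide (b.2 ∈ p.2 b.1)) a = true
  left_inv X := by
    ext a
    rcases a with ⟨w, t⟩ | ⟨v, o⟩ <;> simp
  right_inv p := by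
    ext w t <;> simp

theorem poly_sum_fib (f : W → Finset Θ → ℂ) (g : V → Finset (Option (Fin n × Θ)) → ℂ) :
    ∑ X : Finset (PolyAt V W Θ n), (∏ w, f w (polyFW X w)) * ∏ v, g v (polyFV X v) =
      (∏ w, ∑ Y, f w Y) * ∏ v, ∑ Y, g v Y := by
  rw [Fintype.prod_sum, Fintype.prod_sum, Finset.sum_mul_sum, ← Fintype.sum_prod_type']
  exact Fintype.sum_equiv polyE _ _ fun X => rfl

theorem poly_prod_fib (X : Finset (PolyAt V W Θ n)) (f : PolyAt V W Θ n → ℝ) :
    ∏ a ∈ X, f a = (∏ w, ∏ t ∈ polyFW X w, f (Sum.inl (w, t))) *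
      ∏ v, ∏ o ∈ polyFV X v, f (Sum.inr (v, o)) := by
  have : ∏ a ∈ X, f a = ∏ a, if a ∈ X then f a else 1 := by
    rw [← Finset.prod_filter]; simp
  rw [this, Fintype.prod_sum_type, Fintype.prod_prod_type, Fintype.prod_prod_type]
  simp only [polyFW, polyFV, Finset.prod_filter]

/-- A function of a set that lives on the empty set and on the singletons. -/
noncomputable def polyF {O : Type} [Fintype O] [DecidableEq O] (a : ℂ) (r : O → ℂ)
    (Y : Finset O) : ℂ :=
  (if Y = ∅ then a else 0) + ∑ o, if Y = {o} then r o else 0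

section
variable {O : Type} [Fintype O] [DecidableEq O] (a : ℂ) (r : O → ℂ)

theorem polyF_empty : polyF a r ∅ = a := by
  simp [polyF, fun o : O => (Finset.singleton_ne_empty o).symm]

theorem polyF_single (o : O) : polyF a r {o} = r o := by simp [polyF]

theorem polyF_cases (Y : Finset O) : Y = ∅ ∨ (∃ o, Y = {o}) ∨ polyF a r Y = 0 := by
  by_cases h : Y = ∅
  · exact Or.inl h
  by_cases h' : ∃ o, Y = {o}
  · exact Or.inr (Or.inl h')
  · push Not at h'
    simp [polyF, h, h']

theorem polyF_zero {Y : Finset O} {o : O} (h : o ∈ Y) (hr : r o = 0) : polyF a r Y = 0 := by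
  rcases polyF_cases a r Y with rfl | ⟨o', rfl⟩ | h'
  · simp at h
  · rw [polyF_single, ← Finset.mem_singleton.1 h, hr]
  · exact h'

theorem polyF_sum : ∑ Y, polyF a r Y = a + ∑ o, r o := by
  simp only [polyF, Finset.sum_add_distrib]
  rw [Finset.sum_comm]
  simp

end

variable (win : V → Fin n → W) (lg : Θ → Prop) [DecidablePred lg] (q : Θ → ℝ) (ν : W → Θ → ℂ)
  (A ρ : V → (Fin n → Θ) → ℂ)

/-- The weight of a window. -/
noncomputable def polyL (Y : Finset Θ) (w : W) (t : Θ) : ℂ :=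
  if Y = (if lg t then {t} else ∅) then ν w t else 0

/-- The share of the remainder carried by a bond or a child. -/
noncomputable def polyR (v : V) (η : Fin n → Θ) : Option (Fin n × Θ) → ℂ
  | none => if ∀ i, ¬ lg (η i) then ρ v η else 0
  | some p => if lg p.2 ∧ p.2 = η p.1 then
      ρ v η * ((q p.2 / ∑ i with lg (η i), q (η i) : ℝ) : ℂ) else 0

/-- The weight of a junction. -/
noncomputable def polyP (v : V) (η : Fin n → Θ) (Y : Finset (Option (Fin n × Θ))) : ℂ :=
  polyF (A v η) (polyR lg q ρ v η) Y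

/-- The product of the junction weights. -/
noncomputable def polyG (X : Finset (PolyAt V W Θ n)) (θ : W → Θ) : ℂ :=
  ∏ v, polyP lg q A ρ v (fun i => θ (win v i)) (polyFV X v)

/-- The weight of a set of atoms. -/
noncomputable def polyW (X : Finset (PolyAt V W Θ n)) : ℂ :=
  ∑ θ : W → Θ, (∏ w, polyL lg ν (polyFW X w) w (θ w)) * polyG win lg q A ρ X θ

/-- The spins of `X` are the large values of `θ`. -/
def PolySup (X : Finset (PolyAt V W Θ n)) (θ : W → Θ) : Prop :=
  ∀ w s, Sum.inl (w, s) ∈ X ↔ s = θ w ∧ lg (θ w)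

omit [Fintype V] [Fintype W] in
theorem poly_sup {X : Finset (PolyAt V W Θ n)} {w : W} {t : Θ}
    (h : polyL lg ν (polyFW X w) w t ≠ 0) (s : Θ) : Sum.inl (w, s) ∈ X ↔ s = t ∧ lg t := by
  rw [← poly_memW]
  unfold polyL at h
  split_ifs at h with h1 h2 h2
  · simp [h2, h1]
  · simp at h
  · simp [h2, h1]
  · simp at h

omit [Fintype V] [Fintype W] [DecidableEq V] [DecidableEq W] in
theorem polyR_sum {q₀ : ℝ} (hq₀ : 0 < q₀) (hq : ∀ t, lg t → q₀ ≤ q t) (v : V) (η : Fin n → Θ) :
    ∑ o, polyR lg q ρ v η o = ρ v η := by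
  rw [Fintype.sum_option, Fintype.sum_prod_type]
  have h1 : ∀ i, ∑ t, polyR lg q ρ v η (some (i, t)) =
      if lg (η i) then ρ v η * ((q (η i) / ∑ i with lg (η i), q (η i) : ℝ) : ℂ) else 0 := by
    intro i
    rw [Finset.sum_eq_single (η i)]
    · simp [polyR]
    · intro t _ ht; simp [polyR, ht]
    · simp
  simp only [h1]
  by_cases h : ∀ i, ¬ lg (η i)
  · simp [polyR, h]
  · have hp : 0 < ∑ i with lg (η i), q (η i) := by
      push Not at h
      obtain ⟨i, hi⟩ := h
      exact Finset.sum_pos (fun j hj => hq₀.trans_le (hq _ (Finset.mem_filter.1 hj).2))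
        ⟨i, by simp [hi]⟩
    rw [← Finset.sum_filter, ← Finset.mul_sum, ← Complex.ofReal_sum, ← Finset.sum_div,
      div_self hp.ne']
    simp only [polyR, if_neg h]
    simp

theorem poly_total {q₀ : ℝ} (hq₀ : 0 < q₀) (hq : ∀ t, lg t → q₀ ≤ q t) :
    ∑ X, polyW win lg q ν A ρ X = ∑ θ : W → Θ, (∏ w, ν w (θ w)) *
      ∏ v, (A v (fun i => θ (win v i)) + ρ v fun i => θ (win v i)) := by
  unfold polyW polyG
  rw [Finset.sum_comm]
  refine Finset.sum_congr rfl fun θ _ => ?_
  rw [poly_sum_fib (fun w Y => polyL lg ν Y w (θ w))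
    fun v Y => polyP lg q A ρ v (fun i => θ (win v i)) Y]
  simp [polyL, polyP, polyF_sum, polyR_sum lg q ρ hq₀ hq]

omit [Fintype W] [DecidableEq W] in
theorem polyL_one (n1 : ∀ w, ∑ t with ¬ lg t, ν w t = 1) (w : W) :
    ∑ t, polyL lg ν ∅ w t = 1 := by
  rw [← n1 w, Finset.sum_filter]
  refine Finset.sum_congr rfl fun t _ => ?_
  by_cases h : lg t <;> simp [polyL, h, (Finset.singleton_ne_empty t).symm]

/-- The slots of a window. -/
def polySl (w : W) : Finset (V × Fin n) := univ.filter fun p : V × Fin n => win p.1 p.2 = w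

/-- The windows of an atom. -/
def polyS : PolyAt V W Θ n → Finset W
  | Sum.inl p => {p.1}
  | Sum.inr p => univ.image (win p.1)

/-- The junctions touched by an atom. -/
def polyT (a : PolyAt V W Θ n) : Finset V :=
  ((polyS win a).biUnion fun w => (polySl win w).image Prod.fst) ∪
    Sum.elim (fun _ => ∅) (fun p => {p.1}) a

/-- The children of a spin. -/
def polyCh : PolyAt V W Θ n → Finset (PolyAt V W Θ n)
  | Sum.inl p => (polySl win p.1).image fun s => Sum.inr (s.1, some (s.2, p.2))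
  | Sum.inr _ => ∅

/-- The neighbourhood of an atom. -/
def polyN (a : PolyAt V W Θ n) : Finset (PolyAt V W Θ n) :=
  ((polyT win a).image fun v => Sum.inr (v, none)) ∪
    ((polyT win a ×ˢ (univ : Finset (Fin n × Θ))).image fun p => Sum.inl (win p.1 p.2.1, p.2.2)) ∪
      polyCh win a

omit [Fintype W] [Fintype Θ] [DecidableEq Θ] in
theorem polyT_win {a : PolyAt V W Θ n} {v : V} {i : Fin n} (h : win v i ∈ polyS win a) :
    v ∈ polyT win a :=
  mem_union_left _ (mem_biUnion.2 ⟨_, h, mem_image.2 ⟨(v, i), by simp [polySl], rfl⟩⟩)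

omit [Fintype W] in
theorem poly_loc (a1 : ∀ v η η', (∀ i, lg (η i) ∨ lg (η' i) → η i = η' i) → A v η = A v η')
    (a2 : ∀ v η, (∀ i, ¬ lg (η i)) → A v η = 1) {X C : Finset (PolyAt V W Θ n)}
    (hN : ∀ c ∈ C, Disjoint X (polyN win c)) {θ θ' : W → Θ} (sC : PolySup lg C θ)
    (sX : PolySup lg X θ') (v : V) :
    polyP lg q A ρ v (fun i => θ (win v i)) (polyFV C v) *
      polyP lg q A ρ v (fun i => θ' (win v i)) (polyFV X v) =
    polyP lg q A ρ v (fun i => (C.biUnion (polyS win)).piecewise θ θ' (win v i))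
      (polyFV (X ∪ C) v) := by
  have f1 : ∀ w, lg (θ w) → w ∈ C.biUnion (polyS win) := fun w h =>
    mem_biUnion.2 ⟨_, (sC w _).2 ⟨rfl, h⟩, by simp [polyS]⟩
  have hU : polyFV (X ∪ C) v = polyFV X v ∪ polyFV C v := by ext o; simp
  by_cases ht : ∃ c ∈ C, v ∈ polyT win c
  · obtain ⟨c, hc, hv⟩ := ht
    have g1 : Sum.inr (v, none) ∉ X := fun h => Finset.disjoint_left.1 (hN c hc) h
      (mem_union_left _ (mem_union_left _ (mem_image.2 ⟨v, hv, rfl⟩)))
    have g2 : ∀ i, ¬ lg (θ' (win v i)) := fun i h => Finset.disjoint_left.1 (hN c hc)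
      ((sX _ _).2 ⟨rfl, h⟩) (mem_union_left _ (mem_union_right _
        (mem_image.2 ⟨(v, i, θ' (win v i)), by simp [hv], rfl⟩)))
    rcases (polyFV X v).eq_empty_or_nonempty with hX | ⟨o, ho⟩
    · rw [hU, hX, empty_union]
      unfold polyP
      rw [polyF_empty, a2 v _ g2, mul_one]
      rcases (polyFV C v).eq_empty_or_nonempty with hC | ⟨o, ho⟩
      · rw [hC, polyF_empty, polyF_empty]
        refine a1 _ _ _ fun i hi => ?_
        by_cases hs : win v i ∈ C.biUnion (polyS win)
        · rw [piecewise_eq_of_mem _ _ _ hs]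
        · rw [piecewise_eq_of_notMem _ _ _ hs] at hi
          exact absurd hi (not_or.2 ⟨fun h => hs (f1 _ h), g2 i⟩)
      · have : (fun i => (C.biUnion (polyS win)).piecewise θ θ' (win v i)) =
            fun i => θ (win v i) := funext fun i => piecewise_eq_of_mem _ _ _
          (mem_biUnion.2 ⟨_, poly_memV.1 ho, by simp [polyS]⟩)
        rw [this]
    · rcases o with _ | ⟨i, t⟩
      · exact absurd (poly_memV.1 ho) g1
      unfold polyP
      have ho' : some (i, t) ∈ polyFV (X ∪ C) v := hU ▸ mem_union_left _ ho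
      rw [polyF_zero _ _ ho, polyF_zero _ _ ho', mul_zero]
      · refine if_neg fun ⟨h1, h2⟩ => ?_
        by_cases hs : win v i ∈ C.biUnion (polyS win)
        · simp only [piecewise_eq_of_mem _ _ _ hs] at h1 h2
          refine Finset.disjoint_left.1 (hN _ ((sC (win v i) t).2 ⟨h2, h2 ▸ h1⟩))
            (poly_memV.1 ho) (mem_union_right _ (mem_image.2 ⟨(v, i), by simp [polySl], rfl⟩))
        · simp only [piecewise_eq_of_notMem _ _ _ hs] at h1 h2
          exact g2 i (h2 ▸ h1)
      · exact if_neg fun ⟨h1, h2⟩ => g2 i (by simp only at h1 h2; exact h2 ▸ h1)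
  · have g1 : ∀ i, win v i ∉ C.biUnion (polyS win) := fun i h => by
      obtain ⟨c, hc, h⟩ := mem_biUnion.1 h
      exact ht ⟨c, hc, polyT_win win h⟩
    have hC : polyFV C v = ∅ := eq_empty_of_forall_notMem fun o ho =>
      ht ⟨_, poly_memV.1 ho, mem_union_right _ (by simp)⟩
    have : (fun i => (C.biUnion (polyS win)).piecewise θ θ' (win v i)) =
        fun i => θ' (win v i) := funext fun i => piecewise_eq_of_notMem _ _ _ (g1 i)
    rw [this, hU, hC, union_empty]
    unfold polyP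
    rw [polyF_empty, a2 v _ fun i h => g1 i (f1 _ h), one_mul]

omit [DecidableEq Θ] in
theorem poly_one (f : W → Θ → ℂ) (h : ∀ w, ∑ t, f w t = 1) :
    ∑ θ : W → Θ, (∏ w, f w (θ w)) * 1 = 1 := by
  simp only [mul_one]
  rw [← Fintype.prod_sum f]
  simp [h]

theorem poly_empty (n1 : ∀ w, ∑ t with ¬ lg t, ν w t = 1)
    (a2 : ∀ v η, (∀ i, ¬ lg (η i)) → A v η = 1) : polyW win lg q ν A ρ ∅ = 1 := by
  rw [← poly_one (fun w t => polyL lg ν ∅ w t) (polyL_one lg ν n1)]
  refine Finset.sum_congr rfl fun θ _ => ?_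
  have e1 : ∀ w, polyFW (∅ : Finset (PolyAt V W Θ n)) w = ∅ := fun w => by ext; simp
  have e2 : ∀ v, polyFV (∅ : Finset (PolyAt V W Θ n)) v = ∅ := fun w => by ext; simp
  by_cases h : ∀ w, ¬ lg (θ w)
  · simp only [polyG, polyP, e1, e2, polyF_empty]
    rw [Finset.prod_eq_one (f := fun v => A v _) fun v _ => a2 v _ fun i => h _]
  · push Not at h
    obtain ⟨w, hw⟩ := h
    have : ∏ w, polyL lg ν ∅ w (θ w) = 0 := Finset.prod_eq_zero (mem_univ w)
      (by simp [polyL, hw, (Finset.singleton_ne_empty _).symm])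
    simp [e1, this]

theorem poly_mul {ω : ℕ} (hw : Win win ω) (hω : 0 < ω) (n1 : ∀ w, ∑ t with ¬ lg t, ν w t = 1)
    (a1 : ∀ v η η', (∀ i, lg (η i) ∨ lg (η' i) → η i = η' i) → A v η = A v η')
    (a2 : ∀ v η, (∀ i, ¬ lg (η i)) → A v η = 1) (X C : Finset (PolyAt V W Θ n))
    (hN : ∀ c ∈ C, Disjoint X (polyN win c)) :
    polyW win lg q ν A ρ (X ∪ C) = polyW win lg q ν A ρ X * polyW win lg q ν A ρ C := by
  have key := swap_sum (C.biUnion (polyS win)) (fun w => polyL lg ν (polyFW C w) w)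
    (fun w => polyL lg ν (polyFW X w) w) (polyG win lg q A ρ C) (polyG win lg q A ρ X)
    (polyG win lg q A ρ (X ∪ C)) (fun _ => 1) fun θ θ' h1 h2 => by
      rw [mul_one]
      unfold polyG
      rw [← Finset.prod_mul_distrib]
      exact Finset.prod_congr rfl fun v _ => poly_loc win lg q A ρ a1 a2 hN
        (fun w => poly_sup lg ν (h1 w)) (fun w => poly_sup lg ν (h2 w)) v
  have e1 : ∀ w ∈ C.biUnion (polyS win), polyFW X w = ∅ := fun w h => by
    obtain ⟨c, hc, h⟩ := mem_biUnion.1 h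
    obtain ⟨⟨v, i⟩, hp⟩ := card_pos.1 (hω.trans_le (hw.size w).1)
    have hp : win v i = w := (mem_filter.1 hp).2
    subst hp
    exact eq_empty_of_forall_notMem fun t ht => Finset.disjoint_left.1 (hN c hc) (poly_memW.1 ht)
      (mem_union_left _ (mem_union_right _
        (mem_image.2 ⟨(v, i, t), by simp [polyT_win win h], rfl⟩)))
  have e2 : ∀ w ∉ C.biUnion (polyS win), polyFW C w = ∅ := fun w h =>
    eq_empty_of_forall_notMem fun t ht => h (mem_biUnion.2 ⟨_, poly_memW.1 ht, by simp [polyS]⟩)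
  have e3 : ∀ w, polyFW (X ∪ C) w = polyFW X w ∪ polyFW C w := fun w => by ext; simp
  have e4 : (C.biUnion (polyS win)).piecewise (fun w => polyL lg ν (polyFW C w) w)
      (fun w => polyL lg ν (polyFW X w) w) = fun w => polyL lg ν (polyFW (X ∪ C) w) w := by
    funext w
    by_cases h : w ∈ C.biUnion (polyS win)
    · rw [piecewise_eq_of_mem _ _ _ h, e3, e1 w h, empty_union]
    · rw [piecewise_eq_of_notMem _ _ _ h, e3, e2 w h, union_empty]
  have e5 : (C.biUnion (polyS win)).piecewise (fun w => polyL lg ν (polyFW X w) w)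
      (fun w => polyL lg ν (polyFW C w) w) = fun w => polyL lg ν ∅ w := by
    funext w
    by_cases h : w ∈ C.biUnion (polyS win)
    · rw [piecewise_eq_of_mem _ _ _ h, e1 w h]
    · rw [piecewise_eq_of_notMem _ _ _ h, e2 w h]
  rw [e4, e5, poly_one _ (polyL_one lg ν n1), mul_one] at key
  rw [mul_comm]
  exact key.symm

end Pool.Agent.MC.VB
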