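import Pool.Agent.P.MP_2677b3_gt.VbDefs
import Pool.Agent.P.MP_2677b3_gt.GeDisp

/-! Thin sets of concyclic quadruples, through the cross ratio. -/

open Equiv UpperHalfPlane Filter Topology
open scoped MatrixGroups ComplexConjugate

namespace Pool.Agent.MC.VB

open Ge

theorem thin_of (N S : ℂ → ℂ) (hN : Differentiable ℂ N) (hS : Differentiable ℂ S) (z₀ w : ℂ)
    (h0 : N z₀ = 0) (h1 : S z₀ ≠ 0) (h2 : N w ≠ 0) {B : Set ℍ}
    (hB : ∀ x ∈ B, (N x * conj (S x)).im = 0) : Thin B := by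
  let e : ℝ × ℝ →L[ℝ] ℂ := Complex.equivRealProdCLM.symm
  refine ⟨fun p => (N (e p) * conj (S (e p))).im, fun p _ => ?_, ?_, fun x hx => hB x hx⟩
  · have a1 : AnalyticAt ℝ (fun p => N (e p)) p :=
      (hN.analyticAt (e p)).restrictScalars.comp (e.analyticAt p)
    have a2 : AnalyticAt ℝ (fun p => S (e p)) p :=
      (hS.analyticAt (e p)).restrictScalars.comp (e.analyticAt p)
    exact (Complex.imCLM.analyticAt _).comp
      (a1.mul (((Complex.conjCLE : ℂ →L[ℝ] ℂ).analyticAt _).comp a2))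
  · by_contra h
    push Not at h
    have h3 : ∀ z, (N z / S z).im = 0 := fun z => by
      have h4 : (N z * conj (S z)).im = 0 := h (z.re, z.im)
      rw [div_eq_mul_inv, Complex.inv_def, ← mul_assoc, Complex.im_mul_ofReal, h4, zero_mul]
    rcases ((hN.analyticAt z₀).div (hS.analyticAt z₀) h1).eventually_constant_or_nhds_le_map_nhds
      with h4 | h4
    · have h5 : N =ᶠ[𝓝 z₀] 0 := by
        filter_upwards [h4, hS.continuous.continuousAt.eventually_ne h1] with z h6 h7
        simpa [h0, h7] using h6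
      exact h2 (AnalyticOnNhd.eqOn_zero_of_preconnected_of_eventuallyEq_zero
        (hN.differentiableOn.analyticOnNhd isOpen_univ) isPreconnected_univ (Set.mem_univ z₀) h5
        (Set.mem_univ w))
    · have h5 : {z : ℂ | z.im = 0} ∈ 𝓝 ((N / S) z₀) := h4 (mem_map.2 (univ_mem' h3))
      have h6 := (Complex.isOpenMap_im.image_mem_nhds h5)
      have h7 : Complex.im '' {z : ℂ | z.im = 0} ⊆ {0} := by rintro _ ⟨z, hz, rfl⟩; exact hz
      exact (infinite_of_mem_nhds _ h6) ((Set.finite_singleton _).subset h7)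

theorem thin_circ {a b c d : ℍ} (h : Cyc a b c d) : ∃ (o : ℂ) (r : ℝ), r < o.im ^ 2 ∧
    Complex.normSq (a - o) = r ∧ Complex.normSq (b - o) = r ∧ Complex.normSq (c - o) = r ∧
      Complex.normSq (d - o) = r := by
  obtain ⟨z, h1, h2, h3⟩ := h
  have key : ∀ p : ℍ, dist z a = dist z p → Complex.normSq (p - z.center (dist z a)) =
      (z.im * Real.sinh (dist z a)) ^ 2 := fun p hp => by
    rw [Complex.normSq_eq_norm_sq, ← dist_eq_norm,
      dist_eq_iff_dist_coe_center_eq.1 (by rw [hp, dist_comm])]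
  refine ⟨z.center (dist z a), _, ?_, key a rfl, key b h1, key c h2, key d h3⟩
  rw [coe_im, center_im, mul_pow, mul_pow, Real.cosh_sq]
  have := z.im_pos
  nlinarith [sq_pos_of_pos this]

theorem thin_cr {a b c d o : ℂ} {r : ℝ} (ha : Complex.normSq (a - o) = r)
    (hb : Complex.normSq (b - o) = r) (hc : Complex.normSq (c - o) = r)
    (hd : Complex.normSq (d - o) = r) (D : ℂ) :
    ((a - b) * (c - d) * D * conj ((a - d) * (b - c) * D)).im = 0 := by
  have e : (a - b) * (c - d) * D * conj ((a - d) * (b - c) * D) =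
      (Complex.normSq D : ℝ) * (((a - o) - (b - o)) * ((c - o) - (d - o)) *
        conj (((a - o) - (d - o)) * ((b - o) - (c - o)))) := by
    rw [← Complex.mul_conj]
    simp only [map_mul, sub_sub_sub_cancel_right]
    ring
  rw [e, Complex.im_ofReal_mul]
  refine mul_eq_zero_of_right _ ?_
  generalize a - o = a at *
  generalize b - o = b at *
  generalize c - o = c at *
  generalize d - o = d at *
  by_cases hr : r = 0
  · subst hr
    rw [Complex.normSq_eq_zero] at ha hb
    simp [ha, hb]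
  · have key : ∀ v : ℂ, Complex.normSq v = r → v ≠ 0 ∧ conj v = r / v := fun v hv => by
      have h0 : v ≠ 0 := by rintro rfl; exact hr (by simpa using hv.symm)
      exact ⟨h0, by rw [eq_div_iff h0, mul_comm, Complex.mul_conj, hv]⟩
    obtain ⟨a0, a1⟩ := key a ha
    obtain ⟨b0, b1⟩ := key b hb
    obtain ⟨c0, c1⟩ := key c hc
    obtain ⟨d0, d1⟩ := key d hd
    rw [← Complex.conj_eq_iff_im, map_mul, Complex.conj_conj]
    simp only [map_mul, map_sub, a1, b1, c1, d1]
    field_simp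
    ring

theorem thin_congr {p q p' q' : ℂ} (h : (p * conj q).im = 0) (e : p' = p) (e' : q' = q) :
    (p' * conj q').im = 0 := by rw [e, e', h]

/-- Numerator of a Moebius map. -/
def thinN (A : SL(2, ℝ)) (z : ℂ) : ℂ := (A 0 0 : ℝ) * z + (A 0 1 : ℝ)

/-- Denominator of a Moebius map. -/
def thinD (A : SL(2, ℝ)) (z : ℂ) : ℂ := (A 1 0 : ℝ) * z + (A 1 1 : ℝ)

theorem thin_den (A : SL(2, ℝ)) (z : ℍ) : thinD A z ≠ 0 := denom_ne_zero A z

theorem thin_num (A : SL(2, ℝ)) (z : ℍ) : thinN A z = (A • z : ℍ) * thinD A z := by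
  rw [coe_specialLinearGroup_apply]
  exact (div_mul_cancel₀ _ (thin_den A z)).symm

theorem thin_ne {A : SL(2, ℝ)} (hA : 4 < (A 0 0 + A 1 1) ^ 2) (z : ℍ) : A • z ≠ z := by
  intro h
  have h1 := disp_formula A z
  rw [h, dist_self, Real.cosh_zero] at h1
  nlinarith [sq_nonneg ((A 1 0 * (z.re ^ 2 + z.im ^ 2) + (A 1 1 - A 0 0) * z.re - A 0 1) / z.im)]

theorem thin_sub {a b : ℍ} (h : a ≠ b) : (a : ℂ) - b ≠ 0 :=
  sub_ne_zero.2 fun e => h (UpperHalfPlane.ext e)

theorem thin1 {a b c : ℍ} (h1 : a ≠ b) (h2 : a ≠ c) (h3 : b ≠ c) : Thin {x | Cyc x a b c} := by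
  refine thin_of (fun z => (z - a) * (b - c)) (fun z => (z - c) * (a - b)) (by fun_prop)
    (by fun_prop) a b (by simp) (mul_ne_zero (thin_sub h2) (thin_sub h1))
    (mul_ne_zero (thin_sub h1.symm) (thin_sub h3)) fun x hx => ?_
  obtain ⟨o, r, -, e1, e2, e3, e4⟩ := thin_circ hx
  simpa only [mul_one] using thin_cr e1 e2 e3 e4 1

theorem thin2 (A : SL(2, ℝ)) (hA : 4 < (A 0 0 + A 1 1) ^ 2) {a b : ℍ} (h : a ≠ b) :
    Thin {x | Cyc x (A • x) a b} := by
  refine thin_of (fun z => (z - a) * (thinN A z - b * thinD A z))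
    (fun z => (z - b) * (a * thinD A z - thinN A z)) (by unfold thinN thinD; fun_prop)
    (by unfold thinN thinD; fun_prop) a b (by simp) (mul_ne_zero (thin_sub h) ?_)
    (mul_ne_zero (thin_sub h.symm) ?_) fun x hx => ?_
  · rw [thin_num, ← sub_mul]
    exact mul_ne_zero (thin_sub (thin_ne hA a).symm) (thin_den A a)
  · rw [thin_num, ← sub_mul]
    exact mul_ne_zero (thin_sub (thin_ne hA b)) (thin_den A b)
  · obtain ⟨o, r, -, e1, e2, e3, e4⟩ := thin_circ hx
    simpa only [thin_num, ← sub_mul, mul_assoc] using thin_cr e1 e3 e2 e4 (thinD A x)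

theorem thin3 (A B : SL(2, ℝ)) (hA : 4 < (A 0 0 + A 1 1) ^ 2) (hB : 4 < (B 0 0 + B 1 1) ^ 2)
    (hC : 4 < ((A⁻¹ * B) 0 0 + (A⁻¹ * B) 1 1) ^ 2) (a : ℍ) :
    Thin {x | Cyc x (A • x) (B • x) a} := by
  have e : ∀ z : ℍ, thinN A z * thinD B z - thinN B z * thinD A z =
      ((A • z : ℍ) - (B • z : ℍ)) * (thinD A z * thinD B z) := fun z => by
    rw [thin_num, thin_num]; ring
  refine thin_of (fun z => (z - a) * (thinN A z * thinD B z - thinN B z * thinD A z))
    (fun z => (z * thinD B z - thinN B z) * (a * thinD A z - thinN A z))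
    (by unfold thinN thinD; fun_prop) (by unfold thinN thinD; fun_prop) a (A • a : ℍ) (by simp)
    (mul_ne_zero ?_ ?_) (mul_ne_zero (thin_sub (thin_ne hA a)) ?_) fun x hx => ?_
  · rw [thin_num, ← sub_mul]
    exact mul_ne_zero (thin_sub (thin_ne hB a).symm) (thin_den B a)
  · rw [thin_num, ← sub_mul]
    exact mul_ne_zero (thin_sub (thin_ne hA a).symm) (thin_den A a)
  · rw [e]
    refine mul_ne_zero (thin_sub fun h => thin_ne hC (A • a) ?_)
      (mul_ne_zero (thin_den _ _) (thin_den _ _))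
    rw [mul_smul, ← h, inv_smul_smul]
  · obtain ⟨o, r, -, e1, e2, e3, e4⟩ := thin_circ hx
    have := thin_cr e1 e4 e2 e3 (thinD A x * thinD B x)
    simp only [e]
    simp only [thin_num]
    exact thin_congr this (by ring) (by ring)

end Pool.Agent.MC.VB
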