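import Pool.Agent.P.MP_2677b3_gt.VbThin

/-! Four points of one orbit on a circle. -/

open Equiv UpperHalfPlane
open scoped MatrixGroups ComplexConjugate

namespace Pool.Agent.MC.VB

open Ge

/-- The vector `(x, 1)` is an eigenvector with eigenvalue `e`. -/
def ThinE (x : ℝ) (A : SL(2, ℝ)) (e : ℝ) : Prop :=
  A 0 0 * x + A 0 1 = e * x ∧ A 1 0 * x + A 1 1 = e

theorem ThinE.tr {x e : ℝ} {A : SL(2, ℝ)} (h : ThinE x A e) : (A 0 0 + A 1 1) * e = e ^ 2 + 1 := by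
  linear_combination disp_det A - A 0 0 * h.2 + A 1 0 * h.1 + e * h.2

theorem ThinE.ne {x e : ℝ} {A : SL(2, ℝ)} (h : ThinE x A e) : e ≠ 0 := by
  rintro rfl
  simpa using h.tr

theorem ThinE.mul {x e f : ℝ} {A B : SL(2, ℝ)} (h : ThinE x A e) (h' : ThinE x B f) :
    ThinE x (A * B) (e * f) := by
  simp only [ThinE, Matrix.SpecialLinearGroup.coe_mul, Matrix.mul_apply, Fin.sum_univ_two]
  exact ⟨by linear_combination A 0 0 * h'.1 + A 0 1 * h'.2 + f * h.1,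
    by linear_combination A 1 0 * h'.1 + A 1 1 * h'.2 + f * h.2⟩

theorem ThinE.inv {x e : ℝ} {A : SL(2, ℝ)} (h : ThinE x A e) : ThinE x A⁻¹ e⁻¹ := by
  have h0 := h.ne
  rw [Matrix.SpecialLinearGroup.SL2_inv_expl]
  refine ⟨?_, ?_⟩
  · show A 1 1 * x + -A 0 1 = e⁻¹ * x
    field_simp
    linear_combination x * disp_det A - A 1 1 * h.1 + A 0 1 * h.2
  · show -A 1 0 * x + A 0 0 = e⁻¹
    field_simp
    linear_combination disp_det A + A 1 0 * h.1 - A 0 0 * h.2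

theorem ThinE.sq_ne {x e : ℝ} {A : SL(2, ℝ)} (h : ThinE x A e) (hA : 4 < (A 0 0 + A 1 1) ^ 2) :
    e ^ 2 ≠ 1 := fun h1 => by
  have h2 : ((A 0 0 + A 1 1) * e) ^ 2 = 4 := by rw [h.tr, h1]; norm_num
  rw [mul_pow, h1] at h2
  linarith

theorem thin4_fix {A : SL(2, ℝ)} (hA : 4 < (A 0 0 + A 1 1) ^ 2) : ∃ x e, ThinE x A e := by
  have hd := disp_det A
  by_cases hc : A 1 0 = 0
  · have h1 : A 1 1 - A 0 0 ≠ 0 := fun h => by
      rw [hc] at hd
      have : A 1 1 = A 0 0 := by linarith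
      rw [this] at hA hd
      nlinarith
    refine ⟨A 0 1 / (A 1 1 - A 0 0), A 1 1, ?_, by rw [hc]; ring⟩
    field_simp
    ring
  · obtain ⟨s, hs⟩ : ∃ s : ℝ, s ^ 2 = (A 0 0 + A 1 1) ^ 2 - 4 :=
      ⟨√_, Real.sq_sqrt (by linarith)⟩
    refine ⟨(A 0 0 - A 1 1 + s) / (2 * A 1 0), (A 0 0 + A 1 1 + s) / 2, ?_, ?_⟩
    · field_simp
      linear_combination -hs - 4 * hd
    · field_simp
      ring

theorem thin4_sub (x : ℝ) (z : ℍ) : (z : ℂ) - x ≠ 0 := fun h => by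
  have := congrArg Complex.im h
  simp only [Complex.sub_im, Complex.ofReal_im, sub_zero, Complex.zero_im] at this
  exact z.im_ne_zero this

theorem ThinE.aff {x e : ℝ} {A : SL(2, ℝ)} (h : ThinE x A e) (z : ℍ) :
    (((A • z : ℍ) : ℂ) - x)⁻¹ = (e ^ 2 : ℝ) * ((z : ℂ) - x)⁻¹ + (e * A 1 0 : ℝ) := by
  have h1 := thin_num A z
  have h2 := thin4_sub x z
  have h3 := thin4_sub x (A • z)
  have h4 := thin_den A z
  have e1 : ((A 0 0 : ℝ) : ℂ) * x + (A 0 1 : ℝ) = e * x := by exact_mod_cast h.1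
  have e2 : ((A 1 0 : ℝ) : ℂ) * x + (A 1 1 : ℝ) = e := by exact_mod_cast h.2
  have e3 : ((A 0 0 : ℝ) : ℂ) * (A 1 1 : ℝ) - (A 0 1 : ℝ) * (A 1 0 : ℝ) = 1 := by
    exact_mod_cast disp_det A
  have h5 : (((A • z : ℍ) : ℂ) - x) * (e * thinD A z) = z - x := by
    rw [sub_mul, mul_left_comm, ← h1]
    unfold thinN thinD
    linear_combination ((z : ℂ) - x) * e3 - (((z : ℂ) - x) * (A 0 0 : ℝ) - e) * e2 +
      (((z : ℂ) - x) * (A 1 0 : ℝ) + e) * e1 - 2 * e * e2 + e * (1 - x) * e2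
  have h6 : e * thinD A z = (e ^ 2 : ℝ) + (e * A 1 0 : ℝ) * ((z : ℂ) - x) := by
    unfold thinD
    push_cast
    linear_combination e * e2
  rw [h6] at h5
  field_simp
  linear_combination -h5

theorem thin4_line {x e f r : ℝ} {A D : SL(2, ℝ)} (h : ThinE x A e) (h' : ThinE x D f)
    (he : e ^ 2 ≠ 1) (hc : ∀ z : ℍ, A • D • z = D • A • z) {p : ℍ} {o : ℂ} (ho : r < o.im ^ 2)
    (e1 : Complex.normSq (p - o) = r) (e2 : Complex.normSq ((A • p : ℍ) - o) = r)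
    (e3 : Complex.normSq ((D • p : ℍ) - o) = r) (n1 : A • p ≠ p) (n2 : D • p ≠ p)
    (n3 : A • p ≠ D • p) : False := by
  have key : ∀ q : ℍ, Complex.normSq (q - o) = r → 1 - 2 * ((o - x) * ((q : ℂ) - x)⁻¹).re +
      (Complex.normSq (o - x) - r) * Complex.normSq ((q : ℂ) - x)⁻¹ = 0 := fun q hq => by
    have h1 := thin4_sub x q
    have h2 : (1 : ℂ) - (o - x) * ((q : ℂ) - x)⁻¹ = (q - o) * ((q : ℂ) - x)⁻¹ := by
      field_simp; ring
    have h3 := congrArg Complex.normSq h2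
    rw [Complex.normSq_sub, one_mul, Complex.conj_re, map_mul, map_mul, hq, map_one] at h3
    linarith
  have inj : ∀ q q' : ℍ, ((q : ℂ) - x)⁻¹ = ((q' : ℂ) - x)⁻¹ → q = q' := fun q q' hq =>
    UpperHalfPlane.ext (sub_left_injective (inv_injective hq))
  have hcom : (e ^ 2 - 1) * (f * D 1 0) = (f ^ 2 - 1) * (e * A 1 0) := by
    have h1 := h.aff (D • p)
    rw [hc, h'.aff, h'.aff, h.aff] at h1
    have h2 := congrArg Complex.re h1
    simp only [Complex.add_re, Complex.re_ofReal_mul, Complex.ofReal_re] at h2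
    linarith
  have k1 := key p e1
  have k2 := key _ e2
  have k3 := key _ e3
  have a2 := h.aff p
  have a3 := h'.aff p
  have he' : e ^ 2 - 1 ≠ 0 := sub_ne_zero.2 he
  set s := (f ^ 2 - 1) / (e ^ 2 - 1) with hs
  have hκ : Complex.normSq (o - x) - r ≠ 0 := by
    rw [Complex.normSq_apply]
    simp only [Complex.sub_im, Complex.ofReal_im, sub_zero]
    nlinarith [mul_self_nonneg (o - x).re]
  have m1 := mt (inj _ _) n1
  have m2 := mt (inj _ _) n2
  have m3 := mt (inj _ _) n3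
  generalize ((p : ℂ) - x)⁻¹ = ζ at *
  obtain ⟨v, hv⟩ : ∃ v, (((A • p : ℍ) : ℂ) - x)⁻¹ = ζ + v := ⟨_, (add_sub_cancel _ _).symm⟩
  have a4 : (((D • p : ℍ) : ℂ) - x)⁻¹ = ζ + s * v := by
    have h1 : (s : ℂ) * ((e ^ 2 : ℝ) - 1) = (f ^ 2 : ℝ) - 1 := by
      exact_mod_cast div_mul_cancel₀ _ he'
    have h2 : (s : ℂ) * (e * A 1 0 : ℝ) = (f * D 1 0 : ℝ) := by
      have : s * (e * A 1 0) = f * D 1 0 := by
        rw [hs, div_mul_eq_mul_div, div_eq_iff he']; linarith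
      exact_mod_cast this
    linear_combination a3 - ζ * h1 - h2 + s * (a2.symm.trans hv)
  rw [hv] at k2 m1 m3
  rw [a4] at k3 m2 m3
  have v0 : v ≠ 0 := fun h0 => m1 (by rw [h0, add_zero])
  have s0 : s ≠ 0 := fun h0 => m2 (by rw [h0]; simp)
  have s1 : s - 1 ≠ 0 := fun h0 => m3 (by rw [sub_eq_zero.1 h0]; simp)
  refine mul_ne_zero (mul_ne_zero hκ (Complex.normSq_pos.2 v0).ne') (mul_ne_zero s0 s1) ?_
  generalize Complex.normSq (o - x) - r = κ at *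
  generalize o - x = g at *
  simp only [Complex.normSq_apply, Complex.mul_re, Complex.mul_im, Complex.add_re, Complex.add_im,
    Complex.ofReal_re, Complex.ofReal_im] at k1 k2 k3 ⊢
  linear_combination k3 - s * k2 - (1 - s) * k1

theorem thin4 {G : Subgroup (Perm ℍ)} {ε : ℝ} (hε : 0 < ε) (hG : Fuchs G ε) {a b c : Perm ℍ}
    (ha : a ∈ G) (hb : b ∈ G) (hc : c ∈ G) (a1 : a ≠ 1) (b1 : b ≠ 1) (c1 : c ≠ 1) (h1 : a ≠ b)
    (h2 : a ≠ c) (h3 : b ≠ c) : Thin {x | Cyc x (a x) (b x) (c x)} := by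
  have hyp : ∀ g ∈ G, g ≠ 1 → ∀ X : SL(2, ℝ), (∀ z : ℍ, g z = X • z) →
      4 < (X 0 0 + X 1 1) ^ 2 := fun g hg g1 X hX => by
    have := tr_big hε X fun z => hX z ▸ hG.thick g hg g1 z
    linarith [Real.one_lt_cosh.2 hε.ne']
  have dis : ∀ g ∈ G, ∀ g' ∈ G, g ≠ g' → ∀ z, g z ≠ g' z := fun g hg g' hg' h z e =>
    h (eq_of_inv_mul_eq_one (fuchs_one hG (G.mul_mem (G.inv_mem hg) hg') (z := z) (by
      rw [Perm.mul_apply, ← e, Perm.inv_eq_iff_eq.2 rfl, dist_self]; exact hε)))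
  obtain ⟨A, hA⟩ := hG.mob a ha
  obtain ⟨B, hB⟩ := hG.mob b hb
  obtain ⟨C, hC⟩ := hG.mob c hc
  have tA := hyp a ha a1 A hA
  obtain ⟨x, e, hx⟩ := thin4_fix tA
  have emp : ∀ d ∈ G, d ≠ 1 → a ≠ d → ∀ D : SL(2, ℝ), (∀ z : ℍ, d z = D • z) →
      ∀ f, ThinE x D f → ∀ (p : ℍ) (o : ℂ) (r : ℝ), r < o.im ^ 2 → Complex.normSq (p - o) = r →
        Complex.normSq (a p - o) = r → Complex.normSq (d p - o) = r → False := by
    intro d hd d1 had D hD f hf p o r ho e1 e2 e3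
    have hm := (hx.mul hf).mul (hf.mul hx).inv
    rw [mul_comm f e, mul_inv_cancel₀ (hx.mul hf).ne] at hm
    have hk : a * d * (d * a)⁻¹ = 1 := by
      by_contra hk
      have h4 := hyp _ (G.mul_mem (G.mul_mem ha hd) (G.inv_mem (G.mul_mem hd ha))) hk
        (A * D * (D * A)⁻¹) fun z => by
          obtain ⟨w, rfl⟩ := (d * a).surjective z
          rw [Perm.mul_apply, Perm.inv_eq_iff_eq.2 rfl, Perm.mul_apply, Perm.mul_apply, hA, hD,
            hD, hA, ← mul_smul D A, mul_smul _ _⁻¹, inv_smul_smul, mul_smul]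
      exact hm.sq_ne h4 (one_pow 2)
    refine thin4_line hx hf (hx.sq_ne tA) (fun z => ?_) ho e1 (hA p ▸ e2) (hD p ▸ e3)
      (hA p ▸ dis a ha 1 G.one_mem a1 p) (hD p ▸ dis d hd 1 G.one_mem d1 p)
      (hA p ▸ hD p ▸ dis a ha d hd had p)
    rw [← hD, ← hA, ← hA, ← hD, ← Perm.mul_apply, mul_inv_eq_one.1 hk, Perm.mul_apply]
  have x1 : ((A 0 0 : ℝ) : ℂ) * x + (A 0 1 : ℝ) = e * x := by exact_mod_cast hx.1
  have x2 : ((A 1 0 : ℝ) : ℂ) * x + (A 1 1 : ℝ) = e := by exact_mod_cast hx.2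
  have fx : ∀ D : SL(2, ℝ), x * thinD D x - thinN D x = 0 → ThinE x D (D 1 0 * x + D 1 1) :=
    fun D h => ⟨by
      have : x * (D 1 0 * x + D 1 1) - (D 0 0 * x + D 0 1) = 0 := by
        unfold thinN thinD at h
        exact_mod_cast h
      linarith, rfl⟩
  have e0 : Thin ∅ := ⟨fun _ => 1, analyticOnNhd_const, ⟨0, one_ne_zero⟩, fun _ h => h.elim⟩
  by_cases k1 : x * thinD C x - thinN C x = 0
  · rw [Set.eq_empty_of_forall_notMem (s := {x | Cyc x (a x) (b x) (c x)}) fun p hp => ?_]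
    · exact e0
    · obtain ⟨o, r, ho, e1, e2, -, e4⟩ := thin_circ hp
      exact emp c hc c1 h2 C hC _ (fx C k1) p o r ho e1 e2 e4
  by_cases k2 : x * thinD B x - thinN B x = 0
  · rw [Set.eq_empty_of_forall_notMem (s := {x | Cyc x (a x) (b x) (c x)}) fun p hp => ?_]
    · exact e0
    · obtain ⟨o, r, ho, e1, e2, e3, -⟩ := thin_circ hp
      exact emp b hb b1 h1 B hB _ (fx B k2) p o r ho e1 e2 e3
  refine thin_of
    (fun z => (z * thinD A z - thinN A z) * (thinN B z * thinD C z - thinN C z * thinD B z))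
    (fun z => (z * thinD C z - thinN C z) * (thinN A z * thinD B z - thinN B z * thinD A z))
    (by unfold thinN thinD; fun_prop) (by unfold thinN thinD; fun_prop) x (I : ℍ)
    (mul_eq_zero_of_left (by rw [thinN, thinD, x1, x2]; ring) _) (mul_ne_zero k1 ?_)
    (mul_ne_zero ?_ ?_) fun p hp => ?_
  · rw [thinN, thinD.eq_1 A, x1, x2, mul_assoc, mul_comm _ (e : ℂ), ← mul_sub]
    exact mul_ne_zero (by exact_mod_cast hx.ne) k2
  · rw [thin_num, ← sub_mul]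
    exact mul_ne_zero (thin_sub (thin_ne tA _).symm) (thin_den _ _)
  · rw [thin_num, thin_num, mul_assoc, mul_assoc, mul_comm (thinD C _), ← sub_mul, ← hB, ← hC]
    exact mul_ne_zero (thin_sub (dis b hb c hc h3 _)) (mul_ne_zero (thin_den _ _) (thin_den _ _))
  · obtain ⟨o, r, -, e1, e2, e3, e4⟩ := thin_circ hp
    have := thin_cr e1 e2 e3 e4 (thinD A p * thinD B p * thinD C p)
    simp only [thin_num, ← hA, ← hB, ← hC]
    exact thin_congr this (by ring) (by ring)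

end Pool.Agent.MC.VB
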