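import Pool.Agent.P.MP_2677b3_gt.VbDefs

/-! Coordinates on cycles, independent transversals, dealing into windows, rounding. -/

open Equiv Function

namespace Pool.Agent.MC.VB

theorem util_base_iter {D : Type} {σ : Perm D} (c : Coord σ) (d : D) (i : ℕ) :
    c.base (σ^[i] d) = c.base d := by
  induction i with
  | zero => rfl
  | succ i ih => rw [iterate_succ_apply', c.base_σ, ih]

theorem util_same {D : Type} [Finite D] {σ : Perm D} {d e : D} (h : σ.SameCycle d e) :
    ∃ i < minimalPeriod σ d, σ^[i] d = e := by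
  obtain ⟨i, -, hi⟩ := h.exists_pow_eq'
  refine ⟨i % minimalPeriod σ d, Nat.mod_lt _
    (minimalPeriod_pos_of_mem_periodicPts (σ.injective.mem_periodicPts d)), ?_⟩
  rw [iterate_mod_minimalPeriod_eq, ← hi, Perm.iterate_eq_pow]

theorem util_same_iter {D : Type} (σ : Perm D) (d : D) (i : ℕ) : σ.SameCycle d (σ^[i] d) :=
  ⟨i, by rw [zpow_natCast, Perm.iterate_eq_pow]⟩

theorem exists_coord {D : Type} [Finite D] (σ : Perm D) : Nonempty (Coord σ) := by
  let base : D → D := fun d => (Quotient.mk (Perm.SameCycle.setoid σ) d).out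
  have hb : ∀ d, σ.SameCycle (base d) d := fun d =>
    Quotient.mk_out (s := Perm.SameCycle.setoid σ) d
  have hσ : ∀ d, base (σ d) = base d := fun d =>
    congrArg Quotient.out (Quotient.sound (s := Perm.SameCycle.setoid σ)
      (util_same_iter σ d 1).symm)
  choose pos h1 h2 using fun d => util_same (hb d)
  have h3 : ∀ d, minimalPeriod σ d = minimalPeriod σ (base d) := fun d => by
    conv_lhs => rw [← h2 d]
    exact minimalPeriod_apply_iterate (σ.injective.mem_periodicPts _) _
  refine ⟨⟨base, pos, hσ, fun d => (h3 d).symm ▸ h1 d, h2, fun d => ?_⟩⟩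
  have k1 := h1 (σ d)
  have k2 := h2 (σ d)
  rw [hσ] at k1 k2
  rw [h3 d]
  refine (iterate_eq_iterate_iff_of_lt_minimalPeriod k1 (Nat.mod_lt _ (by omega))).1 ?_
  rw [k2, iterate_mod_minimalPeriod_eq, iterate_succ_apply', h2]

theorem Coord.base_eq {D : Type} [Finite D] {σ : Perm D} (c : Coord σ) (d e : D) :
    c.base d = c.base e ↔ σ.SameCycle d e := by
  have h : ∀ d, σ.SameCycle (c.base d) d := fun d => by
    have := util_same_iter σ (c.base d) (c.pos d)
    rwa [c.iter] at this
  refine ⟨fun k => (h d).symm.trans (k ▸ h e), fun k => ?_⟩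
  obtain ⟨i, -, rfl⟩ := util_same k
  exact (util_base_iter c d i).symm

theorem Coord.pos_iter {D : Type} [Finite D] {σ : Perm D} (c : Coord σ) (d : D) (i : ℕ) :
    c.pos (c.base d) = 0 ∧ c.base (σ^[i] d) = c.base d ∧
      minimalPeriod σ (σ^[i] d) = minimalPeriod σ d ∧
      minimalPeriod σ (c.base d) = minimalPeriod σ d ∧
      c.pos (σ^[i] (c.base d)) = i % minimalPeriod σ d := by
  have h0 : ∀ (e : D) (j : ℕ), minimalPeriod σ (σ^[j] e) = minimalPeriod σ e := fun e j =>
    minimalPeriod_apply_iterate (σ.injective.mem_periodicPts _) _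
  have h1 : minimalPeriod σ (c.base d) = minimalPeriod σ d := by
    rw [← h0 (c.base d) (c.pos d), c.iter]
  have h2 : c.base (c.base d) = c.base d := by
    rw [← util_base_iter c (c.base d) (c.pos d), c.iter]
  have h3 : ∀ j, c.pos (σ^[j] (c.base d)) = j % minimalPeriod σ d := fun j => by
    have k1 := c.pos_lt (σ^[j] (c.base d))
    have k2 := c.iter (σ^[j] (c.base d))
    rw [h0] at k1
    rw [util_base_iter, h2] at k2
    rw [← h1]
    refine (iterate_eq_iterate_iff_of_lt_minimalPeriod k1 (Nat.mod_lt _ (by omega))).1 ?_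
    rw [k2, iterate_mod_minimalPeriod_eq]
  exact ⟨by simpa using h3 0, util_base_iter c d i, h0 d i, h1, h3 i⟩

theorem Coord.sum_eq {D β : Type} [Fintype D] [DecidableEq D] [AddCommMonoid β] {σ : Perm D}
    (c : Coord σ) (d : D) (F : D → β) :
    ∑ e with c.base e = c.base d, F e =
      ∑ i ∈ Finset.range (minimalPeriod σ d), F (σ^[i] (c.base d)) := by
  refine Finset.sum_nbij' c.pos (fun i => σ^[i] (c.base d)) (fun e he => ?_) (fun i _ => ?_)
    (fun e he => ?_) (fun i hi => ?_) fun e he => ?_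
  · have h := (Finset.mem_filter.1 he).2
    rw [Finset.mem_range, ← (c.pos_iter d 0).2.2.2.1, ← h, (c.pos_iter e 0).2.2.2.1]
    exact c.pos_lt e
  · refine Finset.mem_filter.2 ⟨Finset.mem_univ _, ?_⟩
    rw [util_base_iter, ← util_base_iter c (c.base d) (c.pos d), c.iter]
  · rw [← (Finset.mem_filter.1 he).2, c.iter]
  · rw [(c.pos_iter d i).2.2.2.2, Nat.mod_eq_of_lt (Finset.mem_range.1 hi)]
  · rw [← (Finset.mem_filter.1 he).2, c.iter]

open Classical in
/-- Valid choices on a set of classes. -/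
noncomputable def utilVal {ι α : Type} [Fintype ι] [Fintype α] (C : ι → Finset α)
    (r : α → α → Prop) (f₀ : ι → α) (S : Finset ι) : Finset (ι → α) :=
  {f | (∀ i ∉ S, f i = f₀ i) ∧ (∀ i ∈ S, f i ∈ C i) ∧
    ∀ i ∈ S, ∀ j ∈ S, i ≠ j → ¬ r (f i) (f j)}

theorem mem_utilVal {ι α : Type} [Fintype ι] [Fintype α] {C : ι → Finset α}
    {r : α → α → Prop} {f₀ : ι → α} {S : Finset ι} {f : ι → α} :
    f ∈ utilVal C r f₀ S ↔ (∀ i ∉ S, f i = f₀ i) ∧ (∀ i ∈ S, f i ∈ C i) ∧
      ∀ i ∈ S, ∀ j ∈ S, i ≠ j → ¬ r (f i) (f j) := by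
  simp [utilVal]

open Classical in
theorem util_grow {ι α : Type} [Fintype ι] [Fintype α] (C : ι → Finset α)
    (r : α → α → Prop) (hr : ∀ a b, r a b → r b a) (Δ : ℕ) (hΔ : 0 < Δ)
    (hd : ∀ a, {b | r a b}.ncard ≤ Δ) (hC : ∀ i, 4 * Δ ≤ (C i).card)
    (hdis : ∀ i j, i ≠ j → Disjoint (C i) (C j)) (f₀ : ι → α) (S : Finset ι) :
    ∀ i ∉ S, 2 * Δ * (utilVal C r f₀ S).card ≤ (utilVal C r f₀ (insert i S)).card := by
  induction S using Finset.strongInduction with
  | H S ih =>
  intro i hi
  have hT : ∀ y, 2 * Δ * ((utilVal C r f₀ S).filter fun f => ∃ j ∈ S, f j = y).card ≤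
      (utilVal C r f₀ S).card := by
    intro y
    by_cases hy : ∃ j ∈ S, y ∈ C j
    · obtain ⟨j, hj, hy⟩ := hy
      have h1 := ih _ (Finset.erase_ssubset hj) j (Finset.notMem_erase j S)
      rw [Finset.insert_erase hj] at h1
      refine le_trans (Nat.mul_le_mul_left _ ?_) h1
      have key : ∀ f ∈ (utilVal C r f₀ S).filter fun f => ∃ j ∈ S, f j = y, f j = y := by
        intro f hf
        obtain ⟨hf, k, hk, e⟩ := Finset.mem_filter.1 hf
        by_cases hkj : k = j
        · rw [← hkj, e]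
        · exact absurd hy (Finset.disjoint_left.1 (hdis k j hkj)
            (e ▸ (mem_utilVal.1 hf).2.1 k hk))
      refine Finset.card_le_card_of_injOn (fun f => update f j (f₀ j)) (fun f hf => ?_)
        fun f hf g hg e => ?_
      · obtain ⟨a, b, c⟩ := mem_utilVal.1 (Finset.mem_filter.1 hf).1
        refine mem_utilVal.2 ⟨fun k hk => ?_, fun k hk => ?_, fun k hk l hl hkl => ?_⟩
        · by_cases hkj : k = j
          · rw [hkj]; exact update_self ..
          · exact (update_of_ne hkj _ _).trans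
              (a k fun h => hk (Finset.mem_erase.2 ⟨hkj, h⟩))
        · obtain ⟨k1, k2⟩ := Finset.mem_erase.1 hk
          simpa [update_of_ne k1] using b k k2
        · obtain ⟨k1, k2⟩ := Finset.mem_erase.1 hk
          obtain ⟨l1, l2⟩ := Finset.mem_erase.1 hl
          simpa [update_of_ne k1, update_of_ne l1] using c k k2 l l2 hkl
      · funext k
        by_cases hkj : k = j
        · rw [hkj, key f hf, key g hg]
        · simpa [update_of_ne hkj] using congrFun e k
    · rw [Finset.filter_false_of_mem, Finset.card_empty]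
      · exact Nat.zero_le _
      · rintro f hf ⟨j, hj, e⟩
        exact hy ⟨j, hj, e ▸ (mem_utilVal.1 hf).2.1 j hj⟩
  have hG : ∀ x ∈ C i, (utilVal C r f₀ S).card ≤
      2 * ((utilVal C r f₀ (insert i S)).filter fun g => g i = x).card := by
    intro x hx
    have h1 : ((utilVal C r f₀ S).filter fun f => ∀ j ∈ S, ¬ r x (f j)).card ≤
        ((utilVal C r f₀ (insert i S)).filter fun g => g i = x).card := by
      refine Finset.card_le_card_of_injOn (fun f => update f i x) (fun f hf => ?_)
        fun f hf g hg e => ?_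
      · obtain ⟨hf, d⟩ := Finset.mem_filter.1 hf
        obtain ⟨a, b, c⟩ := mem_utilVal.1 hf
        have hne : ∀ k ∈ S, k ≠ i := fun k hk e => hi (e ▸ hk)
        refine Finset.mem_filter.2 ⟨mem_utilVal.2
          ⟨fun k hk => ?_, fun k hk => ?_, fun k hk l hl hkl => ?_⟩, update_self ..⟩
        · rw [Finset.mem_insert, not_or] at hk
          exact (update_of_ne hk.1 _ _).trans (a k hk.2)
        · rcases Finset.mem_insert.1 hk with rfl | hk
          · simpa using hx
          · simpa [update_of_ne (hne k hk)] using b k hk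
        · rcases Finset.mem_insert.1 hk with e | k1 <;>
            rcases Finset.mem_insert.1 hl with e' | l1
          · exact absurd (e.trans e'.symm) hkl
          · simpa [e, update_of_ne (hne l l1)] using d l l1
          · simpa [e', update_of_ne (hne k k1)] using fun h => d k k1 (hr _ _ h)
          · simpa [update_of_ne (hne k k1), update_of_ne (hne l l1)] using c k k1 l l1 hkl
      · funext k
        by_cases hk : k = i
        · rw [hk, (mem_utilVal.1 (Finset.mem_filter.1 hf).1).1 i hi,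
            (mem_utilVal.1 (Finset.mem_filter.1 hg).1).1 i hi]
        · simpa [update_of_ne hk] using congrFun e k
    have h2 : utilVal C r f₀ S ⊆ ((utilVal C r f₀ S).filter fun f => ∀ j ∈ S, ¬ r x (f j)) ∪
        (Finset.univ.filter fun y => r x y).biUnion fun y =>
          (utilVal C r f₀ S).filter fun f => ∃ j ∈ S, f j = y := by
      intro f hf
      by_cases h : ∀ j ∈ S, ¬ r x (f j)
      · exact Finset.mem_union_left _ (Finset.mem_filter.2 ⟨hf, h⟩)
      · push Not at h
        obtain ⟨j, hj, h⟩ := h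
        exact Finset.mem_union_right _ (Finset.mem_biUnion.2 ⟨f j,
          Finset.mem_filter.2 ⟨Finset.mem_univ _, h⟩, Finset.mem_filter.2 ⟨hf, j, hj, rfl⟩⟩)
    have h3 := (Finset.card_le_card h2).trans ((Finset.card_union_le _ _).trans
      (Nat.add_le_add h1 Finset.card_biUnion_le))
    have h4 : (Finset.univ.filter fun y => r x y).card ≤ Δ := by
      refine le_trans (le_of_eq ?_) (hd x)
      rw [← Set.ncard_coe_finset]
      exact congrArg _ (by ext; simp)
    have h5 := Finset.sum_le_card_nsmul (Finset.univ.filter fun y => r x y) _ _ fun y _ => hT y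
    rw [← Finset.mul_sum, smul_eq_mul] at h5
    have h6 := h5.trans (Nat.mul_le_mul_right _ h4)
    rw [mul_comm 2 Δ, mul_assoc] at h6
    have h7 := Nat.le_of_mul_le_mul_left h6 hΔ
    omega
  have h1 := Finset.card_eq_sum_card_fiberwise (s := utilVal C r f₀ (insert i S)) (t := C i)
    (f := fun g => g i) fun g hg => (mem_utilVal.1 hg).2.1 i (Finset.mem_insert_self i S)
  have h2 := Finset.card_nsmul_le_sum (C i) _ _ hG
  rw [← Finset.mul_sum, ← h1, smul_eq_mul] at h2
  have h3 := (Nat.mul_le_mul_right (utilVal C r f₀ S).card (hC i)).trans h2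
  nlinarith

theorem indep_trans {ι α : Type} [Fintype ι] [Fintype α] [DecidableEq α] (C : ι → Finset α)
    (r : α → α → Prop) (hr : ∀ a b, r a b → r b a) (Δ : ℕ) (hΔ : 0 < Δ)
    (hd : ∀ a, {b | r a b}.ncard ≤ Δ) (hC : ∀ i, 4 * Δ ≤ (C i).card)
    (hdis : ∀ i j, i ≠ j → Disjoint (C i) (C j)) :
    ∃ f : ι → α, (∀ i, f i ∈ C i) ∧ ∀ i j, i ≠ j → ¬ r (f i) (f j) := by
  classical
  have hne : ∀ i, (C i).Nonempty := fun i => Finset.card_pos.1 (by have := hC i; omega)
  choose f₀ _ using hne
  have key : ∀ S : Finset ι, 0 < (utilVal C r f₀ S).card := by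
    intro S
    induction S using Finset.induction_on with
    | empty => exact Finset.card_pos.2 ⟨f₀, mem_utilVal.2 (by simp)⟩
    | insert i S hi ih =>
      have h := util_grow C r hr Δ hΔ hd hC hdis f₀ S i hi
      exact lt_of_lt_of_le (by positivity) h
  obtain ⟨f, hf⟩ := Finset.card_pos.1 (key Finset.univ)
  obtain ⟨-, b, c⟩ := mem_utilVal.1 hf
  exact ⟨f, fun i => b i (Finset.mem_univ i),
    fun i j => c i (Finset.mem_univ i) j (Finset.mem_univ j)⟩

theorem util_rank {α β : Type} [DecidableEq α] [DecidableEq β] (A : Finset α) (v : α → β)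
    (hv : ∀ b, (A.filter fun a => v a = b).card ≤ 16) :
    ∃ rk : α → ℕ, Set.InjOn rk A ∧ A.image rk = Finset.range A.card ∧
      ∀ a ∈ A, ∀ b ∈ A, v a = v b → rk b < rk a + 16 := by
  obtain ⟨g, hg⟩ := Set.countable_iff_exists_injOn.1 (A.image v).finite_toSet.countable
  obtain ⟨e, he⟩ := Set.countable_iff_exists_injOn.1 A.finite_toSet.countable
  let lt : α → α → Prop := fun a b => g (v a) < g (v b) ∨ (g (v a) = g (v b) ∧ e a < e b)
  let rk : α → ℕ := fun a => (A.filter fun c => lt c a).card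
  have h1 : ∀ a ∈ A, ∀ b, lt a b → rk a < rk b := by
    intro a ha b hab
    refine Finset.card_lt_card ⟨fun c hc => ?_, fun h => ?_⟩
    · obtain ⟨c1, c2⟩ := Finset.mem_filter.1 hc
      refine Finset.mem_filter.2 ⟨c1, ?_⟩
      simp only [lt] at c2 hab ⊢
      omega
    · have := (Finset.mem_filter.1 (h (Finset.mem_filter.2 ⟨ha, hab⟩))).2
      simp only [lt] at this
      omega
  have h2 : Set.InjOn rk A := by
    intro a ha b hb hab
    by_contra hne
    have k1 : e a ≠ e b := fun h => hne (he ha hb h)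
    have k2 : lt a b ∨ lt b a := by simp only [lt]; omega
    rcases k2 with k | k
    · exact (h1 a ha b k).ne hab
    · exact (h1 b hb a k).ne hab.symm
  refine ⟨rk, h2, Finset.eq_of_subset_of_card_le (fun n hn => ?_) ?_, fun a ha b hb hab => ?_⟩
  · obtain ⟨a, ha, rfl⟩ := Finset.mem_image.1 hn
    refine Finset.mem_range.2 (Finset.card_lt_card ⟨Finset.filter_subset _ _, fun h => ?_⟩)
    have := (Finset.mem_filter.1 (h ha)).2
    simp only [lt] at this
    omega
  · rw [Finset.card_image_of_injOn h2, Finset.card_range]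
  · have k1 : (A.filter fun c => lt c b) ⊆
        (A.filter fun c => lt c a) ∪ (A.filter fun c => v c = v b).erase b := by
      intro c hc
      obtain ⟨c1, c2⟩ := Finset.mem_filter.1 hc
      rcases c2 with c2 | ⟨c2, c3⟩
      · exact Finset.mem_union_left _ (Finset.mem_filter.2 ⟨c1, Or.inl (hab ▸ c2)⟩)
      · refine Finset.mem_union_right _ (Finset.mem_erase.2 ⟨fun h => c3.ne (h ▸ rfl),
          Finset.mem_filter.2 ⟨c1, hg ?_ ?_ c2⟩⟩)
        · exact Finset.mem_coe.2 (Finset.mem_image_of_mem v c1)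
        · exact Finset.mem_coe.2 (Finset.mem_image_of_mem v hb)
    have k2 := (Finset.card_le_card k1).trans (Finset.card_union_le _ _)
    have k3 : b ∈ A.filter fun c => v c = v b := Finset.mem_filter.2 ⟨hb, rfl⟩
    have k4 := Finset.card_erase_add_one k3
    have k5 := hv (v b)
    change rk b ≤ rk a + _ at k2
    omega

theorem deal {α β : Type} [DecidableEq α] [DecidableEq β] (A : Finset α) (v : α → β) (ω : ℕ)
    (hω : 0 < ω) (hv : ∀ b, (A.filter fun a => v a = b).card ≤ 16) (hA : 16 * ω ≤ A.card) :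
    ∃ col : α → ℕ, (∀ a ∈ A, col a < A.card / ω) ∧
      (∀ a ∈ A, ∀ b ∈ A, v a = v b → col a = col b → a = b) ∧
      ∀ j < A.card / ω, ω ≤ (A.filter fun a => col a = j).card ∧
        (A.filter fun a => col a = j).card ≤ 2 * ω := by
  obtain ⟨rk, h1, h2, h3⟩ := util_rank A v hv
  have hk : 16 ≤ A.card / ω := (Nat.le_div_iff_mul_le hω).2 hA
  have k1 : A.card / ω * ω ≤ A.card := Nat.div_mul_le_self _ _
  have k2 : A.card < (A.card / ω + 1) * ω := by
    rw [mul_comm]; exact Nat.lt_mul_div_succ _ hω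
  generalize A.card / ω = k at hk k1 k2 ⊢
  have hk0 : 0 < k := by omega
  refine ⟨fun a => rk a % k, fun a _ => Nat.mod_lt _ hk0, fun a ha b hb hab e => h1 ha hb ?_,
    fun j hj => ?_⟩
  · have a1 := h3 a ha b hb hab
    have a2 := h3 b hb a ha hab.symm
    exact Nat.ModEq.eq_of_abs_lt e (abs_lt.2 ⟨by omega, by omega⟩)
  · have e : (A.filter fun a => rk a % k = j).card = A.card.count (· ≡ j [MOD k]) := by
      rw [Nat.count_eq_card_filter_range, ← h2, Finset.filter_image,
        Finset.card_image_of_injOn (h1.mono (Finset.coe_subset.2 (Finset.filter_subset _ _)))]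
      refine congrArg _ (Finset.filter_congr fun a _ => ?_)
      rw [Nat.ModEq, Nat.mod_eq_of_lt hj]
    rw [e, Nat.count_modEq_card _ hk0]
    have a1 : ω ≤ A.card / k := (Nat.le_div_iff_mul_le hk0).2 (by rw [mul_comm]; exact k1)
    have a2 : A.card / k < 2 * ω := (Nat.div_lt_iff_lt_mul hk0).2 (by nlinarith)
    split_ifs <;> omega

theorem round_sum (k : ℕ) (x : ℕ → ℝ) (t : ℤ) (h : |(t : ℝ) - ∑ j ∈ Finset.range k, x j| ≤ k) :
    ∃ y : ℕ → ℤ, ∑ j ∈ Finset.range k, y j = t ∧ ∀ j < k, |(y j : ℝ) - x j| ≤ 2 := by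
  rcases Nat.eq_zero_or_pos k with rfl | hk
  · refine ⟨fun _ => 0, ?_, fun j hj => absurd hj (Nat.not_lt_zero j)⟩
    simp at h
    simp [h]
  have hk' : (0 : ℝ) < k := by exact_mod_cast hk
  obtain ⟨δ, hδ⟩ : ∃ δ : ℝ, δ * k = t - ∑ j ∈ Finset.range k, x j :=
    ⟨_, div_mul_cancel₀ _ hk'.ne'⟩
  have h1 : |δ| ≤ 1 := by
    rw [← hδ, abs_mul, abs_of_pos hk'] at h
    exact le_of_mul_le_mul_right (by rwa [one_mul]) hk'
  let Z : ℕ → ℝ := fun j => ∑ i ∈ Finset.range j, x i + δ * j
  refine ⟨fun j => ⌊Z (j + 1)⌋ - ⌊Z j⌋, ?_, fun j _ => ?_⟩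
  · rw [Finset.sum_range_sub fun j => ⌊Z j⌋]
    have a1 : Z k = t := by simp only [Z]; rw [hδ]; ring
    have a2 : Z 0 = 0 := by simp [Z]
    rw [a1, a2]
    simp
  · have a1 : Z (j + 1) = Z j + x j + δ := by
      simp only [Z]; rw [Finset.sum_range_succ]; push_cast; ring
    have a2 := Int.floor_le (Z j)
    have a3 := Int.lt_floor_add_one (Z j)
    have a4 := Int.floor_le (Z (j + 1))
    have a5 := Int.lt_floor_add_one (Z (j + 1))
    have a6 := abs_le.1 h1
    push_cast
    rw [abs_le]
    constructor <;> linarith [a6.1, a6.2]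

end Pool.Agent.MC.VB
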