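import Pool.Agent.P.MP_2677b3_gt.VbCol

/-! The tiling obtained by gluing the discs along bridges and slits. -/

open Equiv Function

noncomputable section

namespace Pool.Agent.MC.VB

open LL

/-- The source of a dart. -/
def sv (M : CMap) (e : M.D) : M.gd.V := M.gd.src e

namespace Asg

variable {M : CMap} (A : Asg M)

theorem ty_iter (n : ℕ) (e : M.D) : A.ty (M.ψ^[n] e) = A.ty e := by
  induction n with
  | zero => rfl
  | succ n ih => rw [iterate_succ_apply', A.ty_ψ, ih]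

theorem idx_iter (n : ℕ) (e : M.D) : A.idx (M.ψ^[n] e) = (A.idx e + n) % nT (A.ty e) := by
  induction n with
  | zero => exact (Nat.mod_eq_of_lt (A.idx_lt e)).symm
  | succ n ih => rw [iterate_succ_apply', A.idx_ψ, ih, A.ty_iter, Nat.mod_add_mod, add_assoc]

theorem src_iff {a b : M.D} : sv M a = sv M b ↔ ∃ n, M.ψ^[n] a = b := by
  constructor
  · intro h
    obtain ⟨n, -, hn⟩ := Perm.SameCycle.exists_pow_eq'
      (Quotient.exact (s := Perm.SameCycle.setoid M.ψ) h)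
    exact ⟨n, by rw [← hn, Perm.iterate_eq_pow]⟩
  · rintro ⟨n, rfl⟩
    exact Quotient.sound (s := Perm.SameCycle.setoid M.ψ)
      ⟨n, by rw [zpow_natCast, Perm.iterate_eq_pow]⟩

/-- The type of a vertex. -/
def tv (v : M.gd.V) : Fin 12 :=
  Quotient.lift (s := Perm.SameCycle.setoid M.ψ) A.ty (fun a b h => by
    obtain ⟨n, rfl⟩ := src_iff.1 (Quotient.sound (s := Perm.SameCycle.setoid M.ψ) h)
    exact (A.ty_iter n a).symm) v

theorem tv_src (e : M.D) : A.tv (sv M e) = A.ty e := rfl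

theorem ext_idx {a b : M.D} (h : sv M a = sv M b) (h' : A.idx a = A.idx b) : a = b := by
  obtain ⟨n, rfl⟩ := src_iff.1 h
  rw [A.idx_iter] at h'
  have h1 : nT (A.ty a) ∣ n := by
    have h2 : A.idx a ≡ A.idx a + n [MOD nT (A.ty a)] := by
      rw [Nat.ModEq, ← h', Nat.mod_eq_of_lt (A.idx_lt a)]
    simpa using (Nat.modEq_iff_dvd' (Nat.le_add_right _ _)).1 h2
  rw [← A.per] at h1
  exact (isPeriodicPt_iff_minimalPeriod_dvd.2 h1).eq.symm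

theorem exists_idx (v : M.gd.V) {i : ℕ} (h : i < nT (A.tv v)) :
    ∃ e, sv M e = v ∧ A.idx e = i := by
  obtain ⟨d⟩ := v
  change i < nT (A.ty d) at h
  refine ⟨M.ψ^[nT (A.ty d) - A.idx d + i] d, (src_iff.2 ⟨_, rfl⟩).symm, ?_⟩
  have := A.idx_lt d
  rw [A.idx_iter, show A.idx d + (nT (A.ty d) - A.idx d + i) = nT (A.ty d) + i by omega,
    Nat.add_mod_left, Nat.mod_eq_of_lt h]

open Classical in
/-- The dart with given source and index. -/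
def dt (v : M.gd.V) (i : ℕ) : M.D :=
  if h : ∃ e, sv M e = v ∧ A.idx e = i then h.choose
  else Quotient.out (s := Perm.SameCycle.setoid M.ψ) v

theorem dt_src (e : M.D) : A.dt (sv M e) (A.idx e) = e := by
  have h : ∃ d, sv M d = sv M e ∧ A.idx d = A.idx e := ⟨e, rfl, rfl⟩
  rw [dt, dif_pos h]
  exact A.ext_idx h.choose_spec.1 h.choose_spec.2

theorem len_cases (e : M.D) : A.len e = 1 ∨ A.len e % 2 = 0 :=
  (by decide +kernel : ∀ t : Fin 12, ∀ i < nT t, lenT t i = 1 ∨ lenT t i % 2 = 0) _ _ (A.idx_lt e)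

theorem len_pos (e : M.D) : 0 < A.len e := lenT_pos _ _ (A.idx_lt e)

/-- A slit dart. -/
def mx (e : M.D) (j : ℕ) (h : j < A.len e) : A.X := ⟨(e, j), h⟩

theorem nu_val (x : A.X) :
    (A.nu x).1 = if x.1.2 + 1 < A.len x.1.1 then (x.1.1, x.1.2 + 1) else (M.φ x.1.1, 0) := by
  by_cases h : x.1.2 + 1 < A.len x.1.1
  · exact (congrArg Subtype.val (dif_pos h)).trans (if_pos h).symm
  · exact (congrArg Subtype.val (dif_neg h)).trans (if_neg h).symm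

/-- The last dart of a side. -/
def last (x : A.X) : Prop := x.1.2 + 1 = A.len x.1.1

end Asg

/-- The data that are glued. -/
structure Zd (M : CMap) where
  A : Asg M
  P : ∀ t, Patch (nT t) (lenT t)
  ζ : A.X → A.X
  ζζ : ∀ x, ζ (ζ x) = x
  νζν : ∀ x, A.nu (ζ (A.nu x)) = ζ x
  ζ_tip : ∀ x, A.tip x → ζ x = A.nu x
  par : ∀ x, ¬ A.tip x → ¬ A.tip (ζ (A.nu x)) ∧ ((ζ (A.nu x)).1.2 % 2 = 1 ↔ ¬ x.1.2 % 2 = 1)

namespace Zd

variable {M : CMap} (W : Zd M)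

/-- The disc at a vertex. -/
abbrev pa (v : M.gd.V) : Patch (nT (W.A.tv v)) (lenT (W.A.tv v)) := W.P (W.A.tv v)

/-- The darts of the tiling. -/
abbrev D : Type := {z : M.gd.V × ℕ // z.2 < (W.pa z.1).N}

/-- A dart of the disc at `v`. -/
def mk' (v : M.gd.V) (y : ℕ) : W.D :=
  if h : y < (W.pa v).N then ⟨(v, y), h⟩ else ⟨(v, 0), (W.pa v).ok.pos⟩

theorem mk_eq {v : M.gd.V} {y : ℕ} (h : y < (W.pa v).N) : W.mk' v y = ⟨(v, y), h⟩ := dif_pos h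

theorem mk_self (z : W.D) : W.mk' z.1.1 z.1.2 = z := W.mk_eq z.2

theorem mk_v (v : M.gd.V) (y : ℕ) : (W.mk' v y).1.1 = v := by
  unfold mk'; split_ifs <;> rfl

def br (e : M.D) : W.D :=
  ⟨(sv M e, (W.P (W.A.ty e)).bd (W.A.idx e) (W.A.len e)),
    ((W.P _).bd_lt _ (W.A.idx_lt e) _ le_rfl).1⟩

def sl (x : W.A.X) : W.D :=
  ⟨(sv M x.1.1, (W.P (W.A.ty x.1.1)).bd (W.A.idx x.1.1) x.1.2),
    ((W.P _).bd_lt _ (W.A.idx_lt _) _ x.2.le).1⟩

/-- Interior darts. -/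
def Inn (z : W.D) : Prop := (W.pa z.1.1).a z.1.2 ≠ z.1.2

def sf (z : W.D) : W.D := ⟨(z.1.1, sx z.1.2), ((W.pa _).ok.sx_lt z.2).1⟩

open Classical in
def af (z : W.D) : W.D :=
  if W.Inn z then ⟨(z.1.1, (W.pa z.1.1).a z.1.2), ((W.pa _).ok.a_lt _ z.2).1⟩
  else if h : ((W.pa z.1.1).cl z.1.2).2 < W.A.len (W.A.dt z.1.1 ((W.pa z.1.1).cl z.1.2).1) then
    W.sl (W.ζ (W.A.mx _ _ h))
  else W.br (M.α (W.A.dt z.1.1 ((W.pa z.1.1).cl z.1.2).1))

theorem br_inn (e : M.D) : ¬ W.Inn (W.br e) :=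
  not_not.2 ((W.P _).bd_lt _ (W.A.idx_lt e) _ le_rfl).2.1

theorem sl_inn (x : W.A.X) : ¬ W.Inn (W.sl x) :=
  not_not.2 ((W.P _).bd_lt _ (W.A.idx_lt _) _ x.2.le).2.1

theorem br_cl (e : M.D) : (W.pa (W.br e).1.1).cl (W.br e).1.2 = (W.A.idx e, W.A.len e) :=
  ((W.P _).bd_lt _ (W.A.idx_lt e) _ le_rfl).2.2

theorem sl_cl (x : W.A.X) : (W.pa (W.sl x).1.1).cl (W.sl x).1.2 = (W.A.idx x.1.1, x.1.2) :=
  ((W.P _).bd_lt _ (W.A.idx_lt _) _ x.2.le).2.2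

theorem br_dt (e : M.D) :
    W.A.dt (W.br e).1.1 ((W.pa (W.br e).1.1).cl (W.br e).1.2).1 = e := by
  rw [W.br_cl]; exact W.A.dt_src e

theorem sl_dt (x : W.A.X) :
    W.A.dt (W.sl x).1.1 ((W.pa (W.sl x).1.1).cl (W.sl x).1.2).1 = x.1.1 := by
  rw [W.sl_cl]; exact W.A.dt_src _

theorem af_inn {z : W.D} (h : W.Inn z) : (W.af z).1 = (z.1.1, (W.pa z.1.1).a z.1.2) := by
  rw [af, if_pos h]

theorem af_br (e : M.D) : W.af (W.br e) = W.br (M.α e) := by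
  rw [af, if_neg (W.br_inn e), dif_neg, W.br_dt]
  rw [W.br_dt, W.br_cl]
  exact lt_irrefl _

theorem af_sl (x : W.A.X) : W.af (W.sl x) = W.sl (W.ζ x) := by
  have h : ((W.pa (W.sl x).1.1).cl (W.sl x).1.2).2 <
      W.A.len (W.A.dt (W.sl x).1.1 ((W.pa (W.sl x).1.1).cl (W.sl x).1.2).1) := by
    rw [W.sl_dt, W.sl_cl]; exact x.2
  rw [af, if_neg (W.sl_inn x), dif_pos h]
  refine congrArg (fun y => W.sl (W.ζ y)) (Subtype.ext (Prod.ext (W.sl_dt x) ?_))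
  exact (congrArg Prod.snd (W.sl_cl x) :)

theorem kinds (z : W.D) : W.Inn z ∨ (∃ e, z = W.br e) ∨ ∃ x, z = W.sl x := by
  by_cases h : W.Inn z
  · exact .inl h
  obtain ⟨⟨v, y⟩, hy⟩ := z
  obtain ⟨h1, h2, h3⟩ := (W.pa v).cl_bd y hy (not_not.1 h)
  obtain ⟨e, rfl, he⟩ := W.A.exists_idx v h1
  rw [← he] at h2 h3
  rcases h2.eq_or_lt with h4 | h4
  · rw [h4] at h3
    exact .inr (.inl ⟨e, Subtype.ext (Prod.ext rfl h3.symm)⟩)
  · exact .inr (.inr ⟨⟨(e, _), h4⟩, Subtype.ext (Prod.ext rfl h3.symm)⟩)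

theorem inn_af {z : W.D} (h : W.Inn z) : W.Inn (W.af z) ∧ W.af (W.af z) = z := by
  have h1 := W.af_inn h
  have h2 := ((W.pa _).ok.a_lt _ z.2).2
  have h3 : W.af z = ⟨(z.1.1, (W.pa z.1.1).a z.1.2), ((W.pa _).ok.a_lt _ z.2).1⟩ := Subtype.ext h1
  have h4 : W.Inn (W.af z) := by
    rw [h3]
    exact fun h5 => h (h2.symm.trans h5).symm
  refine ⟨h4, Subtype.ext ?_⟩
  rw [W.af_inn h4, h3]
  exact Prod.ext rfl h2

theorem af_af (z : W.D) : W.af (W.af z) = z := by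
  rcases W.kinds z with h | ⟨e, rfl⟩ | ⟨x, rfl⟩
  · exact (W.inn_af h).2
  · rw [W.af_br, W.af_br, M.αα]
  · rw [W.af_sl, W.af_sl, W.ζζ]

theorem sf_iter (n : ℕ) (z : W.D) : (W.sf^[n] z).1 = (z.1.1, sx^[n] z.1.2) := by
  induction n with
  | zero => rfl
  | succ n ih =>
    rw [iterate_succ_apply', iterate_succ_apply']
    exact Prod.ext (congrArg Prod.fst ih :) (congrArg (fun p : M.gd.V × ℕ => sx p.2) ih)

theorem sf_seven (z : W.D) : W.sf^[7] z = z :=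
  Subtype.ext ((W.sf_iter 7 z).trans (Prod.ext rfl ((W.pa _).ok.sx_lt z.2).2))

/-- Rotation about a vertex of the tiling. -/
def tf (z : W.D) : W.D := W.sf (W.af z)

theorem nu_last {x : W.A.X} (h : W.A.last x) : (W.A.nu x).1 = (M.φ x.1.1, 0) := by
  rw [Asg.nu_val, if_neg (by unfold Asg.last at h; omega)]

theorem nu_not {x : W.A.X} (h : ¬ W.A.last x) : (W.A.nu x).1 = (x.1.1, x.1.2 + 1) := by
  have := x.2
  rw [Asg.nu_val, if_pos (by unfold Asg.last at h; omega)]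

theorem tf_br {x : W.A.X} (h : W.A.last x) : W.tf (W.br x.1.1) = W.sl (W.A.nu x) := by
  have h1 : M.φ x.1.1 = M.ψ (M.α x.1.1) := by simp [CMap.ψ, M.αα]
  have h2 : W.A.nu x = ⟨(M.ψ (M.α x.1.1), 0), W.A.len_pos _⟩ :=
    Subtype.ext ((W.nu_last h).trans (by rw [h1]))
  rw [tf, W.af_br, h2]
  refine Subtype.ext (Prod.ext (Asg.src_iff.2 ⟨1, rfl⟩) ?_)
  change sx _ = (W.P (W.A.ty (M.ψ _))).bd (W.A.idx (M.ψ _)) 0
  rw [W.A.idx_ψ, W.A.ty_ψ]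
  exact (W.P _).br _ (W.A.idx_lt _)

open Classical in
/-- The boundary dart of the same disc that follows a slit dart. -/
def nx (x : W.A.X) : W.D := if W.A.last x then W.br x.1.1 else W.sl (W.A.nu x)

theorem nx_val (x : W.A.X) : (W.nx x).1 =
    (sv M x.1.1, (W.P (W.A.ty x.1.1)).bd (W.A.idx x.1.1) (x.1.2 + 1)) := by
  unfold nx
  split_ifs with h
  · rw [show x.1.2 + 1 = W.A.len x.1.1 from h]; rfl
  · have h2 : W.A.nu x = ⟨(x.1.1, x.1.2 + 1), by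
        have := x.2; unfold Asg.last at h; dsimp only; omega⟩ := Subtype.ext (W.nu_not h)
    rw [h2]; rfl

theorem sf_one {x : W.A.X} (h : ¬ two x.1.2 (W.A.len x.1.1)) : W.sf (W.sl x) = W.nx x :=
  Subtype.ext (by rw [W.nx_val]; exact Prod.ext rfl ((W.P _).one _ (W.A.idx_lt _) _ x.2 h))

theorem sf_two {x : W.A.X} (h : two x.1.2 (W.A.len x.1.1)) :
    W.Inn (W.sf (W.sl x)) ∧ W.tf (W.sf (W.sl x)) = W.nx x := by
  obtain ⟨h1, h2⟩ := (W.P _).tw _ (W.A.idx_lt _) _ x.2 h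
  have h3 : W.Inn (W.sf (W.sl x)) := h1
  refine ⟨h3, Subtype.ext ?_⟩
  rw [W.nx_val]
  have h4 := W.af_inn h3
  exact Prod.ext (congrArg Prod.fst h4 :)
    ((congrArg (fun p : M.gd.V × ℕ => sx p.2) h4).trans h2)

theorem tf_sl (x : W.A.X) : W.tf (W.sl x) = W.sf (W.sl (W.ζ x)) := by rw [tf, W.af_sl]

theorem tip_last {x : W.A.X} (h : W.A.tip x) : W.A.last x ∧ x.1.2 = 0 := by
  have := x.2
  unfold Asg.tip at h
  unfold Asg.last
  omega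

/-- The vertex at a tip. -/
theorem tri_tip {x : W.A.X} (h : W.A.tip x) :
    W.tf (W.sl (W.A.nu x)) = W.sf (W.sl x) ∧ W.Inn (W.sf (W.sl x)) ∧
      W.tf (W.sf (W.sl x)) = W.br x.1.1 ∧ W.tf (W.br x.1.1) = W.sl (W.A.nu x) := by
  obtain ⟨h1, h2⟩ := W.tip_last h
  obtain ⟨h3, h4⟩ := W.sf_two (x := x) (.inr ⟨by omega, h1⟩)
  refine ⟨by rw [W.tf_sl, ← W.ζ_tip x h, W.ζζ], h3, ?_, W.tf_br h1⟩
  rw [h4, nx, if_pos h1]

/-- The vertex after an even dart of a slit. -/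
theorem tri_out {x : W.A.X} (h : ¬ W.A.tip x) (h0 : ¬ x.1.2 % 2 = 1) :
    ¬ W.A.last x ∧ W.tf (W.sl (W.ζ x)) = W.sl (W.A.nu x) ∧
      W.tf (W.sl (W.A.nu x)) = W.sf (W.sl (W.ζ (W.A.nu x))) ∧
      W.tf (W.sf (W.sl (W.ζ (W.A.nu x)))) = W.sl (W.ζ x) ∧
      (W.A.last (W.ζ (W.A.nu x)) → W.sf (W.sl (W.ζ (W.A.nu x))) = W.br (W.ζ (W.A.nu x)).1.1) ∧
      (¬ W.A.last (W.ζ (W.A.nu x)) → W.Inn (W.sf (W.sl (W.ζ (W.A.nu x))))) := by
  have h1 : ¬ W.A.last x := by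
    have := W.A.len_cases x.1.1
    unfold Asg.tip at h
    unfold Asg.last
    omega
  have h2 := (W.par x h).2.2 h0
  have h3 := W.νζν x
  generalize hy : W.ζ (W.A.nu x) = y at *
  have h4 : W.A.last y → W.sf (W.sl y) = W.br y.1.1 := fun h5 => by
    rw [W.sf_one (by unfold Asg.last at h5; unfold two; omega), nx, if_pos h5]
  have h6 : ¬ W.A.last y → two y.1.2 (W.A.len y.1.1) := fun h5 => by
    have := y.2
    unfold Asg.last at h5
    exact .inl ⟨h2, by omega⟩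
  refine ⟨h1, ?_, by rw [W.tf_sl, hy], ?_, h4, fun h5 => (W.sf_two (h6 h5)).1⟩
  · rw [W.tf_sl, W.ζζ, W.sf_one (by unfold Asg.last at h1; unfold two; omega), nx, if_neg h1]
  · by_cases h5 : W.A.last y
    · rw [h4 h5, W.tf_br h5, h3]
    · rw [(W.sf_two (h6 h5)).2, nx, if_neg h5, h3]

theorem ζνζν (x : W.A.X) : W.ζ (W.A.nu (W.ζ (W.A.nu x))) = x := by rw [W.νζν, W.ζζ]

/-- Interior vertices. -/
def Tin (z : W.D) : Prop := W.Inn z ∧ W.Inn (W.tf z) ∧ W.Inn (W.tf (W.tf z)) ∧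
  W.tf (W.tf (W.tf z)) = z

theorem tf_inn {z : W.D} (h : W.Inn z) : (W.tf z).1 = (z.1.1, (W.pa z.1.1).toTab.t z.1.2) :=
  Prod.ext (congrArg Prod.fst (W.af_inn h) :)
    (congrArg (fun p : M.gd.V × ℕ => sx p.2) (W.af_inn h))

theorem tf_mk {v : M.gd.V} {y : ℕ} (h : y < (W.pa v).N) (h' : (W.pa v).a y ≠ y) :
    (W.pa v).toTab.t y < (W.pa v).N ∧ W.af (W.mk' v y) = W.mk' v ((W.pa v).a y) ∧
      W.tf (W.mk' v y) = W.mk' v ((W.pa v).toTab.t y) := by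
  have h1 := ((W.pa v).ok.a_lt y h).1
  have h2 : (W.pa v).toTab.t y < (W.pa v).N := ((W.pa v).ok.sx_lt h1).1
  rw [W.mk_eq h, W.mk_eq h1, W.mk_eq h2]
  exact ⟨h2, Subtype.ext (W.af_inn (z := ⟨(v, y), h⟩) h'),
    Subtype.ext (W.tf_inn (z := ⟨(v, y), h⟩) h')⟩

theorem inn_mk {v : M.gd.V} {y : ℕ} (h : y < (W.pa v).N) (h' : (W.pa v).a y ≠ y) :
    W.Inn (W.mk' v y) := by rw [W.mk_eq h]; exact h'

theorem tin_of {z : W.D} (h : (W.pa z.1.1).toTab.In z.1.2) : W.Tin z := by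
  obtain ⟨⟨v, y⟩, hy⟩ := z
  obtain ⟨h1, h2, h3, h4⟩ := h
  dsimp only at h1 h2 h3 h4 hy
  obtain ⟨a1, -, a2⟩ := W.tf_mk hy h1
  obtain ⟨b1, -, b2⟩ := W.tf_mk a1 h2
  obtain ⟨-, -, c2⟩ := W.tf_mk b1 h3
  rw [← W.mk_eq hy, Tin, a2, b2, c2, h4]
  exact ⟨W.inn_mk hy h1, W.inn_mk a1 h2, W.inn_mk b1 h3, rfl⟩

/-- Every dart lies at an interior vertex, at a tip or at the vertex after an even slit dart. -/
theorem cover_tri (z : W.D) : W.Tin z ∨ ∃ x, (W.A.tip x ∨ ¬ x.1.2 % 2 = 1) ∧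
    (z = W.sl (W.ζ x) ∨ z = W.tf (W.sl (W.ζ x)) ∨ z = W.tf (W.tf (W.sl (W.ζ x)))) := by
  have odd : ∀ y, ¬ W.A.tip y → y.1.2 % 2 = 1 → ∃ x, ¬ x.1.2 % 2 = 1 ∧ W.ζ (W.A.nu x) = y ∧
      W.tf (W.sl (W.ζ x)) = W.sl (W.ζ y) ∧ W.tf (W.sl (W.ζ y)) = W.sf (W.sl y) ∧
      (W.A.last y → W.sf (W.sl y) = W.br y.1.1) := fun y h1 h2 => by
    obtain ⟨h3, h4⟩ := W.par y h1
    have h5 : ¬ (W.ζ (W.A.nu y)).1.2 % 2 = 1 := fun h => h4.1 h h2
    obtain ⟨-, b1, b2, -, b3, -⟩ := W.tri_out h3 h5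
    rw [W.ζνζν] at b2 b3
    rw [W.νζν] at b1 b2
    exact ⟨_, h5, W.ζνζν y, b1, b2, b3⟩
  rcases W.kinds z with h | ⟨e, rfl⟩ | ⟨w, rfl⟩
  · obtain ⟨⟨v, y⟩, hy⟩ := z
    rcases (W.pa v).inn y hy h with h1 | ⟨i, hi, j, hj, h2, h3⟩
    · exact .inl (W.tin_of h1)
    obtain ⟨e, rfl, rfl⟩ := W.A.exists_idx v hi
    have h4 : (⟨(sv M e, y), hy⟩ : W.D) = W.sf (W.sl ⟨(e, j), hj⟩) :=
      Subtype.ext (Prod.ext rfl h3)
    rw [h4]
    by_cases ht : W.A.tip ⟨(e, j), hj⟩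
    · exact .inr ⟨_, .inl ht, .inr (.inl (by rw [W.ζ_tip _ ht, (W.tri_tip ht).1]))⟩
    · have h5 : j % 2 = 1 := by
        have := W.A.len_cases e
        unfold Asg.tip at ht
        unfold two at h2
        unfold Asg.len at this ht
        change _ ∨ (_ ∧ _ = lenT (W.A.ty e) _) at h2
        dsimp only at ht
        omega
      obtain ⟨x, c1, -, c2, c3, -⟩ := odd _ ht h5
      exact .inr ⟨x, .inr c1, .inr (.inr (by rw [c2, c3]))⟩
  · have hp := W.A.len_pos e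
    let y : W.A.X := ⟨(e, W.A.len e - 1), by dsimp only; omega⟩
    have hl : W.A.last y := by change W.A.len e - 1 + 1 = W.A.len e; omega
    by_cases ht : W.A.tip y
    · obtain ⟨b1, -, b2, -⟩ := W.tri_tip ht
      exact .inr ⟨y, .inl ht, .inr (.inr (by rw [W.ζ_tip _ ht, b1, b2]))⟩
    · have h5 : y.1.2 % 2 = 1 := by
        have := W.A.len_cases e
        change ¬ W.A.len e = 1 at ht
        change (W.A.len e - 1) % 2 = 1
        omega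
      obtain ⟨x, c1, -, c2, c3, c4⟩ := odd _ ht h5
      exact .inr ⟨x, .inr c1, .inr (.inr (by rw [c2, c3, c4 hl]))⟩
  · obtain ⟨y, rfl⟩ : ∃ y, w = W.ζ y := ⟨W.ζ w, (W.ζζ w).symm⟩
    by_cases ht : W.A.tip y ∨ ¬ y.1.2 % 2 = 1
    · exact .inr ⟨y, ht, .inl rfl⟩
    · rw [not_or, not_not] at ht
      obtain ⟨x, c1, -, c2, -⟩ := odd _ ht.1 ht.2
      exact .inr ⟨x, .inr c1, .inr (.inl c2.symm)⟩

theorem tf_three_sl {x : W.A.X} (h : W.A.tip x ∨ ¬ x.1.2 % 2 = 1) :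
    W.tf (W.tf (W.tf (W.sl (W.ζ x)))) = W.sl (W.ζ x) := by
  by_cases ht : W.A.tip x
  · obtain ⟨b1, -, b2, b3⟩ := W.tri_tip ht
    rw [W.ζ_tip _ ht, b1, b2, b3]
  · obtain ⟨-, b1, b2, b3, -⟩ := W.tri_out ht (h.resolve_left ht)
    rw [b1, b2, b3]

theorem tf_three (z : W.D) : W.tf (W.tf (W.tf z)) = z := by
  rcases W.cover_tri z with h | ⟨x, h, rfl | rfl | rfl⟩
  · exact h.2.2.2
  all_goals rw [W.tf_three_sl h]

theorem small (v : M.gd.V) : (W.pa v).N ≤ 294 := (W.pa v).small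

instance : Finite W.D := by
  have : Finite M.gd.V := inferInstanceAs (Finite (Quotient _))
  refine Finite.of_injective
    (fun z : W.D => (z.1.1, (⟨z.1.2, z.2.trans_le (W.small _)⟩ : Fin 294))) fun a b h => ?_
  exact Subtype.ext (Prod.ext (congrArg Prod.fst h :) (congrArg (fun p => p.2.val) h))

/-- The tiling. -/
def Z : T7 where
  D := W.D
  fD := inferInstance
  a := ⟨W.af, W.af, W.af_af, W.af_af⟩
  s := ⟨W.sf, W.sf^[6], fun z => by rw [← iterate_succ_apply]; exact W.sf_seven z,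
    fun z => (iterate_succ_apply' W.sf 6 z).symm.trans (W.sf_seven z)⟩
  aa := Equiv.ext W.af_af
  s7 := Equiv.ext fun z => by rw [← Perm.iterate_eq_pow]; exact W.sf_seven z
  t3 := Equiv.ext fun z => by rw [← Perm.iterate_eq_pow]; exact W.tf_three z

end Zd

end Pool.Agent.MC.VB
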